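import Pool.Agent.Lib.MP_df9110_gt.NBase

/-! Statements of the basic calculus of derivative bounds. -/

namespace Pool.Agent.Lib.MP_df9110_gt

open Filter Topology MeasureTheory
open scoped ContDiff

structure B1Facts (n : ℕ) : Prop where
  nonneg : ∀ {r k a} {f : En n → ℝ} {p}, WB r k a f p → |f p| ≤ a
  mono : ∀ {r r' k a a'} {f : En n → ℝ} {p}, WB r k a f p → 0 ≤ r → r ≤ r' → a ≤ a' →
    WB r' k a' f p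
  of_le : ∀ {r k k' a} {f : En n → ℝ} {p}, WB r k' a f p → k ≤ k' → WB r k a f p
  congr : ∀ {r k a} {f g : En n → ℝ} {p}, WB r k a f p → f =ᶠ[𝓝 p] g → WB r k a g p
  add : ∀ {r k a b} {f g : En n → ℝ} {p}, ContDiffAt ℝ ∞ f p → ContDiffAt ℝ ∞ g p →
    WB r k a f p → WB r k b g p → WB r k (a + b) (f + g) p
  smul : ∀ {r k a} {f : En n → ℝ} {p} (c : ℝ), ContDiffAt ℝ ∞ f p → WB r k a f p →
    WB r k (|c| * a) (c • f) p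
  mul : ∀ {r k a b} {f g : En n → ℝ} {p}, ContDiffAt ℝ ∞ f p → ContDiffAt ℝ ∞ g p →
    WB r k a f p → WB r k b g p → WB r k (2 ^ k * a * b) (f * g) p
  /-- the top order term of a product -/
  mul_top : ∀ {r k a b b'} {f g : En n → ℝ} {p} {A : ℝ}, ContDiffAt ℝ ∞ f p →
    ContDiffAt ℝ ∞ g p → 0 ≤ r → |f p| ≤ A → WB r (k + 1) a f p → WB r k b g p →
    WB r (k + 1) b' g p → WB r (k + 1) (A * b' + 2 ^ (k + 1) * a * b) (f * g) p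
  const : ∀ {r} k (c : ℝ) (p : En n), 0 ≤ r → WB r k |c| (fun _ => c) p
  coord : ∀ {r a} k (i : Fin n) (p : En n), 0 ≤ r → |p i| ≤ a → 1 ≤ a * r →
    WB r k a (fun q => q i) p
  /-- composition with a function of one variable -/
  comp1 : ∀ k, ∃ C : ℝ, ∀ {r A b} {u : En n → ℝ} {p} {φ : ℝ → ℝ}, ContDiffAt ℝ ∞ u p →
    ContDiffAt ℝ ∞ φ (u p) → 0 ≤ r → 0 ≤ b → (∀ j ≤ k + 1, |iteratedDeriv j φ (u p)| ≤ A) →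
    (∀ i, WB r k (b * r) (pdn i u) p) → WB r (k + 1) (C * A * (1 + b) ^ (k + 1)) (φ ∘ u) p
  /-- composition with a map -/
  comp : ∀ m k, ∃ C : ℝ, ∀ {r r₁ a τ c} {F : En m → ℝ} {Φ : En n → En m} {p},
    ContDiffAt ℝ ∞ Φ p → ContDiffAt ℝ ∞ F (Φ p) → 0 ≤ r → 0 ≤ r₁ → 0 ≤ c → τ * r₁ ≤ c * r →
    WB r₁ (k + 1) a F (Φ p) → (∀ j i, WB r k τ (pdn i fun q => Φ q j) p) →
    WB r (k + 1) (C * (1 + c) ^ (k + 1) * a) (F ∘ Φ) p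
  chain : ∀ {m} {F : En m → ℝ} {Φ : En n → En m} {p}, DifferentiableAt ℝ Φ p →
    DifferentiableAt ℝ F (Φ p) → ∀ i,
    pdn i (F ∘ Φ) p = ∑ j, pdn j F (Φ p) * pdn i (fun q => Φ q j) p
  /-- a smooth function has bounded derivatives on a compact set -/
  compact : ∀ {f : En n → ℝ} {K : Set (En n)}, IsCompact K → (∀ p ∈ K, ContDiffAt ℝ ∞ f p) →
    ∀ k, ∃ C : ℝ, ∀ p ∈ K, WB 1 k C f p

def B1Stmt : Prop := ∀ n, B1Facts n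

structure B2Facts {I : Type} {n : ℕ} (l : Filter (I × En n)) (ρ : I × En n → ℝ) : Prop where
  mk_iff : ∀ w (F : SmF l), PG ρ w (mkG l F) ↔ PB l ρ w F.1
  pos_iff : ∀ F : SmF l, PosG (mkG l F) ↔ ∃ c : ℝ, 0 < c ∧ ∀ᶠ z in l, c ≤ F.1 z.1 z.2
  mono : ∀ {w w'} {φ : SG l}, PG ρ w φ → WLe l w w' → PG ρ w' φ
  zero : ∀ w, PG ρ w (0 : SG l)
  one : PG ρ 1 (1 : SG l)
  add : ∀ {w} {φ ψ : SG l}, PG ρ w φ → PG ρ w ψ → PG ρ w (φ + ψ)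
  smul : ∀ {w} {φ : SG l} (c : ℝ), PG ρ w φ → PG ρ w (c • φ)
  mul : ∀ {w w'} {φ ψ : SG l}, PG ρ w φ → PG ρ w' ψ → PG ρ (w * w') (φ * ψ)
  der : ∀ {w} {φ : SG l} (j : Fin n), PG ρ w φ → PG ρ (w * ρ) (gD j φ)
  of_der : ∀ {w} {φ : SG l}, WLe l (fun z => (rep φ).1 z.1 z.2) w →
    (∀ j, PG ρ (w * ρ) (gD j φ)) → PG ρ w φ
  bound : ∀ {w} (F : SmF l), PG ρ w (mkG l F) → WLe l (fun z => F.1 z.1 z.2) w
  eq_zero : ∀ {w} {φ : SG l}, PG ρ w φ → (∀ᶠ z in l, w z = 0) → φ = 0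
  /-- a function of the parameter only -/
  par : ∀ c : I → ℝ, (fun i (_ : En n) => c i) ∈ SmF l ∧
    PG ρ (fun z => c z.1) (gm l fun i _ => c i) ∧ ∀ j, gD j (gm l fun i _ => c i) = 0
  exp_mk : ∀ F : SmF l, expG (mkG l F) = gm l (fun i p => Real.exp (F.1 i p)) ∧
    (fun i p => Real.exp (F.1 i p)) ∈ SmF l
  log_mk : ∀ F : SmF l, PosG (mkG l F) → logG (mkG l F) = gm l (fun i p => Real.log (F.1 i p)) ∧
    (fun i p => Real.log (F.1 i p)) ∈ SmF l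
  exp_add : ∀ φ ψ : SG l, expG (φ + ψ) = expG φ * expG ψ
  exp_zero : expG (0 : SG l) = 1
  exp_der : ∀ (φ : SG l) j, gD j (expG φ) = expG φ * gD j φ
  exp_bd : ∀ {φ : SG l}, PG ρ 1 φ → PG ρ 1 (expG φ) ∧ PosG (expG φ)
  exp_sub : ∀ {w} {φ : SG l}, WLe l w 1 → PG ρ w φ → PG ρ w (expG φ - 1) ∧
    PG ρ (w * w) (expG φ - 1 - φ)
  log_exp : ∀ φ : SG l, logG (expG φ) = φ
  exp_log : ∀ {φ : SG l}, PosG φ → expG (logG φ) = φ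
  log_bd : ∀ {φ : SG l}, PosG φ → PG ρ 1 φ → PG ρ 1 (logG φ)
  log_sub : ∀ {w} {φ : SG l}, WLe l w 1 → PosG φ → PG ρ w (φ - 1) → PG ρ w (logG φ)
  pos_mul : ∀ {φ ψ : SG l}, PosG φ → PosG ψ → PosG (φ * ψ)
  pos_add : ∀ {w} {φ ψ : SG l}, PosG φ → PG ρ w ψ → Tendsto w l (𝓝 0) → PosG (φ + ψ)
  /-- an element with invertible derivative is not a zero divisor -/
  cancel : ∀ {μ τ φ : SG l} (j : Fin n), gD j μ * τ = 1 → μ * φ = 0 → φ = 0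
  pull : ∀ {m : ℕ} {l' : Filter (I × En m)} [OpF l'] {Φ : I → En m → En n} (h : IsPull l l' Φ),
    (∀ (φ : SG l) i, gD i (h.hom φ) = ∑ a, gD i (gm l' fun j p => Φ j p a) * h.hom (gD a φ)) ∧
    (∀ φ : SG l, h.hom (expG φ) = expG (h.hom φ)) ∧
    (∀ φ : SG l, PosG φ → PosG (h.hom φ) ∧ h.hom (logG φ) = logG (h.hom φ)) ∧
    ∀ (ρ' τ : I × En m → ℝ), (∀ z, 0 ≤ ρ' z) →
      (∀ a i, PG ρ' τ (gD i (gm l' fun j p => Φ j p a))) →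
      WLe l' (fun z => τ z * ρ (z.1, Φ z.1 z.2)) ρ' →
      ∀ {w} {φ : SG l}, PG ρ w φ → PG ρ' (fun z => w (z.1, Φ z.1 z.2)) (h.hom φ)

def B2Stmt : Prop := ∀ (I : Type) (n : ℕ) (l : Filter (I × En n)) [OpF l] (ρ : I × En n → ℝ),
  (∀ z, 0 ≤ ρ z) → B2Facts l ρ

/-- Differentiation under the integral sign, with bounds. -/
def PIStmt : Prop := ∀ (n m : ℕ) (μ : Measure (En m)) (S : Set (En m)) (U : Set (En n))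
  (H : En m → En n → ℝ), IsOpen S → IsOpen U →
  ContDiffOn ℝ ∞ (fun z : En m × En n => H z.1 z.2) (S ×ˢ U) →
  (∀ p ∈ U, ∀ k, ∃ b : En m → ℝ, IntegrableOn b S μ ∧
    ∀ᶠ q in 𝓝 p, ∀ t ∈ S, WB 1 k (b t) (H t) q) →
  (∀ p ∈ U, ContDiffAt ℝ ∞ (fun q => ∫ t in S, H t q ∂μ) p) ∧
  (∀ p ∈ U, ∀ i, pdn i (fun q => ∫ t in S, H t q ∂μ) p = ∫ t in S, pdn i (H t) p ∂μ) ∧
  ∀ p ∈ U, ∀ (r : ℝ) (k : ℕ) (b : En m → ℝ), IntegrableOn b S μ →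
    (∀ t ∈ S, WB r k (b t) (H t) p) →
    WB r k (∫ t in S, b t ∂μ) (fun q => ∫ t in S, H t q ∂μ) p

/-- The same for a real integration variable. -/
def PI1Stmt : Prop := ∀ (n : ℕ) (S : Set ℝ) (U : Set (En n)) (H : ℝ → En n → ℝ),
  IsOpen S → IsOpen U → ContDiffOn ℝ ∞ (fun z : ℝ × En n => H z.1 z.2) (S ×ˢ U) →
  (∀ p ∈ U, ∀ k, ∃ b : ℝ → ℝ, IntegrableOn b S ∧ ∀ᶠ q in 𝓝 p, ∀ t ∈ S, WB 1 k (b t) (H t) q) →
  (∀ p ∈ U, ContDiffAt ℝ ∞ (fun q => ∫ t in S, H t q) p) ∧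
  (∀ p ∈ U, ∀ i, pdn i (fun q => ∫ t in S, H t q) p = ∫ t in S, pdn i (H t) p) ∧
  ∀ p ∈ U, ∀ (r : ℝ) (k : ℕ) (b : ℝ → ℝ), IntegrableOn b S →
    (∀ t ∈ S, WB r k (b t) (H t) p) → WB r k (∫ t in S, b t) (fun q => ∫ t in S, H t q) p

/-- Smooth limits and interpolation. -/
def SLStmt : Prop := ∀ n : ℕ,
  (∀ (U : Set (En n)) (f : ℕ → En n → ℝ) (g : En n → ℝ), IsOpen U →
    (∀ j, ∀ p ∈ U, ContDiffAt ℝ ∞ (f j) p) →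
    (∀ p ∈ U, ∀ k, ∃ C : ℝ, ∀ᶠ q in 𝓝 p, ∀ j, WB 1 k C (f j) q) →
    (∀ p ∈ U, Tendsto (fun j => f j p) atTop (𝓝 (g p))) →
    (∀ p ∈ U, ContDiffAt ℝ ∞ g p) ∧
    (∀ p ∈ U, ∀ i, Tendsto (fun j => pdn i (f j) p) atTop (𝓝 (pdn i g p))) ∧
    (∀ p ∈ U, ∀ i i', Tendsto (fun j => pdn i (pdn i' (f j)) p) atTop (𝓝 (pdn i (pdn i' g) p))) ∧
    ∀ p ∈ U, ∀ r k a, (∀ j, WB r k a (f j) p) → WB r k a g p) ∧
  ∀ (f : En n → ℝ) (p : En n) (s a b : ℝ) (i : Fin n), 0 < s →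
    (∀ t : ℝ, |t| ≤ s → ContDiffAt ℝ ∞ f (p + Pi.single i t) ∧ |f (p + Pi.single i t)| ≤ a ∧
      |pdn i (pdn i f) (p + Pi.single i t)| ≤ b) → |pdn i f p| ≤ 2 * a / s + b * s

end Pool.Agent.Lib.MP_df9110_gt
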