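import Pool.Agent.Lib.MP_df9110_gt.NLin
import Pool.Agent.Lib.MP_df9110_gt.NBaseS

-- part Pool.Agent.Lib.MP_df9110_gt.Prod
section

/-! Product estimates in weighted Sobolev norms. -/

namespace Pool.Agent.Lib.MP_df9110_gt

open Filter Topology MeasureTheory Finset
open scoped ContDiff

namespace Prod

/-- Sum of `Φ (∂^w u)` over all words `w` of a given length. -/
noncomputable def W : ℕ → ((Pt → ℝ) → ℝ) → (Pt → ℝ) → ℝ
  | 0, Φ, u => Φ u
  | k + 1, Φ, u => ∑ i, W k Φ (pd i u)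

theorem W_sum (k : ℕ) (Φ : Fin 4 → (Pt → ℝ) → ℝ) (u : Pt → ℝ) :
    W k (fun v => ∑ i, Φ i v) u = ∑ i, W k (Φ i) u := by
  induction k generalizing u with
  | zero => rfl
  | succ k ih => simp only [W, ih]; exact sum_comm

theorem W_comm (a b : ℕ) (Φ : (Pt → ℝ) → (Pt → ℝ) → ℝ) (f u : Pt → ℝ) :
    W a (fun g => W b (fun v => Φ g v) u) f = W b (fun v => W a (fun g => Φ g v) f) u := by
  induction a generalizing f with
  | zero => rfl
  | succ a ih => simp only [W, ih, W_sum]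

/-- The Leibniz terms with `a` derivatives on `f` and `b` derivatives on `u`. -/
noncomputable def T (γ : ℝ) (f u : Pt → ℝ) (a b : ℕ) : ℝ :=
  W a (fun g => W b (fun v => nn 0 γ (g * v)) u) f

theorem T_comm (γ : ℝ) (f u : Pt → ℝ) (a b : ℕ) : T γ f u a b = T γ u f b a := by
  simp only [T, W_comm a b, mul_comm]

theorem T_left (γ : ℝ) (f u : Pt → ℝ) (a b : ℕ) :
    T γ f u (a + 1) b = ∑ i, T γ (pd i f) u a b := rfl

theorem T_right (γ : ℝ) (f u : Pt → ℝ) (a b : ℕ) :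
    T γ f u a (b + 1) = ∑ i, T γ f (pd i u) a b := by
  simp only [T_comm γ f, T_left]

theorem pd_mul {f u : Pt → ℝ} (hf : ContDiff ℝ ∞ f) (hu : ContDiff ℝ ∞ u) (i : Fin 4) :
    pd i (f * u) = f * pd i u + pd i f * u :=
  funext fun p => pdn_mul (hf.differentiable (by simp) p) (hu.differentiable (by simp) p) i

variable (l0 : L0Facts)
include l0

theorem leibniz (k : ℕ) (γ : ℝ) {f u : Pt → ℝ} (hf : ContDiff ℝ ∞ f) (hu : CC u) :
    nn k γ (f * u) ≤ ∑ a ∈ range (k + 1), (k.choose a : ℝ) * T γ f u a (k - a) := by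
  induction k generalizing f u with
  | zero => simp [T, W]
  | succ k ih =>
    rw [sum_choose_succ_mul (fun a b => T γ f u a b) k]
    have h1 : ∑ a ∈ range (k + 1), (k.choose a : ℝ) * T γ f u a (k + 1 - a) =
        ∑ i, ∑ a ∈ range (k + 1), (k.choose a : ℝ) * T γ f (pd i u) a (k - a) := by
      rw [sum_comm]
      refine sum_congr rfl fun a ha => ?_
      rw [Nat.succ_sub (Nat.lt_succ_iff.1 (mem_range.1 ha)), T_right, mul_sum]
    have h2 : ∑ a ∈ range (k + 1), (k.choose a : ℝ) * T γ f u (a + 1) (k - a) =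
        ∑ i, ∑ a ∈ range (k + 1), (k.choose a : ℝ) * T γ (pd i f) u a (k - a) := by
      rw [sum_comm]
      refine sum_congr rfl fun a _ => ?_
      rw [T_left, mul_sum]
    rw [h1, h2, ← sum_add_distrib]
    refine sum_le_sum fun i _ => ?_
    have hf' : ContDiff ℝ ∞ (pd i f) := contDiff_pdn hf i
    rw [pd_mul hf hu.1]
    exact (l0.nn_add _ _ (l0.cc_mul hf (l0.cc_pd hu i)) (l0.cc_mul hf' hu)).trans
      (add_le_add (ih hf (l0.cc_pd hu i)) (ih hf' hu))

theorem sym_zero {m A : ℝ} {k : ℕ} {f : Pt → ℝ} (h : Sym m k f A) (y : Pt) :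
    |f y| ≤ A * wt m y :=
  l0.mono h subset_rfl le_rfl (Nat.zero_le k) le_rfl y trivial

theorem sym_nonneg {m A : ℝ} {k : ℕ} {f : Pt → ℝ} (h : Sym m k f A) : 0 ≤ A :=
  nonneg_of_mul_nonneg_left ((abs_nonneg _).trans (sym_zero l0 h 0)) (l0.wt_pos m 0)

theorem T_zero (b : ℕ) (γ : ℝ) {m A : ℝ} {f u : Pt → ℝ} (hf : ContDiff ℝ ∞ f) (hu : CC u)
    (h : Sym m 0 f A) : T γ f u 0 b ≤ A * nn b (γ + m) u := by
  induction b generalizing u with
  | zero =>
    refine l0.nn_le _ _ _ (l0.cc_mul hf hu) hu (sym_nonneg l0 h) fun y => ?_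
    have h1 := sym_zero l0 h y
    have h2 := l0.wt_pos γ y
    have h3 := l0.wt_pos m y
    rw [l0.wt_add, Pi.mul_apply, abs_mul, abs_mul, abs_mul, abs_mul, abs_of_pos h2, abs_of_pos h3]
    calc wt γ y * (|f y| * |u y|) ≤ wt γ y * (A * wt m y * |u y|) := by gcongr
      _ = _ := by ring
  | succ b ih =>
    rw [T_right, nn, mul_sum]
    exact sum_le_sum fun i _ => ih (l0.cc_pd hu i)

theorem T_le (a b : ℕ) (γ : ℝ) {m A : ℝ} {f u : Pt → ℝ} (hf : ContDiff ℝ ∞ f) (hu : CC u)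
    (h : Sym m a f A) : T γ f u a b ≤ 4 ^ a * A * nn b (γ + m - a) u := by
  induction a generalizing f m with
  | zero => simpa using T_zero l0 b γ hf hu h
  | succ a ih =>
    rw [T_left]
    refine (sum_le_sum fun i _ => ih (contDiff_pdn hf i) ((l0.succ.1 h).2 i)).trans_eq ?_
    rw [sum_const, card_univ, Fintype.card_fin, nsmul_eq_mul,
      show γ + (m - 1) - a = γ + m - (a + 1 : ℕ) by push_cast; ring]
    push_cast
    ring

theorem Yn_nonneg (t s : ℕ) (δ : ℝ) (u : Pt → ℝ) : 0 ≤ Yn t s δ u :=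
  sum_nonneg fun _ _ => l0.nn_nonneg _ _ _

theorem nn_le_Yn {t s b : ℕ} {δ γ : ℝ} {u : Pt → ℝ} (hu : CC u) (hb : b ≤ t)
    (hγ : γ ≤ δ - 2 + (min b s : ℕ)) : nn b γ u ≤ Yn t s δ u :=
  (l0.nn_mono b hu hγ).trans (single_le_sum (f := fun k => nn k (δ - 2 + (min k s : ℕ)) u)
    (fun _ _ => l0.nn_nonneg _ _ _) (mem_range.2 (Nat.lt_succ_of_le hb)))

theorem Yn_le {t s a : ℕ} (δ : ℝ) (u : Pt → ℝ) (ha : a ≤ s) (hs : s ≤ t) :
    Yn a a δ u ≤ Yn t s δ u := by
  refine le_trans (sum_le_sum fun k hk => ?_) (sum_le_sum_of_subset_of_nonneg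
    (range_mono (Nat.succ_le_succ (ha.trans hs))) fun _ _ _ => l0.nn_nonneg _ _ _)
  have := Nat.lt_succ_iff.1 (mem_range.1 hk)
  rw [min_eq_left this, min_eq_left (this.trans ha)]

omit l0 in
theorem min_le (a b s : ℕ) : ((min (a + b) s : ℕ) : ℝ) - a ≤ (min b s : ℕ) := by
  have : min (a + b) s ≤ min b s + a := by omega
  have : ((min (a + b) s : ℕ) : ℝ) ≤ (min b s : ℕ) + a := by exact_mod_cast this
  linarith

theorem mul (t s : ℕ) (δ m : ℝ) : ∃ C : ℝ, 0 ≤ C ∧ ∀ f u A, ContDiff ℝ ∞ f → CC u → Sym m t f A →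
    Yn t s (δ - m) (f * u) ≤ C * A * Yn t s δ u := by
  refine ⟨∑ k ∈ range (t + 1), ∑ a ∈ range (k + 1), (k.choose a : ℝ) * 4 ^ a, by positivity,
    fun f u A hf hu h => ?_⟩
  have hA := sym_nonneg l0 h
  rw [mul_assoc, sum_mul]
  refine sum_le_sum fun k hk => (leibniz l0 k _ hf hu).trans ?_
  rw [sum_mul]
  refine sum_le_sum fun a ha => ?_
  have hk := Nat.lt_succ_iff.1 (mem_range.1 hk)
  obtain ⟨b, rfl⟩ := Nat.exists_eq_add_of_le (Nat.lt_succ_iff.1 (mem_range.1 ha))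
  rw [Nat.add_sub_cancel_left, mul_assoc, ← mul_assoc (4 ^ a)]
  refine mul_le_mul_of_nonneg_left ((T_le l0 a b _ hf hu
    (l0.mono h subset_rfl le_rfl (by omega) le_rfl)).trans ?_) (by positivity)
  exact mul_le_mul_of_nonneg_left (nn_le_Yn l0 hu (by omega) (by linarith [min_le a b s]))
    (by positivity)

theorem top (k : ℕ) (γ m : ℝ) : ∃ C : ℝ, 0 ≤ C ∧ ∀ f u A A', ContDiff ℝ ∞ f → CC u → Sym m 0 f A →
    Sym m k f A' → nn k (γ - m) (f * u) ≤ A * nn k γ u +
      C * A' * ∑ j ∈ range k, nn j (γ - (k - j : ℕ)) u := by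
  refine ⟨∑ a ∈ range k, (k.choose (a + 1) : ℝ) * 4 ^ (a + 1), by positivity,
    fun f u A A' hf hu h h' => (leibniz l0 k _ hf hu).trans ?_⟩
  have hA := sym_nonneg l0 h'
  rw [sum_range_succ', add_comm, mul_assoc, sum_mul]
  refine add_le_add (by simpa using T_zero l0 k (γ - m) hf hu h) (sum_le_sum fun a ha => ?_)
  have ha := mem_range.1 ha
  rw [mul_assoc, ← mul_assoc (4 ^ (a + 1))]
  refine mul_le_mul_of_nonneg_left ((T_le l0 _ _ _ hf hu
    (l0.mono h' subset_rfl le_rfl ha le_rfl)).trans ?_) (by positivity)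
  refine mul_le_mul_of_nonneg_left (le_trans (le_of_eq ?_)
    (single_le_sum (f := fun j => nn j (γ - (k - j : ℕ)) u) (fun _ _ => l0.nn_nonneg _ _ _)
      (mem_range.2 (show k - (a + 1) < k by omega)))) (by positivity)
  rw [show k - (k - (a + 1)) = a + 1 by omega, sub_add_cancel]

/-- A Leibniz term of a product of two functions in the Sobolev space. -/
theorem mid (sob : SobStmt) (δ : ℝ) : ∃ C : ℕ → ℕ → ℝ, (∀ a b, 0 ≤ C a b) ∧
    ∀ {t s a b : ℕ} {γ : ℝ} {u v}, CC u → CC v → s ≤ t → min a b + 4 ≤ s → a ≤ t → b ≤ t →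
      γ - δ - a ≤ δ - 2 + (min b s : ℕ) → γ - δ - b ≤ δ - 2 + (min a s : ℕ) →
      T γ u v a b ≤ C a b * (Yn t s δ u * Yn t s δ v) := by
  choose C hC H using sob δ
  have key : ∀ {t s a b : ℕ} {γ : ℝ} {u v}, CC u → CC v → s ≤ t → a + 4 ≤ s → b ≤ t →
      γ - δ - a ≤ δ - 2 + (min b s : ℕ) →
      T γ u v a b ≤ 4 ^ a * C a * (Yn t s δ u * Yn t s δ v) := by
    intro t s a b γ u v hu hv hs ha hb hγ
    refine (T_le l0 a b γ hu.1 hv (H a u hu)).trans ?_
    have h1 := Yn_le l0 δ u ha hs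
    have h2 := nn_le_Yn l0 hv hb (s := s) (δ := δ) (γ := γ + -δ - a) (by linarith)
    have h3 := hC a
    have h4 := Yn_nonneg l0 t s δ u
    have h5 := l0.nn_nonneg b (γ + -δ - a) v
    calc _ ≤ 4 ^ a * (C a * Yn t s δ u) * Yn t s δ v := by gcongr
      _ = _ := by ring
  refine ⟨fun a b => 4 ^ min a b * C (min a b), fun a b => mul_nonneg (by positivity) (hC _),
    fun {t s a b γ u v} hu hv hs hab ha hb h1 h2 => ?_⟩
  dsimp only
  rcases le_total a b with h | h
  · rw [min_eq_left h] at hab ⊢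
    exact key hu hv hs hab hb h1
  · rw [min_eq_right h] at hab ⊢
    rw [T_comm, mul_comm (Yn t s δ u)]
    exact key hv hu hs hab ha h2

theorem alg (sob : SobStmt) (t s : ℕ) (δ : ℝ) (h1 : 12 ≤ s) (h2 : s ≤ t) (h3 : t ≤ s + 2)
    (hδ : 0 ≤ δ) : ∃ C : ℝ, 0 ≤ C ∧ ∀ u v, CC u → CC v →
      Yn t s δ (u * v) ≤ C * Yn t s δ u * Yn t s δ v := by
  obtain ⟨C, hC, H⟩ := mid l0 sob δ
  refine ⟨∑ k ∈ range (t + 1), ∑ a ∈ range (k + 1), (k.choose a : ℝ) * C a (k - a),
    sum_nonneg fun _ _ => sum_nonneg fun _ _ => mul_nonneg (by positivity) (hC _ _),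
    fun u v hu hv => ?_⟩
  rw [mul_assoc, sum_mul]
  refine sum_le_sum fun k hk => (leibniz l0 k _ hu.1 hv).trans ?_
  rw [sum_mul]
  refine sum_le_sum fun a ha => ?_
  have hk := Nat.lt_succ_iff.1 (mem_range.1 hk)
  obtain ⟨b, rfl⟩ := Nat.exists_eq_add_of_le (Nat.lt_succ_iff.1 (mem_range.1 ha))
  rw [Nat.add_sub_cancel_left, mul_assoc]
  refine mul_le_mul_of_nonneg_left (H hu hv h2 (by omega) (by omega) (by omega)
    (by linarith [min_le a b s]) ?_) (by positivity)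
  rw [add_comm a b]
  linarith [min_le b a s]

theorem alg_top (sob : SobStmt) (t s : ℕ) (δ : ℝ) (h1 : 12 ≤ s) (h2 : s ≤ t) (h3 : t ≤ s + 2)
    (hδ : 0 ≤ δ) : ∃ C : ℝ, 0 ≤ C ∧ ∀ u v A B, CC u → CC v → Sym 0 0 u A → Sym 0 0 v B →
      nn (t + 1) (δ - 1 + s) (u * v) ≤ A * nn (t + 1) (δ - 1 + s) v +
        B * nn (t + 1) (δ - 1 + s) u + C * Yn t s δ u * Yn t s δ v := by
  obtain ⟨C, hC, H⟩ := mid l0 sob δ
  refine ⟨∑ a ∈ range t, ((t + 1).choose (a + 1) : ℝ) * C (a + 1) (t - a),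
    sum_nonneg fun _ _ => mul_nonneg (by positivity) (hC _ _),
    fun u v A B hu hv hA hB => (leibniz l0 _ _ hu.1 hv).trans ?_⟩
  rw [sum_range_succ, sum_range_succ', mul_assoc, sum_mul]
  have e1 := T_zero l0 (t + 1) (δ - 1 + s) hu.1 hv hA
  have e2 := T_zero l0 (t + 1) (δ - 1 + s) hv.1 hu hB
  rw [add_zero] at e1 e2
  rw [T_comm] at e2
  have e3 : ∑ a ∈ range t, ((t + 1).choose (a + 1) : ℝ) *
      T (δ - 1 + s) u v (a + 1) (t + 1 - (a + 1)) ≤ ∑ a ∈ range t,
        ((t + 1).choose (a + 1) : ℝ) * C (a + 1) (t - a) * (Yn t s δ u * Yn t s δ v) := by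
    refine sum_le_sum fun a ha => ?_
    have ha := mem_range.1 ha
    rw [Nat.add_sub_add_right, mul_assoc]
    have k1 : (s : ℝ) + 1 ≤ (min (t - a) s : ℕ) + (a + 1 : ℕ) := by
      exact_mod_cast (by omega : s + 1 ≤ min (t - a) s + (a + 1))
    have k2 : (s : ℝ) + 1 ≤ (min (a + 1) s : ℕ) + (t - a : ℕ) := by
      exact_mod_cast (by omega : s + 1 ≤ min (a + 1) s + (t - a))
    exact mul_le_mul_of_nonneg_left (H hu hv h2 (by omega) (by omega) (by omega) (by linarith)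
      (by linarith)) (by positivity)
  simp only [Nat.choose_zero_right, Nat.choose_self, Nat.cast_one, one_mul, Nat.sub_zero,
    Nat.sub_self]
  linarith

end Prod

theorem prod (b1 : B1Stmt) (l0 : L0Facts) (sob : SobStmt) : ProdFacts :=
  ⟨Prod.mul l0, Prod.top l0, Prod.alg l0 sob, Prod.alg_top l0 sob⟩

end Pool.Agent.Lib.MP_df9110_gt
end

-- part Pool.Agent.Lib.MP_df9110_gt.Sob
section

/-! The weighted Sobolev inequality. -/

namespace Pool.Agent.Lib.MP_df9110_gt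

open Filter Topology MeasureTheory
open scoped ContDiff

namespace Sob

/-- Scale invariant weighted norm. -/
noncomputable def N (k : ℕ) (γ : ℝ) (u : Pt → ℝ) : ℝ :=
  ∑ j ∈ Finset.range (k + 1), nn j (γ + j) u

theorem Yn_eq (t : ℕ) (δ : ℝ) (u : Pt → ℝ) : Yn t t δ u = N t (δ - 2) u :=
  Finset.sum_congr rfl fun j hj => by
    rw [min_eq_left (Nat.lt_succ_iff.1 (Finset.mem_range.1 hj))]

theorem line {g : Pt → ℝ} (hg : CC g) (i : Fin 4) (x : Pt) :
    ‖g x‖ₑ ≤ ∫⁻ t, ‖pd i g (Function.update x i t)‖ₑ := by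
  have h1 : ContDiff ℝ 1 g := hg.1.of_le (by simp)
  calc ‖g x‖ₑ ≤ ∫⁻ t in Set.Iic (x i), ‖deriv (g ∘ Function.update x i) t‖ₑ := by
        apply le_trans (by simp) (HasCompactSupport.enorm_le_lintegral_Ici_deriv _ _ _)
        · exact h1.comp (by convert! contDiff_update 1 x i)
        · exact hg.2.comp_isClosedEmbedding (isClosedEmbedding_update x i)
    _ ≤ ∫⁻ t, ‖deriv (g ∘ Function.update x i) t‖ₑ :=
        lintegral_mono' Measure.restrict_le_self le_rfl
    _ = _ := by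
        refine lintegral_congr fun t => ?_
        rw [fderiv_comp_deriv _ (h1.differentiable one_ne_zero).differentiableAt
          (hasDerivAt_update x i t).differentiableAt, deriv_update]
        rfl

theorem cs {a b : Pt → ℝ} (ha : CC a) (hb : CC b) :
    ∫ y, |a y| * |b y| ≤ √(∫ y, a y ^ 2) * √(∫ y, b y ^ 2) := by
  have := integral_mul_le_Lp_mul_Lq_of_nonneg (μ := volume) Real.HolderConjugate.two_two
    (f := fun y => |a y|) (g := fun y => |b y|) (Eventually.of_forall fun _ => abs_nonneg _)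
    (Eventually.of_forall fun _ => abs_nonneg _)
    (ha.1.continuous.abs.memLp_of_hasCompactSupport ha.2.abs)
    (hb.1.continuous.abs.memLp_of_hasCompactSupport hb.2.abs)
  simpa only [Real.sqrt_eq_rpow, Real.rpow_two, sq_abs] using this

variable (l0 : L0Facts)
include l0

theorem N_nonneg (k : ℕ) (γ : ℝ) (u : Pt → ℝ) : 0 ≤ N k γ u :=
  Finset.sum_nonneg fun _ _ => l0.nn_nonneg _ _ _

theorem N_mono {k k' : ℕ} (h : k ≤ k') (γ : ℝ) (u : Pt → ℝ) : N k γ u ≤ N k' γ u :=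
  Finset.sum_le_sum_of_subset_of_nonneg (Finset.range_mono (by omega))
    fun _ _ _ => l0.nn_nonneg _ _ _

theorem N_pd (k : ℕ) (γ : ℝ) {u : Pt → ℝ} (hu : CC u) (i : Fin 4) :
    N k (γ + 1) (pd i u) ≤ N (k + 1) γ u := by
  rw [N, N, Finset.sum_range_succ' _ (k + 1)]
  refine le_add_of_le_of_nonneg (Finset.sum_le_sum fun j _ => ?_) (l0.nn_nonneg _ _ _)
  rw [show γ + 1 + j = γ + ((j + 1 : ℕ) : ℝ) by push_cast; ring]
  exact l0.nn_succ _ _ hu i

theorem wt_smooth (γ : ℝ) : ContDiff ℝ ∞ (wt γ) :=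
  contDiff_iff_contDiffAt.2 fun y => (l0.wt_sym γ).1 y trivial

theorem marg (k : ℕ) : ∀ (s : Finset (Fin 4)), sᶜ.card = k → ∀ (m γ γ' A : ℝ) (q v w : Pt → ℝ),
    m ≤ γ + γ' + k → 0 ≤ A → ContDiff ℝ ∞ q → Sym m k q A → CC v → CC w → ∀ x,
    lmarginal (fun _ => volume) s (fun y => ‖(q * (v * w)) y‖ₑ) x ≤
      ENNReal.ofReal (3 ^ k * A * N k γ v * N k γ' w) := by
  induction k with
  | zero =>
    intro s hs m γ γ' A q v w hm hA hq hS hv hw x
    have hc := l0.cc_mul hq (l0.cc_mul hv.1 hw)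
    have ha := l0.cc_mul (wt_smooth l0 γ) hv
    have hb := l0.cc_mul (wt_smooth l0 γ') hw
    rw [Finset.card_eq_zero, Finset.compl_eq_empty_iff] at hs
    rw [hs, lmarginal_univ, ← volume_pi, ← ofReal_integral_norm_eq_lintegral_enorm
      (hc.1.continuous.integrable_of_hasCompactSupport hc.2)]
    apply ENNReal.ofReal_le_ofReal
    have h1 : ∫ y, ‖(q * (v * w)) y‖ ≤ ∫ y, A * (|(wt γ * v) y| * |(wt γ' * w) y|) := by
      refine integral_mono (hc.1.continuous.integrable_of_hasCompactSupport hc.2).norm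
        (((ha.1.continuous.abs.mul hb.1.continuous.abs).integrable_of_hasCompactSupport
          ha.2.abs.mul_right).const_mul A) fun y => ?_
      have h2 : |q y| ≤ A * wt m y := hS y trivial
      have h3 : wt m y ≤ wt γ y * wt γ' y := by
        rw [← l0.wt_add]; exact l0.wt_mono (by simpa using hm) y
      have h4 : |q y| ≤ A * (wt γ y * wt γ' y) := h2.trans (mul_le_mul_of_nonneg_left h3 hA)
      simp only [Pi.mul_apply, Real.norm_eq_abs, abs_mul, abs_of_pos (l0.wt_pos _ _)]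
      calc _ ≤ A * (wt γ y * wt γ' y) * (|v y| * |w y|) := by gcongr
        _ = _ := by ring
    rw [integral_const_mul] at h1
    refine h1.trans ((mul_le_mul_of_nonneg_left (cs ha hb) hA).trans_eq ?_)
    simp [N, nn, mul_assoc]
  | succ k ih =>
    intro s hs m γ γ' A q v w hm hA hq hS hv hw x
    obtain ⟨i, hi⟩ : sᶜ.Nonempty := Finset.card_pos.1 (by omega)
    have hs' : (insert i s)ᶜ.card = k := by
      rw [Finset.compl_insert, Finset.card_erase_of_mem hi, hs]; rfl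
    have hc := l0.cc_mul hq (l0.cc_mul hv.1 hw)
    have me : ∀ {g : Pt → ℝ}, CC g → Measurable fun y => ‖g y‖ₑ := fun hg =>
      hg.1.continuous.measurable.enorm
    have hq' : ContDiff ℝ ∞ (pd i q) := contDiff_pdn hq i
    have c1 := l0.cc_mul hq' (l0.cc_mul hv.1 hw)
    have c2 := l0.cc_mul hq (l0.cc_mul (l0.cc_pd hv i).1 hw)
    have hS' : Sym m k q A := l0.mono hS le_rfl le_rfl (Nat.le_succ k) le_rfl
    push_cast at hm
    have b1 := ih _ hs' (m - 1) γ γ' A _ v w (by linarith) hA hq' ((l0.succ.1 hS).2 i) hv hw x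
    have b2 := ih _ hs' m (γ + 1) γ' A _ _ w (by linarith) hA hq hS' (l0.cc_pd hv i) hw x
    have b3 := ih _ hs' m γ (γ' + 1) A _ v _ (by linarith) hA hq hS' hv (l0.cc_pd hw i) x
    have n1 := N_nonneg l0
    have m1 := N_mono l0 (Nat.le_succ k) γ v
    have m2 := N_mono l0 (Nat.le_succ k) γ' w
    have m3 := N_pd l0 k γ hv i
    have m4 := N_pd l0 k γ' hw i
    calc _ ≤ lmarginal (fun _ => volume) (insert i s) (fun y => ‖pd i (q * (v * w)) y‖ₑ) x := by
          rw [lmarginal_insert' _ (me (l0.cc_pd hc i)) (Finset.mem_compl.1 hi)]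
          exact lmarginal_mono (fun y => line hc i y) x
      _ ≤ lmarginal (fun _ => volume) (insert i s) (fun y => ‖(pd i q * (v * w)) y‖ₑ +
          (‖(q * (pd i v * w)) y‖ₑ + ‖(q * (v * pd i w)) y‖ₑ)) x := by
          refine lmarginal_mono (fun y => ?_) x
          have d : ∀ {g : Pt → ℝ}, ContDiff ℝ ∞ g → DifferentiableAt ℝ g y := fun hg =>
            hg.differentiable (by simp) y
          have e : pd i (q * (v * w)) y = (pd i q * (v * w)) y +
              ((q * (pd i v * w)) y + (q * (v * pd i w)) y) := by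
            rw [pd_eq_pdn, pdn_mul (d hq) ((d hv.1).mul (d hw.1)), pdn_mul (d hv.1) (d hw.1)]
            simp only [Pi.mul_apply]
            ring
          simp only [e]
          exact (enorm_add_le _ _).trans (add_le_add le_rfl (enorm_add_le _ _))
      _ ≤ ENNReal.ofReal (3 ^ k * A * N k γ v * N k γ' w) +
          (ENNReal.ofReal (3 ^ k * A * N k (γ + 1) (pd i v) * N k γ' w) +
          ENNReal.ofReal (3 ^ k * A * N k γ v * N k (γ' + 1) (pd i w))) := by
          exact (lintegral_add_left ((me c1).comp measurable_updateFinset) _).trans_le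
            (add_le_add b1 ((lintegral_add_left ((me c2).comp measurable_updateFinset) _).trans_le
              (add_le_add b2 b3)))
      _ ≤ _ := by
          have p : ∀ a b c d e f, 0 ≤ 3 ^ k * A * N a b c * N d e f := fun a b c d e f => by
            have := n1 a b c
            have := n1 d e f
            positivity
          rw [← ENNReal.ofReal_add (p _ _ _ _ _ _) (p _ _ _ _ _ _), ← ENNReal.ofReal_add
            (p _ _ _ _ _ _) (add_nonneg (p _ _ _ _ _ _) (p _ _ _ _ _ _))]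
          apply ENNReal.ofReal_le_ofReal
          have := n1 k γ v
          have := n1 k γ' w
          have := n1 (k + 1) γ v
          calc _ ≤ 3 ^ k * A * N (k + 1) γ v * N (k + 1) γ' w +
              (3 ^ k * A * N (k + 1) γ v * N (k + 1) γ' w +
                3 ^ k * A * N (k + 1) γ v * N (k + 1) γ' w) := by
                gcongr
                exact n1 _ _ _
            _ = _ := by ring

theorem base (δ : ℝ) : ∃ C : ℝ, 0 ≤ C ∧ ∀ u, CC u → ∀ y,
    |u y| ≤ C * N 4 (δ - 2) u * wt (-δ) y := by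
  obtain ⟨A, hA⟩ := (l0.wt_sym (δ + δ)).2 4
  have hA' : Sym (δ + δ) 4 (wt (δ + δ)) (A ^ 2 + 1) :=
    l0.mono hA le_rfl le_rfl le_rfl (by nlinarith [sq_nonneg (A - 1 / 2)])
  refine ⟨9 * (A ^ 2 + 1), by positivity, fun u hu y => ?_⟩
  have h := marg l0 4 ∅ (by simp) (δ + δ) (δ - 2) (δ - 2) _ _ u u (by push_cast; linarith)
    (by positivity) (wt_smooth l0 _) hA' hu hu y
  have n1 := N_nonneg l0 4 (δ - 2) u
  rw [lmarginal_empty, ← ofReal_norm, ENNReal.ofReal_le_ofReal_iff (by positivity),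
    Pi.mul_apply, Pi.mul_apply, l0.wt_add, Real.norm_eq_abs] at h
  have h1 : |wt δ y * u y| ≤ 9 * (A ^ 2 + 1) * N 4 (δ - 2) u := by
    refine abs_le_of_sq_le_sq' ?_ (by positivity) |> abs_le.2
    have h2 := sq_nonneg (N 4 (δ - 2) u)
    have h3 : (A ^ 2 + 1) * N 4 (δ - 2) u ^ 2 ≤ (A ^ 2 + 1) ^ 2 * N 4 (δ - 2) u ^ 2 :=
      mul_le_mul_of_nonneg_right (by nlinarith [sq_nonneg A]) h2
    nlinarith [le_abs_self (wt δ y * wt δ y * (u y * u y))]
  have h2 : wt δ y * wt (-δ) y = 1 := by rw [← l0.wt_add, add_neg_cancel, l0.wt_zero]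
  rw [abs_mul, abs_of_pos (l0.wt_pos _ _)] at h1
  calc |u y| = wt δ y * |u y| * wt (-δ) y := by rw [mul_right_comm, h2, one_mul]
    _ ≤ _ := mul_le_mul_of_nonneg_right h1 (l0.wt_pos _ _).le

end Sob

open Sob in
theorem sob (_b1 : B1Stmt) (l0 : L0Facts) : SobStmt := by
  intro δ k
  simp only [Yn_eq]
  induction k generalizing δ with
  | zero =>
    obtain ⟨C, hC, h⟩ := base l0 δ
    exact ⟨C, hC, fun u hu y _ => h u hu y⟩
  | succ k ih =>
    obtain ⟨C, hC, h⟩ := base l0 δ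
    obtain ⟨C', hC', h'⟩ := ih (δ + 1)
    refine ⟨C + C', by positivity, fun u hu => l0.succ.2 ⟨fun y _ => (h u hu y).trans ?_,
      fun i => l0.mono (h' _ (l0.cc_pd hu i)) le_rfl (by linarith) le_rfl ?_⟩⟩
    · have := N_mono l0 (show 4 ≤ k + 1 + 4 by omega) (δ - 2) u
      have := N_nonneg l0 4 (δ - 2) u
      have := (l0.wt_pos (-δ) y).le
      gcongr
      linarith
    · have := N_pd l0 (k + 4) (δ - 2) hu i
      rw [show δ + 1 - 2 = δ - 2 + 1 by ring, show k + 1 + 4 = k + 4 + 1 by ring]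
      have := N_nonneg l0 (k + 4) (δ - 2 + 1) (pd i u)
      gcongr
      linarith

end Pool.Agent.Lib.MP_df9110_gt
end

-- part Pool.Agent.Lib.MP_df9110_gt.B1
section

/-! Calculus of pointwise derivative bounds. -/

namespace Pool.Agent.Lib.MP_df9110_gt

open Filter Topology
open scoped ContDiff

namespace B1

variable {n : ℕ}

theorem nonneg {r k a} {f : En n → ℝ} {p} (h : WB r k a f p) : |f p| ≤ a := by
  cases k with
  | zero => exact h
  | succ k => exact h.1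

theorem pos {r k a} {f : En n → ℝ} {p} (h : WB r k a f p) : 0 ≤ a :=
  (abs_nonneg _).trans (nonneg h)

theorem mono {r r' k a a'} {f : En n → ℝ} {p} (h : WB r k a f p) (hr : 0 ≤ r) (hr' : r ≤ r')
    (ha : a ≤ a') : WB r' k a' f p := by
  induction k generalizing a a' f with
  | zero => exact le_trans h ha
  | succ k ih =>
    exact ⟨h.1.trans ha, fun i => ih (h.2 i) (mul_le_mul ha hr' hr ((pos h).trans ha))⟩

theorem pred {r k a} {f : En n → ℝ} {p} (h : WB r (k + 1) a f p) : WB r k a f p := by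
  induction k generalizing a f with
  | zero => exact h.1
  | succ k ih => exact ⟨h.1, fun i => ih (h.2 i)⟩

theorem of_le {r k k' a} {f : En n → ℝ} {p} (h : WB r k' a f p) (hk : k ≤ k') : WB r k a f p := by
  induction hk with
  | refl => exact h
  | step _ ih => exact ih (pred h)

theorem congr {r k a} {f g : En n → ℝ} {p} (h : WB r k a f p) (e : f =ᶠ[𝓝 p] g) :
    WB r k a g p := by
  induction k generalizing a f g with
  | zero =>
    change |g p| ≤ a
    rw [← e.self_of_nhds]; exact h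
  | succ k ih => exact ⟨e.self_of_nhds ▸ h.1, fun i => ih (h.2 i) (pdn_congr e i)⟩

theorem ev_add {f g : En n → ℝ} {p} (hf : ContDiffAt ℝ ∞ f p) (hg : ContDiffAt ℝ ∞ g p)
    (i : Fin n) : pdn i f + pdn i g =ᶠ[𝓝 p] pdn i (f + g) := by
  filter_upwards [ev_diff hf, ev_diff hg] with q h1 h2 using (pdn_add h1 h2 i).symm

theorem ev_mul {f g : En n → ℝ} {p} (hf : ContDiffAt ℝ ∞ f p) (hg : ContDiffAt ℝ ∞ g p)
    (i : Fin n) : f * pdn i g + pdn i f * g =ᶠ[𝓝 p] pdn i (f * g) := by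
  filter_upwards [ev_diff hf, ev_diff hg] with q h1 h2 using (pdn_mul h1 h2 i).symm

theorem add {r k a b} {f g : En n → ℝ} {p} (hf : ContDiffAt ℝ ∞ f p) (hg : ContDiffAt ℝ ∞ g p)
    (h1 : WB r k a f p) (h2 : WB r k b g p) : WB r k (a + b) (f + g) p := by
  induction k generalizing a b f g with
  | zero => exact (abs_add_le _ _).trans (add_le_add h1 h2)
  | succ k ih =>
    refine ⟨(abs_add_le _ _).trans (add_le_add h1.1 h2.1), fun i => ?_⟩
    rw [add_mul]
    exact congr (ih (contDiffAt_pdn hf i) (contDiffAt_pdn hg i) (h1.2 i) (h2.2 i)) (ev_add hf hg i)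

theorem smul {r k a} {f : En n → ℝ} {p} (c : ℝ) (hf : ContDiffAt ℝ ∞ f p) (h : WB r k a f p) :
    WB r k (|c| * a) (c • f) p := by
  have h0 : ∀ {a} {f : En n → ℝ}, |f p| ≤ a → |(c • f) p| ≤ |c| * a := fun h => by
    rw [Pi.smul_apply, smul_eq_mul, abs_mul]
    exact mul_le_mul_of_nonneg_left h (abs_nonneg _)
  induction k generalizing a f with
  | zero => exact h0 h
  | succ k ih =>
    refine ⟨h0 h.1, fun i => ?_⟩
    rw [mul_assoc]
    refine congr (ih (contDiffAt_pdn hf i) (h.2 i)) ?_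
    filter_upwards [ev_diff hf] with q h1 using (pdn_smul h1 c i).symm

theorem abs_mul_le {a b : ℝ} {f g : En n → ℝ} {p} (h1 : |f p| ≤ a) (h2 : |g p| ≤ b) :
    |(f * g) p| ≤ a * b := by
  rw [Pi.mul_apply, abs_mul]
  exact mul_le_mul h1 h2 (abs_nonneg _) ((abs_nonneg _).trans h1)

theorem mul {r k a b} {f g : En n → ℝ} {p} (hf : ContDiffAt ℝ ∞ f p) (hg : ContDiffAt ℝ ∞ g p)
    (h1 : WB r k a f p) (h2 : WB r k b g p) : WB r k (2 ^ k * a * b) (f * g) p := by
  induction k generalizing a b f g with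
  | zero =>
    rw [pow_zero, one_mul]
    exact abs_mul_le h1 h2
  | succ k ih =>
    refine ⟨(abs_mul_le h1.1 h2.1).trans ?_, fun i => ?_⟩
    · rw [mul_assoc]
      exact le_mul_of_one_le_left (mul_nonneg (pos h1) (pos h2)) (one_le_pow₀ (by norm_num))
    · have hf' := contDiffAt_pdn hf i
      have hg' := contDiffAt_pdn hg i
      have h3 := add (hf.mul hg') (hf'.mul hg) (ih hf hg' (pred h1) (h2.2 i))
        (ih hf' hg (h1.2 i) (pred h2))
      have e : 2 ^ (k + 1) * a * b * r = 2 ^ k * a * (b * r) + 2 ^ k * (a * r) * b := by ring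
      rw [e]
      exact congr h3 (ev_mul hf hg i)

theorem mul_top {r k a b b'} {f g : En n → ℝ} {p} {A : ℝ} (hf : ContDiffAt ℝ ∞ f p)
    (hg : ContDiffAt ℝ ∞ g p) (hr : 0 ≤ r) (hA : |f p| ≤ A) (h1 : WB r (k + 1) a f p)
    (h2 : WB r k b g p) (h3 : WB r (k + 1) b' g p) :
    WB r (k + 1) (A * b' + 2 ^ (k + 1) * a * b) (f * g) p := by
  induction k generalizing b b' g with
  | zero =>
    have ha := pos h1
    have hb := pos h2
    refine ⟨(abs_mul_le hA h3.1).trans (le_add_of_nonneg_right (by positivity)), fun i => ?_⟩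
    have h4 : WB r 0 (A * (b' * r)) (f * pdn i g) p := abs_mul_le hA (h3.2 i)
    have h5 : WB r 0 (a * r * b) (pdn i f * g) p := abs_mul_le (h1.2 i) h2
    refine mono (congr (add (hf.mul (contDiffAt_pdn hg i)) ((contDiffAt_pdn hf i).mul hg) h4 h5)
      (ev_mul hf hg i)) hr le_rfl ?_
    have : 0 ≤ a * r * b := by positivity
    rw [zero_add, pow_one]
    linarith
  | succ k ih =>
    have ha := pos h1
    have hb := pos h2
    refine ⟨(abs_mul_le hA h3.1).trans (le_add_of_nonneg_right (by positivity)), fun i => ?_⟩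
    have hf' := contDiffAt_pdn hf i
    have hg' := contDiffAt_pdn hg i
    have h4 := add (hf.mul hg') (hf'.mul hg) (ih hg' (pred h1) (h2.2 i) (h3.2 i))
      (mul hf' hg (h1.2 i) h2)
    have e : (A * b' + 2 ^ (k + 1 + 1) * a * b) * r =
        A * (b' * r) + 2 ^ (k + 1) * a * (b * r) + 2 ^ (k + 1) * (a * r) * b := by ring
    rw [e]
    exact congr h4 (ev_mul hf hg i)

theorem const' {r a} (k : ℕ) {c : ℝ} (p : En n) (hr : 0 ≤ r) (h : |c| ≤ a) :
    WB r k a (fun _ => c) p := by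
  induction k generalizing a c with
  | zero => exact h
  | succ k ih =>
    refine ⟨h, fun i => ?_⟩
    have e : pdn i (fun _ : En n => c) = fun _ => 0 := by
      funext q; simp [pdn]
    rw [e]
    exact ih (by simpa using mul_nonneg ((abs_nonneg _).trans h) hr)

theorem coord {r a} (k : ℕ) (i : Fin n) (p : En n) (hr : 0 ≤ r) (h : |p i| ≤ a)
    (h1 : 1 ≤ a * r) : WB r k a (fun q => q i) p := by
  cases k with
  | zero => exact h
  | succ k =>
    refine ⟨h, fun j => ?_⟩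
    have e : pdn j (fun q : En n => q i) = fun _ => (Pi.single j 1 : En n) i := by
      funext q
      rw [pdn, (hasFDerivAt_apply i q).fderiv]
      rfl
    rw [e]
    refine const' k p hr (le_trans ?_ h1)
    rw [Pi.single_apply]
    split_ifs <;> simp

theorem sum {r k b} {κ : Type} (s : Finset κ) {f : κ → En n → ℝ} {p} (hr : 0 ≤ r)
    (hf : ∀ j, ContDiffAt ℝ ∞ (f j) p) (h : ∀ j, WB r k b (f j) p) :
    WB r k (s.card * b) (∑ j ∈ s, f j) p := by
  classical
  induction s using Finset.induction_on with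
  | empty => exact const' (c := 0) k p hr (by simp)
  | insert j s hj ih =>
    rw [Finset.sum_insert hj, Finset.card_insert_of_notMem hj, Nat.cast_succ, add_mul, one_mul,
      add_comm]
    refine add (hf j) ?_ (h j) ih
    have := ContDiffAt.sum (s := s) fun j _ => hf j
    rwa [← Finset.sum_fn] at this

theorem chain {m} {F : En m → ℝ} {Φ : En n → En m} {p} (hΦ : DifferentiableAt ℝ Φ p)
    (hF : DifferentiableAt ℝ F (Φ p)) (i : Fin n) :
    pdn i (F ∘ Φ) p = ∑ j, pdn j F (Φ p) * pdn i (fun q => Φ q j) p := by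
  have h1 : ∀ j, pdn i (fun q => Φ q j) p = fderiv ℝ Φ p (Pi.single i 1) j := fun j => by
    rw [pdn, (hasFDerivAt_pi'.1 hΦ.hasFDerivAt j).fderiv]
    rfl
  rw [pdn, fderiv_comp p hF hΦ, ContinuousLinearMap.comp_apply]
  conv_lhs => rw [pi_eq_sum_univ' (fderiv ℝ Φ p (Pi.single i 1))]
  rw [map_sum]
  refine Finset.sum_congr rfl fun j _ => ?_
  rw [map_smul, h1, smul_eq_mul, mul_comm]
  rfl

theorem comp_step (m k : ℕ) (C : ℝ) (hC : 1 ≤ C)
    (ih : ∀ {r r₁ a τ c} {F : En m → ℝ} {Φ : En n → En m} {p},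
      ContDiffAt ℝ ∞ Φ p → ContDiffAt ℝ ∞ F (Φ p) → 0 ≤ r → 0 ≤ r₁ → 0 ≤ c → τ * r₁ ≤ c * r →
      WB r₁ k a F (Φ p) → (∀ j i, WB r k τ (pdn i fun q => Φ q j) p) →
      WB r k (C * (1 + c) ^ k * a) (F ∘ Φ) p)
    {r r₁ a τ c} {F : En m → ℝ} {Φ : En n → En m} {p} (hΦ : ContDiffAt ℝ ∞ Φ p)
    (hF : ContDiffAt ℝ ∞ F (Φ p)) (hr : 0 ≤ r) (hr₁ : 0 ≤ r₁) (hc : 0 ≤ c)
    (hτ : τ * r₁ ≤ c * r) (h1 : WB r₁ (k + 1) a F (Φ p))
    (h2 : ∀ j i, WB r k τ (pdn i fun q => Φ q j) p) :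
    WB r (k + 1) ((m + 1) * 2 ^ k * C * (1 + c) ^ (k + 1) * a) (F ∘ Φ) p := by
  have ha := pos h1
  have hm : (0 : ℝ) ≤ m := Nat.cast_nonneg m
  have hC0 : 0 ≤ C := by linarith
  refine ⟨h1.1.trans (le_mul_of_one_le_left ha ?_), fun i => ?_⟩
  · exact one_le_mul_of_one_le_of_one_le (one_le_mul_of_one_le_of_one_le
      (one_le_mul_of_one_le_of_one_le (by linarith) (one_le_pow₀ (by norm_num))) hC)
      (one_le_pow₀ (by linarith))
  · have hj : ∀ j, ContDiffAt ℝ ∞ (pdn i fun q => Φ q j) p := fun j =>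
      contDiffAt_pdn (contDiffAt_pi.1 hΦ j) i
    have hF' : ∀ j, ContDiffAt ℝ ∞ (pdn j F ∘ Φ) p := fun j => (contDiffAt_pdn hF j).comp p hΦ
    have h3 := sum Finset.univ hr (fun j => (hF' j).mul (hj j)) fun j =>
      mul (hF' j) (hj j) (ih hΦ (contDiffAt_pdn hF j) hr hr₁ hc hτ (h1.2 j) h2) (h2 j i)
    refine mono (congr h3 ?_) hr le_rfl ?_
    · have e1 : ∀ᶠ q in 𝓝 p, DifferentiableAt ℝ Φ q := by
        have h1 : ContDiffAt ℝ 1 Φ p := hΦ.of_le (by simp)
        filter_upwards [h1.eventually (by simp)] with q hq using hq.differentiableAt (by simp)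
      filter_upwards [e1, hΦ.continuousAt.eventually (ev_diff hF)] with q a1 a2
      rw [chain a1 a2, Finset.sum_apply]
      rfl
    · rw [Finset.card_univ, Fintype.card_fin]
      have e2 : τ * r₁ ≤ (1 + c) * r := by nlinarith
      calc (m : ℝ) * (2 ^ k * (C * (1 + c) ^ k * (a * r₁)) * τ)
          = m * (2 ^ k * C * (1 + c) ^ k * a) * (τ * r₁) := by ring
        _ ≤ m * (2 ^ k * C * (1 + c) ^ k * a) * ((1 + c) * r) :=
            mul_le_mul_of_nonneg_left e2 (by positivity)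
        _ ≤ (m + 1) * (2 ^ k * C * (1 + c) ^ k * a) * ((1 + c) * r) := by
            gcongr; linarith
        _ = _ := by ring

theorem comp_aux (m k : ℕ) : ∃ C : ℝ, 1 ≤ C ∧
    ∀ {r r₁ a τ c} {F : En m → ℝ} {Φ : En n → En m} {p},
      ContDiffAt ℝ ∞ Φ p → ContDiffAt ℝ ∞ F (Φ p) → 0 ≤ r → 0 ≤ r₁ → 0 ≤ c → τ * r₁ ≤ c * r →
      WB r₁ k a F (Φ p) → (∀ j i, WB r k τ (pdn i fun q => Φ q j) p) →
      WB r k (C * (1 + c) ^ k * a) (F ∘ Φ) p := by
  induction k with
  | zero =>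
    refine ⟨1, le_rfl, fun _ _ _ _ _ _ h _ => ?_⟩
    rw [pow_zero, one_mul, one_mul]
    exact h
  | succ k ih =>
    obtain ⟨C, hC, ih⟩ := ih
    have hm : (0 : ℝ) ≤ m := Nat.cast_nonneg m
    exact ⟨(m + 1) * 2 ^ k * C, one_le_mul_of_one_le_of_one_le
      (one_le_mul_of_one_le_of_one_le (by linarith) (one_le_pow₀ (by norm_num))) hC,
      fun a1 a2 a3 a4 a5 a6 a7 a8 => comp_step m k C hC ih a1 a2 a3 a4 a5 a6 a7
        fun j i => pred (a8 j i)⟩

theorem comp1_step (k : ℕ) (C : ℝ) (hC : 1 ≤ C)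
    (ih : ∀ {r A b} {u : En n → ℝ} {p} {φ : ℝ → ℝ}, ContDiffAt ℝ ∞ u p →
      ContDiffAt ℝ ∞ φ (u p) → 0 ≤ r → 0 ≤ b → (∀ j ≤ k, |iteratedDeriv j φ (u p)| ≤ A) →
      (∀ i, WB r k (b * r) (pdn i u) p) → WB r k (C * A * (1 + b) ^ k) (φ ∘ u) p)
    {r A b} {u : En n → ℝ} {p} {φ : ℝ → ℝ} (hu : ContDiffAt ℝ ∞ u p)
    (hφ : ContDiffAt ℝ ∞ φ (u p)) (hr : 0 ≤ r) (hb : 0 ≤ b)
    (h1 : ∀ j ≤ k + 1, |iteratedDeriv j φ (u p)| ≤ A) (h2 : ∀ i, WB r k (b * r) (pdn i u) p) :
    WB r (k + 1) (2 ^ k * C * A * (1 + b) ^ (k + 1)) (φ ∘ u) p := by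
  have h0 : |φ (u p)| ≤ A := by simpa using h1 0 (Nat.zero_le _)
  have hA : 0 ≤ A := (abs_nonneg _).trans h0
  have hC0 : 0 ≤ C := by linarith
  refine ⟨h0.trans ?_, fun i => ?_⟩
  · rw [mul_right_comm]
    exact le_mul_of_one_le_left hA (one_le_mul_of_one_le_of_one_le
      (one_le_mul_of_one_le_of_one_le (one_le_pow₀ (by norm_num)) hC) (one_le_pow₀ (by linarith)))
  · have hφ' : ContDiffAt ℝ ∞ (deriv φ) (u p) :=
      (hφ.fderiv_right (m := ∞) (by simp)).clm_apply contDiffAt_const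
    have h3 := mul (hφ'.comp p hu) (contDiffAt_pdn hu i)
      (ih hu hφ' hr hb (fun j hj => by
        rw [← iteratedDeriv_succ']; exact h1 (j + 1) (by omega)) h2) (h2 i)
    refine mono (congr h3 ?_) hr le_rfl ?_
    · have e1 : ∀ᶠ x in 𝓝 (u p), DifferentiableAt ℝ φ x := by
        have h1 : ContDiffAt ℝ 1 φ (u p) := hφ.of_le (by simp)
        filter_upwards [h1.eventually (by simp)] with q hq using hq.differentiableAt (by simp)
      filter_upwards [ev_diff hu, hu.continuousAt.eventually e1] with q a1 a2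
      rw [pdn, (a2.hasDerivAt.comp_hasFDerivAt q a1.hasFDerivAt).fderiv]
      rfl
    · calc 2 ^ k * (C * A * (1 + b) ^ k) * (b * r)
          ≤ 2 ^ k * (C * A * (1 + b) ^ k) * ((1 + b) * r) := by gcongr; linarith
        _ = _ := by ring

theorem comp1_aux (k : ℕ) : ∃ C : ℝ, 1 ≤ C ∧
    ∀ {r A b} {u : En n → ℝ} {p} {φ : ℝ → ℝ}, ContDiffAt ℝ ∞ u p →
      ContDiffAt ℝ ∞ φ (u p) → 0 ≤ r → 0 ≤ b → (∀ j ≤ k, |iteratedDeriv j φ (u p)| ≤ A) →
      (∀ i, WB r k (b * r) (pdn i u) p) → WB r k (C * A * (1 + b) ^ k) (φ ∘ u) p := by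
  induction k with
  | zero =>
    refine ⟨1, le_rfl, fun _ _ _ _ h _ => ?_⟩
    rw [pow_zero, one_mul, mul_one]
    have := h 0 le_rfl
    rwa [iteratedDeriv_zero] at this
  | succ k ih =>
    obtain ⟨C, hC, ih⟩ := ih
    exact ⟨2 ^ k * C, one_le_mul_of_one_le_of_one_le (one_le_pow₀ (by norm_num)) hC,
      fun a1 a2 a3 a4 a5 a6 => comp1_step k C hC ih a1 a2 a3 a4 a5 fun i => pred (a6 i)⟩

theorem compact {f : En n → ℝ} {K : Set (En n)} (hK : IsCompact K)
    (hf : ∀ p ∈ K, ContDiffAt ℝ ∞ f p) (k : ℕ) : ∃ C : ℝ, ∀ p ∈ K, WB 1 k C f p := by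
  have h0 : ∀ {f : En n → ℝ}, (∀ p ∈ K, ContDiffAt ℝ ∞ f p) → ∃ C : ℝ, ∀ p ∈ K, |f p| ≤ C :=
    fun hf => hK.exists_bound_of_continuousOn
      fun p hp => (hf p hp).continuousAt.continuousWithinAt
  induction k generalizing f with
  | zero => exact h0 hf
  | succ k ih =>
    obtain ⟨C₀, hC₀⟩ := h0 hf
    choose C hC using fun i => ih fun p hp => contDiffAt_pdn (hf p hp) i
    obtain ⟨C₁, hC₁⟩ := (Set.finite_range C).bddAbove
    refine ⟨max C₀ C₁, fun p hp => ⟨(hC₀ p hp).trans (le_max_left _ _), fun i =>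
      mono (hC i p hp) zero_le_one le_rfl ?_⟩⟩
    rw [mul_one]
    exact (hC₁ ⟨i, rfl⟩).trans (le_max_right _ _)

end B1

theorem b1 : B1Stmt := fun n =>
  { nonneg := B1.nonneg
    mono := B1.mono
    of_le := B1.of_le
    congr := B1.congr
    add := B1.add
    smul := B1.smul
    mul := B1.mul
    mul_top := B1.mul_top
    const := fun k _ p hr => B1.const' k p hr le_rfl
    coord := B1.coord
    comp1 := fun k => by
      obtain ⟨C, hC, h⟩ := B1.comp1_aux (n := n) k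
      exact ⟨_, B1.comp1_step k C hC h⟩
    comp := fun m k => by
      obtain ⟨C, hC, h⟩ := B1.comp_aux (n := n) m k
      exact ⟨_, B1.comp_step m k C hC h⟩
    chain := B1.chain
    compact := B1.compact }

end Pool.Agent.Lib.MP_df9110_gt
end
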