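import Pool.Agent.Lib.MP_df9110_gt.NPert

-- part Pool.Agent.Lib.MP_df9110_gt.Asy
section

/-! Asymptotics, completeness and invariance of the scalar curvature (`AsyStmt`). -/

namespace Pool.Agent.Lib.MP_df9110_gt

open Filter Topology MeasureTheory
open scoped ContDiff

namespace Asy

theorem cd_det {A : Pt → Mat} {y : Pt} (h : ∀ i j, ContDiffAt ℝ ∞ (fun z => A z i j) y) :
    ContDiffAt ℝ ∞ (fun z => (A z).det) y := by
  simp only [Matrix.det_apply']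
  exact ContDiffAt.sum fun σ _ => contDiffAt_const.mul (contDiffAt_prod fun i _ => h _ _)

theorem cd_inv {A : Pt → Mat} {y : Pt} (h : ∀ i j, ContDiffAt ℝ ∞ (fun z => A z i j) y)
    (hd : (A y).det ≠ 0) (i j : Fin 4) : ContDiffAt ℝ ∞ (fun z => (A z)⁻¹ i j) y := by
  simp only [Matrix.inv_def, Ring.inverse_eq_inv', Matrix.smul_apply, smul_eq_mul,
    Matrix.adjugate_apply]
  refine ((cd_det h).inv hd).mul (cd_det fun a b => ?_)
  by_cases hab : a = j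
  · simp only [hab, Matrix.updateRow_self]
    exact contDiffAt_const
  · simp only [Matrix.updateRow_ne hab]
    exact h a b

theorem nsq_nonneg (y : Pt) : 0 ≤ nsq y := Finset.sum_nonneg fun _ _ => sq_nonneg _

theorem nsq_le (y : Pt) : nsq y ≤ 4 * ‖y‖ ^ 2 := by
  have h : ∀ i, y i ^ 2 ≤ ‖y‖ ^ 2 := fun i => by
    rw [← sq_abs]
    exact pow_le_pow_left₀ (abs_nonneg _) (norm_le_pi_norm y i) 2
  simp only [nsq, Fin.sum_univ_four]
  linarith [h 0, h 1, h 2, h 3]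

theorem sq_le_nsq (y : Pt) (i : Fin 4) : y i ^ 2 ≤ nsq y :=
  Finset.single_le_sum (f := fun i => y i ^ 2) (fun _ _ => sq_nonneg _) (Finset.mem_univ i)

theorem ne_of_ext {y : Pt} (hy : y ∈ ext1) : y ≠ 0 := by
  rintro rfl
  have : (1 : ℝ) < nsq 0 := hy
  simp [nsq] at this
  linarith

theorem isOpen_ext : IsOpen ext1 :=
  isOpen_lt continuous_const (by unfold nsq; fun_prop)

theorem wt_one (y : Pt) : wt 1 y = √(1 + nsq y) := by rw [wt, Real.sqrt_eq_rpow]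

theorem wt_nat (l0 : L0Facts) (d : ℕ) (y : Pt) : wt d y = wt 1 y ^ d := by
  induction d with
  | zero => simp [l0.wt_zero]
  | succ d ih => rw [Nat.cast_succ, l0.wt_add, ih, pow_succ]

theorem polar {y : Pt} (hy : y ≠ 0) :
    ∃ u ∈ Metric.sphere (0 : Pt) 1, u ≠ 0 ∧ y = ‖y‖ • u := by
  have h : ‖y‖ ≠ 0 := norm_ne_zero_iff.2 hy
  refine ⟨‖y‖⁻¹ • y, ?_, smul_ne_zero (inv_ne_zero h) hy, ?_⟩
  · simp [norm_smul, h]
  · rw [smul_smul, mul_inv_cancel₀ h, one_smul]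

theorem sphere_ne {u : Pt} (hu : u ∈ Metric.sphere (0 : Pt) 1) : u ≠ 0 := by
  rintro rfl
  simp at hu

/-- Smooth off the origin and homogeneous of degree `-d`. -/
def Hm (d : ℕ) (f : Pt → ℝ) : Prop :=
  (∀ y, y ≠ 0 → ContDiffAt ℝ ∞ f y) ∧ ∀ y, y ≠ 0 → ∀ t : ℝ, 0 < t → t ^ d * f (t • y) = f y

theorem Hm.der {d : ℕ} {f : Pt → ℝ} (h : Hm d f) (i : Fin 4) : Hm (d + 1) (pd i f) := by
  refine ⟨fun y hy => contDiffAt_pdn (h.1 y hy) i, fun y hy t ht => ?_⟩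
  have h1 : f =ᶠ[𝓝 y] fun z => t ^ d * f (t • z) := by
    filter_upwards [isOpen_ne.mem_nhds hy] with z hz using (h.2 z hz t ht).symm
  have h2 : HasFDerivAt f (fderiv ℝ f (t • y)) (t • y) :=
    ((h.1 _ (smul_ne_zero ht.ne' hy)).differentiableAt (by simp)).hasFDerivAt
  have h3 := (h2.comp y ((hasFDerivAt_id y).const_smul t)).const_mul (t ^ d)
  have h4 : fderiv ℝ f y = _ := (h3.congr_of_eventuallyEq h1).fderiv
  simp only [pd]
  rw [h4]
  simp [pow_succ, mul_assoc]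

theorem Hm.bound (l0 : L0Facts) {d : ℕ} {f : Pt → ℝ} (h : Hm d f) :
    ∃ C, ∀ y ∈ ext1, |f y| ≤ C * wt (-d) y := by
  obtain ⟨C, hC⟩ := (isCompact_sphere (0 : Pt) 1).exists_bound_of_continuousOn (f := f)
    fun u hu => (h.1 u (sphere_ne hu)).continuousAt.continuousWithinAt
  refine ⟨3 ^ d * C, fun y hy => ?_⟩
  obtain ⟨u, hu, hu0, hyu⟩ := polar (ne_of_ext hy)
  have hn : 0 < ‖y‖ := norm_pos_iff.2 (ne_of_ext hy)
  have h1 : ‖y‖ ^ d * |f y| ≤ C := by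
    have h2 := h.2 u hu0 _ hn
    rw [← hyu] at h2
    have h3 := hC u hu
    rw [← h2, Real.norm_eq_abs, abs_mul, abs_of_pos (pow_pos hn d)] at h3
    exact h3
  have h2 : wt 1 y ≤ 3 * ‖y‖ := by
    rw [wt_one]
    refine Real.sqrt_le_iff.2 ⟨by positivity, ?_⟩
    have h3 : 1 < nsq y := hy
    nlinarith [nsq_le y]
  have h3 : wt d y ≤ 3 ^ d * ‖y‖ ^ d := by
    rw [wt_nat l0, ← mul_pow]
    exact pow_le_pow_left₀ (l0.wt_pos _ _).le h2 d
  have h4 : wt (-d) y * wt d y = 1 := by rw [← l0.wt_add, neg_add_cancel, l0.wt_zero]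
  calc |f y| = wt (-d) y * (wt d y * |f y|) := by rw [← mul_assoc, h4, one_mul]
    _ ≤ wt (-d) y * (3 ^ d * (‖y‖ ^ d * |f y|)) := by
        refine mul_le_mul_of_nonneg_left ?_ (l0.wt_pos _ _).le
        rw [← mul_assoc]
        exact mul_le_mul_of_nonneg_right h3 (abs_nonneg _)
    _ ≤ wt (-d) y * (3 ^ d * C) :=
        mul_le_mul_of_nonneg_left (mul_le_mul_of_nonneg_left h1 (by positivity))
          (l0.wt_pos _ _).le
    _ = 3 ^ d * C * wt (-d) y := by ring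

theorem Hm.sym (l0 : L0Facts) (k : ℕ) : ∀ {d : ℕ} {f : Pt → ℝ}, Hm d f →
    ∃ C, SymOn ext1 (-d) k f C := by
  induction k with
  | zero => exact fun h => h.bound l0
  | succ k ih =>
    intro d f h
    obtain ⟨C, hC⟩ := h.bound l0
    choose C' hC' using fun i => ih (h.der i)
    refine ⟨|C| + ∑ i, |C' i|, l0.succ.2 ⟨fun y hy => (hC y hy).trans ?_, fun i => ?_⟩⟩
    · refine mul_le_mul_of_nonneg_right ?_ (l0.wt_pos _ _).le
      exact (le_abs_self C).trans (le_add_of_nonneg_right (by positivity))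
    · refine l0.mono (hC' i) subset_rfl (le_of_eq (by push_cast; ring)) le_rfl ?_
      have := Finset.single_le_sum (f := fun i => |C' i|) (fun _ _ => abs_nonneg _)
        (Finset.mem_univ i)
      linarith [le_abs_self (C' i), abs_nonneg C]

theorem Hm.isSym (l0 : L0Facts) {f : Pt → ℝ} (h : Hm 0 f) : IsSymOn ext1 0 f :=
  ⟨fun y hy => h.1 y (ne_of_ext hy), fun k => by simpa using Hm.sym l0 k h⟩

theorem cone_cd {γ : Pt → Mat} (h : IsCone γ) {y : Pt} (hy : y ≠ 0) (a b : Fin 4) :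
    ContDiffAt ℝ ∞ (fun z => γ z a b) y :=
  (h.1.1 a b).contDiffAt (isOpen_compl_singleton.mem_nhds hy)

theorem qf_pos {A : Mat} (h : A.PosDef) {ξ : Pt} (hξ : ξ ≠ 0) : 0 < qf A ξ := by
  have := h.dotProduct_mulVec_pos hξ
  refine this.trans_eq ?_
  simp only [qf, dotProduct, Matrix.mulVec, star_trivial, Finset.mul_sum]
  exact Finset.sum_congr rfl fun a _ => Finset.sum_congr rfl fun b _ => by ring

theorem qf_smul (A : Mat) (t : ℝ) (ξ : Pt) : qf A (t • ξ) = t ^ 2 * qf A ξ := by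
  simp only [qf, Finset.mul_sum, Pi.smul_apply, smul_eq_mul]
  exact Finset.sum_congr rfl fun a _ => Finset.sum_congr rfl fun b _ => by ring

theorem cone_ell {γ : Pt → Mat} (h : IsCone γ) :
    ∃ c : ℝ, 0 < c ∧ ∀ y, y ≠ 0 → ∀ ξ, c * nsq ξ ≤ qf (γ y) ξ := by
  have hc : ContinuousOn (fun z : Pt × Pt => qf (γ z.1) z.2)
      (Metric.sphere 0 1 ×ˢ Metric.sphere 0 1) := by
    intro z hz
    refine ContinuousAt.continuousWithinAt ?_
    unfold qf
    refine tendsto_finsetSum _ fun a _ => tendsto_finsetSum _ fun b _ => ?_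
    exact ContinuousAt.mul (((cone_cd h (sphere_ne hz.1) a b).continuousAt).comp continuousAt_fst)
      (Continuous.continuousAt (f := fun z : Pt × Pt => z.2 a * z.2 b) (by fun_prop))
  obtain ⟨u, hu⟩ : (Metric.sphere (0 : Pt) 1).Nonempty := NormedSpace.sphere_nonempty.2 zero_le_one
  obtain ⟨z, hz, hmin⟩ := ((isCompact_sphere (0 : Pt) 1).prod
    (isCompact_sphere (0 : Pt) 1)).exists_isMinOn ⟨(u, u), hu, hu⟩ hc
  have hpos : 0 < qf (γ z.1) z.2 := qf_pos (h.1.2 _ (sphere_ne hz.1)) (sphere_ne hz.2)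
  refine ⟨qf (γ z.1) z.2 / 4, by positivity, fun y hy ξ => ?_⟩
  rcases eq_or_ne ξ 0 with rfl | hξ
  · simp [nsq, qf]
  obtain ⟨v, hv, hv0, hyv⟩ := polar hy
  obtain ⟨η, hη, -, hξη⟩ := polar hξ
  have h1 : γ y = γ v := by rw [hyv]; exact (h.2 v hv0).1 _ (norm_pos_iff.2 hy)
  have h2 : qf (γ z.1) z.2 ≤ qf (γ v) η := hmin (show (v, η) ∈ _ from ⟨hv, hη⟩)
  have h3 : qf (γ y) ξ = ‖ξ‖ ^ 2 * qf (γ v) η := by rw [← qf_smul, ← hξη, h1]
  rw [h3]
  nlinarith [nsq_le ξ, sq_nonneg ‖ξ‖]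

theorem cone_sym (l0 : L0Facts) {γ : Pt → Mat} (h : IsCone γ) :
    (∀ a b, IsSymOn ext1 0 (gf γ a b)) ∧ ∀ a b, IsSymOn ext1 0 (Gf γ a b) := by
  refine ⟨fun a b => Hm.isSym l0 ⟨fun y hy => cone_cd h hy a b, fun y hy t ht => ?_⟩,
    fun a b => Hm.isSym l0 ⟨fun y hy => cd_inv (cone_cd h hy) (h.1.2 y hy).det_pos.ne' a b,
      fun y hy t ht => ?_⟩⟩
  · simp [gf, (h.2 y hy).1 t ht]
  · simp [Gf, (h.2 y hy).1 t ht]

/-- Pointwise bounds outside the unit ball. -/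
def Bd (m : ℝ) (f : Pt → ℝ) : Prop := ∃ C, ∀ y ∈ ext1, |f y| ≤ C * wt m y

theorem Bd.of {m : ℝ} {f : Pt → ℝ} (h : IsSymOn ext1 m f) : Bd m f := h.2 0

theorem Bd.mul (l0 : L0Facts) {m m' : ℝ} {f g : Pt → ℝ} (h : Bd m f) (h' : Bd m' g) :
    Bd (m + m') fun y => f y * g y := by
  obtain ⟨C, hC⟩ := h
  obtain ⟨C', hC'⟩ := h'
  refine ⟨C * C', fun y hy => ?_⟩
  rw [abs_mul, l0.wt_add, mul_mul_mul_comm]
  exact mul_le_mul (hC y hy) (hC' y hy) (abs_nonneg _) ((abs_nonneg _).trans (hC y hy))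

theorem Bd.sum {m : ℝ} {f : Fin 4 → Pt → ℝ} (h : ∀ i, Bd m (f i)) :
    Bd m fun y => ∑ i, f i y := by
  choose C hC using h
  refine ⟨∑ i, C i, fun y hy => (Finset.abs_sum_le_sum_abs _ _).trans ?_⟩
  rw [Finset.sum_mul]
  exact Finset.sum_le_sum fun i _ => hC i y hy

theorem Bd.cast {m m' : ℝ} {f : Pt → ℝ} (h : Bd m f) (e : m = m') : Bd m' f := e ▸ h

theorem Bd.small (l0 : L0Facts) {n : ℕ} {f : Pt → ℝ} (h : Bd (-1 - 2 * n) f) {δ : ℝ}
    (hδ : 0 < δ) : ∃ r₀ : ℝ, ∀ y, r₀ < √(nsq y) → √(nsq y) ^ n * √(f y) ≤ δ := by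
  obtain ⟨C, hC⟩ := h
  refine ⟨max 1 (|C| / δ ^ 2), fun y hy => ?_⟩
  have h1 : 1 < √(nsq y) := (le_max_left _ _).trans_lt hy
  have h2 : |C| / δ ^ 2 < √(nsq y) := (le_max_right _ _).trans_lt hy
  have hy1 : y ∈ ext1 := show 1 < nsq y by
    have := Real.sq_sqrt (nsq_nonneg y)
    nlinarith
  have h3 : √(nsq y) ≤ wt 1 y := by rw [wt_one]; exact Real.sqrt_le_sqrt (by linarith)
  have h4 : √(nsq y) ^ (2 * n + 1) * wt (-1 - 2 * n) y ≤ 1 := by
    have h5 : wt ((2 * n + 1 : ℕ) : ℝ) y * wt (-1 - 2 * n) y = 1 := by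
      rw [← l0.wt_add, show ((2 * n + 1 : ℕ) : ℝ) + (-1 - 2 * n) = 0 by push_cast; ring,
        l0.wt_zero y]
    rw [wt_nat l0] at h5
    exact (mul_le_mul_of_nonneg_right (pow_le_pow_left₀ (Real.sqrt_nonneg _) h3 _)
      (l0.wt_pos _ _).le).trans h5.le
  set r := √(nsq y) with hr
  have hr0 : 0 < r := by linarith
  have h5 : √(f y) ^ 2 ≤ |C| * wt (-1 - 2 * n) y := by
    refine le_trans ?_ ((hC y hy1).trans
      (mul_le_mul_of_nonneg_right (le_abs_self C) (l0.wt_pos _ _).le))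
    rw [Real.sq_sqrt']
    exact max_le (le_abs_self _) (abs_nonneg _)
  have h6 : r * (r ^ n * √(f y)) ^ 2 ≤ |C| := by
    calc r * (r ^ n * √(f y)) ^ 2 = r ^ (2 * n + 1) * √(f y) ^ 2 := by ring
      _ ≤ r ^ (2 * n + 1) * (|C| * wt (-1 - 2 * n) y) :=
          mul_le_mul_of_nonneg_left h5 (by positivity)
      _ = |C| * (r ^ (2 * n + 1) * wt (-1 - 2 * n) y) := by ring
      _ ≤ |C| := mul_le_of_le_one_right (abs_nonneg _) h4
  rw [div_lt_iff₀ (by positivity)] at h2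
  refine (pow_le_pow_iff_left₀ (by positivity) hδ.le two_ne_zero).1 ?_
  exact le_of_mul_le_mul_left (h6.trans h2.le) hr0

theorem asymp (l0 : L0Facts) (m0 : M0Stmt) (t9 : T9Stmt) {g γ : Pt → Mat} (hγ : IsCone γ)
    (hg : ∀ a b, IsSymOn ext1 (-1 / 2) (gf g a b - gf γ a b)) {δ : ℝ} (hδ : 0 < δ) :
    ∃ r₀ : ℝ, ∀ y, r₀ < √(nsq y) →
    √(nrm0 γ (fun i j z => g z i j - γ z i j) y) ≤ δ ∧
    √(nsq y) * √(nrm1 γ (fun i j z => g z i j - γ z i j) y) ≤ δ ∧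
    √(nsq y) ^ 2 * √(nrm2 γ (fun i j z => g z i j - γ z i j) y) ≤ δ := by
  set h : Fin 4 → Fin 4 → Pt → ℝ := fun i j z => g z i j - γ z i j with hh
  have F := t9.1 (Pt → ℝ) (Fin 4) pd _ (m0.2 ext1 0 isOpen_ext le_rfl).1
  obtain ⟨s1, s2⟩ := cone_sym l0 hγ
  have hΓ : ∀ k i j, IsSymOn ext1 (-1) (Chr γ k i j) := by
    rw [← chrF_eq]
    exact (F.chr (gf γ) (Gf γ) s1 s2).1
  obtain ⟨c1, c2⟩ := F.cov (Chr γ) h 0 (-1 / 2) hΓ hg
  have e1 : cov1 γ h = gCov2 pd (Chr γ) h := by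
    funext k i j x
    simp [cov1, gCov2]
  have e2 : cov2 γ h = gCov3 pd (Chr γ) (gCov2 pd (Chr γ) h) := by
    funext l k i j x
    simp [cov2, gCov3, e1]
  have bG : ∀ a b, Bd 0 fun y => (γ y)⁻¹ a b := fun a b => Bd.of (s2 a b)
  have b0 : ∀ a b, Bd (-1 / 2) (h a b) := fun a b => Bd.of (hg a b)
  have b1 : ∀ k a b, Bd (-1 / 2 - 1) (cov1 γ h k a b) := fun k a b => e1 ▸ Bd.of (c1 k a b)
  have b2 : ∀ l k a b, Bd (-1 / 2 - 2) (cov2 γ h l k a b) := fun l k a b =>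
    e2 ▸ Bd.of (c2 l k a b)
  have n0 : Bd (-1 - 2 * (0 : ℕ)) (nrm0 γ h) :=
    Bd.sum fun i => Bd.sum fun j => Bd.sum fun a => Bd.sum fun b =>
      ((((bG i a).mul l0 (bG j b)).mul l0 (b0 i j)).mul l0 (b0 a b)).cast (by norm_num)
  have n1 : Bd (-1 - 2 * (1 : ℕ)) (nrm1 γ h) :=
    Bd.sum fun k => Bd.sum fun i => Bd.sum fun j => Bd.sum fun c => Bd.sum fun a =>
      Bd.sum fun b => (((((bG k c).mul l0 (bG i a)).mul l0 (bG j b)).mul l0 (b1 k i j)).mul l0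
        (b1 c a b)).cast (by norm_num)
  have n2 : Bd (-1 - 2 * (2 : ℕ)) (nrm2 γ h) :=
    Bd.sum fun l => Bd.sum fun k => Bd.sum fun i => Bd.sum fun j => Bd.sum fun e =>
      Bd.sum fun c => Bd.sum fun a => Bd.sum fun b =>
        ((((((bG l e).mul l0 (bG k c)).mul l0 (bG i a)).mul l0 (bG j b)).mul l0
          (b2 l k i j)).mul l0 (b2 e c a b)).cast (by norm_num)
  obtain ⟨r0, h0⟩ := n0.small l0 hδ
  obtain ⟨r1, h1⟩ := n1.small l0 hδ
  obtain ⟨r2, h2⟩ := n2.small l0 hδ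
  refine ⟨max r0 (max r1 r2), fun y hy => ?_⟩
  simp only [max_lt_iff] at hy
  exact ⟨by simpa using h0 y hy.1, by simpa using h1 y hy.2.1, h2 y hy.2.2⟩

theorem len_ge {g : Pt → Mat} {c : ℝ} (hg : IsMetricOn g Set.univ) (hc : 0 < c)
    (he : ∀ y ξ, c * nsq ξ ≤ qf (g y) ξ) {γ : ℝ → Pt} (hγ : ContDiff ℝ 1 γ) (i : Fin 4) :
    √c * |γ 1 i - γ 0 i| ≤ len g γ := by
  have hd : Continuous (deriv γ) := hγ.continuous_deriv le_rfl
  have hgc : ∀ a b, Continuous fun t => g (γ t) a b := fun a b =>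
    (contDiffOn_univ.1 (hg.1 a b)).continuous.comp hγ.continuous
  have hdi : ∀ a, Continuous fun t => deriv γ t a := fun a => (continuous_apply a).comp hd
  have h1 : ∫ t in (0 : ℝ)..1, deriv γ t i = γ 1 i - γ 0 i :=
    intervalIntegral.integral_eq_sub_of_hasDerivAt (f := fun t => γ t i)
      (fun t _ => hasDerivAt_pi.1 (hγ.differentiable (by simp) t).hasDerivAt i)
      ((hdi i).intervalIntegrable _ _)
  rw [← h1]
  calc √c * |∫ t in (0 : ℝ)..1, deriv γ t i| ≤ √c * ∫ t in (0 : ℝ)..1, |deriv γ t i| :=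
        mul_le_mul_of_nonneg_left (intervalIntegral.abs_integral_le_integral_abs zero_le_one)
          (Real.sqrt_nonneg _)
    _ = ∫ t in (0 : ℝ)..1, √c * |deriv γ t i| := (intervalIntegral.integral_const_mul _ _).symm
    _ ≤ len g γ := by
        refine intervalIntegral.integral_mono_on zero_le_one
          ((continuous_const.mul (hdi i).abs).intervalIntegrable _ _)
          (Continuous.intervalIntegrable (Continuous.sqrt (continuous_finsetSum _ fun a _ =>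
            continuous_finsetSum _ fun b _ => ((hgc a b).mul (hdi a)).mul (hdi b))) _ _)
          fun t _ => Real.le_sqrt_of_sq_le ?_
        rw [mul_pow, Real.sq_sqrt hc.le, sq_abs]
        refine (mul_le_mul_of_nonneg_left (sq_le_nsq (deriv γ t) i) hc.le).trans
          ((he (γ t) _).trans_eq ?_)
        simp only [qf, mul_assoc]

theorem complete {g : Pt → Mat} {c : ℝ} (hg : IsMetricOn g Set.univ) (hc : 0 < c)
    (he : ∀ y ξ, c * nsq ξ ≤ qf (g y) ξ) : IsCompleteMetric g := by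
  have hs : 0 < √c := Real.sqrt_pos.2 hc
  have h1 : ∀ x y i, √c * |y i - x i| ≤ gdist g x y := fun x y i => by
    refine le_csInf ⟨_, fun t : ℝ => x + t • (y - x), by fun_prop, by simp, by simp, rfl⟩ ?_
    rintro _ ⟨γ, hγ, rfl, rfl, rfl⟩
    exact len_ge hg hc he hγ i
  intro u hu
  refine cauchySeq_tendsto_of_complete (Metric.cauchySeq_iff.2 fun ε hε => ?_)
  obtain ⟨N, hN⟩ := hu (√c * ε) (by positivity)
  refine ⟨N, fun m hm n hn => (dist_pi_lt_iff hε).2 fun i => ?_⟩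
  rw [Real.dist_eq, abs_sub_comm]
  exact lt_of_mul_lt_mul_left ((h1 _ _ i).trans_lt (hN m hm n hn)) hs.le

/-- Composition with a smooth map. -/
def compS {φ : Pt → Pt} (hφ : ContDiff ℝ ∞ φ) : Sm 4 →ₐ[ℝ] Sm 4 where
  toFun f := ⟨f.1 ∘ φ, (Sm.cd f).comp hφ⟩
  map_one' := rfl
  map_mul' _ _ := rfl
  map_zero' := rfl
  map_add' _ _ := rfl
  commutes' _ := rfl

/-- The components of a smooth map. -/
def cmp {φ : Pt → Pt} (hφ : ContDiff ℝ ∞ φ) (a : Fin 4) : Sm 4 :=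
  ⟨fun z => φ z a, contDiff_pi.1 hφ a⟩

theorem sm_ext {f g : Sm 4} (h : ∀ y, f.1 y = g.1 y) : f = g := Subtype.ext (funext h)

theorem ite_val (a b : Fin 4) (y : Pt) :
    ((if a = b then 1 else 0 : Sm 4)).1 y = if a = b then 1 else 0 := by
  split_ifs <;> rfl

theorem sum_val (f : Fin 4 → Sm 4) (y : Pt) : (∑ i, f i).1 y = ∑ i, (f i).1 y := by
  simp

theorem pdn_coord (a b : Fin 4) (y : Pt) :
    pdn b (fun z : Pt => z a) y = if a = b then 1 else 0 := by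
  have : fderiv ℝ (fun z : Pt => z a) y = ContinuousLinearMap.proj a :=
    (ContinuousLinearMap.proj (R := ℝ) (φ := fun _ : Fin 4 => ℝ) a).fderiv
  simp [pdn, this, Pi.single_apply]

theorem jac (b1 : B1Stmt) {φ ψ : Pt → Pt} (hφ : ContDiff ℝ ∞ φ) (hψ : ContDiff ℝ ∞ ψ)
    (h : ∀ y, φ (ψ y) = y) (a b : Fin 4) (y : Pt) :
    ∑ i, pdn i (fun z => φ z a) (ψ y) * pdn b (fun z => ψ z i) y = if a = b then 1 else 0 := by
  rw [← (b1 4).chain (hψ.differentiable (by simp) y)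
    ((contDiff_pi.1 hφ a).differentiable (by simp) _) b, ← pdn_coord a b y]
  congr 1
  funext z
  simp [h]

/-- The coefficients of a metric as smooth functions. -/
def gS' {g : Pt → Mat} (hg : IsMetricOn g Set.univ) (a b : Fin 4) : Sm 4 :=
  ⟨gf g a b, contDiffOn_univ.1 (hg.1 a b)⟩

/-- The coefficients of the inverse metric as smooth functions. -/
noncomputable def GS' {g : Pt → Mat} (hg : IsMetricOn g Set.univ) (a b : Fin 4) : Sm 4 :=
  ⟨Gf g a b, contDiff_iff_contDiffAt.2 fun y =>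
    cd_inv (fun i j => (contDiffOn_univ.1 (hg.1 i j)).contDiffAt)
      (hg.2 y trivial).det_pos.ne' a b⟩

theorem isMet_S {g : Pt → Mat} (hg : IsMetricOn g Set.univ) : IsMet (gS' hg) (GS' hg) where
  gs i j := sm_ext fun y => by
    simpa [gS', gf] using (hg.2 y trivial).isHermitian.apply j i
  Gs i j := sm_ext fun y => by
    simpa [GS', Gf] using (hg.2 y trivial).inv.isHermitian.apply j i
  inv i j := sm_ext fun y => by
    rw [sum_val, ite_val]
    have h := Matrix.nonsing_inv_mul (g y) (hg.2 y trivial).det_pos.ne'.isUnit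
    simpa [Matrix.mul_apply, Matrix.one_apply, gS', GS', gf, Gf] using congrFun (congrFun h i) j

theorem scal_val {g : Pt → Mat} {a A : Fin 4 → Fin 4 → Sm 4} (h1 : ∀ i j, (a i j).1 = gf g i j)
    (h2 : ∀ i j, (A i j).1 = Gf g i j) : (gTr A (gRic smD (gChr smD a A))).1 = Scal g := by
  have e1 : (fun i j => (Sm 4).val (a i j)) = gf g := funext fun i => funext fun j => h1 i j
  have e2 : (fun i j => (Sm 4).val (A i j)) = Gf g := funext fun i => funext fun j => h2 i j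
  change (Sm 4).val (gTr A (gRic smD (gChr smD a A))) = _
  rw [map_gTr]
  simp only [map_gRic (Sm 4).val smD_val, map_gChr (Sm 4).val smD_val, e1, e2]
  exact scal_eq g

theorem scal_inv (b1 : B1Stmt) (t6 : T6Stmt) {g₁ g₂ : Pt → Mat} (h1 : IsMetricOn g₁ Set.univ)
    (h : Isometric g₁ g₂) (y : Pt) : ∃ z, Scal g₂ y = Scal g₁ z := by
  obtain ⟨φ, ψ, hφ, hψ, hl, hr, hg⟩ := h
  have F := t6 (Sm 4) (Sm 4) (Fin 4) smD smD (compS hφ) (fun a i => smD i (cmp hφ a))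
    (fun i a => compS hφ (smD a (cmp hψ i))) (gS' h1) (GS' h1) isDer_smD isDer_smD
    (fun i f => sm_ext fun y => by
      rw [sum_val]
      refine ((b1 4).chain (hφ.differentiable (by simp) y) (Sm.da f _) i).trans ?_
      exact Finset.sum_congr rfl fun a _ => mul_comm _ _)
    (fun a i j => isDer_smD.comm i j _)
    (fun a b => sm_ext fun y => by
      rw [sum_val, ite_val, ← jac b1 hφ hψ hr a b (φ y), hl y]
      rfl)
    (fun i j => sm_ext fun y => by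
      rw [sum_val, ite_val, ← jac b1 hψ hφ hl i j y]
      rfl)
    (isMet_S h1)
  have e1 : ∀ i j, (gPull2 (fun a i => smD i (cmp hφ a))
      (fun a b => compS hφ (gS' h1 a b)) i j).1 = gf g₂ i j := fun i j => by
    funext y
    rw [gf, hg, gPull2, sum_val]
    refine Finset.sum_congr rfl fun a _ => ?_
    rw [sum_val]
    refine Finset.sum_congr rfl fun b _ => ?_
    change pd i (fun z => φ z a) y * pd j (fun z => φ z b) y * g₁ (φ y) a b = _
    ring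
  refine ⟨φ y, ?_⟩
  have e2 := congrArg (fun f : Sm 4 => f.1 y) F.scal
  rw [scal_val e1] at e2
  · rw [e2, ← scal_val (g := g₁) (a := gS' h1) (A := GS' h1) (fun _ _ => rfl) fun _ _ => rfl]
    rfl
  · intro i j
    funext y
    rw [Gf, Matrix.inv_eq_left_inv (B := Matrix.of fun i j => (∑ a, ∑ b,
      compS hφ (smD a (cmp hψ i)) * compS hφ (smD b (cmp hψ j)) * compS hφ (GS' h1 a b)).1 y)]
    · rfl
    · ext i j
      have e3 := congrArg (fun f : Sm 4 => f.1 y) (F.met.inv i j)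
      rw [sum_val, ite_val] at e3
      rw [Matrix.mul_apply, Matrix.one_apply, ← e3]
      refine Finset.sum_congr rfl fun k _ => ?_
      exact congrArg _ (congrFun (e1 k j) y).symm

end Asy

theorem asy (b1 : B1Stmt) (l0 : L0Facts) (m0 : M0Stmt) (t6 : T6Stmt) (t9 : T9Stmt) : AsyStmt :=
  ⟨fun _ _ hγ hg _ hδ => Asy.asymp l0 m0 t9 hγ hg hδ,
    fun _ h => ⟨(Asy.cone_sym l0 h).1, (Asy.cone_sym l0 h).2, Asy.cone_ell h⟩,
    fun _ _ hg hc he => Asy.complete hg hc he,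
    fun _ _ h1 _ h y => Asy.scal_inv b1 t6 h1 h y⟩

end Pool.Agent.Lib.MP_df9110_gt
end

-- part Pool.Agent.Lib.MP_df9110_gt.Bt
section

/-! The lower order part of the linearized operator is tame. -/

namespace Pool.Agent.Lib.MP_df9110_gt

open Filter Topology MeasureTheory
open scoped ContDiff

namespace Bt

section Alg

variable {R : Type} [CommRing R] [Algebra ℝ R] {ι : Type} [Fintype ι] {D : ι → R → R}

theorem gLow_add (hD : IsDer D) (G : ι → ι → R) (Γ : ι → ι → ι → R) (Rl : ι → ι → ι → ι → R)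
    (Rc : ι → ι → R) (U : ι → R) (h h' : ι → ι → R) (a b : ι) :
    gLow D G Γ Rl Rc U (fun i j => h i j + h' i j) a b =
      gLow D G Γ Rl Rc U h a b + gLow D G Γ Rl Rc U h' a b := by
  simp only [gLow, gCov2, gRmT, gRcT, gLie, hD.add, mul_add, add_mul, mul_sub,
    Finset.sum_add_distrib, Finset.sum_sub_distrib, smul_add]
  abel

theorem gLow_smul (hD : IsDer D) (G : ι → ι → R) (Γ : ι → ι → ι → R) (Rl : ι → ι → ι → ι → R)
    (Rc : ι → ι → R) (U : ι → R) (c : ℝ) (h : ι → ι → R) (a b : ι) :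
    gLow D G Γ Rl Rc U (fun i j => c • h i j) a b = c • gLow D G Γ Rl Rc U h a b := by
  simp only [gLow, gCov2, gRmT, gRcT, gLie, hD.smul, mul_smul_comm, smul_mul_assoc, ← smul_add,
    ← smul_sub, ← Finset.smul_sum, ← smul_neg, smul_comm (2 : ℝ) c]

end Alg

section Norms

variable (l0 : L0Facts)
include l0

omit l0 in
theorem cc_zero : CC (0 : Pt → ℝ) := ⟨contDiff_const, HasCompactSupport.zero⟩

theorem cc_smul (c : ℝ) {u : Pt → ℝ} (hu : CC u) : CC (c • u) :=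
  l0.cc_mul (f := fun _ => c) contDiff_const hu

theorem Yn_nonneg (t s : ℕ) (δ : ℝ) (u : Pt → ℝ) : 0 ≤ Yn t s δ u :=
  Finset.sum_nonneg fun _ _ => l0.nn_nonneg _ _ _

theorem Yn_add (t s : ℕ) (δ : ℝ) {u v : Pt → ℝ} (hu : CC u) (hv : CC v) :
    Yn t s δ (u + v) ≤ Yn t s δ u + Yn t s δ v := by
  unfold Yn
  rw [← Finset.sum_add_distrib]
  exact Finset.sum_le_sum fun _ _ => l0.nn_add _ _ hu hv

theorem Yn_smul (t s : ℕ) (δ c : ℝ) {u : Pt → ℝ} (hu : CC u) :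
    Yn t s δ (c • u) = |c| * Yn t s δ u := by
  unfold Yn
  rw [Finset.mul_sum]
  exact Finset.sum_congr rfl fun _ _ => l0.nn_smul _ _ c hu

theorem Yn_zero (t s : ℕ) (δ : ℝ) : Yn t s δ 0 = 0 := by
  have := Yn_smul l0 t s δ 0 cc_zero
  simpa using this

theorem Yn_mono (t s : ℕ) {δ δ' : ℝ} (h : δ ≤ δ') {u : Pt → ℝ} (hu : CC u) :
    Yn t s δ u ≤ Yn t s δ' u :=
  Finset.sum_le_sum fun _ _ => l0.nn_mono _ hu (by linarith)

omit l0 in
theorem Yn_diag (t : ℕ) (δ : ℝ) (u : Pt → ℝ) :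
    Yn t t δ u = ∑ k ∈ Finset.range (t + 1), nn k (δ - 2 + k) u :=
  Finset.sum_congr rfl fun k hk => by
    rw [min_eq_left (Nat.lt_succ_iff.1 (Finset.mem_range.1 hk))]

theorem Yn_le {t t' : ℕ} (h : t ≤ t') (δ : ℝ) (u : Pt → ℝ) : Yn t t δ u ≤ Yn t' t' δ u := by
  rw [Yn_diag, Yn_diag]
  exact Finset.sum_le_sum_of_subset_of_nonneg
    (Finset.range_subset_range.2 (Nat.succ_le_succ h)) fun _ _ _ => l0.nn_nonneg _ _ _

theorem Yn_pd (t : ℕ) (δ : ℝ) {u : Pt → ℝ} (hu : CC u) (i : Fin 4) :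
    Yn t t (δ + 1) (pd i u) ≤ Yn (t + 1) (t + 1) δ u := by
  rw [Yn_diag, Yn_diag, Finset.sum_range_succ' _ (t + 1)]
  refine le_add_of_le_of_nonneg (Finset.sum_le_sum fun k _ => ?_) (l0.nn_nonneg _ _ _)
  have e : δ + 1 - 2 + (k : ℝ) = δ - 2 + ((k + 1 : ℕ) : ℝ) := by push_cast; ring
  rw [e]
  exact l0.nn_succ _ _ hu i

theorem NV_nonneg {ι : Type} [Fintype ι] (s : ℕ) (δ : ℝ) (u : ι → Pt → ℝ) : 0 ≤ NV s δ u :=
  Finset.sum_nonneg fun _ _ => Yn_nonneg l0 _ _ _ _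

theorem NV_le {ι : Type} [Fintype ι] {t t' : ℕ} (h : t ≤ t') (δ : ℝ) (u : ι → Pt → ℝ) :
    NV t δ u ≤ NV t' δ u :=
  Finset.sum_le_sum fun _ _ => Yn_le l0 h _ _

end Norms

section Fam

variable {J : Type} (l : Filter J) (Λ : J → ℝ)

/-- Compactly supported families with tame bounds. -/
def YB (N : J → ℕ → ℝ) (δ : ℝ) (j : ℕ) (m : ℝ) (F : J → Pt → ℝ) : Prop :=
  (∀ᶠ z in l, CC (F z)) ∧
    ∀ t, ∃ p : ℕ, ∀ᶠ z in l, Yn t t (δ - m) (F z) ≤ Λ z ^ p * N z (t + j)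

/-- The graded family of predicates. -/
def PY (N : J → ℕ → ℝ) (δ : ℝ) : ℕ → ℕ → ℝ → (J → Pt → ℝ) → Prop
  | 0, _, m, F => Mod l Λ m F
  | _ + 1, j, m, F => YB l Λ N δ j m F

variable {l Λ}

theorem grd (l0 : L0Facts) (m0 : M0Facts l Λ) (pr : ProdFacts) (hΛ : ∀ z, 2 ≤ Λ z)
    {N : J → ℕ → ℝ} (hN0 : ∀ z t, 0 ≤ N z t) (hN : ∀ z t t', t ≤ t' → N z t ≤ N z t') (δ : ℝ) :
    Grd 1 (fD (I := J) (n := 4)) (PY l Λ N δ) where
  zero d j m := by
    cases d with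
    | zero => exact m0.grd_mod.zero 0 j m
    | succ d =>
      refine ⟨Eventually.of_forall fun _ => cc_zero, fun t => ⟨0, ?_⟩⟩
      refine Eventually.of_forall fun z => ?_
      rw [Pi.zero_apply, Yn_zero l0, pow_zero, one_mul]
      exact hN0 _ _
  one := m0.grd_mod.one
  add {d j m a b} ha hb := by
    cases d with
    | zero => exact m0.grd_mod.add (d := 0) (j := j) ha hb
    | succ d =>
      refine ⟨?_, fun t => ?_⟩
      · filter_upwards [ha.1, hb.1] with z h1 h2 using l0.cc_add h1 h2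
      · obtain ⟨p, hp⟩ := ha.2 t
        obtain ⟨q, hq⟩ := hb.2 t
        obtain ⟨r, hr⟩ := l0.absorb 2 (p + q)
        refine ⟨r, ?_⟩
        filter_upwards [ha.1, hb.1, hp, hq] with z h1 h2 h3 h4
        have h5 : (1 : ℝ) ≤ Λ z := by linarith [hΛ z]
        have h6 : Λ z ^ p ≤ Λ z ^ (p + q) := pow_le_pow_right₀ h5 (Nat.le_add_right _ _)
        have h7 : Λ z ^ q ≤ Λ z ^ (p + q) := pow_le_pow_right₀ h5 (Nat.le_add_left _ _)
        have h8 : Λ z ^ p + Λ z ^ q ≤ Λ z ^ r := by linarith [hr _ (hΛ z)]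
        have h9 := mul_le_mul_of_nonneg_right h8 (hN0 z (t + j))
        have h10 := Yn_add l0 t t (δ - m) h1 h2
        rw [Pi.add_apply]
        linarith
  smul {d j m a} c ha := by
    cases d with
    | zero => exact m0.grd_mod.smul (d := 0) (j := j) c ha
    | succ d =>
      refine ⟨?_, fun t => ?_⟩
      · filter_upwards [ha.1] with z h1 using cc_smul l0 c h1
      · obtain ⟨p, hp⟩ := ha.2 t
        obtain ⟨r, hr⟩ := l0.absorb |c| p
        refine ⟨r, ?_⟩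
        filter_upwards [ha.1, hp] with z h1 h3
        rw [Pi.smul_apply, Yn_smul l0 _ _ _ _ h1]
        refine (mul_le_mul_of_nonneg_left h3 (abs_nonneg c)).trans ?_
        rw [← mul_assoc]
        exact mul_le_mul_of_nonneg_right (hr _ (hΛ z)) (hN0 _ _)
  mono {d j j' m m' a} ha hj hj' hm := by
    cases d with
    | zero => exact m0.grd_mod.mono (d := 0) ha hj hj' hm
    | succ d =>
      refine ⟨ha.1, fun t => ?_⟩
      obtain ⟨p, hp⟩ := ha.2 t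
      refine ⟨p, ?_⟩
      filter_upwards [ha.1, hp] with z h1 h3
      refine (Yn_mono l0 t t (by linarith) h1).trans (h3.trans ?_)
      have h5 : (0 : ℝ) ≤ Λ z := by linarith [hΛ z]
      exact mul_le_mul_of_nonneg_left (hN _ _ _ (by omega)) (pow_nonneg h5 _)
  mul {d j m m' a b} ha hb := by
    cases d with
    | zero => exact m0.grd_mod.mul (d := 0) (j := j) ha hb
    | succ d =>
      refine ⟨?_, fun t => ?_⟩
      · filter_upwards [(ha.2 0).1, hb.1] with z h1 h2 using l0.cc_mul h1 h2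
      · obtain ⟨hs, p, hp⟩ := ha.2 t
        obtain ⟨q, hq⟩ := hb.2 t
        obtain ⟨C, hC0, hC⟩ := pr.mul t t (δ - m') m
        obtain ⟨r, hr⟩ := l0.absorb C (p + q)
        refine ⟨r, ?_⟩
        filter_upwards [hs, hb.1, hp, hq] with z h1 h2 h3 h4
        have h5 : (0 : ℝ) ≤ Λ z := by linarith [hΛ z]
        have e : δ - (m + m') = δ - m' - m := by ring
        rw [Pi.mul_apply, e]
        refine (hC _ _ _ h1 h2 h3).trans ?_
        refine (mul_le_mul_of_nonneg_left h4 (by positivity)).trans ?_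
        have h6 := mul_le_mul_of_nonneg_right (hr _ (hΛ z)) (hN0 z (t + j))
        rw [pow_add] at h6
        linarith
  der {d j m a} i ha hj := by
    cases d with
    | zero => exact m0.grd_mod.der (d := 0) i ha hj
    | succ d =>
      refine ⟨?_, fun t => ?_⟩
      · filter_upwards [ha.1] with z h1 using l0.cc_pd h1 i
      · obtain ⟨p, hp⟩ := ha.2 (t + 1)
        refine ⟨p, ?_⟩
        filter_upwards [ha.1, hp] with z h1 h3
        have e : δ - (m - 1) = δ - m + 1 := by ring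
        have e2 : t + (j + 1) = t + 1 + j := by omega
        rw [e, e2]
        exact (Yn_pd l0 t _ h1 i).trans h3

/-- Uniform exponent for finitely many conditions. -/
theorem unif (hΛ : ∀ z, 2 ≤ Λ z) {κ : Type} [Finite κ] (Q : κ → J → ℝ → Prop)
    (hQ : ∀ k z a b, 0 < a → a ≤ b → Q k z a → Q k z b)
    (h : ∀ k, ∃ p : ℕ, ∀ᶠ z in l, Q k z (Λ z ^ p)) :
    ∃ p : ℕ, ∀ᶠ z in l, ∀ k, Q k z (Λ z ^ p) := by
  choose p hp using h
  obtain ⟨P, hP⟩ := (Set.finite_range p).bddAbove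
  refine ⟨P, eventually_all.2 fun k => ?_⟩
  filter_upwards [hp k] with z hz
  have h5 : (1 : ℝ) ≤ Λ z := by linarith [hΛ z]
  exact hQ k z _ _ (by positivity) (pow_le_pow_right₀ h5 (hP ⟨k, rfl⟩)) hz

theorem low_eval (g : J → Pt → Mat) (U : J → Fin 4 → Pt → ℝ) (u : J → Fin 4 × Fin 4 → Pt → ℝ)
    (α : Fin 4 × Fin 4) (z : J) :
    gLow (fD (I := J) (n := 4)) (fun a b z => Gf (g z) a b)
      (gChr fD (fun a b z => gf (g z) a b) fun a b z => Gf (g z) a b)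
      (gRlow fD (fun a b z => gf (g z) a b)
        (gChr fD (fun a b z => gf (g z) a b) fun a b z => Gf (g z) a b))
      (gRic fD (gChr fD (fun a b z => gf (g z) a b) fun a b z => Gf (g z) a b))
      (fun k z => U z k) (fun a b z => u z (a, b)) α.1 α.2 z = lowB (g z) (U z) (u z) α := by
  let π : (J → Pt → ℝ) →ₐ[ℝ] (Pt → ℝ) := Pi.evalAlgHom ℝ (fun _ => Pt → ℝ) z
  have hπ : ∀ i a, π (fD (I := J) (n := 4) i a) = pd i (π a) := fun _ _ => rfl
  have h := map_gLow π hπ (fun a b z => Gf (g z) a b)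
    (gChr fD (fun a b z => gf (g z) a b) fun a b z => Gf (g z) a b)
    (gRlow fD (fun a b z => gf (g z) a b)
      (gChr fD (fun a b z => gf (g z) a b) fun a b z => Gf (g z) a b))
    (gRic fD (gChr fD (fun a b z => gf (g z) a b) fun a b z => Gf (g z) a b))
    (fun k z => U z k) (fun a b z => u z (a, b)) α.1 α.2
  simp only [map_gRlow π hπ, map_gRic π hπ, map_gChr π hπ] at h
  exact h

/-- The tame bound along a filter of data. -/
theorem low_fam (l0 : L0Facts) (m0 : M0Facts l Λ) (pr : ProdFacts) (t9 : T9Stmt)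
    (hΛ : ∀ z, 2 ≤ Λ z) (δ : ℝ) (g : J → Pt → Mat) (U : J → Fin 4 → Pt → ℝ)
    (u : J → Fin 4 × Fin 4 → Pt → ℝ) (hg : ∀ a b, Mod l Λ 0 fun z => gf (g z) a b)
    (hG : ∀ a b, Mod l Λ 0 fun z => Gf (g z) a b) (hU : ∀ k, Mod l Λ (-1) fun z => U z k)
    (hu : ∀ α, ∀ᶠ z in l, CC (u z α)) :
    (∀ᶠ z in l, ∀ α, CC (lowB (g z) (U z) (u z) α)) ∧ ∀ t, ∃ p : ℕ, ∀ᶠ z in l,
      NV t δ (lowB (g z) (U z) (u z)) ≤ Λ z ^ p * NV (t + 1) (δ - 2) (u z) := by
  have hc := (t9.1 _ _ _ _ m0.grd_mod).chr (fun a b z => gf (g z) a b)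
    (fun a b z => Gf (g z) a b) hg hG
  have hY := t9.1 _ _ _ _ (grd l0 m0 pr hΛ (N := fun z t => NV t (δ - 2) (u z))
    (fun _ _ => NV_nonneg l0 _ _ _) (fun _ _ _ h => NV_le l0 h _ _) (δ - 2))
  have hh : ∀ a b, PY l Λ (fun z t => NV t (δ - 2) (u z)) (δ - 2) 1 0 0 fun z => u z (a, b) := by
    refine fun a b => ⟨hu _, fun t => ⟨0, Eventually.of_forall fun z => ?_⟩⟩
    rw [sub_zero, pow_zero, one_mul]
    exact Finset.single_le_sum (f := fun α => Yn t t (δ - 2) (u z α))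
      (fun _ _ => Yn_nonneg l0 _ _ _ _) (Finset.mem_univ (a, b))
  have hl := fun α : Fin 4 × Fin 4 => hY.low _ _ _ _ (fun k z => U z k) _ 1 0 hG hc.1 hc.2.1
    hc.2.2.1 hU hh α.1 α.2
  refine ⟨eventually_all.2 fun α => ?_, fun t => ?_⟩
  · filter_upwards [(hl α).1] with z hz
    rwa [low_eval] at hz
  · obtain ⟨p, hp⟩ := unif (l := l) hΛ
      (fun α z a => Yn t t δ (lowB (g z) (U z) (u z) α) ≤ a * NV (t + 1) (δ - 2) (u z))
      (fun _ _ _ _ _ hab h => h.trans (mul_le_mul_of_nonneg_right hab (NV_nonneg l0 _ _ _)))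
      fun α => by
        obtain ⟨p, hp⟩ := (hl α).2 t
        refine ⟨p, ?_⟩
        filter_upwards [hp] with z hz
        have e : δ - 2 - (0 - 2) = δ := by ring
        rwa [low_eval, e] at hz
    obtain ⟨r, hr⟩ := l0.absorb 16 p
    refine ⟨r, ?_⟩
    filter_upwards [hp] with z hz
    refine (Finset.sum_le_sum fun α _ => hz α).trans ?_
    have h6 := mul_le_mul_of_nonneg_right (hr _ (hΛ z)) (NV_nonneg l0 (t + 1) (δ - 2) (u z))
    simp only [Finset.sum_const, Finset.card_univ, Fintype.card_prod, Fintype.card_fin,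
      nsmul_eq_mul]
    push_cast
    linarith

theorem mod_comp {J' : Type} {l' : Filter J'} {φ : J' → J} (hφ : Tendsto φ l' l) {m : ℝ}
    {F : J → Pt → ℝ} (h : Mod l Λ m F) : Mod l' (fun z => Λ (φ z)) m fun z => F (φ z) :=
  ⟨hφ.eventually h.1, fun k => ⟨hφ.eventually (h.2 k).1,
    (h.2 k).2.imp fun _ hp => hφ.eventually hp⟩⟩

theorem cd_of_sym {m : ℝ} {f : Pt → ℝ} (h : IsSym m f) : ContDiff ℝ ∞ f :=
  contDiff_iff_contDiffAt.2 fun y => h.1 y trivial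

theorem mod_const (l0 : L0Facts) (l : Filter J) {m : ℝ} {f : Pt → ℝ} (h : IsSym m f) :
    Mod l (fun _ => 2) m fun _ => f := by
  refine ⟨Eventually.of_forall fun _ => h, fun k =>
    ⟨Eventually.of_forall fun _ => cd_of_sym h, ?_⟩⟩
  obtain ⟨C, hC⟩ := h.2 k
  obtain ⟨p, hp⟩ := l0.absorb C 0
  refine ⟨p, Eventually.of_forall fun _ => l0.mono hC subset_rfl le_rfl le_rfl ?_⟩
  simpa using hp 2 le_rfl

end Fam

section Smooth

variable {g : Pt → Mat} {U : Fin 4 → Pt → ℝ}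

theorem low_val (g : Pt → Mat) (U : Fin 4 → Pt → ℝ) (g' G' : Fin 4 → Fin 4 → Sm 4)
    (U' : Fin 4 → Sm 4) (h' : Fin 4 → Fin 4 → Sm 4)
    (u : Fin 4 × Fin 4 → Pt → ℝ) (hg : ∀ a b, (g' a b).1 = gf g a b)
    (hG : ∀ a b, (G' a b).1 = Gf g a b) (hU : ∀ k, (U' k).1 = U k)
    (hu : ∀ a b, (h' a b).1 = u (a, b)) (a b : Fin 4) :
    lowB g U u (a, b) = (gLow smD G' (gChr smD g' G') (gRlow smD g' (gChr smD g' G'))
      (gRic smD (gChr smD g' G')) U' h' a b).1 := by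
  have h := map_gLow (Sm 4).val smD_val G' (gChr smD g' G') (gRlow smD g' (gChr smD g' G'))
    (gRic smD (gChr smD g' G')) U' h' a b
  simp only [map_gRlow (Sm 4).val smD_val, map_gRic (Sm 4).val smD_val,
    map_gChr (Sm 4).val smD_val] at h
  simp only [Subalgebra.coe_val, hg, hG, hU, hu] at h
  exact h.symm

theorem low_add (hg : ∀ a b, ContDiff ℝ ∞ (gf g a b)) (hG : ∀ a b, ContDiff ℝ ∞ (Gf g a b))
    (hU : ∀ k, ContDiff ℝ ∞ (U k)) {u v : Fin 4 × Fin 4 → Pt → ℝ}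
    (hu : ∀ α, ContDiff ℝ ∞ (u α)) (hv : ∀ α, ContDiff ℝ ∞ (v α)) :
    lowB g U (u + v) = lowB g U u + lowB g U v := by
  funext ⟨a, b⟩
  let g' : Fin 4 → Fin 4 → Sm 4 := fun a b => ⟨gf g a b, hg a b⟩
  let G' : Fin 4 → Fin 4 → Sm 4 := fun a b => ⟨Gf g a b, hG a b⟩
  let U' : Fin 4 → Sm 4 := fun k => ⟨U k, hU k⟩
  let u' : Fin 4 → Fin 4 → Sm 4 := fun a b => ⟨u (a, b), hu _⟩
  let v' : Fin 4 → Fin 4 → Sm 4 := fun a b => ⟨v (a, b), hv _⟩
  rw [Pi.add_apply,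
    low_val g U g' G' U' u' u (fun _ _ => rfl) (fun _ _ => rfl) (fun _ => rfl) (fun _ _ => rfl),
    low_val g U g' G' U' v' v (fun _ _ => rfl) (fun _ _ => rfl) (fun _ => rfl) (fun _ _ => rfl),
    low_val g U g' G' U' (fun i j => u' i j + v' i j) (u + v) (fun _ _ => rfl) (fun _ _ => rfl)
      (fun _ => rfl) (fun _ _ => rfl), gLow_add isDer_smD]
  rfl

theorem low_smul (hg : ∀ a b, ContDiff ℝ ∞ (gf g a b)) (hG : ∀ a b, ContDiff ℝ ∞ (Gf g a b))
    (hU : ∀ k, ContDiff ℝ ∞ (U k)) (c : ℝ) {u : Fin 4 × Fin 4 → Pt → ℝ}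
    (hu : ∀ α, ContDiff ℝ ∞ (u α)) : lowB g U (c • u) = c • lowB g U u := by
  funext ⟨a, b⟩
  let g' : Fin 4 → Fin 4 → Sm 4 := fun a b => ⟨gf g a b, hg a b⟩
  let G' : Fin 4 → Fin 4 → Sm 4 := fun a b => ⟨Gf g a b, hG a b⟩
  let U' : Fin 4 → Sm 4 := fun k => ⟨U k, hU k⟩
  let u' : Fin 4 → Fin 4 → Sm 4 := fun a b => ⟨u (a, b), hu _⟩
  rw [Pi.smul_apply,
    low_val g U g' G' U' u' u (fun _ _ => rfl) (fun _ _ => rfl) (fun _ => rfl) (fun _ _ => rfl),
    low_val g U g' G' U' (fun i j => c • u' i j) (c • u) (fun _ _ => rfl) (fun _ _ => rfl)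
      (fun _ => rfl) (fun _ _ => rfl), gLow_smul isDer_smD]
  rfl

theorem Gf_symm (hs : ∀ y, (g y)⁻¹.IsSymm) (a b : Fin 4) : Gf g a b = Gf g b a :=
  funext fun y => (hs y).apply b a

theorem low_symm (t3 : T3Stmt) (hg : ∀ a b, ContDiff ℝ ∞ (gf g a b))
    (hG : ∀ a b, ContDiff ℝ ∞ (Gf g a b)) (hU : ∀ k, ContDiff ℝ ∞ (U k))
    (hs : ∀ y, (g y).IsSymm) (hs' : ∀ y, (g y)⁻¹.IsSymm) (hp : ∀ y, (g y).PosDef)
    {u : Fin 4 × Fin 4 → Pt → ℝ} (hu : ∀ α, ContDiff ℝ ∞ (u α)) (hus : ∀ α, u α.swap = u α)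
    (α : Fin 4 × Fin 4) : lowB g U u α.swap = lowB g U u α := by
  obtain ⟨a, b⟩ := α
  let g' : Fin 4 → Fin 4 → Sm 4 := fun a b => ⟨gf g a b, hg a b⟩
  let G' : Fin 4 → Fin 4 → Sm 4 := fun a b => ⟨Gf g a b, hG a b⟩
  let U' : Fin 4 → Sm 4 := fun k => ⟨U k, hU k⟩
  let u' : Fin 4 → Fin 4 → Sm 4 := fun a b => ⟨u (a, b), hu _⟩
  have hm : IsMet g' G' := by
    refine ⟨fun i j => Subtype.ext (funext fun y => (hs y).apply j i),
      fun i j => Subtype.ext (Gf_symm hs' i j), fun i j => Subtype.ext (funext fun y => ?_)⟩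
    have h1 := congrFun (congrFun (Matrix.nonsing_inv_mul (g y)
      ((Matrix.isUnit_iff_isUnit_det _).1 (hp y).isUnit)) i) j
    rw [Matrix.mul_apply, Matrix.one_apply] at h1
    have h2 : (∑ k, G' i k * g' k j : Sm 4).1 y = ∑ k, (g y)⁻¹ i k * g y k j := by
      rw [AddSubmonoidClass.coe_finsetSum, Finset.sum_apply]
      rfl
    rw [h2, h1]
    split_ifs <;> rfl
  rw [Prod.swap_prod_mk,
    low_val g U g' G' U' u' u (fun _ _ => rfl) (fun _ _ => rfl) (fun _ => rfl) (fun _ _ => rfl),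
    low_val g U g' G' U' u' u (fun _ _ => rfl) (fun _ _ => rfl) (fun _ => rfl) (fun _ _ => rfl),
    (t3 _ _ _ _ _ isDer_smD hm).symm_low U' u' fun i j => Subtype.ext (hus (j, i))]

end Smooth

end Bt

theorem bt (_b1 : B1Stmt) (l0 : L0Facts) (m0 : M0Stmt) (pr : ProdFacts) (_t1 : T1Stmt)
    (t3 : T3Stmt) (t9 : T9Stmt) : BtStmt := by
  intro I l Λ hΛ g U hE hg hU
  obtain ⟨hG, hM, hs', q, hq⟩ := (m0.1 I l Λ hΛ).inv g hE hg
  have hfst : Tendsto (Prod.fst : I × (Fin 4 × Fin 4 → Pt → ℝ) → I)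
      (l ×ˢ 𝓟 {u | Adm Prod.swap u}) l := tendsto_fst
  obtain ⟨hcc, hK⟩ := Bt.low_fam l0 (m0.1 _ (l ×ˢ 𝓟 {u | Adm Prod.swap u}) (fun z => Λ z.1)
    fun z => hΛ z.1) pr t9 (fun z => hΛ z.1) (1 / 2) (fun z => g z.1) (fun z => U z.1)
    (fun z => z.2) (fun a b => Bt.mod_comp hfst (hg a b)) (fun a b => Bt.mod_comp hfst (hG a b))
    (fun k => Bt.mod_comp hfst (hU k))
    fun α => eventually_prod_principal_iff.2 (Eventually.of_forall fun _ _ hu => hu.1 α)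
  rw [eventually_prod_principal_iff] at hcc
  obtain ⟨p1, hp1⟩ := Bt.unif (l := l) hΛ
    (fun (s : Fin 13) i a => ∀ u, Adm Prod.swap u →
      NV s (1 / 2) (lowB (g i) (U i) u) ≤ a * NV (s + 1) (1 / 2 - 2) u)
    (fun _ _ _ _ _ hab h u hu =>
      (h u hu).trans (mul_le_mul_of_nonneg_right hab (Bt.NV_nonneg l0 _ _ _)))
    fun s => (hK s).imp fun _ hp => eventually_prod_principal_iff.1 hp
  obtain ⟨p2, hp2⟩ := Bt.unif (l := l) hΛ
    (fun (α : Fin 4 × Fin 4) i a => Sym 0 14 (Gf (g i) α.1 α.2) a)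
    (fun _ _ _ _ _ hab h => l0.mono h subset_rfl le_rfl le_rfl hab)
    fun α => ((hG α.1 α.2).2 14).2
  have hgs : ∀ᶠ i in l, ∀ a b, IsSym 0 (gf (g i) a b) :=
    eventually_all.2 fun a => eventually_all.2 fun b => (hg a b).1
  have hGs : ∀ᶠ i in l, ∀ a b, IsSym 0 (Gf (g i) a b) :=
    eventually_all.2 fun a => eventually_all.2 fun b => (hG a b).1
  have hUs : ∀ᶠ i in l, ∀ k, IsSym (-1) (U i k) := eventually_all.2 fun k => (hU k).1
  refine ⟨p1 + p2 + q, ?_⟩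
  filter_upwards [hM, hq, hcc, hp1, hp2, hgs, hGs, hUs] with i h1 h2 h3 h4 h5 h6 h7 h8
  have hΛ1 : (1 : ℝ) ≤ Λ i := by linarith [hΛ i]
  have e1 : Λ i ^ p1 ≤ Λ i ^ (p1 + p2 + q) := pow_le_pow_right₀ hΛ1 (by omega)
  have e2 : Λ i ^ p2 ≤ Λ i ^ (p1 + p2 + q) := pow_le_pow_right₀ hΛ1 (by omega)
  have e3 : Λ i ^ q ≤ Λ i ^ (p1 + p2 + q) := pow_le_pow_right₀ hΛ1 (by omega)
  have c1 := fun a b => Bt.cd_of_sym (h6 a b)
  have c2 := fun a b => Bt.cd_of_sym (h7 a b)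
  have c3 := fun k => Bt.cd_of_sym (h8 k)
  refine ⟨⟨h7, fun a b => l0.mono (h5 (a, b)) subset_rfl le_rfl le_rfl e2,
    Bt.Gf_symm (hs' i), fun y ξ => le_trans ?_ (h2 y ξ)⟩,
    fun u v hu hv => Bt.low_add c1 c2 c3 (fun α => (hu.1 α).1) fun α => (hv.1 α).1,
    fun c u hu => Bt.low_smul c1 c2 c3 c fun α => (hu.1 α).1,
    fun u hu => ⟨h3 u hu, Bt.low_symm t3 c1 c2 c3 (hE.1 i) (hs' i) (fun y => h1.2 y trivial)
      (fun α => (hu.1 α).1) hu.2⟩, fun s => ?_, fun s hs u hu => ?_⟩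
  · exact mul_le_mul_of_nonneg_right (inv_anti₀ (by positivity) e3)
      (Finset.sum_nonneg fun _ _ => sq_nonneg _)
  · obtain ⟨p, hp⟩ := (Bt.low_fam l0 (m0.1 _ (𝓟 {u | Adm Prod.swap u}) (fun _ => 2)
      fun _ => le_rfl) pr t9 (fun _ => le_rfl) (1 / 2) (fun _ => g i) (fun _ => U i)
      (fun z => z) (fun a b => Bt.mod_const l0 _ (h6 a b))
      (fun a b => Bt.mod_const l0 _ (h7 a b)) (fun k => Bt.mod_const l0 _ (h8 k))
      fun α => eventually_principal.2 fun _ hu => hu.1 α).2 s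
    exact ⟨2 ^ p, eventually_principal.1 hp⟩
  · exact (h4 ⟨s, by omega⟩ u hu).trans
      (mul_le_mul_of_nonneg_right e1 (Bt.NV_nonneg l0 _ _ _))

end Pool.Agent.Lib.MP_df9110_gt
end
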