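import Pool.Agent.Lib.MP_df9110_gt.NPln

/-! From the simplex to `ℝ⁴`. -/

namespace Pool.Agent.Lib.MP_df9110_gt

open Filter Topology Set
open scoped ContDiff

def bl : Fin 4 → Fin 2 := ![0, 0, 1, 1]
def sY (y : Pt) : En 2 := ![y 0 ^ 2 + y 1 ^ 2, y 2 ^ 2 + y 3 ^ 2]
noncomputable def lY (ν : ℝ) (y : Pt) (i : Fin 2) : ℝ := ν * sY y i / (1 + ν * nsq y)
noncomputable def lI (y : Pt) (i : Fin 2) : ℝ := sY y i / nsq y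

section

variable (ν : ℝ) (p : Fin 2 → En 2 → ℝ) (q : Fin 2 → Fin 2 → En 2 → ℝ)

noncomputable def gZ (y : Pt) : Mat := Matrix.of fun a b =>
  (if a = b then p (bl a) (lY ν y) else 0) +
    4 * τP (lY ν y) * q (bl a) (bl b) (lY ν y) * (y a * y b)
noncomputable def UZ (v : Fin 2 → En 2 → ℝ) (k : Fin 4) (y : Pt) : ℝ :=
  τP (lY ν y) * v (bl k) (lY ν y) * y k / 2
/-- The limit of `gZ` at infinity. -/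
noncomputable def gI (y : Pt) : Mat := Matrix.of fun a b =>
  (if a = b then p (bl a) (lI y) else 0) + 4 / ν * q (bl a) (bl b) (lI y) * (y a * y b / nsq y)
noncomputable def aI (y : Pt) : ℝ := p 0 (lI y) + 4 / ν * ∑ i, lI y i * q i 0 (lI y)
noncomputable def dI (k : ℝ) (y : Pt) : Mat := Matrix.of fun a b =>
  (k - 1) * gI ν p q y a b + (1 - k * aI ν p q y) * (y a * y b / nsq y)
/-- The cone. -/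
noncomputable def γZ (k : ℝ) (y : Pt) : Mat := gI ν p q y + dI ν p q k y
noncomputable def δZ (k : ℝ) (y : Pt) : Mat := Real.smoothTransition (nsq y - 1) • dI ν p q k y

end

structure Frame (g : Pt → Mat) (V : Fin 4 → Pt → ℝ) (B : Blk (En 2 → ℝ)) (Ψ : Pt → En 2)
    (y : Pt) : Prop where
  fr : ∃ e : Fin 4 → Fin 4 → ℝ, (Matrix.of e).det ≠ 0 ∧ gPull2 e (g y) = idM ∧
    gPull2 e (fun a b => ricF g a b y) = ricON (kON B (Ψ y)) ∧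
    gPull4 e (fun a b c d => rlF g a b c d y) = rlON (kON B (Ψ y)) ∧
    gPull2 e (fun a b => errF g V a b y) = tab2 (B.e11 pdn (Ψ y))
      (√(B.a (Ψ y) * B.C (Ψ y)) * B.e12 pdn (Ψ y)) (B.e22 pdn (Ψ y)) (B.e₁ pdn (Ψ y))
      (B.e₂ pdn (Ψ y))
  scal : Scal g y = B.scal pdn (Ψ y)
  lap : ∀ f : En 2 → ℝ, (∀ᶠ z in 𝓝 (Ψ y), ContDiffAt ℝ ∞ f z) →
    lapF g V (fun y' => f (Ψ y')) y = B.lap pdn (B.T pdn f) (pdn 1 f) (Ψ y)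

def Ct1Stmt : Prop := ∀ (ν : ℝ) p q v (B : Blk (En 2 → ℝ)) (Φ : En 2 → En 2) w (y : Pt), 0 < ν →
  y ∈ Dn → (∀ i j, q i j = q j i) →
  (∀ᶠ ℓ in 𝓝 (lY ν y), Rel ν p q v B Φ w ℓ ∧ ∀ a, ContDiffAt ℝ ∞ (Φ · a) ℓ) →
  pdn 0 (Φ · 0) (lY ν y) * pdn 1 (Φ · 1) (lY ν y) -
    pdn 1 (Φ · 0) (lY ν y) * pdn 0 (Φ · 1) (lY ν y) ≠ 0 →
  (∀ᶠ z in 𝓝 (Φ (lY ν y)), B.All (fun f => ContDiffAt ℝ ∞ f z) ∧ (B.map fun f => f z).Ok) →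
  0 < B.a (Φ (lY ν y)) → 0 < B.C (Φ (lY ν y)) → 0 < B.F₁ (Φ (lY ν y)) →
  0 < B.F₂ (Φ (lY ν y)) → Frame (gZ ν p q) (Vf (UZ ν v)) B (fun y' => Φ (lY ν y')) y ∧
    (gZ ν p q y).det * (B.a (Φ (lY ν y)) * B.C (Φ (lY ν y))) = 16 * ν ^ 4 * τP (lY ν y) ^ 6 *
      (pdn 0 (Φ · 0) (lY ν y) * pdn 1 (Φ · 1) (lY ν y) -
        pdn 1 (Φ · 0) (lY ν y) * pdn 0 (Φ · 1) (lY ν y)) ^ 2 *
      (B.F₁ (Φ (lY ν y)) * B.F₂ (Φ (lY ν y)))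

structure CtOut (ε ν : ℝ) (g : Pt → Mat) (V : Fin 4 → Pt → ℝ) (μ φ : Pt → ℝ) (Eb Cw : ℝ)
    (S : ℝ → Prop) (y : Pt) : Prop where
  pos : ∀ ξ, 0 ≤ qf (g y) ξ
  det : 16 * ν ^ 4 * τP (lY ν y) ^ 6 * ε ^ 7 ≤ μ y ^ 6 * (g y).det
  err : ∀ v, |qf (fun a b => errF g V a b y) v| ≤ 2 * Eb * μ y * qf (g y) v
  bar : BarOK (g y) (fun a b => Gf g a b y) (fun a b => ricF g a b y)
    (fun a b c d => rlF g a b c d y) (φ y) 1 (lapF g V φ y) (ε * μ y ^ (1 / 4 : ℝ))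
  wb : (2 * Cw + 2) ^ 2 * (ε * μ y) ≤ 1 / 4 →
    lapF g V (fun y' => ε * μ y' / (1 - (2 * Cw + 2) * (ε * μ y'))) y +
      ε * μ y / (1 - (2 * Cw + 2) * (ε * μ y)) ≤ -(ε * μ y) ^ 2
  scal : S (Scal g y)

def Ct2Stmt : Prop := ∀ (ε ν : ℝ) p q v μz φz Eb Cw S (y : Pt), 0 < ε → 0 < ν → y ∈ Dn →
  (∀ i j, q i j = q j i) → ZPt ε ν p q v μz φz Eb Cw S (lY ν y) →
  CtOut ε ν (gZ ν p q) (Vf (UZ ν v)) (fun y' => μz (lY ν y')) (fun y' => φz (lY ν y')) Eb Cw S y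

def EllStmt : Prop := ∀ (A : Mat) (K d : ℝ), A.IsSymm → (∀ ξ, 0 ≤ qf A ξ) → 0 < K →
  (∀ a b, |A a b| ≤ K) → d ≤ A.det → ∀ ξ, d / (4 * K) ^ 3 * nsq ξ ≤ qf A ξ

def lN : Filter (ℕ × ℝ) := Filter.curry atTop (𝓝[>] 0)
noncomputable def ΛN (i : ℕ × ℝ) : ℝ := max 2 i.2⁻¹

/-- Regular functions on the simplex give symbols. -/
def Ca1Stmt : Prop := ∀ c₀ : ℝ, 0 < c₀ →
  (∀ F : ℕ → ℝ → En 2 → ℝ, (∀ N, Reg (F N)) →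
    Mod lN ΛN 0 (fun i y => F i.1 i.2 (lY (i.2 * c₀) y)) ∧
    Mod lN ΛN (-2) (fun i => rad fun y => F i.1 i.2 (lY (i.2 * c₀) y)) ∧
    Mod lN ΛN 0 (fun i y => Real.smoothTransition (nsq y - 1) * F i.1 i.2 (lI y)) ∧
    ∀ᶠ i in lN, IsSymOn ext1 0 (fun y => F i.1 i.2 (lI y)) ∧
      IsSymOn ext1 (-2) fun y => F i.1 i.2 (lY (i.2 * c₀) y) - F i.1 i.2 (lI y)) ∧
  (∀ a : ℝ, Mod lN ΛN (-2 * a) fun i y => τP (lY (i.2 * c₀) y) ^ a) ∧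
  ∀ (f : En 2 → ℝ) (ρ : ℝ), 0 < ρ → (∀ ℓ ∈ Nb ρ, ContDiffAt ℝ ∞ f ℓ) → PB lz 1 1 fun _ => f

/-- The structural part of the hypotheses of the perturbation theorem. -/
def Ca2Stmt : Prop := ∀ (c₀ : ℝ) (p : ℕ → ℝ → Fin 2 → En 2 → ℝ)
  (q : ℕ → ℝ → Fin 2 → Fin 2 → En 2 → ℝ) (v : ℕ → ℝ → Fin 2 → En 2 → ℝ) (k : ℕ × ℝ → ℝ), 0 < c₀ →
  (∀ N w, Reg fun ε => p N ε w) → (∀ N i j, Reg fun ε => q N ε i j) →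
  (∀ N w, Reg fun ε => v N ε w) → (∀ᶠ i in lN, |k i| ≤ 1) →
  (∀ a b, Mod lN ΛN 0 fun i => gf (gZ (i.2 * c₀) (p i.1 i.2) (q i.1 i.2)) a b) ∧
  (∀ a b, Mod lN ΛN (-2) fun i => rad (gf (gZ (i.2 * c₀) (p i.1 i.2) (q i.1 i.2)) a b)) ∧
  (∀ a, Mod lN ΛN (-1) fun i => UZ (i.2 * c₀) (v i.1 i.2) a) ∧
  (∀ a b, Mod lN ΛN 0 fun i => gf (δZ (i.2 * c₀) (p i.1 i.2) (q i.1 i.2) (k i)) a b) ∧
  (∃ m : ℕ, ∀ᶠ i in lN, ∀ y, y ≠ 0 → ∀ a b,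
    |gI (i.2 * c₀) (p i.1 i.2) (q i.1 i.2) y a b| ≤ ΛN i ^ m) ∧
  ∀ᶠ i in lN, (∀ y, 4 ≤ nsq y → ∀ a b,
      rad (gf (δZ (i.2 * c₀) (p i.1 i.2) (q i.1 i.2) (k i)) a b) y = 0) ∧
    (∀ a b, IsSymOn ext1 (-2) (gf (gZ (i.2 * c₀) (p i.1 i.2) (q i.1 i.2)) a b +
      gf (δZ (i.2 * c₀) (p i.1 i.2) (q i.1 i.2) (k i)) a b -
      gf (γZ (i.2 * c₀) (p i.1 i.2) (q i.1 i.2) (k i)) a b)) ∧
    ∀ c : ℝ, (∀ y ∈ Dn, ∀ ξ, c * nsq ξ ≤ qf (gZ (i.2 * c₀) (p i.1 i.2) (q i.1 i.2) y) ξ) →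
      ∀ y, y ≠ 0 → ∀ ξ, c * nsq ξ ≤ qf (gI (i.2 * c₀) (p i.1 i.2) (q i.1 i.2) y) ξ

def ConeStmt : Prop := ∀ (ε ν k c e : ℝ) p q, 0 < ε → 0 < ν → 0 < k → 0 < c →
  (∀ ℓ ∈ Dz ε, (∀ w, ContDiffAt ℝ ∞ (p w) ℓ) ∧ ∀ i j, ContDiffAt ℝ ∞ (q i j) ℓ) →
  (∀ i j, q i j = q j i) → (∀ X ∈ Icc (0 : ℝ) 1, EigOK ν p q e X) →
  (∀ X ∈ Ioo (0 : ℝ) 1, LinkOK ν p q (6 * k) X) →
  (∀ y, y ≠ 0 → ∀ ξ, c * nsq ξ ≤ qf (gI ν p q y) ξ) →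
  IsCone (γZ ν p q k) ∧ (∀ y ∈ Dn, 0 ≤ Scal (γZ ν p q k) y) ∧
    ∀ y, y ≠ 0 → |aI ν p q y - 1| ≤ e

end Pool.Agent.Lib.MP_df9110_gt
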