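import Pool.Agent.Lib.MP_df9110_gt.NPln
import Pool.Agent.Lib.MP_df9110_gt.NCart

-- part Pool.Agent.Lib.MP_df9110_gt.ZId
section

/-! In the collar the inner formulas for `p` and `q` are valid. -/

namespace Pool.Agent.Lib.MP_df9110_gt

open Filter Topology Set
open scoped ContDiff

namespace ZId

section Gen

variable {R Z : Type} [CommRing R] [Algebra ℝ R]

structure Ev (l : Filter Z) (E : R → R) (v : R → Z → ℝ) : Prop where
  add : ∀ a b, ∀ᶠ z in l, v (a + b) z = v a z + v b z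
  mul : ∀ a b, ∀ᶠ z in l, v (a * b) z = v a z * v b z
  alg : ∀ c : ℝ, ∀ᶠ z in l, v (algebraMap ℝ R c) z = c
  exp : ∀ a, ∀ᶠ z in l, v (E a) z = Real.exp (v a z)

def V (l : Filter Z) (v : R → Z → ℝ) (a : R) (f : Z → ℝ) : Prop := ∀ᶠ z in l, v a z = f z

variable {l : Filter Z} {E : R → R} {v : R → Z → ℝ} {a b : R} {f g : Z → ℝ}

omit [CommRing R] [Algebra ℝ R] in
theorem V.rf (a : R) : V l v a (v a) := Eventually.of_forall fun _ => rfl

omit [CommRing R] [Algebra ℝ R] in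
theorem V.eq (h : a = b) (ha : V l v a f) (hb : V l v b g) : ∀ᶠ z in l, f z = g z := by
  subst h
  filter_upwards [ha, hb] with z h1 h2 using h1.symm.trans h2

variable (h : Ev l E v)
include h

theorem Ev.vadd (ha : V l v a f) (hb : V l v b g) : V l v (a + b) fun z => f z + g z := by
  filter_upwards [h.add a b, ha, hb] with z h0 h1 h2
  rw [h0, h1, h2]

theorem Ev.vmul (ha : V l v a f) (hb : V l v b g) : V l v (a * b) fun z => f z * g z := by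
  filter_upwards [h.mul a b, ha, hb] with z h0 h1 h2
  rw [h0, h1, h2]

theorem Ev.vexp (ha : V l v a f) : V l v (E a) fun z => Real.exp (f z) := by
  filter_upwards [h.exp a, ha] with z h0 h1
  rw [h0, h1]

theorem Ev.vneg (ha : V l v a f) : V l v (-a) fun z => -f z := by
  filter_upwards [h.mul (algebraMap ℝ R (-1)) a, h.alg (-1), ha] with z h0 h1 h2
  rw [h1, h2, map_neg, map_one, neg_one_mul, neg_one_mul] at h0
  exact h0

theorem Ev.vsub (ha : V l v a f) (hb : V l v b g) : V l v (a - b) fun z => f z - g z := by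
  simp only [sub_eq_add_neg]
  exact h.vadd ha (h.vneg hb)

theorem Ev.vsq (ha : V l v a f) : V l v (a ^ 2) fun z => f z ^ 2 := by
  simp only [sq]
  exact h.vmul ha ha

theorem Ev.vone : V l v 1 fun _ => 1 := by
  have := h.alg 1
  rwa [map_one] at this

theorem Ev.vtwo : V l v 2 fun _ => 2 := by
  have := h.alg 2
  rwa [map_ofNat] at this

theorem Ev.vfour : V l v 4 fun _ => 4 := by
  have := h.alg 4
  rwa [map_ofNat] at this

omit h

/-- The relations between the values of the fields of a layer at a point. -/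
structure VF (D : Fin 2 → R → R) (E : R → R) (G : Lay R) (c r X : R) (u : R → ℝ) : Prop where
  P1 : u (G.P1 D E) = -(u (G.P0 E) * u (G.τ₂ D E))
  Pp : u (G.Pp D E) = u (G.P0 E) + u G.bp * u (G.P1 D E)
  A : Real.exp (u G.lAo) = 4 * u (G.μ E) ^ 2 * Real.exp (u G.la) * u (G.Pp D E) ^ 2 +
    Real.exp (u G.lc) * u (G.P1 D E) ^ 2
  τ₁ : u (G.τ₁ D E) = 4 * Real.exp (u G.la) * u (G.Pp D E) * Real.exp (-u G.lAo)
  b : u (E G.lc * G.P1 D E * E (-G.lAo)) = Real.exp (u G.lc) * u (G.P1 D E) * Real.exp (-u G.lAo)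
  Cl : Real.exp (u G.lCl) = 4 * u (G.P0 E) ^ 2 * Real.exp (u G.la) * Real.exp (u G.lc) *
    Real.exp (-u G.lAo)
  dμ : u (D 0 (G.μ E)) * u (G.P0 E) = u G.ε
  iA : u (E (-G.lAo)) = Real.exp (-u G.lAo)
  dC : u (E (-G.lC) - E (-G.lCl)) = Real.exp (-u G.lC) - Real.exp (-u G.lCl)
  iC : u (E (-G.lC)) = Real.exp (-u G.lC)
  eA : u (E G.lA) = Real.exp (u G.lA)
  aA : u (G.al E * E G.lA) = u (G.al E) * Real.exp (u G.lA)
  au : u (G.al E * E (2 * G.u₁)) = u (G.al E) * Real.exp (2 * (u G.uw + u G.lam))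
  u₂ : u (E (2 * G.u₂)) = Real.exp (2 * (u G.uo + u G.nu))
  al : u (G.al E) = 1 - u G.y * Real.exp (-u G.lq)
  lA : u G.lA = u G.lAo - 2 * u G.lam - 2 * u G.rho * u G.y
  lC : u G.lC = u G.lCl + 2 * u G.gam
  ath : u (E (G.leh - G.lq)) = Real.exp (u G.leh - u G.lq)
  al' : u c * Real.exp (u G.leh) = (2 + u c) * Real.exp (u G.lq) * u (G.al E)
  hr : (2 + u c) * u r = 1
  xi : u c * u X = 4 - Real.exp (2 * (u G.leh - u G.lq) + u G.lA + 2 * (u G.uw + u G.lam)) *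
    u r ^ 2

include h in
theorem vf {D : Fin 2 → R → R} {G : Lay R} {c r X : R} (ok : G.Ok D E) (lb : LayBasic D E G)
    (hal : c * G.eh E = (2 + c) * G.q E * G.al E) (hr : (2 + c) * r = 1)
    (hX : c * X = 4 - E (2 * (G.leh - G.lq) + G.lA + 2 * G.u₁) * r ^ 2) :
    ∀ᶠ z in l, VF D E G c r X (v · z) := by
  rw [← ok.leh, ← ok.lq] at hal
  have hu : V l v G.u₁ fun z => v G.uw z + v G.lam z := h.vadd (V.rf _) (V.rf _)
  have hi : V l v (E (-G.lAo)) fun z => Real.exp (-v G.lAo z) := h.vexp (h.vneg (V.rf _))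
  have hC : V l v (E (-G.lC)) fun z => Real.exp (-v G.lC z) := h.vexp (h.vneg (V.rf _))
  have e := fun a => h.vexp (V.rf (l := l) (v := v) a)
  have s := fun a => h.vsq (V.rf (l := l) (v := v) a)
  filter_upwards [h.vneg (h.vmul (V.rf (G.P0 E)) (V.rf (G.τ₂ D E))),
    h.vadd (V.rf (G.P0 E)) (h.vmul (V.rf G.bp) (V.rf (G.P1 D E))),
    V.eq ok.lAo (e _) (h.vadd (h.vmul (h.vmul (h.vmul h.vfour (s _)) (e _)) (s _))
      (h.vmul (e _) (s _))),
    h.vmul (h.vmul (h.vmul h.vfour (e G.la)) (V.rf (G.Pp D E))) hi,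
    h.vmul (h.vmul (e G.lc) (V.rf (G.P1 D E))) hi,
    V.eq lb.Cl (e _) (h.vmul (h.vmul (h.vmul (h.vmul h.vfour (s _)) (e _)) (e _)) hi),
    V.eq lb.dμ (h.vmul (V.rf _) (V.rf _)) (V.rf _), hi,
    h.vsub hC (h.vexp (h.vneg (V.rf G.lCl))), hC, e G.lA, h.vmul (V.rf (G.al E)) (e G.lA),
    h.vmul (V.rf (G.al E)) (h.vexp (h.vmul h.vtwo hu)),
    h.vexp (h.vmul h.vtwo (h.vadd (V.rf G.uo) (V.rf G.nu))),
    h.vsub h.vone (h.vmul (V.rf G.y) (h.vexp (h.vneg (V.rf G.lq)))),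
    h.vsub (h.vsub (V.rf G.lAo) (h.vmul h.vtwo (V.rf G.lam)))
      (h.vmul (h.vmul h.vtwo (V.rf G.rho)) (V.rf G.y)),
    h.vadd (V.rf G.lCl) (h.vmul h.vtwo (V.rf G.gam)),
    h.vexp (h.vsub (V.rf G.leh) (V.rf G.lq)),
    V.eq hal (h.vmul (V.rf _) (e _)) (h.vmul (h.vmul (h.vadd h.vtwo (V.rf _)) (e _)) (V.rf _)),
    V.eq hr (h.vmul (h.vadd h.vtwo (V.rf _)) (V.rf _)) h.vone,
    V.eq hX (h.vmul (V.rf _) (V.rf _)) (h.vsub h.vfour (h.vmul (h.vexp (h.vadd (h.vadd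
      (h.vmul h.vtwo (h.vsub (V.rf _) (V.rf _))) (V.rf _)) (h.vmul h.vtwo hu))) (s _)))]
    with z h1 h2 h3 h4 h5 h6 h7 h8 h9 h10 h11 h12 h13 h14 h15 h16 h17 h18 h19 h20 h21
  exact ⟨h1, h2, h3, h4, h5, h6, h7, h8, h9, h10, h11, h12, h13, h14, h15, h16, h17, h18, h19,
    h20, h21⟩

end Gen

section Val

variable {l : Filter Z2}

theorem val_mk (F : SmF l) : ∀ᶠ z in l, val (mkG l F) z = F.1 z.1 z.2 := mkG_eq.1 (mkG_rep _)

theorem val_gm {F : ℝ → En 2 → ℝ} (h : F ∈ SmF l) : ∀ᶠ z in l, val (gm l F) z = F z.1 z.2 := by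
  rw [gm_eq h]; exact val_mk _

theorem ev : Ev l expG (val (l := l)) where
  add a b := by
    have := val_mk (rep a + rep b)
    rw [map_add, mkG_rep, mkG_rep] at this
    exact this
  mul a b := by
    have := val_mk (rep a * rep b)
    rw [map_mul, mkG_rep, mkG_rep] at this
    exact this
  alg c := by
    have := val_mk (algebraMap ℝ (SmF l) c)
    rw [AlgHom.commutes] at this
    exact this
  exp a := by
    have := val_mk (sfE l (rep a))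
    rw [mkG_sfE, mkG_rep] at this
    exact this

theorem val_D [OpF l] {F : ℝ → En 2 → ℝ} (h : F ∈ SmF l) (j : Fin 2) :
    ∀ᶠ z in l, val (gD j (gm l F)) z = pdn j (F z.1) z.2 := by
  rw [gm_eq h, ← mkG_sfD]; exact val_mk _

theorem val_pb {l' : Filter Z2} {Φ : ℝ → En 2 → En 2} (h : IsPull l l' Φ) (φ : SG l) :
    ∀ᶠ z in l', val (pb l' Φ φ) z = val φ (z.1, Φ z.1 z.2) := val_gm (h.mem (rep φ))

theorem r_mem (c a b : ℝ) : (fun (_ : ℝ) (p : En 2) => (2 + p 0)⁻¹) ∈ SmF (lS c a b) := by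
  change ∀ᶠ z in lS c a b, ContDiffAt ℝ ∞ (fun p : En 2 => (2 + p 0)⁻¹) z.2
  refine ev_fam.2 (Eventually.of_forall fun ε p hp => ?_)
  exact (contDiffAt_const.add (contDiffAt_apply ℝ ℝ 0 p)).inv (by linarith [hp.1])

theorem r_eq {c a b : ℝ} (A : AvgFacts (lS c a b) a b) :
    (2 + cG (lS c a b)) * (gm (lS c a b) fun _ p => (2 + p 0)⁻¹) = 1 := by
  rw [cG, gm_eq A.crd.1, gm_eq (r_mem c a b), ← map_ofNat (mkG (lS c a b)) 2, ← map_add,
    ← map_mul]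
  refine (mkG_eq.2 ?_).trans (map_one _)
  refine ev_fam.2 (Eventually.of_forall fun ε p hp => ?_)
  exact mul_inv_cancel₀ (a := 2 + p 0) (by linarith [hp.1])

theorem xi_eq {c a b : ℝ} (A : AvgFacts (lS c a b) a b) (G : Lay (SG (lS c a b)))
    (hw : ev0 (expG (2 * (G.leh - G.lq) + G.lA + 2 * G.u₁)) = 16) :
    cG _ * G.Xi2 = 4 - expG (2 * (G.leh - G.lq) + G.lA + 2 * G.u₁) *
      (gm (lS c a b) fun _ p => (2 + p 0)⁻¹) ^ 2 := by
  have h1 := congrArg A.pull0.hom (r_eq A)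
  have h2 := A.ev_c
  rw [ev0, pb_eq A.pull0] at hw h2
  rw [map_mul, map_add, map_ofNat, map_one, h2] at h1
  rw [Lay.Xi2, A.ftc, ev0, pb_eq A.pull0, map_neg, map_mul, map_pow, hw]
  linear_combination (4 * (2 * A.pull0.hom (gm (lS c a b) fun _ p => (2 + p 0)⁻¹) + 1)) * h1

end Val

theorem isCut {c₁ : ℝ} (h : 0 < c₁) : IsCut (mcut c₁) := by
  refine ⟨Real.smoothTransition.contDiff.comp (contDiff_const.sub (contDiff_id.div_const _)),
    fun s => ⟨Real.smoothTransition.nonneg _, Real.smoothTransition.le_one _⟩, c₁, h,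
    fun s hs => Real.smoothTransition.one_of_one_le ?_⟩
  have := (div_le_one h).2 hs
  linarith

theorem gl_out (H : Chart) (hρ : 0 < H.ρ) {w : Fin 2} {ℓ : En 2} (h : 3 * H.ρ / 4 < ℓ w)
    (a b : ℝ) : H.gl w ℓ a b = b := by
  have : 3 - 4 * ℓ w / H.ρ ≤ 0 := by
    rw [sub_nonpos, le_div_iff₀ hρ]; linarith
  simp [Chart.gl, Real.smoothTransition.zero_of_nonpos this]

theorem gl_in (H : Chart) (hρ : 0 < H.ρ) {w : Fin 2} {ℓ : En 2} {a b : ℝ}
    (h : H.ρ / 2 ≤ ℓ w → a = b) : H.gl w ℓ a b = a := by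
  rcases le_total (H.ρ / 2) (ℓ w) with h1 | h1
  · rw [Chart.gl, h h1]; ring
  · have : 1 ≤ 3 - 4 * ℓ w / H.ρ := by
      have : 4 * ℓ w / H.ρ ≤ 2 := by rw [div_le_iff₀ hρ]; linarith
      linarith
    simp [Chart.gl, Real.smoothTransition.one_of_one_le this]

theorem pdn_crd (w j : Fin 2) (ℓ : En 2) :
    pdn j (fun x : En 2 => x w) ℓ = if j = w then 1 else 0 := by
  rw [pdn, (hasFDerivAt_apply (𝕜 := ℝ) w ℓ).fderiv]
  fin_cases w <;> fin_cases j <;> simp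

theorem cd_τ : ContDiff ℝ ∞ τP := by unfold τP; fun_prop

theorem pdn_τ (j : Fin 2) (ℓ : En 2) : pdn j τP ℓ = -1 := by
  have h := ((hasFDerivAt_const (1 : ℝ) ℓ).sub (hasFDerivAt_apply (𝕜 := ℝ) 0 ℓ)).sub
    (hasFDerivAt_apply (𝕜 := ℝ) 1 ℓ)
  rw [pdn, show τP = _ from rfl, HasFDerivAt.fderiv (f := τP) h]
  fin_cases j <;> simp

/-- The chain rule on the collar. -/
theorem chain (b1 : B1Stmt) (H : Chart) (J : Bool) (w j : Fin 2) {ε : ℝ} {ℓ : En 2}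
    {M : En 2 → ℝ} (hε : ε ≠ 0) (hφ : ContDiffAt ℝ ∞ (H.φ J) ℓ) (hξ : ContDiffAt ℝ ∞ (H.ξ J) ℓ)
    (hK : ContDiffAt ℝ ∞ (H.K J w) ℓ) (hM : DifferentiableAt ℝ M (H.ΦL J w ε ℓ))
    (he : ∀ᶠ x in 𝓝 ℓ, M (H.ΦL J w ε x) = τP x * H.φ J x) :
    ε * (τP ℓ * H.n J j ℓ) =
      pdn 0 M (H.ΦL J w ε ℓ) * H.dS J w j ℓ + ε * (pdn 1 M (H.ΦL J w ε ℓ) * δP j (H.ξ J) ℓ) := by
  have dφ := hφ.differentiableAt (by simp)
  have dK := hK.differentiableAt (by simp)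
  have dw : DifferentiableAt ℝ (fun x : En 2 => x w) ℓ := differentiableAt_apply w ℓ
  have eσ : H.σ J w ε = ε⁻¹ • ((fun x : En 2 => x w) * H.K J w) := by
    funext x
    simp only [Chart.σ, Pi.smul_apply, Pi.mul_apply, smul_eq_mul]
    ring
  have dΦ : DifferentiableAt ℝ (H.ΦL J w ε) ℓ := by
    refine differentiableAt_pi.2 fun a => ?_
    fin_cases a
    · change DifferentiableAt ℝ (H.σ J w ε) ℓ
      rw [eσ]
      exact (dw.mul dK).const_smul _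
    · exact hξ.differentiableAt (by simp)
  have key : ∀ i, ε * (τP ℓ * pdn i (H.φ J) ℓ - H.φ J ℓ) = pdn 0 M (H.ΦL J w ε ℓ) *
      (ℓ w * pdn i (H.K J w) ℓ + (if i = w then 1 else 0) * H.K J w ℓ) +
      ε * (pdn 1 M (H.ΦL J w ε ℓ) * pdn i (H.ξ J) ℓ) := fun i => by
    have h1 := (b1 2).chain dΦ hM i
    have h2 : pdn i (M ∘ H.ΦL J w ε) ℓ = pdn i (τP * H.φ J) ℓ := (pdn_congr he i).self_of_nhds
    have h3 : pdn i (fun q => H.ΦL J w ε q 0) ℓ =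
        ε⁻¹ * (ℓ w * pdn i (H.K J w) ℓ + (if i = w then 1 else 0) * H.K J w ℓ) := by
      change pdn i (H.σ J w ε) ℓ = _
      rw [eσ, pdn_smul (dw.mul dK), pdn_mul dw dK, pdn_crd]
    have h4 : pdn i (fun q => H.ΦL J w ε q 1) ℓ = pdn i (H.ξ J) ℓ := rfl
    rw [h2, pdn_mul (cd_τ.differentiable (by simp) ℓ) dφ, pdn_τ, Fin.sum_univ_two, h3, h4] at h1
    have hi : ε * ε⁻¹ = 1 := mul_inv_cancel₀ hε
    linear_combination ε * h1 + pdn 0 M (H.ΦL J w ε ℓ) *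
      (ℓ w * pdn i (H.K J w) ℓ + (if i = w then 1 else 0) * H.K J w ℓ) * hi
  have k0 := key 0
  have k1 := key 1
  have kj := key j
  have e : ℓ 0 * (if 0 = w then 1 else 0) + ℓ 1 * (if 1 = w then 1 else 0) = ℓ w := by
    fin_cases w <;> simp
  have e' : (if j = w then H.K J w ℓ else 0) = (if j = w then 1 else 0) * H.K J w ℓ := by
    split_ifs <;> simp
  simp only [Chart.n, Chart.dS, Chart.S, δP, EP, e']
  rw [τP] at *
  linear_combination kj - ℓ 0 * k0 - ℓ 1 * k1 - pdn 0 M (H.ΦL J w ε ℓ) * H.K J w ℓ * e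

theorem algA {ν ε φ τ a c A Cl P0 P1 Pp n n' o o' : ℝ} (hε : ε ≠ 0) (hφ : φ ≠ 0) (ha : a ≠ 0)
    (hc : c ≠ 0) (hA : A ≠ 0) (hCl : Cl ≠ 0) (h3 : A = 4 * (τ * φ) ^ 2 * a * Pp ^ 2 + c * P1 ^ 2)
    (h6 : Cl = 4 * P0 ^ 2 * a * c * A⁻¹) :
    ν ^ 2 / ε * (n * n' * a⁻¹ / (4 * φ ^ 3) + o * o' * c⁻¹ / φ) =
      ν ^ 2 / (ε * φ) * ((Pp * τ * n + P1 * o) * (Pp * τ * n' + P1 * o') * A⁻¹) +
        ν ^ 2 / (ε * φ ^ 3) * Cl⁻¹ * (P0 * (τ * φ ^ 2 * (4 * a * Pp * A⁻¹) * o - c * P1 * A⁻¹ * n)) *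
          (P0 * (τ * φ ^ 2 * (4 * a * Pp * A⁻¹) * o' - c * P1 * A⁻¹ * n')) := by
  have hP : P0 ≠ 0 := by
    rintro rfl
    simp [h6] at hCl
  rw [h6]
  field_simp
  rw [h3]
  ring

theorem algB {ν ε φ l K t A e X p S S' δ δ' : ℝ} (hε : ε ≠ 0) (hφ : φ ≠ 0) (hl : l ≠ 0)
    (hK : K ≠ 0) (ht : t ≠ 0) (hA : A ≠ 0) (hX : l * K / ε * X = 4 - t ^ 2 * A * e)
    (hp : p * l * φ = ν * ε * (l * K / ε * t * e)) :
    ν ^ 2 / (ε * φ) * (δ * δ' * (K ^ 2 * X / (4 * (t * A))) +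
        ε / (K * (t * A)) * (K * (δ * S' + δ' * S) + l * S * S')) + δ * δ' * (ν * p / (4 * l)) =
      ν ^ 2 / (ε * φ) * (δ * K + l * S) * (δ' * K + l * S') / (l * K / ε * t * A) := by
  have e1 : X = (4 - t ^ 2 * A * e) * ε / (l * K) := by
    rw [← hX]; field_simp
  have e2 : p = ν * K * t * e / φ := by
    field_simp at hp ⊢
    exact hp
  rw [e1, e2]
  field_simp
  ring

variable {P : Prof} {c : ℝ}

/-- The values of the fields of the layer `w` at a point. -/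
structure CF (Z : ZD P c) (w : Fin 2) (z : Z2) : Prop where
  vf : VF gD expG (Z.G w) (cG _) (gm _ fun _ p => (2 + p 0)⁻¹) (Z.G w).Xi2 (val · z)
  eps : val (Z.G w).ε z = z.1
  crd : val (cG (P.lL c w)) z = z.2 0
  mu : val ((Z.G w).μ expG) z = P.Mu w (z.1 * z.2 0) (z.2 1)
  d : ∀ j, val (gD j ((Z.G w).μ expG)) z = pdn j (fun p => P.Mu w (z.1 * p 0) (p 1)) z.2
  dM : DifferentiableAt ℝ (fun p : En 2 => P.Mu w (z.1 * p 0) (p 1)) z.2
  y : val (Z.G w).y z = mcut Z.c₁ (z.1 * z.2 0) * Real.exp (-(2 * z.2 0))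
  cor : ∀ j, val (mG _ (mcut Z.c₁) * Z.s.Z w j) z = mcut Z.c₁ (z.1 * z.2 0) * val (Z.s.Z w j) z
  la : val (Z.G w).la z = val Z.s.la (z.1, P.Φ w z.1 z.2)
  bp : val (Z.G w).bp z = val Z.s.bp (z.1, P.Φ w z.1 z.2)
  lc : val (Z.G w).lc z = val Z.s.lc (z.1, P.Φ w z.1 z.2)
  uw : val (Z.G w).uw z = val (Z.s.u w) (z.1, P.Φ w z.1 z.2)
  uo : val (Z.G w).uo z = val (Z.s.u (w + 1)) (z.1, P.Φ w z.1 z.2)

theorem cf (b2 : B2Stmt) (av : AvgStmt) (wt : WtStmt) (lb : LayBasicStmt) {g : P.Geo c}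
    {Z : ZD P c} {N : ℕ} {Cb : ℝ} (hZ : Z.Ok g N Cb) (w : Fin 2) : ∀ᶠ z in P.lL c w, CF Z w z := by
  have hm := isCut hZ.c₁_pos
  have A : AvgFacts (P.lL c w) _ _ := av.1 c (P.lo w) (P.hi w) g.pos
  have W : WtFacts (P.lL c w) := wt c (P.lo w) (P.hi w) g.pos
  have B : B2Facts (P.lL c w) 1 := b2 _ _ _ 1 fun _ => zero_le_one
  have F := (hZ.fin.lay _ hm w).1
  have L := lb _ gD expG _ isDer_gD ⟨B.exp_add, B.exp_zero, B.exp_der⟩ A.e16 F.ok
  have hM : (fun ε (p : En 2) => P.Mu w (ε * p 0) (p 1)) ∈ SmF (P.lL c w) := (g.pull w).smooth 0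
  have e : (Z.G w).μ expG = gm _ fun ε p => P.Mu w (ε * p 0) (p 1) := F.mu
  have h4 := val_gm hM
  have h5 := eventually_all.2 (val_D hM)
  rw [← e] at h4 h5
  filter_upwards [vf ev F.ok L F.al (r_eq A) (xi_eq A _ F.wall), val_gm A.eps.1, val_gm A.crd.1,
    h4, h5, hM, val_gm (W.sm _ hm).1, val_gm (W.sm _ hm).2.2,
    eventually_all.2 fun j => ev.mul (mG _ (mcut Z.c₁)) (Z.s.Z w j), val_pb (g.pull w) Z.s.la,
    val_pb (g.pull w) Z.s.bp, val_pb (g.pull w) Z.s.lc, val_pb (g.pull w) (Z.s.u w),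
    val_pb (g.pull w) (Z.s.u (w + 1))] with z h1 h2 h3 h4 h5 h6 h7 h8 h9 h10 h11 h12 h13 h14
  refine ⟨h1, h2, h3, h4, h5, h6.differentiableAt (by simp), h7, fun j => ?_, h10, h11, h12, h13,
    h14⟩
  rw [h9, mG, h8]

theorem sum_w (f : Fin 2 → ℝ) (w : Fin 2) : ∑ v, f v = f w + f (w + 1) := by
  fin_cases w <;> simp [add_comm]

theorem diag (f : Fin 2 → ℝ) (w i j : Fin 2) :
    (if i = w + 1 ∧ j = w + 1 then -f (w + 1) else 0) + (if i = j then f i else 0) =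
      if i = w ∧ j = w then f w else 0 := by
  fin_cases w <;> fin_cases i <;> fin_cases j <;> simp

theorem pt (b1 : B1Stmt) {Z : ZD P c} (J : Bool) (w : Fin 2) {ε : ℝ} {ℓ : En 2}
    (H : Z.H.Ok P c) (c1 : 0 < Z.c₁) (c2 : 8 * Z.c₁ ≤ Z.H.ρ * Z.H.k₀) (hε : 0 < ε)
    (hρ : ε ^ 2 ≤ Z.H.ρ) (hℓ : ℓ ∈ Dz ε) (h0 : 0 < ℓ w) (h1 : ℓ w < Z.H.ρ)
    (h2 : 3 * Z.H.ρ / 4 < ℓ (w + 1)) (F : CF Z w (ε, Z.H.ΦL J w ε ℓ)) :
    0 < Z.L J ε w ((Z.G w).al expG) ℓ ∧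
    (∀ i j, Z.q J ε i j ℓ + (if i = j then Z.ν ε * Z.p J ε i ℓ / (4 * ℓ i) else 0) =
      Z.ν ε ^ 2 / (ε * Z.H.φ J ℓ) * Z.H.dS J w i ℓ * Z.H.dS J w j ℓ /
          Z.L J ε w ((Z.G w).al expG * expG (Z.G w).lA) ℓ +
        Z.ν ε ^ 2 / (ε * Z.H.φ J ℓ ^ 3) * Z.L J ε w (expG (-(Z.G w).lC)) ℓ * Z.oh J ε w i ℓ *
          Z.oh J ε w j ℓ) ∧
    Z.p J ε w ℓ * ℓ w * Z.H.φ J ℓ =
      Z.ν ε * ε * Z.L J ε w ((Z.G w).al expG * expG (2 * (Z.G w).u₁)) ℓ ∧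
    Z.p J ε (w + 1) ℓ * ℓ (w + 1) * Z.H.φ J ℓ =
      Z.ν ε * ε * Z.L J ε w (expG (2 * (Z.G w).u₂)) ℓ := by
  have ρ0 := H.pos.2.1
  have nb : ∀ x ∈ Dz ε, x ∈ Nb Z.H.ρ := fun x hx =>
    ⟨by linarith [hx.1], by linarith [hx.2.1], by linarith [hx.2.2]⟩
  have es : ∀ x, ε * Z.H.ΦL J w ε x 0 = x w * Z.H.K J w x := fun x => by
    change ε * (x w * Z.H.K J w x / ε) = _
    field_simp
  obtain ⟨sφ, sξ, φ0, -⟩ := H.sm J ℓ (nb ℓ hℓ)
  obtain ⟨sK, k0, -, hμ, -⟩ := H.col J w ℓ (nb ℓ hℓ) h1.le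
  have K0 : 0 < Z.H.K J w ℓ := H.pos.2.2.2.1.trans_le k0
  have he : ∀ᶠ x in 𝓝 ℓ, P.Mu w (ε * Z.H.ΦL J w ε x 0) (Z.H.ΦL J w ε x 1) = τP x * Z.H.φ J x := by
    have o : IsOpen (Dz ε) := (isOpen_lt continuous_const (continuous_apply 0)).inter
      ((isOpen_lt continuous_const (continuous_apply 1)).inter
        (isOpen_lt continuous_const cd_τ.continuous))
    filter_upwards [o.mem_nhds hℓ, (isOpen_lt (continuous_apply w) continuous_const).mem_nhds h1]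
      with x hx hx'
    rw [es]
    exact (H.col J w x (nb x hx) (le_of_lt hx')).2.2.2.1
  have hΦ : P.Φ w ε (Z.H.ΦL J w ε ℓ) = Z.H.ΦO J ℓ := by
    rw [Prof.Φ, he.self_of_nhds]; rfl
  have ch := fun j => chain b1 Z.H J w j hε.ne' sφ sξ sK F.dM he
  obtain ⟨V, e1, e2, e3, e4, -, e5, e6, e7, e8, e9, e10, e11⟩ := F
  have m0 : Z.H.ρ / 2 ≤ ℓ w → mcut Z.c₁ (ε * Z.H.ΦL J w ε ℓ 0) = 0 := fun h => by
    rw [es]
    refine Real.smoothTransition.zero_of_nonpos ?_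
    rw [sub_nonpos, le_div_iff₀ c1]
    nlinarith [mul_le_mul h k0 H.pos.2.2.2.1.le h0.le]
  simp only [hΦ] at e7 e8 e9 e10 e11
  have σ0 : 0 < Z.H.σ J w ε ℓ := div_pos (mul_pos h0 K0) hε
  replace e2 : val (cG (P.lL c w)) (ε, Z.H.ΦL J w ε ℓ) = Z.H.σ J w ε ℓ := e2
  have t0 : 0 < Z.at' J ε w ℓ := by
    rw [ZD.at', ZD.L, V.ath]; positivity
  have hal : Z.L J ε w ((Z.G w).al expG) ℓ = ℓ w * Z.H.K J w ℓ / ε * Z.at' J ε w ℓ := by
    have := V.al'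
    rw [e2] at this
    change _ = Z.H.σ J w ε ℓ * _
    rw [ZD.at', ZD.L, ZD.L, V.ath, Real.exp_sub]
    field_simp
    linear_combination -this
  have far : Z.H.ρ / 2 ≤ ℓ w → Z.L J ε w (Z.G w).lam ℓ = 0 ∧ Z.L J ε w (Z.G w).gam ℓ = 0 ∧
      Z.L J ε w (Z.G w).nu ℓ = 0 ∧ Z.L J ε w (Z.G w).y ℓ = 0 := fun h => by
    have := m0 h
    exact ⟨(e6 0).trans (by simp [this]), (e6 1).trans (by simp [this]),
      (e6 2).trans (by simp [this]), e5.trans (by simp [this])⟩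
  have al1 : Z.H.ρ / 2 ≤ ℓ w → Z.L J ε w ((Z.G w).al expG) ℓ = 1 := fun h => by
    have := (far h).2.2.2
    rw [ZD.L] at this ⊢
    rw [V.al, this]; simp
  have go := gl_out Z.H ρ0 h2
  have p1 : Z.p J ε w ℓ * ℓ w * Z.H.φ J ℓ = Z.ν ε * ε * (ℓ w * Z.H.K J w ℓ / ε * Z.at' J ε w ℓ *
      Real.exp (2 * (Z.L J ε w (Z.G w).uw ℓ + Z.L J ε w (Z.G w).lam ℓ))) := by
    rw [ZD.p, go, gl_in Z.H ρ0 fun h => (far h).1, gl_in Z.H ρ0, add_zero, ZD.o, ← e10]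
    · simp only [ZD.L]
      field_simp
    · intro h
      have := hal.symm.trans (al1 h)
      field_simp at this ⊢
      linarith
  have hA : ∀ i j, Z.qo J ε i j ℓ = Z.ν ε ^ 2 / (ε * Z.H.φ J ℓ) *
      (Z.H.dS J w i ℓ * Z.H.dS J w j ℓ * (Real.exp (Z.L J ε w (Z.G w).lAo ℓ))⁻¹) +
      Z.ν ε ^ 2 / (ε * Z.H.φ J ℓ ^ 3) * (Real.exp (Z.L J ε w (Z.G w).lCl ℓ))⁻¹ * Z.oh J ε w i ℓ *
        Z.oh J ε w j ℓ := by
    have dS : ∀ j, Z.H.dS J w j ℓ = Z.L J ε w ((Z.G w).Pp gD expG) ℓ * τP ℓ * Z.H.n J j ℓ +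
        Z.L J ε w ((Z.G w).P1 gD expG) ℓ * Z.om J ε j ℓ := fun j => by
      have a1 := ch j
      have a2 := V.dμ
      have a3 := V.P1
      rw [← e4, ← e4] at a1
      rw [e1] at a2
      rw [ZD.om, ZD.o, ← e8, ZD.L, ZD.L, V.Pp]
      apply mul_left_cancel₀ hε.ne'
      rw [Lay.τ₂] at a3
      linear_combination -val ((Z.G w).P0 expG) (ε, Z.H.ΦL J w ε ℓ) * a1 -
        Z.H.dS J w j ℓ * a2 - ε * δP j (Z.H.ξ J) ℓ * a3
    intro i j
    have a3 := V.A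
    have a6 := V.Cl
    rw [e3, he.self_of_nhds] at a3
    rw [Real.exp_neg] at a6
    rw [dS, dS, ZD.qo, ZD.oh, ZD.oh, ZD.o, ZD.o, ← e7, ← e9]
    simp only [ZD.L, V.τ₁, V.b, Real.exp_neg]
    exact algA hε.ne' φ0.ne' (Real.exp_ne_zero _) (Real.exp_ne_zero _) (Real.exp_ne_zero _)
      (Real.exp_ne_zero _) a3 a6
  have hX : ℓ w * Z.H.K J w ℓ / ε * Z.L J ε w (Z.G w).Xi2 ℓ =
      4 - Z.at' J ε w ℓ ^ 2 * Real.exp (Z.L J ε w (Z.G w).lA ℓ) *
        Real.exp (2 * (Z.L J ε w (Z.G w).uw ℓ + Z.L J ε w (Z.G w).lam ℓ)) := by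
    have a1 := V.xi
    have a2 := eq_inv_of_mul_eq_one_right V.hr
    rw [a2, e2, Real.exp_add, Real.exp_add, two_mul, Real.exp_add] at a1
    rw [ZD.at', ZD.L, ZD.L, V.ath]
    refine a1.trans ?_
    simp only [ZD.L]
    ring
  have hB : ∀ i j, Z.qo J ε i j ℓ + Z.Rin J ε w i j ℓ +
      (if i = w ∧ j = w then Z.ν ε * Z.p J ε w ℓ / (4 * ℓ w) else 0) =
      Z.ν ε ^ 2 / (ε * Z.H.φ J ℓ) * Z.H.dS J w i ℓ * Z.H.dS J w j ℓ /
          Z.L J ε w ((Z.G w).al expG * expG (Z.G w).lA) ℓ +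
        Z.ν ε ^ 2 / (ε * Z.H.φ J ℓ ^ 3) * Z.L J ε w (expG (-(Z.G w).lC)) ℓ * Z.oh J ε w i ℓ *
          Z.oh J ε w j ℓ := fun i j => by
    have a1 := algB (S := Z.H.S J w i ℓ) (S' := Z.H.S J w j ℓ) (δ := if i = w then 1 else 0)
      (δ' := if j = w then 1 else 0) hε.ne' φ0.ne' h0.ne' K0.ne' t0.ne' (Real.exp_ne_zero _) hX p1
    have a2 : Z.L J ε w ((Z.G w).al expG * expG (Z.G w).lA) ℓ =
        ℓ w * Z.H.K J w ℓ / ε * Z.at' J ε w ℓ * Real.exp (Z.L J ε w (Z.G w).lA ℓ) := by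
      rw [← hal]; exact V.aA
    rw [hA, ZD.Rin, ZD.aA, a2]
    simp only [ZD.L, V.iA, V.dC, V.iC, V.eA, Real.exp_neg, Chart.dS] at a1 ⊢
    by_cases hi : i = w <;> by_cases hj : j = w <;>
      simp only [hi, hj, if_true, if_false, and_self, and_false, false_and] at a1 ⊢ <;>
      linear_combination a1
  refine ⟨by rw [hal]; positivity, fun i j => ?_, ?_, ?_⟩
  · rw [← hB, ZD.q, sum_w _ w, go, gl_in Z.H ρ0]
    · linear_combination diag (fun v => Z.ν ε * Z.p J ε v ℓ / (4 * ℓ v)) w i j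
    · intro h
      obtain ⟨a1, a2, -, a4⟩ := far h
      have a5 := hB i j
      have a6 := al1 h
      have a7 := hA i j
      simp only [ZD.L] at a1 a2 a4 a5 a6 a7
      rw [V.aA, V.iC, V.lA, V.lC, a1, a2, a4, a6] at a5
      simp only [mul_zero, sub_zero, add_zero, one_mul, Real.exp_neg, div_eq_mul_inv] at a5 a7 ⊢
      split_ifs at a5 ⊢ <;> linear_combination a5 - a7
  · rw [p1, ← hal]
    exact congrArg _ V.au.symm
  · have e : w + 1 + 1 = w := by fin_cases w <;> rfl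
    have a1 : Z.H.gl (w + 1 + 1) ℓ (Z.L J ε (w + 1 + 1) (Z.G (w + 1 + 1)).nu ℓ) 0 =
        Z.L J ε w (Z.G w).nu ℓ :=
      (congrArg (fun v => Z.H.gl v ℓ (Z.L J ε v (Z.G v).nu ℓ) 0) e).trans
        (gl_in Z.H ρ0 fun h => (far h).2.2.1)
    have a2 : ℓ (w + 1) ≠ 0 := by linarith [ρ0] |> ne_of_gt
    rw [ZD.p, go, go, a1, add_zero, ZD.o, ← e11, ZD.L, ZD.L, V.u₂]
    field_simp

end ZId

theorem zid (b1 : B1Stmt) (b2 : B2Stmt) (av : AvgStmt) (wt : WtStmt) (lb : LayBasicStmt) :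
    ZIdStmt := by
  intro P c g Z N Cb J w hZ
  have H := hZ.chart
  have t : Tendsto (fun ε : ℝ => ε ^ 2) (𝓝[>] 0) (𝓝 0) := by
    simpa using ((continuous_pow 2).tendsto (0 : ℝ)).mono_left nhdsWithin_le_nhds
  filter_upwards [ev_fam.1 (ZId.cf b2 av wt lb hZ w), self_mem_nhdsWithin,
    t.eventually (ge_mem_nhds H.pos.2.1)] with ε h hε hρ ℓ hℓ h0 h1 h2
  have hε' : 0 < ε := hε
  obtain ⟨-, k0, k1, -, k2, -⟩ := H.col J w ℓ
    ⟨by linarith [hℓ.1], by linarith [hℓ.2.1], by linarith [hℓ.2.2]⟩ h1.le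
  refine ZId.pt b1 J w H hZ.c₁_pos hZ.c₁_le hε' hρ hℓ h0 h1 h2 (h _ ⟨?_, ?_, k2⟩)
  · have : 0 < Z.H.σ J w ε ℓ := div_pos (mul_pos h0 (H.pos.2.2.2.1.trans_le k0)) hε'
    exact lt_trans (by norm_num) this
  · change ε * (ℓ w * Z.H.K J w ℓ / ε) < c
    rw [mul_div_cancel₀ _ hε'.ne']
    exact (abs_lt.1 k1).2

end Pool.Agent.Lib.MP_df9110_gt
end

-- part Pool.Agent.Lib.MP_df9110_gt.ZOut
section

/-! The outer region of the simplex. -/

namespace Pool.Agent.Lib.MP_df9110_gt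

open Filter Topology Set
open scoped ContDiff

namespace ZOut

theorem gl_out (H : Chart) (hρ : 0 < H.ρ) {w : Fin 2} {ℓ : En 2} (h : 3 * H.ρ / 4 < ℓ w)
    (a b : ℝ) : H.gl w ℓ a b = b := by
  have : 3 - 4 * ℓ w / H.ρ ≤ 0 := by
    rw [sub_nonpos, le_div_iff₀ hρ]; linarith
  simp [Chart.gl, Real.smoothTransition.zero_of_nonpos this]

theorem cd_τ : ContDiff ℝ ∞ τP := by unfold τP; fun_prop

theorem pdn_τ (j : Fin 2) (ℓ : En 2) : pdn j τP ℓ = -1 := by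
  have h := ((hasFDerivAt_const (1 : ℝ) ℓ).sub (hasFDerivAt_apply (𝕜 := ℝ) 0 ℓ)).sub
    (hasFDerivAt_apply (𝕜 := ℝ) 1 ℓ)
  rw [pdn, show τP = _ from rfl, HasFDerivAt.fderiv (f := τP) h]
  fin_cases j <;> simp

theorem pdn_m {f : En 2 → ℝ} {ℓ : En 2} (h : ContDiffAt ℝ ∞ f ℓ) (j : Fin 2) :
    pdn j (fun x => τP x * f x) ℓ = τP ℓ * pdn j f ℓ - f ℓ := by
  have := pdn_mul (cd_τ.differentiable (by simp) ℓ) (h.differentiableAt (by simp)) j
  rw [pdn_τ] at this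
  exact this.trans (by ring)

theorem cd_δ {f : En 2 → ℝ} {ℓ : En 2} (h : ContDiffAt ℝ ∞ f ℓ) (j : Fin 2) :
    ContinuousAt (δP j f) ℓ :=
  (contDiffAt_pdn h j).continuousAt.sub
    (((continuous_apply 0).continuousAt.mul (contDiffAt_pdn h 0).continuousAt).add
      ((continuous_apply 1).continuousAt.mul (contDiffAt_pdn h 1).continuousAt))

theorem cpt (r : ℝ) : IsCompact (Nb r) := by
  refine (isCompact_Icc (a := fun _ => -r) (b := fun _ => 1 + 2 * r)).of_isClosed_subset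
    ((isClosed_le continuous_const (continuous_apply 0)).inter
      ((isClosed_le continuous_const (continuous_apply 1)).inter
        (isClosed_le continuous_const cd_τ.continuous))) ?_
  rintro ℓ ⟨h0, h1, h2⟩
  rw [τP] at h2
  refine ⟨fun i => ?_, fun i => ?_⟩ <;> fin_cases i <;> simp <;> linarith

theorem det_ge {P : Prof} {c : ℝ} {H : Chart} (h : H.Ok P c) (J : Bool) :
    ∃ a : ℝ, 0 < a ∧ ∀ ℓ ∈ Nb H.ρ, a ≤ |H.det J ℓ| := by
  refine (cpt H.ρ).exists_forall_le' (f := fun ℓ => |H.det J ℓ|) (fun ℓ hℓ => ?_)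
    fun ℓ hℓ => abs_pos.2 (h.sm J ℓ hℓ).2.2.2.2.2
  obtain ⟨h1, h2, -⟩ := h.sm J ℓ hℓ
  exact (((((cd_δ h1 0).sub h1.continuousAt).mul (cd_δ h2 1)).sub
    (((cd_δ h1 1).sub h1.continuousAt).mul (cd_δ h2 0))).abs).continuousWithinAt

theorem isOpen_reg (r : ℝ) : IsOpen {ℓ : En 2 | ℓ ∈ Int2 ∧ ∀ w, r < ℓ w} := by
  refine ((isOpen_lt continuous_const (continuous_apply 0)).inter
    ((isOpen_lt continuous_const (continuous_apply 1)).inter
      (isOpen_lt continuous_const cd_τ.continuous))).inter ?_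
  change IsOpen {ℓ : En 2 | ∀ w, r < ℓ w}
  rw [ofPred_forall]
  exact isOpen_iInter_of_finite fun w => isOpen_lt continuous_const (continuous_apply w)

theorem nb {r : ℝ} (hr : 0 < r) {ℓ : En 2} (h : ℓ ∈ Int2) : ℓ ∈ Nb r :=
  ⟨by linarith [h.1], by linarith [h.2.1], by linarith [h.2.2]⟩

variable {P : Prof} {c : ℝ} (Z : ZD P c) (J : Bool) {ε : ℝ} {ℓ : En 2}

theorem δ0 (h : ContDiffAt ℝ ∞ (Z.H.φ J) ℓ) (j : Fin 2) :
    δP j (Z.H.ΦO J · 0) ℓ = τP ℓ * Z.H.n J j ℓ := by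
  change δP j (fun x => τP x * Z.H.φ J x) ℓ = _
  simp only [Chart.n, δP, EP, pdn_m h]
  rw [τP]; ring

theorem rel (h : Z.H.Ok P c) (hε : 0 < ε) (hI : ℓ ∈ Int2) (hw : ∀ w, 3 * Z.H.ρ / 4 < ℓ w) :
    Rel (Z.ν ε) (Z.p J ε) (Z.q J ε) (Z.v J ε) (Z.s.BO ε) (Z.H.ΦO J) 0 ℓ := by
  have hρ := h.pos.2.1
  obtain ⟨h1, -, h3, -, -, h6⟩ := h.sm J ℓ (nb hρ hI)
  have hg := fun w => gl_out Z.H hρ (hw w)
  have e1 : (Z.H.ΦO J · 1) = Z.H.ξ J := rfl
  have e0 : Z.H.ΦO J ℓ 0 = τP ℓ * Z.H.φ J ℓ := rfl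
  have hν : Z.ν ε ≠ 0 := (mul_pos hε h.pos.1).ne'
  have hτ := hI.2.2.ne'
  have l0 := hI.1.ne'
  have l1 := hI.2.1.ne'
  have hφ := h3.ne'
  have hε' := hε.ne'
  have hv : ∀ j, (-1 + τP ℓ * Z.v J ε j ℓ) * ℓ j = -ℓ j + τP ℓ * Z.Nv J ε j ℓ := fun j => by
    have : ℓ j ≠ 0 := by fin_cases j <;> assumption
    rw [ZD.v, hg]; field_simp
  have r0 : Z.r₀ J ε ℓ = Z.H.φ J ℓ + EP (Z.H.φ J) ℓ := by simp [ZD.r₀, hg]
  have r1 : Z.r₁ J ε ℓ = EP (Z.H.ξ J) ℓ := by simp [ZD.r₁, hg]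
  have n0 : ∑ j, Z.Nv J ε j ℓ * Z.H.n J j ℓ = Z.r₀ J ε ℓ := by
    simp only [Fin.sum_univ_two, ZD.Nv, Matrix.cons_val_zero, Matrix.cons_val_one]
    field_simp
    rw [Chart.det]; ring
  have n1 : ∑ j, Z.Nv J ε j ℓ * δP j (Z.H.ξ J) ℓ = Z.r₁ J ε ℓ := by
    simp only [Fin.sum_univ_two, ZD.Nv, Matrix.cons_val_zero, Matrix.cons_val_one]
    field_simp
    rw [Chart.det]; ring
  have ex : ∀ x : ℝ, Real.exp x * Real.exp (-x) = 1 := fun x => by rw [← Real.exp_add]; simp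
  have va : (Z.s.BO ε).a (Z.H.ΦO J ℓ) * (Z.s.BO ε).f₁ (Z.H.ΦO J ℓ) = τP ℓ * Z.H.φ J ℓ := by
    simp only [St.BO, St.OR, Out.blk, ptE, Pi.mul_apply, Pi.smul_apply, Pi.pow_apply, Pi.neg_apply,
      Pi.ofNat_apply, smul_eq_mul, e0]
    have := ex (vl Z.s.la ε (Z.H.ΦO J ℓ))
    field_simp
    exact this
  refine ⟨fun i j => ?_, ?_, ?_, ?_, ?_⟩
  · have : Z.q J ε i j ℓ + (if i = j then Z.ν ε * Z.p J ε i ℓ / (4 * ℓ i) else 0) =
        Z.qo J ε i j ℓ := by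
      simp only [ZD.q, hg, Fin.sum_univ_two]
      fin_cases i <;> fin_cases j <;> simp
    rw [this, e1, δ0 Z J h1, δ0 Z J h1]
    simp only [ZD.qo, ZD.om, ZD.o, St.BO, St.OR, Out.blk, ptE, vl, Pi.mul_apply, Pi.smul_apply,
      Pi.pow_apply, Pi.neg_apply, smul_eq_mul, e0]
    field_simp
  · simp only [ZD.p, hg, ZD.o, St.BO, St.OR, Out.blk, ptE, vl, Pi.mul_apply, Pi.ofNat_apply, e0,
      add_zero]
    field_simp
  · simp only [ZD.p, hg, ZD.o, St.BO, St.OR, Out.blk, ptE, vl, Pi.mul_apply, Pi.ofNat_apply, e0,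
      add_zero, zero_add]
    field_simp
  · change _ = (Z.s.BO ε).a _ * (Z.s.BO ε).f₁ _
    rw [va]
    simp only [hv, δ0 Z J h1]
    rw [r0] at n0
    simp only [Fin.sum_univ_two, Chart.n, δP, EP, τP] at n0 ⊢
    linear_combination (1 - ℓ 0 - ℓ 1) ^ 2 * n0
  · change _ = (Z.s.BO ε).β _ * ((Z.s.BO ε).a _ * (Z.s.BO ε).f₁ _) +
      (Z.s.BO ε).C _ * (Z.s.BO ε).f₂ _
    have vc : (Z.s.BO ε).C (Z.H.ΦO J ℓ) * (Z.s.BO ε).f₂ (Z.H.ΦO J ℓ) =
        -((Z.s.BO ε).β (Z.H.ΦO J ℓ) * (τP ℓ * Z.H.φ J ℓ)) := by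
      simp only [St.BO, St.OR, Out.blk, ptE, Pi.mul_apply, Pi.neg_apply, e0]
      have := ex (vl Z.s.lc ε (Z.H.ΦO J ℓ))
      field_simp
      linear_combination -vl Z.s.bp ε (Z.H.ΦO J ℓ) * this
    rw [va, vc, e1]
    simp only [hv]
    rw [r1] at n1
    simp only [Fin.sum_univ_two, δP, EP, τP] at n1 ⊢
    linear_combination (1 - ℓ 0 - ℓ 1) * n1

end ZOut

theorem zout (_b1 : B1Stmt) (_b2 : B2Stmt) (_av : AvgStmt) (_wt : WtStmt) (ob : OutBlkStmt) :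
    ZOutStmt := by
  intro P c g Z N Cb J hZ
  obtain ⟨C, hC⟩ := ob P c g Z.s N Cb hZ.prof hZ.fin
  obtain ⟨a, ha, hd⟩ := ZOut.det_ge hZ.chart J
  have hρ := hZ.chart.pos.2.1
  refine ⟨C, ?_⟩
  filter_upwards [ev_fam.1 hC, self_mem_nhdsWithin, nhdsWithin_le_nhds (ge_mem_nhds ha)]
    with ε h1 hε h2 ℓ hI hw
  obtain ⟨s1, s2, s3, s4, s5, -⟩ := hZ.chart.sm J ℓ (ZOut.nb hρ hI)
  refine ⟨_, _, _, Z.H.ΦO J, 0, ?_, ?_, h1 _ ⟨s4, s5⟩ (mul_pos hI.2.2 s3)⟩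
  · filter_upwards [(ZOut.isOpen_reg _).mem_nhds ⟨hI, hw⟩] with x hx
    obtain ⟨t1, t2, -⟩ := hZ.chart.sm J x (ZOut.nb hρ hx.1)
    refine ⟨ZOut.rel Z J hZ.chart hε hx.1 hx.2, fun a => ?_, rfl, ?_⟩
    · fin_cases a
      exacts [ZOut.cd_τ.contDiffAt.mul t1, t2]
    · simp only [ZD.bar, ZD.fb, fun w => ZOut.gl_out Z.H hρ (hx.2 w), Finset.sum_const_zero,
        add_zero, mul_one]
      rfl
  · refine (h2.trans (hd ℓ (ZOut.nb hρ hI))).trans_eq (congrArg _ ?_)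
    change _ = pdn 0 (fun x => τP x * Z.H.φ J x) ℓ * pdn 1 (Z.H.ξ J) ℓ -
      pdn 1 (fun x => τP x * Z.H.φ J x) ℓ * pdn 0 (Z.H.ξ J) ℓ
    simp only [Chart.det, Chart.n, δP, EP, ZOut.pdn_m s1]
    rw [τP]; ring

end Pool.Agent.Lib.MP_df9110_gt
end

-- part Pool.Agent.Lib.MP_df9110_gt.Ca2
section

/-! The structural part of the hypotheses of the perturbation theorem. -/

namespace Pool.Agent.Lib.MP_df9110_gt

open Filter Topology Set
open scoped ContDiff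

namespace Ca2

/-! ### elementary facts -/

theorem nsq_nonneg (y : Pt) : 0 ≤ nsq y := Finset.sum_nonneg fun _ _ => sq_nonneg _

theorem sq_le_nsq (y : Pt) (i : Fin 4) : y i ^ 2 ≤ nsq y :=
  Finset.single_le_sum (f := fun i => y i ^ 2) (fun _ _ => sq_nonneg _) (Finset.mem_univ i)

theorem nsq_pos {y : Pt} (hy : y ≠ 0) : 0 < nsq y := by
  obtain ⟨i, hi⟩ := Function.ne_iff.1 hy
  exact lt_of_lt_of_le (sq_pos_of_ne_zero hi) (sq_le_nsq y i)

theorem nsq_smul (t : ℝ) (y : Pt) : nsq (t • y) = t ^ 2 * nsq y := by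
  simp [nsq, mul_pow, Finset.mul_sum]

theorem cd_nsq : ContDiff ℝ ∞ nsq :=
  ContDiff.sum fun i _ => (contDiff_apply ℝ ℝ i).pow 2

theorem tau_eq {ν : ℝ} (hν : 0 < ν) (y : Pt) : τP (lY ν y) = (1 + ν * nsq y)⁻¹ := by
  have h := nsq_nonneg y
  have h1 : sY y 0 + sY y 1 = nsq y := by simp [sY, nsq, Fin.sum_univ_four]; ring
  have h2 : 1 + ν * nsq y ≠ 0 := by positivity
  simp only [τP, lY]
  field_simp
  rw [← h1]; ring

noncomputable def ww (a b : Fin 4) (y : Pt) : ℝ := y a * y b / nsq y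

theorem lI_zero (y : Pt) : lI y 0 = ww 0 0 y + ww 1 1 y := by simp [lI, sY, ww]; ring

theorem lI_one (y : Pt) : lI y 1 = ww 2 2 y + ww 3 3 y := by simp [lI, sY, ww]; ring

theorem ww_smul {t : ℝ} (ht : t ≠ 0) (a b : Fin 4) (y : Pt) : ww a b (t • y) = ww a b y := by
  simp only [ww, nsq_smul, Pi.smul_apply, smul_eq_mul]
  rw [show t * y a * (t * y b) = t ^ 2 * (y a * y b) by ring,
    mul_div_mul_left _ _ (pow_ne_zero 2 ht)]

theorem lI_smul {t : ℝ} (ht : t ≠ 0) (y : Pt) : lI (t • y) = lI y := by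
  funext i
  fin_cases i
  · simp only [Fin.zero_eta, lI_zero, ww_smul ht]
  · simp only [Fin.mk_one, lI_one, ww_smul ht]

section

variable (ν : ℝ) (p : Fin 2 → En 2 → ℝ) (q : Fin 2 → Fin 2 → En 2 → ℝ)

theorem gI_eq (y : Pt) (a b : Fin 4) : gI ν p q y a b =
    (if a = b then p (bl a) (lI y) else 0) + 4 / ν * q (bl a) (bl b) (lI y) * ww a b y := rfl

theorem aI_eq (y : Pt) : aI ν p q y = p 0 (lI y) + 4 / ν *
    ((ww 0 0 y + ww 1 1 y) * q 0 0 (lI y) + (ww 2 2 y + ww 3 3 y) * q 1 0 (lI y)) := by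
  rw [aI, Fin.sum_univ_two, lI_zero, lI_one]

theorem dI_eq (k : ℝ) (y : Pt) (a b : Fin 4) : dI ν p q k y a b =
    (k - 1) * gI ν p q y a b + (1 - k * aI ν p q y) * ww a b y := rfl

theorem gI_smul {t : ℝ} (ht : t ≠ 0) (y : Pt) : gI ν p q (t • y) = gI ν p q y := by
  ext a b
  rw [gI_eq, gI_eq, lI_smul ht, ww_smul ht]

theorem dI_smul (k : ℝ) {t : ℝ} (ht : t ≠ 0) (y : Pt) : dI ν p q k (t • y) = dI ν p q k y := by
  ext a b
  rw [dI_eq, dI_eq, gI_smul ν p q ht, ww_smul ht, aI, aI, lI_smul ht]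

end

/-! ### the radial derivative -/

theorem rad_eq (f : Pt → ℝ) (y : Pt) : rad f y = fderiv ℝ f y y := by
  have h : fderiv ℝ f y y = fderiv ℝ f y (∑ c, y c • Pi.single c (1 : ℝ)) := by
    congr 1
    ext i
    simp [Finset.sum_apply, Pi.single_apply]
  rw [h, map_sum]
  simp only [map_smul, smul_eq_mul, rad, pd]

theorem rad_of_deriv {f : Pt → ℝ} {y : Pt} {d : ℝ} (hf : DifferentiableAt ℝ f y)
    (h : HasDerivAt (fun t : ℝ => f (t • y)) d 1) : rad f y = d := by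
  have h1 : HasDerivAt (fun t : ℝ => t • y) y 1 := by
    simpa using (hasDerivAt_id (1 : ℝ)).smul_const y
  have h2 : HasFDerivAt f (fderiv ℝ f y) ((fun t : ℝ => t • y) 1) := by
    simpa using hf.hasFDerivAt
  rw [rad_eq]
  exact (h2.comp_hasDerivAt 1 h1).unique h

theorem rad_hom {f : Pt → ℝ} {y : Pt} (h : ∀ᶠ t in 𝓝 (1 : ℝ), f (t • y) = f y) : rad f y = 0 := by
  by_cases hf : DifferentiableAt ℝ f y
  · exact rad_of_deriv hf ((hasDerivAt_const (1 : ℝ) (f y)).congr_of_eventuallyEq h)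
  · rw [rad_eq, fderiv_zero_of_not_differentiableAt hf]; rfl

theorem rad_add {f g : Pt → ℝ} {y : Pt} (hf : DifferentiableAt ℝ f y)
    (hg : DifferentiableAt ℝ g y) : rad (f + g) y = rad f y + rad g y := by
  simp [rad_eq, fderiv_add hf hg]

theorem rad_mul {f g : Pt → ℝ} {y : Pt} (hf : DifferentiableAt ℝ f y)
    (hg : DifferentiableAt ℝ g y) : rad (f * g) y = f y * rad g y + rad f y * g y := by
  simp [rad_eq, fderiv_mul hf hg, mul_comm]

theorem rad_smul {f : Pt → ℝ} {y : Pt} (hf : DifferentiableAt ℝ f y) (c : ℝ) :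
    rad (c • f) y = c * rad f y := by
  simp [rad_eq, fderiv_const_smul hf]

theorem rad_zero (y : Pt) : rad 0 y = 0 := by simp [rad_eq]

theorem rad_tau {ν : ℝ} (hν : 0 < ν) (a b : Fin 4) (y : Pt)
    (hf : DifferentiableAt ℝ (fun y => τP (lY ν y) * (y a * y b)) y) :
    rad (fun y => τP (lY ν y) * (y a * y b)) y = 2 * τP (lY ν y) ^ 2 * (y a * y b) := by
  refine rad_of_deriv hf ?_
  have h := nsq_nonneg y
  have h1 : HasDerivAt (fun t : ℝ => 1 + ν * (t ^ 2 * nsq y)) (ν * (2 * nsq y)) 1 := by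
    simpa using (((hasDerivAt_pow 2 (1 : ℝ)).mul_const (nsq y)).const_mul ν).const_add 1
  have h2 : HasDerivAt (fun t : ℝ => t ^ 2 * (y a * y b)) (2 * (y a * y b)) 1 := by
    simpa using (hasDerivAt_pow 2 (1 : ℝ)).mul_const (y a * y b)
  have h0 : 1 + ν * ((1 : ℝ) ^ 2 * nsq y) ≠ 0 := by positivity
  have h3 := (h1.inv h0).mul h2
  refine (h3.congr_of_eventuallyEq (Eventually.of_forall fun t => ?_)).congr_deriv ?_
  · simp only [tau_eq hν, nsq_smul, Pi.smul_apply, smul_eq_mul, Pi.mul_apply, Pi.inv_apply]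
    ring
  · have h4 : 1 + ν * nsq y ≠ 0 := by positivity
    simp only [tau_eq hν, one_pow, one_mul, Pi.inv_apply]
    field_simp
    ring

theorem rad_delta (ν : ℝ) (p : Fin 2 → En 2 → ℝ) (q : Fin 2 → Fin 2 → En 2 → ℝ) (k : ℝ) {y : Pt}
    (hy : 4 ≤ nsq y) (a b : Fin 4) : rad (gf (δZ ν p q k) a b) y = 0 := by
  refine rad_hom ?_
  filter_upwards [lt_mem_nhds (show (3 / 4 : ℝ) < 1 by norm_num)] with t ht
  have h1 : 1 ≤ t ^ 2 * nsq y - 1 := by nlinarith [mul_le_mul_of_nonneg_left hy (sq_nonneg t)]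
  simp only [gf, δZ, nsq_smul, dI_smul ν p q k (show t ≠ 0 by positivity)]
  rw [Real.smoothTransition.one_of_one_le h1,
    Real.smoothTransition.one_of_one_le (by linarith : 1 ≤ nsq y - 1)]

/-! ### some symbols -/

theorem isOpen_ext1 : IsOpen ext1 := isOpen_lt continuous_const cd_nsq.continuous

theorem sym_on {m : ℝ} {f : Pt → ℝ} (h : IsSym m f) (U : Set Pt) : IsSymOn U m f :=
  ⟨fun y _ => h.1 y trivial, fun k => (h.2 k).imp fun _ hC y _ => hC y trivial⟩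

theorem sym_congr (b1 : B1Stmt) {U : Set Pt} (hU : IsOpen U) {m : ℝ} {f g : Pt → ℝ}
    (h : IsSymOn U m f) (e : ∀ y ∈ U, f y = g y) : IsSymOn U m g := by
  have h1 : ∀ y ∈ U, f =ᶠ[𝓝 y] g := fun y hy => by
    filter_upwards [hU.mem_nhds hy] with z hz using e z hz
  exact ⟨fun y hy => (h.1 y hy).congr_of_eventuallyEq (h1 y hy).symm,
    fun k => (h.2 k).imp fun _ hC y hy => (b1 4).congr (hC y hy) (h1 y hy)⟩

theorem sym_comp (b1 : B1Stmt) (l0 : L0Facts) {u : Pt → ℝ} {φ : ℝ → ℝ} (hu : IsSym 0 u)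
    (hφ : ContDiff ℝ ∞ φ) : IsSym 0 (φ ∘ u) := by
  refine ⟨fun y _ => hφ.contDiffAt.comp y (hu.1 y trivial), fun k => ?_⟩
  obtain ⟨C, hC⟩ := (b1 4).comp1 k
  obtain ⟨B, hB⟩ := hu.2 (k + 1)
  have hB0 : ∀ y, |u y| ≤ B := fun y => by simpa [l0.wt_zero] using (hB y trivial).1
  have hA : ∀ j : ℕ, ∃ A, ∀ x ∈ Icc (-B) B, |iteratedDeriv j φ x| ≤ A := fun j =>
    isCompact_Icc.exists_bound_of_continuousOn
      (hφ.continuous_iteratedDeriv j (by exact_mod_cast le_top)).continuousOn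
  choose A hA using hA
  refine ⟨C * (∑ j ∈ Finset.range (k + 2), |A j|) * (1 + B) ^ (k + 1), fun y _ => ?_⟩
  rw [l0.wt_zero, mul_one]
  refine (b1 4).of_le (hC (hu.1 y trivial) hφ.contDiffAt (l0.wt_pos _ _).le
    ((abs_nonneg _).trans (hB0 y)) (fun j hj => ?_) fun i => ?_) (Nat.le_succ k)
  · exact (hA j _ (abs_le.1 (hB0 y))).trans ((le_abs_self _).trans
      (Finset.single_le_sum (f := fun j => |A j|) (fun _ _ => abs_nonneg _)
        (Finset.mem_range.2 (by omega))))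
  · simpa [l0.wt_zero] using (hB y trivial).2 i

noncomputable def χ (y : Pt) : ℝ := Real.smoothTransition (nsq y - 1)

theorem cc_chi : CC fun y => χ y - 1 := by
  refine ⟨(Real.smoothTransition.contDiff.comp (cd_nsq.sub contDiff_const)).sub contDiff_const,
    HasCompactSupport.intro (isCompact_closedBall (0 : Pt) 2) fun y hy => ?_⟩
  rw [mem_closedBall_zero_iff, pi_norm_le_iff_of_nonneg (by norm_num), not_forall] at hy
  obtain ⟨i, hi⟩ := hy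
  have h1 := sq_le_nsq y i
  rw [Real.norm_eq_abs, not_le] at hi
  have h2 : 1 ≤ nsq y - 1 := by nlinarith [sq_abs (y i)]
  rw [χ, Real.smoothTransition.one_of_one_le h2, sub_self]

noncomputable def φ₂ (u : ℝ) : ℝ := Real.smoothTransition (3 - 4 * u) / (1 - u)

theorem cd_phi : ContDiff ℝ ∞ φ₂ := by
  refine contDiff_iff_contDiffAt.2 fun u => ?_
  by_cases hu : u < 1
  · exact (Real.smoothTransition.contDiffAt.comp u
      (contDiffAt_const.sub (contDiffAt_const.mul contDiffAt_id))).div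
      (contDiffAt_const.sub contDiffAt_id) (by linarith : (1 : ℝ) - u ≠ 0)
  · refine (contDiffAt_const (c := (0 : ℝ))).congr_of_eventuallyEq ?_
    filter_upwards [lt_mem_nhds (show (3 / 4 : ℝ) < u by linarith)] with x hx
    rw [φ₂, Real.smoothTransition.zero_of_nonpos (by linarith), zero_div]

/-- a global symbol that agrees with `y_a y_b / |y|²` for `|y| ≥ 1` -/
noncomputable def wc (a b : Fin 4) (y : Pt) : ℝ := φ₂ (wt (-2) y) * (wt (-2) y * (y a * y b))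

theorem wt_neg_two (y : Pt) : wt (-2) y = (1 + nsq y)⁻¹ := by
  rw [wt, show (-2 : ℝ) / 2 = -1 by norm_num, Real.rpow_neg_one]

theorem wc_eq (a b : Fin 4) {y : Pt} (hy : 1 ≤ nsq y) : wc a b y = ww a b y := by
  have h1 : (1 + nsq y)⁻¹ ≤ 2⁻¹ := inv_anti₀ (by norm_num) (by linarith)
  have h2 : nsq y ≠ 0 := by positivity
  have h3 : 1 + nsq y ≠ 0 := by positivity
  have h4 : 1 - (1 + nsq y)⁻¹ = nsq y / (1 + nsq y) := by field_simp; ring
  rw [wc, φ₂, ww, wt_neg_two, Real.smoothTransition.one_of_one_le (by linarith), h4]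
  field_simp

theorem sym_coord (l0 : L0Facts) (a : Fin 4) : IsSym 1 fun y => y a :=
  ⟨fun _ _ => (contDiff_apply ℝ ℝ a).contDiffAt, fun k => ⟨1, l0.coord a k⟩⟩

theorem sym_wc (b1 : B1Stmt) (l0 : L0Facts) (m0 : M0Stmt) (a b : Fin 4) : IsSym 0 (wc a b) := by
  have G := (m0.2 univ 0 isOpen_univ le_rfl).1
  have h1 := sym_comp b1 l0 (G.mono (d := 0) (j := 0) (j' := 0) (l0.wt_sym (-2)) le_rfl
    (by norm_num) (by norm_num)) cd_phi
  have h2 := G.mul (d := 0) (j := 0) h1 (G.mul (d := 0) (j := 0) (l0.wt_sym (-2))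
    (G.mul (d := 0) (j := 0) (sym_coord l0 a) (sym_coord l0 b)))
  norm_num at h2
  exact h2

theorem chi_mul_wc (a b : Fin 4) (y : Pt) : χ y * wc a b y = χ y * ww a b y := by
  rcases le_total 1 (nsq y) with h | h
  · rw [wc_eq a b h]
  · rw [χ, Real.smoothTransition.zero_of_nonpos (by linarith), zero_mul, zero_mul]

/-! ### a fixed member of the family -/

section Fixed

variable {ν k : ℝ} {p : Fin 2 → En 2 → ℝ} {q : Fin 2 → Fin 2 → En 2 → ℝ}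

theorem grd_ite {R ι : Type} [CommRing R] [Algebra ℝ R] {D : ι → R → R} {θ : ℝ}
    {P : ℕ → ℕ → ℝ → R → Prop} (G : Grd θ D P) (c : Prop) [Decidable c] {m : ℝ} {a : R}
    (h : P 0 0 m a) : P 0 0 m (if c then a else 0) := by
  split_ifs
  exacts [h, G.zero _ _ _]

theorem grd_mul {R ι : Type} [CommRing R] [Algebra ℝ R] {D : ι → R → R} {θ : ℝ}
    {P : ℕ → ℕ → ℝ → R → Prop} (G : Grd θ D P) {m m' : ℝ} (m'' : ℝ) {a b : R}
    (h : P 0 0 m a) (h' : P 0 0 m' b) (e : m + m' = m'') : P 0 0 m'' (a * b) :=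
  e ▸ G.mul h h'

theorem sym_ww (b1 : B1Stmt) (l0 : L0Facts) (m0 : M0Stmt) (a b : Fin 4) :
    IsSymOn ext1 0 (ww a b) :=
  sym_congr b1 isOpen_ext1 (sym_on (sym_wc b1 l0 m0 a b) _) fun _ hy => wc_eq a b (le_of_lt hy)

theorem sym_gI (b1 : B1Stmt) (l0 : L0Facts) (m0 : M0Stmt)
    (hp : ∀ w, IsSymOn ext1 0 fun y => p w (lI y))
    (hq : ∀ i j, IsSymOn ext1 0 fun y => q i j (lI y)) (a b : Fin 4) :
    IsSymOn ext1 0 (gf (gI ν p q) a b) := by
  have G := (m0.2 ext1 0 isOpen_ext1 le_rfl).1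
  have h := G.add (d := 0) (j := 0) (grd_ite G (a = b) (hp (bl a)))
    (G.smul (d := 0) (j := 0) (4 / ν) (grd_mul G 0 (hq (bl a) (bl b)) (sym_ww b1 l0 m0 a b)
      (by norm_num)))
  convert h using 1
  funext y
  simp only [gf, gI_eq, Pi.add_apply, Pi.smul_apply, Pi.mul_apply, smul_eq_mul, ite_apply,
    Pi.zero_apply]
  ring

theorem sym_dI (b1 : B1Stmt) (l0 : L0Facts) (m0 : M0Stmt)
    (hp : ∀ w, IsSymOn ext1 0 fun y => p w (lI y))
    (hq : ∀ i j, IsSymOn ext1 0 fun y => q i j (lI y)) (a b : Fin 4) :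
    IsSymOn ext1 0 (gf (dI ν p q k) a b) := by
  have G := (m0.2 ext1 0 isOpen_ext1 le_rfl).1
  have hw := sym_ww b1 l0 m0
  have h1 := G.add (d := 0) (j := 0) (hp 0) (G.smul (d := 0) (j := 0) (4 / ν)
    (G.add (d := 0) (j := 0)
      (grd_mul G 0 (G.add (d := 0) (j := 0) (hw 0 0) (hw 1 1)) (hq 0 0) (by norm_num))
      (grd_mul G 0 (G.add (d := 0) (j := 0) (hw 2 2) (hw 3 3)) (hq 1 0) (by norm_num))))
  have h := G.add (d := 0) (j := 0)
    (G.smul (d := 0) (j := 0) (k - 1) (sym_gI (ν := ν) b1 l0 m0 hp hq a b))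
    (grd_mul G 0 (G.add (d := 0) (j := 0) G.one (G.smul (d := 0) (j := 0) (-k) h1)) (hw a b)
      (by norm_num))
  convert h using 1
  funext y
  simp only [gf, dI_eq, aI_eq, Pi.add_apply, Pi.smul_apply, Pi.mul_apply, smul_eq_mul,
    Pi.one_apply]
  ring

theorem sym_diff (b1 : B1Stmt) (l0 : L0Facts) (m0 : M0Stmt) (hν : 0 < ν)
    (hT : IsSym (-2) fun y => τP (lY ν y))
    (hq : ∀ i j, IsSymOn ext1 0 fun y => q i j (lI y))
    (hp' : ∀ w, IsSymOn ext1 (-2) fun y => p w (lY ν y) - p w (lI y))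
    (hq' : ∀ i j, IsSymOn ext1 (-2) fun y => q i j (lY ν y) - q i j (lI y)) (a b : Fin 4) :
    IsSymOn ext1 (-2) (gf (gZ ν p q) a b - gf (gI ν p q) a b) := by
  have G := (m0.2 ext1 0 isOpen_ext1 le_rfl).1
  have hT' := sym_on hT ext1
  have h := G.add (d := 0) (j := 0) (grd_ite G (a = b) (hp' (bl a))) (G.add (d := 0) (j := 0)
    (G.smul (d := 0) (j := 0) 4 (grd_mul G (-2) (grd_mul G 0 hT'
      (grd_mul G 2 (sym_on (sym_coord l0 a) _) (sym_on (sym_coord l0 b) _) (by norm_num))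
      (by norm_num)) (hq' (bl a) (bl b)) (by norm_num)))
    (G.smul (d := 0) (j := 0) (-4 / ν) (grd_mul G (-2) hT'
      (grd_mul G 0 (hq (bl a) (bl b)) (sym_ww b1 l0 m0 a b) (by norm_num)) (by norm_num))))
  refine sym_congr b1 isOpen_ext1 h fun y hy => ?_
  have h1 : 1 < nsq y := hy
  have h2 : nsq y ≠ 0 := by positivity
  have h3 : 1 + ν * nsq y ≠ 0 := by positivity
  simp only [gf, gI_eq, gZ, Matrix.of_apply, Pi.add_apply, Pi.sub_apply, Pi.smul_apply,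
    Pi.mul_apply, smul_eq_mul, ite_apply, Pi.zero_apply, tau_eq hν, ww]
  split_ifs <;> field_simp <;> ring

theorem sym_total (b1 : B1Stmt) (l0 : L0Facts) (m0 : M0Stmt) {a b : Fin 4}
    (h1 : IsSymOn ext1 (-2) (gf (gZ ν p q) a b - gf (gI ν p q) a b))
    (h2 : IsSymOn ext1 0 (gf (dI ν p q k) a b)) :
    IsSymOn ext1 (-2) (gf (gZ ν p q) a b + gf (δZ ν p q k) a b - gf (γZ ν p q k) a b) := by
  have G := (m0.2 ext1 0 isOpen_ext1 le_rfl).1
  have h := G.add (d := 0) (j := 0) h1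
    (grd_mul G (-2) (sym_on (l0.cc_sym cc_chi (-2)) _) h2 (by norm_num))
  refine sym_congr b1 isOpen_ext1 h fun y _ => ?_
  simp only [gf, δZ, γZ, χ, Matrix.add_apply, Matrix.smul_apply, Pi.add_apply, Pi.sub_apply,
    Pi.mul_apply, smul_eq_mul]
  ring

theorem exists_scale {y : Pt} (hy : y ≠ 0) : ∃ t : ℝ, t ≠ 0 ∧ 2 ≤ nsq (t • y) := by
  have h := nsq_pos hy
  refine ⟨√(2 / nsq y), (Real.sqrt_pos.2 (by positivity)).ne', le_of_eq ?_⟩
  rw [nsq_smul, Real.sq_sqrt (by positivity)]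
  field_simp

theorem tend_gZ (b1 : B1Stmt) {a b : Fin 4}
    (h1 : IsSymOn ext1 (-2) (gf (gZ ν p q) a b - gf (gI ν p q) a b)) {y : Pt} (hy : y ≠ 0) :
    Tendsto (fun t : ℝ => gZ ν p q (t • y) a b) atTop (𝓝 (gI ν p q y a b)) := by
  obtain ⟨C, hC⟩ := h1.2 0
  have h := nsq_pos hy
  have h2 : Tendsto (fun t : ℝ => t ^ 2 * nsq y) atTop atTop :=
    (tendsto_pow_atTop two_ne_zero).atTop_mul_const h
  have h3 : Tendsto (fun t : ℝ => C * (1 + t ^ 2 * nsq y)⁻¹) atTop (𝓝 0) := by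
    simpa using (tendsto_atTop_add_const_left _ 1 h2).inv_tendsto_atTop.const_mul C
  rw [tendsto_iff_norm_sub_tendsto_zero]
  refine squeeze_zero' (Eventually.of_forall fun _ => norm_nonneg _) ?_ h3
  filter_upwards [h2.eventually_gt_atTop 1, eventually_gt_atTop 0] with t ht ht0
  have h4 := (b1 4).nonneg (hC (t • y) (by rwa [ext1, mem_ofPred_eq, nsq_smul]))
  rw [wt_neg_two, nsq_smul] at h4
  simpa [gf, gI_smul ν p q ht0.ne'] using h4

theorem tend_qf {α : Type} {l : Filter α} {A : α → Mat} {B : Mat}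
    (h : ∀ a b, Tendsto (fun t => A t a b) l (𝓝 (B a b))) (ξ : Pt) :
    Tendsto (fun t => qf (A t) ξ) l (𝓝 (qf B ξ)) :=
  tendsto_finsetSum _ fun a _ => tendsto_finsetSum _ fun b _ => (h a b).mul_const _

theorem ell_gI (b1 : B1Stmt)
    (h1 : ∀ a b, IsSymOn ext1 (-2) (gf (gZ ν p q) a b - gf (gI ν p q) a b))
    (h2 : ∀ a b, IsSymOn ext1 0 (gf (gI ν p q) a b)) (c : ℝ)
    (h : ∀ y ∈ Dn, ∀ ξ, c * nsq ξ ≤ qf (gZ ν p q y) ξ) (y : Pt) (hy : y ≠ 0) (ξ : Pt) :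
    c * nsq ξ ≤ qf (gI ν p q y) ξ := by
  have h3 : ∀ y ∈ Dn, c * nsq ξ ≤ qf (gI ν p q y) ξ := fun y hy => by
    have hy0 : y ≠ 0 := by
      rintro rfl
      simp [Dn] at hy
    refine ge_of_tendsto (tend_qf (fun a b => tend_gZ b1 (h1 a b) hy0) ξ) ?_
    filter_upwards [eventually_gt_atTop 0] with t ht
    refine h _ ⟨fun e => hy.1 ?_, fun e => hy.2 ?_⟩ ξ
    · simp only [Pi.smul_apply, smul_eq_mul, mul_pow, ← mul_add] at e
      exact (mul_eq_zero.1 e).resolve_left (by positivity)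
    · simp only [Pi.smul_apply, smul_eq_mul, mul_pow, ← mul_add] at e
      exact (mul_eq_zero.1 e).resolve_left (by positivity)
  obtain ⟨t, ht, ht2⟩ := exists_scale hy
  rw [← gI_smul ν p q ht]
  generalize t • y = z at ht2
  have hz : z ∈ ext1 := lt_of_lt_of_le one_lt_two ht2
  have h4 : Tendsto (fun s : ℝ => z + s • (1 : Pt)) (𝓝[≠] 0) (𝓝 z) := by
    refine Tendsto.mono_left ?_ nhdsWithin_le_nhds
    have : Continuous fun s : ℝ => z + s • (1 : Pt) := by fun_prop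
    simpa using this.tendsto 0
  refine ge_of_tendsto (tend_qf (A := fun s : ℝ => gI ν p q (z + s • (1 : Pt)))
    (fun a b => ((h2 a b).1 z hz).continuousAt.tendsto.comp h4) ξ) ?_
  filter_upwards [nhdsNE_le_cofinite 0 (eventually_cofinite_ne (-z 0)),
    nhdsNE_le_cofinite 0 (eventually_cofinite_ne (-z 2))] with s h5 h6
  refine h3 _ ⟨fun e => h5 ?_, fun e => h6 ?_⟩
  · simp only [Pi.add_apply, Pi.smul_apply, Pi.one_apply, smul_eq_mul, mul_one] at e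
    nlinarith [sq_nonneg (z 0 + s), sq_nonneg (z 1 + s)]
  · simp only [Pi.add_apply, Pi.smul_apply, Pi.one_apply, smul_eq_mul, mul_one] at e
    nlinarith [sq_nonneg (z 2 + s), sq_nonneg (z 3 + s)]

end Fixed

/-! ### families -/

section Family

variable {I : Type} {l : Filter I} {Λ : I → ℝ}

theorem mod_congr {m : ℝ} {F G : I → Pt → ℝ} (h : Mod l Λ m F) (e : ∀ᶠ i in l, F i = G i) :
    Mod l Λ m G := by
  refine ⟨?_, fun k => ⟨?_, (h.2 k).2.imp fun p hp => ?_⟩⟩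
  · filter_upwards [h.1, e] with i h1 h2 using h2 ▸ h1
  · filter_upwards [(h.2 k).1, e] with i h1 h2 using h2 ▸ h1
  · filter_upwards [hp, e] with i h1 h2 using h2 ▸ h1

theorem mod_const (l0 : L0Facts) (hΛ : ∀ i, 2 ≤ Λ i) {m : ℝ} {f : Pt → ℝ} (h : IsSym m f) :
    Mod l Λ m fun _ => f := by
  refine ⟨Eventually.of_forall fun _ => h, fun k => ⟨Eventually.of_forall fun _ =>
    contDiff_iff_contDiffAt.2 fun y => h.1 y trivial, ?_⟩⟩
  obtain ⟨C, hC⟩ := h.2 k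
  obtain ⟨r, hr⟩ := l0.absorb C 0
  exact ⟨r, Eventually.of_forall fun i =>
    l0.mono hC Subset.rfl le_rfl le_rfl (by simpa using hr _ (hΛ i))⟩

theorem mod_diff {m : ℝ} {F : I → Pt → ℝ} (h : Mod l Λ m F) :
    ∀ᶠ i in l, ∀ y, DifferentiableAt ℝ (F i) y := by
  filter_upwards [h.1] with i hi y using (hi.1 y trivial).differentiableAt (by simp)

variable {ν k : I → ℝ} {p v : I → Fin 2 → En 2 → ℝ} {q : I → Fin 2 → Fin 2 → En 2 → ℝ}

theorem mod_Tyy (h : M0Facts l Λ) (hT : Mod l Λ (-2) fun i y => τP (lY (ν i) y)) (a b : Fin 4) :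
    Mod l Λ 0 fun i y => τP (lY (ν i) y) * (y a * y b) :=
  grd_mul h.grd_mod 0 hT (grd_mul h.grd_mod 2 (h.coord a) (h.coord b) (by norm_num)) (by norm_num)

theorem gZ_eq (ν : ℝ) (p : Fin 2 → En 2 → ℝ) (q : Fin 2 → Fin 2 → En 2 → ℝ) (a b : Fin 4) :
    gf (gZ ν p q) a b = (if a = b then fun y => p (bl a) (lY ν y) else 0) +
      (4 : ℝ) • ((fun y => τP (lY ν y) * (y a * y b)) * fun y => q (bl a) (bl b) (lY ν y)) := by
  funext y
  simp only [gf, gZ, Matrix.of_apply, Pi.add_apply, Pi.smul_apply, Pi.mul_apply, smul_eq_mul,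
    ite_apply, Pi.zero_apply]
  ring

theorem mod_gZ (h : M0Facts l Λ) (hT : Mod l Λ (-2) fun i y => τP (lY (ν i) y))
    (hp : ∀ w, Mod l Λ 0 fun i y => p i w (lY (ν i) y))
    (hq : ∀ a b, Mod l Λ 0 fun i y => q i a b (lY (ν i) y)) (a b : Fin 4) :
    Mod l Λ 0 fun i => gf (gZ (ν i) (p i) (q i)) a b := by
  have G := h.grd_mod
  refine mod_congr (G.add (d := 0) (j := 0) (grd_ite G (a = b) (hp (bl a)))
    (G.smul (d := 0) (j := 0) 4 (grd_mul G 0 (mod_Tyy h hT a b) (hq (bl a) (bl b))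
      (by norm_num)))) (Eventually.of_forall fun i => ?_)
  rw [gZ_eq]
  split_ifs <;> rfl

theorem mod_rad (h : M0Facts l Λ) (hν : ∀ᶠ i in l, 0 < ν i)
    (hT : Mod l Λ (-2) fun i y => τP (lY (ν i) y))
    (hp : ∀ w, Mod l Λ 0 fun i y => p i w (lY (ν i) y))
    (hq : ∀ a b, Mod l Λ 0 fun i y => q i a b (lY (ν i) y))
    (hp' : ∀ w, Mod l Λ (-2) fun i => rad fun y => p i w (lY (ν i) y))
    (hq' : ∀ a b, Mod l Λ (-2) fun i => rad fun y => q i a b (lY (ν i) y)) (a b : Fin 4) :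
    Mod l Λ (-2) fun i => rad (gf (gZ (ν i) (p i) (q i)) a b) := by
  have G := h.grd_mod
  have h1 := mod_Tyy h hT a b
  refine mod_congr (G.add (d := 0) (j := 0) (grd_ite G (a = b) (hp' (bl a)))
    (G.smul (d := 0) (j := 0) 4 (G.add (d := 0) (j := 0)
      (grd_mul G (-2) h1 (hq' (bl a) (bl b)) (by norm_num))
      (G.smul (d := 0) (j := 0) 2 (grd_mul G (-2) (grd_mul G (-2) hT h1 (by norm_num))
        (hq (bl a) (bl b)) (by norm_num)))))) ?_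
  filter_upwards [hν, mod_diff h1, mod_diff (hp (bl a)), mod_diff (hq (bl a) (bl b))]
    with i h0 h2 h3 h4
  funext y
  have h5 : DifferentiableAt ℝ (if a = b then fun y => p i (bl a) (lY (ν i) y) else 0) y := by
    split_ifs
    exacts [h3 y, differentiableAt_const _]
  rw [gZ_eq, rad_add h5 (((h2 y).mul (h4 y)).const_smul _), rad_smul ((h2 y).mul (h4 y)),
    rad_mul (h2 y) (h4 y), rad_tau h0 a b y (h2 y)]
  simp only [Pi.add_apply, Pi.smul_apply, Pi.mul_apply, smul_eq_mul]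
  split_ifs
  · ring
  · rw [rad_zero, Pi.zero_apply, Pi.zero_apply]; ring

theorem mod_UZ (h : M0Facts l Λ) (hT : Mod l Λ (-2) fun i y => τP (lY (ν i) y))
    (hv : ∀ w, Mod l Λ 0 fun i y => v i w (lY (ν i) y)) (a : Fin 4) :
    Mod l Λ (-1) fun i => UZ (ν i) (v i) a := by
  have G := h.grd_mod
  refine mod_congr (G.smul (d := 0) (j := 0) (1 / 2) (grd_mul G (-1)
    (grd_mul G (-2) hT (hv (bl a)) (by norm_num)) (h.coord a) (by norm_num)))
    (Eventually.of_forall fun i => funext fun y => ?_)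
  simp only [UZ, Pi.smul_apply, Pi.mul_apply, smul_eq_mul]
  ring

theorem mod_gI (h : M0Facts l Λ) (hw : ∀ a b, Mod l Λ 0 fun _ => wc a b)
    (hν : Mod l Λ 0 fun i _ => 4 / ν i)
    (hp : ∀ w, Mod l Λ 0 fun i y => χ y * p i w (lI y))
    (hq : ∀ a b, Mod l Λ 0 fun i y => χ y * q i a b (lI y)) (a b : Fin 4) :
    Mod l Λ 0 fun i y => χ y * gI (ν i) (p i) (q i) y a b := by
  have G := h.grd_mod
  refine mod_congr (G.add (d := 0) (j := 0) (grd_ite G (a = b) (hp (bl a)))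
    (grd_mul G 0 hν (grd_mul G 0 (hq (bl a) (bl b)) (hw a b) (by norm_num)) (by norm_num)))
    (Eventually.of_forall fun i => funext fun y => ?_)
  have e := chi_mul_wc a b y
  simp only [gI_eq, Pi.add_apply, Pi.mul_apply, ite_apply, Pi.zero_apply]
  split_ifs <;> linear_combination (4 / ν i * q i (bl a) (bl b) (lI y)) * e

theorem mod_delta (h : M0Facts l Λ) (hw : ∀ a b, Mod l Λ 0 fun _ => wc a b)
    (hχ : Mod l Λ 0 fun _ => χ) (hν : Mod l Λ 0 fun i _ => 4 / ν i)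
    (hk : Mod l Λ 0 fun i _ => k i)
    (hp : ∀ w, Mod l Λ 0 fun i y => χ y * p i w (lI y))
    (hq : ∀ a b, Mod l Λ 0 fun i y => χ y * q i a b (lI y)) (a b : Fin 4) :
    Mod l Λ 0 fun i => gf (δZ (ν i) (p i) (q i) (k i)) a b := by
  have G := h.grd_mod
  have h1 := G.add (d := 0) (j := 0) (hp 0) (grd_mul G 0 hν (G.add (d := 0) (j := 0)
    (grd_mul G 0 (G.add (d := 0) (j := 0) (hw 0 0) (hw 1 1)) (hq 0 0) (by norm_num))
    (grd_mul G 0 (G.add (d := 0) (j := 0) (hw 2 2) (hw 3 3)) (hq 1 0) (by norm_num)))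
    (by norm_num))
  refine mod_congr (G.add (d := 0) (j := 0)
    (grd_mul G 0 (G.add (d := 0) (j := 0) hk (G.smul (d := 0) (j := 0) (-1) G.one))
      (mod_gI h hw hν hp hq a b) (by norm_num))
    (grd_mul G 0 (G.add (d := 0) (j := 0) hχ (G.smul (d := 0) (j := 0) (-1)
      (grd_mul G 0 hk h1 (by norm_num)))) (hw a b) (by norm_num)))
    (Eventually.of_forall fun i => funext fun y => ?_)
  simp only [gf, δZ, Matrix.smul_apply, dI_eq, aI_eq, Pi.add_apply, Pi.mul_apply, Pi.smul_apply,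
    Pi.one_apply, smul_eq_mul]
  rcases le_total 1 (nsq y) with hy | hy
  · simp only [wc_eq _ _ hy, χ]; ring
  · simp only [χ, Real.smoothTransition.zero_of_nonpos (show nsq y - 1 ≤ 0 by linarith)]; ring

theorem bound_gI (l0 : L0Facts) (hΛ : ∀ i, 2 ≤ Λ i)
    (h : ∀ a b, Mod l Λ 0 fun i y => χ y * gI (ν i) (p i) (q i) y a b) :
    ∃ m : ℕ, ∀ᶠ i in l, ∀ y, y ≠ 0 → ∀ a b, |gI (ν i) (p i) (q i) y a b| ≤ Λ i ^ m := by
  choose r hr using fun a b => ((h a b).2 0).2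
  refine ⟨∑ a, ∑ b, r a b, ?_⟩
  filter_upwards [eventually_all.2 fun a => eventually_all.2 (hr a)] with i hi y hy a b
  obtain ⟨t, ht, ht2⟩ := exists_scale hy
  have h1 : |χ (t • y) * gI (ν i) (p i) (q i) (t • y) a b| ≤ Λ i ^ r a b * wt 0 (t • y) :=
    hi a b _ trivial
  rw [l0.wt_zero, mul_one, χ, Real.smoothTransition.one_of_one_le (by linarith), one_mul,
    gI_smul _ _ _ ht] at h1
  refine h1.trans (pow_le_pow_right₀ (by linarith [hΛ i]) ?_)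
  exact (Finset.single_le_sum (f := r a) (fun _ _ => Nat.zero_le _) (Finset.mem_univ b)).trans
    (Finset.single_le_sum (f := fun a => ∑ b, r a b) (fun _ _ => Nat.zero_le _)
      (Finset.mem_univ a))

end Family

theorem ev_small {c : ℝ} (hc : 0 < c) : ∀ᶠ i in lN, 0 < i.2 ∧ i.2 < c :=
  eventually_curry_iff.2 (Eventually.of_forall fun _ => Ioo_mem_nhdsGT hc)

end Ca2

open Ca2

theorem ca2 (b1 : B1Stmt) (l0 : L0Facts) (m0 : M0Stmt) (c1 : Ca1Stmt) : Ca2Stmt := by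
  intro c₀ p q v k hc hp hq hv hk
  have hΛ : ∀ i, 2 ≤ ΛN i := fun i => le_max_left _ _
  have h := m0.1 _ lN ΛN hΛ
  obtain ⟨c2, c3, -⟩ := c1 c₀ hc
  have cp := fun w => c2 (fun N ε => p N ε w) fun N => hp N w
  have cq := fun a b => c2 (fun N ε => q N ε a b) fun N => hq N a b
  have cv := fun w => c2 (fun N ε => v N ε w) fun N => hv N w
  have hT : Mod lN ΛN (-2) fun i y => τP (lY (i.2 * c₀) y) := by simpa using c3 1
  have hν : ∀ᶠ i in lN, 0 < i.2 * c₀ := (ev_small hc).mono fun i hi => mul_pos hi.1 hc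
  have hw : ∀ a b, Mod lN ΛN 0 fun _ => wc a b := fun a b =>
    mod_const l0 hΛ (sym_wc b1 l0 m0 a b)
  have hχ : Mod lN ΛN 0 fun _ => χ :=
    mod_congr (h.grd_mod.add (d := 0) (j := 0) (mod_const l0 hΛ (l0.cc_sym cc_chi 0))
      h.grd_mod.one) (Eventually.of_forall fun i => funext fun y => by simp)
  have hν' : Mod lN ΛN 0 fun i _ => 4 / (i.2 * c₀) := by
    refine h.par _ 4 ((ev_small hc).mono fun i hi => ?_)
    have h1 : i.2⁻¹ ≤ ΛN i := le_max_right _ _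
    have h2 := hΛ i
    have h3 : c₀⁻¹ ≤ ΛN i := (inv_anti₀ hi.1 hi.2.le).trans h1
    have h4 := hi.1
    rw [abs_of_pos (by positivity)]
    calc 4 / (i.2 * c₀) = 2 * 2 * i.2⁻¹ * c₀⁻¹ := by field_simp; norm_num
      _ ≤ ΛN i * ΛN i * ΛN i * ΛN i := by gcongr
      _ = _ := by ring
  have hk' : Mod lN ΛN 0 fun i _ => k i := h.par _ 0 (by simpa using hk)
  refine ⟨mod_gZ h hT (fun w => (cp w).1) fun a b => (cq a b).1,
    mod_rad h hν hT (fun w => (cp w).1) (fun a b => (cq a b).1) (fun w => (cp w).2.1)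
      fun a b => (cq a b).2.1,
    mod_UZ h hT fun w => (cv w).1,
    mod_delta h hw hχ hν' hk' (fun w => (cp w).2.2.1) fun a b => (cq a b).2.2.1,
    bound_gI l0 hΛ (mod_gI h hw hν' (fun w => (cp w).2.2.1) fun a b => (cq a b).2.2.1), ?_⟩
  filter_upwards [hν, hT.1, eventually_all.2 fun w => (cp w).2.2.2,
    eventually_all.2 fun a => eventually_all.2 fun b => (cq a b).2.2.2] with i h0 h1 h2 h3
  have h4 := sym_diff b1 l0 m0 h0 h1 (fun a b => (h3 a b).1) (fun w => (h2 w).2)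
    fun a b => (h3 a b).2
  exact ⟨fun y hy a b => rad_delta _ _ _ _ hy a b,
    fun a b => sym_total b1 l0 m0 (h4 a b)
      (sym_dI b1 l0 m0 (fun w => (h2 w).1) (fun a b => (h3 a b).1) a b),
    ell_gI b1 h4 (sym_gI b1 l0 m0 (fun w => (h2 w).1) fun a b => (h3 a b).1)⟩

end Pool.Agent.Lib.MP_df9110_gt
end
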