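import Pool.Agent.Lib.MP_df9110_gt.NBlk

/-! The approximate solutions as functions on the simplex `ℓ₀, ℓ₁ ≥ 0`, `ℓ₀ + ℓ₁ ≤ 1`, where
`ℓᵢ = ν sᵢ / (1 + ν |y|²)`, `s₀ = y₀² + y₁²`, `s₁ = y₂² + y₃²`. -/

namespace Pool.Agent.Lib.MP_df9110_gt

open Filter Topology Set
open scoped ContDiff

def τP (ℓ : En 2) : ℝ := 1 - ℓ 0 - ℓ 1
noncomputable def EP (f : En 2 → ℝ) (ℓ : En 2) : ℝ := ℓ 0 * pdn 0 f ℓ + ℓ 1 * pdn 1 f ℓ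
noncomputable def δP (j : Fin 2) (f : En 2 → ℝ) (ℓ : En 2) : ℝ := pdn j f ℓ - EP f ℓ
def Nb (r : ℝ) : Set (En 2) := {ℓ | -r ≤ ℓ 0 ∧ -r ≤ ℓ 1 ∧ -r ≤ τP ℓ}
def Dz (ε : ℝ) : Set (En 2) := {ℓ | -ε ^ 2 < ℓ 0 ∧ -ε ^ 2 < ℓ 1 ∧ -ε ^ 2 < τP ℓ}
def Int2 : Set (En 2) := {ℓ | 0 < ℓ 0 ∧ 0 < ℓ 1 ∧ 0 < τP ℓ}
def lz : Filter Z2 := fam (𝓝[>] 0) Dz

/-- Maps from the simplex to the `(μ, x)` plane: `μ = τ φ`, `x = ξ`, `ε σ_w = ℓ_w K_w`. -/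
structure Chart where
  (c₀ ρ τ₀ k₀ : ℝ)
  ξi : ℝ → ℝ
  (φ ξ : Bool → En 2 → ℝ)
  K : Bool → Fin 2 → En 2 → ℝ

namespace Chart

variable (H : Chart)

noncomputable def n (J : Bool) (j : Fin 2) (ℓ : En 2) : ℝ := δP j (H.φ J) ℓ - H.φ J ℓ
noncomputable def det (J : Bool) (ℓ : En 2) : ℝ :=
  H.n J 0 ℓ * δP 1 (H.ξ J) ℓ - H.n J 1 ℓ * δP 0 (H.ξ J) ℓ
def ΦO (J : Bool) (ℓ : En 2) : En 2 := ![τP ℓ * H.φ J ℓ, H.ξ J ℓ]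
noncomputable def σ (J : Bool) (w : Fin 2) (ε : ℝ) (ℓ : En 2) : ℝ := ℓ w * H.K J w ℓ / ε
noncomputable def ΦL (J : Bool) (w : Fin 2) (ε : ℝ) (ℓ : En 2) : En 2 := ![H.σ J w ε ℓ, H.ξ J ℓ]
noncomputable def S (J : Bool) (w j : Fin 2) (ℓ : En 2) : ℝ := δP j (H.K J w) ℓ - H.K J w ℓ
noncomputable def dS (J : Bool) (w j : Fin 2) (ℓ : En 2) : ℝ :=
  (if j = w then H.K J w ℓ else 0) + ℓ w * H.S J w j ℓ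
/-- `a` in the collar `ℓ_w ≤ ρ/2`, `b` for `ℓ_w ≥ 3ρ/4`. -/
noncomputable def gl (w : Fin 2) (ℓ : En 2) (a b : ℝ) : ℝ :=
  Real.smoothTransition (3 - 4 * ℓ w / H.ρ) * a +
    (1 - Real.smoothTransition (3 - 4 * ℓ w / H.ρ)) * b

structure Ok (P : Prof) (c : ℝ) : Prop where
  pos : 0 < H.c₀ ∧ 0 < H.ρ ∧ 0 < H.τ₀ ∧ 0 < H.k₀ ∧ H.ρ ≤ 1 / 2
  sm : ∀ J, ∀ ℓ ∈ Nb H.ρ, ContDiffAt ℝ ∞ (H.φ J) ℓ ∧ ContDiffAt ℝ ∞ (H.ξ J) ℓ ∧ 0 < H.φ J ℓ ∧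
    |τP ℓ * H.φ J ℓ| < P.M₀ ∧ H.ξ J ℓ ∈ Ioo (P.xL - P.δ) (P.xR + P.δ) ∧ H.det J ℓ ≠ 0
  col : ∀ J w, ∀ ℓ ∈ Nb H.ρ, ℓ w ≤ H.ρ → ContDiffAt ℝ ∞ (H.K J w) ℓ ∧ H.k₀ ≤ H.K J w ℓ ∧
    |ℓ w * H.K J w ℓ| < c ∧ P.Mu w (ℓ w * H.K J w ℓ) (H.ξ J ℓ) = τP ℓ * H.φ J ℓ ∧
    H.ξ J ℓ ∈ Ioo (P.lo w) (P.hi w) ∧ 0 < Prof.sg w * (P.xJ J - H.ξ J ℓ) + P.δ
  inf : ∀ J, ∀ ℓ ∈ Nb H.ρ, τP ℓ ≤ H.τ₀ → H.φ J ℓ = H.c₀ ∧ H.ξ J ℓ = H.ξi (ℓ 0 + τP ℓ / 2) ∧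
    ∀ w, H.K J w ℓ = H.K false w ℓ
  ξi : ∀ X ∈ Icc (0 : ℝ) 1, ContDiffAt ℝ ∞ H.ξi X ∧ 0 < deriv H.ξi X

end Chart

def ChartStmt : Prop := ∀ (P : Prof) (c : ℝ), P.Ok → P.Geo c → ∃ H : Chart, H.Ok P c

/-- `Ξ₂ = (4 - α̃² A e^{2u}) / σ`. -/
noncomputable def Lay.Xi2 {l : Filter Z2} (G : Lay (SG l)) : SG l :=
  avg (gD 0 (-(expG (2 * (G.leh - G.lq) + G.lA + 2 * G.u₁) * (gm l fun _ p => (2 + p 0)⁻¹) ^ 2)))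

structure ZD (P : Prof) (c : ℝ) where
  s : St P c
  H : Chart
  (c₁ M : ℝ)

namespace ZD

variable {P : Prof} {c : ℝ} (Z : ZD P c) (J : Bool) (ε : ℝ)

def ν : ℝ := ε * Z.H.c₀
noncomputable def G (w : Fin 2) : Lay (SG (P.lL c w)) := Z.s.G (mcut Z.c₁) w
noncomputable def o (f : SG P.lO) (ℓ : En 2) : ℝ := val f (ε, Z.H.ΦO J ℓ)
noncomputable def L (w : Fin 2) (f : SG (P.lL c w)) (ℓ : En 2) : ℝ := val f (ε, Z.H.ΦL J w ε ℓ)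
/-- `α̃ = α / σ` -/
noncomputable def at' (w : Fin 2) (ℓ : En 2) : ℝ :=
  Z.L J ε w (expG ((Z.G w).leh - (Z.G w).lq)) ℓ / (2 + Z.H.σ J w ε ℓ)
noncomputable def p (w : Fin 2) (ℓ : En 2) : ℝ :=
  Z.ν ε * ε * Z.H.gl w ℓ (Z.at' J ε w ℓ * Z.H.K J w ℓ / ε) (ℓ w)⁻¹ *
    Real.exp (2 * (Z.o J ε (Z.s.u w) ℓ + Z.H.gl w ℓ (Z.L J ε w (Z.G w).lam ℓ) 0 +
      Z.H.gl (w + 1) ℓ (Z.L J ε (w + 1) (Z.G (w + 1)).nu ℓ) 0)) / Z.H.φ J ℓ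
noncomputable def om (j : Fin 2) (ℓ : En 2) : ℝ :=
  δP j (Z.H.ξ J) ℓ - Z.o J ε Z.s.bp ℓ * τP ℓ * Z.H.n J j ℓ
noncomputable def qo (i j : Fin 2) (ℓ : En 2) : ℝ :=
  Z.ν ε ^ 2 / ε * (Z.H.n J i ℓ * Z.H.n J j ℓ * Real.exp (-Z.o J ε Z.s.la ℓ) / (4 * Z.H.φ J ℓ ^ 3) +
    Z.om J ε i ℓ * Z.om J ε j ℓ * Real.exp (-Z.o J ε Z.s.lc ℓ) / Z.H.φ J ℓ)
noncomputable def oh (w j : Fin 2) (ℓ : En 2) : ℝ :=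
  Z.L J ε w ((Z.G w).P0 expG) ℓ *
    (τP ℓ * Z.H.φ J ℓ ^ 2 * Z.L J ε w ((Z.G w).τ₁ gD expG) ℓ * Z.om J ε j ℓ -
      Z.L J ε w (expG (Z.G w).lc * (Z.G w).P1 gD expG * expG (-(Z.G w).lAo)) ℓ * Z.H.n J j ℓ)
noncomputable def aA (w : Fin 2) (ℓ : En 2) : ℝ := Z.at' J ε w ℓ * Z.L J ε w (expG (Z.G w).lA) ℓ
noncomputable def Rin (w i j : Fin 2) (ℓ : En 2) : ℝ :=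
  Z.ν ε ^ 2 / (ε * Z.H.φ J ℓ) *
      ((if i = w ∧ j = w then Z.H.K J w ℓ ^ 2 * Z.L J ε w (Z.G w).Xi2 ℓ / (4 * Z.aA J ε w ℓ)
          else 0) +
        ε / (Z.H.K J w ℓ * Z.aA J ε w ℓ) * (Z.H.K J w ℓ * ((if i = w then Z.H.S J w j ℓ else 0) +
          if j = w then Z.H.S J w i ℓ else 0) + ℓ w * Z.H.S J w i ℓ * Z.H.S J w j ℓ) -
        Z.H.dS J w i ℓ * Z.H.dS J w j ℓ * Z.L J ε w (expG (-(Z.G w).lAo)) ℓ) +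
    Z.ν ε ^ 2 / (ε * Z.H.φ J ℓ ^ 3) *
      Z.L J ε w (expG (-(Z.G w).lC) - expG (-(Z.G w).lCl)) ℓ * Z.oh J ε w i ℓ * Z.oh J ε w j ℓ
noncomputable def q (i j : Fin 2) (ℓ : En 2) : ℝ :=
  Z.qo J ε i j ℓ + ∑ w, Z.H.gl w ℓ (Z.Rin J ε w i j ℓ)
    (if i = w ∧ j = w then -(Z.ν ε * Z.p J ε w ℓ / (4 * ℓ w)) else 0)
noncomputable def dW' (w : Fin 2) : SG (P.lL c w) :=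
  (Z.G w).al expG * (Z.G w).W expG - (Z.G w).P0 expG
noncomputable def r₀ (ℓ : En 2) : ℝ :=
  Z.H.φ J ℓ + EP (Z.H.φ J) ℓ + ∑ w, Z.H.gl w ℓ (Z.H.φ J ℓ ^ 2 *
    (τP ℓ * Z.H.φ J ℓ * Z.L J ε w ((Z.G w).τ₁ gD expG * Z.dW' w) ℓ +
      Z.L J ε w ((Z.G w).w2 * (Z.G w).τ₂ gD expG) ℓ)) 0
noncomputable def r₁ (ℓ : En 2) : ℝ :=
  EP (Z.H.ξ J) ℓ + ∑ w, Z.H.gl w ℓ (Z.H.φ J ℓ *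
    (Z.L J ε w ((Z.G w).b gD expG * Z.dW' w) ℓ + τP ℓ * Z.H.φ J ℓ * Z.L J ε w (Z.G w).w2 ℓ)) 0
noncomputable def Nv : Fin 2 → En 2 → ℝ :=
  ![fun ℓ => (Z.r₀ J ε ℓ * δP 1 (Z.H.ξ J) ℓ - Z.r₁ J ε ℓ * Z.H.n J 1 ℓ) / Z.H.det J ℓ,
    fun ℓ => (Z.H.n J 0 ℓ * Z.r₁ J ε ℓ - δP 0 (Z.H.ξ J) ℓ * Z.r₀ J ε ℓ) / Z.H.det J ℓ]
noncomputable def v (w : Fin 2) (ℓ : En 2) : ℝ :=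
  Z.H.gl w ℓ (Z.H.φ J ℓ * Z.at' J ε w ℓ * Z.L J ε w ((Z.G w).W expG) ℓ / ε + 1 +
    (EP (Z.H.K J w) ℓ - ∑ j, Z.Nv J ε j ℓ * Z.H.S J w j ℓ) / Z.H.K J w ℓ) (Z.Nv J ε w ℓ / ℓ w)
noncomputable def fb (ℓ : En 2) : ℝ :=
  1 + ∑ w, Z.H.gl w ℓ (bT Z.c₁ Z.M ε (Z.H.σ J w ε ℓ)
    (Z.H.gl (w + 1) ℓ (ncut Z.c₁ (ℓ (w + 1) * Z.H.K J (w + 1) ℓ)) 1)) 0
def μ (ℓ : En 2) : ℝ := τP ℓ * Z.H.φ J ℓ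
noncomputable def bar (ℓ : En 2) : ℝ := Z.μ J ℓ ^ (1 / 4 : ℝ) / (16 * P.M₀) * Z.fb J ε ℓ

structure Ok (g : P.Geo c) (N : ℕ) (Cb : ℝ) : Prop where
  prof : P.Ok
  chart : Z.H.Ok P c
  fin : Z.s.Fin' g N Cb
  c₁_pos : 0 < Z.c₁
  c₁_le : 8 * Z.c₁ ≤ Z.H.ρ * Z.H.k₀

end ZD

/-- The functions `p, q, v` describe the block `B` in the chart `Φ`; the circle `w` is the first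
circle of the block. -/
structure Rel (ν : ℝ) (p : Fin 2 → En 2 → ℝ) (q : Fin 2 → Fin 2 → En 2 → ℝ)
    (v : Fin 2 → En 2 → ℝ) (B : Blk (En 2 → ℝ)) (Φ : En 2 → En 2) (w : Fin 2) (ℓ : En 2) :
    Prop where
  hq : ∀ i j, q i j ℓ + (if i = j then ν * p i ℓ / (4 * ℓ i) else 0) = ν ^ 2 * τP ℓ *
    (δP i (Φ · 0) ℓ * δP j (Φ · 0) ℓ * B.ai (Φ ℓ) +
      (δP i (Φ · 1) ℓ - B.β (Φ ℓ) * δP i (Φ · 0) ℓ) *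
        (δP j (Φ · 1) ℓ - B.β (Φ ℓ) * δP j (Φ · 0) ℓ) * B.Ci (Φ ℓ))
  hF₁ : B.F₁ (Φ ℓ) = p w ℓ * ℓ w / (ν * τP ℓ)
  hF₂ : B.F₂ (Φ ℓ) = p (w + 1) ℓ * ℓ (w + 1) / (ν * τP ℓ)
  hV₀ : ∑ j, (-1 + τP ℓ * v j ℓ) * ℓ j * δP j (Φ · 0) ℓ = B.V 0 (Φ ℓ)
  hV₁ : ∑ j, (-1 + τP ℓ * v j ℓ) * ℓ j * δP j (Φ · 1) ℓ = B.V 1 (Φ ℓ)

def ZPt (ε ν : ℝ) (p : Fin 2 → En 2 → ℝ) (q : Fin 2 → Fin 2 → En 2 → ℝ) (v : Fin 2 → En 2 → ℝ)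
    (μz φz : En 2 → ℝ) (Eb Cw : ℝ) (S : ℝ → Prop) (ℓ : En 2) : Prop :=
  ∃ (B : Blk (En 2 → ℝ)) (μ φ : En 2 → ℝ) (Φ : En 2 → En 2) (w : Fin 2),
    (∀ᶠ ℓ' in 𝓝 ℓ, Rel ν p q v B Φ w ℓ' ∧ (∀ a, ContDiffAt ℝ ∞ (Φ · a) ℓ') ∧
      μ (Φ ℓ') = μz ℓ' ∧ φ (Φ ℓ') = φz ℓ') ∧
    ε ≤ |pdn 0 (Φ · 0) ℓ * pdn 1 (Φ · 1) ℓ - pdn 1 (Φ · 0) ℓ * pdn 0 (Φ · 1) ℓ| ∧
    PtOK ε B μ φ Eb Cw S (Φ ℓ)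

/-- Polynomial bounds on the simplex. -/
def Reg (F : ℝ → En 2 → ℝ) : Prop := PB lz (fun z => z.1⁻¹) (fun z => z.1⁻¹ ^ 3) F

def ZRegStmt : Prop := ∀ (P : Prof) (c : ℝ) (g : P.Geo c) (Z : ZD P c) N Cb J, Z.Ok g N Cb →
  (∀ w, Reg fun ε => Z.p J ε w) ∧ (∀ i j, Reg fun ε => Z.q J ε i j) ∧
  (∀ w, Reg fun ε => Z.v J ε w) ∧ (Reg fun ε => Z.fb J ε) ∧ Reg fun _ => Z.H.φ J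

def ZD.Pt {P : Prof} {c : ℝ} (Z : ZD P c) (J : Bool) (ε Eb Cw : ℝ) (S : ℝ → Prop) (ℓ : En 2) :
    Prop := ZPt ε (Z.ν ε) (Z.p J ε) (Z.q J ε) (Z.v J ε) (Z.μ J) (Z.bar J ε) Eb Cw S ℓ

def ZOutStmt : Prop := ∀ (P : Prof) (c : ℝ) (g : P.Geo c) (Z : ZD P c) N Cb J, Z.Ok g N Cb →
  ∃ C : ℝ, ∀ᶠ ε in 𝓝[>] (0 : ℝ), ∀ ℓ ∈ Int2, (∀ w, 3 * Z.H.ρ / 4 < ℓ w) →
    Z.Pt J ε (C * ε ^ N) C (· ≤ C) ℓ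

/-- In the collar the inner formulas are valid. -/
def ZIdStmt : Prop := ∀ (P : Prof) (c : ℝ) (g : P.Geo c) (Z : ZD P c) N Cb J w, Z.Ok g N Cb →
  ∀ᶠ ε in 𝓝[>] (0 : ℝ), ∀ ℓ ∈ Dz ε, 0 < ℓ w → ℓ w < Z.H.ρ → 3 * Z.H.ρ / 4 < ℓ (w + 1) →
    0 < Z.L J ε w ((Z.G w).al expG) ℓ ∧
    (∀ i j, Z.q J ε i j ℓ + (if i = j then Z.ν ε * Z.p J ε i ℓ / (4 * ℓ i) else 0) =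
      Z.ν ε ^ 2 / (ε * Z.H.φ J ℓ) * Z.H.dS J w i ℓ * Z.H.dS J w j ℓ /
          Z.L J ε w ((Z.G w).al expG * expG (Z.G w).lA) ℓ +
        Z.ν ε ^ 2 / (ε * Z.H.φ J ℓ ^ 3) * Z.L J ε w (expG (-(Z.G w).lC)) ℓ * Z.oh J ε w i ℓ *
          Z.oh J ε w j ℓ) ∧
    Z.p J ε w ℓ * ℓ w * Z.H.φ J ℓ =
      Z.ν ε * ε * Z.L J ε w ((Z.G w).al expG * expG (2 * (Z.G w).u₁)) ℓ ∧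
    Z.p J ε (w + 1) ℓ * ℓ (w + 1) * Z.H.φ J ℓ = Z.ν ε * ε * Z.L J ε w (expG (2 * (Z.G w).u₂)) ℓ

def ZLayRelStmt : Prop := ∀ (P : Prof) (c : ℝ) (g : P.Geo c) (Z : ZD P c) N Cb J w, Z.Ok g N Cb →
  ∀ᶠ ε in 𝓝[>] (0 : ℝ), ∀ ℓ ∈ Int2, ℓ w < Z.H.ρ → 3 * Z.H.ρ / 4 < ℓ (w + 1) →
    Rel (Z.ν ε) (Z.p J ε) (Z.q J ε) (Z.v J ε) (Z.s.BL (mcut Z.c₁) w ε) (Z.H.ΦL J w ε) w ℓ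

def ZLayStmt : Prop := ∀ (P : Prof) (c : ℝ) (g : P.Geo c) (Z : ZD P c) N Cb J w (Eb : ℝ → ℝ)
  (C : ℝ), Z.Ok g N Cb →
  (∀ᶠ z in P.lL c w, 0 < z.2 0 → 0 < P.Mu w (z.1 * z.2 0) (z.2 1) →
    PtOK z.1 (Z.s.BL (mcut Z.c₁) w z.1) (fun p => P.Mu w (z.1 * p 0) (p 1))
      (fun p => P.Mu w (z.1 * p 0) (p 1) ^ (1 / 4 : ℝ) / (16 * P.M₀) *
        (1 + bT Z.c₁ Z.M z.1 (p 0) 1)) (Eb z.1) C (· ≤ P.d w (z.2 1) * P.A0 w z / z.1 + C) z.2) →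
  ∀ᶠ ε in 𝓝[>] (0 : ℝ), ∀ ℓ ∈ Int2, ℓ w < Z.H.ρ → 3 * Z.H.ρ / 4 < ℓ (w + 1) →
    Z.Pt J ε (Eb ε) C (fun x => J = true → x ≤ P.κ / ε + C) ℓ

def ZCorStmt : Prop := ∀ (P : Prof) (c : ℝ) (g : P.Geo c) (Z : ZD P c) N Cb J (N' : ℕ),
  Z.Ok g N Cb → 0 ≤ Z.M → ∃ C : ℝ, ∀ᶠ ε in 𝓝[>] (0 : ℝ), ∀ ℓ ∈ Int2, (∀ w, ℓ w < Z.H.ρ) →
    Z.Pt J ε (C * ε ^ N') C (fun x => (J = true → x ≤ 2 * P.κ / ε + C) ∧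
      (J = false → (∀ w, ℓ w ≤ ε ^ 3) → 3 * P.κ / ε - C ≤ x)) ℓ

/-- The scalar curvature of `n dX² + f₀ dθ₀² + f₁ dθ₁²`. -/
noncomputable def linkScal (n f₀ f₁ : ℝ → ℝ) (X : ℝ) : ℝ :=
  -(2 / n X) * (deriv (fun x => deriv f₀ x / (2 * f₀ x)) X +
    deriv (fun x => deriv f₁ x / (2 * f₁ x)) X + (deriv f₀ X / (2 * f₀ X)) ^ 2 +
    (deriv f₁ X / (2 * f₁ X)) ^ 2 + deriv f₀ X / (2 * f₀ X) * (deriv f₁ X / (2 * f₁ X)) -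
    deriv n X / (2 * n X) * (deriv f₀ X / (2 * f₀ X) + deriv f₁ X / (2 * f₁ X)))

noncomputable def nL (ν : ℝ) (p : Fin 2 → En 2 → ℝ) (q : Fin 2 → Fin 2 → En 2 → ℝ) (X : ℝ) : ℝ :=
  p 0 ![X, 1 - X] / (4 * X) + p 1 ![X, 1 - X] / (4 * (1 - X)) +
    (q 0 0 ![X, 1 - X] - 2 * q 0 1 ![X, 1 - X] + q 1 1 ![X, 1 - X]) / ν

def LinkOK (ν : ℝ) (p : Fin 2 → En 2 → ℝ) (q : Fin 2 → Fin 2 → En 2 → ℝ) (a X : ℝ) : Prop :=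
  0 < nL ν p q X ∧ (∀ w, 0 < p w ![X, 1 - X]) ∧
    a ≤ linkScal (nL ν p q) (fun x => p 0 ![x, 1 - x] * x) (fun x => p 1 ![x, 1 - x] * (1 - x)) X

def EigOK (ν : ℝ) (p : Fin 2 → En 2 → ℝ) (q : Fin 2 → Fin 2 → En 2 → ℝ) (e X : ℝ) : Prop :=
  ∃ a : ℝ, |a - 1| ≤ e ∧
    ∀ j, p j ![X, 1 - X] + 4 / ν * (X * q 0 j ![X, 1 - X] + (1 - X) * q 1 j ![X, 1 - X]) = a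

def ZInfStmt : Prop := ∀ (P : Prof) (c : ℝ) (g : P.Geo c) (Z : ZD P c) N Cb, Z.Ok g N Cb →
  ∃ C : ℝ, ∀ᶠ ε in 𝓝[>] (0 : ℝ), (∀ J, ∀ ℓ ∈ Dz ε, τP ℓ < Z.H.τ₀ →
      (∀ w, Z.p J ε w ℓ = Z.p false ε w ℓ) ∧ ∀ i j, Z.q J ε i j ℓ = Z.q false ε i j ℓ) ∧
    ∀ X ∈ Icc (0 : ℝ) 1, EigOK (Z.ν ε) (Z.p false ε) (Z.q false ε) (C * ε ^ N) X

def LinkOutStmt : Prop := ∀ (P : Prof) (c : ℝ) (g : P.Geo c) (Z : ZD P c) N Cb, Z.Ok g N Cb →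
  ∃ C : ℝ, ∀ᶠ ε in 𝓝[>] (0 : ℝ), ∀ X, 3 * Z.H.ρ / 4 < X → 3 * Z.H.ρ / 4 < 1 - X →
    LinkOK (Z.ν ε) (Z.p false ε) (Z.q false ε) (6 - C * ε ^ N) X

def LinkLayStmt : Prop := ∀ (P : Prof) (c : ℝ) (g : P.Geo c) (Z : ZD P c) N Cb (w : Fin 2),
  Z.Ok g (N + 1) Cb → ∃ C : ℝ, ∀ᶠ ε in 𝓝[>] (0 : ℝ), ∀ X : ℝ, 0 < ![X, 1 - X] w →
    ![X, 1 - X] w < Z.H.ρ → LinkOK (Z.ν ε) (Z.p false ε) (Z.q false ε) (6 - C * ε ^ N) X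

/-- The approximate solutions of order `N` on the simplex. -/
structure ZF (c₀ κ M₀ : ℝ) (φ : Bool → En 2 → ℝ) (N : ℕ) (p : Bool → ℝ → Fin 2 → En 2 → ℝ)
    (q : Bool → ℝ → Fin 2 → Fin 2 → En 2 → ℝ) (v : Bool → ℝ → Fin 2 → En 2 → ℝ)
    (fb : Bool → ℝ → En 2 → ℝ) (C τ₀ : ℝ) : Prop where
  τ₀_pos : 0 < τ₀
  reg : ∀ J, (∀ w, Reg fun ε => p J ε w) ∧ (∀ i j, Reg fun ε => q J ε i j) ∧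
    (∀ w, Reg fun ε => v J ε w) ∧ Reg (fb J)
  symm : ∀ J ε i j, q J ε i j = q J ε j i
  pt : ∀ᶠ ε in 𝓝[>] (0 : ℝ), ∀ J, ∀ ℓ ∈ Int2, ZPt ε (ε * c₀) (p J ε) (q J ε) (v J ε)
    (fun ℓ => τP ℓ * φ J ℓ) (fun ℓ => (τP ℓ * φ J ℓ) ^ (1 / 4 : ℝ) / (16 * M₀) * fb J ε ℓ)
    (C * ε ^ N) C (fun x => (J = true → x ≤ 2 * κ / ε + C) ∧
      (J = false → (∀ w, ℓ w ≤ ε ^ 3) → 3 * κ / ε - C ≤ x)) ℓ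
  inf : ∀ᶠ ε in 𝓝[>] (0 : ℝ), (∀ J, ∀ ℓ ∈ Dz ε, τP ℓ < τ₀ →
      (∀ w, p J ε w ℓ = p false ε w ℓ) ∧ ∀ i j, q J ε i j ℓ = q false ε i j ℓ) ∧
    (∀ X ∈ Icc (0 : ℝ) 1, EigOK (ε * c₀) (p false ε) (q false ε) (C * ε ^ N) X) ∧
    ∀ X ∈ Ioo (0 : ℝ) 1, LinkOK (ε * c₀) (p false ε) (q false ε) (6 - C * ε ^ N) X

def ZFStmt : Prop := ∃ (c₀ κ M₀ ρ : ℝ) (φ : Bool → En 2 → ℝ), 0 < c₀ ∧ 0 < κ ∧ 0 < M₀ ∧ 0 < ρ ∧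
  (∀ J, ∀ ℓ ∈ Nb ρ, ContDiffAt ℝ ∞ (φ J) ℓ ∧ 0 < φ J ℓ) ∧
  ∀ N, ∃ p q v fb C τ₀, ZF c₀ κ M₀ φ N p q v fb C τ₀

end Pool.Agent.Lib.MP_df9110_gt
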