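import Pool.Agent.Lib.MP_df9110_gt.NCart
import Pool.Agent.Lib.MP_df9110_gt.NPln

-- part Pool.Agent.Lib.MP_df9110_gt.Ct2
section

/-! Transfer of the pointwise estimates along an orthonormal frame. -/

namespace Pool.Agent.Lib.MP_df9110_gt

open Filter Topology Set Matrix
open scoped ContDiff

namespace Ct2

lemma pull_eq (e h : Mat) : gPull2 e h = (eᵀ * h * e : Mat) := by
  funext i j
  simp only [gPull2, Matrix.mul_apply, transpose_apply, Finset.sum_mul]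
  rw [Finset.sum_comm]
  exact Finset.sum_congr rfl fun _ _ => Finset.sum_congr rfl fun _ _ => by ring

lemma qf_eq (h : Mat) (v : Fin 4 → ℝ) : qf h v = v ⬝ᵥ h *ᵥ v := by
  simp only [qf, dotProduct, mulVec, Finset.mul_sum]
  exact Finset.sum_congr rfl fun _ _ => Finset.sum_congr rfl fun _ _ => by ring

lemma qf_pull (e h : Mat) (u : Fin 4 → ℝ) : qf (gPull2 e h) u = qf h (e *ᵥ u) := by
  rw [pull_eq, qf_eq, qf_eq, ← mulVec_mulVec, ← mulVec_mulVec, dotProduct_mulVec, vecMul_transpose]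

lemma idM_eq : idM = (1 : Mat) := by
  funext i j
  rw [idM, one_apply]

lemma qf_id (u : Fin 4 → ℝ) : qf idM u = u 0 ^ 2 + u 1 ^ 2 + u 2 ^ 2 + u 3 ^ 2 := by
  simp [qf, idM, sq, Fin.sum_univ_four]

lemma left_inv {e g : Mat} (h : gPull2 e g = idM) : e * eᵀ * g = 1 := by
  rw [pull_eq, idM_eq] at h
  rw [Matrix.mul_assoc]
  exact mul_eq_one_comm.1 h

lemma surj {e g : Mat} (h : gPull2 e g = idM) (v : Fin 4 → ℝ) : ∃ u, v = e *ᵥ u :=
  ⟨eᵀ *ᵥ g *ᵥ v, by rw [mulVec_mulVec, mulVec_mulVec, left_inv h, one_mulVec]⟩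

lemma exu {e g : Fin 4 → Fin 4 → ℝ} (h : gPull2 e g = idM) (v : Fin 4 → ℝ) :
    ∃ u, ∀ T : Fin 4 → Fin 4 → ℝ, qf T v = qf (gPull2 e T) u := by
  obtain ⟨u, rfl⟩ := surj h v
  exact ⟨u, fun T => (qf_pull e T u).symm⟩

lemma exv (e : Fin 4 → Fin 4 → ℝ) (u : Fin 4 → ℝ) :
    ∃ v, ∀ T : Fin 4 → Fin 4 → ℝ, qf (gPull2 e T) u = qf T v := ⟨_, fun T => qf_pull e T u⟩

lemma sum6 (F : Fin 4 → Fin 4 → Fin 4 → Fin 4 → Fin 4 → Fin 4 → ℝ) :
    ∑ a, ∑ b, ∑ c, ∑ d, ∑ m, ∑ n, F a b c d m n = ∑ m, ∑ n, ∑ c, ∑ a, ∑ b, ∑ d, F a b c d m n := by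
  calc _ = ∑ x : Fin 4 × Fin 4 × Fin 4 × Fin 4, ∑ z : Fin 4 × Fin 4,
        F x.1 x.2.1 x.2.2.1 x.2.2.2 z.1 z.2 := by simp only [Fintype.sum_prod_type]
    _ = ∑ m, ∑ n, ∑ a, ∑ b, ∑ c, ∑ d, F a b c d m n := by
      rw [Finset.sum_comm]
      simp only [Fintype.sum_prod_type]
    _ = _ := Finset.sum_congr rfl fun _ _ => Finset.sum_congr rfl fun _ _ => Finset.sum_comm_cycle

lemma pull_rm (e T : Mat) (Rl : Fin 4 → Fin 4 → Fin 4 → Fin 4 → ℝ) :
    gPull2 e (gRmT (e * eᵀ : Mat) Rl T) = gRmT idM (gPull4 e Rl) (gPull2 e T) := by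
  have h1 : ∀ c d, ∑ i, ∑ j, (e * eᵀ : Mat) c i * (e * eᵀ : Mat) d j * T i j =
      ∑ m, ∑ n, e c m * e d n * gPull2 e T m n := fun c d => by
    have a := congrFun₂ (pull_eq (e * eᵀ)ᵀ T) c d
    have b := congrFun₂ (pull_eq eᵀ (gPull2 e T)) c d
    refine a.trans (Eq.trans ?_ b.symm)
    rw [pull_eq]
    simp only [transpose_mul, transpose_transpose, Matrix.mul_assoc]
  have h2 : ∀ (S : Fin 4 → Fin 4 → ℝ) c d, ∑ i, ∑ j, idM c i * idM d j * S i j = S c d :=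
    fun S c d => by simp [idM]
  funext i j
  change ∑ a, ∑ b, e a i * e b j * gRmT (e * eᵀ : Mat) Rl T a b = _
  simp only [gRmT, h1, h2, gPull4]
  generalize gPull2 e T = S
  simp only [Finset.mul_sum, Finset.sum_mul]
  rw [sum6]
  refine Finset.sum_congr rfl fun _ _ => Finset.sum_congr rfl fun _ _ =>
    Finset.sum_congr rfl fun _ _ => Finset.sum_congr rfl fun _ _ =>
    Finset.sum_congr rfl fun _ _ => Finset.sum_congr rfl fun _ _ => by ring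

lemma bar {e g G Rc : Fin 4 → Fin 4 → ℝ} {Rl : Fin 4 → Fin 4 → Fin 4 → Fin 4 → ℝ} {φ β L c : ℝ}
    (h : gPull2 e g = idM) (hG : G = ((Matrix.of g)⁻¹ : Mat))
    (hb : BarOK idM idM (gPull2 e Rc) (gPull4 e Rl) φ β L c) : BarOK g G Rc Rl φ β L c := by
  have hr : ∀ T, gPull2 e (gRmT G Rl T) = gRmT idM (gPull4 e Rl) (gPull2 e T) := fun T => by
    rw [hG.trans (Matrix.inv_eq_left_inv (left_inv h))]
    exact pull_rm e T Rl
  refine ⟨fun v => ?_, fun T hT h1 v => ?_⟩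
  · obtain ⟨u, hu⟩ := exu h v
    rw [hu g, hu Rc, h]
    exact hb.1 u
  · obtain ⟨u, hu⟩ := exu h v
    rw [hu g, hu Rc, hu (gRmT G Rl T), h, hr]
    refine hb.2 _ (fun i j => ?_) (fun u => ?_) u
    · rw [gPull2, gPull2, Finset.sum_comm]
      exact Finset.sum_congr rfl fun a _ => Finset.sum_congr rfl fun b _ => by rw [hT a b]; ring
    · obtain ⟨v, hv⟩ := exv e u
      rw [← h, hv, hv, hv]
      exact h1 _

lemma err {a b c d f M : ℝ} (ha : |a| ≤ M) (hb : |b| ≤ M) (hc : |c| ≤ M) (hd : |d| ≤ M)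
    (hf : |f| ≤ M) (u : Fin 4 → ℝ) : |qf (tab2 a b c d f) u| ≤ 2 * M * qf idM u := by
  have e : qf (tab2 a b c d f) u =
      a * u 0 ^ 2 + 2 * b * (u 0 * u 1) + c * u 1 ^ 2 + d * u 2 ^ 2 + f * u 3 ^ 2 := by
    simp [qf, tab2, Fin.sum_univ_four]
    ring
  have hM := (abs_nonneg a).trans ha
  rw [e, qf_id, abs_le]
  rw [abs_le] at ha hb hc hd hf
  have k := fun (x : ℝ) (h : -M ≤ x ∧ x ≤ M) (s : ℝ) =>
    And.intro (mul_nonneg (sub_nonneg.2 h.1) (sq_nonneg s)) (mul_nonneg (sub_nonneg.2 h.2) (sq_nonneg s))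
  have a1 := k a ha (u 0)
  have a2 := k c hc (u 1)
  have a3 := k d hd (u 2)
  have a4 := k f hf (u 3)
  have a5 := k b hb (u 0 + u 1)
  have a6 := k b hb (u 0 - u 1)
  have a7 := mul_nonneg hM (sq_nonneg (u 2))
  have a8 := mul_nonneg hM (sq_nonneg (u 3))
  constructor <;> nlinarith [a1.1, a1.2, a2.1, a2.2, a3.1, a3.2, a4.1, a4.2, a5.1, a5.2, a6.1, a6.2]

lemma lapF_congr (g : Pt → Mat) (V : Fin 4 → Pt → ℝ) {f f' : Pt → ℝ} {y : Pt}
    (h : f =ᶠ[𝓝 y] f') : lapF g V f y = lapF g V f' y := by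
  have h1 : ∀ i, pd i f y = pd i f' y := fun i => (pdn_congr h i).self_of_nhds
  have h2 : ∀ i j, pd i (pd j f) y = pd i (pd j f') y := fun i j =>
    (pdn_congr (pdn_congr h j) i).self_of_nhds
  simp only [lapF, gLapV, gTr, gHess, Pi.sub_apply, Finset.sum_apply, Pi.mul_apply, h1, h2]

lemma cont_lY {ν : ℝ} (hν : 0 < ν) : Continuous (lY ν) := by
  refine continuous_pi fun i => Continuous.div ?_ ?_ fun y => ?_
  · fin_cases i <;> simp [sY] <;> fun_prop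
  · unfold nsq
    fun_prop
  · have : 0 ≤ nsq y := Finset.sum_nonneg fun _ _ => sq_nonneg _
    positivity

variable (B : Blk (En 2 → ℝ)) {p : En 2}

lemma lap_congr {t x t' x' : En 2 → ℝ} (ht : t =ᶠ[𝓝 p] t') (hx : x =ᶠ[𝓝 p] x') :
    B.lap pdn t x p = B.lap pdn t' x' p := by
  simp only [Blk.lap, Blk.H11, Blk.H22, Blk.Xa, Blk.T, Pi.add_apply, Pi.sub_apply, Pi.mul_apply,
    Pi.smul_apply, ht.self_of_nhds, hx.self_of_nhds, (pdn_congr ht _).self_of_nhds,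
    (pdn_congr hx _).self_of_nhds]

lemma lap_mul {c t x : En 2 → ℝ} (hc : DifferentiableAt ℝ c p) (ht : DifferentiableAt ℝ t p)
    (hx : DifferentiableAt ℝ x p) : B.lap pdn (c * t) (c * x) p = c p * B.lap pdn t x p +
      (B.a p * B.T pdn c p * t p + B.C p * pdn 1 c p * x p) := by
  simp only [Blk.lap, Blk.H11, Blk.H22, Blk.Xa, Blk.T, Pi.add_apply, Pi.sub_apply, Pi.mul_apply,
    Pi.smul_apply, pdn_mul hc ht, pdn_mul hc hx, smul_eq_mul]
  ring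

lemma chain {F : ℝ → ℝ} {F' : ℝ} {u : En 2 → ℝ} (hu : DifferentiableAt ℝ u p)
    (hF : HasDerivAt F F' (u p)) (i : Fin 2) : pdn i (fun q => F (u q)) p = F' * pdn i u p := by
  have := (hF.comp_hasFDerivAt p hu.hasFDerivAt).fderiv
  rw [pdn, pdn]
  erw [this]
  simp

lemma lap_comp {F F₁ : ℝ → ℝ} {F₂ : ℝ} {u : En 2 → ℝ} (hu : ContDiffAt ℝ ∞ u p)
    (hβ : ContDiffAt ℝ ∞ B.β p) (h1 : ∀ᶠ q in 𝓝 p, HasDerivAt F (F₁ (u q)) (u q))
    (h2 : HasDerivAt F₁ F₂ (u p)) :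
    B.lap pdn (B.T pdn fun q => F (u q)) (pdn 1 fun q => F (u q)) p =
      F₁ (u p) * B.lap pdn (B.T pdn u) (pdn 1 u) p +
        F₂ * (B.a p * B.T pdn u p ^ 2 + B.C p * pdn 1 u p ^ 2) := by
  have d1 := hu.differentiableAt (by simp)
  have e1 : ∀ᶠ q in 𝓝 p, ∀ i, pdn i (fun q => F (u q)) q = F₁ (u q) * pdn i u q := by
    filter_upwards [ev_diff hu, h1] with q a b i using chain a b i
  have e2 : (B.T pdn fun q => F (u q)) =ᶠ[𝓝 p] (fun q => F₁ (u q)) * B.T pdn u :=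
    e1.mono fun q hq => by
      simp only [Blk.T, Pi.add_apply, Pi.mul_apply, hq]
      ring
  have e3 : (pdn 1 fun q => F (u q)) =ᶠ[𝓝 p] (fun q => F₁ (u q)) * pdn 1 u :=
    e1.mono fun q hq => hq 1
  have d2 : DifferentiableAt ℝ (B.T pdn u) p :=
    ((contDiffAt_pdn hu 0).add (hβ.mul (contDiffAt_pdn hu 1))).differentiableAt (by simp)
  rw [lap_congr B e2 e3, lap_mul B (c := fun q => F₁ (u q)) (h2.differentiableAt.comp p d1) d2
    ((contDiffAt_pdn hu 1).differentiableAt (by simp))]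
  simp only [Blk.T, Pi.add_apply, Pi.mul_apply, chain d1 h2]
  ring

lemma der1 (ε k s : ℝ) (h : 1 - k * (ε * Real.exp s) ≠ 0) :
    HasDerivAt (fun s => ε * Real.exp s / (1 - k * (ε * Real.exp s)))
      (ε * Real.exp s / (1 - k * (ε * Real.exp s)) ^ 2) s := by
  have h1 := (Real.hasDerivAt_exp s).const_mul ε
  refine (h1.fun_div ((h1.const_mul k).const_sub 1) h).congr_deriv ?_
  field_simp
  ring

lemma der2 (ε k s : ℝ) (h : 1 - k * (ε * Real.exp s) ≠ 0) :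
    HasDerivAt (fun s => ε * Real.exp s / (1 - k * (ε * Real.exp s)) ^ 2)
      (ε * Real.exp s * (1 + k * (ε * Real.exp s)) / (1 - k * (ε * Real.exp s)) ^ 3) s := by
  have h1 := (Real.hasDerivAt_exp s).const_mul ε
  refine (h1.fun_div (((h1.const_mul k).const_sub 1).fun_pow 2) (pow_ne_zero 2 h)).congr_deriv ?_
  rw [div_eq_div_iff (pow_ne_zero _ (pow_ne_zero _ h)) (pow_ne_zero _ h)]
  push_cast
  ring

lemma small {C z : ℝ} (hC : 0 ≤ C) (hz : 0 < z) (h : (2 * C + 2) ^ 2 * z ≤ 1 / 4) :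
    0 < 1 - (2 * C + 2) * z := by nlinarith [mul_nonneg hC hz.le, mul_nonneg (mul_nonneg hC hC) hz.le]

lemma ineq {C z L G : ℝ} (hC : 0 ≤ C) (hz : 0 < z) (h : (2 * C + 2) ^ 2 * z ≤ 1 / 4)
    (hL : |L + 1| ≤ C * z) (hG : G ≤ C * z) :
    z / (1 - (2 * C + 2) * z) ^ 2 * L + z * (1 + (2 * C + 2) * z) / (1 - (2 * C + 2) * z) ^ 3 * G +
      z / (1 - (2 * C + 2) * z) ≤ -z ^ 2 := by
  have hD := small hC hz h
  have h1 : L ≤ C * z - 1 := by linarith [le_abs_self (L + 1)]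
  have h2 := mul_le_mul_of_nonneg_left h1 (show 0 ≤ z / (1 - (2 * C + 2) * z) ^ 2 by positivity)
  have h3 := mul_le_mul_of_nonneg_left hG
    (show 0 ≤ z * (1 + (2 * C + 2) * z) / (1 - (2 * C + 2) * z) ^ 3 by positivity)
  have e : z / (1 - (2 * C + 2) * z) ^ 2 * (C * z - 1) +
      z * (1 + (2 * C + 2) * z) / (1 - (2 * C + 2) * z) ^ 3 * (C * z) + z / (1 - (2 * C + 2) * z) =
      z ^ 2 * ((2 * C + 2) ^ 2 * z - 2) / (1 - (2 * C + 2) * z) ^ 3 := by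
    field_simp
    ring
  have h4 : (1 - (2 * C + 2) * z) ^ 3 ≤ 1 :=
    pow_le_one₀ hD.le (by nlinarith [mul_nonneg hC hz.le])
  have h5 : z ^ 2 * ((2 * C + 2) ^ 2 * z - 2) / (1 - (2 * C + 2) * z) ^ 3 ≤ -z ^ 2 := by
    rw [div_le_iff₀ (by positivity)]
    nlinarith [sq_nonneg z]
  linarith

lemma wb {ε Eb Cw : ℝ} {μ φ : En 2 → ℝ} {S : ℝ → Prop} (hε : 0 < ε)
    (h : PtOK ε B μ φ Eb Cw S p) (hs : (2 * Cw + 2) ^ 2 * (ε * μ p) ≤ 1 / 4) :
    (∀ᶠ q in 𝓝 p, ContDiffAt ℝ ∞ (fun q => ε * μ q / (1 - (2 * Cw + 2) * (ε * μ q))) q) ∧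
    B.lap pdn (B.T pdn fun q => ε * μ q / (1 - (2 * Cw + 2) * (ε * μ q)))
      (pdn 1 fun q => ε * μ q / (1 - (2 * Cw + 2) * (ε * μ q))) p +
      ε * μ p / (1 - (2 * Cw + 2) * (ε * μ p)) ≤ -(ε * μ p) ^ 2 := by
  obtain ⟨ha, hC, -, -, hμ⟩ := h.pos
  obtain ⟨hB, sμ, -, -⟩ := h.sm.self_of_nhds
  have hz : 0 < ε * μ p := mul_pos hε hμ
  have hw : 0 ≤ Cw := nonneg_of_mul_nonneg_left (le_trans (by positivity) h.gam) hz
  have hD := small hw hz hs
  have c1 := sμ.continuousAt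
  have e1 : ∀ᶠ q in 𝓝 p, 0 < μ q := c1.eventually (lt_mem_nhds hμ)
  have e2 : ∀ᶠ q in 𝓝 p, 0 < 1 - (2 * Cw + 2) * (ε * μ q) :=
    (show ContinuousAt (fun q => 1 - (2 * Cw + 2) * (ε * μ q)) p by fun_prop).eventually
      (lt_mem_nhds hD)
  refine ⟨?_, ?_⟩
  · filter_upwards [h.sm, e2] with q a b
    exact (contDiffAt_const.mul a.2.1).div
      (contDiffAt_const.sub (contDiffAt_const.mul (contDiffAt_const.mul a.2.1))) b.ne'
  have e3 : (fun q => ε * μ q / (1 - (2 * Cw + 2) * (ε * μ q))) =ᶠ[𝓝 p] fun q =>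
      ε * Real.exp (Real.log (μ q)) / (1 - (2 * Cw + 2) * (ε * Real.exp (Real.log (μ q)))) :=
    e1.mono fun q hq => by simp only [Real.exp_log hq]
  have e4 : (B.T pdn fun q => ε * μ q / (1 - (2 * Cw + 2) * (ε * μ q))) =ᶠ[𝓝 p] B.T pdn fun q =>
      ε * Real.exp (Real.log (μ q)) / (1 - (2 * Cw + 2) * (ε * Real.exp (Real.log (μ q)))) := by
    filter_upwards [pdn_congr e3 0, pdn_congr e3 1] with q a b
    simp only [Blk.T, Pi.add_apply, Pi.mul_apply, a, b]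
  rw [lap_congr B e4 (pdn_congr e3 1), lap_comp B (u := fun q => Real.log (μ q))
    (F := fun s => ε * Real.exp s / (1 - (2 * Cw + 2) * (ε * Real.exp s))) (sμ.log hμ.ne')
    hB.2.2.2.2.2.2.2.2.1 (by
      filter_upwards [e1, e2] with q a b
      exact der1 ε _ _ (by rw [Real.exp_log a]; exact b.ne'))
    (der2 ε _ _ (by rw [Real.exp_log hμ]; exact hD.ne')), Real.exp_log hμ]
  exact ineq hw hz hs h.lap h.gam

end Ct2

open Ct2

theorem ct2 (c1 : Ct1Stmt) : Ct2Stmt := by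
  rintro ε ν p q v μz φz Eb Cw S y hε hν hy hq ⟨B, μ, φ, Φ, w, h1, h2, h3⟩
  obtain ⟨ha, hC, hF₁, hF₂, hμ⟩ := h3.pos
  obtain ⟨⟨⟨e, -, f1, f2, f3, f4⟩, f5, f6⟩, f7⟩ := c1 ν p q v B Φ w y hν hy hq
    (h1.mono fun _ h => ⟨h.1, h.2.1⟩) (abs_pos.1 (hε.trans_le h2))
    (h3.sm.mono fun _ h => ⟨h.1, h.2.2.2⟩) ha hC hF₁ hF₂
  have h4 := ((cont_lY hν).tendsto y).eventually h1
  obtain ⟨-, -, m1, m2⟩ := h1.self_of_nhds
  refine ⟨fun ξ => ?_, ?_, fun ξ => ?_, ?_, fun hs => ?_, ?_⟩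
  · obtain ⟨u, hu⟩ := exu f1 ξ
    refine le_of_le_of_eq ?_ ((hu _).trans (congrArg (qf · u) f1)).symm
    rw [qf_id]
    positivity
  · have k1 := pow_le_pow_left₀ hε.le h2 2
    rw [sq_abs] at k1
    have k2 := h3.vol
    rw [m1] at k2
    have k3 := mul_le_mul k1 k2 (by positivity) (by positivity)
    have k4 := mul_le_mul_of_nonneg_left k3
      (show 0 ≤ 16 * ν ^ 4 * τP (lY ν y) ^ 6 by positivity)
    refine le_of_mul_le_mul_right ?_ (mul_pos ha hC)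
    rw [mul_assoc (μz _ ^ 6), f7]
    linarith
  · obtain ⟨u, hu⟩ := exu f1 ξ
    obtain ⟨e1, e2, e3, e4, e5⟩ := h3.err
    rw [(hu _).trans (congrArg (qf · u) f1), (hu _).trans (congrArg (qf · u) f4), ← m1, mul_assoc 2]
    refine err e1 ?_ e2 e3 e4 u
    rwa [abs_mul, abs_of_nonneg (Real.sqrt_nonneg _)]
  · have k1 := h3.bar
    rw [BarON, ← f2, ← f3, ← f6 φ (h3.sm.mono fun _ h => h.2.2.1), m1, m2,
      lapF_congr _ _ (f' := fun y' => φz (lY ν y')) (h4.mono fun _ h => h.2.2.2)] at k1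
    exact bar f1 rfl k1
  · obtain ⟨k1, k2⟩ := wb B hε h3 (by rwa [m1])
    rw [← f6 _ k1, m1, lapF_congr _ _
      (f' := fun y' => ε * μz (lY ν y') / (1 - (2 * Cw + 2) * (ε * μz (lY ν y'))))
      (h4.mono fun _ h => by simp only [h.2.2.1])] at k2
    exact k2
  · rw [f5]
    exact h3.scal

theorem ellS : EllStmt := by
  intro A K d hs h0 hK hb hd ξ
  have hA : A.IsHermitian := by simpa [Matrix.IsHermitian] using hs.eq
  let U : Mat := hA.eigenvectorUnitary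
  have u1 : gPull2 U (1 : Mat) = idM := by
    rw [pull_eq, idM_eq, Matrix.mul_one]
    exact Unitary.coe_star_mul_self hA.eigenvectorUnitary
  have u2 : gPull2 U A = diagonal hA.eigenvalues := by
    have : star U * A * U = diagonal hA.eigenvalues := by
      simpa using hA.conjStarAlgAut_star_eigenvectorUnitary
    exact (pull_eq U A).trans this
  have u3 : ∀ u, qf A (U *ᵥ u) = ∑ i, hA.eigenvalues i * u i ^ 2 := fun u => by
    rw [← qf_pull, u2]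
    simp [qf, diagonal_apply, sq]
  have p1 : ∀ i, 0 ≤ hA.eigenvalues i := fun i => by
    have := h0 (U *ᵥ Pi.single i 1)
    rw [u3] at this
    simpa [Pi.single_apply] using this
  have p2 : ∀ i, hA.eigenvalues i ≤ 4 * K := fun i => by
    have t1 : A.trace = ∑ j, hA.eigenvalues j := by simpa using hA.trace_eq_sum_eigenvalues
    refine (Finset.single_le_sum (fun j _ => p1 j) (Finset.mem_univ i)).trans ?_
    rw [← t1, Matrix.trace, Fin.sum_univ_four]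
    simp only [Matrix.diag]
    linarith [le_abs_self (A 0 0), le_abs_self (A 1 1), le_abs_self (A 2 2), le_abs_self (A 3 3),
      hb 0 0, hb 1 1, hb 2 2, hb 3 3]
  have p3 : ∀ i, d / (4 * K) ^ 3 ≤ hA.eigenvalues i := fun i => by
    have t1 : A.det = ∏ j, hA.eigenvalues j := by simpa using hA.det_eq_prod_eigenvalues
    rw [div_le_iff₀ (by positivity)]
    refine hd.trans ?_
    rw [t1, ← Finset.mul_prod_erase _ _ (Finset.mem_univ i)]
    refine mul_le_mul_of_nonneg_left ?_ (p1 i)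
    refine (Finset.prod_le_prod (fun j _ => p1 j) fun j _ => p2 j).trans ?_
    simp
  obtain ⟨u, rfl⟩ := surj u1 ξ
  have u4 : nsq (U *ᵥ u) = ∑ i, u i ^ 2 := by
    have := qf_pull U 1 u
    rw [u1, ← idM_eq, qf_id, qf_id] at this
    rw [nsq, Fin.sum_univ_four, Fin.sum_univ_four, this]
  rw [u3, u4, Finset.mul_sum]
  exact Finset.sum_le_sum fun i _ => mul_le_mul_of_nonneg_right (p3 i) (sq_nonneg _)

end Pool.Agent.Lib.MP_df9110_gt
end

-- part Pool.Agent.Lib.MP_df9110_gt.Chart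
section

/-! The charts from the simplex to the half plane. -/

namespace Pool.Agent.Lib.MP_df9110_gt

open Filter Topology Set
open scoped ContDiff

namespace ChartX

/-! ### Hadamard quotients -/

theorem hasDeriv_int {F : ℝ → ℝ} (hF : ContDiff ℝ ∞ F) (a : ℝ) (k : ℕ) (x : ℝ) :
    HasDerivAt (fun x => ∫ t in (0 : ℝ)..1, t ^ k * F (a + t * (x - a)))
      (∫ t in (0 : ℝ)..1, t ^ (k + 1) * deriv F (a + t * (x - a))) x := by
  obtain ⟨d, c'⟩ := contDiff_infty_iff_deriv.1 hF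
  have c := hF.continuous
  have c2 := c'.continuous
  obtain ⟨C, hC⟩ := (isCompact_closedBall a (|x - a| + 1)).exists_bound_of_continuousOn
    c2.continuousOn
  refine (intervalIntegral.hasDerivAt_integral_of_dominated_loc_of_deriv_le
    (F' := fun x t => t ^ (k + 1) * deriv F (a + t * (x - a))) (bound := fun _ => C)
    (Metric.ball_mem_nhds x one_pos) (Eventually.of_forall fun y => ?_) ?_ ?_
    (Eventually.of_forall fun t ht y hy => ?_) intervalIntegrable_const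
    (Eventually.of_forall fun t _ y _ => ?_)).2
  · exact Continuous.aestronglyMeasurable (by fun_prop)
  · exact Continuous.intervalIntegrable (by fun_prop) _ _
  · exact Continuous.aestronglyMeasurable (by fun_prop)
  · rw [uIoc_of_le zero_le_one] at ht
    have h1 : |t ^ (k + 1)| ≤ 1 := by
      rw [abs_of_pos (pow_pos ht.1 _)]; exact pow_le_one₀ ht.1.le ht.2
    have h2 : a + t * (y - a) ∈ Metric.closedBall a (|x - a| + 1) := by
      rw [mem_closedBall_iff_norm, add_sub_cancel_left, Real.norm_eq_abs, abs_mul,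
        abs_of_pos ht.1]
      rw [mem_ball_iff_norm, Real.norm_eq_abs] at hy
      have := abs_sub_le y x a
      nlinarith [abs_nonneg (y - a), ht.1, ht.2]
    rw [norm_mul, Real.norm_eq_abs]
    exact (mul_le_mul h1 (hC _ h2) (norm_nonneg _) zero_le_one).trans (one_mul C).le
  · have h1 : HasDerivAt (fun y => a + t * (y - a)) (t * 1) y :=
      (((hasDerivAt_id y).sub_const a).const_mul t).const_add a
    exact (((d _).hasDerivAt.comp y h1).const_mul (t ^ k)).congr_deriv (by ring)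

theorem smooth_int (a : ℝ) (n : ℕ) : ∀ (k : ℕ) {F : ℝ → ℝ}, ContDiff ℝ ∞ F →
    ContDiff ℝ n fun x => ∫ t in (0 : ℝ)..1, t ^ k * F (a + t * (x - a)) := by
  induction n with
  | zero =>
    intro k F hF
    exact contDiff_zero.2 (continuous_iff_continuousAt.2 fun x =>
      (hasDeriv_int hF a k x).continuousAt)
  | succ n ih =>
    intro k F hF
    rw [Nat.cast_succ, contDiff_succ_iff_deriv]
    refine ⟨fun x => (hasDeriv_int hF a k x).differentiableAt, by simp, ?_⟩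
    rw [funext fun x => (hasDeriv_int hF a k x).deriv]
    exact ih (k + 1) (contDiff_infty_iff_deriv.1 hF).2

theorem hadamard {F : ℝ → ℝ} (hF : ContDiff ℝ ∞ F) (a : ℝ) : ∃ q : ℝ → ℝ, ContDiff ℝ ∞ q ∧
    q a = deriv F a ∧ ∀ x, F x - F a = (x - a) * q x := by
  obtain ⟨d, c'⟩ := contDiff_infty_iff_deriv.1 hF
  have c2 := c'.continuous
  refine ⟨fun x => ∫ t in (0 : ℝ)..1, t ^ 0 * deriv F (a + t * (x - a)),
    contDiff_infty.2 fun n => smooth_int a n 0 c', by simp, fun x => ?_⟩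
  have h : ∀ t ∈ uIcc (0 : ℝ) 1, HasDerivAt (fun t => F (a + t * (x - a)))
      ((x - a) * (t ^ 0 * deriv F (a + t * (x - a)))) t := fun t _ => by
    have h1 : HasDerivAt (fun t => a + t * (x - a)) (1 * (x - a)) t :=
      ((hasDerivAt_id t).mul_const (x - a)).const_add a
    exact ((d _).hasDerivAt.comp t h1).congr_deriv (by ring)
  have := intervalIntegral.integral_eq_sub_of_hasDerivAt h
    (Continuous.intervalIntegrable (by fun_prop) _ _)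
  rw [intervalIntegral.integral_const_mul] at this
  simpa using this.symm

/-- A positive function which is a Hadamard quotient near `a` and constant far from `a`. -/
theorem exists_lam {G : ℝ → ℝ} {a c : ℝ} (hG : ∀ᶠ x in 𝓝 a, ContDiffAt ℝ ∞ G x) (h0 : G a = 0)
    (h1 : 0 < deriv G a) (hc : 0 < c) : ∃ (lam : ℝ → ℝ) (e : ℝ), ContDiff ℝ ∞ lam ∧
      (∀ x, 0 < lam x) ∧ 0 < e ∧ (∀ x, |x - a| ≤ e → G x = 8 * (x - a) * lam x) ∧
      ∀ x, 1 / 8 ≤ |x - a| → lam x = c := by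
  obtain ⟨ε, ε0, hε⟩ := Metric.eventually_nhds_iff_ball.1 hG
  let f : ContDiffBump a := ⟨ε / 4, ε / 2, by positivity, by linarith⟩
  have s1 : ContDiff ℝ ∞ fun x => f x * G x := contDiff_iff_contDiffAt.2 fun x => by
    by_cases hx : x ∈ Metric.ball a ε
    · exact f.contDiff.contDiffAt.mul (hε x hx)
    · have : ∀ᶠ y in 𝓝 x, ε / 2 < dist y a :=
        (continuous_id.dist continuous_const).continuousAt.eventually
          (lt_mem_nhds (by simp only [Metric.mem_ball, not_lt] at hx; simpa using by linarith))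
      refine (contDiffAt_const (c := (0 : ℝ))).congr_of_eventuallyEq ?_
      filter_upwards [this] with y hy
      rw [f.zero_of_le_dist hy.le, zero_mul]
  have e1 : ∀ x ∈ Metric.closedBall a (ε / 4), f x * G x = G x := fun x hx => by
    rw [f.one_of_mem_closedBall hx, one_mul]
  obtain ⟨q, q1, q2, q3⟩ := hadamard s1 a
  have e2 : (fun x => f x * G x) =ᶠ[𝓝 a] G := by
    filter_upwards [Metric.closedBall_mem_nhds a (show 0 < ε / 4 by positivity)] with x hx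
      using e1 x hx
  rw [e2.deriv_eq] at q2
  obtain ⟨η, η0, hη⟩ := Metric.eventually_nhds_iff_ball.1
    (q1.continuous.continuousAt.eventually (lt_mem_nhds (q2 ▸ h1 : 0 < q a)))
  have m0 : 0 < min η (min (ε / 4) (1 / 8)) := by positivity
  let f₂ : ContDiffBump a := ⟨min η (min (ε / 4) (1 / 8)) / 2, min η (min (ε / 4) (1 / 8)),
    by positivity, by linarith⟩
  refine ⟨fun x => c + f₂ x * (q x / 8 - c), f₂.rIn, contDiff_const.add
    (f₂.contDiff.mul ((q1.div_const 8).sub contDiff_const)), fun x => ?_, f₂.rIn_pos,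
    fun x hx => ?_, fun x hx => ?_⟩
  all_goals beta_reduce
  · by_cases hx : x ∈ Metric.ball a η
    · have := hη x hx
      have := f₂.nonneg' x
      have := f₂.le_one (x := x)
      rcases (f₂.nonneg' x).eq_or_lt with k | k
      · rw [← k]; simpa
      · nlinarith [mul_pos k (hη x hx)]
    · rw [f₂.zero_of_le_dist ((min_le_left _ _).trans (by simpa using hx))]
      simpa
  · have hx' : x ∈ Metric.closedBall a f₂.rIn := by simpa [Real.dist_eq] using hx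
    have h2 : f₂.rIn ≤ ε / 4 := f₂.rIn_lt_rOut.le.trans ((min_le_right _ _).trans (min_le_left _ _))
    have := q3 x
    rw [e1 x (Metric.closedBall_subset_closedBall h2 hx'), h0] at this
    rw [f₂.one_of_mem_closedBall hx']
    linarith
  · rw [f₂.zero_of_le_dist ((min_le_right _ _).trans ((min_le_right _ _).trans
      (by simpa [Real.dist_eq] using hx)))]
    simp

/-! ### The cutoff function -/

noncomputable abbrev st : ℝ → ℝ := Real.smoothTransition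

theorem st_sm : ContDiff ℝ ∞ st := Real.smoothTransition.contDiff

theorem st_der (x : ℝ) : HasDerivAt st (deriv st x) x :=
  (st_sm.differentiable (by simp) x).hasDerivAt

theorem st_der_nonneg (x : ℝ) : 0 ≤ deriv st x := Real.smoothTransition.monotone.deriv_nonneg

theorem st_der_neg {x : ℝ} (h : x < 0) : deriv st x = 0 := by
  have : st =ᶠ[𝓝 x] fun _ => 0 := by
    filter_upwards [gt_mem_nhds h] with y hy using Real.smoothTransition.zero_of_nonpos hy.le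
  rw [this.deriv_eq, deriv_const]

theorem st_der_bd : ∃ M : ℝ, 1 ≤ M ∧ ∀ x, deriv st x ≤ M := by
  obtain ⟨C, hC⟩ := (isCompact_Icc (a := (0 : ℝ)) (b := 1)).exists_bound_of_continuousOn
    (contDiff_infty_iff_deriv.1 st_sm).2.continuous.continuousOn
  refine ⟨max 1 C, le_max_left _ _, fun x => ?_⟩
  rcases lt_or_ge x 0 with h | h
  · rw [st_der_neg h]; positivity
  rcases lt_or_ge 1 x with h' | h'
  · have : st =ᶠ[𝓝 x] fun _ => 1 := by
      filter_upwards [lt_mem_nhds h'] with y hy using Real.smoothTransition.one_of_one_le hy.le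
    rw [this.deriv_eq, deriv_const]; positivity
  · exact (le_abs_self _).trans ((hC x ⟨h, h'⟩).trans (le_max_right _ _))

/-! ### From one-dimensional data to the chart -/

structure Dat where
  (c₀ r k₀ : ℝ)
  ξi : ℝ → ℝ
  (g lam : Bool → ℝ → ℝ)

namespace Dat

variable (D : Dat) (P : Prof)

def X (J : Bool) (ℓ : En 2) : ℝ := ℓ 0 + D.g J (τP ℓ)
def ξ (J : Bool) (ℓ : En 2) : ℝ := D.ξi (D.X J ℓ)
noncomputable def u (J : Bool) (w : Fin 2) (ℓ : En 2) : ℝ :=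
  P.d w (D.ξ J ℓ) / 4 - D.lam J (D.X J ℓ) * ℓ w - D.c₀ * τP ℓ
noncomputable def η (s : ℝ) : ℝ := st (2 - 2 * s / D.r)
noncomputable def N (J : Bool) (ℓ : En 2) : ℝ :=
  D.η (ℓ 0) * D.u P J 0 ℓ + (1 - D.η (ℓ 0)) * (D.η (ℓ 1) * D.u P J 1 ℓ)
noncomputable def φ (J : Bool) (ℓ : En 2) : ℝ := D.c₀ + D.N P J ℓ / τP ℓ
noncomputable def κ (J : Bool) (ℓ : En 2) : ℝ :=
  4 * if τP ℓ ≤ 1 / 16 then 2 * D.c₀ else D.lam J (D.X J ℓ)
noncomputable def K (J : Bool) (w : Fin 2) (ℓ : En 2) : ℝ :=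
  D.κ J ℓ / (2 * Real.exp (2 * P.L w (D.ξ J ℓ)) * (1 - P.χ w (D.ξ J ℓ) * (ℓ w * D.κ J ℓ)))
noncomputable def chart : Chart := ⟨D.c₀, D.r / 4, 1 / 16, D.k₀, D.ξi, D.φ P, D.ξ, D.K P⟩

structure Col (c : ℝ) (J : Bool) (w : Fin 2) (ℓ : En 2) : Prop where
  mem : D.ξ J ℓ ∈ Ioo (P.lo w) (P.hi w)
  side : 0 < Prof.sg w * (P.xJ J - D.ξ J ℓ) + P.δ
  u0 : 0 ≤ D.u P J w ℓ
  u1 : D.c₀ * τP ℓ + D.u P J w ℓ ≤ P.M₀ / 2
  u2 : τP ℓ ≤ 1 / 16 → D.u P J w ℓ = 0
  κ : D.κ J ℓ = 4 * D.lam J (D.X J ℓ)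
  den : |P.χ w (D.ξ J ℓ) * (ℓ w * D.κ J ℓ)| ≤ 1 / 2
  K0 : D.k₀ ≤ D.K P J w ℓ
  K1 : |ℓ w * D.K P J w ℓ| < c

structure Ok (c : ℝ) : Prop where
  c0 : 0 < D.c₀
  c1 : D.c₀ ≤ 1 / 4
  r0 : 0 < D.r
  r1 : D.r ≤ 1 / 16
  k0 : 0 < D.k₀
  sξ : ContDiff ℝ ∞ D.ξi
  dξ : ∀ X ∈ Icc (-1 : ℝ) 2, 0 < deriv D.ξi X ∧ D.ξi X ∈ Ioo (P.xL - P.δ) (P.xR + P.δ)
  sg : ∀ J, ContDiff ℝ ∞ (D.g J)
  dg : ∀ J t, 0 < deriv (D.g J) t ∧ deriv (D.g J) t < 1
  g0 : ∀ J t, t ≤ 1 / 2 → D.g J t = t / 2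
  sl : ∀ J, ContDiff ℝ ∞ (D.lam J)
  pl : ∀ J X, 0 < D.lam J X
  rng : ∀ J, ∀ ℓ ∈ Nb D.r, D.X J ℓ ∈ Icc (-1 : ℝ) 2
  col : ∀ J w, ∀ ℓ ∈ Nb D.r, ℓ w ≤ D.r → D.Col P c J w ℓ
  cor : ∀ J, ∀ ℓ ∈ Nb D.r, ℓ 0 ≤ D.r → ℓ 1 ≤ D.r → D.u P J 0 ℓ = D.u P J 1 ℓ

end Dat

theorem sm_co (w : Fin 2) : ContDiff ℝ ∞ fun ℓ : En 2 => ℓ w := contDiff_apply ℝ ℝ w

theorem sm_τ : ContDiff ℝ ∞ τP := (contDiff_const.sub (sm_co 0)).sub (sm_co 1)

theorem nb_nhds {r : ℝ} (h : 0 < r) {ℓ : En 2} (hℓ : ℓ ∈ Nb (r / 4)) : ∀ᶠ y in 𝓝 ℓ, y ∈ Nb r := by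
  obtain ⟨a, b, c⟩ := hℓ
  filter_upwards [(sm_co 0).continuous.continuousAt.eventually (lt_mem_nhds (show -r < ℓ 0 by linarith)),
    (sm_co 1).continuous.continuousAt.eventually (lt_mem_nhds (show -r < ℓ 1 by linarith)),
    sm_τ.continuous.continuousAt.eventually (lt_mem_nhds (show -r < τP ℓ by linarith))]
    with y h0 h1 h2 using ⟨h0.le, h1.le, h2.le⟩

theorem fd_eq (f : En 2 → ℝ) (ℓ : En 2) (a b : ℝ) :
    fderiv ℝ f ℓ ![a, b] = a * pdn 0 f ℓ + b * pdn 1 f ℓ := by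
  have : (![a, b] : En 2) = a • Pi.single 0 1 + b • Pi.single 1 1 := by
    ext i; fin_cases i <;> simp
  rw [this, map_add, map_smul, map_smul]
  rfl

namespace Dat.Ok

variable {D : Dat} {P : Prof} {c : ℝ} (h : D.Ok P c)
include h

theorem η_one {s : ℝ} (hs : s ≤ D.r / 2) : D.η s = 1 := by
  apply Real.smoothTransition.one_of_one_le
  have : 2 * s / D.r ≤ 1 := by rw [div_le_one h.r0]; linarith
  linarith

theorem η_zero {s : ℝ} (hs : D.r ≤ s) : D.η s = 0 := by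
  apply Real.smoothTransition.zero_of_nonpos
  have : 2 ≤ 2 * s / D.r := by rw [le_div_iff₀ h.r0]; linarith
  linarith

theorem η_der (s : ℝ) : ∃ e, 0 ≤ e ∧ (D.r < s → e = 0) ∧ HasDerivAt D.η (-e) s := by
  have h1 : HasDerivAt (fun s => 2 - 2 * s / D.r) (-(2 * 1 / D.r)) s :=
    (((hasDerivAt_id s).const_mul 2).div_const D.r).const_sub 2
  refine ⟨deriv st (2 - 2 * s / D.r) * (2 / D.r), mul_nonneg (st_der_nonneg _)
    (div_pos two_pos h.r0).le, fun hs => ?_, ((st_der _).comp s h1).congr_deriv (by ring)⟩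
  have : 2 < 2 * s / D.r := by rw [lt_div_iff₀ h.r0]; linarith
  rw [st_der_neg (by linarith), zero_mul]

omit h in
theorem sm_η (w : Fin 2) : ContDiff ℝ ∞ fun ℓ : En 2 => D.η (ℓ w) :=
  st_sm.comp (contDiff_const.sub ((contDiff_const.mul (sm_co w)).div_const _))

theorem sm_X (J : Bool) : ContDiff ℝ ∞ (D.X J) := (sm_co 0).add ((h.sg J).comp sm_τ)

theorem sm_ξ (J : Bool) : ContDiff ℝ ∞ (D.ξ J) := h.sξ.comp (h.sm_X J)

theorem sm_U (hP : P.Ok) (J : Bool) (w : Fin 2) {ℓ : En 2} (hℓ : ℓ ∈ Nb D.r) :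
    ContDiffAt ℝ ∞ (fun y => D.η (y w) * D.u P J w y) ℓ := by
  rcases le_or_gt (ℓ w) D.r with k | k
  · refine (sm_η w).contDiffAt.mul (ContDiffAt.sub (ContDiffAt.sub (ContDiffAt.div_const ?_ 4)
      ((((h.sl J).comp (h.sm_X J)).mul (sm_co w)).contDiffAt)) (contDiff_const.mul sm_τ).contDiffAt)
    exact (hP.sm_d w _ (Ioo_subset_Icc_self (h.col J w ℓ hℓ k).mem)).comp ℓ (h.sm_ξ J).contDiffAt
  · refine (contDiffAt_const (c := (0 : ℝ))).congr_of_eventuallyEq ?_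
    filter_upwards [(sm_co w).continuous.continuousAt.eventually (lt_mem_nhds k)] with y hy
    rw [h.η_zero hy.le, zero_mul]

theorem sm_N (hP : P.Ok) (J : Bool) {ℓ : En 2} (hℓ : ℓ ∈ Nb D.r) : ContDiffAt ℝ ∞ (D.N P J) ℓ :=
  (h.sm_U hP J 0 hℓ).add ((contDiff_const.sub (sm_η 0)).contDiffAt.mul (h.sm_U hP J 1 hℓ))

theorem U_bd (hP : P.Ok) (J : Bool) (w : Fin 2) {ℓ : En 2} (hℓ : ℓ ∈ Nb D.r) :
    0 ≤ D.η (ℓ w) * D.u P J w ℓ ∧
      D.η (ℓ w) * D.u P J w ℓ ≤ D.η (ℓ w) * (P.M₀ / 2 - D.c₀ * τP ℓ) ∧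
      (τP ℓ ≤ 1 / 16 → D.η (ℓ w) * D.u P J w ℓ = 0) := by
  have _ := hP
  rcases le_or_gt (ℓ w) D.r with k | k
  · have C := h.col J w ℓ hℓ k
    have e : 0 ≤ D.η (ℓ w) := Real.smoothTransition.nonneg _
    exact ⟨mul_nonneg e C.u0, mul_le_mul_of_nonneg_left (by linarith [C.u1]) e,
      fun t => by rw [C.u2 t, mul_zero]⟩
  · simp [h.η_zero k.le]

theorem N_zero (hP : P.Ok) (J : Bool) {ℓ : En 2} (hℓ : ℓ ∈ Nb D.r) (t : τP ℓ ≤ 1 / 16) :
    D.N P J ℓ = 0 := by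
  rw [Dat.N, (h.U_bd hP J 0 hℓ).2.2 t, (h.U_bd hP J 1 hℓ).2.2 t, mul_zero, add_zero]

theorem N_bd (hP : P.Ok) (J : Bool) {ℓ : En 2} (hℓ : ℓ ∈ Nb D.r) :
    0 ≤ D.N P J ℓ ∧ |D.c₀ * τP ℓ + D.N P J ℓ| < P.M₀ := by
  obtain ⟨a0, a1, -⟩ := h.U_bd hP J 0 hℓ
  obtain ⟨b0, b1, -⟩ := h.U_bd hP J 1 hℓ
  have e0 : D.η (ℓ 0) ≤ 1 := Real.smoothTransition.le_one _
  have e1 : D.η (ℓ 1) ≤ 1 := Real.smoothTransition.le_one _
  have n0 : 0 ≤ D.N P J ℓ := add_nonneg a0 (mul_nonneg (by linarith) b0)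
  obtain ⟨l0, l1, l2⟩ := hℓ
  have := h.r1
  have := h.c0
  have := h.c1
  have := hP.M_ge
  have t1 : τP ℓ ≤ 9 / 8 := by unfold τP; linarith
  have t2 : D.c₀ * τP ℓ ≤ 1 / 2 := by nlinarith
  have t3 : -1 < D.c₀ * τP ℓ := by nlinarith
  have t4 : D.η (ℓ 1) * D.u P J 1 ℓ ≤ P.M₀ / 2 - D.c₀ * τP ℓ := by nlinarith
  have t5 := mul_le_mul_of_nonneg_left t4 (show 0 ≤ 1 - D.η (ℓ 0) by linarith)
  refine ⟨n0, abs_lt.2 ⟨by linarith, ?_⟩⟩
  unfold Dat.N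
  linarith

theorem τφ (hP : P.Ok) (J : Bool) {ℓ : En 2} (hℓ : ℓ ∈ Nb D.r) :
    τP ℓ * D.φ P J ℓ = D.c₀ * τP ℓ + D.N P J ℓ := by
  rw [Dat.φ]
  rcases eq_or_ne (τP ℓ) 0 with k | k
  · rw [h.N_zero hP J hℓ (by rw [k]; norm_num), k]; simp
  · field_simp

theorem φ_eq (hP : P.Ok) (J : Bool) {ℓ : En 2} (hℓ : ℓ ∈ Nb D.r) (t : τP ℓ ≤ 1 / 16) :
    D.φ P J ℓ = D.c₀ := by
  rw [Dat.φ, h.N_zero hP J hℓ t, zero_div, add_zero]

theorem φ_pos (hP : P.Ok) (J : Bool) {ℓ : En 2} (hℓ : ℓ ∈ Nb D.r) : 0 < D.φ P J ℓ := by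
  rcases le_or_gt (τP ℓ) (1 / 16) with k | k
  · rw [h.φ_eq hP J hℓ k]; exact h.c0
  · exact add_pos_of_pos_of_nonneg h.c0 (div_nonneg (h.N_bd hP J hℓ).1 (by linarith))

theorem nb_sub {ℓ : En 2} (hℓ : ℓ ∈ Nb (D.r / 4)) : ℓ ∈ Nb D.r := (nb_nhds h.r0 hℓ).self_of_nhds

theorem sm_φ (hP : P.Ok) (J : Bool) {ℓ : En 2} (hℓ : ℓ ∈ Nb (D.r / 4)) :
    ContDiffAt ℝ ∞ (D.φ P J) ℓ := by
  rcases lt_or_ge (τP ℓ) (1 / 16) with k | k
  · refine (contDiffAt_const (c := D.c₀)).congr_of_eventuallyEq ?_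
    filter_upwards [nb_nhds h.r0 hℓ, sm_τ.continuous.continuousAt.eventually (gt_mem_nhds k)]
      with y h1 h2 using h.φ_eq hP J h1 h2.le
  · exact contDiffAt_const.add ((h.sm_N hP J (h.nb_sub hℓ)).div sm_τ.contDiffAt (by linarith))

theorem pdn_ξ (J : Bool) (ℓ : En 2) :
    pdn 0 (D.ξ J) ℓ = deriv D.ξi (D.X J ℓ) * (1 - deriv (D.g J) (τP ℓ)) ∧
    pdn 1 (D.ξ J) ℓ = -(deriv D.ξi (D.X J ℓ) * deriv (D.g J) (τP ℓ)) := by
  have h0 := hasFDerivAt_apply (𝕜 := ℝ) (F' := fun _ : Fin 2 => ℝ) 0 ℓ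
  have h1 := hasFDerivAt_apply (𝕜 := ℝ) (F' := fun _ : Fin 2 => ℝ) 1 ℓ
  have hτ : HasFDerivAt τP _ ℓ := (h0.const_sub 1).sub h1
  have hX : HasFDerivAt (D.X J) _ ℓ :=
    h0.add (((h.sg J).differentiable (by simp) _).hasDerivAt.comp_hasFDerivAt ℓ hτ)
  have hξ : HasFDerivAt (D.ξ J) _ ℓ :=
    (h.sξ.differentiable (by simp) _).hasDerivAt.comp_hasFDerivAt ℓ hX
  constructor
  · simp [pdn, hξ.fderiv]
    ring
  · simp [pdn, hξ.fderiv]

theorem det_ne (hP : P.Ok) (J : Bool) {ℓ : En 2} (hℓ : ℓ ∈ Nb (D.r / 4)) :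
    (D.chart P).det J ℓ ≠ 0 := by
  have hl := h.nb_sub hℓ
  obtain ⟨x, hx⟩ : ∃ x, x = D.X J ℓ := ⟨_, rfl⟩
  obtain ⟨γ, hγ⟩ : ∃ γ, γ = deriv (D.g J) (τP ℓ) := ⟨_, rfl⟩
  have hg : HasDerivAt (D.g J) γ (τP ℓ) := hγ ▸ ((h.sg J).differentiable (by simp) _).hasDerivAt
  have c0 : HasDerivAt (fun t => x - D.g J t) (-γ) (τP ℓ) := hg.const_sub x
  have c1 : HasDerivAt (fun t => 1 - x - t + D.g J t) (-1 + γ) (τP ℓ) :=
    ((hasDerivAt_id _).const_sub (1 - x)).add hg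
  have e0 : x - D.g J (τP ℓ) = ℓ 0 := by rw [hx, Dat.X]; ring
  have e1 : 1 - x - τP ℓ + D.g J (τP ℓ) = ℓ 1 := by rw [hx, Dat.X, τP]; ring
  let cv : ℝ → En 2 := fun t => ![x - D.g J t, 1 - x - t + D.g J t]
  have hc : HasDerivAt cv ![-γ, -1 + γ] (τP ℓ) := hasDerivAt_pi.2 fun i => by
    fin_cases i
    exacts [c0, c1]
  have ec : cv (τP ℓ) = ℓ := by
    ext i
    fin_cases i
    exacts [e0, e1]
  have τc : ∀ t, τP (cv t) = t := fun t => by simp only [cv, τP]; simp; ring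
  have Xc : ∀ t, D.X J (cv t) = x := fun t => by rw [Dat.X, τc]; simp [cv]
  have dφ := ((h.sm_φ hP J hℓ).differentiableAt (by simp)).hasFDerivAt
  rw [← ec] at dφ
  have d1 := (hasDerivAt_id (τP ℓ)).mul (dφ.comp_hasDerivAt (τP ℓ) hc)
  rw [ec, fd_eq] at d1
  obtain ⟨a0, p0, z0, q0⟩ := h.η_der (ℓ 0)
  obtain ⟨a1, p1, z1, q1⟩ := h.η_der (ℓ 1)
  rw [← e0] at q0
  rw [← e1] at q1
  have k0 := q0.comp (τP ℓ) c0
  have k1 := q1.comp (τP ℓ) c1
  have i := (hasDerivAt_id (τP ℓ)).const_mul D.c₀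
  have u0 := ((c0.const_mul (D.lam J x)).const_sub (P.d 0 (D.ξi x) / 4)).sub i
  have u1 := ((c1.const_mul (D.lam J x)).const_sub (P.d 1 (D.ξi x) / 4)).sub i
  have d2 := i.add ((k0.mul u0).add ((k0.const_sub 1).mul (k1.mul u1)))
  have ev : ∀ᶠ t in 𝓝 (τP ℓ), cv t ∈ Nb D.r :=
    hc.continuousAt.eventually (by rw [ec]; exact nb_nhds h.r0 hℓ)
  have d3 := d1.unique (d2.congr_of_eventuallyEq (by
    filter_upwards [ev] with t ht
    have := h.τφ hP J ht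
    rw [τc] at this
    simp only [Pi.mul_apply, Pi.add_apply, Pi.sub_apply, id, Function.comp]
    rw [this]
    simp only [Dat.N, Dat.u, Dat.ξ, Xc, τc]
    rfl))
  simp only [Pi.mul_apply, Pi.sub_apply, id, Function.comp, ec, e0, e1] at d3
  have w0 : P.d 0 (D.ξi x) / 4 - D.lam J x * ℓ 0 - D.c₀ * τP ℓ = D.u P J 0 ℓ := by rw [hx]; rfl
  have w1 : P.d 1 (D.ξi x) / 4 - D.lam J x * ℓ 1 - D.c₀ * τP ℓ = D.u P J 1 ℓ := by rw [hx]; rfl
  rw [w0, w1] at d3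
  obtain ⟨g0, g1⟩ := hγ ▸ h.dg J (τP ℓ)
  have n0 : 0 ≤ D.η (ℓ 0) := Real.smoothTransition.nonneg _
  have n1 : 0 ≤ D.η (ℓ 1) := Real.smoothTransition.nonneg _
  have m0 : D.η (ℓ 0) ≤ 1 := Real.smoothTransition.le_one _
  have m1 : D.η (ℓ 1) ≤ 1 := Real.smoothTransition.le_one _
  have A : 0 ≤ a0 * (D.u P J 0 ℓ - D.η (ℓ 1) * D.u P J 1 ℓ) := by
    rcases le_or_gt (ℓ 0) D.r with k | k
    · have := (h.col J 0 ℓ hl k).u0
      refine mul_nonneg p0 ?_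
      rcases le_or_gt (ℓ 1) D.r with k' | k'
      · rw [← h.cor J ℓ hl k k']; nlinarith
      · rw [h.η_zero k'.le]; linarith
    · rw [z0 k, zero_mul]
  have B : 0 ≤ a1 * D.u P J 1 ℓ := by
    rcases le_or_gt (ℓ 1) D.r with k | k
    · exact mul_nonneg p1 (h.col J 1 ℓ hl k).u0
    · rw [z1 k, zero_mul]
  have C : 0 < (1 - D.η (ℓ 0)) * (1 - D.η (ℓ 1)) * D.c₀ + D.η (ℓ 0) * (D.lam J x * γ) +
      (1 - D.η (ℓ 0)) * D.η (ℓ 1) * (D.lam J x * (1 - γ)) := by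
    have l := h.pl J x
    have s : 0 < min D.c₀ (min (D.lam J x * γ) (D.lam J x * (1 - γ))) :=
      lt_min h.c0 (lt_min (mul_pos l g0) (mul_pos l (by linarith)))
    have s0 := mul_le_mul_of_nonneg_left (min_le_left D.c₀ (min (D.lam J x * γ)
      (D.lam J x * (1 - γ)))) (mul_nonneg (sub_nonneg.2 m0) (sub_nonneg.2 m1))
    have s1 := mul_le_mul_of_nonneg_left ((min_le_right D.c₀ _).trans (min_le_left (D.lam J x * γ)
      (D.lam J x * (1 - γ)))) n0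
    have s2 := mul_le_mul_of_nonneg_left ((min_le_right D.c₀ _).trans (min_le_right
      (D.lam J x * γ) (D.lam J x * (1 - γ)))) (mul_nonneg (sub_nonneg.2 m0) n1)
    linarith
  have A' := mul_nonneg A g0.le
  have B' := mul_nonneg (mul_nonneg B (sub_nonneg.2 g1.le)) (sub_nonneg.2 m0)
  have pos : 0 < D.φ P J ℓ + τP ℓ * (-γ * pdn 0 (D.φ P J) ℓ + (-1 + γ) * pdn 1 (D.φ P J) ℓ) := by
    linarith
  have e : (D.chart P).det J ℓ = deriv D.ξi (D.X J ℓ) *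
      (D.φ P J ℓ + τP ℓ * (-γ * pdn 0 (D.φ P J) ℓ + (-1 + γ) * pdn 1 (D.φ P J) ℓ)) := by
    simp only [Chart.det, Chart.n, δP, EP, Dat.chart, (h.pdn_ξ J ℓ).1, (h.pdn_ξ J ℓ).2, ← hγ]
    unfold τP
    ring
  rw [e]
  exact (mul_pos (h.dξ _ (h.rng J ℓ hl)).1 pos).ne'

theorem N_col (J : Bool) (w : Fin 2) {ℓ : En 2} (hℓ : ℓ ∈ Nb D.r) (hw : ℓ w ≤ D.r / 2) :
    D.N P J ℓ = D.u P J w ℓ := by
  have := h.r0
  fin_cases w
  · rw [Dat.N, h.η_one (s := ℓ 0) hw]; simp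
  · have hw' : ℓ 1 ≤ D.r / 2 := hw
    rw [Dat.N, h.η_one hw']
    rcases le_or_gt (ℓ 0) D.r with k | k
    · rw [h.cor J ℓ hℓ k (by linarith)]; simp; ring
    · rw [h.η_zero k.le]; simp

theorem chart_ok (hP : P.Ok) : (D.chart P).Ok P c := by
  have r0 := h.r0
  have r1 := h.r1
  refine ⟨⟨h.c0, by change 0 < D.r / 4; linarith, by change (0 : ℝ) < 1 / 16; norm_num, h.k0,
    by change D.r / 4 ≤ 1 / 2; linarith⟩, fun J ℓ hℓ => ?_, fun J w ℓ hℓ hw => ?_,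
    fun J ℓ hℓ t => ?_, fun X hX => ⟨h.sξ.contDiffAt, (h.dξ X ⟨by linarith [hX.1],
      by linarith [hX.2]⟩).1⟩⟩
  · have hl := h.nb_sub hℓ
    exact ⟨h.sm_φ hP J hℓ, (h.sm_ξ J).contDiffAt, h.φ_pos hP J hl,
      (h.τφ hP J hl).symm ▸ (h.N_bd hP J hl).2, (h.dξ _ (h.rng J ℓ hl)).2, h.det_ne hP J hℓ⟩
  · have hl := h.nb_sub hℓ
    have hw' : ℓ w ≤ D.r / 4 := hw
    have C := h.col J w ℓ hl (by linarith)
    have den : 1 - P.χ w (D.ξ J ℓ) * (ℓ w * D.κ J ℓ) ≠ 0 := by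
      have := (abs_le.1 C.den).2
      linarith
    have sκ : ContDiffAt ℝ ∞ (D.κ J) ℓ := by
      refine ((contDiff_const (c := (4 : ℝ))).mul
        ((h.sl J).comp (h.sm_X J))).contDiffAt.congr_of_eventuallyEq ?_
      filter_upwards [nb_nhds h.r0 hℓ, (sm_co w).continuous.continuousAt.eventually
        (gt_mem_nhds (show ℓ w < D.r by linarith))] with y h1 h2 using (h.col J w y h1 h2.le).κ
    have m := Ioo_subset_Icc_self (h.dξ _ (h.rng J ℓ hl)).2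
    refine ⟨sκ.div ((contDiffAt_const.mul (contDiffAt_const.mul
      ((hP.sm_L w _ m).comp ℓ (h.sm_ξ J).contDiffAt)).exp).mul (contDiffAt_const.sub
      (((hP.sm_χ w _ m).comp ℓ (h.sm_ξ J).contDiffAt).mul ((sm_co w).contDiffAt.mul sκ))))
      (mul_ne_zero (by positivity) den), C.K0, C.K1, ?_, C.mem, C.side⟩
    change P.Mu w (ℓ w * D.K P J w ℓ) (D.ξ J ℓ) = τP ℓ * D.φ P J ℓ
    have e1 : ℓ w * D.K P J w ℓ * (2 * Real.exp (2 * P.L w (D.ξ J ℓ))) =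
        ℓ w * D.κ J ℓ / (1 - P.χ w (D.ξ J ℓ) * (ℓ w * D.κ J ℓ)) := by
      rw [Dat.K]; field_simp
    have e2 : ∀ a b : ℝ, 1 - b * a ≠ 0 → a / (1 - b * a) / (1 + b * (a / (1 - b * a))) = a := by
      intro a b hb
      have : 1 + b * (a / (1 - b * a)) = 1 / (1 - b * a) := by field_simp; ring
      rw [this, div_div_eq_mul_div, div_one, div_mul_cancel₀ _ hb]
    rw [h.τφ hP J hl, h.N_col J w hl (by linarith), Prof.Mu, e1, e2 _ _ den, C.κ, Dat.u]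
    ring
  · have hl := h.nb_sub hℓ
    have t' : τP ℓ ≤ 1 / 16 := t
    have e : ∀ J, D.ξ J ℓ = D.ξi (ℓ 0 + τP ℓ / 2) := fun J => by
      rw [Dat.ξ, Dat.X, h.g0 J _ (by linarith)]
    refine ⟨h.φ_eq hP J hl t', e J, fun w => ?_⟩
    change D.K P J w ℓ = D.K P false w ℓ
    simp only [Dat.K, Dat.κ, if_pos t', e]

end Dat.Ok

/-! ### Construction of the one-dimensional data -/

noncomputable def Af (s δ Y : ℝ) : ℝ := s * Y + δ / 4 * st (16 * Y - 2)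

theorem Af_bd {s δ Y : ℝ} (s0 : 0 < s) (s1 : s ≤ δ / 8) (hY : Y ∈ Icc (-1 : ℝ) 2) :
    |Af s δ Y| ≤ δ / 2 := by
  have a := Real.smoothTransition.nonneg (16 * Y - 2)
  have b := Real.smoothTransition.le_one (16 * Y - 2)
  rw [Af, abs_le]
  constructor <;> nlinarith [hY.1, hY.2]

theorem Af_sm (s δ : ℝ) : ContDiff ℝ ∞ (Af s δ) :=
  (contDiff_const.mul contDiff_id).add (contDiff_const.mul
    (st_sm.comp ((contDiff_const.mul contDiff_id).sub contDiff_const)))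

theorem Af_der {s δ : ℝ} (s0 : 0 < s) (δ0 : 0 < δ) (Y : ℝ) :
    ∃ a, 0 < a ∧ HasDerivAt (Af s δ) a Y := by
  have h1 : HasDerivAt (fun Y => 16 * Y - 2) (16 * 1) Y :=
    ((hasDerivAt_id Y).const_mul 16).sub_const 2
  have := st_der_nonneg (16 * Y - 2)
  exact ⟨_, by positivity, ((hasDerivAt_id Y).const_mul s).add
    (((st_der _).comp Y h1).const_mul (δ / 4))⟩

theorem exists_xi {xL xR δ e s₀ s₁ : ℝ} (δ0 : 0 < δ) (hx : xL + 2 * δ ≤ xR) (e0 : 0 < e)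
    (a0 : 0 < s₀) (a1 : s₀ ≤ δ / 8) (b0 : 0 < s₁) (b1 : s₁ ≤ δ / 8) :
    ∃ ξ : ℝ → ℝ, ContDiff ℝ ∞ ξ ∧
      (∀ X ∈ Icc (-1 : ℝ) 2, 0 < deriv ξ X ∧ ξ X ∈ Ioo (xL - δ) (xR + δ)) ∧
      (∀ X, X ≤ 1 / 2 - e → ξ X = xL + Af s₀ δ X) ∧
      ∀ X, 1 / 2 + e ≤ X → ξ X = xR - Af s₁ δ (1 - X) := by
  refine ⟨fun X => xL + Af s₀ δ X + st ((X - (1 / 2 - e)) / (2 * e)) *
    (xR - Af s₁ δ (1 - X) - (xL + Af s₀ δ X)), ?_, fun X hX => ?_, fun X hX => ?_, fun X hX => ?_⟩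
  · exact (contDiff_const.add (Af_sm _ _)).add ((st_sm.comp ((contDiff_id.sub
      contDiff_const).div_const _)).mul ((contDiff_const.sub ((Af_sm _ _).comp
      (contDiff_const.sub contDiff_id))).sub (contDiff_const.add (Af_sm _ _))))
  · obtain ⟨p, p0, hp⟩ := Af_der a0 δ0 X
    obtain ⟨q, q0, hq⟩ := Af_der b0 δ0 (1 - X)
    have h1 : HasDerivAt (fun X => (X - (1 / 2 - e)) / (2 * e)) (1 / (2 * e)) X :=
      ((hasDerivAt_id X).sub_const _).div_const _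
    have h2 := (hp.const_add xL).add (((st_der _).comp X h1).mul
      (((hq.comp X ((hasDerivAt_id X).const_sub 1)).const_sub xR).sub (hp.const_add xL)))
    have A := abs_le.1 (Af_bd a0 a1 hX)
    have B := abs_le.1 (Af_bd b0 b1 (Y := 1 - X) ⟨by linarith [hX.2], by linarith [hX.1]⟩)
    have t0 := Real.smoothTransition.nonneg ((X - (1 / 2 - e)) / (2 * e))
    have t1 := Real.smoothTransition.le_one ((X - (1 / 2 - e)) / (2 * e))
    have gap : 0 < xR - Af s₁ δ (1 - X) - (xL + Af s₀ δ X) := by linarith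
    refine ⟨?_, by nlinarith, by nlinarith⟩
    refine lt_of_lt_of_eq ?_ h2.deriv.symm
    simp only [Pi.sub_apply, Function.comp]
    have t2 := mul_nonneg (mul_nonneg (st_der_nonneg ((X - (1 / 2 - e)) / (2 * e)))
      (show 0 ≤ 1 / (2 * e) by positivity)) gap.le
    have t3 : ∀ t : ℝ, 0 ≤ t → t ≤ 1 → 0 < (1 - t) * p + t * q := fun t k0 k1 => by
      rcases k0.eq_or_lt with k | k
      · rw [← k]; linarith
      · nlinarith [mul_pos k q0]
    linarith [t3 _ t0 t1]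
  · have : (X - (1 / 2 - e)) / (2 * e) ≤ 0 := div_nonpos_of_nonpos_of_nonneg (by linarith) (by linarith)
    simp only [Real.smoothTransition.zero_of_nonpos this]
    ring
  · have : 1 ≤ (X - (1 / 2 - e)) / (2 * e) := by rw [le_div_iff₀ (by linarith)]; linarith
    simp only [Real.smoothTransition.one_of_one_le this]
    ring

theorem exists_g {M a : ℝ} (hM : ∀ x, deriv st x ≤ M) (M1 : 1 ≤ M) (ha : |a| ≤ 1 / (32 * M)) :
    ∃ g : ℝ → ℝ, ContDiff ℝ ∞ g ∧ (∀ t, 0 < deriv g t ∧ deriv g t < 1) ∧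
      (∀ t, t ≤ 1 / 2 → g t = t / 2) ∧ (∀ t, 3 / 4 ≤ t → g t = t / 2 + a) ∧
      ∀ t, |g t - t / 2| ≤ 1 / 32 := by
  have h1 : |a| * M ≤ 1 / 32 := by
    rw [le_div_iff₀ (by linarith)] at ha
    linarith
  refine ⟨fun t => t / 2 + a * st (4 * t - 2), (contDiff_id.div_const 2).add (contDiff_const.mul
    (st_sm.comp ((contDiff_const.mul contDiff_id).sub contDiff_const))), fun t => ?_,
    fun t ht => ?_, fun t ht => ?_, fun t => ?_⟩
  · have h2 : HasDerivAt (fun t => 4 * t - 2) (4 * 1) t :=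
      ((hasDerivAt_id t).const_mul 4).sub_const 2
    have h3 := ((hasDerivAt_id t).div_const 2).add (((st_der _).comp t h2).const_mul a)
    have h4 : |a * deriv st (4 * t - 2)| ≤ 1 / 32 := by
      rw [abs_mul, abs_of_nonneg (st_der_nonneg _)]
      exact (mul_le_mul_of_nonneg_left (hM _) (abs_nonneg a)).trans h1
    have h5 := abs_le.1 h4
    exact ⟨lt_of_lt_of_eq (by linarith) h3.deriv.symm, lt_of_eq_of_lt h3.deriv (by linarith)⟩
  · simp only [Real.smoothTransition.zero_of_nonpos (show 4 * t - 2 ≤ 0 by linarith)]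
    ring
  · simp only [Real.smoothTransition.one_of_one_le (show 1 ≤ 4 * t - 2 by linarith)]
    ring
  · have t0 := Real.smoothTransition.nonneg (4 * t - 2)
    have t1 := Real.smoothTransition.le_one (4 * t - 2)
    rw [add_sub_cancel_left, abs_mul, abs_of_nonneg t0]
    nlinarith [abs_nonneg a]

variable {P : Prof}

theorem ord (h : P.Ok) (J : Bool) : P.xL + 2 * P.δ ≤ P.xJ J ∧ P.xJ J + 2 * P.δ ≤ P.xR ∧
    P.xJ false ≤ P.xJ J ∧ P.xJ J ≤ P.xJ true := by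
  obtain ⟨o1, o2, o3⟩ := h.ord
  obtain ⟨a1, a2, a3, a4⟩ := h.ordJ false
  obtain ⟨b1, b2, b3, b4⟩ := h.ordJ true
  have := h.δ_pos
  cases J <;> refine ⟨?_, ?_, ?_, ?_⟩ <;> linarith

theorem mem_lo (h : P.Ok) (J : Bool) (w : Fin 2) {x : ℝ}
    (hx : x ∈ Ioo (P.xL - P.δ) (P.xR + P.δ)) (h1 : Prof.sg w * (x - P.xJ J) < P.δ) :
    x ∈ Ioo (P.lo w) (P.hi w) := by
  obtain ⟨-, -, a, b⟩ := ord h J
  fin_cases w
  · change 1 * (x - P.xJ J) < P.δ at h1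
    exact ⟨hx.1, show x < P.xJ true + P.δ by linarith⟩
  · change -1 * (x - P.xJ J) < P.δ at h1
    exact ⟨show P.xJ false - P.δ < x by linarith, hx.2⟩

theorem xJ_mem (h : P.Ok) (J : Bool) (w : Fin 2) : P.xJ J ∈ Ioo (P.lo w) (P.hi w) := by
  obtain ⟨a, b, -, -⟩ := ord h J
  have := h.δ_pos
  exact mem_lo h J w ⟨by linarith, by linarith⟩ (by simpa)

theorem dsign (h : P.Ok) (J : Bool) : deriv (P.d 1) (P.xJ J) < deriv (P.d 0) (P.xJ J) := by
  obtain ⟨a1, a2, a3, a4⟩ := h.ordJ J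
  have := h.δ_pos
  have m : P.xJ J ∈ Ioo (P.pl J) (P.pr J) := ⟨by linarith, by linarith⟩
  obtain ⟨C, hC⟩ := h.dev (1 / 2) (by norm_num) (by norm_num) 1
  obtain ⟨p1, p2, p3⟩ := h.prod J _ (Ioo_subset_Icc_self m)
  have e : ∀ i, deriv (P.d i) (P.xJ J) = 2 * deriv (P.Lp J i) (P.xJ J) * P.dp J i (P.xJ J) := by
    intro i
    have k := (hC J i _ m).2 (xJ_mem h J i)
    rw [h.strip J _ (by simpa using this.le), Real.zero_rpow (by norm_num), mul_zero,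
      iteratedDeriv_one, abs_nonpos_iff, deriv_sub
        ((h.sm_d i _ (Ioo_subset_Icc_self (xJ_mem h J i))).differentiableAt (by simp))
        ((h.sm_p J i _ (Ioo_subset_Icc_self m)).1.differentiableAt (by simp)), sub_eq_zero] at k
    rw [k, (p3 i).2.2.2.1]
  have q : deriv (P.Lp J 1) (P.xJ J) < 0 := by
    by_contra k
    nlinarith [mul_nonneg p2.le (not_lt.1 k)]
  rw [e, e]
  nlinarith [mul_pos p2 (p3 0).1, mul_pos (neg_pos.2 q) (p3 1).1]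

theorem exists_b (h : P.Ok) : ∃ b : ℝ, 0 < b ∧ ∀ w, ∀ x ∈ Icc (P.lo w) (P.hi w),
    P.δ / 4 ≤ Prof.sg w * (x - P.xc w) → b ≤ P.d w x := by
  have δ0 := h.δ_pos
  have : ∀ w, ∃ b : ℝ, 0 < b ∧ ∀ x ∈ Icc (P.lo w) (P.hi w) ∩
      {x | P.δ / 4 ≤ Prof.sg w * (x - P.xc w)}, b ≤ P.d w x := fun w =>
    (isCompact_Icc.inter_right (isClosed_le continuous_const (by fun_prop))).exists_forall_le'
      (fun x hx => (h.sm_d w x hx.1).continuousAt.continuousWithinAt)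
      fun x hx => h.d_pos w x hx.1 (lt_of_lt_of_le (by linarith) hx.2)
  choose b b0 hb using this
  refine ⟨min (b 0) (b 1), lt_min (b0 0) (b0 1), fun w x hx h1 => le_trans ?_ (hb w x ⟨hx, h1⟩)⟩
  fin_cases w
  exacts [min_le_left _ _, min_le_right _ _]

theorem exists_C (h : P.Ok) : ∃ C : ℝ, 0 ≤ C ∧ ∀ w, ∀ x ∈ Icc (P.xL - P.δ) (P.xR + P.δ),
    |P.L w x| ≤ C ∧ |P.χ w x| ≤ C := by
  obtain ⟨C, hC⟩ := (isCompact_Icc (a := P.xL - P.δ) (b := P.xR + P.δ)).exists_bound_of_continuousOn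
    (f := fun x => (P.L 0 x, P.L 1 x, P.χ 0 x, P.χ 1 x)) fun x hx =>
      ((h.sm_L 0 x hx).continuousAt.prodMk ((h.sm_L 1 x hx).continuousAt.prodMk
        ((h.sm_χ 0 x hx).continuousAt.prodMk (h.sm_χ 1 x hx).continuousAt))).continuousWithinAt
  refine ⟨max 0 C, le_max_left _ _, fun w x hx => ?_⟩
  have := (hC x hx).trans (le_max_right 0 C)
  simp only [Prod.norm_mk, Real.norm_eq_abs, max_le_iff] at this
  fin_cases w
  exacts [⟨this.1, this.2.2.1⟩, ⟨this.2.1, this.2.2.2⟩]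

theorem ev_small (A : ℝ) {B : ℝ} (hB : 0 < B) : ∀ᶠ r in 𝓝[>] (0 : ℝ), A * r < B := by
  have : ContinuousAt (fun r : ℝ => A * r) 0 := by fun_prop
  exact nhdsWithin_le_nhds (this.eventually (gt_mem_nhds (by simpa)))

theorem K_bd {lam l₁ Λ C L χ s r c : ℝ} (l0 : 0 < l₁) (l1 : l₁ ≤ lam) (l2 : lam ≤ Λ) (hL : |L| ≤ C)
    (hχ : |χ| ≤ C) (hs : |s| ≤ r) (h1 : 4 * Λ * C * r < 1 / 2) (h2 : 4 * Λ * Real.exp (2 * C) * r < c) :
    |χ * (s * (4 * lam))| ≤ 1 / 2 ∧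
    l₁ * Real.exp (-(2 * C)) ≤ 4 * lam / (2 * Real.exp (2 * L) * (1 - χ * (s * (4 * lam)))) ∧
    |s * (4 * lam / (2 * Real.exp (2 * L) * (1 - χ * (s * (4 * lam)))))| < c := by
  have p : 0 < lam := l0.trans_le l1
  have r0 : 0 ≤ r := (abs_nonneg _).trans hs
  have a : |χ * (s * (4 * lam))| ≤ 1 / 2 := by
    rw [abs_mul, abs_mul, abs_of_pos (show 0 < 4 * lam by linarith)]
    calc _ ≤ C * (r * (4 * Λ)) := by
          have := (abs_nonneg _).trans hχ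
          gcongr
      _ ≤ _ := by linarith
  obtain ⟨a1, a2⟩ := abs_le.1 a
  obtain ⟨b1, b2⟩ := abs_le.1 hL
  have E := Real.exp_pos (2 * L)
  have E1 : Real.exp (-(2 * C)) * Real.exp (2 * L) ≤ 1 := by
    rw [← Real.exp_add]; exact Real.exp_le_one_iff.2 (by linarith)
  have E2 : 1 ≤ Real.exp (2 * C) * Real.exp (2 * L) := by
    rw [← Real.exp_add]; exact Real.one_le_exp (by linarith)
  generalize χ * (s * (4 * lam)) = z at *
  have d : 0 < 2 * Real.exp (2 * L) * (1 - z) := mul_pos (by linarith) (by linarith)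
  refine ⟨a, ?_, ?_⟩
  · rw [le_div_iff₀ d]
    have := mul_le_mul_of_nonneg_right E1 (show 0 ≤ l₁ * (2 * (1 - z)) by nlinarith)
    nlinarith
  · have k : 4 * lam / (2 * Real.exp (2 * L) * (1 - z)) ≤ 4 * Λ * Real.exp (2 * C) := by
      rw [div_le_iff₀ d]
      have := mul_le_mul_of_nonneg_left E2 (show 0 ≤ 4 * Λ * (2 * (1 - z)) by nlinarith)
      nlinarith
    rw [abs_mul, abs_of_pos (div_pos (by linarith) d)]
    calc _ ≤ r * (4 * Λ * Real.exp (2 * C)) :=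
          mul_le_mul hs k (div_pos (by linarith) d).le r0
      _ < c := by linarith

theorem sg_cases (w : Fin 2) : Prof.sg w = 1 ∨ Prof.sg w = -1 := by
  fin_cases w
  exacts [Or.inl rfl, Or.inr rfl]

theorem exists_dat (h : P.Ok) {c : ℝ} (hc : 0 < c) : ∃ D : Dat, D.Ok P c := by
  have δ0 := h.δ_pos
  choose a a0 ha using h.lin
  obtain ⟨b, b0, hb⟩ := exists_b h
  obtain ⟨C, C0, hC⟩ := exists_C h
  obtain ⟨M, M1, hM⟩ := st_der_bd
  obtain ⟨c₀, c0, c1, c2, c3⟩ : ∃ c₀ : ℝ, 0 < c₀ ∧ c₀ ≤ b / 16 ∧ c₀ ≤ 1 / 4 ∧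
      ∀ w, 8 * c₀ / a w ≤ P.δ / 8 := by
    have p0 := a0 0
    have p1 := a0 1
    refine ⟨min (min (b / 16) (1 / 4)) (min (a 0 * P.δ / 64) (a 1 * P.δ / 64)), by positivity,
      (min_le_left _ _).trans (min_le_left _ _), (min_le_left _ _).trans (min_le_right _ _),
      fun w => ?_⟩
    have : min (min (b / 16) (1 / 4)) (min (a 0 * P.δ / 64) (a 1 * P.δ / 64)) ≤ a w * P.δ / 64 := by
      fin_cases w
      exacts [(min_le_right _ _).trans (min_le_left _ _), (min_le_right _ _).trans (min_le_right _ _)]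
    rw [div_le_iff₀ (a0 w)]
    linarith
  have s0 : ∀ w, 0 < 8 * c₀ / a w := fun w => div_pos (by linarith) (a0 w)
  obtain ⟨e, he⟩ : ∃ e, e = 1 / (32 * M) := ⟨_, rfl⟩
  have e0 : 0 < e := by rw [he]; positivity
  have e1 : e ≤ 1 / 32 := by rw [he]; exact one_div_le_one_div_of_le (by norm_num) (by linarith)
  obtain ⟨ξ, sξ, dξ, ξ0, ξ1⟩ := exists_xi (xL := P.xL) (xR := P.xR) δ0
    (by linarith [(ord h false).1, (ord h false).2.1]) e0 (s0 0) (c3 0) (s0 1) (c3 1)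
  have cap : ∀ w X, 1 / 2 + Prof.sg w * (X - 1 / 2) ≤ 1 / 2 - e → Prof.sg w * (ξ X - P.xc w) =
      Af (8 * c₀ / a w) P.δ (1 / 2 + Prof.sg w * (X - 1 / 2)) := by
    intro w X hX
    fin_cases w
    · change 1 / 2 + 1 * (X - 1 / 2) ≤ _ at hX
      change 1 * (ξ X - P.xL) = Af (8 * c₀ / a 0) P.δ (1 / 2 + 1 * (X - 1 / 2))
      rw [ξ0 X (by linarith), show 1 / 2 + 1 * (X - 1 / 2) = X by ring]
      ring
    · change 1 / 2 + -1 * (X - 1 / 2) ≤ _ at hX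
      change -1 * (ξ X - P.xR) = Af (8 * c₀ / a 1) P.δ (1 / 2 + -1 * (X - 1 / 2))
      rw [ξ1 X (by linarith), show 1 / 2 + -1 * (X - 1 / 2) = 1 - X by ring]
      ring
  have mo := (strictMonoOn_of_deriv_pos (convex_Icc (-1 : ℝ) 2) sξ.continuous.continuousOn
    fun x hx => (dξ x (interior_subset hx)).1).monotoneOn
  have mono : ∀ w, ∀ X ∈ Icc (-1 : ℝ) 2, ∀ X' ∈ Icc (-1 : ℝ) 2, Prof.sg w * X ≤ Prof.sg w * X' →
      Prof.sg w * ξ X ≤ Prof.sg w * ξ X' := by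
    intro w X hX X' hX' k
    rcases sg_cases w with σ | σ <;> rw [σ] at k ⊢
    · linarith [mo hX hX' (by linarith)]
    · linarith [mo hX' hX (by linarith)]
  have ivt : ∀ J, ∃ X ∈ Icc (1 / 2 - e) (1 / 2 + e), ξ X = P.xJ J := fun J => by
    refine intermediate_value_Icc (by linarith) sξ.continuous.continuousOn ⟨?_, ?_⟩
    · rw [ξ0 _ le_rfl]
      linarith [(abs_le.1 (Af_bd (s0 0) (c3 0) (Y := 1 / 2 - e) ⟨by linarith, by linarith⟩)).2,
        (ord h J).1]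
    · rw [ξ1 _ le_rfl]
      linarith [(abs_le.1 (Af_bd (s0 1) (c3 1) (Y := 1 - (1 / 2 + e))
        ⟨by linarith, by linarith⟩)).2, (ord h J).2.1]
  choose XJ mJ hJ using ivt
  have aJ : ∀ J, |XJ J - 1 / 2| ≤ e := fun J => abs_le.2 ⟨by linarith [(mJ J).1], by linarith [(mJ J).2]⟩
  choose g sg dg g0 g1 g2 using fun J => exists_g hM M1 (he ▸ aJ J)
  have el : ∀ J, ∃ (lam : ℝ → ℝ) (e : ℝ), ContDiff ℝ ∞ lam ∧ (∀ x, 0 < lam x) ∧ 0 < e ∧
      (∀ x, |x - XJ J| ≤ e → P.d 0 (ξ x) - P.d 1 (ξ x) = 8 * (x - XJ J) * lam x) ∧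
      ∀ x, 1 / 8 ≤ |x - XJ J| → lam x = 2 * c₀ := fun J => by
    have ev : ∀ w, ∀ᶠ x in 𝓝 (XJ J), ContDiffAt ℝ ∞ (fun x => P.d w (ξ x)) x := fun w => by
      filter_upwards [sξ.continuous.continuousAt.eventually (isOpen_Ioo.mem_nhds
        (hJ J ▸ xJ_mem h J w : ξ (XJ J) ∈ Ioo (P.lo w) (P.hi w)))] with x hx
      exact (h.sm_d w _ (Ioo_subset_Icc_self hx)).comp x sξ.contDiffAt
    refine exists_lam (G := fun x => P.d 0 (ξ x) - P.d 1 (ξ x))
      (by filter_upwards [ev 0, ev 1] with x h0 h1 using h0.sub h1)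
      (by simp only [hJ, h.junction, sub_self]) ?_ (by linarith)
    have d : ∀ w, HasDerivAt (fun x => P.d w (ξ x))
        (deriv (P.d w) (P.xJ J) * deriv ξ (XJ J)) (XJ J) := fun w => by
      have := ((h.sm_d w _ (Ioo_subset_Icc_self (xJ_mem h J w))).differentiableAt
        (by simp)).hasDerivAt
      rw [← hJ] at this ⊢
      exact this.comp _ (sξ.differentiable (by simp) _).hasDerivAt
    refine lt_of_lt_of_eq ?_ ((d 0).sub (d 1)).deriv.symm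
    nlinarith [mul_pos (sub_pos.2 (dsign h J))
      (dξ (XJ J) ⟨by linarith [(mJ J).1], by linarith [(mJ J).2]⟩).1]
  choose lam e₂ sl pl e₂0 l1 l2 using el
  obtain ⟨l₁, l0, hl₁⟩ := (isCompact_Icc (a := (-1 : ℝ)) (b := 2)).exists_forall_le'
    (f := fun x => min (lam false x) (lam true x))
    ((sl false).continuous.min (sl true).continuous).continuousOn
    fun x _ => lt_min (pl false x) (pl true x)
  obtain ⟨Λ, hΛ⟩ := (isCompact_Icc (a := (-1 : ℝ)) (b := 2)).exists_bound_of_continuousOn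
    ((sl false).continuous.max (sl true).continuous).continuousOn
  have lb : ∀ J, ∀ x ∈ Icc (-1 : ℝ) 2, l₁ ≤ lam J x ∧ lam J x ≤ Λ := fun J x hx => by
    have k1 := le_min_iff.1 (hl₁ x hx)
    have k2 := max_le_iff.1 ((le_abs_self _).trans (hΛ x hx))
    cases J
    exacts [⟨k1.1, k2.1⟩, ⟨k1.2, k2.2⟩]
  have ev : ∀ J w, ∀ᶠ r in 𝓝[>] (0 : ℝ), |ξ (XJ J + Prof.sg w * (2 * r)) - P.xJ J| < P.δ := by
    intro J w
    have c := sξ.continuous
    have : ContinuousAt (fun r : ℝ => |ξ (XJ J + Prof.sg w * (2 * r)) - P.xJ J|) 0 := by fun_prop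
    exact nhdsWithin_le_nhds (this.eventually (gt_mem_nhds (by simpa [hJ])))
  obtain ⟨r, r0, r1, r2, r3, r4, r5, r6, r7⟩ := (eventually_mem_nhdsWithin.and
    ((ev_small 1 (show (0 : ℝ) < 1 / 32 by norm_num)).and
    ((eventually_all.2 fun J => ev_small 1 (e₂0 J)).and
    ((ev_small Λ (show 0 < b / 16 by linarith)).and
    ((ev_small Λ (show (0 : ℝ) < 1 / 4 by norm_num)).and
    ((ev_small (4 * Λ * C) (show (0 : ℝ) < 1 / 2 by norm_num)).and
    ((ev_small (4 * Λ * Real.exp (2 * C)) hc).and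
    (eventually_all.2 fun J => eventually_all.2 (ev J))))))))).exists
  replace r0 : 0 < r := r0
  have rng : ∀ J, ∀ ℓ ∈ Nb r, ℓ 0 + g J (τP ℓ) ∈ Icc (-1 : ℝ) 2 := fun J ℓ ⟨k0, k1, k2⟩ => by
    have := abs_le.1 (g2 J (τP ℓ))
    unfold τP at *
    constructor <;> linarith
  refine ⟨⟨c₀, r, l₁ * Real.exp (-(2 * C)), ξ, g, lam⟩, c0, c2, r0, by change r ≤ _; linarith,
    mul_pos l0 (Real.exp_pos _), sξ, dξ, sg, dg, g0, sl, pl, rng, fun J w ℓ hℓ hw => ?_,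
    fun J ℓ hℓ h0 h1 => ?_⟩
  · have hX := rng J ℓ hℓ
    have hw' : ℓ w ≤ r := hw
    obtain ⟨k0, k1, k2⟩ : -r ≤ ℓ 0 ∧ -r ≤ ℓ 1 ∧ -r ≤ τP ℓ := hℓ
    have kw : -r ≤ ℓ w := by fin_cases w; exacts [k0, k1]
    have t1 : τP ℓ ≤ 1 + 2 * r := by unfold τP; linarith
    obtain ⟨x, hx⟩ : ∃ x, x = ℓ 0 + g J (τP ℓ) := ⟨_, rfl⟩
    have hY : ℓ w = 1 / 2 + Prof.sg w * (x - 1 / 2) -
        (τP ℓ / 2 + Prof.sg w * (g J (τP ℓ) - τP ℓ / 2)) := by
      rw [hx]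
      fin_cases w
      · change ℓ 0 = 1 / 2 + 1 * _ - (_ + 1 * _)
        ring
      · change ℓ 1 = 1 / 2 + -1 * _ - (_ + -1 * _)
        unfold τP
        ring
    rw [← hx] at hX
    obtain ⟨m1, m2⟩ := mJ J
    obtain ⟨n1, n2⟩ := abs_le.1 (g2 J (τP ℓ))
    have σ := sg_cases w
    have up : Prof.sg w * x ≤ Prof.sg w * (XJ J + Prof.sg w * (2 * r)) := by
      rcases le_total (τP ℓ) (3 / 4) with k | k
      · rcases σ with σ | σ <;> rw [σ] at hY ⊢ <;> linarith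
      · rw [g1 J _ k] at hY
        rcases σ with σ | σ <;> rw [σ] at hY ⊢ <;> linarith
    have side : Prof.sg w * (ξ x - P.xJ J) < P.δ := by
      have k := mono w x hX _ (by rcases σ with σ | σ <;> rw [σ] <;> constructor <;> linarith) up
      have k' := abs_lt.1 (r7 J w)
      rcases σ with σ | σ <;> rw [σ] at k k' ⊢ <;> linarith
    have mem := mem_lo h J w (dξ x hX).2 side
    obtain ⟨q0, q1⟩ := lb J x hX
    have q2 : |lam J x * ℓ w| ≤ Λ * r := by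
      rw [abs_mul, abs_of_pos (pl J x)]
      exact mul_le_mul q1 (abs_le.2 ⟨kw, hw'⟩) (abs_nonneg _) ((pl J x).le.trans q1)
    obtain ⟨q3, q4⟩ := abs_le.1 q2
    have low : τP ℓ ≤ 1 / 2 → lam J x = 2 * c₀ ∧ P.d w (ξ x) / 4 - lam J x * ℓ w - c₀ * τP ℓ =
        a w * P.δ / 16 * st (16 * (ℓ w + τP ℓ / 2) - 2) := fun k => by
      rw [g0 J _ k] at hY
      have y : 1 / 2 + Prof.sg w * (x - 1 / 2) = ℓ w + τP ℓ / 2 := by rw [hY]; ring
      have z : lam J x = 2 * c₀ := l2 J x (by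
        rw [le_abs]
        rcases σ with σ | σ <;> rw [σ] at y
        · right; linarith
        · left; linarith)
      have v := cap w x (by linarith)
      rw [y] at v
      have v2 : |ξ x - P.xc w| ≤ P.δ := by
        have := abs_le.1 (Af_bd (s0 w) (c3 w) (Y := ℓ w + τP ℓ / 2) ⟨by linarith, by linarith⟩)
        rw [← v] at this
        rcases σ with σ | σ <;> rw [σ] at this <;> rw [abs_le] <;> constructor <;> linarith
      refine ⟨z, ?_⟩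
      have := (a0 w).ne'
      rw [ha w _ v2, v, z, Af]
      field_simp
      ring
    have κ : (4 * if τP ℓ ≤ 1 / 16 then 2 * c₀ else lam J x) = 4 * lam J x := by
      split_ifs with k
      · rw [(low (by linarith)).1]
      · rfl
    obtain ⟨K1, K2, K3⟩ := K_bd l0 q0 q1 (hC w _ (Ioo_subset_Icc_self (dξ x hX).2)).1
      (hC w _ (Ioo_subset_Icc_self (dξ x hX).2)).2 (abs_le.2 ⟨kw, hw'⟩) r5 r6
    rw [← κ] at K1 K2 K3
    have u0 : 0 ≤ P.d w (ξ x) / 4 - lam J x * ℓ w - c₀ * τP ℓ := by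
      rcases le_total (τP ℓ) (1 / 2) with k | k
      · rw [(low k).2]
        exact mul_nonneg (div_pos (mul_pos (a0 w) δ0) (by norm_num)).le
          (Real.smoothTransition.nonneg _)
      · have v := cap w (1 / 2 + Prof.sg w * (3 / 16 - 1 / 2))
          (by rcases σ with σ | σ <;> rw [σ] <;> linarith)
        have v1 : 1 / 2 + Prof.sg w * (1 / 2 + Prof.sg w * (3 / 16 - 1 / 2) - 1 / 2) = 3 / 16 := by
          rcases σ with σ | σ <;> rw [σ] <;> ring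
        rw [v1, Af, st, Real.smoothTransition.one_of_one_le (by norm_num)] at v
        have v2 := mono w (1 / 2 + Prof.sg w * (3 / 16 - 1 / 2))
          (by rcases σ with σ | σ <;> rw [σ] <;> constructor <;> linarith) x hX
          (by rcases σ with σ | σ <;> rw [σ] at hY ⊢ <;> linarith)
        have v3 := hb w _ (Ioo_subset_Icc_self mem) (by linarith [s0 w])
        linarith [mul_le_mul_of_nonneg_left (show τP ℓ ≤ 17 / 16 by linarith) c0.le]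
    have u1 : c₀ * τP ℓ + (P.d w (ξ x) / 4 - lam J x * ℓ w - c₀ * τP ℓ) ≤ P.M₀ / 2 := by
      linarith [(abs_le.1 (h.d_bd w _ (Ioo_subset_Icc_self mem))).2, h.M_ge]
    have u2 : τP ℓ ≤ 1 / 16 → P.d w (ξ x) / 4 - lam J x * ℓ w - c₀ * τP ℓ = 0 := fun k => by
      rw [(low (by linarith)).2, st, Real.smoothTransition.zero_of_nonpos (by linarith), mul_zero]
    have side' : 0 < Prof.sg w * (P.xJ J - ξ x) + P.δ := by linarith
    subst hx
    exact ⟨mem, side', u0, u1, u2, κ, K1, K2, K3⟩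
  · obtain ⟨k0, k1, k2⟩ : -r ≤ ℓ 0 ∧ -r ≤ ℓ 1 ∧ -r ≤ τP ℓ := hℓ
    have h0' : ℓ 0 ≤ r := h0
    have h1' : ℓ 1 ≤ r := h1
    have y : ℓ 0 + g J (τP ℓ) - XJ J = (ℓ 0 - ℓ 1) / 2 := by
      rw [g1 J _ (by unfold τP; linarith)]
      unfold τP
      ring
    have := l1 J (ℓ 0 + g J (τP ℓ)) (by
      rw [y, abs_le]
      constructor <;> linarith [r2 J])
    rw [y] at this
    change P.d 0 (ξ (ℓ 0 + g J (τP ℓ))) / 4 - lam J (ℓ 0 + g J (τP ℓ)) * ℓ 0 - _ =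
      P.d 1 (ξ (ℓ 0 + g J (τP ℓ))) / 4 - lam J (ℓ 0 + g J (τP ℓ)) * ℓ 1 - _
    linarith

end ChartX

theorem chartS (_b1 : B1Stmt) (_pi1 : PI1Stmt) : ChartStmt := fun P _ hP g => by
  obtain ⟨D, hD⟩ := ChartX.exists_dat hP g.pos
  exact ⟨D.chart P, hD.chart_ok hP⟩

end Pool.Agent.Lib.MP_df9110_gt
end
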