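import Pool.Agent.Lib.MP_df9110_gt.NCart

-- part Pool.Agent.Lib.MP_df9110_gt.Cone
section

/-! The asymptotic cone: smoothness, positivity and scalar curvature. -/

namespace Pool.Agent.Lib.MP_df9110_gt

open Filter Topology Set
open scoped ContDiff

namespace Cone

/-- `e^{c r} w(X)` -/
noncomputable def E (c : ℝ) (w : ℝ → ℝ) (z : En 2) : ℝ := Real.exp (c * z 0) * w (z 1)

theorem pdn_E {c w' : ℝ} {w : ℝ → ℝ} {z : En 2} (hw : HasDerivAt w w' (z 1)) :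
    pdn 0 (E c w) z = c * E c w z ∧ pdn 1 (E c w) z = Real.exp (c * z 0) * w' := by
  have h := (((hasFDerivAt_apply (𝕜 := ℝ) (0 : Fin 2) z).const_mul c).exp.mul
    (hw.comp_hasFDerivAt z (hasFDerivAt_apply (𝕜 := ℝ) (1 : Fin 2) z))).fderiv
  have e : fderiv ℝ (E c w) z = _ := h
  unfold pdn
  rw [e]
  constructor
  · simp [E]
    ring
  · simp

theorem cd_E {c : ℝ} {w : ℝ → ℝ} {z : En 2} (hw : ContDiffAt ℝ ∞ w (z 1)) :
    ContDiffAt ℝ ∞ (E c w) z :=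
  (contDiffAt_const.mul (contDiffAt_apply ℝ ℝ 0 z)).exp.mul
    (hw.comp z (contDiffAt_apply ℝ ℝ 1 z))

theorem ee (r : ℝ) : Real.exp (-2 * r) * Real.exp (2 * r) = 1 := by
  rw [← Real.exp_add]
  simp

theorem ee' (r : ℝ) : Real.exp (-(2 * r)) * Real.exp (2 * r) = 1 := by
  rw [← Real.exp_add]
  simp

theorem pdn_cst {f : En 2 → ℝ} {z : En 2} {c : ℝ} (h : ∀ᶠ y in 𝓝 z, f y = c) (i : Fin 2) :
    pdn i f z = 0 := by
  rw [(pdn_congr (g := fun _ => c) h i).self_of_nhds]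
  simp [pdn]

theorem pdn_one {f : En 2 → ℝ} {w : ℝ → ℝ} {z : En 2} (h : ∀ᶠ y in 𝓝 z, f y = w (y 1))
    (hw : DifferentiableAt ℝ w (z 1)) : pdn 1 f z = deriv w (z 1) := by
  rw [(pdn_congr (g := E 0 w) (h.mono fun y hy => by simp [hy, E]) 1).self_of_nhds,
    (pdn_E hw.hasDerivAt).2]
  simp

/-- The cone over `k (n dX² + f dθ₀² + g dθ₁²)` in the chart `(log r, X)`. -/
noncomputable def blk (k : ℝ) (n f g : ℝ → ℝ) : Blk (En 2 → ℝ) :=
  ⟨E (-2) fun _ => 1, E 2 fun _ => 1, E (-2) fun x => (k * n x)⁻¹, E 2 fun x => k * n x,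
    E 2 fun x => k * f x, E (-2) fun x => (k * f x)⁻¹, E 2 fun x => k * g x,
    E (-2) fun x => (k * g x)⁻¹, 0, E 2 fun _ => -1 / 2, 0⟩

def Gd (f : ℝ → ℝ) : Prop := ∀ x ∈ Ioo (0 : ℝ) 1, ContDiffAt ℝ ∞ f x ∧ 0 < f x

theorem ev {z : En 2} (hz : z 1 ∈ Ioo (0 : ℝ) 1) : ∀ᶠ y : En 2 in 𝓝 z, y 1 ∈ Ioo (0 : ℝ) 1 :=
  (isOpen_Ioo.preimage (continuous_apply 1)).mem_nhds hz

theorem Gd.der {f : ℝ → ℝ} (h : Gd f) {x : ℝ} (hx : x ∈ Ioo (0 : ℝ) 1) (k : ℝ) :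
    HasDerivAt (fun x => k * f x) (k * deriv f x) x :=
  ((h x hx).1.differentiableAt (by simp)).hasDerivAt.const_mul k

theorem Gd.lg {f : ℝ → ℝ} (h : Gd f) {x : ℝ} (hx : x ∈ Ioo (0 : ℝ) 1) :
    DifferentiableAt ℝ (fun x => deriv f x / (2 * f x)) x :=
  ((((h x hx).1.fderiv_right (m := ∞) (by simp)).clm_apply contDiffAt_const).div
    (contDiffAt_const.mul (h x hx).1)
    (mul_pos two_pos (h x hx).2).ne').differentiableAt (by simp)

theorem Gd.tx {f : ℝ → ℝ} (h : Gd f) {k : ℝ} (hk : 0 < k) {z : En 2} (hz : z 1 ∈ Ioo (0 : ℝ) 1) :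
    pdn 0 (E 2 fun x => k * f x) z * E (-2) (fun x => (k * f x)⁻¹) z = 2 ∧
      pdn 1 (E 2 fun x => k * f x) z * E (-2) (fun x => (k * f x)⁻¹) z =
        2 * (deriv f (z 1) / (2 * f (z 1))) := by
  have := (h _ hz).2.ne'
  have := hk.ne'
  have e := ee' (z 0)
  rw [(pdn_E (h.der hz k)).1, (pdn_E (h.der hz k)).2]
  unfold E
  constructor <;> field_simp
  · linear_combination e
  · linear_combination deriv f (z 1) * e

section

variable {k : ℝ} {n f g : ℝ → ℝ} (hk : 0 < k) (hn : Gd n) (hf : Gd f) (hg : Gd g)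
include hk hn hf hg

theorem blk_ok {z : En 2} (hz : z 1 ∈ Ioo (0 : ℝ) 1) :
    (blk k n f g).All (fun u => ContDiffAt ℝ ∞ u z) ∧ ((blk k n f g).map fun u => u z).Ok := by
  have e := ee (z 0)
  have a : ∀ {f}, Gd f → ContDiffAt ℝ ∞ (fun x => k * f x) (z 1) := fun h =>
    contDiffAt_const.mul (h _ hz).1
  have b : ∀ {f}, Gd f → k * f (z 1) ≠ 0 := fun h => (mul_pos hk (h _ hz).2).ne'
  have c : ∀ {f}, Gd f → Real.exp (2 * z 0) * (k * f (z 1)) *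
      (Real.exp (-2 * z 0) * (k * f (z 1))⁻¹) = 1 := fun h => by
    linear_combination Real.exp (-2 * z 0) * Real.exp (2 * z 0) * mul_inv_cancel₀ (b h) + e
  refine ⟨⟨cd_E contDiffAt_const, cd_E contDiffAt_const, cd_E ((a hn).inv (b hn)), cd_E (a hn),
    cd_E (a hf), cd_E ((a hf).inv (b hf)), cd_E (a hg), cd_E ((a hg).inv (b hg)),
    contDiffAt_const, cd_E contDiffAt_const, contDiffAt_const⟩, ?_, ?_, c hf, c hg⟩
  · change Real.exp _ * 1 * (Real.exp _ * 1) = 1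
    linear_combination e
  · exact (mul_comm _ _).trans (c hn)

theorem blk_scal {z : En 2} (hz : z 1 ∈ Ioo (0 : ℝ) 1) :
    (blk k n f g).scal pdn z = Real.exp (-2 * z 0) * (linkScal n f g (z 1) / k - 6) := by
  set B := blk k n f g
  have T : ∀ u y, B.T pdn u y = pdn 0 u y := fun u y => by simp [Blk.T, B, blk]
  have ta : B.ta pdn z = -2 := by
    change B.T pdn (E (-2) fun _ => 1) z * E 2 (fun _ => 1) z = _
    rw [T, (pdn_E (hasDerivAt_const _ _)).1]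
    unfold E
    linear_combination -2 * ee (z 0)
  have l : ∀ y, B.l pdn y = 0 := fun y => by
    change (1 / 2 : ℝ) * (pdn 1 (E (-2) fun _ => 1) y * _) = _
    rw [(pdn_E (hasDerivAt_const _ _)).2]
    simp
  have cc : ∀ y : En 2, y 1 ∈ Ioo (0 : ℝ) 1 →
      B.j pdn y = -1 ∧ B.xc pdn y = -(deriv n (y 1) / n (y 1)) := fun y hy => by
    have h0 := (hn _ hy).2.ne'
    have := hk.ne'
    have d := pdn_E (c := -2) ((hn.der hy k).fun_inv (mul_ne_zero this h0))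
    have e := ee' (y 0)
    constructor
    · change (1 / 2 : ℝ) * (B.T pdn (E (-2) fun x => (k * n x)⁻¹) y * E 2 (fun x => k * n x) y) -
        pdn 1 0 y = _
      rw [T, d.1, pdn_cst (f := 0) (c := 0) (Eventually.of_forall fun _ => rfl)]
      unfold E
      field_simp
      linear_combination -e
    · change pdn 1 (E (-2) fun x => (k * n x)⁻¹) y * E 2 (fun x => k * n x) y = _
      rw [d.2]
      unfold E
      field_simp
      linear_combination -deriv n (y 1) * e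
  have t1 : ∀ y : En 2, y 1 ∈ Ioo (0 : ℝ) 1 → B.t₁ pdn y = 1 := fun y hy => by
    change (1 / 2 : ℝ) * (B.T pdn (E 2 fun x => k * f x) y * E (-2) (fun x => (k * f x)⁻¹) y) = _
    rw [T, (hf.tx hk hy).1]
    norm_num
  have t2 : ∀ y : En 2, y 1 ∈ Ioo (0 : ℝ) 1 → B.t₂ pdn y = 1 := fun y hy => by
    change (1 / 2 : ℝ) * (B.T pdn (E 2 fun x => k * g x) y * E (-2) (fun x => (k * g x)⁻¹) y) = _
    rw [T, (hg.tx hk hy).1]
    norm_num
  have x1 : ∀ y : En 2, y 1 ∈ Ioo (0 : ℝ) 1 →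
      B.x₁ pdn y = deriv f (y 1) / (2 * f (y 1)) := fun y hy => by
    change (1 / 2 : ℝ) * (pdn 1 (E 2 fun x => k * f x) y * E (-2) (fun x => (k * f x)⁻¹) y) = _
    rw [(hf.tx hk hy).2]
    ring
  have x2 : ∀ y : En 2, y 1 ∈ Ioo (0 : ℝ) 1 →
      B.x₂ pdn y = deriv g (y 1) / (2 * g (y 1)) := fun y hy => by
    change (1 / 2 : ℝ) * (pdn 1 (E 2 fun x => k * g x) y * E (-2) (fun x => (k * g x)⁻¹) y) = _
    rw [(hg.tx hk hy).2]
    ring
  have a : B.a z = Real.exp (-2 * z 0) := mul_one _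
  have C : B.C z = Real.exp (-2 * z 0) * (k * n (z 1))⁻¹ := rfl
  simp only [Blk.scal, Blk.K, Blk.k11, Blk.k22, Blk.k34, Blk.H11, Blk.H22, Pi.add_apply,
    Pi.mul_apply, Pi.sub_apply, Pi.neg_apply, Pi.smul_apply, Pi.pow_apply, Pi.ofNat_apply,
    smul_eq_mul, T, ta, l, (cc z hz).1, (cc z hz).2, t1 z hz, t2 z hz, x1 z hz, x2 z hz, a, C,
    pdn_cst ((ev hz).mono fun y hy => (cc y hy).1), pdn_cst (Eventually.of_forall l),
    pdn_cst ((ev hz).mono t1), pdn_cst ((ev hz).mono t2),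
    pdn_one (w := fun x => deriv f x / (2 * f x)) ((ev hz).mono x1) (hf.lg hz),
    pdn_one (w := fun x => deriv g x / (2 * g x)) ((ev hz).mono x2) (hg.lg hz), linkScal]
  have := (hn _ hz).2.ne'
  have := hk.ne'
  field_simp
  ring

end

noncomputable def rr (ν : ℝ) (ℓ : En 2) : ℝ :=
  (Real.log (ℓ 0 + ℓ 1) - Real.log (ν * (1 - (ℓ 0 + ℓ 1)))) / 2
noncomputable def XX (ℓ : En 2) : ℝ := ℓ 0 / (ℓ 0 + ℓ 1)
noncomputable def Ph (ν : ℝ) (ℓ : En 2) : En 2 := ![rr ν ℓ, XX ℓ]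
noncomputable def nm (ℓ : En 2) (i : Fin 2) : ℝ := ℓ i / (ℓ 0 + ℓ 1)

theorem fd_s (ℓ : En 2) : HasFDerivAt (fun ℓ : En 2 => ℓ 0 + ℓ 1)
    ((ContinuousLinearMap.proj 0 : En 2 →L[ℝ] ℝ) + ContinuousLinearMap.proj 1) ℓ :=
  (hasFDerivAt_apply (𝕜 := ℝ) (0 : Fin 2) ℓ).add (hasFDerivAt_apply (𝕜 := ℝ) (1 : Fin 2) ℓ)

section

variable {ν : ℝ} {ℓ : En 2} (hν : 0 < ν) (h : ℓ ∈ Int2)
include h

theorem s_pos : 0 < ℓ 0 + ℓ 1 ∧ 0 < 1 - (ℓ 0 + ℓ 1) :=
  ⟨add_pos h.1 h.2.1, by have := h.2.2; unfold τP at this; linarith⟩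

theorem XX_mem : XX ℓ ∈ Ioo (0 : ℝ) 1 :=
  ⟨div_pos h.1 (s_pos h).1, (div_lt_one (s_pos h).1).2 (by linarith [h.2.1])⟩

theorem nm_eq : nm ℓ = ![XX ℓ, 1 - XX ℓ] := by
  have := (s_pos h).1.ne'
  funext i
  fin_cases i
  · rfl
  · change ℓ 1 / _ = 1 - ℓ 0 / _
    field_simp
    ring

theorem pdn_XX : pdn 0 XX ℓ = ℓ 1 / (ℓ 0 + ℓ 1) ^ 2 ∧ pdn 1 XX ℓ = -(ℓ 0 / (ℓ 0 + ℓ 1) ^ 2) := by
  have h0 := (s_pos h).1.ne'
  have e : fderiv ℝ (fun ℓ : En 2 => ℓ 0 * (ℓ 0 + ℓ 1)⁻¹) ℓ = _ :=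
    ((hasFDerivAt_apply (𝕜 := ℝ) (0 : Fin 2) ℓ).mul
      ((hasDerivAt_inv h0).comp_hasFDerivAt ℓ (fd_s ℓ))).fderiv
  unfold pdn XX
  simp only [div_eq_mul_inv]
  rw [e]
  constructor
  · simp
    field_simp
    ring
  · simp

theorem cd_XX : ContDiffAt ℝ ∞ XX ℓ :=
  (contDiffAt_apply ℝ ℝ 0 ℓ).div ((contDiffAt_apply ℝ ℝ 0 ℓ).add (contDiffAt_apply ℝ ℝ 1 ℓ))
    (s_pos h).1.ne'

theorem δ_XX : δP 0 XX ℓ = (1 - XX ℓ) / (ℓ 0 + ℓ 1) ∧ δP 1 XX ℓ = -XX ℓ / (ℓ 0 + ℓ 1) := by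
  have h0 := (s_pos h).1.ne'
  unfold δP EP
  rw [(pdn_XX h).1, (pdn_XX h).2]
  unfold XX
  constructor <;> field_simp <;> ring

include hν

theorem pdn_rr (j : Fin 2) : pdn j (rr ν) ℓ = 1 / (2 * (ℓ 0 + ℓ 1) * (1 - (ℓ 0 + ℓ 1))) := by
  obtain ⟨h0, h1⟩ := s_pos h
  have d := (((hasDerivAt_id (ℓ 0 + ℓ 1)).log h0.ne').sub
    ((((hasDerivAt_id (ℓ 0 + ℓ 1)).const_sub 1).const_mul ν).log (mul_pos hν h1).ne')).div_const 2
  have e' := (HasDerivAt.comp_hasFDerivAt (f := fun ℓ : En 2 => ℓ 0 + ℓ 1) ℓ d (fd_s ℓ)).fderiv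
  have e : fderiv ℝ (rr ν) ℓ = _ := e'
  unfold pdn
  rw [e]
  fin_cases j <;> simp <;> field_simp <;> ring

theorem cd_rr : ContDiffAt ℝ ∞ (rr ν) ℓ := by
  have s := (contDiffAt_apply (n := ∞) ℝ ℝ 0 ℓ).add (contDiffAt_apply ℝ ℝ 1 ℓ)
  exact ((s.log (s_pos h).1.ne').sub ((contDiffAt_const.mul (contDiffAt_const.sub s)).log
    (mul_pos hν (s_pos h).2).ne')).div_const 2

theorem δ_rr (j : Fin 2) : δP j (rr ν) ℓ = 1 / (2 * (ℓ 0 + ℓ 1)) := by
  obtain ⟨h0, h1⟩ := s_pos h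
  unfold δP EP
  simp only [pdn_rr hν h]
  field_simp

theorem exp_rr : Real.exp (2 * rr ν ℓ) = (ℓ 0 + ℓ 1) / (ν * τP ℓ) := by
  obtain ⟨h0, h1⟩ := s_pos h
  unfold rr τP
  rw [mul_div_cancel₀ _ two_ne_zero, Real.exp_sub, Real.exp_log h0, Real.exp_log (mul_pos hν h1),
    sub_sub]

end

variable (ν k : ℝ) (p : Fin 2 → En 2 → ℝ) (q : Fin 2 → Fin 2 → En 2 → ℝ)

noncomputable def p' (i : Fin 2) (ℓ : En 2) : ℝ := k * p i (nm ℓ)
noncomputable def q' (i j : Fin 2) (ℓ : En 2) : ℝ :=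
  (k * q i j (nm ℓ) + ν * (1 - k * (p 0 (nm ℓ) + 4 / ν * ∑ i, nm ℓ i * q i 0 (nm ℓ))) / 4) /
    (ℓ 0 + ℓ 1)

variable {ν k p q}

theorem rel {e : ℝ} {ℓ : En 2} (hν : 0 < ν) (h : ℓ ∈ Int2) (hq : ∀ i j, q i j = q j i)
    (he : EigOK ν p q e (XX ℓ)) :
    Rel ν (p' k p) (q' ν k p q) 0 (blk k (nL ν p q) (fun x => p 0 ![x, 1 - x] * x)
      fun x => p 1 ![x, 1 - x] * (1 - x)) (Ph ν) 0 ℓ := by
  obtain ⟨h0, h1⟩ := s_pos h
  obtain ⟨a, -, ha⟩ := he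
  have e0 : (Ph ν · 0) = rr ν := rfl
  have e1 : (Ph ν · 1) = XX := rfl
  have ex := exp_rr hν h
  have t := h.2.2.ne'
  have hX := (XX_mem h).1.ne'
  have hX' := (sub_pos.2 (XX_mem h).2).ne'
  have l0 : ℓ 0 = XX ℓ * (ℓ 0 + ℓ 1) := by
    unfold XX
    field_simp
  have l1 : ℓ 1 = (1 - XX ℓ) * (ℓ 0 + ℓ 1) := by linear_combination -l0
  refine ⟨fun i j => ?_, ?_, ?_, ?_, ?_⟩
  · change _ = ν ^ 2 * τP ℓ * (_ * _ * (Real.exp (2 * rr ν ℓ) * 1) + (_ - 0 * _) * (_ - 0 * _) *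
      (Real.exp (2 * rr ν ℓ) * (k * nL ν p q (XX ℓ))))
    have a0 := ha 0
    have a1 := ha 1
    have l : ∀ i, ℓ i = ![XX ℓ, 1 - XX ℓ] i * (ℓ 0 + ℓ 1) := Fin.forall_fin_two.2 ⟨l0, l1⟩
    have d : ∀ i, δP i XX ℓ = ![1 - XX ℓ, -XX ℓ] i / (ℓ 0 + ℓ 1) :=
      Fin.forall_fin_two.2 (δ_XX h)
    rw [e0, e1, ex, δ_rr hν h, δ_rr hν h, d, d, l i]
    unfold p' q' nL
    rw [nm_eq h, Fin.sum_univ_two]
    rw [hq 1 0] at a0
    generalize ℓ 0 + ℓ 1 = s at *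
    generalize XX ℓ = X at *
    have := hν.ne'
    have := h0.ne'
    have b : ν * p 0 ![X, 1 - X] + 4 * (X * q 0 0 ![X, 1 - X] + (1 - X) * q 0 1 ![X, 1 - X]) =
        ν * p 1 ![X, 1 - X] + 4 * (X * q 0 1 ![X, 1 - X] + (1 - X) * q 1 1 ![X, 1 - X]) := by
      have := a0.trans a1.symm
      field_simp at this
      linear_combination this
    fin_cases i <;> fin_cases j <;> simp [hq 1 0] <;> field_simp
    · linear_combination 4 * k * X * (1 - X) * b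
    · linear_combination -4 * k * X * b
    · linear_combination -4 * k * X * b
    · linear_combination -4 * k * (1 - X ^ 2) * b
  · change Real.exp (2 * rr ν ℓ) * (k * (p 0 ![XX ℓ, 1 - XX ℓ] * XX ℓ)) = k * p 0 (nm ℓ) * ℓ 0 / _
    rw [ex, nm_eq h]
    field_simp
    linear_combination -p 0 ![XX ℓ, 1 - XX ℓ] * k * l0
  · change Real.exp (2 * rr ν ℓ) * (k * (p 1 ![XX ℓ, 1 - XX ℓ] * (1 - XX ℓ))) =
      k * p 1 (nm ℓ) * ℓ 1 / _
    rw [ex, nm_eq h]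
    field_simp
    linear_combination -p 1 ![XX ℓ, 1 - XX ℓ] * k * l1
  · change _ = Real.exp (-2 * rr ν ℓ) * 1 * (Real.exp (2 * rr ν ℓ) * (-1 / 2))
    rw [e0, Fin.sum_univ_two, δ_rr hν h, δ_rr hν h, mul_one, ← mul_assoc, ee]
    simp only [Pi.zero_apply]
    field_simp
    ring
  · change _ = 0 * _ + _ * (0 : ℝ)
    rw [e1, Fin.sum_univ_two, (δ_XX h).1, (δ_XX h).2]
    simp only [Pi.zero_apply]
    field_simp
    linear_combination -l0

theorem nsq_eq (y : Pt) : nsq y = sY y 0 + sY y 1 := by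
  simp [nsq, sY, Fin.sum_univ_four, add_assoc]

theorem sY_nn (y : Pt) (i : Fin 2) : 0 ≤ sY y i := by
  fin_cases i <;> simp only [sY] <;> simp <;> positivity

theorem nsq_nn (y : Pt) : 0 ≤ nsq y := Finset.sum_nonneg fun _ _ => sq_nonneg _

theorem nsq_pos {y : Pt} (hy : y ≠ 0) : 0 < nsq y :=
  (nsq_nn y).lt_of_ne fun h => hy <| funext fun i => pow_eq_zero_iff two_ne_zero |>.1 <|
    (Finset.sum_eq_zero_iff_of_nonneg fun _ _ => sq_nonneg _).1 h.symm i (Finset.mem_univ i)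

theorem lI_eq {y : Pt} (hy : y ≠ 0) : lI y = ![lI y 0, 1 - lI y 0] ∧ lI y 0 ∈ Icc (0 : ℝ) 1 := by
  have h := nsq_pos hy
  refine ⟨funext fun i => ?_, div_nonneg (sY_nn y 0) h.le,
    (div_le_one h).2 (by linarith [nsq_eq y, sY_nn y 1])⟩
  fin_cases i
  · rfl
  · change sY y 1 / _ = 1 - sY y 0 / _
    field_simp
    linarith [nsq_eq y]

theorem s_lY (y : Pt) : lY ν y 0 + lY ν y 1 = ν * nsq y / (1 + ν * nsq y) := by
  unfold lY
  rw [← add_div, ← mul_add, ← nsq_eq]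

theorem τ_lY (hν : 0 < ν) (y : Pt) : τP (lY ν y) = 1 / (1 + ν * nsq y) := by
  have : 0 < 1 + ν * nsq y := by have := nsq_nn y; positivity
  unfold τP
  rw [sub_sub, s_lY]
  field_simp
  ring

theorem nm_lY (hν : 0 < ν) (y : Pt) : nm (lY ν y) = lI y := by
  have : 0 < 1 + ν * nsq y := by have := nsq_nn y; positivity
  funext i
  unfold nm
  rw [s_lY]
  unfold lY lI
  rw [div_div_div_cancel_right₀ this.ne', mul_div_mul_left _ _ hν.ne']

theorem γ_app (y : Pt) (a b : Fin 4) :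
    γZ ν p q k y a b = k * gI ν p q y a b + (1 - k * aI ν p q y) * (y a * y b / nsq y) := by
  simp only [γZ, dI, Matrix.add_apply, Matrix.of_apply]
  ring

theorem γ_eq (hν : 0 < ν) : γZ ν p q k = gZ ν (p' k p) (q' ν k p q) := by
  funext y
  ext a b
  have : 0 < 1 + ν * nsq y := by have := nsq_nn y; positivity
  rw [γ_app]
  simp only [gI, gZ, aI, p', q', Matrix.of_apply, nm_lY hν, s_lY, τ_lY hν]
  rcases eq_or_ne (nsq y) 0 with h | h
  · split_ifs <;> simp [h]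
  · split_ifs <;> field_simp <;> ring

theorem lY_mem (hν : 0 < ν) {y : Pt} (hy : y ∈ Dn) : lY ν y ∈ Int2 := by
  have : 0 < 1 + ν * nsq y := by have := nsq_nn y; positivity
  refine ⟨div_pos (mul_pos hν ((sY_nn y 0).lt_of_ne' hy.1)) this,
    div_pos (mul_pos hν ((sY_nn y 1).lt_of_ne' hy.2)) this, ?_⟩
  rw [τ_lY hν]
  positivity

theorem open_Int2 : IsOpen Int2 :=
  (isOpen_lt continuous_const (continuous_apply 0)).inter
    ((isOpen_lt continuous_const (continuous_apply 1)).inter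
      (isOpen_lt continuous_const (show Continuous τP by unfold τP; fun_prop)))

theorem seg_mem {ε X : ℝ} (hε : 0 < ε) (hX : X ∈ Icc (0 : ℝ) 1) : ![X, 1 - X] ∈ Dz ε := by
  have := pow_pos hε 2
  refine ⟨?_, ?_, ?_⟩ <;> simp [τP] <;> linarith [hX.1, hX.2]

theorem cd_seg {f : En 2 → ℝ} {X : ℝ} (hf : ContDiffAt ℝ ∞ f ![X, 1 - X]) :
    ContDiffAt ℝ ∞ (fun x => f ![x, 1 - x]) X :=
  hf.comp (f := fun x : ℝ => (![x, 1 - x] : En 2)) X (contDiffAt_pi.2 (Fin.forall_fin_two.2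
    ⟨contDiffAt_id, contDiffAt_const.sub contDiffAt_id⟩))

theorem scal_nn (c1 : Ct1Stmt) {ε e : ℝ} (hε : 0 < ε) (hν : 0 < ν) (hk : 0 < k)
    (hs : ∀ ℓ ∈ Dz ε, (∀ w, ContDiffAt ℝ ∞ (p w) ℓ) ∧ ∀ i j, ContDiffAt ℝ ∞ (q i j) ℓ)
    (hq : ∀ i j, q i j = q j i) (he : ∀ X ∈ Icc (0 : ℝ) 1, EigOK ν p q e X)
    (hl : ∀ X ∈ Ioo (0 : ℝ) 1, LinkOK ν p q (6 * k) X) {y : Pt} (hy : y ∈ Dn) :
    0 ≤ Scal (γZ ν p q k) y := by
  have P := fun x (hx : x ∈ Ioo (0 : ℝ) 1) w =>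
    cd_seg ((hs _ (seg_mem hε (Ioo_subset_Icc_self hx))).1 w)
  have Q := fun x (hx : x ∈ Ioo (0 : ℝ) 1) i j =>
    cd_seg ((hs _ (seg_mem hε (Ioo_subset_Icc_self hx))).2 i j)
  have hn : Gd (nL ν p q) := fun x hx => ⟨(((P x hx 0).div (contDiffAt_const.mul contDiffAt_id)
    (mul_pos four_pos hx.1).ne').add ((P x hx 1).div (contDiffAt_const.mul
      (contDiffAt_const.sub contDiffAt_id)) (mul_pos four_pos (sub_pos.2 hx.2)).ne')).add
    ((((Q x hx 0 0).sub (contDiffAt_const.mul (Q x hx 0 1))).add (Q x hx 1 1)).div_const ν),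
    (hl x hx).1⟩
  have hf : Gd fun x => p 0 ![x, 1 - x] * x := fun x hx =>
    ⟨(P x hx 0).mul contDiffAt_id, mul_pos ((hl x hx).2.1 0) hx.1⟩
  have hg : Gd fun x => p 1 ![x, 1 - x] * (1 - x) := fun x hx =>
    ⟨(P x hx 1).mul (contDiffAt_const.sub contDiffAt_id),
      mul_pos ((hl x hx).2.1 1) (sub_pos.2 hx.2)⟩
  have hm := lY_mem hν hy
  have hX : Ph ν (lY ν y) 1 ∈ Ioo (0 : ℝ) 1 := XX_mem hm
  have h := (c1 ν (p' k p) (q' ν k p q) 0 _ (Ph ν) 0 y hν hy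
    (fun i j => funext fun ℓ => by unfold q'; rw [hq i j])
    ((open_Int2.eventually_mem hm).mono fun ℓ h =>
      ⟨rel hν h hq (he _ (Ioo_subset_Icc_self (XX_mem h))),
        Fin.forall_fin_two.2 ⟨cd_rr hν h, cd_XX h⟩⟩) ?_
    ((ev hX).mono fun z hz => blk_ok hk hn hf hg hz) (mul_pos (Real.exp_pos _) one_pos)
    (mul_pos (Real.exp_pos _) (inv_pos.2 (mul_pos hk (hn _ hX).2)))
    (mul_pos (Real.exp_pos _) (mul_pos hk (hf _ hX).2))
    (mul_pos (Real.exp_pos _) (mul_pos hk (hg _ hX).2))).1.scal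
  · rw [γ_eq hν, h, blk_scal hk hn hf hg hX]
    exact mul_nonneg (Real.exp_pos _).le (sub_nonneg.2 ((le_div_iff₀ hk).2 (hl _ hX).2.2))
  · change pdn 0 (rr ν) _ * pdn 1 XX _ - pdn 1 (rr ν) _ * pdn 0 XX _ ≠ 0
    obtain ⟨h0, h1⟩ := s_pos hm
    have := hm.1
    have := hm.2.1
    rw [pdn_rr hν hm, pdn_rr hν hm, (pdn_XX hm).1, (pdn_XX hm).2, mul_neg, ← neg_add']
    exact neg_ne_zero.2 (by positivity)

theorem eig {e : ℝ} (hq : ∀ i j, q i j = q j i) (he : ∀ X ∈ Icc (0 : ℝ) 1, EigOK ν p q e X)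
    {y : Pt} (hy : y ≠ 0) :
    |aI ν p q y - 1| ≤ e ∧ ∀ a, ∑ b, gI ν p q y a b * y b = aI ν p q y * y a := by
  obtain ⟨h1, h2⟩ := lI_eq hy
  obtain ⟨A, hA, h⟩ := he _ h2
  rw [← h1] at h
  have l1 : lI y 1 = 1 - lI y 0 := congrFun h1 1
  have e0 : aI ν p q y = A := by
    rw [← h 0, aI, Fin.sum_univ_two, l1]
  rw [e0]
  refine ⟨hA, fun a => ?_⟩
  rw [← h (bl a), ← l1, hq 0, hq 1]
  simp only [gI, Matrix.of_apply, add_mul, Finset.sum_add_distrib, ite_mul, zero_mul,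
    Finset.sum_ite_eq, Finset.mem_univ, if_true]
  simp only [Fin.sum_univ_four, lI, sY, bl]
  simp
  ring

theorem cd_lI {y : Pt} (hy : y ≠ 0) : ContDiffAt ℝ ∞ lI y := by
  have n : ContDiffAt ℝ ∞ nsq y := by
    unfold nsq
    fun_prop
  refine contDiffAt_pi.2 (Fin.forall_fin_two.2 ⟨ContDiffAt.div ?_ n (nsq_pos hy).ne',
    ContDiffAt.div ?_ n (nsq_pos hy).ne'⟩)
  · change ContDiffAt ℝ ∞ (fun y : Pt => y 0 ^ 2 + y 1 ^ 2) y
    fun_prop
  · change ContDiffAt ℝ ∞ (fun y : Pt => y 2 ^ 2 + y 3 ^ 2) y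
    fun_prop

theorem qf_split {G : Mat} {y : Pt} {A : ℝ} (hs : ∀ a b, G a b = G b a)
    (h : ∀ a, ∑ b, G a b * y b = A * y a) (ξ : Pt) (t : ℝ) :
    qf G (ξ - t • y) = qf G ξ - 2 * t * A * ∑ a, ξ a * y a + t ^ 2 * A * nsq y := by
  have h0 := h 0
  have h1 := h 1
  have h2 := h 2
  have h3 := h 3
  simp only [qf, nsq, Fin.sum_univ_four, Pi.sub_apply, Pi.smul_apply, smul_eq_mul, hs 1 0, hs 2 0,
    hs 3 0, hs 2 1, hs 3 1, hs 3 2] at *
  linear_combination (t ^ 2 * y 0 - 2 * t * ξ 0) * h0 + (t ^ 2 * y 1 - 2 * t * ξ 1) * h1 +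
    (t ^ 2 * y 2 - 2 * t * ξ 2) * h2 + (t ^ 2 * y 3 - 2 * t * ξ 3) * h3

theorem isCone {ε c e : ℝ} (hε : 0 < ε) (hk : 0 < k) (hc : 0 < c)
    (hs : ∀ ℓ ∈ Dz ε, (∀ w, ContDiffAt ℝ ∞ (p w) ℓ) ∧ ∀ i j, ContDiffAt ℝ ∞ (q i j) ℓ)
    (hq : ∀ i j, q i j = q j i) (he : ∀ X ∈ Icc (0 : ℝ) 1, EigOK ν p q e X)
    (hp : ∀ y, y ≠ 0 → ∀ ξ, c * nsq ξ ≤ qf (gI ν p q y) ξ) : IsCone (γZ ν p q k) := by
  have sy : ∀ y a b, gI ν p q y a b = gI ν p q y b a := fun y a b => by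
    simp only [gI, Matrix.of_apply, hq (bl a), mul_comm (y a)]
    rcases eq_or_ne a b with rfl | h
    · rfl
    · rw [if_neg h, if_neg h.symm]
  refine ⟨⟨fun a b y hy => ContDiffAt.contDiffWithinAt ?_, fun y hy => ?_⟩,
    fun y hy => ⟨fun t ht => ?_, funext fun a => ?_⟩⟩
  · have hm : lI y ∈ Dz ε := by
      rw [(lI_eq hy).1]
      exact seg_mem hε (lI_eq hy).2
    have L := cd_lI hy
    have P := fun w => ((hs _ hm).1 w).comp y L
    have Q := fun i j => ((hs _ hm).2 i j).comp y L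
    have Y : ContDiffAt ℝ ∞ (fun y : Pt => y a * y b / nsq y) y :=
      ContDiffAt.div (by fun_prop) (by unfold nsq; fun_prop) (nsq_pos hy).ne'
    simp only [γ_app]
    refine (contDiffAt_const.mul (ContDiffAt.add ?_ ((contDiffAt_const.mul (Q _ _)).mul Y))).add
      ((contDiffAt_const.sub (contDiffAt_const.mul ((P 0).add (contDiffAt_const.mul
        (ContDiffAt.sum fun i _ => (contDiffAt_pi.1 L i).mul (Q i 0)))))).mul Y)
    split_ifs
    exacts [P _, contDiffAt_const]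
  · refine Matrix.PosDef.of_dotProduct_mulVec_pos (Matrix.IsHermitian.ext fun a b => by
      rw [star_trivial, γ_app, γ_app, sy, mul_comm (y b)]) fun ξ hξ => ?_
    have hn := nsq_pos hy
    obtain ⟨t, ht⟩ : ∃ t, ∑ a, ξ a * y a = t * nsq y := ⟨_, (div_mul_cancel₀ _ hn.ne').symm⟩
    have h1 := qf_split (sy y) (eig hq he hy).2 ξ t
    have h2 := hp y hy (ξ - t • y)
    have h3 : star ξ ⬝ᵥ (γZ ν p q k y).mulVec ξ = k * qf (gI ν p q y) ξ +
        (1 - k * aI ν p q y) * (∑ a, ξ a * y a) ^ 2 / nsq y := by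
      simp only [star_trivial, dotProduct, Matrix.mulVec, γ_app, qf, Fin.sum_univ_four]
      ring
    have h4 : star ξ ⬝ᵥ (γZ ν p q k y).mulVec ξ =
        k * qf (gI ν p q y) (ξ - t • y) + t ^ 2 * nsq y := by
      rw [h3, h1, ht]
      field_simp
      ring
    rw [h4]
    rcases eq_or_ne t 0 with rfl | h0
    · rw [zero_smul, sub_zero] at h2 ⊢
      have := mul_pos hk ((mul_pos hc (nsq_pos hξ)).trans_le h2)
      linarith
    · exact add_pos_of_nonneg_of_pos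
        (mul_nonneg hk.le ((mul_nonneg hc.le (nsq_nn _)).trans h2)) (by positivity)
  · have h1 : nsq (t • y) = t ^ 2 * nsq y := by
      simp only [nsq, Pi.smul_apply, smul_eq_mul, mul_pow, Finset.mul_sum]
    have h2 : lI (t • y) = lI y := funext fun i => by
      have : sY (t • y) i = t ^ 2 * sY y i := by
        fin_cases i <;> simp [sY] <;> ring
      unfold lI
      rw [this, h1, mul_div_mul_left _ _ (pow_pos ht 2).ne']
    have h3 : ∀ a b, (t • y) a * (t • y) b / nsq (t • y) = y a * y b / nsq y := fun a b => by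
      rw [h1, ← mul_div_mul_left (y a * y b) _ (pow_pos ht 2).ne']
      simp only [Pi.smul_apply, smul_eq_mul]
      ring
    ext a b
    simp only [γ_app, gI, aI, Matrix.of_apply, h2, h3]
  · have hn := (nsq_pos hy).ne'
    have h1 := (eig hq he hy).2 a
    have h2 : nsq y = y 0 ^ 2 + y 1 ^ 2 + y 2 ^ 2 + y 3 ^ 2 := by simp [nsq, Fin.sum_univ_four]
    simp only [Matrix.mulVec, dotProduct, γ_app, Fin.sum_univ_four] at h1 ⊢
    linear_combination k * h1 + (1 - k * aI ν p q y) * y a * mul_inv_cancel₀ hn -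
      (1 - k * aI ν p q y) * y a * (nsq y)⁻¹ * h2

end Cone

theorem cone (c1 : Ct1Stmt) : ConeStmt := fun _ _ _ _ _ _ _ hε hν hk hc hs hq he hl hp =>
  ⟨Cone.isCone hε hk hc hs hq he hp, fun _ hy => Cone.scal_nn c1 hε hν hk hs hq he hl hy,
    fun _ hy => (Cone.eig hq he hy).1⟩

end Pool.Agent.Lib.MP_df9110_gt
end

-- part Pool.Agent.Lib.MP_df9110_gt.Cons
section

/-! The approximate solutions satisfy the hypotheses of the perturbation theorem. -/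

namespace Pool.Agent.Lib.MP_df9110_gt

open Filter Topology Set
open scoped ContDiff

namespace Cons

theorem ev_of {P : ℕ → ℝ → Prop} (h : ∀ N, ∀ᶠ ε in 𝓝[>] (0 : ℝ), P N ε) :
    ∀ᶠ i in lN, P i.1 i.2 := eventually_curry_iff.2 (Eventually.of_forall h)

theorem neBot : lN.NeBot := ⟨fun h => by
  have : ∀ᶠ i in lN, False := by rw [h]; exact eventually_bot
  obtain ⟨N, hN⟩ := (eventually_curry_iff.1 this).exists
  exact hN.exists.elim fun _ => id⟩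

theorem ev_eps (A : ℝ) {b : ℝ} (hb : 0 < b) : ∀ᶠ ε in 𝓝[>] (0 : ℝ), 0 < ε ∧ A * ε ≤ b := by
  have : ContinuousAt (fun ε : ℝ => A * ε) 0 := by fun_prop
  filter_upwards [self_mem_nhdsWithin, (this.eventually_lt continuousAt_const
    (by simpa using hb)).filter_mono nhdsWithin_le_nhds] with ε h1 h2 using ⟨h1, h2.le⟩

theorem ev_small (A : ℕ → ℝ) {b : ℝ} (hb : 0 < b) : ∀ᶠ i in lN, 0 < i.2 ∧ A i.1 * i.2 ≤ b :=
  ev_of fun N => ev_eps (A N) hb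

theorem two_le (i : ℕ × ℝ) : 2 ≤ ΛN i := le_max_left _ _

theorem Λ_pos (i : ℕ × ℝ) : 0 < ΛN i := two_pos.trans_le (two_le i)

theorem one_le (i : ℕ × ℝ) (m : ℕ) : 1 ≤ ΛN i ^ m := one_le_pow₀ (one_le_two.trans (two_le i))

theorem small (A : ℕ → ℝ) (m p : ℕ) :
    ∀ᶠ i in lN, A i.1 * i.2 ^ i.1 * ΛN i ^ m ≤ (ΛN i ^ p)⁻¹ := by
  refine eventually_curry_iff.2 ?_
  filter_upwards [eventually_ge_atTop (m + p + 1)] with N hN
  obtain ⟨j, rfl⟩ := Nat.exists_eq_add_of_le hN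
  filter_upwards [ev_eps (A (m + p + 1 + j)) one_pos, ev_eps 2 one_pos] with ε ⟨h0, h1⟩ ⟨_, h2⟩
  have e : ΛN (m + p + 1 + j, ε) = ε⁻¹ :=
    max_eq_right (by rw [le_inv_comm₀ two_pos h0]; linarith)
  have h3 : ε ^ j ≤ 1 := pow_le_one₀ h0.le (by linarith)
  rw [e, inv_pow, inv_pow, inv_inv]
  calc A (m + p + 1 + j) * ε ^ (m + p + 1 + j) * (ε ^ m)⁻¹
      = A (m + p + 1 + j) * ε * ε ^ j * ε ^ p := by field_simp; ring
    _ ≤ 1 * ε ^ p := by
      gcongr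
      nlinarith [pow_pos h0 j]
    _ = ε ^ p := one_mul _

theorem lowb (l0 : L0Facts) {a : ℝ} (ha : 0 < a) (j m : ℕ) :
    ∃ p : ℕ, ∀ i : ℕ × ℝ, 0 < i.2 → (ΛN i ^ p)⁻¹ ≤ a * i.2 ^ j / ΛN i ^ m := by
  obtain ⟨p, hp⟩ := l0.absorb a⁻¹ (j + m)
  refine ⟨p, fun i hi => ?_⟩
  have h1 := Λ_pos i
  have h2 : (i.2 ^ j)⁻¹ ≤ ΛN i ^ j := by
    rw [← inv_pow]; exact pow_le_pow_left₀ (by positivity) (le_max_right _ _) j
  rw [inv_le_comm₀ (by positivity) (by positivity)]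
  refine le_trans ?_ (hp _ (two_le i))
  rw [inv_div, div_eq_mul_inv, mul_inv, pow_add, mul_comm, mul_assoc]
  gcongr

theorem nsq_eq (y : Pt) : nsq y = sY y 0 + sY y 1 := by
  simp only [nsq, Fin.sum_univ_four, sY, Matrix.cons_val_zero, Matrix.cons_val_one]
  ring

theorem sY_nonneg (y : Pt) (i : Fin 2) : 0 ≤ sY y i := by
  fin_cases i <;> simp only [sY] <;> simp <;> positivity

theorem nsq_nonneg (y : Pt) : 0 ≤ nsq y := Finset.sum_nonneg fun _ _ => sq_nonneg _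

theorem nsq_pos {y : Pt} (h : y ≠ 0) : 0 < nsq y := by
  obtain ⟨i, hi⟩ := Function.ne_iff.1 h
  exact Finset.sum_pos' (fun _ _ => sq_nonneg _) ⟨i, Finset.mem_univ _, sq_pos_of_ne_zero hi⟩

variable {ν : ℝ} {y : Pt}

theorem tau_eq (hν : 0 < ν) (y : Pt) : τP (lY ν y) = (1 + ν * nsq y)⁻¹ := by
  have := nsq_nonneg y
  simp only [τP, lY]
  field_simp
  rw [nsq_eq]
  ring

theorem tau_pos (hν : 0 < ν) (y : Pt) : 0 < τP (lY ν y) := by
  have := nsq_nonneg y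
  rw [tau_eq hν]
  positivity

theorem tau_le_one (hν : 0 < ν) (y : Pt) : τP (lY ν y) ≤ 1 := by
  have := nsq_nonneg y
  rw [tau_eq hν]
  exact inv_le_one_of_one_le₀ (by nlinarith)

theorem wt_two (y : Pt) : wt (-2) y = (1 + nsq y)⁻¹ := by
  rw [wt, show (-2 / 2 : ℝ) = -1 by norm_num, Real.rpow_neg_one]

theorem wt_le (hν : 0 < ν) (h1 : ν ≤ 1) (y : Pt) :
    wt (-2) y ≤ τP (lY ν y) ∧ τP (lY ν y) ≤ ν⁻¹ * wt (-2) y := by
  have := nsq_nonneg y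
  rw [tau_eq hν, wt_two, ← mul_inv]
  constructor <;> refine inv_anti₀ (by positivity) ?_ <;> nlinarith

theorem lY_nonneg (hν : 0 < ν) (y : Pt) (i : Fin 2) : 0 ≤ lY ν y i := by
  have := nsq_nonneg y
  have := sY_nonneg y i
  unfold lY
  positivity

theorem lY_Nb (hν : 0 < ν) (y : Pt) : lY ν y ∈ Nb 0 :=
  ⟨by simpa using lY_nonneg hν y 0, by simpa using lY_nonneg hν y 1,
    by simpa using (tau_pos hν y).le⟩

theorem lY_Int (hν : 0 < ν) (hy : y ∈ Dn) : lY ν y ∈ Int2 := by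
  have := nsq_nonneg y
  have h0 : 0 < sY y 0 := (sY_nonneg y 0).lt_of_ne' hy.1
  have h1 : 0 < sY y 1 := (sY_nonneg y 1).lt_of_ne' hy.2
  refine ⟨?_, ?_, tau_pos hν y⟩ <;> unfold lY <;> positivity

theorem lY_le (hν : 0 < ν) (y : Pt) (i : Fin 2) : lY ν y i ≤ ν * nsq y := by
  have h0 := sY_nonneg y 0
  have h1 := sY_nonneg y 1
  have h2 : sY y i ≤ nsq y := by
    rw [nsq_eq]
    fin_cases i
    · exact le_add_of_nonneg_right h1
    · exact le_add_of_nonneg_left h0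
  have h3 := nsq_nonneg y
  exact (div_le_self (mul_nonneg hν.le (sY_nonneg y i)) (by nlinarith)).trans (by gcongr)

theorem lI_mem {ε : ℝ} (he : 0 < ε) (hy : y ≠ 0) : lI y ∈ Dz ε ∧ τP (lI y) = 0 := by
  have h := nsq_pos hy
  have h0 : τP (lI y) = 0 := by
    simp only [τP, lI]
    field_simp
    rw [nsq_eq]
    ring
  have h1 : ∀ i, -ε ^ 2 < lI y i := fun i =>
    (neg_lt_zero.2 (by positivity)).trans_le (div_nonneg (sY_nonneg y i) h.le)
  exact ⟨⟨h1 0, h1 1, by rw [h0]; exact neg_lt_zero.2 (by positivity)⟩, h0⟩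

theorem Nb_mono {ρ : ℝ} (h : 0 < ρ) : Nb 0 ⊆ Nb ρ := fun _ hl =>
  ⟨by linarith [hl.1], by linarith [hl.2.1], by linarith [hl.2.2]⟩

theorem bounds {f : En 2 → ℝ} (h : ∀ ℓ ∈ Nb 0, ContDiffAt ℝ ∞ f ℓ ∧ 0 < f ℓ) :
    ∃ a b : ℝ, 0 < a ∧ 0 < b ∧ ∀ ℓ ∈ Nb 0, a ≤ f ℓ ∧ f ℓ ≤ b := by
  have hK : IsCompact (Nb 0) := by
    refine (isCompact_Icc (a := (0 : En 2)) (b := 1)).of_isClosed_subset
      ((isClosed_le continuous_const (continuous_apply 0)).inter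
        ((isClosed_le continuous_const (continuous_apply 1)).inter
          (isClosed_le continuous_const (show Continuous τP by unfold τP; fun_prop)))) fun ℓ ⟨h0, h1, h2⟩ => ?_
    simp only [τP, neg_zero] at h0 h1 h2
    constructor <;> intro i <;> fin_cases i <;> simp <;> linarith
  have hc : ContinuousOn f (Nb 0) := fun ℓ hl => (h ℓ hl).1.continuousAt.continuousWithinAt
  obtain ⟨a, ha, ha'⟩ := hK.exists_forall_le' hc fun ℓ hl => (h ℓ hl).2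
  obtain ⟨b, hb⟩ := hK.exists_bound_of_continuousOn hc
  exact ⟨a, max b 1, ha, one_pos.trans_le (le_max_right _ _), fun ℓ hl => ⟨ha' ℓ hl,
    ((le_abs_self _).trans (hb ℓ hl)).trans (le_max_left _ _)⟩⟩

theorem reg_const (b1 : B1Stmt) {f : En 2 → ℝ} (h : PB lz 1 1 fun _ => f) : Reg fun _ => f := by
  refine ⟨h.1, fun k => ?_⟩
  obtain ⟨C, hC⟩ := h.2 k
  refine ⟨|C|, ?_⟩
  have h1 : ∀ᶠ z in lz, 1 ≤ z.1⁻¹ := ev_fam.2 (by
    filter_upwards [ev_eps 1 one_pos] with ε ⟨h0, h1⟩ _ _ using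
      (one_le_inv₀ h0).2 (by linarith))
  filter_upwards [hC, h1] with z h2 h3
  refine (b1 2).mono h2 zero_le_one h3 ?_
  have h4 : 1 ≤ |z.1⁻¹ ^ 3| := (one_le_pow₀ h3).trans (le_abs_self _)
  simp only [Pi.one_apply, abs_one, mul_one]
  nlinarith [le_abs_self C, abs_nonneg C]

theorem reg_sm {F : ℝ → En 2 → ℝ} (h : Reg F) :
    ∀ᶠ ε in 𝓝[>] (0 : ℝ), ∀ ℓ ∈ Dz ε, ContDiffAt ℝ ∞ (F ε) ℓ :=
  (ev_fam (P := fun z => ContDiffAt ℝ ∞ (F z.1) z.2)).1 h.1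

theorem mod_congr {I : Type} {l : Filter I} {Λ : I → ℝ} {m : ℝ} {F G : I → Pt → ℝ}
    (h : Mod l Λ m F) (e : ∀ᶠ i in l, F i = G i) : Mod l Λ m G := by
  refine ⟨by filter_upwards [h.1, e] with i h1 h2 using h2 ▸ h1, fun k => ?_⟩
  obtain ⟨h1, p, h2⟩ := h.2 k
  exact ⟨by filter_upwards [h1, e] with i h1 h2 using h2 ▸ h1, p,
    by filter_upwards [h2, e] with i h1 h2 using h2 ▸ h1⟩

theorem mod_inv {I : Type} {l : Filter I} {Λ : I → ℝ} (hΛ : ∀ i, 2 ≤ Λ i) (M : M0Facts l Λ)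
    {u : I → Pt → ℝ} (h : Mod l Λ 0 u) (hu : ∀ᶠ i in l, ∀ y, 1 / 2 ≤ u i y) :
    Mod l Λ 0 fun i y => (u i y)⁻¹ := by
  have k := (M.inv (fun i y => Matrix.diagonal fun _ => u i y)
    ⟨fun i y => Matrix.isSymm_diagonal _, 1, by
      filter_upwards [hu] with i hi y ξ
      have e : qf (Matrix.diagonal fun _ : Fin 4 => u i y) ξ = u i y * nsq ξ := by
        simp [qf, nsq, Matrix.diagonal_apply, Finset.mul_sum, sq]
      rw [e, pow_one]
      refine mul_le_mul_of_nonneg_right (le_trans ?_ (hi y)) (nsq_nonneg ξ)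
      rw [one_div]
      exact inv_anti₀ two_pos (hΛ i)⟩ fun a b => by
      by_cases e : a = b
      · exact mod_congr h (Eventually.of_forall fun i => funext fun y => by simp [gf, e])
      · exact mod_congr (M.grd_mod.zero 0 0 0)
          (Eventually.of_forall fun i => funext fun y => by simp [gf, e])).1 0 0
  refine mod_congr k ?_
  filter_upwards [hu] with i hi
  funext y
  have h0 : u i y ≠ 0 := (one_half_pos.trans_le (hi y)).ne'
  rw [Gf, Matrix.inv_eq_left_inv (B := Matrix.diagonal fun _ => (u i y)⁻¹)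
    (by simp [Matrix.diagonal_mul_diagonal, h0])]
  simp

theorem sym_congr (b1 : B1Stmt) {m : ℝ} {f g : Pt → ℝ} (h : IsSymOn ext1 m f)
    (e : ∀ y ∈ ext1, f y = g y) : IsSymOn ext1 m g := by
  have ho : IsOpen ext1 := isOpen_lt continuous_const
    (continuous_finsetSum _ fun i _ => (continuous_apply i).pow 2)
  have e' : ∀ y ∈ ext1, f =ᶠ[𝓝 y] g := fun y hy => by
    filter_upwards [ho.mem_nhds hy] with z hz using e z hz
  refine ⟨fun y hy => (h.1 y hy).congr_of_eventuallyEq (e' y hy).symm, fun k => ?_⟩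
  obtain ⟨C, hC⟩ := h.2 k
  exact ⟨C, fun y hy => (b1 4).congr (hC y hy) (e' y hy)⟩

theorem bar_mono {g G Rc : Fin 4 → Fin 4 → ℝ} {Rl : Fin 4 → Fin 4 → Fin 4 → Fin 4 → ℝ}
    {φ β L c c' : ℝ} (h : BarOK g G Rc Rl φ β L c) (hg : ∀ u, 0 ≤ qf g u) (hc : c' ≤ c) :
    BarOK g G Rc Rl φ β L c' :=
  ⟨fun u => (mul_le_mul_of_nonneg_right hc (hg u)).trans (h.1 u), fun T h1 h2 v => by
    have := h.2 T h1 h2 v
    nlinarith [mul_le_mul_of_nonneg_right hc (hg v)]⟩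

section Sym

variable {p p' : Fin 2 → En 2 → ℝ} {q q' : Fin 2 → Fin 2 → En 2 → ℝ} {k : ℝ}

theorem gZ_symm (h : ∀ i j, q i j = q j i) (ν : ℝ) (y : Pt) : (gZ ν p q y).IsSymm := by
  refine Matrix.IsSymm.ext fun a b => ?_
  simp only [gZ, Matrix.of_apply]
  rw [h (bl b), mul_comm (y b)]
  by_cases e : a = b
  · simp [e]
  · simp [e, Ne.symm e]

theorem δZ_symm (h : ∀ i j, q i j = q j i) (ν k : ℝ) (y : Pt) : (δZ ν p q k y).IsSymm := by
  refine Matrix.IsSymm.ext fun a b => ?_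
  simp only [δZ, dI, gI, Matrix.smul_apply, Matrix.of_apply]
  rw [h (bl b), mul_comm (y b)]
  by_cases e : a = b
  · simp [e]
  · simp [e, Ne.symm e]

theorem inf_congr (hp : ∀ w, p w (lI y) = p' w (lI y)) (hq : ∀ i j, q i j (lI y) = q' i j (lI y)) :
    δZ ν p q k y = δZ ν p' q' k y ∧ γZ ν p q k y = γZ ν p' q' k y := by
  simp only [δZ, γZ, dI, gI, aI, hp, hq, and_self]

theorem δZ_le {e K : ℝ} (he : 0 ≤ e) (hK : 1 ≤ K) (hk : |k - 1| ≤ e) (hk' : |k| ≤ 1)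
    (hg : ∀ y, y ≠ 0 → ∀ a b, |gI ν p q y a b| ≤ K) (ha : ∀ y, y ≠ 0 → |aI ν p q y - 1| ≤ e)
    (y : Pt) (a b : Fin 4) : |δZ ν p q k y a b| ≤ 3 * e * K := by
  by_cases hy : y = 0
  · rw [δZ, Real.smoothTransition.zero_of_nonpos (by simp [hy, nsq])]
    simp only [zero_smul, Matrix.zero_apply, abs_zero]
    positivity
  have h0 := nsq_pos hy
  have h1 : ∀ a, y a ^ 2 ≤ nsq y := fun a =>
    Finset.single_le_sum (f := fun i => y i ^ 2) (fun _ _ => sq_nonneg _) (Finset.mem_univ a)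
  have h2 : |y a * y b / nsq y| ≤ 1 := by
    rw [abs_div, abs_of_pos h0, div_le_one h0, abs_le]
    constructor <;> nlinarith [h1 a, h1 b, sq_nonneg (y a + y b), sq_nonneg (y a - y b)]
  have h3 : |1 - k * aI ν p q y| ≤ e + 1 * e := by
    rw [show 1 - k * aI ν p q y = -((k - 1) + k * (aI ν p q y - 1)) by ring, abs_neg]
    refine (abs_add_le _ _).trans (add_le_add hk ?_)
    rw [abs_mul]
    exact mul_le_mul hk' (ha y hy) (abs_nonneg _) zero_le_one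
  have h4 : |dI ν p q k y a b| ≤ e * K + (e + 1 * e) * 1 := by
    refine (abs_add_le _ _).trans (add_le_add ?_ ?_) <;> rw [abs_mul]
    · exact mul_le_mul hk (hg y hy a b) (abs_nonneg _) he
    · exact mul_le_mul h3 h2 (abs_nonneg _) (by positivity)
  rw [δZ, Matrix.smul_apply, smul_eq_mul, abs_mul, abs_of_nonneg (Real.smoothTransition.nonneg _)]
  refine (mul_le_of_le_one_left (abs_nonneg _) (Real.smoothTransition.le_one _)).trans ?_
  nlinarith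

end Sym

theorem bd_all (l0 : L0Facts) {F : Fin 4 → Fin 4 → ℕ × ℝ → Pt → ℝ} (h : ∀ a b, Mod lN ΛN 0 (F a b)) :
    ∃ m : ℕ, ∀ᶠ i in lN, ∀ a b y, |F a b i y| ≤ ΛN i ^ m := by
  choose m hm using fun a b => ((h a b).2 0).2
  refine ⟨∑ a, ∑ b, m a b, eventually_all.2 fun a => eventually_all.2 fun b => ?_⟩
  filter_upwards [hm a b] with i hi y
  have h1 : |F a b i y| ≤ ΛN i ^ m a b * wt 0 y := hi y trivial
  rw [l0.wt_zero, mul_one] at h1
  exact h1.trans (pow_le_pow_right₀ (one_le_two.trans (two_le i))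
    ((Finset.single_le_sum (f := m a) (fun _ _ => Nat.zero_le _) (Finset.mem_univ b)).trans
      (Finset.single_le_sum (f := fun a => ∑ b, m a b) (fun _ _ => Nat.zero_le _)
        (Finset.mem_univ a))))

/-- `μ = τ φ` on `ℝ⁴`. -/
noncomputable def μY (ν : ℝ) (f : En 2 → ℝ) (y : Pt) : ℝ := τP (lY ν y) * f (lY ν y)

section Pt

variable {f : En 2 → ℝ} {a b : ℝ} (hν : 0 < ν) (h1 : ν ≤ 1) (ha : 0 < a)
  (hf : ∀ ℓ ∈ Nb 0, a ≤ f ℓ ∧ f ℓ ≤ b)
include hν h1 ha hf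

theorem μY_bd (y : Pt) : 0 < μY ν f y ∧ μY ν f y ≤ b ∧ a * wt (-2) y ≤ μY ν f y ∧
    μY ν f y ≤ b * ν⁻¹ * wt (-2) y := by
  obtain ⟨k1, k2⟩ := hf _ (lY_Nb hν y)
  obtain ⟨k3, k4⟩ := wt_le hν h1 y
  have k5 := tau_pos hν y
  have k6 := tau_le_one hν y
  have k7 : 0 < f (lY ν y) := ha.trans_le k1
  unfold μY
  refine ⟨by positivity, by nlinarith, ?_, ?_⟩
  · rw [mul_comm]
    exact mul_le_mul k3 k1 ha.le k5.le
  · rw [mul_comm, mul_assoc]
    exact mul_le_mul k2 k4 k5.le (k7.le.trans k2)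

omit h1 in
theorem ell_pt (el : EllStmt) {ε K : ℝ} {A : Mat} (hs : A.IsSymm) (h0 : ∀ ξ, 0 ≤ qf A ξ)
    (hK : 0 < K) (hA : ∀ a b, |A a b| ≤ K) (he : 0 < ε)
    (hd : 16 * ν ^ 4 * τP (lY ν y) ^ 6 * ε ^ 7 ≤ μY ν f y ^ 6 * A.det) (ξ : Pt) :
    ν ^ 4 * ε ^ 7 / (4 * b ^ 6) / K ^ 3 * nsq ξ ≤ qf A ξ := by
  obtain ⟨k1, k2⟩ := hf _ (lY_Nb hν y)
  have k5 := tau_pos hν y
  have k7 : 0 < f (lY ν y) := ha.trans_le k1
  have hb : 0 < b := k7.trans_le k2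
  replace hd : 16 * ν ^ 4 * ε ^ 7 ≤ f (lY ν y) ^ 6 * A.det :=
    le_of_mul_le_mul_left (a := τP (lY ν y) ^ 6) (by rw [μY, mul_pow] at hd; linarith)
      (by positivity)
  have h2 : 0 < A.det :=
    (mul_pos_iff_of_pos_left (by positivity)).1 (lt_of_lt_of_le (by positivity) hd)
  have h3 : 16 * ν ^ 4 * ε ^ 7 / b ^ 6 ≤ A.det := by
    rw [div_le_iff₀' (by positivity)]
    exact hd.trans (by gcongr)
  refine le_trans (le_of_eq ?_) (el A K _ hs h0 hK hA h3 ξ)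
  field_simp
  ring

end Pt

end Cons

open Cons in
theorem cons (b1 : B1Stmt) (_b2 : B2Stmt) (l0 : L0Facts) (m0 : M0Stmt) (zf : ZFStmt)
    (c2 : Ct2Stmt) (el : EllStmt) (a1 : Ca1Stmt) (a2 : Ca2Stmt) (co : ConeStmt) : ConsStmt := by
  obtain ⟨c₀, κ, M₀, ρ, φ, hc₀, hκ, hM₀, hρ, hφ, hZ⟩ := zf
  choose p q v fb C τ₀ hZ using hZ
  have M := m0.1 _ lN ΛN two_le
  obtain ⟨a11, a12, a13⟩ := a1 c₀ hc₀
  obtain ⟨k, hk⟩ : ∃ k : ℕ × ℝ → ℝ, ∀ i, k i = 1 - |C i.1| * i.2 ^ i.1 := ⟨_, fun _ => rfl⟩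
  have hs : ∀ᶠ i in lN, 0 < i.2 ∧ i.2 ≤ 1 ∧ 0 < i.2 * c₀ ∧ i.2 * c₀ ≤ 1 ∧
      0 ≤ |C i.1| * i.2 ^ i.1 ∧ |C i.1| * i.2 ^ i.1 ≤ 1 / 2 := by
    filter_upwards [ev_small (fun _ => 1) one_pos, ev_small (fun _ => c₀) one_pos,
      small (fun N => |C N|) 0 1] with i ⟨h0, h1⟩ ⟨_, h2⟩ h3
    rw [pow_zero, mul_one, pow_one] at h3
    exact ⟨h0, by linarith, by positivity, by linarith, by positivity,
      h3.trans (by rw [one_div]; exact inv_anti₀ two_pos (two_le i))⟩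
  have hk1 : ∀ᶠ i in lN, |k i| ≤ 1 := by
    filter_upwards [hs] with i ⟨_, _, _, _, h0, h1⟩
    rw [hk, abs_le]
    constructor <;> linarith
  have A2 := fun J => a2 c₀ (fun N => p N J) (fun N => q N J) (fun N => v N J) k hc₀
    (fun N => ((hZ N).reg J).1) (fun N => ((hZ N).reg J).2.1) (fun N => ((hZ N).reg J).2.2.1) hk1
  have CT : ∀ᶠ i in lN, ∀ J, ∀ y ∈ Dn, CtOut i.2 (i.2 * c₀) (gZ (i.2 * c₀) (p i.1 J i.2) (q i.1 J i.2))
      (Vf (UZ (i.2 * c₀) (v i.1 J i.2))) (μY (i.2 * c₀) (φ J))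
      (fun y => μY (i.2 * c₀) (φ J) y ^ (1 / 4 : ℝ) / (16 * M₀) * fb i.1 J i.2 (lY (i.2 * c₀) y))
      (C i.1 * i.2 ^ i.1) (C i.1) (fun x => (J = true → x ≤ 2 * κ / i.2 + C i.1) ∧
        (J = false → (∀ w, lY (i.2 * c₀) y w ≤ i.2 ^ 3) → 3 * κ / i.2 - C i.1 ≤ x)) y := by
    filter_upwards [ev_of fun N => (hZ N).pt, hs] with i h ⟨h0, _, h1, _⟩ J y hy
    exact c2 _ _ _ _ _ _ _ _ _ _ y h0 h1 hy ((hZ i.1).symm J i.2) (h J _ (lY_Int h1 hy))
  have BD := fun J => bounds fun ℓ hl => hφ J ℓ (Nb_mono hρ hl)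
  have ELL : ∀ J, ∃ r : ℕ, ∀ᶠ i in lN, ∀ y ∈ Dn, ∀ ξ,
      (ΛN i ^ r)⁻¹ * nsq ξ ≤ qf (gZ (i.2 * c₀) (p i.1 J i.2) (q i.1 J i.2) y) ξ := fun J => by
    obtain ⟨a, b, ha, hb, hf⟩ := BD J
    obtain ⟨m, hm⟩ := bd_all l0 (A2 J).1
    obtain ⟨r, hr⟩ := lowb l0 (a := c₀ ^ 4 / (4 * b ^ 6)) (by positivity) 11 (m * 3)
    refine ⟨r, ?_⟩
    filter_upwards [hs, hm, CT] with i ⟨h0, _, h1, h2, _⟩ h3 h4 y hy ξ
    refine le_trans (mul_le_mul_of_nonneg_right ((hr i h0).trans_eq ?_) (nsq_nonneg ξ))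
      (ell_pt h1 ha hf el (gZ_symm ((hZ i.1).symm J i.2) _ y) (h4 J y hy).pos
        (pow_pos (Λ_pos i) m) (fun a b => h3 a b y) h0 (h4 J y hy).det ξ)
    rw [pow_mul]
    ring
  have INF := ev_of fun N => (hZ N).inf
  have CO : ∀ᶠ i in lN, IsCone (γZ (i.2 * c₀) (p i.1 false i.2) (q i.1 false i.2) (k i)) ∧
      (∀ y ∈ Dn, 0 ≤ Scal (γZ (i.2 * c₀) (p i.1 false i.2) (q i.1 false i.2) (k i)) y) ∧
      ∀ y, y ≠ 0 → |aI (i.2 * c₀) (p i.1 false i.2) (q i.1 false i.2) y - 1| ≤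
        C i.1 * i.2 ^ i.1 := by
    obtain ⟨r, hr⟩ := ELL false
    filter_upwards [hs, hr, INF, (A2 false).2.2.2.2.2,
      ev_of (P := fun N ε => ∀ w, ∀ ℓ ∈ Dz ε, ContDiffAt ℝ ∞ (p N false ε w) ℓ) fun N =>
        eventually_all.2 fun w => reg_sm (((hZ N).reg false).1 w),
      ev_of (P := fun N ε => ∀ a b, ∀ ℓ ∈ Dz ε, ContDiffAt ℝ ∞ (q N false ε a b) ℓ) fun N =>
        eventually_all.2 fun a => eventually_all.2 fun b =>
          reg_sm (((hZ N).reg false).2.1 a b)] with i ⟨h0, _, h1, _, _, h2⟩ h3 h4 h5 h6 h7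
    refine co i.2 _ _ (ΛN i ^ r)⁻¹ _ _ _ h0 h1 (by rw [hk]; linarith)
      (inv_pos.2 (pow_pos (Λ_pos i) r)) (fun ℓ hl => ⟨fun w => h6 w ℓ hl, fun a b => h7 a b ℓ hl⟩)
      ((hZ i.1).symm false i.2) h4.2.1 (fun X hX => ?_) (h5.2.2 _ h3)
    obtain ⟨k1, k2, k3⟩ := h4.2.2 X hX
    refine ⟨k1, k2, le_trans ?_ k3⟩
    have := mul_le_mul_of_nonneg_right (le_abs_self (C i.1)) (pow_pos h0 i.1).le
    rw [hk]
    linarith
  refine ⟨ℕ × ℝ, lN, neBot, ΛN, fun i => γZ (i.2 * c₀) (p i.1 false i.2) (q i.1 false i.2) (k i),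
    fun i => δZ (i.2 * c₀) (p i.1 false i.2) (q i.1 false i.2) (k i), fun i => 2 * κ / i.2 + C i.1,
    fun J i => gZ (i.2 * c₀) (p i.1 J i.2) (q i.1 J i.2), fun J i => UZ (i.2 * c₀) (v i.1 J i.2),
    fun J i y => μY (i.2 * c₀) (φ J) y ^ (1 / 4 : ℝ) / (16 * M₀) * fb i.1 J i.2 (lY (i.2 * c₀) y),
    fun J i y => i.2 * μY (i.2 * c₀) (φ J) y /
      (1 - (2 * C i.1 + 2) * (i.2 * μY (i.2 * c₀) (φ J) y)), fun _ => 1, two_le, fun J => ?_, ?_⟩
  · obtain ⟨a, b, ha, hb, hf⟩ := BD J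
    have hw : ∀ᶠ i in lN, ∀ y, |(2 * C i.1 + 2) * (i.2 * μY (i.2 * c₀) (φ J) y)| ≤ 1 / 2 ∧
        (2 * C i.1 + 2) ^ 2 * (i.2 * μY (i.2 * c₀) (φ J) y) ≤ 1 / 4 := by
      filter_upwards [hs, ev_small (fun N => |2 * C N + 2| * b) one_half_pos,
        ev_small (fun N => (2 * C N + 2) ^ 2 * b) (b := 1 / 4) (by norm_num)]
        with i ⟨h0, _, h1, h2, _⟩ ⟨_, h3⟩ ⟨_, h4⟩ y
      obtain ⟨k1, k2, -⟩ := μY_bd h1 h2 ha hf y
      rw [abs_mul, abs_of_pos (mul_pos h0 k1)]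
      constructor
      · refine le_trans ?_ h3
        rw [mul_assoc, mul_comm b]
        gcongr
      · refine le_trans ?_ h4
        rw [mul_assoc, mul_comm b]
        gcongr
    have hμ : Mod lN ΛN (-2) fun i y => i.2 * μY (i.2 * c₀) (φ J) y := by
      have := M.grd_mod.mul (d := 0) (j := 0) (M.par (fun i => i.2) 0 (by
        filter_upwards [hs] with i h using by rw [abs_of_pos h.1, pow_zero]; exact h.2.1))
        (M.grd_mod.mul (d := 0) (j := 0) (a11 (fun _ _ => φ J) fun _ =>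
          reg_const b1 (a13 _ ρ hρ fun ℓ hl => (hφ J ℓ hl).1)).1 (a12 1))
      rw [zero_add, zero_add, mul_one] at this
      exact mod_congr this (Eventually.of_forall fun i => funext fun y => by
        simp [μY, mul_comm])
    refine ⟨(A2 J).1, fun i y => gZ_symm ((hZ i.1).symm J i.2) _ y, ELL J, (A2 J).2.1,
      (A2 J).2.2.1, fun r => ?_, (A2 false).2.2.2.1,
      fun i y => δZ_symm ((hZ i.1).symm false i.2) _ _ y, fun r => ?_,
      (A2 false).2.2.2.2.2.mono fun i h => h.1, ?_, Eventually.of_forall fun _ => by simp, ?_, ?_, ?_⟩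
    · filter_upwards [hs, CT, small (fun N => 2 * |C N| * (b * c₀⁻¹)) 1 r]
        with i ⟨h0, _, h1, h2, h3, _⟩ h4 h5 y hy u
      obtain ⟨k1, -, -, k2⟩ := μY_bd h1 h2 ha hf y
      refine ((h4 J y hy).err u).trans (mul_le_mul_of_nonneg_right ?_ ((h4 J y hy).pos u))
      have k3 := l0.wt_pos (-2) y
      have k4 : i.2⁻¹ ≤ ΛN i := le_max_right _ _
      calc 2 * (C i.1 * i.2 ^ i.1) * μY (i.2 * c₀) (φ J) y
          ≤ 2 * (|C i.1| * i.2 ^ i.1) * (b * (i.2 * c₀)⁻¹ * wt (-2) y) := by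
            gcongr
            exact le_abs_self _
        _ = 2 * |C i.1| * (b * c₀⁻¹) * i.2 ^ i.1 * i.2⁻¹ * wt (-2) y := by ring
        _ ≤ 2 * |C i.1| * (b * c₀⁻¹) * i.2 ^ i.1 * ΛN i ^ 1 * wt (-2) y := by
            rw [pow_one]
            gcongr
        _ ≤ _ := by gcongr
    · obtain ⟨m, hm⟩ := (A2 false).2.2.2.2.1
      filter_upwards [hs, hk1, hm, CO, small (fun N => 3 * |C N|) m r]
        with i ⟨h0, _, _, _, h1, _⟩ h2 h3 h4 h5 y a b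
      refine (δZ_le h1 (one_le i m) (by rw [hk, sub_sub_cancel_left, abs_neg, abs_of_nonneg h1]) h2 h3
        (fun y hy => (h4.2.2 y hy).trans ?_) y a b).trans (by rwa [← mul_assoc])
      exact mul_le_mul_of_nonneg_right (le_abs_self _) (pow_pos h0 _).le
    · have := M.grd_mod.mul (d := 0) (j := 0) (M.grd_mod.mul (d := 0) (j := 0)
        (a11 (fun _ _ ℓ => φ J ℓ ^ (1 / 4 : ℝ) / (16 * M₀)) fun _ => reg_const b1 (a13 _ ρ hρ
          fun ℓ hl => ((hφ J ℓ hl).1.rpow_const_of_ne (hφ J ℓ hl).2.ne').div_const _)).1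
        (a11 (fun N => fb N J) fun N => ((hZ N).reg J).2.2.2).1) (a12 (1 / 4))
      rw [show (0 + 0 + -2 * (1 / 4) : ℝ) = -1 / 2 by norm_num] at this
      refine mod_congr this ?_
      filter_upwards [hs] with i ⟨_, _, h1, _⟩
      funext y
      rw [μY, Real.mul_rpow (tau_pos h1 y).le (ha.le.trans (hf _ (lY_Nb h1 y)).1)]
      simp only [Pi.mul_apply]
      ring
    · obtain ⟨r, hr⟩ := lowb l0 (Real.rpow_pos_of_pos ha (1 / 4)) 1 0
      refine ⟨r, ?_⟩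
      filter_upwards [hs, CT] with i ⟨h0, _, h1, h2, _⟩ h4 y hy
      obtain ⟨-, -, k1, -⟩ := μY_bd h1 h2 ha hf y
      refine bar_mono (h4 J y hy).bar (h4 J y hy).pos ?_
      have k2 := l0.wt_pos (-2) y
      have k3 : wt (-1 / 2) y = wt (-2) y ^ (1 / 4 : ℝ) := by
        rw [wt, wt, ← Real.rpow_mul (by linarith [nsq_nonneg y])]
        norm_num
      have k4 := hr i h0
      rw [pow_zero, pow_one, div_one] at k4
      calc (ΛN i ^ r)⁻¹ * wt (-1 / 2) y ≤ a ^ (1 / 4 : ℝ) * i.2 * wt (-1 / 2) y :=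
            mul_le_mul_of_nonneg_right k4 (l0.wt_pos _ y).le
        _ = i.2 * (a * wt (-2) y) ^ (1 / 4 : ℝ) := by rw [Real.mul_rpow ha.le k2.le, k3]; ring
        _ ≤ _ := by gcongr
    · have h1 := M.grd_mod.add (d := 0) (j := 0) M.grd_mod.one
        (M.grd_mod.mul (d := 0) (j := 0) (M.par (fun i => -((2 * C i.1 + 2) * i.2)) 0 (by
          filter_upwards [ev_small (fun N => |2 * C N + 2|) one_pos] with i h
          rw [abs_neg, abs_mul, abs_of_pos h.1, pow_zero]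
          exact h.2)) (M.grd_mod.mul (d := 0) (j := 0) (a11 (fun _ _ => φ J) fun _ =>
            reg_const b1 (a13 _ ρ hρ fun ℓ hl => (hφ J ℓ hl).1)).1 (a12 1)) |> fun h =>
          M.grd_mod.mono (d := 0) h le_rfl (Nat.zero_le 2) (by norm_num))
      have h2 : Mod lN ΛN 0 fun i y => 1 - (2 * C i.1 + 2) * (i.2 * μY (i.2 * c₀) (φ J) y) :=
        mod_congr h1 (Eventually.of_forall fun i => funext fun y => by
          simp only [μY, Pi.add_apply, Pi.mul_apply, Pi.one_apply, Real.rpow_one]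
          ring)
      have h3 := M.grd_mod.mul (d := 0) (j := 0) (mod_inv two_le M h2 (by
        filter_upwards [hw] with i h y
        linarith [(abs_le.1 (h y).1).2])) hμ
      rw [zero_add] at h3
      exact mod_congr h3 (Eventually.of_forall fun i => funext fun y => by
        simp only [Pi.mul_apply]
        ring)
    · obtain ⟨r, hr⟩ := lowb l0 (lt_min (half_pos ha) (pow_pos ha 2)) 2 0
      refine ⟨r, ?_⟩
      filter_upwards [hs, CT, hw] with i ⟨h0, h0', h1, h2, _⟩ h4 h5 y hy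
      obtain ⟨k0, -, k1, -⟩ := μY_bd h1 h2 ha hf y
      have k2 := l0.wt_pos (-2) y
      have k4 := hr i h0
      rw [pow_zero, div_one] at k4
      obtain ⟨k5, k6⟩ := abs_le.1 (h5 y).1
      constructor
      · rw [le_div_iff₀ (by linarith)]
        calc (ΛN i ^ r)⁻¹ * wt (-2) y * (1 - (2 * C i.1 + 2) * (i.2 * μY (i.2 * c₀) (φ J) y))
            ≤ a / 2 * (i.2 * 1) * wt (-2) y * 2 := by
              refine mul_le_mul (mul_le_mul_of_nonneg_right (k4.trans ?_) k2.le) (by linarith)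
                (by linarith) (by positivity)
              rw [sq i.2]
              gcongr
              exact min_le_left _ _
          _ = i.2 * (a * wt (-2) y) := by ring
          _ ≤ _ := by gcongr
      · refine ((h4 J y hy).wb (h5 y).2).trans (neg_le_neg ?_)
        rw [show (-4 : ℝ) = -2 + -2 by norm_num, l0.wt_add]
        calc (ΛN i ^ r)⁻¹ * (wt (-2) y * wt (-2) y) ≤ a ^ 2 * i.2 ^ 2 * (wt (-2) y * wt (-2) y) := by
              refine mul_le_mul_of_nonneg_right (k4.trans ?_) (by positivity)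
              gcongr
              exact min_le_right _ _
          _ = (i.2 * (a * wt (-2) y)) ^ 2 := by ring
          _ ≤ _ := by gcongr
  · filter_upwards [hs, CO, CT, INF, eventually_all.2 fun J => (A2 J).2.2.2.2.2,
      ev_small (fun N => 2 * C N + 3) hκ] with i ⟨h0, _, h1, _⟩ h2 h3 h4 h5 ⟨_, h6⟩
    refine ⟨h2.1, h2.2.1, fun J a b => sym_congr b1 ((h5 J).2.1 a b) fun y hy => ?_,
      fun y hy => (h3 true y hy).scal.1 rfl, i.2 ^ 2 / c₀, by positivity, fun y hy hr => ?_⟩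
    · have hy0 : y ≠ 0 := by
        rintro rfl
        have : (1 : ℝ) < nsq 0 := hy
        norm_num [nsq] at this
      obtain ⟨k1, k2⟩ := lI_mem h0 hy0
      obtain ⟨k3, k4⟩ := h4.1 J _ k1 (k2.trans_lt (hZ i.1).τ₀_pos)
      obtain ⟨k5, k6⟩ := inf_congr (ν := i.2 * c₀) (k := k i) k3 k4
      simp only [Pi.sub_apply, Pi.add_apply, gf, k5, k6]
    · refine le_trans ?_ ((h3 false y hy).scal.2 rfl fun w => (lY_le h1 y w).trans ?_)
      · have : 2 * C i.1 + 3 ≤ κ / i.2 := (le_div_iff₀ h0).2 h6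
        have e : 3 * κ / i.2 = 2 * κ / i.2 + κ / i.2 := by ring
        linarith
      · rw [lt_div_iff₀ hc₀] at hr
        nlinarith

end Pool.Agent.Lib.MP_df9110_gt
end
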