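import Pool.Agent.Lib.MP_df9110_gt.NBlk

-- part Pool.Agent.Lib.MP_df9110_gt.BarAlg
section

/-! The barrier inequality in an orthonormal frame. -/

namespace Pool.Agent.Lib.MP_df9110_gt

namespace BarAlg

lemma idM_eq (u : Fin 4 → ℝ) : qf idM u = u 0 ^ 2 + u 1 ^ 2 + u 2 ^ 2 + u 3 ^ 2 := by
  simp [qf, idM, sq, Fin.sum_univ_four]

lemma ric_eq (k : Fin 8 → ℝ) (u : Fin 4 → ℝ) : qf (ricON k) u =
    (k 0 + k 1 + k 4) * u 0 ^ 2 + 2 * (k 2 + k 5) * (u 0 * u 1) + (k 0 + k 3 + k 6) * u 1 ^ 2 +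
      (k 1 + k 3 + k 7) * u 2 ^ 2 + (k 4 + k 6 + k 7) * u 3 ^ 2 := by
  simp [qf, ricON, tab2, Fin.sum_univ_four]
  ring

lemma bd {a z x : ℝ} (h : |a| ≤ z) (hx : 0 ≤ x) : -(z * x) ≤ a * x ∧ a * x ≤ z * x := by
  obtain ⟨h1, h2⟩ := abs_le.1 h
  constructor <;> nlinarith

lemma bd2 {a z : ℝ} (h : |a| ≤ z) (x y : ℝ) :
    -(z * (x ^ 2 + y ^ 2)) ≤ 2 * a * (x * y) ∧ 2 * a * (x * y) ≤ z * (x ^ 2 + y ^ 2) := by
  have h1 := bd h (sq_nonneg (x + y))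
  have h2 := bd h (sq_nonneg (x - y))
  constructor <;> nlinarith [h1.1, h1.2, h2.1, h2.2]

/-- The hypotheses on the curvatures. -/
structure Hyp (k : Fin 8 → ℝ) (κ₁ κ₂ ζ : ℝ) : Prop where
  h1 : |k 1 - κ₁| ≤ ζ
  h6 : |k 6 - κ₂| ≤ ζ
  h : ∀ j, j ≠ 1 → j ≠ 6 → |k j| ≤ ζ

variable {k : Fin 8 → ℝ} {κ₁ κ₂ ζ : ℝ}

lemma ric_bd (H : Hyp k κ₁ κ₂ ζ) (u : Fin 4 → ℝ) :
    κ₁ * (u 0 ^ 2 + u 2 ^ 2) + κ₂ * (u 1 ^ 2 + u 3 ^ 2) -
      5 * (ζ * (u 0 ^ 2 + u 1 ^ 2 + u 2 ^ 2 + u 3 ^ 2)) ≤ qf (ricON k) u ∧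
    qf (ricON k) u ≤ κ₁ * (u 0 ^ 2 + u 2 ^ 2) + κ₂ * (u 1 ^ 2 + u 3 ^ 2) +
      5 * (ζ * (u 0 ^ 2 + u 1 ^ 2 + u 2 ^ 2 + u 3 ^ 2)) := by
  have h0 := H.h 0 (by decide) (by decide)
  have h3 := H.h 3 (by decide) (by decide)
  have h4 := H.h 4 (by decide) (by decide)
  have h7 := H.h 7 (by decide) (by decide)
  have hz : 0 ≤ ζ := (abs_nonneg _).trans h0
  have a1 := bd h0 (sq_nonneg (u 0))
  have a2 := bd H.h1 (sq_nonneg (u 0))
  have a3 := bd h4 (sq_nonneg (u 0))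
  have b1 := bd h0 (sq_nonneg (u 1))
  have b2 := bd h3 (sq_nonneg (u 1))
  have b3 := bd H.h6 (sq_nonneg (u 1))
  have c1 := bd H.h1 (sq_nonneg (u 2))
  have c2 := bd h3 (sq_nonneg (u 2))
  have c3 := bd h7 (sq_nonneg (u 2))
  have d1 := bd h4 (sq_nonneg (u 3))
  have d2 := bd H.h6 (sq_nonneg (u 3))
  have d3 := bd h7 (sq_nonneg (u 3))
  have e1 := bd2 (H.h 2 (by decide) (by decide)) (u 0) (u 1)
  have e2 := bd2 (H.h 5 (by decide) (by decide)) (u 0) (u 1)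
  have f2 := mul_nonneg hz (sq_nonneg (u 2))
  have f3 := mul_nonneg hz (sq_nonneg (u 3))
  rw [ric_eq]
  constructor
  · linear_combination a1.1 + a2.1 + a3.1 + b1.1 + b2.1 + b3.1 + c1.1 + c2.1 + c3.1 + d1.1 + d2.1 +
      d3.1 + e1.1 + e2.1 + 2 * f2 + 2 * f3
  · linear_combination a1.2 + a2.2 + a3.2 + b1.2 + b2.2 + b3.2 + c1.2 + c2.2 + c3.2 + d1.2 + d2.2 +
      d3.2 + e1.2 + e2.2 + 2 * f2 + 2 * f3

lemma T_eq {T : Fin 4 → Fin 4 → ℝ} (hs : ∀ i j, T i j = T j i) (a b c d : ℝ) :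
    qf T ![a, b, c, d] = T 0 0 * a ^ 2 + T 1 1 * b ^ 2 + T 2 2 * c ^ 2 + T 3 3 * d ^ 2 +
      2 * (T 0 1 * a * b + T 0 2 * a * c + T 0 3 * a * d + T 1 2 * b * c + T 1 3 * b * d +
        T 2 3 * c * d) := by
  simp [qf, Fin.sum_univ_four, hs 1 0, hs 2 0, hs 3 0, hs 2 1, hs 3 1, hs 3 2]
  ring

/-- `T (w, w)` for `w = v j e i - v i e j`. -/
def W (T : Fin 4 → Fin 4 → ℝ) (v : Fin 4 → ℝ) (i j : Fin 4) : ℝ :=
  T i i * v j ^ 2 + T j j * v i ^ 2 - 2 * T i j * v i * v j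

/-- The first mixed term. -/
def X (T : Fin 4 → Fin 4 → ℝ) (v : Fin 4 → ℝ) : ℝ :=
  T 0 1 * v 2 ^ 2 + T 2 2 * v 0 * v 1 - T 0 2 * v 1 * v 2 - T 1 2 * v 0 * v 2

/-- The second mixed term. -/
def Y (T : Fin 4 → Fin 4 → ℝ) (v : Fin 4 → ℝ) : ℝ :=
  T 0 1 * v 3 ^ 2 + T 3 3 * v 0 * v 1 - T 0 3 * v 1 * v 3 - T 1 3 * v 0 * v 3

lemma rm_eq (k : Fin 8 → ℝ) {T : Fin 4 → Fin 4 → ℝ} (hs : ∀ i j, T i j = T j i) (v : Fin 4 → ℝ) :
    qf (gRmT idM (rlON k) T) v = k 0 * W T v 0 1 + k 1 * W T v 0 2 + k 2 * (2 * X T v) +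
      k 3 * W T v 1 2 + k 4 * W T v 0 3 + k 5 * (2 * Y T v) + k 6 * W T v 1 3 +
      k 7 * W T v 2 3 := by
  have e : ∀ c d, ∑ i, ∑ j, idM c i * idM d j * T i j = T c d := fun c d => by
    simp [idM, ite_mul]
  simp only [qf, gRmT, e]
  simp [rlON, tab4, kn, tab2, Fin.sum_univ_four, hs 1 0, hs 2 0, hs 3 0, hs 2 1, hs 3 1, hs 3 2,
    W, X, Y]
  ring

lemma plane {a κ z w φ A : ℝ} (h : |a - κ| ≤ z) (hκ : 0 ≤ κ) (hφ : 0 ≤ φ) (hA : 0 ≤ A)
    (h0 : 0 ≤ w) (h1 : w ≤ 2 * ((φ + 5 * z) * A + κ * A)) : -(2 * z * ((φ + 6 * z) * A)) ≤ a * w := by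
  have hz : 0 ≤ z := (abs_nonneg _).trans h
  have h2 := (bd h h0).1
  rcases le_total z κ with h3 | h3
  · have h4 : 0 ≤ 2 * z * ((φ + 6 * z) * A) := by positivity
    have h5 := mul_nonneg (sub_nonneg.2 h3) h0
    linear_combination h2 + h4 + h5
  · have h4 := mul_nonneg hκ h0
    have h5 := mul_le_mul_of_nonneg_left h1 hz
    have h6 := mul_le_mul_of_nonneg_left (mul_le_mul_of_nonneg_right h3 hA) hz
    linear_combination h2 + h4 + h5 + 2 * h6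

lemma cross {a z w w' x φ κ A : ℝ} (h : |a| ≤ z) (hκ : 0 ≤ κ) (hφ : 0 ≤ φ) (hA : 0 ≤ A)
    (h0 : ∀ t, 0 ≤ w + 2 * t * x + t ^ 2 * w') (h1 : w ≤ 2 * ((φ + 5 * z) * A + κ * A)) :
    -(2 * z * ((φ + 5 * z) * A) + κ * A / 4 + z * (1 + 8 * z) * w') ≤ a * (2 * x) := by
  have hz : 0 ≤ z := (abs_nonneg _).trans h
  have hm : 0 < 1 + 8 * z := by positivity
  obtain ⟨h2, h3⟩ := abs_le.1 h
  have h4 := mul_nonneg (sub_nonneg.2 h3) (h0 (-(1 + 8 * z)))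
  have h5 := mul_nonneg (sub_nonneg.2 h2) (h0 (1 + 8 * z))
  have h6 := mul_le_mul_of_nonneg_left h1 hz
  have h7 : 0 ≤ z * z * ((φ + 5 * z) * A) := by positivity
  have h8 : 0 ≤ κ * A := by positivity
  refine le_of_mul_le_mul_left ?_ hm
  linear_combination (1 / 2) * h4 + (1 / 2) * h5 + h6 + 16 * h7 + (1 / 4) * h8

end BarAlg

open BarAlg

theorem barAlg : BarAlgStmt := by
  refine ⟨1000, by norm_num, fun k κ₁ κ₂ ζ φ L c p1 p2 hz hφ h1 h6 h hc l1 l2 => ?_⟩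
  have H : Hyp k κ₁ κ₂ ζ := ⟨h1, h6, h⟩
  refine ⟨fun u => ?_, fun T hs hT v => ?_⟩
  · have a := (ric_bd H u).1
    have n : 0 ≤ u 0 ^ 2 + u 1 ^ 2 + u 2 ^ 2 + u 3 ^ 2 := by positivity
    have b := mul_le_mul_of_nonneg_right hc n
    have d := mul_nonneg hz n
    have e : 0 ≤ κ₁ * (u 0 ^ 2 + u 2 ^ 2) + κ₂ * (u 1 ^ 2 + u 3 ^ 2) := by positivity
    rw [idM_eq]
    linear_combination a + b + 995 * d + e
  have lo : ∀ a b c d : ℝ, 0 ≤ qf T ![a, b, c, d] := fun a b c d => (hT _).1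
  have hi : ∀ a b c d : ℝ, qf T ![a, b, c, d] ≤ 2 * ((φ + 5 * ζ) * (a ^ 2 + b ^ 2 + c ^ 2 + d ^ 2) +
      κ₁ * (a ^ 2 + c ^ 2) + κ₂ * (b ^ 2 + d ^ 2)) := fun a b c d => by
    have x := (hT ![a, b, c, d]).2
    have y := (ric_bd H ![a, b, c, d]).2
    rw [idM_eq] at x
    simp only [Matrix.cons_val_zero, Matrix.cons_val_one, Matrix.cons_val] at x y
    linear_combination x + 2 * y
  simp only [T_eq hs] at lo hi
  obtain ⟨A, hA⟩ : ∃ A, A = v 0 ^ 2 + v 2 ^ 2 := ⟨_, rfl⟩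
  obtain ⟨B, hB⟩ : ∃ B, B = v 1 ^ 2 + v 3 ^ 2 := ⟨_, rfl⟩
  have A0 : 0 ≤ A := by rw [hA]; positivity
  have B0 : 0 ≤ B := by rw [hB]; positivity
  obtain ⟨M, hM⟩ : ∃ M, M = (1 + φ + ζ + κ₂) * A + (1 + φ + ζ + κ₁) * B := ⟨_, rfl⟩
  have M0 : 0 ≤ M := by rw [hM]; positivity
  have up : ∀ w x y : ℝ, x ^ 2 ≤ A → y ^ 2 ≤ B →
      w ≤ 2 * ((φ + 5 * ζ) * (x ^ 2 + y ^ 2) + κ₁ * y ^ 2 + κ₂ * x ^ 2) → w ≤ 10 * M := by
    intro w x y hx hy hw
    have s1 := mul_le_mul_of_nonneg_left hx (show 0 ≤ φ + 5 * ζ + κ₂ by positivity)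
    have s2 := mul_le_mul_of_nonneg_left hy (show 0 ≤ φ + 5 * ζ + κ₁ by positivity)
    have s3 : 0 ≤ (5 + 4 * φ + 4 * κ₂) * A + (5 + 4 * φ + 4 * κ₁) * B := by positivity
    rw [hM]
    linear_combination hw + 2 * s1 + 2 * s2 + 2 * s3
  have q0 : v 0 ^ 2 ≤ A := by rw [hA]; linarith [sq_nonneg (v 2)]
  have q2 : v 2 ^ 2 ≤ A := by rw [hA]; linarith [sq_nonneg (v 0)]
  have q1 : v 1 ^ 2 ≤ B := by rw [hB]; linarith [sq_nonneg (v 3)]
  have q3 : v 3 ^ 2 ≤ B := by rw [hB]; linarith [sq_nonneg (v 1)]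
  have n01 : 0 ≤ W T v 0 1 := by rw [W]; linear_combination lo (v 1) (-v 0) 0 0
  have n12 : 0 ≤ W T v 1 2 := by rw [W]; linear_combination lo 0 (v 2) (-v 1) 0
  have n03 : 0 ≤ W T v 0 3 := by rw [W]; linear_combination lo (v 3) 0 0 (-v 0)
  have n23 : 0 ≤ W T v 2 3 := by rw [W]; linear_combination lo 0 0 (v 3) (-v 2)
  have n02 : 0 ≤ W T v 0 2 := by rw [W]; linear_combination lo (v 2) 0 (-v 0) 0
  have n13 : 0 ≤ W T v 1 3 := by rw [W]; linear_combination lo 0 (v 3) 0 (-v 1)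
  have u01 : W T v 0 1 ≤ 10 * M := up _ _ _ q0 q1 (by
    rw [W]; linear_combination hi (v 1) (-v 0) 0 0)
  have u12 : W T v 1 2 ≤ 10 * M := up _ _ _ q2 q1 (by
    rw [W]; linear_combination hi 0 (v 2) (-v 1) 0)
  have u03 : W T v 0 3 ≤ 10 * M := up _ _ _ q0 q3 (by
    rw [W]; linear_combination hi (v 3) 0 0 (-v 0))
  have u23 : W T v 2 3 ≤ 10 * M := up _ _ _ q2 q3 (by
    rw [W]; linear_combination hi 0 0 (v 3) (-v 2))
  have u02 : W T v 0 2 ≤ 2 * ((φ + 5 * ζ) * A + κ₁ * A) := by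
    rw [W, hA]; linear_combination hi (v 2) 0 (-v 0) 0
  have u13 : W T v 1 3 ≤ 2 * ((φ + 5 * ζ) * B + κ₂ * B) := by
    rw [W, hB]; linear_combination hi 0 (v 3) 0 (-v 1)
  have t0 := (bd (h 0 (by decide) (by decide)) n01).1
  have t3 := (bd (h 3 (by decide) (by decide)) n12).1
  have t4 := (bd (h 4 (by decide) (by decide)) n03).1
  have t7 := (bd (h 7 (by decide) (by decide)) n23).1
  have t1 := plane h1 p1 hφ A0 n02 u02
  have t6 := plane h6 p2 hφ B0 n13 u13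
  have t2 := cross (w' := W T v 1 2) (x := X T v) (h 2 (by decide) (by decide)) p1 hφ A0
    (fun t => by
      rw [W, W, X]; linear_combination lo (v 2) (t * v 2) (-v 0 - t * v 1) 0) u02
  have t5 := cross (w' := W T v 0 3) (x := Y T v) (h 5 (by decide) (by decide)) p2 hφ B0
    (fun t => by
      rw [W, W, Y]; linear_combination lo (t * v 3) (v 3) 0 (-v 1 - t * v 0)) u13
  have z8 : 0 ≤ ζ * (1 + 8 * ζ) := by positivity
  have s0 := mul_le_mul_of_nonneg_left u01 hz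
  have s3 := mul_le_mul_of_nonneg_left u12 hz
  have s4 := mul_le_mul_of_nonneg_left u03 hz
  have s7 := mul_le_mul_of_nonneg_left u23 hz
  have s2 := mul_le_mul_of_nonneg_left u12 z8
  have s5 := mul_le_mul_of_nonneg_left u03 z8
  have m1 : ζ * ((φ + 6 * ζ) * (A + B)) ≤ ζ * (6 * M) := mul_le_mul_of_nonneg_left (by
    have : 0 ≤ (6 + 5 * φ + 6 * κ₂) * A + (6 + 5 * φ + 6 * κ₁) * B := by positivity
    rw [hM]; linear_combination this) hz
  have m2 : 0 ≤ ζ * (ζ * (A + B)) := by positivity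
  have m3 : ζ * ((2 * φ + 1) * (A + B)) ≤ ζ * (2 * M) := mul_le_mul_of_nonneg_left (by
    have : 0 ≤ (1 + 2 * ζ + 2 * κ₂) * A + (1 + 2 * ζ + 2 * κ₁) * B := by positivity
    rw [hM]; linear_combination this) hz
  have m4 := mul_nonneg hz M0
  have m5 := mul_nonneg hz m4
  have r1 := mul_le_mul_of_nonneg_left (ric_bd H v).2 hφ
  have r2 := (ric_bd H v).1
  have r3 := mul_le_mul_of_nonneg_right l1 A0
  have r4 := mul_le_mul_of_nonneg_right l2 B0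
  rw [idM_eq, rm_eq k hs]
  generalize qf (ricON k) v = R at r1 r2 ⊢
  have f : v 0 ^ 2 + v 1 ^ 2 + v 2 ^ 2 + v 3 ^ 2 = A + B := by rw [hA, hB]; ring
  rw [f, ← hA, ← hB] at r1 r2
  rw [f]
  rw [hM] at s0 s2 s3 s4 s5 s7 m1 m3 m4 m5
  linear_combination 2 * (t0 + t1 + t2 + t3 + t4 + t5 + t6 + t7) +
    2 * (s0 + s2 + s3 + s4 + s5 + s7) + 8 * m1 + 4 * m2 + 5 * m3 + 822 * m4 + 680 * m5 +
    2 * r1 + r2 + r3 + r4

end Pool.Agent.Lib.MP_df9110_gt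
end

-- part Pool.Agent.Lib.MP_df9110_gt.CorBlk
section

/-! The corner block: the product of two cigars. -/

namespace Pool.Agent.Lib.MP_df9110_gt

open Filter Topology Set Asymptotics
open scoped ContDiff

namespace CorBlk

theorem hasDerivAt_line {F : En 2 → ℝ} {p : En 2} {i : Fin 2} {s : ℝ}
    (hF : DifferentiableAt ℝ F (Function.update p i s)) :
    HasDerivAt (fun x => F (Function.update p i x)) (pdn i F (Function.update p i s)) s :=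
  hF.hasFDerivAt.comp_hasDerivAt s (hasDerivAt_update p i s)

theorem pdn_one (f : ℝ → ℝ) (i j : Fin 2) (p : En 2) :
    pdn j (fun q => f (q i)) p = if j = i then deriv f (p i) else 0 := by
  by_cases h : DifferentiableAt ℝ f (p i)
  · have := h.hasDerivAt.hasFDerivAt.comp p (hasFDerivAt_apply (𝕜 := ℝ) i p)
    rw [pdn, show (fun q : En 2 => f (q i)) = f ∘ fun q => q i from rfl, this.fderiv]
    by_cases hj : j = i
    · simp [hj]
    · simp [hj, Ne.symm hj]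
  · have h1 : ¬ DifferentiableAt ℝ (fun q : En 2 => f (q i)) p := fun h1 => h (by
      simpa using (hasDerivAt_line (F := fun q : En 2 => f (q i)) (p := p) (i := i) (s := p i)
        (by simpa using h1)).differentiableAt)
    simp [pdn, fderiv_zero_of_not_differentiableAt h1, deriv_zero_of_not_differentiableAt h]

/-- First and second derivative at a point. -/
def J2 (h : ℝ → ℝ) (s a b : ℝ) : Prop :=
  ∃ h' : ℝ → ℝ, (∀ᶠ x in 𝓝 s, HasDerivAt h (h' x) x) ∧ h' s = a ∧ HasDerivAt h' b s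

theorem J2.pdn {F : En 2 → ℝ} {p : En 2} {i : Fin 2} {a b : ℝ} (hF : ContDiffAt ℝ ∞ F p)
    (h : J2 (fun x => F (Function.update p i x)) (p i) a b) :
    pdn i F p = a ∧ pdn i (pdn i F) p = b := by
  obtain ⟨h', h1, rfl, h3⟩ := h
  have hc : Tendsto (Function.update p i) (𝓝 (p i)) (𝓝 p) := by
    simpa using (hasDerivAt_update p i (p i)).continuousAt.tendsto
  have h4 : (fun x => MP_df9110_gt.pdn i F (Function.update p i x)) =ᶠ[𝓝 (p i)] h' := by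
    filter_upwards [h1, hc.eventually (ev_diff hF)] with x hx hd
    exact (hasDerivAt_line hd).unique hx
  refine ⟨by simpa using h4.self_of_nhds, ?_⟩
  have h5 := hasDerivAt_line (F := MP_df9110_gt.pdn i F) (p := p) (i := i) (s := p i)
    (by simpa using (contDiffAt_pdn hF i).differentiableAt (by simp))
  simpa using h5.unique (h3.congr_of_eventuallyEq h4)

theorem J2.add {h k : ℝ → ℝ} {s a b a' b' : ℝ} (h1 : J2 h s a b) (h2 : J2 k s a' b') :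
    J2 (fun x => h x + k x) s (a + a') (b + b') := by
  obtain ⟨h', e1, rfl, e2⟩ := h1
  obtain ⟨k', e3, rfl, e4⟩ := h2
  exact ⟨fun x => h' x + k' x, (e1.and e3).mono fun x hx => hx.1.add hx.2, rfl, e2.add e4⟩

theorem J2.mul {h k : ℝ → ℝ} {s a b a' b' : ℝ} (h1 : J2 h s a b) (h2 : J2 k s a' b') :
    J2 (fun x => h x * k x) s (a * k s + h s * a') (b * k s + 2 * a * a' + h s * b') := by
  obtain ⟨h', e1, rfl, e2⟩ := h1
  obtain ⟨k', e3, rfl, e4⟩ := h2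
  refine ⟨fun x => h' x * k x + h x * k' x, (e1.and e3).mono fun x hx => hx.1.mul hx.2, rfl, ?_⟩
  exact ((e2.mul e3.self_of_nhds).add (e1.self_of_nhds.mul e4)).congr_deriv (by ring)

theorem J2.const (c s : ℝ) : J2 (fun _ => c) s 0 0 :=
  ⟨fun _ => 0, .of_forall fun _ => hasDerivAt_const _ _, rfl, hasDerivAt_const _ _⟩

theorem J2.congr {h k : ℝ → ℝ} {s a b a' b' : ℝ} (h1 : J2 h s a b) (e : k = h) (ea : a' = a)
    (eb : b' = b) : J2 k s a' b' := by rwa [e, ea, eb]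

theorem J2.scale {f : ℝ → ℝ} (hf : ContDiff ℝ ∞ f) (ε s : ℝ) :
    J2 (fun x => f (ε * x)) s (ε * deriv f (ε * s)) (ε ^ 2 * deriv (deriv f) (ε * s)) := by
  have h1 := (contDiff_infty_iff_deriv.1 hf)
  have h2 := (contDiff_infty_iff_deriv.1 h1.2).1
  have h3 : ∀ x, HasDerivAt (fun x => ε * x) ε x := fun x => by
    simpa using (hasDerivAt_id x).const_mul ε
  refine ⟨fun x => ε * deriv f (ε * x), .of_forall fun x => ?_, rfl, ?_⟩
  · exact ((h1.1 _).hasDerivAt.comp x (h3 x)).congr_deriv (mul_comm _ _)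
  · exact (((h2 _).hasDerivAt.comp s (h3 s)).const_mul ε).congr_deriv (by ring)

theorem J2.exp (c s : ℝ) :
    J2 (fun x => Real.exp (-(c * x))) s (-c * Real.exp (-(c * s)))
      (c ^ 2 * Real.exp (-(c * s))) := by
  simpa [Real.deriv_exp] using J2.scale Real.contDiff_exp (-c) s

theorem hasDerivAt_inv_aff {u v x : ℝ} (h : u + v * x ≠ 0) :
    HasDerivAt (fun x => (u + v * x)⁻¹) (-v * (u + v * x)⁻¹ ^ 2) x := by
  exact ((((hasDerivAt_id x).const_mul v).const_add u).fun_inv h).congr_deriv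
    (by simp [div_eq_mul_inv])

theorem ev_pos {u v s : ℝ} (h : 0 < u + v * s) : ∀ᶠ x in 𝓝 s, 0 < u + v * x :=
  (by fun_prop : ContinuousAt (fun x => u + v * x) s).eventually (lt_mem_nhds h)

theorem J2.log {u v s : ℝ} (h : 0 < u + v * s) :
    J2 (fun x => Real.log (u + v * x)⁻¹) s (-v * (u + v * s)⁻¹) (v ^ 2 * (u + v * s)⁻¹ ^ 2) := by
  refine ⟨fun x => -v * (u + v * x)⁻¹, (ev_pos h).mono fun x hx => ?_, rfl, ?_⟩
  · exact ((hasDerivAt_inv_aff hx.ne').log (inv_ne_zero hx.ne')).congr_deriv (by field_simp)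
  · exact ((hasDerivAt_inv_aff h.ne').const_mul (-v)).congr_deriv (by ring)

theorem J2.rpow {u v s : ℝ} (h : 0 < u + v * s) :
    J2 (fun x => (u + v * x)⁻¹ ^ (1 / 4 : ℝ)) s
      (-(v / 4) * (u + v * s)⁻¹ * (u + v * s)⁻¹ ^ (1 / 4 : ℝ))
      (5 / 16 * v ^ 2 * (u + v * s)⁻¹ ^ 2 * (u + v * s)⁻¹ ^ (1 / 4 : ℝ)) := by
  have key : ∀ x, 0 < u + v * x → HasDerivAt (fun x => (u + v * x)⁻¹ ^ (1 / 4 : ℝ))
      (-(v / 4) * (u + v * x)⁻¹ * (u + v * x)⁻¹ ^ (1 / 4 : ℝ)) x := fun x hx => by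
    refine ((hasDerivAt_inv_aff hx.ne').rpow_const (p := 1 / 4)
      (.inl (inv_ne_zero hx.ne'))).congr_deriv ?_
    rw [Real.rpow_sub_one (inv_ne_zero hx.ne')]
    field_simp
  refine ⟨_, (ev_pos h).mono key, rfl, ?_⟩
  exact (((hasDerivAt_inv_aff h.ne').const_mul (-(v / 4))).fun_mul (key s h)).congr_deriv (by ring)

/-- A product block. -/
noncomputable def PB (g : Fin 2 → ℝ → ℝ) (α γ : Fin 2 → ℝ) : Blk (En 2 → ℝ) where
  a p := g 0 (p 0) / α 0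
  ai p := α 0 / g 0 (p 0)
  C p := g 1 (p 1) / α 1
  Ci p := α 1 / g 1 (p 1)
  F₁ p := α 0 * g 0 (p 0) / γ 0
  F₁i p := γ 0 / (α 0 * g 0 (p 0))
  F₂ p := α 1 * g 1 (p 1) / γ 1
  F₂i p := γ 1 / (α 1 * g 1 (p 1))
  β _ := 0
  f₁ _ := -2
  f₂ _ := -2

structure PBFacts (B : Blk (En 2 → ℝ)) (g g' g'' α : Fin 2 → ℝ) (p : En 2) : Prop where
  lap : ∀ F, B.lap pdn (B.T pdn F) (pdn 1 F) p =
    ∑ i, (g i * pdn i (pdn i F) p + (g' i + 2 * g i) * pdn i F p) / α i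
  e11 : B.e11 pdn p = 1 / 2 - (g'' 0 + 2 * g' 0) / (2 * α 0)
  e22 : B.e22 pdn p = 1 / 2 - (g'' 1 + 2 * g' 1) / (2 * α 1)
  e₁ : B.e₁ pdn p = 1 / 2 - (g'' 0 + 2 * g' 0) / (2 * α 0)
  e₂ : B.e₂ pdn p = 1 / 2 - (g'' 1 + 2 * g' 1) / (2 * α 1)
  e12 : B.e12 pdn p = 0
  kON : kON B p = ![0, -g'' 0 / (2 * α 0), 0, 0, 0, 0, -g'' 1 / (2 * α 1), 0]
  scal : B.scal pdn p = ∑ i, -g'' i / α i

theorem pdn_zero (i : Fin 2) : pdn i (0 : En 2 → ℝ) = 0 := by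
  funext p; simp [pdn]

theorem pb_facts {g g' : Fin 2 → ℝ → ℝ} {g'' α γ : Fin 2 → ℝ} {p : En 2}
    (h1 : ∀ i x, HasDerivAt (g i) (g' i x) x) (h2 : ∀ i, HasDerivAt (g' i) (g'' i) (p i))
    (hα : ∀ i, α i ≠ 0) (hγ : ∀ i, γ i ≠ 0) (hg : ∀ i, g i (p i) ≠ 0) :
    PBFacts (PB g α γ) (fun i => g i (p i)) (fun i => g' i (p i)) g'' α p := by
  set B := PB g α γ with hB
  have a0 := hα 0
  have a1 := hα 1
  have g0 := hg 0
  have g1 := hg 1
  have hβ : B.β = 0 := rfl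
  have hT : ∀ F, B.T pdn F = pdn 0 F := fun F => by simp [Blk.T, hβ]
  have d1 : ∀ i x, deriv (fun x => g i x / α i) x = g' i x / α i := fun i x =>
    ((h1 i x).div_const _).deriv
  have d2 : ∀ i x, deriv (fun x => α i * g i x / γ i) x = α i * g' i x / γ i := fun i x =>
    (((h1 i x).const_mul _).div_const _).deriv
  have c1 : ∀ i (x y : ℝ), x / α i * (α i / y) = x / y := fun i x y => by
    rw [div_mul_div_cancel₀ (hα i)]
  have c2 : ∀ i (x y : ℝ), 1 / 2 * (α i * x / γ i * (γ i / (α i * y))) = x / y / 2 :=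
    fun i x y => by rw [div_mul_div_cancel₀ (hγ i), mul_div_mul_left _ _ (hα i)]; ring
  have hta : B.ta pdn = fun q => g' 0 (q 0) / g 0 (q 0) := by
    funext q; simp only [Blk.ta, hT, Pi.mul_apply]
    exact (congrArg (· * _) (pdn_one (fun x => g 0 x / α 0) 0 0 q)).trans (by simp [d1, hB, PB, c1])
  have hxc : B.xc pdn = fun q => g' 1 (q 1) / g 1 (q 1) := by
    funext q; simp only [Blk.xc, Pi.mul_apply]
    exact (congrArg (· * _) (pdn_one (fun x => g 1 x / α 1) 1 1 q)).trans (by simp [d1, hB, PB, c1])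
  have htc : B.tc pdn = 0 := by
    funext q; simp only [Blk.tc, hT, Pi.mul_apply]
    exact (congrArg (· * _) (pdn_one (fun x => g 1 x / α 1) 1 0 q)).trans (by simp)
  have hxa : B.xa pdn = 0 := by
    funext q; simp only [Blk.xa, Pi.mul_apply]
    exact (congrArg (· * _) (pdn_one (fun x => g 0 x / α 0) 0 1 q)).trans (by simp)
  have ht₁ : B.t₁ pdn = fun q => g' 0 (q 0) / g 0 (q 0) / 2 := by
    funext q; simp only [Blk.t₁, hT, Pi.mul_apply, Pi.smul_apply, smul_eq_mul]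
    rw [← c2 0, ← d2]
    exact congrArg (fun x : ℝ => 1 / 2 * (x * B.F₁i q))
      ((pdn_one (fun x => α 0 * g 0 x / γ 0) 0 0 q).trans (if_pos rfl))
  have hx₂ : B.x₂ pdn = fun q => g' 1 (q 1) / g 1 (q 1) / 2 := by
    funext q; simp only [Blk.x₂, Pi.mul_apply, Pi.smul_apply, smul_eq_mul]
    rw [← c2 1, ← d2]
    exact congrArg (fun x : ℝ => 1 / 2 * (x * B.F₂i q))
      ((pdn_one (fun x => α 1 * g 1 x / γ 1) 1 1 q).trans (if_pos rfl))
  have ht₂ : B.t₂ pdn = 0 := by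
    funext q; simp only [Blk.t₂, hT, Pi.mul_apply, Pi.smul_apply, smul_eq_mul]
    exact (congrArg (fun x : ℝ => 1 / 2 * (x * B.F₂i q))
      (pdn_one (fun x => α 1 * g 1 x / γ 1) 1 0 q)).trans (by simp)
  have hx₁ : B.x₁ pdn = 0 := by
    funext q; simp only [Blk.x₁, Pi.mul_apply, Pi.smul_apply, smul_eq_mul]
    exact (congrArg (fun x : ℝ => 1 / 2 * (x * B.F₁i q))
      (pdn_one (fun x => α 0 * g 0 x / γ 0) 0 1 q)).trans (by simp)
  have hj : B.j pdn = 0 := by simp [Blk.j, htc, hβ, pdn_zero]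
  have hl : B.l pdn = 0 := by simp [Blk.l, hxa]
  have hK : B.K pdn = 0 := by simp [Blk.K, hj, hl, hT, pdn_zero]
  have hy₁ : B.y₁ pdn = fun q => -2 - g' 0 (q 0) / g 0 (q 0) / 2 := by
    funext q; simp [Blk.y₁, ht₁, ht₂, show B.f₁ q = -2 from rfl]
  have hy₂ : B.y₂ pdn = fun q => -2 - g' 1 (q 1) / g 1 (q 1) / 2 := by
    funext q; simp [Blk.y₂, hx₁, hx₂, show B.f₂ q = -2 from rfl]
  have ha : B.a p = g 0 (p 0) / α 0 := rfl
  have hC : B.C p = g 1 (p 1) / α 1 := rfl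
  have d3 : ∀ i, HasDerivAt (fun x => g' i x / g i x / 2)
      ((g'' i * g i (p i) - g' i (p i) * g' i (p i)) / g i (p i) ^ 2 / 2) (p i) := fun i =>
    ((h2 i).fun_div (h1 i _) (hg i)).div_const 2
  have p1 : ∀ i j, pdn j (fun q => g' i (q i) / g i (q i) / 2) p = if j = i then
      (g'' i * g i (p i) - g' i (p i) * g' i (p i)) / g i (p i) ^ 2 / 2 else 0 := fun i j => by
    rw [← (d3 i).deriv]; exact pdn_one (fun x => g' i x / g i x / 2) i j p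
  have p2 : ∀ i j, j ≠ i → pdn j (fun q => -2 - g' i (q i) / g i (q i) / 2) p = 0 :=
    fun i j hj => (pdn_one (fun x => -2 - g' i x / g i x / 2) i j p).trans (if_neg hj)
  have p3 : ∀ i, pdn i (fun q => g i (q i) / α i * (-2 - g' i (q i) / g i (q i) / 2)) p =
      -(2 * g' i (p i) + g'' i / 2) / α i := fun i => by
    have := hα i
    have := hg i
    rw [pdn_one (fun x => g i x / α i * (-2 - g' i x / g i x / 2)) i i p, if_pos rfl,
      (((h1 i _).div_const _).fun_mul ((d3 i).const_sub (-2))).deriv]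
    field_simp
    ring
  have p4 : B.a * B.y₁ pdn = fun q => g 0 (q 0) / α 0 * (-2 - g' 0 (q 0) / g 0 (q 0) / 2) := by
    rw [hy₁]; rfl
  have p5 : B.C * B.y₂ pdn = fun q => g 1 (q 1) / α 1 * (-2 - g' 1 (q 1) / g 1 (q 1) / 2) := by
    rw [hy₂]; rfl
  have k1 : B.k11 pdn (B.t₁ pdn) (B.x₁ pdn) p = -g'' 0 / (2 * α 0) := by
    simp [Blk.k11, Blk.H11, hT, ht₁, hx₁, hta, ha, p1]
    field_simp
    ring
  have k6 : B.k22 pdn (B.t₂ pdn) (B.x₂ pdn) p = -g'' 1 / (2 * α 1) := by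
    simp [Blk.k22, Blk.H22, ht₂, hx₂, hxc, hC, p1]
    field_simp
    ring
  have k3 : B.k22 pdn (B.t₁ pdn) (B.x₁ pdn) p = 0 := by
    simp [Blk.k22, Blk.H22, hx₁, hj, pdn_zero]
  have k4 : B.k11 pdn (B.t₂ pdn) (B.x₂ pdn) p = 0 := by
    simp [Blk.k11, Blk.H11, hT, ht₂, hl, pdn_zero]
  have k2 : B.k12 pdn (B.t₁ pdn) (B.x₁ pdn) p = 0 := by
    simp [Blk.k12, Blk.H12, hT, hx₁, hl, pdn_zero]
  have k5 : B.k12 pdn (B.t₂ pdn) (B.x₂ pdn) p = 0 := by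
    simp [Blk.k12, Blk.H12, hT, ht₂, hx₂, htc, p1]
  have k7 : B.k34 pdn p = 0 := by simp [Blk.k34, ht₂, hx₁]
  refine ⟨fun F => ?_, ?_, ?_, ?_, ?_, ?_, ?_, ?_⟩
  · simp [Blk.lap, Blk.H11, Blk.H22, Blk.Xa, hT, hj, hl, hta, hxc, hy₁, hy₂, ha, hC]
    field_simp
    ring
  · simp only [Blk.e11, hT, p4, Pi.sub_apply, Pi.add_apply, p3]
    simp [hK, Blk.Xa, hta, hxa, hy₁, ht₁, ht₂, ha]
    field_simp
    ring
  · simp only [Blk.e22, p5, Pi.sub_apply, Pi.add_apply, p3]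
    simp [hK, Blk.Xa, htc, hxc, hy₂, hx₁, hx₂, hC, hβ, pdn_zero]
    field_simp
    ring
  · simp [Blk.e₁, Blk.lap, Blk.H11, Blk.H22, Blk.Xa, hT, hj, hl, hta, hy₁, ha, ht₁, hx₁, p1,
      pdn_zero]
    field_simp
    ring
  · simp [Blk.e₂, Blk.lap, Blk.H11, Blk.H22, Blk.Xa, hT, hj, hl, hxc, hy₂, hC, ht₂, hx₂, p1,
      pdn_zero]
    field_simp
    ring
  · simp [Blk.e12, hT, hy₁, hy₂, htc, hxa, ht₂, hx₁, hβ, pdn_zero, p2]
  · funext j
    fin_cases j <;> simp [MP_df9110_gt.kON, Blk.kv, hK, k1, k2, k3, k4, k5, k6, k7]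
  · simp [Blk.scal, hK, k1, k3, k4, k6, k7]
    field_simp

section Asymp

variable {Z : Type} {l : Filter Z}

/-- Bounded along a filter. -/
@[fun_prop] def Bd (l : Filter Z) (f : Z → ℝ) : Prop := f =O[l] fun _ => (1 : ℝ)

@[fun_prop] theorem Bd.const (c : ℝ) : Bd l fun _ => c := isBigO_const_const c one_ne_zero l
@[fun_prop] theorem Bd.add {f g : Z → ℝ} (hf : Bd l f) (hg : Bd l g) : Bd l fun z => f z + g z :=
  IsBigO.add hf hg
@[fun_prop] theorem Bd.sub {f g : Z → ℝ} (hf : Bd l f) (hg : Bd l g) : Bd l fun z => f z - g z :=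
  IsBigO.sub hf hg
@[fun_prop] theorem Bd.neg {f : Z → ℝ} (hf : Bd l f) : Bd l fun z => -f z := IsBigO.neg_left hf
@[fun_prop] theorem Bd.abs {f : Z → ℝ} (hf : Bd l f) : Bd l fun z => |f z| := IsBigO.abs_left hf
@[fun_prop] theorem Bd.mul {f g : Z → ℝ} (hf : Bd l f) (hg : Bd l g) : Bd l fun z => f z * g z := by
  simpa [Bd] using IsBigO.mul hf hg
@[fun_prop] theorem Bd.pow {f : Z → ℝ} (hf : Bd l f) (k : ℕ) : Bd l fun z => f z ^ k := by
  simpa [Bd] using IsBigO.pow hf k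
@[fun_prop] theorem Bd.div {f : Z → ℝ} (hf : Bd l f) (c : ℝ) : Bd l fun z => f z / c := by
  simpa only [div_eq_mul_inv] using hf.mul (Bd.const _)

theorem Bd.of_le {f g : Z → ℝ} (hg : Bd l g) (h : ∀ᶠ z in l, 0 ≤ f z ∧ f z ≤ g z) : Bd l f :=
  (IsBigO.of_bound' (h.mono fun z hz => by
    rw [Real.norm_of_nonneg hz.1]; exact hz.2.trans (le_abs_self _))).trans hg

theorem Bd.mulO {f g h : Z → ℝ} (hf : f =O[l] h) (hg : Bd l g) : (fun z => f z * g z) =O[l] h := by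
  simpa using hf.mul hg

theorem ev_le {f e : Z → ℝ} (hf : f =O[l] e) (he : Tendsto e l (𝓝 0)) {a : ℝ} (ha : 0 < a) :
    ∀ᶠ z in l, f z ≤ a := (hf.trans_tendsto he).eventually (ge_mem_nhds ha)

/-- The elementary quantities of the corner. -/
structure At (Z : Type) where
  (ε μ ρ : Z → ℝ)
  (q m m1 m2 n n1 n2 t : Fin 2 → Z → ℝ)

namespace At

variable (A : At Z) (D : Fin 2 → ℝ) (M M₀ : ℝ)

def g (i : Fin 2) (z : Z) : ℝ := A.q i z - A.m i z * A.t i z ^ 2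
def g1 (i : Fin 2) (z : Z) : ℝ :=
  2 * A.ε z * D i - (A.ε z * A.m1 i z - 2 * A.m i z) * A.t i z ^ 2
def g2 (i : Fin 2) (z : Z) : ℝ :=
  -((A.ε z ^ 2 * A.m2 i z - 4 * A.ε z * A.m1 i z + 4 * A.m i z) * A.t i z ^ 2)
noncomputable def b (i : Fin 2) (z : Z) : ℝ :=
  8 * A.m i z * (A.t i z / 16 + M * A.n i.rev z * A.t i z ^ 2)
noncomputable def b1 (i : Fin 2) (z : Z) : ℝ :=
  8 * A.ε z * A.m1 i z * (A.t i z / 16 + M * A.n i.rev z * A.t i z ^ 2) -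
    8 * A.m i z * (A.t i z / 16 + 2 * M * A.n i.rev z * A.t i z ^ 2) +
    8 * A.m i.rev z * M * A.ε z * A.n1 i z * A.t i.rev z ^ 2
noncomputable def b2 (i : Fin 2) (z : Z) : ℝ :=
  8 * A.ε z ^ 2 * A.m2 i z * (A.t i z / 16 + M * A.n i.rev z * A.t i z ^ 2) -
    16 * A.ε z * A.m1 i z * (A.t i z / 16 + 2 * M * A.n i.rev z * A.t i z ^ 2) +
    8 * A.m i z * (A.t i z / 16 + 4 * M * A.n i.rev z * A.t i z ^ 2) +
    8 * A.m i.rev z * M * A.ε z ^ 2 * A.n2 i z * A.t i.rev z ^ 2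
noncomputable def B (z : Z) : ℝ := 1 + (A.b M 0 z + A.b M 1 z)
noncomputable def f0 (z : Z) : ℝ := A.ρ z / (16 * M₀)
noncomputable def φ1 (i : Fin 2) (z : Z) : ℝ :=
  A.f0 M₀ z * (-2 * A.ε z * A.μ z * A.B M z + A.b1 M i z)
noncomputable def φ2 (i : Fin 2) (z : Z) : ℝ :=
  A.f0 M₀ z * (20 * A.ε z ^ 2 * A.μ z ^ 2 * A.B M z - 4 * A.ε z * A.μ z * A.b1 M i z + A.b2 M i z)
noncomputable def lap (u v : Fin 2 → ℝ) (z : Z) : ℝ :=
  ∑ i, (A.g i z * v i + (A.g1 D i z + 2 * A.g i z) * u i) / (4 * A.ε z * D i)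
noncomputable def κ (i : Fin 2) (z : Z) : ℝ := A.m i z * A.t i z ^ 2 / (2 * A.ε z * D i)
noncomputable def δ (i : Fin 2) (z : Z) : ℝ :=
  A.m2 i z * A.t i z * (A.ε z * A.t i z / (8 * D i)) - A.m1 i z * A.t i z * (A.t i z / (2 * D i))
noncomputable def ζ (z : Z) : ℝ := |A.δ D 0 z| + |A.δ D 1 z|
noncomputable def G (i : Fin 2) (z : Z) : ℝ :=
  A.μ z * A.g i z / D i * (1 / 2 + 16 * M * A.n i.rev z * A.t i z) +
    8 * M * A.t i z * (A.g i.rev z * A.ε z * A.n2 i.rev z +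
      (A.g1 D i.rev z + 2 * A.g i.rev z) * A.n1 i.rev z) / (4 * D i.rev)
noncomputable def E1 (i : Fin 2) (z : Z) : ℝ :=
  A.B M z * (5 * A.μ z ^ 2 * A.g i z / D i - A.μ z + A.μ z * A.m1 i z * A.t i z ^ 2 / (2 * D i)) +
    A.g i z * A.m2 i z * A.t i z / (8 * D i) +
    2 * M * A.n i.rev z * A.t i z ^ 2 * A.g i z * A.m2 i z / D i -
    A.μ z * A.g i z / D i * (A.m1 i z * A.t i z / 2 + 8 * M * A.n i.rev z * A.m1 i z * A.t i z ^ 2 +
      8 * M * A.m i.rev z * A.t i.rev z ^ 2 * A.n1 i z)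
noncomputable def E2 (i : Fin 2) (z : Z) : ℝ :=
  (A.g1 D i z + A.m i z * A.t i z ^ 2) / (8 * D i) +
    2 * M * A.n i.rev z * A.t i z * (A.g1 D i z - 2 * A.g i z + 2 * A.m i z * A.t i z ^ 2) / D i
noncomputable def P (i : Fin 2) (z : Z) : ℝ :=
  A.m i z * A.t i z * (A.G D M i z - (A.q i z + A.m i z * A.t i z ^ 2 + 2 * A.ε z * D i) /
    (8 * A.ε z * D i)) - 8 * M * A.n i.rev z * A.m i z * A.t i z ^ 2 * (2 * A.κ D i z + 1)
noncomputable def E (z : Z) : ℝ :=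
  ∑ i, (A.ε z * A.E1 D M i z + A.m1 i z * A.t i z * A.E2 D M i z)

theorem lap_φ {z : Z} (hD : ∀ i, D i ≠ 0) (hε : A.ε z ≠ 0) :
    A.lap D (A.φ1 M M₀ · z) (A.φ2 M M₀ · z) z = A.f0 M₀ z *
      (-(A.μ z * (4 * A.q 0 z / D 0 + 4 * A.q 1 z / D 1)) / 4 * A.B M z +
        A.P D M 0 z + A.P D M 1 z + A.E D M z) := by
  have := hD 0
  have := hD 1
  simp only [lap, φ1, φ2, E, Fin.sum_univ_two, P, E1, E2, G, κ, b1, b2, g1, g,
    show Fin.rev (0 : Fin 2) = 1 from rfl, show Fin.rev (1 : Fin 2) = 0 from rfl]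
  field_simp
  ring

structure Good (l : Filter Z) : Prop where
  e0 : Tendsto A.ε l (𝓝 0)
  bq : ∀ i, Bd l (A.q i)
  bm1 : ∀ i, Bd l (A.m1 i)
  bm2 : ∀ i, Bd l (A.m2 i)
  bn1 : ∀ i, Bd l (A.n1 i)
  bn2 : ∀ i, Bd l (A.n2 i)
  ng1 : ∀ i (k : ℕ), (fun z => A.m1 i z * A.t i z) =O[l] fun z => A.ε z ^ k
  ng2 : ∀ i (k : ℕ), (fun z => A.m2 i z * A.t i z) =O[l] fun z => A.ε z ^ k
  pt : ∀ᶠ z in l, 0 < A.ε z ∧ 0 < A.ρ z ∧ A.ρ z ^ 4 = A.μ z ∧ A.μ z ≤ M₀ ∧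
    A.μ z * (4 * A.q 0 z / D 0 + 4 * A.q 1 z / D 1) = 1 ∧ ∀ i, 1 ≤ A.q i z ∧ 0 ≤ A.m i z ∧
      A.m i z ≤ 1 ∧ 0 ≤ A.n i z ∧ A.n i z ≤ 1 ∧ A.m i z * A.n i z = 0 ∧ 0 < A.t i z ∧ A.t i z < 1

variable {A D M M₀} (h : A.Good D M₀ l)
include h

theorem Good.bε : Bd l A.ε := h.e0.isBigO_one ℝ
theorem Good.bm (i : Fin 2) : Bd l (A.m i) :=
  (Bd.const 1).of_le (h.pt.mono fun _ hz => ⟨(hz.2.2.2.2.2 i).2.1, (hz.2.2.2.2.2 i).2.2.1⟩)
theorem Good.bn (i : Fin 2) : Bd l (A.n i) :=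
  (Bd.const 1).of_le (h.pt.mono fun _ hz => ⟨(hz.2.2.2.2.2 i).2.2.2.1, (hz.2.2.2.2.2 i).2.2.2.2.1⟩)
theorem Good.bt (i : Fin 2) : Bd l (A.t i) := (Bd.const 1).of_le (h.pt.mono fun _ hz =>
  ⟨(hz.2.2.2.2.2 i).2.2.2.2.2.2.1.le, (hz.2.2.2.2.2 i).2.2.2.2.2.2.2.le⟩)
theorem Good.bμ : Bd l A.μ := (Bd.const M₀).of_le (h.pt.mono fun _ hz =>
  ⟨hz.2.2.1 ▸ (pow_pos hz.2.1 4).le, hz.2.2.2.1⟩)

theorem Good.err (hD : ∀ i, 0 < D i) (N : ℕ) (i : Fin 2) :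
    (fun z => 1 / 2 - (A.g2 i z + 2 * A.g1 D i z) / (2 * (4 * A.ε z * D i))) =O[l]
      fun z => A.ε z ^ N * A.μ z := by
  have := h.bε
  have := h.bq
  have := h.bt
  refine (((Bd.mulO (g := fun z => A.ε z * A.t i z / (8 * D i)) (h.ng2 i N) (by fun_prop)).sub
    (Bd.mulO (g := fun z => A.t i z / (4 * D i)) (h.ng1 i N) (by fun_prop)) |> Bd.mulO
    (g := fun z => 4 * A.q 0 z / D 0 + 4 * A.q 1 z / D 1) <| by fun_prop).mul
    (isBigO_refl A.μ l)).congr' ?_ EventuallyEq.rfl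
  filter_upwards [h.pt] with z hz
  have := hz.1.ne'
  have := (hD i).ne'
  rw [mul_assoc, mul_comm _ (A.μ z), hz.2.2.2.2.1]
  simp only [g1, g2]
  field_simp
  ring

theorem Good.lapμ (hD : ∀ i, 0 < D i) :
    (fun z => A.lap D (fun _ => -(8 * A.ε z) * A.μ z) (fun _ => (8 * A.ε z) ^ 2 * A.μ z ^ 2) z + 1)
      =O[l] fun z => A.ε z * A.μ z := by
  have := h.bq
  have := h.bt
  have := h.bm
  have := h.bm1
  have := h.bμ
  refine (Bd.mulO (g := fun z => ∑ i, (16 * A.μ z * A.g i z / D i - 4 +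
    2 * A.m1 i z * A.t i z ^ 2 / D i)) (isBigO_refl (fun z => A.ε z * A.μ z) l)
    (by simp only [Fin.sum_univ_two, g]; fun_prop)).congr' ?_ EventuallyEq.rfl
  filter_upwards [h.pt] with z hz
  have := hz.1.ne'
  have := (hD 0).ne'
  have := (hD 1).ne'
  rw [← hz.2.2.2.2.1]
  simp only [lap, Fin.sum_univ_two, g1, g]
  field_simp
  ring

theorem Good.scal (i : Fin 2) : Bd l fun z =>
    (A.ε z * A.m2 i z - 4 * A.m1 i z) * A.t i z ^ 2 / (4 * D i) := by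
  have := h.bε
  have := h.bt
  have := h.bm1
  have := h.bm2
  fun_prop

theorem Good.vol (hD : ∀ i, 0 < D i) : ∀ᶠ z in l, A.ε z * ((1 + A.ε z * D 0) ^ 2 *
    (1 + A.ε z * D 1) ^ 2 * (4 * A.q 0 z / D 0 + 4 * A.q 1 z / D 1) ^ 6) ≤
      256 * D 0 ^ 2 * D 1 ^ 2 := by
  have := h.bε
  have := h.bq
  have := hD 0
  have := hD 1
  exact ev_le (Bd.mulO (isBigO_refl _ l) (by fun_prop)) h.e0 (by positivity)

theorem Good.bar (hD : ∀ i, 0 < D i) (hM₀ : 1 ≤ M₀) (hM : 0 ≤ M) {C₀ : ℝ} (hC : 0 < C₀) :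
    ∀ᶠ z in l, A.ε z * A.ρ z + C₀ * A.ζ D z ≤ A.f0 M₀ z * A.B M z ∧ ∀ i,
      (2 * (A.f0 M₀ z * A.B M z) - 1 / 2) * A.κ D i z + A.lap D (A.φ1 M M₀ · z) (A.φ2 M M₀ · z) z +
        A.ε z * A.ρ z + C₀ * A.ζ D z * (1 + A.ζ D z) *
          (1 + A.f0 M₀ z * A.B M z + A.ζ D z + A.κ D i.rev z) ≤ 0 := by
  have := h.bε
  have := h.bq
  have := h.bt
  have := h.bm
  have := h.bm1
  have := h.bm2
  have := h.bn
  have := h.bn1
  have := h.bn2
  have := h.bμ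
  have bρ : Bd l A.ρ := (Bd.const M₀).of_le (h.pt.mono fun z hz => ⟨hz.2.1.le,
    le_of_pow_le_pow_left₀ four_ne_zero (by linarith)
      (hz.2.2.1 ▸ hz.2.2.2.1.trans (le_self_pow₀ hM₀ four_ne_zero))⟩)
  have bρi : Bd l fun z => (A.ρ z)⁻¹ :=
    Bd.of_le (g := fun z => 1 + (4 * A.q 0 z / D 0 + 4 * A.q 1 z / D 1)) (by fun_prop)
      (h.pt.mono fun z hz => by
        have h0 := inv_pos.2 hz.2.1
        rw [← inv_eq_of_mul_eq_one_right hz.2.2.2.2.1, ← hz.2.2.1, ← inv_pow]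
        refine ⟨h0.le, ?_⟩
        rcases le_total (A.ρ z)⁻¹ 1 with h1 | h1
        · linarith [pow_pos h0 4]
        · linarith [le_self_pow₀ h1 four_ne_zero])
  have hζ : ∀ k : ℕ, A.ζ D =O[l] fun z => A.ε z ^ k := fun k =>
    have : ∀ i, A.δ D i =O[l] fun z => A.ε z ^ k := fun i =>
      (Bd.mulO (h.ng2 i k) (by fun_prop)).sub (Bd.mulO (h.ng1 i k) (by fun_prop))
    (this 0).abs_left.add (this 1).abs_left
  have bζ : Bd l (A.ζ D) := (hζ 0).congr_right fun _ => pow_zero _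
  have bB : Bd l (A.B M) := by unfold B b; fun_prop
  have e1 : ∀ᶠ z in l, ∀ i, A.ε z * (8 * D i * A.G D M i z) ≤ 1 := eventually_all.2 fun i =>
    ev_le (Bd.mulO (isBigO_refl _ l) (by unfold G g1 g; fun_prop)) h.e0 one_pos
  have e2 : ∀ᶠ z in l, A.E D M z ≤ 1 / 16 := by
    have : ∀ i, (fun z => A.ε z * A.E1 D M i z + A.m1 i z * A.t i z * A.E2 D M i z) =O[l] A.ε :=
      fun i => (Bd.mulO (isBigO_refl _ l) (by unfold E1 g; fun_prop)).add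
        (Bd.mulO (by simpa using h.ng1 i 1) (by unfold E2 g1 g; fun_prop))
    exact ev_le (((this 0).add (this 1)).congr_left fun z => by rw [E, Fin.sum_univ_two]) h.e0
      (by norm_num)
  have e3 : ∀ᶠ z in l, ∀ i, (A.ε z * A.ρ z + C₀ * A.ζ D z * (1 + A.ζ D z) *
      (1 + A.f0 M₀ z * A.B M z + A.ζ D z + A.κ D i z)) * (16 * M₀ * (A.ρ z)⁻¹) ≤ 1 / 16 := by
    refine eventually_all.2 fun i => ev_le (Bd.mulO ((Bd.mulO (isBigO_refl _ l) bρ).add ?_)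
      (by fun_prop)) h.e0 (by norm_num)
    refine (Bd.mulO (g := fun z => C₀ * (1 + A.ζ D z) * (A.ε z * (1 + A.f0 M₀ z * A.B M z +
      A.ζ D z) + A.m i z * A.t i z ^ 2 / (2 * D i))) ((hζ 2).mul
      (isBigO_refl (fun z => (A.ε z)⁻¹) l)) (by unfold f0; fun_prop)).congr' ?_ ?_
    · filter_upwards [h.pt] with z hz
      have := hz.1.ne'
      have := (hD i).ne'
      simp only [κ]
      field_simp
    · filter_upwards [h.pt] with z hz
      have := hz.1.ne'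
      field_simp
  filter_upwards [h.pt, e1, e2, e3] with z ⟨hε, hρ, hρ4, hμ, hS, hi⟩ e1 e2 e3
  have hf : 0 < A.f0 M₀ z := by unfold f0; positivity
  have hf1 : A.f0 M₀ z ≤ 1 / 16 := by
    have : A.ρ z ≤ M₀ := le_of_pow_le_pow_left₀ four_ne_zero (by linarith)
      (hρ4 ▸ hμ.trans (le_self_pow₀ hM₀ four_ne_zero))
    rw [f0, div_le_iff₀ (by positivity)]
    linarith
  have hκ : ∀ i, 0 ≤ A.κ D i z := fun i => by
    have := hD i
    have := (hi i).2.1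
    unfold κ; positivity
  have hb : ∀ i, 0 ≤ A.b M i z := fun i => by
    have := (hi i).2.1
    have := (hi i).2.2.2.2.2.2.1
    have := (hi i.rev).2.2.2.1
    unfold b; positivity
  have hB : 1 ≤ A.B M z := by unfold B; linarith [hb 0, hb 1]
  have hζ0 : 0 ≤ A.ζ D z := by unfold ζ; positivity
  have e4 : ∀ i, A.ε z * A.ρ z + C₀ * A.ζ D z * (1 + A.ζ D z) *
      (1 + A.f0 M₀ z * A.B M z + A.ζ D z + A.κ D i z) ≤ A.f0 M₀ z / 16 := fun i => by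
    have := e3 i
    rw [show 16 * M₀ * (A.ρ z)⁻¹ = (A.f0 M₀ z)⁻¹ by simp [f0, div_eq_mul_inv, mul_comm],
      ← div_eq_mul_inv, div_le_iff₀ hf] at this
    linarith
  have hP : ∀ i, A.P D M i z ≤ -(16 * M * A.n i.rev z * A.m i z * A.t i z ^ 2 * A.κ D i z) := by
    intro i
    obtain ⟨hq, hm, -, -, -, -, ht, -⟩ := hi i
    have hn := (hi i.rev).2.2.2.1
    have hd := hD i
    have h1 : A.G D M i z ≤ (A.q i z + A.m i z * A.t i z ^ 2 + 2 * A.ε z * D i) /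
        (8 * A.ε z * D i) := by
      rw [le_div_iff₀ (by positivity)]
      have : 0 ≤ A.m i z * A.t i z ^ 2 + 2 * A.ε z * D i := by positivity
      linarith [e1 i]
    have h2 := mul_nonneg (mul_nonneg hm ht.le) (sub_nonneg.2 h1)
    have h3 : 0 ≤ M * A.n i.rev z * A.m i z * A.t i z ^ 2 := by positivity
    unfold P
    linarith
  refine ⟨?_, fun i => ?_⟩
  · have h1 : 1 ≤ (1 + A.ζ D z) * (1 + A.f0 M₀ z * A.B M z + A.ζ D z + A.κ D 0 z) :=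
      one_le_mul_of_one_le_of_one_le (by linarith) (by nlinarith [hκ 0])
    nlinarith [e4 0, mul_nonneg (mul_nonneg hC.le hζ0) (sub_nonneg.2 h1)]
  rw [A.lap_φ D M M₀ (fun i => (hD i).ne') hε.ne', hS]
  have h1 : A.B M z = 1 + (A.b M i z + A.b M i.rev z) := by
    fin_cases i
    · rfl
    · exact congrArg (1 + ·) (add_comm _ _)
  have h2 : A.P D M 0 z + A.P D M 1 z = A.P D M i z + A.P D M i.rev z := by
    fin_cases i
    · rfl
    · exact add_comm _ _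
  have h3 : A.b M i.rev z * A.κ D i z = A.m i.rev z * A.t i.rev z / 2 * A.κ D i z := by
    simp only [b, κ, Fin.rev_rev]
    linear_combination (8 * A.m i.rev z * M * A.t i.rev z ^ 2 * A.t i z ^ 2 / (2 * A.ε z * D i)) *
      (hi i).2.2.2.2.2.1
  have h4 : ∀ j, A.m j z * A.t j z ≤ 1 := fun j =>
    mul_le_one₀ (hi j).2.2.1 (hi j).2.2.2.2.2.2.1.le (hi j).2.2.2.2.2.2.2.le
  have h5 : A.P D M i.rev z ≤ 0 := (hP _).trans (neg_nonpos.2 (by
    have := (hi i.rev).2.1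
    have := (hi i.rev.rev).2.2.2.1
    have := hκ i.rev
    positivity))
  have h6 : (2 * (A.f0 M₀ z * A.B M z) - 1 / 2) * A.κ D i z + A.f0 M₀ z * A.P D M i z ≤ 0 := by
    have h7 := mul_le_mul_of_nonneg_left (hP i) hf.le
    have h8 : A.f0 M₀ z * (2 + A.m i z * A.t i z + A.m i.rev z * A.t i.rev z) ≤ 1 / 2 := by
      nlinarith [h4 i, h4 i.rev]
    have h9 := mul_le_mul_of_nonneg_right h8 (hκ i)
    rw [h1]
    unfold b at h3 ⊢
    nlinarith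
  nlinarith [e4 i.rev, mul_le_mul_of_nonneg_left h5 hf.le, mul_le_mul_of_nonneg_left e2 hf.le,
    mul_le_mul_of_nonneg_left hB hf.le]

end At

end Asymp

theorem cd_m (c₁ : ℝ) : ContDiff ℝ ∞ (mcut c₁) :=
  Real.smoothTransition.contDiff.comp (by fun_prop)

theorem cd_n (c₁ : ℝ) : ContDiff ℝ ∞ (ncut c₁) :=
  Real.smoothTransition.contDiff.comp (by fun_prop)

theorem mcut_one {c₁ s : ℝ} (hc : 0 < c₁) (h : s ≤ c₁) : mcut c₁ s = 1 :=
  Real.smoothTransition.one_of_one_le (by linarith [(div_le_one hc).2 h])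

theorem deriv_mcut {c₁ s : ℝ} (hc : 0 < c₁) (h : s < c₁) :
    deriv (mcut c₁) s = 0 ∧ deriv (deriv (mcut c₁)) s = 0 := by
  have h1 : mcut c₁ =ᶠ[𝓝 s] fun _ => 1 := (gt_mem_nhds h).mono fun x hx => mcut_one hc hx.le
  exact ⟨by simpa using h1.deriv_eq, by simpa using h1.deriv.deriv_eq⟩

variable (D : Fin 2 → ℝ) (M₀ M c₁ c : ℝ)

/-- The elementary quantities of the corner block. -/
noncomputable def atoms : At (ℝ × En 2) where
  ε z := z.1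
  μ z := μC D z.1 z.2
  ρ z := μC D z.1 z.2 ^ (1 / 4 : ℝ)
  q i z := 1 + 2 * z.1 * D i * z.2 i
  m i z := mcut c₁ (z.1 * z.2 i)
  m1 i z := deriv (mcut c₁) (z.1 * z.2 i)
  m2 i z := deriv (deriv (mcut c₁)) (z.1 * z.2 i)
  n i z := ncut c₁ (z.1 * z.2 i)
  n1 i z := deriv (ncut c₁) (z.1 * z.2 i)
  n2 i z := deriv (deriv (ncut c₁)) (z.1 * z.2 i)
  t i z := Real.exp (-z.2 i)

/-- The filter of the corner region. -/
def lC : Filter (ℝ × En 2) := fam (𝓝[>] 0) fun ε => {p | ∀ i, 0 < p i ∧ ε * p i < c}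

theorem ev_lC : ∀ᶠ z in lC c, 0 < z.1 ∧ ∀ i, 0 < z.2 i ∧ z.1 * z.2 i < c :=
  ev_fam.2 (eventually_mem_nhdsWithin.mono fun _ hε _ hp => ⟨hε, hp⟩)

theorem tendsto_lC : Tendsto Prod.fst (lC c) (𝓝[>] 0) := fun _ hs =>
  ev_fam.2 (Eventually.mono hs fun _ hε _ _ => hε)

theorem bd_cont {f : ℝ → ℝ} (hf : Continuous f) (i : Fin 2) :
    Bd (lC c) fun z => f (z.1 * z.2 i) := by
  obtain ⟨K, hK⟩ := (isCompact_Icc (a := 0) (b := c)).exists_bound_of_continuousOn hf.continuousOn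
  exact IsBigO.of_bound K ((ev_lC c).mono fun z hz => by
    simpa using hK _ ⟨(mul_pos hz.1 (hz.2 i).1).le, (hz.2 i).2.le⟩)

theorem ng_cont {f : ℝ → ℝ} (hf : Continuous f) (hc : 0 < c₁) (h0 : ∀ s < c₁, f s = 0) (i : Fin 2)
    (k : ℕ) : (fun z : ℝ × En 2 => f (z.1 * z.2 i) * Real.exp (-z.2 i)) =O[lC c]
      fun z => z.1 ^ k := by
  have h1 : (fun z : ℝ × En 2 => f (z.1 * z.2 i) * Real.exp (-z.2 i)) =O[lC c]
      fun z => z.1 ^ k * f (z.1 * z.2 i) := by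
    refine IsBigO.of_bound (k.factorial / c₁ ^ k) ((ev_lC c).mono fun z hz => ?_)
    rcases lt_or_ge (z.1 * z.2 i) c₁ with h | h
    · simp [h0 _ h]
    have h2 := Real.pow_div_factorial_le_exp (z.2 i) (hz.2 i).1.le k
    have h3 : c₁ ^ k ≤ z.1 ^ k * z.2 i ^ k := by rw [← mul_pow]; gcongr
    have h4 := pow_pos hz.1 k
    have h5 : Real.exp (-z.2 i) ≤ k.factorial / c₁ ^ k * z.1 ^ k := by
      rw [div_le_iff₀ (by positivity)] at h2
      rw [Real.exp_neg, div_mul_eq_mul_div, le_div_iff₀ (by positivity),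
        inv_mul_le_iff₀ (Real.exp_pos _)]
      nlinarith
    rw [norm_mul, norm_mul, Real.norm_of_nonneg (Real.exp_pos _).le, Real.norm_of_nonneg h4.le,
      ← mul_assoc, mul_comm]
    gcongr
  exact h1.trans (Bd.mulO (isBigO_refl _ _) (bd_cont c hf i))

variable {D M₀ M c₁ c}

theorem S_pos {ε : ℝ} {p : En 2} (hD : ∀ i, 0 < D i) (hε : 0 < ε) (hp : ∀ i, 0 < p i) :
    0 < 4 * (1 + 2 * ε * D 0 * p 0) / D 0 + 4 * (1 + 2 * ε * D 1 * p 1) / D 1 := by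
  have := hD 0
  have := hD 1
  have := hp 0
  have := hp 1
  positivity

theorem good (hD : ∀ i, 0 < D i) (hM₀ : (4 / D 0 + 4 / D 1)⁻¹ ≤ M₀) (hc : 0 < c₁) :
    (atoms D c₁).Good D M₀ (lC c) := by
  have m1 := contDiff_infty_iff_deriv.1 (cd_m c₁) |>.2
  have m2 := contDiff_infty_iff_deriv.1 m1 |>.2
  have n1 := contDiff_infty_iff_deriv.1 (cd_n c₁) |>.2
  have n2 := contDiff_infty_iff_deriv.1 n1 |>.2
  refine ⟨(tendsto_lC c).mono_right nhdsWithin_le_nhds, fun i => ?_, bd_cont c m1.continuous,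
    bd_cont c m2.continuous, bd_cont c n1.continuous, bd_cont c n2.continuous,
    ng_cont c₁ c m1.continuous hc fun s hs => (deriv_mcut hc hs).1,
    ng_cont c₁ c m2.continuous hc fun s hs => (deriv_mcut hc hs).2,
    (ev_lC c).mono fun z hz => ?_⟩
  · exact (bd_cont c (f := fun s => 1 + 2 * D i * s) (by fun_prop) i).congr_left fun z => by
      simp only [atoms]; ring
  have hS := S_pos hD hz.1 fun i => (hz.2 i).1
  have hμ : 0 < μC D z.1 z.2 := inv_pos.2 hS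
  have hq : ∀ i, 1 ≤ 1 + 2 * z.1 * D i * z.2 i := fun i => by
    have := hD i
    have := hz.1
    have := (hz.2 i).1
    exact le_add_of_nonneg_right (by positivity)
  refine ⟨hz.1, Real.rpow_pos_of_pos hμ _, ?_, le_trans ?_ hM₀, inv_mul_cancel₀ hS.ne', fun i =>
    ⟨hq i, Real.smoothTransition.nonneg _, Real.smoothTransition.le_one _,
      Real.smoothTransition.nonneg _, Real.smoothTransition.le_one _, ?_, Real.exp_pos _,
      Real.exp_lt_one_iff.2 (neg_neg_of_pos (hz.2 i).1)⟩⟩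
  · simpa [atoms] using Real.rpow_inv_natCast_pow hμ.le four_ne_zero
  · have := hD 0
    have := hD 1
    refine inv_anti₀ (by positivity) (add_le_add ?_ ?_) <;> gcongr <;> linarith [hq 0, hq 1]
  · rcases le_total (z.1 * z.2 i / c₁) 2 with h | h
    · exact mul_eq_zero_of_right _ (Real.smoothTransition.zero_of_nonpos (sub_nonpos.2 h))
    · exact mul_eq_zero_of_left (Real.smoothTransition.zero_of_nonpos (sub_nonpos.2 h)) _

theorem exp_two (x : ℝ) : Real.exp (-(2 * x)) = Real.exp (-x) ^ 2 := by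
  rw [← Real.exp_nat_mul]; congr 1; push_cast; ring

theorem gC_pos {d ε σ : ℝ} (hd : 0 < d) (hε : 0 < ε) (hσ : 0 < σ) : 0 < gC c₁ d ε σ := by
  have h1 : Real.exp (-(2 * σ)) < 1 := Real.exp_lt_one_iff.2 (by linarith)
  have h2 := mul_le_of_le_one_left (Real.exp_pos (-(2 * σ))).le
    (Real.smoothTransition.le_one (2 - ε * σ / c₁))
  have h3 : 0 < 2 * ε * d * σ := by positivity
  unfold gC mcut
  linarith

theorem facts {ε : ℝ} {p : En 2} (hD : ∀ i, 0 < D i) (hε : 0 < ε) (hp : ∀ i, 0 < p i) :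
    PBFacts (BC c₁ D ε) ((atoms D c₁).g · (ε, p)) ((atoms D c₁).g1 D · (ε, p))
      ((atoms D c₁).g2 · (ε, p)) (fun i => 4 * ε * D i) p := by
  have m1 := contDiff_infty_iff_deriv.1 (cd_m c₁)
  have m2 := (contDiff_infty_iff_deriv.1 m1.2).1
  have h3 : ∀ a x : ℝ, HasDerivAt (fun x => a * x) a x := fun a x => by
    simpa using (hasDerivAt_id x).const_mul a
  have := pb_facts (g := fun i => gC c₁ (D i) ε) (g' := fun i x => 2 * ε * D i -
    (ε * deriv (mcut c₁) (ε * x) - 2 * mcut c₁ (ε * x)) * Real.exp (-(2 * x)))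
    (g'' := ((atoms D c₁).g2 · (ε, p))) (α := fun i => 4 * ε * D i) (γ := fun i => (1 + ε * D i) ^ 2)
    (p := p) (fun i x => (((h3 _ x).const_add 1).fun_sub (((m1.1 _).hasDerivAt.comp x
      (h3 ε x)).fun_mul (h3 2 x).fun_neg.exp)).congr_deriv (by simp only [Function.comp]; ring))
    (fun i => ((((((m2 _).hasDerivAt.comp (p i) (h3 ε _)).const_mul ε).fun_sub
      (((m1.1 _).hasDerivAt.comp (p i) (h3 ε _)).const_mul 2)).fun_mul
      (h3 2 _).fun_neg.exp).const_sub _).congr_deriv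
      (by simp only [Function.comp, At.g2, atoms, exp_two]; ring))
    (fun i => by have := hD i; positivity) (fun i => by have := hD i; positivity)
    fun i => (gC_pos (hD i) hε (hp i)).ne'
  simp only [At.g, At.g1, atoms, ← exp_two]
  exact this

theorem μ_line (hD : ∀ i, 0 < D i) (ε : ℝ) (p : En 2) (i : Fin 2) (x : ℝ) :
    μC D ε (Function.update p i x) =
      (4 / D i + 4 * (1 + 2 * ε * D i.rev * p i.rev) / D i.rev + 8 * ε * x)⁻¹ := by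
  have := (hD 0).ne'
  have := (hD 1).ne'
  fin_cases i <;> simp [μC] <;> field_simp <;> ring

/-- The barrier. -/
noncomputable def φC (D : Fin 2 → ℝ) (M₀ M c₁ ε : ℝ) (p : En 2) : ℝ :=
  μC D ε p ^ (1 / 4 : ℝ) / (16 * M₀) * (1 + (bT c₁ M ε (p 0) (ncut c₁ (ε * p 1)) +
    bT c₁ M ε (p 1) (ncut c₁ (ε * p 0))))

theorem φC_eq (ε : ℝ) (p : En 2) :
    φC D M₀ M c₁ ε p = (atoms D c₁).f0 M₀ (ε, p) * (atoms D c₁).B M (ε, p) := by
  simp only [φC, bT, exp_two]; rfl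

theorem smooth {ε : ℝ} {p : En 2} (hD : ∀ i, 0 < D i) (hε : 0 < ε) (hp : ∀ i, 0 < p i) :
    ContDiffAt ℝ ∞ (μC D ε) p ∧ ContDiffAt ℝ ∞ (φC D M₀ M c₁ ε) p := by
  have := cd_m c₁
  have := cd_n c₁
  have hS := S_pos hD hε hp
  have h1 : ContDiffAt ℝ ∞ (μC D ε) p := ContDiffAt.inv (by fun_prop) hS.ne'
  refine ⟨h1, ((h1.rpow_const_of_ne (inv_ne_zero hS.ne')).div_const _).mul ?_⟩
  unfold bT
  fun_prop

theorem jets {ε : ℝ} {p : En 2} (hD : ∀ i, 0 < D i) (hε : 0 < ε) (hp : ∀ i, 0 < p i)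
    (i : Fin 2) :
    (pdn i (fun q => Real.log (μC D ε q)) p = -(8 * ε) * μC D ε p ∧
      pdn i (pdn i fun q => Real.log (μC D ε q)) p = (8 * ε) ^ 2 * μC D ε p ^ 2) ∧
    pdn i (φC D M₀ M c₁ ε) p = (atoms D c₁).φ1 M M₀ i (ε, p) ∧
      pdn i (pdn i (φC D M₀ M c₁ ε)) p = (atoms D c₁).φ2 M M₀ i (ε, p) := by
  obtain ⟨h1, h2⟩ := smooth (M₀ := M₀) (M := M) (c₁ := c₁) hD hε hp
  have hμ := μ_line hD ε p i (p i)
  rw [Function.update_eq_self] at hμ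
  have h0 : 0 < 4 / D i + 4 * (1 + 2 * ε * D i.rev * p i.rev) / D i.rev + 8 * ε * p i :=
    inv_pos.1 (hμ ▸ inv_pos.2 (S_pos hD hε hp))
  refine ⟨J2.pdn (h1.log (inv_ne_zero (S_pos hD hε hp).ne')) ((J2.log h0).congr
    (funext fun x => by rw [μ_line hD]) (by rw [hμ]) (by rw [hμ])), J2.pdn h2 ?_⟩
  have hB : (atoms D c₁).B M (ε, p) =
      1 + ((atoms D c₁).b M i (ε, p) + (atoms D c₁).b M i.rev (ε, p)) := by
    fin_cases i
    · rfl
    · exact congrArg (1 + ·) (add_comm _ _)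
  refine (((J2.rpow h0).mul (J2.const (16 * M₀)⁻¹ _)).mul ((J2.const 1 _).add
    ((((J2.const 8 _).mul (J2.scale (cd_m c₁) ε _)).mul (((J2.exp 1 _).mul (J2.const 16⁻¹ _)).add
      ((J2.const (M * ncut c₁ (ε * p i.rev)) _).mul (J2.exp 2 _)))).add
    ((J2.const (8 * mcut c₁ (ε * p i.rev)) _).mul ((J2.const (Real.exp (-p i.rev) / 16) _).add
      (((J2.const M _).mul (J2.scale (cd_n c₁) ε _)).mul
        (J2.const (Real.exp (-(2 * p i.rev))) _))))))).congr (funext fun x => ?_) ?_ ?_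
  · rw [φC, μ_line hD]
    fin_cases i <;> simp [bT, div_eq_mul_inv, add_comm]
  · rw [At.φ1, hB]
    simp only [At.f0, At.b, At.b1, atoms, ← hμ, exp_two, one_mul, Fin.rev_rev]
    ring
  · rw [At.φ2, hB]
    simp only [At.f0, At.b, At.b1, At.b2, atoms, ← hμ, exp_two, one_mul, Fin.rev_rev]
    ring

theorem sm {ε : ℝ} {p : En 2} (hD : ∀ i, 0 < D i) (hε : 0 < ε) (hp : ∀ i, 0 < p i) :
    (BC c₁ D ε).All (fun f => ContDiffAt ℝ ∞ f p) ∧ ContDiffAt ℝ ∞ (μC D ε) p ∧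
      ContDiffAt ℝ ∞ (φC D M₀ M c₁ ε) p ∧ ((BC c₁ D ε).map fun f => f p).Ok := by
  have := cd_m c₁
  have hg : ∀ i, ContDiffAt ℝ ∞ (fun q : En 2 => gC c₁ (D i) ε (q i)) p := fun i => by
    unfold gC; fun_prop
  have g0 : ∀ i, gC c₁ (D i) ε (p i) ≠ 0 := fun i => (gC_pos (hD i) hε (hp i)).ne'
  have a0 : ∀ i, 4 * ε * D i ≠ 0 := fun i => by have := hD i; positivity
  have c0 : ∀ i, (1 + ε * D i) ^ 2 ≠ 0 := fun i => by have := hD i; positivity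
  have i1 : ∀ {x y : ℝ}, x ≠ 0 → y ≠ 0 → x / y * (y / x) = 1 := fun hx hy => by field_simp
  exact ⟨⟨(hg 0).div_const _, contDiffAt_const.div (hg 0) (g0 0), (hg 1).div_const _,
    contDiffAt_const.div (hg 1) (g0 1), (contDiffAt_const.mul (hg 0)).div_const _,
    contDiffAt_const.div (contDiffAt_const.mul (hg 0)) (mul_ne_zero (a0 0) (g0 0)),
    (contDiffAt_const.mul (hg 1)).div_const _,
    contDiffAt_const.div (contDiffAt_const.mul (hg 1)) (mul_ne_zero (a0 1) (g0 1)),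
    contDiffAt_const, contDiffAt_const, contDiffAt_const⟩, (smooth (M₀ := M₀) (M := M) (c₁ := c₁)
    hD hε hp).1, (smooth hD hε hp).2, i1 (g0 0) (a0 0), i1 (g0 1) (a0 1),
    i1 (mul_ne_zero (a0 0) (g0 0)) (c0 0), i1 (mul_ne_zero (a0 1) (g0 1)) (c0 1)⟩

end CorBlk

open CorBlk in
theorem corBlk (ba : BarAlgStmt) : CorBlkStmt := by
  intro D M₀ M c₁ c N hD hM₀ hDM hM hc
  obtain ⟨C₀, hC₀, hba⟩ := ba
  have G := good (c := c) hD hDM hc
  obtain ⟨A, hA⟩ : ∃ A, A = atoms D c₁ := ⟨_, rfl⟩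
  rw [← hA] at G
  obtain ⟨C, e0, e1, e2, e3, e4, hC⟩ := ((isBigO_iff_eventually.1 (G.err hD N 0)).and
    ((isBigO_iff_eventually.1 (G.err hD N 1)).and ((isBigO_iff_eventually.1 (G.lapμ hD)).and
    ((isBigO_iff_eventually.1 ((G.scal 0).add (G.scal 1))).and
    ((eventually_ge_atTop (2 / D 0 + 2 / D 1)).and (eventually_ge_atTop 2)))))).exists
  refine ⟨2 * C, (ev_fam (l₀ := 𝓝[>] 0) (Ω := fun ε => {p | ∀ i, 0 < p i ∧ ε * p i < c})
    (P := fun z => PtOK z.1 (BC c₁ D z.1) (μC D z.1) (φC D M₀ M c₁ z.1) (2 * C * z.1 ^ N) (2 * C)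
      (fun x => x ≤ (1 / D 0 + 1 / D 1) / z.1 + 2 * C ∧
        ((∀ i, z.2 i ≤ z.1) → (1 / D 0 + 1 / D 1) / z.1 - 2 * C ≤ x)) z.2)).1 ?_⟩
  have e5 : ∀ᶠ z in lC c, z.1 * z.1 ≤ c₁ := ev_le (Bd.mulO (isBigO_refl _ _) (hA ▸ G).bε)
    (hA ▸ G).e0 hc
  filter_upwards [e0, e1, e2, e3, e5, ev_lC c, G.pt, G.vol hD, G.bar (M := M) hD hM₀ hM hC₀]
    with ⟨ε, p⟩ e0 e1 e2 e3 e5 ⟨hε, hp⟩ ⟨_, hρ, hρ4, _, hS, hi⟩ hvol hbar
  have hp' : ∀ i, 0 < p i := fun i => (hp i).1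
  have F := facts (c₁ := c₁) hD hε hp'
  have J := jets (M₀ := M₀) (M := M) (c₁ := c₁) hD hε hp'
  have hφ := φC_eq (D := D) (M₀ := M₀) (M := M) (c₁ := c₁) ε p
  rw [← hA] at F J hφ
  have hAε : A.ε (ε, p) = ε := by rw [hA]; rfl
  have hAμ : A.μ (ε, p) = μC D ε p := by rw [hA]; rfl
  have hAρ : A.ρ (ε, p) = μC D ε p ^ (1 / 4 : ℝ) := by rw [hA]; rfl
  have hAg : ∀ i, A.g i (ε, p) = gC c₁ (D i) ε (p i) := fun i => by
    simp only [hA, At.g, atoms, gC, exp_two]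
  have hμ : 0 < μC D ε p := inv_pos.2 (S_pos hD hε hp')
  have g0 : ∀ i, 0 < gC c₁ (D i) ε (p i) := fun i => gC_pos (hD i) hε (hp' i)
  have d0 := hD 0
  have d1 := hD 1
  have hg0 := g0 0
  have hg1 := g0 1
  have hC0 : (0 : ℝ) ≤ 2 := zero_le_two
  have hC1 : 0 ≤ C := hC0.trans hC
  have hN : 0 < ε ^ N * μC D ε p := by positivity
  have hT : ∀ f, (BC c₁ D ε).T pdn f = pdn 0 f := fun f => by
    simp [Blk.T, show (BC c₁ D ε).β = 0 from rfl]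
  have hk : ∀ i, -A.g2 i (ε, p) / (2 * (4 * ε * D i)) - A.κ D i (ε, p) = A.δ D i (ε, p) :=
    fun i => by
      have := hD i
      simp only [At.g2, At.κ, At.δ, hAε]
      field_simp
      ring
  have hκ : ∀ i, 0 ≤ A.κ D i (ε, p) := fun i => by
    have := hD i
    have := (hi i).2.1
    simp only [At.κ, hAε]
    positivity
  simp only [Real.norm_eq_abs, hAε, hAμ, abs_of_pos hN, abs_of_pos (mul_pos hε hμ), abs_one,
    mul_one] at e0 e1 e2 e3 hS hvol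
  dsimp only at e5 hε ⊢
  refine ⟨?_, ⟨by simp only [BC]; positivity, by simp only [BC]; positivity,
    by simp only [BC]; positivity, by simp only [BC]; positivity, hμ⟩, ?_, ?_, ?_, ?_, ?_, ?_⟩
  · filter_upwards [eventually_all.2 fun i =>
      (continuous_apply i).continuousAt.eventually (lt_mem_nhds (hp' i))] with q hq
    exact sm hD hε hq
  · rw [F.e11, F.e22, F.e₁, F.e₂, F.e12, abs_zero, mul_zero]
    have h1 : 0 ≤ C * (ε ^ N * μC D ε p) := by positivity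
    have h2 : C * (ε ^ N * μC D ε p) ≤ 2 * C * ε ^ N * μC D ε p := by linear_combination h1
    exact ⟨e0.trans h2, e1.trans h2, e0.trans h2, e1.trans h2, h1.trans h2⟩
  · rw [F.lap]
    simp only [(J _).1.1, (J _).1.2]
    simp only [At.lap, hAε] at e2
    exact e2.trans (mul_le_mul_of_nonneg_right (by linear_combination hC1) (mul_pos hε hμ).le)
  · rw [hT, (J 0).1.1, (J 1).1.1]
    have h1 : ∀ i, gC c₁ (D i) ε (p i) / (4 * ε * D i) * (-(8 * ε) * μC D ε p) ^ 2 ≤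
        4 * (ε * μC D ε p) * (μC D ε p * (4 * A.q i (ε, p) / D i)) := fun i => by
      have := hD i
      have h2 : gC c₁ (D i) ε (p i) ≤ A.q i (ε, p) := by
        rw [← hAg]
        exact sub_le_self _ (mul_nonneg (hi i).2.1 (sq_nonneg _))
      calc _ = 16 * ε * μC D ε p ^ 2 / D i * gC c₁ (D i) ε (p i) := by field_simp; ring
        _ ≤ 16 * ε * μC D ε p ^ 2 / D i * A.q i (ε, p) := by gcongr
        _ = _ := by ring
    have h2 := add_le_add (h1 0) (h1 1)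
    rw [← mul_add, ← mul_add, hS] at h2
    exact h2.trans (by linear_combination 2 * mul_le_mul_of_nonneg_right hC (mul_pos hε hμ).le)
  · have h1 := mul_le_mul_of_nonneg_left hvol (pow_pos hμ 6).le
    rw [← mul_assoc, mul_comm _ ε, mul_assoc, mul_left_comm (_ ^ 6), ← mul_pow (μC D ε p), hS,
      one_pow, mul_one] at h1
    simp only [BC]
    calc _ = ε * ((1 + ε * D 0) ^ 2 * (1 + ε * D 1) ^ 2) * (ε ^ 2 * gC c₁ (D 0) ε (p 0) *
          gC c₁ (D 1) ε (p 1) / (16 * D 0 * D 1 * (1 + ε * D 0) ^ 2 * (1 + ε * D 1) ^ 2)) := by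
          field_simp; ring
      _ ≤ _ := mul_le_mul_of_nonneg_right h1 (by positivity)
      _ = _ := by field_simp; ring
  · rw [F.kON, F.lap, hφ, ← hAρ]
    simp only [(J _).2.1, (J _).2.2]
    simp only [At.lap, hAε] at hbar
    have hζ : 0 ≤ A.ζ D (ε, p) := by unfold At.ζ; positivity
    refine hba _ _ _ _ _ _ _ (hκ 0) (hκ 1) hζ (le_trans (by positivity) hbar.1) ?_ ?_
      (fun j h1 h6 => ?_) hbar.1 (hbar.2 0) (hbar.2 1)
    · exact (congrArg abs (hk 0)).trans_le (le_add_of_nonneg_right (abs_nonneg _))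
    · exact (congrArg abs (hk 1)).trans_le (le_add_of_nonneg_left (abs_nonneg _))
    · fin_cases j <;> first | exact absurd rfl h1 | exact absurd rfl h6 | exact abs_zero.trans_le hζ
  · have h1 : ∀ i, -A.g2 i (ε, p) / (4 * ε * D i) = A.m i (ε, p) * A.t i (ε, p) ^ 2 / D i / ε +
        (ε * A.m2 i (ε, p) - 4 * A.m1 i (ε, p)) * A.t i (ε, p) ^ 2 / (4 * D i) := fun i => by
      have := hD i
      simp only [At.g2, hAε]
      field_simp
      ring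
    have h2 : ∀ i, A.m i (ε, p) * A.t i (ε, p) ^ 2 / D i / ε ≤ 1 / D i / ε := fun i => by
      have := hD i
      obtain ⟨-, h3, h4, -, -, -, h5, h6⟩ := hi i
      gcongr
      exact mul_le_one₀ h4 (sq_nonneg _) (pow_le_one₀ h5.le h6.le)
    rw [F.scal, Fin.sum_univ_two, h1, h1, add_div]
    refine ⟨by linear_combination h2 0 + h2 1 + (abs_le.1 e3).2 + hC1, fun h => ?_⟩
    have h3 : ∀ i, 1 / D i / ε - 2 / D i ≤ A.m i (ε, p) * A.t i (ε, p) ^ 2 / D i / ε := fun i => by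
      have := hD i
      have h4 : 1 - 2 * ε ≤ A.m i (ε, p) * A.t i (ε, p) ^ 2 := by
        simp only [hA, atoms, ← exp_two]
        rw [mcut_one hc ((mul_le_mul_of_nonneg_left (h i) hε.le).trans e5), one_mul]
        linarith [Real.add_one_le_exp (-(2 * p i)), h i]
      calc _ = (1 - 2 * ε) / D i / ε := by field_simp
        _ ≤ _ := by gcongr
    linear_combination h3 0 + h3 1 + (abs_le.1 e3).1 + e4

end Pool.Agent.Lib.MP_df9110_gt
end
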