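import Pool.Agent.Lib.MP_df9110_gt.Cova

/-! The outer errors, curvatures and the other outer quantities in the frame of the layer. -/

set_option linter.unusedSimpArgs false
set_option linter.unusedSectionVars false

namespace Pool.Agent.Lib.MP_df9110_gt

namespace Cov

section Alg

variable {R : Type} [CommRing R] {ε εi μ μi A Ai C Ci Z Zi L Li q P0 t bp : R}

theorem alg11 (hε : ε * εi = 1) (hμ : μ * μi = 1) (hA : A * Ai = 1) (hC : C * Ci = 1)
    (hZ : Z * Zi = 1) (hq : 4 * q = 1) {Pp P1 : R} (h : Z = 4 * μ ^ 2 * A * Pp ^ 2 + C * P1 ^ 2) :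
    ε * μi * Zi = (ε * μ ^ 2 * (4 * A * Pp * Zi)) ^ 2 * (q * (εi * μi ^ 3 * Ai)) +
      (ε * (C * P1 * Zi)) ^ 2 * (εi * μi * Ci) := by
  grind

theorem alg12 (hε : ε * εi = 1) (hμ : μ * μi = 1) (hA : A * Ai = 1) (hC : C * Ci = 1)
    (hq : 4 * q = 1) :
    0 = ε * μ ^ 2 * (4 * A * (P0 + bp * -(P0 * t)) * Zi) * t * (q * (εi * μi ^ 3 * Ai)) +
      ε * (C * -(P0 * t) * Zi) * (1 - bp * t) * (εi * μi * Ci) := by
  grind

theorem algL {m : R} (hε : ε * εi = 1) (hA : A * Ai = 1) (hC : C * Ci = 1) (hZ : Z * Zi = 1)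
    (hL : L * Li = 1) (hq : 4 * q = 1) (hm : m * P0 = ε) (h : L = 4 * P0 ^ 2 * A * C * Zi) :
    Li = q * (m * εi) ^ 2 * Ai * Ci * Z := by
  grind

theorem alg22 {m : R} (hε : ε * εi = 1) (hμ : μ * μi = 1) (hA : A * Ai = 1) (hC : C * Ci = 1)
    (hq : 4 * q = 1) (hm : m * P0 = ε) (hL : Li = q * (m * εi) ^ 2 * Ai * Ci * Z)
    (h : Z = 4 * μ ^ 2 * A * (P0 + bp * -(P0 * t)) ^ 2 + C * (-(P0 * t)) ^ 2) :
    εi * μi ^ 3 * Li = t ^ 2 * (q * (εi * μi ^ 3 * Ai)) + (1 - bp * t) ^ 2 * (εi * μi * Ci) := by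
  grind

theorem algf₁ (hε : ε * εi = 1) (hμ : μ * μi = 1) (hA : A * Ai = 1) (hC : C * Ci = 1)
    (hq : 4 * q = 1) {P1 : R} :
    P0 * Zi = ε * μ ^ 2 * (4 * A * (P0 + bp * P1) * Zi) * (q * (εi * μi ^ 2 * Ai)) +
      ε * (C * P1 * Zi) * -(εi * bp * Ci) := by
  grind

theorem algf₂ {m : R} (hε : ε * εi = 1) (hμ : μ * μi = 1) (hA : A * Ai = 1) (hC : C * Ci = 1)
    (hZ : Z * Zi = 1) (hq : 4 * q = 1) (hm : m * P0 = ε)
    (hL : Li = q * (m * εi) ^ 2 * Ai * Ci * Z) :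
    εi * μi ^ 2 * -((4 * μ ^ 2 * A * (P0 + bp * -(P0 * t)) * bp + C * -(P0 * t)) * Zi * P0) * Li =
      t * (q * (εi * μi ^ 2 * Ai)) + (1 - bp * t) * -(εi * bp * Ci) := by
  grind

theorem algc₁ (hε : ε * εi = 1) (hμ : μ * μi = 1) (hC : C * Ci = 1) (hZ : Z * Zi = 1)
    {X τ P1 a y c : R}
    (h : X * (ε * μi * Zi) = (ε * μ ^ 2 * τ) ^ 2 * (a * (q * (εi * μi ^ 3 * Ai))) +
      2 * (ε * μ ^ 2 * τ) * (ε * (C * P1 * Zi)) * y +
      (ε * (C * P1 * Zi)) ^ 2 * (c * (εi * μi * Ci))) :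
    X = q * (Z * μ ^ 2 * τ ^ 2 * Ai * a) + 2 * ε * μ ^ 3 * τ * C * P1 * y + C * P1 ^ 2 * Zi * c := by
  grind

theorem algc₂ (hε : ε * εi = 1) (hμ : μ * μi = 1) (hC : C * Ci = 1) {X τ P1 a y c u : R}
    (h : X = ε * μ ^ 2 * τ * t * (a * (q * (εi * μi ^ 3 * Ai))) +
      (ε * μ ^ 2 * τ * u + ε * (C * P1 * Zi) * t) * y +
      ε * (C * P1 * Zi) * u * (c * (εi * μi * Ci))) :
    μ * X = q * (τ * t * Ai * a) + ε * μ * (μ ^ 2 * τ * u + C * P1 * Zi * t) * y +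
      P1 * Zi * u * c := by
  grind

theorem algc₃ (hε : ε * εi = 1) (hμ : μ * μi = 1) (hL : L * Li = 1) {X a y c u : R}
    (h : X * (εi * μi ^ 3 * Li) = t ^ 2 * (a * (q * (εi * μi ^ 3 * Ai))) + 2 * t * u * y +
      u ^ 2 * (c * (εi * μi * Ci))) :
    X = L * (q * (t ^ 2 * Ai * a) + 2 * ε * μ ^ 3 * t * u * y + μ ^ 2 * u ^ 2 * Ci * c) := by
  grind

end Alg

variable {R S : Type} [CommRing R] [Algebra ℝ R] [CommRing S] [Algebra ℝ S]
  {D : Fin 2 → R → R} {E : R → R} {D' : Fin 2 → S → S} {E' : S → S} {π : S →ₐ[ℝ] R}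
  {O : Out S} {G : Lay R} {εi μi : S}

/-- The block metric of the outer solution in the coordinates of the layer. -/
noncomputable def b0 (D : Fin 2 → R → R) (E : R → R) (G : Lay R) (εi μi : R) : Blk R where
  a := εi * G.μ E * E G.lAo
  ai := G.ε * μi * E (-G.lAo)
  C := G.ε * G.μ E ^ 3 * E G.lCl
  Ci := εi * μi ^ 3 * E (-G.lCl)
  F₁ := G.ε * μi * E (2 * G.uw)
  F₁i := εi * G.μ E * E (-(2 * G.uw))
  F₂ := G.ε * μi * E (2 * G.uo)
  F₂i := εi * G.μ E * E (-(2 * G.uo))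
  β := G.ε * G.b D E
  f₁ := G.P0 E * E (-G.lAo)
  f₂ := εi * μi ^ 2 * G.Yo D E * E (-G.lCl)

theorem out_al : G.out.al E = 1 := by simp [Lay.al, Lay.out]
theorem out_lal : G.out.lal D E = 0 := by simp [Lay.lal, Lay.out]
theorem out_lA : G.out.lA = G.lAo := by simp [Lay.lA, Lay.out]
theorem out_lC : G.out.lC = G.lCl := by
  change G.lCl + 2 * 0 = _
  simp
theorem out_u₁ : G.out.u₁ = G.uw := by simp [Lay.u₁, Lay.out]
theorem out_u₂ : G.out.u₂ = G.uo := by simp [Lay.u₂, Lay.out]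
theorem out_W : G.out.W E = G.P0 E := by
  change G.P0 E + 0 = _
  simp
theorem out_Y : G.out.Y D E = G.Yo D E := by
  change G.Yo D E + G.μ E * 0 = _
  simp

theorem blk_eq (a b : R) : G.out.blk D E a b 1 = b0 D E G a b := by
  simp only [Lay.blk, b0, out_al, out_lA, out_lC, out_u₁, out_u₂, out_W, out_Y, mul_one]
  rfl

/-- The hypotheses. -/
structure Ctx (D : Fin 2 → R → R) (E : R → R) (D' : Fin 2 → S → S) (E' : S → S) (π : S →ₐ[ℝ] R)
    (O : Out S) (G : Lay R) (εi μi : S) : Prop where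
  hD : IsDer D
  hE : IsExp D E
  hD' : IsDer D'
  oo : O.Ok D'
  ok : G.Ok D E
  hε : O.ε * εi = 1
  hμ : O.μ * μi = 1
  cov : IsCov D E D' E' π O G
  lb : LayBasic D E G

theorem ok0 (hD : IsDer D) (ok : G.Ok D E) : G.out.Ok D E :=
  ⟨ok.dε, ok.s0₀, ok.s0₁, hD.zero 1, ok.d₀, ok.chi₀, ok.L₀, ok.lq, ok.lAo, ok.leh⟩

theorem q4 : 4 * algebraMap ℝ R (1 / 4) = 1 := by
  rw [← map_ofNat (algebraMap ℝ R) 4, ← map_mul]
  norm_num

theorem q2 : 2 * algebraMap ℝ R (1 / 2) = 1 := by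
  rw [← map_ofNat (algebraMap ℝ R) 2, ← map_mul]
  norm_num

namespace Ctx

variable (c : Ctx D E D' E' π O G εi μi)
include c

theorem en (x : R) : E x * E (-x) = 1 := by rw [← c.hE.add, add_neg_cancel, c.hE.zero]
theorem uε : G.ε * π εi = 1 := by rw [c.cov.ε, ← map_mul, c.hε, map_one]
theorem uμ : G.μ E * π μi = 1 := by rw [c.cov.μ, ← map_mul, c.hμ, map_one]

theorem unit0 : G.out.Unit D E (π εi) (π μi) 1 where
  hε := c.uε
  hμ := c.uμ
  hal := by rw [out_al, one_mul]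
  lal := by rw [out_lal, out_al, c.hD.one, zero_mul]
  Xe := by
    rw [out_al, mul_one]
    change G.ε * G.out.Xi D E + G.xi1 * 0 * E (-G.leh) = G.ε * G.out.Xi D E
    simp

theorem pai : π (O.blk E' εi μi).ai =
    algebraMap ℝ R (1 / 4) * (π εi * π μi ^ 3 * E (-G.la)) := by
  simp only [Out.blk, map_smul, map_mul, map_pow, map_neg, c.cov.exp, c.cov.la, Algebra.smul_def,
    AlgHom.commutes]

theorem pCi : π (O.blk E' εi μi).Ci = π εi * π μi * E (-G.lc) := by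
  simp only [Out.blk, map_mul, map_neg, c.cov.exp, c.cov.lc]

theorem pβ : π (O.blk E' εi μi).β = G.bp := c.cov.bp.symm

theorem pf₁ : π (O.blk E' εi μi).f₁ =
    algebraMap ℝ R (1 / 4) * (π εi * π μi ^ 2 * E (-G.la)) := by
  simp only [Out.blk, map_smul, map_mul, map_pow, map_neg, c.cov.exp, c.cov.la, Algebra.smul_def,
    AlgHom.commutes]

theorem pf₂ : π (O.blk E' εi μi).f₂ = -(π εi * G.bp * E (-G.lc)) := by
  simp only [Out.blk, map_mul, map_neg, c.cov.exp, c.cov.lc, c.cov.bp]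

theorem Li : E (-G.lCl) =
    algebraMap ℝ R (1 / 4) * (D 0 (G.μ E) * π εi) ^ 2 * E (-G.la) * E (-G.lc) * E G.lAo :=
  algL c.uε (c.en _) (c.en _) (c.en _) (c.en _) q4 c.lb.dμ c.lb.Cl

theorem hyp (ok : (b0 D E G (π εi) (π μi)).Ok) (ok' : (O.blk E' εi μi).Ok) :
    Hyp D D' π (b0 D E G (π εi) (π μi)) (O.blk E' εi μi) (D 0 (G.μ E)) (G.P0 E * π εi)
      (G.ε * G.μ E ^ 2 * G.τ₁ D E) (G.ε * (E G.lc * G.P1 D E * E (-G.lAo))) (G.τ₂ D E)
      (1 - G.bp * G.τ₂ D E) where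
  hD := c.hD
  hD' := c.hD'
  ok := ok
  ok' := ok'
  d₀ := c.cov.d₀
  d₁ := c.cov.d₁
  ds := c.hD.comm 0 1 _
  hm := by rw [← mul_assoc, c.lb.dμ, c.uε]
  hp := by
    have h := c.lb.b₁
    have h' := c.lb.dμ
    simp only [b0, Lay.P1] at h ⊢
    linear_combination -D 0 (G.μ E) * h - (G.μ E ^ 2 * G.τ₁ D E - G.b D E * G.τ₂ D E) * h'
  hr := by
    rw [c.pβ]
    simp only [b0, Lay.b, Lay.τ₁]
    ring
  hu := by rw [c.pβ]
  g11 := by
    rw [c.pai, c.pCi]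
    exact alg11 c.uε c.uμ (c.en _) (c.en _) (c.en _) q4 c.ok.lAo
  g12 := by
    rw [c.pai, c.pCi]
    exact alg12 c.uε c.uμ (c.en _) (c.en _) q4
  g22 := by
    rw [c.pai, c.pCi]
    exact alg22 c.uε c.uμ (c.en _) (c.en _) q4 c.lb.dμ c.Li c.ok.lAo
  F₁ := by simp only [b0, Out.blk, map_mul, map_ofNat, c.cov.exp, c.cov.ε, c.cov.uw]
  F₂ := by simp only [b0, Out.blk, map_mul, map_ofNat, c.cov.exp, c.cov.ε, c.cov.uo]
  f₁ := by
    rw [c.pf₁, c.pf₂]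
    exact algf₁ c.uε c.uμ (c.en _) (c.en _) q4
  f₂ := by
    rw [c.pf₁, c.pf₂]
    exact algf₂ c.uε c.uμ (c.en _) (c.en _) (c.en _) q4 c.lb.dμ c.Li

theorem facts (oh : OutHG D' E' O εi μi) (hg : LayHG D E G.out (π εi) (π μi) 1)
    (r : Res D D' π (b0 D E G (π εi) (π μi)) (O.blk E' εi μi) (D 0 (G.μ E))
      (G.ε * G.μ E ^ 2 * G.τ₁ D E) (G.ε * (E G.lc * G.P1 D E * E (-G.lAo))) (G.τ₂ D E)
      (1 - G.bp * G.τ₂ D E)) : CovFacts D E D' E' π O G := by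
  have hε := c.uε
  have hμ := c.uμ
  have hC := c.en G.lc
  have h2 : 2 * algebraMap ℝ R (1 / 2) = 1 := q2
  obtain ⟨-, g1, g2, g3, g4, g5, gk, gk', -, gl, gO⟩ := hg
  rw [blk_eq] at g1 g2 g3 g4 g5 gk gk' gl gO
  rw [out_lC] at g4
  rw [out_al, mul_one] at g5
  change G.ε * _ = G.μ E * _ at g1 g2 g3 g5
  change G.ε * G.μ E ^ 2 * E G.lCl * _ = G.μ E * _ + G.zo D E at g4
  change ∀ i, _ → _ → G.ε * _ = G.μ E * _ at gk
  change ∀ i, _ → G.ε * G.μ E * _ = _ at gk'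
  change Blk.lap _ _ (G.mt D E) (G.τ₂ D E * _) + 1 = G.μ E * _ at gl
  change G.ε * G.μ E ^ 2 * _ = _ at gO
  have o0 := congrArg π oh.e11
  have o1 := congrArg π oh.e12
  have o2 := congrArg π oh.e22
  have o3 := congrArg π oh.e₁
  have o4 := congrArg π oh.e₂
  have ok := fun i h h' => congrArg π (oh.kv i h h')
  have ok' := fun i h => congrArg π (oh.kv' i h)
  have ol := congrArg π oh.lapmu
  have oO := congrArg π oh.Om
  simp only [map_mul, map_add, map_pow, map_ofNat, map_one, c.cov.exp, ← c.cov.ε, ← c.cov.μ,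
    ← c.cov.lc] at o0 o1 o2 o3 o4 ok ok' ol oO
  obtain ⟨r11, r12, r22, r1, r2, k0, k1, k2, k3, k4, k5, k6, k7, rl, rO⟩ := r
  rw [c.pai, c.pCi] at r11 r12 r22 k1 k2 k3 k4 k5 k6
  have r11 := algc₁ hε hμ hC (c.en _) r11
  have r12 := algc₂ hε hμ hC r12
  have r22 := algc₃ hε hμ (c.en _) r22
  have k1 := algc₁ hε hμ hC (c.en _) k1
  have k2 := algc₂ hε hμ hC k2
  have k3 := algc₃ hε hμ (c.en _) k3
  have k4 := algc₁ hε hμ hC (c.en _) k4
  have k5 := algc₂ hε hμ hC k5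
  have k6 := algc₃ hε hμ (c.en _) k6
  refine ⟨fun k hk => ?_, ?_, ?_, fun i => ?_, ?_⟩
  · refine cancel hμ ?_
    fin_cases k
    · change G.out.e₁ D E * _ = G.ε * π (O.err D' E' 3) * _
      linear_combination -g1 + G.ε * r1 + G.ε * o3
    · change G.out.e₂ D E * _ = G.ε * π (O.err D' E' 4) * _
      linear_combination -g2 + G.ε * r2 + G.ε * o4
    · change G.out.e₃ D E * _ = _
      simp only [Lay.cov, Matrix.cons_val, Algebra.smul_def, Fin.reduceFinMk]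
      rw [← g3.trans (mul_comm _ _), r22, o0, o2, ← o1]
      linear_combination (-(2 * G.ε ^ 2 * G.μ E ^ 3 * E G.lCl * G.τ₂ D E *
        (1 - G.bp * G.τ₂ D E) * π ((O.blk E' εi μi).e12 D'))) * hC
    · exact absurd rfl hk
    · change G.out.e₅ D E * _ = _
      simp only [Lay.cov, Matrix.cons_val, Algebra.smul_def, Fin.reduceFinMk]
      rw [← g5.trans (mul_comm _ _), r11, r1, o0, o2, o3, ← o1]
      ring
  · simp only [Lay.cov, Matrix.cons_val, Algebra.smul_def]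
    rw [← g4, ← o1]
    rw [o0, o2] at r12
    linear_combination G.ε * G.μ E * E G.lCl * r12 -
      G.ε ^ 2 * G.μ E ^ 2 * E G.lCl * π ((O.blk E' εi μi).e12 D') *
        (G.μ E ^ 2 * G.τ₁ D E * (1 - G.bp * G.τ₂ D E) * E G.lc * E (-G.lc) +
          E G.lc * G.P1 D E * E (-G.lAo) * G.τ₂ D E) * h2 -
      G.ε ^ 2 * G.μ E ^ 4 * E G.lCl * π ((O.blk E' εi μi).e12 D') * G.τ₁ D E *
        (1 - G.bp * G.τ₂ D E) * hC
  · rw [← gO, rO, ← oO, ← c.lb.dμ]
    ring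
  · have a0 := ok 0 (by decide) (by decide)
    have a1 := ok 1 (by decide) (by decide)
    have a2 := ok' 2 (Or.inl rfl)
    have a3 := ok 3 (by decide) (by decide)
    have a4 := ok 4 (by decide) (by decide)
    have a5 := ok' 5 (Or.inr rfl)
    have a6 := ok 6 (by decide) (by decide)
    have a7 := ok 7 (by decide) (by decide)
    fin_cases i <;> simp only [Lay.kc, Matrix.cons_val, Algebra.smul_def, Fin.reduceFinMk,
      Fin.zero_eta, Fin.mk_one]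
    · refine cancel hμ ?_
      rw [← (gk 0 (by decide) (by decide)).trans (mul_comm _ _), k0, a0]
      ring
    · refine cancel hμ ?_
      rw [← (gk 1 (by decide) (by decide)).trans (mul_comm _ _), k1, a1, a3, ← a2]
      ring
    · rw [← gk' 2 (Or.inl rfl), mul_assoc, k2, a1, a3, ← a2]
      ring
    · refine cancel hμ ?_
      rw [← (gk 3 (by decide) (by decide)).trans (mul_comm _ _), k3, a1, a3, ← a2]
      ring
    · refine cancel hμ ?_
      rw [← (gk 4 (by decide) (by decide)).trans (mul_comm _ _), k4, a4, a6, ← a5]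
      ring
    · rw [← gk' 5 (Or.inr rfl), mul_assoc, k5, a4, a6, ← a5]
      ring
    · refine cancel hμ ?_
      rw [← (gk 6 (by decide) (by decide)).trans (mul_comm _ _), k6, a4, a6, ← a5]
      ring
    · refine cancel hμ ?_
      rw [← (gk 7 (by decide) (by decide)).trans (mul_comm _ _), k7, a7]
      ring
  · have h := rl μi O.μ
    have e1 : π μi * (b0 D E G (π εi) (π μi)).T D (π O.μ) = G.mt D E := by
      rw [← c.cov.μ]
      change π μi * G.T D E (G.μ E) = _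
      rw [c.lb.Tμ]
      linear_combination G.mt D E * hμ
    have e2 : π μi * D 1 (π O.μ) = G.τ₂ D E * π μi := by
      rw [← c.cov.μ, mul_comm]
      rfl
    have e3 : μi * (O.blk E' εi μi).T D' O.μ = μi := by
      simp only [Blk.T, c.oo.μ₀, c.oo.μ₁, mul_zero, add_zero, mul_one]
    rw [e1, e2, e3, c.oo.μ₁, mul_zero] at h
    refine cancel hμ ?_
    linear_combination -gl + h + ol

end Ctx

end Cov

theorem cov (t6 : T6Stmt) (t7 : T7Stmt) (oh : OutHGStmt) (lb : LayBasicStmt) (hg : LayHGStmt) :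
    CovStmt := by
  intro R S _ _ _ _ _ _ D E D' E' π O G εi μi hD hE hD' hE' h16 oo ok hε hμ hc
  have c : Cov.Ctx D E D' E' π O G εi μi :=
    ⟨hD, hE, hD', oo, ok, hε, hμ, hc, lb R D E G hD hE h16 ok⟩
  have h1 := oh S D' E' O εi μi hD' hE' oo hε hμ
  have h2 := hg R D E G.out _ _ 1 hD hE h16 (Cov.ok0 hD ok) c.unit0
  exact c.facts h1 h2 ((c.hyp (Cov.blk_eq (G := G) _ _ ▸ h2.ok) h1.ok).res t6 t7)

end Pool.Agent.Lib.MP_df9110_gt
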