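import Pool.Agent.Lib.MP_df9110_gt.CtA
import Pool.Agent.Lib.MP_df9110_gt.NCart

-- part Pool.Agent.Lib.MP_df9110_gt.CtB
section

/-! The frame of a metric that is locally a pull-back. -/

set_option linter.unusedSimpArgs false

namespace Pool.Agent.Lib.MP_df9110_gt

namespace CtA

open Filter Topology Cov
open scoped ContDiff

/-- Functions smooth near `y` and their germs. -/
structure Sys {n : ℕ} (y : En n) {A A' : Type} [CommRing A] [Algebra ℝ A] [CommRing A']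
    [Algebra ℝ A'] (mk : A →ₐ[ℝ] A') (rw : A →ₐ[ℝ] (En n → ℝ)) (ev : A' →ₐ[ℝ] ℝ)
    (d : Fin n → A → A) (D : Fin n → A' → A') : Prop where
  eq : ∀ {F G}, mk F = mk G ↔ ∀ᶠ x in 𝓝 y, rw F x = rw G x
  surj : ∀ φ, ∃ F, mk F = φ
  lf : ∀ f, (∀ᶠ x in 𝓝 y, ContDiffAt ℝ ∞ f x) → ∃ F, rw F = f
  lift : ∀ F {f}, (∀ᶠ x in 𝓝 y, f x = rw F x) → ∃ F', rw F' = f ∧ mk F' = mk F
  sm : ∀ F, ∀ᶠ x in 𝓝 y, ContDiffAt ℝ ∞ (rw F) x
  val : ∀ F, ev (mk F) = rw F y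
  unit : ∀ φ, ev φ ≠ 0 → ∃ ψ, φ * ψ = 1
  md : ∀ j F, mk (d j F) = D j (mk F)
  rd : ∀ j F, rw (d j F) = pdn j (rw F)
  der : IsDer D

theorem mapg {R S : Type} [CommRing R] [Algebra ℝ R] [CommRing S] [Algebra ℝ S] (π : R →ₐ[ℝ] S)
    (B : Blk R) : (B.map π).g = fun i j => π (B.g i j) :=
  Blk.map_g' π (D := fun _ _ => 0) (D' := fun _ _ => 0) (fun _ _ => map_zero π) B

theorem sys {n : ℕ} (y : En n) : Sys y (A := SmF (lp y)) (A' := SG (lp y)) (mkG (lp y)) (rw' y)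
    (evG y) (sfD (lp y)) gD :=
  ⟨mk_eq, mkG_surj, fun f h => ⟨lf f h, rfl⟩, lift, fun F => ev_lp.1 F.2, evG_mk y, unit, mkG_sfD,
    rw_D y, isDer_gD⟩

theorem nat0 (b1 : B1Stmt) (t1 : T1Stmt) (t6 : T6Stmt) (t7 : T7Stmt) {y : Pt} {g : Pt → Mat}
    {V : Fin 4 → Pt → ℝ} {Ψ : Pt → En 2} {J : Fin 4 → Fin 4 → Pt → ℝ} {B : Blk (En 2 → ℝ)}
    {A A' C C' : Type} [CommRing A] [Algebra ℝ A] [CommRing A'] [Algebra ℝ A'] [CommRing C]
    [Algebra ℝ C] [CommRing C'] [Algebra ℝ C'] [IsReduced C'] {mk : A →ₐ[ℝ] A'} {rw ev d D}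
    (s : Sys y mk rw ev d D) {mk' : C →ₐ[ℝ] C'} {rw' ev' d' D'} (s' : Sys (Ψ y) mk' rw' ev' d' D')
    (π₀ : C →ₐ[ℝ] A) (π : C' →ₐ[ℝ] A') (p1 : ∀ F, π (mk' F) = mk (π₀ F))
    (p2 : ∀ F, rw (π₀ F) = fun x => rw' F (Ψ x))
    (h : ∀ᶠ x in 𝓝 y, (∀ a, ContDiffAt ℝ ∞ (Ψ · a) x) ∧ (∀ a i, ContDiffAt ℝ ∞ (J a i) x) ∧
      (∀ i, J 0 i x = pdn i (Ψ · 0) x) ∧ (∀ i, J 1 i x = pdn i (Ψ · 1) x) ∧
      (∀ a i j, pdn i (J a j) x = pdn j (J a i) x) ∧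
      (∀ i j, g x i j = gPull2 (fun a i => J a i x) (B.map fun f => f (Ψ x)).g i j) ∧
      ∀ a, ∑ i, J a i x * V i x = B.V a (Ψ x))
    (hd : (Matrix.of fun a i => J a i y).det ≠ 0)
    (hB : ∀ᶠ z in 𝓝 (Ψ y), B.All (fun f => ContDiffAt ℝ ∞ f z) ∧ (B.map fun f => f z).Ok)
    (ha : 0 < B.a (Ψ y)) (hC : 0 < B.C (Ψ y)) (h₁ : 0 < B.F₁ (Ψ y)) (h₂ : 0 < B.F₂ (Ψ y)) :
    Frame g V B Ψ y := by
  have hc : ContinuousAt Ψ y := continuousAt_pi.2 fun a => (h.self_of_nhds.1 a).continuousAt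
  have hπ : ∀ φ, ev (π φ) = ev' φ := fun φ => by
    obtain ⟨F, rfl⟩ := s'.surj φ
    rw [p1, s.val, s'.val, p2]
  obtain ⟨Bs, rfl⟩ : ∃ Bs : Blk C, Bs.map rw' = B := by
    simp only [Blk.All, eventually_and] at hB
    obtain ⟨⟨a1, a2, a3, a4, a5, a6, a7, a8, a9, a10, a11⟩, -⟩ := hB
    choose l hl using s'.lf
    exact ⟨⟨l _ a1, l _ a2, l _ a3, l _ a4, l _ a5, l _ a6, l _ a7, l _ a8, l _ a9, l _ a10,
      l _ a11⟩, by simp only [Blk.map, hl]⟩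
  obtain ⟨Js, rfl⟩ : ∃ Js : Fin 4 → Fin 4 → A, (fun a i => rw (Js a i)) = J := by
    choose l hl using s.lf
    exact ⟨fun a i => l (J a i) (h.mono fun _ h => h.2.1 a i), by simp only [hl]⟩
  have ok : (Bs.map mk').Ok := by
    refine ⟨?_, ?_, ?_, ?_⟩ <;> simp only [Blk.map] <;>
      rw [← map_mul, ← map_one mk', s'.eq, map_mul, map_one]
    exacts [hB.mono fun _ h => h.2.ha, hB.mono fun _ h => h.2.hC, hB.mono fun _ h => h.2.h₁,
      hB.mono fun _ h => h.2.h₂]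
  obtain ⟨K, i1, i2⟩ := inv_ex ev s.unit (fun a i => mk (Js a i)) (by simpa only [s.val] using hd)
  have m2 := s'.md
  have m4 := s.md
  have r2 := s'.rd
  have r4 := s.rd
  have hg : ∀ i j, ∃ F, rw F = gf g i j ∧
      mk F = mk (gPull2 Js (fun a b => π₀ (Bs.g a b)) i j) := fun i j => by
    refine s.lift _ (h.mono fun x hx => (hx.2.2.2.2.2.1 i j).trans ?_)
    refine Eq.trans ?_ (congrFun₂ (map_pull2 ((at' x).comp rw) _ _) i j)
    congr 1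
    refine (mapg ((at' (Ψ x)).comp rw') Bs).trans (funext₂ fun a b => ?_)
    simp only [AlgHom.comp_apply, p2]
    rfl
  choose gs g1 g2 using hg
  obtain ⟨G, met, H⟩ := core t1 t6 t7 π ev ev' hπ (g := fun i j => mk (gs i j)) s.der s'.der ok
    (fun i f => by
      obtain ⟨F, rfl⟩ := s'.surj f
      simp only [← m2, p1, ← m4, ← map_mul, ← map_add, s.eq]
      filter_upwards [h, hc.eventually (s'.sm F)] with x hx hF
      simp only [map_add, map_mul, r4, r2, p2, Pi.add_apply, Pi.mul_apply, hx.2.2.1, hx.2.2.2.1]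
      refine ((b1 4).chain ((contDiffAt_pi.2 hx.1).differentiableAt (by simp))
        (hF.differentiableAt (by simp)) i).trans ?_
      rw [Fin.sum_univ_two, mul_comm, mul_comm (pdn 1 _ _)])
    (fun a i j => by rw [← m4, ← m4, s.eq, r4, r4]; exact h.mono fun _ h => h.2.2.2.2.1 a i j)
    i1 i2 (fun i j => by
      rw [g2, ← congrFun₂ (map_pull2 mk _ _) i j, mapg]
      simp only [p1]) (by simpa [s'.val] using ha) (by simpa [s'.val] using hC)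
      (by simpa [s'.val] using h₁) (by simpa [s'.val] using h₂) (k' := kON (Bs.map rw') (Ψ y))
      (fun j => by
        rw [kON, Blk.map_kv _ m2, Blk.map_kv _ r2]
        simp only [Blk.map_a, Blk.map_C, s'.val])
  have gx : ∀ x i j, g x i j = rw (gs i j) x := fun x i j => (congrFun (g1 i j) x).symm
  choose rp hr using s.surj
  have hG : ∀ i j, ∃ F, rw F = Gf g i j ∧ mk F = mk (rp (G i j)) := by
    have : ∀ᶠ x in 𝓝 y, ∀ i j, rw (∑ k, rp (G i k) * gs k j) x =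
        rw (if i = j then 1 else 0) x := by
      simp only [eventually_all, ← s.eq, map_sum mk, map_mul mk, hr, apply_ite mk, map_one mk,
        map_zero mk]
      exact met.inv
    refine fun i j => s.lift _ (this.mono fun x hx => ?_)
    rw [Gf, Matrix.inv_eq_left_inv (B := Matrix.of fun i j => rw (rp (G i j)) x)]
    · rfl
    · ext a b
      simpa [Matrix.mul_apply, Matrix.one_apply, gx, apply_ite rw, ite_apply] using hx a b
  choose Gs G1 G2 using hG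
  have hV : ∀ i, ∃ F, rw F = V i ∧ mk F = mk (∑ a, rp (K i a) * π₀ (Bs.V a)) := by
    have : ∀ᶠ x in 𝓝 y, ∀ i j, rw (∑ k, rp (K i k) * Js k j) x =
        rw (if i = j then 1 else 0) x := by
      simp only [eventually_all, ← s.eq, map_sum mk, map_mul mk, hr, apply_ite mk, map_one mk,
        map_zero mk]
      exact i2
    refine fun i => s.lift _ ((this.and h).mono fun x ⟨hx, hx'⟩ => ?_)
    have e : ∀ a, rw (π₀ (Bs.V a)) x = ∑ j, rw (Js a j) x * V j x := fun a => by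
      rw [hx'.2.2.2.2.2.2 a, Blk.map_V _ r2, p2]
    simp only [map_sum, map_mul, Finset.sum_apply, Pi.mul_apply, apply_ite rw, map_one,
      map_zero, ite_apply, Pi.one_apply, Pi.zero_apply] at hx
    simp only [map_sum, map_mul, Finset.sum_apply, Pi.mul_apply, e, Finset.mul_sum, ← mul_assoc]
    rw [Finset.sum_comm]
    simp [← Finset.sum_mul, hx]
  choose Vs V1 V2 using hV
  obtain ⟨⟨e, e1, e2, e3, e4, e5⟩, hs, hl⟩ := H (fun i => mk (Vs i)) fun a => by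
    rw [Blk.map_V _ m2, p1]
    simp only [← map_mul mk, ← map_sum mk, s.eq]
    refine h.mono fun x hx => ?_
    simp only [map_sum, map_mul, Finset.sum_apply, Pi.mul_apply, V1]
    rw [hx.2.2.2.2.2.2 a, Blk.map_V _ r2, p2]
  obtain rfl : G = fun i j => mk (Gs i j) := funext₂ fun i j => by rw [G2, hr]
  obtain rfl := funext V1
  have g3 : gf g = _ := (funext₂ g1).symm
  have G3 : Gf g = _ := (funext₂ G1).symm
  have c1 : chrF g = fun a b c => rw (gChr d gs Gs a b c) := by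
    simp only [chrF, g3, G3, map_gChr _ r4, pd_eq_pdn]
  have c2 : gChr D (fun i j => mk (gs i j)) (fun i j => mk (Gs i j)) =
      fun a b c => mk (gChr d gs Gs a b c) := by simp only [map_gChr _ m4]
  rw [c2] at e3 e4 e5 hs hl
  rw [Blk.map_e11 _ m2, Blk.map_e12 _ m2, Blk.map_e22 _ m2, Blk.map_e₁ _ m2,
    Blk.map_e₂ _ m2] at e5
  rw [Blk.map_scal _ m2, show gRic D _ = _ from funext₂ fun a b => (map_gRic _ m4 _ a b).symm,
    ← map_gTr] at hs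
  simp only [← map_gRic _ m4, ← map_gRlow _ m4, ← map_gErr _ m4, s.val, s'.val, Blk.map_a,
    Blk.map_C] at e2 e3 e4 e5 hs
  refine ⟨⟨e, e1, (congrArg _ (funext₂ (gx y))).trans e2, ?_, ?_, ?_⟩, ?_, fun f hf => ?_⟩
  · simp only [ricF, c1, pd_eq_pdn, ← map_gRic _ r4]
    exact e3
  · simp only [rlF, c1, g3, pd_eq_pdn, ← map_gRlow _ r4]
    exact e4
  · simp only [errF, c1, g3, pd_eq_pdn, ← map_gErr _ r4]
    rw [Blk.map_e11 _ r2, Blk.map_e12 _ r2, Blk.map_e22 _ r2, Blk.map_e₁ _ r2, Blk.map_e₂ _ r2]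
    exact e5
  · rw [← scal_eq, Blk.map_scal _ r2, ricF, c1, G3, pd_eq_pdn,
      show gRic pdn _ = _ from funext₂ fun a b => (map_gRic _ r4 _ a b).symm, ← map_gTr]
    exact hs
  · obtain ⟨F, rfl⟩ := s'.lf f hf
    have := hl (mk' F)
    rw [p1, ← map_gLapV _ m4, Blk.map_T _ m2, ← m2, Blk.map_lap _ m2, s.val, s'.val] at this
    rw [← p2, Blk.map_T _ r2, ← r2, Blk.map_lap _ r2, lapF, c1, G3, pd_eq_pdn, ← map_gLapV _ r4]
    exact this

theorem nat (b1 : B1Stmt) (t1 : T1Stmt) (t6 : T6Stmt) (t7 : T7Stmt) {y : Pt} {g : Pt → Mat}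
    {V : Fin 4 → Pt → ℝ} {Ψ : Pt → En 2} {J : Fin 4 → Fin 4 → Pt → ℝ} {B : Blk (En 2 → ℝ)}
    (h : ∀ᶠ x in 𝓝 y, (∀ a, ContDiffAt ℝ ∞ (Ψ · a) x) ∧ (∀ a i, ContDiffAt ℝ ∞ (J a i) x) ∧
      (∀ i, J 0 i x = pdn i (Ψ · 0) x) ∧ (∀ i, J 1 i x = pdn i (Ψ · 1) x) ∧
      (∀ a i j, pdn i (J a j) x = pdn j (J a i) x) ∧
      (∀ i j, g x i j = gPull2 (fun a i => J a i x) (B.map fun f => f (Ψ x)).g i j) ∧
      ∀ a, ∑ i, J a i x * V i x = B.V a (Ψ x))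
    (hd : (Matrix.of fun a i => J a i y).det ≠ 0)
    (hB : ∀ᶠ z in 𝓝 (Ψ y), B.All (fun f => ContDiffAt ℝ ∞ f z) ∧ (B.map fun f => f z).Ok)
    (ha : 0 < B.a (Ψ y)) (hC : 0 < B.C (Ψ y)) (h₁ : 0 < B.F₁ (Ψ y)) (h₂ : 0 < B.F₂ (Ψ y)) :
    Frame g V B Ψ y := by
  have hP : IsPull (lp (Ψ y)) (lp y) fun _ => Ψ := by
    refine ⟨fun a => ev_lp.2 (h.mono fun x hx => hx.1 a), ?_⟩
    have : ContinuousAt Ψ y := continuousAt_pi.2 fun a => (h.self_of_nhds.1 a).continuousAt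
    exact tendsto_map'_iff.2 (tendsto_map.comp this)
  exact nat0 b1 t1 t6 t7 (sys y) (sys (Ψ y)) hP.homF hP.hom hP.hom_mk (fun _ => rfl) h hd hB ha hC
    h₁ h₂

end CtA

end Pool.Agent.Lib.MP_df9110_gt
end

-- part Pool.Agent.Lib.MP_df9110_gt.Ca1
section

/-! Regular functions on the simplex give symbols on `ℝ⁴`. -/

namespace Pool.Agent.Lib.MP_df9110_gt

open Filter Topology Set
open scoped ContDiff

namespace Ca1

section WBl

variable {n : ℕ}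

theorem pdn_csmul (c : ℝ) (f : En n → ℝ) (i : Fin n) : pdn i (c • f) = c • pdn i f := by
  funext x
  simp [pdn, fderiv_const_smul_field]

theorem wb_csmul {r : ℝ} (c : ℝ) : ∀ {k : ℕ} {a : ℝ} {f : En n → ℝ} {p : En n},
    WB r k a f p → WB r k (|c| * a) (c • f) p
  | 0, a, f, p, h => by
    change |f p| ≤ a at h
    change |c * f p| ≤ |c| * a
    rw [abs_mul]
    exact mul_le_mul_of_nonneg_left h (abs_nonneg c)
  | k + 1, a, f, p, h => by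
    refine ⟨?_, fun i => ?_⟩
    · change |c * f p| ≤ |c| * a
      rw [abs_mul]
      exact mul_le_mul_of_nonneg_left h.1 (abs_nonneg c)
    · rw [pdn_csmul, mul_assoc]
      exact wb_csmul c (h.2 i)

theorem pdn_scale (c : ℝ) (f : En n → ℝ) (i : Fin n) :
    pdn i (fun q => f (c • q)) = fun q => (c • pdn i f) (c • q) := by
  funext x
  simp [pdn, fderiv_comp_smul]

theorem wb_scale {r c : ℝ} (hc : 0 ≤ c) : ∀ {k : ℕ} {a : ℝ} {f : En n → ℝ} {p : En n},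
    WB r k a f (c • p) → ∀ {a' : ℝ}, a' = a → WB (c * r) k a' (fun q => f (c • q)) p
  | 0, _, _, _, h, _, e => by
    subst e
    exact h
  | k + 1, a, f, p, h, _, e => by
    subst e
    refine ⟨h.1, fun i => ?_⟩
    rw [pdn_scale]
    refine wb_scale hc (wb_csmul c (h.2 i)) ?_
    rw [abs_of_nonneg hc]
    ring

theorem wb_nonneg (b1 : B1Stmt) {r a : ℝ} {k : ℕ} {f : En n → ℝ} {p : En n}
    (h : WB r k a f p) : 0 ≤ a := (abs_nonneg _).trans ((b1 n).nonneg h)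

theorem wb_rescale (b1 : B1Stmt) {r r' c : ℝ} (hc : 1 ≤ c) (h0 : 0 ≤ r') (hr : r ≤ c * r') :
    ∀ {k : ℕ} {a : ℝ} {f : En n → ℝ} {p : En n}, WB r k a f p → WB r' k (c ^ k * a) f p
  | 0, a, f, p, h => by
    rw [pow_zero, one_mul]
    exact h
  | k + 1, a, f, p, h => by
    have ha : 0 ≤ a := wb_nonneg b1 h
    have hk : 1 ≤ c ^ (k + 1) := one_le_pow₀ hc
    refine ⟨h.1.trans (by nlinarith), fun i => ?_⟩
    refine (b1 n).mono (wb_rescale b1 hc h0 hr (h.2 i)) h0 le_rfl ?_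
    have h1 : 0 ≤ c ^ k := by positivity
    have h2 : a * r ≤ a * (c * r') := mul_le_mul_of_nonneg_left hr ha
    calc c ^ k * (a * r) ≤ c ^ k * (a * (c * r')) := mul_le_mul_of_nonneg_left h2 h1
      _ = c ^ (k + 1) * a * r' := by ring

/-- Composition with a map whose components have bounded weighted derivatives. -/
theorem wb_comp (b1 : B1Stmt) (m k : ℕ) (B : ℝ) : ∃ C : ℝ, 0 ≤ C ∧
    ∀ {r a : ℝ} {G : En m → ℝ} {Φ : En n → En m} {p : En n}, ContDiffAt ℝ ∞ Φ p →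
    ContDiffAt ℝ ∞ G (Φ p) → 0 ≤ r → (∀ j, WB r k B (fun q => Φ q j) p) → WB 1 k a G (Φ p) →
    WB r k (C * a) (fun q => G (Φ q)) p := by
  cases k with
  | zero =>
    refine ⟨1, zero_le_one, fun {r a G Φ p} _ _ _ _ h => ?_⟩
    rw [one_mul]
    exact h
  | succ k =>
    obtain ⟨C, hC⟩ := (b1 n).comp m k
    refine ⟨|C| * (1 + |B|) ^ (k + 1), by positivity, fun {r a G Φ p} h1 h2 hr h3 h4 => ?_⟩
    have ha : 0 ≤ a := wb_nonneg b1 h4
    have := hC (r := r) (r₁ := 1) (τ := B * r) (c := |B|) h1 h2 hr zero_le_one (abs_nonneg B)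
      (by rw [mul_one]; exact mul_le_mul_of_nonneg_right (le_abs_self B) hr) h4
      fun j i => (h3 j).2 i
    refine (b1 n).mono this hr le_rfl ?_
    have h5 : 0 ≤ (1 + |B|) ^ (k + 1) * a := by positivity
    calc C * (1 + |B|) ^ (k + 1) * a = C * ((1 + |B|) ^ (k + 1) * a) := by ring
      _ ≤ |C| * ((1 + |B|) ^ (k + 1) * a) := mul_le_mul_of_nonneg_right (le_abs_self C) h5
      _ = _ := by ring

end WBl

theorem nsq_eq (y : Pt) : nsq y = y 0 ^ 2 + y 1 ^ 2 + y 2 ^ 2 + y 3 ^ 2 := by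
  simp [nsq, Fin.sum_univ_four]

theorem nsq_nonneg (y : Pt) : 0 ≤ nsq y := by
  rw [nsq_eq]
  positivity

theorem nsq_smul (c : ℝ) (y : Pt) : nsq (c • y) = c ^ 2 * nsq y := by
  simp only [nsq_eq, Pi.smul_apply, smul_eq_mul]
  ring

theorem sY_smul (c : ℝ) (y : Pt) (j : Fin 2) : sY (c • y) j = c ^ 2 * sY y j := by
  fin_cases j <;> simp [sY] <;> ring

theorem sY_add (y : Pt) : sY y 0 + sY y 1 = nsq y := by
  simp [sY, nsq_eq]
  ring

theorem sY_nonneg (y : Pt) (j : Fin 2) : 0 ≤ sY y j := by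
  fin_cases j <;> simp [sY] <;> positivity

theorem cd_nsq : ContDiff ℝ ∞ nsq := by
  unfold nsq
  fun_prop

theorem cd_sY (j : Fin 2) : ContDiff ℝ ∞ fun y => sY y j := by
  fin_cases j <;> simp [sY] <;> fun_prop

theorem den_pos {ν : ℝ} (hν : 0 ≤ ν) (y : Pt) : 0 < 1 + ν * nsq y := by
  have := nsq_nonneg y
  positivity

theorem cd_lYj {ν : ℝ} (hν : 0 ≤ ν) (j : Fin 2) : ContDiff ℝ ∞ fun y => lY ν y j := by
  unfold lY
  exact (contDiff_const.mul (cd_sY j)).div (contDiff_const.add (contDiff_const.mul cd_nsq))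
    fun y => (den_pos hν y).ne'

theorem cd_lY {ν : ℝ} (hν : 0 ≤ ν) : ContDiff ℝ ∞ (lY ν) := contDiff_pi.2 (cd_lYj hν)

theorem cd_lIj {y : Pt} (hy : 0 < nsq y) (j : Fin 2) : ContDiffAt ℝ ∞ (fun y => lI y j) y := by
  unfold lI
  exact (cd_sY j).contDiffAt.div cd_nsq.contDiffAt hy.ne'

theorem cd_lI {y : Pt} (hy : 0 < nsq y) : ContDiffAt ℝ ∞ lI y := contDiffAt_pi.2 (cd_lIj hy)

theorem lY_scale {ν : ℝ} (hν : 0 ≤ ν) (y : Pt) : lY ν y = lY 1 (√ν • y) := by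
  funext j
  simp only [lY, sY_smul, nsq_smul, Real.sq_sqrt hν, one_mul]

theorem tau_lY {ν : ℝ} (hν : 0 ≤ ν) (y : Pt) : τP (lY ν y) = (1 + ν * nsq y)⁻¹ := by
  have h := den_pos hν y
  simp only [τP, lY]
  field_simp
  rw [← sY_add]
  ring

theorem lY_mem {ν : ℝ} (hν : 0 ≤ ν) (y : Pt) : lY ν y ∈ Nb 0 := by
  have h := den_pos hν y
  have h0 := sY_nonneg y 0
  have h1 := sY_nonneg y 1
  refine ⟨?_, ?_, ?_⟩
  · simp only [lY, neg_zero]; positivity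
  · simp only [lY, neg_zero]; positivity
  · rw [tau_lY hν, neg_zero]; positivity

theorem tau_lI {y : Pt} (hy : 0 < nsq y) : τP (lI y) = 0 := by
  simp only [τP, lI]
  field_simp
  rw [← sY_add]
  ring

theorem lI_mem {y : Pt} (hy : 0 < nsq y) : lI y ∈ Nb 0 := by
  have h0 := sY_nonneg y 0
  have h1 := sY_nonneg y 1
  refine ⟨?_, ?_, ?_⟩
  · simp only [lI, neg_zero]; positivity
  · simp only [lI, neg_zero]; positivity
  · rw [tau_lI hy, neg_zero]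

theorem cont_tau : Continuous τP := by
  unfold τP
  fun_prop

theorem compact_Nb (r : ℝ) : IsCompact (Nb r) := by
  have hc : IsClosed (Nb r) :=
    (isClosed_le continuous_const (continuous_apply 0)).inter
      ((isClosed_le continuous_const (continuous_apply 1)).inter
        (isClosed_le continuous_const cont_tau))
  refine (isCompact_Icc (a := fun _ : Fin 2 => -r) (b := fun _ => 1 + 2 * r)).of_isClosed_subset
    hc fun ℓ hℓ => ?_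
  obtain ⟨h0, h1, h2⟩ := hℓ
  simp only [τP] at h2
  refine ⟨fun j => ?_, fun j => ?_⟩ <;> fin_cases j <;> simp <;> linarith

theorem convex_Nb (r : ℝ) : Convex ℝ (Nb r) := by
  rintro x ⟨x0, x1, x2⟩ y ⟨y0, y1, y2⟩ a b ha hb hab
  simp only [τP] at x2 y2
  have e : b = 1 - a := by linarith
  subst e
  refine ⟨?_, ?_, ?_⟩ <;> simp only [τP, Pi.add_apply, Pi.smul_apply, smul_eq_mul] <;> nlinarith

theorem Nb_sub_Dz {ε : ℝ} (hε : 0 < ε) : Nb 0 ⊆ Dz ε := by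
  rintro ℓ ⟨h0, h1, h2⟩
  have : 0 < ε ^ 2 := by positivity
  exact ⟨by linarith, by linarith, by linarith⟩

theorem Dz_sub_Nb {ε ρ : ℝ} (h : ε ^ 2 ≤ ρ) : Dz ε ⊆ Nb ρ := by
  rintro ℓ ⟨h0, h1, h2⟩
  exact ⟨by linarith, by linarith, by linarith⟩

theorem wt_eq (γ ν : ℝ) (hν : 0 ≤ ν) (y : Pt) :
    wt γ (√ν • y) = (1 + ν * nsq y) ^ (γ / 2) := by
  rw [wt, nsq_smul, Real.sq_sqrt hν]

theorem wt_scale_le {ν : ℝ} (h0 : 0 < ν) (h1 : ν ≤ 1) (γ : ℝ) (m : ℕ) (hm : -γ / 2 ≤ m) (y : Pt) :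
    wt γ (√ν • y) ≤ ν⁻¹ ^ m * wt γ y := by
  have hn := nsq_nonneg y
  have hi : 1 ≤ ν⁻¹ := one_le_inv₀ h0 |>.2 h1
  have hp : 1 ≤ ν⁻¹ ^ m := one_le_pow₀ hi
  have hw : 0 < wt γ y := Real.rpow_pos_of_pos (by linarith) _
  rw [wt_eq γ ν h0.le]
  rcases le_total 0 γ with hγ | hγ
  · have : (1 + ν * nsq y) ^ (γ / 2) ≤ wt γ y :=
      Real.rpow_le_rpow (den_pos h0.le y).le (by nlinarith) (by linarith)
    nlinarith
  · have h2 : (1 + ν * nsq y) ^ (γ / 2) ≤ (ν * (1 + nsq y)) ^ (γ / 2) :=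
      Real.rpow_le_rpow_of_nonpos (by positivity) (by nlinarith) (by linarith)
    rw [Real.mul_rpow h0.le (by linarith)] at h2
    refine h2.trans (mul_le_mul_of_nonneg_right ?_ hw.le)
    have h3 : ν ^ (γ / 2) = ν⁻¹ ^ (-γ / 2) := by
      rw [Real.inv_rpow h0.le, ← Real.rpow_neg h0.le]
      congr 1
      ring
    rw [h3, ← Real.rpow_natCast]
    exact Real.rpow_le_rpow_of_exponent_le hi hm

theorem wt_scale_neg_one {ν : ℝ} (h0 : 0 < ν) (h1 : ν ≤ 1) (y : Pt) :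
    √ν * wt (-1) (√ν • y) ≤ wt (-1) y := by
  have hn := nsq_nonneg y
  rw [wt_eq _ ν h0.le]
  have h2 : (1 + ν * nsq y) ^ ((-1 : ℝ) / 2) ≤ (ν * (1 + nsq y)) ^ ((-1 : ℝ) / 2) :=
    Real.rpow_le_rpow_of_nonpos (by positivity) (by nlinarith) (by norm_num)
  rw [Real.mul_rpow h0.le (by linarith)] at h2
  have h3 : √ν * ν ^ ((-1 : ℝ) / 2) = 1 := by
    rw [Real.sqrt_eq_rpow, ← Real.rpow_add h0]
    norm_num
  calc √ν * (1 + ν * nsq y) ^ ((-1 : ℝ) / 2)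
      ≤ √ν * (ν ^ ((-1 : ℝ) / 2) * (1 + nsq y) ^ ((-1 : ℝ) / 2)) :=
        mul_le_mul_of_nonneg_left h2 (Real.sqrt_nonneg ν)
    _ = wt (-1) y := by rw [← mul_assoc, h3, one_mul, wt]

/-- Rescaled symbols. -/
theorem sym_scale (b1 : B1Stmt) (l0 : L0Facts) {m : ℝ} {f : Pt → ℝ} (hf : IsSym m f) (k : ℕ) :
    ∃ C : ℝ, 0 ≤ C ∧ ∀ ν : ℝ, 0 < ν → ν ≤ 1 → ∀ y,
      WB (wt (-1) y) k (C * wt m (√ν • y)) (fun q => f (√ν • q)) y := by
  obtain ⟨C, hC⟩ := hf.2 k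
  refine ⟨|C|, abs_nonneg C, fun ν h0 h1 y => ?_⟩
  have h2 := wb_scale (Real.sqrt_nonneg ν) (hC (√ν • y) (mem_univ _)) rfl
  refine (b1 4).mono h2 ?_ (wt_scale_neg_one h0 h1 y) ?_
  · exact mul_nonneg (Real.sqrt_nonneg ν) (l0.wt_pos _ _).le
  · exact mul_le_mul_of_nonneg_right (le_abs_self C) (l0.wt_pos _ _).le

/-- Symbols up to a fixed order of differentiation. -/
def SK (U : Set Pt) (m : ℝ) (k : ℕ) (f : Pt → ℝ) : Prop :=
  (∀ y ∈ U, ContDiffAt ℝ ∞ f y) ∧ ∃ C, SymOn U m k f C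

theorem SK.of_is {U : Set Pt} {m : ℝ} {f : Pt → ℝ} (h : IsSymOn U m f) (k : ℕ) : SK U m k f :=
  ⟨h.1, h.2 k⟩

theorem SK.is {U : Set Pt} {m : ℝ} {f : Pt → ℝ} (h : ∀ k, SK U m k f) : IsSymOn U m f :=
  ⟨(h 0).1, fun k => (h k).2⟩

theorem SK.add (l0 : L0Facts) {U : Set Pt} {m : ℝ} {k : ℕ} {f g : Pt → ℝ} (h : SK U m k f)
    (h' : SK U m k g) : SK U m k (f + g) := by
  obtain ⟨C, hC⟩ := h.2
  obtain ⟨C', hC'⟩ := h'.2
  exact ⟨fun y hy => (h.1 y hy).add (h'.1 y hy), _, l0.add h.1 h'.1 hC hC'⟩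

theorem SK.mul (l0 : L0Facts) {U : Set Pt} {m m' m'' : ℝ} {k : ℕ} {f g : Pt → ℝ} (h : SK U m k f)
    (h' : SK U m' k g) (e : m + m' = m'') : SK U m'' k (f * g) := by
  obtain ⟨C, hC⟩ := h.2
  obtain ⟨C', hC'⟩ := h'.2
  subst e
  exact ⟨fun y hy => (h.1 y hy).mul (h'.1 y hy), _, l0.mul h.1 h'.1 hC hC'⟩

theorem SK.smul (l0 : L0Facts) {U : Set Pt} {m : ℝ} {k : ℕ} {f : Pt → ℝ} (c : ℝ)
    (h : SK U m k f) : SK U m k (c • f) := by
  obtain ⟨C, hC⟩ := h.2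
  exact ⟨fun y hy => (h.1 y hy).const_smul c, _, l0.smul c h.1 hC⟩

theorem SK.congr (b1 : B1Stmt) {U : Set Pt} (hU : IsOpen U) {m : ℝ} {k : ℕ} {f g : Pt → ℝ}
    (h : SK U m k f) (e : ∀ y ∈ U, f y = g y) : SK U m k g := by
  have he : ∀ y ∈ U, f =ᶠ[𝓝 y] g := fun y hy => by
    filter_upwards [hU.mem_nhds hy] with z hz using e z hz
  obtain ⟨C, hC⟩ := h.2
  exact ⟨fun y hy => (h.1 y hy).congr_of_eventuallyEq (he y hy).symm,
    C, fun y hy => (b1 4).congr (hC y hy) (he y hy)⟩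

theorem SK.der (l0 : L0Facts) {U : Set Pt} {m m' : ℝ} {k : ℕ} {f : Pt → ℝ}
    (h : SK U m (k + 1) f) (i : Fin 4) (e : m - 1 = m') : SK U m' k (pd i f) := by
  obtain ⟨C, hC⟩ := h.2
  subst e
  exact ⟨fun y hy => contDiffAt_pdn (h.1 y hy) i, C, (l0.succ.1 hC).2 i⟩

theorem SK.sub (l0 : L0Facts) {U U' : Set Pt} {m : ℝ} {k : ℕ} {f : Pt → ℝ}
    (h : SK U m k f) (hU : U' ⊆ U) : SK U' m k f := by
  obtain ⟨C, hC⟩ := h.2
  exact ⟨fun y hy => h.1 y (hU hy), C, l0.mono hC hU le_rfl le_rfl le_rfl⟩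

theorem sk_coord (l0 : L0Facts) (i : Fin 4) (k : ℕ) : SK univ 1 k fun y => y i :=
  ⟨fun _ _ => (contDiff_apply ℝ ℝ i).contDiffAt, 1, l0.coord i k⟩

theorem sk_sY (b1 : B1Stmt) (l0 : L0Facts) (j : Fin 2) (k : ℕ) : SK univ 2 k fun y => sY y j := by
  have h : ∀ a b : Fin 4, SK univ 2 k ((fun y : Pt => y a) * (fun y : Pt => y a) +
      (fun y : Pt => y b) * (fun y : Pt => y b)) := fun a b =>
    ((sk_coord l0 a k).mul l0 (sk_coord l0 a k) (by norm_num)).add l0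
      ((sk_coord l0 b k).mul l0 (sk_coord l0 b k) (by norm_num))
  fin_cases j
  · exact (h 0 1).congr b1 isOpen_univ fun y _ => by simp [sY, pow_two]
  · exact (h 2 3).congr b1 isOpen_univ fun y _ => by simp [sY, pow_two]

theorem wt_neg_two (y : Pt) : wt (-2) y = (1 + nsq y)⁻¹ := by
  rw [wt, ← Real.rpow_neg_one]
  norm_num

theorem sym_lY1 (b1 : B1Stmt) (l0 : L0Facts) (j : Fin 2) : IsSym 0 fun y => lY 1 y j :=
  SK.is fun k => ((sk_sY b1 l0 j k).mul l0 (SK.of_is (l0.wt_sym (-2)) k) (by norm_num)).congr b1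
    isOpen_univ fun y _ => by simp [lY, wt_neg_two, div_eq_mul_inv]

theorem lY_bd (b1 : B1Stmt) (l0 : L0Facts) (k : ℕ) : ∃ B : ℝ, ∀ ν : ℝ, 0 < ν → ν ≤ 1 →
    ∀ y j, WB (wt (-1) y) k B (fun q => lY ν q j) y := by
  choose C hC h using fun j => sym_scale b1 l0 (sym_lY1 b1 l0 j) k
  refine ⟨∑ j, C j, fun ν h0 h1 y j => ?_⟩
  have h2 := h j ν h0 h1 y
  rw [l0.wt_zero, mul_one] at h2
  have e : (fun q => lY ν q j) = fun q => lY 1 (√ν • q) j := by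
    funext q
    rw [lY_scale h0.le]
  rw [e]
  exact (b1 4).mono h2 (l0.wt_pos _ _).le le_rfl
    (Finset.single_le_sum (fun i _ => hC i) (Finset.mem_univ j))

theorem compY (b1 : B1Stmt) (l0 : L0Facts) (k : ℕ) : ∃ C : ℝ, 0 ≤ C ∧ ∀ ν : ℝ, 0 < ν → ν ≤ 1 →
    ∀ (G : En 2 → ℝ) (a : ℝ) (y : Pt), ContDiffAt ℝ ∞ G (lY ν y) → WB 1 k a G (lY ν y) →
    WB (wt (-1) y) k (C * a) (fun q => G (lY ν q)) y := by
  obtain ⟨B, hB⟩ := lY_bd b1 l0 k
  obtain ⟨C, hC, h⟩ := wb_comp (n := 4) b1 2 k B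
  exact ⟨C, hC, fun ν h0 h1 G a y h2 h3 =>
    h (cd_lY h0.le).contDiffAt h2 (l0.wt_pos _ _).le (hB ν h0 h1 y) h3⟩

theorem lI_bd (b1 : B1Stmt) (l0 : L0Facts) (k : ℕ) : ∃ B : ℝ, ∀ y, 1 ≤ nsq y →
    ∀ j, WB (wt (-1) y) k B (fun q => lI q j) y := by
  have hK : IsCompact (Nb 0 ∩ {ℓ : En 2 | 1 / 2 ≤ ℓ 0 + ℓ 1}) :=
    (compact_Nb 0).inter_right (isClosed_le continuous_const (by fun_prop))
  have hs : ∀ j : Fin 2, ∀ ℓ ∈ Nb 0 ∩ {ℓ : En 2 | 1 / 2 ≤ ℓ 0 + ℓ 1},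
      ContDiffAt ℝ ∞ (fun ℓ : En 2 => ℓ j / (ℓ 0 + ℓ 1)) ℓ := fun j ℓ hℓ => by
    have h : (1 : ℝ) / 2 ≤ ℓ 0 + ℓ 1 := hℓ.2
    exact ContDiffAt.div (by fun_prop) (by fun_prop) (by linarith)
  choose A hA using fun j => (b1 2).compact hK (hs j) k
  obtain ⟨C, hC, h⟩ := compY b1 l0 k
  refine ⟨∑ j, |C * A j|, fun y hy j => ?_⟩
  have hm : lY 1 y ∈ Nb 0 ∩ {ℓ : En 2 | 1 / 2 ≤ ℓ 0 + ℓ 1} := by
    refine ⟨lY_mem zero_le_one y, ?_⟩
    change 1 / 2 ≤ lY 1 y 0 + lY 1 y 1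
    simp only [lY, one_mul]
    rw [← add_div, sY_add, le_div_iff₀ (by linarith)]
    linarith
  have h2 := h 1 one_pos le_rfl _ _ y (hs j _ hm) (hA j _ hm)
  refine (b1 4).mono ((b1 4).congr h2 ?_) (l0.wt_pos _ _).le le_rfl ((le_abs_self _).trans
    (Finset.single_le_sum (f := fun j => |C * A j|) (fun i _ => abs_nonneg _) (Finset.mem_univ j)))
  have ho : IsOpen {q : Pt | 0 < nsq q} := isOpen_lt continuous_const cd_nsq.continuous
  filter_upwards [ho.mem_nhds (show 0 < nsq y by linarith)] with q hq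
  have hq' : 0 < nsq q := hq
  simp only [lY, lI, one_mul]
  rw [← add_div, sY_add]
  field_simp

theorem compI (b1 : B1Stmt) (l0 : L0Facts) (k : ℕ) : ∃ C : ℝ, 0 ≤ C ∧
    ∀ (G : En 2 → ℝ) (a : ℝ) (y : Pt), 1 ≤ nsq y → ContDiffAt ℝ ∞ G (lI y) → WB 1 k a G (lI y) →
    WB (wt (-1) y) k (C * a) (fun q => G (lI q)) y := by
  obtain ⟨B, hB⟩ := lI_bd b1 l0 k
  obtain ⟨C, hC, h⟩ := wb_comp (n := 4) b1 2 k B
  exact ⟨C, hC, fun G a y h1 h2 h3 =>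
    h (cd_lI (by linarith)) h2 (l0.wt_pos _ _).le (hB y h1) h3⟩

theorem cd_cut : ContDiff ℝ ∞ fun y : Pt => Real.smoothTransition (nsq y - 1) :=
  Real.smoothTransition.contDiff.comp (cd_nsq.sub contDiff_const)

theorem compact_ball : IsCompact {y : Pt | nsq y ≤ 2} := by
  refine (isCompact_Icc (a := fun _ : Fin 4 => (-2 : ℝ)) (b := fun _ => 2)).of_isClosed_subset
    (isClosed_le cd_nsq.continuous continuous_const) fun y hy => ?_
  have h : ∀ i, y i ^ 2 ≤ 2 := fun i =>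
    (Finset.single_le_sum (f := fun i => y i ^ 2) (fun i _ => sq_nonneg _)
      (Finset.mem_univ i)).trans hy
  exact ⟨fun i => by nlinarith [h i], fun i => by nlinarith [h i]⟩

theorem sk_one (b1 : B1Stmt) (l0 : L0Facts) (k : ℕ) : SK univ 0 k fun _ => 1 :=
  (SK.of_is (l0.wt_sym 0) k).congr b1 isOpen_univ fun y _ => l0.wt_zero y

theorem sk_cut (b1 : B1Stmt) (l0 : L0Facts) (k : ℕ) :
    SK univ 0 k fun y : Pt => Real.smoothTransition (nsq y - 1) := by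
  have hc : CC fun y : Pt => 1 - Real.smoothTransition (nsq y - 1) := by
    refine ⟨contDiff_const.sub cd_cut, HasCompactSupport.intro compact_ball fun y hy => ?_⟩
    have : 2 < nsq y := lt_of_not_ge hy
    rw [Real.smoothTransition.one_of_one_le (by linarith), sub_self]
  exact ((sk_one b1 l0 k).add l0 ((SK.of_is (l0.cc_sym hc 0) k).smul l0 (-1))).congr b1
    isOpen_univ fun y _ => by simp

theorem cut_zero {y : Pt} (hy : nsq y < 1) (H : Pt → ℝ) :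
    (fun _ => (0 : ℝ)) =ᶠ[𝓝 y] fun q => Real.smoothTransition (nsq q - 1) * H q := by
  have ho : IsOpen {q : Pt | nsq q < 1} := isOpen_lt cd_nsq.continuous continuous_const
  filter_upwards [ho.mem_nhds hy] with q hq
  have hq' : nsq q < 1 := hq
  rw [Real.smoothTransition.zero_of_nonpos (by linarith), zero_mul]

theorem cd_compI {G : En 2 → ℝ} (hG : ∀ ℓ ∈ Nb 0, ContDiffAt ℝ ∞ G ℓ) {y : Pt} (hy : 0 < nsq y) :
    ContDiffAt ℝ ∞ (fun q => G (lI q)) y := (hG _ (lI_mem hy)).comp y (cd_lI hy)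

theorem cd_compY {G : En 2 → ℝ} (hG : ∀ ℓ ∈ Nb 0, ContDiffAt ℝ ∞ G ℓ) {ν : ℝ} (hν : 0 ≤ ν) :
    ContDiff ℝ ∞ fun q => G (lY ν q) :=
  contDiff_iff_contDiffAt.2 fun y => (hG _ (lY_mem hν y)).comp y (cd_lY hν).contDiffAt

theorem cd_compC {G : En 2 → ℝ} (hG : ∀ ℓ ∈ Nb 0, ContDiffAt ℝ ∞ G ℓ) :
    ContDiff ℝ ∞ fun q => Real.smoothTransition (nsq q - 1) * G (lI q) := by
  refine contDiff_iff_contDiffAt.2 fun y => ?_
  rcases lt_or_ge (nsq y) 1 with hy | hy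
  · exact contDiffAt_const.congr_of_eventuallyEq (cut_zero hy _).symm
  · exact cd_cut.contDiffAt.mul (cd_compI hG (by linarith))

theorem compC (b1 : B1Stmt) (l0 : L0Facts) (k : ℕ) : ∃ C : ℝ, ∀ (G : En 2 → ℝ) (a : ℝ),
    (∀ ℓ ∈ Nb 0, ContDiffAt ℝ ∞ G ℓ) → (∀ ℓ ∈ Nb 0, WB 1 k a G ℓ) →
    Sym 0 k (fun q => Real.smoothTransition (nsq q - 1) * G (lI q)) (C * a) := by
  obtain ⟨C, hC, h⟩ := compI b1 l0 k
  obtain ⟨A, hA⟩ := (sk_cut b1 l0 k).2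
  have hA0 : 0 ≤ A := by simpa [l0.wt_zero] using wb_nonneg b1 (hA 0 (mem_univ _))
  refine ⟨2 ^ k * A * C, fun G a h1 h2 y _ => ?_⟩
  have ha : 0 ≤ a := wb_nonneg b1 (h2 _ (lY_mem zero_le_one 0))
  rw [l0.wt_zero, mul_one]
  rcases lt_or_ge (nsq y) 1 with hy | hy
  · refine (b1 4).mono ((b1 4).congr ((b1 4).const k 0 y (l0.wt_pos (-1) y).le) (cut_zero hy _))
      (l0.wt_pos _ _).le le_rfl ?_
    rw [abs_zero]
    positivity
  · have h3 := hA y (mem_univ _)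
    rw [l0.wt_zero, mul_one] at h3
    have hy' : 0 < nsq y := by linarith
    have h4 := (b1 4).mul cd_cut.contDiffAt (cd_compI h1 hy') h3
      (h G a y hy (h1 _ (lI_mem hy')) (h2 _ (lI_mem hy')))
    exact (b1 4).mono h4 (l0.wt_pos _ _).le le_rfl (le_of_eq (by ring))

theorem open_ext1 : IsOpen ext1 := isOpen_lt continuous_const cd_nsq.continuous

theorem ext1_lt {y : Pt} (hy : y ∈ ext1) : 1 < nsq y := hy

theorem sk_compI (b1 : B1Stmt) (l0 : L0Facts) {G : En 2 → ℝ}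
    (hG : ∀ ℓ ∈ Nb 0, ContDiffAt ℝ ∞ G ℓ) (k : ℕ) : SK ext1 0 k fun q => G (lI q) := by
  obtain ⟨C, -, h⟩ := compI b1 l0 k
  obtain ⟨A, hA⟩ := (b1 2).compact (compact_Nb 0) hG k
  refine ⟨fun y hy => cd_compI hG (by linarith [ext1_lt hy]), C * A, fun y hy => ?_⟩
  have hy' : 0 < nsq y := by linarith [ext1_lt hy]
  rw [l0.wt_zero, mul_one]
  exact h G A y (ext1_lt hy).le (hG _ (lI_mem hy')) (hA _ (lI_mem hy'))

theorem sk_compY (b1 : B1Stmt) (l0 : L0Facts) {G : En 2 → ℝ}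
    (hG : ∀ ℓ ∈ Nb 0, ContDiffAt ℝ ∞ G ℓ) {ν : ℝ} (h0 : 0 < ν) (h1 : ν ≤ 1) (k : ℕ) :
    SK univ 0 k fun q => G (lY ν q) := by
  obtain ⟨C, -, h⟩ := compY b1 l0 k
  obtain ⟨A, hA⟩ := (b1 2).compact (compact_Nb 0) hG k
  refine ⟨fun y _ => (cd_compY hG h0.le).contDiffAt, C * A, fun y _ => ?_⟩
  rw [l0.wt_zero, mul_one]
  exact h ν h0 h1 G A y (hG _ (lY_mem h0.le y)) (hA _ (lY_mem h0.le y))

theorem tau_pow {ν : ℝ} (hν : 0 ≤ ν) (a : ℝ) :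
    (fun y => τP (lY ν y) ^ a) = fun y => wt (-2 * a) (√ν • y) := by
  funext y
  rw [tau_lY hν, wt_eq _ _ hν, Real.inv_rpow (den_pos hν y).le,
    ← Real.rpow_neg (den_pos hν y).le]
  congr 1
  ring

theorem tau_bd (b1 : B1Stmt) (l0 : L0Facts) (a : ℝ) (k : ℕ) : ∃ C : ℝ, 0 ≤ C ∧ ∀ ν : ℝ, 0 < ν →
    ν ≤ 1 → Sym (-2 * a) k (fun y => τP (lY ν y) ^ a) (C * ν⁻¹ ^ ⌈a⌉₊) := by
  obtain ⟨C, hC, h⟩ := sym_scale b1 l0 (l0.wt_sym (-2 * a)) k
  refine ⟨C, hC, fun ν h0 h1 y _ => ?_⟩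
  rw [tau_pow h0.le]
  refine (b1 4).mono (h ν h0 h1 y) (l0.wt_pos _ _).le le_rfl ?_
  rw [mul_assoc C]
  refine mul_le_mul_of_nonneg_left (wt_scale_le h0 h1 _ _ ?_ y) hC
  linarith [Nat.le_ceil a]

theorem cd_tau (l0 : L0Facts) {ν : ℝ} (hν : 0 ≤ ν) (a : ℝ) :
    ContDiff ℝ ∞ fun y => τP (lY ν y) ^ a := by
  rw [tau_pow hν]
  have h : ContDiff ℝ ∞ (wt (-2 * a)) :=
    contDiff_iff_contDiffAt.2 fun y => (l0.wt_sym _).1 y (mem_univ _)
  exact h.comp (contDiff_id.const_smul _)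

theorem sk_tau (b1 : B1Stmt) (l0 : L0Facts) {ν : ℝ} (h0 : 0 < ν) (h1 : ν ≤ 1) (k : ℕ) :
    SK univ (-2) k fun y => τP (lY ν y) := by
  obtain ⟨C, -, h⟩ := tau_bd b1 l0 1 k
  have h2 := h ν h0 h1
  have h3 := cd_tau l0 h0.le 1
  simp only [Real.rpow_one, mul_one] at h2 h3
  exact ⟨fun y _ => h3.contDiffAt, _, h2⟩

theorem lY_sub_lI {ν : ℝ} (hν : 0 ≤ ν) {y : Pt} (hy : 0 < nsq y) (j : Fin 2) :
    lY ν y j - lI y j = -(τP (lY ν y) * lI y j) := by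
  have h := den_pos hν y
  rw [tau_lY hν]
  simp only [lY, lI]
  field_simp
  ring

theorem cd_coord (j : Fin 2) : ∀ ℓ ∈ Nb 0, ContDiffAt ℝ ∞ (fun ℓ : En 2 => ℓ j) ℓ :=
  fun _ _ => (contDiff_apply ℝ ℝ j).contDiffAt

theorem sk_dl (b1 : B1Stmt) (l0 : L0Facts) {ν : ℝ} (h0 : 0 < ν) (h1 : ν ≤ 1) (j : Fin 2)
    (k : ℕ) : SK ext1 (-2) k fun y => lY ν y j - lI y j :=
  ((((sk_tau b1 l0 h0 h1 k).sub l0 (subset_univ _)).mul l0 (sk_compI b1 l0 (cd_coord j) k)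
    (by norm_num)).smul l0 (-1)).congr b1 open_ext1 fun y hy => by
      rw [lY_sub_lI h0.le (by linarith [ext1_lt hy])]
      simp

theorem diff_val {ν : ℝ} (h0 : 0 < ν) (h1 : ν ≤ 1) {G : En 2 → ℝ}
    (hG : ∀ ℓ ∈ Nb 0, ContDiffAt ℝ ∞ G ℓ) :
    ∃ C : ℝ, ∀ y ∈ ext1, |G (lY ν y) - G (lI y)| ≤ C * wt (-2) y := by
  have hc : ContDiffOn ℝ ∞ G (Nb 0) := fun ℓ hℓ => (hG ℓ hℓ).contDiffWithinAt
  obtain ⟨K, hK⟩ := hc.exists_lipschitzOnWith (by simp) (convex_Nb 0) (compact_Nb 0)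
  refine ⟨K * ν⁻¹, fun y hy => ?_⟩
  have hy' : 0 < nsq y := by linarith [ext1_lt hy]
  have h2 := hK.dist_le_mul _ (lY_mem h0.le y) _ (lI_mem hy')
  have ht : 0 ≤ τP (lY ν y) := by simpa using (lY_mem h0.le y).2.2
  have h3 : dist (lY ν y) (lI y) ≤ τP (lY ν y) := by
    refine (dist_pi_le_iff ht).2 fun j => ?_
    have h4 : 0 ≤ lI y j := div_nonneg (sY_nonneg y j) hy'.le
    have h5 : lI y j ≤ 1 := by
      refine (div_le_one hy').2 ?_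
      have := sY_add y
      have := sY_nonneg y 0
      have := sY_nonneg y 1
      fin_cases j <;> simp <;> linarith
    rw [Real.dist_eq, lY_sub_lI h0.le hy', abs_neg, abs_of_nonneg (mul_nonneg ht h4)]
    nlinarith
  have h4 : τP (lY ν y) ≤ ν⁻¹ * wt (-2) y := by
    have h5 := wt_scale_le h0 h1 (-2) 1 (by norm_num) y
    rw [wt_neg_two, nsq_smul, Real.sq_sqrt h0.le, pow_one, ← tau_lY h0.le] at h5
    exact h5
  rw [← Real.dist_eq, mul_assoc]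
  exact h2.trans (mul_le_mul_of_nonneg_left (h3.trans h4) K.2)

theorem sk_diff (b1 : B1Stmt) (l0 : L0Facts) {ν : ℝ} (h0 : 0 < ν) (h1 : ν ≤ 1) :
    ∀ (k : ℕ) {G : En 2 → ℝ}, (∀ ℓ ∈ Nb 0, ContDiffAt ℝ ∞ G ℓ) →
      SK ext1 (-2) k fun y => G (lY ν y) - G (lI y) := by
  intro k
  induction k with
  | zero =>
    intro G hG
    obtain ⟨C, hC⟩ := diff_val h0 h1 hG
    exact ⟨fun y hy => (cd_compY hG h0.le).contDiffAt.sub
      (cd_compI hG (by linarith [ext1_lt hy])), C, hC⟩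
  | succ k ih =>
    intro G hG
    obtain ⟨C, hC⟩ := diff_val h0 h1 hG
    have hD : ∀ j, ∀ ℓ ∈ Nb 0, ContDiffAt ℝ ∞ (pdn j G) ℓ := fun j ℓ hℓ =>
      contDiffAt_pdn (hG ℓ hℓ) j
    have hT : ∀ (i : Fin 4) (j : Fin 2), SK ext1 (-2 - 1) k
        ((fun y => pdn j G (lY ν y) - pdn j G (lI y)) * pd i (fun y => lY ν y j) +
          (fun y => pdn j G (lI y)) * pd i (fun y => lY ν y j - lI y j)) := fun i j =>
      ((ih (hD j)).mul l0 (((sk_compY b1 l0 (cd_coord j) h0 h1 (k + 1)).sub l0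
        (subset_univ _)).der l0 i rfl) (by norm_num)).add l0
        ((sk_compI b1 l0 (hD j) k).mul l0 ((sk_dl b1 l0 h0 h1 j (k + 1)).der l0 i rfl)
          (by norm_num))
    have hE : ∀ i : Fin 4, SK ext1 (-2 - 1) k (pd i fun y => G (lY ν y) - G (lI y)) := by
      intro i
      refine ((hT i 0).add l0 (hT i 1)).congr b1 open_ext1 fun y hy => ?_
      have hy' : 0 < nsq y := by linarith [ext1_lt hy]
      have dY : DifferentiableAt ℝ (lY ν) y := (cd_lY h0.le).differentiable (by simp) y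
      have dI : DifferentiableAt ℝ lI y := (cd_lI hy').differentiableAt (by simp)
      have dG1 := (hG _ (lY_mem h0.le y)).differentiableAt (by simp)
      have dG2 := (hG _ (lI_mem hy')).differentiableAt (by simp)
      have e1 := (b1 4).chain dY dG1 i
      have e2 := (b1 4).chain dI dG2 i
      have e3 : ∀ {f g : Pt → ℝ}, DifferentiableAt ℝ f y → DifferentiableAt ℝ g y →
          pd i (fun y => f y - g y) y = pdn i f y - pdn i g y := fun {f g} hf hg => by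
        simp [pd, pdn, fderiv_fun_sub hf hg]
      have e4 : ∀ j, pd i (fun y => lY ν y j - lI y j) y =
          pdn i (fun y => lY ν y j) y - pdn i (fun y => lI y j) y := fun j =>
        e3 ((cd_lYj h0.le j).differentiable (by simp) y) ((cd_lIj hy' j).differentiableAt (by simp))
      have e5 := e3 (f := G ∘ lY ν) (g := G ∘ lI) (dG1.comp y dY) (dG2.comp y dI)
      rw [e1, e2, Fin.sum_univ_two, Fin.sum_univ_two] at e5
      simp only [Pi.add_apply, Pi.mul_apply, e4]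
      change _ = pd i (fun y => (G ∘ lY ν) y - (G ∘ lI) y) y
      rw [e5, pd_eq_pdn]
      ring
    choose A hA using fun i => (hE i).2
    refine ⟨fun y hy => (cd_compY hG h0.le).contDiffAt.sub
      (cd_compI hG (by linarith [ext1_lt hy])), |C| + ∑ i, |A i|, l0.succ.2 ⟨fun y hy => ?_,
        fun i => l0.mono (hA i) subset_rfl le_rfl le_rfl ?_⟩⟩
    · refine (hC y hy).trans (mul_le_mul_of_nonneg_right ?_ (l0.wt_pos _ _).le)
      have : 0 ≤ ∑ i, |A i| := Finset.sum_nonneg fun i _ => abs_nonneg _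
      linarith [le_abs_self C]
    · have := Finset.single_le_sum (f := fun i => |A i|) (fun i _ => abs_nonneg _)
        (Finset.mem_univ i)
      linarith [le_abs_self (A i), abs_nonneg C]

theorem rad_eq (f : Pt → ℝ) (y : Pt) : rad f y = fderiv ℝ f y y := by
  have h : fderiv ℝ f y (∑ i, y i • Pi.single i 1) = rad f y := by simp [rad, pd]
  rw [← h, ← pi_eq_sum_univ' y]

theorem rad_lY {ν : ℝ} (hν : 0 ≤ ν) (j : Fin 2) (y : Pt) :
    rad (fun q => lY ν q j) y = 2 * τP (lY ν y) * lY ν y j := by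
  have hd : HasFDerivAt (fun q => lY ν q j) (fderiv ℝ (fun q => lY ν q j) y) ((1 : ℝ) • y) := by
    rw [one_smul]
    exact ((cd_lYj hν j).differentiable (by simp) y).hasFDerivAt
  have h1 : HasDerivAt (fun t : ℝ => lY ν (t • y) j) (fderiv ℝ (fun q => lY ν q j) y y) 1 := by
    have := hd.comp_hasDerivAt (1 : ℝ) ((hasDerivAt_id (1 : ℝ)).smul_const y)
    simpa [Function.comp_def] using this
  have h := den_pos hν y
  have h2 : HasDerivAt (fun t : ℝ => lY ν (t • y) j) (2 * τP (lY ν y) * lY ν y j) 1 := by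
    have e : (fun t : ℝ => lY ν (t • y) j) =
        fun t : ℝ => ν * (t ^ 2 * sY y j) / (1 + ν * (t ^ 2 * nsq y)) := by
      funext t
      simp only [lY, sY_smul, nsq_smul]
    rw [e]
    have p2 := hasDerivAt_pow 2 (1 : ℝ)
    refine (((p2.mul_const (sY y j)).const_mul ν).div
      (((p2.mul_const (nsq y)).const_mul ν).const_add 1) (by simpa using h.ne')).congr_deriv ?_
    rw [tau_lY hν]
    simp only [lY]
    field_simp
    ring
  rw [rad_eq]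
  exact h1.unique h2

theorem rad_compY (b1 : B1Stmt) {G : En 2 → ℝ} (hG : ∀ ℓ ∈ Nb 0, ContDiffAt ℝ ∞ G ℓ) {ν : ℝ}
    (hν : 0 ≤ ν) (y : Pt) : rad (fun q => G (lY ν q)) y =
      pdn 0 G (lY ν y) * (2 * τP (lY ν y) * lY ν y 0) +
        pdn 1 G (lY ν y) * (2 * τP (lY ν y) * lY ν y 1) := by
  have dY : DifferentiableAt ℝ (lY ν) y := (cd_lY hν).differentiable (by simp) y
  have dG1 := (hG _ (lY_mem hν y)).differentiableAt (by simp)
  have e1 := (b1 4).chain dY dG1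
  rw [← rad_lY hν, ← rad_lY hν]
  change ∑ c, y c * pdn c (G ∘ lY ν) y = _
  simp only [e1, rad, pd_eq_pdn, Fin.sum_univ_two, Fin.sum_univ_four]
  ring

theorem two_le (i : ℕ × ℝ) : 2 ≤ ΛN i := le_max_left _ _

theorem ev_lN {P : ℕ × ℝ → Prop} (h : ∀ N, ∀ᶠ ε in 𝓝[>] (0 : ℝ), P (N, ε)) : ∀ᶠ i in lN, P i :=
  eventually_curry_iff.2 (Eventually.of_forall h)

theorem ev_small (C : ℝ) : ∀ᶠ ε in 𝓝[>] (0 : ℝ), 0 < ε ∧ C ≤ ε⁻¹ :=
  Eventually.and self_mem_nhdsWithin (tendsto_inv_nhdsGT_zero.eventually_ge_atTop C)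

theorem ev_nu {c₀ : ℝ} (hc : 0 < c₀) :
    ∀ᶠ i in lN, 0 < i.2 * c₀ ∧ i.2 * c₀ ≤ 1 ∧ (i.2 * c₀)⁻¹ ≤ ΛN i ^ 2 := by
  refine ev_lN fun N => ?_
  filter_upwards [ev_small c₀, ev_small c₀⁻¹] with ε h1 h2
  have h0 := h1.1
  refine ⟨mul_pos h0 hc, ?_, ?_⟩
  · calc ε * c₀ ≤ ε * ε⁻¹ := mul_le_mul_of_nonneg_left h1.2 h0.le
      _ = 1 := mul_inv_cancel₀ h0.ne'
  · have h3 : ε⁻¹ ≤ ΛN (N, ε) := le_max_right _ _
    have h4 : 0 < ε⁻¹ := inv_pos.2 h0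
    have h5 : 0 < c₀⁻¹ := inv_pos.2 hc
    change (ε * c₀)⁻¹ ≤ _
    rw [mul_inv, pow_two]
    exact mul_le_mul h3 (h2.2.trans h3) h5.le (h4.le.trans h3)

/-- Polynomial bounds on the closed simplex. -/
def Rg (F : ℕ × ℝ → En 2 → ℝ) : Prop :=
  (∀ᶠ i in lN, ∀ ℓ ∈ Nb 0, ContDiffAt ℝ ∞ (F i) ℓ) ∧
    ∀ k, ∃ p : ℕ, ∀ᶠ i in lN, ∀ ℓ ∈ Nb 0, WB 1 k (ΛN i ^ p) (F i) ℓ

theorem rg_of_reg (b1 : B1Stmt) {F : ℕ → ℝ → En 2 → ℝ} (h : ∀ N, Reg (F N)) :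
    Rg fun i => F i.1 i.2 := by
  refine ⟨ev_lN fun N => ?_, fun k => ⟨k + 4, ev_lN fun N => ?_⟩⟩
  · have h1 : ∀ᶠ z in fam (𝓝[>] (0 : ℝ)) Dz, ContDiffAt ℝ ∞ (F N z.1) z.2 := (h N).1
    filter_upwards [ev_fam.1 h1, ev_small 0] with ε h2 h3 ℓ hℓ
    exact h2 ℓ (Nb_sub_Dz h3.1 hℓ)
  · obtain ⟨C, hC⟩ := (h N).2 k
    filter_upwards [ev_fam.1 hC, ev_small 1, ev_small C] with ε h2 h3 h4 ℓ hℓ
    have h5 : WB ε⁻¹ k (C * |ε⁻¹ ^ 3|) (F N ε) ℓ := h2 ℓ (Nb_sub_Dz h3.1 hℓ)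
    have h6 := wb_rescale b1 h3.2 zero_le_one (le_of_eq (mul_one _).symm) h5
    refine (b1 2).mono h6 zero_le_one le_rfl ?_
    have h7 : 0 ≤ ε⁻¹ := zero_le_one.trans h3.2
    have h8 : ε⁻¹ ≤ ΛN (N, ε) := le_max_right _ _
    rw [abs_of_nonneg (by positivity)]
    calc ε⁻¹ ^ k * (C * ε⁻¹ ^ 3) ≤ ε⁻¹ ^ k * (ε⁻¹ * ε⁻¹ ^ 3) := by gcongr; exact h4.2
      _ = ε⁻¹ ^ (k + 4) := by ring
      _ ≤ ΛN (N, ε) ^ (k + 4) := by gcongr

theorem Rg.der {F : ℕ × ℝ → En 2 → ℝ} (h : Rg F) (j : Fin 2) : Rg fun i => pdn j (F i) := by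
  refine ⟨?_, fun k => ?_⟩
  · filter_upwards [h.1] with i hi ℓ hℓ using contDiffAt_pdn (hi ℓ hℓ) j
  · obtain ⟨p, hp⟩ := h.2 (k + 1)
    refine ⟨p, ?_⟩
    filter_upwards [hp] with i hi ℓ hℓ
    simpa using (hi ℓ hℓ).2 j

theorem rg_coord (b1 : B1Stmt) (j : Fin 2) : Rg fun _ ℓ => ℓ j := by
  refine ⟨Eventually.of_forall fun _ => cd_coord j, fun k => ⟨0, Eventually.of_forall ?_⟩⟩
  rintro i ℓ ⟨h0, h1, h2⟩
  simp only [τP] at h2
  refine (b1 2).coord k j ℓ zero_le_one ?_ (by simp)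
  rw [pow_zero, abs_le]
  fin_cases j <;> simp <;> constructor <;> linarith

theorem mod_of (b1 : B1Stmt) (l0 : L0Facts) {F : ℕ × ℝ → En 2 → ℝ} {T : ℕ × ℝ → Pt → ℝ} {m : ℝ}
    (hF : Rg F) (C : ℕ → ℝ) (h : ∀ᶠ i in lN, ContDiff ℝ ∞ (T i) ∧ ∀ k a,
      (∀ ℓ ∈ Nb 0, WB 1 k a (F i) ℓ) → Sym m k (T i) (C k * a)) : Mod lN ΛN m T := by
  refine ⟨?_, fun k => ⟨h.mono fun i hi => hi.1, ?_⟩⟩
  · filter_upwards [h, hF.1] with i h1 h2
    refine ⟨fun y _ => h1.1.contDiffAt, fun k => ?_⟩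
    obtain ⟨A, hA⟩ := (b1 2).compact (compact_Nb 0) h2 k
    exact ⟨_, h1.2 k A hA⟩
  · obtain ⟨p, hp⟩ := hF.2 k
    obtain ⟨q, hq⟩ := l0.absorb (C k) p
    refine ⟨q, ?_⟩
    filter_upwards [h, hp] with i h1 h2
    exact l0.mono (h1.2 k _ h2) subset_rfl le_rfl le_rfl (hq _ (two_le i))

theorem modY (b1 : B1Stmt) (l0 : L0Facts) {c₀ : ℝ} (hc : 0 < c₀) {F : ℕ × ℝ → En 2 → ℝ}
    (hF : Rg F) : Mod lN ΛN 0 fun i y => F i (lY (i.2 * c₀) y) := by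
  choose C _ h using compY b1 l0
  refine mod_of b1 l0 hF C ?_
  filter_upwards [hF.1, ev_nu hc] with i h1 h2
  refine ⟨cd_compY h1 h2.1.le, fun k a ha y _ => ?_⟩
  rw [l0.wt_zero, mul_one]
  exact h k _ h2.1 h2.2.1 _ _ y (h1 _ (lY_mem h2.1.le y)) (ha _ (lY_mem h2.1.le y))

theorem modC (b1 : B1Stmt) (l0 : L0Facts) {F : ℕ × ℝ → En 2 → ℝ} (hF : Rg F) :
    Mod lN ΛN 0 fun i y => Real.smoothTransition (nsq y - 1) * F i (lI y) := by
  choose C h using compC b1 l0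
  refine mod_of b1 l0 hF C ?_
  filter_upwards [hF.1] with i h1
  exact ⟨cd_compC h1, fun k a ha => h k _ a h1 ha⟩

theorem modT (b1 : B1Stmt) (l0 : L0Facts) {c₀ : ℝ} (hc : 0 < c₀) (a : ℝ) :
    Mod lN ΛN (-2 * a) fun i y => τP (lY (i.2 * c₀) y) ^ a := by
  choose C hC h using tau_bd b1 l0 a
  refine ⟨?_, fun k => ⟨(ev_nu hc).mono fun i hi => cd_tau l0 hi.1.le a, ?_⟩⟩
  · filter_upwards [ev_nu hc] with i hi
    exact ⟨fun y _ => (cd_tau l0 hi.1.le a).contDiffAt, fun k => ⟨_, h k _ hi.1 hi.2.1⟩⟩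
  · obtain ⟨q, hq⟩ := l0.absorb (C k) (2 * ⌈a⌉₊)
    refine ⟨q, ?_⟩
    filter_upwards [ev_nu hc] with i hi
    refine l0.mono (h k _ hi.1 hi.2.1) subset_rfl le_rfl le_rfl
      (le_trans ?_ (hq _ (two_le i)))
    rw [pow_mul]
    exact mul_le_mul_of_nonneg_left (pow_le_pow_left₀ (inv_pos.2 hi.1).le hi.2.2 _) (hC k)

theorem mod_congr {m : ℝ} {F F' : ℕ × ℝ → Pt → ℝ} (h : Mod lN ΛN m F)
    (e : ∀ᶠ i in lN, F i = F' i) : Mod lN ΛN m F' := by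
  refine ⟨?_, fun k => ⟨?_, ?_⟩⟩
  · filter_upwards [h.1, e] with i h1 h2 using h2 ▸ h1
  · filter_upwards [(h.2 k).1, e] with i h1 h2 using h2 ▸ h1
  · obtain ⟨p, hp⟩ := (h.2 k).2
    refine ⟨p, ?_⟩
    filter_upwards [hp, e] with i h1 h2 using h2 ▸ h1

theorem modR (b1 : B1Stmt) (l0 : L0Facts) (m0 : M0Stmt) {c₀ : ℝ} (hc : 0 < c₀)
    {F : ℕ × ℝ → En 2 → ℝ} (hF : Rg F) :
    Mod lN ΛN (-2) fun i => rad fun y => F i (lY (i.2 * c₀) y) := by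
  have G := (m0.1 _ lN ΛN two_le).grd_mod
  have hT : Mod lN ΛN (-2) fun i y => τP (lY (i.2 * c₀) y) := by
    simpa using modT b1 l0 hc 1
  have h : ∀ j : Fin 2, Mod lN ΛN (-2) ((fun i y => pdn j (F i) (lY (i.2 * c₀) y)) *
      ((fun i y => lY (i.2 * c₀) y j) * (2 : ℝ) • fun i y => τP (lY (i.2 * c₀) y))) := by
    intro j
    have := G.mul (d := 0) (j := 0) (modY b1 l0 hc (hF.der j))
      (G.mul (d := 0) (j := 0) (modY b1 l0 hc (rg_coord b1 j)) (G.smul (d := 0) (j := 0) 2 hT))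
    simpa only [zero_add] using this
  refine mod_congr (G.add (d := 0) (j := 0) (h 0) (h 1)) ?_
  filter_upwards [hF.1, ev_nu hc] with i h1 h2
  funext y
  rw [rad_compY b1 h1 h2.1.le]
  simp only [Pi.add_apply, Pi.mul_apply, Pi.smul_apply, smul_eq_mul]
  ring

theorem pb_const (b1 : B1Stmt) {f : En 2 → ℝ} {ρ : ℝ} (hρ : 0 < ρ)
    (hf : ∀ ℓ ∈ Nb ρ, ContDiffAt ℝ ∞ f ℓ) : PB lz 1 1 fun _ => f := by
  have he : ∀ᶠ ε in 𝓝[>] (0 : ℝ), Dz ε ⊆ Nb ρ := by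
    filter_upwards [ev_small 1, ev_small ρ⁻¹] with ε h1 h2
    have h3 : ε ≤ 1 := (one_le_inv₀ h1.1).1 h1.2
    have h4 : ε ≤ ρ := (inv_le_inv₀ hρ h1.1).1 h2.2
    exact Dz_sub_Nb (by nlinarith [h1.1])
  refine ⟨?_, fun k => ?_⟩
  · change ∀ᶠ z in fam (𝓝[>] (0 : ℝ)) Dz, ContDiffAt ℝ ∞ f z.2
    refine ev_fam.2 ?_
    filter_upwards [he] with ε h ℓ hℓ using hf ℓ (h hℓ)
  · obtain ⟨C, hC⟩ := (b1 2).compact (compact_Nb ρ) hf k
    refine ⟨C, ev_fam.2 ?_⟩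
    filter_upwards [he] with ε h ℓ hℓ
    simpa using hC ℓ (h hℓ)

end Ca1

open Ca1 in
theorem ca1 (b1 : B1Stmt) (_b2 : B2Stmt) (_pi1 : PI1Stmt) (l0 : L0Facts) (m0 : M0Stmt) :
    Ca1Stmt := by
  refine fun c₀ hc => ⟨fun F hF => ?_, modT b1 l0 hc, fun f ρ hρ hf => pb_const b1 hρ hf⟩
  have hR := rg_of_reg b1 hF
  refine ⟨modY b1 l0 hc hR, modR b1 l0 m0 hc hR, modC b1 l0 hR, ?_⟩
  filter_upwards [hR.1, ev_nu hc] with i h1 h2
  exact ⟨SK.is fun k => sk_compI b1 l0 h1 k, SK.is fun k => sk_diff b1 l0 h2.1 h2.2.1 k h1⟩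

end Pool.Agent.Lib.MP_df9110_gt
end

-- part Pool.Agent.Lib.MP_df9110_gt.CtC
section

/-! The metrics on `ℝ⁴` are locally pull-backs of block metrics. -/

set_option linter.unusedSimpArgs false

namespace Pool.Agent.Lib.MP_df9110_gt

namespace CtA

open Filter Topology Cov
open scoped ContDiff

theorem pd_sY (a : Fin 4) (j : Fin 2) (x : Pt) :
    pdn a (fun x => sY x j) x = if bl a = j then 2 * x a else 0 := by
  have hc := fun i : Fin 4 => hasFDerivAt_apply (𝕜 := ℝ) i x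
  fin_cases j
  · have := (((hc 0).pow 2).add ((hc 1).pow 2)).fderiv
    refine (congrFun (congrArg _ this) _).trans ?_
    fin_cases a <;> simp [bl]
  · have := (((hc 2).pow 2).add ((hc 3).pow 2)).fderiv
    refine (congrFun (congrArg _ this) _).trans ?_
    fin_cases a <;> simp [bl]

theorem pd_den (ν : ℝ) (a : Fin 4) (x : Pt) :
    pdn a (fun x => 1 + ν * nsq x) x = 2 * ν * x a := by
  have hc := fun i : Fin 4 => hasFDerivAt_apply (𝕜 := ℝ) i x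
  have := (((((((hc 0).pow 2).add ((hc 1).pow 2)).add ((hc 2).pow 2)).add
    ((hc 3).pow 2)).const_mul ν).const_add 1).fderiv
  simp only [nsq, Fin.sum_univ_four]
  refine (congrFun (congrArg _ this) _).trans ?_
  fin_cases a <;> simp <;> ring

theorem pd_lY {ν : ℝ} (hν : 0 ≤ ν) (a : Fin 4) (j : Fin 2) (x : Pt) :
    pdn a (fun x => lY ν x j) x =
      2 * ν * x a * τP (lY ν x) * ((if bl a = j then 1 else 0) - lY ν x j) := by
  have e : (fun x => lY ν x j) * (fun x => 1 + ν * nsq x) = ν • fun x => sY x j := by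
    funext z
    have := Ca1.den_pos hν z
    simp only [lY, Pi.mul_apply, Pi.smul_apply, smul_eq_mul]
    field_simp
  have h := pdn_mul ((Ca1.cd_lYj hν j).differentiable (by simp) x)
    ((contDiff_const.add (contDiff_const.mul Ca1.cd_nsq)).differentiable (by simp) x :
      DifferentiableAt ℝ (fun x => 1 + ν * nsq x) x) a
  rw [e, pdn_smul ((Ca1.cd_sY j).differentiable (by simp) x), pd_sY, pd_den] at h
  have h1 : τP (lY ν x) * (1 + ν * nsq x) = 1 := by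
    rw [Ca1.tau_lY hν]; exact inv_mul_cancel₀ (Ca1.den_pos hν x).ne'
  split_ifs at h ⊢
  · linear_combination -τP (lY ν x) * h - pdn a (fun x => lY ν x j) x * h1
  · linear_combination -τP (lY ν x) * h - pdn a (fun x => lY ν x j) x * h1

theorem pd_comp (b1 : B1Stmt) {ν : ℝ} (hν : 0 ≤ ν) {f : En 2 → ℝ} {x : Pt}
    (hf : ContDiffAt ℝ ∞ f (lY ν x)) (a : Fin 4) :
    pdn a (fun x => f (lY ν x)) x = 2 * ν * x a * τP (lY ν x) * δP (bl a) f (lY ν x) := by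
  refine ((b1 4).chain ((Ca1.cd_lY hν).differentiable (by simp) x)
    (hf.differentiableAt (by simp)) a).trans ?_
  simp only [Fin.sum_univ_two, pd_lY hν, δP, EP]
  fin_cases a <;> simp [bl] <;> ring

def rot (u : Fin 2) (i : Fin 4) (x : Pt) : ℝ := ![![-x 1, x 0, 0, 0], ![0, 0, -x 3, x 2]] u i

/-- The forms `dθ₀`, `dθ₁`. -/
noncomputable def th (u : Fin 2) (i : Fin 4) (x : Pt) : ℝ := rot u i x / sY x u

theorem cd_rot (u : Fin 2) (i : Fin 4) : ContDiff ℝ ∞ (rot u i) := by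
  unfold rot
  fin_cases u <;> fin_cases i <;> simp <;> fun_prop

theorem pd_rot (u : Fin 2) (i a : Fin 4) (x : Pt) :
    pdn a (rot u i) x = rot u i (Pi.single a 1) := by
  have : IsLinearMap ℝ (rot u i) := by
    constructor <;> intros <;> fin_cases u <;> fin_cases i <;> simp [rot, add_comm]
  exact congrFun (congrArg _ (LinearMap.toContinuousLinearMap (this.mk' _)).fderiv) _

theorem sY_ne {x : Pt} (hx : x ∈ Dn) (u : Fin 2) : sY x u ≠ 0 := by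
  fin_cases u
  exacts [hx.1, hx.2]

theorem ev_Dn {y : Pt} (hy : y ∈ Dn) : ∀ᶠ x in 𝓝 y, x ∈ Dn :=
  ((Ca1.cd_sY 0).continuous.continuousAt.eventually_ne hy.1).and
    ((Ca1.cd_sY 1).continuous.continuousAt.eventually_ne hy.2)

theorem cd_th {x : Pt} (hx : x ∈ Dn) (u : Fin 2) (i : Fin 4) : ContDiffAt ℝ ∞ (th u i) x :=
  (cd_rot u i).contDiffAt.div (Ca1.cd_sY u).contDiffAt (sY_ne hx u)

theorem pd_th {x : Pt} (hx : x ∈ Dn) (u : Fin 2) (i a : Fin 4) : pdn a (th u i) x =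
    (rot u i (Pi.single a 1) - th u i x * if bl a = u then 2 * x a else 0) / sY x u := by
  have e : (th u i * fun x => sY x u) =ᶠ[𝓝 x] rot u i :=
    (ev_Dn hx).mono fun z hz => div_mul_cancel₀ _ (sY_ne hz u)
  have h := pdn_mul ((cd_th hx u i).differentiableAt (by simp))
    ((Ca1.cd_sY u).differentiable (by simp) x) a
  rw [(pdn_congr e a).self_of_nhds, pd_rot, pd_sY] at h
  rw [h, eq_div_iff (sY_ne hx u)]
  ring

theorem th_closed {x : Pt} (hx : x ∈ Dn) (u : Fin 2) (i j : Fin 4) :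
    pdn i (th u j) x = pdn j (th u i) x := by
  rw [pd_th hx, pd_th hx]
  obtain ⟨h0, h1⟩ := hx
  congr 1
  fin_cases u <;> fin_cases i <;> fin_cases j <;> simp [th, rot, bl, sY] <;> field_simp <;> ring

noncomputable def JZ (ν : ℝ) (Φ : En 2 → En 2) (w : Fin 2) : Fin 4 → Fin 4 → Pt → ℝ :=
  ![fun i => pdn i fun x => Φ (lY ν x) 0, fun i => pdn i fun x => Φ (lY ν x) 1, th w, th (w + 1)]

theorem sum_w (w : Fin 2) (f : Fin 2 → ℝ) : f w + f (w + 1) = f 0 + f 1 := by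
  fin_cases w
  exacts [rfl, add_comm _ _]

theorem lY_eq {ν : ℝ} (hν : 0 ≤ ν) (x : Pt) (u : Fin 2) :
    lY ν x u = ν * sY x u * τP (lY ν x) := by
  rw [Ca1.tau_lY hν, lY, div_eq_mul_inv]

theorem tau_ne {ν : ℝ} (hν : 0 ≤ ν) (x : Pt) : τP (lY ν x) ≠ 0 := by
  rw [Ca1.tau_lY hν]; exact inv_ne_zero (Ca1.den_pos hν x).ne'

theorem diag_eq {ν τ : ℝ} (hν : ν ≠ 0) (hτ : τ ≠ 0) {x : Pt} (hx : x ∈ Dn) (p ℓ : Fin 2 → ℝ)
    (hl : ∀ u, ℓ u = ν * sY x u * τ) (i j : Fin 4) : (if i = j then p (bl i) else 0) =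
      4 * τ * (x i * x j) * (if bl i = bl j then ν * p (bl i) / (4 * ℓ (bl i)) else 0) +
      (p 0 * ℓ 0 / (ν * τ) * (th 0 i x * th 0 j x) +
        p 1 * ℓ 1 / (ν * τ) * (th 1 i x * th 1 j x)) := by
  obtain ⟨h0, h1⟩ := hx
  simp only [hl]
  fin_cases i <;> fin_cases j <;> simp [th, rot, bl, sY] <;> field_simp <;> ring

section

variable (b1 : B1Stmt) {ν : ℝ} (hν : 0 < ν) {p q v} {B : Blk (En 2 → ℝ)} {Φ : En 2 → En 2}
  {w : Fin 2} {x : Pt} (hx : x ∈ Dn) (hΦ : ∀ a, ContDiffAt ℝ ∞ (Φ · a) (lY ν x))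
include b1 hν hx hΦ

theorem g_eq (R : Rel ν p q v B Φ w (lY ν x)) (i j : Fin 4) : gZ ν p q x i j =
    gPull2 (fun a i => JZ ν Φ w a i x) (B.map fun f => f (Φ (lY ν x))).g i j := by
  have h0 := pd_comp b1 hν.le (hΦ 0)
  have h1 := pd_comp b1 hν.le (hΦ 1)
  have h2 := sum_w w fun u => p u (lY ν x) * lY ν x u / (ν * τP (lY ν x)) * (th u i x * th u j x)
  rw [← R.hF₁, ← R.hF₂] at h2
  rw [gZ, Matrix.of_apply, diag_eq hν.ne' (tau_ne hν.le x) hx (fun u => p u (lY ν x)) _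
    (lY_eq hν.le x), ← h2]
  simp [gPull2, Fin.sum_univ_four, JZ, Blk.g, h0, h1, -mul_ite]
  linear_combination 4 * τP (lY ν x) * (x i * x j) * R.hq (bl i) (bl j)

omit hx in
theorem V_eq (R : Rel ν p q v B Φ w (lY ν x)) (a : Fin 4) :
    ∑ i, JZ ν Φ w a i x * Vf (UZ ν v) i x = B.V a (Φ (lY ν x)) := by
  have h0 := pd_comp b1 hν.le (hΦ 0)
  have h1 := pd_comp b1 hν.le (hΦ 1)
  have l0 := lY_eq hν.le x 0
  have l1 := lY_eq hν.le x 1
  have e : ∀ u, ∑ i, th u i x * Vf (UZ ν v) i x = 0 := fun u => by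
    fin_cases u <;> simp [Fin.sum_univ_four, th, rot, Vf, UZ, bl] <;> ring
  fin_cases a
  · refine Eq.trans ?_ R.hV₀
    simp [Fin.sum_univ_four, JZ, h0, Vf, UZ, bl, sY] at l0 l1 ⊢
    linear_combination -(-1 + τP (lY ν x) * v 0 (lY ν x)) * δP 0 (Φ · 0) (lY ν x) * l0 -
      (-1 + τP (lY ν x) * v 1 (lY ν x)) * δP 1 (Φ · 0) (lY ν x) * l1
  · refine Eq.trans ?_ R.hV₁
    simp [Fin.sum_univ_four, JZ, h1, Vf, UZ, bl, sY] at l0 l1 ⊢
    linear_combination -(-1 + τP (lY ν x) * v 0 (lY ν x)) * δP 0 (Φ · 1) (lY ν x) * l0 -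
      (-1 + τP (lY ν x) * v 1 (lY ν x)) * δP 1 (Φ · 1) (lY ν x) * l1
  · exact e w
  · exact e (w + 1)

theorem det_JZ : (Matrix.of fun a i => JZ ν Φ w a i x).det ^ 2 = 16 * ν ^ 4 * τP (lY ν x) ^ 6 *
    (pdn 0 (Φ · 0) (lY ν x) * pdn 1 (Φ · 1) (lY ν x) -
      pdn 1 (Φ · 0) (lY ν x) * pdn 0 (Φ · 1) (lY ν x)) ^ 2 := by
  have h0 := pd_comp b1 hν.le (hΦ 0)
  have h1 := pd_comp b1 hν.le (hΦ 1)
  have e : δP 0 (Φ · 0) (lY ν x) * δP 1 (Φ · 1) (lY ν x) -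
      δP 1 (Φ · 0) (lY ν x) * δP 0 (Φ · 1) (lY ν x) = τP (lY ν x) *
      (pdn 0 (Φ · 0) (lY ν x) * pdn 1 (Φ · 1) (lY ν x) -
        pdn 1 (Φ · 0) (lY ν x) * pdn 0 (Φ · 1) (lY ν x)) := by
    simp only [δP, EP, τP]; ring
  have e' : (Matrix.of fun a i => JZ ν Φ w a i x).det ^ 2 = (4 * ν ^ 2 * τP (lY ν x) ^ 2 *
      (δP 0 (Φ · 0) (lY ν x) * δP 1 (Φ · 1) (lY ν x) -
        δP 1 (Φ · 0) (lY ν x) * δP 0 (Φ · 1) (lY ν x))) ^ 2 := by
    obtain ⟨s0, s1⟩ := hx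
    fin_cases w <;>
      simp [Matrix.det_succ_row_zero, Fin.sum_univ_succ, Fin.succAbove, JZ, h0, h1, th, rot, bl,
        sY] <;> field_simp <;> ring
  rw [e', e]; ring

end

end CtA

open CtA Filter Topology in
theorem ct1' (b1 : B1Stmt) (t1 : T1Stmt) (t6 : T6Stmt) (t7 : T7Stmt) : Ct1Stmt := by
  intro ν p q v B Φ w y hν hy _ hR hJ hB ha hC h₁ h₂
  have hc := (Ca1.cd_lY hν.le).continuous.continuousAt.eventually hR
  have h0 := hc.self_of_nhds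
  have hd := det_JZ b1 hν (w := w) hy h0.2
  refine ⟨nat b1 t1 t6 t7 (J := JZ ν Φ w) ?_ (fun h => ?_) hB ha hC h₁ h₂, ?_⟩
  · filter_upwards [hc, ev_Dn hy] with x hx hx'
    have s := fun a => (hx.2 a).comp x (Ca1.cd_lY hν.le).contDiffAt
    refine ⟨s, fun a i => ?_, fun _ => rfl, fun _ => rfl, fun a i j => ?_,
      g_eq b1 hν hx' hx.2 hx.1, V_eq b1 hν hx.2 hx.1⟩
    · fin_cases a
      exacts [contDiffAt_pdn (s 0) i, contDiffAt_pdn (s 1) i, cd_th hx' _ i, cd_th hx' _ i]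
    · fin_cases a
      exacts [pdn_comm (s 0) i j, pdn_comm (s 1) i j, th_closed hx' _ i j, th_closed hx' _ i j]
  · rw [h] at hd
    have := tau_ne hν.le y
    exact absurd hd.symm (by simp [hν.ne', this, hJ])
  · have ok := hB.self_of_nhds.2
    have e : gZ ν p q y = Matrix.of (gPull2 (fun a i => JZ ν Φ w a i y)
      (B.map fun f => f (Φ (lY ν y))).g) := Matrix.ext (g_eq b1 hν hy h0.2 h0.1)
    rw [e, det_pull2, det_g, hd]
    have e1 := ok.ha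
    have e2 := ok.hC
    simp only [Blk.map] at e1 e2 ⊢
    generalize (16 : ℝ) * _ * _ * _ = X
    linear_combination X * B.F₁ (Φ (lY ν y)) * B.F₂ (Φ (lY ν y)) *
      (B.C (Φ (lY ν y)) * B.Ci (Φ (lY ν y)) * e1 + e2)

end Pool.Agent.Lib.MP_df9110_gt
end
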