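import Pool.Agent.Lib.MP_df9110_gt.NIter

-- part Pool.Agent.Lib.MP_df9110_gt.Cid1
section

/-! The basic identities and bounds for the layer built from a bounded state. -/

set_option linter.unusedVariables false
set_option linter.unusedSectionVars false

namespace Pool.Agent.Lib.MP_df9110_gt

open Filter Topology Set
open scoped ContDiff

namespace Cid1

section Alg

variable {R : Type} [CommRing R] [Algebra ℝ R] {D : Fin 2 → R → R} {E : R → R}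
  (hD : IsDer D) (hE : IsExp D E)

include hE in
theorem E_neg (a : R) : E a * E (-a) = 1 := by rw [← hE.add, add_neg_cancel, hE.zero]

include hE in
theorem E_two (a : R) : E (2 * a) = E a ^ 2 := by rw [two_mul, hE.add, pow_two]

variable {G : Lay R} {c : R} (hG : G.Ok D E) (hs : G.s0 = G.ε * c) (hyp : G.yp = (2 + c) * G.y)
  (het : c * G.et = (2 + c) * (1 - G.y))

include hE hG in
theorem q_inv : G.q E * E (-G.lq) = 1 := by rw [← hG.lq, E_neg hE]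

include hE hG in
theorem eh_inv : G.eh E * E (-G.leh) = 1 := by rw [← hG.leh, E_neg hE]

include hE hG hs het in
theorem al_eq : c * G.eh E = (2 + c) * G.q E * G.al E := by
  have h1 := q_inv hE hG
  simp only [Lay.eh, Lay.al, Lay.q, hs] at h1 ⊢
  linear_combination het + (2 + c) * G.y * h1

include hE hG hs het in
theorem al_eq' : (2 + c) * G.al E * E (-G.leh) = c * E (-G.lq) := by
  have h1 := q_inv hE hG
  have h2 := eh_inv hE hG
  have h3 := al_eq hE hG hs het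
  linear_combination (-(E (-G.lq) * E (-G.leh))) * h3 + c * E (-G.lq) * h2 -
    (2 + c) * G.al E * E (-G.leh) * h1

include hD hE hG hs hyp het in
theorem lal_eq : G.lal D E * G.al E = D 1 (G.al E) := by
  have h1 := q_inv hE hG
  have h3 := al_eq' hE hG hs het
  have h4 : D 1 (G.q E) = G.s0 * D 1 (G.chi * G.psi E) := by
    have e : G.q E = 1 + G.s0 * (G.chi * G.psi E) := by rw [Lay.q]; ring
    rw [e, hD.add, hD.one, hD.mul 1 G.s0, hG.s0₁]; ring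
  have h5 : G.q E * D 1 G.lq = D 1 (G.q E) := by rw [← hG.lq, hE.der]
  have h6 : D 1 (G.al E) = G.y * E (-G.lq) * D 1 G.lq := by
    rw [Lay.al, hD.sub, hD.one, hD.mul, hE.der, hD.neg, hG.y₁]; ring
  have h7 : D 1 G.lq = G.ε * c * D 1 (G.chi * G.psi E) * E (-G.lq) := by
    rw [← hs]; linear_combination E (-G.lq) * (h5 + h4) - D 1 G.lq * h1
  rw [h6, h7, Lay.lal, hyp]
  linear_combination G.ε * G.y * D 1 (G.chi * G.psi E) * E (-G.lq) * h3

include hE hG hs hyp het in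
theorem Xe_eq (hxi : c * G.xi1 = G.ε * G.Xi D E) : G.Xe D E * G.al E = G.ε * G.Xi D E := by
  have h3 := al_eq' hE hG hs het
  have h4 : G.al E = 1 - G.y * E (-G.lq) := rfl
  rw [Lay.Xe, hyp]
  linear_combination G.xi1 * G.y * h3 + G.y * E (-G.lq) * hxi + G.ε * G.Xi D E * h4

/-- The remainder in `Ao = P0² (4 μ² + τ₂²) + remainder`. -/
noncomputable def rem (D : Fin 2 → R → R) (E : R → R) (G : Lay R) : R :=
  4 * G.μ E ^ 2 * ((E G.la - 1) * G.Pp D E ^ 2 + G.bp * (G.P1 D E * (G.P0 E + G.Pp D E))) +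
    (E G.lc - 1) * G.P1 D E ^ 2

theorem Ao_eq (G : Lay R) :
    G.Ao D E = G.P0 E ^ 2 * (4 * G.μ E ^ 2 + G.τ₂ D E ^ 2) + rem D E G := by
  simp only [Lay.Ao, rem, Lay.Pp, Lay.P1]; ring

theorem P0_sq (G : Lay R) : G.P0 E ^ 2 =
    2 * E (-(2 * G.L)) * E (2 * G.lq) * (2 * E (-(2 * G.L)) * E (2 * G.lq)) := by
  rw [Lay.P0]; ring

/-- Evaluation at the wall. -/
structure Wall (D : Fin 2 → R → R) (E : R → R) (π : R →ₐ[ℝ] R) (G : Lay R) (lg : R) : Prop where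
  d1 : ∀ a, π (D 1 a) = D 1 (π a)
  ex : ∀ a, π (E a) = E (π a)
  ε : π G.ε = G.ε
  s0 : π G.s0 = 0
  y : π G.y = 1
  yp : π G.yp = 2
  et : π G.et = 4
  d : π G.d = G.d
  chi : π G.chi = G.chi
  L : π G.L = G.L
  lq : π G.lq = 0
  flg : π lg = lg
  elg : E lg = 1 + G.ε * G.chi * E (2 * G.L)
  rho : G.rho = π (G.rho0 lg)
  rho' : π G.rho = G.rho

variable {π : R →ₐ[ℝ] R} {lg : R} (w : Wall D E π G lg)

include w in
theorem w_psi : π (G.psi E) = G.psi E := by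
  simp only [Lay.psi, map_mul, map_ofNat, w.ex, w.L]

include w hG in
theorem w_eh : E (π G.leh) = 4 * E lg := by
  rw [← w.ex, hG.leh, w.elg]
  simp only [Lay.eh, map_add, map_mul, map_ofNat, w_psi w, w.et, w.s0, w.ε, w.chi]
  rw [Lay.psi]; ring

include w in
theorem w_lA : π (G.lA + 2 * G.u₁) = -(2 * lg) := by
  have h1 := w.rho
  simp only [Lay.rho0, map_add, map_smul, w.flg] at h1
  simp only [Lay.lA, Lay.u₁, map_add, map_sub, map_mul, map_ofNat, w.rho', w.y]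
  linear_combination (norm := algebra) (-2) * h1

include hD hE hG w in
theorem w_Xi : π (G.Xi D E) = 0 := by
  have h1 := w_lA w
  have h2 : (1 / 2 : ℝ) • D 1 G.lA + D 1 G.u₁ = (1 / 2 : ℝ) • D 1 (G.lA + 2 * G.u₁) := by
    rw [hD.add, hD.mul, hD.ofNat]; algebra
  have h3 : π (G.Xi D E) = π (G.lal D E) - D 1 lg := by
    rw [Lay.Xi, add_assoc, h2, map_add, map_smul, w.d1, h1, hD.neg, hD.mul, hD.ofNat]; algebra
  have h4 : E lg * D 1 lg = G.ε * D 1 (G.chi * E (2 * G.L)) := by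
    rw [← hE.der, w.elg, hD.add, hD.one, mul_assoc, hD.mul 1 G.ε, hG.dε]; ring
  have h5 : D 1 (G.chi * G.psi E) = 2 * D 1 (G.chi * E (2 * G.L)) := by
    have e : G.chi * G.psi E = 2 * (G.chi * E (2 * G.L)) := by rw [Lay.psi]; ring
    rw [e, hD.mul 1 2, hD.ofNat]; ring
  have h6 := E_neg hE (π G.leh)
  rw [w_eh hG w] at h6
  have h7 : π (D 1 (G.chi * G.psi E)) = 2 * D 1 (G.chi * E (2 * G.L)) := by
    rw [w.d1, map_mul, w.chi, w_psi w, h5]
  rw [h3]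
  simp only [Lay.lal, map_mul, map_neg, h7, w.ex, w.ε, w.yp, w.lq, neg_zero, hE.zero]
  linear_combination (-(4 * E (-π G.leh))) * h4 + D 1 lg * h6

include hE hG w in
theorem w_wall : π (E (2 * (G.leh - G.lq) + G.lA + 2 * G.u₁)) = 16 := by
  rw [w.ex, add_assoc, map_add, w_lA w]
  simp only [map_mul, map_sub, map_ofNat, w.lq, sub_zero]
  rw [hE.add, E_two hE, w_eh hG w, ← mul_neg, E_two hE]
  linear_combination 16 * (E lg * E (-lg) + 1) * E_neg hE lg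

include hD hE w in
theorem w_main (eik : G.d ^ 2 + (1 / 4 : ℝ) • D 1 G.d ^ 2 = E (2 * G.L)) :
    π (G.P0 E ^ 2 * (4 * G.μ E ^ 2 + G.τ₂ D E ^ 2)) = E (-(2 * G.L)) := by
  have h1 : π (G.μ E) = (1 / 4 : ℝ) • G.d := by
    simp only [Lay.μ, map_smul, map_sub, map_mul, w.s0, w.d, zero_mul, sub_zero]
  have h2 : π (G.P0 E) = -(2 * E (-(2 * G.L))) := by
    simp only [Lay.P0, map_neg, map_mul, map_ofNat, w.ex, w.L, w.lq, mul_zero, hE.zero, mul_one]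
  have h3 := E_neg hE (2 * G.L)
  simp only [Lay.τ₂, map_mul, map_add, map_pow, map_ofNat, w.d1, h1, h2, hD.smul]
  linear_combination (norm := algebra) E (-(2 * G.L)) ^ 2 * eik + E (-(2 * G.L)) * h3

end Alg

section HV

variable {l : Filter Z2}

/-- The germ `φ` is represented by `f`. -/
def HV (φ : SG l) (f : ℝ → En 2 → ℝ) : Prop := ∃ h : f ∈ SmF l, φ = mkG l ⟨f, h⟩

theorem HV.gm {f : ℝ → En 2 → ℝ} (h : f ∈ SmF l) : HV (gm l f) f := ⟨h, gm_eq h⟩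

theorem HV.ex (φ : SG l) : ∃ f, HV φ f := ⟨(rep φ).1, (rep φ).2, (mkG_rep φ).symm⟩

variable {φ ψ : SG l} {f g : ℝ → En 2 → ℝ}

theorem HV.add (h : HV φ f) (h' : HV ψ g) : HV (φ + ψ) fun ε p => f ε p + g ε p := by
  obtain ⟨h, rfl⟩ := h
  obtain ⟨h', rfl⟩ := h'
  exact ⟨(SmF l).add_mem h h', (map_add _ _ _).symm⟩

theorem HV.sub (h : HV φ f) (h' : HV ψ g) : HV (φ - ψ) fun ε p => f ε p - g ε p := by
  obtain ⟨h, rfl⟩ := h
  obtain ⟨h', rfl⟩ := h'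
  exact ⟨(SmF l).sub_mem h h', (map_sub _ _ _).symm⟩

theorem HV.neg (h : HV φ f) : HV (-φ) fun ε p => -f ε p := by
  obtain ⟨h, rfl⟩ := h
  exact ⟨(SmF l).neg_mem h, (map_neg _ _).symm⟩

theorem HV.mul (h : HV φ f) (h' : HV ψ g) : HV (φ * ψ) fun ε p => f ε p * g ε p := by
  obtain ⟨h, rfl⟩ := h
  obtain ⟨h', rfl⟩ := h'
  exact ⟨(SmF l).mul_mem h h', (map_mul _ _ _).symm⟩

theorem HV.sq (h : HV φ f) : HV (φ ^ 2) fun ε p => f ε p ^ 2 := by
  obtain ⟨h, rfl⟩ := h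
  exact ⟨(SmF l).pow_mem h 2, (map_pow _ _ _).symm⟩

theorem HV.smul (c : ℝ) (h : HV φ f) : HV (c • φ) fun ε p => c * f ε p := by
  obtain ⟨h, rfl⟩ := h
  exact ⟨(SmF l).smul_mem h c, (map_smul _ _ _).symm⟩

theorem HV.one : HV (1 : SG l) fun _ _ => 1 := ⟨(SmF l).one_mem, (map_one _).symm⟩

theorem HV.two : HV (2 : SG l) fun _ _ => 2 := by
  have h := (HV.one (l := l)).add HV.one
  simpa only [one_add_one_eq_two] using h

theorem HV.four : HV (4 : SG l) fun _ _ => 4 := by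
  have h := (HV.two (l := l)).add HV.two
  norm_num at h
  exact h

theorem HV.exp (h : HV φ f) : HV (expG φ) fun ε p => Real.exp (f ε p) := by
  obtain ⟨h, rfl⟩ := h
  exact ⟨(sfE l ⟨f, h⟩).2, (mkG_sfE l _).symm⟩

theorem HV.der [OpF l] (h : HV φ f) (j : Fin 2) : HV (gD j φ) fun ε p => pdn j (f ε) p := by
  obtain ⟨h, rfl⟩ := h
  exact ⟨(sfD l j ⟨f, h⟩).2, (mkG_sfD j _).symm⟩

theorem HV.eq (h : HV φ f) (h' : HV ψ g) (e : ∀ᶠ z in l, f z.1 z.2 = g z.1 z.2) : φ = ψ := by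
  obtain ⟨h, rfl⟩ := h
  obtain ⟨h', rfl⟩ := h'
  exact mkG_eq.2 e

theorem HV.log (B : B2Facts l 1) (h : HV φ f) (hp : PosG φ) :
    HV (logG φ) fun ε p => Real.log (f ε p) := by
  obtain ⟨h, rfl⟩ := h
  obtain ⟨e, h2⟩ := B.log_mk _ hp
  rw [e]; exact HV.gm h2

theorem HV.pos (B : B2Facts l 1) (h : HV φ f) :
    PosG φ ↔ ∃ c : ℝ, 0 < c ∧ ∀ᶠ z in l, c ≤ f z.1 z.2 := by
  obtain ⟨h, rfl⟩ := h
  exact B.pos_iff _

theorem HV.pull {l' : Filter Z2} {Φ : ℝ → En 2 → En 2} (hΦ : IsPull l l' Φ) (h : HV φ f) :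
    HV (hΦ.hom φ) fun ε p => f ε (Φ ε p) := by
  obtain ⟨h, rfl⟩ := h
  exact ⟨hΦ.mem ⟨f, h⟩, hΦ.hom_mk _⟩

theorem HV.smooth (h : HV φ f) : ∀ᶠ z in l, ContDiffAt ℝ ∞ (f z.1) z.2 := h.1

theorem pdn_one {M : ℝ → ℝ → ℝ} {p : En 2}
    (h : ContDiffAt ℝ ∞ (fun q : En 2 => M (q 0) (q 1)) p) :
    pdn 1 (fun q : En 2 => M (q 0) (q 1)) p = deriv (M (p 0)) (p 1) := by
  have h1 : HasDerivAt (fun t : ℝ => (![p 0, t] : En 2)) (Pi.single 1 1) (p 1) := by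
    rw [hasDerivAt_pi]
    intro j
    fin_cases j
    · simpa using hasDerivAt_const (p 1) (p 0)
    · simpa using hasDerivAt_id' (p 1)
  have e : (![p 0, p 1] : En 2) = p := by
    funext j; fin_cases j <;> rfl
  have h2 : HasFDerivAt (fun q : En 2 => M (q 0) (q 1))
      (fderiv ℝ (fun q : En 2 => M (q 0) (q 1)) p) ((fun t : ℝ => (![p 0, t] : En 2)) (p 1)) := by
    simp only [e]
    exact (h.differentiableAt (by simp)).hasFDerivAt
  exact ((h2.comp_hasDerivAt (p 1) h1).deriv).symm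

end HV

section Dom

variable {P : Prof} (hP : P.Ok) {c : ℝ}

include hP in
theorem sub_dom (i : Fin 2) : Icc (P.lo i) (P.hi i) ⊆ Icc (P.xL - P.δ) (P.xR + P.δ) := by
  have h0 := hP.δ_pos
  obtain ⟨h1, h2, h3⟩ := hP.ord
  obtain ⟨a1, a2, a3, a4⟩ := hP.ordJ false
  obtain ⟨b1, b2, b3, b4⟩ := hP.ordJ true
  fin_cases i
  · exact Icc_subset_Icc le_rfl (show P.xJ true + P.δ ≤ _ by linarith)
  · exact Icc_subset_Icc (show _ ≤ P.xJ false - P.δ by linarith) le_rfl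

theorem ev_dom (hc : 0 < c) (i : Fin 2) : ∀ᶠ z in P.lL c i, 0 < z.1 ∧ -1 < z.2 0 ∧
    |z.1 * z.2 0| ≤ c ∧ z.2 1 ∈ Icc (P.lo i) (P.hi i) := by
  refine ev_fam.2 ?_
  filter_upwards [Ioo_mem_nhdsGT hc] with ε hε p hp
  refine ⟨hε.1, hp.1, abs_le.2 ⟨?_, hp.2.1.le⟩, Ioo_subset_Icc_self hp.2.2⟩
  have := hp.1
  have h1 := hε.1
  have h2 := hε.2
  nlinarith

end Dom

section Bld

variable {l : Filter Z2} [OpF l] {a b : ℝ} (b2 : B2Stmt) (A : AvgFacts l a b)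

include b2 A in
theorem lg_facts {chi L : SG l} (hχ : PG 1 1 chi) (hL : PG 1 1 L) :
    PosG (1 + εG l * chi * expG (2 * L)) ∧ PG 1 eW (lgG chi L) := by
  have h := wr_SG b2 l
  have B := b2 ℝ 2 l 1 fun _ => zero_le_one
  obtain ⟨e1, e2, e3, e4, e5, e6, -⟩ := A.eps
  have h1 : PG 1 eW (εG l * chi * expG (2 * L)) :=
    h.mul1' (h.mul1' e2 hχ) (h.E1 (h.mul11 (h.ofNat 2) hL))
  have p1 : PosG (1 : SG l) := by
    have := (h.E_bd (h.zero 1)).2
    rwa [h.E_zero] at this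
  have p2 := B.pos_add p1 h1 e5
  exact ⟨p2, h.Lg_sub e4 p2 (by rwa [add_sub_cancel_left])⟩

structure Res (G : Lay (SG l)) (w : Z2 → ℝ) : Prop where
  ok : G.Ok gD expG
  all : G.All (PG 1 1)
  pos_A : PosG (G.Ao gD expG)
  pos_lg : PosG (1 + εG _ * G.chi * expG (2 * G.L))
  al : cG _ * G.eh expG = (2 + cG _) * G.q expG * G.al expG
  xi : cG _ * G.xi1 = εG _ * G.Xi gD expG
  xi1 : PG 1 eW G.xi1
  lal : G.lal gD expG * G.al expG = gD 1 (G.al expG)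
  Xe : G.Xe gD expG * G.al expG = G.ε * G.Xi gD expG
  rho₀ : gD 0 G.rho = 0
  wall : ev0 (expG (2 * (G.leh - G.lq) + G.lA + 2 * G.u₁)) = 16
  rho : PG 1 w G.rho

omit [OpF l] in
theorem dW_le (Wt : WtFacts l) {κ : ℝ} (hκ : 0 ≤ κ) : WLe l (dW κ) 1 := by
  have e : dW 0 = 1 := by funext z; simp [dW]
  rw [← e]; exact Wt.d_le κ 0 hκ

include b2 A in
theorem bld_res (Wt : WtFacts l) {m : ℝ → ℝ} (hm : IsCut m) {d chi L la bp lc uw uo : SG l}
    {Z : Fin 5 → SG l} {v : ℝ → ℝ → ℝ} (hv : WLe l (xW v) 1) (hd : PG 1 1 d) (hχ : PG 1 1 chi)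
    (hL : PG 1 1 L) (d0 : gD 0 d = 0) (χ0 : gD 0 chi = 0) (L0 : gD 0 L = 0)
    (hla : PG 1 (eW * xW v) la) (hbp : PG 1 (eW * xW v) bp) (hlc : PG 1 (eW * xW v) lc)
    (huw : PG 1 (eW * xW v) (uw - (L - lgG chi L))) (huo : PG 1 1 uo) (hZ : ∀ j, PG 1 1 (Z j))
    (pq : PosG ((bld0 m d chi L la bp lc uw uo Z).q expG))
    (pA : PosG (4 * (bld1 (bld0 m d chi L la bp lc uw uo Z)).μ expG ^ 2 +
      (bld1 (bld0 m d chi L la bp lc uw uo Z)).τ₂ gD expG ^ 2))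
    (pe : PosG ((bld0 m d chi L la bp lc uw uo Z).eh expG))
    (eik : d ^ 2 + (1 / 4 : ℝ) • gD 1 d ^ 2 = expG (2 * L)) :
    Res (bld m d chi L la bp lc uw uo Z) (eW * xW v) := by
  have h := wr_SG b2 l
  have B := b2 ℝ 2 l 1 fun _ => zero_le_one
  have hD := h.der
  have hE := h.isExp
  obtain ⟨e1, e2, e3, e4, e5, e6, -⟩ := A.eps
  obtain ⟨c1, c2, c3⟩ := A.crd
  obtain ⟨y1, y2, y3⟩ := Wt.y m hm
  obtain ⟨t1, t2, t3, t4, t5⟩ := Wt.et m hm
  obtain ⟨plg, hlg⟩ := lg_facts b2 A hχ hL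
  have hlg1 := h.to_one e4 hlg
  have sw : WLe l (eW * xW v) 1 := h.sml_mul e4 hv
  have hev : ∀ φ : SG l, ev0 φ = A.pull0.hom φ := fun φ => pb_eq A.pull0 φ
  have evb : ∀ φ : SG l, PG 1 (eW * xW v) φ → PG 1 (eW * xW v) (A.pull0.hom φ) := fun φ hφ => by
    rw [← hev]; exact h.congr (A.ev_bd hφ) (funext fun z => rfl)
  have y1' : PG 1 1 (yG l m) := h.to_one (dW_le Wt zero_le_two) y1
  have cy : PG 1 1 (cG l * yG l m) :=
    h.sml (dW_le Wt zero_le_one) (Wt.cd 2 1 one_lt_two (w := 1) (by rwa [one_mul]))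
  have huw1 : PG 1 1 uw := by
    have := h.add (h.to_one sw huw) (h.sub hL hlg1)
    rwa [sub_add_cancel] at this
  have H0 : (bld0 m d chi L la bp lc uw uo Z).All (PG 1 1) :=
    ⟨h.to_one e4 e2, h.to_one Wt.h_one Wt.s0, y1',
      by
        show PG 1 1 ((2 + cG l) * yG l m)
        rw [add_mul]; exact h.add (h.mul11 (h.ofNat 2) y1') cy,
      t1, hd, hχ, hL, h.to_one sw hla, h.to_one sw hbp, h.to_one sw hlc, huw1, huo, hZ 0, hZ 1,
      hZ 2, hZ 3, hZ 4, h.zero 1, h.zero 1, h.zero 1, h.zero 1, h.zero 1⟩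
  have H1 : (bld1 (bld0 m d chi L la bp lc uw uo Z)).All (PG 1 1) :=
    ⟨H0.ε, H0.s0, H0.y, H0.yp, H0.et, H0.d, H0.chi, H0.L, H0.la, H0.bp, H0.lc, H0.uw, H0.uo,
      H0.lam, H0.gam, H0.nu, H0.w1, H0.w2, H0.rho, H0.xi1, h.Lg_bd pq (Lay.P_q h H0), H0.lAo,
      H0.leh⟩
  have hrem : PG 1 (eW * xW v) (rem gD expG (bld1 (bld0 m d chi L la bp lc uw uo Z))) :=
    h.add (h.mul1 (h.mul11 (h.ofNat 4) (h.pow1 (Lay.P_μ h H1)))
      (h.add (h.mul1' (h.E_sub sw hla).1 (h.pow1 (Lay.P_Pp h H1)))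
        (h.mul1' hbp (h.mul11 (Lay.P_P1 h H1) (h.add (Lay.P_P0 h H1) (Lay.P_Pp h H1))))))
      (h.mul1' (h.E_sub sw hlc).1 (h.pow1 (Lay.P_P1 h H1)))
  have p2 : PosG (2 : SG l) :=
    (HV.two.pos B).2 ⟨2, two_pos, Eventually.of_forall fun _ => le_rfl⟩
  have pP : PosG ((bld1 (bld0 m d chi L la bp lc uw uo Z)).P0 expG ^ 2) := by
    have p3 := h.pos_mul (h.pos_mul p2 (h.E_bd (h.neg (h.mul11 (h.ofNat 2) H1.L))).2)
      (h.E_bd (h.mul11 (h.ofNat 2) H1.lq)).2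
    rw [P0_sq]
    exact h.pos_mul p3 p3
  have pAo : PosG ((bld1 (bld0 m d chi L la bp lc uw uo Z)).Ao gD expG) := by
    rw [Ao_eq]
    exact B.pos_add (h.pos_mul pP pA) (h.sml hv hrem) e5
  have H2 : (bld2 (bld1 (bld0 m d chi L la bp lc uw uo Z))).All (PG 1 1) :=
    ⟨H0.ε, H0.s0, H0.y, H0.yp, H0.et, H0.d, H0.chi, H0.L, H0.la, H0.bp, H0.lc, H0.uw, H0.uo,
      H0.lam, H0.gam, H0.nu, H0.w1, H0.w2, H0.rho, H0.xi1, H1.lq, h.Lg_bd pAo (Lay.P_Ao h H1),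
      h.Lg_bd pe (Lay.P_eh h H1)⟩
  have H3 : (bld3 (bld2 (bld1 (bld0 m d chi L la bp lc uw uo Z)))).All (PG 1 1) :=
    ⟨H0.ε, H0.s0, H0.y, H0.yp, H0.et, H0.d, H0.chi, H0.L, H0.la, H0.bp, H0.lc, H0.uw, H0.uo,
      H0.lam, H0.gam, H0.nu, H0.w1, H0.w2, h.congr (A.ev_bd (Lay.P_rho0 h H2 hlg1)) rfl, H0.xi1,
      H1.lq, H2.lAo, H2.leh⟩
  have hxi : PG 1 eW (bld m d chi L la bp lc uw uo Z).xi1 :=
    h.mul1' e2 (h.congr (A.avg_bd (w := fun _ _ => 1)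
      (h.congr (h.pD 0 (Lay.P_Xi h H3)) rfl)) rfl)
  have H4 : (bld m d chi L la bp lc uw uo Z).All (PG 1 1) :=
    ⟨H0.ε, H0.s0, H0.y, H0.yp, H0.et, H0.d, H0.chi, H0.L, H0.la, H0.bp, H0.lc, H0.uw, H0.uo,
      H0.lam, H0.gam, H0.nu, H0.w1, H0.w2, H3.rho, h.to_one e4 hxi, H1.lq, H2.lAo, H2.leh⟩
  have ok : (bld m d chi L la bp lc uw uo Z).Ok gD expG :=
    ⟨e3, by
      show gD 0 (εG l * cG l) = εG l
      rw [hD.mul, e3, c2]; ring, by
      show gD 1 (εG l * cG l) = 0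
      rw [hD.mul, e3, c3]; ring, y2, d0, χ0, L0, h.E_Lg pq, h.E_Lg pAo, h.E_Lg pe⟩
  have fx : ∀ φ : SG l, gD 0 φ = 0 → A.pull0.hom φ = φ := fun φ hφ => by
    rw [← hev]; exact A.ev_fix φ hφ
  have πc : A.pull0.hom (cG l) = 0 := by rw [← hev]; exact A.ev_c
  have πy : A.pull0.hom (yG l m) = 1 := by
    rw [y3, map_mul, ← hev, ← hev, (Wt.m m hm).2.2, Wt.y1.2, mul_one]
  have πE : ∀ φ : SG l, A.pull0.hom (expG φ) = expG (A.pull0.hom φ) := (B.pull A.pull0).2.1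
  have πL := (B.pull A.pull0).2.2.1
  have elg : expG (lgG chi L) = 1 + εG l * chi * expG (2 * L) := h.E_Lg plg
  have lg0 : gD 0 (lgG chi L) = 0 := by
    have h1 : expG (lgG chi L) * gD 0 (lgG chi L) = 0 := by
      rw [← hE.der, elg]
      simp only [hD.add, hD.mul, hD.one, hD.ofNat, hE.der, e3, χ0, L0]; ring
    linear_combination expG (-lgG chi L) * h1 - gD 0 (lgG chi L) * h.E_neg (lgG chi L)
  have w : Wall gD expG A.pull0.hom (bld m d chi L la bp lc uw uo Z) (lgG chi L) :=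
    { d1 := fun φ => by rw [← hev, ← hev, A.ev_D1]
      ex := πE
      ε := fx _ (e3 0)
      s0 := by
        show A.pull0.hom (εG l * cG l) = 0
        rw [map_mul, πc, mul_zero]
      y := πy
      yp := by
        show A.pull0.hom ((2 + cG l) * yG l m) = 2
        rw [map_mul, map_add, πc, πy, map_ofNat]; ring
      et := by rw [← hev]; exact t5
      d := fx _ d0
      chi := fx _ χ0
      L := fx _ L0
      lq := by
        have e : A.pull0.hom ((bld0 m d chi L la bp lc uw uo Z).q expG) = expG (0 : SG l) := by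
          show A.pull0.hom (1 + chi * (εG l * cG l * (2 * expG (2 * L)))) = _
          simp only [map_add, map_mul, map_one, πc, h.E_zero]; ring
        have := (πL _ pq).2
        rw [e, h.Lg_E] at this
        exact this
      flg := fx _ lg0
      elg := elg
      rho := hev _
      rho' := fx _ (A.ev_D0 _) }
  have xi : cG l * (bld m d chi L la bp lc uw uo Z).xi1 =
      εG l * (bld m d chi L la bp lc uw uo Z).Xi gD expG := by
    have h1 := A.ftc ((bld m d chi L la bp lc uw uo Z).Xi gD expG)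
    rw [hev, w_Xi hD hE ok w] at h1
    have e : (bld m d chi L la bp lc uw uo Z).xi1 =
      εG l * avg (gD 0 ((bld m d chi L la bp lc uw uo Z).Xi gD expG)) := rfl
    rw [e]; linear_combination εG l * h1
  refine ⟨ok, H4, pAo, plg, al_eq hE ok rfl t4, xi, hxi, lal_eq hD hE ok rfl rfl t4,
    Xe_eq hE ok rfl rfl t4 xi, A.ev_D0 _, by rw [hev]; exact w_wall hE ok w, ?_⟩
  have pE := h.E_bd (h.neg (h.mul11 (h.ofNat 2) hL))
  have h1 : PG 1 (eW * xW v) (A.pull0.hom ((bld m d chi L la bp lc uw uo Z).Ao gD expG) -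
      expG (-(2 * L) : SG l)) := by
    rw [Ao_eq, map_add, w_main hD hE w eik]
    show PG 1 _ (expG (-(2 * L) : SG l) + _ - _)
    rw [add_sub_cancel_left]
    exact evb _ hrem
  have h2 := h.Lg_diff sw pE.2 (πL _ pAo).1
    (by rw [h.Lg_E]; exact h.neg (h.mul11 (h.ofNat 2) hL)) h1
  rw [h.Lg_E, ← (πL _ pAo).2] at h2
  have h3 := h.add (evb _ huw) (h.smul (1 / 2) h2)
  refine (congrArg (PG 1 (eW * xW v)) ?_).mp h3
  rw [w.rho]
  show _ = A.pull0.hom (lgG chi L + (1 / 2 : ℝ) •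
    logG ((bld1 (bld0 m d chi L la bp lc uw uo Z)).Ao gD expG) + uw)
  simp only [map_add, map_sub, map_smul, fx _ lg0, fx _ L0]
  algebra

end Bld

section Val

variable (b2 : B2Stmt) {P : Prof} {c : ℝ} (g : P.Geo c) (hP : P.Ok) {i : Fin 2}
  (A : AvgFacts (P.lL c i) (P.lo i) (P.hi i))

include hP in
theorem smχ {x : ℝ} (hx : x ∈ Icc (P.lo i) (P.hi i)) : ContDiffAt ℝ ∞ (P.χ i) x :=
  hP.sm_χ i x (sub_dom hP i hx)

include hP in
theorem smL {x : ℝ} (hx : x ∈ Icc (P.lo i) (P.hi i)) : ContDiffAt ℝ ∞ (P.L i) x :=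
  hP.sm_L i x (sub_dom hP i hx)

theorem hv_x {l : Filter Z2} {a b : ℝ} (A : AvgFacts l a b) {f : ℝ → ℝ}
    (hf : ∀ x ∈ Icc a b, ContDiffAt ℝ ∞ f x) : HV (xG l f) fun _ p => f (p 1) :=
  HV.gm (A.xfun f fun x hx => hf x (Ioo_subset_Icc_self hx)).1

theorem hv_ε {l : Filter Z2} {a b : ℝ} (A : AvgFacts l a b) : HV (εG l) fun ε _ => ε :=
  HV.gm A.eps.1

theorem hv_c {l : Filter Z2} {a b : ℝ} (A : AvgFacts l a b) : HV (cG l) fun _ p => p 0 :=
  HV.gm A.crd.1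

variable {G : Lay (SG (P.lL c i))} (hs : G.s0 = εG _ * cG _) (hd : G.d = xG _ (P.d i))
  (hχ : G.chi = xG _ (P.χ i)) (hL : G.L = xG _ (P.L i))

include hP A hL in
theorem hv_psi : HV (G.psi expG) fun _ p => 2 * Real.exp (2 * P.L i (p 1)) := by
  rw [Lay.psi, hL]
  exact HV.two.mul (HV.two.mul (hv_x A fun x hx => smL hP hx)).exp

include hP A hs hχ hL in
theorem hv_q : HV (G.q expG) fun ε p =>
    1 + P.χ i (p 1) * (ε * p 0 * (2 * Real.exp (2 * P.L i (p 1)))) := by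
  rw [Lay.q, hs, hχ]
  exact HV.one.add ((hv_x A fun x hx => smχ hP hx).mul
    (((hv_ε A).mul (hv_c A)).mul (hv_psi hP A hL)))

include g in
theorem q_half : ∀ᶠ z in P.lL c i,
    1 / 2 ≤ 1 + P.χ i (z.2 1) * (z.1 * z.2 0 * (2 * Real.exp (2 * P.L i (z.2 1)))) := by
  obtain ⟨a, -, ha⟩ := g.posA
  filter_upwards [ev_dom (P := P) g.pos i] with z hz
  have := (abs_le.1 (ha i _ _ hz.2.2.2 hz.2.2.1).2).1
  linarith

include b2 g hP A hs hχ hL in
theorem pos_q : PosG (G.q expG) :=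
  ((hv_q hP A hs hχ hL).pos (b2 ℝ 2 _ 1 fun _ => zero_le_one)).2 ⟨1 / 2, by norm_num, q_half g⟩

include b2 g hP A hs hd hχ hL in
theorem mu_eq (hq : G.lq = logG (G.q expG)) :
    G.μ expG = gm _ fun ε p => P.Mu i (ε * p 0) (p 1) := by
  have B := b2 ℝ 2 (P.lL c i) 1 fun _ => zero_le_one
  have h1 := ((hv_q hP A hs hχ hL).log B (pos_q b2 g hP A hs hχ hL)).neg.exp
  have h2 := ((hv_x A (hP.sm_d i)).sub
    ((((hv_ε A).mul (hv_c A)).mul (hv_psi hP A hL)).mul h1)).smul (1 / 4)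
  rw [Lay.μ, hs, hd, hq]
  refine h2.eq (HV.gm ((g.pull i).smooth 0)) ?_
  filter_upwards [q_half g (i := i)] with z hz
  show _ = P.Mu i (z.1 * z.2 0) (z.2 1)
  rw [Real.exp_neg, Real.exp_log (by linarith), Prof.Mu, ← div_eq_mul_inv]
  ring

include b2 g in
theorem pos_main (hμ : G.μ expG = gm _ fun ε p => P.Mu i (ε * p 0) (p 1)) :
    PosG (4 * G.μ expG ^ 2 + G.τ₂ gD expG ^ 2) := by
  have B := b2 ℝ 2 (P.lL c i) 1 fun _ => zero_le_one
  have h1 : HV (G.μ expG) fun ε p => P.Mu i (ε * p 0) (p 1) := by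
    rw [hμ]; exact HV.gm ((g.pull i).smooth 0)
  obtain ⟨a, a0, ha⟩ := g.posA
  refine (((HV.four.mul h1.sq).add (h1.der 1).sq).pos B).2 ⟨a, a0, ?_⟩
  filter_upwards [ev_dom (P := P) g.pos i, h1.smooth] with z hz hz'
  have e := pdn_one (M := fun σ x => P.Mu i (z.1 * σ) x) hz'
  have := (ha i _ _ hz.2.2.2 hz.2.2.1).1
  rw [← e] at this
  exact this

include b2 g hP A hs hχ hL in
theorem pos_eh (hε : G.ε = εG _) (het : PosG G.et) : PosG (G.eh expG) := by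
  have B := b2 ℝ 2 (P.lL c i) 1 fun _ => zero_le_one
  obtain ⟨f, hf⟩ := HV.ex G.et
  obtain ⟨a, a0, ha⟩ := (hf.pos B).1 het
  rw [Lay.eh, hs, hε, hχ]
  refine ((hf.add (((((hv_ε A).mul (hv_c A)).add (HV.two.mul (hv_ε A))).mul
    (hv_x A fun x hx => smχ hP hx)).mul (hv_psi hP A hL))).pos B).2 ⟨a, a0, ?_⟩
  filter_upwards [ev_dom (P := P) g.pos i, ha] with z hz h1
  have h2 : 0 ≤ z.1 * z.2 0 + 2 * z.1 := by nlinarith [hz.1, hz.2.1]
  have h3 := mul_nonneg (mul_nonneg h2 (hP.χ_nonneg i (z.2 1)))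
    (by positivity : 0 ≤ 2 * Real.exp (2 * P.L i (z.2 1)))
  exact h1.trans (le_add_of_nonneg_right h3)

include g hP A in
theorem eik_eq : xG (P.lL c i) (P.d i) ^ 2 + (1 / 4 : ℝ) • gD 1 (xG (P.lL c i) (P.d i)) ^ 2 =
    expG (2 * xG (P.lL c i) (P.L i)) := by
  have h1 := hv_x A (hP.sm_d i)
  refine (h1.sq.add ((h1.der 1).sq.smul (1 / 4))).eq
    (HV.two.mul (hv_x A fun x hx => smL hP hx)).exp ?_
  filter_upwards [ev_dom (P := P) g.pos i, h1.smooth] with z hz hz'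
  have e := pdn_one (M := fun _ x => P.d i x) hz'
  have := hP.eik i _ hz.2.2.2
  show _ + 1 / 4 * pdn 1 (fun q : En 2 => P.d i (q 1)) z.2 ^ 2 = _
  rw [e, ← this]; ring

variable (AO : AvgFacts P.lO (P.xL - P.δ) (P.xR + P.δ))

include A AO in
theorem pull_ε : (g.pull i).hom (εG _) = εG _ :=
  ((hv_ε AO).pull (g.pull i)).eq (hv_ε A) (Eventually.of_forall fun _ => rfl)

include AO in
theorem pull_c : (g.pull i).hom (cG _) = gm _ fun ε p => P.Mu i (ε * p 0) (p 1) :=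
  ((hv_c AO).pull (g.pull i)).eq (HV.gm ((g.pull i).smooth 0)) (Eventually.of_forall fun _ => rfl)

include A AO hP in
theorem pull_x {f : ℝ → ℝ} (hf : ∀ x ∈ Icc (P.xL - P.δ) (P.xR + P.δ), ContDiffAt ℝ ∞ f x) :
    (g.pull i).hom (xG _ f) = xG _ f :=
  ((hv_x AO hf).pull (g.pull i)).eq (hv_x A fun x hx => hf x (sub_dom hP i hx))
    (Eventually.of_forall fun _ => rfl)

include b2 A AO hP in
theorem pull_Li : (g.pull i).hom (P.Li i) =
    xG _ (P.L i) - lgG (xG _ (P.χ i)) (xG _ (P.L i)) := by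
  have B := b2 ℝ 2 P.lO 1 fun _ => zero_le_one
  have p := (lg_facts b2 AO (AO.xbd _ (hP.sm_χ i)) (AO.xbd _ (hP.sm_L i))).1
  rw [Prof.Li, map_sub, lgG, ((B.pull (g.pull i)).2.2.1 _ p).2, map_add, map_one, map_mul, map_mul,
    (B.pull (g.pull i)).2.1, map_mul, map_ofNat, pull_ε g A AO, pull_x g hP A AO (hP.sm_χ i),
    pull_x g hP A AO (hP.sm_L i), lgG]

include b2 in
theorem pull_bd {w : Z2 → ℝ} {φ : SG P.lO} (hφ : PG 1 w φ) :
    PG 1 (fun z => w (z.1, P.Φ i z.1 z.2)) ((g.pull i).hom φ) :=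
  ((b2 ℝ 2 P.lO 1 fun _ => zero_le_one).pull (g.pull i)).2.2.2 1 1 (fun _ => zero_le_one)
    (fun a j => g.dΦ i a j) ⟨1, Eventually.of_forall fun _ => by simp⟩ hφ

include b2 A in
theorem pull_der (φ : SG P.lO) :
    gD 0 ((g.pull i).hom φ) = gD 0 (gm _ fun ε p => P.Mu i (ε * p 0) (p 1)) *
      (g.pull i).hom (gD 0 φ) ∧
    gD 1 ((g.pull i).hom φ) = gD 1 (gm _ fun ε p => P.Mu i (ε * p 0) (p 1)) *
      (g.pull i).hom (gD 0 φ) + (g.pull i).hom (gD 1 φ) := by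
  have h := ((b2 ℝ 2 P.lO 1 fun _ => zero_le_one).pull (g.pull i)).1 φ
  obtain ⟨h1, h2, h3, -⟩ := A.xfun id fun x _ => contDiffAt_id
  have e : (gm (P.lL c i) fun ε p => P.Φ i ε p 1) = xG _ id := rfl
  have e0 : (gm (P.lL c i) fun ε p => P.Φ i ε p 0) =
    gm _ fun ε p => P.Mu i (ε * p 0) (p 1) := rfl
  have h4 : xG (P.lL c i) (deriv id) = 1 :=
    (hv_x A (f := deriv id) fun x _ => by rw [deriv_id']; exact contDiffAt_const).eq HV.one
      (Eventually.of_forall fun z => deriv_id _)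
  constructor
  · rw [h, Fin.sum_univ_two, e, e0, h2, zero_mul, add_zero]
  · rw [h, Fin.sum_univ_two, e, e0, h3, h4, one_mul]

end Val

end Cid1

open Cid1 in
theorem cid1 (b1 : B1Stmt) (b2 : B2Stmt) (av : AvgStmt) (wt : WtStmt) (lb : LayBasicStmt) :
    Cid1Stmt := by
  intro P c g s θ κ m i hP θ0 θ1 κ0 hb hm
  have A : AvgFacts (P.lL c i) (P.lo i) (P.hi i) := av.1 c _ _ g.pos
  have AO : AvgFacts P.lO (P.xL - P.δ) (P.xR + P.δ) := (av.2 _ _ _).1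
  have cO : PG 1 1 (cG P.lO) := (av.2 _ _ _).2
  have Wt : WtFacts (P.lL c i) := wt c _ _ g.pos
  have h := wr_SG b2 (P.lL c i)
  have hO := wr_SG b2 P.lO
  have wO := (g.w_one θ θ0.le).1
  have wL := (g.w_one θ θ0.le).2 i
  have sO : WLe P.lO (eW * P.wW θ) 1 := hO.sml_mul AO.eps.2.2.2.1 wO
  have sL : WLe (P.lL c i) (eW * P.wW θ * dW κ) 1 :=
    h.sml_mul (h.sml_mul A.eps.2.2.2.1 wL) (dW_le Wt κ0.le)
  have hu : ∀ j, PG 1 1 (s.u j) := fun j => by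
    have h1 := (lg_facts b2 AO (AO.xbd _ (hP.sm_χ j)) (AO.xbd _ (hP.sm_L j))).2
    have h2 : PG 1 1 (P.Li j) :=
      hO.sub (AO.xbd _ (hP.sm_L j)) (hO.to_one AO.eps.2.2.2.1 h1)
    have h3 := hO.add (hO.to_one sO (hb.u j)) h2
    rwa [sub_add_cancel] at h3
  have hπ : ∀ φ, P.π c i φ = (g.pull i).hom φ := fun φ => pb_eq _ φ
  have pw : ∀ φ : SG P.lO, PG 1 (eW * P.wW θ) φ → PG 1 (eW * P.wW θ) (P.π c i φ) :=
    fun φ hφ => by
      rw [hπ]; exact h.congr (pull_bd b2 g hφ) (funext fun z => rfl)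
  have x0 : ∀ f : ℝ → ℝ, (∀ x ∈ Icc (P.lo i) (P.hi i), ContDiffAt ℝ ∞ f x) →
      gD 0 (xG (P.lL c i) f) = 0 :=
    fun f hf => (A.xfun f fun x hx => hf x (Ioo_subset_Icc_self hx)).2.1
  have pq : PosG ((s.G m i).q expG) := pos_q b2 g hP A rfl rfl rfl
  have mu : (s.G m i).μ expG = gm _ fun ε p => P.Mu i (ε * p 0) (p 1) :=
    mu_eq b2 g hP A rfl rfl rfl rfl rfl
  have pe : PosG ((s.G m i).eh expG) :=
    pos_eh b2 g hP A rfl rfl rfl rfl (Wt.et m hm).2.1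
  have R : Res (s.G m i) (eW * P.wW θ) :=
    bld_res b2 A Wt hm wL (A.xbd _ (hP.sm_d i)) (A.xbd _ fun x hx => smχ hP hx)
      (A.xbd _ fun x hx => smL hP hx) (x0 _ (hP.sm_d i)) (x0 _ fun x hx => smχ hP hx)
      (x0 _ fun x hx => smL hP hx) (pw _ hb.la) (pw _ hb.bp) (pw _ hb.lc)
      (by rw [← pull_Li b2 g hP A AO, hπ, ← map_sub, ← hπ]; exact pw _ (hb.u i))
      (by rw [hπ]; exact h.congr (pull_bd b2 g (hu _)) (funext fun z => rfl))
      (fun j => h.mul11 (Wt.m m hm).1 (h.to_one sL (hb.Z i j))) pq (pos_main b2 g mu) pe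
      (eik_eq g hP A)
  refine ⟨⟨⟨AO.eps.2.2.1, AO.crd.2.1, AO.crd.2.2⟩,
    ⟨hO.to_one AO.eps.2.2.2.1 AO.eps.2.1, cO, hO.to_one sO hb.la, hO.to_one sO hb.bp,
      hO.to_one sO hb.lc, hu _, hu _⟩, R.ok, R.all, pq, R.pos_A, pe, R.pos_lg, mu, ?_, R.al, R.xi,
    R.xi1, R.lal, R.Xe, R.rho₀, R.wall⟩, R.rho⟩
  exact
    { d₀ := fun f => by rw [mu]; exact (pull_der b2 g A f).1
      d₁ := fun f => by rw [Lay.τ₂, mu]; exact (pull_der b2 g A f).2
      exp := ((b2 ℝ 2 P.lO 1 fun _ => zero_le_one).pull (g.pull i)).2.1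
      ε := (pull_ε g A AO).symm
      μ := mu.trans (pull_c g AO).symm
      la := hπ _
      bp := hπ _
      lc := hπ _
      uw := hπ _
      uo := hπ _ }

end Pool.Agent.Lib.MP_df9110_gt
end

-- part Pool.Agent.Lib.MP_df9110_gt.Est
section

/-! Estimates of the formal solution. -/

set_option linter.unusedSectionVars false

namespace Pool.Agent.Lib.MP_df9110_gt

open Filter Topology Set Gen
open scoped ContDiff

namespace Est

section Alg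

variable {R W : Type} [CommRing R] [Algebra ℝ R] [CommMonoid W] {D : Fin 2 → R → R}
  {E Lg : R → R} {P : W → R → Prop} {Pos : R → Prop} {Sml : W → Prop}

theorem pk (A B : Lay R) (j : Fin 8) :
    (pairLay A B).k (pairD D) (pairE E) j = (A.k D E j, B.k D E j) :=
  Prod.ext (Lay.map_k (AlgHom.fst ℝ R R) (fst_D D) (fst_E E) (pairLay A B) j).symm
    (Lay.map_k (AlgHom.snd ℝ R R) (snd_D D) (snd_E E) (pairLay A B) j).symm
theorem pe (A B : Lay R) (j : Fin 5) :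
    (pairLay A B).elay (pairD D) (pairE E) j = (A.elay D E j, B.elay D E j) :=
  Prod.ext (Lay.map_elay (AlgHom.fst ℝ R R) (fst_D D) (fst_E E) (pairLay A B) j).symm
    (Lay.map_elay (AlgHom.snd ℝ R R) (snd_D D) (snd_E E) (pairLay A B) j).symm
theorem pl (A B : Lay R) :
    (pairLay A B).lapmu (pairD D) (pairE E) = (A.lapmu D E, B.lapmu D E) :=
  Prod.ext (Lay.map_lapmu (AlgHom.fst ℝ R R) (fst_D D) (fst_E E) (pairLay A B)).symm
    (Lay.map_lapmu (AlgHom.snd ℝ R R) (snd_D D) (snd_E E) (pairLay A B)).symm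
theorem pB (A B : Lay R) : (pairLay A B).Bc (pairD D) (pairE E) = (A.Bc D E, B.Bc D E) :=
  Prod.ext (Lay.map_Bc (AlgHom.fst ℝ R R) (fst_D D) (fst_E E) (pairLay A B)).symm
    (Lay.map_Bc (AlgHom.snd ℝ R R) (snd_D D) (snd_E E) (pairLay A B)).symm
theorem pX (A B : Lay R) : (pairLay A B).Xi (pairD D) (pairE E) = (A.Xi D E, B.Xi D E) :=
  Prod.ext (Lay.map_Xi (AlgHom.fst ℝ R R) (fst_D D) (fst_E E) (pairLay A B)).symm
    (Lay.map_Xi (AlgHom.snd ℝ R R) (snd_D D) (snd_E E) (pairLay A B)).symm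
theorem pA (A B : Lay R) : (pairLay A B).Ao (pairD D) (pairE E) = (A.Ao D E, B.Ao D E) :=
  Prod.ext (Lay.map_Ao (AlgHom.fst ℝ R R) (fst_D D) (fst_E E) (pairLay A B)).symm
    (Lay.map_Ao (AlgHom.snd ℝ R R) (snd_D D) (snd_E E) (pairLay A B)).symm
theorem pa (A B : Lay R) : (pairLay A B).al (pairE E) * pairE E (pairLay A B).lA =
    (A.al E * E A.lA, B.al E * E B.lA) := rfl
theorem pEA (A B : Lay R) : pairE E (pairLay A B).lA = (E A.lA, E B.lA) := rfl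
theorem pEC (A B : Lay R) : pairE E (pairLay A B).lC = (E A.lC, E B.lC) := rfl

/-- Differences of the quantities of two layers. -/
structure Df (D : Fin 2 → R → R) (E : R → R) (Q : R → Prop) (A B : Lay R) : Prop where
  k : ∀ j, Q (B.k D E j - A.k D E j)
  ko : ∀ j, Q (B.out.k D E j - A.out.k D E j)
  e : ∀ j, Q (B.elay D E j - A.elay D E j)
  l : Q (B.lapmu D E - A.lapmu D E)
  Bc : Q (B.Bc D E - A.Bc D E)
  Xi : Q (B.Xi D E - A.Xi D E)
  Ao : Q (B.Ao D E - A.Ao D E)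
  aA : Q (B.al E * E B.lA - A.al E * E A.lA)
  EA : Q (E B.lA - E A.lA)
  EC : Q (E B.lC - E A.lC)

variable (h : WR D E Lg P Pos Sml)
include h

theorem df {v : W} (hv : Sml v) {A B : Lay R} (H : (pairLay A B).All (pairP P v 1)) :
    Df D E (P v) A B := by
  have h' := h.pair hv
  have key : ∀ {z : R × R} {a b : R}, pairP P v 1 z → z = (a, b) → P v (b - a) := by
    rintro _ a b h1 rfl
    exact h.congr h1.2 (one_mul v)
  exact ⟨fun j => key (Lay.P_k h' H j) (pk A B j),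
    fun j => key (Lay.P_k h' (Lay.P_out h' H) j) (pk A.out B.out j),
    fun j => key (Lay.P_elay h' H j) (pe A B j), key (Lay.P_lapmu h' H) (pl A B),
    key (Lay.P_Bc h' H) (pB A B), key (Lay.P_Xi h' H) (pX A B), key (Lay.P_Ao h' H) (pA A B),
    key (h'.mul11 (Lay.P_al h' H) (Lay.P_E_lA h' H)) (pa A B), key (Lay.P_E_lA h' H) (pEA A B),
    key (Lay.P_E_lC h' H) (pEC A B)⟩

theorem mk' {v : W} {a b : R} (ha : P 1 a) (hd : P v (b - a)) : pairP P v 1 (a, b) :=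
  ⟨ha, h.congr hd (one_mul v).symm⟩

theorem mk0 {v : W} {b : R} (hd : P v b) : pairP P v 1 (0, b) :=
  mk' h (h.zero 1) (by rwa [sub_zero])

theorem same {u v : W} {a b : R} (H : pairP P v 1 (a, b)) :
    pairP (pairP P u) v 1 ((a, a), (b, b)) := ⟨h.pair_diag H.1, h.pair_diag H.2⟩

theorem kill {u v : W} {a b : R} (ha : P u a) (hd : P (v * u) (b - a)) :
    pairP (pairP P u) v 1 ((0, a), (0, b)) :=
  ⟨mk0 h ha, by simpa using h.zero _, by simpa using hd⟩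

/-- The mixed differences. -/
theorem cube {u v : W} (hu : Sml u) (hv : Sml v) {A B : Lay R}
    (H : (pairLay A B).All (pairP P v 1)) (y : P u A.y ∧ B.y = A.y) (yp : P u A.yp ∧ B.yp = A.yp)
    (z : A.lam = 0 ∧ A.gam = 0 ∧ A.nu = 0 ∧ A.w1 = 0 ∧ A.w2 = 0) (z₀ : P (v * u) B.lam)
    (z₁ : P (v * u) B.gam) (z₂ : P (v * u) B.nu) (z₃ : P (v * u) B.w1) (z₄ : P (v * u) B.w2) :
    (∀ j, P (v * u) (B.k D E j - A.k D E j - (B.out.k D E j - A.out.k D E j))) ∧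
      P (v * u) (B.lapmu D E - A.lapmu D E - (B.out.lapmu D E - A.out.lapmu D E)) := by
  have k1 : ∀ {a b : R}, P u a ∧ b = a → pairP (pairP P u) v 1 ((0, a), (0, b)) :=
    fun H => kill h H.1 (by rw [H.2, sub_self]; exact h.zero _)
  have k2 : ∀ {a b : R}, a = 0 → P (v * u) b → pairP (pairP P u) v 1 ((0, a), (0, b)) :=
    fun e H => kill h (e ▸ h.zero _) (by rwa [e, sub_zero])
  have := df (h.pair hu) hv (A := pairLay A.out A) (B := pairLay B.out B)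
    ⟨same h H.ε, same h H.s0, k1 y, k1 yp, same h H.et, same h H.d, same h H.chi, same h H.L,
      same h H.la, same h H.bp, same h H.lc, same h H.uw, same h H.uo, k2 z.1 z₀, k2 z.2.1 z₁,
      k2 z.2.2.1 z₂, k2 z.2.2.2.1 z₃, k2 z.2.2.2.2 z₄, same h H.rho, same h H.xi1, same h H.lq,
      same h H.lAo, same h H.leh⟩
  refine ⟨fun j => ?_, ?_⟩
  · have h1 := this.k j
    rw [pk, pk] at h1
    exact h1.2
  · have h1 := this.l
    rw [pl, pl] at h1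
    exact h1.2

end Alg

section Val

variable {l : Filter Z2} [OpF l] (b2 : B2Stmt)
include b2

theorem bd0 {w : Z2 → ℝ} {X : SG l} {F : SmF l} (h : PG 1 w (X - mkG l F)) :
    ∃ C : ℝ, ∀ᶠ z in l, |val X z - F.1 z.1 z.2| ≤ C * |w z| :=
  (b2 ℝ 2 l 1 fun _ => zero_le_one).bound (rep X - F) (by rwa [map_sub, mkG_rep])

theorem fin (he : Tendsto eW l (𝓝 0)) (hp : ∀ᶠ z in l, 0 < z.1) {w : Z2 → ℝ} (K : ℕ)
    (hw : ∀ᶠ z in l, z.1 ^ K ≤ w z) {X : SG l} (F : SmF l) (h : PG 1 w (X - mkG l F)) :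
    ∀ᶠ C : ℝ in atTop, ∀ Y : SG l, (∀ n : ℕ, PG 1 (eW ^ n) (Y - X)) →
      ∀ᶠ z in l, |val Y z - F.1 z.1 z.2| ≤ C * w z := by
  obtain ⟨C0, h0⟩ := bd0 b2 h
  filter_upwards [eventually_ge_atTop (C0 + 1)] with C hC Y hY
  obtain ⟨C1, h1⟩ := bd0 b2 (X := Y) (F := rep X) (by rw [mkG_rep]; exact hY (K + 1))
  have h2 : ∀ᶠ z in l, C1 * eW z ≤ 1 :=
    (he.const_mul C1).eventually_le_const (by simp)
  filter_upwards [h0, h1, h2, hp, hw] with z h0 h1 h2 hp hw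
  have a1 : 0 < z.1 ^ K := pow_pos hp K
  have a2 : |(eW ^ (K + 1)) z| = z.1 ^ K * z.1 := (abs_of_pos (pow_pos hp _)).trans (pow_succ _ _)
  rw [abs_of_pos (a1.trans_le hw)] at h0
  rw [a2] at h1
  have a3 := abs_sub_le (val Y z) (val X z) (F.1 z.1 z.2)
  have a4 : C1 * (z.1 ^ K * z.1) ≤ z.1 ^ K := by
    have := mul_le_mul_of_nonneg_left h2 a1.le
    simp only [eW] at this
    linarith
  have a5 := mul_le_mul_of_nonneg_right hC (a1.trans_le hw).le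
  change |val Y z - val X z| ≤ _ at h1
  linarith

omit b2 in
theorem wle {w w' : Z2 → ℝ} (h : ∀ᶠ z in l, 0 ≤ w z ∧ w z ≤ w' z) : WLe l w w' :=
  ⟨1, h.mono fun z hz => by rw [one_mul, abs_of_nonneg hz.1, abs_of_nonneg (hz.1.trans hz.2)]; exact hz.2⟩

omit b2 in
theorem cut1 : IsCut 1 := ⟨contDiff_const, fun _ => ⟨zero_le_one, le_rfl⟩, 1, one_pos, fun _ _ => rfl⟩

omit b2 in
theorem dW0 : dW 0 = 1 := funext fun z => by simp [dW]

theorem pw (hv : WLe l eW 1) (n : ℕ) : WLe l (eW ^ n) 1 := by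
  induction n with
  | zero => rw [pow_zero]; exact (wr_SG b2 l).sml_one
  | succ n ih => rw [pow_succ]; exact (wr_SG b2 l).sml_mul ih hv

theorem yp1 (t : WtFacts l) : PG 1 (dW (7 / 4)) ((2 + cG l) * yG l 1) := by
  have h := wr_SG b2 l
  have h1 := (t.y 1 cut1).1
  rw [add_mul]
  exact h.add (h.mul1 (h.ofNat 2) ((b2 ℝ 2 l 1 fun _ => zero_le_one).mono h1
    (t.d_le _ _ (by norm_num)))) (h.congr (t.cd 2 (7 / 4) (by norm_num) (w := 1)
      (h.congr h1 (one_mul _).symm)) (one_mul _))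

/-- Cutting off the layer changes it by a negligible amount. -/
theorem cutA {A B : ℝ} (a : AvgFacts l A B) (t : WtFacts l) {m : ℝ → ℝ} (hm : IsCut m)
    {d chi L la bp lc uw uo : SG l} {Z : Fin 5 → SG l}
    (H : (bld 1 d chi L la bp lc uw uo fun j => mG l 1 * Z j).All (PG 1 1))
    (p1 : PosG ((bld 1 d chi L la bp lc uw uo fun j => mG l 1 * Z j).eh expG))
    (pm : PosG ((bld m d chi L la bp lc uw uo fun j => mG l m * Z j).eh expG))
    (hZ : ∀ j, PG 1 (dW (7 / 4)) (Z j)) (n : ℕ) :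
    Df gD expG (PG 1 (eW ^ n)) (bld 1 d chi L la bp lc uw uo fun j => mG l 1 * Z j)
      (bld m d chi L la bp lc uw uo fun j => mG l m * Z j) := by
  have h := wr_SG b2 l
  have hv := pw b2 a.eps.2.2.2.1 n
  have c0 : ∀ {φ : SG l}, PG 1 (dW (7 / 4)) φ → PG 1 (eW ^ n) (mG l m * φ - mG l 1 * φ) := by
    intro φ hφ
    have k := fun m hm => h.congr ((t.cut m hm n (7 / 4) 0 (by norm_num)).1 (w := 1)
      (h.congr hφ (one_mul _).symm)) (by rw [dW0, mul_one, mul_one])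
    rw [show mG l m * φ - mG l 1 * φ = (1 - mG l 1) * φ - (1 - mG l m) * φ by ring]
    exact h.sub (k 1 cut1) (k m hm)
  have e : yG l m - yG l 1 = mG l m * yG l 1 - mG l 1 * yG l 1 := by
    rw [← (t.y m hm).2.2, ← (t.y 1 cut1).2.2]
  have hy : PG 1 (eW ^ n) (yG l m - yG l 1) := e ▸ c0
    ((b2 ℝ 2 l 1 fun _ => zero_le_one).mono (t.y 1 cut1).1 (t.d_le _ _ (by norm_num)))
  have hyp : PG 1 (eW ^ n) ((2 + cG l) * yG l m - (2 + cG l) * yG l 1) := by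
    rw [show (2 + cG l) * yG l m - (2 + cG l) * yG l 1 = mG l m * ((2 + cG l) * yG l 1) -
      mG l 1 * ((2 + cG l) * yG l 1) by linear_combination (2 + cG l) * e]
    exact c0 (yp1 b2 t)
  have het := (t.cut m hm n 1 0 one_pos).2
  have H0 : (pairLay (bld3 (bld2 (bld1 (bld0 1 d chi L la bp lc uw uo fun j => mG l 1 * Z j))))
      (bld3 (bld2 (bld1 (bld0 m d chi L la bp lc uw uo fun j => mG l m * Z j))))).All
      (pairP (PG 1) (eW ^ n) 1) :=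
    ⟨h.pair_diag H.ε, h.pair_diag H.s0, mk' h H.y hy, mk' h H.yp hyp, mk' h H.et het,
      h.pair_diag H.d, h.pair_diag H.chi, h.pair_diag H.L, h.pair_diag H.la, h.pair_diag H.bp,
      h.pair_diag H.lc, h.pair_diag H.uw, h.pair_diag H.uo, mk' h H.lam (c0 (hZ 0)),
      mk' h H.gam (c0 (hZ 1)), mk' h H.nu (c0 (hZ 2)), mk' h H.w1 (c0 (hZ 3)),
      mk' h H.w2 (c0 (hZ 4)), h.pair_diag H.rho, h.pair_diag (h.zero 1), h.pair_diag H.lq,
      h.pair_diag H.lAo, mk' h H.leh (h.Lg_diff hv p1 pm H.leh (by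
        convert het using 1
        exact add_sub_add_right_eq_sub _ _ _))⟩
  have av : ∀ x y : SG l, εG l * avg x - εG l * avg y = εG l * avg (x - y) := fun x y => by
    rw [← mul_sub, eq_comm, sub_eq_add_neg x, a.avg_add, ← neg_one_mul y,
      a.avg_mul _ _ (by rw [h.der.neg, h.der.one, neg_zero]), neg_one_mul, sub_eq_add_neg]
  refine df h hv ⟨H0.ε, H0.s0, H0.y, H0.yp, H0.et, H0.d, H0.chi, H0.L, H0.la, H0.bp, H0.lc, H0.uw,
    H0.uo, H0.lam, H0.gam, H0.nu, H0.w1, H0.w2, H0.rho, mk' h H.xi1 ?_, H0.lq, H0.lAo, H0.leh⟩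
  have := h.mul1 H.ε (a.avg_bd (w := fun ε _ => ε ^ n) (h.pD 0 (df h hv H0).Xi))
  rw [h.der.sub] at this
  exact (av _ _).symm ▸ this

/-- Comparison with the leading order layer. -/
theorem leadA {A B : ℝ} (a : AvgFacts l A B) (t : WtFacts l) (ld : LeadStmt)
    {d chi L L₂ la bp lc uw uo : SG l} {Z : Fin 5 → SG l} {G : Lay (SG l)}
    (hG : G = bld 1 d chi L la bp lc uw uo fun j => mG l 1 * Z j)
    (hyp : LeadHyp gD expG (yG l 1) d chi L L₂) (H : G.All (PG 1 1)) (hL : PG 1 1 L₂)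
    (pq : PosG (G.q expG)) (pA : PosG (G.Ao gD expG)) (h1 : PG 1 eW la) (h2 : PG 1 eW bp)
    (h3 : PG 1 eW lc) (h4 : PG 1 eW (uw - L)) (h5 : PG 1 eW (uo - L₂)) (h6 : PG 1 eW G.rho)
    (h7 : PG 1 eW G.xi1) (hZ : ∀ j, PG 1 (eW * dW (7 / 4)) (Z j)) :
    PG 1 hW (G.al expG * expG G.lA - expG (l := l) (-(2 * L)) * (1 - yG l 1)) ∧
    PG 1 hW (G.Bc gD expG - 2 * expG (l := l) (-(2 * L))) ∧
    (∀ j, PG 1 (eW * dW (3 / 2)) (G.k gD expG j - G.out.k gD expG j -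
      if j = 1 then 2 * expG (l := l) (-(2 * L)) * yG l 1 else 0)) ∧
    PG 1 eW (G.lapmu gD expG - G.out.lapmu gD expG) := by
  have h := wr_SG b2 l
  have b := b2 ℝ 2 l 1 fun _ => zero_le_one
  obtain ⟨F, Fo, -⟩ := ld (SG l) gD expG (yG l 1) ((2 + cG l) * yG l 1) (etG l 1) d chi L L₂ G.leh
    isDer_gD h.isExp hyp
  subst hG
  have u : ∀ {φ : SG l}, PG 1 eW φ → PG 1 hW φ := fun hφ => b.mono hφ t.e_h
  have d1 : WLe l (dW (7 / 4)) 1 := dW0 ▸ t.d_le _ 0 (by norm_num)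
  have z : ∀ j, PG 1 (hW * dW (7 / 4)) (mG l 1 * Z j) := fun j => by
    obtain ⟨C, hC⟩ := t.e_h
    refine h.mul1 (t.m 1 cut1).1 (b.mono (hZ j) ⟨C, hC.mono fun z hz => ?_⟩)
    rw [Pi.mul_apply, Pi.mul_apply, abs_mul, abs_mul, ← mul_assoc]
    exact mul_le_mul_of_nonneg_right hz (abs_nonneg _)
  have z' := fun j => mk0 h (h.sml d1 (z j))
  have h4' : PG 1 hW (uw - (L + 0)) := by rw [add_zero]; exact u h4
  have h5' : PG 1 hW (uo - (L₂ + 0)) := by rw [add_zero]; exact u h5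
  have H0 : (pairLay { lead (yG l 1) ((2 + cG l) * yG l 1) (etG l 1) d chi L L₂
      (bld 1 d chi L la bp lc uw uo fun j => mG l 1 * Z j).leh 0 0 0 with lAo := 0 }
      { bld 1 d chi L la bp lc uw uo fun j => mG l 1 * Z j with lAo := 0 }).All
      (pairP (PG 1) hW 1) :=
    ⟨mk0 h (u a.eps.2.1), mk0 h t.s0, h.pair_diag H.y, h.pair_diag H.yp, h.pair_diag H.et,
      h.pair_diag H.d, h.pair_diag H.chi, h.pair_diag H.L, mk0 h (u h1), mk0 h (u h2),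
      mk0 h (u h3), mk' h (h.add H.L (h.zero 1)) h4',
      mk' h (h.add hL (h.zero 1)) h5',
      z' 0, z' 1, z' 2, z' 3, z' 4, mk0 h (u h6), mk0 h (u h7),
      mk0 h (h.Lg_sub t.h_one pq (by
        have := h.mul1 H.chi (h.mul1' t.s0 (Lay.P_psi h H))
        convert this using 1
        exact add_sub_cancel_left _ _)), h.pair_diag (h.zero 1), h.pair_diag H.leh⟩
  have hl : PG (l := l) 1 1 (-(2 * L)) := h.neg (h.mul11 (h.ofNat 2) H.L)
  have e := (h.Lg_E (-(2 * L))).symm.trans (congrArg logG F.Ao)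
  have hA := h.Lg_diff t.h_one (F.Ao.subst (h.E_bd hl).2) pA (e.subst hl) (df h t.h_one H0).Ao
  rw [← e] at hA
  have H1 : (pairLay (lead (yG l 1) ((2 + cG l) * yG l 1) (etG l 1) d chi L L₂
      (bld 1 d chi L la bp lc uw uo fun j => mG l 1 * Z j).leh 0 0 0)
      (bld 1 d chi L la bp lc uw uo fun j => mG l 1 * Z j)).All (pairP (PG 1) hW 1) :=
    ⟨H0.ε, H0.s0, H0.y, H0.yp, H0.et, H0.d, H0.chi, H0.L, H0.la, H0.bp, H0.lc, H0.uw, H0.uo,
      H0.lam, H0.gam, H0.nu, H0.w1, H0.w2, H0.rho, H0.xi1, H0.lq, mk' h hl hA, H0.leh⟩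
  have D1 := df h t.h_one H1
  obtain ⟨k1, k2⟩ := cube h d1 t.h_one H1
    ⟨b.mono (t.y 1 cut1).1 (t.d_le _ _ (by norm_num)), rfl⟩ ⟨yp1 b2 t, rfl⟩
    ⟨rfl, rfl, rfl, rfl, rfl⟩ (z 0) (z 1) (z 2) (z 3) (z 4)
  refine ⟨F.aA ▸ D1.aA, F.Bc ▸ D1.Bc, fun j => b.mono ?_ (t.hd (7 / 4) _ (by norm_num)),
    h.congr (b.mono ?_ (t.hd (7 / 4) 0 (by norm_num))) (by rw [dW0, mul_one])⟩
  · have := k1 j
    rw [F.k j, Fo.k j] at this
    convert this using 1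
    simp only [lead, Lay.out, mul_zero, ite_self, sub_zero]
    ring
  · rw [F.lapmu, Fo.lapmu] at k2
    simpa only [sub_zero] using k2

end Val

section Main

variable {P : Prof} {c : ℝ} (g : P.Geo c) (i : Fin 2) (b2 : B2Stmt)

theorem hom_x {f : ℝ → ℝ} (hf : (fun (_ : ℝ) (p : En 2) => f (p 1)) ∈ SmF P.lO) :
    (fun (_ : ℝ) (p : En 2) => f (p 1)) ∈ SmF (P.lL c i) ∧
      (g.pull i).hom (xG _ f) = xG _ f := by
  have h1 := (g.pull i).mem ⟨_, hf⟩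
  refine ⟨h1, ?_⟩
  rw [xG, gm_eq hf, IsPull.hom_mk]
  exact (gm_eq h1).symm

include b2

theorem pl' (w : Z2 → ℝ) (e : (fun z => w (z.1, P.Φ i z.1 z.2)) = w) {φ : SG P.lO}
    (h : PG 1 w φ) : PG 1 w ((g.pull i).hom φ) :=
  e ▸ ((b2 ℝ 2 P.lO 1 fun _ => zero_le_one).pull (g.pull i)).2.2.2 1 1 (fun _ => zero_le_one)
    (g.dΦ i) ⟨1, Eventually.of_forall fun _ => by simp⟩ h

omit g in
theorem li (a : AvgFacts P.lO (P.xL - P.δ) (P.xR + P.δ)) (hP : P.Ok) :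
    PG 1 eW (P.Li i - xG _ (P.L i)) := by
  have h := wr_SG b2 P.lO
  have b := b2 ℝ 2 P.lO 1 fun _ => zero_le_one
  have h1 := h.mul1' (h.mul1' a.eps.2.1 (a.xbd _ (hP.sm_χ i)))
    (h.E1 (h.mul11 (h.ofNat 2) (a.xbd _ (hP.sm_L i))))
  rw [Prof.Li, sub_sub_cancel_left]
  refine h.neg (h.Lg_sub a.eps.2.2.2.1 (b.pos_add ?_ h1 a.eps.2.2.2.2.1)
    (by rwa [add_sub_cancel_left]))
  rw [← h.E_zero]
  exact (h.E_bd (h.zero 1)).2

end Main

end Est

open Est in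
theorem estS (_b1 : B1Stmt) (b2 : B2Stmt) (av : AvgStmt) (wt : WtStmt) (c1 : Cid1Stmt)
    (c2 : Cid2Stmt) (ld : LeadStmt) : EstStmt := by
  intro P c s θ N hP g h0 h1 inv
  suffices main : ∀ i, ∀ᶠ C in atTop, ∀ m, IsCut m → s.Est N C m i by
    obtain ⟨C, hC⟩ := (eventually_all.2 main).exists
    exact ⟨C, fun m hm i => hC i m hm⟩
  intro i
  have a : AvgFacts (P.lL c i) (P.lo i) (P.hi i) := av.1 _ _ _ g.pos
  have aO : AvgFacts P.lO _ _ := (av.2 _ _ _).1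
  have t : WtFacts (P.lL c i) := wt _ _ _ g.pos
  have h := wr_SG b2 (P.lL c i)
  have hO := wr_SG b2 P.lO
  have b := b2 ℝ 2 (P.lL c i) 1 fun _ => zero_le_one
  have gf := fun m hm => c1 P c g s θ (7 / 4) m i hP h0 h1 (by norm_num) inv.toBd hm
  have g2 := fun m hm => (c2 P c g s m i hP hm (gf m hm).1).cov
  have w1 := g.w_one θ h0.le
  have he := a.eps.2.2.2.1
  have d1 : WLe (P.lL c i) (dW (7 / 4)) 1 := dW0 ▸ t.d_le _ 0 (by norm_num)
  have hZ : ∀ j, PG 1 (eW * dW (7 / 4)) (s.Z i j) := fun j =>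
    h.sml (w1.2 i) (h.congr (inv.Z i j) (mul_right_comm _ _ _))
  have D : ∀ m, IsCut m → ∀ n : ℕ, Df gD expG (PG 1 (eW ^ n)) (s.G 1 i) (s.G m i) :=
    fun m hm n => cutA b2 a t hm (gf 1 cut1).1.all (gf 1 cut1).1.pos_eh (gf m hm).1.pos_eh
      (fun j => h.sml' he (hZ j)) n
  have pe : ∀ {φ : SG P.lO}, PG 1 (eW * P.wW θ) φ → PG 1 eW (P.π c i φ) := fun hφ => by
    rw [Prof.π, pb_eq (g.pull i)]
    exact pl' g i b2 eW rfl (hO.sml w1.1 hφ)
  have xL := fun j => aO.xfun _ fun x hx => hP.sm_L j x (Ioo_subset_Icc_self hx)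
  have xd := a.xfun _ fun x hx => hP.sm_d i x (Ioo_subset_Icc_self hx)
  have xd' := a.xfun _ fun x hx =>
    (hP.sm_d i x (Ioo_subset_Icc_self hx)).derivWithin (m := ∞) (by simp)
  have hu : ∀ j, PG 1 eW (P.π c i (s.u j) - xG _ (P.L j)) := fun j => by
    have := pl' g i b2 eW rfl (hO.add (hO.sml w1.1 (inv.u j)) (li j b2 aO hP))
    rwa [sub_add_sub_cancel, map_sub, (hom_x g i (xL j).1).2, ← pb_eq] at this
  have dom : ∀ᶠ z in P.lL c i, -1 < z.2 0 ∧ z.2 1 ∈ Ioo (P.lo i) (P.hi i) :=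
    ev_fam.2 (Eventually.of_forall fun _ _ hp => ⟨hp.1, hp.2.2⟩)
  obtain ⟨FL, eL, vL⟩ : ∃ F : SmF (P.lL c i), xG _ (P.L i) = mkG (P.lL c i) F ∧
      F.1 = fun _ p => P.L i (p 1) := ⟨_, gm_eq (hom_x g i (xL i).1).1, rfl⟩
  obtain ⟨Fy, ey, vy⟩ : ∃ F : SmF (P.lL c i), yG _ 1 = mkG (P.lL c i) F ∧ ∀ z : Z2, F.1 z.1 z.2 = dW 2 z :=
    ⟨_, gm_eq (t.sm 1 cut1).1, fun z => one_mul _⟩
  obtain ⟨FA, eA, vA⟩ : ∃ F : SmF (P.lL c i), expG (l := P.lL c i) (-(2 * xG _ (P.L i))) = mkG (P.lL c i) F ∧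
      ∀ z : Z2, F.1 z.1 z.2 = P.A0 i z := ⟨sfE _ (-(2 * FL)), by
    rw [mkG_sfE, map_neg, map_mul, map_ofNat, eL], fun z => by
      change Real.exp (-(2 * FL.1 z.1 z.2)) = _
      rw [vL]; rfl⟩
  have hyp : LeadHyp gD expG (yG (P.lL c i) 1) (xG _ (P.d i)) (xG _ (P.χ i)) (xG _ (P.L i))
      (xG _ (P.L (i + 1))) := by
    refine ⟨t.y1.1, (t.y 1 cut1).2.1, xd.2.1, (gf 1 cut1).1.ok.chi₀, (gf 1 cut1).1.ok.L₀, ?_, ?_⟩
    · rw [← (hom_x g i (xL _).1).2, (gf 1 cut1).1.cov.d₀, (xL _).2.1, map_zero, mul_zero]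
    · rw [xd.2.2.1, eL, xG, xG, gm_eq xd.1, gm_eq xd'.1, ← map_ofNat (mkG (P.lL c i)) 2, ← map_mul,
        ← mkG_sfE, ← map_pow, ← map_pow, ← map_smul, ← map_add, mkG_eq]
      filter_upwards [dom] with z hz
      have := hP.eik i _ (Ioo_subset_Icc_self hz.2)
      change P.d i (z.2 1) ^ 2 + (1 / 4 : ℝ) * deriv (P.d i) (z.2 1) ^ 2 =
        Real.exp (2 * FL.1 z.1 z.2)
      rw [vL, ← this]; ring
  obtain ⟨l1, l2, l3, l4⟩ := leadA b2 a t ld (G := s.G 1 i) rfl hyp (gf 1 cut1).1.all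
    ((hom_x g i (xL _).1).2 ▸ pl' g i b2 1 rfl (aO.xbd _ (hP.sm_L _))) (gf 1 cut1).1.pos_q
    (gf 1 cut1).1.pos_A (pe inv.la) (pe inv.bp) (pe inv.lc) (hu i) (hu _)
    (h.sml (w1.2 i) (gf 1 cut1).2) (gf 1 cut1).1.xi1 hZ
  have ko : ∀ j, PG 1 (eW ^ 2) ((s.G 1 i).out.k gD expG j) := fun j => by
    rw [(g2 1 cut1).k]
    exact h.mul1' (h.pow a.eps.2.1 2) (Lay.P_kc h (gf 1 cut1).1.all
      (fun k => pl' g i b2 1 rfl (Out.P_kv hO (gf 1 cut1).1.O_all k)) j)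
  have lo : PG 1 eW ((s.G 1 i).lapmu gD expG) := by
    have := h.add l4 ((g2 1 cut1).lapmu ▸ h.mul1' a.eps.2.1
      (pl' g i b2 1 rfl (Out.P_lapmu hO (gf 1 cut1).1.O_all)))
    rwa [sub_add_cancel] at this
  have hp := a.eps.2.2.2.2.2.1
  have fn := fun w K hw X F hX => fin b2 a.eps.2.2.2.2.1 hp (w := w) K hw (X := X) F hX
  have hh : ∀ᶠ z in P.lL c i, z.1 ^ 1 ≤ hW z := by
    filter_upwards [hp, dom, a.eps.2.2.2.2.1.eventually_le_const one_pos] with z h1 h2 h3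
    rw [pow_one]
    exact le_min h3 (by nlinarith [h2.1])
  have pd : ∀ᶠ z in P.lL c i, 0 ≤ z.1 * dW (3 / 2) z := hp.mono fun z hz =>
    mul_nonneg hz.le (Real.exp_pos _).le
  have hn : ∀ n : ℕ, ∀ᶠ z in P.lL c i, z.1 ^ n ≤ z.1 * dW (3 / 2) z + z.1 ^ n := fun n =>
    pd.mono fun z hz => le_add_of_nonneg_left hz
  have m1 : ∀ n : ℕ, WLe (P.lL c i) (eW * dW (3 / 2)) fun z => z.1 * dW (3 / 2) z + z.1 ^ n :=
    fun n => wle ((pd.and hp).mono fun z hz => ⟨hz.1, le_add_of_nonneg_right (pow_pos hz.2 n).le⟩)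
  have m2 : WLe (P.lL c i) (eW ^ 2) fun z => z.1 * dW (3 / 2) z + z.1 ^ 2 :=
    wle ((hp.and (hn 2)).mono fun z hz => ⟨(pow_pos hz.1 2).le, hz.2⟩)
  obtain ⟨Fk, ek, vk⟩ : ∃ F : Fin 8 → SmF (P.lL c i), (∀ j, (if j = 1 then
      2 * expG (l := P.lL c i) (-(2 * xG _ (P.L i))) * yG _ 1 else 0) = mkG (P.lL c i) (F j)) ∧
      ∀ j (z : Z2), (F j).1 z.1 z.2 = if j = 1 then 2 * P.A0 i z * dW 2 z else 0 :=
    ⟨fun j => if j = 1 then 2 * FA * Fy else 0, fun j => by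
      dsimp only
      split_ifs
      · rw [eA, ey, map_mul, map_mul, map_ofNat]
      · rw [map_zero], fun j z => by
      dsimp only
      split_ifs
      · rw [← vA, ← vy]; rfl
      · rfl⟩
  have one : ∀ᶠ z in P.lL c i, z.1 ^ 0 ≤ (1 : Z2 → ℝ) z := Eventually.of_forall fun z => by simp
  filter_upwards [fn _ 1 hh _ (FA * (1 - Fy)) (by
      rw [map_mul, map_sub, map_one, ← eA, ← ey]; exact l1),
    fn _ 1 hh _ (2 * FA) (by rw [map_mul, map_ofNat, ← eA]; exact l2),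
    eventually_all.2 fun j => fn _ 2 (hn 2) ((s.G 1 i).k gD expG j) (Fk j) (by
      have := h.add (b.mono (l3 j) (m1 2)) (b.mono (ko j) m2)
      rwa [ek, sub_right_comm, sub_add_cancel] at this),
    fn _ 0 one _ 0 (by rw [map_zero, sub_zero]; exact Lay.P_E_lA h (gf 1 cut1).1.all),
    fn _ 0 one _ 0 (by rw [map_zero, sub_zero]; exact Lay.P_E_lC h (gf 1 cut1).1.all),
    eventually_all.2 fun j => fn _ 3 (hn 3) _ (Fk j) (ek j ▸ b.mono (l3 j) (m1 3))]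
    with C q1 q2 q3 q4 q5 q6 m hm
  have Dm := D m hm
  refine ⟨fun k => h.add ?_ (Lay.P_cov h (gf m hm).1.all (fun j => ?_) k), ?_, ?_, ?_⟩
  · have := h.add ((Dm N).e k) (h.sml (w1.2 i) (h.sml d1 (inv.elay i k)))
    rwa [sub_add_cancel] at this
  · rw [St.er, Prof.π, pb_eq (g.pull i)]
    exact pl' g i b2 (eW ^ N) rfl (hO.sml w1.1 (inv.err i j))
  · have := h.add (h.congr (Dm 1).l (pow_one _)) lo
    rwa [sub_add_cancel] at this
  · filter_upwards [q1 _ fun n => (Dm n).aA, q2 _ fun n => (Dm n).Bc,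
      eventually_all.2 fun j => q3 j _ fun n => (Dm n).k j, q4 _ fun n => (Dm n).EA,
      q5 _ fun n => (Dm n).EC] with z r1 r2 r3 r4 r5
    refine ⟨?_, ?_, fun j => vk j z ▸ r3 j, ?_, ?_⟩
    · rw [← vA, ← vy]; exact r1
    · rw [← vA]; exact r2
    · simpa using (le_abs_self _).trans r4
    · simpa using (le_abs_self _).trans r5
  · filter_upwards [eventually_all.2 fun j => q6 j
      ((s.G m i).k gD expG j - (s.G m i).out.k gD expG j) fun n => by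
        rw [sub_sub_sub_comm]
        exact h.sub ((Dm n).k j) ((Dm n).ko j)] with z r j
    exact vk j z ▸ r j

end Pool.Agent.Lib.MP_df9110_gt
end
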