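import Pool.Agent.Lib.MP_df9110_gt.NPert

-- part Pool.Agent.Lib.MP_df9110_gt.Dense
section

/-! The pointwise hypotheses extend from the complement of the axes to the whole space. -/

namespace Pool.Agent.Lib.MP_df9110_gt

open Filter Topology
open scoped ContDiff

namespace Dense

theorem dn_dense : Dense Dn := by
  refine (dense_pi Set.univ fun (_ : Fin 4) _ => dense_compl_singleton (0 : ℝ)).mono fun y hy => ?_
  have h0 : y 0 ≠ 0 := hy 0 trivial
  have h2 : y 2 ≠ 0 := hy 2 trivial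
  exact ⟨by positivity, by positivity⟩

theorem ext_le {f g : Pt → ℝ} (hf : Continuous f) (hg : Continuous g) (h : ∀ y ∈ Dn, f y ≤ g y)
    (y : Pt) : f y ≤ g y :=
  dn_dense.induction h (isClosed_le hf hg) y

theorem sm_of {m : ℝ} {f : Pt → ℝ} (h : IsSym m f) : f ∈ Sm 4 :=
  (contDiff_iff_contDiffAt.2 fun y => h.1 y trivial : ContDiff ℝ ∞ f)

theorem cont {f : Pt → ℝ} (h : f ∈ Sm 4) : Continuous f := (show ContDiff ℝ ∞ f from h).continuous

theorem sm_pd {f : Pt → ℝ} (h : f ∈ Sm 4) (i : Fin 4) : pd i f ∈ Sm 4 :=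
  (contDiff_pdn h i : ContDiff ℝ ∞ (pdn i f))

section Ten

variable {g G : Fin 4 → Fin 4 → Pt → ℝ} {Γ : Fin 4 → Fin 4 → Fin 4 → Pt → ℝ} {V : Fin 4 → Pt → ℝ}
  {f : Pt → ℝ}

theorem sm_chr (hg : ∀ a b, g a b ∈ Sm 4) (hG : ∀ a b, G a b ∈ Sm 4) (k i j : Fin 4) :
    gChr pd g G k i j ∈ Sm 4 :=
  Subalgebra.smul_mem _ (sum_mem fun l _ => mul_mem (hG k l)
    (sub_mem (add_mem (sm_pd (hg _ _) _) (sm_pd (hg _ _) _)) (sm_pd (hg _ _) _))) _

theorem sm_ric (hΓ : ∀ a b c, Γ a b c ∈ Sm 4) (i j : Fin 4) : gRic pd Γ i j ∈ Sm 4 :=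
  sum_mem fun _ _ => add_mem (sub_mem (sm_pd (hΓ _ _ _) _) (sm_pd (hΓ _ _ _) _))
    (sum_mem fun _ _ => sub_mem (mul_mem (hΓ _ _ _) (hΓ _ _ _)) (mul_mem (hΓ _ _ _) (hΓ _ _ _)))

theorem sm_rl (hg : ∀ a b, g a b ∈ Sm 4) (hΓ : ∀ a b c, Γ a b c ∈ Sm 4) (i j k m : Fin 4) :
    gRlow pd g Γ i j k m ∈ Sm 4 :=
  sum_mem fun _ _ => mul_mem (add_mem (sub_mem (sm_pd (hΓ _ _ _) _) (sm_pd (hΓ _ _ _) _))
    (sum_mem fun _ _ => sub_mem (mul_mem (hΓ _ _ _) (hΓ _ _ _)) (mul_mem (hΓ _ _ _) (hΓ _ _ _))))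
    (hg _ _)

theorem sm_err (hg : ∀ a b, g a b ∈ Sm 4) (hΓ : ∀ a b c, Γ a b c ∈ Sm 4) (hV : ∀ a, V a ∈ Sm 4)
    (a b : Fin 4) : gErr pd g Γ V a b ∈ Sm 4 :=
  add_mem (add_mem (sm_ric hΓ a b) (Subalgebra.smul_mem _ (sum_mem fun _ _ =>
    add_mem (add_mem (mul_mem (hV _) (sm_pd (hg _ _) _)) (mul_mem (hg _ _) (sm_pd (hV _) _)))
      (mul_mem (hg _ _) (sm_pd (hV _) _))) _)) (Subalgebra.smul_mem _ (hg _ _) _)

theorem sm_lap (hG : ∀ a b, G a b ∈ Sm 4) (hΓ : ∀ a b c, Γ a b c ∈ Sm 4) (hV : ∀ a, V a ∈ Sm 4)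
    (hf : f ∈ Sm 4) : gLapV pd G Γ V f ∈ Sm 4 :=
  sub_mem (sum_mem fun _ _ => sum_mem fun _ _ => mul_mem (hG _ _)
    (sub_mem (sm_pd (sm_pd hf _) _) (sum_mem fun _ _ => mul_mem (hΓ _ _ _) (sm_pd hf _))))
    (sum_mem fun _ _ => mul_mem (hV _) (sm_pd hf _))

theorem sm_V (hV : ∀ a, V a ∈ Sm 4) (k : Fin 4) : Vf V k ∈ Sm 4 :=
  add_mem (Subalgebra.smul_mem _ (contDiff_apply ℝ ℝ k : ContDiff ℝ ∞ fun y : Pt => y k) _) (hV k)

end Ten

theorem cont_qf {X : Type} [TopologicalSpace X] {h : Fin 4 → Fin 4 → X → ℝ}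
    (hh : ∀ a b, Continuous (h a b)) (v : Fin 4 → ℝ) :
    Continuous fun y => qf (fun a b => h a b y) v := by
  unfold qf
  fun_prop

theorem qf_smul (t : ℝ) (T : Fin 4 → Fin 4 → ℝ) (u : Fin 4 → ℝ) :
    qf (fun a b => t * T a b) u = t * qf T u := by
  simp only [qf, Finset.mul_sum, mul_assoc]

theorem nsq_nonneg (u : Pt) : 0 ≤ nsq u := Finset.sum_nonneg fun _ _ => sq_nonneg _

theorem qf_close {A B : Fin 4 → Fin 4 → ℝ} {ε : ℝ} (h : ∀ a b, |A a b - B a b| ≤ ε) (u : Pt) :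
    qf A u - 16 * ε * nsq u ≤ qf B u := by
  have h1 : ∀ a, u a ^ 2 ≤ nsq u := fun a =>
    Finset.single_le_sum (f := fun i => u i ^ 2) (fun _ _ => sq_nonneg _) (Finset.mem_univ a)
  have h2 : ∀ a b, A a b * (u a * u b) - B a b * (u a * u b) ≤ ε * nsq u := fun a b => by
    rw [← sub_mul]
    refine (le_abs_self _).trans ?_
    rw [abs_mul]
    refine mul_le_mul (h a b) (abs_le.2 ⟨?_, ?_⟩) (abs_nonneg _) ((abs_nonneg _).trans (h a b))
    · nlinarith [h1 a, h1 b, sq_nonneg (u a + u b)]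
    · nlinarith [h1 a, h1 b, sq_nonneg (u a - u b)]
  have h3 : qf A u - qf B u ≤ ∑ _a : Fin 4, ∑ _b : Fin 4, ε * nsq u := by
    unfold qf
    rw [← Finset.sum_sub_distrib]
    refine Finset.sum_le_sum fun a _ => ?_
    rw [← Finset.sum_sub_distrib]
    exact Finset.sum_le_sum fun b _ => h2 a b
  simp only [Finset.sum_const, Finset.card_univ, Fintype.card_fin, nsmul_eq_mul] at h3
  push_cast at h3
  linarith

theorem qf_comb (s t : ℝ) (A B : Fin 4 → Fin 4 → ℝ) (u : Fin 4 → ℝ) :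
    qf (fun a b => s * A a b + t * B a b) u = s * qf A u + t * qf B u := by
  simp only [qf, Finset.mul_sum, add_mul, Finset.sum_add_distrib, mul_assoc]

theorem bar_closed {g G Rc : Fin 4 → Fin 4 → Pt → ℝ} {Rl : Fin 4 → Fin 4 → Fin 4 → Fin 4 → Pt → ℝ}
    {φ L c : Pt → ℝ} {β c₀ : ℝ} (hg : ∀ a b, Continuous (g a b)) (hG : ∀ a b, Continuous (G a b))
    (hRc : ∀ a b, Continuous (Rc a b)) (hRl : ∀ a b c d, Continuous (Rl a b c d))
    (hφ : Continuous φ) (hL : Continuous L) (hc : Continuous c) (hc0 : ∀ y, 0 < c y) (h0 : 0 < c₀)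
    (he : ∀ y u, c₀ * nsq u ≤ qf (fun a b => g a b y) u)
    (h : ∀ y ∈ Dn, BarOK (fun a b => g a b y) (fun a b => G a b y) (fun a b => Rc a b y)
      (fun a b c d => Rl a b c d y) (φ y) β (L y) (c y)) (y : Pt) :
    BarOK (fun a b => g a b y) (fun a b => G a b y) (fun a b => Rc a b y)
      (fun a b c d => Rl a b c d y) (φ y) β (L y) (c y) := by
  have h1 : ∀ u, c y * qf (fun a b => g a b y) u ≤
      φ y * qf (fun a b => g a b y) u + β * qf (fun a b => Rc a b y) u := fun u =>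
    ext_le (hc.mul (cont_qf hg u))
      ((hφ.mul (cont_qf hg u)).add (continuous_const.mul (cont_qf hRc u)))
      (fun z hz => (h z hz).1 u) y
  refine ⟨h1, fun T hT hT' v => ?_⟩
  have hF : Continuous fun z => (2 * φ z - β) * qf (fun a b => Rc a b z) v +
      (L z + c z) * qf (fun a b => g a b z) v :=
    (((continuous_const.mul hφ).sub continuous_const).mul (cont_qf hRc v)).add
      ((hL.add hc).mul (cont_qf hg v))
  have key : ∀ η ∈ Set.Ioo (0 : ℝ) 1, (2 * φ y - β) * qf (fun a b => Rc a b y) v +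
      (L y + c y) * qf (fun a b => g a b y) v ≤ 2 * qf (gRmT (fun a b => G a b y)
        (fun a b c d => Rl a b c d y) fun a b => (1 - η) * T a b) v := by
    intro η hη
    have hε : 0 < η * (c y * c₀) / 16 := by
      have := hη.1
      have := hc0 y
      positivity
    have hk : ∀ᶠ z in 𝓝 y, ∀ a b, |φ y * g a b y + β * Rc a b y - (φ z * g a b z + β * Rc a b z)| ≤
        η * (c y * c₀) / 16 := by
      refine eventually_all.2 fun a => eventually_all.2 fun b => ?_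
      have h2 : Continuous fun z => |φ y * g a b y + β * Rc a b y -
          (φ z * g a b z + β * Rc a b z)| := by fun_prop
      exact (h2.tendsto y).eventually_le_const (by simpa using hε)
    have hR : Continuous fun z => 2 * qf (gRmT (fun a b => G a b z)
        (fun a b c d => Rl a b c d z) fun a b => (1 - η) * T a b) v :=
      continuous_const.mul (cont_qf (h := fun a b z => gRmT (fun a b => G a b z)
        (fun a b c d => Rl a b c d z) (fun a b => (1 - η) * T a b) a b)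
        (fun a b => by unfold gRmT; fun_prop) v)
    have := mem_closure_iff_nhdsWithin_neBot.1 (dn_dense y)
    refine le_of_tendsto_of_tendsto ((hF.tendsto y).mono_left (nhdsWithin_le_nhds (s := Dn)))
      ((hR.tendsto y).mono_left nhdsWithin_le_nhds) ?_
    filter_upwards [self_mem_nhdsWithin, nhdsWithin_le_nhds hk] with z hz hk
    refine (h z hz).2 _ (fun i j => by rw [hT i j]) (fun u => ?_) v
    have h2 := qf_close hk u
    rw [qf_comb, qf_comb] at h2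
    have h3 := mul_le_mul_of_nonneg_left
      ((mul_le_mul_of_nonneg_left (he y u) (hc0 y).le).trans (h1 u)) hη.1.le
    have h4 := mul_le_mul_of_nonneg_left (hT' u).2 (sub_pos.2 hη.2).le
    rw [qf_smul]
    exact ⟨mul_nonneg (sub_pos.2 hη.2).le (hT' u).1, by linarith⟩
  have hR : Continuous fun η : ℝ => 2 * qf (gRmT (fun a b => G a b y)
      (fun a b c d => Rl a b c d y) fun a b => (1 - η) * T a b) v :=
    continuous_const.mul (cont_qf (h := fun a b η => gRmT (fun a b => G a b y)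
      (fun a b c d => Rl a b c d y) (fun a b => (1 - η) * T a b) a b)
      (fun a b => by unfold gRmT; fun_prop) v)
  have h5 := ge_of_tendsto ((hR.tendsto 0).mono_left (nhdsWithin_le_nhds (s := Set.Ioi 0)))
    (by filter_upwards [Ioo_mem_nhdsGT one_pos] with η hη using key η hη)
  simpa using h5

end Dense

open _root_.Pool.Agent.Lib.MP_df9110_gt.Dense in
theorem dense (_b1 : B1Stmt) (l0 : L0Facts) (m0 : M0Stmt) : DenseStmt := by
  intro I l Λ hΛ g δ U φ w β h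
  have hw : ∀ γ, Continuous (wt γ) := fun γ => cont (sm_of (l0.wt_sym γ))
  have hg : ∀ᶠ i in l, ∀ a b, gf (g i) a b ∈ Sm 4 :=
    eventually_all.2 fun a => eventually_all.2 fun b => (h.g_mod a b).1.mono fun _ => sm_of
  have ell : ∃ p : ℕ, ∀ᶠ i in l, ∀ y ξ, (Λ i ^ p)⁻¹ * nsq ξ ≤ qf (g i y) ξ := by
    obtain ⟨p, hp⟩ := h.g_ell
    refine ⟨p, ?_⟩
    filter_upwards [hp, hg] with i h1 h2 y ξ
    exact ext_le continuous_const (cont_qf (fun a b => cont (h2 a b)) ξ)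
      (fun z hz => h1 z hz ξ) y
  have hG : ∀ᶠ i in l, ∀ a b, Gf (g i) a b ∈ Sm 4 :=
    eventually_all.2 fun a => eventually_all.2 fun b =>
      (((m0.1 I l Λ hΛ).inv g ⟨h.g_symm, ell⟩ h.g_mod).1 a b).1.mono fun _ => sm_of
  have hΓ : ∀ᶠ i in l, ∀ a b c, chrF (g i) a b c ∈ Sm 4 := by
    filter_upwards [hg, hG] with i h1 h2 using sm_chr h1 h2
  have hV : ∀ᶠ i in l, ∀ a, Vf (U i) a ∈ Sm 4 :=
    (eventually_all.2 fun a => (h.U_mod a).1).mono fun i hi => sm_V fun a => sm_of (hi a)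
  have hl : ∀ᶠ i in l, ∀ f ∈ Sm 4, Continuous (lapF (g i) (Vf (U i)) f) := by
    filter_upwards [hG, hΓ, hV] with i h1 h2 h3 f hf using cont (sm_lap h1 h2 h3 hf)
  have hp : ∀ i (p : ℕ), 0 < (Λ i ^ p)⁻¹ := fun i p => by
    have := hΛ i
    positivity
  refine { h with g_ell := ?_, err := fun p => ?_, bar := ?_, w_bar := ?_ }
  · obtain ⟨p, hp⟩ := ell
    exact ⟨p, hp.mono fun i hi y _ => hi y⟩
  · filter_upwards [h.err p, hg, hΓ, hV] with i h1 h2 h3 h4 y _ v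
    exact ext_le (cont_qf (fun a b => cont (sm_err h2 h3 h4 a b)) v).abs
      ((continuous_const.mul (hw _)).mul (cont_qf (fun a b => cont (h2 a b)) v))
      (fun z hz => h1 z hz v) y
  · obtain ⟨p, h1⟩ := h.bar
    obtain ⟨q, h2⟩ := ell
    refine ⟨p, ?_⟩
    filter_upwards [h1, h2, hg, hG, hΓ, hl, h.φ_mod.1] with i h1 h2 h3 h4 h5 h6 h7 y _
    exact bar_closed (g := gf (g i)) (fun a b => cont (h3 a b)) (fun a b => cont (h4 a b))
      (fun a b => cont (sm_ric h5 a b)) (fun a b c d => cont (sm_rl h3 h5 a b c d))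
      (cont (sm_of h7)) (h6 _ (sm_of h7)) (continuous_const.mul (hw _))
      (fun y => mul_pos (hp i p) (l0.wt_pos _ y)) (hp i q) h2 h1 y
  · obtain ⟨p, h1⟩ := h.w_bar
    refine ⟨p, ?_⟩
    filter_upwards [h1, hl, h.w_mod.1] with i h1 h2 h3 y _
    exact ⟨ext_le (continuous_const.mul (hw _)) (cont (sm_of h3)) (fun z hz => (h1 z hz).1) y,
      ext_le ((h2 _ (sm_of h3)).add (cont (sm_of h3))) (continuous_const.mul (hw _)).neg
        (fun z hz => (h1 z hz).2) y⟩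

end Pool.Agent.Lib.MP_df9110_gt
end

-- part Pool.Agent.Lib.MP_df9110_gt.Fin
section

/-! Normalization of the exact solution to an expander in the sense of `IsExpander`. -/

namespace Pool.Agent.Lib.MP_df9110_gt

open Filter Topology
open scoped ContDiff

namespace FinA

/-- Evaluation at a point. -/
noncomputable def ev (y : Pt) : Sm 4 →ₐ[ℝ] ℝ := (Pi.evalAlgHom ℝ (fun _ => ℝ) y).comp (Sm 4).val

theorem ev_apply (y : Pt) (f : Sm 4) : ev y f = f.1 y := rfl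

theorem ext_ev {f g : Sm 4} (h : ∀ y, ev y f = ev y g) : f = g := Subtype.ext (funext h)

theorem isUnit_sm (f : Sm 4) (h : ∀ y, f.1 y ≠ 0) : IsUnit f :=
  IsUnit.of_mul_eq_one (⟨fun y => (f.1 y)⁻¹, (Sm.cd f).inv h⟩ : Sm 4)
    (Subtype.ext (funext fun y => mul_inv_cancel₀ (h y)))

theorem exists_inv (M : Matrix (Fin 4) (Fin 4) (Sm 4))
    (h : ∀ y, (Matrix.of fun i j => (M i j).1 y).det ≠ 0) : ∃ N, M * N = 1 ∧ N * M = 1 := by
  have hu : IsUnit M.det := by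
    refine isUnit_sm _ fun y => ?_
    rw [← ev_apply, AlgHom.map_det]
    exact h y
  exact ⟨M⁻¹, Matrix.mul_nonsing_inv M hu, Matrix.nonsing_inv_mul M hu⟩

theorem val_inv {g : Pt → Mat} {gS GS : Fin 4 → Fin 4 → Sm 4} (h : IsMet gS GS)
    (hg : ∀ i j, (gS i j).1 = gf g i j) (i j : Fin 4) : (GS i j).1 = Gf g i j := by
  funext y
  have : (g y)⁻¹ = Matrix.of fun i j => (GS i j).1 y := by
    refine Matrix.inv_eq_left_inv ?_
    ext a b
    have h1 := congrArg (ev y) (h.inv a b)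
    simp only [map_sum, map_mul, ev_apply, hg, gf] at h1
    rw [Matrix.mul_apply, Matrix.one_apply]
    simp only [Matrix.of_apply]
    rw [h1]
    split_ifs <;> rfl
  rw [Gf, this, Matrix.of_apply]

theorem exists_met {g : Pt → Mat} (h : IsMetricOn g Set.univ) :
    ∃ gS GS : Fin 4 → Fin 4 → Sm 4, IsMet gS GS ∧ ∀ i j, (gS i j).1 = gf g i j := by
  let M : Matrix (Fin 4) (Fin 4) (Sm 4) :=
    Matrix.of fun i j => ⟨gf g i j, contDiffOn_univ.1 (h.1 i j)⟩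
  have hs : M.transpose = M := by
    ext i j y
    exact (h.2 y trivial).isHermitian.apply i j
  obtain ⟨N, h1, h2⟩ := exists_inv M fun y => (h.2 y trivial).det_pos.ne'
  have hN : N.transpose = N := by
    have h3 : M * N.transpose = 1 := by
      rw [← hs, ← Matrix.transpose_mul, h2, Matrix.transpose_one]
    rw [← Matrix.one_mul N.transpose, ← h2, Matrix.mul_assoc, h3, Matrix.mul_one]
  refine ⟨M, N, ⟨fun i j => ?_, fun i j => ?_, fun i j => ?_⟩, fun _ _ => rfl⟩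
  · exact (congrFun (congrFun hs i) j).symm
  · exact (congrFun (congrFun hN i) j).symm
  · rw [← Matrix.one_apply, ← h2, Matrix.mul_apply]

section Transfer

variable {g : Pt → Mat} {gS GS : Fin 4 → Fin 4 → Sm 4} (h : IsMet gS GS)
  (hg : ∀ i j, (gS i j).1 = gf g i j)
include h hg

omit h in
theorem val_g : (fun a b => (Sm 4).val (gS a b)) = gf g := funext fun a => funext fun b => hg a b

theorem val_G : (fun a b => (Sm 4).val (GS a b)) = Gf g :=
  funext fun a => funext fun b => val_inv h hg a b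

theorem val_chr : (fun a b c => (Sm 4).val (gChr smD gS GS a b c)) = chrF g := by
  funext a b c
  rw [map_gChr _ smD_val, val_g hg, val_G h hg]
  rfl

theorem val_ric : (fun a b => (Sm 4).val (gRic smD (gChr smD gS GS) a b)) = Ric g := by
  funext a b
  rw [map_gRic _ smD_val, val_chr h hg, ← ricF_eq]
  rfl

theorem val_hess (f : Sm 4) (a b : Fin 4) :
    (Sm 4).val (gHess smD (gChr smD gS GS) f a b) = Hess g f.1 a b := by
  rw [map_gHess _ smD_val, val_chr h hg, ← hess_eq]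
  rfl

theorem val_scal : (Sm 4).val (gTr GS (gRic smD (gChr smD gS GS))) = Scal g := by
  rw [map_gTr, val_G h hg, val_ric h hg, ← ricF_eq, scal_eq]

theorem val_err (V : Fin 4 → Sm 4) (a b : Fin 4) :
    (Sm 4).val (gErr smD gS (gChr smD gS GS) V a b) = errF g (fun k => (V k).1) a b := by
  rw [map_gErr _ smD_val, val_g hg, val_chr h hg]
  rfl

end Transfer

theorem nsq_nonneg (ξ : Pt) : 0 ≤ nsq ξ := Finset.sum_nonneg fun _ _ => sq_nonneg _

theorem posDef {M : Mat} {c : ℝ} (hs : M.IsSymm) (hc : 0 < c) (h : ∀ ξ, c * nsq ξ ≤ qf M ξ) :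
    M.PosDef := by
  refine Matrix.posDef_iff_dotProduct_mulVec.2 ⟨hs, fun ξ hξ => ?_⟩
  have h1 : 0 < nsq ξ := by
    obtain ⟨i, hi⟩ := Function.ne_iff.1 hξ
    exact Finset.sum_pos' (fun _ _ => sq_nonneg _) ⟨i, Finset.mem_univ _, sq_pos_of_ne_zero hi⟩
  have h2 : star ξ ⬝ᵥ M.mulVec ξ = qf M ξ := by
    simp only [star_trivial, dotProduct, Matrix.mulVec, qf, Finset.mul_sum]
    exact Finset.sum_congr rfl fun _ _ => Finset.sum_congr rfl fun _ _ => by ring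
  rw [h2]
  exact (mul_pos hc h1).trans_le (h ξ)

theorem nsq_add (y v : Pt) : nsq (y + v) ≤ 2 * nsq y + 2 * nsq v := by
  simp only [nsq, Finset.mul_sum, ← Finset.sum_add_distrib, Pi.add_apply]
  exact Finset.sum_le_sum fun i _ => by nlinarith [sq_nonneg (y i - v i)]

theorem nsq_neg (v : Pt) : nsq (-v) = nsq v := by simp [nsq]

theorem jac_low (P : Fin 4 → Fin 4 → ℝ) (hP : ∀ a i, |P a i| ≤ 1 / 8) (ξ : Pt) :
    nsq ξ ≤ 4 * nsq fun a => ξ a + ∑ i, P a i * ξ i := by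
  have h1 : nsq (fun a => ∑ i, P a i * ξ i) ≤ nsq ξ / 4 := by
    have h2 : ∀ a, (∑ i, P a i * ξ i) ^ 2 ≤ nsq ξ / 16 := by
      intro a
      have h3 : ∑ i, P a i ^ 2 ≤ 1 / 16 := by
        have : ∀ i, P a i ^ 2 ≤ 1 / 64 := fun i => by
          rw [← sq_abs]
          nlinarith [hP a i, abs_nonneg (P a i)]
        rw [Fin.sum_univ_four]
        linarith [this 0, this 1, this 2, this 3]
      have h4 := Finset.sum_mul_sq_le_sq_mul_sq Finset.univ (P a) ξ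
      have h5 := nsq_nonneg ξ
      unfold nsq at h5 ⊢
      nlinarith
    rw [nsq, Fin.sum_univ_four]
    linarith [h2 0, h2 1, h2 2, h2 3]
  have h2 := nsq_add (fun a => ξ a + ∑ i, P a i * ξ i) (-fun a => ∑ i, P a i * ξ i)
  rw [nsq_neg] at h2
  have h3 : ((fun a => ξ a + ∑ i, P a i * ξ i) + -fun a => ∑ i, P a i * ξ i) = ξ := by
    funext a
    simp
  rw [h3] at h2
  linarith

theorem wt_shift (m B : ℝ) (hB : 0 ≤ B) : ∃ L : ℝ, 0 ≤ L ∧ ∀ y v : Pt, nsq v ≤ B →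
    wt m (y + v) ≤ L * wt m y := by
  refine ⟨(2 + 2 * B) ^ |m / 2|, by positivity, fun y v hv => ?_⟩
  have h1 := nsq_add y v
  have h2 := nsq_add (y + v) (-v)
  rw [nsq_neg, add_neg_cancel_right] at h2
  have p1 := nsq_nonneg y
  have p2 := nsq_nonneg (y + v)
  unfold wt
  rcases le_total 0 (m / 2) with hm | hm
  · rw [abs_of_nonneg hm, ← Real.mul_rpow (by positivity) (by positivity)]
    exact Real.rpow_le_rpow (by positivity) (by nlinarith) hm
  · have h3 : ((2 + 2 * B) * (1 + nsq (y + v))) ^ (m / 2) ≤ (1 + nsq y) ^ (m / 2) :=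
      Real.rpow_le_rpow_of_nonpos (by positivity) (by nlinarith) hm
    rw [Real.mul_rpow (by positivity) (by positivity)] at h3
    rw [abs_of_nonpos hm, Real.rpow_neg (by positivity), le_inv_mul_iff₀ (by positivity)]
    exact h3

theorem fderiv_eq (F : Pt → ℝ) (p v : Pt) : fderiv ℝ F p v = ∑ a, v a * pd a F p := by
  conv_lhs => rw [pi_eq_sum_univ' v, map_sum]
  refine Finset.sum_congr rfl fun a _ => ?_
  rw [map_smul, smul_eq_mul, pd]

theorem mvt {F : Pt → ℝ} (hF : ContDiff ℝ ∞ F) (y v : Pt) :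
    ∃ t : ℝ, 0 < t ∧ t < 1 ∧ F (y + v) - F y = ∑ a, v a * pd a F (y + t • v) := by
  have hd : ∀ t : ℝ, HasDerivAt (fun t : ℝ => F (y + t • v)) (fderiv ℝ F (y + t • v) v) t := by
    intro t
    have h1 : HasDerivAt (fun t : ℝ => y + t • v) v t := by
      simpa using ((hasDerivAt_id t).smul_const v).const_add y
    exact (hF.differentiable (by simp) _).hasFDerivAt.comp_hasDerivAt t h1
  obtain ⟨t, ht, h⟩ := exists_hasDerivAt_eq_slope (fun t : ℝ => F (y + t • v)) _ zero_lt_one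
    (fun t _ => (hd t).continuousAt.continuousWithinAt) fun t _ => hd t
  refine ⟨t, ht.1, ht.2, ?_⟩
  rw [← fderiv_eq, h]
  simp

theorem isSym_cd {m : ℝ} {F : Pt → ℝ} (h : IsSym m F) : ContDiff ℝ ∞ F :=
  contDiff_iff_contDiffAt.2 fun y => h.1 y trivial

theorem isSym_bd {m : ℝ} {F : Pt → ℝ} (l0 : L0Facts) (h : IsSym m F) :
    ∃ C : ℝ, 0 ≤ C ∧ ∀ y, |F y| ≤ C * wt m y := by
  obtain ⟨C, hC⟩ := h.2 0
  exact ⟨|C|, abs_nonneg C, fun y => (hC y trivial).trans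
    (mul_le_mul_of_nonneg_right (le_abs_self C) (l0.wt_pos m y).le)⟩

theorem isSym_pd {m : ℝ} {F : Pt → ℝ} (l0 : L0Facts) (h : IsSym m F) (i : Fin 4) :
    IsSym (m - 1) (pd i F) :=
  ⟨fun y hy => contDiffAt_pdn (h.1 y hy) i, fun k => by
    obtain ⟨C, hC⟩ := h.2 (k + 1)
    exact ⟨C, (l0.succ.1 hC).2 i⟩⟩

/-- Smooth with symbol bounds up to order `k`. -/
def SK (k : ℕ) (m : ℝ) (F : Pt → ℝ) : Prop := ContDiff ℝ ∞ F ∧ ∃ C, Sym m k F C

section SK

variable (l0 : L0Facts) {k : ℕ} {m m' : ℝ} {F F' : Pt → ℝ}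
include l0

omit l0 in
theorem SK.of (h : IsSym m F) (k : ℕ) : SK k m F := ⟨isSym_cd h, h.2 k⟩

theorem SK.add (h : SK k m F) (h' : SK k m F') : SK k m (F + F') := by
  obtain ⟨a, C, hC⟩ := h
  obtain ⟨a', C', hC'⟩ := h'
  exact ⟨a.add a', _, l0.add (fun _ _ => a.contDiffAt) (fun _ _ => a'.contDiffAt) hC hC'⟩

theorem SK.mul (h : SK k m F) (h' : SK k m' F') : SK k (m + m') (F * F') := by
  obtain ⟨a, C, hC⟩ := h
  obtain ⟨a', C', hC'⟩ := h'
  exact ⟨a.mul a', _, l0.mul (fun _ _ => a.contDiffAt) (fun _ _ => a'.contDiffAt) hC hC'⟩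

theorem SK.mono (h : SK k m F) (hm : m ≤ m') : SK k m' F := by
  obtain ⟨a, C, hC⟩ := h
  exact ⟨a, C, l0.mono hC subset_rfl hm le_rfl le_rfl⟩

theorem SK.sum {G : Fin 4 → Pt → ℝ} (h : ∀ a, SK k m (G a)) : SK k m (∑ a, G a) := by
  rw [Fin.sum_univ_four]
  exact (((h 0).add l0 (h 1)).add l0 (h 2)).add l0 (h 3)

theorem SK.succ (h : SK 0 m F) (h' : ∀ i, SK k (m - 1) (pd i F)) : SK (k + 1) m F := by
  obtain ⟨a, C, hC⟩ := h
  choose D hD using fun i => (h' i).2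
  refine ⟨a, |C| + ∑ i, |D i|, l0.succ.2 ⟨fun y hy => ?_, fun i => ?_⟩⟩
  · have h1 : C ≤ |C| + ∑ i, |D i| :=
      (le_abs_self C).trans (le_add_of_nonneg_right (Finset.sum_nonneg fun _ _ => abs_nonneg _))
    exact l0.mono hC subset_rfl le_rfl le_rfl h1 y hy
  · refine l0.mono (hD i) subset_rfl le_rfl le_rfl ((le_abs_self _).trans ?_)
    exact (Finset.single_le_sum (f := fun i => |D i|) (fun _ _ => abs_nonneg _)
      (Finset.mem_univ i)).trans (le_add_of_nonneg_left (abs_nonneg C))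

end SK

/-- The map `id + ψ`. -/
def Ps (ψ : Fin 4 → Pt → ℝ) (y : Pt) : Pt := fun b => y b + ψ b y

theorem pd_sub {F F' : Pt → ℝ} (h : ContDiff ℝ ∞ F) (h' : ContDiff ℝ ∞ F') (i : Fin 4) :
    pd i (F - F') = pd i F - pd i F' :=
  congrArg Subtype.val (isDer_smD.sub i (⟨F, h⟩ : Sm 4) ⟨F', h'⟩)

section Comp

variable (b1 : B1Stmt) (l0 : L0Facts) {ψ : Fin 4 → Pt → ℝ} (hψ : ∀ a, IsSym (-1) (ψ a))
include hψ

theorem Ps_cd : ContDiff ℝ ∞ (Ps ψ) :=
  contDiff_pi.2 fun a => (contDiff_apply ℝ ℝ a).add (isSym_cd (hψ a))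

theorem pd_Ps (a i : Fin 4) (y : Pt) :
    pd i (fun q => Ps ψ q a) y = (if a = i then 1 else 0) + pd i (ψ a) y := by
  have h1 : HasFDerivAt (fun q : Pt => q a) (ContinuousLinearMap.proj a : Pt →L[ℝ] ℝ) y :=
    hasFDerivAt_apply a y
  have h2 := h1.add ((isSym_cd (hψ a)).differentiable (by simp) y).hasFDerivAt
  change fderiv ℝ ((fun q : Pt => q a) + ψ a) y _ = _
  rw [h2.fderiv]
  simp [pd, Pi.single_apply]

include b1 in
theorem pd_comp {F : Pt → ℝ} (hF : ContDiff ℝ ∞ F) (i : Fin 4) :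
    pd i (F ∘ Ps ψ) = pd i F ∘ Ps ψ + ∑ a, (pd a F ∘ Ps ψ) * pd i (ψ a) := by
  funext y
  have := (b1 4).chain ((Ps_cd hψ).differentiable (by simp) y) (hF.differentiable (by simp) _) i
  rw [← pd_eq_pdn] at this
  rw [this]
  simp [pd_Ps hψ, mul_add, Finset.sum_add_distrib]

include l0

theorem shift (m : ℝ) : ∃ L : ℝ, 0 ≤ L ∧ ∀ (y : Pt) (t : ℝ), 0 ≤ t → t ≤ 1 →
    wt m (y + t • fun a => ψ a y) ≤ L * wt m y := by
  choose C hC0 hC using fun a => isSym_bd l0 (hψ a)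
  obtain ⟨L, hL, h⟩ := wt_shift m (∑ a, C a ^ 2) (Finset.sum_nonneg fun _ _ => sq_nonneg _)
  refine ⟨L, hL, fun y t h0 h1 => h y _ (Finset.sum_le_sum fun a _ => ?_)⟩
  have h2 : wt (-1) y ≤ 1 := (l0.wt_mono (by norm_num) y).trans_eq (l0.wt_zero y)
  have h3 : |ψ a y| ≤ C a := (hC a y).trans (mul_le_of_le_one_right (hC0 a) h2)
  rw [← sq_abs, Pi.smul_apply, smul_eq_mul, abs_mul, abs_of_nonneg h0]
  exact pow_le_pow_left₀ (by positivity) ((mul_le_of_le_one_left (abs_nonneg _) h1).trans h3) 2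

theorem comp_zero {m : ℝ} {F : Pt → ℝ} (hF : IsSym m F) : SK 0 m (F ∘ Ps ψ) := by
  obtain ⟨C, hC0, hC⟩ := isSym_bd l0 hF
  obtain ⟨L, -, hL⟩ := shift l0 hψ m
  refine ⟨(isSym_cd hF).comp (Ps_cd hψ), C * L, fun y _ => (hC _).trans ?_⟩
  have := hL y 1 zero_le_one le_rfl
  rw [one_smul] at this
  rw [mul_assoc]
  exact mul_le_mul_of_nonneg_left this hC0

theorem diff_zero {m : ℝ} {F : Pt → ℝ} (hF : IsSym m F) : SK 0 (m - 2) (F ∘ Ps ψ - F) := by
  choose C hC0 hC using fun a => isSym_bd l0 (hψ a)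
  choose D hD0 hD using fun a => isSym_bd l0 (isSym_pd l0 hF a)
  obtain ⟨L, -, hL⟩ := shift l0 hψ (m - 1)
  refine ⟨((isSym_cd hF).comp (Ps_cd hψ)).sub (isSym_cd hF), ∑ a, C a * D a * L, fun y _ => ?_⟩
  obtain ⟨t, h0, h1, h⟩ := mvt (isSym_cd hF) y fun a => ψ a y
  change |F (y + fun a => ψ a y) - F y| ≤ _
  rw [h, Finset.sum_mul]
  refine (Finset.abs_sum_le_sum_abs _ _).trans (Finset.sum_le_sum fun a _ => ?_)
  have h2 := (hD a _).trans (mul_le_mul_of_nonneg_left (hL y t h0.le h1.le) (hD0 a))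
  have h3 : wt (m - 2) y = wt (-1) y * wt (m - 1) y := by
    rw [← l0.wt_add]
    congr 1
    ring
  rw [abs_mul, h3]
  calc _ ≤ C a * wt (-1) y * (D a * (L * wt (m - 1) y)) :=
        mul_le_mul (hC a y) h2 (abs_nonneg _) (mul_nonneg (hC0 a) (l0.wt_pos _ _).le)
    _ = _ := by ring

include b1

theorem comp_sk (k : ℕ) : ∀ {m : ℝ} {F : Pt → ℝ}, IsSym m F → SK k m (F ∘ Ps ψ) := by
  induction k with
  | zero => exact comp_zero l0 hψ
  | succ k ih =>
    intro m F hF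
    refine (comp_zero l0 hψ hF).succ l0 fun i => ?_
    rw [pd_comp b1 hψ (isSym_cd hF)]
    refine (ih (isSym_pd l0 hF i)).add l0 (SK.sum l0 fun a => ?_)
    exact ((ih (isSym_pd l0 hF a)).mul l0 (SK.of (isSym_pd l0 (hψ a) i) k)).mono l0 (by linarith)

theorem diff_sk (k : ℕ) : ∀ {m : ℝ} {F : Pt → ℝ}, IsSym m F → SK k (m - 2) (F ∘ Ps ψ - F) := by
  induction k with
  | zero => exact diff_zero l0 hψ
  | succ k ih =>
    intro m F hF
    refine (diff_zero l0 hψ hF).succ l0 fun i => ?_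
    rw [pd_sub ((isSym_cd hF).comp (Ps_cd hψ)) (isSym_cd hF), pd_comp b1 hψ (isSym_cd hF),
      add_sub_right_comm]
    refine ((ih (isSym_pd l0 hF i)).mono l0 (by linarith)).add l0 (SK.sum l0 fun a => ?_)
    exact ((comp_sk b1 l0 hψ k (isSym_pd l0 hF a)).mul l0
      (SK.of (isSym_pd l0 (hψ a) i) k)).mono l0 (by linarith)

end Comp

/-- The Jacobian of `id + ψ`. -/
noncomputable def Jf (ψ : Fin 4 → Pt → ℝ) (a i : Fin 4) (y : Pt) : ℝ :=
  (if a = i then 1 else 0) + pd i (ψ a) y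

/-- The pull-back of `g` by `id + ψ`. -/
noncomputable def pull (g : Pt → Mat) (ψ : Fin 4 → Pt → ℝ) (y : Pt) : Mat :=
  Matrix.of fun i j => ∑ a, ∑ b, Jf ψ a i y * Jf ψ b j y * g (Ps ψ y) a b

theorem qf_pull (g : Pt → Mat) (ψ : Fin 4 → Pt → ℝ) (y ξ : Pt) :
    qf (pull g ψ y) ξ = qf (g (Ps ψ y)) fun a => ξ a + ∑ i, pd i (ψ a) y * ξ i := by
  have h : ∀ a, ξ a + ∑ i, pd i (ψ a) y * ξ i = ∑ i, Jf ψ a i y * ξ i := by
    intro a
    simp [Jf, add_mul, Finset.sum_add_distrib]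
  simp only [h]
  simp only [qf, pull, Matrix.of_apply, Fin.sum_univ_four]
  ring

theorem pull_symm {g : Pt → Mat} (hg : ∀ y, (g y).IsSymm) (ψ : Fin 4 → Pt → ℝ) (y : Pt) :
    (pull g ψ y).IsSymm := by
  ext i j
  simp only [pull, Matrix.transpose_apply, Matrix.of_apply]
  rw [Finset.sum_comm]
  refine Finset.sum_congr rfl fun a _ => Finset.sum_congr rfl fun b _ => ?_
  rw [(hg _).apply a b]
  ring

theorem pull_sub (g : Pt → Mat) (ψ : Fin 4 → Pt → ℝ) (i j : Fin 4) :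
    gf (pull g ψ) i j - gf g i j = gf g i j ∘ Ps ψ - gf g i j +
      ∑ a, pd i (ψ a) * (gf g a j ∘ Ps ψ) + ∑ b, pd j (ψ b) * (gf g i b ∘ Ps ψ) +
      ∑ a, ∑ b, pd i (ψ a) * pd j (ψ b) * (gf g a b ∘ Ps ψ) := by
  funext y
  simp [gf, pull, Jf, add_mul, mul_add, Finset.sum_add_distrib]
  ring

theorem pull_sym (b1 : B1Stmt) (l0 : L0Facts) {ψ : Fin 4 → Pt → ℝ} (hψ : ∀ a, IsSym (-1) (ψ a))
    {g : Pt → Mat} (hg : ∀ a b, IsSym 0 (gf g a b)) (i j : Fin 4) (k : ℕ) :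
    SK k (-1 / 2) (gf (pull g ψ) i j - gf g i j) := by
  have hP := fun a i => SK.of (isSym_pd l0 (hψ a) i) k
  have hc := fun a b => comp_sk b1 l0 hψ k (hg a b)
  rw [pull_sub]
  refine ((((diff_sk b1 l0 hψ k (hg i j)).mono l0 (by norm_num)).add l0 (SK.sum l0 fun a => ?_)).add
    l0 (SK.sum l0 fun b => ?_)).add l0 (SK.sum l0 fun a => SK.sum l0 fun b => ?_)
  · exact ((hP a i).mul l0 (hc a j)).mono l0 (by norm_num)
  · exact ((hP b j).mul l0 (hc i b)).mono l0 (by norm_num)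
  · exact (((hP a i).mul l0 (hP b j)).mul l0 (hc a b)).mono l0 (by norm_num)

/-- Composition with a smooth map. -/
def compHom {Φ : Pt → Pt} (h : ContDiff ℝ ∞ Φ) : Sm 4 →ₐ[ℝ] Sm 4 where
  toFun f := ⟨f.1 ∘ Φ, (Sm.cd f).comp h⟩
  map_one' := rfl
  map_mul' _ _ := rfl
  map_zero' := rfl
  map_add' _ _ := rfl
  commutes' _ := rfl

theorem det_ne {ψ : Fin 4 → Pt → ℝ} (hP : ∀ y a i, |pd i (ψ a) y| ≤ 1 / 8) (y : Pt) :
    (Matrix.of fun a i => Jf ψ a i y).det ≠ 0 := by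
  intro h
  obtain ⟨ξ, h0, h1⟩ := Matrix.exists_mulVec_eq_zero_iff.2 h
  have h2 := jac_low (fun a i => pd i (ψ a) y) (hP y) ξ
  have h3 : (fun a => ξ a + ∑ i, pd i (ψ a) y * ξ i) = 0 := by
    rw [← h1]
    funext a
    simp [Jf, Matrix.mulVec, dotProduct, add_mul, Finset.sum_add_distrib]
  rw [h3] at h2
  obtain ⟨i, hi⟩ := Function.ne_iff.1 h0
  have h4 : 0 < nsq ξ :=
    Finset.sum_pos' (fun _ _ => sq_nonneg _) ⟨i, Finset.mem_univ _, sq_pos_of_ne_zero hi⟩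
  simp only [nsq, Pi.zero_apply] at h2 h4
  simp at h2
  linarith

theorem natural (b1 : B1Stmt) (l0 : L0Facts) (t6 : T6Stmt) {ψ : Fin 4 → Pt → ℝ}
    (hψ : ∀ a, IsSym (-1) (ψ a)) (hP : ∀ y a i, |pd i (ψ a) y| ≤ 1 / 8) {g : Pt → Mat}
    (hg : IsMetricOn g Set.univ) {f : Pt → ℝ} (hf : ContDiff ℝ ∞ f) :
    (∀ i j, ContDiff ℝ ∞ (gf (pull g ψ) i j)) ∧ (∀ y, Scal (pull g ψ) y = Scal g (Ps ψ y)) ∧
    ((∀ y i j, Ric g i j y + Hess g f i j y + g y i j / 2 = 0) → ∀ y i j,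
      Ric (pull g ψ) i j y + Hess (pull g ψ) (f ∘ Ps ψ) i j y + pull g ψ y i j / 2 = 0) := by
  obtain ⟨gS, GS, hm, hv⟩ := exists_met hg
  let J : Matrix (Fin 4) (Fin 4) (Sm 4) := Matrix.of fun a i =>
    ⟨Jf ψ a i, contDiff_const.add (isSym_cd (isSym_pd l0 (hψ a) i))⟩
  obtain ⟨K, h1, h2⟩ := exists_inv J (det_ne hP)
  let π := compHom (Ps_cd hψ)
  have hJ : ∀ a i, J a i = smD i ⟨fun q => Ps ψ q a, contDiff_pi.1 (Ps_cd hψ) a⟩ :=
    fun a i => Subtype.ext (funext fun y => (pd_Ps hψ a i y).symm)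
  have hT := t6 (Sm 4) (Sm 4) (Fin 4) smD smD π J K gS GS isDer_smD isDer_smD
    (fun i F => ext_ev fun y => by
      have := (b1 4).chain ((Ps_cd hψ).differentiable (by simp) y) (Sm.da F _) i
      simp only [map_sum, map_mul, ev_apply, hJ]
      exact this.trans (Finset.sum_congr rfl fun a _ => mul_comm _ _))
    (fun a i j => by rw [hJ, hJ, isDer_smD.comm])
    (fun a b => by rw [← Matrix.one_apply, ← h1, Matrix.mul_apply])
    (fun a b => by rw [← Matrix.one_apply, ← h2, Matrix.mul_apply]) hm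
  have hpull : ∀ (t : Fin 4 → Fin 4 → Sm 4) i j y, (gPull2 J (fun a b => π (t a b)) i j).1 y =
      ∑ a, ∑ b, Jf ψ a i y * Jf ψ b j y * (t a b).1 (Ps ψ y) := by
    intro t i j y
    change ev y (gPull2 J (fun a b => π (t a b)) i j) = _
    simp only [gPull2, map_sum, map_mul]
    rfl
  have hv' : ∀ i j, (gPull2 J (fun a b => π (gS a b)) i j).1 = gf (pull g ψ) i j := by
    intro i j
    funext y
    rw [hpull]
    simp only [hv]
    rfl
  refine ⟨fun i j => hv' i j ▸ Sm.cd _, fun y => ?_, fun hs y i j => ?_⟩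
  · rw [← val_scal hT.met hv', hT.scal, ← val_scal hm hv]
    rfl
  · have e1 := congrFun (congrFun (congrFun (val_ric hT.met hv') i) j) y
    have e2 := congrFun (val_hess hT.met hv' (π ⟨f, hf⟩) i j) y
    rw [hT.ric] at e1
    rw [hT.hess] at e2
    change _ = Hess (pull g ψ) (f ∘ Ps ψ) i j y at e2
    rw [← e1, ← e2, Subalgebra.coe_val, hpull, hpull]
    simp only [pull, Matrix.of_apply, Finset.sum_div, ← Finset.sum_add_distrib]
    refine Finset.sum_eq_zero fun a _ => Finset.sum_eq_zero fun b _ => ?_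
    have e3 := congrFun (congrFun (congrFun (val_ric hm hv) a) b) (Ps ψ y)
    have e4 := congrFun (val_hess hm hv ⟨f, hf⟩ a b) (Ps ψ y)
    rw [Subalgebra.coe_val] at e3 e4
    rw [e3, e4]
    linear_combination Jf ψ a i y * Jf ψ b j y * hs (Ps ψ y) a b

theorem soliton (t5 : T5Stmt) {g : Pt → Mat} (hg : IsMetricOn g Set.univ) {f : Pt → ℝ}
    (hf : ContDiff ℝ ∞ f) {V : Fin 4 → Pt → ℝ} (hV : ∀ k, ContDiff ℝ ∞ (V k))
    (h : ∀ y i, pd i f y = ∑ k, g y i k * V k y) (he : ∀ a b, errF g V a b = 0) (y : Pt)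
    (i j : Fin 4) : Ric g i j y + Hess g f i j y + g y i j / 2 = 0 := by
  obtain ⟨gS, GS, hm, hv⟩ := exists_met hg
  have h1 := (t5 (Sm 4) (Fin 4) smD gS GS isDer_smD hm).grad (fun k => ⟨V k, hV k⟩) ⟨f, hf⟩
    (fun i => ext_ev fun y => by
      simp only [map_sum, map_mul, ev_apply, hv]
      exact h y i) i j
  have h2 := congrFun (congrArg (Sm 4).val h1) y
  rw [val_err hm hv, he, map_add, map_add, map_smul, val_hess hm hv,
    congrFun (congrFun (val_ric hm hv) i) j, Subalgebra.coe_val, hv] at h2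
  simp only [Pi.zero_apply, Pi.add_apply, Pi.smul_apply, smul_eq_mul, gf] at h2
  linarith

end FinA

open FinA in
theorem fin (b1 : B1Stmt) (l0 : L0Facts) (m0 : M0Stmt) (t5 : T5Stmt) (t6 : T6Stmt) (fr : FrStmt)
    (fth : FthStmt) (fw : FwStmt) (fpsi : FpsiStmt) (asy : AsyStmt) : FinStmt := by
  intro g U γ w hs hγ hγ0 hgγ hw hw1 hw2
  have hR := fr g U γ w hs hγ hγ0 hgγ hw hw1 hw2
  obtain ⟨τ, hτ, hτ'⟩ := fth g U hs
  have hgr := fw g U γ τ hs hγ hgγ hτ hτ'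
  obtain ⟨ψ, R, hψ, hψ0, hP, hc⟩ := fpsi U hs.U_sym
  obtain ⟨c, c0, hell⟩ := hs.ell
  have hg : IsMetricOn g Set.univ := ⟨fun i j => (isSym_cd (hs.sym i j)).contDiffOn,
    fun y _ => posDef (hs.symm y) c0 (hell y)⟩
  have hf : ContDiff ℝ ∞ fun y => -(nsq y / 4 + τ y) := by
    have := isSym_cd hτ
    unfold nsq
    fun_prop
  have hV : ∀ k, ContDiff ℝ ∞ (Vf U k) := fun k =>
    ((contDiff_apply ℝ ℝ k).const_smul (-1 / 2 : ℝ)).add (isSym_cd (hs.U_sym k))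
  obtain ⟨n1, n2, n3⟩ := natural b1 l0 t6 hψ hP hg hf
  have hell' : ∀ y ξ, c / 4 * nsq ξ ≤ qf (pull g ψ y) ξ := by
    intro y ξ
    rw [qf_pull]
    refine le_trans ?_ (hell _ _)
    have := jac_low (fun a i => pd i (ψ a) y) (hP y) ξ
    nlinarith
  have hg' : IsMetricOn (pull g ψ) Set.univ := ⟨fun i j => (n1 i j).contDiffOn,
    fun y _ => posDef (pull_symm hs.symm ψ y) (by positivity) (hell' y)⟩
  refine ⟨pull g ψ, _ ∘ Ps ψ, ⟨hg', hf.comp (Ps_cd hψ), asy.2.2.1 _ _ hg' (by positivity) hell',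
    n3 (soliton t5 hg hf hV hgr hs.err), ⟨√R, fun y hy i => ?_⟩, asy.1 _ _ hγ fun a b => ?_⟩,
    fun y => n2 y ▸ hR _, fun y => ⟨_, n2 y⟩, ?_⟩
  · have hy' : R < nsq y := lt_of_not_ge fun h => hy.not_ge (Real.sqrt_le_sqrt h)
    have hVy : ∀ k, Vf U k (Ps ψ y) = ∑ l, Jf ψ k l y * (-(y l) / 2) := by
      intro k
      refine (hc y hy' k).symm.trans ?_
      simp only [Jf, rad, add_mul, Finset.sum_add_distrib, ite_mul, one_mul, zero_mul,
        Finset.sum_ite_eq, Finset.mem_univ, if_true, Fin.sum_univ_four]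
      ring
    have hd : ∀ j, pd j ((fun y => -(nsq y / 4 + τ y)) ∘ Ps ψ) y =
        ∑ l, pull g ψ y j l * (-(y l) / 2) := by
      intro j
      have := (b1 4).chain ((Ps_cd hψ).differentiable (by simp) y)
        (hf.differentiable (by simp) _) j
      rw [← pd_eq_pdn] at this
      rw [this]
      simp only [hgr, hVy, pd_Ps hψ]
      change ∑ a, _ * Jf ψ a j y = _
      simp only [pull, Matrix.of_apply, Fin.sum_univ_four]
      ring
    have h1 := congrFun (Matrix.mulVec_mulVec (fun l => -(y l) / 2) (pull g ψ y)⁻¹ (pull g ψ y)) i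
    rw [Matrix.nonsing_inv_mul _ (hg'.2 y trivial).det_pos.ne'.isUnit, Matrix.one_mulVec] at h1
    simp only [hd]
    exact h1
  · have ho : IsOpen ext1 := isOpen_lt continuous_const (by unfold nsq; fun_prop)
    have h1 : IsSymOn ext1 (-1 / 2) (gf (pull g ψ) a b - gf g a b) :=
      ⟨fun y _ => (pull_sym b1 l0 hψ hs.sym a b 0).1.contDiffAt, fun k => by
        obtain ⟨C, hC⟩ := (pull_sym b1 l0 hψ hs.sym a b k).2
        exact ⟨C, l0.mono hC (Set.subset_univ _) le_rfl le_rfl le_rfl⟩⟩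
    have h2 := (m0.2 ext1 0 ho le_rfl).1.add (d := 0) (j := 0) h1 (hgγ a b)
    rwa [sub_add_sub_cancel] at h2
  · rw [n2]
    congr 1
    funext a
    simp [Ps, hψ0 0 (by simp [nsq]) a]

end Pool.Agent.Lib.MP_df9110_gt
end

-- part Pool.Agent.Lib.MP_df9110_gt.Fpsi
section

/-! Conjugation of `-y/2 + U` to `-y/2` near infinity. -/

namespace Pool.Agent.Lib.MP_df9110_gt

open Filter Topology MeasureTheory Set
open scoped ContDiff

namespace Fpsi

/-- The inverse radius. -/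
noncomputable def ρ (y : Pt) : ℝ := (√(nsq y))⁻¹

/-- The exterior domain. -/
def O (R : ℝ) : Set Pt := {y | R < nsq y}

theorem cont_nsq : Continuous nsq := by unfold nsq; fun_prop

theorem open_O (R : ℝ) : IsOpen (O R) := isOpen_lt continuous_const cont_nsq

theorem nsq_nonneg (y : Pt) : 0 ≤ nsq y := Finset.sum_nonneg fun _ _ => sq_nonneg _

theorem nsq_smul (t : ℝ) (y : Pt) : nsq (t • y) = t ^ 2 * nsq y := by
  simp [nsq, mul_pow, Finset.mul_sum]

theorem ρ_nonneg (y : Pt) : 0 ≤ ρ y := inv_nonneg.2 (Real.sqrt_nonneg _)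

theorem ρ_smul {t : ℝ} (ht : 0 < t) (y : Pt) : ρ (t • y) = t⁻¹ * ρ y := by
  rw [ρ, nsq_smul, Real.sqrt_mul (sq_nonneg t), Real.sqrt_sq ht.le, mul_inv, ρ]

theorem ρ_sq (y : Pt) : ρ y * ρ y = (nsq y)⁻¹ := by
  rw [ρ, ← mul_inv, Real.mul_self_sqrt (nsq_nonneg y)]

theorem ρ_sq_le {R : ℝ} (hR : 1 ≤ R) {y : Pt} (hy : y ∈ O R) : ρ y * ρ y ≤ R⁻¹ := by
  rw [ρ_sq]; exact inv_anti₀ (by linarith) (le_of_lt hy)

theorem ρ_le_one {R : ℝ} (hR : 1 ≤ R) {y : Pt} (hy : y ∈ O R) : ρ y ≤ 1 :=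
  inv_le_one_of_one_le₀ (Real.one_le_sqrt.2 (hR.trans (le_of_lt hy)))

theorem smul_mem {R s t : ℝ} (_hR : 1 ≤ R) {y : Pt} (hs : 0 < s) (hy : s • y ∈ O R) (ht : s ≤ t) :
    t • y ∈ O R := by
  have h1 : R < s ^ 2 * nsq y := by rw [← nsq_smul]; exact hy
  change R < nsq (t • y)
  rw [nsq_smul]
  exact h1.trans_le (mul_le_mul_of_nonneg_right (by gcongr) (nsq_nonneg y))

theorem smul_mem1 {R t : ℝ} (hR : 1 ≤ R) {y : Pt} (hy : y ∈ O R) (ht : 1 ≤ t) : t • y ∈ O R :=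
  smul_mem hR one_pos (by rwa [one_smul]) ht

theorem wt_neg (y : Pt) : wt (-1) y = (√(1 + nsq y))⁻¹ := by
  rw [wt, Real.sqrt_eq_rpow, ← Real.rpow_neg (by linarith [nsq_nonneg y])]
  norm_num

theorem wt_near {y z : Pt} (hy : 0 < nsq y) (h : ∀ b, |z b - y b| ≤ 1 / 2) :
    wt (-1) z ≤ 2 * ρ y := by
  have h1 : nsq y ≤ 2 ^ 2 * (1 + nsq z) := by
    have := fun b => sq_le_sq' (abs_le.1 (h b)).1 (abs_le.1 (h b)).2
    have h0 := this 0
    have h1 := this 1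
    have h2 := this 2
    have h3 := this 3
    simp only [nsq, Fin.sum_univ_four]
    nlinarith [sq_nonneg (2 * z 0 - y 0), sq_nonneg (2 * z 1 - y 1), sq_nonneg (2 * z 2 - y 2),
      sq_nonneg (2 * z 3 - y 3), sq_nonneg (z 0), sq_nonneg (z 1), sq_nonneg (z 2), sq_nonneg (z 3)]
  have h2 := Real.sqrt_le_sqrt h1
  rw [Real.sqrt_mul (by norm_num), Real.sqrt_sq (by norm_num)] at h2
  have h3 := Real.sqrt_pos.2 hy
  rw [wt_neg, ρ, ← div_eq_mul_inv, inv_eq_one_div, div_le_div_iff₀ (by linarith) h3]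
  linarith

theorem ρ_le_wt {y : Pt} (hy : 1 ≤ nsq y) : ρ y ≤ 2 * wt (-1) y := by
  have h2 := Real.sqrt_le_sqrt (show 1 + nsq y ≤ 2 ^ 2 * nsq y by linarith)
  rw [Real.sqrt_mul (by norm_num), Real.sqrt_sq (by norm_num)] at h2
  have h3 := Real.sqrt_pos.2 (show 0 < nsq y by linarith)
  have h4 := Real.sqrt_pos.2 (show 0 < 1 + nsq y by linarith)
  rw [wt_neg, ρ, ← div_eq_mul_inv, inv_eq_one_div, div_le_div_iff₀ h3 h4]
  linarith

theorem cast {r a a' : ℝ} {k : ℕ} {f : Pt → ℝ} {p : Pt} (h : WB r k a f p) (e : a = a') :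
    WB r k a' f p := e ▸ h

theorem WB_scale {c r : ℝ} (hc : 1 ≤ c) (k : ℕ) : ∀ {a : ℝ} {f : Pt → ℝ} {p : Pt},
    WB (c * r) k a f p → WB r k (c ^ k * a) f p := by
  induction k with
  | zero => intro a f p h; simpa [WB] using h
  | succ k ih =>
    intro a f p h
    refine ⟨h.1.trans (le_mul_of_one_le_left ((abs_nonneg _).trans h.1) (one_le_pow₀ hc)),
      fun i => ?_⟩
    exact cast (ih (h.2 i)) (by ring)

theorem WB_dil (b1 : B1Facts 4) {t r : ℝ} (ht : 0 < t) (k : ℕ) : ∀ {a : ℝ} {g : Pt → ℝ} {p : Pt},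
    ContDiffAt ℝ ∞ g (t • p) → WB r k a g (t • p) → WB (t * r) k a (fun q => g (t • q)) p := by
  induction k with
  | zero => intro a g p _ h; exact h
  | succ k ih =>
    intro a g p hg h
    refine ⟨h.1, fun i => ?_⟩
    have e : pdn i (fun q => g (t • q)) = t • fun q => pdn i g (t • q) := by
      funext q; simp [pdn, fderiv_comp_smul]
    have h1 := b1.smul t ((contDiffAt_pdn hg i).comp p (contDiffAt_id.const_smul t))
      (ih (contDiffAt_pdn hg i) (h.2 i))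
    rw [e]
    exact cast h1 (by rw [abs_of_pos ht]; ring)

/-- Smoothness on the exterior domain. -/
def Sm (R : ℝ) (g : Pt → ℝ) : Prop := ∀ y ∈ O R, ContDiffAt ℝ ∞ g y

/-- Homogeneous bounds. -/
def P (R : ℝ) (k : ℕ) (C : ℝ) (g : Pt → ℝ) : Prop := ∀ y ∈ O R, WB (ρ y) k (C * ρ y) g y

/-- The integral operator. -/
noncomputable def I (g : Pt → ℝ) (y : Pt) : ℝ := ∫ t in Ioi (1 : ℝ), 2 * (t ^ 2)⁻¹ * g (t • y)

theorem rp3 {t : ℝ} (ht : 0 < t) : t ^ (-3 : ℝ) = (t ^ 3)⁻¹ := by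
  rw [Real.rpow_neg ht.le]; norm_cast

theorem ig3 {s : ℝ} (hs : 0 < s) (c : ℝ) : IntegrableOn (fun t : ℝ => c * t ^ (-3 : ℝ)) (Ioi s) :=
  (integrableOn_Ioi_rpow_of_lt (by norm_num) hs).const_mul c

theorem int3 : ∫ t in Ioi (1 : ℝ), t ^ (-3 : ℝ) = 1 / 2 := by
  rw [integral_Ioi_rpow_of_lt (by norm_num) one_pos]; norm_num

section Int

variable (b1 : B1Facts 4) {R : ℝ} (hR : 1 ≤ R) {g : Pt → ℝ}
include hR

theorem contOn (hg : Sm R g) {s : ℝ} {y : Pt} (hs : 0 < s) (hy : s • y ∈ O R) :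
    ContinuousOn (fun t : ℝ => 2 * (t ^ 2)⁻¹ * g (t • y)) (Ioi s) := fun t ht => by
  have h0 : t ^ 2 ≠ 0 := (pow_pos (hs.trans ht) 2).ne'
  have h1 : ContinuousAt (fun t : ℝ => g (t • y)) t :=
    ContinuousAt.comp (f := fun t : ℝ => t • y) (hg _ (smul_mem hR hs hy ht.le)).continuousAt
      (by fun_prop)
  exact ((continuousAt_const.mul ((continuousAt_id.pow 2).inv₀ h0)).mul h1).continuousWithinAt

theorem bd {C s t : ℝ} (h : P R 0 C g) {y : Pt} (hs : 0 < s) (hy : s • y ∈ O R) (ht : s < t) :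
    ‖2 * (t ^ 2)⁻¹ * g (t • y)‖ ≤ 2 * (C * ρ y) * t ^ (-3 : ℝ) := by
  have h0 := hs.trans ht
  have h1 : |g (t • y)| ≤ C * ρ (t • y) := h _ (smul_mem hR hs hy ht.le)
  rw [ρ_smul h0] at h1
  rw [Real.norm_eq_abs, abs_mul, abs_of_pos (by positivity), rp3 h0]
  refine (mul_le_mul_of_nonneg_left h1 (by positivity)).trans_eq ?_
  field_simp

theorem integ {C s : ℝ} (hg : Sm R g) (h : P R 0 C g) {y : Pt} (hs : 0 < s) (hy : s • y ∈ O R) :
    IntegrableOn (fun t : ℝ => 2 * (t ^ 2)⁻¹ * g (t • y)) (Ioi s) :=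
  Integrable.mono' (ig3 hs (2 * (C * ρ y)))
    ((contOn hR hg hs hy).aestronglyMeasurable measurableSet_Ioi)
    ((ae_restrict_iff' measurableSet_Ioi).2 (Eventually.of_forall fun _ ht => bd hR h hs hy ht))

theorem I_sub {g' : Pt → ℝ} {C C' d : ℝ} (hg : Sm R g) (h : P R 0 C g) (hg' : Sm R g')
    (h' : P R 0 C' g') (hd : P R 0 d (g - g')) : P R 0 d (I g - I g') := fun y hy => by
  have hy1 : (1 : ℝ) • y ∈ O R := by rwa [one_smul]
  change |I g y - I g' y| ≤ _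
  rw [I, I, ← integral_sub (integ hR hg h one_pos hy1) (integ hR hg' h' one_pos hy1),
    ← Real.norm_eq_abs]
  refine (norm_integral_le_of_norm_le (ig3 one_pos (2 * (d * ρ y)))
    ((ae_restrict_iff' measurableSet_Ioi).2 (Eventually.of_forall fun t ht => ?_
      ))).trans_eq ?_
  · rw [← mul_sub]
    exact bd hR hd one_pos hy1 ht
  · rw [integral_const_mul, int3]; ring

include b1

theorem slice (hg : Sm R g) {k : ℕ} {C t : ℝ} (h : P R k C g) {y : Pt} (hy : y ∈ O R)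
    (ht : 1 < t) :
    WB (ρ y) k (2 * (C * ρ y) * t ^ (-3 : ℝ)) (fun q => 2 * (t ^ 2)⁻¹ * g (t • q)) y := by
  have h0 : 0 < t := one_pos.trans ht
  have h1 := hg _ (smul_mem1 hR hy ht.le)
  have h2 := b1.smul (2 * (t ^ 2)⁻¹) (h1.comp y (contDiffAt_id.const_smul t))
    (WB_dil b1 h0 k h1 (h _ (smul_mem1 hR hy ht.le)))
  rw [ρ_smul h0, mul_inv_cancel_left₀ h0.ne', abs_of_pos (by positivity)] at h2
  exact cast h2 (by rw [rp3 h0]; field_simp)

theorem I_good (pi1 : PI1Stmt) (hg : Sm R g) (hb : ∀ k, ∃ C, P R k C g) :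
    Sm R (I g) ∧ ∀ k C, P R k C g → P R k C (I g) := by
  have h := pi1 4 (Ioi 1) (O R) (fun t q => 2 * (t ^ 2)⁻¹ * g (t • q)) isOpen_Ioi (open_O R)
    (fun z hz => ?_) fun p hp k => ?_
  · refine ⟨h.1, fun k C hC y hy => ?_⟩
    have := h.2.2 y hy (ρ y) k _ (ig3 one_pos (2 * (C * ρ y))) fun t ht => slice b1 hR hg hC hy ht
    rw [integral_const_mul, int3] at this
    exact cast this (by ring)
  · have h0 : z.1 ^ 2 ≠ 0 := (pow_pos (one_pos.trans hz.1) 2).ne'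
    have h1 : ContDiffAt ℝ ∞ (fun z : ℝ × Pt => g (z.1 • z.2)) z :=
      ContDiffAt.comp (f := fun z : ℝ × Pt => z.1 • z.2) z (hg _ (smul_mem1 hR hz.2 hz.1.le))
        (contDiffAt_fst.smul contDiffAt_snd)
    exact ((contDiffAt_const.mul ((contDiffAt_fst.pow 2).inv h0)).mul h1).contDiffWithinAt
  · obtain ⟨C, hC⟩ := hb k
    refine ⟨fun t => 2 * |C| * t ^ (-3 : ℝ), ig3 one_pos _, ?_⟩
    filter_upwards [(open_O R).mem_nhds hp] with q hq t ht
    refine b1.mono (slice b1 hR hg hC hq ht) (ρ_nonneg q) (ρ_le_one hR hq) ?_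
    have h3 : 0 ≤ t ^ (-3 : ℝ) := Real.rpow_nonneg (one_pos.trans ht).le _
    have h4 : C * ρ q ≤ |C| := (mul_le_mul_of_nonneg_right (le_abs_self C) (ρ_nonneg q)).trans
      (mul_le_of_le_one_right (abs_nonneg C) (ρ_le_one hR hq))
    gcongr

omit b1 in
/-- The differential equation along rays. -/
theorem ode {ψ : Pt → ℝ} {C : ℝ} (hg : Sm R g) (h : P R 0 C g) (hψ : Sm R ψ)
    (e : ∀ y ∈ O R, ψ y = I g y) {y : Pt} (hy : y ∈ O R) : rad ψ y = ψ y - 2 * g y := by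
  have hO : ∀ᶠ s in 𝓝 (1 : ℝ), s • y ∈ O R :=
    ContinuousAt.eventually_mem (f := fun s : ℝ => s • y) (by fun_prop)
      (by rw [one_smul]; exact (open_O R).mem_nhds hy)
  obtain ⟨s₀, ⟨hs₀, h0⟩, h1 : s₀ < 1⟩ := (((hO.and (lt_mem_nhds one_pos)).filter_mono
    nhdsWithin_le_nhds).and (self_mem_nhdsWithin (a := (1 : ℝ)) (s := Iio 1))).exists
  set H : ℝ → ℝ := fun t => 2 * (t ^ 2)⁻¹ * g (t • y) with hH
  have hi := integ hR hg h h0 hs₀
  have hc := contOn hR hg h0 hs₀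
  have d1 : HasDerivAt (fun u => ∫ t in s₀..u, H t) (H 1) 1 :=
    intervalIntegral.integral_hasDerivAt_right
      ((intervalIntegrable_iff_integrableOn_Ioc_of_le h1.le).2 (hi.mono_set Ioc_subset_Ioi_self))
      (hc.stronglyMeasurableAtFilter isOpen_Ioi 1 h1) (hc.continuousAt (Ioi_mem_nhds h1))
  have e1 : ∀ s, s₀ < s → ψ (s • y) = s * ((∫ t in Ioi s₀, H t) - ∫ t in s₀..s, H t) := by
    intro s hs
    have hs0 := h0.trans hs
    rw [← intervalIntegral.integral_Ioi_sub_Ioi hi hs.le, sub_sub_cancel,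
      e _ (smul_mem hR h0 hs₀ hs.le), I]
    have e2 := integral_comp_mul_left_Ioi H 1 hs0
    rw [mul_one, smul_eq_mul] at e2
    rw [show ∫ t in Ioi s, H t = s * ∫ t in Ioi 1, H (s * t) by rw [e2]; field_simp,
      ← mul_assoc, ← integral_const_mul]
    refine setIntegral_congr_fun measurableSet_Ioi fun t ht => ?_
    have ht0 : t ≠ 0 := (one_pos.trans ht).ne'
    simp only [hH, smul_smul, mul_comm t s]
    field_simp
  have d2 : HasDerivAt (fun s : ℝ => ψ (s • y)) _ 1 :=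
    ((hasDerivAt_id (1 : ℝ)).mul (d1.const_sub (∫ t in Ioi s₀, H t))).congr_of_eventuallyEq
      (by filter_upwards [Ioi_mem_nhds h1] with s hs using e1 s hs)
  have d3 : HasDerivAt (fun s : ℝ => ψ (s • y)) (fderiv ℝ ψ y y) 1 := by
    have h2 : HasFDerivAt ψ (fderiv ℝ ψ y) ((1 : ℝ) • y) := by
      rw [one_smul]; exact ((hψ y hy).differentiableAt (by simp)).hasFDerivAt
    have h3 := h2.comp_hasDerivAt (f := fun s : ℝ => s • y) (1 : ℝ)
      ((hasDerivAt_id (1 : ℝ)).smul_const y)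
    rw [one_smul] at h3
    exact h3
  have e3 : rad ψ y = fderiv ℝ ψ y y := by
    rw [show fderiv ℝ ψ y y = fderiv ℝ ψ y (∑ c, Pi.single c (y c)) by
      rw [Finset.univ_sum_single], map_sum]
    refine Finset.sum_congr rfl fun c _ => ?_
    rw [pd, ← smul_eq_mul, ← map_smul, ← Pi.single_smul', smul_eq_mul, mul_one]
  have e4 := e1 1 h1
  rw [one_smul] at e4
  rw [e3, d3.unique d2, e4]
  simp [hH]
  ring

end Int

theorem unif {U : Fin 4 → Pt → ℝ} (b1 : B1Facts 4) (h : ∀ k, IsSym (-1) (U k)) (k : ℕ) :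
    ∃ C, 0 ≤ C ∧ ∀ a z, WB (wt (-1) z) k (C * wt (-1) z) (U a) z := by
  choose C hC using fun a => (h a).2 k
  have hw : ∀ z, 0 ≤ wt (-1) z := fun z => by rw [wt_neg]; positivity
  refine ⟨∑ a, |C a|, Finset.sum_nonneg fun _ _ => abs_nonneg _, fun a z =>
    b1.mono (hC a z trivial) (hw z) le_rfl (mul_le_mul_of_nonneg_right ?_ (hw z))⟩
  exact (le_abs_self _).trans (Finset.single_le_sum (f := fun a => |C a|)
    (fun _ _ => abs_nonneg _) (Finset.mem_univ a))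

theorem top (b1 : B1Facts 4) {r a b b' A : ℝ} {f g : Pt → ℝ} {p : Pt} (k : ℕ) (i : Fin 4)
    (hf : ContDiffAt ℝ ∞ f p) (hg : ContDiffAt ℝ ∞ g p) (hr : 0 ≤ r) (hA : |f p| ≤ A)
    (h1 : WB r k a f p) (h2 : WB r k b g p) (h3 : WB r (k + 1) b' g p) :
    WB r k (A * (b' * r) + 2 ^ k * a * (b * r)) (f * pdn i g) p := by
  cases k with
  | zero =>
    have h4 : |pdn i g p| ≤ b' * r := h3.2 i
    have h5 : 0 ≤ a := (abs_nonneg _).trans h1
    have h6 : 0 ≤ b := (abs_nonneg _).trans h2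
    change |f p * pdn i g p| ≤ _
    rw [abs_mul]
    exact (mul_le_mul hA h4 (abs_nonneg _) ((abs_nonneg _).trans hA)).trans
      (le_add_of_nonneg_right (by positivity))
  | succ k => exact b1.mul_top hf (contDiffAt_pdn hg i) hr hA h1 (h2.2 i) (h3.2 i)

/-- The map `y + ψ y`. -/
def Φ (ψ : Fin 4 → Pt → ℝ) (y : Pt) : Pt := fun b => y b + ψ b y

theorem cdΦ {ψ : Fin 4 → Pt → ℝ} {y : Pt} (h : ∀ b, ContDiffAt ℝ ∞ (ψ b) y) :
    ContDiffAt ℝ ∞ (Φ ψ) y :=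
  contDiffAt_pi.2 fun b => (contDiffAt_apply ℝ ℝ b y).add (h b)

theorem pdΦ {ψ : Fin 4 → Pt → ℝ} {y : Pt} (h : ∀ b, ContDiffAt ℝ ∞ (ψ b) y) (i j : Fin 4) :
    pdn i (fun q => Φ ψ q j) y = (if j = i then 1 else 0) + pdn i (ψ j) y := by
  have h1 : HasFDerivAt (fun q : Pt => q j) (ContinuousLinearMap.proj j : Pt →L[ℝ] ℝ) y :=
    hasFDerivAt_apply j y
  have h2 := pdn_add h1.differentiableAt ((h j).differentiableAt (by simp)) i
  refine h2.trans ?_
  rw [pdn, h1.fderiv, ContinuousLinearMap.proj_apply, Pi.single_apply]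

/-- The data of the fixed point problem. -/
structure Dat (U : Fin 4 → Pt → ℝ) (c : ℕ → ℝ) (R : ℝ) : Prop where
  sm : ∀ a z, ContDiffAt ℝ ∞ (U a) z
  nn : ∀ k, 0 ≤ c k
  bd : ∀ k a z, WB (wt (-1) z) k (c k * wt (-1) z) (U a) z
  one : 1 ≤ R
  s0 : ∀ y ∈ O R, 4 * c 0 * ρ y ≤ 1
  s1 : ∀ y ∈ O R, 32 * c 1 * ρ y ≤ 1

/-- The admissible maps. -/
structure Gd (c : ℕ → ℝ) (R : ℝ) (ψ : Fin 4 → Pt → ℝ) : Prop where
  sm : ∀ b, Sm R (ψ b)
  b0 : ∀ b, P R 0 (2 * c 0) (ψ b)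
  all : ∀ k, ∃ D, ∀ b, P R k D (ψ b)

section Fix

variable (b1 : B1Facts 4) {U : Fin 4 → Pt → ℝ} {c : ℕ → ℝ} {R : ℝ} (H : Dat U c R)
include H

theorem small {ψ : Fin 4 → Pt → ℝ} (h : Gd c R ψ) {y : Pt} (hy : y ∈ O R) (b : Fin 4) :
    |Φ ψ y b - y b| ≤ 1 / 2 := by
  have h1 : |ψ b y| ≤ 2 * c 0 * ρ y := h.b0 b y hy
  have := H.s0 y hy
  rw [Φ, add_sub_cancel_left]
  linarith

theorem near {y z : Pt} (hy : y ∈ O R) (h : ∀ b, |z b - y b| ≤ 1 / 2) :
    0 ≤ wt (-1) z ∧ wt (-1) z ≤ 2 * ρ y :=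
  ⟨by rw [wt_neg]; positivity, wt_near ((one_pos.trans_le H.one).trans hy) h⟩

theorem near2 {y z : Pt} (hy : y ∈ O R) (h : ∀ b, |z b - y b| ≤ 1 / 2) (k : ℕ) :
    c k * wt (-1) z * wt (-1) z ≤ 4 * c k * ρ y * ρ y := by
  obtain ⟨h1, h2⟩ := near H hy h
  have := H.nn k
  have h3 := mul_le_mul h2 h2 h1 (h1.trans h2)
  nlinarith

theorem grad {y z : Pt} (hy : y ∈ O R) (h : ∀ b, |z b - y b| ≤ 1 / 2) (a j : Fin 4) :
    |pdn j (U a) z| ≤ 1 / 8 := by
  have h1 : |pdn j (U a) z| ≤ _ := (H.bd 1 a z).2 j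
  have h2 := near2 H hy h 1
  have h3 := H.s1 y hy
  have h4 := ρ_le_one H.one hy
  have h5 := ρ_nonneg y
  have h6 := H.nn 1
  nlinarith [mul_nonneg h6 h5]

theorem lip {ψ ψ' : Fin 4 → Pt → ℝ} (h : Gd c R ψ) (h' : Gd c R ψ') {d : ℝ}
    (hd : ∀ b, P R 0 d (ψ b - ψ' b)) (a : Fin 4) :
    P R 0 (d / 2) (U a ∘ Φ ψ - U a ∘ Φ ψ') := fun y hy => by
  have hb : ∀ z : Pt, z ∈ Metric.closedBall y (1 / 2) ↔ ∀ b, |z b - y b| ≤ 1 / 2 := fun z => by
    rw [mem_closedBall_iff_norm, pi_norm_le_iff_of_nonneg (by norm_num)]; rfl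
  have h1 := (convex_closedBall y (1 / 2)).norm_image_sub_le_of_norm_fderiv_le (𝕜 := ℝ)
    (f := U a) (C := 1 / 2) (fun z _ => (H.sm a z).differentiableAt (by simp))
    (fun z hz => ?_) ((hb _).2 (small H h' hy)) ((hb _).2 (small H h hy))
  · have h2 : ‖Φ ψ y - Φ ψ' y‖ ≤ d * ρ y := by
      refine (pi_norm_le_iff_of_nonneg ((abs_nonneg _).trans (hd 0 y hy))).2 fun b => ?_
      have h3 : |ψ b y - ψ' b y| ≤ d * ρ y := hd b y hy
      simpa [Φ] using h3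
    change ‖U a (Φ ψ y) - U a (Φ ψ' y)‖ ≤ _
    linarith
  · refine ContinuousLinearMap.opNorm_le_bound _ (by norm_num) fun v => ?_
    rw [show fderiv ℝ (U a) z v = fderiv ℝ (U a) z (∑ j, Pi.single j (v j)) by
      rw [Finset.univ_sum_single], map_sum]
    refine (norm_sum_le_of_le _ (n := fun _ => 1 / 8 * ‖v‖) fun j _ => ?_).trans_eq
      (by simp; ring)
    rw [show (Pi.single j (v j) : Pt) = v j • Pi.single j 1 by
      rw [← Pi.single_smul', smul_eq_mul, mul_one], map_smul, norm_smul, mul_comm]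
    exact mul_le_mul (grad H hy ((hb z).1 hz) a j) (norm_le_pi_norm v j) (norm_nonneg _)
      (by norm_num)

theorem G0 {ψ : Fin 4 → Pt → ℝ} (h : Gd c R ψ) (a : Fin 4) :
    Sm R (U a ∘ Φ ψ) ∧ P R 0 (2 * c 0) (U a ∘ Φ ψ) := by
  refine ⟨fun y hy => (H.sm a _).comp y (cdΦ fun b => h.sm b y hy), fun y hy => ?_⟩
  have h1 : |U a (Φ ψ y)| ≤ _ := H.bd 0 a (Φ ψ y)
  have h2 := mul_le_mul_of_nonneg_left (near H hy (small H h hy)).2 (H.nn 0)
  change |U a (Φ ψ y)| ≤ _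
  linarith

include b1

theorem Fbd (k : ℕ) (D : ℝ) (hD : 0 ≤ D) : ∃ E, 0 ≤ E ∧ ∀ ψ, Gd c R ψ → (∀ b, P R k D (ψ b)) →
    ∀ a j, ∀ y ∈ O R, WB (ρ y) k (E * ρ y * ρ y) (pdn j (U a) ∘ Φ ψ) y := by
  cases k with
  | zero =>
    exact ⟨4 * c 1, by linarith [H.nn 1], fun ψ h _ a j y hy =>
      le_trans ((H.bd 1 a (Φ ψ y)).2 j) (near2 H hy (small H h hy) 1)⟩
  | succ k =>
    obtain ⟨C, hC⟩ := b1.comp 4 k
    have h0 := H.nn (k + 2)
    refine ⟨|C| * (1 + 2 * (1 + D)) ^ (k + 1) * (4 * c (k + 2)), by positivity,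
      fun ψ h hP a j y hy => ?_⟩
    obtain ⟨h1, h2⟩ := near H hy (small H h hy)
    have h3 := ρ_nonneg y
    have h4 := ρ_le_one H.one hy
    have h5 := hC (r := ρ y) (τ := 1 + D) (c := 2 * (1 + D)) (cdΦ fun b => h.sm b y hy)
      (contDiffAt_pdn (H.sm a _) j) h3 h1 (by positivity) (by nlinarith)
      ((H.bd (k + 2) a (Φ ψ y)).2 j) fun j' i => ?_
    · refine b1.mono h5 h3 le_rfl ?_
      have h6 := near2 H hy (small H h hy) (k + 2)
      calc _ ≤ |C| * (1 + 2 * (1 + D)) ^ (k + 1) * (4 * c (k + 2) * ρ y * ρ y) := by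
            gcongr; exact le_abs_self C
        _ = _ := by ring
    · have h6 := b1.add contDiffAt_const (contDiffAt_pdn (h.sm j' y hy) i)
        (b1.const k (if j' = i then 1 else 0) y h3) ((hP j' y hy).2 i)
      refine b1.mono (b1.congr h6 ?_) h3 le_rfl (add_le_add (by split_ifs <;> simp) ?_)
      · filter_upwards [(open_O R).mem_nhds hy] with q hq
        exact (pdΦ (fun b => h.sm b q hq) i j').symm
      · nlinarith [mul_le_one₀ h4 h3 h4]

theorem step (k : ℕ) (D : ℝ) (hD : 0 ≤ D) : ∃ E, 0 ≤ E ∧ ∀ ψ D', Gd c R ψ →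
    (∀ b, P R k D (ψ b)) → (∀ b, P R (k + 1) D' (ψ b)) →
    ∀ a, P R (k + 1) (E + D' / 2) (U a ∘ Φ ψ) := by
  obtain ⟨E, hE, hF⟩ := Fbd b1 H k D hD
  have h0 := H.nn 0
  refine ⟨2 * c 0 + E + 4 * (2 ^ k * E * D), by positivity, fun ψ D' h hP hP' a y hy => ?_⟩
  have h3 := ρ_nonneg y
  have h4 := ρ_le_one H.one hy
  have hD' : 0 ≤ D' * ρ y := (abs_nonneg _).trans (hP' 0 y hy).1
  have hE' : 0 ≤ 2 ^ k * E * D := by positivity
  refine ⟨le_trans ((G0 H h a).2 y hy) (by nlinarith), fun i => ?_⟩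
  have s1 : ∀ j, ContDiffAt ℝ ∞ (pdn j (U a) ∘ Φ ψ) y := fun j =>
    (contDiffAt_pdn (H.sm a _) j).comp y (cdΦ fun b => h.sm b y hy)
  have s2 : ∀ j, ContDiffAt ℝ ∞ ((pdn j (U a) ∘ Φ ψ) * pdn i (ψ j)) y := fun j =>
    (s1 j).mul (contDiffAt_pdn (h.sm j y hy) i)
  have t := fun j => top b1 k i (s1 j) (h.sm j y hy) h3 (grad H hy (small H h hy) a j)
    (hF ψ h hP a j y hy) (hP j y hy) (hP' j y hy)
  have h5 := b1.add (s1 i) ((((s2 0).add (s2 1)).add (s2 2)).add (s2 3)) (hF ψ h hP a i y hy)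
    (b1.add (((s2 0).add (s2 1)).add (s2 2)) (s2 3) (b1.add ((s2 0).add (s2 1)) (s2 2)
      (b1.add (s2 0) (s2 1) (t 0) (t 1)) (t 2)) (t 3))
  refine b1.mono (b1.congr h5 ?_) h3 le_rfl ?_
  · filter_upwards [(open_O R).mem_nhds hy] with q hq
    rw [b1.chain ((cdΦ fun b => h.sm b q hq).differentiableAt (by simp))
      ((H.sm a _).differentiableAt (by simp))]
    simp only [pdΦ fun b => h.sm b q hq, mul_add, Finset.sum_add_distrib, mul_ite, mul_one,
      mul_zero, Finset.sum_ite_eq', Finset.mem_univ, if_true]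
    simp [Fin.sum_univ_four]
  · have h6 := mul_nonneg h3 h3
    have h7 := mul_le_mul_of_nonneg_left (mul_le_one₀ h4 h3 h4) (mul_nonneg hE' h6)
    nlinarith [mul_nonneg h0 h6]

theorem Gall {ψ : Fin 4 → Pt → ℝ} (h : Gd c R ψ) (k : ℕ) : ∃ D, ∀ a, P R k D (U a ∘ Φ ψ) := by
  cases k with
  | zero => exact ⟨_, fun a => (G0 H h a).2⟩
  | succ k =>
    obtain ⟨D, hD⟩ := h.all k
    obtain ⟨D', hD'⟩ := h.all (k + 1)
    obtain ⟨E, -, hE⟩ := step b1 H k |D| (abs_nonneg D)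
    exact ⟨_, hE ψ D' h (fun b y hy => b1.mono (hD b y hy) (ρ_nonneg y) le_rfl
      (mul_le_mul_of_nonneg_right (le_abs_self D) (ρ_nonneg y))) hD'⟩

theorem Tgd (pi1 : PI1Stmt) {ψ : Fin 4 → Pt → ℝ} (h : Gd c R ψ) :
    Gd c R (fun a => I (U a ∘ Φ ψ)) ∧
    ∀ k D a, P R k D (U a ∘ Φ ψ) → P R k D (I (U a ∘ Φ ψ)) := by
  have h1 := fun a => I_good b1 H.one pi1 (G0 H h a).1 fun k =>
    (Gall b1 H h k).imp fun _ hD => hD a
  exact ⟨⟨fun a => (h1 a).1, fun a => (h1 a).2 _ _ (G0 H h a).2,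
    fun k => (Gall b1 H h k).imp fun D hD a => (h1 a).2 _ _ (hD a)⟩, fun k D a => (h1 a).2 k D⟩

theorem fix (pi1 : PI1Stmt) (sl : SLStmt) : ∃ ψ, Gd c R ψ ∧
    ∀ a, ∀ y ∈ O R, rad (ψ a) y = ψ a y - 2 * U a (Φ ψ y) := by
  set T : (Fin 4 → Pt → ℝ) → Fin 4 → Pt → ℝ := fun ψ a => I (U a ∘ Φ ψ) with hT
  have z : ∀ k D, 0 ≤ D → P R k D 0 := fun k D hD y _ =>
    b1.mono (b1.const k 0 y (ρ_nonneg y)) (ρ_nonneg y) le_rfl
      (by simpa using mul_nonneg hD (ρ_nonneg y))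
  have c0 : 0 ≤ 2 * c 0 := by linarith [H.nn 0]
  have gd : ∀ n, Gd c R (T^[n] 0) := fun n => by
    induction n with
    | zero => exact ⟨fun _ _ _ => contDiffAt_const, fun _ => z 0 _ c0,
        fun k => ⟨0, fun _ => z k 0 le_rfl⟩⟩
    | succ n ih => rw [Function.iterate_succ_apply']; exact (Tgd b1 H pi1 ih).1
  have un : ∀ k, ∃ D, 0 ≤ D ∧ ∀ n b, P R k D (T^[n] 0 b) := fun k => by
    induction k with
    | zero => exact ⟨_, c0, fun n => (gd n).b0⟩
    | succ k ih =>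
      obtain ⟨D, hD, h⟩ := ih
      obtain ⟨E, hE, hs⟩ := step b1 H k D hD
      refine ⟨2 * E, by positivity, fun n => ?_⟩
      induction n with
      | zero => exact fun _ => z _ _ (by positivity)
      | succ n ihn =>
        intro b
        rw [Function.iterate_succ_apply']
        have := hs _ _ (gd n) (h n) ihn b
        rw [show E + 2 * E / 2 = 2 * E by ring] at this
        exact (Tgd b1 H pi1 (gd n)).2 _ _ b this
  have ct : ∀ {ψ ψ' d}, Gd c R ψ → Gd c R ψ' → (∀ b, P R 0 d (ψ b - ψ' b)) →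
      ∀ a, P R 0 (d / 2) (T ψ a - T ψ' a) := fun h h' hd a =>
    I_sub H.one (G0 H h a).1 (G0 H h a).2 (G0 H h' a).1 (G0 H h' a).2 (lip H h h' hd a)
  have ge : ∀ n b, P R 0 (2 * c 0 / 2 ^ n) (T^[n] 0 b - T^[n + 1] 0 b) := fun n => by
    induction n with
    | zero =>
      intro b y hy
      have : |T^[1] 0 b y| ≤ _ := (gd 1).b0 b y hy
      change |0 - T^[1] 0 b y| ≤ _
      simpa using this
    | succ n ih =>
      have := ct (gd n) (gd (n + 1)) ih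
      rw [← Function.iterate_succ_apply' T, ← Function.iterate_succ_apply' T, div_div,
        ← pow_succ] at this
      exact this
  have ge' : ∀ b, ∀ y ∈ O R, ∀ n, dist (T^[n] 0 b y) (T^[n + 1] 0 b y) ≤
      4 * c 0 * ρ y / 2 / 2 ^ n := fun b y hy n =>
    le_trans (ge n b y hy) (le_of_eq (by ring))
  set ψ : Fin 4 → Pt → ℝ := fun b y => limUnder atTop fun n => T^[n] 0 b y
  have li : ∀ b, ∀ y ∈ O R, Tendsto (fun n => T^[n] 0 b y) atTop (𝓝 (ψ b y)) := fun b y hy =>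
    (cauchySeq_of_le_geometric_two (ge' b y hy)).tendsto_limUnder
  have s := fun b => (sl 4).1 (O R) (fun n => T^[n] 0 b) (ψ b) (open_O R)
    (fun n => (gd n).sm b) (fun p hp k => by
      obtain ⟨D, hD, h⟩ := un k
      refine ⟨D, ?_⟩
      filter_upwards [(open_O R).mem_nhds hp] with q hq n
      exact b1.mono (h n b q hq) (ρ_nonneg q) (ρ_le_one H.one hq)
        (mul_le_of_le_one_right hD (ρ_le_one H.one hq))) (li b)
  have g : Gd c R ψ := ⟨fun b => (s b).1,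
    fun b y hy => (s b).2.2.2 y hy _ _ _ fun n => (gd n).b0 b y hy,
    fun k => (un k).imp fun D h b y hy => (s b).2.2.2 y hy _ _ _ fun n => h.2 n b y hy⟩
  refine ⟨ψ, g, fun a y hy => ode H.one (G0 H g a).1 (G0 H g a).2 (g.sm a) (fun y hy => ?_) hy⟩
  have h1 : ∀ n b, P R 0 (4 * c 0 / 2 ^ n) (T^[n] 0 b - ψ b) := fun n b y hy =>
    le_trans (dist_le_of_le_geometric_two_of_tendsto (ge' b y hy) (li b y hy) n)
      (le_of_eq (by ring))
  refine tendsto_nhds_unique ((li a y hy).comp (tendsto_add_atTop_nat 1)) ?_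
  refine tendsto_iff_dist_tendsto_zero.2 (squeeze_zero (fun _ => dist_nonneg)
    (g := fun n => 2 * c 0 * ρ y * (1 / 2) ^ n) (fun n => ?_) ?_)
  · have := ct (gd n) g (h1 n) a y hy
    rw [← Function.iterate_succ_apply' T] at this
    exact le_trans this (le_of_eq (by rw [one_div_pow]; ring))
  · simpa using (tendsto_pow_atTop_nhds_zero_of_lt_one (r := (1 / 2 : ℝ)) (by norm_num)
      (by norm_num)).const_mul (2 * c 0 * ρ y)

end Fix

theorem dat {U : Fin 4 → Pt → ℝ} (b1 : B1Facts 4) (h : ∀ k, IsSym (-1) (U k)) :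
    ∃ c R, Dat U c R := by
  choose c h0 h1 using unif b1 h
  have a0 := h0 0
  have a1 := h0 1
  have key : ∀ y ∈ O ((1 + 4 * c 0 + 32 * c 1) ^ 2), (1 + 4 * c 0 + 32 * c 1) * ρ y ≤ 1 := by
    intro y hy
    have h2 := Real.sqrt_le_sqrt (le_of_lt hy)
    rw [Real.sqrt_sq (by positivity)] at h2
    rw [ρ, ← div_eq_mul_inv]
    exact div_le_one_of_le₀ h2 (Real.sqrt_nonneg _)
  refine ⟨c, _, fun a z => (h a).1 z trivial, h0, h1, one_le_pow₀ (by linarith),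
    fun y hy => le_trans ?_ (key y hy), fun y hy => le_trans ?_ (key y hy)⟩ <;>
  exact mul_le_mul_of_nonneg_right (by linarith) (ρ_nonneg y)

end Fpsi

open Fpsi in
theorem fpsi (b1 : B1Stmt) (l0 : L0Facts) (pi1 : PI1Stmt) (sl : SLStmt) : FpsiStmt := by
  intro U hU
  have b := b1 4
  obtain ⟨c, R, H⟩ := dat b hU
  obtain ⟨ψ, g, e⟩ := fix b H pi1 sl
  obtain ⟨χ, cc, one, bd⟩ := l0.cut
  have sm : ∀ n y, ContDiffAt ℝ ∞ ((fun _ => 1) + (-1 : ℝ) • χ n) y := fun n y =>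
    contDiffAt_const.add ((cc n).1.contDiffAt.const_smul (-1 : ℝ))
  have zero : ∀ (n : ℕ) a y, nsq y < (n : ℝ) ^ 2 →
      (fun _ => 0) =ᶠ[𝓝 y] ((fun _ => 1) + (-1 : ℝ) • χ n) * ψ a := fun n a y hy => by
    filter_upwards [(isOpen_lt cont_nsq continuous_const).mem_nhds hy] with q hq
    simp [one n q (le_of_lt hq)]
  have main : ∀ k, ∃ M, ∀ n : ℕ, R < (n : ℝ) ^ 2 → ∀ a,
      SymOn {y | (n : ℝ) ^ 2 ≤ nsq y} (-1) k (((fun _ => 1) + (-1 : ℝ) • χ n) * ψ a) |M| := by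
    intro k
    obtain ⟨C, hC⟩ := bd k
    obtain ⟨D, hD⟩ := g.all k
    refine ⟨_, fun n hn a => l0.mono (l0.mul (m := 0) (m' := -1) (C := 1 + |(-1 : ℝ)| * C)
      (C' := 2 ^ k * (|D| * 2)) (fun y _ => sm n y) (fun y hy => g.sm a y (hn.trans_le hy))
      (l0.add (fun _ _ => contDiffAt_const) (fun y _ => (cc n).1.contDiffAt.const_smul (-1 : ℝ))
        (fun y _ => ?_) (l0.smul _ (fun y _ => (cc n).1.contDiffAt) fun y _ => hC n y trivial))
      fun y hy => ?_) subset_rfl (by norm_num) le_rfl (le_abs_self _)⟩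
    · exact Fpsi.cast (b.const k 1 y (l0.wt_pos _ y).le) (by rw [l0.wt_zero]; simp)
    · have h1 : y ∈ O R := hn.trans_le hy
      have h2 := ρ_le_wt (H.one.trans (le_of_lt h1))
      refine Fpsi.cast (WB_scale one_le_two k (b.mono (hD a y h1) (ρ_nonneg y) h2
        (mul_le_mul (le_abs_self D) h2 (ρ_nonneg y) (abs_nonneg D)))) (by ring)
  obtain ⟨M, hM⟩ := main 1
  obtain ⟨n, hn⟩ := exists_nat_gt (R + 8 * |M|)
  have h1 := H.one
  have h2 := abs_nonneg M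
  have h3 : (n : ℝ) ≤ (n : ℝ) ^ 2 := by nlinarith
  have hR : R < (n : ℝ) ^ 2 := by linarith
  obtain ⟨R', hR'⟩ := ((cc n).2.isCompact.image cont_nsq).bddAbove
  have far : ∀ a, ∀ y ∈ O (max R R'),
      (((fun _ => 1) + (-1 : ℝ) • χ n) * ψ a : Pt → ℝ) y = ψ a y := by
    intro a y hy
    have : χ n y = 0 := image_eq_zero_of_notMem_tsupport fun h =>
      (hR' (mem_image_of_mem _ h)).not_gt ((le_max_right _ _).trans_lt hy)
    simp [this]
  refine ⟨fun a => ((fun _ => 1) + (-1 : ℝ) • χ n) * ψ a, max R R', fun a => ⟨fun y _ => ?_,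
    fun k => ?_⟩, fun y hy a => ?_, fun y a i => ?_, fun y hy a => ?_⟩
  · rcases lt_or_ge (nsq y) ((n : ℝ) ^ 2) with h | h
    · exact contDiffAt_const.congr_of_eventuallyEq (zero n a y h).symm
    · exact (sm n y).mul (g.sm a y (hR.trans_le h))
  · obtain ⟨M', hM'⟩ := main k
    refine ⟨|M'|, fun y _ => ?_⟩
    rcases lt_or_ge (nsq y) ((n : ℝ) ^ 2) with h | h
    · have h4 := (l0.wt_pos (-1) y).le
      exact b.mono (b.congr (b.const k 0 y h4) (zero n a y h)) h4 le_rfl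
        (by simpa using mul_nonneg (abs_nonneg M') h4)
    · exact hM' n hR a y h
  · simp [one n y (by linarith)]
  · rcases lt_or_ge (nsq y) ((n : ℝ) ^ 2) with h | h
    · rw [pd_eq_pdn, ← (pdn_congr (zero n a y h) i).self_of_nhds]
      simp [pdn]
    · refine le_trans ((hM n hR a y h).2 i) ?_
      rw [mul_assoc, wt_neg, ← mul_inv, Real.mul_self_sqrt (by linarith [nsq_nonneg y]),
        ← div_eq_mul_inv, div_le_div_iff₀ (by linarith [nsq_nonneg y]) (by norm_num)]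
      linarith
  · have hy' : y ∈ O R := (le_max_left _ _).trans_lt hy
    have e1 : rad (((fun _ => 1) + (-1 : ℝ) • χ n) * ψ a) y = rad (ψ a) y := by
      refine Finset.sum_congr rfl fun j _ => congrArg _ (pdn_congr ?_ j).self_of_nhds
      filter_upwards [(open_O _).mem_nhds hy] with q hq using far a q hq
    simp only [e1, far _ y hy, e a y hy', Vf, Pi.add_apply, Pi.smul_apply, smul_eq_mul]
    change _ = _ + U a (Φ ψ y)
    ring

end Pool.Agent.Lib.MP_df9110_gt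
end
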