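import Pool.Agent.Lib.MP_df9110_gt.NPert

-- part Pool.Agent.Lib.MP_df9110_gt.Fr
section

/-! Non-negative scalar curvature of the expander. -/

namespace Pool.Agent.Lib.MP_df9110_gt

open Filter Topology
open scoped ContDiff

namespace Fr

theorem lapV_lin {R : Type} [CommRing R] [Algebra ℝ R] {ι : Type} [Fintype ι] {D : ι → R → R}
    (hD : IsDer D) (G : ι → ι → R) (Γ : ι → ι → ι → R) (V : ι → R) (f f' : R) (t : ℝ) :
    gLapV D G Γ V (f + t • f') = gLapV D G Γ V f + t • gLapV D G Γ V f' := by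
  simp only [gLapV, gTr, gHess, hD.add, hD.smul, mul_add, mul_sub, Finset.sum_add_distrib,
    Finset.sum_sub_distrib, smul_sub, mul_smul_comm, Finset.smul_sum, Finset.mul_sum]
  abel

theorem gIp_nonneg {G : Mat} (hG : G.PosDef) (h : Fin 4 → Fin 4 → ℝ) : 0 ≤ gIp G h h := by
  have := (hG.posSemidef.kronecker hG.posSemidef).dotProduct_mulVec_nonneg fun p => h p.1 p.2
  refine this.trans_eq ?_
  simp only [gIp, dotProduct, Matrix.mulVec, Fintype.sum_prod_type, Finset.mul_sum, star_trivial,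
    Matrix.kroneckerMap_apply]
  refine Finset.sum_congr rfl fun a _ => Finset.sum_congr rfl fun b _ =>
    Finset.sum_congr rfl fun c _ => Finset.sum_congr rfl fun d _ => by ring

theorem isOpen_ext1 : IsOpen ext1 :=
  isOpen_lt continuous_const (by unfold nsq; fun_prop)

theorem symOn_congr (b1 : B1Stmt) {U : Set Pt} (hU : IsOpen U) {m : ℝ} {f f' : Pt → ℝ}
    (h : IsSymOn U m f) (e : ∀ y ∈ U, f y = f' y) : IsSymOn U m f' := by
  have ev : ∀ y ∈ U, f =ᶠ[𝓝 y] f' := fun y hy => by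
    filter_upwards [hU.mem_nhds hy] with z hz using e z hz
  refine ⟨fun y hy => (h.1 y hy).congr_of_eventuallyEq (ev y hy).symm, fun k => ?_⟩
  obtain ⟨C, hC⟩ := h.2 k
  exact ⟨C, fun y hy => (b1 4).congr (hC y hy) (ev y hy)⟩

theorem symOn_sub {U : Set Pt} {m : ℝ} {f : Pt → ℝ} (h : IsSym m f) : IsSymOn U m f :=
  ⟨fun y _ => h.1 y trivial, fun k => (h.2 k).imp fun _ hC y _ => hC y trivial⟩

theorem nsq_nonneg (y : Pt) : 0 ≤ nsq y := Finset.sum_nonneg fun _ _ => sq_nonneg _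

theorem inv_sym (l0 : L0Facts) {g : Pt → Mat} {U : Fin 4 → Pt → ℝ} (h : Sol g U) :
    (∀ a b, IsSym 0 (Gf g a b)) ∧ ∀ y, (g y).PosDef := by
  obtain ⟨c, hc, hell⟩ := h.ell
  have key : ∀ k, (∀ i j, ∀ y ∈ Set.univ, ContDiffAt ℝ ∞ (Gf g i j) y) ∧
      (∀ i j, ∃ C, Sym 0 k (Gf g i j) C) ∧ ∀ y, (g y).PosDef := by
    intro k
    obtain ⟨p, hp⟩ := l0.inv k
    choose C hC using fun i j => (h.sym i j).2 k
    obtain ⟨K₀, hK₀⟩ := (Set.finite_range fun z : Fin 4 × Fin 4 => C z.1 z.2).bddAbove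
    obtain ⟨K, k1, k2, k3⟩ : ∃ K : ℝ, 2 ≤ K ∧ K₀ ≤ K ∧ c⁻¹ ≤ K :=
      ⟨max 2 (max K₀ c⁻¹), le_max_left _ _, le_max_of_le_right (le_max_left _ _),
        le_max_of_le_right (le_max_right _ _)⟩
    obtain ⟨a1, a2, a3⟩ := hp Set.univ g K k1 (fun i j => (h.sym i j).1) h.symm
      (fun i j => l0.mono (hC i j) le_rfl le_rfl le_rfl ((hK₀ ⟨(i, j), rfl⟩).trans k2))
      (fun y _ ξ => le_trans (mul_le_mul_of_nonneg_right (inv_le_of_inv_le₀ hc k3)
        (nsq_nonneg ξ)) (hell y ξ))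
    exact ⟨a1, fun i j => ⟨_, a2 i j⟩, fun y => (a3 y trivial).1⟩
  exact ⟨fun a b => ⟨(key 0).1 a b, fun k => (key k).2.1 a b⟩, (key 0).2.2⟩

theorem grd_sum {R : Type} [CommRing R] [Algebra ℝ R] {ι : Type} {θ : ℝ} {D : ι → R → R}
    {P : ℕ → ℕ → ℝ → R → Prop} (h : Grd θ D P) {κ : Type} (s : Finset κ) (f : κ → R) {d j m}
    (hf : ∀ k, P d j m (f k)) : P d j m (∑ k ∈ s, f k) := by
  classical
  induction s using Finset.induction_on with
  | empty => simpa using h.zero d j m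
  | insert a s ha ih => rw [Finset.sum_insert ha]; exact h.add (hf a) ih

theorem ne_zero {y : Pt} (hy : y ∈ ext1) : y ≠ 0 := by
  rintro rfl
  simp [ext1, nsq] at hy
  linarith

theorem scal_diff (b1 : B1Stmt) (l0 : L0Facts) (m0 : M0Stmt) (t9 : T9Stmt) (asy : AsyStmt)
    {g γ : Pt → Mat} {U : Fin 4 → Pt → ℝ} (h : Sol g U) (hγ : IsCone γ)
    (hd : ∀ a b, IsSymOn ext1 (-1 / 2) (gf g a b - gf γ a b)) :
    ∃ C : ℝ, ∀ y ∈ ext1, |Scal g y - Scal γ y| ≤ C * wt (-2 - 1 / 2) y := by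
  obtain ⟨G1, G2⟩ := m0.2 ext1 (1 / 2) isOpen_ext1 (by norm_num)
  obtain ⟨c1, c2, -⟩ := asy.2.1 γ hγ
  obtain ⟨i1, i2⟩ := inv_sym l0 h
  have hG : ∀ a b, IsSymOn ext1 (0 - 1 / 2) (Gf g a b - Gf γ a b) := by
    intro a b
    have h1 : IsSymOn ext1 (0 - 1 / 2)
        ((-1 : ℝ) • ∑ c, ∑ d, Gf g a c * (Gf γ d b * (gf g c d - gf γ c d))) := by
      refine G1.smul (d := 0) (j := 0) _ (grd_sum G1 (d := 0) (j := 0) _ _ fun c =>
        grd_sum G1 (d := 0) (j := 0) _ _ fun d => ?_)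
      have := G1.mul (d := 0) (j := 0) (symOn_sub (i1 a c))
        (G1.mul (d := 0) (j := 0) (c2 d b) (hd c d))
      exact G1.mono (d := 0) (j := 0) (j' := 0) this le_rfl (by norm_num) (by norm_num)
    refine symOn_congr b1 isOpen_ext1 h1 fun y hy => ?_
    have u1 := (Matrix.isUnit_iff_isUnit_det _).1 (i2 y).isUnit
    have u2 := (Matrix.isUnit_iff_isUnit_det _).1 (hγ.1.2 y (ne_zero hy)).isUnit
    have e : (g y)⁻¹ - (γ y)⁻¹ = -((g y)⁻¹ * ((g y - γ y) * (γ y)⁻¹)) := by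
      rw [sub_mul, Matrix.mul_nonsing_inv _ u2, mul_sub, Matrix.nonsing_inv_mul_cancel_left _ _ u1,
        mul_one, neg_sub]
    have e' := congrFun (congrFun e a) b
    simp only [Matrix.sub_apply, Matrix.neg_apply, Matrix.mul_apply, Finset.mul_sum] at e'
    simp only [Pi.smul_apply, Finset.sum_apply, Pi.mul_apply, Pi.sub_apply, Gf, gf, e',
      smul_eq_mul, neg_one_mul, neg_inj]
    exact Finset.sum_congr rfl fun c _ => Finset.sum_congr rfl fun d _ => by ring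
  have T := ((t9.1 _ _ _ _ G2).chr (fun a b => (gf γ a b, gf g a b))
    (fun a b => (Gf γ a b, Gf g a b))
    (fun a b => ⟨c1 a b, by simpa only [zero_sub, neg_div] using hd a b⟩)
    (fun a b => ⟨c2 a b, hG a b⟩)).2.2.2.1.2
  have p1 : ∀ i z, AlgHom.fst ℝ (Pt → ℝ) (Pt → ℝ) (pairD pd i z) =
    pd i (AlgHom.fst ℝ (Pt → ℝ) (Pt → ℝ) z) := fun _ _ => rfl
  have p2 : ∀ i z, AlgHom.snd ℝ (Pt → ℝ) (Pt → ℝ) (pairD pd i z) =
    pd i (AlgHom.snd ℝ (Pt → ℝ) (Pt → ℝ) z) := fun _ _ => rfl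
  have e1 := map_gTr (AlgHom.fst ℝ (Pt → ℝ) (Pt → ℝ)) (fun a b => (Gf γ a b, Gf g a b))
    (gRic (pairD pd) (gChr (pairD pd) (fun a b => (gf γ a b, gf g a b))
      fun a b => (Gf γ a b, Gf g a b)))
  have e2 := map_gTr (AlgHom.snd ℝ (Pt → ℝ) (Pt → ℝ)) (fun a b => (Gf γ a b, Gf g a b))
    (gRic (pairD pd) (gChr (pairD pd) (fun a b => (gf γ a b, gf g a b))
      fun a b => (Gf γ a b, Gf g a b)))
  simp only [map_gRic _ p1, map_gChr _ p1] at e1
  simp only [map_gRic _ p2, map_gChr _ p2] at e2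
  obtain ⟨C, hC⟩ := T.2 0
  refine ⟨C, fun y hy => ?_⟩
  have := hC y hy
  rw [← scal_eq g, ← scal_eq γ]
  have f1 := e1.trans (rfl : _ = gTr (Gf γ) (ricF γ))
  have f2 := e2.trans (rfl : _ = gTr (Gf g) (ricF g))
  rw [← f1, ← f2]
  exact this

theorem scal_eqn (l0 : L0Facts) (t4 : T4Stmt) {g : Pt → Mat} {U : Fin 4 → Pt → ℝ}
    (h : Sol g U) : ContDiff ℝ ∞ (Scal g) ∧ (∀ k, ContDiff ℝ ∞ (Vf U k)) ∧
      (∀ y, lapF g (Vf U) (Scal g) y + Scal g y ≤ 0) ∧
      ∀ (w : Pt → ℝ) (t : ℝ), ContDiff ℝ ∞ w →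
        lapF g (Vf U) (Scal g + t • w) = lapF g (Vf U) (Scal g) + t • lapF g (Vf U) w := by
  obtain ⟨i1, i2⟩ := inv_sym l0 h
  have hV : ∀ k, ContDiff ℝ ∞ (Vf U k) := fun k =>
    ((contDiff_apply ℝ ℝ k).const_smul (-1 / 2 : ℝ)).add
      (contDiff_iff_contDiffAt.2 fun y => (h.U_sym k).1 y trivial)
  let gS : Fin 4 → Fin 4 → Sm 4 := fun a b =>
    ⟨gf g a b, contDiff_iff_contDiffAt.2 fun y => (h.sym a b).1 y trivial⟩
  let GS : Fin 4 → Fin 4 → Sm 4 := fun a b =>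
    ⟨Gf g a b, contDiff_iff_contDiffAt.2 fun y => (i1 a b).1 y trivial⟩
  let VS : Fin 4 → Sm 4 := fun k => ⟨Vf U k, hV k⟩
  have hm : IsMet gS GS := by
    refine ⟨fun i j => Subtype.ext (funext fun y => ((h.symm y).apply i j).symm),
      fun i j => Subtype.ext (funext fun y => ((h.symm y).inv.apply i j).symm),
      fun i j => Subtype.ext (funext fun y => ?_)⟩
    have := congrFun (congrFun (Matrix.nonsing_inv_mul (g y)
      ((Matrix.isUnit_iff_isUnit_det _).1 (i2 y).isUnit)) i) j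
    rw [Matrix.mul_apply, Matrix.one_apply] at this
    by_cases e : i = j <;> simpa [gS, GS, gf, Gf, e] using this
  have eΓ : (fun a b c => (Sm 4).val (gChr smD gS GS a b c)) = chrF g := by
    funext a b c
    exact map_gChr _ smD_val gS GS a b c
  have eR : (fun a b => (Sm 4).val (gRic smD (gChr smD gS GS) a b)) = ricF g := by
    funext a b
    rw [map_gRic _ smD_val, eΓ]
    rfl
  have eS : (Sm 4).val (gTr GS (gRic smD (gChr smD gS GS))) = Scal g := by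
    rw [map_gTr, eR, ← scal_eq]
    rfl
  have eL : ∀ f : Sm 4, (Sm 4).val (gLapV smD GS (gChr smD gS GS) VS f) =
      lapF g (Vf U) f.1 := fun f => by
    rw [map_gLapV _ smD_val, eΓ]
    rfl
  have hS := (t4 _ _ smD gS GS isDer_smD hm).scal VS fun a b => Subtype.ext (by
    have := map_gErr _ smD_val gS (gChr smD gS GS) VS a b
    rw [eΓ] at this
    exact this.trans (h.err a b))
  have eS' : (gTr GS (gRic smD (gChr smD gS GS))).1 = Scal g := eS
  refine ⟨eS ▸ Sm.cd _, hV, fun y => ?_, fun w t hw => ?_⟩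
  · have := congrArg (Sm 4).val hS
    rw [map_add, map_add, map_mul, eL, eS, eS', map_gIp, eR, map_ofNat, map_zero] at this
    have e := congrFun this y
    have p : 0 ≤ gIp (fun a b => Gf g a b y) (fun a b => ricF g a b y)
        (fun a b => ricF g a b y) := gIp_nonneg (i2 y).inv _
    have e2 : gIp (fun a b => (Sm 4).val (GS a b)) (ricF g) (ricF g) y =
        gIp (fun a b => Gf g a b y) (fun a b => ricF g a b y) fun a b => ricF g a b y := by
      simp [gIp, GS]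
    simp only [Pi.add_apply, Pi.mul_apply, Pi.ofNat_apply, e2] at e
    linarith
  · have := congrArg (Sm 4).val (lapV_lin isDer_smD GS (gChr smD gS GS) VS
      (gTr GS (gRic smD (gChr smD gS GS))) ⟨w, hw⟩ t)
    rw [map_add, map_smul, eL, eL, eL, eS'] at this
    rw [← this, ← eS']
    rfl

theorem wt_tendsto : Tendsto nsq (cocompact Pt) atTop ∧
    Tendsto (wt (-1 / 2)) (cocompact Pt) (𝓝 0) := by
  have h1 : Tendsto nsq (cocompact Pt) atTop := by
    refine tendsto_atTop_mono (fun y => ?_)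
      ((tendsto_pow_atTop two_ne_zero).comp (tendsto_norm_cocompact_atTop (E := Pt)))
    have : ‖y‖ ≤ √(nsq y) := (pi_norm_le_iff_of_nonneg (Real.sqrt_nonneg _)).2 fun i =>
      Real.abs_le_sqrt (Finset.single_le_sum (f := fun i => y i ^ 2) (fun _ _ => sq_nonneg _)
        (Finset.mem_univ i))
    exact (Real.le_sqrt (norm_nonneg _) (nsq_nonneg y)).1 this
  refine ⟨h1, ?_⟩
  have h2 := (tendsto_rpow_neg_atTop (y := 1 / 4) (by norm_num)).comp
    (tendsto_atTop_add_const_left _ 1 h1)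
  refine h2.congr fun y => ?_
  simp only [wt, Function.comp]
  norm_num

end Fr

open Fr in
theorem fr (b1 : B1Stmt) (l0 : L0Facts) (m0 : M0Stmt) (t4 : T4Stmt) (t9 : T9Stmt) (mp : MpStmt)
    (asy : AsyStmt) : FrStmt := by
  intro g U γ w h hγ h0 hd hw ⟨c, hc, hcw⟩ hbar y₀
  by_contra hneg
  rw [not_le] at hneg
  obtain ⟨C, hC⟩ := scal_diff b1 l0 m0 t9 asy h hγ hd
  obtain ⟨s1, hV, s2, s3⟩ := scal_eqn l0 t4 h
  have wpos : ∀ y, 0 < w y := fun y => (mul_pos hc (l0.wt_pos _ y)).trans_le (hcw y)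
  have q0 : Scal g y₀ / w y₀ < 0 := div_neg_of_neg_of_pos hneg (wpos y₀)
  have ev : ∀ᶠ y in cocompact Pt, Scal g y₀ / w y₀ ≤ Scal g y / w y := by
    have t1 : Tendsto (fun y => -(|C| / c * wt (-1 / 2) y)) (cocompact Pt) (𝓝 0) := by
      simpa using (wt_tendsto.2.const_mul (|C| / c)).neg
    filter_upwards [t1.eventually (lt_mem_nhds q0), wt_tendsto.1.eventually_gt_atTop 1]
      with y h1 h2
    refine h1.le.trans ((le_div_iff₀ (wpos y)).2 ?_)
    have a1 := (abs_le.1 (hC y h2)).1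
    have a2 := h0 y (ne_zero h2)
    have a3 : wt (-2 - 1 / 2) y = wt (-2) y * wt (-1 / 2) y := by
      rw [← l0.wt_add]; norm_num
    have a4 := l0.wt_pos (-1 / 2) y
    have a5 := l0.wt_pos (-2) y
    have a6 : C * wt (-2 - 1 / 2) y ≤ |C| / c * wt (-1 / 2) y * w y := by
      calc C * wt (-2 - 1 / 2) y ≤ |C| * wt (-2 - 1 / 2) y :=
            mul_le_mul_of_nonneg_right (le_abs_self C) (l0.wt_pos _ y).le
        _ = |C| / c * wt (-1 / 2) y * (c * wt (-2) y) := by rw [a3]; field_simp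
        _ ≤ _ := mul_le_mul_of_nonneg_left (hcw y) (by positivity)
    linarith
  obtain ⟨y₁, hy₁⟩ := (s1.continuous.div hw.continuous fun y => (wpos y).ne').exists_forall_le'
    y₀ ev
  set t : ℝ := -(Scal g y₁ / w y₁) with ht
  have tpos : 0 < t := neg_pos.2 ((hy₁ y₀).trans_lt q0)
  have u0 : Scal g y₁ + t * w y₁ = 0 := by
    have := (wpos y₁).ne'
    rw [ht]; field_simp; ring
  have hmin : IsLocalMin (Scal g + t • w) y₁ := Eventually.of_forall fun y => by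
    have := (le_div_iff₀ (wpos y)).1 (hy₁ y)
    change Scal g y₁ + t * w y₁ ≤ Scal g y + t * w y
    rw [u0, ht]
    change Scal g y₁ / w y₁ * w y ≤ _ at this
    linarith
  have hmet : IsMetricOn g Set.univ :=
    ⟨fun i j y _ => ((h.sym i j).1 y trivial).contDiffWithinAt, fun y _ => (inv_sym l0 h).2 y⟩
  have := (mp g (Vf U) hmet hV).1 _ y₁ (s1.add (hw.const_smul t)) hmin
  have e := congrFun (s3 w t hw) y₁
  change 0 ≤ lapF g (Vf U) (Scal g + t • w) y₁ at this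
  rw [e] at this
  change 0 ≤ lapF g (Vf U) (Scal g) y₁ + t * lapF g (Vf U) w y₁ at this
  have b1 := s2 y₁
  have b2 := mul_neg_of_pos_of_neg tpos (hbar y₁)
  nlinarith

end Pool.Agent.Lib.MP_df9110_gt
end

-- part Pool.Agent.Lib.MP_df9110_gt.Fth
section

/-! Existence of the potential function. -/

namespace Pool.Agent.Lib.MP_df9110_gt

open Filter Topology MeasureTheory
open scoped ContDiff

namespace Fth

/-- Coefficients of the first order part. -/
noncomputable def cf (g : Pt → Mat) (U : Fin 4 → Pt → ℝ) (k : Fin 4) : Pt → ℝ :=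
  ∑ i, ∑ j, Gf g i j * chrF g k i j + U k

/-- The first order part. -/
noncomputable def BB (c : Fin 4 → Pt → ℝ) (u : Unit → Pt → ℝ) (α : Unit) : Pt → ℝ :=
  (-1 : ℝ) • ∑ k, c k * pd k (u α)

theorem lap_eq (g : Pt → Mat) (U : Fin 4 → Pt → ℝ) (f : Pt → ℝ) (y : Pt) :
    lapF g U f y = ∑ i, ∑ j, Gf g i j y * pd i (pd j f) y - ∑ k, cf g U k y * pd k f y := by
  simp only [lapF, gLapV, gTr, gHess, cf, Pi.sub_apply, Pi.mul_apply,
    Pi.add_apply, Fin.sum_univ_four]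
  ring

theorem lap_split (g : Pt → Mat) (U : Fin 4 → Pt → ℝ) (f : Pt → ℝ) (y : Pt) :
    lapF g (Vf U) f y = lapF g U f y + 1 / 2 * rad f y := by
  simp only [lapF, gLapV, Vf, rad, Pi.sub_apply, Pi.mul_apply,
    Pi.add_apply, Pi.smul_apply, smul_eq_mul, Fin.sum_univ_four]
  ring

theorem LV_eq (g : Pt → Mat) (U : Fin 4 → Pt → ℝ) (lam : ℝ) (u : Unit → Pt → ℝ) (α : Unit)
    (y : Pt) : LV (Gf g) (BB (cf g U)) lam u α y = lapF g (Vf U) (u α) y - lam * u α y := by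
  rw [lap_split, lap_eq]
  simp only [LV, Lsc, BB, rad, Finset.sum_apply, Pi.mul_apply, Pi.add_apply, Pi.smul_apply,
    smul_eq_mul]
  ring

theorem pd_sm {f : Pt → ℝ} (hf : ContDiff ℝ ∞ f) (i : Fin 4) : ContDiff ℝ ∞ (pd i f) :=
  contDiff_pdn hf i

theorem pd_add {f f' : Pt → ℝ} (hf : ContDiff ℝ ∞ f) (hf' : ContDiff ℝ ∞ f') (i : Fin 4) :
    pd i (f + f') = pd i f + pd i f' :=
  funext fun p => pdn_add (hf.differentiable (by simp) p) (hf'.differentiable (by simp) p) i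

theorem pd_smul {f : Pt → ℝ} (hf : ContDiff ℝ ∞ f) (c : ℝ) (i : Fin 4) :
    pd i (c • f) = c • pd i f :=
  funext fun p => pdn_smul (hf.differentiable (by simp) p) c i

theorem pd_const (c : ℝ) (i : Fin 4) : pd i (fun _ => c) = fun _ => 0 := by
  funext p
  simp [pd]

theorem lap_add (g : Pt → Mat) (V : Fin 4 → Pt → ℝ) {f f' : Pt → ℝ} (hf : ContDiff ℝ ∞ f)
    (hf' : ContDiff ℝ ∞ f') (y : Pt) : lapF g V (f + f') y = lapF g V f y + lapF g V f' y := by
  simp only [lap_eq, pd_add hf hf', pd_add (pd_sm hf _) (pd_sm hf' _), Pi.add_apply, mul_add,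
    Finset.sum_add_distrib]
  ring

theorem lap_smul (g : Pt → Mat) (V : Fin 4 → Pt → ℝ) {f : Pt → ℝ} (hf : ContDiff ℝ ∞ f)
    (c : ℝ) (y : Pt) : lapF g V (c • f) y = c * lapF g V f y := by
  simp only [lap_eq, pd_smul hf, pd_smul (pd_sm hf _), Pi.smul_apply, smul_eq_mul,
    Fin.sum_univ_four]
  ring

theorem lap_const (g : Pt → Mat) (V : Fin 4 → Pt → ℝ) (c : ℝ) (y : Pt) :
    lapF g V (fun _ => c) y = 0 := by
  simp [lap_eq, pd_const]

theorem sym_sm {m : ℝ} {f : Pt → ℝ} (h : IsSym m f) : ContDiff ℝ ∞ f :=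
  contDiff_iff_contDiffAt.2 fun y => h.1 y trivial

theorem cc_zero : CC (0 : Pt → ℝ) := ⟨contDiff_const, HasCompactSupport.zero⟩

theorem cc_smul {u : Pt → ℝ} (hu : CC u) (c : ℝ) : CC (c • u) :=
  ⟨hu.1.const_smul c, hu.2.smul_left (f := fun _ => c)⟩

section Norms

variable (l0 : L0Facts)
include l0

theorem cc_sum {κ : Type} (s : Finset κ) (f : κ → Pt → ℝ) (h : ∀ i, CC (f i)) :
    CC (∑ i ∈ s, f i) := by
  classical
  induction s using Finset.induction_on with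
  | empty => simpa using cc_zero
  | insert a s ha ih => rw [Finset.sum_insert ha]; exact l0.cc_add (h a) ih

theorem nn_zero (k : ℕ) (γ : ℝ) : nn k γ 0 = 0 := by
  simpa using l0.nn_smul k γ 0 cc_zero

theorem Yn_nonneg (t s : ℕ) (δ : ℝ) (u : Pt → ℝ) : 0 ≤ Yn t s δ u :=
  Finset.sum_nonneg fun _ _ => l0.nn_nonneg _ _ _

theorem Yn_zero (t s : ℕ) (δ : ℝ) : Yn t s δ 0 = 0 :=
  Finset.sum_eq_zero fun _ _ => nn_zero l0 _ _

theorem Yn_smul (t s : ℕ) (δ c : ℝ) {u : Pt → ℝ} (hu : CC u) :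
    Yn t s δ (c • u) = |c| * Yn t s δ u := by
  simp only [Yn, l0.nn_smul _ _ c hu, Finset.mul_sum]

theorem Yn_sum (t s : ℕ) (δ : ℝ) {κ : Type} (S : Finset κ) (f : κ → Pt → ℝ) (h : ∀ i, CC (f i)) :
    Yn t s δ (∑ i ∈ S, f i) ≤ ∑ i ∈ S, Yn t s δ (f i) := by
  classical
  induction S using Finset.induction_on with
  | empty => simp [Yn_zero l0]
  | insert a S ha ih =>
    rw [Finset.sum_insert ha, Finset.sum_insert ha]
    refine le_trans ?_ (add_le_add le_rfl ih)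
    simp only [Yn, ← Finset.sum_add_distrib]
    exact Finset.sum_le_sum fun k _ => l0.nn_add _ _ (h a) (cc_sum l0 S f h)

theorem Yn_pd (s : ℕ) (δ : ℝ) {u : Pt → ℝ} (hu : CC u) (i : Fin 4) :
    Yn s s (δ - 1) (pd i u) ≤ Yn (s + 1) (s + 1) (δ - 2) u := by
  unfold Yn
  rw [Finset.sum_range_succ' _ (s + 1)]
  refine le_trans (Finset.sum_le_sum fun k hk => ?_) (le_add_of_nonneg_right (l0.nn_nonneg _ _ _))
  have hk' : k ≤ s := Nat.lt_succ_iff.1 (Finset.mem_range.1 hk)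
  rw [min_eq_left hk', min_eq_left (Nat.succ_le_succ hk')]
  have e : δ - 2 - 2 + ((k + 1 : ℕ) : ℝ) = δ - 1 - 2 + (k : ℝ) := by push_cast; ring
  rw [e]
  exact l0.nn_succ k _ hu i

theorem cc_BB {c : Fin 4 → Pt → ℝ} (hc : ∀ k, IsSym (-1) (c k)) {u : Unit → Pt → ℝ}
    (hu : ∀ α, CC (u α)) (α : Unit) : CC (BB c u α) :=
  cc_smul (cc_sum l0 _ _ fun k => l0.cc_mul (sym_sm (hc k)) (l0.cc_pd (hu α) k)) _

theorem sym_nonneg (b1 : B1Stmt) {m C : ℝ} {k : ℕ} {f : Pt → ℝ} (h : Sym m k f C) : 0 ≤ C := by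
  have h1 := (abs_nonneg _).trans ((b1 4).nonneg (h 0 trivial))
  exact nonneg_of_mul_nonneg_left h1 (l0.wt_pos m 0)

theorem bd_BB (b1 : B1Stmt) (pr : ProdFacts) {c : Fin 4 → Pt → ℝ} (hc : ∀ k, IsSym (-1) (c k))
    (δ : ℝ) (s : ℕ) : ∃ C : ℝ, ∀ u : Unit → Pt → ℝ, Adm id u →
      NV s δ (BB c u) ≤ C * NV (s + 1) (δ - 2) u := by
  obtain ⟨C, hC0, hC⟩ := pr.mul s s (δ - 1) (-1)
  choose A hA using fun k => (hc k).2 s
  refine ⟨C * ∑ k, A k, fun u hu => ?_⟩
  have h1 : ∀ k, CC (c k * pd k (u ())) := fun k =>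
    l0.cc_mul (sym_sm (hc k)) (l0.cc_pd (hu.1 ()) k)
  simp only [NV, Finset.univ_unique, Finset.sum_singleton, BB]
  rw [Yn_smul l0 _ _ _ _ (cc_sum l0 _ _ h1), abs_neg, abs_one, one_mul]
  refine (Yn_sum l0 _ _ _ _ _ h1).trans ?_
  rw [Finset.mul_sum, Finset.sum_mul]
  refine Finset.sum_le_sum fun k _ => ?_
  have h2 := hC (c k) _ (A k) (sym_sm (hc k)) (l0.cc_pd (hu.1 ()) k) (hA k)
  rw [show δ - 1 - -1 = δ by ring] at h2
  exact h2.trans (mul_le_mul_of_nonneg_left (Yn_pd l0 s δ (hu.1 ()) k)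
    (mul_nonneg hC0 (sym_nonneg l0 b1 (hA k))))

theorem qhyp (c : Fin 4 → Pt → ℝ) (δ K : ℝ) (hK : 0 ≤ K) :
    QHyp id δ K (BB c) fun _ => 0 where
  zero := rfl
  adm _ _ _ := ⟨fun _ => cc_zero, fun _ => rfl⟩
  lip u v _ _ _ _ := by
    have h1 : ∀ w : Unit → Pt → ℝ, 0 ≤ XV 12 δ w := fun w =>
      Finset.sum_nonneg fun _ _ => Yn_nonneg l0 _ _ _ _
    have h2 : NV 12 δ ((0 : Unit → Pt → ℝ) - 0) = 0 := by simp [NV, Yn_zero l0]
    rw [h2]
    exact mul_nonneg (mul_nonneg hK (add_nonneg (h1 u) (h1 v))) (h1 _)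
  top s _ _ := ⟨0, fun u _ _ _ => by
    have h1 : 0 ≤ XV 12 δ u := Finset.sum_nonneg fun _ _ => Yn_nonneg l0 _ _ _ _
    have h2 : nV (s + 1) (δ - 1 + s) (0 : Unit → Pt → ℝ) = 0 := by simp [nV, nn_zero l0]
    have h3 : 0 ≤ nV (s + 3) (δ - 1 + s) u := Finset.sum_nonneg fun _ _ => l0.nn_nonneg _ _ _
    rw [h2, add_zero]
    exact mul_nonneg (mul_nonneg hK h1) h3⟩
  lim u h _ _ _ h2 _ α y := by
    simp only [BB, Pi.zero_apply, add_zero, Pi.smul_apply, Finset.sum_apply, Pi.mul_apply,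
      smul_eq_mul]
    exact (tendsto_finsetSum _ fun k _ => (h2 α y k).const_mul _).const_mul _

theorem nsq_nonneg (ξ : Pt) : 0 ≤ nsq ξ := by
  have := l0.wt_pos 0 ξ
  exact Finset.sum_nonneg fun _ _ => sq_nonneg _

/-- The inverse metric is a uniformly elliptic symbol. -/
theorem inv_facts {g : Pt → Mat} {U : Fin 4 → Pt → ℝ} (hs : Sol g U) (k : ℕ) :
    (∀ i j, ContDiff ℝ ∞ (Gf g i j)) ∧ (∀ y, (g y).PosDef) ∧ ∃ K : ℝ, 2 ≤ K ∧
      (∀ i j, Sym 0 k (Gf g i j) K) ∧ ∀ y ξ, K⁻¹ * nsq ξ ≤ qf (fun i j => Gf g i j y) ξ := by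
  obtain ⟨p, hp⟩ := l0.inv k
  obtain ⟨c, hc, hell⟩ := hs.ell
  choose A hA using fun i j => (hs.sym i j).2 k
  set K : ℝ := 2 + c⁻¹ + ∑ i, ∑ j, |A i j| with hK
  have hc' : 0 < c⁻¹ := inv_pos.2 hc
  have hS : 0 ≤ ∑ i, ∑ j, |A i j| :=
    Finset.sum_nonneg fun _ _ => Finset.sum_nonneg fun _ _ => abs_nonneg _
  have hK2 : 2 ≤ K := by linarith
  have hAK : ∀ i j, A i j ≤ K := fun i j => by
    have h1 : |A i j| ≤ ∑ j, |A i j| :=
      Finset.single_le_sum (f := fun j => |A i j|) (fun _ _ => abs_nonneg _) (Finset.mem_univ j)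
    have h2 : ∑ j, |A i j| ≤ ∑ i, ∑ j, |A i j| :=
      Finset.single_le_sum (f := fun i => ∑ j, |A i j|)
        (fun _ _ => Finset.sum_nonneg fun _ _ => abs_nonneg _) (Finset.mem_univ i)
    linarith [le_abs_self (A i j)]
  have hKc : K⁻¹ ≤ c := inv_le_of_inv_le₀ hc (by linarith)
  obtain ⟨h1, h2, h3⟩ := hp Set.univ g K hK2 (fun i j => (hs.sym i j).1) hs.symm
    (fun i j => l0.mono (hA i j) subset_rfl le_rfl le_rfl (hAK i j))
    (fun y _ ξ => (mul_le_mul_of_nonneg_right hKc (nsq_nonneg l0 ξ)).trans (hell y ξ))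
  have hKp : 0 < K ^ p := by positivity
  refine ⟨fun i j => contDiff_iff_contDiffAt.2 fun y => h1 i j y trivial,
    fun y => (h3 y trivial).1, K ^ p + 2, by linarith, fun i j => ?_, fun y ξ => ?_⟩
  · exact l0.mono (h2 i j) subset_rfl le_rfl le_rfl (by linarith)
  · refine le_trans (mul_le_mul_of_nonneg_right ?_ (nsq_nonneg l0 ξ)) ((h3 y trivial).2 ξ)
    exact inv_anti₀ hKp (by linarith)

theorem G_sym {g : Pt → Mat} {U : Fin 4 → Pt → ℝ} (hs : Sol g U) (i j : Fin 4) :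
    IsSym 0 (Gf g i j) :=
  ⟨fun _ _ => ((inv_facts l0 hs 0).1 i j).contDiffAt, fun k => by
    obtain ⟨K, -, h, -⟩ := (inv_facts l0 hs k).2.2
    exact ⟨K, h i j⟩⟩

theorem rad_wt (γ : ℝ) (y : Pt) : rad (wt γ) y = γ * nsq y * wt (γ - 2) y := by
  simp only [rad, l0.wt_pd, nsq, Fin.sum_univ_four]
  ring

theorem one_le_wt {γ : ℝ} (h : 0 ≤ γ) (y : Pt) : 1 ≤ wt γ y := by
  rw [← l0.wt_zero y]
  exact l0.wt_mono h y

end Norms

/-- The scalar maximum principle with a barrier. -/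
theorem maxp {g : Pt → Mat} {V : Fin 4 → Pt → ℝ}
    (hm : ∀ u y, ContDiff ℝ ∞ u → IsLocalMin u y → 0 ≤ lapF g V u y) {b u : Pt → ℝ} {lam : ℝ}
    (hb : ContDiff ℝ ∞ b) (hb0 : ∀ y, 0 ≤ b y) (hu : CC u) (hl : 0 < lam)
    (h : ∀ y, lapF g V b y - lam * b y + (lapF g V u y - lam * u y) ≤ 0) (y : Pt) :
    0 ≤ b y + u y := by
  by_contra hy
  push Not at hy
  have hy' : y ∈ tsupport u := subset_tsupport _ fun e => by
    have := hb0 y
    rw [e] at hy
    linarith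
  have hv : ContDiff ℝ ∞ (b + u) := hb.add hu.1
  obtain ⟨z, -, hz⟩ := hu.2.isCompact.exists_isMinOn ⟨y, hy'⟩ hv.continuous.continuousOn
  have hz1 : b z + u z ≤ b y + u y := hz hy'
  have hz2 : IsLocalMin (b + u) z := Eventually.of_forall fun x => by
    by_cases hx : x ∈ tsupport u
    · exact hz hx
    · have h0 : u x = 0 := image_eq_zero_of_notMem_tsupport hx
      have := hb0 x
      simp only [Pi.add_apply, h0]
      linarith
  have h1 := hm _ z hv hz2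
  rw [lap_add g V hb hu.1] at h1
  have h2 := h z
  nlinarith

end Fth

open Fth in
theorem fth (b1 : B1Stmt) (l0 : L0Facts) (m0 : M0Stmt) (sob : SobStmt) (pr : ProdFacts)
    (t9 : T9Stmt) (mp : MpStmt) (nl : NlStmt) : FthStmt := by
  intro g U hs
  have gr : Grd 1 pd fun _ _ m f => IsSym m f := (m0.2 Set.univ 0 isOpen_univ le_rfl).1
  have hG := G_sym l0 hs
  obtain ⟨hΓ, -, -, -, hU⟩ := (t9.1 _ _ pd _ gr).chr (gf g) (Gf g) hs.sym hG
  have hlap : ∀ m f, IsSym m f → IsSym (m - 2) (lapF g U f) := fun m f hf =>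
    (hU U hs.U_sym).2 0 m f hf
  have hsum : ∀ (m : ℝ) (f : Fin 4 → Pt → ℝ), (∀ i, IsSym m (f i)) → IsSym m (∑ i, f i) := by
    intro m f hf
    rw [Fin.sum_univ_four]
    exact gr.add (d := 0) (j := 0) (gr.add (d := 0) (j := 0) (gr.add (d := 0) (j := 0) (hf 0)
      (hf 1)) (hf 2)) (hf 3)
  have hc : ∀ k, IsSym (-1) (cf g U k) := fun k => by
    refine gr.add (d := 0) (j := 0) (hsum _ _ fun i => hsum _ _ fun j => ?_) (hs.U_sym k)
    have := gr.mul (d := 0) (j := 0) (hG i j) (hΓ k i j)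
    rwa [zero_add] at this
  obtain ⟨hGs, hpos, K₁, hK₁, hbd, hell⟩ := inv_facts l0 hs 14
  have hmet : IsMetricOn g Set.univ :=
    ⟨fun i j => (sym_sm (hs.sym i j)).contDiffOn, fun y _ => hpos y⟩
  have hV : ∀ k, ContDiff ℝ ∞ (Vf U k) := fun k =>
    ((contDiff_apply ℝ ℝ k).const_smul (-1 / 2 : ℝ)).add (sym_sm (hs.U_sym k))
  have hmin := (mp g (Vf U) hmet hV).1
  -- the barrier
  obtain ⟨M, hM⟩ := (hlap _ _ (l0.wt_sym (1 / 2))).2 0
  have hM0 : 0 ≤ M := sym_nonneg l0 b1 hM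
  have hw : ContDiff ℝ ∞ (wt (1 / 2)) := sym_sm (l0.wt_sym _)
  have hbar : ∀ y, lapF g (Vf U) (wt (1 / 2)) y ≤ wt (1 / 2) y / 4 + M := fun y => by
    have h1 : |lapF g U (wt (1 / 2)) y| ≤ M * wt (1 / 2 - 2) y := hM y trivial
    have h2 : wt (1 / 2 - 2) y ≤ 1 := (l0.wt_mono (by norm_num) y).trans (l0.wt_zero y).le
    have h3 : wt (1 / 2) y = (1 + nsq y) * wt (1 / 2 - 2) y := by
      rw [← l0.wt_two, ← l0.wt_add]
      norm_num
    have h4 := l0.wt_pos (1 / 2 - 2) y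
    rw [lap_split, rad_wt l0, h3]
    nlinarith [le_abs_self (lapF g U (wt (1 / 2)) y)]
  -- the maximum principle estimate
  obtain ⟨C₁, hC₁, hsob⟩ := sob (-1 / 2) 8
  obtain ⟨C₂, hC₂⟩ := l0.nn_sym 0 (-1 / 2 - 3) (1 / 2) (by norm_num)
  have hmph : ∀ K : ℝ, |C₂| * (4 / 3 * C₁ * (1 + M)) ≤ K →
      MPH id (-1 / 2) K 1 (Gf g) (BB (cf g U)) := by
    intro K hK lam hl u hu
    have hu0 := hu.1 ()
    set f := LV (Gf g) (BB (cf g U)) lam u () with hf
    have hfc : CC f := by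
      refine l0.cc_add ?_ (cc_BB l0 hc hu.1 ())
      have e : Lsc (Gf g) lam (u ()) = ∑ i, ∑ j, Gf g i j * pd i (pd j (u ())) +
          (1 / 2 : ℝ) • ∑ i, (fun y : Pt => y i) * pd i (u ()) + (-lam) • u () := by
        funext y
        simp only [Lsc, Finset.sum_apply, Pi.add_apply, Pi.mul_apply, Pi.smul_apply, smul_eq_mul]
        ring
      rw [e]
      refine l0.cc_add (l0.cc_add (cc_sum l0 _ _ fun i => cc_sum l0 _ _ fun j => ?_)
        (cc_smul (cc_sum l0 _ _ fun i => ?_) _)) (cc_smul hu0 _)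
      · exact l0.cc_mul (hGs i j) (l0.cc_pd (l0.cc_pd hu0 j) i)
      · exact l0.cc_mul (contDiff_apply ℝ ℝ i) (l0.cc_pd hu0 i)
    set Y := Yn 12 12 (-1 / 2) f with hY
    have hY0 : 0 ≤ Y := Yn_nonneg l0 _ _ _ _
    have hfb : ∀ y, |f y| ≤ C₁ * Y * wt (1 / 2) y := fun y => by
      have := (b1 4).nonneg (hsob f hfc y trivial)
      rwa [show -(-1 / 2 : ℝ) = 1 / 2 by norm_num] at this
    set A := 4 / 3 * C₁ * Y with hA
    have hA0 : 0 ≤ A := by positivity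
    have hwM : ContDiff ℝ ∞ (wt (1 / 2) + fun _ => M) := hw.add contDiff_const
    set b : Pt → ℝ := A • (wt (1 / 2) + fun _ => M) with hbdef
    have hb : ContDiff ℝ ∞ b := hwM.const_smul A
    have hb0 : ∀ y, 0 ≤ b y := fun y => mul_nonneg hA0 (add_nonneg (l0.wt_pos _ y).le hM0)
    have hb1 : ∀ y, lapF g (Vf U) b y - lam * b y ≤ -(C₁ * Y * wt (1 / 2) y) := fun y => by
      rw [hbdef, lap_smul _ _ hwM, lap_add _ _ hw contDiff_const, lap_const]
      simp only [Pi.smul_apply, Pi.add_apply, smul_eq_mul]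
      have h1 := mul_le_mul_of_nonneg_left (hbar y) hA0
      have h2 : 0 ≤ (lam - 1) * (A * (wt (1 / 2) y + M)) := mul_nonneg (by linarith) (hb0 y)
      have h3 : C₁ * Y = 3 / 4 * A := by rw [hA]; ring
      rw [h3]
      nlinarith
    have hfy : ∀ y, f y = lapF g (Vf U) (u ()) y - lam * u () y := fun y => LV_eq g U lam u () y
    have h1 := maxp hmin hb hb0 hu0 (by linarith : 0 < lam) fun y => by
      have := hb1 y
      have := le_abs_self (f y)
      have := hfb y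
      rw [← hfy]
      linarith
    have h2 := maxp hmin hb hb0 (cc_smul hu0 (-1)) (by linarith : 0 < lam) fun y => by
      have := hb1 y
      have := neg_abs_le (f y)
      have := hfb y
      have := hfy y
      rw [lap_smul _ _ hu0.1]
      simp only [Pi.smul_apply, smul_eq_mul]
      linarith
    have h3 : Sym (1 / 2) 0 (u ()) (A * (1 + M)) := fun y _ => by
      change |u () y| ≤ _
      have h4 := h1 y
      have h5 := h2 y
      simp only [hbdef, Pi.smul_apply, Pi.add_apply, smul_eq_mul] at h4 h5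
      have h6 : 0 ≤ A * M * (wt (1 / 2) y - 1) :=
        mul_nonneg (mul_nonneg hA0 hM0) (sub_nonneg.2 (one_le_wt l0 (by norm_num) y))
      rw [abs_le]
      constructor <;> nlinarith
    have h4 := hC₂ _ _ hu0 h3
    simp only [nV, NV, Finset.univ_unique, Finset.sum_singleton]
    change nn 0 (-1 / 2 - 3) (u ()) ≤ K * Y
    calc nn 0 (-1 / 2 - 3) (u ()) ≤ C₂ * (A * (1 + M)) := h4
      _ ≤ |C₂| * (A * (1 + M)) := mul_le_mul_of_nonneg_right (le_abs_self _) (by positivity)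
      _ = |C₂| * (4 / 3 * C₁ * (1 + M)) * Y := by rw [hA]; ring
      _ ≤ K * Y := mul_le_mul_of_nonneg_right hK hY0
  -- the constant
  choose C hC using bd_BB l0 b1 pr hc (-1 / 2)
  set K : ℝ := K₁ + |C₂| * (4 / 3 * C₁ * (1 + M)) + ∑ s ∈ Finset.range 13, |C s| with hK
  have hS0 : 0 ≤ ∑ s ∈ Finset.range 13, |C s| := Finset.sum_nonneg fun _ _ => abs_nonneg _
  have hT0 : 0 ≤ |C₂| * (4 / 3 * C₁ * (1 + M)) := by positivity
  have hK2 : 2 ≤ K := by linarith
  have hlin : LinOp id (-1 / 2) K (Gf g) (BB (cf g U)) :=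
    { ell :=
        { sym := hG
          bd := fun i j => l0.mono (hbd i j) subset_rfl le_rfl le_rfl (by linarith)
          symm := fun i j => funext fun y => ((hs.symm y).inv.apply j i)
          ell := fun y ξ => le_trans (mul_le_mul_of_nonneg_right
            (inv_anti₀ (by linarith) (by linarith)) (nsq_nonneg l0 ξ)) (hell y ξ) }
      add := fun u v hu hv => by
        funext α
        simp only [BB, Pi.add_apply, pd_add (hu.1 α).1 (hv.1 α).1, mul_add,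
          Finset.sum_add_distrib, smul_add]
      smul := fun a u hu => by
        funext α y
        simp only [BB, Pi.smul_apply, pd_smul (hu.1 α).1, Pi.add_apply, Pi.mul_apply,
          smul_eq_mul, Fin.sum_univ_four]
        ring
      adm := fun u hu => ⟨cc_BB l0 hc hu.1, fun _ => rfl⟩
      bd := fun s => ⟨C s, hC s⟩
      bdK := fun s hs12 u hu => by
        refine (hC s u hu).trans (mul_le_mul_of_nonneg_right ?_
          (Finset.sum_nonneg fun _ _ => Yn_nonneg l0 _ _ _ _))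
        have h1 : |C s| ≤ ∑ s ∈ Finset.range 13, |C s| :=
          Finset.single_le_sum (f := fun s => |C s|) (fun _ _ => abs_nonneg _)
            (Finset.mem_range.2 (by omega))
        linarith [le_abs_self (C s)] }
  obtain ⟨p, hp⟩ := nl Unit id (-1 / 2) (fun _ => rfl) (by norm_num [abs_le])
  -- the source
  let q : Pt → ℝ := (1 / 4 : ℝ) • wt 2
  have hq : IsSym 2 q := gr.smul (d := 0) (j := 0) _ (l0.wt_sym 2)
  let F₀ : Pt → ℝ := (1 / 4 : ℝ) • (1 : Pt → ℝ) + (-1 : ℝ) • lapF g U q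
  have hF₀ : IsSym 0 F₀ := by
    refine gr.add (d := 0) (j := 0) (gr.smul (d := 0) (j := 0) _ gr.one)
      (gr.smul (d := 0) (j := 0) _ ?_)
    simpa using hlap _ _ hq
  obtain ⟨E, hE⟩ := hF₀.2 12
  have hE0 : 0 ≤ E := sym_nonneg l0 b1 hE
  have hKp : 0 < K ^ p := by positivity
  set t : ℝ := (K ^ p)⁻¹ * (E + 1)⁻¹ with ht
  have ht0 : 0 < t := by positivity
  have htE : |t| * E ≤ (K ^ p)⁻¹ := by
    rw [abs_of_pos ht0, ht, mul_assoc]
    refine mul_le_of_le_one_right (by positivity) ?_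
    rw [← div_eq_inv_mul, div_le_one (by positivity)]
    linarith
  have e0 : -(-1 / 2 : ℝ) - 1 / 2 = 0 := by norm_num
  obtain ⟨h, -, hh, -, heq⟩ := hp K 1 (|t| * E) (Gf g) (BB (cf g U)) (fun _ => 0)
    (fun _ => t • F₀) hK2 hlin
    (le_trans (inv_anti₀ (by norm_num) hK2) (by norm_num)) (hmph K (by linarith))
    (qhyp l0 _ _ _ (by linarith)) (by funext α y; simp [BB, pd]) (fun _ => rfl)
    (fun _ => by rw [e0]; exact gr.smul (d := 0) (j := 0) _ hF₀)
    (fun _ => by rw [e0]; exact l0.smul t hF₀.1 hE) htE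
  have hh' : IsSym (1 / 2) (h ()) := by
    have := hh ()
    rwa [show -(-1 / 2 : ℝ) = 1 / 2 by norm_num] at this
  have hhs := sym_sm hh'
  have hqs := sym_sm hq
  refine ⟨t⁻¹ • h () + (1 / 4 : ℝ) • (1 : Pt → ℝ), gr.add (d := 0) (j := 0)
    (gr.smul (d := 0) (j := 0) _ hh')
    (gr.smul (d := 0) (j := 0) _ (gr.mono (d := 0) (j' := 0) gr.one le_rfl (by norm_num) (by norm_num))), ?_⟩
  have e1 : (fun y => -(nsq y / 4 + (t⁻¹ • h () + (1 / 4 : ℝ) • (1 : Pt → ℝ)) y)) =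
      (-1 : ℝ) • (q + t⁻¹ • h ()) := by
    funext y
    simp only [q, Pi.add_apply, Pi.smul_apply, smul_eq_mul, Pi.one_apply, l0.wt_two]
    ring
  rw [e1]
  funext y
  have hts : ContDiff ℝ ∞ (t⁻¹ • h ()) := hhs.const_smul t⁻¹
  have hqt : ContDiff ℝ ∞ (q + t⁻¹ • h ()) := hqs.add hts
  rw [lap_smul _ _ hqt, lap_add _ _ hqs hts, lap_smul _ _ hhs]
  have h1 : lapF g (Vf U) (h ()) y - 1 * h () y = t * (1 / 4 - lapF g U q y) := by
    rw [← LV_eq]
    have := congrFun (congrFun heq ()) y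
    simp only [Pi.add_apply, Pi.zero_apply, add_zero, Pi.smul_apply, smul_eq_mul, F₀,
      Pi.one_apply] at this
    rw [this]
    ring
  have h2 : lapF g (Vf U) q y = lapF g U q y + nsq y / 4 := by
    rw [lap_split]
    have : rad q y = 1 / 4 * rad (wt 2) y := by
      simp only [rad, q, pd_smul (sym_sm (l0.wt_sym 2)), Pi.smul_apply, smul_eq_mul,
        Fin.sum_univ_four]
      ring
    rw [this, rad_wt l0, sub_self, l0.wt_zero]
    ring
  have h3 : lapF g (Vf U) (h ()) y = h () y + t * (1 / 4 - lapF g U q y) := by linarith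
  rw [h2, h3]
  simp only [q, Pi.add_apply, Pi.smul_apply, smul_eq_mul, l0.wt_two]
  field_simp
  ring

end Pool.Agent.Lib.MP_df9110_gt
end

-- part Pool.Agent.Lib.MP_df9110_gt.Fw
section

/-! The soliton vector field is the gradient of the potential. -/

namespace Pool.Agent.Lib.MP_df9110_gt

open Filter Topology
open scoped ContDiff

namespace Fw

theorem lap_lin {R : Type} [CommRing R] [Algebra ℝ R] {ι : Type} [Fintype ι] {D : ι → R → R}
    (hD : IsDer D) (G : ι → ι → R) (Γ : ι → ι → ι → R) (V : ι → R) (t M : ℝ) (w W : R) :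
    gLapV D G Γ V (t • (w + algebraMap ℝ R M) - W) =
      t • gLapV D G Γ V w - gLapV D G Γ V W := by
  simp only [gLapV, gTr, gHess, hD.sub, hD.smul, hD.add, hD.algebraMap, add_zero, smul_sub,
    Finset.smul_sum, mul_sub, Finset.sum_sub_distrib, mul_smul_comm, Finset.mul_sum]
  abel

theorem qf_pos {G : Mat} (hG : G.PosDef) {v : Fin 4 → ℝ} (hv : v ≠ 0) :
    0 < ∑ i, ∑ j, G i j * (v i * v j) := by
  have := hG.dotProduct_mulVec_pos hv
  refine this.trans_eq ?_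
  simp only [dotProduct, Matrix.mulVec, star_trivial, Finset.mul_sum]
  exact Finset.sum_congr rfl fun i _ => Finset.sum_congr rfl fun j _ => by ring

theorem ip_nonneg {G : Mat} (hG : G.PosDef) (h : Fin 4 → Fin 4 → ℝ) :
    0 ≤ ∑ a, ∑ b, ∑ c, ∑ d, G a c * G b d * h a b * h c d := by
  have := (hG.posSemidef.kronecker hG.posSemidef).dotProduct_mulVec_nonneg
    fun z : Fin 4 × Fin 4 => h z.1 z.2
  refine this.trans_eq ?_
  simp only [dotProduct, Matrix.mulVec, star_trivial, Finset.mul_sum, Fintype.sum_prod_type,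
    Matrix.kroneckerMap_apply]
  exact Finset.sum_congr rfl fun a _ => Finset.sum_congr rfl fun b _ =>
    Finset.sum_congr rfl fun c _ => Finset.sum_congr rfl fun d _ => by ring

theorem sym_cd {m : ℝ} {f : Pt → ℝ} (h : IsSym m f) : ContDiff ℝ ∞ f :=
  contDiff_iff_contDiffAt.2 fun y => h.1 y trivial

theorem sym_on {m : ℝ} {f : Pt → ℝ} (h : IsSym m f) (U : Set Pt) : IsSymOn U m f :=
  ⟨fun y _ => h.1 y trivial, fun k => (h.2 k).imp fun _ hC y _ => hC y trivial⟩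

theorem sym_bd {U : Set Pt} {m : ℝ} {f : Pt → ℝ} (h : IsSymOn U m f) :
    ∃ C : ℝ, ∀ y ∈ U, |f y| ≤ C * wt m y := h.2 0

theorem sym_sum {U : Set Pt} (hP : Grd 1 pd fun _ _ m f => IsSymOn U m f) {m : ℝ}
    {f : Fin 4 → Pt → ℝ} (h : ∀ i, IsSymOn U m (f i)) : IsSymOn U m (∑ i, f i) := by
  rw [Fin.sum_univ_four]
  exact hP.add (d := 0) (j := 0) (hP.add (d := 0) (j := 0) (hP.add (d := 0) (j := 0) (h 0) (h 1))
    (h 2)) (h 3)

theorem sol_inv (l0 : L0Facts) {g : Pt → Mat} {U : Fin 4 → Pt → ℝ} (hs : Sol g U) :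
    (∀ a b, IsSym 0 (Gf g a b)) ∧ IsMetricOn g Set.univ := by
  obtain ⟨c, hc, hell⟩ := hs.ell
  have key : ∀ k, ∃ C : ℝ, (∀ i j, ∀ y ∈ Set.univ, ContDiffAt ℝ ∞ (fun z => (g z)⁻¹ i j) y) ∧
      (∀ i j, SymOn Set.univ 0 k (fun z => (g z)⁻¹ i j) C) ∧ ∀ y, (g y).PosDef := by
    intro k
    obtain ⟨p, hp⟩ := l0.inv k
    choose C hC using fun a b => (hs.sym a b).2 k
    obtain ⟨B, hB⟩ := Finite.exists_le fun z : Fin 4 × Fin 4 => C z.1 z.2
    have h1 := hp Set.univ g (max (max 2 B) c⁻¹) ((le_max_left _ _).trans (le_max_left _ _))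
      (fun i j => (hs.sym i j).1) hs.symm
      (fun i j => l0.mono (hC i j) subset_rfl le_rfl le_rfl
        ((hB (i, j)).trans ((le_max_right _ _).trans (le_max_left _ _))))
      (fun y _ ξ => le_trans (mul_le_mul_of_nonneg_right
        (inv_le_of_inv_le₀ hc (le_max_right _ _))
        (Finset.sum_nonneg fun i _ => sq_nonneg _)) (hell y ξ))
    exact ⟨_, h1.1, h1.2.1, fun y => (h1.2.2 y trivial).1⟩
  obtain ⟨C0, h1, -, h2⟩ := key 0
  exact ⟨fun a b => ⟨h1 a b, fun k => (key k).imp fun _ h => h.2.1 a b⟩,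
    fun i j => (sym_cd (hs.sym i j)).contDiffOn, fun y _ => h2 y⟩

theorem cd_nsq : ContDiff ℝ ∞ nsq := by
  unfold nsq
  fun_prop

theorem pd_pot (l0 : L0Facts) {τ : Pt → ℝ} (hτ : ContDiff ℝ ∞ τ) (i : Fin 4) (y : Pt) :
    pd i (fun y => -(nsq y / 4 + τ y)) y = -(y i / 2) - pd i τ y := by
  have h1 : (fun y => -(nsq y / 4 + τ y)) =
      (-1 / 4 : ℝ) • wt 2 + ((-1 : ℝ) • τ + fun _ => 1 / 4) := by
    funext z
    simp only [Pi.add_apply, Pi.smul_apply, smul_eq_mul, l0.wt_two]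
    ring
  have d1 : DifferentiableAt ℝ (wt 2) y := (sym_cd (l0.wt_sym 2)).differentiable (by simp) y
  have d2 : DifferentiableAt ℝ τ y := hτ.differentiable (by simp) y
  have h2 := l0.wt_pd 2 i y
  rw [sub_self, l0.wt_zero, pd_eq_pdn] at h2
  have h3 : pdn i (fun _ : Pt => (1 / 4 : ℝ)) y = 0 := by simp [pdn]
  rw [h1, pd_eq_pdn, pdn_add (d1.const_smul _) ((d2.const_smul _).add (differentiableAt_const _)),
    pdn_add (d2.const_smul _) (differentiableAt_const _), pdn_smul d1, pdn_smul d2, h2, h3]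
  ring

theorem wt_tendsto : Tendsto (wt (-1 / 2)) (cocompact Pt) (𝓝 0) := by
  have h1 : Tendsto (fun y : Pt => 1 + nsq y) (cocompact Pt) atTop := by
    refine tendsto_atTop_mono (fun y => ?_) (tendsto_norm_cocompact_atTop (E := Pt))
    have h0 : 0 ≤ nsq y := Finset.sum_nonneg fun i _ => sq_nonneg _
    refine (pi_norm_le_iff_of_nonneg (by linarith)).2 fun i => ?_
    have h2 : y i ^ 2 ≤ nsq y :=
      Finset.single_le_sum (f := fun i => y i ^ 2) (fun i _ => sq_nonneg _) (Finset.mem_univ i)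
    rw [Real.norm_eq_abs, abs_le]
    constructor <;> nlinarith [sq_nonneg (y i - 1), sq_nonneg (y i + 1)]
  have h2 := (tendsto_rpow_neg_atTop (y := 1 / 4) (by norm_num)).comp h1
  refine h2.congr fun y => ?_
  simp only [wt, Function.comp]
  norm_num

theorem ev_ext1 : ∀ᶠ y in cocompact Pt, y ∈ ext1 := by
  filter_upwards [(tendsto_norm_cocompact_atTop (E := Pt)).eventually_gt_atTop 1] with y hy
  by_contra h
  have h1 : nsq y ≤ 1 := not_lt.1 h
  refine absurd hy (not_lt.2 ((pi_norm_le_iff_of_nonneg zero_le_one).2 fun i => ?_))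
  have h2 : y i ^ 2 ≤ nsq y :=
    Finset.single_le_sum (f := fun i => y i ^ 2) (fun i _ => sq_nonneg _) (Finset.mem_univ i)
  rw [Real.norm_eq_abs, abs_le]
  constructor <;> nlinarith [sq_nonneg (y i - 1), sq_nonneg (y i + 1)]

theorem isOpen_ext1 : IsOpen ext1 := isOpen_lt continuous_const cd_nsq.continuous

/-- The barrier. -/
theorem barrier (l0 : L0Facts) (m0 : M0Stmt) (t9 : T9Stmt) {g : Pt → Mat} {U : Fin 4 → Pt → ℝ}
    (hs : Sol g U) : ∃ M : ℝ, 0 < M ∧ ∀ y, lapF g (Vf U) (wt (3 / 2)) y < wt (3 / 2) y + M := by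
  have hP := (m0.2 Set.univ 0 isOpen_univ le_rfl).1
  have h1 : IsSymOn Set.univ (3 / 2 - 2) (gLapV pd (Gf g) (chrF g) U (wt (3 / 2))) :=
    (((t9.1 (Pt → ℝ) (Fin 4) pd _ hP).chr (gf g) (Gf g) hs.sym (sol_inv l0 hs).1).2.2.2.2 U
      hs.U_sym).2 0 (3 / 2) (wt (3 / 2)) (l0.wt_sym _)
  obtain ⟨C, hC⟩ := sym_bd h1
  refine ⟨|C| + 1, by positivity, fun y => ?_⟩
  have h2 : lapF g (Vf U) (wt (3 / 2)) y = gLapV pd (Gf g) (chrF g) U (wt (3 / 2)) y +
      1 / 2 * ∑ k, y k * pd k (wt (3 / 2)) y := by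
    simp only [lapF, gLapV, Vf, Pi.sub_apply, Pi.mul_apply, Pi.add_apply,
      Pi.smul_apply, smul_eq_mul, Fin.sum_univ_four]
    ring
  have h3 : ∑ k, y k * pd k (wt (3 / 2)) y = 3 / 2 * (nsq y * wt (3 / 2 - 2) y) := by
    simp only [l0.wt_pd, nsq, Fin.sum_univ_four]
    ring
  have h4 : wt (3 / 2) y = (1 + nsq y) * wt (3 / 2 - 2) y := by
    rw [← l0.wt_two, ← l0.wt_add]
    norm_num
  have h5 : wt (3 / 2 - 2) y ≤ 1 := (l0.wt_mono (by norm_num) y).trans_eq (l0.wt_zero y)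
  have h6 := l0.wt_pos (3 / 2 - 2) y
  have h7 := (le_abs_self _).trans (hC y trivial)
  have h8 : C * wt (3 / 2 - 2) y ≤ |C| :=
    (mul_le_mul_of_nonneg_right (le_abs_self C) h6.le).trans
      (mul_le_of_le_one_right (abs_nonneg C) h5)
  have h9 : 0 ≤ nsq y * wt (3 / 2 - 2) y :=
    mul_nonneg (Finset.sum_nonneg fun i _ => sq_nonneg _) h6.le
  rw [h2, h3, h4]
  nlinarith

/-- The growth of the square of the defect. -/
theorem growth (l0 : L0Facts) (m0 : M0Stmt) {g γ : Pt → Mat} {U : Fin 4 → Pt → ℝ} {τ : Pt → ℝ}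
    (hs : Sol g U) (hγ : IsCone γ) (hd : ∀ a b, IsSymOn ext1 (-1 / 2) (gf g a b - gf γ a b))
    (hτ : IsSym (1 / 2) τ) (om : Fin 4 → Pt → ℝ)
    (hom : ∀ i y, om i y = pd i (fun y => -(nsq y / 4 + τ y)) y - ∑ k, g y i k * Vf U k y) :
    ∃ C : ℝ, ∀ y ∈ ext1, |∑ i, ∑ j, Gf g i j y * (om i y * om j y)| ≤ C * wt 1 y := by
  have hP := (m0.2 ext1 0 isOpen_ext1 le_rfl).1
  have hc : ∀ k, IsSymOn ext1 1 fun y : Pt => y k := fun k =>
    sym_on ⟨fun y _ => (contDiff_apply ℝ ℝ k).contDiffAt, fun n => ⟨1, l0.coord k n⟩⟩ _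
  let om' : Fin 4 → Pt → ℝ := fun i => (-1 : ℝ) • pd i τ +
    ((1 / 2 : ℝ) • ∑ k, (gf g i k - gf γ i k) * (fun y : Pt => y k) +
      (-1 : ℝ) • ∑ k, gf g i k * U k)
  have h1 : ∀ i, IsSymOn ext1 (1 / 2) (om' i) := by
    intro i
    refine hP.add (d := 0) (j := 0) (hP.smul (d := 0) (j := 0) _ ?_)
      (hP.add (d := 0) (j := 0) (hP.smul (d := 0) (j := 0) _ (sym_sum hP fun k => ?_))
        (hP.smul (d := 0) (j := 0) _ (sym_sum hP fun k => ?_)))
    · exact hP.mono (d := 0) (j := 1) (j' := 1)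
        (hP.der (d := 0) (j := 0) i (sym_on hτ _) (by norm_num)) le_rfl (by norm_num) (by norm_num)
    · exact hP.mono (d := 0) (j := 0) (j' := 0) (hP.mul (d := 0) (j := 0) (hd i k) (hc k)) le_rfl
        (by norm_num) (by norm_num)
    · exact hP.mono (d := 0) (j := 0) (j' := 0) (hP.mul (d := 0) (j := 0)
        (sym_on (hs.sym i k) _) (sym_on (hs.U_sym k) _)) le_rfl (by norm_num) (by norm_num)
  have h2 : IsSymOn ext1 1 (∑ i, ∑ j, Gf g i j * (om' i * om' j)) :=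
    sym_sum hP fun i => sym_sum hP fun j => hP.mono (d := 0) (j := 0) (j' := 0)
      (hP.mul (d := 0) (j := 0) (sym_on ((sol_inv l0 hs).1 i j) _)
        (hP.mul (d := 0) (j := 0) (h1 i) (h1 j))) le_rfl (by norm_num) (by norm_num)
  obtain ⟨C, hC⟩ := sym_bd h2
  refine ⟨C, fun y hy => ?_⟩
  have hy0 : y ≠ 0 := by
    rintro rfl
    have : (1 : ℝ) < nsq 0 := hy
    norm_num [nsq] at this
  have h3 : ∀ i, om i y = om' i y := by
    intro i
    have h4 := congrFun (hγ.2 y hy0).2 i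
    simp only [Matrix.mulVec, dotProduct, Fin.sum_univ_four] at h4
    rw [hom, pd_pot l0 (sym_cd hτ)]
    simp only [om', Vf, gf, Pi.add_apply, Pi.smul_apply, Pi.mul_apply, Pi.sub_apply, smul_eq_mul,
      Fin.sum_univ_four]
    linear_combination (1 / 2) * h4
  have h5 := hC y hy
  simp only [Finset.sum_apply, Pi.mul_apply, ← h3] at h5
  exact h5

end Fw

theorem fw (_b1 : B1Stmt) (l0 : L0Facts) (m0 : M0Stmt) (t5 : T5Stmt) (t9 : T9Stmt) (mp : MpStmt) :
    FwStmt := by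
  intro g U γ τ hs hγ hd hτ hf
  obtain ⟨hG, hmet⟩ := Fw.sol_inv l0 hs
  have hV : ∀ k, ContDiff ℝ ∞ (Vf U k) := fun k =>
    ((contDiff_apply ℝ ℝ k).const_smul (-1 / 2 : ℝ)).add (Fw.sym_cd (hs.U_sym k))
  have hfc : ContDiff ℝ ∞ fun y => -(nsq y / 4 + τ y) :=
    ((Fw.cd_nsq.div_const 4).add (Fw.sym_cd hτ)).neg
  let gS : Fin 4 → Fin 4 → Sm 4 := fun a b => ⟨gf g a b, Fw.sym_cd (hs.sym a b)⟩
  let GS : Fin 4 → Fin 4 → Sm 4 := fun a b => ⟨Gf g a b, Fw.sym_cd (hG a b)⟩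
  let VS : Fin 4 → Sm 4 := fun k => ⟨Vf U k, hV k⟩
  let fS : Sm 4 := ⟨fun y => -(nsq y / 4 + τ y), hfc⟩
  let wS : Sm 4 := ⟨wt (3 / 2), Fw.sym_cd (l0.wt_sym _)⟩
  let omS : Fin 4 → Sm 4 := fun i => smD i fS - ∑ k, gS i k * VS k
  have hIs : IsMet gS GS := by
    refine ⟨fun i j => Subtype.ext (funext fun y => ((hs.symm y).apply i j).symm),
      fun i j => Subtype.ext (funext fun y => ((hs.symm y).inv.apply i j).symm), fun i j => ?_⟩
    refine Subtype.ext (funext fun y => ?_)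
    have h1 := congrFun (congrFun (Matrix.nonsing_inv_mul (g y)
      ((Matrix.isUnit_iff_isUnit_det _).1 (hmet.2 y trivial).isUnit)) i) j
    rw [Matrix.mul_apply, Matrix.one_apply] at h1
    have h2 : (∑ k, GS i k * gS k j : Sm 4).1 y = ∑ k, (g y)⁻¹ i k * g y k j := by
      simp [gS, GS, gf, Gf]
    rw [h2, h1]
    split_ifs <;> rfl
  have hchr : (fun a b c => (Sm 4).val (gChr smD gS GS a b c)) = chrF g :=
    funext fun a => funext fun b => funext fun c => map_gChr (Sm 4).val smD_val gS GS a b c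
  have hlap : ∀ u : Sm 4, (gLapV smD GS (gChr smD gS GS) VS u).1 = lapF g (Vf U) u.1 := by
    intro u
    have h1 := map_gLapV (Sm 4).val smD_val GS (gChr smD gS GS) VS u
    rw [hchr] at h1
    exact h1
  have herr : ∀ a b, gErr smD gS (gChr smD gS GS) VS a b = 0 := by
    intro a b
    have h1 := map_gErr (Sm 4).val smD_val gS (gChr smD gS GS) VS a b
    rw [hchr] at h1
    exact Subtype.ext (h1.trans (hs.err a b))
  have hw := (t5 (Sm 4) (Fin 4) smD gS GS isDer_smD hIs).weq VS fS omS herr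
    (Subtype.ext ((hlap fS).trans hf)) fun _ => rfl
  set WS : Sm 4 := ∑ i, ∑ j, GS i j * (omS i * omS j) with hWS
  have hom : ∀ i y, (omS i).1 y =
      pd i (fun y => -(nsq y / 4 + τ y)) y - ∑ k, g y i k * Vf U k y := by
    intro i y
    simp [omS, gS, VS, gf, smD, fS, pd_eq_pdn]
  have hW : ∀ y, WS.1 y = ∑ i, ∑ j, Gf g i j y * ((omS i).1 y * (omS j).1 y) := by
    intro y
    simp [hWS, GS]
  have hsub : ∀ y, WS.1 y ≤ lapF g (Vf U) WS.1 y := by
    intro y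
    rw [← hlap, hw]
    have h1 := Fw.ip_nonneg (hmet.2 y trivial).inv
      fun a b => (gCov1 smD (gChr smD gS GS) omS a b).1 y
    have h2 : (2 * gIp GS (gCov1 smD (gChr smD gS GS) omS) (gCov1 smD (gChr smD gS GS) omS) +
        WS).1 y = 2 * (∑ a, ∑ b, ∑ c, ∑ d, (g y)⁻¹ a c * (g y)⁻¹ b d *
          (gCov1 smD (gChr smD gS GS) omS a b).1 y * (gCov1 smD (gChr smD gS GS) omS c d).1 y) +
          WS.1 y := by
      rw [two_mul, two_mul]
      simp [gIp, GS, Gf]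
    rw [h2]
    linarith
  obtain ⟨M, hM, hbar⟩ := Fw.barrier l0 m0 t9 hs
  obtain ⟨C, hC⟩ := Fw.growth l0 m0 hs hγ hd hτ (fun i => (omS i).1) hom
  have hb : ∀ y, 0 < wt (3 / 2) y + M := fun y => add_pos (l0.wt_pos _ y) hM
  have hle : ∀ y, WS.1 y ≤ 0 := by
    intro y0
    by_contra hy0
    have hq0 : 0 < WS.1 y0 / (wt (3 / 2) y0 + M) := div_pos (not_le.1 hy0) (hb y0)
    have hqc : Continuous fun y => WS.1 y / (wt (3 / 2) y + M) :=
      (Sm.cd WS).continuous.div ((Sm.cd wS).continuous.add continuous_const) fun y => (hb y).ne'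
    obtain ⟨y1, hy1⟩ := hqc.exists_forall_ge' y0 (by
      have h1 := Fw.wt_tendsto.const_mul |C|
      rw [mul_zero] at h1
      filter_upwards [Fw.ev_ext1, h1.eventually (gt_mem_nhds hq0)] with y hy h2
      refine le_trans ?_ h2.le
      rw [div_le_iff₀ (hb y)]
      have h3 := (le_abs_self _).trans (hC y hy)
      rw [← hW] at h3
      have h4 : wt 1 y = wt (-1 / 2) y * wt (3 / 2) y := by
        rw [← l0.wt_add]
        norm_num
      have h5 := l0.wt_pos 1 y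
      have h6 : 0 ≤ |C| * wt (-1 / 2) y * M :=
        mul_nonneg (mul_nonneg (abs_nonneg C) (l0.wt_pos _ y).le) hM.le
      have h7 : C * wt 1 y ≤ |C| * wt 1 y := mul_le_mul_of_nonneg_right (le_abs_self C) h5.le
      rw [h4] at h7 h3
      nlinarith)
    set t := WS.1 y1 / (wt (3 / 2) y1 + M) with ht
    have ht0 : 0 < t := hq0.trans_le (hy1 y0)
    have ht1 : t * (wt (3 / 2) y1 + M) = WS.1 y1 := div_mul_cancel₀ _ (hb y1).ne'
    let uS : Sm 4 := t • (wS + algebraMap ℝ (Sm 4) M) - WS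
    have hu : ∀ y, uS.1 y = t * (wt (3 / 2) y + M) - WS.1 y := fun y => rfl
    have hmin : IsLocalMin uS.1 y1 := Eventually.of_forall fun y => by
      have h1 := (div_le_iff₀ (hb y)).1 (hy1 y)
      rw [hu, hu]
      linarith
    have h1 := (mp g (Vf U) hmet hV).1 uS.1 y1 (Sm.cd uS) hmin
    rw [← hlap, Fw.lap_lin isDer_smD] at h1
    have h2 : (t • gLapV smD GS (gChr smD gS GS) VS wS - gLapV smD GS (gChr smD gS GS) VS WS).1 y1 =
        t * lapF g (Vf U) (wt (3 / 2)) y1 - lapF g (Vf U) WS.1 y1 := by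
      rw [← hlap WS, ← hlap wS]
      rfl
    rw [h2] at h1
    have h3 := mul_lt_mul_of_pos_left (hbar y1) ht0
    have h4 := hsub y1
    linarith
  intro y i
  have h0 : (fun i => (omS i).1 y) = 0 := by
    by_contra h
    have h1 := Fw.qf_pos (hmet.2 y trivial).inv h
    have h2 := hle y
    rw [hW] at h2
    exact absurd h1 (not_lt.2 h2)
  have h1 : (omS i).1 y = 0 := congrFun h0 i
  rw [hom] at h1
  exact sub_eq_zero.1 h1

end Pool.Agent.Lib.MP_df9110_gt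
end
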