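import Pool.Agent.Lib.MP_df9110_gt.NGeo

-- part Pool.Agent.Lib.MP_df9110_gt.Avg
section

/-! Evaluation at `σ = 0` and averaging in `σ` for germs on star-shaped domains. -/

namespace Pool.Agent.Lib.MP_df9110_gt

open Filter Topology Set MeasureTheory
open scoped ContDiff

namespace Avg

/-- Scaling of the first coordinate. -/
def sc (t : ℝ) (p : En 2) : En 2 := ![t * p 0, p 1]

theorem sc_one (p : En 2) : sc 1 p = p := by
  ext i; fin_cases i <;> simp [sc]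

theorem sc_zero (p : En 2) : sc 0 p = ![0, p 1] := by simp [sc]

theorem sc_zero_sc (t : ℝ) (p : En 2) : sc 0 (sc t p) = sc 0 p := by simp [sc]

theorem cd_sc2 : ContDiff ℝ ∞ fun z : ℝ × En 2 => sc z.1 z.2 := by
  refine contDiff_pi.2 fun i => ?_
  fin_cases i
  · change ContDiff ℝ ∞ fun z : ℝ × En 2 => z.1 * z.2 0
    fun_prop
  · change ContDiff ℝ ∞ fun z : ℝ × En 2 => z.2 1
    fun_prop

theorem cd_sc (t : ℝ) : ContDiff ℝ ∞ (sc t) :=
  cd_sc2.comp (contDiff_const.prodMk contDiff_id)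

theorem cont_sc (p : En 2) : Continuous fun t => sc t p :=
  cd_sc2.continuous.comp (continuous_id.prodMk continuous_const)

/-- `sc t` as a linear map. -/
noncomputable def scL (t : ℝ) : En 2 →L[ℝ] En 2 :=
  ContinuousLinearMap.pi ![t • ContinuousLinearMap.proj 0, ContinuousLinearMap.proj 1]

theorem scL_apply (t : ℝ) (p : En 2) : scL t p = sc t p := by
  ext i; fin_cases i <;> simp [scL, sc]

theorem pdn_sc {f : En 2 → ℝ} {t : ℝ} {p : En 2} (hf : DifferentiableAt ℝ f (sc t p)) :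
    pdn 0 (fun q => f (sc t q)) p = t * pdn 0 f (sc t p) ∧
      pdn 1 (fun q => f (sc t q)) p = pdn 1 f (sc t p) := by
  have h1 : HasFDerivAt (sc t) (scL t) p := by
    rw [← funext (scL_apply t)]; exact (scL t).hasFDerivAt
  have h2 : fderiv ℝ (fun q => f (sc t q)) p = (fderiv ℝ f (sc t p)).comp (scL t) :=
    (hf.hasFDerivAt.comp p h1).fderiv
  have h3 : scL t (Pi.single 0 1) = t • (Pi.single 0 1 : En 2) := by
    ext i; fin_cases i <;> simp [scL_apply, sc]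
  have h4 : scL t (Pi.single 1 1) = (Pi.single 1 1 : En 2) := by
    ext i; fin_cases i <;> simp [scL_apply, sc]
  unfold pdn
  rw [h2, ContinuousLinearMap.comp_apply, ContinuousLinearMap.comp_apply, h3, h4, map_smul]
  exact ⟨rfl, rfl⟩

theorem der_sc {f : En 2 → ℝ} {t : ℝ} {p : En 2} (hf : DifferentiableAt ℝ f (sc t p)) :
    HasDerivAt (fun s => f (sc s p)) (p 0 * pdn 0 f (sc t p)) t := by
  have h1 : HasDerivAt (fun s => sc s p) (p 0 • (Pi.single 0 1 : En 2)) t := by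
    refine hasDerivAt_pi.2 fun i => ?_
    fin_cases i
    · simpa [sc] using (hasDerivAt_id t).mul_const (p 0)
    · simpa [sc] using hasDerivAt_const t (p 1)
  have h2 := hf.hasFDerivAt.comp_hasDerivAt t h1
  rwa [map_smul] at h2

theorem wb_sc (b1 : B1Stmt) {t : ℝ} (ht : |t| ≤ 1) {p : En 2} (k : ℕ) :
    ∀ {f : En 2 → ℝ} {C : ℝ}, ContDiffAt ℝ ∞ f (sc t p) → WB 1 k C f (sc t p) →
      WB 1 k C (fun q => f (sc t q)) p := by
  induction k with
  | zero => exact fun _ h => h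
  | succ k ih =>
    intro f C hf h
    have hd : ∀ᶠ q in 𝓝 p, DifferentiableAt ℝ f (sc t q) :=
      (cd_sc t).continuous.continuousAt.eventually (ev_diff hf)
    refine ⟨h.1, fun i => ?_⟩
    have h1 := ih (contDiffAt_pdn hf i) (h.2 i)
    fin_cases i
    · have h2 := (b1 2).smul t ((contDiffAt_pdn hf 0).comp p (cd_sc t).contDiffAt) h1
      have h3 := (abs_nonneg _).trans ((b1 2).nonneg h1)
      refine (b1 2).congr ((b1 2).mono h2 zero_le_one le_rfl (mul_le_of_le_one_left h3 ht)) ?_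
      exact hd.mono fun q hq => (pdn_sc hq).1.symm
    · exact (b1 2).congr h1 (hd.mono fun q hq => (pdn_sc hq).2.symm)

/-- Open and star-shaped in the first coordinate. -/
structure St (U : Set (En 2)) : Prop where
  op : IsOpen U
  st : ∀ p ∈ U, ∀ t ∈ Icc (0 : ℝ) 1, sc t p ∈ U

/-- The average of a function. -/
noncomputable def av (f : En 2 → ℝ) (p : En 2) : ℝ := ∫ t in (0 : ℝ)..1, f (sc t p)

theorem av_eq (f : En 2 → ℝ) : av f = fun p => ∫ t in Ioo (0 : ℝ) 1, f (sc t p) := by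
  funext p
  rw [av, intervalIntegral.integral_of_le zero_le_one, integral_Ioc_eq_integral_Ioo]

section Fun
variable {U : Set (En 2)} (hU : St U) {f g : En 2 → ℝ} {p : En 2}
include hU

theorem St.st' (hp : p ∈ U) {t : ℝ} (ht : t ∈ uIcc (0 : ℝ) 1) : sc t p ∈ U :=
  hU.st p hp t (by rwa [uIcc_of_le zero_le_one] at ht)

theorem St.cont (hf : ∀ p ∈ U, ContDiffAt ℝ ∞ f p) (hp : p ∈ U) :
    ContinuousOn (fun t => f (sc t p)) (uIcc (0 : ℝ) 1) := fun _ ht =>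
  (ContinuousAt.comp (f := fun t => sc t p) (hf _ (hU.st' hp ht)).continuousAt
    (cont_sc p).continuousAt).continuousWithinAt

theorem St.congr (h : ∀ p ∈ U, f p = g p) (hp : p ∈ U) : av f p = av g p :=
  intervalIntegral.integral_congr fun _ ht => h _ (hU.st' hp ht)

theorem St.add (hf : ∀ p ∈ U, ContDiffAt ℝ ∞ f p) (hg : ∀ p ∈ U, ContDiffAt ℝ ∞ g p)
    (hp : p ∈ U) : av (f + g) p = av f p + av g p :=
  intervalIntegral.integral_add (hU.cont hf hp).intervalIntegrable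
    (hU.cont hg hp).intervalIntegrable

theorem St.ftc (hf : ∀ p ∈ U, ContDiffAt ℝ ∞ f p) (hp : p ∈ U) :
    p 0 * av (pdn 0 f) p = f p - f (sc 0 p) := by
  rw [av, ← intervalIntegral.integral_const_mul,
    intervalIntegral.integral_eq_sub_of_hasDerivAt (f := fun s => f (sc s p))
      (fun t ht => der_sc ((hf _ (hU.st' hp ht)).differentiableAt (by simp)))
      (continuousOn_const.mul (hU.cont (fun q hq => contDiffAt_pdn (hf q hq) 0)
        hp)).intervalIntegrable, sc_one]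

theorem St.fix (hf : ∀ p ∈ U, ContDiffAt ℝ ∞ f p) (h0 : ∀ p ∈ U, pdn 0 f p = 0) (hp : p ∈ U) :
    f (sc 0 p) = f p := by
  have h1 := hU.ftc hf hp
  rw [hU.congr (g := fun _ => 0) h0 hp] at h1
  simp only [av, intervalIntegral.integral_zero, mul_zero] at h1
  linarith

theorem St.mul (hf : ∀ p ∈ U, ContDiffAt ℝ ∞ f p) (h0 : ∀ p ∈ U, pdn 0 f p = 0) (hp : p ∈ U) :
    av (f * g) p = f p * av g p := by
  rw [av, av, ← intervalIntegral.integral_const_mul]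
  refine intervalIntegral.integral_congr fun t ht => ?_
  change f (sc t p) * g (sc t p) = f p * g (sc t p)
  rw [← hU.fix hf h0 (hU.st' hp ht), sc_zero_sc, hU.fix hf h0 hp]

theorem St.pi (b1 : B1Stmt) (pi1 : PI1Stmt) (hf : ∀ p ∈ U, ContDiffAt ℝ ∞ f p) :
    (∀ p ∈ U, ContDiffAt ℝ ∞ (av f) p) ∧
    (∀ p ∈ U, pdn 0 (av f) p = ∫ t in (0 : ℝ)..1, t * pdn 0 f (sc t p)) ∧
    ∀ p ∈ U, ∀ (k : ℕ) (C : ℝ), (∀ t ∈ Icc (0 : ℝ) 1, WB 1 k C f (sc t p)) →
      WB 1 k C (av f) p := by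
  have ab : ∀ t ∈ Ioo (0 : ℝ) 1, |t| ≤ 1 := fun t ht => by rw [abs_of_pos ht.1]; exact ht.2.le
  obtain ⟨h1, h2, h3⟩ := pi1 2 (Ioo 0 1) U (fun t q => f (sc t q)) isOpen_Ioo hU.op
    (fun z hz => ((hf _ (hU.st _ hz.2 _ (Ioo_subset_Icc_self hz.1))).comp z
      cd_sc2.contDiffAt).contDiffWithinAt)
    (fun p hp k => by
      obtain ⟨K, hK, hp', hKU⟩ := exists_compact_subset hU.op hp
      obtain ⟨C, hC⟩ := (b1 2).compact (f := f)
        ((isCompact_Icc.prod hK).image cd_sc2.continuous (s := Icc (0 : ℝ) 1 ×ˢ K))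
        (by rintro _ ⟨z, hz, rfl⟩; exact hf _ (hU.st _ (hKU hz.2) _ hz.1)) k
      refine ⟨fun _ => C, integrableOn_const (by simp), ?_⟩
      filter_upwards [mem_interior_iff_mem_nhds.1 hp'] with q hq t ht
      exact wb_sc b1 (ab t ht) k (hf _ (hU.st _ (hKU hq) _ (Ioo_subset_Icc_self ht)))
        (hC _ ⟨(t, q), ⟨Ioo_subset_Icc_self ht, hq⟩, rfl⟩))
  rw [av_eq]
  refine ⟨h1, fun p hp => ?_, fun p hp k C h => ?_⟩
  · rw [h2 p hp, intervalIntegral.integral_of_le zero_le_one, integral_Ioc_eq_integral_Ioo]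
    exact setIntegral_congr_fun measurableSet_Ioo fun t ht =>
      (pdn_sc ((hf _ (hU.st _ hp _ (Ioo_subset_Icc_self ht))).differentiableAt (by simp))).1
  · have := h3 p hp 1 k (fun _ => C) (integrableOn_const (by simp)) fun t ht =>
      wb_sc b1 (ab t ht) k (hf _ (hU.st _ hp _ (Ioo_subset_Icc_self ht)))
        (h t (Ioo_subset_Icc_self ht))
    simpa using this

end Fun

theorem pdn_crd (p : En 2) : pdn 0 (fun q : En 2 => q 0) p = 1 ∧ pdn 1 (fun q : En 2 => q 0) p = 0 := by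
  have h : fderiv ℝ (fun q : En 2 => q 0) p = ContinuousLinearMap.proj 0 :=
    (hasFDerivAt_apply (𝕜 := ℝ) 0 p).fderiv
  unfold pdn
  rw [h]
  simp

theorem St.der {U : Set (En 2)} (hU : St U) (b1 : B1Stmt) (pi1 : PI1Stmt) {f : En 2 → ℝ}
    (hf : ∀ p ∈ U, ContDiffAt ℝ ∞ f p) {p : En 2} (hp : p ∈ U) :
    pdn 0 ((fun q : En 2 => q 0) * av f) p = f p := by
  obtain ⟨h1, h2, -⟩ := hU.pi b1 pi1 hf
  have c1 := hU.cont hf hp
  have c2 := hU.cont (fun q hq => contDiffAt_pdn (hf q hq) 0) hp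
  have c3 : ContinuousOn (fun t : ℝ => p 0 * (t * pdn 0 f (sc t p))) (uIcc (0 : ℝ) 1) :=
    continuousOn_const.mul (continuousOn_id.mul c2)
  rw [pdn_mul (by fun_prop) ((h1 p hp).differentiableAt (by simp)), (pdn_crd p).1, h2 p hp,
    one_mul, av, ← intervalIntegral.integral_const_mul,
    ← intervalIntegral.integral_add c3.intervalIntegrable c1.intervalIntegrable,
    intervalIntegral.integral_eq_sub_of_hasDerivAt (f := fun s => s * f (sc s p))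
      (f' := fun t => p 0 * (t * pdn 0 f (sc t p)) + f (sc t p)) (fun t ht => by
        have := (hasDerivAt_id t).mul (der_sc ((hf _ (hU.st' hp ht)).differentiableAt (by simp)))
        refine this.congr_deriv ?_
        simp only [id]
        ring) (c3.add c1).intervalIntegrable, sc_one]
  simp

theorem cd_deriv {f : ℝ → ℝ} {x : ℝ} (hf : ContDiffAt ℝ ∞ f x) : ContDiffAt ℝ ∞ (deriv f) x :=
  (hf.fderiv_right (m := ∞) (by simp)).clm_apply contDiffAt_const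

theorem pdn_x {f : ℝ → ℝ} {p : En 2} (hf : DifferentiableAt ℝ f (p 1)) :
    pdn 0 (fun q : En 2 => f (q 1)) p = 0 ∧ pdn 1 (fun q : En 2 => f (q 1)) p = deriv f (p 1) := by
  have h := (hf.hasDerivAt.comp_hasFDerivAt p (hasFDerivAt_apply (𝕜 := ℝ) 1 p)).fderiv
  unfold pdn
  rw [show (fun q : En 2 => f (q 1)) = f ∘ fun q : En 2 => q 1 from rfl, h]
  simp

theorem wb_x (b1 : B1Stmt) {p : En 2} (k : ℕ) : ∀ {f : ℝ → ℝ} {C : ℝ}, ContDiffAt ℝ ∞ f (p 1) →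
    (∀ j ≤ k, |iteratedDeriv j f (p 1)| ≤ C) → WB 1 k C (fun q : En 2 => f (q 1)) p := by
  induction k with
  | zero => exact fun _ h => h 0 le_rfl
  | succ k ih =>
    intro f C hf h
    have h0 : |f (p 1)| ≤ C := h 0 (Nat.zero_le _)
    have h1 : ContDiffAt ℝ 1 f (p 1) := hf.of_le (by simp)
    have hd : ∀ᶠ q : En 2 in 𝓝 p, DifferentiableAt ℝ f (q 1) :=
      ((continuous_apply 1).continuousAt.eventually (h1.eventually (by simp))).mono
        fun q hq => hq.differentiableAt (by simp)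
    refine ⟨h0, fun i => ?_⟩
    rw [mul_one]
    fin_cases i
    · refine (b1 2).congr ((b1 2).mono ((b1 2).const k 0 p zero_le_one) zero_le_one le_rfl ?_)
        (hd.mono fun q hq => (pdn_x hq).1.symm)
      rw [abs_zero]
      exact (abs_nonneg _).trans h0
    · refine (b1 2).congr (ih (cd_deriv hf) fun j hj => ?_) (hd.mono fun q hq => (pdn_x hq).2.symm)
      rw [← iteratedDeriv_succ']
      exact h _ (Nat.succ_le_succ hj)

theorem unif {f w : ℝ → ℝ} {S : Set ℝ}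
    (h : ∀ k, ∃ C : ℝ, ∀ x ∈ S, |iteratedDeriv k f x| ≤ C * |w x|) (k : ℕ) :
    ∃ C : ℝ, ∀ x ∈ S, ∀ j ≤ k, |iteratedDeriv j f x| ≤ C * |w x| := by
  choose C hC using h
  refine ⟨∑ j ∈ Finset.range (k + 1), |C j|, fun x hx j hj => (hC j x hx).trans ?_⟩
  refine mul_le_mul_of_nonneg_right ((le_abs_self _).trans ?_) (abs_nonneg _)
  exact Finset.single_le_sum (f := fun j => |C j|) (fun _ _ => abs_nonneg _)
    (Finset.mem_range.2 (Nat.lt_succ_of_le hj))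

theorem facts (b1 : B1Stmt) (b2 : B2Stmt) (pi1 : PI1Stmt) {Ω : ℝ → Set (En 2)} {a b : ℝ}
    (hΩ : ∀ ε, St (Ω ε)) (hab : ∀ ε, ∀ p ∈ Ω ε, p 1 ∈ Ioo a b) {l : Filter Z2} [OpF l]
    (hl : l = fam (𝓝[>] 0) Ω) : AvgFacts l a b := by
  have ev : ∀ {P : Z2 → Prop}, (∀ᶠ z in l, P z) ↔ ∀ᶠ ε in 𝓝[>] (0 : ℝ), ∀ p ∈ Ω ε, P (ε, p) :=
    fun {P} => by rw [hl]; exact ev_fam
  have B := b2 ℝ 2 l 1 fun _ => zero_le_one
  have sm : ∀ F : SmF l, ∀ᶠ ε in 𝓝[>] (0 : ℝ), ∀ p ∈ Ω ε, ContDiffAt ℝ ∞ (F.1 ε) p :=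
    fun F => ev.1 F.2
  have z0 : ∀ ε, ∀ p ∈ Ω ε, sc 0 p ∈ Ω ε := fun ε p hp => (hΩ ε).st p hp 0 ⟨le_rfl, zero_le_one⟩
  have pull0 : IsPull l l fun _ p => ![0, p 1] := by
    refine ⟨fun i => Eventually.of_forall fun z => ?_, fun s hs => ?_⟩
    · fin_cases i
      · exact contDiffAt_const
      · exact contDiffAt_apply ℝ ℝ 1 z.2
    · refine ev.2 ((ev.1 hs).mono fun ε h p hp => ?_)
      have := h _ (z0 ε p hp)
      rwa [sc_zero] at this
  have e0 : ∀ φ : SG l, ev0 φ = pull0.hom φ := fun φ => pb_eq pull0 φ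
  have e1 : ∀ (F : SmF l) ε, (pull0.homF F).1 ε = fun q => F.1 ε (sc 0 q) := fun F ε =>
    funext fun q => by rw [sc_zero]; rfl
  have am : ∀ F : SmF l, (fun ε => av (F.1 ε)) ∈ SmF l := fun F =>
    ev.2 ((sm F).mono fun ε h => ((hΩ ε).pi b1 pi1 h).1)
  have a1 : ∀ F : SmF l, avg (mkG l F) = mkG l ⟨_, am F⟩ := fun F => by
    refine (gm_eq (am (rep (mkG l F)))).trans (mkG_eq.2 (ev.2 ?_))
    exact (ev.1 (mkG_eq.1 (mkG_rep (mkG l F)))).mono fun ε h p hp => (hΩ ε).congr h hp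
  have cm : (fun (_ : ℝ) (p : En 2) => p 0) ∈ SmF l :=
    Eventually.of_forall fun z => contDiffAt_apply ℝ ℝ 0 z.2
  have c1 : cG l = mkG l ⟨_, cm⟩ := gm_eq cm
  have d0 : ∀ F : SmF l, gD 0 (mkG l F) = 0 →
      ∀ᶠ ε in 𝓝[>] (0 : ℝ), ∀ p ∈ Ω ε, pdn 0 (F.1 ε) p = 0 := fun F h => by
    rw [← mkG_sfD, ← map_zero (mkG l), mkG_eq] at h
    exact ev.1 h
  have xm : ∀ f : ℝ → ℝ, (∀ x ∈ Ioo a b, ContDiffAt ℝ ∞ f x) →
      (fun (_ : ℝ) (p : En 2) => f (p 1)) ∈ SmF l := fun f hf =>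
    ev.2 (Eventually.of_forall fun ε p hp =>
      (hf _ (hab ε p hp)).comp p (contDiffAt_apply ℝ ℝ 1 p))
  have xb : ∀ f : ℝ → ℝ, (∀ x ∈ Ioo a b, ContDiffAt ℝ ∞ f x) → ∀ w : ℝ → ℝ,
      (∀ k, ∃ C : ℝ, ∀ x ∈ Ioo a b, |iteratedDeriv k f x| ≤ C * |w x|) →
      PG 1 (xW fun _ => w) (xG l f) := fun f hf w hw => by
    rw [xG, gm_eq (xm f hf), B.mk_iff]
    refine ⟨xm f hf, fun k => ?_⟩
    obtain ⟨C, hC⟩ := unif hw k
    exact ⟨C, ev.2 (Eventually.of_forall fun ε p hp =>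
      wb_x b1 k (hf _ (hab ε p hp)) (hC _ (hab ε p hp)))⟩
  have pos : ∀ᶠ ε in 𝓝[>] (0 : ℝ), ε ∈ Ioo (0 : ℝ) 1 := Ioo_mem_nhdsGT one_pos
  refine ⟨pull0, fun φ => ?_, fun φ => ?_, fun φ => ?_, fun φ h => ?_, ?_, fun {w φ} h => ?_,
    fun φ ψ => ?_, fun φ ψ h => ?_, fun φ => ?_, fun φ => ?_, fun {w φ} h => ?_, ?_,
    ⟨cm, ?_, ?_⟩, ?_, fun f hf => ⟨xm f hf, ?_, ?_, xb f hf⟩, fun f hf => ?_⟩
  · obtain ⟨F, rfl⟩ := mkG_surj φ
    rw [e0, IsPull.hom_mk, ← mkG_sfD, ← map_zero (mkG l), mkG_eq, ev]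
    refine (sm F).mono fun ε h p hp => ?_
    change pdn 0 ((pull0.homF F).1 ε) p = 0
    rw [e1, (pdn_sc ((h _ (z0 ε p hp)).differentiableAt (by simp))).1, zero_mul]
  · obtain ⟨F, rfl⟩ := mkG_surj φ
    rw [e0, e0, IsPull.hom_mk, ← mkG_sfD, ← mkG_sfD, IsPull.hom_mk, mkG_eq, ev]
    refine (sm F).mono fun ε h p hp => ?_
    change pdn 1 ((pull0.homF F).1 ε) p = (pull0.homF (sfD l 1 F)).1 ε p
    rw [e1, e1, (pdn_sc ((h _ (z0 ε p hp)).differentiableAt (by simp))).2]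
    rfl
  · rw [e0, e0]
    exact (B.pull pull0).2.1 φ
  · obtain ⟨F, rfl⟩ := mkG_surj φ
    rw [e0, IsPull.hom_mk, mkG_eq, ev]
    filter_upwards [sm F, d0 F h] with ε h1 h2 p hp
    rw [e1]
    exact (hΩ ε).fix h1 h2 hp
  · rw [e0, c1, IsPull.hom_mk, ← map_zero (mkG l), mkG_eq]
    exact Eventually.of_forall fun _ => rfl
  · obtain ⟨F, rfl⟩ := mkG_surj φ
    rw [e0, IsPull.hom_mk, B.mk_iff]
    rw [B.mk_iff] at h
    refine ⟨(pull0.homF F).2, fun k => ?_⟩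
    obtain ⟨C, hC⟩ := h.2 k
    refine ⟨C, ev.2 ?_⟩
    filter_upwards [sm F, ev.1 hC] with ε h1 h2 p hp
    change WB 1 k (C * |w (ε, ![0, p 1])|) ((pull0.homF F).1 ε) p
    rw [e1, ← sc_zero]
    exact wb_sc b1 (by simp) k (h1 _ (z0 ε p hp)) (h2 _ (z0 ε p hp))
  · obtain ⟨F, rfl⟩ := mkG_surj φ
    obtain ⟨G, rfl⟩ := mkG_surj ψ
    rw [← map_add, a1, a1, a1, ← map_add, mkG_eq, ev]
    filter_upwards [sm F, sm G] with ε h1 h2 p hp
    exact (hΩ ε).add h1 h2 hp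
  · obtain ⟨F, rfl⟩ := mkG_surj φ
    obtain ⟨G, rfl⟩ := mkG_surj ψ
    rw [← map_mul, a1, a1, ← map_mul, mkG_eq, ev]
    filter_upwards [sm F, d0 F h] with ε h1 h2 p hp
    exact (hΩ ε).mul h1 h2 hp
  · obtain ⟨F, rfl⟩ := mkG_surj φ
    rw [a1, c1, ← map_mul, ← mkG_sfD, mkG_eq, ev]
    exact (sm F).mono fun ε h p hp => (hΩ ε).der b1 pi1 h hp
  · obtain ⟨F, rfl⟩ := mkG_surj φ
    rw [e0, IsPull.hom_mk, ← mkG_sfD, a1, c1, ← map_mul, ← map_sub, mkG_eq, ev]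
    refine (sm F).mono fun ε h p hp => ?_
    change p 0 * av (pdn 0 (F.1 ε)) p = F.1 ε p - (pull0.homF F).1 ε p
    rw [e1]
    exact (hΩ ε).ftc h hp
  · obtain ⟨F, rfl⟩ := mkG_surj φ
    rw [a1, B.mk_iff]
    rw [B.mk_iff] at h
    refine ⟨am F, fun k => ?_⟩
    obtain ⟨C, hC⟩ := h.2 k
    refine ⟨C, ev.2 ?_⟩
    filter_upwards [sm F, ev.1 hC] with ε h1 h2 p hp
    exact ((hΩ ε).pi b1 pi1 h1).2.2 p hp k _ fun t ht => h2 _ ((hΩ ε).st p hp t ht)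
  · obtain ⟨p1, p2, p3⟩ := B.par fun ε => ε
    have p4 := (B.par fun ε => ε⁻¹).1
    refine ⟨p1, p2, p3, ⟨1, ev.2 (pos.mono fun ε h p _ => ?_)⟩, fun s hs => ev.2 ?_,
      ev.2 (pos.mono fun ε h p _ => h.1), mkG l ⟨_, p4⟩, ?_⟩
    · change |ε| ≤ 1 * |(1 : ℝ)|
      rw [abs_of_pos h.1, abs_one, one_mul]
      exact h.2.le
    · exact (show ∀ᶠ ε in 𝓝[>] (0 : ℝ), ε ∈ s from nhdsWithin_le_nhds hs).mono fun ε h _ _ => h
    · rw [εG, gm_eq p1, ← map_mul, ← map_one (mkG l), mkG_eq, ev]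
      exact pos.mono fun ε h p _ => mul_inv_cancel₀ h.1.ne'
  · rw [c1, ← mkG_sfD, ← map_one (mkG l), mkG_eq]
    exact Eventually.of_forall fun z => (pdn_crd z.2).1
  · rw [c1, ← mkG_sfD, ← map_zero (mkG l), mkG_eq]
    exact Eventually.of_forall fun z => (pdn_crd z.2).2
  · rw [← map_one (mkG l), ← map_smul, (B.exp_mk _).1, gm_eq (B.exp_mk _).2,
      ← map_ofNat (mkG l) 16, mkG_eq]
    refine Eventually.of_forall fun z => ?_
    change Real.exp (Real.log 16 * 1) = 16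
    rw [mul_one, Real.exp_log (by norm_num)]
  · rw [xG, gm_eq (xm f hf), ← mkG_sfD, ← map_zero (mkG l), mkG_eq, ev]
    exact Eventually.of_forall fun ε p hp =>
      (pdn_x ((hf _ (hab ε p hp)).differentiableAt (by simp))).1
  · rw [xG, xG, gm_eq (xm f hf), gm_eq (xm _ fun x hx => cd_deriv (hf x hx)), ← mkG_sfD, mkG_eq,
      ev]
    exact Eventually.of_forall fun ε p hp =>
      (pdn_x ((hf _ (hab ε p hp)).differentiableAt (by simp))).2
  · refine xb f (fun x hx => hf x (Ioo_subset_Icc_self hx)) (fun _ => 1) fun k => ?_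
    have h1 : ∀ x ∈ Icc a b, ContDiffAt ℝ ∞ (iteratedDeriv k f) x := fun x hx => by
      induction k with
      | zero => exact hf x hx
      | succ k ih => rw [iteratedDeriv_succ]; exact cd_deriv ih
    obtain ⟨C, hC⟩ := isCompact_Icc.exists_bound_of_continuousOn
      fun x hx => (h1 x hx).continuousAt.continuousWithinAt
    exact ⟨C, fun x hx => by simpa using hC x (Ioo_subset_Icc_self hx)⟩

end Avg

theorem avgS (b1 : B1Stmt) (b2 : B2Stmt) (pi1 : PI1Stmt) : AvgStmt := by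
  refine ⟨fun c a b hc => Avg.facts b1 b2 pi1 (fun ε => ⟨?_, ?_⟩) (fun _ _ h => h.2.2) rfl,
    fun M a b => ⟨Avg.facts b1 b2 pi1 (fun ε => ⟨?_, ?_⟩) (fun _ _ h => h.2) rfl, ?_⟩⟩
  · exact (isOpen_lt continuous_const (continuous_apply 0)).inter
      ((isOpen_lt (continuous_const.mul (continuous_apply 0)) continuous_const).inter
        (isOpen_Ioo.preimage (continuous_apply 1)))
  · rintro p ⟨h1, h2, h3⟩ t ⟨t0, t1⟩
    refine ⟨?_, ?_, h3⟩
    · change -1 < t * p 0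
      rcases le_total 0 (p 0) with h | h <;> nlinarith
    · change ε * (t * p 0) < c
      rcases le_total 0 (ε * p 0) with h | h <;> nlinarith
  · exact (isOpen_lt (continuous_apply 0).abs continuous_const).inter
      (isOpen_Ioo.preimage (continuous_apply 1))
  · rintro p ⟨h1, h2⟩ t ⟨t0, t1⟩
    refine ⟨?_, h2⟩
    change |t * p 0| < M
    rw [abs_mul, abs_of_nonneg t0]
    exact (mul_le_of_le_one_left (abs_nonneg _) t1).trans_lt h1
  · have cm : (fun (_ : ℝ) (p : En 2) => p 0) ∈ SmF (lB M a b) :=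
      show ∀ᶠ z in lB M a b, ContDiffAt ℝ ∞ (fun p : En 2 => p 0) z.2 from
        Eventually.of_forall fun z => contDiffAt_apply ℝ ℝ (0 : Fin 2) z.2
    rw [cG, gm_eq cm, (b2 ℝ 2 (lB M a b) 1 fun _ => zero_le_one).mk_iff]
    refine ⟨cm, fun k => ⟨max M 1, ev_fam.2 (Eventually.of_forall fun ε p hp => ?_)⟩⟩
    change WB 1 k (max M 1 * |(1 : ℝ)|) (fun q => q 0) p
    rw [abs_one, mul_one]
    exact (b1 2).coord k 0 p zero_le_one (hp.1.le.trans (le_max_left _ _))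
      (by rw [mul_one]; exact le_max_right _ _)

end Pool.Agent.Lib.MP_df9110_gt
end

-- part Pool.Agent.Lib.MP_df9110_gt.Geo
section

/-! The geometry of the layer maps `Φ`. -/

namespace Pool.Agent.Lib.MP_df9110_gt

open Filter Topology Set
open scoped ContDiff

namespace GeoP

theorem cda_deriv {f : ℝ → ℝ} {x : ℝ} (hf : ContDiffAt ℝ ∞ f x) :
    ContDiffAt ℝ ∞ (deriv f) x :=
  (hf.fderiv_right (m := ∞) (by simp)).clm_apply contDiffAt_const

/-- The map `(σ, x) ↦ (t σ, x)`. -/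
def T (t : ℝ) (q : En 2) : En 2 := ![t * q 0, q 1]

theorem T_zero (t : ℝ) : (fun q : En 2 => T t q 0) = fun q => t * q 0 := rfl
theorem T_one (t : ℝ) : (fun q : En 2 => T t q 1) = fun q => q 1 := rfl

theorem contDiff_T (t : ℝ) : ContDiff ℝ ∞ (T t) := by
  refine contDiff_pi.2 fun j => ?_
  fin_cases j
  · exact contDiff_const.mul (contDiff_apply ℝ ℝ 0)
  · exact contDiff_apply ℝ ℝ 1

theorem pdn_lin (t : ℝ) (a i : Fin 2) :
    pdn i (fun q : En 2 => t * q a) = fun _ => t * (Pi.single i (1 : ℝ) : En 2) a := by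
  funext p
  have h : HasFDerivAt (fun q : En 2 => t * q a)
      (t • (ContinuousLinearMap.proj (R := ℝ) (φ := fun _ : Fin 2 => ℝ) a)) p :=
    (hasFDerivAt_apply a p).const_mul t
  simp [pdn, h.fderiv]

theorem abs_single (a i : Fin 2) : |(Pi.single i (1 : ℝ) : En 2) a| ≤ 1 := by
  by_cases h : a = i
  · subst h; simp
  · simp [Pi.single_eq_of_ne h]

theorem wb_pdn_T (b : B1Facts 2) {t : ℝ} (ht : |t| ≤ 1) (k : ℕ) (j i : Fin 2) (p : En 2) :
    WB 1 k 1 (pdn i fun q => T t q j) p := by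
  have key : ∀ (s : ℝ) (a : Fin 2), |s| ≤ 1 → WB 1 k 1 (pdn i fun q : En 2 => s * q a) p := by
    intro s a hs
    rw [pdn_lin]
    refine b.mono (b.const k _ p zero_le_one) zero_le_one le_rfl ?_
    rw [abs_mul]
    exact mul_le_one₀ hs (abs_nonneg _) (abs_single a i)
  fin_cases j
  · exact key t 0 ht
  · have := key 1 1 (by simp)
    simp only [one_mul] at this
    exact this

theorem wb_comp_T (b : B1Facts 2) (k : ℕ) : ∃ C : ℝ, 0 ≤ C ∧ ∀ {t a : ℝ} {F : En 2 → ℝ} {p : En 2},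
    |t| ≤ 1 → ContDiffAt ℝ ∞ F (T t p) → WB 1 (k + 1) a F (T t p) →
      WB 1 k (C * a) (F ∘ T t) p := by
  obtain ⟨C, hC⟩ := b.comp 2 k
  refine ⟨|C * (1 + 1) ^ (k + 1)|, abs_nonneg _, fun {t a F p} ht hF hW => ?_⟩
  have h := hC (r := 1) (r₁ := 1) (τ := 1) (c := 1) (contDiff_T t).contDiffAt hF zero_le_one
    zero_le_one zero_le_one le_rfl hW (fun j i => wb_pdn_T b ht k j i p)
  have ha : 0 ≤ a := (abs_nonneg _).trans (b.nonneg hW)
  exact b.mono (b.of_le h (Nat.le_succ k)) zero_le_one le_rfl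
    (mul_le_mul_of_nonneg_right (le_abs_self _) ha)

theorem pdn_zero_of_snd (h : ℝ → ℝ) (p : En 2) : pdn 0 (fun q : En 2 => h (q 1)) p = 0 := by
  unfold pdn
  by_cases hd : DifferentiableAt ℝ (fun q : En 2 => h (q 1)) p
  · rw [← hd.lineDeriv_eq_fderiv, lineDeriv]
    have : (fun t : ℝ => h ((p + t • (Pi.single 0 1 : En 2)) 1)) = fun _ => h (p 1) := by
      funext t; simp
    rw [this, deriv_const]
  · simp [fderiv_zero_of_not_differentiableAt hd]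

theorem deriv_snd {F : En 2 → ℝ} {s x : ℝ} (hF : DifferentiableAt ℝ F ![s, x]) :
    deriv (fun y => F ![s, y]) x = pdn 1 F ![s, x] := by
  have h1 : HasDerivAt (fun y : ℝ => (![s, y] : En 2)) (Pi.single 1 1) x := by
    refine hasDerivAt_pi.2 fun j => ?_
    fin_cases j
    · simpa using hasDerivAt_const x s
    · simpa using hasDerivAt_id' x
  exact (hF.hasFDerivAt.comp_hasDerivAt x h1).deriv

theorem cont_pair : Continuous fun z : ℝ × ℝ => (![z.1, z.2] : En 2) := by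
  refine continuous_pi fun j => ?_
  fin_cases j
  · exact continuous_fst
  · exact continuous_snd

variable {P : Prof}

/-- `μ` as a function on the plane. -/
noncomputable def MuF (P : Prof) (i : Fin 2) (q : En 2) : ℝ := P.Mu i (q 0) (q 1)

/-- The correction in the denominator. -/
noncomputable def uu (P : Prof) (i : Fin 2) (s x : ℝ) : ℝ :=
  P.χ i x * (s * (2 * Real.exp (2 * P.L i x)))

theorem sub_Icc (h : P.Ok) (i : Fin 2) :
    P.xL - P.δ ≤ P.lo i ∧ P.hi i ≤ P.xR + P.δ := by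
  have h1 := h.ord
  have h2 := h.ordJ false
  have h3 := h.ordJ true
  have h4 := h.δ_pos
  fin_cases i
  · refine ⟨le_rfl, ?_⟩
    change P.xJ true + P.δ ≤ _
    linarith [h1.2.2, h3.2.2.1, h3.2.2.2]
  · refine ⟨?_, le_rfl⟩
    change _ ≤ P.xJ false - P.δ
    linarith [h1.1, h2.1, h2.2.1]

theorem mem_big (h : P.Ok) {i : Fin 2} {x : ℝ} (hx : x ∈ Icc (P.lo i) (P.hi i)) :
    x ∈ Icc (P.xL - P.δ) (P.xR + P.δ) :=
  ⟨(sub_Icc h i).1.trans hx.1, hx.2.trans (sub_Icc h i).2⟩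

theorem cda_snd {f : ℝ → ℝ} {q : En 2} (hf : ContDiffAt ℝ ∞ f (q 1)) :
    ContDiffAt ℝ ∞ (fun p : En 2 => f (p 1)) q :=
  ContDiffAt.comp (g := f) q hf (contDiff_apply ℝ ℝ 1).contDiffAt

theorem cda_e (h : P.Ok) {i : Fin 2} {q : En 2} (hq : q 1 ∈ Icc (P.lo i) (P.hi i)) :
    ContDiffAt ℝ ∞ (fun p : En 2 => p 0 * (2 * Real.exp (2 * P.L i (p 1)))) q :=
  (contDiff_apply ℝ ℝ 0).contDiffAt.mul (contDiffAt_const.mul
    (contDiffAt_const.mul (cda_snd (h.sm_L i _ (mem_big h hq)))).exp)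

theorem cda_uu (h : P.Ok) {i : Fin 2} {q : En 2} (hq : q 1 ∈ Icc (P.lo i) (P.hi i)) :
    ContDiffAt ℝ ∞ (fun p : En 2 => uu P i (p 0) (p 1)) q :=
  (cda_snd (h.sm_χ i _ (mem_big h hq))).mul (cda_e h hq)

theorem cda_MuF (h : P.Ok) {i : Fin 2} {q : En 2} (hq : q 1 ∈ Icc (P.lo i) (P.hi i))
    (hu : |uu P i (q 0) (q 1)| ≤ 1 / 2) : ContDiffAt ℝ ∞ (MuF P i) q := by
  have hne : 1 + uu P i (q 0) (q 1) ≠ 0 := by
    have := (abs_le.1 hu).1
    linarith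
  exact ((cda_snd (h.sm_d i _ hq)).sub ((cda_e h hq).div
    (contDiffAt_const.add (cda_uu h hq)) hne)).div_const 4

theorem Mu_zero (i : Fin 2) : P.Mu i 0 = fun x => P.d i x / 4 := by
  funext x
  simp [Prof.Mu]

/-- The pointwise facts on a thin rectangle. -/
def Good (P : Prof) (a : ℝ) (i : Fin 2) (s x : ℝ) : Prop :=
  a ≤ 4 * P.Mu i s x ^ 2 + deriv (P.Mu i s) x ^ 2 ∧ |uu P i s x| ≤ 1 / 2 ∧
    |P.Mu i s x| < P.M₀ ∧ (P.Mu i s x ≤ 0 → Prof.sg i * (x - P.xc i) ≤ P.δ / 2)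

theorem good_near (h : P.Ok) {a : ℝ} {i : Fin 2} {y : ℝ} (hy : y ∈ Icc (P.lo i) (P.hi i))
    (ha : a < Real.exp (2 * P.L i y) / 4) : ∀ᶠ z : ℝ × ℝ in 𝓝 (0, y), Good P a i z.1 z.2 := by
  have hq : (![0, y] : En 2) 1 ∈ Icc (P.lo i) (P.hi i) := hy
  have hu0 : uu P i 0 y = 0 := by simp [uu]
  have hM : ContDiffAt ℝ ∞ (MuF P i) ![0, y] := by
    refine cda_MuF h hq ?_
    change |uu P i 0 y| ≤ _
    rw [hu0]; norm_num
  have tp : Tendsto (fun z : ℝ × ℝ => (![z.1, z.2] : En 2)) (𝓝 (0, y)) (𝓝 ![0, y]) :=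
    cont_pair.tendsto (0, y)
  have hm0 : P.Mu i 0 y = P.d i y / 4 := by rw [Mu_zero]
  have t1 : Tendsto (fun z : ℝ × ℝ => P.Mu i z.1 z.2) (𝓝 (0, y)) (𝓝 (P.d i y / 4)) := by
    rw [← hm0]
    exact hM.continuousAt.tendsto.comp tp
  have hd0 : pdn 1 (MuF P i) ![0, y] = deriv (P.d i) y / 4 := by
    rw [← deriv_snd (hM.differentiableAt (by simp))]
    change deriv (P.Mu i 0) y = _
    rw [Mu_zero, deriv_div_const]
  have t2 : Tendsto (fun z : ℝ × ℝ => deriv (P.Mu i z.1) z.2) (𝓝 (0, y))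
      (𝓝 (deriv (P.d i) y / 4)) := by
    rw [← hd0]
    refine ((contDiffAt_pdn hM 1).continuousAt.tendsto.comp tp).congr' ?_
    filter_upwards [tp.eventually (ev_diff hM)] with z hz
    exact (deriv_snd hz).symm
  have t3 : Tendsto (fun z : ℝ × ℝ => uu P i z.1 z.2) (𝓝 (0, y)) (𝓝 0) := by
    have := (cda_uu h hq).continuousAt.tendsto.comp tp
    change Tendsto _ _ (𝓝 (uu P i 0 y)) at this
    rw [hu0] at this
    exact this
  have e1 : ∀ᶠ z : ℝ × ℝ in 𝓝 (0, y),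
      a ≤ 4 * P.Mu i z.1 z.2 ^ 2 + deriv (P.Mu i z.1) z.2 ^ 2 := by
    refine (((t1.pow 2).const_mul 4).add (t2.pow 2)).eventually (eventually_ge_nhds ?_)
    have := h.eik i y hy
    nlinarith
  have e2 : ∀ᶠ z : ℝ × ℝ in 𝓝 (0, y), |uu P i z.1 z.2| ≤ 1 / 2 :=
    t3.abs.eventually (eventually_le_nhds (by norm_num))
  have e3 : ∀ᶠ z : ℝ × ℝ in 𝓝 (0, y), |P.Mu i z.1 z.2| < P.M₀ := by
    refine t1.abs.eventually (eventually_lt_nhds ?_)
    have h1 := h.d_bd i y hy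
    have h2 := h.M_ge
    rw [abs_div, abs_of_pos (by norm_num : (0 : ℝ) < 4)]
    linarith
  have e4 : ∀ᶠ z : ℝ × ℝ in 𝓝 (0, y),
      (P.Mu i z.1 z.2 ≤ 0 → Prof.sg i * (z.2 - P.xc i) ≤ P.δ / 2) := by
    by_cases hs : 0 < Prof.sg i * (y - P.xc i)
    · have hd := h.d_pos i y hy hs
      filter_upwards [t1.eventually (eventually_gt_nhds (by linarith : 0 < P.d i y / 4))]
        with z hz hz' using absurd hz' (not_le.2 hz)
    · have tc : Tendsto (fun z : ℝ × ℝ => Prof.sg i * (z.2 - P.xc i)) (𝓝 (0, y))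
          (𝓝 (Prof.sg i * (y - P.xc i))) :=
        (continuous_const.mul (continuous_snd.sub continuous_const)).tendsto (0, y)
      have hlt : Prof.sg i * (y - P.xc i) < P.δ / 2 := by linarith [h.δ_pos, not_lt.1 hs]
      filter_upwards [tc.eventually (eventually_le_nhds hlt)] with z hz _ using hz
  filter_upwards [e1, e2, e3, e4] with z h1 h2 h3 h4 using ⟨h1, h2, h3, h4⟩

theorem good_all (h : P.Ok) : ∃ a c₀ : ℝ, 0 < a ∧ 0 < c₀ ∧
    ∀ i s, ∀ x ∈ Icc (P.lo i) (P.hi i), |s| ≤ c₀ → Good P a i s x := by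
  have hb : ∀ i, ∃ a : ℝ, 0 < a ∧ ∀ x ∈ Icc (P.xL - P.δ) (P.xR + P.δ),
      a ≤ Real.exp (2 * P.L i x) / 4 := by
    intro i
    have hc : ContinuousOn (fun x => Real.exp (2 * P.L i x) / 4)
        (Icc (P.xL - P.δ) (P.xR + P.δ)) := fun x hx =>
      (((contDiffAt_const.mul (h.sm_L i x hx)).exp.div_const 4).continuousAt).continuousWithinAt
    exact isCompact_Icc.exists_forall_le' hc fun x _ => by positivity
  choose a ha0 ha using hb
  have hm : 0 < min (a 0) (a 1) := lt_min (ha0 0) (ha0 1)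
  have hlt : ∀ i, min (a 0) (a 1) / 2 < a i := by
    intro i
    have : min (a 0) (a 1) ≤ a i := by
      fin_cases i
      · exact min_le_left _ _
      · exact min_le_right _ _
    linarith
  have hev : ∀ᶠ s in 𝓝 (0 : ℝ), ∀ i, ∀ x ∈ Icc (P.lo i) (P.hi i),
      Good P (min (a 0) (a 1) / 2) i s x :=
    eventually_all.2 fun i => isCompact_Icc.eventually_forall_of_forall_eventually
      fun y hy => good_near h hy ((hlt i).trans_le (ha i y (mem_big h hy)))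
  obtain ⟨c, hc, hc'⟩ := Metric.eventually_nhds_iff.1 hev
  refine ⟨_, c / 2, half_pos hm, half_pos hc, fun i s x hx hs => hc' ?_ i x hx⟩
  rw [Real.dist_eq, sub_zero]
  linarith

theorem ev_small {c : ℝ} (hc : 0 < c) : ∀ᶠ ε in 𝓝[>] (0 : ℝ), 0 < ε ∧ ε ≤ c ∧ ε ≤ 1 := by
  filter_upwards [Ioo_mem_nhdsGT (lt_min hc one_pos)] with ε hε
  exact ⟨hε.1, hε.2.le.trans (min_le_left _ _), hε.2.le.trans (min_le_right _ _)⟩

theorem abs_s {c ε σ : ℝ} (h0 : 0 < ε) (h1 : ε ≤ c) (h2 : -1 < σ) (h3 : ε * σ < c) :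
    |ε * σ| ≤ c := abs_le.2 ⟨by nlinarith, h3.le⟩

theorem ev_lL {c : ℝ} {i : Fin 2} {Q : Z2 → Prop} : (∀ᶠ z in P.lL c i, Q z) ↔
    ∀ᶠ ε in 𝓝[>] (0 : ℝ), ∀ p : En 2,
      -1 < p 0 ∧ ε * p 0 < c ∧ p 1 ∈ Ioo (P.lo i) (P.hi i) → Q (ε, p) := ev_fam

theorem ev_lO {Q : Z2 → Prop} : (∀ᶠ z in P.lO, Q z) ↔
    ∀ᶠ ε in 𝓝[>] (0 : ℝ), ∀ p : En 2,
      |p 0| < P.M₀ ∧ p 1 ∈ Ioo (P.xL - P.δ) (P.xR + P.δ) → Q (ε, p) := ev_fam

section Main

variable (h : P.Ok) {a c : ℝ} (hc : 0 < c)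
  (hg : ∀ i s, ∀ x ∈ Icc (P.lo i) (P.hi i), |s| ≤ c → Good P a i s x)

include h hc hg

theorem smooth_Mu (i : Fin 2) : (fun ε (p : En 2) => P.Mu i (ε * p 0) (p 1)) ∈ SmF (P.lL c i) := by
  refine ev_lL.2 ?_
  filter_upwards [ev_small hc] with ε hε p hp
  have hx := Ioo_subset_Icc_self hp.2.2
  have hG := hg i _ _ hx (abs_s hε.1 hε.2.1 hp.1 hp.2.1)
  exact ContDiffAt.comp (g := MuF P i) (f := T ε) p (cda_MuF h hx hG.2.1) (contDiff_T ε).contDiffAt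

theorem pull (i : Fin 2) : IsPull P.lO (P.lL c i) (P.Φ i) := by
  refine ⟨fun b => ?_, fun S hS => ?_⟩
  · fin_cases b
    · exact smooth_Mu h hc hg i
    · have h1 : ∀ z : Z2, ContDiffAt ℝ ∞ (fun p : En 2 => p 1) z.2 := fun z =>
        (contDiff_apply ℝ ℝ 1).contDiffAt
      exact ev_lL.2 (Eventually.of_forall fun ε p _ => h1 (ε, p))
  · have h1 := ev_lO.1 (show ∀ᶠ z in P.lO, z ∈ S from hS)
    refine ev_lL.2 ?_
    filter_upwards [ev_small hc, h1] with ε hε h2 p hp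
    have hG := hg i _ _ (Ioo_subset_Icc_self hp.2.2) (abs_s hε.1 hε.2.1 hp.1 hp.2.1)
    exact h2 (P.Φ i ε p) ⟨hG.2.2.1, (sub_Icc h i).1.trans_lt hp.2.2.1,
      hp.2.2.2.trans_le (sub_Icc h i).2⟩

theorem pb_Mu (b : B1Facts 2) (i : Fin 2) :
    PB (P.lL c i) 1 1 fun ε (p : En 2) => P.Mu i (ε * p 0) (p 1) := by
  refine ⟨smooth_Mu h hc hg i, fun k => ?_⟩
  have hK : IsCompact (Icc (![-c, P.lo i] : En 2) ![c, P.hi i]) := isCompact_Icc
  have hmem : ∀ q : En 2, q ∈ Icc (![-c, P.lo i] : En 2) ![c, P.hi i] ↔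
      |q 0| ≤ c ∧ q 1 ∈ Icc (P.lo i) (P.hi i) := by
    intro q
    simp only [mem_Icc, Pi.le_def, Fin.forall_fin_two, abs_le]
    simp only [Matrix.cons_val_zero, Matrix.cons_val_one]
    tauto
  have hsm : ∀ q ∈ Icc (![-c, P.lo i] : En 2) ![c, P.hi i], ContDiffAt ℝ ∞ (MuF P i) q := by
    intro q hq
    rw [hmem] at hq
    exact cda_MuF h hq.2 (hg i _ _ hq.2 hq.1).2.1
  obtain ⟨A, hA⟩ := b.compact hK hsm (k + 1)
  obtain ⟨C, -, hC⟩ := wb_comp_T b k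
  refine ⟨C * A, ev_lL.2 ?_⟩
  filter_upwards [ev_small hc] with ε hε p hp
  have hq : T ε p ∈ Icc (![-c, P.lo i] : En 2) ![c, P.hi i] :=
    (hmem _).2 ⟨abs_s hε.1 hε.2.1 hp.1 hp.2.1, Ioo_subset_Icc_self hp.2.2⟩
  have := hC (by rw [abs_of_pos hε.1]; exact hε.2.2) (hsm _ hq) (hA _ hq)
  simp only [Pi.one_apply, abs_one, mul_one]
  exact this

end Main

theorem eta_bd (h : P.Ok) : ∃ B : ℝ, ∀ x ∈ Icc (P.xL - P.δ) (P.xR + P.δ), P.eta x ≤ B := by
  have hc : ContinuousOn P.eta (Icc (P.xL - P.δ) (P.xR + P.δ)) := by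
    intro x hx
    have h0 := cda_deriv (h.sm_L 0 x hx)
    have h1 := cda_deriv (h.sm_L 1 x hx)
    exact ((((((cda_deriv h0).add (cda_deriv h1)).add (h0.pow 2)).add (h1.pow 2)).add
      (h0.mul h1)).add contDiffAt_const).neg.continuousAt.continuousWithinAt
  obtain ⟨B, hB⟩ := isCompact_Icc.bddAbove_image hc
  exact ⟨B, fun x hx => hB (mem_image_of_mem _ hx)⟩

theorem w_one (h : P.Ok) (c θ : ℝ) (hθ : 0 ≤ θ) :
    WLe P.lO (P.wW θ) 1 ∧ ∀ i, WLe (P.lL c i) (P.wW θ) 1 := by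
  obtain ⟨B, hB⟩ := eta_bd h
  have key : ∀ z : Z2, z.2 1 ∈ Icc (P.xL - P.δ) (P.xR + P.δ) →
      |P.wW θ z| ≤ B ^ θ * |(1 : Z2 → ℝ) z| := by
    intro z hz
    have h0 := h.eta_nonneg _ hz
    change |P.eta (z.2 1) ^ θ| ≤ _
    rw [abs_of_nonneg (Real.rpow_nonneg h0 θ)]
    simpa using Real.rpow_le_rpow h0 (hB _ hz) hθ
  refine ⟨⟨B ^ θ, ev_lO.2 (Eventually.of_forall fun ε p hp =>
    key _ (Ioo_subset_Icc_self hp.2))⟩, fun i => ⟨B ^ θ, ev_lL.2 (Eventually.of_forall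
      fun ε p hp => key _ (mem_big h (Ioo_subset_Icc_self hp.2.2)))⟩⟩

/-- Near a point outside the interval of a layer, `η` vanishes on the interval. -/
theorem eta_out (h : P.Ok) (i : Fin 2) {x : ℝ} (hx : x ∈ Ioo (P.xL - P.δ) (P.xR + P.δ))
    (hn : x ∉ Ioo (P.lo i) (P.hi i)) :
    ∀ᶠ y in 𝓝 x, y ∈ Ioo (P.lo i) (P.hi i) → P.eta y = 0 := by
  have hδ := h.δ_pos
  fin_cases i
  · have h1 : P.xJ true + P.δ ≤ x := by
      by_contra h2
      exact hn ⟨hx.1, not_le.1 h2⟩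
    filter_upwards [eventually_gt_nhds (show P.xJ true - P.δ < x by linarith)] with y hy hy'
    have h3 : y < P.xJ true + P.δ := hy'.2
    exact h.strip true y (abs_le.2 ⟨by linarith, by linarith⟩)
  · have h1 : x ≤ P.xJ false - P.δ := by
      by_contra h2
      exact hn ⟨not_le.1 h2, hx.2⟩
    filter_upwards [eventually_lt_nhds (show x < P.xJ false + P.δ by linarith)] with y hy hy'
    have h3 : P.xJ false - P.δ < y := hy'.1
    exact h.strip false y (abs_le.2 ⟨by linarith, by linarith⟩)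

open Classical in
/-- The extension by zero. -/
noncomputable def extF (lo hi : ℝ) (R : ℝ → En 2 → ℝ) (ε x : ℝ) : ℝ :=
  if x ∈ Ioo lo hi then R ε ![0, x] else 0

theorem T0 (p : En 2) : T 0 p = ![0, p 1] := by simp [T]

theorem extF_in {lo hi : ℝ} (R : ℝ → En 2 → ℝ) (ε : ℝ) {p : En 2} (hp : p 1 ∈ Ioo lo hi) :
    R ε ∘ T 0 =ᶠ[𝓝 p] fun q => extF lo hi R ε (q 1) := by
  have : ∀ᶠ q : En 2 in 𝓝 p, q 1 ∈ Ioo lo hi :=
    (continuous_apply 1).continuousAt.eventually (isOpen_Ioo.mem_nhds hp)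
  filter_upwards [this] with q hq
  simp only [extF, if_pos hq, Function.comp, T0]

theorem pb_ext (h : P.Ok) (b : B1Facts 2) {c : ℝ} (hc : 0 < c) (i : Fin 2) {θ : ℝ} (hθ : 0 < θ)
    (m : ℕ) {R : ℝ → En 2 → ℝ} (hR : PB (P.lL c i) 1 (eW ^ m * P.wW θ) R) :
    PB P.lO 1 (eW ^ m * P.wW θ) fun ε p => extF (P.lo i) (P.hi i) R ε (p 1) := by
  have hdom : ∀ (ε x : ℝ), x ∈ Ioo (P.lo i) (P.hi i) → -1 < (![0, x] : En 2) 0 ∧
      ε * (![0, x] : En 2) 0 < c ∧ (![0, x] : En 2) 1 ∈ Ioo (P.lo i) (P.hi i) := by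
    intro ε x hx
    refine ⟨by simp, by simpa using hc, hx⟩
  have hsm := ev_lL.1 hR.1
  obtain ⟨C₀, hC₀⟩ := hR.2 0
  have hout : ∀ᶠ ε in 𝓝[>] (0 : ℝ), ∀ p : En 2, p 1 ∈ Ioo (P.xL - P.δ) (P.xR + P.δ) →
      p 1 ∉ Ioo (P.lo i) (P.hi i) →
      (fun _ => (0 : ℝ)) =ᶠ[𝓝 p] fun q => extF (P.lo i) (P.hi i) R ε (q 1) := by
    filter_upwards [ev_lL.1 hC₀] with ε hε p hp hn
    filter_upwards [(continuous_apply 1).continuousAt.eventually (eta_out h i hp hn)] with q hq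
    by_cases hq' : q 1 ∈ Ioo (P.lo i) (P.hi i)
    · have h1 : |R ε ![0, q 1]| ≤ C₀ * |ε ^ m * P.eta (q 1) ^ θ| := hε _ (hdom ε _ hq')
      rw [hq hq', Real.zero_rpow hθ.ne', mul_zero, abs_zero, mul_zero] at h1
      simp only [extF, if_pos hq']
      exact (abs_nonpos_iff.1 h1).symm
    · simp only [extF, if_neg hq']
  refine ⟨ev_lO.2 ?_, fun k => ?_⟩
  · filter_upwards [hsm, hout] with ε h1 h2 p hp
    by_cases hn : p 1 ∈ Ioo (P.lo i) (P.hi i)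
    · have h3 : ContDiffAt ℝ ∞ (R ε) (T 0 p) := by
        rw [T0]; exact h1 _ (hdom ε _ hn)
      exact (h3.comp p (contDiff_T 0).contDiffAt).congr_of_eventuallyEq (extF_in R ε hn).symm
    · exact contDiffAt_const.congr_of_eventuallyEq (h2 p hp.2 hn).symm
  · obtain ⟨A, hA⟩ := hR.2 (k + 1)
    obtain ⟨C, hC0, hC⟩ := wb_comp_T b k
    refine ⟨C * |A|, ev_lO.2 ?_⟩
    filter_upwards [hsm, hout, ev_lL.1 hA] with ε h1 h2 h3 p hp
    by_cases hn : p 1 ∈ Ioo (P.lo i) (P.hi i)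
    · have h4 : ContDiffAt ℝ ∞ (R ε) (T 0 p) := by
        rw [T0]; exact h1 _ (hdom ε _ hn)
      have h5 : WB 1 (k + 1) (A * |(eW ^ m * P.wW θ) (ε, p)|) (R ε) (T 0 p) := by
        rw [T0]; exact h3 _ (hdom ε _ hn)
      refine b.congr (b.mono (hC (by simp) h4 h5) zero_le_one le_rfl ?_) (extF_in R ε hn)
      rw [mul_assoc]
      exact mul_le_mul_of_nonneg_left
        (mul_le_mul_of_nonneg_right (le_abs_self A) (abs_nonneg _)) hC0
    · refine b.congr (b.mono (b.const k 0 p zero_le_one) zero_le_one le_rfl ?_) (h2 p hp.2 hn)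
      rw [abs_zero]
      positivity

theorem ext (h : P.Ok) (b : B1Facts 2) (b2 : B2Stmt) (av : AvgStmt) {c : ℝ} (hc : 0 < c)
    (i : Fin 2) (hp : IsPull P.lO (P.lL c i) (P.Φ i)) (θ : ℝ) (m : ℕ) (r : SG (P.lL c i))
    (hθ : 0 < θ) (hr0 : gD 0 r = 0) (hr : PG 1 (eW ^ m * P.wW θ) r) :
    ∃ r' : SG P.lO, gD 0 r' = 0 ∧ PG 1 (eW ^ m * P.wW θ) r' ∧ pb (P.lL c i) (P.Φ i) r' = r := by
  have hE := pb_ext h b hc i hθ m hr
  have A : AvgFacts (P.lL c i) (P.lo i) (P.hi i) := av.1 c _ _ hc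
  refine ⟨mkG P.lO ⟨_, hE.1⟩, ?_, ((b2 ℝ 2 P.lO 1 fun _ => zero_le_one).mk_iff _ _).2 hE, ?_⟩
  · rw [← mkG_sfD, ← map_zero (mkG P.lO), mkG_eq]
    exact Eventually.of_forall fun z =>
      pdn_zero_of_snd (extF (P.lo i) (P.hi i) (rep r).1 z.1) z.2
  · have h1 : ev0 r = mkG _ (A.pull0.homF (rep r)) := gm_eq (A.pull0.mem (rep r))
    rw [pb_eq hp, hp.hom_mk]
    refine Eq.trans ?_ (h1.symm.trans (A.ev_fix r hr0))
    rw [mkG_eq]
    refine ev_lL.2 (Eventually.of_forall fun ε p hq => ?_)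
    change extF (P.lo i) (P.hi i) (rep r).1 ε (p 1) = (rep r).1 ε ![0, p 1]
    simp only [extF, if_pos hq.2.2]

end GeoP

theorem geoS (b1 : B1Stmt) (b2 : B2Stmt) (av : AvgStmt) : GeoStmt := by
  intro P h
  obtain ⟨a, c₀, ha, hc₀, hg₀⟩ := GeoP.good_all h
  refine ⟨c₀, hc₀, fun c hc hle => ?_⟩
  have hg : ∀ i s, ∀ x ∈ Icc (P.lo i) (P.hi i), |s| ≤ c → GeoP.Good P a i s x :=
    fun i s x hx hs => hg₀ i s x hx (hs.trans hle)
  refine ⟨hc, GeoP.pull h hc hg, fun i e j => ?_,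
    ⟨a, ha, fun i s x hx hs => ⟨(hg i s x hx hs).1, (hg i s x hx hs).2.1⟩⟩,
    fun i s x hx hs => (hg i s x hx hs).2.2.2, GeoP.w_one h c,
    fun i θ m r => GeoP.ext h (b1 2) b2 av hc i (GeoP.pull h hc hg i) θ m r⟩
  have B := b2 ℝ 2 (P.lL c i) 1 fun _ => zero_le_one
  have key : PG 1 1 (gm (P.lL c i) fun ε p => P.Φ i ε p e) := by
    fin_cases e
    · have h1 := GeoP.pb_Mu h hc hg (b1 2) i
      have h2 := (B.mk_iff 1 ⟨_, h1.1⟩).2 h1
      rw [← gm_eq h1.1] at h2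
      exact h2
    · exact (av.1 c (P.lo i) (P.hi i) hc).xbd id fun _ _ => contDiffAt_id
  simpa using B.der j key

end Pool.Agent.Lib.MP_df9110_gt
end
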