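import Pool.Agent.Lib.MP_df9110_gt.NProf

-- part Pool.Agent.Lib.MP_df9110_gt.NProfS
section

/-! Statements for the construction of the profile. -/

namespace Pool.Agent.Lib.MP_df9110_gt

open Set
open scoped ContDiff

/-- `L'` in terms of `q = d'/(2d)` (`true`) or of `L` itself (`false`). -/
noncomputable def pT (b : Bool) (y : ℝ → ℝ) (x : ℝ) : ℝ :=
  if b then 2 * y x + y x * deriv y x / (1 + y x ^ 2) else deriv y x

noncomputable def etY (b : Fin 2 → Bool) (y : Fin 2 → ℝ → ℝ) (x : ℝ) : ℝ :=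
  -(deriv (pT (b 0) (y 0)) x + deriv (pT (b 1) (y 1)) x + pT (b 0) (y 0) x ^ 2 +
    pT (b 1) (y 1) x ^ 2 + pT (b 0) (y 0) x * pT (b 1) (y 1) x + 3)

noncomputable def psum (b : Fin 2 → Bool) (y : Fin 2 → ℝ → ℝ) (x : ℝ) : ℝ :=
  pT (b 0) (y 0) x + pT (b 1) (y 1) x

/-- Smoothing of a corner at which the mean curvature jumps in the good direction. -/
def GlueStmt : Prop := ∀ (b : Fin 2 → Bool) (yL yR : Fin 2 → ℝ → ℝ) (x₀ r : ℝ), 0 < r →
  (∀ i, ContDiffOn ℝ ∞ (yL i) (Ioo (x₀ - r) (x₀ + r))) →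
  (∀ i, ContDiffOn ℝ ∞ (yR i) (Ioo (x₀ - r) (x₀ + r))) → (∀ i, yL i x₀ = yR i x₀) →
  psum b yR x₀ < psum b yL x₀ → (∀ x ∈ Ioc (x₀ - r) x₀, 0 ≤ etY b yL x) →
  (∀ x ∈ Ico x₀ (x₀ + r), 0 ≤ etY b yR x) → ∀ ρ₀ : ℝ, 0 < ρ₀ →
  ∃ ρ : ℝ, 0 < ρ ∧ ρ < ρ₀ ∧ ρ < r ∧ ∃ y : Fin 2 → ℝ → ℝ,
    (∀ i x, x ≤ x₀ - ρ → y i x = yL i x) ∧ (∀ i x, x₀ + ρ ≤ x → y i x = yR i x) ∧
    (∀ i, ContDiffOn ℝ ∞ (y i) (Ioo (x₀ - r) (x₀ + r))) ∧
    (∀ x ∈ Ioo (x₀ - ρ) (x₀ + ρ), 0 < etY b y x) ∧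
    (∀ i, ∀ x ∈ Icc (x₀ - ρ) x₀, |y i x - yL i x| ≤ ρ₀) ∧
    (∀ i, ∀ x ∈ Icc x₀ (x₀ + ρ), |y i x - yR i x| ≤ ρ₀) ∧
    ∀ θ : ℝ, 0 < θ → θ < 1 → ∀ k, ∃ C : ℝ, ∀ i,
      (∀ x ∈ Ioc (x₀ - ρ) x₀, ∀ x' ∈ Icc (x₀ - ρ) x,
        |iteratedDeriv k (y i - yL i) x'| ≤ C * etY b y x ^ θ) ∧
      ∀ x ∈ Ico x₀ (x₀ + ρ), ∀ x' ∈ Icc x (x₀ + ρ),
        |iteratedDeriv k (y i - yR i) x'| ≤ C * etY b y x ^ θ

/-- A segment of profile with `η > 0` from `qa` to `qb`. -/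
def Seg (qa qb : Fin 2 → ℝ) (sa sb I : ℝ) : Prop :=
  ∃ (a b r : ℝ) (q : Fin 2 → ℝ → ℝ), a < b ∧ 0 < r ∧
    (∀ i, ContDiffOn ℝ ∞ (q i) (Ioo (a - r) (b + r))) ∧
    (∀ x ∈ Icc a b, 0 < etY (fun _ => true) q x ∧ 0 < q 0 x) ∧
    (∀ i, q i a = qa i ∧ q i b = qb i) ∧ psum (fun _ => true) q a < sa ∧
    sb < psum (fun _ => true) q b ∧ ∫ x in a..b, (q 0 x - q 1 x) < I

def SegCatStmt : Prop := ∀ qa qb qc sa sb sc I I', Seg qa qb sa sb I → Seg qb qc sb sc I' →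
  Seg qa qc sa sc (I + I')

def V12Stmt : Prop := ∃ C T₀ : ℝ, 0 < T₀ ∧ ∀ T, 0 < T → T < T₀ → ∃ X, 0 < X ∧ X ≤ C * T ∧
  Seg ![1 / T, -T] ![5 / (8 * X), 30] (1 / T - T) (9 / (10 * X)) C

def V3Stmt : Prop := ∃ C X₀ : ℝ, 0 < X₀ ∧ ∀ X, 0 < X → X < X₀ → ∃ u v : ℝ,
  u ∈ Icc (3600 : ℝ) 3700 ∧ v ∈ Icc (8700 : ℝ) 8800 ∧
  Seg ![5 / (8 * X), 30] ![u, v] (9 / (10 * X)) 4700 (C + Real.log X / 100)

def K2Stmt : Prop := ∃ C : ℝ, ∀ u ∈ Icc (3600 : ℝ) 3700, ∀ v ∈ Icc (8700 : ℝ) 8800,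
  Seg ![u, v] ![9, 5] 4700 (42 / 5) C

def stA : Fin 8 → ℝ := ![9, 4.318, 2.3353, 2.0143, 1.8452, 1.5735, 0.215, 0.25]
def stB : Fin 8 → ℝ := ![5, 2.194, 0.6565, 0.2563, -0.0014, -0.2739, -1.538, -4]
def stS : Fin 8 → ℝ := ![8.4, 3.94, 1.3, 0.73, 0.5, 0.29, -0.75, -3.75]

def StarStmt (j : Fin 7) : Prop := ∃ C : ℝ, Seg ![stA j.castSucc, stB j.castSucc]
  ![stA j.succ, stB j.succ] (stS j.castSucc) (stS j.succ) C

def PNStmt : Prop := ∃ T : ℝ, 0 < T ∧ T < 1 / 10 ∧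
  Seg ![1 / T, -T] ![1 / 4, -4] (1 / T - T) (1 / 4 - 4) (-3)

/-- `f - g` is dominated by every power `η ^ θ`, `θ < 1`, on `S`. -/
def Dev (f g η : ℝ → ℝ) (S : Set ℝ) : Prop := ∀ θ : ℝ, 0 < θ → θ < 1 → ∀ k, ∃ C : ℝ, ∀ x ∈ S,
  |iteratedDeriv k (f - g) x| ≤ C * η x ^ θ

/-- The cap, glued at `θ₀` to the product `(sin, cos)`. -/
def CapStmt : Prop := ∀ θ₀ ρ₀ : ℝ, 0 < θ₀ → θ₀ ≤ 1 / 20 → 0 < ρ₀ →
  ∃ (xL δ ρ : ℝ) (d L₀ L₁ : ℝ → ℝ), 0 < δ ∧ 0 < ρ ∧ ρ < ρ₀ ∧ xL + δ ≤ θ₀ ∧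
    ContDiffOn ℝ ∞ d (Ioo (xL - 2 * δ) (Real.pi / 2)) ∧
    ContDiffOn ℝ ∞ L₀ (Ioo (xL - 2 * δ) (Real.pi / 2)) ∧
    ContDiffOn ℝ ∞ L₁ (Ioo (xL - 2 * δ) (Real.pi / 2)) ∧
    (∀ x, θ₀ + ρ ≤ x → d x = Real.sin x ^ 2 ∧ L₀ x = Real.log (Real.sin x) ∧
      L₁ x = Real.log (Real.cos x)) ∧ (∃ a : ℝ, 0 < a ∧ ∀ x, x ≤ xL + δ → d x = a * (x - xL)) ∧
    (∀ x ∈ Ioo (xL - 2 * δ) (Real.pi / 2), d x ^ 2 + deriv d x ^ 2 / 4 = Real.exp (2 * L₀ x) ∧
      0 < deriv d x ∧ d x * Real.exp (-(2 * L₀ x)) ≤ 2 ∧ 0 ≤ etaF L₀ L₁ x ∧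
      (x < θ₀ + ρ → 0 < etaF L₀ L₁ x)) ∧
    Dev d (fun x => Real.sin x ^ 2) (etaF L₀ L₁) (Ioo θ₀ (Real.pi / 2)) ∧
    Dev L₀ (fun x => Real.log (Real.sin x)) (etaF L₀ L₁) (Ioo θ₀ (Real.pi / 2)) ∧
    Dev L₁ (fun x => Real.log (Real.cos x)) (etaF L₀ L₁) (Ioo θ₀ (Real.pi / 2))

/-- `c sin (x - s)` and `c cos (x - s)`. -/
noncomputable def trg (s : ℝ) : Fin 2 → ℝ → ℝ :=
  ![fun x => Real.sin (x - s), fun x => Real.cos (x - s)]

/-- The middle part, between two products. -/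
def MidStmt : Prop := ∃ (a ρ₁ b ρ₂ s : ℝ) (c : Fin 2 → ℝ) (d L : Fin 2 → ℝ → ℝ),
  0 < ρ₁ ∧ ρ₁ < a ∧ a ≤ 1 / 5 ∧ a ≤ b ∧ s < b ∧ 0 < ρ₂ ∧ b + ρ₂ - s < Real.arctan 10 ∧
  (∀ i, 0 < c i) ∧ 1600 * c 0 ≤ c 1 * Real.tan (a - ρ₁) ^ 2 ∧
  (∀ i, ContDiffOn ℝ ∞ (d i) (Ioo 0 (s + Real.pi / 2)) ∧
    ContDiffOn ℝ ∞ (L i) (Ioo 0 (s + Real.pi / 2))) ∧
  (∀ i x, x ≤ a - ρ₁ → d i x = trg 0 i x ^ 2 ∧ L i x = Real.log (trg 0 i x)) ∧
  (∀ i x, b + ρ₂ ≤ x → d i x = c i * trg s i x ^ 2 ∧ L i x = Real.log (c i * trg s i x)) ∧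
  (∀ x ∈ Ioo 0 (s + Real.pi / 2), (∀ i, 0 < d i x ∧
      d i x ^ 2 + deriv (d i) x ^ 2 / 4 = Real.exp (2 * L i x)) ∧ 0 < deriv (d 0) x ∧
    0 ≤ etaF (L 0) (L 1) x ∧ (a - ρ₁ < x → x < b + ρ₂ → 0 < etaF (L 0) (L 1) x)) ∧
  ∀ i, Dev (d i) (fun x => trg 0 i x ^ 2) (etaF (L 0) (L 1)) (Ioo 0 a) ∧
    Dev (L i) (fun x => Real.log (trg 0 i x)) (etaF (L 0) (L 1)) (Ioo 0 a) ∧
    Dev (d i) (fun x => c i * trg s i x ^ 2) (etaF (L 0) (L 1)) (Ioo b (s + Real.pi / 2)) ∧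
    Dev (L i) (fun x => Real.log (c i * trg s i x)) (etaF (L 0) (L 1)) (Ioo b (s + Real.pi / 2))

end Pool.Agent.Lib.MP_df9110_gt
end

-- part Pool.Agent.Lib.MP_df9110_gt.Cap
section

/-! The cap of the profile, glued to the product `(sin, cos)`. -/

namespace Pool.Agent.Lib.MP_df9110_gt

open Set Filter Topology
open scoped ContDiff

namespace Cap

variable {U : Set ℝ} {f g A B A' B' m : ℝ → ℝ} {a b x : ℝ}

noncomputable def etP (p q : ℝ → ℝ) (x : ℝ) : ℝ :=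
  -(deriv p x + deriv q x + p x ^ 2 + q x ^ 2 + p x * q x + 3)

theorem etP_congr (h1 : A =ᶠ[𝓝 x] A') (h2 : B =ᶠ[𝓝 x] B') : etP A B x = etP A' B' x := by
  simp only [etP, h1.deriv_eq, h2.deriv_eq, h1.eq_of_nhds, h2.eq_of_nhds]

theorem sm_deriv (hU : IsOpen U) (hf : ContDiffOn ℝ ∞ f U) : ContDiffOn ℝ ∞ (deriv f) U :=
  ((contDiffOn_infty_iff_deriv_of_isOpen hU).1 hf).2

theorem sm_iter (hU : IsOpen U) (hf : ContDiffOn ℝ ∞ f U) :
    ∀ k, ContDiffOn ℝ ∞ (iteratedDeriv k f) U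
  | 0 => by simpa using hf
  | k + 1 => by rw [iteratedDeriv_succ]; exact sm_deriv hU (sm_iter hU hf k)

theorem sm_at (hU : IsOpen U) (hf : ContDiffOn ℝ ∞ f U) (hx : x ∈ U) (k : ℕ) :
    ContDiffAt ℝ k f x :=
  (hf.contDiffAt (hU.mem_nhds hx)).of_le (by exact_mod_cast le_top)

theorem sm_has (hU : IsOpen U) (hf : ContDiffOn ℝ ∞ f U) (hx : x ∈ U) :
    HasDerivAt f (deriv f x) x :=
  ((hf.contDiffAt (hU.mem_nhds hx)).differentiableAt (by simp)).hasDerivAt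

theorem ev_eq (hU : IsOpen U) (h : EqOn f g U) (hx : x ∈ U) : f =ᶠ[𝓝 x] g :=
  h.eventuallyEq_of_mem (hU.mem_nhds hx)

theorem jet_eq (hU : IsOpen U) (hf : ContDiffOn ℝ ∞ f U) (hg : ContDiffOn ℝ ∞ g U) (hx : x ∈ U)
    (h : ∃ᶠ y in 𝓝 x, f =ᶠ[𝓝 y] g) (k : ℕ) : iteratedDeriv k f x = iteratedDeriv k g x :=
  tendsto_nhds_unique_of_frequently_eq
    ((sm_iter hU hf k).continuousOn.continuousAt (hU.mem_nhds hx))
    ((sm_iter hU hg k).continuousOn.continuousAt (hU.mem_nhds hx))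
    (h.mono fun _ hy => hy.iteratedDeriv_eq k)

theorem freq_left (h : a < x) (e : EqOn f g (Ioo a x)) : ∃ᶠ y in 𝓝 x, f =ᶠ[𝓝 y] g := by
  have : x ∈ closure (Ioo a x) := by rw [closure_Ioo h.ne]; exact right_mem_Icc.2 h.le
  exact (mem_closure_iff_frequently.1 this).mono fun y hy => ev_eq isOpen_Ioo e hy

theorem freq_right (h : x < b) (e : EqOn f g (Ioo x b)) : ∃ᶠ y in 𝓝 x, f =ᶠ[𝓝 y] g := by
  have : x ∈ closure (Ioo x b) := by rw [closure_Ioo h.ne]; exact left_mem_Icc.2 h.le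
  exact (mem_closure_iff_frequently.1 this).mono fun y hy => ev_eq isOpen_Ioo e hy

theorem etaF_jet (h1 : ∀ k, iteratedDeriv k A x = iteratedDeriv k A' x)
    (h2 : ∀ k, iteratedDeriv k B x = iteratedDeriv k B' x) : etaF A B x = etaF A' B' x := by
  have a1 := h1 1
  have a2 := h1 2
  have b1 := h2 1
  have b2 := h2 2
  simp only [iteratedDeriv_succ, iteratedDeriv_zero] at a1 a2 b1 b2
  simp only [etaF, a1, a2, b1, b2]

theorem exists_prim (hf : ContDiffOn ℝ ∞ f (Iio b)) (ha : a < b) :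
    ∃ G : ℝ → ℝ, ContDiffOn ℝ ∞ G (Iio b) ∧ (∀ x < b, HasDerivAt G (f x) x) ∧
      ((∀ x ≤ a, f x = 0) → ∀ x ≤ a, G x = 0) := by
  have hc := hf.continuousOn
  have key : ∀ x < b, HasDerivAt (fun u => ∫ t in a..u, f t) (f x) x := fun x hx =>
    intervalIntegral.integral_hasDerivAt_right
      ((hc.mono fun t ht => lt_of_le_of_lt ht.2 (max_lt ha hx)).intervalIntegrable)
      (hc.stronglyMeasurableAtFilter isOpen_Iio x hx) (hc.continuousAt (Iio_mem_nhds hx))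
  refine ⟨_, (contDiffOn_infty_iff_deriv_of_isOpen isOpen_Iio).2 ⟨fun x hx =>
    (key x hx).differentiableAt.differentiableWithinAt, hf.congr fun x hx => (key x hx).deriv⟩,
    key, fun h0 x hx => ?_⟩
  rw [intervalIntegral.integral_congr (g := fun _ => 0) fun t ht =>
    h0 t (ht.2.trans (max_le le_rfl hx))]
  simp

/-- Smooth functions all of whose derivatives are dominated by `m` to the right of a point. -/
def Idl (U : Set ℝ) (a b : ℝ) (m f : ℝ → ℝ) : Prop :=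
  ContDiffOn ℝ ∞ f U ∧
    ∀ k, ∃ C, ∀ x ∈ Ico a b, ∀ x' ∈ Icc x b, |iteratedDeriv k f x'| ≤ C * m x

section Ideal

variable (hU : IsOpen U) (hab : Icc a b ⊆ U)
include hU hab

theorem Idl.congr (h : Idl U a b m f) (e : EqOn g f U) : Idl U a b m g :=
  ⟨h.1.congr e, fun k => (h.2 k).imp fun _ hC x hx x' hx' => by
    rw [(ev_eq hU e (hab ⟨hx.1.trans hx'.1, hx'.2⟩)).iteratedDeriv_eq k]
    exact hC x hx x' hx'⟩

omit hab in
theorem Idl.deriv (h : Idl U a b m f) : Idl U a b m (deriv f) :=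
  ⟨sm_deriv hU h.1, fun k => by simpa only [iteratedDeriv_succ'] using h.2 (k + 1)⟩

theorem Idl.add (h : Idl U a b m f) (h' : Idl U a b m g) :
    Idl U a b m fun x => f x + g x := by
  refine ⟨h.1.add h'.1, fun k => ?_⟩
  obtain ⟨C, hC⟩ := h.2 k
  obtain ⟨C', hC'⟩ := h'.2 k
  refine ⟨C + C', fun x hx x' hx' => ?_⟩
  have hm := hab ⟨hx.1.trans hx'.1, hx'.2⟩
  rw [iteratedDeriv_fun_add (sm_at hU h.1 hm k) (sm_at hU h'.1 hm k), add_mul]
  exact (abs_add_le _ _).trans (add_le_add (hC x hx x' hx') (hC' x hx x' hx'))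

theorem Idl.mul (hg : ContDiffOn ℝ ∞ g U) (h : Idl U a b m f) :
    Idl U a b m fun x => g x * f x := by
  refine ⟨hg.mul h.1, fun k => ?_⟩
  choose C hC using h.2
  have hM : ∀ i, ∃ M, ∀ x ∈ Icc a b, ‖iteratedDeriv i g x‖ ≤ M := fun i =>
    isCompact_Icc.exists_bound_of_continuousOn ((sm_iter hU hg i).continuousOn.mono hab)
  choose M hM using hM
  refine ⟨∑ i ∈ Finset.range (k + 1), k.choose i * M i * C (k - i), fun x hx x' hx' => ?_⟩
  have hm : x' ∈ Icc a b := ⟨hx.1.trans hx'.1, hx'.2⟩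
  rw [iteratedDeriv_fun_mul (sm_at hU hg (hab hm) k) (sm_at hU h.1 (hab hm) k), Finset.sum_mul]
  refine (Finset.abs_sum_le_sum_abs _ _).trans (Finset.sum_le_sum fun i _ => ?_)
  rw [abs_mul, abs_mul, Nat.abs_cast, mul_assoc _ (C _)]
  have h0 : 0 ≤ M i := (norm_nonneg _).trans (hM i x' hm)
  exact mul_le_mul (mul_le_mul_of_nonneg_left (hM i x' hm) (Nat.cast_nonneg _))
    (hC _ x hx x' hx') (abs_nonneg _) (by positivity)

theorem Idl.prim (hf : ContDiffOn ℝ ∞ f U) (h0 : f b = 0) (h : Idl U a b m (_root_.deriv f)) :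
    Idl U a b m f := by
  refine ⟨hf, fun k => ?_⟩
  rcases k with _ | k
  · obtain ⟨C, hC⟩ := h.2 0
    refine ⟨C * (b - a), fun x hx x' hx' => ?_⟩
    have h1 := norm_image_sub_le_of_norm_deriv_le_segment' (f := f) (a := x') (b := b)
      (C := C * m x) (fun t ht => (sm_has hU hf
        (hab ⟨hx.1.trans (hx'.1.trans ht.1), ht.2⟩)).hasDerivWithinAt)
      (fun t ht => hC x hx t ⟨hx'.1.trans ht.1, ht.2.le⟩) b (right_mem_Icc.2 hx'.2)
    have h2 : 0 ≤ C * m x := (abs_nonneg _).trans (hC x hx x' hx')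
    rw [h0, zero_sub, norm_neg, Real.norm_eq_abs] at h1
    rw [iteratedDeriv_zero]
    have h3 : b - x' ≤ b - a := by linarith [hx.1, hx'.1]
    calc |f x'| ≤ C * m x * (b - x') := h1
      _ ≤ C * m x * (b - a) := mul_le_mul_of_nonneg_left h3 h2
      _ = _ := by ring
  · simpa only [iteratedDeriv_succ'] using h.2 k

end Ideal

theorem dev_of {η : ℝ → ℝ} {e : ℝ} (hU : IsOpen U) (hf : ContDiffOn ℝ ∞ f U)
    (hg : ContDiffOn ℝ ∞ g U) (hs : Ioo a e ⊆ U) (h1 : EqOn f g (Ioo b e))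
    (hη : ∀ x ∈ Ioo a e, 0 ≤ η x)
    (h2 : ∀ θ : ℝ, 0 < θ → θ < 1 → ∀ k, ∃ C : ℝ, ∀ x ∈ Ico a b, ∀ x' ∈ Icc x b,
      |iteratedDeriv k (f - g) x'| ≤ C * η x ^ θ) : Dev f g η (Ioo a e) := by
  intro θ h0 h1' k
  obtain ⟨C, hC⟩ := h2 θ h0 h1' k
  refine ⟨|C|, fun x hx => ?_⟩
  have hp := Real.rpow_nonneg (hη x hx) θ
  rcases lt_or_ge x b with h | h
  · exact (hC x ⟨hx.1.le, h⟩ x ⟨le_rfl, h.le⟩).trans
      (mul_le_mul_of_nonneg_right (le_abs_self _) hp)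
  · rw [iteratedDeriv_sub (sm_at hU hf (hs hx) k) (sm_at hU hg (hs hx) k),
      jet_eq hU hf hg (hs hx) (freq_right hx.2 (h1.mono (Ioo_subset_Ioo_left h))) k, sub_self,
      abs_zero]
    positivity

theorem sm_loc {W : Set ℝ} (hW : IsOpen W) (hx : x ∈ W) (hg : ContDiffOn ℝ ∞ g W)
    (e : EqOn f g W) : ContDiffWithinAt ℝ ∞ f U x :=
  ((hg.congr e).contDiffAt (hW.mem_nhds hx)).contDiffWithinAt

/-! The product `(sin, cos)` -/

noncomputable def ct (x : ℝ) : ℝ := Real.cos x / Real.sin x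
noncomputable def tn (x : ℝ) : ℝ := -Real.sin x / Real.cos x
noncomputable def ls (x : ℝ) : ℝ := Real.log (Real.sin x)
noncomputable def lc (x : ℝ) : ℝ := Real.log (Real.cos x)

/-- The interval `(0, π / 2)`. -/
abbrev Q : Set ℝ := Ioo 0 (Real.pi / 2)

theorem sin_pos (hx : x ∈ Q) : 0 < Real.sin x :=
  Real.sin_pos_of_pos_of_lt_pi hx.1 (by linarith [hx.2, Real.pi_pos])

theorem cos_pos (hx : x ∈ Q) : 0 < Real.cos x :=
  Real.cos_pos_of_mem_Ioo ⟨by linarith [hx.1, Real.pi_pos], hx.2⟩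

theorem sm_ct : ContDiffOn ℝ ∞ ct Q :=
  Real.contDiff_cos.contDiffOn.div Real.contDiff_sin.contDiffOn fun _ hx => (sin_pos hx).ne'

theorem sm_ls : ContDiffOn ℝ ∞ ls Q :=
  Real.contDiff_sin.contDiffOn.log fun _ hx => (sin_pos hx).ne'

theorem sm_lc : ContDiffOn ℝ ∞ lc Q :=
  Real.contDiff_cos.contDiffOn.log fun _ hx => (cos_pos hx).ne'

theorem has_ct (hx : x ∈ Q) : HasDerivAt ct (-(1 + ct x ^ 2)) x := by
  have h := (sin_pos hx).ne'
  refine ((Real.hasDerivAt_cos x).fun_div (Real.hasDerivAt_sin x) h).congr_deriv ?_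
  unfold ct
  field_simp
  ring

theorem has_tn (hx : x ∈ Q) : HasDerivAt tn (-(1 + tn x ^ 2)) x := by
  have h := (cos_pos hx).ne'
  refine ((Real.hasDerivAt_sin x).fun_neg.fun_div (Real.hasDerivAt_cos x) h).congr_deriv ?_
  unfold tn
  field_simp
  ring

theorem has_ls (hx : x ∈ Q) : HasDerivAt ls (ct x) x :=
  (Real.hasDerivAt_sin x).log (sin_pos hx).ne'

theorem has_lc (hx : x ∈ Q) : HasDerivAt lc (tn x) x :=
  (Real.hasDerivAt_cos x).log (cos_pos hx).ne'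

theorem etP_right (hx : x ∈ Q) : etP ct tn x = 0 := by
  have h := (sin_pos hx).ne'
  have h' := (cos_pos hx).ne'
  have : ct x * tn x = -1 := by unfold ct tn; field_simp
  rw [etP, (has_ct hx).deriv, (has_tn hx).deriv, this]
  ring

theorem pT_ct (hx : x ∈ Q) : pT true ct x = ct x := by
  have : 1 + ct x ^ 2 ≠ 0 := by positivity
  simp only [pT, if_true, (has_ct hx).deriv]
  field_simp
  ring

theorem pT_false (y : ℝ → ℝ) : pT false y = deriv y := by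
  funext x
  simp [pT]

theorem etaF_right (hx : x ∈ Q) : etaF ls lc x = 0 :=
  (etP_congr (ev_eq isOpen_Ioo (fun _ hy => (has_ls hy).deriv) hx)
    (ev_eq isOpen_Ioo (fun _ hy => (has_lc hy).deriv) hx)).trans (etP_right hx)

theorem etY_eq (y : Fin 2 → ℝ → ℝ) (x : ℝ) :
    etY ![true, false] y x = etP (pT true (y 0)) (deriv (y 1)) x := by
  rw [← pT_false]
  rfl

theorem etY_right (hx : x ∈ Q) : etY ![true, false] ![ct, lc] x = 0 :=
  (etY_eq _ _).trans ((etP_congr (ev_eq isOpen_Ioo (fun _ hy => pT_ct hy) hx)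
    (ev_eq isOpen_Ioo (fun _ hy => (has_lc hy).deriv) hx)).trans (etP_right hx))

/-! The left model -/

variable {xL X c k : ℝ}

noncomputable def aL (xL x : ℝ) : ℝ := 4 * (x - xL) / (1 + 4 * (x - xL) ^ 2)
noncomputable def bL (xL X x : ℝ) : ℝ := 3 / 4 * (1 / (x - xL + X / 4))
noncomputable def qL (xL x : ℝ) : ℝ := 1 / (2 * (x - xL))
noncomputable def lL (xL X k x : ℝ) : ℝ := 3 / 4 * Real.log (x - xL + X / 4) + k
noncomputable def mL (xL c x : ℝ) : ℝ := 1 / 2 * Real.log ((c * (x - xL)) ^ 2 + c ^ 2 / 4)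

theorem has_s (xL x : ℝ) : HasDerivAt (fun x => x - xL) 1 x := (hasDerivAt_id' x).sub_const xL

theorem sm_qL : ContDiffOn ℝ ∞ (qL xL) (Ioi xL) :=
  contDiffOn_const.div (by fun_prop) fun x hx => by
    have : 0 < x - xL := sub_pos.2 hx
    positivity

theorem sm_lL : ContDiffOn ℝ ∞ (lL xL X k) (Ioi (xL - X / 4)) :=
  (contDiffOn_const.mul (ContDiffOn.log (by fun_prop) fun x hx => by
    have : xL - X / 4 < x := hx
    linarith)).add contDiffOn_const

theorem sm_mL (hc : 0 < c) : ContDiff ℝ ∞ (mL xL c) :=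
  contDiff_const.mul (ContDiff.log (by fun_prop) fun x => by positivity)

theorem has_lL (hx : x ∈ Ioi (xL - X / 4)) : HasDerivAt (lL xL X k) (bL xL X x) x := by
  have h : xL - X / 4 < x := hx
  exact ((((has_s xL x).add_const (X / 4)).log (by linarith)).const_mul (3 / 4)).add_const k

theorem has_mL (hc : 0 < c) (x : ℝ) : HasDerivAt (mL xL c) (aL xL x) x := by
  refine ((((((has_s xL x).const_mul c).fun_pow 2).add_const (c ^ 2 / 4)).log
    (by positivity)).const_mul (1 / 2)).congr_deriv ?_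
  unfold aL
  field_simp
  ring

theorem pT_qL (hx : x ∈ Ioi xL) : pT true (qL xL) x = aL xL x := by
  have h : 0 < x - xL := sub_pos.2 hx
  have h1 : HasDerivAt (qL xL) (-(2 * qL xL x ^ 2)) x := by
    refine ((hasDerivAt_const x (1 : ℝ)).fun_div ((has_s xL x).const_mul 2)
      (by positivity)).congr_deriv ?_
    unfold qL
    field_simp
    ring
  simp only [pT, if_true, h1.deriv, qL, aL]
  field_simp
  ring

theorem etP_left (hX : 0 < X) (hX' : X ≤ 13 / 500) (h1 : xL - X / 4 < x) (h2 : x ≤ xL + X) :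
    0 < etP (aL xL) (bL xL X) x := by
  have hw : 0 < x - xL + X / 4 := by linarith
  have ha : HasDerivAt (aL xL) (4 * (1 - 4 * (x - xL) ^ 2) / (1 + 4 * (x - xL) ^ 2) ^ 2) x := by
    refine (((has_s xL x).const_mul 4).fun_div ((((has_s xL x).fun_pow 2).const_mul 4).const_add 1)
      (by positivity)).congr_deriv ?_
    field_simp
    ring
  have hb : HasDerivAt (bL xL X) (-(3 / 4 * (1 / (x - xL + X / 4)) ^ 2)) x := by
    refine (((hasDerivAt_const x (1 : ℝ)).fun_div ((has_s xL x).add_const (X / 4))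
      hw.ne').const_mul (3 / 4)).congr_deriv ?_
    field_simp
    ring
  rw [etP, ha.deriv, hb.deriv, aL, bL]
  have hs : (x - xL) ^ 2 ≤ (13 / 500) ^ 2 := sq_le_sq' (by linarith) (by linarith)
  have hsw : x - xL ≤ x - xL + X / 4 := by linarith
  have hw' : x - xL + X / 4 ≤ 1 / 30 := by linarith
  generalize x - xL + X / 4 = w at *
  generalize x - xL = s at *
  have hn : 1 ≤ 1 + 4 * s ^ 2 := by nlinarith [sq_nonneg s]
  have e1 : 4 * (1 - 4 * s ^ 2) / (1 + 4 * s ^ 2) ^ 2 ≤ 4 := by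
    rw [div_le_iff₀ (by positivity)]
    nlinarith [sq_nonneg s, sq_nonneg (s ^ 2)]
  have e2 : (4 * s / (1 + 4 * s ^ 2)) ^ 2 ≤ 1 := by
    rw [div_pow, div_le_one (by positivity)]
    nlinarith [sq_nonneg s, sq_nonneg (s ^ 2)]
  have e3 : 4 * s / (1 + 4 * s ^ 2) * (3 / 4 * (1 / w)) ≤ 3 := by
    rw [show 4 * s / (1 + 4 * s ^ 2) * (3 / 4 * (1 / w)) = 3 * s / ((1 + 4 * s ^ 2) * w) by
      field_simp, div_le_iff₀ (by positivity)]
    nlinarith [mul_nonneg (sq_nonneg s) hw.le]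
  have e4 : 30 ≤ 1 / w := by rw [le_div_iff₀ hw]; linarith
  nlinarith

theorem etaF_left (hX : 0 < X) (hX' : X ≤ 13 / 500) (hc : 0 < c) (h1 : xL - X / 4 < x)
    (h2 : x ≤ xL + X) : 0 < etaF (mL xL c) (lL xL X k) x :=
  (etP_left hX hX' h1 h2).trans_eq (etP_congr (Eventually.of_forall fun y => (has_mL hc y).deriv)
    (ev_eq isOpen_Ioi (fun _ hy => (has_lL hy).deriv) h1)).symm

theorem etY_left (hX : 0 < X) (hX' : X ≤ 13 / 500) (h1 : xL < x) (h2 : x ≤ xL + X) :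
    0 < etY ![true, false] ![qL xL, lL xL X k] x := by
  have h3 : xL - X / 4 < x := by linarith
  exact (etP_left hX hX' h3 h2).trans_eq ((etY_eq _ _).trans
    (etP_congr (ev_eq isOpen_Ioi (fun _ hy => pT_qL hy) h1)
    (ev_eq isOpen_Ioi (fun _ hy => (has_lL hy).deriv) h3))).symm

/-! Integration of `d' = 2 q d` -/

/-- The wall function `D` with derivative `D1` that belongs to `q`. -/
structure Wall (xL a b c : ℝ) (q D D1 : ℝ → ℝ) : Prop where
  hc : 0 < c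
  sD : ContDiffOn ℝ ∞ D (Iio (Real.pi / 2))
  sD1 : ContDiffOn ℝ ∞ D1 (Iio (Real.pi / 2))
  has : ∀ x < Real.pi / 2, HasDerivAt D (D1 x) x
  left : ∀ x ≤ a, D x = c * (x - xL) ∧ D1 x = c
  mid : ∀ x ∈ Ioo xL (Real.pi / 2), 0 < D x ∧ D1 x = 2 * q x * D x
  right : D b = Real.sin b ^ 2

variable {q D D1 : ℝ → ℝ}

theorem exists_wall (hxL : 0 < xL) (ha : xL < a) (hab : a < b) (hb : b < Real.pi / 2)
    (hq : ContDiffOn ℝ ∞ q (Ioo xL (Real.pi / 2))) (hqa : ∀ x ≤ a, q x = qL xL x) :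
    ∃ c D D1, Wall xL a b c q D D1 := by
  have hg : ContDiffOn ℝ ∞ (fun x => q x - qL xL x) (Iio (Real.pi / 2)) := fun x hx => by
    rcases lt_or_ge x a with h | h
    · exact sm_loc isOpen_Iio h (contDiffOn_const (c := 0)) fun y hy => by
        simp [hqa y (le_of_lt hy)]
    · exact sm_loc isOpen_Ioo ⟨ha.trans_le h, hx⟩ (hq.sub (sm_qL.mono Ioo_subset_Ioi_self))
        fun _ _ => rfl
  obtain ⟨G, sG, hG, h0⟩ := exists_prim hg (hab.trans hb)
  have h0' := h0 fun x hx => by simp [hqa x hx]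
  have hbL : 0 < b - xL := by linarith
  have hs := sin_pos (x := b) ⟨by linarith, hb⟩
  obtain ⟨c, hc, hc'⟩ : ∃ c, 0 < c ∧ c * (b - xL) * Real.exp (2 * G b) = Real.sin b ^ 2 :=
    ⟨Real.sin b ^ 2 / ((b - xL) * Real.exp (2 * G b)), by positivity, by field_simp⟩
  have sE : ContDiffOn ℝ ∞ (fun x => Real.exp (2 * G x)) (Iio (Real.pi / 2)) :=
    (contDiffOn_const.mul sG).exp
  refine ⟨c, fun x => c * (x - xL) * Real.exp (2 * G x),
    fun x => c * Real.exp (2 * G x) * (1 + 2 * (x - xL) * (q x - qL xL x)), hc,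
    ContDiffOn.mul (by fun_prop) sE, (contDiffOn_const.mul sE).mul
      (contDiffOn_const.add (ContDiffOn.mul (by fun_prop) hg)), fun x hx => ?_, fun x hx => ?_,
    fun x hx => ?_, hc'⟩
  · refine (((has_s xL x).const_mul c).fun_mul ((hG x hx).const_mul 2).exp).congr_deriv ?_
    ring
  · simp [h0' x hx, hqa x hx]
  · have : 0 < x - xL := sub_pos.2 hx.1
    refine ⟨by positivity, ?_⟩
    simp only [qL]
    field_simp
    ring

/-- The logarithmic length that belongs to the wall function. -/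
noncomputable def mm (D D1 : ℝ → ℝ) (x : ℝ) : ℝ := 1 / 2 * Real.log (D x ^ 2 + D1 x ^ 2 / 4)

namespace Wall

variable (W : Wall xL a b c q D D1)
include W

theorem has_w (hxL : 0 < xL) (hx : x ∈ Ioo xL (Real.pi / 2)) :
    HasDerivAt (fun x => D x / Real.sin x ^ 2 - 1)
      (2 * D x / Real.sin x ^ 2 * (q x - ct x)) x := by
  have h := (sin_pos (x := x) ⟨hxL.trans hx.1, hx.2⟩).ne'
  refine (((W.has x hx.2).fun_div ((Real.hasDerivAt_sin x).fun_pow 2)
    (pow_ne_zero 2 h)).sub_const 1).congr_deriv ?_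
  rw [(W.mid x hx).2, ct]
  field_simp
  norm_num
  ring

theorem eq_right (hxL : 0 < xL) (hb : xL < b) (hqb : ∀ x, b ≤ x → q x = ct x)
    (hx : x ∈ Ico b (Real.pi / 2)) : D x = Real.sin x ^ 2 := by
  have hI : ∀ t ∈ Icc b x, t ∈ Ioo xL (Real.pi / 2) := fun t ht =>
    ⟨hb.trans_le ht.1, ht.2.trans_lt hx.2⟩
  have h := constant_of_has_deriv_right_zero (f := fun x => D x / Real.sin x ^ 2 - 1) (a := b)
    (b := x) (fun t ht => (W.has_w hxL (hI t ht)).continuousAt.continuousWithinAt)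
    (fun t ht => by
      have := W.has_w hxL (hI t (Ico_subset_Icc_self ht))
      rw [hqb t ht.1, sub_self, mul_zero] at this
      exact this.hasDerivWithinAt) x (right_mem_Icc.2 hx.1)
  have h1 := (sin_pos (x := x) ⟨hxL.trans (hb.trans_le hx.1), hx.2⟩).ne'
  have h2 := (sin_pos (x := b) ⟨hxL.trans hb, hx.1.trans_lt hx.2⟩).ne'
  simp only [W.right] at h
  field_simp at h
  linarith

theorem has_m (hq : ContDiffOn ℝ ∞ q (Ioo xL (Real.pi / 2))) (hx : x ∈ Ioo xL (Real.pi / 2)) :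
    HasDerivAt (mm D D1) (pT true q x) x := by
  have hD := (W.mid x hx).1
  have h1 := ((W.has x hx.2).log hD.ne').fun_add (((((sm_has isOpen_Ioo hq hx).fun_pow 2).const_add
    1).log (by positivity)).const_mul (1 / 2))
  refine (h1.congr_deriv ?_).congr_of_eventuallyEq (ev_eq isOpen_Ioo (fun y hy => ?_) hx)
  · simp only [pT, if_true, (W.mid x hx).2]
    field_simp
    norm_num
    ring
  · have hy0 := (W.mid y hy).1
    have : D y ^ 2 + D1 y ^ 2 / 4 = D y ^ 2 * (1 + q y ^ 2) := by rw [(W.mid y hy).2]; ring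
    simp only [mm]
    rw [this, Real.log_mul (by positivity) (by positivity), Real.log_pow]
    push_cast
    ring

theorem m_right (hxL : 0 < xL) (hb : xL < b) (hqb : ∀ x, b ≤ x → q x = ct x)
    (hx : x ∈ Ico b (Real.pi / 2)) : mm D D1 x = ls x := by
  have h1 := (sin_pos (x := x) ⟨hxL.trans (hb.trans_le hx.1), hx.2⟩).ne'
  have : D x ^ 2 + D1 x ^ 2 / 4 = Real.sin x ^ 2 := by
    rw [(W.mid x ⟨hb.trans_le hx.1, hx.2⟩).2, W.eq_right hxL hb hqb hx, hqb x hx.1, ct]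
    field_simp
    nlinarith [Real.sin_sq_add_cos_sq x]
  rw [mm, this, Real.log_pow, ls]
  push_cast
  ring

theorem m_left (hx : x ≤ a) : mm D D1 x = mL xL c x := by
  rw [mm, (W.left x hx).1, (W.left x hx).2, mL]

theorem lower (ha : xL < a) (hb : b < Real.pi / 2) {K : ℝ} (hK : ∀ x ∈ Icc a b, |q x| ≤ K)
    (hK' : 2 * K * (b - a) ≤ 1 / 4) (hx : x ∈ Icc a b) : 3 / 4 * Real.sin b ^ 2 ≤ D x := by
  have hI : ∀ t ∈ Icc x b, t ∈ Ioo xL (Real.pi / 2) := fun t ht =>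
    ⟨ha.trans_le (hx.1.trans ht.1), ht.2.trans_lt hb⟩
  have h := norm_image_sub_le_of_norm_deriv_le_segment' (f := fun t => Real.log (D t)) (a := x)
    (b := b) (C := 2 * K) (f' := fun t => D1 t / D t)
    (fun t ht => ((W.has t (hI t ht).2).log (W.mid t (hI t ht)).1.ne').hasDerivWithinAt)
    (fun t ht => by
      have h1 := W.mid t (hI t (Ico_subset_Icc_self ht))
      rw [h1.2, mul_div_assoc, div_self h1.1.ne', mul_one, Real.norm_eq_abs, abs_mul, abs_two]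
      have := hK t ⟨hx.1.trans ht.1, ht.2.le⟩
      linarith) b (right_mem_Icc.2 hx.2)
  have hK0 : 0 ≤ K := (abs_nonneg _).trans (hK x hx)
  have h1 := (W.mid x (hI x (left_mem_Icc.2 hx.2))).1
  have h2 := (W.mid b (hI b (right_mem_Icc.2 hx.2))).1
  have h3 : 2 * K * (b - x) ≤ 1 / 4 :=
    (mul_le_mul_of_nonneg_left (by linarith [hx.1]) (by positivity)).trans hK'
  have h4 : -(1 / 4) ≤ Real.log (D x / D b) := by
    rw [Real.log_div h1.ne' h2.ne']
    linarith [le_abs_self (Real.log (D b) - Real.log (D x)), Real.norm_eq_abs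
      (Real.log (D b) - Real.log (D x))]
  have h5 := (Real.le_log_iff_exp_le (div_pos h1 h2)).1 h4
  have h6 := Real.add_one_le_exp (-(1 / 4))
  rw [le_div_iff₀ h2] at h5
  rw [← W.right]
  nlinarith

theorem idl {t : ℝ} (hxL : 0 < xL) (ht : xL < t) (htb : t ≤ b) (hb : b < Real.pi / 2)
    (hq : ContDiffOn ℝ ∞ q (Ioo xL (Real.pi / 2))) (hqb : ∀ x, b ≤ x → q x = ct x)
    (h : Idl (Ioo xL (Real.pi / 2)) t b m (q - ct)) :
    Idl (Ioo xL (Real.pi / 2)) t b m (D - fun x => Real.sin x ^ 2) ∧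
      Idl (Ioo xL (Real.pi / 2)) t b m (mm D D1 - ls) := by
  have hU : IsOpen (Ioo xL (Real.pi / 2)) := isOpen_Ioo
  have hab : Icc t b ⊆ Ioo xL (Real.pi / 2) := Icc_subset_Ioo ht hb
  have hQ : Ioo xL (Real.pi / 2) ⊆ Q := Ioo_subset_Ioo_left hxL.le
  have sD := W.sD.mono (Ioo_subset_Iio_self (a := xL))
  have sS : ContDiffOn ℝ ∞ (fun x => Real.sin x ^ 2) (Ioo xL (Real.pi / 2)) := by fun_prop
  have nS : ∀ x ∈ Ioo xL (Real.pi / 2), Real.sin x ^ 2 ≠ 0 := fun x hx =>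
    pow_ne_zero 2 (sin_pos (hQ hx)).ne'
  have sc := sm_ct.mono hQ
  have bb : b ∈ Ico b (Real.pi / 2) := ⟨le_rfl, hb⟩
  constructor
  · have h1 : Idl (Ioo xL (Real.pi / 2)) t b m fun x => D x / Real.sin x ^ 2 - 1 :=
      Idl.prim hU hab ((sD.div sS nS).sub contDiffOn_const)
        (by rw [W.right, div_self (nS b ⟨ht.trans_le htb, hb⟩), sub_self])
        ((h.mul hU hab ((contDiffOn_const.mul sD).div sS nS)).congr hU hab
          fun x hx => (W.has_w hxL hx).deriv)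
    refine (h1.mul hU hab sS).congr hU hab fun x hx => ?_
    rw [Pi.sub_apply, mul_sub, mul_div_cancel₀ _ (nS x hx), mul_one]
  · have s1 : ContDiffOn ℝ ∞ (fun x => 1 + q x ^ 2) (Ioo xL (Real.pi / 2)) :=
      contDiffOn_const.add (hq.pow 2)
    have n1 : ∀ x ∈ Ioo xL (Real.pi / 2), 1 + q x ^ 2 ≠ 0 := fun x _ => by positivity
    have sm : ContDiffOn ℝ ∞ (mm D D1) (Ioo xL (Real.pi / 2)) :=
      contDiffOn_const.mul (((sD.pow 2).add (((W.sD1.mono Ioo_subset_Iio_self).pow 2).div_const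
        4)).log fun x hx => by have := (W.mid x hx).1; positivity)
    have h1 := (h.mul hU hab (contDiffOn_const.sub ((contDiffOn_const.sub (hq.mul sc)).div s1 n1) :
      ContDiffOn ℝ ∞ (fun x => 2 - (1 - q x * ct x) / (1 + q x ^ 2)) _)).add hU hab
      ((h.deriv hU).mul hU hab (hq.div s1 n1))
    refine Idl.prim hU hab (sm.sub (sm_ls.mono hQ))
      (by simp [W.m_right hxL (ht.trans_le htb) hqb bb]) (h1.congr hU hab fun x hx => ?_)
    have := n1 x hx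
    rw [((W.has_m hq hx).sub (has_ls (hQ hx))).deriv]
    simp only [((sm_has hU hq hx).sub (has_ct (hQ hx))).deriv, pT, if_true, Pi.sub_apply,
      Pi.div_apply]
    field_simp
    ring

end Wall

/-- Numerical facts on the scale `X = tan θ / 2`. -/
theorem scale {t : ℝ} (h0 : 0 < t) (h1 : t ≤ 1 / 20) : ∃ X : ℝ, 0 < X ∧ X ≤ 13 / 500 ∧ X < t ∧
    ct t = 1 / (2 * X) ∧ 99 / 25 * X ^ 2 ≤ Real.sin t ^ 2 ∧ tn t = -(2 * X) := by
  have hQ : t ∈ Q := ⟨h0, by linarith [Real.pi_gt_three]⟩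
  have hs := sin_pos hQ
  have hc := cos_pos hQ
  have h2 := Real.sin_le h0.le
  have h3 := Real.one_sub_sq_div_two_le_cos (x := t)
  have h4 : 998 / 1000 ≤ Real.cos t := by nlinarith
  refine ⟨Real.sin t / Real.cos t / 2, by positivity, ?_, ?_, ?_, ?_, ?_⟩
  · rw [div_div, div_le_iff₀ (by positivity)]; linarith
  · rw [div_div, div_lt_iff₀ (by positivity)]; nlinarith
  · unfold ct; field_simp
  · have : 99 / 100 ≤ Real.cos t ^ 2 := by nlinarith
    rw [show 99 / 25 * (Real.sin t / Real.cos t / 2) ^ 2 =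
      99 / 100 * Real.sin t ^ 2 / Real.cos t ^ 2 by field_simp; norm_num,
      div_le_iff₀ (by positivity)]
    nlinarith [sq_nonneg (Real.sin t)]
  · unfold tn; field_simp

end Cap

open Cap

theorem cap (g : GlueStmt) : CapStmt := by
  intro t ρ₀ h0 h1 hρ₀
  obtain ⟨X, hX, hX', hXt, hct, hsin, htn⟩ := scale h0 h1
  obtain ⟨xL, rfl⟩ : ∃ xL, t = xL + X := ⟨t - X, by ring⟩
  have hxL : 0 < xL := by linarith
  have hpi := Real.pi_gt_three
  have htQ : xL + X ∈ Q := ⟨h0, by linarith⟩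
  have htL : xL + X ∈ Ioi xL := by simpa using hX
  have htL' : xL + X ∈ Ioi (xL - X / 4) := by simp only [mem_Ioi]; linarith
  have hq0 : qL xL (xL + X) = 1 / (2 * X) := by simp [qL]
  obtain ⟨k, hk⟩ : ∃ k, lL xL X k (xL + X) = lc (xL + X) :=
    ⟨lc (xL + X) - lL xL X 0 (xL + X), by simp only [lL]; ring⟩
  have hI : Ioo (xL + X - X / 2) (xL + X + X / 2) ⊆ Ioo xL (Real.pi / 2) :=
    Ioo_subset_Ioo (by linarith) (by linarith)
  have hQ : Ioo xL (Real.pi / 2) ⊆ Q := Ioo_subset_Ioo_left hxL.le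
  have hu : 19 ≤ 1 / (2 * X) := by rw [le_div_iff₀ (by positivity)]; linarith
  obtain ⟨ε, hε, hε'⟩ : ∃ ε > 0, ∀ x, dist x (xL + X) < ε →
      |qL xL x - 1 / (2 * X)| < 1 / 2 ∧ |ct x - 1 / (2 * X)| < 1 / 2 := by
    have c1 := Metric.continuousAt_iff'.1
      (sm_qL.continuousOn.continuousAt (isOpen_Ioi.mem_nhds htL)) (1 / 2) (by norm_num)
    have c2 := Metric.continuousAt_iff'.1
      (sm_ct.continuousOn.continuousAt (isOpen_Ioo.mem_nhds htQ)) (1 / 2) (by norm_num)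
    rw [hq0] at c1
    rw [hct] at c2
    exact Metric.eventually_nhds_iff.1 (c1.and c2)
  obtain ⟨ρ, hρ, hρ1, hρ2, y, yl, yr, sy, hη, b1, b2, hdev⟩ := g ![true, false]
    ![qL xL, lL xL X k] ![ct, lc] (xL + X) (X / 2) (by positivity)
    (Fin.forall_fin_two.2 ⟨sm_qL.mono (hI.trans Ioo_subset_Ioi_self), sm_lL.mono fun x hx => by
      have := hx.1; simp only [mem_Ioi]; linarith⟩)
    (Fin.forall_fin_two.2 ⟨sm_ct.mono (hI.trans hQ), sm_lc.mono (hI.trans hQ)⟩)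
    (Fin.forall_fin_two.2 ⟨hq0.trans hct.symm, hk⟩)
    (by
      have e1 : psum ![true, false] ![ct, lc] (xL + X) = 1 / (2 * X) + -(2 * X) := by
        rw [← hct, ← htn, ← pT_ct htQ, ← (has_lc htQ).deriv, ← pT_false]; rfl
      have e2 : psum ![true, false] ![qL xL, lL xL X k] (xL + X) =
          aL xL (xL + X) + bL xL X (xL + X) := by
        rw [← pT_qL htL, ← (has_lL (k := k) htL').deriv, ← pT_false]; rfl
      have e3 : bL xL X (xL + X) = 6 / 5 * (1 / (2 * X)) := by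
        rw [bL, add_sub_cancel_left]; field_simp; norm_num
      have e4 : 0 < aL xL (xL + X) := by rw [aL, add_sub_cancel_left]; positivity
      rw [e1, e2, e3]
      linarith)
    (fun x hx => (etY_left hX hX' (by linarith [hx.1]) hx.2).le)
    (fun x hx => (etY_right ⟨by linarith [hx.1], by linarith [hx.2]⟩).ge)
    (min ρ₀ (min ε (X / 10))) (by positivity)
  have hρa : ρ < ρ₀ := hρ1.trans_le (min_le_left _ _)
  have hρb : ρ < ε := hρ1.trans_le ((min_le_right _ _).trans (min_le_left _ _))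
  have hm : min ρ₀ (min ε (X / 10)) ≤ X / 10 := (min_le_right _ _).trans (min_le_right _ _)
  have hρc : ρ < X / 10 := hρ1.trans_le hm
  have qa : ∀ x ≤ xL + X - ρ, y 0 x = qL xL x := yl 0
  have qb : ∀ x, xL + X + ρ ≤ x → y 0 x = ct x := yr 0
  have la : ∀ x ≤ xL + X - ρ, y 1 x = lL xL X k x := yl 1
  have lb : ∀ x, xL + X + ρ ≤ x → y 1 x = lc x := yr 1
  have d0 : ∀ θ : ℝ, 0 < θ → θ < 1 → ∀ k, ∃ C : ℝ, ∀ x ∈ Ico (xL + X) (xL + X + ρ),
      ∀ x' ∈ Icc x (xL + X + ρ), |iteratedDeriv k (y 0 - ct) x'| ≤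
        C * etY ![true, false] y x ^ θ :=
    fun θ h h' k => (hdev θ h h' k).imp fun _ hC => (hC 0).2
  have d1 : ∀ θ : ℝ, 0 < θ → θ < 1 → ∀ k, ∃ C : ℝ, ∀ x ∈ Ico (xL + X) (xL + X + ρ),
      ∀ x' ∈ Icc x (xL + X + ρ), |iteratedDeriv k (y 1 - lc) x'| ≤
        C * etY ![true, false] y x ^ θ :=
    fun θ h h' k => (hdev θ h h' k).imp fun _ hC => (hC 1).2
  have qK : ∀ x ∈ Icc (xL + X - ρ) (xL + X + ρ), |y 0 x - 1 / (2 * X)| ≤ 1 := fun x hx => by
    have h2 := hε' x (by rw [Real.dist_eq, abs_lt]; constructor <;> linarith [hx.1, hx.2])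
    rcases le_total x (xL + X) with h | h
    · have h3 : |y 0 x - qL xL x| ≤ _ := b1 0 x ⟨hx.1, h⟩
      linarith [abs_sub_le (y 0 x) (qL xL x) (1 / (2 * X)), h2.1]
    · have h3 : |y 0 x - ct x| ≤ _ := b2 0 x ⟨h, hx.2⟩
      linarith [abs_sub_le (y 0 x) (ct x) (1 / (2 * X)), h2.2]
  have s0 := sy 0
  have s1 := sy 1
  have hη' : ∀ x ∈ Ioo (xL + X - ρ) (xL + X + ρ), 0 < etP (pT true (y 0)) (deriv (y 1)) x :=
    fun x hx => (hη x hx).trans_eq (etY_eq y x)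
  simp only [etY_eq] at d0 d1
  clear yl yr sy hη b1 b2 hdev hε' hρ1 hm g
  generalize y 0 = q at *
  generalize y 1 = L at *
  obtain ⟨a, ha⟩ : ∃ a, a = xL + X - ρ := ⟨_, rfl⟩
  obtain ⟨b, hb⟩ : ∃ b, b = xL + X + ρ := ⟨_, rfl⟩
  rw [← ha] at qa la qK hη'
  rw [← hb] at qb lb qK hη' d0 d1
  have haL : xL < a := by linarith
  have hab : a < b := by linarith
  have hbe : b < Real.pi / 2 := by linarith
  have hb0 : 0 < b := by linarith
  have sq : ContDiffOn ℝ ∞ q (Ioo xL (Real.pi / 2)) := fun x hx => by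
    rcases lt_or_ge x a with h | h
    · exact sm_loc isOpen_Ioo (⟨hx.1, h⟩ : x ∈ Ioo xL a) (sm_qL.mono Ioo_subset_Ioi_self)
        fun w hw => qa w hw.2.le
    rcases lt_or_ge b x with h' | h'
    · exact sm_loc isOpen_Ioo (⟨h', hx.2⟩ : x ∈ Ioo b _) (sm_ct.mono (Ioo_subset_Ioo_left hb0.le))
        fun w hw => qb w hw.1.le
    · exact sm_loc isOpen_Ioo ⟨by linarith, by linarith⟩ s0 fun _ _ => rfl
  have sL : ContDiffOn ℝ ∞ L (Ioo (xL - 2 * (X / 16)) (Real.pi / 2)) := fun x hx => by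
    rcases lt_or_ge x a with h | h
    · exact sm_loc isOpen_Ioo (⟨by linarith [hx.1], h⟩ : x ∈ Ioo (xL - X / 4) a)
        (sm_lL.mono Ioo_subset_Ioi_self) fun w hw => la w hw.2.le
    rcases lt_or_ge b x with h' | h'
    · exact sm_loc isOpen_Ioo (⟨h', hx.2⟩ : x ∈ Ioo b _) (sm_lc.mono (Ioo_subset_Ioo_left hb0.le))
        fun w hw => lb w hw.1.le
    · exact sm_loc isOpen_Ioo ⟨by linarith, by linarith⟩ s1 fun _ _ => rfl
  obtain ⟨c, D, D1, W⟩ := exists_wall hxL haL hab hbe sq qa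
  have hc := W.hc
  have hbL := haL.trans hab
  obtain ⟨d, hd1, hd2⟩ : ∃ d : ℝ → ℝ, EqOn d D (Iio (Real.pi / 2)) ∧
      ∀ x, b ≤ x → d x = Real.sin x ^ 2 :=
    ⟨fun x => if x < b then D x else Real.sin x ^ 2, fun x hx => by
      by_cases h : x < b
      · simp [h]
      · simp [h, W.eq_right hxL hbL qb ⟨not_lt.1 h, hx⟩], fun x hx => if_neg (not_lt.2 hx)⟩
  obtain ⟨M, hM1, hM2⟩ : ∃ M : ℝ → ℝ, EqOn M (mm D D1) (Iio (Real.pi / 2)) ∧
      ∀ x, b ≤ x → M x = ls x :=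
    ⟨fun x => if x < b then mm D D1 x else ls x, fun x hx => by
      by_cases h : x < b
      · simp [h]
      · simp [h, W.m_right hxL hbL qb ⟨not_lt.1 h, hx⟩], fun x hx => if_neg (not_lt.2 hx)⟩
  have q1 : ∀ x ∈ Icc a b, 9 / 10 * (1 / (2 * X)) ≤ q x := fun x hx => by
    linarith [(abs_le.1 (qK x hx)).1]
  have hD : ∀ x ∈ Icc a b, 297 / 100 * X ^ 2 ≤ D x := fun x hx => by
    have h2 := W.lower haL hbe (K := 11 / 10 * (1 / (2 * X))) (fun x hx => by
      have := abs_le.1 (qK x hx)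
      rw [abs_le]; constructor <;> linarith) (by
        rw [show 2 * (11 / 10 * (1 / (2 * X))) * (b - a) = 11 / 10 * (b - a) / X by field_simp,
          div_le_iff₀ hX]
        linarith) hx
    have h3 : Real.sin (xL + X) ≤ Real.sin b :=
      Real.sin_le_sin_of_le_of_le_pi_div_two (by linarith) hbe.le (by linarith)
    nlinarith [sin_pos htQ]
  have hcX : 2 * X ≤ c := by
    have h2 := hD a ⟨le_rfl, hab.le⟩
    rw [(W.left a le_rfl).1] at h2
    have h3 : c * (a - xL) ≤ c * X := mul_le_mul_of_nonneg_left (by linarith) hc.le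
    nlinarith
  have hD1 : ∀ x < Real.pi / 2, 0 < D1 x ∧ D x ≤ 2 * (D x ^ 2 + D1 x ^ 2 / 4) := fun x hx => by
    rcases le_or_gt x a with h | h
    · rw [(W.left x h).1, (W.left x h).2]
      have h3 : c * (x - xL) ≤ c * (c / 2) := mul_le_mul_of_nonneg_left (by linarith) hc.le
      exact ⟨hc, by nlinarith [sq_nonneg (c * (x - xL))]⟩
    have hx' : x ∈ Ioo xL (Real.pi / 2) := ⟨haL.trans h, hx⟩
    obtain ⟨h2, h3⟩ := W.mid x hx'
    suffices h4 : 0 < q x ∧ 1 ≤ 2 * (D x * (1 + q x ^ 2)) by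
      rw [h3]
      exact ⟨by have := h4.1; positivity, by nlinarith [h4.2]⟩
    rcases le_or_gt x b with h' | h'
    · have h5 := q1 x ⟨h.le, h'⟩
      have h6 := hD x ⟨h.le, h'⟩
      have h7 : 0 < q x := by linarith
      have h8 : 9 / 20 ≤ X * q x := by
        have := mul_le_mul_of_nonneg_left h5 hX.le
        rwa [show X * (9 / 10 * (1 / (2 * X))) = 9 / 20 by field_simp; norm_num] at this
      have h9 : 297 / 100 * X ^ 2 * q x ^ 2 ≤ D x * q x ^ 2 :=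
        mul_le_mul_of_nonneg_right h6 (sq_nonneg _)
      exact ⟨h7, by nlinarith⟩
    · have hs := sin_pos (hQ hx')
      have hc' := cos_pos (hQ hx')
      rw [W.eq_right hxL hbL qb ⟨h'.le, hx⟩, qb x h'.le, ct]
      refine ⟨by positivity, ?_⟩
      rw [show Real.sin x ^ 2 * (1 + (Real.cos x / Real.sin x) ^ 2) =
        Real.sin x ^ 2 + Real.cos x ^ 2 by field_simp, Real.sin_sq_add_cos_sq]
      norm_num
  have hE : ∀ x < Real.pi / 2, 0 < D x ^ 2 + D1 x ^ 2 / 4 := fun x hx => by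
    have := (hD1 x hx).1
    positivity
  have sd : ContDiffOn ℝ ∞ d (Iio (Real.pi / 2)) := W.sD.congr hd1
  have sM : ContDiffOn ℝ ∞ M (Iio (Real.pi / 2)) :=
    (contDiffOn_const.mul (((W.sD.pow 2).add ((W.sD1.pow 2).div_const 4)).log
      fun x hx => (hE x hx).ne')).congr hM1
  have hV : Ioo xL (Real.pi / 2) ⊆ Ioo (xL - 2 * (X / 16)) (Real.pi / 2) :=
    Ioo_subset_Ioo_left (by linarith)
  have η1 : ∀ x ∈ Ioo xL (Real.pi / 2), etaF M L x = etP (pT true q) (deriv L) x := fun x hx =>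
    etP_congr (ev_eq isOpen_Ioo (fun w hw => ((W.has_m sq hw).congr_of_eventuallyEq
      (ev_eq isOpen_Iio hM1 hw.2)).deriv) hx) EventuallyEq.rfl
  have η2 : ∀ x ∈ Ioo (xL - 2 * (X / 16)) (Real.pi / 2), x < b → 0 < etaF M L x := fun x hx h => by
    rcases le_or_gt x a with h' | h'
    · refine (etaF_left (k := k) hX hX' hc (by linarith [hx.1]) (by linarith)).trans_eq
        (etaF_jet (jet_eq isOpen_Iio sM (sm_mL hc).contDiffOn hx.2 (freq_left hx.1 fun w hw => ?_))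
          (jet_eq isOpen_Ioo sL (sm_lL.mono fun w hw => ?_) hx
            (freq_left hx.1 fun w hw => la w (hw.2.le.trans h')))).symm
      · rw [hM1 (hw.2.trans hx.2), W.m_left (hw.2.le.trans h')]
      · have := hw.1
        simp only [mem_Ioi]
        linarith
    · rw [η1 x ⟨haL.trans h', hx.2⟩]
      exact hη' x ⟨h', h⟩
  have η3 : ∀ x ∈ Ioo (xL - 2 * (X / 16)) (Real.pi / 2), 0 ≤ etaF M L x := fun x hx => by
    rcases lt_or_ge x b with h | h
    · exact (η2 x hx h).le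
    · have hx' : x ∈ Ioo xL (Real.pi / 2) := ⟨hbL.trans_le h, hx.2⟩
      exact ((etaF_jet (jet_eq isOpen_Ioo (sM.mono Ioo_subset_Iio_self) (sm_ls.mono hQ) hx'
        (freq_right hx.2 fun w hw => hM2 w (h.trans hw.1.le)))
        (jet_eq isOpen_Ioo (sL.mono hV) (sm_lc.mono hQ) hx'
          (freq_right hx.2 fun w hw => lb w (h.trans hw.1.le)))).trans (etaF_right (hQ hx'))).ge
  have hT : Ioo (xL + X) (Real.pi / 2) ⊆ Ioo xL (Real.pi / 2) := Ioo_subset_Ioo_left (by linarith)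
  have hJ : Icc (xL + X) b ⊆ Ioo xL (Real.pi / 2) := Icc_subset_Ioo (by linarith) hbe
  have cv : ∀ (θ : ℝ) (f : ℝ → ℝ) (k : ℕ), (∃ C : ℝ, ∀ x ∈ Ico (xL + X) b, ∀ x' ∈ Icc x b,
      |iteratedDeriv k f x'| ≤ C * etP (pT true q) (deriv L) x ^ θ) →
      ∃ C : ℝ, ∀ x ∈ Ico (xL + X) b, ∀ x' ∈ Icc x b,
        |iteratedDeriv k f x'| ≤ C * etaF M L x ^ θ := fun θ f k h =>
    h.imp fun C hC x hx x' hx' => by
      rw [η1 x (hJ (Ico_subset_Icc_self hx))]
      exact hC x hx x' hx'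
  have id := fun θ h h' => W.idl (m := fun x => etaF M L x ^ θ) hxL (by linarith : xL < xL + X)
    (by linarith) hbe sq qb ⟨sq.sub (sm_ct.mono hQ), fun k => cv θ _ k (d0 θ h h' k)⟩
  have η4 := fun x hx => η3 x (hV (hT hx))
  refine ⟨xL, X / 16, ρ, d, M, L, by positivity, hρ, hρa, by linarith,
    sd.mono Ioo_subset_Iio_self, sM.mono Ioo_subset_Iio_self, sL,
    fun x hx => ⟨hd2 x (hb ▸ hx), hM2 x (hb ▸ hx), lb x (hb ▸ hx)⟩, ?_, fun x hx => ?_,
    dev_of (b := b) isOpen_Ioo (sd.mono Ioo_subset_Iio_self) (by fun_prop) hT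
      (fun x hx => hd2 x hx.1.le) η4 fun θ h h' =>
        ((id θ h h').1.congr isOpen_Ioo hJ fun x hx => by simp [hd1 hx.2]).2,
    dev_of (g := ls) (b := b) isOpen_Ioo (sM.mono Ioo_subset_Iio_self) (sm_ls.mono hQ) hT
      (fun x hx => hM2 x hx.1.le) η4 fun θ h h' =>
        ((id θ h h').2.congr isOpen_Ioo hJ fun x hx => by simp [hM1 hx.2]).2,
    dev_of (g := lc) (b := b) isOpen_Ioo (sL.mono hV) (sm_lc.mono hQ) hT
      (fun x hx => lb x hx.1.le) η4 fun θ h h' k => cv θ _ k (d1 θ h h' k)⟩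
  · exact ⟨c, hc, fun x hx => by
      rw [hd1 (show x < _ by linarith), (W.left x (by linarith)).1]⟩
  · have e1 : deriv d x = D1 x :=
      ((W.has x hx.2).congr_of_eventuallyEq (ev_eq isOpen_Iio hd1 hx.2)).deriv
    have e2 : Real.exp (2 * M x) = D x ^ 2 + D1 x ^ 2 / 4 := by
      rw [hM1 hx.2, mm, ← mul_assoc, mul_one_div_cancel two_ne_zero, one_mul,
        Real.exp_log (hE x hx.2)]
    rw [e1, hd1 hx.2, Real.exp_neg, e2, ← div_eq_mul_inv, div_le_iff₀ (hE x hx.2)]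
    exact ⟨rfl, (hD1 x hx.2).1, (hD1 x hx.2).2, η3 x hx, fun h => η2 x hx (hb ▸ h)⟩

end Pool.Agent.Lib.MP_df9110_gt
end

-- part Pool.Agent.Lib.MP_df9110_gt.K2
section

/-! The segment of the profile given by two hyperbolas. -/

namespace Pool.Agent.Lib.MP_df9110_gt

open Set Filter Topology
open scoped ContDiff

namespace K2

/-- A hyperbola. -/
noncomputable def hy (c s : ℝ) (x : ℝ) : ℝ := c / (x + s)

theorem hy_hasDerivAt (c s : ℝ) {x : ℝ} (h : 0 < x + s) :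
    HasDerivAt (hy c s) (-c / (x + s) ^ 2) x := by
  have h1 := (hasDerivAt_const x c).fun_div ((hasDerivAt_id' x).add_const s) h.ne'
  exact h1.congr_deriv (by ring)

theorem pT_hy {c : ℝ} (hc : 0 < c) (s : ℝ) {x : ℝ} (h : 0 < x + s) :
    pT true (hy c s) x = (2 * c - 1) / (x + s) + (x + s) / ((x + s) ^ 2 + c ^ 2) := by
  rw [pT, if_pos rfl, (hy_hasDerivAt c s h).deriv, hy]
  have h1 : (x + s) ^ 2 + c ^ 2 ≠ 0 := by positivity
  have h2 : 1 + (c / (x + s)) ^ 2 ≠ 0 := by positivity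
  field_simp
  ring

theorem deriv_pT_hy {c : ℝ} (hc : 0 < c) (s : ℝ) {x : ℝ} (h : 0 < x + s) :
    deriv (pT true (hy c s)) x =
      -(2 * c - 1) / (x + s) ^ 2 + (c ^ 2 - (x + s) ^ 2) / ((x + s) ^ 2 + c ^ 2) ^ 2 := by
  have e : pT true (hy c s) =ᶠ[𝓝 x]
      fun x => (2 * c - 1) / (x + s) + (x + s) / ((x + s) ^ 2 + c ^ 2) := by
    have : ∀ᶠ y in 𝓝 x, 0 < y + s :=
      (continuous_id.add continuous_const).continuousAt.eventually (lt_mem_nhds h)
    exact this.mono fun y hy => pT_hy hc s hy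
  rw [e.deriv_eq]
  have h1 : (x + s) ^ 2 + c ^ 2 ≠ 0 := by positivity
  have hz := (hasDerivAt_id' x).add_const s
  have h2 := (hy_hasDerivAt (2 * c - 1) s h).fun_add
    (hz.fun_div ((hz.fun_pow 2).add_const (c ^ 2)) h1)
  refine (h2.congr_deriv ?_).deriv
  congr 2
  push_cast
  ring

theorem hy_smooth (c s : ℝ) {S : Set ℝ} (h : ∀ x ∈ S, 0 < x + s) : ContDiffOn ℝ ∞ (hy c s) S :=
  contDiffOn_const.div (contDiffOn_id.add contDiffOn_const) fun x hx => (h x hx).ne'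

/-- The polynomial form of the positivity estimate. -/
theorem key0 {k c x z A B : ℝ} (hk1 : 4 / 5 ≤ k) (hk2 : k ≤ 161 / 200) (hx : 0 < x)
    (hxz : x ≤ z) (hz : z ≤ 1003 / 10000) (hA0 : 0 < A) (hB0 : 0 < B) (hA1 : A ≤ 5 / 4)
    (hA2 : c ^ 2 * A ≤ 1) (hB1 : B ≤ 4) :
    0 < k - k ^ 2 - (z ^ 2 * (c ^ 2 * A * A + B * B / 4 + 2 * k * A + z * x * A * B + 3) +
      z * x * (k * B)) := by
  have hz0 : 0 < z := hx.trans_le hxz
  have hk0 : 0 < k := by linarith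
  have h1 : c ^ 2 * A * A ≤ 1 * (5 / 4) := mul_le_mul hA2 hA1 hA0.le (by norm_num)
  have h2 : B * B ≤ 4 * 4 := mul_le_mul hB1 hB1 hB0.le (by norm_num)
  have h3 : k * A ≤ 161 / 200 * (5 / 4) := mul_le_mul hk2 hA1 hA0.le (by norm_num)
  have hz2 : z * z ≤ 1003 / 10000 * (1003 / 10000) := mul_le_mul hz hz hz0.le (by norm_num)
  have hzx : z * x ≤ z * z := mul_le_mul_of_nonneg_left hxz hz0.le
  have hAB : A * B ≤ 5 / 4 * 4 := mul_le_mul hA1 hB1 hB0.le (by norm_num)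
  have h4 : z * x * (A * B) ≤ 101 / 10000 * 5 :=
    mul_le_mul (by linarith) (by linarith) (by positivity) (by norm_num)
  have h5 : k * B ≤ 161 / 200 * 4 := mul_le_mul hk2 hB1 hB0.le (by norm_num)
  have h6 : z ^ 2 * (c ^ 2 * A * A + B * B / 4 + 2 * k * A + z * x * A * B + 3) ≤
      101 / 10000 * (21 / 2) :=
    mul_le_mul (by linarith) (by linarith) (by positivity) (by norm_num)
  have h7 : z * x * (k * B) ≤ 101 / 10000 * (33 / 10) :=
    mul_le_mul (by linarith) (by linarith) (by positivity) (by norm_num)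
  have h8 : 0 ≤ (k - 4 / 5) * (161 / 200 - k) := mul_nonneg (by linarith) (by linarith)
  linarith

/-- The positivity estimate. -/
theorem key {c x z : ℝ} (hc1 : 9 / 10 ≤ c) (hc2 : c ≤ 361 / 400) (hx : 0 < x) (hxz : x ≤ z)
    (hz : z ≤ 1003 / 10000) :
    0 < -((-(2 * c - 1) / z ^ 2 + (c ^ 2 - z ^ 2) / (z ^ 2 + c ^ 2) ^ 2) +
      (-(2 * (1 / 2) - 1) / x ^ 2 + ((1 / 2) ^ 2 - x ^ 2) / (x ^ 2 + (1 / 2) ^ 2) ^ 2) +
      ((2 * c - 1) / z + z / (z ^ 2 + c ^ 2)) ^ 2 +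
      ((2 * (1 / 2) - 1) / x + x / (x ^ 2 + (1 / 2) ^ 2)) ^ 2 +
      ((2 * c - 1) / z + z / (z ^ 2 + c ^ 2)) *
        ((2 * (1 / 2) - 1) / x + x / (x ^ 2 + (1 / 2) ^ 2)) + 3) := by
  have hz0 : 0 < z := hx.trans_le hxz
  have hc0 : 0 < c := by linarith
  have hcc : 9 / 10 * (9 / 10) ≤ c * c := mul_le_mul hc1 hc1 (by norm_num) hc0.le
  have hA1 : (z ^ 2 + c ^ 2)⁻¹ ≤ 5 / 4 := by
    rw [inv_le_iff_one_le_mul₀ (by positivity)]; linarith [sq_nonneg z]
  have hA2 : c ^ 2 * (z ^ 2 + c ^ 2)⁻¹ ≤ 1 := by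
    rw [← div_eq_mul_inv, div_le_one (by positivity)]; linarith [sq_nonneg z]
  have hB1 : (x ^ 2 + (1 / 2) ^ 2)⁻¹ ≤ 4 := by
    rw [inv_le_iff_one_le_mul₀ (by positivity)]; linarith [sq_nonneg x]
  have h := key0 (k := 2 * c - 1) (by linarith) (by linarith) hx hxz hz (by positivity)
    (by positivity) hA1 hA2 hB1
  simp only [div_eq_mul_inv _ (z ^ 2 + c ^ 2), div_eq_mul_inv _ (x ^ 2 + (1 / 2) ^ 2),
    div_eq_mul_inv _ ((z ^ 2 + c ^ 2) ^ 2), div_eq_mul_inv _ ((x ^ 2 + (1 / 2) ^ 2) ^ 2),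
    ← inv_pow]
  generalize (z ^ 2 + c ^ 2)⁻¹ = A at h ⊢
  generalize (x ^ 2 + (1 / 2) ^ 2)⁻¹ = B at h ⊢
  refine (div_pos h (pow_pos hz0 2)).trans_eq ?_
  field_simp
  ring

end K2

open K2

theorem k2 : K2Stmt := by
  refine ⟨20000, fun u hu v hv => ?_⟩
  obtain ⟨hu1, hu2⟩ := hu
  obtain ⟨hv1, hv2⟩ := hv
  obtain ⟨a, ha⟩ : ∃ a : ℝ, a = 1 / (2 * v) := ⟨_, rfl⟩
  have hv0 : 0 < v := by linarith
  have ha0 : 0 < a := by rw [ha]; positivity
  have hav : a * v = 1 / 2 := by rw [ha]; field_simp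
  have ha1 : a ≤ 1 / 17400 := by nlinarith
  obtain ⟨s, hs⟩ : ∃ s : ℝ, s = (9 / 10 - u * a) / (u - 9) := ⟨_, rfl⟩
  have hu9 : 0 < u - 9 := by linarith
  have hsu : s * (u - 9) = 9 / 10 - u * a := by rw [hs]; field_simp
  have hua : u * a ≤ 1 / 4 := by nlinarith
  have hua0 : 0 < u * a := by nlinarith
  have hs0 : 0 < s := by rw [hs]; exact div_pos (by linarith) hu9
  have hs1 : s ≤ 1 / 3600 := by nlinarith
  obtain ⟨c, hc⟩ : ∃ c : ℝ, c = 9 * (1 / 10 + s) := ⟨_, rfl⟩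
  have hc1 : 9 / 10 ≤ c := by linarith
  have hc2 : c ≤ 361 / 400 := by linarith
  have hc0 : 0 < c := by linarith
  have hcu : c = u * (a + s) := by linarith
  refine ⟨a, 1 / 10, a, ![hy c s, hy (1 / 2) 0], by linarith, ha0, ?_, ?_, ?_, ?_, ?_, ?_⟩
  · intro i
    fin_cases i
    · exact hy_smooth c s fun x hx => by linarith [hx.1]
    · exact hy_smooth (1 / 2) 0 fun x hx => by linarith [hx.1]
  · rintro x ⟨hx1, hx2⟩
    have hx0 : 0 < x := by linarith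
    have hz : 0 < x + s := by linarith
    have hz' : 0 < x + 0 := by linarith
    refine ⟨?_, div_pos hc0 hz⟩
    simp only [etY, Matrix.cons_val_zero, Matrix.cons_val_one]
    rw [deriv_pT_hy hc0 s hz, deriv_pT_hy (by norm_num) 0 hz', pT_hy hc0 s hz,
      pT_hy (by norm_num) 0 hz', add_zero x]
    exact key hc1 hc2 hx0 (by linarith) (by linarith)
  · intro i
    fin_cases i
    · refine ⟨?_, ?_⟩
      · change c / (a + s) = u
        rw [div_eq_iff (by linarith)]; exact hcu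
      · change c / (1 / 10 + s) = 9
        rw [div_eq_iff (by linarith)]; exact hc
    · refine ⟨?_, ?_⟩
      · change (1 / 2) / (a + 0) = v
        rw [div_eq_iff (by linarith)]; linarith
      · change (1 / 2 : ℝ) / (1 / 10 + 0) = 5
        norm_num
  · have hz : 0 < a + s := by linarith
    have hz' : 0 < a + 0 := by linarith
    simp only [psum, Matrix.cons_val_zero, Matrix.cons_val_one]
    rw [pT_hy hc0 s hz, pT_hy (by norm_num) 0 hz', add_zero a]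
    have h1 : (2 * c - 1) / (a + s) ≤ 3700 := by
      rw [div_le_iff₀ hz]; nlinarith
    have h2 : (a + s) / ((a + s) ^ 2 + c ^ 2) ≤ 1 := by
      rw [div_le_one (by positivity)]; nlinarith [sq_nonneg (a + s)]
    have h3 : a / (a ^ 2 + (1 / 2) ^ 2) ≤ 1 := by
      rw [div_le_one (by positivity)]; nlinarith [sq_nonneg a]
    have h4 : (2 * (1 / 2) - 1) / a = 0 := by norm_num
    linarith
  · have hz : 0 < 1 / 10 + s := by linarith
    simp only [psum, Matrix.cons_val_zero, Matrix.cons_val_one]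
    rw [pT_hy hc0 s hz, pT_hy (by norm_num) 0 (by norm_num)]
    have h1 : 8 ≤ (2 * c - 1) / (1 / 10 + s) := by
      rw [le_div_iff₀ hz]; linarith
    have h2 : 1 / 10 ≤ (1 / 10 + s) / ((1 / 10 + s) ^ 2 + c ^ 2) := by
      rw [le_div_iff₀ (by positivity)]; nlinarith
    have h3 : (2 * (1 / 2) - 1) / (1 / 10 + 0) + (1 / 10 + 0) / ((1 / 10 + 0) ^ 2 + (1 / 2) ^ 2) =
        (5 / 13 : ℝ) := by norm_num
    linarith
  · have hb := intervalIntegral.norm_integral_le_of_norm_le_const (a := a) (b := 1 / 10)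
      (C := 12500) (f := fun x => hy c s x - hy (1 / 2) 0 x) (fun x hx => by
        rw [uIoc_of_le (by linarith)] at hx
        obtain ⟨hx1, -⟩ := hx
        have hz : 0 < x + s := by linarith
        have hz' : 0 < x + 0 := by linarith
        have h1 : c / (x + s) ≤ 3700 := by
          rw [div_le_iff₀ hz]; nlinarith
        have h2 : (1 / 2) / (x + 0) ≤ 8800 := by
          rw [div_le_iff₀ hz']; nlinarith
        have h3 : 0 < c / (x + s) := div_pos hc0 hz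
        have h4 : 0 < (1 / 2) / (x + 0) := div_pos (by norm_num) hz'
        rw [Real.norm_eq_abs, abs_le, hy, hy]
        constructor <;> linarith)
    rw [Real.norm_eq_abs, abs_of_pos (by linarith : 0 < 1 / 10 - a)] at hb
    have := (abs_le.1 hb).2
    simp only [Matrix.cons_val_zero, Matrix.cons_val_one]
    linarith

end Pool.Agent.Lib.MP_df9110_gt
end

-- part Pool.Agent.Lib.MP_df9110_gt.SegCat
section

/-! Concatenation of profile segments, and the full positive-to-negative segment. -/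

namespace Pool.Agent.Lib.MP_df9110_gt

open Set Filter Topology
open scoped ContDiff

namespace SegCatAux

theorem pT_shift (f : ℝ → ℝ) (t : ℝ) :
    pT true (fun x => f (x + t)) = fun x => pT true f (x + t) := by
  funext x
  simp only [pT, if_true, deriv_comp_add_const]

theorem etY_shift (q : Fin 2 → ℝ → ℝ) (t x : ℝ) :
    etY (fun _ => true) (fun i x => q i (x + t)) x = etY (fun _ => true) q (x + t) := by
  simp only [etY, pT_shift, deriv_comp_add_const]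

theorem psum_shift (q : Fin 2 → ℝ → ℝ) (t x : ℝ) :
    psum (fun _ => true) (fun i x => q i (x + t)) x = psum (fun _ => true) q (x + t) := by
  simp only [psum, pT_shift]

theorem pT_congr {f g : ℝ → ℝ} {x : ℝ} (h : f =ᶠ[𝓝 x] g) : pT true f =ᶠ[𝓝 x] pT true g := by
  filter_upwards [h, h.deriv] with z h1 h2
  simp only [pT, if_true, h1, h2]

theorem etY_congr {y q : Fin 2 → ℝ → ℝ} {x : ℝ} (h : ∀ i, y i =ᶠ[𝓝 x] q i) :
    etY (fun _ => true) y x = etY (fun _ => true) q x := by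
  simp only [etY, (pT_congr (h 0)).deriv_eq, (pT_congr (h 1)).deriv_eq,
    (pT_congr (h 0)).eq_of_nhds, (pT_congr (h 1)).eq_of_nhds]

theorem psum_congr {y q : Fin 2 → ℝ → ℝ} {x : ℝ} (h : ∀ i, y i =ᶠ[𝓝 x] q i) :
    psum (fun _ => true) y x = psum (fun _ => true) q x := by
  simp only [psum, (pT_congr (h 0)).eq_of_nhds, (pT_congr (h 1)).eq_of_nhds]

theorem smooth_deriv {f : ℝ → ℝ} {x : ℝ} (h : ContDiffAt ℝ ∞ f x) :
    ContDiffAt ℝ ∞ (deriv f) x := h.derivWithin (by simp)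

theorem smooth_pT {f : ℝ → ℝ} {x : ℝ} (h : ContDiffAt ℝ ∞ f x) :
    ContDiffAt ℝ ∞ (pT true f) x := by
  have e : pT true f = fun x => 2 * f x + f x * deriv f x / (1 + f x ^ 2) := by
    funext z; simp only [pT, if_true]
  rw [e]
  refine (contDiffAt_const.mul h).add ((h.mul (smooth_deriv h)).div
    (contDiffAt_const.add (h.pow 2)) ?_)
  positivity

theorem cont_etY {y : Fin 2 → ℝ → ℝ} {x : ℝ} (h : ∀ i, ContDiffAt ℝ ∞ (y i) x) :
    ContinuousAt (etY (fun _ => true) y) x := by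
  have h0 := (smooth_pT (h 0)).continuousAt
  have h1 := (smooth_pT (h 1)).continuousAt
  have d0 := (smooth_deriv (smooth_pT (h 0))).continuousAt
  have d1 := (smooth_deriv (smooth_pT (h 1))).continuousAt
  exact (((((d0.add d1).add (h0.pow 2)).add (h1.pow 2)).add (h0.mul h1)).add
    continuousAt_const).neg

/-- one-sided agreement of smooth data gives the same `η` -/
theorem etY_left {y q : Fin 2 → ℝ → ℝ} {x : ℝ} (hy : ∀ i, ContDiffAt ℝ ∞ (y i) x)
    (hq : ∀ i, ContDiffAt ℝ ∞ (q i) x) (h : ∀ i z, z ≤ x → y i z = q i z) :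
    etY (fun _ => true) y x = etY (fun _ => true) q x := by
  have e : etY (fun _ => true) y =ᶠ[𝓝[<] x] etY (fun _ => true) q := by
    filter_upwards [self_mem_nhdsWithin] with z hz
    refine etY_congr fun i => ?_
    filter_upwards [Iio_mem_nhds (show z < x from hz)] with w hw
    exact h i w (le_of_lt hw)
  exact tendsto_nhds_unique_of_eventuallyEq
    ((cont_etY hy).tendsto.mono_left nhdsWithin_le_nhds)
    ((cont_etY hq).tendsto.mono_left nhdsWithin_le_nhds) e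

theorem etY_right {y q : Fin 2 → ℝ → ℝ} {x : ℝ} (hy : ∀ i, ContDiffAt ℝ ∞ (y i) x)
    (hq : ∀ i, ContDiffAt ℝ ∞ (q i) x) (h : ∀ i z, x ≤ z → y i z = q i z) :
    etY (fun _ => true) y x = etY (fun _ => true) q x := by
  have e : etY (fun _ => true) y =ᶠ[𝓝[>] x] etY (fun _ => true) q := by
    filter_upwards [self_mem_nhdsWithin] with z hz
    refine etY_congr fun i => ?_
    filter_upwards [Ioi_mem_nhds (show x < z from hz)] with w hw
    exact h i w (le_of_lt hw)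
  exact tendsto_nhds_unique_of_eventuallyEq
    ((cont_etY hy).tendsto.mono_left nhdsWithin_le_nhds)
    ((cont_etY hq).tendsto.mono_left nhdsWithin_le_nhds) e

/-- a segment may be started at any given point -/
theorem seg_at {qa qb : Fin 2 → ℝ} {sa sb I : ℝ} (h : Seg qa qb sa sb I) (a : ℝ) :
    ∃ (b r : ℝ) (q : Fin 2 → ℝ → ℝ), a < b ∧ 0 < r ∧
    (∀ i, ContDiffOn ℝ ∞ (q i) (Ioo (a - r) (b + r))) ∧
    (∀ x ∈ Icc a b, 0 < etY (fun _ => true) q x ∧ 0 < q 0 x) ∧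
    (∀ i, q i a = qa i ∧ q i b = qb i) ∧ psum (fun _ => true) q a < sa ∧
    sb < psum (fun _ => true) q b ∧ ∫ x in a..b, (q 0 x - q 1 x) < I := by
  obtain ⟨a', b', r, q, hab, hr, hs, hp, he, h1, h2, h3⟩ := h
  refine ⟨b' - (a' - a), r, fun i x => q i (x + (a' - a)), by linarith, hr, fun i => ?_,
    fun x hx => ?_, fun i => ?_, ?_, ?_, ?_⟩
  · refine (hs i).comp (contDiffOn_id.add contDiffOn_const) fun x hx => ?_
    exact ⟨by have := hx.1; linarith, by have := hx.2; linarith⟩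
  · rw [etY_shift]
    exact hp _ ⟨by linarith [hx.1], by linarith [hx.2]⟩
  · have e1 : a + (a' - a) = a' := by ring
    have e2 : b' - (a' - a) + (a' - a) = b' := by ring
    simp only [e1, e2]
    exact he i
  · rw [psum_shift, show a + (a' - a) = a' by ring]; exact h1
  · rw [psum_shift, show b' - (a' - a) + (a' - a) = b' by ring]; exact h2
  · have := intervalIntegral.integral_comp_add_right (a := a) (b := b' - (a' - a))
      (fun x => q 0 x - q 1 x) (a' - a)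
    rw [this, show a + (a' - a) = a' by ring, show b' - (a' - a) + (a' - a) = b' by ring]
    exact h3

theorem pos_min {f : ℝ → ℝ} {a b : ℝ} (hab : a ≤ b) (hf : ContinuousOn f (Icc a b))
    (hp : ∀ x ∈ Icc a b, 0 < f x) : ∃ m, 0 < m ∧ ∀ x ∈ Icc a b, m ≤ f x := by
  obtain ⟨x, hx, hm⟩ := isCompact_Icc.exists_isMinOn (nonempty_Icc.2 hab) hf
  exact ⟨f x, hp x hx, fun z hz => hm hz⟩

theorem int_pert {y q : Fin 2 → ℝ → ℝ} {a b e : ℝ} (hab : a ≤ b)
    (hy : ∀ i, ContinuousOn (y i) (Icc a b)) (hq : ∀ i, ContinuousOn (q i) (Icc a b))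
    (h : ∀ i, ∀ x ∈ Icc a b, |y i x - q i x| ≤ e) :
    ∫ x in a..b, (y 0 x - y 1 x) ≤ (∫ x in a..b, (q 0 x - q 1 x)) + 2 * e * (b - a) := by
  have iy : IntervalIntegrable (fun x => y 0 x - y 1 x) MeasureTheory.volume a b :=
    ((hy 0).sub (hy 1)).intervalIntegrable_of_Icc hab
  have iq : IntervalIntegrable (fun x => q 0 x - q 1 x) MeasureTheory.volume a b :=
    ((hq 0).sub (hq 1)).intervalIntegrable_of_Icc hab
  have ic : IntervalIntegrable (fun _ => 2 * e) MeasureTheory.volume a b :=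
    intervalIntegrable_const
  have h1 := intervalIntegral.integral_mono_on hab iy (iq.add ic) fun x hx => by
    have h0 := abs_le.1 (h 0 x hx)
    have h1 := abs_le.1 (h 1 x hx)
    show y 0 x - y 1 x ≤ q 0 x - q 1 x + 2 * e
    linarith [h0.2, h1.1]
  rw [intervalIntegral.integral_add iq ic, intervalIntegral.integral_const, smul_eq_mul] at h1
  linarith

theorem seg_mono {qa qb : Fin 2 → ℝ} {sa sb I I' : ℝ} (h : Seg qa qb sa sb I) (hI : I ≤ I') :
    Seg qa qb sa sb I' := by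
  obtain ⟨a, b, r, q, hab, hr, hs, hp, he, h1, h2, h3⟩ := h
  exact ⟨a, b, r, q, hab, hr, hs, hp, he, h1, h2, h3.trans_le hI⟩

end SegCatAux

open SegCatAux

theorem segCat (g : GlueStmt) : SegCatStmt := by
  intro qa qb qc sa sb sc I I' hA hB
  obtain ⟨a, b, r, q, hab, hr, hs, hp, he, h1, h2, h3⟩ := hA
  obtain ⟨c, r', q', hbc, hr', hs', hp', he', h1', h2', h3'⟩ := seg_at hB b
  have hqA : ∀ i, ∀ x ∈ Icc a b, ContDiffAt ℝ ∞ (q i) x := fun i x hx =>
    (hs i).contDiffAt (Ioo_mem_nhds (by linarith [hx.1]) (by linarith [hx.2]))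
  have hqB : ∀ i, ∀ x ∈ Icc b c, ContDiffAt ℝ ∞ (q' i) x := fun i x hx =>
    (hs' i).contDiffAt (Ioo_mem_nhds (by linarith [hx.1]) (by linarith [hx.2]))
  have cA : ∀ i, ContinuousOn (q i) (Icc a b) := fun i x hx =>
    (hqA i x hx).continuousAt.continuousWithinAt
  have cB : ∀ i, ContinuousOn (q' i) (Icc b c) := fun i x hx =>
    (hqB i x hx).continuousAt.continuousWithinAt
  obtain ⟨m, hm, hmA⟩ := pos_min hab.le (cA 0) fun x hx => (hp x hx).2
  obtain ⟨m', hm', hmB⟩ := pos_min hbc.le (cB 0) fun x hx => (hp' x hx).2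
  obtain ⟨r₀, hr₀, k1, k2, k3, k4⟩ : ∃ r₀, 0 < r₀ ∧ r₀ ≤ r ∧ r₀ ≤ r' ∧ r₀ ≤ b - a ∧ r₀ ≤ c - b :=
    ⟨min (min r r') (min (b - a) (c - b)),
      lt_min (lt_min hr hr') (lt_min (by linarith) (by linarith)),
      (min_le_left _ _).trans (min_le_left _ _), (min_le_left _ _).trans (min_le_right _ _),
      (min_le_right _ _).trans (min_le_left _ _), (min_le_right _ _).trans (min_le_right _ _)⟩
  set J := ∫ x in a..b, (q 0 x - q 1 x) with hJ
  set J' := ∫ x in b..c, (q' 0 x - q' 1 x) with hJ'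
  obtain ⟨e, he0, e1, e2, e3⟩ : ∃ e, 0 < e ∧ e < m ∧ e < m' ∧
      J + J' + 2 * e * (c - a) < I + I' := by
    have hca : 0 < c - a := by linarith
    have hsl : 0 < I + I' - (J + J') := by linarith
    refine ⟨min (min (m / 2) (m' / 2)) ((I + I' - (J + J')) / (4 * (c - a))),
      lt_min (lt_min (by linarith) (by linarith)) (by positivity),
      ((min_le_left _ _).trans (min_le_left _ _)).trans_lt (by linarith),
      ((min_le_left _ _).trans (min_le_right _ _)).trans_lt (by linarith), ?_⟩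
    have k := min_le_right (min (m / 2) (m' / 2)) ((I + I' - (J + J')) / (4 * (c - a)))
    have k' := (le_div_iff₀ (show 0 < 4 * (c - a) by positivity)).1 k
    nlinarith
  obtain ⟨ρ, hρ, -, hρr, y, yl, yr, ys, yp, dl, dr, -⟩ := g (fun _ => true) q q' b r₀ hr₀
    (fun i => (hs i).mono (Ioo_subset_Ioo (by linarith) (by linarith)))
    (fun i => (hs' i).mono (Ioo_subset_Ioo (by linarith) (by linarith)))
    (fun i => (he i).2.trans (he' i).1.symm) (h1'.trans h2)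
    (fun x hx => (hp x ⟨by linarith [hx.1], hx.2⟩).1.le)
    (fun x hx => (hp' x ⟨hx.1, by linarith [hx.2]⟩).1.le) e he0
  have evl : ∀ i x, x < b - ρ → y i =ᶠ[𝓝 x] q i := fun i x hx => by
    filter_upwards [Iio_mem_nhds hx] with w hw
    exact yl i w (le_of_lt hw)
  have evr : ∀ i x, b + ρ < x → y i =ᶠ[𝓝 x] q' i := fun i x hx => by
    filter_upwards [Ioi_mem_nhds hx] with w hw
    exact yr i w (le_of_lt hw)
  have ysm : ∀ i, ∀ x ∈ Ioo (a - r₀) (c + r₀), ContDiffAt ℝ ∞ (y i) x := by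
    intro i x hx
    rcases lt_or_ge x (b - ρ) with h | h
    · exact ((hs i).contDiffAt (Ioo_mem_nhds (by linarith [hx.1]) (by linarith))).congr_of_eventuallyEq
        (evl i x h)
    rcases lt_or_ge (b + ρ) x with h' | h'
    · exact ((hs' i).contDiffAt (Ioo_mem_nhds (by linarith)
        (by linarith [hx.2]))).congr_of_eventuallyEq (evr i x h')
    · exact (ys i).contDiffAt (Ioo_mem_nhds (by linarith) (by linarith))
  have dA : ∀ i, ∀ x ∈ Icc a b, |y i x - q i x| ≤ e := by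
    intro i x hx
    rcases le_total x (b - ρ) with h | h
    · rw [yl i x h, sub_self, abs_zero]; exact he0.le
    · exact dl i x ⟨h, hx.2⟩
  have dB : ∀ i, ∀ x ∈ Icc b c, |y i x - q' i x| ≤ e := by
    intro i x hx
    rcases le_total (b + ρ) x with h | h
    · rw [yr i x h, sub_self, abs_zero]; exact he0.le
    · exact dr i x ⟨hx.1, h⟩
  have cY : ∀ i, ContinuousOn (y i) (Icc a c) := fun i x hx =>
    (ysm i x ⟨by linarith [hx.1], by linarith [hx.2]⟩).continuousAt.continuousWithinAt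
  refine ⟨a, c, r₀, y, hab.trans hbc, hr₀, fun i x hx => (ysm i x hx).contDiffWithinAt,
    fun x hx => ⟨?_, ?_⟩, fun i => ⟨?_, ?_⟩, ?_, ?_, ?_⟩
  · have hyx : ∀ i, ContDiffAt ℝ ∞ (y i) x := fun i =>
      ysm i x ⟨by linarith [hx.1], by linarith [hx.2]⟩
    rcases le_or_gt x (b - ρ) with h | h
    · have hx' : x ∈ Icc a b := ⟨hx.1, by linarith⟩
      rw [etY_left hyx (fun i => hqA i x hx') fun i z hz => yl i z (hz.trans h)]
      exact (hp x hx').1
    rcases le_or_gt (b + ρ) x with h' | h'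
    · have hx' : x ∈ Icc b c := ⟨by linarith, hx.2⟩
      rw [etY_right hyx (fun i => hqB i x hx') fun i z hz => yr i z (h'.trans hz)]
      exact (hp' x hx').1
    · exact yp x ⟨h, h'⟩
  · rcases le_total x b with h | h
    · have k := abs_le.1 (dA 0 x ⟨hx.1, h⟩)
      have k' := hmA x ⟨hx.1, h⟩
      linarith [k.1]
    · have k := abs_le.1 (dB 0 x ⟨h, hx.2⟩)
      have k' := hmB x ⟨h, hx.2⟩
      linarith [k.1]
  · rw [yl i a (by linarith)]; exact (he i).1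
  · rw [yr i c (by linarith)]; exact (he' i).2
  · rw [psum_congr fun i => evl i a (by linarith)]; exact h1
  · rw [psum_congr fun i => evr i c (by linarith)]; exact h2'
  · have cY1 : ∀ i, ContinuousOn (y i) (Icc a b) := fun i =>
      (cY i).mono (Icc_subset_Icc le_rfl hbc.le)
    have cY2 : ∀ i, ContinuousOn (y i) (Icc b c) := fun i =>
      (cY i).mono (Icc_subset_Icc hab.le le_rfl)
    have i1 := int_pert hab.le cY1 cA dA
    have i2 := int_pert hbc.le cY2 cB dB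
    have j1 : IntervalIntegrable (fun x => y 0 x - y 1 x) MeasureTheory.volume a b :=
      ((cY1 0).sub (cY1 1)).intervalIntegrable_of_Icc hab.le
    have j2 : IntervalIntegrable (fun x => y 0 x - y 1 x) MeasureTheory.volume b c :=
      ((cY2 0).sub (cY2 1)).intervalIntegrable_of_Icc hbc.le
    rw [← intervalIntegral.integral_add_adjacent_intervals j1 j2]
    have e4 : 2 * e * (c - a) = 2 * e * (b - a) + 2 * e * (c - b) := by ring
    linarith

theorem SegCatAux.star (g : GlueStmt) (h4 : ∀ j, StarStmt j) (j : Fin 7) :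
    ∃ C : ℝ, Seg ![stA 0, stB 0] ![stA j.succ, stB j.succ] (stS 0) (stS j.succ) C := by
  induction j using Fin.induction with
  | zero => exact h4 0
  | succ j ih =>
    obtain ⟨C, hC⟩ := ih
    obtain ⟨C', hC'⟩ := h4 j.succ
    rw [← Fin.succ_castSucc] at hC'
    exact ⟨C + C', segCat g _ _ _ _ _ _ _ _ hC hC'⟩

theorem pn (g : GlueStmt) (h1 : V12Stmt) (h2 : V3Stmt) (h3 : K2Stmt) (h4 : ∀ j, StarStmt j) :
    PNStmt := by
  obtain ⟨C₁, T₀, hT₀, h1⟩ := h1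
  obtain ⟨C₂, X₀, hX₀, h2⟩ := h2
  obtain ⟨C₃, h3⟩ := h3
  obtain ⟨C₄, h4⟩ := star g h4 6
  have h4' : Seg ![9, 5] ![1 / 4, -4] (42 / 5) (1 / 4 - 4) C₄ := by
    have e1 : stA 0 = 9 := rfl
    have e2 : stB 0 = 5 := rfl
    have e3 : stS 0 = 42 / 5 := by show (8.4 : ℝ) = 42 / 5; norm_num
    have e4 : stA (6 : Fin 7).succ = 1 / 4 := by show (0.25 : ℝ) = 1 / 4; norm_num
    have e5 : stB (6 : Fin 7).succ = -4 := rfl
    have e6 : stS (6 : Fin 7).succ = 1 / 4 - 4 := by show (-3.75 : ℝ) = 1 / 4 - 4; norm_num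
    rwa [e1, e2, e3, e4, e5, e6] at h4
  set K := C₁ + C₂ + C₃ + C₄ with hK
  obtain ⟨ε, hε, ε1, ε2⟩ : ∃ ε, 0 < ε ∧ ε < X₀ ∧ ε ≤ Real.exp (-(100 * (K + 3))) :=
    ⟨min (X₀ / 2) (Real.exp (-(100 * (K + 3)))), lt_min (by linarith) (Real.exp_pos _),
      (min_le_left _ _).trans_lt (by linarith), min_le_right _ _⟩
  have hC : 0 < |C₁| + 1 := by positivity
  obtain ⟨T, hT, T1, T2, T3⟩ : ∃ T, 0 < T ∧ T < T₀ ∧ T < 1 / 10 ∧ T ≤ ε / (|C₁| + 1) :=
    ⟨min (min (T₀ / 2) (1 / 20)) (ε / (|C₁| + 1)),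
      lt_min (lt_min (by linarith) (by norm_num)) (by positivity),
      ((min_le_left _ _).trans (min_le_left _ _)).trans_lt (by linarith),
      ((min_le_left _ _).trans (min_le_right _ _)).trans_lt (by norm_num), min_le_right _ _⟩
  obtain ⟨X, hX, hXT, s1⟩ := h1 T hT T1
  have hXε : X ≤ ε := by
    have k := (le_div_iff₀ hC).1 T3
    have k' : C₁ * T ≤ T * (|C₁| + 1) := by nlinarith [le_abs_self C₁]
    linarith
  obtain ⟨u, v, hu, hv, s2⟩ := h2 X hX (hXε.trans_lt ε1)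
  have s3 := h3 u hu v hv
  have hl : Real.log X ≤ -(100 * (K + 3)) :=
    (Real.log_le_iff_le_exp hX).2 (hXε.trans ε2)
  have s := segCat g _ _ _ _ _ _ _ _ (segCat g _ _ _ _ _ _ _ _ (segCat g _ _ _ _ _ _ _ _ s1 s2) s3) h4'
  exact ⟨T, hT, T2, seg_mono s (by linarith)⟩

end Pool.Agent.Lib.MP_df9110_gt
end
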