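import Pool.Agent.Lib.MP_df9110_gt.NTenS
import Pool.Agent.Lib.MP_df9110_gt.SegCat

-- part Pool.Agent.Lib.MP_df9110_gt.T7a
section

/-! Christoffel symbols of block metrics. -/

namespace Pool.Agent.Lib.MP_df9110_gt

open Finset

namespace T7

variable {R : Type} [CommRing R] [Algebra ℝ R] {D : Fin 2 → R → R} {B : Blk R}

theorem all4 {P : Fin 4 → Prop} (h0 : P 0) (h1 : P 1) (h2 : P 2) (h3 : P 3) : ∀ i, P i := by
  intro i
  fin_cases i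
  exacts [h0, h1, h2, h3]

omit [Algebra ℝ R] in
theorem x0 (f : R) : ext4 D 0 f = D 0 f := rfl
omit [Algebra ℝ R] in
theorem x1 (f : R) : ext4 D 1 f = D 1 f := rfl
omit [Algebra ℝ R] in
theorem x2 (f : R) : ext4 D 2 f = 0 := rfl
omit [Algebra ℝ R] in
theorem x3 (f : R) : ext4 D 3 f = 0 := rfl

theorem der (hD : IsDer D) : IsDer (ext4 D) where
  add := all4 (hD.add 0) (hD.add 1) (by simp [x2]) (by simp [x3])
  mul := all4 (hD.mul 0) (hD.mul 1) (by simp [x2]) (by simp [x3])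
  smul := all4 (hD.smul 0) (hD.smul 1) (by simp [x2]) (by simp [x3])
  comm := by
    refine all4 ?_ ?_ ?_ ?_ <;> refine all4 ?_ ?_ ?_ ?_ <;> intro a <;>
      simp only [x0, x1, x2, x3, hD.zero, hD.comm 1 0]

theorem d_inv (hD : IsDer D) {x y : R} (h : x * y = 1) (i : Fin 2) :
    D i y = -(y ^ 2 * D i x) := by
  have h1 := hD.mul i x y
  rw [h, hD.one] at h1
  linear_combination (-y) * h1 - D i y * h

theorem eqf [IsReduced R] (hB : B.Ok) (x y : R)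
    (h : ∀ (K : Type) [Field K] [CharZero K] [Algebra ℝ K] (v : R →ₐ[ℝ] K), v B.a ≠ 0 →
      v B.C ≠ 0 → v B.F₁ ≠ 0 → v B.F₂ ≠ 0 → v B.ai = (v B.a)⁻¹ → v B.Ci = (v B.C)⁻¹ →
      v B.F₁i = (v B.F₁)⁻¹ → v B.F₂i = (v B.F₂)⁻¹ →
      (∀ z, v ((1 / 2 : ℝ) • z) = v z / 2) → v x = v y) : x = y := by
  refine eq_of_field x y fun K _ _ v => ?_
  have : CharZero K := charZero_of_injective_algebraMap (algebraMap ℝ K).injective
  have key : ∀ p q : R, p * q = 1 → v p ≠ 0 ∧ v q = (v p)⁻¹ := by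
    intro p q hpq
    have h1 : v p * v q = 1 := by rw [← map_mul, hpq, map_one]
    exact ⟨left_ne_zero_of_mul_eq_one h1, eq_inv_of_mul_eq_one_right h1⟩
  refine h K v (key _ _ hB.ha).1 (key _ _ hB.hC).1 (key _ _ hB.h₁).1 (key _ _ hB.h₂).1
    (key _ _ hB.ha).2 (key _ _ hB.hC).2 (key _ _ hB.h₁).2 (key _ _ hB.h₂).2 fun z => ?_
  rw [map_smul, eq_div_iff two_ne_zero, mul_two, ← add_smul]
  norm_num

omit [Algebra ℝ R] in
theorem met (hB : B.Ok) : IsMet B.g B.G where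
  gs := by refine all4 ?_ ?_ ?_ ?_ <;> refine all4 ?_ ?_ ?_ ?_ <;> rfl
  Gs := by refine all4 ?_ ?_ ?_ ?_ <;> refine all4 ?_ ?_ ?_ ?_ <;> rfl
  inv := by
    have h1 := hB.ha
    have h2 := hB.hC
    have h3 := hB.h₁
    have h4 := hB.h₂
    refine all4 ?_ ?_ ?_ ?_ <;> refine all4 ?_ ?_ ?_ ?_ <;>
      simp [Fin.sum_univ_four, Blk.g, Blk.G]
    · linear_combination h1
    · ring
    · linear_combination B.β * h1 - B.β * h2
    · linear_combination h2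
    · linear_combination h3
    · linear_combination h4

section Tab

variable (D B)

noncomputable def u11 : R := B.a * B.Ci * B.j D
noncomputable def w11 : R := -((1 / 2 : ℝ) • B.xc D)
noncomputable def u01 : R := -B.l D - B.β * u11 D B
noncomputable def w01 : R := -B.j D - D 1 B.β - B.β * w11 D B
noncomputable def u00 : R := -((1 / 2 : ℝ) • B.ta D) + B.β * B.l D - B.β * u01 D B
noncomputable def w00 : R :=
  B.C * B.ai * B.l D - B.T D B.β + B.β * ((1 / 2 : ℝ) • B.tc D) - B.β * w01 D B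
noncomputable def u22 : R := -(B.F₁ * B.a * B.t₁ D)
noncomputable def w22 : R := -(B.F₁ * B.C * B.x₁ D)
noncomputable def u33 : R := -(B.F₂ * B.a * B.t₂ D)
noncomputable def w33 : R := -(B.F₂ * B.C * B.x₂ D)
noncomputable def s₁ : R := B.t₁ D - B.β * B.x₁ D
noncomputable def s₂ : R := B.t₂ D - B.β * B.x₂ D

/-- The Christoffel symbols. -/
noncomputable def Gt : Fin 4 → Fin 4 → Fin 4 → R :=
  ![![![u00 D B, u01 D B, 0, 0], ![u01 D B, u11 D B, 0, 0], ![0, 0, u22 D B, 0],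
      ![0, 0, 0, u33 D B]],
    ![![B.β * u00 D B + w00 D B, B.β * u01 D B + w01 D B, 0, 0],
      ![B.β * u01 D B + w01 D B, B.β * u11 D B + w11 D B, 0, 0],
      ![0, 0, B.β * u22 D B + w22 D B, 0], ![0, 0, 0, B.β * u33 D B + w33 D B]],
    ![![0, 0, s₁ D B, 0], ![0, 0, B.x₁ D, 0], ![s₁ D B, B.x₁ D, 0, 0], ![0, 0, 0, 0]],
    ![![0, 0, 0, s₂ D B], ![0, 0, 0, B.x₂ D], ![0, 0, 0, 0], ![s₂ D B, B.x₂ D, 0, 0]]]

end Tab

theorem chr [IsReduced R] (hD : IsDer D) (hB : B.Ok) : gChr (ext4 D) B.g B.G = Gt D B := by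
  have key : ∀ k i j, gChr (ext4 D) B.g B.G k i j = Gt D B k i j := by
    refine all4 ?_ ?_ ?_ ?_ <;> refine all4 ?_ ?_ ?_ ?_ <;> refine all4 ?_ ?_ ?_ ?_ <;>
      simp only [gChr, Fin.sum_univ_four, x0, x1, x2, x3, Blk.g, Blk.G, Gt, Matrix.cons_val,
        Matrix.cons_val_zero, Matrix.cons_val_one, hD.zero, add_zero, zero_add, sub_zero,
        zero_mul, mul_zero, sub_self, smul_zero, zero_sub, neg_zero]
    all_goals
      simp only [u00, u01, u11, w00, w01, w11, u22, w22, u33, w33, s₁, s₂, Blk.j, Blk.l, Blk.ta,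
        Blk.tc, Blk.xa, Blk.xc, Blk.t₁, Blk.t₂, Blk.x₁, Blk.x₂, Blk.T, hD.add, hD.mul,
        hD.neg, hD.sq, d_inv hD hB.ha, d_inv hD hB.hC]
      refine eqf hB _ _ fun K _ _ _ v n1 n2 n3 n4 e1 e2 e3 e4 eh => ?_
      simp only [map_add, map_sub, map_mul, map_neg, map_pow, map_ofNat, eh, e1, e2, e3, e4]
      field_simp
      try ring
  funext k i j
  exact key k i j

end T7

end Pool.Agent.Lib.MP_df9110_gt
end

-- part Pool.Agent.Lib.MP_df9110_gt.T7b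
section

/-! The curvature tensor of block metrics. -/

namespace Pool.Agent.Lib.MP_df9110_gt

open Finset

namespace T7

variable {R : Type} [CommRing R] [Algebra ℝ R] {D : Fin 2 → R → R} {B : Blk R}

structure Sym4 (t : Fin 4 → Fin 4 → Fin 4 → Fin 4 → R) : Prop where
  a1 : ∀ i j k m, t i j k m = -t j i k m
  a2 : ∀ i j k m, t i j k m = -t i j m k
  pr : ∀ i j k m, t i j k m = t k m i j

theorem zero_of_neg {x : R} (h : x = -x) : x = 0 := by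
  have h2 : (2 : ℝ) • x = 0 := by
    rw [two_smul]
    linear_combination h
  calc x = (1 / 2 : ℝ) • (2 : ℝ) • x := by rw [smul_smul]; norm_num
    _ = 0 := by rw [h2, smul_zero]

theorem ext21 {t s : Fin 4 → Fin 4 → Fin 4 → Fin 4 → R} (ht : Sym4 t) (hs : Sym4 s)
    (h1 : t 0 1 0 1 = s 0 1 0 1) (h2 : t 0 1 0 2 = s 0 1 0 2) (h3 : t 0 1 0 3 = s 0 1 0 3)
    (h4 : t 0 1 1 2 = s 0 1 1 2) (h5 : t 0 1 1 3 = s 0 1 1 3) (h6 : t 0 1 2 3 = s 0 1 2 3)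
    (h7 : t 0 2 0 2 = s 0 2 0 2) (h8 : t 0 2 0 3 = s 0 2 0 3) (h9 : t 0 2 1 2 = s 0 2 1 2)
    (h10 : t 0 2 1 3 = s 0 2 1 3) (h11 : t 0 2 2 3 = s 0 2 2 3) (h12 : t 0 3 0 3 = s 0 3 0 3)
    (h13 : t 0 3 1 2 = s 0 3 1 2) (h14 : t 0 3 1 3 = s 0 3 1 3) (h15 : t 0 3 2 3 = s 0 3 2 3)
    (h16 : t 1 2 1 2 = s 1 2 1 2) (h17 : t 1 2 1 3 = s 1 2 1 3) (h18 : t 1 2 2 3 = s 1 2 2 3)
    (h19 : t 1 3 1 3 = s 1 3 1 3) (h20 : t 1 3 2 3 = s 1 3 2 3) (h21 : t 2 3 2 3 = s 2 3 2 3) :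
    t = s := by
  have k0 : ∀ i j k m : Fin 4, i < j → k < m → (i < k ∨ i = k ∧ j ≤ m) →
      t i j k m = s i j k m := by
    refine all4 ?_ ?_ ?_ ?_ <;> refine all4 ?_ ?_ ?_ ?_ <;> refine all4 ?_ ?_ ?_ ?_ <;>
      refine all4 ?_ ?_ ?_ ?_ <;> intro a b c <;>
      first
        | exact absurd a (by decide)
        | exact absurd b (by decide)
        | exact absurd c (by decide)
        | assumption
  have k1 : ∀ i j k m : Fin 4, i < j → k < m → t i j k m = s i j k m := by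
    intro i j k m a b
    by_cases c : i < k ∨ i = k ∧ j ≤ m
    · exact k0 i j k m a b c
    · rw [ht.pr, hs.pr]
      exact k0 k m i j b a (by omega)
  have k2 : ∀ i j k m : Fin 4, i < j → t i j k m = s i j k m := by
    intro i j k m a
    rcases lt_trichotomy k m with b | rfl | b
    · exact k1 i j k m a b
    · rw [zero_of_neg (ht.a2 i j k k), zero_of_neg (hs.a2 i j k k)]
    · rw [ht.a2, hs.a2, k1 i j m k a b]
  funext i j k m
  rcases lt_trichotomy i j with a | rfl | a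
  · exact k2 i j k m a
  · rw [zero_of_neg (ht.a1 i i k m), zero_of_neg (hs.a1 i i k m)]
  · rw [ht.a1, hs.a1, k2 j i k m a]

omit [Algebra ℝ R] in
theorem tab2_symm (a b c d e : R) : ∀ i j, tab2 a b c d e i j = tab2 a b c d e j i := by
  refine all4 ?_ ?_ ?_ ?_ <;> refine all4 ?_ ?_ ?_ ?_ <;> rfl

omit [Algebra ℝ R] in
theorem sym_tab4 (K p11 p12 p22 q11 q12 q22 r : R) : Sym4 (tab4 K p11 p12 p22 q11 q12 q22 r) where
  a1 i j k m := by simp only [tab4, kn]; ring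
  a2 i j k m := by simp only [tab4, kn]; ring
  pr i j k m := by
    simp only [tab4, kn, tab2_symm _ _ _ _ _ k j, tab2_symm _ _ _ _ _ m i,
      tab2_symm _ _ _ _ _ k i, tab2_symm _ _ _ _ _ m j]
    ring

omit [Algebra ℝ R] in
theorem sym_pull (J : Fin 4 → Fin 4 → R) {t : Fin 4 → Fin 4 → Fin 4 → Fin 4 → R} (ht : Sym4 t) :
    Sym4 (gPull4 J t) where
  a1 i j k m := by
    simp only [gPull4, ← sum_neg_distrib]
    rw [sum_comm]
    refine sum_congr rfl fun a _ => sum_congr rfl fun b _ => sum_congr rfl fun c _ =>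
      sum_congr rfl fun d _ => ?_
    rw [ht.a1]; ring
  a2 i j k m := by
    simp only [gPull4, ← sum_neg_distrib]
    refine sum_congr rfl fun a _ => sum_congr rfl fun b _ => ?_
    rw [sum_comm]
    refine sum_congr rfl fun c _ => sum_congr rfl fun d _ => ?_
    rw [ht.a2]; ring
  pr i j k m := by
    have e : ∀ f : Fin 4 → Fin 4 → Fin 4 → Fin 4 → R,
        ∑ a, ∑ b, ∑ c, ∑ d, f a b c d = ∑ c, ∑ d, ∑ a, ∑ b, f a b c d := by
      intro f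
      calc ∑ a, ∑ b, ∑ c, ∑ d, f a b c d = ∑ x : Fin 4 × Fin 4, ∑ y : Fin 4 × Fin 4,
            f x.1 x.2 y.1 y.2 := by simp only [Fintype.sum_prod_type]
        _ = ∑ y : Fin 4 × Fin 4, ∑ x : Fin 4 × Fin 4, f x.1 x.2 y.1 y.2 := sum_comm
        _ = _ := by simp only [Fintype.sum_prod_type]
    simp only [gPull4]
    rw [e]
    refine sum_congr rfl fun a _ => sum_congr rfl fun b _ => sum_congr rfl fun c _ =>
      sum_congr rfl fun d _ => ?_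
    rw [ht.pr]; ring

omit [Algebra ℝ R] in
theorem pull4_eq (J : Fin 4 → Fin 4 → R) (t : Fin 4 → Fin 4 → Fin 4 → Fin 4 → R) (i j k m) :
    gPull4 J t i j k m = ∑ a, J a i * ∑ b, J b j * ∑ c, J c k * ∑ d, J d m * t a b c d := by
  simp only [gPull4, mul_sum, mul_assoc]

omit [Algebra ℝ R] in
theorem pull2_eq (J : Fin 4 → Fin 4 → R) (t : Fin 4 → Fin 4 → R) (i j) :
    gPull2 J t i j = ∑ a, J a i * ∑ b, J b j * t a b := by
  simp only [gPull2, mul_sum, mul_assoc]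

omit [Algebra ℝ R] in
theorem fr0 (s : Fin 4 → R) : ∑ a, B.fr a 0 * s a = s 0 + B.β * s 1 := by
  simp [Fin.sum_univ_four, Blk.fr]
omit [Algebra ℝ R] in
theorem fr1 (s : Fin 4 → R) : ∑ a, B.fr a 1 * s a = s 1 := by
  simp [Fin.sum_univ_four, Blk.fr]
omit [Algebra ℝ R] in
theorem fr2 (s : Fin 4 → R) : ∑ a, B.fr a 2 * s a = s 2 := by
  simp [Fin.sum_univ_four, Blk.fr]
omit [Algebra ℝ R] in
theorem fr3 (s : Fin 4 → R) : ∑ a, B.fr a 3 * s a = s 3 := by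
  simp [Fin.sum_univ_four, Blk.fr]

theorem pull_tab4 (K p11 p12 p22 q11 q12 q22 r : R) :
    gPull4 B.fr (tab4 K (p11 - 2 * B.β * p12 + B.β ^ 2 * p22) (p12 - B.β * p22) p22
      (q11 - 2 * B.β * q12 + B.β ^ 2 * q22) (q12 - B.β * q22) q22 r) =
      tab4 K p11 p12 p22 q11 q12 q22 r := by
  refine ext21 (sym_pull _ (sym_tab4 ..)) (sym_tab4 ..) ?_ ?_ ?_ ?_ ?_ ?_ ?_ ?_ ?_ ?_ ?_ ?_ ?_ ?_
    ?_ ?_ ?_ ?_ ?_ ?_ ?_
  all_goals
    simp only [pull4_eq, fr0, fr1, fr2, fr3]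
    try simp only [tab4, kn, tab2, Matrix.cons_val, Matrix.cons_val_zero, Matrix.cons_val_one]
    try ring

theorem cT (hD : IsDer D) {u v : R} (h : u * v = 1) : D 1 (B.T D u * v) =
    D 0 (D 1 u * v) + B.β * D 1 (D 1 u * v) + D 1 B.β * (D 1 u * v) := by
  simp only [Blk.T, hD.add, hD.mul, d_inv hD h, hD.comm 1 0]
  ring

theorem cta (hD : IsDer D) (hB : B.Ok) :
    D 1 (B.ta D) = D 0 (B.xa D) + B.β * D 1 (B.xa D) + D 1 B.β * B.xa D := cT hD hB.ha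
theorem ctc (hD : IsDer D) (hB : B.Ok) :
    D 1 (B.tc D) = D 0 (B.xc D) + B.β * D 1 (B.xc D) + D 1 B.β * B.xc D := cT hD hB.hC
theorem ct₁ (hD : IsDer D) (hB : B.Ok) :
    D 1 (B.t₁ D) = D 0 (B.x₁ D) + B.β * D 1 (B.x₁ D) + D 1 B.β * B.x₁ D := by
  simp only [Blk.t₁, Blk.x₁, hD.smul, cT hD hB.h₁, smul_add, mul_smul_comm]
theorem ct₂ (hD : IsDer D) (hB : B.Ok) :
    D 1 (B.t₂ D) = D 0 (B.x₂ D) + B.β * D 1 (B.x₂ D) + D 1 B.β * B.x₂ D := by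
  simp only [Blk.t₂, Blk.x₂, hD.smul, cT hD hB.h₂, smul_add, mul_smul_comm]

omit [Algebra ℝ R] in
theorem a0 (hB : B.Ok) : D 0 B.a = (B.ta D - B.β * B.xa D) * B.a := by
  simp only [Blk.ta, Blk.xa, Blk.T]
  linear_combination (-D 0 B.a) * hB.ha
omit [Algebra ℝ R] in
theorem a1 (hB : B.Ok) : D 1 B.a = B.xa D * B.a := by
  simp only [Blk.xa]
  linear_combination (-D 1 B.a) * hB.ha
omit [Algebra ℝ R] in
theorem c0 (hB : B.Ok) : D 0 B.C = (B.tc D - B.β * B.xc D) * B.C := by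
  simp only [Blk.tc, Blk.xc, Blk.T]
  linear_combination (-D 0 B.C) * hB.hC
omit [Algebra ℝ R] in
theorem c1 (hB : B.Ok) : D 1 B.C = B.xc D * B.C := by
  simp only [Blk.xc]
  linear_combination (-D 1 B.C) * hB.hC
theorem ai0 (hD : IsDer D) (hB : B.Ok) : D 0 B.ai = -((B.ta D - B.β * B.xa D) * B.ai) := by
  rw [d_inv hD hB.ha]
  simp only [Blk.ta, Blk.xa, Blk.T]
  ring
theorem ai1 (hD : IsDer D) (hB : B.Ok) : D 1 B.ai = -(B.xa D * B.ai) := by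
  rw [d_inv hD hB.ha]
  simp only [Blk.xa]
  ring
theorem ci0 (hD : IsDer D) (hB : B.Ok) : D 0 B.Ci = -((B.tc D - B.β * B.xc D) * B.Ci) := by
  rw [d_inv hD hB.hC]
  simp only [Blk.tc, Blk.xc, Blk.T]
  ring
theorem ci1 (hD : IsDer D) (hB : B.Ok) : D 1 B.Ci = -(B.xc D * B.Ci) := by
  rw [d_inv hD hB.hC]
  simp only [Blk.xc]
  ring

section Tab

variable (D B)

noncomputable def cK : R := B.K D * B.ai * B.Ci
noncomputable def p11 : R := B.k11 D (B.t₁ D) (B.x₁ D) * B.ai * B.F₁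
noncomputable def p12 : R := B.k12 D (B.t₁ D) (B.x₁ D) * B.F₁
noncomputable def p22 : R := B.k22 D (B.t₁ D) (B.x₁ D) * B.Ci * B.F₁
noncomputable def q11 : R := B.k11 D (B.t₂ D) (B.x₂ D) * B.ai * B.F₂
noncomputable def q12 : R := B.k12 D (B.t₂ D) (B.x₂ D) * B.F₂
noncomputable def q22 : R := B.k22 D (B.t₂ D) (B.x₂ D) * B.Ci * B.F₂
noncomputable def cr : R := B.k34 D * B.F₁ * B.F₂

/-- The curvature tensor in coordinates. -/
noncomputable def Rt : Fin 4 → Fin 4 → Fin 4 → Fin 4 → R :=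
  tab4 (cK D B) (p11 D B - 2 * B.β * p12 D B + B.β ^ 2 * p22 D B) (p12 D B - B.β * p22 D B)
    (p22 D B) (q11 D B - 2 * B.β * q12 D B + B.β ^ 2 * q22 D B) (q12 D B - B.β * q22 D B)
    (q22 D B) (cr D B)

end Tab

theorem rlow [IsReduced R] (hD : IsDer D) (hB : B.Ok)
    (hs : Sym4 (gRlow (ext4 D) B.g (Gt D B))) : gRlow (ext4 D) B.g (Gt D B) = Rt D B := by
  refine ext21 hs (sym_tab4 ..) ?_ ?_ ?_ ?_ ?_ ?_ ?_ ?_ ?_ ?_ ?_ ?_ ?_ ?_
    ?_ ?_ ?_ ?_ ?_ ?_ ?_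
  all_goals
    simp only [gRlow, gRiem, Fin.sum_univ_four, x0, x1, x2, x3, Blk.g, Gt, Rt, tab4, kn, tab2,
      Matrix.cons_val, Matrix.cons_val_zero, Matrix.cons_val_one, hD.zero, add_zero, zero_add,
      sub_zero, zero_mul, mul_zero, sub_self, zero_sub, neg_zero, mul_one]
  all_goals
    simp only [u00, u01, u11, w00, w01, w11, u22, w22, s₁, s₂, cK, p11, p12, p22, q11,
      q12, q22, cr, Blk.K, Blk.k11, Blk.k12, Blk.k22, Blk.k34, Blk.H11, Blk.H12, Blk.H22, Blk.j,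
      Blk.l, Blk.T, hD.add, hD.mul, hD.sub, hD.neg, hD.smul, hD.comm 1 0, cta hD hB, ctc hD hB,
      ct₁ hD hB, ct₂ hD hB, a0 hB, a1 hB, c1 hB, ai1 hD hB, ci0 hD hB, ci1 hD hB]
    refine eqf hB _ _ fun K _ _ _ v n1 n2 n3 n4 e1 e2 e3 e4 eh => ?_
    simp only [map_add, map_sub, map_mul, map_neg, map_pow, map_ofNat, eh, e1, e2]
    field_simp
    ring

end T7

end Pool.Agent.Lib.MP_df9110_gt
end

-- part Pool.Agent.Lib.MP_df9110_gt.T7
section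

/-! Curvature, soliton error and drift Laplacian of block metrics. -/

namespace Pool.Agent.Lib.MP_df9110_gt

open Finset

namespace T7

variable {R : Type} [CommRing R] [Algebra ℝ R] {D : Fin 2 → R → R} {B : Blk R}

section Tab

variable (D B)

noncomputable def r11 : R :=
  (B.K D + B.k11 D (B.t₁ D) (B.x₁ D) + B.k11 D (B.t₂ D) (B.x₂ D)) * B.ai
noncomputable def r12 : R := B.k12 D (B.t₁ D) (B.x₁ D) + B.k12 D (B.t₂ D) (B.x₂ D)
noncomputable def r22 : R :=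
  (B.K D + B.k22 D (B.t₁ D) (B.x₁ D) + B.k22 D (B.t₂ D) (B.x₂ D)) * B.Ci
noncomputable def r33 : R :=
  (B.k11 D (B.t₁ D) (B.x₁ D) + B.k22 D (B.t₁ D) (B.x₁ D) + B.k34 D) * B.F₁
noncomputable def r44 : R :=
  (B.k11 D (B.t₂ D) (B.x₂ D) + B.k22 D (B.t₂ D) (B.x₂ D) + B.k34 D) * B.F₂

/-- The Ricci tensor in coordinates. -/
noncomputable def Rc : Fin 4 → Fin 4 → R :=
  tab2 (r11 D B - 2 * B.β * r12 D B + B.β ^ 2 * r22 D B) (r12 D B - B.β * r22 D B) (r22 D B)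
    (r33 D B) (r44 D B)

end Tab

theorem ric [IsReduced R] (hB : B.Ok) :
    ∀ a b, ∑ c, ∑ d, B.G c d * Rt D B c a b d = Rc D B a b := by
  refine all4 ?_ ?_ ?_ ?_ <;> refine all4 ?_ ?_ ?_ ?_ <;>
    simp only [Fin.sum_univ_four, Blk.G, Rt, Rc, tab4, kn, tab2, Matrix.cons_val,
      Matrix.cons_val_zero, Matrix.cons_val_one, add_zero, zero_add, sub_zero, zero_mul,
      mul_zero, sub_self, zero_sub, mul_one, neg_zero]
  all_goals
    simp only [cK, p11, p12, p22, q11, q12, q22, cr, r11, r12, r22, r33, r44]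
    refine eqf hB _ _ fun K _ _ _ v n1 n2 n3 n4 e1 e2 e3 e4 eh => ?_
    simp only [map_add, map_sub, map_mul, map_neg, map_pow, map_ofNat, e1, e2, e3, e4]
    field_simp
    try ring

theorem scal [IsReduced R] (hB : B.Ok) : gTr B.G (Rc D B) = B.scal D := by
  simp only [gTr, Fin.sum_univ_four, Blk.G, Rc, tab2, Matrix.cons_val,
    Matrix.cons_val_zero, Matrix.cons_val_one, add_zero, zero_add, mul_zero, r11, r12, r22, r33,
    r44, Blk.scal]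
  refine eqf hB _ _ fun K _ _ _ v n1 n2 n3 n4 e1 e2 e3 e4 eh => ?_
  simp only [map_add, map_sub, map_mul, map_pow, map_ofNat, e1, e2, e3, e4]
  field_simp
  ring

omit [Algebra ℝ R] in
theorem gam (f f' : R) :
    gGam (ext4 D) B.G f f' = B.a * B.T D f * B.T D f' + B.C * D 1 f * D 1 f' := by
  simp only [gGam, Fin.sum_univ_four, Blk.G, x0, x1, x2, x3, Matrix.cons_val,
    Matrix.cons_val_zero, Matrix.cons_val_one, Blk.T]
  ring

theorem lap [IsReduced R] (hD : IsDer D) (hB : B.Ok) (f : R) :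
    gLapV (ext4 D) B.G (Gt D B) B.V f = B.lap D (B.T D f) (D 1 f) := by
  simp only [gLapV, gTr, gHess, Fin.sum_univ_four, Blk.G, Blk.V, Gt, x0, x1, x2, x3,
    Matrix.cons_val, Matrix.cons_val_zero, Matrix.cons_val_one, add_zero, zero_add, zero_mul,
    mul_zero, zero_sub]
  simp only [u00, u01, u11, w00, w01, w11, u22, w22, u33, w33, Blk.lap, Blk.H11, Blk.H22, Blk.Xa,
    Blk.y₁, Blk.y₂, Blk.j, Blk.l, Blk.T, hD.add, hD.mul, hD.comm 1 0]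
  refine eqf hB _ _ fun K _ _ _ v n1 n2 n3 n4 e1 e2 e3 e4 eh => ?_
  simp only [map_add, map_sub, map_mul, map_neg, map_pow, eh, e1, e2, e3, e4]
  field_simp
  ring

theorem f₁0 (hB : B.Ok) : D 0 B.F₁ = 2 * (B.t₁ D - B.β * B.x₁ D) * B.F₁ := by
  simp only [Blk.t₁, Blk.x₁, Blk.T]
  linear_combination (norm := algebra) (-D 0 B.F₁) * hB.h₁
theorem f₁1 (hB : B.Ok) : D 1 B.F₁ = 2 * B.x₁ D * B.F₁ := by
  simp only [Blk.x₁]
  linear_combination (norm := algebra) (-D 1 B.F₁) * hB.h₁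
theorem f₂0 (hB : B.Ok) : D 0 B.F₂ = 2 * (B.t₂ D - B.β * B.x₂ D) * B.F₂ := by
  simp only [Blk.t₂, Blk.x₂, Blk.T]
  linear_combination (norm := algebra) (-D 0 B.F₂) * hB.h₂
theorem f₂1 (hB : B.Ok) : D 1 B.F₂ = 2 * B.x₂ D * B.F₂ := by
  simp only [Blk.x₂]
  linear_combination (norm := algebra) (-D 1 B.F₂) * hB.h₂

theorem err [IsReduced R] (hD : IsDer D) (hB : B.Ok) : ∀ i j,
    gPull2 B.fr (fun a b => Rc D B a b + (1 / 2 : ℝ) • gLie (ext4 D) B.V B.g a b +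
      (1 / 2 : ℝ) • B.g a b) i j =
    tab2 (B.e11 D * B.ai) (B.e12 D) (B.e22 D * B.Ci) (B.e₁ D * B.F₁) (B.e₂ D * B.F₂) i j := by
  refine all4 ?_ ?_ ?_ ?_ <;> refine all4 ?_ ?_ ?_ ?_ <;>
    simp only [pull2_eq, fr0, fr1, fr2, fr3] <;>
    simp only [gLie, Fin.sum_univ_four, Blk.g, Blk.V, Rc, tab2, x0, x1, x2, x3, Matrix.cons_val,
      Matrix.cons_val_zero, Matrix.cons_val_one, add_zero, zero_mul, mul_zero, hD.zero,
      smul_zero]
  all_goals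
    simp only [r11, r12, r22, r33, r44, Blk.e11, Blk.e12, Blk.e22, Blk.e₁, Blk.e₂, Blk.lap,
      Blk.k11, Blk.k12, Blk.k22, Blk.k34, Blk.H11, Blk.H12, Blk.H22, Blk.Xa, Blk.y₁, Blk.y₂, Blk.j,
      Blk.l, Blk.T, hD.add, hD.mul, hD.sub, hD.neg, hD.sq, ct₁ hD hB, ct₂ hD hB, a0 hB, a1 hB,
      c0 hB, c1 hB, ai0 hD hB, ai1 hD hB, ci0 hD hB, ci1 hD hB, f₁0 hB, f₁1 hB, f₂0 hB, f₂1 hB]
    refine eqf hB _ _ fun K _ _ _ v n1 n2 n3 n4 e1 e2 e3 e4 eh => ?_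
    simp only [map_add, map_sub, map_mul, map_neg, map_pow, map_ofNat, map_one, eh, e1, e2]
    field_simp
    ring

end T7

theorem t7 (h1 : T1Stmt) : T7Stmt := by
  intro R _ _ _ D B hD hB
  have hT := h1 R (Fin 4) (ext4 D) B.g B.G (T7.der hD) (T7.met hB)
  rw [T7.chr hD hB] at hT ⊢
  have hR : gRlow (ext4 D) B.g (T7.Gt D B) = T7.Rt D B :=
    T7.rlow hD hB ⟨hT.anti1, hT.anti2, hT.pair⟩
  have hc : gRic (ext4 D) (T7.Gt D B) = T7.Rc D B := by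
    funext a b
    rw [hT.ric_low, hR, T7.ric hB]
  refine ⟨T7.der hD, T7.met hB, ?_, ?_, ?_, T7.lap hD hB, T7.gam⟩
  · rw [hR]
    exact T7.pull_tab4 ..
  · rw [hc]
    exact T7.scal hB
  · funext i j
    rw [← T7.err hD hB i j, ← hc]
    rfl

end Pool.Agent.Lib.MP_df9110_gt
end

-- part Pool.Agent.Lib.MP_df9110_gt.Glue
section

/-! Smoothing of a corner of the profile. -/

namespace Pool.Agent.Lib.MP_df9110_gt

open Set Filter Topology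
open scoped ContDiff

namespace Glue

theorem cd_at {f : ℝ → ℝ} {x : ℝ} (h : ContDiffAt ℝ ∞ f x) (k : ℕ) : ContDiffAt ℝ k f x :=
  h.of_le (by exact_mod_cast le_top)

theorem cd_iter {U : Set ℝ} (hU : IsOpen U) (k : ℕ) {f : ℝ → ℝ} (h : ContDiffOn ℝ ∞ f U) :
    ContDiffOn ℝ ∞ (iteratedDeriv k f) U := by
  induction k with
  | zero => rwa [iteratedDeriv_zero]
  | succ k ih =>
    rw [iteratedDeriv_succ]
    exact ((contDiffOn_infty_iff_deriv_of_isOpen hU).1 ih).2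

theorem bd_iter {U K : Set ℝ} (hU : IsOpen U) (hK : IsCompact K) (hKU : K ⊆ U) (k : ℕ)
    {f : ℝ → ℝ} (h : ContDiffOn ℝ ∞ f U) : ∃ C, 0 ≤ C ∧ ∀ x ∈ K, |iteratedDeriv k f x| ≤ C := by
  obtain ⟨C, hC⟩ := hK.exists_bound_of_continuousOn ((cd_iter hU k h).continuousOn.mono hKU)
  exact ⟨max C 0, le_max_right _ _, fun x hx => (hC x hx).trans (le_max_left _ _)⟩

theorem leib {S : Set ℝ} {f h G : ℝ → ℝ} (hf : ∀ x ∈ S, ContDiffAt ℝ ∞ f x)
    (hh : ∀ x ∈ S, ContDiffAt ℝ ∞ h x)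
    (h1 : ∀ k, ∃ C, 0 ≤ C ∧ ∀ x ∈ S, |iteratedDeriv k f x| ≤ C * G x)
    (h2 : ∀ k, ∃ C, 0 ≤ C ∧ ∀ x ∈ S, |iteratedDeriv k h x| ≤ C) (k : ℕ) :
    ∃ C, 0 ≤ C ∧ ∀ x ∈ S, |iteratedDeriv k (f * h) x| ≤ C * G x := by
  choose C1 p1 q1 using h1
  choose C2 p2 q2 using h2
  refine ⟨∑ i ∈ Finset.range (k + 1), k.choose i * C1 i * C2 (k - i),
    Finset.sum_nonneg fun i _ => mul_nonneg (mul_nonneg (Nat.cast_nonneg _) (p1 _)) (p2 _),
    fun x hx => ?_⟩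
  rw [iteratedDeriv_mul (cd_at (hf x hx) k) (cd_at (hh x hx) k), Finset.sum_mul]
  refine (Finset.abs_sum_le_sum_abs _ _).trans (Finset.sum_le_sum fun i _ => ?_)
  rw [abs_mul, abs_mul, Nat.abs_cast]
  have a1 := q1 i x hx
  have a2 := q2 (k - i) x hx
  calc (k.choose i : ℝ) * |iteratedDeriv i f x| * |iteratedDeriv (k - i) h x|
      ≤ (k.choose i : ℝ) * (C1 i * G x) * C2 (k - i) := by
        have := (abs_nonneg _).trans a1
        gcongr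
    _ = _ := by ring

/-- The flat function `exp (-1 / (1 + t))`. -/
noncomputable def ga (t : ℝ) : ℝ := expNegInvGlue (1 + t)

theorem ga_nonneg (t : ℝ) : 0 ≤ ga t := expNegInvGlue.nonneg _

theorem ga_pos {t : ℝ} (h : -1 < t) : 0 < ga t := expNegInvGlue.pos_of_pos (by linarith)

theorem ga_zero {t : ℝ} (h : t ≤ -1) : ga t = 0 := expNegInvGlue.zero_of_nonpos (by linarith)

theorem ga_mono : Monotone ga := fun _ _ h => expNegInvGlue.monotone (by linarith)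

theorem ga_le (t : ℝ) : ga t ≤ 1 := by
  unfold ga expNegInvGlue
  split_ifs with h
  · exact zero_le_one
  · exact Real.exp_le_one_iff.2 (neg_nonpos.2 (inv_nonneg.2 (not_le.1 h).le))

theorem ga_cd : ContDiff ℝ ∞ ga := expNegInvGlue.contDiff.comp (contDiff_const.add contDiff_id)

theorem ga_le_rpow {θ : ℝ} (h0 : 0 < θ) (h1 : θ < 1) (t : ℝ) : ga t ≤ ga t ^ θ := by
  have := Real.rpow_le_rpow_of_exponent_ge' (ga_nonneg t) (ga_le t) h0.le h1.le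
  rwa [Real.rpow_one] at this

theorem iter_glue (k : ℕ) : ∃ p : Polynomial ℝ,
    iteratedDeriv k expNegInvGlue = fun x => p.eval x⁻¹ * expNegInvGlue x := by
  induction k with
  | zero => exact ⟨1, by ext x; simp⟩
  | succ k ih =>
    obtain ⟨p, hp⟩ := ih
    exact ⟨_, by
      rw [iteratedDeriv_succ, hp]
      exact funext fun x => (expNegInvGlue.hasDerivAt_polynomial_eval_inv_mul p x).deriv⟩

theorem ga_flat {θ : ℝ} (h1 : θ < 1) (k : ℕ) :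
    ∃ C, 0 ≤ C ∧ ∀ t ∈ Icc (-1 : ℝ) 0, |iteratedDeriv k ga t| ≤ C * ga t ^ θ := by
  obtain ⟨p, hp⟩ := iter_glue k
  have hl : 0 < 1 - θ := by linarith
  obtain ⟨C, hC⟩ := (isCompact_Icc (a := (0 : ℝ)) (b := (1 - θ)⁻¹)).exists_bound_of_continuousOn
    (expNegInvGlue.continuous_polynomial_eval_inv_mul
      (p.comp (Polynomial.C (1 - θ)⁻¹ * Polynomial.X))).continuousOn
  refine ⟨max C 0, le_max_right _ _, fun t ht => ?_⟩
  have e : iteratedDeriv k ga t = p.eval (1 + t)⁻¹ * ga t := by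
    have := congrFun (iteratedDeriv_comp_const_add k expNegInvGlue 1) t
    rw [hp] at this
    exact this
  rw [e]
  rcases ht.1.eq_or_lt with h | h
  · rw [ga_zero h.ge, mul_zero, abs_zero]
    exact mul_nonneg (le_max_right _ _) (Real.rpow_nonneg le_rfl _)
  have hx : 0 < 1 + t := by linarith
  have h2 := hC ((1 + t) / (1 - θ)) ⟨by positivity, by
    rw [div_eq_mul_inv]; exact mul_le_of_le_one_left (by positivity) (by linarith [ht.2])⟩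
  have h3 : ga t = expNegInvGlue ((1 + t) / (1 - θ)) * ga t ^ θ := by
    have h4 : ¬ (1 + t) / (1 - θ) ≤ 0 := not_le.2 (by positivity)
    simp only [ga, expNegInvGlue, if_neg h4, if_neg hx.not_ge]
    rw [← Real.exp_mul, ← Real.exp_add]
    congr 1
    field_simp
    ring
  have h4 : (1 - θ)⁻¹ * ((1 + t) / (1 - θ))⁻¹ = (1 + t)⁻¹ := by field_simp
  simp only [Polynomial.eval_comp, Polynomial.eval_mul, Polynomial.eval_C, Polynomial.eval_X, h4,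
    Real.norm_eq_abs] at h2
  have h5 : 0 ≤ ga t ^ θ := Real.rpow_nonneg (ga_nonneg t) _
  calc |p.eval (1 + t)⁻¹ * ga t|
      = |p.eval (1 + t)⁻¹ * expNegInvGlue ((1 + t) / (1 - θ))| * ga t ^ θ := by
        conv_lhs => rw [h3, ← mul_assoc, abs_mul, abs_of_nonneg h5]
    _ ≤ _ := mul_le_mul_of_nonneg_right (h2.trans (le_max_left _ _)) h5

theorem ga_der (t : ℝ) : HasDerivAt ga ((1 + t)⁻¹ ^ 2 * ga t) t := by
  have := (expNegInvGlue.hasDerivAt_polynomial_eval_inv_mul 1 (1 + t)).comp_const_add 1 t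
  have e : ga = fun x => Polynomial.eval (1 + x)⁻¹ 1 * expNegInvGlue (1 + x) := by
    ext x; simp [ga]
  exact (e ▸ this).congr_deriv (by simp [ga])

theorem den_pos (t : ℝ) : 0 < ga t + ga (-t) := by
  rcases lt_or_ge (-1) t with h | h
  · exact add_pos_of_pos_of_nonneg (ga_pos h) (ga_nonneg _)
  · exact add_pos_of_nonneg_of_pos (ga_nonneg _) (ga_pos (by linarith))

/-- A smooth step. -/
noncomputable def st (t : ℝ) : ℝ := ga t * (ga t + ga (-t))⁻¹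

theorem den_cd : ContDiff ℝ ∞ fun t => (ga t + ga (-t))⁻¹ :=
  (ga_cd.add (ga_cd.comp contDiff_neg)).inv fun t => (den_pos t).ne'

theorem st_cd : ContDiff ℝ ∞ st := ga_cd.mul den_cd

theorem st_add (t : ℝ) : st t + st (-t) = 1 := by
  have := (den_pos t).ne'
  simp only [st, neg_neg, add_comm (ga (-t))]
  field_simp

theorem st_zero {t : ℝ} (h : t ≤ -1) : st t = 0 := by rw [st, ga_zero h, zero_mul]

theorem st_le {t : ℝ} (h : t ≤ 0) : |st t| ≤ (ga 0)⁻¹ * ga t := by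
  have h1 : ga 0 ≤ ga t + ga (-t) := (ga_mono (by linarith)).trans (le_add_of_nonneg_left
    (ga_nonneg t))
  rw [st, abs_of_nonneg (mul_nonneg (ga_nonneg t) (inv_nonneg.2 (den_pos t).le)), mul_comm]
  exact mul_le_mul_of_nonneg_right (inv_anti₀ (ga_pos (by norm_num)) h1) (ga_nonneg t)

theorem st_der {t : ℝ} (h : -1 < t) (h' : t ≤ 0) : ga 0 / 4 * ga t ≤ deriv st t := by
  have d1 := ga_der t
  have d2 : HasDerivAt (fun t => ga (-t)) (-((1 + -t)⁻¹ ^ 2 * ga (-t))) t :=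
    ((ga_der (-t)).comp t (hasDerivAt_neg t)).congr_deriv (by ring)
  have hn := den_pos t
  have d3 := d1.mul ((d1.add d2).inv hn.ne')
  have e : deriv st t = ga t * ga (-t) * ((1 + t)⁻¹ ^ 2 + (1 + -t)⁻¹ ^ 2) /
      (ga t + ga (-t)) ^ 2 := by
    refine d3.deriv.trans ?_
    simp only [Pi.inv_apply, Pi.add_apply]
    field_simp
    ring
  rw [e, le_div_iff₀ (by positivity)]
  have a1 : 1 ≤ (1 + t)⁻¹ := (one_le_inv₀ (by linarith)).2 (by linarith)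
  have a2 : 1 ≤ (1 + t)⁻¹ ^ 2 + (1 + -t)⁻¹ ^ 2 := by nlinarith [sq_nonneg (1 + -t)⁻¹]
  have a3 : (ga t + ga (-t)) ^ 2 ≤ 4 := by nlinarith [ga_le t, ga_le (-t)]
  have a4 : ga 0 ≤ ga (-t) := ga_mono (by linarith)
  have a5 := ga_nonneg t
  have a6 := ga_nonneg 0
  calc ga 0 / 4 * ga t * (ga t + ga (-t)) ^ 2 ≤ ga 0 / 4 * ga t * 4 := by gcongr
    _ = ga t * ga 0 * 1 := by ring
    _ ≤ _ := by gcongr; exact mul_nonneg a5 (ga_nonneg _)

/-- The convex function with derivative `st`. -/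
noncomputable def ps (t : ℝ) : ℝ := ∫ x in (-1)..t, st x

theorem ps_der (t : ℝ) : HasDerivAt ps (st t) t :=
  (st_cd.continuous.integral_hasStrictDerivAt (-1) t).hasDerivAt

theorem deriv_ps : deriv ps = st := funext fun t => (ps_der t).deriv

theorem ps_cd : ContDiff ℝ ∞ ps :=
  contDiff_infty_iff_deriv.2 ⟨fun t => (ps_der t).differentiableAt, deriv_ps ▸ st_cd⟩

theorem ps_zero {t : ℝ} (h : t ≤ -1) : ps t = 0 := by
  rw [ps, intervalIntegral.integral_congr (g := fun _ => 0), intervalIntegral.integral_zero]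
  intro x hx
  rw [uIcc_of_ge h] at hx
  exact st_zero hx.2

theorem ps_sub (t : ℝ) : ps t = ps (-t) + t := by
  have d : ∀ t, HasDerivAt (fun t => ps t - ps (-t) - t) 0 t := fun t =>
    (((ps_der t).sub ((ps_der (-t)).comp t (hasDerivAt_neg t))).sub
      (hasDerivAt_id t)).congr_deriv (by linarith [st_add t])
  have := is_const_of_deriv_eq_zero (fun t => (d t).differentiableAt) (fun t => (d t).deriv) t 0
  simp only [neg_zero, sub_self] at this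
  linarith

theorem ps_le {t : ℝ} (h : t ∈ Icc (-1 : ℝ) 0) : |ps t| ≤ (ga 0)⁻¹ * ga t := by
  have h1 := intervalIntegral.norm_integral_le_of_norm_le_const (a := -1) (b := t) (f := st)
    (C := (ga 0)⁻¹ * ga t) fun x hx => by
      rw [uIoc_of_le h.1] at hx
      exact (st_le (hx.2.trans h.2)).trans (mul_le_mul_of_nonneg_left (ga_mono hx.2)
        (inv_nonneg.2 (ga_nonneg 0)))
  refine h1.trans (mul_le_of_le_one_right (mul_nonneg (inv_nonneg.2 (ga_nonneg 0)) (ga_nonneg t))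
    (abs_le.2 ⟨by linarith [h.1], by linarith [h.2]⟩))

theorem ps_flat {θ : ℝ} (h0 : 0 < θ) (h1 : θ < 1) (k : ℕ) :
    ∃ C, 0 ≤ C ∧ ∀ t ∈ Icc (-1 : ℝ) 0, |iteratedDeriv k ps t| ≤ C * ga t ^ θ := by
  cases k with
  | zero =>
    exact ⟨(ga 0)⁻¹, inv_nonneg.2 (ga_nonneg 0), fun t ht => (ps_le ht).trans
      (mul_le_mul_of_nonneg_left (ga_le_rpow h0 h1 t) (inv_nonneg.2 (ga_nonneg 0)))⟩
  | succ k =>
    rw [iteratedDeriv_succ', deriv_ps]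
    exact leib (fun _ _ => ga_cd.contDiffAt) (fun _ _ => den_cd.contDiffAt) (ga_flat h1)
      (fun k => bd_iter isOpen_univ isCompact_Icc (subset_univ _) k den_cd.contDiffOn) k

/-- A cutoff. -/
noncomputable def ch (t : ℝ) : ℝ := st (2 * t)

theorem ch_cd : ContDiff ℝ ∞ ch := st_cd.comp (contDiff_const.mul contDiff_id)

theorem ch_add (t : ℝ) : ch t + ch (-t) = 1 := by
  rw [ch, ch, mul_neg]; exact st_add _

theorem ch_zero {t : ℝ} (h : t ≤ -1 / 2) : ch t = 0 := st_zero (by linarith)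

theorem ch_flat {θ : ℝ} (h0 : 0 < θ) (k : ℕ) :
    ∃ C, 0 ≤ C ∧ ∀ t ∈ Icc (-1 : ℝ) 0, |iteratedDeriv k ch t| ≤ C * ga t ^ θ := by
  obtain ⟨C, hC, h⟩ := bd_iter isOpen_univ (isCompact_Icc (a := (-1 : ℝ)) (b := 0))
    (subset_univ _) k ch_cd.contDiffOn
  have hp : 0 < ga (-1 / 2) ^ θ := Real.rpow_pos_of_pos (ga_pos (by norm_num)) _
  refine ⟨C / ga (-1 / 2) ^ θ, by positivity, fun t ht => ?_⟩
  rcases lt_or_ge t (-1 / 2) with h1 | h1
  · have e : ch =ᶠ[𝓝 t] fun _ => 0 := by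
      filter_upwards [gt_mem_nhds h1] with y hy using ch_zero hy.le
    rw [e.iteratedDeriv_eq, iteratedDeriv_const]
    simp only [ite_self, abs_zero]
    exact mul_nonneg (by positivity) (Real.rpow_nonneg (ga_nonneg _) _)
  · refine (h t ht).trans ?_
    rw [div_mul_eq_mul_div, le_div_iff₀ hp]
    exact mul_le_mul_of_nonneg_left (Real.rpow_le_rpow (ga_nonneg _) (ga_mono h1) h0.le) hC

/-- The profile `pT` as a function of the first jet. -/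
noncomputable def Pf (b : Bool) (y p : ℝ) : ℝ := if b then 2 * y + y * p / (1 + y ^ 2) else p

/-- The coefficient of the second derivative. -/
noncomputable def Bf (b : Bool) (y : ℝ) : ℝ := if b then y / (1 + y ^ 2) else 1

/-- The lower order part of the derivative of `pT`. -/
noncomputable def Rf (b : Bool) (y p : ℝ) : ℝ :=
  if b then 2 * p + (1 - y ^ 2) / (1 + y ^ 2) ^ 2 * p ^ 2 else 0

/-- Minus `etY` as a function of the second jet. -/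
noncomputable def Hf (b : Fin 2 → Bool) (z : Fin 2 → ℝ × ℝ × ℝ) : ℝ :=
  Rf (b 0) (z 0).1 (z 0).2.1 + Bf (b 0) (z 0).1 * (z 0).2.2 +
    (Rf (b 1) (z 1).1 (z 1).2.1 + Bf (b 1) (z 1).1 * (z 1).2.2) +
    Pf (b 0) (z 0).1 (z 0).2.1 ^ 2 + Pf (b 1) (z 1).1 (z 1).2.1 ^ 2 +
    Pf (b 0) (z 0).1 (z 0).2.1 * Pf (b 1) (z 1).1 (z 1).2.1 + 3

theorem pT_der (b : Bool) {y : ℝ → ℝ} {x p q : ℝ} (h0 : HasDerivAt y p x)
    (h1 : HasDerivAt (deriv y) q x) :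
    pT b y x = Pf b (y x) p ∧ deriv (pT b y) x = Rf b (y x) p + Bf b (y x) * q := by
  have e := h0.deriv
  cases b
  · refine ⟨e, ?_⟩
    have : pT false y = deriv y := rfl
    rw [this, h1.deriv]; simp [Rf, Bf]
  · refine ⟨by simp [pT, Pf, e], ?_⟩
    have hn : 1 + y x ^ 2 ≠ 0 := by positivity
    have d := (h0.const_mul 2).add ((h0.mul h1).div ((h0.pow 2).const_add 1) hn)
    refine d.deriv.trans ?_
    simp only [Rf, Bf, if_true, Pi.mul_apply, Pi.pow_apply, e]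
    field_simp
    ring

theorem etY_eq (b : Fin 2 → Bool) {y : Fin 2 → ℝ → ℝ} {x : ℝ} {p q : Fin 2 → ℝ}
    (h0 : ∀ i, HasDerivAt (y i) (p i) x) (h1 : ∀ i, HasDerivAt (deriv (y i)) (q i) x) :
    etY b y x = -Hf b fun i => (y i x, p i, q i) := by
  have a0 := pT_der (b 0) (h0 0) (h1 0)
  have a1 := pT_der (b 1) (h0 1) (h1 1)
  simp only [etY, Hf, a0.1, a0.2, a1.1, a1.2]

theorem Hf_cd (b : Fin 2 → Bool) : ContDiff ℝ 1 (Hf b) := by
  unfold Hf Pf Bf Rf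
  cases b 0 <;> cases b 1 <;> simp only [if_true, Bool.false_eq_true, if_false] <;>
    fun_prop (disch := intro x; positivity)

theorem Bf_cont (b : Bool) : Continuous (Bf b) := by
  unfold Bf
  cases b <;> simp only [if_true, Bool.false_eq_true, if_false]
  · exact continuous_const
  · fun_prop (disch := intro x; positivity)

theorem der1 {U : Set ℝ} (hU : IsOpen U) {f : ℝ → ℝ} (h : ContDiffOn ℝ ∞ f U) {x : ℝ}
    (hx : x ∈ U) : HasDerivAt f (deriv f x) x :=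
  ((((contDiffOn_infty_iff_deriv_of_isOpen hU).1 h).1 x hx).differentiableAt
    (hU.mem_nhds hx)).hasDerivAt

theorem der2 {U : Set ℝ} (hU : IsOpen U) {f : ℝ → ℝ} (h : ContDiffOn ℝ ∞ f U) {x : ℝ}
    (hx : x ∈ U) : HasDerivAt (deriv f) (deriv (deriv f) x) x :=
  der1 hU ((contDiffOn_infty_iff_deriv_of_isOpen hU).1 h).2 hx

/-- The perturbation on one side of the corner. -/
noncomputable def wf (j x₀ ρ σ : ℝ) (e : ℝ → ℝ) (x : ℝ) : ℝ :=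
  j * ρ * ps (σ / ρ * (x - x₀)) + σ * (ch (σ / ρ * (x - x₀)) * e x)

theorem lin_der (c x₀ x : ℝ) : HasDerivAt (fun x => c * (x - x₀)) c x :=
  (((hasDerivAt_id x).sub_const x₀).const_mul c).congr_deriv (mul_one c)

theorem lin_cd {f : ℝ → ℝ} (h : ContDiff ℝ ∞ f) (c x₀ : ℝ) :
    ContDiff ℝ ∞ fun x => f (c * (x - x₀)) :=
  h.comp (contDiff_const.mul (contDiff_id.sub contDiff_const))

theorem wf_cd {U : Set ℝ} (j x₀ ρ σ : ℝ) {e : ℝ → ℝ} (h : ContDiffOn ℝ ∞ e U) :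
    ContDiffOn ℝ ∞ (wf j x₀ ρ σ e) U :=
  (contDiff_const.mul (lin_cd ps_cd _ _)).contDiffOn.add
    (contDiffOn_const.mul ((lin_cd ch_cd _ _).contDiffOn.mul h))

theorem wf_der {U : Set ℝ} (hU : IsOpen U) (j x₀ ρ σ : ℝ) {e : ℝ → ℝ} (h : ContDiffOn ℝ ∞ e U)
    {x : ℝ} (hx : x ∈ U) :
    HasDerivAt (wf j x₀ ρ σ e) (j * ρ * (st (σ / ρ * (x - x₀)) * (σ / ρ)) +
      σ * (deriv ch (σ / ρ * (x - x₀)) * (σ / ρ) * e x + ch (σ / ρ * (x - x₀)) * deriv e x)) x :=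
  (((ps_der _).comp x (lin_der _ x₀ x)).const_mul _).add
    ((((der1 isOpen_univ ch_cd.contDiffOn (mem_univ _)).comp x (lin_der _ x₀ x)).mul
      (der1 hU h hx)).const_mul σ)

theorem wf_der2 {U : Set ℝ} (hU : IsOpen U) (j x₀ ρ σ : ℝ) {e : ℝ → ℝ} (h : ContDiffOn ℝ ∞ e U)
    {x : ℝ} (hx : x ∈ U) :
    deriv (deriv (wf j x₀ ρ σ e)) x =
      j * ρ * (deriv st (σ / ρ * (x - x₀)) * (σ / ρ) * (σ / ρ)) +
      σ * (deriv (deriv ch) (σ / ρ * (x - x₀)) * (σ / ρ) * (σ / ρ) * e x +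
        2 * (deriv ch (σ / ρ * (x - x₀)) * (σ / ρ) * deriv e x) +
        ch (σ / ρ * (x - x₀)) * deriv (deriv e) x) := by
  have e1 : deriv (wf j x₀ ρ σ e) =ᶠ[𝓝 x] fun x => j * ρ * (st (σ / ρ * (x - x₀)) * (σ / ρ)) +
      σ * (deriv ch (σ / ρ * (x - x₀)) * (σ / ρ) * e x + ch (σ / ρ * (x - x₀)) * deriv e x) := by
    filter_upwards [hU.mem_nhds hx] with y hy using (wf_der hU j x₀ ρ σ h hy).deriv
  rw [e1.deriv_eq]
  have l := lin_der (σ / ρ) x₀ x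
  have d := ((((der1 isOpen_univ st_cd.contDiffOn (mem_univ _)).comp x l).mul_const
    (σ / ρ)).const_mul (j * ρ)).add
    ((((((der2 isOpen_univ ch_cd.contDiffOn (mem_univ _)).comp x l).mul_const (σ / ρ)).mul
      (der1 hU h hx)).add (((der1 isOpen_univ ch_cd.contDiffOn (mem_univ _)).comp x l).mul
        (der2 hU h hx))).const_mul σ)
  refine d.deriv.trans ?_
  simp only [Function.comp]
  ring

theorem lin_iter {f : ℝ → ℝ} (h : ContDiff ℝ ∞ f) (c x₀ : ℝ) (k : ℕ) (x : ℝ) :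
    iteratedDeriv k (fun x => f (c * (x - x₀))) x = c ^ k * iteratedDeriv k f (c * (x - x₀)) := by
  have h1 := congrFun (iteratedDeriv_comp_sub_const k (fun z => f (c * z)) x₀) x
  rw [iteratedDeriv_comp_const_mul (h.of_le (by exact_mod_cast le_top))] at h1
  exact h1

theorem lin_flat {f : ℝ → ℝ} (h : ContDiff ℝ ∞ f) (c x₀ θ : ℝ) (k : ℕ)
    (h1 : ∃ C, 0 ≤ C ∧ ∀ t ∈ Icc (-1 : ℝ) 0, |iteratedDeriv k f t| ≤ C * ga t ^ θ) :
    ∃ C, 0 ≤ C ∧ ∀ x ∈ {x | c * (x - x₀) ∈ Icc (-1 : ℝ) 0},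
      |iteratedDeriv k (fun x => f (c * (x - x₀))) x| ≤ C * ga (c * (x - x₀)) ^ θ := by
  obtain ⟨C, hC, h1⟩ := h1
  refine ⟨|c ^ k| * C, by positivity, fun x hx => ?_⟩
  rw [lin_iter h, abs_mul, mul_assoc]
  exact mul_le_mul_of_nonneg_left (h1 _ hx) (abs_nonneg _)

theorem wf_flat {U K : Set ℝ} (hU : IsOpen U) (hK : IsCompact K) (hKU : K ⊆ U) (j x₀ ρ σ : ℝ)
    {e : ℝ → ℝ} (h : ContDiffOn ℝ ∞ e U) (hS : {x | σ / ρ * (x - x₀) ∈ Icc (-1 : ℝ) 0} ⊆ K)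
    {θ : ℝ} (h0 : 0 < θ) (h1 : θ < 1) (k : ℕ) :
    ∃ C, 0 ≤ C ∧ ∀ x, σ / ρ * (x - x₀) ∈ Icc (-1 : ℝ) 0 →
      |iteratedDeriv k (wf j x₀ ρ σ e) x| ≤ C * ga (σ / ρ * (x - x₀)) ^ θ := by
  obtain ⟨C1, p1, q1⟩ := lin_flat ps_cd (σ / ρ) x₀ θ k (ps_flat h0 h1 k)
  have he : ∀ x ∈ {x | σ / ρ * (x - x₀) ∈ Icc (-1 : ℝ) 0}, ContDiffAt ℝ ∞ e x := fun x hx =>
    h.contDiffAt (hU.mem_nhds (hKU (hS hx)))
  obtain ⟨C2, p2, q2⟩ := leib (fun _ _ => (lin_cd ch_cd (σ / ρ) x₀).contDiffAt) he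
    (fun k => lin_flat ch_cd (σ / ρ) x₀ θ k (ch_flat h0 k)) (fun k => by
      obtain ⟨C, hC, h2⟩ := bd_iter hU hK hKU k h
      exact ⟨C, hC, fun x hx => h2 x (hS hx)⟩) k
  refine ⟨|j * ρ| * C1 + |σ| * C2, by positivity, fun x hx => ?_⟩
  have a1 := cd_at (lin_cd ps_cd (σ / ρ) x₀).contDiffAt k (x := x)
  have a2 := cd_at ((lin_cd ch_cd (σ / ρ) x₀).contDiffAt.mul (he x hx)) k
  have e1 : iteratedDeriv k (wf j x₀ ρ σ e) x =
      j * ρ * iteratedDeriv k (fun x => ps (σ / ρ * (x - x₀))) x +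
        σ * iteratedDeriv k ((fun x => ch (σ / ρ * (x - x₀))) * e) x := by
    rw [← iteratedDeriv_const_mul_field, ← iteratedDeriv_const_mul_field]
    exact iteratedDeriv_add (contDiffAt_const.mul a1) (contDiffAt_const.mul a2)
  rw [e1, add_mul, mul_assoc |j * ρ|, mul_assoc |σ|]
  refine (abs_add_le _ _).trans (add_le_add ?_ ?_) <;> rw [abs_mul]
  · exact mul_le_mul_of_nonneg_left (q1 x hx) (abs_nonneg _)
  · exact mul_le_mul_of_nonneg_left (q2 x hx) (abs_nonneg _)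

theorem prof_bd : ∃ C, 0 ≤ C ∧ ∀ t ∈ Icc (-1 : ℝ) 0, |ps t| ≤ C * ga t ∧ |st t| ≤ C * ga t ∧
    |ch t| ≤ C * ga t ∧ |deriv ch t| ≤ C * ga t ∧ |deriv (deriv ch) t| ≤ C * ga t := by
  obtain ⟨C0, p0, q0⟩ := ch_flat one_pos 0
  obtain ⟨C1, p1, q1⟩ := ch_flat one_pos 1
  obtain ⟨C2, p2, q2⟩ := ch_flat one_pos 2
  have p3 : 0 ≤ (ga 0)⁻¹ := inv_nonneg.2 (ga_nonneg 0)
  simp only [iteratedDeriv_succ, iteratedDeriv_zero, Real.rpow_one] at q0 q1 q2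
  refine ⟨C0 + C1 + C2 + (ga 0)⁻¹, by positivity, fun t ht => ?_⟩
  have a0 := mul_nonneg p0 (ga_nonneg t)
  have a1 := mul_nonneg p1 (ga_nonneg t)
  have a2 := mul_nonneg p2 (ga_nonneg t)
  have a3 := mul_nonneg p3 (ga_nonneg t)
  refine ⟨?_, ?_, ?_, ?_, ?_⟩ <;>
    linarith [q0 t ht, q1 t ht, q2 t ht, ps_le ht, st_le ht.2]

theorem mv {f : ℝ → ℝ} {x₀ ρ C x : ℝ}
    (h : ∀ x ∈ Icc (x₀ - ρ) (x₀ + ρ), DifferentiableAt ℝ f x ∧ |deriv f x| ≤ C)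
    (hx : x ∈ Icc (x₀ - ρ) (x₀ + ρ)) : |f x - f x₀| ≤ C * ρ := by
  have h0 : x₀ ∈ Icc (x₀ - ρ) (x₀ + ρ) := ⟨by linarith [hx.1, hx.2], by linarith [hx.1, hx.2]⟩
  have h1 := (convex_Icc _ _).norm_image_sub_le_of_norm_deriv_le (fun x hx => (h x hx).1)
    (fun x hx => (h x hx).2) h0 hx
  exact h1.trans (mul_le_mul_of_nonneg_left (abs_le.2 ⟨by linarith [hx.1], by linarith [hx.2]⟩)
    ((abs_nonneg _).trans (h x hx).2))

theorem alg {σ j J ρ M G a0 a1 c0 c1 c2 s1 e0 e1 e2 : ℝ} (hσ : σ = 1 ∨ σ = -1) (hρ : 0 < ρ)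
    (hρ1 : ρ ≤ 1) (hj : |j| ≤ J) (h0 : |a0| ≤ G) (h1 : |a1| ≤ G) (h2 : |c0| ≤ G) (h3 : |c1| ≤ G)
    (h4 : |c2| ≤ G) (h5 : |e0| ≤ M * ρ * ρ) (h6 : |e1| ≤ M * ρ) (h7 : |e2| ≤ M) :
    |j * ρ * a0 + σ * (c0 * e0)| ≤ (J + 4 * M) * G * ρ ∧
    |j * ρ * (a1 * (σ / ρ)) + σ * (c1 * (σ / ρ) * e0 + c0 * e1)| ≤ (J + 4 * M) * G ∧
    |j * ρ * (s1 * (σ / ρ) * (σ / ρ)) + σ * (c2 * (σ / ρ) * (σ / ρ) * e0 +
      2 * (c1 * (σ / ρ) * e1) + c0 * e2) - j * (s1 / ρ)| ≤ (J + 4 * M) * G := by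
  obtain ⟨E0, rfl⟩ : ∃ E, e0 = E * ρ * ρ := ⟨e0 / ρ / ρ, by field_simp⟩
  obtain ⟨E1, rfl⟩ : ∃ E, e1 = E * ρ := ⟨e1 / ρ, by field_simp⟩
  rw [abs_mul, abs_mul, abs_of_pos hρ, mul_le_mul_iff_left₀ hρ, mul_le_mul_iff_left₀ hρ] at h5
  rw [abs_mul, abs_of_pos hρ, mul_le_mul_iff_left₀ hρ] at h6
  have hG := (abs_nonneg _).trans h0
  have hM := (abs_nonneg _).trans h7
  have hJ := (abs_nonneg _).trans hj
  have m : ∀ {a b A B : ℝ}, |a| ≤ A → |b| ≤ B → |a * b| ≤ A * B := fun ha hb => by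
    rw [abs_mul]; exact mul_le_mul ha hb (abs_nonneg _) ((abs_nonneg _).trans ha)
  have hρ' : |ρ| ≤ 1 := by rwa [abs_of_pos hρ]
  have b1 := abs_le.1 (m hj h0)
  have b2 := abs_le.1 (m hj h1)
  have b3 := abs_le.1 (m (m h5 h2) hρ')
  have b4 := abs_le.1 (m (m h5 h3) hρ')
  have b5 := abs_le.1 (m (m h6 h2) hρ')
  have b6 := abs_le.1 (m h5 h4)
  have b7 := abs_le.1 (m h6 h3)
  have b8 := abs_le.1 (m h7 h2)
  have b9 := mul_nonneg hM hG
  have b10 := mul_nonneg hJ hG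
  have s2 : σ * σ = 1 := by rcases hσ with rfl | rfl <;> norm_num
  have f1 : j * ρ * a0 + σ * (c0 * (E0 * ρ * ρ)) = (j * a0 + σ * (E0 * c0 * ρ)) * ρ := by ring
  have f2 : j * ρ * (a1 * (σ / ρ)) + σ * (c1 * (σ / ρ) * (E0 * ρ * ρ) + c0 * (E1 * ρ)) =
      σ * (j * a1) + σ * σ * (E0 * c1 * ρ) + σ * (E1 * c0 * ρ) := by field_simp; ring
  have f3 : j * ρ * (s1 * (σ / ρ) * (σ / ρ)) + σ * (c2 * (σ / ρ) * (σ / ρ) * (E0 * ρ * ρ) +
      2 * (c1 * (σ / ρ) * (E1 * ρ)) + c0 * e2) - j * (s1 / ρ) = (σ * σ - 1) * (j * (s1 / ρ)) +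
        σ * σ * σ * (E0 * c2) + σ * σ * (2 * (E1 * c1)) + σ * (e2 * c0) := by field_simp; ring
  rw [f1, f2, f3, s2, abs_mul, abs_of_pos hρ, mul_le_mul_iff_left₀ hρ]
  rcases hσ with rfl | rfl <;> refine ⟨abs_le.2 ⟨?_, ?_⟩, abs_le.2 ⟨?_, ?_⟩, abs_le.2 ⟨?_, ?_⟩⟩ <;>
    linarith [b1.1, b1.2, b2.1, b2.2, b3.1, b3.2, b4.1, b4.2, b5.1, b5.2, b6.1, b6.2, b7.1, b7.2,
      b8.1, b8.2]

theorem mem_of_tau {σ ρ x₀ x : ℝ} (hσ : σ = 1 ∨ σ = -1) (hρ : 0 < ρ)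
    (h : σ / ρ * (x - x₀) ∈ Icc (-1 : ℝ) 0) : x ∈ Icc (x₀ - ρ) (x₀ + ρ) := by
  obtain ⟨h1, h2⟩ := h
  rw [div_mul_eq_mul_div, le_div_iff₀ hρ] at h1
  rw [div_mul_eq_mul_div, div_le_iff₀ hρ] at h2
  rcases hσ with rfl | rfl <;> constructor <;> linarith

/-- The estimates on one side of the corner. -/
theorem half (b : Fin 2 → Bool) (u e : Fin 2 → ℝ → ℝ) (j : Fin 2 → ℝ) {x₀ r σ ρ₀ : ℝ} (hr : 0 < r)
    (hσ : σ = 1 ∨ σ = -1) (hu : ∀ i, ContDiffOn ℝ ∞ (u i) (Ioo (x₀ - r) (x₀ + r)))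
    (he : ∀ i, ContDiffOn ℝ ∞ (e i) (Ioo (x₀ - r) (x₀ + r))) (he0 : ∀ i, e i x₀ = 0)
    (he1 : ∀ i, deriv (e i) x₀ = 0) (hj : Bf (b 0) (u 0 x₀) * j 0 + Bf (b 1) (u 1 x₀) * j 1 < 0)
    (h0 : 0 < ρ₀) : ∃ ρ₁, 0 < ρ₁ ∧ ∀ ρ, 0 < ρ → ρ ≤ ρ₁ → ∀ x,
      (σ / ρ * (x - x₀) ∈ Icc (-1 : ℝ) 0 → ∀ i, |wf (j i) x₀ ρ σ (e i) x| ≤ ρ₀) ∧
      (σ / ρ * (x - x₀) ∈ Ioc (-1 : ℝ) 0 → etY b u x + ga (σ / ρ * (x - x₀)) ≤
        etY b (fun i => u i + wf (j i) x₀ ρ σ (e i)) x) := by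
  have hU : IsOpen (Ioo (x₀ - r) (x₀ + r)) := isOpen_Ioo
  have hK : Icc (x₀ - r / 2) (x₀ + r / 2) ⊆ Ioo (x₀ - r) (x₀ + r) := fun x hx =>
    ⟨by linarith [hx.1], by linarith [hx.2]⟩
  have d1 : ∀ {f : ℝ → ℝ}, ContDiffOn ℝ ∞ f (Ioo (x₀ - r) (x₀ + r)) →
      ContDiffOn ℝ ∞ (deriv f) (Ioo (x₀ - r) (x₀ + r)) := fun h =>
    ((contDiffOn_infty_iff_deriv_of_isOpen hU).1 h).2
  obtain ⟨M1, hM1⟩ := isCompact_Icc.exists_bound_of_continuousOn
    (f := fun x i => (u i x, deriv (u i) x, deriv (deriv (u i)) x))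
    ((continuousOn_pi.2 fun i => (hu i).continuousOn.prodMk ((d1 (hu i)).continuousOn.prodMk
      (d1 (d1 (hu i))).continuousOn)).mono hK)
  obtain ⟨M, hM⟩ := isCompact_Icc.exists_bound_of_continuousOn
    (f := fun x i => deriv (deriv (e i)) x)
    ((continuousOn_pi.2 fun i => (d1 (d1 (he i))).continuousOn).mono hK)
  have hx0 : x₀ ∈ Icc (x₀ - r / 2) (x₀ + r / 2) := ⟨by linarith, by linarith⟩
  have pM1 : 0 ≤ M1 := (norm_nonneg _).trans (hM1 _ hx0)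
  have pM : 0 ≤ M := (norm_nonneg _).trans (hM _ hx0)
  obtain ⟨C0, pC0, hC0⟩ := prof_bd
  obtain ⟨C1, eC1⟩ : ∃ C1, C1 = (|j 0| + |j 1| + 4 * M) * C0 := ⟨_, rfl⟩
  have pC1 : 0 ≤ C1 := by rw [eC1]; positivity
  obtain ⟨L, hL⟩ := (Hf_cd b).contDiffOn.exists_lipschitzOnWith one_ne_zero
    (convex_closedBall 0 (M1 + C1)) (isCompact_closedBall _ _)
  obtain ⟨κ, pκ, δ, pδ, hδ⟩ : ∃ κ, 0 < κ ∧ ∃ δ, 0 < δ ∧ ∀ a0 a1, |a0 - u 0 x₀| < δ →
      |a1 - u 1 x₀| < δ → Bf (b 0) a0 * j 0 + Bf (b 1) a1 * j 1 ≤ -κ := by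
    have c : Continuous fun a : ℝ × ℝ => Bf (b 0) a.1 * j 0 + Bf (b 1) a.2 * j 1 :=
      (((Bf_cont _).comp continuous_fst).mul continuous_const).add
        (((Bf_cont _).comp continuous_snd).mul continuous_const)
    obtain ⟨δ, pδ, hδ⟩ := Metric.continuous_iff.1 c (u 0 x₀, u 1 x₀) _ (half_pos (neg_pos.2 hj))
    refine ⟨_, half_pos (neg_pos.2 hj), δ, pδ, fun a0 a1 h1 h2 => ?_⟩
    have := (abs_lt.1 (hδ (a0, a1) (max_lt h1 h2))).2
    simp only at this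
    linarith
  have pg : 0 < ga 0 := ga_pos (by norm_num)
  have pL : (0 : ℝ) ≤ L := L.coe_nonneg
  refine ⟨min (min (r / 2) 1) (min (δ / (M1 + C1 + 1)) (min (ρ₀ / (C1 + 1))
    (κ * (ga 0 / 4) / (L * C1 + 1)))), by positivity, fun ρ hρ hρ1 x => ?_⟩
  simp only [le_min_iff] at hρ1
  obtain ⟨⟨r1, r2⟩, r3, r4, r5⟩ := hρ1
  rw [le_div_iff₀ (by positivity)] at r3 r4 r5
  have hK' : Icc (x₀ - ρ) (x₀ + ρ) ⊆ Icc (x₀ - r / 2) (x₀ + r / 2) :=
    Icc_subset_Icc (by linarith) (by linarith)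
  have b2 : ∀ i, ∀ y ∈ Icc (x₀ - ρ) (x₀ + ρ), |deriv (deriv (e i)) y| ≤ M := fun i y hy =>
    (norm_le_pi_norm (fun i => deriv (deriv (e i)) y) i).trans (hM y (hK' hy))
  have b1 : ∀ i, ∀ y ∈ Icc (x₀ - ρ) (x₀ + ρ), |deriv (e i) y| ≤ M * ρ := fun i y hy => by
    have := mv (fun y hy => ⟨(der2 hU (he i) (hK (hK' hy))).differentiableAt, b2 i y hy⟩) hy
    rwa [he1, sub_zero] at this
  have b0 : ∀ i, ∀ y ∈ Icc (x₀ - ρ) (x₀ + ρ), |e i y| ≤ M * ρ * ρ := fun i y hy => by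
    have := mv (fun y hy => ⟨(der1 hU (he i) (hK (hK' hy))).differentiableAt, b1 i y hy⟩) hy
    rwa [he0, sub_zero] at this
  have key : σ / ρ * (x - x₀) ∈ Icc (-1 : ℝ) 0 → ∀ i,
      |wf (j i) x₀ ρ σ (e i) x| ≤ C1 * ga (σ / ρ * (x - x₀)) * ρ ∧
      |deriv (wf (j i) x₀ ρ σ (e i)) x| ≤ C1 * ga (σ / ρ * (x - x₀)) ∧
      |deriv (deriv (wf (j i) x₀ ρ σ (e i))) x - j i * (deriv st (σ / ρ * (x - x₀)) / ρ)| ≤
        C1 * ga (σ / ρ * (x - x₀)) := by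
    intro ht i
    have hx := mem_of_tau hσ hρ ht
    obtain ⟨c0, c1, c2, c3, c4⟩ := hC0 _ ht
    have hji : |j i| ≤ |j 0| + |j 1| := by
      fin_cases i
      · exact le_add_of_nonneg_right (abs_nonneg _)
      · exact le_add_of_nonneg_left (abs_nonneg _)
    rw [wf_der2 hU _ _ _ _ (he i) (hK (hK' hx)), (wf_der hU _ _ _ _ (he i) (hK (hK' hx))).deriv,
      eC1, mul_assoc _ C0]
    exact alg hσ hρ r2 hji c0 c1 c2 c3 c4 (b0 i x hx) (b1 i x hx) (b2 i x hx)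
  have g0 := ga_nonneg (σ / ρ * (x - x₀))
  have g1 := ga_le (σ / ρ * (x - x₀))
  have g2 : C1 * ga (σ / ρ * (x - x₀)) ≤ C1 := mul_le_of_le_one_right pC1 g1
  have g3 : C1 * ga (σ / ρ * (x - x₀)) * ρ ≤ C1 * ρ := mul_le_mul_of_nonneg_right g2 hρ.le
  have g4 : C1 * ga (σ / ρ * (x - x₀)) * ρ ≤ C1 * ga (σ / ρ * (x - x₀)) :=
    mul_le_of_le_one_right (mul_nonneg pC1 g0) r2
  refine ⟨fun ht i => ((key ht i).1.trans g3).trans (by nlinarith), fun ht => ?_⟩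
  have hx := mem_of_tau hσ hρ (Ioc_subset_Icc_self ht)
  have hxU := hK (hK' hx)
  have hk := key (Ioc_subset_Icc_self ht)
  have hs := st_der ht.1 ht.2
  have hw := fun i => wf_cd (j i) x₀ ρ σ (he i)
  have e1 := etY_eq b (fun i => der1 hU (hu i) hxU) fun i => der2 hU (hu i) hxU
  have e2 := etY_eq b (y := fun i => u i + wf (j i) x₀ ρ σ (e i))
    (fun i => (der1 hU (hu i) hxU).add (der1 hU (hw i) hxU)) fun i =>
      ((der2 hU (hu i) hxU).add (der2 hU (hw i) hxU)).congr_of_eventuallyEq (by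
        filter_upwards [hU.mem_nhds hxU] with y hy using
          ((der1 hU (hu i) hy).add (der1 hU (hw i) hy)).deriv)
  have hu0 : ∀ i, |u i x + wf (j i) x₀ ρ σ (e i) x - u i x₀| < δ := fun i => by
    have a1 := mv (f := u i) (C := M1) (fun y hy => ⟨(der1 hU (hu i) (hK (hK' hy))).differentiableAt,
      ((norm_fst_le _).trans ((norm_snd_le (u i y, deriv (u i) y, deriv (deriv (u i)) y)).trans
        (norm_le_pi_norm (fun i => (u i y, deriv (u i) y, deriv (deriv (u i)) y)) i))).trans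
          (hM1 y (hK' hy))⟩) hx
    have a2 := abs_le.1 ((hk i).1.trans g3)
    have a3 := abs_le.1 a1
    exact abs_lt.2 ⟨by linarith [a2.1, a3.1], by linarith [a2.2, a3.2]⟩
  have hB := hδ _ _ (hu0 0) (hu0 1)
  rw [e1, e2]
  simp only [Pi.add_apply]
  generalize ga (σ / ρ * (x - x₀)) = G at *
  generalize deriv st (σ / ρ * (x - x₀)) = s at *
  obtain ⟨z, hz⟩ : ∃ z : Fin 2 → ℝ × ℝ × ℝ,
    z = fun i => (u i x, deriv (u i) x, deriv (deriv (u i)) x) := ⟨_, rfl⟩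
  obtain ⟨v, hv⟩ : ∃ v : Fin 2 → ℝ × ℝ × ℝ, v = fun i => (wf (j i) x₀ ρ σ (e i) x,
    deriv (wf (j i) x₀ ρ σ (e i)) x, deriv (deriv (wf (j i) x₀ ρ σ (e i))) x - j i * (s / ρ)) :=
    ⟨_, rfl⟩
  have n1 : ‖z‖ ≤ M1 := hz ▸ hM1 x (hK' hx)
  have n2 : ‖v‖ ≤ C1 * G := by
    rw [hv]
    exact (pi_norm_le_iff_of_nonneg (mul_nonneg pC1 g0)).2 fun i =>
      max_le ((hk i).1.trans g4) (max_le (hk i).2.1 (hk i).2.2)
  have n3 := hL.dist_le_mul (z + v) (mem_closedBall_zero_iff.2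
    ((norm_add_le _ _).trans (by linarith))) z (mem_closedBall_zero_iff.2 (by linarith))
  rw [dist_self_add_left, Real.dist_eq] at n3
  have n4 := (abs_le.1 (n3.trans (mul_le_mul_of_nonneg_left n2 pL))).2
  have n5 : Hf b (fun i => (u i x + wf (j i) x₀ ρ σ (e i) x,
      deriv (u i) x + deriv (wf (j i) x₀ ρ σ (e i)) x,
      deriv (deriv (u i)) x + deriv (deriv (wf (j i) x₀ ρ σ (e i))) x)) = Hf b (z + v) +
        (Bf (b 0) (u 0 x + wf (j 0) x₀ ρ σ (e 0) x) * j 0 +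
          Bf (b 1) (u 1 x + wf (j 1) x₀ ρ σ (e 1) x) * j 1) * (s / ρ) := by
    simp only [Hf, hz, hv, Pi.add_apply, Prod.fst_add, Prod.snd_add]
    ring
  rw [n5, ← hz]
  have n6 : ga 0 / 4 * G / ρ ≤ s / ρ := div_le_div_of_nonneg_right hs hρ.le
  have n7 : 0 ≤ ga 0 / 4 * G / ρ := by positivity
  have n8 := mul_le_mul_of_nonneg_right hB (n7.trans n6)
  have n9 : (L * C1 + 1) * G ≤ κ * (ga 0 / 4 * G / ρ) := by
    rw [← mul_div_assoc, le_div_iff₀ hρ]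
    nlinarith [mul_le_mul_of_nonneg_right r5 g0]
  nlinarith [mul_le_mul_of_nonneg_left n6 pκ.le]

theorem Pf_sub (b : Bool) (y p p' : ℝ) : Pf b y p' - Pf b y p = Bf b y * (p' - p) := by
  cases b <;> simp only [Pf, Bf, if_true, Bool.false_eq_true, if_false] <;> ring

theorem wf_zero (j : ℝ) {x₀ ρ σ x : ℝ} (e : ℝ → ℝ) (h : σ / ρ * (x - x₀) ≤ -1) :
    wf j x₀ ρ σ e x = 0 := by
  rw [wf, ps_zero h, ch_zero (by linarith)]; ring

theorem tauL {ρ x₀ x c : ℝ} (hρ : 0 < ρ) : (c ≤ 1 / ρ * (x - x₀) ↔ x₀ + c * ρ ≤ x) ∧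
    (1 / ρ * (x - x₀) ≤ c ↔ x ≤ x₀ + c * ρ) := by
  rw [div_mul_eq_mul_div, le_div_iff₀ hρ, div_le_iff₀ hρ]
  constructor <;> constructor <;> intro h <;> linarith

theorem tauR {ρ x₀ x c : ℝ} (hρ : 0 < ρ) : (c ≤ -1 / ρ * (x - x₀) ↔ x ≤ x₀ - c * ρ) ∧
    (-1 / ρ * (x - x₀) ≤ c ↔ x₀ - c * ρ ≤ x) := by
  rw [div_mul_eq_mul_div, le_div_iff₀ hρ, div_le_iff₀ hρ]
  constructor <;> constructor <;> intro h <;> linarith

end Glue

open Glue

theorem glue : GlueStmt := by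
  intro b yL yR x₀ r hr hL hR h0 hj eL eR ρ₀ hρ₀
  have hU : IsOpen (Ioo (x₀ - r) (x₀ + r)) := isOpen_Ioo
  have hx0 : x₀ ∈ Ioo (x₀ - r) (x₀ + r) := ⟨by linarith, by linarith⟩
  obtain ⟨j, ej⟩ : ∃ j : Fin 2 → ℝ, j = fun i => deriv (yR i) x₀ - deriv (yL i) x₀ := ⟨_, rfl⟩
  obtain ⟨e, ee⟩ : ∃ e : Fin 2 → ℝ → ℝ, e = fun i x => yR i x - yL i x - j i * (x - x₀) :=
    ⟨_, rfl⟩
  have he : ∀ i, ContDiffOn ℝ ∞ (e i) (Ioo (x₀ - r) (x₀ + r)) := fun i => by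
    rw [ee]
    exact ((hR i).sub (hL i)).sub (lin_cd contDiff_id (j i) x₀).contDiffOn
  have he0 : ∀ i, e i x₀ = 0 := fun i => by simp [ee, h0 i]
  have he1 : ∀ i, deriv (e i) x₀ = 0 := fun i => by
    rw [ee]
    refine (((der1 hU (hR i) hx0).sub (der1 hU (hL i) hx0)).sub (lin_der (j i) x₀ x₀)).deriv.trans ?_
    simp [ej]
  have hj' : Bf (b 0) (yL 0 x₀) * j 0 + Bf (b 1) (yL 1 x₀) * j 1 < 0 := by
    have a := fun i => (pT_der (b i) (der1 hU (hL i) hx0) (der2 hU (hL i) hx0)).1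
    have a' := fun i => (pT_der (b i) (der1 hU (hR i) hx0) (der2 hU (hR i) hx0)).1
    simp only [psum, a, a', ← h0] at hj
    simp only [ej, ← Pf_sub]
    linarith
  obtain ⟨ρ₁, p1, q1⟩ := half b yL e j hr (Or.inl rfl) hL he he0 he1 hj' hρ₀
  obtain ⟨ρ₂, p2, q2⟩ := half b yR e j hr (Or.inr rfl) hR he he0 he1 (by
    rw [← h0, ← h0]; exact hj') hρ₀
  obtain ⟨ρ, hρ, r1, r2, r3, r4⟩ : ∃ ρ, 0 < ρ ∧ ρ ≤ ρ₁ ∧ ρ ≤ ρ₂ ∧ ρ < ρ₀ ∧ ρ < r :=
    ⟨min (min ρ₁ ρ₂) (min (ρ₀ / 2) (r / 2)), by positivity,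
      (min_le_left _ _).trans (min_le_left _ _), (min_le_left _ _).trans (min_le_right _ _),
      ((min_le_right _ _).trans (min_le_left _ _)).trans_lt (half_lt_self hρ₀),
      ((min_le_right _ _).trans (min_le_right _ _)).trans_lt (half_lt_self hr)⟩
  replace q1 := q1 ρ hρ r1
  replace q2 := q2 ρ hρ r2
  have ey : (fun i => yL i + wf (j i) x₀ ρ 1 (e i)) =
      fun i => yR i + wf (j i) x₀ ρ (-1) (e i) := by
    ext i x
    have a1 := ps_sub (1 / ρ * (x - x₀))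
    have a2 := ch_add (1 / ρ * (x - x₀))
    have a3 : e i x = yR i x - yL i x - j i * (x - x₀) := by rw [ee]
    have a4 : ρ * (1 / ρ * (x - x₀)) = x - x₀ := by field_simp
    simp only [Pi.add_apply, wf, neg_div, neg_mul]
    linear_combination j i * ρ * a1 + e i x * a2 + a3 + j i * a4
  obtain ⟨y, hy⟩ : ∃ y : Fin 2 → ℝ → ℝ, y = fun i => yL i + wf (j i) x₀ ρ 1 (e i) := ⟨_, rfl⟩
  have hy' := hy.trans ey
  have s1 : ∀ i, y i - yL i = wf (j i) x₀ ρ 1 (e i) := fun i => by rw [hy]; simp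
  have s2 : ∀ i, y i - yR i = wf (j i) x₀ ρ (-1) (e i) := fun i => by rw [hy']; simp
  rw [← hy] at q1
  rw [← hy'] at q2
  have tL : ∀ x ∈ Icc (x₀ - ρ) x₀, 1 / ρ * (x - x₀) ∈ Icc (-1 : ℝ) 0 := fun x hx =>
    ⟨(tauL hρ).1.2 (by linarith [hx.1]), (tauL hρ).2.2 (by linarith [hx.2])⟩
  have tR : ∀ x ∈ Icc x₀ (x₀ + ρ), -1 / ρ * (x - x₀) ∈ Icc (-1 : ℝ) 0 := fun x hx =>
    ⟨(tauR hρ).1.2 (by linarith [hx.2]), (tauR hρ).2.2 (by linarith [hx.1])⟩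
  have gL : ∀ x ∈ Ioc (x₀ - ρ) x₀, 0 < ga (1 / ρ * (x - x₀)) ∧
      ga (1 / ρ * (x - x₀)) ≤ etY b y x := fun x hx => by
    have a1 : -1 < 1 / ρ * (x - x₀) := not_le.1 fun h => by
      linarith [(tauL hρ).2.1 h, hx.1]
    have a2 := (q1 x).2 ⟨a1, (tL x (Ioc_subset_Icc_self hx)).2⟩
    exact ⟨ga_pos a1, by linarith [eL x ⟨by linarith [hx.1], hx.2⟩]⟩
  have gR : ∀ x ∈ Ico x₀ (x₀ + ρ), 0 < ga (-1 / ρ * (x - x₀)) ∧
      ga (-1 / ρ * (x - x₀)) ≤ etY b y x := fun x hx => by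
    have a1 : -1 < -1 / ρ * (x - x₀) := not_le.1 fun h => by
      linarith [(tauR hρ).2.1 h, hx.2]
    have a2 := (q2 x).2 ⟨a1, (tR x (Ico_subset_Icc_self hx)).2⟩
    exact ⟨ga_pos a1, by linarith [eR x ⟨hx.1, by linarith [hx.2]⟩]⟩
  have hK : Icc (x₀ - ρ) (x₀ + ρ) ⊆ Ioo (x₀ - r) (x₀ + r) := fun x hx =>
    ⟨by linarith [hx.1], by linarith [hx.2]⟩
  refine ⟨ρ, hρ, r3, r4, y, fun i x hx => ?_, fun i x hx => ?_, fun i => ?_, fun x hx => ?_,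
    fun i x hx => ?_, fun i x hx => ?_, fun θ t0 t1 k => ?_⟩
  · have := congrFun (s1 i) x
    rw [wf_zero _ _ ((tauL hρ).2.2 (by linarith)), Pi.sub_apply] at this
    linarith
  · have := congrFun (s2 i) x
    rw [wf_zero _ _ ((tauR hρ).2.2 (by linarith)), Pi.sub_apply] at this
    linarith
  · rw [hy]; exact (hL i).add (wf_cd _ _ _ _ (he i))
  · rcases le_total x x₀ with h | h
    · exact (gL x ⟨hx.1, h⟩).1.trans_le (gL x ⟨hx.1, h⟩).2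
    · exact (gR x ⟨h, hx.2⟩).1.trans_le (gR x ⟨h, hx.2⟩).2
  · exact (congrArg abs (congrFun (s1 i) x)).trans_le ((q1 x).1 (tL x hx) i)
  · exact (congrArg abs (congrFun (s2 i) x)).trans_le ((q2 x).1 (tR x hx) i)
  · choose C1 c1 d1 using fun i => wf_flat hU isCompact_Icc hK (j i) x₀ ρ 1 (he i)
      (fun x hx => mem_of_tau (Or.inl rfl) hρ hx) t0 t1 k
    choose C2 c2 d2 using fun i => wf_flat hU isCompact_Icc hK (j i) x₀ ρ (-1) (he i)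
      (fun x hx => mem_of_tau (Or.inr rfl) hρ hx) t0 t1 k
    have m : ∀ i, C1 i ≤ C1 0 + C1 1 + C2 0 + C2 1 ∧ C2 i ≤ C1 0 + C1 1 + C2 0 + C2 1 := fun i => by
      fin_cases i <;> constructor <;> simp only [Fin.zero_eta, Fin.mk_one] <;>
        linarith [c1 0, c1 1, c2 0, c2 1]
    refine ⟨C1 0 + C1 1 + C2 0 + C2 1, fun i => ⟨fun x hx x' hx' => ?_, fun x hx x' hx' => ?_⟩⟩
    · rw [s1]
      refine (d1 i x' (tL x' ⟨hx'.1, hx'.2.trans hx.2⟩)).trans (mul_le_mul (m i).1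
        (Real.rpow_le_rpow (ga_nonneg _) ((ga_mono ?_).trans (gL x hx).2) t0.le)
        (Real.rpow_nonneg (ga_nonneg _) _) ((c1 i).trans (m i).1))
      exact mul_le_mul_of_nonneg_left (by linarith [hx'.2]) (by positivity)
    · rw [s2]
      refine (d2 i x' (tR x' ⟨hx.1.trans hx'.1, hx'.2⟩)).trans (mul_le_mul (m i).2
        (Real.rpow_le_rpow (ga_nonneg _) ((ga_mono ?_).trans (gR x hx).2) t0.le)
        (Real.rpow_nonneg (ga_nonneg _) _) ((c2 i).trans (m i).2))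
      exact mul_le_mul_of_nonpos_left (by linarith [hx'.1])
        (div_nonpos_of_nonpos_of_nonneg (by norm_num) hρ.le)

end Pool.Agent.Lib.MP_df9110_gt
end
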