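import Pool.Agent.Lib.MP_df9110_gt.NIter

/-! The first approximation satisfies the invariant of the iteration. -/

set_option linter.unusedSectionVars false
set_option linter.unusedVariables false

namespace Pool.Agent.Lib.MP_df9110_gt

open Filter Topology Set
open scoped ContDiff

namespace Init

/-! ### Algebra -/

section Alg

variable {R W : Type} [CommRing R] [Algebra ℝ R] [CommMonoid W] {D : Fin 2 → R → R}
  {E Lg : R → R} {P : W → R → Prop} {Pos : R → Prop} {Sml : W → Prop}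

theorem pair_q (D : Fin 2 → R → R) (A B : Lay R) :
    (Gen.pairLay A B).q (pairE E) = (A.q E, B.q E) :=
  Prod.ext (Lay.map_q (AlgHom.fst ℝ R R) (Gen.fst_D D) (Gen.fst_E E) _).symm
    (Lay.map_q (AlgHom.snd ℝ R R) (Gen.snd_D D) (Gen.snd_E E) _).symm
theorem pair_eh (D : Fin 2 → R → R) (A B : Lay R) :
    (Gen.pairLay A B).eh (pairE E) = (A.eh E, B.eh E) :=
  Prod.ext (Lay.map_eh (AlgHom.fst ℝ R R) (Gen.fst_D D) (Gen.fst_E E) _).symm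
    (Lay.map_eh (AlgHom.snd ℝ R R) (Gen.snd_D D) (Gen.snd_E E) _).symm
theorem pair_Ao (A B : Lay R) :
    (Gen.pairLay A B).Ao (pairD D) (pairE E) = (A.Ao D E, B.Ao D E) :=
  Prod.ext (Lay.map_Ao (AlgHom.fst ℝ R R) (Gen.fst_D D) (Gen.fst_E E) _).symm
    (Lay.map_Ao (AlgHom.snd ℝ R R) (Gen.snd_D D) (Gen.snd_E E) _).symm
theorem pair_Xi (A B : Lay R) :
    (Gen.pairLay A B).Xi (pairD D) (pairE E) = (A.Xi D E, B.Xi D E) :=
  Prod.ext (Lay.map_Xi (AlgHom.fst ℝ R R) (Gen.fst_D D) (Gen.fst_E E) _).symm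
    (Lay.map_Xi (AlgHom.snd ℝ R R) (Gen.snd_D D) (Gen.snd_E E) _).symm
theorem pair_e (A B : Lay R) (k : Fin 5) :
    (Gen.pairLay A B).e (pairD D) (pairE E) k = (A.e D E k, B.e D E k) :=
  Prod.ext (Lay.map_e (AlgHom.fst ℝ R R) (Gen.fst_D D) (Gen.fst_E E) _ k).symm
    (Lay.map_e (AlgHom.snd ℝ R R) (Gen.snd_D D) (Gen.snd_E E) _ k).symm
theorem pair_elay (A B : Lay R) (k : Fin 5) :
    (Gen.pairLay A B).elay (pairD D) (pairE E) k = (A.elay D E k, B.elay D E k) :=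
  Prod.ext (Lay.map_elay (AlgHom.fst ℝ R R) (Gen.fst_D D) (Gen.fst_E E) _ k).symm
    (Lay.map_elay (AlgHom.snd ℝ R R) (Gen.snd_D D) (Gen.snd_E E) _ k).symm
theorem pair_err (A B : Out R) (k : Fin 5) :
    (Gen.pairOut A B).err (pairD D) (pairE E) k = (A.err D E k, B.err D E k) :=
  Prod.ext (Out.map_err (AlgHom.fst ℝ R R) (Gen.fst_D D) (Gen.fst_E E) _ k).symm
    (Out.map_err (AlgHom.snd ℝ R R) (Gen.snd_D D) (Gen.snd_E E) _ k).symm

/-- The three logarithms of a layer. -/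
structure Lg3 (D : Fin 2 → R → R) (E : R → R) (Pos : R → Prop) (G : Lay R) : Prop where
  lq : E G.lq = G.q E
  lAo : E G.lAo = G.Ao D E
  leh : E G.leh = G.eh E
  pq : Pos (G.q E)
  pA : Pos (G.Ao D E)
  pe : Pos (G.eh E)

theorem Lg3.pair {A B : Lay R} (a : Lg3 D E Pos A) (b : Lg3 D E Pos B) :
    Lg3 (pairD D) (pairE E) (pairPos Pos) (Gen.pairLay A B) where
  lq := by rw [pair_q D]; exact Prod.ext a.lq b.lq
  lAo := by rw [pair_Ao]; exact Prod.ext a.lAo b.lAo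
  leh := by rw [pair_eh D]; exact Prod.ext a.leh b.leh
  pq := by rw [pair_q D]; exact ⟨a.pq, b.pq⟩
  pA := by rw [pair_Ao]; exact ⟨a.pA, b.pA⟩
  pe := by rw [pair_eh D]; exact ⟨a.pe, b.pe⟩

/-- The first approximation of a layer. -/
def IL (ε s0 y yp et d chi L g L₂ g₂ rho xi1 lq lAo leh : R) : Lay R :=
  ⟨ε, s0, y, yp, et, d, chi, L, 0, 0, 0, L - g, L₂ - g₂, 0, 0, 0, 0, 0, rho, xi1, lq, lAo, leh⟩

variable (h : WR D E Lg P Pos Sml)
include h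

theorem lg3_of {G : Lay R} (ok : G.Ok D E) (hG : G.All (P 1)) : Lg3 D E Pos G :=
  ⟨ok.lq, ok.lAo, ok.leh, ok.lq ▸ (h.E_bd hG.lq).2, ok.lAo ▸ (h.E_bd hG.lAo).2,
    ok.leh ▸ (h.E_bd hG.leh).2⟩

theorem all_of {G : Lay R} (g : Lg3 D E Pos G)
    (h0 : ({ G with lq := 0, lAo := 0, leh := 0 } : Lay R).All (P 1)) : G.All (P 1) := by
  have hq : P 1 G.lq := by
    have := h.Lg_bd g.pq (Lay.P_q h h0 :)
    rwa [← g.lq, h.Lg_E] at this
  have h1 : ({ G with lAo := 0, leh := 0 } : Lay R).All (P 1) :=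
    ⟨h0.ε, h0.s0, h0.y, h0.yp, h0.et, h0.d, h0.chi, h0.L, h0.la, h0.bp, h0.lc, h0.uw, h0.uo, h0.lam,
      h0.gam, h0.nu, h0.w1, h0.w2, h0.rho, h0.xi1, hq, h.zero 1, h.zero 1⟩
  have hA : P 1 G.lAo := by
    have := h.Lg_bd g.pA (Lay.P_Ao h h1 :)
    rwa [← g.lAo, h.Lg_E] at this
  have he : P 1 G.leh := by
    have := h.Lg_bd g.pe (Lay.P_eh h h0 :)
    rwa [← g.leh, h.Lg_E] at this
  exact ⟨h0.ε, h0.s0, h0.y, h0.yp, h0.et, h0.d, h0.chi, h0.L, h0.la, h0.bp, h0.lc, h0.uw, h0.uo,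
    h0.lam, h0.gam, h0.nu, h0.w1, h0.w2, h0.rho, h0.xi1, hq, hA, he⟩

theorem pr2 {v w : W} {a b : R} (ha : P w a) (hb : P (w * v) (b - a)) : pairP P v w (a, b) :=
  ⟨ha, hb⟩

theorem pr1 {v : W} {a b : R} (ha : P 1 a) (hb : P v (b - a)) : pairP P v 1 (a, b) :=
  ⟨ha, h.congr hb (one_mul v).symm⟩

theorem pr0 {v : W} {b : R} (hb : P v b) : pairP P v 1 (0, b) :=
  pr1 h (h.zero 1) (by rwa [sub_zero])

theorem elay_bd {w : W} (hw : Sml w) {G : Lay R} (hG : G.All (P 1)) (hy : P w G.y)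
    (hyp : P w G.yp) (h1 : P w G.lam) (h2 : P w G.gam) (h3 : P w G.nu) (h4 : P w G.w1)
    (h5 : P w G.w2) (k : Fin 5) : P w (G.elay D E k) := by
  have hall : (Gen.pairLay G.out G).All (pairP P w 1) :=
    ⟨h.pair_diag hG.ε, h.pair_diag hG.s0, pr0 h hy, pr0 h hyp, h.pair_diag hG.et,
      h.pair_diag hG.d, h.pair_diag hG.chi, h.pair_diag hG.L, h.pair_diag hG.la,
      h.pair_diag hG.bp, h.pair_diag hG.lc, h.pair_diag hG.uw, h.pair_diag hG.uo, pr0 h h1,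
      pr0 h h2, pr0 h h3, pr0 h h4, pr0 h h5, h.pair_diag hG.rho, h.pair_diag hG.xi1,
      h.pair_diag hG.lq, h.pair_diag hG.lAo, h.pair_diag hG.leh⟩
  have := (Lay.P_e (h.pair hw) hall k).2
  rw [pair_e, one_mul] at this
  exact this

/-- Comparison with the leading order layer. -/
theorem two_cube [IsReduced R] (ld : LeadStmt) {v w : W} (hv : Sml v) (hw : Sml w)
    {ε s0 y yp et d chi L g L₂ g₂ rho xi1 lq lAo leh : R}
    (g3 : Lg3 D E Pos (IL ε s0 y yp et d chi L g L₂ g₂ rho xi1 lq lAo leh))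
    (lh : LeadHyp D E y d chi L L₂) (hε : P v ε) (hs : P v s0) (hy : P w y) (hyp : P w yp)
    (het : P 1 et) (pet : Pos et) (hd : P 1 d) (hc : P 1 chi) (hL : P 1 L) (hL₂ : P 1 L₂)
    (hg : P v g) (hg₂ : P v g₂) (hr : P v rho) (hx : P v xi1) (k : Fin 5) :
    P (w * v) ((IL ε s0 y yp et d chi L g L₂ g₂ rho xi1 lq lAo leh).elay D E k) := by
  obtain ⟨f1, f2, -⟩ := ld R D E y yp et d chi L L₂ (Lg et) h.der h.isExp lh
  have hL' : P 1 (-(2 * L)) := h.neg (h.mul11 (h.ofNat 2) hL)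
  have eq : (lead y yp et d chi L L₂ (Lg et) 0 0 0).q E = 1 := by simp [lead, Lay.q]
  have ee : (lead y yp et d chi L L₂ (Lg et) 0 0 0).eh E = et := by simp [lead, Lay.eh]
  have a3 : Lg3 D E Pos (lead y yp et d chi L L₂ (Lg et) 0 0 0) :=
    ⟨by rw [eq]; exact h.E_zero, f1.Ao, by rw [ee]; exact h.E_Lg pet,
      by rw [eq, ← h.E_zero]; exact (h.E_bd (h.zero 1)).2, f1.Ao ▸ (h.E_bd hL').2,
      by rw [ee]; exact pet⟩
  have h' := h.pair hv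
  have z0 : ∀ u, pairP P v u ((0, 0) : R × R) := fun u => h'.zero u
  have hall := all_of h' (a3.pair g3)
    ⟨pr0 h hε, pr0 h hs, h.pair_diag (h.to_one hw hy), h.pair_diag (h.to_one hw hyp),
      h.pair_diag het, h.pair_diag hd, h.pair_diag hc, h.pair_diag hL, z0 1, z0 1, z0 1,
      pr1 h (a := L + 0) (b := L - g) (by rwa [add_zero]) (by simpa using h.neg hg),
      pr1 h (a := L₂ + 0) (b := L₂ - g₂) (by rwa [add_zero]) (by simpa using h.neg hg₂),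
      z0 1, z0 1, z0 1, z0 1, z0 1, pr0 h hr, pr0 h hx, h'.zero 1, h'.zero 1, h'.zero 1⟩
  have := (elay_bd h' hw hall (h.pair_diag hy) (h.pair_diag hyp) (z0 w) (z0 w) (z0 w) (z0 w)
    (z0 w) k).2
  rw [pair_elay] at this
  have e0 : (lead y yp et d chi L L₂ (Lg et) 0 0 0).elay D E k = 0 := by
    rw [Lay.elay, f1.e, f2.e, sub_zero]
  simpa only [e0, sub_zero] using this

/-- The outer errors of the first approximation. -/
theorem err_bd {e : W} {ε μ u₁ u₂ : R} (hε : P e ε) (hε1 : P 1 ε) (hμ : P 1 μ) (h1 : P 1 u₁)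
    (h2 : P 1 u₂) (d1 : D 0 u₁ = 0) (d2 : D 0 u₂ = 0) (k : Fin 5) :
    P e (Out.err D E ⟨ε, μ, 0, 0, 0, u₁, u₂⟩ k) := by
  have hO : (⟨ε, μ, 0, 0, 0, u₁, u₂⟩ : Out R).All (P 1) :=
    ⟨hε1, hμ, h.zero 1, h.zero 1, h.zero 1, h1, h2⟩
  refine Gen.all5 (P e) ?_ ?_ ?_ ?_ ?_ k
  · simpa only [h.der.zero, smul_zero, sub_zero] using h.mul1' hε (Out.P_oa h hO)
  · simpa only [h.der.zero, mul_zero, neg_zero, zero_sub] using
      h.neg (h.mul1' hε (Out.P_ob h hO))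
  · simpa only [h.der.zero, smul_zero, sub_zero] using h.mul1' hε (Out.P_oc h hO)
  · simpa only [d1, zero_sub] using h.neg (h.mul1' hε (Out.P_o₁ h hO))
  · simpa only [d2, zero_sub] using h.neg (h.mul1' hε (Out.P_o₂ h hO))

theorem lg_bd {e : W} (he : Sml e) {ε chi L : R} (hε : P e ε) (hc : P 1 chi) (hL : P 1 L)
    (hp : Pos (1 + ε * chi * E (2 * L))) : P e (Lg (1 + ε * chi * E (2 * L))) :=
  h.Lg_sub he hp (by
    rw [add_sub_cancel_left]; exact h.mul1' (h.mul1' hε hc) (h.E1 (h.mul11 (h.ofNat 2) hL)))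

theorem lg_pr {e v : W} (he : Sml e) (hv : Sml v) {ε chi L L' : R} (hε : P e ε) (hc : P 1 chi)
    (hL : pairP P v 1 (L, L')) (hp : Pos (1 + ε * chi * E (2 * L)))
    (hp' : Pos (1 + ε * chi * E (2 * L'))) :
    pairP P v e (Lg (1 + ε * chi * E (2 * L)), Lg (1 + ε * chi * E (2 * L'))) :=
  lg_bd (h.pair hv) (ε := (ε, ε)) (chi := (chi, chi)) he (h.pair_diag hε) (h.pair_diag hc) hL
    ⟨hp, hp'⟩

theorem D_Lg {b : R} (hp : Pos b) (i : Fin 2) (hb : D i b = 0) : D i (Lg b) = 0 := by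
  have e1 := h.E_der (Lg b) i
  rw [h.E_Lg hp, hb] at e1
  have e2 := h.E_neg' (Lg b)
  rw [h.E_Lg hp] at e2
  linear_combination (-E (-Lg b)) * e1 - D i (Lg b) * e2

theorem cst {d chi L L₂ : R} (p : PrdHyp D E d chi L L₂) (i : Fin 2) :
    D i (chi * E (2 * L)) = 0 := by
  have hD := h.der
  have e : chi * E (2 * L) = d * (1 + D 1 L ^ 2) := by
    rw [p.eik]; linear_combination d * (1 + D 1 L ^ 2) * p.chi
  rw [e, hD.mul, hD.add, hD.one, hD.sq]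
  fin_cases i
  · simp only [Fin.zero_eta, Fin.isValue]
    rw [hD.comm 0 1, p.L₀, hD.zero, p.d₀]; ring
  · simp only [Fin.mk_one, Fin.isValue]
    rw [p.L₁, p.d₁]; ring

theorem chi_zero {d chi L L₂ : R} (p : PrdHyp D E d chi L L₂) : D 0 chi = 0 := by
  have e := congrArg (D 0) p.chi
  rw [h.der.mul, h.der.one, p.d₀] at e
  linear_combination chi * e - D 0 chi * p.chi

theorem lead_of {y d chi L L₂ : R} (p : PrdHyp D E d chi L L₂) (y₀ : D 0 y = -(2 * y))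
    (y₁ : D 1 y = 0) : LeadHyp D E y d chi L L₂ :=
  ⟨y₀, y₁, p.d₀, chi_zero h p, p.L₀, p.L₂₀, by rw [p.eik, p.d₁]; algebra⟩

theorem Ao_prd {ε s0 y yp et d chi L g L₂ g₂ rho xi1 lq lAo leh : R} (p : PrdHyp D E d chi L L₂)
    (s1 : D 1 s0 = 0) (hq : E lq = 1 + chi * (s0 * (2 * E (2 * L)))) :
    (IL ε s0 y yp et d chi L g L₂ g₂ rho xi1 lq lAo leh).Ao D E = E (2 * lq - 2 * L) := by
  have hD := h.der
  have c1 := cst h p 1
  have n1 := h.E_neg lq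
  have n2 := h.E_neg (2 * L)
  have dq : D 1 lq = 0 := by
    have e1 := h.E_der lq 1
    have e2 : 1 + chi * (s0 * (2 * E (2 * L))) = 1 + 2 * (s0 * (chi * E (2 * L))) := by ring
    conv_lhs at e1 => rw [hq, e2, hD.add, hD.one, hD.mul, hD.mul, hD.ofNat, c1, s1]
    linear_combination (-E (-lq)) * e1 - D 1 lq * n1
  have em : (IL ε s0 y yp et d chi L g L₂ g₂ rho xi1 lq lAo leh).μ E =
      (1 / 4 : ℝ) • (d * E (-lq)) := by
    simp only [Lay.μ, IL, Lay.psi]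
    congr 1
    linear_combination (-d) * n1 + d * E (-lq) * hq + s0 * (2 * E (2 * L)) * E (-lq) * p.chi
  have et2 : (IL ε s0 y yp et d chi L g L₂ g₂ rho xi1 lq lAo leh).τ₂ D E =
      (1 / 4 : ℝ) • (2 * D 1 L * d * E (-lq)) := by
    rw [Lay.τ₂, em, hD.smul, hD.mul, h.E_der, hD.neg, dq, p.d₁]
    congr 1; ring
  have e2 : E (2 * lq) = E lq * E lq := by rw [two_mul, h.E_add]
  rw [Lay.Ao, Lay.Pp, Lay.P1, em, et2, h.E_sub', e2]
  simp only [Lay.P0, IL, h.E_zero, e2]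
  have e3 := p.eik
  linear_combination (norm := algebra) (E (-(2 * L)) ^ 2 * E lq ^ 2 * (E lq * E (-lq) + 1) *
    (d ^ 2 * (1 + D 1 L ^ 2))) * n1 - E (-(2 * L)) ^ 2 * E lq ^ 2 * e3 +
    E (-(2 * L)) * E lq ^ 2 * n2

theorem err_pair [IsReduced R] (pr : PrdStmt) (e16 : E (Real.log 16 • 1) = 16) {e u : W}
    (he : Sml e) (hu : Sml u) {ε μ d chi L L₂ g g₂ L' L₂' g' g₂' : R} (p : PrdHyp D E d chi L L₂)
    (dg : ∀ i, D i g = 0) (dg₂ : ∀ i, D i g₂ = 0) (dε : ∀ i, D i ε = 0) (μ₀ : D 0 μ = 1)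
    (μ₁ : D 1 μ = 0) (hε : P e ε) (hμ : P 1 μ) (hL : pairP P u 1 (L, L'))
    (hL₂ : pairP P u 1 (L₂, L₂')) (hg : pairP P u e (g, g')) (hg₂ : pairP P u e (g₂, g₂'))
    (d1 : D 0 (L' - g') = 0) (d2 : D 0 (L₂' - g₂') = 0) (k : Fin 5) :
    P (e * u) (Out.err D E ⟨ε, μ, 0, 0, 0, L' - g', L₂' - g₂'⟩ k) := by
  have h' := h.pair hu
  have e0 := (pr R D E d chi L L₂ g g₂ h.der h.isExp e16 p dg dg₂).1 ε μ ⟨dε, μ₀, μ₁⟩ k
  have := (err_bd h' (ε := (ε, ε)) (μ := (μ, μ)) (u₁ := (L - g, L' - g'))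
    (u₂ := (L₂ - g₂, L₂' - g₂')) (h.pair_diag hε) (h.pair_diag (h.to_one he hε)) (h.pair_diag hμ)
    (h'.sub hL (h'.to_one he hg)) (h'.sub hL₂ (h'.to_one he hg₂))
    (Prod.ext (by simp only [pairD, h.der.sub, p.L₀, dg, sub_zero, Prod.fst_zero]) d1)
    (Prod.ext (by simp only [pairD, h.der.sub, p.L₂₀, dg₂, sub_zero, Prod.fst_zero]) d2) k).2
  have e1 := pair_err (D := D) (E := E) ⟨ε, μ, 0, 0, 0, L - g, L₂ - g₂⟩
    ⟨ε, μ, 0, 0, 0, L' - g', L₂' - g₂'⟩ k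
  rw [e0] at e1
  erw [e1] at this
  simpa only [sub_zero] using this

theorem prd_vertex [IsReduced R] (pr : PrdStmt) (e16 : E (Real.log 16 • 1) = 16)
    {ε s0 y yp et d chi L g L₂ g₂ : R} (p : PrdHyp D E d chi L L₂) (dg : ∀ i, D i g = 0)
    (dg₂ : ∀ i, D i g₂ = 0) (dε : ∀ i, D i ε = 0) (s₀ : D 0 s0 = ε) (s₁ : D 1 s0 = 0)
    (y₀ : D 0 y = -(2 * y)) (y₁ : D 1 y = 0) (pq : Pos (1 + chi * (s0 * (2 * E (2 * L)))))
    (pe : Pos (et + (s0 + 2 * ε) * chi * (2 * E (2 * L)))) (hc : P 1 chi) (hL : P 1 L)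
    (hs : P 1 s0) : ∃ lq lAo leh,
      PrdFacts D E (IL ε s0 y yp et d chi L g L₂ g₂ 0 0 lq lAo leh) ∧
      Lg3 D E Pos (IL ε s0 y yp et d chi L g L₂ g₂ 0 0 lq lAo leh) := by
  have h2 := h.ofNat 2
  have hq := h.Lg_bd pq (h.add h.one (h.mul11 hc (h.mul11 hs (h.mul11 h2 (h.E1 (h.mul11 h2 hL))))))
  have eA := Ao_prd h (ε := ε) (y := y) (yp := yp) (et := et) (g := g) (g₂ := g₂) (rho := 0)
    (xi1 := 0) (lAo := 2 * Lg (1 + chi * (s0 * (2 * E (2 * L)))) - 2 * L)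
    (leh := Lg (et + (s0 + 2 * ε) * chi * (2 * E (2 * L)))) p s₁ (h.E_Lg pq)
  refine ⟨_, _, _, (pr R D E d chi L L₂ g g₂ h.der h.isExp e16 p dg dg₂).2 _ _ _ _ _ _ _ _
    ⟨dε, s₀, s₁, y₁, p.d₀, chi_zero h p, p.L₀, h.E_Lg pq, eA.symm, h.E_Lg pe⟩ y₀,
    h.E_Lg pq, eA.symm, h.E_Lg pe, pq, ?_, pe⟩
  rw [eA]
  exact (h.E_bd (h.sub (h.mul11 h2 hq) (h.mul11 h2 hL))).2

section Cube

variable [IsReduced R] {u v w : W} (hu : Sml u) (hv : Sml v) (hw : Sml w)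
  {ε s0 y yp et d chi L g L₂ g₂ lq lAo leh d' L' g' L₂' g₂' rho xi1 lq' lAo' leh' : R}
  (fa : PrdFacts D E (IL ε s0 y yp et d chi L g L₂ g₂ 0 0 lq lAo leh))
  (a3 : Lg3 D E Pos (IL ε s0 y yp et d chi L g L₂ g₂ 0 0 lq lAo leh))
  (b3 : Lg3 D E Pos (IL ε s0 y yp et d' chi L' g' L₂' g₂' rho xi1 lq' lAo' leh'))
  (hε : P v ε) (hs : P v s0) (hy : P w y) (hyp : P w yp) (het : P 1 et) (hc : P 1 chi)
  (hd : pairP P u 1 (d, d')) (hL : pairP P u 1 (L, L')) (hL₂ : pairP P u 1 (L₂, L₂'))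
  (hg : pairP P u v (g, g')) (hg₂ : pairP P u v (g₂, g₂')) (hr : P (v * u) rho)
include hu hv hw fa a3 b3 hε hs hy hyp het hc hd hL hL₂ hg hg₂ hr

theorem Xi_bd : P u ((IL ε s0 y yp et d' chi L' g' L₂' g₂' rho xi1 lq' lAo' leh').Xi D E) := by
  have h' := h.pair hu
  have z0 : pairP P u 1 ((0, 0) : R × R) := h'.zero 1
  have c3 : Lg3 D E Pos (IL ε s0 y yp et d' chi L' g' L₂' g₂' rho 0 lq' lAo' leh') :=
    ⟨b3.lq, b3.lAo, b3.leh, b3.pq, b3.pA, b3.pe⟩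
  have hall := all_of h' (a3.pair c3)
    ⟨h.pair_diag (h.to_one hv hε), h.pair_diag (h.to_one hv hs), h.pair_diag (h.to_one hw hy),
      h.pair_diag (h.to_one hw hyp), h.pair_diag het, hd, h.pair_diag hc, hL, z0, z0, z0,
      h'.sub hL (h'.to_one hv hg), h'.sub hL₂ (h'.to_one hv hg₂), z0, z0, z0, z0, z0,
      pr0 h (h.sml' hv hr), z0, z0, z0, z0⟩
  have := (Lay.P_Xi h' hall).2
  rw [pair_Xi, fa.Xi, one_mul] at this
  simp only [sub_zero] at this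
  exact this

theorem three_cube (ld : LeadStmt) (la : LeadHyp D E y d chi L L₂)
    (lb : LeadHyp D E y d' chi L' L₂') (pet : Pos et) (hx : P (v * u) xi1) (k : Fin 5) :
    P (w * v * u) ((IL ε s0 y yp et d' chi L' g' L₂' g₂' rho xi1 lq' lAo' leh').elay D E k) := by
  have h' := h.pair hu
  have lh : LeadHyp (pairD D) (pairE E) (y, y) (d, d') (chi, chi) (L, L') (L₂, L₂') :=
    ⟨Prod.ext la.y₀ lb.y₀, Prod.ext la.y₁ lb.y₁, Prod.ext la.d₀ lb.d₀, Prod.ext la.chi₀ lb.chi₀,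
      Prod.ext la.L₀ lb.L₀, Prod.ext la.L₂₀ lb.L₂₀, Prod.ext la.eik lb.eik⟩
  have := (two_cube h' ld hv hw (ε := (ε, ε)) (s0 := (s0, s0)) (yp := (yp, yp)) (et := (et, et))
    (y := (y, y)) (d := (d, d')) (chi := (chi, chi)) (L := (L, L')) (L₂ := (L₂, L₂'))
    (g := (g, g')) (g₂ := (g₂, g₂')) (rho := (0, rho)) (xi1 := (0, xi1)) (lq := (lq, lq'))
    (lAo := (lAo, lAo')) (leh := (leh, leh')) (a3.pair b3) lh (h.pair_diag hε) (h.pair_diag hs)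
    (h.pair_diag hy) (h.pair_diag hyp) (h.pair_diag het) ⟨pet, pet⟩ hd (h.pair_diag hc) hL hL₂ hg
    hg₂ (pr2 h (h.zero v) (by rwa [sub_zero])) (pr2 h (h.zero v) (by rwa [sub_zero])) k).2
  have e1 := pair_elay (D := D) (E := E) (IL ε s0 y yp et d chi L g L₂ g₂ 0 0 lq lAo leh)
    (IL ε s0 y yp et d' chi L' g' L₂' g₂' rho xi1 lq' lAo' leh') k
  have e0 : (IL ε s0 y yp et d chi L g L₂ g₂ 0 0 lq lAo leh).elay D E k = 0 := by
    rw [Lay.elay, fa.e, fa.oe, sub_zero]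
  rw [e0] at e1
  erw [e1] at this
  simpa only [sub_zero] using this

end Cube

end Alg

/-! ### Germs -/

section Germ

variable {l l' : Filter Z2}

theorem hom_gm {Φ : ℝ → En 2 → En 2} (h : IsPull l l' Φ) {F : ℝ → En 2 → ℝ} (hF : F ∈ SmF l) :
    h.hom (gm l F) = gm l' fun i p => F i (Φ i p) := by
  rw [gm_eq hF, h.hom_mk, gm_eq (h.mem ⟨F, hF⟩)]; rfl

theorem resP (hle : l' ≤ l) : IsPull l l' fun _ p => p :=
  ⟨fun a => Eventually.of_forall fun _ => contDiffAt_apply ℝ ℝ a _, tendsto_id'.2 hle⟩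

theorem res_D [OpF l] [OpF l'] (hle : l' ≤ l) (i : Fin 2) (φ : SG l) :
    (resP hle).hom (gD i φ) = gD i ((resP hle).hom φ) := by
  obtain ⟨F, rfl⟩ := mkG_surj φ
  rw [← mkG_sfD, IsPull.hom_mk, IsPull.hom_mk, ← mkG_sfD]; rfl

theorem res_PG (b2 : B2Stmt) [OpF l'] (hle : l' ≤ l) {w : Z2 → ℝ} (φ : SG l) :
    PG 1 w ((resP hle).hom φ) ↔ PB l' 1 w (rep φ).1 := by
  conv_lhs => rw [← mkG_rep φ, IsPull.hom_mk]
  exact (b2 ℝ 2 l' 1 fun _ => zero_le_one).mk_iff _ _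

theorem res_bd (b2 : B2Stmt) [OpF l'] (hle : l' ≤ l) {w : Z2 → ℝ} {φ : SG l} (h : PG 1 w φ) :
    PG 1 w ((resP hle).hom φ) :=
  (res_PG b2 hle φ).2 ⟨hle h.1, fun k => (h.2 k).imp fun _ hC => hle hC⟩

def Rp (φ : SG l) (F : Z2 → ℝ) : Prop := ∀ᶠ z in l, val φ z = F z

theorem Rp.mk' (F : SmF l) : Rp (mkG l F) fun z => F.1 z.1 z.2 := mkG_eq.1 (mkG_rep _)

theorem Rp.gm {F : ℝ → En 2 → ℝ} (hF : F ∈ SmF l) : Rp (gm l F) fun z => F z.1 z.2 := by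
  rw [gm_eq hF]; exact Rp.mk' _

theorem Rp.ext {φ ψ : SG l} {F G : Z2 → ℝ} (h1 : Rp φ F) (h2 : Rp ψ G)
    (h : ∀ᶠ z in l, F z = G z) : φ = ψ := by
  rw [← mkG_rep φ, ← mkG_rep ψ, mkG_eq]
  filter_upwards [h1, h2, h] with z a b c using a.trans (c.trans b.symm)

theorem Rp.mul {φ ψ : SG l} {F G : Z2 → ℝ} (h1 : Rp φ F) (h2 : Rp ψ G) :
    Rp (φ * ψ) fun z => F z * G z := by
  have := Rp.mk' (rep φ * rep ψ)
  rw [map_mul, mkG_rep, mkG_rep] at this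
  filter_upwards [h1, h2, this] with z a b c using by rw [c, ← a, ← b]; rfl

theorem Rp.add {φ ψ : SG l} {F G : Z2 → ℝ} (h1 : Rp φ F) (h2 : Rp ψ G) :
    Rp (φ + ψ) fun z => F z + G z := by
  have := Rp.mk' (rep φ + rep ψ)
  rw [map_add, mkG_rep, mkG_rep] at this
  filter_upwards [h1, h2, this] with z a b c using by rw [c, ← a, ← b]; rfl

theorem Rp.smul {φ : SG l} {F : Z2 → ℝ} (c : ℝ) (h1 : Rp φ F) : Rp (c • φ) fun z => c * F z := by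
  have := Rp.mk' (c • rep φ)
  rw [map_smul, mkG_rep] at this
  filter_upwards [h1, this] with z a b using by rw [b, ← a]; rfl

theorem Rp.neg {φ : SG l} {F : Z2 → ℝ} (h1 : Rp φ F) : Rp (-φ) fun z => -F z := by
  simpa using h1.smul (-1)

theorem Rp.sq {φ : SG l} {F : Z2 → ℝ} (h1 : Rp φ F) : Rp (φ ^ 2) fun z => F z ^ 2 := by
  simpa only [pow_two] using h1.mul h1

theorem Rp.one : Rp (1 : SG l) fun _ => 1 := by
  have := Rp.mk' (1 : SmF l)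
  rwa [map_one] at this

theorem Rp.two : Rp (2 : SG l) fun _ => 2 := by
  simpa only [one_add_one_eq_two] using (Rp.one (l := l)).add Rp.one

theorem Rp.exp {φ : SG l} {F : Z2 → ℝ} (h1 : Rp φ F) : Rp (expG φ) fun z => Real.exp (F z) := by
  have h2 : (fun i p => Real.exp ((rep φ).1 i p)) ∈ SmF l := by
    filter_upwards [(rep φ).2] with z hz using hz.exp
  filter_upwards [h1, Rp.gm h2] with z a b using by rw [← a]; exact b

theorem pos_add_nn {φ ψ : SG l} {F : Z2 → ℝ} (h1 : PosG φ) (h2 : Rp ψ F)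
    (h3 : ∀ᶠ z in l, 0 ≤ F z) : PosG (φ + ψ) := by
  obtain ⟨c, hc, h1⟩ := h1
  have h0 : Rp φ (val φ) := Eventually.of_forall fun _ => rfl
  refine ⟨c, hc, ?_⟩
  filter_upwards [h1, h0.add h2, h3] with z a b d
  exact (le_add_of_le_of_nonneg a d).trans_eq b.symm

variable {a b a' b' : ℝ}

/-- smoothness on an interval -/
def Sx (a b : ℝ) (f : ℝ → ℝ) : Prop := ∀ x ∈ Icc a b, ContDiffAt ℝ ∞ f x

theorem Sx.o {f : ℝ → ℝ} (h : Sx a b f) : ∀ x ∈ Ioo a b, ContDiffAt ℝ ∞ f x :=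
  fun x hx => h x (Ioo_subset_Icc_self hx)

theorem Sx.der {f : ℝ → ℝ} (h : Sx a b f) : Sx a b (deriv f) :=
  fun x hx => (h x hx).derivWithin (by simp)

theorem Sx.mono {f : ℝ → ℝ} (h : Sx a b f) (hs : Icc a' b' ⊆ Icc a b) : Sx a' b' f :=
  fun x hx => h x (hs hx)

theorem Rp.xG (av : AvgFacts l a b) {f : ℝ → ℝ} (h : Sx a b f) :
    Rp (xG l f) fun z => f (z.2 1) := Rp.gm (av.xfun f h.o).1

theorem xG_D0 (av : AvgFacts l a b) {f : ℝ → ℝ} (h : Sx a b f) : gD 0 (xG l f) = 0 :=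
  (av.xfun f h.o).2.1

theorem xG_D1 (av : AvgFacts l a b) {f : ℝ → ℝ} (h : Sx a b f) :
    gD 1 (xG l f) = xG l (deriv f) := (av.xfun f h.o).2.2.1

theorem xG_dev (av : AvgFacts l a b) {f g w : ℝ → ℝ} (hf : Sx a b f) (hg : Sx a b g)
    (h : ∀ k, ∃ C : ℝ, ∀ x ∈ Ioo a b, |iteratedDeriv k (f - g) x| ≤ C * w x) :
    PG 1 (xW fun _ => w) (xG l f - xG l g) := by
  have hs : Sx a b (f - g) := fun x hx => (hf x hx).sub (hg x hx)
  have e : xG l f - xG l g = xG l (f - g) := by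
    rw [sub_eq_add_neg]
    exact ((Rp.xG av hf).add (Rp.xG av hg).neg).ext (Rp.xG av hs)
      (Eventually.of_forall fun z => (sub_eq_add_neg _ _).symm)
  rw [e]
  refine (av.xfun _ hs.o).2.2.2 w fun k => ?_
  obtain ⟨C, hC⟩ := h k
  exact ⟨|C|, fun x hx => (hC x hx).trans ((le_abs_self _).trans_eq (abs_mul _ _))⟩

theorem hom_xG (av : AvgFacts l a b) {Φ : ℝ → En 2 → En 2} (h : IsPull l l' Φ)
    (h1 : ∀ ε p, Φ ε p 1 = p 1) {f : ℝ → ℝ} (hf : Sx a b f) : h.hom (xG l f) = xG l' f := by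
  rw [xG, hom_gm h (av.xfun f hf.o).1, xG]
  simp only [h1]

theorem hom_ε (av : AvgFacts l a b) {Φ : ℝ → En 2 → En 2} (h : IsPull l l' Φ) :
    h.hom (εG l) = εG l' := hom_gm h av.eps.1

theorem res_c (av : AvgFacts l a b) (hle : l' ≤ l) : (resP hle).hom (cG l) = cG l' :=
  hom_gm _ av.crd.1

variable (b2 : B2Stmt) [OpF l] [OpF l']
include b2

theorem pos_one : PosG (1 : SG l) := by
  have h := wr_SG b2 l
  rw [← h.E_zero]; exact (h.E_bd (h.zero 1)).2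

theorem pos_lg (av : AvgFacts l a b) {chi L : SG l} (hc : PG 1 1 chi) (hL : PG 1 1 L) :
    PosG (1 + εG l * chi * expG (2 * L)) := by
  have h := wr_SG b2 l
  exact (b2 ℝ 2 l 1 fun _ => zero_le_one).pos_add (pos_one b2)
    (h.mul1' (h.mul1' av.eps.2.1 hc) (h.E1 (h.mul11 (h.ofNat 2) hL))) av.eps.2.2.2.2.1

theorem lg_e (av : AvgFacts l a b) {chi L : SG l} (hc : PG 1 1 chi) (hL : PG 1 1 L) :
    PG 1 eW (lgG chi L) :=
  lg_bd (wr_SG b2 l) av.eps.2.2.2.1 av.eps.2.1 hc hL (pos_lg b2 av hc hL)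

theorem lg_D (av : AvgFacts l a b) {chi L : SG l} (hc : PG 1 1 chi) (hL : PG 1 1 L) (i : Fin 2)
    (h0 : gD i (chi * expG (2 * L)) = 0) : gD i (lgG chi L) = 0 := by
  have h := wr_SG b2 l
  refine D_Lg h (pos_lg b2 av hc hL) i ?_
  rw [mul_assoc, h.der.add, h.der.one, h.der.mul, h0, av.eps.2.2.1]; ring

theorem lg_D0 (av : AvgFacts l a b) {f g : ℝ → ℝ} (hf : Sx a b f) (hg : Sx a b g) :
    gD 0 (xG l g - lgG (xG l f) (xG l g)) = 0 := by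
  have h := wr_SG b2 l
  rw [h.der.sub, xG_D0 av hg, lg_D b2 av (av.xbd f hf) (av.xbd g hg), sub_zero]
  rw [h.der.mul, h.E_der, h.der.mul, h.der.ofNat, xG_D0 av hf, xG_D0 av hg]; ring

theorem lg_pair (av : AvgFacts l a b) {w : Z2 → ℝ} (hw : WLe l w 1) {chi L L' : SG l}
    (hc : PG 1 1 chi) (hL : pairP (PG 1) w 1 (L, L')) :
    pairP (PG 1) w eW (lgG chi L, lgG chi L') := by
  have h := wr_SG b2 l
  exact lg_pr h av.eps.2.2.2.1 hw av.eps.2.1 hc hL (pos_lg b2 av hc hL.1)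
    (pos_lg b2 av hc (h.pair_snd hw hL))

theorem hom_lg (av : AvgFacts l a b) {Φ : ℝ → En 2 → En 2} (h : IsPull l l' Φ)
    (h1 : ∀ ε p, Φ ε p 1 = p 1) {f g : ℝ → ℝ} (hf : Sx a b f) (hg : Sx a b g) :
    h.hom (lgG (xG l f) (xG l g)) = lgG (xG l' f) (xG l' g) := by
  have hp := (b2 ℝ 2 l 1 fun _ => zero_le_one).pull h
  rw [lgG, lgG, (hp.2.2.1 _ (pos_lg b2 av (av.xbd f hf) (av.xbd g hg))).2, map_add, map_one,
    map_mul, map_mul, hp.2.1, map_mul, map_ofNat, hom_ε av, hom_xG av h h1 hf, hom_xG av h h1 hg]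

theorem res_E (hle : l' ≤ l) (φ : SG l) : (resP hle).hom (expG φ) = expG ((resP hle).hom φ) :=
  ((b2 ℝ 2 l 1 fun _ => zero_le_one).pull _).2.1 φ

theorem res_err (hle : l' ≤ l) (O : Out (SG l)) (k : Fin 5) :
    (O.map (resP hle).hom).err gD expG k = (resP hle).hom (O.err gD expG k) :=
  (Out.map_err (R := SG l) (S := SG l') (resP hle).hom (res_D hle) (res_E b2 hle) O k :)

theorem res_ok (hle : l' ≤ l) {G : Lay (SG l)} (h : G.Ok gD expG) :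
    (G.map (resP hle).hom).Ok gD expG :=
  (Lay.Ok.map (R := SG l) (S := SG l') (resP hle).hom (res_D hle) (res_E b2 hle) h :)

theorem res_Xi (hle : l' ≤ l) (G : Lay (SG l)) :
    (G.map (resP hle).hom).Xi gD expG = (resP hle).hom (G.Xi gD expG) :=
  (Lay.map_Xi (R := SG l) (S := SG l') (resP hle).hom (res_D hle) (res_E b2 hle) G :)

theorem res_elay (hle : l' ≤ l) (G : Lay (SG l)) (k : Fin 5) :
    (G.map (resP hle).hom).elay gD expG k = (resP hle).hom (G.elay gD expG k) :=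
  (Lay.map_elay (R := SG l) (S := SG l') (resP hle).hom (res_D hle) (res_E b2 hle) G k :)

/-- The solution of `σ ξ = S`. -/
theorem div_bd (av : AvgFacts l a b) {w : ℝ → ℝ → ℝ} {ξ : SG l}
    (hS : PG 1 (xW w) (cG l * ξ)) : PG 1 (xW w) ξ := by
  have h := wr_SG b2 l
  have e0 : ev0 (cG l * ξ) = 0 := by
    have := av.ev_c
    rw [ev0, pb_eq av.pull0] at this ⊢
    rw [map_mul, this, zero_mul]
  have e1 := av.ftc (cG l * ξ)
  have e2 : avg (gD 0 (cG l * ξ)) - ξ = 0 :=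
    (b2 ℝ 2 l 1 fun _ => zero_le_one).cancel (τ := 1) 0 (by rw [av.crd.2.1, mul_one])
      (by rw [mul_sub, e1, e0]; ring)
  rw [← sub_eq_zero.1 e2]
  exact av.avg_bd (h.pD 0 hS)

omit b2 in
theorem cut_one : IsCut 1 :=
  ⟨contDiff_const, fun _ => ⟨zero_le_one, le_rfl⟩, 1, one_pos, fun _ _ => rfl⟩

omit b2 in
theorem WLe_mul {w w' : Z2 → ℝ} (h : WLe l w w') (v : Z2 → ℝ) : WLe l (w * v) (w' * v) := by
  obtain ⟨C, hC⟩ := h
  refine ⟨C, hC.mono fun z hz => ?_⟩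
  rw [Pi.mul_apply, Pi.mul_apply, abs_mul, abs_mul, ← mul_assoc]
  exact mul_le_mul_of_nonneg_right hz (abs_nonneg _)

theorem y_bd (wt : WtFacts l) {κ : ℝ} (k0 : 0 ≤ κ) (k2 : κ < 2) :
    PG 1 (dW κ) (yG l 1) ∧ PG 1 (dW κ) ((2 + cG l) * yG l 1) ∧ WLe l (dW κ) 1 := by
  have h := wr_SG b2 l
  have h2 := (wt.y 1 cut_one).1
  have hy := (b2 ℝ 2 l 1 fun _ => zero_le_one).mono h2 (wt.d_le 2 κ k2.le)
  refine ⟨hy, ?_, ?_⟩
  · rw [add_mul]
    exact h.add (h.mul1 (h.ofNat 2) hy)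
      (h.congr (wt.cd 2 κ k2 (w := 1) (h.congr h2 (one_mul _).symm)) (one_mul _))
  · have e : dW 0 = 1 := funext fun z => by simp [dW]
    exact e ▸ wt.d_le κ 0 k0

end Germ

/-- The first approximation of the layer `i` along `l`. -/
noncomputable def GI (l : Filter Z2) (P : Prof) (i : Fin 2) (ρ ξ lq lAo leh : SG l) : Lay (SG l) :=
  IL (εG l) (εG l * cG l) (yG l 1) ((2 + cG l) * yG l 1) (etG l 1) (xG l (P.d i)) (xG l (P.χ i))
    (xG l (P.L i)) (lgG (xG l (P.χ i)) (xG l (P.L i))) (xG l (P.L (i + 1)))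
    (lgG (xG l (P.χ (i + 1))) (xG l (P.L (i + 1)))) ρ ξ lq lAo leh

/-! ### The profile -/

section Profile

variable {P : Prof} (ok : P.Ok)
include ok

theorem sub_J (J : Bool) : Icc (P.pl J) (P.pr J) ⊆ Icc (P.xL - P.δ) (P.xR + P.δ) := by
  have h1 := ok.ord; have h2 := ok.ordJ false; have h3 := ok.ordJ true; have h4 := ok.δ_pos
  cases J <;> exact Icc_subset_Icc (by linarith) (by linarith)

theorem sub_i (i : Fin 2) : Icc (P.lo i) (P.hi i) ⊆ Icc (P.xL - P.δ) (P.xR + P.δ) := by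
  have h1 := ok.ord; have h2 := ok.ordJ false; have h3 := ok.ordJ true; have h4 := ok.δ_pos
  fin_cases i
  · exact Icc_subset_Icc le_rfl (by change P.xJ true + P.δ ≤ _; linarith)
  · exact Icc_subset_Icc (by change _ ≤ P.xJ false - P.δ; linarith) le_rfl

theorem glue (b1 : B1Stmt) (b2 : B2Stmt) {l : Filter Z2} {l' : Bool → Filter Z2}
    [∀ J, OpF (l' J)] (hle : ∀ J, l' J ≤ l)
    (hev : ∀ J (Q : Z2 → Prop), (∀ᶠ z in l' J, Q z) →
      ∀ᶠ z in l, z.2 1 ∈ Ioo (P.pl J) (P.pr J) → Q z)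
    (mem : ∀ᶠ z in l, z.2 1 ∈ Icc (P.xL - P.δ) (P.xR + P.δ)) {θ : ℝ} (hθ : 0 < θ) {w : Z2 → ℝ}
    {φ : SG l} (h0 : PG 1 w φ) (hJ : ∀ J, PG 1 (w * P.wW θ) ((resP (hle J)).hom φ)) :
    PG 1 (w * P.wW θ) φ := by
  refine ⟨h0.1, fun k => ?_⟩
  obtain ⟨c, hc, hη⟩ := ok.eta_pos
  obtain ⟨C, hC⟩ := h0.2 k
  choose C' hC' using fun J => ((res_PG b2 (hle J) φ).1 (hJ J)).2 k
  have hp : 0 < c ^ θ := Real.rpow_pos_of_pos hc θ
  refine ⟨|C| / c ^ θ + (|C' false| + |C' true|), ?_⟩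
  filter_upwards [hC, mem, eventually_all.2 fun J => hev J _ (hC' J)] with z h1 h2 h3
  have a0 : 0 ≤ |C| / c ^ θ := by positivity
  have a1 := abs_nonneg (C' false)
  have a2 := abs_nonneg (C' true)
  by_cases hz : ∃ J, z.2 1 ∈ Ioo (P.pl J) (P.pr J)
  · obtain ⟨J, hz⟩ := hz
    refine (b1 2).mono (h3 J hz) zero_le_one le_rfl
      (mul_le_mul_of_nonneg_right ((le_abs_self _).trans ?_) (abs_nonneg _))
    cases J <;> linarith
  · have h4 : c ≤ P.eta (z.2 1) := hη _ h2 fun J hJ =>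
      hz ⟨J, (ok.ordJ J).1.trans_le hJ.1, hJ.2.trans_lt (ok.ordJ J).2.2.2⟩
    have h5 : c ^ θ ≤ |P.wW θ z| := (Real.rpow_le_rpow hc.le h4 hθ.le).trans (le_abs_self _)
    refine (b1 2).mono h1 zero_le_one le_rfl ?_
    rw [Pi.mul_apply, abs_mul]
    calc C * |w z| ≤ |C| / c ^ θ * (|w z| * c ^ θ) := by
          rw [mul_comm |w z|, ← mul_assoc, div_mul_cancel₀ _ hp.ne']
          exact mul_le_mul_of_nonneg_right (le_abs_self _) (abs_nonneg _)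
      _ ≤ _ := mul_le_mul (by linarith) (mul_le_mul_of_nonneg_left h5 (abs_nonneg _))
          (by positivity) (by positivity)

variable {l : Filter Z2} [OpF l] {a b : ℝ} (av : AvgFacts l a b)
  (mem : ∀ᶠ z in l, z.2 1 ∈ Ioo a b)
include av mem

theorem leadHyp {i : Fin 2} (hs : Icc a b ⊆ Icc (P.lo i) (P.hi i)) (wt : WtFacts l) :
    LeadHyp gD expG (yG l 1) (xG l (P.d i)) (xG l (P.χ i)) (xG l (P.L i)) (xG l (P.L (i + 1))) := by
  have hs' := hs.trans (sub_i ok i)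
  have sd : Sx a b (P.d i) := Sx.mono (ok.sm_d i) hs
  have sL : ∀ j, Sx a b (P.L j) := fun j => Sx.mono (ok.sm_L j) hs'
  refine ⟨wt.y1.1, (wt.y 1 cut_one).2.1, xG_D0 av sd, xG_D0 av (Sx.mono (ok.sm_χ i) hs'),
    xG_D0 av (sL _), xG_D0 av (sL _), ?_⟩
  rw [xG_D1 av sd]
  refine ((Rp.xG av sd).sq.add ((Rp.xG av sd.der).sq.smul _)).ext
    (Rp.two.mul (Rp.xG av (sL i))).exp ?_
  filter_upwards [mem] with z hz
  rw [← ok.eik i _ (hs (Ioo_subset_Icc_self hz))]; ring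

variable {J : Bool} (hs : Icc a b ⊆ Icc (P.pl J) (P.pr J))
include hs

theorem prdHyp (i : Fin 2) : PrdHyp gD expG (xG l (P.dp J i)) (xG l (P.χ i)) (xG l (P.Lp J i))
    (xG l (P.Lp J (i + 1))) := by
  have sd : Sx a b (P.dp J i) := fun x hx => (ok.sm_p J i x (hs hx)).1
  have sL : ∀ j, Sx a b (P.Lp J j) := fun j x hx => (ok.sm_p J j x (hs hx)).2
  have sc : Sx a b (P.χ i) := Sx.mono (ok.sm_χ i) (hs.trans (sub_J ok J))
  have hp : ∀ᶠ z in l, _ := mem.mono fun z hz => ok.prod J _ (hs (Ioo_subset_Icc_self hz))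
  have d2 : ∀ j, gD 1 (gD 1 (xG l (P.Lp J j))) = -(1 + gD 1 (xG l (P.Lp J j)) ^ 2) := fun j => by
    rw [xG_D1 av (sL j), xG_D1 av (sL j).der]
    exact (Rp.xG av (sL j).der.der).ext (Rp.one.add (Rp.xG av (sL j).der).sq).neg
      (hp.mono fun z hz => (hz.2.2 j).2.2.1)
  refine ⟨xG_D0 av sd, xG_D0 av (sL _), xG_D0 av (sL _), ?_, ?_, d2 _, d2 _, ?_, ?_⟩
  · exact ((Rp.xG av sc).mul (Rp.xG av sd)).ext Rp.one (hp.mono fun z hz => (hz.2.2 i).2.1)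
  · rw [xG_D1 av (sL _), xG_D1 av (sL _)]
    refine ((Rp.xG av (sL _).der).mul (Rp.xG av (sL _).der)).ext Rp.one.neg
      (hp.mono fun z hz => ?_)
    fin_cases i
    · exact hz.1
    · exact (mul_comm _ _).trans hz.1
  · rw [xG_D1 av (sL _), xG_D1 av sd]
    exact (Rp.xG av sd.der).ext ((Rp.two.mul (Rp.xG av (sL _).der)).mul (Rp.xG av sd))
      (hp.mono fun z hz => (hz.2.2 i).2.2.2.1)
  · rw [xG_D1 av (sL _)]
    exact (Rp.two.mul (Rp.xG av (sL i))).exp.ext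
      ((Rp.xG av sd).sq.mul (Rp.one.add (Rp.xG av (sL _).der).sq))
      (hp.mono fun z hz => (hz.2.2 i).2.2.2.2)

variable (ho : Ioo a b ⊆ Ioo (P.pl J) (P.pr J)) (b2 : B2Stmt) {θ : ℝ} (h0 : 0 < θ) (h1 : θ < 1)
include ho b2 h0 h1

theorem L_pair (i : Fin 2) : pairP (PG 1) (P.wW θ) 1 (xG l (P.Lp J i), xG l (P.L i)) := by
  have sL : Sx a b (P.Lp J i) := fun x hx => (ok.sm_p J i x (hs hx)).2
  refine pr1 (wr_SG b2 l) (av.xbd _ sL)
    (xG_dev av (Sx.mono (ok.sm_L i) (hs.trans (sub_J ok J))) sL fun k => ?_)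
  exact (ok.dev θ h0 h1 k).imp fun C hC x hx => (hC J i x (ho hx)).1

theorem errLoc (pr : PrdStmt) (hc : PG 1 1 (cG l)) (hw : WLe l (P.wW θ) 1) (i : Fin 2)
    (k : Fin 5) : PG 1 (eW * P.wW θ) (Out.err gD expG ⟨εG l, cG l, 0, 0, 0,
      xG l (P.L i) - lgG (xG l (P.χ i)) (xG l (P.L i)),
      xG l (P.L (i + 1)) - lgG (xG l (P.χ (i + 1))) (xG l (P.L (i + 1)))⟩ k) := by
  have h := wr_SG b2 l
  have hs' := hs.trans (sub_J ok J)
  have sc : ∀ j, Sx a b (P.χ j) := fun j => Sx.mono (ok.sm_χ j) hs'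
  have sL : ∀ j, Sx a b (P.L j) := fun j => Sx.mono (ok.sm_L j) hs'
  have hL := L_pair ok av mem hs ho b2 h0 h1
  have dg : ∀ j i', gD i' (lgG (xG l (P.χ j)) (xG l (P.Lp J j))) = 0 := fun j i' =>
    lg_D b2 av (av.xbd _ (sc j)) (hL j).1 i' (cst h (prdHyp ok av mem hs j) i')
  exact err_pair h pr av.e16 av.eps.2.2.2.1 hw (prdHyp ok av mem hs i) (dg _) (dg _)
    av.eps.2.2.1 av.crd.2.1 av.crd.2.2 av.eps.2.1 hc (hL _) (hL _)
    (lg_pair b2 av hw (av.xbd _ (sc _)) (hL _)) (lg_pair b2 av hw (av.xbd _ (sc _)) (hL _))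
    (lg_D0 b2 av (sc _) (sL _)) (lg_D0 b2 av (sc _) (sL _)) k

theorem layLoc (ld : LeadStmt) (pr : PrdStmt) (wt : WtFacts l) (hσ : ∀ᶠ z in l, -1 < z.2 0)
    (hw : WLe l (P.wW θ) 1) {i : Fin 2} (hi : Icc a b ⊆ Icc (P.lo i) (P.hi i))
    (hi' : Ioo a b ⊆ Ioo (P.lo i) (P.hi i)) {κ : ℝ} (k0 : 0 ≤ κ) (k2 : κ < 2)
    {ρ ξ lq lAo leh : SG l} (b3 : Lg3 gD expG PosG (GI l P i ρ ξ lq lAo leh))
    (hρ : PG 1 (eW * P.wW θ) ρ) (hξ : cG l * ξ = εG l * (GI l P i ρ ξ lq lAo leh).Xi gD expG)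
    (k : Fin 5) : PG 1 (dW κ * hW * P.wW θ) ((GI l P i ρ ξ lq lAo leh).elay gD expG k) := by
  have h := wr_SG b2 l
  have B := b2 ℝ 2 l 1 fun _ => zero_le_one
  have hs' := hs.trans (sub_J ok J)
  have sc : ∀ j, Sx a b (P.χ j) := fun j => Sx.mono (ok.sm_χ j) hs'
  have sd : Sx a b (P.dp J i) := fun x hx => (ok.sm_p J i x (hs hx)).1
  have sL : Sx a b (P.Lp J i) := fun x hx => (ok.sm_p J i x (hs hx)).2
  have hc : ∀ j, PG 1 1 (xG l (P.χ j)) := fun j => av.xbd _ (sc j)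
  have hL := L_pair ok av mem hs ho b2 h0 h1
  have hd : pairP (PG 1) (P.wW θ) 1 (xG l (P.dp J i), xG l (P.d i)) :=
    pr1 h (av.xbd _ sd) (xG_dev av (Sx.mono (ok.sm_d i) hi) sd fun k =>
      (ok.dev θ h0 h1 k).imp fun C hC x hx => (hC J i x (ho hx)).2 (hi' hx))
  have p := prdHyp ok av mem hs i
  have dg : ∀ j i', gD i' (lgG (xG l (P.χ j)) (xG l (P.Lp J j))) = 0 := fun j i' =>
    lg_D b2 av (hc j) (hL j).1 i' (cst h (prdHyp ok av mem hs j) i')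
  have he := av.eps.2.2.2.1
  have hg : ∀ j, pairP (PG 1) (P.wW θ) eW (lgG (xG l (P.χ j)) (xG l (P.Lp J j)),
      lgG (xG l (P.χ j)) (xG l (P.L j))) := fun j => lg_pair b2 av hw (hc j) (hL j)
  have mono : ∀ {φ : SG l}, PG 1 (eW * P.wW θ) φ → PG 1 (hW * P.wW θ) φ := fun hφ =>
    B.mono hφ (WLe_mul wt.e_h _)
  have hg' : ∀ j, pairP (PG 1) (P.wW θ) hW (lgG (xG l (P.χ j)) (xG l (P.Lp J j)),
      lgG (xG l (P.χ j)) (xG l (P.L j))) := fun j => ⟨B.mono (hg j).1 wt.e_h, mono (hg j).2⟩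
  obtain ⟨hy, hyp, hκ⟩ := y_bd b2 wt k0 k2
  obtain ⟨het, pet, -⟩ := wt.et 1 cut_one
  have hψ : PG 1 1 (2 * expG (2 * xG l (P.Lp J i))) :=
    h.mul11 (h.ofNat 2) (h.E1 (h.mul11 (h.ofNat 2) (hL i).1))
  have nn : ∀ {φ : SG l}, PosG φ → PosG (φ + (εG l * cG l + 2 * εG l) * xG l (P.χ i) *
      (2 * expG (2 * xG l (P.Lp J i)))) := fun hφ => by
    refine pos_add_nn hφ (((((Rp.gm av.eps.1).mul (Rp.gm av.crd.1)).add
      (Rp.two.mul (Rp.gm av.eps.1))).mul (Rp.xG av (sc i))).mul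
      (Rp.two.mul (Rp.two.mul (Rp.xG av sL)).exp)) ?_
    filter_upwards [hσ, av.eps.2.2.2.2.2.1] with z h1 h2
    exact mul_nonneg (mul_nonneg (by nlinarith) (ok.χ_nonneg _ _)) (by positivity)
  have pq : PosG (1 + xG l (P.χ i) * (εG l * cG l * (2 * expG (2 * xG l (P.Lp J i))))) := by
    have := B.pos_add (nn (pos_one b2)) (h.neg (h.mul1 (h.ofNat 2)
      (h.mul1' av.eps.2.1 (h.mul11 (hc i) hψ)))) av.eps.2.2.2.2.1
    convert this using 1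
    ring
  have s1 : gD 1 (εG l * cG l) = 0 := by
    rw [h.der.mul, av.crd.2.2, av.eps.2.2.1]; ring
  obtain ⟨lq', lAo', leh', fa, a3⟩ := prd_vertex h pr av.e16 p (dg i) (dg (i + 1)) av.eps.2.2.1
    (by rw [h.der.mul, av.crd.2.1, av.eps.2.2.1]; ring) s1 wt.y1.1 (wt.y 1 cut_one).2.1
    (yp := (2 + cG l) * yG l 1) pq (nn pet) (hc i) (hL i).1 (h.to_one wt.h_one wt.s0)
  have hε : PG 1 hW (εG l) := B.mono av.eps.2.1 wt.e_h
  have hX := Xi_bd h hw wt.h_one hκ fa a3 b3 hε wt.s0 hy hyp het (hc i) hd (hL i) (hL (i + 1))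
    (hg' i) (hg' (i + 1)) (mono hρ)
  have hx : PG 1 (eW * P.wW θ) ξ := div_bd b2 av (w := fun ε x => ε * P.eta x ^ θ)
    (by rw [hξ]; exact h.mul av.eps.2.1 hX)
  exact three_cube h hw wt.h_one hκ fa a3 b3 hε wt.s0 hy hyp het (hc i) hd (hL i) (hL (i + 1))
    (hg' i) (hg' (i + 1)) (mono hρ) ld (lead_of h p wt.y1.1 (wt.y 1 cut_one).2.1)
    (leadHyp ok av mem hi wt) pet (mono hx) k

end Profile

/-! ### Subintervals -/

section Sub

variable (c a b p q : ℝ)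

theorem lS_le : lS c (max a p) (min b q) ≤ lS c a b := fun _ hs =>
  ev_fam.2 ((ev_fam.1 hs).mono fun _ h x hx => h x
    ⟨hx.1, hx.2.1, (le_max_left _ _).trans_lt hx.2.2.1, hx.2.2.2.trans_le (min_le_left _ _)⟩)

theorem lB_le : lB c (max a p) (min b q) ≤ lB c a b := fun _ hs =>
  ev_fam.2 ((ev_fam.1 hs).mono fun _ h x hx => h x
    ⟨hx.1, (le_max_left _ _).trans_lt hx.2.1, hx.2.2.trans_le (min_le_left _ _)⟩)

theorem lS_ev (Q : Z2 → Prop) (h : ∀ᶠ z in lS c (max a p) (min b q), Q z) :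
    ∀ᶠ z in lS c a b, z.2 1 ∈ Ioo p q → Q z :=
  ev_fam.2 ((ev_fam.1 h).mono fun _ h x hx h' => h x
    ⟨hx.1, hx.2.1, max_lt hx.2.2.1 h'.1, lt_min hx.2.2.2 h'.2⟩)

theorem lB_ev (Q : Z2 → Prop) (h : ∀ᶠ z in lB c (max a p) (min b q), Q z) :
    ∀ᶠ z in lB c a b, z.2 1 ∈ Ioo p q → Q z :=
  ev_fam.2 ((ev_fam.1 h).mono fun _ h x hx h' => h x
    ⟨hx.1, max_lt hx.2.1 h'.1, lt_min hx.2.2 h'.2⟩)

theorem lS_mem : ∀ᶠ z in lS c a b, z.2 1 ∈ Ioo a b :=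
  ev_fam.2 (Eventually.of_forall fun _ _ hx => hx.2.2)

theorem lS_σ : ∀ᶠ z in lS c a b, -1 < z.2 0 :=
  ev_fam.2 (Eventually.of_forall fun _ _ hx => hx.1)

theorem lB_mem : ∀ᶠ z in lB c a b, z.2 1 ∈ Ioo a b :=
  ev_fam.2 (Eventually.of_forall fun _ _ hx => hx.2)

end Sub

theorem WLe_le {l l' : Filter Z2} (hle : l' ≤ l) {w w' : Z2 → ℝ} (h : WLe l w w') : WLe l' w w' :=
  h.imp fun _ hC => hle hC

theorem GI_map {P : Prof} (ok : P.Ok) (b2 : B2Stmt) {l l' : Filter Z2} [OpF l] [OpF l'] {a b : ℝ}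
    (av : AvgFacts l a b) (wt : WtFacts l) (hle : l' ≤ l) {i : Fin 2}
    (hi : Icc a b ⊆ Icc (P.lo i) (P.hi i)) (ρ ξ lq lAo leh : SG l) :
    (GI l P i ρ ξ lq lAo leh).map (resP hle).hom = GI l' P i ((resP hle).hom ρ) ((resP hle).hom ξ)
      ((resP hle).hom lq) ((resP hle).hom lAo) ((resP hle).hom leh) := by
  have hs := hi.trans (sub_i ok i)
  have sc : ∀ j, Sx a b (P.χ j) := fun j => Sx.mono (ok.sm_χ j) hs
  have sL : ∀ j, Sx a b (P.L j) := fun j => Sx.mono (ok.sm_L j) hs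
  have hx : ∀ {f}, Sx a b f → (resP hle).hom (xG l f) = xG l' f :=
    hom_xG av _ fun _ _ => rfl
  have hy : (resP hle).hom (yG l 1) = yG l' 1 := hom_gm _ (wt.sm 1 cut_one).1
  have he : (resP hle).hom (etG l 1) = etG l' 1 := hom_gm _ (wt.sm 1 cut_one).2.1
  simp only [GI, IL, Lay.map, map_mul, map_add, map_sub, map_zero, map_ofNat, hom_ε av, res_c av hle,
    hy, he, hx (sc _), hx (sL _), hx (Sx.mono (ok.sm_d i) hi),
    hom_lg b2 av (resP hle) (fun _ _ => rfl) (sc _) (sL _)]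

theorem G_eq {P : Prof} (ok : P.Ok) (b2 : B2Stmt) (av : AvgStmt) {c : ℝ} (g : P.Geo c)
    (i : Fin 2) : ∃ ρ ξ lq lAo leh, St.G (⟨0, 0, 0, P.Li, fun _ _ => 0⟩ : St P c) 1 i =
      GI (P.lL c i) P i ρ ξ lq lAo leh := by
  have avO : AvgFacts P.lO _ _ := (av.2 _ _ _).1
  have h0 : P.π c i 0 = 0 := by rw [Prof.π, pb_eq (g.pull i), map_zero]
  have hu : ∀ j, P.π c i (P.Li j) = xG _ (P.L j) - lgG (xG _ (P.χ j)) (xG _ (P.L j)) := fun j => by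
    rw [Prof.π, pb_eq (g.pull i), Prof.Li, map_sub,
      hom_xG avO (g.pull i) (fun _ _ => rfl) (ok.sm_L j),
      hom_lg b2 avO (g.pull i) (fun _ _ => rfl) (ok.sm_χ j) (ok.sm_L j)]
  simp only [St.G, h0, hu, mul_zero]
  exact ⟨_, _, _, _, _, rfl⟩

theorem err0 {P : Prof} (ok : P.Ok) (b1 : B1Stmt) (b2 : B2Stmt) (av : AvgStmt) (pr : PrdStmt)
    {θ : ℝ} (h0 : 0 < θ) (h1 : θ < 1) (hw : WLe P.lO (P.wW θ) 1) (i : Fin 2) (k : Fin 5) :
    PG 1 (eW * P.wW θ) (Out.err gD expG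
      (⟨εG _, cG _, 0, 0, 0, P.Li i, P.Li (i + 1)⟩ : Out (SG P.lO)) k) := by
  have avO : AvgFacts P.lO _ _ := (av.2 _ _ _).1
  have h := wr_SG b2 P.lO
  have he := avO.eps.2.2.2.1
  have hL : ∀ j, PG 1 1 (P.Li j) := fun j => h.sub (avO.xbd _ (ok.sm_L j))
    (h.to_one he (lg_e b2 avO (avO.xbd _ (ok.sm_χ j)) (avO.xbd _ (ok.sm_L j))))
  have hl : ∀ J, lB P.M₀ (max (P.xL - P.δ) (P.pl J)) (min (P.xR + P.δ) (P.pr J)) ≤ P.lO :=
    fun J => lB_le _ _ _ _ _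
  refine glue ok b1 b2 hl (fun J => lB_ev _ _ _ _ _)
    ((lB_mem _ _ _).mono fun _ hz => Ioo_subset_Icc_self hz) h0
    (err_bd h avO.eps.2.1 (h.to_one he avO.eps.2.1) (av.2 _ _ _).2 (hL _) (hL _)
      (lg_D0 b2 avO (ok.sm_χ _) (ok.sm_L _)) (lg_D0 b2 avO (ok.sm_χ _) (ok.sm_L _)) k) fun J => ?_
  have hle := hl J
  rw [← res_err b2 hle]
  have hu : ∀ j, (resP hle).hom (P.Li j) =
      xG _ (P.L j) - lgG (xG _ (P.χ j)) (xG _ (P.L j)) := fun j => by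
    rw [Prof.Li, map_sub, hom_xG avO _ (fun _ _ => rfl) (ok.sm_L j),
      hom_lg b2 avO _ (fun _ _ => rfl) (ok.sm_χ j) (ok.sm_L j)]
  simp only [Out.map, hu, map_zero, hom_ε avO, res_c avO hle]
  exact errLoc ok (av.2 _ _ _).1 (lB_mem _ _ _)
    (Icc_subset_Icc (le_max_right _ _) (min_le_right _ _))
    (Ioo_subset_Ioo (le_max_right _ _) (min_le_right _ _)) b2 h0 h1 pr (av.2 _ _ _).2
    (WLe_le hle hw) i k

theorem lay0 {P : Prof} (ok : P.Ok) (b1 : B1Stmt) (b2 : B2Stmt) (av : AvgStmt) (wt : WtStmt)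
    (ld : LeadStmt) (pr : PrdStmt) {c θ κ : ℝ} (hc : 0 < c) (h0 : 0 < θ) (h1 : θ < 1) (k0 : 0 ≤ κ)
    (k2 : κ < 2) {i : Fin 2} (hw : WLe (P.lL c i) (P.wW θ) 1) {ρ ξ lq lAo leh : SG (P.lL c i)}
    (gok : (GI _ P i ρ ξ lq lAo leh).Ok gD expG) (all : (GI _ P i ρ ξ lq lAo leh).All (PG 1 1))
    (hρ : PG 1 (eW * P.wW θ) ρ) (hξ : cG _ * ξ = εG _ * (GI _ P i ρ ξ lq lAo leh).Xi gD expG)
    (hx : PG 1 eW ξ) (k : Fin 5) :
    PG 1 (dW κ * hW * P.wW θ) ((GI _ P i ρ ξ lq lAo leh).elay gD expG k) := by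
  have avL : AvgFacts (P.lL c i) _ _ := av.1 _ _ _ hc
  have wtL : WtFacts (P.lL c i) := wt _ _ _ hc
  have h := wr_SG b2 (P.lL c i)
  have B := b2 ℝ 2 (P.lL c i) 1 fun _ => zero_le_one
  have hs := sub_i ok i
  have bc : ∀ j, PG 1 1 (xG (P.lL c i) (P.χ j)) := fun j => avL.xbd _ (Sx.mono (ok.sm_χ j) hs)
  have bL : ∀ j, PG 1 1 (xG (P.lL c i) (P.L j)) := fun j => avL.xbd _ (Sx.mono (ok.sm_L j) hs)
  obtain ⟨hy, hyp, hκ⟩ := y_bd b2 wtL k0 k2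
  obtain ⟨het, pet, -⟩ := wtL.et 1 cut_one
  have hl : ∀ J, lS c (max (P.lo i) (P.pl J)) (min (P.hi i) (P.pr J)) ≤ P.lL c i :=
    fun J => lS_le _ _ _ _ _
  refine glue ok b1 b2 hl (fun J => lS_ev _ _ _ _ _)
    ((lS_mem _ _ _).mono fun _ hz => hs (Ioo_subset_Icc_self hz)) h0
    (two_cube h ld wtL.h_one hκ (lg3_of h gok all) (leadHyp ok avL (lS_mem _ _ _) subset_rfl wtL)
      (B.mono avL.eps.2.1 wtL.e_h) wtL.s0 hy hyp het pet (avL.xbd _ (ok.sm_d i)) (bc _) (bL _)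
      (bL _) (B.mono (lg_e b2 avL (bc _) (bL _)) wtL.e_h)
      (B.mono (lg_e b2 avL (bc _) (bL _)) wtL.e_h) (B.mono (h.sml hw hρ) wtL.e_h)
      (B.mono hx wtL.e_h) k) fun J => ?_
  have hle := hl J
  have hm := GI_map ok b2 avL wtL hle subset_rfl ρ ξ lq lAo leh
  have gok' := res_ok b2 hle gok
  have hξ' := congrArg (resP hle).hom hξ
  rw [map_mul, map_mul, res_c avL hle, hom_ε avL, ← res_Xi b2 hle, hm] at hξ'
  have b3 : Lg3 gD expG PosG ((GI _ P i ρ ξ lq lAo leh).map (resP hle).hom) :=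
    have h' := wr_SG b2 (lS c (max (P.lo i) (P.pl J)) (min (P.hi i) (P.pr J)))
    ⟨gok'.lq, gok'.lAo, gok'.leh, gok'.lq ▸ (h'.E_bd (res_bd b2 hle all.lq)).2,
      gok'.lAo ▸ (h'.E_bd (res_bd b2 hle all.lAo)).2,
      gok'.leh ▸ (h'.E_bd (res_bd b2 hle all.leh)).2⟩
  rw [hm] at b3
  rw [← res_elay b2 hle, hm]
  exact layLoc ok (av.1 _ _ _ hc) (lS_mem _ _ _)
    (Icc_subset_Icc (le_max_right _ _) (min_le_right _ _))
    (Ioo_subset_Ioo (le_max_right _ _) (min_le_right _ _)) b2 h0 h1 ld pr (wt _ _ _ hc)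
    (lS_σ _ _ _) (WLe_le hle hw) (Icc_subset_Icc (le_max_left _ _) (min_le_left _ _))
    (Ioo_subset_Ioo (le_max_left _ _) (min_le_left _ _)) k0 k2 b3 (res_bd b2 hle hρ) hξ' k

end Init

theorem initS (b1 : B1Stmt) (b2 : B2Stmt) (av : AvgStmt) (wt : WtStmt) (c1 : Cid1Stmt)
    (lg : LgStmt) (ld : LeadStmt) (pr : PrdStmt) : InitStmt := by
  intro P c θ κ ok g h0 h1 k0 k2
  have avO : AvgFacts P.lO _ _ := (av.2 _ _ _).1
  have h := wr_SG b2 P.lO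
  have bd : St.Bd (⟨0, 0, 0, P.Li, fun _ _ => 0⟩ : St P c) θ κ :=
    ⟨h.zero _, h.zero _, h.zero _, fun i => by rw [sub_self]; exact h.zero _,
      avO.ev_fix 0 (h.der.zero 0), avO.ev_fix 0 (h.der.zero 0),
      fun i j => (wr_SG b2 (P.lL c i)).zero _⟩
  refine ⟨bd, fun i k => ?_, fun i k => ?_⟩
  · rw [pow_one]
    exact Init.err0 ok b1 b2 av pr h0 h1 (g.w_one θ h0.le).1 i k
  · obtain ⟨gf, hρ⟩ := c1 P c g _ θ κ 1 i ok h0 h1 k0 bd Init.cut_one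
    have gok := gf.ok
    have all := gf.all
    have hξ := gf.xi
    have hx := gf.xi1
    obtain ⟨ρ, ξ, lq, lAo, leh, e⟩ := Init.G_eq ok b2 av g i
    rw [e] at gok all hξ hx hρ ⊢
    have := Init.lay0 ok b1 b2 av wt ld pr g.pos h0 h1 (κ := (κ + 2) / 2) (by linarith)
      (by linarith) ((g.w_one θ h0.le).2 i) gok all hρ hξ hx k
    refine (b2 ℝ 2 (P.lL c i) 1 fun _ => zero_le_one).mono this ?_
    have e1 : eW ^ 1 * P.wW θ * dW κ = eW * dW κ * P.wW θ := by ring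
    rw [e1, mul_comm (dW _) hW]
    exact Init.WLe_mul ((wt _ _ _ g.pos).hd _ _ (by linarith)) _

end Pool.Agent.Lib.MP_df9110_gt
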