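import Pool.Agent.Lib.MP_df9110_gt.NFormS

-- part Pool.Agent.Lib.MP_df9110_gt.LayBasic
section

/-! The basic relations of a layer, the leading order layer and the product of two cones. -/

set_option linter.unusedSimpArgs false
set_option linter.unusedSectionVars false

namespace Pool.Agent.Lib.MP_df9110_gt

namespace LayBasicAux

variable {R : Type} [CommRing R] [Algebra ℝ R] {D : Fin 2 → R → R} {E : R → R}

section Exp

variable (hE : IsExp D E)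
include hE

theorem E_neg (a : R) : E a * E (-a) = 1 := by rw [← hE.add, add_neg_cancel, hE.zero]
theorem E_two (a : R) : E (2 * a) = E a ^ 2 := by rw [two_mul, hE.add, pow_two]
theorem E_sub (a b : R) : E (a - b) = E a * E (-b) := by rw [sub_eq_add_neg, hE.add]
theorem E_cancel {a x y : R} (h : E a * x = E a * y) : x = y := by
  linear_combination E (-a) * h - (x - y) * E_neg hE a
/-- Equal exponentials have equal logarithmic derivatives. -/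
theorem der_eq {a b : R} (h : E a = E b) (i : Fin 2) : D i a = D i b := by
  apply E_cancel hE (a := a)
  rw [← hE.der, h, hE.der]
theorem inv_eq {a b : R} (h : E a * b = 1) : E (-a) = b := by
  linear_combination (-E (-a)) * h + b * E_neg hE a

end Exp

section Basic

variable (hD : IsDer D) (hE : IsExp D E) (G : Lay R) (ok : G.Ok D E)
include hD hE ok

theorem psi₀ : D 0 (G.psi E) = 0 := by
  simp only [Lay.psi, hD.mul, hD.ofNat, hE.der, ok.L₀]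
  ring

theorem lq₀ : D 0 G.lq = G.ε * G.chi * G.psi E * E (-G.lq) := by
  apply E_cancel hE (a := G.lq)
  rw [← hE.der, ok.lq]
  have h := E_neg hE G.lq
  rw [ok.lq] at h
  simp only [Lay.q, hD.add, hD.mul, hD.one, psi₀ hD hE G ok, ok.s0₀, ok.chi₀] at h ⊢
  linear_combination (-(G.ε * G.chi * G.psi E)) * h

theorem P0_psi : G.P0 E * G.psi E = -(4 * G.q E ^ 2) := by
  rw [← ok.lq, Lay.P0, Lay.psi, E_two hE G.lq]
  linear_combination (-4 * E G.lq ^ 2) * E_neg hE (2 * G.L)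

theorem dmu : D 0 (G.μ E) * G.P0 E = G.ε := by
  have h := E_neg hE G.lq
  have h2 := P0_psi hD hE G ok
  have h3 := ok.lq
  rw [← h3] at h2
  rw [Lay.q] at h3
  simp only [Lay.μ, hD.smul, hD.sub, hD.mul, hD.neg, hE.der, psi₀ hD hE G ok, ok.s0₀, ok.d₀,
    lq₀ hD hE G ok]
  linear_combination (norm := algebra)
    (-(1 / 4 : ℝ) • (G.ε * E (-G.lq) * (1 - G.chi * G.s0 * G.psi E * E (-G.lq)))) * h2 +
    (G.ε * (E G.lq - G.chi * G.s0 * G.psi E * (1 + E G.lq * E (-G.lq)))) * h + G.ε * h3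

theorem b1 : 1 - G.b D E * G.P1 D E = G.μ E ^ 2 * G.τ₁ D E * G.P0 E := by
  have h := E_neg hE G.lAo
  rw [ok.lAo] at h
  simp only [Lay.b, Lay.τ₁, Lay.Ao, Lay.Pp] at h ⊢
  linear_combination (-1 : R) * h

theorem b2 : G.bp - G.b D E * G.Pp D E = -(E G.lc * G.P0 E * G.P1 D E * E (-G.lAo)) := by
  have h := E_neg hE G.lAo
  rw [ok.lAo] at h
  simp only [Lay.b, Lay.Ao, Lay.Pp] at h ⊢
  linear_combination (-G.bp) * h

theorem P0_cancel {x y : R} (h : x * G.P0 E = y * G.P0 E) : x = y := by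
  apply E_cancel hE (a := -(2 * G.L))
  apply E_cancel hE (a := 2 * G.lq)
  rw [Lay.P0] at h
  linear_combination (norm := algebra) (-(1 / 2 : ℝ) • (1 : R)) * h

theorem Tmu : G.T D E (G.μ E) = G.μ E * G.mt D E := by
  apply P0_cancel hD hE G ok
  have h1 := dmu hD hE G ok
  have h2 := b1 hD hE G ok
  rw [Lay.P1, Lay.τ₂] at h2
  rw [Lay.T, Lay.mt]
  linear_combination h1 + G.ε * h2

theorem Cl (h16 : E (Real.log 16 • 1) = 16) :
    E G.lCl = 4 * G.P0 E ^ 2 * E G.la * E G.lc * E (-G.lAo) := by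
  have e : G.lCl = Real.log 16 • 1 + (-(2 * G.L) + -(2 * G.L)) + (2 * G.lq + 2 * G.lq) + G.la +
      G.lc + -G.lAo := by
    rw [Lay.lCl]
    ring
  rw [e]
  simp only [hE.add, h16, Lay.P0]
  ring

end Basic

section Lead

variable (hD : IsDer D) (hE : IsExp D E) {y d chi L L₂ : R} (H : LeadHyp D E y d chi L L₂)
  (yp et leh r r₂ : R) (hr : D 0 r = 0) (hr₂ : D 0 r₂ = 0) (hry : r * y = 0)
include hD hE H hr hr₂ hry

theorem lead_main : LeadFacts D E (lead y yp et d chi L L₂ leh r r₂ 0) := by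
  obtain ⟨G, hG⟩ : ∃ G, G = lead y yp et d chi L L₂ leh r r₂ 0 := ⟨_, rfl⟩
  rw [← hG]
  have gε : G.ε = 0 := by rw [hG]; rfl
  have gs : G.s0 = 0 := by rw [hG]; rfl
  have gy : G.y = y := by rw [hG]; rfl
  have gd : G.d = d := by rw [hG]; rfl
  have gL : G.L = L := by rw [hG]; rfl
  have gla : G.la = 0 := by rw [hG]; rfl
  have gbp : G.bp = 0 := by rw [hG]; rfl
  have glc : G.lc = 0 := by rw [hG]; rfl
  have guw : G.uw = L + r := by rw [hG]; rfl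
  have guo : G.uo = L₂ + r₂ := by rw [hG]; rfl
  have glam : G.lam = 0 := by rw [hG]; rfl
  have ggam : G.gam = 0 := by rw [hG]; rfl
  have gnu : G.nu = 0 := by rw [hG]; rfl
  have gw1 : G.w1 = 0 := by rw [hG]; rfl
  have gw2 : G.w2 = 0 := by rw [hG]; rfl
  have grho : G.rho = r := by rw [hG]; rfl
  have gxi : G.xi1 = 0 := by rw [hG]; rfl
  have glq : G.lq = 0 := by rw [hG]; rfl
  have glAo : G.lAo = -(2 * L) := by rw [hG]; rfl
  have hA0 : D 0 (E (-(2 * L))) = 0 := by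
    simp only [hE.der, hD.neg, hD.mul, hD.ofNat, H.L₀]; ring
  have hT : ∀ f, G.T D E f = D 0 f := fun f => by rw [Lay.T, gε]; ring
  have hmt : G.mt D E = 0 := by rw [Lay.mt, gε]; ring
  have hek : G.ek D E = 0 := by rw [Lay.ek, gε, hmt]; ring
  have hXe : G.Xe D E = 0 := by rw [Lay.Xe, gε, gxi]; ring
  have hal : G.al E = 1 - y := by rw [Lay.al, glq, gy, neg_zero, hE.zero, mul_one]
  have hlA : G.lA = -(2 * L) := by
    rw [Lay.lA, glAo, glam, grho, gy]; linear_combination (-2) * hry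
  have hμ : G.μ E = (1 / 4 : ℝ) • d := by rw [Lay.μ, gs, gd]; simp
  have hP0 : G.P0 E = -(2 * E (-(2 * L))) := by
    rw [Lay.P0, glq, gL, mul_zero, hE.zero, mul_one]
  have hτ₂ : G.τ₂ D E = (1 / 4 : ℝ) • D 1 d := by rw [Lay.τ₂, hμ, hD.smul]
  have hPp : G.Pp D E = G.P0 E := by rw [Lay.Pp, gbp]; ring
  have dμ : D 0 (G.μ E) = 0 := by rw [hμ, hD.smul, H.d₀, smul_zero]
  have dP0 : D 0 (G.P0 E) = 0 := by simp only [hP0, hD.neg, hD.mul, hD.ofNat, hA0]; ring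
  have dτ₂ : D 0 (G.τ₂ D E) = 0 := by rw [Lay.τ₂, hD.comm, dμ, hD.zero]
  have dlAo : D 0 G.lAo = 0 := by simp only [glAo, hD.neg, hD.mul, hD.ofNat, H.L₀]; ring
  have dτ₁ : D 0 (G.τ₁ D E) = 0 := by
    simp only [Lay.τ₁, hPp, gla, hD.mul, hD.ofNat, hE.der, hD.neg, hD.zero, dP0, dlAo]; ring
  have db : D 0 (G.b D E) = 0 := by
    simp only [Lay.b, Lay.P1, gbp, glc, mul_zero, zero_add, hD.mul, hE.der, hD.neg, hD.zero, dP0,
      dτ₂, dlAo]
    ring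
  have dlC : D 0 G.lC = 0 := by
    simp only [Lay.lC, Lay.lCl, gL, glq, gla, glc, ggam, hD.add, hD.sub, hD.mul, hD.smul, hD.one,
      hD.ofNat, hD.zero, H.L₀, dlAo, smul_zero]
    ring
  have dlA : D 0 G.lA = 0 := by simp only [hlA, hD.neg, hD.mul, hD.ofNat, H.L₀]; ring
  have du₁ : D 0 G.u₁ = 0 := by simp only [Lay.u₁, guw, glam, hD.add, hD.zero, H.L₀, hr]; ring
  have du₂ : D 0 G.u₂ = 0 := by simp only [Lay.u₂, guo, gnu, hD.add, hD.zero, H.L₂₀, hr₂]; ring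
  have dal : D 0 (G.al E) = 2 * y := by rw [hal, hD.sub, hD.one, H.y₀]; ring
  have hj : G.j D E = 0 := by rw [Lay.j, hT, hmt, dlC, gε]; simp
  have hyv : G.yv D E = y := by rw [Lay.yv, hT, hT, hmt, dal, du₁]; algebra
  have ht₂ : G.t₂ D E = 0 := by rw [Lay.t₂, hT, hmt, du₂]; simp
  have hW : G.W E = -(2 * E (-(2 * L))) := by rw [Lay.W, hP0, gw1, add_zero]
  have hTaA : G.TaA D E = 2 * E (-(2 * L)) * y := by rw [Lay.TaA, hT, hT, dal, dlA, hlA]; ring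
  have hBa : G.Ba D E = E (-(2 * L)) * y := by rw [Lay.Ba, hTaA, hmt]; algebra
  have hxt : G.xt D E = 0 := by rw [Lay.xt, gw2, gε]; ring
  have hth : G.th D E = 0 := by rw [Lay.th, hT, hT, du₁, dlA]; simp
  have hWh : G.Wh D E = -(2 * E (-(2 * L))) := by rw [Lay.Wh, hW, ht₂]; ring
  have hX₁ : G.X₁ D E = E (-(2 * L)) * y - 2 * E (-(2 * L)) := by
    rw [Lay.X₁, hal, hWh, hlA, hyv]; ring
  have hK : G.K D E = 0 := by rw [Lay.K, hT, hj, hD.zero, gε]; ring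
  have hBc : G.Bc D E = 2 * E (-(2 * L)) := by rw [Lay.Bc, hBa, hj, hX₁]; ring
  refine ⟨?_, ?_, ?_, ?_, ?_, ?_, ?_, ?_⟩
  · have h1 := H.eik
    have h2 := E_neg hE (2 * L)
    rw [Lay.Ao, Lay.P1, hPp, hP0, hμ, hτ₂, gla, glc, glAo, hE.zero]
    linear_combination (norm := algebra) (-E (-(2 * L)) ^ 2) * h1 - E (-(2 * L)) * h2
  · intro k
    fin_cases k
    · change G.e₁ D E = 0
      rw [Lay.e₁, hT, hyv, H.y₀, hth, hj, ht₂, hW, hlA, gε]; ring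
    · change G.e₂ D E = 0
      rw [Lay.e₂, hT, ht₂, hD.zero, gε]; ring
    · change G.e₃ D E = 0
      rw [Lay.e₃, hK, hj, gε]; ring
    · change G.e₄ D E = 0
      rw [Lay.e₄, hT, hxt, hD.zero, hXe, gε]; simp
    · change G.e₅ D E = 0
      rw [Lay.e₅, hT, hT, hWh, hth, hmt, ht₂, hj, hXe, gε]
      simp only [hD.neg, hD.mul, hD.ofNat, hD.zero, hA0]
      ring
  · intro i
    fin_cases i <;> simp [Lay.k, hK, hT, hyv, H.y₀, hth, hj, ht₂, hlA, gε, hXe, hD.zero, gL, gy]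
    ring
  · rw [hBc, gL]
  · rw [Lay.cO, hTaA, hT, dlC, hX₁, gL]; algebra
  · rw [hal, hlA, gL, gy]; ring
  · rw [Lay.lapmu, hT, hD.mul, dμ, dτ₁, hBc, hP0, hxt, gε]; ring
  · rw [Lay.Om, hT, hmt, hek, gε]
    simp only [Lay.Y, Lay.Yo, gw2, mul_zero, add_zero, hD.mul, hD.neg, hE.der, dlC, db, dP0]
    ring

end Lead

section Prd

variable (hD : IsDer D) (hE : IsExp D E) {d chi L L₂ g g₂ : R} (H : PrdHyp D E d chi L L₂)
  (hg : ∀ i, D i g = 0) (hg₂ : ∀ i, D i g₂ = 0)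
include hD hE H hg hg₂

theorem prd_out (ε μ : R) (k : Fin 5) : Out.err D E ⟨ε, μ, 0, 0, 0, L - g, L₂ - g₂⟩ k = 0 := by
  obtain ⟨O, hO⟩ : ∃ O : Out R, O = ⟨ε, μ, 0, 0, 0, L - g, L₂ - g₂⟩ := ⟨_, rfl⟩
  rw [← hO]
  have gla : O.la = 0 := by rw [hO]
  have gbp : O.bp = 0 := by rw [hO]
  have glc : O.lc = 0 := by rw [hO]
  have d₁ : ∀ i, D i O.u₁ = D i L := fun i => by rw [hO, hD.sub, hg, sub_zero]
  have d₂ : ∀ i, D i O.u₂ = D i L₂ := fun i => by rw [hO, hD.sub, hg₂, sub_zero]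
  have hDd : ∀ f, O.Dd D f = O.μ * D 0 f := fun f => by rw [Out.Dd, gbp]; ring
  have hjh : O.jh D = (1 / 2 : ℝ) • 1 := by rw [Out.jh, hDd, glc, gbp, hD.zero, hD.zero]; simp
  have hl : O.l D = 0 := by rw [Out.l, gla, hD.zero, smul_zero]
  have ht₁ : O.t₁ D = -((1 / 2 : ℝ) • 1) := by rw [Out.t₁, hDd, d₁, H.L₀]; ring
  have ht₂ : O.t₂ D = -((1 / 2 : ℝ) • 1) := by rw [Out.t₂, hDd, d₂, H.L₂₀]; ring
  have hK : O.K D E = 0 := by
    simp only [Out.K, hDd, hjh, hl, gla, glc, hD.smul, hD.one, hD.zero, hE.zero]; algebra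
  have h11 : ∀ s, O.k11 D E (-((1 / 2 : ℝ) • 1)) s = 0 := fun s => by
    simp only [Out.k11, hDd, hl, gla, glc, hD.smul, hD.one, hD.zero, hD.neg, hE.zero]; algebra
  have h22 : ∀ s, D 1 s = -(1 + s ^ 2) → O.k22 D E (-((1 / 2 : ℝ) • 1)) s = 0 := fun s hs => by
    simp only [Out.k22, hs, hjh, gla, glc, hD.zero, hE.zero]; algebra
  have h12 : ∀ s, D 0 s = 0 → O.k12 D (-((1 / 2 : ℝ) • 1)) s = 0 := fun s hs => by
    simp only [Out.k12, hDd, hs, hl, glc, hD.zero]; algebra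
  have h34 : O.k34 D E = 0 := by
    rw [Out.k34, ht₁, ht₂, d₁, d₂, gla, glc, hE.zero]
    linear_combination (norm := algebra) (-1 : R) * H.LL
  have s₁ : D 0 (D 1 L) = 0 := by rw [hD.comm, H.L₀, hD.zero]
  have s₂ : D 0 (D 1 L₂) = 0 := by rw [hD.comm, H.L₂₀, hD.zero]
  fin_cases k <;>
    simp [Out.err, Out.oa, Out.ob, Out.oc, Out.o₁, Out.o₂, ht₁, ht₂, d₁, d₂, hK, h11, h34,
      -one_div, h22 _ H.L₁, h22 _ H.L₂₁, h12 _ s₁, h12 _ s₂, gla, gbp, glc, hD.zero, H.L₀, H.L₂₀]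

theorem prd_cst (i : Fin 2) (chi₀ : D 0 chi = 0) : D i (chi * E (2 * L)) = 0 := by
  fin_cases i
  · change D 0 _ = 0
    simp only [hD.mul, hE.der, hD.ofNat, chi₀, H.L₀]; ring
  · change D 1 _ = 0
    have h := hD.mul 1 chi d
    rw [H.chi, hD.one, H.d₁] at h
    have h2 : D 1 chi = -(2 * D 1 L * chi) := by
      linear_combination (-chi) * h - (D 1 chi + 2 * D 1 L * chi) * H.chi
    simp only [hD.mul, hE.der, hD.ofNat, h2]; ring

theorem prd_main (h16 : E (Real.log 16 • 1) = 16) (ε s0 y yp et lq lAo leh : R)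
    (ok : Lay.Ok D E ⟨ε, s0, y, yp, et, d, chi, L, 0, 0, 0, L - g, L₂ - g₂, 0, 0, 0, 0, 0, 0, 0, lq,
      lAo, leh⟩) (hy : D 0 y = -(2 * y)) (G : Lay R)
    (hG : G = ⟨ε, s0, y, yp, et, d, chi, L, 0, 0, 0, L - g, L₂ - g₂, 0, 0, 0, 0, 0, 0, 0, lq, lAo,
      leh⟩) : G.Ao D E = E (2 * G.lq - 2 * G.L) ∧ (∀ k, G.e D E k = 0) ∧ G.Xi D E = 0 := by
  rw [← hG] at ok
  have gε : G.ε = ε := by rw [hG]
  have gs : G.s0 = s0 := by rw [hG]
  have gy : G.y = y := by rw [hG]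
  have gd : G.d = d := by rw [hG]
  have gchi : G.chi = chi := by rw [hG]
  have gL : G.L = L := by rw [hG]
  have gla : G.la = 0 := by rw [hG]
  have gbp : G.bp = 0 := by rw [hG]
  have glc : G.lc = 0 := by rw [hG]
  have guw : G.uw = L - g := by rw [hG]
  have guo : G.uo = L₂ - g₂ := by rw [hG]
  have glam : G.lam = 0 := by rw [hG]
  have ggam : G.gam = 0 := by rw [hG]
  have gnu : G.nu = 0 := by rw [hG]
  have gw1 : G.w1 = 0 := by rw [hG]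
  have gw2 : G.w2 = 0 := by rw [hG]
  have grho : G.rho = 0 := by rw [hG]
  have gxi : G.xi1 = 0 := by rw [hG]
  have glq : G.lq = lq := by rw [hG]
  have glAo : G.lAo = lAo := by rw [hG]
  obtain ⟨μ, hμ⟩ : ∃ μ, G.μ E = μ := ⟨_, rfl⟩
  obtain ⟨p, hp⟩ : ∃ p, D 1 L = p := ⟨_, rfl⟩
  obtain ⟨p₂, hp₂⟩ : ∃ p₂, D 1 L₂ = p₂ := ⟨_, rfl⟩
  obtain ⟨A, hA⟩ : ∃ A, E lAo = A := ⟨_, rfl⟩
  have pp : p * p₂ = -1 := by rw [← hp, ← hp₂]; exact H.LL
  have p₀ : D 0 p = 0 := by rw [← hp, hD.comm, H.L₀, hD.zero]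
  have p₂₀ : D 0 p₂ = 0 := by rw [← hp₂, hD.comm, H.L₂₀, hD.zero]
  have p₁ : D 1 p = -(1 + p ^ 2) := by rw [← hp]; exact H.L₁
  have p₂₁ : D 1 p₂ = -(1 + p₂ ^ 2) := by rw [← hp₂]; exact H.L₂₁
  have dε : ∀ i, D i ε = 0 := fun i => by rw [← gε]; exact ok.dε i
  have y₁ : D 1 y = 0 := by rw [← gy]; exact ok.y₁
  have chi₀ : D 0 chi = 0 := by rw [← gchi]; exact ok.chi₀
  have cst := fun i => prd_cst hD hE H hg hg₂ i chi₀
  have eik : E (2 * L) = d ^ 2 * (1 + p ^ 2) := by rw [← hp]; exact H.eik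
  have hc := H.chi
  have hq : E lq = 1 + 2 * s0 * (chi * E (2 * L)) := by
    rw [← glq, ok.lq, Lay.q, Lay.psi, gs, gchi, gL]; ring
  have hqi := E_neg hE lq
  have hLi := E_neg hE (2 * L)
  have lq₁ : D 1 lq = 0 := by
    apply E_cancel hE (a := lq)
    have h1 : D 1 s0 = 0 := by rw [← gs]; exact ok.s0₁
    rw [← hE.der, hq, hD.add, hD.one, hD.mul, cst, hD.mul, h1, hD.ofNat]; ring
  have eμ : μ = (1 / 4 : ℝ) • (d * E (-lq)) := by
    rw [← hμ, Lay.μ, Lay.psi, gd, gs, gL, glq]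
    linear_combination (norm := algebra) (-(1 / 4 : ℝ) • d) * hqi +
      ((1 / 4 : ℝ) • (d * E (-lq))) * hq + ((1 / 2 : ℝ) • (s0 * E (2 * L) * E (-lq))) * hc
  have lq₀' : D 0 lq = 8 * ε * μ * (1 + p ^ 2) := by
    have h := lq₀ hD hE G ok
    rw [Lay.psi, glq, gε, gchi, gL] at h
    rw [h, eμ, eik]
    linear_combination (norm := algebra) (2 * ε * d * (1 + p ^ 2) * E (-lq)) * hc
  have μ₁ : D 1 μ = 2 * p * μ := by
    rw [eμ]
    simp only [hD.smul, hD.mul, hE.der, hD.neg, lq₁, H.d₁, hp]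
    algebra
  have μ₀ : D 0 μ = -(8 * ε * μ ^ 2 * (1 + p ^ 2)) := by
    have h : D 0 μ = -(μ * D 0 lq) := by
      conv_lhs => rw [eμ]
      simp only [hD.smul, hD.mul, hE.der, hD.neg, H.d₀]
      rw [eμ]
      algebra
    rw [h, lq₀']; ring
  have hτ₂ : G.τ₂ D E = 2 * p * μ := by rw [Lay.τ₂, hμ, μ₁]
  have hPp : G.Pp D E = G.P0 E := by rw [Lay.Pp, gbp]; ring
  have hAo : G.Ao D E = E (2 * lq - 2 * L) := by
    rw [Lay.Ao, Lay.P1, hPp, hτ₂, hμ, Lay.P0, gla, glc, gL, glq, hE.zero, E_sub hE, E_two hE lq, eμ]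
    linear_combination (norm := algebra)
      (E (-(2 * L)) ^ 2 * E lq ^ 2 * d ^ 2 * (1 + p ^ 2) * (1 + E lq * E (-lq))) * hqi -
        (E (-(2 * L)) ^ 2 * E lq ^ 2) * eik + (E (-(2 * L)) * E lq ^ 2) * hLi
  have eA : E lAo = E (2 * lq - 2 * L) := by rw [← hAo, ← ok.lAo, glAo]
  have hP0 : G.P0 E = -(2 * A) := by
    rw [← hA, eA, Lay.P0, gL, glq, E_sub hE]; ring
  have hAi : A * E (-lAo) = 1 := by rw [← hA]; exact E_neg hE lAo
  have lAo₀ : D 0 lAo = 16 * ε * μ * (1 + p ^ 2) := by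
    rw [der_eq hE eA]
    simp only [hD.sub, hD.mul, hD.ofNat, lq₀', H.L₀]; ring
  have lAo₁ : D 1 lAo = -(2 * p) := by
    rw [der_eq hE eA]
    simp only [hD.sub, hD.mul, hD.ofNat, lq₁, hp]; ring
  have A₀ : D 0 A = 16 * ε * μ * (1 + p ^ 2) * A := by rw [← hA, hE.der, lAo₀]; ring
  have A₁ : D 1 A = -(2 * p * A) := by rw [← hA, hE.der, lAo₁]; ring
  have hb : G.b D E = 4 * p * μ := by
    rw [Lay.b, Lay.P1, hP0, hτ₂, gbp, glc, glAo, hE.zero]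
    linear_combination (4 * p * μ) * hAi
  have hτ₁ : G.τ₁ D E = -8 := by
    rw [Lay.τ₁, hPp, hP0, gla, glAo, hE.zero]
    linear_combination (-8) * hAi
  have hT : ∀ f, G.T D E f = D 0 f + 4 * ε * p * μ * D 1 f := fun f => by
    rw [Lay.T, hb, gε]; ring
  have hSd : ∀ f, G.Sd D E f = μ * D 1 f := fun f => by rw [Lay.Sd, hμ]
  have hYo : G.Yo D E = 8 * p * μ * A := by rw [Lay.Yo, hb, hP0]; ring
  have hlal : G.lal D E = 0 := by
    have h : D 1 (G.chi * G.psi E) = 0 := by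
      rw [Lay.psi, gchi, gL, mul_left_comm, hD.mul, cst, hD.ofNat]; ring
    rw [Lay.lal, h]; ring
  have hlA : G.lA = lAo := by rw [Lay.lA, glAo, glam, grho]; ring
  have hlC : G.lC = G.lCl := by rw [Lay.lC, ggam]; ring
  have hC : E G.lC = 16 * A := by
    rw [hlC, Cl hD hE G ok h16, hP0, gla, glc, glAo, hE.zero]
    linear_combination (16 * A) * hAi
  have lC₀ : D 0 G.lC = 16 * ε * μ * (1 + p ^ 2) := by
    simp only [hlC, Lay.lCl, gL, glq, gla, glc, glAo, hD.add, hD.sub, hD.mul, hD.smul, hD.one,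
      hD.ofNat, hD.zero, H.L₀, lAo₀, lq₀', smul_zero]
    ring
  have lC₁ : D 1 G.lC = -(2 * p) := by
    simp only [hlC, Lay.lCl, gL, glq, gla, glc, glAo, hD.add, hD.sub, hD.mul, hD.smul, hD.one,
      hD.ofNat, hD.zero, hp, lAo₁, lq₁, smul_zero]
    ring
  have u₁₀ : D 0 G.u₁ = 0 := by rw [Lay.u₁, guw, glam, add_zero, hD.sub, hg, H.L₀, sub_zero]
  have u₁₁ : D 1 G.u₁ = p := by rw [Lay.u₁, guw, glam, add_zero, hD.sub, hg, hp, sub_zero]
  have u₂₀ : D 0 G.u₂ = 0 := by rw [Lay.u₂, guo, gnu, add_zero, hD.sub, hg₂, H.L₂₀, sub_zero]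
  have u₂₁ : D 1 G.u₂ = p₂ := by rw [Lay.u₂, guo, gnu, add_zero, hD.sub, hg₂, hp₂, sub_zero]
  have hXi : G.Xi D E = 0 := by rw [Lay.Xi, hlal, hlA, lAo₁, u₁₁]; algebra
  have hXe : G.Xe D E = 0 := by rw [Lay.Xe, hXi, gxi]; ring
  have hmt : G.mt D E = -(8 * ε * μ) := by rw [Lay.mt, gε, hμ, hτ₁]; ring
  have b₁ : D 1 (G.b D E) = 4 * μ * (p ^ 2 - 1) := by
    simp only [hb, hD.mul, hD.ofNat, μ₁, p₁]; ring
  have hek : G.ek D E = -(4 * ε * μ * (1 + p ^ 2)) := by rw [Lay.ek, hmt, b₁, gε]; ring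
  have hj : G.j D E = 0 := by rw [Lay.j, hmt, hT, lC₀, lC₁, b₁, gε]; algebra
  have hlh : G.lh D E = 0 := by rw [Lay.lh, hτ₂, hlal, hSd, hlA, lAo₁]; algebra
  obtain ⟨z, hz⟩ : ∃ z, y * E (-lq) = z := ⟨_, rfl⟩
  have z₀ : D 0 z = -(z * (2 + 8 * ε * μ * (1 + p ^ 2))) := by
    rw [← hz, hD.mul, hE.der, hD.neg, hy, lq₀']; ring
  have z₁ : D 1 z = 0 := by rw [← hz, hD.mul, hE.der, hD.neg, y₁, lq₁]; ring
  have hal : G.al E = 1 - z := by rw [Lay.al, gy, glq, hz]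
  have hyv : G.yv D E = z + 4 * ε * μ * (1 + p ^ 2) := by
    rw [Lay.yv, hT, hT, hal, hmt, u₁₀, u₁₁, hD.sub, hD.sub, hD.one, hD.one, z₀, z₁]; algebra
  have ht₂ : G.t₂ D E = 0 := by
    rw [Lay.t₂, hT, hmt, u₂₀, u₂₁]
    linear_combination (norm := algebra) (4 * ε * μ) * pp
  have hs₁ : G.s₁ D E = 0 := by rw [Lay.s₁, hlal, hτ₂, hSd, u₁₁]; algebra
  have hs₂ : G.s₂ D E = μ * (p₂ - p) := by rw [Lay.s₂, hτ₂, hSd, u₂₁]; algebra
  have hhc : G.hc D E = 0 := by rw [Lay.hc, hτ₂, hSd, lC₁]; algebra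
  have hK : G.K D E = 0 := by rw [Lay.K, hT, hSd, hj, hlh, hD.zero, hD.zero]; ring
  have hW : G.W E = -(2 * A) := by rw [Lay.W, hP0, gw1, add_zero]
  have hWh : G.Wh D E = -(2 * A) := by rw [Lay.Wh, hW, ht₂]; ring
  have hxt : G.xt D E = -(16 * ε * A * μ * (p₂ - p)) := by
    rw [Lay.xt, gw2, gε, hC, hs₁, hs₂]; ring
  have hX₂ : G.X₂ D E = 8 * p * μ * A - 16 * ε * A * μ ^ 2 * (p₂ - p) := by
    rw [Lay.X₂, hYo, hμ, hxt]; ring
  have hth : G.th D E = 8 * ε * μ * (1 + p ^ 2) := by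
    rw [Lay.th, hT, hT, u₁₀, u₁₁, hlA, lAo₀, lAo₁]; algebra
  have hbase : G.base D E = 8 * μ * A - 16 * ε * A * μ ^ 2 * (1 + p ^ 2) := by
    rw [Lay.base, hμ, hP0, hτ₁, hτ₂, hxt]
    linear_combination (norm := algebra) (16 * ε * A * μ ^ 2) * pp
  refine ⟨by rw [hAo, glq, gL], ?_, hXi⟩
  intro k
  fin_cases k
  · change G.e₁ D E = 0
    rw [Lay.e₁, hT, hSd, hyv, hth, hj, ht₂, hW, hs₁, hbase, hX₂, hlal, u₁₁, hlA, hA, gε]
    simp only [hD.add, hD.mul, hD.sq, hD.ofNat, hD.one, hD.zero, dε, z₀, z₁, μ₀, μ₁, p₀, p₁]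
    linear_combination (norm := algebra) (-(16 * ε ^ 2 * A * μ ^ 2)) * pp
  · change G.e₂ D E = 0
    rw [Lay.e₂, hT, hSd, ht₂, hs₂, hhc, hlh, hbase, hX₂, u₂₁, hC, gε]
    simp only [hD.sub, hD.mul, hD.zero, μ₁, p₁, p₂₁]
    linear_combination (8 * ε * μ * A - 16 * ε ^ 2 * A * μ ^ 2) * pp
  · change G.e₃ D E = 0
    rw [Lay.e₃, hK, hj, hbase, hX₂, lC₁, hs₁, hs₂, hC, gε]
    simp only [hD.sub, hD.mul, hD.sq, hD.ofNat, dε, μ₁, p₁, p₂₁, A₁]
    linear_combination (norm := algebra) (-(16 * ε ^ 2 * A * μ ^ 2)) * pp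
  · change G.e₄ D E = 0
    rw [Lay.e₄, hT, hT, hSd, hxt, hmt, hek, hWh, hlal, hτ₂, ht₂, hs₁, hXe]
    simp only [hD.sub, hD.mul, hD.neg, hD.ofNat, hD.zero, dε, μ₀, μ₁, p₀, p₂₀, p₁, p₂₁, A₀, A₁]
    linear_combination (norm := algebra) (32 * ε ^ 2 * A * μ ^ 2 * (p₂ - p)) * pp
  · change G.e₅ D E = 0
    rw [Lay.e₅, hT, hT, hSd, hWh, hth, hmt, ht₂, hj, hXe]
    simp only [hD.mul, hD.neg, hD.ofNat, hD.zero, mul_zero, A₀, A₁]
    ring

end Prd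

end LayBasicAux

open LayBasicAux in
theorem layBasic : LayBasicStmt := by
  intro R _ _ _ D E G hD hE h16 ok
  refine ⟨dmu hD hE G ok, Tmu hD hE G ok, ?_, b1 hD hE G ok, b2 hD hE G ok, Cl hD hE G ok h16,
    P0_psi hD hE G ok⟩
  have h2 := b1 hD hE G ok
  rw [Lay.P1] at h2
  rw [Lay.Yo]
  linear_combination (-1 : R) * h2

open LayBasicAux in
theorem leadF : LeadStmt := by
  intro R _ _ _ D E y yp et d chi L L₂ leh hD hE H
  have H0 : LeadHyp D E 0 d chi L L₂ :=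
    ⟨by rw [hD.zero]; ring, hD.zero 1, H.d₀, H.chi₀, H.L₀, H.L₂₀, H.eik⟩
  refine ⟨lead_main hD hE H yp et leh 0 0 (hD.zero 0) (hD.zero 0) (zero_mul _),
    lead_main hD hE H0 0 et leh 0 0 (hD.zero 0) (hD.zero 0) (zero_mul _),
    fun r r₂ Z hr hr₂ => (lead_main hD hE H0 0 et leh r r₂ hr hr₂ (mul_zero _)).e⟩

open LayBasicAux in
theorem prd : PrdStmt := by
  intro R _ _ _ D E d chi L L₂ g g₂ hD hE h16 H hg hg₂
  refine ⟨fun ε μ _ k => prd_out hD hE H hg hg₂ ε μ k, fun ε s0 y yp et lq lAo leh ok hy => ?_⟩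
  obtain ⟨h1, h2, h3⟩ := prd_main hD hE H hg hg₂ h16 ε s0 y yp et lq lAo leh ok hy _ rfl
  have h4 := prd_main hD hE H hg hg₂ h16 ε s0 0 0 et lq lAo leh
    ⟨ok.dε, ok.s0₀, ok.s0₁, hD.zero 1, ok.d₀, ok.chi₀, ok.L₀, ok.lq, ok.lAo, ok.leh⟩
    (by rw [hD.zero]; ring) _ rfl
  exact ⟨h1, fun i => prd_cst hD hE H hg hg₂ i ok.chi₀, h2, h4.2.1, h3⟩

end Pool.Agent.Lib.MP_df9110_gt
end

-- part Pool.Agent.Lib.MP_df9110_gt.LayBi
section

/-! The reduced Bianchi identity in the coordinates of the boundary layer. -/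

set_option linter.unusedSimpArgs false
set_option linter.unusedSectionVars false

namespace Pool.Agent.Lib.MP_df9110_gt

namespace LayBi

variable {R : Type} [CommRing R] [Algebra ℝ R] [IsReduced R] {D : Fin 2 → R → R} {E : R → R}
  {G : Lay R} {εi μi ali : R}

/-- The hypotheses used throughout. -/
structure H (D : Fin 2 → R → R) (E : R → R) (G : Lay R) (εi μi ali : R) : Prop where
  hD : IsDer D
  hE : IsExp D E
  ok : G.Ok D E
  hU : G.Unit D E εi μi ali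
  lb : LayBasic D E G

variable (h : H D E G εi μi ali)
include h

theorem E_neg (a : R) : E a * E (-a) = 1 := by rw [← h.hE.add, add_neg_cancel, h.hE.zero]

theorem field (x y : R)
    (k : ∀ (K : Type) [Field K] [CharZero K] [Algebra ℝ K] (v : R →ₐ[ℝ] K), v G.ε ≠ 0 →
      v (G.μ E) ≠ 0 → v (G.al E) ≠ 0 → (∀ a, v (E a) ≠ 0) → v εi = (v G.ε)⁻¹ →
      v μi = (v (G.μ E))⁻¹ → v ali = (v (G.al E))⁻¹ → (∀ a, v (E (-a)) = (v (E a))⁻¹) →
      (∀ z, v ((1 / 2 : ℝ) • z) = v z / 2) → (∀ z, v ((3 / 2 : ℝ) • z) = 3 * v z / 2) →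
      v x = v y) : x = y := by
  refine eq_of_field x y fun K _ _ v => ?_
  have : CharZero K := charZero_of_injective_algebraMap (algebraMap ℝ K).injective
  have key : ∀ p q : R, p * q = 1 → v p ≠ 0 ∧ v q = (v p)⁻¹ := by
    intro p q hpq
    have h1 : v p * v q = 1 := by rw [← map_mul, hpq, map_one]
    exact ⟨left_ne_zero_of_mul_eq_one h1, eq_inv_of_mul_eq_one_right h1⟩
  refine k K v (key _ _ h.hU.hε).1 (key _ _ h.hU.hμ).1 (key _ _ h.hU.hal).1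
    (fun a => (key _ _ (E_neg h a)).1) (key _ _ h.hU.hε).2 (key _ _ h.hU.hμ).2
    (key _ _ h.hU.hal).2 (fun a => (key _ _ (E_neg h a)).2) (fun z => ?_) fun z => ?_
  · rw [map_smul, eq_div_iff two_ne_zero, mul_two, ← add_smul]
    norm_num
  · rw [map_smul, eq_div_iff two_ne_zero, mul_two, ← add_smul]
    norm_num
    rw [Algebra.smul_def, map_ofNat]

theorem T_add (u v : R) : G.T D E (u + v) = G.T D E u + G.T D E v := by
  simp only [Lay.T, h.hD.add]; ring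
theorem T_sub (u v : R) : G.T D E (u - v) = G.T D E u - G.T D E v := by
  simp only [Lay.T, h.hD.sub]; ring
theorem T_neg (u : R) : G.T D E (-u) = -G.T D E u := by
  simp only [Lay.T, h.hD.neg]; ring
theorem T_mul (u v : R) : G.T D E (u * v) = u * G.T D E v + G.T D E u * v := by
  simp only [Lay.T, h.hD.mul]; ring
theorem T_sq (u : R) : G.T D E (u ^ 2) = 2 * u * G.T D E u := by
  simp only [Lay.T, h.hD.sq]; ring
theorem X_cube (i : Fin 2) (u : R) : D i (u ^ 3) = 3 * u ^ 2 * D i u := by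
  rw [pow_succ, h.hD.mul, h.hD.sq]; ring
theorem T_cube (u : R) : G.T D E (u ^ 3) = 3 * u ^ 2 * G.T D E u := by
  simp only [Lay.T, X_cube h]; ring
theorem X_two (i : Fin 2) : D i (2 : R) = 0 := h.hD.ofNat i 2
theorem T_two : G.T D E 2 = 0 := by
  simp only [Lay.T, X_two h]; ring
theorem T_E (a : R) : G.T D E (E a) = E a * G.T D E a := by
  simp only [Lay.T, h.hE.der]; ring
theorem T_ε : G.T D E G.ε = 0 := by
  simp only [Lay.T, h.ok.dε]; ring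

theorem der_inv {u ui : R} (e : u * ui = 1) (i : Fin 2) : D i ui = -(ui * ui * D i u) := by
  have h1 := h.hD.mul i u ui
  rw [e, h.hD.one] at h1
  linear_combination (-ui) * h1 - D i ui * e

theorem T_inv {u ui : R} (e : u * ui = 1) : G.T D E ui = -(ui * ui * G.T D E u) := by
  simp only [Lay.T, der_inv h e]; ring

theorem X_εi : D 1 εi = 0 := by rw [der_inv h h.hU.hε, h.ok.dε]; ring
theorem T_εi : G.T D E εi = 0 := by rw [T_inv h h.hU.hε, T_ε h]; ring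
theorem X_μ : D 1 (G.μ E) = G.τ₂ D E := rfl
theorem X_μi : D 1 μi = -(μi * μi * G.τ₂ D E) := der_inv h h.hU.hμ 1
theorem T_μi : G.T D E μi = -(μi * G.mt D E) := by
  rw [T_inv h h.hU.hμ, h.lb.Tμ]
  linear_combination (-μi * G.mt D E) * h.hU.hμ
theorem X_al : D 1 (G.al E) = G.lal D E * G.al E := h.hU.lal.symm

omit h in
theorem BT (f : R) : (G.blk D E εi μi ali).T D f = G.T D E f := rfl
omit h in
theorem Ba : (G.blk D E εi μi ali).a = εi * G.μ E * G.al E * E G.lA := rfl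
omit h in
theorem Bai : (G.blk D E εi μi ali).ai = G.ε * μi * ali * E (-G.lA) := rfl
omit h in
theorem BC : (G.blk D E εi μi ali).C = G.ε * G.μ E ^ 3 * E G.lC := rfl
omit h in
theorem BCi : (G.blk D E εi μi ali).Ci = εi * μi ^ 3 * E (-G.lC) := rfl
omit h in
theorem BF₁ : (G.blk D E εi μi ali).F₁ = G.ε * μi * G.al E * E (2 * G.u₁) := rfl
omit h in
theorem BF₁i : (G.blk D E εi μi ali).F₁i = εi * G.μ E * ali * E (-(2 * G.u₁)) := rfl
omit h in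
theorem BF₂ : (G.blk D E εi μi ali).F₂ = G.ε * μi * E (2 * G.u₂) := rfl
omit h in
theorem BF₂i : (G.blk D E εi μi ali).F₂i = εi * G.μ E * E (-(2 * G.u₂)) := rfl
omit h in
theorem Bf₁ : (G.blk D E εi μi ali).f₁ = G.W E * E (-G.lA) := rfl
omit h in
theorem Bf₂ : (G.blk D E εi μi ali).f₂ = εi * μi ^ 2 * G.Y D E * E (-G.lC) := rfl

theorem Xβ : D 1 (G.blk D E εi μi ali).β = G.mt D E - G.ek D E := by
  change D 1 (G.ε * G.b D E) = _
  simp only [h.hD.mul, h.ok.dε, Lay.ek]; ring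

theorem ta : (G.blk D E εi μi ali).ta D =
    G.mt D E + G.T D E (G.al E) * ali + G.T D E G.lA := by
  simp only [Blk.ta, BT, Ba, Bai, T_mul h, T_E h, T_εi h, h.lb.Tμ]
  refine field h _ _ fun K _ _ _ v h1 h2 h3 h4 e1 e2 e3 e4 s1 s3 => ?_
  have := h4 G.lA
  simp only [map_add, map_sub, map_mul, map_neg, map_pow, map_zero, map_ofNat, e1, e2, e3, e4]
  field_simp
  ring

theorem tc : (G.blk D E εi μi ali).tc D = 3 * G.mt D E + G.T D E G.lC := by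
  simp only [Blk.tc, BT, BC, BCi, T_mul h, T_cube h, T_E h, T_ε h, h.lb.Tμ]
  refine field h _ _ fun K _ _ _ v h1 h2 h3 h4 e1 e2 e3 e4 s1 s3 => ?_
  have := h4 G.lC
  simp only [map_add, map_sub, map_mul, map_neg, map_pow, map_zero, map_ofNat, e1, e2, e3, e4]
  field_simp
  ring

theorem xa : (G.blk D E εi μi ali).xa D = G.τ₂ D E * μi + G.lal D E + D 1 G.lA := by
  simp only [Blk.xa, Ba, Bai, h.hD.mul, h.hE.der, X_εi h, X_μ h, X_al h]
  refine field h _ _ fun K _ _ _ v h1 h2 h3 h4 e1 e2 e3 e4 s1 s3 => ?_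
  have := h4 G.lA
  simp only [map_add, map_sub, map_mul, map_neg, map_pow, map_zero, map_ofNat, e1, e2, e3, e4]
  field_simp
  ring

theorem xc : (G.blk D E εi μi ali).xc D = 3 * G.τ₂ D E * μi + D 1 G.lC := by
  simp only [Blk.xc, BC, BCi, h.hD.mul, X_cube h, h.hE.der, h.ok.dε, X_μ h]
  refine field h _ _ fun K _ _ _ v h1 h2 h3 h4 e1 e2 e3 e4 s1 s3 => ?_
  have := h4 G.lC
  simp only [map_add, map_sub, map_mul, map_neg, map_pow, map_zero, map_ofNat, e1, e2, e3, e4]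
  field_simp
  ring

theorem t₁ : (G.blk D E εi μi ali).t₁ D = ali * G.yv D E := by
  simp only [Blk.t₁, Lay.yv, BT, BF₁, BF₁i, T_mul h, T_E h, T_ε h, T_μi h, T_two h]
  refine field h _ _ fun K _ _ _ v h1 h2 h3 h4 e1 e2 e3 e4 s1 s3 => ?_
  have := h4 (2 * G.u₁)
  simp only [s1, map_add, map_sub, map_mul, map_neg, map_pow, map_zero, map_ofNat, e1, e2, e3, e4]
  field_simp
  ring

theorem t₂ : (G.blk D E εi μi ali).t₂ D = G.t₂ D E := by
  simp only [Blk.t₂, Lay.t₂, BT, BF₂, BF₂i, T_mul h, T_E h, T_ε h, T_μi h, T_two h]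
  refine field h _ _ fun K _ _ _ v h1 h2 h3 h4 e1 e2 e3 e4 s1 s3 => ?_
  have := h4 (2 * G.u₂)
  simp only [s1, map_add, map_sub, map_mul, map_neg, map_pow, map_zero, map_ofNat, e1, e2, e3, e4]
  field_simp
  ring

theorem x₁ : (G.blk D E εi μi ali).x₁ D = μi * G.s₁ D E := by
  simp only [Blk.x₁, Lay.s₁, Lay.Sd, BF₁, BF₁i, h.hD.mul, h.hE.der, h.ok.dε, X_μi h, X_al h,
    X_two h]
  refine field h _ _ fun K _ _ _ v h1 h2 h3 h4 e1 e2 e3 e4 s1 s3 => ?_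
  have := h4 (2 * G.u₁)
  simp only [s1, map_add, map_sub, map_mul, map_neg, map_pow, map_zero, map_ofNat, e1, e2, e3, e4]
  field_simp
  ring

theorem x₂ : (G.blk D E εi μi ali).x₂ D = μi * G.s₂ D E := by
  simp only [Blk.x₂, Lay.s₂, Lay.Sd, BF₂, BF₂i, h.hD.mul, h.hE.der, h.ok.dε, X_μi h, X_two h]
  refine field h _ _ fun K _ _ _ v h1 h2 h3 h4 e1 e2 e3 e4 s1 s3 => ?_
  have := h4 (2 * G.u₂)
  simp only [s1, map_add, map_sub, map_mul, map_neg, map_pow, map_zero, map_ofNat, e1, e2, e3, e4]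
  field_simp
  ring

theorem j : (G.blk D E εi μi ali).j D = G.j D E := by
  simp only [Blk.j, tc h, Xβ h, Lay.j, Lay.ek]
  algebra

theorem l : (G.blk D E εi μi ali).l D = μi * G.lh D E := by
  simp only [Blk.l, xa h, Lay.lh, Lay.Sd]
  refine field h _ _ fun K _ _ _ v h1 h2 h3 h4 e1 e2 e3 e4 s1 s3 => ?_
  simp only [s1, map_add, map_sub, map_mul, map_neg, map_pow, map_zero, map_ofNat, e1, e2, e3, e4]
  field_simp

theorem lam₂ {Ω : R} (hO : (G.blk D E εi μi ali).Om D = εi * μi ^ 2 * Ω) :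
    (G.blk D E εi μi ali).lam₂ D = εi ^ 2 * μi * G.lam₂ D E Ω := by
  simp only [Blk.lam₂, Blk.y₁, hO, BT, Ba, Bf₁, ta h, tc h, t₁ h, t₂ h, Lay.lam₂, Lay.cO, Lay.TaA,
    Lay.X₁, Lay.Wh, T_mul h, T_sq h, T_εi h, T_μi h]
  refine field h _ _ fun K _ _ _ v h1 h2 h3 h4 e1 e2 e3 e4 s1 s3 => ?_
  have := h4 G.lA
  simp only [s1, map_add, map_sub, map_mul, map_neg, map_pow, map_zero, map_ofNat, e1, e2, e3, e4]
  field_simp
  ring

theorem lam₁ {Ω : R} (hO : (G.blk D E εi μi ali).Om D = εi * μi ^ 2 * Ω) :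
    (G.blk D E εi μi ali).lam₁ D = εi * μi * (Ω * G.X₂ D E) - G.lam₁ D E Ω := by
  simp only [Blk.lam₁, Blk.y₂, hO, BC, Bf₂, xc h, l h, x₁ h, x₂ h, Lay.lam₁, Lay.X₂, Lay.xt,
    Lay.Y, Lay.Sd, h.hD.mul, h.hD.sq, X_εi h, X_μi h]
  refine field h _ _ fun K _ _ _ v h1 h2 h3 h4 e1 e2 e3 e4 s1 s3 => ?_
  have := h4 G.lC
  simp only [s1, map_add, map_sub, map_mul, map_neg, map_pow, map_zero, map_ofNat, e1, e2, e3, e4]
  field_simp
  ring

section Bi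

variable {E1 E2 E3 E4 E5 F : R} (hF : E4 * E (-G.lC) = F)
  (k1 : (G.blk D E εi μi ali).e₁ D = εi * G.μ E * E1)
  (k2 : (G.blk D E εi μi ali).e₂ D = εi * G.μ E * E2)
  (k3 : (G.blk D E εi μi ali).e22 D = εi * G.μ E * E3)
  (k4 : (G.blk D E εi μi ali).e12 D = εi * μi * F)
  (k5 : (G.blk D E εi μi ali).e11 D = εi * G.μ E * (E1 + G.al E * E5))
include hF k1 k2 k3 k4 k5

theorem bi₁ : (G.blk D E εi μi ali).bi₁ D = εi * G.B₁ D E E1 E2 E3 E4 E5 := by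
  have e4' : E4 = E G.lC * F := by
    rw [← hF]; linear_combination (-E4) * E_neg h G.lC
  simp only [Blk.bi₁, Lay.B₁, hF]
  simp only [k1, k2, k3, k4, k5, e4', BT, BC, Bf₁, Bf₂, j h, l h, t₁ h, t₂ h, x₁ h, x₂ h, xc h,
    Lay.hc, Lay.Sd, T_add h, T_sub h, T_mul h, T_εi h, h.lb.Tμ, h.hD.mul, X_εi h, X_μi h]
  refine field h _ _ fun K _ _ _ v h1 h2 h3 h4 e1 e2 e3 e4 s1 s3 => ?_
  have := h4 G.lC
  have := h4 G.lA
  simp only [s1, map_add, map_sub, map_mul, map_neg, map_pow, map_zero, map_ofNat, e1, e2, e3, e4]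
  field_simp
  ring

theorem bi₂ : (G.blk D E εi μi ali).bi₂ D = εi ^ 2 * μi * G.B₂ D E E1 E2 E3 E4 E5 := by
  simp only [Blk.bi₂, Lay.B₂, hF]
  simp only [k1, k2, k3, k4, k5, BT, Ba, Bf₁, Bf₂, j h, l h, t₁ h, t₂ h, x₁ h, x₂ h, ta h, tc h,
    Lay.Ba, Lay.TaA, Lay.Sd, T_mul h, T_εi h, T_μi h, h.hD.mul, h.hD.add, h.hD.sub, X_εi h,
    X_μ h, X_two h]
  simp only [Lay.j, Lay.ek]
  refine field h _ _ fun K _ _ _ v h1 h2 h3 h4 e1 e2 e3 e4 s1 s3 => ?_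
  have := h4 G.lC
  have := h4 G.lA
  simp only [s1, s3, map_add, map_sub, map_mul, map_neg, map_pow, map_zero, map_ofNat, e1, e2, e3,
    e4]
  field_simp
  ring

end Bi

end LayBi

theorem layBi (t8 : T8Stmt) (lb : LayBasicStmt) (hg : LayHGStmt) : LayBiStmt := by
  intro R _ _ _ D E G εi μi ali ee hD hE h16 ok hU he he3
  have h : LayBi.H D E G εi μi ali := ⟨hD, hE, ok, hU, lb R D E G hD hE h16 ok⟩
  have g := hg R D E G εi μi ali hD hE h16 ok hU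
  have hε := hU.hε
  have hμ := hU.hμ
  have hC := LayBi.E_neg h G.lC
  have a0 : ee 0 = G.e₁ D E := he 0 (by decide)
  have a1 : ee 1 = G.e₂ D E := he 1 (by decide)
  have a2 : ee 2 = G.e₃ D E := he 2 (by decide)
  have a4 : ee 4 = G.e₅ D E := he 4 (by decide)
  have k1 : (G.blk D E εi μi ali).e₁ D = εi * G.μ E * ee 0 := by
    rw [a0]; linear_combination εi * g.e₁ - (G.blk D E εi μi ali).e₁ D * hε
  have k2 : (G.blk D E εi μi ali).e₂ D = εi * G.μ E * ee 1 := by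
    rw [a1]; linear_combination εi * g.e₂ - (G.blk D E εi μi ali).e₂ D * hε
  have k3 : (G.blk D E εi μi ali).e22 D = εi * G.μ E * ee 2 := by
    rw [a2]; linear_combination εi * g.e22 - (G.blk D E εi μi ali).e22 D * hε
  have k5 : (G.blk D E εi μi ali).e11 D = εi * G.μ E * (ee 0 + G.al E * ee 4) := by
    rw [a4]
    linear_combination εi * g.e11 + k1 -
      ((G.blk D E εi μi ali).e11 D - (G.blk D E εi μi ali).e₁ D) * hε
  have k4 : (G.blk D E εi μi ali).e12 D = εi * μi * (ee 3 * E (-G.lC)) := by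
    have := g.e12
    rw [← he3] at this
    generalize (G.blk D E εi μi ali).e12 D = x at this ⊢
    linear_combination εi * μi ^ 2 * E (-G.lC) * this -
      x * (G.μ E * μi) ^ 2 * (E G.lC * E (-G.lC)) * hε -
      x * (G.μ E * μi + 1) * (E G.lC * E (-G.lC)) * hμ - x * hC +
      εi * μi * ee 3 * E (-G.lC) * hμ
  have hO : (G.blk D E εi μi ali).Om D = εi * μi ^ 2 * G.Om D E := by
    have := g.Om
    generalize (G.blk D E εi μi ali).Om D = x at this ⊢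
    linear_combination εi * μi ^ 2 * this - x * (G.μ E * μi) ^ 2 * hε - x * (G.μ E * μi + 1) * hμ
  have t := t8 R D _ hD g.ok
  rw [LayBi.lam₂ h hO, LayBi.lam₁ h hO, hO, LayBi.bi₁ h rfl k1 k2 k3 k4 k5,
    LayBi.bi₂ h rfl k1 k2 k3 k4 k5, LayBi.Xβ h] at t
  have hX : G.X₂ D E = G.Yo D E + G.μ E * G.xt D E := rfl
  have det := h.lb.det
  simp only [Lay.biL, Lay.biR, Lay.Sd]
  generalize G.B₁ D E (ee 0) (ee 1) (ee 2) (ee 3) (ee 4) = b₁ at t ⊢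
  generalize G.B₂ D E (ee 0) (ee 1) (ee 2) (ee 3) (ee 4) = b₂ at t ⊢
  generalize G.lam₁ D E (G.Om D E) = l₁ at t ⊢
  generalize G.lam₂ D E (G.Om D E) = l₂ at t ⊢
  have hZ : μi * (G.τ₂ D E * G.X₂ D E - 1) = G.τ₂ D E * G.xt D E - G.μ E * G.P0 E * G.τ₁ D E := by
    rw [hX]
    linear_combination μi * det + (G.τ₂ D E * G.xt D E - G.μ E * G.P0 E * G.τ₁ D E) * hμ
  rw [← hZ]
  have hW : D 1 (εi * μi * (G.Om D E * G.X₂ D E)) = εi * μi * D 1 (G.Om D E * G.X₂ D E) -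
      εi * μi * μi * G.τ₂ D E * (G.Om D E * G.X₂ D E) := by
    rw [hD.mul, hD.mul 1 εi, LayBi.X_εi h, LayBi.X_μi h]; ring
  rw [hD.sub, hW] at t
  generalize D 1 (G.Om D E * G.X₂ D E) = w at t ⊢
  simp only [LayBi.BT, LayBi.T_mul h, LayBi.T_sq h, LayBi.T_εi h, LayBi.T_μi h, hD.mul,
    LayBi.X_εi h] at t
  refine LayBi.field h _ _ fun K _ _ _ v h1 h2 h3 h4 e1 e2 e3 e4 s1 s3 => ?_
  have t' := congrArg v t
  simp only [map_add, map_sub, map_mul, map_neg, map_pow, map_zero, map_one, map_ofNat, e1,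
    e2] at t' ⊢
  field_simp at t' ⊢
  linear_combination t'

end Pool.Agent.Lib.MP_df9110_gt
end

-- part Pool.Agent.Lib.MP_df9110_gt.LayHg
section

/-! Comparison of a boundary layer with its block metric. -/

set_option linter.unusedSimpArgs false
set_option linter.unusedSectionVars false

namespace Pool.Agent.Lib.MP_df9110_gt

namespace LayHg

variable {R : Type} [CommRing R] [Algebra ℝ R] {D : Fin 2 → R → R} {E : R → R} {G : Lay R}
  {εi μi ali : R}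

/-- All hypotheses. -/
structure H (D : Fin 2 → R → R) (E : R → R) (G : Lay R) (εi μi ali : R) : Prop where
  hD : IsDer D
  hE : IsExp D E
  ok : G.Ok D E
  u : G.Unit D E εi μi ali
  lb : LayBasic D E G

theorem eqc {x y z : R} (c : R) (hz : z = 1) (h : x = y + c * (1 - z)) : x = y := by
  rw [h, hz, sub_self, mul_zero, add_zero]

namespace H

variable (h : H D E G εi μi ali)
include h

theorem Eneg (a : R) : E a * E (-a) = 1 := by rw [← h.hE.add, add_neg_cancel, h.hE.zero]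

theorem dinv {u ui : R} (hu : u * ui = 1) (i : Fin 2) : D i ui = -(ui * ui * D i u) := by
  have h1 := h.hD.mul i u ui
  rw [hu, h.hD.one] at h1
  linear_combination (-ui) * h1 - D i ui * hu

theorem cube (i : Fin 2) (a : R) : D i (a ^ 3) = 3 * a ^ 2 * D i a := by
  rw [pow_succ, h.hD.mul, h.hD.sq]; ring

theorem Tadd (u v : R) : G.T D E (u + v) = G.T D E u + G.T D E v := by
  simp only [Lay.T, h.hD.add]; ring
theorem Tsub (u v : R) : G.T D E (u - v) = G.T D E u - G.T D E v := by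
  simp only [Lay.T, h.hD.sub]; ring
theorem Tneg (u : R) : G.T D E (-u) = -G.T D E u := by
  simp only [Lay.T, h.hD.neg]; ring
theorem Tmul (u v : R) : G.T D E (u * v) = u * G.T D E v + G.T D E u * v := by
  simp only [Lay.T, h.hD.mul]; ring
theorem Tsmul (c : ℝ) (u : R) : G.T D E (c • u) = c • G.T D E u := by
  simp only [Lay.T, h.hD.smul, smul_add, mul_smul_comm]
theorem Tsq (u : R) : G.T D E (u ^ 2) = 2 * u * G.T D E u := by
  simp only [Lay.T, h.hD.sq]; ring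
theorem Tcube (u : R) : G.T D E (u ^ 3) = 3 * u ^ 2 * G.T D E u := by
  simp only [Lay.T, h.cube]; ring
theorem Ttwo : G.T D E 2 = 0 := by
  simp only [Lay.T, h.hD.ofNat]; ring
theorem Tthree : G.T D E 3 = 0 := by
  simp only [Lay.T, h.hD.ofNat]; ring
theorem Xtwo : D 1 (2 : R) = 0 := h.hD.ofNat 1 2
theorem Xthree : D 1 (3 : R) = 0 := h.hD.ofNat 1 3
theorem TE (u : R) : G.T D E (E u) = E u * G.T D E u := by
  simp only [Lay.T, h.hE.der]; ring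
theorem Tε : G.T D E G.ε = 0 := by
  simp only [Lay.T, h.ok.dε]; ring
theorem Dεi (i : Fin 2) : D i εi = 0 := by rw [h.dinv h.u.hε, h.ok.dε, mul_zero, neg_zero]
theorem Tεi : G.T D E εi = 0 := by
  simp only [Lay.T, h.Dεi]; ring
theorem Tμ : G.T D E (G.μ E) = G.μ E * (G.ε * G.μ E * G.τ₁ D E) := h.lb.Tμ
theorem Tinv {u ui : R} (hu : u * ui = 1) : G.T D E ui = -(ui * ui * G.T D E u) := by
  simp only [Lay.T, h.dinv hu]; ring
theorem Tμi : G.T D E μi = -(μi * μi * (G.μ E * (G.ε * G.μ E * G.τ₁ D E))) := by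
  rw [h.Tinv h.u.hμ, h.Tμ]
theorem Tali : G.T D E ali = -(ali * ali * G.T D E (G.al E)) := h.Tinv h.u.hal
theorem Xμ : D 1 (G.μ E) = G.τ₂ D E := rfl
theorem Xμi : D 1 μi = -(μi * μi * G.τ₂ D E) := h.dinv h.u.hμ 1
theorem Xal : D 1 (G.al E) = G.lal D E * G.al E := h.u.lal.symm
theorem Xali : D 1 ali = -(ali * ali * (G.lal D E * G.al E)) := by
  rw [h.dinv h.u.hal, h.Xal]
theorem XT (u : R) : D 1 (G.T D E u) = G.T D E (D 1 u) + G.ε * D 1 (G.b D E) * D 1 u := by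
  simp only [Lay.T, h.hD.add, h.hD.mul, h.hD.comm 0 1, h.ok.dε]; ring
theorem Tτ : G.T D E (G.τ₂ D E) =
    G.ε * (2 * G.μ E * G.τ₂ D E * G.τ₁ D E + G.μ E ^ 2 * D 1 (G.τ₁ D E)) -
      G.ε * D 1 (G.b D E) * G.τ₂ D E := by
  have h1 := h.XT (G.μ E)
  simp only [h.Tμ, h.hD.mul, h.Xμ, h.ok.dε] at h1
  linear_combination -h1
theorem Xe : G.Xe D E = G.ε * G.Xi D E * ali := by
  linear_combination ali * h.u.Xe - G.Xe D E * h.u.hal

theorem eqf [IsReduced R] (x y : R)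
    (hh : ∀ (K : Type) [Field K] [CharZero K] [Algebra ℝ K] (v : R →ₐ[ℝ] K), v G.ε ≠ 0 →
      v (G.μ E) ≠ 0 → v (G.al E) ≠ 0 → (∀ a, v (E a) ≠ 0) → v εi = (v G.ε)⁻¹ →
      v μi = (v (G.μ E))⁻¹ → v ali = (v (G.al E))⁻¹ → (∀ a, v (E (-a)) = (v (E a))⁻¹) →
      (∀ z, v ((1 / 2 : ℝ) • z) = v z / 2) → (∀ z, v ((3 / 2 : ℝ) • z) = 3 * v z / 2) →
      v x = v y) : x = y := by
  refine eq_of_field x y fun K _ _ v => ?_
  have : CharZero K := charZero_of_injective_algebraMap (algebraMap ℝ K).injective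
  have key : ∀ p q : R, p * q = 1 → v p ≠ 0 ∧ v q = (v p)⁻¹ := by
    intro p q hpq
    have h1 : v p * v q = 1 := by rw [← map_mul, hpq, map_one]
    exact ⟨left_ne_zero_of_mul_eq_one h1, eq_inv_of_mul_eq_one_right h1⟩
  have half : ∀ z, v ((1 / 2 : ℝ) • z) = v z / 2 := fun z => by
    rw [map_smul, eq_div_iff two_ne_zero, mul_two, ← add_smul]
    norm_num
  refine hh K v (key _ _ h.u.hε).1 (key _ _ h.u.hμ).1 (key _ _ h.u.hal).1
    (fun a => (key _ _ (h.Eneg a)).1) (key _ _ h.u.hε).2 (key _ _ h.u.hμ).2 (key _ _ h.u.hal).2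
    (fun a => (key _ _ (h.Eneg a)).2) half fun z => ?_
  have e : (3 / 2 : ℝ) • z = (1 / 2 : ℝ) • (3 * z) := by algebra
  rw [e, half, map_mul, map_ofNat]

omit h in
theorem BT (f : R) : (G.blk D E εi μi ali).T D f = G.T D E f := rfl

variable [IsReduced R]

theorem logs :
    (G.blk D E εi μi ali).ta D = G.mt D E + G.T D E (G.al E) * ali + G.T D E G.lA ∧
    (G.blk D E εi μi ali).tc D = 3 * G.mt D E + G.T D E G.lC ∧
    (G.blk D E εi μi ali).xa D = G.τ₂ D E * μi + G.lal D E + D 1 G.lA ∧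
    (G.blk D E εi μi ali).xc D = 3 * G.τ₂ D E * μi + D 1 G.lC ∧
    (G.blk D E εi μi ali).t₁ D = ali * G.yv D E ∧
    (G.blk D E εi μi ali).t₂ D = G.t₂ D E ∧
    (G.blk D E εi μi ali).x₁ D = μi * G.s₁ D E ∧
    (G.blk D E εi μi ali).x₂ D = μi * G.s₂ D E := by
  refine ⟨?_, ?_, ?_, ?_, ?_, ?_, ?_, ?_⟩ <;>
  · simp only [Blk.ta, Blk.tc, Blk.xa, Blk.xc, Blk.t₁, Blk.t₂, Blk.x₁, Blk.x₂, BT]
    simp only [Lay.blk, Lay.mt, Lay.yv, Lay.t₂, Lay.s₁, Lay.s₂, Lay.Sd,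
      h.Tmul, h.Tcube, h.TE, h.Tε, h.Tεi, h.Tμ, h.Tμi, h.Ttwo, h.hD.mul, h.cube,
      h.hE.der, h.ok.dε, h.Dεi, h.Xμ, h.Xμi, h.Xal, h.Xtwo]
    refine h.eqf _ _ fun K _ _ _ v n1 n2 n3 n4 e1 e2 e3 e4 eh eh3 => ?_
    have n5 := n4 G.lA
    have n6 := n4 G.lC
    have n7 := n4 (2 * G.u₁)
    have n8 := n4 (2 * G.u₂)
    simp only [map_add, map_sub, map_mul, map_neg, map_pow, map_ofNat, map_zero, eh, eh3, e1, e2,
      e3, e4]
    field_simp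
    try ring

theorem jl : (G.blk D E εi μi ali).j D = G.j D E ∧ (G.blk D E εi μi ali).l D = μi * G.lh D E := by
  obtain ⟨-, h2, h3, -⟩ := h.logs
  constructor
  · rw [Blk.j, h2]
    simp only [Lay.blk, Lay.j, h.hD.mul, h.ok.dε]
    algebra
  · rw [Blk.l, h3]
    simp only [Lay.lh, Lay.Sd]
    linear_combination (norm := algebra) (-(1 / 2 : ℝ) • (G.lal D E + D 1 G.lA)) * h.u.hμ

theorem all :
    (G.ε * (G.blk D E εi μi ali).e₁ D = G.μ E * G.e₁ D E +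
      ((1 / 2 : ℝ) • G.ε) * (1 - (G.μ E ^ 2 * G.P0 E * G.τ₁ D E + G.Yo D E * G.τ₂ D E))) ∧
    (G.ε * (G.blk D E εi μi ali).e₂ D = G.μ E * G.e₂ D E +
      ((1 / 2 : ℝ) • G.ε) * (1 - (G.μ E ^ 2 * G.P0 E * G.τ₁ D E + G.Yo D E * G.τ₂ D E))) ∧
    (G.ε * (G.blk D E εi μi ali).e22 D = G.μ E * G.e₃ D E +
      ((1 / 2 : ℝ) • G.ε) * (1 - (G.μ E ^ 2 * G.P0 E * G.τ₁ D E + G.Yo D E * G.τ₂ D E))) ∧
    (G.ε * G.μ E ^ 2 * E G.lC * (G.blk D E εi μi ali).e12 D = G.μ E * G.e₄ D E + G.zo D E) ∧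
    (G.ε * ((G.blk D E εi μi ali).e11 D - (G.blk D E εi μi ali).e₁ D) =
      G.μ E * G.al E * G.e₅ D E) ∧
    (∀ f, G.ε * (G.blk D E εi μi ali).lap D (G.T D E f) (D 1 f) = G.μ E * G.lap D E f) ∧
    ((G.blk D E εi μi ali).lap D (G.mt D E) (G.τ₂ D E * μi) + 1 = G.μ E * G.lapmu D E +
      1 * (1 - (G.μ E ^ 2 * G.P0 E * G.τ₁ D E + G.Yo D E * G.τ₂ D E))) ∧
    (G.ε * G.μ E ^ 2 * (G.blk D E εi μi ali).Om D = G.Om D E) := by
  obtain ⟨h1, h2, h3, h4, h5, h6, h7, h8⟩ := h.logs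
  obtain ⟨h9, h10⟩ := h.jl
  refine ⟨?_, ?_, ?_, ?_, ?_, fun f => ?_, ?_, ?_⟩ <;>
  · simp only [Blk.e₁, Blk.e₂, Blk.e11, Blk.e22, Blk.e12, Blk.lap, Blk.H11, Blk.H22, Blk.Xa,
      Blk.y₁, Blk.y₂, Blk.K, Blk.Om, h1, h2, h3, h4, h5, h6, h7, h8, h9, h10, BT]
    simp only [Lay.blk, Lay.e₁, Lay.e₂, Lay.e₃, Lay.e₄, Lay.e₅, Lay.zo, Lay.lap, Lay.lapmu, Lay.Om,
      Lay.K, Lay.Bc, Lay.X₁, Lay.X₂, Lay.Wh, Lay.xt, Lay.th, Lay.base, Lay.Ba, Lay.TaA, Lay.hc,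
      Lay.ek, Lay.Y, h.Xe, Lay.Xi, Lay.j, Lay.lh, Lay.mt, Lay.yv, Lay.t₂, Lay.s₁, Lay.s₂, Lay.Sd,
      h.Tadd, h.Tsub, h.Tneg, h.Tsmul, h.Tsq, h.Tmul, h.Tcube, h.TE, h.Tε, h.Tεi, h.Tμ, h.Tμi,
      h.Tali, h.Tτ, h.Ttwo, h.Tthree, h.XT, h.hD.add, h.hD.sub, h.hD.neg, h.hD.smul, h.hD.sq,
      h.hD.mul, h.cube, h.hE.der, h.ok.dε, h.Dεi, h.Xμ, h.Xμi, h.Xal, h.Xali, h.Xtwo, h.Xthree]
    refine h.eqf _ _ fun K _ _ _ v n1 n2 n3 n4 e1 e2 e3 e4 eh eh3 => ?_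
    have n5 := n4 G.lA
    have n6 := n4 G.lC
    simp only [map_add, map_sub, map_mul, map_neg, map_pow, map_ofNat, map_zero, map_one, eh, eh3,
      e1, e2, e3, e4]
    field_simp
    try ring

theorem curv :
    G.ε * (G.blk D E εi μi ali).kv D 0 = G.μ E * G.k D E 0 ∧
    G.ε * (G.blk D E εi μi ali).kv D 1 = G.μ E * G.k D E 1 ∧
    G.ε * G.μ E * (G.blk D E εi μi ali).kv D 2 = G.k D E 2 ∧
    G.ε * (G.blk D E εi μi ali).kv D 3 = G.μ E * G.k D E 3 ∧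
    G.ε * (G.blk D E εi μi ali).kv D 4 = G.μ E * G.k D E 4 ∧
    G.ε * G.μ E * (G.blk D E εi μi ali).kv D 5 = G.k D E 5 ∧
    G.ε * (G.blk D E εi μi ali).kv D 6 = G.μ E * G.k D E 6 ∧
    G.ε * (G.blk D E εi μi ali).kv D 7 = G.μ E * G.k D E 7 := by
  obtain ⟨h1, h2, h3, h4, h5, h6, h7, h8⟩ := h.logs
  obtain ⟨h9, h10⟩ := h.jl
  refine ⟨?_, ?_, ?_, ?_, ?_, ?_, ?_, ?_⟩ <;>
  · simp only [Blk.kv, Lay.k, Matrix.cons_val, Matrix.cons_val_zero, Matrix.cons_val_one,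
      Blk.k11, Blk.k12, Blk.k22, Blk.k34, Blk.H11, Blk.H22, Blk.H12, Blk.K,
      h1, h2, h3, h4, h5, h6, h7, h8, h9, h10, BT]
    simp only [Lay.blk, Lay.K, Lay.th, Lay.Ba, Lay.TaA, Lay.hc,
      Lay.ek, h.Xe, Lay.Xi, Lay.j, Lay.lh, Lay.mt, Lay.yv, Lay.t₂, Lay.s₁, Lay.s₂, Lay.Sd,
      h.Tadd, h.Tsub, h.Tneg, h.Tsmul, h.Tsq, h.Tmul, h.Tcube, h.TE, h.Tε, h.Tεi, h.Tμ, h.Tμi,
      h.Tali, h.Tτ, h.Ttwo, h.Tthree, h.XT, h.hD.add, h.hD.sub, h.hD.neg, h.hD.smul, h.hD.sq,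
      h.hD.mul, h.cube, h.hE.der, h.ok.dε, h.Dεi, h.Xμ, h.Xμi, h.Xal, h.Xali, h.Xtwo, h.Xthree]
    refine h.eqf _ _ fun K _ _ _ v n1 n2 n3 n4 e1 e2 e3 e4 eh eh3 => ?_
    have n5 := n4 G.lA
    have n6 := n4 G.lC
    simp only [map_add, map_sub, map_mul, map_neg, map_pow, map_ofNat, map_zero, map_one, eh, eh3,
      e1, e2, e3, e4]
    field_simp
    try ring

theorem okB : (G.blk D E εi μi ali).Ok := by
  constructor <;>
  · simp only [Lay.blk]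
    refine h.eqf _ _ fun K _ _ _ v n1 n2 n3 n4 e1 e2 e3 e4 eh eh3 => ?_
    have n5 := n4 G.lA
    have n6 := n4 G.lC
    have n7 := n4 (2 * G.u₁)
    have n8 := n4 (2 * G.u₂)
    simp only [map_mul, map_pow, map_one, e1, e2, e3, e4]
    field_simp

end H

end LayHg

theorem layHG (lb : LayBasicStmt) : LayHGStmt := by
  intro R _ _ _ D E G εi μi ali hD hE h16 ok u
  have h : LayHg.H D E G εi μi ali := ⟨hD, hE, ok, u, lb R D E G hD hE h16 ok⟩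
  obtain ⟨a1, a2, a3, a4, a5, a6, a7, a8⟩ := h.all
  obtain ⟨k0, k1, k2, k3, k4, k5, k6, k7⟩ := h.curv
  refine ⟨h.okB, LayHg.eqc _ h.lb.det a1, LayHg.eqc _ h.lb.det a2, LayHg.eqc _ h.lb.det a3, a4,
    a5, fun i n2 n5 => ?_, ?_, a6, LayHg.eqc _ h.lb.det a7, a8⟩
  · fin_cases i
    exacts [k0, k1, absurd rfl n2, k3, k4, absurd rfl n5, k6, k7]
  · rintro i (rfl | rfl)
    exacts [k2, k5]

end Pool.Agent.Lib.MP_df9110_gt
end
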