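import Pool.Agent.Lib.MP_df9110_gt.NLin

-- part Pool.Agent.Lib.MP_df9110_gt.En
section

/-! The basic energy estimate. -/

namespace Pool.Agent.Lib.MP_df9110_gt

open Filter Topology MeasureTheory
open scoped ContDiff

namespace EnAux

/-- The integral. -/
noncomputable def I (f : Pt → ℝ) : ℝ := ∫ y, f y

/-- The coordinate functions. -/
def co (i : Fin 4) (y : Pt) : ℝ := y i

theorem co_cd (i : Fin 4) : ContDiff ℝ ∞ (co i) := contDiff_apply ℝ ℝ i

theorem pd_co (i k : Fin 4) : pd k (co i) = fun _ => if i = k then 1 else 0 := by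
  funext y
  have : fderiv ℝ (co i) y = ContinuousLinearMap.proj (R := ℝ) (φ := fun _ : Fin 4 => ℝ) i :=
    (ContinuousLinearMap.proj (R := ℝ) (φ := fun _ : Fin 4 => ℝ) i).fderiv
  rw [pd, this]
  simp [Pi.single_apply]

theorem cc_int {u : Pt → ℝ} (h : CC u) : Integrable u :=
  h.1.continuous.integrable_of_hasCompactSupport h.2

theorem cc_mul {f u : Pt → ℝ} (hf : ContDiff ℝ ∞ f) (hu : CC u) : CC (f * u) :=
  ⟨hf.mul hu.1, hu.2.mul_left⟩

theorem cc_add {u v : Pt → ℝ} (hu : CC u) (hv : CC v) : CC (u + v) :=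
  ⟨hu.1.add hv.1, hu.2.add hv.2⟩

theorem cc_smul (c : ℝ) {u : Pt → ℝ} (hu : CC u) : CC (c • u) :=
  cc_mul (f := fun _ => c) contDiff_const hu

theorem cc_sum {ι : Type} (s : Finset ι) {u : ι → Pt → ℝ} (hu : ∀ i, CC (u i)) :
    CC (∑ i ∈ s, u i) :=
  Finset.sum_induction u CC (fun _ _ => cc_add) ⟨contDiff_const, HasCompactSupport.zero⟩
    fun i _ => hu i

theorem I_add {u v : Pt → ℝ} (hu : CC u) (hv : CC v) : I (u + v) = I u + I v :=
  integral_add (cc_int hu) (cc_int hv)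

theorem I_smul (c : ℝ) (u : Pt → ℝ) : I (c • u) = c * I u := integral_const_mul c u

theorem I_sum {ι : Type} (s : Finset ι) {u : ι → Pt → ℝ} (hu : ∀ i, CC (u i)) :
    I (∑ i ∈ s, u i) = ∑ i ∈ s, I (u i) := by
  unfold I
  simp only [Finset.sum_apply]
  exact integral_finsetSum s fun i _ => cc_int (hu i)

theorem I_mono {u v : Pt → ℝ} (hu : CC u) (hv : CC v) (h : ∀ y, u y ≤ v y) : I u ≤ I v :=
  integral_mono (cc_int hu) (cc_int hv) h

theorem I_sq_nonneg (u : Pt → ℝ) : 0 ≤ I (u * u) :=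
  integral_nonneg fun y => mul_self_nonneg (u y)

theorem pd_cd {f : Pt → ℝ} (hf : ContDiff ℝ ∞ f) (i : Fin 4) : ContDiff ℝ ∞ (pd i f) :=
  contDiff_pdn hf i

theorem pd_mul {f g : Pt → ℝ} (hf : ContDiff ℝ ∞ f) (hg : ContDiff ℝ ∞ g) (i : Fin 4) :
    pd i (f * g) = f * pd i g + pd i f * g :=
  funext fun p => pdn_mul (hf.differentiable (by simp) p) (hg.differentiable (by simp) p) i

theorem pd_comm {f : Pt → ℝ} (hf : ContDiff ℝ ∞ f) (i j : Fin 4) :
    pd i (pd j f) = pd j (pd i f) := funext fun _ => pdn_comm hf.contDiffAt i j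

/-- The `L²` norm. -/
noncomputable def N (u : Pt → ℝ) : ℝ := √(I (u * u))

theorem N_nonneg (u : Pt → ℝ) : 0 ≤ N u := Real.sqrt_nonneg _

theorem N_sq (u : Pt → ℝ) : I (u * u) = N u * N u := (Real.mul_self_sqrt (I_sq_nonneg u)).symm

theorem cs {u v : Pt → ℝ} (hu : CC u) (hv : CC v) : |I (u * v)| ≤ N u * N v := by
  have h : ∀ x : ℝ, 0 ≤ I (u * u) * (x * x) + 2 * I (u * v) * x + I (v * v) := fun x => by
    have e : (x • u + v) * (x • u + v) = (x * x) • (u * u) + ((2 * x) • (u * v) + v * v) := by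
      funext y
      simp only [Pi.mul_apply, Pi.add_apply, Pi.smul_apply, smul_eq_mul]
      ring
    have := I_sq_nonneg (x • u + v)
    rw [e, I_add (cc_smul _ (cc_mul hu.1 hu))
      (cc_add (cc_smul _ (cc_mul hu.1 hv)) (cc_mul hv.1 hv)),
      I_add (cc_smul _ (cc_mul hu.1 hv)) (cc_mul hv.1 hv), I_smul, I_smul] at this
    linarith
  have h2 := discrim_le_zero h
  rw [discrim] at h2
  rw [N, N, ← Real.sqrt_mul (I_sq_nonneg u)]
  exact Real.abs_le_sqrt (by nlinarith)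

variable (l0 : L0Facts)
include l0

theorem nn_eq (u : Pt → ℝ) : nn 0 0 u = N u := by
  simp only [nn, l0.wt_zero, one_mul, N, I, Pi.mul_apply, sq]

theorem ibp2 {f u w : Pt → ℝ} (hf : ContDiff ℝ ∞ f) (hu : CC u) (hw : CC w) (i : Fin 4) :
    I (f * u * pd i w) = - I (f * pd i u * w) - I (pd i f * u * w) := by
  have h : I (f * u * pd i w) = - I (pd i (f * u) * w) := l0.ibp (hf.mul hu.1) hw i
  rw [h, pd_mul hf hu.1, add_mul, I_add (cc_mul (f := f * pd i u) (hf.mul (pd_cd hu.1 i)) hw)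
    (cc_mul (f := pd i f * u) ((pd_cd hf i).mul hu.1) hw)]
  ring

theorem ibp1 {u w : Pt → ℝ} (hu : CC u) (hw : CC w) (i : Fin 4) :
    I (u * pd i w) = - I (pd i u * w) := l0.ibp hu.1 hw i

theorem rad {u : Pt → ℝ} (hu : CC u) (i : Fin 4) :
    I (co i * pd i u * u) = - (1 / 2) * I (u * u) := by
  have h := ibp2 l0 (co_cd i) hu hu i
  have e : pd i (co i) * u * u = u * u := by
    rw [pd_co]; funext y; simp
  rw [e, mul_right_comm] at h
  linarith

theorem rad2 {v : Pt → ℝ} (hv : CC v) (k : Fin 4) :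
    ∑ i, I (co i * pd i v * pd k (pd k v)) = I (pd k v * pd k v) := by
  have h : ∀ i, I (co i * pd i v * pd k (pd k v)) =
      1 / 2 * I (pd k v * pd k v) - if i = k then I (pd k v * pd k v) else 0 := fun i => by
    rw [ibp2 l0 (co_cd i) (l0.cc_pd hv i) (l0.cc_pd hv k) k, pd_comm hv.1 k i,
      rad l0 (l0.cc_pd hv k) i, pd_co]
    split_ifs with h
    · subst h
      have e : (fun _ : Pt => (1 : ℝ)) * pd i v * pd i v = pd i v * pd i v := by
        funext y; simp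
      rw [e]; ring
    · have e : (fun _ : Pt => (0 : ℝ)) * pd i v * pd k v = (0 : ℝ) • pd i v := by
        funext y; simp
      rw [e, I_smul]; ring
  simp only [h, Finset.sum_sub_distrib, Finset.sum_ite_eq', Finset.mem_univ, if_true,
    Finset.sum_const, Finset.card_univ, Fintype.card_fin, nsmul_eq_mul]
  push_cast
  ring

theorem top2 {a v : Pt → ℝ} (ha : ContDiff ℝ ∞ a) (hv : CC v) (i j k : Fin 4) :
    I (a * pd i (pd j v) * pd k (pd k v)) = I (a * pd i (pd k v) * pd j (pd k v)) +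
      I (pd i a * pd k v * pd j (pd k v)) - I (pd k a * pd k v * pd i (pd j v)) := by
  have h1 := ibp2 l0 ha (l0.cc_pd (l0.cc_pd hv j) i) (l0.cc_pd hv k) k
  have h2 := ibp2 l0 ha (l0.cc_pd hv k) (l0.cc_pd (l0.cc_pd hv k) j) i
  rw [pd_comm (pd_cd hv.1 j) k i, pd_comm hv.1 k j, mul_right_comm a _ (pd k v),
    mul_right_comm (pd k a) _ (pd k v)] at h1
  linarith

theorem err {b u w : Pt → ℝ} {K : ℝ} (hb : ContDiff ℝ ∞ b) (hK : 0 ≤ K)
    (h : ∀ y, |b y| ≤ K * wt (-1) y) (hu : CC u) (hw : CC w) :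
    |I (b * u * w)| ≤ K * nn 0 (-1) u * N w := by
  refine (cs (cc_mul hb hu) hw).trans (mul_le_mul_of_nonneg_right ?_ (N_nonneg _))
  rw [← nn_eq l0]
  refine l0.nn_le 0 (-1) K (cc_mul hb hu) hu hK fun y => ?_
  rw [l0.wt_zero, one_mul, Pi.mul_apply, abs_mul, abs_mul, abs_of_pos (l0.wt_pos _ _), ← mul_assoc]
  exact mul_le_mul_of_nonneg_right (h y) (abs_nonneg _)

variable {a : Fin 4 → Fin 4 → Pt → ℝ} {K : ℝ}

omit l0 in
theorem a_cd (h : Ell a 1 K) (i j : Fin 4) : ContDiff ℝ ∞ (a i j) :=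
  contDiff_iff_contDiffAt.2 fun y => (h.sym i j).1 y trivial

theorem a_bd (h : Ell a 1 K) (i j k : Fin 4) (y : Pt) : |pd k (a i j) y| ≤ K * wt (-1) y := by
  have := (h.bd i j y trivial).2 k
  rwa [l0.wt_zero, mul_one] at this

omit l0 in
theorem ell (h : Ell a 1 K) {u : Fin 4 → Pt → ℝ} (hu : ∀ i, CC (u i)) :
    K⁻¹ * ∑ i, N (u i) * N (u i) ≤ ∑ i, ∑ j, I (a i j * u i * u j) := by
  have c1 : ∀ i, CC (u i * u i) := fun i => cc_mul (hu i).1 (hu i)
  have c2 : ∀ i j, CC (a i j * u i * u j) := fun i j =>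
    cc_mul ((a_cd h i j).mul (hu i).1) (hu j)
  simp only [← N_sq, ← I_sum _ (c2 _)]
  rw [← I_sum _ c1, ← I_sum _ fun i => cc_sum _ (c2 i), ← I_smul]
  refine I_mono (cc_smul _ (cc_sum _ c1)) (cc_sum _ fun i => cc_sum _ (c2 i)) fun y => ?_
  have := h.ell y fun i => u i y
  simpa only [nsq, qf, Pi.smul_apply, Finset.sum_apply, Pi.mul_apply, smul_eq_mul, sq,
    mul_assoc] using this

omit l0 in
theorem lsc_eq (lam : ℝ) (v : Pt → ℝ) : Lsc a lam v = ∑ i, ∑ j, a i j * pd i (pd j v) +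
    ((1 / 2 : ℝ) • ∑ i, co i * pd i v + (-lam) • v) := by
  funext y
  simp only [Lsc, Pi.add_apply, Pi.smul_apply, Finset.sum_apply, Pi.mul_apply, smul_eq_mul, co]
  ring

theorem lsc_cc (h : Ell a 1 K) (lam : ℝ) {v : Pt → ℝ} (hv : CC v) : CC (Lsc a lam v) := by
  rw [lsc_eq]
  exact cc_add (cc_sum _ fun i => cc_sum _ fun j =>
    cc_mul (a_cd h i j) (l0.cc_pd (l0.cc_pd hv j) i))
    (cc_add (cc_smul _ (cc_sum _ fun i => cc_mul (co_cd i) (l0.cc_pd hv i))) (cc_smul _ hv))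

omit l0 in
theorem expand (h : Ell a 1 K) (lam : ℝ) {v z : Pt → ℝ} (hv : CC v) (hz : CC z) :
    I (Lsc a lam v * z) = ∑ i, ∑ j, I (a i j * pd i (pd j v) * z) +
      1 / 2 * ∑ i, I (co i * pd i v * z) - lam * I (v * z) := by
  have c1 : ∀ i j, CC (a i j * pd i (pd j v) * z) := fun i j =>
    cc_mul ((a_cd h i j).mul (pd_cd (pd_cd hv.1 j) i)) hz
  have c2 : ∀ i, CC (co i * pd i v * z) := fun i => cc_mul ((co_cd i).mul (pd_cd hv.1 i)) hz
  have c3 : CC (v * z) := cc_mul hv.1 hz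
  have e : Lsc a lam v * z = ∑ i, ∑ j, a i j * pd i (pd j v) * z +
      ((1 / 2 : ℝ) • ∑ i, co i * pd i v * z + (-lam) • (v * z)) := by
    rw [lsc_eq]
    simp only [add_mul, Finset.sum_mul, smul_mul_assoc]
  rw [e, I_add (cc_sum _ fun i => cc_sum _ (c1 i))
    (cc_add (cc_smul _ (cc_sum _ c2)) (cc_smul _ c3)),
    I_add (cc_smul _ (cc_sum _ c2)) (cc_smul _ c3), I_smul, I_smul, I_sum _ c2,
    I_sum _ fun i => cc_sum _ (c1 i)]
  simp only [I_sum _ (c1 _)]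
  ring

omit l0 in
theorem sum16 {f : Fin 4 → Fin 4 → ℝ} {c : ℝ} (h : ∀ i j, |f i j| ≤ c) :
    |∑ i, ∑ j, f i j| ≤ 16 * c := by
  refine (Finset.abs_sum_le_sum_abs _ _).trans ?_
  refine (Finset.sum_le_sum fun i _ => (Finset.abs_sum_le_sum_abs _ _).trans
    (Finset.sum_le_sum fun j _ => h i j)).trans ?_
  simp only [Finset.sum_const, Finset.card_univ, Fintype.card_fin, nsmul_eq_mul]
  push_cast
  linarith

theorem first (h : Ell a 1 K) (hK : 0 ≤ K) (μ : ℝ) {v : Pt → ℝ} (hv : CC v) :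
    μ * (N v * N v) + K⁻¹ * ∑ i, N (pd i v) * N (pd i v) ≤
      (N (Lsc a (μ - 1) v) + 16 * (K * nn 1 (-1) v)) * N v := by
  have h1 := expand h (μ - 1) hv hv
  have h2 : ∀ i j, I (a i j * pd i (pd j v) * v) =
      - I (a i j * pd i v * pd j v) - I (pd i (a i j) * pd j v * v) := fun i j => by
    rw [mul_right_comm, ibp2 l0 (a_cd h i j) hv (l0.cc_pd hv j) i,
      mul_right_comm (pd i (a i j)) v]
  have h3 : |∑ i, ∑ j, I (pd i (a i j) * pd j v * v)| ≤ 16 * (K * nn 1 (-1) v * N v) :=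
    sum16 fun i j => (err l0 (pd_cd (a_cd h i j) i) hK (a_bd l0 h i j i) (l0.cc_pd hv j) hv).trans
      (mul_le_mul_of_nonneg_right (mul_le_mul_of_nonneg_left (l0.nn_succ 0 _ hv j) hK)
        (N_nonneg _))
  have h4 := ell h fun i => l0.cc_pd hv i
  have h5 := cs (lsc_cc l0 h (μ - 1) hv) hv
  simp only [h2, rad l0 hv, Finset.sum_sub_distrib, Finset.sum_neg_distrib, Finset.sum_const,
    Finset.card_univ, Fintype.card_fin, nsmul_eq_mul, N_sq v] at h1
  push_cast at h1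
  have := (abs_le.1 h3).1
  have := (abs_le.1 h5).1
  linarith

theorem nn2_le {v : Pt → ℝ} (hv : CC v) (i j : Fin 4) : N (pd i (pd j v)) ≤ nn 2 0 v := by
  rw [← nn_eq l0]
  exact (l0.nn_succ 0 0 (l0.cc_pd hv j) i).trans (l0.nn_succ 1 0 hv j)

theorem second (h : Ell a 1 K) (hK : 0 ≤ K) {μ : ℝ} (hμ : 0 ≤ μ) {v : Pt → ℝ} (hv : CC v)
    (k : Fin 4) : K⁻¹ * ∑ i, N (pd i (pd k v)) * N (pd i (pd k v)) ≤
      (N (Lsc a (μ - 1) v) + 32 * (K * nn 1 (-1) v)) * nn 2 0 v +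
        1 / 2 * (N (pd k v) * N (pd k v)) := by
  have hw := l0.cc_pd hv k
  have h1 := expand h (μ - 1) hv (l0.cc_pd hw k)
  have hb : ∀ {b : Pt → ℝ}, ContDiff ℝ ∞ b → (∀ y, |b y| ≤ K * wt (-1) y) → ∀ i j,
      |I (b * pd k v * pd i (pd j v))| ≤ K * nn 1 (-1) v * nn 2 0 v := fun hb h' i j =>
    (err l0 hb hK h' hw (l0.cc_pd (l0.cc_pd hv j) i)).trans
      (mul_le_mul (mul_le_mul_of_nonneg_left (l0.nn_succ 0 _ hv k) hK) (nn2_le l0 hv i j)
        (N_nonneg _) (mul_nonneg hK (l0.nn_nonneg _ _ _)))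
  have h3 : |∑ i, ∑ j, I (pd i (a i j) * pd k v * pd j (pd k v))| ≤ _ :=
    sum16 fun i j => hb (pd_cd (a_cd h i j) i) (a_bd l0 h i j i) j k
  have h3' : |∑ i, ∑ j, I (pd k (a i j) * pd k v * pd i (pd j v))| ≤ _ :=
    sum16 fun i j => hb (pd_cd (a_cd h i j) k) (a_bd l0 h i j k) i j
  have h4 := ell h fun i => l0.cc_pd hw i
  have h5 := (cs (lsc_cc l0 h (μ - 1) hv) (l0.cc_pd hw k)).trans
    (mul_le_mul_of_nonneg_left (nn2_le l0 hv k k) (N_nonneg _))
  simp only [fun i j => top2 l0 (a_cd h i j) hv i j k, rad2 l0 hv, ibp1 l0 hv hw,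
    Finset.sum_sub_distrib, Finset.sum_add_distrib, N_sq (pd k v)] at h1
  have := (abs_le.1 h3).1
  have := (abs_le.1 h3').2
  have := (abs_le.1 h5).2
  have := mul_nonneg hμ (mul_self_nonneg (N (pd k v)))
  linarith

omit l0 in
theorem le_of_sq {x p q : ℝ} (hp : 0 ≤ p) (hq : 0 ≤ q) (h : x * x ≤ p * x + q * q) :
    x ≤ p + q := by
  by_contra hc
  rw [not_le] at hc
  nlinarith

omit l0 in
theorem term_le {f : Fin 4 → ℝ} (i : Fin 4) : f i * f i ≤ ∑ j, f j * f j :=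
  Finset.single_le_sum (f := fun j => f j * f j) (fun _ _ => mul_self_nonneg _) (Finset.mem_univ i)

end EnAux

open EnAux in
theorem en (_b1 : B1Stmt) (l0 : L0Facts) : EnStmt := by
  refine ⟨20, fun K a hK h μ hμ v hv => ?_⟩
  have hK0 : 0 < K := by linarith
  have hμ0 : 0 < μ := (inv_pos.2 hK0).trans_le hμ
  have hKμ : 1 ≤ K * μ := by rwa [inv_le_iff_one_le_mul₀' hK0] at hμ
  have h1 := first l0 h hK0.le μ hv
  have h2 := second l0 h hK0.le hμ0.le hv
  rw [nn_eq l0, nn_eq l0]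
  have hG := N_nonneg (Lsc a (μ - 1) v)
  have hW := l0.nn_nonneg 1 (-1) v
  have hS := l0.nn_nonneg 2 0 v
  have hN := N_nonneg v
  have e1 : nn 1 0 v = ∑ i, N (pd i v) := Finset.sum_congr rfl fun i _ => nn_eq l0 _
  have e2 : nn 2 0 v = ∑ k, ∑ i, N (pd i (pd k v)) :=
    Finset.sum_congr rfl fun k _ => Finset.sum_congr rfl fun i _ => nn_eq l0 _
  generalize N (Lsc a (μ - 1) v) = G at *
  generalize nn 1 (-1) v = W at *
  obtain ⟨F, hF⟩ : ∃ F, F = G + 32 * (K * W) := ⟨_, rfl⟩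
  have hKW := mul_nonneg hK0.le hW
  have hF0 : 0 ≤ F := by linarith
  rw [← hF] at h2
  replace h1 : μ * (N v * N v) + K⁻¹ * ∑ i, N (pd i v) * N (pd i v) ≤ F * N v :=
    h1.trans (mul_le_mul_of_nonneg_right (by linarith) hN)
  have hE : 0 ≤ ∑ i, N (pd i v) * N (pd i v) := Finset.sum_nonneg fun i _ => mul_self_nonneg _
  have hE' := mul_nonneg (inv_pos.2 hK0).le hE
  have a1 : μ * N v ≤ F := by
    rcases hN.eq_or_lt with h0 | h0
    · rw [← h0, mul_zero]; exact hF0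
    · exact le_of_mul_le_mul_right (by linarith) h0
  have a2 : ∀ i, μ * (N (pd i v) * N (pd i v)) ≤ K * (F * F) := fun i => by
    have b1 : K⁻¹ * (N (pd i v) * N (pd i v)) ≤ F * N v := by
      have := mul_le_mul_of_nonneg_left (term_le (f := fun i => N (pd i v)) i) (inv_pos.2 hK0).le
      have := mul_nonneg hμ0.le (mul_self_nonneg (N v))
      linarith
    rw [inv_mul_le_iff₀ hK0] at b1
    calc _ ≤ μ * (K * (F * N v)) := mul_le_mul_of_nonneg_left b1 hμ0.le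
      _ = K * F * (μ * N v) := by ring
      _ ≤ K * F * F := mul_le_mul_of_nonneg_left a1 (mul_nonneg hK0.le hF0)
      _ = _ := by ring
  have hFF := mul_self_nonneg F
  have a3 : ∀ i, √μ * N (pd i v) ≤ K * F := fun i => by
    refine abs_le_of_sq_le_sq' ?_ (mul_nonneg hK0.le hF0) |>.2
    rw [mul_pow, Real.sq_sqrt hμ0.le, sq, sq]
    have : K * (F * F) ≤ K * K * (F * F) := mul_le_mul_of_nonneg_right (by nlinarith) hFF
    linarith [a2 i]
  have a4 : ∀ i, N (pd i v) * N (pd i v) ≤ K * K * (F * F) := fun i => by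
    have := mul_le_mul_of_nonneg_left (a2 i) hK0.le
    have := mul_le_mul_of_nonneg_right hKμ (mul_self_nonneg (N (pd i v)))
    linarith
  generalize nn 2 0 v = S at *
  obtain ⟨Q, hQ⟩ : ∃ Q, Q = K * F * S + K * K * F * (K * K * F) := ⟨_, rfl⟩
  have hQ0 : 0 ≤ Q := by rw [hQ]; positivity
  have a5 : ∀ k i, |N (pd i (pd k v))| ≤ √Q := fun k i => by
    refine Real.abs_le_sqrt ?_
    have b1 := (mul_le_mul_of_nonneg_left (term_le (f := fun i => N (pd i (pd k v))) i)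
      (inv_pos.2 hK0).le).trans (h2 k)
    rw [inv_mul_le_iff₀ hK0] at b1
    have b2 := mul_le_mul_of_nonneg_left (a4 k) hK0.le
    have b3 : K * (K * K * (F * F)) ≤ K * (K * (K * K * (F * F))) :=
      le_mul_of_one_le_left (by positivity) (by linarith)
    have b4 : 0 ≤ K * (K * K * (F * F)) := by positivity
    rw [sq, hQ]
    linarith
  have a6 : S ≤ 256 * (K * F) + 16 * (K * K * F) := by
    have b1 : S ≤ 16 * √Q := by
      rw [e2]
      exact (le_abs_self _).trans (sum16 a5)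
    refine le_of_sq (by positivity) (by positivity) ?_
    have b2 := mul_self_le_mul_self hS b1
    have b3 := Real.mul_self_sqrt hQ0
    nlinarith
  have a7 : √μ * nn 1 0 v ≤ 4 * (K * F) := by
    rw [e1, Fin.sum_univ_four]
    linarith [a3 0, a3 1, a3 2, a3 3]
  have c1 : F ≤ 32 * K * (G + W) := by nlinarith
  have c2 : F ≤ K * F := le_mul_of_one_le_left hF0 (by linarith)
  have c3 : K * F ≤ K * K * F := by nlinarith
  have c4 : K * K * F ≤ K * K * (32 * K * (G + W)) := mul_le_mul_of_nonneg_left c1 (by positivity)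
  have c5 : (2 : ℝ) ^ 17 ≤ K ^ 17 := pow_le_pow_left₀ (by norm_num) hK 17
  have c6 : 0 ≤ K ^ 3 * (G + W) := by positivity
  calc _ ≤ 277 * (K * K * F) := by linarith
    _ ≤ 2 ^ 17 * (K ^ 3 * (G + W)) := by nlinarith
    _ ≤ K ^ 17 * (K ^ 3 * (G + W)) := mul_le_mul_of_nonneg_right c5 c6
    _ = _ := by ring

end Pool.Agent.Lib.MP_df9110_gt
end

-- part Pool.Agent.Lib.MP_df9110_gt.Lev
section

/-! The weighted energy estimate at every level. -/

namespace Pool.Agent.Lib.MP_df9110_gt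

open Filter Topology MeasureTheory
open scoped ContDiff

namespace Lev

section Alg

variable {R : Type} [CommRing R] [Algebra ℝ R] {D : Fin 4 → R → R}

/-- The operator `Lsc` in a differential algebra. -/
noncomputable def gLs (D : Fin 4 → R → R) (A : Fin 4 → Fin 4 → R) (Y : Fin 4 → R) (lam : ℝ)
    (U : R) : R :=
  ∑ i, ∑ j, A i j * D i (D j U) + (1 / 2 : ℝ) • ∑ i, Y i * D i U - lam • U

theorem gLs_der (hD : IsDer D) (A : Fin 4 → Fin 4 → R) (Y : Fin 4 → R)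
    (hY : ∀ i j, D i (Y j) = if i = j then 1 else 0) (lam : ℝ) (U : R) (i : Fin 4) :
    gLs D A Y (lam - 1 / 2) (D i U) =
      D i (gLs D A Y lam U) - ∑ j, ∑ k, D i (A j k) * D j (D k U) := by
  have h1 : ∀ j k, D i (D j (D k U)) = D j (D k (D i U)) := fun j k => by
    rw [hD.comm i j, hD.comm i k]
  have h2 : ∀ j, D i (D j U) = D j (D i U) := fun j => hD.comm i j U
  simp only [gLs, hD.add, hD.sub, hD.smul, hD.sum, hD.mul, hY, h1, h2, Finset.sum_add_distrib,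
    ite_mul, one_mul, zero_mul, Finset.sum_ite_eq, Finset.mem_univ, if_true, smul_add, sub_smul]
  abel

theorem gLs_mul (hD : IsDer D) (A : Fin 4 → Fin 4 → R) (Y : Fin 4 → R) (lam c : ℝ) (W U : R) :
    gLs D A Y (lam + c) (W * U) = W * gLs D A Y lam U +
      ∑ i, ∑ j, A i j * (D i W * D j U + D j W * D i U + D i (D j W) * U) +
      ((1 / 2 : ℝ) • ∑ i, Y i * D i W - c • W) * U := by
  simp only [gLs, hD.add, hD.mul, Fin.sum_univ_four]
  algebra

end Alg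

theorem cd_pd {f : Pt → ℝ} (hf : ContDiff ℝ ∞ f) (i : Fin 4) : ContDiff ℝ ∞ (pd i f) :=
  contDiff_pdn hf i

theorem pd_mul {f g : Pt → ℝ} (hf : ContDiff ℝ ∞ f) (hg : ContDiff ℝ ∞ g) (i : Fin 4) :
    pd i (f * g) = f * pd i g + pd i f * g :=
  funext fun p => pdn_mul (hf.differentiable (by simp) p) (hg.differentiable (by simp) p) i

theorem pd_add {f g : Pt → ℝ} (hf : ContDiff ℝ ∞ f) (hg : ContDiff ℝ ∞ g) (i : Fin 4) :
    pd i (f + g) = pd i f + pd i g :=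
  funext fun p => pdn_add (hf.differentiable (by simp) p) (hg.differentiable (by simp) p) i

theorem cd_coord (i : Fin 4) : ContDiff ℝ ∞ fun y : Pt => y i := contDiff_apply ℝ ℝ i

/-- The coordinate functions. -/
def co (i : Fin 4) : Sm 4 := ⟨fun y => y i, cd_coord i⟩

theorem smD_co (i j : Fin 4) : smD i (co j) = if i = j then 1 else 0 := by
  refine Subtype.ext (funext fun p => ?_)
  have h : fderiv ℝ (fun y : Pt => y j) p = ContinuousLinearMap.proj j :=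
    (ContinuousLinearMap.proj (R := ℝ) (φ := fun _ : Fin 4 => ℝ) j).fderiv
  change fderiv ℝ (fun y : Pt => y j) p (Pi.single i 1) = _
  rw [h]
  by_cases hij : i = j
  · subst hij; simp
  · simp [hij, Ne.symm hij]

theorem val_gLs (A : Fin 4 → Fin 4 → Sm 4) (lam : ℝ) (U : Sm 4) :
    (gLs smD A co lam U).1 = Lsc (fun i j => (A i j).1) lam U.1 := by
  funext y
  change (Sm 4).val (gLs smD A co lam U) y = _
  simp only [gLs, map_sub, map_add, map_sum, map_mul, map_smul, smD_val]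
  simp [Lsc, co, pd_eq_pdn]

theorem Lsc_pd {a : Fin 4 → Fin 4 → Pt → ℝ} (ha : ∀ i j, ContDiff ℝ ∞ (a i j)) (lam : ℝ)
    {u : Pt → ℝ} (hu : ContDiff ℝ ∞ u) (i : Fin 4) :
    Lsc a (lam - 1 / 2) (pd i u) =
      pd i (Lsc a lam u) - ∑ j, ∑ k, pd i (a j k) * pd j (pd k u) := by
  have h := congrArg (Sm 4).val
    (gLs_der isDer_smD (fun i j => (⟨a i j, ha i j⟩ : Sm 4)) co smD_co lam ⟨u, hu⟩ i)
  simp only [map_sub, map_sum, map_mul, smD_val] at h
  simp only [Subalgebra.coe_val, val_gLs] at h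
  exact h

theorem Lsc_mul {a : Fin 4 → Fin 4 → Pt → ℝ} (ha : ∀ i j, ContDiff ℝ ∞ (a i j)) (lam c : ℝ)
    {w u : Pt → ℝ} (hw : ContDiff ℝ ∞ w) (hu : ContDiff ℝ ∞ u) :
    Lsc a (lam + c) (w * u) = w * Lsc a lam u +
      ∑ i, ∑ j, a i j * (pd i w * pd j u + pd j w * pd i u + pd i (pd j w) * u) +
      ((1 / 2 : ℝ) • ∑ i, (fun y : Pt => y i) * pd i w - c • w) * u := by
  have h := congrArg (Sm 4).val
    (gLs_mul isDer_smD (fun i j => (⟨a i j, ha i j⟩ : Sm 4)) co lam c ⟨w, hw⟩ ⟨u, hu⟩)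
  simp only [map_sub, map_add, map_sum, map_smul, smD_val, map_mul (Sm 4).val] at h
  simp only [Subalgebra.coe_val, val_gLs] at h
  exact h

theorem cc_zero : CC (0 : Pt → ℝ) := ⟨contDiff_const, HasCompactSupport.zero⟩

section Norm

variable (l0 : L0Facts)
include l0

theorem cc_smul {u : Pt → ℝ} (hu : CC u) (c : ℝ) : CC (c • u) :=
  l0.cc_mul (f := fun _ => c) contDiff_const hu

theorem cc_sub {u v : Pt → ℝ} (hu : CC u) (hv : CC v) : CC (u - v) := by
  have h := l0.cc_add hu (cc_smul l0 hv (-1))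
  rwa [neg_one_smul, ← sub_eq_add_neg] at h

theorem cc_sum {κ : Type} (s : Finset κ) {f : κ → Pt → ℝ} (hf : ∀ i, CC (f i)) :
    CC (∑ i ∈ s, f i) := by
  classical
  induction s using Finset.induction_on with
  | empty => simpa using cc_zero
  | insert a s ha ih => rw [Finset.sum_insert ha]; exact l0.cc_add (hf a) ih

theorem nn_zero (k : ℕ) (γ : ℝ) : nn k γ 0 = 0 := by
  simpa using l0.nn_smul k γ 0 cc_zero

theorem nn_sub (k : ℕ) (γ : ℝ) {u v : Pt → ℝ} (hu : CC u) (hv : CC v) :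
    nn k γ (u - v) ≤ nn k γ u + nn k γ v := by
  have h := l0.nn_add k γ hu (cc_smul l0 hv (-1))
  rw [l0.nn_smul k γ (-1) hv, neg_one_smul, ← sub_eq_add_neg] at h
  simpa using h

theorem nn_sum (k : ℕ) (γ : ℝ) {κ : Type} (s : Finset κ) {f : κ → Pt → ℝ} (hf : ∀ i, CC (f i)) :
    nn k γ (∑ i ∈ s, f i) ≤ ∑ i ∈ s, nn k γ (f i) := by
  classical
  induction s using Finset.induction_on with
  | empty => simp [nn_zero l0]
  | insert a s ha ih =>
    rw [Finset.sum_insert ha, Finset.sum_insert ha]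
    exact (l0.nn_add k γ (hf a) (cc_sum l0 s hf)).trans (by linarith)

theorem cc_Lsc {a : Fin 4 → Fin 4 → Pt → ℝ} (ha : ∀ i j, ContDiff ℝ ∞ (a i j)) (lam : ℝ)
    {u : Pt → ℝ} (hu : CC u) : CC (Lsc a lam u) := by
  have e : Lsc a lam u = ∑ i, ∑ j, a i j * pd i (pd j u) +
      (1 / 2 : ℝ) • ∑ i, (fun y : Pt => y i) * pd i u - lam • u := by
    funext y; simp [Lsc]
  rw [e]
  exact cc_sub l0 (l0.cc_add
    (cc_sum l0 _ fun i => cc_sum l0 _ fun j => l0.cc_mul (ha i j) (l0.cc_pd (l0.cc_pd hu j) i))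
    (cc_smul l0 (cc_sum l0 _ fun i => l0.cc_mul (cd_coord i) (l0.cc_pd hu i)) _)) (cc_smul l0 hu _)

theorem cd_wt (g : ℝ) : ContDiff ℝ ∞ (wt g) :=
  contDiff_iff_contDiffAt.2 fun y => (l0.wt_sym g).1 y trivial

theorem nn_mul {φ u : Pt → ℝ} (hφ : ContDiff ℝ ∞ φ) (hu : CC u) (γ m : ℝ) {γ' A : ℝ} (hA : 0 ≤ A)
    (hγ : γ' = γ + m) (h : ∀ y, |φ y| ≤ A * wt m y) : nn 0 γ (φ * u) ≤ A * nn 0 γ' u := by
  refine l0.nn_le γ γ' A (l0.cc_mul hφ hu) hu hA fun y => ?_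
  have h1 := l0.wt_pos γ y
  have h2 := l0.wt_pos m y
  rw [hγ, l0.wt_add, Pi.mul_apply, abs_mul, abs_mul, abs_mul, abs_mul, abs_of_pos h1,
    abs_of_pos h2]
  calc wt γ y * (|φ y| * |u y|) ≤ wt γ y * (A * wt m y * |u y|) := by
        gcongr; exact h y
    _ = _ := by ring

theorem nn_wt (γ g : ℝ) (u : Pt → ℝ) : nn 0 γ (wt g * u) = nn 0 (γ + g) u := by
  simp only [nn, l0.wt_add, Pi.mul_apply, mul_assoc]

theorem nn_interp {u : Pt → ℝ} (hu : CC u) (g : ℝ) {t c : ℝ} (ht : 0 ≤ t) (hc : 0 ≤ c) :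
    t * c * nn 0 (g - 1) u ≤ t ^ 2 * nn 0 g u + c ^ 2 * nn 0 (g - 2) u := by
  have h1 := l0.cc_mul (cd_wt l0 g) hu
  have h2 := l0.cc_mul (cd_wt l0 (g - 2)) hu
  have h3 := l0.nn_le (g - 1) 0 1 (cc_smul l0 hu (t * c))
    (l0.cc_add (cc_smul l0 h1 (t ^ 2)) (cc_smul l0 h2 (c ^ 2))) zero_le_one fun y => by
      have e1 : wt (g - 1) y = wt (g - 2) y * wt 1 y := by
        rw [← l0.wt_add]; congr 1; ring
      have e2 : wt g y = wt (g - 2) y * wt 1 y * wt 1 y := by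
        rw [← l0.wt_add, ← l0.wt_add]; congr 1; ring
      have p1 := l0.wt_pos (g - 2) y
      have p2 := l0.wt_pos 1 y
      have e3 : wt (g - 1) y * (t * c * u y) = (wt (g - 2) y * (t * wt 1 y * c)) * u y := by
        rw [e1]; ring
      have e4 : t ^ 2 * (wt g y * u y) + c ^ 2 * (wt (g - 2) y * u y) =
          (wt (g - 2) y * ((t * wt 1 y) ^ 2 + c ^ 2)) * u y := by
        rw [e2]; ring
      simp only [Pi.add_apply, Pi.smul_apply, Pi.mul_apply, smul_eq_mul, l0.wt_zero, one_mul]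
      rw [e3, e4, abs_mul _ (u y), abs_mul _ (u y), abs_of_nonneg (by positivity),
        abs_of_nonneg (show 0 ≤ wt (g - 2) y * ((t * wt 1 y) ^ 2 + c ^ 2) by positivity)]
      have h4 : t * wt 1 y * c ≤ (t * wt 1 y) ^ 2 + c ^ 2 := by
        nlinarith [sq_nonneg (t * wt 1 y - c), mul_nonneg (mul_nonneg ht p2.le) hc]
      gcongr
  have h5 := l0.nn_add 0 0 (cc_smul l0 h1 (t ^ 2)) (cc_smul l0 h2 (c ^ 2))
  rw [l0.nn_smul _ _ _ h1, l0.nn_smul _ _ _ h2, nn_wt l0, nn_wt l0, zero_add, zero_add,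
    abs_of_nonneg (sq_nonneg t), abs_of_nonneg (sq_nonneg c)] at h5
  rw [l0.nn_smul _ _ _ hu, abs_of_nonneg (mul_nonneg ht hc)] at h3
  linarith

theorem wt_bd (g : ℝ) : ∃ C : ℝ, 0 ≤ C ∧ (∀ i y, |pd i (wt g) y| ≤ C * wt (g - 1) y) ∧
    ∀ i j y, |pd i (pd j (wt g)) y| ≤ C * wt (g - 2) y := by
  obtain ⟨C, hC⟩ := (l0.wt_sym g).2 2
  obtain ⟨h0, h1⟩ := l0.succ.1 hC
  refine ⟨C, ?_, fun i y => (l0.succ.1 (h1 i)).1 y trivial, fun i j y => ?_⟩
  · have h2 := (abs_nonneg _).trans (h0 0 trivial)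
    exact nonneg_of_mul_nonneg_left h2 (l0.wt_pos g 0)
  · have h3 : |pd i (pd j (wt g)) y| ≤ C * wt (g - 1 - 1) y :=
      (l0.succ.1 (h1 j)).2 i y trivial
    rwa [show g - 1 - 1 = g - 2 by ring] at h3

theorem radial (g : ℝ) :
    ((1 / 2 : ℝ) • ∑ i, (fun y : Pt => y i) * pd i (wt g) - (g / 2) • wt g) =
      (-(g / 2)) • wt (g - 2) := by
  funext y
  have e : wt g y = wt (g - 2) y * (1 + nsq y) := by
    rw [← l0.wt_two, ← l0.wt_add]; congr 1; ring
  simp only [Pi.sub_apply, Pi.smul_apply, Pi.add_apply, Pi.mul_apply, smul_eq_mul, l0.wt_pd, e,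
    nsq, Fin.sum_univ_four]
  ring

theorem yn_nonneg (t s : ℕ) (δ : ℝ) (u : Pt → ℝ) : 0 ≤ Yn t s δ u :=
  Finset.sum_nonneg fun _ _ => l0.nn_nonneg _ _ _

theorem nn_le_yn (s : ℕ) (δ : ℝ) (u : Pt → ℝ) : nn s (δ - 2 + s) u ≤ Yn s s δ u := by
  have h := Finset.single_le_sum (f := fun k => nn k (δ - 2 + (min k s : ℕ)) u)
    (fun k _ => l0.nn_nonneg _ _ _) (Finset.self_mem_range_succ s)
  simpa [Yn] using h

theorem yn_pd (s : ℕ) (δ : ℝ) {u : Pt → ℝ} (hu : CC u) (i : Fin 4) :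
    Yn s s δ (pd i u) ≤ Yn (s + 1) (s + 1) (δ - 1) u := by
  unfold Yn
  rw [Finset.sum_range_succ' _ (s + 1)]
  refine le_add_of_le_of_nonneg (Finset.sum_le_sum fun k hk => ?_) (l0.nn_nonneg _ _ _)
  have e : δ - 2 + ((min k s : ℕ) : ℝ) = δ - 1 - 2 + ((min (k + 1) (s + 1) : ℕ) : ℝ) := by
    rw [Nat.add_min_add_right]; push_cast; ring
  rw [← e]
  exact l0.nn_succ k _ hu i

end Norm

/-- The estimate at level `s` for all real `δ`. -/
def Lv (p s : ℕ) : Prop := ∀ δ : ℝ, ∃ C : ℝ, 0 ≤ C ∧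
  ∀ (K K' : ℝ) a, 2 ≤ K → Ell a 1 K → (∀ i j, Sym 0 (s + 1) (a i j) K') →
  ∀ lam : ℝ, K⁻¹ ≤ lam + δ / 2 → ∀ u, CC u →
  (lam + δ / 2) * nn s (δ - 2 + s) u + √(lam + δ / 2) * nn (s + 1) (δ - 2 + s) u +
      nn (s + 2) (δ - 2 + s) u ≤
    K ^ p * (nn s (δ - 2 + s) (Lsc a lam u) + C * (1 + K') * Yn (s + 1) (s + 1) (δ - 2) u)

theorem ell_cd {a : Fin 4 → Fin 4 → Pt → ℝ} {k : ℕ} {K : ℝ} (h : Ell a k K) (i j : Fin 4) :
    ContDiff ℝ ∞ (a i j) := contDiff_iff_contDiffAt.2 fun y => (h.sym i j).1 y trivial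

theorem step (l0 : L0Facts) (pr : ProdFacts) (p s : ℕ) (ih : Lv p s) : Lv p (s + 1) := by
  intro δ
  obtain ⟨C, hC0, hC⟩ := ih (δ + 1)
  obtain ⟨M, hM0, hM⟩ := pr.mul s s δ (-1)
  refine ⟨4 * C + 64 * M, by positivity, fun K K' a hK ha ha' lam hlam u hu => ?_⟩
  have hcd := ell_cd ha
  have hK' : 0 ≤ K' := by
    have h1 := (abs_nonneg _).trans ((l0.succ.1 (ha' 0 0)).1 0 trivial)
    rwa [l0.wt_zero, mul_one] at h1
  obtain ⟨γ, hγ⟩ : ∃ γ : ℝ, γ = δ - 2 + ((s + 1 : ℕ) : ℝ) := ⟨_, rfl⟩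
  obtain ⟨Y, hY⟩ : ∃ Y : ℝ, Y = Yn (s + 1 + 1) (s + 1 + 1) (δ - 2) u := ⟨_, rfl⟩
  have hY0 : 0 ≤ Y := hY ▸ yn_nonneg l0 _ _ _ _
  have e1 : δ + 1 - 2 + (s : ℝ) = γ := by rw [hγ]; push_cast; ring
  have e2 : lam - 1 / 2 + (δ + 1) / 2 = lam + δ / 2 := by ring
  have hL := cc_Lsc l0 hcd lam hu
  have key : ∀ i, (lam + δ / 2) * nn s γ (pd i u) + √(lam + δ / 2) * nn (s + 1) γ (pd i u) +
      nn (s + 2) γ (pd i u) ≤
      K ^ p * (nn s γ (pd i (Lsc a lam u)) + (C + 16 * M) * (1 + K') * Y) := by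
    intro i
    have h1 := hC K K' a hK ha (fun j k => l0.mono (ha' j k) le_rfl le_rfl (by omega) le_rfl)
      (lam - 1 / 2) (by rwa [e2]) (pd i u) (l0.cc_pd hu i)
    rw [e1, e2] at h1
    refine h1.trans (mul_le_mul_of_nonneg_left ?_ (by positivity))
    have h2 : Yn (s + 1) (s + 1) (δ + 1 - 2) (pd i u) ≤ Y := by
      have h := yn_pd l0 (s + 1) (δ + 1 - 2) hu i
      rwa [show δ + 1 - 2 - 1 = δ - 2 by ring, ← hY] at h
    have hcc : ∀ j k, CC (pd i (a j k) * pd j (pd k u)) := fun j k =>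
      l0.cc_mul (cd_pd (hcd j k) i) (l0.cc_pd (l0.cc_pd hu k) j)
    have h3 : ∀ j k, nn s γ (pd i (a j k) * pd j (pd k u)) ≤ M * K' * Y := by
      intro j k
      have h4 : Sym (-1) s (pd i (a j k)) K' :=
        l0.mono ((l0.succ.1 (ha' j k)).2 i) le_rfl (by norm_num) (by omega) le_rfl
      have h5 := hM _ _ K' (cd_pd (hcd j k) i) (l0.cc_pd (l0.cc_pd hu k) j) h4
      have h6 := nn_le_yn l0 s (δ - -1) (pd i (a j k) * pd j (pd k u))
      rw [show δ - -1 - 2 + (s : ℝ) = γ by rw [← e1]; ring] at h6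
      have h7 := yn_pd l0 s δ (l0.cc_pd hu k) j
      have h8 := yn_pd l0 (s + 1) (δ - 1) hu k
      rw [show δ - 1 - 1 = δ - 2 by ring, ← hY] at h8
      exact h6.trans (h5.trans (mul_le_mul_of_nonneg_left (h7.trans h8) (by positivity)))
    have h9 : nn s γ (∑ j, ∑ k, pd i (a j k) * pd j (pd k u)) ≤ 16 * (M * K' * Y) := by
      refine (nn_sum l0 s γ _ fun j => cc_sum l0 _ (hcc j)).trans ?_
      refine (Finset.sum_le_sum fun j _ => (nn_sum l0 s γ _ (hcc j)).trans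
        (Finset.sum_le_sum fun k _ => h3 j k)).trans (le_of_eq ?_)
      simp only [Finset.sum_const, Finset.card_univ, Fintype.card_fin, nsmul_eq_mul]
      push_cast; ring
    have h10 := nn_sub l0 s γ (l0.cc_pd hL i) (cc_sum l0 Finset.univ fun j => cc_sum l0 Finset.univ (hcc j))
    rw [← Lsc_pd hcd lam hu.1 i] at h10
    have h11 := mul_le_mul_of_nonneg_left h2 (show 0 ≤ C * (1 + K') by positivity)
    have h12 : 0 ≤ M * Y := by positivity
    nlinarith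
  have h := Finset.sum_le_sum fun i (_ : i ∈ Finset.univ) => key i
  rw [← hγ, ← hY]
  simp only [Finset.sum_add_distrib, ← Finset.mul_sum, Finset.sum_const, Finset.card_univ,
    Fintype.card_fin, nsmul_eq_mul] at h
  refine le_of_eq_of_le rfl (h.trans (le_of_eq ?_))
  change _ = K ^ p * (∑ i, nn s γ (pd i (Lsc a lam u)) + _)
  push_cast; ring

theorem base (l0 : L0Facts) (en : EnStmt) : ∃ p, Lv p 0 := by
  obtain ⟨p, hp⟩ := en
  refine ⟨p + 1, fun δ => ?_⟩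
  obtain ⟨g, hg⟩ : ∃ g : ℝ, g = δ - 2 := ⟨_, rfl⟩
  obtain ⟨C, hC0, hC1, hC2⟩ := wt_bd l0 g
  refine ⟨48 * C + |g| + 1 + 4 * C + (16 * C ^ 2 + 48 * C), by positivity,
    fun K K' a hK ha ha' lam hlam u hu => ?_⟩
  have hcd := ell_cd ha
  have hab : ∀ i j y, |a i j y| ≤ K' * wt 0 y := fun i j y => (l0.succ.1 (ha' i j)).1 y trivial
  have hK' : 0 ≤ K' := by
    have h1 := (abs_nonneg _).trans (hab 0 0 0)
    rwa [l0.wt_zero, mul_one] at h1
  have hw := cd_wt l0 g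
  have hv : CC (wt g * u) := l0.cc_mul hw hu
  have hμ : 0 ≤ lam + δ / 2 := le_trans (by positivity) hlam
  have hE := hp K a hK ha (lam + δ / 2) hlam _ hv
  obtain ⟨Y, hY⟩ : ∃ Y : ℝ, Y = nn 0 (g - 2) u + nn 1 (g - 1) u := ⟨_, rfl⟩
  have hYe : Yn (0 + 1) (0 + 1) (δ - 2) u = Y := by
    rw [hY, hg]
    simp only [Yn, Finset.sum_range_succ, Finset.range_zero, Finset.sum_empty]
    norm_num
    congr 1; ring
  have y0 : nn 0 (g - 2) u ≤ Y := by rw [hY]; linarith [l0.nn_nonneg 1 (g - 1) u]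
  have y1 : nn 1 (g - 1) u ≤ Y := by rw [hY]; linarith [l0.nn_nonneg 0 (g - 2) u]
  have y2 : ∀ i, nn 0 (g - 1) (pd i u) ≤ Y := fun i => (l0.nn_succ 0 _ hu i).trans y1
  have hY0 : 0 ≤ Y := (l0.nn_nonneg _ _ _).trans y0
  have c1 : ∀ i j, CC (pd i (wt g) * pd j u) := fun i j => l0.cc_mul (cd_pd hw i) (l0.cc_pd hu j)
  have c2 : ∀ i j, CC (pd i (pd j (wt g)) * u) := fun i j => l0.cc_mul (cd_pd (cd_pd hw j) i) hu
  have c3 : ∀ i j, CC (pd i (wt g) * pd j u + pd j (wt g) * pd i u + pd i (pd j (wt g)) * u) :=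
    fun i j => l0.cc_add (l0.cc_add (c1 i j) (c1 j i)) (c2 i j)
  have b1 : ∀ i j, nn 0 0 (pd i (wt g) * pd j u) ≤ C * Y := fun i j =>
    (nn_mul l0 (cd_pd hw i) (l0.cc_pd hu j) 0 (g - 1) hC0 (zero_add _).symm (hC1 i)).trans
      (mul_le_mul_of_nonneg_left (y2 j) hC0)
  have b2 : ∀ i j, nn 0 0 (pd i (pd j (wt g)) * u) ≤ C * Y := fun i j =>
    (nn_mul l0 (cd_pd (cd_pd hw j) i) hu 0 (g - 2) hC0 (zero_add _).symm (hC2 i j)).trans
      (mul_le_mul_of_nonneg_left y0 hC0)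
  have b3 : ∀ i j, nn 0 0 (pd i (wt g) * pd j u + pd j (wt g) * pd i u + pd i (pd j (wt g)) * u)
      ≤ 3 * (C * Y) := fun i j => by
    have h1 := l0.nn_add 0 0 (l0.cc_add (c1 i j) (c1 j i)) (c2 i j)
    have h2 := l0.nn_add 0 0 (c1 i j) (c1 j i)
    linarith [b1 i j, b1 j i, b2 i j]
  -- the left side
  have n0 : nn 0 0 (wt g * u) = nn 0 g u := by rw [nn_wt l0, zero_add]
  have n1 : nn 1 g u ≤ nn 1 0 (wt g * u) + 4 * C * nn 0 (g - 1) u := by
    have h1 : ∀ i, nn 0 g (pd i u) ≤ nn 0 0 (pd i (wt g * u)) + C * nn 0 (g - 1) u := by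
      intro i
      have h2 := nn_sub l0 0 0 (l0.cc_pd hv i) (l0.cc_mul (cd_pd hw i) hu)
      have h3 := nn_mul l0 (cd_pd hw i) hu 0 (g - 1) hC0 (zero_add _).symm (hC1 i)
      have e : pd i (wt g * u) - pd i (wt g) * u = wt g * pd i u := by
        rw [pd_mul hw hu.1]; ring
      rw [e, nn_wt l0, zero_add] at h2
      linarith
    have h := Finset.sum_le_sum fun i (_ : i ∈ Finset.univ) => h1 i
    simp only [Finset.sum_add_distrib, Finset.sum_const, Finset.card_univ,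
      Fintype.card_fin, nsmul_eq_mul] at h
    refine le_of_eq_of_le rfl (h.trans (le_of_eq ?_))
    change _ = (∑ i, nn 0 0 (pd i (wt g * u))) + _
    push_cast; ring
  have n2 : nn 2 g u ≤ nn 2 0 (wt g * u) + 48 * (C * Y) := by
    have h1 : ∀ j i, nn 0 g (pd i (pd j u)) ≤ nn 0 0 (pd i (pd j (wt g * u))) + 3 * (C * Y) := by
      intro j i
      have h2 := nn_sub l0 0 0 (l0.cc_pd (l0.cc_pd hv j) i) (c3 i j)
      have e : pd i (pd j (wt g * u)) -
          (pd i (wt g) * pd j u + pd j (wt g) * pd i u + pd i (pd j (wt g)) * u) =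
          wt g * pd i (pd j u) := by
        rw [pd_mul hw hu.1, pd_add (f := wt g * pd j u) (g := pd j (wt g) * u)
          (hw.mul (cd_pd hu.1 j)) ((cd_pd hw j).mul hu.1),
          pd_mul hw (cd_pd hu.1 j), pd_mul (cd_pd hw j) hu.1]
        ring
      rw [e, nn_wt l0, zero_add] at h2
      linarith [b3 i j]
    have h := Finset.sum_le_sum fun j (_ : j ∈ Finset.univ) =>
      Finset.sum_le_sum fun i (_ : i ∈ Finset.univ) => h1 j i
    simp only [Finset.sum_add_distrib, Finset.sum_const, Finset.card_univ,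
      Fintype.card_fin, nsmul_eq_mul] at h
    refine le_of_eq_of_le rfl (h.trans (le_of_eq ?_))
    change _ = (∑ j, ∑ i, nn 0 0 (pd i (pd j (wt g * u)))) + _
    push_cast; ring
  have n3 := nn_interp l0 hu g (Real.sqrt_nonneg (lam + δ / 2)) (show 0 ≤ 4 * C by positivity)
  rw [Real.sq_sqrt hμ] at n3
  -- the right side
  have r1 : nn 1 (-1) (wt g * u) ≤ Y + 4 * (C * Y) := by
    have h1 : ∀ i, nn 0 (-1) (pd i (wt g * u)) ≤ nn 0 (g - 1) (pd i u) + C * Y := by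
      intro i
      have h2 := l0.nn_add 0 (-1) (l0.cc_mul hw (l0.cc_pd hu i)) (l0.cc_mul (cd_pd hw i) hu)
      have h3 := nn_mul l0 (cd_pd hw i) hu (-1) (g - 1) (γ' := g - 2) hC0 (by ring) (hC1 i)
      rw [← pd_mul hw hu.1, nn_wt l0, show -1 + g = g - 1 by ring] at h2
      linarith [mul_le_mul_of_nonneg_left y0 hC0]
    have h := Finset.sum_le_sum fun i (_ : i ∈ Finset.univ) => h1 i
    simp only [Finset.sum_add_distrib, Finset.sum_const, Finset.card_univ,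
      Fintype.card_fin, nsmul_eq_mul] at h
    have h4 : ∑ i, nn 0 (g - 1) (pd i u) ≤ Y := y1
    refine le_of_eq_of_le rfl (h.trans ?_)
    push_cast
    linarith
  have r2 : nn 0 0 (Lsc a (lam + δ / 2 - 1) (wt g * u)) ≤
      nn 0 g (Lsc a lam u) + 48 * K' * (C * Y) + |g| * Y := by
    have c4 : ∀ i j, CC (a i j *
        (pd i (wt g) * pd j u + pd j (wt g) * pd i u + pd i (pd j (wt g)) * u)) :=
      fun i j => l0.cc_mul (hcd i j) (c3 i j)
    have c5 := cc_sum l0 Finset.univ fun i => cc_sum l0 Finset.univ (c4 i)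
    have c6 := l0.cc_mul hw (cc_Lsc l0 hcd lam hu)
    have c7 := l0.cc_mul (cd_wt l0 (g - 2)) hu
    have h1 := l0.nn_add 0 0 (l0.cc_add c6 c5) (cc_smul l0 c7 (-(g / 2)))
    have h2 := l0.nn_add 0 0 c6 c5
    have h3 : nn 0 0 (∑ i, ∑ j, a i j *
        (pd i (wt g) * pd j u + pd j (wt g) * pd i u + pd i (pd j (wt g)) * u)) ≤
        48 * K' * (C * Y) := by
      refine (nn_sum l0 0 0 _ fun i => cc_sum l0 _ (c4 i)).trans ?_
      refine (Finset.sum_le_sum fun i _ => (nn_sum l0 0 0 _ (c4 i)).trans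
        (Finset.sum_le_sum fun j _ =>
          (nn_mul l0 (hcd i j) (c3 i j) 0 0 hK' (zero_add _).symm (hab i j)).trans
            (mul_le_mul_of_nonneg_left (b3 i j) hK'))).trans (le_of_eq ?_)
      simp only [Finset.sum_const, Finset.card_univ, Fintype.card_fin, nsmul_eq_mul]
      push_cast; ring
    rw [l0.nn_smul _ _ _ c7, nn_wt l0 0 (g - 2), zero_add] at h1
    rw [nn_wt l0, zero_add] at h2
    have h4 : |(-(g / 2))| * nn 0 (g - 2) u ≤ |g| * Y := by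
      refine mul_le_mul ?_ y0 (l0.nn_nonneg _ _ _) (abs_nonneg _)
      rw [abs_neg, abs_div, abs_two]
      linarith [abs_nonneg g]
    rw [show lam + δ / 2 - 1 = lam + g / 2 by rw [hg]; ring, Lsc_mul hcd lam (g / 2) hw hu.1,
      radial l0, smul_mul_assoc]
    linarith
  rw [hYe, show δ - 2 + ((0 : ℕ) : ℝ) = g by rw [hg]; simp]
  rw [n0] at hE
  have hKp : 1 ≤ K ^ p := one_le_pow₀ (by linarith)
  have s0 := Real.sqrt_nonneg (lam + δ / 2)
  have q1 := mul_le_mul_of_nonneg_left n1 s0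
  have q2 := mul_nonneg s0 (l0.nn_nonneg 1 0 (wt g * u))
  have q3 := l0.nn_nonneg 2 0 (wt g * u)
  have q4 := l0.nn_nonneg 0 g (Lsc a lam u)
  have q5 := mul_le_mul_of_nonneg_left y0 (sq_nonneg (4 * C))
  have q6 : (lam + δ / 2) * nn 0 g u + √(lam + δ / 2) * nn (0 + 1) g u + nn (0 + 2) g u ≤
      2 * (K ^ p * (nn 0 0 (Lsc a (lam + δ / 2 - 1) (wt g * u)) + nn 1 (-1) (wt g * u))) +
        (16 * C ^ 2 + 48 * C) * Y := by
    simp only [zero_add]
    nlinarith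
  have q7 : nn 0 0 (Lsc a (lam + δ / 2 - 1) (wt g * u)) + nn 1 (-1) (wt g * u) ≤
      nn 0 g (Lsc a lam u) + (48 * C + |g| + 1 + 4 * C) * (1 + K') * Y := by
    have t1 : 0 ≤ C * Y := by positivity
    have t2 : 0 ≤ K' * Y := by positivity
    have t3 : 0 ≤ K' * (C * Y) := by positivity
    have t4 : 0 ≤ |g| * (K' * Y) := by positivity
    nlinarith
  have q8 : (16 * C ^ 2 + 48 * C) * Y ≤ K ^ p * ((16 * C ^ 2 + 48 * C) * (1 + K') * Y) := by
    have t1 : 0 ≤ (16 * C ^ 2 + 48 * C) * Y := by positivity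
    have t2 : (16 * C ^ 2 + 48 * C) * Y ≤ (16 * C ^ 2 + 48 * C) * (1 + K') * Y := by
      nlinarith [mul_nonneg t1 hK']
    exact t2.trans (le_mul_of_one_le_left (t1.trans t2) hKp)
  have q9 := mul_le_mul_of_nonneg_left q7 (show 0 ≤ K ^ p by positivity)
  have q10 : 0 ≤ K ^ p * (nn 0 g (Lsc a lam u) +
      (48 * C + |g| + 1 + 4 * C + (16 * C ^ 2 + 48 * C)) * (1 + K') * Y) := by positivity
  have q11 := mul_le_mul_of_nonneg_right hK q10
  have q12 : 0 ≤ K ^ p * ((16 * C ^ 2 + 48 * C) * (1 + K') * Y) := by positivity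
  rw [pow_succ]
  nlinarith

end Lev

theorem lev (_ : B1Stmt) (l0 : L0Facts) (pr : ProdFacts) (en : EnStmt) : LevStmt := by
  obtain ⟨p, hp⟩ := Lev.base l0 en
  have h : ∀ s, Lev.Lv p s := fun s => by
    induction s with
    | zero => exact hp
    | succ s ih => exact Lev.step l0 pr p s ih
  exact ⟨p, fun δ s _ => h s δ⟩

end Pool.Agent.Lib.MP_df9110_gt
end
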