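import Pool.Agent.Lib.MP_df9110_gt.NPln

/-! The scalar curvature of the link in the collars of the two collapsing circles. -/

namespace Pool.Agent.Lib.MP_df9110_gt

open Filter Topology Set
open scoped ContDiff

namespace LinkLay

/-! ### Values of germs along a map -/

section Val

variable {α : Type} {l : Filter Z2} {lc : Filter α} {Γ : α → Z2}

noncomputable instance algG (lc : Filter α) : Algebra ℝ (Germ lc ℝ) :=
  Algebra.ofModule
    (fun r x y => Germ.inductionOn₂ x y fun f g => congrArg Germ.ofFun (smul_mul_assoc r f g))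
    (fun r x y => Germ.inductionOn₂ x y fun f g => congrArg Germ.ofFun (mul_smul_comm r f g))

noncomputable def evF (l : Filter Z2) (lc : Filter α) (Γ : α → Z2) : SmF l →ₐ[ℝ] Germ lc ℝ where
  toFun F := Germ.ofFun fun z => F.1 (Γ z).1 (Γ z).2
  map_one' := rfl
  map_mul' _ _ := rfl
  map_zero' := rfl
  map_add' _ _ := rfl
  commutes' c := by
    rw [Algebra.algebraMap_eq_smul_one, Algebra.algebraMap_eq_smul_one]
    rfl

noncomputable def ev (h : Tendsto Γ lc l) : SG l →ₐ[ℝ] Germ lc ℝ :=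
  Ideal.Quotient.liftₐ (nullF l) (evF l lc Γ) fun _ hF => Germ.coe_eq.2 (h.eventually hF)

/-- The value along `Γ`. -/
noncomputable def V (Γ : α → Z2) (φ : SG l) (z : α) : ℝ := val φ (Γ z)

theorem ev_eq (h : Tendsto Γ lc l) (φ : SG l) : ev h φ = (V Γ φ : Germ lc ℝ) := by
  conv_lhs => rw [← mkG_rep φ]
  rfl

theorem val_mk (F : SmF l) : ∀ᶠ z in l, val (mkG l F) z = F.1 z.1 z.2 := mkG_eq.1 (mkG_rep _)

theorem val_gm {F : ℝ → En 2 → ℝ} (h : F ∈ SmF l) : ∀ᶠ z in l, val (gm l F) z = F z.1 z.2 := by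
  rw [gm_eq h]; exact val_mk _

theorem val_zero : ∀ᶠ z in l, val (0 : SG l) z = 0 := by
  simpa using val_mk (0 : SmF l)

theorem val_exp (B : B2Facts l 1) (φ : SG l) : ∀ᶠ z in l, val (expG φ) z = Real.exp (val φ z) :=
  val_gm (B.exp_mk (rep φ)).2

theorem val_pb {l' : Filter Z2} {Φ : ℝ → En 2 → En 2} (h : IsPull l l' Φ) (φ : SG l) :
    ∀ᶠ z in l', val (h.hom φ) z = val φ (z.1, Φ z.1 z.2) := by
  rw [← pb_eq]; exact val_gm (h.mem (rep φ))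

theorem chain {f : En 2 → ℝ} {γ : ℝ → En 2} {x a b : ℝ} (hf : ContDiffAt ℝ ∞ f (γ x))
    (hγ : HasDerivAt γ ![a, b] x) :
    HasDerivAt (fun y => f (γ y)) (a * pdn 0 f (γ x) + b * pdn 1 f (γ x)) x := by
  have e : (![a, b] : En 2) = a • Pi.single 0 1 + b • Pi.single 1 1 := by
    ext i; fin_cases i <;> simp
  have := (hf.differentiableAt (by simp)).hasFDerivAt.comp_hasDerivAt x hγ
  rw [e, map_add, map_smul, map_smul] at this
  exact this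

theorem val_der (φ : SG l) : ∀ᶠ z in l, ∀ (γ : ℝ → En 2) (x a b : ℝ), γ x = z.2 →
    HasDerivAt γ ![a, b] x →
    HasDerivAt (fun y => val φ (z.1, γ y)) (a * val (gD 0 φ) z + b * val (gD 1 φ) z) x := by
  filter_upwards [(rep φ).2, val_mk (sfD l 0 (rep φ)), val_mk (sfD l 1 (rep φ))]
    with z h1 h2 h3 γ x a b e hγ
  rw [← e] at h1
  have := chain h1 hγ
  rw [e] at this
  rw [gD, gD, h2, h3]
  exact this

end Val

/-! ### Algebra on the link -/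

section Alg

variable {R S : Type} [CommRing R] [Algebra ℝ R] [CommRing S] [Algebra ℝ S] {D : Fin 2 → R → R}
  {E : R → R} {G : Lay R} (φ : R →ₐ[ℝ] S)

theorem T_mul (hD : IsDer D) (f g : R) : G.T D E (f * g) = f * G.T D E g + G.T D E f * g := by
  simp only [Lay.T, hD.mul]; ring

theorem T_exp (hE : IsExp D E) (f : R) : G.T D E (E f) = E f * G.T D E f := by
  simp only [Lay.T, hE.der]; ring

theorem T_two (hD : IsDer D) (f : R) : G.T D E (2 * f) = 2 * G.T D E f := by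
  simp only [Lay.T, two_mul, hD.add]; ring

theorem a_mt (h0 : φ (G.μ E) = 0) : φ (G.mt D E) = 0 := by simp [Lay.mt, h0]

theorem a_b (h0 : φ (G.μ E) = 0) (lb : LayBasic D E G) :
    φ (G.b D E) * φ (G.P0 E) * φ (D 1 (G.μ E)) = -1 := by
  have := congrArg φ lb.b₁
  simp only [Lay.P1, Lay.τ₂, map_sub, map_mul, map_neg, map_pow, map_one, h0] at this
  linear_combination this

theorem a_yv (h0 : φ (G.μ E) = 0) :
    2 * φ (G.yv D E) = φ (G.T D E (G.al E)) + 2 * φ (G.al E) * φ (G.T D E G.u₁) := by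
  simp only [Lay.yv, map_add, map_mul, map_sub, map_smul, a_mt φ h0]
  algebra

theorem a_t (h0 : φ (G.μ E) = 0) : φ (G.t₂ D E) = φ (G.T D E G.u₂) := by
  simp [Lay.t₂, a_mt φ h0]

theorem a_f (h0 : φ (G.μ E) = 0) (hD : IsDer D) (hE : IsExp D E) :
    φ (G.T D E (G.al E * E (2 * G.u₁))) = 2 * φ (G.yv D E) * φ (E (2 * G.u₁)) := by
  rw [a_yv φ h0, T_mul hD, T_exp hE, T_two hD]
  simp only [map_add, map_mul, map_ofNat]
  ring

theorem a_g (h0 : φ (G.μ E) = 0) (hD : IsDer D) (hE : IsExp D E) :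
    φ (G.T D E (E (2 * G.u₂))) = 2 * φ (G.t₂ D E) * φ (E (2 * G.u₂)) := by
  rw [a_t φ h0, T_exp hE, T_two hD]
  simp only [map_mul, map_ofNat]
  ring

theorem a_A (hD : IsDer D) (hE : IsExp D E) : φ (G.T D E (G.al E * E G.lA)) =
    φ (E G.lA) * φ (G.T D E (G.al E)) + φ (G.al E) * φ (E G.lA) * φ (G.T D E G.lA) := by
  rw [T_mul hD, T_exp hE]
  simp only [map_add, map_mul]
  ring

theorem a_Ao (h0 : φ (G.μ E) = 0) (hE : IsExp D E) (ok : G.Ok D E) :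
    φ (E G.lc) * φ (G.P1 D E) ^ 2 * φ (E (-G.lAo)) = 1 := by
  have e : E G.lAo * E (-G.lAo) = 1 := by rw [← hE.add, add_neg_cancel, hE.zero]
  have := congrArg φ e
  rw [ok.lAo] at this
  simpa [Lay.Ao, h0] using this

theorem a_C (h0 : φ (G.μ E) = 0) (hE : IsExp D E) (ok : G.Ok D E) (lb : LayBasic D E G) :
    φ (E G.lC) * φ (G.τ₂ D E) ^ 2 = 4 * φ (E G.la) * φ (E (2 * G.gam)) := by
  have := a_Ao φ h0 hE ok
  rw [Lay.lC, hE.add, lb.Cl]
  simp only [Lay.P1, map_mul, map_neg, map_pow, map_ofNat] at this ⊢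
  linear_combination 4 * φ (E G.la) * φ (E (2 * G.gam)) * this

theorem a_k (h0 : φ (G.μ E) = 0) (hE : IsExp D E) (ok : G.Ok D E) (lb : LayBasic D E G) :
    2 * (φ (G.k D E 1) + φ (G.k D E 4) + φ (G.k D E 7)) =
      -(φ (E G.lA) * (2 * φ (G.T D E (G.yv D E)) +
          φ (G.yv D E) * (2 * φ (G.T D E G.u₁) + φ (G.T D E G.lA))) +
        2 * φ (G.al E) * φ (E G.lA) * φ (G.T D E (G.t₂ D E)) +
        (φ (E G.lA) * φ (G.T D E (G.al E)) + φ (G.al E) * φ (E G.lA) * φ (G.T D E G.lA)) *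
          φ (G.t₂ D E) + 2 * φ (G.al E) * φ (E G.lA) * φ (G.t₂ D E) ^ 2 +
        2 * φ (E G.lA) * φ (G.yv D E) * φ (G.t₂ D E)) -
      6 * φ G.ε ^ 2 * φ (E G.la) * φ (E (2 * G.gam)) := by
  have c := a_C φ h0 hE ok lb
  simp only [Lay.k, Matrix.cons_val, Lay.th, Lay.lh, Lay.s₁, Lay.s₂, Lay.Sd, Lay.Ba, Lay.TaA,
    map_add, map_sub, map_neg, map_mul, map_pow, map_smul, h0, a_mt φ h0]
  linear_combination (norm := algebra) (-(3 / 2 : ℝ)) • (φ G.ε ^ 2 * c)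

theorem a_kc (h0 : φ (G.μ E) = 0) (hE : IsExp D E) (ok : G.Ok D E) (k : Fin 8 → R) :
    φ (G.kc D E k 1) + φ (G.kc D E k 4) + φ (G.kc D E k 7) = φ (k 3) + φ (k 6) + φ (k 7) := by
  have c := a_Ao φ h0 hE ok
  simp only [Lay.kc, Matrix.cons_val, map_add, map_mul, map_pow, map_smul, map_ofNat, h0, c]
  algebra

end Alg

/-! ### Calculus on the link -/

theorem scal_symm (n f g : ℝ → ℝ) (X : ℝ) : linkScal n f g X = linkScal n g f X := by
  unfold linkScal; ring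

theorem scal_eq {U : Set ℝ} (hU : IsOpen U) {X ε : ℝ} (hX : X ∈ U) (hε : ε ≠ 0)
    {n f g s a aA y t e₁ F₁ e₂ : ℝ → ℝ} {s₂ A Ty Tt Ta Tu Tl : ℝ}
    (hn : ∀ x ∈ U, n x = ε ^ 2 * s x ^ 2 / aA x) (hf : ∀ x ∈ U, f x = ε ^ 2 * F₁ x)
    (hg : ∀ x ∈ U, g x = ε ^ 2 * e₂ x) (h1 : ∀ x ∈ U, F₁ x = a x * e₁ x)
    (d1 : ∀ x ∈ U, HasDerivAt F₁ (s x * (2 * y x * e₁ x)) x)
    (d2 : ∀ x ∈ U, HasDerivAt e₂ (s x * (2 * t x * e₂ x)) x)
    (n1 : ∀ x ∈ U, e₁ x ≠ 0) (n2 : ∀ x ∈ U, e₂ x ≠ 0) (n3 : ∀ x ∈ U, a x ≠ 0) (n4 : s X ≠ 0)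
    (n5 : A ≠ 0) (ds : HasDerivAt s s₂ X) (dy : HasDerivAt y (s X * Ty) X)
    (dt : HasDerivAt t (s X * Tt) X) (da : HasDerivAt a (s X * Ta) X)
    (dA : HasDerivAt aA (s X * (A * Ta + a X * A * Tl)) X) (eA : aA X = a X * A)
    (ey : 2 * y X = Ta + 2 * a X * Tu) :
    ε ^ 2 * linkScal n f g X = -(A * (2 * Ty + y X * (2 * Tu + Tl)) + 2 * a X * A * Tt +
      (A * Ta + a X * A * Tl) * t X + 2 * a X * A * t X ^ 2 + 2 * A * y X * t X) := by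
  have loc : ∀ {u v : ℝ → ℝ}, (∀ x ∈ U, u x = v x) → ∀ x ∈ U, u =ᶠ[𝓝 x] v := fun h x hx => by
    filter_upwards [hU.mem_nhds hx] with z hz using h z hz
  have q1 : ∀ x ∈ U, deriv f x / (2 * f x) = s x * y x / a x := fun x hx => by
    rw [(loc hf x hx).deriv_eq, ((d1 x hx).const_mul _).deriv, hf x hx, h1 x hx]
    have := n1 x hx
    have := n3 x hx
    field_simp
  have q2 : ∀ x ∈ U, deriv g x / (2 * g x) = s x * t x := fun x hx => by
    rw [(loc hg x hx).deriv_eq, ((d2 x hx).const_mul _).deriv, hg x hx]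
    have := n2 x hx
    field_simp
  have n6 := n3 X hX
  have r1 : HasDerivAt (fun x => s x * y x / a x) _ X := (ds.mul dy).div da n6
  have r2 : HasDerivAt (fun x => s x * t x) _ X := ds.mul dt
  have r3 : HasDerivAt (fun x => ε ^ 2 * s x ^ 2 / aA x) _ X :=
    ((ds.pow 2).const_mul _).div dA (by rw [eA]; exact mul_ne_zero n6 n5)
  have e : Ta = 2 * y X - 2 * a X * Tu := by linarith
  rw [linkScal, (loc q1 X hX).deriv_eq, (loc q2 X hX).deriv_eq, (loc hn X hX).deriv_eq, q1 X hX,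
    q2 X hX, r1.deriv, r2.deriv, r3.deriv, hn X hX, eA]
  simp only [Pi.mul_apply, Pi.pow_apply, e]
  field_simp
  ring

theorem young {a B ε t : ℝ} (ha : 0 < a) (hB : 0 ≤ B) (hε : 0 ≤ ε) (ht : 0 ≤ t) :
    B * ε * t ^ 3 ≤ a * t ^ 4 + B ^ 4 / a ^ 3 * ε ^ 4 := by
  rcases le_total (B * ε) (a * t) with h | h
  · have : B * ε * t ^ 3 ≤ a * t * t ^ 3 := by gcongr
    have : 0 ≤ B ^ 4 / a ^ 3 * ε ^ 4 := by positivity
    nlinarith
  · have h1 : t ≤ B * ε / a := by rwa [le_div_iff₀' ha]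
    have : B * ε * t ^ 3 ≤ B * ε * (B * ε / a) ^ 3 := by gcongr
    have h2 : 0 ≤ a * t ^ 4 := by positivity
    calc _ ≤ _ := this
      _ = B ^ 4 / a ^ 3 * ε ^ 4 := by field_simp
      _ ≤ _ := by linarith

theorem isCut {c₁ : ℝ} (h : 0 < c₁) : IsCut (mcut c₁) :=
  ⟨Real.smoothTransition.contDiff.comp (contDiff_const.sub (contDiff_id.div_const _)),
    fun _ => ⟨Real.smoothTransition.nonneg _, Real.smoothTransition.le_one _⟩, c₁, h, fun s hs =>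
      Real.smoothTransition.one_of_one_le (by have := (div_le_one h).2 hs; linarith)⟩

/-! ### The link in the chart -/

/-- The collar on the link. -/
def U (H : Chart) (w : Fin 2) : Set ℝ := {x | 0 < ![x, 1 - x] w ∧ ![x, 1 - x] w < H.ρ}

/-- `ε σ` on the link. -/
noncomputable def sK (H : Chart) (w : Fin 2) (x : ℝ) : ℝ :=
  ![x, 1 - x] w * H.K false w ![x, 1 - x]

theorem d_ell (x : ℝ) : HasDerivAt (fun x : ℝ => (![x, 1 - x] : En 2)) ![1, -1] x :=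
  hasDerivAt_pi.2 (Fin.forall_fin_two.2 ⟨hasDerivAt_id x, (hasDerivAt_id x).const_sub 1⟩)

theorem c_ell : ContDiff ℝ ∞ fun x : ℝ => (![x, 1 - x] : En 2) :=
  contDiff_pi.2 (Fin.forall_fin_two.2 ⟨contDiff_id, contDiff_const.sub contDiff_id⟩)

theorem U_open (H : Chart) (w : Fin 2) : IsOpen (U H w) :=
  isOpen_Ioo.preimage ((continuous_apply w).comp c_ell.continuous)

section Ch

variable {P : Prof} {c : ℝ} {H : Chart} {w : Fin 2} {x : ℝ} (h : H.Ok P c) (hx : x ∈ U H w)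
include h hx

theorem U_mem : 0 < x ∧ x < 1 ∧ 3 * H.ρ / 4 < ![x, 1 - x] (w + 1) := by
  obtain ⟨h1, h2⟩ := hx
  have := h.pos.2.1
  have := h.pos.2.2.2.2
  fin_cases w <;> simp at h1 h2 ⊢ <;> refine ⟨?_, ?_, ?_⟩ <;> linarith

omit h hx in
theorem tau0 : τP ![x, 1 - x] = 0 := by simp [τP]

theorem U_Nb : ![x, 1 - x] ∈ Nb H.ρ := by
  obtain ⟨h1, h2, -⟩ := U_mem h hx
  have := h.pos.2.1
  refine ⟨?_, ?_, ?_⟩
  · simp; linarith
  · simp; linarith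
  · rw [tau0]; linarith

theorem U_Dz {ε : ℝ} (hε : 0 < ε) : ![x, 1 - x] ∈ Dz ε := by
  obtain ⟨h1, h2, -⟩ := U_mem h hx
  have : 0 < ε ^ 2 := by positivity
  refine ⟨?_, ?_, ?_⟩
  · simp; linarith
  · simp; linarith
  · rw [tau0]; linarith

theorem U_phi : H.φ false ![x, 1 - x] = H.c₀ :=
  (h.inf false _ (U_Nb h hx) (by rw [tau0]; exact h.pos.2.2.1.le)).1

theorem U_xi : H.ξ false ![x, 1 - x] = H.ξi x := by
  rw [(h.inf false _ (U_Nb h hx) (by rw [tau0]; exact h.pos.2.2.1.le)).2.1, tau0]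
  simp

theorem U_n : H.n false 0 ![x, 1 - x] = H.n false 1 ![x, 1 - x] := by
  have d := chain (γ := fun x : ℝ => ![x, 1 - x]) (h.sm false _ (U_Nb h hx)).1 (d_ell x)
  have e : (fun y : ℝ => H.φ false ![y, 1 - y]) =ᶠ[𝓝 x] fun _ => H.c₀ := by
    filter_upwards [(U_open H w).mem_nhds hx] with y hy using U_phi h hy
  have := d.unique ((hasDerivAt_const x _).congr_of_eventuallyEq e)
  simp only [Chart.n, δP]
  linarith

theorem sK_cd : ContDiffAt ℝ ∞ (sK H w) x :=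
  (contDiff_pi.1 c_ell w).contDiffAt.mul
    ((h.col false w _ (U_Nb h hx) hx.2.le).1.comp x c_ell.contDiffAt)

theorem sK_der : deriv (sK H w) x = H.dS false w 0 ![x, 1 - x] - H.dS false w 1 ![x, 1 - x] := by
  have d := chain (γ := fun x : ℝ => ![x, 1 - x]) (h.col false w _ (U_Nb h hx) hx.2.le).1 (d_ell x)
  have e : HasDerivAt (sK H w) _ x := (hasDerivAt_pi.1 (d_ell x) w).mul d
  rw [e.deriv]
  fin_cases w <;> simp [Chart.dS, Chart.S, δP] <;> ring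

theorem sK_pos : 0 < sK H w x ∧ sK H w x < c ∧ P.Mu w (sK H w x) (H.ξi x) = 0 ∧
    H.ξi x ∈ Ioo (P.lo w) (P.hi w) ∧ H.ξi x ∈ Ioo (P.xL - P.δ) (P.xR + P.δ) := by
  obtain ⟨-, a1, a2, a3, a4, -⟩ := h.col false w _ (U_Nb h hx) hx.2.le
  have a5 := (h.sm false _ (U_Nb h hx)).2.2.2.2.1
  rw [U_xi h hx] at a3 a4 a5
  rw [tau0, zero_mul] at a3
  exact ⟨mul_pos hx.1 (h.pos.2.2.2.1.trans_le a1), (le_abs_self _).trans_lt a2, a3, a4, a5⟩

theorem Phi_eq (ε : ℝ) : H.ΦL false w ε ![x, 1 - x] = ![sK H w x / ε, H.ξi x] := by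
  rw [Chart.ΦL, U_xi h hx]; rfl

theorem Phi_der (ε : ℝ) : HasDerivAt (fun y : ℝ => H.ΦL false w ε ![y, 1 - y])
    ![deriv (sK H w) x / ε, deriv H.ξi x] x := by
  obtain ⟨h1, h2, -⟩ := U_mem h hx
  have e : (fun y : ℝ => H.ΦL false w ε ![y, 1 - y]) =ᶠ[𝓝 x] fun y => ![sK H w y / ε, H.ξi y] := by
    filter_upwards [(U_open H w).mem_nhds hx] with y hy using Phi_eq h hy ε
  refine HasDerivAt.congr_of_eventuallyEq ?_ e
  exact hasDerivAt_pi.2 (Fin.forall_fin_two.2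
    ⟨((sK_cd h hx).differentiableAt (by simp)).hasDerivAt.div_const ε,
      ((h.ξi x ⟨h1.le, h2.le⟩).1.differentiableAt (by simp)).hasDerivAt⟩)

theorem eta_ge (hP : P.Ok) (g : P.Geo c) (J : Bool) : H.ξi x ∉ Icc (P.ql J) (P.qr J) := by
  obtain ⟨a1, a2, a3, a4, -⟩ := sK_pos h hx
  have := g.cap w _ _ (Ioo_subset_Icc_self a4) (by rw [abs_of_pos a1]; exact a2.le) a3.le
  obtain ⟨o1, o2, o3⟩ := hP.ord
  obtain ⟨b1, b2, b3, b4⟩ := hP.ordJ false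
  obtain ⟨c1, c2, c3, c4⟩ := hP.ordJ true
  have := hP.δ_pos
  rintro ⟨k1, k2⟩
  fin_cases w <;> cases J <;> simp [Prof.sg, Prof.xc] at this <;> linarith

end Ch

/-! ### The layer along the link -/

section Main

variable {P : Prof} {c : ℝ} {g : P.Geo c} (Z : ZD P c) {N : ℕ} {Cb : ℝ} (w : Fin 2)

def lc : Filter (ℝ × ℝ) := 𝓝[>] 0 ×ˢ 𝓟 (U Z.H w)

noncomputable def Γ (z : ℝ × ℝ) : Z2 := (z.1, Z.H.ΦL false w z.1 ![z.2, 1 - z.2])

noncomputable def Γo (z : ℝ × ℝ) : Z2 := (z.1, ![0, Z.H.ξi z.2])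

/-- The value of a germ of the layer on the link. -/
noncomputable def W (f : SG (P.lL c w)) (ε x : ℝ) : ℝ := V (Γ Z w) f (ε, x)

noncomputable def s1 (ε x : ℝ) : ℝ := deriv (sK Z.H w) x / ε

variable {Z w}

theorem ev_lc {Q : ℝ × ℝ → Prop} :
    (∀ᶠ z in lc Z w, Q z) ↔ ∀ᶠ ε in 𝓝[>] (0 : ℝ), ∀ x ∈ U Z.H w, Q (ε, x) :=
  eventually_prod_principal_iff

theorem memU : ∀ᶠ z in lc Z w, 0 < z.1 ∧ z.2 ∈ U Z.H w :=
  ev_lc.2 (eventually_mem_nhdsWithin.mono fun _ h _ hx => ⟨h, hx⟩)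

theorem unif {Q : ℝ × ℝ → Prop} (h : ∀ᶠ z in lc Z w, Q z) :
    ∀ᶠ z in lc Z w, ∀ y ∈ U Z.H w, Q (z.1, y) :=
  ev_lc.2 ((ev_lc.1 h).mono fun _ h _ _ => h)

theorem tL (h : Z.H.Ok P c) : Tendsto (Γ Z w) (lc Z w) (P.lL c w) := by
  refine tendsto_iff_eventually.2 fun Q hQ => ev_lc.2 ?_
  filter_upwards [ev_fam.1 hQ, self_mem_nhdsWithin] with ε h1 hε x hx
  obtain ⟨a1, a2, -, a4, -⟩ := sK_pos h hx
  refine h1 _ ?_
  rw [Phi_eq h hx]
  have h2 : (0 : ℝ) < ε := hε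
  refine ⟨lt_trans (by norm_num) (div_pos a1 h2), ?_, a4⟩
  rwa [Matrix.cons_val_zero, mul_div_cancel₀ _ h2.ne']

theorem tO (hP : P.Ok) (h : Z.H.Ok P c) : Tendsto (Γo Z) (lc Z w) P.lO := by
  refine tendsto_iff_eventually.2 fun Q hQ => ev_lc.2 ?_
  filter_upwards [ev_fam.1 hQ] with ε h1 x hx
  exact h1 _ ⟨by simpa using zero_lt_one.trans_le hP.M_ge, (sK_pos h hx).2.2.2.2⟩

theorem Mu0 (h : Z.H.Ok P c) : ∀ᶠ z in lc Z w,
    P.Mu w ((Γ Z w z).1 * (Γ Z w z).2 0) ((Γ Z w z).2 1) = 0 ∧ 0 ≤ (Γ Z w z).2 0 ∧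
      (Γ Z w z).2 1 = Z.H.ξi z.2 := by
  filter_upwards [memU] with z ⟨h1, h2⟩
  obtain ⟨a1, -, a3, -⟩ := sK_pos h h2
  simp only [Γ, Phi_eq h h2, Matrix.cons_val_zero, Matrix.cons_val_one,
    mul_div_cancel₀ _ h1.ne', a3, true_and, and_true]
  positivity

theorem pull (h : Z.H.Ok P c) (f : SG P.lO) :
    ∀ᶠ z in lc Z w, V (Γ Z w) ((g.pull w).hom f) z = V (Γo Z) f z := by
  filter_upwards [(tL h).eventually (val_pb (g.pull w) f), Mu0 h] with z h1 ⟨h2, _, h3⟩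
  rw [V, h1, Prof.Φ, h2, h3]
  rfl

theorem mu0 (h : Z.H.Ok P c) (gf : Z.s.GF g (mcut Z.c₁) w) : ev (tL h) ((Z.G w).μ expG) = 0 := by
  rw [ZD.G, gf.mu, ev_eq]
  refine Germ.coe_eq.2 ?_
  filter_upwards [(tL h).eventually (val_gm ((g.pull w).smooth 0)), Mu0 h] with z h1 h2
  exact h1.trans h2.1

theorem eps (h : Z.H.Ok P c) (A : AvgFacts (P.lL c w) (P.lo w) (P.hi w)) :
    ∀ᶠ z in lc Z w, V (Γ Z w) (Z.G w).ε z = z.1 := (tL h).eventually (val_gm A.eps.1)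

theorem der0 (h : Z.H.Ok P c) (f : SG (P.lL c w)) : ∀ᶠ z in lc Z w,
    HasDerivAt (W Z w f z.1) (s1 Z w z.1 z.2 * W Z w (gD 0 f) z.1 z.2 +
      deriv Z.H.ξi z.2 * W Z w (gD 1 f) z.1 z.2) z.2 := by
  filter_upwards [(tL h).eventually (val_der f), memU] with z h1 h2
  exact h1 _ _ _ _ rfl (Phi_der h h2.2 z.1)

theorem vel (h : Z.H.Ok P c) (gf : Z.s.GF g (mcut Z.c₁) w) (lb : LayBasic gD expG (Z.G w))
    (A : AvgFacts (P.lL c w) (P.lo w) (P.hi w)) : ∀ᶠ z in lc Z w,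
    deriv Z.H.ξi z.2 = s1 Z w z.1 z.2 * (z.1 * W Z w ((Z.G w).b gD expG) z.1 z.2) := by
  have m0 : ∀ᶠ z in lc Z w, W Z w ((Z.G w).μ expG) z.1 z.2 = 0 :=
    Germ.coe_eq.1 ((ev_eq _ _).symm.trans (mu0 h gf))
  have e1 : ∀ᶠ z in lc Z w, W Z w (gD 0 ((Z.G w).μ expG)) z.1 z.2 *
      W Z w ((Z.G w).P0 expG) z.1 z.2 = V (Γ Z w) (Z.G w).ε z := Germ.coe_eq.1 (by
    have := congrArg (ev (tL h)) lb.dμ
    simp only [map_mul, ev_eq] at this
    exact this)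
  have e2 : ∀ᶠ z in lc Z w, W Z w ((Z.G w).b gD expG) z.1 z.2 * W Z w ((Z.G w).P0 expG) z.1 z.2 *
      W Z w (gD 1 ((Z.G w).μ expG)) z.1 z.2 = -1 := Germ.coe_eq.1 (by
    have := a_b (G := Z.G w) (E := expG) (ev (tL (w := w) h)) (mu0 h gf) lb
    simp only [ev_eq] at this
    exact this)
  filter_upwards [der0 h ((Z.G w).μ expG), unif m0, e1, e2, eps h A, memU] with z d m a1 a2 a3 a4
  have e : W Z w ((Z.G w).μ expG) z.1 =ᶠ[𝓝 z.2] fun _ => 0 := by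
    filter_upwards [(U_open Z.H w).mem_nhds a4.2] with y hy using m y hy
  have := d.unique ((hasDerivAt_const _ _).congr_of_eventuallyEq e)
  rw [a3] at a1
  linear_combination deriv Z.H.ξi z.2 * a2 +
    s1 Z w z.1 z.2 * W Z w ((Z.G w).b gD expG) z.1 z.2 * a1 -
    W Z w ((Z.G w).b gD expG) z.1 z.2 * W Z w ((Z.G w).P0 expG) z.1 z.2 * this

theorem derT (h : Z.H.Ok P c) (gf : Z.s.GF g (mcut Z.c₁) w) (lb : LayBasic gD expG (Z.G w))
    (A : AvgFacts (P.lL c w) (P.lo w) (P.hi w)) (f : SG (P.lL c w)) : ∀ᶠ z in lc Z w,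
    HasDerivAt (W Z w f z.1) (s1 Z w z.1 z.2 * W Z w ((Z.G w).T gD expG f) z.1 z.2) z.2 := by
  have e1 : ∀ᶠ z in lc Z w, W Z w ((Z.G w).T gD expG f) z.1 z.2 = W Z w (gD 0 f) z.1 z.2 +
      V (Γ Z w) (Z.G w).ε z * W Z w ((Z.G w).b gD expG) z.1 z.2 * W Z w (gD 1 f) z.1 z.2 :=
    Germ.coe_eq.1 (by
      have := congrArg (ev (tL h)) (show (Z.G w).T gD expG f = _ + _ * _ * _ from rfl)
      rw [map_add, map_mul, map_mul] at this
      simp only [ev_eq] at this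
      exact this)
  filter_upwards [der0 h f, e1, eps h A, vel h gf lb A] with z d a1 a2 a3
  rw [a1, a2]
  rw [a3] at d
  exact d.congr_deriv (by ring)

theorem collar (zi : ZIdStmt) (hZ : Z.Ok g N Cb) : ∀ᶠ z in lc Z w,
    0 < W Z w ((Z.G w).al expG) z.1 z.2 ∧
    nL (Z.ν z.1) (Z.p false z.1) (Z.q false z.1) z.2 =
      z.1 ^ 2 * s1 Z w z.1 z.2 ^ 2 / W Z w ((Z.G w).al expG * expG (Z.G w).lA) z.1 z.2 ∧
    Z.p false z.1 w ![z.2, 1 - z.2] * ![z.2, 1 - z.2] w =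
      z.1 ^ 2 * W Z w ((Z.G w).al expG * expG (2 * (Z.G w).u₁)) z.1 z.2 ∧
    Z.p false z.1 (w + 1) ![z.2, 1 - z.2] * ![z.2, 1 - z.2] (w + 1) =
      z.1 ^ 2 * W Z w (expG (2 * (Z.G w).u₂)) z.1 z.2 := by
  have h := hZ.chart
  refine ev_lc.2 ?_
  filter_upwards [zi P c g Z N Cb false w hZ, self_mem_nhdsWithin] with ε h1 hε x hx
  have h0 : (0 : ℝ) < ε := hε
  have hc := h.pos.1
  obtain ⟨a1, a2, a3, a4⟩ := h1 _ (U_Dz h hx h0) hx.1 hx.2 (U_mem h hx).2.2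
  have eo : Z.oh false ε w 0 ![x, 1 - x] = Z.oh false ε w 1 ![x, 1 - x] := by
    simp only [ZD.oh, tau0, U_n h hx, zero_mul]
  have b0 := a2 0 0
  have b1 := a2 0 1
  have b2 := a2 1 1
  rw [U_phi h hx] at a3 a4 b0 b1 b2
  rw [eo] at b0 b1
  rw [if_pos rfl] at b0 b2
  rw [if_neg (by decide), add_zero] at b1
  simp only [Matrix.cons_val_zero, Matrix.cons_val_one] at b0 b2
  refine ⟨a1, ?_, mul_right_cancel₀ hc.ne' (a3.trans ?_), mul_right_cancel₀ hc.ne' (a4.trans ?_)⟩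
  · change nL (Z.ν ε) (Z.p false ε) (Z.q false ε) x = ε ^ 2 * s1 Z w ε x ^ 2 /
      Z.L false ε w ((Z.G w).al expG * expG (Z.G w).lA) ![x, 1 - x]
    rw [nL, s1, sK_der h hx, eq_sub_of_add_eq b0, b1, eq_sub_of_add_eq b2, ZD.ν]
    field_simp
    ring
  · change _ = ε ^ 2 * Z.L false ε w _ ![x, 1 - x] * _
    rw [ZD.ν]; ring
  · change _ = ε ^ 2 * Z.L false ε w _ ![x, 1 - x] * _
    rw [ZD.ν]; ring

theorem W_exp (h : Z.H.Ok P c) (B : B2Facts (P.lL c w) 1) (f : SG (P.lL c w)) :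
    ∀ᶠ z in lc Z w, W Z w (expG f) z.1 z.2 = Real.exp (W Z w f z.1 z.2) :=
  (tL h).eventually (val_exp B f)

theorem W_mul (h : Z.H.Ok P c) (f f' : SG (P.lL c w)) :
    ∀ᶠ z in lc Z w, W Z w (f * f') z.1 z.2 = W Z w f z.1 z.2 * W Z w f' z.1 z.2 :=
  Germ.coe_eq.1 (by
    have := map_mul (ev (tL h)) f f'
    simp only [ev_eq] at this
    exact this)

theorem W_sub (h : Z.H.Ok P c) (f f' : SG (P.lL c w)) :
    ∀ᶠ z in lc Z w, W Z w (f - f') z.1 z.2 = W Z w f z.1 z.2 - W Z w f' z.1 z.2 :=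
  Germ.coe_eq.1 (by
    have := map_sub (ev (tL h)) f f'
    simp only [ev_eq] at this
    exact this)

/-- The scalar curvature of the link in terms of the curvatures of the layer. -/
theorem scal (zi : ZIdStmt) (hZ : Z.Ok g N Cb) (gf : Z.s.GF g (mcut Z.c₁) w)
    (lb : LayBasic gD expG (Z.G w)) (A : AvgFacts (P.lL c w) (P.lo w) (P.hi w))
    (B : B2Facts (P.lL c w) 1) : ∀ᶠ z in lc Z w,
    0 < nL (Z.ν z.1) (Z.p false z.1) (Z.q false z.1) z.2 ∧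
    (∀ i, 0 < Z.p false z.1 i ![z.2, 1 - z.2]) ∧
    z.1 ^ 2 * linkScal (nL (Z.ν z.1) (Z.p false z.1) (Z.q false z.1))
        (fun x => Z.p false z.1 0 ![x, 1 - x] * x) (fun x => Z.p false z.1 1 ![x, 1 - x] * (1 - x))
        z.2 =
      2 * (W Z w ((Z.G w).k gD expG 1) z.1 z.2 + W Z w ((Z.G w).k gD expG 4) z.1 z.2 +
        W Z w ((Z.G w).k gD expG 7) z.1 z.2) +
      6 * z.1 ^ 2 * W Z w (expG (Z.G w).la) z.1 z.2 * W Z w (expG (2 * (Z.G w).gam)) z.1 z.2 := by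
  have h := hZ.chart
  have hE : IsExp (gD (l := P.lL c w)) expG := ⟨B.exp_add, B.exp_zero, B.exp_der⟩
  have m := mu0 h gf
  have dT := derT h gf lb A
  have okG : (Z.G w).Ok gD expG := gf.ok
  have col := collar (w := w) zi hZ
  have v := vel h gf lb A
  have eε := eps h A
  have wm := W_mul (w := w) h
  have we := W_exp h B
  generalize Z.G w = G at *
  have e1 : ∀ᶠ z in lc Z w, W Z w (G.T gD expG (G.al expG * expG (2 * G.u₁))) z.1 z.2 =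
      2 * W Z w (G.yv gD expG) z.1 z.2 * W Z w (expG (2 * G.u₁)) z.1 z.2 := Germ.coe_eq.1 (by
    have := a_f (G := G) (E := expG) (ev (tL (w := w) h)) m isDer_gD hE
    simp only [ev_eq] at this
    exact this)
  have e2 : ∀ᶠ z in lc Z w, W Z w (G.T gD expG (expG (2 * G.u₂))) z.1 z.2 =
      2 * W Z w (G.t₂ gD expG) z.1 z.2 * W Z w (expG (2 * G.u₂)) z.1 z.2 := Germ.coe_eq.1 (by
    have := a_g (G := G) (E := expG) (ev (tL (w := w) h)) m isDer_gD hE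
    simp only [ev_eq] at this
    exact this)
  have e3 : ∀ᶠ z in lc Z w, W Z w (G.T gD expG (G.al expG * expG G.lA)) z.1 z.2 =
      W Z w (expG G.lA) z.1 z.2 * W Z w (G.T gD expG (G.al expG)) z.1 z.2 +
        W Z w (G.al expG) z.1 z.2 * W Z w (expG G.lA) z.1 z.2 *
          W Z w (G.T gD expG G.lA) z.1 z.2 := Germ.coe_eq.1 (by
    have := a_A (G := G) (ev (tL h)) isDer_gD hE
    simp only [ev_eq] at this
    exact this)
  have e4 : ∀ᶠ z in lc Z w, 2 * W Z w (G.yv gD expG) z.1 z.2 =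
      W Z w (G.T gD expG (G.al expG)) z.1 z.2 +
        2 * W Z w (G.al expG) z.1 z.2 * W Z w (G.T gD expG G.u₁) z.1 z.2 := Germ.coe_eq.1 (by
    have := a_yv (D := gD (l := P.lL c w)) (E := expG) (G := G) (ev (tL (w := w) h)) m
    simp only [ev_eq] at this
    exact this)
  have e5 : ∀ᶠ z in lc Z w, 2 * (W Z w (G.k gD expG 1) z.1 z.2 + W Z w (G.k gD expG 4) z.1 z.2 +
      W Z w (G.k gD expG 7) z.1 z.2) =
      -(W Z w (expG G.lA) z.1 z.2 * (2 * W Z w (G.T gD expG (G.yv gD expG)) z.1 z.2 +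
          W Z w (G.yv gD expG) z.1 z.2 * (2 * W Z w (G.T gD expG G.u₁) z.1 z.2 +
            W Z w (G.T gD expG G.lA) z.1 z.2)) +
        2 * W Z w (G.al expG) z.1 z.2 * W Z w (expG G.lA) z.1 z.2 *
          W Z w (G.T gD expG (G.t₂ gD expG)) z.1 z.2 +
        (W Z w (expG G.lA) z.1 z.2 * W Z w (G.T gD expG (G.al expG)) z.1 z.2 +
          W Z w (G.al expG) z.1 z.2 * W Z w (expG G.lA) z.1 z.2 *
            W Z w (G.T gD expG G.lA) z.1 z.2) * W Z w (G.t₂ gD expG) z.1 z.2 +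
        2 * W Z w (G.al expG) z.1 z.2 * W Z w (expG G.lA) z.1 z.2 *
          W Z w (G.t₂ gD expG) z.1 z.2 ^ 2 +
        2 * W Z w (expG G.lA) z.1 z.2 * W Z w (G.yv gD expG) z.1 z.2 *
          W Z w (G.t₂ gD expG) z.1 z.2) -
      6 * V (Γ Z w) G.ε z ^ 2 * W Z w (expG G.la) z.1 z.2 * W Z w (expG (2 * G.gam)) z.1 z.2 :=
    Germ.coe_eq.1 (by
      have := a_k (G := G) (E := expG) (ev (tL (w := w) h)) m hE okG lb
      simp only [ev_eq] at this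
      exact this)
  filter_upwards [memU, unif col, unif (wm (G.al expG) (expG (2 * G.u₁))),
    unif (dT (G.al expG * expG (2 * G.u₁))), unif (dT (expG (2 * G.u₂))), unif e1, unif e2,
    unif (we (2 * G.u₁)), unif (we (2 * G.u₂)), we G.lA, dT (G.yv gD expG), dT (G.t₂ gD expG),
    dT (G.al expG), dT (G.al expG * expG G.lA), wm (G.al expG) (expG G.lA), e3, e4, e5, eε, v]
    with ⟨ε, X⟩ ⟨h0, hX⟩ c1 c2 c3 c4 c5 c6 c7 c8 c9 d1 d2 d3 d4 d5 d6 d7 d8 d9 d0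
  dsimp only at *
  obtain ⟨x0, x1, x2⟩ := U_mem h hX
  have n4 : s1 Z w ε X ≠ 0 := fun e => by
    rw [e, zero_mul] at d0
    exact (h.ξi X ⟨x0.le, x1.le⟩).2.ne' d0
  have pA : 0 < W Z w (expG G.lA) ε X := by rw [c9]; exact Real.exp_pos _
  have p1 : ∀ x ∈ U Z.H w, 0 < W Z w (expG (2 * G.u₁)) ε x := fun x hx => by
    rw [c7 x hx]; exact Real.exp_pos _
  have p2 : ∀ x ∈ U Z.H w, 0 < W Z w (expG (2 * G.u₂)) ε x := fun x hx => by
    rw [c8 x hx]; exact Real.exp_pos _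
  obtain ⟨k1, k2, k3, k4⟩ := c1 X hX
  have q1 : 0 < Z.p false ε w ![X, 1 - X] := by
    refine (mul_pos_iff_of_pos_right hX.1).1 ?_
    rw [k3, c2 X hX]
    exact mul_pos (by positivity) (mul_pos k1 (p1 X hX))
  have q2 : 0 < Z.p false ε (w + 1) ![X, 1 - X] := by
    refine (mul_pos_iff_of_pos_right (lt_trans (by have := h.pos.2.1; positivity) x2)).1 ?_
    rw [k4]
    exact mul_pos (by positivity) (p2 X hX)
  rw [d6] at d4
  have ds : HasDerivAt (s1 Z w ε) _ X :=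
    ((((sK_cd h hX).fderiv_right (m := ∞) (by simp)).clm_apply
      (contDiffAt_const (c := (1 : ℝ)))).differentiableAt (by simp)).hasDerivAt.div_const ε
  have key := scal_eq (U_open Z.H w) hX h0.ne' (fun x hx => (c1 x hx).2.1)
    (fun x hx => (c1 x hx).2.2.1) (fun x hx => (c1 x hx).2.2.2) c2
    (fun x hx => (c3 x hx).congr_deriv (by rw [c5 x hx]))
    (fun x hx => (c4 x hx).congr_deriv (by rw [c6 x hx])) (fun x hx => (p1 x hx).ne')
    (fun x hx => (p2 x hx).ne') (fun x hx => (c1 x hx).1.ne') n4 pA.ne' ds d1 d2 d3 d4 d5 d7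
  refine ⟨?_, fun i => ?_, ?_⟩
  · rw [k2, d5]
    exact div_pos (by positivity) (mul_pos k1 pA)
  · fin_cases w <;> fin_cases i <;> assumption
  · rw [d8, d9, sub_add_cancel, ← key]
    fin_cases w
    · rfl
    · rw [scal_symm]; rfl

theorem final {ε S k1 k4 k7 o1 o4 o7 kv η cη a A t γ Cb Cl Cg : ℝ} {N : ℕ} (h0 : 0 < ε)
    (h1 : ε ≤ 1) (ha : 0 < a) (hA : a ≤ A) (ht : 0 ≤ t)
    (hS : ε ^ 2 * S = 2 * (k1 + k4 + k7) + 6 * ε ^ 2 * 1 * Real.exp (2 * γ))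
    (ho : o1 + o4 + o7 = ε ^ 2 * kv) (hk : η / 2 - Cl * ε ^ (N + 1) ≤ kv) (hη : cη ≤ η)
    (hγ : |γ| ≤ Cg * ε ^ (N + 1)) (l1 : |k1 - o1 - 2 * A * t ^ 4| ≤ Cb * (ε * t ^ 3 + ε ^ 3))
    (l4 : |k4 - o4| ≤ Cb * (ε * t ^ 3 + ε ^ 3)) (l7 : |k7 - o7| ≤ Cb * (ε * t ^ 3 + ε ^ 3))
    (hs : (6 * |Cb| + 2 * ((3 * |Cb|) ^ 4 / (2 * a) ^ 3)) * ε ≤ cη) :
    6 - (2 * |Cl| + 12 * |Cg|) * ε ^ N ≤ S := by
  have y := young (a := 2 * a) (B := 3 * |Cb|) (by positivity) (by positivity) h0.le ht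
  have hy : 0 ≤ (3 * |Cb|) ^ 4 / (2 * a) ^ 3 := by positivity
  generalize (3 * |Cb|) ^ 4 / (2 * a) ^ 3 = Y at *
  have b0 : Cb * (ε * t ^ 3 + ε ^ 3) ≤ |Cb| * (ε * t ^ 3 + ε ^ 3) := by
    gcongr; exact le_abs_self _
  have b1 : a * t ^ 4 ≤ A * t ^ 4 := by gcongr
  have b2 : ε ^ (N + 1) ≤ ε ^ N := pow_le_pow_of_le_one h0.le h1 (by omega)
  have b3 : Cl * ε ^ (N + 1) ≤ |Cl| * ε ^ N :=
    mul_le_mul (le_abs_self _) b2 (by positivity) (abs_nonneg _)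
  have b4 : Cg * ε ^ (N + 1) ≤ |Cg| * ε ^ N :=
    mul_le_mul (le_abs_self _) b2 (by positivity) (abs_nonneg _)
  have b5 := Real.add_one_le_exp (2 * γ)
  have b6 : Y * ε ^ 4 ≤ Y * ε ^ 3 :=
    mul_le_mul_of_nonneg_left (pow_le_pow_of_le_one h0.le h1 (by omega)) hy
  have e2 : 0 < ε ^ 2 := by positivity
  have b7 := mul_le_mul_of_nonneg_left hs e2.le
  have b8 : ε ^ 2 * (cη / 2 - |Cl| * ε ^ N) ≤ ε ^ 2 * kv := by gcongr; linarith
  have b9 : ε ^ 2 * (1 - 2 * (|Cg| * ε ^ N)) ≤ ε ^ 2 * Real.exp (2 * γ) := by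
    gcongr; linarith [(abs_le.1 hγ).1]
  refine le_of_mul_le_mul_left ?_ e2
  rw [hS]
  linarith [(abs_le.1 l1).1, (abs_le.1 l4).1, (abs_le.1 l7).1]

end Main

end LinkLay

open LinkLay in
theorem linkLay (_b1 : B1Stmt) (b2 : B2Stmt) (av : AvgStmt) (wt : WtStmt) (lb : LayBasicStmt)
    (zi : ZIdStmt) : LinkLayStmt := by
  intro P c g Z N Cb w hZ
  have h := hZ.chart
  have hP := hZ.prof
  have hm := isCut hZ.c₁_pos
  obtain ⟨gf, gf2, est⟩ := hZ.fin.lay _ hm w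
  have A : AvgFacts (P.lL c w) (P.lo w) (P.hi w) := av.1 _ _ _ g.pos
  have Ao : AvgFacts P.lO (P.xL - P.δ) (P.xR + P.δ) := (av.2 _ _ _).1
  have B : B2Facts (P.lL c w) 1 := b2 ℝ 2 _ 1 fun _ => zero_le_one
  have hE : IsExp (gD (l := P.lL c w)) expG := ⟨B.exp_add, B.exp_zero, B.exp_der⟩
  have lb' : LayBasic gD expG (Z.G w) := lb _ _ _ _ isDer_gD hE A.e16 gf.ok
  obtain ⟨Cl, hl⟩ := hZ.fin.link
  obtain ⟨Cg, hg⟩ := hZ.fin.gam
  obtain ⟨cη, hc, hη⟩ := hP.eta_pos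
  obtain ⟨M, hM⟩ := isCompact_Icc.exists_bound_of_continuousOn fun x hx =>
    (hP.sm_L w x hx).continuousAt.continuousWithinAt
  refine ⟨2 * |Cl| + 12 * |Cg|, ?_⟩
  have e1 : ∀ᶠ z in lc Z w, W Z w ((Z.G w).out.k gD expG 1) z.1 z.2 +
      W Z w ((Z.G w).out.k gD expG 4) z.1 z.2 + W Z w ((Z.G w).out.k gD expG 7) z.1 z.2 =
      V (Γ Z w) (Z.G w).ε z ^ 2 * V (Γ Z w) ((g.pull w).hom ((Z.s.O w).kv gD expG 3 +
        (Z.s.O w).kv gD expG 6 + (Z.s.O w).kv gD expG 7)) z := Germ.coe_eq.1 (by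
    have k := gf2.cov.k
    have := congrArg (ev (tL h) (Z.G w).ε ^ 2 * ·)
      (a_kc (G := Z.G w) (E := expG) (ev (tL (w := w) h)) (mu0 h gf) hE gf.ok
        fun j => (g.pull w).hom ((Z.s.O w).kv gD expG j))
    simp only [mul_add, ← map_pow, ← map_mul] at this
    simp only [← map_add, ← mul_add] at this
    rw [mul_add, mul_add] at this
    erw [← k, ← k, ← k] at this
    rw [map_add, map_add, map_mul, map_pow] at this
    simp only [ev_eq] at this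
    exact this)
  have e2 : ∀ᶠ z in lc Z w, W Z w (Z.G w).la z.1 z.2 = 0 := by
    have a := (tO (w := w) hP h).eventually (val_pb Ao.pull0 Z.s.la)
    rw [show Ao.pull0.hom Z.s.la = 0 from (pb_eq _ _).symm.trans hZ.fin.ev_la] at a
    filter_upwards [pull (g := g) h Z.s.la, a, (tO (w := w) hP h).eventually val_zero]
      with z h1 h2 h3
    exact ((congrArg (V (Γ Z w) · z) gf.cov.la).trans h1).trans (h2.symm.trans h3)
  have e3 : ∀ᶠ z in lc Z w, W Z w (2 * (Z.G w).gam) z.1 z.2 =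
      2 * (V (Γ Z w) (mG _ (mcut Z.c₁)) z * V (Γ Z w) (Z.s.Z w 1) z) := Germ.coe_eq.1 (by
    have := congrArg (ev (tL h))
      (show 2 * (Z.G w).gam = 2 * (mG _ (mcut Z.c₁) * Z.s.Z w 1) from rfl)
    rw [map_mul _ _ (_ * _), map_mul _ (mG _ _), map_ofNat] at this
    simp only [ev_eq] at this
    exact this)
  have sm : ∀ᶠ ε in 𝓝[>] (0 : ℝ), ε ≤ 1 ∧
      (6 * |Cb| + 2 * ((3 * |Cb|) ^ 4 / (2 * Real.exp (-(2 * M))) ^ 3)) * ε ≤ cη := by
    refine eventually_nhdsWithin_of_eventually_nhds ((eventually_le_nhds one_pos).and ?_)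
    exact (ContinuousAt.eventually_lt (by fun_prop) continuousAt_const
      (by simpa using hc)).mono fun _ => le_of_lt
  refine (ev_lc (Z := Z) (w := w) (Q := fun z => LinkOK (Z.ν z.1) (Z.p false z.1) (Z.q false z.1)
    (6 - (2 * |Cl| + 12 * |Cg|) * z.1 ^ N) z.2)).1 ?_ |>.mono fun ε k X a b => k X ⟨a, b⟩
  filter_upwards [scal zi hZ gf lb' A B, memU, Mu0 h, e1, e2, e3, eps h A, pull (g := g) h _,
    W_exp h B (Z.G w).la, W_exp h B (2 * (Z.G w).gam), (tL h).eventually est.klay,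
    (tL h).eventually (hg w), (tO hP h).eventually (hl w),
    (tL h).eventually (val_gm ((wt _ _ _ g.pos).sm _ hm).2.2),
    W_sub h ((Z.G w).k gD expG 1) ((Z.G w).out.k gD expG 1),
    W_sub h ((Z.G w).k gD expG 4) ((Z.G w).out.k gD expG 4),
    W_sub h ((Z.G w).k gD expG 7) ((Z.G w).out.k gD expG 7), tendsto_fst.eventually sm]
    with z ⟨s1, s2, s3⟩ ⟨h0, hX⟩ ⟨m1, m2, m3⟩ c1 c2 c3 c4 c5 c6 c7 c8 c9 d1 d2 d3 d4 d5 ⟨d6, d7⟩
  refine ⟨s1, s2, ?_⟩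
  have hx := Ioo_subset_Icc_self (sK_pos h hX).2.2.2.2
  have t3 : dW (3 / 2) (Γ Z w z) = Real.exp (-((Γ Z w z).2 0 / 2)) ^ 3 := by
    rw [dW, ← Real.exp_nat_mul]; congr 1; push_cast; ring
  have t4 : dW 2 (Γ Z w z) = Real.exp (-((Γ Z w z).2 0 / 2)) ^ 4 := by
    rw [dW, ← Real.exp_nat_mul]; congr 1; push_cast; ring
  rw [c6, c2, Real.exp_zero, c7, c3] at s3
  rw [c4, c5] at c1
  have l1 := c8 1
  have l4 := c8 4
  have l7 := c8 7
  rw [if_pos rfl, t3, t4] at l1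
  rw [if_neg (by decide), sub_zero, t3] at l4 l7
  refine final h0 d6 (Real.exp_pos _) (A := P.A0 w (Γ Z w z)) ?_ (Real.exp_pos _).le s3 c1 (d1 rfl)
    (hη _ hx (eta_ge h hX hP g)) ?_ (by rw [← d3]; exact l1) (by rw [← d4]; exact l4)
    (by rw [← d5]; exact l7) d7
  · rw [Prof.A0, m3]
    exact Real.exp_le_exp.2 (by linarith [(abs_le.1 (hM _ hx)).2])
  · rw [abs_mul]
    refine le_trans (mul_le_of_le_one_left (abs_nonneg _) ?_) (c9 m1 m2)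
    rw [show V (Γ Z w) (mG _ (mcut Z.c₁)) z = _ from d2, abs_of_nonneg (hm.2.1 _).1]
    exact (hm.2.1 _).2

end Pool.Agent.Lib.MP_df9110_gt
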