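import Pool.Agent.Lib.MP_df9110_gt.NLin

/-! From an approximate solution with barriers to an exact asymptotically conical expander. -/

namespace Pool.Agent.Lib.MP_df9110_gt

open Filter Topology MeasureTheory
open scoped ContDiff

def gf (g : Pt → Mat) (i j : Fin 4) (y : Pt) : ℝ := g y i j
noncomputable def Gf (g : Pt → Mat) (i j : Fin 4) (y : Pt) : ℝ := (g y)⁻¹ i j
noncomputable def chrF (g : Pt → Mat) : Fin 4 → Fin 4 → Fin 4 → Pt → ℝ := gChr pd (gf g) (Gf g)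
noncomputable def ricF (g : Pt → Mat) : Fin 4 → Fin 4 → Pt → ℝ := gRic pd (chrF g)
noncomputable def rlF (g : Pt → Mat) : Fin 4 → Fin 4 → Fin 4 → Fin 4 → Pt → ℝ :=
  gRlow pd (gf g) (chrF g)
/-- `V = -y/2 + U`. -/
noncomputable def Vf (U : Fin 4 → Pt → ℝ) (k : Fin 4) : Pt → ℝ :=
  (-1 / 2 : ℝ) • (fun y : Pt => y k) + U k
noncomputable def errF (g : Pt → Mat) (V : Fin 4 → Pt → ℝ) : Fin 4 → Fin 4 → Pt → ℝ :=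
  gErr pd (gf g) (chrF g) V
noncomputable def lapF (g : Pt → Mat) (V : Fin 4 → Pt → ℝ) (f : Pt → ℝ) : Pt → ℝ :=
  gLapV pd (Gf g) (chrF g) V f
noncomputable def LF (g : Pt → Mat) (V : Fin 4 → Pt → ℝ) (h : Fin 4 → Fin 4 → Pt → ℝ) :
    Fin 4 → Fin 4 → Pt → ℝ := gL pd (gf g) (Gf g) (chrF g) V h
/-- `y·∂ f`. -/
noncomputable def rad (f : Pt → ℝ) (y : Pt) : ℝ := ∑ c, y c * pd c f y

theorem chrF_eq (g : Pt → Mat) : chrF g = Chr g := by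
  funext k i j x
  simp [chrF, gChr, Chr, Gf]
  rfl

theorem ricF_eq (g : Pt → Mat) : ricF g = Ric g := by
  funext i j x
  simp [ricF, gRic, Ric, chrF_eq]

theorem scal_eq (g : Pt → Mat) : gTr (Gf g) (ricF g) = Scal g := by
  funext x
  simp [gTr, Scal, ricF_eq, Gf]

theorem hess_eq (g : Pt → Mat) (f : Pt → ℝ) : gHess pd (chrF g) f = Hess g f := by
  funext i j x
  simp [gHess, Hess, chrF_eq]

/-- The lower order part of `𝓛` acting on vectors indexed by pairs. -/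
noncomputable def lowB (g : Pt → Mat) (U : Fin 4 → Pt → ℝ) (u : Fin 4 × Fin 4 → Pt → ℝ)
    (α : Fin 4 × Fin 4) : Pt → ℝ :=
  gLow pd (Gf g) (chrF g) (rlF g) (ricF g) U (fun a b => u (a, b)) α.1 α.2

noncomputable def addM (g : Pt → Mat) (u : Fin 4 × Fin 4 → Pt → ℝ) (y : Pt) : Mat :=
  g y + Matrix.of fun a b => u (a, b) y

noncomputable def nlQ (g : Pt → Mat) (u : Fin 4 × Fin 4 → Pt → ℝ) (α : Fin 4 × Fin 4) : Pt → ℝ :=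
  gQ pd (Gf g) (chrF g) (fun a b => Gf (addM g u) a b - Gf g a b) (fun a b => u (a, b)) α.1 α.2

/-- The pointwise barrier inequality for `k = φ g + β Ric`, `L = Δ_V φ`. -/
def BarOK (g G Rc : Fin 4 → Fin 4 → ℝ) (Rl : Fin 4 → Fin 4 → Fin 4 → Fin 4 → ℝ)
    (φ β L c : ℝ) : Prop :=
  (∀ u, c * qf g u ≤ φ * qf g u + β * qf Rc u) ∧
  ∀ T : Fin 4 → Fin 4 → ℝ, (∀ i j, T i j = T j i) →
    (∀ u, 0 ≤ qf T u ∧ qf T u ≤ 2 * (φ * qf g u + β * qf Rc u)) →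
    ∀ v, (2 * φ - β) * qf Rc v + (L + c) * qf g v ≤ 2 * qf (gRmT G Rl T) v

section Family

variable {I : Type} (l : Filter I) (Λ : I → ℝ)

def ModK (k : ℕ) (m : ℝ) (F : I → Pt → ℝ) : Prop :=
  (∀ᶠ i in l, ContDiff ℝ ∞ (F i)) ∧ ∃ p : ℕ, ∀ᶠ i in l, Sym m k (F i) (Λ i ^ p)

def NegK (k : ℕ) (m : ℝ) (F : I → Pt → ℝ) : Prop :=
  (∀ᶠ i in l, ContDiff ℝ ∞ (F i)) ∧ ∀ p : ℕ, ∀ᶠ i in l, Sym m k (F i) (Λ i ^ p)⁻¹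

/-- Symbols of order `m` with polynomial bounds. -/
def Mod (m : ℝ) (F : I → Pt → ℝ) : Prop :=
  (∀ᶠ i in l, IsSym m (F i)) ∧ ∀ k, ModK l Λ k m F

/-- Negligible symbols of order `m`. -/
def Neg (m : ℝ) (F : I → Pt → ℝ) : Prop :=
  (∀ᶠ i in l, IsSym m (F i)) ∧ ∀ k, NegK l Λ k m F

def EllF (g : I → Pt → Mat) : Prop :=
  (∀ i y, (g i y).IsSymm) ∧ ∃ p : ℕ, ∀ᶠ i in l, ∀ y ξ, (Λ i ^ p)⁻¹ * nsq ξ ≤ qf (g i y) ξ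

/-- Derivatives of pairs. -/
def pairD {R ι : Type} (D : ι → R → R) (i : ι) (z : R × R) : R × R := (D i z.1, D i z.2)

structure M0Facts : Prop where
  grd_mod : Grd 1 (fD (I := I) (n := 4)) fun _ _ m F => Mod l Λ m F
  grd_neg : Grd 1 (fD (I := I) (n := 4)) fun d _ m F => if d = 0 then Mod l Λ m F else Neg l Λ m F
  grd_cl : Grd 1 (pairD (fD (I := I) (n := 4))) fun _ _ m z =>
    Mod l Λ m z.1 ∧ Neg l Λ m (z.2 - z.1)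
  grd_clK : Grd 1 (pairD (fD (I := I) (n := 4))) fun _ j m z =>
    ModK l Λ (2 - j) m z.1 ∧ NegK l Λ (2 - j) m (z.2 - z.1)
  neg_mod : ∀ {m F}, Neg l Λ m F → Mod l Λ m F
  coord : ∀ c, Mod l Λ 1 fun _ y => y c
  weight : ∀ γ, Mod l Λ γ fun _ => wt γ
  par : ∀ (β : I → ℝ) (p : ℕ), (∀ᶠ i in l, |β i| ≤ Λ i ^ p) → Mod l Λ 0 fun i _ => β i
  interp : ∀ {m F}, Mod l Λ m F → (∀ p : ℕ, ∀ᶠ i in l, ∀ y, |F i y| ≤ (Λ i ^ p)⁻¹ * wt m y) →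
    Neg l Λ m F
  inv : ∀ g : I → Pt → Mat, EllF l Λ g → (∀ a b, Mod l Λ 0 fun i => gf (g i) a b) →
    (∀ a b, Mod l Λ 0 fun i => Gf (g i) a b) ∧ (∀ᶠ i in l, IsMetricOn (g i) Set.univ) ∧
    EllF l Λ fun i y => (g i y)⁻¹
  inv_cl : ∀ g g' : I → Pt → Mat, EllF l Λ g → (∀ a b, Mod l Λ 0 fun i => gf (g i) a b) →
    (∀ i y, (g' i y).IsSymm) → (∀ a b, Neg l Λ 0 fun i => gf (g' i) a b - gf (g i) a b) →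
    EllF l Λ g' ∧ ∀ a b, Neg l Λ 0 fun i => Gf (g' i) a b - Gf (g i) a b
  inv_clK : ∀ g g' : I → Pt → Mat, EllF l Λ g → (∀ a b, Mod l Λ 0 fun i => gf (g i) a b) →
    (∀ i y, (g' i y).IsSymm) → (∀ a b, NegK l Λ 2 0 fun i => gf (g' i) a b - gf (g i) a b) →
    EllF l Λ g' ∧ ∀ a b, NegK l Λ 2 0 fun i => Gf (g' i) a b - Gf (g i) a b

/-- Hypotheses on a family of approximate solutions; the pointwise ones hold on `S`. -/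
structure PHyp (S : Set Pt) (g δ : I → Pt → Mat) (U : I → Fin 4 → Pt → ℝ) (φ w : I → Pt → ℝ)
    (β : I → ℝ) : Prop where
  g_mod : ∀ a b, Mod l Λ 0 fun i => gf (g i) a b
  g_symm : ∀ i y, (g i y).IsSymm
  g_ell : ∃ p : ℕ, ∀ᶠ i in l, ∀ y ∈ S, ∀ ξ, (Λ i ^ p)⁻¹ * nsq ξ ≤ qf (g i y) ξ
  g_rad : ∀ a b, Mod l Λ (-2) fun i => rad (gf (g i) a b)
  U_mod : ∀ k, Mod l Λ (-1) fun i => U i k
  err : ∀ p : ℕ, ∀ᶠ i in l, ∀ y ∈ S, ∀ v,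
    |qf (fun a b => errF (g i) (Vf (U i)) a b y) v| ≤ (Λ i ^ p)⁻¹ * wt (-2) y * qf (g i y) v
  δ_mod : ∀ a b, Mod l Λ 0 fun i => gf (δ i) a b
  δ_symm : ∀ i y, (δ i y).IsSymm
  δ_small : ∀ p : ℕ, ∀ᶠ i in l, ∀ y a b, |δ i y a b| ≤ (Λ i ^ p)⁻¹
  δ_rad : ∀ᶠ i in l, ∀ y, 4 ≤ nsq y → ∀ a b, rad (gf (δ i) a b) y = 0
  φ_mod : Mod l Λ (-1 / 2) φ
  β_bd : ∀ᶠ i in l, |β i| ≤ 1
  bar : ∃ p : ℕ, ∀ᶠ i in l, ∀ y ∈ S, BarOK (g i y) (fun a b => Gf (g i) a b y)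
    (fun a b => ricF (g i) a b y) (fun a b c d => rlF (g i) a b c d y) (φ i y) (β i)
    (lapF (g i) (Vf (U i)) (φ i) y) ((Λ i ^ p)⁻¹ * wt (-1 / 2) y)
  w_mod : Mod l Λ (-2) w
  w_bar : ∃ p : ℕ, ∀ᶠ i in l, ∀ y ∈ S, (Λ i ^ p)⁻¹ * wt (-2) y ≤ w i y ∧
    lapF (g i) (Vf (U i)) (w i) y + w i y ≤ -((Λ i ^ p)⁻¹ * wt (-4) y)

end Family

/-- An exact solution of `Ric + ½ L_V g + ½ g = 0`, `V = -y/2 + U`. -/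
structure Sol (g : Pt → Mat) (U : Fin 4 → Pt → ℝ) : Prop where
  sym : ∀ a b, IsSym 0 (gf g a b)
  symm : ∀ y, (g y).IsSymm
  ell : ∃ c : ℝ, 0 < c ∧ ∀ y ξ, c * nsq ξ ≤ qf (g y) ξ
  U_sym : ∀ k, IsSym (-1) (U k)
  err : ∀ a b, errF g (Vf U) a b = 0

/-- The complement of the two axes. -/
def Dn : Set Pt := {y | y 0 ^ 2 + y 1 ^ 2 ≠ 0 ∧ y 2 ^ 2 + y 3 ^ 2 ≠ 0}

def ext1 : Set Pt := {y | 1 < nsq y}

def M0Stmt : Prop :=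
  (∀ (I : Type) (l : Filter I) (Λ : I → ℝ), (∀ i, 2 ≤ Λ i) → M0Facts l Λ) ∧
  ∀ (U : Set Pt) (κ : ℝ), IsOpen U → 0 ≤ κ →
    (Grd 1 pd fun _ _ m f => IsSymOn U m f) ∧
    Grd 1 (pairD pd) fun _ _ m z => IsSymOn U m z.1 ∧ IsSymOn U (m - κ) (z.2 - z.1)

def DenseStmt : Prop := ∀ (I : Type) (l : Filter I) (Λ : I → ℝ), (∀ i, 2 ≤ Λ i) →
  ∀ g δ U φ w β, PHyp l Λ Dn g δ U φ w β → PHyp l Λ Set.univ g δ U φ w β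

/-- Maximum principles. -/
def MpStmt : Prop := ∀ (g : Pt → Mat) (V : Fin 4 → Pt → ℝ), IsMetricOn g Set.univ →
  (∀ k, ContDiff ℝ ∞ (V k)) →
  (∀ u y, ContDiff ℝ ∞ u → IsLocalMin u y → 0 ≤ lapF g V u y) ∧
  ∀ (k : Fin 4 → Fin 4 → Pt → ℝ) (b : Pt → ℝ), (∀ i j, ContDiff ℝ ∞ (k i j)) →
    (∀ i j, k i j = k j i) → (∀ y u, u ≠ 0 → 0 < qf (fun i j => k i j y) u) → (∀ y, 0 < b y) →
    (∀ y (T : Fin 4 → Fin 4 → ℝ), (∀ i j, T i j = T j i) →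
      (∀ u, 0 ≤ qf T u ∧ qf T u ≤ 2 * qf (fun i j => k i j y) u) → ∀ v,
      qf (fun i j => LF g V k i j y) v + b y * nsq v ≤
        2 * qf (gRmT (fun i j => Gf g i j y) (fun i j p q => rlF g i j p q y) T) v) →
    ∀ (lam M : ℝ) (h : Fin 4 → Fin 4 → Pt → ℝ), 0 ≤ lam → 0 ≤ M → (∀ i j, CC (h i j)) →
      (∀ i j, h i j = h j i) →
      (∀ y v, |qf (fun i j => LF g V h i j y - lam * h i j y) v| ≤ M * b y * nsq v) →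
      ∀ y v, |qf (fun i j => h i j y) v| ≤ M * qf (fun i j => k i j y) v

/-- The lower order part of `𝓛` is tame. -/
def BtStmt : Prop := ∀ (I : Type) (l : Filter I) (Λ : I → ℝ), (∀ i, 2 ≤ Λ i) →
  ∀ (g : I → Pt → Mat) (U : I → Fin 4 → Pt → ℝ), EllF l Λ g →
  (∀ a b, Mod l Λ 0 fun i => gf (g i) a b) → (∀ k, Mod l Λ (-1) fun i => U i k) →
  ∃ p : ℕ, ∀ᶠ i in l, LinOp Prod.swap (1 / 2) (Λ i ^ p) (Gf (g i)) (lowB (g i) (U i))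

/-- The nonlinear part is tame. -/
def QtStmt : Prop := ∀ (I : Type) (l : Filter I) (Λ : I → ℝ), (∀ i, 2 ≤ Λ i) →
  ∀ (g : I → Pt → Mat) (U : I → Fin 4 → Pt → ℝ), EllF l Λ g →
  (∀ a b, Mod l Λ 0 fun i => gf (g i) a b) → (∀ k, Mod l Λ (-1) fun i => U i k) →
  ∃ p : ℕ, ∀ᶠ i in l, QHyp Prod.swap (1 / 2) (Λ i ^ p) (lowB (g i) (U i)) (nlQ (g i))

def QtLipStmt : Prop := ∀ (I : Type) (l : Filter I) (Λ : I → ℝ), (∀ i, 2 ≤ Λ i) →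
  ∀ g : I → Pt → Mat, EllF l Λ g → (∀ a b, Mod l Λ 0 fun i => gf (g i) a b) →
  ∃ p : ℕ, ∀ᶠ i in l, ∀ u v, Adm Prod.swap u → Adm Prod.swap v →
    XV 12 (1 / 2) u ≤ (Λ i ^ p)⁻¹ → XV 12 (1 / 2) v ≤ (Λ i ^ p)⁻¹ →
    NV 12 (1 / 2) (nlQ (g i) u - nlQ (g i) v) ≤
      Λ i ^ p * (XV 12 (1 / 2) u + XV 12 (1 / 2) v) * XV 12 (1 / 2) (u - v)

def QtTopStmt : Prop := ∀ (I : Type) (l : Filter I) (Λ : I → ℝ), (∀ i, 2 ≤ Λ i) →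
  ∀ g : I → Pt → Mat, EllF l Λ g → (∀ a b, Mod l Λ 0 fun i => gf (g i) a b) →
  ∃ p : ℕ, ∀ᶠ i in l, ∀ s : ℕ, 12 ≤ s → ∀ M : ℝ, ∃ C : ℝ, ∀ u, Adm Prod.swap u →
    XV 12 (1 / 2) u ≤ (Λ i ^ p)⁻¹ → XV s (1 / 2) u ≤ M →
    nV (s + 1) (1 / 2 - 1 + s) (nlQ (g i) u) ≤
      Λ i ^ p * XV 12 (1 / 2) u * nV (s + 3) (1 / 2 - 1 + s) u + C

/-- The maximum principle estimate for the operator of `g + δ`, and the error of `g + δ`. -/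
def MphStmt : Prop := ∀ (I : Type) (l : Filter I) (Λ : I → ℝ), (∀ i, 2 ≤ Λ i) →
  ∀ g δ U φ w β, PHyp l Λ Set.univ g δ U φ w β →
  (∀ a b, Neg l Λ 0 fun i => gf (δ i) a b) ∧
  (∀ a b, Neg l Λ (-2) fun i => errF (g i + δ i) (Vf (U i)) a b) ∧
  ∃ p : ℕ, ∀ᶠ i in l, MPH Prod.swap (1 / 2) (Λ i ^ p) 0 (Gf (g i + δ i)) (lowB (g i + δ i) (U i))

def PertStmt : Prop := ∀ (I : Type) (l : Filter I) (Λ : I → ℝ), (∀ i, 2 ≤ Λ i) →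
  ∀ g δ U φ w β, PHyp l Λ Set.univ g δ U φ w β → ∀ᶠ i in l, ∃ g' U', Sol g' U' ∧
    (∀ a b, IsSym (-1 / 2) (gf g' a b - gf (g i) a b - gf (δ i) a b)) ∧
    (∀ y, |Scal g' y - Scal (g i) y| ≤ 1) ∧ ∀ y, lapF g' (Vf U') (w i) y + w i y < 0

/-- Non-negative scalar curvature. -/
def FrStmt : Prop := ∀ g U γ w, Sol g U → IsCone γ → (∀ y, y ≠ 0 → 0 ≤ Scal γ y) →
  (∀ a b, IsSymOn ext1 (-1 / 2) (gf g a b - gf γ a b)) → ContDiff ℝ ∞ w →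
  (∃ c : ℝ, 0 < c ∧ ∀ y, c * wt (-2) y ≤ w y) → (∀ y, lapF g (Vf U) w y + w y < 0) →
  ∀ y, 0 ≤ Scal g y

/-- The potential function. -/
def FthStmt : Prop := ∀ g U, Sol g U → ∃ τ, IsSym (1 / 2) τ ∧
  lapF g (Vf U) (fun y => -(nsq y / 4 + τ y)) = fun y => -(nsq y / 4 + τ y)

/-- The vector field is the gradient of the potential. -/
def FwStmt : Prop := ∀ g U γ τ, Sol g U → IsCone γ →
  (∀ a b, IsSymOn ext1 (-1 / 2) (gf g a b - gf γ a b)) → IsSym (1 / 2) τ →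
  (lapF g (Vf U) (fun y => -(nsq y / 4 + τ y)) = fun y => -(nsq y / 4 + τ y)) →
  ∀ y i, pd i (fun y => -(nsq y / 4 + τ y)) y = ∑ k, g y i k * Vf U k y

/-- Conjugation of `-y/2 + U` to `-y/2` near infinity. -/
def FpsiStmt : Prop := ∀ U : Fin 4 → Pt → ℝ, (∀ k, IsSym (-1) (U k)) →
  ∃ (ψ : Fin 4 → Pt → ℝ) (R : ℝ), (∀ a, IsSym (-1) (ψ a)) ∧ (∀ y, nsq y ≤ 1 → ∀ a, ψ a y = 0) ∧
    (∀ y a i, |pd i (ψ a) y| ≤ 1 / 8) ∧ ∀ y, R < nsq y → ∀ a,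
      -(y a) / 2 - rad (ψ a) y / 2 = Vf U a fun b => y b + ψ b y

def FinStmt : Prop := ∀ g U γ w, Sol g U → IsCone γ → (∀ y, y ≠ 0 → 0 ≤ Scal γ y) →
  (∀ a b, IsSymOn ext1 (-1 / 2) (gf g a b - gf γ a b)) → ContDiff ℝ ∞ w →
  (∃ c : ℝ, 0 < c ∧ ∀ y, c * wt (-2) y ≤ w y) → (∀ y, lapF g (Vf U) w y + w y < 0) →
  ∃ g' f', IsExpander g' f' γ ∧ (∀ y, 0 ≤ Scal g' y) ∧ (∀ y, ∃ z, Scal g' y = Scal g z) ∧
    Scal g' 0 = Scal g 0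

/-- Asymptotics, completeness and invariance of the scalar curvature. -/
def AsyStmt : Prop :=
  (∀ g γ : Pt → Mat, IsCone γ → (∀ a b, IsSymOn ext1 (-1 / 2) (gf g a b - gf γ a b)) →
    ∀ δ : ℝ, 0 < δ → ∃ r₀ : ℝ, ∀ y, r₀ < √(nsq y) →
    √(nrm0 γ (fun i j z => g z i j - γ z i j) y) ≤ δ ∧
    √(nsq y) * √(nrm1 γ (fun i j z => g z i j - γ z i j) y) ≤ δ ∧
    √(nsq y) ^ 2 * √(nrm2 γ (fun i j z => g z i j - γ z i j) y) ≤ δ) ∧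
  (∀ γ : Pt → Mat, IsCone γ → (∀ a b, IsSymOn ext1 0 (gf γ a b)) ∧
    (∀ a b, IsSymOn ext1 0 (Gf γ a b)) ∧ ∃ c : ℝ, 0 < c ∧ ∀ y, y ≠ 0 → ∀ ξ,
      c * nsq ξ ≤ qf (γ y) ξ) ∧
  (∀ (g : Pt → Mat) (c : ℝ), IsMetricOn g Set.univ → 0 < c → (∀ y ξ, c * nsq ξ ≤ qf (g y) ξ) →
    IsCompleteMetric g) ∧
  ∀ g₁ g₂, IsMetricOn g₁ Set.univ → IsMetricOn g₂ Set.univ → Isometric g₁ g₂ →
    ∀ y, ∃ z, Scal g₂ y = Scal g₁ z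

/-- What the construction of approximate solutions provides. -/
def ConsStmt : Prop := ∃ (I : Type) (l : Filter I) (_ : l.NeBot) (Λ : I → ℝ)
  (γ δ : I → Pt → Mat) (S : I → ℝ) (g : Bool → I → Pt → Mat) (U : Bool → I → Fin 4 → Pt → ℝ)
  (φ w : Bool → I → Pt → ℝ) (β : I → ℝ), (∀ i, 2 ≤ Λ i) ∧
  (∀ J, PHyp l Λ Dn (g J) δ (U J) (φ J) (w J) β) ∧
  ∀ᶠ i in l, IsCone (γ i) ∧ (∀ y ∈ Dn, 0 ≤ Scal (γ i) y) ∧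
    (∀ J a b, IsSymOn ext1 (-2) (gf (g J i) a b + gf (δ i) a b - gf (γ i) a b)) ∧
    (∀ y ∈ Dn, Scal (g true i) y ≤ S i) ∧
    ∃ r : ℝ, 0 < r ∧ ∀ y ∈ Dn, nsq y < r → S i + 3 ≤ Scal (g false i) y

def MainStmt : Prop := ∃ γ : Pt → Mat, IsCone γ ∧ (∀ y, y ≠ 0 → 0 ≤ Scal γ y) ∧
  ∃ (g₁ g₂ : Pt → Mat) (f₁ f₂ : Pt → ℝ), IsExpander g₁ f₁ γ ∧ IsExpander g₂ f₂ γ ∧
    (∀ y, 0 ≤ Scal g₁ y) ∧ (∀ y, 0 ≤ Scal g₂ y) ∧ ¬Isometric g₁ g₂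

end Pool.Agent.Lib.MP_df9110_gt
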