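import Pool.Agent.Lib.MP_df9110_gt.NLin
import Pool.Agent.Lib.MP_df9110_gt.NPert

-- part Pool.Agent.Lib.MP_df9110_gt.L0a
section

/-! Weights, symbols and weighted norms. -/

namespace Pool.Agent.Lib.MP_df9110_gt

open Filter Topology MeasureTheory
open scoped ContDiff

namespace L0

theorem nsq_nonneg (y : Pt) : 0 ≤ nsq y := Finset.sum_nonneg fun _ _ => sq_nonneg _

theorem one_le (y : Pt) : 1 ≤ 1 + nsq y := by linarith [nsq_nonneg y]

theorem base_pos (y : Pt) : 0 < 1 + nsq y := by linarith [nsq_nonneg y]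

theorem sq_le_nsq (y : Pt) (i : Fin 4) : y i ^ 2 ≤ nsq y :=
  Finset.single_le_sum (f := fun i => y i ^ 2) (fun _ _ => sq_nonneg _) (Finset.mem_univ i)

theorem norm_sq_le (y : Pt) : ‖y‖ ^ 2 ≤ nsq y := by
  have h : ‖y‖ ≤ √(nsq y) :=
    (pi_norm_le_iff_of_nonneg (Real.sqrt_nonneg _)).2 fun i => Real.abs_le_sqrt (sq_le_nsq y i)
  calc ‖y‖ ^ 2 ≤ √(nsq y) ^ 2 := by gcongr
    _ = nsq y := Real.sq_sqrt (nsq_nonneg y)

theorem wt_pos (γ : ℝ) (y : Pt) : 0 < wt γ y := Real.rpow_pos_of_pos (base_pos y) _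

theorem wt_add (a b : ℝ) (y : Pt) : wt (a + b) y = wt a y * wt b y := by
  unfold wt
  rw [← Real.rpow_add (base_pos y)]
  congr 1
  ring

theorem wt_zero (y : Pt) : wt 0 y = 1 := by simp [wt]

theorem wt_two (y : Pt) : wt 2 y = 1 + nsq y := by simp [wt]

theorem wt_mono {a b : ℝ} (h : a ≤ b) (y : Pt) : wt a y ≤ wt b y :=
  Real.rpow_le_rpow_of_exponent_le (one_le y) (by linarith)

theorem wt_sub_one (m : ℝ) (y : Pt) : wt m y * wt (-1) y = wt (m - 1) y := by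
  rw [← wt_add, sub_eq_add_neg]

theorem wt_one_sq (y : Pt) : wt 1 y ^ 2 = 1 + nsq y := by
  rw [sq, ← wt_add, one_add_one_eq_two, wt_two]

theorem abs_le_wt (y : Pt) (i : Fin 4) : |y i| ≤ wt 1 y := by
  refine abs_le_of_sq_le_sq' ?_ (wt_pos 1 y).le |> abs_le.2
  rw [wt_one_sq]
  linarith [sq_le_nsq y i]

theorem contDiff_nsq : ContDiff ℝ ∞ nsq := by
  unfold nsq
  fun_prop

theorem contDiff_wt (γ : ℝ) : ContDiff ℝ ∞ (wt γ) :=
  (contDiff_const.add contDiff_nsq).rpow_const_of_ne fun y => (base_pos y).ne'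

theorem hasFDerivAt_nsq (y : Pt) : HasFDerivAt nsq
    (∑ j : Fin 4, (2 * y j) • (ContinuousLinearMap.proj j : Pt →L[ℝ] ℝ)) y := by
  unfold nsq
  refine HasFDerivAt.fun_sum fun j _ => ?_
  have h := (hasFDerivAt_apply (𝕜 := ℝ) j y).pow 2
  simpa using h

theorem wt_pd (γ : ℝ) (i : Fin 4) (y : Pt) : pd i (wt γ) y = γ * y i * wt (γ - 2) y := by
  have h := ((hasFDerivAt_nsq y).const_add 1).rpow_const (p := γ / 2) (Or.inl (base_pos y).ne')
  have e : wt γ = fun x => (1 + nsq x) ^ (γ / 2) := rfl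
  unfold pd
  rw [e, h.fderiv]
  have e2 : (γ - 2) / 2 = γ / 2 - 1 := by ring
  simp [wt, e2, Pi.single_apply]
  ring

theorem succ {U : Set Pt} {m : ℝ} {k : ℕ} {f : Pt → ℝ} {C : ℝ} : SymOn U m (k + 1) f C ↔
    (∀ y ∈ U, |f y| ≤ C * wt m y) ∧ ∀ i, SymOn U (m - 1) k (pd i f) C := by
  unfold SymOn
  simp only [WB, mul_assoc, wt_sub_one, pd_eq_pdn]
  exact ⟨fun h => ⟨fun y hy => (h y hy).1, fun i y hy => (h y hy).2 i⟩,
    fun h y hy => ⟨h.1 y hy, fun i => h.2 i y hy⟩⟩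

theorem zero_iff {U : Set Pt} {m : ℝ} {f : Pt → ℝ} {C : ℝ} :
    SymOn U m 0 f C ↔ ∀ y ∈ U, |f y| ≤ C * wt m y := Iff.rfl

theorem wb_closed {r : ℝ} (hr : 0 < r) {p : Pt} : ∀ (k : ℕ) {a : ℝ} {f : Pt → ℝ},
    (∀ a', a < a' → WB r k a' f p) → WB r k a f p
  | 0, _, _, h => le_of_forall_gt_imp_ge_of_dense fun a' ha => h a' ha
  | k + 1, a, f, h => by
    refine ⟨le_of_forall_gt_imp_ge_of_dense fun a' ha => (h a' ha).1, fun i => ?_⟩
    refine wb_closed hr k fun a' ha => ?_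
    have := (h (a' / r) ((lt_div_iff₀ hr).2 ha)).2 i
    rwa [div_mul_cancel₀ _ hr.ne'] at this

theorem closed {U : Set Pt} {m : ℝ} {k : ℕ} {f : Pt → ℝ} {C : ℝ}
    (h : ∀ C', C < C' → SymOn U m k f C') : SymOn U m k f C := by
  intro y hy
  refine wb_closed (wt_pos _ y) k fun a' ha => ?_
  have := h (a' / wt m y) ((lt_div_iff₀ (wt_pos m y)).2 ha) y hy
  rwa [div_mul_cancel₀ _ (wt_pos m y).ne'] at this

theorem absorb (C : ℝ) (q : ℕ) : ∃ p : ℕ, ∀ K : ℝ, 2 ≤ K → C * K ^ q ≤ K ^ p := by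
  obtain ⟨N, hN⟩ := pow_unbounded_of_one_lt C (one_lt_two : (1 : ℝ) < 2)
  refine ⟨N + q, fun K hK => ?_⟩
  have h1 : (2 : ℝ) ^ N ≤ K ^ N := by gcongr
  rw [pow_add]
  have : 0 ≤ K ^ q := by positivity
  exact mul_le_mul_of_nonneg_right (hN.le.trans h1) this

section B

variable (B : B1Facts 4)
include B

theorem coord (i : Fin 4) (k : ℕ) : Sym 1 k (fun y => y i) 1 := by
  intro y _
  refine B.coord k i y (wt_pos _ y).le (by simpa using abs_le_wt y i) ?_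
  rw [one_mul, wt_sub_one, sub_self, wt_zero]

theorem mono {U U' : Set Pt} {m m' : ℝ} {k k' : ℕ} {f : Pt → ℝ} {C C' : ℝ}
    (h : SymOn U m k f C) (hU : U' ⊆ U) (hm : m ≤ m') (hk : k' ≤ k) (hC : C ≤ C') :
    SymOn U' m' k' f C' := by
  intro y hy
  have h1 := h y (hU hy)
  have h0 : 0 ≤ C :=
    nonneg_of_mul_nonneg_left ((abs_nonneg _).trans (B.nonneg h1)) (wt_pos m y)
  refine B.mono (B.of_le h1 hk) (wt_pos _ y).le le_rfl ?_
  exact mul_le_mul hC (wt_mono hm y) (wt_pos m y).le (h0.trans hC)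

theorem add {U : Set Pt} {m : ℝ} {k : ℕ} {f g : Pt → ℝ} {C C' : ℝ}
    (hf : ∀ y ∈ U, ContDiffAt ℝ ∞ f y) (hg : ∀ y ∈ U, ContDiffAt ℝ ∞ g y)
    (h : SymOn U m k f C) (h' : SymOn U m k g C') : SymOn U m k (f + g) (C + C') := by
  intro y hy
  rw [add_mul]
  exact B.add (hf y hy) (hg y hy) (h y hy) (h' y hy)

theorem smul {U : Set Pt} {m : ℝ} {k : ℕ} {f : Pt → ℝ} {C : ℝ} (c : ℝ)
    (hf : ∀ y ∈ U, ContDiffAt ℝ ∞ f y) (h : SymOn U m k f C) :
    SymOn U m k (c • f) (|c| * C) := by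
  intro y hy
  rw [mul_assoc]
  exact B.smul c (hf y hy) (h y hy)

theorem mul {U : Set Pt} {m m' : ℝ} {k : ℕ} {f g : Pt → ℝ} {C C' : ℝ}
    (hf : ∀ y ∈ U, ContDiffAt ℝ ∞ f y) (hg : ∀ y ∈ U, ContDiffAt ℝ ∞ g y)
    (h : SymOn U m k f C) (h' : SymOn U m' k g C') :
    SymOn U (m + m') k (f * g) (2 ^ k * C * C') := by
  intro y hy
  have := B.mul (hf y hy) (hg y hy) (h y hy) (h' y hy)
  have e : 2 ^ k * C * C' * wt (m + m') y = 2 ^ k * (C * wt m y) * (C' * wt m' y) := by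
    rw [wt_add]; ring
  rwa [e]

theorem wt_bd : ∀ (k : ℕ) (γ : ℝ), ∃ C, Sym γ k (wt γ) C
  | 0, γ => ⟨1, fun y _ => by
      change |wt γ y| ≤ 1 * wt γ y
      rw [abs_of_pos (wt_pos γ y), one_mul]⟩
  | k + 1, γ => by
    obtain ⟨C, hC⟩ := wt_bd k (γ - 2)
    refine ⟨max 1 (|γ| * (2 ^ k * 1 * C)), succ.2 ⟨fun y _ => ?_, fun i => ?_⟩⟩
    · rw [abs_of_pos (wt_pos γ y)]
      exact le_mul_of_one_le_left (wt_pos γ y).le (le_max_left _ _)
    · have e : pd i (wt γ) = γ • ((fun y : Pt => y i) * wt (γ - 2)) := by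
        funext y
        rw [wt_pd]
        simp [mul_assoc]
      have hc : ContDiff ℝ ∞ (fun y : Pt => y i) := contDiff_apply ℝ ℝ i
      rw [e]
      refine mono B (smul B γ (fun y _ => (hc.mul (contDiff_wt _)).contDiffAt)
        (mul B (fun y _ => hc.contDiffAt) (fun y _ => (contDiff_wt _).contDiffAt)
          (coord B i k) hC)) le_rfl (by linarith) le_rfl (le_max_right _ _)

theorem wt_sym (γ : ℝ) : IsSym γ (wt γ) :=
  ⟨fun _ _ => (contDiff_wt γ).contDiffAt, fun k => wt_bd B k γ⟩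

end B

theorem cc_pd {u : Pt → ℝ} (hu : CC u) (i : Fin 4) : CC (pd i u) :=
  ⟨contDiff_pdn hu.1 i, hu.2.fderiv_apply ℝ (Pi.single i 1)⟩

theorem cc_add {u v : Pt → ℝ} (hu : CC u) (hv : CC v) : CC (u + v) :=
  ⟨hu.1.add hv.1, hu.2.add hv.2⟩

theorem cc_mul {f u : Pt → ℝ} (hf : ContDiff ℝ ∞ f) (hu : CC u) : CC (f * u) :=
  ⟨hf.mul hu.1, hu.2.mul_left⟩

theorem cc_bd (B : B1Facts 4) : ∀ (k : ℕ) {u : Pt → ℝ}, CC u → ∀ m, ∃ C, Sym m k u C
  | 0, u, hu, m => by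
    have h := cc_mul (contDiff_wt (-m)) hu
    obtain ⟨C, hC⟩ := h.1.continuous.bounded_above_of_compact_support h.2
    refine ⟨C, fun y _ => ?_⟩
    change |u y| ≤ C * wt m y
    have h1 : |wt (-m) y * u y| ≤ C := hC y
    have e : u y = wt (-m) y * u y * wt m y := by
      rw [mul_right_comm, ← wt_add, neg_add_cancel, wt_zero, one_mul]
    rw [e, abs_mul, abs_of_pos (wt_pos m y)]
    exact mul_le_mul_of_nonneg_right h1 (wt_pos m y).le
  | k + 1, u, hu, m => by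
    obtain ⟨C, hC⟩ := cc_bd B 0 hu m
    choose D hD using fun i => cc_bd B k (cc_pd hu i) (m - 1)
    refine ⟨|C| + ∑ i, |D i|, succ.2 ⟨?_, fun i => ?_⟩⟩
    · have : 0 ≤ ∑ i, |D i| := Finset.sum_nonneg fun _ _ => abs_nonneg _
      exact mono B hC le_rfl le_rfl le_rfl (by linarith [le_abs_self C])
    · have : |D i| ≤ ∑ i, |D i| :=
        Finset.single_le_sum (f := fun i => |D i|) (fun _ _ => abs_nonneg _) (Finset.mem_univ i)
      exact mono B (hD i) le_rfl le_rfl le_rfl (by linarith [le_abs_self (D i), abs_nonneg C])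

theorem cc_sym (B : B1Facts 4) {u : Pt → ℝ} (hu : CC u) (m : ℝ) : IsSym m u :=
  ⟨fun _ _ => hu.1.contDiffAt, fun k => cc_bd B k hu m⟩

theorem cc_int {u v : Pt → ℝ} (hu : ContDiff ℝ ∞ u) (hv : CC v) :
    Integrable fun y => u y * v y :=
  (cc_mul hu hv).1.continuous.integrable_of_hasCompactSupport (cc_mul hu hv).2

theorem cc_int_sq {u : Pt → ℝ} (hu : CC u) : Integrable fun y => u y ^ 2 := by
  simpa [sq] using cc_int hu.1 hu

theorem int_sq_nonneg (u : Pt → ℝ) : 0 ≤ ∫ y, u y ^ 2 := integral_nonneg fun _ => sq_nonneg _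

theorem minkowski {u v : Pt → ℝ} (hu : CC u) (hv : CC v) :
    √(∫ y, (u y + v y) ^ 2) ≤ √(∫ y, u y ^ 2) + √(∫ y, v y ^ 2) := by
  have key : ∀ t : ℝ, ∫ y, (t * u y + v y) ^ 2 =
      (∫ y, u y ^ 2) * (t * t) + (2 * ∫ y, u y * v y) * t + ∫ y, v y ^ 2 := by
    intro t
    have e : (fun y => (t * u y + v y) ^ 2) =
        fun y => (u y ^ 2 * (t * t) + 2 * (u y * v y) * t) + v y ^ 2 := by
      funext y; ring
    have i1 : Integrable fun y => u y ^ 2 * (t * t) := (cc_int_sq hu).mul_const _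
    have i2 : Integrable fun y => 2 * (u y * v y) * t :=
      ((cc_int hu.1 hv).const_mul _).mul_const _
    have i3 : Integrable fun y => u y ^ 2 * (t * t) + 2 * (u y * v y) * t := i1.add i2
    rw [e, integral_add i3 (cc_int_sq hv), integral_add i1 i2, integral_mul_const,
      integral_mul_const, integral_const_mul]
  have hd := discrim_le_zero (a := ∫ y, u y ^ 2) (b := 2 * ∫ y, u y * v y) (c := ∫ y, v y ^ 2)
    fun t => by rw [← key]; exact int_sq_nonneg _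
  have hA := int_sq_nonneg u
  have hB := int_sq_nonneg v
  have h1 := key 1
  simp only [one_mul, mul_one] at h1
  rw [h1]
  have hI : ∫ y, u y * v y ≤ √(∫ y, u y ^ 2) * √(∫ y, v y ^ 2) := by
    rw [← Real.sqrt_mul hA]
    refine Real.le_sqrt_of_sq_le ?_
    unfold discrim at hd
    nlinarith
  refine Real.sqrt_le_iff.2 ⟨by positivity, ?_⟩
  nlinarith [Real.sq_sqrt hA, Real.sq_sqrt hB]

theorem nn_nonneg : ∀ (k : ℕ) (γ : ℝ) (u : Pt → ℝ), 0 ≤ nn k γ u
  | 0, _, _ => Real.sqrt_nonneg _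
  | k + 1, γ, _ => Finset.sum_nonneg fun _ _ => nn_nonneg k γ _

theorem cc_da {u : Pt → ℝ} (hu : CC u) (y : Pt) : DifferentiableAt ℝ u y :=
  hu.1.differentiable (by simp) y

theorem nn_add : ∀ (k : ℕ) (γ : ℝ) {u v : Pt → ℝ}, CC u → CC v →
    nn k γ (u + v) ≤ nn k γ u + nn k γ v
  | 0, γ, u, v, hu, hv => by
    have := minkowski (cc_mul (contDiff_wt γ) hu) (cc_mul (contDiff_wt γ) hv)
    simpa [nn, mul_add] using this
  | k + 1, γ, u, v, hu, hv => by
    simp only [nn]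
    rw [← Finset.sum_add_distrib]
    refine Finset.sum_le_sum fun i _ => ?_
    have e : pd i (u + v) = pd i u + pd i v :=
      funext fun y => pdn_add (cc_da hu y) (cc_da hv y) i
    rw [e]
    exact nn_add k γ (cc_pd hu i) (cc_pd hv i)

theorem nn_smul : ∀ (k : ℕ) (γ c : ℝ) {u : Pt → ℝ}, CC u → nn k γ (c • u) = |c| * nn k γ u
  | 0, γ, c, u, _ => by
    have e : (fun y => (wt γ y * (c • u) y) ^ 2) = fun y => c ^ 2 * (wt γ y * u y) ^ 2 := by
      funext y; simp only [Pi.smul_apply, smul_eq_mul]; ring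
    simp only [nn]
    rw [e, integral_const_mul, Real.sqrt_mul (sq_nonneg c), Real.sqrt_sq_eq_abs]
  | k + 1, γ, c, u, hu => by
    simp only [nn]
    rw [Finset.mul_sum]
    refine Finset.sum_congr rfl fun i _ => ?_
    have e : pd i (c • u) = c • pd i u := funext fun y => pdn_smul (cc_da hu y) c i
    rw [e]
    exact nn_smul k γ c (cc_pd hu i)

theorem nn_le (γ γ' A : ℝ) {u v : Pt → ℝ} (hu : CC u) (hv : CC v) (hA : 0 ≤ A)
    (h : ∀ y, |wt γ y * u y| ≤ A * |wt γ' y * v y|) : nn 0 γ u ≤ A * nn 0 γ' v := by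
  simp only [nn]
  rw [← Real.sqrt_sq hA, ← Real.sqrt_mul (sq_nonneg A), ← integral_const_mul]
  refine Real.sqrt_le_sqrt (integral_mono (cc_int_sq (cc_mul (contDiff_wt γ) hu))
    ((cc_int_sq (cc_mul (contDiff_wt γ') hv)).const_mul _) fun y => ?_)
  have := pow_le_pow_left₀ (abs_nonneg _) (h y) 2
  rwa [mul_pow, sq_abs, sq_abs] at this

theorem nn_mono : ∀ (k : ℕ) {γ γ' : ℝ} {u : Pt → ℝ}, CC u → γ ≤ γ' → nn k γ u ≤ nn k γ' u
  | 0, γ, γ', u, hu, h => by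
    have := nn_le γ γ' 1 hu hu zero_le_one fun y => by
      rw [one_mul, abs_mul, abs_mul, abs_of_pos (wt_pos _ y), abs_of_pos (wt_pos _ y)]
      exact mul_le_mul_of_nonneg_right (wt_mono h y) (abs_nonneg _)
    rwa [one_mul] at this
  | k + 1, _, _, _, hu, h => Finset.sum_le_sum fun i _ => nn_mono k (cc_pd hu i) h

theorem nn_succ (k : ℕ) (γ : ℝ) (u : Pt → ℝ) (i : Fin 4) : nn k γ (pd i u) ≤ nn (k + 1) γ u :=
  Finset.single_le_sum (f := fun i => nn k γ (pd i u)) (fun _ _ => nn_nonneg _ _ _)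
    (Finset.mem_univ i)

theorem wt_int {μ : ℝ} (h : μ < -2) : Integrable fun y => wt μ y ^ 2 := by
  have h1 : Integrable (fun x : Pt => ((1 : ℝ) + ‖x‖ ^ 2) ^ (-(-2 * μ) / 2)) :=
    integrable_rpow_neg_one_add_norm_sq (by simp; linarith)
  refine h1.mono' ((contDiff_wt μ).continuous.pow 2).aestronglyMeasurable
    (Eventually.of_forall fun y => ?_)
  rw [Real.norm_eq_abs, abs_of_nonneg (sq_nonneg _), sq, ← wt_add]
  unfold wt
  have e : -(-2 * μ) / 2 = (μ + μ) / 2 := by ring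
  rw [e]
  exact Real.rpow_le_rpow_of_nonpos (by positivity) (by linarith [norm_sq_le y]) (by linarith)

theorem nn_sym : ∀ (k : ℕ) (γ m : ℝ), m + γ - k < -2 →
    ∃ C : ℝ, ∀ u η, CC u → Sym m k u η → nn k γ u ≤ C * η
  | 0, γ, m, h => by
    have h' : γ + m < -2 := by simpa [add_comm] using h
    refine ⟨√(∫ y, wt (γ + m) y ^ 2), fun u η hu hs => ?_⟩
    have hb : ∀ y, |u y| ≤ η * wt m y := fun y => hs y trivial
    have h0 : 0 ≤ η := nonneg_of_mul_nonneg_left ((abs_nonneg _).trans (hb 0)) (wt_pos m 0)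
    simp only [nn]
    rw [mul_comm _ η, ← Real.sqrt_sq h0, ← Real.sqrt_mul (sq_nonneg η), ← integral_const_mul]
    refine Real.sqrt_le_sqrt (integral_mono (cc_int_sq (cc_mul (contDiff_wt γ) hu))
      ((wt_int h').const_mul _) fun y => ?_)
    have h2 := pow_le_pow_left₀ (abs_nonneg _) (hb y) 2
    rw [sq_abs] at h2
    calc (wt γ y * u y) ^ 2 = wt γ y ^ 2 * u y ^ 2 := by ring
      _ ≤ wt γ y ^ 2 * (η * wt m y) ^ 2 := by gcongr
      _ = η ^ 2 * wt (γ + m) y ^ 2 := by rw [wt_add]; ring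
  | k + 1, γ, m, h => by
    obtain ⟨C, hC⟩ := nn_sym k γ (m - 1) (by push_cast at h; linarith)
    refine ⟨4 * C, fun u η hu hs => ?_⟩
    have := fun i => hC _ η (cc_pd hu i) ((succ.1 hs).2 i)
    simp only [nn, Fin.sum_univ_four]
    linarith [this 0, this 1, this 2, this 3]

theorem ibp {f u : Pt → ℝ} (hf : ContDiff ℝ ∞ f) (hu : CC u) (i : Fin 4) :
    ∫ y, f y * pd i u y = -∫ y, pd i f y * u y :=
  integral_mul_fderiv_eq_neg_fderiv_mul_of_integrable (cc_int (contDiff_pdn hf i) hu)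
    (cc_int hf (cc_pd hu i)) (cc_int hf hu) (fun y _ => hf.differentiable (by simp) y)
    fun y _ => cc_da hu y

end L0

end Pool.Agent.Lib.MP_df9110_gt
end

-- part Pool.Agent.Lib.MP_df9110_gt.L0
section

/-! Matrix inverses of symbols, interpolation, cut-offs, and the collection `L0Facts`. -/

namespace Pool.Agent.Lib.MP_df9110_gt

open Filter Topology MeasureTheory
open scoped ContDiff Matrix

namespace L0

theorem qf_eq (A : Mat) (v : Pt) : qf A v = v ⬝ᵥ (A *ᵥ v) := by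
  simp only [qf, dotProduct, Matrix.mulVec, Finset.mul_sum]
  exact Finset.sum_congr rfl fun a _ => Finset.sum_congr rfl fun b _ => by ring

theorem nsq_pos {v : Pt} (hv : v ≠ 0) : 0 < nsq v := by
  obtain ⟨i, hi⟩ := Function.ne_iff.1 hv
  have : 0 < v i ^ 2 := sq_pos_of_ne_zero hi
  linarith [sq_le_nsq v i]

theorem posDef {A : Mat} {K : ℝ} (hK : 2 ≤ K) (hs : A.IsSymm)
    (he : ∀ ξ, K⁻¹ * nsq ξ ≤ qf A ξ) : A.PosDef := by
  refine Matrix.PosDef.of_dotProduct_mulVec_pos ?_ fun x hx => ?_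
  · simpa [Matrix.IsHermitian, Matrix.IsSymm] using hs
  · have h1 := he x
    rw [qf_eq] at h1
    have : 0 < K⁻¹ * nsq x := mul_pos (inv_pos.2 (by linarith)) (nsq_pos hx)
    simpa using this.trans_le h1

theorem inv_entry {A : Mat} {K : ℝ} (hK : 2 ≤ K) (hd : IsUnit A.det)
    (he : ∀ ξ, K⁻¹ * nsq ξ ≤ qf A ξ) (i j : Fin 4) : |A⁻¹ i j| ≤ K := by
  have hK0 : 0 < K := by linarith
  set v : Pt := A⁻¹ *ᵥ Pi.single j 1 with hv
  have hvi : ∀ i, v i = A⁻¹ i j := fun i => by simp [hv]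
  have hA : A *ᵥ v = Pi.single j 1 := by
    rw [hv, Matrix.mulVec_mulVec, Matrix.mul_nonsing_inv _ hd, Matrix.one_mulVec]
  have h1 := he v
  rw [qf_eq, hA, dotProduct_single, mul_one, inv_mul_le_iff₀ hK0] at h1
  have h0 := nsq_nonneg v
  have h2 : nsq v ≤ K ^ 2 := by
    by_contra hc
    have hc := not_le.1 hc
    have h3 : nsq v * nsq v ≤ (K * v j) * (K * v j) := mul_self_le_mul_self h0 h1
    have h4 : K ^ 2 * v j ^ 2 ≤ K ^ 2 * nsq v :=
      mul_le_mul_of_nonneg_left (sq_le_nsq v j) (sq_nonneg K)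
    have h5 : 0 < nsq v := lt_of_le_of_lt (sq_nonneg K) hc
    nlinarith
  rw [← hvi]
  exact abs_le.2 (abs_le_of_sq_le_sq' ((sq_le_nsq v i).trans h2) hK0.le)

theorem inv_ell {A : Mat} {K : ℝ} (hK : 2 ≤ K) (hd : IsUnit A.det) (hb : ∀ i j, |A i j| ≤ K)
    (he : ∀ ξ, K⁻¹ * nsq ξ ≤ qf A ξ) (ξ : Pt) : (K ^ 7)⁻¹ * nsq ξ ≤ qf (A⁻¹ : Mat) ξ := by
  have hK0 : 0 < K := by linarith
  set v : Pt := A⁻¹ *ᵥ ξ with hv
  have hA : A *ᵥ v = ξ := by
    rw [hv, Matrix.mulVec_mulVec, Matrix.mul_nonsing_inv _ hd, Matrix.one_mulVec]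
  have h1 := he v
  rw [qf_eq, hA] at h1
  rw [qf_eq, ← hv, dotProduct_comm]
  refine le_trans ?_ h1
  have h2 : ∀ i, ξ i ^ 2 ≤ 4 * K ^ 2 * nsq v := by
    intro i
    have e : ξ i = ∑ j, A i j * v j := by rw [← hA]; rfl
    have h3 := Finset.sum_mul_sq_le_sq_mul_sq Finset.univ (fun j => A i j) v
    have h4 : ∑ j, A i j ^ 2 ≤ 4 * K ^ 2 := by
      have := fun j => pow_le_pow_left₀ (abs_nonneg _) (hb i j) 2
      simp only [sq_abs] at this
      rw [Fin.sum_univ_four]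
      linarith [this 0, this 1, this 2, this 3]
    rw [e]
    exact h3.trans (mul_le_mul_of_nonneg_right h4 (nsq_nonneg v))
  have h3 : nsq ξ ≤ 16 * K ^ 2 * nsq v := by
    unfold nsq at h2 ⊢
    rw [Fin.sum_univ_four (f := fun i => ξ i ^ 2)]
    linarith [h2 0, h2 1, h2 2, h2 3]
  have h4 : (16 : ℝ) ≤ K ^ 4 := by
    calc (16 : ℝ) = 2 ^ 4 := by norm_num
      _ ≤ K ^ 4 := by gcongr
  rw [inv_mul_le_iff₀ (by positivity)]
  have e : K ^ 7 * (K⁻¹ * nsq v) = K ^ 4 * K ^ 2 * nsq v := by field_simp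
  rw [e]
  refine h3.trans ?_
  have := nsq_nonneg v
  gcongr

theorem cd_det {g : Pt → Mat} {y : Pt} (h : ∀ i j, ContDiffAt ℝ ∞ (fun z => g z i j) y) :
    ContDiffAt ℝ ∞ (fun z => (g z).det) y := by
  simp only [Matrix.det_apply']
  exact ContDiffAt.sum fun σ _ => contDiffAt_const.mul (contDiffAt_prod fun i _ => h _ _)

theorem cd_inv {g : Pt → Mat} {y : Pt} (h : ∀ i j, ContDiffAt ℝ ∞ (fun z => g z i j) y)
    (hd : (g y).det ≠ 0) (i j : Fin 4) : ContDiffAt ℝ ∞ (fun z => (g z)⁻¹ i j) y := by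
  have e : (fun z => (g z)⁻¹ i j) =
      fun z => ((g z).det)⁻¹ * ((g z).updateRow j (Pi.single i 1)).det := by
    funext z
    rw [Matrix.inv_def, Matrix.smul_apply, Matrix.adjugate_apply, Ring.inverse_eq_inv',
      smul_eq_mul]
  rw [e]
  refine ((cd_det h).inv hd).mul (cd_det fun a b => ?_)
  simp only [Matrix.updateRow_apply]
  split_ifs
  · exact contDiffAt_const
  · exact h a b

theorem pdn_inv {g : Pt → Mat} {y : Pt} (h : ∀ i j, ContDiffAt ℝ ∞ (fun z => g z i j) y)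
    (hd : (g y).det ≠ 0) (l i j : Fin 4) : pdn l (fun z => (g z)⁻¹ i j) =ᶠ[𝓝 y]
      (-1 : ℝ) • ∑ ab : Fin 4 × Fin 4, (fun z => (g z)⁻¹ i ab.1) * pdn l (fun z => g z ab.1 ab.2) *
        fun z => (g z)⁻¹ ab.2 j := by
  have h1 : ∀ᶠ q in 𝓝 y, ∀ a b, DifferentiableAt ℝ (fun z => g z a b) q :=
    eventually_all.2 fun a => eventually_all.2 fun b => ev_diff (h a b)
  have h2 : ∀ᶠ q in 𝓝 y, ∀ a b, DifferentiableAt ℝ (fun z => (g z)⁻¹ a b) q :=
    eventually_all.2 fun a => eventually_all.2 fun b => ev_diff (cd_inv h hd a b)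
  have h3 : ∀ᶠ q in 𝓝 y, (g q).det ≠ 0 := (cd_det h).continuousAt.eventually_ne hd
  filter_upwards [h1, h2, h3.eventually_nhds] with q h1 h2 h3
  set D : Mat := Matrix.of fun a b => pdn l (fun z => g z a b) q with hD
  set E : Mat := Matrix.of fun a b => pdn l (fun z => (g z)⁻¹ a b) q with hE
  have hu : IsUnit (g q).det := h3.self_of_nhds.isUnit
  have key : g q * E + D * (g q)⁻¹ = 0 := by
    ext a c
    have hF : HasFDerivAt (fun z => ∑ b, g z a b * (g z)⁻¹ b c) _ q :=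
      HasFDerivAt.fun_sum (u := Finset.univ) fun b _ =>
        (h1 a b).hasFDerivAt.fun_mul (h2 b c).hasFDerivAt
    have hc : (fun z => ∑ b, g z a b * (g z)⁻¹ b c) =ᶠ[𝓝 q] fun _ => (1 : Mat) a c := by
      filter_upwards [h3] with z hz
      rw [← Matrix.mul_apply, Matrix.mul_nonsing_inv _ hz.isUnit]
    have h0 := (hF.congr_of_eventuallyEq hc.symm).unique (hasFDerivAt_const _ q)
    have h4 := congrArg (fun L : Pt →L[ℝ] ℝ => L (Pi.single l 1)) h0
    simp only [sum_apply, add_apply, smul_apply, smul_eq_mul, zero_apply] at h4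
    simp only [Matrix.add_apply, Matrix.mul_apply, hD, hE, Matrix.of_apply, pdn,
      Matrix.zero_apply]
    rw [← Finset.sum_add_distrib, ← h4]
    exact Finset.sum_congr rfl fun b _ => by ring
  have key2 : E = -((g q)⁻¹ * D * (g q)⁻¹) := by
    have : (g q)⁻¹ * (g q * E + D * (g q)⁻¹) = 0 := by rw [key, Matrix.mul_zero]
    rw [Matrix.mul_add, ← Matrix.mul_assoc, Matrix.nonsing_inv_mul _ hu, Matrix.one_mul,
      ← Matrix.mul_assoc] at this
    exact eq_neg_of_add_eq_zero_left this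
  have h5 := congrFun (congrFun key2 i) j
  simp only [hE, hD, Matrix.of_apply, Matrix.neg_apply, Matrix.mul_apply, Finset.sum_mul] at h5
  rw [h5, Finset.sum_comm]
  simp only [Pi.smul_apply, Finset.sum_apply, Pi.mul_apply, smul_eq_mul, neg_one_mul,
    Fintype.sum_prod_type]

section B

variable (B : B1Facts 4)
include B

theorem wb_sum {ι : Type} {r a : ℝ} {k : ℕ} {f : ι → Pt → ℝ} {p : Pt} (hr : 0 ≤ r)
    (hf : ∀ b, ContDiffAt ℝ ∞ (f b) p) (h : ∀ b, WB r k a (f b) p) (s : Finset ι) :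
    ContDiffAt ℝ ∞ (∑ b ∈ s, f b) p ∧ WB r k (s.card * a) (∑ b ∈ s, f b) p := by
  classical
  induction s using Finset.induction_on with
  | empty =>
    refine ⟨contDiffAt_const, ?_⟩
    have := B.const k 0 p hr
    rw [abs_zero] at this
    rw [Finset.card_empty, Nat.cast_zero, zero_mul]
    exact this
  | insert b s hb ih =>
    rw [Finset.sum_insert hb, Finset.card_insert_of_notMem hb]
    refine ⟨(hf b).add ih.1, ?_⟩
    have := B.add (hf b) ih.1 (h b) ih.2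
    have e : ((s.card + 1 : ℕ) : ℝ) * a = a + s.card * a := by push_cast; ring
    rwa [e]

theorem wb_inv : ∀ k : ℕ, ∃ p : ℕ, ∀ (g : Pt → Mat) (y : Pt) (r K : ℝ), 0 ≤ r → 2 ≤ K →
    (∀ i j, ContDiffAt ℝ ∞ (fun z => g z i j) y) → (g y).det ≠ 0 →
    (∀ i j, |(g y)⁻¹ i j| ≤ K) → (∀ i j, WB r k K (fun z => g z i j) y) →
    ∀ i j, WB r k (K ^ p) (fun z => (g z)⁻¹ i j) y
  | 0 => ⟨1, fun g y r K _ _ _ _ hb _ i j => by
      change |(g y)⁻¹ i j| ≤ K ^ 1
      rw [pow_one]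
      exact hb i j⟩
  | k + 1 => by
    obtain ⟨p, hp⟩ := wb_inv k
    obtain ⟨q, hq⟩ := absorb (16 * (2 ^ k * 2 ^ k)) (2 * p + 1)
    refine ⟨q + 1, fun g y r K hr hK hs hd hb hw i j => ⟨?_, fun l => ?_⟩⟩
    · refine (hb i j).trans ?_
      rw [pow_succ]
      exact le_mul_of_one_le_left (by linarith) (one_le_pow₀ (by linarith))
    · have ih := hp g y r K hr hK hs hd hb fun i j => B.of_le (hw i j) (Nat.le_succ k)
      have hc := cd_inv hs hd
      have h1 := wb_sum B (f := fun ab : Fin 4 × Fin 4 =>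
          (fun z => (g z)⁻¹ i ab.1) * pdn l (fun z => g z ab.1 ab.2) * fun z => (g z)⁻¹ ab.2 j) hr
        (fun ab => ((hc _ _).mul (contDiffAt_pdn (hs _ _) l)).mul (hc _ _))
        (fun ab => B.mul ((hc _ _).mul (contDiffAt_pdn (hs _ _) l)) (hc _ _)
          (B.mul (hc _ _) (contDiffAt_pdn (hs _ _) l) (ih _ _) ((hw _ _).2 l)) (ih _ _))
        Finset.univ
      have h2 := B.congr (B.smul (-1) h1.1 h1.2) (pdn_inv hs hd l i j).symm
      refine B.mono h2 hr le_rfl ?_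
      have h3 := hq K hK
      have h4 : K ^ q ≤ K ^ (q + 1) := pow_le_pow_right₀ (by linarith) (Nat.le_succ q)
      have e : |(-1 : ℝ)| * (((Finset.univ : Finset (Fin 4 × Fin 4)).card : ℝ) *
          (2 ^ k * (2 ^ k * K ^ p * (K * r)) * K ^ p)) =
          16 * (2 ^ k * 2 ^ k) * K ^ (2 * p + 1) * r := by
        simp only [abs_neg, abs_one, Finset.card_univ, Fintype.card_prod, Fintype.card_fin]
        push_cast
        ring
      rw [e]
      exact mul_le_mul_of_nonneg_right (h3.trans h4) hr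

theorem inv (k : ℕ) : ∃ p : ℕ, ∀ (U : Set Pt) (g : Pt → Mat) (K : ℝ), 2 ≤ K →
    (∀ i j, ∀ y ∈ U, ContDiffAt ℝ ∞ (fun z => g z i j) y) → (∀ y, (g y).IsSymm) →
    (∀ i j, SymOn U 0 k (fun z => g z i j) K) → (∀ y ∈ U, ∀ ξ, K⁻¹ * nsq ξ ≤ qf (g y) ξ) →
    (∀ i j, ∀ y ∈ U, ContDiffAt ℝ ∞ (fun z => (g z)⁻¹ i j) y) ∧
    (∀ i j, SymOn U 0 k (fun z => (g z)⁻¹ i j) (K ^ p)) ∧
    ∀ y ∈ U, (g y).PosDef ∧ ∀ ξ, (K ^ p)⁻¹ * nsq ξ ≤ qf (fun a b => (g y)⁻¹ a b) ξ := by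
  obtain ⟨p, hp⟩ := wb_inv B k
  refine ⟨p + 7, fun U g K hK hs hsy hb he => ?_⟩
  have hpd : ∀ y ∈ U, (g y).PosDef := fun y hy => posDef hK (hsy y) (he y hy)
  have hd : ∀ y ∈ U, (g y).det ≠ 0 := fun y hy => (hpd y hy).det_pos.ne'
  have hw : ∀ y ∈ U, ∀ i j, WB (wt (-1) y) k K (fun z => g z i j) y := fun y hy i j => by
    have := hb i j y hy
    rwa [wt_zero, mul_one] at this
  have hK1 : 1 ≤ K := by linarith
  refine ⟨fun i j y hy => cd_inv (fun a b => hs a b y hy) (hd y hy) i j, fun i j y hy => ?_,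
    fun y hy => ⟨hpd y hy, fun ξ => ?_⟩⟩
  · rw [wt_zero, mul_one]
    refine B.mono (hp g y _ K (wt_pos _ y).le hK (fun a b => hs a b y hy) (hd y hy)
      (inv_entry hK (hd y hy).isUnit (he y hy)) (hw y hy) i j) (wt_pos _ y).le le_rfl ?_
    exact pow_le_pow_right₀ hK1 (Nat.le_add_right p 7)
  · refine le_trans ?_
      (inv_ell hK (hd y hy).isUnit (fun i j => B.nonneg (hw y hy i j)) (he y hy) ξ)
    refine mul_le_mul_of_nonneg_right ?_ (nsq_nonneg ξ)
    exact inv_anti₀ (by positivity) (pow_le_pow_right₀ hK1 (Nat.le_add_left 7 p))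

end B

theorem nsq_add_single (y : Pt) (i : Fin 4) (t : ℝ) :
    nsq (y + Pi.single i t) = nsq y + 2 * t * y i + t ^ 2 := by
  have e : ∀ j, (y + Pi.single i t : Pt) j ^ 2 =
      y j ^ 2 + (if j = i then 2 * t * y i + t ^ 2 else 0) := by
    intro j
    by_cases h : j = i
    · subst h; simp; ring
    · simp [h]
  simp only [nsq, e, Finset.sum_add_distrib, Finset.sum_ite_eq', Finset.mem_univ, if_true]
  ring

theorem wt_near (γ : ℝ) (y : Pt) (i : Fin 4) {t : ℝ} (ht : |t| ≤ wt 1 y / 2) :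
    wt γ (y + Pi.single i t) ≤ (4 : ℝ) ^ (|γ| / 2) * wt γ y := by
  have h1 : t ^ 2 ≤ (1 + nsq y) / 4 := by
    have := pow_le_pow_left₀ (abs_nonneg _) ht 2
    rw [sq_abs, div_pow, wt_one_sq] at this
    linarith
  have h2 := sq_le_nsq y i
  have hW := base_pos y
  have hu : 1 + nsq (y + Pi.single i t) ≤ 4 * (1 + nsq y) := by
    rw [nsq_add_single]; nlinarith [sq_nonneg (t - y i)]
  have hl : 4⁻¹ * (1 + nsq y) ≤ 1 + nsq (y + Pi.single i t) := by
    rw [nsq_add_single]; nlinarith [sq_nonneg (2 * t + y i)]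
  unfold wt
  rcases le_total 0 γ with h | h
  · rw [abs_of_nonneg h, ← Real.mul_rpow (by norm_num) hW.le]
    exact Real.rpow_le_rpow (base_pos _).le hu (by linarith)
  · rw [abs_of_nonpos h, neg_div, Real.rpow_neg (by norm_num), ← Real.inv_rpow (by norm_num),
      ← Real.mul_rpow (by norm_num) hW.le]
    exact Real.rpow_le_rpow_of_nonpos (by positivity) hl (by linarith)

theorem interp (sl : SLStmt) (m : ℝ) : ∃ C : ℝ, ∀ (f : Pt → ℝ) (a b s : ℝ), ContDiff ℝ ∞ f →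
    0 < s → s ≤ 1 → Sym m 0 f a → Sym m 2 f b → Sym m 1 f (C * (a / s + b * s)) := by
  set c₀ : ℝ := (4 : ℝ) ^ (|m| / 2)
  set c₂ : ℝ := (4 : ℝ) ^ (|m - 1 - 1| / 2)
  have h₀ : 0 < c₀ := by positivity
  have h₂ : 0 < c₂ := by positivity
  refine ⟨1 + 4 * c₀ + c₂, fun f a b s hf hs hs1 ha hb => ?_⟩
  have hfa : ∀ y, |f y| ≤ a * wt m y := fun y => ha y trivial
  have hfb : ∀ i y, |pd i (pd i f) y| ≤ b * wt (m - 1 - 1) y := fun i y =>
    (succ.1 ((succ.1 hb).2 i)).2 i y trivial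
  have ha0 : 0 ≤ a := nonneg_of_mul_nonneg_left ((abs_nonneg _).trans (hfa 0)) (wt_pos _ 0)
  have hb0 : 0 ≤ b := nonneg_of_mul_nonneg_left ((abs_nonneg _).trans (hfb 0 0)) (wt_pos _ 0)
  have hA : 0 ≤ a / s := by positivity
  have hB : 0 ≤ b * s := by positivity
  refine succ.2 ⟨fun y _ => (hfa y).trans ?_, fun i y _ => ?_⟩
  · refine mul_le_mul_of_nonneg_right ?_ (wt_pos m y).le
    have : a ≤ a / s := le_div_self ha0 hs hs1
    nlinarith [mul_nonneg h₀.le hA, mul_nonneg h₂.le hA, mul_nonneg h₀.le hB, mul_nonneg h₂.le hB]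
  · have hw := wt_pos 1 y
    have key := (sl 4).2 f y (s * wt 1 y / 2) (a * (c₀ * wt m y))
      (b * (c₂ * wt (m - 1 - 1) y)) i (by positivity) fun t ht => by
        have ht' : |t| ≤ wt 1 y / 2 := ht.trans (by nlinarith)
        exact ⟨hf.contDiffAt,
          (hfa _).trans (mul_le_mul_of_nonneg_left (wt_near m y i ht') ha0),
          (hfb i _).trans (mul_le_mul_of_nonneg_left (wt_near _ y i ht') hb0)⟩
    change |pdn i f y| ≤ _
    refine key.trans ?_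
    have e1 : wt m y = wt (m - 1) y * wt 1 y := by rw [← wt_add, sub_add_cancel]
    have e2 : wt (m - 1) y = wt (m - 1 - 1) y * wt 1 y := by rw [← wt_add, sub_add_cancel]
    have e3 : 2 * (a * (c₀ * wt m y)) / (s * wt 1 y / 2) +
        b * (c₂ * wt (m - 1 - 1) y) * (s * wt 1 y / 2) =
        (4 * c₀ * (a / s) + c₂ / 2 * (b * s)) * wt (m - 1) y := by
      rw [e1, add_mul]
      congr 1
      · field_simp
        ring
      · rw [e2]; ring
    rw [e3]
    refine mul_le_mul_of_nonneg_right ?_ (wt_pos _ y).le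
    nlinarith [mul_nonneg h₀.le hA, mul_nonneg h₂.le hA, mul_nonneg h₀.le hB, mul_nonneg h₂.le hB]

/-- The profile of the cut-offs. -/
noncomputable def φ (t : ℝ) : ℝ := Real.smoothTransition (2 - t)

theorem φ_cd : ContDiff ℝ ∞ φ :=
  Real.smoothTransition.contDiff.comp (contDiff_const.sub contDiff_id)

theorem φ_bd (k : ℕ) : ∃ A : ℝ, 0 ≤ A ∧ ∀ j ≤ k, ∀ t ∈ Set.Icc (0 : ℝ) 3,
    |iteratedDeriv j φ t| ≤ A := by
  have h : ∀ j : ℕ, ∃ A, ∀ t ∈ Set.Icc (0 : ℝ) 3, ‖iteratedDeriv j φ t‖ ≤ A := fun j =>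
    isCompact_Icc.exists_bound_of_continuousOn
      (φ_cd.continuous_iteratedDeriv j (by exact_mod_cast le_top)).continuousOn
  choose A hA using h
  refine ⟨∑ j ∈ Finset.range (k + 1), |A j|, Finset.sum_nonneg fun _ _ => abs_nonneg _,
    fun j hj t ht => ((hA j t ht).trans (le_abs_self _)).trans ?_⟩
  exact Finset.single_le_sum (f := fun j => |A j|) (fun _ _ => abs_nonneg _)
    (Finset.mem_range.2 (Nat.lt_succ_of_le hj))

theorem cut (B : B1Facts 4) : ∃ χ : ℕ → Pt → ℝ, (∀ n, CC (χ n)) ∧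
    (∀ (n : ℕ) y, nsq y ≤ (n : ℝ) ^ 2 → χ n y = 1) ∧ ∀ k, ∃ C, ∀ n, Sym 0 k (χ n) C := by
  set u : ℕ → Pt → ℝ := fun n => (1 + (n : ℝ) ^ 2)⁻¹ • wt 2 with hu
  have hN : ∀ n : ℕ, 0 < 1 + (n : ℝ) ^ 2 := fun n => by positivity
  have hus : ∀ n, ContDiff ℝ ∞ (u n) := fun n => contDiff_const.mul (contDiff_wt 2)
  have hue : ∀ n y, u n y = (1 + nsq y) / (1 + (n : ℝ) ^ 2) := fun n y => by
    simp only [hu, Pi.smul_apply, smul_eq_mul, wt_two]
    rw [div_eq_inv_mul]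
  have hz : ∀ n y, 2 ≤ u n y → (φ ∘ u n) y = 0 := fun n y h =>
    Real.smoothTransition.zero_of_nonpos (by linarith)
  refine ⟨fun n => φ ∘ u n, fun n => ⟨φ_cd.comp (hus n), ?_⟩, fun n y hy => ?_, fun k => ?_⟩
  · refine HasCompactSupport.intro (isCompact_closedBall (0 : Pt) (2 * (1 + (n : ℝ) ^ 2)))
      fun y hy => hz n y ?_
    rw [mem_closedBall_zero_iff, not_le] at hy
    rw [hue, le_div_iff₀ (hN n)]
    nlinarith [norm_sq_le y, sq_nonneg (n : ℝ), sq_nonneg (‖y‖ - 1)]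
  · refine Real.smoothTransition.one_of_one_le ?_
    have : u n y ≤ 1 := by rw [hue, div_le_one (hN n)]; linarith
    linarith
  · obtain ⟨C, hC⟩ := B.comp1 k
    obtain ⟨A, hA0, hA⟩ := φ_bd (k + 1)
    refine ⟨|C * A * (1 + 6) ^ (k + 1)|, fun n y _ => ?_⟩
    rw [wt_zero, mul_one]
    have hr := (wt_pos (-1) y).le
    rcases le_or_gt (u n y) 3 with h | h
    · have h0 : 0 ≤ u n y := by rw [hue]; exact div_nonneg (base_pos y).le (hN n).le
      refine B.mono (B.of_le (hC (hus n).contDiffAt φ_cd.contDiffAt hr (by norm_num : (0 : ℝ) ≤ 6)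
        (fun j hj => hA j hj _ ⟨h0, h⟩) fun i => ?_) (Nat.le_succ k)) hr le_rfl (le_abs_self _)
      have e : pdn i (u n) = (2 * (1 + (n : ℝ) ^ 2)⁻¹) • fun q : Pt => q i := by
        funext q
        rw [hu, pdn_smul ((contDiff_wt 2).differentiable (by simp) q), ← pd_eq_pdn, wt_pd,
          sub_self, wt_zero]
        simp only [Pi.smul_apply, smul_eq_mul]
        ring
      rw [e]
      refine B.mono (B.smul _ (contDiff_apply ℝ ℝ i).contDiffAt (coord B i k y trivial)) hr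
        le_rfl ?_
      have e1 : wt 1 y = (1 + nsq y) * wt (-1) y := by
        rw [← wt_two, wt_sub_one]; norm_num
      rw [hue, div_eq_inv_mul] at h
      rw [abs_of_pos (by have := hN n; positivity), one_mul, e1, ← mul_assoc]
      exact mul_le_mul_of_nonneg_right (by linarith) hr
    · have hev : (fun _ => (0 : ℝ)) =ᶠ[𝓝 y] φ ∘ u n := by
        filter_upwards [(hus n).continuous.continuousAt.eventually (lt_mem_nhds h)] with q hq
        exact (hz n q (by linarith)).symm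
      exact B.mono (B.congr (B.const k 0 y hr) hev) hr le_rfl (by rw [abs_zero]; exact abs_nonneg _)

end L0

theorem l0 (b1 : B1Stmt) (sl : SLStmt) : L0Facts where
  wt_pos := L0.wt_pos
  wt_add := L0.wt_add
  wt_zero := L0.wt_zero
  wt_two := L0.wt_two
  wt_mono := L0.wt_mono
  wt_sym := L0.wt_sym (b1 4)
  wt_pd := L0.wt_pd
  coord := L0.coord (b1 4)
  mono := L0.mono (b1 4)
  add := L0.add (b1 4)
  smul := L0.smul (b1 4)
  mul := L0.mul (b1 4)
  succ := L0.succ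
  closed := L0.closed
  inv := L0.inv (b1 4)
  interp := L0.interp sl
  cc_sym := L0.cc_sym (b1 4)
  cc_pd := L0.cc_pd
  cc_add := L0.cc_add
  cc_mul := L0.cc_mul
  nn_nonneg := L0.nn_nonneg
  nn_add := L0.nn_add
  nn_smul := L0.nn_smul
  nn_mono := L0.nn_mono
  nn_succ := fun k γ u _ i => L0.nn_succ k γ u i
  nn_le := L0.nn_le
  nn_sym := L0.nn_sym
  ibp := L0.ibp
  cut := L0.cut (b1 4)
  absorb := L0.absorb

end Pool.Agent.Lib.MP_df9110_gt
end

-- part Pool.Agent.Lib.MP_df9110_gt.M0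
section

/-! The symbol calculus of families. -/

namespace Pool.Agent.Lib.MP_df9110_gt

open Filter Topology
open scoped ContDiff

namespace M0

/-- A class of elements and an ideal in it. -/
structure Two {R ι : Type} [CommRing R] [Algebra ℝ R] (D : ι → R → R)
    (P N : ℕ → ℝ → R → Prop) : Prop where
  one : P 0 0 1
  zero : ∀ j m, N j m 0
  np : ∀ {j m a}, N j m a → P j m a
  addP : ∀ {j m a b}, P j m a → P j m b → P j m (a + b)
  addN : ∀ {j m a b}, N j m a → N j m b → N j m (a + b)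
  smulP : ∀ {j m a} (c : ℝ), P j m a → P j m (c • a)
  smulN : ∀ {j m a} (c : ℝ), N j m a → N j m (c • a)
  monoP : ∀ {j j' m m' a}, P j m a → j ≤ j' → m ≤ m' → P j' m' a
  monoN : ∀ {j j' m m' a}, N j m a → j ≤ j' → m ≤ m' → N j' m' a
  mulP : ∀ {j m m' a b}, P j m a → P j m' b → P j (m + m') (a * b)
  mulN : ∀ {j m m' a b}, P j m a → N j m' b → N j (m + m') (a * b)
  derP : ∀ {j m a} (i : ι), P j m a → j < 2 → P (j + 1) (m - 1) (D i a)
  derN : ∀ {j m a} (i : ι), N j m a → j < 2 → N (j + 1) (m - 1) (D i a)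
  derS : ∀ {j m a b} (i : ι), P j m a → N j m (b - a) → j < 2 → N (j + 1) (m - 1) (D i b - D i a)

namespace Two

variable {R ι : Type} [CommRing R] [Algebra ℝ R] {D : ι → R → R} {P N : ℕ → ℝ → R → Prop}
  (h : Two D P N)
include h

theorem grdP : Grd 1 D fun _ j m a => P j m a :=
  ⟨fun _ _ _ => h.np (h.zero _ _), h.one, h.addP, h.smulP, fun a b _ c => h.monoP a b c, h.mulP,
    h.derP⟩

theorem grdN : Grd 1 D fun d j m a => if d = 0 then P j m a else N j m a := by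
  refine ⟨fun d j m => ?_, by simpa using h.one, fun {d} => ?_, fun {d} => ?_, fun {d} => ?_,
    fun {d} => ?_, fun {d} => ?_⟩ <;> by_cases hd : d = 0 <;>
    simp only [hd, if_true, if_false]
  exacts [h.np (h.zero _ _), h.zero _ _, h.addP, h.addN, h.smulP, h.smulN,
    fun a b _ c => h.monoP a b c, fun a b _ c => h.monoN a b c, h.mulP, h.mulN, h.derP, h.derN]

theorem grdC : Grd 1 (pairD D) fun _ j m z => P j m z.1 ∧ N j m (z.2 - z.1) := by
  refine ⟨fun _ j m => ⟨h.np (h.zero _ _), by simpa using h.zero j m⟩,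
    ⟨h.one, by simpa using h.zero 0 0⟩, fun ha hb => ⟨h.addP ha.1 hb.1, ?_⟩,
    fun c ha => ⟨h.smulP c ha.1, ?_⟩, fun ha b _ c => ⟨h.monoP ha.1 b c, h.monoN ha.2 b c⟩,
    fun {d j m m' a b} ha hb => ⟨h.mulP ha.1 hb.1, ?_⟩,
    fun i ha hj => ⟨h.derP i ha.1 hj, h.derS i ha.1 ha.2 hj⟩⟩
  · convert h.addN ha.2 hb.2 using 1
    simp only [Prod.fst_add, Prod.snd_add]
    ring
  · convert h.smulN c ha.2 using 1
    simp only [Prod.smul_fst, Prod.smul_snd, smul_sub]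
  · have h1 := h.mulN (h.addP hb.1 (h.np hb.2)) ha.2
    rw [add_comm m'] at h1
    convert h.addN (h.mulN ha.1 hb.2) h1 using 1
    simp only [Prod.fst_mul, Prod.snd_mul]
    ring

end Two

theorem pd_sub {f g : Pt → ℝ} {y : Pt} (hf : ContDiffAt ℝ ∞ f y) (hg : ContDiffAt ℝ ∞ (g - f) y)
    (i : Fin 4) : pd i (g - f) y = (pd i g - pd i f) y := by
  have := pdn_add (hf.differentiableAt (by simp)) (hg.differentiableAt (by simp)) i
  rw [add_sub_cancel] at this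
  simp only [pd_eq_pdn, Pi.sub_apply, this]
  ring

theorem qf_sub (g g' : Mat) (ξ : Pt) {η : ℝ} (h : ∀ a b, |g' a b - g a b| ≤ η) :
    qf g ξ - 4 * η * nsq ξ ≤ qf g' ξ := by
  have h1 : ∀ a b, g a b * (ξ a * ξ b) - η * ((ξ a ^ 2 + ξ b ^ 2) / 2) ≤ g' a b * (ξ a * ξ b) := by
    intro a b
    have h2 := abs_le.1 (h a b)
    nlinarith [mul_nonneg (sub_nonneg.2 h2.2) (sq_nonneg (ξ a - ξ b)),
      mul_nonneg (sub_nonneg.2 h2.1) (sq_nonneg (ξ a + ξ b))]
  refine le_trans (le_of_eq ?_) (Finset.sum_le_sum fun a _ => Finset.sum_le_sum fun b _ => h1 a b)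
  simp only [qf, nsq, Fin.sum_univ_four]
  ring

theorem nsq_nonneg (ξ : Pt) : 0 ≤ nsq ξ := Finset.sum_nonneg fun _ _ => sq_nonneg _

theorem inv_sub {g g' : Mat} (h : g.PosDef) (h' : g'.PosDef) (a b : Fin 4) :
    g'⁻¹ a b - g⁻¹ a b = -∑ c, ∑ d, g'⁻¹ a c * (g⁻¹ d b * (g' c d - g c d)) := by
  have h1 : g'⁻¹ - g⁻¹ = -(g'⁻¹ * ((g' - g) * g⁻¹)) := by
    rw [Matrix.sub_mul, Matrix.mul_nonsing_inv _ (Matrix.isUnit_iff_isUnit_det _ |>.1 h.isUnit),
      Matrix.mul_sub, ← Matrix.mul_assoc,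
      Matrix.nonsing_inv_mul _ (Matrix.isUnit_iff_isUnit_det _ |>.1 h'.isUnit)]
    simp
  have h2 := congrFun (congrFun h1 a) b
  simp only [Matrix.sub_apply, Matrix.neg_apply, Matrix.mul_apply, Finset.mul_sum] at h2
  rw [h2]
  simp only [mul_comm]

theorem inv_ell {g : Mat} (h : g.PosDef) {K : ℝ} (hK : 2 ≤ K) (hb : ∀ a b, |g a b| ≤ K)
    (he : ∀ ξ, K⁻¹ * nsq ξ ≤ qf g ξ) (ξ : Pt) :
    (K ^ 7)⁻¹ * nsq ξ ≤ qf (fun a b => g⁻¹ a b) ξ := by
  obtain ⟨η, hη⟩ : ∃ η, η = g⁻¹.mulVec ξ := ⟨_, rfl⟩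
  have h1 : ∀ a, ξ a = ∑ b, g a b * η b := fun a => by
    have : g.mulVec η = ξ := by
      rw [hη, Matrix.mulVec_mulVec,
        Matrix.mul_nonsing_inv _ (Matrix.isUnit_iff_isUnit_det _ |>.1 h.isUnit), Matrix.one_mulVec]
    exact (congrFun this a).symm
  have h2 : qf (fun a b => g⁻¹ a b) ξ = qf g η := by
    refine Finset.sum_congr rfl fun a _ => ?_
    have h3 : η a = ∑ b, g⁻¹ a b * ξ b := congrFun hη a
    calc _ = ξ a * η a := by rw [h3, Finset.mul_sum]; exact Finset.sum_congr rfl fun _ _ => by ring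
      _ = _ := by rw [h1 a, Finset.sum_mul]; exact Finset.sum_congr rfl fun _ _ => by ring
  have h4 : ∀ a, ξ a ^ 2 ≤ 4 * K ^ 2 * nsq η := fun a => by
    rw [h1 a]
    refine (Finset.sum_mul_sq_le_sq_mul_sq _ _ _).trans
      (mul_le_mul_of_nonneg_right ?_ (nsq_nonneg η))
    refine (Finset.sum_le_sum fun b _ => sq_le_sq' (abs_le.1 (hb a b)).1 (abs_le.1 (hb a b)).2).trans
      (by simp)
  have h5 : nsq ξ ≤ K ^ 4 * K ^ 2 * nsq η := by
    refine (Finset.sum_le_sum fun a _ => h4 a).trans ?_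
    have : (2 : ℝ) ^ 4 ≤ K ^ 4 := by gcongr
    have h6 := mul_nonneg (sq_nonneg K) (nsq_nonneg η)
    simp only [Finset.sum_const, Finset.card_univ, Fintype.card_fin, nsmul_eq_mul]
    push_cast
    nlinarith
  rw [h2]
  refine ((mul_le_mul_of_nonneg_left h5 (by positivity)).trans (le_of_eq ?_)).trans (he η)
  field_simp

variable (b1 : B1Stmt) (l0 : L0Facts)
include b1 l0

theorem sym_const (U : Set Pt) (k : ℕ) (c : ℝ) : SymOn U 0 k (fun _ => c) |c| := fun y _ => by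
  rw [l0.wt_zero, mul_one]
  exact (b1 4).const k c y (l0.wt_pos _ _).le

theorem sym_zero (U : Set Pt) (m : ℝ) (k : ℕ) {C : ℝ} (hC : 0 ≤ C) : SymOn U m k 0 C :=
  fun y _ => (b1 4).mono ((b1 4).const k 0 y (l0.wt_pos _ _).le) (l0.wt_pos _ _).le le_rfl
    (by simpa using mul_nonneg hC (l0.wt_pos m y).le)

theorem two_sym {U : Set Pt} (hU : IsOpen U) {κ : ℝ} (hκ : 0 ≤ κ) :
    Two pd (fun _ m f => IsSymOn U m f) fun _ m f => IsSymOn U (m - κ) f := by
  have add : ∀ {m a b}, IsSymOn U m a → IsSymOn U m b → IsSymOn U m (a + b) := fun ha hb =>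
    ⟨fun y hy => (ha.1 y hy).add (hb.1 y hy), fun k =>
      ⟨_, l0.add ha.1 hb.1 (ha.2 k).choose_spec (hb.2 k).choose_spec⟩⟩
  have smul : ∀ {m a} (c : ℝ), IsSymOn U m a → IsSymOn U m (c • a) := fun c ha =>
    ⟨fun y hy => (ha.1 y hy).const_smul c, fun k => ⟨_, l0.smul c ha.1 (ha.2 k).choose_spec⟩⟩
  have mono : ∀ {m m' a}, IsSymOn U m a → m ≤ m' → IsSymOn U m' a := fun ha h =>
    ⟨ha.1, fun k => ⟨_, l0.mono (ha.2 k).choose_spec subset_rfl h le_rfl le_rfl⟩⟩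
  have mul : ∀ {m m' a b}, IsSymOn U m a → IsSymOn U m' b → IsSymOn U (m + m') (a * b) :=
    fun ha hb => ⟨fun y hy => (ha.1 y hy).mul (hb.1 y hy), fun k =>
      ⟨_, l0.mul ha.1 hb.1 (ha.2 k).choose_spec (hb.2 k).choose_spec⟩⟩
  have der : ∀ {m a} (i : Fin 4), IsSymOn U m a → IsSymOn U (m - 1) (pd i a) := fun i ha =>
    ⟨fun y hy => contDiffAt_pdn (ha.1 y hy) i, fun k =>
      ⟨_, (l0.succ.1 (ha.2 (k + 1)).choose_spec).2 i⟩⟩
  refine ⟨⟨fun _ _ => contDiffAt_const, fun k => ⟨_, sym_const b1 l0 U k 1⟩⟩,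
    fun _ _ => ⟨fun _ _ => contDiffAt_const, fun k => ⟨0, sym_zero b1 l0 U _ k le_rfl⟩⟩,
    fun h => mono h (by linarith), add, add, smul, smul, fun h _ => mono h,
    fun h _ h' => mono h (by linarith), mul, fun ha hb => mono (mul ha hb) (by linarith),
    fun i h _ => der i h, fun i h _ => mono (der i h) (by linarith),
    fun {_ m a b} i ha hb _ => ?_⟩
  have h1 := mono (der i hb) (show m - κ - 1 ≤ m - 1 - κ by linarith)
  have h2 : ∀ y ∈ U, pd i (b - a) =ᶠ[𝓝 y] pd i b - pd i a := fun y hy => by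
    filter_upwards [hU.mem_nhds hy] with z hz using pd_sub (ha.1 z hz) (hb.1 z hz) i
  exact ⟨fun y hy => (h1.1 y hy).congr_of_eventuallyEq (h2 y hy).symm,
    fun k => (h1.2 k).imp fun _ h y hy => (b1 4).congr (h y hy) (h2 y hy)⟩

theorem two_univ : Two pd (fun _ m f => IsSym m f) fun _ m f => IsSym m f := by
  simpa only [sub_zero] using two_sym b1 l0 isOpen_univ le_rfl

omit b1 in
theorem isSym_inv {g : Pt → Mat} (hs : ∀ y, (g y).IsSymm) (hg : ∀ a b, IsSym 0 (gf g a b)) {c : ℝ}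
    (hc : 0 < c) (he : ∀ y ξ, c⁻¹ * nsq ξ ≤ qf (g y) ξ) (a b : Fin 4) : IsSym 0 (Gf g a b) := by
  have key : ∀ k, ∃ C, (∀ y ∈ Set.univ, ContDiffAt ℝ ∞ (Gf g a b) y) ∧ Sym 0 k (Gf g a b) C := by
    intro k
    obtain ⟨p, hp⟩ := l0.inv k
    choose C hC using fun z : Fin 4 × Fin 4 => (hg z.1 z.2).2 k
    obtain ⟨K, hK⟩ := (Set.finite_range C).bddAbove
    have h := hp Set.univ g (max (max 2 c) K) ((le_max_left _ _).trans (le_max_left _ _))
      (fun i j => (hg i j).1) hs (fun i j => l0.mono (hC (i, j)) subset_rfl le_rfl le_rfl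
        ((hK (Set.mem_range_self _)).trans (le_max_right _ _))) fun y _ ξ =>
      (mul_le_mul_of_nonneg_right (inv_anti₀ hc ((le_max_right _ _).trans (le_max_left _ _)))
        (nsq_nonneg ξ)).trans (he y ξ)
    exact ⟨_, h.1 a b, h.2.1 a b⟩
  exact ⟨(key 0).choose_spec.1, fun k => (key k).imp fun _ h => h.2⟩

section Family

variable {I : Type} {l : Filter I} {Λ : I → ℝ} (hΛ : ∀ i, 2 ≤ Λ i) {k : ℕ} {m : ℝ}
  {F G : I → Pt → ℝ}
include hΛ

omit b1 l0 in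
theorem one_le (i : I) (p : ℕ) : 1 ≤ Λ i ^ p := one_le_pow₀ (by linarith [hΛ i])

omit b1 l0 in
theorem pow_le (i : I) {p q : ℕ} (h : p ≤ q) : Λ i ^ p ≤ Λ i ^ q :=
  pow_le_pow_right₀ (by linarith [hΛ i]) h

omit b1 in
theorem modK_of (hs : ∀ᶠ i in l, ContDiff ℝ ∞ (F i)) (C : ℝ) (q : ℕ)
    (h : ∀ᶠ i in l, Sym m k (F i) (C * Λ i ^ q)) : ModK l Λ k m F := by
  obtain ⟨p, hp⟩ := l0.absorb C q
  exact ⟨hs, p, h.mono fun i hi => l0.mono hi subset_rfl le_rfl le_rfl (hp _ (hΛ i))⟩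

omit b1 in
theorem negK_of (hs : ∀ᶠ i in l, ContDiff ℝ ∞ (F i)) (C : ℝ) (q : ℕ)
    (h : ∀ p : ℕ, ∀ᶠ i in l, Sym m k (F i) (C * Λ i ^ q * (Λ i ^ p)⁻¹)) : NegK l Λ k m F := by
  obtain ⟨r, hr⟩ := l0.absorb C q
  refine ⟨hs, fun p => (h (r + p)).mono fun i hi => l0.mono hi subset_rfl le_rfl le_rfl ?_⟩
  have h1 := one_le hΛ i r
  have h2 := one_le hΛ i p
  rw [pow_add, mul_inv, ← mul_assoc]
  refine mul_le_of_le_one_left (by positivity) ?_
  rw [← div_eq_mul_inv, div_le_one (by positivity)]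
  exact hr _ (hΛ i)

omit b1 l0 hΛ in
theorem NegK.congr (h : NegK l Λ k m F) (e : ∀ᶠ i in l, F i = G i) : NegK l Λ k m G :=
  ⟨by filter_upwards [h.1, e] with i h1 h2 using h2 ▸ h1,
    fun p => by filter_upwards [h.2 p, e] with i h1 h2 using h2 ▸ h1⟩

theorem two_K (n : ℕ → ℕ) (h0 : ∀ j j', j ≤ j' → n j' ≤ n j) (h1 : ∀ j < 2, n (j + 1) + 1 ≤ n j) :
    Two (fD (I := I) (n := 4)) (fun j m F => ModK l Λ (n j) m F)
      fun j m F => NegK l Λ (n j) m F := by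
  have at' : ∀ {f : Pt → ℝ}, ContDiff ℝ ∞ f → ∀ y ∈ Set.univ, ContDiffAt ℝ ∞ f y :=
    fun h _ _ => h.contDiffAt
  have derN : ∀ {j m} {a : I → Pt → ℝ} (i : Fin 4), NegK l Λ (n j) m a → j < 2 →
      NegK l Λ (n (j + 1)) (m - 1) (fD i a) := fun c ha hj =>
    ⟨ha.1.mono fun i hi => contDiff_pdn hi c, fun p => (ha.2 p).mono fun i hi =>
      (l0.succ.1 (l0.mono hi subset_rfl le_rfl (h1 _ hj) le_rfl)).2 c⟩
  refine ⟨⟨.of_forall fun _ => contDiff_const, 0, .of_forall fun i =>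
      l0.mono (sym_const b1 l0 Set.univ (n 0) 1) subset_rfl le_rfl le_rfl (by simp)⟩,
    fun j m => ⟨.of_forall fun _ => contDiff_const, fun p => .of_forall fun i =>
      sym_zero b1 l0 _ _ _ (by have := one_le hΛ i p; positivity)⟩,
    fun h => ⟨h.1, 0, by simpa using h.2 0⟩, fun ha hb => ?_, fun ha hb => ?_, fun c ha => ?_,
    fun c ha => ?_, fun ha hj hm => ⟨ha.1, ha.2.imp fun p h => h.mono fun i hi =>
      l0.mono hi subset_rfl hm (h0 _ _ hj) le_rfl⟩,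
    fun ha hj hm => ⟨ha.1, fun p => (ha.2 p).mono fun i hi =>
      l0.mono hi subset_rfl hm (h0 _ _ hj) le_rfl⟩, fun {j} _ _ _ _ ha hb => ?_,
    fun {j} _ _ _ _ ha hb => ?_,
    fun c ha hj => ⟨ha.1.mono fun i hi => contDiff_pdn hi c, ha.2.imp fun p h => h.mono fun i hi =>
      (l0.succ.1 (l0.mono hi subset_rfl le_rfl (h1 _ hj) le_rfl)).2 c⟩, derN,
    fun c ha hb hj => NegK.congr (derN c hb hj) ?_⟩
  · obtain ⟨p, hp⟩ := ha.2
    obtain ⟨q, hq⟩ := hb.2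
    refine modK_of l0 hΛ (by filter_upwards [ha.1, hb.1] with i a b using a.add b) 2 (p + q) ?_
    filter_upwards [ha.1, hb.1, hp, hq] with i a1 a2 a3 a4
    exact l0.mono (l0.add (at' a1) (at' a2) a3 a4) subset_rfl le_rfl le_rfl
      (by linarith [pow_le hΛ i (Nat.le_add_right p q), pow_le hΛ i (Nat.le_add_left q p)])
  · refine negK_of l0 hΛ (by filter_upwards [ha.1, hb.1] with i a b using a.add b) 2 0 fun p => ?_
    filter_upwards [ha.1, hb.1, ha.2 p, hb.2 p] with i a1 a2 a3 a4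
    exact l0.mono (l0.add (at' a1) (at' a2) a3 a4) subset_rfl le_rfl le_rfl (le_of_eq (by ring))
  · obtain ⟨p, hp⟩ := ha.2
    refine modK_of l0 hΛ (ha.1.mono fun i a => a.const_smul c) |c| p ?_
    filter_upwards [ha.1, hp] with i a1 a2 using l0.smul c (at' a1) a2
  · refine negK_of l0 hΛ (ha.1.mono fun i a => a.const_smul c) |c| 0 fun p => ?_
    filter_upwards [ha.1, ha.2 p] with i a1 a2
    exact l0.mono (l0.smul c (at' a1) a2) subset_rfl le_rfl le_rfl (le_of_eq (by ring))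
  · obtain ⟨p, hp⟩ := ha.2
    obtain ⟨q, hq⟩ := hb.2
    refine modK_of l0 hΛ (by filter_upwards [ha.1, hb.1] with i a b using a.mul b) (2 ^ n j)
      (p + q) ?_
    filter_upwards [ha.1, hb.1, hp, hq] with i a1 a2 a3 a4
    exact l0.mono (l0.mul (at' a1) (at' a2) a3 a4) subset_rfl le_rfl le_rfl (le_of_eq (by ring))
  · obtain ⟨q, hq⟩ := ha.2
    refine negK_of l0 hΛ (by filter_upwards [ha.1, hb.1] with i a b using a.mul b) (2 ^ n j) q
      fun p => ?_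
    filter_upwards [ha.1, hb.1, hq, hb.2 p] with i a1 a2 a3 a4 using l0.mul (at' a1) (at' a2) a3 a4
  · filter_upwards [ha.1, hb.1] with i a1 a2
    exact funext fun y => pd_sub a1.contDiffAt a2.contDiffAt c

theorem twoK (k : ℕ) : Two (fD (I := I) (n := 4)) (fun j m F => ModK l Λ (k + 2 - j) m F)
    fun j m F => NegK l Λ (k + 2 - j) m F :=
  two_K b1 l0 hΛ _ (fun _ _ _ => by omega) fun _ _ => by omega

theorem two_mod : Two (fD (I := I) (n := 4)) (fun _ m F => Mod l Λ m F)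
    fun _ m F => Neg l Λ m F := by
  have S := two_univ b1 l0
  have T := fun k => twoK (l := l) b1 l0 hΛ k
  refine ⟨⟨.of_forall fun _ => S.one, fun k => (T k).monoP (j' := 2) (T k).one (by simp) le_rfl⟩,
    fun _ m => ⟨.of_forall fun _ => S.zero 0 m, fun k => (T k).zero 2 m⟩,
    fun h => ⟨h.1, fun k => (T k).np (j := 2) (h.2 k)⟩,
    fun ha hb => ⟨by filter_upwards [ha.1, hb.1] with i a b using S.addP (j := 0) a b,
      fun k => (T k).addP (j := 2) (ha.2 k) (hb.2 k)⟩,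
    fun ha hb => ⟨by filter_upwards [ha.1, hb.1] with i a b using S.addP (j := 0) a b,
      fun k => (T k).addN (j := 2) (ha.2 k) (hb.2 k)⟩,
    fun c ha => ⟨ha.1.mono fun i a => S.smulP (j := 0) c a,
      fun k => (T k).smulP (j := 2) c (ha.2 k)⟩,
    fun c ha => ⟨ha.1.mono fun i a => S.smulP (j := 0) c a,
      fun k => (T k).smulN (j := 2) c (ha.2 k)⟩,
    fun ha _ h => ⟨ha.1.mono fun i a => S.monoP (j := 0) a le_rfl h,
      fun k => (T k).monoP (j := 2) (ha.2 k) le_rfl h⟩,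
    fun ha _ h => ⟨ha.1.mono fun i a => S.monoP (j := 0) a le_rfl h,
      fun k => (T k).monoN (j := 2) (ha.2 k) le_rfl h⟩,
    fun ha hb => ⟨by filter_upwards [ha.1, hb.1] with i a b using S.mulP (j := 0) a b,
      fun k => (T k).mulP (j := 2) (ha.2 k) (hb.2 k)⟩,
    fun ha hb => ⟨by filter_upwards [ha.1, hb.1] with i a b using S.mulP (j := 0) a b,
      fun k => (T k).mulN (j := 2) (ha.2 k) (hb.2 k)⟩,
    fun c ha _ => ⟨ha.1.mono fun i a => S.derP (j := 0) c a (by simp),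
      fun k => (T k).derP (j := 1) c (ha.2 _) (by simp)⟩,
    fun c ha _ => ⟨ha.1.mono fun i a => S.derP (j := 0) c a (by simp),
      fun k => (T k).derN (j := 1) c (ha.2 _) (by simp)⟩,
    fun c ha hb _ => ⟨(ha.1.and hb.1).mono fun i a => S.derS (j := 0) c a.1 a.2 (by simp),
      fun k => (T k).derS (j := 1) c (ha.2 _) (hb.2 _) (by simp)⟩⟩

theorem interp (k : ℕ) : ∀ {m : ℝ} {F : I → Pt → ℝ}, Mod l Λ m F → NegK l Λ 0 m F →
    NegK l Λ k m F := by
  induction k with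
  | zero => exact fun _ h => h
  | succ k ih =>
    intro m F hF h0
    obtain ⟨C, hC⟩ := l0.interp m
    obtain ⟨q, hq⟩ := (hF.2 2).2
    have h1 : NegK l Λ 1 m F := by
      refine negK_of l0 hΛ h0.1 (2 * |C|) q fun p => ?_
      filter_upwards [h0.1, h0.2 (p + p), hq] with i a1 a2 a3
      have b1 := one_le hΛ i p
      have b2 := one_le hΛ i q
      have b3 : 0 < (Λ i ^ p)⁻¹ := by positivity
      refine l0.mono (hC _ _ _ (Λ i ^ p)⁻¹ a1 b3 (inv_le_one_of_one_le₀ b1) a2 a3) subset_rfl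
        le_rfl le_rfl ?_
      rw [pow_add, mul_inv, mul_div_assoc, div_self b3.ne', mul_one]
      refine (mul_le_mul_of_nonneg_right (le_abs_self C) (by positivity)).trans ?_
      nlinarith [mul_le_mul_of_nonneg_left b2 (mul_nonneg (abs_nonneg C) b3.le)]
    have h2 := fun c => ih ((two_mod b1 l0 hΛ).derP (j := 0) c hF (by simp))
      ((two_K b1 l0 hΛ (fun j => 2 - j) (fun _ _ _ => by omega) fun _ _ => by omega).derN
        (j := 1) c h1 (by simp))
    refine ⟨h0.1, fun p => ?_⟩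
    filter_upwards [h0.2 p, eventually_all.2 fun c => (h2 c).2 p] with i a1 a2
    exact l0.succ.2 ⟨a1, a2⟩

theorem invK {g : I → Pt → Mat} (he : EllF l Λ g)
    (hg : ∀ a b, ModK l Λ k 0 fun i => gf (g i) a b) :
    (∀ a b, ModK l Λ k 0 fun i => Gf (g i) a b) ∧ (∀ᶠ i in l, ∀ y, (g i y).PosDef) ∧
      EllF l Λ fun i y => (g i y)⁻¹ := by
  obtain ⟨p, hp⟩ := l0.inv k
  obtain ⟨q, hq⟩ := he.2
  choose r hr using fun z : Fin 4 × Fin 4 => (hg z.1 z.2).2
  obtain ⟨s, hs⟩ := (Set.finite_range r).bddAbove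
  have h2 : ∀ i, 2 ≤ Λ i ^ (q + s + 1) := fun i =>
    (hΛ i).trans (by simpa using pow_le hΛ i (show 1 ≤ q + s + 1 by omega))
  have hb : ∀ᶠ i in l, ∀ a b, Sym 0 k (gf (g i) a b) (Λ i ^ (q + s + 1)) :=
    (eventually_all.2 hr).mono fun i hi a b =>
      l0.mono (hi (a, b)) subset_rfl le_rfl le_rfl (pow_le hΛ i (by
        have := hs (Set.mem_range_self (a, b))
        omega))
  have hc : ∀ᶠ i in l, ∀ y ξ, (Λ i ^ (q + s + 1))⁻¹ * nsq ξ ≤ qf (g i y) ξ :=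
    hq.mono fun i hi y ξ => (mul_le_mul_of_nonneg_right (inv_anti₀
      (zero_lt_one.trans_le (one_le hΛ i q)) (pow_le hΛ i (by omega))) (nsq_nonneg ξ)).trans (hi y ξ)
  have key := (hb.and (hc.and (eventually_all.2 fun z : Fin 4 × Fin 4 => (hg z.1 z.2).1))).mono
    fun i hi => hp Set.univ (g i) _ (h2 i) (fun a b _ _ => (hi.2.2 (a, b)).contDiffAt) (he.1 i)
      hi.1 fun y _ => hi.2.1 y
  simp only [← pow_mul] at key
  refine ⟨fun a b => ⟨key.mono fun i hi => contDiff_iff_contDiffAt.2 fun y => hi.1 a b y trivial,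
    _, key.mono fun i hi => hi.2.1 a b⟩, key.mono fun i hi y => (hi.2.2 y trivial).1,
    fun i y => (he.1 i y).inv, (q + s + 1) * 7, ?_⟩
  filter_upwards [key, hb, hc] with i a1 a2 a3 y ξ
  rw [pow_mul]
  exact inv_ell (a1.2.2 y trivial).1 (h2 i) (fun a b => by
    simpa [l0.wt_zero, gf] using (b1 4).nonneg
      (l0.mono (a2 a b) subset_rfl le_rfl (Nat.zero_le k) le_rfl y trivial)) (a3 y) ξ

theorem clK {g g' : I → Pt → Mat} (he : EllF l Λ g)
    (hg : ∀ a b, ModK l Λ k 0 fun i => gf (g i) a b) (hs : ∀ i y, (g' i y).IsSymm)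
    (hd : ∀ a b, NegK l Λ k 0 fun i => gf (g' i) a b - gf (g i) a b) :
    EllF l Λ g' ∧ ∀ a b, NegK l Λ k 0 fun i => Gf (g' i) a b - Gf (g i) a b := by
  have T := twoK (l := l) b1 l0 hΛ k
  obtain ⟨q, hq⟩ := he.2
  have he' : EllF l Λ g' := by
    refine ⟨hs, q + 1, ?_⟩
    filter_upwards [hq, eventually_all.2 fun z : Fin 4 × Fin 4 => (hd z.1 z.2).2 (q + 3)]
      with i a1 a2 y ξ
    have h1 := qf_sub (g i y) (g' i y) ξ (η := (Λ i ^ (q + 3))⁻¹) fun a b => by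
      simpa [l0.wt_zero, gf] using (b1 4).nonneg (a2 (a, b) y trivial)
    have h2 := hΛ i
    have h3 := one_le hΛ i q
    have h4 : (Λ i ^ (q + 1))⁻¹ ≤ (Λ i ^ q)⁻¹ / 2 := by
      rw [pow_succ, mul_inv, div_eq_mul_inv]
      gcongr
    have h5 : (Λ i ^ (q + 3))⁻¹ ≤ (Λ i ^ q)⁻¹ / 2 ^ 3 := by
      rw [pow_add, mul_inv, div_eq_mul_inv]
      gcongr
    nlinarith [a1 y ξ, mul_le_mul_of_nonneg_right h4 (nsq_nonneg ξ),
      mul_le_mul_of_nonneg_right h5 (nsq_nonneg ξ)]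
  have hg' : ∀ a b, ModK l Λ k 0 fun i => gf (g' i) a b := fun a b => by
    rw [show (fun i => gf (g' i) a b) = (fun i => gf (g i) a b) +
      fun i => gf (g' i) a b - gf (g i) a b by funext i; simp]
    exact T.addP (j := 2) (hg a b) (T.np (j := 2) (hd a b))
  have i1 := invK b1 l0 hΛ he hg
  have i2 := invK b1 l0 hΛ he' hg'
  refine ⟨he', fun a b => ?_⟩
  have h1 : ∀ c d, NegK l Λ k 0 ((fun i => Gf (g' i) a c) * ((fun i => Gf (g i) d b) *
      fun i => gf (g' i) c d - gf (g i) c d)) := fun c d => by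
    simpa using T.mulN (j := 2) (i2.1 a c) (T.mulN (i1.1 d b) (hd c d))
  have sum : ∀ H : Fin 4 → I → Pt → ℝ, (∀ c, NegK l Λ k 0 (H c)) → NegK l Λ k 0 (∑ c, H c) :=
    fun H hH => Finset.sum_induction _ _ (fun _ _ => T.addN (j := 2)) (T.zero 2 0) fun c _ => hH c
  refine NegK.congr (T.smulN (j := 2) (-1) (sum _ fun c => sum _ fun d => h1 c d)) ?_
  filter_upwards [i1.2.1, i2.2.1] with i a1 a2
  funext y
  simp [Gf, gf, inv_sub (a1 y) (a2 y), Finset.sum_apply]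

theorem inv {g : I → Pt → Mat} (he : EllF l Λ g) (hg : ∀ a b, Mod l Λ 0 fun i => gf (g i) a b)
    (a b : Fin 4) : Mod l Λ 0 fun i => Gf (g i) a b := by
  obtain ⟨q, hq⟩ := he.2
  refine ⟨?_, fun k => (invK b1 l0 hΛ he fun a b => (hg a b).2 k).1 a b⟩
  filter_upwards [hq, eventually_all.2 fun z : Fin 4 × Fin 4 => (hg z.1 z.2).1] with i a1 a2
  exact isSym_inv l0 (he.1 i) (fun a b => a2 (a, b)) (zero_lt_one.trans_le (one_le hΛ i q)) a1 a b

theorem facts : M0Facts l Λ := by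
  have S := two_univ b1 l0
  have T := two_mod (l := l) b1 l0 hΛ
  refine ⟨T.grdP, T.grdN, T.grdC,
    (two_K b1 l0 hΛ (fun j => 2 - j) (fun _ _ _ => by omega) fun _ _ => by omega).grdC,
    T.np (j := 0), fun c => ⟨.of_forall fun _ => ⟨fun _ _ => by fun_prop, fun k => ⟨_, l0.coord c k⟩⟩,
      fun k => ⟨.of_forall fun _ => by fun_prop, 0, .of_forall fun _ => by
        simpa using l0.coord c k⟩⟩,
    fun γ => ⟨.of_forall fun _ => l0.wt_sym γ, fun k => ?_⟩,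
    fun β p h => ⟨.of_forall fun i => ⟨fun _ _ => contDiffAt_const, fun k =>
      ⟨_, sym_const b1 l0 _ k (β i)⟩⟩, fun k => ⟨.of_forall fun _ => contDiff_const, p,
        h.mono fun i hi => l0.mono (sym_const b1 l0 _ k (β i)) subset_rfl le_rfl le_rfl hi⟩⟩,
    fun hF h => ⟨hF.1, fun k => interp b1 l0 hΛ k hF
      ⟨(hF.2 0).1, fun p => (h p).mono fun i hi y _ => hi y⟩⟩,
    fun g he hg => ⟨inv b1 l0 hΛ he hg, ?_, (invK b1 l0 hΛ he fun a b => (hg a b).2 0).2.2⟩,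
    fun g g' he hg hs hd => ?_,
    fun g g' he hg hs hd => clK b1 l0 hΛ he (fun a b => (hg a b).2 2) hs hd⟩
  · obtain ⟨C, hC⟩ := (l0.wt_sym γ).2 k
    exact modK_of l0 hΛ (.of_forall fun _ => contDiff_iff_contDiffAt.2 fun y =>
      (l0.wt_sym γ).1 y trivial) C 0 (.of_forall fun _ => by simpa using hC)
  · filter_upwards [(invK b1 l0 hΛ he fun a b => (hg a b).2 0).2.1,
      eventually_all.2 fun z : Fin 4 × Fin 4 => ((hg z.1 z.2).2 0).1] with i a1 a2
    exact ⟨fun a b => (a2 (a, b)).contDiffOn, fun y _ => a1 y⟩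
  · have h := fun k => clK b1 l0 hΛ he (fun a b => (hg a b).2 k) hs fun a b => (hd a b).2 k
    have hg' : ∀ a b, Mod l Λ 0 fun i => gf (g' i) a b := fun a b => by
      rw [show (fun i => gf (g' i) a b) = (fun i => gf (g i) a b) +
        fun i => gf (g' i) a b - gf (g i) a b by funext i; simp]
      exact T.addP (j := 0) (hg a b) (T.np (j := 0) (hd a b))
    refine ⟨(h 0).1, fun a b => ⟨?_, fun k => (h k).2 a b⟩⟩
    filter_upwards [(inv b1 l0 hΛ he hg a b).1, (inv b1 l0 hΛ (h 0).1 hg' a b).1] with i a1 a2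
    simpa [sub_eq_add_neg] using S.addP (j := 0) a2 (S.smulP (j := 0) (-1) a1)

end Family

end M0

theorem m0 (b1 : B1Stmt) (l0 : L0Facts) : M0Stmt :=
  ⟨fun _ _ _ hΛ => M0.facts b1 l0 hΛ, fun _ _ hU hκ =>
    ⟨(M0.two_sym b1 l0 hU hκ).grdP, (M0.two_sym b1 l0 hU hκ).grdC⟩⟩

end Pool.Agent.Lib.MP_df9110_gt
end
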