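import Pool.Agent.Lib.MP_df9110_gt.SegCat

/-! The middle part of the profile, glued between two products. -/

namespace Pool.Agent.Lib.MP_df9110_gt

open Set Filter Topology
open scoped ContDiff

namespace Mid

/-! ### The products -/

noncomputable def tq (s : ℝ) : Fin 2 → ℝ → ℝ :=
  ![fun x => Real.cos (x - s) / Real.sin (x - s), fun x => -(Real.sin (x - s) / Real.cos (x - s))]

lemma sc_pos {s x : ℝ} (hx : x ∈ Ioo s (s + Real.pi / 2)) :
    0 < Real.sin (x - s) ∧ 0 < Real.cos (x - s) := by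
  obtain ⟨h1, h2⟩ := hx
  have := Real.pi_pos
  exact ⟨Real.sin_pos_of_pos_of_lt_pi (by linarith) (by linarith),
    Real.cos_pos_of_mem_Ioo ⟨by linarith, by linarith⟩⟩

lemma trg_pos {s x : ℝ} (hx : x ∈ Ioo s (s + Real.pi / 2)) (i : Fin 2) : 0 < trg s i x := by
  obtain ⟨h1, h2⟩ := sc_pos hx
  fin_cases i
  · simpa [trg] using h1
  · simpa [trg] using h2

lemma tq_smooth (s : ℝ) (i : Fin 2) : ContDiffOn ℝ ∞ (tq s i) (Ioo s (s + Real.pi / 2)) := by
  have hs : ContDiffOn ℝ ∞ (fun x => Real.sin (x - s)) (Ioo s (s + Real.pi / 2)) := by fun_prop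
  have hc : ContDiffOn ℝ ∞ (fun x => Real.cos (x - s)) (Ioo s (s + Real.pi / 2)) := by fun_prop
  fin_cases i
  · exact hc.div hs fun x hx => (sc_pos hx).1.ne'
  · exact (hs.div hc fun x hx => (sc_pos hx).2.ne').neg

lemma hd_sin (s x : ℝ) : HasDerivAt (fun x => Real.sin (x - s)) (Real.cos (x - s)) x := by
  simpa using ((hasDerivAt_id x).sub_const s).sin

lemma hd_cos (s x : ℝ) : HasDerivAt (fun x => Real.cos (x - s)) (-Real.sin (x - s)) x := by
  simpa using ((hasDerivAt_id x).sub_const s).cos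

lemma hd_log {s x : ℝ} (hx : x ∈ Ioo s (s + Real.pi / 2)) (i : Fin 2) :
    HasDerivAt (fun x => Real.log (trg s i x)) (tq s i x) x := by
  obtain ⟨h1, h2⟩ := sc_pos hx
  fin_cases i
  · exact (hd_sin s x).log h1.ne'
  · have := (hd_cos s x).log h2.ne'
    rw [neg_div] at this
    exact this

lemma hd_tq {s x : ℝ} (hx : x ∈ Ioo s (s + Real.pi / 2)) (i : Fin 2) :
    HasDerivAt (tq s i) (-(1 + tq s i x ^ 2)) x := by
  obtain ⟨h1, h2⟩ := sc_pos hx
  fin_cases i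
  · have := (hd_cos s x).div (hd_sin s x) h1.ne'
    refine HasDerivAt.congr_deriv this ?_
    simp only [tq, Fin.zero_eta, Matrix.cons_val_zero]
    field_simp
    ring
  · have := ((hd_sin s x).div (hd_cos s x) h2.ne').neg
    refine HasDerivAt.congr_deriv this ?_
    simp only [tq, Fin.mk_one, Matrix.cons_val_one, Matrix.cons_val_fin_one]
    field_simp
    ring

lemma tq_mul {s x : ℝ} (hx : x ∈ Ioo s (s + Real.pi / 2)) : tq s 0 x * tq s 1 x = -1 := by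
  obtain ⟨h1, h2⟩ := sc_pos hx
  simp only [tq, Matrix.cons_val_zero, Matrix.cons_val_one, Matrix.cons_val_fin_one]
  field_simp

lemma one_add_tq {s x : ℝ} (hx : x ∈ Ioo s (s + Real.pi / 2)) (i : Fin 2) :
    1 + tq s i x ^ 2 = (trg s i x ^ 2)⁻¹ := by
  obtain ⟨h1, h2⟩ := sc_pos hx
  have h := Real.sin_sq_add_cos_sq (x - s)
  fin_cases i
  · simp only [tq, trg, Fin.zero_eta, Matrix.cons_val_zero]
    field_simp
    linarith
  · simp only [tq, trg, Fin.mk_one, Matrix.cons_val_one, Matrix.cons_val_fin_one]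
    field_simp
    linarith

lemma pT_tq {s x : ℝ} (hx : x ∈ Ioo s (s + Real.pi / 2)) (i : Fin 2) :
    pT true (tq s i) x = tq s i x := by
  have h : 0 < 1 + tq s i x ^ 2 := by positivity
  simp only [pT, if_true, (hd_tq hx i).deriv]
  field_simp
  ring

lemma etY_tq {s x : ℝ} (hx : x ∈ Ioo s (s + Real.pi / 2)) :
    etY (fun _ => true) (tq s) x = 0 := by
  have hd : ∀ i, deriv (pT true (tq s i)) x = -(1 + tq s i x ^ 2) := by
    intro i
    have : pT true (tq s i) =ᶠ[𝓝 x] tq s i := by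
      filter_upwards [isOpen_Ioo.mem_nhds hx] with y hy using pT_tq hy i
    rw [this.deriv_eq, (hd_tq hx i).deriv]
  simp only [etY, hd, pT_tq hx]
  have := tq_mul hx
  linarith

lemma psum_tq {s x : ℝ} (hx : x ∈ Ioo s (s + Real.pi / 2)) :
    psum (fun _ => true) (tq s) x = tq s 0 x + tq s 1 x := by
  simp only [psum, pT_tq hx]

lemma tq_arctan (s T : ℝ) :
    tq s 0 (s + Real.arctan T) = 1 / T ∧ tq s 1 (s + Real.arctan T) = -T := by
  have h : Real.sin (Real.arctan T) / Real.cos (Real.arctan T) = T := by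
    rw [← Real.tan_eq_sin_div_cos, Real.tan_arctan]
  simp only [tq, Matrix.cons_val_zero, Matrix.cons_val_one, Matrix.cons_val_fin_one,
    add_sub_cancel_left, h, and_true]
  rw [one_div, ← inv_div, h]

/-! ### Local facts on smooth functions -/

lemma iter_smooth {U : Set ℝ} (hU : IsOpen U) {f : ℝ → ℝ} (hf : ContDiffOn ℝ ∞ f U) (k : ℕ) :
    ContDiffOn ℝ ∞ (iteratedDeriv k f) U := by
  induction k with
  | zero => simpa using hf
  | succ k ih =>
    rw [iteratedDeriv_succ]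
    exact ih.deriv_of_isOpen hU (by simp)

lemma pT_smooth {U : Set ℝ} (hU : IsOpen U) {y : ℝ → ℝ} (hy : ContDiffOn ℝ ∞ y U) :
    ContDiffOn ℝ ∞ (pT true y) U := by
  have hd : ContDiffOn ℝ ∞ (deriv y) U := hy.deriv_of_isOpen hU (by simp)
  have : pT true y = fun x => 2 * y x + y x * deriv y x / (1 + y x ^ 2) := by
    funext x; simp [pT]
  rw [this]
  exact (contDiffOn_const.mul hy).add ((hy.mul hd).div (contDiffOn_const.add (hy.pow 2))
    fun x _ => by positivity)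

lemma etY_cont {U : Set ℝ} (hU : IsOpen U) {y : Fin 2 → ℝ → ℝ}
    (hy : ∀ i, ContDiffOn ℝ ∞ (y i) U) : ContinuousOn (etY (fun _ => true) y) U := by
  have h1 : ∀ i, ContinuousOn (pT true (y i)) U := fun i => (pT_smooth hU (hy i)).continuousOn
  have h2 : ∀ i, ContinuousOn (deriv (pT true (y i))) U := fun i =>
    ((pT_smooth hU (hy i)).deriv_of_isOpen (m := ∞) hU (by simp)).continuousOn
  have h10 := h1 0
  have h11 := h1 1
  have h20 := h2 0
  have h21 := h2 1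
  unfold etY
  fun_prop

lemma pT_congr {y z : ℝ → ℝ} {x : ℝ} (h : y =ᶠ[𝓝 x] z) : pT true y =ᶠ[𝓝 x] pT true z := by
  filter_upwards [h, h.deriv] with t h1 h2
  simp only [pT, h1, h2]

lemma etY_congr {y z : Fin 2 → ℝ → ℝ} {x : ℝ} (h : ∀ i, y i =ᶠ[𝓝 x] z i) :
    etY (fun _ => true) y x = etY (fun _ => true) z x := by
  have h1 : ∀ i, pT true (y i) x = pT true (z i) x := fun i => (pT_congr (h i)).eq_of_nhds
  have h2 : ∀ i, deriv (pT true (y i)) x = deriv (pT true (z i)) x :=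
    fun i => (pT_congr (h i)).deriv_eq
  simp only [etY, h1, h2]

lemma psum_congr {y z : Fin 2 → ℝ → ℝ} {x : ℝ} (h : ∀ i, y i =ᶠ[𝓝 x] z i) :
    psum (fun _ => true) y x = psum (fun _ => true) z x := by
  have h1 : ∀ i, pT true (y i) x = pT true (z i) x := fun i => (pT_congr (h i)).eq_of_nhds
  simp only [psum, h1]

lemma etY_closure {U V : Set ℝ} (hU : IsOpen U) (hV : IsOpen V) {y z : Fin 2 → ℝ → ℝ}
    (hy : ∀ i, ContDiffOn ℝ ∞ (y i) U) (hz : ∀ i, ContDiffOn ℝ ∞ (z i) U)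
    (h : ∀ i, ∀ t ∈ V, y i t = z i t) {x : ℝ} (hx : x ∈ U) (hc : x ∈ closure V) :
    etY (fun _ => true) y x = etY (fun _ => true) z x := by
  have hcont : ContinuousAt (fun t => etY (fun _ => true) y t - etY (fun _ => true) z t) x :=
    ((etY_cont hU hy).continuousAt (hU.mem_nhds hx)).sub
      ((etY_cont hU hz).continuousAt (hU.mem_nhds hx))
  have := hcont.continuousWithinAt.eq_const_of_mem_closure (c := 0) hc fun t ht => by
    rw [etY_congr (y := y) (z := z) fun i => ?_, sub_self]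
    filter_upwards [hV.mem_nhds ht] with u hu using h i u hu
  linarith

lemma iter_closure {U V : Set ℝ} (hU : IsOpen U) (hV : IsOpen V) {f : ℝ → ℝ}
    (hf : ContDiffOn ℝ ∞ f U) (h : ∀ t ∈ V, f t = 0) {x : ℝ} (hx : x ∈ U)
    (hc : x ∈ closure V) (k : ℕ) : iteratedDeriv k f x = 0 := by
  have hcont : ContinuousAt (iteratedDeriv k f) x :=
    (iter_smooth hU hf k).continuousOn.continuousAt (hU.mem_nhds hx)
  refine hcont.continuousWithinAt.eq_const_of_mem_closure hc fun t ht => ?_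
  have : f =ᶠ[𝓝 t] fun _ => (0 : ℝ) := by
    filter_upwards [hV.mem_nhds ht] with u hu using h u hu
  rw [this.iteratedDeriv_eq k]
  simp

/-! ### Functions dominated by a weight -/

/-- All derivatives of `f` between `p` and `x` are dominated by `w x`. -/
def Small (U : Set ℝ) (p : ℝ) (S : Set ℝ) (w f : ℝ → ℝ) : Prop :=
  ContDiffOn ℝ ∞ f U ∧ ∀ k, ∃ C : ℝ, 0 ≤ C ∧ ∀ x ∈ S, ∀ x' ∈ uIcc p x,
    |iteratedDeriv k f x'| ≤ C * w x

section small

variable {U K S : Set ℝ} {p : ℝ} {w : ℝ → ℝ}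

lemma Small.congr {f g : ℝ → ℝ} (hU : IsOpen U) (hS : ∀ x ∈ S, uIcc p x ⊆ U)
    (hf : Small U p S w f) (h : ∀ t ∈ U, g t = f t) : Small U p S w g := by
  refine ⟨hf.1.congr h, fun k => ?_⟩
  obtain ⟨C, hC, hb⟩ := hf.2 k
  refine ⟨C, hC, fun x hx x' hx' => ?_⟩
  have : g =ᶠ[𝓝 x'] f := by
    filter_upwards [hU.mem_nhds (hS x hx hx')] with u hu using h u hu
  rw [this.iteratedDeriv_eq k]
  exact hb x hx x' hx'

lemma Small.add {f g : ℝ → ℝ} (hU : IsOpen U) (hS : ∀ x ∈ S, uIcc p x ⊆ U)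
    (hf : Small U p S w f) (hg : Small U p S w g) : Small U p S w (f + g) := by
  refine ⟨hf.1.add hg.1, fun k => ?_⟩
  obtain ⟨C, hC, hb⟩ := hf.2 k
  obtain ⟨C', hC', hb'⟩ := hg.2 k
  refine ⟨C + C', by positivity, fun x hx x' hx' => ?_⟩
  have hn := hU.mem_nhds (hS x hx hx')
  rw [iteratedDeriv_add ((hf.1.contDiffAt hn).of_le (by exact_mod_cast le_top))
    ((hg.1.contDiffAt hn).of_le (by exact_mod_cast le_top)), add_mul]
  exact (abs_add_le _ _).trans (add_le_add (hb x hx x' hx') (hb' x hx x' hx'))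

lemma Small.der {f : ℝ → ℝ} (hU : IsOpen U) (hf : Small U p S w f) :
    Small U p S w (deriv f) := by
  refine ⟨hf.1.deriv_of_isOpen hU (by simp), fun k => ?_⟩
  rw [← iteratedDeriv_succ']
  exact hf.2 (k + 1)

lemma Small.mul {f g : ℝ → ℝ} (hU : IsOpen U) (hK : IsCompact K) (hKU : K ⊆ U)
    (hS : ∀ x ∈ S, uIcc p x ⊆ K) (hw : ∀ x ∈ S, 0 ≤ w x)
    (hf : Small U p S w f) (hg : ContDiffOn ℝ ∞ g U) : Small U p S w (f * g) := by
  refine ⟨hf.1.mul hg, fun k => ?_⟩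
  choose C hC hb using hf.2
  have hM : ∀ j, ∃ M : ℝ, 0 ≤ M ∧ ∀ t ∈ K, |iteratedDeriv j g t| ≤ M := by
    intro j
    obtain ⟨M, hM⟩ := hK.exists_bound_of_continuousOn
      ((iter_smooth hU hg j).continuousOn.mono hKU)
    exact ⟨max M 0, le_max_right _ _, fun t ht => (hM t ht).trans (le_max_left _ _)⟩
  choose M hM0 hM using hM
  refine ⟨∑ i ∈ Finset.range (k + 1), (k.choose i : ℝ) * C i * M (k - i),
    Finset.sum_nonneg fun i _ => by have := hC i; have := hM0 (k - i); positivity,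
    fun x hx x' hx' => ?_⟩
  have hn := hU.mem_nhds (hKU (hS x hx hx'))
  rw [iteratedDeriv_mul ((hf.1.contDiffAt hn).of_le (by exact_mod_cast le_top))
    ((hg.contDiffAt hn).of_le (by exact_mod_cast le_top)), Finset.sum_mul]
  refine (Finset.abs_sum_le_sum_abs _ _).trans (Finset.sum_le_sum fun i _ => ?_)
  rw [abs_mul, abs_mul, Nat.abs_cast]
  have h1 := hb i x hx x' hx'
  have h2 := hM (k - i) x' (hS x hx hx')
  have h3 : |iteratedDeriv i f x'| * |iteratedDeriv (k - i) g x'| ≤ C i * w x * M (k - i) :=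
    mul_le_mul h1 h2 (abs_nonneg _) (mul_nonneg (hC i) (hw x hx))
  calc (k.choose i : ℝ) * |iteratedDeriv i f x'| * |iteratedDeriv (k - i) g x'|
      = (k.choose i : ℝ) * (|iteratedDeriv i f x'| * |iteratedDeriv (k - i) g x'|) := by ring
    _ ≤ (k.choose i : ℝ) * (C i * w x * M (k - i)) :=
        mul_le_mul_of_nonneg_left h3 (Nat.cast_nonneg _)
    _ = _ := by ring

lemma Small.prim {f : ℝ → ℝ} (hU : IsOpen U) (hK : IsCompact K) (hKU : K ⊆ U)
    (hS : ∀ x ∈ S, uIcc p x ⊆ K) (hw : ∀ x ∈ S, 0 ≤ w x)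
    (hf : ContDiffOn ℝ ∞ f U) (h0 : f p = 0) (hd : Small U p S w (deriv f)) :
    Small U p S w f := by
  refine ⟨hf, fun k => ?_⟩
  rcases k with _ | k
  · obtain ⟨C, hC, hb⟩ := hd.2 0
    obtain ⟨R, hR⟩ := hK.exists_bound_of_continuousOn (f := fun t => t - p) (by fun_prop)
    refine ⟨C * max R 0, mul_nonneg hC (le_max_right _ _), fun x hx x' hx' => ?_⟩
    have h1 := (convex_uIcc p x).norm_image_sub_le_of_norm_deriv_le (f := f) (C := C * w x)
      (fun t ht => (hf.contDiffAt (hU.mem_nhds (hKU (hS x hx ht)))).differentiableAt (by simp))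
      (fun t ht => by simpa using hb x hx t ht) left_mem_uIcc hx'
    have h2 : ‖x' - p‖ ≤ max R 0 := (hR x' (hS x hx hx')).trans (le_max_left _ _)
    rw [h0, sub_zero] at h1
    have h3 := mul_le_mul_of_nonneg_left h2 (mul_nonneg hC (hw x hx))
    simp only [iteratedDeriv_zero]
    calc |f x'| ≤ C * w x * ‖x' - p‖ := h1
      _ ≤ C * w x * max R 0 := h3
      _ = _ := by ring
  · rw [iteratedDeriv_succ']
    exact hd.2 k

lemma smooth_of_hd {G Q : ℝ → ℝ} (hU : IsOpen U) (hQ : ContDiffOn ℝ ∞ Q U)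
    (hG : ∀ x ∈ U, HasDerivAt G (Q x) x) : ContDiffOn ℝ ∞ G U :=
  (contDiffOn_infty_iff_deriv_of_isOpen hU).2
    ⟨fun x hx => (hG x hx).differentiableAt.differentiableWithinAt,
      hQ.congr fun x hx => (hG x hx).deriv⟩

/-- `L` in terms of `G = (log d) / 2` and `q = G'`. -/
noncomputable def lam (G Q : ℝ → ℝ) (x : ℝ) : ℝ := 2 * G x + Real.log (1 + Q x ^ 2) / 2

lemma hd_lam {G Q : ℝ → ℝ} {x : ℝ} (hG : HasDerivAt G (Q x) x) (hQ : DifferentiableAt ℝ Q x) :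
    HasDerivAt (lam G Q) (pT true Q x) x := by
  have h0 : 0 < 1 + Q x ^ 2 := by positivity
  have h1 := (((hQ.hasDerivAt.pow 2).const_add 1).log h0.ne').div_const 2
  have h2 := (hG.const_mul 2).add h1
  refine HasDerivAt.congr_deriv h2 ?_
  simp only [pT, if_true, Pi.pow_apply]
  norm_num
  field_simp

lemma side {G Q g y : ℝ → ℝ} (hU : IsOpen U) (hK : IsCompact K) (hKU : K ⊆ U)
    (hS : ∀ x ∈ S, uIcc p x ⊆ K) (hw : ∀ x ∈ S, 0 ≤ w x)
    (hQ : ContDiffOn ℝ ∞ Q U) (hy : ContDiffOn ℝ ∞ y U)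
    (hG : ∀ x ∈ U, HasDerivAt G (Q x) x) (hg : ∀ x ∈ U, HasDerivAt g (y x) x)
    (h0 : G p = g p) (h1 : Q p = y p) (he : Small U p S w (Q - y)) :
    Small U p S w (fun x => Real.exp (2 * G x) - Real.exp (2 * g x)) ∧
      Small U p S w (lam G Q - lam g y) := by
  have hSU : ∀ x ∈ S, uIcc p x ⊆ U := fun x hx => (hS x hx).trans hKU
  have sG := smooth_of_hd hU hQ hG
  have sg := smooth_of_hd hU hy hg
  have dQ : ∀ x ∈ U, DifferentiableAt ℝ Q x := fun x hx =>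
    (hQ.contDiffAt (hU.mem_nhds hx)).differentiableAt (by simp)
  have dy : ∀ x ∈ U, DifferentiableAt ℝ y x := fun x hx =>
    (hy.contDiffAt (hU.mem_nhds hx)).differentiableAt (by simp)
  constructor
  · have sE : ContDiffOn ℝ ∞ (fun x => Real.exp (2 * (G x - g x))) U :=
      (contDiffOn_const.mul (sG.sub sg)).exp
    have hφ : Small U p S w (fun x => Real.exp (2 * (G x - g x)) - 1) := by
      refine Small.prim hU hK hKU hS hw (sE.sub contDiffOn_const) (by simp [h0]) ?_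
      refine (he.mul hU hK hKU hS hw (g := fun x => 2 * Real.exp (2 * (G x - g x)))
        (contDiffOn_const.mul sE)).congr hU hSU fun t ht => ?_
      have := ((((hG t ht).sub (hg t ht)).const_mul 2).exp).sub_const 1
      simp only [Pi.sub_apply] at this
      rw [this.deriv]
      simp only [Pi.mul_apply, Pi.sub_apply]
      ring
    refine (hφ.mul hU hK hKU hS hw (g := fun x => Real.exp (2 * g x))
      (contDiffOn_const.mul sg).exp).congr hU hSU fun t _ => ?_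
    simp only [Pi.mul_apply]
    rw [sub_mul, ← Real.exp_add, one_mul]
    congr 2
    ring
  · have sL := smooth_of_hd hU (pT_smooth hU hQ) fun x hx => hd_lam (hG x hx) (dQ x hx)
    have sl := smooth_of_hd hU (pT_smooth hU hy) fun x hx => hd_lam (hg x hx) (dy x hx)
    have sQ' : ContDiffOn ℝ ∞ (deriv Q) U := hQ.deriv_of_isOpen hU (by simp)
    have sy' : ContDiffOn ℝ ∞ (deriv y) U := hy.deriv_of_isOpen hU (by simp)
    have nQ : ContDiffOn ℝ ∞ (fun x => 1 + Q x ^ 2) U := contDiffOn_const.add (hQ.pow 2)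
    have ny : ContDiffOn ℝ ∞ (fun x => 1 + y x ^ 2) U := contDiffOn_const.add (hy.pow 2)
    refine Small.prim hU hK hKU hS hw (sL.sub sl) (by simp [lam, h0, h1]) ?_
    have a1 := he.mul hU hK hKU hS hw (g := fun x => 2 + deriv Q x / (1 + Q x ^ 2) -
        y x * deriv y x * (Q x + y x) / ((1 + Q x ^ 2) * (1 + y x ^ 2)))
      ((contDiffOn_const.add (sQ'.div nQ fun x _ => by positivity)).sub
        (((hy.mul sy').mul (hQ.add hy)).div (nQ.mul ny) fun x _ => by positivity))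
    have a2 := (he.der hU).mul hU hK hKU hS hw (g := fun x => y x / (1 + Q x ^ 2))
      (hy.div nQ fun x _ => by positivity)
    refine (a1.add hU hSU a2).congr hU hSU fun t ht => ?_
    rw [((hd_lam (hG t ht) (dQ t ht)).sub (hd_lam (hg t ht) (dy t ht))).deriv]
    simp only [Pi.add_apply, Pi.mul_apply, Pi.sub_apply, pT, if_true,
      deriv_sub (dQ t ht) (dy t ht)]
    have : 0 < 1 + Q t ^ 2 := by positivity
    have : 0 < 1 + y t ^ 2 := by positivity
    field_simp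
    ring

end small

/-! ### The segment, translated -/

lemma pT_shift (y : ℝ → ℝ) (t : ℝ) :
    pT true (fun x => y (x + t)) = fun x => pT true y (x + t) := by
  funext x
  simp only [pT, if_true, deriv_comp_add_const]

lemma seg_at {qa qb : Fin 2 → ℝ} {sa sb I : ℝ} (h : Seg qa qb sa sb I) (a : ℝ) :
    ∃ (b r : ℝ) (q : Fin 2 → ℝ → ℝ), a < b ∧ 0 < r ∧
      (∀ i, ContDiffOn ℝ ∞ (q i) (Ioo (a - r) (b + r))) ∧
      (∀ x ∈ Icc a b, 0 < etY (fun _ => true) q x ∧ 0 < q 0 x) ∧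
      (∀ i, q i a = qa i ∧ q i b = qb i) ∧ psum (fun _ => true) q a < sa ∧
      sb < psum (fun _ => true) q b ∧ ∫ x in a..b, (q 0 x - q 1 x) < I := by
  obtain ⟨a₀, b₀, r, q, hab, hr, hs, hp, he, h1, h2, h3⟩ := h
  have e1 : a + (a₀ - a) = a₀ := by ring
  have e2 : b₀ - (a₀ - a) + (a₀ - a) = b₀ := by ring
  refine ⟨b₀ - (a₀ - a), r, fun i x => q i (x + (a₀ - a)), by linarith, hr, fun i => ?_,
    fun x hx => ?_, fun i => ?_, ?_, ?_, ?_⟩
  · refine (hs i).comp (f := fun x => x + (a₀ - a)) (by fun_prop) fun x hx => ?_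
    obtain ⟨h4, h5⟩ := hx
    exact ⟨by linarith, by linarith⟩
  · obtain ⟨h4, h5⟩ := hx
    have := hp (x + (a₀ - a)) ⟨by linarith, by linarith⟩
    refine ⟨?_, this.2⟩
    have h6 := this.1
    simp only [etY, pT_shift, deriv_comp_add_const] at h6 ⊢
    exact h6
  · simp only [e1, e2]
    exact he i
  · simp only [psum, pT_shift, e1] at h1 ⊢
    exact h1
  · simp only [psum, pT_shift, e2] at h2 ⊢
    exact h2
  · have := intervalIntegral.integral_comp_add_right (a := a) (b := b₀ - (a₀ - a))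
      (fun x => q 0 x - q 1 x) (a₀ - a)
    rw [e1, e2] at this
    rw [this]
    exact h3

lemma int_le {f : ℝ → ℝ} {u v C ε : ℝ} (huv : u ≤ v) (h : ∀ x ∈ Icc u v, |f x| ≤ C)
    (hε : C * (v - u) ≤ ε) : ∫ x in u..v, f x ≤ ε := by
  have := intervalIntegral.norm_integral_le_of_norm_le_const (a := u) (b := v) (f := f) (C := C)
    fun x hx => by
      rw [uIoc_of_le huv] at hx
      exact h x (Ioc_subset_Icc_self hx)
  rw [abs_of_nonneg (sub_nonneg.2 huv)] at this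
  exact ((le_abs_self _).trans this).trans hε

/-! ### Both corners smoothed -/

lemma glued (g : GlueStmt) (pn : PNStmt) : ∃ (a ρ₁ b ρ₂ s : ℝ) (Q : Fin 2 → ℝ → ℝ),
    0 < ρ₁ ∧ ρ₁ < a ∧ a ≤ 1 / 5 ∧ a < b ∧ s + Real.arctan 4 = b ∧ 0 < ρ₂ ∧
    b + ρ₂ - s < Real.arctan 10 ∧
    (∀ i, ContDiffOn ℝ ∞ (Q i) (Ioo 0 (s + Real.pi / 2))) ∧
    (∀ i x, x ≤ a - ρ₁ → Q i x = tq 0 i x) ∧ (∀ i x, b + ρ₂ ≤ x → Q i x = tq s i x) ∧
    (∀ x ∈ Ioo (a - ρ₁) (b + ρ₂), 0 < Q 0 x ∧ 0 < etY (fun _ => true) Q x) ∧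
    ∫ x in (a - ρ₁)..(b + ρ₂), (Q 0 x - Q 1 x) ≤ -5 / 2 ∧
    ∀ θ : ℝ, 0 < θ → θ < 1 → ∀ k, ∃ C : ℝ, 0 ≤ C ∧ ∀ i,
      (∀ x ∈ Ioc (a - ρ₁) a, ∀ x' ∈ Icc (a - ρ₁) x,
        |iteratedDeriv k (Q i - tq 0 i) x'| ≤ C * etY (fun _ => true) Q x ^ θ) ∧
      ∀ x ∈ Ico b (b + ρ₂), ∀ x' ∈ Icc x (b + ρ₂),
        |iteratedDeriv k (Q i - tq s i) x'| ≤ C * etY (fun _ => true) Q x ^ θ := by
  obtain ⟨T, hT0, hT1, hseg⟩ := pn
  have hpi := Real.pi_gt_three
  obtain ⟨a, ha⟩ : ∃ a, a = Real.arctan T := ⟨_, rfl⟩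
  have ha0 : 0 < a := ha ▸ Real.arctan_pos.2 hT0
  have ha1 : a ≤ 1 / 10 := by
    have h1 : a < Real.pi / 2 := ha ▸ Real.arctan_lt_pi_div_two T
    have h2 := Real.le_tan ha0.le h1
    rw [ha, Real.tan_arctan] at h2
    linarith
  obtain ⟨b, r, q, hab, hr, hq, hp, he, hs1, hs2, hI⟩ := seg_at hseg a
  obtain ⟨s, hs⟩ : ∃ s, s + Real.arctan 4 = b := ⟨b - Real.arctan 4, by ring⟩
  have h4 : 0 < Real.arctan 4 := Real.arctan_pos.2 (by norm_num)
  have h410 : Real.arctan 4 < Real.arctan 10 := Real.arctan_strictMono (by norm_num)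
  have h10 : Real.arctan 10 < Real.pi / 2 := Real.arctan_lt_pi_div_two _
  -- the constants
  have K1 : Icc (a / 2) a ⊆ Ioo 0 (0 + Real.pi / 2) := fun x hx =>
    ⟨by linarith [hx.1], by linarith [hx.2]⟩
  have K2 : Icc a b ⊆ Ioo (a - r) (b + r) := fun x hx => ⟨by linarith [hx.1], by linarith [hx.2]⟩
  have K3 : Icc b (s + Real.arctan 10) ⊆ Ioo s (s + Real.pi / 2) := fun x hx =>
    ⟨by linarith [hx.1], by linarith [hx.2]⟩
  have tpos : ∀ {s x : ℝ}, x ∈ Ioo s (s + Real.pi / 2) → 0 < tq s 0 x := fun hx =>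
    div_pos (sc_pos hx).2 (sc_pos hx).1
  obtain ⟨m₁, hm₁, hm₁'⟩ := isCompact_Icc.exists_forall_le'
    ((tq_smooth 0 0).continuousOn.mono K1) fun x hx => tpos (K1 hx)
  obtain ⟨m₂, hm₂, hm₂'⟩ := isCompact_Icc.exists_forall_le'
    ((hq 0).continuousOn.mono K2) fun x hx => (hp x hx).2
  obtain ⟨m₃, hm₃, hm₃'⟩ := isCompact_Icc.exists_forall_le'
    ((tq_smooth s 0).continuousOn.mono K3) fun x hx => tpos (K3 hx)
  obtain ⟨M₁, hM₁⟩ := isCompact_Icc.exists_bound_of_continuousOn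
    (((tq_smooth 0 0).continuousOn.sub (tq_smooth 0 1).continuousOn).mono K1)
  obtain ⟨M₃, hM₃⟩ := isCompact_Icc.exists_bound_of_continuousOn
    (((tq_smooth s 0).continuousOn.sub (tq_smooth s 1).continuousOn).mono K3)
  have hM₁0 : 0 ≤ M₁ := (norm_nonneg _).trans (hM₁ a ⟨by linarith, le_rfl⟩)
  have hM₃0 : 0 ≤ M₃ := (norm_nonneg _).trans (hM₃ b ⟨le_rfl, by linarith⟩)
  obtain ⟨e, he0, he1⟩ := exists_pos_mul_lt (by norm_num : (0 : ℝ) < 1 / 10)
    (M₁ + M₃ + 2 + 4 * (b - a))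
  obtain ⟨ρ₀, hρ₀, c1, c2, c3, c4, c5, c6, c7⟩ : ∃ ρ₀ : ℝ, 0 < ρ₀ ∧ ρ₀ ≤ e ∧ ρ₀ ≤ 1 ∧ ρ₀ ≤ a / 2 ∧
      ρ₀ ≤ Real.arctan 10 - Real.arctan 4 ∧ ρ₀ ≤ m₁ / 3 ∧ ρ₀ ≤ m₂ / 3 ∧ ρ₀ ≤ m₃ / 3 := by
    refine ⟨min (min (min e 1) (min (a / 2) (Real.arctan 10 - Real.arctan 4)))
      (min (m₁ / 3) (min (m₂ / 3) (m₃ / 3))), ?_, ?_, ?_, ?_, ?_, ?_, ?_, ?_⟩
    · simp only [lt_min_iff]
      refine ⟨⟨⟨he0, one_pos⟩, by linarith, by linarith⟩, by linarith, by linarith, by linarith⟩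
    all_goals simp
  have hee : (M₁ + M₃ + 2 + 4 * (b - a)) * ρ₀ ≤ 1 / 10 :=
    (mul_le_mul_of_nonneg_left c1 (by linarith)).trans he1.le
  -- the first corner
  obtain ⟨r₁, hr₁, d1, d2, d3⟩ : ∃ r₁ : ℝ, 0 < r₁ ∧ r₁ ≤ r ∧ r₁ ≤ a ∧ r₁ ≤ b - a :=
    ⟨min r (min a (b - a)), by simp only [lt_min_iff]; exact ⟨hr, ha0, by linarith⟩,
      by simp, by simp, by simp⟩
  have ta := tq_arctan 0 T
  rw [zero_add, ← ha] at ta
  have haJ : a ∈ Ioo 0 (0 + Real.pi / 2) := ⟨ha0, by linarith⟩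
  obtain ⟨ρ₁, hρ₁, f1, f2, y, yl, yr, ys, yp, yb1, yb2, yd⟩ := g (fun _ => true) (tq 0) q a r₁ hr₁
    (fun i => (tq_smooth 0 i).mono fun x hx => ⟨by linarith [hx.1], by linarith [hx.2]⟩)
    (fun i => (hq i).mono fun x hx => ⟨by linarith [hx.1], by linarith [hx.2]⟩)
    (fun i => by
      rw [(he i).1]
      fin_cases i
      · simpa using ta.1
      · simpa using ta.2)
    (by rw [psum_tq haJ, ta.1, ta.2]; linarith)
    (fun x hx => (etY_tq ⟨by linarith [hx.1], by linarith [hx.2]⟩).ge)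
    (fun x hx => (hp x ⟨hx.1, by linarith [hx.2]⟩).1.le) ρ₀ hρ₀
  have ys' : ∀ i, ContDiffOn ℝ ∞ (y i) (Ioo 0 (b + r)) := by
    intro i x hx
    refine ContDiffAt.contDiffWithinAt ?_
    rcases lt_or_ge x (a - ρ₁) with h | h
    · refine ((tq_smooth 0 i).contDiffAt (isOpen_Ioo.mem_nhds ⟨hx.1, by linarith⟩)).congr_of_eventuallyEq ?_
      filter_upwards [Iio_mem_nhds h] with t ht using yl i t (le_of_lt ht)
    rcases lt_or_ge (a + ρ₁) x with h' | h'
    · refine ((hq i).contDiffAt (isOpen_Ioo.mem_nhds ⟨by linarith, hx.2⟩)).congr_of_eventuallyEq ?_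
      filter_upwards [Ioi_mem_nhds h'] with t ht using yr i t (le_of_lt ht)
    · exact (ys i).contDiffAt (isOpen_Ioo.mem_nhds ⟨by linarith, by linarith⟩)
  have yp' : ∀ x ∈ Ioc (a - ρ₁) b, 0 < etY (fun _ => true) y x := by
    intro x hx
    rcases lt_or_ge x (a + ρ₁) with h | h
    · exact yp x ⟨hx.1, h⟩
    · rw [etY_closure (U := Ioo (a - r₁) (b + r)) (V := Ioi (a + ρ₁)) isOpen_Ioo isOpen_Ioi
        (fun i => (ys' i).mono fun t ht => ⟨by linarith [ht.1], ht.2⟩)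
        (fun i => (hq i).mono fun t ht => ⟨by linarith [ht.1], ht.2⟩)
        (fun i t ht => yr i t (le_of_lt ht)) ⟨by linarith, by linarith [hx.2]⟩
        (by rw [closure_Ioi]; exact h)]
      exact (hp x ⟨by linarith, hx.2⟩).1
  have yb2' : ∀ i, ∀ x ∈ Icc a b, |y i x - q i x| ≤ ρ₀ := by
    intro i x hx
    rcases le_total x (a + ρ₁) with h | h
    · exact yb2 i x ⟨hx.1, h⟩
    · rw [yr i x h, sub_self, abs_zero]; exact hρ₀.le
  -- the second corner
  obtain ⟨r₂, hr₂, g1, g2, g3, g4⟩ : ∃ r₂ : ℝ, 0 < r₂ ∧ r₂ ≤ r ∧ r₂ ≤ b - a ∧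
      r₂ ≤ Real.arctan 4 ∧ r₂ ≤ Real.pi / 2 - Real.arctan 4 :=
    ⟨min (min r (b - a)) (min (Real.arctan 4) (Real.pi / 2 - Real.arctan 4)),
      by simp only [lt_min_iff]; exact ⟨⟨hr, by linarith⟩, h4, by linarith⟩,
      by simp, by simp, by simp, by simp⟩
  have tb := tq_arctan s 4
  rw [hs] at tb
  have hbJ : b ∈ Ioo s (s + Real.pi / 2) := ⟨by linarith, by linarith⟩
  have ybq : ∀ i, y i =ᶠ[𝓝 b] q i := fun i => by
    filter_upwards [Ioi_mem_nhds (show a + ρ₁ < b by linarith)] with t ht using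
      yr i t (le_of_lt ht)
  obtain ⟨ρ₂, hρ₂, k1, k2, Q, Ql, Qr, Qs, Qp, Qb1, Qb2, Qd⟩ := g (fun _ => true) y (tq s) b r₂ hr₂
    (fun i => (ys' i).mono fun x hx => ⟨by linarith [hx.1], by linarith [hx.2]⟩)
    (fun i => (tq_smooth s i).mono fun x hx => ⟨by linarith [hx.1], by linarith [hx.2]⟩)
    (fun i => by
      rw [(ybq i).eq_of_nhds, (he i).2]
      fin_cases i
      · simpa using tb.1.symm
      · simpa using tb.2.symm)
    (by rw [psum_tq hbJ, tb.1, tb.2, psum_congr ybq]; linarith)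
    (fun x hx => (yp' x ⟨by linarith [hx.1], hx.2⟩).le)
    (fun x hx => (etY_tq ⟨by linarith [hx.1], by linarith [hx.2]⟩).ge) ρ₀ hρ₀
  have Qs' : ∀ i, ContDiffOn ℝ ∞ (Q i) (Ioo 0 (s + Real.pi / 2)) := by
    intro i x hx
    refine ContDiffAt.contDiffWithinAt ?_
    rcases lt_or_ge x (b - ρ₂) with h | h
    · refine ((ys' i).contDiffAt (isOpen_Ioo.mem_nhds ⟨hx.1, by linarith⟩)).congr_of_eventuallyEq ?_
      filter_upwards [Iio_mem_nhds h] with t ht using Ql i t (le_of_lt ht)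
    rcases lt_or_ge (b + ρ₂) x with h' | h'
    · refine ((tq_smooth s i).contDiffAt
        (isOpen_Ioo.mem_nhds ⟨by linarith, hx.2⟩)).congr_of_eventuallyEq ?_
      filter_upwards [Ioi_mem_nhds h'] with t ht using Qr i t (le_of_lt ht)
    · exact (Qs i).contDiffAt (isOpen_Ioo.mem_nhds ⟨by linarith, by linarith⟩)
  have Qb1' : ∀ i x, x ≤ b → |Q i x - y i x| ≤ ρ₀ := by
    intro i x hx
    rcases le_total (b - ρ₂) x with h | h
    · exact Qb1 i x ⟨h, hx⟩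
    · rw [Ql i x h, sub_self, abs_zero]; exact hρ₀.le
  have Qy : ∀ i x, x ≤ a → Q i =ᶠ[𝓝 x] y i := fun i x hx => by
    filter_upwards [Iio_mem_nhds (show x < b - ρ₂ by linarith)] with t ht using
      Ql i t (le_of_lt ht)
  have B1 : ∀ i, ∀ x ∈ Icc (a - ρ₁) a, |Q i x - tq 0 i x| ≤ ρ₀ := fun i x hx => by
    rw [(Qy i x hx.2).eq_of_nhds]; exact yb1 i x hx
  have B2 : ∀ i, ∀ x ∈ Icc a b, |Q i x - q i x| ≤ 2 * ρ₀ := fun i x hx => by
    have h1 := abs_le.1 (Qb1' i x hx.2)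
    have h2 := abs_le.1 (yb2' i x hx)
    exact abs_le.2 ⟨by linarith [h1.1, h2.1], by linarith [h1.2, h2.2]⟩
  refine ⟨a, ρ₁, b, ρ₂, s, Q, hρ₁, by linarith, by linarith, hab, hs, hρ₂, by linarith, Qs',
    fun i x hx => ?_, Qr, fun x hx => ⟨?_, ?_⟩, ?_, fun θ h0 h1 k => ?_⟩
  · rw [Ql i x (by linarith), yl i x hx]
  · rcases le_total x a with h | h
    · have h1 := abs_le.1 (B1 0 x ⟨hx.1.le, h⟩)
      have h2 := hm₁' x ⟨by linarith [hx.1], h⟩
      linarith [h1.1]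
    rcases le_total x b with h' | h'
    · have h1 := abs_le.1 (B2 0 x ⟨h, h'⟩)
      have h2 := hm₂' x ⟨h, h'⟩
      linarith [h1.1]
    · have h1 := abs_le.1 (Qb2 0 x ⟨h', hx.2.le⟩)
      have h2 := hm₃' x ⟨h', by linarith [hx.2]⟩
      linarith [h1.1]
  · rcases lt_or_ge (b - ρ₂) x with h | h
    · exact Qp x ⟨h, hx.2⟩
    · rw [etY_closure (U := Ioo 0 b) (V := Iio (b - ρ₂)) isOpen_Ioo isOpen_Iio
        (fun i => (Qs' i).mono fun t ht => ⟨ht.1, by linarith [ht.2]⟩)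
        (fun i => (ys' i).mono fun t ht => ⟨ht.1, by linarith [ht.2]⟩)
        (fun i t ht => Ql i t (le_of_lt ht)) ⟨by linarith [hx.1], by linarith⟩
        (by rw [closure_Iio]; exact h)]
      exact yp' x ⟨hx.1, by linarith⟩
  · have cQ : ContinuousOn (fun x => Q 0 x - Q 1 x) (Ioo 0 (s + Real.pi / 2)) :=
      (Qs' 0).continuousOn.sub (Qs' 1).continuousOn
    have iQ : ∀ u v : ℝ, u ≤ v → 0 < u → v < s + Real.pi / 2 →
        IntervalIntegrable (fun x => Q 0 x - Q 1 x) MeasureTheory.volume u v := by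
      intro u v huv hu hv
      refine (cQ.mono ?_).intervalIntegrable
      rw [uIcc_of_le huv]
      exact fun t ht => ⟨by linarith [ht.1], by linarith [ht.2]⟩
    have iq : IntervalIntegrable (fun x => q 0 x - q 1 x) MeasureTheory.volume a b := by
      refine (((hq 0).continuousOn.sub (hq 1).continuousOn).mono ?_).intervalIntegrable
      rw [uIcc_of_le hab.le]
      exact K2
    have i1 := iQ (a - ρ₁) a (by linarith) (by linarith) (by linarith)
    have i2 := iQ a b hab.le ha0 (by linarith)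
    have i3 := iQ b (b + ρ₂) (by linarith) (by linarith) (by linarith)
    rw [← intervalIntegral.integral_add_adjacent_intervals i1 (i2.trans i3),
      ← intervalIntegral.integral_add_adjacent_intervals i2 i3]
    have n1 : 0 ≤ M₁ * ρ₀ := by positivity
    have n3 : 0 ≤ M₃ * ρ₀ := by positivity
    have n2 : 0 ≤ (b - a) * ρ₀ := mul_nonneg (by linarith) hρ₀.le
    have j1 : ∫ x in (a - ρ₁)..a, (Q 0 x - Q 1 x) ≤ 1 / 10 := by
      refine int_le (C := M₁ + 2) (by linarith) (fun x hx => ?_) ?_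
      · have h1 := abs_le.1 (B1 0 x hx)
        have h2 := abs_le.1 (B1 1 x hx)
        have h3 := abs_le.1 (hM₁ x ⟨by linarith [hx.1], hx.2⟩)
        simp only [Pi.sub_apply] at h3
        exact abs_le.2 ⟨by linarith [h1.1, h2.2, h3.1], by linarith [h1.2, h2.1, h3.2]⟩
      · have : (M₁ + 2) * (a - (a - ρ₁)) ≤ (M₁ + 2) * ρ₀ :=
          mul_le_mul_of_nonneg_left (by linarith) (by linarith)
        linarith
    have j3 : ∫ x in b..(b + ρ₂), (Q 0 x - Q 1 x) ≤ 1 / 10 := by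
      refine int_le (C := M₃ + 2) (by linarith) (fun x hx => ?_) ?_
      · have h1 := abs_le.1 (Qb2 0 x hx)
        have h2 := abs_le.1 (Qb2 1 x hx)
        have h3 := abs_le.1 (hM₃ x ⟨hx.1, by linarith [hx.2]⟩)
        simp only [Pi.sub_apply] at h3
        exact abs_le.2 ⟨by linarith [h1.1, h2.2, h3.1], by linarith [h1.2, h2.1, h3.2]⟩
      · have : (M₃ + 2) * (b + ρ₂ - b) ≤ (M₃ + 2) * ρ₀ :=
          mul_le_mul_of_nonneg_left (by linarith) (by linarith)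
        linarith
    have j2 : ∫ x in a..b, ((Q 0 x - Q 1 x) - (q 0 x - q 1 x)) ≤ 1 / 10 := by
      refine int_le (C := 4 * ρ₀) hab.le (fun x hx => ?_) (by linarith)
      have h1 := abs_le.1 (B2 0 x hx)
      have h2 := abs_le.1 (B2 1 x hx)
      exact abs_le.2 ⟨by linarith [h1.1, h2.2], by linarith [h1.2, h2.1]⟩
    rw [intervalIntegral.integral_sub i2 iq] at j2
    linarith
  · obtain ⟨C₁, hC₁⟩ := yd θ h0 h1 k
    obtain ⟨C₂, hC₂⟩ := Qd θ h0 h1 k
    refine ⟨max (max C₁ C₂) 0, le_max_right _ _, fun i => ⟨fun x hx x' hx' => ?_,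
      fun x hx x' hx' => ?_⟩⟩
    · have e1 : Q i - tq 0 i =ᶠ[𝓝 x'] y i - tq 0 i :=
        (Qy i x' (hx'.2.trans hx.2)).sub EventuallyEq.rfl
      rw [e1.iteratedDeriv_eq k, etY_congr (fun j => Qy j x hx.2)]
      refine ((hC₁ i).1 x hx x' hx').trans (mul_le_mul_of_nonneg_right
        ((le_max_left _ _).trans (le_max_left _ _)) (Real.rpow_nonneg ?_ _))
      exact (yp' x ⟨hx.1, hx.2.trans hab.le⟩).le
    · refine ((hC₂ i).2 x hx x' hx').trans (mul_le_mul_of_nonneg_right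
        ((le_max_right _ _).trans (le_max_left _ _)) (Real.rpow_nonneg ?_ _))
      exact (Qp x ⟨by linarith [hx.1], hx.2⟩).le

/-! ### Integration -/

lemma lam_prod {s x γ : ℝ} {g : ℝ → ℝ} (hx : x ∈ Ioo s (s + Real.pi / 2)) (i : Fin 2)
    (hg : g x = γ + Real.log (trg s i x)) :
    Real.exp (2 * g x) = Real.exp (2 * γ) * trg s i x ^ 2 ∧
      lam g (tq s i) x = Real.log (Real.exp (2 * γ) * trg s i x) := by
  have h := trg_pos hx i
  constructor
  · rw [hg, mul_add, Real.exp_add, show 2 * Real.log (trg s i x) = Real.log (trg s i x ^ 2) by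
      rw [Real.log_pow]; norm_num, Real.exp_log (by positivity)]
  · rw [lam, one_add_tq hx, Real.log_inv, Real.log_pow, Real.log_mul (Real.exp_pos _).ne' h.ne',
      Real.log_exp, hg]
    push_cast
    ring

lemma dev_of {U V S W : Set ℝ} {p : ℝ} {η f f' : ℝ → ℝ} (hU : IsOpen U) (hV : IsOpen V)
    (hW : W ⊆ U) (hη : ∀ x ∈ W, 0 ≤ η x) (hc : ∀ x ∈ W, x ∈ S ∨ x ∈ closure V)
    (h0 : ∀ x ∈ V, f' x = 0) (hf : ∀ x ∈ U, f x = f' x)
    (h : ∀ θ : ℝ, 0 < θ → θ < 1 → Small U p S (fun x => η x ^ θ) f') :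
    ∀ θ : ℝ, 0 < θ → θ < 1 → ∀ k, ∃ C : ℝ, ∀ x ∈ W, |iteratedDeriv k f x| ≤ C * η x ^ θ := by
  intro θ h1 h2 k
  obtain ⟨hs, hb⟩ := h θ h1 h2
  obtain ⟨C, hC, hb⟩ := hb k
  refine ⟨C, fun x hx => ?_⟩
  have : f =ᶠ[𝓝 x] f' := by
    filter_upwards [hU.mem_nhds (hW hx)] with u hu using hf u hu
  rw [this.iteratedDeriv_eq k]
  rcases hc x hx with h3 | h3
  · exact hb x h3 x right_mem_uIcc
  · rw [iter_closure hU hV hs h0 (hW hx) h3 k, abs_zero]
    exact mul_nonneg hC (Real.rpow_nonneg (hη x hx) _)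

lemma ratio {u v I γ₀ γ₁ : ℝ} (hu : u ∈ Ioo 0 (0 + Real.pi / 2)) (hv : Real.arctan 4 ≤ v)
    (hv' : v < Real.pi / 2) (hI : I ≤ -5 / 2)
    (h : γ₀ - γ₁ = Real.log (Real.sin u) - Real.log (Real.cos u) + I -
      (Real.log (Real.sin v) - Real.log (Real.cos v))) :
    1600 * Real.exp (2 * γ₀) ≤ Real.exp (2 * γ₁) * Real.tan u ^ 2 := by
  have h4 : 0 < Real.arctan 4 := Real.arctan_pos.2 (by norm_num)
  have hpi := Real.pi_pos
  obtain ⟨su, cu⟩ := sc_pos hu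
  obtain ⟨sv, cv⟩ := sc_pos (s := 0) (x := v) ⟨by linarith, by linarith⟩
  rw [sub_zero] at su cu sv cv
  have tu : 0 < Real.tan u := by rw [Real.tan_eq_sin_div_cos]; positivity
  have tv : 4 ≤ Real.tan v := by
    rw [← Real.tan_arctan 4]
    exact Real.strictMonoOn_tan.monotoneOn ⟨by linarith, Real.arctan_lt_pi_div_two _⟩
      ⟨by linarith, hv'⟩ hv
  rw [← Real.log_div su.ne' cu.ne', ← Real.log_div sv.ne' cv.ne', ← Real.tan_eq_sin_div_cos,
    ← Real.tan_eq_sin_div_cos] at h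
  have l4 : Real.log 4 ≤ Real.log (Real.tan v) := Real.log_le_log (by norm_num) tv
  have e5 : Real.log 100 ≤ 5 := by
    rw [Real.log_le_iff_le_exp (by norm_num)]
    have h1 := Real.exp_one_gt_d9
    have h2 : Real.exp 5 = Real.exp 1 ^ 5 := by rw [← Real.exp_nat_mul]; norm_num
    rw [h2]
    calc (100 : ℝ) ≤ 2.7 ^ 5 := by norm_num
      _ ≤ Real.exp 1 ^ 5 := pow_le_pow_left₀ (by norm_num) (by linarith) 5
  have l16 : Real.log 1600 = Real.log 100 + 2 * Real.log 4 := by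
    rw [show (1600 : ℝ) = 100 * 4 ^ 2 by norm_num, Real.log_mul (by norm_num) (by norm_num),
      Real.log_pow]
    norm_num
  have e1 : (1600 : ℝ) * Real.exp (2 * γ₀) = Real.exp (Real.log 1600 + 2 * γ₀) := by
    rw [Real.exp_add, Real.exp_log (by norm_num)]
  have e2 : Real.exp (2 * γ₁) * Real.tan u ^ 2 =
      Real.exp (2 * γ₁ + 2 * Real.log (Real.tan u)) := by
    rw [Real.exp_add, show 2 * Real.log (Real.tan u) = Real.log (Real.tan u ^ 2) by
      rw [Real.log_pow]; norm_num, Real.exp_log (by positivity)]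
  rw [e1, e2, Real.exp_le_exp]
  linarith

end Mid

open Mid in
theorem mid (g : GlueStmt) (pn : PNStmt) : MidStmt := by
  obtain ⟨a, ρ₁, b, ρ₂, s, Q, hρ₁, h1a, ha5, hab, hs, hρ₂, h10, Qs, Ql, Qr, Qp, hI, Qd⟩ :=
    glued g pn
  have hpi := Real.pi_gt_three
  have h4 : 0 < Real.arctan 4 := Real.arctan_pos.2 (by norm_num)
  have h10' : Real.arctan 10 < Real.pi / 2 := Real.arctan_lt_pi_div_two _
  obtain ⟨p, hp⟩ : ∃ p, p = a - ρ₁ := ⟨_, rfl⟩
  obtain ⟨p', hp'⟩ : ∃ p', p' = b + ρ₂ := ⟨_, rfl⟩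
  obtain ⟨J, hJ⟩ : ∃ J, J = Ioo 0 (s + Real.pi / 2) := ⟨_, rfl⟩
  have mJ : ∀ x, x ∈ J ↔ 0 < x ∧ x < s + Real.pi / 2 := fun x => by rw [hJ]; rfl
  have oJ : IsOpen J := hJ ▸ isOpen_Ioo
  have cJ : OrdConnected J := hJ ▸ ordConnected_Ioo
  rw [← hp] at Ql Qp hI Qd
  rw [← hp'] at Qr Qp hI Qd h10
  rw [← hJ] at Qs
  have pJ : p ∈ J := (mJ p).2 ⟨by linarith, by linarith⟩
  have pJ' : p' ∈ J := (mJ p').2 ⟨by linarith, by linarith⟩
  have iQ : ∀ i, ∀ u ∈ J, ∀ v ∈ J, IntervalIntegrable (Q i) MeasureTheory.volume u v :=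
    fun i u hu v hv => ((Qs i).continuousOn.mono (cJ.uIcc_subset hu hv)).intervalIntegrable
  obtain ⟨G, hG⟩ : ∃ G : Fin 2 → ℝ → ℝ,
      ∀ i x, G i x = Real.log (trg 0 i p) + ∫ t in p..x, Q i t := ⟨_, fun _ _ => rfl⟩
  have dG : ∀ i, ∀ x ∈ J, HasDerivAt (G i) (Q i x) x := by
    intro i x hx
    have : G i = fun x => Real.log (trg 0 i p) + ∫ t in p..x, Q i t := funext (hG i)
    rw [this]
    exact (intervalIntegral.integral_hasDerivAt_right (iQ i p pJ x hx)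
      ((Qs i).continuousOn.stronglyMeasurableAtFilter oJ x hx)
      ((Qs i).continuousOn.continuousAt (oJ.mem_nhds hx))).const_add _
  have ftc : ∀ (s' : ℝ) (i : Fin 2) (u v : ℝ), u ∈ Ioo s' (s' + Real.pi / 2) →
      v ∈ Ioo s' (s' + Real.pi / 2) → (∀ t ∈ uIcc u v, Q i t = tq s' i t) →
      ∫ t in u..v, Q i t = Real.log (trg s' i v) - Real.log (trg s' i u) := by
    intro s' i u v hu hv h
    have hsub := ordConnected_Ioo.uIcc_subset hu hv
    rw [intervalIntegral.integral_congr h]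
    exact intervalIntegral.integral_eq_sub_of_hasDerivAt (f := fun x => Real.log (trg s' i x))
      (fun t ht => hd_log (hsub ht) i)
      ((tq_smooth s' i).continuousOn.mono hsub).intervalIntegrable
  have p0 : p ∈ Ioo 0 (0 + Real.pi / 2) := ⟨by linarith, by linarith⟩
  have ps : p' ∈ Ioo s (s + Real.pi / 2) := ⟨by linarith, by linarith⟩
  have Gl : ∀ i x, 0 < x → x ≤ p → G i x = 0 + Real.log (trg 0 i x) := by
    intro i x h0 hx
    rw [hG, ftc 0 i p x p0 ⟨h0, by linarith⟩ fun t ht => Ql i t ?_]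
    · ring
    · rw [uIcc_of_ge hx] at ht
      exact ht.2
  obtain ⟨γ, hγ⟩ : ∃ γ : Fin 2 → ℝ, ∀ i, γ i = G i p' - Real.log (trg s i p') :=
    ⟨_, fun _ => rfl⟩
  have Gr : ∀ i x, p' ≤ x → x < s + Real.pi / 2 → G i x = γ i + Real.log (trg s i x) := by
    intro i x hx h0
    have hxJ : x ∈ J := (mJ x).2 ⟨by linarith, h0⟩
    rw [hγ, hG, hG, ← intervalIntegral.integral_add_adjacent_intervals (iQ i p pJ p' pJ')
      (iQ i p' pJ' x hxJ), ftc s i p' x ps ⟨by linarith, h0⟩ fun t ht => Qr i t ?_]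
    · ring
    · rw [uIcc_of_le hx] at ht
      exact ht.1
  obtain ⟨d, hd⟩ : ∃ d : Fin 2 → ℝ → ℝ, ∀ i x, d i x = if x ≤ p then trg 0 i x ^ 2 else
      if p' ≤ x then Real.exp (2 * γ i) * trg s i x ^ 2 else Real.exp (2 * G i x) :=
    ⟨_, fun _ _ => rfl⟩
  obtain ⟨L, hL⟩ : ∃ L : Fin 2 → ℝ → ℝ, ∀ i x, L i x = if x ≤ p then Real.log (trg 0 i x) else
      if p' ≤ x then Real.log (Real.exp (2 * γ i) * trg s i x) else lam (G i) (Q i) x :=
    ⟨_, fun _ _ => rfl⟩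
  have dL : ∀ i, ∀ x ∈ J, d i x = Real.exp (2 * G i x) ∧ L i x = lam (G i) (Q i) x := by
    intro i x hx
    obtain ⟨x0, x1⟩ := (mJ x).1 hx
    rw [hd, hL]
    split_ifs with h h'
    · have := lam_prod (s := 0) ⟨x0, by linarith⟩ i (Gl i x x0 h)
      simp only [mul_zero, Real.exp_zero, one_mul] at this
      refine ⟨this.1.symm, ?_⟩
      rw [← this.2, lam, lam, Ql i x h]
    · have := lam_prod (s := s) ⟨by linarith, x1⟩ i (Gr i x h' x1)
      refine ⟨this.1.symm, ?_⟩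
      rw [← this.2, lam, lam, Qr i x h']
    · exact ⟨rfl, rfl⟩
  have dQ : ∀ i, ∀ x ∈ J, DifferentiableAt ℝ (Q i) x := fun i x hx =>
    ((Qs i).contDiffAt (oJ.mem_nhds hx)).differentiableAt (by simp)
  have dd : ∀ i, ∀ x ∈ J, deriv (d i) x = Real.exp (2 * G i x) * (2 * Q i x) := by
    intro i x hx
    have : d i =ᶠ[𝓝 x] fun x => Real.exp (2 * G i x) := by
      filter_upwards [oJ.mem_nhds hx] with t ht using (dL i t ht).1
    rw [this.deriv_eq, ((dG i x hx).const_mul 2).exp.deriv]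
  have dL' : ∀ i, ∀ x ∈ J, deriv (L i) x = pT true (Q i) x := by
    intro i x hx
    have : L i =ᶠ[𝓝 x] lam (G i) (Q i) := by
      filter_upwards [oJ.mem_nhds hx] with t ht using (dL i t ht).2
    rw [this.deriv_eq, (hd_lam (dG i x hx) (dQ i x hx)).deriv]
  have hη : ∀ x ∈ J, etaF (L 0) (L 1) x = etY (fun _ => true) Q x := by
    intro x hx
    have h2 : ∀ i, deriv (deriv (L i)) x = deriv (pT true (Q i)) x := fun i => by
      have : deriv (L i) =ᶠ[𝓝 x] pT true (Q i) := by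
        filter_upwards [oJ.mem_nhds hx] with t ht using dL' i t ht
      exact this.deriv_eq
    simp only [etaF, etY, h2, dL' _ x hx]
  obtain ⟨U₁, hU₁⟩ : ∃ U₁, U₁ = J ∩ Ioo 0 (0 + Real.pi / 2) := ⟨_, rfl⟩
  obtain ⟨U₂, hU₂⟩ : ∃ U₂, U₂ = J ∩ Ioo s (s + Real.pi / 2) := ⟨_, rfl⟩
  have o1 : IsOpen U₁ := hU₁ ▸ oJ.inter isOpen_Ioo
  have o2 : IsOpen U₂ := hU₂ ▸ oJ.inter isOpen_Ioo
  have s1 : U₁ ⊆ J := hU₁ ▸ inter_subset_left
  have s2 : U₂ ⊆ J := hU₂ ▸ inter_subset_left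
  have t1 : U₁ ⊆ Ioo 0 (0 + Real.pi / 2) := hU₁ ▸ inter_subset_right
  have t2 : U₂ ⊆ Ioo s (s + Real.pi / 2) := hU₂ ▸ inter_subset_right
  have m1 : ∀ x, 0 < x → x ≤ a → x ∈ U₁ := fun x h0 h1 =>
    hU₁ ▸ ⟨(mJ x).2 ⟨h0, by linarith⟩, h0, by linarith⟩
  have m2 : ∀ x, b ≤ x → x < s + Real.pi / 2 → x ∈ U₂ := fun x h0 h1 =>
    hU₂ ▸ ⟨(mJ x).2 ⟨by linarith, h1⟩, by linarith, h1⟩
  have c1 : ∀ x, 0 < x → x ≤ p → x ∈ closure (Ioo 0 p) := fun x h0 h1 => by
    rw [closure_Ioo p0.1.ne]; exact ⟨h0.le, h1⟩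
  have c2 : ∀ x, p' ≤ x → x < s + Real.pi / 2 → x ∈ closure (Ioo p' (s + Real.pi / 2)) :=
    fun x h0 h1 => by rw [closure_Ioo ps.2.ne]; exact ⟨h0, h1.le⟩
  have η0 : ∀ x ∈ J, 0 ≤ etaF (L 0) (L 1) x := by
    intro x hx
    obtain ⟨x0, x1⟩ := (mJ x).1 hx
    rw [hη x hx]
    rcases le_or_gt x p with h | h
    · rw [etY_closure o1 isOpen_Ioo (fun i => (Qs i).mono s1) (fun i => (tq_smooth 0 i).mono t1)
        (fun i t ht => Ql i t ht.2.le) (m1 x x0 (by linarith)) (c1 x x0 h),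
        etY_tq (t1 (m1 x x0 (by linarith)))]
    rcases le_or_gt p' x with h' | h'
    · rw [etY_closure o2 isOpen_Ioo (fun i => (Qs i).mono s2) (fun i => (tq_smooth s i).mono t2)
        (fun i t ht => Qr i t ht.1.le) (m2 x (by linarith) x1) (c2 x h' x1),
        etY_tq (t2 (m2 x (by linarith) x1))]
    · exact (Qp x ⟨h, h'⟩).2.le
  -- the two sides
  have K1 : Icc p a ⊆ U₁ := fun x hx => m1 x (by linarith [hx.1]) hx.2
  have K2 : Icc b p' ⊆ U₂ := fun x hx => m2 x hx.1 (by linarith [hx.2])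
  have S1 : ∀ x ∈ Ioc p a, uIcc p x ⊆ Icc p a := fun x hx => by
    rw [uIcc_of_le hx.1.le]; exact Icc_subset_Icc_right hx.2
  have S2 : ∀ x ∈ Ico b p', uIcc p' x ⊆ Icc b p' := fun x hx => by
    rw [uIcc_of_ge hx.2.le]; exact Icc_subset_Icc_left hx.1
  have A1 := fun (i : Fin 2) (θ : ℝ) (h0 : 0 < θ) (h1 : θ < 1) =>
    side (w := fun x => etaF (L 0) (L 1) x ^ θ) (g := fun x => 0 + Real.log (trg 0 i x))
      o1 isCompact_Icc K1 S1
      (fun x hx => Real.rpow_nonneg (η0 x (s1 (K1 (Ioc_subset_Icc_self hx)))) _)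
      ((Qs i).mono s1) ((tq_smooth 0 i).mono t1) (fun x hx => dG i x (s1 hx))
      (fun x hx => (hd_log (t1 hx) i).const_add 0) (Gl i p p0.1 le_rfl) (Ql i p le_rfl)
      ⟨((Qs i).mono s1).sub ((tq_smooth 0 i).mono t1), fun k => by
        obtain ⟨C, hC, hb⟩ := Qd θ h0 h1 k
        refine ⟨C, hC, fun x hx x' hx' => ?_⟩
        rw [uIcc_of_le hx.1.le] at hx'
        simp only [hη x (s1 (K1 (Ioc_subset_Icc_self hx)))]
        exact (hb i).1 x hx x' hx'⟩
  have A2 := fun (i : Fin 2) (θ : ℝ) (h0 : 0 < θ) (h1 : θ < 1) =>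
    side (w := fun x => etaF (L 0) (L 1) x ^ θ) (g := fun x => γ i + Real.log (trg s i x))
      o2 isCompact_Icc K2 S2
      (fun x hx => Real.rpow_nonneg (η0 x (s2 (K2 (Ico_subset_Icc_self hx)))) _)
      ((Qs i).mono s2) ((tq_smooth s i).mono t2) (fun x hx => dG i x (s2 hx))
      (fun x hx => (hd_log (t2 hx) i).const_add (γ i)) (Gr i p' le_rfl ps.2) (Qr i p' le_rfl)
      ⟨((Qs i).mono s2).sub ((tq_smooth s i).mono t2), fun k => by
        obtain ⟨C, hC, hb⟩ := Qd θ h0 h1 k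
        refine ⟨C, hC, fun x hx x' hx' => ?_⟩
        rw [uIcc_of_ge hx.2.le] at hx'
        simp only [hη x (s2 (K2 (Ico_subset_Icc_self hx)))]
        exact (hb i).2 x hx x' hx'⟩
  have W1 : Ioo 0 a ⊆ U₁ := fun x hx => m1 x hx.1 hx.2.le
  have W2 : Ioo b (s + Real.pi / 2) ⊆ U₂ := fun x hx => m2 x hx.1.le hx.2
  have X1 : ∀ x ∈ Ioo 0 a, x ∈ Ioc p a ∨ x ∈ closure (Ioo 0 p) := fun x hx =>
    (lt_or_ge p x).imp (fun h => ⟨h, hx.2.le⟩) fun h => c1 x hx.1 h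
  have X2 : ∀ x ∈ Ioo b (s + Real.pi / 2),
      x ∈ Ico b p' ∨ x ∈ closure (Ioo p' (s + Real.pi / 2)) := fun x hx =>
    (lt_or_ge x p').imp (fun h => ⟨hx.1.le, h⟩) fun h => c2 x h hx.2
  refine ⟨a, ρ₁, b, ρ₂, s, fun i => Real.exp (2 * γ i), d, L, hρ₁, h1a, ha5, hab.le, by linarith,
    hρ₂, hp' ▸ h10, fun i => Real.exp_pos _, ?_, fun i => ?_, fun i x hx => ?_, fun i x hx => ?_,
    fun x hx => ?_, fun i => ⟨?_, ?_, ?_, ?_⟩⟩
  · rw [← hp]
    refine ratio (v := p' - s) p0 (by linarith) (by linarith) hI ?_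
    rw [hγ, hγ, hG, hG, intervalIntegral.integral_sub (iQ 0 p pJ p' pJ') (iQ 1 p pJ p' pJ')]
    simp only [trg, Matrix.cons_val_zero, Matrix.cons_val_one, Matrix.cons_val_fin_one, sub_zero]
    ring
  · rw [← hJ]
    have sG := smooth_of_hd oJ (Qs i) (dG i)
    exact ⟨(contDiffOn_const.mul sG).exp.congr fun x hx => (dL i x hx).1,
      (smooth_of_hd oJ (pT_smooth oJ (Qs i)) fun x hx => hd_lam (dG i x hx) (dQ i x hx)).congr
        fun x hx => (dL i x hx).2⟩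
  · rw [← hp] at hx
    rw [hd, hL, if_pos hx, if_pos hx]
    exact ⟨rfl, rfl⟩
  · rw [← hp'] at hx
    have : ¬ x ≤ p := by intro h; linarith
    rw [hd, hL, if_neg this, if_neg this, if_pos hx, if_pos hx]
    exact ⟨rfl, rfl⟩
  · rw [← hJ] at hx
    obtain ⟨x0, x1⟩ := (mJ x).1 hx
    refine ⟨fun i => ⟨?_, ?_⟩, ?_, η0 x hx, fun h h' => ?_⟩
    · rw [(dL i x hx).1]; exact Real.exp_pos _
    · have h0 : 0 < 1 + Q i x ^ 2 := by positivity
      rw [dd i x hx, (dL i x hx).1, (dL i x hx).2, lam,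
        show 2 * (2 * G i x + Real.log (1 + Q i x ^ 2) / 2) =
          2 * G i x + 2 * G i x + Real.log (1 + Q i x ^ 2) by ring,
        Real.exp_add, Real.exp_add, Real.exp_log h0]
      ring
    · rw [dd 0 x hx]
      refine mul_pos (Real.exp_pos _) (mul_pos two_pos ?_)
      rcases le_or_gt x p with h | h
      · have := sc_pos (t1 (m1 x x0 (by linarith)))
        rw [Ql 0 x h]
        exact div_pos this.2 this.1
      rcases le_or_gt p' x with h' | h'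
      · have := sc_pos (t2 (m2 x (by linarith) x1))
        rw [Qr 0 x h']
        exact div_pos this.2 this.1
      · exact (Qp x ⟨h, h'⟩).1
    · rw [hη x hx]
      exact (Qp x ⟨hp ▸ h, hp' ▸ h'⟩).2
  · refine dev_of o1 isOpen_Ioo W1 (fun x hx => η0 x (s1 (W1 hx))) X1 (fun x hx => ?_)
      (fun x hx => ?_) fun θ h0 h1 => (A1 i θ h0 h1).1
    · simp only [Gl i x hx.1 hx.2.le, sub_self]
    · have := (lam_prod (g := fun x => 0 + Real.log (trg 0 i x)) (t1 hx) i rfl).1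
      simp only [Pi.sub_apply, (dL i x (s1 hx)).1, this, mul_zero, Real.exp_zero, one_mul]
  · refine dev_of o1 isOpen_Ioo W1 (fun x hx => η0 x (s1 (W1 hx))) X1 (fun x hx => ?_)
      (fun x hx => ?_) fun θ h0 h1 => (A1 i θ h0 h1).2
    · simp only [Pi.sub_apply, lam, Gl i x hx.1 hx.2.le, Ql i x hx.2.le, sub_self]
    · have := (lam_prod (g := fun x => 0 + Real.log (trg 0 i x)) (t1 hx) i rfl).2
      simp only [Pi.sub_apply, (dL i x (s1 hx)).2, this, mul_zero, Real.exp_zero, one_mul]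
  · refine dev_of o2 isOpen_Ioo W2 (fun x hx => η0 x (s2 (W2 hx))) X2 (fun x hx => ?_)
      (fun x hx => ?_) fun θ h0 h1 => (A2 i θ h0 h1).1
    · simp only [Gr i x hx.1.le hx.2, sub_self]
    · have := (lam_prod (g := fun x => γ i + Real.log (trg s i x)) (t2 hx) i rfl).1
      simp only [Pi.sub_apply, (dL i x (s2 hx)).1, this]
  · refine dev_of o2 isOpen_Ioo W2 (fun x hx => η0 x (s2 (W2 hx))) X2 (fun x hx => ?_)
      (fun x hx => ?_) fun θ h0 h1 => (A2 i θ h0 h1).2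
    · simp only [Pi.sub_apply, lam, Gr i x hx.1.le hx.2, Qr i x hx.1.le, sub_self]
    · have := (lam_prod (g := fun x => γ i + Real.log (trg s i x)) (t2 hx) i rfl).2
      simp only [Pi.sub_apply, (dL i x (s2 hx)).2, this]

end Pool.Agent.Lib.MP_df9110_gt
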