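import Pool.Agent.Lib.MP_df9110_gt.NPert

-- part Pool.Agent.Lib.MP_df9110_gt.Main
section

/-! Two expanders with the same cone, from the construction and the perturbation theory. -/

namespace Pool.Agent.Lib.MP_df9110_gt

open Filter Topology
open scoped ContDiff

namespace Main

theorem cd_det {A : Pt → Mat} {x : Pt} (h : ∀ i j, ContDiffAt ℝ ∞ (fun y => A y i j) x) :
    ContDiffAt ℝ ∞ (fun y => (A y).det) x := by
  simp only [Matrix.det_apply']
  exact ContDiffAt.sum fun σ _ => contDiffAt_const.mul (contDiffAt_prod fun i _ => h _ _)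

theorem cd_inv {A : Pt → Mat} {x : Pt} (h : ∀ i j, ContDiffAt ℝ ∞ (fun y => A y i j) x)
    (hd : (A x).det ≠ 0) (i j : Fin 4) : ContDiffAt ℝ ∞ (fun y => (A y)⁻¹ i j) x := by
  simp only [Matrix.inv_def, Ring.inverse_eq_inv', Matrix.smul_apply, smul_eq_mul,
    Matrix.adjugate_apply]
  refine ((cd_det h).inv hd).mul (cd_det fun a b => ?_)
  by_cases e : a = j
  · simp only [Matrix.updateRow_apply, if_pos e]
    exact contDiffAt_const
  · simp only [Matrix.updateRow_apply, if_neg e]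
    exact h a b

theorem cd_pd {f : Pt → ℝ} {x : Pt} (h : ContDiffAt ℝ ∞ f x) (i : Fin 4) :
    ContDiffAt ℝ ∞ (pd i f) x := contDiffAt_pdn h i

theorem cd_scal {g : Pt → Mat} {x : Pt} (h : ∀ i j, ContDiffAt ℝ ∞ (fun y => g y i j) x)
    (hd : (g x).det ≠ 0) : ContDiffAt ℝ ∞ (Scal g) x := by
  have h1 : ∀ k i j, ContDiffAt ℝ ∞ (Chr g k i j) x := fun k i j =>
    contDiffAt_const.mul (ContDiffAt.sum fun l _ => (cd_inv h hd k l).mul
      (((cd_pd (h j l) i).add (cd_pd (h i l) j)).sub (cd_pd (h i j) l)))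
  have h2 : ∀ i j, ContDiffAt ℝ ∞ (Ric g i j) x := fun i j =>
    ContDiffAt.sum fun k _ => ((cd_pd (h1 k i j) k).sub (cd_pd (h1 k i k) j)).add
      (ContDiffAt.sum fun l _ => ((h1 k k l).mul (h1 l i j)).sub ((h1 k j l).mul (h1 l i k)))
  exact ContDiffAt.sum fun i _ => ContDiffAt.sum fun j _ => (cd_inv h hd i j).mul (h2 i j)

theorem cont_scal {g : Pt → Mat} {U : Set Pt} (h : IsMetricOn g U) (hU : IsOpen U) {x : Pt}
    (hx : x ∈ U) : ContinuousAt (Scal g) x :=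
  (cd_scal (fun i j => (h.1 i j).contDiffAt (hU.mem_nhds hx)) (h.2 x hx).det_pos.ne').continuousAt

theorem ev_ne (a : ℝ) : ∀ᶠ t in 𝓝[≠] (0 : ℝ), a + t ≠ 0 := by
  by_cases h : a = 0
  · filter_upwards [self_mem_nhdsWithin] with t ht
    rw [h, zero_add]
    exact ht
  · have : ContinuousAt (fun t : ℝ => a + t) 0 := by fun_prop
    exact (this.eventually_ne (by simpa using h)).filter_mono nhdsWithin_le_nhds

theorem neBot_Dn (y : Pt) : (𝓝[Dn] y).NeBot := by
  rw [← mem_closure_iff_nhdsWithin_neBot]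
  have h : Tendsto (fun t : ℝ => fun i => y i + t) (𝓝[≠] 0) (𝓝 y) := by
    have : Continuous fun t : ℝ => fun i => y i + t := by fun_prop
    simpa using (this.tendsto 0).mono_left (nhdsWithin_le_nhds (s := {0}ᶜ))
  refine mem_closure_of_tendsto h ?_
  filter_upwards [ev_ne (y 0), ev_ne (y 2)] with t h0 h2
  exact ⟨by positivity, by positivity⟩

theorem ge_of_Dn {f : Pt → ℝ} {y : Pt} {a : ℝ} (hf : ContinuousAt f y)
    (h : ∀ᶠ z in 𝓝 y, z ∈ Dn → a ≤ f z) : a ≤ f y := by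
  have := neBot_Dn y
  refine ge_of_tendsto (hf.tendsto.mono_left (nhdsWithin_le_nhds (s := Dn))) ?_
  filter_upwards [h.filter_mono nhdsWithin_le_nhds, self_mem_nhdsWithin] with z h1 h2 using h1 h2

theorem le_of_Dn {f : Pt → ℝ} {y : Pt} {a : ℝ} (hf : ContinuousAt f y)
    (h : ∀ z ∈ Dn, f z ≤ a) : f y ≤ a := by
  have := neBot_Dn y
  refine le_of_tendsto (hf.tendsto.mono_left (nhdsWithin_le_nhds (s := Dn))) ?_
  filter_upwards [self_mem_nhdsWithin] with z h2 using h z h2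

theorem sym_add (l0 : L0Facts) {f g : Pt → ℝ} (hf : IsSym (-1 / 2) f)
    (hg : IsSymOn ext1 (-2) g) : IsSymOn ext1 (-1 / 2) (f + g) := by
  refine ⟨fun y hy => (hf.1 y trivial).add (hg.1 y hy), fun k => ?_⟩
  obtain ⟨C, hC⟩ := hf.2 k
  obtain ⟨C', hC'⟩ := hg.2 k
  exact ⟨_, l0.add (fun y _ => hf.1 y trivial) hg.1
    (l0.mono hC (Set.subset_univ _) le_rfl le_rfl le_rfl)
    (l0.mono hC' subset_rfl (by norm_num) le_rfl le_rfl)⟩

end Main

open Main in
theorem main (_b1 : B1Stmt) (l0 : L0Facts) (hc : ConsStmt) (hd : DenseStmt) (m0 : M0Stmt)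
    (hp : PertStmt) (hf : FinStmt) (asy : AsyStmt) : MainStmt := by
  obtain ⟨I, l, _, Λ, γ, δ, S, g, U, φ, w, β, hΛ, hP, ev⟩ := hc
  have key : ∀ J, ∀ᶠ i in l, IsMetricOn (g J i) Set.univ ∧ (IsCone (γ i) →
      (∀ y, y ≠ 0 → 0 ≤ Scal (γ i) y) →
      (∀ a b, IsSymOn ext1 (-2) (gf (g J i) a b + gf (δ i) a b - gf (γ i) a b)) →
      ∃ g' f', IsExpander g' f' (γ i) ∧ (∀ y, 0 ≤ Scal g' y) ∧
        (∀ y, ∃ z, Scal g' y ≤ Scal (g J i) z + 1) ∧ Scal (g J i) 0 ≤ Scal g' 0 + 1) := by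
    intro J
    have H := hd I l Λ hΛ _ _ _ _ _ _ (hP J)
    obtain ⟨p, hp1⟩ := H.g_ell
    obtain ⟨q, hq⟩ := H.w_bar
    have hm := ((m0.1 I l Λ hΛ).inv (g J)
      ⟨H.g_symm, p, hp1.mono fun i h y => h y trivial⟩ H.g_mod).2.1
    filter_upwards [hm, hp I l Λ hΛ _ _ _ _ _ _ H, hq, H.w_mod.1] with i h1 h2 h3 h4
    refine ⟨h1, fun c1 c2 c3 => ?_⟩
    obtain ⟨g', U', s1, s2, s3, s4⟩ := h2
    have hΛ0 : 0 < Λ i := lt_of_lt_of_le two_pos (hΛ i)
    obtain ⟨g'', f, e1, e2, e3, e4⟩ := hf g' U' (γ i) (w J i) s1 c1 c2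
      (fun a b => by
        have := sym_add l0 (s2 a b) (c3 a b)
        rwa [show gf g' a b - gf (g J i) a b - gf (δ i) a b +
          (gf (g J i) a b + gf (δ i) a b - gf (γ i) a b) = gf g' a b - gf (γ i) a b by abel] at this)
      (contDiff_iff_contDiffAt.2 fun y => h4.1 y trivial)
      ⟨(Λ i ^ q)⁻¹, by positivity, fun y => (h3 y trivial).1⟩ s4
    refine ⟨g'', f, e1, e2, fun y => ?_, ?_⟩
    · obtain ⟨z, hz⟩ := e3 y
      exact ⟨z, by linarith [(abs_le.1 (s3 z)).2]⟩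
    · linarith [(abs_le.1 (s3 0)).1]
  obtain ⟨i, ⟨c1, c2, c3, c4, r, hr, c5⟩, ⟨m1, k1⟩, m2, k2⟩ :=
    (ev.and ((key true).and (key false))).exists
  have c2' : ∀ y, y ≠ 0 → 0 ≤ Scal (γ i) y := fun y hy =>
    ge_of_Dn (cont_scal c1.1 isOpen_compl_singleton hy) (Eventually.of_forall c2)
  obtain ⟨g₁, f₁, a1, a2, a3, -⟩ := k1 c1 c2' (c3 true)
  obtain ⟨g₂, f₂, b1, b2, -, b4⟩ := k2 c1 c2' (c3 false)
  refine ⟨γ i, c1, c2', g₁, g₂, f₁, f₂, a1, b1, a2, b2, fun iso => ?_⟩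
  obtain ⟨z, hz⟩ := asy.2.2.2 g₁ g₂ a1.metric b1.metric iso 0
  obtain ⟨z', hz'⟩ := a3 z
  have d1 : Scal (g true i) z' ≤ S i := le_of_Dn (cont_scal m1 isOpen_univ trivial) c4
  have d2 : S i + 3 ≤ Scal (g false i) 0 := by
    refine ge_of_Dn (cont_scal m2 isOpen_univ trivial) ?_
    have hn : ContinuousAt nsq (0 : Pt) :=
      (continuous_finsetSum _ fun i _ => (continuous_apply i).pow 2).continuousAt
    have h0 : nsq (0 : Pt) < r := by simpa [nsq] using hr
    filter_upwards [hn.eventually_lt continuousAt_const h0] with y h1 h2 using c5 y h2 h1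
  linarith

end Pool.Agent.Lib.MP_df9110_gt
end

-- part Pool.Agent.Lib.MP_df9110_gt.Mp
section

/-! The maximum principles for functions and for symmetric tensors. -/

namespace Pool.Agent.Lib.MP_df9110_gt

open Filter Topology
open scoped ContDiff

namespace Mp

theorem qf_eq (T : Fin 4 → Fin 4 → ℝ) (u : Pt) :
    qf T u = star u ⬝ᵥ (Matrix.of T).mulVec u := by
  simp only [qf, dotProduct, Matrix.mulVec, Finset.mul_sum, star_trivial, Matrix.of_apply]
  exact Finset.sum_congr rfl fun a _ => Finset.sum_congr rfl fun b _ => by ring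

theorem psd_of {T : Fin 4 → Fin 4 → ℝ} (hs : ∀ i j, T i j = T j i) (h : ∀ u, 0 ≤ qf T u) :
    (Matrix.of T).PosSemidef := by
  refine Matrix.PosSemidef.of_dotProduct_mulVec_nonneg ?_ fun u => qf_eq T u ▸ h u
  ext i j
  simp [hs i j]

theorem tr_nonneg {G : Mat} (hG : G.PosSemidef) {H : Fin 4 → Fin 4 → ℝ}
    (hs : ∀ i j, H i j = H j i) (h : ∀ u, 0 ≤ qf H u) : 0 ≤ ∑ i, ∑ j, G i j * H i j := by
  have := (hG.hadamard (psd_of hs h)).dotProduct_mulVec_nonneg fun _ => 1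
  simpa [dotProduct, Matrix.mulVec] using this

theorem ker_of {T : Fin 4 → Fin 4 → ℝ} (hs : ∀ i j, T i j = T j i) (h : ∀ u, 0 ≤ qf T u)
    {v : Pt} (hv : qf T v = 0) (a : Fin 4) : ∑ b, T a b * v b = 0 := by
  have := ((psd_of hs h).dotProduct_mulVec_zero_iff v).1 (qf_eq T v ▸ hv)
  simpa [Matrix.mulVec, dotProduct] using congrFun this a

theorem qf_smul (T : Fin 4 → Fin 4 → ℝ) (c : ℝ) (u : Pt) : qf T (c • u) = c ^ 2 * qf T u := by
  simp only [qf, Finset.mul_sum, Pi.smul_apply, smul_eq_mul]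
  exact Finset.sum_congr rfl fun a _ => Finset.sum_congr rfl fun b _ => by ring

theorem qf_lin (T S : Fin 4 → Fin 4 → ℝ) (t s : ℝ) (u : Pt) :
    qf (fun a b => t * T a b + s * S a b) u = t * qf T u + s * qf S u := by
  simp only [qf, Finset.mul_sum, ← Finset.sum_add_distrib]
  exact Finset.sum_congr rfl fun a _ => Finset.sum_congr rfl fun b _ => by ring

theorem qf_zero (T : Fin 4 → Fin 4 → ℝ) : qf T 0 = 0 := by simp [qf]

theorem second1 {f : ℝ → ℝ} (hc : ContinuousAt f 0) (hm : IsLocalMin f 0) :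
    0 ≤ deriv (deriv f) 0 := by
  by_contra hn
  rw [not_le] at hn
  have hmax := isLocalMax_of_deriv_deriv_neg hn hm.deriv_eq_zero hc
  have e : f =ᶠ[𝓝 0] fun _ => f 0 := by
    filter_upwards [hm, hmax] with t h1 h2 using le_antisymm h2 h1
  rw [e.deriv.deriv_eq] at hn
  simp at hn

theorem fderiv_eq (w : Pt → ℝ) (x ξ : Pt) : fderiv ℝ w x ξ = ∑ j, ξ j * pd j w x := by
  have e : ξ = ∑ j, ξ j • (Pi.single j 1 : Pt) := by
    funext i
    simp [Finset.sum_apply, Pi.single_apply]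
  conv_lhs => rw [e]
  simp [pd]

theorem line_deriv {w : Pt → ℝ} (hw : ContDiff ℝ ∞ w) (y ξ : Pt) (t : ℝ) :
    HasDerivAt (fun t : ℝ => w (y + t • ξ)) (∑ j, ξ j * pd j w (y + t • ξ)) t := by
  have h1 : HasDerivAt (fun t : ℝ => y + t • ξ) ξ t := by
    simpa using ((hasDerivAt_id t).smul_const ξ).const_add y
  rw [← fderiv_eq]
  exact ((hw.differentiable (by simp)) _).hasFDerivAt.comp_hasDerivAt t h1

theorem hess_psd {u : Pt → ℝ} (hu : ContDiff ℝ ∞ u) {y : Pt} (hm : IsLocalMin u y) (ξ : Pt) :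
    0 ≤ qf (fun i j => pd i (pd j u) y) ξ := by
  have hc : Continuous fun t : ℝ => y + t • ξ := by fun_prop
  have h0 : IsLocalMin (fun t : ℝ => u (y + t • ξ)) 0 := by
    have : IsLocalMin u ((fun t : ℝ => y + t • ξ) 0) := by simpa using hm
    exact IsLocalMin.comp_continuous (g := fun t : ℝ => y + t • ξ) this hc.continuousAt
  have h1 := second1 (hu.continuous.comp hc).continuousAt h0
  have e : deriv (fun t : ℝ => u (y + t • ξ)) = fun t => ∑ j, ξ j * pd j u (y + t • ξ) :=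
    funext fun t => (line_deriv hu y ξ t).deriv
  have h2 : HasDerivAt (fun t : ℝ => ∑ j, ξ j * pd j u (y + t • ξ))
      (∑ j, ξ j * ∑ i, ξ i * pd i (pd j u) (y + (0 : ℝ) • ξ)) 0 :=
    HasDerivAt.fun_sum fun j _ => (line_deriv (contDiff_pdn hu j) y ξ 0).const_mul (ξ j)
  change 0 ≤ deriv (deriv fun t : ℝ => u (y + t • ξ)) 0 at h1
  rw [e, h2.deriv] at h1
  refine h1.trans_eq ?_
  simp only [qf, Finset.mul_sum, zero_smul, add_zero]
  rw [Finset.sum_comm]
  exact Finset.sum_congr rfl fun a _ => Finset.sum_congr rfl fun b _ => by ring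

theorem scalar {g : Pt → Mat} (hg : IsMetricOn g Set.univ) (V : Fin 4 → Pt → ℝ) {u : Pt → ℝ}
    {y : Pt} (hu : ContDiff ℝ ∞ u) (hm : IsLocalMin u y) : 0 ≤ lapF g V u y := by
  have h0 : ∀ k, pd k u y = 0 := fun k => by simp [pd, hm.fderiv_eq_zero]
  have h1 := tr_nonneg (H := fun i j => pd i (pd j u) y) (hg.2 y trivial).inv.posSemidef
    (fun i j => pdn_comm (n := 4) (f := u) (p := y) hu.contDiffAt i j) (hess_psd hu hm)
  simpa [lapF, gLapV, gTr, gHess, Finset.sum_apply, h0, Gf] using h1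

theorem cd_det {A : Pt → Mat} (h : ∀ i j, ContDiff ℝ ∞ fun y => A y i j) :
    ContDiff ℝ ∞ fun y => (A y).det := by
  simp only [Matrix.det_apply']
  exact ContDiff.sum fun σ _ => contDiff_const.mul (contDiff_prod fun i _ => h _ _)

theorem cd_inv {A : Pt → Mat} (h : ∀ i j, ContDiff ℝ ∞ fun y => A y i j)
    (hd : ∀ x, (A x).det ≠ 0) (i j : Fin 4) : ContDiff ℝ ∞ fun y => (A y)⁻¹ i j := by
  simp only [Matrix.inv_def, Ring.inverse_eq_inv', Matrix.smul_apply, smul_eq_mul,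
    Matrix.adjugate_apply]
  refine ((cd_det h).inv hd).mul (cd_det fun a b => ?_)
  by_cases e : a = j
  · simp only [Matrix.updateRow_apply, if_pos e]
    exact contDiff_const
  · simp only [Matrix.updateRow_apply, if_neg e]
    exact h a b

section Lin

variable {R : Type} [CommRing R] [Algebra ℝ R] {ι : Type} [Fintype ι]
  {D : ι → R → R} (hD : IsDer D) (g G : ι → ι → R) (Γ : ι → ι → ι → R) (V : ι → R)
  (k h : ι → ι → R) (t s : ℝ)

theorem rm_lin (Rl : ι → ι → ι → ι → R) (a b : ι) :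
    gRmT G Rl (fun a b => t • k a b + s • h a b) a b =
      t • gRmT G Rl k a b + s • gRmT G Rl h a b := by
  simp only [gRmT, mul_add, mul_smul_comm, Finset.sum_add_distrib, Finset.smul_sum,
    Finset.mul_sum]

theorem rc_lin (Rc : ι → ι → R) (a b : ι) :
    gRcT G Rc (fun a b => t • k a b + s • h a b) a b =
      t • gRcT G Rc k a b + s • gRcT G Rc h a b := by
  simp only [gRcT, mul_add, mul_smul_comm, Finset.sum_add_distrib, Finset.smul_sum, smul_add]
  abel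

include hD

theorem cov2_lin : gCov2 D Γ (fun a b => t • k a b + s • h a b) =
    fun c a b => t • gCov2 D Γ k c a b + s • gCov2 D Γ h c a b := by
  funext c a b
  simp only [gCov2, hD.add, hD.smul, mul_add, mul_smul_comm, Finset.sum_add_distrib,
    Finset.smul_sum, smul_add, smul_sub]
  abel

theorem cov3_lin (x y : ι → ι → ι → R) (e c a b : ι) :
    gCov3 D Γ (fun c a b => t • x c a b + s • y c a b) e c a b =
      t • gCov3 D Γ x e c a b + s • gCov3 D Γ y e c a b := by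
  simp only [gCov3, hD.add, hD.smul, mul_add, mul_smul_comm, Finset.sum_add_distrib,
    Finset.smul_sum, smul_add, smul_sub]
  abel

theorem lie_lin (a b : ι) : gLie D V (fun a b => t • k a b + s • h a b) a b =
    t • gLie D V k a b + s • gLie D V h a b := by
  simp only [gLie, hD.add, hD.smul, mul_add, add_mul, mul_smul_comm, smul_mul_assoc,
    Finset.sum_add_distrib, Finset.smul_sum, smul_add]
  abel

theorem gL_lin (a b : ι) : gL D g G Γ V (fun a b => t • k a b + s • h a b) a b =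
    t • gL D g G Γ V k a b + s • gL D g G Γ V h a b := by
  have e : gRough D G Γ (fun a b => t • k a b + s • h a b) a b =
      t • gRough D G Γ k a b + s • gRough D G Γ h a b := by
    simp only [gRough, cov2_lin hD, cov3_lin hD, mul_add, mul_smul_comm, Finset.sum_add_distrib,
      Finset.smul_sum]
  simp only [gL, gLapL, e, rm_lin, rc_lin, lie_lin hD]
  module

end Lin

section Conc

variable {g : Pt → Mat} (hg : IsMetricOn g Set.univ)

/-- The metric as a matrix of smooth functions. -/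
def gS (a b : Fin 4) : Sm 4 := ⟨gf g a b, contDiffOn_univ.1 (hg.1 a b)⟩

/-- Its inverse. -/
noncomputable def GS (a b : Fin 4) : Sm 4 :=
  ⟨Gf g a b, cd_inv (fun i j => contDiffOn_univ.1 (hg.1 i j))
    (fun x => (hg.2 x trivial).det_pos.ne') a b⟩

theorem met : IsMet (gS hg) (GS hg) := by
  have hs : ∀ y, (g y).IsSymm := fun y => by
    simpa [Matrix.IsHermitian, Matrix.IsSymm] using (hg.2 y trivial).isHermitian
  refine ⟨fun i j => Subtype.ext (funext fun y => ((hs y).apply i j).symm),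
    fun i j => Subtype.ext (funext fun y => ((hs y).inv.apply i j).symm),
    fun i j => Subtype.ext (funext fun y => ?_)⟩
  have := congrFun (congrFun (Matrix.nonsing_inv_mul (g y)
    ((Matrix.isUnit_iff_isUnit_det _).1 (hg.2 y trivial).isUnit)) i) j
  rw [Matrix.mul_apply, Matrix.one_apply] at this
  by_cases e : i = j <;> simpa [gS, GS, gf, Gf, e] using this

theorem e_chr : (fun a b c => (Sm 4).val (gChr smD (gS hg) (GS hg) a b c)) = chrF g := by
  funext a b c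
  exact map_gChr _ smD_val (gS hg) (GS hg) a b c

theorem e_L (V : Fin 4 → Sm 4) (T : Fin 4 → Fin 4 → Sm 4) (a b : Fin 4) :
    (Sm 4).val (gL smD (gS hg) (GS hg) (gChr smD (gS hg) (GS hg)) V T a b) =
      LF g (fun k => (V k).1) (fun a b => (T a b).1) a b := by
  rw [map_gL _ smD_val, e_chr]
  rfl

theorem e_lap (V : Fin 4 → Sm 4) (f : Sm 4) :
    (Sm 4).val (gLapV smD (GS hg) (gChr smD (gS hg) (GS hg)) V f) =
      lapF g (fun k => (V k).1) f.1 := by
  rw [map_gLapV _ smD_val, e_chr]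
  rfl

theorem e_rl (i j p q : Fin 4) :
    (Sm 4).val (gRlow smD (gS hg) (gChr smD (gS hg) (GS hg)) i j p q) = rlF g i j p q := by
  rw [map_gRlow _ smD_val, e_chr]
  rfl

include hg in
theorem LF_lin {V : Fin 4 → Pt → ℝ} (hV : ∀ k, ContDiff ℝ ∞ (V k))
    {k h : Fin 4 → Fin 4 → Pt → ℝ} (hk : ∀ i j, ContDiff ℝ ∞ (k i j))
    (hh : ∀ i j, ContDiff ℝ ∞ (h i j)) (t s : ℝ) (a b : Fin 4) (y : Pt) :
    LF g V (fun a b => t • k a b + s • h a b) a b y =
      t * LF g V k a b y + s * LF g V h a b y := by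
  have := congrArg (Sm 4).val (gL_lin isDer_smD (gS hg) (GS hg) (gChr smD (gS hg) (GS hg))
    (fun k => ⟨V k, hV k⟩) (fun a b => ⟨k a b, hk a b⟩) (fun a b => ⟨h a b, hh a b⟩) t s a b)
  rw [map_add, map_smul, map_smul, e_L, e_L, e_L] at this
  exact congrFun this y

/-- Evaluation at a point. -/
noncomputable def ev (y : Pt) : Sm 4 →ₐ[ℝ] ℝ :=
  (Pi.evalAlgHom ℝ (fun _ : Pt => ℝ) y).comp (Sm 4).val

theorem ev_apply (y : Pt) (f : Sm 4) : ev y f = (Sm 4).val f y := rfl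

theorem pd_aff (c : ℝ) (A : Fin 4 → ℝ) (y₀ y : Pt) (i : Fin 4) :
    pdn i (fun z : Pt => c - ∑ j, A j * (z j - y₀ j)) y = -A i := by
  have h : HasFDerivAt (fun z : Pt => c - ∑ j, A j * (z j - y₀ j))
      (-∑ j, A j • (ContinuousLinearMap.proj j : Pt →L[ℝ] ℝ)) y :=
    (HasFDerivAt.fun_sum fun j _ =>
      (((hasFDerivAt_apply j y).sub_const (y₀ j)).const_mul (A j))).const_sub c
  simp [pdn, h.fderiv, Pi.single_apply]

include hg in
/-- The inequality at a point where a non-negative tensor has a null vector. -/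
theorem touch (t5 : T5Stmt) {V : Fin 4 → Pt → ℝ} (hV : ∀ k, ContDiff ℝ ∞ (V k))
    {T : Fin 4 → Fin 4 → Pt → ℝ} (hT : ∀ i j, ContDiff ℝ ∞ (T i j)) (hs : ∀ i j, T i j = T j i)
    (h0 : ∀ y u, 0 ≤ qf (fun i j => T i j y) u) {y₀ v₀ : Pt}
    (hv : qf (fun i j => T i j y₀) v₀ = 0) :
    2 * qf (gRmT (fun i j => Gf g i j y₀) (fun i j p q => rlF g i j p q y₀)
      fun i j => T i j y₀) v₀ ≤ qf (fun i j => LF g V T i j y₀) v₀ := by
  let vS : Fin 4 → Sm 4 := fun k =>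
    ⟨fun z : Pt => v₀ k - ∑ j, (∑ m, chrF g k j m y₀ * v₀ m) * (z j - y₀ j),
      (by fun_prop : ContDiff ℝ ∞ fun z : Pt =>
        v₀ k - ∑ j, (∑ m, chrF g k j m y₀ * v₀ m) * (z j - y₀ j))⟩
  let TS : Fin 4 → Fin 4 → Sm 4 := fun a b => ⟨T a b, hT a b⟩
  let VS : Fin 4 → Sm 4 := fun k => ⟨V k, hV k⟩
  have hv0 : ∀ k, ev y₀ (vS k) = v₀ k := fun k => by simp [ev_apply, vS]
  have hT0 : ∀ a b, ev y₀ (TS a b) = T a b y₀ := fun a b => rfl
  have key := (t5 _ _ smD (gS hg) (GS hg) isDer_smD (met hg)).mp VS vS TS (ev y₀)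
    (fun i j => Subtype.ext (hs i j)) (fun i k => ?_) (fun a => ?_)
  · have hF : ∀ y, (∑ a, ∑ b, TS a b * (vS a * vS b)).1 y =
        qf (fun i j => T i j y) fun k => (vS k).1 y := fun y => by
      change ev y (∑ a, ∑ b, TS a b * (vS a * vS b)) = _
      simp only [map_sum, map_mul]
      rfl
    have hmin : IsLocalMin (∑ a, ∑ b, TS a b * (vS a * vS b)).1 y₀ := by
      refine Eventually.of_forall fun y => ?_
      have e : (fun k => (vS k).1 y₀) = v₀ := funext hv0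
      rw [hF, hF, e, hv]
      exact h0 _ _
    have h1 := scalar hg V (Sm.cd _) hmin
    rw [ev_apply, e_lap] at key
    have e1 : ev y₀ (∑ a, ∑ b, gL smD (gS hg) (GS hg) (gChr smD (gS hg) (GS hg)) VS TS a b *
        (vS a * vS b)) = qf (fun i j => LF g V T i j y₀) v₀ := by
      simp only [map_sum, map_mul, hv0]
      simp only [ev_apply, e_L]
      rfl
    have e2 : ev y₀ (∑ a, ∑ b, gRmT (GS hg) (gRlow smD (gS hg) (gChr smD (gS hg) (GS hg))) TS a b *
        (vS a * vS b)) = qf (gRmT (fun i j => Gf g i j y₀) (fun i j p q => rlF g i j p q y₀)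
          fun i j => T i j y₀) v₀ := by
      simp only [map_sum, map_mul, hv0, map_gRmT]
      simp only [ev_apply, e_rl]
      rfl
    rw [e1, e2] at key
    have e3 : lapF g (fun k => (VS k).1) (∑ a, ∑ b, TS a b * (vS a * vS b)).1 y₀ =
        lapF g V (∑ a, ∑ b, TS a b * (vS a * vS b)).1 y₀ := rfl
    linarith
  · have e : ∀ a b c, ev y₀ (gChr smD (gS hg) (GS hg) a b c) = chrF g a b c y₀ := fun a b c =>
      congrFun (congrFun (congrFun (congrFun (e_chr hg) a) b) c) y₀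
    have e' : ev y₀ (smD i (vS k)) = -∑ m, chrF g k i m y₀ * v₀ m :=
      pd_aff (v₀ k) (fun j => ∑ m, chrF g k j m y₀ * v₀ m) y₀ y₀ i
    simp only [gCovV, map_add, map_sum, map_mul, e, e', hv0, neg_add_cancel]
  · simp only [map_sum, map_mul, hv0, hT0]
    exact ker_of (fun i j => congrFun (hs i j) y₀) (h0 y₀) hv a

end Conc

/-- The best constant in `|h| ≤ t k` is attained. -/
theorem attain {k h : Fin 4 → Fin 4 → Pt → ℝ} (hk : ∀ i j, Continuous (k i j))
    (hp : ∀ y u, u ≠ 0 → 0 < qf (fun i j => k i j y) u) (hh : ∀ i j, CC (h i j)) {M : ℝ}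
    (hM : 0 ≤ M) {y₁ v₁ : Pt}
    (h1 : M * qf (fun i j => k i j y₁) v₁ < |qf (fun i j => h i j y₁) v₁|) :
    ∃ (t : ℝ) (y₀ v₀ : Pt), M < t ∧ v₀ ≠ 0 ∧
      |qf (fun i j => h i j y₀) v₀| = t * qf (fun i j => k i j y₀) v₀ ∧
      ∀ y v, |qf (fun i j => h i j y) v| ≤ t * qf (fun i j => k i j y) v := by
  have hk0 : ∀ y u, 0 ≤ qf (fun i j => k i j y) u := fun y u => by
    by_cases e : u = 0
    · rw [e, qf_zero]
    · exact (hp y u e).le
  let K : Set Pt := ⋃ i, ⋃ j, tsupport (h i j)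
  have hK : IsCompact K := isCompact_iUnion fun i => isCompact_iUnion fun j => (hh i j).2
  have hz : ∀ y, y ∉ K → ∀ v, qf (fun i j => h i j y) v = 0 := fun y hy v => by
    have : ∀ i j, h i j y = 0 := fun i j =>
      image_eq_zero_of_notMem_tsupport fun hm => hy (Set.mem_iUnion₂.2 ⟨i, j, hm⟩)
    simp [qf, this]
  let F : Pt × Pt → ℝ := fun z =>
    |qf (fun i j => h i j z.1) z.2| / qf (fun i j => k i j z.1) z.2
  have hne : ∀ v ∈ Metric.sphere (0 : Pt) 1, v ≠ 0 := fun v hv e => by simp [e] at hv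
  have hFc : ContinuousOn F (K ×ˢ Metric.sphere 0 1) := by
    have c1 : ∀ i j, Continuous (h i j) := fun i j => (hh i j).1.continuous
    refine ContinuousOn.div (Continuous.continuousOn ?_) (Continuous.continuousOn ?_)
      fun z hz => (hp _ _ (hne _ hz.2)).ne'
    · unfold qf
      fun_prop
    · unfold qf
      fun_prop
  have hnorm : ∀ y v, v ≠ 0 → ‖v‖⁻¹ • v ∈ Metric.sphere (0 : Pt) 1 ∧
      F (y, ‖v‖⁻¹ • v) = F (y, v) := fun y v hv => by
    have hn : ‖v‖ ≠ 0 := norm_ne_zero_iff.2 hv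
    refine ⟨by simp [norm_smul, hn], ?_⟩
    simp only [F, qf_smul, abs_mul, abs_sq]
    exact mul_div_mul_left _ _ (by positivity)
  have hv1 : v₁ ≠ 0 := fun e => by simp [e, qf_zero] at h1
  have hy1 : y₁ ∈ K := by
    by_contra e
    rw [hz _ e, abs_zero] at h1
    exact (mul_nonneg hM (hk0 _ _)).not_gt h1
  obtain ⟨⟨y₀, v₀⟩, hz0, hmax⟩ := (hK.prod (isCompact_sphere (0 : Pt) 1)).exists_isMaxOn
    ⟨(y₁, ‖v₁‖⁻¹ • v₁), hy1, (hnorm y₁ v₁ hv1).1⟩ hFc
  have hle : ∀ y ∈ K, ∀ v, v ≠ 0 → F (y, v) ≤ F (y₀, v₀) := fun y hy v hv => by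
    rw [← (hnorm y v hv).2]
    exact hmax (⟨hy, (hnorm y v hv).1⟩ : (y, ‖v‖⁻¹ • v) ∈ K ×ˢ Metric.sphere 0 1)
  have hlt : M < F (y₀, v₀) := ((lt_div_iff₀ (hp _ _ hv1)).2 h1).trans_le (hle y₁ hy1 v₁ hv1)
  refine ⟨F (y₀, v₀), y₀, v₀, hlt, hne _ hz0.2,
    (div_mul_cancel₀ _ (hp _ _ (hne _ hz0.2)).ne').symm, fun y v => ?_⟩
  by_cases hy : y ∈ K
  · by_cases hv : v = 0
    · simp [hv, qf_zero]
    · exact (div_le_iff₀ (hp _ _ hv)).1 (hle y hy v hv)
  · rw [hz _ hy, abs_zero]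
    exact mul_nonneg (hM.trans hlt.le) (hk0 _ _)

theorem nsq_pos {v : Pt} (hv : v ≠ 0) : 0 < nsq v := by
  obtain ⟨i, hi⟩ := Function.ne_iff.1 hv
  exact Finset.sum_pos' (fun _ _ => sq_nonneg _) ⟨i, Finset.mem_univ i, sq_pos_of_ne_zero hi⟩

end Mp

open Mp in
theorem mp (_b1 : B1Stmt) (_l0 : L0Facts) (t5 : T5Stmt) : MpStmt := by
  intro g V hg hV
  refine ⟨fun u y hu hm => scalar hg V hu hm, ?_⟩
  intro k b hk hks hp hb hbar lam M h hlam hM hh hhs hL y₁ v₁
  by_contra h1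
  obtain ⟨t, y₀, v₀, hMt, hv₀, he, hle⟩ :=
    attain (fun i j => (hk i j).continuous) hp hh hM (not_le.1 h1)
  have ht : 0 < t := hM.trans_lt hMt
  obtain ⟨s, hs1, hs⟩ : ∃ s : ℝ, |s| = 1 ∧
      s * qf (fun i j => h i j y₀) v₀ = -|qf (fun i j => h i j y₀) v₀| := by
    rcases le_total 0 (qf (fun i j => h i j y₀) v₀) with e | e
    · exact ⟨-1, by simp, by rw [abs_of_nonneg e]; ring⟩
    · exact ⟨1, by simp, by rw [abs_of_nonpos e]; ring⟩
  have habs : ∀ x : ℝ, |s * x| = |x| := fun x => by rw [abs_mul, hs1, one_mul]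
  have hq : ∀ y u, qf (fun i j => (t • k i j + s • h i j) y) u =
      t * qf (fun i j => k i j y) u + s * qf (fun i j => h i j y) u := fun y u =>
    qf_lin (fun i j => k i j y) (fun i j => h i j y) t s u
  have hb2 : ∀ y u, -(t * qf (fun i j => k i j y) u) ≤ s * qf (fun i j => h i j y) u ∧
      s * qf (fun i j => h i j y) u ≤ t * qf (fun i j => k i j y) u := fun y u =>
    abs_le.1 ((habs _).trans_le (hle y u))
  have key := touch hg t5 hV (T := fun i j => t • k i j + s • h i j)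
    (fun i j => ((hk i j).const_smul t).add ((hh i j).1.const_smul s))
    (fun i j => by rw [hks i j, hhs i j])
    (fun y u => by rw [hq]; linarith [(hb2 y u).1]) (y₀ := y₀) (v₀ := v₀)
    (by rw [hq, hs, he]; ring)
  have e1 : qf (fun i j => LF g V (fun i j => t • k i j + s • h i j) i j y₀) v₀ =
      t * qf (fun i j => LF g V k i j y₀) v₀ + s * qf (fun i j => LF g V h i j y₀) v₀ := by
    simp only [LF_lin hg hV hk fun i j => (hh i j).1]
    exact qf_lin _ _ t s v₀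
  have hT : ∀ u, qf (fun i j => 1 * k i j y₀ + s / t * h i j y₀) u =
      t⁻¹ * (t * qf (fun i j => k i j y₀) u + s * qf (fun i j => h i j y₀) u) := fun u => by
    rw [qf_lin (fun i j => k i j y₀) (fun i j => h i j y₀)]
    field_simp
  have bar := hbar y₀ (fun i j => 1 * k i j y₀ + s / t * h i j y₀)
    (fun i j => by rw [hks i j, hhs i j]) (fun u => by
      rw [hT]
      refine ⟨mul_nonneg (inv_pos.2 ht).le (by linarith [(hb2 y₀ u).1]), ?_⟩
      rw [inv_mul_le_iff₀ ht]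
      linarith [(hb2 y₀ u).2]) v₀
  have e2 : ∀ G Rl, qf (gRmT G Rl fun i j => (t • k i j + s • h i j) y₀) v₀ =
      t * qf (gRmT G Rl fun i j => 1 * k i j y₀ + s / t * h i j y₀) v₀ := fun G Rl => by
    have a1 : (gRmT G Rl fun i j => (t • k i j + s • h i j) y₀) = fun a b =>
        t * gRmT G Rl (fun i j => k i j y₀) a b + s * gRmT G Rl (fun i j => h i j y₀) a b :=
      funext₂ fun a b => rm_lin G (fun i j => k i j y₀) (fun i j => h i j y₀) t s Rl a b
    have a2 : (gRmT G Rl fun i j => 1 * k i j y₀ + s / t * h i j y₀) = fun a b =>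
        1 * gRmT G Rl (fun i j => k i j y₀) a b + s / t * gRmT G Rl (fun i j => h i j y₀) a b :=
      funext₂ fun a b => rm_lin G (fun i j => k i j y₀) (fun i j => h i j y₀) 1 (s / t) Rl a b
    rw [a1, a2, qf_lin, qf_lin]
    field_simp
  rw [e1, e2] at key
  have e3 : qf (fun i j => LF g V h i j y₀ - lam * h i j y₀) v₀ =
      qf (fun i j => LF g V h i j y₀) v₀ - lam * qf (fun i j => h i j y₀) v₀ := by
    have := qf_lin (fun i j => LF g V h i j y₀) (fun i j => h i j y₀) 1 (-lam) v₀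
    simpa [sub_eq_add_neg] using this
  have h3 := (abs_le.1 ((habs _).trans_le (hL y₀ v₀))).2
  rw [e3] at h3
  have h4 : 0 ≤ lam * |qf (fun i j => h i j y₀) v₀| := mul_nonneg hlam (abs_nonneg _)
  have h5 : 0 < (t - M) * (b y₀ * nsq v₀) :=
    mul_pos (sub_pos.2 hMt) (mul_pos (hb y₀) (nsq_pos hv₀))
  have h6 := mul_le_mul_of_nonneg_left bar ht.le
  have h7 : lam * (s * qf (fun i j => h i j y₀) v₀) = -(lam * |qf (fun i j => h i j y₀) v₀|) := by
    rw [hs]; ring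
  nlinarith

end Pool.Agent.Lib.MP_df9110_gt
end

-- part Pool.Agent.Lib.MP_df9110_gt.Mph
section

/-! The maximum principle estimate for the perturbed approximate solution. -/

namespace Pool.Agent.Lib.MP_df9110_gt

open Filter Topology MeasureTheory
open scoped ContDiff

namespace Mph

section Grd

variable {R : Type} [CommRing R] [Algebra ℝ R] {ι : Type} {θ : ℝ}
  {D : ι → R → R} {P : ℕ → ℕ → ℝ → R → Prop} (hP : Grd θ D P)
include hP

theorem gsub {d j m a b} (h : P d j m a) (h' : P d j m b) : P d j m (a - b) := by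
  rw [sub_eq_add_neg, ← neg_one_smul ℝ b]
  exact hP.add h (hP.smul _ h')

theorem gsum {d j m} {κ : Type} (s : Finset κ) {f : κ → R} (h : ∀ k, P d j m (f k)) :
    P d j m (∑ k ∈ s, f k) := by
  classical
  induction s using Finset.induction_on with
  | empty => simpa using hP.zero d j m
  | insert a s ha ih => rw [Finset.sum_insert ha]; exact hP.add (h a) ih

end Grd

theorem nsq_nonneg (v : Pt) : 0 ≤ nsq v := Finset.sum_nonneg fun _ _ => sq_nonneg _

theorem nsq_pos {v : Pt} (hv : v ≠ 0) : 0 < nsq v := by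
  obtain ⟨a, ha⟩ := Function.ne_iff.1 hv
  exact Finset.sum_pos' (fun _ _ => sq_nonneg _) ⟨a, Finset.mem_univ _, by
    have : v a ≠ 0 := ha
    positivity⟩

theorem qf_abs_le {h : Fin 4 → Fin 4 → ℝ} {A : ℝ} (hA : ∀ a b, |h a b| ≤ A) (v : Pt) :
    |qf h v| ≤ 4 * A * nsq v := by
  have h0 : 0 ≤ A := (abs_nonneg _).trans (hA 0 0)
  have h1 : ∀ a b, |h a b * (v a * v b)| ≤ A * ((v a ^ 2 + v b ^ 2) / 2) := by
    intro a b
    rw [abs_mul]
    refine mul_le_mul (hA a b) (abs_le.2 ⟨?_, ?_⟩) (abs_nonneg _) h0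
    · nlinarith [sq_nonneg (v a + v b)]
    · nlinarith [sq_nonneg (v a - v b)]
  refine (Finset.abs_sum_le_sum_abs _ _).trans ?_
  refine (Finset.sum_le_sum fun a _ => (Finset.abs_sum_le_sum_abs _ _).trans
    (Finset.sum_le_sum fun b _ => h1 a b)).trans (le_of_eq ?_)
  simp only [nsq, Fin.sum_univ_four]
  ring

theorem polar {h : Fin 4 → Fin 4 → ℝ} (hs : ∀ a b, h a b = h b a) {A : ℝ} (h0 : 0 ≤ A)
    (hA : ∀ v, |qf h v| ≤ A * nsq v) (a b : Fin 4) : |h a b| ≤ 2 * A := by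
  have e : qf h (Pi.single a 1 + Pi.single b 1) - qf h (Pi.single a 1 - Pi.single b 1) =
      2 * (h a b + h b a) := by
    fin_cases a <;> fin_cases b <;> simp [qf, Fin.sum_univ_four] <;> ring
  have n1 : nsq (Pi.single a 1 + Pi.single b 1) ≤ 4 := by
    fin_cases a <;> fin_cases b <;> simp [nsq, Fin.sum_univ_four] <;> norm_num
  have n2 : nsq (Pi.single a 1 - Pi.single b 1) ≤ 4 := by
    fin_cases a <;> fin_cases b <;> simp [nsq, Fin.sum_univ_four] <;> norm_num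
  have b1 := abs_le.1 ((hA _).trans (mul_le_mul_of_nonneg_left n1 h0))
  have b2 := abs_le.1 ((hA _).trans (mul_le_mul_of_nonneg_left n2 h0))
  rw [← hs a b] at e
  exact abs_le.2 ⟨by linarith [b1.1, b2.2], by linarith [b1.2, b2.1]⟩

theorem qf_add (h k : Fin 4 → Fin 4 → ℝ) (v : Pt) :
    qf (fun a b => h a b + k a b) v = qf h v + qf k v := by
  simp only [qf, add_mul, Finset.sum_add_distrib]

theorem qf_mul (c : ℝ) (h : Fin 4 → Fin 4 → ℝ) (v : Pt) :
    qf (fun a b => c * h a b) v = c * qf h v := by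
  simp only [qf, mul_assoc, Finset.mul_sum]

/-- The coefficients of `gRmT`. -/
noncomputable def coef {R : Type} [CommRing R] (G : Fin 4 → Fin 4 → R)
    (Rl : Fin 4 → Fin 4 → Fin 4 → Fin 4 → R) (a b i j : Fin 4) : R :=
  ∑ c, ∑ d, Rl c a b d * (G c i * G d j)

theorem rmT_eq (G : Fin 4 → Fin 4 → ℝ) (Rl : Fin 4 → Fin 4 → Fin 4 → Fin 4 → ℝ)
    (T : Fin 4 → Fin 4 → ℝ) (a b : Fin 4) :
    gRmT G Rl T a b = ∑ i, ∑ j, coef G Rl a b i j * T i j := by
  simp only [gRmT, coef, Fin.sum_univ_four]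
  ring

theorem rmT_sub {G G' : Fin 4 → Fin 4 → ℝ} {Rl Rl' : Fin 4 → Fin 4 → Fin 4 → Fin 4 → ℝ}
    {T : Fin 4 → Fin 4 → ℝ} {ε τ : ℝ}
    (h1 : ∀ a b i j, |coef G' Rl' a b i j - coef G Rl a b i j| ≤ ε) (h2 : ∀ i j, |T i j| ≤ τ)
    (v : Pt) : qf (gRmT G Rl T) v ≤ qf (gRmT G' Rl' T) v + 64 * ε * τ * nsq v := by
  have h0 : 0 ≤ ε := (abs_nonneg _).trans (h1 0 0 0 0)
  have h3 : ∀ a b, |gRmT G' Rl' T a b + -1 * gRmT G Rl T a b| ≤ 16 * (ε * τ) := by
    intro a b
    have e : gRmT G' Rl' T a b + -1 * gRmT G Rl T a b =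
        ∑ i, ∑ j, (coef G' Rl' a b i j - coef G Rl a b i j) * T i j := by
      simp only [rmT_eq, sub_mul, Finset.sum_sub_distrib]
      ring
    rw [e]
    refine (Finset.abs_sum_le_sum_abs _ _).trans ?_
    refine (Finset.sum_le_sum fun i _ => (Finset.abs_sum_le_sum_abs _ _).trans
      (Finset.sum_le_sum (g := fun _ => ε * τ) fun j _ => ?_)).trans (le_of_eq ?_)
    · rw [abs_mul]
      exact mul_le_mul (h1 a b i j) (h2 i j) (abs_nonneg _) h0
    · simp only [Fin.sum_univ_four]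
      ring
  have h4 := abs_le.1 (qf_abs_le h3 v)
  rw [qf_add, qf_mul] at h4
  linarith [h4.1]

/-! Identities for smooth metrics. -/

structure SmM (g : Pt → Mat) : Prop where
  cg : ∀ a b, ContDiff ℝ ∞ (gf g a b)
  cG : ∀ a b, ContDiff ℝ ∞ (Gf g a b)
  met : IsMetricOn g Set.univ

def gSm {g : Pt → Mat} (h : SmM g) (a b : Fin 4) : Sm 4 := ⟨gf g a b, h.cg a b⟩

noncomputable def GSm {g : Pt → Mat} (h : SmM g) (a b : Fin 4) : Sm 4 := ⟨Gf g a b, h.cG a b⟩

def ySm (j : Fin 4) : Sm 4 := ⟨fun y => y j, (contDiff_apply ℝ ℝ j : ContDiff ℝ ∞ fun y : Pt => y j)⟩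

theorem isMet {g : Pt → Mat} (h : SmM g) : IsMet (gSm h) (GSm h) where
  gs i j := Subtype.ext (funext fun y => by
    have e : g y i j = g y j i := by simpa using (h.met.2 y trivial).isHermitian.apply j i
    exact e)
  Gs i j := Subtype.ext (funext fun y => by
    have e : (g y)⁻¹ i j = (g y)⁻¹ j i := by
      simpa using (h.met.2 y trivial).inv.isHermitian.apply j i
    exact e)
  inv i j := Subtype.ext (funext fun y => by
    have e := congrFun (congrFun (Matrix.nonsing_inv_mul (g y)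
      (Ne.isUnit (h.met.2 y trivial).det_pos.ne')) i) j
    rw [Matrix.mul_apply, Matrix.one_apply] at e
    have e1 : (∑ k, GSm h i k * gSm h k j : Sm 4).1 y = ∑ k, (g y)⁻¹ i k * g y k j := by
      simp only [Fin.sum_univ_four]
      rfl
    rw [e1, e]
    split_ifs <;> rfl)

theorem der_y (i j : Fin 4) : smD i (ySm j) = if i = j then 1 else 0 :=
  Subtype.ext (funext fun y => by
    have e : (smD i (ySm j)).1 y = (Pi.single i 1 : Pt) j := by
      change fderiv ℝ (fun y : Pt => y j) y (Pi.single i 1) = _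
      rw [(hasFDerivAt_apply j y).fderiv]
      rfl
    rw [e, Pi.single_apply]
    by_cases hij : i = j
    · rw [if_pos hij, if_pos hij.symm]
      rfl
    · rw [if_neg hij, if_neg fun h => hij h.symm]
      rfl)

theorem rad_eq (f : Pt → ℝ) : rad f = ∑ c, (fun y : Pt => y c) * pd c f := by
  funext y
  simp [rad]

theorem hv (i : Fin 4) (a : Sm 4) : (Sm 4).val (smD i a) = pd i ((Sm 4).val a) := rfl

section Ident

variable {g : Pt → Mat} (h : SmM g) {U : Fin 4 → Pt → ℝ} (hU : ∀ k, ContDiff ℝ ∞ (U k))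
include h

theorem ric_symm (t1 : T1Stmt) (a b : Fin 4) : ricF g a b = ricF g b a := by
  have e := congrArg (Sm 4).val ((t1 _ _ smD _ _ isDer_smD (isMet h)).ric_symm a b)
  simp only [map_gRic (Sm 4).val hv, map_gChr (Sm 4).val hv] at e
  exact e

include hU

theorem err_symm (t3 : T3Stmt) (a b : Fin 4) : errF g (Vf U) a b = errF g (Vf U) b a := by
  have e := congrArg (Sm 4).val ((t3 _ _ smD _ _ isDer_smD (isMet h)).symm_err
    (fun k => (-1 / 2 : ℝ) • ySm k + ⟨U k, hU k⟩) a b)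
  simp only [map_gErr (Sm 4).val hv, map_gChr (Sm 4).val hv] at e
  exact e

theorem err_split (t3 : T3Stmt) (a b : Fin 4) : errF g (Vf U) a b =
    ricF g a b + (1 / 2 : ℝ) • gLie pd U (gf g) a b - (1 / 4 : ℝ) • rad (gf g a b) := by
  have e := congrArg (Sm 4).val (((t3 _ _ smD _ _ isDer_smD (isMet h)).split ySm
    (fun k => ⟨U k, hU k⟩) der_y).2 a b)
  simp only [map_gErr (Sm 4).val hv, map_gChr (Sm 4).val hv, map_gRic (Sm 4).val hv,
    map_gLie (Sm 4).val hv, map_sub, map_add, map_smul, map_sum, map_mul, hv] at e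
  rw [rad_eq]
  exact e

theorem L_split (t3 : T3Stmt) {k : Fin 4 → Fin 4 → Pt → ℝ} (hk : ∀ a b, ContDiff ℝ ∞ (k a b))
    (a b : Fin 4) : LF g (Vf U) k a b =
    ∑ e, ∑ c, Gf g e c * pd e (pd c (k a b)) + (1 / 2 : ℝ) • rad (k a b) +
      gLow pd (Gf g) (chrF g) (rlF g) (ricF g) U k a b := by
  have e := congrArg (Sm 4).val (((t3 _ _ smD _ _ isDer_smD (isMet h)).split ySm
    (fun k => ⟨U k, hU k⟩) der_y).1 (fun a b => ⟨k a b, hk a b⟩) a b)
  simp only [map_gL (Sm 4).val hv, map_gChr (Sm 4).val hv, map_gRic (Sm 4).val hv,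
    map_gRlow (Sm 4).val hv, map_gLow (Sm 4).val hv, map_add, map_smul, map_sum, map_mul, hv] at e
  rw [rad_eq]
  exact e

theorem L_bar (t4 : T4Stmt) {φ : Pt → ℝ} (hφ : ContDiff ℝ ∞ φ) (β : ℝ) (a b : Fin 4) (y : Pt) :
    LF g (Vf U) (fun i j => φ * gf g i j + β • ricF g i j) a b y =
      (2 * φ y - β) * ricF g a b y + lapF g (Vf U) φ y * g y a b -
        (2 * (φ y * errF g (Vf U) a b y) +
          2 * (β * gDRic pd (Gf g) (chrF g) (errF g (Vf U)) a b y)) := by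
  have e := congrArg (Sm 4).val ((t4 _ _ smD _ _ isDer_smD (isMet h)).bar
    (fun k => (-1 / 2 : ℝ) • ySm k + ⟨U k, hU k⟩) ⟨φ, hφ⟩ β a b)
  simp only [map_gL (Sm 4).val hv, map_gChr (Sm 4).val hv, map_gRic (Sm 4).val hv,
    map_gErr (Sm 4).val hv, map_gLapV (Sm 4).val hv, map_gDRic (Sm 4).val hv, map_add, map_sub,
    map_smul, map_mul, AlgHom.commutes, map_ofNat] at e
  have e2 : LF g (Vf U) (fun i j => φ * gf g i j + β • ricF g i j) a b y =
      (2 * φ y - β) * ricF g a b y + lapF g (Vf U) φ y * g y a b -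
        2 * φ y * errF g (Vf U) a b y -
          (2 * β) * gDRic pd (Gf g) (chrF g) (errF g (Vf U)) a b y := congrFun e y
  rw [e2]
  ring

end Ident

theorem grd_cc (l0 : L0Facts) :
    Grd 1 pd fun d _ _ f => if d = 0 then ContDiff ℝ ∞ f else CC f where
  zero d _ _ := by
    split_ifs
    · exact contDiff_const
    · exact ⟨contDiff_const, HasCompactSupport.zero⟩
  one := by
    rw [if_pos rfl]
    exact contDiff_const
  add {d _ _ a b} h h' := by
    split_ifs at h h' ⊢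
    · exact h.add h'
    · exact l0.cc_add h h'
  smul {d _ _ a} c h := by
    split_ifs at h ⊢
    · exact h.const_smul c
    · exact l0.cc_mul (f := fun _ => c) contDiff_const h
  mono h _ _ _ := h
  mul {d _ _ _ a b} h h' := by
    rw [if_pos rfl] at h
    split_ifs at h' ⊢
    · exact h.mul h'
    · exact l0.cc_mul h h'
  der {d _ _ a} i h _ := by
    split_ifs at h ⊢
    · exact contDiff_pdn h i
    · exact l0.cc_pd h i

theorem LV_eq (a : Fin 4 → Fin 4 → Pt → ℝ) (lam : ℝ) (u : Pt → ℝ) :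
    Lsc a lam u = ∑ e, ∑ c, a e c * pd e (pd c u) + (1 / 2 : ℝ) • rad u - lam • u := by
  funext y
  simp [Lsc, rad]

theorem cc_LV (l0 : L0Facts) (t9 : T9Stmt) {g : Pt → Mat} (h : SmM g) {U : Fin 4 → Pt → ℝ}
    (hU : ∀ k, ContDiff ℝ ∞ (U k)) (lam : ℝ) {u : Fin 4 × Fin 4 → Pt → ℝ} (hu : ∀ α, CC (u α))
    (α : Fin 4 × Fin 4) : CC (LV (Gf g) (lowB g U) lam u α) := by
  have hP := grd_cc l0
  have F := t9.1 _ _ _ _ hP
  obtain ⟨c1, c2, c3, -⟩ := F.chr (gf g) (Gf g) h.cg h.cG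
  have h1 : CC (lowB g U u α) :=
    F.low (Gf g) (chrF g) (rlF g) (ricF g) U (fun a b => u (a, b)) 1 0 h.cG c1 c2 c3 hU
      (fun a b => hu (a, b)) α.1 α.2
  refine l0.cc_add ?_ h1
  rw [LV_eq, rad_eq]
  refine gsub hP (d := 1) (j := 0) (m := 0) (hP.add (d := 1) (j := 0) (m := 0) ?_ ?_)
    (hP.smul (d := 1) (j := 0) (m := 0) lam (hu α))
  · exact gsum hP (d := 1) (j := 0) (m := 0) _ fun e => gsum hP (d := 1) (j := 0) (m := 0) _
      fun c => l0.cc_mul (h.cG e c) (l0.cc_pd (l0.cc_pd (hu α) c) e)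
  · exact hP.smul (d := 1) (j := 0) (m := 0) _ (gsum hP (d := 1) (j := 0) (m := 0) _
      fun c => l0.cc_mul (contDiff_apply ℝ ℝ c) (l0.cc_pd (hu α) c))

theorem LF_LV (t3 : T3Stmt) {g : Pt → Mat} (h : SmM g) {U : Fin 4 → Pt → ℝ}
    (hU : ∀ k, ContDiff ℝ ∞ (U k)) (lam : ℝ) {u : Fin 4 × Fin 4 → Pt → ℝ} (hu : ∀ α, CC (u α))
    (a b : Fin 4) (y : Pt) : LF g (Vf U) (fun a b => u (a, b)) a b y - lam * u (a, b) y =
      LV (Gf g) (lowB g U) lam u (a, b) y := by
  rw [L_split h hU t3 (fun a b => (hu (a, b)).1), LV, LV_eq]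
  simp only [lowB, Pi.add_apply, Pi.sub_apply, Pi.smul_apply, smul_eq_mul]
  ring

theorem Yn_le (l0 : L0Facts) (δ : ℝ) (F : Fin 4 × Fin 4 → Pt → ℝ) (α : Fin 4 × Fin 4) :
    Yn 4 4 δ (F α) ≤ NV 12 δ F := by
  have h1 : Yn 4 4 δ (F α) ≤ Yn 12 12 δ (F α) := by
    have e : Yn 4 4 δ (F α) = ∑ k ∈ Finset.range 5, nn k (δ - 2 + (min k 12 : ℕ)) (F α) := by
      refine Finset.sum_congr rfl fun k hk => ?_
      have := Finset.mem_range.1 hk
      rw [min_eq_left (by omega), min_eq_left (by omega)]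
    rw [e]
    exact Finset.sum_le_sum_of_subset_of_nonneg (Finset.range_mono (by norm_num))
      fun k _ _ => l0.nn_nonneg _ _ _
  exact h1.trans (Finset.single_le_sum (f := fun α => Yn 12 12 δ (F α))
    (fun β _ => Finset.sum_nonneg fun k _ => l0.nn_nonneg _ _ _) (Finset.mem_univ α))

theorem core (l0 : L0Facts) (sob : SobStmt) (t1 : T1Stmt) (t3 : T3Stmt) (t9 : T9Stmt)
    (mp : MpStmt) : ∃ p : ℕ, ∀ (K : ℝ) (g g' : Pt → Mat) (U : Fin 4 → Pt → ℝ) (φ L : Pt → ℝ)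
    (β : ℝ) (k W : Fin 4 → Fin 4 → Pt → ℝ), 2 ≤ K → SmM g → SmM g' →
    (∀ k, ContDiff ℝ ∞ (U k)) → (∀ a b, ContDiff ℝ ∞ (k a b)) →
    (∀ a b y, k a b y = φ y * g y a b + β * ricF g a b y) →
    (∀ y ξ, K⁻¹ * nsq ξ ≤ qf (g y) ξ) →
    (∀ y, BarOK (g y) (fun a b => Gf g a b y) (fun a b => ricF g a b y)
      (fun a b c d => rlF g a b c d y) (φ y) β (L y) (K⁻¹ * wt (-1 / 2) y)) →
    (∀ a b y, |k a b y| ≤ K * wt (-1 / 2) y) →
    (∀ a b y, LF g' (Vf U) k a b y = (2 * φ y - β) * ricF g a b y + L y * g y a b + W a b y) →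
    (∀ a b y, |W a b y| ≤ (K ^ 16)⁻¹ * wt (-1 / 2) y) →
    (∀ a b i j y, |coef (Gf g') (rlF g') a b i j y - coef (Gf g) (rlF g) a b i j y| ≤ (K ^ 16)⁻¹) →
    MPH Prod.swap (1 / 2) (K ^ p) 0 (Gf g') (lowB g' U) := by
  obtain ⟨Cs, hCs, hs⟩ := sob (1 / 2) 0
  obtain ⟨Cn, hn⟩ := l0.nn_sym 0 (1 / 2 - 3) (-1 / 2) (by norm_num)
  obtain ⟨p, hp⟩ := l0.absorb (1024 * Cn * Cs) 3
  refine ⟨p, fun K g g' U φ L β k W hK hg hg' hU hk ek ha hb hc hd hW he lam hlam u hu => ?_⟩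
  have hK0 : 0 < K := by linarith
  have hw : ∀ y, 0 < wt (-1 / 2) y := l0.wt_pos _
  have hV : ∀ k, ContDiff ℝ ∞ (Vf U k) := fun k =>
    ((contDiff_apply ℝ ℝ k : ContDiff ℝ ∞ fun y : Pt => y k).const_smul (-1 / 2 : ℝ)).add (hU k)
  have hks : ∀ a b, k a b = k b a := fun a b => funext fun y => by
    have e : g y a b = g y b a := by simpa using (hg.met.2 y trivial).isHermitian.apply b a
    rw [ek, ek, e, ric_symm hg t1 a b]
  have hqk : ∀ y v, qf (fun a b => k a b y) v =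
      φ y * qf (g y) v + β * qf (fun a b => ricF g a b y) v := fun y v => by
    simp only [ek]
    rw [qf_add, qf_mul, qf_mul]
  have hku : ∀ y v, qf (fun a b => k a b y) v ≤ 4 * (K * wt (-1 / 2) y) * nsq v := fun y v =>
    (le_abs_self _).trans (qf_abs_le (fun a b => hc a b y) v)
  set N := NV 12 (1 / 2) (LV (Gf g') (lowB g' U) lam u) with hN
  have hN0 : 0 ≤ N := Finset.sum_nonneg fun _ _ => Finset.sum_nonneg fun k _ => l0.nn_nonneg _ _ _
  have hF : ∀ α y, |LV (Gf g') (lowB g' U) lam u α y| ≤ Cs * N * wt (-1 / 2) y := by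
    intro α y
    have h1 : |LV (Gf g') (lowB g' U) lam u α y| ≤
        Cs * Yn 4 4 (1 / 2) (LV (Gf g') (lowB g' U) lam u α) * wt (-(1 / 2)) y :=
      hs _ (cc_LV l0 t9 hg' hU lam hu.1 α) y trivial
    rw [← neg_div] at h1
    exact h1.trans (mul_le_mul_of_nonneg_right (mul_le_mul_of_nonneg_left (Yn_le l0 _ _ α) hCs)
      (hw y).le)
  have key := (mp g' (Vf U) hg'.met hV).2 k (fun y => (2 * K ^ 2)⁻¹ * wt (-1 / 2) y) hk hks
    (fun y v hv0 => ?_) (fun y => mul_pos (by positivity) (hw y)) (fun y T hT hT2 v => ?_)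
    lam (8 * K ^ 2 * Cs * N) (fun a b => u (a, b)) hlam (by positivity) (fun a b => hu.1 _)
    (fun a b => (hu.2 (b, a))) (fun y v => ?_)
  · have h1 : ∀ α, Sym (-1 / 2) 0 (u α) (64 * Cs * K ^ 3 * N) := by
      intro α y _
      have h2 := polar (h := fun a b => u (a, b) y) (fun a b => congrFun (hu.2 (b, a)) y)
        (A := 8 * K ^ 2 * Cs * N * (4 * (K * wt (-1 / 2) y))) (by have := hw y; positivity)
        (fun v => (key y v).trans (by
          rw [mul_assoc (8 * K ^ 2 * Cs * N)]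
          exact mul_le_mul_of_nonneg_left (hku y v) (by positivity))) α.1 α.2
      exact h2.trans (le_of_eq (by ring))
    calc nV 0 (1 / 2 - 3) u ≤ ∑ _α : Fin 4 × Fin 4, Cn * (64 * Cs * K ^ 3 * N) :=
          Finset.sum_le_sum fun α _ => hn _ _ (hu.1 α) (h1 α)
      _ = 1024 * Cn * Cs * K ^ 3 * N := by
          simp only [Finset.sum_const, Finset.card_univ, Fintype.card_prod, Fintype.card_fin,
            nsmul_eq_mul]
          push_cast
          ring
      _ ≤ K ^ p * N := mul_le_mul_of_nonneg_right (hp K hK) hN0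
  · rw [hqk]
    refine lt_of_lt_of_le ?_ ((hb y).1 v)
    exact mul_pos (mul_pos (by positivity) (hw y))
      (lt_of_lt_of_le (mul_pos (by positivity) (nsq_pos hv0)) (ha y v))
  · have h1 := (hb y).2 T hT (fun w => by rw [← hqk]; exact hT2 w) v
    have hTb : ∀ i j, |T i j| ≤ 2 * (8 * (K * wt (-1 / 2) y)) := polar hT
      (by have := hw y; positivity) fun w => by
        rw [abs_of_nonneg (hT2 w).1]
        linarith [(hT2 w).2, hku y w]
    have h2 := rmT_sub (G := fun i j => Gf g i j y) (G' := fun i j => Gf g' i j y)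
      (Rl := fun i j p q => rlF g i j p q y) (Rl' := fun i j p q => rlF g' i j p q y)
      (ε := (K ^ 16)⁻¹) (fun a b i j => by
        have := he a b i j y
        simp only [coef, Finset.sum_apply, Pi.mul_apply] at this ⊢
        exact this) hTb v
    have h3 : qf (fun a b => LF g' (Vf U) k a b y) v = (2 * φ y - β) *
        qf (fun a b => ricF g a b y) v + L y * qf (g y) v + qf (fun a b => W a b y) v := by
      simp only [hd]
      rw [qf_add, qf_add, qf_mul, qf_mul]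
    have h4 := (le_abs_self _).trans (qf_abs_le (fun a b => hW a b y) v)
    have h5 := mul_le_mul_of_nonneg_left (ha y v) (mul_pos (inv_pos.2 hK0) (hw y)).le
    have h6 : (4 + 2048 * K) * (K ^ 16)⁻¹ ≤ (2 * K ^ 2)⁻¹ := by
      rw [← div_eq_mul_inv, ← one_div, div_le_div_iff₀ (by positivity) (by positivity)]
      have a1 : (2 : ℝ) ^ 13 ≤ K ^ 13 := pow_le_pow_left₀ (by norm_num) hK 13
      have a2 : K ^ 16 = K ^ 13 * K ^ 3 := by ring
      have a3 : 0 < K ^ 2 := by positivity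
      have a4 : 2 ^ 13 * K ^ 3 ≤ K ^ 13 * K ^ 3 :=
        mul_le_mul_of_nonneg_right a1 (by positivity)
      have a5 : K ^ 3 = K ^ 2 * K := by ring
      nlinarith
    have h7 := mul_le_mul_of_nonneg_right h6 (mul_nonneg (hw y).le (nsq_nonneg v))
    have h8 : K⁻¹ * wt (-1 / 2) y * (K⁻¹ * nsq v) =
        2 * ((2 * K ^ 2)⁻¹ * (wt (-1 / 2) y * nsq v)) := by
      field_simp
    rw [h3]
    nlinarith
  · have h1 := qf_abs_le (fun a b => by
      rw [LF_LV t3 hg' hU lam hu.1 a b y]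
      exact hF (a, b) y : ∀ a b, |LF g' (Vf U) (fun a b => u (a, b)) a b y - lam * u (a, b) y| ≤
        Cs * N * wt (-1 / 2) y) v
    refine h1.trans (le_of_eq ?_)
    field_simp
    ring

theorem sym_cut (b1 : B1Stmt) (l0 : L0Facts) {k : ℕ} {f : Pt → ℝ} {C : ℝ} (h : Sym 0 k f C)
    (h0 : ∀ y, 4 ≤ nsq y → f y = 0) : Sym (-2) k f (5 * C) := by
  intro y hy
  have hC : 0 ≤ C := by
    have := (abs_nonneg _).trans ((b1 4).nonneg (h y hy))
    rwa [l0.wt_zero, mul_one] at this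
  have hr := (l0.wt_pos (-1) y).le
  have hw := l0.wt_pos (-2) y
  rcases le_or_gt (nsq y) 4 with h1 | h1
  · refine (b1 4).mono (h y hy) hr le_rfl ?_
    have e := l0.wt_add (-2) 2 y
    rw [l0.wt_two, neg_add_cancel, l0.wt_zero] at e
    rw [l0.wt_zero]
    have h2 : 1 ≤ 5 * wt (-2) y := by nlinarith
    nlinarith
  · have hc : Continuous nsq := by
      unfold nsq
      fun_prop
    have hev : (fun _ => (0 : ℝ)) =ᶠ[𝓝 y] f := by
      filter_upwards [hc.continuousAt.eventually (lt_mem_nhds h1)] with z hz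
      exact (h0 z hz.le).symm
    refine (b1 4).mono ((b1 4).congr ((b1 4).const k 0 y hr) hev) hr le_rfl ?_
    rw [abs_zero]
    positivity

theorem barOK_mono {g G Rc : Fin 4 → Fin 4 → ℝ} {Rl : Fin 4 → Fin 4 → Fin 4 → Fin 4 → ℝ}
    {φ β L c c' : ℝ} (h : BarOK g G Rc Rl φ β L c) (hc : c' ≤ c) (hg : ∀ v, 0 ≤ qf g v) :
    BarOK g G Rc Rl φ β L c' :=
  ⟨fun u => (mul_le_mul_of_nonneg_right hc (hg u)).trans (h.1 u), fun T h1 h2 v => by
    have := mul_le_mul_of_nonneg_right hc (hg v)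
    linarith [h.2 T h1 h2 v]⟩

section Family

variable {I : Type} {l : Filter I} {Λ : I → ℝ}

theorem mod_congr {m : ℝ} {F F' : I → Pt → ℝ} (h : Mod l Λ m F) (e : ∀ᶠ i in l, F i = F' i) :
    Mod l Λ m F' := by
  refine ⟨?_, fun k => ⟨?_, ?_⟩⟩
  · filter_upwards [h.1, e] with i h1 h2 using h2 ▸ h1
  · filter_upwards [(h.2 k).1, e] with i h1 h2 using h2 ▸ h1
  · obtain ⟨p, hp⟩ := (h.2 k).2
    exact ⟨p, by filter_upwards [hp, e] with i h1 h2 using h2 ▸ h1⟩

theorem neg_congr {m : ℝ} {F F' : I → Pt → ℝ} (h : Neg l Λ m F) (e : ∀ᶠ i in l, F i = F' i) :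
    Neg l Λ m F' := by
  refine ⟨?_, fun k => ⟨?_, fun p => ?_⟩⟩
  · filter_upwards [h.1, e] with i h1 h2 using h2 ▸ h1
  · filter_upwards [(h.2 k).1, e] with i h1 h2 using h2 ▸ h1
  · filter_upwards [(h.2 k).2 p, e] with i h1 h2 using h2 ▸ h1

theorem pow_mono (hΛ : ∀ i, 2 ≤ Λ i) (i : I) {p q : ℕ} (h : p ≤ q) : Λ i ^ p ≤ Λ i ^ q :=
  pow_le_pow_right₀ (by linarith [hΛ i]) h

theorem inv_mono (hΛ : ∀ i, 2 ≤ Λ i) (i : I) {p q : ℕ} (h : p ≤ q) :
    (Λ i ^ q)⁻¹ ≤ (Λ i ^ p)⁻¹ :=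
  inv_anti₀ (pow_pos (by linarith [hΛ i]) _) (pow_mono hΛ i h)

theorem eight_le (hΛ : ∀ i, 2 ≤ Λ i) (i : I) (p q : ℕ) :
    8 * Λ i ^ q * (Λ i ^ (p + q + 3))⁻¹ ≤ (Λ i ^ p)⁻¹ := by
  have h0 : 0 < Λ i := by linarith [hΛ i]
  have h1 : (2 : ℝ) ^ 3 ≤ Λ i ^ 3 := pow_le_pow_left₀ (by norm_num) (hΛ i) 3
  rw [← div_eq_mul_inv, ← one_div, div_le_div_iff₀ (by positivity) (by positivity), pow_add,
    pow_add]
  have h2 : 0 < Λ i ^ p * Λ i ^ q := by positivity
  nlinarith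

theorem mod_bd (l0 : L0Facts) (hΛ : ∀ i, 2 ≤ Λ i) {m : ℝ} {F : Fin 4 → Fin 4 → I → Pt → ℝ}
    (h : ∀ a b, Mod l Λ m (F a b)) :
    ∃ p : ℕ, ∀ᶠ i in l, ∀ a b y, |F a b i y| ≤ Λ i ^ p * wt m y := by
  choose p hp using fun a b => ((h a b).2 0).2
  refine ⟨∑ a, ∑ b, p a b, ?_⟩
  filter_upwards [eventually_all.2 fun a => eventually_all.2 fun b => hp a b] with i hi a b y
  have h1 : |F a b i y| ≤ Λ i ^ p a b * wt m y := hi a b y trivial
  refine h1.trans (mul_le_mul_of_nonneg_right (pow_mono hΛ i ?_) (l0.wt_pos _ _).le)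
  exact (Finset.single_le_sum (f := fun b => p a b) (fun _ _ => Nat.zero_le _)
    (Finset.mem_univ b)).trans (Finset.single_le_sum (f := fun a => ∑ b, p a b)
      (fun _ _ => Nat.zero_le _) (Finset.mem_univ a))

theorem neg_bd {m : ℝ} {F : I → Pt → ℝ} (h : Neg l Λ m F) (p : ℕ) :
    ∀ᶠ i in l, ∀ y, |F i y| ≤ (Λ i ^ p)⁻¹ * wt m y :=
  ((h.2 0).2 p).mono fun _ hi y => hi y trivial

theorem neg_cut (b1 : B1Stmt) (l0 : L0Facts) (hΛ : ∀ i, 2 ≤ Λ i) {F : I → Pt → ℝ}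
    (h : Neg l Λ 0 F) (h0 : ∀ᶠ i in l, ∀ y, 4 ≤ nsq y → F i y = 0) : Neg l Λ (-2) F := by
  refine ⟨?_, fun k => ⟨(h.2 k).1, fun p => ?_⟩⟩
  · filter_upwards [h.1, h0] with i h1 h2
    refine ⟨h1.1, fun k => ?_⟩
    obtain ⟨C, hC⟩ := h1.2 k
    exact ⟨_, sym_cut b1 l0 hC h2⟩
  · filter_upwards [(h.2 k).2 (p + 0 + 3), h0] with i h1 h2
    refine l0.mono (sym_cut b1 l0 h1 h2) le_rfl le_rfl le_rfl ?_
    have h3 := eight_le hΛ i p 0
    have h4 : 0 < (Λ i ^ (p + 0 + 3))⁻¹ := inv_pos.2 (pow_pos (by linarith [hΛ i]) _)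
    rw [pow_zero] at h3
    linarith

section Neg

variable (M : M0Facts l Λ) {m m' : ℝ} {F F' : I → Pt → ℝ}
include M

theorem nzero (m : ℝ) : Neg l Λ m 0 := M.grd_neg.zero 1 0 m

theorem nadd (h : Neg l Λ m F) (h' : Neg l Λ m F') : Neg l Λ m (F + F') :=
  M.grd_neg.add (d := 1) (j := 0) h h'

theorem nsub (h : Neg l Λ m F) (h' : Neg l Λ m F') : Neg l Λ m (F - F') :=
  gsub M.grd_neg (d := 1) (j := 0) h h'

theorem nsmul (c : ℝ) (h : Neg l Λ m F) : Neg l Λ m (c • F) :=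
  M.grd_neg.smul (d := 1) (j := 0) c h

theorem nmono (h : Neg l Λ m F) (hm : m ≤ m') : Neg l Λ m' F :=
  M.grd_neg.mono (d := 1) (j := 0) (j' := 0) h le_rfl (by norm_num) hm

theorem nmul (h : Mod l Λ m F) (h' : Neg l Λ m' F') : Neg l Λ (m + m') (F * F') :=
  M.grd_neg.mul (d := 1) (j := 0) h h'

theorem nder (c : Fin 4) (h : Neg l Λ m F) : Neg l Λ (m - 1) (fD c F) :=
  M.grd_neg.der (d := 1) (j := 0) c h (by norm_num)

theorem diag (h : Mod l Λ m F) : Mod l Λ m (F, F).1 ∧ Neg l Λ m ((F, F).2 - (F, F).1) :=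
  ⟨h, by rw [sub_self]; exact nzero M m⟩

end Neg

/-- Evaluation of a family. -/
def ev (i : I) : (I → Pt → ℝ) →ₐ[ℝ] (Pt → ℝ) := Pi.evalAlgHom ℝ (fun _ : I => Pt → ℝ) i

/-- Evaluation of the first member of a pair of families. -/
def e1 (i : I) : ((I → Pt → ℝ) × (I → Pt → ℝ)) →ₐ[ℝ] (Pt → ℝ) := (ev i).comp (AlgHom.fst ℝ _ _)

/-- Evaluation of the second member of a pair of families. -/
def e2 (i : I) : ((I → Pt → ℝ) × (I → Pt → ℝ)) →ₐ[ℝ] (Pt → ℝ) := (ev i).comp (AlgHom.snd ℝ _ _)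

theorem hev (i : I) (j : Fin 4) (a : I → Pt → ℝ) : ev i (fD j a) = pd j (ev i a) := rfl

theorem he1 (i : I) (j : Fin 4) (z : (I → Pt → ℝ) × (I → Pt → ℝ)) :
    e1 i (pairD fD j z) = pd j (e1 i z) := rfl

theorem he2 (i : I) (j : Fin 4) (z : (I → Pt → ℝ) × (I → Pt → ℝ)) :
    e2 i (pairD fD j z) = pd j (e2 i z) := rfl

theorem cl_of {m : ℝ} {z : (I → Pt → ℝ) × (I → Pt → ℝ)} {X X' : I → Pt → ℝ}
    (h : Mod l Λ m z.1 ∧ Neg l Λ m (z.2 - z.1)) (h1 : ∀ i, e1 i z = X i) (h2 : ∀ i, e2 i z = X' i) :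
    Mod l Λ m X ∧ Neg l Λ m (X' - X) := by
  obtain rfl : z.1 = X := funext h1
  obtain rfl : z.2 = X' := funext h2
  exact h

/-- Comparison of the geometric quantities of two close families of metrics. -/
structure Close (l : Filter I) (Λ : I → ℝ) (g g' : I → Pt → Mat) (U : I → Fin 4 → Pt → ℝ) :
    Prop where
  chr : ∀ k a b, Mod l Λ (-1) fun i => chrF (g i) k a b
  ric : ∀ a b, Mod l Λ (-2) (fun i => ricF (g i) a b) ∧
    Neg l Λ (-2) ((fun i => ricF (g' i) a b) - fun i => ricF (g i) a b)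
  lie : ∀ a b, Mod l Λ (-2) (fun i => gLie pd (U i) (gf (g i)) a b) ∧
    Neg l Λ (-2) ((fun i => gLie pd (U i) (gf (g' i)) a b) - fun i => gLie pd (U i) (gf (g i)) a b)
  coe : ∀ a b c d, Neg l Λ (-2) ((fun i => coef (Gf (g' i)) (rlF (g' i)) a b c d) -
    fun i => coef (Gf (g i)) (rlF (g i)) a b c d)
  op : ∀ (k : I → Fin 4 → Fin 4 → Pt → ℝ) (m : ℝ), (∀ a b, Mod l Λ m fun i => k i a b) → ∀ a b,
    Neg l Λ (m - 2) ((fun i => ∑ e, ∑ c, Gf (g' i) e c * pd e (pd c (k i a b)) +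
      gLow pd (Gf (g' i)) (chrF (g' i)) (rlF (g' i)) (ricF (g' i)) (U i) (k i) a b) -
      fun i => ∑ e, ∑ c, Gf (g i) e c * pd e (pd c (k i a b)) +
      gLow pd (Gf (g i)) (chrF (g i)) (rlF (g i)) (ricF (g i)) (U i) (k i) a b)

theorem close (M : M0Facts l Λ) (t9 : T9Stmt) {g g' : I → Pt → Mat} {U : I → Fin 4 → Pt → ℝ}
    (h1 : ∀ a b, Mod l Λ 0 fun i => gf (g i) a b) (h2 : ∀ a b, Mod l Λ 0 fun i => Gf (g i) a b)
    (h3 : ∀ a b, Neg l Λ 0 fun i => gf (g' i) a b - gf (g i) a b)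
    (h4 : ∀ a b, Neg l Λ 0 fun i => Gf (g' i) a b - Gf (g i) a b)
    (h5 : ∀ k, Mod l Λ (-1) fun i => U i k) : Close l Λ g g' U := by
  have hP := M.grd_cl
  have F := t9.1 _ _ _ _ hP
  let gP : Fin 4 → Fin 4 → (I → Pt → ℝ) × (I → Pt → ℝ) := fun a b =>
    (fun i => gf (g i) a b, fun i => gf (g' i) a b)
  let GP : Fin 4 → Fin 4 → (I → Pt → ℝ) × (I → Pt → ℝ) := fun a b =>
    (fun i => Gf (g i) a b, fun i => Gf (g' i) a b)
  let UP : Fin 4 → (I → Pt → ℝ) × (I → Pt → ℝ) := fun k => (fun i => U i k, fun i => U i k)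
  have hG : ∀ a b, Mod l Λ 0 (GP a b).1 ∧ Neg l Λ 0 ((GP a b).2 - (GP a b).1) :=
    fun a b => ⟨h2 a b, h4 a b⟩
  have hU : ∀ k, Mod l Λ (-1) (UP k).1 ∧ Neg l Λ (-1) ((UP k).2 - (UP k).1) :=
    fun k => diag M (h5 k)
  obtain ⟨c1, c2, c3, -, c5⟩ := F.chr gP GP (fun a b => ⟨h1 a b, h3 a b⟩) hG
  refine ⟨fun k a b => (cl_of (X' := fun i => chrF (g' i) k a b) (c1 k a b)
      (fun i => map_gChr (e1 i) (he1 i) _ _ _ _ _) fun i => map_gChr (e2 i) (he2 i) _ _ _ _ _).1,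
    fun a b => cl_of (c3 a b) (fun i => ?_) fun i => ?_,
    fun a b => cl_of ((c5 UP hU).1 a b) (fun i => map_gLie (e1 i) (he1 i) _ _ _ _)
      fun i => map_gLie (e2 i) (he2 i) _ _ _ _, fun a b c d => ?_, fun k m hk a b => ?_⟩
  · simp only [map_gRic (e1 i) (he1 i), map_gChr (e1 i) (he1 i)]
    rfl
  · simp only [map_gRic (e2 i) (he2 i), map_gChr (e2 i) (he2 i)]
    rfl
  · have h6 := gsum hP (d := 0) (j := 0) (m := -2) Finset.univ fun x => gsum hP (d := 0) (j := 0)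
      (m := -2) Finset.univ fun y => hP.mono (d := 0) (j := 0) (j' := 0)
        (hP.mul (d := 0) (j := 0) (c2 x a b y) (hP.mul (d := 0) (j := 0) (hG x c) (hG y d)))
        le_rfl (by norm_num) (by norm_num)
    refine (cl_of h6 (fun i => ?_) fun i => ?_).2
    · simp only [map_sum, map_mul, map_gRlow (e1 i) (he1 i), map_gChr (e1 i) (he1 i)]
      rfl
    · simp only [map_sum, map_mul, map_gRlow (e2 i) (he2 i), map_gChr (e2 i) (he2 i)]
      rfl
  · let kP : Fin 4 → Fin 4 → (I → Pt → ℝ) × (I → Pt → ℝ) := fun a b =>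
      (fun i => k i a b, fun i => k i a b)
    have hk' : ∀ a b, Mod l Λ m (kP a b).1 ∧ Neg l Λ m ((kP a b).2 - (kP a b).1) :=
      fun a b => diag M (hk a b)
    have h6 := gsum hP (d := 0) (j := 0) (m := m - 2) Finset.univ fun e => gsum hP (d := 0)
      (j := 0) (m := m - 2) Finset.univ fun c => hP.mono (d := 0) (j := 0) (j' := 0)
        (hP.mul (d := 0) (j := 0) (hG e c) (hP.der (d := 0) (j := 0) e
          (hP.der (d := 0) (j := 0) c (hk' a b) (by norm_num)) (by norm_num)))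
        le_rfl (by norm_num) (by linarith)
    have h7 := hP.add (d := 0) (j := 0) h6 (F.low GP _ _ _ UP kP 0 m hG c1 c2 c3 hU hk' a b)
    refine (cl_of h7 (fun i => ?_) fun i => ?_).2
    · simp only [map_add, map_sum, map_mul, he1, map_gLow (e1 i) (he1 i), map_gRic (e1 i) (he1 i),
        map_gRlow (e1 i) (he1 i), map_gChr (e1 i) (he1 i)]
      rfl
    · simp only [map_add, map_sum, map_mul, he2, map_gLow (e2 i) (he2 i), map_gRic (e2 i) (he2 i),
        map_gRlow (e2 i) (he2 i), map_gChr (e2 i) (he2 i)]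
      rfl

theorem smM (M : M0Facts l Λ) {g : I → Pt → Mat} (hE : EllF l Λ g)
    (h : ∀ a b, Mod l Λ 0 fun i => gf (g i) a b) : ∀ᶠ i in l, SmM (g i) := by
  obtain ⟨h1, h2, -⟩ := M.inv g hE h
  filter_upwards [eventually_all.2 fun a => eventually_all.2 fun b => ((h a b).2 0).1,
    eventually_all.2 fun a => eventually_all.2 fun b => ((h1 a b).2 0).1, h2] with i a1 a2 a3
  exact ⟨a1, a2, a3⟩

end Family

end Mph

open Mph

theorem mph (b1 : B1Stmt) (l0 : L0Facts) (m0 : M0Stmt) (sob : SobStmt) (t1 : T1Stmt)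
    (t3 : T3Stmt) (t9 : T9Stmt) (t4 : T4Stmt) (mp : MpStmt) : MphStmt := by
  intro I l Λ hΛ g δ U φ w β H
  have M := m0.1 I l Λ hΛ
  have hM := M.grd_mod
  have hδ : ∀ a b, Neg l Λ 0 fun i => gf (δ i) a b := fun a b =>
    M.interp (H.δ_mod a b) fun p => (H.δ_small p).mono fun i hi y => by
      rw [l0.wt_zero, mul_one]
      exact hi y a b
  obtain ⟨p₁, hp₁⟩ := H.g_ell
  have hE : EllF l Λ g := ⟨H.g_symm, p₁, hp₁.mono fun i hi y => hi y trivial⟩
  have hd : ∀ a b, Neg l Λ 0 fun i => gf (g i + δ i) a b - gf (g i) a b := fun a b =>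
    neg_congr (hδ a b) (Eventually.of_forall fun i => funext fun y => by simp [gf])
  obtain ⟨hE', hG'⟩ := M.inv_cl g (fun i => g i + δ i) hE H.g_mod
    (fun i y => (H.g_symm i y).add (H.δ_symm i y)) hd
  have hg' : ∀ a b, Mod l Λ 0 fun i => gf (g i + δ i) a b := fun a b =>
    hM.add (d := 0) (j := 0) (H.g_mod a b) (H.δ_mod a b)
  have hG := (M.inv g hE H.g_mod).1
  have hs := smM M hE H.g_mod
  have hs' := smM M hE' hg'
  have hU : ∀ᶠ i in l, ∀ k, ContDiff ℝ ∞ (U i k) := eventually_all.2 fun k => ((H.U_mod k).2 0).1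
  have C := close M t9 H.g_mod hG hd hG' H.U_mod
  obtain ⟨q, hq⟩ := mod_bd l0 hΛ H.g_mod
  have hEm : ∀ a b, Mod l Λ (-2) fun i => errF (g i) (Vf (U i)) a b := fun a b => by
    refine mod_congr (gsub hM (d := 0) (j := 0) (hM.add (d := 0) (j := 0) (C.ric a b).1
      (hM.smul (d := 0) (j := 0) (1 / 2) (C.lie a b).1))
      (hM.smul (d := 0) (j := 0) (1 / 4) (H.g_rad a b))) ?_
    filter_upwards [hs, hU] with i h1 h2
    exact (err_split h1 h2 t3 a b).symm
  have hEn : ∀ a b, Neg l Λ (-2) fun i => errF (g i) (Vf (U i)) a b := fun a b => by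
    refine M.interp (hEm a b) fun p => ?_
    filter_upwards [hs, hU, hq, H.err (p + q + 3)] with i h1 h2 h3 h4 y
    have h0 : 0 < Λ i := by linarith [hΛ i]
    have hw := l0.wt_pos (-2) y
    have h5 := polar (h := fun a b => errF (g i) (Vf (U i)) a b y)
      (fun a b => congrFun (err_symm h1 h2 t3 a b) y)
      (A := (Λ i ^ (p + q + 3))⁻¹ * wt (-2) y * (4 * Λ i ^ q)) (by positivity)
      (fun v => (h4 y trivial v).trans (by
        rw [mul_assoc _ (4 * Λ i ^ q)]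
        refine mul_le_mul_of_nonneg_left ((le_abs_self _).trans (qf_abs_le (fun a b => ?_) v))
          (by positivity)
        have := h3 a b y
        rwa [l0.wt_zero, mul_one] at this)) a b
    have h6 := mul_le_mul_of_nonneg_right (eight_le hΛ i p q) hw.le
    linarith
  have hrad : ∀ a b, Neg l Λ (-2) fun i => rad (gf (δ i) a b) := fun a b => by
    refine neg_cut b1 l0 hΛ ?_ (H.δ_rad.mono fun i hi y hy => hi y hy a b)
    refine neg_congr (gsum M.grd_neg (d := 1) (j := 0) (m := 0) Finset.univ fun c =>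
      nmono M (nmul M (M.coord c) (nder M c (hδ a b))) (by norm_num))
      (Eventually.of_forall fun i => ?_)
    rw [rad_eq, Finset.sum_apply]
    rfl
  refine ⟨hδ, fun a b => ?_, ?_⟩
  · refine neg_congr (nsub M (nadd M (nadd M (hEn a b) (C.ric a b).2)
      (nsmul M (1 / 2) (C.lie a b).2)) (nsmul M (1 / 4) (hrad a b))) ?_
    filter_upwards [hs, hs', hU, ((H.δ_mod a b).2 0).1] with i h1 h2 h3 h4
    have e : rad (gf (g i + δ i) a b) = rad (gf (g i) a b) + rad (gf (δ i) a b) := by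
      funext y
      have e1 : ∀ c, pd c (gf (g i + δ i) a b) y = pd c (gf (g i) a b) y + pd c (gf (δ i) a b) y :=
        fun c => pdn_add ((h1.cg a b).differentiable (by simp) y) (h4.differentiable (by simp) y) c
      simp only [rad, e1, mul_add, Finset.sum_add_distrib, Pi.add_apply]
    funext y
    simp only [Pi.sub_apply, Pi.add_apply, Pi.smul_apply, err_split h1 h3 t3,
      err_split h2 h3 t3, e, smul_eq_mul]
    ring
  · have hβ : Mod l Λ 0 fun i _ => β i := M.par β 0 (by simpa using H.β_bd)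
    let k : I → Fin 4 → Fin 4 → Pt → ℝ := fun i a b => φ i * gf (g i) a b + β i • ricF (g i) a b
    have hk : ∀ a b, Mod l Λ (-1 / 2) fun i => k i a b := fun a b =>
      hM.add (d := 0) (j := 0)
        (hM.mono (d := 0) (j := 0) (j' := 0) (hM.mul (d := 0) (j := 0) H.φ_mod (H.g_mod a b))
          le_rfl (by norm_num) (by norm_num))
        (hM.mono (d := 0) (j := 0) (j' := 0) (hM.mul (d := 0) (j := 0) hβ (C.ric a b).1)
          le_rfl (by norm_num) (by norm_num))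
    have hD : ∀ a b, Neg l Λ (-2 - 2) fun i =>
        gDRic pd (Gf (g i)) (chrF (g i)) (errF (g i) (Vf (U i))) a b := fun a b =>
      neg_congr (((t9.1 _ _ _ _ M.grd_neg).lin (fun a b i => Gf (g i) a b)
        (fun k a b i => chrF (g i) k a b) (fun a b i => errF (g i) (Vf (U i)) a b) 1 (-2) hG C.chr
        hEn).2 a b) (Eventually.of_forall fun i => map_gDRic (ev i) (hev i) _ _ _ _ _)
    have hW := fun a b => nsub M (nmono M (m' := -1 / 2) (C.op k _ hk a b) (by norm_num))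
      (nadd M (nsmul M 2 (nmono M (nmul M H.φ_mod (hEn a b)) (by norm_num)))
        (nsmul M 2 (nmono M (nmul M hβ (hD a b)) (by norm_num))))
    obtain ⟨p₂, hp₂⟩ := H.bar
    obtain ⟨p₃, hp₃⟩ := mod_bd l0 hΛ hk
    obtain ⟨p, hp⟩ := core l0 sob t1 t3 t9 mp
    refine ⟨(p₁ + p₂ + p₃ + 1) * p, ?_⟩
    filter_upwards [hs, hs', hU, hp₁, hp₂, hp₃, (H.φ_mod.2 0).1,
      eventually_all.2 fun a => eventually_all.2 fun b => ((hk a b).2 0).1,
      eventually_all.2 fun a => eventually_all.2 fun b =>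
        neg_bd (hW a b) ((p₁ + p₂ + p₃ + 1) * 16),
      eventually_all.2 fun a => eventually_all.2 fun b => eventually_all.2 fun c =>
        eventually_all.2 fun d => neg_bd (C.coe a b c d) ((p₁ + p₂ + p₃ + 1) * 16)]
      with i h1 h2 h3 h4 h5 h6 h7 h8 h9 h10
    have h0 : 0 < Λ i := by linarith [hΛ i]
    rw [pow_mul] at h9 h10 ⊢
    refine hp _ (g i) (g i + δ i) (U i) (φ i) (lapF (g i) (Vf (U i)) (φ i)) (β i) (k i) _ ?_ h1 h2
      h3 h8 (fun a b y => rfl) (fun y ξ => ?_) (fun y => ?_) (fun a b y => ?_) (fun a b y => ?_) h9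
      fun a b c d y => ?_
    · refine (hΛ i).trans ?_
      simpa using pow_mono hΛ i (p := 1) (q := p₁ + p₂ + p₃ + 1) (by omega)
    · exact (mul_le_mul_of_nonneg_right (inv_mono hΛ i (by omega)) (nsq_nonneg ξ)).trans
        (h4 y trivial ξ)
    · refine barOK_mono (h5 y trivial) (mul_le_mul_of_nonneg_right (inv_mono hΛ i (by omega))
        (l0.wt_pos _ _).le) fun v => le_trans ?_ (h4 y trivial v)
      exact mul_nonneg (by positivity) (nsq_nonneg v)
    · exact (h6 a b y).trans (mul_le_mul_of_nonneg_right (pow_mono hΛ i (by omega))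
        (l0.wt_pos _ _).le)
    · have e1 := congrFun (L_split h1 h3 t3 h8 a b) y
      have e2 := congrFun (L_split h2 h3 t3 h8 a b) y
      have e3 : LF (g i) (Vf (U i)) (k i) a b y = _ := L_bar h1 h3 t4 h7 (β i) a b y
      simp only [Pi.sub_apply, Pi.add_apply, Pi.smul_apply, Pi.mul_apply, smul_eq_mul] at e1 e2 ⊢
      linarith
    · refine (h10 a b c d y).trans ?_
      have := l0.wt_mono (a := -2) (b := 0) (by norm_num) y
      rw [l0.wt_zero] at this
      exact mul_le_of_le_one_right (by positivity) this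

end Pool.Agent.Lib.MP_df9110_gt
end
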