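import Pool.Agent.Lib.MP_df9110_gt.NIter

-- part Pool.Agent.Lib.MP_df9110_gt.Form
section

/-! The construction of the formal solution from the steps of the iteration. -/

namespace Pool.Agent.Lib.MP_df9110_gt

open Filter Topology Set
open scoped ContDiff

namespace Form

section Weights

variable {l : Filter Z2} {w w' v v' : Z2 → ℝ}

theorem wle_refl (w : Z2 → ℝ) : WLe l w w := ⟨1, Eventually.of_forall fun z => by rw [one_mul]⟩

theorem wle_pos (h : WLe l w w') : ∃ C : ℝ, 0 ≤ C ∧ ∀ᶠ z in l, |w z| ≤ C * |w' z| :=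
  let ⟨C, hC⟩ := h
  ⟨|C|, abs_nonneg C, hC.mono fun _ hz =>
    hz.trans (mul_le_mul_of_nonneg_right (le_abs_self C) (abs_nonneg _))⟩

theorem wle_mul (h : WLe l w w') (h' : WLe l v v') : WLe l (w * v) (w' * v') := by
  obtain ⟨C, C0, hC⟩ := wle_pos h
  obtain ⟨C', -, hC'⟩ := wle_pos h'
  refine ⟨C * C', ?_⟩
  filter_upwards [hC, hC'] with z h1 h2
  rw [Pi.mul_apply, Pi.mul_apply, abs_mul, abs_mul, mul_mul_mul_comm]
  exact mul_le_mul h1 h2 (abs_nonneg _) (mul_nonneg C0 (abs_nonneg _))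

theorem wle_pow_one (h : WLe l w 1) (k : ℕ) : WLe l (w ^ k) 1 := by
  induction k with
  | zero => exact wle_refl _
  | succ k ih => simpa [pow_succ] using wle_mul ih h

theorem wle_pow (h : WLe l w 1) {n n' : ℕ} (hn : n' ≤ n) : WLe l (w ^ n) (w ^ n') := by
  obtain ⟨k, rfl⟩ := Nat.exists_eq_add_of_le hn
  simpa [pow_add] using wle_mul (wle_refl (w ^ n')) (wle_pow_one h k)

theorem val_mk (F : SmF l) : ∀ᶠ z in l, val (mkG l F) z = F.1 z.1 z.2 := mkG_eq.1 (mkG_rep _)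

theorem val_gm {F : ℝ → En 2 → ℝ} (h : F ∈ SmF l) : ∀ᶠ z in l, val (gm l F) z = F z.1 z.2 := by
  rw [gm_eq h]
  exact val_mk _

theorem val_sub (φ ψ : SG l) : ∀ᶠ z in l, val (φ - ψ) z = val φ z - val ψ z := by
  have := val_mk (rep φ - rep ψ)
  rw [map_sub, mkG_rep, mkG_rep] at this
  exact this

theorem val_bd (B : B2Facts l 1) {φ : SG l} (h : PG 1 w φ) :
    ∃ C : ℝ, 0 ≤ C ∧ ∀ᶠ z in l, |val φ z| ≤ C * |w z| :=
  wle_pos (B.bound (rep φ) (by rwa [mkG_rep]))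

theorem val_zero (B : B2Facts l 1) {φ : SG l} (h : PG 1 w φ) :
    ∀ᶠ z in l, w z = 0 → val φ z = 0 := by
  obtain ⟨C, -, hC⟩ := val_bd B h
  filter_upwards [hC] with z hz h0
  rw [h0, abs_zero, mul_zero] at hz
  exact abs_nonpos_iff.1 hz

theorem pg_der (B : B2Facts l 1) {φ : SG l} (j : Fin 2) (h : PG 1 w φ) : PG 1 w (gD j φ) := by
  simpa using B.der j h

theorem pg_mul (B : B2Facts l 1) {φ ψ : SG l} (h : PG 1 1 φ) (h' : PG 1 w ψ) :
    PG 1 w (φ * ψ) := by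
  simpa using B.mul h h'

end Weights

theorem young {a η : ℝ} (ha : 0 ≤ a) (hη : 0 ≤ η) (k : ℕ) :
    a * η ^ (1 - 1 / ((k : ℝ) + 2)) ≤ η / 2 + (2 * a) ^ (k + 2) := by
  have k0 : (k : ℝ) + 2 ≠ 0 := by positivity
  set t := η ^ (1 / ((k : ℝ) + 2)) with ht
  have t0 : 0 ≤ t := Real.rpow_nonneg hη _
  have h1 : η ^ (1 - 1 / ((k : ℝ) + 2)) = t ^ (k + 1) := by
    rw [ht, ← Real.rpow_natCast, ← Real.rpow_mul hη]
    congr 1
    push_cast
    field_simp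
    ring
  have h2 : η = t ^ (k + 2) := by
    rw [ht, ← Real.rpow_natCast, ← Real.rpow_mul hη]
    push_cast
    rw [one_div_mul_cancel k0, Real.rpow_one]
  rw [h1]
  have h3 : 0 ≤ t ^ (k + 1) := pow_nonneg t0 _
  have h4 : 0 ≤ (2 * a) ^ (k + 1) := by positivity
  rcases le_total (2 * a) t with h | h
  · have : 2 * a * t ^ (k + 1) ≤ η := by
      rw [h2, pow_succ' t (k + 1)]
      exact mul_le_mul_of_nonneg_right h h3
    have : 0 ≤ (2 * a) ^ (k + 2) := by positivity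
    linarith
  · have h5 : a * t ^ (k + 1) ≤ a * (2 * a) ^ (k + 1) :=
      mul_le_mul_of_nonneg_left (pow_le_pow_left₀ t0 h _) ha
    have h6 : 0 ≤ a * (2 * a) ^ (k + 1) := mul_nonneg ha h4
    rw [pow_succ' (2 * a) (k + 1)]
    linarith

theorem cd_deriv {f : ℝ → ℝ} {x : ℝ} (h : ContDiffAt ℝ ∞ f x) : ContDiffAt ℝ ∞ (deriv f) x :=
  (h.fderiv_right (m := ∞) (by simp)).clm_apply contDiffAt_const

variable {P : Prof} {c : ℝ}

theorem inv_mono (b2 : B2Stmt) (av : AvgStmt) (wt : WtStmt) (g : P.Geo c) {s : St P c}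
    {n m n' m' : ℕ} {θ κ κ' : ℝ} (h : s.Inv n m θ κ) (hn : n' ≤ n) (hm : m' ≤ m) (hκ : κ' ≤ κ) :
    s.Inv n' m' θ κ' := by
  have B : B2Facts P.lO 1 := b2 ℝ 2 _ 1 fun _ => zero_le_one
  have B' : ∀ i, B2Facts (P.lL c i) 1 := fun i => b2 ℝ 2 _ 1 fun _ => zero_le_one
  have e : WLe P.lO eW 1 := (av.2 _ _ _).1.eps.2.2.2.1
  have e' : ∀ i, WLe (P.lL c i) eW 1 := fun i => (av.1 _ _ _ g.pos).eps.2.2.2.1
  have d : ∀ i, WLe (P.lL c i) (dW κ) (dW κ') := fun i => (wt _ _ _ g.pos).d_le _ _ hκ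
  exact ⟨⟨h.la, h.bp, h.lc, h.u, h.ev_la, h.ev_lc, fun i j =>
      (B' i).mono (h.Z i j) (wle_mul (wle_refl _) (d i))⟩,
    fun i k => B.mono (h.err i k) (wle_mul (wle_pow e hn) (wle_refl _)),
    fun i k => (B' i).mono (h.elay i k)
      (wle_mul (wle_mul (wle_pow (e' i) hm) (wle_refl _)) (d i))⟩

theorem iter (ini : InitStmt) (so : StepOStmt) (sl : StepLStmt) (hP : P.Ok) (g : P.Geo c) {θ : ℝ}
    (h0 : 0 < θ) (h1 : θ < 1) (n : ℕ) :
    ∃ s : St P c, s.Inv (n + 1) (n + 1) θ (7 / 4 + 1 / (8 * ((n : ℝ) + 1))) := by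
  have pos : ∀ n : ℕ, 0 < 7 / 4 + 1 / (8 * ((n : ℝ) + 1)) := fun n => by positivity
  have lt : ∀ n : ℕ, 7 / 4 + 1 / (8 * ((n : ℝ) + 1)) < 2 := fun n => by
    have : 1 / (8 * ((n : ℝ) + 1)) ≤ 1 / 8 :=
      one_div_le_one_div_of_le (by norm_num) (by linarith [Nat.cast_nonneg (α := ℝ) n])
    linarith
  induction n with
  | zero => exact ⟨_, ini P c θ _ hP g h0 h1 (pos 0) (lt 0)⟩
  | succ n ih =>
    obtain ⟨s, hs⟩ := ih
    obtain ⟨s', hs'⟩ := so P c s θ _ _ _ hP g h0 h1 (pos n) (lt n) (by omega) le_rfl hs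
    refine sl P c s' θ _ _ _ _ hP g h0 h1 (pos (n + 1)) ?_ (lt n) (by omega) le_rfl hs'
    have : 1 / (8 * (((n + 1 : ℕ) : ℝ) + 1)) < 1 / (8 * ((n : ℝ) + 1)) :=
      one_div_lt_one_div_of_lt (by positivity) (by push_cast; linarith)
    linarith

/-- minus the scalar curvature term of the link -/
def lk {R : Type} [CommRing R] (D : R → R) (a b : R) : R :=
  -(D a + D b + a ^ 2 + b ^ 2 + a * b + 3)

theorem ev_kv {l : Filter Z2} [OpF l] {a b : ℝ} (A : AvgFacts l a b) (B : B2Facts l 1)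
    {e la bp lc u v : SG l} (h1 : ev0 la = 0) (h2 : ev0 lc = 0) (O : Out (SG l))
    (hO : O = ⟨e, cG l, la, bp, lc, u, v⟩) :
    ev0 (O.kv gD expG 3 + O.kv gD expG 6 + O.kv gD expG 7) =
      ev0 (lk (gD 1) (gD 1 u) (gD 1 v)) := by
  have hc := A.ev_c
  have h3 : ev0 (expG la) = 1 := by rw [A.ev_exp, h1, B.exp_zero]
  have h4 : ev0 (expG lc) = 1 := by rw [A.ev_exp, h2, B.exp_zero]
  have h5 : ev0 (gD 1 lc) = 0 := by rw [← A.ev_D1, h2, (isDer_gD (l := l)).zero]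
  subst hO
  simp only [ev0, pb_eq A.pull0] at *
  simp only [Out.kv, Out.k22, Out.k34, Out.jh, Out.t₁, Out.t₂, Out.Dd, lk, Matrix.cons_val,
    map_add, map_sub, map_mul, map_neg, map_pow, map_smul, map_one, map_ofNat, hc, h3, h4, h5]
  algebra

theorem val_ev {l : Filter Z2} {a b : ℝ} (A : AvgFacts l a b) (φ : SG l) :
    ∀ᶠ z in l, z.2 0 = 0 → val (ev0 φ) z = val φ z := by
  filter_upwards [val_gm (A.pull0.mem (rep φ))] with z hz h0
  refine hz.trans ?_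
  have : ![0, z.2 1] = z.2 := by
    funext j
    fin_cases j
    · exact h0.symm
    · rfl
  rw [this]
  rfl

theorem val_lk {l : Filter Z2} {a b : ℝ} (A : AvgFacts l a b) {f g : ℝ → ℝ}
    (hf : ∀ x ∈ Ioo a b, ContDiffAt ℝ ∞ f x) (hg : ∀ x ∈ Ioo a b, ContDiffAt ℝ ∞ g x) :
    ∀ᶠ z in l, val (lk (gD 1) (xG l (deriv f)) (xG l (deriv g))) z = etaF f g (z.2 1) := by
  have f1 := A.xfun _ fun x hx => cd_deriv (hf x hx)
  have g1 := A.xfun _ fun x hx => cd_deriv (hg x hx)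
  have f2 := A.xfun _ fun x hx => cd_deriv (cd_deriv (hf x hx))
  have g2 := A.xfun _ fun x hx => cd_deriv (cd_deriv (hg x hx))
  have := val_mk (l := l) (-(⟨_, f2.1⟩ + ⟨_, g2.1⟩ + ⟨_, f1.1⟩ ^ 2 + ⟨_, g1.1⟩ ^ 2 +
    ⟨_, f1.1⟩ * ⟨_, g1.1⟩ + 3))
  simp only [map_neg, map_add, map_pow, map_mul, map_ofNat, ← gm_eq] at this
  rw [lk, f1.2.2.1, g1.2.2.1]
  exact this

theorem pg_lk {l : Filter Z2} [OpF l] (B : B2Facts l 1) {w : Z2 → ℝ} (hw : WLe l w 1)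
    {a b r s : SG l} (ha : PG 1 1 a) (hb : PG 1 1 b) (hr : PG 1 w r) (hs : PG 1 w s) :
    PG 1 w (lk (gD 1) a b - lk (gD 1) (a + r) (b + s)) := by
  have hD := isDer_gD (l := l)
  have e : lk (gD 1) a b - lk (gD 1) (a + r) (b + s) =
      gD 1 r + gD 1 s + (a + a + b + r + s) * r + (b + b + a + s) * s := by
    simp only [lk, hD.add]
    ring
  have hr' := B.mono hr hw
  have hs' := B.mono hs hw
  rw [e]
  exact B.add (B.add (B.add (pg_der B 1 hr) (pg_der B 1 hs))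
    (pg_mul B (B.add (B.add (B.add (B.add ha ha) hb) hr') hs') hr))
    (pg_mul B (B.add (B.add (B.add hb hb) ha) hs') hs)

theorem eta_symm (P : Prof) (i : Fin 2) : etaF (P.L i) (P.L (i + 1)) = P.eta := by
  fin_cases i
  · rfl
  · funext x
    change etaF (P.L 1) (P.L 0) x = etaF (P.L 0) (P.L 1) x
    rw [etaF, etaF]
    ring

theorem link (b2 : B2Stmt) (av : AvgStmt) (lg : LgStmt) (hP : P.Ok) (g : P.Geo c) {s : St P c}
    {κ : ℝ} (N : ℕ) (h0 : 0 < 1 - 1 / ((N : ℝ) + 2)) (h1 : 1 - 1 / ((N : ℝ) + 2) < 1)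
    (h : s.Bd (1 - 1 / ((N : ℝ) + 2)) κ) (i : Fin 2) :
    ∃ C : ℝ, ∀ᶠ z in P.lO, z.2 0 = 0 → P.eta (z.2 1) / 2 - C * z.1 ^ N ≤
      val ((s.O i).kv gD expG 3 + (s.O i).kv gD expG 6 + (s.O i).kv gD expG 7) z := by
  set θ := 1 - 1 / ((N : ℝ) + 2) with hθ
  have B : B2Facts P.lO 1 := b2 ℝ 2 _ 1 fun _ => zero_le_one
  have A : AvgFacts P.lO (P.xL - P.δ) (P.xR + P.δ) := (av.2 _ _ _).1
  have hD := isDer_gD (l := P.lO)
  have sm : ∀ j, ∀ x ∈ Ioo (P.xL - P.δ) (P.xR + P.δ), ContDiffAt ℝ ∞ (P.L j) x :=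
    fun j x hx => hP.sm_L j x (Ioo_subset_Icc_self hx)
  have hw : WLe P.lO (eW * P.wW θ) 1 := by
    simpa using wle_mul A.eps.2.2.2.1 (g.w_one θ h0.le).1
  have ha : ∀ j, PG 1 1 (xG P.lO (deriv (P.L j))) := fun j =>
    A.xbd _ fun x hx => cd_deriv (hP.sm_L j x hx)
  have hr : ∀ j, PG 1 (eW * P.wW θ) (gD 1 (s.u j - P.Li j) + gD 1 (P.Li j - xG _ (P.L j))) :=
    fun j => B.add (pg_der B 1 (h.u j)) (lg P hP θ j h0 h1).1
  have he : ∀ j, xG P.lO (deriv (P.L j)) +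
      (gD 1 (s.u j - P.Li j) + gD 1 (P.Li j - xG _ (P.L j))) = gD 1 (s.u j) := fun j => by
    rw [hD.sub, hD.sub, (A.xfun _ (sm j)).2.2.1]
    ring
  have k1 := pg_lk B hw (ha i) (ha (i + 1)) (hr i) (hr (i + 1))
  rw [he, he] at k1
  obtain ⟨C, C0, hC⟩ := val_bd B k1
  have k2 := ev_kv A B h.ev_la h.ev_lc (s.O i) rfl
  have k3 : ∀ᶠ z in P.lO, z.2 1 ∈ Ioo (P.xL - P.δ) (P.xR + P.δ) :=
    ev_fam.2 (Eventually.of_forall fun _ _ hp => hp.2)
  have k4 : ∀ᶠ z in P.lO, eW z < 1 := A.eps.2.2.2.2.1.eventually (gt_mem_nhds one_pos)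
  refine ⟨(2 * C) ^ (N + 2), ?_⟩
  filter_upwards [hC, k3, k4, A.eps.2.2.2.2.2.1, val_sub (lk (gD 1) (xG P.lO (deriv (P.L i)))
      (xG P.lO (deriv (P.L (i + 1))))) (lk (gD 1) (gD 1 (s.u i)) (gD 1 (s.u (i + 1)))),
    val_lk A (sm i) (sm (i + 1)),
    val_ev A ((s.O i).kv gD expG 3 + (s.O i).kv gD expG 6 + (s.O i).kv gD expG 7),
    val_ev A (lk (gD 1) (gD 1 (s.u i)) (gD 1 (s.u (i + 1))))] with z a1 a2 a3 a4 a5 a6 a7 a8 z0
  have η0 := hP.eta_nonneg _ (Ioo_subset_Icc_self a2)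
  rw [← a7 z0, k2, a8 z0]
  rw [a5, a6, eta_symm] at a1
  have a9 : |(eW * P.wW θ) z| = z.1 * P.eta (z.2 1) ^ θ :=
    abs_of_nonneg (mul_nonneg a4.le (Real.rpow_nonneg η0 _))
  have b1 := young (mul_nonneg C0 a4.le) η0 N
  have b2 : (2 * (C * z.1)) ^ (N + 2) ≤ (2 * C) ^ (N + 2) * z.1 ^ N := by
    rw [← mul_assoc, mul_pow]
    exact mul_le_mul_of_nonneg_left (pow_le_pow_of_le_one a4.le a3.le (by omega)) (by positivity)
  rw [a9, ← mul_assoc] at a1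
  linarith [le_abs_self (P.eta (z.2 1) - val (lk (gD 1) (gD 1 (s.u i)) (gD 1 (s.u (i + 1)))) z)]

theorem unif {l : Fin 2 → Filter Z2} {Q : Fin 2 → ℝ → Z2 → Prop}
    (hQ : ∀ i C C', C ≤ C' → ∀ᶠ z in l i, Q i C z → Q i C' z) (h : ∀ i, ∃ C, ∀ᶠ z in l i, Q i C z) :
    ∃ C, ∀ i, ∀ᶠ z in l i, Q i C z := by
  choose C hC using h
  refine ⟨max (C 0) (C 1), fun i => ?_⟩
  filter_upwards [hC i, hQ i (C i) (max (C 0) (C 1)) (by
    fin_cases i
    · exact le_max_left _ _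
    · exact le_max_right _ _)] with z h1 h2 using h2 h1

end Form

open Form

theorem form (_b1 : B1Stmt) (b2 : B2Stmt) (av : AvgStmt) (wt : WtStmt) (lg : LgStmt)
    (c1 : Cid1Stmt) (c2 : Cid2Stmt) (ini : InitStmt) (so : StepOStmt) (sl : StepLStmt)
    (om : OmStmt) (ga : GamStmt) (es : EstStmt) : FormStmt := by
  intro P c g N hP
  have h0 : 0 < 1 - 1 / ((N : ℝ) + 2) := by
    rw [sub_pos, div_lt_one (by positivity)]
    linarith [Nat.cast_nonneg (α := ℝ) N]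
  have h1 : 1 - 1 / ((N : ℝ) + 2) < 1 := sub_lt_self _ (by positivity)
  obtain ⟨s, hs⟩ := iter ini so sl hP g h0 h1 (N + 1)
  have h := inv_mono b2 av wt g hs le_rfl le_rfl (κ' := 7 / 4) (le_add_of_nonneg_right (by positivity))
  have hl := link b2 av lg hP g N h0 h1 h.toBd
  clear hs
  generalize 1 - 1 / ((N : ℝ) + 2) = θ at *
  have B : B2Facts P.lO 1 := b2 ℝ 2 _ 1 fun _ => zero_le_one
  have B' : ∀ i, B2Facts (P.lL c i) 1 := fun i => b2 ℝ 2 _ 1 fun _ => zero_le_one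
  have A : AvgFacts P.lO (P.xL - P.δ) (P.xR + P.δ) := (av.2 _ _ _).1
  have A' : ∀ i, AvgFacts (P.lL c i) (P.lo i) (P.hi i) := fun i => av.1 _ _ _ g.pos
  have w0 : ∀ (z : Z2) J, |z.2 1 - P.xJ J| ≤ P.δ → (eW * P.wW θ) z = 0 := fun z J hz => by
    change z.1 * P.eta (z.2 1) ^ θ = 0
    rw [hP.strip J _ hz, Real.zero_rpow h0.ne', mul_zero]
  have cid := fun m hm i => c1 P c g s θ (7 / 4) m i hP h0 h1 (by norm_num) h.toBd hm
  obtain ⟨Cb, hCb⟩ := es P c s θ N hP g h0 h1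
    (inv_mono b2 av wt g h (by omega) (by omega) le_rfl)
  refine ⟨s, Cb, h.ev_la, h.ev_lc, fun i k => B.mono (h.err i k) ?_, fun i j =>
    (B' i).mono (h.Z i j) ?_, ?_, fun m hm i => ?_, ?_, ?_, fun m hm i =>
      ⟨(cid m hm i).1, c2 P c g s m i hP hm (cid m hm i).1, hCb m hm i⟩⟩
  · simpa using wle_mul (wle_pow A.eps.2.2.2.1 (show N ≤ N + 1 + 1 by omega)) (g.w_one θ h0.le).1
  · simpa using wle_mul (wle_mul (wle_refl eW) ((g.w_one θ h0.le).2 i))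
      ((wt _ _ _ g.pos).d_le (7 / 4) (3 / 2) (by norm_num))
  · filter_upwards [val_zero B h.la, val_zero B h.bp, val_zero B h.lc,
      eventually_all.2 fun i => val_zero B (h.u i),
      eventually_all.2 fun i => val_sub (s.u i) (P.Li i),
      eventually_all.2 fun i => (lg P hP θ i h0 h1).2.2] with z a1 a2 a3 a4 a5 a6 J hz
    refine ⟨a1 (w0 z J hz), a2 (w0 z J hz), a3 (w0 z J hz), fun i => ?_⟩
    rw [← a6 i, ← sub_eq_zero, ← a5 i, a4 i (w0 z J hz)]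
  · filter_upwards [eventually_all.2 fun j => val_zero (B' i) (h.Z i j),
      val_zero (B' i) (cid m hm i).2] with z a1 a2 J hz
    exact ⟨fun j => a1 j (by rw [Pi.mul_apply, w0 z J hz, zero_mul]), a2 (w0 z J hz)⟩
  · refine unif (l := fun _ => P.lO) (Q := fun i C z => z.2 0 = 0 → P.eta (z.2 1) / 2 - C * z.1 ^ N ≤
      val ((s.O i).kv gD expG 3 + (s.O i).kv gD expG 6 + (s.O i).kv gD expG 7) z)
      (fun i C C' hC => ?_) hl
    filter_upwards [A.eps.2.2.2.2.2.1] with z a1 a2 a3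
    linarith [a2 a3, mul_le_mul_of_nonneg_right hC (pow_pos a1 N).le]
  · refine unif (l := fun i => P.lL c i) (Q := fun i C z => P.Mu i (z.1 * z.2 0) (z.2 1) = 0 →
      0 ≤ z.2 0 → |val (s.Z i 1) z| ≤ C * z.1 ^ N) (fun i C C' hC => ?_) fun i => ?_
    · filter_upwards [(A' i).eps.2.2.2.2.2.1] with z a1 a2 a3 a4
      exact (a2 a3 a4).trans (mul_le_mul_of_nonneg_right hC (pow_pos a1 N).le)
    · have := om P c s θ (7 / 4) (N + 1) i hP g h0 h1 (by norm_num) (by norm_num) h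
      exact ga P c s θ (7 / 4) N i hP g h0 h1 (by norm_num) h.toBd this.1 this.2

end Pool.Agent.Lib.MP_df9110_gt
end

-- part Pool.Agent.Lib.MP_df9110_gt.Gam
section

/-! The correction `gam` is small on the curve `μ = 0`. -/

namespace Pool.Agent.Lib.MP_df9110_gt

open Filter Topology Set
open scoped ContDiff

namespace Gam

theorem alg {R : Type} [CommRing R] [Algebra ℝ R] {D : Fin 2 → R → R} {E : R → R} (hD : IsDer D)
    (hE : IsExp D E) {G : Lay R} (hb : LayBasic D E G) :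
    ∃ X, 2 * (G.P0 E * (D 0 (G.μ E) * D 1 G.gam - D 1 (G.μ E) * D 0 G.gam)) =
      G.P1 D E * G.τ₂ D E * E G.lCl * (G.out.Om D E - E (2 * G.gam) * G.Om D E) + G.μ E * X := by
  have Tm : ∀ a b, G.T D E (a * b) = a * G.T D E b + G.T D E a * b := fun a b => by
    simp only [Lay.T, hD.mul]; ring
  have Ta : ∀ a b, G.T D E (a + b) = G.T D E a + G.T D E b := fun a b => by
    simp only [Lay.T, hD.add]; ring
  have Tf : G.T D E (E (-(2 * G.gam))) = -(2 * E (-(2 * G.gam)) * G.T D E G.gam) := by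
    simp only [Lay.T, hE.der, hD.neg, hD.mul, hD.ofNat]; ring
  have h1 : G.out.Om D E = G.T D E ((G.Yo D E + G.μ E * 0) * E (-(G.lCl + 2 * 0))) -
      (G.mt D E + G.ek D E) * ((G.Yo D E + G.μ E * 0) * E (-(G.lCl + 2 * 0))) -
      G.ε * G.μ E ^ 2 * D 1 (G.out.W E * E (-G.out.lA)) := rfl
  simp only [mul_zero, add_zero] at h1
  have h2 : G.Y D E * E (-G.lC) = G.Yo D E * E (-G.lCl) * E (-(2 * G.gam)) +
      G.μ E * (G.w2 * E (-G.lC)) := by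
    rw [Lay.Y, Lay.lC, neg_add, hE.add]; ring
  have h3 : G.Om D E = G.T D E (G.Y D E * E (-G.lC)) - (G.mt D E + G.ek D E) *
      (G.Y D E * E (-G.lC)) - G.ε * G.μ E ^ 2 * D 1 (G.W E * E (-G.lA)) := rfl
  rw [h2, Ta, Tm, Tm (G.μ E), Tf, hb.Tμ] at h3
  have e1 : E (2 * G.gam) * E (-(2 * G.gam)) = 1 := by rw [← hE.add, add_neg_cancel, hE.zero]
  have e2 : E G.lCl * E (-G.lCl) = 1 := by rw [← hE.add, add_neg_cancel, hE.zero]
  have e3 : G.T D E G.gam = D 0 G.gam + G.ε * G.b D E * D 1 G.gam := rfl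
  have e4 : G.P1 D E = -(G.P0 E * D 1 (G.μ E)) := rfl
  refine ⟨G.P1 D E * G.τ₂ D E * E G.lCl * (E (2 * G.gam) * (G.T D E (G.w2 * E (-G.lC)) -
    G.ek D E * (G.w2 * E (-G.lC)) - G.ε * G.μ E * D 1 (G.W E * E (-G.lA))) +
    G.ε * G.μ E * D 1 (G.out.W E * E (-G.out.lA))) +
    2 * G.μ E * G.P0 E * G.τ₁ D E * (G.P1 D E * G.T D E G.gam + G.ε * D 1 G.gam), ?_⟩
  rw [h1, h3]
  linear_combination 2 * D 1 G.gam * hb.dμ - 2 * D 0 G.gam * e4 - 2 * G.P1 D E * e3 +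
    2 * G.ε * D 1 G.gam * hb.b₁ - 2 * G.P1 D E * G.T D E G.gam * hb.det -
    2 * G.P1 D E * G.τ₂ D E * G.Yo D E * G.T D E G.gam * e2 +
    G.P1 D E * G.τ₂ D E * E G.lCl * (G.T D E (G.Yo D E * E (-G.lCl)) -
      (G.mt D E + G.ek D E) * (G.Yo D E * E (-G.lCl)) -
      2 * G.Yo D E * E (-G.lCl) * G.T D E G.gam) * e1

theorem chain {f : En 2 → ℝ} {c : ℝ → En 2} {c' : En 2} {u : ℝ} (hc : HasDerivAt c c' u)
    (hf : DifferentiableAt ℝ f (c u)) :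
    HasDerivAt (fun t => f (c t)) (pdn 0 f (c u) * c' 0 + pdn 1 f (c u) * c' 1) u := by
  have h := hf.hasFDerivAt.comp_hasDerivAt u hc
  have e : c' = c' 0 • (Pi.single 0 1 : En 2) + c' 1 • (Pi.single 1 1 : En 2) := by
    ext j; fin_cases j <;> simp
  refine h.congr_deriv ?_
  conv_lhs => rw [e]
  simp only [map_add, map_smul, smul_eq_mul, pdn]
  ring

theorem curve {γ μ P0 : En 2 → ℝ} {c c' : ℝ → En 2} {a b e K : ℝ} (hab : a ≤ b) (he : 0 < e)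
    (hc : ∀ u ∈ Icc a b, HasDerivAt c (c' u) u ∧ |c' u 1| ≤ 1 ∧ DifferentiableAt ℝ γ (c u) ∧
      DifferentiableAt ℝ μ (c u) ∧ μ (c u) = 0 ∧ pdn 0 μ (c u) * P0 (c u) = e ∧
      |2 * (P0 (c u) * (pdn 0 μ (c u) * pdn 1 γ (c u) - pdn 1 μ (c u) * pdn 0 γ (c u)))| ≤ K) :
    |γ (c b) - γ (c a)| ≤ K / e * (b - a) := by
  rcases hab.eq_or_lt with rfl | hab
  · simp
  obtain ⟨u, hu, h⟩ := exists_hasDerivAt_eq_slope (fun t => γ (c t)) _ hab
    (fun u hu => (chain (hc u hu).1 (hc u hu).2.2.1).continuousAt.continuousWithinAt)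
    fun u hu => chain (hc u (Ioo_subset_Icc_self hu)).1 (hc u (Ioo_subset_Icc_self hu)).2.2.1
  obtain ⟨h1, h2, -, h4, -, h6, h7⟩ := hc u (Ioo_subset_Icc_self hu)
  have h0 : pdn 0 μ (c u) * c' u 0 + pdn 1 μ (c u) * c' u 1 = 0 :=
    (chain h1 h4).unique ((hasDerivAt_const u (0 : ℝ)).congr_of_eventuallyEq (by
      filter_upwards [Icc_mem_nhds hu.1 hu.2] with t ht using (hc t ht).2.2.2.2.1))
  have hba : 0 < b - a := sub_pos.2 hab
  rw [eq_div_iff hba.ne'] at h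
  have e1 : e * (pdn 0 γ (c u) * c' u 0 + pdn 1 γ (c u) * c' u 1) = c' u 1 *
      (P0 (c u) * (pdn 0 μ (c u) * pdn 1 γ (c u) - pdn 1 μ (c u) * pdn 0 γ (c u))) := by
    linear_combination P0 (c u) * pdn 0 γ (c u) * h0 -
      (pdn 0 γ (c u) * c' u 0 + pdn 1 γ (c u) * c' u 1) * h6
  rw [← h, abs_mul, abs_of_pos hba]
  refine mul_le_mul_of_nonneg_right ?_ hba.le
  rw [le_div_iff₀ he, ← abs_of_pos he, ← abs_mul, mul_comm, e1, abs_mul]
  rw [abs_mul, abs_two] at h7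
  nlinarith [abs_nonneg (c' u 1), abs_nonneg
    (P0 (c u) * (pdn 0 μ (c u) * pdn 1 γ (c u) - pdn 1 μ (c u) * pdn 0 γ (c u)))]

theorem first_hit {F : ℝ → ℝ} {a b m : ℝ} (hab : a ≤ b) (hF : ContinuousOn F (Icc a b))
    (ha : F a ≤ m) (hb : m ≤ F b) : ∃ u ∈ Icc a b, F u = m ∧ ∀ v ∈ Icc a u, F v ≤ m := by
  have hK : IsCompact (Icc a b ∩ F ⁻¹' {m}) := isCompact_Icc.of_isClosed_subset
    (hF.preimage_isClosed_of_isClosed isClosed_Icc isClosed_singleton) inter_subset_left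
  obtain ⟨u0, h0, h0'⟩ := intermediate_value_Icc hab hF ⟨ha, hb⟩
  obtain ⟨u, ⟨hu, hu'⟩, hm⟩ := hK.exists_isLeast ⟨u0, h0, h0'⟩
  refine ⟨u, hu, hu', fun v hv => not_lt.1 fun hlt => ?_⟩
  obtain ⟨w, hw, hw'⟩ := intermediate_value_Icc hv.1
    (hF.mono (Icc_subset_Icc_right (hv.2.trans hu.2))) ⟨ha, hlt.le⟩
  have : v = u := hv.2.antisymm ((hm ⟨⟨hw.1, hw.2.trans (hv.2.trans hu.2)⟩, hw'⟩).trans hw.2)
  rw [this, show F u = m from hu'] at hlt
  exact lt_irrefl _ hlt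

theorem exp_le (N : ℕ) {k e : ℝ} (hk : 0 < k) (he : 0 < e) :
    Real.exp (-(k / e)) ≤ N.factorial / k ^ N * e ^ N := by
  have h := Real.pow_div_factorial_le_exp (k / e) (div_pos hk he).le N
  have hN : (0 : ℝ) < N.factorial := by exact_mod_cast N.factorial_pos
  rw [Real.exp_neg, inv_le_comm₀ (Real.exp_pos _) (by positivity)]
  refine le_trans (le_of_eq ?_) h
  rw [div_pow]
  field_simp

theorem geo {P : Prof} (hP : P.Ok) (i : Fin 2) : Prof.sg i * Prof.sg i = 1 ∧ |Prof.sg i| = 1 ∧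
    (∀ x ∈ Ioo (P.lo i) (P.hi i), -P.δ < Prof.sg i * (x - P.xc i)) ∧
    (∀ u ∈ Icc 0 P.δ, P.xc i + Prof.sg i * u ∈ Ioo (P.lo i) (P.hi i)) ∧
    Icc (P.lo i) (P.hi i) ⊆ Icc (P.xL - P.δ) (P.xR + P.δ) := by
  have h0 := hP.δ_pos
  obtain ⟨h1, h2, h3⟩ := hP.ord
  obtain ⟨a1, a2, a3, a4⟩ := hP.ordJ false
  obtain ⟨b1, b2, b3, b4⟩ := hP.ordJ true
  fin_cases i <;> simp only [Prof.sg, Prof.lo, Prof.hi, Prof.xc, mem_Ioo, mem_Icc] <;>
    refine ⟨by simp, by simp, fun x hx => ?_, fun u hu => ⟨?_, ?_⟩, Icc_subset_Icc ?_ ?_⟩ <;>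
    simp at * <;> linarith

theorem core {P : Prof} (hP : P.Ok) {c : ℝ} (g : P.Geo c) (i : Fin 2) {ε κ C K : ℝ} (he : 0 < ε)
    (hκ : 0 < κ) (hC : 0 ≤ C) (hK : 0 ≤ K) {γ μ P0 : En 2 → ℝ}
    (hμ : ∀ p, μ p = P.Mu i (ε * p 0) (p 1))
    (h : ∀ p : En 2, -1 < p 0 → ε * p 0 < c → p 1 ∈ Ioo (P.lo i) (P.hi i) →
      DifferentiableAt ℝ γ p ∧ DifferentiableAt ℝ μ p ∧ pdn 0 μ p * P0 p = ε ∧
      (μ p = 0 → |2 * (P0 p * (pdn 0 μ p * pdn 1 γ p - pdn 1 μ p * pdn 0 γ p))| ≤ K) ∧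
      |γ p| ≤ C * Real.exp (-(κ * p 0)))
    {p : En 2} (h1 : ε * p 0 < c) (h2 : p 1 ∈ Ioo (P.lo i) (P.hi i))
    (h3 : P.Mu i (ε * p 0) (p 1) = 0) (h4 : 0 ≤ p 0) :
    |γ p| ≤ C * Real.exp (-(κ * c / 2 / ε)) + K / ε * P.δ := by
  obtain ⟨g1, g2, g3, g4, g5⟩ := geo hP i
  have hδ := hP.δ_pos
  have hc := g.pos
  set X : ℝ → ℝ := fun u => P.xc i + Prof.sg i * u with hX
  set F : ℝ → ℝ := fun u => P.d i (X u) / (2 * Real.exp (2 * P.L i (X u))) with hF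
  have dX : ∀ u, HasDerivAt X (Prof.sg i) u := fun u => by
    simpa only [id, mul_one] using ((hasDerivAt_id u).const_mul (Prof.sg i)).const_add (P.xc i)
  have sX : ∀ u, Prof.sg i * (X u - P.xc i) = u := fun u => by
    simp only [hX]; linear_combination u * g1
  have aX : ∀ u, |u| ≤ P.δ → |X u - P.xc i| ≤ P.δ := fun u hu => by
    simp only [hX]; rwa [add_sub_cancel_left, abs_mul, g2, one_mul]
  have hMu : ∀ u, |u| ≤ P.δ → ∀ s, P.Mu i s (X u) =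
      (F u - s) * (2 * Real.exp (2 * P.L i (X u))) / 4 := fun u hu s => by
    rw [Prof.Mu, (((hP.cap i).2 _ (aX u hu))).2]
    simp only [hF]
    field_simp
    ring
  have dF : ∀ u ∈ Icc 0 P.δ, DifferentiableAt ℝ F u := fun u hu => by
    have k1 := (hP.sm_d i _ (Ioo_subset_Icc_self (g4 u hu))).differentiableAt (by simp)
    have k2 := (hP.sm_L i _ (g5 (Ioo_subset_Icc_self (g4 u hu)))).differentiableAt (by simp)
    exact (k1.comp u (dX u).differentiableAt).div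
      (((k2.comp u (dX u).differentiableAt).const_mul 2).exp.const_mul 2) (by positivity)
  obtain ⟨α, hα, hlin⟩ := hP.lin i
  have sF : ∀ u, |u| ≤ P.δ → (0 ≤ F u ↔ 0 ≤ u) := fun u hu => by
    simp only [hF]
    rw [hlin _ (aX u hu), sX, le_div_iff₀ (by positivity), zero_mul, mul_nonneg_iff_of_pos_left hα]
  obtain ⟨a, ha⟩ : ∃ a, a = Prof.sg i * (p 1 - P.xc i) := ⟨_, rfl⟩
  have hXa : X a = p 1 := by simp only [hX, ha]; linear_combination (p 1 - P.xc i) * g1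
  have hs : 0 ≤ ε * p 0 := mul_nonneg he.le h4
  have a1 : a ≤ P.δ / 2 := ha ▸ g.cap i _ _ (Ioo_subset_Icc_self h2)
    (by rw [abs_of_nonneg hs]; exact h1.le) h3.le
  have a2 : |a| ≤ P.δ := abs_le.2 ⟨ha ▸ (g3 _ h2).le, by linarith⟩
  have a3 : F a = ε * p 0 := by
    rw [← hXa, hMu a a2] at h3
    have : (0 : ℝ) < 2 * Real.exp (2 * P.L i (X a)) := by positivity
    rw [div_eq_zero_iff, mul_eq_zero] at h3
    rcases h3 with (h3 | h3) | h3
    · linarith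
    · exact absurd h3 this.ne'
    · norm_num at h3
  have a0 : 0 ≤ a := (sF a a2).1 (a3 ▸ hs)
  have hFδ : c < F P.δ := by
    by_contra hn
    have k := g.cap i c (X P.δ) (Ioo_subset_Icc_self (g4 _ ⟨hδ.le, le_rfl⟩)) (abs_of_pos hc).le (by
      rw [hMu _ (abs_of_pos hδ).le]
      exact div_nonpos_of_nonpos_of_nonneg
        (mul_nonpos_of_nonpos_of_nonneg (by linarith) (by positivity)) (by norm_num))
    rw [sX] at k
    linarith
  have hm : max (c / 2) (F a) < c := max_lt (by linarith) (a3 ▸ h1)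
  obtain ⟨b, hb, b1, b2⟩ := first_hit (F := F) (a := a) (b := P.δ) (m := max (c / 2) (F a))
    (by linarith) (fun u hu => (dF u ⟨a0.trans hu.1, hu.2⟩).continuousAt.continuousWithinAt)
    (le_max_right _ _) (hm.trans hFδ).le
  have key : ∀ u ∈ Icc a b, u ∈ Icc 0 P.δ ∧ |u| ≤ P.δ ∧ ε * (F u / ε) = F u := fun u hu =>
    ⟨⟨a0.trans hu.1, hu.2.trans hb.2⟩, abs_le.2 ⟨by linarith [hu.1], hu.2.trans hb.2⟩,
      mul_div_cancel₀ _ he.ne'⟩
  have hin := fun u (hu : u ∈ Icc a b) => h ![F u / ε, X u]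
    (lt_of_lt_of_le (by norm_num) (div_nonneg ((sF u (key u hu).2.1).2 (key u hu).1.1) he.le))
    ((key u hu).2.2.trans_lt ((b2 u hu).trans_lt hm)) (g4 u (key u hu).1)
  have k1 := curve (γ := γ) (μ := μ) (P0 := P0) (c := fun u => ![F u / ε, X u])
    (c' := fun u => ![deriv F u / ε, Prof.sg i]) (K := K) hb.1 he fun u hu => by
      obtain ⟨q1, q2, q3, q4, -⟩ := hin u hu
      have q0 : μ ![F u / ε, X u] = 0 := by
        rw [hμ]
        change P.Mu i (ε * (F u / ε)) (X u) = 0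
        rw [(key u hu).2.2, hMu u (key u hu).2.1]
        simp
      refine ⟨hasDerivAt_pi.2 fun j => ?_, g2.le, q1, q2, q0, q3, q4 q0⟩
      fin_cases j
      · exact (dF u (key u hu).1).hasDerivAt.div_const ε
      · exact dX u
  have k2 : |γ ![F b / ε, X b]| ≤ C * Real.exp (-(κ * (F b / ε))) :=
    (hin b ⟨hb.1, le_rfl⟩).2.2.2.2
  have k3 : ![F a / ε, X a] = p := by
    ext j
    fin_cases j
    · change F a / ε = p 0
      rw [a3, mul_div_cancel_left₀ _ he.ne']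
    · exact hXa
  rw [k3] at k1
  have k4 : Real.exp (-(κ * (F b / ε))) ≤ Real.exp (-(κ * c / 2 / ε)) := by
    rw [Real.exp_le_exp, neg_le_neg_iff, mul_div_assoc, mul_div_assoc, b1]
    gcongr
    exact le_max_left _ _
  have k5 : K / ε * (b - a) ≤ K / ε * P.δ := by
    gcongr
    linarith [hb.2]
  have k6 := abs_sub_abs_le_abs_sub (γ p) (γ ![F b / ε, X b])
  rw [abs_sub_comm] at k6
  linarith [mul_le_mul_of_nonneg_left k4 hC]

theorem pt {l : Filter Z2} [OpF l] {M e : SmF l} {P0 γ H X : SG l}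
    (h1 : gD 0 (mkG l M) * P0 = mkG l e)
    (h2 : 2 * (P0 * (gD 0 (mkG l M) * gD 1 γ - gD 1 (mkG l M) * gD 0 γ)) = H + mkG l M * X) :
    ∀ᶠ z in l, pdn 0 (M.1 z.1) z.2 * (rep P0).1 z.1 z.2 = e.1 z.1 z.2 ∧
      2 * ((rep P0).1 z.1 z.2 * (pdn 0 (M.1 z.1) z.2 * pdn 1 ((rep γ).1 z.1) z.2 -
        pdn 1 (M.1 z.1) z.2 * pdn 0 ((rep γ).1 z.1) z.2)) =
        (rep H).1 z.1 z.2 + M.1 z.1 z.2 * (rep X).1 z.1 z.2 := by
  have e1 : mkG l (sfD l 0 M * rep P0) = mkG l e := by rw [map_mul, mkG_sfD, mkG_rep, h1]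
  have e2 : mkG l (2 * (rep P0 * (sfD l 0 M * sfD l 1 (rep γ) - sfD l 1 M * sfD l 0 (rep γ)))) =
      mkG l (rep H + M * rep X) := by
    simp only [map_mul, map_sub, map_add, map_ofNat, mkG_sfD, mkG_rep, h2]
  exact (mkG_eq.1 e1).and (mkG_eq.1 e2)

end Gam

theorem gamS (_b1 : B1Stmt) (b2 : B2Stmt) (av : AvgStmt) (_wt : WtStmt) (c1 : Cid1Stmt)
    (lb : LayBasicStmt) : GamStmt := by
  intro P c s θ κ N i hP g hθ hθ1 hκ hB hOm hOo
  have W := wr_SG b2 (P.lL c i)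
  have A : AvgFacts (P.lL c i) (P.lo i) (P.hi i) := av.1 c _ _ g.pos
  obtain ⟨gf, -⟩ := c1 P c g s θ κ 1 i hP hθ hθ1 hκ hB
    ⟨contDiff_const, fun _ => ⟨zero_le_one, le_rfl⟩, 1, one_pos, fun _ _ => rfl⟩
  have hb := lb _ gD expG (s.G 1 i) isDer_gD W.isExp A.e16 gf.ok
  obtain ⟨X, hX⟩ := Gam.alg isDer_gD W.isExp hb
  have hγ : (s.G 1 i).gam = s.Z i 1 := by
    change mG _ 1 * s.Z i 1 = _
    rw [show mG (P.lL c i) 1 = 1 from (gm_eq (one_mem _)).trans (map_one _), one_mul]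
  obtain ⟨C2, hH⟩ := (W.mul1 (W.mul11 (W.mul11 (Lay.P_P1 W gf.all) (Lay.P_τ₂ W gf.all))
    (Lay.P_E_lCl W gf.all)) (W.sub hOo (W.mul1 (W.E1 (W.mul11 (W.ofNat 2) gf.all.gam)) hOm))).2 0
  obtain ⟨C1, hZ⟩ := (W.sml' (W.sml_mul A.eps.2.2.2.1 ((g.w_one θ hθ.le).2 i)) (hB.Z i 1)).2 0
  generalize (s.G 1 i).P1 gD expG * (s.G 1 i).τ₂ gD expG * expG (s.G 1 i).lCl *
    ((s.G 1 i).out.Om gD expG - expG (2 * (s.G 1 i).gam) * (s.G 1 i).Om gD expG) = H at hX hH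
  have hMs : (fun ε (p : En 2) => P.Mu i (ε * p 0) (p 1)) ∈ SmF (P.lL c i) := (g.pull i).smooth 0
  have hd := hb.dμ
  rw [show (s.G 1 i).ε = mkG _ ⟨_, A.eps.1⟩ from gm_eq A.eps.1] at hd
  rw [hγ] at hX
  rw [gf.mu, gm_eq hMs] at hX hd
  refine ⟨|C1| * (N.factorial / (κ * c / 2) ^ N) + |C2| * P.δ, ev_fam.2 ?_⟩
  filter_upwards [ev_fam.1 ((Gam.pt hd hX).and (hH.and (hZ.and
    (Eventually.and hMs (rep (s.Z i 1)).2)))), self_mem_nhdsWithin] with ε h he p hp h3 h4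
  have he : 0 < ε := he
  have k := Gam.core hP g i he hκ (abs_nonneg C1) (K := |C2| * ε ^ (N + 1)) (by positivity)
    (γ := (rep (s.Z i 1)).1 ε) (P0 := (rep ((s.G 1 i).P0 expG)).1 ε) (fun _ => rfl)
    (fun q q1 q2 q3 => by
      obtain ⟨⟨r1, r7⟩, r3, r4, r5, r6⟩ := h q ⟨q1, q2, q3⟩
      refine ⟨r6.differentiableAt (by simp), r5.differentiableAt (by simp), r1, fun h0 => ?_, ?_⟩
      · have r8 : |(rep H).1 ε q| ≤ C2 * |ε ^ (N + 1)| := r3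
        rw [h0, zero_mul, add_zero] at r7
        rw [abs_of_pos (pow_pos he _)] at r8
        exact (congrArg abs r7).trans_le (r8.trans (by gcongr; exact le_abs_self _))
      · have r8 : |(rep (s.Z i 1)).1 ε q| ≤ C1 * |Real.exp (-(κ * q 0))| := r4
        rw [abs_of_pos (Real.exp_pos _)] at r8
        exact r8.trans (by gcongr; exact le_abs_self _)) hp.2.1 hp.2.2 h3 h4
  have k2 := mul_le_mul_of_nonneg_left
    (Gam.exp_le N (k := κ * c / 2) (by have := g.pos; positivity) he) (abs_nonneg C1)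
  have k3 : |C2| * ε ^ (N + 1) / ε = |C2| * ε ^ N := by
    rw [pow_succ, ← mul_assoc, mul_div_cancel_right₀ _ he.ne']
  rw [k3] at k
  change |(rep (s.Z i 1)).1 ε p| ≤ _ * ε ^ N
  linarith

end Pool.Agent.Lib.MP_df9110_gt
end

-- part Pool.Agent.Lib.MP_df9110_gt.Lg
section

/-! The logarithmic correction of the initial outer fields. -/

namespace Pool.Agent.Lib.MP_df9110_gt

open Filter Topology Set
open scoped ContDiff

namespace Lg

theorem cda_deriv {f : ℝ → ℝ} {x : ℝ} (h : ContDiffAt ℝ ∞ f x) : ContDiffAt ℝ ∞ (deriv f) x :=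
  (h.fderiv_right (m := ∞) (by simp)).clm_apply (contDiffAt_const (c := (1 : ℝ)))

theorem cda_iter {f : ℝ → ℝ} {x : ℝ} (h : ContDiffAt ℝ ∞ f x) (k : ℕ) :
    ContDiffAt ℝ ∞ (iteratedDeriv k f) x := by
  induction k with
  | zero => simpa using h
  | succ k ih => rw [iteratedDeriv_succ]; exact cda_deriv ih

theorem bdd {f : ℝ → ℝ} {a b : ℝ} (h : ∀ x ∈ Icc a b, ContDiffAt ℝ ∞ f x) (k : ℕ) :
    ∃ C : ℝ, ∀ x ∈ Icc a b, |iteratedDeriv k f x| ≤ C :=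
  isCompact_Icc.exists_bound_of_continuousOn fun x hx =>
    (cda_iter (h x hx) k).continuousAt.continuousWithinAt

/-- `χ e^{2L}`. -/
noncomputable def gf (P : Prof) (i : Fin 2) (x : ℝ) : ℝ := P.χ i x * Real.exp (2 * P.L i x)

variable {P : Prof}

theorem sm_g (h : P.Ok) (i : Fin 2) (x : ℝ) (hx : x ∈ Icc (P.xL - P.δ) (P.xR + P.δ)) :
    ContDiffAt ℝ ∞ (gf P i) x :=
  (h.sm_χ i x hx).mul (contDiffAt_const.mul (h.sm_L i x hx)).exp

theorem sub_Icc (h : P.Ok) (J : Bool) {x : ℝ} (hx : x ∈ Ioo (P.pl J) (P.pr J)) :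
    x ∈ Icc (P.xL - P.δ) (P.xR + P.δ) := by
  obtain ⟨o1, o2, o3⟩ := h.ord
  obtain ⟨a1, a2, a3, a4⟩ := h.ordJ false
  obtain ⟨b1, b2, b3, b4⟩ := h.ordJ true
  have := h.δ_pos
  obtain ⟨x1, x2⟩ := hx
  cases J <;> constructor <;> linarith

theorem der_g (h : P.Ok) (J : Bool) (i : Fin 2) {x : ℝ} (hx : x ∈ Ioo (P.pl J) (P.pr J)) :
    deriv (gf P i) x = 2 * deriv (P.L i - P.Lp J i) x * gf P i x := by
  have hx' := Ioo_subset_Icc_self hx
  have d1 := ((h.sm_χ i x (sub_Icc h J hx)).differentiableAt (by simp)).hasDerivAt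
  have d2 := ((h.sm_L i x (sub_Icc h J hx)).differentiableAt (by simp)).hasDerivAt
  have d3 := ((h.sm_p J i x hx').1.differentiableAt (by simp)).hasDerivAt
  have d4 := ((h.sm_p J i x hx').2.differentiableAt (by simp)).hasDerivAt
  obtain ⟨p1, p2, -, p4, -⟩ := (h.prod J x hx').2.2 i
  have e : (P.χ i * P.dp J i) =ᶠ[𝓝 x] fun _ => 1 := by
    filter_upwards [isOpen_Ioo.mem_nhds hx] with y hy
    exact ((h.prod J y (Ioo_subset_Icc_self hy)).2.2 i).2.1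
  have e1 := (d1.mul d3).unique ((hasDerivAt_const x (1 : ℝ)).congr_of_eventuallyEq e)
  rw [p4] at e1
  have e2 : deriv (P.χ i) x = -(2 * deriv (P.Lp J i) x * P.χ i x) :=
    mul_right_cancel₀ p1.ne' (by linear_combination e1)
  have e3 : HasDerivAt (gf P i) _ x := d1.mul (d2.const_mul 2).exp
  rw [e3.deriv, (d2.sub d4).deriv, e2, gf]
  ring

theorem bd_g (h : P.Ok) (i : Fin 2) {θ : ℝ} (h0 : 0 < θ) (h1 : θ < 1) (k : ℕ) :
    ∃ C : ℝ, ∀ x ∈ Ioo (P.xL - P.δ) (P.xR + P.δ),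
      |iteratedDeriv k (deriv (gf P i)) x| ≤ C * |P.eta x ^ θ| := by
  choose B hB using bdd (sm_g h i)
  choose D hD using h.dev θ h0 h1
  obtain ⟨c, hc, hη⟩ := h.eta_pos
  have hc' : 0 < c ^ θ := Real.rpow_pos_of_pos hc θ
  refine ⟨max (B (k + 1) / c ^ θ)
    (∑ j ∈ Finset.range (k + 1), k.choose j * (2 * D (j + 1)) * B (k - j)), fun x hx => ?_⟩
  have hx' := Ioo_subset_Icc_self hx
  have w0 : 0 ≤ P.eta x ^ θ := Real.rpow_nonneg (h.eta_nonneg x hx') θ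
  rw [abs_of_nonneg w0]
  by_cases hq : ∀ J, x ∉ Icc (P.ql J) (P.qr J)
  · refine le_trans ?_ (mul_le_mul_of_nonneg_right (le_max_left _ _) w0)
    have b1 := hB (k + 1) x hx'
    rw [iteratedDeriv_succ'] at b1
    have b2 : c ^ θ ≤ P.eta x ^ θ := Real.rpow_le_rpow hc.le (hη x hx' hq) h0.le
    calc _ ≤ B (k + 1) / c ^ θ * c ^ θ := by rwa [div_mul_cancel₀ _ hc'.ne']
      _ ≤ _ := mul_le_mul_of_nonneg_left b2 (div_nonneg ((abs_nonneg _).trans b1) hc'.le)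
  · push Not at hq
    obtain ⟨J, hJ⟩ := hq
    have hx2 : x ∈ Ioo (P.pl J) (P.pr J) :=
      ⟨(h.ordJ J).1.trans_le hJ.1, hJ.2.trans_lt (h.ordJ J).2.2.2⟩
    refine le_trans ?_ (mul_le_mul_of_nonneg_right (le_max_right _ _) w0)
    have e : deriv (gf P i) =ᶠ[𝓝 x] (fun y => 2 * deriv (P.L i - P.Lp J i) y) * gf P i := by
      filter_upwards [isOpen_Ioo.mem_nhds hx2] with y hy using der_g h J i hy
    have s1 : ContDiffAt ℝ ∞ (fun y => 2 * deriv (P.L i - P.Lp J i) y) x :=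
      contDiffAt_const.mul (cda_deriv ((h.sm_L i x hx').sub
        (h.sm_p J i x (Ioo_subset_Icc_self hx2)).2))
    rw [e.iteratedDeriv_eq, iteratedDeriv_mul (s1.of_le (by exact_mod_cast le_top))
      ((sm_g h i x hx').of_le (by exact_mod_cast le_top)), Finset.sum_mul]
    refine (Finset.abs_sum_le_sum_abs _ _).trans (Finset.sum_le_sum fun j _ => ?_)
    have b1 := (hD (j + 1) J i x hx2).1
    rw [iteratedDeriv_succ'] at b1
    rw [iteratedDeriv_const_mul_field, abs_mul, abs_mul, abs_mul, Nat.abs_cast, abs_two]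
    calc _ ≤ k.choose j * (2 * (D (j + 1) * P.eta x ^ θ)) * B (k - j) := by
          have := (abs_nonneg _).trans b1
          gcongr
          exact hB _ x hx'
      _ = _ := by ring

end Lg

theorem lgS (_b1 : B1Stmt) (b2 : B2Stmt) (av : AvgStmt) (_wt : WtStmt) : LgStmt := by
  intro P h θ i h0 h1
  have A : AvgFacts P.lO (P.xL - P.δ) (P.xR + P.δ) := (av.2 _ _ _).1
  have B : B2Facts P.lO 1 := b2 ℝ 2 P.lO 1 fun _ => zero_le_one
  have sχ := (A.xfun _ fun x hx => h.sm_χ i x (Ioo_subset_Icc_self hx)).1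
  have sL := (A.xfun _ fun x hx => h.sm_L i x (Ioo_subset_Icc_self hx)).1
  obtain ⟨sg, -, g1, -⟩ := A.xfun _ fun x hx => Lg.sm_g h i x (Ioo_subset_Icc_self hx)
  obtain ⟨sε, pε, dε, wε, tε, -, -⟩ := A.eps
  have e1 : xG P.lO (P.χ i) * expG (2 * xG P.lO (P.L i)) = xG P.lO (Lg.gf P i) := by
    rw [xG, xG, xG, gm_eq sχ, gm_eq sL, gm_eq sg, ← map_ofNat (mkG P.lO) 2, ← map_mul,
      (B.exp_mk _).1, gm_eq (B.exp_mk _).2, ← map_mul, mkG_eq]
    exact Eventually.of_forall fun z => rfl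
  set φ : SG P.lO := 1 + εG _ * xG P.lO (Lg.gf P i) with hφ
  have e2 : P.Li i - xG _ (P.L i) = -logG φ := by
    rw [Prof.Li, lgG, mul_assoc, e1, sub_sub_cancel_left]
  have p1 : PG 1 eW (εG P.lO * xG P.lO (Lg.gf P i)) := by
    simpa using B.mul pε (A.xbd _ (Lg.sm_g h i))
  have pos : PosG φ := by
    refine B.pos_add ?_ p1 tε
    rw [← map_one (mkG P.lO), B.pos_iff]
    exact ⟨1, one_pos, Eventually.of_forall fun z => le_rfl⟩
  have p2 : PG 1 eW (logG φ) := B.log_sub wε pos (by rwa [hφ, add_sub_cancel_left])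
  have p3 : PG 1 eW (-logG φ) := by simpa using B.smul (-1) p2
  refine ⟨?_, e2 ▸ p3, ?_⟩
  · have e3 : gD 1 φ = εG _ * xG P.lO (deriv (Lg.gf P i)) := by
      rw [hφ, isDer_gD.add, isDer_gD.mul, isDer_gD.one, dε, g1, zero_mul, add_zero, zero_add]
    have e4 : gD 1 (-logG φ) = (-1 : ℝ) • (expG (-logG φ) * gD 1 φ) := by
      have := B.exp_der (logG φ) 1
      rw [B.exp_log pos] at this
      have e5 : expG (-logG φ) * φ = 1 := by
        conv_lhs => rw [← B.exp_log pos, B.log_exp]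
        rw [← B.exp_add, neg_add_cancel, B.exp_zero]
      rw [isDer_gD.neg, this, ← mul_assoc, e5, one_mul, neg_smul, one_smul]
    have p4 := (A.xfun _ fun x hx => Lg.cda_deriv (Lg.sm_g h i x (Ioo_subset_Icc_self hx))).2.2.2
      _ (Lg.bd_g h i h0 h1)
    rw [e2, e4, e3]
    simpa [Prof.wW] using B.smul (-1) (B.mul (B.exp_bd (B.mono p3 wε)).1 (B.mul pε p4))
  · have e3 : φ = mkG P.lO (1 + ⟨_, sε⟩ * ⟨_, sg⟩) := by
      rw [hφ, εG, xG, gm_eq sε, gm_eq sg, map_add, map_one, map_mul]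
    have l := B.log_mk _ (e3 ▸ pos)
    have e4 : P.Li i = mkG P.lO (⟨_, sL⟩ - ⟨_, l.2⟩) := by
      rw [map_sub, ← gm_eq l.2, ← l.1, ← e3, ← gm_eq sL, sub_eq_add_neg, ← e2, xG]
      ring
    filter_upwards [mkG_eq.1 ((mkG_rep (P.Li i)).trans e4)] with z hz
    rw [val, hz, mul_assoc]
    rfl

end Pool.Agent.Lib.MP_df9110_gt
end

-- part Pool.Agent.Lib.MP_df9110_gt.Om
section

/-! The curl of the soliton vector field of the formal solution is small. -/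

namespace Pool.Agent.Lib.MP_df9110_gt

open Filter Topology Set
open scoped ContDiff

namespace Om

section Alg

variable {R W : Type} [CommRing R] [Algebra ℝ R] [CommMonoid W] {D : Fin 2 → R → R}
  {E Lg : R → R} {P : W → R → Prop} {Pos : R → Prop} {Sml : W → Prop} (h : WR D E Lg P Pos Sml)
include h

theorem biL_sub (G : Lay R) (a b : R) : G.biL D E (a - b) = G.biL D E a - G.biL D E b := by
  have hT : ∀ a b, G.T D E (a - b) = G.T D E a - G.T D E b := fun a b => by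
    simp only [Lay.T, h.der.sub]; ring
  have hS : ∀ a b, G.Sd D E (a - b) = G.Sd D E a - G.Sd D E b := fun a b => by
    simp only [Lay.Sd, h.der.sub]; ring
  have h2 : G.lam₂ D E (a - b) = G.lam₂ D E a - G.lam₂ D E b := by
    simp only [Lay.lam₂, hT]; ring
  have h1 : G.lam₁ D E (a - b) = G.lam₁ D E a - G.lam₁ D E b := by
    simp only [Lay.lam₁, hS]; ring
  simp only [Lay.biL, h1, h2, hT, hS, sub_mul, h.der.sub]
  ring

theorem pair_facts {v : W} (hv : Sml v) {A B : Lay R}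
    (hAB : (Gen.pairLay A B).All (pairP P v 1)) :
    P v (B.Om D E - A.Om D E) ∧ P v (B.al E * E B.lA - A.al E * E A.lA) ∧
      P v (B.cO D E - A.cO D E) ∧ P v (B.Ao D E - A.Ao D E) := by
  have hp := h.pair hv
  have f1 := Gen.fst_D D
  have f2 := Gen.fst_E E
  have g1 := Gen.snd_D D
  have g2 := Gen.snd_E E
  refine ⟨?_, ?_, ?_, ?_⟩
  · have e1 : A.Om D E = _ := Lay.map_Om _ f1 f2 (Gen.pairLay A B)
    have e2 : B.Om D E = _ := Lay.map_Om _ g1 g2 (Gen.pairLay A B)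
    rw [e1, e2]
    exact h.congr (Lay.P_Om hp hAB).2 (one_mul v)
  · exact h.congr (hp.mul11 (Lay.P_al hp hAB) (Lay.P_E_lA hp hAB)).2 (one_mul v)
  · have e1 : A.cO D E = _ := Lay.map_cO _ f1 f2 (Gen.pairLay A B)
    have e2 : B.cO D E = _ := Lay.map_cO _ g1 g2 (Gen.pairLay A B)
    rw [e1, e2]
    exact h.congr (Lay.P_cO hp hAB).2 (one_mul v)
  · have e1 : A.Ao D E = _ := Lay.map_Ao _ f1 f2 (Gen.pairLay A B)
    have e2 : B.Ao D E = _ := Lay.map_Ao _ g1 g2 (Gen.pairLay A B)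
    rw [e1, e2]
    exact h.congr (Lay.P_Ao hp hAB).2 (one_mul v)

theorem of_sub {w : W} {a b : R} (ha : P w a) (hb : P w (a - b)) : P w b := by
  simpa using h.sub ha hb

theorem of_sub' {w : W} {a b : R} (ha : P w (a - b)) (hb : P w b) : P w a := by
  simpa using h.add ha hb

theorem pr0 {v : W} {a : R} (ha : P v a) : pairP P v 1 (0, a) :=
  ⟨h.zero _, by simpa using ha⟩

omit [Algebra ℝ R] h in
theorem pr1 {v : W} {a b : R} (ha : P 1 a) (hb : P v (b - a)) : pairP P v 1 (a, b) :=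
  ⟨ha, by simpa using hb⟩

theorem all_out {v : W} {G : Lay R} (hG : G.All (P 1)) (h1 : P v G.y) (h2 : P v G.yp)
    (h3 : P v G.lam) (h4 : P v G.gam) (h5 : P v G.nu) (h6 : P v G.w1) (h7 : P v G.w2) :
    (Gen.pairLay G.out G).All (pairP P v 1) :=
  ⟨h.pair_diag hG.ε, h.pair_diag hG.s0, pr0 h h1, pr0 h h2, h.pair_diag hG.et, h.pair_diag hG.d,
    h.pair_diag hG.chi, h.pair_diag hG.L, h.pair_diag hG.la, h.pair_diag hG.bp, h.pair_diag hG.lc,
    h.pair_diag hG.uw, h.pair_diag hG.uo, pr0 h h3, pr0 h h4, pr0 h h5, pr0 h h6, pr0 h h7,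
    h.pair_diag hG.rho, h.pair_diag hG.xi1, h.pair_diag hG.lq, h.pair_diag hG.lAo,
    h.pair_diag hG.leh⟩

theorem all_lead {v : W} (hv : Sml v) {G : Lay R} (hG : G.All (P 1)) {L₂ : R} (hL : P 1 L₂)
    (ok : G.Ok D E) (hA : E (-(2 * G.L)) = (lead G.y G.yp G.et G.d G.chi G.L L₂ G.leh 0 0 0).Ao D E)
    (h1 : P v G.ε) (h2 : P v G.s0) (h3 : P v G.la) (h4 : P v G.bp) (h5 : P v G.lc)
    (h6 : P v (G.uw - G.L)) (h7 : P v (G.uo - L₂)) (h8 : P v G.lam) (h9 : P v G.gam)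
    (h10 : P v G.nu) (h11 : P v G.w1) (h12 : P v G.w2) (h13 : P v G.rho) (h14 : P v G.xi1) :
    (Gen.pairLay (lead G.y G.yp G.et G.d G.chi G.L L₂ G.leh 0 0 0) G).All (pairP P v 1) := by
  have hq : P v G.lq := by
    rw [← h.Lg_E G.lq]
    refine h.Lg_sub hv (h.E_bd hG.lq).2 ?_
    rw [ok.lq, Lay.q, add_sub_cancel_left]
    exact h.mul1 hG.chi (h.mul1' h2 (Lay.P_psi h hG))
  have h2L : P 1 (-(2 * G.L)) := h.neg (h.mul11 (h.ofNat 2) hG.L)
  rw [← add_zero G.L] at h6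
  rw [← add_zero L₂] at h7
  have key : ∀ a b : R, pairP P v 1 (a, b) → (Gen.pairLay
      { lead G.y G.yp G.et G.d G.chi G.L L₂ G.leh 0 0 0 with lAo := a } { G with lAo := b }).All
      (pairP P v 1) := fun a b hab =>
    ⟨pr0 h h1, pr0 h h2, h.pair_diag hG.y, h.pair_diag hG.yp, h.pair_diag hG.et, h.pair_diag hG.d,
      h.pair_diag hG.chi, h.pair_diag hG.L, pr0 h h3, pr0 h h4, pr0 h h5,
      pr1 (h.add hG.L (h.zero 1)) h6, pr1 (h.add hL (h.zero 1)) h7, pr0 h h8, pr0 h h9, pr0 h h10, pr0 h h11, pr0 h h12, pr0 h h13,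
      pr0 h h14, pr0 h hq, hab, h.pair_diag hG.leh⟩
  have k1 : P v (G.Ao D E - (lead G.y G.yp G.et G.d G.chi G.L L₂ G.leh 0 0 0).Ao D E) :=
    (pair_facts h hv (key 0 0 (h.pair_diag (h.zero 1)))).2.2.2
  rw [← hA, ← ok.lAo] at k1
  have k2 := h.Lg_diff hv (h.E_bd h2L).2 (h.E_bd hG.lAo).2 (by rwa [h.Lg_E]) k1
  rw [h.Lg_E, h.Lg_E] at k2
  exact key _ _ (pr1 h2L k2)

theorem step_alg {G : Lay R} (hG : G.All (P 1)) {v w : W} (hε : P v G.ε)
    (h1 : P v (G.al E * E G.lA - E (-(2 * G.L)) * (1 - G.y)))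
    (h2 : P v (G.cO D E - 2 * E (-(2 * G.L)))) {f : R} (hf : P w f) :
    P (v * w) ((1 - G.y) * D 0 f + 2 * f - E (2 * G.L) * G.lam₂ D E f) := by
  have e : (1 - G.y) * D 0 f + 2 * f - E (2 * G.L) * G.lam₂ D E f =
      -(E (2 * G.L) * ((G.al E * E G.lA - E (-(2 * G.L)) * (1 - G.y)) * G.T D E f +
        (G.cO D E - 2 * E (-(2 * G.L))) * f) + (1 - G.y) * (G.T D E f - D 0 f)) := by
    rw [Lay.lam₂]
    linear_combination (-((1 - G.y) * G.T D E f + 2 * f)) * h.E_neg (2 * G.L)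
  rw [e]
  exact h.neg (h.add (h.mul1 (h.E1 (h.mul11 (h.ofNat 2) hG.L))
    (h.add (h.mul h1 (Lay.P_T h hG hf)) (h.mul h2 hf)))
    (h.mul1 (h.sub h.one hG.y) (Lay.Pe_T h hG hε hf)))

theorem div_P0 {G : Lay R} (hG : G.All (P 1)) {w : W} {f : R} (hf : P w (f * G.P0 E)) : P w f := by
  have e : f = f * G.P0 E * ((-1 / 2 : ℝ) • (E (2 * G.L) * E (-(2 * G.lq)))) := by
    have h1 := h.E_neg (2 * G.L)
    have h2 := h.E_neg (2 * G.lq)
    rw [Lay.P0]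
    linear_combination (norm := algebra) (-f) * h1 -
      f * (E (2 * G.L) * E (-(2 * G.L))) * h2
  rw [e]
  exact h.mul1' hf (h.smul _ (h.mul11 (h.E1 (h.mul11 (h.ofNat 2) hG.L))
    (h.E1 (h.neg (h.mul11 (h.ofNat 2) hG.lq)))))

end Alg

section Wt

variable {l : Filter Z2} {a b c : Z2 → ℝ}

theorem wle_eq (h : ∀ᶠ z in l, a z = b z) : WLe l a b :=
  ⟨1, h.mono fun z hz => by rw [hz, one_mul]⟩

theorem wle_rfl : WLe l a a := wle_eq (Eventually.of_forall fun _ => rfl)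

theorem wle_trans (h : WLe l a b) (h' : WLe l b c) : WLe l a c := by
  obtain ⟨C, hC⟩ := h
  obtain ⟨C', hC'⟩ := h'
  refine ⟨|C| * C', (hC.and hC').mono fun z hz => hz.1.trans ?_⟩
  rw [mul_assoc]
  exact (mul_le_mul_of_nonneg_right (le_abs_self C) (abs_nonneg _)).trans
    (mul_le_mul_of_nonneg_left hz.2 (abs_nonneg _))

theorem wle_mul (u : Z2 → ℝ) (h : WLe l a b) : WLe l (u * a) (u * b) := by
  obtain ⟨C, hC⟩ := h
  refine ⟨C, hC.mono fun z hz => ?_⟩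
  rw [Pi.mul_apply, Pi.mul_apply, abs_mul, abs_mul, mul_left_comm]
  exact mul_le_mul_of_nonneg_left hz (abs_nonneg _)

theorem wle_one (u : Z2 → ℝ) (h : WLe l a 1) : WLe l (u * a) u := by simpa using wle_mul u h

theorem wle_add (h : WLe l a c) (h' : WLe l b c) : WLe l (a + b) c := by
  obtain ⟨C, hC⟩ := h
  obtain ⟨C', hC'⟩ := h'
  refine ⟨C + C', (hC.and hC').mono fun z hz => (abs_add_le _ _).trans ?_⟩
  rw [add_mul]
  exact add_le_add hz.1 hz.2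

theorem wle_left (h : ∀ᶠ z in l, 0 ≤ a z ∧ 0 ≤ b z) : WLe l a (a + b) :=
  ⟨1, h.mono fun z hz => by
    rw [one_mul, Pi.add_apply, abs_of_nonneg hz.1, abs_of_nonneg (add_nonneg hz.1 hz.2)]
    exact le_add_of_nonneg_right hz.2⟩

theorem wle_pow (h : WLe l eW 1) {j k : ℕ} (hjk : j ≤ k) : WLe l (eW ^ k) (eW ^ j) := by
  induction k, hjk using Nat.le_induction with
  | base => exact wle_rfl
  | succ k _ ih => rw [pow_succ]; exact wle_trans (wle_one _ h) ih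

theorem wt_nonneg (h : ∀ᶠ z in l, 0 < z.1) (j N : ℕ) (k : ℝ) :
    ∀ᶠ z in l, 0 ≤ (eW ^ j * dW k) z ∧ 0 ≤ (eW ^ N) z :=
  h.mono fun _ hz => ⟨mul_nonneg (pow_nonneg hz.le j) (Real.exp_pos _).le, pow_nonneg hz.le N⟩

theorem wt_left (h : ∀ᶠ z in l, 0 < z.1) (j N : ℕ) (k : ℝ) :
    WLe l (eW ^ j * dW k) (eW ^ j * dW k + eW ^ N) := wle_left (wt_nonneg h j N k)

theorem wt_right (h : ∀ᶠ z in l, 0 < z.1) (j N : ℕ) (k : ℝ) :
    WLe l (eW ^ N) (eW ^ j * dW k + eW ^ N) := by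
  rw [add_comm]; exact wle_left ((wt_nonneg h j N k).mono fun _ hz => hz.symm)

theorem isCut_one : IsCut 1 :=
  ⟨contDiff_const, fun _ => ⟨zero_le_one, le_rfl⟩, 1, one_pos, fun _ _ => rfl⟩

theorem dW_zero : dW 0 = 1 := by
  funext z
  simp [dW]

end Wt

/-- The outer loop. -/
theorem outer {l : Filter Z2} [OpF l] {a b : ℝ} (b2 : B2Stmt) (A : AvgFacts l a b)
    (hc : PG 1 1 (cG l)) {O : Out (SG l)} (hO : O.All (PG 1 1)) (hμ : O.μ = cG l)
    (hla : ev0 O.la = 0) {M : ℕ} (herr : ∀ k, PG 1 (eW ^ M) (O.err gD expG k))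
    (hb : εG l * O.biL gD expG (O.Om gD expG) - gD 0 (O.Om gD expG) =
      O.biR gD expG (O.err gD expG)) : PG 1 (eW ^ M) (O.Om gD expG) := by
  have h := wr_SG b2 l
  have B := b2 ℝ 2 l 1 fun _ => zero_le_one
  have h0 : ev0 (O.Om gD expG) = 0 := by
    have e : ∀ φ, ev0 φ = A.pull0.hom φ := pb_eq A.pull0
    have e1 := A.ev_D1 O.la
    rw [hla, h.der.zero, e] at e1
    have e2 := A.ev_c
    rw [e] at e2
    rw [e, Out.Om, map_sub, map_smul, map_mul, map_mul, ← e1, hμ, e2]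
    simp
  have key : ∀ j ≤ M, PG 1 (eW ^ j) (O.Om gD expG) := by
    intro j
    induction j with
    | zero => exact fun _ => by rw [pow_zero]; exact Out.P_Om h hO
    | succ j ih =>
      intro hj
      have h1 : PG 1 (eW ^ (j + 1)) (gD 0 (O.Om gD expG)) := by
        rw [← sub_sub_cancel (εG l * O.biL gD expG (O.Om gD expG)) (gD 0 (O.Om gD expG)), hb]
        exact h.sub (h.congr (h.mul A.eps.2.1 (Out.P_biL h hO (ih (by omega)))) (pow_succ' _ _).symm)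
          (B.mono (Out.P_biR h hO herr) (wle_pow A.eps.2.2.2.1 hj))
      have h2 := A.ftc (O.Om gD expG)
      rw [h0, sub_zero] at h2
      rw [← h2]
      exact h.mul1 hc (A.avg_bd (w := fun ε _ => ε ^ (j + 1)) h1)
  exact key M le_rfl

/-- The loop in the layer. -/
theorem layer {l : Filter Z2} [OpF l] {a b : ℝ} (b2 : B2Stmt) (A : AvgFacts l a b)
    (Wt : WtFacts l) (So : SolFacts l) {G : Lay (SG l)} (hG : G.All (PG 1 1)) (hε : G.ε = εG l)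
    (hs : ∀ {w} {f : SG l}, PG 1 w f → PG 1 (hW * w)
      ((1 - yG l 1) * gD 0 f + 2 * f - expG (2 * G.L) * G.lam₂ gD expG f))
    {f : SG l} {κ : ℝ} (h0 : 0 < κ)
    (hκ : κ < 2) (hf : PG 1 (dW κ) f) {N : ℕ} (hb : PG 1 (eW ^ (N + 1)) (G.biL gD expG f)) :
    PG 1 (eW ^ N) f := by
  have h := wr_SG b2 l
  have B := b2 ℝ 2 l 1 fun _ => zero_le_one
  obtain ⟨-, e1, -, e2, -, e3, -⟩ := A.eps
  rw [← hε] at e1
  have key : ∀ j : ℕ, ∃ k, 0 < k ∧ k < 2 ∧ PG 1 (eW ^ j * dW k + eW ^ N) f := by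
    intro j
    induction j with
    | zero => exact ⟨κ, h0, hκ, B.mono hf (by simpa using wt_left e3 0 N κ)⟩
    | succ j ih =>
      obtain ⟨k, k0, k2, ih⟩ := ih
      have k3 := half_lt_self k0
      refine ⟨k / 2, half_pos k0, k3.trans k2, ?_⟩
      have a1 : PG 1 (eW ^ (j + 1) * dW k + eW ^ (N + 1)) (gD 0 (G.lam₂ gD expG f)) := by
        have w : eW * (eW ^ j * dW k + eW ^ N) = eW ^ (j + 1) * dW k + eW ^ (N + 1) := by ring
        exact of_sub h (B.mono hb (wt_right e3 _ _ _)) (h.congr (Lay.Pe_biL h hG e1 ih) w)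
      have a2 : PG 1 (dW k + eW ^ N) (G.lam₂ gD expG f) := by
        have w := wt_left e3 0 N k
        have w' := wt_right e3 0 N k
        rw [pow_zero, one_mul] at w w'
        refine B.mono (Lay.P_lam₂ h hG ih) (wle_add (wle_trans ?_ w) w')
        rw [mul_comm]
        exact wle_one _ (by simpa using wle_pow e2 (Nat.zero_le j))
      have a3 := So.far k (j + 1) N _ k0 a1 a2
      have a4 := hs ih
      have a5 : PG 1 (eW ^ (j + 1) * dW (k / 2) + eW ^ N) ((1 - yG l 1) * gD 0 f + 2 * f) := by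
        refine of_sub' h (B.mono a4 ?_) (h.mul1 (h.E1 (h.mul11 (h.ofNat 2) hG.L)) (B.mono a3
          (wle_add (wle_trans (wle_mul _ (Wt.d_le k (k / 2) k3.le)) (wt_left e3 _ _ _))
            (wt_right e3 _ _ _))))
        rw [mul_add]
        refine wle_add (wle_trans ?_ (wt_left e3 _ _ _)) (wle_trans ?_ (wt_right e3 _ _ _))
        · rw [mul_left_comm, pow_succ, mul_assoc]
          exact wle_mul _ (Wt.hd k (k / 2) k3)
        · rw [mul_comm]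
          exact wle_one _ Wt.h_one
      have e : ∀ᶠ z in l, (eW ^ (j + 1) * dW (k / 2) + eW ^ N) z =
          (xW (fun ε _ => |ε| ^ (j + 1)) * dW (k / 2) + xW fun ε _ => |ε| ^ N) z :=
        e3.mono fun z hz => by simp [xW, eW, abs_of_pos hz]
      exact B.mono (So.reg_bd (k / 2) _ _ f (k3.trans k2) (fun _ _ => pow_nonneg (abs_nonneg _) _)
        (fun _ _ => pow_nonneg (abs_nonneg _) _) (B.mono a5 (wle_eq e))) (wle_eq (e.mono fun _ => Eq.symm))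
  obtain ⟨k, k0, -, hk⟩ := key N
  exact B.mono hk (wle_add (wle_one _ (dW_zero ▸ Wt.d_le k 0 k0.le)) wle_rfl)

theorem ev_x {c a b : ℝ} : ∀ᶠ z in lS c a b, z.2 1 ∈ Ioo a b :=
  ev_fam.2 (Eventually.of_forall fun _ _ hp => hp.2.2)

theorem eik {P : Prof} (hP : P.Ok) {c : ℝ} {i : Fin 2} (A : AvgFacts (P.lL c i) (P.lo i) (P.hi i))
    (hL : (fun (_ : ℝ) (p : En 2) => P.L i (p 1)) ∈ SmF (P.lL c i)) :
    xG (P.lL c i) (P.d i) ^ 2 + (1 / 4 : ℝ) • gD 1 (xG (P.lL c i) (P.d i)) ^ 2 =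
      expG (2 * xG (P.lL c i) (P.L i)) := by
  have hd : ∀ x ∈ Ioo (P.lo i) (P.hi i), ContDiffAt ℝ ∞ (P.d i) x := fun x hx =>
    hP.sm_d i x (Ioo_subset_Icc_self hx)
  have hd' : ∀ x ∈ Ioo (P.lo i) (P.hi i), ContDiffAt ℝ ∞ (deriv (P.d i)) x := fun x hx =>
    (hd x hx).derivWithin (by simp)
  obtain ⟨m1, -, e1, -⟩ := A.xfun _ hd
  obtain ⟨m2, -⟩ := A.xfun _ hd'
  rw [e1, xG, xG, xG, gm_eq m1, gm_eq m2, gm_eq hL, ← map_ofNat (mkG (P.lL c i)) 2, ← map_mul,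
    ← mkG_sfE, ← map_pow, ← map_pow, ← map_smul, ← map_add, mkG_eq]
  filter_upwards [ev_x (c := c) (a := P.lo i) (b := P.hi i)] with z hz
  have := hP.eik i _ (Ioo_subset_Icc_self hz)
  change P.d i (z.2 1) ^ 2 + 1 / 4 * deriv (P.d i) (z.2 1) ^ 2 = Real.exp (2 * P.L i (z.2 1))
  linarith

end Om

open Om

theorem omS (_b1 : B1Stmt) (b2 : B2Stmt) (av : AvgStmt) (wt : WtStmt) (so : SolStmt)
    (c1 : Cid1Stmt) (c2 : Cid2Stmt) (ld : LeadStmt) : OmStmt := by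
  intro P c s θ κ N i hP g t0 t1 k0 k2 hI
  obtain ⟨gf, hρ⟩ := c1 P c g s θ κ 1 i hP t0 t1 k0 hI.toBd isCut_one
  have gf2 := c2 P c g s 1 i hP isCut_one gf
  have h := wr_SG b2 (P.lL c i)
  have hO := wr_SG b2 P.lO
  have B : B2Facts (P.lL c i) 1 := b2 ℝ 2 _ 1 fun _ => zero_le_one
  have BO : B2Facts P.lO 1 := b2 ℝ 2 _ 1 fun _ => zero_le_one
  have A : AvgFacts (P.lL c i) (P.lo i) (P.hi i) := av.1 c _ _ g.pos
  have AO : AvgFacts P.lO (P.xL - P.δ) (P.xR + P.δ) := (av.2 _ _ _).1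
  have Wt : WtFacts (P.lL c i) := wt c _ _ g.pos
  have So : SolFacts (P.lL c i) := so c _ _ g.pos
  obtain ⟨w1, w2⟩ := g.w_one θ t0.le
  have hπ : ∀ φ, P.π c i φ = (g.pull i).hom φ := pb_eq (g.pull i)
  have pull : ∀ (j : ℕ) {φ : SG P.lO}, PG 1 (eW ^ j) φ → PG 1 (eW ^ j) ((g.pull i).hom φ) :=
    fun j _ hφ => (BO.pull (g.pull i)).2.2.2 1 1 (fun _ => zero_le_one) (g.dΦ i)
      (wle_eq (Eventually.of_forall fun _ => one_mul _)) hφ
  have pull1 : ∀ {φ : SG P.lO}, PG 1 eW φ → PG 1 hW ((g.pull i).hom φ) := fun hφ =>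
    B.mono (h.congr (pull 1 (hO.congr hφ (pow_one _).symm)) (pow_one _)) Wt.e_h
  have herr : ∀ k, PG 1 (eW ^ (N + 1)) ((s.O i).err gD expG k) := fun k => hO.sml w1 (hI.err i k)
  have o1 := outer b2 AO (av.2 _ _ _).2 gf.O_all rfl hI.ev_la herr gf2.biO
  have o2 : PG 1 (eW ^ (N + 1)) ((s.G 1 i).out.Om gD expG) := by
    refine div_P0 h gf.all ?_
    rw [gf2.cov.Om]
    exact h.mul1 gf.all.ε (pull _ o1)
  have d1 : WLe (P.lL c i) (dW κ) 1 := dW_zero ▸ Wt.d_le κ 0 k0.le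
  have hZ : ∀ j, PG 1 (eW * dW κ) (mG _ 1 * s.Z i j) := fun j =>
    h.mul1 (Wt.m 1 isCut_one).1 (h.sml (w2 i) (h.congr (hI.Z i j) (mul_right_comm _ _ _)))
  have hZ1 : ∀ j, PG 1 (dW κ) (mG _ 1 * s.Z i j) := fun j => h.sml' A.eps.2.2.2.1 (hZ j)
  have hZ2 : ∀ j, PG 1 hW (mG _ 1 * s.Z i j) := fun j => B.mono (h.sml d1 (hZ j)) Wt.e_h
  have hy := (Wt.y 1 isCut_one).1
  have hy' := B.mono hy (Wt.d_le 2 κ k2.le)
  have hyp : PG 1 (dW κ) ((2 + cG _) * yG (P.lL c i) 1) := by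
    rw [add_mul]
    exact h.add (h.mul1 (h.ofNat 2) hy')
      (h.congr (Wt.cd 2 κ k2 (h.congr hy (one_mul _).symm)) (one_mul _))
  have s1 := (pair_facts h d1
    (all_out h gf.all hy' hyp (hZ1 0) (hZ1 1) (hZ1 2) (hZ1 3) (hZ1 4))).1
  have xL : ∀ j, (fun (_ : ℝ) (p : En 2) => P.L j (p 1)) ∈ SmF P.lO ∧
      gD 0 (xG P.lO (P.L j)) = 0 := fun j =>
    let ⟨a1, a2, _⟩ := AO.xfun _ fun x hx => hP.sm_L j x (Ioo_subset_Icc_self hx); ⟨a1, a2⟩
  have xL1 : ∀ j, PG 1 1 (xG P.lO (P.L j)) := fun j => AO.xbd _ (hP.sm_L j)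
  have mL : (fun (_ : ℝ) (p : En 2) => P.L i (p 1)) ∈ SmF (P.lL c i) := (g.pull i).mem ⟨_, (xL i).1⟩
  have eL : (g.pull i).hom (xG P.lO (P.L i)) = xG (P.lL c i) (P.L i) := by
    rw [xG, xG, gm_eq (xL i).1, gm_eq mL]; rfl
  have hu : ∀ j, PG 1 hW (P.π c i (s.u j) - (g.pull i).hom (xG P.lO (P.L j))) := fun j => by
    have a1 : PG 1 eW (εG P.lO * xG P.lO (P.χ j) * expG (2 * xG P.lO (P.L j))) :=
      hO.mul1' (hO.mul1' AO.eps.2.1 (AO.xbd _ (hP.sm_χ j))) (hO.E1 (hO.mul11 (hO.ofNat 2) (xL1 j)))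
    have a2 : PosG (1 : SG P.lO) := hO.E_zero ▸ (hO.E_bd (hO.zero 1)).2
    have a3 : PG 1 eW (lgG (xG P.lO (P.χ j)) (xG P.lO (P.L j))) :=
      hO.Lg_sub AO.eps.2.2.2.1 (BO.pos_add a2 a1 AO.eps.2.2.2.2.1) (by rwa [add_sub_cancel_left])
    have a4 := hO.sub (hO.sml w1 (hI.u j)) a3
    rw [Prof.Li, sub_sub, sub_add_cancel] at a4
    rw [hπ, ← map_sub]
    exact pull1 a4
  have lh : LeadHyp gD expG (s.G 1 i).y (s.G 1 i).d (s.G 1 i).chi (s.G 1 i).L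
      ((g.pull i).hom (xG P.lO (P.L (i + 1)))) :=
    ⟨Wt.y1.1, gf.ok.y₁, gf.ok.d₀, gf.ok.chi₀, gf.ok.L₀, by
      rw [gf.cov.d₀, (xL _).2, map_zero, mul_zero], eik hP A mL⟩
  have lf := (ld _ gD expG _ (s.G 1 i).yp (s.G 1 i).et _ _ _ _ (s.G 1 i).leh h.der h.isExp lh).1
  have p1 : ∀ {φ : SG P.lO}, PG 1 (eW * P.wW θ) φ → PG 1 hW (P.π c i φ) := fun hφ => by
    rw [hπ]; exact pull1 (hO.sml w1 hφ)
  have hε : PG 1 hW (s.G 1 i).ε := B.mono A.eps.2.1 Wt.e_h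
  have hu' := hu i
  rw [eL] at hu'
  obtain ⟨-, s2, s3, -⟩ := pair_facts h Wt.h_one (all_lead h Wt.h_one gf.all
    (h.congr (pull 0 (hO.congr (xL1 (i + 1)) (pow_zero _).symm)) (pow_zero _)) gf.ok lf.Ao hε
    Wt.s0 (p1 hI.la) (p1 hI.bp) (p1 hI.lc) hu' (hu (i + 1)) (hZ2 0) (hZ2 1) (hZ2 2) (hZ2 3) (hZ2 4)
    (B.mono (h.sml (w2 i) hρ) Wt.e_h) (B.mono gf.xi1 Wt.e_h))
  rw [lf.aA] at s2
  rw [lf.cO] at s3
  have hb : PG 1 (eW ^ (N + 1)) ((s.G 1 i).biL gD expG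
      ((s.G 1 i).Om gD expG - (s.G 1 i).out.Om gD expG)) := by
    rw [biL_sub h, gf2.bi]
    refine h.sub (Lay.P_biR h gf.all fun k => h.add (h.sml (w2 i) (h.sml d1 (hI.elay i k)))
      (Lay.P_cov h gf.all (fun j => ?_) k)) (Lay.P_biL h gf.all o2)
    rw [St.er, hπ]
    exact pull _ (herr j)
  have o3 := B.mono o2 (wle_pow A.eps.2.2.2.1 N.le_succ)
  exact ⟨of_sub' h (layer b2 A Wt So gf.all rfl (step_alg h gf.all hε s2 s3) k0 k2 s1 hb) o3, o3⟩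

end Pool.Agent.Lib.MP_df9110_gt
end
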