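import Pool.Agent.Lib.MP_df9110_gt.NLin

-- part Pool.Agent.Lib.MP_df9110_gt.Nl
section

/-! The nonlinear existence theorem by iteration. -/

namespace Pool.Agent.Lib.MP_df9110_gt

open Filter Topology
open scoped ContDiff

namespace Nl

theorem bdd_of_rec {x : ℕ → ℝ} {n₀ : ℕ} {C : ℝ} (h : ∀ n, n₀ ≤ n → x (n + 1) ≤ x n / 2 + C) :
    ∃ M, ∀ n, x n ≤ M := by
  obtain ⟨M, hM⟩ := ((Set.finite_le_nat n₀).image x).bddAbove
  refine ⟨max M (2 * C), fun n => ?_⟩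
  induction n with
  | zero => exact (hM ⟨0, n₀.zero_le, rfl⟩).trans (le_max_left _ _)
  | succ n ih =>
    rcases le_or_gt n₀ n with hn | hn
    · linarith [h n hn, le_max_right M (2 * C)]
    · exact (hM ⟨n + 1, hn, rfl⟩).trans (le_max_left _ _)

theorem geom_of_rec {x : ℕ → ℝ} {E : ℝ} (h : ∀ n, x (n + 1) ≤ x n / 4 + E * (1 / 2) ^ n) :
    ∃ M, ∀ n, x n ≤ M * (1 / 2) ^ n := by
  refine ⟨max (x 0) (4 * E), fun n => ?_⟩
  induction n with
  | zero => simp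
  | succ n ih =>
    have h1 : 4 * E * (1 / 2) ^ n ≤ max (x 0) (4 * E) * (1 / 2) ^ n :=
      mul_le_mul_of_nonneg_right (le_max_right _ _) (by positivity)
    rw [pow_succ]
    linarith [h n]

theorem tendsto_of_geom {x : ℕ → ℝ} {E : ℝ} (h : ∀ n, |x n| ≤ E * (1 / 2) ^ n) :
    Tendsto x atTop (𝓝 0) :=
  squeeze_zero_norm h (by
    simpa using (tendsto_pow_atTop_nhds_zero_of_lt_one (r := (1 / 2 : ℝ)) (by norm_num)
      (by norm_num)).const_mul E)

theorem exists_rec {T : Type} (x : T) {R : ℕ → T → T → Prop} (h : ∀ n u, ∃ v, R n u v) :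
    ∃ H : ℕ → T, ∀ n, R n (H n) (H (n + 1)) := by
  choose f hf using h
  exact ⟨fun n => Nat.rec x f n, fun n => hf n _⟩

theorem cc_zero : CC 0 := ⟨contDiff_const, HasCompactSupport.zero⟩

theorem pd_sub {u v : Pt → ℝ} (hu : ContDiff ℝ ∞ u) (hv : ContDiff ℝ ∞ v) (i : Fin 4) :
    pd i (u - v) = pd i u - pd i v := by
  funext y
  simp [pd, fderiv_sub (hu.differentiable (by simp) y) (hv.differentiable (by simp) y)]

theorem Lsc_sub (a : Fin 4 → Fin 4 → Pt → ℝ) (lam : ℝ) {u v : Pt → ℝ} (hu : ContDiff ℝ ∞ u)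
    (hv : ContDiff ℝ ∞ v) : Lsc a lam (u - v) = Lsc a lam u - Lsc a lam v := by
  have h1 := fun i j => pd_sub (contDiff_pdn hu j) (contDiff_pdn hv j) i
  rw [← pd_eq_pdn] at h1
  funext y
  simp only [Lsc, pd_sub hu hv, h1, Pi.sub_apply, mul_sub, Finset.sum_sub_distrib]
  ring

theorem Lsc_zero (a : Fin 4 → Fin 4 → Pt → ℝ) (lam : ℝ) : Lsc a lam 0 = 0 := by
  simpa using Lsc_sub a lam cc_zero.1 cc_zero.1

theorem wt_small {n : ℕ} {y : Pt} (h : ((16 ^ n : ℕ) : ℝ) ^ 2 ≤ nsq y) :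
    wt (-1 / 4) y ≤ (1 / 2) ^ n := by
  have h1 : ((2 : ℝ) ^ n) ^ (8 : ℝ) ≤ 1 + nsq y := by
    have : ((2 : ℝ) ^ n) ^ (8 : ℝ) = ((16 ^ n : ℕ) : ℝ) ^ 2 := by
      rw [show (8 : ℝ) = (8 : ℕ) by norm_num, Real.rpow_natCast, Nat.cast_pow, ← pow_mul,
        ← pow_mul, mul_comm n, mul_comm n, pow_mul, pow_mul]
      norm_num
    linarith
  refine (Real.rpow_le_rpow_of_nonpos (by positivity) h1 (by norm_num)).trans_eq ?_
  rw [← Real.rpow_mul (by positivity), one_div, inv_pow, ← Real.rpow_neg_one]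
  norm_num

section
variable (l0 : L0Facts) {u v : Pt → ℝ}
include l0

theorem cc_smul (c : ℝ) (h : CC u) : CC (c • u) := l0.cc_mul (f := fun _ => c) contDiff_const h

theorem cc_sub (h : CC u) (h' : CC v) : CC (u - v) := by
  simpa [sub_eq_add_neg] using l0.cc_add h (cc_smul l0 (-1) h')

theorem cc_sum {κ : Type} (s : Finset κ) {f : κ → Pt → ℝ} (h : ∀ i, CC (f i)) :
    CC (∑ i ∈ s, f i) :=
  Finset.sum_induction f CC (fun _ _ => l0.cc_add) cc_zero fun i _ => h i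

theorem cc_Lsc {a : Fin 4 → Fin 4 → Pt → ℝ} (ha : ∀ i j, ContDiff ℝ ∞ (a i j)) (lam : ℝ)
    (h : CC u) : CC (Lsc a lam u) := by
  have := cc_sub l0 (l0.cc_add (cc_sum l0 Finset.univ fun i => cc_sum l0 Finset.univ fun j =>
    l0.cc_mul (ha i j) (l0.cc_pd (l0.cc_pd h j) i)) (cc_smul l0 (1 / 2) (cc_sum l0 Finset.univ
      fun i => l0.cc_mul (f := fun y => y i) (contDiff_apply ℝ ℝ i) (l0.cc_pd h i))))
    (cc_smul l0 lam h)
  convert this using 1
  funext y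
  simp [Lsc, Finset.sum_apply]

theorem nn_sub (k : ℕ) (γ : ℝ) (h : CC u) (h' : CC v) : nn k γ (u - v) ≤ nn k γ u + nn k γ v := by
  have h1 := l0.nn_add k γ h (cc_smul l0 (-1) h')
  rw [l0.nn_smul k γ _ h'] at h1
  simpa [sub_eq_add_neg] using h1

theorem nn_zero (k : ℕ) (γ : ℝ) : nn k γ 0 = 0 := by simpa using l0.nn_smul k γ 0 cc_zero

theorem Yn_nonneg (t s : ℕ) (δ : ℝ) (u : Pt → ℝ) : 0 ≤ Yn t s δ u :=
  Finset.sum_nonneg fun _ _ => l0.nn_nonneg _ _ _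

theorem Yn_le {t s s' : ℕ} (h : s ≤ t) (h' : s ≤ s') (δ : ℝ) (u : Pt → ℝ) :
    Yn s s δ u ≤ Yn t s' δ u := by
  refine le_trans (le_of_eq (Finset.sum_congr rfl fun k hk => ?_))
    (Finset.sum_le_sum_of_subset_of_nonneg (Finset.range_mono (Nat.succ_le_succ h))
      fun _ _ _ => l0.nn_nonneg _ _ _)
  rw [Finset.mem_range] at hk
  rw [min_eq_left (by omega), min_eq_left (by omega)]

theorem nn_le_Yn {t s k : ℕ} (h : s + 1 ≤ k) (h' : k ≤ t) (δ : ℝ) (u : Pt → ℝ) :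
    nn k (δ - 1 + s) u ≤ Yn t (s + 1) δ u := by
  refine le_trans (le_of_eq ?_) (Finset.single_le_sum (f := fun k => nn k (δ - 2 +
    (min k (s + 1) : ℕ)) u) (fun _ _ => l0.nn_nonneg _ _ _) (Finset.mem_range.2 (by omega :
      k < t + 1)))
  rw [min_eq_right h]
  congr 1
  push_cast
  ring

theorem sym_nonneg {m C : ℝ} {k : ℕ} (h : Sym m k u C) : 0 ≤ C := by
  have h1 : |u 0| ≤ C * wt m 0 := l0.mono h subset_rfl le_rfl k.zero_le le_rfl 0 trivial
  exact nonneg_of_mul_nonneg_left ((abs_nonneg _).trans h1) (l0.wt_pos _ _)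

theorem Yn_sym (s : ℕ) {δ m : ℝ} (h : m + δ < 0) :
    ∃ C : ℝ, 0 ≤ C ∧ ∀ u η, CC u → Sym m s u η → Yn s s δ u ≤ C * η := by
  choose C hC using fun k : ℕ => l0.nn_sym k (δ - 2 + k) m (by linarith)
  refine ⟨∑ k ∈ Finset.range (s + 1), |C k|, Finset.sum_nonneg fun _ _ => abs_nonneg _,
    fun u η hu hs => ?_⟩
  rw [Finset.sum_mul]
  refine Finset.sum_le_sum fun k hk => ?_
  have hk' : k ≤ s := Nat.lt_succ_iff.1 (Finset.mem_range.1 hk)
  rw [min_eq_left hk']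
  exact (hC k u η hu (l0.mono hs subset_rfl le_rfl hk' le_rfl)).trans
    (mul_le_mul_of_nonneg_right (le_abs_self _) (sym_nonneg l0 hs))

end

section
variable (l0 : L0Facts) {ι : Type} [Fintype ι] {u v : ι → Pt → ℝ} {σ : ι → ι} {δ : ℝ}
include l0

omit [Fintype ι] in
theorem adm_sub (h : Adm σ u) (h' : Adm σ v) : Adm σ (u - v) :=
  ⟨fun α => cc_sub l0 (h.1 α) (h'.1 α), fun α => by simp [h.2, h'.2]⟩

omit l0 [Fintype ι] in
theorem adm_zero : Adm σ 0 := ⟨fun _ => cc_zero, fun _ => rfl⟩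

theorem nV_add (k : ℕ) (γ : ℝ) (h : ∀ α, CC (u α)) (h' : ∀ α, CC (v α)) :
    nV k γ (u + v) ≤ nV k γ u + nV k γ v := by
  rw [nV, nV, nV, ← Finset.sum_add_distrib]
  exact Finset.sum_le_sum fun α _ => l0.nn_add k γ (h α) (h' α)

theorem nV_sub (k : ℕ) (γ : ℝ) (h : ∀ α, CC (u α)) (h' : ∀ α, CC (v α)) :
    nV k γ (u - v) ≤ nV k γ u + nV k γ v := by
  rw [nV, nV, nV, ← Finset.sum_add_distrib]
  exact Finset.sum_le_sum fun α _ => nn_sub l0 k γ (h α) (h' α)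

theorem NV_add (s : ℕ) (δ : ℝ) (h : ∀ α, CC (u α)) (h' : ∀ α, CC (v α)) :
    NV s δ (u + v) ≤ NV s δ u + NV s δ v := by
  simp only [NV, Yn, ← Finset.sum_add_distrib]
  exact Finset.sum_le_sum fun α _ => Finset.sum_le_sum fun k _ => l0.nn_add k _ (h α) (h' α)

theorem NV_sub (s : ℕ) (δ : ℝ) (h : ∀ α, CC (u α)) (h' : ∀ α, CC (v α)) :
    NV s δ (u - v) ≤ NV s δ u + NV s δ v := by
  simp only [NV, Yn, ← Finset.sum_add_distrib]
  exact Finset.sum_le_sum fun α _ => Finset.sum_le_sum fun k _ => nn_sub l0 k _ (h α) (h' α)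

theorem XV_zero (s : ℕ) (δ : ℝ) : XV s δ (0 : ι → Pt → ℝ) = 0 := by
  simp [XV, Yn, nn_zero l0]

theorem XV_nonneg (s : ℕ) (δ : ℝ) (u : ι → Pt → ℝ) : 0 ≤ XV s δ u :=
  Finset.sum_nonneg fun _ _ => Yn_nonneg l0 _ _ _ _

theorem NV_nonneg (s : ℕ) (δ : ℝ) (u : ι → Pt → ℝ) : 0 ≤ NV s δ u :=
  Finset.sum_nonneg fun _ _ => Yn_nonneg l0 _ _ _ _

theorem NV_mono {s t : ℕ} (h : s ≤ t) (δ : ℝ) (u : ι → Pt → ℝ) : NV s δ u ≤ NV t δ u :=
  Finset.sum_le_sum fun _ _ => Yn_le l0 h h _ _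

theorem NV_le_XV (s : ℕ) (δ : ℝ) (u : ι → Pt → ℝ) : NV s δ u ≤ XV s δ u :=
  Finset.sum_le_sum fun _ _ => Yn_le l0 (by omega) le_rfl _ _

theorem Yn_le_NV {s t : ℕ} (h : s ≤ t) (δ : ℝ) (u : ι → Pt → ℝ) (α : ι) :
    Yn s s δ (u α) ≤ NV t δ u :=
  (Finset.single_le_sum (f := fun α => Yn s s δ (u α)) (fun _ _ => Yn_nonneg l0 _ _ _ _)
    (Finset.mem_univ α)).trans (NV_mono l0 h δ u)

theorem nV_le_NV (s : ℕ) (δ : ℝ) (u : ι → Pt → ℝ) :
    nV (s + 1) (δ - 1 + s) u ≤ NV (s + 1) δ u :=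
  Finset.sum_le_sum fun _ _ => nn_le_Yn l0 le_rfl le_rfl _ _

theorem nV_le_XV (s : ℕ) (δ : ℝ) (u : ι → Pt → ℝ) :
    nV (s + 3) (δ - 1 + s) u ≤ XV (s + 1) δ u :=
  Finset.sum_le_sum fun _ _ => nn_le_Yn l0 (by omega) le_rfl _ _

theorem NV_sym (s : ℕ) {δ m : ℝ} (h : m + δ < 0) : ∃ C : ℝ, 0 ≤ C ∧ ∀ (u : ι → Pt → ℝ) η,
    (∀ α, CC (u α)) → (∀ α, Sym m s (u α) η) → NV s δ u ≤ C * η := by
  obtain ⟨C, hC0, hC⟩ := Yn_sym l0 s h
  refine ⟨Fintype.card ι * C, by positivity, fun u η hu hs => ?_⟩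
  refine (Finset.sum_le_sum fun α _ => hC _ η (hu α) (hs α)).trans_eq ?_
  simp [mul_assoc]

/-- Pointwise convergence to zero. -/
theorem tendsto_pt (sob : SobStmt) {w : ℕ → ι → Pt → ℝ} (hw : ∀ n α, CC (w n α)) {E : ℝ}
    (h : ∀ n, NV 4 δ (w n) ≤ E * (1 / 2) ^ n) (α : ι) (y : Pt) :
    ∃ C, ∀ n, |w n α y| ≤ C * (1 / 2) ^ n := by
  obtain ⟨C, hC0, hC⟩ := sob δ 0
  refine ⟨C * E * wt (-δ) y, fun n => le_trans (hC _ (hw n α) y trivial) ?_⟩
  have h1 := (Yn_le_NV l0 le_rfl δ (w n) α).trans (h n)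
  have h2 := l0.wt_pos (-δ) y
  calc C * Yn 4 4 δ (w n α) * wt (-δ) y ≤ C * (E * (1 / 2) ^ n) * wt (-δ) y := by gcongr
    _ = _ := by ring

variable {K : ℝ} {a : Fin 4 → Fin 4 → Pt → ℝ} {B : (ι → Pt → ℝ) → ι → Pt → ℝ}

theorem cc_LV (lin : LinOp σ δ K a B) (lam : ℝ) (h : Adm σ u) (α : ι) : CC (LV a B lam u α) :=
  l0.cc_add (cc_Lsc l0 (fun i j => contDiff_iff_contDiffAt.2 fun y =>
    (lin.ell.sym i j).1 y trivial) lam (h.1 α)) ((lin.adm u h).1 α)

theorem LV_sub (lin : LinOp σ δ K a B) (lam : ℝ) (h : Adm σ u) (h' : Adm σ v) :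
    LV a B lam (u - v) = LV a B lam u - LV a B lam v := by
  have h1 := lin.add _ _ (adm_sub l0 h h') h'
  rw [sub_add_cancel] at h1
  funext α
  simp only [LV, Pi.sub_apply, Lsc_sub a lam (h.1 α).1 (h'.1 α).1, h1, Pi.add_apply]
  abel

end

/-- The truncated right hand sides. -/
theorem exists_cut (b1 : B1Stmt) (l0 : L0Facts) (ι : Type) [Fintype ι] (δ : ℝ) :
    ∃ C₁ : ℝ, 0 ≤ C₁ ∧ ∀ (σ : ι → ι) (F : ι → Pt → ℝ) (η : ℝ), (∀ α, F (σ α) = F α) →
      (∀ α, IsSym (-δ - 1 / 2) (F α)) → (∀ α, Sym (-δ - 1 / 2) 12 (F α) η) →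
      ∃ G : ℕ → ι → Pt → ℝ, (∀ n, Adm σ (G n)) ∧ (∀ n, NV 12 δ (G n) ≤ C₁ * η) ∧
        (∀ s, ∃ C, ∀ n, NV s δ (G n) ≤ C) ∧
        (∃ C, ∀ n, NV 12 δ (G (n + 1) - G n) ≤ C * (1 / 2) ^ n) ∧
        ∀ α y, Tendsto (fun n => G n α y) atTop (𝓝 (F α y)) := by
  obtain ⟨χ, h1, h2, h3⟩ := l0.cut
  choose D hD using h3
  choose E hE0 hE using fun s => NV_sym l0 (ι := ι) s (δ := δ) (m := -δ - 1 / 2) (by linarith)
  refine ⟨E 12 * (2 ^ 12 * D 12), mul_nonneg (hE0 _) (mul_nonneg (by positivity)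
    (sym_nonneg l0 (hD 12 0))), fun σ F η hσ hF hη => ?_⟩
  have hc : ∀ n α, CC (χ n * F α) := fun n α => by
    rw [mul_comm]
    exact l0.cc_mul (contDiff_iff_contDiffAt.2 fun y => (hF α).1 y trivial) (h1 n)
  have hs : ∀ n α k C, Sym (-δ - 1 / 2) k (F α) C →
      Sym (-δ - 1 / 2) k (χ n * F α) (2 ^ k * D k * C) := fun n α k C h => by
    simpa only [zero_add] using
      l0.mul (fun y _ => (h1 n).1.contDiffAt) (hF α).1 (hD k n) h
  have hb : ∀ s C, (∀ α, Sym (-δ - 1 / 2) s (F α) C) → ∀ n,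
      NV s δ (fun α => χ n * F α) ≤ E s * (2 ^ s * D s) * C := fun s C h n =>
    (hE s _ _ (hc n) fun α => hs n α s C (h α)).trans_eq (by ring)
  refine ⟨fun n α => χ (16 ^ n) * F α, fun n => ⟨hc _, fun α => by simp only [hσ]⟩,
    fun n => hb 12 η hη _, fun s => ?_, ?_, fun α y => ?_⟩
  · choose C hC using fun α => (hF α).2 s
    exact ⟨_, fun n => hb s (∑ α, |C α|) (fun α => l0.mono (hC α) subset_rfl le_rfl le_rfl
      ((le_abs_self _).trans (Finset.single_le_sum (f := fun α => |C α|)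
        (fun _ _ => abs_nonneg _) (Finset.mem_univ α)))) _⟩
  · obtain ⟨C, -, hC⟩ := NV_sym l0 (ι := ι) 12 (δ := δ) (m := -δ - 1 / 4) (by linarith)
    refine ⟨C * (2 * (2 ^ 12 * D 12 * η)), fun n => ?_⟩
    rw [mul_assoc]
    refine hC _ _ (fun α => cc_sub l0 (hc _ α) (hc _ α)) fun α y _ => ?_
    have h4 := l0.add (fun y _ => (hc (16 ^ (n + 1)) α).1.contDiffAt)
      (fun y _ => (cc_smul l0 (-1) (hc (16 ^ n) α)).1.contDiffAt) (hs _ α 12 η (hη α))
      (l0.smul (-1) (fun y _ => (hc (16 ^ n) α).1.contDiffAt) (hs _ α 12 η (hη α)))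
    rw [neg_smul, one_smul, ← sub_eq_add_neg, abs_neg, abs_one, one_mul, ← two_mul] at h4
    have h5 := sym_nonneg l0 h4
    have h6 := (l0.wt_pos (-1) y).le
    have h7 := (l0.wt_pos (-δ - 1 / 4) y).le
    rcases le_or_gt (((16 ^ n : ℕ) : ℝ) ^ 2) (nsq y) with hy | hy
    · refine (b1 4).mono (h4 y trivial) h6 le_rfl ?_
      rw [show -δ - 1 / 2 = -1 / 4 + (-δ - 1 / 4) by ring, l0.wt_add, ← mul_assoc]
      have := wt_small hy
      gcongr
    · refine (b1 4).mono ((b1 4).congr ((b1 4).const 12 0 y h6) ?_) h6 le_rfl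
        (by rw [abs_zero]; positivity)
      have h8 : Continuous nsq := by unfold nsq; fun_prop
      filter_upwards [h8.continuousAt.eventually (gt_mem_nhds hy)] with z hz
      have h9 : ((16 ^ n : ℕ) : ℝ) ^ 2 ≤ ((16 ^ (n + 1) : ℕ) : ℝ) ^ 2 := by
        gcongr <;> norm_num
      simp [h2 _ z hz.le, h2 _ z (hz.le.trans h9)]
  · refine tendsto_const_nhds.congr' ?_
    have h4 : Tendsto (fun n : ℕ => ((16 ^ n : ℕ) : ℝ) ^ 2) atTop atTop :=
      (tendsto_pow_atTop two_ne_zero).comp (tendsto_natCast_atTop_atTop.comp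
        (tendsto_pow_atTop_atTop_of_one_lt (by norm_num)))
    filter_upwards [h4.eventually_ge_atTop (nsq y)] with n hn
    simp [h2 _ y hn]

/-- The data of the iteration. -/
structure Ctx {ι : Type} [Fintype ι] (σ : ι → ι) (δ K A ρ l₀ : ℝ) (a : Fin 4 → Fin 4 → Pt → ℝ)
    (B Q : (ι → Pt → ℝ) → ι → Pt → ℝ) (G : ℕ → ι → Pt → ℝ) : Prop where
  l0 : L0Facts
  lin : LinOp σ δ K a B
  q : QHyp σ δ K B Q
  K0 : 0 ≤ K
  A0 : 0 ≤ A
  apr : ∀ u, Adm σ u → XV 12 δ u ≤ A * NV 12 δ (LV a B l₀ u)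
  top : ∀ s, ∃ C, ∀ u, Adm σ u →
    XV (s + 1) δ u ≤ A * nV (s + 1) (δ - 1 + s) (LV a B l₀ u) + C * XV s δ u
  small : A * K * ρ ≤ 1 / 8
  rho : ρ ≤ K⁻¹
  adm : ∀ n, Adm σ (G n)
  bd : ∀ s, ∃ C, ∀ n, NV s δ (G n) ≤ C
  tail : ∃ C, ∀ n, NV 12 δ (G (n + 1) - G n) ≤ C * (1 / 2) ^ n

namespace Ctx

variable {ι : Type} [Fintype ι] {σ : ι → ι} {δ K A ρ l₀ η : ℝ} {a : Fin 4 → Fin 4 → Pt → ℝ}
  {B Q : (ι → Pt → ℝ) → ι → Pt → ℝ} {G h : ℕ → ι → Pt → ℝ} (c : Ctx σ δ K A ρ l₀ a B Q G)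
include c

theorem exists_seq {C₁ : ℝ} (hη : 0 < η) (hG : ∀ n, NV 12 δ (G n) ≤ C₁ * η)
    (hρ : 2 * (A * (η + C₁ * η)) ≤ ρ) (hρ0 : 0 ≤ ρ)
    (dr : ∀ s, 12 ≤ s → ∀ F, Adm σ F → ∀ η : ℝ, 0 < η →
      ∃ u, Adm σ u ∧ NV s δ (LV a B l₀ u - F) ≤ η) :
    ∃ h : ℕ → ι → Pt → ℝ, (∀ n, Adm σ (h n) ∧ XV 12 δ (h n) ≤ ρ) ∧
      ∀ n, NV (12 + n) δ (LV a B l₀ (h (n + 1)) - (G n - Q (h n))) ≤ η * (1 / 2) ^ n := by
  have step : ∀ (n : ℕ) (u : {u // Adm σ u ∧ XV 12 δ u ≤ ρ}), ∃ v : {u // Adm σ u ∧ XV 12 δ u ≤ ρ},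
      NV (12 + n) δ (LV a B l₀ v.1 - (G n - Q u.1)) ≤ η * (1 / 2) ^ n := by
    rintro n ⟨u, hu, hu'⟩
    have h1 := c.q.adm u hu (hu'.trans c.rho)
    have h2 := adm_sub c.l0 (c.adm n) h1
    obtain ⟨v, hv, hv'⟩ := dr (12 + n) (by omega) _ h2 (η * (1 / 2) ^ n) (by positivity)
    refine ⟨⟨v, hv, (c.apr v hv).trans ?_⟩, hv'⟩
    have h3 := NV_add c.l0 12 δ (fun α => cc_sub c.l0 (cc_LV c.l0 c.lin l₀ hv α) (h2.1 α)) h2.1
      (u := LV a B l₀ v - (G n - Q u))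
    rw [sub_add_cancel] at h3
    have h4 := NV_sub c.l0 12 δ (c.adm n).1 h1.1
    have h5 := c.q.lip u 0 hu adm_zero (hu'.trans c.rho)
      ((XV_zero c.l0 12 δ).trans_le (hρ0.trans c.rho))
    rw [c.q.zero, sub_zero, sub_zero, XV_zero c.l0, add_zero] at h5
    have h6 : K * XV 12 δ u * XV 12 δ u ≤ K * ρ * ρ := by
      have := XV_nonneg c.l0 12 δ u
      have := c.K0
      gcongr
    have h7 : η * (1 / 2) ^ n ≤ η :=
      mul_le_of_le_one_right hη.le (pow_le_one₀ (by norm_num) (by norm_num))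
    have h8 : NV 12 δ (LV a B l₀ v) ≤ η + C₁ * η + K * ρ * ρ := by
      linarith [NV_mono c.l0 (Nat.le_add_right 12 n) δ (LV a B l₀ v - (G n - Q u)), hG n]
    nlinarith [mul_le_mul_of_nonneg_left h8 c.A0, mul_le_mul_of_nonneg_right c.small hρ0]
  obtain ⟨H, hH⟩ := exists_rec ⟨0, adm_zero, (XV_zero c.l0 12 δ).trans_le hρ0⟩ step
  exact ⟨fun n => (H n).1, fun n => (H n).2, hH⟩

variable (h1 : ∀ n, Adm σ (h n) ∧ XV 12 δ (h n) ≤ ρ)
  (h2 : ∀ n, NV (12 + n) δ (LV a B l₀ (h (n + 1)) - (G n - Q (h n))) ≤ η * (1 / 2) ^ n)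
include h1

theorem admQ (n : ℕ) : Adm σ (Q (h n)) := c.q.adm _ (h1 n).1 ((h1 n).2.trans c.rho)

theorem cc_err (n : ℕ) (α : ι) : CC ((LV a B l₀ (h (n + 1)) - (G n - Q (h n))) α) :=
  cc_sub c.l0 (cc_LV c.l0 c.lin l₀ (h1 _).1 α) ((adm_sub c.l0 (c.adm n) (c.admQ h1 n)).1 α)

theorem lipQ (n : ℕ) :
    NV 12 δ (Q (h (n + 1)) - Q (h n)) ≤ K * (2 * ρ) * XV 12 δ (h (n + 1) - h n) := by
  refine (c.q.lip _ _ (h1 _).1 (h1 _).1 ((h1 _).2.trans c.rho) ((h1 _).2.trans c.rho)).trans ?_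
  have := XV_nonneg c.l0 12 δ (h (n + 1) - h n)
  have := c.K0
  gcongr
  linarith [(h1 n).2, (h1 (n + 1)).2]

include h2

theorem cauchy : ∃ E, ∀ n, XV 12 δ (h (n + 1) - h n) ≤ E * (1 / 2) ^ n := by
  obtain ⟨C, hC⟩ := c.tail
  refine geom_of_rec (E := A * (η / 2 + η + C)) fun n => ?_
  refine (c.apr _ (adm_sub c.l0 (h1 _).1 (h1 _).1)).trans ?_
  have e : LV a B l₀ (h (n + 1 + 1) - h (n + 1)) =
      (LV a B l₀ (h (n + 1 + 1)) - (G (n + 1) - Q (h (n + 1))) -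
        (LV a B l₀ (h (n + 1)) - (G n - Q (h n)))) +
      ((G (n + 1) - G n) - (Q (h (n + 1)) - Q (h n))) := by
    rw [LV_sub c.l0 c.lin l₀ (h1 _).1 (h1 _).1]
    abel
  have a1 := adm_sub c.l0 (c.adm (n + 1)) (c.adm n)
  have a2 := adm_sub c.l0 (c.admQ h1 (n + 1)) (c.admQ h1 n)
  have h3 := NV_add c.l0 12 δ (fun α => cc_sub c.l0 (c.cc_err h1 (n + 1) α) (c.cc_err h1 n α))
    (adm_sub c.l0 a1 a2).1 (u := LV a B l₀ (h (n + 1 + 1)) - (G (n + 1) - Q (h (n + 1))) -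
        (LV a B l₀ (h (n + 1)) - (G n - Q (h n))))
  have h4 := NV_sub c.l0 12 δ (c.cc_err h1 (n + 1)) (c.cc_err h1 n)
  have h5 := NV_sub c.l0 12 δ a1.1 a2.1
  have h6 := (NV_mono c.l0 (Nat.le_add_right 12 n) δ _).trans (h2 n)
  have h7 := (NV_mono c.l0 (Nat.le_add_right 12 (n + 1)) δ _).trans (h2 (n + 1))
  rw [pow_succ] at h7
  have h8 : NV 12 δ (LV a B l₀ (h (n + 1 + 1) - h (n + 1))) ≤
      (η / 2 + η + C) * (1 / 2) ^ n + K * (2 * ρ) * XV 12 δ (h (n + 1) - h n) := by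
    rw [e]
    linarith [hC n, c.lipQ h1 n]
  nlinarith [mul_le_mul_of_nonneg_left h8 c.A0,
    mul_le_mul_of_nonneg_right c.small (XV_nonneg c.l0 12 δ (h (n + 1) - h n))]

theorem high (hη : 0 ≤ η) (j : ℕ) : ∃ M, ∀ n, XV (12 + j) δ (h n) ≤ M := by
  induction j with
  | zero => exact ⟨ρ, fun n => (h1 n).2⟩
  | succ j ih =>
    obtain ⟨M, hM⟩ := ih
    obtain ⟨C, hC⟩ := c.top (12 + j)
    obtain ⟨D, hD⟩ := c.bd (12 + j + 1)
    obtain ⟨E, hE⟩ := c.q.top (12 + j) (by omega) M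
    refine bdd_of_rec (n₀ := j + 1) (C := A * (η + D + E) + |C| * M) fun n hn => ?_
    refine (hC _ (h1 _).1).trans ?_
    have a1 := adm_sub c.l0 (c.adm n) (c.admQ h1 n)
    have h3 := nV_add c.l0 (12 + j + 1) (δ - 1 + (12 + j : ℕ)) (c.cc_err h1 n) a1.1
    rw [sub_add_cancel] at h3
    have h4 := nV_sub c.l0 (12 + j + 1) (δ - 1 + (12 + j : ℕ)) (c.adm n).1 (c.admQ h1 n).1
    have h5 := ((nV_le_NV c.l0 (12 + j) δ _).trans (NV_mono c.l0 (by omega) δ _)).trans (h2 n)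
    have h6 := (nV_le_NV c.l0 (12 + j) δ _).trans (hD n)
    have h7 := hE _ (h1 n).1 ((h1 n).2.trans c.rho) (hM n)
    have h8 := XV_nonneg c.l0 (12 + j + 1) δ (h n)
    have h9 : K * XV 12 δ (h n) * nV (12 + j + 3) (δ - 1 + (12 + j : ℕ)) (h n) ≤
        K * ρ * XV (12 + j + 1) δ (h n) :=
      (mul_le_mul_of_nonneg_left (nV_le_XV c.l0 _ _ _)
        (mul_nonneg c.K0 (XV_nonneg c.l0 _ _ _))).trans
        (mul_le_mul_of_nonneg_right (mul_le_mul_of_nonneg_left (h1 n).2 c.K0) h8)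
    have h10 : η * (1 / 2) ^ n ≤ η :=
      mul_le_of_le_one_right hη (pow_le_one₀ (by norm_num) (by norm_num))
    have h11 : nV (12 + j + 1) (δ - 1 + (12 + j : ℕ)) (LV a B l₀ (h (n + 1))) ≤
        η + D + E + K * ρ * XV (12 + j + 1) δ (h n) := by linarith
    have h12 : C * XV (12 + j) δ (h (n + 1)) ≤ |C| * M :=
      mul_le_mul (le_abs_self C) (hM _) (XV_nonneg c.l0 _ _ _) (abs_nonneg C)
    rw [← Nat.add_assoc]
    nlinarith [mul_le_mul_of_nonneg_left h11 c.A0, mul_le_mul_of_nonneg_right c.small h8]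

theorem limit (b1 : B1Stmt) (sl : SLStmt) (sob : SobStmt) (hη : 0 ≤ η) {F : ι → Pt → ℝ}
    (hF : ∀ α y, Tendsto (fun n => G n α y) atTop (𝓝 (F α y))) :
    ∃ g : ι → Pt → ℝ, (∀ α, g (σ α) = g α) ∧ (∀ α, IsSym (-δ) (g α)) ∧
      (∀ α C, (∀ n, Sym (-δ) 8 (h n α) C) → Sym (-δ) 8 (g α) C) ∧ LV a B l₀ g + Q g = F := by
  obtain ⟨E, hE⟩ := c.cauchy h1 h2
  have N4 : ∀ u : ι → Pt → ℝ, NV 4 δ u ≤ NV 12 δ u := NV_mono c.l0 (by norm_num) δ
  have h3 : ∀ α y, ∃ z, Tendsto (fun n => h n α y) atTop (𝓝 z) := fun α y => by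
    obtain ⟨C, hC⟩ := tendsto_pt c.l0 sob (fun n => (adm_sub c.l0 (h1 (n + 1)).1 (h1 n).1).1)
      (fun n => ((N4 _).trans (NV_le_XV c.l0 _ _ _)).trans (hE n)) α y
    exact cauchySeq_tendsto_of_complete (cauchySeq_of_le_geometric (1 / 2) C (by norm_num)
      fun n => by rw [dist_comm]; exact hC n)
  choose g hg using h3
  have h4 : ∀ k, ∃ M, ∀ n α, Sym (-δ) k (h n α) M := fun k => by
    obtain ⟨C, hC0, hC⟩ := sob δ k
    obtain ⟨M, hM⟩ := c.high h1 h2 hη k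
    exact ⟨C * M, fun n α => c.l0.mono (hC _ ((h1 n).1.1 α)) subset_rfl le_rfl le_rfl
      (mul_le_mul_of_nonneg_left (((Yn_le_NV c.l0 (by omega) δ (h n) α).trans
        (NV_le_XV c.l0 _ _ _)).trans (hM n)) hC0)⟩
  have h5 := fun α => (sl 4).1 Set.univ (fun n => h n α) (g α) isOpen_univ
    (fun n y _ => ((h1 n).1.1 α).1.contDiffAt) (fun y _ k => by
      obtain ⟨M, hM⟩ := h4 k
      refine ⟨M * (wt (-δ) y + 1), ?_⟩
      filter_upwards [((c.l0.wt_sym (-δ)).1 y trivial).continuousAt.eventually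
        (gt_mem_nhds (lt_add_one _))] with z hz n
      exact (b1 4).mono (hM n α z trivial) (c.l0.wt_pos _ _).le
        ((c.l0.wt_mono (by norm_num) z).trans_eq (c.l0.wt_zero z))
        (mul_le_mul_of_nonneg_left hz.le (sym_nonneg c.l0 (hM n α)))) fun y _ => hg α y
  have h6 : ∀ α k C, (∀ n, Sym (-δ) k (h n α) C) → Sym (-δ) k (g α) C := fun α k C hC y _ =>
    (h5 α).2.2.2 y trivial _ _ _ fun n => hC n y trivial
  refine ⟨g, fun α => funext fun y => tendsto_nhds_unique (hg (σ α) y)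
    (by simpa only [fun n => (h1 n).1.2 α] using hg α y), fun α => ⟨(h5 α).1, fun k =>
      (h4 k).imp fun M hM => h6 α k M fun n => hM n α⟩, fun α => h6 α 8, ?_⟩
  funext α y
  have t1 : ∀ α y i, Tendsto (fun n => pd i (h n α) y) atTop (𝓝 (pd i (g α) y)) :=
    fun α y => (h5 α).2.1 y trivial
  have t2 : ∀ α y i j, Tendsto (fun n => pd i (pd j (h n α)) y) atTop (𝓝 (pd i (pd j (g α)) y)) :=
    fun α y => (h5 α).2.2.1 y trivial
  have t3 := c.q.lim h g (fun n => ⟨(h1 n).1, (h1 n).2.trans c.rho⟩)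
    (fun α => contDiff_iff_contDiffAt.2 fun y => (h5 α).1 y trivial) hg t1 t2 α y
  have t4 : Tendsto (fun n => Lsc a l₀ (h n α) y) atTop (𝓝 (Lsc a l₀ (g α) y)) :=
    ((tendsto_finsetSum _ fun i _ => tendsto_finsetSum _ fun j _ =>
      (t2 α y i j).const_mul _).add ((tendsto_finsetSum _ fun i _ =>
        (t1 α y i).const_mul _).const_mul _)).sub ((hg α y).const_mul _)
  obtain ⟨C, hC⟩ := tendsto_pt c.l0 sob (c.cc_err h1)
    (fun n => (NV_mono c.l0 (by omega) δ _).trans (h2 n)) α y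
  obtain ⟨D, hD⟩ := tendsto_pt c.l0 sob (E := K * (2 * ρ) * E)
    (fun n => (adm_sub c.l0 (c.admQ h1 (n + 1)) (c.admQ h1 n)).1)
    (fun n => ((N4 _).trans (c.lipQ h1 n)).trans (by
      rw [mul_assoc _ E]
      exact mul_le_mul_of_nonneg_left (hE n) (mul_nonneg c.K0 (mul_nonneg zero_le_two
        ((XV_nonneg c.l0 _ _ _).trans (h1 0).2))))) α y
  have t5 := ((tendsto_of_geom hC).add (tendsto_of_geom hD)).add (hF α y)
  have t6 := (tendsto_add_atTop_iff_nat 1).2 (t4.add t3)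
  have t7 := tendsto_nhds_unique t6 (t5.congr fun n => by
    simp only [LV, Pi.sub_apply, Pi.add_apply]
    ring)
  simp only [LV, Pi.add_apply]
  linarith

end Ctx

end Nl

open Nl in
theorem nl (b1 : B1Stmt) (l0 : L0Facts) (sl : SLStmt) (sob : SobStmt) (apr : AprStmt)
    (dr : DrStmt) : NlStmt := by
  intro ι _ σ δ hσ hδ
  obtain ⟨p₀, hp₀⟩ := apr ι σ δ hδ
  obtain ⟨C₁, hC₁, hcut⟩ := exists_cut b1 l0 ι δ
  obtain ⟨C₂, hC₂, hsob⟩ := sob δ 8
  obtain ⟨p₁, hp₁⟩ := l0.absorb (16 * (1 + C₁)) (2 * (p₀ + 2) + 1)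
  obtain ⟨p₂, hp₂⟩ := l0.absorb (C₂ * (2 * (1 + C₁))) (p₀ + 2)
  refine ⟨max p₁ p₂, fun K l₀ η a B Q F hK lin hl mp q B0 hF1 hF2 hF3 hη => ?_⟩
  have hK1 : 1 ≤ K := by linarith
  have hK0 : 0 < K := by linarith
  rcases le_or_gt η 0 with h0 | h0
  · refine ⟨0, fun _ => rfl, fun _ => l0.cc_sym cc_zero _, fun α y _ => ?_, ?_⟩
    · refine (b1 4).mono ((b1 4).const 8 0 y (l0.wt_pos _ _).le) (l0.wt_pos _ _).le le_rfl ?_
      simp [h0.antisymm (sym_nonneg l0 (hF3 α))]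
    · funext α y
      have h1 : |F α y| ≤ η * wt (-δ - 1 / 2) y := (b1 4).nonneg (hF3 α y trivial)
      rw [h0.antisymm (sym_nonneg l0 (hF3 α)), zero_mul, abs_nonpos_iff] at h1
      simp [LV, B0, q.zero, Lsc_zero, h1]
  obtain ⟨G, G1, G2, G3, G4, G5⟩ := hcut σ F η hF1 hF2 hF3
  obtain ⟨a1, a2, -⟩ := hp₀ K a B hK lin
  obtain ⟨A, hA⟩ : ∃ A, A = K ^ (p₀ + 2) := ⟨_, rfl⟩
  have hA1 : 1 ≤ A := hA ▸ one_le_pow₀ hK1
  have hp : 0 < K ^ p₀ := pow_pos hK0 _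
  have hAp : K ^ p₀ * (1 + K) ≤ A := by
    rw [hA, pow_add]
    exact mul_le_mul_of_nonneg_left (by nlinarith) hp.le
  have small : A * K * (2 * (A * (η + C₁ * η))) ≤ 1 / 8 := by
    have h1 := (hp₁ K hK).trans (pow_le_pow_right₀ hK1 (le_max_left p₁ p₂))
    rw [pow_succ, pow_mul', ← hA] at h1
    have h2 := mul_le_mul h1 hη h0.le (pow_pos hK0 _).le
    rw [mul_inv_cancel₀ (pow_pos hK0 _).ne'] at h2
    linarith
  have hρ0 : 0 ≤ 2 * (A * (η + C₁ * η)) := by positivity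
  have c : Ctx σ δ K A (2 * (A * (η + C₁ * η))) l₀ a B Q G :=
    { l0 := l0
      lin := lin
      q := q
      K0 := hK0.le
      A0 := by linarith
      apr := fun u hu => (a1 l₀ hl u hu).trans (by
        have h1 := mp l₀ le_rfl u hu
        have h2 := NV_nonneg l0 12 δ (LV a B l₀ u)
        nlinarith [mul_le_mul_of_nonneg_left h1 hp.le, mul_le_mul_of_nonneg_right hAp h2])
      top := fun s => (a2 s).imp fun C hC u hu => (hC l₀ hl u hu).trans (by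
        have h2 : 0 ≤ nV (s + 1) (δ - 1 + s) (LV a B l₀ u) :=
          Finset.sum_nonneg fun _ _ => l0.nn_nonneg _ _ _
        gcongr
        nlinarith)
      small := small
      rho := by
        rw [← one_div, le_div_iff₀ hK0]
        nlinarith [mul_nonneg hρ0 hK0.le]
      adm := G1
      bd := G3
      tail := G4 }
  obtain ⟨h, h1, h2⟩ := c.exists_seq h0 G2 le_rfl hρ0 (dr ι σ δ K l₀ a B hσ hδ hK lin hl mp)
  obtain ⟨g, g1, g2, g3, g4⟩ := c.limit h1 h2 b1 sl sob h0.le G5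
  refine ⟨g, g1, g2, fun α => g3 α _ fun n => l0.mono (hsob _ ((h1 n).1.1 α)) subset_rfl le_rfl
    le_rfl ?_, g4⟩
  have h3 := ((Yn_le_NV l0 le_rfl δ (h n) α).trans (NV_le_XV l0 _ _ _)).trans (h1 n).2
  have h4 := (hp₂ K hK).trans (pow_le_pow_right₀ hK1 (le_max_right p₁ p₂))
  rw [← hA] at h4
  nlinarith [mul_le_mul_of_nonneg_left h3 hC₂, mul_le_mul_of_nonneg_right h4 h0.le]

end Pool.Agent.Lib.MP_df9110_gt
end

-- part Pool.Agent.Lib.MP_df9110_gt.Ou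
section

/-! Dense range for the Ornstein-Uhlenbeck operator, by the Mehler formula. -/

namespace Pool.Agent.Lib.MP_df9110_gt

open Filter Topology MeasureTheory
open scoped ContDiff

namespace Ou

/-! ### Elementary facts -/

theorem nsq_nonneg (y : Pt) : 0 ≤ nsq y := Finset.sum_nonneg fun _ _ => sq_nonneg _

theorem sq_le_nsq (y : Pt) (i : Fin 4) : y i ^ 2 ≤ nsq y :=
  Finset.single_le_sum (f := fun i => y i ^ 2) (fun _ _ => sq_nonneg _) (Finset.mem_univ i)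

theorem norm_sq_le (y : Pt) : ‖y‖ ^ 2 ≤ nsq y := by
  have h : ‖y‖ ≤ √(nsq y) := (pi_norm_le_iff_of_nonneg (Real.sqrt_nonneg _)).2 fun i => by
    rw [Real.norm_eq_abs]
    exact Real.abs_le_sqrt (sq_le_nsq y i)
  calc ‖y‖ ^ 2 ≤ √(nsq y) ^ 2 := by gcongr
    _ = nsq y := Real.sq_sqrt (nsq_nonneg y)

theorem contDiff_nsq : ContDiff ℝ ∞ nsq := by
  unfold nsq
  fun_prop

theorem clm_sum (L : Pt →L[ℝ] ℝ) (v : Pt) : L v = ∑ i, v i * L (Pi.single i 1) := by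
  conv_lhs => rw [← Finset.univ_sum_single v]
  rw [map_sum]
  refine Finset.sum_congr rfl fun i _ => ?_
  rw [← smul_eq_mul, ← map_smul, ← Pi.single_smul, smul_eq_mul, mul_one]

theorem da {f : Pt → ℝ} (h : ContDiff ℝ ∞ f) (y : Pt) : DifferentiableAt ℝ f y :=
  h.differentiable (by simp) y

theorem pd_aff {F : Pt → ℝ} (hF : ContDiff ℝ ∞ F) (κ c : ℝ) (v : Pt) (i : Fin 4) :
    pd i (fun y => κ * F (c • y + v)) = fun y => κ * c * pd i F (c • y + v) := by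
  funext y
  have h1 : HasFDerivAt (fun y : Pt => c • y + v) (c • ContinuousLinearMap.id ℝ Pt) y :=
    ((hasFDerivAt_id y).const_smul c).add_const v
  have h2 := ((da hF (c • y + v)).hasFDerivAt.comp y h1).const_mul κ
  unfold pd
  rw [show (fun y => κ * F (c • y + v)) = fun y => κ * (F ∘ fun y : Pt => c • y + v) y from rfl,
    h2.fderiv]
  simp [mul_assoc]

theorem wb_aff (c : ℝ) (hc : 0 ≤ c) (v y : Pt) (k : ℕ) : ∀ {F : Pt → ℝ} (κ a : ℝ),
    ContDiff ℝ ∞ F → WB 1 k a F (c • y + v) → WB c k (|κ| * a) (fun y => κ * F (c • y + v)) y := by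
  have z : ∀ {F : Pt → ℝ} (κ a : ℝ), |F (c • y + v)| ≤ a → |κ * F (c • y + v)| ≤ |κ| * a :=
    fun κ a h => by rw [abs_mul]; gcongr
  induction k with
  | zero => exact fun κ a _ h => z κ a h
  | succ k ih =>
    intro F κ a hF h
    refine ⟨z κ a h.1, fun i => ?_⟩
    have h1 := ih (κ * c) (a * 1) (contDiff_pdn hF i) (h.2 i)
    rw [← pd_eq_pdn, pd_aff hF]
    rw [abs_mul, abs_of_nonneg hc, show |κ| * c * (a * 1) = |κ| * a * c by ring] at h1
    exact h1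

theorem wb_trade {r θ : ℝ} (hθ : 1 ≤ θ) (p : Pt) (k : ℕ) : ∀ {f : Pt → ℝ} {a : ℝ},
    WB (θ * r) k a f p → WB r k (a * θ ^ k) f p := by
  induction k with
  | zero => exact fun h => by simpa [WB] using h
  | succ k ih =>
    intro f a h
    refine ⟨h.1.trans (le_mul_of_one_le_right ((abs_nonneg _).trans h.1) (one_le_pow₀ hθ)),
      fun i => ?_⟩
    have h1 := ih (h.2 i)
    rwa [show a * (θ * r) * θ ^ k = a * θ ^ (k + 1) * r by ring] at h1

/-- Differentiation under the integral sign for a finite dimensional parameter space. -/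
theorem piT (pi0 : PIStmt) {T : Type} [NormedAddCommGroup T] [NormedSpace ℝ T]
    [FiniteDimensional ℝ T] [MeasurableSpace T] [BorelSpace T] (ν : Measure T) (H : T → Pt → ℝ)
    (hs : ContDiff ℝ ∞ fun z : T × Pt => H z.1 z.2)
    (hb : ∀ k, ∃ b : T → ℝ, Integrable b ν ∧ ∀ t q, WB 1 k (b t) (H t) q) :
    ContDiff ℝ ∞ (fun q => ∫ t, H t q ∂ν) ∧
      (∀ i, pd i (fun q => ∫ t, H t q ∂ν) = fun p => ∫ t, pd i (H t) p ∂ν) ∧
      ∀ p (r : ℝ) (k : ℕ) (b : T → ℝ), Integrable b ν → (∀ t, WB r k (b t) (H t) p) →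
        WB r k (∫ t, b t ∂ν) (fun q => ∫ t, H t q ∂ν) p := by
  let e : T ≃L[ℝ] En (Module.finrank ℝ T) := ContinuousLinearEquiv.ofFinrankEq (by simp)
  let e' : T ≃ᵐ En (Module.finrank ℝ T) := e.toHomeomorph.toMeasurableEquiv
  have he : ∀ t, e.symm (e' t) = t := fun t => e.symm_apply_apply t
  have hi : ∀ b : T → ℝ, Integrable b ν → IntegrableOn (fun t => b (e.symm t)) Set.univ (ν.map e') :=
    fun b h => by
      rw [integrableOn_univ, integrable_map_equiv]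
      simpa only [Function.comp_def, he] using h
  have h1 : ContDiff ℝ ∞ fun z : En (Module.finrank ℝ T) × Pt => H (e.symm z.1) z.2 :=
    hs.comp ((e.symm.contDiff.comp contDiff_fst).prodMk contDiff_snd)
  obtain ⟨a1, a2, a3⟩ := pi0 4 _ (ν.map e') Set.univ Set.univ (fun t => H (e.symm t)) isOpen_univ
    isOpen_univ h1.contDiffOn fun p _ k => by
      obtain ⟨b, b1, b2⟩ := hb k
      exact ⟨_, hi b b1, Eventually.of_forall fun q t _ => b2 _ q⟩
  simp only [Measure.restrict_univ, integral_map_equiv, he] at a1 a2 a3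
  refine ⟨contDiff_iff_contDiffAt.2 fun p => a1 p trivial, fun i => funext fun p => a2 p trivial i,
    fun p r k b b1 b2 => ?_⟩
  have := a3 p trivial r k _ (hi b b1) fun t _ => b2 _
  simpa only [he] using this

/-! ### The Gaussian -/

structure Gauss (G : Pt → ℝ) : Prop where
  sm : ContDiff ℝ ∞ G
  nonneg : ∀ z, 0 ≤ G z
  one : ∫ z, G z = 1
  int : ∀ N : ℕ, Integrable fun z => G z * (1 + nsq z) ^ N
  der : ∀ i z, pd i G z = -(z i) * G z

theorem int_exp (N : ℕ) : Integrable fun z : Pt => Real.exp (-(nsq z) / 2) * (1 + nsq z) ^ N := by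
  have h0 := integrable_rpow_neg_one_add_norm_sq (E := Pt) (μ := volume) (r := 6) (by
    simp; norm_num)
  have hc : Continuous fun z : Pt => Real.exp (-(nsq z) / 2) * (1 + nsq z) ^ N := by
    have := contDiff_nsq.continuous
    fun_prop
  refine (h0.const_mul (2 ^ (N + 3) * (N + 3).factorial * Real.exp (1 / 2))).mono'
    hc.aestronglyMeasurable (Eventually.of_forall fun z => ?_)
  have n0 := nsq_nonneg z
  have n1 := norm_sq_le z
  set x := nsq z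
  have h1 := Real.pow_div_factorial_le_exp ((1 + x) / 2) (by positivity) (N + 3)
  rw [div_le_iff₀ (by positivity), div_pow, div_le_iff₀ (by positivity)] at h1
  have h2 : ((1 : ℝ) + ‖z‖ ^ 2) ^ (-(6 : ℝ) / 2) = ((1 + ‖z‖ ^ 2) ^ 3)⁻¹ := by
    rw [show -(6 : ℝ) / 2 = -((3 : ℕ) : ℝ) by norm_num, Real.rpow_neg (by positivity),
      Real.rpow_natCast]
  have h3 : Real.exp ((1 + x) / 2) * Real.exp (-x / 2) = Real.exp (1 / 2) := by
    rw [← Real.exp_add]; congr 1; ring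
  rw [Real.norm_eq_abs, abs_of_nonneg (by positivity), h2, ← div_eq_mul_inv,
    le_div_iff₀ (by positivity)]
  calc Real.exp (-x / 2) * (1 + x) ^ N * (1 + ‖z‖ ^ 2) ^ 3
      ≤ Real.exp (-x / 2) * (1 + x) ^ N * (1 + x) ^ 3 := by gcongr
    _ = Real.exp (-x / 2) * (1 + x) ^ (N + 3) := by ring
    _ ≤ Real.exp (-x / 2) * (Real.exp ((1 + x) / 2) * (N + 3).factorial * 2 ^ (N + 3)) := by gcongr
    _ = _ := by rw [← h3]; ring

theorem pd_exp (i : Fin 4) (z : Pt) :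
    pd i (fun z => Real.exp (-(nsq z) / 2)) z = -(z i) * Real.exp (-(nsq z) / 2) := by
  have h1 : HasFDerivAt nsq (∑ j, (2 * z j) • ContinuousLinearMap.proj (R := ℝ)
      (φ := fun _ : Fin 4 => ℝ) j) z := by
    unfold nsq
    refine HasFDerivAt.fun_sum fun j _ => ?_
    have := (hasFDerivAt_apply (𝕜 := ℝ) j z).pow 2
    simpa using this
  have h2 := ((h1.neg.mul_const (2 : ℝ)⁻¹)).exp
  unfold pd
  simp only [div_eq_mul_inv]
  rw [show (fun z => Real.exp (-(nsq z) * 2⁻¹)) = fun z => Real.exp ((-nsq) z * 2⁻¹) from rfl,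
    h2.fderiv]
  simp [Pi.single_apply]
  ring

theorem exists_gauss : ∃ G, Gauss G := by
  have hs : ContDiff ℝ ∞ fun z : Pt => Real.exp (-(nsq z) / 2) :=
    (contDiff_nsq.neg.div_const 2).exp
  have hi : Integrable fun z : Pt => Real.exp (-(nsq z) / 2) := by simpa using int_exp 0
  have hp : 0 < ∫ z : Pt, Real.exp (-(nsq z) / 2) :=
    integral_pos_of_integrable_nonneg_nonzero (x := 0) hs.continuous hi
      (fun _ => (Real.exp_pos _).le) (Real.exp_pos _).ne'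
  set g := ∫ z : Pt, Real.exp (-(nsq z) / 2)
  refine ⟨fun z => g⁻¹ * Real.exp (-(nsq z) / 2), contDiff_const.mul hs, fun z => by positivity,
    by rw [integral_const_mul, inv_mul_cancel₀ hp.ne'], fun N => ?_, fun i z => ?_⟩
  · simpa only [mul_assoc] using (int_exp N).const_mul g⁻¹
  · have := pdn_smul (da hs z) g⁻¹ i
    rw [← pd_eq_pdn, pd_exp] at this
    exact this.trans (by ring)

/-! ### Integrands of polynomial growth -/

/-- Continuous, and of polynomial growth in `z` for `s` in `[0, S]`. -/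
def Tame (S : ℝ) (Φ : ℝ × Pt → ℝ) : Prop :=
  Continuous Φ ∧ ∃ (C : ℝ) (N : ℕ), ∀ s ∈ Set.Icc 0 S, ∀ z, |Φ (s, z)| ≤ C * (1 + nsq z) ^ N

section Tame

variable {S : ℝ} {Φ Ψ : ℝ × Pt → ℝ}

theorem Tame.mul (h : Tame S Φ) (h' : Tame S Ψ) : Tame S fun w => Φ w * Ψ w := by
  obtain ⟨a, C, N, b⟩ := h
  obtain ⟨a', C', N', b'⟩ := h'
  refine ⟨a.mul a', C * C', N + N', fun s hs z => ?_⟩
  rw [abs_mul, pow_add, mul_mul_mul_comm]
  exact mul_le_mul (b s hs z) (b' s hs z) (abs_nonneg _) ((abs_nonneg _).trans (b s hs z))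

theorem Tame.add (h : Tame S Φ) (h' : Tame S Ψ) : Tame S fun w => Φ w + Ψ w := by
  obtain ⟨a, C, N, b⟩ := h
  obtain ⟨a', C', N', b'⟩ := h'
  refine ⟨a.add a', |C| + |C'|, N + N', fun s hs z => ?_⟩
  have n0 := nsq_nonneg z
  have h1 : (1 : ℝ) ≤ 1 + nsq z := by linarith
  rw [add_mul]
  refine (abs_add_le _ _).trans (add_le_add ((b s hs z).trans ?_) ((b' s hs z).trans ?_))
  · exact mul_le_mul (le_abs_self _) (pow_le_pow_right₀ h1 (by omega)) (by positivity)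
      (abs_nonneg _)
  · exact mul_le_mul (le_abs_self _) (pow_le_pow_right₀ h1 (by omega)) (by positivity)
      (abs_nonneg _)

theorem tame_fst {κ : ℝ → ℝ} (h : Continuous κ) : Tame S fun w => κ w.1 := by
  obtain ⟨C, hC⟩ := isCompact_Icc.exists_bound_of_continuousOn (h.continuousOn (s := Set.Icc 0 S))
  exact ⟨h.comp continuous_fst, C, 0, fun s hs z => by simpa using hC s hs⟩

theorem tame_sum {Φ : Fin 4 → ℝ × Pt → ℝ} (h : ∀ i, Tame S (Φ i)) :
    Tame S fun w => ∑ i, Φ i w := by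
  simp only [Fin.sum_univ_four]
  exact (((h 0).add (h 1)).add (h 2)).add (h 3)

theorem tame_coord (i : Fin 4) : Tame S fun w => w.2 i := by
  refine ⟨by fun_prop, 1, 1, fun s _ z => ?_⟩
  have h1 := sq_le_nsq z i
  have h2 := sq_abs (z i)
  have h3 := sq_nonneg (|z i| - 1)
  have h4 := abs_nonneg (z i)
  dsimp only
  nlinarith

theorem tame_pow (N : ℕ) : Tame S fun w => (1 + nsq w.2) ^ N := by
  have := contDiff_nsq.continuous
  refine ⟨by fun_prop, 1, N, fun s _ z => ?_⟩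
  have n0 := nsq_nonneg z
  rw [abs_of_nonneg (by positivity), one_mul]

theorem tame_cc {F : Pt → ℝ} (hF : CC F) {c : ℝ → ℝ} (hc : Continuous c) (y : Pt) :
    Tame S fun w => F (c w.1 • y + w.1 • w.2) := by
  obtain ⟨C, hC⟩ := hF.1.continuous.bounded_above_of_compact_support hF.2
  have := hF.1.continuous
  exact ⟨by fun_prop, C, 0, fun s _ z => by simpa using hC _⟩

theorem Tame.int {G : Pt → ℝ} (hG : Gauss G) (h : Tame S Φ) {μ : Measure ℝ} [IsFiniteMeasure μ]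
    (hμ : ∀ᵐ s ∂μ, s ∈ Set.Icc 0 S) : Integrable (fun w => G w.2 * Φ w) (μ.prod volume) := by
  obtain ⟨a, C, N, b⟩ := h
  have h1 : Integrable (fun w : ℝ × Pt => C * (G w.2 * (1 + nsq w.2) ^ N)) (μ.prod volume) :=
    (integrable_const C).mul_prod (hG.int N)
  have h2 : ∀ᵐ w ∂μ.prod (volume : Measure Pt), w.1 ∈ Set.Icc 0 S :=
    Measure.quasiMeasurePreserving_fst.ae hμ
  refine h1.mono' ((hG.sm.continuous.comp continuous_snd).mul a).aestronglyMeasurable ?_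
  filter_upwards [h2] with w hw
  rw [Real.norm_eq_abs, abs_mul, abs_of_nonneg (hG.nonneg _), mul_left_comm]
  exact mul_le_mul_of_nonneg_left (b w.1 hw w.2) (hG.nonneg _)

end Tame

/-! ### The Mehler integrals -/

/-- The dilation factor. -/
noncomputable def cc (s : ℝ) : ℝ := √(1 + s ^ 2 / 2)

theorem cc_sq (s : ℝ) : cc s ^ 2 = 1 + s ^ 2 / 2 := Real.sq_sqrt (by positivity)

theorem one_le_cc (s : ℝ) : 1 ≤ cc s := Real.one_le_sqrt.2 (by nlinarith [sq_nonneg s])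

theorem contDiff_cc : ContDiff ℝ ∞ cc :=
  ContDiff.sqrt (by fun_prop) fun s => by positivity

theorem hasDerivAt_cc (s : ℝ) : HasDerivAt cc (s / (2 * cc s)) s := by
  have h1 : HasDerivAt (fun s : ℝ => 1 + s ^ 2 / 2) s s := by
    simpa using ((hasDerivAt_pow 2 s).div_const 2).const_add 1
  exact h1.sqrt (by positivity)

theorem peetre (s : ℝ) (y z : Pt) :
    1 + nsq y ≤ 4 * (1 + nsq z) * (1 + nsq (cc s • y + s • z)) := by
  have h1 : nsq y ≤ 2 * nsq (cc s • y + s • z) + 4 * nsq z := by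
    unfold nsq
    rw [Finset.mul_sum, Finset.mul_sum, ← Finset.sum_add_distrib]
    refine Finset.sum_le_sum fun i _ => ?_
    have c1 := cc_sq s
    have c2 := one_le_cc s
    simp only [Pi.add_apply, Pi.smul_apply, smul_eq_mul]
    set c := cc s
    set x := c * y i + s * z i with hx
    have c3 : 0 < c ^ 2 := by positivity
    refine le_of_mul_le_mul_left ?_ c3
    have e : c ^ 2 * y i ^ 2 = (x - s * z i) ^ 2 := by rw [hx]; ring
    rw [e, c1]
    nlinarith [sq_nonneg (x + s * z i), sq_nonneg (s * x), sq_nonneg (z i)]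
  have h2 := nsq_nonneg z
  have h3 := nsq_nonneg (cc s • y + s • z)
  nlinarith [mul_nonneg h2 h3]

theorem wt_neg_two (N : ℕ) (y : Pt) : wt (-(2 * N)) y = ((1 + nsq y) ^ N)⁻¹ := by
  have := nsq_nonneg y
  unfold wt
  rw [show -(2 * (N : ℝ)) / 2 = -(N : ℝ) by ring, Real.rpow_neg (by positivity), Real.rpow_natCast]

section Main

variable (b1 : B1Stmt) (l0 : L0Facts)
include l0

theorem wt_pow (k : ℕ) (y : Pt) : wt 1 y ^ k = wt k y := by
  induction k with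
  | zero => simp [l0.wt_zero]
  | succ k ih => rw [pow_succ, ih, ← l0.wt_add, Nat.cast_succ]

theorem wt_le_one {m : ℝ} (h : m ≤ 0) (y : Pt) : wt m y ≤ 1 := l0.wt_zero y ▸ l0.wt_mono h y

include b1

theorem hb {F : Pt → ℝ} (hF : CC F) (m : ℝ) (k : ℕ) : ∃ (N : ℕ) (B : ℝ), 0 ≤ B ∧
    ∀ (κ s : ℝ) (z y : Pt), WB (wt (-1) y) k (|κ| * cc s ^ k * (1 + nsq z) ^ N * B * wt m y)
      (fun y => κ * F (cc s • y + s • z)) y := by
  obtain ⟨N, hN⟩ := exists_nat_ge ((k - m) / 2)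
  obtain ⟨B, hB⟩ := (l0.cc_sym hF (-(2 * N))).2 k
  refine ⟨N, |B| * 4 ^ N, by positivity, fun κ s z y => ?_⟩
  have n1 := nsq_nonneg y
  have n2 := nsq_nonneg z
  have n3 := nsq_nonneg (cc s • y + s • z)
  have c1 := one_le_cc s
  have w1 : wt (-(2 * N)) (cc s • y + s • z) ≤ 4 ^ N * (1 + nsq z) ^ N * wt (-(2 * N)) y := by
    rw [wt_neg_two, wt_neg_two, ← div_eq_mul_inv, le_div_iff₀ (by positivity),
      inv_mul_le_iff₀ (by positivity), ← mul_pow, ← mul_pow]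
    exact pow_le_pow_left₀ (by positivity) ((peetre s y z).trans_eq (by ring)) N
  have h1 := (b1 4).mono (a' := |B| * (4 ^ N * (1 + nsq z) ^ N * wt (-(2 * N)) y))
    (hB (cc s • y + s • z) trivial) (l0.wt_pos _ _).le (wt_le_one l0 (by norm_num) _)
    (mul_le_mul (le_abs_self _) w1 (l0.wt_pos _ _).le (abs_nonneg _))
  have h2 := wb_aff (cc s) (by linarith) (s • z) y k κ _ hF.1 h1
  have e : cc s * wt 1 y * wt (-1) y = cc s := by
    rw [mul_assoc, ← l0.wt_add, add_neg_cancel, l0.wt_zero, mul_one]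
  have w2 : 1 ≤ wt 1 y := l0.wt_zero y ▸ l0.wt_mono (a := 0) (b := 1) zero_le_one y
  have h3 := wb_trade (r := wt (-1) y) (θ := cc s * wt 1 y) (one_le_mul_of_one_le_of_one_le c1 w2)
    y k (by rw [e]; exact h2)
  refine (b1 4).mono h3 (l0.wt_pos _ _).le le_rfl ?_
  have w3 : wt (-(2 * N)) y * wt 1 y ^ k ≤ wt m y := by
    rw [wt_pow l0, ← l0.wt_add]
    exact l0.wt_mono (by linarith) y
  calc _ = |κ| * cc s ^ k * (1 + nsq z) ^ N * (|B| * 4 ^ N) * (wt (-(2 * N)) y * wt 1 y ^ k) := by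
        rw [mul_pow]; ring
    _ ≤ _ := by gcongr

end Main

/-- Superposition of Gaussian averages. -/
noncomputable def II (G : Pt → ℝ) (μ : Measure ℝ) (κ : ℝ → ℝ) (F : Pt → ℝ) (y : Pt) : ℝ :=
  ∫ w : ℝ × Pt, G w.2 * κ w.1 * F (cc w.1 • y + w.1 • w.2) ∂μ.prod volume

section II

variable (b1 : B1Stmt) (l0 : L0Facts) (pi0 : PIStmt) {G : Pt → ℝ} (hG : Gauss G)
include b1 l0 pi0 hG

theorem ii_main {F : Pt → ℝ} (hF : CC F) (m : ℝ) (k : ℕ) : ∃ B : ℝ, 0 ≤ B ∧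
    ∀ (S : ℝ) (μ : Measure ℝ) [IsFiniteMeasure μ] (κ : ℝ → ℝ), (∀ᵐ s ∂μ, s ∈ Set.Icc 0 S) →
      ContDiff ℝ ∞ κ → ContDiff ℝ ∞ (II G μ κ F) ∧
        (∀ i, pd i (II G μ κ F) = II G μ (fun s => κ s * cc s) (pd i F)) ∧
        Sym m k (II G μ κ F) (B * ∫ s, |κ s| * cc s ^ k ∂μ) := by
  obtain ⟨N, B, b0, hB⟩ := hb b1 l0 hF m k
  have j0 : 0 ≤ ∫ z, G z * (1 + nsq z) ^ N :=
    integral_nonneg fun z => mul_nonneg (hG.nonneg z) (by have := nsq_nonneg z; positivity)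
  refine ⟨B * ∫ z, G z * (1 + nsq z) ^ N, mul_nonneg b0 j0, fun S μ _ κ hμ hκ => ?_⟩
  have c1 := contDiff_cc
  have int : ∀ (k N : ℕ) (A : ℝ), Integrable (fun w : ℝ × Pt =>
      |G w.2 * κ w.1| * cc w.1 ^ k * (1 + nsq w.2) ^ N * A) (μ.prod volume) := fun k N A => by
    have h1 : Continuous fun s => |κ s| * cc s ^ k * A := by
      have := hκ.continuous
      have := c1.continuous
      fun_prop
    refine (((tame_fst (S := S) h1).mul (tame_pow N)).int hG hμ).congr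
      (Eventually.of_forall fun w => ?_)
    dsimp only
    rw [abs_mul, abs_of_nonneg (hG.nonneg _)]
    ring
  obtain ⟨a1, a2, a3⟩ := piT pi0 (μ.prod volume)
    (fun (w : ℝ × Pt) y => G w.2 * κ w.1 * F (cc w.1 • y + w.1 • w.2))
    (by
      have := hG.sm
      have := hF.1
      fun_prop) fun k' => by
      obtain ⟨N', B', -, hB'⟩ := hb b1 l0 hF 0 k'
      refine ⟨_, int k' N' B', fun w q => ?_⟩
      have := hB' (G w.2 * κ w.1) w.1 w.2 q
      rw [l0.wt_zero, mul_one] at this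
      exact (b1 4).mono this (l0.wt_pos _ _).le (wt_le_one l0 (by norm_num) _) le_rfl
  refine ⟨a1, fun i => (a2 i).trans (funext fun y => ?_), fun y _ => ?_⟩
  · simp only [pd_aff hF.1]
    simp only [II, mul_assoc]
  · have h1 := a3 y (wt (-1) y) k _ (int k N (B * wt m y)) fun w => by
      rw [← mul_assoc]
      exact hB (G w.2 * κ w.1) w.1 w.2 y
    have h2 : ∫ w : ℝ × Pt, |G w.2 * κ w.1| * cc w.1 ^ k * (1 + nsq w.2) ^ N * (B * wt m y)
        ∂μ.prod volume =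
        (B * ∫ z, G z * (1 + nsq z) ^ N) * (∫ s, |κ s| * cc s ^ k ∂μ) * wt m y := by
      have h3 := integral_prod_mul (μ := μ) (ν := volume) (fun s => |κ s| * cc s ^ k)
        fun z : Pt => G z * (1 + nsq z) ^ N
      have h4 : ∀ w : ℝ × Pt, |G w.2 * κ w.1| * cc w.1 ^ k * (1 + nsq w.2) ^ N * (B * wt m y) =
          |κ w.1| * cc w.1 ^ k * (G w.2 * (1 + nsq w.2) ^ N) * (B * wt m y) := fun w => by
        rw [abs_mul, abs_of_nonneg (hG.nonneg _)]
        ring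
      simp only [h4]
      rw [integral_mul_const, h3]
      ring
    rw [h2] at h1
    exact h1

end II

/-! ### The equation -/

/-- The operator with flat principal part. -/
noncomputable def Lf (lam : ℝ) (f : Pt → ℝ) (y : Pt) : ℝ :=
  ∑ i, pd i (pd i f) y + 1 / 2 * ∑ i, y i * pd i f y - lam * f y

theorem lsc_eq (lam : ℝ) (f : Pt → ℝ) :
    Lsc (fun i j _ => if i = j then 1 else 0) lam f = Lf lam f := by
  funext y
  simp [Lsc, Lf]

noncomputable def be (lam s : ℝ) : ℝ := (1 + s ^ 2 / 2) ^ (-lam - 1)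

noncomputable def al (lam s : ℝ) : ℝ := (1 + s ^ 2 / 2) ^ (-lam)

theorem al_eq (lam s : ℝ) : al lam s = be lam s * cc s ^ 2 := by
  rw [cc_sq, be, ← Real.rpow_add_one (by positivity), sub_add_cancel, al]

theorem contDiff_be (lam : ℝ) : ContDiff ℝ ∞ (be lam) :=
  ContDiff.rpow_const_of_ne (by fun_prop) fun s => by positivity

theorem contDiff_al (lam : ℝ) : ContDiff ℝ ∞ (al lam) :=
  ContDiff.rpow_const_of_ne (by fun_prop) fun s => by positivity

theorem hasDerivAt_al (lam s : ℝ) : HasDerivAt (al lam) (s * -lam * be lam s) s := by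
  have h1 : HasDerivAt (fun s : ℝ => 1 + s ^ 2 / 2) s s := by
    simpa using ((hasDerivAt_pow 2 s).div_const 2).const_add 1
  exact h1.rpow_const (Or.inl (by positivity))

theorem hasDerivAt_flow {F : Pt → ℝ} (hF : ContDiff ℝ ∞ F) (lam s : ℝ) (y z : Pt) :
    HasDerivAt (fun s => al lam s * F (cc s • y + s • z))
      (s * -lam * be lam s * F (cc s • y + s • z) + al lam s *
        ∑ i, (s / (2 * cc s) * y i + z i) * pd i F (cc s • y + s • z)) s := by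
  have h1 : HasDerivAt (fun s : ℝ => cc s • y + s • z) ((s / (2 * cc s)) • y + (1 : ℝ) • z) s :=
    ((hasDerivAt_cc s).smul_const y).add ((hasDerivAt_id s).smul_const z)
  have h2 := (da hF (cc s • y + s • z)).hasFDerivAt.comp_hasDerivAt s h1
  rw [clm_sum] at h2
  simp only [Pi.add_apply, Pi.smul_apply, smul_eq_mul, one_mul] at h2
  exact (hasDerivAt_al lam s).mul h2

section Eq

variable (l0 : L0Facts) {G : Pt → ℝ} (hG : Gauss G)
include l0 hG

theorem gauss_ibp {φ : Pt → ℝ} (hφ : CC φ) {s : ℝ} (hs : s ≠ 0) (v : Pt) (i : Fin 4) :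
    ∫ z, G z * (s * pd i φ (v + s • z)) = ∫ z, G z * (z i * φ (v + s • z)) := by
  have h1 : CC fun z : Pt => 1 * φ (s • z + v) := by
    refine ⟨by have := hφ.1; fun_prop, ?_⟩
    have := hφ.2.comp_homeomorph ((Homeomorph.smulOfNeZero s hs).trans (Homeomorph.addRight v))
    simpa [Function.comp_def] using this
  have h2 := l0.ibp hG.sm h1 i
  rw [pd_aff hφ.1, ← integral_neg] at h2
  simp only [hG.der, one_mul, add_comm (s • _) v] at h2
  rw [h2]
  exact integral_congr_ae (Eventually.of_forall fun z => by ring)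

theorem solve (b1 : B1Stmt) (pi0 : PIStmt) {F : Pt → ℝ} (hF : CC F) (lam : ℝ) {S : ℝ}
    (hS : 0 ≤ S) (y : Pt) :
    Lf lam (II G (volume.restrict (Set.Ioc 0 S)) (fun s => -(s * be lam s)) F) y =
      F y - II G (Measure.dirac S) (al lam) F y := by
  set μ : Measure ℝ := volume.restrict (Set.Ioc 0 S) with hμ'
  have hμ0 : ∀ᵐ s ∂μ, s ∈ Set.Ioc 0 S := ae_restrict_mem measurableSet_Ioc
  have hμ : ∀ᵐ s ∂μ, s ∈ Set.Icc 0 S := hμ0.mono fun s hs => Set.Ioc_subset_Icc_self hs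
  have c1 := contDiff_cc
  have c2 := contDiff_be lam
  have c3 := contDiff_al lam
  have d1 := c1.continuous
  have d2 := c2.continuous
  have d3 := c3.continuous
  have der : ∀ {φ : Pt → ℝ} {κ : ℝ → ℝ}, CC φ → ContDiff ℝ ∞ κ → ∀ i,
      pd i (II G μ κ φ) = II G μ (fun s => κ s * cc s) (pd i φ) := fun hφ hκ => by
    obtain ⟨B, -, hB⟩ := ii_main b1 l0 pi0 hG hφ 0 0
    exact (hB S μ _ hμ hκ).2.1
  have k0 : ContDiff ℝ ∞ fun s => -(s * be lam s) := by fun_prop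
  have k1 : ContDiff ℝ ∞ fun s => -(s * be lam s) * cc s := by fun_prop
  have tm : ∀ {φ : Pt → ℝ} {κ : ℝ → ℝ}, CC φ → Continuous κ →
      Tame S fun w => κ w.1 * φ (cc w.1 • y + w.1 • w.2) := fun hφ hκ =>
    (tame_fst hκ).mul (tame_cc hφ d1 y)
  let A : Fin 4 → ℝ × Pt → ℝ := fun i w =>
    w.2 i * (-al lam w.1 * pd i F (cc w.1 • y + w.1 • w.2))
  let B : Fin 4 → ℝ × Pt → ℝ := fun i w =>
    1 / 2 * y i * (-(w.1 * be lam w.1) * cc w.1) * pd i F (cc w.1 • y + w.1 • w.2)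
  let C : ℝ × Pt → ℝ := fun w => lam * (w.1 * be lam w.1) * F (cc w.1 • y + w.1 • w.2)
  have tA : ∀ i, Tame S (A i) := fun i =>
    (tame_coord i).mul (tm (κ := fun s => -al lam s) (l0.cc_pd hF i) (by fun_prop))
  have tB : ∀ i, Tame S (B i) := fun i =>
    tm (κ := fun s => 1 / 2 * y i * (-(s * be lam s) * cc s)) (l0.cc_pd hF i) (by fun_prop)
  have tC : Tame S C := tm (κ := fun s => lam * (s * be lam s)) hF (by fun_prop)
  have eA : ∀ i, pd i (pd i (II G μ (fun s => -(s * be lam s)) F)) y =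
      ∫ w, G w.2 * A i w ∂μ.prod volume := fun i => by
    rw [der hF k0, der (l0.cc_pd hF i) k1, integral_prod _ ((tA i).int hG hμ)]
    have t1 := (tm (κ := fun s => -(s * be lam s) * cc s * cc s) (l0.cc_pd (l0.cc_pd hF i) i)
      (by fun_prop)).int hG hμ
    simp only [II, mul_assoc (G _)]
    rw [integral_prod _ t1]
    refine integral_congr_ae (hμ0.mono fun s hs => ?_)
    have h1 := congrArg (-al lam s * ·) (gauss_ibp l0 hG (l0.cc_pd hF i) hs.1.ne' (cc s • y) i)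
    simp only [← integral_const_mul] at h1
    dsimp only
    refine Eq.trans (integral_congr_ae (Eventually.of_forall fun z => ?_))
      (h1.trans (integral_congr_ae (Eventually.of_forall fun z => ?_)))
    · rw [al_eq]; ring
    · simp only [A]; ring
  have eB : ∀ i, 1 / 2 * (y i * pd i (II G μ (fun s => -(s * be lam s)) F) y) =
      ∫ w, G w.2 * B i w ∂μ.prod volume := fun i => by
    rw [der hF k0, ← mul_assoc, II, ← integral_const_mul]
    exact integral_congr_ae (Eventually.of_forall fun w => by simp only [B]; ring)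
  have eC : -(lam * II G μ (fun s => -(s * be lam s)) F y) = ∫ w, G w.2 * C w ∂μ.prod volume := by
    rw [← neg_mul, II, ← integral_const_mul]
    exact integral_congr_ae (Eventually.of_forall fun w => by simp only [C]; ring)
  have tD := ((tame_sum tA).add (tame_sum tB)).add tC
  have e1 : Lf lam (II G μ (fun s => -(s * be lam s)) F) y =
      ∫ w, G w.2 * (∑ i, A i w + ∑ i, B i w + C w) ∂μ.prod volume := by
    have i1 : ∀ i, Integrable (fun w => G w.2 * A i w) (μ.prod volume) := fun i => (tA i).int hG hμ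
    have i2 : ∀ i, Integrable (fun w => G w.2 * B i w) (μ.prod volume) := fun i => (tB i).int hG hμ
    have i3 := integrable_finsetSum Finset.univ fun i _ => i1 i
    have i4 := integrable_finsetSum Finset.univ fun i _ => i2 i
    have i5 : Integrable (fun w => ∑ i, G w.2 * A i w + ∑ i, G w.2 * B i w) (μ.prod volume) :=
      i3.add i4
    simp only [mul_add, Finset.mul_sum]
    rw [integral_add i5 (tC.int hG hμ), integral_add i3 i4,
      integral_finsetSum _ fun i _ => i1 i, integral_finsetSum _ fun i _ => i2 i, Lf,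
      sub_eq_add_neg, eC, Finset.mul_sum]
    simp only [eA, eB]
  have e2 : ∀ z, ∫ s, G z * (∑ i, A i (s, z) + ∑ i, B i (s, z) + C (s, z)) ∂μ =
      G z * F y - G z * al lam S * F (cc S • y + S • z) := fun z => by
    have h1 : ∀ s ∈ Set.uIcc 0 S, HasDerivAt (fun s => -(al lam s * F (cc s • y + s • z)))
        (∑ i, A i (s, z) + ∑ i, B i (s, z) + C (s, z)) s := fun s _ => by
      refine (hasDerivAt_flow hF.1 lam s y z).neg.congr_deriv ?_
      have := one_le_cc s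
      simp only [A, B, C, Fin.sum_univ_four, al_eq]
      field_simp
      ring
    have h2 := intervalIntegral.integral_eq_sub_of_hasDerivAt h1
      ((tD.1.comp (continuous_id.prodMk continuous_const)).intervalIntegrable 0 S)
    rw [intervalIntegral.integral_of_le hS] at h2
    rw [integral_const_mul, h2]
    simp [al, cc]
    ring
  have hd : ∀ᵐ s ∂Measure.dirac S, s ∈ Set.Icc 0 S := by
    rw [ae_dirac_eq]
    exact ⟨hS, le_rfl⟩
  have i5 := (tm hF d3).int hG hd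
  have i6 : Integrable fun z => G z * al lam S * F (cc S • y + S • z) := by
    have := i5.prod_right_ae
    rw [ae_dirac_eq, eventually_pure] at this
    simpa only [mul_assoc] using this
  have i7 : Integrable G := by simpa using hG.int 0
  rw [e1, integral_prod_symm _ (tD.int hG hμ)]
  simp only [e2]
  rw [integral_sub (i7.mul_const _) i6, integral_mul_const, hG.one, one_mul]
  simp only [II, mul_assoc (G _)]
  rw [integral_prod _ i5, integral_dirac]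

end Eq

/-! ### Symbols and the cutoff -/

theorem lf_congr (lam : ℝ) {f g : Pt → ℝ} {y : Pt} (h : f =ᶠ[𝓝 y] g) :
    Lf lam f =ᶠ[𝓝 y] Lf lam g := by
  have h1 : ∀ᶠ q in 𝓝 y, ∀ i, pd i f q = pd i g q := eventually_all.2 fun i => pdn_congr h i
  have h2 : ∀ᶠ q in 𝓝 y, ∀ i, pd i (pd i f) q = pd i (pd i g) q :=
    eventually_all.2 fun i => pdn_congr (pdn_congr h i) i
  filter_upwards [h, h1, h2] with q a b c
  simp only [Lf, a, b, c]

theorem contDiff_pd {f : Pt → ℝ} (h : ContDiff ℝ ∞ f) (i : Fin 4) : ContDiff ℝ ∞ (pd i f) :=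
  contDiff_pdn h i

theorem contDiff_lf (lam : ℝ) {f : Pt → ℝ} (h : ContDiff ℝ ∞ f) : ContDiff ℝ ∞ (Lf lam f) := by
  have h1 := fun i => contDiff_pd h i
  have h2 := fun i => contDiff_pd (h1 i) i
  unfold Lf
  fun_prop

theorem cc_lf (lam : ℝ) {f : Pt → ℝ} (h : CC f) : CC (Lf lam f) := by
  refine ⟨contDiff_lf lam h.1, HasCompactSupport.intro h.2 fun x hx => ?_⟩
  rw [(lf_congr lam (notMem_tsupport_iff_eventuallyEq.1 hx)).self_of_nhds]
  have : ∀ i, pd i (0 : Pt → ℝ) = 0 := fun i => by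
    funext y
    simp [pd]
  simp [Lf, this]

/-- A smooth symbol with a bound. -/
def SS (m : ℝ) (k : ℕ) (f : Pt → ℝ) (C : ℝ) : Prop := ContDiff ℝ ∞ f ∧ Sym m k f C

section Sy

variable (l0 : L0Facts) {m m' : ℝ} {k : ℕ} {f g : Pt → ℝ} {C C' : ℝ}
include l0

theorem ss_add (h : SS m k f C) (h' : SS m k g C') : SS m k (f + g) (C + C') :=
  ⟨h.1.add h'.1, l0.add (fun _ _ => h.1.contDiffAt) (fun _ _ => h'.1.contDiffAt) h.2 h'.2⟩

theorem ss_smul (c : ℝ) (h : SS m k f C) : SS m k (c • f) (|c| * C) :=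
  ⟨h.1.const_smul c, l0.smul c (fun _ _ => h.1.contDiffAt) h.2⟩

theorem ss_mul (h : SS m k f C) (h' : SS m' k g C') : SS (m + m') k (f * g) (2 ^ k * C * C') :=
  ⟨h.1.mul h'.1, l0.mul (fun _ _ => h.1.contDiffAt) (fun _ _ => h'.1.contDiffAt) h.2 h'.2⟩

theorem ss_mono {k' : ℕ} (h : SS m k f C) (h1 : m ≤ m') (h2 : k' ≤ k) : SS m' k' f C :=
  ⟨h.1, l0.mono h.2 subset_rfl h1 h2 le_rfl⟩

theorem ss_pd (h : SS m (k + 1) f C) (i : Fin 4) : SS (m - 1) k (pd i f) C :=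
  ⟨contDiff_pd h.1 i, (l0.succ.1 h.2).2 i⟩

theorem ss_sum {f : Fin 4 → Pt → ℝ} (h : ∀ i, SS m k (f i) C) :
    SS m k (∑ i, f i) (C + C + C + C) := by
  rw [Fin.sum_univ_four]
  exact ss_add l0 (ss_add l0 (ss_add l0 (h 0) (h 1)) (h 2)) (h 3)

theorem ss_lf (lam m : ℝ) (k : ℕ) (C : ℝ) :
    ∃ C', ∀ f, SS m (k + 2) f C → SS m k (Lf lam f) C' := by
  refine ⟨C + C + C + C + |1 / 2| * (2 ^ k * 1 * C + 2 ^ k * 1 * C + 2 ^ k * 1 * C + 2 ^ k * 1 * C)
    + |-lam| * C, fun f h => ?_⟩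
  have h1 := ss_sum l0 fun i => ss_mono l0 (m' := m) (ss_pd l0 (ss_pd l0 h i) i) (by linarith) le_rfl
  have h2 := ss_sum l0 fun i => ss_mono l0 (m' := m) (ss_mul l0 (f := fun y => y i)
    ⟨by fun_prop, l0.coord i k⟩ (ss_mono l0 (ss_pd l0 h i) le_rfl (Nat.le_succ k))) (by linarith)
    le_rfl
  have h3 := ss_add l0 (ss_add l0 h1 (ss_smul l0 (1 / 2) h2))
    (ss_smul l0 (-lam) (ss_mono l0 h le_rfl (Nat.le_add_right k 2)))
  convert h3 using 1
  funext y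
  simp only [Lf, Pi.add_apply, Pi.smul_apply, Finset.sum_apply, Pi.mul_apply, smul_eq_mul]
  ring

theorem sym_far (b1 : B1Stmt) {n : ℕ} (hn : 0 < n) (h : Sym (m - 1) k f C)
    (h0 : ∀ y, nsq y < (n : ℝ) ^ 2 → f =ᶠ[𝓝 y] fun _ => 0) : Sym m k f (|C| / n) := by
  intro y _
  have n0 : (0 : ℝ) < n := Nat.cast_pos.2 hn
  have w0 := l0.wt_pos m y
  have r0 := (l0.wt_pos (-1) y).le
  by_cases hy : nsq y < (n : ℝ) ^ 2
  · refine (b1 4).mono ((b1 4).congr ((b1 4).const k 0 y r0) (h0 y hy).symm) r0 le_rfl ?_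
    rw [abs_zero]
    positivity
  · refine (b1 4).mono (h y trivial) r0 le_rfl ?_
    have e1 : wt (-1) y ^ 2 * (1 + nsq y) = 1 := by
      rw [sq, ← l0.wt_add, ← l0.wt_two, ← l0.wt_add]
      norm_num [l0.wt_zero]
    have e2 : wt (-1) y * n ≤ 1 := by
      refine (sq_le_one_iff₀ (by positivity)).1 ?_
      rw [mul_pow]
      exact (mul_le_mul_of_nonneg_left (by linarith [not_lt.1 hy]) (sq_nonneg _)).trans e1.le
    have e3 : wt (-1) y ≤ 1 / n := (le_div_iff₀ n0).2 e2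
    rw [sub_eq_add_neg, l0.wt_add]
    calc C * (wt m y * wt (-1) y) ≤ |C| * (wt m y * (1 / n)) :=
          mul_le_mul (le_abs_self C) (by gcongr) (by positivity) (abs_nonneg C)
      _ = _ := by ring

theorem yn_le (s : ℕ) (δ : ℝ) : ∃ C : ℝ, 0 < C ∧ ∀ u η, CC u → 0 ≤ η → Sym (-δ - 1) s u η →
    Yn s s δ u ≤ C * η := by
  have h : ∀ j : ℕ, ∃ C : ℝ, ∀ u η, CC u → Sym (-δ - 1) j u η → nn j (δ - 2 + j) u ≤ C * η :=
    fun j => l0.nn_sym j _ _ (by linarith)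
  choose C hC using h
  refine ⟨1 + ∑ j ∈ Finset.range (s + 1), |C j|, by positivity, fun u η hu h0 hs => ?_⟩
  rw [add_mul, Finset.sum_mul]
  refine le_add_of_nonneg_of_le (by positivity) (Finset.sum_le_sum fun j hj => ?_)
  have hj' : j ≤ s := Nat.lt_succ_iff.1 (Finset.mem_range.1 hj)
  rw [min_eq_left hj']
  exact (hC j u η hu (l0.mono hs subset_rfl le_rfl hj' le_rfl)).trans
    (mul_le_mul_of_nonneg_right (le_abs_self _) h0)

end Sy

theorem al_small {k : ℕ} {lam : ℝ} (h : (k : ℝ) + 1 ≤ lam) {ε : ℝ} (hε : 0 < ε) :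
    ∃ S : ℝ, 0 ≤ S ∧ |al lam S| * cc S ^ k ≤ ε := by
  refine ⟨ε⁻¹ + 2, by positivity, ?_⟩
  set S := ε⁻¹ + 2 with hS
  have e0 : 0 < ε⁻¹ := inv_pos.2 hε
  have x1 : (1 : ℝ) ≤ 1 + S ^ 2 / 2 := by nlinarith [sq_nonneg S]
  have x2 : ε⁻¹ ≤ 1 + S ^ 2 / 2 := by nlinarith
  have c1 := one_le_cc S
  have c2 : cc S ≤ 1 + S ^ 2 / 2 := by rw [← cc_sq]; nlinarith
  have a0 : 0 < al lam S := Real.rpow_pos_of_pos (by positivity) _
  rw [abs_of_pos a0]
  calc al lam S * cc S ^ k ≤ al lam S * (1 + S ^ 2 / 2) ^ k := by gcongr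
    _ = (1 + S ^ 2 / 2) ^ (-lam + k) := by
        rw [Real.rpow_add (by positivity), Real.rpow_natCast, al]
    _ ≤ (1 + S ^ 2 / 2) ^ (-1 : ℝ) := Real.rpow_le_rpow_of_exponent_le x1 (by linarith)
    _ ≤ ε := by
        rw [Real.rpow_neg_one]
        exact inv_le_of_inv_le₀ hε x2

end Ou

open Ou

theorem ou (b1 : B1Stmt) (l0 : L0Facts) (pi0 : PIStmt) (_pi1 : PI1Stmt) : OuStmt := by
  intro s δ
  refine ⟨s + 1, fun lam hl F hF η hη => ?_⟩
  obtain ⟨G, hG⟩ := exists_gauss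
  obtain ⟨Cy, y0, hY⟩ := yn_le l0 s δ
  obtain ⟨B, b0, hB⟩ := ii_main b1 l0 pi0 hG hF (-δ - 1) s
  obtain ⟨S, hS, hal⟩ := al_small hl (ε := η / (2 * Cy * (B + 1))) (by positivity)
  have hd : ∀ᵐ t ∂Measure.dirac S, t ∈ Set.Icc 0 S := by
    rw [ae_dirac_eq]
    exact ⟨hS, le_rfl⟩
  obtain ⟨r1, -, r2⟩ := hB S (Measure.dirac S) (al lam) hd (contDiff_al lam)
  rw [integral_dirac] at r2
  obtain ⟨B', -, hB'⟩ := ii_main b1 l0 pi0 hG hF (-δ - 1 - 1) (s + 2)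
  obtain ⟨u1, -, u2⟩ := hB' S (volume.restrict (Set.Ioc 0 S)) (fun t => -(t * be lam t))
    ((ae_restrict_mem measurableSet_Ioc).mono fun _ h => Set.Ioc_subset_Icc_self h)
    (by have := contDiff_be lam; fun_prop)
  have eqn := solve l0 hG b1 pi0 hF lam hS
  generalize II G (volume.restrict (Set.Ioc 0 S)) (fun t => -(t * be lam t)) F = u at u1 u2 eqn
  generalize II G (Measure.dirac S) (al lam) F = R at r1 r2 eqn
  obtain ⟨χ, x1, x2, x3⟩ := l0.cut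
  obtain ⟨Cx, hx⟩ := x3 (s + 2)
  obtain ⟨C1, hC1⟩ := ss_lf l0 lam (-δ - 1 - 1) s _
  obtain ⟨C2, hC2⟩ := ss_lf l0 lam (-δ - 1 - 1) s _
  have d1 := fun n => ss_add l0 (hC1 _ (ss_mono l0 (ss_mul l0 ⟨(x1 n).1, hx n⟩ ⟨u1, u2⟩)
    (zero_add _).le le_rfl)) (ss_smul l0 (-1) (hC2 u ⟨u1, u2⟩))
  obtain ⟨n, hn⟩ := exists_nat_gt (|C1 + |-1| * C2| * (2 * Cy) / η)
  have n0 : (0 : ℝ) < n := lt_of_le_of_lt (by positivity) hn
  have cu : CC (χ n * u) := mul_comm u (χ n) ▸ l0.cc_mul u1 (x1 n)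
  have d2 := sym_far l0 b1 (Nat.cast_pos.1 n0) (d1 n).2 fun y hy => by
    have h1 : χ n * u =ᶠ[𝓝 y] u := by
      filter_upwards [(isOpen_lt contDiff_nsq.continuous continuous_const).mem_nhds hy] with q hq
      simp [x2 n q (le_of_lt hq)]
    filter_upwards [lf_congr lam h1] with q hq
    simp [hq]
  have d3 := ss_add l0 (ss_smul l0 (-1) ⟨r1, r2⟩) ⟨(d1 n).1, d2⟩
  have e : Lf lam (χ n * u) - F = (-1 : ℝ) • R + (Lf lam (χ n * u) + (-1 : ℝ) • Lf lam u) := by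
    funext y
    simp only [Pi.add_apply, Pi.sub_apply, Pi.smul_apply, smul_eq_mul, eqn y]
    ring
  have cv : CC (Lf lam (χ n * u) - F) :=
    ⟨(cc_lf lam cu).1.sub hF.1, (cc_lf lam cu).2.sub hF.2⟩
  have c0 := one_le_cc S
  refine ⟨χ n * u, cu, ?_⟩
  rw [lsc_eq]
  refine (hY _ _ cv (by positivity) (e ▸ d3.2)).trans ?_
  have f1 : Cy * (|(-1 : ℝ)| * (B * (|al lam S| * cc S ^ s))) ≤ η / 2 := by
    rw [abs_neg, abs_one, one_mul]
    calc Cy * (B * (|al lam S| * cc S ^ s)) ≤ Cy * ((B + 1) * (η / (2 * Cy * (B + 1)))) := by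
          gcongr; linarith
      _ = η / 2 := by field_simp
  have f2 : Cy * (|C1 + |-1| * C2| / n) ≤ η / 2 := by
    rw [div_lt_iff₀ hη] at hn
    rw [← mul_div_assoc, div_le_div_iff₀ n0 two_pos]
    linarith
  linarith

end Pool.Agent.Lib.MP_df9110_gt
end
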