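import Pool.Agent.Lib.MP_df9110_gt.NBlk

/-! Pointwise properties of the outer block. -/

namespace Pool.Agent.Lib.MP_df9110_gt

open Filter Topology Set
open scoped ContDiff

namespace OutBlk

section Calc

theorem pdn_one (f : ℝ → ℝ) (j : Fin 2) (p : En 2) :
    pdn j (fun q => f (q 0)) p = if j = 0 then deriv f (p 0) else 0 := by
  by_cases h : DifferentiableAt ℝ f (p 0)
  · have := h.hasDerivAt.hasFDerivAt.comp p (hasFDerivAt_apply (𝕜 := ℝ) 0 p)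
    rw [pdn, show (fun q : En 2 => f (q 0)) = f ∘ fun q => q 0 from rfl, this.fderiv]
    by_cases hj : j = 0
    · simp [hj]
    · simp [hj, Ne.symm hj]
  · have h1 : ¬ DifferentiableAt ℝ (fun q : En 2 => f (q 0)) p := fun h1 => h (by
      have h2 : DifferentiableAt ℝ (fun q : En 2 => f (q 0)) (Function.update p 0 (p 0)) := by
        simpa using h1
      simpa [Function.comp_def] using
        (h2.hasFDerivAt.comp_hasDerivAt _ (hasDerivAt_update p 0 (p 0))).differentiableAt)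
    simp [pdn, fderiv_zero_of_not_differentiableAt h1, deriv_zero_of_not_differentiableAt h]

theorem pdn_zero (i : Fin 2) : pdn i (0 : En 2 → ℝ) = 0 := by
  funext p; simp [pdn]

theorem T_one (B : Blk (En 2 → ℝ)) (f : ℝ → ℝ) :
    B.T pdn (fun q => f (q 0)) = fun q => deriv f (q 0) := by
  funext q; simp [Blk.T, pdn_one]

theorem X_one (f : ℝ → ℝ) : pdn 1 (fun q : En 2 => f (q 0)) = 0 := by
  funext q; simp [pdn_one]

/-- The first order coefficient of the Laplacian. -/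
noncomputable def cW (B : Blk (En 2 → ℝ)) (p : En 2) : ℝ :=
  1 / 2 * (B.a p * B.ta pdn p) - B.a p * B.j pdn p - B.a p * B.y₁ pdn p

theorem lap_one (B : Blk (En 2 → ℝ)) (g : ℝ → ℝ) (p : En 2) :
    B.lap pdn (fun q => g (q 0)) 0 p = B.a p * deriv g (p 0) + cW B p * g (p 0) := by
  simp [Blk.lap, Blk.H11, Blk.H22, Blk.Xa, T_one, pdn_zero, cW]
  ring

theorem lap_rpow (B : Blk (En 2 → ℝ)) (m : ℝ) {p : En 2} (hp : 0 < p 0) :
    B.lap pdn (B.T pdn fun q => q 0 ^ (1 / 4 : ℝ) / m) (pdn 1 fun q => q 0 ^ (1 / 4 : ℝ) / m) p =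
      p 0 ^ (1 / 4 : ℝ) / m / 4 *
        (B.lap pdn (fun q => (q 0)⁻¹) 0 p + B.a p * (p 0)⁻¹ ^ 2 / 4) := by
  have h1 : deriv (fun x : ℝ => x ^ (1 / 4 : ℝ) / m) =
      fun x => 1 / 4 * x ^ (1 / 4 - 1 : ℝ) / m := by
    funext x; rw [deriv_div_const, Real.deriv_rpow_const]
  rw [T_one B fun x => x ^ (1 / 4 : ℝ) / m, X_one fun x => x ^ (1 / 4 : ℝ) / m,
    lap_one B (deriv fun x => x ^ (1 / 4 : ℝ) / m), lap_one B fun x => x⁻¹, h1, deriv_div_const,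
    deriv_const_mul_field, Real.deriv_rpow_const, deriv_inv]
  simp only [Real.rpow_sub_one hp.ne']
  field_simp
  ring

end Calc

section Dif

variable {R S : Type} [CommRing R] [Algebra ℝ R] [CommRing S] [Algebra ℝ S]

/-- The differences of the two sides of the identities. -/
noncomputable def dif (D : Fin 2 → R → R) (E : R → R) (O : Out R) (εi μi : R) (i : Fin 8) :
    Fin 8 → R :=
  ![(O.blk E εi μi).e11 D - O.μ * O.err D E 0,
    2 * O.ε * O.μ * E O.lc * (O.blk E εi μi).e12 D - O.err D E 1,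
    (O.blk E εi μi).e22 D - O.μ * O.err D E 2,
    (O.blk E εi μi).e₁ D - O.μ * O.err D E 3,
    (O.blk E εi μi).e₂ D - O.μ * O.err D E 4,
    (O.blk E εi μi).lap D μi 0 + 1 - O.ε * O.μ * O.lapmu D E,
    if i = 2 ∨ i = 5 then O.μ * (O.blk E εi μi).kv D i - O.kv D E i else
      (O.blk E εi μi).kv D i - O.ε * O.μ * O.kv D E i, 0]

theorem map_dif {D : Fin 2 → R → R} {E : R → R} {D' : Fin 2 → S → S} {E' : S → S} (π : R →ₐ[ℝ] S)
    (hD : ∀ i a, π (D i a) = D' i (π a)) (hE : ∀ a, π (E a) = E' (π a)) (O : Out R) (εi μi : R)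
    (i j : Fin 8) : dif D' E' (O.map π) (π εi) (π μi) i j = π (dif D E O εi μi i j) := by
  have h := Blk.map_lap π hD (O.blk E εi μi) μi 0
  rw [map_zero] at h
  simp only [dif, Gen.vec8 π, apply_ite π, map_sub, map_mul, map_add, map_one, map_ofNat, map_zero,
    hE, Out.map_blk π hD hE, Blk.map_e11 π hD, Blk.map_e12 π hD, Blk.map_e22 π hD,
    Blk.map_e₁ π hD, Blk.map_e₂ π hD, Blk.map_kv π hD, Out.map_err π hD hE, Out.map_kv π hD hE,
    Out.map_lapmu π hD hE, Out.map_ε, Out.map_μ, Out.map_lc, h]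

theorem dif_zero {D : Fin 2 → R → R} {E : R → R} {O : Out R} {εi μi : R} (H : OutHG D E O εi μi)
    (i j : Fin 8) : dif D E O εi μi i j = 0 := by
  refine Gen.all8 (· = 0) (sub_eq_zero.2 H.e11) (sub_eq_zero.2 H.e12) (sub_eq_zero.2 H.e22)
    (sub_eq_zero.2 H.e₁) (sub_eq_zero.2 H.e₂) (sub_eq_zero.2 H.lapmu) ?_ rfl j
  split_ifs with h
  · exact sub_eq_zero.2 (H.kv' i h)
  · exact sub_eq_zero.2 (H.kv i (not_or.1 h).1 (not_or.1 h).2)

end Dif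

section Tr

/-- The part of a filter where `μ > 0`. -/
def lP (l : Filter Z2) : Filter Z2 := l ⊓ 𝓟 {z | 0 < z.2 0}

theorem ev_lP {l : Filter Z2} {Q : Z2 → Prop} :
    (∀ᶠ z in lP l, Q z) ↔ ∀ᶠ z in l, 0 < z.2 0 → Q z := eventually_inf_principal

instance (l : Filter Z2) [OpF l] : OpF (lP l) := ⟨fun {Q} h => by
  rw [ev_lP] at h ⊢
  filter_upwards [OpF.op h] with z hz h0
  filter_upwards [hz, (continuous_apply 0).continuousAt.eventually (lt_mem_nhds h0)] with q h1 h2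
  exact h1 h2⟩

noncomputable def evA (l : Filter Z2) (ε : ℝ) : SmF l →ₐ[ℝ] (En 2 → ℝ) :=
  (Pi.evalAlgHom ℝ (fun _ => En 2 → ℝ) ε).comp (SmF l).val

theorem evD (l : Filter Z2) (ε : ℝ) (i : Fin 2) (a : SmF l) :
    evA l ε (sfD l i a) = pdn i (evA l ε a) := rfl

theorem evE (l : Filter Z2) (ε : ℝ) (a : SmF l) : evA l ε (sfE l a) = ptE (evA l ε a) := rfl

noncomputable def res {l l' : Filter Z2} (h : l ≤ l') (φ : SG l') : SmF l :=
  ⟨(rep φ).1, Eventually.filter_mono h (rep φ).2⟩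

theorem cd0 (q : En 2) : ContDiffAt ℝ ∞ (fun p : En 2 => p 0) q := by fun_prop

def εS (l : Filter Z2) : SmF l := ⟨fun ε _ => ε, Eventually.of_forall fun _ => contDiffAt_const⟩
def cS (l : Filter Z2) : SmF l := ⟨fun _ p => p 0, Eventually.of_forall fun z => cd0 z.2⟩
noncomputable def εI (l : Filter Z2) : SmF l :=
  ⟨fun ε _ => ε⁻¹, Eventually.of_forall fun _ => contDiffAt_const⟩
noncomputable def cI (l : Filter Z2) : SmF (lP l) :=
  ⟨fun _ p => (p 0)⁻¹, ev_lP.2 (Eventually.of_forall fun z h => (cd0 z.2).inv h.ne')⟩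

variable {P : Prof} {c : ℝ} (s : St P c)

noncomputable def OS {l : Filter Z2} (h : l ≤ P.lO) : Out (SmF l) :=
  ⟨εS l, cS l, res h s.la, res h s.bp, res h s.lc, res h (s.u 0), res h (s.u 1)⟩

theorem OS_ev {l : Filter Z2} (h : l ≤ P.lO) (ε : ℝ) : (OS s h).map (evA l ε) = s.OR ε := rfl

theorem OS_mk : (OS s le_rfl).map (mkG _) = s.O 0 := by
  have h : ∀ φ : SG P.lO, mkG _ (res le_rfl φ) = φ := fun φ => mkG_rep φ
  have h1 : mkG _ (εS P.lO) = εG _ := (gm_eq (εS P.lO).2).symm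
  have h2 : mkG _ (cS P.lO) = cG _ := (gm_eq (cS P.lO).2).symm
  simp only [OS, Out.map, St.O, h, h1, h2]
  rfl

theorem ev_eps : ∀ᶠ z in P.lO, 0 < z.1 ∧ z.2 0 < P.M₀ :=
  ev_fam.2 (eventually_nhdsWithin_of_forall fun _ h _ hp => ⟨h, (abs_lt.1 hp.1).2⟩)

theorem mk0 {l : Filter Z2} {F : SmF l} : mkG l F = 0 ↔ ∀ᶠ z in l, F.1 z.1 z.2 = 0 :=
  (map_zero (mkG l) ▸ mkG_eq (F := F) (G := 0) :)

theorem mk1 {l : Filter Z2} {F : SmF l} (h : ∀ᶠ z in l, F.1 z.1 z.2 = 1) : mkG l F = 1 :=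
  (mkG_eq.2 h).trans (map_one (mkG l))

theorem mkm {l : Filter Z2} {F G : SmF l} (h : ∀ᶠ z in l, F.1 z.1 z.2 * G.1 z.1 z.2 = 1) :
    mkG l F * mkG l G = 1 := by
  rw [← map_mul]
  exact mk1 h

theorem dif_mk {l : Filter Z2} [OpF l] (O : Out (SmF l)) (a b : SmF l) (i j : Fin 8) :
    dif gD expG (O.map (mkG l)) (mkG l a) (mkG l b) i j =
      mkG l (dif (sfD l) (sfE l) O a b i j) := by
  have h := map_dif (D := sfD l) (E := sfE l) (D' := gD (l := l)) (E' := expG (l := l)) (mkG l)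
    (mkG_sfD' l) (mkG_sfE l) O a b i j
  exact h

theorem out_mk {l : Filter Z2} [OpF l] (O : Out (SmF l)) :
    (∀ i, (O.map (mkG l)).err gD expG i = mkG l (O.err (sfD l) (sfE l) i)) ∧
    (∀ i, (O.map (mkG l)).kv gD expG i = mkG l (O.kv (sfD l) (sfE l) i)) ∧
    (O.map (mkG l)).lapmu gD expG = mkG l (O.lapmu (sfD l) (sfE l)) := by
  have h1 := Out.map_err (D := sfD l) (E := sfE l) (D' := gD (l := l)) (E' := expG (l := l))
    (mkG l) (mkG_sfD' l) (mkG_sfE l) O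
  have h2 := Out.map_kv (D := sfD l) (E := sfE l) (D' := gD (l := l)) (E' := expG (l := l))
    (mkG l) (mkG_sfD' l) (mkG_sfE l) O
  have h3 := Out.map_lapmu (D := sfD l) (E := sfE l) (D' := gD (l := l)) (E' := expG (l := l))
    (mkG l) (mkG_sfD' l) (mkG_sfE l) O
  exact ⟨h1, h2, h3⟩

theorem out_ev {l : Filter Z2} (ε : ℝ) (O : Out (SmF l)) :
    (∀ i, (O.map (evA l ε)).err pdn ptE i = evA l ε (O.err (sfD l) (sfE l) i)) ∧
    (∀ i, (O.map (evA l ε)).kv pdn ptE i = evA l ε (O.kv (sfD l) (sfE l) i)) ∧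
    (O.map (evA l ε)).lapmu pdn ptE = evA l ε (O.lapmu (sfD l) (sfE l)) := by
  have h1 := Out.map_err (D := sfD l) (E := sfE l) (D' := pdn) (E' := ptE)
    (evA l ε) (evD l ε) (evE l ε) O
  have h2 := Out.map_kv (D := sfD l) (E := sfE l) (D' := pdn) (E' := ptE)
    (evA l ε) (evD l ε) (evE l ε) O
  have h3 := Out.map_lapmu (D := sfD l) (E := sfE l) (D' := pdn) (E' := ptE)
    (evA l ε) (evD l ε) (evE l ε) O
  exact ⟨h1, h2, h3⟩

theorem dif_ev {l : Filter Z2} (ε : ℝ) (O : Out (SmF l)) (a b : SmF l) (i j : Fin 8) :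
    dif pdn ptE (O.map (evA l ε)) (evA l ε a) (evA l ε b) i j =
      evA l ε (dif (sfD l) (sfE l) O a b i j) :=
  map_dif (evA l ε) (evD l ε) (evE l ε) O a b i j

theorem hg (b2 : B2Stmt) (oh : OutHGStmt) (hl : lP P.lO ≤ P.lO) :
    OutHG gD expG ((OS s hl).map (mkG (lP P.lO))) (mkG _ (εI _)) (mkG _ (cI _)) := by
  refine oh _ gD expG _ _ _ isDer_gD (wr_SG b2 _).isExp ⟨fun k => ?_, ?_, ?_⟩ ?_ ?_
  · exact (mkG_sfD k (εS _)).symm.trans (mk0.2 (Eventually.of_forall fun z =>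
      (pdn_one (fun _ => z.1) k z.2).trans (by simp)))
  · exact (mkG_sfD 0 (cS _)).symm.trans (mk1 (Eventually.of_forall fun z =>
      (pdn_one (fun x => x) 0 z.2).trans (by simp)))
  · exact (mkG_sfD 1 (cS _)).symm.trans (mk0.2 (Eventually.of_forall fun z =>
      (pdn_one (fun x => x) 1 z.2).trans (by simp)))
  · exact mkm ((Eventually.filter_mono hl ev_eps).mono fun z hz => mul_inv_cancel₀ hz.1.ne')
  · exact mkm (ev_lP.2 (Eventually.of_forall fun z hz => mul_inv_cancel₀ hz.ne'))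

theorem ev_dif (b2 : B2Stmt) (oh : OutHGStmt) (i j : Fin 8) : ∀ᶠ z in P.lO, 0 < z.2 0 →
    dif pdn ptE (s.OR z.1) (fun _ => z.1⁻¹) (fun p => (p 0)⁻¹) i j z.2 = 0 := by
  have hl : lP P.lO ≤ P.lO := inf_le_left
  have h := dif_zero (hg s b2 oh hl) i j
  rw [dif_mk, mk0] at h
  refine ev_lP.1 (h.mono fun z hz => ?_)
  have := dif_ev z.1 (OS s hl) (εI _) (cI _) i j
  rw [OS_ev] at this
  exact (congrFun this z.2).trans hz

theorem ev_sm : ∀ᶠ z in lP P.lO, (s.BO z.1).All fun f => ContDiffAt ℝ ∞ f z.2 := by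
  have hl : lP P.lO ≤ P.lO := inf_le_left
  obtain ⟨B, hB⟩ : ∃ B, B = (OS s hl).blk (sfE _) (εI _) (cI _) := ⟨_, rfl⟩
  have h : ∀ ε, s.BO ε = B.map (evA _ ε) := fun ε =>
    hB ▸ Out.map_blk _ (evD _ ε) (evE _ ε) (OS s hl) (εI _) (cI _)
  filter_upwards [B.a.2, B.ai.2, B.C.2, B.Ci.2, B.F₁.2, B.F₁i.2, B.F₂.2, B.F₂i.2, B.β.2, B.f₁.2,
    B.f₂.2] with z h1 h2 h3 h4 h5 h6 h7 h8 h9 h10 h11
  rw [h]
  exact ⟨h1, h2, h3, h4, h5, h6, h7, h8, h9, h10, h11⟩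

theorem bd (b2 : B2Stmt) {w : Z2 → ℝ} (X : SmF P.lO) (h : PG 1 w (mkG _ X)) :
    ∀ᶠ K in atTop, ∀ᶠ z in P.lO, |evA _ z.1 X z.2| ≤ K * |w z| := by
  obtain ⟨C, hC⟩ := (b2 ℝ 2 P.lO 1 fun _ => zero_le_one).bound X h
  filter_upwards [eventually_ge_atTop C] with K hK
  exact hC.mono fun z hz => hz.trans (mul_le_mul_of_nonneg_right hK (abs_nonneg _))

/-- The bounds at a point. -/
structure Bds (O : Out (En 2 → ℝ)) (K e : ℝ) (p : En 2) : Prop where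
  err : ∀ k, |O.err pdn ptE k p| ≤ K * e
  kv : ∀ j, |O.kv pdn ptE j p| ≤ K
  lapmu : |O.lapmu pdn ptE p| ≤ K
  la : |O.la p| ≤ K
  lc : |O.lc p| ≤ K
  u₁ : |O.u₁ p| ≤ K
  u₂ : |O.u₂ p| ≤ K

theorem ev_bds (b2 : B2Stmt) {N : ℕ} (hO : (s.O 0).All (PG 1 1))
    (he : ∀ k, PG 1 (eW ^ N) ((s.O 0).err gD expG k)) :
    ∃ K : ℝ, 0 ≤ K ∧ ∀ᶠ z in P.lO, Bds (s.OR z.1) K (z.1 ^ N) z.2 := by
  have W := wr_SG b2 P.lO
  have hk := Out.P_kv W hO
  have hm := Out.P_lapmu W hO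
  obtain ⟨O, hO'⟩ : ∃ O : Out (SmF P.lO), O = OS s le_rfl := ⟨_, rfl⟩
  have e1 : O.map (mkG P.lO) = s.O 0 := hO' ▸ OS_mk s
  have e2 : ∀ ε, O.map (evA P.lO ε) = s.OR ε := fun ε => hO' ▸ OS_ev s le_rfl ε
  rw [← e1] at hO he hk hm
  simp only [(out_mk O).1] at he
  simp only [(out_mk O).2.1] at hk
  rw [(out_mk O).2.2] at hm
  have he' := fun k => bd b2 _ (he k)
  have hk' := fun k => bd b2 _ (hk k)
  have hm' := bd b2 _ hm
  obtain ⟨K, h0, h1, h2, h3, h4, h5, h6, h7⟩ := ((eventually_ge_atTop 0).and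
    ((eventually_all.2 he').and ((eventually_all.2 hk').and (hm'.and ((bd b2 O.la hO.la).and
    ((bd b2 O.lc hO.lc).and ((bd b2 O.u₁ hO.u₁).and (bd b2 O.u₂ hO.u₂)))))))).exists
  refine ⟨K, h0, ?_⟩
  filter_upwards [eventually_all.2 h1, eventually_all.2 h2, h3, h4, h5, h6, h7, ev_eps]
    with z h1 h2 h3 h4 h5 h6 h7 h8
  simp only [Pi.one_apply, abs_one, mul_one, Pi.pow_apply, eW,
    abs_of_pos (pow_pos h8.1 N)] at h1 h2 h3 h4 h5 h6 h7
  rw [← e2]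
  refine ⟨fun k => ?_, fun k => ?_, ?_, h4, h5, h6, h7⟩
  · rw [(out_ev z.1 O).1]; exact h1 k
  · rw [(out_ev z.1 O).2.1]; exact h2 k
  · rw [(out_ev z.1 O).2.2]; exact h3

end Tr

section Pt

theorem bar_num {ε μ ρ M A C₀ x : ℝ} (hε : 0 < ε) (hρ : 0 < ρ) (hρ4 : ρ ^ 4 = μ) (hM : μ < M)
    (hM1 : 1 ≤ M) (hA : 0 ≤ A) (hC₀ : 0 < C₀) (s2 : ε * (A * M) ≤ 1 / 4)
    (s3 : ε * (1 + 6 * C₀ * A * M ^ 3) ≤ 1 / (128 * M)) (hx : x ≤ -(1 / 2)) :
    A * (ε * μ) ≤ 1 / 4 ∧ ε * ρ + C₀ * (A * (ε * μ)) ≤ ρ / (16 * M) ∧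
      ρ / (16 * M) / 4 * x + ε * ρ +
        C₀ * (A * (ε * μ)) * (1 + A * (ε * μ)) * (1 + ρ / (16 * M) + A * (ε * μ)) ≤ 0 := by
  have hμ : 0 < μ := hρ4 ▸ pow_pos hρ 4
  have h1 : ρ ≤ M := by
    by_contra h
    have h2 : 1 ≤ ρ := hM1.trans (not_le.1 h).le
    have h3 : ρ ^ 1 ≤ ρ ^ 4 := pow_le_pow_right₀ h2 (by norm_num)
    rw [pow_one] at h3
    linarith [not_le.1 h]
  have h2 : μ ≤ M ^ 3 * ρ := by
    rw [← hρ4, pow_succ]
    gcongr
  have h3 : A * (ε * μ) ≤ 1 / 4 := by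
    refine le_trans ?_ s2
    rw [mul_left_comm]
    gcongr
  have h4 : ρ / (16 * M) ≤ 1 := by
    rw [div_le_one (by positivity)]
    linarith
  have h5 : C₀ * (A * (ε * μ)) ≤ ε * (C₀ * A * M ^ 3) * ρ := by
    calc _ ≤ C₀ * (A * (ε * (M ^ 3 * ρ))) := by gcongr
      _ = _ := by ring
  have h6 : ε * (1 + 6 * C₀ * A * M ^ 3) * ρ ≤ ρ / (16 * M) / 8 := by
    calc _ ≤ 1 / (128 * M) * ρ := by gcongr
      _ = _ := by field_simp; norm_num
  have h7 : 0 ≤ C₀ * (A * (ε * μ)) := by positivity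
  have h8 : 0 < ρ / (16 * M) := by positivity
  have h9 : C₀ * (A * (ε * μ)) * (1 + A * (ε * μ)) * (1 + ρ / (16 * M) + A * (ε * μ)) ≤
      C₀ * (A * (ε * μ)) * 2 * 3 := by
    gcongr <;> linarith
  have h10 : ρ / (16 * M) / 4 * x ≤ ρ / (16 * M) / 4 * -(1 / 2) := by gcongr
  exact ⟨h3, by linarith, by linarith⟩

theorem pt {O : Out (En 2 → ℝ)} {ε K e M C₀ : ℝ} {p : En 2} {B : Blk (En 2 → ℝ)}
    (hB : B = O.blk ptE (fun _ => ε⁻¹) fun p => (p 0)⁻¹) (hC₀ : 0 < C₀)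
    (hba : ∀ (k : Fin 8 → ℝ) (ζ φ L c : ℝ), 0 ≤ ζ → 0 ≤ φ → (∀ j, |k j| ≤ ζ) → c + C₀ * ζ ≤ φ →
      L + c + C₀ * ζ * (1 + ζ) * (1 + φ + ζ) ≤ 0 → BarON k φ L c)
    (h1 : O.ε = fun _ => ε) (h2 : O.μ = fun p => p 0) (hε : 0 < ε) (hp : 0 < p 0) (hM : p 0 < M)
    (hM1 : 1 ≤ M) (hK : 0 ≤ K) (he : 0 ≤ e) (hb : Bds O K e p)
    (hd : ∀ i j, dif pdn ptE O (fun _ => ε⁻¹) (fun p => (p 0)⁻¹) i j p = 0)
    (hsm : ∀ᶠ q in 𝓝 p, B.All fun f => ContDiffAt ℝ ∞ f q) (s0 : ε ≤ 1)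
    (s1 : ε * (4 * Real.exp (6 * K)) ≤ 1) (s2 : ε * (4 * Real.exp K * (K + 1) * M) ≤ 1 / 4)
    (s3 : ε * (1 + 6 * C₀ * (4 * Real.exp K * (K + 1)) * M ^ 3) ≤ 1 / (128 * M)) :
    PtOK ε B (fun p => p 0) (fun p => p 0 ^ (1 / 4 : ℝ) / (16 * M))
      (4 * Real.exp K * (K + 1) * e) (4 * Real.exp K * (K + 1)) (· ≤ 4 * Real.exp K * (K + 1)) p := by
  obtain ⟨X, hX⟩ : ∃ X, X = Real.exp K := ⟨_, rfl⟩
  obtain ⟨A, hA⟩ : ∃ A, A = 4 * X * (K + 1) := ⟨_, rfl⟩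
  rw [← hX, ← hA] at s2 s3 ⊢
  have X1 : 1 ≤ X := hX ▸ Real.one_le_exp hK
  have A1 : 4 * X ≤ A := by rw [hA]; nlinarith
  have A2 : 2 * X * K ≤ A := by rw [hA]; nlinarith
  have A3 : K ≤ X * K := by nlinarith
  have A4 : K ≤ A := by nlinarith
  have A0 : 0 ≤ A := hK.trans A4
  obtain ⟨l1, l2⟩ := abs_le.1 hb.la
  obtain ⟨c1, c2⟩ := abs_le.1 hb.lc
  have hem : 0 < ε * p 0 := mul_pos hε hp
  have ha : B.a p = 4 * ε * p 0 ^ 3 * Real.exp (O.la p) := by simp [hB, Out.blk, h1, h2, ptE]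
  have hC : B.C p = ε * p 0 * Real.exp (O.lc p) := by simp [hB, Out.blk, h1, h2, ptE]
  have hF₁ : B.F₁ p = ε * (p 0)⁻¹ * Real.exp (2 * O.u₁ p) := by simp [hB, Out.blk, h1, ptE]
  have hF₂ : B.F₂ p = ε * (p 0)⁻¹ * Real.exp (2 * O.u₂ p) := by simp [hB, Out.blk, h1, ptE]
  have hs : √(B.a p * B.C p) = 2 * ε * p 0 ^ 2 * Real.exp ((O.la p + O.lc p) / 2) := by
    rw [Real.sqrt_eq_iff_mul_self_eq_of_pos (by positivity), ha, hC]
    have : Real.exp ((O.la p + O.lc p) / 2) * Real.exp ((O.la p + O.lc p) / 2) =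
        Real.exp (O.la p) * Real.exp (O.lc p) := by
      rw [← Real.exp_add, ← Real.exp_add, add_halves]
    linear_combination 4 * ε ^ 2 * p 0 ^ 4 * this
  have x1 : Real.exp (O.la p) ≤ X := hX ▸ Real.exp_le_exp.2 l2
  have x2 : Real.exp ((O.la p + O.lc p) / 2) ≤ X := hX ▸ Real.exp_le_exp.2 (by linarith)
  have x3 : Real.exp ((O.la p - O.lc p) / 2) ≤ X := hX ▸ Real.exp_le_exp.2 (by linarith)
  have d0 : B.e11 pdn p = p 0 * O.err pdn ptE 0 p := by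
    simpa [dif, ← hB, h2, sub_eq_zero] using hd 0 0
  have d1 : 2 * ε * p 0 * Real.exp (O.lc p) * B.e12 pdn p = O.err pdn ptE 1 p := by
    simpa [dif, ← hB, h1, h2, sub_eq_zero, ptE] using hd 0 1
  have d2 : B.e22 pdn p = p 0 * O.err pdn ptE 2 p := by
    simpa [dif, ← hB, h2, sub_eq_zero] using hd 0 2
  have d3 : B.e₁ pdn p = p 0 * O.err pdn ptE 3 p := by
    simpa [dif, ← hB, h2, sub_eq_zero] using hd 0 3
  have d4 : B.e₂ pdn p = p 0 * O.err pdn ptE 4 p := by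
    simpa [dif, ← hB, h2, sub_eq_zero] using hd 0 4
  have d5 : B.lap pdn (fun q => (q 0)⁻¹) 0 p + 1 = ε * p 0 * O.lapmu pdn ptE p := by
    simpa [dif, ← hB, h1, h2, sub_eq_zero] using hd 0 5
  have d6 : ∀ j, |kON B p j| ≤ A * (ε * p 0) := fun j => by
    have h := hd j 6
    have hk := hb.kv j
    by_cases hj : j = 2 ∨ j = 5
    · have h' : p 0 * B.kv pdn j p = O.kv pdn ptE j p := by
        simpa [dif, ← hB, h2, sub_eq_zero, hj] using h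
      have : kON B p j = 2 * Real.exp ((O.la p + O.lc p) / 2) * O.kv pdn ptE j p * (ε * p 0) := by
        rw [kON, if_pos hj, hs, ← h']; ring
      rw [this, abs_mul, abs_mul, abs_of_pos hem, abs_of_pos (by positivity)]
      gcongr
      exact le_trans (by gcongr) A2
    · have h' : B.kv pdn j p = ε * p 0 * O.kv pdn ptE j p := by
        simpa [dif, ← hB, h1, h2, sub_eq_zero, hj] using h
      rw [kON, if_neg hj, h', abs_mul, abs_of_pos hem, mul_comm]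
      gcongr
      exact hk.trans A4
  have er : ∀ k, |p 0 * O.err pdn ptE k p| ≤ A * e * p 0 := fun k => by
    rw [abs_mul, abs_of_pos hp, mul_comm]
    gcongr
    exact (hb.err k).trans (by gcongr)
  have hl : |B.lap pdn (fun q => (q 0)⁻¹) 0 p + 1| ≤ A * (ε * p 0) := by
    rw [d5, abs_mul, abs_of_pos hem, mul_comm]
    gcongr
    exact hb.lapmu.trans A4
  have hg : B.a p * (p 0)⁻¹ ^ 2 ≤ A * (ε * p 0) := by
    calc _ = 4 * Real.exp (O.la p) * (ε * p 0) := by rw [ha]; field_simp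
      _ ≤ _ := by gcongr; linarith
  have hρ : 0 < p 0 ^ (1 / 4 : ℝ) := Real.rpow_pos_of_pos hp _
  have hρ4 : (p 0 ^ (1 / 4 : ℝ)) ^ 4 = p 0 := by
    simpa using Real.rpow_inv_natCast_pow hp.le four_ne_zero
  have z0 := (bar_num hε hρ hρ4 hM hM1 A0 hC₀ s2 s3 le_rfl).1
  obtain ⟨-, z1, z2⟩ := bar_num hε hρ hρ4 hM hM1 A0 hC₀ s2 s3
    (x := B.lap pdn (fun q => (q 0)⁻¹) 0 p + B.a p * (p 0)⁻¹ ^ 2 / 4)
    (by linarith [(abs_le.1 hl).2])
  refine ⟨?_, ⟨by rw [ha]; positivity, by rw [hC]; positivity, by rw [hF₁]; positivity,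
    by rw [hF₂]; positivity, hp⟩, ⟨d0 ▸ er 0, d2 ▸ er 2, d3 ▸ er 3, d4 ▸ er 4, ?_⟩, ?_, ?_, ?_, ?_,
    ?_⟩
  · filter_upwards [hsm, (continuous_apply 0).continuousAt.eventually (lt_mem_nhds hp)] with q a1 a2
    have a3 : q 0 ≠ 0 := a2.ne'
    have a4 := hε.ne'
    refine ⟨a1, cd0 q, ((cd0 q).rpow_const_of_ne a3).div_const _, ?_, ?_, ?_, ?_⟩ <;>
    · simp [hB, Out.blk, h1, h2, ptE, Real.exp_neg]
      field_simp
  · have h3 : Real.exp ((O.la p + O.lc p) / 2) =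
        Real.exp ((O.la p - O.lc p) / 2) * Real.exp (O.lc p) := by
      rw [← Real.exp_add]; congr 1; ring
    have h4 : |O.err pdn ptE 1 p| = 2 * ε * p 0 * Real.exp (O.lc p) * |B.e12 pdn p| := by
      rw [← d1, abs_mul, abs_of_pos (by positivity)]
    calc _ = Real.exp ((O.la p - O.lc p) / 2) * |O.err pdn ptE 1 p| * p 0 := by
          rw [hs, h3, h4]; ring
      _ ≤ X * (K * e) * p 0 := by gcongr; exact hb.err 1
      _ ≤ _ := by rw [← mul_assoc]; gcongr; nlinarith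
  · rw [T_one B Real.log, X_one Real.log, Real.deriv_log']
    exact hl
  · rw [T_one B Real.log, X_one Real.log, Real.deriv_log']
    simpa using hg
  · rw [ha, hC, hF₁, hF₂]
    have h3 : Real.exp (O.la p) * Real.exp (O.lc p) ≤
        Real.exp (6 * K) * (Real.exp (2 * O.u₁ p) * Real.exp (2 * O.u₂ p)) := by
      rw [← Real.exp_add, ← Real.exp_add, ← Real.exp_add, Real.exp_le_exp]
      linarith [(abs_le.1 hb.u₁).1, (abs_le.1 hb.u₂).1]
    have h4 : ε ^ 4 ≤ 1 := pow_le_one₀ hε.le s0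
    calc _ = ε ^ 4 * (4 * ε ^ 3 * p 0 ^ 4) * (Real.exp (O.la p) * Real.exp (O.lc p)) := by ring
      _ ≤ 1 * (4 * ε ^ 3 * p 0 ^ 4) *
          (Real.exp (6 * K) * (Real.exp (2 * O.u₁ p) * Real.exp (2 * O.u₂ p))) := by gcongr
      _ = ε * (4 * Real.exp (6 * K)) *
          (ε ^ 2 * p 0 ^ 4 * (Real.exp (2 * O.u₁ p) * Real.exp (2 * O.u₂ p))) := by ring
      _ ≤ 1 * (ε ^ 2 * p 0 ^ 4 * (Real.exp (2 * O.u₁ p) * Real.exp (2 * O.u₂ p))) := by gcongr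
      _ = _ := by field_simp
  · rw [lap_rpow B _ hp]
    exact hba _ _ _ _ _ (by positivity) (by positivity) d6 z1 z2
  · have h3 : B.scal pdn p = 2 * (kON B p 0 + kON B p 1 + kON B p 3 + kON B p 4 + kON B p 6 +
        kON B p 7) := by simp [kON, Blk.scal, Blk.kv]
    rw [h3]
    linarith [(abs_le.1 (d6 0)).2, (abs_le.1 (d6 1)).2, (abs_le.1 (d6 3)).2, (abs_le.1 (d6 4)).2,
      (abs_le.1 (d6 6)).2, (abs_le.1 (d6 7)).2]

end Pt

theorem ev_small (P : Prof) (a : ℝ) {b : ℝ} (hb : 0 < b) : ∀ᶠ z in P.lO, z.1 * a ≤ b := by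
  have h : Tendsto (fun ε : ℝ => ε * a) (𝓝[>] 0) (𝓝 0) := by
    simpa using ((continuous_mul_const a).tendsto (0 : ℝ)).mono_left
      (nhdsWithin_le_nhds (s := Ioi 0))
  exact ev_fam.2 ((h.eventually (ge_mem_nhds hb)).mono fun _ h _ _ => h)

end OutBlk

open OutBlk in
theorem outBlk (_b1 : B1Stmt) (b2 : B2Stmt) (_av : AvgStmt) (_wt : WtStmt) (oh : OutHGStmt)
    (ba : BarAlgStmt) : OutBlkStmt := by
  intro P c g s N Cb hP hF
  obtain ⟨C₀, hC₀, hba⟩ := ba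
  have hc : IsCut 1 := ⟨contDiff_const, fun _ => ⟨zero_le_one, le_rfl⟩, 1, one_pos, fun _ _ => rfl⟩
  obtain ⟨K, hK, hb⟩ := ev_bds s b2 (hF.lay 1 hc 0).1.O_all (hF.err 0)
  have hM := hP.M_ge
  refine ⟨4 * Real.exp K * (K + 1), ?_⟩
  filter_upwards [hb, ev_eps, eventually_all.2 fun i => eventually_all.2 (ev_dif s b2 oh i),
    ev_lP.1 (OpF.op (ev_sm s)), ev_small P 1 one_pos, ev_small P (4 * Real.exp (6 * K)) one_pos,
    ev_small P (4 * Real.exp K * (K + 1) * P.M₀) (b := 1 / 4) (by norm_num),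
    ev_small P (1 + 6 * C₀ * (4 * Real.exp K * (K + 1)) * P.M₀ ^ 3) (b := 1 / (128 * P.M₀))
      (by positivity)] with z h1 h2 h3 h4 h5 h6 h7 h8 h0
  refine pt (O := s.OR z.1) rfl hC₀ (fun k ζ φ L c a1 a2 a3 a4 a5 => ?_) rfl rfl h2.1 h0 h2.2 hM hK
    (pow_pos h2.1 N).le h1 (fun i j => h3 i j h0) (h4 h0) (by simpa using h5) h6 h7 h8
  exact hba k 0 0 ζ φ L c le_rfl le_rfl a1 a2 (by simpa using a3 1) (by simpa using a3 6)
    (fun j _ _ => a3 j) a4 (by simpa using a5) (by simpa using a5)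

end Pool.Agent.Lib.MP_df9110_gt
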