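import Pool.Agent.Lib.MP_df9110_gt.NFormS

-- part Pool.Agent.Lib.MP_df9110_gt.Lin
section

/-! The linearization of the errors of the leading order layer. -/

set_option linter.unusedSimpArgs false
set_option linter.unusedSectionVars false

namespace Pool.Agent.Lib.MP_df9110_gt

namespace Lin

section Alg

variable {S : Type} [CommRing S] (a y u l0 l1 l2 g1 g2 n1 n2 w0 w1 s : S)

/-- the coefficient `A` -/
def cA : S := a * (1 + (-(2 * l0) - 2 * s) + u)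

def r0 : S :=
  -(cA a u l0 s * (-(2 * y) + 2 * y * l1 + (1 - y) * l2)) -
      cA a u l0 s * (y + (1 - y) * l1) * (2 * s) + cA a u l0 s * (y + (1 - y) * l1) * (g1 - n1) +
      (-(2 * a) + w0) * (y + (1 - y) * l1) -
    (-(a * ((1 - y) * l2 + 2 * l1 + 4 * y * l0 + 6 * s * y)) + y * (w0 + a * (g1 - n1)))

def cB : S := cA a u l0 s * y + (1 - y) * cA a u l0 s * (-l1 + 2 * s)

def cX : S := (1 - y) * (-(2 * a) + w0 - cA a u l0 s * n1) - cA a u l0 s * (y + (1 - y) * l1)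

def r1 : S :=
  -((1 - y) * cA a u l0 s * n2 + cB a y u l0 l1 s * n1 - (1 - y) * cA a u l0 s * g1 * n1) +
    cX a y u l0 l1 n1 w0 s * n1 + a * ((1 - y) * n2 + 2 * n1)

def r2 : S :=
  (1 - y) * cA a u l0 s * (g2 - g1 ^ 2) + cB a y u l0 l1 s * g1 - cX a y u l0 l1 n1 w0 s * g1 -
    a * ((1 - y) * g2 + 2 * g1)

def r4 : S :=
  w1 - cA a u l0 s * (-(2 * l1) + 4 * s) * n1 - cA a u l0 s * n2 -
      (-(2 * a) + w0 - cA a u l0 s * n1) * (2 * s) - cA a u l0 s * n1 ^ 2 +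
      cA a u l0 s * (g2 - g1 ^ 2) + cA a u l0 s * g1 * (-(2 * l1) + 2 * s) -
    (w1 + a * (g2 - n2) + 4 * a * s)

variable {a y u l0 l1 l2 g1 g2 n1 n2 w0 w1 s} {I : S → Prop}

theorem rem_zero (h : ∀ x z, I x → I z → x * z = 0) (hu : u = 0) (hl0 : I l0) (hl1 : I l1)
    (hl2 : I l2) (hg1 : I g1) (hg2 : I g2) (hn1 : I n1) (hn2 : I n2) (hw0 : I w0) (hs : I s) :
    r0 a y u l0 l1 l2 g1 n1 w0 s = 0 ∧ r1 a y u l0 l1 g1 n1 n2 w0 s = 0 ∧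
      r2 a y u l0 l1 g1 g2 n1 w0 s = 0 ∧ r4 a u l0 l1 g1 g2 n1 n2 w0 w1 s = 0 := by
  subst hu
  simp only [r0, r1, r2, r4, cA, cB, cX]
  refine ⟨?_, ?_, ?_, ?_⟩
  · linear_combination (4 * a * y + 4 * a * s - 4 * a * y * s - 2 * a * g1 + 2 * a * n1 +
        2 * a * y * g1 - 2 * a * y * n1) * h l0 l1 hl0 hl1 +
      (2 * a - 2 * a * y) * h l0 l2 hl0 hl2 +
      (6 * a * y + 4 * a * s - 4 * a * y * s - 2 * a) * h l1 s hl1 hs +
      (2 * a - 2 * a * y) * h l2 s hl2 hs +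
      (4 * a * y) * h l0 s hl0 hs +
      (4 * a * y) * h s s hs hs +
      (-2 * a * y) * h l0 g1 hl0 hg1 +
      (2 * a * y) * h l0 n1 hl0 hn1 +
      (-2 * a * y) * h g1 s hg1 hs +
      (2 * a * y) * h n1 s hn1 hs +
      (-2 * a * s + 2 * a * y * s + a - a * y) * h l1 g1 hl1 hg1 +
      (2 * a * s - 2 * a * y * s - a + a * y) * h l1 n1 hl1 hn1 +
      (1 - y) * h l1 w0 hl1 hw0
  · linear_combination (2 * a - 2 * a * y) * h l0 n2 hl0 hn2 +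
      (2 * a - 2 * a * y) * h n2 s hn2 hs +
      (4 * a * y + 4 * a * s - 4 * a * y * s + 2 * a * n1 - 2 * a * y * n1) * h l0 n1 hl0 hn1 +
      (6 * a * y + 4 * a * s - 2 * a - 4 * a * y * s) * h n1 s hn1 hs +
      (-2 * a * n1 + 2 * a * y * n1) * h l0 g1 hl0 hg1 +
      (-2 * a * s + a + 2 * a * y * s - a * y) * h g1 n1 hg1 hn1 +
      (1 - y) * h n1 w0 hn1 hw0 +
      (2 * a * s - a - 2 * a * y * s + a * y) * h n1 n1 hn1 hn1
  · linear_combination (-2 * a + 2 * a * y) * h l0 g2 hl0 hg2 +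
      (2 * a * g1 - 2 * a * y * g1 - 4 * a * y - 4 * a * s + 4 * a * y * s - 2 * a * n1 +
        2 * a * y * n1) * h l0 g1 hl0 hg1 +
      (-2 * a + 2 * a * y) * h g2 s hg2 hs +
      (2 * a * s - a - 2 * a * y * s + a * y) * h g1 g1 hg1 hg1 +
      (-6 * a * y - 4 * a * s + 2 * a + 4 * a * y * s) * h g1 s hg1 hs +
      (-1 + y) * h g1 w0 hg1 hw0 +
      (-2 * a * s + a + 2 * a * y * s - a * y) * h g1 n1 hg1 hn1
  · linear_combination (-4 * a * n1 + 4 * a * g1) * h l0 l1 hl0 hl1 +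
      (4 * a * s + 2 * a * n1) * h l0 n1 hl0 hn1 +
      (-4 * a * s + 2 * a) * h l1 n1 hl1 hn1 +
      (4 * a * s - 2 * a) * h n1 s hn1 hs +
      (2 * a) * h l0 n2 hl0 hn2 +
      (2 * a) * h n2 s hn2 hs +
      (-2) * h w0 s hw0 hs +
      (2 * a * s - a) * h n1 n1 hn1 hn1 +
      (-2 * a) * h l0 g2 hl0 hg2 +
      (2 * a * g1 - 4 * a * s) * h l0 g1 hl0 hg1 +
      (-2 * a) * h g2 s hg2 hs +
      (2 * a * s - a) * h g1 g1 hg1 hg1 +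
      (4 * a * s - 2 * a) * h l1 g1 hl1 hg1 +
      (-4 * a * s + 2 * a) * h g1 s hg1 hs

theorem rem_map {S' : Type} [CommRing S'] (f : S →+* S') :
    f (r0 a y u l0 l1 l2 g1 n1 w0 s) =
        r0 (f a) (f y) (f u) (f l0) (f l1) (f l2) (f g1) (f n1) (f w0) (f s) ∧
      f (r1 a y u l0 l1 g1 n1 n2 w0 s) =
        r1 (f a) (f y) (f u) (f l0) (f l1) (f g1) (f n1) (f n2) (f w0) (f s) ∧
      f (r2 a y u l0 l1 g1 g2 n1 w0 s) =
        r2 (f a) (f y) (f u) (f l0) (f l1) (f g1) (f g2) (f n1) (f w0) (f s) ∧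
      f (r4 a u l0 l1 g1 g2 n1 n2 w0 w1 s) =
        r4 (f a) (f u) (f l0) (f l1) (f g1) (f g2) (f n1) (f n2) (f w0) (f w1) (f s) := by
  simp only [r0, r1, r2, r4, cA, cB, cX, map_add, map_sub, map_mul, map_neg, map_one, map_pow,
    map_ofNat, and_self]

theorem rem_mem (J : Ideal S) (h : ∀ x z, I x → I z → x * z ∈ J) (hu : u ∈ J) (hl0 : I l0)
    (hl1 : I l1) (hl2 : I l2) (hg1 : I g1) (hg2 : I g2) (hn1 : I n1) (hn2 : I n2) (hw0 : I w0)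
    (hs : I s) :
    r0 a y u l0 l1 l2 g1 n1 w0 s ∈ J ∧ r1 a y u l0 l1 g1 n1 n2 w0 s ∈ J ∧
      r2 a y u l0 l1 g1 g2 n1 w0 s ∈ J ∧ r4 a u l0 l1 g1 g2 n1 n2 w0 w1 s ∈ J := by
  obtain ⟨e0, e1, e2, e4⟩ := rem_map (a := a) (y := y) (u := u) (l0 := l0) (l1 := l1) (l2 := l2)
    (g1 := g1) (g2 := g2) (n1 := n1) (n2 := n2) (w0 := w0) (w1 := w1) (s := s)
    (Ideal.Quotient.mk J)
  simp only [← Ideal.Quotient.eq_zero_iff_mem]
  rw [e0, e1, e2, e4]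
  exact rem_zero (I := fun x => ∃ x', I x' ∧ Ideal.Quotient.mk J x' = x)
    (by
      rintro _ _ ⟨x, hx, rfl⟩ ⟨z, hz, rfl⟩
      rw [← map_mul]
      exact Ideal.Quotient.eq_zero_iff_mem.2 (h x z hx hz))
    (Ideal.Quotient.eq_zero_iff_mem.2 hu) ⟨_, hl0, rfl⟩ ⟨_, hl1, rfl⟩ ⟨_, hl2, rfl⟩ ⟨_, hg1, rfl⟩
    ⟨_, hg2, rfl⟩ ⟨_, hn1, rfl⟩ ⟨_, hn2, rfl⟩ ⟨_, hw0, rfl⟩ ⟨_, hs, rfl⟩

end Alg

section Wt

variable {R W : Type} [CommRing R] [Algebra ℝ R] [CommMonoid W] {D : Fin 2 → R → R}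
  {E Lg : R → R} {P : W → R → Prop} {Pos : R → Prop} {Sml : W → Prop}
  (h : WR D E Lg P Pos Sml)
include h

theorem neg {w : W} {a : R} (ha : P w a) : P w (-a) := by simpa using h.smul (-1) ha

theorem two {w : W} {a : R} (ha : P w a) : P w (2 * a) := by
  rw [two_mul]; exact h.add ha ha

theorem drop {v : W} {a : R} (hv : Sml v) (ha : P v a) : P 1 a := h.sml hv (by rwa [one_mul])

/-- The bounded elements. -/
def Bd : Subring R where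
  carrier := {a | P 1 a}
  mul_mem' ha hb := by simpa using h.mul ha hb
  one_mem' := h.one
  add_mem' := h.add
  zero_mem' := h.zero 1
  neg_mem' := neg h

/-- The bounded elements of a given weight. -/
def Jd (w : W) : Ideal (Bd h) where
  carrier := {a | P w a.1}
  add_mem' := h.add
  zero_mem' := h.zero w
  smul_mem' c _ ha := by simpa using h.mul c.2 ha

theorem rem_wt {v w : W} (hv : Sml v) (hw : Sml w) {a y u l0 l1 l2 g1 g2 n1 n2 w0 w1 s : R}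
    (ha : P 1 a) (hy : P 1 y) (hu : P (w * w * v) u) (hl0 : P (w * v) l0) (hl1 : P (w * v) l1)
    (hl2 : P (w * v) l2) (hg1 : P (w * v) g1) (hg2 : P (w * v) g2) (hn1 : P (w * v) n1)
    (hn2 : P (w * v) n2) (hw0 : P (w * v) w0) (hw1 : P (w * v) w1) (hs : P (w * v) s) :
    P (w * w * v) (r0 a y u l0 l1 l2 g1 n1 w0 s) ∧ P (w * w * v) (r1 a y u l0 l1 g1 n1 n2 w0 s) ∧
      P (w * w * v) (r2 a y u l0 l1 g1 g2 n1 w0 s) ∧
      P (w * w * v) (r4 a u l0 l1 g1 g2 n1 n2 w0 w1 s) := by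
  have hwv := h.sml_mul hw hv
  have hwwv := h.sml_mul (h.sml_mul hw hw) hv
  have key := rem_mem (S := Bd h) (I := fun x => P (w * v) x.1) (a := ⟨a, ha⟩) (y := ⟨y, hy⟩)
    (u := ⟨u, drop h hwwv hu⟩) (l0 := ⟨l0, drop h hwv hl0⟩) (l1 := ⟨l1, drop h hwv hl1⟩)
    (l2 := ⟨l2, drop h hwv hl2⟩) (g1 := ⟨g1, drop h hwv hg1⟩) (g2 := ⟨g2, drop h hwv hg2⟩)
    (n1 := ⟨n1, drop h hwv hn1⟩) (n2 := ⟨n2, drop h hwv hn2⟩) (w0 := ⟨w0, drop h hwv hw0⟩)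
    (w1 := ⟨w1, drop h hwv hw1⟩) (s := ⟨s, drop h hwv hs⟩) (Jd h (w * w * v))
    (fun x z hx hz => by
      have := h.mul hx hz
      rw [show w * v * (w * v) = w * w * v * v by ac_rfl] at this
      exact h.sml hv this) hu hl0 hl1 hl2 hg1 hg2 hn1 hn2 hw0 hs
  obtain ⟨e0, e1, e2, e4⟩ := rem_map (S := Bd h) (a := ⟨a, ha⟩) (y := ⟨y, hy⟩)
    (u := ⟨u, drop h hwwv hu⟩) (l0 := ⟨l0, drop h hwv hl0⟩) (l1 := ⟨l1, drop h hwv hl1⟩)
    (l2 := ⟨l2, drop h hwv hl2⟩) (g1 := ⟨g1, drop h hwv hg1⟩) (g2 := ⟨g2, drop h hwv hg2⟩)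
    (n1 := ⟨n1, drop h hwv hn1⟩) (n2 := ⟨n2, drop h hwv hn2⟩) (w0 := ⟨w0, drop h hwv hw0⟩)
    (w1 := ⟨w1, drop h hwv hw1⟩) (s := ⟨s, drop h hwv hs⟩) (Bd h).subtype
  obtain ⟨k0, k1, k2, k4⟩ := key
  exact ⟨(congrArg (P _) e0).mp k0, (congrArg (P _) e1).mp k1, (congrArg (P _) e2).mp k2,
    (congrArg (P _) e4).mp k4⟩

end Wt

section Lead

variable {R : Type} [CommRing R] [Algebra ℝ R] {D : Fin 2 → R → R} {E : R → R}
  (hD : IsDer D) (hE : IsExp D E) {y yp et d chi L L₂ leh r r₂ : R} {Z : Fin 5 → R}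
  (hl : LeadHyp D E y d chi L L₂) (hr : D 0 r = 0) (hr₂ : D 0 r₂ = 0)

theorem T_eq (f : R) : (lead y yp et d chi L L₂ leh r r₂ Z).T D E f = D 0 f := by
  simp [Lay.T, lead]

theorem mt_eq : (lead y yp et d chi L L₂ leh r r₂ Z).mt D E = 0 := by simp [Lay.mt, lead]

theorem ek_eq : (lead y yp et d chi L L₂ leh r r₂ Z).ek D E = 0 := by
  rw [Lay.ek, mt_eq]; simp [lead]

theorem Xe_eq : (lead y yp et d chi L L₂ leh r r₂ Z).Xe D E = 0 := by simp [Lay.Xe, lead]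

theorem eps_eq : (lead y yp et d chi L L₂ leh r r₂ Z).ε = 0 := rfl

include hE in
theorem al_eq : (lead y yp et d chi L L₂ leh r r₂ Z).al E = 1 - y := by
  simp [Lay.al, lead, hE.zero]

include hE in
theorem W_eq : (lead y yp et d chi L L₂ leh r r₂ Z).W E = -(2 * E (-(2 * L))) + Z 3 := by
  simp [Lay.W, Lay.P0, lead, hE.zero]

include hE in
theorem A_eq : E (lead y yp et d chi L L₂ leh r r₂ Z).lA =
    cA (E (-(2 * L))) (E (-(2 * Z 0) - 2 * (r * y)) - 1 - (-(2 * Z 0) - 2 * (r * y))) (Z 0)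
      (r * y) := by
  have : (lead y yp et d chi L L₂ leh r r₂ Z).lA = -(2 * L) + (-(2 * Z 0) - 2 * (r * y)) := by
    simp only [Lay.lA, lead]; ring
  rw [this, hE.add, cA]; ring

include hD hl hr in
theorem dlA_eq : D 0 (lead y yp et d chi L L₂ leh r r₂ Z).lA = -(2 * D 0 (Z 0)) + 4 * (r * y) := by
  simp only [Lay.lA, lead, hD.sub, hD.mul, hD.neg, hD.ofNat, hl.L₀, hl.y₀, hr]; ring

include hD hl hr in
theorem du₁_eq : D 0 (lead y yp et d chi L L₂ leh r r₂ Z).u₁ = D 0 (Z 0) := by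
  simp only [Lay.u₁, lead, hD.add, hl.L₀, hr]; ring

include hD hl in
theorem j_eq : (lead y yp et d chi L L₂ leh r r₂ Z).j D E = D 0 (Z 1) := by
  rw [Lay.j, mt_eq, T_eq, eps_eq]
  simp only [Lay.lC, Lay.lCl, lead, hD.add, hD.sub, hD.mul, hD.neg, hD.ofNat, hD.smul, hD.one,
    hD.zero, hl.L₀]
  algebra

include hD hE hl hr in
theorem yv_eq : (lead y yp et d chi L L₂ leh r r₂ Z).yv D E = y + (1 - y) * D 0 (Z 0) := by
  rw [Lay.yv, mt_eq, T_eq, T_eq, al_eq hE, du₁_eq hD hl hr, hD.sub, hD.one, hl.y₀]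
  algebra

include hD hl hr₂ in
theorem t₂_eq : (lead y yp et d chi L L₂ leh r r₂ Z).t₂ D E = D 0 (Z 2) := by
  rw [Lay.t₂, mt_eq, T_eq]
  simp only [Lay.u₂, lead, hD.add, hl.L₂₀, hr₂]
  algebra

include hD hl hr in
theorem th_eq : (lead y yp et d chi L L₂ leh r r₂ Z).th D E = 2 * (r * y) := by
  rw [Lay.th, T_eq, T_eq, du₁_eq hD hl hr, dlA_eq hD hl hr]
  algebra

include hD hE hl hr in
theorem Ba_eq : (lead y yp et d chi L L₂ leh r r₂ Z).Ba D E =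
    cB (E (-(2 * L))) y (E (-(2 * Z 0) - 2 * (r * y)) - 1 - (-(2 * Z 0) - 2 * (r * y))) (Z 0)
      (D 0 (Z 0)) (r * y) := by
  rw [Lay.Ba, Lay.TaA, mt_eq, T_eq, T_eq, al_eq hE, dlA_eq hD hl hr, hD.sub, hD.one, hl.y₀,
    A_eq hE, cB]
  algebra

include hD hE hl hr hr₂ in
theorem X₁_eq : (lead y yp et d chi L L₂ leh r r₂ Z).X₁ D E =
    cX (E (-(2 * L))) y (E (-(2 * Z 0) - 2 * (r * y)) - 1 - (-(2 * Z 0) - 2 * (r * y))) (Z 0)
      (D 0 (Z 0)) (D 0 (Z 2)) (Z 3) (r * y) := by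
  rw [Lay.X₁, Lay.Wh, al_eq hE, W_eq hE, t₂_eq hD hl hr₂, yv_eq hD hE hl hr, A_eq hE, cX]

include hD hE hl in
theorem dA0 : D 0 (E (-(2 * L))) = 0 := by
  rw [hE.der, hD.neg, hD.mul, hD.ofNat, hl.L₀]; ring

include hD hE hl hr hr₂ in
theorem e₁_eq : (lead y yp et d chi L L₂ leh r r₂ Z).e₁ D E - lin D E y L r Z 0 =
    r0 (E (-(2 * L))) y (E (-(2 * Z 0) - 2 * (r * y)) - 1 - (-(2 * Z 0) - 2 * (r * y))) (Z 0)
      (D 0 (Z 0)) (D 0 (D 0 (Z 0))) (D 0 (Z 1)) (D 0 (Z 2)) (Z 3) (r * y) := by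
  rw [Lay.e₁, T_eq, eps_eq, W_eq hE, t₂_eq hD hl hr₂, yv_eq hD hE hl hr, th_eq hD hl hr,
    j_eq hD hl, A_eq hE, r0]
  simp only [lin, Dop, Matrix.cons_val_zero, hD.add, hD.mul, hD.sub, hD.one, hl.y₀]
  ring

include hD hE hl hr hr₂ in
theorem e₂_eq : (lead y yp et d chi L L₂ leh r r₂ Z).e₂ D E - lin D E y L r Z 1 =
    r1 (E (-(2 * L))) y (E (-(2 * Z 0) - 2 * (r * y)) - 1 - (-(2 * Z 0) - 2 * (r * y))) (Z 0)
      (D 0 (Z 0)) (D 0 (Z 1)) (D 0 (Z 2)) (D 0 (D 0 (Z 2))) (Z 3) (r * y) := by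
  rw [Lay.e₂, T_eq, eps_eq, t₂_eq hD hl hr₂, j_eq hD hl, al_eq hE, Ba_eq hD hE hl hr,
    X₁_eq hD hE hl hr hr₂, A_eq hE, r1]
  simp only [lin, Dop, Matrix.cons_val_one, Matrix.cons_val_zero]
  ring

include hD hE hl hr hr₂ in
theorem e₃_eq : (lead y yp et d chi L L₂ leh r r₂ Z).e₃ D E - lin D E y L r Z 2 =
    r2 (E (-(2 * L))) y (E (-(2 * Z 0) - 2 * (r * y)) - 1 - (-(2 * Z 0) - 2 * (r * y))) (Z 0)
      (D 0 (Z 0)) (D 0 (Z 1)) (D 0 (D 0 (Z 1))) (D 0 (Z 2)) (Z 3) (r * y) := by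
  rw [Lay.e₃, Lay.K, T_eq, eps_eq, j_eq hD hl, al_eq hE, Ba_eq hD hE hl hr,
    X₁_eq hD hE hl hr hr₂, A_eq hE, r2]
  simp only [lin, Dop, Matrix.cons_val]
  ring

theorem e₄_eq : (lead y yp et d chi L L₂ leh r r₂ Z).e₄ D E - lin D E y L r Z 3 = 0 := by
  have hx : (lead y yp et d chi L L₂ leh r r₂ Z).xt D E = Z 4 := by
    rw [Lay.xt, eps_eq]; simp [lead]
  rw [Lay.e₄, T_eq, eps_eq, mt_eq, ek_eq, Xe_eq, hx]
  simp [lin]

include hD hE hl hr hr₂ in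
theorem e₅_eq : (lead y yp et d chi L L₂ leh r r₂ Z).e₅ D E - lin D E y L r Z 4 =
    r4 (E (-(2 * L))) (E (-(2 * Z 0) - 2 * (r * y)) - 1 - (-(2 * Z 0) - 2 * (r * y))) (Z 0)
      (D 0 (Z 0)) (D 0 (Z 1)) (D 0 (D 0 (Z 1))) (D 0 (Z 2)) (D 0 (D 0 (Z 2))) (Z 3) (D 0 (Z 3))
      (r * y) := by
  rw [Lay.e₅, Lay.Wh, T_eq, T_eq, T_eq, T_eq, eps_eq, mt_eq, Xe_eq, j_eq hD hl, W_eq hE,
    t₂_eq hD hl hr₂, th_eq hD hl hr, hD.sub, hD.mul, hE.der, dlA_eq hD hl hr, du₁_eq hD hl hr,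
    A_eq hE, r4]
  simp only [lin, Matrix.cons_val, hD.add, hD.mul, hD.sub, hD.neg, hD.ofNat, dA0 hD hE hl]
  algebra

end Lead

end Lin

open Lin in
theorem linS : LinStmt := by
  intro R W _ _ _ D E Lg P Pos Sml y yp et d chi L L₂ leh r r₂ Z v w h hl hv hw hy _ hL _ hr hr₂
    pr _ hZ k
  have hD := h.der
  have hE : IsExp D E := ⟨h.E_add, h.E_zero, h.E_der⟩
  have hs : P (w * v) (r * y) := h.mul pr hy
  have hq : P (w * v) (-(2 * Z 0) - 2 * (r * y)) := by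
    rw [sub_eq_add_neg]
    exact h.add (neg h (two h (hZ 0))) (neg h (two h hs))
  have hu := (h.E_sub (h.sml_mul hw hv) hq).2
  rw [show w * v * (w * v) = w * w * v * v by ac_rfl] at hu
  obtain ⟨k0, k1, k2, k4⟩ := rem_wt h hv hw (h.E_bd (neg h (two h hL))).1 (drop h hv hy)
    (h.sml hv hu) (hZ 0) (h.pD 0 (hZ 0)) (h.pD 0 (h.pD 0 (hZ 0))) (h.pD 0 (hZ 1))
    (h.pD 0 (h.pD 0 (hZ 1))) (h.pD 0 (hZ 2)) (h.pD 0 (h.pD 0 (hZ 2))) (hZ 3) (h.pD 0 (hZ 3)) hs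
  fin_cases k
  · exact (congrArg (P _) (e₁_eq hD hE hl hr hr₂)).mpr k0
  · exact (congrArg (P _) (e₂_eq hD hE hl hr hr₂)).mpr k1
  · exact (congrArg (P _) (e₃_eq hD hE hl hr hr₂)).mpr k2
  · exact (congrArg (P _) e₄_eq).mpr (h.zero _)
  · exact (congrArg (P _) (e₅_eq hD hE hl hr hr₂)).mpr k4

end Pool.Agent.Lib.MP_df9110_gt
end

-- part Pool.Agent.Lib.MP_df9110_gt.OutHg
section

/-! The outer fields and their block metric. -/

set_option linter.unusedSimpArgs false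
set_option linter.unusedSectionVars false

namespace Pool.Agent.Lib.MP_df9110_gt

namespace OutHg

variable {R : Type} [CommRing R] [Algebra ℝ R] {D : Fin 2 → R → R} {E : R → R} {O : Out R}
  {εi μi : R}

/-- The hypotheses. -/
structure Hy (D : Fin 2 → R → R) (E : R → R) (O : Out R) (εi μi : R) : Prop where
  hD : IsDer D
  hE : IsExp D E
  ok : O.Ok D
  hε : O.ε * εi = 1
  hμ : O.μ * μi = 1

variable (h : Hy D E O εi μi)
include h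

theorem E_neg (x : R) : E x * E (-x) = 1 := by
  rw [← h.hE.add, add_neg_cancel, h.hE.zero]

theorem d_inv {x y : R} (e : x * y = 1) (i : Fin 2) : D i y = -(y ^ 2 * D i x) := by
  have h1 := h.hD.mul i x y
  rw [e, h.hD.one] at h1
  linear_combination (-y) * h1 - D i y * e

theorem dεi (i : Fin 2) : D i εi = 0 := by rw [d_inv h h.hε, h.ok.dε]; ring
theorem dμi₀ : D 0 μi = -μi ^ 2 := by rw [d_inv h h.hμ, h.ok.μ₀]; ring
theorem dμi₁ : D 1 μi = 0 := by rw [d_inv h h.hμ, h.ok.μ₁]; ring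
theorem d_cube (i : Fin 2) (x : R) : D i (x ^ 3) = 3 * x ^ 2 * D i x := by
  rw [pow_succ, h.hD.mul, h.hD.sq]; ring
theorem d2 (i : Fin 2) : D i (2 : R) = 0 := h.hD.ofNat i 2
theorem d4 (i : Fin 2) : D i (4 : R) = 0 := h.hD.ofNat i 4

theorem eqf [IsReduced R] (x y : R)
    (k : ∀ (K : Type) [Field K] [CharZero K] [Algebra ℝ K] (v : R →ₐ[ℝ] K), v O.ε ≠ 0 →
      v O.μ ≠ 0 → (∀ z, v (E z) ≠ 0) → v εi = (v O.ε)⁻¹ → v μi = (v O.μ)⁻¹ →
      (∀ z, v (E (-z)) = (v (E z))⁻¹) → (∀ z, v ((1 / 2 : ℝ) • z) = v z / 2) →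
      (∀ z, v ((1 / 4 : ℝ) • z) = v z / 4) → v x = v y) : x = y := by
  refine eq_of_field x y fun K _ _ v => ?_
  have : CharZero K := charZero_of_injective_algebraMap (algebraMap ℝ K).injective
  have key : ∀ p q : R, p * q = 1 → v p ≠ 0 ∧ v q = (v p)⁻¹ := by
    intro p q hpq
    have h1 : v p * v q = 1 := by rw [← map_mul, hpq, map_one]
    exact ⟨left_ne_zero_of_mul_eq_one h1, eq_inv_of_mul_eq_one_right h1⟩
  refine k K v (key _ _ h.hε).1 (key _ _ h.hμ).1 (fun z => (key _ _ (E_neg h z)).1)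
    (key _ _ h.hε).2 (key _ _ h.hμ).2 (fun z => (key _ _ (E_neg h z)).2) (fun z => ?_) fun z => ?_
  · rw [map_smul, eq_div_iff two_ne_zero, mul_two, ← add_smul]
    norm_num
  · rw [map_smul, eq_div_iff (by norm_num : (4 : K) ≠ 0), show (4 : K) = 1 + 1 + 1 + 1 by norm_num]
    simp only [mul_add, mul_one, ← add_smul]
    norm_num

variable [IsReduced R]

theorem ok : (O.blk E εi μi).Ok := by
  constructor <;>
  · simp only [Out.blk]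
    refine eqf h _ _ fun K _ _ _ v n1 n2 n3 e1 e2 e3 s2 s4 => ?_
    have n4 := n3 O.la
    have n5 := n3 O.lc
    have n6 := n3 (2 * O.u₁)
    have n7 := n3 (2 * O.u₂)
    simp only [map_add, map_mul, map_sub, map_neg, map_pow, map_one, map_ofNat, map_zero,
      e1, e2, e3, s2, s4]
    field_simp

theorem logs : (O.blk E εi μi).ta D = μi * (O.Dd D O.la + 3) ∧
    (O.blk E εi μi).tc D = μi * (O.Dd D O.lc + 1) ∧ (O.blk E εi μi).xa D = D 1 O.la ∧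
    (O.blk E εi μi).xc D = D 1 O.lc ∧ (O.blk E εi μi).t₁ D = μi * O.t₁ D ∧
    (O.blk E εi μi).t₂ D = μi * O.t₂ D ∧ (O.blk E εi μi).x₁ D = D 1 O.u₁ ∧
    (O.blk E εi μi).x₂ D = D 1 O.u₂ := by
  refine ⟨?_, ?_, ?_, ?_, ?_, ?_, ?_, ?_⟩ <;>
  · simp only [Blk.ta, Blk.tc, Blk.xa, Blk.xc, Blk.t₁, Blk.t₂, Blk.x₁, Blk.x₂, Blk.T, Out.blk,
      Out.Dd, Out.t₁, Out.t₂, h.hD.mul, d_cube h, d2 h, d4 h, h.hE.der, h.ok.dε, h.ok.μ₀, h.ok.μ₁,
      dμi₀ h, dμi₁ h]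
    refine eqf h _ _ fun K _ _ _ v n1 n2 n3 e1 e2 e3 s2 s4 => ?_
    have n4 := n3 O.la
    have n5 := n3 O.lc
    have n6 := n3 (2 * O.u₁)
    have n7 := n3 (2 * O.u₂)
    simp only [map_add, map_mul, map_sub, map_neg, map_pow, map_one, map_ofNat, map_zero,
      e1, e2, e3, s2, s4]
    field_simp
    ring

theorem j_eq : (O.blk E εi μi).j D = μi * O.jh D := by
  rw [Blk.j, (logs h).2.1, Out.jh]
  simp only [Out.blk]
  linear_combination (norm := algebra) D 1 O.bp * h.hμ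

theorem l_eq : (O.blk E εi μi).l D = O.l D := by
  rw [Blk.l, (logs h).2.2.1, Out.l]

theorem curv (t s : R) : (O.blk E εi μi).K D = O.ε * O.μ * O.K D E ∧
    (O.blk E εi μi).k11 D (μi * t) s = O.ε * O.μ * O.k11 D E t s ∧
    (O.blk E εi μi).k22 D (μi * t) s = O.ε * O.μ * O.k22 D E t s ∧
    (O.blk E εi μi).k12 D (μi * t) s = μi * O.k12 D t s ∧
    (O.blk E εi μi).k34 D = O.ε * O.μ * O.k34 D E := by
  refine ⟨?_, ?_, ?_, ?_, ?_⟩ <;>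
  · simp only [Blk.K, Blk.k11, Blk.k22, Blk.k12, Blk.k34, Blk.H11, Blk.H22, Blk.H12,
      (logs h).1, (logs h).2.1, (logs h).2.2.1, (logs h).2.2.2.1, (logs h).2.2.2.2.1,
      (logs h).2.2.2.2.2.1, (logs h).2.2.2.2.2.2.1, (logs h).2.2.2.2.2.2.2, j_eq h, l_eq h]
    simp only [Blk.T, Out.blk, Out.K, Out.k11, Out.k22, Out.k12, Out.k34, Out.Dd,
      h.hD.add, h.hD.mul, h.hD.sub, h.hD.neg, h.hD.smul, h.hD.sq, h.hD.one, d_cube h, d2 h, d4 h,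
      h.hE.der, h.ok.dε, h.ok.μ₀, h.ok.μ₁, dμi₀ h, dμi₁ h, dεi h]
    refine eqf h _ _ fun K _ _ _ v n1 n2 n3 e1 e2 e3 s2 s4 => ?_
    have n4 := n3 O.la
    have n5 := n3 O.lc
    simp only [map_add, map_mul, map_sub, map_neg, map_pow, map_one, map_ofNat, map_zero,
      e1, e2, e3, s2, s4]
    field_simp
    all_goals ring

theorem X_t (u : R) : D 1 (O.Dd D u - (1 / 2 : ℝ) • 1) =
    O.Dd D (D 1 u) + O.μ * D 1 O.bp * D 1 u := by
  simp only [Out.Dd, h.hD.comm 1 0,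
      h.hD.add, h.hD.mul, h.hD.sub, h.hD.neg, h.hD.smul, h.hD.sq, h.hD.one, d_cube h, d2 h, d4 h,
      h.hE.der, h.ok.dε, h.ok.μ₀, h.ok.μ₁, dμi₀ h, dμi₁ h, dεi h]
  algebra

theorem errs : (O.blk E εi μi).e11 D = O.μ * O.err D E 0 ∧
    (O.blk E εi μi).e22 D = O.μ * O.err D E 2 ∧ (O.blk E εi μi).e₁ D = O.μ * O.err D E 3 ∧
    (O.blk E εi μi).e₂ D = O.μ * O.err D E 4 := by
  refine ⟨?_, ?_, ?_, ?_⟩ <;>
  · simp only [Blk.e11, Blk.e22, Blk.e₁, Blk.e₂, Blk.lap, Blk.Xa, Blk.y₁, Blk.y₂, Blk.H11,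
      Blk.H22, (curv h 0 0).1,
      (logs h).1, (logs h).2.1, (logs h).2.2.1, (logs h).2.2.2.1, (logs h).2.2.2.2.1,
      (logs h).2.2.2.2.2.1, (logs h).2.2.2.2.2.2.1, (logs h).2.2.2.2.2.2.2, j_eq h, l_eq h]
    simp only [Blk.T, Out.blk, Out.err, Out.oa, Out.oc, Out.o₁, Out.o₂, Out.k11, Out.k22,
      Out.k34, Out.Dd, Matrix.cons_val, Matrix.cons_val_zero, Matrix.cons_val_one,
      h.hD.add, h.hD.mul, h.hD.sub, h.hD.neg, h.hD.smul, h.hD.sq, h.hD.one, d_cube h, d2 h, d4 h,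
      h.hE.der, h.ok.dε, h.ok.μ₀, h.ok.μ₁, dμi₀ h, dμi₁ h, dεi h]
    generalize D 0 (O.t₁ D) = a1, D 1 (O.t₁ D) = a2, D 0 (O.t₂ D) = a3, D 1 (O.t₂ D) = a4
    simp only [Out.jh, Out.l, Out.t₁, Out.t₂, Out.Dd]
    refine eqf h _ _ fun K _ _ _ v n1 n2 n3 e1 e2 e3 s2 s4 => ?_
    have n4 := n3 O.la
    have n5 := n3 O.lc
    simp only [map_add, map_mul, map_sub, map_neg, map_pow, map_one, map_ofNat, map_zero,
      e1, e2, e3, s2, s4]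
    field_simp
    ring

theorem e12_eq : (O.blk E εi μi).e12 D =
    εi * μi * (1 / 2 : ℝ) • (O.err D E 1 * E (-O.lc)) := by
  simp only [Blk.e12, Blk.y₁, Blk.y₂,
      (logs h).1, (logs h).2.1, (logs h).2.2.1, (logs h).2.2.2.1, (logs h).2.2.2.2.1,
      (logs h).2.2.2.2.2.1, (logs h).2.2.2.2.2.2.1, (logs h).2.2.2.2.2.2.2, j_eq h, l_eq h]
  have x1 : D 1 (O.t₁ D) = _ := X_t h O.u₁
  have x2 : D 1 (O.t₂ D) = _ := X_t h O.u₂
  simp only [Blk.T, Out.blk, Out.err, Out.ob, Out.k12, Out.l, Out.Dd, Matrix.cons_val,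
      Matrix.cons_val_zero, Matrix.cons_val_one, x1, x2,
      h.hD.add, h.hD.mul, h.hD.sub, h.hD.neg, h.hD.smul, h.hD.sq, h.hD.one, d_cube h, d2 h, d4 h,
      h.hE.der, h.ok.dε, h.ok.μ₀, h.ok.μ₁, dμi₀ h, dμi₁ h, dεi h]
  refine eqf h _ _ fun K _ _ _ v n1 n2 n3 e1 e2 e3 s2 s4 => ?_
  have n4 := n3 O.la
  have n5 := n3 O.lc
  simp only [map_add, map_mul, map_sub, map_neg, map_pow, map_one, map_ofNat, map_zero,
    e1, e2, e3, s2, s4]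
  field_simp
  ring

theorem lapmu_eq : (O.blk E εi μi).lap D μi 0 + 1 = O.ε * O.μ * O.lapmu D E := by
  simp only [Blk.lap, Blk.Xa, Blk.y₁, Blk.y₂, Blk.H11, Blk.H22,
      (logs h).1, (logs h).2.1, (logs h).2.2.1, (logs h).2.2.2.1, (logs h).2.2.2.2.1,
      (logs h).2.2.2.2.2.1, (logs h).2.2.2.2.2.2.1, (logs h).2.2.2.2.2.2.2, j_eq h, l_eq h]
  simp only [Blk.T, Out.blk, Out.lapmu, Out.Dd, h.hD.zero,
      h.hD.add, h.hD.mul, h.hD.sub, h.hD.neg, h.hD.smul, h.hD.sq, h.hD.one, d_cube h, d2 h, d4 h,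
      h.hE.der, h.ok.dε, h.ok.μ₀, h.ok.μ₁, dμi₀ h, dμi₁ h, dεi h]
  refine eqf h _ _ fun K _ _ _ v n1 n2 n3 e1 e2 e3 s2 s4 => ?_
  have n4 := n3 O.la
  have n5 := n3 O.lc
  simp only [map_add, map_mul, map_sub, map_neg, map_pow, map_one, map_ofNat, map_zero,
    e1, e2, e3, s2, s4]
  field_simp
  ring

theorem Om_eq : (O.blk E εi μi).Om D = εi * μi ^ 2 * O.Om D E := by
  simp only [Blk.Om, Blk.T, Out.blk, Out.Om, Out.Dd,
      h.hD.add, h.hD.mul, h.hD.sub, h.hD.neg, h.hD.smul, h.hD.sq, h.hD.one, d_cube h, d2 h, d4 h,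
      h.hE.der, h.ok.dε, h.ok.μ₀, h.ok.μ₁, dμi₀ h, dμi₁ h, dεi h]
  refine eqf h _ _ fun K _ _ _ v n1 n2 n3 e1 e2 e3 s2 s4 => ?_
  have n4 := n3 O.la
  have n5 := n3 O.lc
  simp only [map_add, map_mul, map_sub, map_neg, map_pow, map_one, map_ofNat, map_zero,
    e1, e2, e3, s2, s4]
  field_simp
  ring

theorem lam_eq : (O.blk E εi μi).lam₂ D = O.lam₂ D E (O.Om D E) - εi * μi * O.Om D E ∧
    (O.blk E εi μi).lam₁ D = -(μi * O.lam₁ D E (O.Om D E)) - εi * μi * O.bp * O.Om D E := by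
  constructor <;>
  · simp only [Blk.lam₁, Blk.lam₂, Blk.y₁, Blk.y₂, Om_eq h,
      (logs h).1, (logs h).2.1, (logs h).2.2.1, (logs h).2.2.2.1, (logs h).2.2.2.2.1,
      (logs h).2.2.2.2.2.1, (logs h).2.2.2.2.2.2.1, (logs h).2.2.2.2.2.2.2, j_eq h, l_eq h]
    generalize O.Om D E = Ω
    simp only [Blk.T, Out.blk, Out.lam₁, Out.lam₂, Out.Dd,
      h.hD.add, h.hD.mul, h.hD.sub, h.hD.neg, h.hD.smul, h.hD.sq, h.hD.one, d_cube h, d2 h, d4 h,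
      h.hE.der, h.ok.dε, h.ok.μ₀, h.ok.μ₁, dμi₀ h, dμi₁ h, dεi h]
    refine eqf h _ _ fun K _ _ _ v n1 n2 n3 e1 e2 e3 s2 s4 => ?_
    have n4 := n3 O.la
    have n5 := n3 O.lc
    simp only [map_add, map_mul, map_sub, map_neg, map_pow, map_one, map_ofNat, map_zero,
      e1, e2, e3, s2, s4]
    field_simp
    ring

theorem bi_eq : (O.blk E εi μi).bi₁ D = εi * μi * O.B₁ D E (O.err D E 0)
      ((1 / 2 : ℝ) • (O.err D E 1 * E (-O.lc))) (O.err D E 2) (O.err D E 3) (O.err D E 4) ∧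
    (O.blk E εi μi).bi₂ D = εi * O.B₂ D E (O.err D E 0)
      ((1 / 2 : ℝ) • (O.err D E 1 * E (-O.lc))) (O.err D E 2) (O.err D E 3) (O.err D E 4) := by
  constructor <;>
  · simp only [Blk.bi₁, Blk.bi₂, (errs h).1, (errs h).2.1, (errs h).2.2.1, (errs h).2.2.2,
      e12_eq h,
      (logs h).1, (logs h).2.1, (logs h).2.2.1, (logs h).2.2.2.1, (logs h).2.2.2.2.1,
      (logs h).2.2.2.2.2.1, (logs h).2.2.2.2.2.2.1, (logs h).2.2.2.2.2.2.2, j_eq h, l_eq h]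
    generalize (1 / 2 : ℝ) • (O.err D E 1 * E (-O.lc)) = f, O.err D E 0 = ea, O.err D E 2 = ec,
      O.err D E 3 = e₁, O.err D E 4 = e₂
    simp only [Blk.T, Out.blk, Out.B₁, Out.B₂, Out.Dd,
      h.hD.add, h.hD.mul, h.hD.sub, h.hD.neg, h.hD.smul, h.hD.sq, h.hD.one, d_cube h, d2 h, d4 h,
      h.hE.der, h.ok.dε, h.ok.μ₀, h.ok.μ₁, dμi₀ h, dμi₁ h, dεi h]
    refine eqf h _ _ fun K _ _ _ v n1 n2 n3 e1 e2 e3 s2 s4 => ?_
    have n4 := n3 O.la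
    have n5 := n3 O.lc
    simp only [map_add, map_mul, map_sub, map_neg, map_pow, map_one, map_ofNat, map_zero,
      e1, e2, e3, s2, s4]
    field_simp
    ring

theorem bi (t8 : T8Stmt) :
    O.ε * O.biL D E (O.Om D E) - D 0 (O.Om D E) = O.biR D E (O.err D E) := by
  have h8 := t8 R D (O.blk E εi μi) h.hD (ok h)
  rw [(lam_eq h).1, (lam_eq h).2, (bi_eq h).1, (bi_eq h).2, Om_eq h] at h8
  simp only [Out.biL, Out.biR]
  generalize O.B₁ D E _ _ _ _ _ = b₁, O.B₂ D E _ _ _ _ _ = b₂, O.lam₁ D E _ = l₁,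
    O.lam₂ D E _ = l₂ at h8 ⊢
  generalize O.Om D E = Ω at h8 ⊢
  simp only [Blk.T, Out.blk, Out.Dd,
      h.hD.add, h.hD.mul, h.hD.sub, h.hD.neg, h.hD.smul, h.hD.sq, h.hD.one, d_cube h, d2 h, d4 h,
      h.hE.der, h.ok.dε, h.ok.μ₀, h.ok.μ₁, dμi₀ h, dμi₁ h, dεi h] at h8 ⊢
  refine eqf h _ _ fun K _ _ _ v n1 n2 n3 e1 e2 e3 s2 s4 => ?_
  have h9 := congrArg v h8
  simp only [map_add, map_mul, map_sub, map_neg, map_pow, map_one, map_ofNat, map_zero,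
    e1, e2, e3, s2, s4] at h9 ⊢
  linear_combination (norm := skip) (v O.ε * v O.μ) * h9
  field_simp
  ring

end OutHg

open OutHg in
theorem outHG (t8 : T8Stmt) : OutHGStmt := by
  intro R _ _ _ D E O εi μi hD hE hO hε hμ
  have h : Hy D E O εi μi := ⟨hD, hE, hO, hε, hμ⟩
  have l1 := (logs h).2.2.2.2.1
  have l2 := (logs h).2.2.2.2.2.1
  have l3 := (logs h).2.2.2.2.2.2.1
  have l4 := (logs h).2.2.2.2.2.2.2
  refine ⟨ok h, (errs h).1, ?_, (errs h).2.1, (errs h).2.2.1, (errs h).2.2.2, fun i h2 h5 => ?_,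
    fun i hi => ?_, lapmu_eq h, ?_, bi h t8⟩
  · rw [e12_eq h]
    have e := E_neg h O.lc
    linear_combination (norm := algebra) (O.err D E 1 * O.μ * μi * E O.lc * E (-O.lc)) * hε +
      (O.err D E 1 * E O.lc * E (-O.lc)) * hμ + O.err D E 1 * e
  · simp only [Blk.kv, Out.kv, l1, l2, l3, l4]
    fin_cases i
    · exact (curv h 0 0).1
    · exact (curv h _ _).2.1
    · exact absurd rfl h2
    · exact (curv h _ _).2.2.1
    · exact (curv h _ _).2.1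
    · exact absurd rfl h5
    · exact (curv h _ _).2.2.1
    · exact (curv h 0 0).2.2.2.2
  · simp only [Blk.kv, Out.kv, l1, l2, l3, l4]
    have k := fun t s => (curv h t s).2.2.2.1
    rcases hi with rfl | rfl
    · change O.μ * (O.blk E εi μi).k12 D _ _ = O.k12 D _ _
      rw [k, ← mul_assoc, hμ, one_mul]
    · change O.μ * (O.blk E εi μi).k12 D _ _ = O.k12 D _ _
      rw [k, ← mul_assoc, hμ, one_mul]
  · rw [Om_eq h]
    linear_combination (O.Om D E * O.μ ^ 2 * μi ^ 2) * hε + O.Om D E * (O.μ * μi + 1) * hμ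

end Pool.Agent.Lib.MP_df9110_gt
end
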