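import Pool.Agent.Lib.MP_df9110_gt.SegCat

/-! Assembly of the profile from the two caps and the middle part. -/

namespace Pool.Agent.Lib.MP_df9110_gt

open Set Filter Topology
open scoped ContDiff

namespace Pa

/-- The wall of a product. -/
noncomputable def dq (e s : ℝ) (i : Fin 2) (x : ℝ) : ℝ := e * trg s i x ^ 2

/-- The logarithm of the length of a circle of a product. -/
noncomputable def Lq (e s : ℝ) (i : Fin 2) (x : ℝ) : ℝ := Real.log e + Real.log (trg s i x)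

theorem trg0 (s x : ℝ) : trg s 0 x = Real.sin (x - s) := rfl
theorem trg1 (s x : ℝ) : trg s 1 x = Real.cos (x - s) := rfl

theorem trg_pos {s x : ℝ} (h0 : s < x) (h1 : x < s + Real.pi / 2) (i : Fin 2) : 0 < trg s i x := by
  have := Real.pi_pos
  fin_cases i
  · exact Real.sin_pos_of_pos_of_lt_pi (by linarith) (by linarith)
  · exact Real.cos_pos_of_mem_Ioo ⟨by linarith, by linarith⟩

theorem trg_sm (s : ℝ) (i : Fin 2) : ContDiff ℝ ∞ (trg s i) := by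
  fin_cases i
  · exact Real.contDiff_sin.comp (contDiff_id.sub contDiff_const)
  · exact Real.contDiff_cos.comp (contDiff_id.sub contDiff_const)

theorem dq_sm (e s : ℝ) (i : Fin 2) : ContDiff ℝ ∞ (dq e s i) :=
  contDiff_const.mul ((trg_sm s i).pow 2)

theorem Lq_sm (e : ℝ) {s x : ℝ} (h0 : s < x) (h1 : x < s + Real.pi / 2) (i : Fin 2) :
    ContDiffAt ℝ ∞ (Lq e s i) x :=
  contDiffAt_const.add ((trg_sm s i).contDiffAt.log (trg_pos h0 h1 i).ne')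

theorem dq_pos {e s x : ℝ} (he : 0 < e) (h0 : s < x) (h1 : x < s + Real.pi / 2) (i : Fin 2) :
    0 < dq e s i x := mul_pos he (pow_pos (trg_pos h0 h1 i) 2)

theorem hsin (s x : ℝ) : HasDerivAt (trg s 0) (trg s 1 x) x := by
  simpa [trg] using ((hasDerivAt_id x).sub_const s).sin

theorem hcos (s x : ℝ) : HasDerivAt (trg s 1) (-trg s 0 x) x := by
  simpa [trg] using ((hasDerivAt_id x).sub_const s).cos

theorem trg_sq (s x : ℝ) : trg s 0 x ^ 2 + trg s 1 x ^ 2 = 1 := Real.sin_sq_add_cos_sq _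

theorem ev_Ioo {p q x : ℝ} (h0 : p < x) (h1 : x < q) : ∀ᶠ y in 𝓝 x, p < y ∧ y < q :=
  (lt_mem_nhds h0).and (gt_mem_nhds h1)

theorem dL0 (e : ℝ) {s x : ℝ} (h0 : s < x) (h1 : x < s + Real.pi / 2) :
    deriv (Lq e s 0) x = trg s 1 x / trg s 0 x :=
  (((hsin s x).log (trg_pos h0 h1 0).ne').const_add (Real.log e)).deriv

theorem dL1 (e : ℝ) {s x : ℝ} (h0 : s < x) (h1 : x < s + Real.pi / 2) :
    deriv (Lq e s 1) x = -trg s 0 x / trg s 1 x :=
  (((hcos s x).log (trg_pos h0 h1 1).ne').const_add (Real.log e)).deriv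

theorem ddL (e : ℝ) {s x : ℝ} (h0 : s < x) (h1 : x < s + Real.pi / 2) (i : Fin 2) :
    deriv (deriv (Lq e s i)) x = -(1 + deriv (Lq e s i) x ^ 2) := by
  have p0 := (trg_pos h0 h1 0).ne'
  have p1 := (trg_pos h0 h1 1).ne'
  fin_cases i
  · have : deriv (Lq e s 0) =ᶠ[𝓝 x] fun y => trg s 1 y / trg s 0 y :=
      (ev_Ioo h0 h1).mono fun y hy => dL0 e hy.1 hy.2
    change deriv (deriv (Lq e s 0)) x = -(1 + deriv (Lq e s 0) x ^ 2)
    rw [this.deriv_eq, dL0 e h0 h1]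
    refine ((hcos s x).div (hsin s x) p0).deriv.trans ?_
    field_simp
    ring
  · have : deriv (Lq e s 1) =ᶠ[𝓝 x] fun y => -trg s 0 y / trg s 1 y :=
      (ev_Ioo h0 h1).mono fun y hy => dL1 e hy.1 hy.2
    change deriv (deriv (Lq e s 1)) x = -(1 + deriv (Lq e s 1) x ^ 2)
    rw [this.deriv_eq, dL1 e h0 h1]
    refine ((hsin s x).neg.div (hcos s x) p1).deriv.trans ?_
    simp only [Pi.neg_apply]
    field_simp
    ring

theorem dL_mul (e e' : ℝ) {s x : ℝ} (h0 : s < x) (h1 : x < s + Real.pi / 2) :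
    deriv (Lq e s 0) x * deriv (Lq e' s 1) x = -1 := by
  have p0 := (trg_pos h0 h1 0).ne'
  have p1 := (trg_pos h0 h1 1).ne'
  rw [dL0 e h0 h1, dL1 e' h0 h1]
  field_simp

theorem ddq (e : ℝ) {s x : ℝ} (h0 : s < x) (h1 : x < s + Real.pi / 2) (i : Fin 2) :
    deriv (dq e s i) x = 2 * deriv (Lq e s i) x * dq e s i x := by
  have p0 := (trg_pos h0 h1 0).ne'
  have p1 := (trg_pos h0 h1 1).ne'
  fin_cases i
  · change deriv (dq e s 0) x = 2 * deriv (Lq e s 0) x * dq e s 0 x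
    rw [dL0 e h0 h1]
    refine (((hsin s x).pow 2).const_mul e).deriv.trans ?_
    simp only [dq]
    field_simp
    norm_num
  · change deriv (dq e s 1) x = 2 * deriv (Lq e s 1) x * dq e s 1 x
    rw [dL1 e h0 h1]
    refine (((hcos s x).pow 2).const_mul e).deriv.trans ?_
    simp only [dq]
    field_simp
    norm_num

theorem exp_Lq {e s x : ℝ} (he : 0 < e) (h0 : s < x) (h1 : x < s + Real.pi / 2) (i : Fin 2) :
    Real.exp (2 * Lq e s i x) = (e * trg s i x) ^ 2 := by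
  rw [two_mul, Real.exp_add, Lq, Real.exp_add, Real.exp_log he, Real.exp_log (trg_pos h0 h1 i)]
  ring

theorem exp_Lq' {e s x : ℝ} (he : 0 < e) (h0 : s < x) (h1 : x < s + Real.pi / 2) (i : Fin 2) :
    Real.exp (2 * Lq e s i x) = dq e s i x ^ 2 * (1 + deriv (Lq e s i) x ^ 2) := by
  have p0 := (trg_pos h0 h1 0).ne'
  have p1 := (trg_pos h0 h1 1).ne'
  have hs := trg_sq s x
  rw [exp_Lq he h0 h1]
  fin_cases i
  · change (e * trg s 0 x) ^ 2 = dq e s 0 x ^ 2 * (1 + deriv (Lq e s 0) x ^ 2)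
    rw [dL0 e h0 h1, dq]
    field_simp
    linear_combination (-1 : ℝ) * hs
  · change (e * trg s 1 x) ^ 2 = dq e s 1 x ^ 2 * (1 + deriv (Lq e s 1) x ^ 2)
    rw [dL1 e h0 h1, dq]
    field_simp
    linear_combination (-1 : ℝ) * hs

theorem eta_Lq (e e' : ℝ) {s x : ℝ} (h0 : s < x) (h1 : x < s + Real.pi / 2) :
    etaF (Lq e s 0) (Lq e' s 1) x = 0 := by
  rw [etaF, ddL e h0 h1, ddL e' h0 h1, dL_mul e e' h0 h1]
  ring

theorem eta_congr {A B A' B' : ℝ → ℝ} {x : ℝ} (hA : A =ᶠ[𝓝 x] A') (hB : B =ᶠ[𝓝 x] B') :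
    etaF A B x = etaF A' B' x := by
  rw [etaF, etaF, hA.deriv.deriv_eq, hB.deriv.deriv_eq, hA.deriv_eq, hB.deriv_eq]

theorem eta_add (α β : ℝ) (A B : ℝ → ℝ) :
    etaF (fun y => α + A y) (fun y => β + B y) = etaF A B := by
  funext x
  simp only [etaF, deriv_const_add']

theorem deriv_mir (t : ℝ) (A : ℝ → ℝ) :
    deriv (fun y => A (t - y)) = fun y => -deriv A (t - y) :=
  funext fun _ => deriv_comp_const_sub _ _ _

theorem eta_mir (t : ℝ) (A B : ℝ → ℝ) (x : ℝ) :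
    etaF (fun y => B (t - y)) (fun y => A (t - y)) x = etaF A B (t - x) := by
  have key : ∀ F : ℝ → ℝ, deriv (fun y => -deriv F (t - y)) x = deriv (deriv F) (t - x) := by
    intro F
    rw [deriv.fun_neg, deriv_comp_const_sub, neg_neg]
  simp only [etaF, deriv_mir, key]
  ring

theorem eta_cont {A B : ℝ → ℝ} {x : ℝ} (hA : ContDiffAt ℝ ∞ A x) (hB : ContDiffAt ℝ ∞ B x) :
    ContinuousAt (etaF A B) x := by
  have a1 : ContDiffAt ℝ ∞ (deriv A) x := hA.derivWithin le_rfl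
  have b1 : ContDiffAt ℝ ∞ (deriv B) x := hB.derivWithin le_rfl
  have a2 : ContDiffAt ℝ ∞ (deriv (deriv A)) x := a1.derivWithin le_rfl
  have b2 : ContDiffAt ℝ ∞ (deriv (deriv B)) x := b1.derivWithin le_rfl
  exact (((((a2.add b2).add (a1.pow 2)).add (b1.pow 2)).add (a1.mul b1)).add
    contDiffAt_const).neg.continuousAt

theorem dev_congr {f g η f' g' η' : ℝ → ℝ} {S S' : Set ℝ} (h : Dev f g η S) (α : ℝ)
    (hS : ∀ x ∈ S', x ∈ S ∧ (∀ᶠ y in 𝓝 x, f' y - g' y = α * (f y - g y)) ∧ η' x = η x) :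
    Dev f' g' η' S' := by
  intro θ h0 h1 k
  obtain ⟨C, hC⟩ := h θ h0 h1 k
  refine ⟨|α| * C, fun x hx => ?_⟩
  obtain ⟨hx1, hx2, hx3⟩ := hS x hx
  have : (f' - g') =ᶠ[𝓝 x] fun y => α * (f - g) y := hx2
  rw [this.iteratedDeriv_eq, iteratedDeriv_const_mul_field, abs_mul, hx3, mul_assoc]
  exact mul_le_mul_of_nonneg_left (hC x hx1) (abs_nonneg α)

theorem dev_union {f g η : ℝ → ℝ} {S T U : Set ℝ} (h : Dev f g η S) (h' : Dev f g η T)
    (hU : ∀ x ∈ U, 0 ≤ η x ∧ (x ∈ S ∨ x ∈ T)) : Dev f g η U := by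
  intro θ h0 h1 k
  obtain ⟨C, hC⟩ := h θ h0 h1 k
  obtain ⟨C', hC'⟩ := h' θ h0 h1 k
  refine ⟨max C C', fun x hx => ?_⟩
  obtain ⟨hη, hx | hx⟩ := hU x hx
  · exact (hC x hx).trans (mul_le_mul_of_nonneg_right (le_max_left _ _) (Real.rpow_nonneg hη θ))
  · exact (hC' x hx).trans (mul_le_mul_of_nonneg_right (le_max_right _ _) (Real.rpow_nonneg hη θ))

theorem dev_mir {f g η : ℝ → ℝ} {S : Set ℝ} (h : Dev f g η S) (t : ℝ) :
    Dev (fun y => f (t - y)) (fun y => g (t - y)) (fun y => η (t - y)) {x | t - x ∈ S} := by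
  intro θ h0 h1 k
  obtain ⟨C, hC⟩ := h θ h0 h1 k
  refine ⟨C, fun x hx => ?_⟩
  have : ((fun y => f (t - y)) - fun y => g (t - y)) = fun y => (f - g) (t - y) := rfl
  rw [this, iteratedDeriv_comp_const_sub]
  simp only [smul_eq_mul, abs_mul, abs_pow, abs_neg, abs_one, one_pow, one_mul]
  exact hC _ hx

theorem glue {f g : ℝ → ℝ} {p q : ℝ} (h : ∀ x, p < x → x < q → f x = g x) :
    ∃ u : ℝ → ℝ, (∀ x, x < q → u x = f x) ∧ ∀ x, p < x → u x = g x := by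
  refine ⟨fun x => if x < q then f x else g x, fun x hx => if_pos hx, fun x hx => ?_⟩
  by_cases h' : x < q
  · simp only [if_pos h']
    exact h x hx h'
  · exact if_neg h'

/-- A smooth function that is the inverse of `f` on an interval and vanishes away from it. -/
theorem bump {p q ε : ℝ} (hpq : p < q) (hε : 0 < ε) (f : ℝ → ℝ) (hf : ContDiff ℝ ∞ f)
    (hpos : ∀ x, p - 2 * ε < x → x < q + 2 * ε → 0 < f x) :
    ∃ χ : ℝ → ℝ, ContDiff ℝ ∞ χ ∧ (∀ x, 0 ≤ χ x) ∧ (∀ x, p ≤ x → x ≤ q → χ x * f x = 1) ∧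
      ∀ x, x ≤ p - ε ∨ q + ε ≤ x → χ x = 0 := by
  let B : ContDiffBump ((p + q) / 2) := ⟨(q - p) / 2, (q - p) / 2 + ε, by linarith, by linarith⟩
  have hz : ∀ x, x ≤ p - ε ∨ q + ε ≤ x → B x = 0 := by
    intro x hx
    refine B.zero_of_le_dist ?_
    change (q - p) / 2 + ε ≤ |x - (p + q) / 2|
    rcases hx with hx | hx
    · exact le_trans (by linarith) (neg_le_abs _)
    · exact le_trans (by linarith) (le_abs_self _)
  refine ⟨fun x => B x / f x, ?_, fun x => ?_, fun x h1 h2 => ?_, fun x hx => ?_⟩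
  · refine contDiff_iff_contDiffAt.2 fun x => ?_
    by_cases h : p - 2 * ε < x ∧ x < q + 2 * ε
    · exact B.contDiffAt.div hf.contDiffAt (hpos x h.1 h.2).ne'
    · have : ∀ᶠ y in 𝓝 x, y ≤ p - ε ∨ q + ε ≤ y := by
        rcases not_and_or.1 h with h | h
        · exact (gt_mem_nhds (show x < p - ε by linarith)).mono fun y hy => Or.inl hy.le
        · exact (lt_mem_nhds (show q + ε < x by linarith)).mono fun y hy => Or.inr hy.le
      refine (contDiffAt_const (c := (0 : ℝ))).congr_of_eventuallyEq (this.mono fun y hy => ?_)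
      simp only [hz y hy, zero_div]
  · by_cases h : x ≤ p - ε ∨ q + ε ≤ x
    · simp only [hz x h, zero_div, le_refl]
    · rw [not_or, not_le, not_le] at h
      exact div_nonneg B.nonneg (hpos x (by linarith) (by linarith)).le
  · have : B x = 1 := by
      refine B.one_of_mem_closedBall ?_
      change |x - (p + q) / 2| ≤ (q - p) / 2
      exact abs_le.2 ⟨by linarith, by linarith⟩
    simp only [this]
    exact one_div_mul_cancel (hpos x (by linarith) (by linarith)).ne'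
  · simp only [hz x hx, zero_div]

/-- The glued data. -/
structure Gl where
  (xL xR r κ : ℝ)
  (xJ pl p q pr s : Bool → ℝ)
  (e : Bool → Fin 2 → ℝ)
  (d L : Fin 2 → ℝ → ℝ)

/-- The domains of the two walls. -/
def Gl.dom (G : Gl) : Fin 2 → Set ℝ := ![Ioo (G.xL - G.r) (G.q true), Ioo (G.p false) (G.xR + G.r)]

/-- The properties of the glued data. -/
structure Gl.Ok (G : Gl) : Prop where
  r_pos : 0 < G.r
  κ_pos : 0 < G.κ
  o1 : G.xL + G.r ≤ G.pl false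
  o2 : G.pr false < G.pl true
  o3 : G.pr true ≤ G.xR - G.r
  oJ : ∀ J, G.s J < G.pl J ∧ G.pl J < G.p J ∧ G.p J < G.xJ J ∧ G.xJ J < G.q J ∧ G.q J < G.pr J ∧
    G.pr J < G.s J + Real.pi / 2
  e_pos : ∀ J i, 0 < G.e J i
  hL : ∀ x, G.xL - G.r < x → x < G.xR + G.r → (∀ i, ContDiffAt ℝ ∞ (G.L i) x) ∧
    0 ≤ etaF (G.L 0) (G.L 1) x ∧ ((∀ J, x < G.p J ∨ G.q J < x) → 0 < etaF (G.L 0) (G.L 1) x)
  hd : ∀ i, ∀ x ∈ G.dom i, ContDiffAt ℝ ∞ (G.d i) x ∧
    G.d i x ^ 2 + deriv (G.d i) x ^ 2 / 4 = Real.exp (2 * G.L i x)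
  h0 : ∀ x, G.xL - G.r < x → x < G.q true → (G.xL < x → 0 < G.d 0 x) ∧
    G.d 0 x * Real.exp (-(2 * G.L 0 x)) ≤ G.κ ∧ 0 < deriv (G.d 0) x
  h1 : ∀ x, G.p false < x → x < G.xR + G.r → (x < G.xR → 0 < G.d 1 x) ∧
    (G.p true < x → G.d 1 x * Real.exp (-(2 * G.L 1 x)) ≤ G.κ ∧ deriv (G.d 1) x < 0)
  z0 : ∃ a : ℝ, 0 < a ∧ ∀ x, x ≤ G.xL + G.r → G.d 0 x = a * (x - G.xL)
  z1 : ∃ a : ℝ, 0 < a ∧ ∀ x, G.xR - G.r ≤ x → G.d 1 x = a * (G.xR - x)
  zone : ∀ J i x, G.p J < x → x < G.q J →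
    G.d i x = dq (G.e J i) (G.s J) i x ∧ G.L i x = Lq (G.e J i) (G.s J) i x
  devL : ∀ J i, Dev (G.L i) (Lq (G.e J i) (G.s J) i) (etaF (G.L 0) (G.L 1)) (Ioo (G.pl J) (G.pr J))
  devd : ∀ J i, Dev (G.d i) (dq (G.e J i) (G.s J) i) (etaF (G.L 0) (G.L 1))
    (Ioo (G.pl J) (G.pr J) ∩ G.dom i)
  junc : ∀ J, dq (G.e J 0) (G.s J) 0 (G.xJ J) = dq (G.e J 1) (G.s J) 1 (G.xJ J)
  kap : 3 * G.κ * G.e false 1 ≤ 1

theorem ex_small (l : List ℝ) (h : ∀ a ∈ l, 0 < a) : ∃ δ : ℝ, 0 < δ ∧ ∀ a ∈ l, 2 * δ < a := by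
  induction l with
  | nil => exact ⟨1, one_pos, by simp⟩
  | cons a l ih =>
    obtain ⟨δ, h1, h2⟩ := ih fun b hb => h b (List.mem_cons_of_mem _ hb)
    have ha := h a List.mem_cons_self
    refine ⟨min δ (a / 3), lt_min h1 (by linarith), fun b hb => ?_⟩
    rcases List.mem_cons.1 hb with rfl | hb
    · linarith [min_le_right δ (b / 3)]
    · linarith [min_le_left δ (a / 3), h2 b hb]

theorem fin (G : Gl) (h : G.Ok) : ProfStmt := by
  obtain ⟨f1, f2, f3, f4, f5, f6⟩ := h.oJ false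
  obtain ⟨t1, t2, t3, t4, t5, t6⟩ := h.oJ true
  have hr := h.r_pos
  have o1 := h.o1
  have o2 := h.o2
  have o3 := h.o3
  obtain ⟨α, α0, hα⟩ := h.z0
  obtain ⟨β, β0, hβ⟩ := h.z1
  obtain ⟨δ, hδ, hs⟩ := ex_small [G.r, G.pl true - G.pr false, G.pl false - G.s false,
    G.pl true - G.s true, G.s false + Real.pi / 2 - G.pr false, G.s true + Real.pi / 2 - G.pr true,
    G.xJ false - G.p false, G.xJ true - G.p true, G.q false - G.xJ false, G.q true - G.xJ true]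
    (by simp only [List.mem_cons, List.not_mem_nil, or_false, forall_eq_or_imp, forall_eq]
        refine ⟨?_, ?_, ?_, ?_, ?_, ?_, ?_, ?_, ?_, ?_⟩ <;> linarith)
  simp only [List.mem_cons, List.not_mem_nil, or_false, forall_eq_or_imp, forall_eq] at hs
  obtain ⟨s1, s2, s3, s4, s5, s6, s7, s8, s9, s10⟩ := hs
  have sJ : ∀ J, G.s J + 2 * δ < G.pl J ∧ G.pr J + 2 * δ < G.s J + Real.pi / 2 ∧
      G.p J + 2 * δ < G.xJ J ∧ G.xJ J + 2 * δ < G.q J ∧ G.xL + 2 * δ < G.pl J ∧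
      G.pr J + 2 * δ < G.xR := by
    intro J
    cases J
    · refine ⟨?_, ?_, ?_, ?_, ?_, ?_⟩ <;> linarith
    · refine ⟨?_, ?_, ?_, ?_, ?_, ?_⟩ <;> linarith
  have hb : ∀ J i, ∃ χ : ℝ → ℝ, ContDiff ℝ ∞ χ ∧ (∀ x, 0 ≤ χ x) ∧
      (∀ x, G.pl J ≤ x → x ≤ G.pr J → χ x * dq (G.e J i) (G.s J) i x = 1) ∧
      ∀ x, x ≤ G.pl J - δ ∨ G.pr J + δ ≤ x → χ x = 0 := by
    intro J i
    obtain ⟨a1, a2, a3, a4, a5, a6⟩ := h.oJ J
    obtain ⟨b1, b2, -⟩ := sJ J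
    exact bump (by linarith) hδ _ (dq_sm _ _ _) fun x h1 h2 =>
      dq_pos (h.e_pos J i) (by linarith) (by linarith) i
  choose χ hχ1 hχ2 hχ3 hχ4 using hb
  let lo : Fin 2 → ℝ := ![G.xL - δ, G.xJ false - δ]
  let hi : Fin 2 → ℝ := ![G.xJ true + δ, G.xR + δ]
  have hdom : ∀ i, Icc (lo i) (hi i) ⊆ G.dom i := by
    intro i
    fin_cases i
    · rintro x ⟨h1, h2⟩
      change G.xL - δ ≤ x at h1
      change x ≤ G.xJ true + δ at h2
      exact ⟨show G.xL - G.r < x by linarith, show x < G.q true by linarith⟩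
    · rintro x ⟨h1, h2⟩
      change G.xJ false - δ ≤ x at h1
      change x ≤ G.xR + δ at h2
      exact ⟨show G.p false < x by linarith, show x < G.xR + G.r by linarith⟩
  have hM : ∀ i, ∃ M : ℝ, ∀ x ∈ Icc (lo i) (hi i), ‖G.d i x‖ ≤ M := fun i =>
    isCompact_Icc.exists_bound_of_continuousOn fun x hx =>
      (h.hd i x (hdom i hx)).1.continuousAt.continuousWithinAt
  choose M hM using hM
  have hLx : ∀ x ∈ Icc (G.xL - δ) (G.xR + δ), _ := fun x hx =>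
    h.hL x (by linarith [hx.1]) (by linarith [hx.2])
  refine ⟨⟨G.xL, G.xR, δ, G.κ, max 1 (max (M 0) (M 1)), G.xJ, G.pl, fun J => (G.pl J + G.p J) / 2,
    fun J => (G.q J + G.pr J) / 2, G.pr, G.d, fun i x => χ false i x + χ true i x, G.L,
    fun J i => dq (G.e J i) (G.s J) i, fun J i => Lq (G.e J i) (G.s J) i⟩,
    hδ, h.κ_pos, le_max_left _ _, ⟨?_, o2.le, ?_⟩, fun J => ?_, fun i x hx => (h.hd i x (hdom i hx)).1,
    fun i x _ => ((hχ1 false i).add (hχ1 true i)).contDiffAt, fun i x hx => (hLx x hx).1 i,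
    fun J i x hx => ?_, fun i x hx => (h.hd i x (hdom i hx)).2, fun i x hx => ?_, fun i => ?_,
    fun i => ?_, fun i x hx hx' => ?_, fun i x => add_nonneg (hχ2 _ _ _) (hχ2 _ _ _), fun J x hx => ?_,
    fun x hx => (hLx x hx).2.1, ?_, fun J x hx => ?_, fun θ h0 h1 k => ?_, fun J => ?_,
    fun x hx => ?_, fun x hx => ?_, ?_⟩
  · change G.xL + δ ≤ G.pl false
    linarith
  · change G.pr true ≤ G.xR - δ
    linarith
  · obtain ⟨a1, a2, a3, a4, a5, a6⟩ := h.oJ J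
    obtain ⟨b1, b2, b3, b4, -⟩ := sJ J
    refine ⟨?_, ?_, ?_, ?_⟩ <;> dsimp only <;> linarith
  · obtain ⟨a1, a2, a3, a4, a5, a6⟩ := h.oJ J
    exact ⟨(dq_sm _ _ _).contDiffAt, Lq_sm _ (a1.trans_le hx.1) (hx.2.trans_lt a6) i⟩
  · refine le_trans (hM i x hx) (le_trans ?_ (le_max_right _ _))
    fin_cases i
    · exact le_max_left _ _
    · exact le_max_right _ _
  · fin_cases i
    · refine ⟨(hα G.xL (by linarith)).trans (by rw [sub_self, mul_zero]), fun x hx => ?_⟩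
      change |x - G.xL| ≤ δ at hx
      obtain ⟨x1, x2⟩ := abs_le.1 hx
      refine ⟨?_, ?_⟩
      · change 0 < 1 * deriv (G.d 0) x
        rw [one_mul]
        exact (h.h0 x (by linarith) (by linarith)).2.2
      · change χ false 0 x + χ true 0 x = 0
        rw [hχ4 false 0 x (Or.inl (by linarith)), hχ4 true 0 x (Or.inl (by linarith)), add_zero]
    · refine ⟨(hβ G.xR (by linarith)).trans (by rw [sub_self, mul_zero]), fun x hx => ?_⟩
      change |x - G.xR| ≤ δ at hx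
      obtain ⟨x1, x2⟩ := abs_le.1 hx
      refine ⟨?_, ?_⟩
      · change 0 < -1 * deriv (G.d 1) x
        have := ((h.h1 x (by linarith) (by linarith)).2 (by linarith)).2
        linarith
      · change χ false 1 x + χ true 1 x = 0
        rw [hχ4 false 1 x (Or.inr (by linarith)), hχ4 true 1 x (Or.inr (by linarith)), add_zero]
  · fin_cases i
    · refine ⟨α, α0, fun x hx => ?_⟩
      change |x - G.xL| ≤ δ at hx
      change G.d 0 x = α * (1 * (x - G.xL))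
      rw [one_mul, hα x (by linarith [(abs_le.1 hx).2])]
    · refine ⟨β, β0, fun x hx => ?_⟩
      change |x - G.xR| ≤ δ at hx
      change G.d 1 x = β * (-1 * (x - G.xR))
      rw [hβ x (by linarith [(abs_le.1 hx).1])]
      ring
  · have hx2 := hdom i hx
    fin_cases i
    · change 0 < 1 * (x - G.xL) at hx'
      exact (h.h0 x hx2.1 hx2.2).1 (by linarith)
    · change 0 < -1 * (x - G.xR) at hx'
      exact (h.h1 x hx2.1 hx2.2).1 (by linarith)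
  · obtain ⟨a1, a2, a3, a4, a5, a6⟩ := h.oJ J
    have x1 : G.pl J ≤ x := hx.1
    have x2 : x ≤ G.pr J := hx.2
    have u0 : G.s J < x := a1.trans_le x1
    have u1 : x < G.s J + Real.pi / 2 := x2.trans_lt a6
    refine ⟨dL_mul _ _ u0 u1, ?_, fun i => ⟨dq_pos (h.e_pos J i) u0 u1 i, ?_, ddL _ u0 u1 i,
      ddq _ u0 u1 i, exp_Lq' (h.e_pos J i) u0 u1 i⟩⟩
    · change 0 < deriv (Lq (G.e J 0) (G.s J) 0) x
      rw [dL0 _ u0 u1]
      exact div_pos (trg_pos u0 u1 1) (trg_pos u0 u1 0)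
    · change (χ false i x + χ true i x) * dq (G.e J i) (G.s J) i x = 1
      cases J
      · rw [hχ4 true i x (Or.inl (by linarith)), add_zero]
        exact hχ3 false i x x1 x2
      · rw [hχ4 false i x (Or.inr (by linarith)), zero_add]
        exact hχ3 true i x x1 x2
  · have hK : IsCompact (Icc (G.xL - δ) (G.xR + δ) \
        ⋃ J, Ioo ((G.pl J + G.p J) / 2) ((G.q J + G.pr J) / 2)) :=
      isCompact_Icc.diff (isOpen_iUnion fun J => isOpen_Ioo)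
    obtain ⟨c, hc, hc'⟩ := hK.exists_forall_le' (f := etaF (G.L 0) (G.L 1)) (a := 0)
      (fun x hx => (eta_cont ((hLx x hx.1).1 0) ((hLx x hx.1).1 1)).continuousWithinAt) (by
        rintro x ⟨hx, hx'⟩
        refine (hLx x hx).2.2 fun J => ?_
        obtain ⟨a1, a2, a3, a4, a5, a6⟩ := h.oJ J
        by_contra hn
        rw [not_or, not_lt, not_lt] at hn
        exact hx' (mem_iUnion.2 ⟨J, by linarith [hn.1], by linarith [hn.2]⟩))
    refine ⟨c, hc, fun x hx hx' => hc' x ⟨hx, fun hn => ?_⟩⟩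
    obtain ⟨J, hJ⟩ := mem_iUnion.1 hn
    exact hx' J (Ioo_subset_Icc_self hJ)
  · obtain ⟨a1, a2, a3, a4, a5, a6⟩ := h.oJ J
    obtain ⟨b1, b2, b3, b4, -⟩ := sJ J
    change |x - G.xJ J| ≤ δ at hx
    obtain ⟨x1, x2⟩ := abs_le.1 hx
    have ev := ev_Ioo (show G.p J < x by linarith) (show x < G.q J by linarith)
    change etaF (G.L 0) (G.L 1) x = 0
    rw [eta_congr (ev.mono fun y hy => (h.zone J 0 y hy.1 hy.2).2)
      (ev.mono fun y hy => (h.zone J 1 y hy.1 hy.2).2)]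
    exact eta_Lq _ _ (by linarith) (by linarith)
  · choose C hC using fun J i => h.devL J i θ h0 h1 k
    choose C' hC' using fun J i => h.devd J i θ h0 h1 k
    refine ⟨∑ z : Bool × Fin 2, (|C z.1 z.2| + |C' z.1 z.2|), fun J i x hx => ?_⟩
    obtain ⟨a1, a2, a3, a4, a5, a6⟩ := h.oJ J
    obtain ⟨-, -, -, -, b5, b6⟩ := sJ J
    have x1 : G.pl J < x := hx.1
    have x2 : x < G.pr J := hx.2
    have hη : 0 ≤ etaF (G.L 0) (G.L 1) x ^ θ :=
      Real.rpow_nonneg (hLx x ⟨by linarith, by linarith⟩).2.1 θ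
    have hle : |C J i| + |C' J i| ≤ ∑ z : Bool × Fin 2, (|C z.1 z.2| + |C' z.1 z.2|) :=
      Finset.single_le_sum (f := fun z : Bool × Fin 2 => |C z.1 z.2| + |C' z.1 z.2|)
        (fun z _ => by positivity) (Finset.mem_univ (J, i))
    refine ⟨(hC J i x hx).trans (mul_le_mul_of_nonneg_right ?_ hη), fun hx' =>
      (hC' J i x ⟨hx, hdom i (Ioo_subset_Icc_self hx')⟩).trans (mul_le_mul_of_nonneg_right ?_ hη)⟩
    · linarith [le_abs_self (C J i), abs_nonneg (C' J i)]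
    · linarith [le_abs_self (C' J i), abs_nonneg (C J i)]
  · obtain ⟨a1, a2, a3, a4, a5, a6⟩ := h.oJ J
    change G.d 0 (G.xJ J) = G.d 1 (G.xJ J)
    rw [(h.zone J 0 _ a3 a4).1, (h.zone J 1 _ a3 a4).1, h.junc J]
  · have x1 : G.xL ≤ x := hx.1
    have x2 : x ≤ G.xJ true + δ := hx.2
    exact (h.h0 x (by linarith) (by linarith)).2.1
  · have x1 : G.xJ true - δ ≤ x := hx.1
    have x2 : x ≤ G.xR := hx.2
    exact ((h.h1 x (by linarith) (by linarith)).2 (by linarith)).1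
  · change 3 * G.κ ≤ G.d 1 (G.xJ false) * Real.exp (-(2 * G.L 1 (G.xJ false)))
    have u0 : G.s false < G.xJ false := by linarith
    have u1 : G.xJ false < G.s false + Real.pi / 2 := by linarith
    have he := h.e_pos false 1
    have ht := trg_pos u0 u1 1
    rw [(h.zone false 1 _ f3 f4).1, (h.zone false 1 _ f3 f4).2, Real.exp_neg, exp_Lq he u0 u1, dq]
    have : G.e false 1 * trg (G.s false) 1 (G.xJ false) ^ 2 *
        ((G.e false 1 * trg (G.s false) 1 (G.xJ false)) ^ 2)⁻¹ = 1 / G.e false 1 := by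
      field_simp
    rw [this, le_div_iff₀ he]
    exact h.kap

theorem exp_scale {e : ℝ} (he : 0 < e) (L : ℝ) :
    Real.exp (2 * (Real.log e + L)) = e ^ 2 * Real.exp (2 * L) := by
  rw [mul_add, Real.exp_add, two_mul (Real.log e), Real.exp_add, Real.exp_log he, sq]

theorem eik_scale {e : ℝ} (he : 0 < e) {d : ℝ → ℝ} {x L : ℝ}
    (h : d x ^ 2 + deriv d x ^ 2 / 4 = Real.exp (2 * L)) :
    (e * d x) ^ 2 + deriv (fun y => e * d y) x ^ 2 / 4 = Real.exp (2 * (Real.log e + L)) := by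
  rw [exp_scale he, deriv_const_mul_field, ← h]
  ring

theorem m_scale {e : ℝ} (he : 0 < e) (d L : ℝ) :
    e * d * Real.exp (-(2 * (Real.log e + L))) = d * Real.exp (-(2 * L)) / e := by
  rw [Real.exp_neg, Real.exp_neg, exp_scale he]
  field_simp

theorem lcap (c : CapStmt) {θ₀ ρ₀ e₀ : ℝ} (e₁ : ℝ) (h1 : 0 < θ₀) (h2 : θ₀ ≤ 1 / 20) (h3 : 0 < ρ₀)
    (he : 0 < e₀) : ∃ (xL δ ρ : ℝ) (d L₀ L₁ : ℝ → ℝ), 0 < δ ∧ 0 < ρ ∧ ρ < ρ₀ ∧ xL + δ ≤ θ₀ ∧
    (∀ x, xL - δ < x → x < Real.pi / 2 → ContDiffAt ℝ ∞ d x ∧ ContDiffAt ℝ ∞ L₀ x ∧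
      ContDiffAt ℝ ∞ L₁ x ∧ d x ^ 2 + deriv d x ^ 2 / 4 = Real.exp (2 * L₀ x) ∧ 0 < deriv d x ∧
      d x * Real.exp (-(2 * L₀ x)) ≤ 2 / e₀ ∧ 0 ≤ etaF L₀ L₁ x ∧ (x < θ₀ + ρ → 0 < etaF L₀ L₁ x) ∧
      (xL < x → 0 < d x)) ∧ (∃ a : ℝ, 0 < a ∧ ∀ x, x ≤ xL + δ → d x = a * (x - xL)) ∧
    (∀ x, θ₀ + ρ ≤ x → d x = dq e₀ 0 0 x ∧ L₀ x = Lq e₀ 0 0 x ∧ L₁ x = Lq e₁ 0 1 x) ∧
    Dev d (dq e₀ 0 0) (etaF L₀ L₁) (Ioo θ₀ (Real.pi / 2)) ∧
    Dev L₀ (Lq e₀ 0 0) (etaF L₀ L₁) (Ioo θ₀ (Real.pi / 2)) ∧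
    Dev L₁ (Lq e₁ 0 1) (etaF L₀ L₁) (Ioo θ₀ (Real.pi / 2)) := by
  obtain ⟨xL, δ, ρ, d, L₀, L₁, a1, a2, a3, a4, sd, s0, s1, hz, ⟨α, α0, hα⟩, hin, v1, v2, v3⟩ :=
    c θ₀ ρ₀ h1 h2 h3
  have hd0 : d xL = 0 := by rw [hα xL (by linarith), sub_self, mul_zero]
  have hpi := Real.pi_gt_three
  have hmono : StrictMonoOn d (Ioo (xL - 2 * δ) (Real.pi / 2)) :=
    strictMonoOn_of_deriv_pos (convex_Ioo _ _) sd.continuousOn fun x hx =>
      (hin x (by rwa [interior_Ioo] at hx)).2.1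
  refine ⟨xL, δ, ρ, fun y => e₀ * d y, fun y => Real.log e₀ + L₀ y, fun y => Real.log e₁ + L₁ y,
    a1, a2, a3, a4, fun x x1 x2 => ?_, ⟨e₀ * α, mul_pos he α0, fun x hx => by
      simp only [hα x hx, mul_assoc]⟩, fun x hx => ?_, ?_, ?_, ?_⟩
  · have hx : x ∈ Ioo (xL - 2 * δ) (Real.pi / 2) := ⟨by linarith, x2⟩
    have hn := isOpen_Ioo.mem_nhds hx
    obtain ⟨b1, b2, b3, b4, b5⟩ := hin x hx
    rw [eta_add]
    refine ⟨contDiffAt_const.mul (sd.contDiffAt hn), contDiffAt_const.add (s0.contDiffAt hn),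
      contDiffAt_const.add (s1.contDiffAt hn), eik_scale he b1, ?_, ?_, b4, b5, fun h => ?_⟩
    · rw [deriv_const_mul_field]
      exact mul_pos he b2
    · rw [m_scale he]
      exact div_le_div_of_nonneg_right b3 he.le
    · have := hmono ⟨by linarith, by linarith⟩ hx h
      rw [hd0] at this
      exact mul_pos he this
  · obtain ⟨b1, b2, b3⟩ := hz x hx
    simp only [dq, Lq, trg0, trg1, sub_zero, b1, b2, b3, and_self]
  · refine dev_congr v1 e₀ fun x hx => ⟨hx, Eventually.of_forall fun y => ?_, by rw [eta_add]⟩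
    simp only [dq, trg0, sub_zero]
    ring
  · refine dev_congr v2 1 fun x hx => ⟨hx, Eventually.of_forall fun y => ?_, by rw [eta_add]⟩
    simp only [Lq, trg0, sub_zero]
    ring
  · refine dev_congr v3 1 fun x hx => ⟨hx, Eventually.of_forall fun y => ?_, by rw [eta_add]⟩
    simp only [Lq, trg1, sub_zero]
    ring

theorem trg_mir0 (s y : ℝ) : trg 0 0 (s + Real.pi / 2 - y) = trg s 1 y := by
  rw [trg0, trg1, ← Real.sin_pi_div_two_sub]
  congr 1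
  ring

theorem trg_mir1 (s y : ℝ) : trg 0 1 (s + Real.pi / 2 - y) = trg s 0 y := by
  rw [trg0, trg1, ← Real.cos_pi_div_two_sub]
  congr 1
  ring

theorem rcap (c : CapStmt) {θ₀ ρ₀ e₁ : ℝ} (s e₀ : ℝ) (h1 : 0 < θ₀) (h2 : θ₀ ≤ 1 / 20)
    (h3 : 0 < ρ₀) (he : 0 < e₁) : ∃ (xR δ ρ : ℝ) (d L₀ L₁ : ℝ → ℝ), 0 < δ ∧ 0 < ρ ∧ ρ < ρ₀ ∧
    s + Real.pi / 2 - θ₀ ≤ xR - δ ∧
    (∀ x, s < x → x < xR + δ → ContDiffAt ℝ ∞ d x ∧ ContDiffAt ℝ ∞ L₀ x ∧
      ContDiffAt ℝ ∞ L₁ x ∧ d x ^ 2 + deriv d x ^ 2 / 4 = Real.exp (2 * L₁ x) ∧ deriv d x < 0 ∧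
      d x * Real.exp (-(2 * L₁ x)) ≤ 2 / e₁ ∧ 0 ≤ etaF L₀ L₁ x ∧
      (s + Real.pi / 2 - θ₀ - ρ < x → 0 < etaF L₀ L₁ x) ∧ (x < xR → 0 < d x)) ∧
    (∃ a : ℝ, 0 < a ∧ ∀ x, xR - δ ≤ x → d x = a * (xR - x)) ∧
    (∀ x, x ≤ s + Real.pi / 2 - θ₀ - ρ →
      d x = dq e₁ s 1 x ∧ L₀ x = Lq e₀ s 0 x ∧ L₁ x = Lq e₁ s 1 x) ∧
    Dev d (dq e₁ s 1) (etaF L₀ L₁) (Ioo s (s + Real.pi / 2 - θ₀)) ∧
    Dev L₀ (Lq e₀ s 0) (etaF L₀ L₁) (Ioo s (s + Real.pi / 2 - θ₀)) ∧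
    Dev L₁ (Lq e₁ s 1) (etaF L₀ L₁) (Ioo s (s + Real.pi / 2 - θ₀)) := by
  obtain ⟨xL, δ, ρ, d, L₀, L₁, a1, a2, a3, a4, hin, ⟨α, α0, hα⟩, hz, v1, v2, v3⟩ :=
    lcap c e₀ h1 h2 h3 he
  set t := s + Real.pi / 2 with ht
  have hs : ∀ x, ContDiffAt ℝ ∞ (fun y : ℝ => t - y) x := fun x =>
    contDiffAt_const.sub contDiffAt_id
  have hmem : ∀ x ∈ Ioo s (t - θ₀), x ∈ {x | t - x ∈ Ioo θ₀ (Real.pi / 2)} := fun x hx =>
    ⟨by linarith [hx.2], by linarith [hx.1]⟩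
  refine ⟨t - xL, δ, ρ, fun y => d (t - y), fun y => L₁ (t - y), fun y => L₀ (t - y), a1, a2, a3,
    by linarith, fun x x1 x2 => ?_, ⟨α, α0, fun x hx => (hα (t - x) (by linarith)).trans (by ring)⟩,
    fun x hx => ?_, ?_, ?_, ?_⟩
  · obtain ⟨b1, b2, b3, b4, b5, b6, b7, b8, b9⟩ := hin (t - x) (by linarith) (by linarith)
    rw [eta_mir, deriv_comp_const_sub]
    exact ⟨b1.comp x (hs x), b3.comp x (hs x), b2.comp x (hs x), by rw [neg_sq]; exact b4,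
      by linarith, b6, b7, fun h => b8 (by linarith), fun h => b9 (by linarith)⟩
  · obtain ⟨b1, b2, b3⟩ := hz (t - x) (by linarith)
    simp only [b1, b2, b3]
    simp only [dq, Lq, ht, trg_mir0, trg_mir1, and_self]
  · refine dev_congr (dev_mir v1 t) 1 fun x hx =>
      ⟨hmem x hx, Eventually.of_forall fun y => ?_, eta_mir _ _ _ _⟩
    simp only [dq, ht, trg_mir0, one_mul]
  · refine dev_congr (dev_mir v3 t) 1 fun x hx =>
      ⟨hmem x hx, Eventually.of_forall fun y => ?_, eta_mir _ _ _ _⟩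
    simp only [Lq, ht, trg_mir1, one_mul]
  · refine dev_congr (dev_mir v2 t) 1 fun x hx =>
      ⟨hmem x hx, Eventually.of_forall fun y => ?_, eta_mir _ _ _ _⟩
    simp only [Lq, ht, trg_mir0, one_mul]

theorem mid (m : MidStmt) : ∃ (a a₁ b b₂ s D xF xT : ℝ) (e : Bool → Fin 2 → ℝ)
    (d L : Fin 2 → ℝ → ℝ), 0 < xF ∧ xF < a₁ ∧ a₁ < a ∧ a ≤ 1 / 5 ∧ a ≤ b ∧ s < b ∧ b < b₂ ∧
    b₂ < xT ∧ xT < s + Real.pi / 2 ∧ (∀ J i, 0 < e J i) ∧ e false 0 = 1 ∧ e false 1 = D ∧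
    6 * D ≤ 1 ∧ 6 * D ≤ e true 1 ∧
    (∀ i x, 0 < x → x < a₁ → d i x = dq (e false i) 0 i x ∧ L i x = Lq (e false i) 0 i x) ∧
    (∀ i x, b₂ < x → x < s + Real.pi / 2 →
      d i x = dq (e true i) s i x ∧ L i x = Lq (e true i) s i x) ∧
    (∀ x, 0 < x → x < s + Real.pi / 2 → (∀ i, ContDiffAt ℝ ∞ (d i) x ∧ ContDiffAt ℝ ∞ (L i) x ∧
      0 < d i x ∧ d i x ^ 2 + deriv (d i) x ^ 2 / 4 = Real.exp (2 * L i x)) ∧ 0 < deriv (d 0) x ∧
      0 ≤ etaF (L 0) (L 1) x ∧ (a₁ < x → x < b₂ → 0 < etaF (L 0) (L 1) x) ∧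
      (a₁ ≤ x → d 0 x * Real.exp (-(2 * L 0 x)) ≤ 1 / (3 * D))) ∧
    dq (e false 0) 0 0 xF = dq (e false 1) 0 1 xF ∧ dq (e true 0) s 0 xT = dq (e true 1) s 1 xT ∧
    ∀ i, Dev (d i) (dq (e false i) 0 i) (etaF (L 0) (L 1)) (Ioo 0 a) ∧
      Dev (L i) (Lq (e false i) 0 i) (etaF (L 0) (L 1)) (Ioo 0 a) ∧
      Dev (d i) (dq (e true i) s i) (etaF (L 0) (L 1)) (Ioo b (s + Real.pi / 2)) ∧
      Dev (L i) (Lq (e true i) s i) (etaF (L 0) (L 1)) (Ioo b (s + Real.pi / 2)) := by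
  obtain ⟨a, ρ₁, b, ρ₂, s, c, d, L, a1, a2, a3, a4, a5, a6, a7, hc, hcc, sm, z1, z2, hin, v⟩ := m
  have hpi := Real.pi_gt_three
  set a₁ := a - ρ₁ with ha₁
  set T := Real.tan a₁ with hT
  have p1 : 0 < a₁ := by linarith
  have p2 : a₁ < Real.pi / 4 := by linarith
  have hT0 : 0 < T := Real.tan_pos_of_pos_of_lt_pi_div_two p1 (by linarith)
  have hT1 : T < 1 := by
    rw [← Real.tan_pi_div_four]
    exact Real.tan_lt_tan_of_nonneg_of_lt_pi_div_two p1.le (by linarith) p2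
  have hcos : 0 < Real.cos a₁ := Real.cos_pos_of_mem_Ioo ⟨by linarith, by linarith⟩
  have hsin : 0 < Real.sin a₁ := Real.sin_pos_of_pos_of_lt_pi p1 (by linarith)
  have hsc : Real.sin a₁ = T * Real.cos a₁ := by
    rw [hT, Real.tan_eq_sin_div_cos]
    field_simp
  have hsq := Real.sin_sq_add_cos_sq a₁
  have hS : T ^ 2 ≤ 2 * Real.sin a₁ ^ 2 := by
    have h1 : 1 ≤ 2 * Real.cos a₁ ^ 2 := by
      rw [hsc] at hsq
      nlinarith [sq_nonneg (Real.cos a₁), mul_pos hT0 hT0]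
    rw [hsc]
    nlinarith [sq_nonneg T]
  set D := T ^ 2 / 16 with hD
  have hD0 : 0 < D := by positivity
  have h10 : Real.arctan 10 < Real.pi / 2 := Real.arctan_lt_pi_div_two _
  have hmono : StrictMonoOn (d 0) (Ioo 0 (s + Real.pi / 2)) :=
    strictMonoOn_of_deriv_pos (convex_Ioo _ _) (sm 0).1.continuousOn fun x hx =>
      (hin x (by rwa [interior_Ioo] at hx)).2.1
  have hda : d 0 a₁ = Real.sin a₁ ^ 2 := by rw [(z1 0 a₁ le_rfl).1, trg0, sub_zero]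
  have hlow : ∀ x, a₁ ≤ x → x < s + Real.pi / 2 → Real.sin a₁ ^ 2 ≤ d 0 x := fun x x1 x2 => by
    rw [← hda]
    exact hmono.monotoneOn ⟨p1, by linarith⟩ ⟨by linarith, x2⟩ x1
  have hc0 : Real.sin a₁ ^ 2 ≤ c 0 := by
    have h1 := hlow (b + ρ₂) (by linarith) (by linarith)
    rw [(z2 0 _ le_rfl).1, trg0] at h1
    exact h1.trans (mul_le_of_le_one_right (hc 0).le (Real.sin_sq_le_one _))
  have hc1 : 6 ≤ c 1 := by
    have h1 : 6 * T ^ 2 ≤ c 1 * T ^ 2 := by nlinarith [sq_nonneg T]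
    exact le_of_mul_le_mul_right h1 (by positivity)
  set w := Real.sqrt (D * c 1 / c 0) with hw
  have hw2 : w ^ 2 = D * c 1 / c 0 := Real.sq_sqrt (by have := hc 0; have := hc 1; positivity)
  have hw10 : 10 ≤ w := by
    refine Real.le_sqrt_of_sq_le ?_
    rw [le_div_iff₀ (hc 0), hD]
    linarith
  let k : Fin 2 → ℝ := ![1, D]
  have hk : ∀ i, 0 < k i := fun i => by fin_cases i <;> simp [k, hD0]
  have hsc' : ∀ u : ℝ, Real.sin (Real.arctan u) ^ 2 = u ^ 2 * Real.cos (Real.arctan u) ^ 2 := by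
    intro u
    have h1 := Real.tan_arctan u
    have h2 := (Real.cos_arctan_pos u).ne'
    rw [Real.tan_eq_sin_div_cos, div_eq_iff h2] at h1
    rw [h1, mul_pow]
  refine ⟨a, a₁, b, b + ρ₂, s, D, Real.arctan (T / 4), s + Real.arctan w,
    fun J i => cond J (k i * c i) (k i), fun i y => k i * d i y,
    fun i y => Real.log (k i) + L i y, Real.arctan_pos.2 (by linarith), ?_, by linarith, a3, a4,
    a5, by linarith, ?_, by linarith [Real.arctan_lt_pi_div_two w], fun J i => ?_, rfl, rfl, ?_,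
    ?_, fun i x x1 x2 => ?_, fun i x x1 x2 => ?_, fun x x1 x2 => ?_, ?_, ?_, fun i => ?_⟩
  · have h1 : Real.arctan (T / 4) < Real.arctan T := Real.arctan_strictMono (by linarith)
    rwa [hT, Real.arctan_tan (by linarith) (by linarith)] at h1
  · linarith [Real.arctan_mono hw10]
  · cases J
    · exact hk i
    · exact mul_pos (hk i) (hc i)
  · rw [hD]
    nlinarith
  · change 6 * D ≤ D * c 1
    nlinarith
  · obtain ⟨b1, b2⟩ := z1 i x x2.le
    simp only [b1, b2, dq, Lq, cond_false, and_self]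
  · obtain ⟨b1, b2⟩ := z2 i x x1.le
    have := trg_pos (show s < x by linarith) x2 i
    simp only [b1, b2, dq, Lq, cond_true]
    rw [Real.log_mul (hc i).ne' this.ne', Real.log_mul (hk i).ne' (hc i).ne']
    exact ⟨by ring, by ring⟩
  · obtain ⟨b1, b2, b3, b4⟩ := hin x ⟨x1, x2⟩
    have hn := isOpen_Ioo.mem_nhds (show x ∈ Ioo 0 (s + Real.pi / 2) from ⟨x1, x2⟩)
    rw [eta_add]
    refine ⟨fun i => ⟨contDiffAt_const.mul ((sm i).1.contDiffAt hn),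
      contDiffAt_const.add ((sm i).2.contDiffAt hn), mul_pos (hk i) (b1 i).1,
      eik_scale (hk i) (b1 i).2⟩, ?_, b3, b4, fun hx => ?_⟩
    · rw [deriv_const_mul_field]
      exact mul_pos (hk 0) b2
    · rw [m_scale (hk 0), show k 0 = 1 from rfl, div_one, Real.exp_neg, ← (b1 0).2,
        ← div_eq_mul_inv, div_le_div_iff₀ (by have := (b1 0).1; positivity) (by positivity)]
      have h1 := hlow x hx x2
      have h2 : 3 * D ≤ d 0 x := by
        rw [hD]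
        nlinarith [sq_nonneg T]
      nlinarith [(b1 0).1, sq_nonneg (deriv (d 0) x)]
  · change 1 * Real.sin (Real.arctan (T / 4) - 0) ^ 2 = D * Real.cos (Real.arctan (T / 4) - 0) ^ 2
    rw [sub_zero, hsc', hD]
    ring
  · change 1 * c 0 * Real.sin (s + Real.arctan w - s) ^ 2 =
      D * c 1 * Real.cos (s + Real.arctan w - s) ^ 2
    have := (hc 0).ne'
    rw [add_sub_cancel_left, hsc', hw2]
    field_simp
  · obtain ⟨v1, v2, v3, v4⟩ := v i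
    refine ⟨dev_congr v1 (k i) fun x hx => ⟨hx, Eventually.of_forall fun y => ?_, by rw [eta_add]⟩,
      dev_congr v2 1 fun x hx => ⟨hx, Eventually.of_forall fun y => ?_, by rw [eta_add]⟩,
      dev_congr v3 (k i) fun x hx => ⟨hx, Eventually.of_forall fun y => ?_, by rw [eta_add]⟩,
      dev_congr v4 1 fun x hx => ⟨hx, (ev_Ioo hx.1 hx.2).mono fun y hy => ?_, by rw [eta_add]⟩⟩
    · simp only [dq, cond_false]
      ring
    · simp only [Lq, cond_false]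
      ring
    · simp only [dq, cond_true]
      ring
    · have := trg_pos (show s < y by linarith [hy.1]) hy.2 i
      simp only [Lq, cond_true]
      rw [Real.log_mul (hc i).ne' this.ne', Real.log_mul (hk i).ne' (hc i).ne']
      ring

theorem glued (c : CapStmt) (m : MidStmt) : ∃ G : Gl, G.Ok := by
  obtain ⟨a, a₁, b, b₂, s, D, xF, xT, e, d, L, a1, a2, a3, a4, a5, a6, a7, a8, a9, he, e0, e1, hD1,
    hD2, z1, z2, hin, j1, j2, v⟩ := mid m
  have hpi := Real.pi_gt_three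
  have hD : 0 < D := e1 ▸ he false 1
  set t := s + Real.pi / 2 with ht
  obtain ⟨θ, θ1, θ2, θ3⟩ : ∃ θ : ℝ, 0 < θ ∧ θ ≤ 1 / 20 ∧ θ ≤ xF / 2 :=
    ⟨min (1 / 20) (xF / 2), lt_min (by norm_num) (by linarith), min_le_left _ _, min_le_right _ _⟩
  obtain ⟨θ', θ1', θ2', θ3'⟩ : ∃ θ : ℝ, 0 < θ ∧ θ ≤ 1 / 20 ∧ θ ≤ (t - xT) / 2 :=
    ⟨min (1 / 20) ((t - xT) / 2), lt_min (by norm_num) (by linarith), min_le_left _ _,
      min_le_right _ _⟩
  obtain ⟨xL, δ, ρ, dl, Al, Bl, l1, l2, l3, l4, lin, l0, lz, lv1, lv2, lv3⟩ :=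
    lcap c (e false 1) θ1 θ2 θ1 (he false 0)
  obtain ⟨xR, δ', ρ', dr, Ar, Br, r1, r2, r3, r4, rin, r0, rz, rv1, rv2, rv3⟩ :=
    rcap c s (e true 0) θ1' θ2' θ1' (he true 1)
  rw [← ht] at r4 rin rz rv1 rv2 rv3
  obtain ⟨d0, d0l, d0m⟩ := glue (f := dl) (g := d 0) (p := θ + ρ) (q := a₁) fun x x1 x2 =>
    (lz x x1.le).1.trans (z1 0 x (by linarith) x2).1.symm
  obtain ⟨d1, d1m, d1r⟩ := glue (f := d 1) (g := dr) (p := b₂) (q := t - θ' - ρ') fun x x1 x2 =>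
    (z2 1 x x1 (by linarith)).1.trans (rz x x2.le).1.symm
  obtain ⟨A', A'm, A'r⟩ := glue (f := L 0) (g := Ar) (p := b₂) (q := t - θ' - ρ') fun x x1 x2 =>
    (z2 0 x x1 (by linarith)).2.trans (rz x x2.le).2.1.symm
  obtain ⟨B', B'm, B'r⟩ := glue (f := L 1) (g := Br) (p := b₂) (q := t - θ' - ρ') fun x x1 x2 =>
    (z2 1 x x1 (by linarith)).2.trans (rz x x2.le).2.2.symm
  obtain ⟨A, Al', Am'⟩ := glue (f := Al) (g := A') (p := θ + ρ) (q := a₁) fun x x1 x2 =>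
    (lz x x1.le).2.1.trans ((A'm x (by linarith)).trans (z1 0 x (by linarith) x2).2).symm
  obtain ⟨B, Bl', Bm'⟩ := glue (f := Bl) (g := B') (p := θ + ρ) (q := a₁) fun x x1 x2 =>
    (lz x x1.le).2.2.trans ((B'm x (by linarith)).trans (z1 1 x (by linarith) x2).2).symm
  -- local descriptions
  have El : ∀ x, x < a₁ → d0 =ᶠ[𝓝 x] dl ∧ A =ᶠ[𝓝 x] Al ∧ B =ᶠ[𝓝 x] Bl := fun x hx =>
    ⟨(gt_mem_nhds hx).mono d0l, (gt_mem_nhds hx).mono Al', (gt_mem_nhds hx).mono Bl'⟩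
  have Em : ∀ x, θ + ρ < x → x < t - θ' - ρ' →
      d0 =ᶠ[𝓝 x] d 0 ∧ d1 =ᶠ[𝓝 x] d 1 ∧ A =ᶠ[𝓝 x] L 0 ∧ B =ᶠ[𝓝 x] L 1 := fun x x1 x2 =>
    ⟨(lt_mem_nhds x1).mono d0m, (gt_mem_nhds x2).mono d1m,
      (ev_Ioo x1 x2).mono fun y hy => (Am' y hy.1).trans (A'm y hy.2),
      (ev_Ioo x1 x2).mono fun y hy => (Bm' y hy.1).trans (B'm y hy.2)⟩
  have Er : ∀ x, b₂ < x → d1 =ᶠ[𝓝 x] dr ∧ A =ᶠ[𝓝 x] Ar ∧ B =ᶠ[𝓝 x] Br := fun x hx =>
    ⟨(lt_mem_nhds hx).mono d1r,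
      (lt_mem_nhds hx).mono fun y hy => (Am' y (by linarith)).trans (A'r y hy),
      (lt_mem_nhds hx).mono fun y hy => (Bm' y (by linarith)).trans (B'r y hy)⟩
  have ηl : ∀ x, x < a₁ → etaF A B x = etaF Al Bl x := fun x hx =>
    eta_congr (El x hx).2.1 (El x hx).2.2
  have ηm : ∀ x, θ + ρ < x → x < t - θ' - ρ' → etaF A B x = etaF (L 0) (L 1) x := fun x x1 x2 =>
    eta_congr (Em x x1 x2).2.2.1 (Em x x1 x2).2.2.2
  have ηr : ∀ x, b₂ < x → etaF A B x = etaF Ar Br x := fun x hx =>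
    eta_congr (Er x hx).2.1 (Er x hx).2.2
  have q1 := min_le_left δ δ'
  have q2 := min_le_right δ δ'
  have q0 : 0 < min δ δ' := lt_min l1 r1
  have hη : ∀ x, xL - δ < x → x < xR + δ' → (ContDiffAt ℝ ∞ A x ∧ ContDiffAt ℝ ∞ B x) ∧
      0 ≤ etaF A B x ∧ ((x < θ + ρ ∨ a₁ < x) → (x < b₂ ∨ t - θ' - ρ' < x) → 0 < etaF A B x) := by
    intro x x1 x2
    by_cases h1 : x < a₁
    · obtain ⟨-, b2, b3, -, -, -, b7, b8, -⟩ := lin x x1 (by linarith)
      rw [ηl x h1]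
      exact ⟨⟨b2.congr_of_eventuallyEq (El x h1).2.1, b3.congr_of_eventuallyEq (El x h1).2.2⟩, b7,
        fun h _ => b8 (h.resolve_right (by linarith))⟩
    by_cases h2 : b₂ < x
    · obtain ⟨-, b2, b3, -, -, -, b7, b8, -⟩ := rin x (by linarith) x2
      rw [ηr x h2]
      exact ⟨⟨b2.congr_of_eventuallyEq (Er x h2).2.1, b3.congr_of_eventuallyEq (Er x h2).2.2⟩, b7,
        fun _ h => b8 (h.resolve_left (by linarith))⟩
    · have y1 : θ + ρ < x := by linarith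
      have y2 : x < t - θ' - ρ' := by linarith
      obtain ⟨b1, -, b3, b4, -⟩ := hin x (by linarith) (by linarith)
      rw [ηm x y1 y2]
      exact ⟨⟨(b1 0).2.1.congr_of_eventuallyEq (Em x y1 y2).2.2.1,
        (b1 1).2.1.congr_of_eventuallyEq (Em x y1 y2).2.2.2⟩, b3, fun h h' =>
        b4 (h.resolve_left (by linarith)) (h'.resolve_right (by linarith))⟩
  have hd0 : ∀ x, xL - δ < x → x < t - θ' - ρ' → (ContDiffAt ℝ ∞ d0 x ∧
      d0 x ^ 2 + deriv d0 x ^ 2 / 4 = Real.exp (2 * A x)) ∧ (xL < x → 0 < d0 x) ∧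
      d0 x * Real.exp (-(2 * A x)) ≤ 1 / (3 * D) ∧ 0 < deriv d0 x := by
    intro x x1 x2
    by_cases h1 : x < a₁
    · obtain ⟨b1, -, -, b4, b5, b6, -, -, b9⟩ := lin x x1 (by linarith)
      obtain ⟨u1, u2, -⟩ := El x h1
      rw [u1.deriv_eq, u1.eq_of_nhds, u2.eq_of_nhds]
      refine ⟨⟨b1.congr_of_eventuallyEq u1, b4⟩, b9, b6.trans ?_, b5⟩
      rw [e0, div_le_div_iff₀ one_pos (by positivity)]
      linarith
    · obtain ⟨b1, b2, -, -, b5⟩ := hin x (by linarith) (by linarith)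
      obtain ⟨u1, -, u2, -⟩ := Em x (by linarith) x2
      rw [u1.deriv_eq, u1.eq_of_nhds, u2.eq_of_nhds]
      exact ⟨⟨(b1 0).1.congr_of_eventuallyEq u1, (b1 0).2.2.2⟩, fun _ => (b1 0).2.2.1,
        b5 (by linarith), b2⟩
  have hd1 : ∀ x, θ + ρ < x → x < xR + δ' → (ContDiffAt ℝ ∞ d1 x ∧
      d1 x ^ 2 + deriv d1 x ^ 2 / 4 = Real.exp (2 * B x)) ∧ (x < xR → 0 < d1 x) ∧
      (b₂ < x → d1 x * Real.exp (-(2 * B x)) ≤ 1 / (3 * D) ∧ deriv d1 x < 0) := by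
    intro x x1 x2
    by_cases h2 : b₂ < x
    · obtain ⟨b1, -, -, b4, b5, b6, -, -, b9⟩ := rin x (by linarith) x2
      obtain ⟨u1, -, u2⟩ := Er x h2
      rw [u1.deriv_eq, u1.eq_of_nhds, u2.eq_of_nhds]
      refine ⟨⟨b1.congr_of_eventuallyEq u1, b4⟩, b9, fun _ => ⟨b6.trans ?_, b5⟩⟩
      rw [div_le_div_iff₀ (he true 1) (by positivity)]
      linarith
    · obtain ⟨b1, -⟩ := hin x (by linarith) (by linarith)
      obtain ⟨-, u1, -, u2⟩ := Em x x1 (by linarith)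
      rw [u1.deriv_eq, u1.eq_of_nhds, u2.eq_of_nhds]
      exact ⟨⟨(b1 1).1.congr_of_eventuallyEq u1, (b1 1).2.2.2⟩, fun _ => (b1 1).2.2.1,
        fun h => absurd h h2⟩
  -- transfer of the deviation bounds
  have Dl : ∀ {f f' g : ℝ → ℝ}, Dev f g (etaF Al Bl) (Ioo θ (Real.pi / 2)) →
      (∀ x, x < a₁ → f' =ᶠ[𝓝 x] f) → Dev f' g (etaF A B) (Ioo θ a₁) := fun h h' =>
    dev_congr h 1 fun x hx => ⟨⟨hx.1, by linarith [hx.2]⟩,
      (h' x hx.2).mono fun y hy => by rw [hy, one_mul], ηl x hx.2⟩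
  have Dr : ∀ {f f' g : ℝ → ℝ}, Dev f g (etaF Ar Br) (Ioo s (t - θ')) →
      (∀ x, b₂ < x → f' =ᶠ[𝓝 x] f) → Dev f' g (etaF A B) (Ioo b₂ (t - θ')) := fun h h' =>
    dev_congr h 1 fun x hx => ⟨⟨by linarith [hx.1], hx.2⟩,
      (h' x hx.1).mono fun y hy => by rw [hy, one_mul], ηr x hx.1⟩
  have Dm : ∀ {f f' g : ℝ → ℝ} {S : Set ℝ}, Dev f g (etaF (L 0) (L 1)) S →
      (∀ x, θ + ρ < x → x < t - θ' - ρ' → f' =ᶠ[𝓝 x] f) →
      Dev f' g (etaF A B) (S ∩ Ioo (θ + ρ) (t - θ' - ρ')) := fun h h' =>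
    dev_congr h 1 fun x hx => ⟨hx.1, (h' x hx.2.1 hx.2.2).mono fun y hy => by rw [hy, one_mul],
      ηm x hx.2.1 hx.2.2⟩
  have Uf : ∀ x ∈ Ioo θ ((a₁ + a) / 2), 0 ≤ etaF A B x ∧
      (x ∈ Ioo θ a₁ ∨ x ∈ Ioo 0 a ∩ Ioo (θ + ρ) (t - θ' - ρ')) := by
    rintro x ⟨x1, x2⟩
    refine ⟨(hη x (by linarith) (by linarith)).2.1, ?_⟩
    by_cases h : x < a₁
    · exact Or.inl ⟨x1, h⟩
    · exact Or.inr ⟨⟨by linarith, by linarith⟩, by linarith, by linarith⟩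
  have Ut : ∀ x ∈ Ioo ((b + b₂) / 2) (t - θ'), 0 ≤ etaF A B x ∧
      (x ∈ Ioo b₂ (t - θ') ∨ x ∈ Ioo b t ∩ Ioo (θ + ρ) (t - θ' - ρ')) := by
    rintro x ⟨x1, x2⟩
    refine ⟨(hη x (by linarith) (by linarith)).2.1, ?_⟩
    by_cases h : b₂ < x
    · exact Or.inl ⟨h, x2⟩
    · exact Or.inr ⟨⟨by linarith, by linarith⟩, by linarith, by linarith⟩
  have sub : ∀ {f g : ℝ → ℝ} {S T : Set ℝ}, Dev f g (etaF A B) S → T ⊆ S →
      Dev f g (etaF A B) T := fun h h' =>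
    dev_congr h 1 fun x hx => ⟨h' hx, Eventually.of_forall fun y => (one_mul _).symm, rfl⟩
  refine ⟨⟨xL, xR, min δ δ', 1 / (3 * D), fun J => cond J xT xF, fun J => cond J ((b + b₂) / 2) θ,
    fun J => cond J b₂ (θ + ρ), fun J => cond J (t - θ' - ρ') a₁,
    fun J => cond J (t - θ') ((a₁ + a) / 2), fun J => cond J s 0, e, ![d0, d1], ![A, B]⟩,
    q0, by positivity, ?_, ?_, ?_, fun J => ?_, he, fun x x1 x2 => ?_, fun i x hx => ?_,
    fun x x1 x2 => ?_, fun x x1 x2 => ?_, ?_, ?_, fun J i x x1 x2 => ?_, fun J i => ?_,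
    fun J i => ?_, fun J => ?_, ?_⟩
  · change xL + min δ δ' ≤ θ
    linarith
  · change (a₁ + a) / 2 < (b + b₂) / 2
    linarith
  · change t - θ' ≤ xR - min δ δ'
    linarith
  · cases J <;> simp only [cond_true, cond_false] <;> refine ⟨?_, ?_, ?_, ?_, ?_, ?_⟩ <;> linarith
  · change xL - min δ δ' < x at x1
    change x < xR + min δ δ' at x2
    obtain ⟨b1, b2, b3⟩ := hη x (by linarith) (by linarith)
    refine ⟨fun i => ?_, b2, fun h => b3 (h false) (h true)⟩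
    fin_cases i
    · exact b1.1
    · exact b1.2
  · fin_cases i
    · obtain ⟨x1, x2⟩ : xL - min δ δ' < x ∧ x < t - θ' - ρ' := hx
      exact (hd0 x (by linarith) x2).1
    · obtain ⟨x1, x2⟩ : θ + ρ < x ∧ x < xR + min δ δ' := hx
      exact (hd1 x x1 (by linarith)).1
  · change xL - min δ δ' < x at x1
    exact (hd0 x (by linarith) x2).2
  · change x < xR + min δ δ' at x2
    exact (hd1 x x1 (by linarith)).2
  · obtain ⟨α, α0, hα⟩ := l0
    refine ⟨α, α0, fun x hx => ?_⟩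
    change x ≤ xL + min δ δ' at hx
    exact (d0l x (by linarith)).trans (hα x (by linarith))
  · obtain ⟨α, α0, hα⟩ := r0
    refine ⟨α, α0, fun x hx => ?_⟩
    change xR - min δ δ' ≤ x at hx
    exact (d1r x (by linarith)).trans (hα x (by linarith))
  · cases J
    · change θ + ρ < x at x1
      change x < a₁ at x2
      obtain ⟨u1, u2, u3, u4⟩ := Em x x1 (by linarith)
      fin_cases i
      · exact ⟨u1.eq_of_nhds.trans (z1 0 x (by linarith) x2).1,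
          u3.eq_of_nhds.trans (z1 0 x (by linarith) x2).2⟩
      · exact ⟨u2.eq_of_nhds.trans (z1 1 x (by linarith) x2).1,
          u4.eq_of_nhds.trans (z1 1 x (by linarith) x2).2⟩
    · change b₂ < x at x1
      change x < t - θ' - ρ' at x2
      obtain ⟨u1, u2, u3, u4⟩ := Em x (by linarith) x2
      fin_cases i
      · exact ⟨u1.eq_of_nhds.trans (z2 0 x x1 (by linarith)).1,
          u3.eq_of_nhds.trans (z2 0 x x1 (by linarith)).2⟩
      · exact ⟨u2.eq_of_nhds.trans (z2 1 x x1 (by linarith)).1,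
          u4.eq_of_nhds.trans (z2 1 x x1 (by linarith)).2⟩
  · cases J <;> fin_cases i
    · exact dev_union (Dl lv2 fun x hx => (El x hx).2.1)
        (Dm (v 0).2.1 fun x x1 x2 => (Em x x1 x2).2.2.1) Uf
    · exact dev_union (Dl lv3 fun x hx => (El x hx).2.2)
        (Dm (v 1).2.1 fun x x1 x2 => (Em x x1 x2).2.2.2) Uf
    · exact dev_union (Dr rv2 fun x hx => (Er x hx).2.1)
        (Dm (v 0).2.2.2 fun x x1 x2 => (Em x x1 x2).2.2.1) Ut
    · exact dev_union (Dr rv3 fun x hx => (Er x hx).2.2)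
        (Dm (v 1).2.2.2 fun x x1 x2 => (Em x x1 x2).2.2.2) Ut
  · cases J <;> fin_cases i
    · exact sub (dev_union (Dl lv1 fun x hx => (El x hx).1)
        (Dm (v 0).1 fun x x1 x2 => (Em x x1 x2).1) Uf) inter_subset_left
    · refine sub (Dm (v 1).1 fun x x1 x2 => (Em x x1 x2).2.1) ?_
      rintro x ⟨⟨x1, x2⟩, x3, -⟩
      change θ < x at x1
      change x < (a₁ + a) / 2 at x2
      exact ⟨⟨by linarith, by linarith⟩, x3, by linarith⟩
    · refine sub (Dm (v 0).2.2.1 fun x x1 x2 => (Em x x1 x2).1) ?_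
      rintro x ⟨⟨x1, x2⟩, -, x3⟩
      change (b + b₂) / 2 < x at x1
      change x < t - θ' at x2
      exact ⟨⟨by linarith, by linarith⟩, by linarith, x3⟩
    · exact sub (dev_union (Dr rv1 fun x hx => (Er x hx).1)
        (Dm (v 1).2.2.1 fun x x1 x2 => (Em x x1 x2).2.1) Ut) inter_subset_left
  · cases J
    · exact j1
    · exact j2
  · change 3 * (1 / (3 * D)) * e false 1 ≤ 1
    rw [e1]
    field_simp
    exact le_rfl

end Pa

theorem pa (c : CapStmt) (m : MidStmt) : ProfStmt := by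
  obtain ⟨G, hG⟩ := Pa.glued c m
  exact Pa.fin G hG

end Pool.Agent.Lib.MP_df9110_gt
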