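import Pool.Agent.Lib.MP_df9110_gt.NPert

-- part Pool.Agent.Lib.MP_df9110_gt.Pert
section

/-! The perturbation of an approximate solution to an exact one. -/

namespace Pool.Agent.Lib.MP_df9110_gt

open Filter Topology
open scoped ContDiff

namespace Pert

theorem cd {m : ℝ} {f : Pt → ℝ} (h : IsSym m f) : ContDiff ℝ ∞ f :=
  contDiff_iff_contDiffAt.2 fun y => h.1 y trivial

theorem nsq_nonneg (y : Pt) : 0 ≤ nsq y := Finset.sum_nonneg fun _ _ => sq_nonneg _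

theorem isUnit_of_ell {A : Mat} {c : ℝ} (hc : 0 < c) (h : ∀ ξ, c * nsq ξ ≤ qf A ξ) :
    IsUnit A := by
  rw [← Matrix.mulVec_injective_iff_isUnit]
  suffices hk : ∀ v, A.mulVec v = 0 → v = 0 from fun v w hvw =>
    sub_eq_zero.1 (hk _ (by rw [Matrix.mulVec_sub, hvw, sub_self]))
  intro v hv
  have h1 : qf A v = ∑ a, v a * A.mulVec v a := by
    simp only [qf, Matrix.mulVec, dotProduct, Finset.mul_sum]
    exact Finset.sum_congr rfl fun a _ => Finset.sum_congr rfl fun b _ => by ring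
  have h2 := h v
  rw [h1, hv] at h2
  simp only [Pi.zero_apply, mul_zero, Finset.sum_const_zero] at h2
  have h3 : nsq v = 0 := le_antisymm (by nlinarith [nsq_nonneg v]) (nsq_nonneg v)
  funext a
  exact pow_eq_zero_iff two_ne_zero |>.1
    ((Finset.sum_eq_zero_iff_of_nonneg fun _ _ => sq_nonneg _).1 h3 a (Finset.mem_univ a))

/-- A smooth metric on the whole space. -/
structure Met (g : Pt → Mat) : Prop where
  symm : ∀ y, (g y).IsSymm
  unit : ∀ y, IsUnit (g y)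
  sg : ∀ a b, ContDiff ℝ ∞ (gf g a b)
  sG : ∀ a b, ContDiff ℝ ∞ (Gf g a b)

theorem Met.isMet {g : Pt → Mat} (h : Met g) :
    IsMet (fun a b => (⟨gf g a b, h.sg a b⟩ : Sm 4)) fun a b => ⟨Gf g a b, h.sG a b⟩ where
  gs i j := Subtype.ext (funext fun y => (h.symm y).apply j i)
  Gs i j := Subtype.ext (funext fun y => (h.symm y).inv.apply j i)
  inv i j := by
    apply Subtype.ext
    funext y
    have h1 := congrFun (congrFun (Matrix.nonsing_inv_mul (g y)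
      ((Matrix.isUnit_iff_isUnit_det _).1 (h.unit y))) i) j
    rw [Matrix.mul_apply, Matrix.one_apply] at h1
    by_cases hij : i = j
    · simpa [hij, gf, Gf] using h1
    · simpa [hij, gf, Gf] using h1

/-- The coordinate functions. -/
def yS (k : Fin 4) : Sm 4 := ⟨fun y => y k, (contDiff_apply ℝ ℝ k : ContDiff ℝ ∞ _)⟩

theorem smD_yS (i j : Fin 4) : smD i (yS j) = if i = j then 1 else 0 := by
  apply Subtype.ext
  funext y
  have h : pdn i (fun y : En 4 => y j) y = (Pi.single i 1 : En 4) j := by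
    rw [pdn, (hasFDerivAt_apply j y).fderiv]
    rfl
  refine h.trans ?_
  by_cases hij : i = j
  · simp [hij]
  · simp [hij, Ne.symm hij]

/-- The inclusion of smooth functions. -/
noncomputable def πS : Sm 4 →ₐ[ℝ] (Pt → ℝ) := (Sm 4).val

theorem πS_D (i : Fin 4) (a : Sm 4) : πS (smD i a) = pd i (πS a) := rfl

theorem err_symm (t3 : T3Stmt) {g : Pt → Mat} (hg : Met g) {U : Fin 4 → Pt → ℝ}
    (hU : ∀ k, ContDiff ℝ ∞ (U k)) (a b : Fin 4) : errF g (Vf U) a b = errF g (Vf U) b a := by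
  have h := congrArg πS ((t3 _ _ _ _ _ isDer_smD hg.isMet).symm_err
    (fun k => (-1 / 2 : ℝ) • yS k + ⟨U k, hU k⟩) a b)
  simp only [map_gErr πS πS_D, map_gChr πS πS_D] at h
  exact h

theorem err_zero (t3 : T3Stmt) {g : Pt → Mat} {u : Fin 4 × Fin 4 → Pt → ℝ} (hg : Met g)
    (hg' : Met (addM g u)) (hu : ∀ α, ContDiff ℝ ∞ (u α)) {U : Fin 4 → Pt → ℝ}
    (hU : ∀ k, ContDiff ℝ ∞ (U k))
    (he : LV (Gf g) (lowB g U) 0 u + nlQ g u = fun α => (2 : ℝ) • errF g (Vf U) α.1 α.2)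
    (a b : Fin 4) :
    errF (addM g u) (Vf fun k => U k - gW pd (Gf g) (chrF g) (fun a b => u (a, b)) k) a b = 0 := by
  have T := t3 _ _ _ _ _ isDer_smD hg.isMet
  have h0 := T.main (fun a b => ⟨u (a, b), hu _⟩) (fun a b => ⟨Gf (addM g u) a b, hg'.sG a b⟩)
    (fun k => (-1 / 2 : ℝ) • yS k + ⟨U k, hU k⟩) hg'.isMet a b
  rw [(T.split yS (fun k => ⟨U k, hU k⟩) smD_yS).1] at h0
  have h := congrArg πS h0
  simp only [map_add, map_smul, map_sub, map_sum, map_mul, map_gErr πS πS_D, map_gChr πS πS_D,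
    map_gW πS πS_D, map_gLow πS πS_D, map_gQ πS πS_D, map_gRlow πS πS_D,
    map_gRic πS πS_D, πS_D] at h
  have hV : (Vf fun k => U k - gW pd (Gf g) (chrF g) (fun a b => u (a, b)) k) =
      fun k => Vf U k - gW pd (Gf g) (chrF g) (fun a b => u (a, b)) k := by
    funext k
    rw [Vf, Vf, add_sub_assoc]
  rw [hV]
  have h1 : (-2 : ℝ) • errF (addM g u)
      (fun k => Vf U k - gW pd (Gf g) (chrF g) (fun a b => u (a, b)) k) a b =
      (-2 : ℝ) • errF g (Vf U) a b + (∑ e, ∑ c, Gf g e c * pd e (pd c (u (a, b))) +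
        (1 / 2 : ℝ) • ∑ c, (fun y : Pt => y c) * pd c (u (a, b)) + lowB g U u (a, b)) +
        nlQ g u (a, b) := h
  funext y
  have h2 := congrFun h1 y
  have h3 := congrFun (congrFun he (a, b)) y
  simp only [Pi.add_apply, Pi.smul_apply, smul_eq_mul, Finset.sum_apply, Pi.mul_apply, LV, Lsc,
    Pi.zero_apply] at h2 h3 ⊢
  linarith

theorem lapF_Vf (g : Pt → Mat) (U : Fin 4 → Pt → ℝ) (f : Pt → ℝ) (y : Pt) :
    lapF g (Vf U) f y = gLapV pd (Gf g) (chrF g) U f y + rad f y / 2 := by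
  simp only [lapF, gLapV, Vf, rad, Pi.sub_apply, Pi.mul_apply, Pi.add_apply,
    Pi.smul_apply, smul_eq_mul, Fin.sum_univ_four]
  ring

theorem gW_zero (G : Fin 4 → Fin 4 → Pt → ℝ) (Γ : Fin 4 → Fin 4 → Fin 4 → Pt → ℝ) (k : Fin 4) :
    gW pd G Γ (fun _ _ => 0) k = 0 := by
  have h : ∀ c, pd c (0 : Pt → ℝ) = 0 := fun c => by
    funext y
    simp [pd]
  simp [gW, gUp, gS, gCov2, h]

section Mono

variable (l0 : L0Facts) {ι : Type} [Fintype ι] {σ : ι → ι} {δ K K' : ℝ}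
  {a : Fin 4 → Fin 4 → Pt → ℝ} {B Q : (ι → Pt → ℝ) → ι → Pt → ℝ}
include l0

theorem NV_nonneg (s : ℕ) (δ : ℝ) (u : ι → Pt → ℝ) : 0 ≤ NV s δ u :=
  Finset.sum_nonneg fun _ _ => Finset.sum_nonneg fun _ _ => l0.nn_nonneg _ _ _

theorem XV_nonneg (s : ℕ) (δ : ℝ) (u : ι → Pt → ℝ) : 0 ≤ XV s δ u :=
  Finset.sum_nonneg fun _ _ => Finset.sum_nonneg fun _ _ => l0.nn_nonneg _ _ _

theorem nV_nonneg (s : ℕ) (δ : ℝ) (u : ι → Pt → ℝ) : 0 ≤ nV s δ u :=
  Finset.sum_nonneg fun _ _ => l0.nn_nonneg _ _ _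

theorem linOp_mono (h : LinOp σ δ K a B) (hK : 0 < K) (hK' : K ≤ K') : LinOp σ δ K' a B where
  ell := ⟨h.ell.sym, fun i j => l0.mono (h.ell.bd i j) subset_rfl le_rfl le_rfl hK', h.ell.symm,
    fun y ξ => (mul_le_mul_of_nonneg_right (inv_anti₀ hK hK') (nsq_nonneg ξ)).trans
      (h.ell.ell y ξ)⟩
  add := h.add
  smul := h.smul
  adm := h.adm
  bd := h.bd
  bdK s hs u hu := (h.bdK s hs u hu).trans (mul_le_mul_of_nonneg_right hK' (NV_nonneg l0 _ _ _))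

theorem mph_mono {l₀ : ℝ} (h : MPH σ δ K l₀ a B) (hK' : K ≤ K') : MPH σ δ K' l₀ a B :=
  fun lam hl u hu => (h lam hl u hu).trans (mul_le_mul_of_nonneg_right hK' (NV_nonneg l0 _ _ _))

theorem qHyp_mono (h : QHyp σ δ K B Q) (hK : 0 < K) (hK' : K ≤ K') : QHyp σ δ K' B Q where
  zero := h.zero
  adm u hu h1 := h.adm u hu (h1.trans (inv_anti₀ hK hK'))
  lip u v hu hv h1 h2 := (h.lip u v hu hv (h1.trans (inv_anti₀ hK hK'))
    (h2.trans (inv_anti₀ hK hK'))).trans (mul_le_mul_of_nonneg_right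
      (mul_le_mul_of_nonneg_right hK' (add_nonneg (XV_nonneg l0 _ _ _) (XV_nonneg l0 _ _ _)))
      (XV_nonneg l0 _ _ _))
  top s hs M := by
    obtain ⟨C, hC⟩ := h.top s hs M
    refine ⟨C, fun u hu h1 h2 => (hC u hu (h1.trans (inv_anti₀ hK hK')) h2).trans ?_⟩
    exact add_le_add_left (mul_le_mul_of_nonneg_right
      (mul_le_mul_of_nonneg_right hK' (XV_nonneg l0 _ _ _)) (nV_nonneg l0 _ _ _)) _
  lim u g hu := h.lim u g fun n => ⟨(hu n).1, (hu n).2.trans (inv_anti₀ hK hK')⟩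

omit l0 in
theorem linOp_zero (h : LinOp σ δ K a B) : B 0 = 0 := by
  have h1 := h.smul 0 0 ⟨fun _ => ⟨contDiff_const, HasCompactSupport.zero⟩, fun _ => rfl⟩
  simpa using h1

theorem sym_nonneg {m C : ℝ} {k : ℕ} {f : Pt → ℝ} (h : Sym m k f C) : 0 ≤ C := by
  have h1 : |f 0| ≤ C * wt m 0 := l0.mono h subset_rfl le_rfl (Nat.zero_le k) le_rfl 0 trivial
  exact nonneg_of_mul_nonneg_left ((abs_nonneg _).trans h1) (l0.wt_pos m 0)

omit [Fintype ι] in
/-- The best constant of a family of symbols. -/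
theorem best [Nonempty ι] {m C : ℝ} {k : ℕ} {F : ι → Pt → ℝ} (h : ∀ α, Sym m k (F α) C) :
    sInf {C | ∀ α, Sym m k (F α) C} ≤ C ∧
      ∀ α, Sym m k (F α) (sInf {C | ∀ α, Sym m k (F α) C}) := by
  refine ⟨csInf_le ⟨0, fun C' hC' => sym_nonneg l0 (hC' (Classical.arbitrary ι))⟩ h,
    fun α => l0.closed fun C' hC' => ?_⟩
  obtain ⟨C'', h1, h2⟩ := exists_lt_of_csInf_lt (s := {C | ∀ α, Sym m k (F α) C}) ⟨C, h⟩ hC'
  exact l0.mono (h1 α) subset_rfl le_rfl le_rfl h2.le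

end Mono

theorem grd_sum {R ι : Type} [CommRing R] [Algebra ℝ R] {θ : ℝ} {D : ι → R → R}
    {P : ℕ → ℕ → ℝ → R → Prop} (h : Grd θ D P) {κ : Type} (s : Finset κ) (f : κ → R) {d j : ℕ}
    {m : ℝ} (hf : ∀ k, P d j m (f k)) : P d j m (∑ k ∈ s, f k) :=
  Finset.sum_induction f (P d j m) (fun _ _ => h.add) (h.zero d j m) fun k _ => hf k

theorem grd_sub {R ι : Type} [CommRing R] [Algebra ℝ R] {θ : ℝ} {D : ι → R → R}
    {P : ℕ → ℕ → ℝ → R → Prop} (h : Grd θ D P) {d j : ℕ} {m : ℝ} {a b : R} (ha : P d j m a)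
    (hb : P d j m b) : P d j m (a - b) := by
  have := h.add ha (h.smul (-1) hb)
  rwa [neg_one_smul, ← sub_eq_add_neg] at this

section Fam

variable {I : Type} {l : Filter I} {Λ : I → ℝ}

/-- Evaluation of the first family of a pair. -/
noncomputable def ev1 (i : I) : ((I → Pt → ℝ) × (I → Pt → ℝ)) →ₐ[ℝ] (Pt → ℝ) :=
  (Pi.evalAlgHom ℝ (fun _ : I => Pt → ℝ) i).comp (AlgHom.fst ℝ _ _)

/-- Evaluation of the second family of a pair. -/
noncomputable def ev2 (i : I) : ((I → Pt → ℝ) × (I → Pt → ℝ)) →ₐ[ℝ] (Pt → ℝ) :=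
  (Pi.evalAlgHom ℝ (fun _ : I => Pt → ℝ) i).comp (AlgHom.snd ℝ _ _)

theorem ev1_D (i : I) (c : Fin 4) (z : (I → Pt → ℝ) × (I → Pt → ℝ)) :
    ev1 i (pairD (fD (I := I) (n := 4)) c z) = pd c (ev1 i z) := rfl

theorem ev2_D (i : I) (c : Fin 4) (z : (I → Pt → ℝ) × (I → Pt → ℝ)) :
    ev2 i (pairD (fD (I := I) (n := 4)) c z) = pd c (ev2 i z) := rfl

/-- Closeness of two families. -/
def Cl (l : Filter I) (Λ : I → ℝ) (j : ℕ) (m : ℝ) (z : (I → Pt → ℝ) × (I → Pt → ℝ)) : Prop :=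
  ModK l Λ (2 - j) m z.1 ∧ NegK l Λ (2 - j) m (z.2 - z.1)

theorem Cl.bd {m : ℝ} {z : (I → Pt → ℝ) × (I → Pt → ℝ)} (h : Cl l Λ 2 m z) (p : ℕ) :
    ∀ᶠ i in l, ∀ y, |ev2 i z y - ev1 i z y| ≤ (Λ i ^ p)⁻¹ * wt m y :=
  (h.2.2 p).mono fun _ hi y => hi y trivial

theorem cl_diag (M : M0Facts l Λ) {m : ℝ} {F : I → Pt → ℝ} (h : Mod l Λ m F) (j : ℕ) :
    Cl l Λ j m (F, F) :=
  ⟨h.2 _, by simpa using (M.grd_clK.zero 0 j m).2⟩

theorem cl_neg (M : M0Facts l Λ) {m : ℝ} {F : I → Pt → ℝ} (h : NegK l Λ 2 m F) :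
    Cl l Λ 0 m (0, F) :=
  ⟨(M.grd_clK.zero 0 0 m).1, by simpa using h⟩

/-- Comparison of the scalar curvatures and of the drift Laplacians. -/
theorem compare (M : M0Facts l Λ) (t9 : T9Stmt) {g g₁ g' : I → Pt → Mat}
    {h : I → Fin 4 × Fin 4 → Pt → ℝ} {U : I → Fin 4 → Pt → ℝ} {w : I → Pt → ℝ}
    (hg : ∀ a b, Cl l Λ 0 0 (fun i => gf (g i) a b, fun i => gf (g' i) a b))
    (hG : ∀ a b, Cl l Λ 0 0 (fun i => Gf (g i) a b, fun i => Gf (g' i) a b))
    (hg₁ : ∀ a b, Mod l Λ 0 fun i => gf (g₁ i) a b)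
    (hG₁ : ∀ a b, Mod l Λ 0 fun i => Gf (g₁ i) a b)
    (hh : ∀ a b, NegK l Λ 2 0 fun i => h i (a, b)) (hU : ∀ k, Mod l Λ (-1) fun i => U i k)
    (hw : Mod l Λ (-2) w) (p : ℕ) :
    ∀ᶠ i in l, ∀ y, |Scal (g' i) y - Scal (g i) y| ≤ (Λ i ^ p)⁻¹ * wt (-2) y ∧
      |lapF (g' i) (Vf fun k => U i k -
          gW pd (Gf (g₁ i)) (chrF (g₁ i)) (fun a b => h i (a, b)) k) (w i) y -
        lapF (g i) (Vf (U i)) (w i) y| ≤ (Λ i ^ p)⁻¹ * wt (-4) y := by
  have G : Grd 1 (pairD (fD (I := I) (n := 4))) fun _ j m z => Cl l Λ j m z := M.grd_clK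
  have T := t9.1 _ _ _ _ G
  obtain ⟨-, -, -, c1, c2⟩ := T.chr _ _ hg hG
  have c3 := (c2 (fun _ => 0) fun _ => G.zero 0 0 _).2 0 (-2) (w, w) (cl_diag M hw 0)
  have c4 := (T.lin _ _ (fun a b => (0, fun i => h i (a, b))) 0 0 (fun a b => cl_diag M (hG₁ a b) 0)
    (T.chr _ _ (fun a b => cl_diag M (hg₁ a b) 0) fun a b => cl_diag M (hG₁ a b) 0).1
    fun a b => cl_neg M (hh a b)).1
  have c5 := fun k => G.mul (d := 0) (grd_sub G (d := 0) (cl_diag M (hU k) 1)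
    (G.mono (d := 0) (c4 k) le_rfl (by norm_num) (by norm_num)))
    (G.der (d := 0) k (cl_diag M hw 0) (by norm_num))
  have c6 := grd_sub G (d := 0) c3 (G.mono (d := 0) (grd_sum G (d := 0) Finset.univ _ c5)
    (by norm_num) le_rfl (by norm_num))
  filter_upwards [Cl.bd c1 p, Cl.bd c6 p] with i h1 h2 y
  constructor
  · have h3 := h1 y
    simp only [map_gTr, map_gRic (ev1 i) (ev1_D i), map_gRic (ev2 i) (ev2_D i), map_gChr (ev1 i) (ev1_D i),
      map_gChr (ev2 i) (ev2_D i)] at h3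
    rw [← scal_eq, ← scal_eq]
    exact h3
  · have h3 := h2 y
    simp only [map_sub, map_sum, map_mul, map_zero, map_gLapV (ev1 i) (ev1_D i), map_gLapV (ev2 i) (ev2_D i),
      map_gW (ev1 i) (ev1_D i), map_gW (ev2 i) (ev2_D i), map_gChr (ev1 i) (ev1_D i), map_gChr (ev2 i) (ev2_D i),
      ev1_D, ev2_D] at h3
    have h4 : |(gLapV pd (Gf (g' i)) (chrF (g' i)) (fun _ => 0) (w i) - ∑ k, (U i k -
        gW pd (Gf (g₁ i)) (chrF (g₁ i)) (fun a b => h i (a, b)) k) * pd k (w i)) y -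
        (gLapV pd (Gf (g i)) (chrF (g i)) (fun _ => 0) (w i) - ∑ k, (U i k -
        gW pd (Gf (g₁ i)) (chrF (g₁ i)) (fun _ _ => 0) k) * pd k (w i)) y| ≤
        (Λ i ^ p)⁻¹ * wt (-2 - 2) y := h3
    rw [lapF_Vf, lapF_Vf, add_sub_add_right_eq_sub, show (-4 : ℝ) = -2 - 2 by norm_num]
    simpa only [gLapV, gW_zero, zero_mul, Finset.sum_const_zero, sub_zero] using h4

/-- The solution of the gauged equation. -/
theorem solve (l0 : L0Facts) (nl : NlStmt) (hΛ : ∀ i, 2 ≤ Λ i)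
    {a : I → Fin 4 → Fin 4 → Pt → ℝ}
    {B Q : I → (Fin 4 × Fin 4 → Pt → ℝ) → Fin 4 × Fin 4 → Pt → ℝ}
    {F : I → Fin 4 × Fin 4 → Pt → ℝ}
    (h1 : ∃ p : ℕ, ∀ᶠ i in l, LinOp Prod.swap (1 / 2) (Λ i ^ p) (a i) (B i))
    (h2 : ∃ p : ℕ, ∀ᶠ i in l, MPH Prod.swap (1 / 2) (Λ i ^ p) 0 (a i) (B i))
    (h3 : ∃ p : ℕ, ∀ᶠ i in l, QHyp Prod.swap (1 / 2) (Λ i ^ p) (B i) (Q i))
    (h4 : ∀ᶠ i in l, ∀ α, F i α.swap = F i α) (h5 : ∀ α, Neg l Λ (-2) fun i => F i α) :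
    ∃ h : I → Fin 4 × Fin 4 → Pt → ℝ, (∀ i α, h i α.swap = h i α) ∧
      (∀ α, NegK l Λ 2 0 fun i => h i α) ∧
      ∀ᶠ i in l, (∀ α, IsSym (-1 / 2) (h i α)) ∧ LV (a i) (B i) 0 (h i) + Q i (h i) = F i := by
  obtain ⟨p1, h1⟩ := h1
  obtain ⟨p2, h2⟩ := h2
  obtain ⟨p3, h3⟩ := h3
  obtain ⟨p, hp⟩ := nl (Fin 4 × Fin 4) Prod.swap (1 / 2) Prod.swap_swap
    (by rw [abs_of_pos] <;> norm_num)
  set P := p1 + p2 + p3 + 2 with hP
  have hΛ1 : ∀ i, 1 ≤ Λ i := fun i => le_trans one_le_two (hΛ i)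
  have hΛ0 : ∀ i, 0 < Λ i := fun i => lt_of_lt_of_le one_pos (hΛ1 i)
  set η : I → ℝ := fun i => sInf {C | ∀ α, Sym (-(1 / 2) - 1 / 2) 12 (F i α) C} with hη
  have hb : ∀ q : ℕ, ∀ᶠ i in l, η i ≤ (Λ i ^ q)⁻¹ ∧
      ∀ α, Sym (-(1 / 2) - 1 / 2) 12 (F i α) (η i) := fun q => by
    filter_upwards [eventually_all.2 fun α => ((h5 α).2 12).2 q] with i hi
    exact best l0 fun α => l0.mono (hi α) subset_rfl (by norm_num) le_rfl le_rfl
  have key : ∀ᶠ i in l, ∃ h : Fin 4 × Fin 4 → Pt → ℝ, (∀ α, h α.swap = h α) ∧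
      (∀ α, IsSym (-(1 / 2)) (h α)) ∧ (∀ α, Sym (-(1 / 2)) 8 (h α) ((Λ i ^ P) ^ p * η i)) ∧
      LV (a i) (B i) 0 h + Q i h = F i := by
    filter_upwards [h1, h2, h3, h4, hb (P * p), eventually_all.2 fun α => (h5 α).1] with
      i k1 k2 k3 k4 k5 k6
    have hK : ∀ q, q ≤ P → Λ i ^ q ≤ Λ i ^ P := fun q hq => pow_le_pow_right₀ (hΛ1 i) hq
    have h4K : 4 ≤ Λ i ^ P := le_trans (by nlinarith [hΛ i]) (hK 2 (by omega))
    refine hp _ 0 _ _ _ _ _ (by linarith)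
      (linOp_mono l0 k1 (pow_pos (hΛ0 i) _) (hK _ (by omega))) ?_
      (mph_mono l0 k2 (hK _ (by omega))) (qHyp_mono l0 k3 (pow_pos (hΛ0 i) _) (hK _ (by omega)))
      (linOp_zero k1) k4 (fun α => ⟨(k6 α).1, fun k => ?_⟩) k5.2 (by rw [← pow_mul]; exact k5.1)
    · exact (inv_anti₀ (by norm_num) h4K).trans (by norm_num)
    · obtain ⟨C, hC⟩ := (k6 α).2 k
      exact ⟨C, l0.mono hC subset_rfl (by norm_num) le_rfl le_rfl⟩
  have key2 : ∀ i, ∃ h : Fin 4 × Fin 4 → Pt → ℝ, (∀ α, h α.swap = h α) ∧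
      ((∃ h : Fin 4 × Fin 4 → Pt → ℝ, (∀ α, h α.swap = h α) ∧
        (∀ α, IsSym (-(1 / 2)) (h α)) ∧ (∀ α, Sym (-(1 / 2)) 8 (h α) ((Λ i ^ P) ^ p * η i)) ∧
        LV (a i) (B i) 0 h + Q i h = F i) →
      (∀ α, IsSym (-(1 / 2)) (h α)) ∧ (∀ α, Sym (-(1 / 2)) 8 (h α) ((Λ i ^ P) ^ p * η i)) ∧
        LV (a i) (B i) 0 h + Q i h = F i) := fun i => by
    by_cases hi : ∃ h : Fin 4 × Fin 4 → Pt → ℝ, (∀ α, h α.swap = h α) ∧
        (∀ α, IsSym (-(1 / 2)) (h α)) ∧ (∀ α, Sym (-(1 / 2)) 8 (h α) ((Λ i ^ P) ^ p * η i)) ∧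
        LV (a i) (B i) 0 h + Q i h = F i
    · obtain ⟨h, k1, k2⟩ := hi
      exact ⟨h, k1, fun _ => k2⟩
    · exact ⟨0, fun _ => rfl, fun h => absurd h hi⟩
  choose h hs hh using key2
  have key3 := key.mono hh
  refine ⟨h, hs, fun α => ⟨key3.mono fun i hi => cd (hi.1 α), fun q => ?_⟩,
    key3.mono fun i hi => ⟨fun α => by rw [neg_div]; exact hi.1 α, hi.2.2⟩⟩
  filter_upwards [key3, hb (P * p + q)] with i k1 k2
  refine l0.mono (k1.2.1 α) subset_rfl (by norm_num) (by norm_num) ?_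
  refine (mul_le_mul_of_nonneg_left k2.1 (pow_pos (pow_pos (hΛ0 i) _) _).le).trans (le_of_eq ?_)
  have := (hΛ0 i).ne'
  rw [← pow_mul, pow_add]
  field_simp

end Fam

end Pert

open Pert in
theorem pert (_b1 : B1Stmt) (l0 : L0Facts) (m0 : M0Stmt) (_t1 : T1Stmt) (t3 : T3Stmt)
    (t9 : T9Stmt) (bt : BtStmt) (qt : QtStmt) (mph : MphStmt) (nl : NlStmt) : PertStmt := by
  intro I l Λ hΛ g δ U φ w β H
  have M := m0.1 I l Λ hΛ
  have hΛ1 : ∀ i, 1 ≤ Λ i := fun i => le_trans one_le_two (hΛ i)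
  have hΛ0 : ∀ i, 0 < Λ i := fun i => lt_of_lt_of_le one_pos (hΛ1 i)
  have hell : EllF l Λ g := ⟨H.g_symm, by
    obtain ⟨p, hp⟩ := H.g_ell
    exact ⟨p, hp.mono fun i hi y => hi y trivial⟩⟩
  obtain ⟨hδ, herr, hmp⟩ := mph I l Λ hΛ g δ U φ w β H
  have s1 : ∀ i y, ((g i + δ i) y).IsSymm := fun i y => (H.g_symm i y).add (H.δ_symm i y)
  have e1 : ∀ a b, (fun i => gf (g i + δ i) a b - gf (g i) a b) = fun i => gf (δ i) a b :=
    fun a b => by
      funext i y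
      simp [gf]
  obtain ⟨ell1, hG1⟩ := M.inv_cl g (fun i => g i + δ i) hell H.g_mod s1 fun a b => by
    rw [e1]; exact hδ a b
  have mod1 : ∀ a b, Mod l Λ 0 fun i => gf (g i + δ i) a b := fun a b =>
    M.grd_mod.add (d := 0) (j := 0) (H.g_mod a b) (H.δ_mod a b)
  have modG := (M.inv g hell H.g_mod).1
  have modG1 := (M.inv _ ell1 mod1).1
  have met1 : ∀ᶠ i in l, Met (g i + δ i) := by
    obtain ⟨p, hp⟩ := ell1.2
    filter_upwards [hp, eventually_all.2 fun a => eventually_all.2 fun b => (mod1 a b).1,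
      eventually_all.2 fun a => eventually_all.2 fun b => (modG1 a b).1] with i k1 k2 k3
    exact ⟨s1 i, fun y => isUnit_of_ell (inv_pos.2 (pow_pos (hΛ0 i) p)) (k1 y),
      fun a b => cd (k2 a b), fun a b => cd (k3 a b)⟩
  have hUs : ∀ᶠ i in l, ∀ k, IsSym (-1) (U i k) := eventually_all.2 fun k => (H.U_mod k).1
  obtain ⟨h, hs, hneg, hsol⟩ := solve (F := fun i α => (2 : ℝ) • errF (g i + δ i) (Vf (U i)) α.1 α.2)
    l0 nl hΛ (bt I l Λ hΛ _ U ell1 mod1 H.U_mod) hmp (qt I l Λ hΛ _ U ell1 mod1 H.U_mod)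
    (by
      filter_upwards [met1, hUs] with i k1 k2 α
      exact congrArg _ (err_symm t3 k1 (fun k => cd (k2 k)) _ _))
    (fun α => by
      have := M.grd_neg.smul (d := 1) (j := 0) (m := -2) (2 : ℝ) (by simpa using herr α.1 α.2)
      rw [if_neg one_ne_zero] at this
      exact this)
  have s2 : ∀ i y, (addM (g i + δ i) (h i) y).IsSymm := fun i y =>
    (s1 i y).add (Matrix.IsSymm.ext fun a b => congrFun (hs i (a, b)) y)
  have e2 : ∀ a b, (fun i => gf (addM (g i + δ i) (h i)) a b - gf (g i + δ i) a b) =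
      fun i => h i (a, b) := fun a b => by
    funext i y
    simp [gf, addM]
  obtain ⟨ell2, hG2⟩ := M.inv_clK _ (fun i => addM (g i + δ i) (h i)) ell1 mod1 s2 fun a b => by
    rw [e2]; exact hneg _
  have G : Grd 1 (pairD (fD (I := I) (n := 4))) fun _ j m z => Cl l Λ j m z := M.grd_clK
  obtain ⟨pw, hw⟩ := H.w_bar
  have cmp := compare M t9 (g := g) (g' := fun i => addM (g i + δ i) (h i))
    (fun a b => by
      have := G.add (d := 0) (G.add (d := 0) (cl_diag M (H.g_mod a b) 0)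
        (cl_neg M ((hδ a b).2 2))) (cl_neg M (hneg (a, b)))
      convert this using 2
      · simp
      · rfl)
    (fun a b => by
      have := G.add (d := 0) (G.add (d := 0) (cl_diag M (modG a b) 0)
        (cl_neg M ((hG1 a b).2 2))) (cl_neg M (hG2 a b))
      convert this using 2
      · simp
      · funext i y
        simp)
    mod1 modG1 (fun a b => hneg (a, b)) H.U_mod H.w_mod (pw + 1)
  obtain ⟨p2, hp2⟩ := ell2.2
  have S := (m0.2 Set.univ 0 isOpen_univ le_rfl).1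
  have TS := t9.1 _ _ _ _ S
  filter_upwards [met1, hUs, hsol, cmp, hw, hp2,
    eventually_all.2 fun a => eventually_all.2 fun b => (mod1 a b).1,
    eventually_all.2 fun a => eventually_all.2 fun b => (modG1 a b).1,
    eventually_all.2 fun a => eventually_all.2 fun b => (hG2 a b).1] with
    i k1 k2 k3 k4 k5 k6 k7 k8 k9
  have sy : ∀ a b, IsSym 0 (gf (addM (g i + δ i) (h i)) a b) := fun a b =>
    S.add (d := 0) (j := 0) (k7 a b)
      (S.mono (d := 0) (j := 0) (j' := 0) (k3.1 (a, b)) le_rfl (by norm_num) (by norm_num))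
  have c0 : 0 < (Λ i ^ p2)⁻¹ := inv_pos.2 (pow_pos (hΛ0 i) p2)
  have met2 : Met (addM (g i + δ i) (h i)) :=
    ⟨s2 i, fun y => isUnit_of_ell c0 (k6 y), fun a b => cd (sy a b), fun a b => by
      have := (k9 a b).add (k1.sG a b)
      convert this using 1
      funext y
      simp⟩
  refine ⟨addM (g i + δ i) (h i), fun k => U i k -
    gW pd (Gf (g i + δ i)) (chrF (g i + δ i)) (fun a b => h i (a, b)) k,
    ⟨sy, s2 i, ⟨_, c0, k6⟩, fun k => ?_,
      err_zero t3 k1 met2 (fun α => cd (k3.1 α)) (fun k => cd (k2 k)) k3.2⟩, fun a b => ?_,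
    fun y => ?_, fun y => ?_⟩
  · exact grd_sub S (d := 0) (j := 1) (k2 k) (S.mono (d := 0) (j := 1) (j' := 1)
      ((TS.lin _ _ (fun a b => h i (a, b)) 0 (-1 / 2) k8 (TS.chr _ _ k7 k8).1
        fun a b => k3.1 (a, b)).1 k) le_rfl (by norm_num) (by norm_num))
  · convert k3.1 (a, b) using 1
    funext y
    simp only [gf, addM, Pi.sub_apply, Pi.add_apply, Matrix.add_apply, Matrix.of_apply]
    ring
  · refine (k4 y).1.trans (mul_le_one₀ (inv_le_one_of_one_le₀ (one_le_pow₀ (hΛ1 i)))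
      (l0.wt_pos _ y).le ?_)
    rw [← l0.wt_zero y]
    exact l0.wt_mono (by norm_num) y
  · have h1 := (abs_le.1 (k4 y).2).2
    have h2 := (k5 y trivial).2
    have h3 : (Λ i ^ (pw + 1))⁻¹ * wt (-4) y < (Λ i ^ pw)⁻¹ * wt (-4) y :=
      mul_lt_mul_of_pos_right (inv_strictAnti₀ (pow_pos (hΛ0 i) _)
        (pow_lt_pow_right₀ (by linarith [hΛ i]) (Nat.lt_succ_self _))) (l0.wt_pos _ y)
    linarith

end Pool.Agent.Lib.MP_df9110_gt
end

-- part Pool.Agent.Lib.MP_df9110_gt.Qt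
section

/-! The nonlinear part of the gauged equation is tame. -/

namespace Pool.Agent.Lib.MP_df9110_gt

open Filter Topology MeasureTheory
open scoped ContDiff

namespace Qt

theorem inv_mem {I : Type} (A : Subalgebra ℝ (I → Pt → ℝ))
    (hA : ∀ f ∈ A, (∀ i y, f i y ≠ 0) → f⁻¹ ∈ A) (M : I → Pt → Mat)
    (hM : ∀ a b, (fun i y => M i y a b) ∈ A) (hd : ∀ i y, (M i y).det ≠ 0) (a b : Fin 4) :
    (fun i y => (M i y)⁻¹ a b) ∈ A := by
  set N : Matrix (Fin 4) (Fin 4) A := Matrix.of fun a b => ⟨_, hM a b⟩ with hN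
  set ev : I → Pt → (A →+* ℝ) := fun i y => (Pi.evalRingHom (fun _ : Pt => ℝ) y).comp
    ((Pi.evalRingHom (fun _ : I => Pt → ℝ) i).comp A.val.toRingHom) with hev
  have h1 : ∀ i y, (ev i y).mapMatrix N = M i y := fun i y => rfl
  have h2 : ∀ i y, N.det.1 i y = (M i y).det := fun i y => by
    rw [← h1, ← RingHom.map_det]; rfl
  have h3 : ∀ i y, (N.adjugate a b).1 i y = (M i y).adjugate a b := fun i y => by
    rw [← h1, ← RingHom.map_adjugate]; rfl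
  have h4 : (fun i y => (M i y)⁻¹ a b) = (N.det.1)⁻¹ * (N.adjugate a b).1 := by
    funext i y
    simp only [Pi.mul_apply, Pi.inv_apply, h2, h3, Matrix.inv_def, Ring.inverse_eq_inv',
      Matrix.smul_apply, smul_eq_mul]
  rw [h4]
  exact A.mul_mem (hA _ N.det.2 fun i y => by rw [h2]; exact hd i y) (N.adjugate a b).2

/-- Smooth families that converge at `y`. -/
def J0 (y : Pt) (F : Option ℕ → Pt → ℝ) : Prop :=
  (∀ o, ContDiff ℝ ∞ (F o)) ∧ Tendsto (fun n => F (some n) y) atTop (𝓝 (F none y))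

/-- Smooth families whose jets converge at `y`. -/
def Jet (y : Pt) : ℕ → (Option ℕ → Pt → ℝ) → Prop
  | 0, F => J0 y F
  | k + 1, F => J0 y F ∧ ∀ i, Jet y k (fD (n := 4) i F)

section Jet

variable {y : Pt} {k : ℕ} {F G : Option ℕ → Pt → ℝ}

theorem Jet.j0 (h : Jet y k F) : J0 y F := by
  cases k
  exacts [h, h.1]

theorem Jet.pred (h : Jet y (k + 1) F) : Jet y k F := by
  induction k generalizing F with
  | zero => exact h.1
  | succ k ih => exact ⟨h.1, fun i => ih (h.2 i)⟩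

theorem Jet.mono {k' : ℕ} (h : Jet y k' F) (hk : k ≤ k') : Jet y k F := by
  induction hk with
  | refl => exact h
  | step _ ih => exact ih h.pred

theorem J0.da (h : J0 y F) (o : Option ℕ) (p : Pt) : DifferentiableAt ℝ (F o) p :=
  (h.1 o).differentiable (by simp) p

theorem Jet.const {f : Pt → ℝ} (hf : ContDiff ℝ ∞ f) : Jet y k fun _ => f := by
  induction k generalizing f with
  | zero => exact ⟨fun _ => hf, tendsto_const_nhds⟩
  | succ k ih => exact ⟨⟨fun _ => hf, tendsto_const_nhds⟩, fun i => ih (contDiff_pdn hf i)⟩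

theorem Jet.add (h : Jet y k F) (h' : Jet y k G) : Jet y k (F + G) := by
  have h0 : ∀ {F G : Option ℕ → Pt → ℝ}, J0 y F → J0 y G → J0 y (F + G) := fun h h' =>
    ⟨fun o => (h.1 o).add (h'.1 o), h.2.add h'.2⟩
  induction k generalizing F G with
  | zero => exact h0 h h'
  | succ k ih =>
    refine ⟨h0 h.1 h'.1, fun i => ?_⟩
    have : fD (n := 4) i (F + G) = fD (n := 4) i F + fD (n := 4) i G :=
      funext fun o => funext fun p => pdn_add (h.1.da o p) (h'.1.da o p) i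
    rw [this]
    exact ih (h.2 i) (h'.2 i)

theorem Jet.mul (h : Jet y k F) (h' : Jet y k G) : Jet y k (F * G) := by
  have h0 : ∀ {F G : Option ℕ → Pt → ℝ}, J0 y F → J0 y G → J0 y (F * G) := fun h h' =>
    ⟨fun o => (h.1 o).mul (h'.1 o), h.2.mul h'.2⟩
  induction k generalizing F G with
  | zero => exact h0 h h'
  | succ k ih =>
    refine ⟨h0 h.1 h'.1, fun i => ?_⟩
    have : fD (n := 4) i (F * G) = F * fD (n := 4) i G + fD (n := 4) i F * G :=
      funext fun o => funext fun p => pdn_mul (h.1.da o p) (h'.1.da o p) i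
    rw [this]
    exact (ih h.pred (h'.2 i)).add (ih (h.2 i) h'.pred)

theorem Jet.smul (c : ℝ) (h : Jet y k F) : Jet y k (c • F) := by
  have : c • F = (fun _ _ => c) * F := rfl
  rw [this]
  exact (Jet.const contDiff_const).mul h

theorem Jet.inv (h : Jet y k F) (h0 : ∀ o p, F o p ≠ 0) : Jet y k F⁻¹ := by
  have h1 : J0 y F⁻¹ := ⟨fun o => (h.j0.1 o).inv (h0 o), h.j0.2.inv₀ (h0 _ _)⟩
  induction k with
  | zero => exact h1
  | succ k ih =>
    refine ⟨h1, fun i => ?_⟩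
    have : fD (n := 4) i F⁻¹ = (-1 : ℝ) • (fD (n := 4) i F * (F⁻¹ * F⁻¹)) := by
      funext o p
      have e := pdn_mul (h.1.da o p) (h1.da o p) i
      have e1 : F o * F⁻¹ o = fun _ => 1 := funext fun q => mul_inv_cancel₀ (h0 o q)
      have e2 : pdn i (fun _ : En 4 => (1 : ℝ)) p = 0 := by simp [pdn]
      rw [e1, e2] at e
      have e3 := h0 o p
      simp only [fD, Pi.smul_apply, Pi.mul_apply, Pi.inv_apply, smul_eq_mul] at e ⊢
      field_simp at e ⊢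
      linarith
    rw [this]
    exact ((h.2 i).mul ((ih h.pred).mul (ih h.pred))).smul _

/-- The algebra of families whose `k`-jets converge. -/
def jetA (y : Pt) (k : ℕ) : Subalgebra ℝ (Option ℕ → Pt → ℝ) where
  carrier := {F | Jet y k F}
  mul_mem' := Jet.mul
  add_mem' := Jet.add
  algebraMap_mem' := fun _ => Jet.const contDiff_const

theorem grd_jet (y : Pt) (θ : ℝ) :
    Grd θ (fD (I := Option ℕ) (n := 4)) fun _ j _ F => Jet y (2 - j) F where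
  zero _ _ _ := Jet.const contDiff_const
  one := Jet.const contDiff_const
  add := Jet.add
  smul := Jet.smul
  mono h _ _ _ := h.mono (by omega)
  mul := Jet.mul
  der := fun {_ j _ _} i h hj => by
    rw [show 2 - j = 2 - (j + 1) + 1 by omega] at h
    exact h.2 i

theorem grdQ_jet (y : Pt) :
    GrdQ (fD (I := Option ℕ) (n := 4)) fun _ j _ F => Jet y (2 - j) F where
  toGrd := grd_jet y 0
  down := id
  mul11 := Jet.mul

end Jet

theorem grd_smooth : Grd 1 pd fun _ _ _ f => ContDiff ℝ ∞ f where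
  zero _ _ _ := contDiff_const
  one := contDiff_const
  add := ContDiff.add
  smul c h := h.const_smul c
  mono h _ _ _ := h
  mul := ContDiff.mul
  der i h _ := contDiff_pdn h i

theorem grdQ_van {W : Set Pt} (hW : IsOpen W) :
    GrdQ pd fun d _ _ f => ContDiff ℝ ∞ f ∧ (d ≠ 0 → ∀ y ∈ W, f y = 0) where
  zero _ _ _ := ⟨contDiff_const, fun _ _ _ => rfl⟩
  one := ⟨contDiff_const, fun h => absurd rfl h⟩
  add h h' := ⟨h.1.add h'.1, fun hd y hy => by simp [h.2 hd y hy, h'.2 hd y hy]⟩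
  smul c h := ⟨h.1.const_smul c, fun hd y hy => by simp [h.2 hd y hy]⟩
  mono h _ _ _ := h
  mul h h' := ⟨h.1.mul h'.1, fun hd y hy => by simp [h'.2 hd y hy]⟩
  der := fun {_ _ _ a} i h _ => ⟨contDiff_pdn h.1 i, fun hd y hy => by
    have e : a =ᶠ[𝓝 y] fun _ => 0 := by
      filter_upwards [hW.mem_nhds hy] with z hz using h.2 hd z hz
    simp [pd, e.fderiv_eq]⟩
  down h := ⟨h.1, fun h0 => absurd rfl h0⟩
  mul11 h h' := ⟨h.1.mul h'.1, fun _ y hy => by simp [h.2 one_ne_zero y hy]⟩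

/-- Smooth symmetric invertible matrices. -/
structure Good (g : Pt → Mat) : Prop where
  cd : ∀ a b, ContDiff ℝ ∞ (gf g a b)
  symm : ∀ y, (g y).IsSymm
  det : ∀ y, (g y).det ≠ 0

theorem Good.cdG {g : Pt → Mat} (h : Good g) (a b : Fin 4) : ContDiff ℝ ∞ (Gf g a b) :=
  (inv_mem (jetA 0 0) (fun _ hf h0 => Jet.inv hf h0) (fun _ => g)
    (fun a b => Jet.const (h.cd a b)) (fun _ => h.det) a b).1 none

/-- The entries as smooth functions. -/
def Good.gS {g : Pt → Mat} (h : Good g) (a b : Fin 4) : Sm 4 := ⟨gf g a b, h.cd a b⟩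

/-- The entries of the inverse as smooth functions. -/
noncomputable def Good.GS {g : Pt → Mat} (h : Good g) (a b : Fin 4) : Sm 4 :=
  ⟨Gf g a b, h.cdG a b⟩

theorem Good.met {g : Pt → Mat} (h : Good g) : IsMet h.gS h.GS where
  gs i j := Subtype.ext (funext fun y => (h.symm y).apply j i)
  Gs i j := Subtype.ext (funext fun y => by
    have : (g y)⁻¹.IsSymm := by
      rw [Matrix.IsSymm, Matrix.transpose_nonsing_inv, h.symm y]
    exact this.apply j i)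
  inv i j := Subtype.ext (funext fun y => by
    have h1 := congrFun (congrFun (Matrix.nonsing_inv_mul (g y) (h.det y).isUnit) i) j
    rw [Matrix.mul_apply, Matrix.one_apply] at h1
    have h2 : (∑ k, h.GS i k * h.gS k j).1 y = ∑ k, (g y)⁻¹ i k * g y k j := by
      rw [AddSubmonoidClass.coe_finsetSum, Finset.sum_apply]
      rfl
    rw [h2, h1]
    split_ifs <;> rfl)

theorem det_ne {M : Mat} {c : ℝ} (hc : 0 < c) (h : ∀ ξ, c * nsq ξ ≤ qf M ξ) : M.det ≠ 0 := by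
  intro h0
  obtain ⟨v, hv, hMv⟩ := Matrix.exists_mulVec_eq_zero_iff.2 h0
  have h1 : qf M v = ∑ a, v a * M.mulVec v a := by
    simp only [qf, Matrix.mulVec, dotProduct, Finset.mul_sum]
    exact Finset.sum_congr rfl fun a _ => Finset.sum_congr rfl fun b _ => by ring
  have h2 := h v
  rw [h1, hMv] at h2
  simp only [Pi.zero_apply, mul_zero, Finset.sum_const_zero] at h2
  have h3 : nsq v ≤ 0 := by
    by_contra hc'
    exact absurd h2 (not_le.2 (mul_pos hc (not_le.1 hc')))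
  apply hv
  funext a
  have h4 : v a ^ 2 ≤ nsq v :=
    Finset.single_le_sum (f := fun i => v i ^ 2) (fun _ _ => sq_nonneg _) (Finset.mem_univ a)
  exact pow_eq_zero_iff (two_ne_zero) |>.1 (le_antisymm (h4.trans h3) (sq_nonneg _))

theorem good_add {g : Pt → Mat} {c : ℝ} (hg : Good g) (hc : 0 < c)
    (he : ∀ y ξ, c * nsq ξ ≤ qf (g y) ξ) {u : Fin 4 × Fin 4 → Pt → ℝ}
    (hu : ∀ α, ContDiff ℝ ∞ (u α)) (hs : ∀ α, u α.swap = u α) (hb : ∀ α y, |u α y| ≤ c / 8) :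
    Good (addM g u) where
  cd a b := (hg.cd a b).add (hu (a, b))
  symm y := (hg.symm y).add (Matrix.IsSymm.ext fun a b => congrFun (hs (a, b)) y)
  det y := by
    refine det_ne (half_pos hc) fun ξ => ?_
    have h1 : qf (addM g u y) ξ = qf (g y) ξ + ∑ a, ∑ b, u (a, b) y * (ξ a * ξ b) := by
      simp only [qf, addM, Matrix.add_apply, Matrix.of_apply, add_mul, Finset.sum_add_distrib]
    have h2 : ∀ a b, -(c / 16 * (ξ a ^ 2 + ξ b ^ 2)) ≤ u (a, b) y * (ξ a * ξ b) := fun a b => by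
      obtain ⟨h3, h4⟩ := abs_le.1 (hb (a, b) y)
      nlinarith [mul_nonneg (sub_nonneg.2 h3) (sq_nonneg (ξ a + ξ b)),
        mul_nonneg (sub_nonneg.2 h4) (sq_nonneg (ξ a - ξ b))]
    have h3 : ∑ a, ∑ b, -(c / 16 * (ξ a ^ 2 + ξ b ^ 2)) ≤ ∑ a, ∑ b, u (a, b) y * (ξ a * ξ b) :=
      Finset.sum_le_sum fun a _ => Finset.sum_le_sum fun b _ => h2 a b
    have h4 : ∑ a, ∑ b, -(c / 16 * (ξ a ^ 2 + ξ b ^ 2)) = -(c / 2 * nsq ξ) := by
      simp only [nsq, Fin.sum_univ_four]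
      ring
    linarith [he y ξ]

theorem van (t9 : T9Stmt) {g : Pt → Mat} {u : Fin 4 × Fin 4 → Pt → ℝ} (hg : Good g)
    (hg' : Good (addM g u)) (hu : ∀ α, ContDiff ℝ ∞ (u α)) {W : Set Pt} (hW : IsOpen W)
    (h0 : ∀ α, ∀ y ∈ W, u α y = 0) (α : Fin 4 × Fin 4) :
    ContDiff ℝ ∞ (nlQ g u α) ∧ ∀ y ∈ W, nlQ g u α y = 0 := by
  have hc := ((t9.1 _ (Fin 4) pd _ grd_smooth).chr (gf g) (Gf g) hg.cd hg.cdG).1
  have h := t9.2 _ (Fin 4) pd _ (grdQ_van hW) (Gf g) (chrF g)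
    (fun a b => Gf (addM g u) a b - Gf g a b) (fun a b => u (a, b))
    (fun a b => ⟨hg.cdG a b, fun h => absurd rfl h⟩)
    (fun k a b => ⟨hc k a b, fun h => absurd rfl h⟩)
    (fun a b => ⟨(hg'.cdG a b).sub (hg.cdG a b), fun _ y hy => by
      have : addM g u y = g y := by
        ext a b
        simp [addM, h0 _ y hy]
      simp [Gf, this]⟩)
    (fun a b => ⟨hu _, fun _ => h0 _⟩) α.1 α.2
  exact ⟨h.1, h.2 two_ne_zero⟩

theorem symmQ (t3 : T3Stmt) {g : Pt → Mat} {u : Fin 4 × Fin 4 → Pt → ℝ} (hg : Good g)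
    (hg' : Good (addM g u)) (hu : ∀ α, ContDiff ℝ ∞ (u α)) (α : Fin 4 × Fin 4) :
    nlQ g u α.swap = nlQ g u α := by
  have h := (t3 (Sm 4) (Fin 4) smD hg.gS hg.GS isDer_smD hg.met).symm_Q
    (fun a b => ⟨u (a, b), hu _⟩) hg'.GS hg'.met α.2 α.1
  have h2 := congrArg (Sm 4).val h
  simp only [map_gQ (Sm 4).val smD_val, map_gChr (Sm 4).val smD_val] at h2
  exact h2

theorem lim (t9 : T9Stmt) {g : Pt → Mat} {U : Fin 4 → Pt → ℝ} (hg : Good g)
    (hU : ∀ k, ContDiff ℝ ∞ (U k)) (v : Option ℕ → Fin 4 × Fin 4 → Pt → ℝ)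
    (hg' : ∀ o, Good (addM g (v o))) (y : Pt) (hv : ∀ α, Jet y 2 fun o => v o α)
    (α : Fin 4 × Fin 4) :
    Tendsto (fun n => lowB g U (v (some n)) α y + nlQ g (v (some n)) α y) atTop
      (𝓝 (lowB g U (v none) α y + nlQ g (v none) α y)) := by
  obtain ⟨hc, hrl, hrc, -⟩ := (t9.1 _ (Fin 4) pd _ grd_smooth).chr (gf g) (Gf g) hg.cd hg.cdG
  have hπ : ∀ (o : Option ℕ) (i : Fin 4) (a : Option ℕ → Pt → ℝ),
      Pi.evalAlgHom ℝ (fun _ : Option ℕ => Pt → ℝ) o (fD (n := 4) i a) =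
        pd i (Pi.evalAlgHom ℝ (fun _ : Option ℕ => Pt → ℝ) o a) := fun _ _ _ => rfl
  have h1 := ((t9.1 _ (Fin 4) _ _ (grd_jet y 1)).low (fun a b _ => Gf g a b)
    (fun k a b _ => chrF g k a b) (fun a b c d _ => rlF g a b c d) (fun a b _ => ricF g a b)
    (fun k _ => U k) (fun a b o => v o (a, b)) 0 0 (fun a b => Jet.const (hg.cdG a b))
    (fun k a b => Jet.const (hc k a b)) (fun a b c d => Jet.const (hrl a b c d))
    (fun a b => Jet.const (hrc a b)) (fun k => Jet.const (hU k)) (fun a b => hv (a, b))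
    α.1 α.2).j0.2
  have hinv : ∀ a b, Jet y 2 fun o => Gf (addM g (v o)) a b :=
    inv_mem (jetA y 2) (fun _ hf h0 => Jet.inv hf h0) (fun o => addM g (v o))
      (fun a b => (Jet.const (hg.cd a b)).add (hv (a, b))) fun o => (hg' o).det
  have h2 := (t9.2 _ (Fin 4) _ _ (grdQ_jet y) (fun a b _ => Gf g a b)
    (fun k a b _ => chrF g k a b) (fun a b o => Gf (addM g (v o)) a b - Gf g a b)
    (fun a b o => v o (a, b)) (fun a b => Jet.const (hg.cdG a b))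
    (fun k a b => Jet.const (hc k a b))
    (fun a b => (jetA y 2).sub_mem (hinv a b) (Jet.const (hg.cdG a b))) (fun a b => hv (a, b))
    α.1 α.2).j0.2
  have e1 := fun o => map_gLow _ (hπ o) (fun a b _ => Gf g a b)
    (fun k a b _ => chrF g k a b) (fun a b c d _ => rlF g a b c d) (fun a b _ => ricF g a b)
    (fun k _ => U k) (fun a b o => v o (a, b)) α.1 α.2
  have e2 := fun o => map_gQ _ (hπ o) (fun a b _ => Gf g a b)
    (fun k a b _ => chrF g k a b) (fun a b o => Gf (addM g (v o)) a b - Gf g a b)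
    (fun a b o => v o (a, b)) α.1 α.2
  simp only [Pi.evalAlgHom_apply] at e1 e2
  simp only [e1] at h1
  simp only [e2] at h2
  exact h1.add h2

theorem XV_nonneg (l0 : L0Facts) (s : ℕ) (δ : ℝ) (u : Fin 4 × Fin 4 → Pt → ℝ) : 0 ≤ XV s δ u :=
  Finset.sum_nonneg fun _ _ => Finset.sum_nonneg fun _ _ => l0.nn_nonneg _ _ _

theorem sup_bd (l0 : L0Facts) (sob : SobStmt) : ∃ C : ℝ, 0 ≤ C ∧
    ∀ u : Fin 4 × Fin 4 → Pt → ℝ, (∀ α, CC (u α)) → ∀ α y, |u α y| ≤ C * XV 12 (1 / 2) u := by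
  obtain ⟨C, hC, h⟩ := sob (1 / 2) 0
  refine ⟨C, hC, fun u hu α y => ?_⟩
  have h1 : |u α y| ≤ C * Yn 4 4 (1 / 2) (u α) * wt (-(1 / 2)) y := h _ (hu α) y trivial
  have h2 : wt (-(1 / 2)) y ≤ 1 := (l0.wt_mono (by norm_num) y).trans (l0.wt_zero y).le
  have h3 : Yn 4 4 (1 / 2) (u α) ≤ Yn 14 12 (1 / 2) (u α) := by
    have e : Yn 4 4 (1 / 2) (u α) =
        ∑ k ∈ Finset.range 5, nn k (1 / 2 - 2 + (min k 12 : ℕ)) (u α) :=
      Finset.sum_congr rfl fun k hk => by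
        have := Finset.mem_range.1 hk
        rw [show min k 4 = min k 12 by omega]
    rw [e]
    exact Finset.sum_le_sum_of_subset_of_nonneg (Finset.range_subset_range.2 (by norm_num))
      fun _ _ _ => l0.nn_nonneg _ _ _
  have h4 : Yn 14 12 (1 / 2) (u α) ≤ XV 12 (1 / 2) u :=
    Finset.single_le_sum (f := fun β => Yn 14 12 (1 / 2) (u β))
      (fun _ _ => Finset.sum_nonneg fun _ _ => l0.nn_nonneg _ _ _) (Finset.mem_univ α)
  have h5 : 0 ≤ Yn 4 4 (1 / 2) (u α) := Finset.sum_nonneg fun _ _ => l0.nn_nonneg _ _ _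
  exact h1.trans ((mul_le_of_le_one_right (mul_nonneg hC h5) h2).trans
    (mul_le_mul_of_nonneg_left (h3.trans h4) hC))

end Qt

open Qt in
theorem qt (_b1 : B1Stmt) (l0 : L0Facts) (_m0 : M0Stmt) (sob : SobStmt) (_t1 : T1Stmt)
    (t3 : T3Stmt) (t9 : T9Stmt) (hl : QtLipStmt) (ht : QtTopStmt) : QtStmt := by
  intro I l Λ hΛ g U hE hg hU
  obtain ⟨p₁, h₁⟩ := hl I l Λ hΛ g hE hg
  obtain ⟨p₂, h₂⟩ := ht I l Λ hΛ g hE hg
  obtain ⟨hsy, p₀, h₀⟩ := hE
  obtain ⟨C, hC, hsup⟩ := sup_bd l0 sob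
  obtain ⟨p₃, h₃⟩ := l0.absorb (8 * C) p₀
  refine ⟨p₁ + p₂ + p₃, ?_⟩
  have hgs : ∀ᶠ i in l, ∀ a b, IsSym 0 (gf (g i) a b) :=
    eventually_all.2 fun a => eventually_all.2 fun b => (hg a b).1
  have hUs : ∀ᶠ i in l, ∀ k, IsSym (-1) (U i k) := eventually_all.2 fun k => (hU k).1
  filter_upwards [h₁, h₂, h₀, hgs, hUs] with i h₁ h₂ h₀ hgs hUs
  have hL : 1 ≤ Λ i := by linarith [hΛ i]
  have hpos : ∀ q : ℕ, 0 < Λ i ^ q := fun q => by positivity
  have hle : ∀ q ≤ p₁ + p₂ + p₃, Λ i ^ q ≤ Λ i ^ (p₁ + p₂ + p₃) := fun q hq =>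
    pow_le_pow_right₀ hL hq
  have hinv : ∀ q ≤ p₁ + p₂ + p₃, (Λ i ^ (p₁ + p₂ + p₃))⁻¹ ≤ (Λ i ^ q)⁻¹ := fun q hq =>
    inv_anti₀ (hpos q) (hle q hq)
  have hc : 0 < (Λ i ^ p₀)⁻¹ := inv_pos.2 (hpos p₀)
  have hG : Good (g i) := ⟨fun a b => contDiff_iff_contDiffAt.2 fun y => (hgs a b).1 y trivial,
    hsy i, fun y => det_ne hc (h₀ y)⟩
  have hsm : ∀ u : Fin 4 × Fin 4 → Pt → ℝ, Adm Prod.swap u →
      XV 12 (1 / 2) u ≤ (Λ i ^ (p₁ + p₂ + p₃))⁻¹ → ∀ α y, |u α y| ≤ (Λ i ^ p₀)⁻¹ / 8 := by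
    intro u hu hX α y
    refine (hsup u hu.1 α y).trans
      ((mul_le_mul_of_nonneg_left (hX.trans (hinv p₃ (by omega))) hC).trans ?_)
    have h4 := h₃ (Λ i) (hΛ i)
    rw [← div_eq_mul_inv, inv_eq_one_div, div_div, div_le_div_iff₀ (hpos _) (by positivity)]
    linarith
  have hadd : ∀ u : Fin 4 × Fin 4 → Pt → ℝ, Adm Prod.swap u →
      XV 12 (1 / 2) u ≤ (Λ i ^ (p₁ + p₂ + p₃))⁻¹ → Good (addM (g i) u) := fun u hu hX =>
    good_add hG hc h₀ (fun α => (hu.1 α).1) hu.2 (hsm u hu hX)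
  refine ⟨?_, fun u hu hX => ⟨fun α => ?_, fun α => ?_⟩, fun u v hu hv hX hY => ?_,
    fun s hs M => ?_, fun u h hu hh c0 c1 c2 α y => ?_⟩
  · funext α y
    refine (van t9 hG (good_add hG hc h₀ (fun _ => contDiff_const) (fun _ => rfl) fun _ _ => ?_)
      (fun _ => contDiff_const) isOpen_univ (fun _ _ _ => rfl) α).2 y trivial
    simp only [abs_zero]
    positivity
  · have hK : IsCompact (⋃ β, tsupport (u β)) := isCompact_iUnion fun β => (hu.1 β).2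
    have h := van t9 hG (hadd u hu hX) (fun β => (hu.1 β).1) hK.isClosed.isOpen_compl
      (fun β y hy => image_eq_zero_of_notMem_tsupport fun hc =>
        hy (Set.mem_iUnion.2 ⟨β, hc⟩)) α
    exact ⟨h.1, HasCompactSupport.intro hK h.2⟩
  · exact symmQ t3 hG (hadd u hu hX) (fun β => (hu.1 β).1) α
  · refine (h₁ u v hu hv (hX.trans (hinv p₁ (by omega))) (hY.trans (hinv p₁ (by omega)))).trans ?_
    exact mul_le_mul_of_nonneg_right (mul_le_mul_of_nonneg_right (hle p₁ (by omega))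
      (add_nonneg (XV_nonneg l0 _ _ _) (XV_nonneg l0 _ _ _))) (XV_nonneg l0 _ _ _)
  · obtain ⟨C', hC'⟩ := h₂ s hs M
    refine ⟨C', fun u hu hX hM => (hC' u hu (hX.trans (hinv p₂ (by omega))) hM).trans ?_⟩
    exact add_le_add_left (mul_le_mul_of_nonneg_right (mul_le_mul_of_nonneg_right
      (hle p₂ (by omega)) (XV_nonneg l0 _ _ _))
      (Finset.sum_nonneg fun _ _ => l0.nn_nonneg _ _ _)) _
  · have hcd : ∀ (o : Option ℕ) β, ContDiff ℝ ∞ (o.elim h u β) := fun o β => by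
      cases o
      exacts [hh β, ((hu _).1.1 β).1]
    refine lim t9 hG (fun k => contDiff_iff_contDiffAt.2 fun y => (hUs k).1 y trivial)
      (fun o => o.elim h u) (fun o => ?_) y (fun β => ?_) α
    · cases o with
      | some n => exact hadd _ (hu n).1 (hu n).2
      | none =>
        refine good_add hG hc h₀ hh (fun β => funext fun z => ?_) fun β z => ?_
        · refine tendsto_nhds_unique (c0 β.swap z) ?_
          simp only [fun n => (hu n).1.2 β]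
          exact c0 β z
        · exact le_of_tendsto' (c0 β z).abs fun n => hsm _ (hu n).1 (hu n).2 β z
    · exact ⟨⟨fun o => hcd o β, c0 β y⟩, fun j => ⟨⟨fun o => contDiff_pdn (hcd o β) j, c1 β y j⟩,
        fun j' => ⟨fun o => contDiff_pdn (contDiff_pdn (hcd o β) j) j', c2 β y j' j⟩⟩⟩

end Pool.Agent.Lib.MP_df9110_gt
end
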