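import Pool.Agent.Lib.MP_df9110_gt.NPert

/-! The Lipschitz estimate for the nonlinear part of the gauged equation. -/

namespace Pool.Agent.Lib.MP_df9110_gt

open Filter Topology
open scoped ContDiff

namespace QtLip

theorem cc_zero : CC (0 : Pt → ℝ) := ⟨contDiff_const, HasCompactSupport.zero⟩

theorem cc_smul (c : ℝ) {u : Pt → ℝ} (hu : CC u) : CC (c • u) :=
  ⟨hu.1.const_smul c, hu.2.smul_left (f := fun _ => c)⟩

section Y

variable (l0 : L0Facts)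
include l0

theorem Y_nonneg (t s : ℕ) (δ : ℝ) (u : Pt → ℝ) : 0 ≤ Yn t s δ u :=
  Finset.sum_nonneg fun _ _ => l0.nn_nonneg _ _ _

theorem Y_add (t s : ℕ) (δ : ℝ) {u v : Pt → ℝ} (hu : CC u) (hv : CC v) :
    Yn t s δ (u + v) ≤ Yn t s δ u + Yn t s δ v := by
  unfold Yn
  rw [← Finset.sum_add_distrib]
  exact Finset.sum_le_sum fun k _ => l0.nn_add _ _ hu hv

theorem Y_smul (t s : ℕ) (δ c : ℝ) {u : Pt → ℝ} (hu : CC u) :
    Yn t s δ (c • u) = |c| * Yn t s δ u := by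
  unfold Yn
  rw [Finset.mul_sum]
  exact Finset.sum_congr rfl fun k _ => l0.nn_smul _ _ c hu

theorem Y_zero (t s : ℕ) (δ : ℝ) : Yn t s δ 0 = 0 := by
  simpa using Y_smul l0 t s δ 0 cc_zero

theorem Y_mono {t t' : ℕ} (s : ℕ) (δ : ℝ) (u : Pt → ℝ) (h : t ≤ t') : Yn t s δ u ≤ Yn t' s δ u :=
  Finset.sum_le_sum_of_subset_of_nonneg (Finset.range_mono (by omega))
    fun _ _ _ => l0.nn_nonneg _ _ _

theorem Y_der (t s : ℕ) (δ : ℝ) {u : Pt → ℝ} (hu : CC u) (i : Fin 4) :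
    Yn t s δ (pd i u) ≤ Yn (t + 1) s δ u := by
  unfold Yn
  rw [Finset.sum_range_succ' _ (t + 1)]
  refine le_trans (Finset.sum_le_sum fun k _ => ?_) (le_add_of_nonneg_right (l0.nn_nonneg _ _ _))
  refine (l0.nn_succ _ _ hu i).trans (l0.nn_mono _ hu ?_)
  have : min k s ≤ min (k + 1) s := by omega
  have : ((min k s : ℕ) : ℝ) ≤ (min (k + 1) s : ℕ) := by exact_mod_cast this
  linarith

theorem Y_four (δ : ℝ) (u : Pt → ℝ) : Yn 4 4 δ u ≤ Yn 14 12 δ u := by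
  refine le_trans (le_of_eq ?_) (Y_mono l0 12 δ u (show 4 ≤ 14 by norm_num))
  refine Finset.sum_congr rfl fun k hk => ?_
  have := Finset.mem_range.1 hk
  rw [show min k 4 = min k 12 by omega]

theorem Y_sum (t s : ℕ) (δ : ℝ) {κ : Type} (S : Finset κ) (f : κ → Pt → ℝ) (hf : ∀ k, CC (f k)) :
    CC (∑ k ∈ S, f k) ∧ Yn t s δ (∑ k ∈ S, f k) ≤ ∑ k ∈ S, Yn t s δ (f k) := by
  classical
  induction S using Finset.induction_on with
  | empty => simpa using ⟨cc_zero, (Y_zero l0 t s δ).le⟩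
  | insert a S ha ih =>
    rw [Finset.sum_insert ha, Finset.sum_insert ha]
    exact ⟨l0.cc_add (hf a) ih.1, (Y_add l0 t s δ (hf a) ih.1).trans (by linarith [ih.2])⟩

theorem Y_neg (t s : ℕ) (δ : ℝ) {u : Pt → ℝ} (hu : CC u) :
    CC (-u) ∧ Yn t s δ (-u) = Yn t s δ u := by
  rw [← neg_one_smul ℝ u]
  exact ⟨cc_smul _ hu, by rw [Y_smul l0 t s δ _ hu]; simp⟩

theorem Y_le_X (u : Fin 4 × Fin 4 → Pt → ℝ) (α : Fin 4 × Fin 4) :
    Yn 14 12 (1 / 2) (u α) ≤ XV 12 (1 / 2) u :=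
  Finset.single_le_sum (f := fun α => Yn 14 12 (1 / 2) (u α))
    (fun _ _ => Y_nonneg l0 _ _ _ _) (Finset.mem_univ α)

theorem X_nonneg (u : Fin 4 × Fin 4 → Pt → ℝ) : 0 ≤ XV 12 (1 / 2) u :=
  Finset.sum_nonneg fun _ _ => Y_nonneg l0 _ _ _ _

end Y

theorem pd_add' {f g : Pt → ℝ} (hf : ContDiff ℝ ∞ f) (hg : ContDiff ℝ ∞ g) (i : Fin 4) :
    pd i (f + g) = pd i f + pd i g :=
  funext fun p => pdn_add (hf.differentiable (by simp) p) (hg.differentiable (by simp) p) i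

/-- The number of derivatives left. -/
def tj (j : ℕ) : ℕ := 14 - min j 2

section Cls

variable {J : Type} (L : Filter J) (Λ : J → ℝ)

/-- Compactly supported remainders of size `w`. -/
def Rem (j : ℕ) (w : J → ℝ) (r : J → Pt → ℝ) : Prop :=
  ∃ q : ℕ, ∀ᶠ z in L, CC (r z) ∧ Yn (tj j) 12 (1 / 2) (r z) ≤ Λ z ^ q * w z

/-- Multipliers. -/
def Mu (j : ℕ) (a : J → Pt → ℝ) : Prop := ∃ c, Mod L Λ 0 c ∧ Rem L Λ j 1 (a - c)

/-- Pairs of remainders. -/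
def Pr (j : ℕ) (w w' : J → ℝ) (a b : J → Pt → ℝ) : Prop :=
  Rem L Λ j w a ∧ Rem L Λ j w b ∧ Rem L Λ j w' (a - b)

variable {L Λ} {j j' : ℕ} {w w' : J → ℝ} {r r' a : J → Pt → ℝ}

theorem Rem.nonneg (l0 : L0Facts) (hΛ : ∀ z, 2 ≤ Λ z) {q : ℕ} {z : J} {u : Pt → ℝ} {x : ℝ}
    (h : Yn j 12 (1 / 2) u ≤ Λ z ^ q * x) : 0 ≤ x :=
  le_of_mul_le_mul_left (by rw [mul_zero]; exact (Y_nonneg l0 _ _ _ _).trans h)
    (pow_pos (by linarith [hΛ z]) q)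

theorem Rem.congr (h : Rem L Λ j w r) (e : ∀ᶠ z in L, r z = r' z) : Rem L Λ j w r' := by
  obtain ⟨q, h⟩ := h
  refine ⟨q, ?_⟩
  filter_upwards [h, e] with z h1 h2
  rwa [← h2]

theorem Rem.of_eq (h : Rem L Λ j w r) (e : r = r') : Rem L Λ j w r' := e ▸ h

theorem Rem.cc (h : Rem L Λ j w r) : ∀ᶠ z in L, CC (r z) := by
  obtain ⟨q, h⟩ := h
  exact h.mono fun z hz => hz.1

variable (l0 : L0Facts) (hΛ : ∀ z, 2 ≤ Λ z)
include l0 hΛ

theorem Rem.of_const (C : ℝ) (q : ℕ)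
    (h : ∀ᶠ z in L, CC (r z) ∧ 0 ≤ w z ∧ Yn (tj j) 12 (1 / 2) (r z) ≤ C * Λ z ^ q * w z) :
    Rem L Λ j w r := by
  obtain ⟨p, hp⟩ := l0.absorb C q
  refine ⟨p, h.mono fun z hz => ⟨hz.1, hz.2.2.trans ?_⟩⟩
  exact mul_le_mul_of_nonneg_right (hp _ (hΛ z)) hz.2.1

omit hΛ in
theorem Rem.zero (hw : ∀ z, 0 ≤ w z) : Rem L Λ j w 0 :=
  ⟨0, Eventually.of_forall fun z => ⟨cc_zero, by
    rw [Pi.zero_apply, Y_zero l0, pow_zero, one_mul]; exact hw z⟩⟩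

theorem Rem.add (h : Rem L Λ j w r) (h' : Rem L Λ j w r') : Rem L Λ j w (r + r') := by
  obtain ⟨q, h⟩ := h
  obtain ⟨q', h'⟩ := h'
  refine Rem.of_const l0 hΛ 2 (q + q') ?_
  filter_upwards [h, h'] with z h1 h2
  have w0 := Rem.nonneg l0 hΛ h1.2
  have a1 : Λ z ^ q * w z ≤ Λ z ^ (q + q') * w z :=
    mul_le_mul_of_nonneg_right (pow_le_pow_right₀ (by linarith [hΛ z]) (by omega)) w0
  have a2 : Λ z ^ q' * w z ≤ Λ z ^ (q + q') * w z :=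
    mul_le_mul_of_nonneg_right (pow_le_pow_right₀ (by linarith [hΛ z]) (by omega)) w0
  refine ⟨l0.cc_add h1.1 h2.1, w0, (Y_add l0 _ _ _ h1.1 h2.1).trans ?_⟩
  linarith [h1.2, h2.2]

theorem Rem.smul (c : ℝ) (h : Rem L Λ j w r) : Rem L Λ j w (c • r) := by
  obtain ⟨q, h⟩ := h
  refine Rem.of_const l0 hΛ |c| q (h.mono fun z h1 => ⟨cc_smul c h1.1, Rem.nonneg l0 hΛ h1.2, ?_⟩)
  rw [Pi.smul_apply, Y_smul l0 _ _ _ c h1.1, mul_assoc]
  exact mul_le_mul_of_nonneg_left h1.2 (abs_nonneg c)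

theorem Rem.neg (h : Rem L Λ j w r) : Rem L Λ j w (-r) :=
  (Rem.smul l0 hΛ (-1) h).of_eq (neg_one_smul ℝ r)

theorem Rem.sum {κ : Type} (S : Finset κ) (f : κ → J → Pt → ℝ) (hw : ∀ z, 0 ≤ w z)
    (h : ∀ k, Rem L Λ j w (f k)) : Rem L Λ j w (∑ k ∈ S, f k) := by
  classical
  induction S using Finset.induction_on with
  | empty => simpa using Rem.zero l0 hw
  | insert a S ha ih => rw [Finset.sum_insert ha]; exact Rem.add l0 hΛ (h a) ih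

theorem Rem.mono (h : Rem L Λ j w r) (hj : j ≤ j') (hw : ∀ᶠ z in L, w z ≤ w' z) :
    Rem L Λ j' w' r := by
  obtain ⟨q, h⟩ := h
  refine ⟨q, ?_⟩
  filter_upwards [h, hw] with z h1 h2
  refine ⟨h1.1, (Y_mono l0 _ _ _ (by unfold tj; omega)).trans (h1.2.trans ?_)⟩
  exact mul_le_mul_of_nonneg_left h2 (pow_nonneg (by linarith [hΛ z]) q)

omit hΛ in
theorem Rem.der (h : Rem L Λ j w r) (hj : j < 2) (i : Fin 4) : Rem L Λ (j + 1) w (fD i r) := by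
  obtain ⟨q, h⟩ := h
  refine ⟨q, h.mono fun z h1 => ⟨l0.cc_pd h1.1 i, le_trans ?_ h1.2⟩⟩
  have : tj j = tj (j + 1) + 1 := by unfold tj; omega
  rw [this]
  exact Y_der l0 _ _ _ h1.1 i

variable (pr : ProdFacts)
include pr

theorem Rem.mod_mul {c : J → Pt → ℝ} (hc : Mod L Λ 0 c) (h : Rem L Λ j w r) :
    Rem L Λ j w (c * r) := by
  obtain ⟨q, h⟩ := h
  obtain ⟨hs, p, hp⟩ := hc.2 (tj j)
  obtain ⟨C, hC, H⟩ := pr.mul (tj j) 12 (1 / 2) 0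
  refine Rem.of_const l0 hΛ C (p + q) ?_
  filter_upwards [h, hs, hp] with z h1 h2 h3
  refine ⟨l0.cc_mul h2 h1.1, Rem.nonneg l0 hΛ h1.2, ?_⟩
  have a1 := H _ _ _ h2 h1.1 h3
  rw [sub_zero] at a1
  have a2 : 0 ≤ C * Λ z ^ p := mul_nonneg hC (pow_nonneg (by linarith [hΛ z]) p)
  calc _ ≤ _ := a1
    _ ≤ C * Λ z ^ p * (Λ z ^ q * w z) := mul_le_mul_of_nonneg_left h1.2 a2
    _ = _ := by ring

theorem Rem.mul (h : Rem L Λ j w r) (h' : Rem L Λ j w' r') : Rem L Λ j (w * w') (r * r') := by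
  obtain ⟨q, h⟩ := h
  obtain ⟨q', h'⟩ := h'
  obtain ⟨C, hC, H⟩ := pr.alg (tj j) 12 (1 / 2) le_rfl (by unfold tj; omega) (by unfold tj; omega)
    (by norm_num)
  refine Rem.of_const l0 hΛ C (q + q') ?_
  filter_upwards [h, h'] with z h1 h2
  refine ⟨l0.cc_mul h1.1.1 h2.1,
    mul_nonneg (Rem.nonneg l0 hΛ h1.2) (Rem.nonneg l0 hΛ h2.2), ?_⟩
  have a0 := Y_nonneg l0 (tj j) 12 (1 / 2) (r z)
  have a1 := Y_nonneg l0 (tj j) 12 (1 / 2) (r' z)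
  have a2 := a0.trans h1.2
  calc _ ≤ _ := H _ _ h1.1 h2.1
    _ ≤ C * (Λ z ^ q * w z) * (Λ z ^ q' * w' z) := by gcongr; exacts [h1.2, h2.2]
    _ = _ := by rw [Pi.mul_apply]; ring

theorem Mu.mul (ha : Mu L Λ j a) (h : Rem L Λ j w r) : Rem L Λ j w (a * r) := by
  obtain ⟨c, hc, hr⟩ := ha
  have h1 := Rem.mul l0 hΛ pr hr h
  rw [one_mul] at h1
  exact (Rem.add l0 hΛ (Rem.mod_mul l0 hΛ pr hc h) h1).of_eq (by ring)

end Cls

section Gr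

variable {J : Type} (L : Filter J) (Λ ρ d : J → ℝ)

/-- The graded classes of pairs. -/
def PP : ℕ → ℕ → ℝ → (J → Pt → ℝ) × (J → Pt → ℝ) → Prop
  | 0, j, _, z => ∃ c, Mod L Λ 0 c ∧ Pr L Λ j ρ d (z.1 - c) (z.2 - c)
  | 1, j, _, z => Pr L Λ j ρ d z.1 z.2
  | _ + 2, j, _, z => Pr L Λ j (ρ * ρ) (ρ * d) z.1 z.2

variable {L Λ ρ d} (l0 : L0Facts) (hΛ : ∀ z, 2 ≤ Λ z) {j j' : ℕ} {w w' : J → ℝ}
  {a b a' b' : J → Pt → ℝ}
include l0 hΛ

omit hΛ in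
theorem Pr.zero (hw : ∀ z, 0 ≤ w z) (hw' : ∀ z, 0 ≤ w' z) : Pr L Λ j w w' 0 0 :=
  ⟨Rem.zero l0 hw, Rem.zero l0 hw, (Rem.zero l0 hw').of_eq (sub_zero _).symm⟩

theorem Pr.add (h : Pr L Λ j w w' a b) (h' : Pr L Λ j w w' a' b') :
    Pr L Λ j w w' (a + a') (b + b') :=
  ⟨Rem.add l0 hΛ h.1 h'.1, Rem.add l0 hΛ h.2.1 h'.2.1,
    (Rem.add l0 hΛ h.2.2 h'.2.2).of_eq (by ring)⟩

theorem Pr.smul (c : ℝ) (h : Pr L Λ j w w' a b) : Pr L Λ j w w' (c • a) (c • b) :=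
  ⟨Rem.smul l0 hΛ c h.1, Rem.smul l0 hΛ c h.2.1, (Rem.smul l0 hΛ c h.2.2).of_eq (smul_sub _ _ _)⟩

theorem Pr.mono (h : Pr L Λ j w w' a b) (hj : j ≤ j') : Pr L Λ j' w w' a b :=
  ⟨Rem.mono l0 hΛ h.1 hj (Eventually.of_forall fun _ => le_rfl),
    Rem.mono l0 hΛ h.2.1 hj (Eventually.of_forall fun _ => le_rfl),
    Rem.mono l0 hΛ h.2.2 hj (Eventually.of_forall fun _ => le_rfl)⟩

omit hΛ in
theorem Pr.der (h : Pr L Λ j w w' a b) (hj : j < 2) (i : Fin 4) :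
    Pr L Λ (j + 1) w w' (fD i a) (fD i b) := by
  refine ⟨Rem.der l0 h.1 hj i, Rem.der l0 h.2.1 hj i, (Rem.der l0 h.2.2 hj i).congr ?_⟩
  filter_upwards [h.2.1.cc, h.2.2.cc] with z h1 h2
  have := pd_add' h2.1 h1.1 i
  rw [Pi.sub_apply, sub_add_cancel] at this
  exact eq_sub_of_add_eq this.symm

omit l0 hΛ in
theorem Pr.congr (h : Pr L Λ j w w' a b) (e : ∀ᶠ z in L, a z = a' z) (e' : ∀ᶠ z in L, b z = b' z) :
    Pr L Λ j w w' a' b' := by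
  refine ⟨h.1.congr e, h.2.1.congr e', h.2.2.congr ?_⟩
  filter_upwards [e, e'] with z h1 h2
  rw [Pi.sub_apply, Pi.sub_apply, h1, h2]

theorem Pr.mul0 (pr : ProdFacts) (hρ : ∀ᶠ z in L, ρ z ≤ 1) {c : J → Pt → ℝ} (hc : Mod L Λ 0 c)
    (h : Pr L Λ j ρ d (a - c) (b - c)) (h' : Pr L Λ j w w' a' b')
    (hw : ∀ᶠ z in L, w z * d z ≤ w' z) : Pr L Λ j w w' (a * a') (b * b') := by
  have m1 : Mu L Λ j a := ⟨c, hc, Rem.mono l0 hΛ h.1 le_rfl hρ⟩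
  have m2 : Mu L Λ j b := ⟨c, hc, Rem.mono l0 hΛ h.2.1 le_rfl hρ⟩
  refine ⟨m1.mul l0 hΛ pr h'.1, m2.mul l0 hΛ pr h'.2.1, ?_⟩
  exact (Rem.add l0 hΛ (m1.mul l0 hΛ pr h'.2.2)
    (Rem.mono l0 hΛ (Rem.mul l0 hΛ pr h'.2.1 h.2.2) le_rfl hw)).of_eq (by ring)

theorem grdQ (pr : ProdFacts) (m0 : M0Facts L Λ) (hρ0 : ∀ z, 0 ≤ ρ z) (hd0 : ∀ z, 0 ≤ d z)
    (hρ : ∀ᶠ z in L, ρ z ≤ 1) : GrdQ (pairD (fD (I := J) (n := 4))) (PP L Λ ρ d) := by
  have G := m0.grd_mod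
  have z0 : Mod L Λ 0 (0 : J → Pt → ℝ) := G.zero 0 0 0
  have mulM : ∀ {c c' : J → Pt → ℝ}, Mod L Λ 0 c → Mod L Λ 0 c' → Mod L Λ 0 (c * c') :=
    fun h h' => by simpa using G.mul (d := 0) (j := 0) h h'
  have hρd : ∀ᶠ z in L, ρ z * d z ≤ d z := hρ.mono fun z hz => by nlinarith [hd0 z]
  refine
    { zero := ?_, one := ?_, add := ?_, smul := ?_, mono := ?_, mul := ?_, der := ?_, down := ?_,
      mul11 := ?_ }
  · intro e j m
    rcases e with - | - | e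
    · exact ⟨0, z0, by simpa using Pr.zero l0 hρ0 hd0⟩
    · exact Pr.zero l0 hρ0 hd0
    · exact Pr.zero l0 (fun z => mul_nonneg (hρ0 z) (hρ0 z))
        fun z => mul_nonneg (hρ0 z) (hd0 z)
  · exact ⟨1, G.one, by simpa using Pr.zero l0 hρ0 hd0⟩
  · intro e j m a b h h'
    rcases e with - | - | e
    · obtain ⟨c, hc, h⟩ := h
      obtain ⟨c', hc', h'⟩ := h'
      refine ⟨c + c', G.add (d := 0) (j := 0) hc hc', ?_⟩
      have := Pr.add l0 hΛ h h'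
      rwa [sub_add_sub_comm, sub_add_sub_comm] at this
    · exact Pr.add l0 hΛ h h'
    · exact Pr.add l0 hΛ h h'
  · intro e j m a t h
    rcases e with - | - | e
    · obtain ⟨c, hc, h⟩ := h
      refine ⟨t • c, G.smul (d := 0) (j := 0) t hc, ?_⟩
      have := Pr.smul l0 hΛ t h
      rwa [smul_sub, smul_sub] at this
    · exact Pr.smul l0 hΛ t h
    · exact Pr.smul l0 hΛ t h
  · intro e j j' m m' a h hj _ _
    rcases e with - | - | e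
    · obtain ⟨c, hc, h⟩ := h
      exact ⟨c, hc, Pr.mono l0 hΛ h hj⟩
    · exact Pr.mono l0 hΛ h hj
    · exact Pr.mono l0 hΛ h hj
  · intro e j m m' a b h h'
    obtain ⟨c, hc, h⟩ := h
    rcases e with - | - | e
    · obtain ⟨c', hc', h'⟩ := h'
      refine ⟨c * c', mulM hc hc', ?_⟩
      have a1 := Pr.mul0 l0 hΛ pr hρ hc h h' hρd
      have a2 : Pr L Λ j ρ d (c' * (a.1 - c)) (c' * (a.2 - c)) :=
        ⟨Rem.mod_mul l0 hΛ pr hc' h.1, Rem.mod_mul l0 hΛ pr hc' h.2.1,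
          (Rem.mod_mul l0 hΛ pr hc' h.2.2).of_eq (by ring)⟩
      have a3 := Pr.add l0 hΛ a1 a2
      have e1 : a.1 * (b.1 - c') + c' * (a.1 - c) = (a * b).1 - c * c' := by
        rw [Prod.fst_mul]; ring
      have e2 : a.2 * (b.2 - c') + c' * (a.2 - c) = (a * b).2 - c * c' := by
        rw [Prod.snd_mul]; ring
      rwa [e1, e2] at a3
    · exact Pr.mul0 l0 hΛ pr hρ hc h h' hρd
    · refine Pr.mul0 l0 hΛ pr hρ hc h h' (hρd.mono fun z hz => ?_)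
      rw [Pi.mul_apply, Pi.mul_apply, mul_assoc]
      exact mul_le_mul_of_nonneg_left hz (hρ0 z)
  · intro e j m a i h hj
    rcases e with - | - | e
    · obtain ⟨c, hc, h⟩ := h
      refine ⟨fD i c, G.mono (d := 0) (j := 1) (j' := 1) (G.der (d := 0) (j := 0) i hc two_pos)
        le_rfl one_le_two (by norm_num), (Pr.der l0 h hj i).congr ?_ ?_⟩
      · filter_upwards [h.1.cc, (hc.2 0).1] with z h1 h2
        have := pd_add' h1.1 h2 i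
        rw [Pi.sub_apply, sub_add_cancel] at this
        exact eq_sub_of_add_eq this.symm
      · filter_upwards [h.2.1.cc, (hc.2 0).1] with z h1 h2
        have := pd_add' h1.1 h2 i
        rw [Pi.sub_apply, sub_add_cancel] at this
        exact eq_sub_of_add_eq this.symm
    · exact Pr.der l0 h hj i
    · exact Pr.der l0 h hj i
  · intro j m a h
    exact ⟨0, z0, by rw [sub_zero, sub_zero]; exact h⟩
  · intro j m m' a b h h'
    refine ⟨Rem.mul l0 hΛ pr h.1 h'.1, Rem.mul l0 hΛ pr h.2.1 h'.2.1, ?_⟩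
    exact (Rem.add l0 hΛ (Rem.mul l0 hΛ pr h.1 h'.2.2) (Rem.mul l0 hΛ pr h'.2.1 h.2.2)).of_eq
      (by rw [Prod.fst_mul, Prod.snd_mul]; ring)

end Gr

/-- The resolvent identity. -/
theorem inv_id {g g' : Pt → Mat} {w : Fin 4 × Fin 4 → Pt → ℝ} (h1 : ∀ y, (g y).PosDef)
    (h2 : ∀ y, (g' y).PosDef) (hw : ∀ y a b, g' y a b - g y a b = w (a, b) y) (a b : Fin 4) :
    Gf g' a b - Gf g a b = -∑ x : Fin 4 × Fin 4, Gf g' a x.1 * (Gf g x.2 b * w x) := by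
  funext y
  have e := Matrix.inv_sub_inv (A := g' y) (B := g y) (iff_of_true (h2 y).isUnit (h1 y).isUnit)
  have e1 := congrFun (congrFun e a) b
  simp only [Matrix.sub_apply, Matrix.mul_apply, Finset.sum_mul] at e1
  simp only [Pi.sub_apply, Pi.neg_apply, Finset.sum_apply, Pi.mul_apply, Gf, Fintype.sum_prod_type]
  rw [e1, Finset.sum_comm, ← Finset.sum_neg_distrib]
  refine Finset.sum_congr rfl fun c _ => ?_
  rw [← Finset.sum_neg_distrib]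
  refine Finset.sum_congr rfl fun e _ => ?_
  rw [← hw]
  ring

theorem qf_add (g : Mat) (u : Fin 4 → Fin 4 → ℝ) (ε : ℝ) (hu : ∀ a b, |u a b| ≤ ε) (ξ : Pt) :
    qf g ξ - 16 * ε * nsq ξ ≤ qf (g + Matrix.of u) ξ := by
  have h1 : ∀ a, ξ a ^ 2 ≤ nsq ξ := fun a =>
    Finset.single_le_sum (f := fun i => ξ i ^ 2) (fun _ _ => sq_nonneg _) (Finset.mem_univ a)
  have h2 : ∀ a b, g a b * (ξ a * ξ b) - ε * nsq ξ ≤ (g + Matrix.of u) a b * (ξ a * ξ b) := by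
    intro a b
    have a1 : |ξ a * ξ b| ≤ nsq ξ :=
      abs_le.2 ⟨by nlinarith [h1 a, h1 b, sq_nonneg (ξ a + ξ b)],
        by nlinarith [h1 a, h1 b, sq_nonneg (ξ a - ξ b)]⟩
    have a2 : |u a b * (ξ a * ξ b)| ≤ ε * nsq ξ := by
      rw [abs_mul]
      exact mul_le_mul (hu a b) a1 (abs_nonneg _) ((abs_nonneg _).trans (hu a b))
    rw [Matrix.add_apply, Matrix.of_apply]
    linarith [(abs_le.1 a2).1]
  have h3 := Finset.sum_le_sum (s := Finset.univ) fun a _ =>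
    Finset.sum_le_sum (s := Finset.univ) fun b _ => h2 a b
  simp only [Finset.sum_sub_distrib, Finset.sum_const, Finset.card_univ, Fintype.card_fin,
    nsmul_eq_mul, Nat.cast_ofNat] at h3
  unfold qf
  linarith

theorem addM_ok (l0 : L0Facts) {g : Pt → Mat} {u : Fin 4 × Fin 4 → Pt → ℝ} {e A ε : ℝ}
    (hs : ∀ a b, ContDiff ℝ ∞ (gf g a b)) (hy : ∀ y, (g y).IsSymm)
    (hA : ∀ a b, Sym 0 0 (gf g a b) A) (he : 0 < e) (hq : ∀ y ξ, e * nsq ξ ≤ qf (g y) ξ)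
    (hu : Adm Prod.swap u) (hε : ∀ α y, |u α y| ≤ ε) (h32 : 32 * ε ≤ e) :
    (∀ a b, ContDiff ℝ ∞ (Gf (addM g u) a b)) ∧ ∀ y, (addM g u y).PosDef := by
  obtain ⟨p, hp⟩ := l0.inv 0
  have n0 : ∀ ξ : Pt, 0 ≤ nsq ξ := fun ξ => Finset.sum_nonneg fun _ _ => sq_nonneg _
  obtain ⟨h1, -, h3⟩ := hp Set.univ (addM g u) (max 2 (max (2 / e) (A + ε))) (le_max_left _ _)
    (fun a b y _ => ((hs a b).add (hu.1 (a, b)).1).contDiffAt)
    (fun y => (hy y).add (Matrix.IsSymm.ext fun a b => congrFun (hu.2 (a, b)) y))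
    (fun a b y _ => by
      have a1 : |g y a b| ≤ A * wt 0 y := hA a b y trivial
      show |g y a b + u (a, b) y| ≤ _ * wt 0 y
      rw [l0.wt_zero, mul_one] at a1 ⊢
      exact ((abs_add_le _ _).trans (add_le_add a1 (hε _ _))).trans
        ((le_max_right _ _).trans (le_max_right _ _)))
    (fun y _ ξ => by
      have a1 := qf_add (g y) (fun a b => u (a, b) y) ε (fun a b => hε _ _) ξ
      have a2 : (max 2 (max (2 / e) (A + ε)))⁻¹ ≤ e / 2 := by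
        rw [← inv_div 2 e]
        exact inv_anti₀ (div_pos two_pos he) ((le_max_left _ _).trans (le_max_right _ _))
      have a3 := mul_le_mul_of_nonneg_right a2 (n0 ξ)
      have a4 := mul_le_mul_of_nonneg_right h32 (n0 ξ)
      have a5 := hq y ξ
      show _ ≤ qf (g y + Matrix.of fun a b => u (a, b) y) ξ
      linarith)
  exact ⟨fun a b => contDiff_iff_contDiffAt.2 fun y => h1 a b y trivial, fun y => (h3 y trivial).1⟩

theorem dm_bound (l0 : L0Facts) (pr : ProdFacts) : ∃ C : ℝ, 0 ≤ C ∧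
    ∀ (G G' : Fin 4 → Fin 4 → Pt → ℝ) (u : Fin 4 × Fin 4 → Pt → ℝ) (A X : ℝ),
      (∀ a b, ContDiff ℝ ∞ (G a b)) → (∀ a b, ContDiff ℝ ∞ (G' a b)) →
      (∀ a b, Sym 0 14 (G a b) A) → 0 ≤ A → (∀ α, CC (u α)) →
      (∀ α, Yn 14 12 (1 / 2) (u α) ≤ X) → C * A * X ≤ 1 →
      (∀ a b, G' a b - G a b = -∑ x : Fin 4 × Fin 4, G' a x.1 * (G x.2 b * u x)) →
      ∀ a b, CC (G' a b - G a b) ∧ Yn 14 12 (1 / 2) (G' a b - G a b) ≤ C * A ^ 2 * X := by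
  obtain ⟨C, hC, H⟩ := pr.mul 14 12 (1 / 2) 0
  obtain ⟨C', hC', H'⟩ := pr.alg 14 12 (1 / 2) le_rfl (by norm_num) (by norm_num) (by norm_num)
  rw [sub_zero] at H
  refine ⟨512 * (C * C + C' * C), by positivity, fun G G' u A X hG hG' hA hA0 hu hX hs hid => ?_⟩
  have X0 : 0 ≤ X := (Y_nonneg l0 _ _ _ _).trans (hX (0, 0))
  have c1 : ∀ x b, CC (G x.2 b * u x) := fun x b => l0.cc_mul (hG _ _) (hu x)
  have c2 : ∀ a b, CC (G' a b - G a b) := fun a b => by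
    rw [hid]
    exact (Y_neg l0 0 0 0 (Y_sum l0 0 0 0 _ _ fun x => l0.cc_mul (hG' _ _) (c1 x b)).1).1
  have b1 : ∀ x b, Yn 14 12 (1 / 2) (G x.2 b * u x) ≤ C * A * X := fun x b =>
    (H _ _ _ (hG _ _) (hu x) (hA _ _)).trans (mul_le_mul_of_nonneg_left (hX x) (by positivity))
  set N := ∑ x : Fin 4 × Fin 4, Yn 14 12 (1 / 2) (G' x.1 x.2 - G x.1 x.2) with hN
  have b2 : ∀ a b, Yn 14 12 (1 / 2) (G' a b - G a b) ≤ N := fun a b =>
    Finset.single_le_sum (f := fun x : Fin 4 × Fin 4 => Yn 14 12 (1 / 2) (G' x.1 x.2 - G x.1 x.2))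
      (fun _ _ => Y_nonneg l0 _ _ _ _) (Finset.mem_univ (a, b))
  have N0 : 0 ≤ N := (Y_nonneg l0 _ _ _ _).trans (b2 0 0)
  have b3 : ∀ a b (x : Fin 4 × Fin 4), Yn 14 12 (1 / 2) (G' a x.1 * (G x.2 b * u x)) ≤
      C * A * (C * A * X) + C' * N * (C * A * X) := by
    intro a b x
    have e : G' a x.1 * (G x.2 b * u x) =
        G a x.1 * (G x.2 b * u x) + (G' a x.1 - G a x.1) * (G x.2 b * u x) := by ring
    rw [e]
    refine (Y_add l0 _ _ _ (l0.cc_mul (hG _ _) (c1 x b)) (l0.cc_mul (c2 _ _).1 (c1 x b))).trans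
      (add_le_add ?_ ?_)
    · exact (H _ _ _ (hG _ _) (c1 x b) (hA _ _)).trans
        (mul_le_mul_of_nonneg_left (b1 x b) (by positivity))
    · refine (H' _ _ (c2 _ _) (c1 x b)).trans ?_
      have := Y_nonneg l0 14 12 (1 / 2) (G x.2 b * u x)
      gcongr
      exacts [b2 _ _, b1 x b]
  have b4 : ∀ a b, Yn 14 12 (1 / 2) (G' a b - G a b) ≤
      16 * (C * A * (C * A * X) + C' * N * (C * A * X)) := by
    intro a b
    have s1 := Y_sum l0 14 12 (1 / 2) Finset.univ _ fun x => l0.cc_mul (hG' a x.1) (c1 x b)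
    rw [hid, (Y_neg l0 _ _ _ s1.1).2]
    refine s1.2.trans ((Finset.sum_le_sum fun x _ => b3 a b x).trans (le_of_eq ?_))
    rw [Finset.sum_const, nsmul_eq_mul]
    simp
  have b5 : N ≤ 16 * (16 * (C * A * (C * A * X) + C' * N * (C * A * X))) := by
    refine (Finset.sum_le_sum fun x _ => b4 x.1 x.2).trans (le_of_eq ?_)
    simp
  have b6 : 512 * (C' * C * A * X) ≤ 1 := by
    have : 0 ≤ C * C * A * X := by positivity
    nlinarith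
  have b7 : 512 * (C' * C * A * X) * N ≤ 1 * N := mul_le_mul_of_nonneg_right b6 N0
  have b8 : 0 ≤ C' * C * A ^ 2 * X := by positivity
  exact fun a b => ⟨c2 a b, (b2 a b).trans (by nlinarith)⟩

theorem ex_unif {I κ : Type} [Fintype κ] {l : Filter I} (P : κ → ℕ → I → Prop)
    (hm : ∀ k q q' z, q ≤ q' → P k q z → P k q' z) (h : ∀ k, ∃ q, ∀ᶠ z in l, P k q z) :
    ∃ q, ∀ᶠ z in l, ∀ k, P k q z := by
  choose q hq using h
  refine ⟨∑ k, q k, (eventually_all.2 hq).mono fun z hz k => hm k _ _ z ?_ (hz k)⟩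
  exact Finset.single_le_sum (fun _ _ => Nat.zero_le _) (Finset.mem_univ k)

theorem mod_unif (l0 : L0Facts) {I : Type} {l : Filter I} {Λ : I → ℝ} (hΛ : ∀ i, 2 ≤ Λ i)
    {F : Fin 4 → Fin 4 → I → Pt → ℝ} (h : ∀ a b, Mod l Λ 0 (F a b)) (k : ℕ) :
    ∃ q : ℕ, ∀ᶠ i in l, ∀ a b, ContDiff ℝ ∞ (F a b i) ∧ Sym 0 k (F a b i) (Λ i ^ q) := by
  obtain ⟨q, hq⟩ := ex_unif (l := l) (fun (x : Fin 4 × Fin 4) q i =>
    ContDiff ℝ ∞ (F x.1 x.2 i) ∧ Sym 0 k (F x.1 x.2 i) (Λ i ^ q))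
    (fun x q q' i hq h => ⟨h.1, l0.mono h.2 subset_rfl le_rfl le_rfl
      (pow_le_pow_right₀ (by linarith [hΛ i]) hq)⟩)
    fun x => by
      obtain ⟨h1, p, h2⟩ := (h x.1 x.2).2 k
      exact ⟨p, h1.and h2⟩
  exact ⟨q, hq.mono fun i hi a b => hi (a, b)⟩

theorem mod_comp {I J : Type} {l : Filter I} {L : Filter J} {Λ : I → ℝ} {f : J → I}
    (hf : Tendsto f L l) {m : ℝ} {F : I → Pt → ℝ} (h : Mod l Λ m F) :
    Mod L (fun z => Λ (f z)) m fun z => F (f z) :=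
  ⟨hf.eventually h.1, fun k => ⟨hf.eventually (h.2 k).1, by
    obtain ⟨p, hp⟩ := (h.2 k).2
    exact ⟨p, hf.eventually hp⟩⟩⟩

theorem small {K C X : ℝ} {p p' : ℕ} (hK : 2 ≤ K) (h : C ≤ K ^ p) (hp : p ≤ p') (X0 : 0 ≤ X)
    (hX : X ≤ (K ^ p')⁻¹) : C * X ≤ 1 := by
  have k0 : 0 < K ^ p' := pow_pos (by linarith) _
  calc C * X ≤ K ^ p' * X :=
        mul_le_mul_of_nonneg_right (h.trans (pow_le_pow_right₀ (by linarith) hp)) X0
    _ ≤ K ^ p' * (K ^ p')⁻¹ := mul_le_mul_of_nonneg_left hX k0.le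
    _ = 1 := mul_inv_cancel₀ k0.ne'

theorem gQ_fst {J : Type} (G : Fin 4 → Fin 4 → (J → Pt → ℝ) × (J → Pt → ℝ))
    (Γ : Fin 4 → Fin 4 → Fin 4 → (J → Pt → ℝ) × (J → Pt → ℝ))
    (Dm h : Fin 4 → Fin 4 → (J → Pt → ℝ) × (J → Pt → ℝ)) (a b : Fin 4) (z : J) :
    (gQ (pairD (fD (I := J) (n := 4))) G Γ Dm h a b).1 z = gQ pd (fun a b => (G a b).1 z)
      (fun k a b => (Γ k a b).1 z) (fun a b => (Dm a b).1 z) (fun a b => (h a b).1 z) a b := by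
  obtain ⟨π, hπ⟩ : ∃ π : (J → Pt → ℝ) × (J → Pt → ℝ) →ₐ[ℝ] Pt → ℝ, ∀ x, π x = x.1 z :=
    ⟨(Pi.evalAlgHom ℝ (fun _ : J => Pt → ℝ) z).comp (AlgHom.fst ℝ _ _), fun _ => rfl⟩
  have := map_gQ (D := pairD (fD (I := J) (n := 4))) (D' := pd) π
    (fun _ _ => by rw [hπ, hπ]; rfl) G Γ Dm h a b
  simp only [hπ] at this
  exact this

theorem gQ_snd {J : Type} (G : Fin 4 → Fin 4 → (J → Pt → ℝ) × (J → Pt → ℝ))
    (Γ : Fin 4 → Fin 4 → Fin 4 → (J → Pt → ℝ) × (J → Pt → ℝ))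
    (Dm h : Fin 4 → Fin 4 → (J → Pt → ℝ) × (J → Pt → ℝ)) (a b : Fin 4) (z : J) :
    (gQ (pairD (fD (I := J) (n := 4))) G Γ Dm h a b).2 z = gQ pd (fun a b => (G a b).2 z)
      (fun k a b => (Γ k a b).2 z) (fun a b => (Dm a b).2 z) (fun a b => (h a b).2 z) a b := by
  obtain ⟨π, hπ⟩ : ∃ π : (J → Pt → ℝ) × (J → Pt → ℝ) →ₐ[ℝ] Pt → ℝ, ∀ x, π x = x.2 z :=
    ⟨(Pi.evalAlgHom ℝ (fun _ : J => Pt → ℝ) z).comp (AlgHom.snd ℝ _ _), fun _ => rfl⟩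
  have := map_gQ (D := pairD (fD (I := J) (n := 4))) (D' := pd) π
    (fun _ _ => by rw [hπ, hπ]; rfl) G Γ Dm h a b
  simp only [hπ] at this
  exact this

/-- The inverse of the perturbed metric. -/
theorem pert (l0 : L0Facts) (sob : SobStmt) (pr : ProdFacts) {I : Type} {l : Filter I}
    {Λ : I → ℝ} (hΛ : ∀ i, 2 ≤ Λ i) (m0 : M0Facts l Λ) {g : I → Pt → Mat} (he : EllF l Λ g)
    (hg : ∀ a b, Mod l Λ 0 fun i => gf (g i) a b) :
    ∃ (p q : ℕ) (C : ℝ), 1 ≤ p ∧ 0 ≤ C ∧ ∀ᶠ i in l, ∀ u, Adm Prod.swap u →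
      XV 12 (1 / 2) u ≤ (Λ i ^ p)⁻¹ →
      (∀ y, (addM (g i) u y).PosDef) ∧ ∀ a b, CC (Gf (addM (g i) u) a b - Gf (g i) a b) ∧
        Yn 14 12 (1 / 2) (Gf (addM (g i) u) a b - Gf (g i) a b) ≤
          C * Λ i ^ q * XV 12 (1 / 2) u := by
  obtain ⟨hG, hm, -⟩ := m0.inv g he hg
  obtain ⟨qG, hqG⟩ := mod_unif l0 hΛ hG 14
  obtain ⟨qg, hqg⟩ := mod_unif l0 hΛ hg 0
  obtain ⟨hy, pe, hpe⟩ := he
  obtain ⟨Cs, Cs0, hCs⟩ := sob (1 / 2) 0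
  obtain ⟨C, C0, hC⟩ := dm_bound l0 pr
  obtain ⟨p1, hp1⟩ := l0.absorb (32 * Cs) pe
  obtain ⟨p2, hp2⟩ := l0.absorb C qG
  refine ⟨p1 + p2 + 1, qG * 2, C, by omega, C0, ?_⟩
  filter_upwards [hm, hqG, hqg, hpe] with i h1 h2 h3 h4 u hu hX
  have X0 := X_nonneg l0 u
  have k0 : 0 < Λ i := by linarith [hΛ i]
  have a1 : ∀ α y, |u α y| ≤ Cs * XV 12 (1 / 2) u := by
    intro α y
    have b1 : |u α y| ≤ Cs * Yn 4 4 (1 / 2) (u α) * wt (-(1 / 2)) y := hCs _ (hu.1 α) y trivial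
    have b2 : wt (-(1 / 2)) y ≤ 1 := (l0.wt_mono (by norm_num) y).trans (l0.wt_zero y).le
    have b3 := (Y_four l0 (1 / 2) (u α)).trans (Y_le_X l0 u α)
    have b4 := Y_nonneg l0 4 4 (1 / 2) (u α)
    have b5 := (l0.wt_pos (-(1 / 2)) y).le
    calc _ ≤ _ := b1
      _ ≤ Cs * XV 12 (1 / 2) u * 1 := by gcongr
      _ = _ := mul_one _
  have a2 : 32 * (Cs * XV 12 (1 / 2) u) ≤ (Λ i ^ pe)⁻¹ := by
    have := small (hΛ i) (hp1 _ (hΛ i)) (show p1 ≤ p1 + p2 + 1 by omega) X0 hX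
    rw [← one_div, le_div_iff₀ (pow_pos k0 _)]
    linarith
  obtain ⟨s1, s2⟩ := addM_ok l0 (fun a b => (h3 a b).1) (hy i) (fun a b => (h3 a b).2)
    (inv_pos.2 (pow_pos k0 _)) h4 hu a1 a2
  refine ⟨s2, fun a b => ?_⟩
  rw [pow_mul]
  exact hC (Gf (g i)) (Gf (addM (g i) u)) u _ _ (fun a b => (h2 a b).1) s1 (fun a b => (h2 a b).2)
    (pow_pos k0 _).le hu.1 (Y_le_X l0 u)
    (small (hΛ i) (hp2 _ (hΛ i)) (show p2 ≤ p1 + p2 + 1 by omega) X0 hX)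
    (inv_id (fun y => h1.2 y trivial) s2 fun y a b => by simp [addM]) a b

end QtLip

open QtLip in
theorem qtLip (b1 : B1Stmt) (l0 : L0Facts) (m0 : M0Stmt) (sob : SobStmt) (pr : ProdFacts)
    (t9 : T9Stmt) : QtLipStmt := by
  intro I l Λ hΛ g he hg
  have M := m0.1 I l Λ hΛ
  obtain ⟨p, q, C, hp, C0, H⟩ := pert l0 sob pr hΛ M he hg
  have hG := (M.inv g he hg).1
  have hΓ := ((t9.1 _ _ _ _ M.grd_mod).chr (fun a b i => gf (g i) a b) (fun a b i => Gf (g i) a b)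
    hg hG).1
  have eΓ : ∀ k a b i, gChr (fD (I := I) (n := 4)) (fun a b i => gf (g i) a b)
      (fun a b i => Gf (g i) a b) k a b i = chrF (g i) k a b := fun k a b i =>
    map_gChr (D := fD (I := I) (n := 4)) (D' := pd) (Pi.evalAlgHom ℝ (fun _ : I => Pt → ℝ) i)
      (fun _ _ => rfl) (fun a b i => gf (g i) a b) (fun a b i => Gf (g i) a b) k a b
  have hΓ' : ∀ k a b, Mod l Λ 0 fun i => chrF (g i) k a b := fun k a b => by
    have := M.grd_mod.mono (d := 0) (j := 1) (j' := 1) (m' := 0) (hΓ k a b) le_rfl one_le_two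
      (by norm_num)
    rwa [show gChr _ _ _ k a b = _ from funext (eΓ k a b)] at this
  let V := Fin 4 × Fin 4 → Pt → ℝ
  let ok : I × V × V → Prop := fun z => Adm Prod.swap z.2.1 ∧ Adm Prod.swap z.2.2 ∧
    XV 12 (1 / 2) z.2.1 ≤ (Λ z.1 ^ p)⁻¹ ∧ XV 12 (1 / 2) z.2.2 ≤ (Λ z.1 ^ p)⁻¹
  let L : Filter (I × V × V) := comap Prod.fst l ⊓ 𝓟 {z | ok z}
  have hT : Tendsto Prod.fst L l := tendsto_comap.mono_left inf_le_left
  have hok : ∀ᶠ z in L, ok z := eventually_inf_principal.2 (Eventually.of_forall fun _ h => h)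
  have hΛ' : ∀ z : I × V × V, 2 ≤ Λ z.1 := fun z => hΛ z.1
  let ρ : I × V × V → ℝ := fun z => XV 12 (1 / 2) z.2.1 + XV 12 (1 / 2) z.2.2
  let d : I × V × V → ℝ := fun z => XV 12 (1 / 2) (z.2.1 - z.2.2)
  have hρ0 : ∀ z, 0 ≤ ρ z := fun z => add_nonneg (X_nonneg l0 _) (X_nonneg l0 _)
  have hd0 : ∀ z, 0 ≤ d z := fun z => X_nonneg l0 _
  have le1 : ∀ z : I × V × V, XV 12 (1 / 2) z.2.1 ≤ ρ z := fun z =>
    le_add_of_nonneg_right (X_nonneg l0 z.2.2)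
  have le2 : ∀ z : I × V × V, XV 12 (1 / 2) z.2.2 ≤ ρ z := fun z =>
    le_add_of_nonneg_left (X_nonneg l0 z.2.1)
  have hρ : ∀ᶠ z in L, ρ z ≤ 1 := hok.mono fun z hz => by
    have a1 := small (hΛ z.1) (show 2 ≤ Λ z.1 ^ 1 by simpa using hΛ z.1) hp (X_nonneg l0 _) hz.2.2.1
    have a2 := small (hΛ z.1) (show 2 ≤ Λ z.1 ^ 1 by simpa using hΛ z.1) hp (X_nonneg l0 _) hz.2.2.2
    show _ + _ ≤ _
    linarith
  have GQ := grdQ (d := d) l0 hΛ' pr (m0.1 _ L _ hΛ') hρ0 hd0 hρ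
  have diag : ∀ {F : I → Pt → ℝ}, Mod l Λ 0 F →
      PP L (fun z => Λ z.1) ρ d 0 0 0 (fun z => F z.1, fun z => F z.1) := fun h =>
    ⟨_, mod_comp hT h, by simpa using Pr.zero l0 hρ0 hd0⟩
  have ru : ∀ α, Rem L (fun z => Λ z.1) 0 ρ fun z => z.2.1 α := fun α =>
    ⟨0, hok.mono fun z hz => ⟨hz.1.1 α, (Y_le_X l0 _ α).trans (by
      rw [pow_zero, one_mul]; exact le1 z)⟩⟩
  have rv : ∀ α, Rem L (fun z => Λ z.1) 0 ρ fun z => z.2.2 α := fun α =>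
    ⟨0, hok.mono fun z hz => ⟨hz.2.1.1 α, (Y_le_X l0 _ α).trans (by
      rw [pow_zero, one_mul]; exact le2 z)⟩⟩
  have rd : ∀ α, Rem L (fun z => Λ z.1) 0 d fun z => (z.2.1 - z.2.2) α := fun α =>
    ⟨0, hok.mono fun z hz => ⟨by
      show CC (z.2.1 α - z.2.2 α)
      rw [sub_eq_add_neg]
      exact l0.cc_add (hz.1.1 α) (Y_neg l0 0 0 0 (hz.2.1.1 α)).1, by
      rw [pow_zero, one_mul]; exact Y_le_X l0 _ α⟩⟩
  have eρ : ∀ z, ρ z = XV 12 (1 / 2) z.2.1 + XV 12 (1 / 2) z.2.2 := fun _ => rfl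
  have ed : ∀ z, d z = XV 12 (1 / 2) (z.2.1 - z.2.2) := fun _ => rfl
  clear_value ρ d
  have H' := hT.eventually H
  have c0 : ∀ i, 0 ≤ C * Λ i ^ q := fun i => mul_nonneg C0 (pow_nonneg (by linarith [hΛ i]) q)
  have du : ∀ a b, Rem L (fun z => Λ z.1) 0 ρ
      fun z => Gf (addM (g z.1) z.2.1) a b - Gf (g z.1) a b := fun a b => by
    refine Rem.of_const l0 hΛ' C q ?_
    filter_upwards [H', hok] with z h1 h2
    have := (h1 _ h2.1 h2.2.2.1).2 a b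
    exact ⟨this.1, hρ0 z, this.2.trans (mul_le_mul_of_nonneg_left (le1 z) (c0 z.1))⟩
  have dv : ∀ a b, Rem L (fun z => Λ z.1) 0 ρ
      fun z => Gf (addM (g z.1) z.2.2) a b - Gf (g z.1) a b := fun a b => by
    refine Rem.of_const l0 hΛ' C q ?_
    filter_upwards [H', hok] with z h1 h2
    have := (h1 _ h2.2.1 h2.2.2.2).2 a b
    exact ⟨this.1, hρ0 z, this.2.trans (mul_le_mul_of_nonneg_left (le2 z) (c0 z.1))⟩
  have mu : ∀ a b, Mu L (fun z => Λ z.1) 0 fun z => Gf (addM (g z.1) z.2.1) a b := fun a b =>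
    ⟨_, mod_comp hT (hG a b), Rem.mono l0 hΛ' (du a b) le_rfl hρ⟩
  have mv : ∀ a b, Mu L (fun z => Λ z.1) 0 fun z => Gf (addM (g z.1) z.2.2) a b := fun a b =>
    ⟨_, mod_comp hT (hG a b), Rem.mono l0 hΛ' (dv a b) le_rfl hρ⟩
  have dd : ∀ a b, Rem L (fun z => Λ z.1) 0 d
      ((fun z => Gf (addM (g z.1) z.2.1) a b - Gf (g z.1) a b) -
        fun z => Gf (addM (g z.1) z.2.2) a b - Gf (g z.1) a b) := fun a b => by
    refine (Rem.neg l0 hΛ' (Rem.sum l0 hΛ' Finset.univ _ hd0 fun x : Fin 4 × Fin 4 =>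
      (mu a x.1).mul l0 hΛ' pr ((mv x.2 b).mul l0 hΛ' pr (rd x)))).congr ?_
    filter_upwards [H', hok] with z h1 h2
    have := inv_id (w := z.2.1 - z.2.2) (h1 _ h2.2.1 h2.2.2.2).1 (h1 _ h2.1 h2.2.2.1).1
      (fun y a b => add_sub_add_left_eq_sub _ _ _) a b
    rw [Pi.sub_apply, sub_sub_sub_cancel_right, this, Pi.neg_apply, Finset.sum_apply]
    rfl
  have key := t9.2 _ _ _ _ GQ (fun a b => (fun z => Gf (g z.1) a b, fun z => Gf (g z.1) a b))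
    (fun k a b => (fun z => chrF (g z.1) k a b, fun z => chrF (g z.1) k a b))
    (fun a b => (fun z => Gf (addM (g z.1) z.2.1) a b - Gf (g z.1) a b,
      fun z => Gf (addM (g z.1) z.2.2) a b - Gf (g z.1) a b))
    (fun a b => (fun z => z.2.1 (a, b), fun z => z.2.2 (a, b)))
    (fun a b => diag (hG a b)) (fun k a b => diag (hΓ' k a b))
    (fun a b => ⟨du a b, dv a b, dd a b⟩) fun a b => ⟨ru (a, b), rv (a, b), rd (a, b)⟩
  have key2 : ∀ α, Rem L (fun z => Λ z.1) 2 (ρ * d)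
      fun z => (nlQ (g z.1) z.2.1 - nlQ (g z.1) z.2.2) α := fun α => by
    refine (key α.1 α.2).2.2.of_eq (funext fun z => ?_)
    rw [Pi.sub_apply, gQ_fst, gQ_snd]
    rfl
  obtain ⟨q1, h1⟩ := ex_unif (l := L) (fun (α : Fin 4 × Fin 4) q z =>
    Yn 12 12 (1 / 2) ((nlQ (g z.1) z.2.1 - nlQ (g z.1) z.2.2) α) ≤ Λ z.1 ^ q * (ρ z * d z))
    (fun α q q' z hq h => h.trans (mul_le_mul_of_nonneg_right
      (pow_le_pow_right₀ (by linarith [hΛ z.1]) hq) (mul_nonneg (hρ0 z) (hd0 z))))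
    fun α => by
      obtain ⟨q, hq⟩ := key2 α
      exact ⟨q, hq.mono fun z hz => hz.2⟩
  obtain ⟨q2, h2⟩ := l0.absorb 16 q1
  refine ⟨p + q2, ?_⟩
  filter_upwards [eventually_comap.1 (eventually_inf_principal.1 h1)] with i hi u v hu hv xu xv
  have k1 : 1 ≤ Λ i := by linarith [hΛ i]
  have a1 : (Λ i ^ (p + q2))⁻¹ ≤ (Λ i ^ p)⁻¹ :=
    inv_anti₀ (by positivity) (pow_le_pow_right₀ k1 (by omega))
  have a2 := hi (i, u, v) rfl ⟨hu, hv, xu.trans a1, xv.trans a1⟩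
  have a3 : 16 * Λ i ^ q1 ≤ Λ i ^ (p + q2) := (h2 _ (hΛ i)).trans (pow_le_pow_right₀ k1 (by omega))
  have a4 := mul_nonneg (hρ0 (i, u, v)) (hd0 (i, u, v))
  calc _ ≤ ∑ _α : Fin 4 × Fin 4, Λ i ^ q1 * (ρ (i, u, v) * d (i, u, v)) :=
        Finset.sum_le_sum fun α _ => a2 α
    _ = 16 * Λ i ^ q1 * (ρ (i, u, v) * d (i, u, v)) := by simp [mul_assoc]
    _ ≤ Λ i ^ (p + q2) * (ρ (i, u, v) * d (i, u, v)) := mul_le_mul_of_nonneg_right a3 a4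
    _ = _ := by rw [eρ, ed, mul_assoc]

end Pool.Agent.Lib.MP_df9110_gt
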