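import Pool.Agent.Lib.MP_df9110_gt.NBaseS

-- part Pool.Agent.Lib.MP_df9110_gt.B2
section

/-! The classes of smooth germs with derivative bounds. -/

namespace Pool.Agent.Lib.MP_df9110_gt

open Filter Topology
open scoped ContDiff

namespace B2

theorem exp_one_le (x : ℝ) : |Real.exp x - 1| ≤ |x| * Real.exp |x| := by
  have := Complex.norm_exp_sub_sum_le_norm_mul_exp x 1
  simp only [Finset.sum_range_succ, Finset.sum_range_zero] at this
  norm_num at this
  exact_mod_cast this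

theorem exp_two_le (x : ℝ) : |Real.exp x - 1 - x| ≤ |x| ^ 2 * Real.exp |x| := by
  have := Complex.norm_exp_sub_sum_le_norm_mul_exp x 2
  simp only [Finset.sum_range_succ, Finset.sum_range_zero] at this
  norm_num at this
  rw [sub_sub, sq_abs]
  exact_mod_cast this

theorem log_le {c x : ℝ} (hc : 0 < c) (h : c ≤ x) : |Real.log x| ≤ (1 + c⁻¹) * |x - 1| := by
  have hx : 0 < x := hc.trans_le h
  have h1 := Real.log_le_sub_one_of_pos hx
  have h2 := Real.one_sub_inv_le_log_of_pos hx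
  have h3 : x⁻¹ ≤ c⁻¹ := inv_anti₀ hc h
  have h4 : 1 - x⁻¹ = x⁻¹ * (x - 1) := by field_simp
  have h5 := inv_pos.2 hx
  have h6 := neg_abs_le (x - 1)
  have h7 := le_abs_self (x - 1)
  have h8 := abs_nonneg (x - 1)
  rw [abs_le]
  constructor <;> nlinarith

variable {I : Type} {n : ℕ} {l : Filter (I × En n)} {ρ w w' : I × En n → ℝ} {k : ℕ}

theorem wle_nonneg (h : WLe l w w') : ∃ C : ℝ, 0 ≤ C ∧ ∀ᶠ z in l, |w z| ≤ C * |w' z| := by
  obtain ⟨C, hC⟩ := h
  refine ⟨max C 0, le_max_right _ _, hC.mono fun z hz => hz.trans ?_⟩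
  gcongr
  exact le_max_left _ _

theorem wle_of_eq (h : ∀ z, w z = w' z) : WLe l w w' :=
  ⟨1, Eventually.of_forall fun z => by rw [h, one_mul]⟩

theorem wle_trans {w'' : I × En n → ℝ} (h : WLe l w w') (h' : WLe l w' w'') : WLe l w w'' := by
  obtain ⟨C, hC0, hC⟩ := wle_nonneg h
  obtain ⟨D, hD⟩ := h'
  refine ⟨C * D, ?_⟩
  filter_upwards [hC, hD] with z h1 h2
  rw [mul_assoc]
  exact h1.trans (mul_le_mul_of_nonneg_left h2 hC0)

theorem wle_congr {u v : I × En n → ℝ} (h : ∀ᶠ z in l, u z = v z) (h' : WLe l u w) : WLe l v w :=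
  h'.imp fun C hC => by filter_upwards [h, hC] with z h1 h2 using h1 ▸ h2

theorem rep_mk (F : SmF l) : ∀ᶠ z in l, (rep (mkG l F)).1 z.1 z.2 = F.1 z.1 z.2 :=
  mkG_eq.1 (mkG_rep _)

theorem pos_iff (F : SmF l) : PosG (mkG l F) ↔ ∃ c : ℝ, 0 < c ∧ ∀ᶠ z in l, c ≤ F.1 z.1 z.2 :=
  exists_congr fun _ => and_congr_right fun _ => eventually_congr (by
    filter_upwards [rep_mk F] with z hz
    rw [hz])

theorem exp_mem (F : SmF l) : (fun i p => Real.exp (F.1 i p)) ∈ SmF l := by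
  filter_upwards [F.2] with z hz using hz.exp

theorem log_mem (F : SmF l) (h : ∀ᶠ z in l, F.1 z.1 z.2 ≠ 0) :
    (fun i p => Real.log (F.1 i p)) ∈ SmF l := by
  filter_upwards [F.2, h] with z hz h using hz.log h

theorem exp_mk (F : SmF l) : expG (mkG l F) = mkG l ⟨_, exp_mem F⟩ := by
  rw [expG, gm_eq (exp_mem _), mkG_eq]
  filter_upwards [rep_mk F] with z hz using congrArg Real.exp hz

theorem log_mk (F : SmF l) (h : ∀ᶠ z in l, F.1 z.1 z.2 ≠ 0) :
    logG (mkG l F) = mkG l ⟨_, log_mem F h⟩ := by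
  rw [logG, gm_eq (log_mem _ (by filter_upwards [rep_mk F, h] with z h1 h2 using h1 ▸ h2)), mkG_eq]
  filter_upwards [rep_mk F] with z hz using congrArg Real.log hz

theorem pos_of {F : SmF l} (h : PosG (mkG l F)) : ∀ᶠ z in l, 0 < F.1 z.1 z.2 := by
  obtain ⟨c, hc, h⟩ := (pos_iff F).1 h
  exact h.mono fun z hz => hc.trans_le hz

theorem ne_of {F : SmF l} (h : PosG (mkG l F)) : ∀ᶠ z in l, F.1 z.1 z.2 ≠ 0 :=
  (pos_of h).mono fun _ hz => hz.ne'

theorem exp_add (φ ψ : SG l) : expG (φ + ψ) = expG φ * expG ψ := by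
  obtain ⟨F, rfl⟩ := mkG_surj φ
  obtain ⟨G, rfl⟩ := mkG_surj ψ
  rw [← map_add, exp_mk, exp_mk, exp_mk, ← map_mul, mkG_eq]
  exact Eventually.of_forall fun z => Real.exp_add _ _

theorem exp_zero : expG (0 : SG l) = 1 := by
  rw [← map_zero (mkG l), exp_mk, ← map_one (mkG l), mkG_eq]
  exact Eventually.of_forall fun z => Real.exp_zero

theorem log_exp (φ : SG l) : logG (expG φ) = φ := by
  obtain ⟨F, rfl⟩ := mkG_surj φ
  rw [exp_mk, log_mk _ (Eventually.of_forall fun z => Real.exp_ne_zero _), mkG_eq]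
  exact Eventually.of_forall fun z => Real.log_exp _

theorem exp_log {φ : SG l} (h : PosG φ) : expG (logG φ) = φ := by
  obtain ⟨F, rfl⟩ := mkG_surj φ
  rw [log_mk F (ne_of h), exp_mk, mkG_eq]
  exact (pos_of h).mono fun z hz => Real.exp_log hz

theorem pos_mul {φ ψ : SG l} (h : PosG φ) (h' : PosG ψ) : PosG (φ * ψ) := by
  obtain ⟨F, rfl⟩ := mkG_surj φ
  obtain ⟨G, rfl⟩ := mkG_surj ψ
  obtain ⟨c, hc, h⟩ := (pos_iff F).1 h
  obtain ⟨d, hd, h'⟩ := (pos_iff G).1 h'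
  rw [← map_mul, pos_iff]
  refine ⟨c * d, mul_pos hc hd, ?_⟩
  filter_upwards [h, h'] with z h1 h2 using mul_le_mul h1 h2 hd.le (hc.le.trans h1)

/-- Bounds up to order `k`. -/
def PK (ρ : I × En n → ℝ) (k : ℕ) (w : I × En n → ℝ) (φ : SG l) : Prop :=
  ∃ C : ℝ, ∀ᶠ z in l, WB (ρ z) k (C * |w z|) ((rep φ).1 z.1) z.2

theorem pg_iff {φ : SG l} : PG ρ w φ ↔ ∀ k, PK ρ k w φ := and_iff_right (rep φ).2

theorem pk_zero (F : SmF l) : PK ρ 0 w (mkG l F) ↔ WLe l (fun z => F.1 z.1 z.2) w :=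
  ⟨wle_congr (rep_mk F), wle_congr ((rep_mk F).mono fun _ h => h.symm)⟩

variable [OpF l]

theorem exp_der (φ : SG l) (j : Fin n) : gD j (expG φ) = expG φ * gD j φ := by
  obtain ⟨F, rfl⟩ := mkG_surj φ
  rw [exp_mk, ← mkG_sfD, ← mkG_sfD, ← map_mul, mkG_eq]
  filter_upwards [F.2] with z hz
  exact DFunLike.congr_fun (fderiv_exp (hz.differentiableAt (by simp))) _

theorem log_der {φ : SG l} (h : PosG φ) (j : Fin n) :
    gD j (logG φ) = expG ((-1 : ℝ) • logG φ) * gD j φ := by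
  have h1 := exp_der (logG φ) j
  have h2 : expG ((-1 : ℝ) • logG φ) * expG (logG φ) = 1 := by
    rw [← exp_add, neg_smul, one_smul, neg_add_cancel, exp_zero]
  rw [exp_log h] at h1 h2
  rw [h1, ← mul_assoc, h2, one_mul]

theorem cancel {μ τ φ : SG l} (j : Fin n) (h : gD j μ * τ = 1) (h0 : μ * φ = 0) : φ = 0 := by
  have h1 := isDer_gD.mul j μ φ
  rw [h0, isDer_gD.zero] at h1
  refine IsReduced.eq_zero φ ⟨2, ?_⟩
  linear_combination (-φ ^ 2) * h - τ * φ * h1 - τ * gD j φ * h0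

section
variable (B : B1Facts n) (hρ : ∀ z, 0 ≤ ρ z)
include B

theorem pk_mk (F : SmF l) :
    PK ρ k w (mkG l F) ↔ ∃ C : ℝ, ∀ᶠ z in l, WB (ρ z) k (C * |w z|) (F.1 z.1) z.2 :=
  exists_congr fun _ => eventually_congr (by
    filter_upwards [OpF.op (rep_mk F)] with z hz
    exact ⟨fun h => B.congr h hz, fun h => B.congr h (EventuallyEq.symm hz)⟩)

theorem mk_iff (F : SmF l) : PG ρ w (mkG l F) ↔ PB l ρ w F.1 := by
  simp only [pg_iff, pk_mk B]
  exact (and_iff_right F.2).symm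

omit [OpF l] in
theorem PK.of_le {φ : SG l} {k' : ℕ} (h : PK ρ k' w φ) (hk : k ≤ k') : PK ρ k w φ :=
  h.imp fun _ h => h.mono fun _ h => B.of_le h hk

theorem PK.add {φ ψ : SG l} (h : PK ρ k w φ) (h' : PK ρ k w ψ) : PK ρ k w (φ + ψ) := by
  obtain ⟨F, rfl⟩ := mkG_surj φ
  obtain ⟨G, rfl⟩ := mkG_surj ψ
  rw [← map_add]
  rw [pk_mk B] at h h' ⊢
  obtain ⟨C, h⟩ := h
  obtain ⟨D, h'⟩ := h'
  refine ⟨C + D, ?_⟩
  filter_upwards [F.2, G.2, h, h'] with z h1 h2 h3 h4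
  rw [add_mul]
  exact B.add h1 h2 h3 h4

theorem PK.smul {φ : SG l} (c : ℝ) (h : PK ρ k w φ) : PK ρ k w (c • φ) := by
  obtain ⟨F, rfl⟩ := mkG_surj φ
  rw [← map_smul]
  rw [pk_mk B] at h ⊢
  obtain ⟨C, h⟩ := h
  refine ⟨|c| * C, ?_⟩
  filter_upwards [F.2, h] with z h1 h2
  rw [mul_assoc]
  exact B.smul c h1 h2

theorem PK.sub {φ ψ : SG l} (h : PK ρ k w φ) (h' : PK ρ k w ψ) : PK ρ k w (φ - ψ) := by
  simpa [sub_eq_add_neg] using h.add B (h'.smul B (-1))

theorem PK.mul {φ ψ : SG l} (h : PK ρ k w φ) (h' : PK ρ k w' ψ) : PK ρ k (w * w') (φ * ψ) := by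
  obtain ⟨F, rfl⟩ := mkG_surj φ
  obtain ⟨G, rfl⟩ := mkG_surj ψ
  rw [← map_mul]
  rw [pk_mk B] at h h' ⊢
  obtain ⟨C, h⟩ := h
  obtain ⟨D, h'⟩ := h'
  refine ⟨2 ^ k * C * D, ?_⟩
  filter_upwards [F.2, G.2, h, h'] with z h1 h2 h3 h4
  rw [show 2 ^ k * C * D * |(w * w') z| = 2 ^ k * (C * |w z|) * (D * |w' z|) by
    rw [Pi.mul_apply, abs_mul]
    ring]
  exact B.mul h1 h2 h3 h4

theorem PK.mul_one {φ ψ : SG l} (h : PK ρ k 1 φ) (h' : PK ρ k w ψ) : PK ρ k w (φ * ψ) := by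
  simpa only [one_mul] using h.mul B h'

include hρ

omit [OpF l] in
theorem PK.nonneg {φ : SG l} (h : PK ρ k w φ) :
    ∃ C : ℝ, 0 ≤ C ∧ ∀ᶠ z in l, WB (ρ z) k (C * |w z|) ((rep φ).1 z.1) z.2 := by
  obtain ⟨C, hC⟩ := h
  refine ⟨max C 0, le_max_right _ _, hC.mono fun z hz => B.mono hz (hρ z) le_rfl ?_⟩
  gcongr
  exact le_max_left _ _

omit [OpF l] in
theorem PK.mono {φ : SG l} (h : PK ρ k w φ) (hw : WLe l w w') : PK ρ k w' φ := by
  obtain ⟨C, hC0, hC⟩ := h.nonneg B hρ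
  obtain ⟨D, hD⟩ := hw
  refine ⟨C * D, ?_⟩
  filter_upwards [hC, hD] with z h1 h2
  refine B.mono h1 (hρ z) le_rfl ?_
  rw [mul_assoc]
  exact mul_le_mul_of_nonneg_left h2 hC0

theorem PK.der {φ : SG l} (h : PK ρ (k + 1) w φ) (j : Fin n) : PK ρ k (w * ρ) (gD j φ) := by
  rw [gD, pk_mk B]
  refine h.imp fun C h => h.mono fun z hz => ?_
  rw [Pi.mul_apply, abs_mul, abs_of_nonneg (hρ z), ← mul_assoc]
  exact hz.2 j

theorem PK.step {φ : SG l} (h0 : PK ρ 0 w φ) (h : ∀ j, PK ρ k (w * ρ) (gD j φ)) :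
    PK ρ (k + 1) w φ := by
  obtain ⟨C, hC0, hC⟩ := h0.nonneg B hρ
  choose D hD0 hD using fun j => (h j).nonneg B hρ
  have h1 := fun j => OpF.op (rep_mk (sfD l j (rep φ)))
  refine ⟨C + ∑ j, D j, ?_⟩
  filter_upwards [hC, eventually_all.2 hD, eventually_all.2 h1] with z h2 h3 h4
  have h5 : 0 ≤ ∑ j, D j := Finset.sum_nonneg fun j _ => hD0 j
  refine ⟨le_trans h2 (by gcongr; linarith),
    fun j => B.mono (B.congr (h3 j) (h4 j)) (hρ z) le_rfl ?_⟩
  rw [Pi.mul_apply, abs_mul, abs_of_nonneg (hρ z), ← mul_assoc]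
  have h6 : D j ≤ ∑ j, D j := Finset.single_le_sum (fun j _ => hD0 j) (Finset.mem_univ j)
  have := hρ z
  gcongr
  linarith

theorem pk_par (c : I → ℝ) (h : (fun i (_ : En n) => c i) ∈ SmF l) :
    PK ρ k (fun z => c z.1) (mkG l ⟨_, h⟩) := by
  rw [pk_mk B]
  exact ⟨1, Eventually.of_forall fun z => by simpa using B.const k (c z.1) z.2 (hρ z)⟩

theorem pk_0 : PK ρ k w (0 : SG l) := by
  rw [← map_zero (mkG l), pk_mk B]
  exact ⟨0, Eventually.of_forall fun z => B.mono (B.const k 0 z.2 (hρ z)) (hρ z) le_rfl (by simp)⟩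

theorem pk_1 : PK ρ k 1 (1 : SG l) := pk_par B hρ (fun _ => 1) (SmF l).one_mem

theorem pk_sum {ι : Type} (s : Finset ι) {φ : ι → SG l} (h : ∀ a ∈ s, PK ρ k w (φ a)) :
    PK ρ k w (∑ a ∈ s, φ a) :=
  Finset.sum_induction φ (PK ρ k w) (fun _ _ h h' => h.add B h') (pk_0 B hρ) h

theorem of_der {φ : SG l} (h0 : PK ρ 0 w φ) (h : ∀ j, PG ρ (w * ρ) (gD j φ)) : PG ρ w φ := by
  refine pg_iff.2 fun k => ?_
  cases k with
  | zero => exact h0
  | succ k => exact h0.step B hρ fun j => pg_iff.1 (h j) k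

omit B hρ [OpF l] in
theorem bdd {F : SmF l} (h : PK ρ 0 1 (mkG l F)) : ∃ C : ℝ, ∀ᶠ z in l, |F.1 z.1 z.2| ≤ C := by
  simpa [WLe] using (pk_zero F).1 h

theorem PK.exp {φ : SG l} (h : PK ρ k 1 φ) : PK ρ k 1 (expG φ) := by
  have h0 : PK ρ 0 1 (expG φ) := by
    obtain ⟨F, rfl⟩ := mkG_surj φ
    obtain ⟨C, hC⟩ := bdd (h.of_le B k.zero_le)
    rw [exp_mk, pk_zero]
    refine ⟨Real.exp C, hC.mono fun z hz => ?_⟩
    simpa [abs_of_pos (Real.exp_pos _)] using (le_abs_self _).trans hz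
  induction k with
  | zero => exact h0
  | succ k ih =>
    refine h0.step B hρ fun j => ?_
    rw [exp_der]
    exact (ih (h.of_le B k.le_succ)).mul_one B (h.der B hρ j)

theorem exp_bd {φ : SG l} (h : PG ρ 1 φ) : PG ρ 1 (expG φ) ∧ PosG (expG φ) := by
  refine ⟨pg_iff.2 fun k => (pg_iff.1 h k).exp B hρ, ?_⟩
  obtain ⟨F, rfl⟩ := mkG_surj φ
  obtain ⟨C, hC⟩ := bdd (pg_iff.1 h 0)
  rw [exp_mk, pos_iff]
  exact ⟨Real.exp (-C), Real.exp_pos _, hC.mono fun z hz => Real.exp_le_exp.2 (abs_le.1 hz).1⟩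

theorem exp_sub {φ : SG l} (hw : WLe l w 1) (h : PG ρ w φ) :
    PG ρ w (expG φ - 1) ∧ PG ρ (w * w) (expG φ - 1 - φ) := by
  rw [pg_iff] at h
  have h1 := fun k => (h k).mono B hρ hw
  obtain ⟨F, rfl⟩ := mkG_surj φ
  obtain ⟨C, hC⟩ := bdd (h1 0)
  obtain ⟨D, hD⟩ := (pk_zero F).1 (h 0)
  have h2 : PG ρ w (expG (mkG l F) - 1) := by
    refine of_der B hρ ?_ fun j => pg_iff.2 fun k => ?_
    · rw [exp_mk, ← map_one (mkG l), ← map_sub, pk_zero]
      refine ⟨D * Real.exp C, ?_⟩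
      filter_upwards [hC, hD] with z h3 h4
      refine (exp_one_le _).trans ?_
      rw [mul_right_comm]
      exact mul_le_mul h4 (Real.exp_le_exp.2 h3) (Real.exp_pos _).le ((abs_nonneg _).trans h4)
    · rw [isDer_gD.sub, isDer_gD.one, sub_zero, exp_der]
      exact ((h1 k).exp B hρ).mul_one B ((h _).der B hρ j)
  refine ⟨h2, of_der B hρ ?_ fun j => pg_iff.2 fun k => ?_⟩
  · rw [exp_mk, ← map_one (mkG l), ← map_sub, ← map_sub, pk_zero]
    refine ⟨D ^ 2 * Real.exp C, ?_⟩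
    filter_upwards [hC, hD] with z h3 h4
    refine (exp_two_le _).trans ?_
    rw [mul_right_comm, Pi.mul_apply, abs_mul, ← sq, ← mul_pow]
    exact mul_le_mul (pow_le_pow_left₀ (abs_nonneg _) h4 2) (Real.exp_le_exp.2 h3)
      (Real.exp_pos _).le (sq_nonneg _)
  · rw [isDer_gD.sub, isDer_gD.sub, isDer_gD.one, sub_zero, exp_der, ← sub_one_mul, mul_assoc]
    exact (pg_iff.1 h2 k).mul B ((h _).der B hρ j)

omit B hρ [OpF l] in
theorem log_zero {φ : SG l} (hp : PosG φ) (h : PK ρ 0 w (φ - 1)) : PK ρ 0 w (logG φ) := by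
  obtain ⟨F, rfl⟩ := mkG_surj φ
  rw [← map_one (mkG l), ← map_sub, pk_zero] at h
  rw [log_mk F (ne_of hp), pk_zero]
  obtain ⟨c, hc, hp⟩ := (pos_iff F).1 hp
  exact wle_trans ⟨1 + c⁻¹, hp.mono fun z hz => log_le hc hz⟩ h

theorem log_bd {φ : SG l} (hp : PosG φ) (h : PG ρ 1 φ) : PG ρ 1 (logG φ) := by
  rw [pg_iff] at h ⊢
  have h0 := log_zero hp ((h 0).sub B (pk_1 B hρ))
  intro k
  induction k with
  | zero => exact h0
  | succ k ih =>
    refine h0.step B hρ fun j => ?_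
    rw [log_der hp]
    exact ((ih.smul B _).exp B hρ).mul_one B ((h _).der B hρ j)

theorem log_sub {φ : SG l} (hw : WLe l w 1) (hp : PosG φ) (h : PG ρ w (φ - 1)) :
    PG ρ w (logG φ) := by
  rw [pg_iff] at h
  have h1 : PG ρ 1 φ := pg_iff.2 fun k => by
    simpa using ((h k).mono B hρ hw).add B (pk_1 B hρ)
  refine of_der B hρ (log_zero hp (h 0)) fun j => pg_iff.2 fun k => ?_
  have h2 := (h (k + 1)).der B hρ j
  rw [isDer_gD.sub, isDer_gD.one, sub_zero] at h2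
  rw [log_der hp]
  exact (((pg_iff.1 (log_bd B hρ hp h1) k).smul B _).exp B hρ).mul_one B h2

end

omit [OpF l] in
theorem pos_add {φ ψ : SG l} (hp : PosG φ) (h : PG ρ w ψ) (hw : Tendsto w l (𝓝 0)) :
    PosG (φ + ψ) := by
  obtain ⟨F, rfl⟩ := mkG_surj φ
  obtain ⟨G, rfl⟩ := mkG_surj ψ
  obtain ⟨c, hc, hp⟩ := (pos_iff F).1 hp
  obtain ⟨C, hC⟩ := (pk_zero G).1 (pg_iff.1 h 0)
  rw [← map_add, pos_iff]
  have h1 : Tendsto (fun z => C * |w z|) l (𝓝 0) := by simpa using hw.abs.const_mul C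
  refine ⟨c / 2, half_pos hc, ?_⟩
  filter_upwards [hp, hC, h1.eventually (gt_mem_nhds (half_pos hc))] with z h2 h3 h4
  change c / 2 ≤ F.1 z.1 z.2 + G.1 z.1 z.2
  linarith [neg_abs_le (G.1 z.1 z.2)]

section
variable {m : ℕ} {l' : Filter (I × En m)} {Φ : I → En m → En n} (h : IsPull l l' Φ)

omit [OpF l] in
theorem pull_exp (φ : SG l) : h.hom (expG φ) = expG (h.hom φ) := by
  obtain ⟨F, rfl⟩ := mkG_surj φ
  rw [exp_mk, h.hom_mk, h.hom_mk, exp_mk]
  rfl

omit [OpF l] in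
theorem pull_log (φ : SG l) (hp : PosG φ) :
    PosG (h.hom φ) ∧ h.hom (logG φ) = logG (h.hom φ) := by
  obtain ⟨F, rfl⟩ := mkG_surj φ
  have h1 : PosG (h.hom (mkG l F)) := by
    obtain ⟨c, hc, hp⟩ := (pos_iff F).1 hp
    rw [h.hom_mk, pos_iff]
    exact ⟨c, hc, h.tend.eventually hp⟩
  refine ⟨h1, ?_⟩
  rw [h.hom_mk] at h1
  rw [log_mk F (ne_of hp), h.hom_mk, h.hom_mk, log_mk _ (ne_of h1)]
  rfl

variable [OpF l'] (B : B1Facts n) (B' : B1Facts m)

include B' in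
theorem pull_der (φ : SG l) (i : Fin m) :
    gD i (h.hom φ) = ∑ a, gD i (gm l' fun j p => Φ j p a) * h.hom (gD a φ) := by
  obtain ⟨F, rfl⟩ := mkG_surj φ
  simp only [gm_eq (h.smooth _), ← mkG_sfD, h.hom_mk, ← map_mul, ← map_sum, mkG_eq]
  have h1 : ∀ᶠ z in l', ∀ a, ContDiffAt ℝ ∞ (fun p => Φ z.1 p a) z.2 :=
    eventually_all.2 h.smooth
  filter_upwards [h1, h.tend.eventually F.2] with z h1 h2
  refine (B'.chain ((contDiffAt_pi.2 h1).differentiableAt (by simp))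
    (h2.differentiableAt (by simp)) i).trans ?_
  rw [AddSubmonoidClass.coe_finsetSum, Finset.sum_apply, Finset.sum_apply]
  exact Finset.sum_congr rfl fun a _ => mul_comm _ _

include B B' in
theorem pull_bd (hρ : ∀ z, 0 ≤ ρ z) {ρ' τ : I × En m → ℝ} (hρ' : ∀ z, 0 ≤ ρ' z)
    (hτ : ∀ a i, PG ρ' τ (gD i (gm l' fun j p => Φ j p a)))
    (hw : WLe l' (fun z => τ z * ρ (z.1, Φ z.1 z.2)) ρ') (k : ℕ) :
    ∀ {w} {φ : SG l}, PG ρ w φ → PK ρ' k (fun z => w (z.1, Φ z.1 z.2)) (h.hom φ) := by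
  have h0 : ∀ {w} {φ : SG l}, PG ρ w φ → PK ρ' 0 (fun z => w (z.1, Φ z.1 z.2)) (h.hom φ) := by
    intro w φ hφ
    obtain ⟨F, rfl⟩ := mkG_surj φ
    rw [h.hom_mk, pk_zero]
    exact ((pk_zero F).1 (pg_iff.1 hφ 0)).imp fun C hC => h.tend.eventually hC
  induction k with
  | zero => exact h0
  | succ k ih =>
    intro w φ hφ
    refine (h0 hφ).step B' hρ' fun i => ?_
    rw [pull_der h B']
    refine pk_sum B' hρ' _ fun a _ => (((pg_iff.1 (hτ a i)) k).mul B'
      (ih (pg_iff.2 fun k => (pg_iff.1 hφ (k + 1)).der B hρ a))).mono B' hρ' ?_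
    refine hw.imp fun C hC => hC.mono fun z hz => ?_
    simp only [Pi.mul_apply, abs_mul] at hz ⊢
    nlinarith [mul_le_mul_of_nonneg_left hz (abs_nonneg (w (z.1, Φ z.1 z.2)))]

end

end B2

open B2 in
theorem b2 (h1 : B1Stmt) : B2Stmt := by
  intro I n l _ ρ hρ
  have B := h1 n
  exact
    { mk_iff := fun _ => mk_iff B
      pos_iff := pos_iff
      mono := fun h hw => pg_iff.2 fun k => (pg_iff.1 h k).mono B hρ hw
      zero := fun _ => pg_iff.2 fun _ => pk_0 B hρ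
      one := pg_iff.2 fun _ => pk_1 B hρ
      add := fun h h' => pg_iff.2 fun k => (pg_iff.1 h k).add B (pg_iff.1 h' k)
      smul := fun c h => pg_iff.2 fun k => (pg_iff.1 h k).smul B c
      mul := fun h h' => pg_iff.2 fun k => (pg_iff.1 h k).mul B (pg_iff.1 h' k)
      der := fun j h => pg_iff.2 fun k => (pg_iff.1 h (k + 1)).der B hρ j
      of_der := fun h0 h => of_der B hρ h0 h
      bound := fun F h => (pk_zero F).1 (pg_iff.1 h 0)
      eq_zero := fun {w φ} h hw => by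
        obtain ⟨F, rfl⟩ := mkG_surj φ
        obtain ⟨C, hC⟩ := (pk_zero F).1 (pg_iff.1 h 0)
        rw [← map_zero (mkG l), mkG_eq]
        filter_upwards [hC, hw] with z h1 h2
        simpa [h2] using h1
      par := fun c => by
        have h : (fun i (_ : En n) => c i) ∈ SmF l := Eventually.of_forall fun _ => contDiffAt_const
        rw [gm_eq h]
        refine ⟨h, pg_iff.2 fun _ => pk_par B hρ c h, fun j => ?_⟩
        rw [← mkG_sfD, ← map_zero (mkG l), mkG_eq]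
        exact Eventually.of_forall fun z => by simp [sfD, fD, pdn]
      exp_mk := fun F => ⟨by rw [exp_mk, gm_eq], exp_mem F⟩
      log_mk := fun F h => ⟨by rw [log_mk F (ne_of h), gm_eq], log_mem F (ne_of h)⟩
      exp_add := exp_add
      exp_zero := exp_zero
      exp_der := exp_der
      exp_bd := exp_bd B hρ
      exp_sub := exp_sub B hρ
      log_exp := log_exp
      exp_log := exp_log
      log_bd := log_bd B hρ
      log_sub := log_sub B hρ
      pos_mul := pos_mul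
      pos_add := pos_add
      cancel := cancel
      pull := fun h => ⟨pull_der h (h1 _), pull_exp h, pull_log h, fun _ _ hρ' hτ hw _ _ hφ =>
        pg_iff.2 fun k => pull_bd h B (h1 _) hρ hρ' hτ hw k hφ⟩ }

end Pool.Agent.Lib.MP_df9110_gt
end

-- part Pool.Agent.Lib.MP_df9110_gt.PI
section

/-! Differentiation under the integral sign, all orders, with bounds. -/

set_option linter.unusedSectionVars false

namespace Pool.Agent.Lib.MP_df9110_gt

open Filter Topology MeasureTheory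
open scoped ContDiff

namespace PI

variable {n : ℕ}

theorem clm_eq_sum (L : En n →L[ℝ] ℝ) (v : En n) : L v = ∑ i, v i * L (Pi.single i 1) := by
  conv_lhs => rw [← Finset.univ_sum_single v]
  rw [map_sum]
  refine Finset.sum_congr rfl fun i _ => ?_
  rw [← smul_eq_mul, ← map_smul, ← Pi.single_smul, smul_eq_mul, mul_one]

theorem norm_le_sum (L : En n →L[ℝ] ℝ) : ‖L‖ ≤ ∑ i, |L (Pi.single i 1)| := by
  refine L.opNorm_le_bound (Finset.sum_nonneg fun _ _ => abs_nonneg _) fun v => ?_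
  rw [clm_eq_sum, Finset.sum_mul, Real.norm_eq_abs]
  refine (Finset.abs_sum_le_sum_abs _ _).trans (Finset.sum_le_sum fun i _ => ?_)
  rw [abs_mul, mul_comm]
  exact mul_le_mul_of_nonneg_left (norm_le_pi_norm v i) (abs_nonneg _)

variable {T : Type} [NormedAddCommGroup T] [NormedSpace ℝ T] [MeasurableSpace T] [BorelSpace T]
  [SecondCountableTopology T] {μ : Measure T} {S : Set T} {U : Set (En n)} {H : T → En n → ℝ}

/-- The hypotheses. -/
structure Adm (μ : Measure T) (S : Set T) (U : Set (En n)) (H : T → En n → ℝ) : Prop where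
  oS : IsOpen S
  oU : IsOpen U
  sm : ContDiffOn ℝ ∞ (fun z : T × En n => H z.1 z.2) (S ×ˢ U)
  bd : ∀ p ∈ U, ∀ k, ∃ b : T → ℝ, IntegrableOn b S μ ∧
    ∀ᶠ q in 𝓝 p, ∀ t ∈ S, WB 1 k (b t) (H t) q

namespace Adm

variable (h : Adm μ S U H)
include h

theorem at' {t : T} {p : En n} (ht : t ∈ S) (hp : p ∈ U) :
    ContDiffAt ℝ ∞ (fun z : T × En n => H z.1 z.2) (t, p) :=
  h.sm.contDiffAt ((h.oS.prod h.oU).mem_nhds ⟨ht, hp⟩)

theorem slice {t : T} {p : En n} (ht : t ∈ S) (hp : p ∈ U) : ContDiffAt ℝ ∞ (H t) p :=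
  (h.at' ht hp).comp p (contDiffAt_const.prodMk contDiffAt_id)

theorem fd {t : T} {p : En n} (ht : t ∈ S) (hp : p ∈ U) :
    ContDiffAt ℝ ∞ (fun z : T × En n => fderiv ℝ (H z.1) z.2) (t, p) := by
  refine ContDiffAt.fderiv (f := fun z : T × En n => H z.1) (g := fun z => z.2) (n := ∞) ?_
    contDiffAt_snd (by simp)
  exact ContDiffAt.comp (g := fun z : T × En n => H z.1 z.2)
    (f := fun w : (T × En n) × En n => (w.1.1, w.2)) ((t, p), p) (h.at' ht hp)
    ((contDiffAt_fst.fst).prodMk contDiffAt_snd)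

theorem der (i : Fin n) : Adm μ S U fun t => pdn i (H t) := by
  refine ⟨h.oS, h.oU, fun z hz => ?_, fun p hp k => ?_⟩
  · exact ((h.fd hz.1 hz.2).clm_apply contDiffAt_const).contDiffWithinAt
  · obtain ⟨b, hb, hw⟩ := h.bd p hp (k + 1)
    refine ⟨b, hb, ?_⟩
    filter_upwards [hw] with q hq t ht
    simpa only [mul_one] using (hq t ht).2 i

theorem meas {p : En n} (hp : p ∈ U) : AEStronglyMeasurable (fun t => H t p) (μ.restrict S) := by
  refine ContinuousOn.aestronglyMeasurable (fun t ht => ?_) h.oS.measurableSet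
  exact ((h.at' ht hp).continuousAt.comp (f := fun t => (t, p))
    (by fun_prop)).continuousWithinAt

theorem meas' {p : En n} (hp : p ∈ U) :
    AEStronglyMeasurable (fun t => fderiv ℝ (H t) p) (μ.restrict S) := by
  refine ContinuousOn.aestronglyMeasurable (fun t ht => ?_) h.oS.measurableSet
  exact ((h.fd ht hp).continuousAt.comp (f := fun t => (t, p))
    (by fun_prop)).continuousWithinAt

theorem hasF {p : En n} (hp : p ∈ U) :
    Integrable (fun t => fderiv ℝ (H t) p) (μ.restrict S) ∧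
      HasFDerivAt (fun q => ∫ t in S, H t q ∂μ) (∫ t in S, fderiv ℝ (H t) p ∂μ) p := by
  obtain ⟨b, hb, hw⟩ := h.bd p hp 1
  have key : ∀ q, (∀ t ∈ S, WB 1 1 (b t) (H t) q) → ∀ t ∈ S, ‖fderiv ℝ (H t) q‖ ≤ n * b t := by
    intro q hq t ht
    refine (norm_le_sum _).trans ?_
    have := Finset.sum_le_card_nsmul Finset.univ (fun i => |fderiv ℝ (H t) q (Pi.single i 1)|)
      (b t) fun i _ => le_of_le_of_eq ((hq t ht).2 i) (mul_one _)
    simpa using this
  have ae : ∀ {P : T → Prop}, (∀ t ∈ S, P t) → ∀ᵐ t ∂μ.restrict S, P t := fun hP =>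
    (ae_restrict_iff' h.oS.measurableSet).2 (Eventually.of_forall hP)
  refine ⟨(hb.const_mul n).mono' (h.meas' hp) (ae (key p hw.self_of_nhds)), ?_⟩
  refine hasFDerivAt_integral_of_dominated_of_fderiv_le (F := fun q t => H t q)
    (F' := fun q t => fderiv ℝ (H t) q) (bound := fun t => n * b t)
    (inter_mem hw (h.oU.mem_nhds hp)) ?_ ?_ (h.meas' hp) (ae fun t ht q hq => key q hq.1 t ht)
    (hb.const_mul n) (ae fun t ht q hq => ?_)
  · filter_upwards [h.oU.mem_nhds hp] with q hq using h.meas hq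
  · exact hb.mono' (h.meas hp) (ae fun t ht => (hw.self_of_nhds t ht).1)
  · exact ((h.slice ht hq.2).differentiableAt (by simp)).hasFDerivAt

theorem pdn_eq {p : En n} (hp : p ∈ U) (i : Fin n) :
    pdn i (fun q => ∫ t in S, H t q ∂μ) p = ∫ t in S, pdn i (H t) p ∂μ := by
  unfold pdn
  rw [(h.hasF hp).2.fderiv, ContinuousLinearMap.integral_apply (h.hasF hp).1]

end Adm

theorem smooth (k : ℕ) : ∀ {H : T → En n → ℝ}, Adm μ S U H →
    ContDiffOn ℝ k (fun q => ∫ t in S, H t q ∂μ) U := by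
  induction k with
  | zero =>
    intro H h
    exact contDiffOn_zero.2 fun p hp => (h.hasF hp).2.continuousAt.continuousWithinAt
  | succ k ih =>
    intro H h
    rw [Nat.cast_succ, contDiffOn_succ_iff_fderiv_of_isOpen h.oU]
    refine ⟨fun p hp => (h.hasF hp).2.differentiableAt.differentiableWithinAt, by simp, ?_⟩
    refine contDiffOn_clm_apply.2 fun v => ?_
    refine (ContDiffOn.sum (s := Finset.univ) fun i _ =>
      (contDiffOn_const (c := v i)).mul (ih (h.der i))).congr fun p hp => ?_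
    rw [clm_eq_sum]
    exact Finset.sum_congr rfl fun i _ => congrArg _ (h.pdn_eq hp i)

theorem bound (h1 : B1Stmt) {p : En n} (hp : p ∈ U) (r : ℝ) (k : ℕ) :
    ∀ {H : T → En n → ℝ} (b : T → ℝ), Adm μ S U H → IntegrableOn b S μ →
      (∀ t ∈ S, WB r k (b t) (H t) p) →
      WB r k (∫ t in S, b t ∂μ) (fun q => ∫ t in S, H t q ∂μ) p := by
  have z : ∀ {H : T → En n → ℝ} (b : T → ℝ), Adm μ S U H → IntegrableOn b S μ →
      (∀ t ∈ S, |H t p| ≤ b t) → |∫ t in S, H t p ∂μ| ≤ ∫ t in S, b t ∂μ := fun b h hb hw =>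
    Real.norm_eq_abs _ ▸ norm_integral_le_of_norm_le hb
      ((ae_restrict_iff' h.oS.measurableSet).2 (Eventually.of_forall hw))
  induction k with
  | zero => exact fun b h hb hw => z b h hb hw
  | succ k ih =>
    intro H b h hb hw
    refine ⟨z b h hb fun t ht => (hw t ht).1, fun i => ?_⟩
    have := ih (fun t => b t * r) (h.der i) (hb.mul_const r) fun t ht => (hw t ht).2 i
    rw [integral_mul_const] at this
    refine (h1 n).congr this ?_
    filter_upwards [h.oU.mem_nhds hp] with q hq using (h.pdn_eq hq i).symm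

theorem main (h1 : B1Stmt) (h : Adm μ S U H) :
    (∀ p ∈ U, ContDiffAt ℝ ∞ (fun q => ∫ t in S, H t q ∂μ) p) ∧
    (∀ p ∈ U, ∀ i, pdn i (fun q => ∫ t in S, H t q ∂μ) p = ∫ t in S, pdn i (H t) p ∂μ) ∧
    ∀ p ∈ U, ∀ (r : ℝ) (k : ℕ) (b : T → ℝ), IntegrableOn b S μ →
      (∀ t ∈ S, WB r k (b t) (H t) p) →
      WB r k (∫ t in S, b t ∂μ) (fun q => ∫ t in S, H t q ∂μ) p :=
  ⟨fun _ hp => (contDiffOn_infty.2 fun k => smooth k h).contDiffAt (h.oU.mem_nhds hp),
    fun _ hp i => h.pdn_eq hp i, fun _ hp r k b hb hw => bound h1 hp r k b h hb hw⟩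

end PI

theorem pi0 (h1 : B1Stmt) : PIStmt := fun _ _ _ _ _ _ hS hU hs hb => PI.main h1 ⟨hS, hU, hs, hb⟩

theorem pi1 (h1 : B1Stmt) : PI1Stmt := fun _ _ _ _ hS hU hs hb => PI.main h1 ⟨hS, hU, hs, hb⟩

end Pool.Agent.Lib.MP_df9110_gt
end

-- part Pool.Agent.Lib.MP_df9110_gt.SL
section

/-! Smooth limits of smooth functions with locally uniform derivative bounds; interpolation. -/

namespace Pool.Agent.Lib.MP_df9110_gt

open Filter Topology
open scoped ContDiff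

namespace SL

variable {n : ℕ}

theorem clm_eq_sum (L : En n →L[ℝ] ℝ) (v : En n) : L v = ∑ i, v i * L (Pi.single i 1) := by
  conv_lhs => rw [← Finset.univ_sum_single v]
  rw [map_sum]
  refine Finset.sum_congr rfl fun i _ => ?_
  have : (Pi.single i (v i) : En n) = v i • (Pi.single i 1 : En n) := by
    rw [← Pi.single_smul', smul_eq_mul, mul_one]
  rw [this, map_smul, smul_eq_mul]

theorem norm_clm_le (L : En n →L[ℝ] ℝ) {C : ℝ} (hC : 0 ≤ C)
    (h : ∀ i, |L (Pi.single i 1)| ≤ C) : ‖L‖ ≤ n * C := by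
  refine L.opNorm_le_bound (by positivity) fun v => ?_
  rw [clm_eq_sum, Real.norm_eq_abs]
  refine (Finset.abs_sum_le_sum_abs _ _).trans ?_
  have h2 : ∀ i ∈ Finset.univ, |v i * L (Pi.single i 1)| ≤ C * ‖v‖ := fun i _ => by
    rw [abs_mul, mul_comm]
    exact mul_le_mul (h i) (norm_le_pi_norm v i) (abs_nonneg _) hC
  refine (Finset.sum_le_sum h2).trans (le_of_eq ?_)
  simp [mul_assoc]

/-- Second order Taylor estimate on a ball. -/
theorem taylor {f : En n → ℝ} {p : En n} {δ C : ℝ} (hC : 0 ≤ C)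
    (hf : ∀ q ∈ Metric.ball p δ, ContDiffAt ℝ ∞ f q)
    (hb : ∀ q ∈ Metric.ball p δ, ∀ i i', |pdn i (pdn i' f) q| ≤ C) {x : En n}
    (hx : x ∈ Metric.ball p δ) :
    |f x - f p - fderiv ℝ f p (x - p)| ≤ n * (n * C * ‖x - p‖) * ‖x - p‖ := by
  have hsub : Metric.closedBall p ‖x - p‖ ⊆ Metric.ball p δ :=
    Metric.closedBall_subset_ball (by rwa [Metric.mem_ball, dist_eq_norm] at hx)
  have hp : p ∈ Metric.closedBall p ‖x - p‖ := Metric.mem_closedBall_self (norm_nonneg _)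
  have hx' : x ∈ Metric.closedBall p ‖x - p‖ := by rw [Metric.mem_closedBall, dist_eq_norm]
  have h1 : ∀ y ∈ Metric.closedBall p ‖x - p‖,
      ‖fderiv ℝ f y - fderiv ℝ f p‖ ≤ n * (n * C * ‖x - p‖) := fun y hy => by
    refine norm_clm_le _ (by positivity) fun i' => ?_
    have h2 := (convex_closedBall p ‖x - p‖).norm_image_sub_le_of_norm_fderiv_le (𝕜 := ℝ)
      (f := pdn i' f) (C := n * C)
      (fun z hz => (contDiffAt_pdn (hf z (hsub hz)) i').differentiableAt (by simp))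
      (fun z hz => norm_clm_le _ hC fun i => hb z (hsub hz) i i') hp hy
    rw [Metric.mem_closedBall, dist_eq_norm] at hy
    exact h2.trans (mul_le_mul_of_nonneg_left hy (by positivity))
  exact (convex_closedBall p ‖x - p‖).norm_image_sub_le_of_norm_fderiv_le' (𝕜 := ℝ)
    (fun z hz => (hf z (hsub hz)).differentiableAt (by simp)) h1 hp hx'

/-- The hypotheses on a sequence of smooth functions and its limit. -/
structure Hyp (U : Set (En n)) (f : ℕ → En n → ℝ) (g : En n → ℝ) : Prop where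
  sm : ∀ j, ∀ p ∈ U, ContDiffAt ℝ ∞ (f j) p
  bd : ∀ p ∈ U, ∀ k, ∃ C : ℝ, ∀ᶠ q in 𝓝 p, ∀ j, WB 1 k C (f j) q
  lim : ∀ p ∈ U, Tendsto (fun j => f j p) atTop (𝓝 (g p))

variable {U : Set (En n)} {f : ℕ → En n → ℝ} {g : En n → ℝ}

theorem Hyp.unif (hU : IsOpen U) (h : Hyp U f g) {p : En n} (hp : p ∈ U) :
    ∃ δ K : ℝ, 0 < δ ∧ 0 ≤ K ∧ Metric.ball p δ ⊆ U ∧ ∀ j, ∀ x ∈ Metric.ball p δ,
      |f j x - f j p - fderiv ℝ (f j) p (x - p)| ≤ K * ‖x - p‖ ^ 2 := by
  obtain ⟨C, hC⟩ := h.bd p hp 2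
  obtain ⟨δ, hδ, hball⟩ := Metric.eventually_nhds_iff_ball.1 (hC.and (hU.mem_nhds hp))
  have hC0 : 0 ≤ C := (abs_nonneg _).trans ((hball p (Metric.mem_ball_self hδ)).1 0).1
  refine ⟨δ, n * n * C, hδ, by positivity, fun q hq => (hball q hq).2, fun j x hx => ?_⟩
  refine (taylor hC0 (fun q hq => h.sm j q (hball q hq).2) (fun q hq i i' => ?_) hx).trans
    (le_of_eq (by ring))
  have h2 : |pdn i (pdn i' (f j)) q| ≤ C * 1 * 1 := (((hball q hq).1 j).2 i').2 i
  simpa using h2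

theorem Hyp.cauchy (hU : IsOpen U) (h : Hyp U f g) {p : En n} (hp : p ∈ U) (i : Fin n) :
    CauchySeq fun j => pdn i (f j) p := by
  obtain ⟨δ, K, hδ, hK, hsub, hT⟩ := h.unif hU hp
  rw [Metric.cauchySeq_iff]
  intro ε hε
  obtain ⟨s, hs0, hsδ, hsK⟩ : ∃ s : ℝ, 0 < s ∧ s < δ ∧ K * s ≤ ε / 4 := by
    refine ⟨min (δ / 2) (ε / 4 / (K + 1)), by positivity,
      (min_le_left _ _).trans_lt (half_lt_self hδ), ?_⟩
    refine (mul_le_mul_of_nonneg_left (min_le_right _ _) hK).trans ?_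
    rw [← mul_div_assoc, div_le_iff₀ (by positivity)]
    nlinarith
  set x : En n := p + s • (Pi.single i 1 : En n) with hx
  have hxp : x - p = s • (Pi.single i 1 : En n) := by rw [hx, add_sub_cancel_left]
  have hn : ‖x - p‖ = s := by
    rw [hxp, norm_smul, Pi.norm_single, norm_one, mul_one, Real.norm_of_nonneg hs0.le]
  have hxb : x ∈ Metric.ball p δ := by rwa [Metric.mem_ball, dist_eq_norm, hn]
  have h1 : ∀ j, |f j x - f j p - s * pdn i (f j) p| ≤ K * s ^ 2 := fun j => by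
    have := hT j x hxb
    rwa [hn, hxp, map_smul, smul_eq_mul] at this
  have h2 := ((h.lim x (hsub hxb)).sub (h.lim p hp)).cauchySeq
  rw [Metric.cauchySeq_iff] at h2
  obtain ⟨N, hN⟩ := h2 (s * (ε / 2)) (by positivity)
  refine ⟨N, fun a ha b hb => ?_⟩
  have h3 := hN a ha b hb
  rw [Real.dist_eq] at h3 ⊢
  have h4 : s * |pdn i (f a) p - pdn i (f b) p| < s * ε := by
    rw [← abs_of_pos hs0, ← abs_mul, abs_of_pos hs0, abs_lt]
    obtain ⟨a1, a2⟩ := abs_le.1 (h1 a)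
    obtain ⟨b1, b2⟩ := abs_le.1 (h1 b)
    obtain ⟨c1, c2⟩ := abs_lt.1 h3
    have h5 : K * s ^ 2 ≤ s * (ε / 4) := by nlinarith
    constructor <;> nlinarith
  exact lt_of_mul_lt_mul_left h4 hs0.le

theorem Hyp.step (hU : IsOpen U) (h : Hyp U f g) {p : En n} (hp : p ∈ U) :
    DifferentiableAt ℝ g p ∧
      ∀ i, Tendsto (fun j => pdn i (f j) p) atTop (𝓝 (pdn i g p)) := by
  choose G hG using fun i => cauchySeq_tendsto_of_complete (h.cauchy hU hp i)
  obtain ⟨δ, K, hδ, hK, hsub, hT⟩ := h.unif hU hp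
  set L : En n →L[ℝ] ℝ := ∑ i, G i • ContinuousLinearMap.proj i with hL
  have hLv : ∀ v : En n, L v = ∑ i, v i * G i := fun v => by
    simp [hL, mul_comm]
  have h1 : ∀ x ∈ Metric.ball p δ, |g x - g p - L (x - p)| ≤ K * ‖x - p‖ ^ 2 := fun x hx => by
    have h2 : Tendsto (fun j => fderiv ℝ (f j) p (x - p)) atTop (𝓝 (L (x - p))) := by
      rw [hLv]
      simp only [clm_eq_sum (fderiv ℝ _ p) (x - p)]
      exact tendsto_finsetSum _ fun i _ => (hG i).const_mul _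
    exact le_of_tendsto' (((h.lim x (hsub hx)).sub (h.lim p hp)).sub h2).abs fun j => hT j x hx
  have hd : HasFDerivAt g L p := by
    rw [hasFDerivAt_iff_isLittleO]
    have h3 : (fun x => g x - g p - L (x - p)) =O[𝓝 p] fun x => ‖x - p‖ ^ 2 := by
      refine Asymptotics.IsBigO.of_bound K ?_
      filter_upwards [Metric.ball_mem_nhds p hδ] with x hx
      simpa using h1 x hx
    exact h3.trans_isLittleO (Asymptotics.isLittleO_pow_sub_sub p one_lt_two)
  refine ⟨hd.differentiableAt, fun i => ?_⟩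
  have h4 : pdn i g p = G i := by
    rw [pdn, hd.fderiv, hLv]
    simp [Pi.single_apply]
  rw [h4]
  exact hG i

theorem Hyp.der (hU : IsOpen U) (h : Hyp U f g) (i : Fin n) :
    Hyp U (fun j => pdn i (f j)) (pdn i g) where
  sm j p hp := contDiffAt_pdn (h.sm j p hp) i
  bd p hp k := by
    obtain ⟨C, hC⟩ := h.bd p hp (k + 1)
    exact ⟨C * 1, hC.mono fun q hq j => (hq j).2 i⟩
  lim p hp := (h.step hU hp).2 i

theorem smooth (hU : IsOpen U) (k : ℕ) :
    ∀ {f : ℕ → En n → ℝ} {g : En n → ℝ}, Hyp U f g → ContDiffOn ℝ k g U := by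
  induction k with
  | zero =>
    intro f g h
    have hc : ContinuousOn g U := fun p hp => (h.step hU hp).1.continuousAt.continuousWithinAt
    simpa using hc
  | succ k ih =>
    intro f g h
    rw [Nat.cast_succ, contDiffOn_succ_iff_fderiv_of_isOpen hU]
    refine ⟨fun p hp => (h.step hU hp).1.differentiableWithinAt, by simp, ?_⟩
    rw [contDiffOn_clm_apply]
    intro y
    simp only [clm_eq_sum (fderiv ℝ g _) y]
    exact ContDiffOn.sum fun i _ => contDiffOn_const.mul (ih (h.der hU i))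

theorem wb_lim (hU : IsOpen U) {p : En n} (hp : p ∈ U) (r : ℝ) (k : ℕ) :
    ∀ {a : ℝ} {f : ℕ → En n → ℝ} {g : En n → ℝ}, Hyp U f g → (∀ j, WB r k a (f j) p) →
      WB r k a g p := by
  induction k with
  | zero =>
    intro a f g h hb
    exact le_of_tendsto' (h.lim p hp).abs hb
  | succ k ih =>
    intro a f g h hb
    exact ⟨le_of_tendsto' (h.lim p hp).abs fun j => (hb j).1,
      fun i => ih (h.der hU i) fun j => (hb j).2 i⟩

theorem hasDerivAt_line {f : En n → ℝ} {p : En n} (i : Fin n) {t : ℝ}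
    (hf : DifferentiableAt ℝ f (p + Pi.single i t)) :
    HasDerivAt (fun τ : ℝ => f (p + Pi.single i τ)) (pdn i f (p + Pi.single i t)) t := by
  have h1 : HasDerivAt (fun τ : ℝ => p + (Pi.single i τ : En n)) (Pi.single i 1) t := by
    have h2 : (fun τ : ℝ => p + (Pi.single i τ : En n)) =
        fun τ : ℝ => p + τ • (Pi.single i 1 : En n) := by
      funext τ
      rw [← Pi.single_smul', smul_eq_mul, mul_one]
    rw [h2]
    simpa using ((hasDerivAt_id t).smul_const (Pi.single i 1 : En n)).const_add p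
  exact hf.hasFDerivAt.comp_hasDerivAt t h1

theorem interp (f : En n → ℝ) (p : En n) (s a b : ℝ) (i : Fin n) (hs : 0 < s)
    (h : ∀ t : ℝ, |t| ≤ s → ContDiffAt ℝ ∞ f (p + Pi.single i t) ∧ |f (p + Pi.single i t)| ≤ a ∧
      |pdn i (pdn i f) (p + Pi.single i t)| ≤ b) : |pdn i f p| ≤ 2 * a / s + b * s := by
  have hm : ∀ t ∈ Set.Icc (0 : ℝ) s, |t| ≤ s := fun t ht => by rw [abs_of_nonneg ht.1]; exact ht.2
  have d1 : ∀ t ∈ Set.Icc (0 : ℝ) s, HasDerivAt (fun τ : ℝ => f (p + Pi.single i τ))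
      (pdn i f (p + Pi.single i t)) t := fun t ht =>
    hasDerivAt_line i ((h t (hm t ht)).1.differentiableAt (by simp))
  have d2 : ∀ t ∈ Set.Icc (0 : ℝ) s, HasDerivAt (fun τ : ℝ => pdn i f (p + Pi.single i τ))
      (pdn i (pdn i f) (p + Pi.single i t)) t := fun t ht =>
    hasDerivAt_line i ((contDiffAt_pdn (h t (hm t ht)).1 i).differentiableAt (by simp))
  obtain ⟨c, hc, hc2⟩ := exists_hasDerivAt_eq_slope (fun τ : ℝ => f (p + Pi.single i τ))
    (fun t => pdn i f (p + Pi.single i t)) hs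
    (fun t ht => (d1 t ht).continuousAt.continuousWithinAt)
    fun t ht => d1 t (Set.Ioo_subset_Icc_self ht)
  have hcI := Set.Ioo_subset_Icc_self hc
  have h0I : (0 : ℝ) ∈ Set.Icc (0 : ℝ) s := Set.left_mem_Icc.2 hs.le
  have h3 := (convex_Icc (0 : ℝ) s).norm_image_sub_le_of_norm_hasDerivWithin_le (C := b)
    (fun t ht => (d2 t ht).hasDerivWithinAt) (fun t ht => (h t (hm t ht)).2.2) h0I hcI
  have hb : 0 ≤ b := (abs_nonneg _).trans (h 0 (hm 0 h0I)).2.2
  have h4 : |pdn i f (p + Pi.single i c)| ≤ 2 * a / s := by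
    rw [hc2, sub_zero, abs_div, abs_of_pos hs]
    refine div_le_div_of_nonneg_right ((abs_sub _ _).trans ?_) hs.le
    linarith [(h s (hm s (Set.right_mem_Icc.2 hs.le))).2.1, (h 0 (hm 0 h0I)).2.1]
  rw [Real.norm_eq_abs, Real.norm_eq_abs, sub_zero, Pi.single_zero, add_zero] at h3
  have h5 : b * |c| ≤ b * s := mul_le_mul_of_nonneg_left (hm c hcI) hb
  have h6 := abs_sub_abs_le_abs_sub (pdn i f p) (pdn i f (p + Pi.single i c))
  rw [abs_sub_comm] at h6
  linarith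

end SL

theorem sl (_h1 : B1Stmt) : SLStmt := fun n => by
  refine ⟨fun U f g hU h1 h2 h3 => ?_, SL.interp⟩
  have h : SL.Hyp U f g := ⟨h1, h2, h3⟩
  exact ⟨fun p hp => (contDiffOn_infty.2 fun k => SL.smooth hU k h).contDiffAt (hU.mem_nhds hp),
    fun p hp => (h.step hU hp).2, fun p hp i i' => ((h.der hU i').step hU hp).2 i,
    fun p hp r k a => SL.wb_lim hU hp r k h⟩

end Pool.Agent.Lib.MP_df9110_gt
end
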