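import Pool.Agent.Lib.MP_df9110_gt.NGeo

-- part Pool.Agent.Lib.MP_df9110_gt.Lam
section

/-! The solvability of the equation for the conformal factor in the layer. -/

namespace Pool.Agent.Lib.MP_df9110_gt

open Filter Topology Set
open scoped ContDiff

namespace Lam

theorem wle_of_eq {l : Filter Z2} {w w' : Z2 → ℝ} (h : ∀ z, |w z| = |w' z|) : WLe l w w' :=
  ⟨1, Eventually.of_forall fun z => by rw [h z, one_mul]⟩

theorem wle_mul {l : Filter Z2} (u : Z2 → ℝ) {w w' : Z2 → ℝ} (h : WLe l w w') :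
    WLe l (u * w) (u * w') := by
  obtain ⟨C, hC⟩ := h
  refine ⟨C, hC.mono fun z hz => ?_⟩
  rw [Pi.mul_apply, Pi.mul_apply, abs_mul, abs_mul, mul_left_comm]
  exact mul_le_mul_of_nonneg_left hz (abs_nonneg _)

theorem isCut_one : IsCut 1 :=
  ⟨contDiff_const, fun _ => ⟨zero_le_one, le_rfl⟩, 1, one_pos, fun _ _ => rfl⟩

theorem dW_add (κ κ' : ℝ) : dW κ * dW κ' = dW (κ + κ') := by
  funext z
  rw [Pi.mul_apply, dW, dW, dW, ← Real.exp_add]
  congr 1
  ring

theorem dW_zero : dW 0 = 1 := by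
  funext z
  simp [dW]

/-- The regular equation with a single weight. -/
theorem reg_bd {l : Filter Z2} [OpF l] (B : B2Facts l 1) (So : SolFacts l) {κ : ℝ} (hκ : κ < 2)
    {w : ℝ → ℝ → ℝ} {g : SG l} (h : PG 1 (xW w * dW κ) ((1 - yG l 1) * gD 0 g + 2 * g)) :
    PG 1 (xW w * dW κ) g := by
  have e : ∀ z, |(xW w * dW κ) z| = |(xW (fun ε x => |w ε x|) * dW κ + xW fun _ _ => 0) z| := by
    intro z
    simp [xW, abs_mul]
  exact B.mono (So.reg_bd κ _ _ g hκ (fun _ _ => abs_nonneg _) (fun _ _ => le_rfl)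
    (B.mono h (wle_of_eq e))) (wle_of_eq fun z => (e z).symm)

end Lam

open Lam

theorem lamS (_b1 : B1Stmt) (b2 : B2Stmt) (_pi1 : PI1Stmt) (av : AvgStmt) (wt : WtStmt)
    (so : SolStmt) : LamStmt := by
  intro c a b κ w S hc h0 h2 hS
  have B := b2 ℝ 2 (lS c a b) 1 fun _ => zero_le_one
  have A := av.1 c a b hc
  have W := wt c a b hc
  have So := so c a b hc
  have hD := isDer_gD (l := lS c a b)
  obtain ⟨hy, -, -⟩ := W.y 1 isCut_one
  obtain ⟨hy1, hy0⟩ := W.y1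
  obtain ⟨-, hpos, -, het, -⟩ := W.et 1 isCut_one
  obtain ⟨F, hF, eF⟩ := So.int κ w S h0 hS
  generalize hy' : yG (lS c a b) 1 = y at hy hy1 hy0 het ⊢
  have hneg : ∀ {u} {φ : SG (lS c a b)}, PG 1 u φ → PG 1 u (-φ) := fun h => by
    simpa using B.smul (-1) h
  have hr0 : gD 0 (ev0 F) = 0 := A.ev_D0 F
  have hr : PG 1 (xW w) (ev0 F) := B.mono (A.ev_bd hF) (wle_of_eq fun z => by simp [xW, dW])
  have hev : ∀ φ : SG (lS c a b), ev0 φ = A.pull0.hom φ := fun φ => pb_eq A.pull0 φ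
  have hH0 : ev0 (F - ev0 F * (y * y)) = 0 := by
    rw [hev, map_sub, map_mul, map_mul, ← hev, ← hev, ← hev, hy0, A.ev_fix _ hr0]
    ring
  have hH : PG 1 (xW w * dW κ) (F - ev0 F * (y * y)) := by
    rw [sub_eq_add_neg]
    refine B.add hF (hneg (B.mono (B.mul hr (B.mul hy hy)) (wle_mul _ ?_)))
    rw [dW_add]
    exact W.d_le _ _ (by linarith)
  have hH1 : gD 0 (F - ev0 F * (y * y)) = S + 4 * ev0 F * y ^ 2 := by
    simp only [hD.sub, hD.mul, hr0, hy1, eF]
    ring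
  generalize F - ev0 F * (y * y) = H at hH0 hH hH1
  have hunit : etG (lS c a b) 1 * expG (-logG (etG (lS c a b) 1)) = 1 := by
    conv_lhs => rw [← B.exp_log hpos, B.log_exp, ← B.exp_add]
    rw [add_neg_cancel, B.exp_zero]
  obtain ⟨h, hh⟩ : ∃ h, (1 - y) * h = H := by
    refine ⟨(2 + cG _) * expG (-logG (etG (lS c a b) 1)) * avg (gD 0 H), ?_⟩
    have := A.ftc H
    rw [hH0, sub_zero] at this
    linear_combination this - expG (-logG (etG (lS c a b) 1)) * avg (gD 0 H) * het +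
      cG _ * avg (gD 0 H) * hunit
  have hh1 : (1 - y) * gD 0 h + 2 * h = gD 0 H + (H + H) := by
    rw [← hh]
    simp only [hD.sub, hD.mul, hD.one, hy1]
    ring
  have hhb : PG 1 (xW w * dW κ) h := by
    refine reg_bd B So h2 ?_
    rw [hy', hh1]
    exact B.add (by simpa using B.der 0 hH) (B.add hH hH)
  obtain ⟨g, hg⟩ := So.reg h
  have hgb : PG 1 (xW w * dW κ) g := reg_bd B So h2 (by rwa [hg])
  rw [hy'] at hg
  have h1y : PG 1 1 (1 - y) := by
    rw [sub_eq_add_neg]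
    refine B.add B.one (hneg (B.mono hy ?_))
    rw [← dW_zero]
    exact W.d_le _ _ (by norm_num)
  refine ⟨(1 - y) * g, -ev0 F, by rw [hD.neg, hr0, neg_zero], hneg hr,
    by simpa using B.mul h1y hgb, ?_⟩
  have e1 : gD 0 ((1 - y) * g) = h - 2 * ((1 - y) * g) := by
    simp only [hD.sub, hD.mul, hD.one, hy1]
    linear_combination hg
  have e2 : gD 0 (gD 0 ((1 - y) * g)) = gD 0 h - 2 * gD 0 ((1 - y) * g) := by
    conv_lhs => rw [e1]
    rw [hD.sub, two_mul, hD.add, two_mul]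
  rw [Dop, e2, e1]
  linear_combination hh1 + hH1 - 2 * hh

end Pool.Agent.Lib.MP_df9110_gt
end

-- part Pool.Agent.Lib.MP_df9110_gt.Sol
section

/-! The ordinary differential equations of the layer. -/

set_option linter.unusedVariables false
set_option linter.unusedSectionVars false

namespace Pool.Agent.Lib.MP_df9110_gt

open Filter Topology Set
open scoped ContDiff

namespace Sol

/-! ### One variable estimates -/

theorem mono1 {f f' : ℝ → ℝ} {s t : ℝ} (hst : s ≤ t)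
    (hf : ∀ u ∈ Icc s t, HasDerivAt f (f' u) u) (h : ∀ u ∈ Icc s t, 0 ≤ f' u) : f s ≤ f t := by
  have := monotoneOn_of_deriv_nonneg (convex_Icc s t)
    (fun u hu => (hf u hu).continuousAt.continuousWithinAt)
    (fun u hu => (hf u (interior_subset hu)).differentiableAt.differentiableWithinAt)
    (fun u hu => by rw [(hf u (interior_subset hu)).deriv]; exact h u (interior_subset hu))
  exact this (left_mem_Icc.2 hst) (right_mem_Icc.2 hst) hst

theorem cmp {g B g' B' : ℝ → ℝ} {s t : ℝ} (hst : s ≤ t)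
    (hg : ∀ u ∈ Icc s t, HasDerivAt g (g' u) u) (hB : ∀ u ∈ Icc s t, HasDerivAt B (B' u) u)
    (h : ∀ u ∈ Icc s t, |g' u| ≤ B' u) : |g t - g s| ≤ B t - B s := by
  have h1 := mono1 (f := fun u => B u - g u) (f' := fun u => B' u - g' u) hst
    (fun u hu => (hB u hu).sub (hg u hu)) (fun u hu => by linarith [(abs_le.1 (h u hu)).2])
  have h2 := mono1 (f := fun u => B u + g u) (f' := fun u => B' u + g' u) hst
    (fun u hu => (hB u hu).add (hg u hu)) (fun u hu => by linarith [(abs_le.1 (h u hu)).1])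
  rw [abs_le]
  constructor <;> linarith

theorem hd_exp (κ u : ℝ) :
    HasDerivAt (fun u => Real.exp (-(κ * u))) (-κ * Real.exp (-(κ * u))) u := by
  have h := (((hasDerivAt_id u).const_mul κ).neg).exp
  simp only [id, Pi.neg_apply, mul_one] at h
  convert h using 1
  ring

theorem tail {h h' : ℝ → ℝ} {s t κ A A' : ℝ} (hκ : 0 < κ) (hA : 0 ≤ A) (hst : s ≤ t)
    (hd : ∀ u ∈ Icc s t, HasDerivAt h (h' u) u)
    (hb : ∀ u ∈ Icc s t, |h' u| ≤ A * Real.exp (-(κ * u)) + A') :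
    |h t - h s| ≤ A / κ * Real.exp (-(κ * s)) + A' * (t - s) := by
  have h1 := cmp (B := fun u => -(A / κ) * Real.exp (-(κ * u)) + A' * u)
    (B' := fun u => A * Real.exp (-(κ * u)) + A') hst hd (fun u _ => by
      have := ((hd_exp κ u).const_mul (-(A / κ))).add ((hasDerivAt_id u).const_mul A')
      refine this.congr_deriv ?_
      field_simp) hb
  have h2 : 0 ≤ A / κ * Real.exp (-(κ * t)) := by positivity
  nlinarith

theorem int1 {h h' : ℝ → ℝ} {T κ A σ : ℝ} (hκ : 0 < κ) (hA : 0 ≤ A) (hT : 0 < T)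
    (hd : ∀ u ∈ Ioo (-1) T, HasDerivAt h (h' u) u)
    (hb : ∀ u ∈ Ioo (-1) T, |h' u| ≤ A * Real.exp (-(κ * u))) (h0 : h (T - 1) = 0)
    (hσ : σ ∈ Ioo (-1) T) : |h σ| ≤ Real.exp κ / κ * (A * Real.exp (-(κ * σ))) := by
  have he : 1 ≤ Real.exp κ := Real.one_le_exp hκ.le
  have hp : 0 ≤ A / κ * Real.exp (-(κ * σ)) := by positivity
  have hr : Real.exp κ / κ * (A * Real.exp (-(κ * σ))) =
      Real.exp κ * (A / κ * Real.exp (-(κ * σ))) := by ring
  rcases le_total σ (T - 1) with hs | hs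
  · have hsub : ∀ u ∈ Icc σ (T - 1), u ∈ Ioo (-1) T := fun u hu =>
      ⟨by linarith [hu.1, hσ.1], by linarith [hu.2]⟩
    have := tail (A' := 0) hκ hA hs (fun u hu => hd u (hsub u hu))
      (fun u hu => by simpa using hb u (hsub u hu))
    rw [h0, zero_sub, abs_neg] at this
    rw [hr]
    nlinarith
  · have hsub : ∀ u ∈ Icc (T - 1) σ, u ∈ Ioo (-1) T := fun u hu =>
      ⟨by linarith [hu.1], by linarith [hu.2, hσ.2]⟩
    have := tail (A' := 0) hκ hA hs (fun u hu => hd u (hsub u hu))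
      (fun u hu => by simpa using hb u (hsub u hu))
    rw [h0, sub_zero] at this
    have h3 : Real.exp (-(κ * (T - 1))) ≤ Real.exp κ * Real.exp (-(κ * σ)) := by
      rw [← Real.exp_add]
      exact Real.exp_le_exp.2 (by nlinarith [hσ.2])
    have h4 : 0 ≤ A / κ := by positivity
    rw [hr]
    nlinarith [mul_le_mul_of_nonneg_left h3 h4]

theorem hd_fac (η : ℝ) (n : ℕ) {k : ℝ → ℝ} {k' u : ℝ} (hk : HasDerivAt k k' u) :
    HasDerivAt (fun u => (η * (1 - Real.exp (-(2 * u)))) ^ (n + 1) * Real.exp (2 * u) * k u)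
      (η * ((η * (1 - Real.exp (-(2 * u)))) ^ n * Real.exp (2 * u)) *
        ((1 - Real.exp (-(2 * u))) * k' + (2 + 2 * n * Real.exp (-(2 * u))) * k u)) u := by
  have h1 := (((hd_exp 2 u).const_sub 1).const_mul η).pow (n + 1)
  have h2 : HasDerivAt (fun u => Real.exp (2 * u)) (2 * Real.exp (2 * u)) u := by
    have h := ((hasDerivAt_id u).const_mul 2).exp
    simp only [id, mul_one] at h
    convert h using 1
    ring
  refine ((h1.mul h2).mul hk).congr_deriv ?_
  simp only [Pi.pow_apply, Pi.mul_apply, Nat.add_sub_cancel]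
  push_cast
  ring

theorem reg1 {h h' : ℝ → ℝ} {T κ A₁ A₂ σ : ℝ} (n : ℕ) (hκ : κ < 2) (h1 : 0 ≤ A₁) (h2 : 0 ≤ A₂)
    (hT : 0 < T) (hd : ∀ u ∈ Ioo (-1) T, HasDerivAt h (h' u) u)
    (hb : ∀ u ∈ Ioo (-1) T, |(1 - Real.exp (-(2 * u))) * h' u +
      (2 + 2 * n * Real.exp (-(2 * u))) * h u| ≤ A₁ * Real.exp (-(κ * u)) + A₂)
    (hσ : σ ∈ Ioo (-1) T) :
    |h σ| ≤ (Real.exp (2 * |κ|) + 1 / min 2 (2 - κ)) * (A₁ * Real.exp (-(κ * σ)) + A₂) := by
  have hm : 0 < min 2 (2 - κ) := lt_min two_pos (by linarith)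
  have he : 1 ≤ Real.exp (2 * |κ|) := Real.one_le_exp (by positivity)
  have hW : 0 ≤ A₁ * Real.exp (-(κ * σ)) + A₂ := by positivity
  have hm' : 0 < 1 / min 2 (2 - κ) := by positivity
  rcases lt_trichotomy σ 0 with hs | hs | hs
  · have hsub : ∀ u ∈ Icc σ 0, u ∈ Ioo (-1) T := fun u hu =>
      ⟨by linarith [hu.1, hσ.1], by linarith [hu.2]⟩
    set V := A₁ * Real.exp |κ| + A₂ with hV
    have hV0 : 0 ≤ V := by positivity
    have key := cmp hs.le (fun u hu => hd_fac (-1) n (hd u (hsub u hu)))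
      (fun u _ => (hd_fac (-1) n (hasDerivAt_const u V)).neg) (fun u hu => by
        have hy : 1 ≤ Real.exp (-(2 * u)) := Real.one_le_exp (by linarith [hu.2])
        have hp : 0 ≤ (-1 * (1 - Real.exp (-(2 * u)))) ^ n * Real.exp (2 * u) :=
          mul_nonneg (pow_nonneg (by linarith) n) (Real.exp_pos _).le
        have hb' := hb u (hsub u hu)
        have hk : Real.exp (-(κ * u)) ≤ Real.exp |κ| := by
          refine Real.exp_le_exp.2 ?_
          have h5 : |κ * u| ≤ |κ| := by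
            rw [abs_mul]
            exact mul_le_of_le_one_right (abs_nonneg _)
              (abs_le.2 ⟨(hsub u hu).1.le, by linarith [hu.2]⟩)
          linarith [neg_abs_le (κ * u)]
        have h6 : A₁ * Real.exp (-(κ * u)) + A₂ ≤
            (2 + 2 * n * Real.exp (-(2 * u))) * V := by
          have : 0 ≤ 2 * n * Real.exp (-(2 * u)) * V := by positivity
          nlinarith [mul_le_mul_of_nonneg_left hk h1]
        rw [abs_mul, neg_one_mul, abs_neg, abs_of_nonneg hp]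
        nlinarith [mul_le_mul_of_nonneg_left (hb'.trans h6) hp])
    have hy : 1 < Real.exp (-(2 * σ)) := Real.one_lt_exp_iff.2 (by linarith)
    have hp : 0 < (-1 * (1 - Real.exp (-(2 * σ)))) ^ (n + 1) * Real.exp (2 * σ) :=
      mul_pos (pow_pos (by linarith) _) (Real.exp_pos _)
    simp only [mul_zero, neg_zero, Real.exp_zero, sub_self, ne_eq, Nat.add_eq_zero_iff,
      one_ne_zero, and_false, not_false_eq_true, zero_pow, zero_mul, zero_sub, abs_neg,
      Pi.neg_apply, neg_neg] at key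
    rw [abs_mul, abs_of_pos hp] at key
    have h7 : |h σ| ≤ V := le_of_mul_le_mul_left key hp
    have h8 : Real.exp |κ| ≤ Real.exp (2 * |κ|) * Real.exp (-(κ * σ)) := by
      rw [← Real.exp_add]
      refine Real.exp_le_exp.2 ?_
      have h5 : |κ * σ| ≤ |κ| := by
        rw [abs_mul]
        exact mul_le_of_le_one_right (abs_nonneg _) (abs_le.2 ⟨hσ.1.le, by linarith⟩)
      linarith [le_abs_self (κ * σ)]
    nlinarith [mul_le_mul_of_nonneg_left h8 h1, mul_nonneg hm'.le hW,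
      mul_le_mul_of_nonneg_right he h2]
  · subst hs
    have hb' := hb 0 hσ
    simp only [mul_zero, neg_zero, Real.exp_zero, sub_self, zero_mul, mul_one, zero_add] at hb' hW ⊢
    rw [abs_mul, abs_of_nonneg (by positivity : (0 : ℝ) ≤ 2 + 2 * n)] at hb'
    have : 0 ≤ (n : ℝ) * |h 0| := by positivity
    nlinarith [abs_nonneg (h 0), mul_nonneg hm'.le hW, mul_le_mul_of_nonneg_right he hW]
  · have hsub : ∀ u ∈ Icc 0 σ, u ∈ Ioo (-1) T := fun u hu =>
      ⟨by linarith [hu.1], by linarith [hu.2, hσ.2]⟩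
    set m := min 2 (2 - κ) with hmd
    have key := cmp hs.le (fun u hu => hd_fac 1 n (hd u (hsub u hu)))
      (fun u _ => (hd_fac 1 n ((((hd_exp κ u).const_mul A₁).add_const A₂).const_mul (1 / m))))
      (fun u hu => by
        have hy : Real.exp (-(2 * u)) ≤ 1 := Real.exp_le_one_iff.2 (by linarith [hu.1])
        have hy0 := Real.exp_pos (-(2 * u))
        have hp : 0 ≤ (1 * (1 - Real.exp (-(2 * u)))) ^ n * Real.exp (2 * u) :=
          mul_nonneg (pow_nonneg (by linarith) n) (Real.exp_pos _).le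
        have hb' := hb u (hsub u hu)
        have ha : 0 ≤ A₁ * Real.exp (-(κ * u)) := by positivity
        have h5 : m ≤ 2 - κ * (1 - Real.exp (-(2 * u))) := by
          rcases le_total 0 κ with hk | hk
          · have := min_le_right 2 (2 - κ)
            nlinarith
          · have := min_le_left 2 (2 - κ)
            nlinarith
        have h6 : m * (A₁ * Real.exp (-(κ * u)) + A₂) ≤
            (1 - Real.exp (-(2 * u))) * (A₁ * (-κ * Real.exp (-(κ * u)))) +
            (2 + 2 * n * Real.exp (-(2 * u))) * (A₁ * Real.exp (-(κ * u)) + A₂) := by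
          have h7 : 0 ≤ 2 * n * Real.exp (-(2 * u)) * (A₁ * Real.exp (-(κ * u)) + A₂) := by
            positivity
          nlinarith [mul_le_mul_of_nonneg_right h5 ha,
            mul_le_mul_of_nonneg_right (min_le_left 2 (2 - κ)) h2]
        have h8 : A₁ * Real.exp (-(κ * u)) + A₂ ≤
            (1 - Real.exp (-(2 * u))) * (1 / m * (A₁ * (-κ * Real.exp (-(κ * u))))) +
            (2 + 2 * n * Real.exp (-(2 * u))) * (1 / m * (A₁ * Real.exp (-(κ * u)) + A₂)) := by
          have h9 := mul_le_mul_of_nonneg_left h6 hm'.le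
          have h10 : 1 / m * (m * (A₁ * Real.exp (-(κ * u)) + A₂)) =
              A₁ * Real.exp (-(κ * u)) + A₂ := by field_simp
          rw [h10] at h9
          linarith
        rw [abs_mul, one_mul, abs_of_nonneg hp]
        exact mul_le_mul_of_nonneg_left (hb'.trans h8) hp)
    have hy : Real.exp (-(2 * σ)) < 1 := Real.exp_lt_one_iff.2 (by linarith)
    have hp : 0 < (1 * (1 - Real.exp (-(2 * σ)))) ^ (n + 1) * Real.exp (2 * σ) :=
      mul_pos (pow_pos (by linarith) _) (Real.exp_pos _)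
    simp only [mul_zero, neg_zero, Real.exp_zero, sub_self, ne_eq, Nat.add_eq_zero_iff,
      one_ne_zero, and_false, not_false_eq_true, zero_pow, zero_mul, sub_zero] at key
    rw [abs_mul, abs_of_pos hp] at key
    have h7 := le_of_mul_le_mul_left key hp
    nlinarith [mul_nonneg (Real.exp_pos (2 * |κ|)).le hW]

theorem exp_small (M : ℕ) {δ ε : ℝ} (hδ : 0 < δ) (hε : 0 < ε) :
    Real.exp (-(δ / ε)) ≤ (M.factorial : ℝ) / δ ^ M * ε ^ M := by
  have h := Real.pow_div_factorial_le_exp (δ / ε) (by positivity) M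
  have hp : 0 < (δ / ε) ^ M / (M.factorial : ℝ) := by positivity
  rw [Real.exp_neg]
  refine (inv_anti₀ hp h).trans (le_of_eq ?_)
  rw [div_pow]
  field_simp

theorem slice {F : En 2 → ℝ} {s x : ℝ} (hF : ContDiffAt ℝ ∞ F ![s, x]) :
    HasDerivAt (fun u => F ![u, x]) (pdn 0 F ![s, x]) s := by
  have hc : HasDerivAt (fun u : ℝ => (![u, x] : En 2)) (Pi.single 0 1) s :=
    hasDerivAt_pi.2 fun i => by
      fin_cases i
      · simpa using hasDerivAt_id' s
      · simpa using hasDerivAt_const s x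
  exact (hF.differentiableAt (by simp)).hasFDerivAt.comp_hasDerivAt s hc

theorem eta (p : En 2) : ![p 0, p 1] = p := by
  funext i
  fin_cases i <;> rfl

/-! ### Algebra -/

section Alg

variable {R : Type} [CommRing R] [Algebra ℝ R] {D : Fin 2 → R → R}

/-- The operators that appear when the equation is differentiated. -/
noncomputable def LL (D : Fin 2 → R → R) (y : R) (r : ℝ) (h : R) : R :=
  (1 - y) * D 0 h + (2 + (2 * r) • y) * h

theorem LL_zero (y h : R) : LL D y ((0 : ℕ) : ℝ) h = (1 - y) * D 0 h + 2 * h := by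
  simp [LL]

theorem split (r : ℝ) (h k : R) : k = (k + (-r) • h) + r • h := by simp

theorem LL_T (hD : IsDer D) {y : R} (y0 : D 0 y = -(2 * y)) (n : ℕ) (h : R) :
    LL D y ((n + 1 : ℕ) : ℝ) (D 0 h + (-(2 * n : ℝ)) • h) =
      D 0 (LL D y n h) + (-(2 * n : ℝ)) • LL D y n h := by
  simp only [LL, hD.add, hD.mul, hD.sub, hD.one, hD.ofNat, hD.smul, y0]
  push_cast
  algebra

theorem LL_smul (hD : IsDer D) (y : R) (r t : ℝ) (h : R) :
    LL D y r (t • h) = t • LL D y r h := by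
  simp only [LL, hD.smul]
  algebra

theorem LL_D1 (hD : IsDer D) {y : R} (y1 : D 1 y = 0) (r : ℝ) (h : R) :
    LL D y r (D 1 h) = D 1 (LL D y r h) := by
  simp only [LL, hD.add, hD.mul, hD.sub, hD.one, hD.ofNat, hD.smul, y1, hD.comm 0 1 h]
  algebra

theorem reg_alg (hD : IsDer D) {E y c et ei S A : R} (hEy : E * y = 1) (hi : et * ei = 1)
    (eeq : c * et = (2 + c) * (1 - y)) (c0 : D 0 c = 1) (dE : D 0 E = E * D 0 (2 * c))
    (hA : D 0 (c * A) = E * S) : ∃ g, (1 - y) * D 0 g + 2 * g = S := by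
  rw [hD.mul, hD.ofNat, c0] at dE
  obtain ⟨g, hg⟩ : ∃ g, g = A * y * (2 + c) * ei := ⟨_, rfl⟩
  have h1 : (E - 1) * g = c * A := by
    rw [hg]
    linear_combination (-(A * ei)) * eeq + (A * (2 + c) * ei) * hEy + (c * A) * hi
  have h2 := congrArg (D 0) h1
  rw [hA, hD.mul, hD.sub, hD.one, dE] at h2
  exact ⟨g, by linear_combination y * h2 - (D 0 g + 2 * g - S) * hEy⟩

end Alg

/-! ### Germs -/

section G

variable {l : Filter Z2}

theorem val_mk (F : SmF l) : ∀ᶠ z in l, val (mkG l F) z = F.1 z.1 z.2 := mkG_eq.1 (mkG_rep _)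

theorem val_D (φ : SG l) (j : Fin 2) :
    ∀ᶠ z in l, val (gD j φ) z = pdn j ((rep φ).1 z.1) z.2 := val_mk (sfD l j (rep φ))

theorem val_add (φ ψ : SG l) : ∀ᶠ z in l, val (φ + ψ) z = val φ z + val ψ z := by
  have h := val_mk (rep φ + rep ψ)
  rwa [map_add, mkG_rep, mkG_rep] at h

theorem wle_add {φ ψ : SG l} {w : Z2 → ℝ} (h1 : WLe l (val φ) w) (h2 : WLe l (val ψ) w) :
    WLe l (val (φ + ψ)) w := by
  obtain ⟨A, hA⟩ := h1
  obtain ⟨B, hB⟩ := h2
  refine ⟨A + B, ?_⟩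
  filter_upwards [hA, hB, val_add φ ψ] with z h1 h2 h3
  rw [h3]
  linarith [abs_add_le (val φ z) (val ψ z)]

theorem pg_val {φ : SG l} {w : Z2 → ℝ} (h : PG 1 w φ) :
    ∃ A : ℝ, 0 ≤ A ∧ ∀ᶠ z in l, |val φ z| ≤ A * |w z| := by
  obtain ⟨A, hA⟩ := h.2 0
  refine ⟨|A|, abs_nonneg _, ?_⟩
  filter_upwards [hA] with z hz
  exact le_trans hz (mul_le_mul_of_nonneg_right (le_abs_self A) (abs_nonneg _))

theorem pg_one {φ : SG l} {w : Z2 → ℝ} (h : PG 1 (w * 1) φ) : PG 1 w φ := by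
  rwa [mul_one] at h

theorem val_LL {y : ℝ → En 2 → ℝ} (ym : y ∈ SmF l) (r : ℝ) (h : SG l) :
    ∀ᶠ z in l, val (LL gD (gm l y) r h) z =
      (1 - y z.1 z.2) * val (gD 0 h) z + (2 + 2 * r * y z.1 z.2) * val h z := by
  have e : LL gD (gm l y) r h = mkG l (LL (fun j _ => rep (gD j h)) ⟨y, ym⟩ r (rep h)) := by
    simp only [map_add, map_mul, map_sub, map_one, map_ofNat, map_smul, mkG_rep, LL, gm_eq ym]
  rw [e]
  filter_upwards [val_mk (LL (fun j _ => rep (gD j h)) ⟨y, ym⟩ r (rep h))] with z hz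
  rw [hz]
  rfl

/-- Sums of solutions. -/
inductive Cl (w : Z2 → ℝ) (y : SG l) : SG l → Prop
  | base (n : ℕ) (h : SG l) : PG 1 w (LL gD y n h) → Cl w y h
  | add (h h' : SG l) : Cl w y h → Cl w y h' → Cl w y (h + h')

variable [OpF l]

theorem cl_der (B : B2Facts l 1) {w : Z2 → ℝ} {y : SG l} (y0 : gD 0 y = -(2 * y))
    (y1 : gD 1 y = 0) {φ : SG l} (hφ : Cl w y φ) (j : Fin 2) : Cl w y (gD j φ) := by
  have hD := isDer_gD (l := l)
  induction hφ with
  | add h h' _ _ i1 i2 =>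
    rw [hD.add]
    exact Cl.add _ _ i1 i2
  | base n h hh =>
    fin_cases j
    · change Cl _ _ (gD 0 h)
      rw [split (2 * n) h (gD 0 h)]
      refine Cl.add _ _ (Cl.base (n + 1) _ ?_) (Cl.base n _ ?_)
      · rw [LL_T hD y0]
        exact B.add (pg_one (B.der 0 hh)) (B.smul _ hh)
      · rw [LL_smul hD]
        exact B.smul _ hh
    · change Cl _ _ (gD 1 h)
      refine Cl.base n _ ?_
      rw [LL_D1 hD y1]
      exact pg_one (B.der 1 hh)

theorem exp_neg (B : B2Facts l 1) (φ : SG l) : expG φ * expG (-φ) = 1 := by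
  rw [← B.exp_add, add_neg_cancel, B.exp_zero]

theorem y_exp (B : B2Facts l 1) (cm : (fun (_ : ℝ) (p : En 2) => p 0) ∈ SmF l) :
    yG l 1 = expG (l := l) (-(2 * cG l)) := by
  have h1 : -(2 * cG l) = mkG l (-(2 * ⟨_, cm⟩)) := by
    rw [map_neg, map_mul, map_ofNat, cG, gm_eq cm]
  rw [h1, (B.exp_mk _).1, yG]
  congr 1
  funext ε p
  exact one_mul _

theorem reg0 (B : B2Facts l 1) {a b : ℝ} (A : AvgFacts l a b) (W : WtFacts l) (h1 : IsCut 1)
    (S : SG l) : ∃ g, (1 - yG l 1) * gD 0 g + 2 * g = S := by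
  obtain ⟨-, epos, -, eeq, -⟩ := W.et 1 h1
  obtain ⟨cm, c0, -⟩ := A.crd
  have hi := exp_neg B (logG (etG l 1))
  rw [B.exp_log epos] at hi
  have hy := exp_neg B (2 * cG l)
  rw [← y_exp B cm] at hy
  exact reg_alg isDer_gD hy hi eeq c0 (B.exp_der _ 0) (A.avg_der _)

theorem x_one : xG l (deriv id) = 1 := by
  have : (fun (_ : ℝ) (p : En 2) => deriv id (p 1)) = 1 := by
    funext _ p
    simp
  unfold xG
  rw [this, gm_eq (SmF _).one_mem]
  exact map_one (mkG _)

theorem hom_der (B : B2Facts l 1) {a b : ℝ} (A : AvgFacts l a b) {s : ℝ → ℝ}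
    (hP : IsPull l l fun ε p => ![s ε, p 1]) (φ : SG l) :
    gD 0 (hP.hom φ) = 0 ∧ gD 1 (hP.hom φ) = hP.hom (gD 1 φ) ∧ hP.hom (hP.hom φ) = hP.hom φ := by
  obtain ⟨-, x0, x1, -⟩ := A.xfun id fun _ _ => contDiffAt_id
  have hp := (B.par s).2.2
  refine ⟨?_, ?_, ?_⟩
  · rw [(B.pull hP).1, Fin.sum_univ_two]
    have e0 : gD 0 (gm l fun (j : ℝ) (p : En 2) => ![s j, p 1] 0) = 0 := hp 0
    have e1 : gD 0 (gm l fun (j : ℝ) (p : En 2) => ![s j, p 1] 1) = 0 := x0
    rw [e0, e1, zero_mul, zero_mul, add_zero]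
  · rw [(B.pull hP).1, Fin.sum_univ_two]
    have e0 : gD 1 (gm l fun (j : ℝ) (p : En 2) => ![s j, p 1] 0) = 0 := hp 1
    have e1 : gD 1 (gm l fun (j : ℝ) (p : En 2) => ![s j, p 1] 1) = 1 := x1.trans x_one
    rw [e0, e1, zero_mul, one_mul, zero_add]
  · obtain ⟨F, rfl⟩ := mkG_surj φ
    rw [hP.hom_mk, hP.hom_mk, mkG_eq]
    exact Eventually.of_forall fun z => rfl

/-- A class of germs with bounded values that is stable under derivatives is bounded. -/
theorem pg_of_class (b1 : B1Stmt) {w : Z2 → ℝ} (C : SG l → Prop)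
    (hv : ∀ φ, C φ → WLe l (val φ) w)
    (hd : ∀ φ, C φ → ∀ j, C (gD j φ) ∨ PG 1 w (gD j φ)) {φ : SG l} (h : C φ) : PG 1 w φ := by
  have key : ∀ k (φ : SG l), (C φ ∨ PG 1 w φ) →
      ∃ A : ℝ, ∀ᶠ z in l, WB 1 k (A * |w z|) ((rep φ).1 z.1) z.2 := by
    intro k
    induction k with
    | zero =>
      rintro φ (h | h)
      · exact hv φ h
      · exact h.2 0
    | succ k ih =>
      rintro φ (h | h)
      · obtain ⟨A, hA⟩ := hv φ h
        obtain ⟨A0, h0⟩ := ih _ (hd φ h 0)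
        obtain ⟨A1, h1⟩ := ih _ (hd φ h 1)
        refine ⟨|A| + |A0| + |A1|, ?_⟩
        filter_upwards [hA, h0, h1, OpF.op (val_D φ 0), OpF.op (val_D φ 1)] with z hA h0 h1 e0 e1
        have hw := abs_nonneg (w z)
        have a0 := abs_nonneg A
        have a1 := abs_nonneg A0
        have a2 := abs_nonneg A1
        refine ⟨le_trans hA (mul_le_mul_of_nonneg_right (by linarith [le_abs_self A]) hw),
          fun i => ?_⟩
        fin_cases i
        · refine (b1 2).mono ((b1 2).congr h0 e0) zero_le_one le_rfl ?_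
          rw [mul_one]
          exact mul_le_mul_of_nonneg_right (by linarith [le_abs_self A0]) hw
        · refine (b1 2).mono ((b1 2).congr h1 e1) zero_le_one le_rfl ?_
          rw [mul_one]
          exact mul_le_mul_of_nonneg_right (by linarith [le_abs_self A1]) hw
      · exact h.2 (k + 1)
  exact ⟨(rep φ).2, fun k => key k φ (Or.inl h)⟩

theorem int0 (b1 : B1Stmt) (B : B2Facts l 1) {a b : ℝ} (A : AvgFacts l a b) {s : ℝ → ℝ}
    (hP : IsPull l l fun ε p => ![s ε, p 1]) {w : Z2 → ℝ}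
    (hv : ∀ φ : SG l, PG 1 w (gD 0 φ) → (∀ᶠ z in l, val φ (z.1, ![s z.1, z.2 1]) = 0) →
      WLe l (val φ) w) (S : SG l) (hS : PG 1 w S) : ∃ f, PG 1 w f ∧ gD 0 f = S := by
  have hD := isDer_gD (l := l)
  have hf : gD 0 (cG l * avg S - hP.hom (cG l * avg S)) = S := by
    rw [hD.sub, (hom_der B A hP _).1, A.avg_der, sub_zero]
  refine ⟨_, ?_, hf⟩
  refine pg_of_class b1 (fun φ => PG 1 w (gD 0 φ) ∧ hP.hom φ = 0) ?_ ?_
    ⟨by rw [hf]; exact hS, by rw [map_sub, (hom_der B A hP _).2.2, sub_self]⟩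
  · rintro φ ⟨h1, h2⟩
    refine hv φ h1 ?_
    rw [← mkG_rep φ, hP.hom_mk, ← map_zero (mkG l), mkG_eq] at h2
    exact h2
  · rintro φ ⟨h1, h2⟩ j
    fin_cases j
    · exact Or.inr h1
    · refine Or.inl ⟨?_, ?_⟩
      · change PG 1 _ (gD 0 (gD 1 φ))
        rw [hD.comm]
        exact pg_one (B.der 1 h1)
      · change hP.hom (gD 1 φ) = 0
        rw [← (hom_der B A hP _).2.1, h2, hD.zero]

end G

section S

variable {c a b : ℝ}

theorem ev_slice {P : Z2 → Prop} (h : ∀ᶠ z in lS c a b, P z) :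
    ∀ᶠ z in lS c a b, 0 < z.1 ∧ z.2 0 ∈ Ioo (-1) (c / z.1) ∧
      ∀ u ∈ Ioo (-1) (c / z.1), P (z.1, ![u, z.2 1]) := by
  unfold lS at h ⊢
  rw [ev_fam] at h ⊢
  filter_upwards [h, self_mem_nhdsWithin] with ε h hε p hp
  have hε' : 0 < ε := hε
  refine ⟨hε', ⟨hp.1, ?_⟩, fun u hu => h _ ⟨hu.1, ?_, hp.2.2⟩⟩
  · rw [lt_div_iff₀ hε', mul_comm]
    exact hp.2.1
  · have := hu.2
    rw [lt_div_iff₀ hε', mul_comm] at this
    exact this

theorem ev_one : ∀ᶠ z in lS c a b, z.1 ≤ 1 := by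
  unfold lS
  rw [ev_fam]
  filter_upwards [mem_nhdsWithin_of_mem_nhds (Iic_mem_nhds (zero_lt_one' ℝ))] with ε h p _
  exact h

theorem ev_der (φ : SG (lS c a b)) : ∀ᶠ z in lS c a b, ∀ u ∈ Ioo (-1) (c / z.1),
    HasDerivAt (fun u => val φ (z.1, ![u, z.2 1])) (val (gD 0 φ) (z.1, ![u, z.2 1])) u := by
  have h0 : ∀ᶠ z in lS c a b, ContDiffAt ℝ ∞ ((rep φ).1 z.1) z.2 := (rep φ).2
  filter_upwards [ev_slice (h0.and (val_D φ 0))] with z hz u hu
  obtain ⟨h1, h2⟩ := hz.2.2 u hu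
  rw [h2]
  exact slice h1

theorem pull1 (hc : 0 < c) :
    IsPull (lS c a b) (lS c a b) fun ε p => ![c / ε - 1, p 1] where
  smooth i := by
    fin_cases i
    · change ∀ᶠ z : Z2 in lS c a b, ContDiffAt ℝ ∞ (fun _ : En 2 => c / z.1 - 1) z.2
      exact Eventually.of_forall fun z => contDiffAt_const
    · change ∀ᶠ z : Z2 in lS c a b, ContDiffAt ℝ ∞ (fun p : En 2 => p 1) z.2
      exact Eventually.of_forall fun z => (contDiff_apply ℝ ℝ (1 : Fin 2)).contDiffAt
  tend := by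
    rw [tendsto_iff_eventually]
    intro P hP
    filter_upwards [ev_slice hP] with z hz
    have : 0 < c / z.1 := div_pos hc hz.1
    exact hz.2.2 _ ⟨by linarith, by linarith⟩

theorem int (b1 : B1Stmt) (b2 : B2Stmt) (av : AvgStmt) (hc : 0 < c) (κ : ℝ) (w : ℝ → ℝ → ℝ)
    (S : SG (lS c a b)) (hκ : 0 < κ) (hS : PG 1 (xW w * dW κ) S) :
    ∃ f, PG 1 (xW w * dW κ) f ∧ gD 0 f = S := by
  refine int0 b1 (b2 ℝ 2 (lS c a b) 1 fun _ => zero_le_one) (av.1 c a b hc) (pull1 hc) ?_ S hS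
  intro φ h1 h3
  obtain ⟨K, hK0, hK⟩ := pg_val h1
  refine ⟨Real.exp κ / κ * K, ?_⟩
  filter_upwards [ev_slice hK, ev_der φ, h3] with z hz hd h0
  have := int1 (A := K * |w z.1 (z.2 1)|) hκ (by positivity) (div_pos hc hz.1) hd
    (fun u hu => by
      have h4 := hz.2.2 u hu
      simp only [Pi.mul_apply, xW, dW, Matrix.cons_val_one, Matrix.cons_val_zero, abs_mul,
        Real.abs_exp] at h4
      linarith) h0 hz.2.1
  simp only [eta] at this
  simp only [Pi.mul_apply, xW, dW, abs_mul, Real.abs_exp]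
  linarith

theorem cut1 : IsCut 1 := ⟨contDiff_const, fun _ => ⟨zero_le_one, le_rfl⟩, 1, one_pos, fun _ _ => rfl⟩

theorem reg_bd (b1 : B1Stmt) (b2 : B2Stmt) (wt : WtStmt) (hc : 0 < c) (κ : ℝ)
    (w₁ w₂ : ℝ → ℝ → ℝ) (g : SG (lS c a b)) (hκ : κ < 2) (h1 : ∀ ε x, 0 ≤ w₁ ε x)
    (h2 : ∀ ε x, 0 ≤ w₂ ε x)
    (hS : PG 1 (xW w₁ * dW κ + xW w₂) ((1 - yG (lS c a b) 1) * gD 0 g + 2 * g)) :
    PG 1 (xW w₁ * dW κ + xW w₂) g := by
  have B := b2 ℝ 2 (lS c a b) 1 fun _ => zero_le_one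
  have W := wt c a b hc
  rw [← LL_zero (D := gD) (yG (lS c a b) 1) g] at hS
  refine pg_of_class b1 (Cl (xW w₁ * dW κ + xW w₂) (yG (lS c a b) 1)) ?_
    (fun φ hφ j => Or.inl (cl_der B W.y1.1 (W.y 1 cut1).2.1 hφ j)) (Cl.base 0 g hS)
  intro φ hφ
  induction hφ with
  | add h h' _ _ i1 i2 => exact wle_add i1 i2
  | base n h hh =>
    obtain ⟨K, hK0, hK⟩ := pg_val hh
    have h3 := val_LL (W.sm 1 cut1).1 n h
    refine ⟨(Real.exp (2 * |κ|) + 1 / min 2 (2 - κ)) * K, ?_⟩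
    filter_upwards [ev_slice (hK.and h3), ev_der h] with z hz hd
    have p1 := h1 z.1 (z.2 1)
    have p2 := h2 z.1 (z.2 1)
    have := reg1 (A₁ := K * w₁ z.1 (z.2 1)) (A₂ := K * w₂ z.1 (z.2 1)) n hκ (by positivity)
      (by positivity) (div_pos hc hz.1) hd
      (fun u hu => by
        obtain ⟨h4, h5⟩ := hz.2.2 u hu
        unfold yG at h4
        rw [h5] at h4
        simp only [Pi.mul_apply, Pi.add_apply, xW, dW, yR, Pi.one_apply, one_mul,
          Matrix.cons_val_one, Matrix.cons_val_zero] at h4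
        rw [abs_of_nonneg (a := w₁ _ _ * _ + _) (by positivity)] at h4
        linarith) hz.2.1
    simp only [eta] at this
    simp only [Pi.mul_apply, Pi.add_apply, xW, dW]
    rw [abs_of_nonneg (a := w₁ _ _ * _ + _) (by positivity)]
    linarith

theorem far (b1 : B1Stmt) (b2 : B2Stmt) (hc : 0 < c) (κ : ℝ) (j M : ℕ) (f : SG (lS c a b))
    (hκ : 0 < κ) (h1 : PG 1 (eW ^ j * dW κ + eW ^ (M + 1)) (gD 0 f))
    (h2 : PG 1 (dW κ + eW ^ M) f) : PG 1 (eW ^ j * dW κ + eW ^ M) f := by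
  have B := b2 ℝ 2 (lS c a b) 1 fun _ => zero_le_one
  have hD := isDer_gD (l := lS c a b)
  refine pg_of_class b1 (fun φ => PG 1 (eW ^ j * dW κ + eW ^ (M + 1)) (gD 0 φ) ∧
    PG 1 (dW κ + eW ^ M) φ) ?_ ?_ ⟨h1, h2⟩
  · rintro φ ⟨h1, h2⟩
    obtain ⟨K, hK0, hK⟩ := pg_val h1
    obtain ⟨L, hL0, hL⟩ := pg_val h2
    have hδ : 0 < κ * c / 2 := by positivity
    set Q : ℝ := (M.factorial : ℝ) / (κ * c / 2) ^ M with hQ
    have hQ0 : 0 ≤ Q := by positivity
    refine ⟨K / κ + L * (Q + 1) + K * (c / 2 + 1), ?_⟩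
    filter_upwards [ev_slice (hK.and hL), ev_der φ, ev_one] with z hz hd hε1
    obtain ⟨hε, hσ, hz⟩ := hz
    have hT : 0 < c / z.1 := div_pos hc hε
    set s := max (z.2 0) (c / z.1 / 2) with hs
    have hs1 : z.2 0 ≤ s := le_max_left _ _
    have hs2 : s < c / z.1 := max_lt hσ.2 (by linarith)
    have hsub : ∀ u ∈ Icc (z.2 0) s, u ∈ Ioo (-1) (c / z.1) := fun u hu =>
      ⟨by linarith [hu.1, hσ.1], by linarith [hu.2]⟩
    have t1 := tail (A := K * z.1 ^ j) (A' := K * z.1 ^ (M + 1)) hκ (by positivity) hs1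
      (fun u hu => hd u (hsub u hu)) (fun u hu => by
        have h4 := (hz u (hsub u hu)).1
        simp only [Pi.mul_apply, Pi.add_apply, Pi.pow_apply, eW, dW, Matrix.cons_val_zero] at h4
        rw [abs_of_nonneg (a := z.1 ^ j * _ + _) (by positivity)] at h4
        linarith)
    have t2 := (hz s (hsub s (right_mem_Icc.2 hs1))).2
    simp only [Pi.add_apply, Pi.pow_apply, eW, dW, Matrix.cons_val_zero] at t2
    rw [abs_of_nonneg (a := Real.exp _ + _) (by positivity)] at t2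
    have t3 : Real.exp (-(κ * s)) ≤ Q * z.1 ^ M := by
      refine le_trans (Real.exp_le_exp.2 ?_) (exp_small M hδ hε)
      have h5 : c / z.1 / 2 ≤ s := le_max_right _ _
      have h6 : κ * c / 2 / z.1 = κ * (c / z.1 / 2) := by ring
      rw [h6]
      nlinarith
    have t4 : z.1 ^ (M + 1) * (s - z.2 0) ≤ (c / 2 + 1) * z.1 ^ M := by
      have h5 : s - z.2 0 ≤ c / z.1 / 2 + 1 := by
        have : s ≤ z.2 0 + (c / z.1 / 2 + 1) := max_le (by linarith) (by linarith [hσ.1])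
        linarith
      have h6 : z.1 * (c / z.1 / 2 + 1) = c / 2 + z.1 := by field_simp
      have h7 : z.1 * (s - z.2 0) ≤ c / 2 + 1 := by
        nlinarith [mul_le_mul_of_nonneg_left h5 hε.le]
      rw [pow_succ]
      nlinarith [mul_le_mul_of_nonneg_left h7 (pow_nonneg hε.le M)]
    simp only [eta] at t1
    simp only [Pi.mul_apply, Pi.add_apply, Pi.pow_apply, eW, dW]
    rw [abs_of_nonneg (a := z.1 ^ j * _ + _) (by positivity)]
    have p1 : 0 ≤ z.1 ^ j * Real.exp (-(κ * z.2 0)) := by positivity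
    have p2 : 0 ≤ z.1 ^ M := by positivity
    have p3 : 0 ≤ K / κ := by positivity
    have p4 : 0 ≤ L * (Q + 1) + K * (c / 2 + 1) := by positivity
    have t5 : |val φ z| ≤ |val φ (z.1, ![s, z.2 1]) - val φ z| + |val φ (z.1, ![s, z.2 1])| := by
      have := abs_sub (val φ (z.1, ![s, z.2 1])) (val φ (z.1, ![s, z.2 1]) - val φ z)
      rw [sub_sub_cancel] at this
      linarith
    have t6 : K * z.1 ^ j / κ * Real.exp (-(κ * z.2 0)) =
        K / κ * (z.1 ^ j * Real.exp (-(κ * z.2 0))) := by ring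
    nlinarith [mul_le_mul_of_nonneg_left t3 hL0, mul_le_mul_of_nonneg_left t4 hK0,
      mul_nonneg p3 p2, mul_nonneg p4 p1]
  · rintro φ ⟨h1, h2⟩ i
    fin_cases i
    · refine Or.inr (B.mono h1 ⟨1, ?_⟩)
      filter_upwards [ev_slice (P := fun _ => True) (Eventually.of_forall fun _ => trivial),
        ev_one] with z hz hε1
      have hε := hz.1
      simp only [Pi.mul_apply, Pi.add_apply, Pi.pow_apply, eW, dW]
      rw [abs_of_nonneg (by positivity), abs_of_nonneg (by positivity), one_mul, pow_succ]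
      nlinarith [pow_nonneg hε.le M]
    · refine Or.inl ⟨?_, pg_one (B.der 1 h2)⟩
      change PG 1 _ (gD 0 (gD 1 φ))
      rw [hD.comm]
      exact pg_one (B.der 1 h1)

end S

end Sol

theorem solS (b1 : B1Stmt) (b2 : B2Stmt) (pi1 : PI1Stmt) (av : AvgStmt) (wt : WtStmt) :
    SolStmt := fun c a b hc =>
  ⟨Sol.int b1 b2 av hc,
    Sol.reg0 (b2 ℝ 2 (lS c a b) 1 fun _ => zero_le_one) (av.1 c a b hc) (wt c a b hc) Sol.cut1,
    Sol.reg_bd b1 b2 wt hc, Sol.far b1 b2 hc⟩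

end Pool.Agent.Lib.MP_df9110_gt
end
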