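import Pool.Agent.Lib.MP_df9110_gt.NIter

-- part Pool.Agent.Lib.MP_df9110_gt.StepL
section

/-! The layer step of the iteration. -/

namespace Pool.Agent.Lib.MP_df9110_gt

open Filter Topology Set
open scoped ContDiff

namespace StepL

/-- The corrected layer. -/
def upd {R : Type} [CommRing R] (G : Lay R) (r r₂ ξ : R) (Z : Fin 5 → R) : Lay R :=
  { G with
    uw := G.uw + r, uo := G.uo + r₂, lam := G.lam + Z 0, gam := G.gam + Z 1, nu := G.nu + Z 2,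
    w1 := G.w1 + Z 3, w2 := G.w2 + Z 4, rho := G.rho + r, xi1 := G.xi1 + ξ }

section Alg

variable {R W : Type} [CommRing R] [Algebra ℝ R] [CommMonoid W] {D : Fin 2 → R → R}
  {E Lg : R → R} {P : W → R → Prop} {Pos : R → Prop} {Sml : W → Prop}

theorem e_fst (G G' : Lay R) (k : Fin 5) :
    ((Gen.pairLay G G').e (pairD D) (pairE E) k).1 = G.e D E k :=
  (Lay.map_e (AlgHom.fst ℝ R R) (Gen.fst_D D) (Gen.fst_E E) (Gen.pairLay G G') k).symm

theorem e_snd (G G' : Lay R) (k : Fin 5) :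
    ((Gen.pairLay G G').e (pairD D) (pairE E) k).2 = G'.e D E k :=
  (Lay.map_e (AlgHom.snd ℝ R R) (Gen.snd_D D) (Gen.snd_E E) (Gen.pairLay G G') k).symm

theorem elay_fst (G G' : Lay R) (k : Fin 5) :
    ((Gen.pairLay G G').elay (pairD D) (pairE E) k).1 = G.elay D E k :=
  (Lay.map_elay (AlgHom.fst ℝ R R) (Gen.fst_D D) (Gen.fst_E E) (Gen.pairLay G G') k).symm

theorem elay_snd (G G' : Lay R) (k : Fin 5) :
    ((Gen.pairLay G G').elay (pairD D) (pairE E) k).2 = G'.elay D E k :=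
  (Lay.map_elay (AlgHom.snd ℝ R R) (Gen.snd_D D) (Gen.snd_E E) (Gen.pairLay G G') k).symm

theorem Xi_upd (hD : IsDer D) (G : Lay R) (r r₂ ξ : R) (Z : Fin 5 → R) :
    (upd G r r₂ ξ Z).Xi D E = G.Xi D E + D 1 (r - r * G.y) := by
  have e1 : (upd G r r₂ ξ Z).lal D E = G.lal D E := rfl
  have e2 : (upd G r r₂ ξ Z).lA = G.lA + (-2 : ℝ) • (Z 0 + r * G.y) := by
    simp only [Lay.lA, upd]
    algebra
  have e3 : (upd G r r₂ ξ Z).u₁ = G.u₁ + (r + Z 0) := by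
    simp only [Lay.u₁, upd]
    ring
  rw [Lay.Xi, Lay.Xi, e1, e2, e3]
  simp only [hD.add, hD.smul, hD.sub]
  algebra

variable (h : WR D E Lg P Pos Sml)
include h

theorem pr1 {v : W} {x y : R} (a : P 1 x) (b : P v (y - x)) : pairP P v 1 (x, y) :=
  ⟨a, h.congr b (one_mul v).symm⟩

theorem pr0 {v : W} {y : R} (b : P v y) : pairP P v 1 (0, y) :=
  pr1 h (h.zero 1) (by rwa [sub_zero])

/-- The layer part of the error has the weight of the generators that vanish outside. -/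
theorem elay_bd {v : W} (hv : Sml v) {H : Lay R} (hH : H.out.All (P 1)) (y : P v H.y)
    (yp : P v H.yp) (lam : P v H.lam) (gam : P v H.gam) (nu : P v H.nu) (w1 : P v H.w1)
    (w2 : P v H.w2) (k : Fin 5) : P v (H.elay D E k) := by
  have hA : (Gen.pairLay H.out H).All (pairP P v 1) :=
    ⟨h.pair_diag hH.ε, h.pair_diag hH.s0, pr0 h y, pr0 h yp, h.pair_diag hH.et, h.pair_diag hH.d,
      h.pair_diag hH.chi, h.pair_diag hH.L, h.pair_diag hH.la, h.pair_diag hH.bp,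
      h.pair_diag hH.lc, h.pair_diag hH.uw, h.pair_diag hH.uo, pr0 h lam, pr0 h gam, pr0 h nu,
      pr0 h w1, pr0 h w2, h.pair_diag hH.rho, h.pair_diag hH.xi1, h.pair_diag hH.lq,
      h.pair_diag hH.lAo, h.pair_diag hH.leh⟩
  have := (Lay.P_e (h.pair hv) hA k).2
  rw [e_fst, e_snd, one_mul] at this
  exact this

omit [Algebra ℝ R] h in
/-- A square. -/
theorem sq {b w u : W} {x₀ x₁ x₂ x₃ : R} (β γ δ : R) (a : P u x₀) (hβ : P (u * b) β)
    (hγ : P (u * w) γ) (hδ : P (u * w * b) δ) (e₁ : x₁ = x₀ + β) (e₂ : x₂ = x₀ + γ)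
    (e₃ : x₃ = x₀ + β + γ + δ) : pairP (pairP P b) w u ((x₀, x₁), (x₂, x₃)) := by
  subst e₁ e₂ e₃
  refine ⟨⟨a, ?_⟩, ?_, ?_⟩
  · simpa using hβ
  · simpa using hγ
  · have e : ((x₀ + γ, x₀ + β + γ + δ) - (x₀, x₀ + β) : R × R).2 -
        ((x₀ + γ, x₀ + β + γ + δ) - (x₀, x₀ + β) : R × R).1 = δ := by
      simp only [Prod.fst_sub, Prod.snd_sub]
      ring
    rw [← e] at hδ
    exact hδ

theorem sq0 {b w u : W} {x : R} (a : P u x) : pairP (pairP P b) w u ((x, x), (x, x)) :=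
  sq 0 0 0 a (h.zero _) (h.zero _) (h.zero _) (by ring) (by ring) (by ring)

theorem sq1 {b w : W} {x : R} (a : P b x) : pairP (pairP P b) w 1 ((0, x), (0, x)) :=
  sq x 0 0 (h.zero _) (h.congr a (one_mul b).symm) (h.zero _) (h.zero _) (by ring) (by ring)
    (by ring)

theorem sqZ {b w v : W} {x z : R} (a : P (v * b) x) (c : P (v * w) z) :
    pairP (pairP P b) w v ((0, x), (z, x + z)) :=
  sq x z 0 (h.zero _) a c (h.zero _) (by ring) (by ring) (by ring)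

/-- The generators of a layer are close to those of the leading order layer. -/
structure Near (P : W → R → Prop) (b v : W) (G : Lay R) (L₂ : R) : Prop where
  all : G.All (P 1)
  ε : P b G.ε
  s0 : P b G.s0
  y : P v G.y
  yp : P v G.yp
  la : P b G.la
  bp : P b G.bp
  lc : P b G.lc
  uw : P b (G.uw - G.L)
  uo : P b (G.uo - L₂)
  lam : P (v * b) G.lam
  gam : P (v * b) G.gam
  nu : P (v * b) G.nu
  w1 : P (v * b) G.w1
  w2 : P (v * b) G.w2
  rho : P b G.rho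
  xi1 : P b G.xi1
  L₂ : P 1 L₂

theorem lq_bd {b v : W} (hb : Sml b) {G : Lay R} {L₂ : R} (n : Near P b v G L₂)
    (ok : G.Ok D E) : P b G.lq := by
  rw [← h.Lg_E G.lq]
  refine h.Lg_sub hb (h.E_bd n.all.lq).2 ?_
  rw [ok.lq, Lay.q, add_sub_cancel_left]
  exact h.mul1 n.all.chi (h.mul1' n.s0 (Lay.P_psi h n.all))

theorem lAo_bd {b v : W} (hb : Sml b) {G : Lay R} {L₂ : R} (n : Near P b v G L₂)
    (ok : G.Ok D E)
    (hA : E (-(2 * G.L)) = (lead G.y G.yp G.et G.d G.chi G.L L₂ G.leh 0 0 0).Ao D E) :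
    P b (G.lAo - -(2 * G.L)) := by
  set A : Lay R := { G with ε := 0, s0 := 0, la := 0, bp := 0, lc := 0, lq := 0 } with hA'
  have e : (lead G.y G.yp G.et G.d G.chi G.L L₂ G.leh 0 0 0).Ao D E = A.Ao D E := rfl
  have a := n.all
  have hP : (Gen.pairLay A G).All (pairP P b 1) :=
    ⟨pr0 h n.ε, pr0 h n.s0, h.pair_diag a.y, h.pair_diag a.yp, h.pair_diag a.et, h.pair_diag a.d,
      h.pair_diag a.chi, h.pair_diag a.L, pr0 h n.la, pr0 h n.bp, pr0 h n.lc, h.pair_diag a.uw,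
      h.pair_diag a.uo, h.pair_diag a.lam, h.pair_diag a.gam, h.pair_diag a.nu,
      h.pair_diag a.w1, h.pair_diag a.w2, h.pair_diag a.rho, h.pair_diag a.xi1,
      pr0 h (lq_bd h hb n ok), h.pair_diag a.lAo, h.pair_diag a.leh⟩
  have p := (Lay.P_Ao (h.pair hb) hP).2
  have e1 : ((Gen.pairLay A G).Ao (pairD D) (pairE E)).1 = A.Ao D E :=
    (Lay.map_Ao (AlgHom.fst ℝ R R) (Gen.fst_D D) (Gen.fst_E E) (Gen.pairLay A G)).symm
  have e2 : ((Gen.pairLay A G).Ao (pairD D) (pairE E)).2 = G.Ao D E :=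
    (Lay.map_Ao (AlgHom.snd ℝ R R) (Gen.snd_D D) (Gen.snd_E E) (Gen.pairLay A G)).symm
  rw [e1, e2, one_mul, ← e, ← hA, ← ok.lAo] at p
  have l : P 1 (-(2 * G.L)) := h.neg (h.mul11 (h.ofNat 2) a.L)
  have := h.Lg_diff hb (h.E_bd l).2 (h.E_bd a.lAo).2 (by rwa [h.Lg_E]) p
  rwa [h.Lg_E, h.Lg_E] at this

/-- The cube. -/
theorem cube {w b v : W} (hw : Sml w) (hb : Sml b) (hv : Sml v) {G : Lay R} {L₂ r r₂ ξ : R}
    {Z : Fin 5 → R} (n : Near P b v G L₂) (ok : G.Ok D E)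
    (hA : E (-(2 * G.L)) = (lead G.y G.yp G.et G.d G.chi G.L L₂ G.leh 0 0 0).Ao D E)
    (hr : P w r) (hr₂ : P w r₂) (hξ : P (w * b) ξ) (hZ : ∀ j, P (v * w) (Z j)) (k : Fin 5) :
    P (v * w * b) (((upd G r r₂ ξ Z).elay D E k - G.elay D E k) -
      ((lead G.y G.yp G.et G.d G.chi G.L L₂ G.leh r r₂ Z).elay D E k -
        (lead G.y G.yp G.et G.d G.chi G.L L₂ G.leh 0 0 0).elay D E k)) := by
  have h2 := (h.pair hb).pair hw
  have a := n.all
  have o : ∀ {u : W} {x : R}, P u x → P (1 * u) x := fun hx => h.congr hx (one_mul _).symm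
  set H := Gen.pairLay (Gen.pairLay (lead G.y G.yp G.et G.d G.chi G.L L₂ G.leh 0 0 0) G)
    (Gen.pairLay (lead G.y G.yp G.et G.d G.chi G.L L₂ G.leh r r₂ Z) (upd G r r₂ ξ Z)) with hH
  have hA : H.out.All (pairP (pairP P b) w 1) :=
    ⟨sq1 h n.ε, sq1 h n.s0, h2.zero 1, h2.zero 1, sq0 h a.et, sq0 h a.d, sq0 h a.chi, sq0 h a.L,
      sq1 h n.la, sq1 h n.bp, sq1 h n.lc,
      sq (G.uw - G.L) r 0 (h.add a.L (h.zero 1)) (o n.uw) (o hr) (h.zero _)
        (show G.uw = G.L + 0 + (G.uw - G.L) by ring) (show G.L + r = G.L + 0 + r by ring)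
        (show G.uw + r = G.L + 0 + (G.uw - G.L) + r + 0 by ring),
      sq (G.uo - L₂) r₂ 0 (h.add n.L₂ (h.zero 1)) (o n.uo) (o hr₂) (h.zero _)
        (show G.uo = L₂ + 0 + (G.uo - L₂) by ring) (show L₂ + r₂ = L₂ + 0 + r₂ by ring)
        (show G.uo + r₂ = L₂ + 0 + (G.uo - L₂) + r₂ + 0 by ring),
      h2.zero 1, h2.zero 1, h2.zero 1, h2.zero 1, h2.zero 1,
      sq G.rho r 0 (h.zero 1) (o n.rho) (o hr) (h.zero _) (show G.rho = 0 + G.rho by ring)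
        (show r = 0 + r by ring) (show G.rho + r = 0 + G.rho + r + 0 by ring),
      sq G.xi1 0 ξ (h.zero 1) (o n.xi1) (h.zero _) (h.congr hξ (by rw [one_mul]))
        (show G.xi1 = 0 + G.xi1 by ring) (show (0 : R) = 0 + 0 by ring)
        (show G.xi1 + ξ = 0 + G.xi1 + 0 + ξ by ring),
      sq1 h (lq_bd h hb n ok),
      sq (G.lAo - -(2 * G.L)) 0 0 (h.neg (h.mul11 (h.ofNat 2) a.L)) (o (lAo_bd h hb n ok hA))
        (h.zero _) (h.zero _) (show G.lAo = -(2 * G.L) + (G.lAo - -(2 * G.L)) by ring)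
        (show -(2 * G.L) = -(2 * G.L) + 0 by ring)
        (show G.lAo = -(2 * G.L) + (G.lAo - -(2 * G.L)) + 0 + 0 by ring),
      sq0 h a.leh⟩
  have p := (elay_bd h2 hv hA (sq0 h n.y) (sq0 h n.yp) (sqZ h n.lam (hZ 0)) (sqZ h n.gam (hZ 1))
    (sqZ h n.nu (hZ 2)) (sqZ h n.w1 (hZ 3)) (sqZ h n.w2 (hZ 4)) k).2.2
  rw [hH, elay_fst, elay_snd, Prod.fst_sub, Prod.snd_sub, elay_fst, elay_snd, elay_fst,
    elay_snd] at p
  exact p

/-- The outer errors. -/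
theorem outer {w e : W} (hw : Sml w) {O : Out R} (hO : O.All (P 1)) (hε : P e O.ε) {r₁ r₂ : R}
    (p₁ : P w r₁) (p₂ : P w r₂) (d₁ : D 0 r₁ = 0) (d₂ : D 0 r₂ = 0) (k : Fin 5) :
    P (e * w) (({ O with u₁ := O.u₁ + r₁, u₂ := O.u₂ + r₂ } : Out R).err D E k - O.err D E k) := by
  set O' : Out R := { O with u₁ := O.u₁ + r₁, u₂ := O.u₂ + r₂ } with hO'
  have hA : (Gen.pairOut O O').All (pairP P w 1) :=
    ⟨h.pair_diag hO.ε, h.pair_diag hO.μ, h.pair_diag hO.la, h.pair_diag hO.bp, h.pair_diag hO.lc,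
      pr1 h hO.u₁ (by rwa [hO', add_sub_cancel_left]),
      pr1 h hO.u₂ (by rwa [hO', add_sub_cancel_left])⟩
  have h2 := h.pair hw
  have pa := (Out.P_oa h2 hA).2
  have pb := (Out.P_ob h2 hA).2
  have pc := (Out.P_oc h2 hA).2
  have p1 := (Out.P_o₁ h2 hA).2
  have p2 := (Out.P_o₂ h2 hA).2
  rw [one_mul] at pa pb pc p1 p2
  have a1 := Out.map_oa (AlgHom.fst ℝ R R) (Gen.fst_D D) (Gen.fst_E E) (Gen.pairOut O O')
  have a2 := Out.map_oa (AlgHom.snd ℝ R R) (Gen.snd_D D) (Gen.snd_E E) (Gen.pairOut O O')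
  have b1 := Out.map_ob (AlgHom.fst ℝ R R) (Gen.fst_D D) (Gen.fst_E E) (Gen.pairOut O O')
  have b2 := Out.map_ob (AlgHom.snd ℝ R R) (Gen.snd_D D) (Gen.snd_E E) (Gen.pairOut O O')
  have c1 := Out.map_oc (AlgHom.fst ℝ R R) (Gen.fst_D D) (Gen.fst_E E) (Gen.pairOut O O')
  have c2 := Out.map_oc (AlgHom.snd ℝ R R) (Gen.snd_D D) (Gen.snd_E E) (Gen.pairOut O O')
  have x1 := Out.map_o₁ (AlgHom.fst ℝ R R) (Gen.fst_D D) (Gen.fst_E E) (Gen.pairOut O O')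
  have x2 := Out.map_o₁ (AlgHom.snd ℝ R R) (Gen.snd_D D) (Gen.snd_E E) (Gen.pairOut O O')
  have y1 := Out.map_o₂ (AlgHom.fst ℝ R R) (Gen.fst_D D) (Gen.fst_E E) (Gen.pairOut O O')
  have y2 := Out.map_o₂ (AlgHom.snd ℝ R R) (Gen.snd_D D) (Gen.snd_E E) (Gen.pairOut O O')
  have qa : P w (O'.oa D E - O.oa D E) := by
    rw [show O'.oa D E = _ from a2, show O.oa D E = _ from a1]; exact pa
  have qb : P w (O'.ob D E - O.ob D E) := by
    rw [show O'.ob D E = _ from b2, show O.ob D E = _ from b1]; exact pb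
  have qc : P w (O'.oc D E - O.oc D E) := by
    rw [show O'.oc D E = _ from c2, show O.oc D E = _ from c1]; exact pc
  have q1 : P w (O'.o₁ D E - O.o₁ D E) := by
    rw [show O'.o₁ D E = _ from x2, show O.o₁ D E = _ from x1]; exact p1
  have q2 : P w (O'.o₂ D E - O.o₂ D E) := by
    rw [show O'.o₂ D E = _ from y2, show O.o₂ D E = _ from y1]; exact p2
  have key : ∀ k, O'.err D E k - O.err D E k = O.ε * ![O'.oa D E - O.oa D E,
      -(O'.ob D E - O.ob D E), O'.oc D E - O.oc D E, -(O'.o₁ D E - O.o₁ D E),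
      -(O'.o₂ D E - O.o₂ D E)] k := by
    have u1 : D 0 O'.u₁ = D 0 O.u₁ := by rw [hO', h.der.add, d₁, add_zero]
    have u2 : D 0 O'.u₂ = D 0 O.u₂ := by rw [hO', h.der.add, d₂, add_zero]
    intro k
    fin_cases k
    · change O.ε * O'.oa D E - (1 / 2 : ℝ) • D 0 O.la - (O.ε * O.oa D E - (1 / 2 : ℝ) • D 0 O.la)
        = O.ε * (O'.oa D E - O.oa D E)
      ring
    · change -D 0 (O.μ * O.bp) - O.ε * O'.ob D E - (-D 0 (O.μ * O.bp) - O.ε * O.ob D E)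
        = O.ε * -(O'.ob D E - O.ob D E)
      ring
    · change O.ε * O'.oc D E - (1 / 2 : ℝ) • D 0 O.lc - (O.ε * O.oc D E - (1 / 2 : ℝ) • D 0 O.lc)
        = O.ε * (O'.oc D E - O.oc D E)
      ring
    · change D 0 O'.u₁ - O.ε * O'.o₁ D E - (D 0 O.u₁ - O.ε * O.o₁ D E)
        = O.ε * -(O'.o₁ D E - O.o₁ D E)
      rw [u1]; ring
    · change D 0 O'.u₂ - O.ε * O'.o₂ D E - (D 0 O.u₂ - O.ε * O.o₂ D E)
        = O.ε * -(O'.o₂ D E - O.o₂ D E)
      rw [u2]; ring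
  rw [key]
  exact h.mul hε (Gen.all5 (P w) qa (h.neg qb) qc (h.neg q1) (h.neg q2) k)

/-- The linearized equations are solved by the corrections. -/
theorem lin_eq {y L r lam gam nu w2 ws : R} {e : Fin 5 → R} (y₀ : D 0 y = -(2 * y))
    (L₀ : D 0 L = 0) (r₀ : D 0 r = 0) (hg : Dop D y gam = -(E (2 * L) * e 2))
    (hn : Dop D y nu = E (2 * L) * e 1) (h2 : D 0 w2 = (-2 : ℝ) • e 3) (hs : D 0 ws = -e 4)
    (hl : Dop D y lam + 4 * y * lam + 4 * r * y ^ 2 = E (2 * L) * (e 0 + y * ws)) (k : Fin 5) :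
    lin D E y L r ![lam, gam, nu,
      ws + 2 * E (-(2 * L)) * r * y - E (-(2 * L)) * (D 0 gam - D 0 nu), w2] k = -e k := by
  have u := h.E_neg' (2 * L)
  have dA : D 0 (E (-(2 * L))) = 0 := by
    rw [h.E_der, h.der.neg, h.der.mul, h.der.ofNat, L₀]
    ring
  fin_cases k
  · change -(E (-(2 * L)) * (Dop D y lam + 4 * y * lam + 6 * r * y ^ 2)) +
      y * (ws + 2 * E (-(2 * L)) * r * y - E (-(2 * L)) * (D 0 gam - D 0 nu) +
        E (-(2 * L)) * (D 0 gam - D 0 nu)) = -e 0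
    linear_combination (-E (-(2 * L))) * hl - (e 0 + y * ws) * u
  · change -(E (-(2 * L)) * Dop D y nu) = -e 1
    linear_combination (-E (-(2 * L))) * hn - e 1 * u
  · change E (-(2 * L)) * Dop D y gam = -e 2
    linear_combination E (-(2 * L)) * hg - e 2 * u
  · change (1 / 2 : ℝ) • D 0 w2 = -e 3
    rw [h2]
    algebra
  · change D 0 (ws + 2 * E (-(2 * L)) * r * y - E (-(2 * L)) * (D 0 gam - D 0 nu) +
        E (-(2 * L)) * (D 0 gam - D 0 nu)) + 4 * E (-(2 * L)) * r * y = -e 4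
    rw [sub_add_cancel]
    simp only [h.der.add, h.der.mul, h.der.ofNat, hs, dA, r₀, y₀]
    ring

/-- The new layer error. -/
theorem step [IsReduced R] (ld : LeadStmt) (li : LinStmt) {w b v : W} (hw : Sml w) (hb : Sml b)
    (hv : Sml v) {G : Lay R} {L₂ r r₂ ξ : R} {Z : Fin 5 → R} (n : Near P b v G L₂) (ok : G.Ok D E)
    (lh : LeadHyp D E G.y G.d G.chi G.L L₂) (r₀ : D 0 r = 0) (r₂₀ : D 0 r₂ = 0) (hr : P w r)
    (hr₂ : P w r₂) (hξ : P (w * b) ξ) (hZ : ∀ j, P (w * v) (Z j))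
    (hl : ∀ k, lin D E G.y G.L r Z k = -G.elay D E k) (k : Fin 5) :
    ∃ x₁ x₂, P (v * w * b) x₁ ∧ P (w * w * v) x₂ ∧ (upd G r r₂ ξ Z).elay D E k = x₁ + x₂ := by
  obtain ⟨l1, l2, l3⟩ := ld R D E G.y G.yp G.et G.d G.chi G.L L₂ G.leh h.der h.isExp lh
  refine ⟨_, _, cube h hw hb hv n ok l1.Ao hr hr₂ hξ (fun j => h.congr (hZ j) (mul_comm _ _)) k,
    li R W D E Lg P Pos Sml G.y G.yp G.et G.d G.chi G.L L₂ G.leh r r₂ Z v w h lh hv hw n.y n.all.d
      n.all.L n.L₂ r₀ r₂₀ hr hr₂ hZ k, ?_⟩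
  have e1 : (lead G.y G.yp G.et G.d G.chi G.L L₂ G.leh 0 0 0).elay D E k = 0 := by
    rw [Lay.elay, l1.e, l2.e, sub_zero]
  have e2 : (lead G.y G.yp G.et G.d G.chi G.L L₂ G.leh r r₂ Z).elay D E k =
      (lead G.y G.yp G.et G.d G.chi G.L L₂ G.leh r r₂ Z).e D E k := by
    rw [Lay.elay, l3 r r₂ Z r₀ r₂₀, sub_zero]
  rw [e1, e2, hl]
  ring

end Alg

section Wt

variable {l : Filter Z2}

theorem wle_refl (a : Z2 → ℝ) : WLe l a a := ⟨1, Eventually.of_forall fun z => by simp⟩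

theorem wle_trans {a b c : Z2 → ℝ} (h₁ : WLe l a b) (h₂ : WLe l b c) : WLe l a c := by
  obtain ⟨C, hC⟩ := h₁
  obtain ⟨C', hC'⟩ := h₂
  refine ⟨|C| * C', ?_⟩
  filter_upwards [hC, hC'] with z h1 h2
  calc |a z| ≤ |C| * |b z| := h1.trans (mul_le_mul_of_nonneg_right (le_abs_self C) (abs_nonneg _))
    _ ≤ |C| * (C' * |c z|) := mul_le_mul_of_nonneg_left h2 (abs_nonneg C)
    _ = _ := by ring

theorem wle_mul {a b a' b' : Z2 → ℝ} (h₁ : WLe l a a') (h₂ : WLe l b b') :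
    WLe l (a * b) (a' * b') := by
  obtain ⟨C, hC⟩ := h₁
  obtain ⟨C', hC'⟩ := h₂
  refine ⟨C * C', ?_⟩
  filter_upwards [hC, hC'] with z h1 h2
  rw [Pi.mul_apply, Pi.mul_apply, abs_mul, abs_mul]
  calc |a z| * |b z| ≤ (C * |a' z|) * (C' * |b' z|) :=
        mul_le_mul h1 h2 (abs_nonneg _) ((abs_nonneg _).trans h1)
    _ = _ := by ring

theorem wle_pow {a : Z2 → ℝ} (h : WLe l a 1) {n m : ℕ} (hn : n ≤ m) : WLe l (a ^ m) (a ^ n) := by
  induction hn with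
  | refl => exact wle_refl _
  | step _ ih =>
    refine wle_trans ?_ ih
    simpa only [pow_succ, mul_one] using wle_mul (wle_refl (l := l) (a ^ _)) h

theorem dW_zero : dW 0 = 1 := by
  funext z
  simp [dW]

theorem cut_one : IsCut 1 :=
  ⟨contDiff_const, fun _ => ⟨zero_le_one, le_rfl⟩, 1, one_pos, fun _ _ => rfl⟩

theorem mG_one : mG l 1 = 1 := by
  have : (fun (ε : ℝ) (p : En 2) => (1 : ℝ → ℝ) (ε * p 0)) ∈ SmF l := (1 : SmF l).2
  rw [mG, gm_eq this, ← map_one (mkG l)]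
  rfl

theorem cda_deriv {f : ℝ → ℝ} {x : ℝ} (h : ContDiffAt ℝ ∞ f x) : ContDiffAt ℝ ∞ (deriv f) x :=
  (h.fderiv_right (m := ∞) (by simp)).clm_apply (contDiffAt_const (c := (1 : ℝ)))

theorem bld_upd [OpF l] {a b : ℝ} (A : AvgFacts l a b) (m : ℝ → ℝ) (d chi L la bp lc uw uo r r₂ : SG l)
    (Z dZ : Fin 5 → SG l) (hr : gD 0 r = 0) :
    bld m d chi L la bp lc (uw + r) (uo + r₂) (fun j => Z j + dZ j) =
      upd (bld m d chi L la bp lc uw uo Z) r r₂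
        (εG l * avg (gD 0 (gD 1 (r - r * yG l m)))) dZ := by
  set G := bld2 (bld1 (bld0 m d chi L la bp lc uw uo Z)) with hG
  have e2 : bld2 (bld1 (bld0 m d chi L la bp lc (uw + r) (uo + r₂) fun j => Z j + dZ j)) =
      { G with
        uw := G.uw + r, uo := G.uo + r₂, lam := G.lam + dZ 0, gam := G.gam + dZ 1,
        nu := G.nu + dZ 2, w1 := G.w1 + dZ 3, w2 := G.w2 + dZ 4 } := rfl
  have ev : ∀ φ : SG l, ev0 (φ + r) = ev0 φ + r := fun φ => by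
    conv_rhs => rw [← A.ev_fix r hr]
    rw [ev0, ev0, ev0, pb_eq A.pull0, pb_eq A.pull0, pb_eq A.pull0, map_add]
  have e3 : bld3 (bld2 (bld1 (bld0 m d chi L la bp lc (uw + r) (uo + r₂) fun j => Z j + dZ j))) =
      upd (bld3 G) r r₂ 0 dZ := by
    rw [e2]
    simp only [bld3, upd, Lay.rho0, add_zero, ← add_assoc, ev]
  have e4 : (bld3 G).xi1 = 0 := rfl
  have e5 : (bld3 G).ε = εG l := rfl
  have e6 : (bld3 G).y = yG l m := rfl
  rw [bld, bld, e3, ← hG, bld4, bld4, Xi_upd isDer_gD, isDer_gD.add, A.avg_add, e6]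
  simp only [upd, e5, e6, mul_add]

theorem dop_solve [OpF l] (b2 : B2Stmt) (S : SolFacts l) {κ : ℝ} {wx : ℝ → ℝ → ℝ} (h0 : 0 < κ)
    (h2 : κ < 2) {f : SG l} (hf : PG 1 (xW wx * dW κ) f) :
    ∃ g, PG 1 (xW wx * dW κ) g ∧ Dop gD (yG l 1) g = f := by
  have B : B2Facts l 1 := b2 ℝ 2 l 1 fun _ => zero_le_one
  obtain ⟨g, hg⟩ := S.reg f
  have e : xW (fun ε x => |wx ε x|) * dW κ + xW (fun _ _ => 0) = xW (fun ε x => |wx ε x|) * dW κ :=
    add_zero _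
  have p := S.reg_bd κ (fun ε x => |wx ε x|) (fun _ _ => 0) g h2 (fun _ _ => abs_nonneg _)
    (fun _ _ => le_rfl) (by
      rw [e, hg]
      exact B.mono hf (wle_mul ⟨1, Eventually.of_forall fun z => by simp [xW]⟩ (wle_refl _)))
  rw [e] at p
  obtain ⟨u, hu, du⟩ := S.int κ wx g h0
    (B.mono p (wle_mul ⟨1, Eventually.of_forall fun z => by simp [xW]⟩ (wle_refl _)))
  exact ⟨u, hu, by rw [Dop, du, hg]⟩

end Wt

/-- The linearized equations can be solved. -/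
theorem solve (b2 : B2Stmt) (wt : WtStmt) (so : SolStmt) (la : LamStmt) {c a b κ : ℝ}
    {wx : ℝ → ℝ → ℝ} (hc : 0 < c) (h0 : 0 < κ) (h2 : κ < 2) {L : SG (lS c a b)} (hL : PG 1 1 L)
    (L₀ : gD 0 L = 0) {e : Fin 5 → SG (lS c a b)} (he : ∀ k, PG 1 (xW wx * dW κ) (e k)) :
    ∃ (r : SG (lS c a b)) (Z : Fin 5 → SG (lS c a b)), gD 0 r = 0 ∧ PG 1 (xW wx) r ∧
      (∀ j, PG 1 (xW wx * dW κ) (Z j)) ∧ ∀ k, lin gD expG (yG _ 1) L r Z k = -e k := by
  have h := wr_SG b2 (lS c a b)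
  have B : B2Facts (lS c a b) 1 := b2 ℝ 2 _ 1 fun _ => zero_le_one
  have T := wt c a b hc
  have S := so c a b hc
  have l2 : PG 1 1 (2 * L) := h.mul11 (h.ofNat 2) hL
  have pA := h.E1 l2
  have pB := h.E1 (h.neg l2)
  have y1 : PG 1 (dW κ) (yG (lS c a b) 1) := B.mono (T.y 1 cut_one).1 (T.d_le _ _ h2.le)
  have y2 : PG 1 1 (yG (lS c a b) 1) := B.mono y1 (dW_zero ▸ T.d_le _ _ h0.le)
  obtain ⟨gam, pg, hg⟩ := dop_solve b2 S h0 h2 (h.neg (h.mul1 pA (he 2)))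
  obtain ⟨nu, pn, hn⟩ := dop_solve b2 S h0 h2 (h.mul1 pA (he 1))
  obtain ⟨w2, p2, hw⟩ := S.int κ wx _ h0 (h.smul (-2) (he 3))
  obtain ⟨ws, ps, hs⟩ := S.int κ wx _ h0 (h.neg (he 4))
  obtain ⟨lam, r, r₀, pr, pl, hl⟩ := la c a b κ wx _ hc h0 h2
    (h.mul1 pA (h.add (he 0) (h.mul1 y2 ps)))
  refine ⟨r, _, r₀, pr, ?_, lin_eq h T.y1.1 L₀ r₀ hg hn hw hs hl⟩
  refine Gen.all5 (PG 1 (xW wx * dW κ)) pl pg pn (h.sub (h.add ps ?_)
    (h.mul1 pB (h.sub (h.pD 0 pg) (h.pD 0 pn)))) p2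
  exact h.mul (h.mul1 (h.mul11 (h.ofNat 2) pB) pr) y1

variable {P : Prof} {c : ℝ}

theorem sub_Icc (h : P.Ok) (i : Fin 2) :
    Icc (P.lo i) (P.hi i) ⊆ Icc (P.xL - P.δ) (P.xR + P.δ) := by
  obtain ⟨o1, o2, o3⟩ := h.ord
  obtain ⟨a1, a2, a3, a4⟩ := h.ordJ false
  obtain ⟨b1, b2, b3, b4⟩ := h.ordJ true
  have := h.δ_pos
  refine Icc_subset_Icc ?_ ?_
  · fin_cases i
    · exact le_rfl
    · change P.xL - P.δ ≤ P.xJ false - P.δ
      linarith
  · fin_cases i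
    · change P.xJ true + P.δ ≤ P.xR + P.δ
      linarith
    · exact le_rfl

theorem π_eq (g : P.Geo c) (i : Fin 2) (φ : SG P.lO) : P.π c i φ = (g.pull i).hom φ :=
  pb_eq (g.pull i) φ

theorem π_bd (b2 : B2Stmt) (g : P.Geo c) (i : Fin 2) {wx : ℝ → ℝ → ℝ} {φ : SG P.lO}
    (hφ : PG 1 (xW wx) φ) : PG 1 (xW wx) (P.π c i φ) := by
  have B : B2Facts P.lO 1 := b2 ℝ 2 _ 1 fun _ => zero_le_one
  have p := (B.pull (g.pull i)).2.2.2 1 1 (fun _ => zero_le_one) (g.dΦ i)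
    ⟨1, Eventually.of_forall fun z => by simp⟩ hφ
  have e : (fun z : Z2 => xW wx (z.1, P.Φ i z.1 z.2)) = xW wx := rfl
  rw [e, ← π_eq g] at p
  exact p

theorem π_add (g : P.Geo c) (i : Fin 2) (φ ψ : SG P.lO) :
    P.π c i (φ + ψ) = P.π c i φ + P.π c i ψ := by
  rw [π_eq g, π_eq g, π_eq g]
  exact (g.pull i).hom.toRingHom.map_add φ ψ

theorem π_sub (g : P.Geo c) (i : Fin 2) (φ ψ : SG P.lO) :
    P.π c i (φ - ψ) = P.π c i φ - P.π c i ψ := by
  rw [eq_sub_iff_add_eq, ← π_add g, sub_add_cancel]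

theorem π_x (av : AvgStmt) (g : P.Geo c) (i : Fin 2) {f : ℝ → ℝ}
    (hf : ∀ x ∈ Icc (P.xL - P.δ) (P.xR + P.δ), ContDiffAt ℝ ∞ f x) :
    P.π c i (xG _ f) = xG _ f := by
  have A : AvgFacts P.lO (P.xL - P.δ) (P.xR + P.δ) := (av.2 _ _ _).1
  have s := (A.xfun f fun x hx => hf x (Ioo_subset_Icc_self hx)).1
  rw [π_eq g, xG, gm_eq s, IsPull.hom_mk]
  exact (gm_eq ((g.pull i).homF ⟨_, s⟩).2).symm

theorem Li_bd (b2 : B2Stmt) (av : AvgStmt) (hP : P.Ok) (j : Fin 2) :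
    PG 1 eW (P.Li j - xG _ (P.L j)) := by
  have A : AvgFacts P.lO (P.xL - P.δ) (P.xR + P.δ) := (av.2 _ _ _).1
  have B : B2Facts P.lO 1 := b2 ℝ 2 _ 1 fun _ => zero_le_one
  have h := wr_SG b2 P.lO
  obtain ⟨-, pε, -, wε, tε, -, -⟩ := A.eps
  have p : PG 1 eW (εG P.lO * xG P.lO (P.χ j) * expG (2 * xG P.lO (P.L j))) :=
    h.mul1' (h.mul1' pε (A.xbd _ (hP.sm_χ j))) (h.E1 (h.mul11 (h.ofNat 2) (A.xbd _ (hP.sm_L j))))
  have o : PosG (1 : SG P.lO) := h.E_zero ▸ (h.E_bd (h.zero 1)).2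
  rw [Prof.Li, sub_sub_cancel_left, lgG]
  exact h.neg (h.Lg_sub wε (B.pos_add o p tε) (by rwa [add_sub_cancel_left]))

theorem leadHyp (b2 : B2Stmt) (av : AvgStmt) (wt : WtStmt) (hP : P.Ok) (hc : 0 < c) (i : Fin 2) :
    LeadHyp gD expG (yG (P.lL c i) 1) (xG _ (P.d i)) (xG _ (P.χ i)) (xG _ (P.L i))
      (xG _ (P.L (i + 1))) := by
  have A : AvgFacts (P.lL c i) (P.lo i) (P.hi i) := av.1 _ _ _ hc
  have B : B2Facts (P.lL c i) 1 := b2 ℝ 2 _ 1 fun _ => zero_le_one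
  have T : WtFacts (P.lL c i) := wt _ _ _ hc
  have sd : ∀ x ∈ Ioo (P.lo i) (P.hi i), ContDiffAt ℝ ∞ (P.d i) x := fun x hx =>
    hP.sm_d i x (Ioo_subset_Icc_self hx)
  have sL : ∀ j, ∀ x ∈ Ioo (P.lo i) (P.hi i), ContDiffAt ℝ ∞ (P.L j) x := fun j x hx =>
    hP.sm_L j x (sub_Icc hP i (Ioo_subset_Icc_self hx))
  obtain ⟨d1, d2, d3, -⟩ := A.xfun _ sd
  obtain ⟨l1, l2, -, -⟩ := A.xfun _ (sL i)
  have d4 := (A.xfun _ fun x hx => cda_deriv (sd x hx)).1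
  refine ⟨T.y1.1, (T.y 1 cut_one).2.1, d2, (A.xfun _ fun x hx =>
    hP.sm_χ i x (sub_Icc hP i (Ioo_subset_Icc_self hx))).2.1, l2, (A.xfun _ (sL _)).2.1, ?_⟩
  rw [d3, xG, xG, xG, gm_eq d1, gm_eq l1, gm_eq d4, ← map_ofNat (mkG (P.lL c i)) 2, ← map_mul,
    (B.exp_mk _).1, gm_eq (B.exp_mk _).2, ← map_pow, ← map_pow, ← map_smul, ← map_add, mkG_eq]
  have : ∀ᶠ z in P.lL c i, z.2 1 ∈ Ioo (P.lo i) (P.hi i) :=
    ev_fam.2 (Eventually.of_forall fun _ p hp => hp.2.2)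
  filter_upwards [this] with z hz
  have e := hP.eik i _ (Ioo_subset_Icc_self hz)
  change P.d i (z.2 1) ^ 2 + (1 / 4 : ℝ) * deriv (P.d i) (z.2 1) ^ 2 = Real.exp (2 * P.L i (z.2 1))
  linarith

theorem near (b2 : B2Stmt) (av : AvgStmt) (wt : WtStmt) (c1 : Cid1Stmt) (hP : P.Ok) (g : P.Geo c)
    {s : St P c} {θ κ : ℝ} (t0 : 0 < θ) (t1 : θ < 1) (h0 : 0 < κ) (h2 : κ < 2) (hs : s.Bd θ κ)
    (i : Fin 2) : Near (PG 1) hW (dW κ) (s.G 1 i) (xG _ (P.L (i + 1))) := by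
  have A : AvgFacts (P.lL c i) (P.lo i) (P.hi i) := av.1 _ _ _ g.pos
  have B : B2Facts (P.lL c i) 1 := b2 ℝ 2 _ 1 fun _ => zero_le_one
  have T : WtFacts (P.lL c i) := wt _ _ _ g.pos
  have h := wr_SG b2 (P.lL c i)
  have hO := wr_SG b2 P.lO
  obtain ⟨F, ρ⟩ := c1 P c g s θ κ 1 i hP t0 t1 h0 hs cut_one
  have w1 := (g.w_one θ t0.le).2 i
  have q : ∀ {φ : SG (P.lL c i)}, PG 1 (eW * P.wW θ) φ → PG 1 hW φ := fun hφ =>
    B.mono (h.sml w1 hφ) T.e_h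
  have q' : ∀ {φ : SG P.lO}, PG 1 (eW * P.wW θ) φ → PG 1 hW (P.π c i φ) := fun hφ =>
    q (π_bd b2 g i (wx := fun ε x => ε * P.eta x ^ θ) hφ)
  have y : PG 1 (dW κ) (yG (P.lL c i) 1) := B.mono (T.y 1 cut_one).1 (T.d_le _ _ h2.le)
  have u : ∀ j, PG 1 hW (P.π c i (s.u j) - xG _ (P.L j)) := fun j => by
    have p := hO.add (hO.sml (g.w_one θ t0.le).1 (hs.u j)) (Li_bd b2 av hP j)
    rw [sub_add_sub_cancel] at p
    have p' := π_bd b2 g i (wx := fun ε _ => ε) p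
    rw [π_sub g, π_x av g i (hP.sm_L j)] at p'
    exact B.mono p' T.e_h
  have z : ∀ j, PG 1 (dW κ * hW) (mG _ 1 * s.Z i j) := fun j => by
    rw [mG_one, one_mul, mul_comm]
    refine B.mono (hs.Z i j) (wle_mul (wle_trans ?_ T.e_h) (wle_refl _))
    simpa only [mul_one] using wle_mul (wle_refl (l := P.lL c i) eW) w1
  have yp : PG 1 (dW κ) ((2 + cG (P.lL c i)) * yG (P.lL c i) 1) := by
    rw [add_mul]
    refine h.add (h.mul1 (h.ofNat 2) y) ?_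
    simpa only [one_mul] using T.cd 2 κ h2 (w := 1) (by simpa only [one_mul] using (T.y 1 cut_one).1)
  exact ⟨F.all, B.mono A.eps.2.1 T.e_h, T.s0, y, yp, q' hs.la, q' hs.bp, q' hs.lc, u i, u (i + 1),
    z 0, z 1, z 2, z 3, z 4, q ρ, B.mono F.xi1 T.e_h,
    A.xbd _ fun x hx => hP.sm_L _ x (sub_Icc hP i hx)⟩

end StepL

open StepL in
theorem stepL (_b1 : B1Stmt) (b2 : B2Stmt) (av : AvgStmt) (wt : WtStmt) (so : SolStmt)
    (la : LamStmt) (c1 : Cid1Stmt) (ld : LeadStmt) (li : LinStmt) : StepLStmt := by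
  intro P c s θ κ κ' n m hP g t0 t1 k0 k1 k2 hm hn hs
  have h0 : 0 < κ := k0.trans k1
  have F : ∀ i, s.GF g 1 i := fun i => (c1 P c g s θ κ 1 i hP t0 t1 h0 hs.toBd cut_one).1
  have hO := wr_SG b2 P.lO
  have AO : AvgFacts P.lO (P.xL - P.δ) (P.xR + P.δ) := (av.2 _ _ _).1
  have BO : B2Facts P.lO 1 := b2 ℝ 2 _ 1 fun _ => zero_le_one
  have ex : ∀ i, ∃ (r : SG (P.lL c i)) (Z : Fin 5 → SG (P.lL c i)), gD 0 r = 0 ∧
      PG 1 (eW ^ m * P.wW θ) r ∧ (∀ j, PG 1 (eW ^ m * P.wW θ * dW κ) (Z j)) ∧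
      ∀ k, lin gD expG (yG _ 1) (s.G 1 i).L r Z k = -(s.G 1 i).elay gD expG k := fun i =>
    solve b2 wt so la (wx := fun ε x => ε ^ m * P.eta x ^ θ) g.pos h0 k2 (F i).all.L (F i).ok.L₀
      (hs.elay i)
  choose r dZ r₀ pr pZ hl using ex
  choose r' r₀' pr' hr' using fun i => g.ext i θ m (r i) t0 (r₀ i) (pr i)
  have e1 : ∀ {l : Filter Z2}, WLe l eW 1 → WLe l (eW ^ m * P.wW θ) (eW * P.wW θ) := fun h =>
    wle_mul (by simpa only [pow_one] using wle_pow h hm) (wle_refl _)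
  have wO : WLe P.lO (eW ^ m * P.wW θ) 1 := by
    simpa only [pow_zero, mul_one] using
      wle_mul (wle_pow AO.eps.2.2.2.1 (Nat.zero_le m)) (g.w_one θ t0.le).1
  refine ⟨⟨s.la, s.bp, s.lc, fun j => s.u j + r' j, fun i j => s.Z i j + dZ i j⟩,
    ⟨hs.la, hs.bp, hs.lc, fun j => ?_, hs.ev_la, hs.ev_lc, fun i j => ?_⟩, fun i k => ?_,
    fun i k => ?_⟩
  · have := hO.add (hs.u j) (BO.mono (pr' j) (e1 AO.eps.2.2.2.1))
    rwa [← add_sub_right_comm] at this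
  · have A : AvgFacts (P.lL c i) (P.lo i) (P.hi i) := av.1 _ _ _ g.pos
    have B : B2Facts (P.lL c i) 1 := b2 ℝ 2 _ 1 fun _ => zero_le_one
    have T : WtFacts (P.lL c i) := wt _ _ _ g.pos
    exact B.add (B.mono (hs.Z i j) (wle_mul (wle_refl _) (T.d_le _ _ k1.le)))
      (B.mono (pZ i j) (wle_mul (e1 A.eps.2.2.2.1) (T.d_le _ _ k1.le)))
  · have p := outer hO wO (F i).O_all (e := eW) AO.eps.2.1 (pr' i) (pr' (i + 1)) (r₀' i)
      (r₀' (i + 1)) k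
    rw [← mul_assoc, ← pow_succ'] at p
    have := hO.add (hs.err i k) (BO.mono p (wle_mul (wle_pow AO.eps.2.2.2.1 hn) (wle_refl _)))
    rw [add_sub_cancel] at this
    exact this
  · have A : AvgFacts (P.lL c i) (P.lo i) (P.hi i) := av.1 _ _ _ g.pos
    have B : B2Facts (P.lL c i) 1 := b2 ℝ 2 _ 1 fun _ => zero_le_one
    have T : WtFacts (P.lL c i) := wt _ _ _ g.pos
    have h := wr_SG b2 (P.lL c i)
    have N := near b2 av wt c1 hP g t0 t1 h0 k2 hs.toBd i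
    have we := A.eps.2.2.2.1
    have w1 := (g.w_one θ t0.le).2 i
    have hv : WLe (P.lL c i) (dW κ) 1 := dW_zero ▸ T.d_le _ _ h0.le
    have hw : WLe (P.lL c i) (eW ^ m * P.wW θ) 1 := by
      simpa only [pow_zero, mul_one] using wle_mul (wle_pow we (Nat.zero_le m)) w1
    have eG : St.G (⟨s.la, s.bp, s.lc, fun j => s.u j + r' j, fun i j => s.Z i j + dZ i j⟩ : St P c)
        1 i = upd (s.G 1 i) (r i) (P.π c i (r' (i + 1)))
          (εG _ * avg (gD 0 (gD 1 (r i - r i * yG _ 1)))) (dZ i) := by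
      have a1 : P.π c i (s.u i + r' i) = P.π c i (s.u i) + r i := by
        rw [π_add g, ← hr' i]
        rfl
      have a2 := π_add g i (s.u (i + 1)) (r' (i + 1))
      have a3 : (fun j => mG (P.lL c i) 1 * (s.Z i j + dZ i j)) =
          fun j => mG _ 1 * s.Z i j + dZ i j := by
        funext j
        rw [mG_one, one_mul, one_mul]
      rw [St.G, St.G, ← bld_upd A _ _ _ _ _ _ _ _ _ _ _ _ _ (r₀ i), ← a1, ← a2, ← a3]
    have d₂ : gD 0 (P.π c i (r' (i + 1))) = 0 := by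
      rw [π_eq g, (F i).cov.d₀, r₀', map_zero, mul_zero]
    have pξ : PG 1 (eW ^ m * P.wW θ * hW)
        (εG _ * avg (gD 0 (gD 1 (r i - r i * yG (P.lL c i) 1)))) := by
      rw [mul_comm _ hW]
      exact h.mul N.ε (A.avg_bd (w := fun ε x => ε ^ m * P.eta x ^ θ)
        (h.pD 0 (h.pD 1 (h.sub (pr i) (h.mul1' (pr i) N.all.y)))))
    obtain ⟨x₁, x₂, p₁, p₂, e⟩ := step h ld li hw T.h_one hv N (F i).ok
      (leadHyp b2 av wt hP g.pos i) (r₀ i) d₂ (pr i)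
      (π_bd b2 g i (wx := fun ε x => ε ^ m * P.eta x ^ θ) (pr' (i + 1))) pξ (pZ i) (hl i) k
    rw [eG, e]
    refine h.add (B.mono p₁ ?_) (B.mono p₂ ?_)
    · have := wle_mul (wle_refl (l := P.lL c i) (eW ^ m * P.wW θ)) (T.hd κ κ' k1)
      rwa [show eW ^ m * P.wW θ * (hW * dW κ) = dW κ * (eW ^ m * P.wW θ) * hW by ring,
        show eW ^ m * P.wW θ * (eW * dW κ') = eW ^ (m + 1) * P.wW θ * dW κ' by ring] at this
    · refine wle_mul ?_ (T.d_le _ _ k1.le)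
      have := wle_mul (wle_refl (l := P.lL c i) (eW ^ m * P.wW θ))
        (wle_trans (e1 we) (wle_mul (wle_refl eW) w1))
      rwa [show eW ^ m * P.wW θ * (eW * 1) = eW ^ (m + 1) * P.wW θ by ring] at this

end Pool.Agent.Lib.MP_df9110_gt
end

-- part Pool.Agent.Lib.MP_df9110_gt.StepO
section

/-! One step of the iteration for the outer fields. -/

set_option linter.unusedSectionVars false

namespace Pool.Agent.Lib.MP_df9110_gt

open Filter

namespace StepO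

section Ring

variable {R W : Type} [CommRing R] [Algebra ℝ R] [CommMonoid W] {D : Fin 2 → R → R}
  {E Lg : R → R} {P : W → R → Prop} {Pos : R → Prop} {Sml : W → Prop}

theorem pair_e (G G' : Lay R) (k : Fin 5) :
    (Gen.pairLay G G').e (pairD D) (pairE E) k = (G.e D E k, G'.e D E k) :=
  Prod.ext (Lay.map_e (AlgHom.fst ℝ R R) (Gen.fst_D D) (Gen.fst_E E) _ k).symm
    (Lay.map_e (AlgHom.snd ℝ R R) (Gen.snd_D D) (Gen.snd_E E) _ k).symm

theorem pair_Ao (G G' : Lay R) :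
    (Gen.pairLay G G').Ao (pairD D) (pairE E) = (G.Ao D E, G'.Ao D E) := rfl

theorem pair_Xi (G G' : Lay R) :
    (Gen.pairLay G G').Xi (pairD D) (pairE E) = (G.Xi D E, G'.Xi D E) := rfl

theorem Ao_upd (G : Lay R) (x y r ξ : R) :
    ({ G with lAo := x, leh := y, rho := r, xi1 := ξ } : Lay R).Ao D E = G.Ao D E := rfl

theorem Xi_upd (G : Lay R) (ξ : R) : ({ G with xi1 := ξ } : Lay R).Xi D E = G.Xi D E := rfl

/-- Generators that do not change. -/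
structure Same (A B : Lay R) : Prop where
  ε : B.ε = A.ε
  s0 : B.s0 = A.s0
  y : B.y = A.y
  yp : B.yp = A.yp
  et : B.et = A.et
  d : B.d = A.d
  chi : B.chi = A.chi
  L : B.L = A.L
  lam : B.lam = A.lam
  gam : B.gam = A.gam
  nu : B.nu = A.nu
  w1 : B.w1 = A.w1
  w2 : B.w2 = A.w2
  lq : B.lq = A.lq
  leh : B.leh = A.leh

theorem swap_err (O : Out R) (k : Fin 5) :
    O.swap.err D E k = O.err D E (![0, 1, 2, 4, 3] k) := by
  have a : O.swap.oa D E = O.oa D E := add_right_comm _ _ _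
  have b : O.swap.ob D E = O.ob D E := congrArg (fun t => -(2 * E O.lc * t)) (add_comm _ _)
  have c : O.swap.oc D E = O.oc D E := add_right_comm _ _ _
  have d : O.swap.k34 D E = O.k34 D E :=
    congrArg Neg.neg (congrArg₂ (· + ·) (mul_right_comm _ _ _) (mul_right_comm _ _ _))
  fin_cases k
  · exact congrArg (fun t => O.ε * t - (1 / 2 : ℝ) • D 0 O.la) a
  · exact congrArg (fun t => -D 0 (O.μ * O.bp) - O.ε * t) b
  · exact congrArg (fun t => O.ε * t - (1 / 2 : ℝ) • D 0 O.lc) c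
  · exact congrArg (fun t => D 0 O.u₂ - O.ε * -(O.k11 D E (O.t₂ D) (D 1 O.u₂) +
      O.k22 D E (O.t₂ D) (D 1 O.u₂) + t)) d
  · exact congrArg (fun t => D 0 O.u₁ - O.ε * -(O.k11 D E (O.t₁ D) (D 1 O.u₁) +
      O.k22 D E (O.t₁ D) (D 1 O.u₁) + t)) d

variable (h : WR D E Lg P Pos Sml)
include h

theorem pc {v : W} {a b : R} (ha : P 1 a) (hd : P v (b - a)) : pairP P v 1 (a, b) :=
  ⟨ha, h.congr hd (one_mul v).symm⟩

theorem top {v : W} {a b : R} (hz : pairP P v 1 (a, b)) : P v (b - a) := h.congr hz.2 (one_mul v)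

theorem errs {v e : W} (hv : Sml v) {O O' : Out R} (hO : (Gen.pairOut O O').All (pairP P v 1))
    (hε : P e O.ε) (e0 : O'.ε = O.ε) (e1 : D 0 O'.la = D 0 O.la + 2 * O.err D E 0)
    (e2 : D 0 (O'.μ * O'.bp) = D 0 (O.μ * O.bp) + O.err D E 1)
    (e3 : D 0 O'.lc = D 0 O.lc + 2 * O.err D E 2) (e4 : D 0 O'.u₁ = D 0 O.u₁ - O.err D E 3)
    (e5 : D 0 O'.u₂ = D 0 O.u₂ - O.err D E 4) (k : Fin 5) : P (e * v) (O'.err D E k) := by
  have h2 := h.pair hv
  have a : P v (O'.oa D E - O.oa D E) := top h (Out.P_oa h2 hO)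
  have b : P v (O'.ob D E - O.ob D E) := top h (Out.P_ob h2 hO)
  have c : P v (O'.oc D E - O.oc D E) := top h (Out.P_oc h2 hO)
  have d : P v (O'.o₁ D E - O.o₁ D E) := top h (Out.P_o₁ h2 hO)
  have f : P v (O'.o₂ D E - O.o₂ D E) := top h (Out.P_o₂ h2 hO)
  simp only [Out.err, Matrix.cons_val, Matrix.cons_val_zero, Matrix.cons_val_one] at e1 e2 e3 e4 e5
  refine Gen.all5 (P (e * v)) ?_ ?_ ?_ ?_ ?_ k
  · convert h.mul hε a using 1
    rw [e0, e1]; algebra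
  · convert h.neg (h.mul hε b) using 1
    rw [e0, e2]; ring
  · convert h.mul hε c using 1
    rw [e0, e3]; algebra
  · convert h.neg (h.mul hε d) using 1
    rw [e0, e4]; ring
  · convert h.neg (h.mul hε f) using 1
    rw [e0, e5]; ring

theorem cube {v w : W} (hv : Sml v) (hw : Sml w) {A B : Lay R}
    (hd : (Gen.pairLay A B).All (pairP P v 1)) (h1 : P w A.y) (h2 : P w A.yp) (h3 : P w A.lam)
    (h4 : P w A.gam) (h5 : P w A.nu) (h6 : P w A.w1) (h7 : P w A.w2) (S : Same A B)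
    (k : Fin 5) : P (v * w) (B.elay D E k - A.elay D E k) := by
  have p : ∀ {a b : R}, pairP P v 1 (a, b) → pairP (pairP P w) v 1 ((a, a), (b, b)) :=
    fun hz => ⟨h.pair_diag hz.1, h.pair_diag hz.2⟩
  have q : ∀ {a b : R}, P w a → b = a → pairP (pairP P w) v 1 ((0, a), (0, b)) := by
    rintro a _ ha rfl
    exact (h.pair hw).pair_diag (pc h (h.zero 1) (by rwa [sub_zero]))
  have hQ : (Gen.pairLay (Gen.pairLay A.out A) (Gen.pairLay B.out B)).All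
      (pairP (pairP P w) v 1) :=
    ⟨p hd.ε, p hd.s0, q h1 S.y, q h2 S.yp, p hd.et, p hd.d, p hd.chi, p hd.L, p hd.la, p hd.bp,
      p hd.lc, p hd.uw, p hd.uo, q h3 S.lam, q h4 S.gam, q h5 S.nu, q h6 S.w1, q h7 S.w2, p hd.rho,
      p hd.xi1, p hd.lq, p hd.lAo, p hd.leh⟩
  have := Lay.P_e ((h.pair hw).pair hv) hQ k
  rw [pair_e, pair_e, pair_e] at this
  convert this.2.2 using 1
  · rw [one_mul]
  · simp only [Lay.elay, Prod.fst_sub, Prod.snd_sub]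
    ring

variable {v : W} (hv : Sml v) {A B : Lay R} (hA : A.All (P 1)) (S : Same A B)
  (h1 : P v (B.la - A.la)) (h2 : P v (B.bp - A.bp)) (h3 : P v (B.lc - A.lc))
  (h4 : P v (B.uw - A.uw)) (h5 : P v (B.uo - A.uo))
include hA S h1 h2 h3 h4 h5

theorem key {x x' r r' ξ ξ' : R} (k1 : pairP P v 1 (x, x')) (k2 : pairP P v 1 (r, r'))
    (k3 : pairP P v 1 (ξ, ξ')) : (Gen.pairLay { A with lAo := x, rho := r, xi1 := ξ }
      { B with lAo := x', rho := r', xi1 := ξ' }).All (pairP P v 1) := by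
  have q : ∀ {a b : R}, P 1 a → b = a → pairP P v 1 (a, b) := by
    rintro a _ ha rfl
    exact h.pair_diag ha
  exact ⟨q hA.ε S.ε, q hA.s0 S.s0, q hA.y S.y, q hA.yp S.yp, q hA.et S.et, q hA.d S.d,
    q hA.chi S.chi, q hA.L S.L, pc h hA.la h1, pc h hA.bp h2, pc h hA.lc h3, pc h hA.uw h4,
    pc h hA.uo h5, q hA.lam S.lam, q hA.gam S.gam, q hA.nu S.nu, q hA.w1 S.w1, q hA.w2 S.w2,
    k2, k3, q hA.lq S.lq, k1, q hA.leh S.leh⟩

theorem all (k1 : P v (B.lAo - A.lAo)) (k2 : P v (B.rho - A.rho)) (k3 : P v (B.xi1 - A.xi1)) :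
    (Gen.pairLay A B).All (pairP P v 1) :=
  key h hA S h1 h2 h3 h4 h5 (pc h hA.lAo k1) (pc h hA.rho k2) (pc h hA.xi1 k3)

include hv

theorem dAo : P v (B.Ao D E - A.Ao D E) :=
  have z := h.pair_diag (v := v) (h.zero 1)
  top h (Lay.P_Ao (h.pair hv) (key h hA S h1 h2 h3 h4 h5 z z z))

theorem dXi (k1 : P v (B.lAo - A.lAo)) (k2 : P v (B.rho - A.rho)) :
    P v (B.Xi D E - A.Xi D E) :=
  top h (Lay.P_Xi (h.pair hv) (key h hA S h1 h2 h3 h4 h5 (pc h hA.lAo k1) (pc h hA.rho k2)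
    (h.pair_diag (h.zero 1))))

end Ring

section Bld

variable {l : Filter Z2} [OpF l] {m : ℝ → ℝ}
  {d chi L la bp lc uw uo la' bp' lc' uw' uo' : SG l} {Z : Fin 5 → SG l}

theorem bld_lAo : (bld m d chi L la bp lc uw uo Z).lAo =
    logG ((bld m d chi L la bp lc uw uo Z).Ao gD expG) :=
  congrArg logG (Ao_upd (bld1 (bld0 m d chi L la bp lc uw uo Z)) _ _ _ _).symm

theorem bld_rho : (bld m d chi L la bp lc uw uo Z).rho =
    ev0 (lgG chi L + (1 / 2 : ℝ) • (bld m d chi L la bp lc uw uo Z).lAo + uw) := by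
  simp only [bld, bld4, bld3, bld2, bld1, bld0, Lay.rho0]

theorem bld_xi1 : (bld m d chi L la bp lc uw uo Z).xi1 =
    εG l * avg (gD 0 ((bld m d chi L la bp lc uw uo Z).Xi gD expG)) :=
  congrArg (fun t => εG l * avg (gD 0 t))
    (Xi_upd (bld3 (bld2 (bld1 (bld0 m d chi L la bp lc uw uo Z)))) _).symm

theorem bld_same : Same (bld m d chi L la bp lc uw uo Z) (bld m d chi L la' bp' lc' uw' uo' Z) := by
  constructor <;> simp only [bld, bld4, bld3, bld2, bld1, bld0, Lay.q, Lay.psi, Lay.eh]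

variable {a b : ℝ} (b2 : B2Stmt) (av : AvgFacts l a b)
include av

theorem ev0_eq (φ : SG l) : ev0 φ = av.pull0.hom φ := pb_eq av.pull0 φ

theorem avg_sub (φ ψ : SG l) : avg φ - avg ψ = avg (φ - ψ) := by
  have := av.avg_add (φ - ψ) ψ
  rw [sub_add_cancel] at this
  rw [this, add_sub_cancel_right]

include b2

theorem bld_pair {w : ℝ → ℝ → ℝ} (hw : WLe l (xW w) 1)
    (hA : (bld m d chi L la bp lc uw uo Z).All (PG 1 1))
    (pA : PosG ((bld m d chi L la bp lc uw uo Z).Ao gD expG))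
    (pB : PosG ((bld m d chi L la' bp' lc' uw' uo' Z).Ao gD expG))
    (h1 : PG 1 (xW w) (la' - la)) (h2 : PG 1 (xW w) (bp' - bp)) (h3 : PG 1 (xW w) (lc' - lc))
    (h4 : PG 1 (xW w) (uw' - uw)) (h5 : PG 1 (xW w) (uo' - uo)) :
    (Gen.pairLay (bld m d chi L la bp lc uw uo Z) (bld m d chi L la' bp' lc' uw' uo' Z)).All
      (pairP (PG 1) (xW w) 1) := by
  have h := wr_SG b2 l
  have S : Same (bld m d chi L la bp lc uw uo Z) (bld m d chi L la' bp' lc' uw' uo' Z) := bld_same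
  have k0 := hA.lAo
  rw [bld_lAo] at k0
  have k1 := h.Lg_diff hw pA pB k0 (dAo h hw hA S h1 h2 h3 h4 h5)
  rw [← bld_lAo, ← bld_lAo] at k1
  have k2 : PG 1 (xW w)
      ((bld m d chi L la' bp' lc' uw' uo' Z).rho - (bld m d chi L la bp lc uw uo Z).rho) := by
    have : PG 1 (xW w) _ := av.ev_bd (h.add (h.smul (1 / 2) k1) h4)
    rw [bld_rho, bld_rho, ev0_eq av, ev0_eq av, ← map_sub, ← ev0_eq av]
    convert this using 2
    rw [smul_sub]
    ring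
  refine all h hA S h1 h2 h3 h4 h5 k1 k2 ?_
  rw [bld_xi1, bld_xi1, ← mul_sub, avg_sub av, ← h.der.sub]
  exact h.mul1 hA.ε (av.avg_bd (h.pD 0 (dXi h hw hA S h1 h2 h3 h4 h5 k1 k2)))

end Bld

variable {P : Prof} {c : ℝ}

/-- The corrected state. -/
noncomputable def next (s : St P c) : St P c :=
  ⟨s.la + 2 * (cG _ * avg ((s.O 0).err gD expG 0)), s.bp + avg ((s.O 0).err gD expG 1),
    s.lc + 2 * (cG _ * avg ((s.O 0).err gD expG 2)),
    fun i => s.u i - cG _ * avg ((s.O 0).err gD expG (![3, 4] i)), s.Z⟩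

theorem pow_le {l : Filter Z2} [OpF l] (b2 : B2Stmt) (he : WLe l eW 1) {n m : ℕ} (hm : m ≤ n)
    {w : Z2 → ℝ} {φ : SG l} (hφ : PG 1 (eW ^ n * w) φ) : PG 1 (eW ^ m * w) φ := by
  have h := wr_SG b2 l
  induction n, hm using Nat.le_induction with
  | base => exact hφ
  | succ n _ ih => exact ih (h.sml he (h.congr hφ (by rw [pow_succ]; ac_rfl)))

end StepO

open StepO in
theorem stepO (_b1 : B1Stmt) (b2 : B2Stmt) (av : AvgStmt) (wt : WtStmt) (c1 : Cid1Stmt) :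
    StepOStmt := by
  intro P c s θ κ n m hP g θ0 θ1 κ0 κ2 hn hm hs
  have aO : AvgFacts P.lO _ _ := (av.2 _ _ _).1
  have hc : PG 1 1 (cG P.lO) := (av.2 _ _ _).2
  have h := wr_SG b2 P.lO
  have eO : WLe P.lO eW 1 := aO.eps.2.2.2.1
  have cut : IsCut 1 := ⟨contDiff_const, fun _ => ⟨zero_le_one, le_rfl⟩, 1, one_pos, fun _ _ => rfl⟩
  have sm : ∀ {l : Filter Z2} [OpF l], WLe l eW 1 → WLe l (P.wW θ) 1 →
      WLe l (eW ^ n * P.wW θ) 1 := fun {l} _ h1 h2 => by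
    refine (wr_SG b2 l).sml_mul ?_ h2
    clear hn hm hs
    induction n with
    | zero => exact (wr_SG b2 l).sml_one
    | succ n ih => rw [pow_succ]; exact (wr_SG b2 l).sml_mul ih h1
  have hv := sm eO (g.w_one θ θ0.le).1
  have a : ∀ k, PG 1 (eW ^ n * P.wW θ) (avg ((s.O 0).err gD expG k)) := fun k =>
    aO.avg_bd (w := fun ε x => ε ^ n * P.eta x ^ θ) (hs.err 0 k)
  have d1 : PG 1 (eW ^ n * P.wW θ) ((next s).la - s.la) := by
    rw [next, add_sub_cancel_left]; exact h.mul1 (h.ofNat 2) (h.mul1 hc (a 0))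
  have d2 : PG 1 (eW ^ n * P.wW θ) ((next s).bp - s.bp) := by
    rw [next, add_sub_cancel_left]; exact a 1
  have d3 : PG 1 (eW ^ n * P.wW θ) ((next s).lc - s.lc) := by
    rw [next, add_sub_cancel_left]; exact h.mul1 (h.ofNat 2) (h.mul1 hc (a 2))
  have d4 : ∀ i, PG 1 (eW ^ n * P.wW θ) ((next s).u i - s.u i) := fun i => by
    simp only [next, sub_sub_cancel_left]; exact h.neg (h.mul1 hc (a _))
  have up : ∀ {x y : SG P.lO}, PG 1 (eW * P.wW θ) x → PG 1 (eW ^ n * P.wW θ) (y - x) →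
      PG 1 (eW * P.wW θ) y := fun h1 h2 => by
    have := h.add h1 (h.congr (pow_le b2 eO hn h2) (by rw [pow_one]))
    rwa [add_sub_cancel] at this
  have ev : ∀ x y : SG P.lO, ev0 x = 0 → ev0 (x + 2 * (cG _ * y)) = 0 := fun x y hx => by
    have := aO.ev_c
    rw [ev0_eq aO] at hx this ⊢
    rw [map_add, map_mul, map_mul, hx, this, zero_mul, mul_zero, add_zero]
  have hb : (next s).Bd θ κ := ⟨up hs.la d1, up hs.bp d2, up hs.lc d3,
    fun i => up (hs.u i) (by rw [sub_sub_sub_cancel_right]; exact d4 i), ev _ _ hs.ev_la,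
    ev _ _ hs.ev_lc, hs.Z⟩
  have G0 := fun i => (c1 P c g s θ κ 1 i hP θ0 θ1 κ0 hs.toBd cut).1
  have G1 := fun i => (c1 P c g (next s) θ κ 1 i hP θ0 θ1 κ0 hb cut).1
  have er : ∀ k, PG 1 (eW ^ (n + 1) * P.wW θ) (((next s).O 0).err gD expG k) := fun k => by
    have hO := (G0 0).O_all
    have two : ∀ x : SG P.lO, gD 0 (2 * x) = 2 * gD 0 x := fun x => by
      rw [two_mul, two_mul, h.der.add]
    refine h.congr (errs h hv (O := s.O 0) (O' := (next s).O 0)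
      ⟨h.pair_diag hO.ε, h.pair_diag hO.μ, pc h hO.la d1,
      pc h hO.bp d2, pc h hO.lc d3, pc h hO.u₁ (d4 0), pc h hO.u₂ (d4 1)⟩ aO.eps.2.1 rfl
      ?_ ?_ ?_ ?_ ?_ k) (by rw [pow_succ]; ac_rfl)
    · exact (h.der.add 0 _ _).trans (by rw [two, aO.avg_der]; rfl)
    · change gD 0 (cG _ * (s.bp + _)) = _
      rw [mul_add, h.der.add, aO.avg_der]; rfl
    · exact (h.der.add 0 _ _).trans (by rw [two, aO.avg_der]; rfl)
    · exact (h.der.sub 0 _ _).trans (by rw [aO.avg_der]; rfl)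
    · exact (h.der.sub 0 _ _).trans (by rw [aO.avg_der]; rfl)
  refine ⟨next s, hb, fun i k => ?_, fun i k => ?_⟩
  · fin_cases i
    · exact er k
    · have := swap_err (D := gD) (E := expG) ((next s).O 0) k
      exact (congrArg (PG 1 _) this).mpr (er _)
  · have aL : AvgFacts (P.lL c i) _ _ := av.1 _ _ _ g.pos
    have wL : WtFacts (P.lL c i) := wt _ _ _ g.pos
    have hL := wr_SG b2 (P.lL c i)
    have eL : WLe (P.lL c i) eW 1 := aL.eps.2.2.2.1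
    have w1 := (g.w_one θ θ0.le).2 i
    have hv' := sm eL w1
    have pl : ∀ {x y : SG P.lO}, PG 1 (eW ^ n * P.wW θ) (y - x) →
        PG 1 (eW ^ n * P.wW θ) (P.π c i y - P.π c i x) := fun {x y} hd => by
      rw [Prof.π, pb_eq (g.pull i), pb_eq (g.pull i), ← map_sub]
      have := ((b2 _ _ P.lO 1 fun _ => zero_le_one).pull (g.pull i)).2.2.2 1 1
        (fun _ => zero_le_one) (g.dΦ i) ⟨1, Eventually.of_forall fun z => by simp⟩ hd
      exact hL.congr this (funext fun _ => rfl)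
    have hp := bld_pair b2 aL (w := fun ε x => ε ^ n * P.eta x ^ θ) hv' (G0 i).all (G0 i).pos_A
      (G1 i).pos_A (pl d1) (pl d2) (pl d3) (pl (d4 i)) (pl (d4 (i + 1)))
    have dk : WLe (P.lL c i) (dW κ) 1 := by
      convert wL.d_le κ 0 κ0.le
      funext z
      simp [dW]
    have y2 := (wL.y 1 cut).1
    have yk : PG 1 (dW κ) (yG (P.lL c i) 1) :=
      (b2 _ _ (P.lL c i) 1 fun _ => zero_le_one).mono y2 (wL.d_le 2 κ κ2.le)
    have yp : PG 1 (dW κ) ((2 + cG _) * yG (P.lL c i) 1) := by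
      rw [add_mul]
      exact hL.add (hL.mul1 (hL.ofNat 2) yk)
        (hL.congr (wL.cd 2 κ κ2 (w := 1) (hL.congr y2 (one_mul _).symm)) (one_mul _))
    have z : ∀ j, PG 1 (dW κ) (mG (P.lL c i) 1 * s.Z i j) := fun j =>
      hL.mul1 (wL.m 1 cut).1 (hL.sml' (hL.sml_mul eL w1) (hs.Z i j))
    have := cube hL hv' dk (A := s.G 1 i) (B := (next s).G 1 i) hp yk yp (z 0) (z 1) (z 2) (z 3)
      (z 4) bld_same k
    have := hL.add (hs.elay i k) (hL.congr (pow_le b2 eL hm (hL.congr this (mul_assoc _ _ _)))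
      (mul_assoc _ _ _).symm)
    rwa [add_sub_cancel] at this

end Pool.Agent.Lib.MP_df9110_gt
end
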