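import Pool.Agent.Lib.MP_df9110_gt.NTenS

-- part Pool.Agent.Lib.MP_df9110_gt.T1
section

/-! Basic Riemannian identities over a differential ring. -/

set_option linter.unusedSectionVars false

namespace Pool.Agent.Lib.MP_df9110_gt

open Finset Matrix

namespace T1

variable {R : Type} [CommRing R] [Algebra ℝ R] {ι : Type} [Fintype ι] [DecidableEq ι]

theorem half {x y : R} (h : 2 * x = y) : x = (1 / 2 : ℝ) • y := by
  rw [← h]; algebra

/-- entrywise derivative -/
def dM (D : ι → R → R) (i : ι) (M : Matrix ι ι R) : Matrix ι ι R := M.map (D i)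

/-- connection matrices -/
def cA (Γ : ι → ι → ι → R) (i : ι) : Matrix ι ι R := Matrix.of fun l k => Γ l i k

/-- curvature matrices -/
def cF (D : ι → R → R) (Γ : ι → ι → ι → R) (i j : ι) : Matrix ι ι R :=
  dM D i (cA Γ j) - dM D j (cA Γ i) + (cA Γ i * cA Γ j - cA Γ j * cA Γ i)

/-- covariant derivative of a bilinear form -/
def cB (D : ι → R → R) (Γ : ι → ι → ι → R) (c : ι) (h : Matrix ι ι R) : Matrix ι ι R :=
  dM D c h - ((cA Γ c)ᵀ * h + h * cA Γ c)

/-- covariant derivative of an endomorphism -/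
def cE (D : ι → R → R) (Γ : ι → ι → ι → R) (c : ι) (F : Matrix ι ι R) : Matrix ι ι R :=
  dM D c F + cA Γ c * F - F * cA Γ c

/-- covariant derivative of the curvature tensor -/
def cT (D : ι → R → R) (Γ : ι → ι → ι → R) (e i j : ι) : Matrix ι ι R :=
  cE D Γ e (cF D Γ i j) - ∑ m, Γ m e i • cF D Γ m j - ∑ m, Γ m e j • cF D Γ i m

variable {D : ι → R → R} {Γ : ι → ι → ι → R}

theorem dM_transpose (i : ι) (M : Matrix ι ι R) : dM D i Mᵀ = (dM D i M)ᵀ := rfl

theorem cF_apply (i j l k : ι) : cF D Γ i j l k = gRiem D Γ l i j k := by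
  simp only [cF, dM, cA, gRiem, Matrix.add_apply, Matrix.sub_apply, Matrix.map_apply,
    Matrix.mul_apply, Matrix.of_apply, sum_sub_distrib]

theorem cB_apply (c : ι) (h : ι → ι → R) (a b : ι) :
    cB D Γ c (Matrix.of h) a b = gCov2 D Γ h c a b := by
  simp only [cB, dM, cA, gCov2, Matrix.add_apply, Matrix.sub_apply, Matrix.map_apply,
    Matrix.mul_apply, Matrix.of_apply, Matrix.transpose_apply, sum_add_distrib]
  congr 2
  exact sum_congr rfl fun m _ => mul_comm _ _

theorem cB_of (c : ι) (h : ι → ι → R) : cB D Γ c (Matrix.of h) = Matrix.of (gCov2 D Γ h c) := by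
  ext a b; rw [cB_apply]; rfl

theorem cF_anti (i j : ι) : cF D Γ i j = -cF D Γ j i := by
  simp only [cF]; abel

theorem cT_anti (hD : IsDer D) (e i j : ι) : cT D Γ e i j = -cT D Γ e j i := by
  have h : ∀ M, dM D e (-M) = -dM D e M := fun M => by
    ext a b; exact hD.neg e _
  have h1 : ∑ m, Γ m e i • cF D Γ m j = -∑ m, Γ m e i • cF D Γ j m := by
    rw [← sum_neg_distrib]; exact sum_congr rfl fun m _ => by rw [cF_anti m j, smul_neg]
  have h2 : ∑ m, Γ m e j • cF D Γ i m = -∑ m, Γ m e j • cF D Γ m i := by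
    rw [← sum_neg_distrib]; exact sum_congr rfl fun m _ => by rw [cF_anti i m, smul_neg]
  rw [cT, cT, h1, h2, cF_anti i j, cE, cE, h]
  noncomm_ring

section Der

variable (hD : IsDer D)
include hD

theorem dM_add (i : ι) (M N : Matrix ι ι R) : dM D i (M + N) = dM D i M + dM D i N := by
  ext a b; exact hD.add i _ _

theorem dM_sub (i : ι) (M N : Matrix ι ι R) : dM D i (M - N) = dM D i M - dM D i N := by
  ext a b; exact hD.sub i _ _

theorem dM_zero (i : ι) : dM D i (0 : Matrix ι ι R) = 0 := by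
  ext a b; exact hD.zero i

theorem dM_one (i : ι) : dM D i (1 : Matrix ι ι R) = 0 := by
  ext a b
  simp only [dM, Matrix.map_apply, Matrix.one_apply, Matrix.zero_apply]
  exact hD.ite i a b

theorem dM_mul (i : ι) (M N : Matrix ι ι R) :
    dM D i (M * N) = M * dM D i N + dM D i M * N := by
  ext a b
  simp only [dM, Matrix.map_apply, Matrix.mul_apply, Matrix.add_apply, hD.sum, hD.mul,
    sum_add_distrib]

theorem dM_comm (i j : ι) (M : Matrix ι ι R) : dM D i (dM D j M) = dM D j (dM D i M) := by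
  ext a b; exact hD.comm i j _

theorem dM_trace (i : ι) (M : Matrix ι ι R) : D i M.trace = (dM D i M).trace := by
  simp only [Matrix.trace, Matrix.diag, hD.sum, dM, Matrix.map_apply]

theorem cB_comm (e c : ι) (h : Matrix ι ι R) :
    cB D Γ e (cB D Γ c h) - cB D Γ c (cB D Γ e h) = -((cF D Γ e c)ᵀ * h + h * cF D Γ e c) := by
  simp only [cB, cF, dM_add hD, dM_sub hD, dM_mul hD, dM_transpose, transpose_add, transpose_sub,
    transpose_mul, dM_comm hD e c]
  noncomm_ring

theorem cE_cyc (e i j : ι) :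
    cE D Γ e (cF D Γ i j) + cE D Γ i (cF D Γ j e) + cE D Γ j (cF D Γ e i) = 0 := by
  simp only [cE, cF, dM_add hD, dM_sub hD, dM_mul hD]
  rw [dM_comm hD e i, dM_comm hD e j, dM_comm hD i j]
  noncomm_ring

theorem cT_cyc (hs : ∀ k i j, Γ k i j = Γ k j i) (e i j : ι) :
    cT D Γ e i j + cT D Γ i j e + cT D Γ j e i = 0 := by
  have h : ∀ a b c, ∑ m, Γ m a b • cF D Γ m c + ∑ m, Γ m b a • cF D Γ c m = 0 := fun a b c => by
    rw [← sum_add_distrib]
    exact sum_eq_zero fun m _ => by rw [cF_anti c m, hs m b a, smul_neg, add_neg_cancel]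
  simp only [cT]
  linear_combination (norm := abel) cE_cyc hD e i j - h e i j - h j e i - h i j e

theorem comm2 (hs : ∀ k i j, Γ k i j = Γ k j i) (h : ι → ι → R) (e c a b : ι) :
    gCov3 D Γ (gCov2 D Γ h) e c a b - gCov3 D Γ (gCov2 D Γ h) c e a b =
      -∑ l, (gRiem D Γ l e c a * h l b + gRiem D Γ l e c b * h a l) := by
  have h1 : ∀ e c, gCov3 D Γ (gCov2 D Γ h) e c a b =
      cB D Γ e (cB D Γ c (Matrix.of h)) a b - ∑ m, Γ m e c * gCov2 D Γ h m a b := fun e c => by
    rw [cB_of, cB_apply, gCov3, gCov2.eq_1 D Γ (gCov2 D Γ h c)]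
    simp only [sum_add_distrib]
    ring
  have h2 := congrFun (congrFun (cB_comm (Γ := Γ) hD e c (Matrix.of h)) a) b
  simp only [Matrix.sub_apply, Matrix.neg_apply, Matrix.add_apply, Matrix.mul_apply,
    Matrix.transpose_apply, cF_apply, Matrix.of_apply] at h2
  have h3 : ∑ m, Γ m e c * gCov2 D Γ h m a b = ∑ m, Γ m c e * gCov2 D Γ h m a b :=
    sum_congr rfl fun m _ => by rw [hs]
  have h4 : ∑ l, h a l * gRiem D Γ l e c b = ∑ l, gRiem D Γ l e c b * h a l :=
    sum_congr rfl fun m _ => mul_comm _ _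
  rw [h1, h1, sum_add_distrib]
  linear_combination h2 - h3 - h4

theorem comm1 (hs : ∀ k i j, Γ k i j = Γ k j i) (ω : ι → R) (i j k : ι) :
    gCov2 D Γ (gCov1 D Γ ω) i j k - gCov2 D Γ (gCov1 D Γ ω) j i k =
      -∑ l, gRiem D Γ l i j k * ω l := by
  have h0 : ∀ (η : ι → R) (c : ι), dM D c (Matrix.of fun _ k => η k) -
      (Matrix.of fun _ k => η k) * cA Γ c = Matrix.of fun _ k => gCov1 D Γ η c k := fun η c => by
    ext a b
    simp only [dM, cA, gCov1, Matrix.sub_apply, Matrix.map_apply, Matrix.mul_apply,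
      Matrix.of_apply]
    congr 1
    exact sum_congr rfl fun m _ => mul_comm _ _
  have h1 : ∀ i j, gCov2 D Γ (gCov1 D Γ ω) i j k =
      gCov1 D Γ (gCov1 D Γ ω j) i k - ∑ m, Γ m i j * gCov1 D Γ ω m k := fun i j => by
    rw [gCov2, gCov1.eq_1 D Γ (gCov1 D Γ ω j), sum_add_distrib]
    ring
  have h2 : (Matrix.of fun (_ : ι) k => gCov1 D Γ (gCov1 D Γ ω j) i k) -
      (Matrix.of fun (_ : ι) k => gCov1 D Γ (gCov1 D Γ ω i) j k) =
      -((Matrix.of fun _ k => ω k) * cF D Γ i j) := by
    rw [← h0, ← h0, ← h0, ← h0]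
    simp only [cF, dM_sub hD, dM_mul hD, dM_comm hD i j]
    noncomm_ring
  have h3 := congrFun (congrFun h2 k) k
  simp only [Matrix.sub_apply, Matrix.neg_apply, Matrix.mul_apply, cF_apply,
    Matrix.of_apply] at h3
  have h4 : ∑ m, Γ m i j * gCov1 D Γ ω m k = ∑ m, Γ m j i * gCov1 D Γ ω m k :=
    sum_congr rfl fun m _ => by rw [hs]
  have h5 : ∑ l, ω l * gRiem D Γ l i j k = ∑ l, gRiem D Γ l i j k * ω l :=
    sum_congr rfl fun m _ => mul_comm _ _
  rw [h1, h1]
  linear_combination h3 - h4 - h5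

/-- the contraction of `cT` is the covariant derivative of the contraction -/
theorem cT_contr (e j k : ι) :
    ∑ l, cT D Γ e l j l k = gCov2 D Γ (fun a b => ∑ l, gRiem D Γ l l a b) e j k := by
  simp only [cT, cE, dM, cA, gCov2, Matrix.sub_apply, Matrix.add_apply, Matrix.map_apply,
    Matrix.mul_apply, Matrix.sum_apply, Matrix.smul_apply, smul_eq_mul, cF_apply,
    Matrix.of_apply, sum_add_distrib, sum_sub_distrib, hD.sum, mul_sum]
  have h1 : ∑ l, ∑ m, Γ l e m * gRiem D Γ m l j k = ∑ l, ∑ m, Γ m e l * gRiem D Γ l m j k :=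
    sum_comm
  have h2 : ∑ l, ∑ m, gRiem D Γ l l j m * Γ m e k = ∑ m, ∑ l, Γ m e k * gRiem D Γ l l j m := by
    rw [sum_comm]
    exact sum_congr rfl fun m _ => sum_congr rfl fun l _ => mul_comm _ _
  have h3 : ∑ l, ∑ m, Γ m e j * gRiem D Γ l l m k = ∑ m, ∑ l, Γ m e j * gRiem D Γ l l m k :=
    sum_comm
  linear_combination h1 - h2 - h3

end Der

theorem bianchi1 (hs : ∀ k i j, Γ k i j = Γ k j i) (l i j k : ι) :
    gRiem D Γ l i j k + gRiem D Γ l j k i + gRiem D Γ l k i j = 0 := by
  have h : ∀ a b c, ∑ m, Γ l a m * Γ m b c = ∑ m, Γ l a m * Γ m c b := fun a b c =>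
    sum_congr rfl fun m _ => by rw [hs m b c]
  simp only [gRiem, sum_sub_distrib]
  rw [hs l k i, hs l k j, hs l j i]
  linear_combination h i j k + h j k i + h k i j

section Met

variable {g G : ι → ι → R} (hD : IsDer D) (hg : IsMet g G)
include hg

theorem Gg : Matrix.of G * Matrix.of g = 1 := by
  ext i j; rw [Matrix.one_apply, ← hg.inv]; rfl

theorem gT : (Matrix.of g)ᵀ = Matrix.of g := by
  ext i j; exact hg.gs j i

theorem GT : (Matrix.of G)ᵀ = Matrix.of G := by
  ext i j; exact hg.Gs j i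

theorem gG : Matrix.of g * Matrix.of G = 1 := by
  have := congrArg Matrix.transpose (Gg hg)
  rwa [transpose_mul, gT hg, GT hg, transpose_one] at this

theorem chr_symm (k i j : ι) : gChr D g G k i j = gChr D g G k j i := by
  simp only [gChr]
  congr 1
  exact sum_congr rfl fun l _ => by rw [hg.gs i j]; ring

theorem chr_low (l i j : ι) : ∑ k, g l k * gChr D g G k i j =
    (1 / 2 : ℝ) • (D i (g j l) + D j (g i l) - D l (g i j)) := by
  have h : ∀ p, ∑ k, g l k * G k p = if l = p then 1 else 0 := fun p => by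
    rw [← Matrix.one_apply, ← gG hg]; rfl
  simp only [gChr, mul_smul_comm, ← smul_sum, mul_sum, ← mul_assoc]
  rw [sum_comm]
  simp only [← sum_mul, h, ite_mul, one_mul, zero_mul, sum_ite_eq, mem_univ, if_true]

theorem cov_g (c a b : ι) : gCov2 D (gChr D g G) g c a b = 0 := by
  have h1 : ∑ m, gChr D g G m c a * g m b = ∑ m, g b m * gChr D g G m c a :=
    sum_congr rfl fun m _ => by rw [hg.gs m b, mul_comm]
  have h2 : ∑ m, gChr D g G m c b * g a m = ∑ m, g a m * gChr D g G m c b :=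
    sum_congr rfl fun m _ => mul_comm _ _
  rw [gCov2, sum_add_distrib, h1, h2, chr_low hg, chr_low hg, hg.gs b a, hg.gs c a, hg.gs c b]
  algebra

theorem cB_g (c : ι) : cB D (gChr D g G) c (Matrix.of g) = 0 := by
  ext a b; rw [cB_apply, cov_g hg]; rfl

theorem gTr_eq (h : ι → ι → R) : gTr G h = (Matrix.of G * Matrix.of h).trace := by
  simp only [gTr, Matrix.trace, Matrix.diag, Matrix.mul_apply, Matrix.of_apply]
  rw [sum_comm]
  exact sum_congr rfl fun i _ => sum_congr rfl fun j _ => by rw [hg.Gs]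

theorem riem_low (l i j k : ι) : gRiem D Γ l i j k = ∑ m, G l m * gRlow D g Γ i j k m := by
  have h : ∀ m p, G l m * (gRiem D Γ p i j k * g p m) = G l m * g m p * gRiem D Γ p i j k :=
    fun m p => by rw [hg.gs p m]; ring
  simp only [gRlow, mul_sum, h]
  rw [sum_comm]
  simp only [← sum_mul, hg.inv, ite_mul, one_mul, zero_mul, sum_ite_eq, mem_univ, if_true]

include hD

theorem dM_G (c : ι) : dM D c (Matrix.of G) =
    -(cA (gChr D g G) c * Matrix.of G + Matrix.of G * (cA (gChr D g G) c)ᵀ) := by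
  have h1 := dM_mul hD c (Matrix.of G) (Matrix.of g)
  rw [Gg hg, dM_one hD] at h1
  have h2 := cB_g (D := D) hg c
  rw [cB] at h2
  have h3 := Gg hg
  have h4 := gG hg
  linear_combination (norm := noncomm_ring) -(h1 * Matrix.of G) - Matrix.of G * h2 * Matrix.of G
    - dM D c (Matrix.of G) * h4 - Matrix.of G * (cA (gChr D g G) c)ᵀ * h4
    - h3 * cA (gChr D g G) c * Matrix.of G

theorem cF_g (i j : ι) :
    (cF D (gChr D g G) i j)ᵀ * Matrix.of g + Matrix.of g * cF D (gChr D g G) i j = 0 := by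
  have h := cB_comm (Γ := gChr D g G) hD i j (Matrix.of g)
  rw [cB_g hg, cB_g hg, cB, cB, dM_zero hD, dM_zero hD] at h
  linear_combination (norm := noncomm_ring) h

theorem cF_G (i j : ι) :
    cF D (gChr D g G) i j * Matrix.of G + Matrix.of G * (cF D (gChr D g G) i j)ᵀ = 0 := by
  have h := cF_g hD hg i j
  have h3 := Gg hg
  have h4 := gG hg
  linear_combination (norm := noncomm_ring) Matrix.of G * h * Matrix.of G
    - Matrix.of G * (cF D (gChr D g G) i j)ᵀ * h4 - h3 * cF D (gChr D g G) i j * Matrix.of G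

theorem cT_G (e i j : ι) :
    cT D (gChr D g G) e i j * Matrix.of G + Matrix.of G * (cT D (gChr D g G) e i j)ᵀ = 0 := by
  have h1 := congrArg (dM D e) (cF_G hD hg i j)
  rw [dM_add hD, dM_mul hD, dM_mul hD, dM_zero hD, dM_G hD hg, dM_transpose] at h1
  have h2 := cF_G hD hg i j
  have h3 : ∀ (c : ι → R) (F : ι → Matrix ι ι R),
      (∀ m, F m * Matrix.of G + Matrix.of G * (F m)ᵀ = 0) →
      (∑ m, c m • F m) * Matrix.of G + Matrix.of G * (∑ m, c m • F m)ᵀ = 0 := fun c F h => by
    rw [transpose_sum, Finset.sum_mul, Finset.mul_sum, ← sum_add_distrib]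
    exact sum_eq_zero fun m _ => by
      rw [transpose_smul, smul_mul_assoc, mul_smul_comm, ← smul_add, h, smul_zero]
  have h4 := h3 (fun m => gChr D g G m e i) _ fun m => cF_G hD hg m j
  have h5 := h3 (fun m => gChr D g G m e j) _ fun m => cF_G hD hg i m
  simp only [cT, cE, transpose_sub, transpose_add, transpose_mul]
  linear_combination (norm := noncomm_ring) h1 + cA (gChr D g G) e * h2
    + h2 * (cA (gChr D g G) e)ᵀ - h4 - h5

theorem anti2 (i j k m : ι) :
    gRlow D g (gChr D g G) i j k m = -gRlow D g (gChr D g G) i j m k := by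
  have h := congrFun (congrFun (cF_g hD hg i j) k) m
  simp only [Matrix.add_apply, Matrix.mul_apply, Matrix.transpose_apply, cF_apply,
    Matrix.of_apply, Matrix.zero_apply] at h
  have h2 : ∑ l, g k l * gRiem D (gChr D g G) l i j m = ∑ l, gRiem D (gChr D g G) l i j m * g l k :=
    sum_congr rfl fun l _ => by rw [hg.gs k l, mul_comm]
  simp only [gRlow]
  linear_combination h - h2

theorem der_tr (h : ι → ι → R) (c : ι) :
    D c (gTr G h) = gTr G (gCov2 D (gChr D g G) h c) := by
  rw [gTr_eq hg, gTr_eq hg, dM_trace hD, dM_mul hD, dM_G hD hg, ← cB_of, cB]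
  have h1 : (cA (gChr D g G) c * (Matrix.of G * Matrix.of h)).trace =
      (Matrix.of G * (Matrix.of h * cA (gChr D g G) c)).trace := by
    rw [trace_mul_comm, Matrix.mul_assoc]
  simp only [Matrix.mul_sub, Matrix.mul_add, Matrix.add_mul, Matrix.neg_mul, trace_add, trace_sub,
    trace_neg, h1, Matrix.mul_assoc]
  ring

end Met

theorem anti1 (g : ι → ι → R) (i j k m : ι) : gRlow D g Γ i j k m = -gRlow D g Γ j i k m := by
  simp only [gRlow, ← sum_neg_distrib, ← cF_apply]
  exact sum_congr rfl fun l _ => by rw [cF_anti i j, Matrix.neg_apply, neg_mul]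

end T1

open T1 in
theorem t1 : T1Stmt := by
  intro R _ _ ι _ _ D g G hD hg
  have hs := chr_symm (D := D) hg
  have a1 := anti1 (D := D) (Γ := gChr D g G) g
  have a2 := anti2 hD hg
  have b1 : ∀ i j k m, gRlow D g (gChr D g G) i j k m + gRlow D g (gChr D g G) j k i m +
      gRlow D g (gChr D g G) k i j m = 0 := fun i j k m => by
    simp only [gRlow, ← sum_add_distrib, ← add_mul, bianchi1 hs, zero_mul, sum_const_zero]
  have pair : ∀ i j k m, gRlow D g (gChr D g G) i j k m = gRlow D g (gChr D g G) k m i j := by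
    intro i j k m
    rw [half (x := gRlow D g (gChr D g G) i j k m) rfl,
      half (x := gRlow D g (gChr D g G) k m i j) rfl]
    congr 1
    linear_combination b1 i j k m + b1 j k m i - b1 k m i j - b1 m i j k
      - a2 j k m i - a2 k m j i - a1 m j k i + a2 j m k i + a2 m i k j + a1 i k m j - a2 k i m j
      + a2 i j m k
  have r1 : ∀ a b, gRic D (gChr D g G) a b = ∑ k, gRiem D (gChr D g G) k k b a := fun a b => by
    simp only [gRic, gRiem]
    refine sum_congr rfl fun k _ => ?_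
    rw [hs k a b, hs k a k]
    congr 1
    exact sum_congr rfl fun l _ => by rw [hs l a b, hs l a k]
  have r2 : ∀ a b, ∑ k, gRiem D (gChr D g G) k k a b =
      ∑ c, ∑ d, G c d * gRlow D g (gChr D g G) c a b d := fun a b =>
    sum_congr rfl fun k _ => riem_low hg k k a b
  have rs : ∀ a b, gRic D (gChr D g G) a b = gRic D (gChr D g G) b a := fun a b => by
    rw [r1, r1, r2, r2, sum_comm]
    refine sum_congr rfl fun c _ => sum_congr rfl fun d _ => ?_
    rw [hg.Gs d c, pair d b a c, a1 a c d b, a2 c a d b, neg_neg]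
  have rr : ∀ a b, gRic D (gChr D g G) a b = ∑ k, gRiem D (gChr D g G) k k a b := fun a b => by
    rw [rs, r1]
  refine ⟨hs, cov_g hg, fun c a b => ?_, a1, a2, pair, bianchi1 hs, riem_low hg, rr,
    fun a b => by rw [rr, r2], rs, comm1 hD hs, comm2 hD hs, der_tr hD hg, fun c => ?_⟩
  · have h := congrFun (congrFun (dM_G hD hg c) a) b
    simp only [dM, cA, Matrix.map_apply, Matrix.neg_apply, Matrix.add_apply, Matrix.mul_apply,
      Matrix.of_apply, Matrix.transpose_apply] at h
    rw [h, sum_add_distrib]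
    congr 2
    exact sum_congr rfl fun m _ => mul_comm _ _
  · refine half ?_
    have hc : ∀ e j k, ∑ l, cT D (gChr D g G) e l j l k =
        gCov2 D (gChr D g G) (gRic D (gChr D g G)) e j k := fun e j k => by
      rw [cT_contr hD]
      congr 1
      funext a b
      exact (rr a b).symm
    have hsy : ∀ e j k, gCov2 D (gChr D g G) (gRic D (gChr D g G)) e j k =
        gCov2 D (gChr D g G) (gRic D (gChr D g G)) e k j := fun e j k => by
      simp only [gCov2]
      rw [rs j k]
      congr 1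
      exact sum_congr rfl fun m _ => by rw [rs m k, rs j m, add_comm]
    have e0 : ∑ j, ∑ k, G j k * ∑ l, (cT D (gChr D g G) c l j l k + cT D (gChr D g G) l j c l k +
        cT D (gChr D g G) j c l l k) = 0 :=
      sum_eq_zero fun j _ => sum_eq_zero fun k _ => mul_eq_zero_of_right _
        (sum_eq_zero fun l _ => congrFun (congrFun (cT_cyc hD hs c l j) l) k)
    have e1 : ∑ j, ∑ k, G j k * ∑ l, cT D (gChr D g G) c l j l k =
        D c (gTr G (gRic D (gChr D g G))) := by
      rw [der_tr hD hg]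
      simp only [hc, gTr]
    have e3 : ∑ j, ∑ k, G j k * ∑ l, cT D (gChr D g G) j c l l k =
        -∑ a, ∑ b, G a b * gCov2 D (gChr D g G) (gRic D (gChr D g G)) a b c := by
      simp only [← sum_neg_distrib]
      refine sum_congr rfl fun j _ => sum_congr rfl fun k _ => ?_
      rw [hsy, ← hc, ← mul_neg, ← sum_neg_distrib]
      congr 1
      exact sum_congr rfl fun l _ => by rw [cT_anti hD j c l, Matrix.neg_apply]
    have e2 : ∑ j, ∑ k, G j k * ∑ l, cT D (gChr D g G) l j c l k =
        -∑ a, ∑ b, G a b * gCov2 D (gChr D g G) (gRic D (gChr D g G)) a b c := by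
      have f1 : ∀ l j, ∑ k, G j k * cT D (gChr D g G) l j c l k =
          -∑ k, G l k * cT D (gChr D g G) l j c j k := fun l j => by
        have h := congrFun (congrFun (cT_G hD hg l j c) l) j
        simp only [Matrix.add_apply, Matrix.mul_apply, Matrix.transpose_apply, Matrix.of_apply,
          Matrix.zero_apply] at h
        have h2 : ∑ k, cT D (gChr D g G) l j c l k * G k j =
            ∑ k, G j k * cT D (gChr D g G) l j c l k :=
          sum_congr rfl fun k _ => by rw [hg.Gs k j, mul_comm]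
        linear_combination h - h2
      calc ∑ j, ∑ k, G j k * ∑ l, cT D (gChr D g G) l j c l k
          = ∑ j, ∑ l, ∑ k, G j k * cT D (gChr D g G) l j c l k := by
            simp only [mul_sum]
            exact sum_congr rfl fun j _ => sum_comm
        _ = -∑ l, ∑ j, ∑ k, G l k * cT D (gChr D g G) l j c j k := by
            rw [sum_comm]
            simp only [f1, sum_neg_distrib]
        _ = _ := by
            congr 1
            refine sum_congr rfl fun l _ => ?_
            rw [sum_comm]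
            exact sum_congr rfl fun k _ => by rw [← mul_sum, hc, hsy]
    simp only [sum_add_distrib, mul_add] at e0
    linear_combination e1 + e2 + e3 - e0

end Pool.Agent.Lib.MP_df9110_gt
end

-- part Pool.Agent.Lib.MP_df9110_gt.T2
section

/-! The linearized Ricci tensor plus the DeTurck term is the Lichnerowicz Laplacian. -/

namespace Pool.Agent.Lib.MP_df9110_gt

open Finset

set_option linter.unusedSectionVars false

namespace T2

variable {R : Type} [CommRing R] [Algebra ℝ R] {ι : Type} [Fintype ι] [DecidableEq ι]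
  {D : ι → R → R} {g G h : ι → ι → R} {Γ : ι → ι → ι → R}

omit [Algebra ℝ R] [DecidableEq ι] in
theorem sc {f k : ι → ι → R} (e : ∀ i j, f i j = k j i) :
    ∑ i, ∑ j, f i j = ∑ i, ∑ j, k i j :=
  sum_comm.trans (sum_congr rfl fun _ _ => sum_congr rfl fun _ _ => e _ _)

omit [Algebra ℝ R] [DecidableEq ι] in
theorem s2 {f k : ι → ι → R} (e : ∀ i j, f i j = k i j) :
    ∑ i, ∑ j, f i j = ∑ i, ∑ j, k i j :=
  sum_congr rfl fun _ _ => sum_congr rfl fun _ _ => e _ _

/-- The tensor with both indices raised. -/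
noncomputable def up2 (G h : ι → ι → R) (c d : ι) : R := ∑ i, ∑ j, G c i * G d j * h i j

omit [Algebra ℝ R] in
theorem up2_symm (hh : ∀ i j, h i j = h j i) (c d : ι) : up2 G h c d = up2 G h d c :=
  sc fun i j => by rw [hh i j]; ring

theorem covC_up (hD : IsDer D) (T : T1Facts D g G Γ) (s : ι → ι → ι → R) (e c a b : ι) :
    gCovC D Γ (gUp G s) e c a b = ∑ d, G c d * gCov3 D Γ s e d a b := by
  have e1 : ∑ m, ∑ d, Γ c e m * (G m d * s d a b) = ∑ d, ∑ m, Γ c e m * G m d * s d a b :=
    sc fun _ _ => by ring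
  have e2 : ∑ d, ∑ m, Γ d e m * G c m * s d a b = ∑ d, ∑ m, G c d * (Γ m e d * s m a b) :=
    sc fun _ _ => by ring
  have e3 : ∑ m, ∑ d, Γ m e a * (G c d * s d m b) = ∑ d, ∑ m, G c d * (Γ m e a * s d m b) :=
    sc fun _ _ => by ring
  have e4 : ∑ m, ∑ d, Γ m e b * (G c d * s d a m) = ∑ d, ∑ m, G c d * (Γ m e b * s d a m) :=
    sc fun _ _ => by ring
  simp only [gCovC, gUp, gCov3, hD.sum, hD.mul, T.der_G, sum_add_distrib, sum_sub_distrib,
    mul_add, mul_sub, add_mul, neg_mul, sum_neg_distrib, mul_sum, sum_mul]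
  linear_combination e1 - e2 - e3 - e4

omit [DecidableEq ι] in
theorem cov3_S (hD : IsDer D) (e d a b : ι) :
    gCov3 D Γ (gS D Γ h) e d a b = (1 / 2 : ℝ) • (gCov3 D Γ (gCov2 D Γ h) e a b d +
      gCov3 D Γ (gCov2 D Γ h) e b a d - gCov3 D Γ (gCov2 D Γ h) e d a b) := by
  generalize ht : gCov2 D Γ h = t
  simp only [gCov3, gS, ht, hD.smul, hD.sub, hD.add, mul_smul_comm, ← smul_add, ← smul_sum,
    ← smul_sub]
  congr 1
  simp only [mul_add, mul_sub, sum_add_distrib, sum_sub_distrib]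
  ring

omit [Algebra ℝ R] [DecidableEq ι] in
theorem cov2_symm (hh : ∀ i j, h i j = h j i) (c a b : ι) :
    gCov2 D Γ h c a b = gCov2 D Γ h c b a := by
  simp only [gCov2, hh a b]
  congr 1
  exact sum_congr rfl fun m _ => by rw [hh m b, hh a m]; ring

omit [Algebra ℝ R] [DecidableEq ι] in
theorem cov3_symm {t : ι → ι → ι → R} (ht : ∀ c a b, t c a b = t c b a) (e c a b : ι) :
    gCov3 D Γ t e c a b = gCov3 D Γ t e c b a := by
  simp only [gCov3, ht c a b]
  congr 1
  exact sum_congr rfl fun m _ => by rw [ht m a b, ht c m b, ht c a m]; ring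

theorem lie_g (hD : IsDer D) (hm : IsMet g G) (T : T1Facts D g G Γ) (V : ι → R) (a b : ι) :
    gLie D V g a b = gCov1 D Γ (fun b => ∑ k, g k b * V k) a b +
      gCov1 D Γ (fun b => ∑ k, g k b * V k) b a := by
  have e0 : ∀ c a b, D c (g a b) = ∑ m, (Γ m c a * g m b + Γ m c b * g a m) := fun c a b =>
    sub_eq_zero.1 (T.cov_g c a b)
  have e1 : ∑ c, ∑ m, V c * (Γ m c a * g m b) = ∑ c, ∑ m, Γ m a c * g m b * V c :=
    s2 fun c m => by rw [T.chr_symm m c a]; ring
  have e2 : ∑ c, ∑ m, V c * (Γ m c b * g a m) = ∑ c, ∑ m, Γ m b c * g m a * V c :=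
    s2 fun c m => by rw [T.chr_symm m c b, hm.gs a m]; ring
  have e3 : ∑ c, ∑ m, Γ m a b * g c m * V c = ∑ m, ∑ c, Γ m a b * (g c m * V c) :=
    sc fun _ _ => by ring
  have e4 : ∑ c, ∑ m, Γ m b a * g c m * V c = ∑ m, ∑ c, Γ m b a * (g c m * V c) :=
    sc fun _ _ => by ring
  have e5 : ∑ c, g a c * D b (V c) = ∑ c, g c a * D b (V c) :=
    sum_congr rfl fun c _ => by rw [hm.gs a c]
  simp only [gLie, gCov1, hD.sum, hD.mul, e0, sum_add_distrib, mul_add, add_mul, mul_sum, sum_mul]
  linear_combination e1 + e2 - e3 - e4 + e5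

theorem low_W (hm : IsMet g G) (b : ι) :
    ∑ k, g k b * gW D G Γ h k = gTr G (gS D Γ h b) := by
  have e1 : ∀ k, gW D G Γ h k = ∑ d, G k d * gTr G (gS D Γ h d) := fun k => by
    simp only [gW, gUp, gTr, mul_sum]
    rw [sum_congr rfl fun i _ => sum_comm, sum_comm]
    exact sum_congr rfl fun d _ => s2 fun _ _ => by ring
  have e2 : ∑ k, ∑ d, g k b * (G k d * gTr G (gS D Γ h d)) =
      ∑ d, ∑ k, G d k * g k b * gTr G (gS D Γ h d) := sc fun k d => by rw [hm.Gs k d]; ring
  simp only [e1, mul_sum]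
  simp only [e2, ← sum_mul, hm.inv, ite_mul, one_mul, zero_mul, sum_ite_eq', mem_univ, if_true]

theorem cov1_tr (T : T1Facts D g G Γ) (s : ι → ι → ι → R) (a b : ι) :
    gCov1 D Γ (fun b => gTr G (s b)) a b = ∑ i, ∑ j, G i j * gCov3 D Γ s a b i j := by
  have e1 : ∑ k, ∑ i, ∑ j, Γ k a b * (G i j * s k i j) =
      ∑ i, ∑ j, ∑ k, G i j * (Γ k a b * s k i j) := by
    rw [sum_comm]
    exact sum_congr rfl fun i _ => sc fun _ _ => by ring
  rw [gCov1, T.der_tr]
  simp only [gTr, gCov2, gCov3, sum_add_distrib, sum_sub_distrib, mul_add, mul_sub, mul_sum]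
  linear_combination -e1

/-- The contraction of the curvature with a raised tensor. -/
theorem riem_up (hm : IsMet g G) (T : T1Facts D g G Γ) (f : ι → ι → R) (x y z : ι → ι) :
    ∑ c, ∑ d, G c d * ∑ l, gRiem D Γ l (x c) (y c) (z c) * f d l =
      ∑ c, ∑ m, gRlow D g Γ (x c) (y c) (z c) m * up2 G f c m := by
  refine sum_congr rfl fun c _ => ?_
  simp only [T.riem_low, up2, mul_sum, sum_mul]
  rw [sum_congr rfl fun i _ => sum_comm, sum_comm]
  exact sum_congr rfl fun m _ => s2 fun d l => by rw [hm.Gs l m]; ring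

theorem comm_tr (hm : IsMet g G) (T : T1Facts D g G Γ) (hh : ∀ i j, h i j = h j i) (a b : ι) :
    ∑ c, ∑ d, G c d * gCov3 D Γ (gCov2 D Γ h) a b c d =
      ∑ c, ∑ d, G c d * gCov3 D Γ (gCov2 D Γ h) b a c d := by
  have e1 : ∑ c, ∑ d, G c d * ∑ l, gRiem D Γ l a b c * h l d =
      ∑ c, ∑ m, gRlow D g Γ a b c m * up2 G h c m := by
    rw [← riem_up hm T h (fun _ => a) (fun _ => b) fun c => c]
    exact s2 fun c d => by simp only [hh _ d]
  have e2 : ∑ c, ∑ d, G c d * ∑ l, gRiem D Γ l a b d * h c l =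
      ∑ c, ∑ m, gRlow D g Γ a b c m * up2 G h c m := by
    rw [← riem_up hm T h (fun _ => a) (fun _ => b) fun c => c]
    exact sc fun c d => by rw [hm.Gs c d]
  have e3 : ∑ c, ∑ m, gRlow D g Γ a b c m * up2 G h c m =
      ∑ c, ∑ m, -(gRlow D g Γ a b c m * up2 G h c m) :=
    sc fun c m => by rw [T.anti2 a b c m, up2_symm hh c m]; ring
  have e4 : ∑ c, ∑ d, G c d * (gCov3 D Γ (gCov2 D Γ h) a b c d - gCov3 D Γ (gCov2 D Γ h) b a c d) =
      ∑ c, ∑ d, -(G c d * ∑ l, gRiem D Γ l a b c * h l d +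
        G c d * ∑ l, gRiem D Γ l a b d * h c l) :=
    s2 fun c d => by rw [T.comm2, sum_add_distrib]; ring
  simp only [mul_sub, sum_sub_distrib, sum_neg_distrib, sum_add_distrib] at e3 e4
  linear_combination e4 - e1 - e2 - e3

theorem comm_div (hm : IsMet g G) (T : T1Facts D g G Γ) (a b : ι) :
    ∑ c, ∑ d, G c d * gCov3 D Γ (gCov2 D Γ h) a c d b =
      ∑ c, ∑ d, G c d * gCov3 D Γ (gCov2 D Γ h) c a d b + gRmT G (gRlow D g Γ) h a b -
        ∑ c, ∑ k, gRic D Γ a k * G k c * h c b := by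
  have e1 : ∑ c, ∑ d, G c d * ∑ l, gRiem D Γ l a c b * h d l =
      ∑ c, ∑ m, -(gRlow D g Γ c a b m * up2 G h c m) :=
    (riem_up hm T h (fun _ => a) id fun _ => b).trans (s2 fun c m => by
      rw [id, T.anti1 a c b m]; ring)
  have e2 : ∑ c, ∑ d, G c d * ∑ l, gRiem D Γ l a c d * h l b =
      ∑ c, ∑ k, gRic D Γ a k * G k c * h c b := by
    simp only [T.riem_low, T.ric_low, mul_sum, sum_mul]
    rw [sum_congr rfl fun i _ => sum_comm, sum_comm]
    refine sum_congr rfl fun l _ => ?_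
    rw [sum_congr rfl fun i _ => sum_comm, sum_comm]
    refine sum_congr rfl fun m _ => s2 fun c d => ?_
    rw [T.anti1 a c d m, T.anti2 c a d m, hm.Gs l m]
    ring
  have e4 : ∑ c, ∑ d, G c d * (gCov3 D Γ (gCov2 D Γ h) a c d b - gCov3 D Γ (gCov2 D Γ h) c a d b) =
      ∑ c, ∑ d, -(G c d * ∑ l, gRiem D Γ l a c d * h l b +
        G c d * ∑ l, gRiem D Γ l a c b * h d l) :=
    s2 fun c d => by rw [T.comm2, sum_add_distrib]; ring
  have e5 : gRmT G (gRlow D g Γ) h a b = ∑ c, ∑ m, gRlow D g Γ c a b m * up2 G h c m := rfl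
  simp only [mul_sub, sum_sub_distrib, sum_neg_distrib, sum_add_distrib] at e1 e4
  linear_combination e4 - e1 - e2 - e5

theorem rmT_symm (T : T1Facts D g G Γ) (hh : ∀ i j, h i j = h j i) (a b : ι) :
    gRmT G (gRlow D g Γ) h b a = gRmT G (gRlow D g Γ) h a b :=
  sc (f := fun c d => gRlow D g Γ c b a d * up2 G h c d)
    (k := fun c d => gRlow D g Γ c a b d * up2 G h c d) fun c d => by
    rw [T.pair c b a d, T.anti1 a d c b, T.anti2 d a c b, up2_symm hh c d]; ring

theorem main (hD : IsDer D) (hm : IsMet g G) (T : T1Facts D g G Γ) (hh : ∀ i j, h i j = h j i)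
    (a b : ι) :
    (-2 : ℝ) • gDRic D G Γ h a b + gLie D (gW D G Γ h) g a b = gLapL D g G Γ h a b := by
  have hN := cov3_symm (D := D) (Γ := Γ) (cov2_symm (D := D) (Γ := Γ) hh)
  have c1 := comm_div (h := h) hm T a b
  have c2 := comm_div (h := h) hm T b a
  have c3 := comm_tr hm T hh a b
  rw [rmT_symm T hh] at c2
  have c4 : ∑ c, ∑ k, gRic D Γ b k * G k c * h c a = ∑ c, ∑ k, gRic D Γ b k * G k c * h a c :=
    s2 fun c k => by rw [hh c a]
  rw [lie_g hD hm T, funext (low_W hm), cov1_tr T, cov1_tr T]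
  simp only [gDRic, gDiv, covC_up hD T, cov3_S hD, gLapL, gRough, gRcT, mul_smul_comm,
    ← smul_sum, sum_add_distrib, sum_sub_distrib, mul_add, mul_sub]
  generalize gCov3 D Γ (gCov2 D Γ h) = N at hN c1 c2 c3 ⊢
  have e1 : ∑ c, ∑ d, G c d * N c a b d = ∑ c, ∑ d, G c d * N c a d b :=
    s2 fun c d => by rw [hN c a b d]
  have e2 : ∑ c, ∑ d, G c d * N c b a d = ∑ c, ∑ d, G c d * N c b d a :=
    s2 fun c d => by rw [hN c b a d]
  have e3 : ∑ c, ∑ d, G c d * N a c b d = ∑ c, ∑ d, G c d * N a c d b :=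
    s2 fun c d => by rw [hN a c b d]
  have e4 : ∑ c, ∑ d, G c d * N a d c b = ∑ c, ∑ d, G c d * N a c d b :=
    sc fun c d => by rw [hm.Gs c d]
  have e5 : ∑ c, ∑ d, G c d * N b d c a = ∑ c, ∑ d, G c d * N b c d a :=
    sc fun c d => by rw [hm.Gs c d]
  rw [e1, e2, e3, e4, e5, c1, c2, c3, c4]
  algebra

end T2

theorem t2 (h1 : T1Stmt) : T2Stmt := fun R _ _ ι _ _ D g G _ hD hm hh a b =>
  T2.main hD hm (h1 R ι D g G hD hm) hh a b

end Pool.Agent.Lib.MP_df9110_gt
end

-- part Pool.Agent.Lib.MP_df9110_gt.T3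
section

/-! The gauged equation, the splitting of `𝓛` and the symmetries (`T3Stmt`). -/

namespace Pool.Agent.Lib.MP_df9110_gt

open Finset

namespace T3

set_option linter.unusedSectionVars false

variable {R : Type} [CommRing R] [Algebra ℝ R] {ι : Type} [Fintype ι] [DecidableEq ι]
  {D : ι → R → R}

theorem lie_symm (V : ι → R) {h : ι → ι → R} (hs : ∀ i j, h i j = h j i) (a b : ι) :
    gLie D V h a b = gLie D V h b a := by
  unfold gLie
  refine sum_congr rfl fun c _ => ?_
  rw [hs a b, hs c b, hs a c]; ring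

theorem cov2_symm (Γ : ι → ι → ι → R) {h : ι → ι → R} (hs : ∀ i j, h i j = h j i) (c a b : ι) :
    gCov2 D Γ h c a b = gCov2 D Γ h c b a := by
  unfold gCov2
  rw [hs a b]
  congr 1
  refine sum_congr rfl fun m _ => ?_
  rw [hs m b, hs a m]; ring

theorem cov3_symm (Γ : ι → ι → ι → R) {t : ι → ι → ι → R} (hs : ∀ c i j, t c i j = t c j i)
    (e c a b : ι) : gCov3 D Γ t e c a b = gCov3 D Γ t e c b a := by
  unfold gCov3
  rw [hs c a b]
  congr 1
  refine sum_congr rfl fun m _ => ?_
  rw [hs m a b, hs c m b, hs c a m]; ring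

theorem rough_symm (G : ι → ι → R) (Γ : ι → ι → ι → R) {h : ι → ι → R}
    (hs : ∀ i j, h i j = h j i) (a b : ι) : gRough D G Γ h a b = gRough D G Γ h b a := by
  unfold gRough
  refine sum_congr rfl fun e _ => sum_congr rfl fun c _ => ?_
  rw [cov3_symm Γ (cov2_symm Γ hs)]

theorem rcT_symm (G Rc : ι → ι → R) {h : ι → ι → R} (hs : ∀ i j, h i j = h j i) (a b : ι) :
    gRcT G Rc h a b = gRcT G Rc h b a := by
  unfold gRcT
  refine sum_congr rfl fun c _ => sum_congr rfl fun k _ => ?_
  rw [hs c b, hs a c]; ring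

theorem rmT_symm (G : ι → ι → R) {Rl : ι → ι → ι → ι → R}
    (hR : ∀ c a b d, Rl c a b d = Rl d b a c) {h : ι → ι → R} (hs : ∀ i j, h i j = h j i)
    (a b : ι) : gRmT G Rl h a b = gRmT G Rl h b a := by
  unfold gRmT
  rw [sum_comm]
  refine sum_congr rfl fun d _ => sum_congr rfl fun c _ => ?_
  rw [hR c a b d, sum_comm]
  congr 1
  refine sum_congr rfl fun i _ => sum_congr rfl fun j _ => ?_
  rw [hs j i]; ring

theorem rlow_symm {g G : ι → ι → R} {Γ : ι → ι → ι → R} (F : T1Facts D g G Γ) (c a b d : ι) :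
    gRlow D g Γ c a b d = gRlow D g Γ d b a c := by
  rw [F.pair c a b d, F.anti1 b d c a, F.anti2 d b c a, neg_neg]

theorem err_symm {g G : ι → ι → R} {Γ : ι → ι → ι → R} (F : T1Facts D g G Γ) (hm : IsMet g G)
    (V : ι → R) (a b : ι) : gErr D g Γ V a b = gErr D g Γ V b a := by
  unfold gErr
  rw [F.ric_symm a b, lie_symm V hm.gs a b, hm.gs a b]

theorem L_symm {g G : ι → ι → R} {Γ : ι → ι → ι → R} (F : T1Facts D g G Γ) (V : ι → R)
    {h : ι → ι → R} (hs : ∀ i j, h i j = h j i) (a b : ι) :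
    gL D g G Γ V h a b = gL D g G Γ V h b a := by
  unfold gL gLapL
  rw [rough_symm G Γ hs a b, rmT_symm G (rlow_symm F) hs a b, rcT_symm G _ hs a b,
    lie_symm V hs a b, hs a b]

theorem low_symm {g G : ι → ι → R} {Γ : ι → ι → ι → R} (F : T1Facts D g G Γ) (U : ι → R)
    {h : ι → ι → R} (hs : ∀ i j, h i j = h j i) (a b : ι) :
    gLow D G Γ (gRlow D g Γ) (gRic D Γ) U h a b = gLow D G Γ (gRlow D g Γ) (gRic D Γ) U h b a := by
  unfold gLow
  rw [rmT_symm G (rlow_symm F) hs a b, rcT_symm G _ hs a b, lie_symm U hs a b]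
  congr 4
  refine sum_congr rfl fun e _ => sum_congr rfl fun c _ => ?_
  congr 1
  refine sum_congr rfl fun m _ => ?_
  rw [cov2_symm Γ hs m a b, cov2_symm Γ hs c m b, cov2_symm Γ hs c a m, hs m b, hs a m,
    add_comm (Γ m c a * h b m)]
  ring

theorem lie_add_right (hD : IsDer D) (V : ι → R) (g h : ι → ι → R) (a b : ι) :
    gLie D V (fun i j => g i j + h i j) a b = gLie D V g a b + gLie D V h a b := by
  unfold gLie
  rw [← sum_add_distrib]
  refine sum_congr rfl fun c _ => ?_
  rw [hD.add]; ring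

theorem lie_sub_left (hD : IsDer D) (V W : ι → R) (h : ι → ι → R) (a b : ι) :
    gLie D (fun k => V k - W k) h a b = gLie D V h a b - gLie D W h a b := by
  unfold gLie
  rw [← sum_sub_distrib]
  refine sum_congr rfl fun c _ => ?_
  rw [hD.sub, hD.sub]; ring

theorem lie_split (hD : IsDer D) {y : ι → R} (hy : ∀ i j, D i (y j) = if i = j then 1 else 0)
    (U : ι → R) (h : ι → ι → R) (a b : ι) :
    gLie D (fun k => (-1 / 2 : ℝ) • y k + U k) h a b =
      gLie D U h a b - (1 / 2 : ℝ) • ∑ c, y c * D c (h a b) - h a b := by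
  have e1 : ∑ c, h c b * D a (y c) = h a b := by simp [hy]
  have e2 : ∑ c, h a c * D b (y c) = h a b := by simp [hy]
  have e3 : gLie D (fun k => (-1 / 2 : ℝ) • y k + U k) h a b =
      gLie D U h a b - (1 / 2 : ℝ) • (∑ c, y c * D c (h a b) + ∑ c, h c b * D a (y c) +
        ∑ c, h a c * D b (y c)) := by
    unfold gLie
    rw [← sum_add_distrib, ← sum_add_distrib, smul_sum, ← sum_sub_distrib]
    refine sum_congr rfl fun c _ => ?_
    simp only [hD.add, hD.smul]
    algebra
  rw [e3, e1, e2]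
  algebra

theorem rough_split (hD : IsDer D) (G : ι → ι → R) (Γ : ι → ι → ι → R) (h : ι → ι → R) (a b : ι) :
    gRough D G Γ h a b = ∑ e, ∑ c, G e c * D e (D c (h a b)) -
      ∑ e, ∑ c, G e c * ∑ m, (D e (Γ m c a * h m b + Γ m c b * h a m) +
        (Γ m e c * gCov2 D Γ h m a b + Γ m e a * gCov2 D Γ h c m b +
          Γ m e b * gCov2 D Γ h c a m)) := by
  unfold gRough
  rw [← sum_sub_distrib]
  refine sum_congr rfl fun e _ => ?_
  rw [← sum_sub_distrib]
  refine sum_congr rfl fun c _ => ?_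
  have : D e (gCov2 D Γ h c a b) =
      D e (D c (h a b)) - ∑ m, D e (Γ m c a * h m b + Γ m c b * h a m) := by
    rw [gCov2, hD.sub, hD.sum]
  rw [gCov3, this, sum_add_distrib (f := fun m => D e (Γ m c a * h m b + Γ m c b * h a m))]
  ring

theorem cov2_add (hD : IsDer D) (Γ : ι → ι → ι → R) (g h : ι → ι → R) (c a b : ι) :
    gCov2 D Γ (fun i j => g i j + h i j) c a b = gCov2 D Γ g c a b + gCov2 D Γ h c a b := by
  unfold gCov2
  have : ∑ m, (Γ m c a * (g m b + h m b) + Γ m c b * (g a m + h a m)) =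
      ∑ m, (Γ m c a * g m b + Γ m c b * g a m) + ∑ m, (Γ m c a * h m b + Γ m c b * h a m) := by
    rw [← sum_add_distrib]
    exact sum_congr rfl fun m _ => by ring
  rw [hD.add, this]; ring

/-- `gS` of a symmetric tensor for a symmetric connection. -/
theorem gS_eq {Γ : ι → ι → ι → R} (hΓ : ∀ k i j, Γ k i j = Γ k j i) {k : ι → ι → R}
    (hs : ∀ i j, k i j = k j i) (d a b : ι) :
    gS D Γ k d a b = (1 / 2 : ℝ) • (D a (k b d) + D b (k a d) - D d (k a b)) -
      ∑ m, k d m * Γ m a b := by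
  unfold gS gCov2
  have : ∑ m, (Γ m a b * k m d + Γ m a d * k b m) + ∑ m, (Γ m b a * k m d + Γ m b d * k a m) -
      ∑ m, (Γ m d a * k m b + Γ m d b * k a m) = (2 : ℝ) • ∑ m, k d m * Γ m a b := by
    rw [← sum_add_distrib, ← sum_sub_distrib, smul_sum]
    refine sum_congr rfl fun m _ => ?_
    rw [hΓ m b a, hΓ m d a, hΓ m d b, hs m d, hs m b]
    algebra
  linear_combination (norm := algebra) (-1 / 2 : ℝ) • this

/-- The Christoffel symbols of `g + h`. -/
theorem chr_add (hD : IsDer D) {g G h G' : ι → ι → R} {Γ : ι → ι → ι → R} (F : T1Facts D g G Γ)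
    (hm : IsMet (fun i j => g i j + h i j) G') (k i j : ι) :
    gChr D (fun i j => g i j + h i j) G' k i j = Γ k i j + gUp G' (gS D Γ h) k i j := by
  have e1 : ∀ d, gS D Γ h d i j = gS D Γ (fun i j => g i j + h i j) d i j := by
    intro d
    unfold gS
    rw [cov2_add hD, cov2_add hD, cov2_add hD, F.cov_g, F.cov_g, F.cov_g, zero_add, zero_add,
      zero_add]
  have e2 : ∑ d, G' k d * ∑ m, (g d m + h d m) * Γ m i j = Γ k i j := by
    calc ∑ d, G' k d * ∑ m, (g d m + h d m) * Γ m i j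
        = ∑ m, (∑ d, G' k d * (g d m + h d m)) * Γ m i j := by
          simp only [mul_sum, sum_mul]
          rw [sum_comm]
          exact sum_congr rfl fun m _ => sum_congr rfl fun d _ => by ring
      _ = Γ k i j := by
          have : ∀ i j, ∑ k, G' i k * (g k j + h k j) = if i = j then 1 else 0 := hm.inv
          simp [this]
  unfold gUp gChr
  simp only [e1, gS_eq F.chr_symm hm.gs, mul_sub (G' k _) ((1 / 2 : ℝ) • _), sum_sub_distrib, e2,
    smul_sum, mul_smul_comm]
  ring

theorem up_S_symm (G : ι → ι → R) (Γ : ι → ι → ι → R) {h : ι → ι → R}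
    (hs : ∀ i j, h i j = h j i) (c a b : ι) :
    gUp G (gS D Γ h) c a b = gUp G (gS D Γ h) c b a := by
  unfold gUp gS
  refine sum_congr rfl fun d _ => ?_
  rw [cov2_symm Γ hs d a b, add_comm (gCov2 D Γ h a b d)]

theorem ric_add (hD : IsDer D) {Γ C : ι → ι → ι → R} (hΓ : ∀ k i j, Γ k i j = Γ k j i)
    (hC : ∀ k i j, C k i j = C k j i) (a b : ι) :
    gRic D (fun k i j => Γ k i j + C k i j) b a = gRic D Γ b a + gDiv D Γ C a b + gCC C a b := by
  unfold gRic gDiv gCC gCovC
  rw [← sum_add_distrib, ← sum_add_distrib]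
  refine sum_congr rfl fun c _ => ?_
  have : ∑ l, ((Γ c c l + C c c l) * (Γ l b a + C l b a) - (Γ c a l + C c a l) * (Γ l b c + C l b c)) =
      ∑ l, (Γ c c l * Γ l b a - Γ c a l * Γ l b c) +
      (∑ m, (Γ c c m * C m a b - Γ m c a * C c m b - Γ m c b * C c a m) -
        ∑ m, (Γ c a m * C m c b - Γ m a c * C c m b - Γ m a b * C c c m)) +
      ∑ d, (C c c d * C d a b - C c a d * C d c b) := by
    rw [← sum_sub_distrib, ← sum_add_distrib, ← sum_add_distrib]
    refine sum_congr rfl fun m _ => ?_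
    rw [hΓ m b a, hΓ m b c, hΓ m c a, hC m b a, hC m b c]
    ring
  rw [this, hD.add, hD.add, hC c b a, hC c b c]
  ring

theorem div_add (hD : IsDer D) (Γ C C' : ι → ι → ι → R) (a b : ι) :
    gDiv D Γ (fun k i j => C k i j + C' k i j) a b = gDiv D Γ C a b + gDiv D Γ C' a b := by
  have e : ∀ e c a b, gCovC D Γ (fun k i j => C k i j + C' k i j) e c a b =
      gCovC D Γ C e c a b + gCovC D Γ C' e c a b := by
    intro e c a b
    unfold gCovC
    have : ∑ m, (Γ c e m * (C m a b + C' m a b) - Γ m e a * (C c m b + C' c m b) -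
        Γ m e b * (C c a m + C' c a m)) =
        ∑ m, (Γ c e m * C m a b - Γ m e a * C c m b - Γ m e b * C c a m) +
        ∑ m, (Γ c e m * C' m a b - Γ m e a * C' c m b - Γ m e b * C' c a m) := by
      rw [← sum_add_distrib]
      exact sum_congr rfl fun m _ => by ring
    rw [hD.add, this]; ring
  unfold gDiv
  rw [← sum_add_distrib]
  refine sum_congr rfl fun c _ => ?_
  rw [e, e]; ring

theorem up_split (G G' : ι → ι → R) (s : ι → ι → ι → R) :
    gUp G' s = fun k i j => gUp G s k i j + gUp (fun i j => G' i j - G i j) s k i j := by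
  funext k i j
  unfold gUp
  rw [← sum_add_distrib]
  exact sum_congr rfl fun d _ => by ring

theorem main (h1 : T1Stmt) (h2 : T2Stmt) (hD : IsDer D) {g G : ι → ι → R} (hm : IsMet g G)
    (h G' : ι → ι → R) (V : ι → R) (hm' : IsMet (fun i j => g i j + h i j) G') (a b : ι) :
    (-2 : ℝ) • gErr D (fun i j => g i j + h i j) (gChr D (fun i j => g i j + h i j) G')
        (fun k => V k - gW D G (gChr D g G) h k) a b =
      (-2 : ℝ) • gErr D g (gChr D g G) V a b + gL D g G (gChr D g G) V h a b +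
        gQ D G (gChr D g G) (fun i j => G' i j - G i j) h a b := by
  have F := h1 R ι D g G hD hm
  have F' := h1 R ι D _ G' hD hm'
  have hs : ∀ i j, h i j = h j i := fun i j => by
    have e1 : g i j + h i j = g j i + h j i := hm'.gs i j
    linear_combination e1 - hm.gs i j
  have t2 := h2 R ι D g G h hD hm hs a b
  have eΓ : gChr D (fun i j => g i j + h i j) G' =
      fun k i j => gChr D g G k i j + gUp G' (gS D (gChr D g G) h) k i j := by
    funext k i j
    exact chr_add hD F hm' k i j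
  have eG : (fun i j => G i j + (G' i j - G i j)) = G' := by
    funext i j; ring
  have eR : gRic D (gChr D (fun i j => g i j + h i j) G') a b =
      gRic D (gChr D g G) a b + (gDRic D G (gChr D g G) h a b +
        gDiv D (gChr D g G) (gUp (fun i j => G' i j - G i j) (gS D (gChr D g G) h)) a b) +
        gCC (gUp G' (gS D (gChr D g G) h)) a b := by
    rw [F'.ric_symm a b, F.ric_symm a b, eΓ, ric_add hD F.chr_symm (up_S_symm G' _ hs), gDRic,
      ← div_add hD, ← up_split]
  unfold gErr gL gQ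
  rw [eR, eG, lie_sub_left hD, lie_add_right hD, lie_add_right hD, ← t2]
  algebra

end T3

theorem t3 (h1 : T1Stmt) (h2 : T2Stmt) : T3Stmt := by
  intro R _ _ ι _ _ D g G hD hm
  have F := h1 R ι D g G hD hm
  refine ⟨fun h G' V hm' a b => T3.main h1 h2 hD hm h G' V hm' a b, fun y U hy => ⟨?_, ?_⟩,
    T3.err_symm F hm, fun V h hs => T3.L_symm F V hs, fun U h hs => T3.low_symm F U hs, ?_⟩
  · intro h a b
    unfold gL gLapL gLow
    rw [T3.lie_split hD hy, T3.rough_split hD]
    algebra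
  · intro a b
    unfold gErr
    rw [T3.lie_split hD hy]
    algebra
  · intro h G' hm' a b
    have hs : ∀ i j, h i j = h j i := fun i j => by
      have e1 : g i j + h i j = g j i + h j i := hm'.gs i j
      linear_combination e1 - hm.gs i j
    have m1 := T3.main h1 h2 hD hm h G' (fun _ => 0) hm' a b
    have m2 := T3.main h1 h2 hD hm h G' (fun _ => 0) hm' b a
    rw [T3.err_symm (h1 R ι D _ G' hD hm') hm' _ a b, T3.err_symm F hm _ a b,
      T3.L_symm F _ hs a b, m2] at m1
    exact (add_left_cancel m1).symm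

end Pool.Agent.Lib.MP_df9110_gt
end
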