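import Pool.Agent.Lib.MP_df9110_gt.NTenS

-- part Pool.Agent.Lib.MP_df9110_gt.T4
section

/-! The operator `gL` on the barrier `φ g + β Ric`, and the scalar curvature equation. -/

namespace Pool.Agent.Lib.MP_df9110_gt

open Finset

namespace T4

variable {R : Type} [CommRing R] [Algebra ℝ R] {ι : Type} [Fintype ι] [DecidableEq ι]

section Dual

open TrivSqZeroExt

/-- A dual number. -/
def dn (a b : R) : DualNumber R := (a, b)

omit [CommRing R] [Algebra ℝ R] in
@[simp] theorem fst_dn (a b : R) : (dn a b).fst = a := rfl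
omit [CommRing R] [Algebra ℝ R] in
@[simp] theorem snd_dn (a b : R) : (dn a b).snd = b := rfl

omit [Algebra ℝ R] in
theorem fst_ite (p : Prop) [Decidable p] :
    (if p then 1 else 0 : DualNumber R).fst = if p then 1 else 0 := by split_ifs <;> rfl
omit [Algebra ℝ R] in
theorem snd_ite (p : Prop) [Decidable p] : (if p then 1 else 0 : DualNumber R).snd = 0 := by
  split_ifs <;> rfl

/-- Derivations extended to dual numbers. -/
def dD (D : ι → R → R) (i : ι) (x : DualNumber R) : DualNumber R := dn (D i x.fst) (D i x.snd)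

omit [Fintype ι] [DecidableEq ι] in
theorem dD_der {D : ι → R → R} (hD : IsDer D) : IsDer (dD D) where
  add i a b := by ext <;> simp [dD, hD.add]
  mul i a b := by
    ext
    · simp [dD, hD.mul]
    · simp only [dD, snd_dn, fst_dn, DualNumber.snd_mul, snd_add, hD.add, hD.mul]; ring
  smul i c a := by ext <;> simp [dD, hD.smul]
  comm i j a := by ext <;> simp [dD, hD.comm i j]

/-- The infinitesimal flow of `V`. -/
noncomputable def dπ {D : ι → R → R} (hD : IsDer D) (V : ι → R) : R →ₐ[ℝ] DualNumber R where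
  toFun f := dn f (∑ m, V m * D m f)
  map_one' := by ext <;> simp [hD.one]
  map_mul' x y := by
    ext
    · simp
    · simp only [snd_dn, fst_dn, DualNumber.snd_mul, hD.mul, mul_sum, sum_mul, ← sum_add_distrib]
      exact sum_congr rfl fun m _ => by ring
  map_zero' := by ext <;> simp [hD.zero]
  map_add' x y := by ext <;> simp [hD.add, mul_add, sum_add_distrib]
  commutes' c := by ext <;> simp [hD.algebraMap, algebraMap_eq_inl']

omit [DecidableEq ι] in
theorem dπ_apply {D : ι → R → R} (hD : IsDer D) (V : ι → R) (f : R) :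
    dπ hD V f = dn f (∑ m, V m * D m f) := rfl

/-- The Jacobian of the infinitesimal flow. -/
def dJ (D : ι → R → R) (V : ι → R) (a i : ι) : DualNumber R :=
  dn (if a = i then 1 else 0) (D i (V a))

/-- Its inverse. -/
def dK (D : ι → R → R) (V : ι → R) (a i : ι) : DualNumber R :=
  dn (if a = i then 1 else 0) (-D i (V a))

theorem pull_fst {D : ι → R → R} (hD : IsDer D) (V : ι → R) (h : ι → ι → R) (i j : ι) :
    (gPull2 (dJ D V) (fun a b => dπ hD V (h a b)) i j).fst = h i j := by
  simp [gPull2, fst_sum, dJ, dπ_apply]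

theorem pull_snd {D : ι → R → R} (hD : IsDer D) (V : ι → R) (h : ι → ι → R) (i j : ι) :
    (gPull2 (dJ D V) (fun a b => dπ hD V (h a b)) i j).snd = gLie D V h i j := by
  simp only [gPull2, snd_sum, dJ, dπ_apply, DualNumber.snd_mul, fst_mul, fst_dn, snd_dn, gLie,
    sum_add_distrib, add_mul, mul_ite, ite_mul, one_mul, mul_one, zero_mul, mul_zero,
    sum_ite_eq', mem_univ, if_true]
  rw [sum_comm (f := fun a b => if a = i then D j (V b) * h a b else 0)]
  simp only [sum_ite_eq', mem_univ, if_true, mul_comm]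
  ring

theorem dual (h1 : T1Stmt) (h6 : T6Stmt) {D : ι → R → R} (hD : IsDer D) {g G : ι → ι → R}
    (hm : IsMet g G) (V : ι → R) :
    (∀ a b, gDRic D G (gChr D g G) (gLie D V g) a b = gLie D V (gRic D (gChr D g G)) a b) ∧
    ∃ H : ι → ι → R, (∀ i j, ∑ k, (G i k * gLie D V g k j + H i k * g k j) = 0) ∧
      ∑ i, ∑ j, (G i j * gLie D V (gRic D (gChr D g G)) i j + H i j * gRic D (gChr D g G) i j) =
        ∑ m, V m * D m (gTr G (gRic D (gChr D g G))) := by
  have F := h6 (DualNumber R) R ι (dD D) D (dπ hD V) (dJ D V) (dK D V) g G (dD_der hD) hD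
    (fun i f => by
      ext
      · simp [dD, dπ_apply, dJ, fst_sum]
      · simp only [dD, dπ_apply, dJ, snd_sum, DualNumber.snd_mul, fst_dn, snd_dn, hD.sum, hD.mul,
          sum_add_distrib, ite_mul, one_mul, zero_mul, sum_ite_eq', mem_univ, if_true,
          hD.comm i])
    (fun a i j => by ext <;> simp [dD, dJ, hD.ite, hD.comm i j])
    (fun a b => by
      ext
      · simp [dJ, dK, fst_sum, fst_ite]
      · simp [dJ, dK, snd_sum, snd_ite, sum_add_distrib])
    (fun a b => by
      ext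
      · simp [dJ, dK, fst_sum, fst_ite]
      · simp [dJ, dK, snd_sum, snd_ite, sum_add_distrib]) hm
  set g' := gPull2 (dJ D V) fun a b => dπ hD V (g a b) with hg'
  set G' : ι → ι → DualNumber R :=
    fun i j => ∑ a, ∑ b, dK D V i a * dK D V j b * dπ hD V (G a b) with hG'
  have T := h1 (DualNumber R) ι (dD D) g' G' (dD_der hD) F.met
  have T0 := h1 R ι D g G hD hm
  have fg : ∀ i j, (g' i j).fst = g i j := pull_fst hD V g
  have sg : ∀ i j, (g' i j).snd = gLie D V g i j := pull_snd hD V g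
  have fG : ∀ i j, (G' i j).fst = G i j := fun i j => by simp [hG', fst_sum, dK, dπ_apply]
  have fΓ : ∀ k i j, (gChr (dD D) g' G' k i j).fst = gChr D g G k i j := fun k i j => by
    have := map_gChr (D := dD D) (D' := D) (fstHom ℝ R R) (fun _ _ => rfl) g' G' k i j
    simpa only [fstHom_apply, fg, fG] using this
  have fR : ∀ i j, (gRic (dD D) (gChr (dD D) g' G') i j).fst = gRic D (gChr D g G) i j :=
    fun i j => by rw [F.ric, pull_fst]
  have sR : ∀ i j, (gRic (dD D) (gChr (dD D) g' G') i j).snd =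
      gLie D V (gRic D (gChr D g G)) i j := fun i j => by rw [F.ric, pull_snd]
  have hs := congrArg snd F.scal
  have hi := fun i j => congrArg snd (F.met.inv i j)
  refine ⟨fun a b => ?_, fun i j => (G' i j).snd, fun i j => ?_, ?_⟩
  · generalize gChr (dD D) g' G' = Γ' at T fΓ fR sR
    generalize gChr D g G = Γ at T0 fΓ fR sR ⊢
    set C : ι → ι → ι → R := fun k i j => (Γ' k i j).snd with hC
    have Cs : ∀ k i j, C k i j = C k j i := fun k i j => congrArg snd (T.chr_symm k i j)
    have hcov : ∀ c a b, gCov2 D Γ (gLie D V g) c a b =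
        ∑ m, (C m c a * g m b + C m c b * g a m) := fun c a b => by
      have := congrArg snd (T.cov_g c a b)
      simp only [gCov2, dD, snd_sub, snd_dn, snd_sum, snd_add, DualNumber.snd_mul, fΓ, fg, sg,
        snd_zero, sum_add_distrib] at this
      simp only [gCov2, hC, sum_add_distrib]
      linear_combination this
    have hS : ∀ d a b, gS D Γ (gLie D V g) d a b = ∑ m, g d m * C m a b := fun d a b => by
      have : gCov2 D Γ (gLie D V g) a b d + gCov2 D Γ (gLie D V g) b a d -
          gCov2 D Γ (gLie D V g) d a b = 2 * ∑ m, g d m * C m a b := by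
        simp only [hcov, mul_sum, ← sum_add_distrib, ← sum_sub_distrib]
        refine sum_congr rfl fun m _ => ?_
        rw [Cs m b a, Cs m d a, Cs m d b, hm.gs m d, hm.gs m b]
        ring
      rw [gS, this]
      algebra
    have hU : gUp G (gS D Γ (gLie D V g)) = C := by
      funext c a b
      simp only [gUp, hS, mul_sum, ← mul_assoc]
      rw [sum_comm]
      simp only [← sum_mul, hm.inv, ite_mul, one_mul, zero_mul, sum_ite_eq, mem_univ, if_true]
    rw [gDRic, hU, ← sR, T.ric_riem, snd_sum, gDiv]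
    refine sum_congr rfl fun c _ => ?_
    simp only [gRiem, gCovC, dD, snd_sub, snd_dn, snd_sum, snd_add, DualNumber.snd_mul, fΓ, hC,
      sum_add_distrib, sum_sub_distrib, T0.chr_symm _ c a, mul_comm (Γ' _ _ _).snd]
    ring
  · simpa only [snd_sum, DualNumber.snd_mul, fG, fg, sg, snd_ite] using hi i j
  · simpa only [gTr, snd_sum, DualNumber.snd_mul, fG, fR, sR, dπ_apply, snd_dn] using hs

end Dual

section Lin

variable {D : ι → R → R} (hD : IsDer D) (G : ι → ι → R) (Γ : ι → ι → ι → R)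
  (h k : ι → ι → R) (β : ℝ)
include hD

omit [DecidableEq ι] in
theorem cov2_lin : gCov2 D Γ (fun i j => h i j + β • k i j) =
    fun c a b => gCov2 D Γ h c a b + β • gCov2 D Γ k c a b := by
  funext c a b
  simp only [gCov2, hD.add, hD.smul, mul_add, mul_smul_comm, sum_add_distrib, ← smul_sum]
  module

omit [DecidableEq ι] in
theorem cov3_lin (s t : ι → ι → ι → R) : gCov3 D Γ (fun c i j => s c i j + β • t c i j) =
    fun e c a b => gCov3 D Γ s e c a b + β • gCov3 D Γ t e c a b := by
  funext e c a b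
  simp only [gCov3, hD.add, hD.smul, mul_add, mul_smul_comm, sum_add_distrib, ← smul_sum]
  module

omit [DecidableEq ι] in
theorem dric_lin (a b : ι) : gDRic D G Γ (fun i j => h i j + β • k i j) a b =
    gDRic D G Γ h a b + β • gDRic D G Γ k a b := by
  have e : gUp G (gS D Γ fun i j => h i j + β • k i j) =
      fun c a b => gUp G (gS D Γ h) c a b + β • gUp G (gS D Γ k) c a b := by
    funext c a b
    simp only [gUp, gS, cov2_lin hD, smul_sum, ← sum_add_distrib]
    exact sum_congr rfl fun d _ => by algebra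
  simp only [gDRic, e, gDiv, gCovC, hD.add, hD.smul, mul_add, mul_smul_comm, sum_add_distrib,
    sum_sub_distrib, ← smul_sum]
  module

omit [DecidableEq ι] in
theorem gL_lin (g : ι → ι → R) (V : ι → R) (a b : ι) :
    gL D g G Γ V (fun i j => h i j + β • k i j) a b =
      gL D g G Γ V h a b + β • gL D g G Γ V k a b := by
  simp only [gL, gLapL, gRough, gRmT, gRcT, gLie, cov2_lin hD, cov3_lin hD, hD.add, hD.smul,
    mul_add, add_mul, mul_smul_comm, smul_mul_assoc, sum_add_distrib, ← smul_sum]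
  module

omit [DecidableEq ι] in
theorem dric_par (hh : ∀ c a b, gCov2 D Γ h c a b = 0) (a b : ι) : gDRic D G Γ h a b = 0 := by
  simp [gDRic, gDiv, gCovC, gUp, gS, hh, hD.zero]

end Lin

section Main

variable {D : ι → R → R} (hD : IsDer D) {g G : ι → ι → R} (hm : IsMet g G)
  {Γ : ι → ι → ι → R} (T : T1Facts D g G Γ)

omit [Algebra ℝ R] in
include hm in
theorem up_down (f : ι → R) (i : ι) : ∑ j, ∑ k, G i k * g k j * f j = f i := by
  simp only [← sum_mul, hm.inv, ite_mul, one_mul, zero_mul, sum_ite_eq, mem_univ, if_true]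

include hD hm T in
theorem gL_conf (V : ι → R) (φ : R) (a b : ι) : gL D g G Γ V (fun i j => φ * g i j) a b =
    gLapV D G Γ V φ * g a b - φ * (gLie D V g a b + g a b) := by
  have hg : ∀ c a b, D c (g a b) = ∑ m, (Γ m c a * g m b + Γ m c b * g a m) := fun c a b =>
    sub_eq_zero.1 (T.cov_g c a b)
  have e2 : gCov2 D Γ (fun i j => φ * g i j) = fun c a b => D c φ * g a b := by
    funext c a b
    simp only [gCov2, hD.mul, hg, mul_sum, mul_add, mul_left_comm φ]
    ring
  have e3 : ∀ e c, gCov3 D Γ (fun c a b => D c φ * g a b) e c a b = gHess D Γ φ e c * g a b := by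
    intro e c
    simp only [gCov3, gHess, hD.mul, hg, mul_sum, mul_add, sub_mul, sum_mul, sum_add_distrib,
      mul_left_comm (D c φ), mul_assoc]
    ring
  have e4 : ∀ c d, ∑ i, ∑ j, G c i * G d j * (φ * g i j) = φ * G c d := fun c d => by
    rw [← up_down hm (fun j => φ * G j d) c, sum_comm]
    refine sum_congr rfl fun j _ => sum_congr rfl fun i _ => ?_
    rw [hm.Gs d j]; ring
  have e5 : gRmT G (gRlow D g Γ) (fun i j => φ * g i j) a b = φ * gRic D Γ a b := by
    simp only [gRmT, e4, T.ric_low, mul_sum]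
    exact sum_congr rfl fun c _ => sum_congr rfl fun d _ => by ring
  have e6 : ∀ a b, ∑ c, ∑ k, gRic D Γ a k * G k c * (φ * g c b) = φ * gRic D Γ a b := by
    intro a b
    have : ∀ k, ∑ c, gRic D Γ a k * G k c * (φ * g c b) =
        φ * gRic D Γ a k * ∑ c, G k c * g c b := fun k => by
      rw [mul_sum]; exact sum_congr rfl fun c _ => by ring
    rw [sum_comm]
    simp only [this, hm.inv, mul_ite, mul_one, mul_zero, sum_ite_eq', mem_univ, if_true]
  have e7 : gRcT G (gRic D Γ) (fun i j => φ * g i j) a b = 2 * φ * gRic D Γ a b := by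
    simp only [gRcT, sum_add_distrib, hm.gs a, e6, T.ric_symm b a]
    ring
  have e8 : gLie D V (fun i j => φ * g i j) a b =
      (∑ c, V c * D c φ) * g a b + φ * gLie D V g a b := by
    simp only [gLie, hD.mul, mul_sum, sum_mul, ← sum_add_distrib]
    exact sum_congr rfl fun c _ => by ring
  have e9 : gRough D G Γ (fun i j => φ * g i j) a b = gTr G (gHess D Γ φ) * g a b := by
    simp only [gRough, e2, e3, gTr, sum_mul, mul_assoc]
  rw [gL, gLapL, e5, e7, e8, e9, gLapV]
  algebra

include hm T in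
theorem gW_ric (k : ι) : gW D G Γ (gRic D Γ) k = 0 := by
  have e1 : ∀ d, ∑ i, ∑ j, G i j * gS D Γ (gRic D Γ) d i j = 0 := fun d => by
    have h1 := T.bianchi d
    have h2 : ∑ i, ∑ j, G i j * gCov2 D Γ (gRic D Γ) j i d =
        ∑ i, ∑ j, G i j * gCov2 D Γ (gRic D Γ) i j d := by
      rw [sum_comm]; simp only [hm.Gs]
    have h3 := T.der_tr (gRic D Γ) d
    rw [h3, gTr] at h1
    simp only [gS, mul_smul_comm, mul_add, mul_sub, ← smul_sum, sum_add_distrib, sum_sub_distrib,
      h2, h1]
    module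
  calc _ = ∑ d, G k d * ∑ i, ∑ j, G i j * gS D Γ (gRic D Γ) d i j := by
        simp only [gW, gUp, mul_sum]
        rw [sum_comm (γ := ι) (f := fun d i => ∑ j, G k d * (G i j * gS D Γ (gRic D Γ) d i j))]
        refine sum_congr rfl fun i _ => ?_
        rw [sum_comm]
        exact sum_congr rfl fun _ _ => sum_congr rfl fun _ _ => by ring
    _ = 0 := by simp [e1]

omit [Algebra ℝ R] [DecidableEq ι] in
theorem sum4 (f : ι → ι → ι → ι → R) :
    ∑ a, ∑ b, ∑ c, ∑ d, f a b c d = ∑ c, ∑ d, ∑ a, ∑ b, f a b c d := by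
  simp only [← Fintype.sum_prod_type']
  exact Fintype.sum_bijective (fun x => (x.2.2.1, x.2.2.2, x.1, x.2.1))
    (Function.bijective_iff_has_inverse.2 ⟨fun x => (x.2.2.1, x.2.2.2, x.1, x.2.1),
      fun _ => rfl, fun _ => rfl⟩) _ _ fun _ => rfl

omit [DecidableEq ι] in
include T in
theorem tr_rough (h : ι → ι → R) : gTr G (gRough D G Γ h) = gTr G (gHess D Γ (gTr G h)) := by
  have e : ∀ e c, gHess D Γ (gTr G h) e c =
      ∑ a, ∑ b, G a b * gCov3 D Γ (gCov2 D Γ h) e c a b := fun e c => by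
    have h1 : ∑ m, Γ m e c * gTr G (gCov2 D Γ h m) =
        ∑ a, ∑ b, G a b * ∑ m, Γ m e c * gCov2 D Γ h m a b := by
      simp only [gTr, mul_sum]
      rw [sum_comm]
      refine sum_congr rfl fun a _ => ?_
      rw [sum_comm]
      exact sum_congr rfl fun _ _ => sum_congr rfl fun _ _ => by ring
    simp only [gHess, T.der_tr, h1]
    rw [gTr, ← sum_sub_distrib]
    refine sum_congr rfl fun a _ => ?_
    rw [← sum_sub_distrib]
    refine sum_congr rfl fun b _ => ?_
    rw [gCov3, gCov2]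
    simp only [sum_add_distrib]
    ring
  rw [gTr, gTr]
  simp only [e, gRough, mul_sum]
  rw [sum4]
  exact sum_congr rfl fun _ _ => sum_congr rfl fun _ _ => sum_congr rfl fun _ _ =>
    sum_congr rfl fun _ _ => by ring

omit [DecidableEq ι] in
include T in
theorem tr_rm (h : ι → ι → R) : gTr G (gRmT G (gRlow D g Γ) h) = gIp G (gRic D Γ) h := by
  have e : ∀ c d, gRic D Γ c d = ∑ a, ∑ b, G a b * gRlow D g Γ c a b d := fun c d => by
    rw [T.ric_low]
    refine sum_congr rfl fun a _ => sum_congr rfl fun b _ => ?_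
    rw [T.anti1 c a, T.anti2 a c b d, neg_neg]
  have e1 : ∀ u : ι → ι → R, ∑ a, ∑ b, G a b * ∑ c, ∑ d, gRlow D g Γ c a b d * u c d =
      ∑ c, ∑ d, gRic D Γ c d * u c d := fun u => by
    simp only [e, mul_sum, sum_mul]
    rw [sum4]
    exact sum_congr rfl fun _ _ => sum_congr rfl fun _ _ => sum_congr rfl fun _ _ =>
      sum_congr rfl fun _ _ => by ring
  refine (e1 fun c d => ∑ i, ∑ j, G c i * G d j * h i j).trans ?_
  simp only [gIp, mul_sum]
  exact sum_congr rfl fun _ _ => sum_congr rfl fun _ _ => sum_congr rfl fun _ _ =>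
    sum_congr rfl fun _ _ => by ring

omit [Algebra ℝ R] in
include hm in
theorem tr_rc (h : ι → ι → R) (hs : ∀ a b, h a b = h b a) :
    gTr G (gRcT G h h) = 2 * gIp G h h := by
  simp only [gTr, gRcT, gIp, mul_sum, mul_add, sum_add_distrib, two_mul]
  congr 1
  · refine sum_congr rfl fun a _ => Eq.symm ?_
    rw [sum_comm]
    refine sum_congr rfl fun b _ => ?_
    rw [sum_comm]
    exact sum_congr rfl fun c _ => sum_congr rfl fun _ _ => by rw [hs c b]; ring
  · refine sum_congr rfl fun a _ => ?_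
    rw [sum_comm]
    exact sum_congr rfl fun c _ => sum_congr rfl fun b _ => sum_congr rfl fun k _ => by
      rw [hm.Gs k c]; ring

end Main

end T4

open T4 in
theorem t4 (h1 : T1Stmt) (h2 : T2Stmt) (_h3 : T3Stmt) (h6 : T6Stmt) : T4Stmt := by
  intro R _ _ ι _ _ D g G hD hm
  have T := h1 R ι D g G hD hm
  have hd := dual h1 h6 hD hm
  have hL := h2 R ι D g G _ hD hm T.ric_symm
  generalize gChr D g G = Γ at T hd hL ⊢
  have hric : ∀ V a b, gL D g G Γ V (gRic D Γ) a b =
      -gRic D Γ a b - (2 : ℝ) • gDRic D G Γ (gErr D g Γ V) a b := fun V a b => by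
    have e0 : gW D G Γ (gRic D Γ) = fun _ => 0 := funext (gW_ric hm T)
    have e1 : gLie D (fun _ => 0) g a b = 0 := by simp [gLie, hD.zero]
    have e2 : gDRic D G Γ (gErr D g Γ V) a b = gDRic D G Γ (gRic D Γ) a b +
        (1 / 2 : ℝ) • gDRic D G Γ (gLie D V g) a b + (1 / 2 : ℝ) • gDRic D G Γ g a b := by
      rw [← dric_lin hD, ← dric_lin hD]; rfl
    rw [gL, ← hL, e0, e1, e2, (hd V).1, dric_par hD G Γ g T.cov_g]
    module
  refine ⟨fun V φ β a b => ?_, fun V hV => ?_⟩
  · rw [gL_lin hD G Γ (fun i j => φ * g i j) (gRic D Γ), gL_conf hD hm T, hric, gErr]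
    algebra
  · obtain ⟨H, hH, hs⟩ := (hd V).2
    have e0 : gErr D g Γ V = fun _ _ => 0 := funext fun a => funext (hV a)
    have e1 : ∀ a b, gLie D V (gRic D Γ) a b = gRough D G Γ (gRic D Γ) a b +
        2 * gRmT G (gRlow D g Γ) (gRic D Γ) a b - gRcT G (gRic D Γ) (gRic D Γ) a b := by
      intro a b
      have := hric V a b
      rw [e0, dric_par hD G Γ _ (fun _ _ _ => by simp [gCov2, hD.zero]), gL, gLapL] at this
      linear_combination (norm := algebra) -this
    have e2 : ∀ a b, gLie D V g a b = -(2 * gRic D Γ a b) - g a b := fun a b => by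
      have := hV a b
      rw [gErr] at this
      linear_combination (norm := algebra) 2 * this
    have e3 : ∀ i k, ∑ j, g k j * H i j =
        (∑ m, 2 * (G i m * gRic D Γ m k)) + if i = k then 1 else 0 := fun i k => by
      have := hH i k
      simp only [e2, mul_sub, mul_neg, sum_add_distrib, sum_sub_distrib, sum_neg_distrib, hm.inv,
        mul_left_comm (G i _), mul_comm (H i _)] at this
      simp only [hm.gs _ k] at this
      linear_combination this
    have e4 : ∀ i l, H i l = (∑ m, ∑ k, 2 * (G i m * G l k * gRic D Γ m k)) + G i l := by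
      intro i l
      rw [← up_down hm (H i) l, sum_comm]
      simp only [mul_assoc, ← mul_sum, e3, mul_add, sum_add_distrib, mul_ite, mul_one, mul_zero,
        sum_ite_eq, mem_univ, if_true, hm.Gs l i]
      simp only [mul_sum]
      rw [sum_comm]
      congr 1
      exact sum_congr rfl fun _ _ => sum_congr rfl fun _ _ => by ring
    have e5 : ∑ i, ∑ l, H i l * gRic D Γ i l =
        2 * gIp G (gRic D Γ) (gRic D Γ) + gTr G (gRic D Γ) := by
      simp only [e4, add_mul, sum_add_distrib, gIp, gTr, mul_sum, sum_mul]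
      congr 1
      exact sum_congr rfl fun _ _ => sum_congr rfl fun _ _ => sum_congr rfl fun _ _ =>
        sum_congr rfl fun _ _ => by ring
    have e6 : ∑ i, ∑ j, G i j * gLie D V (gRic D Γ) i j = gTr G (gRough D G Γ (gRic D Γ)) +
        2 * gTr G (gRmT G (gRlow D g Γ) (gRic D Γ)) - gTr G (gRcT G (gRic D Γ) (gRic D Γ)) := by
      simp only [e1, gTr, mul_add, mul_sub, sum_add_distrib, sum_sub_distrib, mul_sum,
        mul_left_comm (G _ _) 2]
    rw [tr_rough T, tr_rm T, tr_rc hm _ T.ric_symm] at e6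
    simp only [sum_add_distrib] at hs
    rw [gLapV]
    linear_combination hs - e5 - e6

end Pool.Agent.Lib.MP_df9110_gt
end

-- part Pool.Agent.Lib.MP_df9110_gt.T5
section

/-! Product rules, the Bochner type identity and the identity behind the tensor maximum
principle. -/

namespace Pool.Agent.Lib.MP_df9110_gt

open Finset

namespace T5

variable {R : Type} [CommRing R] [Algebra ℝ R] {ι : Type} [Fintype ι] [DecidableEq ι]
  {D : ι → R → R} {g G : ι → ι → R} {Γ : ι → ι → ι → R}

theorem half (x : R) : 2 * ((1 / 2 : ℝ) • x) = x := by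
  rw [two_mul, ← add_smul]
  norm_num

theorem cancel {x y : R} (h : 2 * x = 2 * y) : x = y := by
  rw [← half x, ← half y, mul_smul_comm, mul_smul_comm, h]

omit [Algebra ℝ R] [DecidableEq ι] in
theorem sum_flip (u v : ι → R) : ∑ a, u a * v a = ∑ a, v a * u a :=
  sum_congr rfl fun _ _ => mul_comm _ _

omit [Algebra ℝ R] in
theorem tr_flip (hm : IsMet g G) (h : ι → ι → R) :
    ∑ a, ∑ b, G a b * h b a = ∑ a, ∑ b, G a b * h a b := by
  rw [sum_comm]
  exact sum_congr rfl fun a _ => sum_congr rfl fun b _ => by rw [hm.Gs]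

omit [Algebra ℝ R] [DecidableEq ι] in
theorem swap (A : ι → ι → R) (ω v : ι → R) :
    ∑ a, (∑ k, A k a * ω k) * v a = ∑ a, ω a * ∑ m, A a m * v m := by
  simp only [sum_mul, mul_sum]
  rw [sum_comm]
  exact sum_congr rfl fun _ _ => sum_congr rfl fun _ _ => by ring

omit [Algebra ℝ R] [DecidableEq ι] in
theorem swap' (A : ι → R) (h : ι → ι → R) (v : ι → R) :
    ∑ k, A k * ∑ b, h k b * v b = ∑ b, (∑ k, A k * h k b) * v b := by
  simp only [sum_mul, mul_sum]
  rw [sum_comm]
  exact sum_congr rfl fun _ _ => sum_congr rfl fun _ _ => by ring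

omit [Algebra ℝ R] [DecidableEq ι] in
theorem swap3 (A : ι → ι → R) (t : ι → ι → ι → R) (v : ι → R) :
    ∑ e, ∑ c, A e c * ∑ i, t e c i * v i = ∑ i, (∑ e, ∑ c, A e c * t e c i) * v i := by
  simp only [swap', sum_mul]
  rw [sum_comm]

omit [DecidableEq ι] in
theorem der_pair (hD : IsDer D) (Γ : ι → ι → ι → R) (ω v : ι → R) (c : ι) :
    D c (∑ a, ω a * v a) = ∑ a, gCov1 D Γ ω c a * v a + ∑ a, ω a * gCovV D Γ v c a := by
  simp only [hD.sum, hD.mul, gCov1, gCovV, sub_mul, mul_add, sum_add_distrib, sum_sub_distrib,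
    swap (fun k a => Γ k c a)]
  ring

omit [DecidableEq ι] in
theorem cov1_pair (hD : IsDer D) (Γ : ι → ι → ι → R) (h : ι → ι → R) (v : ι → R) (c a : ι) :
    gCov1 D Γ (fun a => ∑ b, h a b * v b) c a =
      ∑ b, gCov2 D Γ h c a b * v b + ∑ b, h a b * gCovV D Γ v c b := by
  rw [gCov1, der_pair hD Γ, swap']
  simp only [gCov1, gCov2, sub_mul, add_mul, sum_add_distrib, sum_sub_distrib]
  ring

omit [DecidableEq ι] in
theorem cov2_pair (hD : IsDer D) (Γ t : ι → ι → ι → R) (v : ι → R) (e c a : ι) :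
    gCov2 D Γ (fun c a => ∑ b, t c a b * v b) e c a =
      ∑ b, gCov3 D Γ t e c a b * v b + ∑ b, t c a b * gCovV D Γ v e b := by
  rw [gCov2, der_pair hD Γ, sum_add_distrib, swap', swap' _ fun k b => t c k b]
  simp only [gCov1, gCov3, sub_mul, add_mul, sum_add_distrib, sum_sub_distrib]
  ring

omit [DecidableEq ι] in
theorem cov1_sub (hD : IsDer D) (ω ξ : ι → R) (i j : ι) :
    gCov1 D Γ (fun k => ω k - ξ k) i j = gCov1 D Γ ω i j - gCov1 D Γ ξ i j := by
  simp only [gCov1, hD.sub, mul_sub, sum_sub_distrib]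
  ring

omit [DecidableEq ι] in
theorem cov1_add (hD : IsDer D) (ω ξ : ι → R) (i j : ι) :
    gCov1 D Γ (fun k => ω k + ξ k) i j = gCov1 D Γ ω i j + gCov1 D Γ ξ i j := by
  simp only [gCov1, hD.add, mul_add, sum_add_distrib]
  ring

omit [DecidableEq ι] in
theorem cov2_sub (hD : IsDer D) (h k : ι → ι → R) (c a b : ι) :
    gCov2 D Γ (fun i j => h i j - k i j) c a b = gCov2 D Γ h c a b - gCov2 D Γ k c a b := by
  simp only [gCov2, hD.sub, mul_sub, sum_add_distrib, sum_sub_distrib]
  ring

omit [DecidableEq ι] in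
theorem cov2_add (hD : IsDer D) (h k : ι → ι → R) (c a b : ι) :
    gCov2 D Γ (fun i j => h i j + k i j) c a b = gCov2 D Γ h c a b + gCov2 D Γ k c a b := by
  simp only [gCov2, hD.add, mul_add, sum_add_distrib]
  ring

omit [Algebra ℝ R] [DecidableEq ι] in
theorem cov2_flip (h : ι → ι → R) (c a b : ι) :
    gCov2 D Γ (fun i j => h j i) c a b = gCov2 D Γ h c b a := by
  simp only [gCov2, add_comm]

omit [DecidableEq ι] in
theorem cov2_zero (hD : IsDer D) (c a b : ι) : gCov2 D Γ (fun _ _ => 0) c a b = 0 := by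
  simp [gCov2, hD.zero]

omit [Algebra ℝ R] in
theorem low_up (hm : IsMet g G) (ω : ι → R) (k : ι) : ∑ l, g k l * ∑ j, G l j * ω j = ω k := by
  have h : ∀ j, ∑ l, g k l * G l j = if j = k then 1 else 0 := fun j => by
    rw [← hm.inv j k]
    exact sum_congr rfl fun l _ => by rw [hm.gs k l, hm.Gs l j, mul_comm]
  rw [swap']
  simp [h]

omit [Algebra ℝ R] in
theorem up_low (hm : IsMet g G) (V : ι → R) (k : ι) : ∑ l, G k l * ∑ j, g l j * V j = V k := by
  rw [swap']
  simp [hm.inv]

omit [DecidableEq ι] in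
theorem covV_up (hD : IsDer D) (F : T1Facts D g G Γ) (ω : ι → R) (c i : ι) :
    gCovV D Γ (fun i => ∑ j, G i j * ω j) c i = ∑ j, G i j * gCov1 D Γ ω c j := by
  have h1 : ∀ j, gCovV D Γ (G i) c j = -∑ m, Γ i c m * G m j := fun j => by
    rw [gCovV, F.der_G, sum_add_distrib]
    ring
  rw [gCovV, swap', sum_flip (G i), sum_flip (G i), der_pair hD Γ, sum_flip ω]
  simp only [h1, neg_mul, sum_neg_distrib]
  ring

omit [DecidableEq ι] in
theorem cov1_low (hD : IsDer D) (F : T1Facts D g G Γ) (V : ι → R) (a b : ι) :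
    gCov1 D Γ (fun b => ∑ k, g b k * V k) a b = ∑ k, g b k * gCovV D Γ V a k := by
  simp [cov1_pair hD, F.cov_g]

omit [DecidableEq ι] in
theorem lie_eq (F : T1Facts D g G Γ) (V : ι → R) (h : ι → ι → R) (a b : ι) :
    gLie D V h a b = ∑ c, V c * gCov2 D Γ h c a b + ∑ c, h c b * gCovV D Γ V a c +
      ∑ c, h a c * gCovV D Γ V b c := by
  have h1 := swap (fun k c => Γ k a c) (fun k => h k b) V
  have h2 := swap (fun k c => Γ k b c) (fun k => h a k) V
  rw [sum_flip _ V] at h1 h2
  simp only [gLie, gCov2, gCovV, mul_add, mul_sub, sum_add_distrib, sum_sub_distrib,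
    F.chr_symm _ _ a, F.chr_symm _ _ b]
  linear_combination h1 + h2

theorem lie_g (hD : IsDer D) (hm : IsMet g G) (F : T1Facts D g G Γ) (V : ι → R) (a b : ι) :
    gLie D V g a b = gCov1 D Γ (fun b => ∑ k, g b k * V k) a b +
      gCov1 D Γ (fun b => ∑ k, g b k * V k) b a := by
  simp [lie_eq F, cov1_low hD F, F.cov_g, hm.gs b]

omit [DecidableEq ι] in
theorem hess_symm (hD : IsDer D) (F : T1Facts D g G Γ) (f : R) (i j : ι) :
    gCov1 D Γ (fun k => D k f) i j = gCov1 D Γ (fun k => D k f) j i := by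
  simp only [gCov1, hD.comm i j, F.chr_symm _ i j]

omit [DecidableEq ι] in
/-- The traced commutation formula. -/
theorem comm_tr (F : T1Facts D g G Γ) (ω : ι → R) (c : ι) :
    ∑ a, ∑ b, G a b * gCov2 D Γ (gCov1 D Γ ω) a c b =
      D c (gTr G (gCov1 D Γ ω)) + ∑ l, (∑ m, G l m * gRic D Γ c m) * ω l := by
  have h1 : ∀ l, ∑ m, G l m * gRic D Γ c m = -∑ a, ∑ b, G a b * gRiem D Γ l a c b := fun l => by
    have h2 := swap3 G (fun a b m => gRlow D g Γ a c m b) (G l)
    simp only [F.ric_low, F.riem_low]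
    rw [sum_flip (G l), ← h2, ← sum_neg_distrib]
    refine sum_congr rfl fun a _ => ?_
    rw [← sum_neg_distrib]
    refine sum_congr rfl fun b _ => ?_
    rw [← mul_neg, ← sum_neg_distrib]
    exact congrArg _ (sum_congr rfl fun m _ => by rw [F.anti2 a c m b]; ring)
  have h3 : ∀ a b, gCov2 D Γ (gCov1 D Γ ω) a c b = _ := fun a b => eq_add_of_sub_eq (F.comm1 ω a c b)
  rw [F.der_tr, gTr, sum_congr rfl fun a _ => sum_congr rfl fun b _ => congrArg (G a b * ·) (h3 a b)]
  simp only [h1, neg_mul, sum_neg_distrib, ← swap3 G fun a b l => gRiem D Γ l a c b,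
    mul_add, mul_neg, sum_add_distrib]
  ring

/-- The operator that annihilates `d f` and `V♭`. -/
noncomputable def op (D : ι → R → R) (G : ι → ι → R) (Γ : ι → ι → ι → R) (V ω : ι → R)
    (i : ι) : R :=
  ∑ e, ∑ c, G e c * gCov2 D Γ (gCov1 D Γ ω) e c i - ∑ k, V k * gCov1 D Γ ω k i -
    (∑ l, (∑ m, G l m * gRic D Γ i m) * ω l + ∑ k, ω k * gCovV D Γ V i k + ω i)

omit [DecidableEq ι] in
theorem op_sub (hD : IsDer D) (V ω ξ : ι → R) (i : ι) :
    op D G Γ V (fun k => ω k - ξ k) i = op D G Γ V ω i - op D G Γ V ξ i := by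
  have h : gCov1 D Γ (fun k => ω k - ξ k) = fun i j => gCov1 D Γ ω i j - gCov1 D Γ ξ i j :=
    funext₂ (cov1_sub hD ω ξ)
  simp only [op, h, cov2_sub hD, mul_sub, sub_mul, sum_sub_distrib]
  ring

omit [DecidableEq ι] in
theorem op_df (hD : IsDer D) (F : T1Facts D g G Γ) {V : ι → R} {f : R}
    (hf : gLapV D G Γ V f = f) (i : ι) : op D G Γ V (fun k => D k f) i = 0 := by
  have h1 : gCov1 D Γ (fun k => D k f) = fun i j => gCov1 D Γ (fun k => D k f) j i :=
    funext₂ (hess_symm hD F f)
  have h2 : ∀ e c, gCov2 D Γ (gCov1 D Γ fun k => D k f) e c i =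
      gCov2 D Γ (gCov1 D Γ fun k => D k f) e i c := fun e c => by
    rw [← cov2_flip, ← h1]
  have h3 : gTr G (gCov1 D Γ fun k => D k f) = f + ∑ k, D k f * V k := by
    rw [← sub_eq_iff_eq_add, sum_flip _ V]
    exact hf
  simp only [op, h2, comm_tr F, h3, hD.add, hess_symm hD F f _ i]
  rw [der_pair hD Γ, sum_flip _ V]
  ring

theorem err_eq (hD : IsDer D) (hm : IsMet g G) (F : T1Facts D g G Γ) {V : ι → R}
    (hE : ∀ a b, gErr D g Γ V a b = 0) (a b : ι) :
    gRic D Γ a b + gRic D Γ a b + gCov1 D Γ (fun b => ∑ k, g b k * V k) a b +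
      gCov1 D Γ (fun b => ∑ k, g b k * V k) b a + g a b = 0 := by
  have h := congrArg (2 * ·) (hE a b)
  simp only [gErr, mul_add, half, lie_g hD hm F, mul_zero] at h
  linear_combination h

theorem op_low (hD : IsDer D) (hm : IsMet g G) (F : T1Facts D g G Γ) {V : ι → R}
    (hE : ∀ a b, gErr D g Γ V a b = 0) (i : ι) :
    op D G Γ V (fun b => ∑ k, g b k * V k) i = 0 := by
  have hE' := err_eq hD hm F hE
  have hV : ∑ k, V k * gCov1 D Γ (fun b => ∑ k, g b k * V k) i k =
      ∑ k, (∑ j, g k j * V j) * gCovV D Γ V i k := by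
    simp only [cov1_low hD F, swap']
    exact sum_congr rfl fun k _ => congrArg (· * _)
      (sum_congr rfl fun j _ => by rw [hm.gs, mul_comm])
  have hR : ∑ l, (∑ m, G l m * gRic D Γ i m) * ∑ j, g l j * V j = ∑ k, V k * gRic D Γ k i := by
    rw [sum_flip, swap']
    refine sum_congr rfl fun k _ => ?_
    rw [F.ric_symm k, ← up_low hm V k]
    exact congrArg (· * _) (sum_congr rfl fun j _ => by rw [hm.Gs, mul_comm])
  have hc := comm_tr F (fun b => ∑ k, g b k * V k) i
  unfold op
  generalize gCov1 D Γ (fun b => ∑ k, g b k * V k) = X at *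
  have h0 : (fun a b => gRic D Γ a b + gRic D Γ a b + X a b + X b a + g a b) = fun _ _ => 0 :=
    funext₂ hE'
  have h1 : ∀ e a b, gCov2 D Γ (gRic D Γ) e a b + gCov2 D Γ (gRic D Γ) e a b + gCov2 D Γ X e a b +
      gCov2 D Γ X e b a = 0 := fun e a b => by
    have := cov2_zero (Γ := Γ) hD e a b
    rwa [← h0, cov2_add hD, cov2_add hD, cov2_add hD, cov2_add hD, cov2_flip X, F.cov_g,
      add_zero] at this
  have h2 : ∑ e, ∑ c, G e c * (gCov2 D Γ (gRic D Γ) e c i + gCov2 D Γ (gRic D Γ) e c i +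
      gCov2 D Γ X e c i + gCov2 D Γ X e i c) = 0 := by simp only [h1, mul_zero, sum_const_zero]
  have h3 : ∑ e, ∑ c, G e c * (gCov2 D Γ (gRic D Γ) i e c + gCov2 D Γ (gRic D Γ) i e c +
      gCov2 D Γ X i e c + gCov2 D Γ X i c e) = 0 := by simp only [h1, mul_zero, sum_const_zero]
  have h4 := tr_flip hm (gCov2 D Γ X i)
  have h5 : ∑ k, V k * (gRic D Γ k i + gRic D Γ k i + X k i + X i k + g k i) = 0 := by
    simp only [hE', mul_zero, sum_const_zero]
  have h6 : ∑ k, V k * g k i = ∑ k, g i k * V k := sum_congr rfl fun k _ => by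
    rw [hm.gs, mul_comm]
  have h7 := congrArg (2 * ·) (F.bianchi i)
  simp only [mul_add, sum_add_distrib, h4] at h2 h3 h5
  rw [F.der_tr, gTr] at h7 hc
  simp only [half] at h7
  refine cancel ?_
  linear_combination 2 * h2 - h3 - 2 * h7 - 2 * hc - 2 * h5 + 2 * h6 + 2 * hV - 4 * hR

omit [Algebra ℝ R] [DecidableEq ι] in
theorem lapV_eq (V : ι → R) (f : R) : gLapV D G Γ V f =
    ∑ e, ∑ c, G e c * gCov1 D Γ (fun k => D k f) e c - ∑ k, V k * D k f := rfl

theorem weq (hD : IsDer D) (hm : IsMet g G) (F : T1Facts D g G Γ) (V : ι → R) (f : R) (ω : ι → R)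
    (hE : ∀ a b, gErr D g Γ V a b = 0) (hf : gLapV D G Γ V f = f)
    (hω : ∀ i, ω i = D i f - ∑ k, g i k * V k) :
    gLapV D G Γ V (∑ i, ∑ j, G i j * (ω i * ω j)) =
      2 * gIp G (gCov1 D Γ ω) (gCov1 D Γ ω) + ∑ i, ∑ j, G i j * (ω i * ω j) := by
  have hop : ∀ i, op D G Γ V ω i = 0 := fun i => by
    rw [funext hω, op_sub hD, op_df hD F hf, op_low hD hm F hE, sub_zero]
  obtain ⟨η, hη⟩ : ∃ η : ι → R, η = fun i => ∑ j, G i j * ω j := ⟨_, rfl⟩
  have hη' : ∀ c i, gCovV D Γ η c i = ∑ j, G i j * gCov1 D Γ ω c j := fun c i =>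
    hη ▸ covV_up hD F ω c i
  have hl : ∀ k, ∑ l, g k l * η l = ω k := fun k => hη ▸ low_up hm ω k
  have hu : ∀ u : ι → R, ∑ a, ω a * ∑ j, G a j * u j = ∑ j, η j * u j := fun u => by
    rw [swap', hη]
    exact sum_congr rfl fun k _ => congrArg (· * _)
      (sum_congr rfl fun j _ => by rw [hm.Gs, mul_comm])
  have e0 : ∑ i, ∑ j, G i j * (ω i * ω j) = ∑ i, ω i * η i := by
    simp only [hη, mul_sum, mul_left_comm (G _ _)]
  have e1 : (fun c => D c (∑ i, ω i * η i)) =
      fun c => ∑ i, gCov1 D Γ ω c i * η i + ∑ i, gCov1 D Γ ω c i * η i := funext fun c => by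
    simp only [der_pair hD Γ, hη', hu, sum_flip η]
  have e2 : gIp G (gCov1 D Γ ω) (gCov1 D Γ ω) =
      ∑ e, ∑ c, G e c * ∑ i, gCov1 D Γ ω c i * ∑ j, G i j * gCov1 D Γ ω e j := by
    rw [tr_flip hm fun c e => ∑ i, gCov1 D Γ ω c i * ∑ j, G i j * gCov1 D Γ ω e j, gIp]
    refine sum_congr rfl fun a _ => ?_
    rw [sum_comm]
    simp only [mul_sum]
    exact sum_congr rfl fun c _ => sum_congr rfl fun b _ => sum_congr rfl fun d _ => by ring
  have e3 : ∑ i, op D G Γ V ω i * η i = 0 := by simp only [hop, zero_mul, sum_const_zero]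
  have e4 : ∑ i, (∑ l, (∑ m, G l m * gRic D Γ i m) * ω l) * η i =
      ∑ i, (∑ m, η m * gRic D Γ i m) * η i :=
    sum_congr rfl fun i _ => by rw [sum_flip _ ω, hu]
  have e5 : ∑ i, (∑ k, ω k * gCovV D Γ V i k) * η i =
      ∑ i, (∑ m, η m * gCov1 D Γ (fun b => ∑ k, g b k * V k) i m) * η i :=
    sum_congr rfl fun i _ => by
      simp only [cov1_low hD F, swap', ← hl]
      exact congrArg (· * _) (sum_congr rfl fun k _ => congrArg (· * _)
        (sum_congr rfl fun j _ => by rw [hm.gs, mul_comm]))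
  have e6 := err_eq hD hm F hE
  generalize gCov1 D Γ (fun b => ∑ k, g b k * V k) = X at e5 e6
  have e7 : ∑ i, (∑ m, η m * (gRic D Γ i m + gRic D Γ i m + X i m + X m i + g i m)) * η i = 0 := by
    simp only [e6, mul_zero, sum_const_zero, zero_mul]
  have e8 : ∑ i, (∑ m, η m * X m i) * η i = ∑ i, (∑ m, η m * X i m) * η i := by
    rw [← swap', sum_flip η]
    simp only [sum_flip η]
  have e9 : ∑ i, (∑ m, η m * g i m) * η i = ∑ i, ω i * η i := by
    simp only [sum_flip η, hl]
  simp only [mul_add, add_mul, sum_add_distrib, e8, e9] at e7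
  simp only [op, sub_mul, add_mul, sum_add_distrib, sum_sub_distrib, e4, e5] at e3
  rw [← swap3, ← swap' V] at e3
  rw [e0, lapV_eq, e1, e2]
  simp only [congrFun e1, cov1_add hD, cov1_pair hD, hη', mul_add, sum_add_distrib]
  linear_combination 2 * e3 + e7

/-- The quadratic form of a tensor. -/
def quad (v : ι → R) (h : ι → ι → R) : R := ∑ a, (∑ b, h a b * v b) * v a

section
omit [Algebra ℝ R] [DecidableEq ι]
variable (v : ι → R) (h k : ι → ι → R)

theorem quad_eq : ∑ a, ∑ b, h a b * (v a * v b) = quad v h :=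
  sum_congr rfl fun a _ => by
    rw [sum_mul]
    exact sum_congr rfl fun b _ => by ring

theorem quad_add : quad v (fun a b => h a b + k a b) = quad v h + quad v k := by
  simp only [quad, add_mul, sum_add_distrib]

theorem quad_sub : quad v (fun a b => h a b - k a b) = quad v h - quad v k := by
  simp only [quad, sub_mul, sum_sub_distrib]

theorem quad_sum (t : ι → ι → ι → R) :
    quad v (fun a b => ∑ c, t c a b) = ∑ c, quad v (t c) := by
  simp only [quad, sum_mul]
  rw [sum_comm (f := fun c a => ∑ b, t c a b * v b * v a)]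
  exact sum_congr rfl fun a _ => sum_comm

theorem quad_mul (x : R) : quad v (fun a b => x * h a b) = x * quad v h := by
  simp only [quad, mul_sum, sum_mul, mul_assoc]

theorem quad_prod (x y : ι → R) :
    quad v (fun a b => x a * y b) = (∑ a, x a * v a) * ∑ b, y b * v b := by
  rw [← quad_eq, sum_mul_sum]
  exact sum_congr rfl fun a _ => sum_congr rfl fun b _ => by ring

end

omit [DecidableEq ι] in
theorem mp (hD : IsDer D) (F : T1Facts D g G Γ) (V v : ι → R) (T : ι → ι → R)
    (val : R →ₐ[ℝ] ℝ) (hT : ∀ i j, T i j = T j i) (hv : ∀ i k, val (gCovV D Γ v i k) = 0)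
    (hw : ∀ a, val (∑ b, T a b * v b) = 0) :
    val (gLapV D G Γ V (∑ a, ∑ b, T a b * (v a * v b))) =
      val (∑ a, ∑ b, gL D g G Γ V T a b * (v a * v b)) -
        2 * val (∑ a, ∑ b, gRmT G (gRlow D g Γ) T a b * (v a * v b)) := by
  have hw' : ∀ a, val (∑ b, T b a * v b) = 0 := fun a => by simp only [hT _ a, hw]
  have e1 : (fun c => D c (quad v T)) = fun c => quad v (gCov2 D Γ T c) +
      (∑ a, (∑ b, T b a * v b) * gCovV D Γ v c a + ∑ a, (∑ b, T a b * v b) * gCovV D Γ v c a) :=
    funext fun c => by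
      rw [quad, der_pair hD Γ, ← add_assoc]
      simp only [cov1_pair hD, add_mul, sum_add_distrib, quad]
      rw [sum_flip (fun a => ∑ b, T a b * gCovV D Γ v c b) v, swap']
      simp only [sum_flip v]
  have e2 : ∀ w : ι → R, (∀ a, val (w a) = 0) → ∀ e c,
      val (gCov1 D Γ (fun c => ∑ a, w a * gCovV D Γ v c a) e c) = 0 := fun w hw e c => by
    simp only [gCov1, hD.sum, hD.mul, map_sub, map_sum, map_add, map_mul, hv, hw, zero_mul,
      mul_zero, add_zero, sum_const_zero, sub_zero]
  have e3 : ∀ e c, val (gCov1 D Γ (fun c => D c (quad v T)) e c) =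
      val (quad v (gCov3 D Γ (gCov2 D Γ T) e c)) := fun e c => by
    rw [e1, cov1_add hD, cov1_add hD, map_add, map_add, e2 _ hw, e2 _ hw']
    simp only [quad, cov1_pair hD, cov2_pair hD, map_add, map_sum, map_mul, hv, mul_zero,
      sum_const_zero, add_zero]
  have e4 : ∀ c, val (D c (quad v T)) = val (quad v (gCov2 D Γ T c)) := fun c => by
    rw [congrFun e1 c, map_add, map_add]
    simp only [map_sum, map_mul, hv, mul_zero, sum_const_zero, add_zero]
  have e5 : val (quad v T) = 0 := by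
    rw [quad, map_sum]
    simp only [map_mul, hw, zero_mul, sum_const_zero]
  have e6 : gL D g G Γ V T = fun a b => ∑ e, ∑ c, G e c * gCov3 D Γ (gCov2 D Γ T) e c a b +
      2 * gRmT G (gRlow D g Γ) T a b - ∑ c, ∑ k, (gRic D Γ a k * G k c * T c b +
        T a c * (gRic D Γ b k * G k c)) - (∑ c, V c * gCov2 D Γ T c a b +
        ∑ c, gCovV D Γ V a c * T c b + ∑ c, T a c * gCovV D Γ V b c) - T a b :=
    funext₂ fun a b => by
      simp only [gL, gLapL, gRough, gRcT, lie_eq F, two_smul, two_mul, mul_comm _ (T a _),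
        mul_comm (T _ b)]
  rw [quad_eq, quad_eq, quad_eq, lapV_eq, e6]
  simp only [map_sum, map_mul] at hw hw'
  simp only [quad_add, quad_sub, quad_sum, quad_mul, quad_prod, map_add, map_sub, map_mul,
    map_sum, e3, e4, e5, hw, hw', mul_zero, zero_mul, add_zero, sum_const_zero, map_ofNat]
  ring

end T5

open T5 in
theorem t5 (h1 : T1Stmt) : T5Stmt := by
  intro R _ _ ι _ _ D g G hD hm
  have F := h1 R ι D g G hD hm
  refine ⟨fun V f f' => ?_, fun V u F F₁ F₂ h h' => ?_, weq hD hm F, fun V f h a b => ?_,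
    mp hD F⟩
  · have h := tr_flip hm fun i j => D i f * D j f'
    have h2 : ∀ i j, gHess D (gChr D g G) (f * f') i j = f * gHess D (gChr D g G) f' i j +
        f' * gHess D (gChr D g G) f i j + D i f * D j f' + D j f * D i f' := fun i j => by
      simp only [gHess, hD.mul, hD.add, mul_add, mul_sub, sum_add_distrib, mul_sum,
        mul_left_comm f, mul_left_comm f', mul_comm _ f']
      ring_nf
    simp only [gLapV, gTr, gGam, h2, hD.mul, mul_add, mul_sub, sum_add_distrib, h]
    simp only [mul_left_comm _ f, mul_left_comm _ f', mul_comm _ f', ← mul_sum]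
    ring
  · have h2 : ∀ i j, gHess D (gChr D g G) F i j = F₁ * gHess D (gChr D g G) u i j +
        F₂ * (D i u * D j u) := fun i j => by
      simp only [gHess, h, hD.mul, h', mul_sub, mul_sum, mul_left_comm F₁]
      ring
    simp only [gLapV, gTr, gGam, h2, h, mul_add, mul_sub, sum_add_distrib, mul_sum,
      mul_left_comm F₁, mul_left_comm F₂]
    ring
  · have h2 : gLie D V g a b = 2 * gHess D (gChr D g G) f a b := by
      rw [lie_g hD hm F, ← funext h, hess_symm hD F f b a, two_mul]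
      rfl
    rw [gErr, h2, ← mul_smul_comm, half]

end Pool.Agent.Lib.MP_df9110_gt
end
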