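import Pool.Agent.Lib.MP_df9110_gt.NTenS
import Pool.Agent.Lib.MP_df9110_gt.SegCat

-- part Pool.Agent.Lib.MP_df9110_gt.T6
section

/-! Naturality of the tensor calculus under a change of coordinates. -/

namespace Pool.Agent.Lib.MP_df9110_gt

open Finset Matrix

namespace T6

variable {R S : Type} [CommRing R] [Algebra ℝ R] [CommRing S] [Algebra ℝ S] {ι : Type}
  [Fintype ι] [DecidableEq ι]

omit [Algebra ℝ R] [DecidableEq ι] in
theorem map_mul_der {δ : R → R} (ha : ∀ a b, δ (a + b) = δ a + δ b)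
    (hm : ∀ a b, δ (a * b) = a * δ b + δ a * b) (M N : Matrix ι ι R) :
    (M * N).map δ = M * N.map δ + M.map δ * N := by
  ext i j
  have := map_sum (AddMonoidHom.mk' δ ha) (fun k => M i k * N k j) univ
  simp only [AddMonoidHom.mk'_apply] at this
  simp only [map_apply, mul_apply, Matrix.add_apply, this, hm, sum_add_distrib]

omit [Algebra ℝ R] [DecidableEq ι] in
theorem pull2_eq (J h : ι → ι → R) : of (gPull2 J h) = (of J)ᵀ * of h * of J := by
  ext i j
  simp only [gPull2, mul_apply, transpose_apply, of_apply, sum_mul]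
  rw [sum_comm]
  exact sum_congr rfl fun b _ => sum_congr rfl fun a _ => by ring

omit [Algebra ℝ R] [DecidableEq ι] in
theorem pull2_apply (J h : ι → ι → R) (i j : ι) :
    gPull2 J h i j = ((of J)ᵀ * of h * of J) i j := by
  rw [← pull2_eq, of_apply]

/-- The image of a matrix under `π`. -/
def mp (π : S →ₐ[ℝ] R) (h : ι → ι → S) : Matrix ι ι R := of fun a b => π (h a b)

/-- The pulled back metric. -/
noncomputable def gg (π : S →ₐ[ℝ] R) (J : ι → ι → R) (g' : ι → ι → S) : ι → ι → R :=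
  gPull2 J fun a b => π (g' a b)

/-- The inverse of the pulled back metric. -/
noncomputable def GG (π : S →ₐ[ℝ] R) (K : ι → ι → R) (G' : ι → ι → S) : ι → ι → R :=
  fun i j => ∑ a, ∑ b, K i a * K j b * π (G' a b)

/-- The pulled back connection matrix. -/
noncomputable def Bm (π : S →ₐ[ℝ] R) (J : ι → ι → R) (Γ' : ι → ι → ι → S) (i : ι) :
    Matrix ι ι R := of fun c b => ∑ a, J a i * π (Γ' c a b)

/-- The right hand side of the Christoffel transformation law. -/
noncomputable def Am (D : ι → R → R) (π : S →ₐ[ℝ] R) (J : ι → ι → R) (Γ' : ι → ι → ι → S)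
    (i : ι) : Matrix ι ι R := (of J).map (D i) + Bm π J Γ' i * of J

/-- The connection matrix. -/
def Cm (Γ : ι → ι → ι → R) (i : ι) : Matrix ι ι R := of fun k j => Γ k i j

omit [DecidableEq ι] in
theorem gg_eq (π : S →ₐ[ℝ] R) (J : ι → ι → R) (g' : ι → ι → S) :
    of (gg π J g') = (of J)ᵀ * mp π g' * of J := pull2_eq J _

omit [DecidableEq ι] in
theorem GG_eq (π : S →ₐ[ℝ] R) (K : ι → ι → R) (G' : ι → ι → S) :
    of (GG π K G') = of K * mp π G' * (of K)ᵀ := by
  ext i j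
  simp only [GG, mp, mul_apply, transpose_apply, of_apply, sum_mul]
  rw [sum_comm]
  exact sum_congr rfl fun b _ => sum_congr rfl fun a _ => by ring

omit [Algebra ℝ R] [DecidableEq ι] in
theorem riem_eq (D : ι → R → R) (Γ : ι → ι → ι → R) (i j : ι) :
    (of fun l k => gRiem D Γ l i j k) = (Cm Γ j).map (D i) - (Cm Γ i).map (D j) +
      (Cm Γ i * Cm Γ j - Cm Γ j * Cm Γ i) := by
  ext l k
  simp only [gRiem, Cm, mul_apply, map_apply, of_apply, Matrix.add_apply, Matrix.sub_apply,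
    sum_sub_distrib]

structure H (D : ι → R → R) (D' : ι → S → S) (π : S →ₐ[ℝ] R) (J K : ι → ι → R)
    (g' G' : ι → ι → S) : Prop where
  hD : IsDer D
  hD' : IsDer D'
  ch : ∀ i f, D i (π f) = ∑ a, J a i * π (D' a f)
  sy : ∀ a i j, D i (J a j) = D j (J a i)
  jk : ∀ a b, ∑ i, J a i * K i b = if a = b then 1 else 0
  kj : ∀ i j, ∑ a, K i a * J a j = if i = j then 1 else 0
  met : IsMet g' G'
  t1 : T1Facts D' g' G' (gChr D' g' G')

namespace H

variable {D : ι → R → R} {D' : ι → S → S} {π : S →ₐ[ℝ] R} {J K : ι → ι → R}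
  {g' G' : ι → ι → S} (h : H D D' π J K g' G')
include h

theorem JK : of J * of K = 1 := by
  ext a b
  simp only [mul_apply, of_apply, one_apply, h.jk]

theorem KJ : of K * of J = 1 := by
  ext a b
  simp only [mul_apply, of_apply, one_apply, h.kj]

theorem KJt : (of K)ᵀ * (of J)ᵀ = 1 := by rw [← transpose_mul, h.JK, transpose_one]

theorem Gg : mp π G' * mp π g' = 1 := by
  ext a b
  have := congrArg π (h.met.inv a b)
  simp only [map_sum, map_mul] at this
  simp only [mp, mul_apply, of_apply, one_apply, this]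
  split_ifs <;> simp

theorem gt : (mp π g')ᵀ = mp π g' := by
  ext a b
  simp only [mp, transpose_apply, of_apply, h.met.gs a b]

theorem Gt : (mp π G')ᵀ = mp π G' := by
  ext a b
  simp only [mp, transpose_apply, of_apply, h.met.Gs a b]

theorem GJg : of (GG π K G') * (of J)ᵀ * mp π g' = of K := by
  rw [GG_eq, Matrix.mul_assoc (of K * mp π G'), h.KJt, Matrix.mul_one, Matrix.mul_assoc, h.Gg,
    Matrix.mul_one]

theorem JGJ : of J * of (GG π K G') * (of J)ᵀ = mp π G' := by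
  rw [GG_eq, ← Matrix.mul_assoc, ← Matrix.mul_assoc, h.JK, Matrix.one_mul, Matrix.mul_assoc,
    h.KJt, Matrix.mul_one]

theorem isMet : IsMet (gg π J g') (GG π K G') := by
  refine ⟨fun i j => ?_, fun i j => ?_, fun i j => ?_⟩
  · have : (of (gg π J g'))ᵀ = of (gg π J g') := by
      rw [gg_eq, transpose_mul, transpose_mul, transpose_transpose, h.gt, Matrix.mul_assoc]
    exact congrFun (congrFun this j) i
  · have : (of (GG π K G'))ᵀ = of (GG π K G') := by
      rw [GG_eq, transpose_mul, transpose_mul, transpose_transpose, h.Gt, Matrix.mul_assoc]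
    exact congrFun (congrFun this j) i
  · have : of (GG π K G') * of (gg π J g') = 1 := by
      rw [gg_eq, ← Matrix.mul_assoc, ← Matrix.mul_assoc, h.GJg, h.KJ]
    have h2 := congrFun (congrFun this i) j
    simpa only [mul_apply, of_apply, one_apply] using h2

theorem tr_pull (t : ι → ι → R) :
    gTr (GG π K G') (gPull2 J t) = gTr (fun a b => π (G' a b)) t := by
  have h1 : ∀ a b, π (G' a b) = ∑ j, ∑ i, J a i * GG π K G' i j * J b j := by
    intro a b
    have := congrFun (congrFun h.JGJ a) b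
    simp only [mp, mul_apply, of_apply, transpose_apply, sum_mul] at this
    exact this.symm
  simp only [gTr, gPull2, h1, mul_sum, sum_mul]
  rw [sum_comm]
  conv_lhs =>
    enter [2, j]
    rw [sum_comm]
    enter [2, a]
    rw [sum_comm]
  rw [sum_comm]
  refine sum_congr rfl fun a _ => ?_
  rw [sum_comm]
  exact sum_congr rfl fun b _ => sum_congr rfl fun j _ => sum_congr rfl fun i _ => by ring

theorem dmul (i : ι) (M N : Matrix ι ι R) :
    (M * N).map (D i) = M * N.map (D i) + M.map (D i) * N :=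
  map_mul_der (h.hD.add i) (h.hD.mul i) M N

theorem compat (i : ι) : (mp π g').map (D i) =
    (Bm π J (gChr D' g' G') i)ᵀ * mp π g' + mp π g' * Bm π J (gChr D' g' G') i := by
  ext a b
  have h1 : ∀ c, D' c (g' a b) =
      ∑ m, (gChr D' g' G' m c a * g' m b + gChr D' g' G' m c b * g' a m) := fun c =>
    sub_eq_zero.1 (h.t1.cov_g c a b)
  simp only [mp, Bm, map_apply, of_apply, mul_apply, transpose_apply, Matrix.add_apply, h.ch, h1,
    map_sum, map_add, map_mul, mul_sum, sum_mul, ← sum_add_distrib]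
  rw [sum_comm]
  exact sum_congr rfl fun m _ => sum_congr rfl fun c _ => by ring

theorem Dg (i : ι) : (of (gg π J g')).map (D i) =
    (Am D π J (gChr D' g' G') i)ᵀ * mp π g' * of J +
      (of J)ᵀ * mp π g' * Am D π J (gChr D' g' G') i := by
  rw [gg_eq, h.dmul, h.dmul, h.compat, Am, transpose_map, transpose_add, transpose_mul]
  noncomm_ring

omit [DecidableEq ι] h in
theorem Am_apply (i c j : ι) : Am D π J (gChr D' g' G') i c j =
    D i (J c j) + ∑ a, ∑ b, J a i * J b j * π (gChr D' g' G' c a b) := by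
  simp only [Am, Bm, Matrix.add_apply, map_apply, of_apply, mul_apply, sum_mul]
  rw [sum_comm]
  congr 1
  exact sum_congr rfl fun a _ => sum_congr rfl fun b _ => by ring

theorem Am_symm (i c j : ι) :
    Am D π J (gChr D' g' G') i c j = Am D π J (gChr D' g' G') j c i := by
  rw [Am_apply, Am_apply, h.sy, sum_comm]
  congr 1
  exact sum_congr rfl fun a _ => sum_congr rfl fun b _ => by
    rw [h.t1.chr_symm c b a]; ring

theorem chr (i : ι) :
    Cm (gChr D (gg π J g') (GG π K G')) i = of K * Am D π J (gChr D' g' G') i := by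
  set L : ι → Matrix ι ι R := fun i => (of J)ᵀ * mp π g' * Am D π J (gChr D' g' G') i with hL
  have hs : ∀ i j l, L i l j = L j l i := by
    intro i j l
    simp only [hL, mul_apply (M := (of J)ᵀ * mp π g'), h.Am_symm i _ j]
  have hd : ∀ i j l, D i (gg π J g' j l) = L i l j + L i j l := by
    intro i j l
    have h1 := congrFun (congrFun (h.Dg i) j) l
    have h2 : (Am D π J (gChr D' g' G') i)ᵀ * mp π g' * of J = (L i)ᵀ := by
      simp only [hL, transpose_mul, transpose_transpose, h.gt, Matrix.mul_assoc]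
    rw [h2] at h1
    exact h1
  ext k j
  have h3 : of K * Am D π J (gChr D' g' G') i = of (GG π K G') * L i := by
    simp only [hL, ← Matrix.mul_assoc, h.GJg]
  rw [h3]
  simp only [Cm, of_apply, gChr, mul_apply (M := of (GG π K G')), hd, smul_sum]
  refine sum_congr rfl fun l _ => ?_
  rw [hs j i l, hs l i j, hs l j i]
  algebra

/-- The transformation law of the Christoffel symbols. -/
theorem J_chr (i : ι) :
    of J * Cm (gChr D (gg π J g') (GG π K G')) i = Am D π J (gChr D' g' G') i := by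
  rw [h.chr, ← Matrix.mul_assoc, h.JK, Matrix.one_mul]

theorem J_chr_apply (c i j : ι) : ∑ k, J c k * gChr D (gg π J g') (GG π K G') k i j =
    D i (J c j) + ∑ a, ∑ b, J a i * J b j * π (gChr D' g' G' c a b) := by
  rw [← Am_apply, ← h.J_chr]
  simp only [Cm, mul_apply, of_apply]

theorem curvB (Γ' : ι → ι → ι → S) (i j : ι) :
    (Bm π J Γ' j).map (D i) - (Bm π J Γ' i).map (D j) +
      (Bm π J Γ' i * Bm π J Γ' j - Bm π J Γ' j * Bm π J Γ' i) =
      of fun c d => ∑ a, ∑ b, J a i * J b j * π (gRiem D' Γ' c a b d) := by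
  ext c d
  have h1 : ∀ i j, D i (∑ a, J a j * π (Γ' c a d)) =
      ∑ a, ∑ b, J a i * J b j * π (D' a (Γ' c b d)) + ∑ a, D i (J a j) * π (Γ' c a d) := by
    intro i j
    rw [h.hD.sum]
    simp only [h.hD.mul, h.ch, sum_add_distrib, mul_sum]
    rw [sum_comm]
    congr 1
    exact sum_congr rfl fun a _ => sum_congr rfl fun b _ => by ring
  have h2 : ∀ i j, ∑ m, (∑ a, J a i * π (Γ' c a m)) * ∑ a, J a j * π (Γ' m a d) =
      ∑ a, ∑ b, J a i * J b j * ∑ m, π (Γ' c a m) * π (Γ' m b d) := by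
    intro i j
    simp only [sum_mul_sum]
    simp only [mul_sum]
    rw [sum_comm]
    refine sum_congr rfl fun a _ => ?_
    rw [sum_comm]
    exact sum_congr rfl fun b _ => sum_congr rfl fun m _ => by ring
  have h3 : ∀ t : ι → ι → R, ∑ a, ∑ b, J a j * J b i * t a b = ∑ a, ∑ b, J a i * J b j * t b a := by
    intro t
    rw [sum_comm]
    exact sum_congr rfl fun a _ => sum_congr rfl fun b _ => by ring
  simp only [Bm, Matrix.add_apply, Matrix.sub_apply, map_apply, of_apply, mul_apply, h1, h2]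
  rw [h3 fun a b => π (D' a (Γ' c b d)), h3 fun a b => ∑ m, π (Γ' c a m) * π (Γ' m b d)]
  simp only [h.sy _ j i, gRiem, map_add, map_sub, map_sum, map_mul, sum_sub_distrib, mul_add,
    mul_sub, sum_add_distrib]
  ring

theorem J_riem (i j : ι) :
    of J * (of fun l k => gRiem D (gChr D (gg π J g') (GG π K G')) l i j k) =
      (of fun c d => ∑ a, ∑ b, J a i * J b j * π (gRiem D' (gChr D' g' G') c a b d)) * of J := by
  rw [← h.curvB, riem_eq]
  set C := Cm (gChr D (gg π J g') (GG π K G')) with hC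
  set B := Bm π J (gChr D' g' G') with hB
  have e1 : ∀ i, of J * C i = (of J).map (D i) + B i * of J := fun i => h.J_chr i
  have e2 : ∀ i j, of J * (C j).map (D i) = ((of J).map (D j)).map (D i) +
      (B j * (of J).map (D i) + (B j).map (D i) * of J) - (of J).map (D i) * C j := by
    intro i j
    have := congrArg (fun M : Matrix ι ι R => M.map (D i)) (e1 j)
    simp only [h.dmul] at this
    rw [Matrix.map_add _ (h.hD.add i), h.dmul] at this
    rw [← this]
    abel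
  have e3 : ((of J).map (D j)).map (D i) = ((of J).map (D i)).map (D j) := by
    ext a b
    simp only [map_apply, h.hD.comm i j]
  have e4 : ∀ i j, of J * (C i * C j) =
      (of J).map (D i) * C j + B i * ((of J).map (D j) + B j * of J) := by
    intro i j
    rw [← Matrix.mul_assoc, e1 i, Matrix.add_mul, Matrix.mul_assoc, e1 j]
  rw [Matrix.mul_add, Matrix.mul_sub, Matrix.mul_sub, e2, e2, e4, e4, e3]
  noncomm_ring

theorem rlow (i j k m : ι) : gRlow D (gg π J g') (gChr D (gg π J g') (GG π K G')) i j k m =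
    gPull4 J (fun a b c d => π (gRlow D' g' (gChr D' g' G') a b c d)) i j k m := by
  have h1 : gRlow D (gg π J g') (gChr D (gg π J g') (GG π K G')) i j k m =
      ((of fun l k => gRiem D (gChr D (gg π J g') (GG π K G')) l i j k)ᵀ *
        of (gg π J g')) k m := by
    simp only [gRlow, mul_apply, transpose_apply, of_apply]
  have h2 : gPull4 J (fun a b c d => π (gRlow D' g' (gChr D' g' G') a b c d)) i j k m =
      gPull2 J (fun c d => ((of fun c d => ∑ a, ∑ b,
        J a i * J b j * π (gRiem D' (gChr D' g' G') c a b d))ᵀ * mp π g') c d) k m := by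
    simp only [gPull4, gPull2, gRlow, mp, mul_apply, transpose_apply, of_apply, map_sum, map_mul,
      mul_sum, sum_mul]
    conv_lhs =>
      enter [2, a]
      rw [sum_comm]
      enter [2, c]
      rw [sum_comm]
      enter [2, d]
      rw [sum_comm]
    rw [sum_comm]
    refine sum_congr rfl fun c _ => ?_
    rw [sum_comm]
    refine sum_congr rfl fun d _ => ?_
    rw [sum_comm]
    exact sum_congr rfl fun l _ => sum_congr rfl fun a _ => sum_congr rfl fun b _ => by ring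
  rw [h1, h2, pull2_apply, gg_eq, ← Matrix.mul_assoc, ← Matrix.mul_assoc, ← transpose_mul,
    h.J_riem, transpose_mul, Matrix.mul_assoc (of J)ᵀ]
  rfl

theorem ric (h1 : T1Facts D (gg π J g') (GG π K G') (gChr D (gg π J g') (GG π K G'))) (i j : ι) :
    gRic D (gChr D (gg π J g') (GG π K G')) i j =
      gPull2 J (fun a b => π (gRic D' (gChr D' g' G') a b)) i j := by
  have h2 : gRic D (gChr D (gg π J g') (GG π K G')) i j = gTr (GG π K G') (gPull2 J fun a d =>
      ∑ b, ∑ c, J b i * J c j * π (gRlow D' g' (gChr D' g' G') a b c d)) := by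
    rw [h1.ric_low, gTr]
    refine sum_congr rfl fun k _ => sum_congr rfl fun m _ => ?_
    rw [h.rlow]
    congr 1
    simp only [gPull4, gPull2, mul_sum]
    refine sum_congr rfl fun a _ => ?_
    conv_lhs =>
      enter [2, b]
      rw [sum_comm]
    rw [sum_comm]
    exact sum_congr rfl fun d _ => sum_congr rfl fun b _ => sum_congr rfl fun c _ => by ring
  rw [h2, h.tr_pull]
  simp only [gTr, gPull2, h.t1.ric_low, map_sum, map_mul, mul_sum]
  conv_lhs =>
    enter [2, a]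
    rw [sum_comm]
    enter [2, b]
    rw [sum_comm]
  rw [sum_comm]
  refine sum_congr rfl fun b _ => ?_
  rw [sum_comm]
  exact sum_congr rfl fun c _ => sum_congr rfl fun a _ => sum_congr rfl fun d _ => by ring

theorem hess (f : S) (i j : ι) : gHess D (gChr D (gg π J g') (GG π K G')) (π f) i j =
    gPull2 J (fun a b => π (gHess D' (gChr D' g' G') f a b)) i j := by
  have h1 : ∑ k, gChr D (gg π J g') (GG π K G') k i j * D k (π f) =
      ∑ c, (∑ k, J c k * gChr D (gg π J g') (GG π K G') k i j) * π (D' c f) := by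
    simp only [h.ch, mul_sum, sum_mul]
    rw [sum_comm]
    exact sum_congr rfl fun c _ => sum_congr rfl fun k _ => by ring
  have h2 : D i (D j (π f)) =
      ∑ a, ∑ b, J a i * J b j * π (D' a (D' b f)) + ∑ c, D i (J c j) * π (D' c f) := by
    rw [h.ch j, h.hD.sum]
    simp only [h.hD.mul, h.ch, sum_add_distrib, mul_sum]
    rw [sum_comm]
    congr 1
    exact sum_congr rfl fun a _ => sum_congr rfl fun b _ => by ring
  have h3 : ∑ c, (∑ a, ∑ b, J a i * J b j * π (gChr D' g' G' c a b)) * π (D' c f) =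
      ∑ a, ∑ b, J a i * J b j * ∑ c, π (gChr D' g' G' c a b) * π (D' c f) := by
    simp only [mul_sum, sum_mul]
    rw [sum_comm]
    refine sum_congr rfl fun a _ => ?_
    rw [sum_comm]
    exact sum_congr rfl fun b _ => sum_congr rfl fun c _ => by ring
  rw [gHess, h1, h2]
  simp only [h.J_chr_apply, add_mul, sum_add_distrib, h3, gPull2, gHess, map_sub, map_sum,
    map_mul, mul_sub, sum_sub_distrib]
  ring

theorem gam (f f' : S) : gGam D (GG π K G') (π f) (π f') = π (gGam D' G' f f') := by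
  have h1 : gGam D (GG π K G') (π f) (π f') =
      gTr (GG π K G') (gPull2 J fun a b => π (D' a f) * π (D' b f')) := by
    simp only [gGam, gTr, gPull2, h.ch, sum_mul_sum]
    refine sum_congr rfl fun i _ => sum_congr rfl fun j _ => ?_
    congr 1
    exact sum_congr rfl fun a _ => sum_congr rfl fun b _ => by ring
  rw [h1, h.tr_pull]
  simp only [gTr, gGam, map_sum, map_mul]

theorem vec {V : ι → R} {V' : ι → S} (hV : ∀ a, ∑ i, J a i * V i = π (V' a)) (f : S) :
    ∑ k, V k * D k (π f) = π (∑ a, V' a * D' a f) := by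
  simp only [h.ch, map_sum, map_mul, ← hV, mul_sum, sum_mul]
  rw [sum_comm]
  exact sum_congr rfl fun a _ => sum_congr rfl fun k _ => by ring

theorem lie {V : ι → R} {V' : ι → S} (hV : ∀ a, ∑ i, J a i * V i = π (V' a)) (t : ι → ι → S)
    (i j : ι) : gLie D V (gPull2 J fun a b => π (t a b)) i j =
      gPull2 J (fun a b => π (gLie D' V' t a b)) i j := by
  set δ : R → R := fun x => ∑ c, V c * D c x with hδ
  set W : Matrix ι ι R := of fun c i => D i (V c) with hW
  set W' : Matrix ι ι R := mp π fun c a => D' a (V' c) with hW'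
  have ha : ∀ a b, δ (a + b) = δ a + δ b := by
    intro a b
    simp only [hδ, h.hD.add, mul_add, sum_add_distrib]
  have hm : ∀ a b, δ (a * b) = a * δ b + δ a * b := by
    intro a b
    simp only [hδ, h.hD.mul, mul_sum, sum_mul, ← sum_add_distrib]
    exact sum_congr rfl fun c _ => by ring
  have h1 : ∀ u : ι → ι → R, of (gLie D V u) = (of u).map δ + Wᵀ * of u + of u * W := by
    intro u
    ext a b
    simp only [gLie, hδ, hW, of_apply, Matrix.add_apply, map_apply, mul_apply, transpose_apply,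
      ← sum_add_distrib]
    exact sum_congr rfl fun c _ => by ring
  have h2 : (of fun a b => π (gLie D' V' t a b)) =
      (mp π t).map δ + W'ᵀ * mp π t + mp π t * W' := by
    ext a b
    simp only [hδ, hW', mp, of_apply, Matrix.add_apply, map_apply, mul_apply, transpose_apply,
      h.vec hV, gLie, map_sum, map_add, map_mul, ← sum_add_distrib]
    exact sum_congr rfl fun c _ => by ring
  have h3 : (of J).map δ = W' * of J - of J * W := by
    ext a i
    have e := h.ch i (V' a)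
    rw [← hV, h.hD.sum] at e
    simp only [h.hD.mul, sum_add_distrib] at e
    simp only [hδ, hW, hW', mp, of_apply, Matrix.sub_apply, map_apply, mul_apply]
    have e1 : ∑ c, V c * D c (J a i) = ∑ c, D i (J a c) * V c :=
      sum_congr rfl fun c _ => by rw [h.sy a c i]; ring
    have e2 : ∑ c, π (D' c (V' a)) * J c i = ∑ c, J c i * π (D' c (V' a)) :=
      sum_congr rfl fun c _ => by ring
    rw [e1, e2, ← e]
    ring
  have h4 : of (gLie D V (gPull2 J fun a b => π (t a b))) =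
      of (gPull2 J fun a b => π (gLie D' V' t a b)) := by
    rw [h1, pull2_eq, pull2_eq, h2, map_mul_der ha hm, map_mul_der ha hm, transpose_map, h3,
      transpose_sub, transpose_mul, transpose_mul]
    change _ = (of J)ᵀ * ((of fun a b => π (t a b)).map δ + W'ᵀ * (of fun a b => π (t a b)) +
      (of fun a b => π (t a b)) * W') * of J
    noncomm_ring
  exact congrFun (congrFun h4 i) j

end H

end T6

theorem t6 (h1 : T1Stmt) : T6Stmt := by
  intro R S _ _ _ _ ι _ _ D D' π J K g' G' hD hD' ch sy jk kj met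
  have h : T6.H D D' π J K g' G' := ⟨hD, hD', ch, sy, jk, kj, met, h1 S ι D' g' G' hD' met⟩
  have h2 := h1 R ι D _ _ hD h.isMet
  have hr : gRic D (gChr D (T6.gg π J g') (T6.GG π K G')) =
      gPull2 J fun a b => π (gRic D' (gChr D' g' G') a b) :=
    funext fun i => funext fun j => h.ric h2 i j
  refine ⟨h.isMet, h.ric h2, h.rlow, ?_, h.hess, h.gam, fun V V' hV i j => ?_,
    fun V V' hV f => ?_⟩
  · change gTr (T6.GG π K G') (gRic D (gChr D (T6.gg π J g') (T6.GG π K G'))) = _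
    rw [hr, h.tr_pull, map_gTr]
  · change gErr D (T6.gg π J g') (gChr D (T6.gg π J g') (T6.GG π K G')) V i j = _
    rw [gErr, hr]
    have e := h.lie hV g' i j
    change gLie D V (T6.gg π J g') i j = _ at e
    rw [e]
    simp only [T6.gg, gPull2, gErr, map_add, map_smul, mul_add, Finset.sum_add_distrib,
      Finset.smul_sum, mul_smul_comm]
  · change gLapV D (T6.GG π K G') (gChr D (T6.gg π J g') (T6.GG π K G')) V (π f) = _
    have hh : gHess D (gChr D (T6.gg π J g') (T6.GG π K G')) (π f) =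
        gPull2 J fun a b => π (gHess D' (gChr D' g' G') f a b) :=
      funext fun i => funext fun j => h.hess f i j
    rw [gLapV, hh, h.tr_pull, h.vec hV, gLapV, map_sub, map_gTr]

end Pool.Agent.Lib.MP_df9110_gt
end

-- part Pool.Agent.Lib.MP_df9110_gt.T8
section

/-! The reduced Bianchi identity for block metrics. -/

set_option linter.unusedSimpArgs false
set_option linter.unusedSectionVars false

namespace Pool.Agent.Lib.MP_df9110_gt

namespace T8

variable {R : Type} [CommRing R] [Algebra ℝ R] {D : Fin 2 → R → R} (hD : IsDer D) (B : Blk R)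
include hD

theorem T_add (u v : R) : B.T D (u + v) = B.T D u + B.T D v := by
  simp only [Blk.T, hD.add]; ring
theorem T_sub (u v : R) : B.T D (u - v) = B.T D u - B.T D v := by
  simp only [Blk.T, hD.sub]; ring
theorem T_neg (u : R) : B.T D (-u) = -B.T D u := by
  simp only [Blk.T, hD.neg]; ring
theorem T_mul (u v : R) : B.T D (u * v) = u * B.T D v + B.T D u * v := by
  simp only [Blk.T, hD.mul]; ring
theorem T_smul (c : ℝ) (u : R) : B.T D (c • u) = c • B.T D u := by
  simp only [Blk.T, hD.smul, smul_add, mul_smul_comm]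
theorem T_sq (u : R) : B.T D (u ^ 2) = 2 * u * B.T D u := by
  simp only [Blk.T, hD.sq]; ring
theorem T_one : B.T D 1 = 0 := by
  simp only [Blk.T, hD.one]; ring
theorem T_two : B.T D 2 = 0 := by
  simp only [Blk.T, hD.ofNat]; ring
theorem X_two : D 1 (2 : R) = 0 := hD.ofNat 1 2

theorem TX (u : R) : B.T D (D 1 u) = D 1 (B.T D u) - D 1 B.β * D 1 u := by
  simp only [Blk.T, hD.add, hD.mul, hD.comm 0 1]; ring

theorem der_inv {u ui : R} (h : u * ui = 1) (i : Fin 2) : D i ui = -(ui * ui * D i u) := by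
  have h1 := hD.mul i u ui
  rw [h, hD.one] at h1
  linear_combination (-ui) * h1 - D i ui * h

theorem T_inv {u ui : R} (h : u * ui = 1) : B.T D ui = -(ui * ui * B.T D u) := by
  simp only [Blk.T, der_inv hD h]; ring

theorem log_comm {u ui : R} (h : u * ui = 1) :
    B.T D (D 1 u * ui) = D 1 (B.T D u * ui) - D 1 B.β * (D 1 u * ui) := by
  rw [T_mul hD, hD.mul, T_inv hD B h, der_inv hD h, TX hD]
  ring

omit hD in
theorem T_a (ok : B.Ok) : B.T D B.a = B.a * B.ta D := by
  simp only [Blk.ta]; linear_combination (-B.T D B.a) * ok.ha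
omit hD in
theorem T_C (ok : B.Ok) : B.T D B.C = B.C * B.tc D := by
  simp only [Blk.tc]; linear_combination (-B.T D B.C) * ok.hC
omit hD in
theorem X_a (ok : B.Ok) : D 1 B.a = B.a * B.xa D := by
  simp only [Blk.xa]; linear_combination (-D 1 B.a) * ok.ha
omit hD in
theorem X_C (ok : B.Ok) : D 1 B.C = B.C * B.xc D := by
  simp only [Blk.xc]; linear_combination (-D 1 B.C) * ok.hC

theorem T_xa (ok : B.Ok) : B.T D (B.xa D) = D 1 (B.ta D) - D 1 B.β * B.xa D :=
  log_comm hD B ok.ha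
theorem T_xc (ok : B.Ok) : B.T D (B.xc D) = D 1 (B.tc D) - D 1 B.β * B.xc D :=
  log_comm hD B ok.hC
theorem T_x₁ (ok : B.Ok) : B.T D (B.x₁ D) = D 1 (B.t₁ D) - D 1 B.β * B.x₁ D := by
  simp only [Blk.x₁, Blk.t₁, T_smul hD, hD.smul, log_comm hD B ok.h₁, smul_sub, mul_smul_comm]
theorem T_x₂ (ok : B.Ok) : B.T D (B.x₂ D) = D 1 (B.t₂ D) - D 1 B.β * B.x₂ D := by
  simp only [Blk.x₂, Blk.t₂, T_smul hD, hD.smul, log_comm hD B ok.h₂, smul_sub, mul_smul_comm]

/-- `div V - |V|²`. -/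
noncomputable def phi (D : Fin 2 → R → R) (B : Blk R) : R :=
  B.T D (B.a * B.f₁) - B.a * B.f₁ * ((1 / 2 : ℝ) • B.ta D + B.j D) + D 1 (B.C * B.f₂) -
    B.C * B.f₂ * (B.l D + (1 / 2 : ℝ) • B.xc D) + B.a * B.f₁ * (B.t₁ D + B.t₂ D) +
    B.C * B.f₂ * (B.x₁ D + B.x₂ D) - (B.a * B.f₁ * B.f₁ + B.C * B.f₂ * B.f₂)

theorem bi₁_eq (ok : B.Ok) : 2 * B.bi₁ D = B.lam₁ D + B.T D (phi D B) - B.f₁ := by
  simp only [Blk.bi₁, Blk.lam₁, phi, Blk.Om, Blk.e11, Blk.e22, Blk.e12, Blk.e₁, Blk.e₂, Blk.lap,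
    Blk.Xa, Blk.y₁, Blk.y₂, Blk.H11, Blk.H22, Blk.K, Blk.j, Blk.l,
    T_add hD, T_sub hD, T_neg hD, T_mul hD, T_smul hD, T_sq hD, T_one hD, T_two hD, X_two hD,
    TX hD, hD.add, hD.mul, hD.sub, hD.neg, hD.smul, hD.sq, hD.one,
    T_a B ok, T_C B ok, X_a B ok, X_C B ok, T_xa hD B ok, T_xc hD B ok, T_x₁ hD B ok,
    T_x₂ hD B ok]
  algebra

theorem bi₂_eq (ok : B.Ok) : 2 * B.bi₂ D = B.lam₂ D + D 1 (phi D B) - B.f₂ := by
  simp only [Blk.bi₂, Blk.lam₂, phi, Blk.Om, Blk.e11, Blk.e22, Blk.e12, Blk.e₁, Blk.e₂, Blk.lap,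
    Blk.Xa, Blk.y₁, Blk.y₂, Blk.H11, Blk.H22, Blk.K, Blk.j, Blk.l,
    T_add hD, T_sub hD, T_neg hD, T_mul hD, T_smul hD, T_sq hD, T_one hD, T_two hD, X_two hD,
    TX hD, hD.add, hD.mul, hD.sub, hD.neg, hD.smul, hD.sq, hD.one,
    T_a B ok, T_C B ok, X_a B ok, X_C B ok, T_xa hD B ok, T_xc hD B ok, T_x₁ hD B ok,
    T_x₂ hD B ok]
  algebra

end T8

theorem t8 : T8Stmt := by
  intro R _ _ _ D B hD ok
  have h1 := T8.bi₁_eq hD B ok
  have h2 := T8.bi₂_eq hD B ok
  have h3 := congrArg (D 1) h1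
  have h4 := congrArg (B.T D) h2
  simp only [hD.mul, hD.add, hD.sub, T8.X_two hD] at h3
  simp only [T8.T_mul hD, T8.T_add hD, T8.T_sub hD, T8.T_two hD, T8.TX hD] at h4
  simp only [Blk.Om]
  linear_combination h3 - h4 - D 1 B.β * h2

end Pool.Agent.Lib.MP_df9110_gt
end

-- part Pool.Agent.Lib.MP_df9110_gt.T9
section

/-! Orders of the geometric quantities. -/

namespace Pool.Agent.Lib.MP_df9110_gt

open Finset

namespace T9

variable {R : Type} [CommRing R] [Algebra ℝ R] {ι : Type} [Fintype ι] {θ : ℝ}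
  {D : ι → R → R} {P : ℕ → ℕ → ℝ → R → Prop}

section Basic

omit [Fintype ι]

variable (hP : Grd θ D P)
include hP

theorem neg {d j m a} (h : P d j m a) : P d j m (-a) := by
  simpa using hP.smul (-1) h

theorem sub {d j m a b} (h : P d j m a) (h' : P d j m b) : P d j m (a - b) := by
  rw [sub_eq_add_neg]
  exact hP.add h (neg hP h')

theorem sumF {d j m} {κ : Type} (s : Finset κ) {f : κ → R} (h : ∀ k, P d j m (f k)) :
    P d j m (∑ k ∈ s, f k) := by
  classical
  induction s using Finset.induction_on with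
  | empty => simpa using hP.zero d j m
  | insert a s ha ih => rw [Finset.sum_insert ha]; exact hP.add (h a) ih

theorem mulL {d j₁ j₂ j m₁ m₂ m a b} (h : P 0 j₁ m₁ a) (h' : P d j₂ m₂ b) (h1 : j₁ ≤ j)
    (h2 : j₂ ≤ j) (h3 : j ≤ 2) (h4 : m₁ + m₂ ≤ m) : P d j m (a * b) :=
  hP.mono (hP.mul (hP.mono h h1 h3 le_rfl) (hP.mono h' h2 h3 le_rfl)) le_rfl h3 h4

theorem mulR {d j₁ j₂ j m₁ m₂ m a b} (h : P d j₁ m₁ a) (h' : P 0 j₂ m₂ b) (h1 : j₁ ≤ j)
    (h2 : j₂ ≤ j) (h3 : j ≤ 2) (h4 : m₁ + m₂ ≤ m) : P d j m (a * b) := by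
  rw [mul_comm]
  exact mulL hP h' h h2 h1 h3 (by linarith)

theorem derM {d j j' m m' a} (i : ι) (h : P d j m a) (h1 : j < j') (h2 : j' ≤ 2)
    (h3 : m - θ ≤ m') : P d j' m' (D i a) :=
  hP.mono (hP.der i h (by omega)) h1 h2 h3

end Basic

section Geo

variable (hP : Grd θ D P)
include hP

theorem chr {g G : ι → ι → R} (hg : ∀ i j, P 0 0 0 (g i j)) (hG : ∀ i j, P 0 0 0 (G i j))
    (k i j : ι) : P 0 1 (-θ) (gChr D g G k i j) := by
  have hd : ∀ a b c, P 0 1 (-θ) (D a (g b c)) := fun a b c =>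
    derM hP a (hg b c) (by norm_num) (by norm_num) (by linarith)
  exact hP.smul _ (sumF hP _ fun l => mulL hP (hG k l)
    (sub hP (hP.add (hd _ _ _) (hd _ _ _)) (hd _ _ _)) (by norm_num) le_rfl (by norm_num)
    (by linarith))

variable {Γ : ι → ι → ι → R} (hΓ : ∀ k i j, P 0 1 (-θ) (Γ k i j))
include hΓ

omit [Fintype ι] in
theorem dΓ (a k i j : ι) : P 0 2 (-θ - θ) (D a (Γ k i j)) :=
  derM hP a (hΓ k i j) (by norm_num) le_rfl le_rfl

omit [Fintype ι] in
theorem ΓΓ (k i j k' i' j' : ι) : P 0 2 (-θ - θ) (Γ k i j * Γ k' i' j') :=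
  mulL hP (hΓ k i j) (hΓ k' i' j') (by norm_num) (by norm_num) le_rfl (by linarith)

theorem riem (l i j k : ι) : P 0 2 (-θ - θ) (gRiem D Γ l i j k) :=
  hP.add (sub hP (dΓ hP hΓ _ _ _ _) (dΓ hP hΓ _ _ _ _))
    (sumF hP _ fun _ => sub hP (ΓΓ hP hΓ _ _ _ _ _ _) (ΓΓ hP hΓ _ _ _ _ _ _))

theorem ric (i j : ι) : P 0 2 (-θ - θ) (gRic D Γ i j) :=
  sumF hP _ fun _ => hP.add (sub hP (dΓ hP hΓ _ _ _ _) (dΓ hP hΓ _ _ _ _))
    (sumF hP _ fun _ => sub hP (ΓΓ hP hΓ _ _ _ _ _ _) (ΓΓ hP hΓ _ _ _ _ _ _))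

theorem rlow {g : ι → ι → R} (hg : ∀ i j, P 0 0 0 (g i j)) (i j k m : ι) :
    P 0 2 (-θ - θ) (gRlow D g Γ i j k m) :=
  sumF hP _ fun _ => mulL hP (riem hP hΓ _ _ _ _) (hg _ _) le_rfl (by norm_num) le_rfl
    (by linarith)

omit hΓ in
theorem tr {G h : ι → ι → R} {d j m} (hG : ∀ i j, P 0 0 0 (G i j)) (hj : j ≤ 2)
    (hh : ∀ a b, P d j m (h a b)) : P d j m (gTr G h) :=
  sumF hP _ fun _ => sumF hP _ fun _ => mulL hP (hG _ _) (hh _ _) (Nat.zero_le _) le_rfl hj
    (by linarith)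

omit [Fintype ι] in
theorem Γmul {d j m a} (hj : 1 ≤ j) (hj' : j ≤ 2) (h : P d j m a) (k i l : ι) :
    P d j (m - θ) (Γ k i l * a) :=
  mulL hP (hΓ k i l) h hj le_rfl hj' (by linarith)

theorem hess {d m f} (hf : P d 0 m f) (i j : ι) : P d 2 (m - θ - θ) (gHess D Γ f i j) := by
  have h1 : ∀ k, P d 1 (m - θ) (D k f) := fun k =>
    derM hP k hf (by norm_num) (by norm_num) le_rfl
  exact sub hP (derM hP i (h1 j) (by norm_num) le_rfl le_rfl) (sumF hP _ fun k =>
    hP.mono (Γmul hP hΓ le_rfl (by norm_num) (h1 k) _ _ _) (by norm_num) le_rfl le_rfl)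

theorem cov2 {h : ι → ι → R} {d m} (hh : ∀ i j, P d 0 m (h i j)) (c a b : ι) :
    P d 1 (m - θ) (gCov2 D Γ h c a b) := by
  have h1 : ∀ i j, P d 1 m (h i j) := fun i j =>
    hP.mono (hh i j) (by norm_num) (by norm_num) le_rfl
  exact sub hP (derM hP c (hh a b) (by norm_num) (by norm_num) le_rfl) (sumF hP _ fun k =>
    hP.add (Γmul hP hΓ le_rfl (by norm_num) (h1 _ _) _ _ _)
      (Γmul hP hΓ le_rfl (by norm_num) (h1 _ _) _ _ _))

theorem cov3 {t : ι → ι → ι → R} {d m} (ht : ∀ i j k, P d 1 m (t i j k)) (e c a b : ι) :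
    P d 2 (m - θ) (gCov3 D Γ t e c a b) := by
  have h1 : ∀ i j k, P d 2 m (t i j k) := fun i j k =>
    hP.mono (ht i j k) (by norm_num) le_rfl le_rfl
  exact sub hP (derM hP e (ht c a b) (by norm_num) le_rfl le_rfl) (sumF hP _ fun k =>
    hP.add (hP.add (Γmul hP hΓ (by norm_num) le_rfl (h1 _ _ _) _ _ _)
      (Γmul hP hΓ (by norm_num) le_rfl (h1 _ _ _) _ _ _))
      (Γmul hP hΓ (by norm_num) le_rfl (h1 _ _ _) _ _ _))

theorem sS {h : ι → ι → R} {d m} (hh : ∀ i j, P d 0 m (h i j)) (c a b : ι) :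
    P d 1 (m - θ) (gS D Γ h c a b) :=
  hP.smul _ (sub hP (hP.add (cov2 hP hΓ hh _ _ _) (cov2 hP hΓ hh _ _ _)) (cov2 hP hΓ hh _ _ _))

omit hΓ in
theorem up {G : ι → ι → R} {s : ι → ι → ι → R} {d m} (hG : ∀ i j, P 0 0 0 (G i j))
    (hs : ∀ i j k, P d 1 m (s i j k)) (c a b : ι) : P d 1 m (gUp G s c a b) :=
  sumF hP _ fun _ => mulL hP (hG _ _) (hs _ _ _) (by norm_num) le_rfl (by norm_num) (by linarith)

theorem covC {C : ι → ι → ι → R} {d m} (hC : ∀ i j k, P d 1 m (C i j k)) (e c a b : ι) :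
    P d 2 (m - θ) (gCovC D Γ C e c a b) := by
  have h1 : ∀ i j k, P d 2 m (C i j k) := fun i j k =>
    hP.mono (hC i j k) (by norm_num) le_rfl le_rfl
  exact hP.add (derM hP e (hC c a b) (by norm_num) le_rfl le_rfl) (sumF hP _ fun k =>
    sub hP (sub hP (Γmul hP hΓ (by norm_num) le_rfl (h1 _ _ _) _ _ _)
      (Γmul hP hΓ (by norm_num) le_rfl (h1 _ _ _) _ _ _))
      (Γmul hP hΓ (by norm_num) le_rfl (h1 _ _ _) _ _ _))

theorem div {C : ι → ι → ι → R} {d m} (hC : ∀ i j k, P d 1 m (C i j k)) (a b : ι) :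
    P d 2 (m - θ) (gDiv D Γ C a b) :=
  sumF hP _ fun _ => sub hP (covC hP hΓ hC _ _ _ _) (covC hP hΓ hC _ _ _ _)

theorem sW {G h : ι → ι → R} {d m} (hG : ∀ i j, P 0 0 0 (G i j)) (hh : ∀ i j, P d 0 m (h i j))
    (k : ι) : P d 1 (m - θ) (gW D G Γ h k) :=
  sumF hP _ fun _ => sumF hP _ fun _ => mulL hP (hG _ _) (up hP hG (sS hP hΓ hh) _ _ _)
    (by norm_num) le_rfl (by norm_num) (by linarith)

omit hΓ in
theorem lie {U : ι → R} {h : ι → ι → R} {d m m'} (hU : ∀ k, P 0 0 m' (U k))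
    (hh : ∀ i j, P d 0 m (h i j)) (a b : ι) : P d 1 (m + m' - θ) (gLie D U h a b) := by
  have dU : ∀ i k, P 0 1 (m' - θ) (D i (U k)) := fun i k =>
    derM hP i (hU k) (by norm_num) (by norm_num) le_rfl
  exact sumF hP _ fun c => hP.add (hP.add
    (mulL hP (hU c) (derM hP c (hh a b) (j' := 1) (by norm_num) (by norm_num) le_rfl)
      (by norm_num) le_rfl (by norm_num) (by linarith))
    (mulR hP (hh _ _) (dU _ _) (by norm_num) le_rfl (by norm_num) (by linarith)))
    (mulR hP (hh _ _) (dU _ _) (by norm_num) le_rfl (by norm_num) (by linarith))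

end Geo

theorem facts (hP : Grd 1 D P) : T9Facts D P where
  chr g G hg hG := by
    have hΓ := chr hP hg hG
    have e : (-1 - 1 : ℝ) ≤ -2 := by norm_num
    have hr : ∀ i j, P 0 2 (-2) (gRic D (gChr D g G) i j) := fun i j =>
      hP.mono (ric hP hΓ i j) le_rfl le_rfl e
    refine ⟨hΓ, fun i j k m => hP.mono (rlow hP hΓ hg i j k m) le_rfl le_rfl e, hr,
      tr hP hG le_rfl hr, fun U hU => ⟨fun a b => ?_, fun d m f hf => ?_⟩⟩
    · exact hP.mono (lie hP hU hg a b) (by norm_num) le_rfl (by norm_num)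
    · refine sub hP (tr hP hG le_rfl fun a b =>
        hP.mono (hess hP hΓ hf a b) le_rfl le_rfl (by linarith)) (sumF hP _ fun k => ?_)
      exact mulL hP (hU k) (derM hP k hf (j' := 1) (by norm_num) (by norm_num) le_rfl)
        (by norm_num) (by norm_num) le_rfl (by linarith)
  cov Γ h d m hΓ hh :=
    ⟨cov2 hP hΓ hh, fun e c a b =>
      hP.mono (cov3 hP hΓ (cov2 hP hΓ hh) e c a b) le_rfl le_rfl (by linarith)⟩
  lin G Γ h d m hG hΓ hh :=
    ⟨sW hP hΓ hG hh, fun a b =>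
      hP.mono (div hP hΓ (up hP hG (sS hP hΓ hh)) a b) le_rfl le_rfl (by linarith)⟩
  low G Γ Rl Rc U h d m hG hΓ hRl hRc hU hh a b := by
    have hΓ1 : ∀ k i j, P 0 1 (-1) (Γ k i j) := fun k i j =>
      hP.mono (hΓ k i j) (by norm_num) (by norm_num) le_rfl
    have c2 : ∀ k i j a b c, P d 1 (m - 2) (Γ k i j * gCov2 D Γ h a b c) := fun k i j a b c =>
      hP.mono (Γmul hP hΓ1 le_rfl (by norm_num) (cov2 hP hΓ1 hh a b c) k i j) le_rfl
        (by norm_num) (by linarith)
    have c0 : ∀ k i j a b, P d 0 (m - 1) (Γ k i j * h a b) := fun k i j a b =>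
      mulL hP (hΓ k i j) (hh a b) le_rfl le_rfl (by norm_num) (by linarith)
    have c3 : ∀ i k l c a b, P d 1 (m - 2) (Rc i k * G l c * h a b) := fun i k l c a b =>
      mulL hP (mulL hP (hRc i k) (hG l c) (j := 1) (m := -2) le_rfl (by norm_num) (by norm_num)
        (by linarith)) (hh a b) le_rfl (by norm_num) (by norm_num) (by linarith)
    refine sub hP (sub hP (hP.add (neg hP (sumF hP _ fun e => sumF hP _ fun c =>
      mulL hP (hG e c) (j₂ := 1) (m₂ := m - 2) (sumF hP _ fun k => hP.add ?_ ?_) (by norm_num)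
        le_rfl (by norm_num) (by linarith))) (hP.smul _ ?_)) ?_) ?_
    · exact derM hP e (hP.add (c0 _ _ _ _ _) (c0 _ _ _ _ _)) (by norm_num) (by norm_num)
        (by linarith)
    · exact hP.add (hP.add (c2 _ _ _ _ _ _) (c2 _ _ _ _ _ _)) (c2 _ _ _ _ _ _)
    · refine sumF hP _ fun c => sumF hP _ fun e => mulL hP (hRl _ _ _ _) (j₂ := 0) (m₂ := m)
        (sumF hP _ fun i => sumF hP _ fun j => ?_) le_rfl (by norm_num) (by norm_num)
        (by linarith)
      exact mulL hP (mulL hP (hG c i) (hG e j) (j := 0) (m := 0) le_rfl le_rfl (by norm_num)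
        (by linarith)) (hh i j) le_rfl le_rfl (by norm_num) (by linarith)
    · exact sumF hP _ fun c => sumF hP _ fun k => hP.add (c3 _ _ _ _ _ _) (c3 _ _ _ _ _ _)
    · exact hP.mono (lie hP hU hh a b) le_rfl (by norm_num) (by linarith)

theorem quad (hQ : GrdQ D P) {G : ι → ι → R} {Γ : ι → ι → ι → R} {Dm h : ι → ι → R}
    (hG : ∀ i j, P 0 0 0 (G i j)) (hΓ : ∀ k i j, P 0 0 0 (Γ k i j))
    (hD : ∀ i j, P 1 0 0 (Dm i j)) (hh : ∀ i j, P 1 0 0 (h i j)) (a b : ι) :
    P 2 2 0 (gQ D G Γ Dm h a b) := by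
  have hP := hQ.toGrd
  have hΓ1 : ∀ k i j, P 0 1 (-0) (Γ k i j) := fun k i j =>
    hP.mono (hΓ k i j) (by norm_num) (by norm_num) (by norm_num)
  have m11 : ∀ {j₁ j₂ j : ℕ} {x y : R}, P 1 j₁ 0 x → P 1 j₂ 0 y → j₁ ≤ j → j₂ ≤ j → j ≤ 2 →
      P 2 j 0 (x * y) := fun hx hy h1 h2 h3 =>
    hP.mono (hQ.mul11 (hP.mono hx h1 h3 le_rfl) (hP.mono hy h2 h3 le_rfl)) le_rfl h3 (by norm_num)
  have hS : ∀ c a b, P 1 1 0 (gS D Γ h c a b) := fun c a b =>
    hP.mono (sS hP hΓ1 hh c a b) le_rfl (by norm_num) (by norm_num)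
  have hW : ∀ k, P 1 1 0 (gW D G Γ h k) := fun k =>
    hP.mono (sW hP hΓ1 hG hh k) le_rfl (by norm_num) (by norm_num)
  have dW : ∀ i k, P 1 2 0 (D i (gW D G Γ h k)) := fun i k =>
    derM hP i (hW k) (by norm_num) le_rfl (by norm_num)
  have u1 : ∀ c a b, P 2 1 0 (gUp Dm (gS D Γ h) c a b) := fun c a b =>
    sumF hP _ fun _ => m11 (hD _ _) (hS _ _ _) (by norm_num) le_rfl (by norm_num)
  have u2 : ∀ c a b, P 1 1 0 (gUp (fun i j => G i j + Dm i j) (gS D Γ h) c a b) :=
    up hP (fun i j => hP.add (hG i j) (hQ.down (hD i j))) hS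
  refine hP.add (hP.smul _ (hP.add
    (hP.mono (div hP hΓ1 u1 a b) le_rfl le_rfl (by norm_num)) ?_)) ?_
  · exact sumF hP _ fun c => sumF hP _ fun e => sub hP
      (m11 (u2 _ _ _) (u2 _ _ _) (by norm_num) (by norm_num) le_rfl)
      (m11 (u2 _ _ _) (u2 _ _ _) (by norm_num) (by norm_num) le_rfl)
  · exact sumF hP _ fun c => hP.add (hP.add
      (m11 (hW c) (derM hP c (hh a b) (j' := 1) (m' := 0) (by norm_num) (by norm_num)
        (by norm_num)) (by norm_num) (by norm_num) le_rfl)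
      (m11 (hh _ _) (dW _ _) (by norm_num) le_rfl le_rfl))
      (m11 (hh _ _) (dW _ _) (by norm_num) le_rfl le_rfl)

end T9

theorem t9 : T9Stmt :=
  ⟨fun _ _ _ _ _ _ _ hP => T9.facts hP,
    fun _ _ _ _ _ _ _ hQ _ _ _ _ hG hΓ hD hh a b => T9.quad hQ hG hΓ hD hh a b⟩

end Pool.Agent.Lib.MP_df9110_gt
end

-- part Pool.Agent.Lib.MP_df9110_gt.V3
section

/-! The third segment of the profile. -/

namespace Pool.Agent.Lib.MP_df9110_gt

open Set Filter Topology
open scoped ContDiff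

namespace V3

/-- The solution of `u' + P u / x = 2`. -/
noncomputable def uu (P κ X x : ℝ) : ℝ := 2 / (1 + P) * x + κ * (x / X) ^ (-P)

theorem uu_der {P κ X x : ℝ} (hP : 1 + P ≠ 0) (hX : 0 < X) (hx : 0 < x) :
    HasDerivAt (uu P κ X) (2 - P * uu P κ X x / x) x := by
  have h1 := (((hasDerivAt_id x).div_const X).rpow_const (p := -P)
    (Or.inl (div_pos hx hX).ne')).const_mul κ
  refine (((hasDerivAt_id x).const_mul (2 / (1 + P))).add h1).congr_deriv ?_
  simp only [id, uu]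
  rw [Real.rpow_sub_one (div_pos hx hX).ne']
  field_simp
  ring

theorem uu_smooth {P κ X x : ℝ} (hX : 0 < X) (hx : 0 < x) : ContDiffAt ℝ ∞ (uu P κ X) x :=
  (contDiffAt_const.mul contDiffAt_id).add (contDiffAt_const.mul
    ((contDiffAt_id.div_const X).rpow_const_of_ne (div_pos hx hX).ne'))

theorem abs_div_le {a b c : ℝ} (h : |a| ≤ c) (hb : 1 ≤ b) : |a / b| ≤ c := by
  rw [abs_div, abs_of_pos (by linarith : 0 < b)]
  exact (div_le_self (abs_nonneg _) hb).trans h

theorem key {P Y x : ℝ} {u : ℝ → ℝ} (hY : 0 < Y)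
    (hu : ∀ x, Y < x → HasDerivAt u (2 - P * u x / x) x ∧ 0 < u x) (hP : |P| ≤ 3 / 4)
    (hx : Y < x) (hx' : x ≤ 1 / 10000) (hb : u x ≤ 1 / 25) :
    ∃ E D : ℝ, |E| ≤ 1 / 625 ∧ |D| ≤ 1 / 200 ∧ x * pT true (fun x => (u x)⁻¹) x = P + E ∧
      x ^ 2 * deriv (pT true fun x => (u x)⁻¹) x = -P + D := by
  have h1 : ∀ x, Y < x → pT true (fun x => (u x)⁻¹) x =
      P / x + u x * (2 - P * u x / x) / (1 + u x ^ 2) := by
    intro x hx
    obtain ⟨hd, hp⟩ := hu x hx
    have h0 : 0 < x := hY.trans hx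
    have := (hd.inv hp.ne').deriv
    simp only [pT, if_true]
    rw [show (fun x => (u x)⁻¹) = u⁻¹ from rfl, this]
    field_simp
    ring
  have h0 : 0 < x := hY.trans hx
  obtain ⟨hd, hp⟩ := hu x hx
  have h2 := ((hasDerivAt_const x P).div (hasDerivAt_id x) h0.ne').add ((hd.mul
    (((hd.const_mul P).div (hasDerivAt_id x) h0.ne').const_sub 2)).div
      ((hd.pow 2).const_add 1) (by positivity : 1 + u x ^ 2 ≠ 0))
  have h3 : deriv (pT true fun x => (u x)⁻¹) x = _ := (h2.congr_of_eventuallyEq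
    ((eventually_gt_nhds hx).mono fun y hy => h1 y hy)).deriv
  obtain ⟨w, hw⟩ : ∃ w, w = 2 * x - P * u x := ⟨_, rfl⟩
  obtain ⟨z, hz⟩ : ∃ z, z = 2 * x - (1 + P) * w := ⟨_, rfl⟩
  have hP' := abs_le.1 hP
  have bu : |u x| ≤ 1 / 25 := by rwa [abs_of_pos hp]
  have bw : |w| ≤ 1 / 25 := abs_le.2 ⟨by nlinarith, by nlinarith⟩
  have bw' := abs_le.1 bw
  have bz : |z| ≤ 2 / 25 := abs_le.2 ⟨by nlinarith, by nlinarith⟩
  have b1 : |u x * w| ≤ 1 / 625 := by
    rw [abs_mul]
    exact (mul_le_mul bu bw (abs_nonneg _) (by norm_num)).trans (by norm_num)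
  have b2 : |u x * z| ≤ 2 / 625 := by
    rw [abs_mul]
    exact (mul_le_mul bu bz (abs_nonneg _) (by norm_num)).trans (by norm_num)
  have b3 : |w * w| ≤ 1 / 625 := by
    rw [abs_mul]
    exact (mul_le_mul bw bw (abs_nonneg _) (by norm_num)).trans (by norm_num)
  have k1 : 1 ≤ 1 + u x ^ 2 := le_add_of_nonneg_right (sq_nonneg _)
  have b4 := abs_div_le b1 k1
  have b5 := abs_le.1 (abs_div_le b2 k1)
  have b6 := abs_le.1 (abs_div_le b3 k1)
  have b7 := pow_le_pow_left₀ (abs_nonneg _) b4 2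
  rw [sq_abs] at b7
  refine ⟨u x * w / (1 + u x ^ 2), w * w / (1 + u x ^ 2) + u x * z / (1 + u x ^ 2) -
    2 * (u x * w / (1 + u x ^ 2)) ^ 2, b4, abs_le.2 ⟨by linarith, by
      linarith [sq_nonneg (u x * w / (1 + u x ^ 2))]⟩, ?_, ?_⟩
  · rw [h1 x hx, hw]
    field_simp
  · rw [h3, hz, hw]
    simp only [id, Pi.div_apply, Pi.mul_apply, Pi.pow_apply]
    field_simp
    ring

/-- The exponents. -/
noncomputable def PP : Fin 2 → ℝ := ![-27 / 100, 3 / 4]

/-- The two functions. -/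
noncomputable def vv (X : ℝ) (i : Fin 2) : ℝ → ℝ :=
  uu (PP i) (![-(200 / 73 - 8 / 5) * X, 1 / 30 - 8 / 7 * X] i) X

theorem vv_zero (X x : ℝ) :
    vv X 0 x = 200 / 73 * x - (200 / 73 - 8 / 5) * (X * (x / X) ^ (27 / 100 : ℝ)) := by
  simp only [vv, uu, PP, Matrix.cons_val_zero]
  rw [show -(-27 / 100 : ℝ) = 27 / 100 by norm_num]
  ring

theorem vv_one (X x : ℝ) :
    vv X 1 x = 8 / 7 * x + (1 / 30 - 8 / 7 * X) * (x / X) ^ (-(3 / 4) : ℝ) := by
  simp only [vv, uu, PP, Matrix.cons_val_one, Matrix.cons_val_zero]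
  ring

variable {X : ℝ}

theorem vv_pos (hX : 0 < X) (hX' : X < 1 / 10 ^ 16) (i : Fin 2) (x : ℝ) (hx : X / 2 < x) :
    HasDerivAt (vv X i) (2 - PP i * vv X i x / x) x ∧ 0 < vv X i x := by
  have h0 : 0 < x := by linarith
  have ht : 0 < x / X := div_pos h0 hX
  refine ⟨uu_der (by fin_cases i <;> norm_num [PP]) hX h0, ?_⟩
  fin_cases i
  · change 0 < vv X 0 x
    have : X * (x / X) ^ (27 / 100 : ℝ) ≤ 2 * x := by
      rcases le_total (x / X) 1 with h | h
      · have := mul_le_mul_of_nonneg_left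
          (Real.rpow_le_one ht.le h (show (0 : ℝ) ≤ 27 / 100 by norm_num)) hX.le
        linarith
      · have := mul_le_mul_of_nonneg_left
          (Real.rpow_le_rpow_of_exponent_le h (show (27 / 100 : ℝ) ≤ 1 by norm_num)) hX.le
        rw [Real.rpow_one, mul_div_cancel₀ _ hX.ne'] at this
        linarith
    rw [vv_zero]
    linarith
  · change 0 < vv X 1 x
    rw [vv_one]
    have : 0 < 1 / 30 - 8 / 7 * X := by linarith
    positivity

theorem vv_le (hX : 0 < X) (i : Fin 2) (x : ℝ) (hx : x ∈ Icc X (1 / 10000)) :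
    vv X i x ≤ 1 / 25 := by
  have h0 : 0 < x := hX.trans_le hx.1
  have ht : 1 ≤ x / X := (one_le_div hX).2 hx.1
  have hx2 := hx.2
  fin_cases i
  · change vv X 0 x ≤ _
    have : 0 ≤ X * (x / X) ^ (27 / 100 : ℝ) := by positivity
    rw [vv_zero]
    linarith
  · change vv X 1 x ≤ _
    have h1 := Real.rpow_le_one_of_one_le_of_nonpos ht (show (-(3 / 4) : ℝ) ≤ 0 by norm_num)
    have h2 : 0 ≤ X * (x / X) ^ (-(3 / 4) : ℝ) := by positivity
    rw [vv_one]
    linarith

theorem vv_end (hX : 0 < X) (hX' : X < 1 / 10 ^ 16) :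
    vv X 0 (1 / 10000) ∈ Icc (3700 : ℝ)⁻¹ 3600⁻¹ ∧ vv X 1 (1 / 10000) ∈ Icc (8800 : ℝ)⁻¹ 8700⁻¹ := by
  obtain ⟨t, ht⟩ : ∃ t : ℝ, t = 1 / 10000 / X := ⟨_, rfl⟩
  have h1 : 10 ^ 12 ≤ t := by
    rw [ht, le_div_iff₀ hX]
    linarith
  have h0 : 0 < t := by linarith
  have h2 : t ^ (-(1 / 2) : ℝ) ≤ 1 / 10 ^ 6 := by
    have e : (t ^ (-(1 / 2) : ℝ)) ^ 2 * t = 1 := by
      rw [← Real.rpow_natCast, ← Real.rpow_mul h0.le]
      norm_num [Real.rpow_neg_one, h0.ne']
    refine le_of_not_gt fun h => ?_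
    have := pow_lt_pow_left₀ h (by positivity) two_ne_zero
    nlinarith
  have h3 := (Real.rpow_le_rpow_of_exponent_le (by linarith : 1 ≤ t)
    (show (-(3 / 4) : ℝ) ≤ -(1 / 2) by norm_num)).trans h2
  have h4 := (Real.rpow_le_rpow_of_exponent_le (by linarith : 1 ≤ t)
    (show (27 / 100 - 1 : ℝ) ≤ -(1 / 2) by norm_num)).trans h2
  have h5 : X * t ^ (27 / 100 : ℝ) = 1 / 10000 * t ^ (27 / 100 - 1 : ℝ) := by
    rw [Real.rpow_sub_one h0.ne', ht]
    field_simp
  have h6 : 0 ≤ t ^ (27 / 100 - 1 : ℝ) := by positivity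
  have h7 : 0 ≤ t ^ (-(3 / 4) : ℝ) := by positivity
  have h8 := mul_nonneg (show 0 ≤ 1 / 30 - 8 / 7 * X by linarith) h7
  have h9 := mul_nonneg hX.le h7
  rw [vv_zero, vv_one, ← ht, h5]
  refine ⟨⟨?_, ?_⟩, ?_, ?_⟩ <;> linarith

theorem vv_int (hX : 0 < X) (hX' : X < 1 / 10 ^ 16) :
    ∫ x in X..1 / 10000, ((vv X 0 x)⁻¹ - (vv X 1 x)⁻¹) =
      (Real.log (vv X 0 (1 / 10000)) - Real.log (vv X 1 (1 / 10000)) -
        51 / 50 * Real.log (1 / 10000)) / 2 -
      (Real.log (vv X 0 X) - Real.log (vv X 1 X) - 51 / 50 * Real.log X) / 2 := by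
  have hab : X ≤ 1 / 10000 := by linarith
  have hm : ∀ x ∈ uIcc X (1 / 10000), X / 2 < x := fun x hx => by
    rw [uIcc_of_le hab] at hx
    linarith [hx.1]
  refine intervalIntegral.integral_eq_sub_of_hasDerivAt
    (f := fun x => (Real.log (vv X 0 x) - Real.log (vv X 1 x) - 51 / 50 * Real.log x) / 2)
    (fun x hx => ?_) (ContinuousOn.intervalIntegrable fun x hx => ?_)
  · obtain ⟨d0, p0⟩ := vv_pos hX hX' 0 x (hm x hx)
    obtain ⟨d1, p1⟩ := vv_pos hX hX' 1 x (hm x hx)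
    have h0 : 0 < x := by linarith [hm x hx]
    refine ((((d0.log p0.ne').sub (d1.log p1.ne')).sub
      ((Real.hasDerivAt_log h0.ne').const_mul (51 / 50))).div_const 2).congr_deriv ?_
    simp only [PP, Matrix.cons_val_zero, Matrix.cons_val_one]
    field_simp
    ring
  · obtain ⟨d0, p0⟩ := vv_pos hX hX' 0 x (hm x hx)
    obtain ⟨d1, p1⟩ := vv_pos hX hX' 1 x (hm x hx)
    exact ((d0.continuousAt.inv₀ p0.ne').sub (d1.continuousAt.inv₀ p1.ne')).continuousWithinAt

end V3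

open V3 in
theorem v3 : V3Stmt := by
  refine ⟨Real.log 8800 - Real.log (1 / 10000), 1 / 10 ^ 16, by positivity, fun X hX hX' => ?_⟩
  obtain ⟨e0, e1⟩ := vv_end hX hX'
  have hk := fun (i : Fin 2) x (hx : x ∈ Icc X (1 / 10000)) => key (half_pos hX)
    (vv_pos hX hX' i) (by fin_cases i <;> norm_num [PP, abs_le]) (by linarith [hx.1]) hx.2
    (vv_le hX i x hx)
  have hab : X < 1 / 10000 := by linarith
  have a0 : vv X 0 X = 8 / 5 * X := by
    rw [vv_zero, div_self hX.ne', Real.one_rpow]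
    ring
  have a1 : vv X 1 X = 1 / 30 := by
    rw [vv_one, div_self hX.ne', Real.one_rpow]
    ring
  have hs : ∀ x ∈ Icc X (1 / 10000),
      |x * psum (fun _ => true) (fun i x => (vv X i x)⁻¹) x - 12 / 25| ≤ 2 / 625 := by
    intro x hx
    obtain ⟨E0, -, b0, -, c0, -⟩ := hk 0 x hx
    obtain ⟨E1, -, b1, -, c1, -⟩ := hk 1 x hx
    have := abs_le.1 b0
    have := abs_le.1 b1
    simp only [psum, mul_add, c0, c1, PP, Matrix.cons_val_zero, Matrix.cons_val_one]
    exact abs_le.2 ⟨by linarith, by linarith⟩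
  refine ⟨(vv X 0 (1 / 10000))⁻¹, (vv X 1 (1 / 10000))⁻¹,
    ⟨le_inv_of_le_inv₀ (by linarith [e0.1]) e0.2, inv_le_of_inv_le₀ (by norm_num) e0.1⟩,
    ⟨le_inv_of_le_inv₀ (by linarith [e1.1]) e1.2, inv_le_of_inv_le₀ (by norm_num) e1.1⟩,
    X, 1 / 10000, X / 2, fun i x => (vv X i x)⁻¹, hab, half_pos hX, fun i x hx => ?_,
    fun x hx => ⟨?_, inv_pos.2 (vv_pos hX hX' 0 x (by linarith [hx.1])).2⟩, fun i => ?_, ?_, ?_, ?_⟩
  · have h : X / 2 < x := by linarith [hx.1]
    exact ((uu_smooth hX (by linarith)).inv (vv_pos hX hX' i x h).2.ne').contDiffWithinAt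
  · obtain ⟨E0, D0, b0, d0, c0, f0⟩ := hk 0 x hx
    obtain ⟨E1, D1, b1, d1, c1, f1⟩ := hk 1 x hx
    have h0 : 0 < x := hX.trans_le hx.1
    simp only [PP, Matrix.cons_val_zero, Matrix.cons_val_one] at c0 c1 f0 f1
    refine pos_of_mul_pos_left (b := x ^ 2) ?_ (sq_nonneg x)
    have e : etY (fun _ => true) (fun i x => (vv X i x)⁻¹) x * x ^ 2 =
        -(27 / 100 + D0 + (-(3 / 4) + D1) + (-27 / 100 + E0) ^ 2 + (3 / 4 + E1) ^ 2 +
          (-27 / 100 + E0) * (3 / 4 + E1) + 3 * x ^ 2) := by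
      rw [← c0, ← c1, ← f1]
      simp only [etY]
      linear_combination -f0
    have g0 := pow_le_pow_left₀ (abs_nonneg _) b0 2
    have g1 := pow_le_pow_left₀ (abs_nonneg _) b1 2
    have g2 := pow_le_pow_left₀ h0.le hx.2 2
    rw [sq_abs] at g0 g1
    have := abs_le.1 b0
    have := abs_le.1 b1
    have := abs_le.1 d0
    have := abs_le.1 d1
    rw [e]
    nlinarith [sq_nonneg (E0 - E1)]
  · fin_cases i
    · refine ⟨?_, rfl⟩
      change (vv X 0 X)⁻¹ = 5 / (8 * X)
      rw [a0]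
      field_simp
    · refine ⟨?_, rfl⟩
      change (vv X 1 X)⁻¹ = 30
      rw [a1]
      norm_num
  · have := abs_le.1 (hs X ⟨le_rfl, hab.le⟩)
    rw [lt_div_iff₀ (by positivity)]
    linarith
  · have := abs_le.1 (hs _ ⟨hab.le, le_rfl⟩)
    linarith
  · have l0 : Real.log (vv X 0 (1 / 10000)) ≤ 0 :=
      Real.log_nonpos (by linarith [e0.1]) (by linarith [e0.2])
    have l1 := Real.log_le_log (by norm_num) e1.1
    have l2 : 0 < Real.log 8800 := Real.log_pos (by norm_num)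
    have l3 : Real.log (1 / 10000) < 0 := Real.log_neg (by norm_num) (by norm_num)
    have l4 : Real.log (1 / 30) < 0 := Real.log_neg (by norm_num) (by norm_num)
    have l5 : 0 < Real.log (8 / 5) := Real.log_pos (by norm_num)
    rw [Real.log_inv] at l1
    change ∫ x in X..1 / 10000, ((vv X 0 x)⁻¹ - (vv X 1 x)⁻¹) < _
    rw [vv_int hX hX', a0, a1, Real.log_mul (by norm_num) hX.ne']
    linarith

end Pool.Agent.Lib.MP_df9110_gt
end
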