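import Pool.Agent.Lib.MP_df9110_gt.NGeo

/-! Weights and cut-off functions on the layer domains. -/

namespace Pool.Agent.Lib.MP_df9110_gt

open Filter Topology Set MeasureTheory
open scoped ContDiff

namespace Wt

section One

variable {f : ℝ → ℝ}

theorem cd0 (hf : ContDiff ℝ ∞ f) : ContDiff ℝ ∞ fun q : En 2 => f (q 0) :=
  hf.comp (contDiff_apply ℝ ℝ 0)

theorem pdn0 (hf : ContDiff ℝ ∞ f) (i : Fin 2) (p : En 2) :
    pdn i (fun q : En 2 => f (q 0)) p = deriv f (p 0) * (Pi.single i 1 : En 2) 0 := by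
  have h := (hf.differentiable (by simp) (p 0)).hasDerivAt.comp_hasFDerivAt p
    (hasFDerivAt_apply (𝕜 := ℝ) (0 : Fin 2) p)
  rw [pdn, show (fun q : En 2 => f (q 0)) = f ∘ fun q : En 2 => q 0 from rfl, h.fderiv]
  simp

theorem pdn00 (hf : ContDiff ℝ ∞ f) :
    pdn 0 (fun q : En 2 => f (q 0)) = fun q => deriv f (q 0) := funext fun p => by simp [pdn0 hf]

theorem pdn01 (hf : ContDiff ℝ ∞ f) : pdn 1 (fun q : En 2 => f (q 0)) = fun _ => 0 :=
  funext fun p => by simp [pdn0 hf]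

theorem WB0 (b1 : B1Stmt) (k : ℕ) : ∀ {f : ℝ → ℝ}, ContDiff ℝ ∞ f → ∀ {a : ℝ} {p : En 2},
    (∀ j ≤ k, |iteratedDeriv j f (p 0)| ≤ a) → WB 1 k a (fun q : En 2 => f (q 0)) p := by
  induction k with
  | zero => exact fun _ _ _ h => by simpa [WB] using h 0 le_rfl
  | succ k ih =>
    intro f hf a p h
    have h0 : |f (p 0)| ≤ a := by simpa using h 0 (by omega)
    refine ⟨h0, Fin.forall_fin_two.2 ⟨?_, ?_⟩⟩
    · rw [pdn00 hf, mul_one]
      exact ih (contDiff_infty_iff_deriv.1 hf).2 fun j hj => by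
        rw [← iteratedDeriv_succ']; exact h _ (by omega)
    · rw [pdn01 hf, mul_one]
      exact (b1 2).mono ((b1 2).const k 0 p zero_le_one) zero_le_one le_rfl
        (by simpa using (abs_nonneg _).trans h0)

theorem WB_exp (b1 : B1Stmt) (k : ℕ) {t : ℝ} (ht : t ∈ Ioo (0 : ℝ) 1) (p : En 2) :
    WB 1 k (2 ^ k * (2 * Real.exp (-(2 * (t * p 0)))))
      (fun q : En 2 => 2 * Real.exp (-(2 * (t * q 0)))) p := by
  have e : (fun s : ℝ => 2 * Real.exp (-(2 * (t * s)))) =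
      fun s => 2 * Real.exp (-(2 * t) * s) := funext fun s => by ring_nf
  refine WB0 b1 k (f := fun s => 2 * Real.exp (-(2 * (t * s)))) (by fun_prop) fun j hj => ?_
  rw [e, iteratedDeriv_const_mul_field, iteratedDeriv_exp_const_mul, abs_mul, abs_mul, abs_pow,
    abs_neg, Real.abs_exp, abs_two, abs_of_pos (by linarith [ht.1]), neg_mul, mul_assoc 2 t,
    mul_left_comm]
  refine mul_le_mul_of_nonneg_right ?_ (by positivity)
  exact (pow_le_pow_left₀ (by linarith [ht.1]) (by linarith [ht.2]) j).trans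
    (pow_le_pow_right₀ one_le_two hj)

theorem Efun_eq (s : ℝ) : Efun s = ∫ t in Ioo (0 : ℝ) 1, 2 * Real.exp (-(2 * (t * s))) := by
  rw [Efun, intervalIntegral.integral_of_le zero_le_one, integral_Ioc_eq_integral_Ioo]

theorem Efun_an (b1 : B1Stmt) (pi1 : PI1Stmt) : ContDiff ℝ ∞ Efun ∧
    ∀ k (p : En 2), WB 1 k (2 ^ k * Efun (p 0)) (fun q : En 2 => Efun (q 0)) p := by
  obtain ⟨h1, -, h3⟩ := pi1 2 (Ioo 0 1) univ (fun t q => 2 * Real.exp (-(2 * (t * q 0))))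
    isOpen_Ioo isOpen_univ (ContDiff.contDiffOn (by fun_prop)) fun p _ k =>
    ⟨fun _ => 2 ^ k * (2 * Real.exp (2 * (|p 0| + 1))), integrableOn_const (by simp), by
      filter_upwards [((continuous_apply 0).abs.tendsto p).eventually
        (gt_mem_nhds (lt_add_one |p 0|))] with q hq t ht
      refine (b1 2).mono (WB_exp b1 k ht q) zero_le_one le_rfl ?_
      have : -(t * q 0) ≤ |p 0| + 1 := by
        nlinarith [ht.1, ht.2, neg_abs_le (q 0), abs_nonneg (q 0)]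
      gcongr
      linarith⟩
  simp only [← Efun_eq] at h1 h3
  refine ⟨?_, fun k p => ?_⟩
  · exact (contDiff_iff_contDiffAt.2 fun p => h1 p trivial).comp
      (f := fun s : ℝ => fun _ : Fin 2 => s) (contDiff_pi.2 fun _ => contDiff_id)
  · have := h3 p trivial 1 k (fun t => 2 ^ k * (2 * Real.exp (-(2 * (t * p 0)))))
      ((Continuous.integrableOn_Icc (by fun_prop)).mono_set Ioo_subset_Icc_self)
      fun t ht => WB_exp b1 k ht p
    rwa [integral_const_mul, ← Efun_eq] at this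

theorem mul_Efun (s : ℝ) : s * Efun s = 1 - Real.exp (-(2 * s)) := by
  rw [Efun, ← intervalIntegral.integral_const_mul,
    intervalIntegral.integral_eq_sub_of_hasDerivAt (f := fun t => -Real.exp (-(2 * (t * s))))
      (fun t _ => ?_) (Continuous.intervalIntegrable (by fun_prop) _ _)]
  · simp; ring
  · exact (((hasDerivAt_mul_const s).const_mul 2).fun_neg.exp).fun_neg.congr_deriv (by ring)

theorem Efun_le {s A : ℝ} (h : ∀ t ∈ Icc (0 : ℝ) 1, -(2 * (t * s)) ≤ A) :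
    Efun s ≤ 2 * Real.exp A := by
  have := intervalIntegral.integral_mono_on (μ := volume) zero_le_one
    (f := fun t => 2 * Real.exp (-(2 * (t * s)))) (g := fun _ => 2 * Real.exp A)
    (Continuous.intervalIntegrable (by fun_prop) _ _) (by simp) fun t ht => by
      have := h t ht
      gcongr
  simpa [Efun] using this

theorem le_Efun {s A : ℝ} (h : ∀ t ∈ Icc (0 : ℝ) 1, A ≤ -(2 * (t * s))) :
    2 * Real.exp A ≤ Efun s := by
  have := intervalIntegral.integral_mono_on (μ := volume) zero_le_one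
    (g := fun t => 2 * Real.exp (-(2 * (t * s)))) (f := fun _ => 2 * Real.exp A) (by simp)
    (Continuous.intervalIntegrable (by fun_prop) _ _) fun t ht => by
      have := h t ht
      gcongr
  simpa [Efun] using this

theorem Efun_zero : Efun 0 = 2 := by simp [Efun]

theorem Efun_nonneg (s : ℝ) : 0 ≤ Efun s :=
  intervalIntegral.integral_nonneg zero_le_one fun _ _ => by positivity

theorem Efun_bd {s : ℝ} (hs : -1 < s) :
    1 ≤ (2 + s) * Efun s ∧ (2 + s) * Efun s ≤ 4 * Real.exp 2 + 1 := by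
  have h1 := mul_Efun s
  have h2 := Efun_le (s := s) (A := 2) fun t ht => by nlinarith [ht.1, ht.2]
  have h3 := Real.exp_pos (-(2 * s))
  refine ⟨?_, by nlinarith⟩
  rcases le_total s 0 with h | h
  · have := le_Efun (s := s) (A := 0) fun t ht => by nlinarith [ht.1]
    rw [Real.exp_zero] at this
    nlinarith
  · have h4 := le_Efun (s := s) (A := -(2 * s)) fun t ht => by nlinarith [ht.2]
    nlinarith

/-- `(1 - m s) / s` -/
noncomputable def quo (m : ℝ → ℝ) (s : ℝ) : ℝ := (1 - m s) / s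

theorem quo_cd {m : ℝ → ℝ} (hm : IsCut m) : ContDiff ℝ ∞ (quo m) := by
  obtain ⟨h1, -, c, hc, h2⟩ := hm
  refine contDiff_iff_contDiffAt.2 fun s => ?_
  by_cases hs : s = 0
  · refine (contDiffAt_const (c := (0 : ℝ))).congr_of_eventuallyEq ?_
    filter_upwards [gt_mem_nhds (hs ▸ hc : s < c)] with t ht
    simp [quo, h2 t ht.le]
  · exact (contDiffAt_const.sub h1.contDiffAt).div contDiffAt_id hs

theorem etR_eq {m : ℝ → ℝ} (hm : IsCut m) : etR m = fun ε (p : En 2) =>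
    (2 + p 0) * (Efun (p 0) + ε * quo m (ε * p 0) * Real.exp (-(2 * p 0))) := by
  obtain ⟨-, -, c, hc, h2⟩ := hm
  funext ε p
  rw [etR, quo]
  by_cases h : ε = 0
  · simp [h, h2 0 hc.le]
  · by_cases h' : p 0 = 0
    · simp [h']
    · field_simp

theorem isCut_one : IsCut 1 := ⟨contDiff_const, fun _ => by simp, 1, one_pos, fun _ _ => rfl⟩

theorem lin_exp {δ s : ℝ} (hδ : 0 < δ) (hs : -1 < s) :
    (2 + s) * Real.exp (-(δ * s)) ≤ (1 + 1 / δ) * Real.exp δ := by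
  have h1 : 2 + s ≤ (1 + 1 / δ) * Real.exp (δ * (s + 1)) := by
    have h2 := Real.add_one_le_exp (δ * (s + 1))
    have h3 : 0 ≤ δ * (s + 1) := by nlinarith
    have h4 : s + 1 ≤ 1 / δ * Real.exp (δ * (s + 1)) := by
      rw [one_div, ← div_eq_inv_mul, le_div_iff₀ hδ]; linarith
    nlinarith
  calc _ ≤ (1 + 1 / δ) * Real.exp (δ * (s + 1)) * Real.exp (-(δ * s)) := by gcongr
    _ = _ := by rw [mul_assoc, ← Real.exp_add]; ring_nf

theorem exp_split (κ κ' s : ℝ) :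
    Real.exp (-(κ * s)) = Real.exp (-((κ - κ') * s)) * Real.exp (-(κ' * s)) := by
  rw [← Real.exp_add]; ring_nf

theorem exp_small {δ c ε s : ℝ} (hδ : 0 < δ) (hc : 0 < c) (hε : 0 < ε) (h : c ≤ ε * s) (N : ℕ) :
    Real.exp (-(δ * s)) ≤ N.factorial / (δ * c) ^ N * ε ^ N := by
  have h1 := Real.pow_div_factorial_le_exp (δ * c / ε) (by positivity) N
  have h2 : Real.exp (δ * c / ε) ≤ Real.exp (δ * s) := by
    rw [Real.exp_le_exp, div_le_iff₀ hε]; nlinarith
  rw [Real.exp_neg]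
  refine (inv_anti₀ (by positivity) (h1.trans h2)).trans (le_of_eq ?_)
  rw [div_pow]
  field_simp

end One

section Germ

/-- families of smooth functions of one variable -/
def GS : Subalgebra ℝ (ℝ → ℝ → ℝ) where
  carrier := {f | ∀ ε, ContDiff ℝ ∞ (f ε)}
  mul_mem' := fun ha hb ε => (ha ε).mul (hb ε)
  add_mem' := fun ha hb ε => (ha ε).add (hb ε)
  algebraMap_mem' := fun _ _ => contDiff_const

variable (l : Filter Z2)

theorem mem0 (f : GS) : (fun ε (p : En 2) => f.1 ε (p 0)) ∈ SmF l :=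
  Eventually.of_forall fun z => (cd0 (f.2 z.1)).contDiffAt

/-- functions of the first coordinate -/
def toF : GS →ₐ[ℝ] SmF l where
  toFun f := ⟨_, mem0 l f⟩
  map_one' := rfl
  map_mul' _ _ := rfl
  map_zero' := rfl
  map_add' _ _ := rfl
  commutes' _ := rfl

/-- germs of functions of the first coordinate -/
noncomputable def toG : GS →ₐ[ℝ] SG l := (mkG l).comp (toF l)

theorem toG_eq (f : GS) : toG l f = mkG l (toF l f) := rfl

theorem gm_toG (f : GS) : gm l (fun ε p => f.1 ε (p 0)) = toG l f := gm_eq (mem0 l f)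

/-- derivative -/
noncomputable def dS (f : GS) : GS :=
  ⟨fun ε => deriv (f.1 ε), fun ε => (contDiff_infty_iff_deriv.1 (f.2 ε)).2⟩

/-- value at zero -/
def zS (f : GS) : GS := ⟨fun ε _ => f.1 ε 0, fun _ => contDiff_const⟩

variable {l}

theorem ev0_toG (h : IsPull l l fun _ p => ![0, p 1]) (f : GS) :
    ev0 (toG l f) = toG l (zS f) := by
  rw [ev0, pb_eq h, toG_eq, h.hom_mk]; rfl

theorem PG0 (b1 : B1Stmt) (B : B2Facts l 1) {w : Z2 → ℝ} (f : GS)
    (h : ∀ j, ∃ C : ℝ, ∀ᶠ z in l, |iteratedDeriv j (f.1 z.1) (z.2 0)| ≤ C * |w z|) :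
    PG 1 w (toG l f) := by
  rw [toG_eq, B.mk_iff]
  choose C hC using h
  refine ⟨mem0 l f, fun k => ⟨∑ j ∈ Finset.range (k + 1), |C j|, ?_⟩⟩
  filter_upwards [(eventually_all_finset (Finset.range (k + 1))).2 fun j _ => hC j] with z hz
  refine WB0 b1 k (f.2 z.1) fun j hj => (hz j (by simp; omega)).trans ?_
  exact mul_le_mul_of_nonneg_right ((le_abs_self _).trans (Finset.single_le_sum
    (f := fun j => |C j|) (fun _ _ => abs_nonneg _) (by simp; omega))) (abs_nonneg _)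

variable [OpF l]

theorem gD0 (f : GS) : gD 0 (toG l f) = toG l (dS f) := by
  rw [toG_eq, ← mkG_sfD]
  exact congrArg _ (Subtype.ext (funext fun ε => pdn00 (f.2 ε)))

theorem gD1 (f : GS) : gD 1 (toG l f) = 0 := by
  rw [toG_eq, ← mkG_sfD, ← map_zero (mkG l)]
  exact congrArg _ (Subtype.ext (funext fun ε => pdn01 (f.2 ε)))

/-- bounds through the value and the derivative -/
theorem PG_of (B : B2Facts l 1) {w : Z2 → ℝ} (f : GS) (h : WLe l (fun z => f.1 z.1 (z.2 0)) w)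
    (h0 : PG 1 w (gD 0 (toG l f))) : PG 1 w (toG l f) := by
  refine B.of_der ?_ (Fin.forall_fin_two.2 ⟨by rwa [mul_one], by rw [gD1]; exact B.zero _⟩)
  obtain ⟨C, hC⟩ := h
  refine ⟨C, ?_⟩
  filter_upwards [hC, mkG_eq.1 ((mkG_rep (toG l f)).trans (toG_eq l f))] with z h2 h3
  rwa [h3]

end Germ

section Elem

variable {m n : ℝ → ℝ}

/-- the coordinate -/
def cS : GS := ⟨fun _ s => s, fun _ => contDiff_id⟩
/-- the parameter -/
def εS : GS := ⟨fun ε _ => ε, fun _ => contDiff_const⟩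
/-- a function of `ε σ` -/
def mS (hn : ContDiff ℝ ∞ n) : GS := ⟨fun ε s => n (ε * s), fun _ => by fun_prop⟩
/-- the exponential with a cut-off -/
noncomputable def yS (hn : ContDiff ℝ ∞ n) : GS :=
  ⟨fun ε s => n (ε * s) * Real.exp (-(2 * s)), fun _ => by fun_prop⟩
/-- the exponential -/
noncomputable def y1S : GS := yS isCut_one.1
/-- the function `Efun` -/
noncomputable def ES (hE : ContDiff ℝ ∞ Efun) : GS := ⟨fun _ => Efun, fun _ => hE⟩
/-- the function `etR` -/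
noncomputable def etS (hE : ContDiff ℝ ∞ Efun) (hm : IsCut m) : GS :=
  (2 + cS) * (ES hE + εS * mS (quo_cd hm) * y1S)

theorem etS_val (hE : ContDiff ℝ ∞ Efun) (hm : IsCut m) (ε s : ℝ) : (etS hE hm).1 ε s =
    (2 + s) * (Efun s + ε * quo m (ε * s) * (1 * Real.exp (-(2 * s)))) := rfl

theorem quo_one (h : ContDiff ℝ ∞ (quo 1)) : mS h = 0 :=
  Subtype.ext (funext₂ fun ε s => by simp [mS, quo])

theorem yS_eq (hn : ContDiff ℝ ∞ n) : yS hn = mS hn * y1S :=
  Subtype.ext (funext₂ fun ε s => by simp [mS, yS, y1S])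

theorem dS_y1 : dS y1S = -(2 * y1S) := Subtype.ext (funext₂ fun ε s => by
  change deriv (fun s : ℝ => 1 * Real.exp (-(2 * s))) s = -(2 * (1 * Real.exp (-(2 * s))))
  rw [(((hasDerivAt_id' s).const_mul 2).fun_neg.exp.const_mul 1).deriv]
  ring)

theorem c_et (hE : ContDiff ℝ ∞ Efun) (hm : IsCut m) :
    cS * etS hE hm = (2 + cS) * (1 - yS hm.1) := Subtype.ext (funext₂ fun ε s => by
  change s * (etS hE hm).1 ε s = (2 + s) * (1 - m (ε * s) * Real.exp (-(2 * s)))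
  have h1 : ε * s * quo m (ε * s) = 1 - m (ε * s) := by
    obtain ⟨c₁, h1, h2⟩ := hm.2.2
    by_cases h : ε * s = 0
    · simp [h, h2 0 h1.le]
    · rw [quo, mul_div_cancel₀ _ h]
  rw [etS_val]
  linear_combination (2 + s) * mul_Efun s + (2 + s) * Real.exp (-(2 * s)) * h1)

theorem z_y1 : zS y1S = 1 := Subtype.ext (funext₂ fun ε s => by simp [zS, y1S, yS])

theorem z_m (hm : IsCut m) : zS (mS hm.1) = 1 := Subtype.ext (funext₂ fun ε s => by
  obtain ⟨c₁, h1, h2⟩ := hm.2.2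
  simp [zS, mS, h2 0 h1.le])

theorem z_et (hE : ContDiff ℝ ∞ Efun) (hm : IsCut m) : zS (etS hE hm) = 4 :=
  Subtype.ext (funext₂ fun ε s => by
    change (etS hE hm).1 ε 0 = 4
    rw [etS_val]
    simp [quo, Efun_zero]; norm_num)

theorem one_sub_m (hm : IsCut m) :
    1 - mS hm.1 = mS (n := fun s => 1 - m s) (contDiff_const.sub hm.1) := rfl

variable (l : Filter Z2)

theorem cG_eq : cG l = toG l cS := gm_toG l cS
theorem εG_eq : εG l = toG l εS := gm_toG l εS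
theorem mG_eq (hn : ContDiff ℝ ∞ n) : mG l n = toG l (mS hn) := gm_toG l (mS hn)
theorem yG_eq (hn : ContDiff ℝ ∞ n) : yG l n = toG l (yS hn) := gm_toG l (yS hn)
theorem y1G_eq : yG l 1 = toG l y1S := gm_toG l y1S

theorem etR_val (hE : ContDiff ℝ ∞ Efun) (hm : IsCut m) :
    etR m = fun ε p => (etS hE hm).1 ε (p 0) := by
  rw [etR_eq hm]; simp only [etS_val, one_mul]

theorem etG_eq (hE : ContDiff ℝ ∞ Efun) (hm : IsCut m) : etG l m = toG l (etS hE hm) := by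
  rw [etG, etR_val hE hm, gm_toG]

end Elem

section Layer

variable {c a b : ℝ}

theorem ev (c a b : ℝ) : ∀ᶠ z in lS c a b, 0 < z.1 ∧ z.1 < 1 ∧ -1 < z.2 0 ∧ z.1 * z.2 0 < c := by
  rw [lS, ev_fam]
  filter_upwards [Ioo_mem_nhdsGT one_pos] with ε hε p hp using ⟨hε.1, hε.2, hp.1, hp.2.1⟩

theorem hW_nonneg {z : Z2} (h : 0 < z.1) (h' : -1 < z.2 0) : 0 ≤ hW z :=
  le_min zero_le_one (by nlinarith)

theorem h_one : WLe (lS c a b) hW 1 := ⟨1, by
  filter_upwards [ev c a b] with z ⟨h1, _, h3, _⟩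
  rw [abs_of_nonneg (hW_nonneg h1 h3)]
  simp [hW]⟩

theorem e_h : WLe (lS c a b) eW hW := ⟨1, by
  filter_upwards [ev c a b] with z ⟨h1, h2, h3, _⟩
  rw [abs_of_nonneg (hW_nonneg h1 h3), eW, abs_of_pos h1, one_mul]
  exact le_min h2.le (by nlinarith)⟩

theorem h_zero : WLe (lS c a b) (fun z => hW (z.1, ![0, z.2 1])) eW := ⟨2, by
  filter_upwards [ev c a b] with z ⟨h1, _, _, _⟩
  rw [abs_of_nonneg (hW_nonneg (z := (z.1, ![0, z.2 1])) h1 (by simp)), eW, abs_of_pos h1]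
  exact (min_le_right _ _).trans (by simp [mul_comm])⟩

theorem d_le (κ κ' : ℝ) (h : κ' ≤ κ) : WLe (lS c a b) (dW κ) (dW κ') := ⟨Real.exp (κ - κ'), by
  filter_upwards [ev c a b] with z ⟨_, _, h3, _⟩
  rw [dW, dW, Real.abs_exp, Real.abs_exp, exp_split κ κ']
  gcongr
  nlinarith⟩

/-- the weight `2 + σ` -/
def sW (z : Z2) : ℝ := 2 + z.2 0

theorem s_d (κ κ' : ℝ) (h : κ' < κ) (w : Z2 → ℝ) :
    WLe (lS c a b) (sW * (w * dW κ)) (w * dW κ') := ⟨(1 + 1 / (κ - κ')) * Real.exp (κ - κ'), by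
  filter_upwards [ev c a b] with z ⟨_, _, h3, _⟩
  simp only [Pi.mul_apply, sW, dW, abs_mul, Real.abs_exp]
  rw [abs_of_pos (by linarith), exp_split κ κ']
  calc _ = (2 + z.2 0) * Real.exp (-((κ - κ') * z.2 0)) * (|w z| * Real.exp (-(κ' * z.2 0))) := by
        ring
    _ ≤ _ := mul_le_mul_of_nonneg_right (lin_exp (sub_pos.2 h) h3) (by positivity)⟩

theorem hd (κ κ' : ℝ) (h : κ' < κ) : WLe (lS c a b) (hW * dW κ) (eW * dW κ') := by
  obtain ⟨C, hC⟩ := s_d (c := c) (a := a) (b := b) κ κ' h eW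
  refine ⟨C, ?_⟩
  filter_upwards [ev c a b, hC] with z ⟨h1, _, h3, _⟩ h5
  refine le_trans ?_ h5
  simp only [Pi.mul_apply, sW, eW, abs_mul]
  rw [abs_of_nonneg (hW_nonneg h1 h3), abs_of_pos h1, abs_of_pos (by linarith : 0 < 2 + z.2 0),
    ← mul_assoc, mul_comm _ z.1]
  gcongr
  exact min_le_right _ _

theorem one_s : WLe (lS c a b) 1 sW := ⟨1, by
  filter_upwards [ev c a b] with z ⟨_, _, h3, _⟩
  rw [sW, abs_of_pos (by linarith : 0 < 2 + z.2 0)]
  simp; linarith⟩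

/-- indicator of the region where the cut-off is active -/
noncomputable def iW (c₁ : ℝ) (z : Z2) : ℝ := if c₁ ≤ z.1 * z.2 0 then 1 else 0

theorem i_d {c₁ : ℝ} (hc : 0 < c₁) (N : ℕ) (κ κ' : ℝ) (h : κ' < κ) (w : Z2 → ℝ) :
    WLe (lS c a b) (iW c₁ * (w * dW κ)) (eW ^ N * w * dW κ') :=
  ⟨N.factorial / ((κ - κ') * c₁) ^ N, by
    have := sub_pos.2 h
    filter_upwards [ev c a b] with z ⟨h1, _, _, _⟩
    simp only [Pi.mul_apply, Pi.pow_apply, iW, eW, dW, abs_mul, Real.abs_exp, abs_pow,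
      abs_of_pos h1]
    split_ifs with h2
    · rw [exp_split κ κ']
      calc _ = Real.exp (-((κ - κ') * z.2 0)) * (|w z| * Real.exp (-(κ' * z.2 0))) := by
            rw [abs_one]; ring
        _ ≤ N.factorial / ((κ - κ') * c₁) ^ N * z.1 ^ N * (|w z| * Real.exp (-(κ' * z.2 0))) := by
            gcongr; exact exp_small this hc h1 h2 N
        _ = _ := by ring
    · rw [abs_zero, zero_mul]; positivity⟩

theorem m_bd {n : ℝ → ℝ} (hn : ContDiff ℝ ∞ n) (j : ℕ) : ∃ C : ℝ, ∀ᶠ z in lS c a b,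
    |z.1 ^ j * iteratedDeriv j n (z.1 * z.2 0)| ≤ C := by
  obtain ⟨C, hC⟩ := (isCompact_Icc (a := -1) (b := c)).exists_bound_of_continuousOn
    (hn.continuous_iteratedDeriv j (by exact_mod_cast le_top)).continuousOn
  refine ⟨C, ?_⟩
  filter_upwards [ev c a b] with z ⟨h1, h2, h3, h4⟩
  rw [abs_mul, abs_pow, abs_of_pos h1]
  exact (mul_le_of_le_one_left (abs_nonneg _) (pow_le_one₀ h1.le h2.le)).trans
    (hC _ ⟨by nlinarith, h4.le⟩)

theorem pos_et {m : ℝ → ℝ} (hm : IsCut m) : ∀ᶠ z in lS c a b, 1 ≤ etR m z.1 z.2 := by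
  obtain ⟨c₁, h1, h2⟩ := hm.2.2
  filter_upwards [ev c a b] with z ⟨h3, _, h4, _⟩
  have h5 : 0 ≤ (1 - m (z.1 * z.2 0)) * Real.exp (-(2 * z.2 0)) / z.2 0 := by
    rcases le_total (z.2 0) 0 with h | h
    · rw [h2 _ (by nlinarith)]; simp
    · have := sub_nonneg.2 (hm.2.1 (z.1 * z.2 0)).2
      positivity
  rw [etR, mul_add]
  nlinarith [(Efun_bd h4).1]

theorem s0_le : WLe (lS c a b) (fun z => z.1 * z.2 0) hW := ⟨max c 1, by
  filter_upwards [ev c a b] with z ⟨h1, h2, h3, h4⟩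
  rw [abs_of_nonneg (hW_nonneg h1 h3), hW, mul_min_of_nonneg _ _ (by positivity), abs_le,
    neg_le, le_min_iff, le_min_iff]
  have h5 := le_max_left c 1
  have h6 := le_max_right c 1
  have h7 : 0 ≤ z.1 * (2 + z.2 0) := by nlinarith
  refine ⟨⟨?_, ?_⟩, ?_, ?_⟩ <;> nlinarith⟩

theorem c_le : WLe (lS c a b) (fun z => z.2 0) sW := ⟨1, by
  filter_upwards [ev c a b] with z ⟨_, _, h3, _⟩
  rw [sW, abs_of_pos (by linarith : 0 < 2 + z.2 0), one_mul, abs_le]
  constructor <;> linarith⟩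

theorem sE_le : WLe (lS c a b) (sW * fun z => Efun (z.2 0)) 1 := ⟨4 * Real.exp 2 + 1, by
  filter_upwards [ev c a b] with z ⟨_, _, h3, _⟩
  have := Efun_bd h3
  rw [Pi.mul_apply, sW, abs_of_pos (by linarith)]
  simpa using this.2⟩

variable (b1 : B1Stmt) (B : B2Facts (lS c a b) 1)
include b1 B

theorem mG_bd {n : ℝ → ℝ} (hn : ContDiff ℝ ∞ n) : PG 1 1 (toG (lS c a b) (mS hn)) :=
  PG0 b1 B _ fun j => by
    obtain ⟨C, hC⟩ := m_bd (c := c) (a := a) (b := b) hn j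
    refine ⟨C, hC.mono fun z hz => ?_⟩
    change |iteratedDeriv j (fun s => n (z.1 * s)) (z.2 0)| ≤ _
    rw [iteratedDeriv_comp_const_mul (hn.of_le (by exact_mod_cast le_top))]
    simpa using hz

theorem mG_cut {n : ℝ → ℝ} (hn : ContDiff ℝ ∞ n) {c₁ : ℝ} (hc : 0 < c₁) (h0 : ∀ s ≤ c₁, n s = 0)
    (N : ℕ) (κ κ' : ℝ) (h : κ' < κ) {w : Z2 → ℝ} {φ : SG (lS c a b)} (hφ : PG 1 (w * dW κ) φ) :
    PG 1 (eW ^ N * w * dW κ') (toG _ (mS hn) * φ) := by
  refine B.mono (B.mul (PG0 b1 B _ fun j => ?_) hφ) (i_d hc N κ κ' h w)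
  obtain ⟨C, hC⟩ := m_bd (c := c) (a := a) (b := b) hn j
  refine ⟨C, hC.mono fun z hz => ?_⟩
  change |iteratedDeriv j (fun s => n (z.1 * s)) (z.2 0)| ≤ _
  rw [iteratedDeriv_comp_const_mul (hn.of_le (by exact_mod_cast le_top)), iW]
  split_ifs with h2
  · simpa using hz
  · have : n =ᶠ[𝓝 (z.1 * z.2 0)] fun _ => 0 := by
      filter_upwards [gt_mem_nhds (not_le.1 h2)] with s hs using h0 s hs.le
    simp [this.iteratedDeriv_eq j]

theorem y1_bd : PG 1 (dW 2) (toG (lS c a b) y1S) :=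
  PG0 b1 B _ fun j => ⟨2 ^ j, Eventually.of_forall fun z => by
    change |iteratedDeriv j (fun s : ℝ => 1 * Real.exp (-(2 * s))) (z.2 0)| ≤ _
    simp only [one_mul, ← neg_mul, iteratedDeriv_exp_const_mul, dW]
    simp [abs_mul]⟩

variable (A : AvgFacts (lS c a b) a b)
include A

omit b1 in
theorem pc : PG 1 sW (toG (lS c a b) cS) :=
  PG_of B cS c_le (by rw [← cG_eq, A.crd.2.1]; exact B.mono B.one one_s)

omit b1 in
theorem ps : PG 1 sW (2 + toG (lS c a b) cS) := by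
  rw [show (2 : SG (lS c a b)) = 1 + 1 by norm_num]
  exact B.add (B.add (B.mono B.one one_s) (B.mono B.one one_s)) (pc B A)

omit b1 in
theorem s0_bd : PG 1 hW (εG (lS c a b) * cG (lS c a b)) := by
  have e : εG (lS c a b) * cG (lS c a b) = toG _ (εS * cS) := by rw [map_mul, εG_eq, cG_eq]
  rw [e]
  refine PG_of B _ s0_le ?_
  rw [← e, isDer_gD.mul, A.crd.2.1, A.eps.2.2.1, zero_mul, add_zero, mul_one]
  exact B.mono A.eps.2.1 e_h

variable (hE : ContDiff ℝ ∞ Efun)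

theorem pe {m : ℝ → ℝ} (hm : IsCut m) (N : ℕ) :
    PG 1 (eW ^ N) (toG (lS c a b) (etS hE hm) - toG _ (etS hE isCut_one)) := by
  have e2 : etS hE hm - etS hE isCut_one = mS (quo_cd hm) * (εS * ((2 + cS) * y1S)) := by
    rw [etS, etS, quo_one]; ring
  obtain ⟨c₁, h1, h2⟩ := hm.2.2
  have q1 : PG 1 (1 * dW 1) ((2 + toG (lS c a b) cS) * toG _ y1S) :=
    B.mono (B.mul (ps B A) (by rw [one_mul]; exact y1_bd b1 B)) (s_d 2 1 one_lt_two 1)
  have q0 := B.mul (B.mono A.eps.2.1 A.eps.2.2.2.1) q1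
  rw [one_mul, εG_eq] at q0
  have q2 := mG_cut b1 B (quo_cd hm) h1 (fun s hs => by simp [quo, h2 s hs]) N 1 0 one_pos q0
  rw [show dW 0 = 1 from funext fun z => by simp [dW], mul_one, mul_one] at q2
  rwa [← map_sub, e2, map_mul, map_mul, map_mul, map_add, map_ofNat]

omit b1 in
theorem p1 (hb : ∀ k (p : En 2), WB 1 k (2 ^ k * Efun (p 0)) (fun q : En 2 => Efun (q 0)) p) :
    PG 1 1 (toG (lS c a b) (etS hE isCut_one)) := by
  have : PG 1 (fun z => Efun (z.2 0)) (toG (lS c a b) (ES hE)) := by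
    rw [toG_eq, B.mk_iff]
    exact ⟨mem0 _ (ES hE), fun k => ⟨2 ^ k, Eventually.of_forall fun z => by
      rw [abs_of_nonneg (Efun_nonneg _)]; exact hb k z.2⟩⟩
  rw [etS, quo_one, mul_zero, zero_mul, add_zero, map_mul, map_add, map_ofNat]
  exact B.mono (B.mul (ps B A) this) sE_le

end Layer

end Wt

open Wt in
theorem wtS (b1 : B1Stmt) (b2 : B2Stmt) (pi1 : PI1Stmt) (av : AvgStmt) : WtStmt := by
  intro c a b hc
  have B : B2Facts (lS c a b) 1 := b2 _ _ _ 1 fun _ => zero_le_one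
  have A := av.1 c a b hc
  obtain ⟨hE, hEb⟩ := Efun_an b1 pi1
  refine ⟨h_one, e_h, h_zero, d_le, hd, s0_bd B A, fun κ κ' h w φ hφ => ?_,
    fun m hm => ⟨mem0 _ (yS hm.1), etR_val hE hm ▸ mem0 _ _, mem0 _ (mS hm.1)⟩, fun m hm => ?_, ?_,
    fun m hm => ?_, fun m hm => ?_, fun m hm N κ κ' h => ⟨fun {w φ} hφ => ?_, ?_⟩⟩
  · rw [cG_eq]
    exact B.mono (B.mul (pc B A) hφ) (s_d κ κ' h w)
  · rw [yG_eq _ hm.1, mG_eq _ hm.1, y1G_eq, gD1, yS_eq, map_mul]
    exact ⟨by simpa using B.mul (mG_bd b1 B hm.1) (y1_bd b1 B), rfl, rfl⟩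
  · rw [y1G_eq, gD0, dS_y1, ev0_toG A.pull0, z_y1, map_neg, map_mul, map_ofNat, map_one]
    exact ⟨rfl, rfl⟩
  · rw [etG_eq _ hE hm, cG_eq, yG_eq _ hm.1, gD1, ev0_toG A.pull0, z_et, ← map_mul, c_et, map_mul,
      map_add, map_sub, map_ofNat, map_ofNat, map_one]
    refine ⟨by simpa using B.add (pe b1 B A hE hm 0) (p1 B A hE hEb), ?_, rfl, rfl, rfl⟩
    rw [toG_eq, B.pos_iff]
    refine ⟨1, one_pos, (pos_et hm).mono fun z hz => ?_⟩
    rwa [etR_val hE hm] at hz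
  · rw [mG_eq _ hm.1, gD1, ev0_toG A.pull0, z_m hm, map_one]
    exact ⟨mG_bd b1 B hm.1, rfl, rfl⟩
  · obtain ⟨c₁, h1, h2⟩ := hm.2.2
    rw [mG_eq _ hm.1, ← map_one (toG _), ← map_sub, one_sub_m hm]
    exact mG_cut b1 B _ h1 (fun s hs => by simp [h2 s hs]) N κ κ' h hφ
  · rw [etG_eq _ hE hm, etG_eq _ hE isCut_one]
    exact pe b1 B A hE hm N

end Pool.Agent.Lib.MP_df9110_gt
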