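import Pool.Agent.Lib.MP_df9110_gt.Ca2

/-! The approximate solutions near the boundary `τ = 0`. -/

namespace Pool.Agent.Lib.MP_df9110_gt

open Filter Topology Set
open scoped ContDiff

namespace ZInf

open ZId

variable {P : Prof} {c : ℝ}

theorem dP_congr {f g : En 2 → ℝ} {ℓ : En 2} (h : f =ᶠ[𝓝 ℓ] g) (j : Fin 2) :
    δP j f ℓ = δP j g ℓ := by
  simp only [δP, EP, fun i => (pdn_congr h i).self_of_nhds]

theorem dP_const (a : ℝ) (j : Fin 2) (ℓ : En 2) : δP j (fun _ => a) ℓ = 0 := by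
  simp [δP, EP, pdn]

theorem dP_sum (f : En 2 → ℝ) {ℓ : En 2} (h : τP ℓ = 0) :
    ℓ 0 * δP 0 f ℓ + ℓ 1 * δP 1 f ℓ = 0 := by
  rw [τP] at h
  simp only [δP, EP]
  linear_combination (ℓ 0 * pdn 0 f ℓ + ℓ 1 * pdn 1 f ℓ) * h

theorem near {H : Chart} (hH : H.Ok P c) {ε : ℝ} {ℓ : En 2} (hρ : ε ^ 2 ≤ H.ρ) (hℓ : ℓ ∈ Dz ε)
    (hτ : τP ℓ < H.τ₀) (J : Bool) : ∀ᶠ x in 𝓝 ℓ, H.φ J x = H.c₀ ∧
      H.ξ J x = H.ξi (x 0 + τP x / 2) ∧ ∀ w, H.K J w x = H.K false w x := by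
  have o : IsOpen (Dz ε) := (isOpen_lt continuous_const (continuous_apply 0)).inter
    ((isOpen_lt continuous_const (continuous_apply 1)).inter
      (isOpen_lt continuous_const cd_τ.continuous))
  filter_upwards [o.mem_nhds hℓ, (isOpen_lt cd_τ.continuous continuous_const).mem_nhds hτ]
    with x hx hx'
  exact hH.inf J x ⟨by linarith [hx.1], by linarith [hx.2.1], by linarith [hx.2.2]⟩ (le_of_lt hx')

theorem indep {Z : ZD P c} (H : Z.H.Ok P c) {ε : ℝ} {ℓ : En 2} (hρ : ε ^ 2 ≤ Z.H.ρ)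
    (hℓ : ℓ ∈ Dz ε) (hτ : τP ℓ < Z.H.τ₀) (J : Bool) :
    (∀ w, Z.p J ε w ℓ = Z.p false ε w ℓ) ∧ ∀ i j, Z.q J ε i j ℓ = Z.q false ε i j ℓ := by
  have h1 := near H hρ hℓ hτ J
  have h2 := near H hρ hℓ hτ false
  have eφ : Z.H.φ J =ᶠ[𝓝 ℓ] Z.H.φ false := by
    filter_upwards [h1, h2] with x a b using a.1.trans b.1.symm
  have eξ : Z.H.ξ J =ᶠ[𝓝 ℓ] Z.H.ξ false := by
    filter_upwards [h1, h2] with x a b using a.2.1.trans b.2.1.symm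
  have eK : ∀ w, Z.H.K J w =ᶠ[𝓝 ℓ] Z.H.K false w := fun w => by
    filter_upwards [h1] with x a using a.2.2 w
  have a1 := eφ.self_of_nhds
  have a2 := eξ.self_of_nhds
  have a3 := fun w => (eK w).self_of_nhds
  have a4 := dP_congr eφ
  have a5 := dP_congr eξ
  have a6 := fun w => dP_congr (eK w)
  have hp : ∀ w, Z.p J ε w ℓ = Z.p false ε w ℓ := fun w => by
    simp only [ZD.p, ZD.at', ZD.o, ZD.L, Chart.ΦO, Chart.ΦL, Chart.σ, a1, a2, a3]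
  refine ⟨hp, fun i j => ?_⟩
  simp only [ZD.q, ZD.qo, ZD.Rin, ZD.oh, ZD.aA, ZD.om, ZD.at', ZD.o, ZD.L, Chart.ΦO, Chart.ΦL,
    Chart.σ, Chart.n, Chart.S, Chart.dS, hp, a1, a2, a3, a4, a5, a6]

theorem exp_bd {x C e : ℝ} (he : 0 ≤ e) (he' : e ≤ 1) (h : |x| ≤ C * e) :
    |Real.exp (-(2 * x)) - 1| ≤ 2 * |C| * Real.exp (2 * |C|) * e := by
  have h1 : C * e ≤ |C| * e := mul_le_mul_of_nonneg_right (le_abs_self C) he
  have h2 : |C| * e ≤ |C| := mul_le_of_le_one_right (abs_nonneg C) he'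
  have h3 := abs_le.1 h
  have h4 : 1 ≤ Real.exp (2 * |C|) := Real.one_le_exp (by positivity)
  have h5 : 0 ≤ |C| * e := by positivity
  have h6 : Real.exp (-(2 * x)) ≤ Real.exp (2 * |C|) := Real.exp_le_exp.2 (by linarith)
  have h7 := Real.add_one_le_exp (-(2 * x))
  have h8 := Real.add_one_le_exp (2 * x)
  have h9 : Real.exp (2 * x) * Real.exp (-(2 * x)) = 1 := by rw [← Real.exp_add]; simp
  have h10 := Real.exp_pos (-(2 * x))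
  refine abs_le.2 ⟨by nlinarith, ?_⟩
  have h11 : Real.exp (-(2 * x)) - 1 ≤ 2 * (|C| * e) * Real.exp (-(2 * x)) := by nlinarith
  nlinarith

theorem algI {ν ε φ l K t A e X p S d T iA δ : ℝ} (hε : ε ≠ 0) (hφ : φ ≠ 0)
    (hK : K ≠ 0) (ht : t ≠ 0) (hA : A ≠ 0) (hX : l * K / ε * X = 4 - t ^ 2 * A * e)
    (hp : p * φ = ν * K * t * e) :
    ν ^ 2 / (ε * φ) * (l * δ * (K ^ 2 * X / (4 * (t * A))) +
        ε / (K * (t * A)) * (K * (l * S + δ * -K) + l * -K * S) - 0 * d * iA) + T =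
      -(δ * (ν * p / 4)) + T := by
  have e2 : p = ν * K * t * e / φ := by rw [← hp]; field_simp
  have e1 : l * X = (4 - t ^ 2 * A * e) * ε / K := by
    rw [← hX]; field_simp
  have e3 : l * δ * (K ^ 2 * X / (4 * (t * A))) = δ * (K ^ 2 * (l * X) / (4 * (t * A))) := by ring
  rw [e3, e1, e2]
  field_simp
  ring

theorem algJ {ε c₀ P0 P1 lc A Cl g : ℝ} (hε : ε ≠ 0) (hc : c₀ ≠ 0) (hlc : lc ≠ 0) (hA : A ≠ 0)
    (hCl : Cl ≠ 0) (h3 : A = lc * P1 ^ 2) (h6 : Cl = 4 * P0 ^ 2 * lc * A⁻¹) :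
    (ε * c₀) ^ 2 / (ε * c₀ ^ 3) * (Cl⁻¹ * g - Cl⁻¹) * (P0 * (lc * P1 * A⁻¹ * c₀)) *
      (P0 * (lc * P1 * A⁻¹ * c₀)) = ε * c₀ / 4 * (g - 1) := by
  have hP : P0 ≠ 0 := by
    rintro rfl
    simp [h6] at hCl
  have hP1 : P1 ≠ 0 := by
    rintro rfl
    simp [h3] at hA
  rw [h6, h3]
  field_simp

/-- The contribution of the collar `w` at a point of the boundary. -/
theorem inner {Z : ZD P c} (w : Fin 2) {ε : ℝ} {ℓ : En 2}
    (H : Z.H.Ok P c) (c1 : 0 < Z.c₁) (c2 : 8 * Z.c₁ ≤ Z.H.ρ * Z.H.k₀) (hε : 0 < ε)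
    (hρ : ε ^ 2 ≤ Z.H.ρ) (hℓ : ℓ ∈ Dz ε) (hτ : τP ℓ = 0) (h0 : 0 ≤ ℓ w) (h1 : ℓ w < Z.H.ρ)
    (hla : Z.o false ε Z.s.la ℓ = 0) (F : CF Z w (ε, Z.H.ΦL false w ε ℓ)) (j : Fin 2) :
    ℓ 0 * Z.Rin false ε w 0 j ℓ + ℓ 1 * Z.Rin false ε w 1 j ℓ =
      -((if j = w then 1 else 0) * (Z.ν ε * Z.p false ε w ℓ / 4)) +
        Z.ν ε / 4 * (Real.exp (-(2 * Z.L false ε w (Z.G w).gam ℓ)) - 1) := by
  have ρ0 := H.pos.2.1
  have nb : ℓ ∈ Nb Z.H.ρ := ⟨by linarith [hℓ.1], by linarith [hℓ.2.1], by linarith [hℓ.2.2]⟩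
  have es : ε * Z.H.ΦL false w ε ℓ 0 = ℓ w * Z.H.K false w ℓ := by
    change ε * (ℓ w * Z.H.K false w ℓ / ε) = _
    field_simp
  have hn := near H hρ hℓ (hτ ▸ H.pos.2.2.1) false
  have eφ : Z.H.φ false =ᶠ[𝓝 ℓ] fun _ => Z.H.c₀ := hn.mono fun x a => a.1
  have φ1 : Z.H.φ false ℓ = Z.H.c₀ := eφ.self_of_nhds
  have n1 : ∀ i, Z.H.n false i ℓ = -Z.H.c₀ := fun i => by
    rw [Chart.n, dP_congr eφ, dP_const, φ1, zero_sub]
  obtain ⟨-, k0, -, hμ, -⟩ := H.col false w ℓ nb h1.le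
  have K0 : 0 < Z.H.K false w ℓ := H.pos.2.2.2.1.trans_le k0
  have he : P.Mu w (ε * Z.H.ΦL false w ε ℓ 0) (Z.H.ΦL false w ε ℓ 1) = τP ℓ * Z.H.φ false ℓ := by
    rw [es]; exact hμ
  have hΦ : P.Φ w ε (Z.H.ΦL false w ε ℓ) = Z.H.ΦO false ℓ := by
    rw [Prof.Φ, he]; rfl
  obtain ⟨V, e1, e2, e3, -, -, e5, e6, e7, e8, e9, e10, e11⟩ := F
  have m0 : Z.H.ρ / 2 ≤ ℓ w → mcut Z.c₁ (ε * Z.H.ΦL false w ε ℓ 0) = 0 := fun h => by
    rw [es]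
    refine Real.smoothTransition.zero_of_nonpos ?_
    rw [sub_nonpos, le_div_iff₀ c1]
    nlinarith [mul_le_mul h k0 H.pos.2.2.2.1.le h0]
  simp only [hΦ] at e7 e8 e9 e10 e11
  have σ0 : 0 ≤ Z.H.σ false w ε ℓ := div_nonneg (mul_nonneg h0 K0.le) hε.le
  replace e2 : val (cG (P.lL c w)) (ε, Z.H.ΦL false w ε ℓ) = Z.H.σ false w ε ℓ := e2
  have t0 : 0 < Z.at' false ε w ℓ := by
    rw [ZD.at', ZD.L, V.ath]; positivity
  have hal : Z.L false ε w ((Z.G w).al expG) ℓ =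
      ℓ w * Z.H.K false w ℓ / ε * Z.at' false ε w ℓ := by
    have := V.al'
    rw [e2] at this
    change _ = Z.H.σ false w ε ℓ * _
    rw [ZD.at', ZD.L, ZD.L, V.ath, Real.exp_sub]
    field_simp
    linear_combination -this
  have far : Z.H.ρ / 2 ≤ ℓ w → Z.L false ε w (Z.G w).lam ℓ = 0 ∧
      Z.L false ε w (Z.G w).y ℓ = 0 := fun h => by
    have := m0 h
    exact ⟨(e6 0).trans (by simp [this]), e5.trans (by simp [this])⟩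
  have al1 : Z.H.ρ / 2 ≤ ℓ w → Z.L false ε w ((Z.G w).al expG) ℓ = 1 := fun h => by
    have := (far h).2
    rw [ZD.L] at this ⊢
    rw [V.al, this]; simp
  have sw : ℓ w + ℓ (w + 1) = 1 := by
    have := sum_w ℓ w
    rw [Fin.sum_univ_two] at this
    rw [τP] at hτ
    linarith
  have go := gl_out Z.H ρ0 (w := w + 1) (ℓ := ℓ) (by linarith [H.pos.2.2.2.2])
  have p1 : Z.p false ε w ℓ * Z.H.c₀ = Z.ν ε * Z.H.K false w ℓ * Z.at' false ε w ℓ *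
      Real.exp (2 * (Z.L false ε w (Z.G w).uw ℓ + Z.L false ε w (Z.G w).lam ℓ)) := by
    rw [ZD.p, go, gl_in Z.H ρ0 fun h => (far h).1, gl_in Z.H ρ0, add_zero, ZD.o, ← e10, φ1]
    · simp only [ZD.L]
      have := H.pos.1.ne'
      field_simp
    · intro h
      have := hal.symm.trans (al1 h)
      have h' : ℓ w ≠ 0 := by linarith [ρ0] |> ne_of_gt
      field_simp at this ⊢
      linarith
  have hX : ℓ w * Z.H.K false w ℓ / ε * Z.L false ε w (Z.G w).Xi2 ℓ =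
      4 - Z.at' false ε w ℓ ^ 2 * Real.exp (Z.L false ε w (Z.G w).lA ℓ) *
        Real.exp (2 * (Z.L false ε w (Z.G w).uw ℓ + Z.L false ε w (Z.G w).lam ℓ)) := by
    have a1 := V.xi
    have a2 := eq_inv_of_mul_eq_one_right V.hr
    rw [a2, e2, Real.exp_add, Real.exp_add, two_mul, Real.exp_add] at a1
    rw [ZD.at', ZD.L, ZD.L, V.ath]
    refine a1.trans ?_
    simp only [ZD.L]
    ring
  have s1 : ℓ 0 + ℓ 1 = 1 := by rw [τP] at hτ; linarith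
  have sS : ℓ 0 * Z.H.S false w 0 ℓ + ℓ 1 * Z.H.S false w 1 ℓ = -Z.H.K false w ℓ := by
    simp only [Chart.S]
    linear_combination dP_sum (Z.H.K false w) hτ - Z.H.K false w ℓ * s1
  have sw' : ∀ a : ℝ, ℓ 0 * (if 0 = w then a else 0) + ℓ 1 * (if 1 = w then a else 0) = ℓ w * a :=
    fun a => by fin_cases w <;> simp
  have sd : ℓ 0 * Z.H.dS false w 0 ℓ + ℓ 1 * Z.H.dS false w 1 ℓ = 0 := by
    simp only [Chart.dS]
    linear_combination sw' (Z.H.K false w ℓ) + ℓ w * sS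
  have a3 := V.A
  have a6 := V.Cl
  have la0 : val (Z.G w).la (ε, Z.H.ΦL false w ε ℓ) = 0 := e7.trans hla
  rw [e3, he, hτ] at a3
  rw [Real.exp_neg, la0, Real.exp_zero, mul_one] at a6
  replace a3 : Real.exp (val (Z.G w).lAo (ε, Z.H.ΦL false w ε ℓ)) =
      Real.exp (val (Z.G w).lc (ε, Z.H.ΦL false w ε ℓ)) *
        val ((Z.G w).P1 gD expG) (ε, Z.H.ΦL false w ε ℓ) ^ 2 := by
    rw [a3]; ring
  have b1 := algJ (g := Real.exp (-(2 * Z.L false ε w (Z.G w).gam ℓ))) hε.ne' H.pos.1.ne'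
    (Real.exp_ne_zero _) (Real.exp_ne_zero _) (Real.exp_ne_zero _) a3 a6
  have oh1 : ∀ i, Z.oh false ε w i ℓ = val ((Z.G w).P0 expG) (ε, Z.H.ΦL false w ε ℓ) *
      (Real.exp (val (Z.G w).lc (ε, Z.H.ΦL false w ε ℓ)) *
        val ((Z.G w).P1 gD expG) (ε, Z.H.ΦL false w ε ℓ) *
          (Real.exp (val (Z.G w).lAo (ε, Z.H.ΦL false w ε ℓ)))⁻¹ * Z.H.c₀) := fun i => by
    rw [ZD.oh, n1, hτ]
    simp only [ZD.L, V.b, Real.exp_neg]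
    ring
  have dC : Z.L false ε w (expG (-(Z.G w).lC) - expG (-(Z.G w).lCl)) ℓ =
      (Real.exp (val (Z.G w).lCl (ε, Z.H.ΦL false w ε ℓ)))⁻¹ *
        Real.exp (-(2 * Z.L false ε w (Z.G w).gam ℓ)) -
        (Real.exp (val (Z.G w).lCl (ε, Z.H.ΦL false w ε ℓ)))⁻¹ := by
    rw [ZD.L, V.dC, V.lC, neg_add, Real.exp_add, Real.exp_neg]
    rfl
  have b2 := algI (S := Z.H.S false w j ℓ) (d := Z.H.dS false w j ℓ)
    (iA := Z.L false ε w (expG (-(Z.G w).lAo)) ℓ) (δ := if j = w then 1 else 0)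
    (T := Z.ν ε / 4 * (Real.exp (-(2 * Z.L false ε w (Z.G w).gam ℓ)) - 1)) hε.ne' H.pos.1.ne'
    K0.ne' t0.ne' (Real.exp_ne_zero _) hX p1
  have eA : Z.aA false ε w ℓ = Z.at' false ε w ℓ * Real.exp (Z.L false ε w (Z.G w).lA ℓ) := by
    rw [ZD.aA, ZD.L, V.eA]; rfl
  rw [← b2, ← eA]
  have b3 : Z.ν ε / 4 * (Real.exp (-(2 * Z.L false ε w (Z.G w).gam ℓ)) - 1) =
      Z.ν ε ^ 2 / (ε * Z.H.c₀ ^ 3) * Z.L false ε w (expG (-(Z.G w).lC) - expG (-(Z.G w).lCl)) ℓ *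
        (ℓ 0 * Z.oh false ε w 0 ℓ + ℓ 1 * Z.oh false ε w 1 ℓ) * Z.oh false ε w j ℓ := by
    rw [dC, oh1, oh1, oh1, ← add_mul, s1, one_mul, ZD.ν, b1]
  rw [b3]
  simp only [ZD.Rin, φ1]
  have c1 := sw' (Z.H.S false w j ℓ)
  by_cases hj : j = w
  · simp only [hj, and_true, if_true] at c1 ⊢
    have c3 := sw' (Z.H.K false w ℓ ^ 2 * Z.L false ε w (Z.G w).Xi2 ℓ / (4 * Z.aA false ε w ℓ))
    linear_combination Z.ν ε ^ 2 / (ε * Z.H.c₀) * (c3 +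
      ε / (Z.H.K false w ℓ * Z.aA false ε w ℓ) * (Z.H.K false w ℓ * (c1 + sS) +
        ℓ w * Z.H.S false w w ℓ * sS) -
      Z.H.dS false w w ℓ * Z.L false ε w (expG (-(Z.G w).lAo)) ℓ * sd)
  · simp only [hj, and_false, if_false]
    linear_combination Z.ν ε ^ 2 / (ε * Z.H.c₀) * (
      ε / (Z.H.K false w ℓ * Z.aA false ε w ℓ) * (Z.H.K false w ℓ * c1 +
        ℓ w * Z.H.S false w j ℓ * sS) -
      Z.H.dS false w j ℓ * Z.L false ε w (expG (-(Z.G w).lAo)) ℓ * sd)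

theorem side {Z : ZD P c} (w : Fin 2) {ε B : ℝ} {ℓ : En 2}
    (H : Z.H.Ok P c) (c1 : 0 < Z.c₁) (c2 : 8 * Z.c₁ ≤ Z.H.ρ * Z.H.k₀) (hε : 0 < ε)
    (hρ : ε ^ 2 ≤ Z.H.ρ) (hℓ : ℓ ∈ Dz ε) (hτ : τP ℓ = 0) (h0 : 0 ≤ ℓ w) (hB : 0 ≤ B)
    (hla : Z.o false ε Z.s.la ℓ = 0) (F : ℓ w < Z.H.ρ → CF Z w (ε, Z.H.ΦL false w ε ℓ) ∧
      |Real.exp (-(2 * Z.L false ε w (Z.G w).gam ℓ)) - 1| ≤ B) :
    ∃ e : ℝ, |e| ≤ B ∧ ∀ j,
      ℓ 0 * Z.H.gl w ℓ (Z.Rin false ε w 0 j ℓ)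
        (if 0 = w ∧ j = w then -(Z.ν ε * Z.p false ε w ℓ / (4 * ℓ w)) else 0) +
      ℓ 1 * Z.H.gl w ℓ (Z.Rin false ε w 1 j ℓ)
        (if 1 = w ∧ j = w then -(Z.ν ε * Z.p false ε w ℓ / (4 * ℓ w)) else 0) =
      -((if j = w then 1 else 0) * (Z.ν ε * Z.p false ε w ℓ / 4)) + Z.ν ε / 4 * e := by
  have ρ0 := H.pos.2.1
  have out : ℓ w ≠ 0 → ∀ j,
      ℓ 0 * (if 0 = w ∧ j = w then -(Z.ν ε * Z.p false ε w ℓ / (4 * ℓ w)) else 0) +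
      ℓ 1 * (if 1 = w ∧ j = w then -(Z.ν ε * Z.p false ε w ℓ / (4 * ℓ w)) else 0) =
      -((if j = w then 1 else 0) * (Z.ν ε * Z.p false ε w ℓ / 4)) := fun h j => by
    have e : ℓ w * (Z.ν ε * Z.p false ε w ℓ / (4 * ℓ w)) = Z.ν ε * Z.p false ε w ℓ / 4 := by
      field_simp
    rw [← e]
    generalize Z.ν ε * Z.p false ε w ℓ / (4 * ℓ w) = a
    fin_cases w <;> fin_cases j <;> simp
  rcases lt_or_ge (3 * Z.H.ρ / 4) (ℓ w) with h | h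
  · refine ⟨0, by simpa using hB, fun j => ?_⟩
    rw [gl_out Z.H ρ0 h, gl_out Z.H ρ0 h, out (by linarith |> ne_of_gt), mul_zero, add_zero]
  have h1 : ℓ w < Z.H.ρ := by linarith
  obtain ⟨F1, F2⟩ := F h1
  have hi := inner w H c1 c2 hε hρ hℓ hτ h0 h1 hla F1
  refine ⟨Real.smoothTransition (3 - 4 * ℓ w / Z.H.ρ) *
    (Real.exp (-(2 * Z.L false ε w (Z.G w).gam ℓ)) - 1), ?_, fun j => ?_⟩
  · rw [abs_mul, abs_of_nonneg (Real.smoothTransition.nonneg _)]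
    exact (mul_le_of_le_one_left (abs_nonneg _) (Real.smoothTransition.le_one _)).trans F2
  simp only [Chart.gl]
  rcases eq_or_ne (ℓ w) 0 with h2 | h2
  · have e : Real.smoothTransition (3 - 4 * ℓ w / Z.H.ρ) = 1 :=
      Real.smoothTransition.one_of_one_le (by rw [h2]; norm_num)
    rw [e]
    linear_combination hi j
  · linear_combination Real.smoothTransition (3 - 4 * ℓ w / Z.H.ρ) * hi j +
      (1 - Real.smoothTransition (3 - 4 * ℓ w / Z.H.ρ)) * out h2 j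

theorem outer {Z : ZD P c} {ε : ℝ} {ℓ : En 2} (H : Z.H.Ok P c) (hε : 0 < ε)
    (hρ : ε ^ 2 ≤ Z.H.ρ) (hℓ : ℓ ∈ Dz ε) (hτ : τP ℓ = 0) (hla : Z.o false ε Z.s.la ℓ = 0)
    (j : Fin 2) : ℓ 0 * Z.qo false ε 0 j ℓ + ℓ 1 * Z.qo false ε 1 j ℓ = Z.ν ε / 4 := by
  have hn := near H hρ hℓ (hτ ▸ H.pos.2.2.1) false
  have eφ : Z.H.φ false =ᶠ[𝓝 ℓ] fun _ => Z.H.c₀ := hn.mono fun x a => a.1
  have φ1 : Z.H.φ false ℓ = Z.H.c₀ := eφ.self_of_nhds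
  have n1 : ∀ i, Z.H.n false i ℓ = -Z.H.c₀ := fun i => by
    rw [Chart.n, dP_congr eφ, dP_const, φ1, zero_sub]
  have s1 : ℓ 0 + ℓ 1 = 1 := by rw [τP] at hτ; linarith
  have s2 := dP_sum (Z.H.ξ false) hτ
  have e : Z.ν ε / 4 = Z.ν ε ^ 2 / ε * (Z.H.c₀ ^ 2 / (4 * Z.H.c₀ ^ 3)) := by
    have := H.pos.1.ne'
    rw [ZD.ν]; field_simp
  rw [e]
  simp only [ZD.qo, ZD.om, n1, φ1, hla, hτ, neg_zero, Real.exp_zero]
  linear_combination Z.ν ε ^ 2 / ε * (Z.H.c₀ ^ 2 / (4 * Z.H.c₀ ^ 3)) * s1 +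
    Z.ν ε ^ 2 / ε * (δP j (Z.H.ξ false) ℓ * Real.exp (-Z.o false ε Z.s.lc ℓ) / Z.H.c₀) * s2

theorem la_zero (av : AvgStmt) {g : P.Geo c} {Z : ZD P c} {N : ℕ} {Cb : ℝ} (hZ : Z.Ok g N Cb) :
    ∀ᶠ z in P.lO, val Z.s.la (z.1, ![0, z.2 1]) = 0 := by
  have A : AvgFacts P.lO _ _ := (av.2 P.M₀ (P.xL - P.δ) (P.xR + P.δ)).1
  have h := ev.alg (l := P.lO) 0
  rw [map_zero, ← hZ.fin.ev_la] at h
  filter_upwards [h, val_pb A.pull0 Z.s.la] with z h1 h2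
  exact h2.symm.trans h1

end ZInf

theorem zinf (_b1 : B1Stmt) (b2 : B2Stmt) (av : AvgStmt) (wt : WtStmt) (lb : LayBasicStmt) :
    ZInfStmt := by
  intro P c g Z N Cb hZ
  have H := hZ.chart
  obtain ⟨C, hC⟩ := hZ.fin.gam
  have t : Tendsto (fun ε : ℝ => ε ^ 2) (𝓝[>] 0) (𝓝 0) := by
    simpa using ((continuous_pow 2).tendsto (0 : ℝ)).mono_left nhdsWithin_le_nhds
  refine ⟨2 * (2 * |C| * Real.exp (2 * |C|)), ?_⟩
  filter_upwards [eventually_all.2 fun w => ev_fam.1 ((ZId.cf b2 av wt lb hZ w).and (hC w)),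
    ev_fam.1 (ZInf.la_zero av hZ), self_mem_nhdsWithin, t.eventually (ge_mem_nhds H.pos.2.1),
    nhdsWithin_le_nhds (ge_mem_nhds (zero_lt_one' ℝ))] with ε h hO hε hρ hε1
  have hε' : 0 < ε := hε
  refine ⟨fun J ℓ hℓ hτ => ZInf.indep H hρ hℓ hτ J, fun X hX => ?_⟩
  set ℓ : En 2 := ![X, 1 - X] with hℓ
  have l0 : ℓ 0 = X := rfl
  have l1 : ℓ 1 = 1 - X := rfl
  have hτ : τP ℓ = 0 := by rw [τP, l0, l1]; ring
  have h0 : ∀ w, 0 ≤ ℓ w := fun w => by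
    fin_cases w
    · exact hX.1
    · exact sub_nonneg.2 hX.2
  have e2 : 0 < ε ^ 2 := by positivity
  have hD : ℓ ∈ Dz ε := ⟨by linarith [h0 0], by linarith [h0 1], by linarith⟩
  have nb : ℓ ∈ Nb Z.H.ρ := ⟨by linarith [hD.1], by linarith [hD.2.1], by linarith [hD.2.2]⟩
  obtain ⟨-, -, -, m1, m2, -⟩ := H.sm false ℓ nb
  have hla : Z.o false ε Z.s.la ℓ = 0 := by
    have := hO (Z.H.ΦO false ℓ) ⟨m1, m2⟩
    rw [ZD.o, Chart.ΦO, hτ, zero_mul]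
    exact this
  have eN : 0 ≤ ε ^ N := by positivity
  have key := fun w => ZInf.side (B := 2 * |C| * Real.exp (2 * |C|) * ε ^ N) w H hZ.c₁_pos hZ.c₁_le
    hε' hρ hD hτ (h0 w) (by positivity) hla fun h1 => by
      obtain ⟨-, k0, k1, k3, k2, -⟩ := H.col false w ℓ nb h1.le
      have σ0 : 0 ≤ Z.H.σ false w ε ℓ :=
        div_nonneg (mul_nonneg (h0 w) (H.pos.2.2.2.1.trans_le k0).le) hε'.le
      have es : ε * Z.H.ΦL false w ε ℓ 0 = ℓ w * Z.H.K false w ℓ := mul_div_cancel₀ _ hε'.ne'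
      obtain ⟨F1, F2⟩ := h w (Z.H.ΦL false w ε ℓ) ⟨lt_of_lt_of_le (by norm_num) σ0,
        by rw [es]; exact (abs_lt.1 k1).2, k2⟩
      refine ⟨F1, ZInf.exp_bd eN (pow_le_one₀ hε'.le hε1) ?_⟩
      have F3 := F2 (by rw [es]; exact k3.trans (by rw [hτ, zero_mul])) σ0
      have F4 : Z.L false ε w (Z.G w).gam ℓ = _ := F1.cor 1
      rw [F4, abs_mul, abs_of_nonneg ((ZId.isCut hZ.c₁_pos).2.1 _).1]
      exact (mul_le_of_le_one_left (abs_nonneg _) ((ZId.isCut hZ.c₁_pos).2.1 _).2).trans F3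
  obtain ⟨e0, a0, b0⟩ := key 0
  obtain ⟨e1, a1, b1⟩ := key 1
  refine ⟨1 + e0 + e1, ?_, fun j => ?_⟩
  · rw [add_assoc, add_sub_cancel_left]
    exact (abs_add_le _ _).trans (by linarith)
  have ν0 : Z.ν ε ≠ 0 := (mul_pos hε' H.pos.1).ne'
  have o := ZInf.outer H hε' hρ hD hτ hla j
  have s : X * Z.q false ε 0 j ℓ + (1 - X) * Z.q false ε 1 j ℓ =
      Z.ν ε / 4 * (1 + e0 + e1 - Z.p false ε j ℓ) := by
    have d : (if j = 0 then 1 else 0) * (Z.ν ε * Z.p false ε 0 ℓ / 4) +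
        (if j = 1 then 1 else 0) * (Z.ν ε * Z.p false ε 1 ℓ / 4) =
        Z.ν ε * Z.p false ε j ℓ / 4 := by
      fin_cases j <;> simp
    rw [← l1, ← l0, ZD.q, ZD.q, Fin.sum_univ_two, Fin.sum_univ_two]
    linear_combination o + b0 j + b1 j - d
  rw [s]
  field_simp
  ring

end Pool.Agent.Lib.MP_df9110_gt
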