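import Pool.Agent.Lib.MP_df9110_gt.NPln

-- part Pool.Agent.Lib.MP_df9110_gt.LinkOut
section

/-! The scalar curvature of the link in the outer region. -/

namespace Pool.Agent.Lib.MP_df9110_gt

open Filter Topology Set
open scoped ContDiff

namespace LinkOut

section Val

variable {l : Filter Z2}

theorem val_mk (F : SmF l) : ∀ᶠ z in l, val (mkG l F) z = F.1 z.1 z.2 := mkG_eq.1 (mkG_rep _)

theorem val_gm {F : ℝ → En 2 → ℝ} (h : F ∈ SmF l) : ∀ᶠ z in l, val (gm l F) z = F z.1 z.2 := by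
  rw [gm_eq h]
  exact val_mk _

theorem val_ev {a b : ℝ} (A : AvgFacts l a b) (φ : SG l) :
    ∀ᶠ z in l, z.2 0 = 0 → val (ev0 φ) z = val φ z := by
  filter_upwards [val_gm (A.pull0.mem (rep φ))] with z hz h0
  refine hz.trans ?_
  have : ![0, z.2 1] = z.2 := by
    funext j
    fin_cases j
    · exact h0.symm
    · rfl
  rw [this]
  rfl

theorem val_of_ev {a b : ℝ} (A : AvgFacts l a b) {φ ψ : SG l} (h : ev0 φ = ev0 ψ) :
    ∀ᶠ z in l, z.2 0 = 0 → val φ z = val ψ z := by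
  filter_upwards [val_ev A φ, val_ev A ψ] with z h1 h2 h0
  rw [← h1 h0, h, h2 h0]

theorem val_ev_zero {a b : ℝ} (A : AvgFacts l a b) {φ : SG l} (h : ev0 φ = 0) :
    ∀ᶠ z in l, z.2 0 = 0 → val φ z = 0 := by
  have h1 := val_mk (l := l) 0
  rw [map_zero] at h1
  filter_upwards [val_ev A φ, h1] with z h1 h2 h0
  rw [← h1 h0, h, h2]
  rfl

def lk {R : Type} [CommRing R] (D : R → R) (a b : R) : R :=
  -(D a + D b + a ^ 2 + b ^ 2 + a * b + 3)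

theorem ev_kv [OpF l] {a b : ℝ} (A : AvgFacts l a b) (B : B2Facts l 1)
    {e la bp lc u v : SG l} (h1 : ev0 la = 0) (h2 : ev0 lc = 0) (O : Out (SG l))
    (hO : O = ⟨e, cG l, la, bp, lc, u, v⟩) :
    ev0 (O.kv gD expG 3 + O.kv gD expG 6 + O.kv gD expG 7) =
      ev0 (lk (gD 1) (gD 1 u) (gD 1 v)) := by
  have hc := A.ev_c
  have h3 : ev0 (expG la) = 1 := by rw [A.ev_exp, h1, B.exp_zero]
  have h4 : ev0 (expG lc) = 1 := by rw [A.ev_exp, h2, B.exp_zero]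
  have h5 : ev0 (gD 1 lc) = 0 := by rw [← A.ev_D1, h2, (isDer_gD (l := l)).zero]
  subst hO
  simp only [ev0, pb_eq A.pull0] at *
  simp only [Out.kv, Out.k22, Out.k34, Out.jh, Out.t₁, Out.t₂, Out.Dd, lk, Matrix.cons_val,
    map_add, map_sub, map_mul, map_neg, map_pow, map_smul, map_one, map_ofNat, hc, h3, h4, h5]
  algebra

theorem val_lk [OpF l] (u v : SG l) : ∀ᶠ z in l, val (lk (gD 1) (gD 1 u) (gD 1 v)) z =
    lk (pdn 1) (pdn 1 (vl u z.1)) (pdn 1 (vl v z.1)) z.2 := by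
  have := val_mk (l := l) (lk (sfD l 1) (sfD l 1 (rep u)) (sfD l 1 (rep v)))
  simp only [lk, map_neg, map_add, map_pow, map_mul, map_ofNat, mkG_sfD, mkG_rep] at this
  exact this

end Val

section Calc

variable {ξ : ℝ → ℝ} {X : ℝ}

theorem cd_deriv {f : ℝ → ℝ} {x : ℝ} (h : ContDiffAt ℝ ∞ f x) : ContDiffAt ℝ ∞ (deriv f) x :=
  (h.fderiv_right (m := ∞) (by simp)).clm_apply contDiffAt_const

theorem has_vec (h : DifferentiableAt ℝ ξ X) :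
    HasDerivAt (fun x => (![0, ξ x] : En 2)) (deriv ξ X • Pi.single 1 1) X := by
  rw [hasDerivAt_pi]
  intro j
  fin_cases j
  · simpa using hasDerivAt_const X (0 : ℝ)
  · simpa using h.hasDerivAt

theorem has_comp {F : En 2 → ℝ} (h : DifferentiableAt ℝ ξ X)
    (hF : DifferentiableAt ℝ F ![0, ξ X]) :
    HasDerivAt (fun x => F ![0, ξ x]) (pdn 1 F ![0, ξ X] * deriv ξ X) X := by
  have := hF.hasFDerivAt.comp_hasDerivAt X (has_vec h)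
  rw [map_smul, smul_eq_mul, mul_comm] at this
  exact this

theorem log_der {F : En 2 → ℝ} {f : ℝ → ℝ} {e : ℝ} (he : e ≠ 0) (h : ContDiffAt ℝ ∞ ξ X)
    (hF : ContDiffAt ℝ ∞ F ![0, ξ X]) (hf : f =ᶠ[𝓝 X] fun x => e * Real.exp (2 * F ![0, ξ x])) :
    (fun x => deriv f x / (2 * f x)) =ᶠ[𝓝 X] fun x => pdn 1 F ![0, ξ x] * deriv ξ x := by
  have h1 : ContDiffAt ℝ 1 ξ X := h.of_le (by simp)
  have h2 := (has_vec (h.differentiableAt (by simp))).continuousAt.eventually (ev_diff hF)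
  filter_upwards [hf, hf.deriv, h1.eventually (by simp), h2] with x a1 a2 a3 a4
  have := (((has_comp (a3.differentiableAt (by simp)) a4).const_mul 2).exp.const_mul e).deriv
  rw [a1, a2, this]
  field_simp

theorem link_eq {U V : En 2 → ℝ} {n f₀ f₁ : ℝ → ℝ} {e : ℝ} (he : e ≠ 0) (h : ContDiffAt ℝ ∞ ξ X)
    (h0 : deriv ξ X ≠ 0) (hU : ContDiffAt ℝ ∞ U ![0, ξ X]) (hV : ContDiffAt ℝ ∞ V ![0, ξ X])
    (hn : n =ᶠ[𝓝 X] fun x => deriv ξ x ^ 2)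
    (g₀ : f₀ =ᶠ[𝓝 X] fun x => e * Real.exp (2 * U ![0, ξ x]))
    (g₁ : f₁ =ᶠ[𝓝 X] fun x => e * Real.exp (2 * V ![0, ξ x])) :
    linkScal n f₀ f₁ X = 6 + 2 * lk (pdn 1) (pdn 1 U) (pdn 1 V) ![0, ξ X] := by
  have a0 := log_der he h hU g₀
  have a1 := log_der he h hV g₁
  have d1 := h.differentiableAt (by simp)
  have d2 := ((cd_deriv h).differentiableAt (by simp)).hasDerivAt
  have b0 := ((has_comp d1 ((contDiffAt_pdn hU 1).differentiableAt (by simp))).mul d2).deriv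
  have b1 := ((has_comp d1 ((contDiffAt_pdn hV 1).differentiableAt (by simp))).mul d2).deriv
  have c0 : deriv f₀ X / (2 * f₀ X) = _ := a0.self_of_nhds
  have c1 : deriv f₁ X / (2 * f₁ X) = _ := a1.self_of_nhds
  have c2 : n X = _ := hn.self_of_nhds
  have c3 := (d2.pow 2).deriv
  unfold linkScal
  rw [a0.deriv_eq, a1.deriv_eq, hn.deriv_eq, c0, c1, c2]
  erw [b0, b1, c3]
  simp only [lk, Pi.neg_apply, Pi.add_apply, Pi.pow_apply, Pi.mul_apply, Pi.ofNat_apply]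
  field_simp
  ring

end Calc

variable {P : Prof} {c : ℝ}

theorem gl_out (H : Chart) (hρ : 0 < H.ρ) {w : Fin 2} {ℓ : En 2} (h : 3 * H.ρ / 4 < ℓ w)
    (a b : ℝ) : H.gl w ℓ a b = b := by
  have : 3 - 4 * ℓ w / H.ρ ≤ 0 := by
    rw [sub_nonpos, le_div_iff₀ hρ]
    linarith
  simp [Chart.gl, Real.smoothTransition.zero_of_nonpos this]

theorem tau0 (X : ℝ) : τP ![X, 1 - X] = 0 := by simp [τP]

theorem near {H : Chart} (h : H.Ok P c) {X : ℝ} (h0 : 0 < X) (h1 : 0 < 1 - X) :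
    ∀ᶠ ℓ in 𝓝 (![X, 1 - X] : En 2), ℓ ∈ Nb H.ρ ∧ τP ℓ ≤ H.τ₀ := by
  have hρ := h.pos.2.1
  have ct : Continuous τP :=
    (continuous_const.sub (continuous_apply 0)).sub (continuous_apply 1)
  have e0 : ∀ᶠ ℓ in 𝓝 (![X, 1 - X] : En 2), -H.ρ < ℓ 0 :=
    (continuous_apply 0).continuousAt.eventually (lt_mem_nhds (by simp; linarith))
  have e1 : ∀ᶠ ℓ in 𝓝 (![X, 1 - X] : En 2), -H.ρ < ℓ 1 :=
    (continuous_apply 1).continuousAt.eventually (lt_mem_nhds (by simp; linarith))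
  have e2 : ∀ᶠ ℓ in 𝓝 (![X, 1 - X] : En 2), -H.ρ < τP ℓ :=
    ct.continuousAt.eventually (lt_mem_nhds (by rw [tau0]; linarith))
  have e3 : ∀ᶠ ℓ in 𝓝 (![X, 1 - X] : En 2), τP ℓ < H.τ₀ :=
    ct.continuousAt.eventually (gt_mem_nhds (by rw [tau0]; exact h.pos.2.2.1))
  filter_upwards [e0, e1, e2, e3] with ℓ a0 a1 a2 a3
  exact ⟨⟨a0.le, a1.le, a2.le⟩, a3.le⟩

theorem chart_at {H : Chart} (h : H.Ok P c) {X : ℝ} (h0 : 0 < X) (h1 : 0 < 1 - X) :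
    H.φ false ![X, 1 - X] = H.c₀ ∧ H.ΦO false ![X, 1 - X] = ![0, H.ξi X] ∧
      H.ξi X ∈ Ioo (P.xL - P.δ) (P.xR + P.δ) ∧ (∀ j, H.n false j ![X, 1 - X] = -H.c₀) ∧
      δP 0 (H.ξ false) ![X, 1 - X] - δP 1 (H.ξ false) ![X, 1 - X] = deriv H.ξi X := by
  have hn := near h h0 h1
  have a := hn.self_of_nhds
  have b := h.inf false _ a.1 a.2
  have e : H.ξ false ![X, 1 - X] = H.ξi X := by
    rw [b.2.1, tau0]
    simp
  have f1 : H.φ false =ᶠ[𝓝 ![X, 1 - X]] fun _ => H.c₀ :=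
    hn.mono fun ℓ k => (h.inf false ℓ k.1 k.2).1
  have f2 : H.ξ false =ᶠ[𝓝 ![X, 1 - X]] fun ℓ => H.ξi (ℓ 0 + τP ℓ / 2) :=
    hn.mono fun ℓ k => (h.inf false ℓ k.1 k.2).2.1
  have g1 : ∀ j, pdn j (H.φ false) ![X, 1 - X] = 0 := fun j => by
    rw [(pdn_congr f1 j).self_of_nhds]
    simp [pdn]
  refine ⟨b.1, ?_, e ▸ (h.sm false _ a.1).2.2.2.2.1, fun j => ?_, ?_⟩
  · rw [Chart.ΦO, tau0, e, zero_mul]
  · simp [Chart.n, δP, EP, g1, b.1]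
  · have d := ((h.ξi X ⟨h0.le, by linarith⟩).1.differentiableAt (by simp)).hasDerivAt
    have p0 : HasFDerivAt (fun ℓ : En 2 => ℓ 0) (ContinuousLinearMap.proj 0) ![X, 1 - X] :=
      (ContinuousLinearMap.proj (R := ℝ) (φ := fun _ : Fin 2 => ℝ) 0).hasFDerivAt
    have p1 : HasFDerivAt (fun ℓ : En 2 => ℓ 1) (ContinuousLinearMap.proj 1) ![X, 1 - X] :=
      (ContinuousLinearMap.proj (R := ℝ) (φ := fun _ : Fin 2 => ℝ) 1).hasFDerivAt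
    have p2 := p0.add ((((hasFDerivAt_const (1 : ℝ) _).sub p0).sub p1).mul_const (1 / 2 : ℝ))
    have p3 : HasFDerivAt (fun ℓ : En 2 => ℓ 0 + τP ℓ / 2) _ ![X, 1 - X] :=
      p2.congr_of_eventuallyEq (Eventually.of_forall fun ℓ => by simp [τP, div_eq_mul_inv])
    have d' : HasDerivAt H.ξi (deriv H.ξi X)
        ((![X, 1 - X] : En 2) 0 + τP ![X, 1 - X] / 2) := by
      rw [tau0]
      simpa using d
    have p4 := (HasDerivAt.comp_hasFDerivAt (f := fun ℓ : En 2 => ℓ 0 + τP ℓ / 2) _ d' p3).fderiv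
    simp only [δP, sub_sub_sub_cancel_right]
    rw [(pdn_congr f2 0).self_of_nhds, (pdn_congr f2 1).self_of_nhds]
    unfold pdn
    erw [p4]
    simp

theorem p_at {Z : ZD P c} (h : Z.H.Ok P c) {X : ℝ} (h0 : 3 * Z.H.ρ / 4 < X)
    (h1 : 3 * Z.H.ρ / 4 < 1 - X) (ε : ℝ) (w : Fin 2) :
    Z.p false ε w ![X, 1 - X] =
      ε ^ 2 * Real.exp (2 * vl (Z.s.u w) ε ![0, Z.H.ξi X]) / ![X, 1 - X] w := by
  have hρ := h.pos.2.1
  have hc := h.pos.1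
  have k : ∀ w : Fin 2, 3 * Z.H.ρ / 4 < (![X, 1 - X] : En 2) w := Fin.forall_fin_two.2 ⟨h0, h1⟩
  obtain ⟨a1, a2, -⟩ := chart_at h (X := X) (by linarith) (by linarith)
  simp only [ZD.p, gl_out _ hρ (k _), ZD.o, a1, a2, ZD.ν, add_zero, vl]
  field_simp

theorem n_at {Z : ZD P c} (h : Z.H.Ok P c) {X : ℝ} (h0 : 3 * Z.H.ρ / 4 < X)
    (h1 : 3 * Z.H.ρ / 4 < 1 - X) {ε : ℝ} (hε : 0 < ε) (hl : val Z.s.lc (ε, ![0, Z.H.ξi X]) = 0) :
    nL (Z.ν ε) (Z.p false ε) (Z.q false ε) X = deriv Z.H.ξi X ^ 2 := by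
  have hρ := h.pos.2.1
  have hc := h.pos.1
  have k : ∀ w : Fin 2, 3 * Z.H.ρ / 4 < (![X, 1 - X] : En 2) w := Fin.forall_fin_two.2 ⟨h0, h1⟩
  have x0 : 0 < X := by linarith
  have x1 : 0 < 1 - X := by linarith
  obtain ⟨a1, a2, -, a4, a5⟩ := chart_at h x0 x1
  rw [← a5]
  simp only [nL, ZD.q, gl_out _ hρ (k _), Fin.sum_univ_two, ZD.qo, ZD.om, tau0, a4, ZD.o, a1, a2,
    hl, ZD.ν]
  simp
  field_simp
  ring

end LinkOut

open LinkOut in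
theorem linkOut (_b1 : B1Stmt) (b2 : B2Stmt) (av : AvgStmt) (_wt : WtStmt) : LinkOutStmt := by
  intro P c g Z N Cb hZ
  have B : B2Facts P.lO 1 := b2 ℝ 2 _ 1 fun _ => zero_le_one
  have A : AvgFacts P.lO _ _ := (av.2 _ _ _).1
  obtain ⟨C, hC⟩ := hZ.fin.link
  have h := hZ.chart
  have hρ := h.pos.2.1
  have key := (hC 0).and ((val_of_ev A (ev_kv A B hZ.fin.ev_la hZ.fin.ev_lc (Z.s.O 0) rfl)).and
    ((val_lk (Z.s.u 0) (Z.s.u (0 + 1))).and ((val_ev_zero A hZ.fin.ev_lc).and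
      (Eventually.and (rep (Z.s.u 0)).2 (rep (Z.s.u 1)).2))))
  refine ⟨2 * C, ?_⟩
  filter_upwards [ev_fam.1 key, self_mem_nhdsWithin] with ε hε ε0 X h0 h1
  have ε0 : 0 < ε := ε0
  have mem : ∀ x, 3 * Z.H.ρ / 4 < x → 3 * Z.H.ρ / 4 < 1 - x →
      Z.H.ξi x ∈ Ioo (P.xL - P.δ) (P.xR + P.δ) := fun x k0 k1 =>
    (chart_at h (by linarith) (by linarith)).2.2.1
  have at0 := fun x k0 k1 => hε ![0, Z.H.ξi x]
    ⟨by simpa using lt_of_lt_of_le one_pos hZ.prof.M_ge, mem x k0 k1⟩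
  have nb : ∀ᶠ x in 𝓝 X, 3 * Z.H.ρ / 4 < x ∧ 3 * Z.H.ρ / 4 < 1 - x :=
    (lt_mem_nhds h0).and
      ((continuous_const.sub continuous_id).continuousAt.eventually (lt_mem_nhds h1))
  have hn : nL (Z.ν ε) (Z.p false ε) (Z.q false ε) =ᶠ[𝓝 X] fun x => deriv Z.H.ξi x ^ 2 :=
    nb.mono fun x k => n_at h k.1 k.2 ε0 ((at0 x k.1 k.2).2.2.2.1 rfl)
  have x0 : 0 < X := by linarith
  have x1 : 0 < 1 - X := by linarith
  obtain ⟨d1, d2⟩ := h.ξi X ⟨x0.le, by linarith⟩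
  obtain ⟨a1, a2, a3, -, a4, a5⟩ := at0 X h0 h1
  refine ⟨?_, fun w => ?_, ?_⟩
  · rw [hn.self_of_nhds]
    positivity
  · have : 0 < (![X, 1 - X] : En 2) w := by
      revert w
      exact Fin.forall_fin_two.2 ⟨x0, x1⟩
    rw [p_at h h0 h1]
    positivity
  · rw [link_eq (U := vl (Z.s.u 0) ε) (V := vl (Z.s.u 1) ε) (e := ε ^ 2) (by positivity) d1 d2.ne'
      a4 a5 hn (nb.mono fun x k => ?_) (nb.mono fun x k => ?_)]
    · have e1 := a1 rfl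
      rw [a2 rfl, a3] at e1
      have e2 := hZ.prof.eta_nonneg _ (Ioo_subset_Icc_self (mem X h0 h1))
      have e3 : P.eta (Z.H.ξi X) / 2 - C * ε ^ N ≤
        lk (pdn 1) (pdn 1 (vl (Z.s.u 0) ε)) (pdn 1 (vl (Z.s.u 1) ε)) ![0, Z.H.ξi X] := e1
      linarith
    · have : x ≠ 0 := (by linarith [k.1] : 0 < x).ne'
      simp only [p_at h k.1 k.2]
      exact div_mul_cancel₀ _ this
    · have : 1 - x ≠ 0 := (by linarith [k.2] : 0 < 1 - x).ne'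
      simp only [p_at h k.1 k.2]
      exact div_mul_cancel₀ _ this

end Pool.Agent.Lib.MP_df9110_gt
end

-- part Pool.Agent.Lib.MP_df9110_gt.ZAll
section

/-! The approximate solutions on the whole simplex. -/

namespace Pool.Agent.Lib.MP_df9110_gt

open Filter Topology Set
open scoped ContDiff

namespace ZAll

theorem pt_mono {ε Eb Eb' Cw Cw' : ℝ} {S S' : ℝ → Prop} {B : Blk (En 2 → ℝ)} {μ φ : En 2 → ℝ}
    {p : En 2} (h : PtOK ε B μ φ Eb Cw S p) (hε : 0 < ε) (hE : Eb ≤ Eb') (hC : Cw ≤ Cw')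
    (hS : ∀ x, S x → S' x) : PtOK ε B μ φ Eb' Cw' S' p := by
  have hμ := h.pos.2.2.2.2
  have h1 := mul_le_mul_of_nonneg_right hE hμ.le
  have h2 := mul_le_mul_of_nonneg_right hC (mul_pos hε hμ).le
  obtain ⟨e1, e2, e3, e4, e5⟩ := h.err
  exact ⟨h.sm, h.pos, ⟨e1.trans h1, e2.trans h1, e3.trans h1, e4.trans h1, e5.trans h1⟩,
    h.lap.trans h2, h.gam.trans h2, h.vol, h.bar, hS _ h.scal⟩

theorem zpt_mono {P : Prof} {c : ℝ} {Z : ZD P c} {J : Bool} {ε Eb Eb' Cw Cw' : ℝ}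
    {S S' : ℝ → Prop} {ℓ : En 2} (h : Z.Pt J ε Eb Cw S ℓ) (hε : 0 < ε) (hE : Eb ≤ Eb')
    (hC : Cw ≤ Cw') (hS : ∀ x, S x → S' x) : Z.Pt J ε Eb' Cw' S' ℓ := by
  obtain ⟨B, μ, φ, Φ, w, h1, h2, h3⟩ := h
  exact ⟨B, μ, φ, Φ, w, h1, h2, pt_mono h3 hε hE hC hS⟩

theorem link_mono {ν a a' X : ℝ} {p : Fin 2 → En 2 → ℝ} {q : Fin 2 → Fin 2 → En 2 → ℝ}
    (h : LinkOK ν p q a X) (ha : a' ≤ a) : LinkOK ν p q a' X := ⟨h.1, h.2.1, ha.trans h.2.2⟩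

theorem q_symm {P : Prof} {c : ℝ} (Z : ZD P c) (J : Bool) (ε : ℝ) (i j : Fin 2) :
    Z.q J ε i j = Z.q J ε j i := by
  funext ℓ
  have h1 : Z.qo J ε i j ℓ = Z.qo J ε j i ℓ := by simp only [ZD.qo]; ring
  have h2 : ∀ w, Z.Rin J ε w i j ℓ = Z.Rin J ε w j i ℓ := fun w => by
    simp only [ZD.Rin, and_comm (a := i = w)]; ring
  simp only [ZD.q, h1, h2, fun w => and_comm (a := i = w) (b := j = w)]

theorem pw0 {ε C C' : ℝ} (N : ℕ) (hε : 0 < ε) (h : C ≤ C') : C * ε ^ N ≤ C' * ε ^ N :=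
  mul_le_mul_of_nonneg_right h (pow_pos hε N).le

theorem pw1 {ε C C' : ℝ} (N : ℕ) (hε : 0 < ε) (h1 : ε ≤ 1) (h : C ≤ C') (h0 : 0 ≤ C') :
    C * ε ^ (N + 1) ≤ C' * ε ^ N :=
  (pw0 _ hε h).trans (mul_le_mul_of_nonneg_left (pow_le_pow_of_le_one hε.le h1 N.le_succ) h0)

theorem small {ρ : ℝ} (hρ : 0 < ρ) : ∀ᶠ ε in 𝓝[>] (0 : ℝ), 0 < ε ∧ ε ≤ 1 ∧ ε ^ 3 < ρ := by
  filter_upwards [Ioo_mem_nhdsGT (lt_min one_pos hρ)] with ε h
  have h1 := (lt_min_iff.1 h.2).1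
  refine ⟨h.1, h1.le, lt_of_le_of_lt ?_ (lt_min_iff.1 h.2).2⟩
  simpa using pow_le_pow_of_le_one h.1.le h1.le (by norm_num : 1 ≤ 3)

end ZAll

open ZAll in
theorem zall (pf : ProfStmt) (ge : GeoStmt) (ch : ChartStmt) (fo : FormStmt) (lb : LayBlkStmt)
    (zr : ZRegStmt) (zo : ZOutStmt) (zl : ZLayStmt) (zc : ZCorStmt) (zi : ZInfStmt)
    (lo : LinkOutStmt) (ll : LinkLayStmt) : ZFStmt := by
  obtain ⟨P, hP⟩ := pf
  obtain ⟨c, hc, hg⟩ := ge P hP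
  have g := hg c hc le_rfl
  obtain ⟨H, hH⟩ := ch P c hP g
  obtain ⟨p1, p2, p3, p4, -⟩ := hH.pos
  refine ⟨H.c₀, P.κ, P.M₀, H.ρ, H.φ, p1, hP.κ_pos, one_pos.trans_le hP.M_ge, p2,
    fun J ℓ h => ⟨(hH.sm J ℓ h).1, (hH.sm J ℓ h).2.2.1⟩, fun N => ?_⟩
  obtain ⟨s, Cb, hs⟩ := fo P c g (N + 1) hP
  obtain ⟨M, hM, c₂, hc₂, hL⟩ := lb P c g s N Cb hP hs
  have hc₁ : 0 < min c₂ (H.ρ * H.k₀ / 8) := lt_min hc₂ (by positivity)
  obtain ⟨CL, hL⟩ := hL _ hc₁ (min_le_left _ _)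
  let Z : ZD P c := ⟨s, H, min c₂ (H.ρ * H.k₀ / 8), M⟩
  have hZ : Z.Ok g (N + 1) Cb := ⟨hP, hH, hs, hc₁, by
    have := min_le_right c₂ (H.ρ * H.k₀ / 8)
    change 8 * min c₂ (H.ρ * H.k₀ / 8) ≤ H.ρ * H.k₀
    linarith⟩
  choose CO hO using fun J => zo P c g Z _ _ J hZ
  choose CC hC using fun J => zc P c g Z _ _ J N hZ hM
  obtain ⟨CI, hI⟩ := zi P c g Z _ _ hZ
  obtain ⟨C1, h1⟩ := lo P c g Z _ _ hZ
  choose C2 h2 using fun w => ll P c g Z _ _ w hZ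
  have hL' := fun J w => zl P c g Z _ _ J w (fun ε => CL * ε ^ N) CL hZ (hL w)
  obtain ⟨C, k0, kO, kC, kI, k1, k2, kL⟩ : ∃ C : ℝ, 0 ≤ C ∧ (∀ J, CO J ≤ C) ∧ (∀ J, CC J ≤ C) ∧
      CI ≤ C ∧ C1 ≤ C ∧ (∀ w, C2 w ≤ C) ∧ CL ≤ C :=
    ((eventually_ge_atTop _).and <| (eventually_all.2 fun _ => eventually_ge_atTop _).and <|
      (eventually_all.2 fun _ => eventually_ge_atTop _).and <| (eventually_ge_atTop _).and <|
      (eventually_ge_atTop _).and <| (eventually_all.2 fun _ => eventually_ge_atTop _).and <|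
      eventually_ge_atTop _).exists
  have hρ : Z.H.ρ = H.ρ := rfl
  refine ⟨Z.p, Z.q, Z.v, Z.fb, C, H.τ₀, p3, fun J => ?_, q_symm Z, ?_, ?_⟩
  · obtain ⟨r1, r2, r3, r4, -⟩ := zr P c g Z _ _ J hZ
    exact ⟨r1, r2, r3, r4⟩
  · filter_upwards [small p2, eventually_all.2 hO, eventually_all.2 hC,
      eventually_all.2 fun J => eventually_all.2 (hL' J)] with ε ⟨e0, e1, e3⟩ aO aC aL J ℓ hℓ
    have hκ : 0 < P.κ / ε := div_pos hP.κ_pos e0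
    have hκ2 : 2 * P.κ / ε = 2 * (P.κ / ε) := mul_div_assoc _ _ _
    by_cases c1 : ∀ w, ℓ w < H.ρ
    · exact zpt_mono (aC J ℓ hℓ c1) e0 (pw0 N e0 (kC J)) (kC J) fun x hx =>
        ⟨fun k => (hx.1 k).trans (by linarith [kC J]),
          fun k k' => le_trans (by linarith [kC J]) (hx.2 k k')⟩
    have c2 : ¬ ∀ w, ℓ w ≤ ε ^ 3 := fun k => c1 fun w => (k w).trans_lt e3
    by_cases c3 : ∃ w, ℓ w < H.ρ
    · obtain ⟨w, hw⟩ := c3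
      have c4 : H.ρ ≤ ℓ (w + 1) := by
        by_contra! k
        refine c1 fun w' => ?_
        rcases (by decide : ∀ a b : Fin 2, a = b ∨ a = b + 1) w' w with rfl | rfl
        exacts [hw, k]
      exact zpt_mono (aL J w ℓ hℓ hw (by rw [hρ]; linarith)) e0 (pw0 N e0 kL) kL fun x hx =>
        ⟨fun k => (hx k).trans (by linarith), fun _ k' => (c2 k').elim⟩
    · push Not at c3
      exact zpt_mono (aO J ℓ hℓ fun w => by rw [hρ]; linarith [c3 w]) e0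
        (pw1 N e0 e1 (kO J) k0) (kO J) fun x hx =>
        ⟨fun _ => le_trans hx (by linarith [kO J]), fun _ k' => (c2 k').elim⟩
  · filter_upwards [small p2, hI, h1, eventually_all.2 h2] with ε ⟨e0, e1, _⟩ aI a1 a2
    refine ⟨aI.1, fun X hX => ?_, fun X hX => ?_⟩
    · obtain ⟨a, b1, b2⟩ := aI.2 X hX
      exact ⟨a, b1.trans (pw1 N e0 e1 kI k0), b2⟩
    · by_cases c1 : X < H.ρ
      · exact link_mono (a2 0 X hX.1 c1) (by linarith [pw0 N e0 (k2 0)])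
      by_cases c2 : 1 - X < H.ρ
      · exact link_mono (a2 1 X (sub_pos.2 hX.2) c2) (by linarith [pw0 N e0 (k2 1)])
      exact link_mono (a1 X (by rw [hρ]; linarith) (by rw [hρ]; linarith))
        (by linarith [pw1 N e0 e1 k1 k0])

end Pool.Agent.Lib.MP_df9110_gt
end

-- part Pool.Agent.Lib.MP_df9110_gt.ZLay
section

/-! The approximate solutions in the collar of one wall. -/

namespace Pool.Agent.Lib.MP_df9110_gt

open Filter Topology Set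
open scoped ContDiff

namespace ZLay

theorem sum2 (f : Fin 2 → ℝ) (w : Fin 2) : ∑ i, f i = f w + f (w + 1) := by
  fin_cases w
  · simp
  · simp [add_comm]

theorem add2 (w : Fin 2) : w + 1 + 1 = w := by fin_cases w <;> rfl

theorem contDiff_τP : ContDiff ℝ ∞ τP := by unfold τP; fun_prop

theorem nb_of_int {ρ : ℝ} (hρ : 0 < ρ) {ℓ : En 2} (h : ℓ ∈ Int2) : ℓ ∈ Nb ρ :=
  ⟨by linarith [h.1], by linarith [h.2.1], by linarith [h.2.2]⟩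

theorem pos_of_int {ℓ : En 2} (h : ℓ ∈ Int2) (w : Fin 2) : 0 < ℓ w := by
  fin_cases w
  · exact h.1
  · exact h.2.1

theorem isOpen_U (ρ : ℝ) (w : Fin 2) :
    IsOpen {ℓ : En 2 | ℓ ∈ Int2 ∧ ℓ w < ρ ∧ 3 * ρ / 4 < ℓ (w + 1)} :=
  (((isOpen_lt continuous_const (continuous_apply 0)).inter
    ((isOpen_lt continuous_const (continuous_apply 1)).inter
      (isOpen_lt continuous_const contDiff_τP.continuous)))).inter
    ((isOpen_lt (continuous_apply w) continuous_const).inter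
      (isOpen_lt continuous_const (continuous_apply (w + 1))))

theorem gl_far (H : Chart) (hρ : 0 < H.ρ) {w : Fin 2} {ℓ : En 2} (h : 3 * H.ρ / 4 < ℓ w)
    (a b : ℝ) : H.gl w ℓ a b = b := by
  have h1 : 3 - 4 * ℓ w / H.ρ ≤ 0 := by
    rw [sub_nonpos, le_div_iff₀ hρ]; linarith
  simp [Chart.gl, Real.smoothTransition.zero_of_nonpos h1]

theorem gl_near (H : Chart) (hρ : 0 < H.ρ) {w : Fin 2} {ℓ : En 2} (h : ℓ w ≤ H.ρ / 2)
    (a b : ℝ) : H.gl w ℓ a b = a := by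
  have h1 : 1 ≤ 3 - 4 * ℓ w / H.ρ := by
    rw [le_sub_comm, div_le_iff₀ hρ]; linarith
  simp [Chart.gl, Real.smoothTransition.one_of_one_le h1]

theorem eps_σ (H : Chart) (J : Bool) (w : Fin 2) {ε : ℝ} (hε : 0 < ε) (ℓ : En 2) :
    ε * H.σ J w ε ℓ = ℓ w * H.K J w ℓ := by
  unfold Chart.σ; field_simp

theorem fb_eq {P : Prof} {c : ℝ} {g : P.Geo c} {Z : ZD P c} {N : ℕ} {Cb : ℝ} (hZ : Z.Ok g N Cb)
    (J : Bool) (w : Fin 2) {ε : ℝ} (hε : 0 < ε) {ℓ : En 2} (h : ℓ ∈ Int2) (h1 : ℓ w < Z.H.ρ)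
    (h2 : 3 * Z.H.ρ / 4 < ℓ (w + 1)) :
    Z.fb J ε ℓ = 1 + bT Z.c₁ Z.M ε (Z.H.σ J w ε ℓ) 1 := by
  have hρ := hZ.chart.pos.2.1
  rw [ZD.fb, sum2 _ w, gl_far _ hρ h2, gl_far _ hρ h2, add_zero]
  by_cases h3 : ℓ w ≤ Z.H.ρ / 2
  · rw [gl_near _ hρ h3]
  · have h4 := (hZ.chart.col J w ℓ (nb_of_int hρ h) h1.le).2.1
    have h5 := hZ.chart.pos.2.2.2.1
    have h6 := hZ.c₁_le
    have h7 := hZ.c₁_pos
    have h8 : mcut Z.c₁ (ε * Z.H.σ J w ε ℓ) = 0 := by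
      rw [eps_σ _ _ _ hε]
      refine Real.smoothTransition.zero_of_nonpos ?_
      rw [sub_nonpos, le_div_iff₀ h7]
      have h9 : Z.H.ρ / 2 * Z.H.k₀ ≤ ℓ w * Z.H.K J w ℓ :=
        mul_le_mul (le_of_not_ge h3) h4 h5.le (pos_of_int h w).le
      linarith
    simp [Chart.gl, bT, h8]

theorem pdn_τφ {φ : En 2 → ℝ} {ℓ : En 2} (h : DifferentiableAt ℝ φ ℓ) (j : Fin 2) :
    pdn j (fun ℓ => τP ℓ * φ ℓ) ℓ = τP ℓ * pdn j φ ℓ - φ ℓ := by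
  have h1 : HasFDerivAt τP (0 - ContinuousLinearMap.proj (R := ℝ) (φ := fun _ : Fin 2 => ℝ) 0 -
      ContinuousLinearMap.proj (R := ℝ) (φ := fun _ : Fin 2 => ℝ) 1) ℓ :=
    ((hasFDerivAt_const 1 ℓ).sub (hasFDerivAt_apply 0 ℓ)).sub (hasFDerivAt_apply 1 ℓ)
  have h2 : HasFDerivAt (fun ℓ => τP ℓ * φ ℓ) _ ℓ := h1.mul h.hasFDerivAt
  rw [pdn, h2.fderiv, pdn]
  fin_cases j <;> simp <;> ring

theorem det_eq (H : Chart) (J : Bool) {ℓ : En 2} (h : DifferentiableAt ℝ (H.φ J) ℓ) :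
    H.det J ℓ = pdn 0 (fun ℓ => τP ℓ * H.φ J ℓ) ℓ * pdn 1 (H.ξ J) ℓ -
      pdn 1 (fun ℓ => τP ℓ * H.φ J ℓ) ℓ * pdn 0 (H.ξ J) ℓ := by
  rw [pdn_τφ h, pdn_τφ h]
  simp only [Chart.det, Chart.n, δP, EP, τP]
  ring

theorem det_cont (H : Chart) (J : Bool) {ℓ : En 2} (h : ContDiffAt ℝ ∞ (H.φ J) ℓ)
    (h' : ContDiffAt ℝ ∞ (H.ξ J) ℓ) : ContinuousAt (H.det J) ℓ := by
  have h1 := fun j => (contDiffAt_pdn h j).continuousAt
  have h2 := fun j => (contDiffAt_pdn h' j).continuousAt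
  have c0 : ContinuousAt (fun ℓ : En 2 => ℓ 0) ℓ := (continuous_apply 0).continuousAt
  have c1 : ContinuousAt (fun ℓ : En 2 => ℓ 1) ℓ := (continuous_apply 1).continuousAt
  have e1 : ContinuousAt (EP (H.φ J)) ℓ := (c0.mul (h1 0)).add (c1.mul (h1 1))
  have e2 : ContinuousAt (EP (H.ξ J)) ℓ := (c0.mul (h2 0)).add (c1.mul (h2 1))
  exact ((((h1 0).sub e1).sub h.continuousAt).mul ((h2 1).sub e2)).sub
    ((((h1 1).sub e1).sub h.continuousAt).mul ((h2 0).sub e2))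

theorem det_lower {P : Prof} {c : ℝ} {H : Chart} (hH : H.Ok P c) (J : Bool) :
    ∃ a : ℝ, 0 < a ∧ ∀ ℓ ∈ Int2, a ≤ |H.det J ℓ| := by
  have hρ := hH.pos.2.1
  have hK : IsCompact (Nb 0) := by
    refine (isCompact_Icc (a := (0 : En 2)) (b := 1)).of_isClosed_subset ?_ fun ℓ h => ?_
    · exact (isClosed_le continuous_const (continuous_apply 0)).inter
        ((isClosed_le continuous_const (continuous_apply 1)).inter
          (isClosed_le continuous_const contDiff_τP.continuous))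
    · obtain ⟨h0, h1, h2⟩ := h
      simp only [τP, neg_zero] at h0 h1 h2
      refine ⟨fun i => ?_, fun i => ?_⟩ <;> fin_cases i <;> simp <;> linarith
  have hs : ∀ ℓ ∈ Nb 0, ℓ ∈ Nb H.ρ := fun ℓ h =>
    ⟨by linarith [h.1], by linarith [h.2.1], by linarith [h.2.2]⟩
  obtain ⟨m, hm, hmin⟩ := hK.exists_isMinOn (f := fun ℓ => |H.det J ℓ|)
    ⟨0, by simp [Nb, τP]⟩ fun ℓ h =>
      (det_cont H J (hH.sm J ℓ (hs ℓ h)).1 (hH.sm J ℓ (hs ℓ h)).2.1).abs.continuousWithinAt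
  refine ⟨_, abs_pos.2 (hH.sm J m (hs m hm)).2.2.2.2.2, fun ℓ h => hmin ?_⟩
  exact ⟨by linarith [h.1], by linarith [h.2.1], by linarith [h.2.2]⟩

theorem pdn_Mu (P : Prof) (i : Fin 2) {s ξ : En 2 → ℝ} {ℓ : En 2} (hs : DifferentiableAt ℝ s ℓ)
    (hξ : DifferentiableAt ℝ ξ ℓ) (hd : DifferentiableAt ℝ (P.d i) (ξ ℓ))
    (hL : DifferentiableAt ℝ (P.L i) (ξ ℓ)) (hχ : DifferentiableAt ℝ (P.χ i) (ξ ℓ))
    (h0 : 1 + P.χ i (ξ ℓ) * (s ℓ * (2 * Real.exp (2 * P.L i (ξ ℓ)))) ≠ 0) :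
    ∃ b : ℝ, ∀ j, pdn j (fun ℓ => P.Mu i (s ℓ) (ξ ℓ)) ℓ =
      -(2 * Real.exp (2 * P.L i (ξ ℓ)) /
        (1 + P.χ i (ξ ℓ) * (s ℓ * (2 * Real.exp (2 * P.L i (ξ ℓ))))) ^ 2 / 4) * pdn j s ℓ +
        b * pdn j ξ ℓ := by
  let G : ℝ × ℝ → ℝ := fun q => P.Mu i q.1 q.2
  have hd' : DifferentiableAt ℝ (fun q : ℝ × ℝ => P.d i q.2) (s ℓ, ξ ℓ) :=
    DifferentiableAt.comp (s ℓ, ξ ℓ) (g := P.d i) hd differentiableAt_snd
  have hL' : DifferentiableAt ℝ (fun q : ℝ × ℝ => P.L i q.2) (s ℓ, ξ ℓ) :=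
    DifferentiableAt.comp (s ℓ, ξ ℓ) (g := P.L i) hL differentiableAt_snd
  have hχ' : DifferentiableAt ℝ (fun q : ℝ × ℝ => P.χ i q.2) (s ℓ, ξ ℓ) :=
    DifferentiableAt.comp (s ℓ, ξ ℓ) (g := P.χ i) hχ differentiableAt_snd
  have hE : DifferentiableAt ℝ (fun q : ℝ × ℝ => q.1 * (2 * Real.exp (2 * P.L i q.2)))
      (s ℓ, ξ ℓ) := differentiableAt_fst.mul ((hL'.const_mul 2).exp.const_mul 2)
  have hG : DifferentiableAt ℝ G (s ℓ, ξ ℓ) := by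
    simp only [G, Prof.Mu, div_eq_mul_inv]
    exact (hd'.fun_sub (hE.fun_mul (((hχ'.fun_mul hE).const_add 1).fun_inv h0))).mul_const _
  have h1 : HasDerivAt (fun t : ℝ => G (t, ξ ℓ)) (fderiv ℝ G (s ℓ, ξ ℓ) (1, 0)) (s ℓ) :=
    hG.hasFDerivAt.comp_hasDerivAt (f := fun t : ℝ => (t, ξ ℓ)) (s ℓ)
      ((hasDerivAt_id (s ℓ)).prodMk (hasDerivAt_const _ _))
  have h2 : HasDerivAt (fun t : ℝ => t * (2 * Real.exp (2 * P.L i (ξ ℓ))))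
      (2 * Real.exp (2 * P.L i (ξ ℓ))) (s ℓ) := by
    simpa using (hasDerivAt_id (s ℓ)).mul_const (2 * Real.exp (2 * P.L i (ξ ℓ)))
  have h3 : HasDerivAt (fun t : ℝ => G (t, ξ ℓ)) _ (s ℓ) :=
    ((h2.div ((h2.const_mul (P.χ i (ξ ℓ))).const_add 1) h0).const_sub (P.d i (ξ ℓ))).div_const 4
  have h4 := h1.unique h3
  refine ⟨fderiv ℝ G (s ℓ, ξ ℓ) (0, 1), fun j => ?_⟩
  have h5 : HasFDerivAt (fun ℓ => P.Mu i (s ℓ) (ξ ℓ)) _ ℓ :=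
    HasFDerivAt.comp ℓ (g := G) (f := fun ℓ => (s ℓ, ξ ℓ)) hG.hasFDerivAt
      (hs.hasFDerivAt.prodMk hξ.hasFDerivAt)
  have h6 : ∀ u v : ℝ, fderiv ℝ G (s ℓ, ξ ℓ) (u, v) =
      fderiv ℝ G (s ℓ, ξ ℓ) (1, 0) * u + fderiv ℝ G (s ℓ, ξ ℓ) (0, 1) * v := fun u v => by
    rw [show ((u, v) : ℝ × ℝ) = u • (1, 0) + v • (0, 1) by simp, map_add, map_smul, map_smul,
      smul_eq_mul, smul_eq_mul, mul_comm u, mul_comm v]
  rw [pdn, h5.fderiv, ContinuousLinearMap.comp_apply, ContinuousLinearMap.prod_apply, h6, h4,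
    pdn, pdn]
  congr 2
  field_simp
  ring

theorem jac {P : Prof} {c : ℝ} (hP : P.Ok) (g : P.Geo c) {H : Chart} (hH : H.Ok P c) (J : Bool)
    (w : Fin 2) : ∀ᶠ ε in 𝓝[>] (0 : ℝ), ∀ ℓ ∈ Int2, ℓ w < H.ρ →
      ε ≤ |pdn 0 (H.σ J w ε) ℓ * pdn 1 (H.ξ J) ℓ - pdn 1 (H.σ J w ε) ℓ * pdn 0 (H.ξ J) ℓ| := by
  have hρ := hH.pos.2.1
  obtain ⟨a, ha, hdet⟩ := det_lower hH J
  obtain ⟨B, hB⟩ := (isCompact_Icc (a := P.xL - P.δ) (b := P.xR + P.δ)).exists_bound_of_continuousOn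
    (f := fun x => Real.exp (2 * P.L w x)) fun x hx =>
      ((hP.sm_L w x hx).continuousAt.const_mul 2).rexp.continuousWithinAt
  obtain ⟨a0, -, hA⟩ := g.posA
  have hlim : ∀ᶠ ε in 𝓝[>] (0 : ℝ), 2 * |B| * ε * ε < a := by
    refine nhdsWithin_le_nhds (ContinuousAt.eventually_lt (by fun_prop) continuousAt_const ?_)
    simpa using ha
  filter_upwards [hlim, self_mem_nhdsWithin] with ε hεa hε ℓ hℓ h1
  have hε : 0 < ε := hε
  obtain ⟨hφ, hξ, -, -, hx, -⟩ := hH.sm J ℓ (nb_of_int hρ hℓ)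
  obtain ⟨hK, -, hs, -, hx', -⟩ := hH.col J w ℓ (nb_of_int hρ hℓ) h1.le
  have hsd : DifferentiableAt ℝ (fun ℓ : En 2 => ℓ w * H.K J w ℓ) ℓ :=
    (differentiableAt_apply w ℓ).mul (hK.differentiableAt (by simp))
  have h2 := abs_le.1 (hA w _ _ (Ioo_subset_Icc_self hx') hs.le).2
  obtain ⟨b, hb⟩ := pdn_Mu P w hsd (hξ.differentiableAt (by simp))
    ((hP.sm_d w _ (Ioo_subset_Icc_self hx')).differentiableAt (by simp))
    ((hP.sm_L w _ (Ioo_subset_Icc_self hx)).differentiableAt (by simp))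
    ((hP.sm_χ w _ (Ioo_subset_Icc_self hx)).differentiableAt (by simp)) (by linarith [h2.1])
  have h3 : (fun ℓ => τP ℓ * H.φ J ℓ) =ᶠ[𝓝 ℓ] fun ℓ => P.Mu w (ℓ w * H.K J w ℓ) (H.ξ J ℓ) := by
    have h4 : IsOpen {ℓ : En 2 | ℓ ∈ Int2 ∧ ℓ w < H.ρ} :=
      (((isOpen_lt continuous_const (continuous_apply 0)).inter
        ((isOpen_lt continuous_const (continuous_apply 1)).inter
          (isOpen_lt continuous_const contDiff_τP.continuous)))).inter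
        (isOpen_lt (continuous_apply w) continuous_const)
    filter_upwards [h4.mem_nhds ⟨hℓ, h1⟩] with ℓ' h5
    exact (hH.col J w ℓ' (nb_of_int hρ h5.1) h5.2.le).2.2.2.1.symm
  have h4 : ∀ j, pdn j (fun ℓ => τP ℓ * H.φ J ℓ) ℓ =
      pdn j (fun ℓ => P.Mu w (ℓ w * H.K J w ℓ) (H.ξ J ℓ)) ℓ := fun j => by
    rw [pdn, pdn, h3.fderiv_eq]
  have h5 : ∀ j, pdn j (fun ℓ : En 2 => ℓ w * H.K J w ℓ) ℓ = ε * pdn j (H.σ J w ε) ℓ := fun j => by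
    have h6 : H.σ J w ε = fun ℓ : En 2 => ε⁻¹ * (ℓ w * H.K J w ℓ) := by
      ext ℓ; rw [Chart.σ, div_eq_inv_mul]
    rw [h6, pdn, pdn, fderiv_const_mul hsd, smul_apply, smul_eq_mul,
      mul_inv_cancel_left₀ hε.ne']
  have h6 := hdet ℓ hℓ
  rw [det_eq H J (hφ.differentiableAt (by simp)), h4, h4, hb, hb, h5, h5] at h6
  have h7 : Real.exp (2 * P.L w (H.ξ J ℓ)) ≤ |B| :=
    ((le_abs_self _).trans (hB _ (Ioo_subset_Icc_self hx))).trans (le_abs_self B)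
  have h8 := Real.exp_pos (2 * P.L w (H.ξ J ℓ))
  generalize Real.exp (2 * P.L w (H.ξ J ℓ)) = E at *
  generalize P.χ w (H.ξ J ℓ) * (ℓ w * H.K J w ℓ * (2 * E)) = t at *
  have h9 : 2 * E / (1 + t) ^ 2 / 4 ≤ 2 * |B| := by
    have h10 : 1 / 4 ≤ (1 + t) ^ 2 := by nlinarith [h2.1]
    rw [div_div, div_le_iff₀ (by positivity)]
    nlinarith [abs_nonneg B]
  have h10 : 0 ≤ 2 * E / (1 + t) ^ 2 / 4 := by positivity
  generalize 2 * E / (1 + t) ^ 2 / 4 = m at *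
  generalize hj : pdn 0 (H.σ J w ε) ℓ * pdn 1 (H.ξ J) ℓ -
    pdn 1 (H.σ J w ε) ℓ * pdn 0 (H.ξ J) ℓ = j
  have h11 : (-m * (ε * pdn 0 (H.σ J w ε) ℓ) + b * pdn 0 (H.ξ J) ℓ) * pdn 1 (H.ξ J) ℓ -
      (-m * (ε * pdn 1 (H.σ J w ε) ℓ) + b * pdn 1 (H.ξ J) ℓ) * pdn 0 (H.ξ J) ℓ =
      -(m * ε * j) := by rw [← hj]; ring
  rw [h11, abs_neg, abs_mul, abs_of_nonneg (mul_nonneg h10 hε.le)] at h6
  by_contra h12
  have h13 : m * ε * |j| ≤ 2 * |B| * ε * ε :=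
    mul_le_mul (mul_le_mul_of_nonneg_right h9 hε.le) (le_of_not_ge h12) (abs_nonneg _)
      (by positivity)
  linarith

theorem kappa {P : Prof} {c : ℝ} (hP : P.Ok) (g : P.Geo c) {w : Fin 2} {s x : ℝ} (hs : 0 < s)
    (hc : |s| < c) (hx : x ∈ Ioo (P.lo w) (P.hi w)) (hμ : 0 < P.Mu w s x)
    (hJ : 0 < Prof.sg w * (P.xJ true - x) + P.δ) :
    P.d w x * Real.exp (-(2 * P.L w x)) ≤ P.κ := by
  obtain ⟨a0, -, hA⟩ := g.posA
  have h2 := abs_le.1 (hA w _ _ (Ioo_subset_Icc_self hx) hc.le).2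
  have hd : 0 < P.d w x := by
    have h3 : 0 < 1 + P.χ w x * (s * (2 * Real.exp (2 * P.L w x))) := by linarith [h2.1]
    have h4 : 0 < s * (2 * Real.exp (2 * P.L w x)) /
        (1 + P.χ w x * (s * (2 * Real.exp (2 * P.L w x)))) := by positivity
    unfold Prof.Mu at hμ
    linarith
  obtain ⟨a, ha, hlin⟩ := hP.lin w
  have hδ := hP.δ_pos
  fin_cases w
  · have h3 : P.xL - P.δ < x := hx.1
    refine hP.m₀ x ⟨?_, hx.2.le⟩
    by_contra h4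
    have h5 : x < P.xL := lt_of_not_ge h4
    have h6 : P.d 0 x = a * (1 * (x - P.xL)) :=
      hlin x (abs_le.2 ⟨by change -P.δ ≤ x - P.xL; linarith, by change x - P.xL ≤ P.δ; linarith⟩)
    have h7 : 0 < P.d 0 x := hd
    nlinarith
  · have h3 : x < P.xR + P.δ := hx.2
    have h8 : 0 < -1 * (P.xJ true - x) + P.δ := hJ
    refine hP.m₁ x ⟨by linarith, ?_⟩
    by_contra h4
    have h5 : P.xR < x := lt_of_not_ge h4
    have h6 : P.d 1 x = a * (-1 * (x - P.xR)) :=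
      hlin x (abs_le.2 ⟨by change -P.δ ≤ x - P.xR; linarith, by change x - P.xR ≤ P.δ; linarith⟩)
    have h7 : 0 < P.d 1 x := hd
    nlinarith

end ZLay

open ZLay in
theorem zlay (_b1 : B1Stmt) (_b2 : B2Stmt) (_av : AvgStmt) (_wt : WtStmt) (_lb : LayBasicStmt)
    (zr : ZLayRelStmt) : ZLayStmt := by
  intro P c g Z N Cb J w Eb C hZ hpt
  have hH := hZ.chart
  have hρ := hH.pos.2.1
  have hpt' := ev_fam.1 hpt
  filter_upwards [hpt', zr P c g Z N Cb J w hZ, jac hZ.prof g hH J w, self_mem_nhdsWithin]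
    with ε hp hr hj hε ℓ hℓ h1 h2
  have hε : 0 < ε := hε
  refine ⟨Z.s.BL (mcut Z.c₁) w ε, fun p => P.Mu w (ε * p 0) (p 1),
    fun p => P.Mu w (ε * p 0) (p 1) ^ (1 / 4 : ℝ) / (16 * P.M₀) * (1 + bT Z.c₁ Z.M ε (p 0) 1),
    Z.H.ΦL J w ε, w, ?_, hj ℓ hℓ h1, ?_⟩
  · filter_upwards [(isOpen_U Z.H.ρ w).mem_nhds ⟨hℓ, h1, h2⟩] with ℓ' ⟨h3, h4, h5⟩
    obtain ⟨hK, -, -, hμ, -⟩ := hH.col J w ℓ' (nb_of_int hρ h3) h4.le
    have h6 : P.Mu w (ε * Z.H.ΦL J w ε ℓ' 0) (Z.H.ΦL J w ε ℓ' 1) = Z.μ J ℓ' := by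
      rw [ZD.μ, ← hμ, ← eps_σ Z.H J w hε]; rfl
    refine ⟨hr ℓ' h3 h4 h5, fun a => ?_, h6, ?_⟩
    · fin_cases a
      · exact (((contDiff_apply ℝ ℝ w).contDiffAt).mul hK).div_const ε
      · exact (hH.sm J ℓ' (nb_of_int hρ h3)).2.1
    · rw [ZD.bar, fb_eq hZ J w hε h3 h4 h5, ← h6]; rfl
  · obtain ⟨-, hk, hs, hμ, hx, hJ⟩ := hH.col J w ℓ (nb_of_int hρ hℓ) h1.le
    have h3 : 0 < ℓ w * Z.H.K J w ℓ := mul_pos (pos_of_int hℓ w) (hH.pos.2.2.2.1.trans_le hk)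
    have h4 : 0 < Z.H.σ J w ε ℓ := div_pos h3 hε
    have h5 := eps_σ Z.H J w hε ℓ
    have h6 : 0 < P.Mu w (ℓ w * Z.H.K J w ℓ) (Z.H.ξ J ℓ) := by
      rw [hμ]; exact mul_pos hℓ.2.2 (hH.sm J ℓ (nb_of_int hρ hℓ)).2.2.1
    have h7 := hp (Z.H.ΦL J w ε ℓ) ⟨by change -1 < Z.H.σ J w ε ℓ; linarith,
      by change ε * Z.H.σ J w ε ℓ < c; rw [h5]; exact (le_abs_self _).trans_lt hs, hx⟩ h4
      (by change 0 < P.Mu w (ε * Z.H.σ J w ε ℓ) (Z.H.ξ J ℓ); rwa [h5])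
    refine ⟨h7.sm, h7.pos, h7.err, h7.lap, h7.gam, h7.vol, h7.bar, fun hJ' => ?_⟩
    subst hJ'
    have h8 : P.d w (Z.H.ξ true ℓ) * Real.exp (-(2 * P.L w (Z.H.ξ true ℓ))) / ε ≤ P.κ / ε :=
      div_le_div_of_nonneg_right (kappa hZ.prof g h3 hs hx h6 hJ) hε.le
    exact le_trans h7.scal (add_le_add_left h8 C)

end Pool.Agent.Lib.MP_df9110_gt
end

-- part Pool.Agent.Lib.MP_df9110_gt.ZLayRel
section

/-! The functions on the simplex describe the block of the layer in the collar. -/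

namespace Pool.Agent.Lib.MP_df9110_gt

open Filter Topology Set
open scoped ContDiff

namespace ZLayRel

section Val

variable {l : Filter Z2} {φ ψ : SG l} {f g : Z2 → ℝ}

/-- The values of the germ `φ` are eventually given by `f`. -/
def Ev (φ : SG l) (f : Z2 → ℝ) : Prop := ∀ᶠ z in l, val φ z = f z

theorem ev_mk (F : SmF l) : Ev (mkG l F) fun z => F.1 z.1 z.2 := mkG_eq.1 (mkG_rep (mkG l F))

theorem ev_gm {F : ℝ → En 2 → ℝ} (h : F ∈ SmF l) : Ev (gm l F) fun z => F z.1 z.2 := by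
  rw [gm_eq h]; exact ev_mk ⟨F, h⟩

theorem ev_val (φ : SG l) : Ev φ (val φ) := Eventually.of_forall fun _ => rfl

theorem Ev.mul (h : Ev φ f) (k : Ev ψ g) : Ev (φ * ψ) fun z => f z * g z := by
  have e := ev_mk (rep φ * rep ψ)
  rw [map_mul, mkG_rep, mkG_rep] at e
  filter_upwards [e, h, k] with z h0 h1 h2
  rw [h0, ← h1, ← h2]; rfl

theorem Ev.add (h : Ev φ f) (k : Ev ψ g) : Ev (φ + ψ) fun z => f z + g z := by
  have e := ev_mk (rep φ + rep ψ)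
  rw [map_add, mkG_rep, mkG_rep] at e
  filter_upwards [e, h, k] with z h0 h1 h2
  rw [h0, ← h1, ← h2]; rfl

theorem Ev.sub (h : Ev φ f) (k : Ev ψ g) : Ev (φ - ψ) fun z => f z - g z := by
  have e := ev_mk (rep φ - rep ψ)
  rw [map_sub, mkG_rep, mkG_rep] at e
  filter_upwards [e, h, k] with z h0 h1 h2
  rw [h0, ← h1, ← h2]; rfl

theorem Ev.neg (h : Ev φ f) : Ev (-φ) fun z => -f z := by
  have e := ev_mk (-rep φ)
  rw [map_neg, mkG_rep] at e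
  filter_upwards [e, h] with z h0 h1
  rw [h0, ← h1]; rfl

theorem Ev.exp (h : Ev φ f) : Ev (expG φ) fun z => Real.exp (f z) := by
  have e := ev_mk (sfE l (rep φ))
  rw [mkG_sfE, mkG_rep] at e
  filter_upwards [e, h] with z h0 h1
  rw [h0, ← h1]; rfl

theorem ev_one : Ev (1 : SG l) fun _ => 1 := by
  have e := ev_mk (1 : SmF l)
  rw [map_one] at e
  exact e

theorem ev_two : Ev (2 : SG l) fun _ => 2 := by
  have e := (ev_one (l := l)).add ev_one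
  rw [one_add_one_eq_two] at e
  filter_upwards [e] with z h using h.trans one_add_one_eq_two

theorem Ev.sq (h : Ev φ f) : Ev (φ ^ 2) fun z => f z ^ 2 := by
  simpa only [pow_two] using h.mul h

theorem Ev.eq (h : Ev φ f) (k : Ev ψ g) (e : φ = ψ) : ∀ᶠ z in l, f z = g z := by
  subst e
  filter_upwards [h, k] with z h1 h2 using h1.symm.trans h2

theorem ev_four : Ev (4 : SG l) fun _ => 4 := by
  have e := (ev_two (l := l)).add ev_two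
  rw [two_add_two_eq_four] at e
  filter_upwards [e] with z h using h.trans two_add_two_eq_four

theorem Ev.smul (h : Ev φ f) (c : ℝ) : Ev (c • φ) fun z => c * f z := by
  have e := ev_mk (c • rep φ)
  rw [map_smul, mkG_rep] at e
  filter_upwards [e, h] with z h0 h1
  rw [h0, ← h1]; rfl

theorem Ev.D [OpF l] (h : Ev φ f) (j : Fin 2) :
    Ev (gD j φ) fun z => pdn j (fun q => f (z.1, q)) z.2 := by
  filter_upwards [ev_mk (sfD l j (rep φ)), OpF.op h] with z h0 h1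
  exact h0.trans (pdn_congr h1 j).self_of_nhds

/-- The layer of representatives. -/
noncomputable def raw (G : Lay (SG l)) (ε : ℝ) : Lay (En 2 → ℝ) := G.map fun φ => vl φ ε

variable (G : Lay (SG l))

theorem ev_psi : Ev (G.psi expG) fun z => (raw G z.1).psi ptE z.2 :=
  ev_two.mul (ev_two.mul (ev_val G.L)).exp
theorem ev_μ : Ev (G.μ expG) fun z => (raw G z.1).μ ptE z.2 :=
  ((ev_val G.d).sub (((ev_val G.s0).mul (ev_psi G)).mul (ev_val G.lq).neg.exp)).smul (1 / 4)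
theorem ev_P0 : Ev (G.P0 expG) fun z => (raw G z.1).P0 ptE z.2 :=
  ((ev_two.mul (ev_two.mul (ev_val G.L)).neg.exp).mul (ev_two.mul (ev_val G.lq)).exp).neg
theorem ev_al : Ev (G.al expG) fun z => (raw G z.1).al ptE z.2 :=
  ev_one.sub ((ev_val G.y).mul (ev_val G.lq).neg.exp)
theorem ev_lA : Ev G.lA fun z => (raw G z.1).lA z.2 :=
  ((ev_val G.lAo).sub (ev_two.mul (ev_val G.lam))).sub
    ((ev_two.mul (ev_val G.rho)).mul (ev_val G.y))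
theorem ev_lCl : Ev G.lCl fun z => (raw G z.1).lCl z.2 :=
  (((((ev_one.smul (Real.log 16)).sub (ev_four.mul (ev_val G.L))).add
    (ev_four.mul (ev_val G.lq))).add (ev_val G.la)).add (ev_val G.lc)).sub (ev_val G.lAo)
theorem ev_lC : Ev G.lC fun z => (raw G z.1).lC z.2 := (ev_lCl G).add (ev_two.mul (ev_val G.gam))
theorem ev_u₁ : Ev G.u₁ fun z => (raw G z.1).u₁ z.2 := (ev_val G.uw).add (ev_val G.lam)
theorem ev_u₂ : Ev G.u₂ fun z => (raw G z.1).u₂ z.2 := (ev_val G.uo).add (ev_val G.nu)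
theorem ev_W : Ev (G.W expG) fun z => (raw G z.1).W ptE z.2 := (ev_P0 G).add (ev_val G.w1)

variable [OpF l]

theorem ev_dμ : Ev (gD 0 (G.μ expG)) fun z => pdn 0 ((raw G z.1).μ ptE) z.2 := (ev_μ G).D 0
theorem ev_τ₂ : Ev (G.τ₂ gD expG) fun z => (raw G z.1).τ₂ pdn ptE z.2 := (ev_μ G).D 1
theorem ev_P1 : Ev (G.P1 gD expG) fun z => (raw G z.1).P1 pdn ptE z.2 :=
  ((ev_P0 G).mul (ev_τ₂ G)).neg
theorem ev_Pp : Ev (G.Pp gD expG) fun z => (raw G z.1).Pp pdn ptE z.2 :=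
  (ev_P0 G).add ((ev_val G.bp).mul (ev_P1 G))
theorem ev_b : Ev (G.b gD expG) fun z => (raw G z.1).b pdn ptE z.2 :=
  (((((ev_four.mul (ev_μ G).sq).mul (ev_val G.la).exp).mul (ev_Pp G)).mul (ev_val G.bp)).add
    ((ev_val G.lc).exp.mul (ev_P1 G))).mul (ev_val G.lAo).neg.exp
theorem ev_τ₁ : Ev (G.τ₁ gD expG) fun z => (raw G z.1).τ₁ pdn ptE z.2 :=
  ((ev_four.mul (ev_val G.la).exp).mul (ev_Pp G)).mul (ev_val G.lAo).neg.exp

end Val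

/-- The values of the germs that enter the functions on the simplex. -/
structure PtF {l : Filter Z2} (G : Lay (SG l)) (R : Lay (En 2 → ℝ)) (ε : ℝ) (p : En 2) :
    Prop where
  hε : R.ε p = ε
  al : val (G.al expG) (ε, p) = R.al ptE p
  alA : val (G.al expG * expG G.lA) (ε, p) = R.al ptE p * Real.exp (R.lA p)
  lC : val (expG (-G.lC)) (ε, p) = Real.exp (-R.lC p)
  u₁ : val (G.al expG * expG (2 * G.u₁)) (ε, p) = R.al ptE p * Real.exp (2 * R.u₁ p)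
  u₂ : val (expG (2 * G.u₂)) (ε, p) = Real.exp (2 * R.u₂ p)
  P0 : val (G.P0 expG) (ε, p) = R.P0 ptE p
  τ₁ : val (G.τ₁ gD expG) (ε, p) = R.τ₁ pdn ptE p
  cP : val (expG G.lc * G.P1 gD expG * expG (-G.lAo)) (ε, p) =
    Real.exp (R.lc p) * R.P1 pdn ptE p * Real.exp (-R.lAo p)
  W : val (G.W expG) (ε, p) = R.W ptE p
  r₀ : val (G.τ₁ gD expG * (G.al expG * G.W expG - G.P0 expG)) (ε, p) =
    R.τ₁ pdn ptE p * (R.al ptE p * R.W ptE p - R.P0 ptE p)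
  r₀' : val (G.w2 * G.τ₂ gD expG) (ε, p) = R.w2 p * R.τ₂ pdn ptE p
  r₁ : val (G.b gD expG * (G.al expG * G.W expG - G.P0 expG)) (ε, p) =
    R.b pdn ptE p * (R.al ptE p * R.W ptE p - R.P0 ptE p)
  w2 : val G.w2 (ε, p) = R.w2 p
  at' : p 0 * val (expG (G.leh - G.lq)) (ε, p) = (2 + p 0) * R.al ptE p
  dμ : pdn 0 (R.μ ptE) p * R.P0 ptE p = ε
  b₁ : 1 - R.b pdn ptE p * R.P1 pdn ptE p = R.μ ptE p ^ 2 * R.τ₁ pdn ptE p * R.P0 ptE p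

theorem sm_ε (l : Filter Z2) : (fun (ε : ℝ) (_ : En 2) => ε) ∈ SmF l :=
  Eventually.of_forall fun _ => contDiffAt_const

theorem sm_c (l : Filter Z2) : (fun (_ : ℝ) (p : En 2) => p 0) ∈ SmF l :=
  Eventually.of_forall fun z => contDiffAt_apply ℝ ℝ 0 z.2

theorem ptF {l : Filter Z2} [OpF l] (G : Lay (SG l)) (hε : G.ε = εG l) (ok : G.Ok gD expG)
    (hb : LayBasic gD expG G) (ha : cG l * G.eh expG = (2 + cG l) * G.q expG * G.al expG) :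
    ∀ᶠ z in l, PtF G (raw G z.1) z.1 z.2 := by
  have eε : Ev G.ε fun z => z.1 := by rw [hε]; exact ev_gm (sm_ε l)
  have ec : Ev (cG l) fun z => z.2 0 := ev_gm (sm_c l)
  have ed := ((ev_al G).mul (ev_W G)).sub (ev_P0 G)
  rw [← ok.leh, ← ok.lq] at ha
  have h1 := (ec.mul (ev_val G.leh).exp).eq
    (((ev_two.add ec).mul (ev_val G.lq).exp).mul (ev_al G)) ha
  have h2 := ((ev_dμ G).mul (ev_P0 G)).eq eε hb.dμ
  have h3 := (ev_one.sub ((ev_b G).mul (ev_P1 G))).eq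
    (((ev_μ G).sq.mul (ev_τ₁ G)).mul (ev_P0 G)) hb.b₁
  filter_upwards [eε, ev_al G, (ev_al G).mul (ev_lA G).exp, (ev_lC G).neg.exp,
    (ev_al G).mul (ev_two.mul (ev_u₁ G)).exp, (ev_two.mul (ev_u₂ G)).exp, ev_P0 G, ev_τ₁ G,
    ((ev_val G.lc).exp.mul (ev_P1 G)).mul (ev_val G.lAo).neg.exp, ev_W G, (ev_τ₁ G).mul ed,
    (ev_val G.w2).mul (ev_τ₂ G), (ev_b G).mul ed, ((ev_val G.leh).sub (ev_val G.lq)).exp,
    h1, h2, h3] with z a1 a2 a3 a4 a5 a6 a7 a8 a9 a10 a11 a12 a13 a14 a15 a16 a17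
  refine ⟨a1, a2, a3, a4, a5, a6, a7, a8, a9, a10, a11, a12, a13, rfl, ?_, a16, a17⟩
  have e : Real.exp (val G.lq z) ≠ 0 := (Real.exp_pos _).ne'
  change z.2 0 * val _ z = _
  rw [a14, Real.exp_sub, ← mul_div_assoc, a15]
  field_simp

theorem isCut {c₁ : ℝ} (h : 0 < c₁) : IsCut (mcut c₁) := by
  refine ⟨?_, fun s => ⟨Real.smoothTransition.nonneg _, Real.smoothTransition.le_one _⟩, c₁, h,
    fun s hs => Real.smoothTransition.one_of_one_le ?_⟩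
  · exact Real.smoothTransition.contDiff.comp (contDiff_const.sub (contDiff_id.div_const c₁))
  · have : s / c₁ ≤ 1 := by rwa [div_le_one h]
    linarith

/-- The facts that relate the layer to the outer region and to the cutoff. -/
structure PtG {P : Prof} {c : ℝ} (s : St P c) (m : ℝ → ℝ) (w : Fin 2) (R : Lay (En 2 → ℝ))
    (ε : ℝ) (p : En 2) : Prop where
  μ : R.μ ptE =ᶠ[𝓝 p] fun q => P.Mu w (ε * q 0) (q 1)
  sm : DifferentiableAt ℝ (R.μ ptE) p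
  bp : R.bp p = val s.bp (ε, P.Φ w ε p)
  cut : m (ε * p 0) = 0 → R.y p = 0 ∧ R.w1 p = 0 ∧ R.w2 p = 0

theorem ptG {P : Prof} {c : ℝ} (g : P.Geo c) (s : St P c) {m : ℝ → ℝ} (w : Fin 2)
    (hy : yR m ∈ SmF (P.lL c w)) (hm : (fun ε (p : En 2) => m (ε * p 0)) ∈ SmF (P.lL c w))
    (hμ : (s.G m w).μ expG = gm _ fun ε p => P.Mu w (ε * p 0) (p 1)) :
    ∀ᶠ z in P.lL c w, PtG s m w (raw (s.G m w) z.1) z.1 z.2 := by
  have s0 : (fun ε (p : En 2) => P.Mu w (ε * p 0) (p 1)) ∈ SmF (P.lL c w) := (g.pull w).smooth 0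
  have h1 := (ev_μ (s.G m w)).eq (ev_gm s0) hμ
  have h2 : Ev (s.G m w).bp fun z => val s.bp (z.1, P.Φ w z.1 z.2) :=
    ev_gm ((g.pull w).mem (rep s.bp))
  have h3 : Ev (s.G m w).y fun z => yR m z.1 z.2 := ev_gm hy
  have h4 : Ev (s.G m w).w1 fun z => m (z.1 * z.2 0) * val (s.Z w 3) z :=
    (ev_gm hm).mul (ev_val _)
  have h5 : Ev (s.G m w).w2 fun z => m (z.1 * z.2 0) * val (s.Z w 4) z :=
    (ev_gm hm).mul (ev_val _)
  filter_upwards [OpF.op h1, s0, h2, h3, h4, h5] with z a1 a2 a3 a4 a5 a6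
  refine ⟨a1, (a2.differentiableAt (by simp)).congr_of_eventuallyEq a1, a3, fun h0 => ⟨?_, ?_, ?_⟩⟩
  · refine a4.trans ?_
    rw [yR, h0, zero_mul]
  · refine a5.trans ?_
    rw [h0, zero_mul]
  · refine a6.trans ?_
    rw [h0, zero_mul]

theorem gl_out (H : Chart) (hρ : 0 < H.ρ) {w : Fin 2} {ℓ : En 2} (h : 3 * H.ρ / 4 < ℓ w)
    (a b : ℝ) : H.gl w ℓ a b = b := by
  have : 3 - 4 * ℓ w / H.ρ ≤ 0 := by
    rw [sub_nonpos, le_div_iff₀ hρ]; linarith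
  simp [Chart.gl, Real.smoothTransition.zero_of_nonpos this]

theorem gl_in (H : Chart) (hρ : 0 < H.ρ) {w : Fin 2} {ℓ : En 2} (h : ℓ w ≤ H.ρ / 2)
    (a b : ℝ) : H.gl w ℓ a b = a := by
  have : 1 ≤ 3 - 4 * ℓ w / H.ρ := by
    have : 4 * ℓ w / H.ρ ≤ 2 := by rw [div_le_iff₀ hρ]; linarith
    linarith
  simp [Chart.gl, Real.smoothTransition.one_of_one_le this]

theorem gl_same (H : Chart) (w : Fin 2) (ℓ : En 2) (a : ℝ) : H.gl w ℓ a a = a := by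
  rw [Chart.gl]; ring

theorem sum_two (w : Fin 2) (f : Fin 2 → ℝ) : ∑ j, f j = f w + f (w + 1) := by
  fin_cases w
  · exact Fin.sum_univ_two f
  · exact (Fin.sum_univ_two f).trans (add_comm _ _)

theorem cd_τ : ContDiff ℝ ∞ τP := by unfold τP; fun_prop

theorem pdn_τ (j : Fin 2) (ℓ : En 2) : pdn j τP ℓ = -1 := by
  have h := ((hasFDerivAt_const (1 : ℝ) ℓ).sub (hasFDerivAt_apply (𝕜 := ℝ) 0 ℓ)).sub
    (hasFDerivAt_apply (𝕜 := ℝ) 1 ℓ)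
  rw [pdn, show τP = _ from rfl, HasFDerivAt.fderiv (f := τP) h]
  fin_cases j <;> simp

theorem pdn_m {f : En 2 → ℝ} {ℓ : En 2} (h : ContDiffAt ℝ ∞ f ℓ) (j : Fin 2) :
    pdn j (fun x => τP x * f x) ℓ = τP ℓ * pdn j f ℓ - f ℓ := by
  have := pdn_mul (cd_τ.differentiable (by simp) ℓ) (h.differentiableAt (by simp)) j
  rw [pdn_τ] at this
  exact this.trans (by ring)

theorem pdn_σ {f : En 2 → ℝ} {ℓ : En 2} (h : ContDiffAt ℝ ∞ f ℓ) (w j : Fin 2) (ε : ℝ) :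
    pdn j (fun x => x w * f x / ε) ℓ = ((if j = w then f ℓ else 0) + ℓ w * pdn j f ℓ) / ε := by
  have h1 := ((hasFDerivAt_apply (𝕜 := ℝ) w ℓ).mul
    (h.differentiableAt (by simp)).hasFDerivAt).mul_const ε⁻¹
  have e : (fun x : En 2 => x w * f x / ε) = fun x => x w * f x * ε⁻¹ := by
    simp only [div_eq_mul_inv]
  rw [e, pdn, HasFDerivAt.fderiv (f := fun x : En 2 => x w * f x * ε⁻¹) h1, pdn]
  by_cases hj : j = w
  · subst hj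
    simp
    ring
  · simp [hj, Ne.symm hj]
    ring

theorem nb {r : ℝ} (hr : 0 < r) {ℓ : En 2} (h : ℓ ∈ Int2) : ℓ ∈ Nb r :=
  ⟨by linarith [h.1], by linarith [h.2.1], by linarith [h.2.2]⟩

theorem isOpen_reg (w : Fin 2) (r : ℝ) : IsOpen {ℓ : En 2 | ℓ ∈ Int2 ∧ ℓ w < r} :=
  ((isOpen_lt continuous_const (continuous_apply 0)).inter
    ((isOpen_lt continuous_const (continuous_apply 1)).inter
      (isOpen_lt continuous_const cd_τ.continuous))).inter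
    (isOpen_lt (continuous_apply w) continuous_const)

theorem pos_w {ℓ : En 2} (h : ℓ ∈ Int2) (w : Fin 2) : 0 < ℓ w := by
  fin_cases w
  exacts [h.1, h.2.1]

section Chart

variable {P : Prof} {c : ℝ} {H : Chart} {J : Bool} {w : Fin 2} {ε : ℝ} {ℓ : En 2}

theorem δσ (h : ContDiffAt ℝ ∞ (H.K J w) ℓ) (j : Fin 2) :
    δP j (H.ΦL J w ε · 0) ℓ = H.dS J w j ℓ / ε := by
  change δP j (fun x => x w * H.K J w x / ε) ℓ = _
  simp only [Chart.dS, Chart.S, δP, EP, pdn_σ h]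
  fin_cases w <;> simp <;> ring

theorem Φ_eq (h : H.Ok P c) (hε : 0 < ε) (hI : ℓ ∈ Int2) (h1 : ℓ w < H.ρ) :
    P.Mu w (ε * H.ΦL J w ε ℓ 0) (H.ΦL J w ε ℓ 1) = τP ℓ * H.φ J ℓ := by
  obtain ⟨-, -, -, h4, -⟩ := h.col J w ℓ (nb h.pos.2.1 hI) h1.le
  rw [← h4]
  change P.Mu w (ε * (ℓ w * H.K J w ℓ / ε)) (H.ξ J ℓ) = _
  rw [mul_div_cancel₀ _ hε.ne']

theorem diff_Φ (h : H.Ok P c) (hI : ℓ ∈ Int2) (h1 : ℓ w < H.ρ) :
    DifferentiableAt ℝ (H.ΦL J w ε) ℓ := by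
  have hK := (h.col J w ℓ (nb h.pos.2.1 hI) h1.le).1.differentiableAt (by simp)
  have hξ := (h.sm J ℓ (nb h.pos.2.1 hI)).2.1.differentiableAt (by simp)
  refine differentiableAt_pi.2 fun a => ?_
  fin_cases a
  · change DifferentiableAt ℝ (fun x : En 2 => x w * H.K J w x / ε) ℓ
    simp only [div_eq_mul_inv]
    exact ((differentiableAt_apply (𝕜 := ℝ) w ℓ).mul hK).mul_const ε⁻¹
  · exact hξ

/-- The chain rule for `τ φ = μ (σ, ξ)`. -/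
theorem chain (b1 : B1Stmt) (h : H.Ok P c) (hε : 0 < ε) (hI : ℓ ∈ Int2) (h1 : ℓ w < H.ρ)
    {M : En 2 → ℝ} (hM : M =ᶠ[𝓝 (H.ΦL J w ε ℓ)] fun q => P.Mu w (ε * q 0) (q 1))
    (hd : DifferentiableAt ℝ M (H.ΦL J w ε ℓ)) (j : Fin 2) :
    τP ℓ * H.n J j ℓ = pdn 0 M (H.ΦL J w ε ℓ) * (H.dS J w j ℓ / ε) +
      pdn 1 M (H.ΦL J w ε ℓ) * δP j (H.ξ J) ℓ := by
  have hΦ := diff_Φ (J := J) (ε := ε) h hI h1
  have hφ := (h.sm J ℓ (nb h.pos.2.1 hI)).1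
  have hK := (h.col J w ℓ (nb h.pos.2.1 hI) h1.le).1
  have e : (fun x => τP x * H.φ J x) =ᶠ[𝓝 ℓ] M ∘ H.ΦL J w ε := by
    filter_upwards [hΦ.continuousAt.eventually hM, (isOpen_reg w H.ρ).mem_nhds ⟨hI, h1⟩]
      with x h2 h3
    exact (h2.trans (Φ_eq h hε h3.1 h3.2)).symm
  have k : ∀ i, τP ℓ * pdn i (H.φ J) ℓ - H.φ J ℓ =
      pdn 0 M (H.ΦL J w ε ℓ) * pdn i (H.ΦL J w ε · 0) ℓ +
        pdn 1 M (H.ΦL J w ε ℓ) * pdn i (H.ξ J) ℓ := fun i => by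
    rw [← pdn_m hφ, (pdn_congr e i).self_of_nhds, (b1 2).chain hΦ hd, Fin.sum_univ_two]
    rfl
  rw [← δσ hK]
  simp only [Chart.n, δP, EP]
  have t : τP ℓ = 1 - ℓ 0 - ℓ 1 := rfl
  linear_combination k j - ℓ 0 * k 0 - ℓ 1 * k 1 - H.φ J ℓ * t

end Chart

section Main

variable {P : Prof} {c : ℝ} {g : P.Geo c} {Z : ZD P c} {N : ℕ} {Cb : ℝ} {J : Bool} {w : Fin 2}
  {ε : ℝ} {ℓ : En 2}

theorem rel (b1 : B1Stmt) (hZ : Z.Ok g N Cb) (hε : 0 < ε) (hI : ℓ ∈ Int2) (h1 : ℓ w < Z.H.ρ)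
    (h2 : 3 * Z.H.ρ / 4 < ℓ (w + 1)) {R : Lay (En 2 → ℝ)} (hR : R = Z.s.GR (mcut Z.c₁) w ε)
    {p : En 2} (hp : p = Z.H.ΦL J w ε ℓ) (hF : PtF (Z.G w) R ε p)
    (hG : PtG Z.s (mcut Z.c₁) w R ε p) (z0 : 0 < Z.L J ε w ((Z.G w).al expG) ℓ)
    (z1 : ∀ i j, Z.q J ε i j ℓ + (if i = j then Z.ν ε * Z.p J ε i ℓ / (4 * ℓ i) else 0) =
      Z.ν ε ^ 2 / (ε * Z.H.φ J ℓ) * Z.H.dS J w i ℓ * Z.H.dS J w j ℓ /
          Z.L J ε w ((Z.G w).al expG * expG (Z.G w).lA) ℓ +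
        Z.ν ε ^ 2 / (ε * Z.H.φ J ℓ ^ 3) * Z.L J ε w (expG (-(Z.G w).lC)) ℓ * Z.oh J ε w i ℓ *
          Z.oh J ε w j ℓ)
    (z2 : Z.p J ε w ℓ * ℓ w * Z.H.φ J ℓ =
      Z.ν ε * ε * Z.L J ε w ((Z.G w).al expG * expG (2 * (Z.G w).u₁)) ℓ)
    (z3 : Z.p J ε (w + 1) ℓ * ℓ (w + 1) * Z.H.φ J ℓ =
      Z.ν ε * ε * Z.L J ε w (expG (2 * (Z.G w).u₂)) ℓ) :
    Rel (Z.ν ε) (Z.p J ε) (Z.q J ε) (Z.v J ε) (Z.s.BL (mcut Z.c₁) w ε) (Z.H.ΦL J w ε) w ℓ := by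
  have h := hZ.chart
  have hρ := h.pos.2.1
  obtain ⟨-, -, hφ0, -, -, hdet⟩ := h.sm J ℓ (nb hρ hI)
  obtain ⟨hK, hK0, -⟩ := h.col J w ℓ (nb hρ hI) h1.le
  have hKp : 0 < Z.H.K J w ℓ := h.pos.2.2.2.1.trans_le hK0
  have hL : ∀ f, Z.L J ε w f ℓ = val f (ε, p) := fun f => by rw [hp]; rfl
  have hν : Z.ν ε ≠ 0 := (mul_pos hε h.pos.1).ne'
  have hτ := hI.2.2.ne'
  have hφ := hφ0.ne'
  have hε' := hε.ne'
  have hK' := hKp.ne'
  have lw := (pos_w hI w).ne'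
  have lw' := (pos_w hI (w + 1)).ne'
  have p0 : p 0 = ℓ w * Z.H.K J w ℓ / ε := by rw [hp]; rfl
  have hσ : 0 < p 0 := by rw [p0]; exact div_pos (mul_pos (pos_w hI w) hKp) hε
  have hμ : R.μ ptE p = τP ℓ * Z.H.φ J ℓ := by
    rw [hG.μ.self_of_nhds, hp]; exact Φ_eq h hε hI h1
  have hbp : Z.o J ε Z.s.bp ℓ = R.bp p := by
    rw [hG.bp, ZD.o, Prof.Φ, hp, Φ_eq h hε hI h1]; rfl
  rw [hL, hF.al] at z0
  have hal := z0.ne'
  rw [hL, hF.u₁] at z2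
  rw [hL, hF.u₂] at z3
  simp only [hL, hF.alA, hF.lC] at z1
  -- the chain rule
  have ch : ∀ j, Z.H.dS J w j ℓ =
      R.P0 ptE p * (τP ℓ * Z.H.n J j ℓ) + R.P1 pdn ptE p * δP j (Z.H.ξ J) ℓ := fun j => by
    have k := chain b1 h hε hI h1 (hp ▸ hG.μ) (hp ▸ hG.sm) j
    rw [← hp] at k
    have e : R.P1 pdn ptE p = -(R.P0 ptE p * pdn 1 (R.μ ptE) p) := rfl
    have d := hF.dμ
    rw [k, e]
    field_simp
    linear_combination (-Z.H.dS J w j ℓ) * d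
  have eb : R.b pdn ptE p = R.μ ptE p ^ 2 * R.τ₁ pdn ptE p * R.bp p +
      Real.exp (R.lc p) * R.P1 pdn ptE p * Real.exp (-R.lAo p) := by
    simp only [Lay.b, Lay.τ₁, ptE, Pi.mul_apply, Pi.add_apply, Pi.pow_apply, Pi.neg_apply,
      Pi.ofNat_apply]
    ring
  have b₁ := hF.b₁
  rw [hμ] at eb b₁
  have hoh : ∀ j, δP j (Z.H.ξ J) ℓ - R.b pdn ptE p * Z.H.dS J w j ℓ = τP ℓ * Z.oh J ε w j ℓ :=
    fun j => by
    simp only [ZD.oh, ZD.om, hL, hF.P0, hF.τ₁, hF.cP, hbp]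
    rw [ch j]
    linear_combination δP j (Z.H.ξ J) ℓ * b₁ - R.P0 ptE p * τP ℓ * Z.H.n J j ℓ * eb
  -- the cutoff
  have g0 : ∀ a : ℝ, (R.y p = 0 → R.w1 p = 0 → R.w2 p = 0 → a = 0) → Z.H.gl w ℓ a 0 = a := by
    intro a ha
    rcases le_total (ℓ w) (Z.H.ρ / 2) with h3 | h3
    · exact gl_in _ hρ h3 _ _
    · have : mcut Z.c₁ (ε * p 0) = 0 := by
        refine Real.smoothTransition.zero_of_nonpos ?_
        rw [sub_nonpos, le_div_iff₀ hZ.c₁_pos, p0, mul_div_cancel₀ _ hε']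
        have := mul_le_mul h3 hK0 h.pos.2.2.2.1.le (pos_w hI w).le
        have := hZ.c₁_le
        have := hZ.c₁_pos
        linarith
      obtain ⟨k1, k2, k3⟩ := hG.cut this
      rw [ha k1 k2 k3, gl_same]
  have dW : R.y p = 0 → R.w1 p = 0 → R.al ptE p * R.W ptE p - R.P0 ptE p = 0 := fun k1 k2 => by
    simp [Lay.al, Lay.W, k1, k2]
  have r0 : Z.r₀ J ε ℓ = Z.H.φ J ℓ + EP (Z.H.φ J) ℓ + Z.H.φ J ℓ ^ 2 * (τP ℓ * Z.H.φ J ℓ *
      (R.τ₁ pdn ptE p * (R.al ptE p * R.W ptE p - R.P0 ptE p)) + R.w2 p * R.τ₂ pdn ptE p) := by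
    rw [ZD.r₀, sum_two w, gl_out _ hρ h2, add_zero, hL, hL, ZD.dW', hF.r₀, hF.r₀', g0]
    intro k1 k2 k3
    rw [dW k1 k2, k3]; ring
  have r1 : Z.r₁ J ε ℓ = EP (Z.H.ξ J) ℓ + Z.H.φ J ℓ * (R.b pdn ptE p *
      (R.al ptE p * R.W ptE p - R.P0 ptE p) + τP ℓ * Z.H.φ J ℓ * R.w2 p) := by
    rw [ZD.r₁, sum_two w, gl_out _ hρ h2, add_zero, hL, hL, ZD.dW', hF.r₁, hF.w2, g0]
    intro k1 k2 k3
    rw [dW k1 k2, k3]; ring
  have n0 : ∑ j, Z.Nv J ε j ℓ * Z.H.n J j ℓ = Z.r₀ J ε ℓ := by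
    simp only [Fin.sum_univ_two, ZD.Nv, Matrix.cons_val_zero, Matrix.cons_val_one]
    field_simp
    rw [Chart.det]; ring
  have n1 : ∑ j, Z.Nv J ε j ℓ * δP j (Z.H.ξ J) ℓ = Z.r₁ J ε ℓ := by
    simp only [Fin.sum_univ_two, ZD.Nv, Matrix.cons_val_zero, Matrix.cons_val_one]
    field_simp
    rw [Chart.det]; ring
  have t : τP ℓ = 1 - ℓ 0 - ℓ 1 := rfl
  have v1 : ∑ j, (-ℓ j + τP ℓ * Z.Nv J ε j ℓ) * δP j (Z.H.ξ J) ℓ = τP ℓ * Z.H.φ J ℓ *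
      (R.b pdn ptE p * (R.al ptE p * R.W ptE p - R.P0 ptE p) + τP ℓ * Z.H.φ J ℓ * R.w2 p) := by
    rw [r1] at n1
    simp only [Fin.sum_univ_two, δP, EP] at n1 ⊢
    linear_combination τP ℓ * n1 + (ℓ 0 * pdn 0 (Z.H.ξ J) ℓ + ℓ 1 * pdn 1 (Z.H.ξ J) ℓ) * t
  have vμ : ∑ j, (-ℓ j + τP ℓ * Z.Nv J ε j ℓ) * Z.H.n J j ℓ = Z.H.φ J ℓ +
      τP ℓ * Z.H.φ J ℓ ^ 2 * (τP ℓ * Z.H.φ J ℓ *
        (R.τ₁ pdn ptE p * (R.al ptE p * R.W ptE p - R.P0 ptE p)) + R.w2 p * R.τ₂ pdn ptE p) := by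
    rw [r0] at n0
    simp only [Fin.sum_univ_two, Chart.n, δP, EP] at n0 ⊢
    linear_combination τP ℓ * n0 +
      (Z.H.φ J ℓ + ℓ 0 * pdn 0 (Z.H.φ J) ℓ + ℓ 1 * pdn 1 (Z.H.φ J) ℓ) * t
  have v0 : ∑ j, (-ℓ j + τP ℓ * Z.Nv J ε j ℓ) * Z.H.dS J w j ℓ =
      τP ℓ * Z.H.φ J ℓ * R.al ptE p * R.W ptE p := by
    have e : R.P1 pdn ptE p = -(R.P0 ptE p * R.τ₂ pdn ptE p) := rfl
    simp only [Fin.sum_univ_two] at v1 vμ ⊢
    rw [ch 0, ch 1]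
    linear_combination R.P0 ptE p * τP ℓ * vμ + R.P1 pdn ptE p * v1 -
      τP ℓ * Z.H.φ J ℓ * (R.al ptE p * R.W ptE p - R.P0 ptE p) * b₁ +
      (τP ℓ * Z.H.φ J ℓ) ^ 2 * R.w2 p * e
  have hat : Z.at' J ε w ℓ * (ℓ w * Z.H.K J w ℓ) = ε * R.al ptE p := by
    have e : Z.H.σ J w ε ℓ = p 0 := by rw [hp]; rfl
    have e1 : ℓ w * Z.H.K J w ℓ = ε * p 0 := by rw [p0, mul_div_cancel₀ _ hε']
    have e2 : 2 + p 0 ≠ 0 := by positivity
    have a := hF.at'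
    rw [ZD.at', hL, e, e1]
    field_simp
    linear_combination a
  have hN : ℓ w * (Z.H.φ J ℓ * Z.at' J ε w ℓ * R.W ptE p / ε + 1 + (EP (Z.H.K J w) ℓ -
      ∑ j, Z.Nv J ε j ℓ * Z.H.S J w j ℓ) / Z.H.K J w ℓ) = Z.Nv J ε w ℓ := by
    have e1 : ∑ j, Z.Nv J ε j ℓ * Z.H.dS J w j ℓ =
        Z.Nv J ε w ℓ * Z.H.K J w ℓ + ℓ w * ∑ j, Z.Nv J ε j ℓ * Z.H.S J w j ℓ := by
      simp only [Chart.dS, Fin.sum_univ_two]
      fin_cases w <;> simp <;> ring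
    have e2 : ∑ j, ℓ j * Z.H.dS J w j ℓ = τP ℓ * ℓ w * (EP (Z.H.K J w) ℓ + Z.H.K J w ℓ) := by
      simp only [Chart.dS, Chart.S, δP, EP, Fin.sum_univ_two, t]
      fin_cases w <;> simp <;> ring
    have e3 : ∑ j, Z.Nv J ε j ℓ * Z.H.dS J w j ℓ = Z.H.φ J ℓ * R.al ptE p * R.W ptE p +
        ℓ w * (EP (Z.H.K J w) ℓ + Z.H.K J w ℓ) := by
      refine mul_left_cancel₀ hτ ?_
      simp only [Fin.sum_univ_two] at e2 v0 ⊢
      linear_combination v0 + e2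
    rw [e1] at e3
    generalize ∑ j, Z.Nv J ε j ℓ * Z.H.S J w j ℓ = A at e3 ⊢
    field_simp
    linear_combination Z.H.φ J ℓ * R.W ptE p * hat - ε * e3
  have hv : ∀ j, (-1 + τP ℓ * Z.v J ε j ℓ) * ℓ j = -ℓ j + τP ℓ * Z.Nv J ε j ℓ := by
    have a : Z.v J ε w ℓ = Z.Nv J ε w ℓ / ℓ w := by
      rw [ZD.v, hL, hF.W, ← hN, mul_div_cancel_left₀ _ lw, gl_same]
    have a' : Z.v J ε (w + 1) ℓ = Z.Nv J ε (w + 1) ℓ / ℓ (w + 1) := by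
      rw [ZD.v, gl_out _ hρ h2]
    intro j
    obtain rfl | rfl : j = w ∨ j = w + 1 := by fin_cases j <;> fin_cases w <;> simp
    · rw [a]; field_simp
    · rw [a']; field_simp
  have e1 : (Z.H.ΦL J w ε · 1) = Z.H.ξ J := rfl
  have ex : ∀ x : ℝ, Real.exp x * Real.exp (-x) = 1 := fun x => by rw [← Real.exp_add]; simp
  have hB : Z.s.BL (mcut Z.c₁) w ε =
      R.blk pdn ptE (fun _ => ε⁻¹) (R.μ ptE)⁻¹ (R.al ptE)⁻¹ := by rw [hR]; rfl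
  have hβ : (Z.s.BL (mcut Z.c₁) w ε).β p = ε * R.b pdn ptE p := by
    rw [hB, Lay.blk]
    simp only [Pi.mul_apply, hF.hε]
  have va : (Z.s.BL (mcut Z.c₁) w ε).a p * (Z.s.BL (mcut Z.c₁) w ε).f₁ p =
      τP ℓ * Z.H.φ J ℓ * R.al ptE p * R.W ptE p / ε := by
    rw [hB, Lay.blk]
    simp only [Pi.mul_apply, hμ]
    have := ex (R.lA p)
    change ε⁻¹ * _ * _ * Real.exp (R.lA p) * (_ * Real.exp (-R.lA p)) = _
    linear_combination τP ℓ * Z.H.φ J ℓ * R.al ptE p * R.W ptE p / ε * this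
  have vc : (Z.s.BL (mcut Z.c₁) w ε).C p * (Z.s.BL (mcut Z.c₁) w ε).f₂ p = τP ℓ * Z.H.φ J ℓ *
      (-(R.b pdn ptE p * R.P0 ptE p) + τP ℓ * Z.H.φ J ℓ * R.w2 p) := by
    rw [hB, Lay.blk]
    simp only [Lay.Y, Lay.Yo, Pi.mul_apply, Pi.add_apply, Pi.neg_apply, Pi.pow_apply,
      Pi.inv_apply, hμ, hF.hε]
    have := ex (R.lC p)
    change ε * _ * Real.exp (R.lC p) * (_ * Real.exp (-R.lC p)) = _
    rw [Real.exp_neg]
    have := (Real.exp_pos (R.lC p)).ne'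
    field_simp
  refine ⟨fun i j => ?_, ?_, ?_, ?_, ?_⟩
  · have k : ∀ j, δP j (Z.H.ξ J) ℓ - ε * R.b pdn ptE p * (Z.H.dS J w j ℓ / ε) =
        τP ℓ * Z.oh J ε w j ℓ := fun j => by
      rw [← hoh j]; field_simp
    rw [z1, e1, δσ hK, δσ hK, ← hp, hβ, k, k, hB, Lay.blk]
    simp only [Pi.mul_apply, Pi.pow_apply, Pi.inv_apply, hμ, hF.hε]
    change _ = _ * (_ * (_ * Real.exp (-R.lA p)) + _ * (_ * Real.exp (-R.lC p)))
    rw [Real.exp_neg (R.lA p)]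
    have := (Real.exp_pos (R.lA p)).ne'
    field_simp
  · rw [← hp, hB, Lay.blk]
    simp only [Pi.mul_apply, Pi.inv_apply, hμ, hF.hε]
    change _ * Real.exp (2 * R.u₁ p) = _
    field_simp
    linear_combination -z2
  · rw [← hp, hB, Lay.blk]
    simp only [Pi.mul_apply, Pi.inv_apply, hμ, hF.hε]
    change _ * Real.exp (2 * R.u₂ p) = _
    field_simp
    linear_combination -z3
  · rw [← hp]
    change _ = (Z.s.BL (mcut Z.c₁) w ε).a p * (Z.s.BL (mcut Z.c₁) w ε).f₁ p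
    rw [va, ← v0, Finset.sum_div]
    refine Finset.sum_congr rfl fun j _ => ?_
    rw [hv, δσ hK, mul_div_assoc]
  · rw [← hp]
    change _ = (Z.s.BL (mcut Z.c₁) w ε).β p * ((Z.s.BL (mcut Z.c₁) w ε).a p *
      (Z.s.BL (mcut Z.c₁) w ε).f₁ p) +
      (Z.s.BL (mcut Z.c₁) w ε).C p * (Z.s.BL (mcut Z.c₁) w ε).f₂ p
    simp only [hv, e1]
    rw [v1, va, vc, hβ]
    field_simp
    ring

end Main

end ZLayRel

theorem zlayRel (b1 : B1Stmt) (b2 : B2Stmt) (av : AvgStmt) (wt : WtStmt) (lb : LayBasicStmt)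
    (zi : ZIdStmt) : ZLayRelStmt := by
  intro P c g Z N Cb J w hZ
  have hm := ZLayRel.isCut hZ.c₁_pos
  have gf := (hZ.fin.lay _ hm w).1
  have B := b2 ℝ 2 (P.lL c w) 1 fun _ => zero_le_one
  have sm := (wt c (P.lo w) (P.hi w) g.pos).sm _ hm
  have hb := lb _ gD expG (Z.G w) isDer_gD ⟨B.exp_add, B.exp_zero, B.exp_der⟩
    (av.1 c (P.lo w) (P.hi w) g.pos).e16 gf.ok
  have hF := ZLayRel.ptF (Z.G w) rfl gf.ok hb gf.al
  have hG := ZLayRel.ptG g Z.s w sm.1 sm.2.2 gf.mu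
  filter_upwards [ev_fam.1 (hF.and hG), zi P c g Z N Cb J w hZ, self_mem_nhdsWithin]
    with ε h1 h2 hε ℓ hI k1 k2
  have hε : 0 < ε := hε
  have hρ := hZ.chart.pos.2.1
  obtain ⟨-, c1, c2, -, c3, -⟩ := hZ.chart.col J w ℓ (ZLayRel.nb hρ hI) k1.le
  have hσ : 0 < ℓ w * Z.H.K J w ℓ / ε :=
    div_pos (mul_pos (ZLayRel.pos_w hI w) (hZ.chart.pos.2.2.2.1.trans_le c1)) hε
  have hd : ℓ ∈ Dz ε := by
    have := sq_nonneg ε
    exact ⟨by linarith [hI.1], by linarith [hI.2.1], by linarith [hI.2.2]⟩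
  obtain ⟨f1, f2⟩ := h1 (Z.H.ΦL J w ε ℓ) ⟨show -1 < ℓ w * Z.H.K J w ℓ / ε by linarith,
    show ε * (ℓ w * Z.H.K J w ℓ / ε) < c by
      rw [mul_div_cancel₀ _ hε.ne']; exact (le_abs_self _).trans_lt c2, c3⟩
  obtain ⟨z0, z1, z2, z3⟩ := h2 ℓ hd (ZLayRel.pos_w hI w) k1 k2
  exact ZLayRel.rel b1 hZ hε hI k1 k2 rfl rfl f1 f2 z0 z1 z2 z3

end Pool.Agent.Lib.MP_df9110_gt
end
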