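import Pool.Agent.Lib.MP_df9110_gt.NPln

/-! Polynomial bounds for the approximate solutions on the simplex. -/

namespace Pool.Agent.Lib.MP_df9110_gt

open Filter Topology Set
open scoped ContDiff

namespace ZReg

/-- `F` is smooth and its derivatives of order `j` are `O(ρ ^ (k + j))`. -/
structure R (l : Filter Z2) (ρ : Z2 → ℝ) (k : ℕ) (F : ℝ → En 2 → ℝ) : Prop where
  b : B1Facts 2
  one : ∀ᶠ z in l, 1 ≤ ρ z
  sm : ∀ᶠ z in l, ContDiffAt ℝ ∞ (F z.1) z.2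
  bd : ∀ j, ∃ C : ℝ, 0 ≤ C ∧ ∀ᶠ z in l, WB (ρ z) j (C * ρ z ^ k) (F z.1) z.2

/-- The first derivatives are `O(ρ)`. -/
def DB (l : Filter Z2) (ρ : Z2 → ℝ) (u : ℝ → En 2 → ℝ) : Prop :=
  (∀ᶠ z in l, ContDiffAt ℝ ∞ (u z.1) z.2) ∧ ∀ i, R l ρ 1 (fD i u)

section Calc

variable {l l' : Filter Z2} {ρ : Z2 → ℝ} {k j : ℕ} {F G u : ℝ → En 2 → ℝ}

theorem R.pb (h : R l ρ k F) : PB l ρ (fun z => ρ z ^ k) F :=
  ⟨h.sm, fun j => by
    obtain ⟨C, -, hC⟩ := h.bd j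
    refine ⟨C, ?_⟩
    filter_upwards [hC, h.one] with z h1 h2
    rwa [abs_of_nonneg (pow_nonneg (zero_le_one.trans h2) k)]⟩

theorem R.congr (h : R l ρ k F) (e : ∀ᶠ z in l, F z.1 =ᶠ[𝓝 z.2] G z.1) : R l ρ k G :=
  ⟨h.b, h.one, by filter_upwards [h.sm, e] with z h1 h2 using h1.congr_of_eventuallyEq h2.symm,
    fun j => by
      obtain ⟨C, h0, hC⟩ := h.bd j
      exact ⟨C, h0, by filter_upwards [hC, e] with z h1 h2 using h.b.congr h1 h2⟩⟩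

theorem R.eq (h : R l ρ k F) (e : ∀ ε ℓ, F ε ℓ = G ε ℓ) : R l ρ k G :=
  h.congr (Eventually.of_forall fun z => Eventually.of_forall (e z.1))

theorem R.res (h : R l ρ k F) (hl : l' ≤ l) : R l' ρ k F :=
  ⟨h.b, hl h.one, hl h.sm, fun j => (h.bd j).imp fun _ hC => ⟨hC.1, hl hC.2⟩⟩

theorem R.up (h : R l ρ k F) (hk : k ≤ j) : R l ρ j F :=
  ⟨h.b, h.one, h.sm, fun i => (h.bd i).imp fun C hC => ⟨hC.1, by
    filter_upwards [hC.2, h.one] with z h1 h2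
    exact h.b.mono h1 (zero_le_one.trans h2) le_rfl
      (mul_le_mul_of_nonneg_left (pow_le_pow_right₀ h2 hk) hC.1)⟩⟩

theorem R.add (h : R l ρ k F) (h' : R l ρ j G) :
    R l ρ (max k j) fun ε ℓ => F ε ℓ + G ε ℓ :=
  ⟨h.b, h.one, by filter_upwards [h.sm, h'.sm] with z h1 h2 using h1.add h2, fun i => by
    obtain ⟨C, h0, hC⟩ := (h.up (le_max_left k j)).bd i
    obtain ⟨C', h0', hC'⟩ := (h'.up (le_max_right k j)).bd i
    refine ⟨C + C', add_nonneg h0 h0', ?_⟩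
    filter_upwards [hC, hC', h.sm, h'.sm] with z h1 h2 h3 h4
    rw [add_mul]
    exact h.b.add h3 h4 h1 h2⟩

theorem R.mul (h : R l ρ k F) (h' : R l ρ j G) : R l ρ (k + j) fun ε ℓ => F ε ℓ * G ε ℓ :=
  ⟨h.b, h.one, by filter_upwards [h.sm, h'.sm] with z h1 h2 using h1.mul h2, fun i => by
    obtain ⟨C, h0, hC⟩ := h.bd i
    obtain ⟨C', h0', hC'⟩ := h'.bd i
    refine ⟨2 ^ i * C * C', by positivity, ?_⟩
    filter_upwards [hC, hC', h.sm, h'.sm] with z h1 h2 h3 h4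
    have := h.b.mul h3 h4 h1 h2
    rwa [show 2 ^ i * (C * ρ z ^ k) * (C' * ρ z ^ j) = 2 ^ i * C * C' * ρ z ^ (k + j) by ring]
      at this⟩

/-- A function of the parameter only. -/
theorem R.par (h : R l ρ j F) (c : ℝ → ℝ) (k : ℕ) (C : ℝ) (hc : ∀ᶠ z in l, |c z.1| ≤ C * ρ z ^ k) :
    R l ρ k fun ε _ => c ε :=
  ⟨h.b, h.one, Eventually.of_forall fun _ => contDiffAt_const, fun i => ⟨|C|, abs_nonneg C, by
    filter_upwards [hc, h.one] with z h1 h2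
    have h3 := zero_le_one.trans h2
    exact h.b.mono (h.b.const i (c z.1) z.2 h3) h3 le_rfl
      (h1.trans (mul_le_mul_of_nonneg_right (le_abs_self C) (pow_nonneg h3 k)))⟩⟩

theorem R.cst (h : R l ρ j F) (c : ℝ) : R l ρ 0 fun _ _ => c :=
  h.par (fun _ => c) 0 |c| (Eventually.of_forall fun z => by simp)

theorem R.neg (h : R l ρ k F) : R l ρ k fun ε ℓ => -F ε ℓ :=
  (h.mul (h.cst (-1))).eq fun _ _ => mul_neg_one _

theorem R.sub (h : R l ρ k F) (h' : R l ρ j G) :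
    R l ρ (max k j) fun ε ℓ => F ε ℓ - G ε ℓ :=
  (h.add h'.neg).eq fun _ _ => (sub_eq_add_neg _ _).symm

theorem R.div (h : R l ρ k F) (h' : R l ρ j fun ε ℓ => (G ε ℓ)⁻¹) :
    R l ρ (k + j) fun ε ℓ => F ε ℓ / G ε ℓ :=
  (h.mul h').eq fun _ _ => (div_eq_mul_inv _ _).symm

theorem R.imul (h : R l ρ k fun ε ℓ => (F ε ℓ)⁻¹) (h' : R l ρ j fun ε ℓ => (G ε ℓ)⁻¹) :
    R l ρ (k + j) fun ε ℓ => (F ε ℓ * G ε ℓ)⁻¹ :=
  (h.mul h').eq fun _ _ => (mul_inv _ _).symm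

theorem R.pow (h : R l ρ 0 F) (n : ℕ) : R l ρ 0 fun ε ℓ => F ε ℓ ^ n := by
  induction n with
  | zero => exact (h.cst 1).eq fun _ _ => (pow_zero _).symm
  | succ n ih => exact (ih.mul h).eq fun _ _ => (pow_succ _ _).symm

theorem R.ipow (h : R l ρ 0 fun ε ℓ => (F ε ℓ)⁻¹) (n : ℕ) : R l ρ 0 fun ε ℓ => (F ε ℓ ^ n)⁻¹ :=
  (h.pow n).eq fun _ _ => inv_pow _ _

theorem R.ite (h : R l ρ k F) (p : Prop) [Decidable p] :
    R l ρ k fun ε ℓ => if p then F ε ℓ else 0 := by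
  split_ifs
  exacts [h, (h.cst 0).up (Nat.zero_le k)]

theorem R.sum {f : Fin 2 → ℝ → En 2 → ℝ} (h : ∀ w, R l ρ k (f w)) :
    R l ρ k fun ε ℓ => ∑ w, f w ε ℓ :=
  (((h 0).add (h 1)).up (max_self k).le).eq fun ε ℓ => (Fin.sum_univ_two fun w => f w ε ℓ).symm

theorem R.bdd (h : R l ρ 0 F) : ∃ C : ℝ, ∀ᶠ z in l, |F z.1 z.2| ≤ C := by
  obtain ⟨C, -, hC⟩ := h.bd 0
  exact ⟨C, hC.mono fun z hz => by simpa using h.b.nonneg hz⟩

theorem R.der (h : R l ρ k F) (i : Fin 2) : R l ρ (k + 1) (fD i F) :=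
  ⟨h.b, h.one, h.sm.mono fun _ hz => contDiffAt_pdn hz i, fun j =>
    (h.bd (j + 1)).imp fun C hC => ⟨hC.1, hC.2.mono fun z hz => by
      rw [pow_succ, ← mul_assoc]
      exact hz.2 i⟩⟩

theorem R.db (h : R l ρ 0 F) : DB l ρ F := ⟨h.sm, h.der⟩

theorem DB.unif (h : DB l ρ u) (j : ℕ) :
    ∃ b : ℝ, 0 ≤ b ∧ ∀ b', b ≤ b' → ∀ᶠ z in l, ∀ i, WB (ρ z) j (b' * ρ z) (pdn i (u z.1)) z.2 := by
  obtain ⟨C, h0, hC⟩ := (h.2 0).bd j
  obtain ⟨C', h0', hC'⟩ := (h.2 1).bd j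
  refine ⟨C + C', add_nonneg h0 h0', fun b' hb => ?_⟩
  filter_upwards [hC, hC', (h.2 0).one] with z h1 h2 h3
  have h4 := zero_le_one.trans h3
  rw [pow_one] at h1 h2
  exact Fin.forall_fin_two.2
    ⟨(h.2 0).b.mono h1 h4 le_rfl (mul_le_mul_of_nonneg_right (by linarith) h4),
      (h.2 0).b.mono h2 h4 le_rfl (mul_le_mul_of_nonneg_right (by linarith) h4)⟩

theorem DB.aff (h : DB l ρ u) (a c : ℝ) : DB l ρ fun ε ℓ => a + c * u ε ℓ :=
  ⟨h.1.mono fun _ hz => contDiffAt_const.add (contDiffAt_const.mul hz), fun i =>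
    ((h.2 i).mul ((h.2 i).cst c)).congr (h.1.mono fun z hz => (ev_diff hz).mono fun q hq => by
      simp only [fD, pdn]
      rw [fderiv_const_add, fderiv_const_mul hq]
      simp [mul_comm])⟩

theorem DB.comp (h : DB l ρ u) {φ : ℝ → ℝ} (hφ : ∀ᶠ z in l, ContDiffAt ℝ ∞ φ (u z.1 z.2))
    (hb : ∀ j, ∃ A : ℝ, ∀ᶠ z in l, |iteratedDeriv j φ (u z.1 z.2)| ≤ A) :
    R l ρ 0 fun ε ℓ => φ (u ε ℓ) := by
  have b := (h.2 0).b
  refine ⟨b, (h.2 0).one, ?_, fun j => ?_⟩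
  · filter_upwards [h.1, hφ] with z h1 h2 using h2.comp z.2 h1
  obtain ⟨C, hC⟩ := b.comp1 j
  obtain ⟨c, h0, hc⟩ := h.unif j
  choose A hA using hb
  refine ⟨|C * (∑ i ∈ Finset.range (j + 2), |A i|) * (1 + c) ^ (j + 1)|, abs_nonneg _, ?_⟩
  filter_upwards [h.1, hφ, hc c le_rfl, (h.2 0).one,
    (eventually_all_finset (Finset.range (j + 2))).2 fun i _ => hA i] with z h1 h2 h3 h4 h5
  have h6 := zero_le_one.trans h4
  rw [pow_zero, mul_one]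
  refine b.mono (b.of_le (hC h1 h2 h6 h0 (fun i hi => ?_) h3) j.le_succ) h6 le_rfl (le_abs_self _)
  have hi' : i ∈ Finset.range (j + 2) := Finset.mem_range.2 (by omega)
  exact (h5 i hi').trans ((le_abs_self _).trans
    (Finset.single_le_sum (f := fun i => |A i|) (fun _ _ => abs_nonneg _) hi'))

theorem DB.exp (h : DB l ρ u) (C : ℝ) (hC : ∀ᶠ z in l, u z.1 z.2 ≤ C) :
    R l ρ 0 fun ε ℓ => Real.exp (u ε ℓ) :=
  h.comp (Eventually.of_forall fun _ => Real.contDiff_exp.contDiffAt) fun j => ⟨Real.exp C,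
    hC.mono fun z hz => by
      rw [iteratedDeriv_eq_iterate, Real.iter_deriv_exp, abs_of_pos (Real.exp_pos _)]
      exact Real.exp_le_exp.2 hz⟩

theorem R.exp (h : R l ρ 0 F) : R l ρ 0 fun ε ℓ => Real.exp (F ε ℓ) := by
  obtain ⟨C, hC⟩ := h.bdd
  exact h.db.exp C (hC.mono fun z hz => (le_abs_self _).trans hz)

theorem DB.inv (h : DB l ρ u) {c : ℝ} (hc : 0 < c) (hC : ∀ᶠ z in l, c ≤ u z.1 z.2) :
    R l ρ 0 fun ε ℓ => (u ε ℓ)⁻¹ :=
  h.comp (φ := Inv.inv) (hC.mono fun _ hz => contDiffAt_inv ℝ (hc.trans_le hz).ne') fun j =>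
    ⟨j.factorial * (c ^ (j + 1))⁻¹, hC.mono fun z hz => by
      have h0 := hc.trans_le hz
      rw [iteratedDeriv_eq_iterate, iter_deriv_inv, show (-1 - j : ℤ) = -((j + 1 : ℕ) : ℤ) by
        push_cast; ring, zpow_neg, zpow_natCast, abs_mul, abs_mul, abs_pow, abs_neg, abs_one,
        one_pow, one_mul, Nat.abs_cast, abs_of_pos (by positivity)]
      gcongr⟩

theorem pull {Φ : ℝ → En 2 → En 2} (h : ∀ a, DB l ρ fun ε p => Φ ε p a)
    (ht : Tendsto (fun z : Z2 => (z.1, Φ z.1 z.2)) l l') (hF : PB l' 1 1 F) :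
    R l ρ 0 fun ε p => F ε (Φ ε p) := by
  have b := ((h 0).2 0).b
  have hs : ∀ᶠ z in l, ContDiffAt ℝ ∞ (Φ z.1) z.2 :=
    (eventually_all.2 fun a => (h a).1).mono fun z hz => contDiffAt_pi.2 hz
  refine ⟨b, ((h 0).2 0).one, ?_, fun j => ?_⟩
  · filter_upwards [hs, ht.eventually hF.1] with z h1 h2 using h2.comp z.2 h1
  obtain ⟨C, hC⟩ := b.comp 2 j
  obtain ⟨c, h0, hc⟩ := (h 0).unif j
  obtain ⟨c', h0', hc'⟩ := (h 1).unif j
  obtain ⟨A, hA⟩ := hF.2 (j + 1)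
  refine ⟨|C * (1 + (c + c')) ^ (j + 1) * (A * |1|)|, abs_nonneg _, ?_⟩
  filter_upwards [hs, ht.eventually hF.1, ht.eventually hA, hc (c + c') (by linarith),
    hc' (c + c') (by linarith), ((h 0).2 0).one] with z h1 h2 h3 h4 h5 h6
  have h7 := zero_le_one.trans h6
  rw [pow_zero, mul_one]
  exact b.mono (b.of_le (hC h1 h2 h7 zero_le_one (add_nonneg h0 h0') (mul_one _).le h3
    (Fin.forall_fin_two.2 ⟨h4, h5⟩)) j.le_succ) h7 le_rfl (le_abs_self _)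

theorem R.fix (h : R l ρ k F) {K : Set (En 2)} (hK : IsCompact K) (hl : ∀ᶠ z in l, z.2 ∈ K)
    {f : En 2 → ℝ} (hf : ∀ p ∈ K, ContDiffAt ℝ ∞ f p) : R l ρ 0 fun _ => f :=
  ⟨h.b, h.one, hl.mono fun _ hz => hf _ hz, fun j => by
    obtain ⟨C, hC⟩ := h.b.compact hK hf j
    refine ⟨|C|, abs_nonneg C, ?_⟩
    filter_upwards [hl, h.one] with z h1 h2
    exact h.b.mono (hC _ h1) zero_le_one h2 (by simpa using le_abs_self C)⟩

end Calc

noncomputable abbrev ι : Z2 → ℝ := fun z => z.1⁻¹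

def lU (U : Set (En 2)) : Filter Z2 := lz ⊓ 𝓟 {z | z.2 ∈ U}

theorem lU_le {U : Set (En 2)} : lU U ≤ lz := inf_le_left

theorem evU (U : Set (En 2)) : ∀ᶠ z in lU U, z.2 ∈ U :=
  eventually_inf_principal.2 (Eventually.of_forall fun _ h => h)

theorem ev_lt {a : ℝ} (ha : 0 < a) : ∀ᶠ z in lz, 0 < z.1 ∧ z.1 < a :=
  ev_fam.2 (Filter.Eventually.mono (Ioo_mem_nhdsGT ha) fun _ h _ _ => h)

theorem evD : ∀ᶠ z in lz, z.2 ∈ Dz z.1 := ev_fam.2 (Eventually.of_forall fun _ _ h => h)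

theorem evN {r : ℝ} (hr : 0 < r) : ∀ᶠ z in lz, z.2 ∈ Nb r := by
  filter_upwards [ev_lt hr, ev_lt one_pos, evD] with z h1 h2 h3
  have : z.1 ^ 2 ≤ r := by nlinarith [h1.1, h1.2, h2.2]
  exact ⟨by linarith [h3.1], by linarith [h3.2.1], by linarith [h3.2.2]⟩

theorem ev_one : ∀ᶠ z in lz, 1 ≤ ι z :=
  (ev_lt one_pos).mono fun _ h => (one_le_inv₀ h.1).2 h.2.le

theorem tend {l : Filter Z2} (hl : l ≤ lz) {Φ : ℝ → En 2 → En 2} {Ω : ℝ → Set (En 2)}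
    (h : ∀ᶠ z in l, Φ z.1 z.2 ∈ Ω z.1) :
    Tendsto (fun z : Z2 => (z.1, Φ z.1 z.2)) l (fam (𝓝[>] 0) Ω) :=
  tendsto_iff_eventually.2 fun p hp => by
    have : ∀ᶠ z in lz, ∀ q ∈ Ω z.1, p (z.1, q) := ev_fam.2 ((ev_fam.1 hp).mono fun _ h _ _ => h)
    filter_upwards [hl this, h] with z h1 h2 using h1 _ h2

theorem base {l : Filter Z2} {ρ : Z2 → ℝ} (b : B1Facts 2) (h : ∀ᶠ z in l, 1 ≤ ρ z) :
    R l ρ 0 fun _ _ => 1 :=
  ⟨b, h, Eventually.of_forall fun _ => contDiffAt_const, fun j => ⟨1, zero_le_one,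
    h.mono fun z hz => by simpa using b.const j 1 z.2 (zero_le_one.trans hz)⟩⟩

theorem R.cut {U : Set (En 2)} {k : ℕ} {F : ℝ → En 2 → ℝ} (h : R (lU U) ι k F)
    (h0 : ∀ ε, ∀ ℓ ∉ U, (fun _ => 0) =ᶠ[𝓝 ℓ] F ε) : R lz ι k F := by
  refine ⟨h.b, ev_one, (eventually_inf_principal.1 h.sm).mono fun z hz => ?_, fun j =>
    (h.bd j).imp fun C hC => ⟨hC.1, ?_⟩⟩
  · by_cases hU : z.2 ∈ U
    exacts [hz hU, contDiffAt_const.congr_of_eventuallyEq (h0 _ _ hU).symm]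
  · filter_upwards [eventually_inf_principal.1 hC.2, ev_one] with z hz h1
    by_cases hU : z.2 ∈ U
    · exact hz hU
    have h2 := zero_le_one.trans h1
    exact h.b.congr (h.b.mono (h.b.const j 0 z.2 h2) h2 le_rfl
      (abs_zero.trans_le (mul_nonneg hC.1 (pow_nonneg h2 k)))) (h0 _ _ hU)

theorem cd_τ : ContDiff ℝ ∞ τP := by unfold τP; fun_prop

theorem cpt (r : ℝ) : IsCompact (Nb r) := by
  refine (isCompact_Icc (a := fun _ => -r) (b := fun _ => 1 + 2 * r)).of_isClosed_subset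
    ((isClosed_le continuous_const (continuous_apply 0)).inter
      ((isClosed_le continuous_const (continuous_apply 1)).inter
        (isClosed_le continuous_const cd_τ.continuous))) ?_
  rintro ℓ ⟨h0, h1, h2⟩
  rw [τP] at h2
  refine ⟨fun i => ?_, fun i => ?_⟩ <;> fin_cases i <;> simp <;> linarith

theorem cE {f : En 2 → ℝ} {ℓ : En 2} (h : ContDiffAt ℝ ∞ f ℓ) : ContDiffAt ℝ ∞ (EP f) ℓ :=
  ((contDiffAt_apply ℝ ℝ 0 ℓ).mul (contDiffAt_pdn h 0)).add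
    ((contDiffAt_apply ℝ ℝ 1 ℓ).mul (contDiffAt_pdn h 1))

theorem cδ {f : En 2 → ℝ} {ℓ : En 2} (h : ContDiffAt ℝ ∞ f ℓ) (j : Fin 2) :
    ContDiffAt ℝ ∞ (δP j f) ℓ := (contDiffAt_pdn h j).sub (cE h)

def lC (H : Chart) (w : Fin 2) : Filter Z2 := lU {ℓ | ℓ w < H.ρ}
def lF (H : Chart) (w : Fin 2) : Filter Z2 := lU {ℓ | H.ρ / 4 < ℓ w}

theorem R.C {k : ℕ} {F : ℝ → En 2 → ℝ} (h : R lz ι k F) {H : Chart} {w : Fin 2} :
    R (lC H w) ι k F := h.res lU_le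

theorem R.F {k : ℕ} {F : ℝ → En 2 → ℝ} (h : R lz ι k F) {H : Chart} {w : Fin 2} :
    R (lF H w) ι k F := h.res lU_le

section Chart

variable (b : B1Facts 2)
include b

theorem glob {f : En 2 → ℝ} (hf : ContDiff ℝ ∞ f) : R lz ι 0 fun _ => f :=
  (base b ev_one).fix (cpt 1) (evN one_pos) fun _ _ => hf.contDiffAt

theorem eps : R lz ι 0 fun ε _ => ε :=
  (base b ev_one).par (fun ε => ε) 0 1 ((ev_lt one_pos).mono fun z h => by
    simpa [abs_of_pos h.1] using h.2.le)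

theorem epsi : R lz ι 1 fun ε _ => ε⁻¹ :=
  (base b ev_one).par (fun ε => ε⁻¹) 1 1 ((ev_lt one_pos).mono fun z h => by
    simp [abs_of_pos h.1])

theorem crd (j : Fin 2) : R lz ι 0 fun _ ℓ => ℓ j := glob b (contDiff_apply ℝ ℝ j)

variable {P : Prof} {c : ℝ} {H : Chart} (h : H.Ok P c)
include h

theorem gl {w : Fin 2} {k j : ℕ} {F G : ℝ → En 2 → ℝ} (hF : R (lC H w) ι k F)
    (hG : R (lF H w) ι j G) : R lz ι (max k j) fun ε ℓ => H.gl w ℓ (F ε ℓ) (G ε ℓ) := by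
  have hρ := h.pos.2.1
  have hχ : R lz ι 0 fun _ ℓ => Real.smoothTransition (3 - 4 * ℓ w / H.ρ) :=
    glob b (Real.smoothTransition.contDiff.comp (by fun_prop))
  have cw : ∀ ℓ : En 2, ContinuousAt (fun x : En 2 => x w) ℓ :=
    fun _ => (continuous_apply w).continuousAt
  refine (((hχ.C.mul hF).cut fun ε ℓ hℓ => ?_).add
    (((hχ.cst 1).sub hχ).F.mul hG |>.cut fun ε ℓ hℓ => ?_)).up (by simp)
  · have : 3 * H.ρ / 4 < ℓ w := by
      have : H.ρ ≤ ℓ w := not_lt.1 hℓ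
      linarith
    filter_upwards [(cw ℓ).eventually (lt_mem_nhds this)] with x hx
    rw [Real.smoothTransition.zero_of_nonpos, zero_mul]
    rw [sub_nonpos, le_div_iff₀ hρ]; linarith
  · have : ℓ w < H.ρ / 2 := by
      have : ℓ w ≤ H.ρ / 4 := not_lt.1 hℓ
      linarith
    filter_upwards [(cw ℓ).eventually (gt_mem_nhds this)] with x hx
    rw [Real.smoothTransition.one_of_one_le, sub_self, zero_mul]
    rw [le_sub_comm, div_le_iff₀ hρ]; linarith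

theorem gl0 {w : Fin 2} {k : ℕ} {F : ℝ → En 2 → ℝ} (hF : R (lC H w) ι k F) (a : ℝ) :
    R lz ι k fun ε ℓ => H.gl w ℓ (F ε ℓ) a :=
  (gl b h hF ((eps b).cst a).F).up (by simp)

theorem fixN {f : En 2 → ℝ} (hf : ∀ ℓ ∈ Nb H.ρ, ContDiffAt ℝ ∞ f ℓ) : R lz ι 0 fun _ => f :=
  (eps b).fix (cpt _) (evN h.pos.2.1) hf

omit b in
theorem evC (w : Fin 2) : ∀ᶠ z in lC H w, z.2 ∈ Nb H.ρ ∧ z.2 w ≤ H.ρ :=
  ((evN h.pos.2.1).filter_mono lU_le).and ((evU _).mono fun _ hz => le_of_lt hz)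

theorem fixC {w : Fin 2} {f : En 2 → ℝ} (hf : ∀ ℓ ∈ Nb H.ρ, ℓ w ≤ H.ρ → ContDiffAt ℝ ∞ f ℓ) :
    R (lC H w) ι 0 fun _ => f :=
  (eps b).C.fix ((cpt H.ρ).inter_right (isClosed_le (continuous_apply w) continuous_const))
    (evC h w) fun ℓ hℓ => hf ℓ hℓ.1 hℓ.2

theorem crdi (w : Fin 2) : R (lF H w) ι 0 fun _ ℓ => (ℓ w)⁻¹ :=
  (crd b w).F.db.inv (c := H.ρ / 4) (by linarith [h.pos.2.1])
    ((evU _).mono fun _ hz => le_of_lt hz)

variable (J : Bool)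

theorem aφ : R lz ι 0 fun _ => H.φ J := fixN b h fun ℓ hℓ => (h.sm J ℓ hℓ).1
theorem aξ : R lz ι 0 fun _ => H.ξ J := fixN b h fun ℓ hℓ => (h.sm J ℓ hℓ).2.1
theorem aφi : R lz ι 0 fun _ ℓ => (H.φ J ℓ)⁻¹ :=
  fixN b h fun ℓ hℓ => (h.sm J ℓ hℓ).1.inv (h.sm J ℓ hℓ).2.2.1.ne'
theorem aδ (j : Fin 2) : R lz ι 0 fun _ => δP j (H.ξ J) :=
  fixN b h fun ℓ hℓ => cδ (h.sm J ℓ hℓ).2.1 j
theorem an (j : Fin 2) : R lz ι 0 fun _ => H.n J j :=
  fixN b h fun ℓ hℓ => (cδ (h.sm J ℓ hℓ).1 j).sub (h.sm J ℓ hℓ).1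
theorem adet : R lz ι 0 fun _ ℓ => (H.det J ℓ)⁻¹ :=
  fixN b h fun ℓ hℓ => by
    obtain ⟨h1, h2, -, -, -, h3⟩ := h.sm J ℓ hℓ
    exact ((((cδ h1 0).sub h1).mul (cδ h2 1)).sub (((cδ h1 1).sub h1).mul (cδ h2 0))).inv h3

variable (w : Fin 2)

theorem aK : R (lC H w) ι 0 fun _ => H.K J w := fixC b h fun ℓ h1 h2 => (h.col J w ℓ h1 h2).1
theorem aKi : R (lC H w) ι 0 fun _ ℓ => (H.K J w ℓ)⁻¹ :=
  fixC b h fun ℓ h1 h2 => (h.col J w ℓ h1 h2).1.inv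
    (h.pos.2.2.2.1.trans_le (h.col J w ℓ h1 h2).2.1).ne'
theorem aS (j : Fin 2) : R (lC H w) ι 0 fun _ => H.S J w j :=
  fixC b h fun ℓ h1 h2 => (cδ (h.col J w ℓ h1 h2).1 j).sub (h.col J w ℓ h1 h2).1
theorem adS (j : Fin 2) : R (lC H w) ι 0 fun _ => H.dS J w j :=
  (((aK b h J w).ite (j = w)).add ((crd b w).C.mul (aS b h J w j))).up (by decide)

theorem dσ : DB (lC H w) ι (H.σ J w) := by
  have h1 := (crd b w).C.mul (aK b h J w)
  refine ⟨h1.sm.mono fun z hz => hz.div_const _, fun i => ?_⟩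
  have h2 : R (lC H w) ι 0 fun _ => pdn i fun ℓ => ℓ w * H.K J w ℓ :=
    fixC b h fun ℓ h1 h2 =>
      contDiffAt_pdn ((contDiffAt_apply ℝ ℝ w ℓ).mul (h.col J w ℓ h1 h2).1) i
  refine (h2.mul (epsi b).C).congr (h1.sm.mono fun z hz => (ev_diff hz).mono fun q hq => ?_)
  change _ = fderiv ℝ (fun ℓ => ℓ w * H.K J w ℓ / z.1) q _
  simp only [div_eq_mul_inv]
  rw [fderiv_mul_const hq]
  simp [pdn, mul_comm]

theorem σ_gt : ∀ᶠ z in lC H w, -1 < H.σ J w z.1 z.2 := by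
  obtain ⟨C, hC⟩ := (aK b h J w).bdd
  filter_upwards [hC, evC h w, lU_le evD, lU_le (ev_lt (a := (|C| + 1)⁻¹) (by positivity))]
    with z h1 h2 h3 h4
  have hK := h.pos.2.2.2.1.trans_le (h.col J w _ h2.1 h2.2).2.1
  have h5 : -z.1 ^ 2 < z.2 w := by fin_cases w; exacts [h3.1, h3.2.1]
  have h6 : z.1 * (|C| + 1) < 1 := by
    rw [← lt_div_iff₀ (by positivity), one_div]; exact h4.2
  have h7 : H.K J w z.2 ≤ |C| + 1 := by linarith [le_abs_self (H.K J w z.2), le_abs_self C]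
  rw [Chart.σ, lt_div_iff₀ h4.1]
  nlinarith [mul_lt_mul_of_pos_right h5 hK, mul_le_mul_of_nonneg_left h7 (sq_nonneg z.1),
    mul_lt_mul_of_pos_left h6 h4.1]

theorem tL : Tendsto (fun z : Z2 => (z.1, H.ΦL J w z.1 z.2)) (lC H w) (P.lL c w) := by
  refine tend lU_le ?_
  filter_upwards [σ_gt b h J w, evC h w, lU_le (ev_lt one_pos)] with z h1 h2 h3
  obtain ⟨-, -, h4, -, h5, -⟩ := h.col J w _ h2.1 h2.2
  refine ⟨h1, ?_, h5⟩
  change z.1 * (z.2 w * H.K J w z.2 / z.1) < c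
  rw [mul_div_cancel₀ _ h3.1.ne']
  exact (le_abs_self _).trans_lt h4

theorem pL {F : ℝ → En 2 → ℝ} (hF : PB (P.lL c w) 1 1 F) :
    R (lC H w) ι 0 fun ε ℓ => F ε (H.ΦL J w ε ℓ) :=
  pull (Fin.forall_fin_two.2 ⟨dσ b h J w, (aξ b h J).C.db⟩) (tL b h J w) hF

theorem pO {F : ℝ → En 2 → ℝ} (hF : PB P.lO 1 1 F) : R lz ι 0 fun ε ℓ => F ε (H.ΦO J ℓ) := by
  refine pull (Φ := fun _ => H.ΦO J)
    (Fin.forall_fin_two.2 ⟨((glob b cd_τ).mul (aφ b h J)).db, (aξ b h J).db⟩) ?_ hF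
  refine tend (Φ := fun _ => H.ΦO J) le_rfl ?_
  filter_upwards [evN h.pos.2.1] with z hz
  exact ⟨(h.sm J _ hz).2.2.2.1, (h.sm J _ hz).2.2.2.2.1⟩

end Chart

theorem isCut {c₁ : ℝ} (h : 0 < c₁) : IsCut (mcut c₁) :=
  ⟨Real.smoothTransition.contDiff.comp (by fun_prop),
    fun _ => ⟨Real.smoothTransition.nonneg _, Real.smoothTransition.le_one _⟩, c₁, h, fun s hs =>
      Real.smoothTransition.one_of_one_le (by
        rw [le_sub_comm, div_le_iff₀ h]; linarith)⟩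

theorem xi2 (b : B1Facts 2) (b2 : B2Stmt) (av : AvgStmt) {c x y : ℝ} (hc : 0 < c)
    {G : Lay (SG (lS c x y))} (hG : G.All (PG 1 1)) : PG 1 1 G.Xi2 := by
  have W := wr_SG b2 (lS c x y)
  have B := b2 ℝ 2 (lS c x y) 1 fun _ => zero_le_one
  have b0 : R (lS c x y) 1 0 fun _ _ => 1 := base b (Eventually.of_forall fun _ => le_rfl)
  have h1 : DB (lS c x y) 1 fun _ p => p 0 :=
    ⟨Eventually.of_forall fun z => contDiffAt_apply ℝ ℝ 0 z.2, fun i =>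
      ((b0.cst (Pi.single (M := fun _ => ℝ) i 1 0)).up (by decide)).eq fun _ p => by
        simp only [fD, pdn]
        rw [(hasFDerivAt_apply (𝕜 := ℝ) 0 p).fderiv]
        rfl⟩
  have h2 : R (lS c x y) 1 0 fun _ p => (2 + p 0)⁻¹ :=
    ((h1.aff 2 1).inv one_pos (ev_fam.2 (Eventually.of_forall fun _ p hp => by
      have := hp.1
      change 1 ≤ 2 + 1 * p 0
      linarith))).eq fun _ _ => by rw [one_mul]
  have h3 : PG 1 1 (gm (lS c x y) fun _ p => (2 + p 0)⁻¹) := by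
    rw [gm_eq h2.sm, B.mk_iff]
    have := h2.pb
    simp only [pow_zero] at this
    exact this
  have h4 := W.add (W.add (W.mul11 (W.ofNat 2) (W.sub hG.leh hG.lq)) (Lay.P_lA W hG))
    (W.mul11 (W.ofNat 2) (Lay.P_u₁ W hG))
  exact (av.1 c x y hc).avg_bd (w := fun _ _ => 1)
    (W.pD 0 (W.neg (W.mul11 (W.E1 h4) (W.pow1 h3))))

section Main

variable (b : B1Facts 2) (b2 : B2Stmt) {P : Prof} {c : ℝ} {g : P.Geo c} {Z : ZD P c} {N : ℕ}
  {Cb : ℝ} (h : Z.Ok g N Cb) (J : Bool)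

include h in
theorem gf (w : Fin 2) : Z.s.GF g (mcut Z.c₁) w := (h.fin.lay _ (isCut h.c₁_pos) w).1

include h in
theorem all (w : Fin 2) : (Z.G w).All (PG 1 1) := (gf h w).all

include b h

theorem aL {w : Fin 2} {f : SG (P.lL c w)} (hf : PG 1 1 f) :
    R (lC Z.H w) ι 0 fun ε => Z.L J ε w f := pL b h.chart J w hf

theorem aLi {w : Fin 2} {f : SG (P.lL c w)} (hf : PG 1 1 f ∧ PosG f) :
    R (lC Z.H w) ι 0 fun ε ℓ => (Z.L J ε w f ℓ)⁻¹ := by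
  obtain ⟨a, ha, h1⟩ := hf.2
  exact (aL b h J hf.1).db.inv ha ((tL b h.chart J w).eventually h1)

theorem ao {f : SG P.lO} (hf : PG 1 1 f) : R lz ι 0 fun ε => Z.o J ε f := pO b h.chart J hf

omit h in
theorem aν : R lz ι 0 fun ε _ => Z.ν ε := (eps b).mul ((eps b).cst _)

theorem aom (j : Fin 2) : R lz ι 0 fun ε => Z.om J ε j :=
  ((aδ b h.chart J j).sub (((ao b h J (gf h 0).O_all.bp).mul (glob b cd_τ)).mul
    (an b h.chart J j))).up (by decide)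

theorem aqo (i j : Fin 2) : R lz ι 1 fun ε => Z.qo J ε i j :=
  ((((aν (Z := Z) b).pow 2).div (epsi b)).mul
    (((((an b h.chart J i).mul (an b h.chart J j)).mul (ao b h J (gf h 0).O_all.la).neg.exp).div
      (((eps b).cst _).imul ((aφi b h.chart J).ipow 3))).add
    ((((aom b h J i).mul (aom b h J j)).mul (ao b h J (gf h 0).O_all.lc).neg.exp).div
      (aφi b h.chart J)))).up (by decide)

theorem afb : R lz ι 0 fun ε => Z.fb J ε := by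
  have H := h.chart
  have hm : ∀ w, R (lC Z.H w) ι 0 fun ε ℓ => mcut Z.c₁ (ε * Z.H.σ J w ε ℓ) := fun w =>
    (fixC b H (f := fun ℓ => mcut Z.c₁ (ℓ w * Z.H.K J w ℓ)) fun ℓ h1 h2 =>
      (isCut h.c₁_pos).1.contDiffAt.comp ℓ
        ((contDiffAt_apply ℝ ℝ w ℓ).mul (H.col J w ℓ h1 h2).1)).congr
      (((ev_lt one_pos).filter_mono lU_le).mono fun z hz => Eventually.of_forall fun ℓ => by
        simp only [Chart.σ, mul_div_cancel₀ _ hz.1.ne'])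
  have hn : ∀ w, R lz ι 0 fun _ ℓ => Z.H.gl w ℓ (ncut Z.c₁ (ℓ w * Z.H.K J w ℓ)) 1 := fun w =>
    gl0 b H (fixC b H (f := fun ℓ => ncut Z.c₁ (ℓ w * Z.H.K J w ℓ)) fun ℓ h1 h2 =>
      Real.smoothTransition.contDiff.contDiffAt.comp ℓ
        ((((contDiffAt_apply ℝ ℝ w ℓ).mul (H.col J w ℓ h1 h2).1).div_const _).sub
          contDiffAt_const)) 1
  have he : ∀ w (a : ℝ), 0 ≤ a →
      R (lC Z.H w) ι 0 fun ε ℓ => Real.exp (-(a * Z.H.σ J w ε ℓ)) := fun w a ha =>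
    (((dσ b H J w).aff 0 (-a)).exp a ((σ_gt b H J w).mono fun z hz => by nlinarith)).eq
      fun _ _ => by rw [zero_add, neg_mul]
  refine (((eps b).cst 1).add (R.sum fun w => gl0 b H (k := 0) ?_ 0)).up (by decide)
  have h1 : R (lC Z.H w) ι 0 fun ε ℓ => Real.exp (-Z.H.σ J w ε ℓ) :=
    (he w 1 zero_le_one).eq fun _ _ => by rw [one_mul]
  exact (((h1.cst 8).mul (hm w)).mul ((h1.div (h1.cst _)).add
    (((h1.cst Z.M).mul (hn (w + 1)).C).mul (he w 2 zero_le_two)))).up (by decide)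

include b2

theorem aat (w : Fin 2) : R (lC Z.H w) ι 0 fun ε => Z.at' J ε w := by
  have W := wr_SG b2 (P.lL c w)
  have G := all h w
  exact (aL b h J (W.E1 (W.sub G.leh G.lq))).div
    ((((dσ b h.chart J w).aff 2 1).inv one_pos ((σ_gt b h.chart J w).mono fun z hz => by
      linarith)).eq fun _ _ => by rw [one_mul])

theorem ap (w : Fin 2) : R lz ι 1 fun ε => Z.p J ε w :=
  (((((aν (Z := Z) b).mul (eps b)).mul (gl b h.chart (((aat b b2 h J w).mul (aK b h.chart J w)).div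
    (epsi b).C) (crdi b h.chart w))).mul (R.exp ((((eps b).cst 2).mul
      (((ao b h J (gf h w).O_all.u₁).add (gl0 b h.chart (aL b h J (all h w).lam) 0)).add
        (gl0 b h.chart (aL b h J (all h (w + 1)).nu) 0))).up (by decide)))).div
    (aφi b h.chart J)).up (by decide)

theorem aoh (w j : Fin 2) : R (lC Z.H w) ι 0 fun ε => Z.oh J ε w j := by
  have W := wr_SG b2 (P.lL c w)
  have G := all h w
  exact ((aL b h J (Lay.P_P0 W G)).mul (((((glob b cd_τ).mul ((aφ b h.chart J).pow 2)).C.mul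
    (aL b h J (Lay.P_τ₁ W G))).mul (aom b h J j).C).sub ((aL b h J (W.mul11 (W.mul11 (W.E1 G.lc)
      (Lay.P_P1 W G)) (W.E1 (W.neg G.lAo)))).mul (an b h.chart J j).C))).up (by decide)

theorem aAi (w : Fin 2) : R (lC Z.H w) ι 1 fun ε ℓ => (Z.aA J ε w ℓ)⁻¹ := by
  have W := wr_SG b2 (P.lL c w)
  have G := all h w
  have hσ : R (lC Z.H w) ι 1 (Z.H.σ J w) := ((crd b w).C.mul (aK b h.chart J w)).div (epsi b).C
  exact (((((hσ.cst 2).add hσ).div (aLi b h J (W.E_bd (W.sub G.leh G.lq)))).mul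
    (aLi b h J (W.E_bd (Lay.P_lA W G)))).up (by decide)).eq fun ε ℓ => by
      rw [ZD.aA, ZD.at', mul_inv, inv_div]

omit b in
theorem adW (w : Fin 2) : PG 1 1 (Z.dW' w) :=
  have W := wr_SG b2 (P.lL c w)
  W.sub (W.mul11 (Lay.P_al W (all h w)) (Lay.P_W W (all h w))) (Lay.P_P0 W (all h w))

theorem ar₀ : R lz ι 0 fun ε => Z.r₀ J ε := by
  have φ := aφ b h.chart J
  refine ((φ.add (fixN b h.chart fun ℓ hℓ => cE (h.chart.sm J ℓ hℓ).1)).add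
    (R.sum fun w => gl0 b h.chart (k := 0) ?_ 0)).up (by decide)
  have W := wr_SG b2 (P.lL c w)
  have G := all h w
  exact ((φ.pow 2).C.mul ((((glob b cd_τ).mul φ).C.mul (aL b h J (W.mul11 (Lay.P_τ₁ W G)
    (adW b2 h w)))).add (aL b h J (W.mul11 G.w2 (Lay.P_τ₂ W G))))).up (by decide)

theorem ar₁ : R lz ι 0 fun ε => Z.r₁ J ε := by
  have φ := aφ b h.chart J
  refine ((fixN b h.chart fun ℓ hℓ => cE (h.chart.sm J ℓ hℓ).2.1).add
    (R.sum fun w => gl0 b h.chart (k := 0) ?_ 0)).up (by decide)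
  have W := wr_SG b2 (P.lL c w)
  have G := all h w
  exact (φ.C.mul ((aL b h J (W.mul11 (Lay.P_b W G) (adW b2 h w))).add
    (((glob b cd_τ).mul φ).C.mul (aL b h J G.w2)))).up (by decide)

theorem aNv (j : Fin 2) : R lz ι 0 fun ε => Z.Nv J ε j := by
  have H := h.chart
  revert j
  exact Fin.forall_fin_two.2
    ⟨((((ar₀ b b2 h J).mul (aδ b H J 1)).sub ((ar₁ b b2 h J).mul (an b H J 1))).div
      (adet b H J)).up (by decide),
    ((((an b H J 0).mul (ar₁ b b2 h J)).sub ((aδ b H J 0).mul (ar₀ b b2 h J))).div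
      (adet b H J)).up (by decide)⟩

theorem av' (w : Fin 2) : R lz ι 1 fun ε => Z.v J ε w := by
  have H := h.chart
  have W := wr_SG b2 (P.lL c w)
  exact (gl b H ((((((aφ b H J).C.mul (aat b b2 h J w)).mul (aL b h J (Lay.P_W W (all h w)))).div
    (epsi b).C).add ((eps b).cst 1).C).add
      (((fixC b H fun ℓ h1 h2 => cE (H.col J w ℓ h1 h2).1).sub
        (R.sum fun j => (aNv b b2 h J j).C.mul (aS b H J w j))).div (aKi b H J w)))
    ((aNv b b2 h J w).F.div (crdi b H w))).up (by decide)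

theorem aRin (av : AvgStmt) (w i j : Fin 2) : R (lC Z.H w) ι 2 fun ε => Z.Rin J ε w i j := by
  have H := h.chart
  have W := wr_SG b2 (P.lL c w)
  have G := all h w
  have K := aK b H J w
  have S := aS b H J w
  have A := aAi b b2 h J w
  have n2 := (aν (Z := Z) b).pow 2
  have h1 := (((K.pow 2).mul (aL b h J (xi2 b b2 av g.pos G))).div ((K.cst 4⁻¹).imul A)).ite
    (i = w ∧ j = w)
  have h2 := ((eps b).C.div ((aKi b H J w).imul A)).mul ((K.mul (((S j).ite (i = w)).add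
    ((S i).ite (j = w)))).add (((crd b w).C.mul (S i)).mul (S j)))
  have h3 := ((adS b H J w i).mul (adS b H J w j)).mul (aL b h J (W.E1 (W.neg G.lAo)))
  have h4 := (((n2.div ((epsi b).imul ((aφi b H J).ipow 3))).C.mul (aL b h J
    (W.sub (Lay.P_E_neg_lC W G) (Lay.P_E_neg_lCl W G)))).mul (aoh b b2 h J w i)).mul
      (aoh b b2 h J w j)
  exact (((n2.div ((epsi b).imul (aφi b H J))).C.mul ((h1.add h2).sub h3)).add h4).up (by decide)

theorem aq (av : AvgStmt) (i j : Fin 2) : R lz ι 2 fun ε => Z.q J ε i j :=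
  ((aqo b h J i j).add (R.sum (k := 2) fun w => (gl b h.chart (aRin b b2 h J av w i j)
    ((((aν (Z := Z) b).mul (ap b b2 h J w)).F.div (((eps b).cst 4⁻¹).F.imul
      (crdi b h.chart w))).neg.ite (i = w ∧ j = w))).up (by decide))).up (by decide)

end Main

end ZReg

theorem zreg (b1 : B1Stmt) (b2 : B2Stmt) (av : AvgStmt) (_wt : WtStmt) : ZRegStmt :=
  fun _ _ _ _ _ _ J h =>
    ⟨fun w => ((ZReg.ap (b1 2) b2 h J w).up (by decide)).pb,
      fun i j => ((ZReg.aq (b1 2) b2 h J av i j).up (by decide)).pb,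
      fun w => ((ZReg.av' (b1 2) b2 h J w).up (by decide)).pb,
      ((ZReg.afb (b1 2) h J).up (by decide)).pb,
      ((ZReg.aφ (b1 2) h.chart J).up (by decide)).pb⟩

end Pool.Agent.Lib.MP_df9110_gt
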