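import Pool.Agent.Lib.MP_df9110_gt.Dr
import Pool.Agent.Lib.MP_df9110_gt.Bt
import Pool.Agent.Lib.MP_df9110_gt.Geo
import Pool.Agent.Lib.MP_df9110_gt.B1
import Pool.Agent.Lib.MP_df9110_gt.SL
import Pool.Agent.Lib.MP_df9110_gt.CorBlk

import Pool.Agent.Lib.MP_df9110_gt.CtC
import Pool.Agent.Lib.MP_df9110_gt.Ca2
import Pool.Agent.Lib.MP_df9110_gt.SegCat
import Pool.Agent.Lib.MP_df9110_gt.Chart
import Pool.Agent.Lib.MP_df9110_gt.Est
import Pool.Agent.Lib.MP_df9110_gt.Cid2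
import Pool.Agent.Lib.MP_df9110_gt.Cons


import Pool.Agent.Lib.MP_df9110_gt.Cov


import Pool.Agent.Lib.MP_df9110_gt.Fpsi

import Pool.Agent.Lib.MP_df9110_gt.Lev


import Pool.Agent.Lib.MP_df9110_gt.Om

import Pool.Agent.Lib.MP_df9110_gt.Fw




import Pool.Agent.Lib.MP_df9110_gt.Glue
import Pool.Agent.Lib.MP_df9110_gt.Init

import Pool.Agent.Lib.MP_df9110_gt.M0
import Pool.Agent.Lib.MP_df9110_gt.Sol
import Pool.Agent.Lib.MP_df9110_gt.LayHg

import Pool.Agent.Lib.MP_df9110_gt.ZCor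



import Pool.Agent.Lib.MP_df9110_gt.OutHg
import Pool.Agent.Lib.MP_df9110_gt.LinkLay
import Pool.Agent.Lib.MP_df9110_gt.ZLayRel

import Pool.Agent.Lib.MP_df9110_gt.Mph
import Pool.Agent.Lib.MP_df9110_gt.Mid


import Pool.Agent.Lib.MP_df9110_gt.Ou


import Pool.Agent.Lib.MP_df9110_gt.OutBlk


import Pool.Agent.Lib.MP_df9110_gt.Pa
import Pool.Agent.Lib.MP_df9110_gt.Qt


import Pool.Agent.Lib.MP_df9110_gt.QtLip
import Pool.Agent.Lib.MP_df9110_gt.QtTop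




import Pool.Agent.Lib.MP_df9110_gt.V12

import Pool.Agent.Lib.MP_df9110_gt.StepO

import Pool.Agent.Lib.MP_df9110_gt.T3


import Pool.Agent.Lib.MP_df9110_gt.T5

import Pool.Agent.Lib.MP_df9110_gt.V3





import Pool.Agent.Lib.MP_df9110_gt.Wt



import Pool.Agent.Lib.MP_df9110_gt.ZInf



import Pool.Agent.Lib.MP_df9110_gt.ZReg

/-! Assembly of the proof. -/

namespace Pool.Agent.Lib.MP_df9110_gt

theorem profS : ProfStmt := by
  refine pa (cap glue) (mid glue (pn glue v12 v3 k2 fun j => ?_))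
  obtain ⟨h0, h1, h2⟩ := star1
  obtain ⟨h3, h4, h5, h6⟩ := star2
  fin_cases j
  exacts [h0, h1, h2, h3, h4, h5, h6]

theorem zfS : ZFStmt := by
  have B2 := b2 b1
  have P1 := pi1 b1
  have av := avgS b1 B2 P1
  have wt := wtS b1 B2 P1 av
  have so := solS b1 B2 P1 av wt
  have la := lamS b1 B2 P1 av wt so
  have oh := outHG t8
  have hg := layHG layBasic
  have cv := cov (t6 t1) (t7 t1) oh layBasic hg
  have lg := lgS b1 B2 av wt
  have c1 := cid1 b1 B2 av wt layBasic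
  have c2 := cid2 b1 B2 av wt oh layBasic (layBi t8 layBasic hg) cv
  have fo := form b1 B2 av wt lg c1 c2 (initS b1 B2 av wt c1 lg leadF prd) (stepO b1 B2 av wt c1)
    (stepL b1 B2 av wt so la c1 leadF linS) (omS b1 B2 av wt so c1 c2 leadF)
    (gamS b1 B2 av wt c1 layBasic) (estS b1 B2 av wt c1 c2 leadF)
  have zi := zid b1 B2 av wt layBasic
  exact zall profS (geoS b1 B2 av) (chartS b1 P1) fo (layBlk b1 B2 av wt layBasic hg barAlg)
    (zreg b1 B2 av wt) (zout b1 B2 av wt (outBlk b1 B2 av wt oh barAlg))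
    (zlay b1 B2 av wt layBasic (zlayRel b1 B2 av wt layBasic zi))
    (zcor b1 B2 av wt layBasic (corBlk barAlg)) (zinf b1 B2 av wt layBasic)
    (linkOut b1 B2 av wt) (linkLay b1 B2 av wt layBasic zi)

theorem mainS : MainStmt := by
  have B2 := b2 b1
  have P1 := pi1 b1
  have SL := sl b1
  have L0 := l0 b1 SL
  have SO := sob b1 L0
  have PR := prod b1 L0 SO
  have AP := apr b1 L0 (lev b1 L0 PR (en b1 L0))
  have NL := nl b1 L0 SL SO AP (dr b1 L0 PR AP (ou b1 L0 (pi0 b1) P1))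
  have M0 := m0 b1 L0
  have T3 := t3 t1 (t2 t1)
  have T4 := t4 t1 (t2 t1) T3 (t6 t1)
  have MP := mp b1 L0 (t5 t1)
  have AS := asy b1 L0 M0 (t6 t1) t9
  have C1 := ct1' b1 t1 (t6 t1) (t7 t1)
  have A1 := ca1 b1 B2 P1 L0 M0
  exact main b1 L0 (cons b1 B2 L0 M0 zfS (ct2 C1) ellS A1 (ca2 b1 L0 M0 A1) (cone C1))
    (dense b1 L0 M0) M0
    (pert b1 L0 M0 t1 T3 t9 (bt b1 L0 M0 PR t1 T3 t9)
      (qt b1 L0 M0 SO t1 T3 t9 (qtLip b1 L0 M0 SO PR t9) (qtTop b1 L0 M0 SO PR t9))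
      (mph b1 L0 M0 SO t1 T3 t9 T4 MP) NL)
    (fin b1 L0 M0 (t5 t1) (t6 t1) (fr b1 L0 M0 T4 t9 MP AS) (fth b1 L0 M0 SO PR t9 MP NL)
      (fw b1 L0 M0 (t5 t1) t9 MP) (fpsi b1 L0 P1 SL) AS) AS

end Pool.Agent.Lib.MP_df9110_gt
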