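import Mathlib

/-! Curvature in local coordinates and `SO(2) × SO(3)`-invariant expanding solitons on
`S¹ × ℝ³`. -/

namespace Pool.Agent.Lib.MP_df9110_gt

open Filter Topology
open scoped ContDiff

/-- Points of a 4-dimensional coordinate chart. -/
abbrev Pt : Type := Fin 4 → ℝ

/-- The partial derivative `∂ᵢ h`. -/
noncomputable def pd (i : Fin 4) (h : Pt → ℝ) (x : Pt) : ℝ := fderiv ℝ h x (Pi.single i 1)

/-- The Christoffel symbols `Γᵏᵢⱼ` of a metric with coefficient matrix `g`. -/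
noncomputable def Chr (g : Pt → Matrix (Fin 4) (Fin 4) ℝ) (k i j : Fin 4) (x : Pt) : ℝ :=
  (1 / 2) * ∑ l, (g x)⁻¹ k l *
    (pd i (fun y => g y j l) x + pd j (fun y => g y i l) x - pd l (fun y => g y i j) x)

/-- The Ricci tensor `Rᵢⱼ = ∂ₖ Γᵏᵢⱼ - ∂ⱼ Γᵏᵢₖ + Γᵏₖₗ Γˡᵢⱼ - Γᵏⱼₗ Γˡᵢₖ`. -/
noncomputable def Ric (g : Pt → Matrix (Fin 4) (Fin 4) ℝ) (i j : Fin 4) (x : Pt) : ℝ :=
  ∑ k, (pd k (Chr g k i j) x - pd j (Chr g k i k) x +
    ∑ l, (Chr g k k l x * Chr g l i j x - Chr g k j l x * Chr g l i k x))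

/-- The Hessian `∇²ᵢⱼ f = ∂ᵢ ∂ⱼ f - Γᵏᵢⱼ ∂ₖ f`. -/
noncomputable def Hess (g : Pt → Matrix (Fin 4) (Fin 4) ℝ) (f : Pt → ℝ) (i j : Fin 4)
    (x : Pt) : ℝ :=
  pd i (pd j f) x - ∑ k, Chr g k i j x * pd k f x

/-- The metric `A(t)² dθ² + dt² + B(t)² (dϑ² + sin² ϑ dφ²)` in the coordinates
`(θ, t, ϑ, φ) = (x 0, x 1, x 2, x 3)`, that is, polar coordinates on the factor `ℝ³`. -/
noncomputable def warped (A B : ℝ → ℝ) (x : Pt) : Matrix (Fin 4) (Fin 4) ℝ :=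
  Matrix.diagonal ![A (x 1) ^ 2, 1, B (x 1) ^ 2, B (x 1) ^ 2 * Real.sin (x 2) ^ 2]

/-- `g = A(t)² dθ² + dt² + B(t)² g_{S²}` with potential `f(t)` is a smooth gradient expanding
soliton on `S¹ × ℝ³` (`t` is the distance to the core circle; the parity conditions and
`B'(0) = 1` express smoothness along it), and `A(t) ∼ a t`, `B(t) ∼ b t` at infinity, as for the
cone `dr² + r² (a² dθ² + b² g_{S²})`. -/
structure IsInvariantExpander (A B f : ℝ → ℝ) (a b : ℝ) : Prop where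
  smooth_A : ContDiff ℝ ∞ A
  smooth_B : ContDiff ℝ ∞ B
  smooth_f : ContDiff ℝ ∞ f
  even_A : ∀ t, A (-t) = A t
  odd_B : ∀ t, B (-t) = -B t
  even_f : ∀ t, f (-t) = f t
  deriv_B : deriv B 0 = 1
  pos_A : ∀ t, 0 < A t
  pos_B : ∀ t, 0 < t → 0 < B t
  soliton : ∀ x : Pt, 0 < x 1 → 0 < x 2 → x 2 < Real.pi → ∀ i j,
    Ric (warped A B) i j x + Hess (warped A B) (fun y => f (y 1)) i j x
      + warped A B x i j / 2 = 0
  cone_A : Tendsto (fun t => A t / t) atTop (𝓝 a)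
  cone_B : Tendsto (fun t => B t / t) atTop (𝓝 b)

end Pool.Agent.Lib.MP_df9110_gt
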