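import Mathlib
import Pool.Agent.Lib.MP_df9110_gt.Defs

-- part Pool.Agent.Lib.MP_df9110_gt.Calc
section

/-! One-variable comparison lemmas. -/

namespace Pool.Agent.Lib.MP_df9110_gt

open Filter Topology Set Real

theorem lt_left_of_deriv_pos {φ : ℝ → ℝ} {c s : ℝ} (h : HasDerivAt φ c s) (hc : 0 < c) :
    ∀ᶠ r in 𝓝[<] s, φ r < φ s := by
  have h1 := (hasDerivAt_iff_tendsto_slope.1 h).eventually (lt_mem_nhds hc)
  have h2 : 𝓝[<] s ≤ 𝓝[≠] s := nhdsWithin_mono _ fun r hr => ne_of_lt hr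
  filter_upwards [h2 h1, self_mem_nhdsWithin] with r hr hr'
  rw [slope_def_field] at hr
  have : r - s < 0 := sub_neg.2 hr'
  have := (div_pos_iff.1 hr).resolve_left (fun h => absurd h.2 (not_lt.2 this.le))
  linarith [this.1]

theorem lt_right_of_deriv_neg {φ : ℝ → ℝ} {c s : ℝ} (h : HasDerivAt φ c s) (hc : c < 0) :
    ∀ᶠ r in 𝓝[>] s, φ r < φ s := by
  have h1 := (hasDerivAt_iff_tendsto_slope.1 h).eventually (gt_mem_nhds hc)
  have h2 : 𝓝[>] s ≤ 𝓝[≠] s := nhdsWithin_mono _ fun r hr => ne_of_gt hr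
  filter_upwards [h2 h1, self_mem_nhdsWithin] with r hr hr'
  rw [slope_def_field] at hr
  have : 0 < r - s := sub_pos.2 hr'
  have := (div_neg_iff.1 hr).resolve_left (fun h => absurd h.2 (not_lt.2 this.le))
  linarith [this.1]

/-- no first zero -/
theorem pos_of_first_zero {φ : ℝ → ℝ} {a : ℝ} (hc : Continuous φ) (ha : 0 < φ a)
    (hz : ∀ s, a < s → φ s = 0 → (∀ r, a ≤ r → r < s → 0 < φ r) →
      ∃ c, HasDerivAt φ c s ∧ 0 < c) : ∀ s, a ≤ s → 0 < φ s := by
  by_contra hcon
  push Not at hcon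
  obtain ⟨s₁, hs₁, hφ⟩ := hcon
  set Z : Set ℝ := {s | a ≤ s ∧ φ s ≤ 0} with hZ
  have hcl : IsClosed Z := (isClosed_le continuous_const continuous_id).inter
    (isClosed_le hc continuous_const)
  have hne : Z.Nonempty := ⟨s₁, hs₁, hφ⟩
  have hbd : BddBelow Z := ⟨a, fun s hs => hs.1⟩
  have hm := hcl.csInf_mem hne hbd
  set s := sInf Z
  have hbef : ∀ r, a ≤ r → r < s → 0 < φ r := fun r h1 h2 => by
    by_contra h3
    exact absurd (csInf_le hbd ⟨h1, not_lt.1 h3⟩) (not_le.2 h2)
  have has : a < s := lt_of_le_of_ne hm.1 (fun h => by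
    have := hm.2
    rw [← h] at this
    linarith)
  have hev : ∀ᶠ r in 𝓝[<] s, 0 < φ r := by
    filter_upwards [Ioo_mem_nhdsLT has] with r hr using hbef r hr.1.le hr.2
  have h0 : φ s = 0 := by
    refine le_antisymm hm.2 ?_
    exact ge_of_tendsto (hc.continuousAt.tendsto.mono_left nhdsWithin_le_nhds)
      (hev.mono fun r hr => hr.le)
  obtain ⟨c, hd, hc'⟩ := hz s has h0 hbef
  obtain ⟨r, h1, h2⟩ := (hev.and (lt_left_of_deriv_pos hd hc')).exists
  linarith

theorem pos_of_first_zero_atBot {φ : ℝ → ℝ} (hc : Continuous φ) (ha : ∀ᶠ s in atBot, 0 < φ s)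
    (hz : ∀ s, φ s = 0 → (∀ r, r < s → 0 < φ r) → ∃ c, HasDerivAt φ c s ∧ 0 < c) :
    ∀ s, 0 < φ s := by
  obtain ⟨a, ha⟩ := eventually_atBot.1 ha
  intro s
  rcases le_total s a with h | h
  · exact ha s h
  · refine pos_of_first_zero hc (ha a le_rfl) (fun s _ h0 hb => hz s h0 fun r hr => ?_) s h
    rcases le_total r a with h' | h'
    · exact ha r h'
    · exact hb r h' hr

theorem neg_of_deriv_neg_atBot {φ φ' : ℝ → ℝ} (hd : ∀ s, HasDerivAt φ (φ' s) s)
    (hn : ∀ᶠ s in atBot, φ' s < 0) (hl : Tendsto φ atBot (𝓝 0)) : ∀ᶠ s in atBot, φ s < 0 := by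
  obtain ⟨a, ha⟩ := eventually_atBot.1 hn
  have hanti : StrictAntiOn φ (Iic a) := by
    refine strictAntiOn_of_deriv_neg (convex_Iic a)
      (fun s _ => (hd s).continuousAt.continuousWithinAt) fun s hs => ?_
    rw [interior_Iic] at hs
    rw [(hd s).deriv]
    exact ha s (le_of_lt hs)
  refine eventually_atBot.2 ⟨a, fun s hs => ?_⟩
  have h1 : φ (s - 1) ≤ 0 := by
    refine ge_of_tendsto hl (eventually_atBot.2 ⟨s - 1, fun r hr => ?_⟩)
    exact hanti.antitoneOn (show r ≤ a by linarith) (show s - 1 ≤ a by linarith) hr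
  have h2 := hanti (show s - 1 ≤ a by linarith) hs (by linarith)
  linarith

theorem tendsto_exp_two_atBot : Tendsto (fun s : ℝ => exp (2 * s)) atBot (𝓝 0) :=
  tendsto_exp_atBot.comp (tendsto_id.const_mul_atBot (by norm_num))

/-- comparison at the singular end -/
theorem touch {W Y Z : ℝ → ℝ} (hW : ∀ s, HasDerivAt W (Y s) s) (hY : ∀ s, HasDerivAt Y (Z s) s)
    (lW : Tendsto (fun s => W s / exp (2 * s)) atBot (𝓝 0))
    (lY : Tendsto (fun s => Y s / exp (2 * s)) atBot (𝓝 0))
    (hZ : ∀ᶠ s in atBot, Z s < 2 * W s + Y s) : ∀ᶠ s in atBot, W s < 0 := by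
  have e2 : ∀ s, HasDerivAt (fun s => exp (2 * s)) (exp (2 * s) * 2) s := fun s => by
    simpa using ((hasDerivAt_id s).const_mul 2).exp
  have hU : ∀ᶠ s in atBot, (Y s + W s) / exp (2 * s) < 0 := by
    refine neg_of_deriv_neg_atBot (φ' := fun s => (Z s - 2 * W s - Y s) / exp (2 * s))
      (fun s => ?_) ?_ ?_
    · refine (((hY s).add (hW s)).div (e2 s) (exp_pos _).ne').congr_deriv ?_
      simp only [Pi.add_apply]
      field_simp
      ring
    · filter_upwards [hZ] with s hs
      exact div_neg_of_neg_of_pos (by linarith) (exp_pos _)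
    · simpa [add_div] using lY.add lW
  have hV : ∀ᶠ s in atBot, exp s * W s < 0 := by
    refine neg_of_deriv_neg_atBot (φ' := fun s => exp s * (Y s + W s)) (fun s => ?_) ?_ ?_
    · refine ((hasDerivAt_exp s).mul (hW s)).congr_deriv ?_
      ring
    · filter_upwards [hU] with s hs
      have := (div_neg_iff.1 hs).resolve_left (fun h => absurd h.2 (not_lt.2 (exp_pos _).le))
      exact mul_neg_of_pos_of_neg (exp_pos _) this.1
    · have := tendsto_exp_atBot.mul (lW.mul tendsto_exp_two_atBot)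
      simp only [mul_zero] at this
      refine this.congr fun s => ?_
      field_simp
  filter_upwards [hV] with s hs
  exact neg_of_mul_neg_right hs (exp_pos _).le

theorem second_deriv_test {W Y : ℝ → ℝ} {s z : ℝ} (hW : ∀ s, HasDerivAt W (Y s) s)
    (hY : Y s = 0 → HasDerivAt Y z s ∧ z < 0) (h0 : ∀ r, 0 ≤ W r) (hs : W s = 0) : False := by
  have hmin : IsLocalMin W s := Eventually.of_forall fun r => by rw [hs]; exact h0 r
  have hY0 : Y s = 0 := hmin.hasDerivAt_eq_zero (hW s)
  obtain ⟨hd, hz⟩ := hY hY0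
  have h1 := lt_right_of_deriv_neg hd hz
  rw [hY0] at h1
  obtain ⟨u, hu, hsub⟩ := (mem_nhdsGT_iff_exists_Ioo_subset).1 h1
  have hanti : StrictAntiOn W (Icc s u) := by
    refine strictAntiOn_of_deriv_neg (convex_Icc s u)
      (fun s _ => (hW s).continuousAt.continuousWithinAt) fun r hr => ?_
    rw [interior_Icc] at hr
    rw [(hW r).deriv]
    exact hsub hr
  have hu' : s < u := hu
  have := hanti ⟨le_rfl, hu'.le⟩ ⟨hu'.le, le_rfl⟩ hu'
  linarith [h0 u]

theorem unbounded_of_deriv {φ φ' : ℝ → ℝ} {a δ m : ℝ} (hd : ∀ s, HasDerivAt φ (φ' s) s)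
    (hδ : 0 < δ) (h : ∀ s, a ≤ s → φ' s ≤ -δ) : ∃ s, a ≤ s ∧ φ s < m := by
  have hanti : AntitoneOn (fun s => φ s + δ * s) (Ici a) := by
    have hd' : ∀ s, HasDerivAt (fun s => φ s + δ * s) (φ' s + δ) s := fun s => by
      simpa using (hd s).fun_add ((hasDerivAt_id s).const_mul δ)
    refine antitoneOn_of_deriv_nonpos (convex_Ici a)
      (fun s _ => (hd' s).continuousAt.continuousWithinAt)
      (fun s _ => (hd' s).differentiableAt.differentiableWithinAt) fun s hs => ?_
    rw [interior_Ici] at hs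
    rw [(hd' s).deriv]
    linarith [h s (le_of_lt hs)]
  set s := a + (|φ a - m| + 1) / δ with hs
  have h1 : a ≤ s := by
    have : 0 ≤ (|φ a - m| + 1) / δ := by positivity
    linarith
  refine ⟨s, h1, ?_⟩
  have h2 := hanti (mem_Ici.2 le_rfl) h1 h1
  have h3 : δ * s = δ * a + (|φ a - m| + 1) := by
    rw [hs]
    field_simp
  have h4 := le_abs_self (φ a - m)
  simp only at h2
  linarith

theorem eventually_lt_of_deriv {φ φ' : ℝ → ℝ} {δ m : ℝ} (hd : ∀ s, HasDerivAt φ (φ' s) s)
    (hδ : 0 < δ) (h : ∀ᶠ s in atTop, m ≤ φ s → φ' s ≤ -δ) : ∀ᶠ s in atTop, φ s < m := by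
  obtain ⟨a, ha⟩ := eventually_atTop.1 h
  have h1 : ∃ s, a ≤ s ∧ φ s < m := by
    by_contra hc
    push Not at hc
    obtain ⟨s, hs, hs'⟩ := unbounded_of_deriv (m := m) hd hδ fun s hs => ha s hs (hc s hs)
    exact absurd (hc s hs) (not_le.2 hs')
  obtain ⟨s₁, hs₁, hφ⟩ := h1
  have hc : Continuous φ := continuous_iff_continuousAt.2 fun s => (hd s).continuousAt
  have := pos_of_first_zero (φ := fun s => m - φ s) (a := s₁) (continuous_const.sub hc)
    (by simpa using hφ) (fun s hs h0 _ => ⟨-φ' s, by simpa using (hd s).const_sub m, by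
      have := ha s (by linarith) (by linarith)
      linarith⟩)
  exact eventually_atTop.2 ⟨s₁, fun s hs => by linarith [this s hs]⟩

/-- relaxation to the equilibrium -/
theorem relax {η k g c : ℝ → ℝ} {g₀ c₀ : ℝ}
    (hd : ∀ s, HasDerivAt η (k s * (g s - c s * η s)) s) (hk : ∀ᶠ s in atTop, 1 ≤ k s)
    (hg : Tendsto g atTop (𝓝 g₀)) (hc : Tendsto c atTop (𝓝 c₀)) (hc₀ : 0 < c₀) :
    Tendsto η atTop (𝓝 (g₀ / c₀)) := by
  have hcpos : ∀ᶠ s in atTop, 0 < c s := hc.eventually (lt_mem_nhds hc₀)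
  refine tendsto_order.2 ⟨fun m hm => ?_, fun m hm => ?_⟩
  · have h1 : 0 < g₀ - c₀ * m := by
      rw [lt_div_iff₀ hc₀] at hm
      linarith
    have h2 := (hg.sub (hc.mul_const m)).eventually
      (lt_mem_nhds (show (g₀ - c₀ * m) / 2 < g₀ - c₀ * m by linarith))
    have := eventually_lt_of_deriv (φ := fun s => -η s) (m := -m) (δ := (g₀ - c₀ * m) / 2)
      (fun s => (hd s).fun_neg) (by linarith) (by
        filter_upwards [h2, hk, hcpos] with s h3 h4 h5 h6
        have h7 : c s * η s ≤ c s * m := mul_le_mul_of_nonneg_left (by linarith) h5.le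
        nlinarith)
    filter_upwards [this] with s hs
    linarith
  · have h1 : g₀ - c₀ * m < 0 := by
      rw [gt_iff_lt, div_lt_iff₀ hc₀] at hm
      linarith
    have h2 := (hg.sub (hc.mul_const m)).eventually
      (gt_mem_nhds (show g₀ - c₀ * m < (g₀ - c₀ * m) / 2 by linarith))
    exact eventually_lt_of_deriv (δ := -((g₀ - c₀ * m) / 2)) hd (by linarith) (by
        filter_upwards [h2, hk, hcpos] with s h3 h4 h5 h6
        have h7 : c s * m ≤ c s * η s := mul_le_mul_of_nonneg_left h6 h5.le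
        nlinarith)

end Pool.Agent.Lib.MP_df9110_gt
end

-- part Pool.Agent.Lib.MP_df9110_gt.Sys
section

/-! The reduced system in the variable `s = log B`: one solution. -/

namespace Pool.Agent.Lib.MP_df9110_gt

open Filter Topology Set Real

/-- right-hand side of the equation for `v` -/
noncomputable def rv (lam : ℝ) (b v p : ℝ → ℝ) (s : ℝ) : ℝ :=
  1 / b s - b s * (1 + p s ^ 2) + 2 * v s - (1 + lam * exp (2 * s)) * v s / b s ^ 2

structure Sol (lam α : ℝ) (b v p : ℝ → ℝ) : Prop where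
  lam_pos : 0 < lam
  b_pos : ∀ s, 0 < b s
  db : ∀ s, HasDerivAt b (-v s) s
  dv : ∀ s, HasDerivAt v (rv lam b v p s) s
  dp : ∀ s, HasDerivAt p ((lam * exp (2 * s) - (1 + lam * exp (2 * s)) * p s) / b s ^ 2) s
  lb : Tendsto (fun s => (1 - b s) / exp (2 * s)) atBot (𝓝 α)
  lv : Tendsto (fun s => v s / exp (2 * s)) atBot (𝓝 (2 * α))
  lp : Tendsto (fun s => p s / exp (2 * s)) atBot (𝓝 (lam / 3))

theorem hasDerivAt_exp_two (s : ℝ) : HasDerivAt (fun s => exp (2 * s)) (exp (2 * s) * 2) s := by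
  simpa using ((hasDerivAt_id s).const_mul 2).exp

namespace Sol

variable {lam α : ℝ} {b v p : ℝ → ℝ}

theorem shift (h : Sol lam α b v p) (τ : ℝ) :
    Sol (lam * exp (2 * τ)) (α * exp (2 * τ)) (fun s => b (s + τ)) (fun s => v (s + τ))
      (fun s => p (s + τ)) := by
  have e : ∀ s, lam * exp (2 * τ) * exp (2 * s) = lam * exp (2 * (s + τ)) := fun s => by
    rw [mul_add, exp_add]
    ring
  have l : ∀ {φ : ℝ → ℝ} {c : ℝ}, Tendsto (fun s => φ s / exp (2 * s)) atBot (𝓝 c) →
      Tendsto (fun s => φ (s + τ) / exp (2 * s)) atBot (𝓝 (c * exp (2 * τ))) := fun {φ c} hφ => by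
    have := (hφ.comp (tendsto_atBot_add_const_right atBot τ tendsto_id)).mul_const (exp (2 * τ))
    refine this.congr fun s => ?_
    simp only [Function.comp, id, mul_add, exp_add]
    field_simp
  refine ⟨mul_pos h.lam_pos (exp_pos _), fun s => h.b_pos _,
    fun s => (h.db (s + τ)).comp_add_const s τ, fun s => ?_, fun s => ?_, l (φ := fun s => 1 - b s) h.lb,
    ?_, ?_⟩
  · have := (h.dv (s + τ)).comp_add_const s τ
    simpa only [rv, e] using this
  · have := (h.dp (s + τ)).comp_add_const s τ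
    simpa only [e] using this
  · simpa only [mul_assoc] using l h.lv
  · have := l h.lp
    rwa [show lam / 3 * exp (2 * τ) = lam * exp (2 * τ) / 3 by ring] at this

theorem cb (h : Sol lam α b v p) : Continuous b :=
  continuous_iff_continuousAt.2 fun s => (h.db s).continuousAt

theorem cv (h : Sol lam α b v p) : Continuous v :=
  continuous_iff_continuousAt.2 fun s => (h.dv s).continuousAt

theorem cp (h : Sol lam α b v p) : Continuous p :=
  continuous_iff_continuousAt.2 fun s => (h.dp s).continuousAt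

theorem b_lim (h : Sol lam α b v p) : Tendsto b atBot (𝓝 1) := by
  have := (h.lb.mul tendsto_exp_two_atBot).const_sub 1
  simp only [mul_zero, sub_zero] at this
  refine this.congr fun s => ?_
  field_simp
  ring

theorem mu_pos (h : Sol lam α b v p) (s : ℝ) :
    0 < lam * exp (2 * s) - (1 + lam * exp (2 * s)) * p s := by
  have hl := h.lam_pos
  refine pos_of_first_zero_atBot
    (φ := fun s => lam * exp (2 * s) - (1 + lam * exp (2 * s)) * p s) ?_ ?_ ?_ s
  · have := h.cp
    fun_prop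
  · have h1 := (((tendsto_exp_two_atBot.const_mul lam).const_add 1).mul h.lp).const_sub lam
    have h2 := h1.eventually (lt_mem_nhds (show 0 < lam - (1 + lam * 0) * (lam / 3) by linarith))
    filter_upwards [h2] with s hs
    have he := exp_pos (2 * s)
    have : lam * exp (2 * s) - (1 + lam * exp (2 * s)) * p s =
        (lam - (1 + lam * exp (2 * s)) * (p s / exp (2 * s))) * exp (2 * s) := by
      field_simp
    rw [this]
    positivity
  · intro s h0 _
    have hk := (hasDerivAt_exp_two s).const_mul lam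
    refine ⟨_, hk.fun_sub ((hk.const_add 1).fun_mul (h.dp s)), ?_⟩
    rw [h0]
    have he : 0 < lam * exp (2 * s) := mul_pos hl (exp_pos _)
    have hp : p s < 1 := by nlinarith
    simp only [zero_div, mul_zero, add_zero]
    nlinarith

theorem p_lt_one (h : Sol lam α b v p) (s : ℝ) : p s < 1 := by
  have := h.mu_pos s
  have he : 0 < lam * exp (2 * s) := mul_pos h.lam_pos (exp_pos _)
  nlinarith

theorem p_mono (h : Sol lam α b v p) : StrictMono p :=
  strictMono_of_hasDerivAt_pos h.dp fun s => div_pos (h.mu_pos s) (pow_pos (h.b_pos s) 2)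

theorem p_pos (h : Sol lam α b v p) (s : ℝ) : 0 < p s := by
  have h1 := h.lp.eventually (lt_mem_nhds (show 0 < lam / 3 by linarith [h.lam_pos]))
  obtain ⟨r, h2, h3⟩ := (h1.and (eventually_lt_atBot s)).exists
  have := (div_pos_iff_of_pos_right (exp_pos _)).1 h2
  linarith [h.p_mono h3]

theorem G_lim (h : Sol lam α b v p) :
    Tendsto (fun s => (-rv lam b v p s - 2 * (b s - 1) + v s) / exp (2 * s) ^ 2) atBot
      (𝓝 (3 * α ^ 2 + 2 * α * lam + lam ^ 2 / 9)) := by
  have hb := h.b_lim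
  have h1 := (((h.lb.pow 2).div hb one_ne_zero).neg.add (hb.mul (h.lp.pow 2))).add
    ((h.lv.mul ((h.lb.mul (hb.const_add 1)).const_add lam)).div (hb.pow 2) (by norm_num))
  rw [show 3 * α ^ 2 + 2 * α * lam + lam ^ 2 / 9 =
    -(α ^ 2 / 1) + 1 * (lam / 3) ^ 2 + 2 * α * (lam + α * (1 + 1)) / 1 ^ 2 by ring]
  refine h1.congr fun s => ?_
  have := (h.b_pos s).ne'
  have := (exp_pos (2 * s)).ne'
  simp only [rv, Pi.div_apply]
  field_simp
  ring

theorem persist (h : Sol lam α b v p) {s₀ : ℝ} (hv : v s₀ < 0)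
    (hN : 1 ≤ b s₀ ^ 2 * (1 + p s₀ ^ 2)) : ∀ s, s₀ ≤ s → 1 / 2 < b s ^ 2 := by
  have mono : ∀ s, s₀ ≤ s → (∀ r, s₀ ≤ r → r < s → v r < 0) → b s₀ ≤ b s := fun s hs hr => by
    have : MonotoneOn b (Icc s₀ s) := by
      refine monotoneOn_of_deriv_nonneg (convex_Icc _ _) h.cb.continuousOn
        (fun r _ => (h.db r).differentiableAt.differentiableWithinAt) fun r hr' => ?_
      rw [interior_Icc] at hr'
      rw [(h.db r).deriv]
      linarith [hr r hr'.1.le hr'.2]
    exact this ⟨le_rfl, hs⟩ ⟨hs, le_rfl⟩ hs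
  have hneg : ∀ s, s₀ ≤ s → 0 < -v s := by
    refine pos_of_first_zero h.cv.neg (by linarith) fun s hs h0 hb => ⟨_, (h.dv s).fun_neg, ?_⟩
    have h1 := mono s hs.le fun r h1 h2 => by linarith [hb r h1 h2]
    have h2 := h.p_mono hs
    have h3 := h.p_pos s₀
    have h4 := h.b_pos s₀
    have h5 : b s₀ ^ 2 ≤ b s ^ 2 := by nlinarith
    have h6 : p s₀ ^ 2 < p s ^ 2 := by nlinarith
    have h7 : 1 < b s ^ 2 * (1 + p s ^ 2) := by
      have a1 := mul_le_mul_of_nonneg_right h5 (show 0 ≤ 1 + p s ^ 2 by positivity)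
      have a2 := mul_lt_mul_of_pos_left (show 1 + p s₀ ^ 2 < 1 + p s ^ 2 by linarith)
        (pow_pos h4 2)
      linarith
    have h8 : v s = 0 := by linarith
    have h9 := h.b_pos s
    have : -rv lam b v p s = (b s ^ 2 * (1 + p s ^ 2) - 1) / b s := by
      simp only [rv, h8]
      field_simp
      ring
    rw [this]
    exact div_pos (by linarith) h9
  intro s hs
  have h1 := mono s hs fun r h1 _ => by linarith [hneg r h1]
  have h3 := h.p_pos s₀
  have h3' := h.p_lt_one s₀
  have h4 := h.b_pos s₀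
  have h5 : b s₀ ^ 2 ≤ b s ^ 2 := by nlinarith
  have h6 : p s₀ ^ 2 < 1 := by nlinarith
  nlinarith

theorem dichotomy (h : Sol lam α b v p) :
    (0 < α ∧ ∀ s, 0 < v s) ∨ ∃ s₀, ∀ s, s₀ ≤ s → 1 / 2 < b s ^ 2 := by
  rcases lt_or_ge 0 α with hα | hα
  · by_cases hz : ∃ s, v s = 0 ∧ 1 < b s ^ 2 * (1 + p s ^ 2)
    · right
      obtain ⟨s, h8, h7⟩ := hz
      have h9 := h.b_pos s
      have hr : rv lam b v p s < 0 := by
        have : rv lam b v p s = -((b s ^ 2 * (1 + p s ^ 2) - 1) / b s) := by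
          simp only [rv, h8]
          field_simp
          ring
        rw [this, neg_lt_zero]
        exact div_pos (by linarith) h9
      have h1 := lt_right_of_deriv_neg (h.dv s) hr
      have hc : Continuous fun s => b s ^ 2 * (1 + p s ^ 2) := by
        have := h.cb
        have := h.cp
        fun_prop
      have h2 : ∀ᶠ r in 𝓝[>] s, 1 < b r ^ 2 * (1 + p r ^ 2) :=
        nhdsWithin_le_nhds (hc.continuousAt.eventually (lt_mem_nhds h7))
      obtain ⟨r, h3, h4⟩ := (h1.and h2).exists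
      exact ⟨r, h.persist (by linarith) h4.le⟩
    · left
      refine ⟨hα, ?_⟩
      push Not at hz
      refine pos_of_first_zero_atBot h.cv ?_ fun s h8 hb => ?_
      · filter_upwards [h.lv.eventually (lt_mem_nhds (show 0 < 2 * α by linarith))] with s hs
        exact (div_pos_iff_of_pos_right (exp_pos _)).1 hs
      · have h9 := h.b_pos s
        rcases (hz s h8).lt_or_eq with h7 | h7
        · refine ⟨_, h.dv s, ?_⟩
          have : rv lam b v p s = (1 - b s ^ 2 * (1 + p s ^ 2)) / b s := by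
            simp only [rv, h8]
            field_simp
            ring
          rw [this]
          exact div_pos (by linarith) h9
        · exfalso
          -- degenerate zero: `N` is negative just before `s`, so `v e^{K r}` increases up to `s`
          have dN := ((h.db s).fun_pow 2).fun_mul (((h.dp s).fun_pow 2).const_add 1)
          have hN := lt_left_of_deriv_pos dN (by
            have := h.mu_pos s
            have := h.p_pos s
            simp only [h8]
            norm_num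
            positivity)
          set K := (1 + lam * exp (2 * s)) / b s ^ 2 with hK
          have hc : ContinuousAt (fun r => (1 + lam * exp (2 * r)) / b r ^ 2) s := by
            have := h.cb
            fun_prop (disch := positivity)
          have h2 : ∀ᶠ r in 𝓝[<] s, (1 + lam * exp (2 * r)) / b r ^ 2 < K + 1 :=
            nhdsWithin_le_nhds (hc.eventually (gt_mem_nhds (by linarith)))
          obtain ⟨u, hu, hsub⟩ := (mem_nhdsLT_iff_exists_Ioo_subset).1 (hN.and h2)
          have hu' : u < s := hu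
          have dd : ∀ r, HasDerivAt (fun r => v r * exp (K * r))
              (rv lam b v p r * exp (K * r) + v r * (exp (K * r) * K)) r := fun r => by
            have : HasDerivAt (fun r => exp (K * r)) (exp (K * r) * K) r := by
              simpa using ((hasDerivAt_id r).const_mul K).exp
            exact (h.dv r).fun_mul this
          have hm : StrictMonoOn (fun r => v r * exp (K * r)) (Icc u s) := by
            refine strictMonoOn_of_deriv_pos (convex_Icc _ _)
              (fun r _ => (dd r).continuousAt.continuousWithinAt) fun r hr => ?_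
            rw [interior_Icc] at hr
            rw [(dd r).deriv]
            obtain ⟨h3, h4⟩ := hsub hr
            have h5 := hb r hr.2
            have h6 := h.b_pos r
            have : rv lam b v p r * exp (K * r) + v r * (exp (K * r) * K) =
                ((1 - b r ^ 2 * (1 + p r ^ 2)) / b r +
                  v r * (2 + K - (1 + lam * exp (2 * r)) / b r ^ 2)) * exp (K * r) := by
              simp only [rv]
              field_simp
              ring
            rw [this]
            have h10 : 0 < (1 - b r ^ 2 * (1 + p r ^ 2)) / b r := div_pos (by linarith) h6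
            have h11 : 0 < v r * (2 + K - (1 + lam * exp (2 * r)) / b r ^ 2) :=
              mul_pos h5 (by linarith)
            positivity
          have h3 := hm ⟨le_rfl, hu'.le⟩ ⟨hu'.le, le_rfl⟩ hu'
          have h4 := mul_pos (hb u hu') (exp_pos (K * u))
          simp only [h8, zero_mul] at h3
          linarith
  · right
    have hb1 : ∀ᶠ s in atBot, 1 - b s < 0 := by
      rcases hα.lt_or_eq with hα | hα
      · filter_upwards [h.lb.eventually (gt_mem_nhds hα)] with s hs
        exact ((div_neg_iff.1 hs).resolve_left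
          (fun h => absurd h.2 (not_lt.2 (exp_pos _).le))).1
      · subst hα
        refine touch (W := fun s => 1 - b s) (Y := v) (Z := rv lam b v p)
          (fun s => by simpa using (h.db s).const_sub 1) h.dv h.lb (by simpa using h.lv) ?_
        have hl := h.lam_pos
        filter_upwards [h.G_lim.eventually (lt_mem_nhds
          (show 0 < 3 * (0 : ℝ) ^ 2 + 2 * 0 * lam + lam ^ 2 / 9 by positivity))] with s hs
        have := (div_pos_iff_of_pos_right (pow_pos (exp_pos _) 2)).1 hs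
        linarith
    obtain ⟨a, ha⟩ := eventually_atBot.1 hb1
    have : ∃ s, s ≤ a ∧ v s < 0 := by
      by_contra hc
      push Not at hc
      have hanti : AntitoneOn b (Iic a) := by
        refine antitoneOn_of_deriv_nonpos (convex_Iic _) h.cb.continuousOn
          (fun r _ => (h.db r).differentiableAt.differentiableWithinAt) fun r hr' => ?_
        rw [interior_Iic] at hr'
        rw [(h.db r).deriv]
        linarith [hc r (le_of_lt hr')]
      have : b a ≤ 1 := ge_of_tendsto h.b_lim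
        (eventually_atBot.2 ⟨a, fun r hr => hanti hr (mem_Iic.2 le_rfl) hr⟩)
      linarith [ha a le_rfl]
    obtain ⟨s, hs, hv⟩ := this
    have h1 := ha s hs
    exact ⟨s, h.persist hv (by nlinarith [sq_nonneg (p s)])⟩

theorem tendsto_k (h : Sol lam α b v p) :
    Tendsto (fun s => lam * exp (2 * s)) atTop atTop :=
  (tendsto_exp_atTop.comp (tendsto_id.const_mul_atTop (by norm_num))).const_mul_atTop h.lam_pos

theorem p_top (h : Sol lam α b v p) {β : ℝ} (hb : Tendsto b atTop (𝓝 β)) :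
    Tendsto p atTop (𝓝 1) := by
  refine tendsto_order.2 ⟨fun m hm => ?_, fun m hm => Eventually.of_forall fun s => ?_⟩
  · have := eventually_lt_of_deriv (φ := fun s => -p s) (m := -m) (δ := 1)
      (fun s => (h.dp s).fun_neg) one_pos (by
        have h1 := (hb.pow 2).eventually (gt_mem_nhds (show β ^ 2 < β ^ 2 + 1 by linarith))
        have h2 := (h.tendsto_k.atTop_mul_const (show 0 < 1 - m by linarith)).eventually_ge_atTop
          (β ^ 2 + 2)
        filter_upwards [h1, h2] with s h3 h4 h5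
        have h6 := h.p_lt_one s
        have h7 := pow_pos (h.b_pos s) 2
        have he : 0 < lam * exp (2 * s) := mul_pos h.lam_pos (exp_pos _)
        rw [neg_le_neg_iff, le_div_iff₀ h7]
        nlinarith)
    filter_upwards [this] with s hs
    linarith
  · linarith [h.p_lt_one s]

theorem top (h : Sol lam α b v p) {β : ℝ} (hβ : 0 < β) (hb : Tendsto b atTop (𝓝 β)) :
    Tendsto (fun s => (b s - β) * exp (2 * s)) atTop
      (𝓝 ((1 / β - 2 * β) * β ^ 2 / (2 * lam))) := by
  have hl := h.lam_pos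
  have hk := h.tendsto_k
  have hη : Tendsto (fun s => lam * exp (2 * s) * v s) atTop
      (𝓝 ((1 / β - β * (1 + 1 ^ 2)) / ((1 + (1 - 4 * β ^ 2) * 0) / β ^ 2))) := by
    refine relax (k := fun s => lam * exp (2 * s)) (g := fun s => 1 / b s - b s * (1 + p s ^ 2))
      (c := fun s => (1 + (1 - 4 * b s ^ 2) * (lam * exp (2 * s))⁻¹) / b s ^ 2) (fun s => ?_)
      (hk.eventually_ge_atTop 1) ?_ ?_ (by simp; positivity)
    · refine (((hasDerivAt_exp_two s).const_mul lam).fun_mul (h.dv s)).congr_deriv ?_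
      have := (h.b_pos s).ne'
      have := (exp_pos (2 * s)).ne'
      simp only [rv]
      field_simp
      ring
    · exact (tendsto_const_nhds.div hb hβ.ne').sub (hb.mul (((h.p_top hb).pow 2).const_add 1))
    · exact (((((hb.pow 2).const_mul 4).const_sub 1).mul hk.inv_tendsto_atTop).const_add 1).div
        (hb.pow 2) (by positivity)
  have e : ∀ s, HasDerivAt (fun s => exp (-(2 * s))) (exp (-(2 * s)) * (-2)) s := fun s => by
    simpa using ((hasDerivAt_id s).const_mul 2).fun_neg.exp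
  have := HasDerivAt.lhopital_zero_atTop (f := fun s => b s - β) (f' := fun s => -v s)
    (g := fun s => exp (-(2 * s))) (g' := fun s => exp (-(2 * s)) * (-2))
    (l := 𝓝 ((1 / β - 2 * β) * β ^ 2 / (2 * lam)))
    (Eventually.of_forall fun s => (h.db s).sub_const β) (Eventually.of_forall e)
    (Eventually.of_forall fun s => by positivity) (by simpa using hb.sub_const β)
    (tendsto_exp_atBot.comp (tendsto_neg_atTop_atBot.comp
      (tendsto_id.const_mul_atTop (by norm_num)))) (by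
      have h2 := hη.div_const (2 * lam)
      rw [show (1 / β - β * (1 + 1 ^ 2)) / ((1 + (1 - 4 * β ^ 2) * 0) / β ^ 2) / (2 * lam) =
        (1 / β - 2 * β) * β ^ 2 / (2 * lam) by field_simp; ring] at h2
      refine h2.congr fun s => ?_
      rw [exp_neg]
      field_simp)
  refine this.congr fun s => ?_
  rw [exp_neg]
  field_simp

theorem anti (h : Sol lam α b v p) (hv : ∀ s, 0 < v s) : StrictAnti b :=
  strictAnti_of_hasDerivAt_neg h.db fun s => by linarith [hv s]

end Sol

end Pool.Agent.Lib.MP_df9110_gt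
end

-- part Pool.Agent.Lib.MP_df9110_gt.Slide
section

/-! The sliding argument: two solutions with the same limit agree. -/

namespace Pool.Agent.Lib.MP_df9110_gt

open Filter Topology Set Real

variable {l₁ l₂ α₁ α₂ : ℝ} {b₁ v₁ p₁ b₂ v₂ p₂ : ℝ → ℝ}

theorem p_slide (h₁ : Sol l₁ α₁ b₁ v₁ p₁) (h₂ : Sol l₂ α₂ b₂ v₂ p₂) (hl : l₂ < l₁)
    (hb : ∀ s, b₁ s ≤ b₂ s) (s : ℝ) : p₂ s < p₁ s := by
  have := pos_of_first_zero_atBot (φ := fun s => p₁ s - p₂ s) (h₁.cp.sub h₂.cp) ?_ ?_ s
  · linarith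
  · filter_upwards [(h₁.lp.sub h₂.lp).eventually
      (lt_mem_nhds (show 0 < l₁ / 3 - l₂ / 3 by linarith))] with s hs
    rw [← sub_div] at hs
    exact (div_pos_iff_of_pos_right (exp_pos _)).1 hs
  · intro s h0 _
    refine ⟨_, (h₁.dp s).fun_sub (h₂.dp s), ?_⟩
    have e : p₁ s = p₂ s := by linarith
    have m := h₂.mu_pos s
    have q := h₂.p_lt_one s
    have he := exp_pos (2 * s)
    have hb1 := h₁.b_pos s
    rw [e, sub_pos]
    have a1 : l₂ * exp (2 * s) - (1 + l₂ * exp (2 * s)) * p₂ s <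
        l₁ * exp (2 * s) - (1 + l₁ * exp (2 * s)) * p₂ s := by
      nlinarith [mul_pos (mul_pos (sub_pos.2 hl) he) (sub_pos.2 q)]
    calc _ ≤ (l₂ * exp (2 * s) - (1 + l₂ * exp (2 * s)) * p₂ s) / b₁ s ^ 2 := by
          apply div_le_div_of_nonneg_left m.le (by positivity)
          nlinarith [hb s]
      _ < _ := div_lt_div_of_pos_right a1 (by positivity)

theorem strict_slide (h₁ : Sol l₁ α₁ b₁ v₁ p₁) (h₂ : Sol l₂ α₂ b₂ v₂ p₂) (hl : l₂ < l₁)
    (hv : ∀ s, 0 < v₂ s) (hb : ∀ s, b₁ s ≤ b₂ s) (s : ℝ) : b₁ s < b₂ s := by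
  by_contra hc
  have e : b₁ s = b₂ s := le_antisymm (hb s) (not_lt.1 hc)
  refine second_deriv_test (W := fun s => b₂ s - b₁ s) (Y := fun s => v₁ s - v₂ s) (s := s)
    (z := rv l₁ b₁ v₁ p₁ s - rv l₂ b₂ v₂ p₂ s)
    (fun s => ((h₂.db s).fun_sub (h₁.db s)).congr_deriv (by ring))
    (fun h0 => ⟨(h₁.dv s).fun_sub (h₂.dv s), ?_⟩) (fun r => by linarith [hb r]) (by linarith)
  have e' : v₁ s = v₂ s := by linarith
  have hp := p_slide h₁ h₂ hl hb s
  have hp2 := h₂.p_pos s
  have hb2 := h₂.b_pos s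
  have : rv l₁ b₁ v₁ p₁ s - rv l₂ b₂ v₂ p₂ s =
      -(b₂ s * (p₁ s ^ 2 - p₂ s ^ 2) + (l₁ - l₂) * exp (2 * s) * v₂ s / b₂ s ^ 2) := by
    simp only [rv, e, e']
    field_simp
    ring
  rw [this, neg_lt_zero]
  have a1 : 0 < p₁ s ^ 2 - p₂ s ^ 2 := by nlinarith
  have a2 := sub_pos.2 hl
  have a3 := hv s
  positivity

theorem alpha_slide (h₁ : Sol l₁ α₁ b₁ v₁ p₁) (h₂ : Sol l₂ α₂ b₂ v₂ p₂) (hl : l₂ < l₁)
    (hα : 0 < α₂) (hb : ∀ s, b₁ s ≤ b₂ s) : α₂ < α₁ := by
  have hle : α₂ ≤ α₁ := le_of_tendsto_of_tendsto' h₂.lb h₁.lb fun s =>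
    div_le_div_of_nonneg_right (by linarith [hb s]) (exp_pos _).le
  refine lt_of_le_of_ne hle fun e => ?_
  subst e
  have := touch (W := fun s => b₂ s - b₁ s) (Y := fun s => v₁ s - v₂ s)
    (Z := fun s => rv l₁ b₁ v₁ p₁ s - rv l₂ b₂ v₂ p₂ s)
    (fun s => ((h₂.db s).fun_sub (h₁.db s)).congr_deriv (by ring))
    (fun s => (h₁.dv s).fun_sub (h₂.dv s))
    (by
      have := h₁.lb.sub h₂.lb
      rw [sub_self] at this
      exact this.congr fun s => by ring)
    (by
      have := h₁.lv.sub h₂.lv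
      rw [sub_self] at this
      exact this.congr fun s => by ring)
    (by
      have hl2 := h₂.lam_pos
      filter_upwards [(h₁.G_lim.sub h₂.G_lim).eventually (lt_mem_nhds
        (show 0 < 3 * α₂ ^ 2 + 2 * α₂ * l₁ + l₁ ^ 2 / 9 - (3 * α₂ ^ 2 + 2 * α₂ * l₂ + l₂ ^ 2 / 9) by
          nlinarith))] with s hs
      rw [← sub_div] at hs
      have := (div_pos_iff_of_pos_right (pow_pos (exp_pos _) 2)).1 hs
      linarith)
  obtain ⟨s, hs⟩ := this.exists
  linarith [hb s]

theorem ends_slide {l β τ : ℝ} (h₁ : Sol l α₁ b₁ v₁ p₁) (h₂ : Sol l α₂ b₂ v₂ p₂) (hβ : 0 < β)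
    (hβ' : β ^ 2 < 1 / 2) (t₁ : Tendsto b₁ atTop (𝓝 β)) (t₂ : Tendsto b₂ atTop (𝓝 β))
    (hτ : 0 < τ) (hα : α₂ < α₁ * exp (2 * τ)) :
    ∃ R, ∀ s, s ∉ Icc (-R) R → b₁ (s + τ) ≤ b₂ s := by
  have hl := h₁.lam_pos
  have hs := h₁.shift τ
  have e1 : ∀ᶠ s in atBot, b₁ (s + τ) ≤ b₂ s := by
    filter_upwards [(hs.lb.sub h₂.lb).eventually (lt_mem_nhds (sub_pos.2 hα))] with s hs
    rw [← sub_div] at hs
    have := (div_pos_iff_of_pos_right (exp_pos _)).1 hs
    linarith
  have e2 : ∀ᶠ s in atTop, b₁ (s + τ) ≤ b₂ s := by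
    have a1 := hs.top hβ (t₁.comp (tendsto_atTop_add_const_right atTop τ tendsto_id))
    have a2 := h₂.top hβ t₂
    have c1 : 0 < (1 / β - 2 * β) * β ^ 2 := by
      have : (1 / β - 2 * β) * β ^ 2 = (1 - 2 * β ^ 2) * β := by field_simp
      rw [this]
      exact mul_pos (by linarith) hβ
    have c2 : 1 < exp (2 * τ) := one_lt_exp_iff.2 (by linarith)
    have c3 : (1 / β - 2 * β) * β ^ 2 / (2 * (l * exp (2 * τ))) <
        (1 / β - 2 * β) * β ^ 2 / (2 * l) :=
      div_lt_div_of_pos_left c1 (by positivity) (by nlinarith)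
    filter_upwards [(a2.sub a1).eventually (lt_mem_nhds (sub_pos.2 c3))] with s hs
    rw [← sub_mul] at hs
    have := (mul_pos_iff_of_pos_right (exp_pos _)).1 hs
    linarith
  obtain ⟨a, ha⟩ := eventually_atBot.1 e1
  obtain ⟨c, hc⟩ := eventually_atTop.1 e2
  refine ⟨max (-a) c, fun s hs => ?_⟩
  rw [mem_Icc, not_and_or, not_le, not_le] at hs
  rcases hs with hs | hs
  · exact ha s (by linarith [le_max_left (-a) c])
  · exact hc s (by linarith [le_max_right (-a) c])

theorem le_slide {l β : ℝ} (h₁ : Sol l α₁ b₁ v₁ p₁) (h₂ : Sol l α₂ b₂ v₂ p₂) (hβ : 0 < β)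
    (hβ' : β ^ 2 < 1 / 2) (t₁ : Tendsto b₁ atTop (𝓝 β)) (t₂ : Tendsto b₂ atTop (𝓝 β))
    (a₁ : 0 < α₁) (a₂ : 0 < α₂) (w₁ : ∀ s, 0 < v₁ s) (w₂ : ∀ s, 0 < v₂ s) (s : ℝ) :
    b₁ s ≤ b₂ s := by
  have hl := h₁.lam_pos
  have an₁ := h₁.anti w₁
  have an₂ := h₂.anti w₂
  set S : Set ℝ := {τ | 0 ≤ τ ∧ ∀ s, b₁ (s + τ) ≤ b₂ s} with hS
  have hcl : IsClosed S := by
    have : S = Ici 0 ∩ ⋂ s, {τ | b₁ (s + τ) ≤ b₂ s} := by
      ext τ
      simp [hS]
    rw [this]
    exact isClosed_Ici.inter (isClosed_iInter fun s =>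
      isClosed_le (h₁.cb.comp (continuous_const.add continuous_id)) continuous_const)
  have hbd : BddBelow S := ⟨0, fun τ h => h.1⟩
  have hne : S.Nonempty := by
    have e1 : ∀ᶠ τ in atTop, α₂ < α₁ * exp (2 * τ) :=
      (((tendsto_exp_atTop.comp (tendsto_id.const_mul_atTop (by norm_num : (0 : ℝ) < 2))).const_mul_atTop
        a₁)).eventually_gt_atTop α₂
    obtain ⟨τ, h1, h2⟩ := (e1.and (eventually_gt_atTop 0)).exists
    obtain ⟨R, hR⟩ := ends_slide h₁ h₂ hβ hβ' t₁ t₂ h2 h1
    have hlt : β < b₂ R := by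
      have : β ≤ b₂ (R + 1) := le_of_tendsto t₂
        (eventually_atTop.2 ⟨R + 1, fun r hr => an₂.antitone hr⟩)
      linarith [an₂ (show R < R + 1 by linarith)]
    have e2 : ∀ᶠ σ in atTop, b₁ (-R + σ) < b₂ R :=
      (t₁.comp (tendsto_atTop_add_const_left atTop (-R) tendsto_id)).eventually (gt_mem_nhds hlt)
    obtain ⟨σ, h3, h4⟩ := (e2.and (eventually_ge_atTop τ)).exists
    refine ⟨σ, by linarith, fun s => ?_⟩
    by_cases hs : s ∈ Icc (-R) R
    · have := an₁.antitone (show -R + σ ≤ s + σ by linarith [hs.1])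
      have := an₂.antitone hs.2
      linarith
    · have := an₁.antitone (show s + τ ≤ s + σ by linarith)
      linarith [hR s hs]
  have hm := hcl.csInf_mem hne hbd
  set τ := sInf S
  rcases hm.1.lt_or_eq with hτ | hτ
  · exfalso
    have hs := h₁.shift τ
    have c2 : 1 < exp (2 * τ) := one_lt_exp_iff.2 (by linarith)
    have hll : l < l * exp (2 * τ) := by nlinarith
    have st := strict_slide hs h₂ hll w₂ hm.2
    have al := alpha_slide hs h₂ hll a₂ hm.2
    have e1 : ∀ᶠ σ in 𝓝[<] τ, α₂ < α₁ * exp (2 * σ) := nhdsWithin_le_nhds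
      ((show ContinuousAt (fun σ => α₁ * exp (2 * σ)) τ by fun_prop).eventually (lt_mem_nhds al))
    obtain ⟨τ₀, h1, h2⟩ := (e1.and (Ioo_mem_nhdsLT hτ)).exists
    obtain ⟨R, hR⟩ := ends_slide h₁ h₂ hβ hβ' t₁ t₂ h2.1 h1
    have e2 : ∀ᶠ σ in 𝓝 τ, ∀ s ∈ Icc (-R) R, b₁ (s + σ) < b₂ s := by
      refine isCompact_Icc.eventually_forall_of_forall_eventually fun s _ => ?_
      have c1 := h₁.cb
      have c2 := h₂.cb
      exact ContinuousAt.eventually_lt (f := fun z : ℝ × ℝ => b₁ (z.2 + z.1))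
        (g := fun z : ℝ × ℝ => b₂ z.2) (by fun_prop) (by fun_prop) (st s)
    obtain ⟨σ, h3, h4⟩ := ((e2.filter_mono (nhdsWithin_le_nhds (s := Iio τ))).and
      (Ioo_mem_nhdsLT h2.2)).exists
    have : σ ∈ S := by
      refine ⟨by linarith [h2.1, h4.1], fun s => ?_⟩
      by_cases hs : s ∈ Icc (-R) R
      · exact (h3 s hs).le
      · have := an₁.antitone (show s + τ₀ ≤ s + σ by linarith [h4.1])
        linarith [hR s hs]
    linarith [csInf_le hbd this, h4.2]
  · simpa [← hτ] using hm.2 s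

theorem sol_unique {l β : ℝ} (h₁ : Sol l α₁ b₁ v₁ p₁) (h₂ : Sol l α₂ b₂ v₂ p₂) (hβ : 0 < β)
    (hβ' : β ^ 2 < 1 / 2) (t₁ : Tendsto b₁ atTop (𝓝 β)) (t₂ : Tendsto b₂ atTop (𝓝 β))
    (a₁ : 0 < α₁) (a₂ : 0 < α₂) (w₁ : ∀ s, 0 < v₁ s) (w₂ : ∀ s, 0 < v₂ s) :
    b₁ = b₂ ∧ p₁ = p₂ := by
  have e : b₁ = b₂ := funext fun s => le_antisymm
    (le_slide h₁ h₂ hβ hβ' t₁ t₂ a₁ a₂ w₁ w₂ s) (le_slide h₂ h₁ hβ hβ' t₂ t₁ a₂ a₁ w₂ w₁ s)
  subst e
  have ev : v₁ = v₂ := funext fun s => neg_injective ((h₁.db s).unique (h₂.db s))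
  subst ev
  refine ⟨rfl, funext fun s => ?_⟩
  have := (h₁.dv s).unique (h₂.dv s)
  simp only [rv] at this
  have hb := h₁.b_pos s
  have : p₁ s ^ 2 = p₂ s ^ 2 := by
    apply mul_left_cancel₀ hb.ne'
    linarith
  exact (pow_left_inj₀ (h₁.p_pos s).le (h₂.p_pos s).le two_ne_zero).1 this

end Pool.Agent.Lib.MP_df9110_gt
end

-- part Pool.Agent.Lib.MP_df9110_gt.Curv
section

/-! The soliton equation of the doubly warped metric as a system of three equations. -/

namespace Pool.Agent.Lib.MP_df9110_gt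

open Filter Topology Real
open scoped ContDiff

theorem pd_prod (i : Fin 4) (F G : ℝ → ℝ) (x : Pt) (F' G' : ℝ) (hF : HasDerivAt F F' (x 1))
    (hG : HasDerivAt G G' (x 2)) :
    pd i (fun y => F (y 1) * G (y 2)) x =
      (if i = 1 then F' * G (x 2) else 0) + (if i = 2 then F (x 1) * G' else 0) := by
  have h1 : HasFDerivAt (fun y : Pt => F (y 1))
      (F' • (ContinuousLinearMap.proj 1 : Pt →L[ℝ] ℝ)) x := by
    have := hF.hasFDerivAt.comp x (hasFDerivAt_apply (𝕜 := ℝ) (1 : Fin 4) x)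
    refine this.congr_fderiv ?_
    ext v
    simp [mul_comm]
  have h2 : HasFDerivAt (fun y : Pt => G (y 2))
      (G' • (ContinuousLinearMap.proj 2 : Pt →L[ℝ] ℝ)) x := by
    have := hG.hasFDerivAt.comp x (hasFDerivAt_apply (𝕜 := ℝ) (2 : Fin 4) x)
    refine this.congr_fderiv ?_
    ext v
    simp [mul_comm]
  have h3 := (h1.mul h2).fderiv
  unfold pd
  have : (fun y : Pt => F (y 1) * G (y 2)) = (fun y : Pt => F (y 1)) * fun y : Pt => G (y 2) := rfl
  rw [this, h3]
  fin_cases i <;> simp [mul_comm]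

theorem pd_congr (i : Fin 4) {h h' : Pt → ℝ} {x : Pt} (e : h =ᶠ[𝓝 x] h') :
    pd i h x = pd i h' x := by
  unfold pd
  rw [e.fderiv_eq]

/-- radial factor of the metric coefficients -/
noncomputable def gF (A B : ℝ → ℝ) (i j : Fin 4) (t : ℝ) : ℝ :=
  if i = j then ![A t ^ 2, 1, B t ^ 2, B t ^ 2] i else 0

noncomputable def gF' (A B : ℝ → ℝ) (i j : Fin 4) (t : ℝ) : ℝ :=
  if i = j then ![2 * A t * deriv A t, 0, 2 * B t * deriv B t, 2 * B t * deriv B t] i else 0

noncomputable def gG (i : Fin 4) (s : ℝ) : ℝ := ![1, 1, 1, sin s ^ 2] i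

noncomputable def gG' (i : Fin 4) (s : ℝ) : ℝ := ![0, 0, 0, 2 * sin s * cos s] i

theorem warped_eq (A B : ℝ → ℝ) (i j : Fin 4) :
    (fun y : Pt => warped A B y i j) = fun y => gF A B i j (y 1) * gG i (y 2) := by
  funext y
  fin_cases i <;> fin_cases j <;> simp [warped, gF, gG]

theorem gF_deriv {A B : ℝ → ℝ} (hA : Differentiable ℝ A) (hB : Differentiable ℝ B) (i j : Fin 4)
    (t : ℝ) : HasDerivAt (gF A B i j) (gF' A B i j t) t := by
  have a : HasDerivAt (fun t => A t ^ 2) (2 * A t * deriv A t) t := by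
    simpa using (hA t).hasDerivAt.fun_pow 2
  have b : HasDerivAt (fun t => B t ^ 2) (2 * B t * deriv B t) t := by
    simpa using (hB t).hasDerivAt.fun_pow 2
  unfold gF gF'
  by_cases h : i = j
  · simp only [h, if_true]
    fin_cases j
    · exact a
    · exact hasDerivAt_const _ _
    · exact b
    · exact b
  · simp only [h, if_false]
    exact hasDerivAt_const _ _

theorem gG_deriv (i : Fin 4) (s : ℝ) : HasDerivAt (gG i) (gG' i s) s := by
  unfold gG gG'
  fin_cases i
  · exact hasDerivAt_const _ _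
  · exact hasDerivAt_const _ _
  · exact hasDerivAt_const _ _
  · simpa using (hasDerivAt_sin s).fun_pow 2

theorem pd_warped {A B : ℝ → ℝ} (hA : Differentiable ℝ A) (hB : Differentiable ℝ B)
    (k i j : Fin 4) (x : Pt) :
    pd k (fun y => warped A B y i j) x =
      (if k = 1 then gF' A B i j (x 1) * gG i (x 2) else 0) +
        (if k = 2 then gF A B i j (x 1) * gG' i (x 2) else 0) := by
  rw [warped_eq, pd_prod k _ _ x _ _ (gF_deriv hA hB i j _) (gG_deriv i _)]

theorem warped_inv {A B : ℝ → ℝ} {x : Pt} (hA : A (x 1) ≠ 0) (hB : B (x 1) ≠ 0)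
    (hs : sin (x 2) ≠ 0) :
    (warped A B x)⁻¹ = Matrix.diagonal
      ![(A (x 1) ^ 2)⁻¹, 1, (B (x 1) ^ 2)⁻¹, (B (x 1) ^ 2 * sin (x 2) ^ 2)⁻¹] := by
  apply Matrix.inv_eq_right_inv
  unfold warped
  rw [Matrix.diagonal_mul_diagonal, ← Matrix.diagonal_one]
  congr 1
  funext i
  fin_cases i <;> simp <;> field_simp

/-- radial factor of the Christoffel symbols -/
noncomputable def cF (A B : ℝ → ℝ) (k i j : Fin 4) (t : ℝ) : ℝ :=
  ![![![0, deriv A t / A t, 0, 0], ![deriv A t / A t, 0, 0, 0], ![0, 0, 0, 0], ![0, 0, 0, 0]],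
    ![![-(A t * deriv A t), 0, 0, 0], ![0, 0, 0, 0], ![0, 0, -(B t * deriv B t), 0],
      ![0, 0, 0, -(B t * deriv B t)]],
    ![![0, 0, 0, 0], ![0, 0, deriv B t / B t, 0], ![0, deriv B t / B t, 0, 0], ![0, 0, 0, -1]],
    ![![0, 0, 0, 0], ![0, 0, 0, deriv B t / B t], ![0, 0, 0, 1], ![0, deriv B t / B t, 1, 0]]]
    k i j

/-- angular factor of the Christoffel symbols -/
noncomputable def cG (k i j : Fin 4) (s : ℝ) : ℝ :=
  ![![![1, 1, 1, 1], ![1, 1, 1, 1], ![1, 1, 1, 1], ![1, 1, 1, 1]],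
    ![![1, 1, 1, 1], ![1, 1, 1, 1], ![1, 1, 1, 1], ![1, 1, 1, sin s ^ 2]],
    ![![1, 1, 1, 1], ![1, 1, 1, 1], ![1, 1, 1, 1], ![1, 1, 1, sin s * cos s]],
    ![![1, 1, 1, 1], ![1, 1, 1, 1], ![1, 1, 1, cos s / sin s], ![1, 1, cos s / sin s, 1]]]
    k i j

theorem chr_eq {A B : ℝ → ℝ} (hA : Differentiable ℝ A) (hB : Differentiable ℝ B) {x : Pt}
    (hA0 : A (x 1) ≠ 0) (hB0 : B (x 1) ≠ 0) (hs : sin (x 2) ≠ 0) (k i j : Fin 4) :
    Chr (warped A B) k i j x = cF A B k i j (x 1) * cG k i j (x 2) := by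
  unfold Chr
  simp only [pd_warped hA hB, warped_inv hA0 hB0 hs, Fin.sum_univ_four]
  fin_cases k <;> fin_cases i <;> fin_cases j <;>
    simp [cF, cG, gF, gF', gG, gG', Matrix.diagonal] <;> field_simp


theorem cF_diff {A B : ℝ → ℝ} (hA : Differentiable ℝ A) (hB : Differentiable ℝ B)
    (hA' : Differentiable ℝ (deriv A)) (hB' : Differentiable ℝ (deriv B)) {t : ℝ}
    (hA0 : A t ≠ 0) (hB0 : B t ≠ 0) (k i j : Fin 4) :
    DifferentiableAt ℝ (cF A B k i j) t := by
  have a := hA t
  have b := hB t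
  have a' := hA' t
  have b' := hB' t
  unfold cF
  fin_cases k <;> fin_cases i <;> fin_cases j <;> simp <;> fun_prop (disch := assumption)

theorem cG_diff {s : ℝ} (hs : sin s ≠ 0) (k i j : Fin 4) :
    DifferentiableAt ℝ (cG k i j) s := by
  unfold cG
  fin_cases k <;> fin_cases i <;> fin_cases j <;> simp <;> fun_prop (disch := assumption)

theorem pd_chr {A B : ℝ → ℝ} (hA : Differentiable ℝ A) (hB : Differentiable ℝ B)
    (hA' : Differentiable ℝ (deriv A)) (hB' : Differentiable ℝ (deriv B)) {x : Pt}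
    (hA0 : A (x 1) ≠ 0) (hB0 : B (x 1) ≠ 0) (hs : sin (x 2) ≠ 0) (m k i j : Fin 4) :
    pd m (Chr (warped A B) k i j) x =
      (if m = 1 then deriv (cF A B k i j) (x 1) * cG k i j (x 2) else 0) +
        (if m = 2 then cF A B k i j (x 1) * deriv (cG k i j) (x 2) else 0) := by
  rw [← pd_prod m _ _ x _ _ (cF_diff hA hB hA' hB' hA0 hB0 k i j).hasDerivAt
    (cG_diff hs k i j).hasDerivAt]
  apply pd_congr
  have c1 : ContinuousAt (fun y : Pt => A (y 1)) x := (hA.continuous.comp (continuous_apply 1)).continuousAt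
  have c2 : ContinuousAt (fun y : Pt => B (y 1)) x := (hB.continuous.comp (continuous_apply 1)).continuousAt
  have c3 : ContinuousAt (fun y : Pt => sin (y 2)) x :=
    (continuous_sin.comp (continuous_apply 2)).continuousAt
  filter_upwards [c1.eventually_ne hA0, c2.eventually_ne hB0, c3.eventually_ne hs] with y h1 h2 h3
  exact chr_eq hA hB h1 h2 h3 k i j

theorem pd_rad (i : Fin 4) (F : ℝ → ℝ) (hF : Differentiable ℝ F) (x : Pt) :
    pd i (fun y => F (y 1)) x = if i = 1 then deriv F (x 1) else 0 := by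
  have := pd_prod i F (fun _ => 1) x _ _ (hF (x 1)).hasDerivAt (hasDerivAt_const _ _)
  simpa using this

theorem hess_eq {A B f : ℝ → ℝ} (hf : Differentiable ℝ f) (hf' : Differentiable ℝ (deriv f))
    (i j : Fin 4) (x : Pt) :
    Hess (warped A B) (fun y => f (y 1)) i j x =
      (if j = 1 ∧ i = 1 then deriv (deriv f) (x 1) else 0) -
        Chr (warped A B) 1 i j x * deriv f (x 1) := by
  unfold Hess
  have e : pd j (fun y : Pt => f (y 1)) = fun y => if j = 1 then deriv f (y 1) else 0 := by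
    funext y
    exact pd_rad j f hf y
  rw [e]
  simp only [pd_rad _ f hf, Fin.sum_univ_four]
  by_cases hj : j = 1
  · simp only [hj, if_true, pd_rad _ _ hf', true_and]
    simp
  · simp [hj, pd]

theorem soliton_ode {A B f : ℝ → ℝ} {a b : ℝ} (h : IsInvariantExpander A B f a b) {t : ℝ}
    (ht : 0 < t) :
    (deriv (deriv A) t / A t + 2 * (deriv A t / A t) * (deriv B t / B t)
        - deriv f t * (deriv A t / A t) = 1 / 2) ∧
    (deriv (deriv B) t = (1 - deriv B t ^ 2) / B t
        - (deriv A t / A t - deriv f t) * deriv B t + B t / 2) ∧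
    (deriv (deriv f) t = deriv (deriv A) t / A t + 2 * deriv (deriv B) t / B t - 1 / 2) := by
  have hA : Differentiable ℝ A := h.smooth_A.differentiable (by simp)
  have hB : Differentiable ℝ B := h.smooth_B.differentiable (by simp)
  have hf : Differentiable ℝ f := h.smooth_f.differentiable (by simp)
  have hA' : Differentiable ℝ (deriv A) := h.smooth_A.iterate_deriv 1 |>.differentiable (by simp)
  have hB' : Differentiable ℝ (deriv B) := h.smooth_B.iterate_deriv 1 |>.differentiable (by simp)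
  have hf' : Differentiable ℝ (deriv f) := h.smooth_f.iterate_deriv 1 |>.differentiable (by simp)
  set x : Pt := ![0, t, π / 2, 0] with hx
  have x1 : x 1 = t := rfl
  have x2 : x 2 = π / 2 := rfl
  have hA0 : A t ≠ 0 := (h.pos_A t).ne'
  have hB0 : B t ≠ 0 := (h.pos_B t ht).ne'
  have hs : sin (x 2) ≠ 0 := by rw [x2]; simp
  have S := h.soliton x ht (by rw [x2]; positivity) (by rw [x2]; linarith [pi_pos])
  have dA : deriv (fun t => deriv A t / A t) t =
      (deriv (deriv A) t * A t - deriv A t * deriv A t) / A t ^ 2 :=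
    ((hA' t).hasDerivAt.fun_div (hA t).hasDerivAt hA0).deriv
  have dB : deriv (fun t => deriv B t / B t) t =
      (deriv (deriv B) t * B t - deriv B t * deriv B t) / B t ^ 2 :=
    ((hB' t).hasDerivAt.fun_div (hB t).hasDerivAt hB0).deriv
  have eA : deriv (fun t => -(A t * deriv A t)) t =
      -(deriv A t * deriv A t + A t * deriv (deriv A) t) :=
    ((hA t).hasDerivAt.fun_mul (hA' t).hasDerivAt).fun_neg.deriv
  have eB : deriv (fun t => -(B t * deriv B t)) t =
      -(deriv B t * deriv B t + B t * deriv (deriv B) t) :=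
    ((hB t).hasDerivAt.fun_mul (hB' t).hasDerivAt).fun_neg.deriv
  have ct : deriv (fun s => cos s / sin s) (π / 2) = -1 := by
    have := ((hasDerivAt_cos (π / 2)).fun_div (hasDerivAt_sin (π / 2)) (by simp)).deriv
    rw [this]
    simp
  have S0 := S 0 0
  have S1 := S 1 1
  have S2 := S 2 2
  rw [hess_eq hf hf'] at S0 S1 S2
  unfold Ric at S0 S1 S2
  simp only [pd_chr hA hB hA' hB' (x := x) hA0 hB0 hs, chr_eq hA hB (x := x) hA0 hB0 hs,
    Fin.sum_univ_four, x1, x2] at S0 S1 S2
  unfold cF cG at S0 S1 S2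
  simp [warped, x1, x2, dA, dB, eA, eB, ct] at S0 S1 S2
  refine ⟨?_, ?_, ?_⟩
  · linear_combination (norm := (field_simp; ring)) (-(1 / A t ^ 2)) * S0
  · field_simp at S2 ⊢
    linarith
  · linear_combination (norm := (field_simp; ring)) S1

end Pool.Agent.Lib.MP_df9110_gt
end

-- part Pool.Agent.Lib.MP_df9110_gt.Bridge
section

/-! From invariant solitons to the reduced system, and the uniqueness theorem. -/

namespace Pool.Agent.Lib.MP_df9110_gt

open Filter Topology Set Real
open scoped ContDiff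

theorem slope_zero {F : ℝ → ℝ} (hF : DifferentiableAt ℝ F 0) (h0 : F 0 = 0) :
    Tendsto (fun t => F t / t) (𝓝[>] 0) (𝓝 (deriv F 0)) := by
  refine hF.hasDerivAt.tendsto_slope_zero_right.congr fun t => ?_
  simp [h0, div_eq_inv_mul]

theorem deriv_of_even {F : ℝ → ℝ} (h : ∀ t, F (-t) = F t) (t : ℝ) :
    deriv F (-t) = -deriv F t := by
  have := deriv_comp_neg F t
  simp only [h] at this
  have e : deriv (fun x => F x) t = deriv F t := rfl
  linarith

theorem deriv_of_odd {F : ℝ → ℝ} (h : ∀ t, F (-t) = -F t) (t : ℝ) :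
    deriv F (-t) = deriv F t := by
  have := deriv_comp_neg F t
  simp only [h, deriv.fun_neg] at this
  linarith

namespace IsInvariantExpander

variable {A B f : ℝ → ℝ} {a b : ℝ}

theorem dA (h : IsInvariantExpander A B f a b) : Differentiable ℝ A :=
  h.smooth_A.differentiable (by simp)

theorem dB (h : IsInvariantExpander A B f a b) : Differentiable ℝ B :=
  h.smooth_B.differentiable (by simp)

theorem df (h : IsInvariantExpander A B f a b) : Differentiable ℝ f :=
  h.smooth_f.differentiable (by simp)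

theorem dA1 (h : IsInvariantExpander A B f a b) : Differentiable ℝ (deriv A) :=
  (h.smooth_A.iterate_deriv 1).differentiable (by simp)

theorem dB1 (h : IsInvariantExpander A B f a b) : Differentiable ℝ (deriv B) :=
  (h.smooth_B.iterate_deriv 1).differentiable (by simp)

theorem df1 (h : IsInvariantExpander A B f a b) : Differentiable ℝ (deriv f) :=
  (h.smooth_f.iterate_deriv 1).differentiable (by simp)

theorem dA2 (h : IsInvariantExpander A B f a b) : Differentiable ℝ (deriv (deriv A)) :=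
  (h.smooth_A.iterate_deriv 2).differentiable (by simp)

theorem dB2 (h : IsInvariantExpander A B f a b) : Differentiable ℝ (deriv (deriv B)) :=
  (h.smooth_B.iterate_deriv 2).differentiable (by simp)

theorem B_zero (h : IsInvariantExpander A B f a b) : B 0 = 0 := by
  have := h.odd_B 0
  rw [neg_zero] at this
  linarith

theorem A1_zero (h : IsInvariantExpander A B f a b) : deriv A 0 = 0 := by
  have := deriv_of_even h.even_A 0
  rw [neg_zero] at this
  linarith

theorem B2_zero (h : IsInvariantExpander A B f a b) : deriv (deriv B) 0 = 0 := by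
  have := deriv_of_even (deriv_of_odd h.odd_B) 0
  rw [neg_zero] at this
  linarith

theorem B1_pos (h : IsInvariantExpander A B f a b) (t : ℝ) : 0 < deriv B t := by
  have key : ∀ t, 0 ≤ t → 0 < deriv B t := by
    refine pos_of_first_zero h.dB1.continuous (by rw [h.deriv_B]; norm_num)
      fun s hs h0 _ => ⟨_, (h.dB1 s).hasDerivAt, ?_⟩
    rw [(soliton_ode h hs).2.1, h0]
    have := h.pos_B s hs
    simp only [mul_zero, sub_zero]
    norm_num
    positivity
  rcases le_total 0 t with ht | ht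
  · exact key t ht
  · rw [← deriv_of_odd h.odd_B]
    exact key _ (by linarith)

theorem B_mono (h : IsInvariantExpander A B f a b) : StrictMono B :=
  strictMono_of_deriv_pos h.B1_pos

theorem B_top (h : IsInvariantExpander A B f a b) (hb : 0 < b) : Tendsto B atTop atTop := by
  have := Tendsto.pos_mul_atTop hb h.cone_B tendsto_id
  refine this.congr' ?_
  filter_upwards [eventually_gt_atTop 0] with t ht
  simp only [id]
  field_simp

theorem B_surj (h : IsInvariantExpander A B f a b) (hb : 0 < b) : Function.Surjective B := by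
  refine h.dB.continuous.surjective (h.B_top hb) ?_
  have := tendsto_neg_atTop_atBot.comp ((h.B_top hb).comp tendsto_neg_atBot_atTop)
  refine this.congr fun t => ?_
  simp [h.odd_B]

theorem exists_T (h : IsInvariantExpander A B f a b) (hb : 0 < b) :
    ∃ T : ℝ → ℝ, (∀ s, B (T s) = exp s) ∧ (∀ s, 0 < T s) ∧
      (∀ s, HasDerivAt T (B (T s) / deriv B (T s)) s) ∧ Tendsto T atBot (𝓝[>] 0) ∧
      Tendsto T atTop atTop := by
  set e := h.B_mono.orderIsoOfSurjective B (h.B_surj hb) with he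
  have e1 : ∀ y, B (e.symm y) = y := fun y => e.apply_symm_apply y
  have e0 : e.symm 0 = 0 := h.B_mono.injective (by rw [e1, h.B_zero])
  have hpos : ∀ s, 0 < e.symm (exp s) := fun s => by
    rw [← e0]
    exact e.symm.strictMono (exp_pos s)
  refine ⟨fun s => e.symm (exp s), fun s => e1 _, hpos, fun s => ?_, ?_, ?_⟩
  · have h1 : HasDerivAt e.symm (deriv B (e.symm (exp s)))⁻¹ (exp s) :=
      HasDerivAt.of_local_left_inverse e.symm.continuous.continuousAt
        (h.dB _).hasDerivAt (h.B1_pos _).ne' (Eventually.of_forall e1)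
    refine (h1.comp s (hasDerivAt_exp s)).congr_deriv ?_
    rw [e1, div_eq_inv_mul]
  · refine tendsto_nhdsWithin_iff.2 ⟨?_, Eventually.of_forall hpos⟩
    have := (e.symm.continuous.tendsto 0).comp tendsto_exp_atBot
    rwa [e0] at this
  · exact e.symm.tendsto_atTop.comp tendsto_exp_atTop

theorem A2_zero (h : IsInvariantExpander A B f a b) : deriv (deriv A) 0 / A 0 = 1 / 6 := by
  have hA0 := (h.pos_A 0).ne'
  have c : ∀ {F : ℝ → ℝ}, Differentiable ℝ F → Tendsto F (𝓝[>] 0) (𝓝 (F 0)) := fun hF =>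
    (hF.continuous.tendsto 0).mono_left nhdsWithin_le_nhds
  have s1 := slope_zero (h.dA1 0) h.A1_zero
  have s2 := slope_zero (h.dB 0) h.B_zero
  have l := (((c h.dA2).div (c h.dA) hA0).add
    (((s1.div (c h.dA) hA0).const_mul 2).mul ((c h.dB1).div s2 (by rw [h.deriv_B]; norm_num)))).sub
    ((c h.df1).mul ((c h.dA1).div (c h.dA) hA0))
  have l2 : Tendsto (fun _ : ℝ => (1 / 2 : ℝ)) (𝓝[>] 0) (𝓝 (1 / 2)) := tendsto_const_nhds
  have := tendsto_nhds_unique (l.congr' (by
    filter_upwards [self_mem_nhdsWithin] with t ht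
    have ht' : t ≠ 0 := ne_of_gt ht
    have := (h.pos_A t).ne'
    have := (h.pos_B t ht).ne'
    rw [← (soliton_ode h ht).1]
    simp only [Pi.div_apply]
    field_simp)) l2
  rw [h.A1_zero, h.deriv_B] at this
  simp only [div_one, mul_one, zero_div, mul_zero, sub_zero] at this
  linarith

theorem B3_eq (h : IsInvariantExpander A B f a b) {t : ℝ} (ht : 0 < t) :
    deriv (deriv (deriv B)) t =
      deriv B t * ((deriv A t / A t) ^ 2 - (1 - deriv B t ^ 2) / B t ^ 2) -
        (deriv A t / A t - deriv f t) * deriv (deriv B) t := by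
  have hA0 := (h.pos_A t).ne'
  have hB0 := (h.pos_B t ht).ne'
  have e : deriv (deriv B) =ᶠ[𝓝 t] fun t => (1 - deriv B t ^ 2) / B t
      - (deriv A t / A t - deriv f t) * deriv B t + B t / 2 := by
    filter_upwards [lt_mem_nhds ht] with r hr using (soliton_ode h hr).2.1
  have d := ((((((h.dB1 t).hasDerivAt.fun_pow 2).const_sub 1).fun_div (h.dB t).hasDerivAt
    hB0).fun_sub (((((h.dA1 t).hasDerivAt.fun_div (h.dA t).hasDerivAt hA0).fun_sub
      (h.df1 t).hasDerivAt).fun_mul (h.dB1 t).hasDerivAt))).fun_add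
      ((h.dB t).hasDerivAt.div_const 2))
  rw [e.deriv_eq, d.deriv, (soliton_ode h ht).2.2]
  norm_num
  field_simp
  ring

theorem sol (h : IsInvariantExpander A B f a b) {T : ℝ → ℝ} (h1 : ∀ s, B (T s) = exp s)
    (h2 : ∀ s, 0 < T s) (h3 : ∀ s, HasDerivAt T (B (T s) / deriv B (T s)) s)
    (h4 : Tendsto T atBot (𝓝[>] 0)) :
    Sol (1 / 2) (-deriv (deriv (deriv B)) 0 / 2) (fun s => deriv B (T s))
      (fun s => -(deriv (deriv B) (T s) * B (T s) / deriv B (T s)))
      (fun s => deriv A (T s) * B (T s) / (A (T s) * deriv B (T s))) := by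
  have ek : ∀ s, exp (2 * s) = B (T s) ^ 2 := fun s => by
    rw [h1, ← exp_nat_mul]
    norm_num
  have c : ∀ {F : ℝ → ℝ}, Differentiable ℝ F → Tendsto F (𝓝[>] 0) (𝓝 (F 0)) := fun hF =>
    (hF.continuous.tendsto 0).mono_left nhdsWithin_le_nhds
  have s1 := slope_zero (h.dA1 0) h.A1_zero
  have s2 := slope_zero (h.dB 0) h.B_zero
  have s3 := slope_zero (h.dB2 0) h.B2_zero
  have s4 := c h.dB1
  rw [h.deriv_B] at s2 s4
  refine ⟨by norm_num, fun s => h.B1_pos _, fun s => ?_, fun s => ?_, fun s => ?_, ?_, ?_, ?_⟩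
  · refine ((h.dB1 (T s)).hasDerivAt.comp s (h3 s)).congr_deriv ?_
    ring
  · have d := (((h.dB2 (T s)).hasDerivAt.fun_mul (h.dB (T s)).hasDerivAt).fun_div
      (h.dB1 (T s)).hasDerivAt (h.B1_pos _).ne').fun_neg
    refine (d.comp s (h3 s)).congr_deriv ?_
    have hA0 := (h.pos_A (T s)).ne'
    have hB0 := (h.pos_B _ (h2 s)).ne'
    have hB1 := (h.B1_pos (T s)).ne'
    have E2 := (soliton_ode h (h2 s)).2.1
    have eu : deriv A (T s) / A (T s) - deriv f (T s) =
        ((1 - deriv B (T s) ^ 2) / B (T s) + B (T s) / 2 - deriv (deriv B) (T s)) /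
          deriv B (T s) := by
      rw [eq_div_iff hB1]
      linarith
    simp only [rv, ek]
    rw [h.B3_eq (h2 s), eu]
    field_simp
    ring
  · have hA0 := (h.pos_A (T s)).ne'
    have hB0 := (h.pos_B _ (h2 s)).ne'
    have hB1 := (h.B1_pos (T s)).ne'
    have d := ((h.dA1 (T s)).hasDerivAt.fun_mul (h.dB (T s)).hasDerivAt).fun_div
      ((h.dA (T s)).hasDerivAt.fun_mul (h.dB1 (T s)).hasDerivAt) (mul_ne_zero hA0 hB1)
    refine (d.comp s (h3 s)).congr_deriv ?_
    obtain ⟨E1, E2, -⟩ := soliton_ode h (h2 s)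
    have e1 : deriv (deriv A) (T s) = A (T s) * (1 / 2 - 2 * (deriv A (T s) / A (T s)) *
        (deriv B (T s) / B (T s)) + deriv f (T s) * (deriv A (T s) / A (T s))) := by
      rw [← E1]
      field_simp
      ring
    rw [ek, e1, E2]
    field_simp
    ring
  · have l : Tendsto (fun t => (1 - deriv B t) / t ^ 2) (𝓝[>] 0)
        (𝓝 (-deriv (deriv (deriv B)) 0 / 2)) := by
      refine HasDerivAt.lhopital_zero_nhdsGT (f' := fun t => -deriv (deriv B) t)
        (g' := fun t => 2 * t)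
        (Eventually.of_forall fun t => (h.dB1 t).hasDerivAt.const_sub 1)
        (Eventually.of_forall fun t => by simpa using hasDerivAt_pow 2 t) ?_ ?_ ?_ ?_
      · filter_upwards [self_mem_nhdsWithin] with t ht
        exact mul_ne_zero two_ne_zero (ne_of_gt ht)
      · simpa using s4.const_sub 1
      · have : Tendsto (fun t : ℝ => t ^ 2) (𝓝 0) (𝓝 (0 ^ 2)) := (continuous_pow 2).tendsto 0
        simpa using this.mono_left nhdsWithin_le_nhds
      · refine (s3.neg.div_const 2).congr fun t => ?_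
        ring
    have l2 := (l.div (s2.pow 2) (by norm_num)).comp h4
    rw [one_pow, div_one] at l2
    refine l2.congr fun s => ?_
    have := (h2 s).ne'
    have hB0 := (h.pos_B _ (h2 s)).ne'
    simp only [ek, Function.comp, Pi.div_apply]
    field_simp
  · have l2 := ((s3.neg.div s2 one_ne_zero).div s4 one_ne_zero).comp h4
    rw [show 2 * (-deriv (deriv (deriv B)) 0 / 2) = -deriv (deriv (deriv B)) 0 / 1 / 1 by ring]
    refine l2.congr fun s => ?_
    have := (h2 s).ne'
    have hB0 := (h.pos_B _ (h2 s)).ne'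
    have hB1 := (h.B1_pos (T s)).ne'
    simp only [ek, Function.comp, Pi.div_apply]
    field_simp
  · have l2 := (((s1.div (c h.dA) (h.pos_A 0).ne').div s2 one_ne_zero).div s4 one_ne_zero).comp h4
    rw [h.A2_zero] at l2
    rw [show (1 / 2 : ℝ) / 3 = 1 / 6 / 1 / 1 by norm_num]
    refine l2.congr fun s => ?_
    have := (h2 s).ne'
    have hA0 := (h.pos_A (T s)).ne'
    have hB0 := (h.pos_B _ (h2 s)).ne'
    have hB1 := (h.B1_pos (T s)).ne'
    simp only [ek, Function.comp, Pi.div_apply]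
    field_simp

theorem T_log (h : IsInvariantExpander A B f a b) {T : ℝ → ℝ} (h1 : ∀ s, B (T s) = exp s)
    {t : ℝ} (ht : 0 < t) : T (log (B t)) = t :=
  h.B_mono.injective (by rw [h1, exp_log (h.pos_B t ht)])

theorem transfer (h : IsInvariantExpander A B f a b) {T : ℝ → ℝ} (h1 : ∀ s, B (T s) = exp s)
    (h2 : ∀ s, 0 < T s) {P : ℝ → Prop} {s₀ : ℝ} (hP : ∀ s, s₀ ≤ s → P (T s)) (t : ℝ)
    (ht : T s₀ ≤ t) : P t := by
  have ht0 : 0 < t := (h2 s₀).trans_le ht
  rw [← h.T_log h1 ht0]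
  refine hP _ ((le_log_iff_exp_le (h.pos_B t ht0)).2 ?_)
  rw [← h1]
  exact h.B_mono.monotone ht

end IsInvariantExpander

theorem le_slope_lim {F : ℝ → ℝ} {b m t₀ : ℝ} (hF : Differentiable ℝ F)
    (hl : Tendsto (fun t => F t / t) atTop (𝓝 b)) (h : ∀ t, t₀ ≤ t → m ≤ deriv F t) : m ≤ b := by
  have hd : ∀ t, HasDerivAt (fun t => F t - m * t) (deriv F t - m) t := fun t => by
    simpa using (hF t).hasDerivAt.fun_sub ((hasDerivAt_id t).const_mul m)
  have hm : MonotoneOn (fun t => F t - m * t) (Ici t₀) := by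
    refine monotoneOn_of_deriv_nonneg (convex_Ici _)
      (fun t _ => (hd t).continuousAt.continuousWithinAt)
      (fun t _ => (hd t).differentiableAt.differentiableWithinAt) fun t ht => ?_
    rw [interior_Ici] at ht
    rw [(hd t).deriv]
    linarith [h t (le_of_lt ht)]
  have l : Tendsto (fun t : ℝ => (F t₀ - m * t₀) / t + m) atTop (𝓝 (0 + m)) :=
    (tendsto_const_nhds.div_atTop tendsto_id).add_const m
  rw [zero_add] at l
  refine le_of_tendsto_of_tendsto l hl ?_
  filter_upwards [eventually_ge_atTop t₀, eventually_gt_atTop 0] with t ht ht0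
  have := hm (mem_Ici.2 le_rfl) ht ht
  rw [div_add' _ _ _ ht0.ne']
  exact div_le_div_of_nonneg_right (by simp only at this; linarith) ht0.le

theorem slope_lim_le {F : ℝ → ℝ} {b m t₀ : ℝ} (hF : Differentiable ℝ F)
    (hl : Tendsto (fun t => F t / t) atTop (𝓝 b)) (h : ∀ t, t₀ ≤ t → deriv F t ≤ m) : b ≤ m := by
  have := le_slope_lim (F := fun t => -F t) (b := -b) (m := -m) (t₀ := t₀) hF.neg
    (by simpa [neg_div] using hl.neg) (fun t ht => by
      rw [deriv.fun_neg]
      linarith [h t ht])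
  linarith

theorem IsInvariantExpander.good {A B f : ℝ → ℝ} {a b : ℝ} (h : IsInvariantExpander A B f a b)
    (hb : b ^ 2 < 1 / 2) {T v p : ℝ → ℝ} {α : ℝ} (h1 : ∀ s, B (T s) = exp s)
    (h2 : ∀ s, 0 < T s) (S : Sol (1 / 2) α (fun s => deriv B (T s)) v p) :
    0 < α ∧ (∀ s, 0 < v s) ∧ Tendsto (fun s => deriv B (T s)) atTop (𝓝 b) := by
  rcases S.dichotomy with ⟨hα, hv⟩ | ⟨s₀, hs⟩
  · refine ⟨hα, hv, ?_⟩
    have an := (S.anti hv).antitone
    have bd : BddBelow (range fun s => deriv B (T s)) :=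
      ⟨0, by rintro _ ⟨s, rfl⟩; exact (h.B1_pos _).le⟩
    have l := tendsto_atTop_ciInf an bd
    have e : ⨅ s, deriv B (T s) = b := by
      refine le_antisymm ?_ (le_ciInf fun s₀ => ?_)
      · exact le_slope_lim h.dB h.cone_B (h.transfer h1 h2 (s₀ := 0)
          (P := fun t => ⨅ s, deriv B (T s) ≤ deriv B t) fun s _ => ciInf_le bd s)
      · exact slope_lim_le h.dB h.cone_B (h.transfer h1 h2 (s₀ := s₀)
          (P := fun t => deriv B t ≤ deriv B (T s₀)) fun s hs => an hs)
    rwa [e] at l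
  · exfalso
    have := le_slope_lim h.dB h.cone_B (h.transfer h1 h2 (s₀ := s₀)
      (P := fun t => √(1 / 2) ≤ deriv B t) fun s hs' =>
        sqrt_le_iff.2 ⟨(h.B1_pos _).le, (hs s hs').le⟩)
    have := pow_le_pow_left₀ (sqrt_nonneg _) this 2
    rw [sq_sqrt (by norm_num)] at this
    linarith

theorem eq_of_pos_of_odd {F G : ℝ → ℝ} (hF : ∀ t, F (-t) = -F t) (hG : ∀ t, G (-t) = -G t)
    (h : ∀ t, 0 < t → F t = G t) : F = G := by
  funext t
  rcases lt_trichotomy t 0 with ht | ht | ht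
  · have := h (-t) (by linarith)
    rw [hF, hG] at this
    linarith
  · have a := hF 0
    have b := hG 0
    rw [neg_zero] at a b
    rw [ht]
    linarith
  · exact h t ht

theorem invariant_unique {A₁ B₁ f₁ A₂ B₂ f₂ : ℝ → ℝ} {a b : ℝ} (ha : 0 < a) (hb : 0 < b)
    (hb' : b ^ 2 < 1 / 2) (h₁ : IsInvariantExpander A₁ B₁ f₁ a b)
    (h₂ : IsInvariantExpander A₂ B₂ f₂ a b) :
    A₁ = A₂ ∧ B₁ = B₂ ∧ ∃ c, ∀ t, f₁ t = f₂ t + c := by
  obtain ⟨T₁, p1, p2, p3, p4, -⟩ := h₁.exists_T hb
  obtain ⟨T₂, q1, q2, q3, q4, -⟩ := h₂.exists_T hb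
  have S₁ := h₁.sol p1 p2 p3 p4
  have S₂ := h₂.sol q1 q2 q3 q4
  obtain ⟨a₁, w₁, t₁⟩ := h₁.good hb' p1 p2 S₁
  obtain ⟨a₂, w₂, t₂⟩ := h₂.good hb' q1 q2 S₂
  obtain ⟨eb, ep⟩ := sol_unique S₁ S₂ hb hb' t₁ t₂ a₁ a₂ w₁ w₂
  have eT : T₁ = T₂ := by
    have hd : ∀ s, HasDerivAt (fun s => T₁ s - T₂ s) 0 s := fun s => by
      refine ((p3 s).fun_sub (q3 s)).congr_deriv ?_
      rw [p1, q1, congrFun eb s, sub_self]
    have hc := is_const_of_deriv_eq_zero (fun s => (hd s).differentiableAt) fun s => (hd s).deriv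
    have l := (p4.mono_right nhdsWithin_le_nhds).sub (q4.mono_right nhdsWithin_le_nhds)
    funext s
    have := tendsto_nhds_unique (l.congr fun r => hc r s) tendsto_const_nhds
    linarith
  subst eT
  have eB : B₁ = B₂ := eq_of_pos_of_odd h₁.odd_B h₂.odd_B fun t ht => by
    conv_rhs => rw [← h₁.T_log p1 ht, q1, exp_log (h₁.pos_B t ht)]
  subst eB
  have eL : ∀ t, 0 < t → deriv A₁ t / A₁ t = deriv A₂ t / A₂ t := fun t ht => by
    have := congrFun ep (log (B₁ t))
    simp only [h₁.T_log p1 ht] at this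
    have a1 := (h₁.pos_A t).ne'
    have a2 := (h₂.pos_A t).ne'
    have a3 := (h₁.pos_B t ht).ne'
    have a4 := (h₁.B1_pos t).ne'
    field_simp at this ⊢
    linarith
  have eL' := eq_of_pos_of_odd (F := fun t => deriv A₁ t / A₁ t) (G := fun t => deriv A₂ t / A₂ t)
    (fun t => by simp only [deriv_of_even h₁.even_A, h₁.even_A, neg_div])
    (fun t => by simp only [deriv_of_even h₂.even_A, h₂.even_A, neg_div]) eL
  have eA : A₁ = A₂ := by
    have hd : ∀ t, HasDerivAt (fun t => A₁ t / A₂ t) 0 t := fun t => by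
      have a1 := (h₁.pos_A t).ne'
      have a2 := (h₂.pos_A t).ne'
      refine ((h₁.dA t).hasDerivAt.fun_div (h₂.dA t).hasDerivAt a2).congr_deriv ?_
      have := congrFun eL' t
      field_simp at this ⊢
      linarith
    have hc := is_const_of_deriv_eq_zero (fun s => (hd s).differentiableAt) fun s => (hd s).deriv
    have l := h₁.cone_A.div h₂.cone_A ha.ne'
    funext t
    have := tendsto_nhds_unique (l.congr' (f₂ := fun _ => A₁ t / A₂ t) (by
      filter_upwards [eventually_gt_atTop 0] with r hr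
      rw [← hc r t]
      have a2 := (h₂.pos_A r).ne'
      simp only [Pi.div_apply]
      field_simp)) tendsto_const_nhds
    rw [div_self ha.ne', eq_div_iff (h₂.pos_A t).ne'] at this
    linarith
  subst eA
  refine ⟨rfl, rfl, f₁ 0 - f₂ 0, fun t => ?_⟩
  have ef : deriv f₁ = deriv f₂ := eq_of_pos_of_odd (deriv_of_even h₁.even_f)
    (deriv_of_even h₂.even_f) fun t ht => by
      have e1 := (soliton_ode h₁ ht).2.1
      have e2 := (soliton_ode h₂ ht).2.1
      apply mul_right_cancel₀ (h₁.B1_pos t).ne'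
      linarith
  have hd : ∀ t, HasDerivAt (fun t => f₁ t - f₂ t) 0 t := fun t => by
    refine ((h₁.df t).hasDerivAt.fun_sub (h₂.df t).hasDerivAt).congr_deriv ?_
    rw [ef, sub_self]
  have hc := is_const_of_deriv_eq_zero (fun s => (hd s).differentiableAt)
    (fun s => (hd s).deriv) t 0
  linarith

end Pool.Agent.Lib.MP_df9110_gt
end
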