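import Pool.Agent.Lib.MP_df9110_gt.NIter

/-! The identities that need inverses, proved by restriction to smaller filters. -/

namespace Pool.Agent.Lib.MP_df9110_gt

open Filter Topology Set
open scoped ContDiff

namespace Cid2

theorem unit_of {R : Type} [CommRing R] {a b : R} (h : a * b = 1) : IsUnit a :=
  IsUnit.of_mul_eq_one b h

theorem unit_mul {R : Type} [CommRing R] {a b : R} (h : IsUnit (a * b)) : IsUnit a ∧ IsUnit b :=
  IsUnit.mul_iff.1 h

variable {l : Filter Z2}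

/-- The part of `l` where `F` does not vanish. -/
def lz (F : SmF l) : Filter Z2 := l ⊓ 𝓟 {z | F.1 z.1 z.2 ≠ 0}

instance [OpF l] (F : SmF l) : OpF (lz F) := ⟨fun {Q} h => by
  rw [lz, eventually_inf_principal] at h ⊢
  filter_upwards [OpF.op h, F.2] with z h1 h2 h3
  filter_upwards [h1, h2.continuousAt.eventually_ne h3] with q h4 h5 using h4 h5⟩

theorem crd_mem (l : Filter Z2) (a : Fin 2) : (fun (_ : ℝ) (p : En 2) => p a) ∈ SmF l :=
  Eventually.of_forall fun _ => contDiffAt_apply ℝ ℝ a _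

theorem pz (F : SmF l) : IsPull l (lz F) fun _ p => p :=
  ⟨crd_mem _, tendsto_id'.2 inf_le_left⟩

noncomputable def rs (F : SmF l) : SG l →ₐ[ℝ] SG (lz F) := (pz F).hom

theorem rs_mk (F H : SmF l) : rs F (mkG l H) = mkG (lz F) ⟨H.1, (pz F).mem H⟩ := rfl

theorem rs_D [OpF l] (F : SmF l) (j : Fin 2) (φ : SG l) : rs F (gD j φ) = gD j (rs F φ) := by
  obtain ⟨H, rfl⟩ := mkG_surj φ
  rw [← mkG_sfD, rs_mk, rs_mk, ← mkG_sfD]; rfl

theorem rs_E (F : SmF l) (φ : SG l) : rs F (expG φ) = expG (rs F φ) := by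
  obtain ⟨H, rfl⟩ := mkG_surj φ
  rw [← mkG_sfE, rs_mk, rs_mk, ← mkG_sfE]; rfl

theorem rs_unit (F : SmF l) : IsUnit (rs F (mkG l F)) := by
  have h0 : ∀ᶠ z in lz F, F.1 z.1 z.2 ≠ 0 := mem_inf_of_right (mem_principal_self _)
  have h1 : (fun i p => (F.1 i p)⁻¹) ∈ SmF (lz F) := by
    filter_upwards [(pz F).mem F, h0] with z h1 h2 using h1.inv h2
  refine unit_of (R := SG (lz F)) (b := mkG (lz F) ⟨_, h1⟩) ?_
  rw [rs_mk, ← map_mul, ← map_one (mkG (lz F)), mkG_eq]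
  filter_upwards [h0] with z hz using mul_inv_cancel₀ hz

theorem rs_inj (F : SmF l) (h : ∀ φ, mkG l F * φ = 0 → φ = 0) : Function.Injective (rs F) := by
  refine (injective_iff_map_eq_zero _).2 fun φ hφ => h φ ?_
  obtain ⟨H, rfl⟩ := mkG_surj φ
  rw [rs_mk, ← map_zero (mkG (lz F)), mkG_eq] at hφ
  rw [← map_mul, ← map_zero (mkG l), mkG_eq]
  filter_upwards [eventually_inf_principal.1 hφ] with z hz
  by_cases h0 : F.1 z.1 z.2 = 0
  · exact mul_eq_zero_of_left h0 _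
  · exact mul_eq_zero_of_right _ (hz h0)

theorem D_crd (l : Filter Z2) [OpF l] (j a : Fin 2) :
    gD j (gm l fun _ p => p a) = if a = j then 1 else 0 := by
  have e : ∀ p : En 2, pdn j (fun p : En 2 => p a) p = if a = j then 1 else 0 := fun p => by
    rw [pdn, (hasFDerivAt_apply (𝕜 := ℝ) a p).fderiv]
    simp [Pi.single_apply]
  rw [gm_eq (crd_mem l a), ← mkG_sfD]
  split_ifs at e ⊢
  · rw [← map_one (mkG l), mkG_eq]; exact Eventually.of_forall fun z => e z.2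
  · rw [← map_zero (mkG l), mkG_eq]; exact Eventually.of_forall fun z => e z.2

theorem chain (b2 : B2Stmt) {l' : Filter Z2} [OpF l] [OpF l'] {Φ : ℝ → En 2 → En 2}
    (h : IsPull l l' Φ) (h1 : (fun j p => Φ j p 1) = fun _ p => p 1) (φ : SG l) :
    gD 0 (h.hom φ) = gD 0 (gm l' fun j p => Φ j p 0) * h.hom (gD 0 φ) ∧
      gD 1 (h.hom φ) = gD 1 (gm l' fun j p => Φ j p 0) * h.hom (gD 0 φ) + h.hom (gD 1 φ) := by
  have b := ((b2 ℝ 2 l 1 fun _ => zero_le_one).pull h).1 φ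
  rw [b, b, Fin.sum_univ_two, Fin.sum_univ_two, h1, D_crd l' 0 1, D_crd l' 1 1, if_pos rfl,
    if_neg (by decide), zero_mul, add_zero, one_mul]
  exact ⟨rfl, rfl⟩

section Alg

variable {R S R' S' : Type} [CommRing R] [Algebra ℝ R] [CommRing S] [Algebra ℝ S] [CommRing R']
  [Algebra ℝ R'] [CommRing S'] [Algebra ℝ S'] {D : Fin 2 → R → R} {E : R → R}
  {D₁ : Fin 2 → S → S} {E₁ : S → S} {D' : Fin 2 → R' → R'} {E' : R' → R'}
  {D₁' : Fin 2 → S' → S'} {E₁' : S' → S'} {π : S →ₐ[ℝ] R} {π' : S' →ₐ[ℝ] R'} {r : R →ₐ[ℝ] R'}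
  {t : S →ₐ[ℝ] S'} {O : Out S} {G : Lay R}

theorem cov_back (hD : ∀ i a, r (D i a) = D' i (r a)) (hE : ∀ a, r (E a) = E' (r a))
    (kD : ∀ i a, t (D₁ i a) = D₁' i (t a)) (kE : ∀ a, t (E₁ a) = E₁' (t a))
    (hc : ∀ a, π' (t a) = r (π a)) (hr : Function.Injective r)
    (h : CovFacts D' E' D₁' E₁' π' (O.map t) (G.map r)) : CovFacts D E D₁ E₁ π O G where
  e k hk := hr (by
    simpa only [Lay.map_out r hD hE, Lay.map_e r hD hE, Out.map_err t kD kE, hc,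
      Lay.map_cov r hD hE] using h.e k hk)
  e₄ := hr (by
    simpa only [Lay.map_out r hD hE, Lay.map_e₄ r hD hE, Out.map_err t kD kE, hc,
      Lay.map_cov r hD hE, Lay.map_μ r hD hE, Lay.map_zo r hD hE, map_add, map_mul] using h.e₄)
  Om := hr (by
    simpa only [Lay.map_out r hD hE, Lay.map_Om r hD hE, Out.map_Om t kD kE, hc,
      Lay.map_P0 r hD hE, Lay.map_ε, map_mul] using h.Om)
  k i := hr (by
    simpa only [Lay.map_out r hD hE, Lay.map_k r hD hE, Out.map_kv t kD kE, hc,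
      Lay.map_kc r hD hE, Lay.map_ε, map_mul, map_pow] using h.k i)
  lapmu := hr (by
    simpa only [Lay.map_out r hD hE, Lay.map_lapmu r hD hE, Out.map_lapmu t kD kE, hc,
      Lay.map_ε, map_mul] using h.lapmu)

theorem bi_back [IsReduced R'] (bi : LayBiStmt) (hD : ∀ i a, r (D i a) = D' i (r a))
    (hE : ∀ a, r (E a) = E' (r a)) (hr : Function.Injective r) (d' : IsDer D') (x' : IsExp D' E')
    (h16 : E (Real.log 16 • 1) = 16) (ok : G.Ok D E) (hε : IsUnit G.ε) (hμ : IsUnit (r (G.μ E)))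
    (hal : IsUnit (r (G.al E))) (lal : G.lal D E * G.al E = D 1 (G.al E))
    (Xe : G.Xe D E * G.al E = G.ε * G.Xi D E) (h : CovFacts D E D₁ E₁ π O G) :
    G.biL D E (G.Om D E) = G.biR D E (G.tot D E fun j => π (O.err D₁ E₁ j)) := by
  obtain ⟨εi, h1⟩ := (hε.map r).exists_right_inv
  obtain ⟨μi, h2⟩ := hμ.exists_right_inv
  obtain ⟨ai, h3⟩ := hal.exists_right_inv
  have := bi R' D' E' (G.map r) εi μi ai (fun k => r (G.tot D E (fun j => π (O.err D₁ E₁ j)) k))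
    d' x' (by simpa only [hE, map_smul, map_one, map_ofNat] using congrArg r h16)
    (ok.map r hD hE) ⟨h1, by rwa [Lay.map_μ r hD hE], by rwa [Lay.map_al r hD hE],
      by rw [Lay.map_al r hD hE, Lay.map_lal r hD hE, ← map_mul, lal, hD],
      by rw [Lay.map_al r hD hE, Lay.map_Xe r hD hE, ← map_mul, Xe, Lay.map_Xi r hD hE, map_mul,
        Lay.map_ε]⟩
    (fun k hk => by rw [Lay.map_e r hD hE, Lay.tot, Lay.elay, h.e k hk, sub_add_cancel])
    (by
      rw [Lay.map_μ r hD hE, Lay.map_e₄ r hD hE, Lay.map_zo r hD hE, ← map_mul, ← map_mul,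
        ← map_add]
      congr 1
      have e1 : G.e D E 3 = G.e₄ D E := rfl
      have e2 : G.out.e D E 3 = G.out.e₄ D E := rfl
      rw [Lay.tot, Lay.elay, e1, e2]
      linear_combination -h.e₄)
  rw [Lay.map_Om r hD hE, Lay.map_biL r hD hE, Lay.map_biR r hD hE] at this
  exact hr this

theorem cov_go (hD : ∀ i a, r (D i a) = D' i (r a)) (hE : ∀ a, r (E a) = E' (r a))
    (hc : ∀ a, π' (t a) = r (π a)) (h : IsCov D E D₁ E₁ π O G)
    (d : ∀ f, D' 0 (π' f) = D' 0 (r (G.μ E)) * π' (D₁' 0 f) ∧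
      D' 1 (π' f) = D' 1 (r (G.μ E)) * π' (D₁' 0 f) + π' (D₁' 1 f))
    (x : ∀ f, π' (E₁' f) = E' (π' f)) : IsCov D' E' D₁' E₁' π' (O.map t) (G.map r) where
  d₀ f := by rw [Lay.map_μ r hD hE, (d f).1]
  d₁ f := by rw [Lay.τ₂, Lay.map_μ r hD hE, (d f).2]
  exp := x
  ε := by rw [Lay.map_ε, Out.map_ε, hc, h.ε]
  μ := by rw [Lay.map_μ r hD hE, Out.map_μ, hc, h.μ]
  la := by rw [Lay.map_la, Out.map_la, hc, h.la]
  bp := by rw [Lay.map_bp, Out.map_bp, hc, h.bp]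
  lc := by rw [Lay.map_lc, Out.map_lc, hc, h.lc]
  uw := by rw [Lay.map_uw, Out.map_u₁, hc, h.uw]
  uo := by rw [Lay.map_uo, Out.map_u₂, hc, h.uo]

theorem biO_back [IsReduced S'] (oh : OutHGStmt) (kD : ∀ i a, t (D₁ i a) = D₁' i (t a))
    (kE : ∀ a, t (E₁ a) = E₁' (t a)) (ht : Function.Injective t) (d' : IsDer D₁')
    (x' : IsExp D₁' E₁') (ok : O.Ok D₁) (hε : IsUnit O.ε) (hμ : IsUnit (t O.μ)) :
    O.ε * O.biL D₁ E₁ (O.Om D₁ E₁) - D₁ 0 (O.Om D₁ E₁) = O.biR D₁ E₁ (O.err D₁ E₁) := by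
  obtain ⟨εi, h1⟩ := (hε.map t).exists_right_inv
  obtain ⟨μi, h2⟩ := hμ.exists_right_inv
  have := (oh _ D₁' E₁' _ εi μi d' x' (ok.map t kD kE) h1 h2).bi
  rw [Out.map_Om t kD kE, Out.map_biL t kD kE, Out.map_err' t kD kE, Out.map_biR t kD kE, ← kD,
    Out.map_ε, ← map_mul, ← map_sub] at this
  exact ht this

theorem cov_all [IsReduced R'] [IsReduced S'] (cv : CovStmt) (hD : ∀ i a, r (D i a) = D' i (r a))
    (hE : ∀ a, r (E a) = E' (r a)) (kD : ∀ i a, t (D₁ i a) = D₁' i (t a))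
    (kE : ∀ a, t (E₁ a) = E₁' (t a)) (hc : ∀ a, π' (t a) = r (π a)) (hr : Function.Injective r)
    (d' : IsDer D') (x' : IsExp D' E') (d₁ : IsDer D₁') (x₁ : IsExp D₁' E₁')
    (h16 : E (Real.log 16 • 1) = 16) (okO : O.Ok D₁) (ok : G.Ok D E) (hε : IsUnit O.ε)
    (hμ : IsUnit (t O.μ)) (ic : IsCov D' E' D₁' E₁' π' (O.map t) (G.map r)) :
    CovFacts D E D₁ E₁ π O G := by
  obtain ⟨εi, h1⟩ := (hε.map t).exists_right_inv
  obtain ⟨μi, h2⟩ := hμ.exists_right_inv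
  exact cov_back hD hE kD kE hc hr (cv _ _ D' E' D₁' E₁' π' _ _ εi μi d' x' d₁ x₁
    (by simpa only [hE, map_smul, map_one, map_ofNat] using congrArg r h16) (okO.map t kD kE)
    (ok.map r hD hE) h1 h2 ic)

theorem al_unit (x : IsExp D E) (ok : G.Ok D E) {σ u : R} (h : σ * G.eh E = u * G.al E)
    (hσ : IsUnit (r σ)) : IsUnit (r (G.al E)) := by
  have ue : IsUnit (G.eh E) := by
    rw [← ok.leh]
    exact unit_of (b := E (-G.leh)) (by rw [← x.add, add_neg_cancel, x.zero])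
  have := hσ.mul (ue.map r)
  rw [← map_mul, h, map_mul] at this
  exact (unit_mul this).2

omit [Algebra ℝ R] in
theorem nzd (C : ∀ {μ τ φ : R} (j : Fin 2), D j μ * τ = 1 → μ * φ = 0 → φ = 0) {μ σ p ε : R}
    (h : D 0 μ * p = ε) (hε : IsUnit ε) (hσ : D 0 σ = 1) (φ : R) (hφ : μ * σ * φ = 0) : φ = 0 := by
  obtain ⟨τ, hτ⟩ := hε.exists_right_inv
  rw [mul_assoc] at hφ
  exact C 0 (τ := 1) (by rw [mul_one, hσ])
    (C 0 (τ := p * τ) (by rw [← mul_assoc, h, hτ]) hφ)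

end Alg

variable {P : Prof} {c : ℝ} (g : P.Geo c) (i : Fin 2)

def FC (l : Filter Z2) : SmF l := ⟨_, crd_mem l 0⟩
noncomputable def FM : SmF (P.lL c i) := ⟨_, (g.pull i).smooth 0⟩

noncomputable def FL : SmF (P.lL c i) := FM g i * FC (P.lL c i)

theorem eC (l : Filter Z2) : mkG l (FC l) = cG l := (gm_eq _).symm
theorem eM : mkG (P.lL c i) (FM g i) =
    gm (P.lL c i) fun ε p => P.Mu i (ε * p 0) (p 1) := (gm_eq _).symm

theorem eL : mkG (P.lL c i) (FL g i) = mkG (P.lL c i) (FM g i) * cG (P.lL c i) := by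
  rw [FL, map_mul, eC]

theorem pl : IsPull (lz (FC P.lO)) (lz (FL g i)) (P.Φ i) := by
  refine ⟨fun a => (pz _).mem ⟨_, (g.pull i).smooth a⟩, tendsto_inf.2
    ⟨(g.pull i).tend.mono_left inf_le_left, tendsto_principal.2 ?_⟩⟩
  filter_upwards [mem_inf_of_right (mem_principal_self _)] with z hz
  exact left_ne_zero_of_mul hz

theorem hc (a : SG P.lO) :
    (pl g i).hom (rs (FC P.lO) a) = rs (FL g i) ((g.pull i).hom a) := by
  obtain ⟨H, rfl⟩ := mkG_surj a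
  rfl

theorem eμ : rs (FL g i) (mkG (P.lL c i) (FM g i)) =
    gm (lz (FL g i)) fun j p => P.Φ i j p 0 := (gm_eq ((pl g i).smooth 0)).symm

end Cid2

open Cid2 in
theorem cid2 (_b1 : B1Stmt) (b2 : B2Stmt) (av : AvgStmt) (_wt : WtStmt) (oh : OutHGStmt)
    (lb : LayBasicStmt) (bi : LayBiStmt) (cv : CovStmt) : Cid2Stmt := by
  intro P c g s m i _ _ h
  have aO : AvgFacts P.lO _ _ := (av.2 _ _ _).1
  have aL : AvgFacts (P.lL c i) _ _ := av.1 c _ _ g.pos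
  have xe : ∀ (l : Filter Z2) [OpF l], IsExp (gD (l := l)) expG := fun l _ => (wr_SG b2 l).isExp
  have uO : IsUnit (s.O i).ε := let ⟨_, h⟩ := aO.eps.2.2.2.2.2.2; unit_of (R := SG P.lO) h
  have uε : IsUnit (s.G m i).ε := h.cov.ε ▸ uO.map _
  have em : mkG (P.lL c i) (FM g i) = (s.G m i).μ expG := (eM g i).trans h.mu.symm
  have iO : Function.Injective (rs (FC P.lO)) := rs_inj _ fun φ hφ =>
    (b2 ℝ 2 P.lO 1 fun _ => zero_le_one).cancel 0 (τ := 1) (by rw [mul_one, eC, aO.crd.2.1]) hφ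
  have iL : Function.Injective (rs (FL g i)) := rs_inj _ fun φ hφ => by
    rw [eL, em] at hφ
    exact nzd (b2 ℝ 2 (P.lL c i) 1 fun _ => zero_le_one).cancel
      (lb _ gD expG (s.G m i) isDer_gD (xe _) aL.e16 h.ok).dμ uε aL.crd.2.1 φ hφ
  have uL := rs_unit (FL g i)
  rw [eL, map_mul, em] at uL
  have uμ : IsUnit (rs (FC P.lO) (s.O i).μ) := by
    have := rs_unit (FC P.lO)
    rwa [eC] at this
  have ch : ∀ f, _ := chain b2 (pl g i) rfl
  rw [← eμ, em] at ch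
  have ic := cov_go (S := SG P.lO) (S' := SG (lz (FC P.lO))) (R := SG (P.lL c i))
    (R' := SG (lz (FL g i))) (rs_D (FL g i)) (rs_E (FL g i)) (hc g i) h.cov ch
    ((b2 ℝ 2 (lz (FC P.lO)) 1 fun _ => zero_le_one).pull (pl g i)).2.1
  have cf := cov_all (S := SG P.lO) (S' := SG (lz (FC P.lO))) (R := SG (P.lL c i))
    (R' := SG (lz (FL g i))) cv (rs_D (FL g i)) (rs_E (FL g i)) (rs_D (FC P.lO)) (rs_E (FC P.lO))
    (hc g i) iL isDer_gD (xe _) isDer_gD (xe _) aL.e16 h.O_ok h.ok uO uμ ic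
  have bo := biO_back (S := SG P.lO) (S' := SG (lz (FC P.lO))) oh (rs_D _) (rs_E _) iO isDer_gD (xe _) h.O_ok uO uμ
  rw [show (s.O i).ε = εG P.lO from rfl] at bo
  have ee : s.er i = fun j => (g.pull i).hom ((s.O i).err gD expG j) :=
    funext fun j => pb_eq (g.pull i) _
  have um := unit_mul (R := SG (lz (FL g i))) uL
  have ua := al_unit (R := SG (P.lL c i)) (R' := SG (lz (FL g i))) (r := rs (FL g i)) (σ := cG _)
    (u := (2 + cG _) * (s.G m i).q expG) (xe _) h.ok h.al um.2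
  have bl := bi_back (S := SG P.lO) (R := SG (P.lL c i)) (R' := SG (lz (FL g i))) bi
    (rs_D (FL g i)) (rs_E (FL g i)) iL isDer_gD (xe _) aL.e16 h.ok uε um.1 ua h.lal h.Xe cf
  rw [← ee] at bl
  exact St.GF2.mk cf bl bo

end Pool.Agent.Lib.MP_df9110_gt
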