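import Pool.Agent.Lib.MP_df9110_gt.NFormS

/-! Covariance of the quantities of a block metric under a change of the first variable. -/

set_option linter.unusedSimpArgs false
set_option linter.unusedSectionVars false

namespace Pool.Agent.Lib.MP_df9110_gt

namespace Cov

section Gen

variable {R S : Type} [CommRing R] [Algebra ℝ R] [CommRing S] [Algebra ℝ S] {ι : Type} [Fintype ι]

/-- Product of matrices. -/
noncomputable def mm (J A : ι → ι → R) (a i : ι) : R := ∑ b, J a b * A b i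

theorem sum2 (f : ι → ι → R) : ∑ a, ∑ b, f a b = ∑ x : ι × ι, f x.1 x.2 := by
  simp only [Fintype.sum_prod_type]

theorem sum4 (f : ι → ι → ι → ι → R) :
    ∑ a, ∑ b, ∑ c, ∑ d, f a b c d = ∑ x : ι × ι × ι × ι, f x.1 x.2.1 x.2.2.1 x.2.2.2 := by
  simp only [Fintype.sum_prod_type]

theorem pull2_comp (J A h : ι → ι → R) : gPull2 A (gPull2 J h) = gPull2 (mm J A) h := by
  funext i j
  have e : ∀ a b, mm J A a i * mm J A b j =
      ∑ x : ι × ι, (J a x.1 * A x.1 i) * (J b x.2 * A x.2 j) := fun a b => by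
    simp only [mm, Fintype.sum_prod_type, Finset.sum_mul_sum]
  simp only [gPull2, e]
  simp only [sum2]
  simp only [Finset.mul_sum, Finset.sum_mul]
  rw [Finset.sum_comm]
  exact Finset.sum_congr rfl fun x _ => Finset.sum_congr rfl fun y _ => by ring

theorem pull4_comp (J A : ι → ι → R) (t : ι → ι → ι → ι → R) :
    gPull4 A (gPull4 J t) = gPull4 (mm J A) t := by
  funext i j k m
  have e : ∀ a b c d, mm J A a i * mm J A b j * mm J A c k * mm J A d m =
      ∑ x : ι × ι × ι × ι, (J a x.1 * A x.1 i) * ((J b x.2.1 * A x.2.1 j) *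
        ((J c x.2.2.1 * A x.2.2.1 k) * (J d x.2.2.2 * A x.2.2.2 m))) := fun a b c d => by
    simp only [mm, Fintype.sum_prod_type, ← Finset.mul_sum, ← Finset.sum_mul]
    ring
  simp only [gPull4, e]
  simp only [sum4]
  simp only [Finset.mul_sum, Finset.sum_mul]
  rw [Finset.sum_comm]
  exact Finset.sum_congr rfl fun x _ => Finset.sum_congr rfl fun y _ => by ring

theorem map_pull2 (π : S →ₐ[ℝ] R) (J h : ι → ι → S) :
    gPull2 (fun a b => π (J a b)) (fun a b => π (h a b)) = fun i j => π (gPull2 J h i j) := by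
  funext i j
  simp only [gPull2, map_sum, map_mul]

theorem map_pull4 (π : S →ₐ[ℝ] R) (J : ι → ι → S) (t : ι → ι → ι → ι → S) :
    gPull4 (fun a b => π (J a b)) (fun a b c d => π (t a b c d)) =
      fun i j k m => π (gPull4 J t i j k m) := by
  funext i j k m
  simp only [gPull4, map_sum, map_mul]

theorem inv_unique [DecidableEq ι] {g G G' : ι → ι → R} (h : IsMet g G) (h' : IsMet g G') :
    G = G' := by
  have h1 : Matrix.of G * Matrix.of g = 1 := by
    ext i j; simpa [Matrix.mul_apply, Matrix.one_apply] using h.inv i j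
  have h2 : Matrix.of G' * Matrix.of g = 1 := by
    ext i j; simpa [Matrix.mul_apply, Matrix.one_apply] using h'.inv i j
  exact Matrix.of.injective (Matrix.left_inv_eq_left_inv h1 h2)

/-- A block matrix. -/
def bm (p s r u : R) : Fin 4 → Fin 4 → R :=
  ![![p, s, 0, 0], ![r, u, 0, 0], ![0, 0, 1, 0], ![0, 0, 0, 1]]

theorem pull2_tab (p s r u a b c d e : R) :
    gPull2 (bm p s r u) (tab2 a b c d e) =
      tab2 (p ^ 2 * a + 2 * p * r * b + r ^ 2 * c) (p * s * a + (p * u + r * s) * b + r * u * c)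
        (s ^ 2 * a + 2 * s * u * b + u ^ 2 * c) d e := by
  funext i j
  fin_cases i <;> fin_cases j <;> simp [gPull2, bm, tab2, Fin.sum_univ_four] <;> ring

theorem pull4_tab (p s r u K a b c a' b' c' e : R) (t : Fin 4 → Fin 4 → Fin 4 → Fin 4 → R)
    (ht : t = gPull4 (bm p s r u) (tab4 K a b c a' b' c' e)) :
    t 0 1 1 0 = (p * u - r * s) ^ 2 * K ∧
    t 0 2 2 0 = p ^ 2 * a + 2 * p * r * b + r ^ 2 * c ∧
    t 0 2 2 1 = p * s * a + (p * u + r * s) * b + r * u * c ∧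
    t 1 2 2 1 = s ^ 2 * a + 2 * s * u * b + u ^ 2 * c ∧
    t 0 3 3 0 = p ^ 2 * a' + 2 * p * r * b' + r ^ 2 * c' ∧
    t 0 3 3 1 = p * s * a' + (p * u + r * s) * b' + r * u * c' ∧
    t 1 3 3 1 = s ^ 2 * a' + 2 * s * u * b' + u ^ 2 * c' ∧ t 2 3 3 2 = e := by
  subst ht
  refine ⟨?_, ?_, ?_, ?_, ?_, ?_, ?_, ?_⟩ <;>
    simp [gPull4, bm, Fin.sum_univ_four] <;> simp [tab4, kn, tab2] <;> ring

theorem tab4_val (K a b c a' b' c' e : R) :
    tab4 K a b c a' b' c' e 0 1 1 0 = K ∧ tab4 K a b c a' b' c' e 0 2 2 0 = a ∧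
    tab4 K a b c a' b' c' e 0 2 2 1 = b ∧ tab4 K a b c a' b' c' e 1 2 2 1 = c ∧
    tab4 K a b c a' b' c' e 0 3 3 0 = a' ∧ tab4 K a b c a' b' c' e 0 3 3 1 = b' ∧
    tab4 K a b c a' b' c' e 1 3 3 1 = c' ∧ tab4 K a b c a' b' c' e 2 3 3 2 = e := by
  simp [tab4, kn, tab2]

theorem map_tab2 (π : S →ₐ[ℝ] R) (a b c d e : S) :
    (fun i j => π (tab2 a b c d e i j)) = tab2 (π a) (π b) (π c) (π d) (π e) := by
  funext i j
  fin_cases i <;> fin_cases j <;> simp [tab2]

theorem map_tab4 (π : S →ₐ[ℝ] R) (K a b c a' b' c' e : S) :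
    (fun i j k m => π (tab4 K a b c a' b' c' e i j k m)) =
      tab4 (π K) (π a) (π b) (π c) (π a') (π b') (π c') (π e) := by
  funext i j k m
  have h := fun a b c d e i j => congrFun (congrFun (map_tab2 π a b c d e) i) j
  simp only [tab4, kn, map_add, map_sub, map_mul, h, map_zero, map_one]

theorem cancel {x y F Fi : R} (hF : F * Fi = 1) (h : x * F = y * F) : x = y := by
  linear_combination Fi * h - (x - y) * hF

end Gen

variable {R S : Type} [CommRing R] [Algebra ℝ R] [CommRing S] [Algebra ℝ S]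
  {D : Fin 2 → R → R} {D' : Fin 2 → S → S} {π : S →ₐ[ℝ] R} {B : Blk R} {B' : Blk S}
  {m mi p r s u : R}

/-- The block metric `B` is the pull-back of `B'`; `T = p T' + r X'`, `X = s T' + u X'`. -/
structure Hyp (D : Fin 2 → R → R) (D' : Fin 2 → S → S) (π : S →ₐ[ℝ] R) (B : Blk R) (B' : Blk S)
    (m mi p r s u : R) : Prop where
  hD : IsDer D
  hD' : IsDer D'
  ok : B.Ok
  ok' : B'.Ok
  d₀ : ∀ f, D 0 (π f) = m * π (D' 0 f)
  d₁ : ∀ f, D 1 (π f) = s * π (D' 0 f) + π (D' 1 f)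
  ds : D 0 s = D 1 m
  hm : m * mi = 1
  hp : p = m + B.β * s
  hr : r = B.β - p * π B'.β
  hu : u = 1 - π B'.β * s
  g11 : B.ai = p ^ 2 * π B'.ai + r ^ 2 * π B'.Ci
  g12 : 0 = p * s * π B'.ai + r * u * π B'.Ci
  g22 : B.Ci = s ^ 2 * π B'.ai + u ^ 2 * π B'.Ci
  F₁ : B.F₁ = π B'.F₁
  F₂ : B.F₂ = π B'.F₂
  f₁ : B.f₁ = p * π B'.f₁ + r * π B'.f₂
  f₂ : B.f₂ = s * π B'.f₁ + u * π B'.f₂

/-- The transformation rules. -/
structure Res (D : Fin 2 → R → R) (D' : Fin 2 → S → S) (π : S →ₐ[ℝ] R) (B : Blk R) (B' : Blk S)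
    (m p r s u : R) : Prop where
  e11 : B.e11 D * B.ai = p ^ 2 * (π (B'.e11 D') * π B'.ai) + 2 * p * r * π (B'.e12 D') +
    r ^ 2 * (π (B'.e22 D') * π B'.Ci)
  e12 : B.e12 D = p * s * (π (B'.e11 D') * π B'.ai) + (p * u + r * s) * π (B'.e12 D') +
    r * u * (π (B'.e22 D') * π B'.Ci)
  e22 : B.e22 D * B.Ci = s ^ 2 * (π (B'.e11 D') * π B'.ai) + 2 * s * u * π (B'.e12 D') +
    u ^ 2 * (π (B'.e22 D') * π B'.Ci)
  e₁ : B.e₁ D = π (B'.e₁ D')
  e₂ : B.e₂ D = π (B'.e₂ D')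
  k0 : B.kv D 0 = π (B'.kv D' 0)
  k1 : B.kv D 1 * B.ai = p ^ 2 * (π (B'.kv D' 1) * π B'.ai) + 2 * p * r * π (B'.kv D' 2) +
    r ^ 2 * (π (B'.kv D' 3) * π B'.Ci)
  k2 : B.kv D 2 = p * s * (π (B'.kv D' 1) * π B'.ai) + (p * u + r * s) * π (B'.kv D' 2) +
    r * u * (π (B'.kv D' 3) * π B'.Ci)
  k3 : B.kv D 3 * B.Ci = s ^ 2 * (π (B'.kv D' 1) * π B'.ai) + 2 * s * u * π (B'.kv D' 2) +
    u ^ 2 * (π (B'.kv D' 3) * π B'.Ci)
  k4 : B.kv D 4 * B.ai = p ^ 2 * (π (B'.kv D' 4) * π B'.ai) + 2 * p * r * π (B'.kv D' 5) +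
    r ^ 2 * (π (B'.kv D' 6) * π B'.Ci)
  k5 : B.kv D 5 = p * s * (π (B'.kv D' 4) * π B'.ai) + (p * u + r * s) * π (B'.kv D' 5) +
    r * u * (π (B'.kv D' 6) * π B'.Ci)
  k6 : B.kv D 6 * B.Ci = s ^ 2 * (π (B'.kv D' 4) * π B'.ai) + 2 * s * u * π (B'.kv D' 5) +
    u ^ 2 * (π (B'.kv D' 6) * π B'.Ci)
  k7 : B.kv D 7 = π (B'.kv D' 7)
  lap : ∀ φ f, B.lap D (π φ * B.T D (π f)) (π φ * D 1 (π f)) =
    π (B'.lap D' (φ * B'.T D' f) (φ * D' 1 f))
  Om : B.Om D = m * π (B'.Om D')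

theorem lap_mul (hD : IsDer D) (B : Blk R) (φ t x : R) :
    B.lap D (φ * t) (φ * x) = φ * B.lap D t x + (B.a * B.T D φ * t + B.C * D 1 φ * x) := by
  simp only [Blk.lap, Blk.H11, Blk.H22, Blk.Xa, Blk.T, hD.mul]
  algebra

namespace Hyp

variable (h : Hyp D D' π B B' m mi p r s u)
include h

theorem det : p * u - r * s = m := by
  rw [h.hr, h.hu, h.hp]; ring

theorem oka : π B'.a * π B'.ai = 1 := by rw [← map_mul, h.ok'.ha, map_one]
theorem okC : π B'.C * π B'.Ci = 1 := by rw [← map_mul, h.ok'.hC, map_one]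

theorem inv : B.a * p ^ 2 + B.C * s ^ 2 = π B'.a ∧ B.a * p * r + B.C * s * u = 0 ∧
    B.a * r ^ 2 + B.C * u ^ 2 = π B'.C := by
  have hd := h.det
  have ha := h.ok.ha
  have hC := h.ok.hC
  have ha' := h.oka
  have hC' := h.okC
  have a1 : u * B.ai = p * π B'.ai * m := by
    linear_combination u * h.g11 - r * h.g12 + p * π B'.ai * hd
  have a2 : s * B.ai = -(r * π B'.Ci * m) := by
    linear_combination s * h.g11 - p * h.g12 - r * π B'.Ci * hd
  have a3 : r * B.Ci = -(s * π B'.ai * m) := by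
    linear_combination r * h.g22 - u * h.g12 - s * π B'.ai * hd
  have a4 : p * B.Ci = u * π B'.Ci * m := by
    linear_combination p * h.g22 - s * h.g12 + u * π B'.Ci * hd
  have b1 : p * B.a * m = u * π B'.a := by
    linear_combination -(B.a * π B'.a) * a1 + u * π B'.a * ha - p * B.a * m * ha'
  have b2 : r * B.a * m = -(s * π B'.C) := by
    linear_combination (B.a * π B'.C) * a2 - s * π B'.C * ha - r * B.a * m * hC'
  have b3 : s * B.C * m = -(r * π B'.a) := by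
    linear_combination (B.C * π B'.a) * a3 - r * π B'.a * hC - s * B.C * m * ha'
  have b4 : u * B.C * m = p * π B'.C := by
    linear_combination -(B.C * π B'.C) * a4 + p * π B'.C * hC - u * B.C * m * hC'
  refine ⟨cancel h.hm ?_, cancel h.hm ?_, cancel h.hm ?_⟩
  · linear_combination p * b1 + s * b3 + π B'.a * hd
  · linear_combination r * b1 + u * b3
  · linear_combination r * b2 + u * b4 + π B'.C * hd

theorem g_eq : gPull2 (bm m s 0 1) (fun a b => π (B'.g a b)) = B.g := by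
  have h1 := h.g11
  have h2 := h.g12
  have h3 := h.g22
  rw [h.hr, h.hu, h.hp] at h2
  rw [h.hr, h.hp] at h1
  rw [h.hu] at h3
  funext i j
  fin_cases i <;> fin_cases j <;> simp [gPull2, bm, Blk.g, Fin.sum_univ_four, h.F₁, h.F₂]
  · linear_combination -h1 + 2 * B.β * h2 - B.β ^ 2 * h3
  · linear_combination -h2 + B.β * h3
  · linear_combination -h2 + B.β * h3
  · linear_combination -h3

theorem V_eq (a : Fin 4) : ∑ i, bm m s 0 1 a i * B.V i = π (B'.V a) := by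
  obtain ⟨i1, i2, i3⟩ := h.inv
  have v1 : p * (B.a * B.f₁) + s * (B.C * B.f₂) = π B'.a * π B'.f₁ := by
    rw [h.f₁, h.f₂]; linear_combination π B'.f₁ * i1 + π B'.f₂ * i2
  have v2 : r * (B.a * B.f₁) + u * (B.C * B.f₂) = π B'.C * π B'.f₂ := by
    rw [h.f₁, h.f₂]; linear_combination π B'.f₁ * i2 + π B'.f₂ * i3
  fin_cases a <;> simp [bm, Blk.V, Fin.sum_univ_four]
  · rw [h.hp] at v1; linear_combination v1
  · rw [h.hr, h.hu] at v2; linear_combination v2 + π B'.β * v1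

theorem fr_eq : mm (bm m s 0 1) B.fr = mm (fun a b => π (B'.fr a b)) (bm p s r u) := by
  funext i j
  fin_cases i <;> fin_cases j <;> simp [mm, bm, Blk.fr, Fin.sum_univ_four]
  · rw [h.hp]; ring
  · rw [h.hr]; ring
  · rw [h.hu]; ring

theorem om : B.Om D = m * π (B'.Om D') := by
  have hD := h.hD
  simp only [Blk.Om, Blk.T, h.f₁, h.f₂, h.hr, h.hu, h.hp, hD.add, hD.mul, hD.sub, hD.one, h.d₀,
    h.d₁, h.ds, map_add, map_sub, map_mul]
  ring

theorem t6f (t6 : T6Stmt) (t : T7Facts D B (gChr (ext4 D) B.g B.G))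
    (t' : T7Facts D' B' (gChr (ext4 D') B'.g B'.G)) :
    T6Facts (ext4 D) (ext4 D') π (bm m s 0 1) (bm mi (-(s * mi)) 0 1) B.g B.G B'.g B'.G := by
  have hD := h.hD
  have key := t6 R S (Fin 4) (ext4 D) (ext4 D') π (bm m s 0 1) (bm mi (-(s * mi)) 0 1) B'.g B'.G
    t.der t'.der
    (fun i f => by fin_cases i <;> simp [ext4, bm, Fin.sum_univ_four, h.d₀, h.d₁])
    (fun a i j => by
      fin_cases a <;> fin_cases i <;> fin_cases j <;> simp [ext4, bm, hD.zero, hD.one, h.ds])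
    (fun a b => by
      fin_cases a <;> fin_cases b <;> simp [bm, Fin.sum_univ_four, h.hm]
      linear_combination -s * h.hm)
    (fun a b => by
      fin_cases a <;> fin_cases b <;> simp [bm, Fin.sum_univ_four]
      · linear_combination h.hm
      · ring) t'.met
  rw [h.g_eq] at key
  rw [inv_unique t.met key.met]
  exact key

theorem res [IsReduced R] [IsReduced S] (t6 : T6Stmt) (t7 : T7Stmt) :
    Res D D' π B B' m p r s u := by
  have t := t7 R D B h.hD h.ok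
  have t' := t7 S D' B' h.hD' h.ok'
  have f := h.t6f t6 t t'
  have hE := t.err
  rw [show gErr (ext4 D) B.g _ B.V = _ from funext₂ (f.err B.V B'.V h.V_eq), pull2_comp, h.fr_eq,
    ← pull2_comp, map_pull2, t'.err, map_tab2, pull2_tab] at hE
  have hR := t.rlow
  rw [show gRlow (ext4 D) B.g _ = _ from funext₂ fun i j => funext₂ (f.rlow i j), pull4_comp,
    h.fr_eq, ← pull4_comp, map_pull4, t'.rlow, map_tab4] at hR
  obtain ⟨r0, r1, r2, r3, r4, r5, r6, r7⟩ := pull4_tab _ _ _ _ _ _ _ _ _ _ _ _ _ hR.symm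
  simp only [tab4_val, map_mul, ← h.F₁, ← h.F₂] at r0 r1 r2 r3 r4 r5 r6 r7
  have e := fun i j => congrFun (congrFun hE i) j
  have e0 := e 0 0
  have e1 := e 0 1
  have e2 := e 1 1
  have e3 := e 2 2
  have e4 := e 3 3
  simp only [tab2, map_mul, ← h.F₁, ← h.F₂, Matrix.cons_val, Matrix.cons_val_zero,
    Matrix.cons_val_one] at e0 e1 e2 e3 e4
  have hF₁ := h.ok.h₁
  have hF₂ := h.ok.h₂
  refine ⟨e0.symm, e1.symm, e2.symm, cancel hF₁ e3.symm, cancel hF₂ e4.symm, ?_,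
    cancel hF₁ ?_, cancel hF₁ ?_, cancel hF₁ ?_, cancel hF₂ ?_, cancel hF₂ ?_, cancel hF₂ ?_,
    cancel hF₁ (cancel hF₂ r7), fun φ g => ?_, h.om⟩
  · have hd : B.ai * B.Ci = (p * u - r * s) ^ 2 * (π B'.ai * π B'.Ci) := by
      rw [h.g11, h.g22]
      linear_combination -(p * s * π B'.ai + r * u * π B'.Ci) * h.g12
    refine cancel ((mul_comm _ _).trans h.ok.ha) (cancel ((mul_comm _ _).trans h.ok.hC) ?_)
    change B.K D * _ * _ = π (B'.K D') * _ * _
    linear_combination r0 - π (B'.K D') * hd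
  · exact r1.trans (by simp only [Blk.kv, Matrix.cons_val]; ring)
  · exact r2.trans (by simp only [Blk.kv, Matrix.cons_val]; ring)
  · exact r3.trans (by simp only [Blk.kv, Matrix.cons_val]; ring)
  · exact r4.trans (by simp only [Blk.kv, Matrix.cons_val]; ring)
  · exact r5.trans (by simp only [Blk.kv, Matrix.cons_val]; ring)
  · exact r6.trans (by simp only [Blk.kv, Matrix.cons_val]; ring)
  · rw [lap_mul h.hD, lap_mul h.hD', ← t.lap, ← t.gam, ← t'.lap, ← t'.gam,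
      f.lap B.V B'.V h.V_eq, f.gam, map_add, map_mul]

end Hyp

end Cov

end Pool.Agent.Lib.MP_df9110_gt
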