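import Pool.Agent.Lib.MP_df9110_gt.NCart
import Pool.Agent.Lib.MP_df9110_gt.Cova

/-! Orthonormal frames of metrics that are locally pulled back from block metrics. -/

set_option linter.unusedSimpArgs false

namespace Pool.Agent.Lib.MP_df9110_gt

namespace CtA

open Filter Topology Cov
open scoped ContDiff

section Alg

def dg (d : Fin 4 → ℝ) (i j : Fin 4) : ℝ := if i = j then d i else 0

theorem pull2_dg (d : Fin 4 → ℝ) (h : Fin 4 → Fin 4 → ℝ) (i j : Fin 4) :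
    gPull2 (dg d) h i j = d i * d j * h i j := by
  simp [gPull2, dg]

theorem pull4_dg (d : Fin 4 → ℝ) (t : Fin 4 → Fin 4 → Fin 4 → Fin 4 → ℝ) (i j k m : Fin 4) :
    gPull4 (dg d) t i j k m = d i * d j * d k * d m * t i j k m := by
  simp [gPull4, dg]

theorem tab2_sc (d : Fin 4 → ℝ) (a b c e f : ℝ) (i j : Fin 4) :
    d i * d j * tab2 a b c e f i j =
      tab2 (d 0 ^ 2 * a) (d 0 * d 1 * b) (d 1 ^ 2 * c) (d 2 ^ 2 * e) (d 3 ^ 2 * f) i j := by
  fin_cases i <;> fin_cases j <;> simp [tab2] <;> (left; ring1)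

theorem tab2_mul (x a b c e f : ℝ) (i j : Fin 4) :
    tab2 (x * a) (x * b) (x * c) (x * e) (x * f) i j = x * tab2 a b c e f i j := by
  fin_cases i <;> fin_cases j <;> simp [tab2]

theorem kn_sc (d : Fin 4 → ℝ) (x : ℝ) {h k h' k' : Fin 4 → Fin 4 → ℝ}
    (e : ∀ i j, h' i j = x * (d i * d j * h i j)) (e' : ∀ i j, d i * d j * k i j = x * k' i j)
    (i j p m : Fin 4) : d i * d j * d p * d m * kn h k i j p m = kn h' k' i j p m := by
  simp only [kn, e]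
  linear_combination d i * d m * h i m * e' j p + d j * d p * h j p * e' i m -
    d i * d p * h i p * e' j m - d j * d m * h j m * e' i p

theorem tab4_sc (d : Fin 4 → ℝ) (K a b c a' b' c' r : ℝ) (i j p m : Fin 4) :
    d i * d j * d p * d m * tab4 K a b c a' b' c' r i j p m =
      tab4 (d 1 ^ 2 * (d 0 ^ 2 * K)) (d 2 ^ 2 * (d 0 ^ 2 * a)) (d 2 ^ 2 * (d 0 * d 1 * b))
        (d 2 ^ 2 * (d 1 ^ 2 * c)) (d 3 ^ 2 * (d 0 ^ 2 * a')) (d 3 ^ 2 * (d 0 * d 1 * b'))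
        (d 3 ^ 2 * (d 1 ^ 2 * c')) (d 3 ^ 2 * (d 2 ^ 2 * r)) i j p m := by
  simp only [tab4, mul_add]
  congr 1
  congr 1
  · refine kn_sc d (d 1 ^ 2) (fun i j => ?_) (fun i j => ?_) i j p m
    · rw [tab2_sc, ← tab2_mul]; simp
    · rw [tab2_sc, ← tab2_mul]; simp
  · refine kn_sc d (d 2 ^ 2) (fun i j => ?_) (fun i j => ?_) i j p m
    · rw [tab2_sc, ← tab2_mul]; simp
    · rw [tab2_sc, ← tab2_mul]; simp
  · refine kn_sc d (d 3 ^ 2) (fun i j => ?_) (fun i j => ?_) i j p m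
    · rw [tab2_sc, ← tab2_mul]; simp
    · rw [tab2_sc, ← tab2_mul]; simp

theorem tr_pull (e : Fin 4 → Fin 4 → ℝ) (t : Fin 4 → Fin 4 → Fin 4 → Fin 4 → ℝ) (a b : Fin 4) :
    gPull2 e (fun a b => ∑ c, ∑ d, (∑ m, e c m * e d m) * t c a b d) a b =
      ∑ m, gPull4 e t m a b m := by
  simp only [gPull2, gPull4, Finset.mul_sum, Finset.sum_mul]
  symm
  rw [Finset.sum_comm]
  conv_lhs => enter [2, c]; rw [Finset.sum_comm]
  rw [Finset.sum_comm]
  refine Finset.sum_congr rfl fun i _ => ?_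
  conv_lhs => enter [2, c]; rw [Finset.sum_comm]
  rw [Finset.sum_comm]
  refine Finset.sum_congr rfl fun j _ => Finset.sum_congr rfl fun c _ => ?_
  rw [Finset.sum_comm]
  exact Finset.sum_congr rfl fun d _ => Finset.sum_congr rfl fun m _ => by ring

theorem tr_rlON (k : Fin 8 → ℝ) (a b : Fin 4) : ∑ m, rlON k m a b m = ricON k a b := by
  fin_cases a <;> fin_cases b <;> simp [rlON, ricON, tab4, kn, tab2, Fin.sum_univ_four]

theorem pull2_mat (e h : Fin 4 → Fin 4 → ℝ) :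
    Matrix.of (gPull2 e h) = (Matrix.of e).transpose * Matrix.of h * Matrix.of e := by
  ext i j
  simp only [gPull2, Matrix.of_apply, Matrix.mul_apply, Matrix.transpose_apply, Finset.sum_mul]
  rw [Finset.sum_comm]
  exact Finset.sum_congr rfl fun _ _ => Finset.sum_congr rfl fun _ _ => by ring

theorem det_pull2 (e h : Fin 4 → Fin 4 → ℝ) :
    (Matrix.of (gPull2 e h)).det = (Matrix.of e).det ^ 2 * (Matrix.of h).det := by
  rw [pull2_mat, Matrix.det_mul, Matrix.det_mul, Matrix.det_transpose]; ring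

theorem idM_mat : Matrix.of idM = 1 := by
  ext i j; simp [idM, Matrix.one_apply]

theorem inv_of_frame {e : Fin 4 → Fin 4 → ℝ} {g : Mat} (h : gPull2 e g = idM) :
    (Matrix.of e).det ≠ 0 ∧ ∀ c d, g⁻¹ c d = ∑ m, e c m * e d m := by
  have h1 : (Matrix.of e).transpose * g * Matrix.of e = 1 := by
    rw [← idM_mat, ← h, pull2_mat]; rfl
  have h2 : Matrix.of e * ((Matrix.of e).transpose * g) = 1 := mul_eq_one_comm.1 h1
  refine ⟨fun h0 => ?_, fun c d => ?_⟩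
  · have := congrArg Matrix.det h2
    simp [Matrix.det_mul, h0] at this
  · rw [Matrix.inv_eq_left_inv ((Matrix.mul_assoc _ _ _).trans h2)]
    simp [Matrix.mul_apply]

theorem pull_g {R : Type} [CommRing R] [Algebra ℝ R] (B : Blk R) :
    gPull2 B.fr B.g = tab2 B.ai 0 B.Ci B.F₁ B.F₂ := by
  funext i j
  fin_cases i <;> fin_cases j <;> simp [gPull2, Blk.fr, Blk.g, tab2, Fin.sum_univ_four]
  ring

theorem det_g (B : Blk ℝ) : (Matrix.of B.g).det = B.ai * B.Ci * (B.F₁ * B.F₂) := by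
  simp [Matrix.det_succ_row_zero, Fin.sum_univ_succ, Fin.succAbove, Blk.g]
  ring

/-- The frame, pointwise. -/
theorem frame {B : Blk ℝ} (ok : B.Ok) (ha : 0 < B.a) (hC : 0 < B.C) (h₁ : 0 < B.F₁)
    (h₂ : 0 < B.F₂) {J K : Fin 4 → Fin 4 → ℝ} (hJ : mm J K = dg 1) {g : Mat}
    {E E' Rc : Fin 4 → Fin 4 → ℝ} {R R' : Fin 4 → Fin 4 → Fin 4 → Fin 4 → ℝ}
    {k : Fin 8 → ℝ} {e11 e12 e22 e₁ e₂ : ℝ} (hg : g = gPull2 J B.g) (hE : E = gPull2 J E')
    (hR : R = gPull4 J R') (hc : Rc = fun a b => ∑ c, ∑ d, g⁻¹ c d * R c a b d)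
    (hE' : gPull2 B.fr E' = tab2 (e11 * B.ai) e12 (e22 * B.Ci) (e₁ * B.F₁) (e₂ * B.F₂))
    (hR' : gPull4 B.fr R' = tab4 (k 0 * B.ai * B.Ci) (k 1 * B.ai * B.F₁) (k 2 * B.F₁)
      (k 3 * B.Ci * B.F₁) (k 4 * B.ai * B.F₂) (k 5 * B.F₂) (k 6 * B.Ci * B.F₂)
      (k 7 * B.F₁ * B.F₂)) {k' : Fin 8 → ℝ}
    (hk : ∀ j, k' j = if j = 2 ∨ j = 5 then √(B.a * B.C) * k j else k j) :
    ∃ e : Fin 4 → Fin 4 → ℝ, (Matrix.of e).det ≠ 0 ∧ gPull2 e g = idM ∧
      gPull2 e Rc = ricON k' ∧ gPull4 e R = rlON k' ∧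
      gPull2 e E = tab2 e11 (√(B.a * B.C) * e12) e22 e₁ e₂ := by
  obtain ⟨d, d0, d1, d2, d3, d01⟩ : ∃ d : Fin 4 → ℝ, d 0 ^ 2 * B.ai = 1 ∧ d 1 ^ 2 * B.Ci = 1 ∧
      d 2 ^ 2 * B.F₁ = 1 ∧ d 3 ^ 2 * B.F₂ = 1 ∧ d 0 * d 1 = √(B.a * B.C) := by
    refine ⟨![√B.a, √B.C, (√B.F₁)⁻¹, (√B.F₂)⁻¹], ?_⟩
    simp [Real.sq_sqrt, ha.le, hC.le, h₁.le, h₂.le, ok.ha, ok.hC, h₁.ne', h₂.ne']
  have hm : mm J (mm K (mm B.fr (dg d))) = mm B.fr (dg d) := by
    have : ∀ A : Fin 4 → Fin 4 → ℝ, mm J (mm K A) = mm (mm J K) A := fun A => by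
      funext a i
      simp only [mm, Finset.mul_sum, Finset.sum_mul, mul_assoc]
      exact Finset.sum_comm
    rw [this, hJ]
    funext a i
    simp [mm, dg]
  have p2 : ∀ h, gPull2 (mm K (mm B.fr (dg d))) (gPull2 J h) =
      fun i j => d i * d j * gPull2 B.fr h i j := fun h => by
    rw [pull2_comp, hm, ← pull2_comp]; exact funext₂ (pull2_dg d _)
  have e1 : gPull2 (mm K (mm B.fr (dg d))) g = idM := by
    rw [hg, p2, pull_g]
    funext i j
    rw [tab2_sc, d0, d1, d2, d3]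
    fin_cases i <;> fin_cases j <;> simp [tab2, idM]
  have e2 : gPull4 (mm K (mm B.fr (dg d))) R = rlON k' := by
    rw [hR, pull4_comp, hm, ← pull4_comp, hR']
    funext i j p m
    rw [pull4_dg, tab4_sc, rlON, d01]
    simp only [hk]
    congr 1 <;> simp
    · linear_combination k 0 * d 1 ^ 2 * B.Ci * d0 + k 0 * d1
    · linear_combination k 1 * d 2 ^ 2 * B.F₁ * d0 + k 1 * d2
    · linear_combination √(B.a * B.C) * k 2 * d2
    · linear_combination k 3 * d 2 ^ 2 * B.F₁ * d1 + k 3 * d2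
    · linear_combination k 4 * d 3 ^ 2 * B.F₂ * d0 + k 4 * d3
    · linear_combination √(B.a * B.C) * k 5 * d3
    · linear_combination k 6 * d 3 ^ 2 * B.F₂ * d1 + k 6 * d3
    · linear_combination k 7 * d 3 ^ 2 * B.F₂ * d2 + k 7 * d3
  obtain ⟨e3, e4⟩ := inv_of_frame e1
  refine ⟨_, e3, e1, ?_, e2, ?_⟩
  · funext a b
    simp only [hc, e4]
    rw [tr_pull, e2, tr_rlON]
  · rw [hE, p2, hE']
    funext i j
    rw [tab2_sc, d01]
    congr 1
    · linear_combination e11 * d0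
    · linear_combination e22 * d1
    · linear_combination e₁ * d2
    · linear_combination e₂ * d3

end Alg

section Germ

variable {n : ℕ}

/-- Germs at a point. -/
def lp (y : En n) : Filter (Unit × En n) := map (fun q => ((), q)) (𝓝 y)

theorem ev_lp {y : En n} {P : Unit × En n → Prop} :
    (∀ᶠ z in lp y, P z) ↔ ∀ᶠ q in 𝓝 y, P ((), q) := eventually_map

instance (y : En n) : OpF (lp y) := ⟨fun h => ev_lp.2 (ev_lp.1 h).eventually_nhds⟩

noncomputable def rw' (y : En n) : SmF (lp y) →ₐ[ℝ] (En n → ℝ) :=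
  (Pi.evalAlgHom ℝ (fun _ => En n → ℝ) ()).comp (SmF (lp y)).val

theorem rw_D (y : En n) (j : Fin n) (F : SmF (lp y)) :
    rw' y (sfD _ j F) = pdn j (rw' y F) := rfl

noncomputable def at' (x : En n) : (En n → ℝ) →ₐ[ℝ] ℝ := Pi.evalAlgHom ℝ (fun _ => ℝ) x

noncomputable def evG (y : En n) : SG (lp y) →ₐ[ℝ] ℝ :=
  Ideal.Quotient.liftₐ (nullF _) ((at' y).comp (rw' y)) fun _ hF => (ev_lp.1 hF).self_of_nhds

theorem evG_mk (y : En n) (F : SmF (lp y)) : evG y (mkG _ F) = rw' y F y := rfl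

theorem mk_eq {y : En n} {F G : SmF (lp y)} :
    mkG _ F = mkG _ G ↔ ∀ᶠ x in 𝓝 y, rw' y F x = rw' y G x := mkG_eq.trans ev_lp

def lf {y : En n} (f : En n → ℝ) (h : ∀ᶠ x in 𝓝 y, ContDiffAt ℝ ∞ f x) : SmF (lp y) :=
  ⟨fun _ => f, ev_lp.2 h⟩

theorem lift {y : En n} (F : SmF (lp y)) {f : En n → ℝ} (h : ∀ᶠ x in 𝓝 y, f x = rw' y F x) :
    ∃ F' : SmF (lp y), rw' y F' = f ∧ mkG _ F' = mkG _ F := by
  refine ⟨lf f ?_, rfl, mk_eq.2 h⟩
  filter_upwards [ev_lp.1 F.2, h.eventually_nhds] with x h1 h2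
  exact h1.congr_of_eventuallyEq h2

theorem unit {y : En n} (φ : SG (lp y)) (h : evG y φ ≠ 0) : ∃ ψ, φ * ψ = 1 := by
  obtain ⟨F, rfl⟩ := mkG_surj φ
  have hc : ContinuousAt (rw' y F) y := (ev_lp.1 F.2).self_of_nhds.continuousAt
  have h0 := hc.eventually_ne h
  refine ⟨mkG _ (lf (fun x => (rw' y F x)⁻¹) ?_), ?_⟩
  · filter_upwards [ev_lp.1 F.2, h0] with x h1 h2 using h1.inv h2
  · rw [← map_mul, ← map_one (mkG _), mk_eq]
    filter_upwards [h0] with x hx using mul_inv_cancel₀ hx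

end Germ

section Core

variable {R S : Type} [CommRing R] [Algebra ℝ R] [CommRing S] [Algebra ℝ S]

theorem inv_ex (ev : R →ₐ[ℝ] ℝ) (hu : ∀ φ, ev φ ≠ 0 → ∃ ψ, φ * ψ = 1) (J : Fin 4 → Fin 4 → R)
    (hd : (Matrix.of fun a i => ev (J a i)).det ≠ 0) : ∃ K : Fin 4 → Fin 4 → R,
      (∀ a b, ∑ i, J a i * K i b = if a = b then 1 else 0) ∧
      ∀ i j, ∑ a, K i a * J a j = if i = j then 1 else 0 := by
  obtain ⟨ψ, h⟩ := hu (Matrix.of J).det (by rw [AlgHom.map_det]; exact hd)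
  have h' := IsUnit.of_mul_eq_one ψ h
  refine ⟨fun a b => (Matrix.of J)⁻¹ a b, fun a b => ?_, fun a b => ?_⟩
  · simpa [Matrix.mul_apply, Matrix.one_apply] using
      congrFun₂ ((Matrix.of J).mul_nonsing_inv h') a b
  · simpa [Matrix.mul_apply, Matrix.one_apply] using
      congrFun₂ ((Matrix.of J).nonsing_inv_mul h') a b

theorem core [IsReduced S] (t1 : T1Stmt) (t6 : T6Stmt) (t7 : T7Stmt) {D : Fin 4 → R → R}
    {D' : Fin 2 → S → S} (π : S →ₐ[ℝ] R) (ev : R →ₐ[ℝ] ℝ) (ev' : S →ₐ[ℝ] ℝ)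
    (hev : ∀ φ, ev (π φ) = ev' φ) {J K g : Fin 4 → Fin 4 → R} {B : Blk S} (hD : IsDer D)
    (hD' : IsDer D') (ok : B.Ok) (ch : ∀ i f, D i (π f) = J 0 i * π (D' 0 f) + J 1 i * π (D' 1 f))
    (cl : ∀ a i j, D i (J a j) = D j (J a i))
    (i1 : ∀ a b, ∑ i, J a i * K i b = if a = b then 1 else 0)
    (i2 : ∀ i j, ∑ a, K i a * J a j = if i = j then 1 else 0)
    (hg : ∀ i j, g i j = gPull2 J (fun a b => π (B.g a b)) i j) (ha : 0 < ev' B.a)
    (hC : 0 < ev' B.C) (h₁ : 0 < ev' B.F₁) (h₂ : 0 < ev' B.F₂) {k' : Fin 8 → ℝ}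
    (hk : ∀ j, k' j = if j = 2 ∨ j = 5 then √(ev' B.a * ev' B.C) * ev' (B.kv D' j)
      else ev' (B.kv D' j)) :
    ∃ G, IsMet g G ∧ ∀ V : Fin 4 → R, (∀ a, ∑ i, J a i * V i = π (B.V a)) →
      (∃ e : Fin 4 → Fin 4 → ℝ, (Matrix.of e).det ≠ 0 ∧ gPull2 e (fun a b => ev (g a b)) = idM ∧
        gPull2 e (fun a b => ev (gRic D (gChr D g G) a b)) = ricON k' ∧
        gPull4 e (fun a b c d => ev (gRlow D g (gChr D g G) a b c d)) = rlON k' ∧
        gPull2 e (fun a b => ev (gErr D g (gChr D g G) V a b)) = tab2 (ev' (B.e11 D'))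
          (√(ev' B.a * ev' B.C) * ev' (B.e12 D')) (ev' (B.e22 D')) (ev' (B.e₁ D'))
          (ev' (B.e₂ D'))) ∧
      ev (gTr G (gRic D (gChr D g G))) = ev' (B.scal D') ∧
      ∀ f, ev (gLapV D G (gChr D g G) V (π f)) = ev' (B.lap D' (B.T D' f) (D' 1 f)) := by
  obtain rfl := funext₂ hg
  have T7 := t7 S D' B hD' ok
  have T6 := t6 R S _ D (ext4 D') π J K _ _ hD T7.der
    (fun i f => by simp [ch, Fin.sum_univ_four, ext4]) cl i1 i2 T7.met
  refine ⟨_, T6.met, fun V hV => ⟨?_, by rw [T6.scal, T7.scal, hev],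
    fun f => by rw [T6.lap V _ hV, T7.lap, hev]⟩⟩
  have gf : (B.map ev').g = fun a b => ev' (B.g a b) := funext₂ fun a b => by
    fin_cases a <;> fin_cases b <;> simp [Blk.g]
  have ff : (B.map ev').fr = fun a b => ev' (B.fr a b) := funext₂ fun a b => by
    fin_cases a <;> fin_cases b <;> simp [Blk.fr]
  refine frame (B := B.map ev') (ok.map ev') ha hC h₁ h₂ (J := fun a i => ev (J a i))
    (K := fun a i => ev (K a i)) ?_ ?_
    (E' := fun a b => ev' (gErr (ext4 D') B.g (gChr (ext4 D') B.g B.G) B.V a b)) ?_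
    (R' := fun a b c d => ev' (gRlow (ext4 D') B.g (gChr (ext4 D') B.g B.G) a b c d)) ?_ ?_ ?_
    (k := fun j => ev' (B.kv D' j)) ?_ hk
  · funext a b
    simpa [mm, dg, apply_ite ev] using congrArg ev (i1 a b)
  · rw [gf, ← map_pull2]
    simp only [hev]
  · simp only [T6.err V _ hV]
    rw [← map_pull2]
    simp only [hev]
  · simp only [T6.rlow]
    rw [← map_pull4]
    simp only [hev]
  · funext a b
    rw [(t1 R _ D _ _ hD T6.met).ric_low, Matrix.inv_eq_left_inv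
      (B := Matrix.of fun i j => ev (∑ a, ∑ b, K i a * K j b * π (B.G a b)))]
    · simp only [map_sum ev, map_mul ev, Matrix.of_apply]
    · ext i j
      have := congrArg ev (T6.met.inv i j)
      rw [map_sum ev] at this
      simpa only [Matrix.mul_apply, Matrix.one_apply, apply_ite ev, map_mul ev, map_one, map_zero,
        Matrix.of_apply] using this
  · rw [ff, map_pull2, T7.err, map_tab2]
    simp only [map_mul, Blk.map]
  · rw [ff, map_pull4, T7.rlow, map_tab4]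
    simp only [map_mul, Blk.map]
    rfl

end Core

end CtA

end Pool.Agent.Lib.MP_df9110_gt
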