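import Pool.Agent.Lib.MP_df9110_gt.NLin

-- part Pool.Agent.Lib.MP_df9110_gt.Apr
section

/-! A priori estimates for systems. -/

namespace Pool.Agent.Lib.MP_df9110_gt

open Filter Topology MeasureTheory
open scoped ContDiff

namespace Apr

theorem cc_sum (l0 : L0Facts) {κ : Type} (s : Finset κ) (f : κ → Pt → ℝ) (h : ∀ i, CC (f i)) :
    CC (∑ i ∈ s, f i) := by
  classical
  induction s using Finset.induction_on with
  | empty => exact ⟨contDiff_const, HasCompactSupport.zero⟩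
  | insert a s ha ih => rw [Finset.sum_insert ha]; exact l0.cc_add (h a) ih

theorem cc_smul (l0 : L0Facts) (c : ℝ) {u : Pt → ℝ} (hu : CC u) : CC (c • u) :=
  l0.cc_mul (f := fun _ => c) contDiff_const hu

theorem sm_of {m : ℝ} {f : Pt → ℝ} (h : IsSym m f) : ContDiff ℝ ∞ f :=
  contDiff_iff_contDiffAt.2 fun y => h.1 y (Set.mem_univ y)

theorem cc_L (l0 : L0Facts) {a : Fin 4 → Fin 4 → Pt → ℝ} (ha : ∀ i j, IsSym 0 (a i j)) (lam : ℝ)
    {u : Pt → ℝ} (hu : CC u) : CC (Lsc a lam u) := by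
  have e : Lsc a lam u = (∑ i, ∑ j, a i j * pd i (pd j u)) +
      (1 / 2 : ℝ) • (∑ i, (fun y : Pt => y i) * pd i u) + (-lam) • u := by
    funext y
    simp only [Lsc, Pi.add_apply, Finset.sum_apply, Pi.mul_apply, Pi.smul_apply, smul_eq_mul]
    ring
  rw [e]
  refine l0.cc_add (l0.cc_add (cc_sum l0 _ _ fun i => cc_sum l0 _ _ fun j =>
    l0.cc_mul (sm_of (ha i j)) (l0.cc_pd (l0.cc_pd hu j) i)) (cc_smul l0 _ (cc_sum l0 _ _ fun i =>
    l0.cc_mul (contDiff_apply ℝ ℝ i) (l0.cc_pd hu i)))) (cc_smul l0 _ hu)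

theorem int_sq (l0 : L0Facts) (γ : ℝ) {u : Pt → ℝ} (hu : CC u) :
    Integrable fun y => (wt γ y * u y) ^ 2 := by
  have h := l0.cc_mul (sm_of (l0.wt_sym γ)) hu
  have h2 := l0.cc_mul h.1 h
  have h3 := h2.1.continuous.integrable_of_hasCompactSupport (μ := volume) h2.2
  refine h3.congr (Eventually.of_forall fun y => ?_)
  simp only [Pi.mul_apply, sq]

theorem nn_sq (γ : ℝ) (u : Pt → ℝ) : nn 0 γ u ^ 2 = ∫ y, (wt γ y * u y) ^ 2 :=
  Real.sq_sqrt (integral_nonneg fun _ => sq_nonneg _)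

theorem interp_one (l0 : L0Facts) {δ η : ℝ} (hδ : |δ| ≤ 1) (hη : 0 < η) {u : Pt → ℝ} (hu : CC u)
    (i : Fin 4) : nn 0 (δ - 3) (pd i u) ≤
      2 * η * nn 0 (δ - 2) (pd i (pd i u)) + (8 + 1 / η) * nn 0 (δ - 4) u := by
  have hv := l0.cc_pd hu i
  have hvv := l0.cc_pd hv i
  have hw := sm_of (l0.wt_sym (2 * δ - 6))
  have h1 := l0.ibp (f := wt (2 * δ - 6) * pd i u) (hw.mul hv.1) hu i
  have e1 : ∀ y, (wt (2 * δ - 6) * pd i u) y * pd i u y = (wt (δ - 3) y * pd i u y) ^ 2 := by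
    intro y
    rw [show 2 * δ - 6 = δ - 3 + (δ - 3) by ring, Pi.mul_apply, l0.wt_add]
    ring
  have e2 : ∀ y, -(pd i (wt (2 * δ - 6) * pd i u) y * u y) ≤
      η ^ 2 * (wt (δ - 2) y * pd i (pd i u) y) ^ 2 + 1 / 2 * (wt (δ - 3) y * pd i u y) ^ 2 +
        (32 + 1 / (4 * η ^ 2)) * (wt (δ - 4) y * u y) ^ 2 := by
    intro y
    have d1 : pd i (wt (2 * δ - 6) * pd i u) y =
        wt (2 * δ - 6) y * pd i (pd i u) y + pd i (wt (2 * δ - 6)) y * pd i u y :=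
      pdn_mul (hw.differentiable (by simp) y) (hv.1.differentiable (by simp) y) i
    have w1 : wt (2 * δ - 6) y = wt (δ - 2) y * wt (δ - 4) y := by
      rw [← l0.wt_add]; congr 1; ring
    have w2 : wt (2 * δ - 6 - 2) y = wt (-1) y * (wt (δ - 3) y * wt (δ - 4) y) := by
      rw [← l0.wt_add, ← l0.wt_add]; congr 1; ring
    have w3 : |y i| ≤ 1 * wt 1 y := l0.coord i 0 y (Set.mem_univ y)
    have w4 : wt 1 y * wt (-1) y = 1 := by rw [← l0.wt_add, add_neg_cancel, l0.wt_zero]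
    have w5 : |(2 * δ - 6) * y i * wt (-1) y| ≤ 8 := by
      have hp := l0.wt_pos (-1) y
      have g1 : |2 * δ - 6| ≤ 8 := by
        rw [abs_le] at hδ ⊢
        constructor <;> linarith [hδ.1, hδ.2]
      have g2 : |y i| * wt (-1) y ≤ 1 := by
        have := mul_le_mul_of_nonneg_right w3 hp.le
        linarith
      rw [mul_assoc, abs_mul, abs_mul, abs_of_pos hp]
      nlinarith [abs_nonneg (2 * δ - 6), mul_nonneg (abs_nonneg (y i)) hp.le]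
    rw [d1, l0.wt_pd, w1, w2]
    set P := wt (δ - 2) y * pd i (pd i u) y
    set Z := wt (δ - 4) y * u y
    set X := wt (δ - 3) y * pd i u y
    set c := (2 * δ - 6) * y i * wt (-1) y
    have g3 : -((wt (δ - 2) y * wt (δ - 4) y * pd i (pd i u) y + (2 * δ - 6) * y i *
        (wt (-1) y * (wt (δ - 3) y * wt (δ - 4) y)) * pd i u y) * u y) = -(P * Z) - c * X * Z := by
      simp only [P, Z, X, c]; ring
    rw [g3]
    have g4 : -(P * Z) ≤ η ^ 2 * P ^ 2 + 1 / (4 * η ^ 2) * Z ^ 2 := by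
      have : 0 ≤ (η * P + 1 / (2 * η) * Z) ^ 2 := sq_nonneg _
      have e : (η * P + 1 / (2 * η) * Z) ^ 2 =
          η ^ 2 * P ^ 2 + P * Z + 1 / (4 * η ^ 2) * Z ^ 2 := by
        field_simp
        ring
      linarith
    have g5 : c ^ 2 ≤ 64 := by
      have := pow_le_pow_left₀ (abs_nonneg _) w5 2
      rw [sq_abs] at this
      linarith
    nlinarith [sq_nonneg (X + c * Z), mul_le_mul_of_nonneg_right g5 (sq_nonneg Z)]
  have i1 := int_sq l0 (δ - 2) hvv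
  have i2 := int_sq l0 (δ - 3) hv
  have i3 := int_sq l0 (δ - 4) hu
  have i0 : Integrable fun y => -(pd i (wt (2 * δ - 6) * pd i u) y * u y) := by
    have h := l0.cc_mul (l0.cc_pd (l0.cc_mul hw hv) i).1 hu
    exact (h.1.continuous.integrable_of_hasCompactSupport h.2).neg
  have i4 : Integrable fun y => η ^ 2 * (wt (δ - 2) y * pd i (pd i u) y) ^ 2 +
      1 / 2 * (wt (δ - 3) y * pd i u y) ^ 2 := (i1.const_mul _).add (i2.const_mul _)
  have h2 := integral_mono i0 (i4.add (i3.const_mul _)) e2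
  simp only [Pi.add_apply] at h2
  rw [integral_neg, ← h1, integral_add i4 (i3.const_mul _),
    integral_add (i1.const_mul _) (i2.const_mul _), integral_const_mul, integral_const_mul,
    integral_const_mul] at h2
  simp only [e1, ← nn_sq] at h2
  have p1 := l0.nn_nonneg 0 (δ - 2) (pd i (pd i u))
  have p2 := l0.nn_nonneg 0 (δ - 4) u
  refine le_of_sq_le_sq ?_ (by positivity)
  set P := nn 0 (δ - 2) (pd i (pd i u))
  set Z := nn 0 (δ - 4) u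
  have e3 : (2 * η * P + (8 + 1 / η) * Z) ^ 2 = 4 * (η ^ 2 * P ^ 2) + 64 * Z ^ 2 +
      4 * (1 / (4 * η ^ 2) * Z ^ 2) + (4 * η * (8 + 1 / η) * (P * Z) + 16 / η * Z ^ 2) := by
    field_simp
    ring
  have p3 : 0 ≤ 4 * η * (8 + 1 / η) * (P * Z) + 16 / η * Z ^ 2 := by positivity
  have p4 : 0 ≤ η ^ 2 * P ^ 2 := by positivity
  have p5 : 0 ≤ 1 / (4 * η ^ 2) * Z ^ 2 := by positivity
  rw [e3]
  nlinarith

theorem interp (l0 : L0Facts) {δ η : ℝ} (hδ : |δ| ≤ 1) (hη : 0 < η) {u : Pt → ℝ} (hu : CC u) :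
    nn 1 (δ - 3) u ≤ 2 * η * nn 2 (δ - 2) u + 4 * (8 + 1 / η) * nn 0 (δ - 4) u := by
  have h1 : nn 1 (δ - 3) u = ∑ i, nn 0 (δ - 3) (pd i u) := rfl
  have h2 : nn 2 (δ - 2) u = ∑ i, nn 1 (δ - 2) (pd i u) := rfl
  rw [h1, h2, Finset.mul_sum]
  have h3 : ∀ i, nn 0 (δ - 3) (pd i u) ≤
      2 * η * nn 1 (δ - 2) (pd i u) + (8 + 1 / η) * nn 0 (δ - 4) u := fun i => by
    have := mul_le_mul_of_nonneg_left (l0.nn_succ 0 (δ - 2) (l0.cc_pd hu i) i)
      (show 0 ≤ 2 * η by positivity)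
    linarith [interp_one l0 hδ hη hu i]
  refine (Finset.sum_le_sum fun i _ => h3 i).trans (le_of_eq ?_)
  rw [Finset.sum_add_distrib]
  simp only [Finset.sum_const, Finset.card_univ, Fintype.card_fin, nsmul_eq_mul]
  push_cast
  ring

section Sys

variable {ι : Type} [Fintype ι]

theorem nV_nonneg (l0 : L0Facts) (k : ℕ) (γ : ℝ) (u : ι → Pt → ℝ) : 0 ≤ nV k γ u :=
  Finset.sum_nonneg fun α _ => l0.nn_nonneg k γ (u α)

theorem nV_mono (l0 : L0Facts) (k : ℕ) {γ γ' : ℝ} {u : ι → Pt → ℝ} (hu : ∀ α, CC (u α))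
    (h : γ ≤ γ') : nV k γ u ≤ nV k γ' u :=
  Finset.sum_le_sum fun α _ => l0.nn_mono k (hu α) h

theorem NV_eq (s : ℕ) (δ : ℝ) (u : ι → Pt → ℝ) :
    NV s δ u = ∑ k ∈ Finset.range (s + 1), nV k (δ - 2 + k) u := by
  unfold NV Yn nV
  rw [Finset.sum_comm]
  refine Finset.sum_congr rfl fun k hk => ?_
  rw [min_eq_left (Nat.lt_succ_iff.1 (Finset.mem_range.1 hk))]

theorem XV_eq (s : ℕ) (δ : ℝ) (u : ι → Pt → ℝ) :
    XV s δ u = NV s δ u + nV (s + 1) (δ - 2 + s) u + nV (s + 2) (δ - 2 + s) u := by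
  unfold XV NV Yn nV
  rw [← Finset.sum_add_distrib, ← Finset.sum_add_distrib]
  refine Finset.sum_congr rfl fun α _ => ?_
  rw [Finset.sum_range_succ, Finset.sum_range_succ, min_eq_right (Nat.le_succ s),
    min_eq_right (Nat.le_add_right s 2)]

theorem NV_succ (s : ℕ) (δ : ℝ) (u : ι → Pt → ℝ) :
    NV (s + 1) δ u = NV s δ u + nV (s + 1) (δ - 2 + (s + 1 : ℕ)) u := by
  rw [NV_eq, NV_eq, Finset.sum_range_succ]

theorem NV_nonneg (l0 : L0Facts) (s : ℕ) (δ : ℝ) (u : ι → Pt → ℝ) : 0 ≤ NV s δ u := by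
  rw [NV_eq]; exact Finset.sum_nonneg fun k _ => nV_nonneg l0 _ _ _

theorem XV_nonneg (l0 : L0Facts) (s : ℕ) (δ : ℝ) (u : ι → Pt → ℝ) : 0 ≤ XV s δ u := by
  rw [XV_eq]
  exact add_nonneg (add_nonneg (NV_nonneg l0 _ _ _) (nV_nonneg l0 _ _ _)) (nV_nonneg l0 _ _ _)

theorem nV_le_NV (l0 : L0Facts) {k s : ℕ} (h : k ≤ s) (δ : ℝ) (u : ι → Pt → ℝ) :
    nV k (δ - 2 + k) u ≤ NV s δ u := by
  rw [NV_eq]
  exact Finset.single_le_sum (f := fun k : ℕ => nV k (δ - 2 + k) u)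
    (fun k _ => nV_nonneg l0 _ _ _) (Finset.mem_range.2 (Nat.lt_succ_of_le h))

theorem NV_mono_s (l0 : L0Facts) {k s : ℕ} (h : k ≤ s) (δ : ℝ) (u : ι → Pt → ℝ) :
    NV k δ u ≤ NV s δ u := by
  rw [NV_eq, NV_eq]
  exact Finset.sum_le_sum_of_subset_of_nonneg
    (Finset.range_subset_range.2 (Nat.succ_le_succ h)) fun k _ _ => nV_nonneg l0 _ _ _

theorem NV_mono_d (l0 : L0Facts) (s : ℕ) {δ δ' : ℝ} (h : δ ≤ δ') {u : ι → Pt → ℝ}
    (hu : ∀ α, CC (u α)) : NV s δ u ≤ NV s δ' u := by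
  rw [NV_eq, NV_eq]
  exact Finset.sum_le_sum fun k _ => nV_mono l0 k hu (by linarith)

theorem N_le_W (l0 : L0Facts) (s : ℕ) (δ : ℝ) {u : ι → Pt → ℝ} (hu : ∀ α, CC (u α)) :
    NV (s + 1) (δ - 2) u ≤ NV s δ u + nV (s + 1) (δ - 2 + s) u := by
  rw [NV_succ]
  exact add_le_add (NV_mono_d l0 s (by linarith) hu) (nV_mono l0 _ hu (by push_cast; linarith))

theorem N_le_X (l0 : L0Facts) (s : ℕ) (δ : ℝ) {u : ι → Pt → ℝ} (hu : ∀ α, CC (u α)) :
    NV (s + 1 + 1) (δ - 2) u ≤ XV s δ u := by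
  rw [NV_succ, XV_eq]
  exact add_le_add (N_le_W l0 s δ hu) (nV_mono l0 _ hu (by push_cast; linarith))

/-- The inner statement of the level estimate. -/
def Lv (p : ℕ) (δ : ℝ) (s : ℕ) (C : ℝ) : Prop :=
  ∀ (K K' : ℝ) a, 2 ≤ K → Ell a 1 K → (∀ i j, Sym 0 (s + 1) (a i j) K') →
  ∀ lam : ℝ, K⁻¹ ≤ lam + δ / 2 → ∀ u, CC u →
  (lam + δ / 2) * nn s (δ - 2 + s) u + √(lam + δ / 2) * nn (s + 1) (δ - 2 + s) u +
      nn (s + 2) (δ - 2 + s) u ≤
    K ^ p * (nn s (δ - 2 + s) (Lsc a lam u) + C * (1 + K') * Yn (s + 1) (s + 1) (δ - 2) u)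

theorem lev_sys (l0 : L0Facts) {p s : ℕ} {δ C K K' G : ℝ} {a : Fin 4 → Fin 4 → Pt → ℝ}
    (h : Lv p δ s C) (hK : 2 ≤ K) (hE : Ell a 1 K) (hs : ∀ i j, Sym 0 (s + 1) (a i j) K')
    {lam : ℝ} (hl : K⁻¹ ≤ lam + δ / 2) {u w : ι → Pt → ℝ} (hu : ∀ α, CC (u α))
    (hw : ∀ α, CC (w α)) (hG : nV s (δ - 2 + s) w ≤ G * NV (s + 1) (δ - 2) u) :
    (lam + δ / 2) * nV s (δ - 2 + s) u + √(lam + δ / 2) * nV (s + 1) (δ - 2 + s) u +
      nV (s + 2) (δ - 2 + s) u ≤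
    K ^ p * (nV s (δ - 2 + s) (fun α => Lsc a lam (u α) + w α) +
      (G + C * (1 + K')) * NV (s + 1) (δ - 2) u) := by
  have hp : 0 ≤ K ^ p := by positivity
  have h1 : ∀ α, (lam + δ / 2) * nn s (δ - 2 + s) (u α) +
      √(lam + δ / 2) * nn (s + 1) (δ - 2 + s) (u α) + nn (s + 2) (δ - 2 + s) (u α) ≤
      K ^ p * (nn s (δ - 2 + s) (Lsc a lam (u α) + w α) + nn s (δ - 2 + s) (w α) +
        C * (1 + K') * Yn (s + 1) (s + 1) (δ - 2) (u α)) := fun α => by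
    refine (h K K' a hK hE hs lam hl (u α) (hu α)).trans (mul_le_mul_of_nonneg_left ?_ hp)
    have h2 := l0.nn_add s (δ - 2 + s) (l0.cc_add (cc_L l0 hE.sym lam (hu α)) (hw α))
      (cc_smul l0 (-1) (hw α))
    rw [l0.nn_smul s _ (-1) (hw α), neg_smul, one_smul, add_neg_cancel_right] at h2
    simp only [abs_neg, abs_one, one_mul] at h2
    linarith
  have h3 := Finset.sum_le_sum fun α (_ : α ∈ Finset.univ) => h1 α
  simp only [Finset.sum_add_distrib, ← Finset.mul_sum] at h3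
  refine le_trans h3 (mul_le_mul_of_nonneg_left ?_ hp)
  unfold nV at hG ⊢
  unfold NV at hG ⊢
  linarith

theorem drop {K μ A B D : ℝ} (hK : 2 ≤ K) (hμ : K⁻¹ ≤ μ) (hA : 0 ≤ A) (hB : 0 ≤ B) (hD : 0 ≤ D) :
    A + B + D ≤ K * (μ * A + √μ * B + D) := by
  have hK0 : 0 < K := by linarith
  have h1 : 1 ≤ K * μ := by rwa [inv_le_iff_one_le_mul₀' hK0] at hμ
  have h2 : 1 ≤ K * √μ := by
    have h3 : K⁻¹ ≤ √μ := by
      refine Real.le_sqrt_of_sq_le (le_trans ?_ hμ)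
      have h4 : K⁻¹ ≤ 1 := inv_le_one_of_one_le₀ (by linarith)
      have h5 : 0 < K⁻¹ := inv_pos.2 hK0
      nlinarith
    rwa [inv_le_iff_one_le_mul₀' hK0] at h3
  nlinarith [mul_le_mul_of_nonneg_right h1 hA, mul_le_mul_of_nonneg_right h2 hB,
    mul_nonneg (show 0 ≤ K - 1 by linarith) hD]

theorem ell_le (l0 : L0Facts) {a : Fin 4 → Fin 4 → Pt → ℝ} {k k' : ℕ} {K : ℝ} (h : Ell a k K)
    (hk : k' ≤ k) : Ell a k' K :=
  ⟨h.sym, fun i j => l0.mono (h.bd i j) subset_rfl le_rfl hk le_rfl, h.symm, h.ell⟩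

theorem sym_unif (l0 : L0Facts) {a : Fin 4 → Fin 4 → Pt → ℝ} (h : ∀ i j, IsSym 0 (a i j))
    (k : ℕ) : ∃ K' : ℝ, 1 ≤ K' ∧ ∀ i j, Sym 0 k (a i j) K' := by
  choose C hC using fun i j => (h i j).2 k
  have h0 : 0 ≤ ∑ i, ∑ j, |C i j| := by positivity
  refine ⟨1 + ∑ i, ∑ j, |C i j|, by linarith, fun i j =>
    l0.mono (hC i j) subset_rfl le_rfl le_rfl ?_⟩
  have h1 : |C i j| ≤ ∑ j, |C i j| :=
    Finset.single_le_sum (f := fun j => |C i j|) (fun _ _ => abs_nonneg _) (Finset.mem_univ j)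
  have h2 : ∑ j, |C i j| ≤ ∑ i, ∑ j, |C i j| :=
    Finset.single_le_sum (f := fun i => ∑ j, |C i j|) (fun _ _ => by positivity)
      (Finset.mem_univ i)
  linarith [le_abs_self (C i j)]

/-- One step up. -/
theorem step (l0 : L0Facts) {p s : ℕ} {δ C K K' G G' : ℝ} {a : Fin 4 → Fin 4 → Pt → ℝ}
    (h : Lv p δ (s + 1) C) (hK : 2 ≤ K) (hE : Ell a 1 K)
    (hs : ∀ i j, Sym 0 (s + 1 + 1) (a i j) K') {lam : ℝ} (hl : K⁻¹ ≤ lam + δ / 2)
    {u w : ι → Pt → ℝ} (hu : ∀ α, CC (u α)) (hw : ∀ α, CC (w α))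
    (hG : NV (s + 1) δ w ≤ G * NV (s + 1 + 1) (δ - 2) u) (hG' : G + C * (1 + K') ≤ G')
    (hG0 : 0 ≤ G') :
    XV (s + 1) δ u ≤ K ^ (p + 1) * nV (s + 1) (δ - 2 + (s + 1 : ℕ))
      (fun α => Lsc a lam (u α) + w α) + (1 + K ^ (p + 1) * G') * XV s δ u := by
  have h1 := lev_sys l0 h hK hE hs hl hu hw ((nV_le_NV l0 le_rfl δ w).trans hG)
  have h2 := drop hK hl (nV_nonneg l0 (s + 1) (δ - 2 + (s + 1 : ℕ)) u)
    (nV_nonneg l0 (s + 1 + 1) (δ - 2 + (s + 1 : ℕ)) u)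
    (nV_nonneg l0 (s + 1 + 2) (δ - 2 + (s + 1 : ℕ)) u)
  have h3 : (G + C * (1 + K')) * NV (s + 1 + 1) (δ - 2) u ≤ G' * XV s δ u :=
    (mul_le_mul_of_nonneg_right hG' (NV_nonneg l0 _ _ _)).trans
      (mul_le_mul_of_nonneg_left (N_le_X l0 s δ hu) hG0)
  have h4 : NV s δ u ≤ XV s δ u := by
    rw [XV_eq]
    linarith [nV_nonneg l0 (s + 1) (δ - 2 + s) u, nV_nonneg l0 (s + 2) (δ - 2 + s) u]
  have hK0 : 0 ≤ K := by linarith
  have h5 := mul_le_mul_of_nonneg_left (h1.trans (mul_le_mul_of_nonneg_left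
    (add_le_add le_rfl h3) (by positivity))) hK0
  rw [XV_eq (s + 1), NV_succ, pow_succ]
  linarith

theorem base (l0 : L0Facts) {p : ℕ} {δ C K G' : ℝ} {a : Fin 4 → Fin 4 → Pt → ℝ} (hδ : |δ| ≤ 1)
    (h : Lv p δ 0 C) (hK : 2 ≤ K) (hE : Ell a 1 K) {lam : ℝ} (hl : K⁻¹ ≤ lam + δ / 2)
    {u w : ι → Pt → ℝ} (hu : ∀ α, CC (u α)) (hw : ∀ α, CC (w α))
    (hG : NV 0 δ w ≤ K * NV (0 + 1) (δ - 2) u) (hG' : K + C * (1 + K) ≤ G') (hG1 : 1 ≤ G') :
    XV 0 δ u ≤ 98 * (K ^ (p + 1) * G') ^ 2 * (nV 0 (δ - 2 + (0 : ℕ))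
      (fun α => Lsc a lam (u α) + w α) + nV 0 (δ - 3) u) := by
  have h1 := lev_sys l0 h hK hE hE.bd hl hu hw ((nV_le_NV l0 le_rfl δ w).trans hG)
  have h2 := drop hK hl (nV_nonneg l0 0 (δ - 2 + (0 : ℕ)) u)
    (nV_nonneg l0 (0 + 1) (δ - 2 + (0 : ℕ)) u) (nV_nonneg l0 (0 + 2) (δ - 2 + (0 : ℕ)) u)
  have hK0 : 0 ≤ K := by linarith
  have hq : 1 ≤ K ^ (p + 1) := one_le_pow₀ (by linarith)
  set M := K ^ (p + 1) * G' with hM
  have hM1 : K ^ (p + 1) ≤ M := le_mul_of_one_le_right (by linarith) hG1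
  have hM0 : 0 < M := by linarith
  have e1 : XV 0 δ u = nV 0 (δ - 2 + (0 : ℕ)) u + nV (0 + 1) (δ - 2 + (0 : ℕ)) u +
      nV (0 + 2) (δ - 2 + (0 : ℕ)) u := by
    rw [XV_eq, NV_eq, Finset.sum_range_one]
  have e2 : NV (0 + 1) (δ - 2) u = nV 0 (δ - 4) u + nV 1 (δ - 3) u := by
    rw [NV_succ, NV_eq, Finset.sum_range_one]
    congr 2 <;> push_cast <;> ring
  have h3 : nV 1 (δ - 3) u ≤ 2 * (1 / (4 * M)) * nV 2 (δ - 2) u +
      4 * (8 + 1 / (1 / (4 * M))) * nV 0 (δ - 4) u := by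
    unfold nV
    rw [Finset.mul_sum, Finset.mul_sum, ← Finset.sum_add_distrib]
    exact Finset.sum_le_sum fun α _ => interp l0 hδ (by positivity) (hu α)
  have h4 : nV 0 (δ - 4) u ≤ nV 0 (δ - 3) u := nV_mono l0 0 hu (by linarith)
  have h5 : nV 2 (δ - 2) u ≤ XV 0 δ u := by
    have : nV (0 + 2) (δ - 2 + (0 : ℕ)) u = nV 2 (δ - 2) u := by simp
    linarith [nV_nonneg l0 0 (δ - 2 + (0 : ℕ)) u, nV_nonneg l0 (0 + 1) (δ - 2 + (0 : ℕ)) u]
  have p1 := nV_nonneg l0 0 (δ - 4) u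
  have h6 : M * NV (0 + 1) (δ - 2) u ≤ XV 0 δ u / 2 + M * (33 + 16 * M) * nV 0 (δ - 3) u := by
    have g1 : M * (nV 0 (δ - 4) u + (2 * (1 / (4 * M)) * nV 2 (δ - 2) u +
        4 * (8 + 1 / (1 / (4 * M))) * nV 0 (δ - 4) u)) =
        nV 2 (δ - 2) u / 2 + M * (33 + 16 * M) * nV 0 (δ - 4) u := by
      field_simp
      ring
    have g2 := mul_le_mul_of_nonneg_left (add_le_add_right h3 (nV 0 (δ - 4) u)) hM0.le
    have g3 := mul_le_mul_of_nonneg_left h4 (show 0 ≤ M * (33 + 16 * M) by positivity)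
    rw [e2]
    linarith
  have h7 := mul_le_mul_of_nonneg_right hG' (NV_nonneg l0 (0 + 1) (δ - 2) u)
  have h8 := mul_le_mul_of_nonneg_left (h1.trans (mul_le_mul_of_nonneg_left
    (add_le_add le_rfl h7) (by positivity))) hK0
  set F := nV 0 (δ - 2 + (0 : ℕ)) (fun α => Lsc a lam (u α) + w α)
  have pF : 0 ≤ F := nV_nonneg l0 _ _ _
  have pZ : 0 ≤ nV 0 (δ - 3) u := nV_nonneg l0 _ _ _
  have h9 : XV 0 δ u ≤ K ^ (p + 1) * F + M * NV (0 + 1) (δ - 2) u := by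
    rw [e1, hM, pow_succ]
    exact h2.trans (h8.trans (le_of_eq (by ring)))
  have h10 : K ^ (p + 1) * F ≤ 49 * M ^ 2 * F :=
    mul_le_mul_of_nonneg_right (by nlinarith) pF
  have h11 : M * (33 + 16 * M) * nV 0 (δ - 3) u ≤ 49 * M ^ 2 * nV 0 (δ - 3) u :=
    mul_le_mul_of_nonneg_right (by nlinarith) pZ
  linarith

theorem part1 (l0 : L0Facts) (σ : ι → ι) {δ : ℝ} (hδ : |δ| ≤ 1) {p : ℕ}
    (h : ∀ s, ∃ C, 0 ≤ C ∧ Lv p δ s C) (s : ℕ) (hs : s ≤ 12) : ∃ q : ℕ,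
    ∀ (K : ℝ) a (B : (ι → Pt → ℝ) → ι → Pt → ℝ), 2 ≤ K → LinOp σ δ K a B →
    ∀ lam : ℝ, K⁻¹ ≤ lam + δ / 2 → ∀ u, Adm σ u →
      XV s δ u ≤ K ^ q * (NV 12 δ (LV a B lam u) + nV 0 (δ - 3) u) := by
  induction s with
  | zero =>
    obtain ⟨C, hC, hL⟩ := h 0
    obtain ⟨q, hq⟩ := l0.absorb (98 * (1 + 2 * C) ^ 2) (2 * (p + 2))
    refine ⟨q, fun K a B hK hO lam hl u hu => ?_⟩
    have h1 := base (G' := (1 + 2 * C) * K) l0 hδ hL hK (ell_le l0 hO.ell (by norm_num)) hl hu.1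
      (hO.adm u hu).1 (hO.bdK 0 hs u hu) (by nlinarith) (by nlinarith)
    refine h1.trans (mul_le_mul ((le_of_eq (by ring)).trans (hq K hK))
      (add_le_add (nV_le_NV l0 hs δ _) le_rfl)
      (add_nonneg (nV_nonneg l0 _ _ _) (nV_nonneg l0 _ _ _)) (by positivity))
  | succ s ih =>
    obtain ⟨q, hq⟩ := ih (by omega)
    obtain ⟨C, hC, hL⟩ := h (s + 1)
    obtain ⟨r, hr⟩ := l0.absorb (3 + 2 * C) (p + 2 + q)
    refine ⟨r, fun K a B hK hO lam hl u hu => ?_⟩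
    have h1 := step (G' := (1 + 2 * C) * K) l0 hL hK (ell_le l0 hO.ell (by norm_num))
      (ell_le l0 hO.ell (show s + 1 + 1 ≤ 14 by omega)).bd hl hu.1 (hO.adm u hu).1
      (hO.bdK (s + 1) hs u hu) (by nlinarith) (by positivity)
    have h2 := hq K a B hK hO lam hl u hu
    have h3 : nV (s + 1) (δ - 2 + (s + 1 : ℕ)) (fun α => Lsc a lam (u α) + B u α) ≤
        NV 12 δ (LV a B lam u) + nV 0 (δ - 3) u :=
      (nV_le_NV l0 hs δ (LV a B lam u)).trans (le_add_of_nonneg_right (nV_nonneg l0 _ _ _))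
    set T := NV 12 δ (LV a B lam u) + nV 0 (δ - 3) u
    have pT : 0 ≤ T := add_nonneg (NV_nonneg l0 _ _ _) (nV_nonneg l0 _ _ _)
    have hK1 : 1 ≤ K := by linarith
    have h4 : K ^ (p + 1) ≤ K ^ (p + 2 + q) := pow_le_pow_right₀ hK1 (by omega)
    have h5 : K ^ q ≤ K ^ (p + 2 + q) := pow_le_pow_right₀ hK1 (by omega)
    have h6 : K ^ (p + 1) + (1 + K ^ (p + 1) * ((1 + 2 * C) * K)) * K ^ q ≤ K ^ r := by
      refine le_trans ?_ (hr K hK)
      have : (1 + K ^ (p + 1) * ((1 + 2 * C) * K)) * K ^ q =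
          K ^ q + (1 + 2 * C) * K ^ (p + 2 + q) := by ring
      linarith
    have h7 := mul_le_mul_of_nonneg_left h3 (show 0 ≤ K ^ (p + 1) by positivity)
    have h8 := mul_le_mul_of_nonneg_left h2
      (show 0 ≤ 1 + K ^ (p + 1) * ((1 + 2 * C) * K) by positivity)
    have h9 := mul_le_mul_of_nonneg_right h6 pT
    linarith

theorem sym_mix (b1 : B1Stmt) (l0 : L0Facts) {f : Pt → ℝ} (hf : IsSym 0 f) {k : ℕ} {K c t : ℝ}
    (h : Sym 0 k f K) (hK : 1 ≤ K) (hc : |c| ≤ 1) (ht : t ∈ Set.Icc (0 : ℝ) 1) :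
    Sym 0 k (fun y => (1 - t) * c + t * f y) K := by
  have h1 : Sym 0 k (fun _ => (1 - t) * c) (1 - t) := fun y _ => by
    refine (b1 4).mono ((b1 4).const k _ y (l0.wt_pos _ y).le) (l0.wt_pos _ y).le le_rfl ?_
    rw [l0.wt_zero, mul_one, abs_mul, abs_of_nonneg (sub_nonneg.2 ht.2)]
    exact mul_le_of_le_one_right (sub_nonneg.2 ht.2) hc
  have h2 := l0.smul t hf.1 h
  have h3 := l0.add (fun y _ => contDiffAt_const) (fun y hy => (hf.1 y hy).const_smul t) h1 h2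
  refine l0.mono h3 subset_rfl le_rfl le_rfl ?_
  rw [abs_of_nonneg ht.1]
  nlinarith [ht.1, ht.2]

theorem ell_mix (b1 : B1Stmt) (l0 : L0Facts) {a : Fin 4 → Fin 4 → Pt → ℝ} {k : ℕ} {K t : ℝ}
    (h : Ell a k K) (hK : 1 ≤ K) (ht : t ∈ Set.Icc (0 : ℝ) 1) :
    Ell (fun i j y => (1 - t) * (if i = j then 1 else 0) + t * a i j y) k K := by
  have hc : ∀ i j : Fin 4, |(if i = j then 1 else 0 : ℝ)| ≤ 1 := fun i j => by
    split_ifs <;> simp
  refine ⟨fun i j => ⟨fun y hy => contDiffAt_const.add (contDiffAt_const.mul ((h.sym i j).1 y hy)),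
    fun m => ?_⟩, fun i j => sym_mix b1 l0 (h.sym i j) (h.bd i j) hK (hc i j) ht, fun i j => ?_,
    fun y ξ => ?_⟩
  · obtain ⟨K', h1, h2⟩ := sym_unif l0 h.sym m
    exact ⟨K', sym_mix b1 l0 (h.sym i j) (h2 i j) h1 (hc i j) ht⟩
  · funext y
    simp only [h.symm i j, eq_comm (a := i)]
  · have e : qf (fun i j => (1 - t) * (if i = j then 1 else 0) + t * a i j y) ξ =
        (1 - t) * nsq ξ + t * qf (fun i j => a i j y) ξ := by
      simp only [qf, nsq, Fin.sum_univ_four]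
      simp
      ring
    rw [e]
    have h1 := mul_le_mul_of_nonneg_left (h.ell y ξ) ht.1
    have h2 : 0 ≤ nsq ξ := Finset.sum_nonneg fun _ _ => sq_nonneg _
    have h3 : K⁻¹ ≤ 1 := inv_le_one_of_one_le₀ hK
    nlinarith [mul_nonneg (mul_nonneg (sub_nonneg.2 ht.2) (sub_nonneg.2 h3)) h2]

theorem part3 (b1 : B1Stmt) (l0 : L0Facts) (σ : ι → ι) {δ : ℝ} (hδ : |δ| ≤ 1) {p : ℕ}
    (h : ∀ s, ∃ C, 0 ≤ C ∧ Lv p δ s C) {K : ℝ} {a : Fin 4 → Fin 4 → Pt → ℝ}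
    {B : (ι → Pt → ℝ) → ι → Pt → ℝ} (hK : 2 ≤ K) (hO : LinOp σ δ K a B) (s : ℕ) :
    ∃ l₁ C : ℝ, ∀ t ∈ Set.Icc (0 : ℝ) 1, ∀ lam, l₁ ≤ lam → ∀ u, Adm σ u →
      XV s δ u ≤ C * NV s δ (LV (fun i j y => (1 - t) * (if i = j then 1 else 0) + t * a i j y)
        (fun v => t • B v) lam u) := by
  choose C hC hL using h
  choose K' hK' hS using fun k => sym_unif l0 hO.ell.sym (k + 1)
  choose G hG using hO.bd
  set H := ∑ k ∈ Finset.range (s + 1), (|G k| + C k * (1 + K' k)) with hH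
  have pG : ∀ k, 0 ≤ |G k| + C k * (1 + K' k) := fun k =>
    add_nonneg (abs_nonneg _) (mul_nonneg (hC k) (by linarith [hK' k]))
  have pH : 0 ≤ H := Finset.sum_nonneg fun k _ => pG k
  have hK1 : 1 ≤ K := by linarith
  have pK : 0 ≤ K ^ p := by positivity
  refine ⟨(K ^ p * H + 1) ^ 2 + 1, K ^ p, fun t ht lam hl u hu => ?_⟩
  have hc : ∀ i j : Fin 4, |(if i = j then 1 else 0 : ℝ)| ≤ 1 := fun i j => by
    split_ifs <;> simp
  have pKH : 0 ≤ K ^ p * H := mul_nonneg pK pH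
  have hμ : (K ^ p * H + 1) ^ 2 ≤ lam + δ / 2 := by linarith [(abs_le.1 hδ).1]
  have hμ1 : 1 ≤ lam + δ / 2 := by nlinarith
  have hμ2 : K ^ p * H + 1 ≤ √(lam + δ / 2) := Real.le_sqrt_of_sq_le hμ
  have hμ3 : √(lam + δ / 2) ≤ lam + δ / 2 := by
    rw [Real.sqrt_le_left (by linarith)]
    nlinarith
  have hw : ∀ α, CC ((t • B u) α) := fun α => cc_smul l0 t ((hO.adm u hu).1 α)
  set f := LV (fun i j y => (1 - t) * (if i = j then 1 else 0) + t * a i j y)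
    (fun v => t • B v) lam u with hf
  set W := NV s δ u + nV (s + 1) (δ - 2 + s) u with hW
  have h1 : ∀ k ∈ Finset.range (s + 1), (lam + δ / 2) * nV k (δ - 2 + k) u +
      (√(lam + δ / 2) * nV (k + 1) (δ - 2 + k) u + nV (k + 2) (δ - 2 + k) u) ≤
      K ^ p * (nV k (δ - 2 + k) f + (|G k| + C k * (1 + K' k)) * W) := by
    intro k hk
    have hks : k ≤ s := Nat.lt_succ_iff.1 (Finset.mem_range.1 hk)
    have g1 : nV k (δ - 2 + k) (t • B u) ≤ |G k| * NV (k + 1) (δ - 2) u := by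
      have g2 : nV k (δ - 2 + k) (t • B u) ≤ nV k (δ - 2 + k) (B u) :=
        Finset.sum_le_sum fun α _ => by
          rw [Pi.smul_apply, l0.nn_smul k _ t ((hO.adm u hu).1 α), abs_of_nonneg ht.1]
          exact mul_le_of_le_one_left (l0.nn_nonneg _ _ _) ht.2
      exact g2.trans ((nV_le_NV l0 le_rfl δ _).trans ((hG k u hu).trans
        (mul_le_mul_of_nonneg_right (le_abs_self _) (NV_nonneg l0 _ _ _))))
    have g3 := lev_sys l0 (hL k) hK (ell_mix b1 l0 (ell_le l0 hO.ell (by norm_num)) hK1 ht)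
      (fun i j => sym_mix b1 l0 (hO.ell.sym i j) (hS k i j) (hK' k) (hc i j) ht)
      ((inv_le_one_of_one_le₀ hK1).trans hμ1) hu.1 hw g1
    have g4 : NV (k + 1) (δ - 2) u ≤ W :=
      (NV_mono_s l0 (Nat.succ_le_succ hks) _ u).trans (N_le_W l0 s δ hu.1)
    rw [← add_assoc]
    exact g3.trans (mul_le_mul_of_nonneg_left
      (add_le_add le_rfl (mul_le_mul_of_nonneg_left g4 (pG k))) pK)
  have h2 := Finset.sum_le_sum h1
  rw [Finset.sum_add_distrib, ← Finset.mul_sum, ← Finset.mul_sum, Finset.sum_add_distrib (f :=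
    fun k : ℕ => nV k (δ - 2 + k) f), ← Finset.sum_mul, ← NV_eq, ← NV_eq, ← hH] at h2
  have h3 : √(lam + δ / 2) * nV (s + 1) (δ - 2 + s) u + nV (s + 2) (δ - 2 + s) u ≤
      ∑ k ∈ Finset.range (s + 1),
        (√(lam + δ / 2) * nV (k + 1) (δ - 2 + k) u + nV (k + 2) (δ - 2 + k) u) :=
    Finset.single_le_sum (f := fun k : ℕ =>
      √(lam + δ / 2) * nV (k + 1) (δ - 2 + k) u + nV (k + 2) (δ - 2 + k) u)
      (fun k _ => add_nonneg (mul_nonneg (Real.sqrt_nonneg _) (nV_nonneg l0 _ _ _))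
        (nV_nonneg l0 _ _ _)) (Finset.self_mem_range_succ s)
  have h4 := mul_le_mul_of_nonneg_right (hμ2.trans hμ3) (NV_nonneg l0 s δ u)
  have h5 := mul_le_mul_of_nonneg_right hμ2 (nV_nonneg l0 (s + 1) (δ - 2 + s) u)
  rw [XV_eq]
  rw [hW] at h2
  linarith

end Sys

end Apr

theorem apr (b1 : B1Stmt) (l0 : L0Facts) (lev : LevStmt) : AprStmt := by
  intro ι _ σ δ hδ
  obtain ⟨p, hp⟩ := lev
  have h : ∀ s, ∃ C, 0 ≤ C ∧ Apr.Lv p δ s C := fun s => hp δ s hδ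
  obtain ⟨q, hq⟩ := Apr.part1 l0 σ hδ h 12 le_rfl
  refine ⟨q + (p + 1), fun K a B hK hO => ⟨fun lam hl u hu => ?_, fun s => ?_,
    Apr.part3 b1 l0 σ hδ h hK hO⟩⟩
  · exact (hq K a B hK hO lam hl u hu).trans (mul_le_mul_of_nonneg_right
      (pow_le_pow_right₀ (by linarith) (by omega))
      (add_nonneg (Apr.NV_nonneg l0 _ _ _) (Apr.nV_nonneg l0 _ _ _)))
  · obtain ⟨C, hC, hL⟩ := h (s + 1)
    obtain ⟨K', hK', hS⟩ := Apr.sym_unif l0 hO.ell.sym (s + 1 + 1)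
    obtain ⟨G, hG⟩ := hO.bd (s + 1)
    refine ⟨1 + K ^ (p + 1) * |G + C * (1 + K')|, fun lam hl u hu => ?_⟩
    have h1 := Apr.step l0 hL hK (Apr.ell_le l0 hO.ell (by norm_num)) hS hl hu.1 (hO.adm u hu).1
      (hG u hu) (le_abs_self _) (abs_nonneg _)
    rw [show δ - 2 + ((s + 1 : ℕ) : ℝ) = δ - 1 + s by push_cast; ring] at h1
    exact h1.trans (add_le_add (mul_le_mul_of_nonneg_right
      (pow_le_pow_right₀ (by linarith) (by omega)) (Apr.nV_nonneg l0 _ _ _)) le_rfl)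

end Pool.Agent.Lib.MP_df9110_gt
end

-- part Pool.Agent.Lib.MP_df9110_gt.Dr
section

/-! Dense range by the method of continuity. -/

namespace Pool.Agent.Lib.MP_df9110_gt

open Filter Topology MeasureTheory
open scoped ContDiff

namespace Dr

section Abstract

variable {V : Type} [AddCommGroup V]

/-- Dense range for the seminorm `Y` on the subgroup described by `P`. -/
def Dens (P : V → Prop) (Y : V → ℝ) (A : V → V) : Prop :=
  ∀ F, P F → ∀ η : ℝ, 0 < η → ∃ u, P u ∧ Y (A u - F) ≤ η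

structure Sem (P : V → Prop) (Y : V → ℝ) : Prop where
  add : ∀ u v, P u → P v → P (u + v)
  neg : ∀ u, P u → P (-u)
  yadd : ∀ u v, P u → P v → Y (u + v) ≤ Y u + Y v
  yneg : ∀ u, P u → Y (-u) = Y u
  ynn : ∀ u, 0 ≤ Y u

structure Op (P : V → Prop) (A : V → V) : Prop where
  adm : ∀ u, P u → P (A u)
  add : ∀ u v, P u → P v → A (u + v) = A u + A v

variable {P : V → Prop} {Y : V → ℝ}

theorem Sem.sub (h : Sem P Y) {u v : V} (hu : P u) (hv : P v) : P (u - v) := by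
  rw [sub_eq_add_neg]; exact h.add _ _ hu (h.neg _ hv)

theorem step (h : Sem P Y) {A A' : V → V} (hA : Op P A) (hA' : Op P A')
    (hc : ∀ u, P u → Y (A' u - A u) ≤ Y (A u) / 2) (hd : Dens P Y A) : Dens P Y A' := by
  have h0 : ∀ F, P F → ∀ ε : ℝ, 0 < ε → ∃ u, P u ∧ Y (A' u - F) ≤ Y F / 2 + ε := by
    intro F hF ε hε
    obtain ⟨u, hu, h1⟩ := hd F hF (ε / 2) (by positivity)
    have p1 := h.sub (hA.adm u hu) hF
    have h2 := h.yadd _ _ p1 hF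
    have h3 := h.yadd _ _ (h.sub (hA'.adm u hu) (hA.adm u hu)) p1
    rw [sub_add_cancel] at h2
    rw [sub_add_sub_cancel] at h3
    exact ⟨u, hu, by linarith [hc u hu]⟩
  have h1 : ∀ n : ℕ, ∀ F, P F → ∀ ε : ℝ, 0 < ε →
      ∃ u, P u ∧ Y (A' u - F) ≤ (1 / 2) ^ n * Y F + ε := by
    intro n
    induction n with
    | zero =>
      intro F hF ε hε
      obtain ⟨u, hu, h1⟩ := h0 F hF ε hε
      exact ⟨u, hu, by linarith [h.ynn F]⟩
    | succ n ih =>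
      intro F hF ε hε
      obtain ⟨u, hu, h1⟩ := h0 F hF (ε / 2) (by positivity)
      have p1 := h.sub (hA'.adm u hu) hF
      obtain ⟨v, hv, h2⟩ := ih _ (h.neg _ p1) (ε / 2) (by positivity)
      refine ⟨u + v, h.add _ _ hu hv, ?_⟩
      rw [h.yneg _ p1] at h2
      have e : A' (u + v) - F = A' v - -(A' u - F) := by rw [hA'.add u v hu hv]; abel
      have q0 : (0 : ℝ) ≤ (1 / 2) ^ n := by positivity
      have q1 : ((1 : ℝ) / 2) ^ n ≤ 1 := pow_le_one₀ (by norm_num) (by norm_num)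
      have h3 := mul_le_mul_of_nonneg_left h1 q0
      have h4 := mul_le_mul_of_nonneg_right q1 hε.le
      rw [e, pow_succ]
      nlinarith
  intro F hF η hη
  obtain ⟨n, hn⟩ := exists_pow_lt_of_lt_one (x := η / 2 / (Y F + 1)) (y := (1 / 2 : ℝ))
    (by have := h.ynn F; positivity) (by norm_num)
  obtain ⟨u, hu, h2⟩ := h1 n F hF (η / 2) (by positivity)
  refine ⟨u, hu, h2.trans ?_⟩
  have hY := h.ynn F
  rw [lt_div_iff₀ (by positivity)] at hn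
  have q0 : (0 : ℝ) ≤ (1 / 2) ^ n := by positivity
  nlinarith

theorem path (h : Sem P Y) (A : ℝ → V → V) (hA : ∀ t, Op P (A t)) (C : ℝ)
    (hc : ∀ t ∈ Set.Icc (0 : ℝ) 1, ∀ t' u, P u → Y (A t' u - A t u) ≤ C * |t' - t| * Y (A t u))
    (hd : Dens P Y (A 0)) : Dens P Y (A 1) := by
  obtain ⟨N, hN⟩ := exists_nat_gt (2 * |C|)
  have hN0 : (0 : ℝ) < N := lt_of_le_of_lt (by positivity) hN
  have key : ∀ k : ℕ, k ≤ N → Dens P Y (A (k / N)) := by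
    intro k
    induction k with
    | zero => intro _; simpa using hd
    | succ k ih =>
      intro hk
      have hk' : (k : ℝ) ≤ N := by exact_mod_cast (by omega : k ≤ N)
      refine step h (hA _) (hA _) (fun u hu => ?_) (ih (by omega))
      refine (hc _ ⟨by positivity, (div_le_one hN0).2 hk'⟩ _ u hu).trans ?_
      have e : (((k + 1 : ℕ) : ℝ) / N - k / N) = 1 / N := by push_cast; ring
      have h2 : C * |(1 : ℝ) / N| ≤ 1 / 2 := by
        rw [abs_of_pos (by positivity), mul_one_div, div_le_iff₀ hN0]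
        linarith [le_abs_self C]
      rw [e]
      have := mul_le_mul_of_nonneg_right h2 (h.ynn (A (k / N) u))
      linarith
  simpa [div_self hN0.ne'] using key N le_rfl

end Abstract

section Scalar

theorem cc_zero : CC 0 := ⟨contDiff_const, HasCompactSupport.zero⟩

theorem cc_neg {u : Pt → ℝ} (h : CC u) : CC (-u) := ⟨h.1.neg, h.2.neg⟩

theorem cc_smul (c : ℝ) {u : Pt → ℝ} (h : CC u) : CC (c • u) :=
  ⟨h.1.const_smul c, h.2.smul_left (f := fun _ => c)⟩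

theorem pd_add {u v : Pt → ℝ} (hu : ContDiff ℝ ∞ u) (hv : ContDiff ℝ ∞ v) (i : Fin 4) :
    pd i (u + v) = pd i u + pd i v :=
  funext fun p => pdn_add (hu.differentiable (by simp) p) (hv.differentiable (by simp) p) i

/-- The second order part. -/
noncomputable def P2 (a : Fin 4 → Fin 4 → Pt → ℝ) (u : Pt → ℝ) : Pt → ℝ :=
  ∑ i, ∑ j, a i j * pd i (pd j u)

theorem lsc_eq (a : Fin 4 → Fin 4 → Pt → ℝ) (lam : ℝ) (u : Pt → ℝ) :
    Lsc a lam u = P2 a u + (1 / 2 : ℝ) • ∑ i, (fun y : Pt => y i) * pd i u + (-lam) • u := by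
  funext y
  simp [Lsc, P2, Finset.sum_apply, sub_eq_add_neg]

theorem lsc_add (a : Fin 4 → Fin 4 → Pt → ℝ) (lam : ℝ) {u v : Pt → ℝ} (hu : ContDiff ℝ ∞ u)
    (hv : ContDiff ℝ ∞ v) : Lsc a lam (u + v) = Lsc a lam u + Lsc a lam v := by
  have h2 : ∀ i j, pd i (pd j u + pd j v) = pd i (pd j u) + pd i (pd j v) := fun i j =>
    pd_add (contDiff_pdn hu j) (contDiff_pdn hv j) i
  funext y
  simp only [Lsc, h2, pd_add hu hv, Pi.add_apply, mul_add, Finset.sum_add_distrib]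
  ring

variable (l0 : L0Facts)
include l0

theorem cc_sum {κ : Type} (S : Finset κ) {f : κ → Pt → ℝ} (h : ∀ i, CC (f i)) :
    CC (∑ i ∈ S, f i) :=
  Finset.sum_induction f CC (fun _ _ => l0.cc_add) cc_zero fun i _ => h i

theorem cc_p2 {a : Fin 4 → Fin 4 → Pt → ℝ} (ha : ∀ i j, ContDiff ℝ ∞ (a i j)) {u : Pt → ℝ}
    (hu : CC u) : CC (P2 a u) :=
  cc_sum l0 _ fun i => cc_sum l0 _ fun j => l0.cc_mul (ha i j) (l0.cc_pd (l0.cc_pd hu j) i)

theorem cc_lsc {a : Fin 4 → Fin 4 → Pt → ℝ} (ha : ∀ i j, ContDiff ℝ ∞ (a i j)) (lam : ℝ)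
    {u : Pt → ℝ} (hu : CC u) : CC (Lsc a lam u) := by
  rw [lsc_eq]
  exact l0.cc_add (l0.cc_add (cc_p2 l0 ha hu) (cc_smul _ (cc_sum l0 _ fun i =>
    l0.cc_mul (contDiff_apply ℝ ℝ i) (l0.cc_pd hu i)))) (cc_smul _ hu)

theorem yn_nonneg (t s : ℕ) (δ : ℝ) (u : Pt → ℝ) : 0 ≤ Yn t s δ u :=
  Finset.sum_nonneg fun _ _ => l0.nn_nonneg _ _ _

theorem yn_add (t s : ℕ) (δ : ℝ) {u v : Pt → ℝ} (hu : CC u) (hv : CC v) :
    Yn t s δ (u + v) ≤ Yn t s δ u + Yn t s δ v := by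
  rw [Yn, Yn, Yn, ← Finset.sum_add_distrib]
  exact Finset.sum_le_sum fun _ _ => l0.nn_add _ _ hu hv

theorem yn_smul (t s : ℕ) (δ c : ℝ) {u : Pt → ℝ} (hu : CC u) :
    Yn t s δ (c • u) = |c| * Yn t s δ u := by
  rw [Yn, Yn, Finset.mul_sum]
  exact Finset.sum_congr rfl fun _ _ => l0.nn_smul _ _ c hu

theorem yn_neg (t s : ℕ) (δ : ℝ) {u : Pt → ℝ} (hu : CC u) : Yn t s δ (-u) = Yn t s δ u := by
  simpa using yn_smul l0 t s δ (-1) hu

theorem yn_sum (t s : ℕ) (δ : ℝ) {κ : Type} (S : Finset κ) {f : κ → Pt → ℝ} (h : ∀ i, CC (f i)) :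
    Yn t s δ (∑ i ∈ S, f i) ≤ ∑ i ∈ S, Yn t s δ (f i) := by
  classical
  induction S using Finset.induction_on with
  | empty => simpa using (yn_smul l0 t s δ 0 cc_zero).le
  | insert i S hi ih =>
    rw [Finset.sum_insert hi, Finset.sum_insert hi]
    exact (yn_add l0 t s δ (h i) (cc_sum l0 S h)).trans (by linarith)

/-- Comparison of two norms. -/
theorem yn_le {t t' s s' : ℕ} {δ δ' : ℝ} (ht : t ≤ t')
    (h : ∀ k ≤ t, δ + (min k s : ℕ) ≤ δ' + (min k s' : ℕ)) {u : Pt → ℝ} (hu : CC u) :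
    Yn t s δ u ≤ Yn t' s' δ' u := by
  refine le_trans (Finset.sum_le_sum fun k hk => l0.nn_mono k hu ?_)
    (Finset.sum_le_sum_of_subset_of_nonneg (Finset.range_mono (Nat.succ_le_succ ht))
      fun _ _ _ => l0.nn_nonneg _ _ _)
  linarith [h k (Nat.lt_succ_iff.1 (Finset.mem_range.1 hk))]

theorem yn_pd2 (s : ℕ) (δ : ℝ) {u : Pt → ℝ} (hu : CC u) (i j : Fin 4) :
    Yn s s δ (pd i (pd j u)) ≤ Yn (s + 2) s δ u := by
  have h1 : Yn s s δ (pd i (pd j u)) ≤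
      ∑ k ∈ Finset.range (s + 1), nn (k + 1 + 1) (δ - 2 + (min (k + 1 + 1) s : ℕ)) u := by
    refine Finset.sum_le_sum fun k _ => ?_
    refine (l0.nn_succ _ _ (l0.cc_pd hu j) i).trans ((l0.nn_succ _ _ hu j).trans
      (l0.nn_mono _ hu ?_))
    have : ((min k s : ℕ) : ℝ) ≤ (min (k + 1 + 1) s : ℕ) := by exact_mod_cast (by omega)
    linarith
  refine h1.trans ?_
  rw [Yn, Finset.sum_range_succ' _ (s + 2), Finset.sum_range_succ' _ (s + 1)]
  linarith [l0.nn_nonneg (0 + 1) (δ - 2 + (min (0 + 1) s : ℕ)) u,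
    l0.nn_nonneg 0 (δ - 2 + (min 0 s : ℕ)) u]

theorem yn_p2 (pr : ProdFacts) (s : ℕ) (δ : ℝ) {a : Fin 4 → Fin 4 → Pt → ℝ}
    (ha : ∀ i j, IsSym 0 (a i j)) :
    ∃ C : ℝ, 0 ≤ C ∧ ∀ u, CC u → Yn s s δ (P2 a u) ≤ C * Yn (s + 2) s δ u := by
  obtain ⟨C, -, hC⟩ := pr.mul s s δ 0
  have hs : ∀ i j, ContDiff ℝ ∞ (a i j) := fun i j =>
    contDiff_iff_contDiffAt.2 fun y => (ha i j).1 y trivial
  choose A hA using fun i j => (ha i j).2 s
  refine ⟨∑ i, ∑ j, |C * A i j|, by positivity, fun u hu => ?_⟩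
  have hc : ∀ i j, CC (pd i (pd j u)) := fun i j => l0.cc_pd (l0.cc_pd hu j) i
  rw [Finset.sum_mul]
  refine (yn_sum l0 _ _ _ _ fun i => cc_sum l0 _ fun j => l0.cc_mul (hs i j) (hc i j)).trans
    (Finset.sum_le_sum fun i _ => ?_)
  rw [Finset.sum_mul]
  refine (yn_sum l0 _ _ _ _ fun j => l0.cc_mul (hs i j) (hc i j)).trans
    (Finset.sum_le_sum fun j _ => ?_)
  have h1 := hC _ _ _ (hs i j) (hc i j) (hA i j)
  rw [sub_zero] at h1
  exact h1.trans (mul_le_mul (le_abs_self _) (yn_pd2 l0 s δ hu i j) (yn_nonneg l0 _ _ _ _)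
    (abs_nonneg _))

theorem const_sym (b1 : B1Stmt) (c : ℝ) : IsSym 0 fun _ => c :=
  ⟨fun _ _ => contDiffAt_const, fun k => ⟨|c|, fun y _ => by
    rw [l0.wt_zero, mul_one]
    exact (b1 4).const k c y (l0.wt_pos _ _).le⟩⟩

end Scalar

section Vector

variable {ι : Type} [Fintype ι] {σ : ι → ι} (l0 : L0Facts)
include l0

omit [Fintype ι] in
theorem adm_add {u v : ι → Pt → ℝ} (hu : Adm σ u) (hv : Adm σ v) : Adm σ (u + v) :=
  ⟨fun α => l0.cc_add (hu.1 α) (hv.1 α), fun α => by rw [Pi.add_apply, hu.2, hv.2]; rfl⟩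

omit [Fintype ι] l0 in
theorem adm_smul (c : ℝ) {u : ι → Pt → ℝ} (hu : Adm σ u) : Adm σ (c • u) :=
  ⟨fun α => cc_smul c (hu.1 α), fun α => by rw [Pi.smul_apply, hu.2]; rfl⟩

theorem nv_nonneg (s : ℕ) (δ : ℝ) (u : ι → Pt → ℝ) : 0 ≤ NV s δ u :=
  Finset.sum_nonneg fun _ _ => yn_nonneg l0 _ _ _ _

theorem xv_nonneg (s : ℕ) (δ : ℝ) (u : ι → Pt → ℝ) : 0 ≤ XV s δ u :=
  Finset.sum_nonneg fun _ _ => yn_nonneg l0 _ _ _ _

theorem nv_smul (s : ℕ) (δ c : ℝ) {u : ι → Pt → ℝ} (hu : Adm σ u) :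
    NV s δ (c • u) = |c| * NV s δ u := by
  rw [NV, NV, Finset.mul_sum]
  exact Finset.sum_congr rfl fun α _ => yn_smul l0 _ _ _ c (hu.1 α)

theorem sem (s : ℕ) (δ : ℝ) : Sem (Adm σ) (NV s δ) where
  add _ _ := adm_add l0
  neg u hu := by simpa using adm_smul (-1) hu
  yadd u v hu hv := by
    rw [NV, NV, NV, ← Finset.sum_add_distrib]
    exact Finset.sum_le_sum fun α _ => yn_add l0 _ _ _ (hu.1 α) (hv.1 α)
  yneg u hu := by simpa using nv_smul l0 s δ (-1) hu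
  ynn := nv_nonneg l0 s δ

omit [Fintype ι] in
theorem op_lv {a : Fin 4 → Fin 4 → Pt → ℝ} (ha : ∀ i j, ContDiff ℝ ∞ (a i j))
    {B : (ι → Pt → ℝ) → ι → Pt → ℝ} (hB : Op (Adm σ) B) (lam : ℝ) : Op (Adm σ) (LV a B lam) where
  adm u hu := ⟨fun α => l0.cc_add (cc_lsc l0 ha lam (hu.1 α)) ((hB.adm u hu).1 α), fun α => by
    rw [LV, LV, hu.2, (hB.adm u hu).2]⟩
  add u v hu hv := by
    funext α
    rw [Pi.add_apply, LV, LV, LV, Pi.add_apply, lsc_add a lam (hu.1 α).1 (hv.1 α).1,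
      hB.add u v hu hv, Pi.add_apply]
    abel

variable {δ K l₀ : ℝ} {a : Fin 4 → Fin 4 → Pt → ℝ} {B : (ι → Pt → ℝ) → ι → Pt → ℝ}

omit l0 in
theorem smooth_a (h : LinOp σ δ K a B) (i j : Fin 4) : ContDiff ℝ ∞ (a i j) :=
  contDiff_iff_contDiffAt.2 fun y => (h.ell.sym i j).1 y trivial

/-- The uniform a priori estimate. -/
theorem unif (apr : AprStmt) (hδ : |δ| ≤ 1) (hK : 2 ≤ K) (h : LinOp σ δ K a B)
    (hl : K⁻¹ ≤ l₀ + δ / 2) (mp : MPH σ δ K l₀ a B) (s : ℕ) (hs : 12 ≤ s) :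
    ∃ C : ℝ, 0 ≤ C ∧ ∀ lam, l₀ ≤ lam → ∀ u, Adm σ u →
      XV s δ u ≤ C * NV s δ (LV a B lam u) := by
  obtain ⟨p, hp⟩ := apr ι σ δ hδ
  obtain ⟨h1, h2, -⟩ := hp K a B hK h
  have hKp : 0 ≤ K ^ p := by positivity
  induction s, hs using Nat.le_induction with
  | base =>
    refine ⟨K ^ p * (1 + K), by positivity, fun lam hlam u hu => ?_⟩
    refine (h1 lam (by linarith) u hu).trans ?_
    rw [mul_assoc]
    exact mul_le_mul_of_nonneg_left (by linarith [mp lam hlam u hu]) hKp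
  | succ s _ ih =>
    obtain ⟨C, hC0, hC⟩ := ih
    obtain ⟨C', hC'⟩ := h2 s
    refine ⟨K ^ p + |C'| * C, by positivity, fun lam hlam u hu => ?_⟩
    have hF := (op_lv l0 (smooth_a h) ⟨h.adm, h.add⟩ lam).adm u hu
    have e1 : nV (s + 1) (δ - 1 + s) (LV a B lam u) ≤ NV (s + 1) δ (LV a B lam u) := by
      refine Finset.sum_le_sum fun α _ => ?_
      rw [Yn, Finset.sum_range_succ, min_self]
      have e : δ - 2 + ((s + 1 : ℕ) : ℝ) = δ - 1 + s := by push_cast; ring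
      rw [e]
      exact le_add_of_nonneg_left (Finset.sum_nonneg fun _ _ => l0.nn_nonneg _ _ _)
    have e2 : NV s δ (LV a B lam u) ≤ NV (s + 1) δ (LV a B lam u) :=
      Finset.sum_le_sum fun α _ => yn_le l0 (Nat.le_succ s) (fun k hk => by
        rw [min_eq_left hk, min_eq_left (hk.trans (Nat.le_succ s))]) (hF.1 α)
    have e3 : C' * XV s δ u ≤ |C'| * (C * NV (s + 1) δ (LV a B lam u)) :=
      mul_le_mul (le_abs_self _) ((hC lam hlam u hu).trans (mul_le_mul_of_nonneg_left e2 hC0))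
        (xv_nonneg l0 _ _ _) (abs_nonneg _)
    have e4 := mul_le_mul_of_nonneg_left e1 hKp
    have e5 := hC' lam (by linarith) u hu
    linarith

/-- The identity matrix. -/
def one (i j : Fin 4) (_ : Pt) : ℝ := if i = j then 1 else 0

/-- The derivative of the first path. -/
noncomputable def D1 (a : Fin 4 → Fin 4 → Pt → ℝ) (B : (ι → Pt → ℝ) → ι → Pt → ℝ)
    (u : ι → Pt → ℝ) : ι → Pt → ℝ := (fun α => P2 a (u α)) + -(fun α => P2 one (u α)) + B u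

theorem d1_bd (b1 : B1Stmt) (pr : ProdFacts) (h : LinOp σ δ K a B) (s : ℕ) :
    ∃ C : ℝ, 0 ≤ C ∧ ∀ u, Adm σ u → Adm σ (D1 a B u) ∧ NV s δ (D1 a B u) ≤ C * XV s δ u := by
  obtain ⟨C₁, p1, h1⟩ := yn_p2 l0 pr s δ h.ell.sym
  obtain ⟨C₂, p2, h2⟩ := yn_p2 l0 pr s δ (a := one) fun i j => const_sym l0 b1 _
  obtain ⟨C₃, h3⟩ := h.bd s
  have S := sem (σ := σ) l0 s δ
  refine ⟨C₁ + C₂ + |C₃|, by positivity, fun u hu => ?_⟩
  have a1 : Adm σ fun α => P2 a (u α) :=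
    ⟨fun α => cc_p2 l0 (smooth_a h) (hu.1 α), fun α => congrArg (P2 a) (hu.2 α)⟩
  have a2 : Adm σ fun α => P2 one (u α) :=
    ⟨fun α => cc_p2 l0 (fun _ _ => contDiff_const) (hu.1 α), fun α => congrArg (P2 one) (hu.2 α)⟩
  have a3 := S.add _ _ a1 (S.neg _ a2)
  refine ⟨S.add _ _ a3 (h.adm u hu), ?_⟩
  have b1 : NV s δ (fun α => P2 a (u α)) ≤ C₁ * XV s δ u := by
    rw [XV, Finset.mul_sum]
    exact Finset.sum_le_sum fun α _ => h1 _ (hu.1 α)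
  have b2 : NV s δ (fun α => P2 one (u α)) ≤ C₂ * XV s δ u := by
    rw [XV, Finset.mul_sum]
    exact Finset.sum_le_sum fun α _ => h2 _ (hu.1 α)
  have b3 : NV (s + 1) (δ - 2) u ≤ XV s δ u :=
    Finset.sum_le_sum fun α _ => yn_le l0 (Nat.le_succ _) (fun k hk => by
      have : ((min k (s + 1) : ℕ) : ℝ) ≤ ((min k s + 2 : ℕ) : ℝ) := by exact_mod_cast (by omega)
      push_cast at this ⊢
      linarith) (hu.1 α)
  have b4 : NV s δ (B u) ≤ |C₃| * XV s δ u :=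
    (h3 u hu).trans (mul_le_mul (le_abs_self _) b3 (nv_nonneg l0 _ _ _) (abs_nonneg _))
  have b5 := S.yadd _ _ a3 (h.adm u hu)
  have b6 := S.yadd _ _ a1 (S.neg _ a2)
  rw [S.yneg _ a2] at b6
  rw [D1]
  linarith

/-- The first path. -/
noncomputable def A1 (a : Fin 4 → Fin 4 → Pt → ℝ) (B : (ι → Pt → ℝ) → ι → Pt → ℝ) (lam t : ℝ) :
    (ι → Pt → ℝ) → ι → Pt → ℝ :=
  LV (fun i j y => (1 - t) * (if i = j then 1 else 0) + t * a i j y) (fun v => t • B v) lam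

omit [Fintype ι] l0 in
theorem a1_sub (a : Fin 4 → Fin 4 → Pt → ℝ) (B : (ι → Pt → ℝ) → ι → Pt → ℝ) (lam t t' : ℝ)
    (u : ι → Pt → ℝ) : A1 a B lam t' u - A1 a B lam t u = (t' - t) • D1 a B u := by
  funext α y
  have e : ∀ t : ℝ, ∑ i, ∑ j, ((1 - t) * (if i = j then 1 else 0) + t * a i j y) *
      pd i (pd j (u α)) y = (1 - t) * P2 one (u α) y + t * P2 a (u α) y := fun t => by
    simp only [P2, one, Finset.sum_apply, Pi.mul_apply, Finset.mul_sum, ← Finset.sum_add_distrib]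
    exact Finset.sum_congr rfl fun i _ => Finset.sum_congr rfl fun j _ => by ring
  simp only [A1, LV, Lsc, D1, Pi.sub_apply, Pi.add_apply, Pi.smul_apply, Pi.neg_apply, e,
    smul_eq_mul]
  ring

omit l0 in
theorem start (ou : OuStmt) (s : ℕ) (δ : ℝ) : ∃ l₁ : ℝ, ∀ lam, l₁ ≤ lam →
    ∀ (a : Fin 4 → Fin 4 → Pt → ℝ) (B : (ι → Pt → ℝ) → ι → Pt → ℝ),
      Dens (Adm σ) (NV s δ) (A1 a B lam 0) := by
  classical
  obtain ⟨l₁, h⟩ := ou s δ
  refine ⟨l₁, fun lam hlam a B F hF η hη => ?_⟩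
  have hη' : 0 < η / (Fintype.card ι + 1) := by positivity
  choose! g hg using fun f hf => h lam hlam f hf _ hη'
  refine ⟨fun α => g (F α), ⟨fun α => (hg _ (hF.1 α)).1, fun α => congrArg g (hF.2 α)⟩, ?_⟩
  have e : ∀ α, (A1 a B lam 0 (fun α => g (F α)) - F) α =
      Lsc (fun i j _ => if i = j then 1 else 0) lam (g (F α)) - F α := fun α => by
    simp [A1, LV]
  calc NV s δ (A1 a B lam 0 (fun α => g (F α)) - F)
      ≤ ∑ _α : ι, η / (Fintype.card ι + 1) :=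
        Finset.sum_le_sum fun α _ => by rw [e]; exact (hg _ (hF.1 α)).2
    _ ≤ η := by
        rw [Finset.sum_const, Finset.card_univ, nsmul_eq_mul, mul_div_assoc',
          div_le_iff₀ (by positivity)]
        nlinarith

theorem first (b1 : B1Stmt) (pr : ProdFacts) (apr : AprStmt) (ou : OuStmt) (hδ : |δ| ≤ 1)
    (hK : 2 ≤ K) (h : LinOp σ δ K a B) (s : ℕ) :
    ∃ l₁ : ℝ, ∀ lam, l₁ ≤ lam → Dens (Adm σ) (NV s δ) (LV a B lam) := by
  obtain ⟨p, hp⟩ := apr ι σ δ hδ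
  obtain ⟨-, -, h3⟩ := hp K a B hK h
  obtain ⟨l₁, C, hC⟩ := h3 s
  obtain ⟨l₂, h2⟩ := start (σ := σ) ou s δ
  obtain ⟨D, hD0, hD⟩ := d1_bd l0 b1 pr h s
  refine ⟨max l₁ l₂, fun lam hlam => ?_⟩
  have key := path (sem (σ := σ) l0 s δ) (A1 a B lam) (fun t => op_lv l0
    (fun i j => contDiff_const.add (contDiff_const.mul (smooth_a h i j)))
    ⟨fun u hu => adm_smul t (h.adm u hu), fun u v hu hv => by rw [h.add u v hu hv, smul_add]⟩ lam)
    (D * C) (fun t ht t' u hu => ?_) (h2 lam (le_of_max_le_right hlam) a B)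
  · have e : A1 a B lam 1 = LV a B lam := by simp [A1]
    rwa [e] at key
  · rw [a1_sub, nv_smul l0 s δ _ (hD u hu).1]
    have h4 : XV s δ u ≤ C * NV s δ (A1 a B lam t u) := hC t ht lam (le_of_max_le_left hlam) u hu
    have h5 := (hD u hu).2.trans (mul_le_mul_of_nonneg_left h4 hD0)
    have h6 := mul_le_mul_of_nonneg_left h5 (abs_nonneg (t' - t))
    linarith

end Vector

end Dr

open Dr in
theorem dr (b1 : B1Stmt) (l0 : L0Facts) (pr : ProdFacts) (apr : AprStmt) (ou : OuStmt) :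
    DrStmt := by
  intro ι _ σ δ K l₀ a B _ hδ hK h hl mp s hs
  obtain ⟨l₁, h1⟩ := first l0 b1 pr apr ou hδ hK h s
  obtain ⟨C, hC0, hC⟩ := unif l0 apr hδ hK h hl mp s hs
  have hL : 0 ≤ max l₁ l₀ - l₀ := sub_nonneg.2 (le_max_right _ _)
  have key := path (sem (σ := σ) l0 s δ) (fun t => LV a B (l₀ + (1 - t) * (max l₁ l₀ - l₀)))
    (fun t => op_lv l0 (smooth_a h) ⟨h.adm, h.add⟩ _) ((max l₁ l₀ - l₀) * C)
    (fun t ht t' u hu => ?_) (h1 _ (by simp))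
  · rw [sub_self, zero_mul, add_zero] at key
    exact key
  · have e : LV a B (l₀ + (1 - t') * (max l₁ l₀ - l₀)) u -
        LV a B (l₀ + (1 - t) * (max l₁ l₀ - l₀)) u = ((t' - t) * (max l₁ l₀ - l₀)) • u := by
      funext α y
      simp only [LV, Lsc, Pi.sub_apply, Pi.add_apply, Pi.smul_apply, smul_eq_mul]
      ring
    have h2 : NV s δ u ≤ XV s δ u :=
      Finset.sum_le_sum fun α _ => yn_le l0 (Nat.le_add_right s 2) (fun _ _ => le_rfl) (hu.1 α)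
    have h3 := h2.trans (hC _ (le_add_of_nonneg_right
      (mul_nonneg (sub_nonneg.2 ht.2) hL)) u hu)
    rw [e, nv_smul l0 s δ _ hu, abs_mul, abs_of_nonneg hL]
    have h4 := mul_le_mul_of_nonneg_left h3 (mul_nonneg (abs_nonneg (t' - t)) hL)
    linarith

end Pool.Agent.Lib.MP_df9110_gt
end
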