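import Pool.Agent.Lib.MP_df9110_gt.NFormS

/-! General lemmas on the formal solution: weighted classes, naturality under homomorphisms of
differential algebras with exponential, and weights of all derived quantities. -/

set_option linter.unusedSectionVars false
set_option linter.unusedVariables false
set_option linter.unusedSimpArgs false

namespace Pool.Agent.Lib.MP_df9110_gt

open Filter

/-! ### Weighted classes -/

namespace WR

variable {R W : Type} [CommRing R] [Algebra ℝ R] [CommMonoid W] {D : Fin 2 → R → R}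
  {E Lg : R → R} {P : W → R → Prop} {Pos : R → Prop} {Sml : W → Prop} (h : WR D E Lg P Pos Sml)
include h

theorem isExp : IsExp D E := ⟨h.E_add, h.E_zero, h.E_der⟩
theorem neg {w : W} {a : R} (ha : P w a) : P w (-a) := by simpa using h.smul (-1) ha
theorem sub {w : W} {a b : R} (ha : P w a) (hb : P w b) : P w (a - b) := by
  rw [sub_eq_add_neg]; exact h.add ha (h.neg hb)
theorem sum {ι : Type} {w : W} (s : Finset ι) {f : ι → R} (hf : ∀ i ∈ s, P w (f i)) :
    P w (∑ i ∈ s, f i) :=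
  Finset.sum_induction f (P w) (fun _ _ => h.add) (h.zero w) hf
theorem mul1 {w : W} {a b : R} (ha : P 1 a) (hb : P w b) : P w (a * b) := by
  simpa using h.mul ha hb
theorem mul1' {w : W} {a b : R} (ha : P w a) (hb : P 1 b) : P w (a * b) := by
  simpa using h.mul ha hb
theorem mul11 {a b : R} (ha : P 1 a) (hb : P 1 b) : P 1 (a * b) := h.mul1 ha hb
theorem algebraMap (c : ℝ) : P 1 (algebraMap ℝ R c) := by
  rw [Algebra.algebraMap_eq_smul_one]; exact h.smul c h.one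
theorem natCast (n : ℕ) : P 1 (n : R) := by simpa using h.algebraMap n
theorem ofNat (n : ℕ) [n.AtLeastTwo] : P 1 (OfNat.ofNat n : R) := h.natCast n
theorem sq {w : W} {a : R} (ha : P w a) : P (w * w) (a ^ 2) := by
  rw [pow_two]; exact h.mul ha ha
theorem pow {w : W} {a : R} (ha : P w a) (n : ℕ) : P (w ^ n) (a ^ n) := by
  induction n with
  | zero => simpa using h.one
  | succ n ih => rw [pow_succ, pow_succ]; exact h.mul ih ha
theorem pow1 {a : R} {n : ℕ} (ha : P 1 a) : P 1 (a ^ n) := by simpa using h.pow ha n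
theorem E1 {a : R} (ha : P 1 a) : P 1 (E a) := (h.E_bd ha).1
theorem E_neg (a : R) : E a * E (-a) = 1 := by rw [← h.E_add, add_neg_cancel, h.E_zero]
theorem E_neg' (a : R) : E (-a) * E a = 1 := by rw [mul_comm, h.E_neg]
theorem E_sub' (a b : R) : E (a - b) = E a * E (-b) := by rw [sub_eq_add_neg, h.E_add]
theorem congr {w w' : W} {a : R} (ha : P w a) (hw : w = w') : P w' a := hw ▸ ha
theorem sml' {w v : W} {a : R} (hv : Sml v) (ha : P (v * w) a) : P w a :=
  h.sml hv (h.congr ha (mul_comm _ _))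
theorem to_one {w : W} {a : R} (hw : Sml w) (ha : P w a) : P 1 a :=
  h.sml hw (h.congr ha (one_mul _).symm)

/-- The difference of two exponentials. -/
theorem E_diff {w : W} {p q : R} (hw : Sml w) (hp : P 1 p) (hd : P w (q - p)) :
    P w (E q - E p) := by
  have e : E q - E p = E p * (E (q - p) - 1) := by
    rw [mul_sub, ← h.E_add, add_sub_cancel, mul_one]
  rw [e]; exact h.mul1 (h.E1 hp) (h.E_sub hw hd).1

/-- The difference of two logarithms. -/
theorem Lg_diff {w : W} {p q : R} (hw : Sml w) (hp : Pos p) (hq : Pos q) (hL : P 1 (Lg p))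
    (hd : P w (q - p)) : P w (Lg q - Lg p) := by
  have hb := h.E_bd (h.neg hL)
  have e : Lg q - Lg p = Lg (q * E (-Lg p)) := by
    conv_rhs => rw [← h.E_Lg hq, ← h.E_sub', h.Lg_E]
  have e' : q * E (-Lg p) - 1 = (q - p) * E (-Lg p) := by
    have := h.E_neg (Lg p)
    rw [h.E_Lg hp] at this
    rw [sub_mul, this]
  rw [e]
  refine h.Lg_sub hw (h.pos_mul hq hb.2) ?_
  rw [e']; exact h.mul1' hd hb.1

theorem pair {v : W} (hv : Sml v) :
    WR (pairD D) (pairE E) (pairE Lg) (pairP P v) (pairPos Pos) Sml where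
  der :=
    { add := fun i a b => Prod.ext (h.der.add i _ _) (h.der.add i _ _)
      mul := fun i a b => Prod.ext (h.der.mul i _ _) (h.der.mul i _ _)
      smul := fun i c a => Prod.ext (h.der.smul i c _) (h.der.smul i c _)
      comm := fun i j a => Prod.ext (h.der.comm i j _) (h.der.comm i j _) }
  zero w := ⟨h.zero _, by simpa using h.zero _⟩
  one := ⟨h.one, by simpa using h.zero _⟩
  add {w a b} ha hb := ⟨h.add ha.1 hb.1, by
    have e : (a + b).2 - (a + b).1 = (a.2 - a.1) + (b.2 - b.1) := by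
      simp only [Prod.fst_add, Prod.snd_add]; ring
    rw [e]; exact h.add ha.2 hb.2⟩
  smul {w a} c ha := ⟨h.smul c ha.1, by
    have e : (c • a).2 - (c • a).1 = c • (a.2 - a.1) := by
      simp only [Prod.smul_fst, Prod.smul_snd, smul_sub]
    rw [e]; exact h.smul c ha.2⟩
  mul {w w' a b} ha hb := ⟨h.mul ha.1 hb.1, by
    have e : (a * b).2 - (a * b).1 =
        a.1 * (b.2 - b.1) + (a.2 - a.1) * b.1 + (a.2 - a.1) * (b.2 - b.1) := by
      simp only [Prod.fst_mul, Prod.snd_mul]; ring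
    rw [e]
    refine h.add (h.add (h.congr (h.mul ha.1 hb.2) (by ac_rfl))
      (h.congr (h.mul ha.2 hb.1) (by ac_rfl))) (h.sml hv (h.congr (h.mul ha.2 hb.2) (by ac_rfl)))⟩
  pD {w a} i ha := ⟨h.pD i ha.1, by
    have e : (pairD D i a).2 - (pairD D i a).1 = D i (a.2 - a.1) := (h.der.sub i _ _).symm
    rw [e]; exact h.pD i ha.2⟩
  sml {w u a} hu ha := ⟨h.sml hu ha.1, h.sml hu (h.congr ha.2 (by ac_rfl))⟩
  sml_one := h.sml_one
  sml_mul := h.sml_mul
  E_add a b := Prod.ext (h.E_add _ _) (h.E_add _ _)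
  E_zero := Prod.ext h.E_zero h.E_zero
  E_der a i := Prod.ext (h.E_der _ i) (h.E_der _ i)
  E_bd {a} ha := by
    have h2 : P 1 a.2 := by
      have := h.add ha.1 (h.sml hv ha.2)
      rwa [add_sub_cancel] at this
    exact ⟨⟨h.E1 ha.1, h.E_diff (h.sml_mul h.sml_one hv) ha.1 ha.2⟩, (h.E_bd ha.1).2,
      (h.E_bd h2).2⟩
  E_sub {w a} hw ha := by
    have h1 := h.to_one hw ha.1
    have hs := h.sml_mul hw hv
    refine ⟨⟨(h.E_sub hw ha.1).1, ?_⟩, (h.E_sub hw ha.1).2, ?_⟩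
    · have e : (pairE E a - 1).2 - (pairE E a - 1).1 = E a.2 - E a.1 := by
        simp only [pairE, Prod.fst_sub, Prod.snd_sub, Prod.fst_one, Prod.snd_one]; ring
      rw [e]; exact h.E_diff hs h1 ha.2
    · have e0 : E a.2 = E a.1 * E (a.2 - a.1) := by rw [← h.E_add, add_sub_cancel]
      have e : (pairE E a - 1 - a).2 - (pairE E a - 1 - a).1 =
          E a.1 * (E (a.2 - a.1) - 1 - (a.2 - a.1)) + (E a.1 - 1) * (a.2 - a.1) := by
        simp only [pairE, Prod.fst_sub, Prod.snd_sub, Prod.fst_one, Prod.snd_one]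
        linear_combination e0
      rw [e]
      exact h.add (h.mul1 (h.E1 h1) (h.sml hv (h.congr (h.E_sub hs ha.2).2 (by ac_rfl))))
        (h.congr (h.mul (h.E_sub hw ha.1).1 ha.2) (by ac_rfl))
  Lg_E a := Prod.ext (h.Lg_E _) (h.Lg_E _)
  E_Lg hb := Prod.ext (h.E_Lg hb.1) (h.E_Lg hb.2)
  Lg_bd {b} hp hb := ⟨h.Lg_bd hp.1 hb.1,
    h.Lg_diff (h.sml_mul h.sml_one hv) hp.1 hp.2 (h.Lg_bd hp.1 hb.1) hb.2⟩
  Lg_sub {w b} hw hp hb := by
    have h1 : P w (Lg b.1) := h.Lg_sub hw hp.1 hb.1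
    refine ⟨h1, h.Lg_diff (h.sml_mul hw hv) hp.1 hp.2 (h.to_one hw h1) ?_⟩
    have e : b.2 - b.1 = (b - 1).2 - (b - 1).1 := by
      simp only [Prod.fst_sub, Prod.snd_sub, Prod.fst_one, Prod.snd_one]; ring
    rw [e]; exact hb.2
  pos_mul ha hb := ⟨h.pos_mul ha.1 hb.1, h.pos_mul ha.2 hb.2⟩

/-- The second component of a pair in a class. -/
theorem pair_snd {v w : W} (hv : Sml v) {z : R × R} (hz : pairP P v w z) : P w z.2 := by
  have := h.add hz.1 (h.sml hv hz.2)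
  rwa [add_sub_cancel] at this

/-- A constant pair. -/
theorem pair_diag {v w : W} {a : R} (ha : P w a) : pairP P v w (a, a) :=
  ⟨ha, by simpa using h.zero _⟩

/-- The elements of weight one. -/
def sub1 : Subalgebra ℝ R where
  carrier := {a | P 1 a}
  mul_mem' := h.mul11
  add_mem' := h.add
  algebraMap_mem' := h.algebraMap

def sD (i : Fin 2) (a : h.sub1) : h.sub1 := ⟨D i a.1, h.pD i a.2⟩
def sE (a : h.sub1) : h.sub1 := ⟨E a.1, h.E1 a.2⟩
def sπ : h.sub1 →ₐ[ℝ] R := h.sub1.val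
theorem hD (i : Fin 2) (a : h.sub1) : h.sπ (h.sD i a) = D i (h.sπ a) := rfl
theorem hE (a : h.sub1) : h.sπ (h.sE a) = E (h.sπ a) := rfl
theorem of_eq {a : R} {x : h.sub1} (e : a = h.sπ x) : P 1 a := e ▸ x.2

end WR

theorem wr_SG (b2 : B2Stmt) {I : Type} (l : Filter (I × En 2)) [OpF l] :
    WR (gD (l := l)) expG logG (PG 1) PosG (fun w => WLe l w 1) := by
  have b := b2 I 2 l 1 fun _ => zero_le_one
  exact
  { der := isDer_gD
    zero := b.zero
    one := b.one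
    add := b.add
    smul := b.smul
    mul := b.mul
    pD := fun i ha => by simpa only [mul_one] using b.der i ha
    sml := fun {w v a} ⟨C, hC⟩ ha => b.mono ha ⟨C, by
      filter_upwards [hC] with z hz
      rw [Pi.mul_apply, abs_mul, mul_comm C]
      exact mul_le_mul_of_nonneg_left (by simpa using hz) (abs_nonneg _)⟩
    sml_one := ⟨1, Eventually.of_forall fun z => by simp⟩
    sml_mul := fun {v w} ⟨C, hC⟩ ⟨C', hC'⟩ => ⟨C * C', by
      filter_upwards [hC, hC'] with z h1 h2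
      simp only [Pi.one_apply, abs_one, mul_one] at h1 h2 ⊢
      rw [Pi.mul_apply, abs_mul]
      exact mul_le_mul h1 h2 (abs_nonneg _) ((abs_nonneg _).trans h1)⟩
    E_add := b.exp_add
    E_zero := b.exp_zero
    E_der := b.exp_der
    E_bd := b.exp_bd
    E_sub := b.exp_sub
    Lg_E := b.log_exp
    E_Lg := b.exp_log
    Lg_bd := b.log_bd
    Lg_sub := b.log_sub
    pos_mul := b.pos_mul }

/-! ### Naturality -/

def Blk.map {R S : Type} (B : Blk R) (π : R → S) : Blk S :=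
  ⟨π B.a, π B.ai, π B.C, π B.Ci, π B.F₁, π B.F₁i, π B.F₂, π B.F₂i, π B.β, π B.f₁, π B.f₂⟩

def Out.All {R : Type} (O : Out R) (Q : R → Prop) : Prop :=
  Q O.ε ∧ Q O.μ ∧ Q O.la ∧ Q O.bp ∧ Q O.lc ∧ Q O.u₁ ∧ Q O.u₂

section Fields

variable {R S : Type} (π : R → S)

@[simp] theorem Out.map_ε (O : Out R) : (O.map π).ε = π O.ε := rfl
@[simp] theorem Out.map_μ (O : Out R) : (O.map π).μ = π O.μ := rfl
@[simp] theorem Out.map_la (O : Out R) : (O.map π).la = π O.la := rfl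
@[simp] theorem Out.map_bp (O : Out R) : (O.map π).bp = π O.bp := rfl
@[simp] theorem Out.map_lc (O : Out R) : (O.map π).lc = π O.lc := rfl
@[simp] theorem Out.map_u₁ (O : Out R) : (O.map π).u₁ = π O.u₁ := rfl
@[simp] theorem Out.map_u₂ (O : Out R) : (O.map π).u₂ = π O.u₂ := rfl
@[simp] theorem Lay.map_ε (G : Lay R) : (G.map π).ε = π G.ε := rfl
@[simp] theorem Lay.map_s0 (G : Lay R) : (G.map π).s0 = π G.s0 := rfl
@[simp] theorem Lay.map_y (G : Lay R) : (G.map π).y = π G.y := rfl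
@[simp] theorem Lay.map_yp (G : Lay R) : (G.map π).yp = π G.yp := rfl
@[simp] theorem Lay.map_et (G : Lay R) : (G.map π).et = π G.et := rfl
@[simp] theorem Lay.map_d (G : Lay R) : (G.map π).d = π G.d := rfl
@[simp] theorem Lay.map_chi (G : Lay R) : (G.map π).chi = π G.chi := rfl
@[simp] theorem Lay.map_L (G : Lay R) : (G.map π).L = π G.L := rfl
@[simp] theorem Lay.map_la (G : Lay R) : (G.map π).la = π G.la := rfl
@[simp] theorem Lay.map_bp (G : Lay R) : (G.map π).bp = π G.bp := rfl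
@[simp] theorem Lay.map_lc (G : Lay R) : (G.map π).lc = π G.lc := rfl
@[simp] theorem Lay.map_uw (G : Lay R) : (G.map π).uw = π G.uw := rfl
@[simp] theorem Lay.map_uo (G : Lay R) : (G.map π).uo = π G.uo := rfl
@[simp] theorem Lay.map_lam (G : Lay R) : (G.map π).lam = π G.lam := rfl
@[simp] theorem Lay.map_gam (G : Lay R) : (G.map π).gam = π G.gam := rfl
@[simp] theorem Lay.map_nu (G : Lay R) : (G.map π).nu = π G.nu := rfl
@[simp] theorem Lay.map_w1 (G : Lay R) : (G.map π).w1 = π G.w1 := rfl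
@[simp] theorem Lay.map_w2 (G : Lay R) : (G.map π).w2 = π G.w2 := rfl
@[simp] theorem Lay.map_rho (G : Lay R) : (G.map π).rho = π G.rho := rfl
@[simp] theorem Lay.map_xi1 (G : Lay R) : (G.map π).xi1 = π G.xi1 := rfl
@[simp] theorem Lay.map_lq (G : Lay R) : (G.map π).lq = π G.lq := rfl
@[simp] theorem Lay.map_lAo (G : Lay R) : (G.map π).lAo = π G.lAo := rfl
@[simp] theorem Lay.map_leh (G : Lay R) : (G.map π).leh = π G.leh := rfl
@[simp] theorem Blk.map_a (B : Blk R) : (B.map π).a = π B.a := rfl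
@[simp] theorem Blk.map_ai (B : Blk R) : (B.map π).ai = π B.ai := rfl
@[simp] theorem Blk.map_C (B : Blk R) : (B.map π).C = π B.C := rfl
@[simp] theorem Blk.map_Ci (B : Blk R) : (B.map π).Ci = π B.Ci := rfl
@[simp] theorem Blk.map_F₁ (B : Blk R) : (B.map π).F₁ = π B.F₁ := rfl
@[simp] theorem Blk.map_F₁i (B : Blk R) : (B.map π).F₁i = π B.F₁i := rfl
@[simp] theorem Blk.map_F₂ (B : Blk R) : (B.map π).F₂ = π B.F₂ := rfl
@[simp] theorem Blk.map_F₂i (B : Blk R) : (B.map π).F₂i = π B.F₂i := rfl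
@[simp] theorem Blk.map_β (B : Blk R) : (B.map π).β = π B.β := rfl
@[simp] theorem Blk.map_f₁ (B : Blk R) : (B.map π).f₁ = π B.f₁ := rfl
@[simp] theorem Blk.map_f₂ (B : Blk R) : (B.map π).f₂ = π B.f₂ := rfl

theorem Gen.vec4 (a b c d : R) (i : Fin 4) : π (![a, b, c, d] i) = ![π a, π b, π c, π d] i := by
  fin_cases i <;> rfl
theorem Gen.vec5 (a b c d e : R) (i : Fin 5) :
    π (![a, b, c, d, e] i) = ![π a, π b, π c, π d, π e] i := by
  fin_cases i <;> rfl
theorem Gen.vec8 (a b c d e f g k : R) (i : Fin 8) :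
    π (![a, b, c, d, e, f, g, k] i) = ![π a, π b, π c, π d, π e, π f, π g, π k] i := by
  fin_cases i <;> rfl
theorem Gen.mat4 (a b c d a' b' c' d' x y z t x' y' z' t' : R) (i j : Fin 4) :
    π (![![a, b, c, d], ![a', b', c', d'], ![x, y, z, t], ![x', y', z', t']] i j) =
      ![![π a, π b, π c, π d], ![π a', π b', π c', π d'], ![π x, π y, π z, π t],
        ![π x', π y', π z', π t']] i j := by
  fin_cases i <;> exact Gen.vec4 π _ _ _ _ j
theorem Gen.all5 (Q : R → Prop) {a b c d e : R} (ha : Q a) (hb : Q b) (hc : Q c) (hd : Q d)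
    (he : Q e) (i : Fin 5) : Q (![a, b, c, d, e] i) := by
  fin_cases i <;> assumption
theorem Gen.all8 (Q : R → Prop) {a b c d e f g k : R} (ha : Q a) (hb : Q b) (hc : Q c) (hd : Q d)
    (he : Q e) (hf : Q f) (hg : Q g) (hk : Q k) (i : Fin 8) :
    Q (![a, b, c, d, e, f, g, k] i) := by
  fin_cases i <;> assumption

variable {O : Out R} {G : Lay R} {Q : R → Prop}

theorem Out.All.ε (h : O.All Q) : Q O.ε := h.1
theorem Out.All.μ (h : O.All Q) : Q O.μ := h.2.1
theorem Out.All.la (h : O.All Q) : Q O.la := h.2.2.1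
theorem Out.All.bp (h : O.All Q) : Q O.bp := h.2.2.2.1
theorem Out.All.lc (h : O.All Q) : Q O.lc := h.2.2.2.2.1
theorem Out.All.u₁ (h : O.All Q) : Q O.u₁ := h.2.2.2.2.2.1
theorem Out.All.u₂ (h : O.All Q) : Q O.u₂ := h.2.2.2.2.2.2
theorem Lay.All.ε (h : G.All Q) : Q G.ε := h.1
theorem Lay.All.s0 (h : G.All Q) : Q G.s0 := h.2.1
theorem Lay.All.y (h : G.All Q) : Q G.y := h.2.2.1
theorem Lay.All.yp (h : G.All Q) : Q G.yp := h.2.2.2.1
theorem Lay.All.et (h : G.All Q) : Q G.et := h.2.2.2.2.1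
theorem Lay.All.d (h : G.All Q) : Q G.d := h.2.2.2.2.2.1
theorem Lay.All.chi (h : G.All Q) : Q G.chi := h.2.2.2.2.2.2.1
theorem Lay.All.L (h : G.All Q) : Q G.L := h.2.2.2.2.2.2.2.1
theorem Lay.All.la (h : G.All Q) : Q G.la := h.2.2.2.2.2.2.2.2.1
theorem Lay.All.bp (h : G.All Q) : Q G.bp := h.2.2.2.2.2.2.2.2.2.1
theorem Lay.All.lc (h : G.All Q) : Q G.lc := h.2.2.2.2.2.2.2.2.2.2.1
theorem Lay.All.uw (h : G.All Q) : Q G.uw := h.2.2.2.2.2.2.2.2.2.2.2.1
theorem Lay.All.uo (h : G.All Q) : Q G.uo := h.2.2.2.2.2.2.2.2.2.2.2.2.1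
theorem Lay.All.lam (h : G.All Q) : Q G.lam := h.2.2.2.2.2.2.2.2.2.2.2.2.2.1
theorem Lay.All.gam (h : G.All Q) : Q G.gam := h.2.2.2.2.2.2.2.2.2.2.2.2.2.2.1
theorem Lay.All.nu (h : G.All Q) : Q G.nu := h.2.2.2.2.2.2.2.2.2.2.2.2.2.2.2.1
theorem Lay.All.w1 (h : G.All Q) : Q G.w1 := h.2.2.2.2.2.2.2.2.2.2.2.2.2.2.2.2.1
theorem Lay.All.w2 (h : G.All Q) : Q G.w2 := h.2.2.2.2.2.2.2.2.2.2.2.2.2.2.2.2.2.1
theorem Lay.All.rho (h : G.All Q) : Q G.rho := h.2.2.2.2.2.2.2.2.2.2.2.2.2.2.2.2.2.2.1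
theorem Lay.All.xi1 (h : G.All Q) : Q G.xi1 := h.2.2.2.2.2.2.2.2.2.2.2.2.2.2.2.2.2.2.2.1
theorem Lay.All.lq (h : G.All Q) : Q G.lq := h.2.2.2.2.2.2.2.2.2.2.2.2.2.2.2.2.2.2.2.2.1
theorem Lay.All.lAo (h : G.All Q) : Q G.lAo := h.2.2.2.2.2.2.2.2.2.2.2.2.2.2.2.2.2.2.2.2.2.1
theorem Lay.All.leh (h : G.All Q) : Q G.leh := h.2.2.2.2.2.2.2.2.2.2.2.2.2.2.2.2.2.2.2.2.2.2
theorem Out.All.swap (h : O.All Q) : O.swap.All Q := ⟨h.ε, h.μ, h.la, h.bp, h.lc, h.u₂, h.u₁⟩

def Gen.pairOut (O O' : Out R) : Out (R × R) :=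
  ⟨(O.ε, O'.ε), (O.μ, O'.μ), (O.la, O'.la), (O.bp, O'.bp), (O.lc, O'.lc), (O.u₁, O'.u₁), (O.u₂, O'.u₂)⟩
def Gen.pairLay (G G' : Lay R) : Lay (R × R) :=
  ⟨(G.ε, G'.ε), (G.s0, G'.s0), (G.y, G'.y), (G.yp, G'.yp), (G.et, G'.et), (G.d, G'.d), (G.chi, G'.chi), (G.L,
      G'.L), (G.la, G'.la), (G.bp, G'.bp), (G.lc, G'.lc), (G.uw, G'.uw), (G.uo, G'.uo), (G.lam, G'.lam), (G.gam,
      G'.gam), (G.nu, G'.nu), (G.w1, G'.w1), (G.w2, G'.w2), (G.rho, G'.rho), (G.xi1, G'.xi1), (G.lq, G'.lq),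
      (G.lAo, G'.lAo), (G.leh, G'.leh)⟩
theorem Gen.pairOut_fst (O O' : Out R) : (Gen.pairOut O O').map Prod.fst = O := rfl
theorem Gen.pairOut_snd (O O' : Out R) : (Gen.pairOut O O').map Prod.snd = O' := rfl
theorem Gen.pairLay_fst (G G' : Lay R) : (Gen.pairLay G G').map Prod.fst = G := rfl
theorem Gen.pairLay_snd (G G' : Lay R) : (Gen.pairLay G G').map Prod.snd = G' := rfl

end Fields

section Map

variable {R S : Type} [CommRing R] [Algebra ℝ R] [CommRing S] [Algebra ℝ S]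
  {D : Fin 2 → R → R} {E : R → R} {D' : Fin 2 → S → S} {E' : S → S} (π : R →ₐ[ℝ] S)
  (hD : ∀ i a, π (D i a) = D' i (π a)) (hE : ∀ a, π (E a) = E' (π a))

theorem Blk.Ok.map {B : Blk R} (h : B.Ok) : (B.map π).Ok :=
  ⟨by simpa using congrArg π h.ha, by simpa using congrArg π h.hC,
    by simpa using congrArg π h.h₁, by simpa using congrArg π h.h₂⟩

include hD

theorem map_ext4 (i : Fin 4) (a : R) : π (ext4 D i a) = ext4 D' i (π a) := by
  fin_cases i
  exacts [hD 0 a, hD 1 a, map_zero π, map_zero π]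

theorem Blk.map_T (B : Blk R) (f : R) : (B.map π).T D' (π f) = π (B.T D f) := by
  simp only [Blk.T, map_add, map_mul, hD, Blk.map_β]
theorem Blk.map_ta (B : Blk R) : (B.map π).ta D' = π (B.ta D) := by
  simp only [Blk.ta, map_mul, ← Blk.map_T π hD, Blk.map_a, Blk.map_ai]
theorem Blk.map_tc (B : Blk R) : (B.map π).tc D' = π (B.tc D) := by
  simp only [Blk.tc, map_mul, ← Blk.map_T π hD, Blk.map_C, Blk.map_Ci]
theorem Blk.map_xa (B : Blk R) : (B.map π).xa D' = π (B.xa D) := by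
  simp only [Blk.xa, map_mul, hD, Blk.map_a, Blk.map_ai]
theorem Blk.map_xc (B : Blk R) : (B.map π).xc D' = π (B.xc D) := by
  simp only [Blk.xc, map_mul, hD, Blk.map_C, Blk.map_Ci]
theorem Blk.map_t₁ (B : Blk R) : (B.map π).t₁ D' = π (B.t₁ D) := by
  simp only [Blk.t₁, map_mul, map_smul, ← Blk.map_T π hD, Blk.map_F₁, Blk.map_F₁i]
theorem Blk.map_t₂ (B : Blk R) : (B.map π).t₂ D' = π (B.t₂ D) := by
  simp only [Blk.t₂, map_mul, map_smul, ← Blk.map_T π hD, Blk.map_F₂, Blk.map_F₂i]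
theorem Blk.map_x₁ (B : Blk R) : (B.map π).x₁ D' = π (B.x₁ D) := by
  simp only [Blk.x₁, map_mul, map_smul, hD, Blk.map_F₁, Blk.map_F₁i]
theorem Blk.map_x₂ (B : Blk R) : (B.map π).x₂ D' = π (B.x₂ D) := by
  simp only [Blk.x₂, map_mul, map_smul, hD, Blk.map_F₂, Blk.map_F₂i]
theorem Blk.map_j (B : Blk R) : (B.map π).j D' = π (B.j D) := by
  simp only [Blk.j, map_sub, map_smul, hD, ← Blk.map_tc π hD, Blk.map_β]
theorem Blk.map_l (B : Blk R) : (B.map π).l D' = π (B.l D) := by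
  simp only [Blk.l, map_smul, ← Blk.map_xa π hD]
theorem Blk.map_K (B : Blk R) : (B.map π).K D' = π (B.K D) := by
  simp only [Blk.K, map_add, map_sub, map_mul, map_smul, map_pow, hD, ← Blk.map_T π hD, ← Blk.map_j π hD, ←
      Blk.map_ta π hD, ← Blk.map_l π hD, ← Blk.map_xc π hD, Blk.map_a, Blk.map_C]
theorem Blk.map_H11 (B : Blk R) (t : R) (x : R) : (B.map π).H11 D' (π t) (π x) = π (B.H11 D t x) := by
  simp only [Blk.H11, map_add, map_sub, map_mul, map_smul, ← Blk.map_T π hD, ← Blk.map_ta π hD, ← Blk.map_l π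
      hD, Blk.map_a, Blk.map_C]
theorem Blk.map_H22 (B : Blk R) (t : R) (x : R) : (B.map π).H22 D' (π t) (π x) = π (B.H22 D t x) := by
  simp only [Blk.H22, map_add, map_sub, map_mul, map_smul, hD, ← Blk.map_xc π hD, ← Blk.map_j π hD, Blk.map_C,
      Blk.map_a]
theorem Blk.map_H12 (B : Blk R) (t : R) (x : R) : (B.map π).H12 D' (π t) (π x) = π (B.H12 D t x) := by
  simp only [Blk.H12, map_add, map_mul, map_smul, ← Blk.map_T π hD, ← Blk.map_tc π hD, ← Blk.map_l π hD]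
theorem Blk.map_y₁ (B : Blk R) : (B.map π).y₁ D' = π (B.y₁ D) := by
  simp only [Blk.y₁, map_sub, ← Blk.map_t₁ π hD, ← Blk.map_t₂ π hD, Blk.map_f₁]
theorem Blk.map_y₂ (B : Blk R) : (B.map π).y₂ D' = π (B.y₂ D) := by
  simp only [Blk.y₂, map_sub, ← Blk.map_x₁ π hD, ← Blk.map_x₂ π hD, Blk.map_f₂]
theorem Blk.map_Xa (B : Blk R) (t : R) (x : R) : (B.map π).Xa D' (π t) (π x) = π (B.Xa D t x) := by
  simp only [Blk.Xa, map_add, map_mul, ← Blk.map_y₁ π hD, ← Blk.map_y₂ π hD, Blk.map_a, Blk.map_C]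
theorem Blk.map_lap (B : Blk R) (t : R) (x : R) : (B.map π).lap D' (π t) (π x) = π (B.lap D t x) := by
  simp only [Blk.lap, map_add, map_sub, ← Blk.map_H11 π hD, ← Blk.map_H22 π hD, ← Blk.map_Xa π hD]
theorem Blk.map_e₁ (B : Blk R) : (B.map π).e₁ D' = π (B.e₁ D) := by
  simp only [Blk.e₁, map_sub, map_smul, map_one, ← Blk.map_lap π hD, ← Blk.map_t₁ π hD, ← Blk.map_x₁ π hD]
theorem Blk.map_e₂ (B : Blk R) : (B.map π).e₂ D' = π (B.e₂ D) := by
  simp only [Blk.e₂, map_sub, map_smul, map_one, ← Blk.map_lap π hD, ← Blk.map_t₂ π hD, ← Blk.map_x₂ π hD]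
theorem Blk.map_e11 (B : Blk R) : (B.map π).e11 D' = π (B.e11 D) := by
  simp only [Blk.e11, map_add, map_sub, map_mul, map_smul, map_pow, map_one, ← Blk.map_K π hD, ← Blk.map_Xa π
      hD, ← Blk.map_ta π hD, ← Blk.map_xa π hD, ← Blk.map_T π hD, ← Blk.map_y₁ π hD, ← Blk.map_t₁ π hD, ←
      Blk.map_t₂ π hD, Blk.map_a]
theorem Blk.map_e22 (B : Blk R) : (B.map π).e22 D' = π (B.e22 D) := by
  simp only [Blk.e22, map_add, map_sub, map_mul, map_smul, map_pow, map_one, hD, ← Blk.map_K π hD, ← Blk.map_Xa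
      π hD, ← Blk.map_tc π hD, ← Blk.map_xc π hD, ← Blk.map_y₂ π hD, ← Blk.map_y₁ π hD, ← Blk.map_x₁ π hD, ←
      Blk.map_x₂ π hD, Blk.map_C, Blk.map_a, Blk.map_β]
theorem Blk.map_e12 (B : Blk R) : (B.map π).e12 D' = π (B.e12 D) := by
  simp only [Blk.e12, map_add, map_sub, map_mul, map_smul, hD, ← Blk.map_T π hD, ← Blk.map_y₂ π hD, ← Blk.map_tc
      π hD, ← Blk.map_y₁ π hD, ← Blk.map_xa π hD, ← Blk.map_t₁ π hD, ← Blk.map_x₁ π hD, ← Blk.map_t₂ π hD, ←
      Blk.map_x₂ π hD, Blk.map_β]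
theorem Blk.map_k11 (B : Blk R) (t : R) (x : R) : (B.map π).k11 D' (π t) (π x) = π (B.k11 D t x) := by
  simp only [Blk.k11, map_add, map_neg, map_mul, map_pow, ← Blk.map_H11 π hD, Blk.map_a]
theorem Blk.map_k22 (B : Blk R) (t : R) (x : R) : (B.map π).k22 D' (π t) (π x) = π (B.k22 D t x) := by
  simp only [Blk.k22, map_add, map_neg, map_mul, map_pow, ← Blk.map_H22 π hD, Blk.map_C]
theorem Blk.map_k12 (B : Blk R) (t : R) (x : R) : (B.map π).k12 D' (π t) (π x) = π (B.k12 D t x) := by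
  simp only [Blk.k12, map_add, map_neg, map_mul, ← Blk.map_H12 π hD]
theorem Blk.map_k34 (B : Blk R) : (B.map π).k34 D' = π (B.k34 D) := by
  simp only [Blk.k34, map_add, map_neg, map_mul, ← Blk.map_t₁ π hD, ← Blk.map_t₂ π hD, ← Blk.map_x₁ π hD, ←
      Blk.map_x₂ π hD, Blk.map_a, Blk.map_C]
theorem Blk.map_scal (B : Blk R) : (B.map π).scal D' = π (B.scal D) := by
  simp only [Blk.scal, map_add, map_mul, map_ofNat, ← Blk.map_K π hD, ← Blk.map_k11 π hD, ← Blk.map_t₁ π hD, ←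
      Blk.map_x₁ π hD, ← Blk.map_k22 π hD, ← Blk.map_t₂ π hD, ← Blk.map_x₂ π hD, ← Blk.map_k34 π hD]
theorem Blk.map_g (B : Blk R) (i j : Fin 4) : (B.map π).g i j = π (B.g i j) := by
  simp only [Blk.g, Gen.mat4 π, map_add, map_neg, map_mul, map_pow, map_ofNat, map_zero, Blk.map_ai, Blk.map_β,
      Blk.map_Ci, Blk.map_F₁, Blk.map_F₂]
theorem Blk.map_g' (B : Blk R) : (B.map π).g = fun i j => π (B.g i j) :=
  funext₂ (Blk.map_g π hD B)
theorem Blk.map_G (B : Blk R) (i j : Fin 4) : (B.map π).G i j = π (B.G i j) := by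
  simp only [Blk.G, Gen.mat4 π, map_add, map_mul, map_pow, map_zero, Blk.map_a, Blk.map_β, Blk.map_C,
      Blk.map_F₁i, Blk.map_F₂i]
theorem Blk.map_G' (B : Blk R) : (B.map π).G = fun i j => π (B.G i j) :=
  funext₂ (Blk.map_G π hD B)
theorem Blk.map_V (B : Blk R) (i : Fin 4) : (B.map π).V i = π (B.V i) := by
  simp only [Blk.V, Gen.vec4 π, map_add, map_mul, map_zero, Blk.map_a, Blk.map_f₁, Blk.map_β, Blk.map_C,
      Blk.map_f₂]
theorem Blk.map_V' (B : Blk R) : (B.map π).V = fun i => π (B.V i) :=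
  funext (Blk.map_V π hD B)
theorem Blk.map_fr (B : Blk R) (i j : Fin 4) : (B.map π).fr i j = π (B.fr i j) := by
  simp only [Blk.fr, Gen.mat4 π, map_one, map_zero, Blk.map_β]
theorem Blk.map_fr' (B : Blk R) : (B.map π).fr = fun i j => π (B.fr i j) :=
  funext₂ (Blk.map_fr π hD B)
theorem Blk.map_Om (B : Blk R) : (B.map π).Om D' = π (B.Om D) := by
  simp only [Blk.Om, map_add, map_sub, map_mul, hD, ← Blk.map_T π hD, Blk.map_f₂, Blk.map_f₁, Blk.map_β]
theorem Blk.map_lam₁ (B : Blk R) : (B.map π).lam₁ D' = π (B.lam₁ D) := by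
  simp only [Blk.lam₁, map_add, map_sub, map_neg, map_mul, map_smul, hD, ← Blk.map_Om π hD, ← Blk.map_l π hD, ←
      Blk.map_xc π hD, ← Blk.map_y₂ π hD, Blk.map_C]
theorem Blk.map_lam₂ (B : Blk R) : (B.map π).lam₂ D' = π (B.lam₂ D) := by
  simp only [Blk.lam₂, map_add, map_sub, map_mul, map_smul, ← Blk.map_T π hD, ← Blk.map_Om π hD, ← Blk.map_ta π
      hD, ← Blk.map_tc π hD, ← Blk.map_y₁ π hD, Blk.map_a]
theorem Blk.map_bi₁ (B : Blk R) : (B.map π).bi₁ D' = π (B.bi₁ D) := by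
  simp only [Blk.bi₁, map_add, map_sub, map_mul, map_smul, hD, ← Blk.map_T π hD, ← Blk.map_e11 π hD, ←
      Blk.map_e22 π hD, ← Blk.map_e₁ π hD, ← Blk.map_e₂ π hD, ← Blk.map_j π hD, ← Blk.map_t₁ π hD, ← Blk.map_t₂
      π hD, ← Blk.map_e12 π hD, ← Blk.map_xc π hD, ← Blk.map_l π hD, ← Blk.map_x₁ π hD, ← Blk.map_x₂ π hD,
      Blk.map_C, Blk.map_f₁, Blk.map_f₂]
theorem Blk.map_bi₂ (B : Blk R) : (B.map π).bi₂ D' = π (B.bi₂ D) := by
  simp only [Blk.bi₂, map_add, map_sub, map_mul, map_smul, map_ofNat, hD, ← Blk.map_e22 π hD, ← Blk.map_e11 π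
      hD, ← Blk.map_e₁ π hD, ← Blk.map_e₂ π hD, ← Blk.map_l π hD, ← Blk.map_x₁ π hD, ← Blk.map_x₂ π hD, ←
      Blk.map_T π hD, ← Blk.map_e12 π hD, ← Blk.map_ta π hD, ← Blk.map_tc π hD, ← Blk.map_j π hD, ← Blk.map_t₁ π
      hD, ← Blk.map_t₂ π hD, Blk.map_a, Blk.map_f₁, Blk.map_f₂]
theorem Blk.map_kv (B : Blk R) (i : Fin 8) : (B.map π).kv D' i = π (B.kv D i) := by
  simp only [Blk.kv, Gen.vec8 π, ← Blk.map_K π hD, ← Blk.map_k11 π hD, ← Blk.map_t₁ π hD, ← Blk.map_x₁ π hD, ←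
      Blk.map_k12 π hD, ← Blk.map_k22 π hD, ← Blk.map_t₂ π hD, ← Blk.map_x₂ π hD, ← Blk.map_k34 π hD]
theorem Blk.map_kv' (B : Blk R) : (B.map π).kv D' = fun i => π (B.kv D i) :=
  funext (Blk.map_kv π hD B)

include hE

theorem Out.map_swap (O : Out R) : (O.map π).swap = O.swap.map π := rfl
theorem Out.map_Dd (O : Out R) (f : R) : (O.map π).Dd D' (π f) = π (O.Dd D f) := by
  simp only [Out.Dd, map_add, map_mul, hD, Out.map_μ, Out.map_bp]
theorem Out.map_jh (O : Out R) : (O.map π).jh D' = π (O.jh D) := by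
  simp only [Out.jh, map_add, map_sub, map_mul, map_smul, map_one, hD, ← Out.map_Dd π hD hE, Out.map_lc,
      Out.map_μ, Out.map_bp]
theorem Out.map_l (O : Out R) : (O.map π).l D' = π (O.l D) := by
  simp only [Out.l, map_smul, hD, Out.map_la]
theorem Out.map_t₁ (O : Out R) : (O.map π).t₁ D' = π (O.t₁ D) := by
  simp only [Out.t₁, map_sub, map_smul, map_one, ← Out.map_Dd π hD hE, Out.map_u₁]
theorem Out.map_t₂ (O : Out R) : (O.map π).t₂ D' = π (O.t₂ D) := by
  simp only [Out.t₂, map_sub, map_smul, map_one, ← Out.map_Dd π hD hE, Out.map_u₂]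
theorem Out.map_K (O : Out R) : (O.map π).K D' E' = π (O.K D E) := by
  simp only [Out.K, map_add, map_sub, map_mul, map_smul, map_pow, map_one, map_ofNat, hD, hE, ← Out.map_Dd π hD
      hE, ← Out.map_jh π hD hE, ← Out.map_l π hD hE, Out.map_la, Out.map_lc]
theorem Out.map_k11 (O : Out R) (t : R) (s : R) : (O.map π).k11 D' E' (π t) (π s) = π (O.k11 D E t s) := by
  simp only [Out.k11, map_add, map_sub, map_neg, map_mul, map_smul, map_pow, map_one, map_ofNat, hE, ←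
      Out.map_Dd π hD hE, ← Out.map_l π hD hE, Out.map_la, Out.map_lc]
theorem Out.map_k22 (O : Out R) (t : R) (s : R) : (O.map π).k22 D' E' (π t) (π s) = π (O.k22 D E t s) := by
  simp only [Out.k22, map_add, map_sub, map_neg, map_mul, map_smul, map_pow, map_ofNat, hD, hE, ← Out.map_jh π
      hD hE, Out.map_lc, Out.map_la]
theorem Out.map_k12 (O : Out R) (t : R) (s : R) : (O.map π).k12 D' (π t) (π s) = π (O.k12 D t s) := by
  simp only [Out.k12, map_add, map_neg, map_mul, map_smul, map_one, ← Out.map_Dd π hD hE, ← Out.map_l π hD hE,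
      Out.map_lc]
theorem Out.map_k34 (O : Out R) : (O.map π).k34 D' E' = π (O.k34 D E) := by
  simp only [Out.k34, map_add, map_neg, map_mul, map_ofNat, hD, hE, ← Out.map_t₁ π hD hE, ← Out.map_t₂ π hD hE,
      Out.map_la, Out.map_lc, Out.map_u₁, Out.map_u₂]
theorem Out.map_oa (O : Out R) : (O.map π).oa D' E' = π (O.oa D E) := by
  simp only [Out.oa, map_add, hD, ← Out.map_K π hD hE, ← Out.map_k11 π hD hE, ← Out.map_t₁ π hD hE, ← Out.map_t₂
      π hD hE, Out.map_u₁, Out.map_u₂]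
theorem Out.map_ob (O : Out R) : (O.map π).ob D' E' = π (O.ob D E) := by
  simp only [Out.ob, map_add, map_neg, map_mul, map_ofNat, hD, hE, ← Out.map_k12 π hD hE, ← Out.map_t₁ π hD hE,
      ← Out.map_t₂ π hD hE, Out.map_lc, Out.map_u₁, Out.map_u₂]
theorem Out.map_oc (O : Out R) : (O.map π).oc D' E' = π (O.oc D E) := by
  simp only [Out.oc, map_add, hD, ← Out.map_K π hD hE, ← Out.map_k22 π hD hE, ← Out.map_t₁ π hD hE, ← Out.map_t₂
      π hD hE, Out.map_u₁, Out.map_u₂]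
theorem Out.map_o₁ (O : Out R) : (O.map π).o₁ D' E' = π (O.o₁ D E) := by
  simp only [Out.o₁, map_add, map_neg, hD, ← Out.map_k11 π hD hE, ← Out.map_t₁ π hD hE, ← Out.map_k22 π hD hE, ←
      Out.map_k34 π hD hE, Out.map_u₁]
theorem Out.map_o₂ (O : Out R) : (O.map π).o₂ D' E' = π (O.o₂ D E) := by
  simp only [Out.o₂, map_add, map_neg, hD, ← Out.map_k11 π hD hE, ← Out.map_t₂ π hD hE, ← Out.map_k22 π hD hE, ←
      Out.map_k34 π hD hE, Out.map_u₂]
theorem Out.map_err (O : Out R) (i : Fin 5) : (O.map π).err D' E' i = π (O.err D E i) := by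
  simp only [Out.err, Gen.vec5 π, map_sub, map_neg, map_mul, map_smul, hD, ← Out.map_oa π hD hE, ← Out.map_ob π
      hD hE, ← Out.map_oc π hD hE, ← Out.map_o₁ π hD hE, ← Out.map_o₂ π hD hE, Out.map_ε, Out.map_la, Out.map_μ,
      Out.map_bp, Out.map_lc, Out.map_u₁, Out.map_u₂]
theorem Out.map_err' (O : Out R) : (O.map π).err D' E' = fun i => π (O.err D E i) :=
  funext (Out.map_err π hD hE O)
theorem Out.map_lapmu (O : Out R) : (O.map π).lapmu D' E' = π (O.lapmu D E) := by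
  simp only [Out.lapmu, map_add, map_sub, map_mul, map_smul, map_one, map_ofNat, hE, ← Out.map_Dd π hD hE, ←
      Out.map_jh π hD hE, ← Out.map_t₁ π hD hE, ← Out.map_t₂ π hD hE, Out.map_la]
theorem Out.map_Om (O : Out R) : (O.map π).Om D' E' = π (O.Om D E) := by
  simp only [Out.Om, map_add, map_sub, map_neg, map_mul, map_smul, hD, hE, ← Out.map_Dd π hD hE, Out.map_la,
      Out.map_μ, Out.map_bp, Out.map_lc]
theorem Out.map_lam₂ (O : Out R) (Ω : R) : (O.map π).lam₂ D' E' (π Ω) = π (O.lam₂ D E Ω) := by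
  simp only [Out.lam₂, map_add, map_mul, map_smul, map_ofNat, hE, ← Out.map_Dd π hD hE, ← Out.map_t₁ π hD hE, ←
      Out.map_t₂ π hD hE, Out.map_la, Out.map_lc]
theorem Out.map_lam₁ (O : Out R) (Ω : R) : (O.map π).lam₁ D' E' (π Ω) = π (O.lam₁ D E Ω) := by
  simp only [Out.lam₁, map_add, map_mul, map_smul, hD, hE, ← Out.map_l π hD hE, Out.map_lc, Out.map_u₁,
      Out.map_u₂]
theorem Out.map_biL (O : Out R) (Ω : R) : (O.map π).biL D' E' (π Ω) = π (O.biL D E Ω) := by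
  simp only [Out.biL, map_add, map_mul, hD, ← Out.map_Dd π hD hE, ← Out.map_lam₂ π hD hE, ← Out.map_lam₁ π hD
      hE, Out.map_μ, Out.map_bp]
theorem Out.map_B₁ (O : Out R) (ea : R) (f : R) (ec : R) (e₁ : R) (e₂ : R) : (O.map π).B₁ D' E' (π ea) (π f) (π
    ec) (π e₁) (π e₂) = π (O.B₁ D E ea f ec e₁ e₂) := by
  simp only [Out.B₁, map_add, map_sub, map_neg, map_mul, map_smul, hD, hE, ← Out.map_Dd π hD hE, ← Out.map_jh π
      hD hE, ← Out.map_t₁ π hD hE, ← Out.map_t₂ π hD hE, ← Out.map_l π hD hE, Out.map_ε, Out.map_μ, Out.map_lc,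
      Out.map_u₁, Out.map_u₂, Out.map_la, Out.map_bp]
theorem Out.map_B₂ (O : Out R) (ea : R) (f : R) (ec : R) (e₁ : R) (e₂ : R) : (O.map π).B₂ D' E' (π ea) (π f) (π
    ec) (π e₁) (π e₂) = π (O.B₂ D E ea f ec e₁ e₂) := by
  simp only [Out.B₂, map_add, map_sub, map_neg, map_mul, map_smul, map_one, map_ofNat, hD, hE, ← Out.map_l π hD
      hE, ← Out.map_Dd π hD hE, ← Out.map_jh π hD hE, ← Out.map_t₁ π hD hE, ← Out.map_t₂ π hD hE, Out.map_ε,
      Out.map_μ, Out.map_u₁, Out.map_u₂, Out.map_la, Out.map_lc, Out.map_bp]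
theorem Out.map_biR (O : Out R) (e : Fin 5 → R) : (O.map π).biR D' E' (fun j => π (e j)) = π (O.biR D E e) := by
  simp only [Out.biR, map_add, map_sub, map_neg, map_mul, map_smul, map_ofNat, hD, hE, ← Out.map_Dd π hD hE, ←
      Out.map_B₂ π hD hE, ← Out.map_B₁ π hD hE, Out.map_lc, Out.map_μ, Out.map_bp]
theorem Out.map_blk (O : Out R) (εi : R) (μi : R) :
    (O.map π).blk E' (π εi) (π μi) = (O.blk E εi μi).map π := by
  simp only [Out.blk, Blk.map, map_neg, map_mul, map_smul, map_pow, map_ofNat, hE, Out.map_ε, Out.map_μ,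
      Out.map_la, Out.map_lc, Out.map_u₁, Out.map_u₂, Out.map_bp]
theorem Out.map_kv (O : Out R) (i : Fin 8) : (O.map π).kv D' E' i = π (O.kv D E i) := by
  simp only [Out.kv, Gen.vec8 π, hD, ← Out.map_K π hD hE, ← Out.map_k11 π hD hE, ← Out.map_t₁ π hD hE, ←
      Out.map_k12 π hD hE, ← Out.map_k22 π hD hE, ← Out.map_t₂ π hD hE, ← Out.map_k34 π hD hE, Out.map_u₁,
      Out.map_u₂]
theorem Out.map_kv' (O : Out R) : (O.map π).kv D' E' = fun i => π (O.kv D E i) :=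
  funext (Out.map_kv π hD hE O)

theorem Lay.map_out (G : Lay R) : (G.map π).out = G.out.map π := by
  simp only [Lay.out, Lay.map, map_zero]
theorem Lay.map_psi (G : Lay R) : (G.map π).psi E' = π (G.psi E) := by
  simp only [Lay.psi, map_mul, map_ofNat, hE, Lay.map_L]
theorem Lay.map_q (G : Lay R) : (G.map π).q E' = π (G.q E) := by
  simp only [Lay.q, map_add, map_mul, map_one, ← Lay.map_psi π hD hE, Lay.map_chi, Lay.map_s0]
theorem Lay.map_μ (G : Lay R) : (G.map π).μ E' = π (G.μ E) := by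
  simp only [Lay.μ, map_sub, map_neg, map_mul, map_smul, hE, ← Lay.map_psi π hD hE, Lay.map_d, Lay.map_s0,
      Lay.map_lq]
theorem Lay.map_P0 (G : Lay R) : (G.map π).P0 E' = π (G.P0 E) := by
  simp only [Lay.P0, map_neg, map_mul, map_ofNat, hE, Lay.map_L, Lay.map_lq]
theorem Lay.map_τ₂ (G : Lay R) : (G.map π).τ₂ D' E' = π (G.τ₂ D E) := by
  simp only [Lay.τ₂, hD, ← Lay.map_μ π hD hE]
theorem Lay.map_P1 (G : Lay R) : (G.map π).P1 D' E' = π (G.P1 D E) := by
  simp only [Lay.P1, map_neg, map_mul, ← Lay.map_P0 π hD hE, ← Lay.map_τ₂ π hD hE]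
theorem Lay.map_Pp (G : Lay R) : (G.map π).Pp D' E' = π (G.Pp D E) := by
  simp only [Lay.Pp, map_add, map_mul, ← Lay.map_P0 π hD hE, ← Lay.map_P1 π hD hE, Lay.map_bp]
theorem Lay.map_Ao (G : Lay R) : (G.map π).Ao D' E' = π (G.Ao D E) := by
  simp only [Lay.Ao, map_add, map_mul, map_pow, map_ofNat, hE, ← Lay.map_μ π hD hE, ← Lay.map_Pp π hD hE, ←
      Lay.map_P1 π hD hE, Lay.map_la, Lay.map_lc]
theorem Lay.map_eh (G : Lay R) : (G.map π).eh E' = π (G.eh E) := by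
  simp only [Lay.eh, map_add, map_mul, map_ofNat, ← Lay.map_psi π hD hE, Lay.map_et, Lay.map_s0, Lay.map_ε,
      Lay.map_chi]
theorem Lay.map_b (G : Lay R) : (G.map π).b D' E' = π (G.b D E) := by
  simp only [Lay.b, map_add, map_neg, map_mul, map_pow, map_ofNat, hE, ← Lay.map_μ π hD hE, ← Lay.map_Pp π hD
      hE, ← Lay.map_P1 π hD hE, Lay.map_la, Lay.map_bp, Lay.map_lc, Lay.map_lAo]
theorem Lay.map_lCl (G : Lay R) : (G.map π).lCl = π G.lCl := by
  simp only [Lay.lCl, map_add, map_sub, map_mul, map_smul, map_one, map_ofNat, Lay.map_L, Lay.map_lq,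
      Lay.map_la, Lay.map_lc, Lay.map_lAo]
theorem Lay.map_τ₁ (G : Lay R) : (G.map π).τ₁ D' E' = π (G.τ₁ D E) := by
  simp only [Lay.τ₁, map_neg, map_mul, map_ofNat, hE, ← Lay.map_Pp π hD hE, Lay.map_la, Lay.map_lAo]
theorem Lay.map_Yo (G : Lay R) : (G.map π).Yo D' E' = π (G.Yo D E) := by
  simp only [Lay.Yo, map_neg, map_mul, ← Lay.map_b π hD hE, ← Lay.map_P0 π hD hE]
theorem Lay.map_al (G : Lay R) : (G.map π).al E' = π (G.al E) := by
  simp only [Lay.al, map_sub, map_neg, map_mul, map_one, hE, Lay.map_y, Lay.map_lq]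
theorem Lay.map_lal (G : Lay R) : (G.map π).lal D' E' = π (G.lal D E) := by
  simp only [Lay.lal, map_neg, map_mul, hD, hE, ← Lay.map_psi π hD hE, Lay.map_ε, Lay.map_yp, Lay.map_chi,
      Lay.map_lq, Lay.map_leh]
theorem Lay.map_lA (G : Lay R) : (G.map π).lA = π G.lA := by
  simp only [Lay.lA, map_sub, map_mul, map_ofNat, Lay.map_lAo, Lay.map_lam, Lay.map_rho, Lay.map_y]
theorem Lay.map_lC (G : Lay R) : (G.map π).lC = π G.lC := by
  simp only [Lay.lC, map_add, map_mul, map_ofNat, ← Lay.map_lCl π hD hE, Lay.map_gam]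
theorem Lay.map_u₁ (G : Lay R) : (G.map π).u₁ = π G.u₁ := by
  simp only [Lay.u₁, map_add, Lay.map_uw, Lay.map_lam]
theorem Lay.map_u₂ (G : Lay R) : (G.map π).u₂ = π G.u₂ := by
  simp only [Lay.u₂, map_add, Lay.map_uo, Lay.map_nu]
theorem Lay.map_W (G : Lay R) : (G.map π).W E' = π (G.W E) := by
  simp only [Lay.W, map_add, ← Lay.map_P0 π hD hE, Lay.map_w1]
theorem Lay.map_Y (G : Lay R) : (G.map π).Y D' E' = π (G.Y D E) := by
  simp only [Lay.Y, map_add, map_mul, ← Lay.map_Yo π hD hE, ← Lay.map_μ π hD hE, Lay.map_w2]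
theorem Lay.map_T (G : Lay R) (f : R) : (G.map π).T D' E' (π f) = π (G.T D E f) := by
  simp only [Lay.T, map_add, map_mul, hD, ← Lay.map_b π hD hE, Lay.map_ε]
theorem Lay.map_Sd (G : Lay R) (f : R) : (G.map π).Sd D' E' (π f) = π (G.Sd D E f) := by
  simp only [Lay.Sd, map_mul, hD, ← Lay.map_μ π hD hE]
theorem Lay.map_Xi (G : Lay R) : (G.map π).Xi D' E' = π (G.Xi D E) := by
  simp only [Lay.Xi, map_add, map_smul, hD, ← Lay.map_lal π hD hE, ← Lay.map_lA π hD hE, ← Lay.map_u₁ π hD hE]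
theorem Lay.map_Xe (G : Lay R) : (G.map π).Xe D' E' = π (G.Xe D E) := by
  simp only [Lay.Xe, map_add, map_neg, map_mul, hE, ← Lay.map_Xi π hD hE, Lay.map_ε, Lay.map_xi1, Lay.map_yp,
      Lay.map_leh]
theorem Lay.map_mt (G : Lay R) : (G.map π).mt D' E' = π (G.mt D E) := by
  simp only [Lay.mt, map_mul, ← Lay.map_μ π hD hE, ← Lay.map_τ₁ π hD hE, Lay.map_ε]
theorem Lay.map_ek (G : Lay R) : (G.map π).ek D' E' = π (G.ek D E) := by
  simp only [Lay.ek, map_sub, map_mul, hD, ← Lay.map_mt π hD hE, ← Lay.map_b π hD hE, Lay.map_ε]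
theorem Lay.map_j (G : Lay R) : (G.map π).j D' E' = π (G.j D E) := by
  simp only [Lay.j, map_add, map_sub, map_mul, map_smul, hD, ← Lay.map_mt π hD hE, ← Lay.map_T π hD hE, ←
      Lay.map_lC π hD hE, ← Lay.map_b π hD hE, Lay.map_ε]
theorem Lay.map_lh (G : Lay R) : (G.map π).lh D' E' = π (G.lh D E) := by
  simp only [Lay.lh, map_add, map_mul, map_smul, ← Lay.map_τ₂ π hD hE, ← Lay.map_μ π hD hE, ← Lay.map_lal π hD
      hE, ← Lay.map_Sd π hD hE, ← Lay.map_lA π hD hE]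
theorem Lay.map_yv (G : Lay R) : (G.map π).yv D' E' = π (G.yv D E) := by
  simp only [Lay.yv, map_add, map_sub, map_mul, map_smul, ← Lay.map_T π hD hE, ← Lay.map_al π hD hE, ←
      Lay.map_u₁ π hD hE, ← Lay.map_mt π hD hE]
theorem Lay.map_t₂ (G : Lay R) : (G.map π).t₂ D' E' = π (G.t₂ D E) := by
  simp only [Lay.t₂, map_sub, map_smul, ← Lay.map_T π hD hE, ← Lay.map_u₂ π hD hE, ← Lay.map_mt π hD hE]
theorem Lay.map_s₁ (G : Lay R) : (G.map π).s₁ D' E' = π (G.s₁ D E) := by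
  simp only [Lay.s₁, map_add, map_sub, map_mul, map_smul, ← Lay.map_μ π hD hE, ← Lay.map_lal π hD hE, ←
      Lay.map_τ₂ π hD hE, ← Lay.map_Sd π hD hE, ← Lay.map_u₁ π hD hE]
theorem Lay.map_s₂ (G : Lay R) : (G.map π).s₂ D' E' = π (G.s₂ D E) := by
  simp only [Lay.s₂, map_sub, map_smul, ← Lay.map_Sd π hD hE, ← Lay.map_u₂ π hD hE, ← Lay.map_τ₂ π hD hE]
theorem Lay.map_TaA (G : Lay R) : (G.map π).TaA D' E' = π (G.TaA D E) := by
  simp only [Lay.TaA, map_add, map_mul, hE, ← Lay.map_lA π hD hE, ← Lay.map_T π hD hE, ← Lay.map_al π hD hE]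
theorem Lay.map_Ba (G : Lay R) : (G.map π).Ba D' E' = π (G.Ba D E) := by
  simp only [Lay.Ba, map_add, map_mul, map_smul, hE, ← Lay.map_TaA π hD hE, ← Lay.map_mt π hD hE, ← Lay.map_al π
      hD hE, ← Lay.map_lA π hD hE]
theorem Lay.map_hc (G : Lay R) : (G.map π).hc D' E' = π (G.hc D E) := by
  simp only [Lay.hc, map_add, map_smul, ← Lay.map_τ₂ π hD hE, ← Lay.map_Sd π hD hE, ← Lay.map_lC π hD hE]
theorem Lay.map_K (G : Lay R) : (G.map π).K D' E' = π (G.K D E) := by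
  simp only [Lay.K, map_add, map_sub, map_mul, map_pow, map_ofNat, hE, ← Lay.map_al π hD hE, ← Lay.map_lA π hD
      hE, ← Lay.map_T π hD hE, ← Lay.map_j π hD hE, ← Lay.map_Ba π hD hE, ← Lay.map_lC π hD hE, ← Lay.map_Sd π
      hD hE, ← Lay.map_lh π hD hE, ← Lay.map_hc π hD hE, Lay.map_ε]
theorem Lay.map_Wh (G : Lay R) : (G.map π).Wh D' E' = π (G.Wh D E) := by
  simp only [Lay.Wh, map_sub, map_mul, hE, ← Lay.map_W π hD hE, ← Lay.map_lA π hD hE, ← Lay.map_t₂ π hD hE]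
theorem Lay.map_X₁ (G : Lay R) : (G.map π).X₁ D' E' = π (G.X₁ D E) := by
  simp only [Lay.X₁, map_sub, map_mul, hE, ← Lay.map_al π hD hE, ← Lay.map_Wh π hD hE, ← Lay.map_lA π hD hE, ←
      Lay.map_yv π hD hE]
theorem Lay.map_xt (G : Lay R) : (G.map π).xt D' E' = π (G.xt D E) := by
  simp only [Lay.xt, map_add, map_sub, map_mul, hE, ← Lay.map_lC π hD hE, ← Lay.map_s₁ π hD hE, ← Lay.map_s₂ π
      hD hE, Lay.map_w2, Lay.map_ε]
theorem Lay.map_X₂ (G : Lay R) : (G.map π).X₂ D' E' = π (G.X₂ D E) := by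
  simp only [Lay.X₂, map_add, map_mul, ← Lay.map_Yo π hD hE, ← Lay.map_μ π hD hE, ← Lay.map_xt π hD hE]
theorem Lay.map_th (G : Lay R) : (G.map π).th D' E' = π (G.th D E) := by
  simp only [Lay.th, map_add, map_smul, ← Lay.map_T π hD hE, ← Lay.map_u₁ π hD hE, ← Lay.map_lA π hD hE]
theorem Lay.map_base (G : Lay R) : (G.map π).base D' E' = π (G.base D E) := by
  simp only [Lay.base, map_sub, map_mul, map_smul, ← Lay.map_μ π hD hE, ← Lay.map_P0 π hD hE, ← Lay.map_τ₁ π hD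
      hE, ← Lay.map_τ₂ π hD hE, ← Lay.map_xt π hD hE]
theorem Lay.map_e₁ (G : Lay R) : (G.map π).e₁ D' E' = π (G.e₁ D E) := by
  simp only [Lay.e₁, map_add, map_sub, map_neg, map_mul, map_smul, map_pow, map_ofNat, hD, hE, ← Lay.map_lA π hD
      hE, ← Lay.map_T π hD hE, ← Lay.map_yv π hD hE, ← Lay.map_th π hD hE, ← Lay.map_j π hD hE, ← Lay.map_t₂ π
      hD hE, ← Lay.map_W π hD hE, ← Lay.map_lC π hD hE, ← Lay.map_Sd π hD hE, ← Lay.map_s₁ π hD hE, ← Lay.map_hc
      π hD hE, ← Lay.map_lh π hD hE, ← Lay.map_base π hD hE, ← Lay.map_X₂ π hD hE, ← Lay.map_lal π hD hE, ←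
      Lay.map_u₁ π hD hE, Lay.map_ε]
theorem Lay.map_e₂ (G : Lay R) : (G.map π).e₂ D' E' = π (G.e₂ D E) := by
  simp only [Lay.e₂, map_add, map_sub, map_neg, map_mul, map_pow, map_ofNat, hD, hE, ← Lay.map_al π hD hE, ←
      Lay.map_lA π hD hE, ← Lay.map_T π hD hE, ← Lay.map_t₂ π hD hE, ← Lay.map_Ba π hD hE, ← Lay.map_j π hD hE,
      ← Lay.map_X₁ π hD hE, ← Lay.map_lC π hD hE, ← Lay.map_Sd π hD hE, ← Lay.map_s₂ π hD hE, ← Lay.map_hc π hD
      hE, ← Lay.map_lh π hD hE, ← Lay.map_base π hD hE, ← Lay.map_X₂ π hD hE, ← Lay.map_u₂ π hD hE, Lay.map_ε]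
theorem Lay.map_e₃ (G : Lay R) : (G.map π).e₃ D' E' = π (G.e₃ D E) := by
  simp only [Lay.e₃, map_add, map_sub, map_mul, map_smul, map_pow, map_ofNat, hD, hE, ← Lay.map_K π hD hE, ←
      Lay.map_X₁ π hD hE, ← Lay.map_j π hD hE, ← Lay.map_base π hD hE, ← Lay.map_X₂ π hD hE, ← Lay.map_lC π hD
      hE, ← Lay.map_s₁ π hD hE, ← Lay.map_s₂ π hD hE, Lay.map_ε]
theorem Lay.map_e₄ (G : Lay R) : (G.map π).e₄ D' E' = π (G.e₄ D E) := by
  simp only [Lay.e₄, map_add, map_sub, map_neg, map_mul, map_smul, hE, ← Lay.map_T π hD hE, ← Lay.map_xt π hD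
      hE, ← Lay.map_mt π hD hE, ← Lay.map_ek π hD hE, ← Lay.map_lC π hD hE, ← Lay.map_lA π hD hE, ← Lay.map_Sd π
      hD hE, ← Lay.map_Wh π hD hE, ← Lay.map_μ π hD hE, ← Lay.map_lal π hD hE, ← Lay.map_τ₂ π hD hE, ←
      Lay.map_t₂ π hD hE, ← Lay.map_s₂ π hD hE, ← Lay.map_s₁ π hD hE, ← Lay.map_yv π hD hE, ← Lay.map_Xe π hD
      hE, Lay.map_ε]
theorem Lay.map_e₅ (G : Lay R) : (G.map π).e₅ D' E' = π (G.e₅ D E) := by
  simp only [Lay.e₅, map_add, map_sub, map_mul, map_smul, map_pow, hE, ← Lay.map_T π hD hE, ← Lay.map_Wh π hD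
      hE, ← Lay.map_th π hD hE, ← Lay.map_mt π hD hE, ← Lay.map_lA π hD hE, ← Lay.map_t₂ π hD hE, ← Lay.map_j π
      hD hE, ← Lay.map_u₁ π hD hE, ← Lay.map_X₂ π hD hE, ← Lay.map_Xe π hD hE, ← Lay.map_lC π hD hE, ←
      Lay.map_Sd π hD hE, ← Lay.map_μ π hD hE, ← Lay.map_lal π hD hE, ← Lay.map_hc π hD hE, ← Lay.map_lh π hD
      hE, Lay.map_ε]
theorem Lay.map_e (G : Lay R) (i : Fin 5) : (G.map π).e D' E' i = π (G.e D E i) := by
  simp only [Lay.e, Gen.vec5 π, ← Lay.map_e₁ π hD hE, ← Lay.map_e₂ π hD hE, ← Lay.map_e₃ π hD hE, ← Lay.map_e₄ π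
      hD hE, ← Lay.map_e₅ π hD hE]
theorem Lay.map_e' (G : Lay R) : (G.map π).e D' E' = fun i => π (G.e D E i) :=
  funext (Lay.map_e π hD hE G)
theorem Lay.map_elay (G : Lay R) (k : Fin 5) : (G.map π).elay D' E' k = π (G.elay D E k) := by
  simp only [Lay.elay, map_sub, ← Lay.map_e π hD hE, Lay.map_out π hD hE]
theorem Lay.map_zo (G : Lay R) : (G.map π).zo D' E' = π (G.zo D E) := by
  simp only [Lay.zo, map_add, map_mul, map_smul, ← Lay.map_T π hD hE, ← Lay.map_Yo π hD hE, ← Lay.map_ek π hD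
      hE]
theorem Lay.map_k (G : Lay R) (i : Fin 8) : (G.map π).k D' E' i = π (G.k D E i) := by
  simp only [Lay.k, Gen.vec8 π, map_add, map_sub, map_neg, map_mul, map_pow, map_ofNat, hE, ← Lay.map_K π hD hE,
      ← Lay.map_lA π hD hE, ← Lay.map_T π hD hE, ← Lay.map_yv π hD hE, ← Lay.map_th π hD hE, ← Lay.map_lC π hD
      hE, ← Lay.map_lh π hD hE, ← Lay.map_s₁ π hD hE, ← Lay.map_j π hD hE, ← Lay.map_ek π hD hE, ← Lay.map_μ π
      hD hE, ← Lay.map_Xe π hD hE, ← Lay.map_Sd π hD hE, ← Lay.map_hc π hD hE, ← Lay.map_al π hD hE, ←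
      Lay.map_t₂ π hD hE, ← Lay.map_Ba π hD hE, ← Lay.map_s₂ π hD hE, Lay.map_ε]
theorem Lay.map_k' (G : Lay R) : (G.map π).k D' E' = fun i => π (G.k D E i) :=
  funext (Lay.map_k π hD hE G)
theorem Lay.map_Bc (G : Lay R) : (G.map π).Bc D' E' = π (G.Bc D E) := by
  simp only [Lay.Bc, map_sub, map_mul, hE, ← Lay.map_Ba π hD hE, ← Lay.map_al π hD hE, ← Lay.map_lA π hD hE, ←
      Lay.map_j π hD hE, ← Lay.map_X₁ π hD hE]
theorem Lay.map_lap (G : Lay R) (f : R) : (G.map π).lap D' E' (π f) = π (G.lap D E f) := by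
  simp only [Lay.lap, map_add, map_sub, map_mul, map_pow, map_ofNat, hD, hE, ← Lay.map_al π hD hE, ← Lay.map_lA
      π hD hE, ← Lay.map_T π hD hE, ← Lay.map_Bc π hD hE, ← Lay.map_lC π hD hE, ← Lay.map_Sd π hD hE, ←
      Lay.map_hc π hD hE, ← Lay.map_lh π hD hE, ← Lay.map_X₂ π hD hE, Lay.map_ε]
theorem Lay.map_lapmu (G : Lay R) : (G.map π).lapmu D' E' = π (G.lapmu D E) := by
  simp only [Lay.lapmu, map_add, map_sub, map_mul, hE, ← Lay.map_al π hD hE, ← Lay.map_lA π hD hE, ← Lay.map_T π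
      hD hE, ← Lay.map_μ π hD hE, ← Lay.map_τ₁ π hD hE, ← Lay.map_Bc π hD hE, ← Lay.map_P0 π hD hE, ← Lay.map_xt
      π hD hE, ← Lay.map_τ₂ π hD hE, ← Lay.map_lC π hD hE, ← Lay.map_Sd π hD hE, ← Lay.map_hc π hD hE, ←
      Lay.map_lh π hD hE, Lay.map_ε]
theorem Lay.map_Om (G : Lay R) : (G.map π).Om D' E' = π (G.Om D E) := by
  simp only [Lay.Om, map_add, map_sub, map_neg, map_mul, map_pow, map_ofNat, hD, hE, ← Lay.map_T π hD hE, ←
      Lay.map_Y π hD hE, ← Lay.map_lC π hD hE, ← Lay.map_mt π hD hE, ← Lay.map_ek π hD hE, ← Lay.map_μ π hD hE,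
      ← Lay.map_W π hD hE, ← Lay.map_lA π hD hE, Lay.map_ε]
theorem Lay.map_cO (G : Lay R) : (G.map π).cO D' E' = π (G.cO D E) := by
  simp only [Lay.cO, map_add, map_sub, map_mul, map_smul, hE, ← Lay.map_TaA π hD hE, ← Lay.map_al π hD hE, ←
      Lay.map_lA π hD hE, ← Lay.map_T π hD hE, ← Lay.map_lC π hD hE, ← Lay.map_X₁ π hD hE]
theorem Lay.map_lam₂ (G : Lay R) (Ω : R) : (G.map π).lam₂ D' E' (π Ω) = π (G.lam₂ D E Ω) := by
  simp only [Lay.lam₂, map_add, map_mul, hE, ← Lay.map_al π hD hE, ← Lay.map_lA π hD hE, ← Lay.map_T π hD hE, ←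
      Lay.map_cO π hD hE]
theorem Lay.map_lam₁ (G : Lay R) (Ω : R) : (G.map π).lam₁ D' E' (π Ω) = π (G.lam₁ D E Ω) := by
  simp only [Lay.lam₁, map_add, map_sub, map_mul, map_smul, hE, ← Lay.map_lC π hD hE, ← Lay.map_Sd π hD hE, ←
      Lay.map_lh π hD hE, ← Lay.map_τ₂ π hD hE]
theorem Lay.map_biL (G : Lay R) (Ω : R) : (G.map π).biL D' E' (π Ω) = π (G.biL D E Ω) := by
  simp only [Lay.biL, map_add, map_sub, map_mul, map_pow, map_ofNat, hD, ← Lay.map_T π hD hE, ← Lay.map_lam₂ π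
      hD hE, ← Lay.map_ek π hD hE, ← Lay.map_X₂ π hD hE, ← Lay.map_τ₂ π hD hE, ← Lay.map_xt π hD hE, ← Lay.map_μ
      π hD hE, ← Lay.map_P0 π hD hE, ← Lay.map_τ₁ π hD hE, ← Lay.map_Sd π hD hE, ← Lay.map_lam₁ π hD hE,
      Lay.map_ε]
theorem Lay.map_B₁ (G : Lay R) (E1 : R) (E2 : R) (E3 : R) (E4 : R) (E5 : R) : (G.map π).B₁ D' E' (π E1) (π E2)
    (π E3) (π E4) (π E5) = π (G.B₁ D E E1 E2 E3 E4 E5) := by
  simp only [Lay.B₁, map_add, map_sub, map_neg, map_mul, map_smul, map_one, hE, ← Lay.map_μ π hD hE, ← Lay.map_T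
      π hD hE, ← Lay.map_al π hD hE, ← Lay.map_mt π hD hE, ← Lay.map_j π hD hE, ← Lay.map_yv π hD hE, ←
      Lay.map_t₂ π hD hE, ← Lay.map_W π hD hE, ← Lay.map_lA π hD hE, ← Lay.map_lC π hD hE, ← Lay.map_Sd π hD hE,
      ← Lay.map_hc π hD hE, ← Lay.map_lh π hD hE, ← Lay.map_s₁ π hD hE, ← Lay.map_s₂ π hD hE, ← Lay.map_Y π hD
      hE, Lay.map_ε]
theorem Lay.map_B₂ (G : Lay R) (E1 : R) (E2 : R) (E3 : R) (E4 : R) (E5 : R) : (G.map π).B₂ D' E' (π E1) (π E2)
    (π E3) (π E4) (π E5) = π (G.B₂ D E E1 E2 E3 E4 E5) := by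
  simp only [Lay.B₂, map_add, map_sub, map_neg, map_mul, map_smul, map_one, map_ofNat, hE, ← Lay.map_μ π hD hE,
      ← Lay.map_Sd π hD hE, ← Lay.map_al π hD hE, ← Lay.map_τ₂ π hD hE, ← Lay.map_lh π hD hE, ← Lay.map_s₁ π hD
      hE, ← Lay.map_s₂ π hD hE, ← Lay.map_lA π hD hE, ← Lay.map_T π hD hE, ← Lay.map_lC π hD hE, ← Lay.map_Ba π
      hD hE, ← Lay.map_t₂ π hD hE, ← Lay.map_j π hD hE, ← Lay.map_ek π hD hE, ← Lay.map_yv π hD hE, ← Lay.map_W
      π hD hE, ← Lay.map_Y π hD hE, Lay.map_ε]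
theorem Lay.map_biR (G : Lay R) (e : Fin 5 → R) : (G.map π).biR D' E' (fun j => π (e j)) = π (G.biR D E e) := by
  simp only [Lay.biR, map_sub, map_mul, map_ofNat, ← Lay.map_T π hD hE, ← Lay.map_B₂ π hD hE, ← Lay.map_ek π hD
      hE, ← Lay.map_Sd π hD hE, ← Lay.map_B₁ π hD hE, Lay.map_ε]
theorem Lay.map_cov (G : Lay R) (er : Fin 5 → R) (i : Fin 5) : (G.map π).cov D' E' (fun j => π (er j)) i = π
    (G.cov D E er i) := by
  simp only [Lay.cov, Gen.vec5 π, map_add, map_sub, map_neg, map_mul, map_smul, map_pow, map_one, map_ofNat, hE,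
      ← Lay.map_lCl π hD hE, ← Lay.map_τ₂ π hD hE, ← Lay.map_μ π hD hE, ← Lay.map_τ₁ π hD hE, ← Lay.map_P1 π hD
      hE, Lay.map_ε, Lay.map_la, Lay.map_bp, Lay.map_lc, Lay.map_lAo]
theorem Lay.map_cov' (G : Lay R) (er : Fin 5 → R) : (G.map π).cov D' E' (fun j => π (er j)) = fun i => π (G.cov
    D E er i) :=
  funext (Lay.map_cov π hD hE G er)
theorem Lay.map_tot (G : Lay R) (er : Fin 5 → R) (k : Fin 5) : (G.map π).tot D' E' (fun j => π (er j)) k = π
    (G.tot D E er k) := by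
  simp only [Lay.tot, map_add, ← Lay.map_elay π hD hE, ← Lay.map_cov π hD hE]
theorem Lay.map_blk (G : Lay R) (εi : R) (μi : R) (ali : R) :
    (G.map π).blk D' E' (π εi) (π μi) (π ali) = (G.blk D E εi μi ali).map π := by
  simp only [Lay.blk, Blk.map, map_neg, map_mul, map_pow, map_ofNat, hE, ← Lay.map_μ π hD hE, ← Lay.map_al π hD
      hE, ← Lay.map_lA π hD hE, ← Lay.map_lC π hD hE, ← Lay.map_u₁ π hD hE, ← Lay.map_u₂ π hD hE, ← Lay.map_b π
      hD hE, ← Lay.map_W π hD hE, ← Lay.map_Y π hD hE, Lay.map_ε]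
theorem Lay.map_rho0 (G : Lay R) (lg : R) : (G.map π).rho0 (π lg) = π (G.rho0 lg) := by
  simp only [Lay.rho0, map_add, map_smul, Lay.map_lAo, Lay.map_uw]
theorem Lay.map_kc (G : Lay R) (k : Fin 8 → R) (i : Fin 8) : (G.map π).kc D' E' (fun j => π (k j)) i = π (G.kc D
    E k i) := by
  simp only [Lay.kc, Gen.vec8 π, map_add, map_sub, map_neg, map_mul, map_smul, map_pow, map_one, map_ofNat, hE,
      ← Lay.map_μ π hD hE, ← Lay.map_τ₁ π hD hE, ← Lay.map_P1 π hD hE, ← Lay.map_τ₂ π hD hE, ← Lay.map_lCl π hD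
      hE, Lay.map_lAo, Lay.map_la, Lay.map_lc, Lay.map_bp]
theorem Lay.map_kc' (G : Lay R) (k : Fin 8 → R) : (G.map π).kc D' E' (fun j => π (k j)) = fun i => π (G.kc D E k
    i) :=
  funext (Lay.map_kc π hD hE G k)

theorem map_lead (y yp et d chi L L₂ leh r r₂ : R) (Z : Fin 5 → R) :
    (lead y yp et d chi L L₂ leh r r₂ Z).map π = lead (π y) (π yp) (π et) (π d) (π chi) (π L)
      (π L₂) (π leh) (π r) (π r₂) fun j => π (Z j) := by
  simp only [lead, Lay.map, map_zero, map_add, map_neg, map_mul, map_ofNat]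
theorem map_Dop (y f : R) : Dop D' (π y) (π f) = π (Dop D y f) := by
  simp only [Dop, map_add, map_sub, map_mul, map_one, map_ofNat, hD]
theorem map_lin (y L r : R) (Z : Fin 5 → R) (k : Fin 5) :
    lin D' E' (π y) (π L) (π r) (fun j => π (Z j)) k = π (lin D E y L r Z k) := by
  simp only [lin, Gen.vec5 π, map_add, map_sub, map_neg, map_mul, map_smul, map_pow, map_ofNat, hD,
    hE, ← map_Dop π hD hE]

theorem Out.Ok.map {O : Out R} (h : O.Ok D) : (O.map π).Ok D' :=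
  ⟨fun i => by rw [Out.map_ε, ← hD, h.dε, map_zero], by rw [Out.map_μ, ← hD, h.μ₀, map_one],
    by rw [Out.map_μ, ← hD, h.μ₁, map_zero]⟩

theorem Lay.Ok.map {G : Lay R} (h : G.Ok D E) : (G.map π).Ok D' E' where
  dε i := by rw [Lay.map_ε, ← hD, h.dε, map_zero]
  s0₀ := by rw [Lay.map_s0, ← hD, h.s0₀, Lay.map_ε]
  s0₁ := by rw [Lay.map_s0, ← hD, h.s0₁, map_zero]
  y₁ := by rw [Lay.map_y, ← hD, h.y₁, map_zero]
  d₀ := by rw [Lay.map_d, ← hD, h.d₀, map_zero]
  chi₀ := by rw [Lay.map_chi, ← hD, h.chi₀, map_zero]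
  L₀ := by rw [Lay.map_L, ← hD, h.L₀, map_zero]
  lq := by rw [Lay.map_lq, ← hE, h.lq, Lay.map_q π hD hE]
  lAo := by rw [Lay.map_lAo, ← hE, h.lAo, Lay.map_Ao π hD hE]
  leh := by rw [Lay.map_leh, ← hE, h.leh, Lay.map_eh π hD hE]

end Map

section Pairs

variable {R : Type} [CommRing R] [Algebra ℝ R] (D : Fin 2 → R → R) (E : R → R)

theorem Gen.fst_D (i : Fin 2) (z : R × R) :
    AlgHom.fst ℝ R R (pairD D i z) = D i (AlgHom.fst ℝ R R z) := rfl
theorem Gen.snd_D (i : Fin 2) (z : R × R) :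
    AlgHom.snd ℝ R R (pairD D i z) = D i (AlgHom.snd ℝ R R z) := rfl
theorem Gen.fst_E (z : R × R) : AlgHom.fst ℝ R R (pairE E z) = E (AlgHom.fst ℝ R R z) := rfl
theorem Gen.snd_E (z : R × R) : AlgHom.snd ℝ R R (pairE E z) = E (AlgHom.snd ℝ R R z) := rfl

end Pairs

/-! ### Weights -/

section Weights

variable {R W : Type} [CommRing R] [Algebra ℝ R] [CommMonoid W] {D : Fin 2 → R → R}
  {E Lg : R → R} {P : W → R → Prop} {Pos : R → Prop} {Sml : W → Prop} (h : WR D E Lg P Pos Sml)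

def Out.lift (O : Out R) (hO : O.All (P 1)) : Out h.sub1 :=
  ⟨⟨_, hO.ε⟩, ⟨_, hO.μ⟩, ⟨_, hO.la⟩, ⟨_, hO.bp⟩, ⟨_, hO.lc⟩, ⟨_, hO.u₁⟩, ⟨_, hO.u₂⟩⟩
def Lay.lift (G : Lay R) (hG : G.All (P 1)) : Lay h.sub1 :=
  ⟨⟨_, hG.ε⟩, ⟨_, hG.s0⟩, ⟨_, hG.y⟩, ⟨_, hG.yp⟩, ⟨_, hG.et⟩, ⟨_, hG.d⟩, ⟨_, hG.chi⟩, ⟨_, hG.L⟩, ⟨_, hG.la⟩, ⟨_,
      hG.bp⟩, ⟨_, hG.lc⟩, ⟨_, hG.uw⟩, ⟨_, hG.uo⟩, ⟨_, hG.lam⟩, ⟨_, hG.gam⟩, ⟨_, hG.nu⟩, ⟨_, hG.w1⟩, ⟨_, hG.w2⟩,
      ⟨_, hG.rho⟩, ⟨_, hG.xi1⟩, ⟨_, hG.lq⟩, ⟨_, hG.lAo⟩, ⟨_, hG.leh⟩⟩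

include h

section OutW

variable {O : Out R} (hO : O.All (P 1))
include hO

theorem Out.P_jh : P 1 (O.jh D) :=
  h.of_eq (Out.map_jh _ h.hD h.hE (O.lift h hO))
theorem Out.P_l : P 1 (O.l D) :=
  h.of_eq (Out.map_l _ h.hD h.hE (O.lift h hO))
theorem Out.P_t₁ : P 1 (O.t₁ D) :=
  h.of_eq (Out.map_t₁ _ h.hD h.hE (O.lift h hO))
theorem Out.P_t₂ : P 1 (O.t₂ D) :=
  h.of_eq (Out.map_t₂ _ h.hD h.hE (O.lift h hO))
theorem Out.P_K : P 1 (O.K D E) :=
  h.of_eq (Out.map_K _ h.hD h.hE (O.lift h hO))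
theorem Out.P_k34 : P 1 (O.k34 D E) :=
  h.of_eq (Out.map_k34 _ h.hD h.hE (O.lift h hO))
theorem Out.P_oa : P 1 (O.oa D E) :=
  h.of_eq (Out.map_oa _ h.hD h.hE (O.lift h hO))
theorem Out.P_ob : P 1 (O.ob D E) :=
  h.of_eq (Out.map_ob _ h.hD h.hE (O.lift h hO))
theorem Out.P_oc : P 1 (O.oc D E) :=
  h.of_eq (Out.map_oc _ h.hD h.hE (O.lift h hO))
theorem Out.P_o₁ : P 1 (O.o₁ D E) :=
  h.of_eq (Out.map_o₁ _ h.hD h.hE (O.lift h hO))
theorem Out.P_o₂ : P 1 (O.o₂ D E) :=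
  h.of_eq (Out.map_o₂ _ h.hD h.hE (O.lift h hO))
theorem Out.P_err (i : Fin 5) : P 1 (O.err D E i) :=
  h.of_eq (Out.map_err _ h.hD h.hE (O.lift h hO) i)
theorem Out.P_lapmu : P 1 (O.lapmu D E) :=
  h.of_eq (Out.map_lapmu _ h.hD h.hE (O.lift h hO))
theorem Out.P_Om : P 1 (O.Om D E) :=
  h.of_eq (Out.map_Om _ h.hD h.hE (O.lift h hO))
theorem Out.P_kv (i : Fin 8) : P 1 (O.kv D E i) :=
  h.of_eq (Out.map_kv _ h.hD h.hE (O.lift h hO) i)
theorem Out.P_k11 {t s : R} (ht : P 1 t) (hs : P 1 s) : P 1 (O.k11 D E t s) :=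
  h.of_eq (Out.map_k11 _ h.hD h.hE (O.lift h hO) ⟨t, ht⟩ ⟨s, hs⟩)
theorem Out.P_k22 {t s : R} (ht : P 1 t) (hs : P 1 s) : P 1 (O.k22 D E t s) :=
  h.of_eq (Out.map_k22 _ h.hD h.hE (O.lift h hO) ⟨t, ht⟩ ⟨s, hs⟩)
theorem Out.P_k12 {t s : R} (ht : P 1 t) (hs : P 1 s) : P 1 (O.k12 D t s) :=
  h.of_eq (Out.map_k12 _ h.hD h.hE (O.lift h hO) ⟨t, ht⟩ ⟨s, hs⟩)
theorem Out.P_Dd {w : W} {f : R} (hf : P w f) : P w (O.Dd D f) := by
  have := hO.μ; have := hO.bp
  unfold Out.Dd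
  repeat' with_reducible first
    | assumption | apply h.add | apply h.sub | apply h.neg | apply h.smul | apply h.pD
    | (refine h.mul1' ?_ ?_; rotate_left; solve
        | repeat' first
          | assumption | apply h.mul11 | apply h.add | apply h.sub | apply h.neg | apply h.smul | apply h.pD
          | apply h.pow1 | apply h.E1 | apply h.ofNat | exact h.one)
    | (refine h.mul1 ?_ ?_; solve
        | repeat' first
          | assumption | apply h.mul11 | apply h.add | apply h.sub | apply h.neg | apply h.smul | apply h.pD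
          | apply h.pow1 | apply h.E1 | apply h.ofNat | exact h.one)
theorem Out.P_lam₂ {w : W} {Ω : R} (hΩ : P w Ω) : P w (O.lam₂ D E Ω) := by
  have := Out.P_t₁ h hO; have := Out.P_t₂ h hO; have := hO.la
  have := hO.lc
  unfold Out.lam₂
  repeat' with_reducible first
    | assumption | apply h.add | apply h.sub | apply h.neg | apply h.smul | apply h.pD | apply Out.P_Dd h hO
    | (refine h.mul1' ?_ ?_; rotate_left; solve
        | repeat' first
          | assumption | apply h.mul11 | apply h.add | apply h.sub | apply h.neg | apply h.smul | apply h.pD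
          | apply h.pow1 | apply h.E1 | apply h.ofNat | exact h.one | apply Out.P_Dd h hO)
    | (refine h.mul1 ?_ ?_; solve
        | repeat' first
          | assumption | apply h.mul11 | apply h.add | apply h.sub | apply h.neg | apply h.smul | apply h.pD
          | apply h.pow1 | apply h.E1 | apply h.ofNat | exact h.one | apply Out.P_Dd h hO)
theorem Out.P_lam₁ {w : W} {Ω : R} (hΩ : P w Ω) : P w (O.lam₁ D E Ω) := by
  have := Out.P_l h hO; have := hO.lc; have := hO.u₁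
  have := hO.u₂
  unfold Out.lam₁
  repeat' with_reducible first
    | assumption | apply h.add | apply h.sub | apply h.neg | apply h.smul | apply h.pD
    | (refine h.mul1' ?_ ?_; rotate_left; solve
        | repeat' first
          | assumption | apply h.mul11 | apply h.add | apply h.sub | apply h.neg | apply h.smul | apply h.pD
          | apply h.pow1 | apply h.E1 | apply h.ofNat | exact h.one)
    | (refine h.mul1 ?_ ?_; solve
        | repeat' first
          | assumption | apply h.mul11 | apply h.add | apply h.sub | apply h.neg | apply h.smul | apply h.pD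
          | apply h.pow1 | apply h.E1 | apply h.ofNat | exact h.one)
theorem Out.P_biL {w : W} {Ω : R} (hΩ : P w Ω) : P w (O.biL D E Ω) := by
  have := hO.μ; have := hO.bp
  unfold Out.biL
  repeat' with_reducible first
    | assumption | apply h.add | apply h.sub | apply h.neg | apply h.smul | apply h.pD | apply Out.P_Dd h hO
    | apply Out.P_lam₂ h hO | apply Out.P_lam₁ h hO
    | (refine h.mul1' ?_ ?_; rotate_left; solve
        | repeat' first
          | assumption | apply h.mul11 | apply h.add | apply h.sub | apply h.neg | apply h.smul | apply h.pD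
          | apply h.pow1 | apply h.E1 | apply h.ofNat | exact h.one | apply Out.P_Dd h hO
          | apply Out.P_lam₂ h hO | apply Out.P_lam₁ h hO)
    | (refine h.mul1 ?_ ?_; solve
        | repeat' first
          | assumption | apply h.mul11 | apply h.add | apply h.sub | apply h.neg | apply h.smul | apply h.pD
          | apply h.pow1 | apply h.E1 | apply h.ofNat | exact h.one | apply Out.P_Dd h hO
          | apply Out.P_lam₂ h hO | apply Out.P_lam₁ h hO)
theorem Out.P_B₁ {w : W} {ea : R} (hea : P w ea) {f : R} (hf : P w f) {ec : R} (hec : P w ec) {e₁ : R} (he₁ : P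
    w e₁) {e₂ : R} (he₂ : P w e₂) : P w (O.B₁ D E ea f ec e₁ e₂) := by
  have := Out.P_jh h hO; have := Out.P_t₁ h hO; have := Out.P_t₂ h hO
  have := Out.P_l h hO; have := hO.ε; have := hO.μ
  have := hO.lc; have := hO.u₁; have := hO.u₂
  have := hO.la; have := hO.bp
  unfold Out.B₁
  repeat' with_reducible first
    | assumption | apply h.add | apply h.sub | apply h.neg | apply h.smul | apply h.pD | apply Out.P_Dd h hO
    | (refine h.mul1' ?_ ?_; rotate_left; solve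
        | repeat' first
          | assumption | apply h.mul11 | apply h.add | apply h.sub | apply h.neg | apply h.smul | apply h.pD
          | apply h.pow1 | apply h.E1 | apply h.ofNat | exact h.one | apply Out.P_Dd h hO)
    | (refine h.mul1 ?_ ?_; solve
        | repeat' first
          | assumption | apply h.mul11 | apply h.add | apply h.sub | apply h.neg | apply h.smul | apply h.pD
          | apply h.pow1 | apply h.E1 | apply h.ofNat | exact h.one | apply Out.P_Dd h hO)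
theorem Out.P_B₂ {w : W} {ea : R} (hea : P w ea) {f : R} (hf : P w f) {ec : R} (hec : P w ec) {e₁ : R} (he₁ : P
    w e₁) {e₂ : R} (he₂ : P w e₂) : P w (O.B₂ D E ea f ec e₁ e₂) := by
  have := Out.P_l h hO; have := Out.P_jh h hO; have := Out.P_t₁ h hO
  have := Out.P_t₂ h hO; have := hO.ε; have := hO.μ
  have := hO.u₁; have := hO.u₂; have := hO.la
  have := hO.lc; have := hO.bp
  unfold Out.B₂
  repeat' with_reducible first
    | assumption | apply h.add | apply h.sub | apply h.neg | apply h.smul | apply h.pD | apply Out.P_Dd h hO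
    | (refine h.mul1' ?_ ?_; rotate_left; solve
        | repeat' first
          | assumption | apply h.mul11 | apply h.add | apply h.sub | apply h.neg | apply h.smul | apply h.pD
          | apply h.pow1 | apply h.E1 | apply h.ofNat | exact h.one | apply Out.P_Dd h hO)
    | (refine h.mul1 ?_ ?_; solve
        | repeat' first
          | assumption | apply h.mul11 | apply h.add | apply h.sub | apply h.neg | apply h.smul | apply h.pD
          | apply h.pow1 | apply h.E1 | apply h.ofNat | exact h.one | apply Out.P_Dd h hO)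
theorem Out.P_biR {w : W} {e : Fin 5 → R} (he : ∀ j, P w (e j)) : P w (O.biR D E e) := by
  have := hO.lc; have := hO.μ; have := hO.bp
  unfold Out.biR
  repeat' with_reducible first
    | assumption | apply h.add | apply h.sub | apply h.neg | apply h.smul | apply h.pD | apply Out.P_Dd h hO
    | apply Out.P_B₂ h hO | apply Out.P_B₁ h hO | apply he
    | (refine h.mul1' ?_ ?_; rotate_left; solve
        | repeat' first
          | assumption | apply h.mul11 | apply h.add | apply h.sub | apply h.neg | apply h.smul | apply h.pD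
          | apply h.pow1 | apply h.E1 | apply h.ofNat | exact h.one | apply Out.P_Dd h hO | apply Out.P_B₂ h hO
          | apply Out.P_B₁ h hO)
    | (refine h.mul1 ?_ ?_; solve
        | repeat' first
          | assumption | apply h.mul11 | apply h.add | apply h.sub | apply h.neg | apply h.smul | apply h.pD
          | apply h.pow1 | apply h.E1 | apply h.ofNat | exact h.one | apply Out.P_Dd h hO | apply Out.P_B₂ h hO
          | apply Out.P_B₁ h hO)

end OutW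

section LayW

variable {G : Lay R} (hG : G.All (P 1))
include hG

theorem Lay.P_out : G.out.All (P 1) :=
  ⟨hG.ε, hG.s0, h.zero 1, h.zero 1, hG.et, hG.d, hG.chi, hG.L, hG.la, hG.bp, hG.lc, hG.uw, hG.uo,
    h.zero 1, h.zero 1, h.zero 1, h.zero 1, h.zero 1, hG.rho, hG.xi1, hG.lq, hG.lAo, hG.leh⟩
theorem Lay.P_psi : P 1 (G.psi E) :=
  h.of_eq (Lay.map_psi _ h.hD h.hE (G.lift h hG))
theorem Lay.P_q : P 1 (G.q E) :=
  h.of_eq (Lay.map_q _ h.hD h.hE (G.lift h hG))
theorem Lay.P_μ : P 1 (G.μ E) :=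
  h.of_eq (Lay.map_μ _ h.hD h.hE (G.lift h hG))
theorem Lay.P_P0 : P 1 (G.P0 E) :=
  h.of_eq (Lay.map_P0 _ h.hD h.hE (G.lift h hG))
theorem Lay.P_τ₂ : P 1 (G.τ₂ D E) :=
  h.of_eq (Lay.map_τ₂ _ h.hD h.hE (G.lift h hG))
theorem Lay.P_P1 : P 1 (G.P1 D E) :=
  h.of_eq (Lay.map_P1 _ h.hD h.hE (G.lift h hG))
theorem Lay.P_Pp : P 1 (G.Pp D E) :=
  h.of_eq (Lay.map_Pp _ h.hD h.hE (G.lift h hG))
theorem Lay.P_Ao : P 1 (G.Ao D E) :=
  h.of_eq (Lay.map_Ao _ h.hD h.hE (G.lift h hG))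
theorem Lay.P_eh : P 1 (G.eh E) :=
  h.of_eq (Lay.map_eh _ h.hD h.hE (G.lift h hG))
theorem Lay.P_b : P 1 (G.b D E) :=
  h.of_eq (Lay.map_b _ h.hD h.hE (G.lift h hG))
theorem Lay.P_lCl : P 1 G.lCl :=
  h.of_eq (Lay.map_lCl _ h.hD h.hE (G.lift h hG))
theorem Lay.P_τ₁ : P 1 (G.τ₁ D E) :=
  h.of_eq (Lay.map_τ₁ _ h.hD h.hE (G.lift h hG))
theorem Lay.P_Yo : P 1 (G.Yo D E) :=
  h.of_eq (Lay.map_Yo _ h.hD h.hE (G.lift h hG))
theorem Lay.P_al : P 1 (G.al E) :=
  h.of_eq (Lay.map_al _ h.hD h.hE (G.lift h hG))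
theorem Lay.P_lal : P 1 (G.lal D E) :=
  h.of_eq (Lay.map_lal _ h.hD h.hE (G.lift h hG))
theorem Lay.P_lA : P 1 G.lA :=
  h.of_eq (Lay.map_lA _ h.hD h.hE (G.lift h hG))
theorem Lay.P_lC : P 1 G.lC :=
  h.of_eq (Lay.map_lC _ h.hD h.hE (G.lift h hG))
theorem Lay.P_u₁ : P 1 G.u₁ :=
  h.of_eq (Lay.map_u₁ _ h.hD h.hE (G.lift h hG))
theorem Lay.P_u₂ : P 1 G.u₂ :=
  h.of_eq (Lay.map_u₂ _ h.hD h.hE (G.lift h hG))
theorem Lay.P_W : P 1 (G.W E) :=
  h.of_eq (Lay.map_W _ h.hD h.hE (G.lift h hG))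
theorem Lay.P_Y : P 1 (G.Y D E) :=
  h.of_eq (Lay.map_Y _ h.hD h.hE (G.lift h hG))
theorem Lay.P_Xi : P 1 (G.Xi D E) :=
  h.of_eq (Lay.map_Xi _ h.hD h.hE (G.lift h hG))
theorem Lay.P_Xe : P 1 (G.Xe D E) :=
  h.of_eq (Lay.map_Xe _ h.hD h.hE (G.lift h hG))
theorem Lay.P_mt : P 1 (G.mt D E) :=
  h.of_eq (Lay.map_mt _ h.hD h.hE (G.lift h hG))
theorem Lay.P_ek : P 1 (G.ek D E) :=
  h.of_eq (Lay.map_ek _ h.hD h.hE (G.lift h hG))
theorem Lay.P_j : P 1 (G.j D E) :=
  h.of_eq (Lay.map_j _ h.hD h.hE (G.lift h hG))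
theorem Lay.P_lh : P 1 (G.lh D E) :=
  h.of_eq (Lay.map_lh _ h.hD h.hE (G.lift h hG))
theorem Lay.P_yv : P 1 (G.yv D E) :=
  h.of_eq (Lay.map_yv _ h.hD h.hE (G.lift h hG))
theorem Lay.P_t₂ : P 1 (G.t₂ D E) :=
  h.of_eq (Lay.map_t₂ _ h.hD h.hE (G.lift h hG))
theorem Lay.P_s₁ : P 1 (G.s₁ D E) :=
  h.of_eq (Lay.map_s₁ _ h.hD h.hE (G.lift h hG))
theorem Lay.P_s₂ : P 1 (G.s₂ D E) :=
  h.of_eq (Lay.map_s₂ _ h.hD h.hE (G.lift h hG))
theorem Lay.P_TaA : P 1 (G.TaA D E) :=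
  h.of_eq (Lay.map_TaA _ h.hD h.hE (G.lift h hG))
theorem Lay.P_Ba : P 1 (G.Ba D E) :=
  h.of_eq (Lay.map_Ba _ h.hD h.hE (G.lift h hG))
theorem Lay.P_hc : P 1 (G.hc D E) :=
  h.of_eq (Lay.map_hc _ h.hD h.hE (G.lift h hG))
theorem Lay.P_K : P 1 (G.K D E) :=
  h.of_eq (Lay.map_K _ h.hD h.hE (G.lift h hG))
theorem Lay.P_Wh : P 1 (G.Wh D E) :=
  h.of_eq (Lay.map_Wh _ h.hD h.hE (G.lift h hG))
theorem Lay.P_X₁ : P 1 (G.X₁ D E) :=
  h.of_eq (Lay.map_X₁ _ h.hD h.hE (G.lift h hG))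
theorem Lay.P_xt : P 1 (G.xt D E) :=
  h.of_eq (Lay.map_xt _ h.hD h.hE (G.lift h hG))
theorem Lay.P_X₂ : P 1 (G.X₂ D E) :=
  h.of_eq (Lay.map_X₂ _ h.hD h.hE (G.lift h hG))
theorem Lay.P_th : P 1 (G.th D E) :=
  h.of_eq (Lay.map_th _ h.hD h.hE (G.lift h hG))
theorem Lay.P_base : P 1 (G.base D E) :=
  h.of_eq (Lay.map_base _ h.hD h.hE (G.lift h hG))
theorem Lay.P_e₁ : P 1 (G.e₁ D E) :=
  h.of_eq (Lay.map_e₁ _ h.hD h.hE (G.lift h hG))
theorem Lay.P_e₂ : P 1 (G.e₂ D E) :=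
  h.of_eq (Lay.map_e₂ _ h.hD h.hE (G.lift h hG))
theorem Lay.P_e₃ : P 1 (G.e₃ D E) :=
  h.of_eq (Lay.map_e₃ _ h.hD h.hE (G.lift h hG))
theorem Lay.P_e₄ : P 1 (G.e₄ D E) :=
  h.of_eq (Lay.map_e₄ _ h.hD h.hE (G.lift h hG))
theorem Lay.P_e₅ : P 1 (G.e₅ D E) :=
  h.of_eq (Lay.map_e₅ _ h.hD h.hE (G.lift h hG))
theorem Lay.P_e (i : Fin 5) : P 1 (G.e D E i) :=
  h.of_eq (Lay.map_e _ h.hD h.hE (G.lift h hG) i)
theorem Lay.P_elay (i : Fin 5) : P 1 (G.elay D E i) :=
  h.of_eq (Lay.map_elay _ h.hD h.hE (G.lift h hG) i)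
theorem Lay.P_zo : P 1 (G.zo D E) :=
  h.of_eq (Lay.map_zo _ h.hD h.hE (G.lift h hG))
theorem Lay.P_k (i : Fin 8) : P 1 (G.k D E i) :=
  h.of_eq (Lay.map_k _ h.hD h.hE (G.lift h hG) i)
theorem Lay.P_Bc : P 1 (G.Bc D E) :=
  h.of_eq (Lay.map_Bc _ h.hD h.hE (G.lift h hG))
theorem Lay.P_lapmu : P 1 (G.lapmu D E) :=
  h.of_eq (Lay.map_lapmu _ h.hD h.hE (G.lift h hG))
theorem Lay.P_Om : P 1 (G.Om D E) :=
  h.of_eq (Lay.map_Om _ h.hD h.hE (G.lift h hG))
theorem Lay.P_cO : P 1 (G.cO D E) :=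
  h.of_eq (Lay.map_cO _ h.hD h.hE (G.lift h hG))
theorem Lay.P_E_lA : P 1 (E G.lA) := h.E1 (Lay.P_lA h hG)
theorem Lay.P_E_neg_lA : P 1 (E (-G.lA)) := h.E1 (h.neg (Lay.P_lA h hG))
theorem Lay.P_E_lC : P 1 (E G.lC) := h.E1 (Lay.P_lC h hG)
theorem Lay.P_E_neg_lC : P 1 (E (-G.lC)) := h.E1 (h.neg (Lay.P_lC h hG))
theorem Lay.P_E_lCl : P 1 (E G.lCl) := h.E1 (Lay.P_lCl h hG)
theorem Lay.P_E_neg_lCl : P 1 (E (-G.lCl)) := h.E1 (h.neg (Lay.P_lCl h hG))
theorem Lay.P_rho0 {lg : R} (hl : P 1 lg) : P 1 (G.rho0 lg) :=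
  h.add (h.add hl (h.smul _ hG.lAo)) hG.uw
theorem Lay.P_T {w : W} {f : R} (hf : P w f) : P w (G.T D E f) := by
  have := Lay.P_b h hG; have := hG.ε
  unfold Lay.T
  repeat' with_reducible first
    | assumption | apply h.add | apply h.sub | apply h.neg | apply h.smul | apply h.pD
    | (refine h.mul1' ?_ ?_; rotate_left; solve
        | repeat' first
          | assumption | apply h.mul11 | apply h.add | apply h.sub | apply h.neg | apply h.smul | apply h.pD
          | apply h.pow1 | apply h.E1 | apply h.ofNat | exact h.one)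
    | (refine h.mul1 ?_ ?_; solve
        | repeat' first
          | assumption | apply h.mul11 | apply h.add | apply h.sub | apply h.neg | apply h.smul | apply h.pD
          | apply h.pow1 | apply h.E1 | apply h.ofNat | exact h.one)
theorem Lay.P_Sd {w : W} {f : R} (hf : P w f) : P w (G.Sd D E f) := by
  have := Lay.P_μ h hG
  unfold Lay.Sd
  repeat' with_reducible first
    | assumption | apply h.add | apply h.sub | apply h.neg | apply h.smul | apply h.pD
    | (refine h.mul1' ?_ ?_; rotate_left; solve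
        | repeat' first
          | assumption | apply h.mul11 | apply h.add | apply h.sub | apply h.neg | apply h.smul | apply h.pD
          | apply h.pow1 | apply h.E1 | apply h.ofNat | exact h.one)
    | (refine h.mul1 ?_ ?_; solve
        | repeat' first
          | assumption | apply h.mul11 | apply h.add | apply h.sub | apply h.neg | apply h.smul | apply h.pD
          | apply h.pow1 | apply h.E1 | apply h.ofNat | exact h.one)
theorem Lay.P_lap {w : W} {f : R} (hf : P w f) : P w (G.lap D E f) := by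
  have := Lay.P_al h hG; have := Lay.P_lA h hG; have := Lay.P_Bc h hG
  have := Lay.P_lC h hG; have := Lay.P_hc h hG; have := Lay.P_lh h hG
  have := Lay.P_X₂ h hG; have := hG.ε
  unfold Lay.lap
  repeat' with_reducible first
    | assumption | apply h.add | apply h.sub | apply h.neg | apply h.smul | apply h.pD | apply Lay.P_T h hG
    | apply Lay.P_Sd h hG
    | (refine h.mul1' ?_ ?_; rotate_left; solve
        | repeat' first
          | assumption | apply h.mul11 | apply h.add | apply h.sub | apply h.neg | apply h.smul | apply h.pD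
          | apply h.pow1 | apply h.E1 | apply h.ofNat | exact h.one | apply Lay.P_T h hG | apply Lay.P_Sd h hG)
    | (refine h.mul1 ?_ ?_; solve
        | repeat' first
          | assumption | apply h.mul11 | apply h.add | apply h.sub | apply h.neg | apply h.smul | apply h.pD
          | apply h.pow1 | apply h.E1 | apply h.ofNat | exact h.one | apply Lay.P_T h hG | apply Lay.P_Sd h hG)
theorem Lay.P_lam₂ {w : W} {Ω : R} (hΩ : P w Ω) : P w (G.lam₂ D E Ω) := by
  have := Lay.P_al h hG; have := Lay.P_lA h hG; have := Lay.P_cO h hG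
  unfold Lay.lam₂
  repeat' with_reducible first
    | assumption | apply h.add | apply h.sub | apply h.neg | apply h.smul | apply h.pD | apply Lay.P_T h hG
    | (refine h.mul1' ?_ ?_; rotate_left; solve
        | repeat' first
          | assumption | apply h.mul11 | apply h.add | apply h.sub | apply h.neg | apply h.smul | apply h.pD
          | apply h.pow1 | apply h.E1 | apply h.ofNat | exact h.one | apply Lay.P_T h hG)
    | (refine h.mul1 ?_ ?_; solve
        | repeat' first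
          | assumption | apply h.mul11 | apply h.add | apply h.sub | apply h.neg | apply h.smul | apply h.pD
          | apply h.pow1 | apply h.E1 | apply h.ofNat | exact h.one | apply Lay.P_T h hG)
theorem Lay.P_lam₁ {w : W} {Ω : R} (hΩ : P w Ω) : P w (G.lam₁ D E Ω) := by
  have := Lay.P_lC h hG; have := Lay.P_lh h hG; have := Lay.P_τ₂ h hG
  unfold Lay.lam₁
  repeat' with_reducible first
    | assumption | apply h.add | apply h.sub | apply h.neg | apply h.smul | apply h.pD | apply Lay.P_Sd h hG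
    | (refine h.mul1' ?_ ?_; rotate_left; solve
        | repeat' first
          | assumption | apply h.mul11 | apply h.add | apply h.sub | apply h.neg | apply h.smul | apply h.pD
          | apply h.pow1 | apply h.E1 | apply h.ofNat | exact h.one | apply Lay.P_Sd h hG)
    | (refine h.mul1 ?_ ?_; solve
        | repeat' first
          | assumption | apply h.mul11 | apply h.add | apply h.sub | apply h.neg | apply h.smul | apply h.pD
          | apply h.pow1 | apply h.E1 | apply h.ofNat | exact h.one | apply Lay.P_Sd h hG)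
theorem Lay.P_biL {w : W} {Ω : R} (hΩ : P w Ω) : P w (G.biL D E Ω) := by
  have := Lay.P_ek h hG; have := Lay.P_X₂ h hG; have := Lay.P_τ₂ h hG
  have := Lay.P_xt h hG; have := Lay.P_μ h hG; have := Lay.P_P0 h hG
  have := Lay.P_τ₁ h hG; have := hG.ε
  unfold Lay.biL
  repeat' with_reducible first
    | assumption | apply h.add | apply h.sub | apply h.neg | apply h.smul | apply h.pD | apply Lay.P_T h hG
    | apply Lay.P_lam₂ h hG | apply Lay.P_Sd h hG | apply Lay.P_lam₁ h hG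
    | (refine h.mul1' ?_ ?_; rotate_left; solve
        | repeat' first
          | assumption | apply h.mul11 | apply h.add | apply h.sub | apply h.neg | apply h.smul | apply h.pD
          | apply h.pow1 | apply h.E1 | apply h.ofNat | exact h.one | apply Lay.P_T h hG
          | apply Lay.P_lam₂ h hG | apply Lay.P_Sd h hG | apply Lay.P_lam₁ h hG)
    | (refine h.mul1 ?_ ?_; solve
        | repeat' first
          | assumption | apply h.mul11 | apply h.add | apply h.sub | apply h.neg | apply h.smul | apply h.pD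
          | apply h.pow1 | apply h.E1 | apply h.ofNat | exact h.one | apply Lay.P_T h hG
          | apply Lay.P_lam₂ h hG | apply Lay.P_Sd h hG | apply Lay.P_lam₁ h hG)
theorem Lay.P_B₁ {w : W} {E1 : R} (hE1 : P w E1) {E2 : R} (hE2 : P w E2) {E3 : R} (hE3 : P w E3) {E4 : R} (hE4 :
    P w E4) {E5 : R} (hE5 : P w E5) : P w (G.B₁ D E E1 E2 E3 E4 E5) := by
  have := Lay.P_μ h hG; have := Lay.P_al h hG; have := Lay.P_mt h hG
  have := Lay.P_j h hG; have := Lay.P_yv h hG; have := Lay.P_t₂ h hG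
  have := Lay.P_W h hG; have := Lay.P_lA h hG; have := Lay.P_lC h hG
  have := Lay.P_hc h hG; have := Lay.P_lh h hG; have := Lay.P_s₁ h hG
  have := Lay.P_s₂ h hG; have := Lay.P_Y h hG; have := hG.ε
  unfold Lay.B₁
  repeat' with_reducible first
    | assumption | apply h.add | apply h.sub | apply h.neg | apply h.smul | apply h.pD | apply Lay.P_T h hG
    | apply Lay.P_Sd h hG
    | (refine h.mul1' ?_ ?_; rotate_left; solve
        | repeat' first
          | assumption | apply h.mul11 | apply h.add | apply h.sub | apply h.neg | apply h.smul | apply h.pD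
          | apply h.pow1 | apply h.E1 | apply h.ofNat | exact h.one | apply Lay.P_T h hG | apply Lay.P_Sd h hG)
    | (refine h.mul1 ?_ ?_; solve
        | repeat' first
          | assumption | apply h.mul11 | apply h.add | apply h.sub | apply h.neg | apply h.smul | apply h.pD
          | apply h.pow1 | apply h.E1 | apply h.ofNat | exact h.one | apply Lay.P_T h hG | apply Lay.P_Sd h hG)
theorem Lay.P_B₂ {w : W} {E1 : R} (hE1 : P w E1) {E2 : R} (hE2 : P w E2) {E3 : R} (hE3 : P w E3) {E4 : R} (hE4 :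
    P w E4) {E5 : R} (hE5 : P w E5) : P w (G.B₂ D E E1 E2 E3 E4 E5) := by
  have := Lay.P_μ h hG; have := Lay.P_al h hG; have := Lay.P_τ₂ h hG
  have := Lay.P_lh h hG; have := Lay.P_s₁ h hG; have := Lay.P_s₂ h hG
  have := Lay.P_lA h hG; have := Lay.P_lC h hG; have := Lay.P_Ba h hG
  have := Lay.P_t₂ h hG; have := Lay.P_j h hG; have := Lay.P_ek h hG
  have := Lay.P_yv h hG; have := Lay.P_W h hG; have := Lay.P_Y h hG
  have := hG.ε
  unfold Lay.B₂
  repeat' with_reducible first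
    | assumption | apply h.add | apply h.sub | apply h.neg | apply h.smul | apply h.pD | apply Lay.P_Sd h hG
    | apply Lay.P_T h hG
    | (refine h.mul1' ?_ ?_; rotate_left; solve
        | repeat' first
          | assumption | apply h.mul11 | apply h.add | apply h.sub | apply h.neg | apply h.smul | apply h.pD
          | apply h.pow1 | apply h.E1 | apply h.ofNat | exact h.one | apply Lay.P_Sd h hG | apply Lay.P_T h hG)
    | (refine h.mul1 ?_ ?_; solve
        | repeat' first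
          | assumption | apply h.mul11 | apply h.add | apply h.sub | apply h.neg | apply h.smul | apply h.pD
          | apply h.pow1 | apply h.E1 | apply h.ofNat | exact h.one | apply Lay.P_Sd h hG | apply Lay.P_T h hG)
theorem Lay.P_biR {w : W} {e : Fin 5 → R} (he : ∀ j, P w (e j)) : P w (G.biR D E e) := by
  have := Lay.P_ek h hG; have := hG.ε
  unfold Lay.biR
  repeat' with_reducible first
    | assumption | apply h.add | apply h.sub | apply h.neg | apply h.smul | apply h.pD | apply Lay.P_T h hG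
    | apply Lay.P_B₂ h hG | apply Lay.P_Sd h hG | apply Lay.P_B₁ h hG | apply he
    | (refine h.mul1' ?_ ?_; rotate_left; solve
        | repeat' first
          | assumption | apply h.mul11 | apply h.add | apply h.sub | apply h.neg | apply h.smul | apply h.pD
          | apply h.pow1 | apply h.E1 | apply h.ofNat | exact h.one | apply Lay.P_T h hG | apply Lay.P_B₂ h hG
          | apply Lay.P_Sd h hG | apply Lay.P_B₁ h hG)
    | (refine h.mul1 ?_ ?_; solve
        | repeat' first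
          | assumption | apply h.mul11 | apply h.add | apply h.sub | apply h.neg | apply h.smul | apply h.pD
          | apply h.pow1 | apply h.E1 | apply h.ofNat | exact h.one | apply Lay.P_T h hG | apply Lay.P_B₂ h hG
          | apply Lay.P_Sd h hG | apply Lay.P_B₁ h hG)
theorem Lay.P_kc {w : W} {k : Fin 8 → R} (hk : ∀ j, P w (k j)) (i : Fin 8) : P w (G.kc D E k i) := by
  have := Lay.P_μ h hG; have := Lay.P_τ₁ h hG; have := Lay.P_P1 h hG
  have := Lay.P_τ₂ h hG; have := Lay.P_lCl h hG; have := hG.lAo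
  have := hG.la; have := hG.lc; have := hG.bp
  refine Gen.all8 (P w) ?_ ?_ ?_ ?_ ?_ ?_ ?_ ?_ i <;>
  repeat' with_reducible first
    | assumption | apply h.add | apply h.sub | apply h.neg | apply h.smul | apply h.pD | apply hk
    | (refine h.mul1' ?_ ?_; rotate_left; solve
        | repeat' first
          | assumption | apply h.mul11 | apply h.add | apply h.sub | apply h.neg | apply h.smul | apply h.pD
          | apply h.pow1 | apply h.E1 | apply h.ofNat | exact h.one)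
    | (refine h.mul1 ?_ ?_; solve
        | repeat' first
          | assumption | apply h.mul11 | apply h.add | apply h.sub | apply h.neg | apply h.smul | apply h.pD
          | apply h.pow1 | apply h.E1 | apply h.ofNat | exact h.one)

variable {e : W} (hε : P e G.ε)
include hε

theorem Lay.Pe_mt : P e (G.mt D E) := h.mul1' (h.mul1' hε (Lay.P_μ h hG)) (Lay.P_τ₁ h hG)
theorem Lay.Pe_ek : P e (G.ek D E) :=
  h.sub (Lay.Pe_mt h hG hε) (h.mul1' hε (h.pD 1 (Lay.P_b h hG)))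
theorem Lay.Pe_T {w : W} {f : R} (hf : P w f) : P (e * w) (G.T D E f - D 0 f) := by
  rw [Lay.T, add_sub_cancel_left]
  exact h.mul (h.mul1' hε (Lay.P_b h hG)) (h.pD 1 hf)
theorem Lay.Pe_biL {w : W} {f : R} (hf : P w f) :
    P (e * w) (G.biL D E f - D 0 (G.lam₂ D E f)) := by
  have e1 : G.biL D E f - D 0 (G.lam₂ D E f) =
      G.T D E (G.lam₂ D E f) - D 0 (G.lam₂ D E f) - G.ek D E * G.lam₂ D E f +
        G.ε * (f * (G.τ₂ D E * G.xt D E - G.μ E * G.P0 E * G.τ₁ D E) - D 1 (f * G.X₂ D E) +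
          G.ε * G.Sd D E (G.lam₁ D E f)) := by
    rw [Lay.biL]; ring
  have h2 := Lay.P_lam₂ h hG hf
  rw [e1]
  exact h.add (h.sub (Lay.Pe_T h hG hε h2) (h.mul (Lay.Pe_ek h hG hε) h2))
    (h.mul hε (h.add (h.sub (h.mul1' hf (h.sub (h.mul11 (Lay.P_τ₂ h hG) (Lay.P_xt h hG))
      (h.mul11 (h.mul11 (Lay.P_μ h hG) (Lay.P_P0 h hG)) (Lay.P_τ₁ h hG))))
      (h.pD 1 (h.mul1' hf (Lay.P_X₂ h hG))))
      (h.mul1 hG.ε (Lay.P_Sd h hG (Lay.P_lam₁ h hG hf)))))
theorem Lay.Pe_cov {w : W} {er : Fin 5 → R} (her : ∀ j, P w (er j)) (k : Fin 5) :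
    P (e * w) (G.cov D E er k) := by
  have := Lay.P_μ h hG
  have := Lay.P_τ₁ h hG
  have := Lay.P_τ₂ h hG
  have := Lay.P_P1 h hG
  have := h.mul1' hε (Lay.P_E_lCl h hG)
  have := hG.la
  have := hG.lc
  have := hG.bp
  have := hG.lAo
  refine Gen.all5 (P (e * w)) ?_ ?_ ?_ ?_ ?_ k <;> refine h.mul (by assumption) ?_ <;>
  repeat' with_reducible first
    | assumption | apply h.add | apply h.sub | apply h.neg | apply h.smul | apply h.pD | apply her
    | (refine h.mul1' ?_ ?_; rotate_left; solve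
        | repeat' first
          | assumption | apply h.mul11 | apply h.add | apply h.sub | apply h.neg | apply h.smul | apply h.pD
          | apply h.pow1 | apply h.E1 | apply h.ofNat | exact h.one)
    | (refine h.mul1 ?_ ?_; solve
        | repeat' first
          | assumption | apply h.mul11 | apply h.add | apply h.sub | apply h.neg | apply h.smul | apply h.pD
          | apply h.pow1 | apply h.E1 | apply h.ofNat | exact h.one)

omit hε in
theorem Lay.P_cov {w : W} {er : Fin 5 → R} (her : ∀ j, P w (er j)) (k : Fin 5) :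
    P w (G.cov D E er k) := h.congr (Lay.Pe_cov h hG hG.ε her k) (one_mul w)
omit hε in
theorem Lay.P_tot {er : Fin 5 → R} (her : ∀ j, P 1 (er j)) (k : Fin 5) :
    P 1 (G.tot D E er k) := h.add (Lay.P_elay h hG k) (Lay.P_cov h hG her k)

end LayW

end Weights

/-! ### Raw families, smooth families and germs -/

section Raw

variable {I : Type} {n : ℕ}

noncomputable def rawE (F : I → En n → ℝ) : I → En n → ℝ := fun i p => Real.exp (F i p)

/-- The exponential of a single function. -/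
noncomputable def ptE (f : En n → ℝ) : En n → ℝ := fun p => Real.exp (f p)

theorem eval_fD (i : I) (j : Fin n) (F : I → En n → ℝ) :
    Pi.evalAlgHom ℝ (fun _ => En n → ℝ) i (fD j F) =
      pdn j (Pi.evalAlgHom ℝ (fun _ => En n → ℝ) i F) := rfl
theorem eval_rawE (i : I) (F : I → En n → ℝ) :
    Pi.evalAlgHom ℝ (fun _ => En n → ℝ) i (rawE F) =
      ptE (Pi.evalAlgHom ℝ (fun _ => En n → ℝ) i F) := rfl

variable (l : Filter (I × En n))

noncomputable def sfE (F : SmF l) : SmF l :=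
  ⟨rawE F.1, by filter_upwards [F.2] with z hz using hz.exp⟩

theorem val_sfE (F : SmF l) : (SmF l).val (sfE l F) = rawE ((SmF l).val F) := rfl
theorem val_sfD' (j : Fin n) (F : SmF l) :
    (SmF l).val (sfD l j F) = fD j ((SmF l).val F) := rfl

theorem mkG_sfE (F : SmF l) : mkG l (sfE l F) = expG (mkG l F) := by
  have e : expG (mkG l F) = mkG l (sfE l (rep (mkG l F))) := gm_eq (sfE l (rep (mkG l F))).2
  rw [e, mkG_eq]
  filter_upwards [mkG_eq.1 (mkG_rep (mkG l F))] with z hz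
  exact congrArg Real.exp hz.symm
theorem mkG_sfD' [OpF l] (j : Fin n) (F : SmF l) : mkG l (sfD l j F) = gD j (mkG l F) :=
  mkG_sfD j F

end Raw

end Pool.Agent.Lib.MP_df9110_gt
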