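import Pool.Agent.Lib.MP_df9110_gt.NBlk
import Pool.Agent.Lib.MP_df9110_gt.Wt

/-! Real inequalities for the barrier in the layer. -/

namespace Pool.Agent.Lib.MP_df9110_gt

open Filter Topology Set
open scoped ContDiff

namespace LayBlk

/-- the constant of the lower order terms -/
def K5 (k M : ℝ) : ℝ := k ^ 2 * (3 * k ^ 2 * (3 * k ^ 2 + M)) + 6 * k ^ 6

theorem fb1 {k K R ε τ X : ℝ} (h1 : 5 * K ^ 2 * R ^ 2 ≤ X / 16) (h2 : (K + 1) * (k * ε) ≤ 1 / 80) :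
    k * ε + K * (k * ε) + R * K * τ ≤ 1 / 5 + X * (τ ^ 2 / 16) := by
  nlinarith [mul_le_mul_of_nonneg_right h1 (sq_nonneg τ), sq_nonneg (10 * (R * K * τ) - 1)]

theorem fb2 {k K R ε μ A : ℝ} (k0 : 0 < k) (K0 : 0 ≤ K) (hε : 0 < ε) (μ0 : 0 ≤ μ)
    (hs : 80 * (K + 1) ^ 2 * k ^ 3 * ε ≤ 1) (hA : 1 ≤ k * A) (hR : R ^ 2 ≤ k ^ 2 * μ) :
    5 * K ^ 2 * R ^ 2 ≤ μ / ε * A / 16 := by
  have b2 : 80 * K ^ 2 * k ^ 2 * ε ≤ A := by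
    refine le_of_mul_le_mul_left ?_ k0
    calc _ = 80 * K ^ 2 * k ^ 3 * ε := by ring
      _ ≤ 80 * (K + 1) ^ 2 * k ^ 3 * ε := by gcongr; linarith
      _ ≤ _ := hs.trans hA
  calc _ ≤ 5 * K ^ 2 * (k ^ 2 * μ) := by gcongr
    _ = μ / ε * (80 * K ^ 2 * k ^ 2 * ε) / 16 := by field_simp; ring
    _ ≤ _ := by gcongr

theorem fb3 {k K ε : ℝ} (hk : 1 ≤ k) (K0 : 0 ≤ K) (hε : 0 < ε)
    (hs : 80 * (K + 1) ^ 2 * k ^ 3 * ε ≤ 1) :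
    (K + 1) * (k * ε) ≤ 1 / 80 ∧ k ^ 3 * ε ≤ 1 / 80 ∧ k * ε ≤ 1 / 80 ∧ ε ≤ 1 := by
  have a1 : k * ε ≤ k ^ 3 * ε := by gcongr; exact le_self_pow₀ hk (by norm_num)
  have a2 : ε ≤ k * ε := le_mul_of_one_le_left hε.le hk
  have a3 : (K + 1) * (k ^ 3 * ε) ≤ 1 / 80 := by
    have : (K + 1) * (k ^ 3 * ε) ≤ (K + 1) ^ 2 * (k ^ 3 * ε) := by
      gcongr; exact le_self_pow₀ (by linarith) (by norm_num)
    linarith
  have a4 : (K + 1) * (k * ε) ≤ (K + 1) * (k ^ 3 * ε) := by gcongr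
  have a5 : 0 ≤ K * (k ^ 3 * ε) := by positivity
  refine ⟨by linarith, by linarith, by linarith, by linarith⟩

theorem fb4 {k M R ε τ : ℝ} (hk : 1 ≤ k) (hM : 5 * k ^ 10 ≤ M) (hR' : R ≤ k) (hε : 0 < ε)
    (hτ : 0 ≤ τ) (hτ' : τ ≤ 1) (e3 : k ^ 3 * ε ≤ 1 / 80) (e4 : k * ε ≤ 1 / 80) :
    k * ε + R * k ^ 2 * (τ ^ 3 + ε) ≤ 3 / 4 + 8 * M * τ ^ 4 := by
  have a0 : τ ^ 3 ≤ τ ^ 2 := pow_le_pow_of_le_one hτ hτ' (by norm_num)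
  have a1 : R * k ^ 2 * (τ ^ 3 + ε) ≤ k * k ^ 2 * (τ ^ 2 + ε) := by gcongr
  have a3 : k ^ 6 ≤ k ^ 10 := pow_le_pow_right₀ hk (by norm_num)
  have a4 : 0 ≤ k ^ 10 := by positivity
  have a2 : k ^ 6 * τ ^ 4 ≤ M * τ ^ 4 := by gcongr; linarith
  have : 0 ≤ k ^ 6 * τ ^ 4 := by positivity
  nlinarith [sq_nonneg (k ^ 3 * τ ^ 2 - 1)]

theorem fb5 {k M R τ : ℝ} (hk : 1 ≤ k) (hM : 5 * k ^ 10 ≤ M) (hR' : R ≤ k)
    (hτ : 0 ≤ τ) (hτ' : τ ≤ 1) : 6 * (R * k ^ 4) * τ ^ 7 ≤ τ ^ 2 / 16 + 32 * M * τ ^ 8 := by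
  have a0 : τ ^ 7 ≤ τ ^ 5 := pow_le_pow_of_le_one hτ hτ' (by norm_num)
  have b1 : 6 * (R * k ^ 4) * τ ^ 7 ≤ 6 * (k * k ^ 4) * τ ^ 5 := by gcongr
  have b2 : 5 * k ^ 10 * τ ^ 8 ≤ M * τ ^ 8 := by gcongr
  have b3 : 0 ≤ k ^ 10 * τ ^ 8 := by positivity
  nlinarith [sq_nonneg (τ * (12 * k ^ 5 * τ ^ 3 - 1 / 4))]

/-- The three inequalities of the barrier criterion. -/
theorem fin_bar {k M C₀ Q ε f R μ τ A φ L c ζ κ : ℝ} (hk : 1 ≤ k) (hM : 5 * k ^ 10 ≤ M)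
    (hC' : C₀ ≤ k) (hQ : 0 ≤ Q) (hQ' : Q ≤ k) (hε : 0 < ε)
    (hs : 80 * (K5 k M + 1) ^ 2 * k ^ 3 * ε ≤ 1) (hf : 0 < f) (hf' : f ≤ 1 / 16) (hR : 0 ≤ R)
    (hR' : R ≤ k) (hμ : μ = f * R) (hRμ : R ^ 2 ≤ k ^ 2 * μ) (hτ : 0 ≤ τ) (hτ' : τ ≤ 1)
    (hA : 1 ≤ k * A) (hA' : A ≤ k) (hc : c ≤ f * (k * ε)) (hζ : ζ = μ * Q * (τ ^ 3 + ε))
    (hκ : κ = μ / ε * (2 * A * τ ^ 4))
    (hL : L ≤ -(f * (1 / 5 + μ / ε * A * (τ ^ 2 / 8 + 32 * M * τ ^ 8))))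
    (hφ : f * (3 / 4 + 8 * M * τ ^ 4) ≤ φ) (hφ' : φ ≤ f * (1 + τ ^ 2 / 2 + 8 * M * τ ^ 4)) :
    c + C₀ * ζ ≤ φ ∧ (2 * φ - 1 / 2) * κ + L + c + C₀ * ζ * (1 + ζ) * (1 + φ + ζ + 0) ≤ 0 ∧
      (2 * φ - 1 / 2) * 0 + L + c + C₀ * ζ * (1 + ζ) * (1 + φ + ζ + κ) ≤ 0 := by
  have k0 : 0 < k := by linarith
  have k2 : 1 ≤ k ^ 2 := one_le_pow₀ hk
  have k10 : 1 ≤ k ^ 10 := one_le_pow₀ hk
  have M0 : 0 ≤ M := by linarith
  have A0 : 0 < A := (mul_pos_iff_of_pos_left k0).1 (by linarith)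
  have μ0 : 0 ≤ μ := by rw [hμ]; positivity
  have μ1 : μ ≤ k := by
    rw [hμ]; exact (mul_le_of_le_one_left hR (by linarith)).trans hR'
  have K0 : 0 ≤ K5 k M := by unfold K5; positivity
  obtain ⟨e2, e3, e4, ε1⟩ := fb3 hk K0 hε hs
  have t1 : ∀ n, τ ^ n ≤ 1 := fun n => pow_le_one₀ hτ hτ'
  have t2 : ∀ n, n ≠ 0 → τ ^ n ≤ τ := fun n hn => pow_le_of_le_one hτ hτ' hn
  have ζ0 : 0 ≤ ζ := by rw [hζ]; positivity
  have κ0 : 0 ≤ κ := by rw [hκ]; positivity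
  have ζ1 : 1 + ζ ≤ 3 * k ^ 2 := by
    have : ζ ≤ k * k * 2 := by rw [hζ]; gcongr; linarith [t1 3]
    linarith
  have φ0 : 0 ≤ φ := le_trans (by positivity) hφ
  have φ1 : φ ≤ M := by
    have : f * (1 + τ ^ 2 / 2 + 8 * M * τ ^ 4) ≤ 1 / 16 * (1 + 1 / 2 + 8 * M * 1) := by
      gcongr
      exacts [t1 2, t1 4]
    linarith
  have cz : C₀ * ζ ≤ f * (R * k ^ 2 * (τ ^ 3 + ε)) := by
    calc C₀ * ζ = f * (R * (C₀ * Q) * (τ ^ 3 + ε)) := by rw [hζ, hμ]; ring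
      _ ≤ f * (R * (k * k) * (τ ^ 3 + ε)) := by gcongr
      _ = _ := by ring
  have s1 := mul_le_mul_of_nonneg_left
    (fb1 (τ := τ) (fb2 k0 K0 hε μ0 hs hA hRμ) e2) hf.le
  have X0 : 0 ≤ μ / ε * A := by positivity
  have a4 : f * (R * k ^ 2 * (τ ^ 3 + ε)) * (3 * k ^ 2) * κ =
      f * (μ / ε * A * (6 * (R * k ^ 4) * τ ^ 7)) + f * (R * (6 * k ^ 4 * (μ * A)) * τ ^ 4) := by
    rw [hκ]; field_simp; ring
  have a5 : κ = μ / ε * A * (2 * τ ^ 4) := by rw [hκ]; ring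
  generalize μ / ε * A = X at *
  have S : c + C₀ * ζ * (1 + ζ) * (1 + φ + ζ) + f * (R * (6 * k ^ 6) * τ) ≤
      f * (1 / 5 + X * (τ ^ 2 / 16)) := by
    have a0 : C₀ * ζ ≤ f * (R * k ^ 2 * (τ + ε)) := cz.trans (by gcongr; exact t2 3 (by norm_num))
    have a1 : C₀ * ζ * (1 + ζ) * (1 + φ + ζ) ≤
        f * (R * k ^ 2 * (τ + ε)) * (3 * k ^ 2) * (3 * k ^ 2 + M) :=
      mul_le_mul (mul_le_mul a0 ζ1 (by positivity) (by positivity)) (by linarith) (by positivity)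
        (by positivity)
    have a3 : f * (R * (k ^ 2 * (3 * k ^ 2 * (3 * k ^ 2 + M))) * ε) ≤ f * (k * K5 k M * ε) := by
      gcongr; unfold K5; linarith [show 0 ≤ 6 * k ^ 6 by positivity]
    unfold K5 at s1 a3
    linarith
  have S0 : 0 ≤ f * (R * (6 * k ^ 6) * τ) := by positivity
  have X2 : 0 ≤ f * (X * τ ^ 2) := by positivity
  refine ⟨?_, ?_, ?_⟩
  · linarith [mul_le_mul_of_nonneg_left (fb4 hk hM hR' hε hτ hτ' e3 e4) hf.le]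
  · have a1 : 2 * φ - 1 / 2 ≤ f * (16 * M * τ ^ 4) := by
      linarith [mul_le_mul_of_nonneg_left (t1 2) hf.le]
    have a2 : (2 * φ - 1 / 2) * κ ≤ f * (X * (32 * M * τ ^ 8)) :=
      (mul_le_mul_of_nonneg_right a1 κ0).trans (le_of_eq (by rw [a5]; ring))
    linarith
  · have a1 : C₀ * ζ * (1 + ζ) * κ ≤ f * (R * k ^ 2 * (τ ^ 3 + ε)) * (3 * k ^ 2) * κ :=
      mul_le_mul_of_nonneg_right (mul_le_mul cz ζ1 (by positivity) (by positivity)) κ0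
    have a3 : f * (R * (6 * k ^ 4 * (μ * A)) * τ ^ 4) ≤ f * (R * (6 * k ^ 4 * (k * k)) * τ) := by
      gcongr; exact t2 4 (by norm_num)
    linarith [mul_le_mul_of_nonneg_left (mul_le_mul_of_nonneg_left (fb5 hk hM hR' hτ hτ') X0) hf.le]

/-- The Laplacian of the barrier where the cut-off is one. -/
theorem L_in {M K ε μ τ A α β u w η : ℝ} (M0 : 0 ≤ M) (hε : 0 < ε) (μ0 : 0 ≤ μ) (hτ : 0 ≤ τ)
    (hτ' : τ ≤ 1) (hα : |α - A * (1 - τ ^ 4)| ≤ η) (hβ : |β - 2 * A| ≤ η) (hu : u ≤ -(1 / 5))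
    (hw : |w| ≤ K) (hη : η * (1 + 48 * M) ≤ A / 4) (hs : ε * K * (1 + 16 * M) ≤ A / 8) :
    (1 + (τ ^ 2 / 2 + 8 * M * τ ^ 4)) * u + μ / ε * (α * (τ ^ 2 / 2 + 32 * M * τ ^ 4) +
      β * (-(τ ^ 2 / 2) - 16 * M * τ ^ 4)) + μ * w * (-(τ ^ 2 / 2) - 16 * M * τ ^ 4) ≤
      -(1 / 5 + μ / ε * A * (τ ^ 2 / 8 + 32 * M * τ ^ 8)) := by
  have η0 : 0 ≤ η := (abs_nonneg _).trans hβ
  have K0 : 0 ≤ K := (abs_nonneg _).trans hw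
  have A0 : 0 ≤ A := by nlinarith [mul_nonneg η0 M0]
  have t4 : M * τ ^ 4 ≤ M * τ ^ 2 :=
    mul_le_mul_of_nonneg_left (pow_le_pow_of_le_one hτ hτ' (by norm_num)) M0
  have p1 : 0 ≤ τ ^ 2 / 2 + 8 * M * τ ^ 4 := by positivity
  have p2 : 0 ≤ τ ^ 2 / 2 + 16 * M * τ ^ 4 := by positivity
  have p3 : 0 ≤ τ ^ 2 / 2 + 32 * M * τ ^ 4 := by positivity
  have a1 : (τ ^ 2 / 2 + 8 * M * τ ^ 4) * u ≤ 0 := mul_nonpos_of_nonneg_of_nonpos p1 (by linarith)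
  have a2 := mul_le_mul_of_nonneg_right (abs_le.1 hα).2 p3
  have a3 := mul_le_mul_of_nonneg_right (abs_le.1 hβ).1 p2
  have a4 := mul_le_mul_of_nonneg_left t4 η0
  have a5 := mul_le_mul_of_nonneg_right hη (sq_nonneg τ)
  have a6 : 0 ≤ A * τ ^ 6 := by positivity
  have a7 : α * (τ ^ 2 / 2 + 32 * M * τ ^ 4) + β * (-(τ ^ 2 / 2) - 16 * M * τ ^ 4) ≤
      -(A * (τ ^ 2 / 4 + 32 * M * τ ^ 8)) := by linarith
  have a8 : ε * (w * (-(τ ^ 2 / 2) - 16 * M * τ ^ 4)) ≤ A * (τ ^ 2 / 8) := by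
    have b1 := mul_le_mul_of_nonneg_left (mul_le_mul_of_nonneg_right (abs_le.1 hw).1 p2) hε.le
    have b2 := mul_le_mul_of_nonneg_left t4 (mul_nonneg hε.le K0)
    have b3 := mul_le_mul_of_nonneg_right hs (sq_nonneg τ)
    have b4 : 0 ≤ ε * K * τ ^ 2 := by positivity
    linarith
  have X0 : 0 ≤ μ / ε := by positivity
  have a9 : μ = μ / ε * ε := by field_simp
  generalize μ / ε = X at *
  subst a9
  linarith [mul_le_mul_of_nonneg_left a7 X0, mul_le_mul_of_nonneg_left a8 X0]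

/-- The Laplacian of the barrier where the layer is negligible. -/
theorem L_out {M K ε μ t A α β u w h h₁ h₂ y : ℝ} (hK : 1 ≤ K) (M0 : 0 ≤ M) (hM : M ≤ K)
    (hε : 0 < ε) (μ0 : 0 ≤ μ) (μ1 : μ ≤ K) (ht : 0 ≤ t) (ht' : t ≤ K * ε ^ 2) (hy : 0 ≤ y)
    (hy' : y ≤ t) (hA : A ≤ K) (hα : |α| ≤ K) (hβ : |β| ≤ K)
    (hu : u ≤ -(1 / 4) + K * ε) (hw : |w| ≤ K) (h0 : 0 ≤ h) (h1 : |h₁| ≤ K * t)
    (h2 : |h₂| ≤ K * t) (hs : 1000 * K ^ 4 * ε ≤ 1) :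
    (1 + h) * u + μ / ε * (α * h₂ + β * h₁) + μ * w * h₁ ≤
      -(1 / 5 + μ / ε * A * (t / 8 + 32 * M * y)) := by
  have K0 : 0 ≤ K := by linarith
  have k4 : K * ε ≤ K ^ 4 * ε := by gcongr; exact le_self_pow₀ hK (by norm_num)
  have ε1 : ε ≤ 1 := by nlinarith
  have a1 : h * u ≤ 0 := mul_nonpos_of_nonneg_of_nonpos h0 (by linarith)
  have m : ∀ {x z : ℝ}, |x| ≤ K → |z| ≤ K * t → x * z ≤ K * (K * t) := fun hx hz =>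
    (le_abs_self _).trans (by rw [abs_mul]; gcongr)
  have a2 : ε * (w * h₁) ≤ 1 * (K * (K * t)) :=
    (mul_le_mul_of_nonneg_left (m hw h1) hε.le).trans (by gcongr)
  have a3 : A * (t / 8 + 32 * M * y) ≤ K * (K * t + 32 * K * t) := by
    gcongr
    nlinarith
  have a4 : μ / ε * (36 * (K * (K * t))) ≤ K / ε * (36 * (K * (K * (K * ε ^ 2)))) := by gcongr
  have a5 : K / ε * (36 * (K * (K * (K * ε ^ 2)))) = 36 * (K ^ 4 * ε) := by field_simp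
  have a6 : α * h₂ + β * h₁ + ε * (w * h₁) + A * (t / 8 + 32 * M * y) ≤ 36 * (K * (K * t)) := by
    linarith [m hα h2, m hβ h1]
  have X0 : 0 ≤ μ / ε := by positivity
  have a9 : μ = μ / ε * ε := by field_simp
  generalize μ / ε = X at *
  subst a9
  linarith [mul_le_mul_of_nonneg_left a6 X0]

theorem L_le {M K ε μ τ A α β u w η m₀ m₁ m₂ h h₁ h₂ : ℝ} (hK : 1 ≤ K) (M0 : 0 ≤ M) (hM : M ≤ K)
    (hε : 0 < ε) (μ0 : 0 ≤ μ) (μ1 : μ ≤ K) (hτ : 0 ≤ τ) (hτ' : τ ≤ 1) (hA : 1 ≤ K * A)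
    (hA' : A ≤ K) (hα : |α - A * (1 - τ ^ 4)| ≤ η) (hβ : |β - 2 * A| ≤ η) (hη : η ≤ K)
    (hu : u ≤ -(1 / 4) + 100 * K ^ 2 * ε) (hw : |w| ≤ 100 * K ^ 2) (m0 : 0 ≤ m₀) (m1 : m₀ ≤ 1)
    (hm₁ : |m₁| ≤ K) (hm₂ : |m₂| ≤ K) (hs : 1000 * (100 * K ^ 2) ^ 4 * ε ≤ 1)
    (e0 : h = m₀ * (τ ^ 2 / 2 + 8 * M * τ ^ 4))
    (e1 : h₁ = ε * m₁ * (τ ^ 2 / 2 + 8 * M * τ ^ 4) + m₀ * (-(τ ^ 2 / 2) - 16 * M * τ ^ 4))
    (e2 : h₂ = ε ^ 2 * m₂ * (τ ^ 2 / 2 + 8 * M * τ ^ 4) +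
      2 * ε * m₁ * (-(τ ^ 2 / 2) - 16 * M * τ ^ 4) + m₀ * (τ ^ 2 / 2 + 32 * M * τ ^ 4))
    (hc : (m₀ = 1 ∧ m₁ = 0 ∧ m₂ = 0 ∧ η * (1 + 48 * M) ≤ A / 4) ∨ τ ^ 2 ≤ K * ε ^ 2) :
    (1 + h) * u + μ / ε * (α * h₂ + β * h₁) + μ * w * h₁ ≤
      -(1 / 5 + μ / ε * A * (τ ^ 2 / 8 + 32 * M * τ ^ 8)) ∧
    3 / 4 + 8 * M * τ ^ 4 ≤ 1 + h ∧ 1 + h ≤ 1 + τ ^ 2 / 2 + 8 * M * τ ^ 4 := by
  have K0 : 0 < K := by linarith
  have A0 : 0 < A := (mul_pos_iff_of_pos_left K0).1 (by linarith)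
  have k2 : K ≤ K ^ 2 := le_self_pow₀ hK (by norm_num)
  have k8 : K ^ 4 * ε ≤ K ^ 8 * ε := by gcongr; norm_num
  have k4 : K ^ 2 * ε ≤ K ^ 4 * ε := by gcongr; norm_num
  have k1 : ε ≤ K ^ 2 * ε := le_mul_of_one_le_left hε.le (by linarith)
  have s4 : 10 ^ 11 * (K ^ 4 * ε) ≤ 1 := by linarith
  have p1 : 0 ≤ τ ^ 2 / 2 + 8 * M * τ ^ 4 := by positivity
  have h0 : 0 ≤ h := by rw [e0]; positivity
  have h1 : h ≤ τ ^ 2 / 2 + 8 * M * τ ^ 4 := by rw [e0]; exact mul_le_of_le_one_left p1 m1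
  have t4 : τ ^ 4 ≤ τ ^ 2 := pow_le_pow_of_le_one hτ hτ' (by norm_num)
  have t5 : M * τ ^ 4 ≤ K * τ ^ 2 := by gcongr
  have t6 : τ ^ 2 ≤ K * τ ^ 2 := le_mul_of_one_le_left (sq_nonneg τ) hK
  have t7 : 0 ≤ M * τ ^ 4 := by positivity
  rcases hc with ⟨rfl, rfl, rfl, hc⟩ | hc
  · refine ⟨?_, by rw [e0]; linarith [sq_nonneg τ], by linarith⟩
    have := L_in M0 hε μ0 hτ hτ' hα hβ (u := u) (by linarith) hw hc (by
      refine le_of_mul_le_mul_left ?_ K0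
      calc _ ≤ K * (ε * (100 * K ^ 2) * (K + 16 * K)) := by gcongr
        _ ≤ _ := by linarith)
    rw [e0, e1, e2]
    linarith
  · have ε1 : ε ≤ 1 := by linarith
    have t8 : K * τ ^ 2 ≤ K ^ 2 * ε := by
      calc _ ≤ K * (K * ε) := by
            gcongr; exact hc.trans (by gcongr; exact pow_le_of_le_one hε.le ε1 (by norm_num))
        _ = _ := by ring
    refine ⟨?_, by linarith, by linarith⟩
    have b : ∀ {a x B : ℝ}, |a| ≤ K → |x| ≤ B * (K * τ ^ 2) → |a * x| ≤ B * (K ^ 2 * τ ^ 2) :=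
      fun ha hx => by
        rw [abs_mul]
        exact (mul_le_mul ha hx (abs_nonneg _) K0.le).trans (le_of_eq (by ring))
    have c : ∀ {a e : ℝ}, 0 ≤ e → e ≤ 1 → |a| ≤ K → |e * a| ≤ K := fun he he' ha => by
      rw [abs_mul, abs_of_nonneg he]; exact (mul_le_of_le_one_left (abs_nonneg _) he').trans ha
    have q0 : |τ ^ 2 / 2 + 8 * M * τ ^ 4| ≤ 9 * (K * τ ^ 2) := abs_le.2 ⟨by linarith, by linarith⟩
    have q1 : |-(τ ^ 2 / 2) - 16 * M * τ ^ 4| ≤ 17 * (K * τ ^ 2) :=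
      abs_le.2 ⟨by linarith, by linarith⟩
    have q2 : |τ ^ 2 / 2 + 32 * M * τ ^ 4| ≤ 33 * (K * τ ^ 2) := abs_le.2 ⟨by linarith, by linarith⟩
    have q3 : |m₀| ≤ K := abs_le.2 ⟨by linarith, by linarith⟩
    have r1 := abs_le.1 (b (c hε.le ε1 hm₁) q0)
    have r2 := abs_le.1 (b q3 q1)
    have r3 := abs_le.1 (b (c (sq_nonneg ε) (pow_le_one₀ hε.le ε1) hm₂) q0)
    have r4 := abs_le.1 (b (c hε.le ε1 hm₁) q1)
    have r5 := abs_le.1 (b q3 q2)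
    have r6 : 0 ≤ K ^ 2 * τ ^ 2 := by positivity
    have r7 : 0 ≤ A * τ ^ 4 := by positivity
    have r8 : A * τ ^ 4 ≤ A * 1 := by gcongr; exact pow_le_one₀ hτ hτ'
    have r9 := abs_le.1 hα
    have r10 := abs_le.1 hβ
    refine L_out (K := 100 * K ^ 2) (by linarith) M0 (by linarith) hε μ0 (by linarith)
      (sq_nonneg τ) (hc.trans (by gcongr; linarith)) (by positivity)
      (pow_le_pow_of_le_one hτ hτ' (by norm_num)) (by linarith)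
      (abs_le.2 ⟨by linarith, by linarith⟩) (abs_le.2 ⟨by linarith, by linarith⟩) hu hw h0
      (abs_le.2 ⟨by rw [e1]; linarith, by rw [e1]; linarith⟩)
      (abs_le.2 ⟨by rw [e2]; linarith, by rw [e2]; linarith⟩) hs

theorem mcut_cd (c₁ : ℝ) : ContDiff ℝ ∞ (mcut c₁) :=
  Real.smoothTransition.contDiff.comp (contDiff_const.sub (contDiff_id.div_const c₁))

theorem mcut_one {c₁ s : ℝ} (h : 0 < c₁) (hs : s ≤ c₁) : mcut c₁ s = 1 :=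
  Real.smoothTransition.one_of_one_le (by linarith [(div_le_one h).2 hs])

theorem isCut_mcut {c₁ : ℝ} (h : 0 < c₁) : IsCut (mcut c₁) :=
  ⟨mcut_cd c₁, fun _ => ⟨Real.smoothTransition.nonneg _, Real.smoothTransition.le_one _⟩, c₁, h,
    fun _ => mcut_one h⟩

theorem mcut_der {c₁ s : ℝ} (h : 0 < c₁) (hs : s < c₁) :
    deriv (mcut c₁) s = 0 ∧ deriv (deriv (mcut c₁)) s = 0 := by
  have e : mcut c₁ =ᶠ[𝓝 s] fun _ => 1 := by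
    filter_upwards [Iio_mem_nhds hs] with x hx using mcut_one h (le_of_lt hx)
  exact ⟨by simpa using e.deriv_eq, by simpa using e.deriv.deriv_eq⟩

theorem bT_cd (c₁ M ε : ℝ) : ContDiff ℝ ∞ fun σ => bT c₁ M ε σ 1 := by
  have := mcut_cd c₁
  unfold bT
  fun_prop

theorem bT_der (c₁ M ε σ : ℝ) :
    deriv (fun σ => bT c₁ M ε σ 1) σ =
      ε * deriv (mcut c₁) (ε * σ) * (Real.exp (-σ) / 2 + 8 * M * Real.exp (-(2 * σ))) +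
        mcut c₁ (ε * σ) * (-(Real.exp (-σ) / 2) - 16 * M * Real.exp (-(2 * σ))) ∧
    deriv (deriv fun σ => bT c₁ M ε σ 1) σ =
      ε ^ 2 * deriv (deriv (mcut c₁)) (ε * σ) * (Real.exp (-σ) / 2 + 8 * M * Real.exp (-(2 * σ))) +
        2 * ε * deriv (mcut c₁) (ε * σ) * (-(Real.exp (-σ) / 2) - 16 * M * Real.exp (-(2 * σ))) +
        mcut c₁ (ε * σ) * (Real.exp (-σ) / 2 + 32 * M * Real.exp (-(2 * σ))) := by
  have hm : ∀ {n : ℝ → ℝ}, ContDiff ℝ ∞ n → ∀ σ,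
      HasDerivAt (fun σ => n (ε * σ)) (deriv n (ε * σ) * (ε * 1)) σ := fun hn σ =>
    (hn.differentiable (by simp) _).hasDerivAt.comp σ ((hasDerivAt_id σ).const_mul ε)
  have h1 : ∀ σ : ℝ, HasDerivAt (fun σ => Real.exp (-σ)) (Real.exp (-σ) * -1) σ := fun σ =>
    (hasDerivAt_neg σ).exp
  have h2 : ∀ σ : ℝ, HasDerivAt (fun σ => Real.exp (-(2 * σ))) (Real.exp (-(2 * σ)) * -(2 * 1)) σ :=
    fun σ => ((hasDerivAt_id σ).const_mul 2).neg.exp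
  have e : (deriv fun σ => bT c₁ M ε σ 1) = fun σ =>
      ε * deriv (mcut c₁) (ε * σ) * (Real.exp (-σ) / 2 + 8 * M * Real.exp (-(2 * σ))) +
        mcut c₁ (ε * σ) * (-(Real.exp (-σ) / 2) - 16 * M * Real.exp (-(2 * σ))) := by
    funext σ
    refine (((hm (mcut_cd c₁) σ).const_mul 8).mul
      (((h1 σ).div_const 16).add ((h2 σ).const_mul (M * 1)))).deriv.trans ?_
    simp only [Pi.add_apply]
    ring
  refine ⟨congrFun e σ, ?_⟩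
  rw [e]
  refine ((((hm (contDiff_infty_iff_deriv.1 (mcut_cd c₁)).2 σ).const_mul ε).mul
    (((h1 σ).div_const 2).add ((h2 σ).const_mul (8 * M)))).add ((hm (mcut_cd c₁) σ).mul
      (((h1 σ).div_const 2).neg.sub ((h2 σ).const_mul (16 * M))))).deriv.trans ?_
  simp only [Pi.add_apply, Pi.sub_apply, Pi.neg_apply]
  ring

end LayBlk
end Pool.Agent.Lib.MP_df9110_gt
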