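import Pool.Agent.Lib.MP_df9110_gt.LayBlka

/-! The identities of the layer block and their consequences at a point. -/

namespace Pool.Agent.Lib.MP_df9110_gt

open Filter Topology Set
open scoped ContDiff

namespace LayBlk

/-- Quantities attached to the generators of the layer. -/
structure Gq (R : Type) where
  (ε μ al eA eC α τ₁ τ₂ β lm E₁ E₂ : R)
  k : Fin 8 → R
  tot : Fin 5 → R

/-- Quantities attached to the block metric and the barrier. -/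
structure Bq (R : Type) where
  (a C F₁ F₂ e11 e22 e₁ e₂ e12 lL TL XL φ lφ sc ν h h₁ h₂ : R)
  kv : Fin 8 → R

def Gq.map {R S : Type} (g : Gq R) (π : R → S) : Gq S :=
  ⟨π g.ε, π g.μ, π g.al, π g.eA, π g.eC, π g.α, π g.τ₁, π g.τ₂, π g.β, π g.lm, π g.E₁, π g.E₂,
    fun j => π (g.k j), fun j => π (g.tot j)⟩

def Bq.map {R S : Type} (b : Bq R) (π : R → S) : Bq S :=
  ⟨π b.a, π b.C, π b.F₁, π b.F₂, π b.e11, π b.e22, π b.e₁, π b.e₂, π b.e12, π b.lL, π b.TL, π b.XL,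
    π b.φ, π b.lφ, π b.sc, π b.ν, π b.h, π b.h₁, π b.h₂, fun j => π (b.kv j)⟩

section Ring

variable {R S : Type} [CommRing R] [Algebra ℝ R] [CommRing S] [Algebra ℝ S]
  {D : Fin 2 → R → R} {E : R → R} {D' : Fin 2 → S → S} {E' : S → S}

variable (D E) in
noncomputable def gq (G : Lay R) (ee : Fin 5 → R) : Gq R :=
  ⟨G.ε, G.μ E, G.al E, E G.lA, E G.lC, G.al E * E G.lA, G.τ₁ D E, G.τ₂ D E, G.Bc D E, G.lapmu D E,
    E (2 * G.u₁), E (2 * G.u₂), G.k D E, ee⟩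

variable (D) in
noncomputable def bq (B : Blk R) (Lg φ ν h : R) : Bq R :=
  ⟨B.a, B.C, B.F₁, B.F₂, B.e11 D, B.e22 D, B.e₁ D, B.e₂ D, B.e12 D, B.lap D (B.T D Lg) (D 1 Lg),
    B.T D Lg, D 1 Lg, φ, B.lap D (B.T D φ) (D 1 φ), B.scal D, ν, h, D 0 h, D 0 (D 0 h), B.kv D⟩

theorem gq_map (π : R →ₐ[ℝ] S) (hD : ∀ i a, π (D i a) = D' i (π a))
    (hE : ∀ a, π (E a) = E' (π a)) (G : Lay R) (ee : Fin 5 → R) :
    gq D' E' (G.map π) (fun j => π (ee j)) = (gq D E G ee).map π := by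
  simp only [gq, Gq.map, map_mul, map_ofNat, hE, Lay.map_ε, Lay.map_μ π hD hE, Lay.map_al π hD hE,
    Lay.map_lA π hD hE, Lay.map_lC π hD hE, Lay.map_τ₁ π hD hE, Lay.map_τ₂ π hD hE,
    Lay.map_Bc π hD hE, Lay.map_lapmu π hD hE, Lay.map_u₁ π hD hE, Lay.map_u₂ π hD hE,
    Lay.map_k' π hD hE]

theorem bq_map (π : R →ₐ[ℝ] S) (hD : ∀ i a, π (D i a) = D' i (π a)) (B : Blk R) (Lg φ ν h : R) :
    bq D' (B.map π) (π Lg) (π φ) (π ν) (π h) = (bq D B Lg φ ν h).map π := by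
  simp only [bq, Bq.map, ← hD, Blk.map_a, Blk.map_C, Blk.map_F₁, Blk.map_F₂, Blk.map_T π hD,
    Blk.map_lap π hD, Blk.map_e11 π hD, Blk.map_e22 π hD, Blk.map_e₁ π hD, Blk.map_e₂ π hD,
    Blk.map_e12 π hD, Blk.map_scal π hD, Blk.map_kv' π hD]

/-- The identities between the quantities. -/
def Rel (r : R → R → Prop) (g : Gq R) (b : Bq R) (c : ℝ) : Prop :=
  r g.α (g.al * g.eA) ∧ r (g.ε * b.a) (g.μ * g.α) ∧ r b.C (g.ε * g.μ ^ 3 * g.eC) ∧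
  r (g.μ * b.F₁) (g.ε * g.al * g.E₁) ∧ r (g.μ * b.F₂) (g.ε * g.E₂) ∧
  r (g.ε * b.e11) (g.μ * (g.tot 0 + g.al * g.tot 4)) ∧ r (g.ε * b.e22) (g.μ * g.tot 2) ∧
  r (g.ε * b.e₁) (g.μ * g.tot 0) ∧ r (g.ε * b.e₂) (g.μ * g.tot 1) ∧
  r (g.ε * g.μ * g.eC * b.e12) (g.tot 3) ∧ r (b.lL + 1) (g.μ * g.lm) ∧
  r (b.a * b.TL ^ 2 + b.C * b.XL ^ 2) (g.ε * g.μ * (g.μ ^ 2 * g.α * g.τ₁ ^ 2 + g.eC * g.τ₂ ^ 2)) ∧
  r b.φ (c • (b.ν * (1 + b.h))) ∧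
  r (g.ε * b.lφ) (c • (b.ν * (g.ε * (1 + b.h) *
    ((1 / 4 : ℝ) • b.lL + (1 / 16 : ℝ) • (b.a * b.TL ^ 2 + b.C * b.XL ^ 2)) +
      g.μ * (g.α * b.h₂ + g.β * b.h₁) + (1 / 2 : ℝ) • (g.ε * g.μ ^ 2 * g.α * g.τ₁ * b.h₁)))) ∧
  r b.sc (2 * (b.kv 0 + b.kv 1 + b.kv 3 + b.kv 4 + b.kv 6 + b.kv 7)) ∧
  (∀ j, j ≠ 2 → j ≠ 5 → r (g.ε * b.kv j) (g.μ * g.k j)) ∧
  ∀ j, j = 2 ∨ j = 5 → r (g.ε * g.μ * b.kv j) (g.k j)

theorem rel_map (π : R →ₐ[ℝ] S) (g : Gq R) (b : Bq R) (c : ℝ) :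
    Rel Eq (g.map π) (b.map π) c ↔ Rel (fun x y => π x = π y) g b c := by
  simp only [Rel, Gq.map, Bq.map, map_mul, map_add, map_pow, map_smul, map_one, map_ofNat]

theorem rel_ev {α : Type} {l : Filter α} {r : α → R → R → Prop} {g : Gq R} {b : Bq R} {c : ℝ}
    (h : Rel (fun x y => ∀ᶠ z in l, r z x y) g b c) : ∀ᶠ z in l, Rel (r z) g b c := by
  simpa only [Rel, eventually_and, eventually_all, eventually_imp_distrib_left] using h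

theorem lap_mul (hD : IsDer D) (B : Blk R) (f g : R) :
    B.lap D (B.T D (f * g)) (D 1 (f * g)) = f * B.lap D (B.T D g) (D 1 g) +
      g * B.lap D (B.T D f) (D 1 f) + 2 * (B.a * B.T D f * B.T D g + B.C * D 1 f * D 1 g) := by
  simp only [Blk.lap, Blk.H11, Blk.H22, Blk.Xa, Blk.T, hD.add, hD.mul]
  algebra

theorem lap_smul (hD : IsDer D) (B : Blk R) (c : ℝ) (f : R) :
    B.lap D (B.T D (c • f)) (D 1 (c • f)) = c • B.lap D (B.T D f) (D 1 f) := by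
  simp only [Blk.lap, Blk.H11, Blk.H22, Blk.Xa, Blk.T, hD.add, hD.mul, hD.smul]
  algebra

theorem T_smul (hD : IsDer D) (B : Blk R) (c : ℝ) (f : R) : B.T D (c • f) = c • B.T D f := by
  simp only [Blk.T, hD.smul]
  algebra

omit [Algebra ℝ R] in
theorem T_exp (hE : IsExp D E) (B : Blk R) (f : R) : B.T D (E f) = E f * B.T D f := by
  simp only [Blk.T, hE.der]
  ring

theorem lap_exp (hD : IsDer D) (hE : IsExp D E) (B : Blk R) (f : R) :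
    B.lap D (B.T D (E f)) (D 1 (E f)) = E f * (B.lap D (B.T D f) (D 1 f) +
      (B.a * B.T D f ^ 2 + B.C * D 1 f ^ 2)) := by
  simp only [Blk.lap, Blk.H11, Blk.H22, Blk.Xa, Blk.T, hD.add, hD.mul, hE.der]
  algebra

theorem rel (hD : IsDer D) (hE : IsExp D E) {G : Lay R} {εi μi ali Lg φ ν h : R} {ee : Fin 5 → R}
    {c : ℝ} (U : G.Unit D E εi μi ali) (H : LayHG D E G εi μi ali) (L : LayBasic D E G)
    (he : ∀ k, k ≠ 3 → ee k = G.e D E k) (h3 : G.μ E * ee 3 = G.μ E * G.e₄ D E + G.zo D E)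
    (hL : E Lg = G.μ E) (hν : ν = E ((1 / 4 : ℝ) • Lg)) (hφ : φ = c • (ν * (1 + h)))
    (h1 : D 1 h = 0) : Rel Eq (gq D E G ee) (bq D (G.blk D E εi μi ali) Lg φ ν h) c := by
  have hT : ∀ f, (G.blk D E εi μi ali).T D f = G.T D E f := fun _ => rfl
  have ha : (G.blk D E εi μi ali).a = εi * G.μ E * G.al E * E G.lA := rfl
  have hC : (G.blk D E εi μi ali).C = G.ε * G.μ E ^ 3 * E G.lC := rfl
  have hF₁ : (G.blk D E εi μi ali).F₁ = G.ε * μi * G.al E * E (2 * G.u₁) := rfl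
  have hF₂ : (G.blk D E εi μi ali).F₂ = G.ε * μi * E (2 * G.u₂) := rfl
  have TL : G.T D E Lg = G.mt D E := by
    have := T_exp hE (G.blk D E εi μi ali) Lg
    rw [hL, hT, hT, L.Tμ] at this
    linear_combination (-μi) * this - (G.T D E Lg - G.mt D E) * U.hμ
  have XL : D 1 Lg = G.τ₂ D E * μi := by
    have := hE.der Lg 1
    rw [hL] at this
    unfold Lay.τ₂
    linear_combination (-μi) * this - D 1 Lg * U.hμ
  have d1 : D 1 (1 + h) = 0 := by rw [hD.add, hD.one, h1, add_zero]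
  have d2 : D 1 (D 0 h) = 0 := by rw [hD.comm, h1, hD.zero]
  have T1 : G.T D E (1 + h) = D 0 h := by rw [Lay.T, d1, hD.add, hD.one]; ring
  have T2 : G.T D E (D 0 h) = D 0 (D 0 h) := by rw [Lay.T, d2]; ring
  have l1 := H.lap (1 + h)
  rw [Lay.lap, Lay.Sd, Lay.Sd, T1, T2, d1, mul_zero, hD.zero] at l1
  have e0 := he 0 (by decide)
  have e1 := he 1 (by decide)
  have e2 := he 2 (by decide)
  have e4 := he 4 (by decide)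
  simp only [Lay.e, Matrix.cons_val] at e0 e1 e2 e4
  refine ⟨rfl, ?_, rfl, ?_, ?_, ?_, ?_, ?_, ?_, ?_, ?_, ?_, hφ, ?_, rfl, H.kv, H.kv'⟩ <;>
    simp only [gq, bq]
  · rw [ha]; linear_combination (G.μ E * G.al E * E G.lA) * U.hε
  · rw [hF₁]; linear_combination (G.ε * G.al E * E (2 * G.u₁)) * U.hμ
  · rw [hF₂]; linear_combination (G.ε * E (2 * G.u₂)) * U.hμ
  · rw [e0, e4]; linear_combination H.e11 + H.e₁
  · rw [e2, H.e22]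
  · rw [e0, H.e₁]
  · rw [e1, H.e₂]
  · linear_combination μi * H.e12 - μi * h3 -
      (G.ε * G.μ E * E G.lC * (G.blk D E εi μi ali).e12 D - ee 3) * U.hμ
  · rw [hT, TL, XL, H.lapmu]
  · rw [hT, TL, XL, ha, hC, Lay.mt]
    linear_combination (G.ε * G.μ E ^ 3 * G.al E * E G.lA * G.τ₁ D E ^ 2) * U.hε +
      (G.ε * G.μ E * E G.lC * G.τ₂ D E ^ 2 * (G.μ E * μi + 1)) * U.hμ
  · rw [hφ, lap_smul hD, lap_mul hD, hν, lap_exp hD hE, lap_smul hD, T_exp hE, T_smul hD, hD.smul,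
      d1, hT (1 + h), T1, hT Lg, TL]
    have am : (G.blk D E εi μi ali).a * G.mt D E = G.μ E ^ 2 * (G.al E * E G.lA) * G.τ₁ D E := by
      rw [ha, Lay.mt]
      linear_combination (G.μ E ^ 2 * (G.al E * E G.lA) * G.τ₁ D E) * U.hε
    linear_combination (norm := algebra) c • (E ((1 / 4 : ℝ) • Lg) * l1) +
      c • (1 / 2 : ℝ) • ((E ((1 / 4 : ℝ) • Lg) * G.ε * D 0 h) * am)

end Ring

/-- The hypotheses at a point. -/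
structure Pt (g : Gq ℝ) (b : Bq ℝ) (N : ℕ) (M₀ k₀ k M K A τ η m₀ m₁ m₂ : ℝ) : Prop where
  rel : Rel Eq g b (16 * M₀)⁻¹
  M₀1 : 1 ≤ M₀
  k₀1 : 1 ≤ k₀
  k1 : 2 * k₀ ^ 2 ≤ k
  k2 : 16 * M₀ ^ 4 ≤ k
  kM : 5 * k ^ 10 ≤ M
  MK : M ≤ K
  A1 : 1 ≤ k₀ * A
  A2 : A ≤ k₀
  ε0 : 0 < g.ε
  s1 : 80 * (K5 k M + 1) ^ 2 * k ^ 3 * g.ε ≤ 1
  s2 : 1000 * (100 * (K ^ 3) ^ 2) ^ 4 * g.ε ≤ 1
  μ0 : 0 < g.μ
  μ1 : g.μ ≤ M₀
  ν : b.ν = g.μ ^ (1 / 4 : ℝ)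
  τ0 : 0 ≤ τ
  τ1 : τ ≤ 1
  al0 : 0 < g.al
  al1 : |g.al| ≤ K
  eA : g.eA ≤ k₀
  eC : g.eC ≤ k₀
  eA0 : 1 ≤ K * g.eA
  eC0 : 1 ≤ K * g.eC
  E₁ : 1 ≤ K * g.E₁
  E₂ : 1 ≤ K * g.E₂
  τ₁ : |g.τ₁| ≤ K
  τ₂ : |g.τ₂| ≤ K
  tot : ∀ j, |g.tot j| ≤ K * g.ε ^ (N + 1)
  lm : |g.lm| ≤ K * g.ε
  α : |g.α - A * (1 - τ ^ 4)| ≤ η
  β : |g.β - 2 * A| ≤ η
  η1 : η ≤ k₀
  kk : ∀ j, |g.k j - if j = 1 then 2 * A * τ ^ 4 else 0| ≤ k₀ * (g.ε * τ ^ 3 + g.ε ^ 2)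
  m0 : 0 ≤ m₀
  m1 : m₀ ≤ 1
  hm₁ : |m₁| ≤ K
  hm₂ : |m₂| ≤ K
  e0 : b.h = m₀ * (τ ^ 2 / 2 + 8 * M * τ ^ 4)
  e1 : b.h₁ = g.ε * m₁ * (τ ^ 2 / 2 + 8 * M * τ ^ 4) + m₀ * (-(τ ^ 2 / 2) - 16 * M * τ ^ 4)
  e2 : b.h₂ = g.ε ^ 2 * m₂ * (τ ^ 2 / 2 + 8 * M * τ ^ 4) +
    2 * g.ε * m₁ * (-(τ ^ 2 / 2) - 16 * M * τ ^ 4) + m₀ * (τ ^ 2 / 2 + 32 * M * τ ^ 4)
  cs : (m₀ = 1 ∧ m₁ = 0 ∧ m₂ = 0 ∧ η * (1 + 48 * M) ≤ A / 4) ∨ τ ^ 2 ≤ K * g.ε ^ 2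

namespace Pt

variable {g : Gq ℝ} {b : Bq ℝ} {N : ℕ} {M₀ k₀ k M K A τ η m₀ m₁ m₂ : ℝ}
  (h : Pt g b N M₀ k₀ k M K A τ η m₀ m₁ m₂)
include h

theorem cst : 1 ≤ k ∧ k ≤ K ∧ 1 ≤ K ∧ 2 * k₀ ≤ k ∧ M₀ ≤ k ∧ 0 < A ∧ 0 < g.eA ∧ 0 < g.eC ∧
    0 < g.E₁ ∧ 0 < g.E₂ ∧ 0 < g.α ∧ g.α ≤ 2 * k₀ ∧ K ^ 6 * g.ε ≤ 1 ∧ g.ε ≤ 1 := by
  have a1 : k₀ ≤ k₀ ^ 2 := le_self_pow₀ h.k₀1 (by norm_num)
  have a2 : M₀ ≤ M₀ ^ 4 := le_self_pow₀ h.M₀1 (by norm_num)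
  have a3 : 1 ≤ k := by linarith [h.k1, h.k₀1]
  have a4 : k ≤ k ^ 10 := le_self_pow₀ a3 (by norm_num)
  have a5 : k ≤ K := by linarith [h.kM, h.MK]
  have p : ∀ {x y : ℝ}, 1 ≤ x → 1 ≤ x * y → 0 < y := fun hx hy =>
    (mul_pos_iff_of_pos_left (by linarith)).1 (one_pos.trans_le hy)
  have a6 : 1 ≤ K := a3.trans a5
  have a7 := p h.k₀1 h.A1
  have a8 : 0 ≤ A * τ ^ 4 := by have := h.τ0; positivity
  have a9 : K ^ 6 * g.ε ≤ K ^ 24 * g.ε :=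
    mul_le_mul_of_nonneg_right (pow_le_pow_right₀ a6 (by norm_num)) h.ε0.le
  have a10 : g.ε ≤ K ^ 6 * g.ε := le_mul_of_one_le_left h.ε0.le (one_le_pow₀ a6)
  have a11 := h.s2
  have a12 := h.ε0
  exact ⟨a3, a5, a6, by linarith [h.k1], by linarith [h.k2, h.M₀1], a7, p a6 h.eA0, p a6 h.eC0,
    p a6 h.E₁, p a6 h.E₂, h.rel.1 ▸ mul_pos h.al0 (p a6 h.eA0),
    by linarith [(abs_le.1 h.α).2, h.A2, h.η1], by linarith, by linarith⟩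

theorem aC : b.a * b.C = g.μ ^ 4 * (g.α * g.eC) := by
  obtain ⟨-, r1, r2, -⟩ := h.rel
  rw [r2]
  linear_combination g.μ ^ 3 * g.eC * r1

theorem sq : ∃ s : ℝ, 0 ≤ s ∧ s ≤ 2 * k₀ ∧ √(b.a * b.C) = g.μ ^ 2 * s := by
  obtain ⟨-, -, -, -, -, -, -, c2, -, -, c3, c4, -⟩ := h.cst
  have := h.k₀1
  refine ⟨√(g.α * g.eC), Real.sqrt_nonneg _, Real.sqrt_le_iff.2 ⟨by linarith, ?_⟩, ?_⟩
  · nlinarith [mul_le_mul c4 h.eC c2.le (by linarith)]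
  · rw [h.aC, Real.sqrt_mul (by positivity), show g.μ ^ 4 = (g.μ ^ 2) ^ 2 by ring,
      Real.sqrt_sq (by positivity)]

theorem pos : 0 < b.a ∧ 0 < b.C ∧ 0 < b.F₁ ∧ 0 < b.F₂ ∧ 0 < g.μ := by
  obtain ⟨-, r1, r2, r3, r4, -⟩ := h.rel
  obtain ⟨-, -, -, -, -, -, -, c2, c3, c4, c5, -⟩ := h.cst
  have := h.ε0
  have := h.μ0
  have := h.al0
  exact ⟨(mul_pos_iff_of_pos_left h.ε0).1 (by rw [r1]; positivity), by rw [r2]; positivity,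
    (mul_pos_iff_of_pos_left h.μ0).1 (by rw [r3]; positivity),
    (mul_pos_iff_of_pos_left h.μ0).1 (by rw [r4]; positivity), h.μ0⟩

theorem err : |b.e11| ≤ 24 * K ^ 5 * g.ε ^ N * g.μ ∧ |b.e22| ≤ 24 * K ^ 5 * g.ε ^ N * g.μ ∧
    |b.e₁| ≤ 24 * K ^ 5 * g.ε ^ N * g.μ ∧ |b.e₂| ≤ 24 * K ^ 5 * g.ε ^ N * g.μ ∧
    √(b.a * b.C) * |b.e12| ≤ 24 * K ^ 5 * g.ε ^ N * g.μ := by
  obtain ⟨-, -, -, -, -, r1, r2, r3, r4, r5, -⟩ := h.rel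
  obtain ⟨-, c0, c1, c2, -, -, -, c3, -⟩ := h.cst
  obtain ⟨s, s0, s1, hs⟩ := h.sq
  have ε0 := h.ε0
  have μ0 := h.μ0
  have a : ∀ {e x : ℝ}, g.ε * e = g.μ * x → |x| ≤ 24 * K ^ 5 * g.ε ^ (N + 1) →
      |e| ≤ 24 * K ^ 5 * g.ε ^ N * g.μ := fun {e x} he hx => by
    refine le_of_mul_le_mul_left ?_ ε0
    rw [← abs_of_pos ε0, ← abs_mul, he, abs_mul, abs_of_pos μ0, abs_of_pos ε0]
    exact (mul_le_mul_of_nonneg_left hx μ0.le).trans (le_of_eq (by ring))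
  have p : ∀ n, n ≤ 5 → K ^ n * g.ε ^ (N + 1) ≤ K ^ 5 * g.ε ^ (N + 1) := fun n hn => by gcongr
  have p0 : 0 ≤ K ^ 5 * g.ε ^ (N + 1) := by positivity
  have t : ∀ j, |g.tot j| ≤ 24 * K ^ 5 * g.ε ^ (N + 1) := fun j => by linarith [h.tot j, p 1 (by norm_num)]
  refine ⟨a r1 ((abs_add_le _ _).trans ?_), a r2 (t 2), a r3 (t 0), a r4 (t 1), ?_⟩
  · rw [abs_mul]
    linarith [h.tot 0, p 1 (by norm_num), p 2 (by norm_num),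
      mul_le_mul h.al1 (h.tot 4) (abs_nonneg _) (by linarith)]
  · rw [hs, ← abs_of_nonneg (a := g.μ ^ 2 * s) (by positivity), ← abs_mul]
    refine a (x := s / g.eC * g.tot 3) (by rw [← r5]; field_simp) ?_
    have q : s / g.eC ≤ K ^ 2 := by
      rw [div_le_iff₀ c3]
      nlinarith [mul_le_mul_of_nonneg_left h.eC0 (by linarith : 0 ≤ K)]
    rw [abs_mul, abs_of_nonneg (by positivity)]
    linarith [p 3 (by norm_num), mul_le_mul q (h.tot 3) (abs_nonneg _) (by positivity)]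

theorem lap : |b.lL + 1| ≤ K * (g.ε * g.μ) := by
  obtain ⟨-, -, -, -, -, -, -, -, -, -, r, -⟩ := h.rel
  rw [r, abs_mul, abs_of_pos h.μ0]
  exact (mul_le_mul_of_nonneg_left h.lm h.μ0.le).trans (le_of_eq (by ring))

theorem gam : b.a * b.TL ^ 2 + b.C * b.XL ^ 2 ≤ 2 * K ^ 5 * (g.ε * g.μ) := by
  obtain ⟨-, -, -, -, -, -, -, -, -, -, -, r, -⟩ := h.rel
  obtain ⟨-, c0, c1, c2, c3, -, -, c4, -, -, c5, c6, -⟩ := h.cst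
  have ε0 := h.ε0
  have μ0 := h.μ0
  have t1 : g.τ₁ ^ 2 ≤ K ^ 2 := sq_le_sq' (abs_le.1 h.τ₁).1 (abs_le.1 h.τ₁).2
  have t2 : g.τ₂ ^ 2 ≤ K ^ 2 := sq_le_sq' (abs_le.1 h.τ₂).1 (abs_le.1 h.τ₂).2
  have a1 : g.μ ^ 2 * g.α * g.τ₁ ^ 2 ≤ K ^ 2 * K * K ^ 2 := by
    gcongr <;> linarith [h.μ1]
  have a2 : g.eC * g.τ₂ ^ 2 ≤ K ^ 3 * K ^ 2 := by
    gcongr; linarith [h.eC, h.k₀1, le_self_pow₀ c1 (n := 3) (by norm_num)]
  rw [r, mul_comm]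
  gcongr
  linarith

theorem vol : g.ε ^ 5 * (b.a * b.C) ≤ g.μ ^ 6 * (b.F₁ * b.F₂) := by
  obtain ⟨r0, -, -, r1, r2, -⟩ := h.rel
  obtain ⟨-, c0, c1, c2, -, -, c3, c4, c5, c6, -, -, c7, c8⟩ := h.cst
  have ε0 := h.ε0
  have μ0 := h.μ0
  have := h.al0
  have := h.k₀1
  have a1 : g.ε ^ 3 * (g.eA * g.eC) * (1 * 1) ≤ g.ε * (K * K) * (K * g.E₁ * (K * g.E₂)) := by
    gcongr
    exacts [pow_le_of_le_one ε0.le c8 (by norm_num), by linarith [h.eA], by linarith [h.eC], h.E₁,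
      h.E₂]
  have a2 : K ^ 4 * g.ε * (g.E₁ * g.E₂) ≤ 1 * (g.E₁ * g.E₂) := by
    gcongr
    exact le_trans (by gcongr; norm_num) c7
  calc _ = g.μ ^ 4 * g.ε ^ 2 * g.al * (g.ε ^ 3 * (g.eA * g.eC)) := by rw [h.aC, r0]; ring
    _ ≤ g.μ ^ 4 * g.ε ^ 2 * g.al * (g.E₁ * g.E₂) :=
        mul_le_mul_of_nonneg_left (by linarith) (by positivity)
    _ = g.μ ^ 4 * (g.μ * b.F₁ * (g.μ * b.F₂)) := by rw [r1, r2]; ring
    _ = _ := by ring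

theorem kv (j : Fin 8) (h2 : j ≠ 2) (h5 : j ≠ 5) :
    |b.kv j - if j = 1 then g.μ / g.ε * (2 * A * τ ^ 4) else 0| ≤ g.μ * k₀ * (τ ^ 3 + g.ε) := by
  have ε0 := h.ε0
  have μ0 := h.μ0
  have e : (b.kv j - if j = 1 then g.μ / g.ε * (2 * A * τ ^ 4) else 0) =
      g.μ / g.ε * (g.k j - if j = 1 then 2 * A * τ ^ 4 else 0) := by
    have := h.rel.2.2.2.2.2.2.2.2.2.2.2.2.2.2.2.1 j h2 h5
    split_ifs <;> field_simp <;> linarith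
  rw [e, abs_mul, abs_of_pos (by positivity)]
  exact (mul_le_mul_of_nonneg_left (h.kk j) (by positivity)).trans (le_of_eq (by field_simp))

theorem scal {d : ℝ} (hd : 4 * g.μ ≤ d) : b.sc ≤ d * A / g.ε + 24 * K ^ 5 := by
  obtain ⟨-, c0, c1, c2, c3, c4, -, -, -, -, -, -, -, c8⟩ := h.cst
  have ε0 := h.ε0
  have μ0 := h.μ0
  have τ0 := h.τ0
  have := h.k₀1
  have a1 : g.μ * k₀ * (τ ^ 3 + g.ε) ≤ K * K ^ 4 * (1 + 1) := by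
    gcongr
    exacts [by linarith [h.μ1], by linarith [le_self_pow₀ c1 (n := 4) (by norm_num)],
      pow_le_one₀ h.τ0 h.τ1]
  have a2 : 4 * g.μ * (A * τ ^ 4) / g.ε ≤ d * (A * 1) / g.ε := by
    gcongr
    exacts [by linarith, pow_le_one₀ h.τ0 h.τ1]
  have b0 := (abs_le.1 (h.kv 0 (by decide) (by decide))).2
  have b1 := (abs_le.1 (h.kv 1 (by decide) (by decide))).2
  have b3 := (abs_le.1 (h.kv 3 (by decide) (by decide))).2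
  have b4 := (abs_le.1 (h.kv 4 (by decide) (by decide))).2
  have b6 := (abs_le.1 (h.kv 6 (by decide) (by decide))).2
  have b7 := (abs_le.1 (h.kv 7 (by decide) (by decide))).2
  rw [if_neg (by decide)] at b0 b3 b4 b6 b7
  rw [if_pos rfl] at b1
  rw [h.rel.2.2.2.2.2.2.2.2.2.2.2.2.2.2.1]
  ring_nf at *
  linarith

theorem kON (j : Fin 8) : |(if j = 2 ∨ j = 5 then √(b.a * b.C) * b.kv j else b.kv j) -
    if j = 1 then g.μ / g.ε * (2 * A * τ ^ 4) else 0| ≤ g.μ * (2 * k₀ ^ 2) * (τ ^ 3 + g.ε) := by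
  have ε0 := h.ε0
  have μ0 := h.μ0
  have τ0 := h.τ0
  have k1 := h.k₀1
  by_cases hj : j = 2 ∨ j = 5
  · obtain ⟨s, s0, s1, hs⟩ := h.sq
    have j1 : j ≠ 1 := by rcases hj with rfl | rfl <;> decide
    have a := h.kk j
    rw [if_neg j1, sub_zero, ← h.rel.2.2.2.2.2.2.2.2.2.2.2.2.2.2.2.2 j hj, abs_mul,
      abs_of_pos (mul_pos ε0 μ0)] at a
    rw [if_pos hj, if_neg j1, sub_zero, hs, abs_mul, abs_of_nonneg (by positivity)]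
    refine le_of_mul_le_mul_left ?_ ε0
    calc _ = g.μ * s * (g.ε * g.μ * |b.kv j|) := by ring
      _ ≤ g.μ * (2 * k₀) * (k₀ * (g.ε * τ ^ 3 + g.ε ^ 2)) := by gcongr
      _ = _ := by ring
  · rw [if_neg hj]
    refine (h.kv j (fun e => hj (.inl e)) fun e => hj (.inr e)).trans ?_
    gcongr
    nlinarith

theorem bar {C₀ : ℝ} (hC : C₀ ≤ k) (hb : ∀ (k : Fin 8 → ℝ) (κ₁ κ₂ ζ φ L c : ℝ), 0 ≤ κ₁ →
    0 ≤ κ₂ → 0 ≤ ζ → 0 ≤ φ → |k 1 - κ₁| ≤ ζ → |k 6 - κ₂| ≤ ζ → (∀ j, j ≠ 1 → j ≠ 6 → |k j| ≤ ζ) →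
    c + C₀ * ζ ≤ φ →
    (2 * φ - 1 / 2) * κ₁ + L + c + C₀ * ζ * (1 + ζ) * (1 + φ + ζ + κ₂) ≤ 0 →
    (2 * φ - 1 / 2) * κ₂ + L + c + C₀ * ζ * (1 + ζ) * (1 + φ + ζ + κ₁) ≤ 0 → BarON k φ L c) :
    BarON (fun j => if j = 2 ∨ j = 5 then √(b.a * b.C) * b.kv j else b.kv j) b.φ b.lφ
      (g.ε * g.μ ^ (1 / 4 : ℝ)) := by
  obtain ⟨c0, c1, c2, c3, c4, c5, -, -, -, -, c6, c7, -, c8⟩ := h.cst
  obtain ⟨-, -, -, -, -, -, -, -, -, -, -, -, r1, r2, -⟩ := h.rel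
  have ε0 := h.ε0
  have μ0 := h.μ0
  have τ0 := h.τ0
  have k1 := h.k₀1
  have M1 := h.M₀1
  have M0 : 0 ≤ M := le_trans (by positivity) h.kM
  have ν0 : 0 < b.ν := h.ν ▸ Real.rpow_pos_of_pos μ0 _
  have ν4 : b.ν ^ 4 = g.μ := by
    rw [h.ν, ← Real.rpow_natCast, ← Real.rpow_mul μ0.le]; norm_num
  have ν1 : b.ν ≤ M₀ := le_of_pow_le_pow_left₀ (n := 4) (by norm_num) (by linarith)
    (by rw [ν4]; exact h.μ1.trans (le_self_pow₀ M1 (by norm_num)))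
  have K3 : K ≤ K ^ 3 := le_self_pow₀ c2 (by norm_num)
  have K6 : ∀ n, n ≤ 6 → K ^ n ≤ K ^ 6 := fun n hn => pow_le_pow_right₀ c2 hn
  have μK : g.μ ≤ K := by linarith [h.μ1]
  have hu : (1 / 4 : ℝ) * b.lL + 1 / 16 * (b.a * b.TL ^ 2 + b.C * b.XL ^ 2) ≤
      -(1 / 4) + 100 * (K ^ 3) ^ 2 * g.ε := by
    have a1 : K * (g.ε * g.μ) ≤ K ^ 5 * (g.ε * g.μ) := by
      gcongr; exact le_self_pow₀ c2 (by norm_num)
    have a2 : K ^ 5 * (g.ε * g.μ) ≤ K ^ 5 * (g.ε * K) := by gcongr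
    have a3 : 0 ≤ K ^ 5 * (g.ε * K) := by positivity
    linarith [(abs_le.1 h.lap).2, h.gam]
  have hw : |1 / 2 * (g.μ * g.α * g.τ₁)| ≤ 100 * (K ^ 3) ^ 2 := by
    rw [abs_mul, abs_mul, abs_of_pos (mul_pos μ0 c6), abs_of_pos (by norm_num)]
    have : g.μ * g.α * |g.τ₁| ≤ K * K * K := by gcongr; exacts [by linarith, h.τ₁]
    linarith [K6 3 (by norm_num), pow_nonneg (by linarith : 0 ≤ K) 3]
  obtain ⟨l1, l2, l3⟩ := L_le (K := K ^ 3) (by linarith) M0 (by linarith [h.MK]) ε0 μ0.le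
    (by linarith) τ0 h.τ1 (h.A1.trans (by gcongr; linarith)) (by linarith [h.A2]) h.α h.β
    (by linarith [h.η1]) hu hw h.m0 h.m1 (h.hm₁.trans K3) (h.hm₂.trans K3) h.s2 h.e0 h.e1 h.e2
    (h.cs.imp_right fun e => e.trans (by gcongr))
  have f0 : 0 < (16 * M₀)⁻¹ * b.ν := by positivity
  have hφ : b.φ = (16 * M₀)⁻¹ * b.ν * (1 + b.h) := by rw [r1, smul_eq_mul, mul_assoc]
  have m4 : M₀ ^ 2 ≤ M₀ ^ 4 := pow_le_pow_right₀ M1 (by norm_num)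
  obtain ⟨i1, i2, i3⟩ := fin_bar (f := (16 * M₀)⁻¹ * b.ν) (R := 16 * M₀ * b.ν ^ 3) (φ := b.φ)
    (μ := g.μ) (A := A) (L := b.lφ) (c := g.ε * g.μ ^ (1 / 4 : ℝ)) c0 h.kM hC (by positivity) h.k1 ε0 h.s1 f0
    (by rw [← div_eq_inv_mul, div_le_iff₀ (by positivity)]; linarith) (by positivity)
    (le_trans (by calc _ ≤ 16 * M₀ * M₀ ^ 3 := by gcongr
                    _ = _ := by ring) h.k2)
    (by rw [← ν4]; field_simp)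
    (by calc _ = (16 * (M₀ * b.ν)) ^ 2 * b.ν ^ 4 := by ring
          _ ≤ k ^ 2 * b.ν ^ 4 := by
            gcongr; nlinarith [h.k2, mul_le_mul_of_nonneg_left ν1 (by linarith : 0 ≤ M₀)]
          _ = _ := by rw [ν4])
    τ0 h.τ1 (h.A1.trans (by gcongr; linarith)) (by linarith [h.A2])
    (by rw [← h.ν]
        calc _ = (16 * M₀)⁻¹ * b.ν * (16 * M₀ * g.ε) := by field_simp
          _ ≤ _ := by gcongr; linarith [h.k2, le_self_pow₀ M1 (n := 4) (by norm_num)])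
    rfl rfl
    (by refine le_trans (le_of_eq ?_) ((mul_le_mul_of_nonneg_left l1 f0.le).trans (le_of_eq (by ring)))
        simp only [smul_eq_mul] at r2
        refine mul_left_cancel₀ ε0.ne' (r2.trans ?_)
        field_simp)
    (by rw [hφ]; gcongr) (by rw [hφ]; gcongr)
  have q := h.kON
  refine hb _ _ 0 _ _ _ _ (by positivity) le_rfl (by positivity)
    (by rw [hφ]; exact mul_nonneg f0.le (le_trans (by positivity) l2))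
    (by simpa using q 1) (by simpa using q 6) (fun j h1 _ => by simpa only [if_neg h1, sub_zero] using q j)
    i1 i2 i3

end Pt

end LayBlk
end Pool.Agent.Lib.MP_df9110_gt
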