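import Pool.Agent.Lib.MP_df9110_gt.Defs

/-! Asymptotically conical gradient expanding solitons on `ℝ⁴ = Int D⁴`, in the global chart.
The collar of `∂D⁴ = S³` is given by polar coordinates, `r = |y|`. -/

namespace Pool.Agent.Lib.MP_df9110_gt

open Filter Topology
open scoped ContDiff

/-- Coefficient matrices of `2`-tensors. -/
abbrev Mat : Type := Matrix (Fin 4) (Fin 4) ℝ

/-- The square `r²` of the Euclidean radius. -/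
def nsq (y : Pt) : ℝ := ∑ i, y i ^ 2

/-- The scalar curvature `gⁱʲ Rᵢⱼ`. -/
noncomputable def Scal (g : Pt → Mat) (x : Pt) : ℝ := ∑ i, ∑ j, (g x)⁻¹ i j * Ric g i j x

/-- `g` is a smooth Riemannian metric on `U`. -/
def IsMetricOn (g : Pt → Mat) (U : Set Pt) : Prop :=
  (∀ i j, ContDiffOn ℝ ∞ (fun y => g y i j) U) ∧ ∀ y ∈ U, (g y).PosDef

/-- `γ` is a smooth cone metric `dr² + r² h` on `ℝ⁴ ∖ {0} = ℝ₊ × S³`: its coefficients are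
homogeneous of degree `0` and `γ(r ∂ᵣ, ·) = r dr`. -/
def IsCone (γ : Pt → Mat) : Prop :=
  IsMetricOn γ {0}ᶜ ∧ ∀ y : Pt, y ≠ 0 → (∀ t : ℝ, 0 < t → γ (t • y) = γ y) ∧ (γ y).mulVec y = y

/-- The covariant derivative `∇ₖ hᵢⱼ` with respect to `γ`. -/
noncomputable def cov1 (γ : Pt → Mat) (h : Fin 4 → Fin 4 → Pt → ℝ) (k i j : Fin 4) (x : Pt) : ℝ :=
  pd k (h i j) x - ∑ m, (Chr γ m k i x * h m j x + Chr γ m k j x * h i m x)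

/-- The second covariant derivative `∇ₗ ∇ₖ hᵢⱼ` with respect to `γ`. -/
noncomputable def cov2 (γ : Pt → Mat) (h : Fin 4 → Fin 4 → Pt → ℝ) (l k i j : Fin 4)
    (x : Pt) : ℝ :=
  pd l (cov1 γ h k i j) x - ∑ m, (Chr γ m l k x * cov1 γ h m i j x +
    Chr γ m l i x * cov1 γ h k m j x + Chr γ m l j x * cov1 γ h k i m x)

/-- `|h|²` with respect to `γ`. -/
noncomputable def nrm0 (γ : Pt → Mat) (h : Fin 4 → Fin 4 → Pt → ℝ) (x : Pt) : ℝ :=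
  ∑ i, ∑ j, ∑ a, ∑ b, (γ x)⁻¹ i a * (γ x)⁻¹ j b * h i j x * h a b x

/-- `|∇ h|²` with respect to `γ`. -/
noncomputable def nrm1 (γ : Pt → Mat) (h : Fin 4 → Fin 4 → Pt → ℝ) (x : Pt) : ℝ :=
  ∑ k, ∑ i, ∑ j, ∑ c, ∑ a, ∑ b, (γ x)⁻¹ k c * (γ x)⁻¹ i a * (γ x)⁻¹ j b *
    cov1 γ h k i j x * cov1 γ h c a b x

/-- `|∇² h|²` with respect to `γ`. -/
noncomputable def nrm2 (γ : Pt → Mat) (h : Fin 4 → Fin 4 → Pt → ℝ) (x : Pt) : ℝ :=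
  ∑ l, ∑ k, ∑ i, ∑ j, ∑ e, ∑ c, ∑ a, ∑ b,
    (γ x)⁻¹ l e * (γ x)⁻¹ k c * (γ x)⁻¹ i a * (γ x)⁻¹ j b *
      cov2 γ h l k i j x * cov2 γ h e c a b x

/-- The `g`-length of a curve on `[0,1]`. -/
noncomputable def len (g : Pt → Mat) (c : ℝ → Pt) : ℝ :=
  ∫ t in (0 : ℝ)..1, √(∑ i, ∑ j, g (c t) i j * deriv c t i * deriv c t j)

/-- The Riemannian distance of `g`. -/
noncomputable def gdist (g : Pt → Mat) (x y : Pt) : ℝ :=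
  sInf {l | ∃ c : ℝ → Pt, ContDiff ℝ 1 c ∧ c 0 = x ∧ c 1 = y ∧ l = len g c}

/-- `g` is complete: Cauchy sequences for its distance converge. -/
def IsCompleteMetric (g : Pt → Mat) : Prop :=
  ∀ u : ℕ → Pt, (∀ δ : ℝ, 0 < δ → ∃ N, ∀ m ≥ N, ∀ n ≥ N, gdist g (u m) (u n) < δ) →
    ∃ x, Tendsto u atTop (𝓝 x)

/-- `(g, f)` is a gradient expanding soliton on `ℝ⁴` asymptotic to the cone `γ`. -/
structure IsExpander (g : Pt → Mat) (f : Pt → ℝ) (γ : Pt → Mat) : Prop where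
  metric : IsMetricOn g Set.univ
  smooth : ContDiff ℝ ∞ f
  complete : IsCompleteMetric g
  soliton : ∀ x i j, Ric g i j x + Hess g f i j x + g x i j / 2 = 0
  grad : ∃ r₀ : ℝ, ∀ y, r₀ < √(nsq y) → ∀ i, ∑ j, (g y)⁻¹ i j * pd j f y = -(y i) / 2
  asymp : ∀ δ : ℝ, 0 < δ → ∃ r₀ : ℝ, ∀ y, r₀ < √(nsq y) →
    √(nrm0 γ (fun i j z => g z i j - γ z i j) y) ≤ δ ∧
    √(nsq y) * √(nrm1 γ (fun i j z => g z i j - γ z i j) y) ≤ δ ∧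
    √(nsq y) ^ 2 * √(nrm2 γ (fun i j z => g z i j - γ z i j) y) ≤ δ

/-- `g₂ = φ* g₁` for some diffeomorphism `φ` of `ℝ⁴`. -/
def Isometric (g₁ g₂ : Pt → Mat) : Prop :=
  ∃ φ ψ : Pt → Pt, ContDiff ℝ ∞ φ ∧ ContDiff ℝ ∞ ψ ∧ Function.LeftInverse ψ φ ∧
    Function.RightInverse ψ φ ∧ ∀ y i j, g₂ y i j =
      ∑ a, ∑ b, g₁ (φ y) a b * pd i (fun z => φ z a) y * pd j (fun z => φ z b) y

end Pool.Agent.Lib.MP_df9110_gt
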