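import Pool.Agent.Lib.MP_df9110_gt.NTenS
import Pool.Agent.Lib.MP_df9110_gt.NDefs

/-! Derivative bounds, the differential algebra of smooth functions and of smooth germs. -/

namespace Pool.Agent.Lib.MP_df9110_gt

open Filter Topology
open scoped ContDiff

abbrev En (n : ℕ) : Type := Fin n → ℝ

noncomputable def pdn {n : ℕ} (i : Fin n) (f : En n → ℝ) (x : En n) : ℝ :=
  fderiv ℝ f x (Pi.single i 1)

theorem pd_eq_pdn : pd = pdn (n := 4) := rfl

/-- Every partial derivative of order `j ≤ k` of `f` at `p` is at most `a r ^ j`. -/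
def WB {n : ℕ} (r : ℝ) : ℕ → ℝ → (En n → ℝ) → En n → Prop
  | 0, a, f, p => |f p| ≤ a
  | k + 1, a, f, p => |f p| ≤ a ∧ ∀ i, WB r k (a * r) (pdn i f) p

section pdn

variable {n : ℕ} {f g : En n → ℝ} {p : En n}

theorem contDiffAt_pdn (hf : ContDiffAt ℝ ∞ f p) (i : Fin n) : ContDiffAt ℝ ∞ (pdn i f) p :=
  (hf.fderiv_right (m := ∞) (by simp)).clm_apply contDiffAt_const

theorem contDiff_pdn (hf : ContDiff ℝ ∞ f) (i : Fin n) : ContDiff ℝ ∞ (pdn i f) :=
  contDiff_iff_contDiffAt.2 fun _ => contDiffAt_pdn hf.contDiffAt i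

theorem pdn_congr (h : f =ᶠ[𝓝 p] g) (i : Fin n) : pdn i f =ᶠ[𝓝 p] pdn i g := by
  filter_upwards [h.fderiv (𝕜 := ℝ)] with q hq
  simp [pdn, hq]

theorem ev_diff (hf : ContDiffAt ℝ ∞ f p) : ∀ᶠ q in 𝓝 p, DifferentiableAt ℝ f q := by
  have h1 : ContDiffAt ℝ 1 f p := hf.of_le (by simp)
  filter_upwards [h1.eventually (by simp)] with q hq using hq.differentiableAt (by simp)

theorem pdn_add (hf : DifferentiableAt ℝ f p) (hg : DifferentiableAt ℝ g p) (i : Fin n) :
    pdn i (f + g) p = pdn i f p + pdn i g p := by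
  simp [pdn, fderiv_add hf hg]

theorem pdn_mul (hf : DifferentiableAt ℝ f p) (hg : DifferentiableAt ℝ g p) (i : Fin n) :
    pdn i (f * g) p = f p * pdn i g p + pdn i f p * g p := by
  simp [pdn, fderiv_mul hf hg, mul_comm]

theorem pdn_smul (hf : DifferentiableAt ℝ f p) (c : ℝ) (i : Fin n) :
    pdn i (c • f) p = c * pdn i f p := by
  simp [pdn, fderiv_const_smul hf]

theorem pdn_comm (hf : ContDiffAt ℝ ∞ f p) (i j : Fin n) :
    pdn i (pdn j f) p = pdn j (pdn i f) p := by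
  have h2 : ContDiffAt ℝ 2 f p := hf.of_le (by norm_cast)
  have hs := h2.isSymmSndFDerivAt (by simp)
  have hd : DifferentiableAt ℝ (fderiv ℝ f) p :=
    (h2.fderiv_right (m := 1) (by norm_num)).differentiableAt (by simp)
  have key : ∀ a b : Fin n, pdn a (pdn b f) p =
      fderiv ℝ (fderiv ℝ f) p (Pi.single a 1) (Pi.single b 1) := by
    intro a b
    unfold pdn
    rw [fderiv_clm_apply hd (differentiableAt_const _)]
    simp
  rw [key, key, hs.eq]

end pdn

/-- The algebra of smooth functions. -/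
def Sm (n : ℕ) : Subalgebra ℝ (En n → ℝ) where
  carrier := {f | ContDiff ℝ ∞ f}
  mul_mem' := fun {a b} (ha : ContDiff ℝ ∞ a) (hb : ContDiff ℝ ∞ b) => ha.mul hb
  add_mem' := fun {a b} (ha : ContDiff ℝ ∞ a) (hb : ContDiff ℝ ∞ b) => ha.add hb
  algebraMap_mem' := fun c => (contDiff_const : ContDiff ℝ ∞ fun _ : En n => c)

theorem Sm.cd {n : ℕ} (f : Sm n) : ContDiff ℝ ∞ f.1 := f.2

theorem Sm.da {n : ℕ} (f : Sm n) (p : En n) : DifferentiableAt ℝ f.1 p :=
  (Sm.cd f).differentiable (by simp) p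

noncomputable def smD {n : ℕ} (i : Fin n) (f : Sm n) : Sm n :=
  ⟨pdn i f.1, contDiff_pdn (Sm.cd f) i⟩

theorem smD_val {n : ℕ} (i : Fin n) (f : Sm n) : (Sm n).val (smD i f) = pdn i ((Sm n).val f) := rfl

theorem isDer_smD {n : ℕ} : IsDer (smD (n := n)) where
  add i a b := Subtype.ext (funext fun p => pdn_add (Sm.da a p) (Sm.da b p) i)
  mul i a b := Subtype.ext (funext fun p => pdn_mul (Sm.da a p) (Sm.da b p) i)
  smul i c a := Subtype.ext (funext fun p => pdn_smul (Sm.da a p) c i)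
  comm i j a := Subtype.ext (funext fun _ => pdn_comm (Sm.cd a).contDiffAt i j)

section Germ

variable {I : Type} {n : ℕ}

/-- Partial derivative of a family of functions. -/
noncomputable def fD (j : Fin n) (F : I → En n → ℝ) : I → En n → ℝ := fun i => pdn j (F i)

/-- The filter of a family of sets `Ω i` along `l₀`. -/
def fam (l₀ : Filter I) (Ω : I → Set (En n)) : Filter (I × En n) :=
  l₀.bind fun i => (𝓟 (Ω i)).map fun p => (i, p)

theorem ev_fam {l₀ : Filter I} {Ω : I → Set (En n)} {P : I × En n → Prop} :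
    (∀ᶠ z in fam l₀ Ω, P z) ↔ ∀ᶠ i in l₀, ∀ p ∈ Ω i, P (i, p) := by
  simp only [fam, Filter.Eventually, mem_bind', mem_map, mem_principal]
  rfl

class OpF (l : Filter (I × En n)) : Prop where
  op : ∀ {P : I × En n → Prop}, (∀ᶠ z in l, P z) → ∀ᶠ z in l, ∀ᶠ q in 𝓝 z.2, P (z.1, q)

theorem opF_fam {l₀ : Filter I} {Ω : I → Set (En n)} (h : ∀ᶠ i in l₀, IsOpen (Ω i)) :
    OpF (fam l₀ Ω) := by
  refine ⟨fun {P} hP => ?_⟩
  rw [ev_fam] at hP ⊢
  filter_upwards [hP, h] with i hi ho p hp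
  filter_upwards [ho.mem_nhds hp] with q hq using hi q hq

variable (l : Filter (I × En n))

/-- Families that are smooth along `l`. -/
def SmF : Subalgebra ℝ (I → En n → ℝ) where
  carrier := {F | ∀ᶠ z in l, ContDiffAt ℝ ∞ (F z.1) z.2}
  mul_mem' := fun {a b} ha hb => by
    filter_upwards [ha, hb] with z h1 h2 using h1.mul h2
  add_mem' := fun {a b} ha hb => by
    filter_upwards [ha, hb] with z h1 h2 using h1.add h2
  algebraMap_mem' := fun _ => Eventually.of_forall fun _ => contDiffAt_const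

noncomputable def sfD (j : Fin n) (F : SmF l) : SmF l :=
  ⟨fD j F.1, by filter_upwards [F.2] with z hz using contDiffAt_pdn hz j⟩

def nullF : Ideal (SmF l) where
  carrier := {F | ∀ᶠ z in l, F.1 z.1 z.2 = 0}
  add_mem' := fun {a b} ha hb => by
    filter_upwards [ha, hb] with z h1 h2
    simp [h1, h2]
  zero_mem' := Eventually.of_forall fun _ => rfl
  smul_mem' := fun c {a} ha => by
    filter_upwards [ha] with z h1
    simp [h1]

/-- Smooth germs along `l`. -/
abbrev SG : Type := SmF l ⧸ nullF l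

noncomputable def mkG : SmF l →ₐ[ℝ] SG l := Ideal.Quotient.mkₐ ℝ (nullF l)

variable {l}

theorem mkG_eq {F G : SmF l} : mkG l F = mkG l G ↔ ∀ᶠ z in l, F.1 z.1 z.2 = G.1 z.1 z.2 := by
  simp only [mkG, Ideal.Quotient.mkₐ_eq_mk, Ideal.Quotient.eq]
  change (∀ᶠ z in l, (F - G).1 z.1 z.2 = 0) ↔ _
  simp [sub_eq_zero]

theorem mkG_surj (φ : SG l) : ∃ F, mkG l F = φ := Ideal.Quotient.mkₐ_surjective ℝ _ φ

/-- A representative. -/
noncomputable def rep (φ : SG l) : SmF l := (mkG_surj φ).choose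

@[simp] theorem mkG_rep (φ : SG l) : mkG l (rep φ) = φ := (mkG_surj φ).choose_spec

noncomputable def gD (j : Fin n) (φ : SG l) : SG l := mkG l (sfD l j (rep φ))

theorem mkG_sfD [OpF l] (j : Fin n) (F : SmF l) : mkG l (sfD l j F) = gD j (mkG l F) := by
  rw [gD, mkG_eq]
  filter_upwards [OpF.op (mkG_eq.1 (mkG_rep (mkG l F)))] with z hz
  exact ((pdn_congr hz j).self_of_nhds).symm

theorem val_sfD (j : Fin n) (F : SmF l) : (SmF l).val (sfD l j F) = fD j ((SmF l).val F) := rfl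

theorem isDer_gD [OpF l] : IsDer (gD (l := l)) where
  add j a b := by
    obtain ⟨a, rfl⟩ := mkG_surj a
    obtain ⟨b, rfl⟩ := mkG_surj b
    rw [← map_add, ← mkG_sfD, ← mkG_sfD, ← mkG_sfD, ← map_add, mkG_eq]
    filter_upwards [a.2, b.2] with z h1 h2
    exact pdn_add (h1.differentiableAt (by simp)) (h2.differentiableAt (by simp)) j
  mul j a b := by
    obtain ⟨a, rfl⟩ := mkG_surj a
    obtain ⟨b, rfl⟩ := mkG_surj b
    rw [← map_mul, ← mkG_sfD, ← mkG_sfD, ← mkG_sfD, ← map_mul, ← map_mul, ← map_add, mkG_eq]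
    filter_upwards [a.2, b.2] with z h1 h2
    exact pdn_mul (h1.differentiableAt (by simp)) (h2.differentiableAt (by simp)) j
  smul j c a := by
    obtain ⟨a, rfl⟩ := mkG_surj a
    rw [← map_smul, ← mkG_sfD, ← mkG_sfD, ← map_smul, mkG_eq]
    filter_upwards [a.2] with z h1
    exact pdn_smul (h1.differentiableAt (by simp)) c j
  comm i j a := by
    obtain ⟨a, rfl⟩ := mkG_surj a
    rw [← mkG_sfD, ← mkG_sfD, ← mkG_sfD, ← mkG_sfD, mkG_eq]
    filter_upwards [a.2] with z h1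
    exact pdn_comm h1 i j

instance : IsReduced (SG l) := by
  refine ⟨fun x ⟨k, hk⟩ => ?_⟩
  obtain ⟨a, rfl⟩ := mkG_surj x
  rw [← map_pow, ← map_zero (mkG l), mkG_eq] at hk
  rw [← map_zero (mkG l), mkG_eq]
  filter_upwards [hk] with z hz
  have : a.1 z.1 z.2 ^ k = 0 := by simpa using hz
  exact IsNilpotent.eq_zero ⟨k, this⟩

open Classical in
/-- The germ of a family (zero if the family is not smooth along `l`). -/
noncomputable def gm (l : Filter (I × En n)) (F : I → En n → ℝ) : SG l :=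
  if h : F ∈ SmF l then mkG l ⟨F, h⟩ else 0

theorem gm_eq {F : I → En n → ℝ} (h : F ∈ SmF l) : gm l F = mkG l ⟨F, h⟩ := dif_pos h

/-- `F` is smooth along `l` and its derivatives of order `j` are `O(w ρ ^ j)`. -/
def PB (l : Filter (I × En n)) (ρ w : I × En n → ℝ) (F : I → En n → ℝ) : Prop :=
  F ∈ SmF l ∧ ∀ k, ∃ C : ℝ, ∀ᶠ z in l, WB (ρ z) k (C * |w z|) (F z.1) z.2

def PG (ρ w : I × En n → ℝ) (φ : SG l) : Prop := PB l ρ w (rep φ).1

def PosG (φ : SG l) : Prop := ∃ c : ℝ, 0 < c ∧ ∀ᶠ z in l, c ≤ (rep φ).1 z.1 z.2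

noncomputable def expG (φ : SG l) : SG l := gm l fun i p => Real.exp ((rep φ).1 i p)

noncomputable def logG (φ : SG l) : SG l := gm l fun i p => Real.log ((rep φ).1 i p)

/-- `w = O(w')` along `l`. -/
def WLe (l : Filter (I × En n)) (w w' : I × En n → ℝ) : Prop :=
  ∃ C : ℝ, ∀ᶠ z in l, |w z| ≤ C * |w' z|

/-- `Φ` is a smooth family of maps from the domain of `l'` to the domain of `l`. -/
structure IsPull {m : ℕ} (l : Filter (I × En n)) (l' : Filter (I × En m))
    (Φ : I → En m → En n) : Prop where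
  smooth : ∀ a, (fun i p => Φ i p a) ∈ SmF l'
  tend : Tendsto (fun z : I × En m => (z.1, Φ z.1 z.2)) l' l

theorem IsPull.mem {m : ℕ} {l' : Filter (I × En m)} {Φ : I → En m → En n} (h : IsPull l l' Φ)
    (F : SmF l) : (fun i p => F.1 i (Φ i p)) ∈ SmF l' := by
  have h1 : ∀ᶠ z in l', ∀ a, ContDiffAt ℝ ∞ (fun p => Φ z.1 p a) z.2 :=
    eventually_all.2 h.smooth
  filter_upwards [h1, h.tend.eventually F.2] with z h1 h2
  exact ContDiffAt.comp z.2 h2 (contDiffAt_pi.2 h1)

noncomputable def IsPull.homF {m : ℕ} {l' : Filter (I × En m)} {Φ : I → En m → En n}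
    (h : IsPull l l' Φ) : SmF l →ₐ[ℝ] SmF l' where
  toFun F := ⟨fun i p => F.1 i (Φ i p), h.mem F⟩
  map_one' := rfl
  map_mul' _ _ := rfl
  map_zero' := rfl
  map_add' _ _ := rfl
  commutes' _ := rfl

/-- Composition with `Φ`. -/
noncomputable def IsPull.hom {m : ℕ} {l' : Filter (I × En m)} {Φ : I → En m → En n}
    (h : IsPull l l' Φ) : SG l →ₐ[ℝ] SG l' :=
  Ideal.Quotient.liftₐ (nullF l) ((mkG l').comp h.homF) fun F hF => by
    rw [AlgHom.comp_apply, ← map_zero (mkG l'), mkG_eq]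
    exact h.tend.eventually hF

theorem IsPull.hom_mk {m : ℕ} {l' : Filter (I × En m)} {Φ : I → En m → En n}
    (h : IsPull l l' Φ) (F : SmF l) : h.hom (mkG l F) = mkG l' (h.homF F) := rfl

end Germ

end Pool.Agent.Lib.MP_df9110_gt
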