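import Pool.Agent.Lib.MP_df9110_gt.NIter

/-! Pointwise properties of the three model blocks: outer region, layer and corner. -/

namespace Pool.Agent.Lib.MP_df9110_gt

open Filter Topology Set
open scoped ContDiff

def idM (i j : Fin 4) : ℝ := if i = j then 1 else 0

def ricON (k : Fin 8 → ℝ) : Fin 4 → Fin 4 → ℝ :=
  tab2 (k 0 + k 1 + k 4) (k 2 + k 5) (k 0 + k 3 + k 6) (k 1 + k 3 + k 7) (k 4 + k 6 + k 7)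

def rlON (k : Fin 8 → ℝ) : Fin 4 → Fin 4 → Fin 4 → Fin 4 → ℝ :=
  tab4 (k 0) (k 1) (k 2) (k 3) (k 4) (k 5) (k 6) (k 7)

/-- The barrier inequality in an orthonormal frame. -/
def BarON (k : Fin 8 → ℝ) (φ L c : ℝ) : Prop := BarOK idM idM (ricON k) (rlON k) φ 1 L c

def BarAlgStmt : Prop := ∃ C₀ : ℝ, 0 < C₀ ∧ ∀ (k : Fin 8 → ℝ) (κ₁ κ₂ ζ φ L c : ℝ), 0 ≤ κ₁ →
  0 ≤ κ₂ → 0 ≤ ζ → 0 ≤ φ → |k 1 - κ₁| ≤ ζ → |k 6 - κ₂| ≤ ζ → (∀ j, j ≠ 1 → j ≠ 6 → |k j| ≤ ζ) →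
  c + C₀ * ζ ≤ φ →
  (2 * φ - 1 / 2) * κ₁ + L + c + C₀ * ζ * (1 + ζ) * (1 + φ + ζ + κ₂) ≤ 0 →
  (2 * φ - 1 / 2) * κ₂ + L + c + C₀ * ζ * (1 + ζ) * (1 + φ + ζ + κ₁) ≤ 0 → BarON k φ L c

def Blk.All {R : Type} (B : Blk R) (Q : R → Prop) : Prop :=
  Q B.a ∧ Q B.ai ∧ Q B.C ∧ Q B.Ci ∧ Q B.F₁ ∧ Q B.F₁i ∧ Q B.F₂ ∧ Q B.F₂i ∧ Q B.β ∧ Q B.f₁ ∧ Q B.f₂

/-- The curvatures in the orthonormal frame. -/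
noncomputable def kON (B : Blk (En 2 → ℝ)) (p : En 2) (j : Fin 8) : ℝ :=
  if j = 2 ∨ j = 5 then √(B.a p * B.C p) * B.kv pdn j p else B.kv pdn j p

structure PtOK (ε : ℝ) (B : Blk (En 2 → ℝ)) (μ φ : En 2 → ℝ) (Eb Cw : ℝ) (S : ℝ → Prop)
    (p : En 2) : Prop where
  sm : ∀ᶠ q in 𝓝 p, B.All (fun f => ContDiffAt ℝ ∞ f q) ∧ ContDiffAt ℝ ∞ μ q ∧
    ContDiffAt ℝ ∞ φ q ∧ (B.map fun f => f q).Ok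
  pos : 0 < B.a p ∧ 0 < B.C p ∧ 0 < B.F₁ p ∧ 0 < B.F₂ p ∧ 0 < μ p
  err : |B.e11 pdn p| ≤ Eb * μ p ∧ |B.e22 pdn p| ≤ Eb * μ p ∧ |B.e₁ pdn p| ≤ Eb * μ p ∧
    |B.e₂ pdn p| ≤ Eb * μ p ∧ √(B.a p * B.C p) * |B.e12 pdn p| ≤ Eb * μ p
  lap : |B.lap pdn (B.T pdn fun q => Real.log (μ q)) (pdn 1 fun q => Real.log (μ q)) p + 1| ≤
    Cw * (ε * μ p)
  gam : B.a p * B.T pdn (fun q => Real.log (μ q)) p ^ 2 +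
    B.C p * pdn 1 (fun q => Real.log (μ q)) p ^ 2 ≤ Cw * (ε * μ p)
  vol : ε ^ 5 * (B.a p * B.C p) ≤ μ p ^ 6 * (B.F₁ p * B.F₂ p)
  bar : BarON (kON B p) (φ p) (B.lap pdn (B.T pdn φ) (pdn 1 φ) p) (ε * μ p ^ (1 / 4 : ℝ))
  scal : S (B.scal pdn p)

noncomputable def mcut (c₁ s : ℝ) : ℝ := Real.smoothTransition (2 - s / c₁)
noncomputable def ncut (c₁ s : ℝ) : ℝ := Real.smoothTransition (s / c₁ - 2)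

/-- The contribution of a layer to the barrier. -/
noncomputable def bT (c₁ M ε σ n : ℝ) : ℝ :=
  8 * mcut c₁ (ε * σ) * (Real.exp (-σ) / 16 + M * n * Real.exp (-(2 * σ)))

noncomputable def vl {l : Filter Z2} (φ : SG l) (ε : ℝ) (p : En 2) : ℝ := val φ (ε, p)

namespace St

variable {P : Prof} {c : ℝ} (s : St P c)

noncomputable def OR (ε : ℝ) : Out (En 2 → ℝ) :=
  ⟨fun _ => ε, fun p => p 0, vl s.la ε, vl s.bp ε, vl s.lc ε, vl (s.u 0) ε, vl (s.u 1) ε⟩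
noncomputable def BO (ε : ℝ) : Blk (En 2 → ℝ) :=
  (s.OR ε).blk ptE (fun _ => ε⁻¹) fun p => (p 0)⁻¹
noncomputable def GR (m : ℝ → ℝ) (i : Fin 2) (ε : ℝ) : Lay (En 2 → ℝ) :=
  (s.G m i).map fun φ => vl φ ε
noncomputable def BL (m : ℝ → ℝ) (i : Fin 2) (ε : ℝ) : Blk (En 2 → ℝ) :=
  (s.GR m i ε).blk pdn ptE (fun _ => ε⁻¹) ((s.GR m i ε).μ ptE)⁻¹ ((s.GR m i ε).al ptE)⁻¹

end St

/-- `g = 1 + 2 ε D σ - m e^{-2σ}`. -/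
noncomputable def gC (c₁ D ε σ : ℝ) : ℝ :=
  1 + 2 * ε * D * σ - mcut c₁ (ε * σ) * Real.exp (-(2 * σ))

/-- The product of two cigars. -/
noncomputable def BC (c₁ : ℝ) (D : Fin 2 → ℝ) (ε : ℝ) : Blk (En 2 → ℝ) where
  a p := gC c₁ (D 0) ε (p 0) / (4 * ε * D 0)
  ai p := 4 * ε * D 0 / gC c₁ (D 0) ε (p 0)
  C p := gC c₁ (D 1) ε (p 1) / (4 * ε * D 1)
  Ci p := 4 * ε * D 1 / gC c₁ (D 1) ε (p 1)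
  F₁ p := 4 * ε * D 0 * gC c₁ (D 0) ε (p 0) / (1 + ε * D 0) ^ 2
  F₁i p := (1 + ε * D 0) ^ 2 / (4 * ε * D 0 * gC c₁ (D 0) ε (p 0))
  F₂ p := 4 * ε * D 1 * gC c₁ (D 1) ε (p 1) / (1 + ε * D 1) ^ 2
  F₂i p := (1 + ε * D 1) ^ 2 / (4 * ε * D 1 * gC c₁ (D 1) ε (p 1))
  β _ := 0
  f₁ _ := -2
  f₂ _ := -2

noncomputable def μC (D : Fin 2 → ℝ) (ε : ℝ) (p : En 2) : ℝ :=
  (4 * (1 + 2 * ε * D 0 * p 0) / D 0 + 4 * (1 + 2 * ε * D 1 * p 1) / D 1)⁻¹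

def OutBlkStmt : Prop := ∀ (P : Prof) (c : ℝ) (g : P.Geo c) (s : St P c) N Cb, P.Ok →
  s.Fin' g N Cb → ∃ C : ℝ, ∀ᶠ z in P.lO, 0 < z.2 0 →
    PtOK z.1 (s.BO z.1) (fun p => p 0) (fun p => p 0 ^ (1 / 4 : ℝ) / (16 * P.M₀))
      (C * z.1 ^ N) C (· ≤ C) z.2

def LayBlkStmt : Prop := ∀ (P : Prof) (c : ℝ) (g : P.Geo c) (s : St P c) N Cb, P.Ok →
  s.Fin' g (N + 1) Cb → ∃ M : ℝ, 0 ≤ M ∧ ∃ c₂ : ℝ, 0 < c₂ ∧ ∀ c₁, 0 < c₁ → c₁ ≤ c₂ →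
  ∃ C : ℝ, ∀ i, ∀ᶠ z in P.lL c i, 0 < z.2 0 → 0 < P.Mu i (z.1 * z.2 0) (z.2 1) →
    PtOK z.1 (s.BL (mcut c₁) i z.1) (fun p => P.Mu i (z.1 * p 0) (p 1))
      (fun p => P.Mu i (z.1 * p 0) (p 1) ^ (1 / 4 : ℝ) / (16 * P.M₀) * (1 + bT c₁ M z.1 (p 0) 1))
      (C * z.1 ^ N) C (· ≤ P.d i (z.2 1) * P.A0 i z / z.1 + C) z.2

def CorBlkStmt : Prop := ∀ (D : Fin 2 → ℝ) (M₀ M c₁ c : ℝ) (N : ℕ), (∀ i, 0 < D i) → 1 ≤ M₀ →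
  (4 / D 0 + 4 / D 1)⁻¹ ≤ M₀ → 0 ≤ M → 0 < c₁ → ∃ C : ℝ, ∀ᶠ ε in 𝓝[>] (0 : ℝ), ∀ p : En 2,
    (∀ i, 0 < p i ∧ ε * p i < c) → PtOK ε (BC c₁ D ε) (μC D ε)
      (fun p => μC D ε p ^ (1 / 4 : ℝ) / (16 * M₀) * (1 + (bT c₁ M ε (p 0) (ncut c₁ (ε * p 1)) +
        bT c₁ M ε (p 1) (ncut c₁ (ε * p 0))))) (C * ε ^ N) C
      (fun x => x ≤ (1 / D 0 + 1 / D 1) / ε + C ∧
        ((∀ i, p i ≤ ε) → (1 / D 0 + 1 / D 1) / ε - C ≤ x)) p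

end Pool.Agent.Lib.MP_df9110_gt
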