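import Pool.Agent.Lib.MP_df9110_gt.NPert

/-! The formal solution: outer fields and boundary layers, over a differential algebra with an
exponential `E`. -/

namespace Pool.Agent.Lib.MP_df9110_gt

/-- Weighted classes in a differential algebra with exponential and logarithm. -/
structure WR {R W : Type} [CommRing R] [Algebra ℝ R] [CommMonoid W] (D : Fin 2 → R → R)
    (E Lg : R → R) (P : W → R → Prop) (Pos : R → Prop) (Sml : W → Prop) : Prop where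
  der : IsDer D
  zero : ∀ w, P w 0
  one : P 1 1
  add : ∀ {w a b}, P w a → P w b → P w (a + b)
  smul : ∀ {w a} (c : ℝ), P w a → P w (c • a)
  mul : ∀ {w w' a b}, P w a → P w' b → P (w * w') (a * b)
  pD : ∀ {w a} (i : Fin 2), P w a → P w (D i a)
  sml : ∀ {w v a}, Sml v → P (w * v) a → P w a
  sml_one : Sml 1
  sml_mul : ∀ {v w}, Sml v → Sml w → Sml (v * w)
  E_add : ∀ a b, E (a + b) = E a * E b
  E_zero : E 0 = 1
  E_der : ∀ a i, D i (E a) = E a * D i a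
  E_bd : ∀ {a}, P 1 a → P 1 (E a) ∧ Pos (E a)
  E_sub : ∀ {w a}, Sml w → P w a → P w (E a - 1) ∧ P (w * w) (E a - 1 - a)
  Lg_E : ∀ a, Lg (E a) = a
  E_Lg : ∀ {b}, Pos b → E (Lg b) = b
  Lg_bd : ∀ {b}, Pos b → P 1 b → P 1 (Lg b)
  Lg_sub : ∀ {w b}, Sml w → Pos b → P w (b - 1) → P w (Lg b)
  pos_mul : ∀ {a b}, Pos a → Pos b → Pos (a * b)

def pairE {R : Type} (E : R → R) (z : R × R) : R × R := (E z.1, E z.2)

/-- Pairs whose difference gains the weight `v`. -/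
def pairP {R W : Type} [Sub R] [Mul W] (P : W → R → Prop) (v w : W) (z : R × R) : Prop :=
  P w z.1 ∧ P (w * v) (z.2 - z.1)

def pairPos {R : Type} (Pos : R → Prop) (z : R × R) : Prop := Pos z.1 ∧ Pos z.2

/-- Outer fields in the coordinates `(μ, x)`; `r² = 1 / (ε μ)`. -/
structure Out (R : Type) where
  (ε μ la bp lc u₁ u₂ : R)

namespace Out

variable {R : Type} [CommRing R] [Algebra ℝ R] (D : Fin 2 → R → R) (E : R → R) (O : Out R)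

def map {S : Type} (π : R → S) : Out S :=
  ⟨π O.ε, π O.μ, π O.la, π O.bp, π O.lc, π O.u₁, π O.u₂⟩
def swap : Out R := { O with u₁ := O.u₂, u₂ := O.u₁ }
def Dd (f : R) : R := O.μ * (D 0 f + O.bp * D 1 f)
noncomputable def jh : R := (1 / 2 : ℝ) • O.Dd D O.lc + (1 / 2 : ℝ) • 1 - O.μ * D 1 O.bp
noncomputable def l : R := (1 / 2 : ℝ) • D 1 O.la
noncomputable def t₁ : R := O.Dd D O.u₁ - (1 / 2 : ℝ) • 1
noncomputable def t₂ : R := O.Dd D O.u₂ - (1 / 2 : ℝ) • 1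
noncomputable def K : R :=
  4 * E O.la * (O.Dd D (O.jh D) + (1 / 2 : ℝ) • ((O.Dd D O.la + 1) * O.jh D) - O.jh D ^ 2) +
    E O.lc * (D 1 (O.l D) + (1 / 2 : ℝ) • (D 1 O.lc * O.l D) - O.l D ^ 2)
noncomputable def k11 (t s : R) : R :=
  -(4 * E O.la * (O.Dd D t + (1 / 2 : ℝ) • ((O.Dd D O.la + 1) * t) + t ^ 2) - E O.lc * O.l D * s)
noncomputable def k22 (t s : R) : R :=
  -(E O.lc * (D 1 s + (1 / 2 : ℝ) • (D 1 O.lc * s) + s ^ 2) - 4 * E O.la * O.jh D * t)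
noncomputable def k12 (t s : R) : R :=
  -(O.Dd D s + (1 / 2 : ℝ) • ((O.Dd D O.lc + 1) * s) + O.l D * t + t * s)
noncomputable def k34 : R := -(4 * E O.la * O.t₁ D * O.t₂ D + E O.lc * D 1 O.u₁ * D 1 O.u₂)
noncomputable def oa : R := O.K D E + O.k11 D E (O.t₁ D) (D 1 O.u₁) + O.k11 D E (O.t₂ D) (D 1 O.u₂)
noncomputable def ob : R :=
  -(2 * E O.lc * (O.k12 D (O.t₁ D) (D 1 O.u₁) + O.k12 D (O.t₂ D) (D 1 O.u₂)))
noncomputable def oc : R := O.K D E + O.k22 D E (O.t₁ D) (D 1 O.u₁) + O.k22 D E (O.t₂ D) (D 1 O.u₂)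
noncomputable def o₁ : R :=
  -(O.k11 D E (O.t₁ D) (D 1 O.u₁) + O.k22 D E (O.t₁ D) (D 1 O.u₁) + O.k34 D E)
noncomputable def o₂ : R :=
  -(O.k11 D E (O.t₂ D) (D 1 O.u₂) + O.k22 D E (O.t₂ D) (D 1 O.u₂) + O.k34 D E)
/-- the five errors -/
noncomputable def err : Fin 5 → R :=
  ![O.ε * O.oa D E - (1 / 2 : ℝ) • D 0 O.la, -D 0 (O.μ * O.bp) - O.ε * O.ob D E,
    O.ε * O.oc D E - (1 / 2 : ℝ) • D 0 O.lc, D 0 O.u₁ - O.ε * O.o₁ D E, D 0 O.u₂ - O.ε * O.o₂ D E]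
noncomputable def lapmu : R :=
  4 * E O.la * ((1 / 2 : ℝ) • (O.Dd D O.la + 1) - O.jh D + O.t₁ D + O.t₂ D)
noncomputable def Om : R :=
  (1 / 4 : ℝ) • (D 1 O.la * E (-O.la)) -
    O.μ * (O.Dd D (O.bp * E (-O.lc)) + O.μ * D 1 O.bp * O.bp * E (-O.lc))
noncomputable def lam₂ (Ω : R) : R :=
  4 * E O.la * (O.Dd D Ω + Ω * ((1 / 2 : ℝ) • O.Dd D O.la + (1 / 2 : ℝ) • O.Dd D O.lc +
    O.t₁ D + O.t₂ D))
noncomputable def lam₁ (Ω : R) : R :=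
  E O.lc * (D 1 Ω + Ω * (O.l D + (1 / 2 : ℝ) • D 1 O.lc + D 1 O.u₁ + D 1 O.u₂))
noncomputable def biL (Ω : R) : R :=
  O.Dd D (O.lam₂ D E Ω) + O.μ * D 1 O.bp * O.lam₂ D E Ω + D 1 (O.lam₁ D E Ω)
noncomputable def B₁ (ea f ec e₁ e₂ : R) : R :=
  O.ε * O.μ * ((1 / 2 : ℝ) • (O.Dd D (ea - ec - e₁ - e₂) + (ea - ec - e₁ - e₂)) -
      O.jh D * (ea - ec) + (ea - e₁) * O.t₁ D + (ea - e₂) * O.t₂ D + E O.lc * D 1 f +
      E O.lc * f * ((1 / 2 : ℝ) • D 1 O.lc - O.l D + D 1 O.u₁ + D 1 O.u₂)) -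
    (1 / 4 : ℝ) • (E (-O.la) * ea) + O.μ * O.bp * f
noncomputable def B₂ (ea f ec e₁ e₂ : R) : R :=
  O.ε * O.μ * ((1 / 2 : ℝ) • D 1 (ec - ea - e₁ - e₂) - O.l D * (ec - ea) + (ec - e₁) * D 1 O.u₁ +
      (ec - e₂) * D 1 O.u₂ + 4 * E O.la * (O.Dd D f + f * ((1 / 2 : ℝ) • O.Dd D O.la +
        (1 / 2 : ℝ) • O.Dd D O.lc + 1 - 2 * O.jh D + O.t₁ D + O.t₂ D))) -
    f + O.μ * O.bp * E (-O.lc) * ec
noncomputable def biR (e : Fin 5 → R) : R :=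
  2 * (O.Dd D (O.B₂ D E (e 0) ((1 / 2 : ℝ) • (e 1 * E (-O.lc))) (e 2) (e 3) (e 4)) +
    O.μ * D 1 O.bp * O.B₂ D E (e 0) ((1 / 2 : ℝ) • (e 1 * E (-O.lc))) (e 2) (e 3) (e 4) -
    D 1 (O.B₁ D E (e 0) ((1 / 2 : ℝ) • (e 1 * E (-O.lc))) (e 2) (e 3) (e 4)))
/-- The block metric; `εi, μi` are the inverses of `ε, μ`. -/
noncomputable def blk (εi μi : R) : Blk R where
  a := 4 * O.ε * O.μ ^ 3 * E O.la
  ai := (1 / 4 : ℝ) • (εi * μi ^ 3 * E (-O.la))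
  C := O.ε * O.μ * E O.lc
  Ci := εi * μi * E (-O.lc)
  F₁ := O.ε * μi * E (2 * O.u₁)
  F₁i := εi * O.μ * E (-(2 * O.u₁))
  F₂ := O.ε * μi * E (2 * O.u₂)
  F₂i := εi * O.μ * E (-(2 * O.u₂))
  β := O.bp
  f₁ := (1 / 4 : ℝ) • (εi * μi ^ 2 * E (-O.la))
  f₂ := -(εi * O.bp * E (-O.lc))

end Out

/-- Generators of the boundary layer in the coordinates `(σ, x)`: `s0 = ε σ`, `y ≈ e^{-2σ}`,
`yp = (2+σ) y`, `et = (2+σ)(1-y)/σ`, the profile `d, chi, L`, the outer fields (`uw` belongs to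
the circle that collapses), the corrections, and three logarithms. -/
structure Lay (R : Type) where
  (ε s0 y yp et d chi L la bp lc uw uo lam gam nu w1 w2 rho xi1 lq lAo leh : R)

namespace Lay

variable {R : Type} [CommRing R] [Algebra ℝ R] (D : Fin 2 → R → R) (E : R → R) (G : Lay R)

def map {S : Type} (π : R → S) : Lay S :=
  ⟨π G.ε, π G.s0, π G.y, π G.yp, π G.et, π G.d, π G.chi, π G.L, π G.la, π G.bp, π G.lc, π G.uw,
    π G.uo, π G.lam, π G.gam, π G.nu, π G.w1, π G.w2, π G.rho, π G.xi1, π G.lq, π G.lAo, π G.leh⟩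
def All (Q : R → Prop) : Prop :=
  Q G.ε ∧ Q G.s0 ∧ Q G.y ∧ Q G.yp ∧ Q G.et ∧ Q G.d ∧ Q G.chi ∧ Q G.L ∧ Q G.la ∧ Q G.bp ∧ Q G.lc ∧
    Q G.uw ∧ Q G.uo ∧ Q G.lam ∧ Q G.gam ∧ Q G.nu ∧ Q G.w1 ∧ Q G.w2 ∧ Q G.rho ∧ Q G.xi1 ∧ Q G.lq ∧
    Q G.lAo ∧ Q G.leh
/-- the outer solution in the coordinates of the layer -/
def out : Lay R := { G with y := 0, yp := 0, lam := 0, gam := 0, nu := 0, w1 := 0, w2 := 0 }

def psi : R := 2 * E (2 * G.L)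
def q : R := 1 + G.chi * (G.s0 * G.psi E)
noncomputable def μ : R := (1 / 4 : ℝ) • (G.d - G.s0 * G.psi E * E (-G.lq))
def P0 : R := -(2 * E (-(2 * G.L)) * E (2 * G.lq))
noncomputable def τ₂ : R := D 1 (G.μ E)
noncomputable def P1 : R := -(G.P0 E * G.τ₂ D E)
noncomputable def Pp : R := G.P0 E + G.bp * G.P1 D E
noncomputable def Ao : R := 4 * G.μ E ^ 2 * E G.la * G.Pp D E ^ 2 + E G.lc * G.P1 D E ^ 2
def eh : R := G.et + (G.s0 + 2 * G.ε) * G.chi * G.psi E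
noncomputable def b : R :=
  (4 * G.μ E ^ 2 * E G.la * G.Pp D E * G.bp + E G.lc * G.P1 D E) * E (-G.lAo)
noncomputable def lCl : R := Real.log 16 • 1 - 4 * G.L + 4 * G.lq + G.la + G.lc - G.lAo
noncomputable def τ₁ : R := 4 * E G.la * G.Pp D E * E (-G.lAo)
noncomputable def Yo : R := -(G.b D E * G.P0 E)
def al : R := 1 - G.y * E (-G.lq)
def lal : R := G.ε * G.yp * D 1 (G.chi * G.psi E) * E (-G.lq) * E (-G.leh)
def lA : R := G.lAo - 2 * G.lam - 2 * G.rho * G.y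
noncomputable def lC : R := G.lCl + 2 * G.gam
def u₁ : R := G.uw + G.lam
def u₂ : R := G.uo + G.nu
def W : R := G.P0 E + G.w1
noncomputable def Y : R := G.Yo D E + G.μ E * G.w2
noncomputable def T (f : R) : R := D 0 f + G.ε * G.b D E * D 1 f
noncomputable def Sd (f : R) : R := G.μ E * D 1 f
noncomputable def Xi : R := G.lal D E + (1 / 2 : ℝ) • D 1 G.lA + D 1 G.u₁
noncomputable def Xe : R := G.ε * G.Xi D E + G.xi1 * G.yp * E (-G.leh)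
noncomputable def mt : R := G.ε * G.μ E * G.τ₁ D E
noncomputable def ek : R := G.mt D E - G.ε * D 1 (G.b D E)
noncomputable def j : R :=
  (3 / 2 : ℝ) • G.mt D E + (1 / 2 : ℝ) • G.T D E G.lC - G.ε * D 1 (G.b D E)
noncomputable def lh : R := (1 / 2 : ℝ) • (G.τ₂ D E + G.μ E * G.lal D E + G.Sd D E G.lA)
noncomputable def yv : R :=
  (1 / 2 : ℝ) • G.T D E (G.al E) + G.al E * (G.T D E G.u₁ - (1 / 2 : ℝ) • G.mt D E)
noncomputable def t₂ : R := G.T D E G.u₂ - (1 / 2 : ℝ) • G.mt D E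
noncomputable def s₁ : R := (1 / 2 : ℝ) • (G.μ E * G.lal D E - G.τ₂ D E) + G.Sd D E G.u₁
noncomputable def s₂ : R := G.Sd D E G.u₂ - (1 / 2 : ℝ) • G.τ₂ D E
noncomputable def TaA : R := E G.lA * G.T D E (G.al E) + G.al E * E G.lA * G.T D E G.lA
noncomputable def Ba : R := (1 / 2 : ℝ) • (G.TaA D E + G.mt D E * G.al E * E G.lA)
noncomputable def hc : R := (1 / 2 : ℝ) • (G.τ₂ D E + G.Sd D E G.lC)
noncomputable def K : R :=
  G.al E * E G.lA * (G.T D E (G.j D E) - G.j D E ^ 2) + G.Ba D E * G.j D E +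
    G.ε ^ 2 * E G.lC * (G.Sd D E (G.lh D E) + G.hc D E * G.lh D E - G.lh D E ^ 2)
noncomputable def Wh : R := G.W E - E G.lA * G.t₂ D E
noncomputable def X₁ : R := G.al E * G.Wh D E - E G.lA * G.yv D E
noncomputable def xt : R := G.w2 - G.ε * E G.lC * (G.s₁ D E + G.s₂ D E)
noncomputable def X₂ : R := G.Yo D E + G.μ E * G.xt D E
noncomputable def th : R := G.T D E G.u₁ + (1 / 2 : ℝ) • G.T D E G.lA
noncomputable def base : R :=
  (1 / 2 : ℝ) • (G.μ E * G.P0 E * G.τ₁ D E - G.τ₂ D E * G.xt D E)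
noncomputable def e₁ : R :=
  -(E G.lA * G.T D E (G.yv D E)) - E G.lA * G.yv D E * G.th D E +
    E G.lA * G.yv D E * (G.j D E - G.t₂ D E) + G.W E * G.yv D E -
    G.ε ^ 2 * E G.lC * (G.Sd D E (G.s₁ D E) + (G.hc D E - G.lh D E) * G.s₁ D E) +
    G.ε * (G.base D E + G.X₂ D E * ((1 / 2 : ℝ) • G.lal D E + D 1 G.u₁))
noncomputable def e₂ : R :=
  -(G.al E * E G.lA * G.T D E (G.t₂ D E) + G.Ba D E * G.t₂ D E -
      G.al E * E G.lA * G.j D E * G.t₂ D E) + G.X₁ D E * G.t₂ D E -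
    G.ε ^ 2 * E G.lC * (G.Sd D E (G.s₂ D E) + (G.hc D E - G.lh D E) * G.s₂ D E) +
    G.ε * (G.base D E + G.X₂ D E * D 1 G.u₂)
noncomputable def e₃ : R :=
  G.K D E - G.X₁ D E * G.j D E +
    G.ε * (G.base D E - (1 / 2 : ℝ) • (G.X₂ D E * D 1 G.lC) + D 1 (G.X₂ D E)) -
    G.ε ^ 2 * E G.lC * (G.s₁ D E ^ 2 + G.s₂ D E ^ 2)
noncomputable def e₄ : R :=
  (1 / 2 : ℝ) • (G.T D E (G.xt D E) + (G.mt D E + G.ek D E) * G.xt D E) +
    E G.lC * E (-G.lA) * (G.ε * ((1 / 2 : ℝ) • (G.Sd D E (G.Wh D E) +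
        G.μ E * G.lal D E * G.Wh D E + G.τ₂ D E * G.Wh D E) - E G.lA * G.t₂ D E * G.s₂ D E -
        (1 / 2 : ℝ) • (E G.lA * (G.T D E (G.s₁ D E) - G.ek D E * G.s₁ D E))) -
      E G.lA * G.yv D E * G.μ E * G.Xe D E)
noncomputable def e₅ : R :=
  G.T D E (G.Wh D E) - G.Wh D E * (G.th D E - G.mt D E) - E G.lA * G.t₂ D E ^ 2 +
    E G.lA * (G.T D E (G.j D E) - G.j D E ^ 2) +
    E G.lA * G.j D E * ((1 / 2 : ℝ) • G.T D E G.lA - G.T D E G.u₁ + G.mt D E) -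
    G.X₂ D E * G.Xe D E + G.ε * E G.lC * (G.Sd D E (G.μ E * G.Xe D E) +
      G.μ E * G.Xe D E * (G.μ E * G.lal D E + G.hc D E - G.lh D E))
noncomputable def e : Fin 5 → R := ![G.e₁ D E, G.e₂ D E, G.e₃ D E, G.e₄ D E, G.e₅ D E]
/-- the part of the error that decays away from the wall -/
noncomputable def elay (k : Fin 5) : R := G.e D E k - G.out.e D E k
noncomputable def zo : R := (1 / 2 : ℝ) • (G.T D E (G.Yo D E) + G.ek D E * G.Yo D E)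
/-- curvatures: `K, k11, k12, k22` (wall circle), `k11, k12, k22` (other circle), `k34` -/
noncomputable def k : Fin 8 → R :=
  ![G.K D E, -(E G.lA * (G.T D E (G.yv D E) + G.yv D E * G.th D E)) +
      G.ε ^ 2 * E G.lC * G.lh D E * G.s₁ D E,
    -(G.ε * G.T D E (G.s₁ D E) + G.ε * (G.j D E - G.ek D E) * G.s₁ D E +
      G.yv D E * G.μ E * G.Xe D E),
    E G.lA * G.j D E * G.yv D E -
      G.ε ^ 2 * E G.lC * (G.Sd D E (G.s₁ D E) + G.hc D E * G.s₁ D E + G.s₁ D E ^ 2),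
    -(G.al E * E G.lA * G.T D E (G.t₂ D E) + G.Ba D E * G.t₂ D E +
      G.al E * E G.lA * G.t₂ D E ^ 2) + G.ε ^ 2 * E G.lC * G.lh D E * G.s₂ D E,
    -(G.ε * (G.T D E (G.s₂ D E) + (G.j D E - G.ek D E) * G.s₂ D E + G.lh D E * G.t₂ D E +
      G.t₂ D E * G.s₂ D E)),
    G.al E * E G.lA * G.j D E * G.t₂ D E -
      G.ε ^ 2 * E G.lC * (G.Sd D E (G.s₂ D E) + G.hc D E * G.s₂ D E + G.s₂ D E ^ 2),
    -(E G.lA * G.yv D E * G.t₂ D E + G.ε ^ 2 * E G.lC * G.s₁ D E * G.s₂ D E)]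
noncomputable def Bc : R := G.Ba D E - G.al E * E G.lA * G.j D E - G.X₁ D E
noncomputable def lap (f : R) : R :=
  G.al E * E G.lA * G.T D E (G.T D E f) + G.Bc D E * G.T D E f +
    G.ε ^ 2 * E G.lC * (G.Sd D E (G.Sd D E f) + (G.hc D E - G.lh D E) * G.Sd D E f) -
    G.ε * G.X₂ D E * D 1 f
noncomputable def lapmu : R :=
  G.al E * E G.lA * G.T D E (G.μ E * G.τ₁ D E) + G.μ E * G.τ₁ D E * (G.Bc D E + G.P0 E) -
    G.xt D E * G.τ₂ D E + G.ε * E G.lC * (G.Sd D E (G.τ₂ D E) + (G.hc D E - G.lh D E) * G.τ₂ D E)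
noncomputable def Om : R :=
  G.T D E (G.Y D E * E (-G.lC)) - (G.mt D E + G.ek D E) * (G.Y D E * E (-G.lC)) -
    G.ε * G.μ E ^ 2 * D 1 (G.W E * E (-G.lA))
noncomputable def cO : R :=
  (1 / 2 : ℝ) • G.TaA D E + (1 / 2 : ℝ) • (G.al E * E G.lA * G.T D E G.lC) - G.X₁ D E
noncomputable def lam₂ (Ω : R) : R := G.al E * E G.lA * G.T D E Ω + Ω * G.cO D E
noncomputable def lam₁ (Ω : R) : R :=
  E G.lC * (G.Sd D E Ω + Ω * (G.lh D E - (1 / 2 : ℝ) • G.τ₂ D E + (1 / 2 : ℝ) • G.Sd D E G.lC))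
noncomputable def biL (Ω : R) : R :=
  G.T D E (G.lam₂ D E Ω) - G.ek D E * G.lam₂ D E Ω - G.ε * D 1 (Ω * G.X₂ D E) +
    G.ε * Ω * (G.τ₂ D E * G.xt D E - G.μ E * G.P0 E * G.τ₁ D E) +
    G.ε ^ 2 * G.Sd D E (G.lam₁ D E Ω)
noncomputable def B₁ (E1 E2 E3 E4 E5 : R) : R :=
  G.μ E * ((1 / 2 : ℝ) • G.T D E (G.al E * E5 - E3 - E2) +
      (1 / 2 : ℝ) • (G.mt D E * (G.al E * E5 - E3 - E2)) - G.j D E * (E1 + G.al E * E5 - E3) +
      E5 * G.yv D E + (E1 + G.al E * E5 - E2) * G.t₂ D E -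
      G.W E * E (-G.lA) * (E1 + G.al E * E5)) +
    G.ε * G.μ E * (E G.lC * G.Sd D E (E4 * E (-G.lC)) +
      E4 * (G.hc D E - G.lh D E + G.s₁ D E + G.s₂ D E)) - G.Y D E * (E4 * E (-G.lC))
noncomputable def B₂ (E1 E2 E3 E4 E5 : R) : R :=
  G.ε * G.μ E * ((1 / 2 : ℝ) • (G.Sd D E (E3 - 2 * E1 - G.al E * E5 - E2) +
        G.τ₂ D E * (E3 - 2 * E1 - G.al E * E5 - E2)) - G.lh D E * (E3 - E1 - G.al E * E5) +
      (E3 - E1) * G.s₁ D E + (E3 - E2) * G.s₂ D E) +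
    G.μ E * (G.al E * E G.lA * G.T D E (E4 * E (-G.lC)) + E4 * E (-G.lC) *
      (G.Ba D E + G.al E * E G.lA * (G.t₂ D E - G.j D E - G.ek D E) + E G.lA * G.yv D E -
        G.al E * G.W E)) - G.Y D E * E (-G.lC) * E3
noncomputable def biR (e : Fin 5 → R) : R :=
  2 * (G.T D E (G.B₂ D E (e 0) (e 1) (e 2) (e 3) (e 4)) -
    G.ek D E * G.B₂ D E (e 0) (e 1) (e 2) (e 3) (e 4) -
    G.ε * G.Sd D E (G.B₁ D E (e 0) (e 1) (e 2) (e 3) (e 4)))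
/-- the outer errors `ea, eb, ec, ew, eo` in the frame of the layer -/
noncomputable def cov (er : Fin 5 → R) : Fin 5 → R :=
  ![G.ε * er 3, G.ε * er 4,
    G.ε * E G.lCl * ((1 / 4 : ℝ) • (G.τ₂ D E ^ 2 * E (-G.la) * er 0) +
      G.μ E * G.τ₂ D E * (1 - G.bp * G.τ₂ D E) * E (-G.lc) * er 1 +
      G.μ E ^ 2 * (1 - G.bp * G.τ₂ D E) ^ 2 * E (-G.lc) * er 2),
    G.ε * E G.lCl * ((1 / 4 : ℝ) • (G.μ E * G.τ₁ D E * G.τ₂ D E * E (-G.la) * er 0) +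
      (1 / 2 : ℝ) • ((G.μ E ^ 2 * G.τ₁ D E * (1 - G.bp * G.τ₂ D E) * E (-G.lc) +
        G.P1 D E * G.τ₂ D E * E (-G.lAo)) * er 1) +
      G.μ E * G.P1 D E * (1 - G.bp * G.τ₂ D E) * E (-G.lAo) * er 2),
    G.ε * ((1 / 4 : ℝ) • (E G.lAo * G.μ E ^ 2 * G.τ₁ D E ^ 2 * E (-G.la) * er 0) +
      G.μ E * G.τ₁ D E * G.P1 D E * er 1 + E G.lc * G.P1 D E ^ 2 * E (-G.lAo) * er 2 - er 3)]
/-- the total error -/
noncomputable def tot (er : Fin 5 → R) (k : Fin 5) : R := G.elay D E k + G.cov D E er k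
/-- The block metric; `εi, μi, ali` are the inverses of `ε, μ, α`. -/
noncomputable def blk (εi μi ali : R) : Blk R where
  a := εi * G.μ E * G.al E * E G.lA
  ai := G.ε * μi * ali * E (-G.lA)
  C := G.ε * G.μ E ^ 3 * E G.lC
  Ci := εi * μi ^ 3 * E (-G.lC)
  F₁ := G.ε * μi * G.al E * E (2 * G.u₁)
  F₁i := εi * G.μ E * ali * E (-(2 * G.u₁))
  F₂ := G.ε * μi * E (2 * G.u₂)
  F₂i := εi * G.μ E * E (-(2 * G.u₂))
  β := G.ε * G.b D E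
  f₁ := G.W E * E (-G.lA)
  f₂ := εi * μi ^ 2 * G.Y D E * E (-G.lC)
/-- `ρ₀` before evaluation at the wall -/
noncomputable def rho0 (lg : R) : R := lg + (1 / 2 : ℝ) • G.lAo + G.uw

/-- The relations between the generators. -/
structure Ok : Prop where
  dε : ∀ i, D i G.ε = 0
  s0₀ : D 0 G.s0 = G.ε
  s0₁ : D 1 G.s0 = 0
  y₁ : D 1 G.y = 0
  d₀ : D 0 G.d = 0
  chi₀ : D 0 G.chi = 0
  L₀ : D 0 G.L = 0
  lq : E G.lq = G.q E
  lAo : E G.lAo = G.Ao D E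
  leh : E G.leh = G.eh E

end Lay

/-- The rules of the exponential. -/
structure IsExp {R : Type} [CommRing R] (D : Fin 2 → R → R) (E : R → R) : Prop where
  add : ∀ a b, E (a + b) = E a * E b
  zero : E 0 = 1
  der : ∀ a i, D i (E a) = E a * D i a

end Pool.Agent.Lib.MP_df9110_gt
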