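import Pool.Agent.Lib.MP_df9110_gt.NForm

/-! Statements of the algebraic identities for the outer fields and the boundary layers. -/

namespace Pool.Agent.Lib.MP_df9110_gt

section Defs

variable {R : Type} [CommRing R] [Algebra ℝ R] (D : Fin 2 → R → R) (E : R → R)

noncomputable def Blk.kv (B : Blk R) : Fin 8 → R :=
  ![B.K D, B.k11 D (B.t₁ D) (B.x₁ D), B.k12 D (B.t₁ D) (B.x₁ D), B.k22 D (B.t₁ D) (B.x₁ D),
    B.k11 D (B.t₂ D) (B.x₂ D), B.k12 D (B.t₂ D) (B.x₂ D), B.k22 D (B.t₂ D) (B.x₂ D), B.k34 D]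

noncomputable def Out.kv (O : Out R) : Fin 8 → R :=
  ![O.K D E, O.k11 D E (O.t₁ D) (D 1 O.u₁), O.k12 D (O.t₁ D) (D 1 O.u₁),
    O.k22 D E (O.t₁ D) (D 1 O.u₁), O.k11 D E (O.t₂ D) (D 1 O.u₂), O.k12 D (O.t₂ D) (D 1 O.u₂),
    O.k22 D E (O.t₂ D) (D 1 O.u₂), O.k34 D E]

structure Out.Ok (O : Out R) : Prop where
  dε : ∀ i, D i O.ε = 0
  μ₀ : D 0 O.μ = 1
  μ₁ : D 1 O.μ = 0

/-- the outer curvatures in the frame of the layer -/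
noncomputable def Lay.kc (G : Lay R) (k : Fin 8 → R) : Fin 8 → R :=
  let c₁ := fun a b c : R => (1 / 4 : ℝ) • (E G.lAo * G.μ E ^ 2 * G.τ₁ D E ^ 2 * E (-G.la) * a) +
    2 * G.μ E * G.τ₁ D E * E G.lc * G.P1 D E * b + E G.lc * G.P1 D E ^ 2 * E (-G.lAo) * c
  let c₂ := fun a b c : R => (1 / 4 : ℝ) • (G.μ E * G.τ₁ D E * G.τ₂ D E * E (-G.la) * a) +
    (G.μ E ^ 2 * G.τ₁ D E * (1 - G.bp * G.τ₂ D E) +
      E G.lc * G.P1 D E * E (-G.lAo) * G.τ₂ D E) * b +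
    G.μ E * G.P1 D E * E (-G.lAo) * (1 - G.bp * G.τ₂ D E) * c
  let c₃ := fun a b c : R => E G.lCl * ((1 / 4 : ℝ) • (G.τ₂ D E ^ 2 * E (-G.la) * a) +
    2 * G.μ E * G.τ₂ D E * (1 - G.bp * G.τ₂ D E) * b +
    G.μ E ^ 2 * (1 - G.bp * G.τ₂ D E) ^ 2 * E (-G.lc) * c)
  ![k 0, c₁ (k 1) (k 2) (k 3), c₂ (k 1) (k 2) (k 3), c₃ (k 1) (k 2) (k 3),
    c₁ (k 4) (k 5) (k 6), c₂ (k 4) (k 5) (k 6), c₃ (k 4) (k 5) (k 6), k 7]

structure OutHG (O : Out R) (εi μi : R) : Prop where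
  ok : (O.blk E εi μi).Ok
  e11 : (O.blk E εi μi).e11 D = O.μ * O.err D E 0
  e12 : 2 * O.ε * O.μ * E O.lc * (O.blk E εi μi).e12 D = O.err D E 1
  e22 : (O.blk E εi μi).e22 D = O.μ * O.err D E 2
  e₁ : (O.blk E εi μi).e₁ D = O.μ * O.err D E 3
  e₂ : (O.blk E εi μi).e₂ D = O.μ * O.err D E 4
  kv : ∀ i, i ≠ 2 → i ≠ 5 → (O.blk E εi μi).kv D i = O.ε * O.μ * O.kv D E i
  kv' : ∀ i, i = 2 ∨ i = 5 → O.μ * (O.blk E εi μi).kv D i = O.kv D E i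
  lapmu : (O.blk E εi μi).lap D μi 0 + 1 = O.ε * O.μ * O.lapmu D E
  Om : O.ε * O.μ ^ 2 * (O.blk E εi μi).Om D = O.Om D E
  bi : O.ε * O.biL D E (O.Om D E) - D 0 (O.Om D E) = O.biR D E (O.err D E)

structure LayBasic (G : Lay R) : Prop where
  dμ : D 0 (G.μ E) * G.P0 E = G.ε
  Tμ : G.T D E (G.μ E) = G.μ E * G.mt D E
  det : G.μ E ^ 2 * G.P0 E * G.τ₁ D E + G.Yo D E * G.τ₂ D E = 1
  b₁ : 1 - G.b D E * G.P1 D E = G.μ E ^ 2 * G.τ₁ D E * G.P0 E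
  b₂ : G.bp - G.b D E * G.Pp D E = -(E G.lc * G.P0 E * G.P1 D E * E (-G.lAo))
  Cl : E G.lCl = 4 * G.P0 E ^ 2 * E G.la * E G.lc * E (-G.lAo)
  P0 : G.P0 E * G.psi E = -(4 * G.q E ^ 2)

/-- The relations used to compare a layer with its block metric. -/
structure Lay.Unit (G : Lay R) (εi μi ali : R) : Prop where
  hε : G.ε * εi = 1
  hμ : G.μ E * μi = 1
  hal : G.al E * ali = 1
  lal : G.lal D E * G.al E = D 1 (G.al E)
  Xe : G.Xe D E * G.al E = G.ε * G.Xi D E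

structure LayHG (G : Lay R) (εi μi ali : R) : Prop where
  ok : (G.blk D E εi μi ali).Ok
  e₁ : G.ε * (G.blk D E εi μi ali).e₁ D = G.μ E * G.e₁ D E
  e₂ : G.ε * (G.blk D E εi μi ali).e₂ D = G.μ E * G.e₂ D E
  e22 : G.ε * (G.blk D E εi μi ali).e22 D = G.μ E * G.e₃ D E
  e12 : G.ε * G.μ E ^ 2 * E G.lC * (G.blk D E εi μi ali).e12 D = G.μ E * G.e₄ D E + G.zo D E
  e11 : G.ε * ((G.blk D E εi μi ali).e11 D - (G.blk D E εi μi ali).e₁ D) =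
    G.μ E * G.al E * G.e₅ D E
  kv : ∀ i, i ≠ 2 → i ≠ 5 → G.ε * (G.blk D E εi μi ali).kv D i = G.μ E * G.k D E i
  kv' : ∀ i, i = 2 ∨ i = 5 → G.ε * G.μ E * (G.blk D E εi μi ali).kv D i = G.k D E i
  lap : ∀ f, G.ε * (G.blk D E εi μi ali).lap D (G.T D E f) (D 1 f) = G.μ E * G.lap D E f
  lapmu : (G.blk D E εi μi ali).lap D (G.mt D E) (G.τ₂ D E * μi) + 1 = G.μ E * G.lapmu D E
  Om : G.ε * G.μ E ^ 2 * (G.blk D E εi μi ali).Om D = G.Om D E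

/-- `π` is the change of variables from the outer region to the layer. -/
structure IsCov {S : Type} [CommRing S] [Algebra ℝ S] (D' : Fin 2 → S → S) (E' : S → S)
    (π : S →ₐ[ℝ] R) (O : Out S) (G : Lay R) : Prop where
  d₀ : ∀ f, D 0 (π f) = D 0 (G.μ E) * π (D' 0 f)
  d₁ : ∀ f, D 1 (π f) = G.τ₂ D E * π (D' 0 f) + π (D' 1 f)
  exp : ∀ f, π (E' f) = E (π f)
  ε : G.ε = π O.ε
  μ : G.μ E = π O.μ
  la : G.la = π O.la
  bp : G.bp = π O.bp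
  lc : G.lc = π O.lc
  uw : G.uw = π O.u₁
  uo : G.uo = π O.u₂

structure CovFacts {S : Type} [CommRing S] [Algebra ℝ S] (D' : Fin 2 → S → S) (E' : S → S)
    (π : S →ₐ[ℝ] R) (O : Out S) (G : Lay R) : Prop where
  e : ∀ k, k ≠ 3 → G.out.e D E k = G.cov D E (fun j => π (O.err D' E' j)) k
  e₄ : G.μ E * G.out.e₄ D E + G.zo D E = G.μ E * G.cov D E (fun j => π (O.err D' E' j)) 3
  Om : G.out.Om D E * G.P0 E = G.ε * π (O.Om D' E')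
  k : ∀ i, G.out.k D E i = G.ε ^ 2 * G.kc D E (fun j => π (O.kv D' E' j)) i
  lapmu : G.out.lapmu D E = G.ε * π (O.lapmu D' E')

/-- The leading order layer: a cigar times a flat factor, with corrections. -/
def lead (y yp et d chi L L₂ leh r r₂ : R) (Z : Fin 5 → R) : Lay R :=
  ⟨0, 0, y, yp, et, d, chi, L, 0, 0, 0, L + r, L₂ + r₂, Z 0, Z 1, Z 2, Z 3, Z 4, r, 0, 0, -(2 * L),
    leh⟩

def Dop (y f : R) : R := (1 - y) * D 0 (D 0 f) + 2 * D 0 f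

/-- The linearization of the errors of the layer. -/
noncomputable def lin (y L r : R) (Z : Fin 5 → R) : Fin 5 → R :=
  ![-(E (-(2 * L)) * (Dop D y (Z 0) + 4 * y * Z 0 + 6 * r * y ^ 2)) +
      y * (Z 3 + E (-(2 * L)) * (D 0 (Z 1) - D 0 (Z 2))),
    -(E (-(2 * L)) * Dop D y (Z 2)), E (-(2 * L)) * Dop D y (Z 1), (1 / 2 : ℝ) • D 0 (Z 4),
    D 0 (Z 3 + E (-(2 * L)) * (D 0 (Z 1) - D 0 (Z 2))) + 4 * E (-(2 * L)) * r * y]

structure LeadHyp (y d chi L L₂ : R) : Prop where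
  y₀ : D 0 y = -(2 * y)
  y₁ : D 1 y = 0
  d₀ : D 0 d = 0
  chi₀ : D 0 chi = 0
  L₀ : D 0 L = 0
  L₂₀ : D 0 L₂ = 0
  eik : d ^ 2 + (1 / 4 : ℝ) • D 1 d ^ 2 = E (2 * L)

structure LeadFacts (G : Lay R) : Prop where
  Ao : E G.lAo = G.Ao D E
  e : ∀ k, G.e D E k = 0
  k : ∀ i, G.k D E i = if i = 1 then 2 * E (-(2 * G.L)) * G.y else 0
  Bc : G.Bc D E = 2 * E (-(2 * G.L))
  cO : G.cO D E = 2 * E (-(2 * G.L))
  aA : G.al E * E G.lA = E (-(2 * G.L)) * (1 - G.y)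
  lapmu : G.lapmu D E = 0
  Om : G.Om D E = 0

/-- The profile of a product of two cones. -/
structure PrdHyp (d chi L L₂ : R) : Prop where
  d₀ : D 0 d = 0
  L₀ : D 0 L = 0
  L₂₀ : D 0 L₂ = 0
  chi : chi * d = 1
  LL : D 1 L * D 1 L₂ = -1
  L₁ : D 1 (D 1 L) = -(1 + D 1 L ^ 2)
  L₂₁ : D 1 (D 1 L₂) = -(1 + D 1 L₂ ^ 2)
  d₁ : D 1 d = 2 * D 1 L * d
  eik : E (2 * L) = d ^ 2 * (1 + D 1 L ^ 2)

structure PrdFacts (G : Lay R) : Prop where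
  Ao : G.Ao D E = E (2 * G.lq - 2 * G.L)
  cst : ∀ i, D i (G.chi * E (2 * G.L)) = 0
  e : ∀ k, G.e D E k = 0
  oe : ∀ k, G.out.e D E k = 0
  Xi : G.Xi D E = 0

end Defs

def OutHGStmt : Prop := ∀ (R : Type) [CommRing R] [Algebra ℝ R] [IsReduced R]
  (D : Fin 2 → R → R) (E : R → R) (O : Out R) (εi μi : R), IsDer D → IsExp D E → O.Ok D →
  O.ε * εi = 1 → O.μ * μi = 1 → OutHG D E O εi μi

def LayBasicStmt : Prop := ∀ (R : Type) [CommRing R] [Algebra ℝ R] [IsReduced R]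
  (D : Fin 2 → R → R) (E : R → R) (G : Lay R), IsDer D → IsExp D E →
  E (Real.log 16 • 1) = 16 → G.Ok D E → LayBasic D E G

def LayHGStmt : Prop := ∀ (R : Type) [CommRing R] [Algebra ℝ R] [IsReduced R]
  (D : Fin 2 → R → R) (E : R → R) (G : Lay R) (εi μi ali : R), IsDer D → IsExp D E →
  E (Real.log 16 • 1) = 16 → G.Ok D E → G.Unit D E εi μi ali → LayHG D E G εi μi ali

def LayBiStmt : Prop := ∀ (R : Type) [CommRing R] [Algebra ℝ R] [IsReduced R]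
  (D : Fin 2 → R → R) (E : R → R) (G : Lay R) (εi μi ali : R) (ee : Fin 5 → R), IsDer D →
  IsExp D E → E (Real.log 16 • 1) = 16 → G.Ok D E → G.Unit D E εi μi ali →
  (∀ k, k ≠ 3 → ee k = G.e D E k) → G.μ E * ee 3 = G.μ E * G.e₄ D E + G.zo D E →
  G.biL D E (G.Om D E) = G.biR D E ee

def CovStmt : Prop := ∀ (R S : Type) [CommRing R] [Algebra ℝ R] [IsReduced R] [CommRing S]
  [Algebra ℝ S] [IsReduced S] (D : Fin 2 → R → R) (E : R → R) (D' : Fin 2 → S → S) (E' : S → S)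
  (π : S →ₐ[ℝ] R) (O : Out S) (G : Lay R) (εi μi : S), IsDer D → IsExp D E → IsDer D' →
  IsExp D' E' → E (Real.log 16 • 1) = 16 → O.Ok D' → G.Ok D E → O.ε * εi = 1 → O.μ * μi = 1 →
  IsCov D E D' E' π O G → CovFacts D E D' E' π O G

def LeadStmt : Prop := ∀ (R : Type) [CommRing R] [Algebra ℝ R] [IsReduced R]
  (D : Fin 2 → R → R) (E : R → R) (y yp et d chi L L₂ leh : R), IsDer D → IsExp D E →
  LeadHyp D E y d chi L L₂ → LeadFacts D E (lead y yp et d chi L L₂ leh 0 0 0) ∧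
    LeadFacts D E (lead y yp et d chi L L₂ leh 0 0 0).out ∧
    ∀ r r₂ Z, D 0 r = 0 → D 0 r₂ = 0 → ∀ k, (lead y yp et d chi L L₂ leh r r₂ Z).out.e D E k = 0

def LinStmt : Prop := ∀ (R W : Type) [CommRing R] [Algebra ℝ R] [CommMonoid W]
  (D : Fin 2 → R → R) (E Lg : R → R) (P : W → R → Prop) (Pos : R → Prop) (Sml : W → Prop)
  (y yp et d chi L L₂ leh r r₂ : R) (Z : Fin 5 → R) (v w : W), WR D E Lg P Pos Sml →
  LeadHyp D E y d chi L L₂ → Sml v → Sml w → P v y → P 1 d → P 1 L → P 1 L₂ → D 0 r = 0 →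
  D 0 r₂ = 0 → P w r → P w r₂ → (∀ j, P (w * v) (Z j)) →
  ∀ k, P (w * w * v) ((lead y yp et d chi L L₂ leh r r₂ Z).e D E k - lin D E y L r Z k)

def PrdStmt : Prop := ∀ (R : Type) [CommRing R] [Algebra ℝ R] [IsReduced R]
  (D : Fin 2 → R → R) (E : R → R) (d chi L L₂ g g₂ : R), IsDer D → IsExp D E →
  E (Real.log 16 • 1) = 16 → PrdHyp D E d chi L L₂ → (∀ i, D i g = 0) → (∀ i, D i g₂ = 0) →
  (∀ ε μ : R, Out.Ok D ⟨ε, μ, 0, 0, 0, L - g, L₂ - g₂⟩ →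
    ∀ k, Out.err D E ⟨ε, μ, 0, 0, 0, L - g, L₂ - g₂⟩ k = 0) ∧
  ∀ ε s0 y yp et lq lAo leh : R,
    Lay.Ok D E ⟨ε, s0, y, yp, et, d, chi, L, 0, 0, 0, L - g, L₂ - g₂, 0, 0, 0, 0, 0, 0, 0, lq, lAo,
      leh⟩ → D 0 y = -(2 * y) → PrdFacts D E
      ⟨ε, s0, y, yp, et, d, chi, L, 0, 0, 0, L - g, L₂ - g₂, 0, 0, 0, 0, 0, 0, 0, lq, lAo, leh⟩

end Pool.Agent.Lib.MP_df9110_gt
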