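import Mathlib

/-! The profile of the collapsed cone: `ρᵢ = e^{Lᵢ}` are the rescaled lengths of the two circles
of the link, the walls are `μ = dᵢ/4`, and the two possible corners are `xJ false < xJ true`. -/

namespace Pool.Agent.Lib.MP_df9110_gt

open Set
open scoped ContDiff

/-- `(R_h - 6) / 2` for the link metric `dx² + e^{2A} dθ₁² + e^{2B} dθ₂²`. -/
noncomputable def etaF (A B : ℝ → ℝ) (x : ℝ) : ℝ :=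
  -(deriv (deriv A) x + deriv (deriv B) x + deriv A x ^ 2 + deriv B x ^ 2 +
    deriv A x * deriv B x + 3)

structure Prof where
  (xL xR δ κ M₀ : ℝ)
  (xJ pl ql qr pr : Bool → ℝ)
  (d χ L : Fin 2 → ℝ → ℝ)
  (dp Lp : Bool → Fin 2 → ℝ → ℝ)

namespace Prof

variable (P : Prof)

def lo : Fin 2 → ℝ := ![P.xL - P.δ, P.xJ false - P.δ]
def hi : Fin 2 → ℝ := ![P.xJ true + P.δ, P.xR + P.δ]
/-- the point where the wall reaches infinity -/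
def xc : Fin 2 → ℝ := ![P.xL, P.xR]
def sg : Fin 2 → ℝ := ![1, -1]
noncomputable def eta : ℝ → ℝ := etaF (P.L 0) (P.L 1)

structure Ok : Prop where
  δ_pos : 0 < P.δ
  κ_pos : 0 < P.κ
  M_ge : 1 ≤ P.M₀
  ord : P.xL + P.δ ≤ P.pl false ∧ P.pr false ≤ P.pl true ∧ P.pr true ≤ P.xR - P.δ
  ordJ : ∀ J, P.pl J < P.ql J ∧ P.ql J ≤ P.xJ J - P.δ ∧ P.xJ J + P.δ ≤ P.qr J ∧ P.qr J < P.pr J
  sm_d : ∀ i, ∀ x ∈ Icc (P.lo i) (P.hi i), ContDiffAt ℝ ∞ (P.d i) x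
  sm_χ : ∀ i, ∀ x ∈ Icc (P.xL - P.δ) (P.xR + P.δ), ContDiffAt ℝ ∞ (P.χ i) x
  sm_L : ∀ i, ∀ x ∈ Icc (P.xL - P.δ) (P.xR + P.δ), ContDiffAt ℝ ∞ (P.L i) x
  sm_p : ∀ J i, ∀ x ∈ Icc (P.pl J) (P.pr J),
    ContDiffAt ℝ ∞ (P.dp J i) x ∧ ContDiffAt ℝ ∞ (P.Lp J i) x
  eik : ∀ i, ∀ x ∈ Icc (P.lo i) (P.hi i),
    P.d i x ^ 2 + deriv (P.d i) x ^ 2 / 4 = Real.exp (2 * P.L i x)
  d_bd : ∀ i, ∀ x ∈ Icc (P.lo i) (P.hi i), |P.d i x| ≤ P.M₀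
  cap : ∀ i, P.d i (P.xc i) = 0 ∧ ∀ x, |x - P.xc i| ≤ P.δ →
    0 < sg i * deriv (P.d i) x ∧ P.χ i x = 0
  lin : ∀ i, ∃ a : ℝ, 0 < a ∧ ∀ x, |x - P.xc i| ≤ P.δ → P.d i x = a * (sg i * (x - P.xc i))
  d_pos : ∀ i, ∀ x ∈ Icc (P.lo i) (P.hi i), 0 < sg i * (x - P.xc i) → 0 < P.d i x
  χ_nonneg : ∀ i x, 0 ≤ P.χ i x
  prod : ∀ J, ∀ x ∈ Icc (P.pl J) (P.pr J), deriv (P.Lp J 0) x * deriv (P.Lp J 1) x = -1 ∧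
    0 < deriv (P.Lp J 0) x ∧ ∀ i, 0 < P.dp J i x ∧ P.χ i x * P.dp J i x = 1 ∧
      deriv (deriv (P.Lp J i)) x = -(1 + deriv (P.Lp J i) x ^ 2) ∧
      deriv (P.dp J i) x = 2 * deriv (P.Lp J i) x * P.dp J i x ∧
      Real.exp (2 * P.Lp J i x) = P.dp J i x ^ 2 * (1 + deriv (P.Lp J i) x ^ 2)
  eta_nonneg : ∀ x ∈ Icc (P.xL - P.δ) (P.xR + P.δ), 0 ≤ P.eta x
  eta_pos : ∃ c : ℝ, 0 < c ∧ ∀ x ∈ Icc (P.xL - P.δ) (P.xR + P.δ),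
    (∀ J, x ∉ Icc (P.ql J) (P.qr J)) → c ≤ P.eta x
  strip : ∀ J x, |x - P.xJ J| ≤ P.δ → P.eta x = 0
  dev : ∀ θ : ℝ, 0 < θ → θ < 1 → ∀ k, ∃ C : ℝ, ∀ J i, ∀ x ∈ Ioo (P.pl J) (P.pr J),
    |iteratedDeriv k (P.L i - P.Lp J i) x| ≤ C * P.eta x ^ θ ∧
    (x ∈ Ioo (P.lo i) (P.hi i) → |iteratedDeriv k (P.d i - P.dp J i) x| ≤ C * P.eta x ^ θ)
  junction : ∀ J, P.d 0 (P.xJ J) = P.d 1 (P.xJ J)
  m₀ : ∀ x ∈ Icc P.xL (P.hi 0), P.d 0 x * Real.exp (-(2 * P.L 0 x)) ≤ P.κ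
  m₁ : ∀ x ∈ Icc (P.xJ true - P.δ) P.xR, P.d 1 x * Real.exp (-(2 * P.L 1 x)) ≤ P.κ
  m₂ : 3 * P.κ ≤ P.d 1 (P.xJ false) * Real.exp (-(2 * P.L 1 (P.xJ false)))

end Prof

def ProfStmt : Prop := ∃ P : Prof, P.Ok

end Pool.Agent.Lib.MP_df9110_gt
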