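import Pool.Agent.Lib.MP_df9110_gt.Gen
import Pool.Agent.Lib.MP_df9110_gt.NProf

/-! The rings of germs in which the formal solution is constructed, and the linear solvers. -/

namespace Pool.Agent.Lib.MP_df9110_gt

open Filter Topology Set
open scoped ContDiff

abbrev Z2 : Type := ℝ × En 2

section Ops

variable {l : Filter Z2}

/-- The value of (a representative of) a germ. -/
noncomputable def val (φ : SG l) (z : Z2) : ℝ := (rep φ).1 z.1 z.2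

noncomputable def pb (l' : Filter Z2) (Φ : ℝ → En 2 → En 2) (φ : SG l) : SG l' :=
  gm l' fun ε p => val φ (ε, Φ ε p)

theorem pb_eq {l' : Filter Z2} {Φ : ℝ → En 2 → En 2} (h : IsPull l l' Φ) (φ : SG l) :
    pb l' Φ φ = h.hom φ := by
  have h1 : pb l' Φ φ = mkG l' (h.homF (rep φ)) := gm_eq (h.mem (rep φ))
  rw [h1, ← h.hom_mk, mkG_rep]

noncomputable def ev0 (φ : SG l) : SG l := pb l (fun _ p => ![0, p 1]) φ

noncomputable def avg (φ : SG l) : SG l :=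
  gm l fun ε p => ∫ t in (0 : ℝ)..1, val φ (ε, ![t * p 0, p 1])

noncomputable def εG (l : Filter Z2) : SG l := gm l fun ε _ => ε
noncomputable def cG (l : Filter Z2) : SG l := gm l fun _ p => p 0
noncomputable def xG (l : Filter Z2) (f : ℝ → ℝ) : SG l := gm l fun _ p => f (p 1)
noncomputable def lgG (chi L : SG l) : SG l := logG (1 + εG l * chi * expG (2 * L))

/-- `(1 - e^{-2σ}) / σ`. -/
noncomputable def Efun (σ : ℝ) : ℝ := ∫ t in (0 : ℝ)..1, 2 * Real.exp (-(2 * (t * σ)))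
noncomputable def yR (m : ℝ → ℝ) (ε : ℝ) (p : En 2) : ℝ := m (ε * p 0) * Real.exp (-(2 * p 0))
noncomputable def etR (m : ℝ → ℝ) (ε : ℝ) (p : En 2) : ℝ :=
  (2 + p 0) * (Efun (p 0) + (1 - m (ε * p 0)) * Real.exp (-(2 * p 0)) / p 0)
noncomputable def yG (l : Filter Z2) (m : ℝ → ℝ) : SG l := gm l (yR m)
noncomputable def etG (l : Filter Z2) (m : ℝ → ℝ) : SG l := gm l (etR m)
noncomputable def mG (l : Filter Z2) (m : ℝ → ℝ) : SG l := gm l fun ε p => m (ε * p 0)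

noncomputable def bld0 (m : ℝ → ℝ) (d chi L la bp lc uw uo : SG l) (Z : Fin 5 → SG l) :
    Lay (SG l) :=
  ⟨εG l, εG l * cG l, yG l m, (2 + cG l) * yG l m, etG l m, d, chi, L, la, bp, lc, uw, uo,
    Z 0, Z 1, Z 2, Z 3, Z 4, 0, 0, 0, 0, 0⟩
noncomputable def bld1 (G : Lay (SG l)) : Lay (SG l) := { G with lq := logG (G.q expG) }
noncomputable def bld2 (G : Lay (SG l)) : Lay (SG l) :=
  { G with lAo := logG (G.Ao gD expG), leh := logG (G.eh expG) }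
noncomputable def bld3 (G : Lay (SG l)) : Lay (SG l) :=
  { G with rho := ev0 (G.rho0 (lgG G.chi G.L)) }
noncomputable def bld4 (G : Lay (SG l)) : Lay (SG l) :=
  { G with xi1 := G.ε * avg (gD 0 (G.Xi gD expG)) }
/-- The layer with the given profile, outer fields and corrections. -/
noncomputable def bld (m : ℝ → ℝ) (d chi L la bp lc uw uo : SG l) (Z : Fin 5 → SG l) :
    Lay (SG l) := bld4 (bld3 (bld2 (bld1 (bld0 m d chi L la bp lc uw uo Z))))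

end Ops

def eW (z : Z2) : ℝ := z.1
noncomputable def hW (z : Z2) : ℝ := min 1 (z.1 * (2 + z.2 0))
noncomputable def dW (κ : ℝ) (z : Z2) : ℝ := Real.exp (-(κ * z.2 0))
def xW (w : ℝ → ℝ → ℝ) (z : Z2) : ℝ := w z.1 (z.2 1)

/-- Layer domains `-1 < σ < c / ε`. -/
def lS (c a b : ℝ) : Filter Z2 :=
  fam (𝓝[>] 0) fun ε => {p | -1 < p 0 ∧ ε * p 0 < c ∧ p 1 ∈ Ioo a b}

/-- Boxes. -/
def lB (M a b : ℝ) : Filter Z2 := fam (𝓝[>] 0) fun _ => {p | |p 0| < M ∧ p 1 ∈ Ioo a b}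

instance (c a b : ℝ) : OpF (lS c a b) := opF_fam (Eventually.of_forall fun _ =>
  (isOpen_lt continuous_const (continuous_apply 0)).inter
    ((isOpen_lt (continuous_const.mul (continuous_apply 0)) continuous_const).inter
      (isOpen_Ioo.preimage (continuous_apply 1))))

instance (M a b : ℝ) : OpF (lB M a b) := opF_fam (Eventually.of_forall fun _ =>
  (isOpen_lt (continuous_apply 0).abs continuous_const).inter
    (isOpen_Ioo.preimage (continuous_apply 1)))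

def IsCut (m : ℝ → ℝ) : Prop :=
  ContDiff ℝ ∞ m ∧ (∀ s, 0 ≤ m s ∧ m s ≤ 1) ∧ ∃ c₁ : ℝ, 0 < c₁ ∧ ∀ s ≤ c₁, m s = 1

/-- Facts valid on layer domains and on boxes. -/
structure AvgFacts (l : Filter Z2) (a b : ℝ) : Prop where
  pull0 : IsPull l l fun _ p => ![0, p 1]
  ev_D0 : ∀ φ : SG l, gD 0 (ev0 φ) = 0
  ev_D1 : ∀ φ : SG l, gD 1 (ev0 φ) = ev0 (gD 1 φ)
  ev_exp : ∀ φ : SG l, ev0 (expG φ) = expG (ev0 φ)
  ev_fix : ∀ φ : SG l, gD 0 φ = 0 → ev0 φ = φ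
  ev_c : ev0 (cG l) = 0
  ev_bd : ∀ {w} {φ : SG l}, PG 1 w φ → PG 1 (fun z => w (z.1, ![0, z.2 1])) (ev0 φ)
  avg_add : ∀ φ ψ : SG l, avg (φ + ψ) = avg φ + avg ψ
  avg_mul : ∀ φ ψ : SG l, gD 0 φ = 0 → avg (φ * ψ) = φ * avg ψ
  avg_der : ∀ φ : SG l, gD 0 (cG l * avg φ) = φ
  ftc : ∀ φ : SG l, cG l * avg (gD 0 φ) = φ - ev0 φ
  avg_bd : ∀ {w} {φ : SG l}, PG 1 (xW w) φ → PG 1 (xW w) (avg φ)
  eps : (fun (ε : ℝ) (_ : En 2) => ε) ∈ SmF l ∧ PG 1 eW (εG l) ∧ (∀ j, gD j (εG l) = 0) ∧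
    WLe l eW 1 ∧ Tendsto eW l (𝓝 0) ∧ (∀ᶠ z in l, 0 < z.1) ∧ ∃ εi : SG l, εG l * εi = 1
  crd : (fun (_ : ℝ) (p : En 2) => p 0) ∈ SmF l ∧ gD 0 (cG l) = 1 ∧ gD 1 (cG l) = 0
  e16 : expG (Real.log 16 • 1 : SG l) = 16
  xfun : ∀ f : ℝ → ℝ, (∀ x ∈ Ioo a b, ContDiffAt ℝ ∞ f x) →
    (fun (_ : ℝ) (p : En 2) => f (p 1)) ∈ SmF l ∧ gD 0 (xG l f) = 0 ∧
    gD 1 (xG l f) = xG l (deriv f) ∧ ∀ w : ℝ → ℝ,
      (∀ k, ∃ C : ℝ, ∀ x ∈ Ioo a b, |iteratedDeriv k f x| ≤ C * |w x|) →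
      PG 1 (xW fun _ => w) (xG l f)
  xbd : ∀ f : ℝ → ℝ, (∀ x ∈ Icc a b, ContDiffAt ℝ ∞ f x) → PG 1 1 (xG l f)

def AvgStmt : Prop := (∀ c a b, 0 < c → AvgFacts (lS c a b) a b) ∧
  ∀ M a b, AvgFacts (lB M a b) a b ∧ PG 1 1 (cG (lB M a b))

structure WtFacts (l : Filter Z2) : Prop where
  h_one : WLe l hW 1
  e_h : WLe l eW hW
  h_zero : WLe l (fun z => hW (z.1, ![0, z.2 1])) eW
  d_le : ∀ κ κ', κ' ≤ κ → WLe l (dW κ) (dW κ')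
  hd : ∀ κ κ', κ' < κ → WLe l (hW * dW κ) (eW * dW κ')
  s0 : PG 1 hW (εG l * cG l)
  cd : ∀ κ κ', κ' < κ → ∀ {w} {φ : SG l}, PG 1 (w * dW κ) φ → PG 1 (w * dW κ') (cG l * φ)
  sm : ∀ m, IsCut m → yR m ∈ SmF l ∧ etR m ∈ SmF l ∧ (fun ε (p : En 2) => m (ε * p 0)) ∈ SmF l
  y : ∀ m, IsCut m → PG 1 (dW 2) (yG l m) ∧ gD 1 (yG l m) = 0 ∧ yG l m = mG l m * yG l 1
  y1 : gD 0 (yG l 1) = -(2 * yG l 1) ∧ ev0 (yG l 1) = 1
  et : ∀ m, IsCut m → PG 1 1 (etG l m) ∧ PosG (etG l m) ∧ gD 1 (etG l m) = 0 ∧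
    cG l * etG l m = (2 + cG l) * (1 - yG l m) ∧ ev0 (etG l m) = 4
  m : ∀ m, IsCut m → PG 1 1 (mG l m) ∧ gD 1 (mG l m) = 0 ∧ ev0 (mG l m) = 1
  cut : ∀ m, IsCut m → ∀ (N : ℕ) κ κ', κ' < κ → (∀ {w} {φ : SG l}, PG 1 (w * dW κ) φ →
    PG 1 (eW ^ N * w * dW κ') ((1 - mG l m) * φ)) ∧ PG 1 (eW ^ N) (etG l m - etG l 1)

def WtStmt : Prop := ∀ c a b, 0 < c → WtFacts (lS c a b)

/-- The ordinary differential equations of the layer. -/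
structure SolFacts (l : Filter Z2) : Prop where
  int : ∀ κ w (S : SG l), 0 < κ → PG 1 (xW w * dW κ) S →
    ∃ f, PG 1 (xW w * dW κ) f ∧ gD 0 f = S
  reg : ∀ S : SG l, ∃ g, (1 - yG l 1) * gD 0 g + 2 * g = S
  reg_bd : ∀ κ w₁ w₂ (g : SG l), κ < 2 → (∀ ε x, 0 ≤ w₁ ε x) → (∀ ε x, 0 ≤ w₂ ε x) →
    PG 1 (xW w₁ * dW κ + xW w₂) ((1 - yG l 1) * gD 0 g + 2 * g) → PG 1 (xW w₁ * dW κ + xW w₂) g
  far : ∀ κ (j M : ℕ) (f : SG l), 0 < κ → PG 1 (eW ^ j * dW κ + eW ^ (M + 1)) (gD 0 f) →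
    PG 1 (dW κ + eW ^ M) f → PG 1 (eW ^ j * dW κ + eW ^ M) f

def SolStmt : Prop := ∀ c a b, 0 < c → SolFacts (lS c a b)

def LamStmt : Prop := ∀ c a b κ w (S : SG (lS c a b)), 0 < c → 0 < κ → κ < 2 →
  PG 1 (xW w * dW κ) S → ∃ f r : SG (lS c a b), gD 0 r = 0 ∧ PG 1 (xW w) r ∧ PG 1 (xW w * dW κ) f ∧
    Dop gD (yG _ 1) f + 4 * yG _ 1 * f + 4 * r * yG _ 1 ^ 2 = S

namespace Prof

variable (P : Prof)

def lO : Filter Z2 := lB P.M₀ (P.xL - P.δ) (P.xR + P.δ)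
def lL (c : ℝ) (i : Fin 2) : Filter Z2 := lS c (P.lo i) (P.hi i)
instance : OpF P.lO := inferInstanceAs (OpF (lB _ _ _))
instance (c : ℝ) (i : Fin 2) : OpF (P.lL c i) := inferInstanceAs (OpF (lS _ _ _))

/-- `μ` as a function of `s = ε σ` and `x`. -/
noncomputable def Mu (i : Fin 2) (s x : ℝ) : ℝ :=
  (P.d i x - s * (2 * Real.exp (2 * P.L i x)) /
    (1 + P.χ i x * (s * (2 * Real.exp (2 * P.L i x))))) / 4
noncomputable def Φ (i : Fin 2) (ε : ℝ) (p : En 2) : En 2 := ![P.Mu i (ε * p 0) (p 1), p 1]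
noncomputable def wW (θ : ℝ) : Z2 → ℝ := xW fun _ x => P.eta x ^ θ

structure Geo (c : ℝ) : Prop where
  pos : 0 < c
  pull : ∀ i, IsPull P.lO (P.lL c i) (P.Φ i)
  dΦ : ∀ i a j, PG 1 1 (gD j (gm (P.lL c i) fun ε p => P.Φ i ε p a))
  posA : ∃ a : ℝ, 0 < a ∧ ∀ i s, ∀ x ∈ Icc (P.lo i) (P.hi i), |s| ≤ c →
    a ≤ 4 * P.Mu i s x ^ 2 + deriv (P.Mu i s) x ^ 2 ∧
    |P.χ i x * (s * (2 * Real.exp (2 * P.L i x)))| ≤ 1 / 2
  cap : ∀ i s, ∀ x ∈ Icc (P.lo i) (P.hi i), |s| ≤ c → P.Mu i s x ≤ 0 →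
    sg i * (x - P.xc i) ≤ P.δ / 2
  w_one : ∀ θ, 0 ≤ θ → WLe P.lO (P.wW θ) 1 ∧ ∀ i, WLe (P.lL c i) (P.wW θ) 1
  /-- extension by zero of functions of `x` -/
  ext : ∀ i θ (m : ℕ) (r : SG (P.lL c i)), 0 < θ → gD 0 r = 0 → PG 1 (eW ^ m * P.wW θ) r →
    ∃ r' : SG P.lO, gD 0 r' = 0 ∧ PG 1 (eW ^ m * P.wW θ) r' ∧ pb (P.lL c i) (P.Φ i) r' = r

end Prof

def GeoStmt : Prop := ∀ P : Prof, P.Ok → ∃ c₀ : ℝ, 0 < c₀ ∧ ∀ c, 0 < c → c ≤ c₀ → P.Geo c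

end Pool.Agent.Lib.MP_df9110_gt
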