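import Pool.Agent.Lib.MP_df9110_gt.NGeo

/-! The iteration that constructs the formal solution. -/

namespace Pool.Agent.Lib.MP_df9110_gt

open Filter Topology Set
open scoped ContDiff

structure St (P : Prof) (c : ℝ) where
  (la bp lc : SG P.lO)
  u : Fin 2 → SG P.lO
  Z : ∀ i : Fin 2, Fin 5 → SG (P.lL c i)

noncomputable def Prof.π (P : Prof) (c : ℝ) (i : Fin 2) : SG P.lO → SG (P.lL c i) :=
  pb (P.lL c i) (P.Φ i)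

noncomputable def Prof.Li (P : Prof) (i : Fin 2) : SG P.lO :=
  xG _ (P.L i) - lgG (xG _ (P.χ i)) (xG _ (P.L i))

/-- `A₀ = e^{-2L}`. -/
noncomputable def Prof.A0 (P : Prof) (i : Fin 2) (z : Z2) : ℝ := Real.exp (-(2 * P.L i (z.2 1)))

namespace St

variable {P : Prof} {c : ℝ} (s : St P c)

noncomputable def O (i : Fin 2) : Out (SG P.lO) :=
  ⟨εG _, cG _, s.la, s.bp, s.lc, s.u i, s.u (i + 1)⟩

noncomputable def G (m : ℝ → ℝ) (i : Fin 2) : Lay (SG (P.lL c i)) :=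
  bld m (xG _ (P.d i)) (xG _ (P.χ i)) (xG _ (P.L i)) (P.π c i s.la) (P.π c i s.bp) (P.π c i s.lc)
    (P.π c i (s.u i)) (P.π c i (s.u (i + 1))) fun j => mG _ m * s.Z i j

noncomputable def er (i : Fin 2) (k : Fin 5) : SG (P.lL c i) := P.π c i ((s.O i).err gD expG k)

structure Bd (θ κ : ℝ) : Prop where
  la : PG 1 (eW * P.wW θ) s.la
  bp : PG 1 (eW * P.wW θ) s.bp
  lc : PG 1 (eW * P.wW θ) s.lc
  u : ∀ i, PG 1 (eW * P.wW θ) (s.u i - P.Li i)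
  ev_la : ev0 s.la = 0
  ev_lc : ev0 s.lc = 0
  Z : ∀ i j, PG 1 (eW * P.wW θ * dW κ) (s.Z i j)

structure Inv (n m : ℕ) (θ κ : ℝ) : Prop extends s.Bd θ κ where
  err : ∀ i k, PG 1 (eW ^ n * P.wW θ) ((s.O i).err gD expG k)
  elay : ∀ i k, PG 1 (eW ^ m * P.wW θ * dW κ) ((s.G 1 i).elay gD expG k)

structure GF (g : P.Geo c) (m : ℝ → ℝ) (i : Fin 2) : Prop where
  O_ok : (s.O i).Ok gD
  O_all : (s.O i).All (PG 1 1)
  ok : (s.G m i).Ok gD expG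
  all : (s.G m i).All (PG 1 1)
  pos_q : PosG ((s.G m i).q expG)
  pos_A : PosG ((s.G m i).Ao gD expG)
  pos_eh : PosG ((s.G m i).eh expG)
  pos_lg : PosG (1 + εG _ * (s.G m i).chi * expG (2 * (s.G m i).L))
  mu : (s.G m i).μ expG = gm _ fun ε p => P.Mu i (ε * p 0) (p 1)
  cov : IsCov gD expG gD expG (g.pull i).hom (s.O i) (s.G m i)
  al : cG _ * (s.G m i).eh expG = (2 + cG _) * (s.G m i).q expG * (s.G m i).al expG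
  xi : cG _ * (s.G m i).xi1 = εG _ * (s.G m i).Xi gD expG
  xi1 : PG 1 eW (s.G m i).xi1
  lal : (s.G m i).lal gD expG * (s.G m i).al expG = gD 1 ((s.G m i).al expG)
  Xe : (s.G m i).Xe gD expG * (s.G m i).al expG = (s.G m i).ε * (s.G m i).Xi gD expG
  rho₀ : gD 0 (s.G m i).rho = 0
  wall : ev0 (expG (2 * ((s.G m i).leh - (s.G m i).lq) + (s.G m i).lA + 2 * (s.G m i).u₁)) = 16

structure GF2 (g : P.Geo c) (m : ℝ → ℝ) (i : Fin 2) : Prop where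
  cov : CovFacts gD expG gD expG (g.pull i).hom (s.O i) (s.G m i)
  bi : (s.G m i).biL gD expG ((s.G m i).Om gD expG) =
    (s.G m i).biR gD expG ((s.G m i).tot gD expG (s.er i))
  biO : εG _ * (s.O i).biL gD expG ((s.O i).Om gD expG) - gD 0 ((s.O i).Om gD expG) =
    (s.O i).biR gD expG ((s.O i).err gD expG)

structure Est (N : ℕ) (Cb : ℝ) (m : ℝ → ℝ) (i : Fin 2) : Prop where
  tot : ∀ k, PG 1 (eW ^ N) ((s.G m i).tot gD expG (s.er i) k)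
  lapmu : PG 1 eW ((s.G m i).lapmu gD expG)
  bd : ∀ᶠ z in P.lL c i,
    |val ((s.G m i).al expG * expG (s.G m i).lA) z - P.A0 i z * (1 - dW 2 z)| ≤ Cb * hW z ∧
    |val ((s.G m i).Bc gD expG) z - 2 * P.A0 i z| ≤ Cb * hW z ∧
    (∀ j, |val ((s.G m i).k gD expG j) z - if j = 1 then 2 * P.A0 i z * dW 2 z else 0| ≤
      Cb * (z.1 * dW (3 / 2) z + z.1 ^ 2)) ∧
    val (expG (s.G m i).lA) z ≤ Cb ∧ val (expG (s.G m i).lC) z ≤ Cb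
  /-- the part of the curvature created by the layer -/
  klay : ∀ᶠ z in P.lL c i, ∀ j,
    |val ((s.G m i).k gD expG j - (s.G m i).out.k gD expG j) z -
      if j = 1 then 2 * P.A0 i z * dW 2 z else 0| ≤ Cb * (z.1 * dW (3 / 2) z + z.1 ^ 3)

/-- The properties of the formal solution that are used later. -/
structure Fin' (g : P.Geo c) (N : ℕ) (Cb : ℝ) : Prop where
  ev_la : ev0 s.la = 0
  ev_lc : ev0 s.lc = 0
  err : ∀ i k, PG 1 (eW ^ N) ((s.O i).err gD expG k)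
  Z : ∀ i j, PG 1 (eW * dW (3 / 2)) (s.Z i j)
  stripO : ∀ᶠ z in P.lO, ∀ J, |z.2 1 - P.xJ J| ≤ P.δ → val s.la z = 0 ∧ val s.bp z = 0 ∧
    val s.lc z = 0 ∧ ∀ i, val (s.u i) z = P.L i (z.2 1) -
      Real.log (1 + z.1 * P.χ i (z.2 1) * Real.exp (2 * P.L i (z.2 1)))
  stripL : ∀ m, IsCut m → ∀ i, ∀ᶠ z in P.lL c i, ∀ J, |z.2 1 - P.xJ J| ≤ P.δ →
    (∀ j, val (s.Z i j) z = 0) ∧ val (s.G m i).rho z = 0
  link : ∃ C : ℝ, ∀ i, ∀ᶠ z in P.lO, z.2 0 = 0 → P.eta (z.2 1) / 2 - C * z.1 ^ N ≤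
    val ((s.O i).kv gD expG 3 + (s.O i).kv gD expG 6 + (s.O i).kv gD expG 7) z
  gam : ∃ C : ℝ, ∀ i, ∀ᶠ z in P.lL c i, P.Mu i (z.1 * z.2 0) (z.2 1) = 0 → 0 ≤ z.2 0 →
    |val (s.Z i 1) z| ≤ C * z.1 ^ N
  lay : ∀ m, IsCut m → ∀ i, s.GF g m i ∧ s.GF2 g m i ∧ s.Est N Cb m i

end St

def LgStmt : Prop := ∀ P : Prof, P.Ok → ∀ θ i, 0 < θ → θ < 1 →
  PG 1 (eW * P.wW θ) (gD 1 (P.Li i - xG _ (P.L i))) ∧ PG 1 eW (P.Li i - xG _ (P.L i)) ∧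
  ∀ᶠ z in P.lO, val (P.Li i) z = P.L i (z.2 1) -
    Real.log (1 + z.1 * P.χ i (z.2 1) * Real.exp (2 * P.L i (z.2 1)))

def Cid1Stmt : Prop := ∀ (P : Prof) (c : ℝ) (g : P.Geo c) (s : St P c) θ κ m i, P.Ok → 0 < θ →
  θ < 1 → 0 < κ → s.Bd θ κ → IsCut m → s.GF g m i ∧ PG 1 (eW * P.wW θ) (s.G m i).rho

def Cid2Stmt : Prop := ∀ (P : Prof) (c : ℝ) (g : P.Geo c) (s : St P c) m i, P.Ok → IsCut m →
  s.GF g m i → s.GF2 g m i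

def InitStmt : Prop := ∀ (P : Prof) (c : ℝ) θ κ, P.Ok → P.Geo c → 0 < θ → θ < 1 → 0 < κ →
  κ < 2 → St.Inv (⟨0, 0, 0, P.Li, fun _ _ => 0⟩ : St P c) 1 1 θ κ

def StepOStmt : Prop := ∀ (P : Prof) (c : ℝ) (s : St P c) θ κ n m, P.Ok → P.Geo c → 0 < θ →
  θ < 1 → 0 < κ → κ < 2 → 1 ≤ n → m ≤ n → s.Inv n m θ κ → ∃ s' : St P c, s'.Inv (n + 1) m θ κ

def StepLStmt : Prop := ∀ (P : Prof) (c : ℝ) (s : St P c) θ κ κ' n m, P.Ok → P.Geo c → 0 < θ →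
  θ < 1 → 0 < κ' → κ' < κ → κ < 2 → 1 ≤ m → n ≤ m + 1 → s.Inv n m θ κ →
  ∃ s' : St P c, s'.Inv n (m + 1) θ κ'

def OmStmt : Prop := ∀ (P : Prof) (c : ℝ) (s : St P c) θ κ N i, P.Ok → P.Geo c → 0 < θ →
  θ < 1 → 0 < κ → κ < 2 → s.Inv (N + 1) (N + 1) θ κ →
  PG 1 (eW ^ N) ((s.G 1 i).Om gD expG) ∧ PG 1 (eW ^ N) ((s.G 1 i).out.Om gD expG)

def GamStmt : Prop := ∀ (P : Prof) (c : ℝ) (s : St P c) θ κ N i, P.Ok → P.Geo c → 0 < θ →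
  θ < 1 → 0 < κ → s.Bd θ κ → PG 1 (eW ^ (N + 1)) ((s.G 1 i).Om gD expG) →
  PG 1 (eW ^ (N + 1)) ((s.G 1 i).out.Om gD expG) →
  ∃ C : ℝ, ∀ᶠ z in P.lL c i, P.Mu i (z.1 * z.2 0) (z.2 1) = 0 → 0 ≤ z.2 0 →
    |val (s.Z i 1) z| ≤ C * z.1 ^ N

def EstStmt : Prop := ∀ (P : Prof) (c : ℝ) (s : St P c) θ N, P.Ok → P.Geo c → 0 < θ → θ < 1 →
  s.Inv N N θ (7 / 4) → ∃ Cb : ℝ, ∀ m, IsCut m → ∀ i, s.Est N Cb m i

def FormStmt : Prop := ∀ (P : Prof) (c : ℝ) (g : P.Geo c) (N : ℕ), P.Ok →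
  ∃ (s : St P c) (Cb : ℝ), s.Fin' g N Cb

end Pool.Agent.Lib.MP_df9110_gt
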