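import Pool.Agent.Lib.MP_df9110_gt.NBaseS

/-! Symbols, weighted Sobolev norms, and the statements of the linear and nonlinear theory. -/

namespace Pool.Agent.Lib.MP_df9110_gt

open Filter Topology MeasureTheory
open scoped ContDiff

/-- `⟨y⟩ ^ γ`. -/
noncomputable def wt (γ : ℝ) (y : Pt) : ℝ := (1 + nsq y) ^ (γ / 2)

def SymOn (U : Set Pt) (m : ℝ) (k : ℕ) (f : Pt → ℝ) (C : ℝ) : Prop :=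
  ∀ y ∈ U, WB (wt (-1) y) k (C * wt m y) f y

def IsSymOn (U : Set Pt) (m : ℝ) (f : Pt → ℝ) : Prop :=
  (∀ y ∈ U, ContDiffAt ℝ ∞ f y) ∧ ∀ k, ∃ C, SymOn U m k f C

abbrev Sym (m : ℝ) (k : ℕ) (f : Pt → ℝ) (C : ℝ) : Prop := SymOn Set.univ m k f C

abbrev IsSym (m : ℝ) (f : Pt → ℝ) : Prop := IsSymOn Set.univ m f

def CC (u : Pt → ℝ) : Prop := ContDiff ℝ ∞ u ∧ HasCompactSupport u

/-- Sum over all words of length `k` of `‖⟨y⟩^γ ∂^w u‖_{L²}`. -/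
noncomputable def nn : ℕ → ℝ → (Pt → ℝ) → ℝ
  | 0, γ, u => √(∫ y, (wt γ y * u y) ^ 2)
  | k + 1, γ, u => ∑ i, nn k γ (pd i u)

noncomputable def Yn (t s : ℕ) (δ : ℝ) (u : Pt → ℝ) : ℝ :=
  ∑ k ∈ Finset.range (t + 1), nn k (δ - 2 + (min k s : ℕ)) u

section

variable {ι : Type} [Fintype ι]

noncomputable def nV (k : ℕ) (γ : ℝ) (u : ι → Pt → ℝ) : ℝ := ∑ α, nn k γ (u α)
noncomputable def NV (s : ℕ) (δ : ℝ) (u : ι → Pt → ℝ) : ℝ := ∑ α, Yn s s δ (u α)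
noncomputable def XV (s : ℕ) (δ : ℝ) (u : ι → Pt → ℝ) : ℝ := ∑ α, Yn (s + 2) s δ (u α)

/-- A quadratic form. -/
noncomputable def qf (h : ι → ι → ℝ) (v : ι → ℝ) : ℝ := ∑ a, ∑ b, h a b * (v a * v b)

omit [Fintype ι] in
def Adm (σ : ι → ι) (u : ι → Pt → ℝ) : Prop := (∀ α, CC (u α)) ∧ ∀ α, u (σ α) = u α

end

/-- `aⁱʲ ∂ᵢ∂ⱼ u + ½ y·∂ u - λ u`. -/
noncomputable def Lsc (a : Fin 4 → Fin 4 → Pt → ℝ) (lam : ℝ) (u : Pt → ℝ) (y : Pt) : ℝ :=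
  ∑ i, ∑ j, a i j y * pd i (pd j u) y + 1 / 2 * ∑ i, y i * pd i u y - lam * u y

structure Ell (a : Fin 4 → Fin 4 → Pt → ℝ) (k : ℕ) (K : ℝ) : Prop where
  sym : ∀ i j, IsSym 0 (a i j)
  bd : ∀ i j, Sym 0 k (a i j) K
  symm : ∀ i j, a i j = a j i
  ell : ∀ y ξ, K⁻¹ * nsq ξ ≤ qf (fun i j => a i j y) ξ

structure L0Facts : Prop where
  wt_pos : ∀ γ y, 0 < wt γ y
  wt_add : ∀ a b y, wt (a + b) y = wt a y * wt b y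
  wt_zero : ∀ y, wt 0 y = 1
  wt_two : ∀ y, wt 2 y = 1 + nsq y
  wt_mono : ∀ {a b}, a ≤ b → ∀ y, wt a y ≤ wt b y
  wt_sym : ∀ γ, IsSym γ (wt γ)
  wt_pd : ∀ γ i y, pd i (wt γ) y = γ * y i * wt (γ - 2) y
  coord : ∀ i k, Sym 1 k (fun y => y i) 1
  mono : ∀ {U U' m m' k k' f C C'}, SymOn U m k f C → U' ⊆ U → m ≤ m' → k' ≤ k → C ≤ C' →
    SymOn U' m' k' f C'
  add : ∀ {U m k f g C C'}, (∀ y ∈ U, ContDiffAt ℝ ∞ f y) → (∀ y ∈ U, ContDiffAt ℝ ∞ g y) →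
    SymOn U m k f C → SymOn U m k g C' → SymOn U m k (f + g) (C + C')
  smul : ∀ {U m k f C} (c : ℝ), (∀ y ∈ U, ContDiffAt ℝ ∞ f y) → SymOn U m k f C →
    SymOn U m k (c • f) (|c| * C)
  mul : ∀ {U m m' k f g C C'}, (∀ y ∈ U, ContDiffAt ℝ ∞ f y) → (∀ y ∈ U, ContDiffAt ℝ ∞ g y) →
    SymOn U m k f C → SymOn U m' k g C' → SymOn U (m + m') k (f * g) (2 ^ k * C * C')
  succ : ∀ {U m k f C}, SymOn U m (k + 1) f C ↔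
    (∀ y ∈ U, |f y| ≤ C * wt m y) ∧ ∀ i, SymOn U (m - 1) k (pd i f) C
  closed : ∀ {U m k f C}, (∀ C', C < C' → SymOn U m k f C') → SymOn U m k f C
  /-- the inverse of an elliptic symmetric matrix of symbols -/
  inv : ∀ k, ∃ p : ℕ, ∀ (U : Set Pt) (g : Pt → Mat) (K : ℝ), 2 ≤ K →
    (∀ i j, ∀ y ∈ U, ContDiffAt ℝ ∞ (fun z => g z i j) y) → (∀ y, (g y).IsSymm) →
    (∀ i j, SymOn U 0 k (fun z => g z i j) K) → (∀ y ∈ U, ∀ ξ, K⁻¹ * nsq ξ ≤ qf (g y) ξ) →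
    (∀ i j, ∀ y ∈ U, ContDiffAt ℝ ∞ (fun z => (g z)⁻¹ i j) y) ∧
    (∀ i j, SymOn U 0 k (fun z => (g z)⁻¹ i j) (K ^ p)) ∧
    ∀ y ∈ U, (g y).PosDef ∧ ∀ ξ, (K ^ p)⁻¹ * nsq ξ ≤ qf (fun a b => (g y)⁻¹ a b) ξ
  interp : ∀ m, ∃ C : ℝ, ∀ (f : Pt → ℝ) (a b s : ℝ), ContDiff ℝ ∞ f → 0 < s → s ≤ 1 →
    Sym m 0 f a → Sym m 2 f b → Sym m 1 f (C * (a / s + b * s))
  cc_sym : ∀ {u}, CC u → ∀ m, IsSym m u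
  cc_pd : ∀ {u}, CC u → ∀ i, CC (pd i u)
  cc_add : ∀ {u v}, CC u → CC v → CC (u + v)
  cc_mul : ∀ {f u}, ContDiff ℝ ∞ f → CC u → CC (f * u)
  nn_nonneg : ∀ k γ u, 0 ≤ nn k γ u
  nn_add : ∀ k γ {u v}, CC u → CC v → nn k γ (u + v) ≤ nn k γ u + nn k γ v
  nn_smul : ∀ k γ (c : ℝ) {u}, CC u → nn k γ (c • u) = |c| * nn k γ u
  nn_mono : ∀ k {γ γ'} {u}, CC u → γ ≤ γ' → nn k γ u ≤ nn k γ' u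
  nn_succ : ∀ k γ {u}, CC u → ∀ i, nn k γ (pd i u) ≤ nn (k + 1) γ u
  nn_le : ∀ γ γ' (A : ℝ) {u v}, CC u → CC v → 0 ≤ A →
    (∀ y, |wt γ y * u y| ≤ A * |wt γ' y * v y|) → nn 0 γ u ≤ A * nn 0 γ' v
  nn_sym : ∀ (k : ℕ) (γ m : ℝ), m + γ - k < -2 → ∃ C : ℝ, ∀ u η, CC u → Sym m k u η → nn k γ u ≤ C * η
  ibp : ∀ {f u}, ContDiff ℝ ∞ f → CC u → ∀ i, ∫ y, f y * pd i u y = -∫ y, pd i f y * u y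
  cut : ∃ χ : ℕ → Pt → ℝ, (∀ n, CC (χ n)) ∧ (∀ (n : ℕ) y, nsq y ≤ (n : ℝ) ^ 2 → χ n y = 1) ∧
    ∀ k, ∃ C, ∀ n, Sym 0 k (χ n) C
  absorb : ∀ (C : ℝ) (q : ℕ), ∃ p : ℕ, ∀ K : ℝ, 2 ≤ K → C * K ^ q ≤ K ^ p

/-- Weighted Sobolev inequality. -/
def SobStmt : Prop := ∀ (δ : ℝ) (k : ℕ), ∃ C : ℝ, 0 ≤ C ∧ ∀ u, CC u →
  Sym (-δ) k u (C * Yn (k + 4) (k + 4) δ u)

structure ProdFacts : Prop where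
  mul : ∀ t s (δ m : ℝ), ∃ C : ℝ, 0 ≤ C ∧ ∀ f u A, ContDiff ℝ ∞ f → CC u → Sym m t f A →
    Yn t s (δ - m) (f * u) ≤ C * A * Yn t s δ u
  top : ∀ k (γ m : ℝ), ∃ C : ℝ, 0 ≤ C ∧ ∀ f u A A', ContDiff ℝ ∞ f → CC u → Sym m 0 f A →
    Sym m k f A' → nn k (γ - m) (f * u) ≤ A * nn k γ u +
      C * A' * ∑ j ∈ Finset.range k, nn j (γ - (k - j : ℕ)) u
  alg : ∀ t s (δ : ℝ), 12 ≤ s → s ≤ t → t ≤ s + 2 → 0 ≤ δ → ∃ C : ℝ, 0 ≤ C ∧ ∀ u v, CC u → CC v →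
    Yn t s δ (u * v) ≤ C * Yn t s δ u * Yn t s δ v
  alg_top : ∀ t s (δ : ℝ), 12 ≤ s → s ≤ t → t ≤ s + 2 → 0 ≤ δ → ∃ C : ℝ, 0 ≤ C ∧
    ∀ u v A B, CC u → CC v → Sym 0 0 u A → Sym 0 0 v B →
    nn (t + 1) (δ - 1 + s) (u * v) ≤ A * nn (t + 1) (δ - 1 + s) v + B * nn (t + 1) (δ - 1 + s) u +
      C * Yn t s δ u * Yn t s δ v

/-- The basic energy estimate. -/
def EnStmt : Prop := ∃ p : ℕ, ∀ (K : ℝ) a, 2 ≤ K → Ell a 1 K → ∀ μ : ℝ, K⁻¹ ≤ μ → ∀ v, CC v →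
  μ * nn 0 0 v + √μ * nn 1 0 v + nn 2 0 v ≤ K ^ p * (nn 0 0 (Lsc a (μ - 1) v) + nn 1 (-1) v)

/-- The energy estimate at level `s`; the constant of the top order term does not depend on
`s`. -/
def LevStmt : Prop := ∃ p : ℕ, ∀ (δ : ℝ) (s : ℕ), |δ| ≤ 1 → ∃ C : ℝ, 0 ≤ C ∧
  ∀ (K K' : ℝ) a, 2 ≤ K → Ell a 1 K → (∀ i j, Sym 0 (s + 1) (a i j) K') →
  ∀ lam : ℝ, K⁻¹ ≤ lam + δ / 2 → ∀ u, CC u →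
  (lam + δ / 2) * nn s (δ - 2 + s) u + √(lam + δ / 2) * nn (s + 1) (δ - 2 + s) u +
      nn (s + 2) (δ - 2 + s) u ≤
    K ^ p * (nn s (δ - 2 + s) (Lsc a lam u) + C * (1 + K') * Yn (s + 1) (s + 1) (δ - 2) u)

/-- Dense range for the Ornstein-Uhlenbeck operator. -/
def OuStmt : Prop := ∀ (s : ℕ) (δ : ℝ), ∃ l₁ : ℝ, ∀ lam, l₁ ≤ lam → ∀ F, CC F → ∀ η : ℝ, 0 < η →
  ∃ u, CC u ∧ Yn s s δ (Lsc (fun i j _ => if i = j then 1 else 0) lam u - F) ≤ η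

section

variable {ι : Type} [Fintype ι]

noncomputable def LV (a : Fin 4 → Fin 4 → Pt → ℝ) (B : (ι → Pt → ℝ) → ι → Pt → ℝ) (lam : ℝ)
    (u : ι → Pt → ℝ) (α : ι) : Pt → ℝ := Lsc a lam (u α) + B u α

structure LinOp (σ : ι → ι) (δ K : ℝ) (a : Fin 4 → Fin 4 → Pt → ℝ)
    (B : (ι → Pt → ℝ) → ι → Pt → ℝ) : Prop where
  ell : Ell a 14 K
  add : ∀ u v, Adm σ u → Adm σ v → B (u + v) = B u + B v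
  smul : ∀ (c : ℝ) u, Adm σ u → B (c • u) = c • B u
  adm : ∀ u, Adm σ u → Adm σ (B u)
  bd : ∀ s, ∃ C : ℝ, ∀ u, Adm σ u → NV s δ (B u) ≤ C * NV (s + 1) (δ - 2) u
  bdK : ∀ s ≤ 12, ∀ u, Adm σ u → NV s δ (B u) ≤ K * NV (s + 1) (δ - 2) u

/-- The consequence of the maximum principle. -/
def MPH (σ : ι → ι) (δ K l₀ : ℝ) (a : Fin 4 → Fin 4 → Pt → ℝ)
    (B : (ι → Pt → ℝ) → ι → Pt → ℝ) : Prop :=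
  ∀ lam, l₀ ≤ lam → ∀ u, Adm σ u → nV 0 (δ - 3) u ≤ K * NV 12 δ (LV a B lam u)

structure QHyp (σ : ι → ι) (δ K : ℝ) (B Q : (ι → Pt → ℝ) → ι → Pt → ℝ) : Prop where
  zero : Q 0 = 0
  adm : ∀ u, Adm σ u → XV 12 δ u ≤ K⁻¹ → Adm σ (Q u)
  lip : ∀ u v, Adm σ u → Adm σ v → XV 12 δ u ≤ K⁻¹ → XV 12 δ v ≤ K⁻¹ →
    NV 12 δ (Q u - Q v) ≤ K * (XV 12 δ u + XV 12 δ v) * XV 12 δ (u - v)
  top : ∀ s, 12 ≤ s → ∀ M : ℝ, ∃ C : ℝ, ∀ u, Adm σ u → XV 12 δ u ≤ K⁻¹ → XV s δ u ≤ M →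
    nV (s + 1) (δ - 1 + s) (Q u) ≤ K * XV 12 δ u * nV (s + 3) (δ - 1 + s) u + C
  lim : ∀ (u : ℕ → ι → Pt → ℝ) (h : ι → Pt → ℝ), (∀ n, Adm σ (u n) ∧ XV 12 δ (u n) ≤ K⁻¹) →
    (∀ α, ContDiff ℝ ∞ (h α)) → (∀ α y, Tendsto (fun n => u n α y) atTop (𝓝 (h α y))) →
    (∀ α y i, Tendsto (fun n => pd i (u n α) y) atTop (𝓝 (pd i (h α) y))) →
    (∀ α y i j, Tendsto (fun n => pd i (pd j (u n α)) y) atTop (𝓝 (pd i (pd j (h α)) y))) →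
    ∀ α y, Tendsto (fun n => B (u n) α y + Q (u n) α y) atTop (𝓝 (B h α y + Q h α y))

end

/-- A priori estimates for systems. -/
def AprStmt : Prop := ∀ (ι : Type) [Fintype ι] (σ : ι → ι) (δ : ℝ), |δ| ≤ 1 → ∃ p : ℕ,
  ∀ (K : ℝ) a (B : (ι → Pt → ℝ) → ι → Pt → ℝ), 2 ≤ K → LinOp σ δ K a B →
  (∀ lam : ℝ, K⁻¹ ≤ lam + δ / 2 → ∀ u, Adm σ u →
    XV 12 δ u ≤ K ^ p * (NV 12 δ (LV a B lam u) + nV 0 (δ - 3) u)) ∧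
  (∀ s, ∃ C : ℝ, ∀ lam : ℝ, K⁻¹ ≤ lam + δ / 2 → ∀ u, Adm σ u →
    XV (s + 1) δ u ≤ K ^ p * nV (s + 1) (δ - 1 + s) (LV a B lam u) + C * XV s δ u) ∧
  ∀ s, ∃ l₁ C : ℝ, ∀ t ∈ Set.Icc (0 : ℝ) 1, ∀ lam, l₁ ≤ lam → ∀ u, Adm σ u →
    XV s δ u ≤ C * NV s δ (LV (fun i j y => (1 - t) * (if i = j then 1 else 0) + t * a i j y)
      (fun v => t • B v) lam u)

/-- Dense range by the method of continuity. -/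
def DrStmt : Prop := ∀ (ι : Type) [Fintype ι] (σ : ι → ι) (δ K l₀ : ℝ) a
  (B : (ι → Pt → ℝ) → ι → Pt → ℝ), Function.Involutive σ → |δ| ≤ 1 → 2 ≤ K → LinOp σ δ K a B →
  K⁻¹ ≤ l₀ + δ / 2 → MPH σ δ K l₀ a B → ∀ s, 12 ≤ s → ∀ F, Adm σ F → ∀ η : ℝ, 0 < η →
  ∃ u, Adm σ u ∧ NV s δ (LV a B l₀ u - F) ≤ η

/-- The nonlinear existence theorem. -/
def NlStmt : Prop := ∀ (ι : Type) [Fintype ι] (σ : ι → ι) (δ : ℝ), Function.Involutive σ →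
  |δ| ≤ 1 → ∃ p : ℕ, ∀ (K l₀ η : ℝ) a (B Q : (ι → Pt → ℝ) → ι → Pt → ℝ) (F : ι → Pt → ℝ),
  2 ≤ K → LinOp σ δ K a B → K⁻¹ ≤ l₀ + δ / 2 → MPH σ δ K l₀ a B → QHyp σ δ K B Q →
  B 0 = 0 → (∀ α, F (σ α) = F α) → (∀ α, IsSym (-δ - 1 / 2) (F α)) →
  (∀ α, Sym (-δ - 1 / 2) 12 (F α) η) → η ≤ (K ^ p)⁻¹ →
  ∃ h : ι → Pt → ℝ, (∀ α, h (σ α) = h α) ∧ (∀ α, IsSym (-δ) (h α)) ∧
    (∀ α, Sym (-δ) 8 (h α) (K ^ p * η)) ∧ LV a B l₀ h + Q h = F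

end Pool.Agent.Lib.MP_df9110_gt
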