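import Mathlib

/-! Tensor calculus over a commutative `ℝ`-algebra with operators `D i` (partial derivatives). -/

namespace Pool.Agent.Lib.MP_df9110_gt

open Finset

section Defs

variable {R : Type} [CommRing R] [Algebra ℝ R] {ι : Type} [Fintype ι] [DecidableEq ι]

/-- Commuting `ℝ`-linear derivations. -/
structure IsDer (D : ι → R → R) : Prop where
  add : ∀ i a b, D i (a + b) = D i a + D i b
  mul : ∀ i a b, D i (a * b) = a * D i b + D i a * b
  smul : ∀ i (c : ℝ) a, D i (c • a) = c • D i a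
  comm : ∀ i j a, D i (D j a) = D j (D i a)

/-- A symmetric matrix and its inverse. -/
structure IsMet (g G : ι → ι → R) : Prop where
  gs : ∀ i j, g i j = g j i
  Gs : ∀ i j, G i j = G j i
  inv : ∀ i j, ∑ k, G i k * g k j = if i = j then 1 else 0

/-- `Γᵏᵢⱼ`. -/
noncomputable def gChr (D : ι → R → R) (g G : ι → ι → R) (k i j : ι) : R :=
  (1 / 2 : ℝ) • ∑ l, G k l * (D i (g j l) + D j (g i l) - D l (g i j))

/-- `R(∂ᵢ,∂ⱼ)∂ₖ = Rˡᵢⱼₖ ∂ₗ`. -/
noncomputable def gRiem (D : ι → R → R) (Γ : ι → ι → ι → R) (l i j k : ι) : R :=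
  D i (Γ l j k) - D j (Γ l i k) + ∑ m, (Γ l i m * Γ m j k - Γ l j m * Γ m i k)

noncomputable def gRic (D : ι → R → R) (Γ : ι → ι → ι → R) (i j : ι) : R :=
  ∑ k, (D k (Γ k i j) - D j (Γ k i k) + ∑ l, (Γ k k l * Γ l i j - Γ k j l * Γ l i k))

/-- `g(R(∂ᵢ,∂ⱼ)∂ₖ,∂ₘ)`; the sectional curvature is `gRlow X Y Y X`. -/
noncomputable def gRlow (D : ι → R → R) (g : ι → ι → R) (Γ : ι → ι → ι → R) (i j k m : ι) : R :=
  ∑ l, gRiem D Γ l i j k * g l m

noncomputable def gTr (G h : ι → ι → R) : R := ∑ i, ∑ j, G i j * h i j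

noncomputable def gIp (G h k : ι → ι → R) : R :=
  ∑ a, ∑ b, ∑ c, ∑ d, G a c * G b d * h a b * k c d

/-- `∇ᵢ ωⱼ`. -/
noncomputable def gCov1 (D : ι → R → R) (Γ : ι → ι → ι → R) (ω : ι → R) (i j : ι) : R :=
  D i (ω j) - ∑ k, Γ k i j * ω k

/-- `∇ᵢ vᵏ`. -/
noncomputable def gCovV (D : ι → R → R) (Γ : ι → ι → ι → R) (v : ι → R) (i k : ι) : R :=
  D i (v k) + ∑ m, Γ k i m * v m

noncomputable def gHess (D : ι → R → R) (Γ : ι → ι → ι → R) (f : R) (i j : ι) : R :=
  D i (D j f) - ∑ k, Γ k i j * D k f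

/-- `Δ f - V f`. -/
noncomputable def gLapV (D : ι → R → R) (G : ι → ι → R) (Γ : ι → ι → ι → R) (V : ι → R)
    (f : R) : R :=
  gTr G (gHess D Γ f) - ∑ k, V k * D k f

/-- `⟨∇ f, ∇ f'⟩`. -/
noncomputable def gGam (D : ι → R → R) (G : ι → ι → R) (f f' : R) : R :=
  ∑ i, ∑ j, G i j * (D i f * D j f')

/-- `∇_c h_ab`. -/
noncomputable def gCov2 (D : ι → R → R) (Γ : ι → ι → ι → R) (h : ι → ι → R) (c a b : ι) : R :=
  D c (h a b) - ∑ m, (Γ m c a * h m b + Γ m c b * h a m)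

/-- `∇_e t_cab`. -/
noncomputable def gCov3 (D : ι → R → R) (Γ : ι → ι → ι → R) (t : ι → ι → ι → R)
    (e c a b : ι) : R :=
  D e (t c a b) - ∑ m, (Γ m e c * t m a b + Γ m e a * t c m b + Γ m e b * t c a m)

noncomputable def gLie (D : ι → R → R) (V : ι → R) (h : ι → ι → R) (a b : ι) : R :=
  ∑ c, (V c * D c (h a b) + h c b * D a (V c) + h a c * D b (V c))

/-- `Ric + ½ L_V g + ½ g`. -/
noncomputable def gErr (D : ι → R → R) (g : ι → ι → R) (Γ : ι → ι → ι → R) (V : ι → R)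
    (a b : ι) : R :=
  gRic D Γ a b + (1 / 2 : ℝ) • gLie D V g a b + (1 / 2 : ℝ) • g a b

noncomputable def gS (D : ι → R → R) (Γ : ι → ι → ι → R) (h : ι → ι → R) (d a b : ι) : R :=
  (1 / 2 : ℝ) • (gCov2 D Γ h a b d + gCov2 D Γ h b a d - gCov2 D Γ h d a b)

noncomputable def gUp (G : ι → ι → R) (s : ι → ι → ι → R) (c a b : ι) : R :=
  ∑ d, G c d * s d a b

/-- `∇_e C^c_ab`. -/
noncomputable def gCovC (D : ι → R → R) (Γ C : ι → ι → ι → R) (e c a b : ι) : R :=
  D e (C c a b) + ∑ m, (Γ c e m * C m a b - Γ m e a * C c m b - Γ m e b * C c a m)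

noncomputable def gDiv (D : ι → R → R) (Γ C : ι → ι → ι → R) (a b : ι) : R :=
  ∑ c, (gCovC D Γ C c c a b - gCovC D Γ C a c c b)

noncomputable def gCC (C : ι → ι → ι → R) (a b : ι) : R :=
  ∑ c, ∑ d, (C c c d * C d a b - C c a d * C d c b)

/-- The linearized Ricci tensor. -/
noncomputable def gDRic (D : ι → R → R) (G : ι → ι → R) (Γ : ι → ι → ι → R) (h : ι → ι → R)
    (a b : ι) : R :=
  gDiv D Γ (gUp G (gS D Γ h)) a b

/-- The linear DeTurck vector field. -/
noncomputable def gW (D : ι → R → R) (G : ι → ι → R) (Γ : ι → ι → ι → R) (h : ι → ι → R)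
    (k : ι) : R :=
  ∑ i, ∑ j, G i j * gUp G (gS D Γ h) k i j

/-- `R_{cabd} h^{cd}`. -/
noncomputable def gRmT (G : ι → ι → R) (Rl : ι → ι → ι → ι → R) (h : ι → ι → R) (a b : ι) : R :=
  ∑ c, ∑ d, Rl c a b d * ∑ i, ∑ j, G c i * G d j * h i j

noncomputable def gRcT (G Rc h : ι → ι → R) (a b : ι) : R :=
  ∑ c, ∑ k, (Rc a k * G k c * h c b + Rc b k * G k c * h a c)

/-- The rough Laplacian of a `2`-tensor. -/
noncomputable def gRough (D : ι → R → R) (G : ι → ι → R) (Γ : ι → ι → ι → R) (h : ι → ι → R)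
    (a b : ι) : R :=
  ∑ e, ∑ c, G e c * gCov3 D Γ (gCov2 D Γ h) e c a b

/-- The Lichnerowicz Laplacian. -/
noncomputable def gLapL (D : ι → R → R) (g G : ι → ι → R) (Γ : ι → ι → ι → R) (h : ι → ι → R)
    (a b : ι) : R :=
  gRough D G Γ h a b + (2 : ℝ) • gRmT G (gRlow D g Γ) h a b - gRcT G (gRic D Γ) h a b

/-- `𝓛 h = Δ_L h - L_V h - h`. -/
noncomputable def gL (D : ι → R → R) (g G : ι → ι → R) (Γ : ι → ι → ι → R) (V : ι → R)
    (h : ι → ι → R) (a b : ι) : R :=
  gLapL D g G Γ h a b - gLie D V h a b - h a b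

/-- The lower order part of `𝓛` when `V = -y/2 + U`. -/
noncomputable def gLow (D : ι → R → R) (G : ι → ι → R) (Γ : ι → ι → ι → R)
    (Rl : ι → ι → ι → ι → R) (Rc : ι → ι → R) (U : ι → R) (h : ι → ι → R) (a b : ι) : R :=
  -(∑ e, ∑ c, G e c * ∑ m, (D e (Γ m c a * h m b + Γ m c b * h a m) +
      (Γ m e c * gCov2 D Γ h m a b + Γ m e a * gCov2 D Γ h c m b + Γ m e b * gCov2 D Γ h c a m)))
    + (2 : ℝ) • gRmT G Rl h a b - gRcT G Rc h a b - gLie D U h a b

/-- The nonlinear part of the gauged equation; `Dm` is `(g+h)⁻¹ - g⁻¹`. -/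
noncomputable def gQ (D : ι → R → R) (G : ι → ι → R) (Γ : ι → ι → ι → R) (Dm h : ι → ι → R)
    (a b : ι) : R :=
  (-2 : ℝ) • (gDiv D Γ (gUp Dm (gS D Γ h)) a b +
      gCC (gUp (fun i j => G i j + Dm i j) (gS D Γ h)) a b) + gLie D (gW D G Γ h) h a b

/-- Pull-back of a `2`-tensor by a Jacobian `J a i = ∂ᵢ Φᵃ`. -/
noncomputable def gPull2 (J h : ι → ι → R) (i j : ι) : R := ∑ a, ∑ b, J a i * J b j * h a b

noncomputable def gPull4 (J : ι → ι → R) (t : ι → ι → ι → ι → R) (i j k m : ι) : R :=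
  ∑ a, ∑ b, ∑ c, ∑ d, J a i * J b j * J c k * J d m * t a b c d

/-- A graded family of predicates: `P d j m a` says that `a` has degree `d` in a small unknown,
has used `j ≤ 2` derivatives and has order `m`; a derivative lowers the order by `θ`. -/
structure Grd (θ : ℝ) (D : ι → R → R) (P : ℕ → ℕ → ℝ → R → Prop) : Prop where
  zero : ∀ d j m, P d j m 0
  one : P 0 0 0 1
  add : ∀ {d j m a b}, P d j m a → P d j m b → P d j m (a + b)
  smul : ∀ {d j m a} (c : ℝ), P d j m a → P d j m (c • a)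
  mono : ∀ {d j j' m m' a}, P d j m a → j ≤ j' → j' ≤ 2 → m ≤ m' → P d j' m' a
  mul : ∀ {d j m m' a b}, P 0 j m a → P d j m' b → P d j (m + m') (a * b)
  der : ∀ {d j m a} (i : ι), P d j m a → j < 2 → P d (j + 1) (m - θ) (D i a)

structure GrdQ (D : ι → R → R) (P : ℕ → ℕ → ℝ → R → Prop) : Prop extends Grd 0 D P where
  down : ∀ {j m a}, P 1 j m a → P 0 j m a
  mul11 : ∀ {j m m' a b}, P 1 j m a → P 1 j m' b → P 2 j (m + m') (a * b)

end Defs

namespace IsDer

variable {R : Type} [CommRing R] [Algebra ℝ R] {ι : Type} {D : ι → R → R} (h : IsDer D)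
include h

theorem zero (i : ι) : D i 0 = 0 := by simpa using h.smul i 0 0
theorem neg (i : ι) (a : R) : D i (-a) = -D i a := by simpa using h.smul i (-1) a
theorem sub (i : ι) (a b : R) : D i (a - b) = D i a - D i b := by
  rw [sub_eq_add_neg, h.add, h.neg, sub_eq_add_neg]
theorem one (i : ι) : D i 1 = 0 := by simpa using h.mul i 1 1
theorem algebraMap (i : ι) (c : ℝ) : D i (algebraMap ℝ R c) = 0 := by
  rw [Algebra.algebraMap_eq_smul_one, h.smul, h.one, smul_zero]
theorem natCast (i : ι) (n : ℕ) : D i (n : R) = 0 := by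
  simpa using h.algebraMap i n
theorem ofNat (i : ι) (n : ℕ) [n.AtLeastTwo] : D i (OfNat.ofNat n : R) = 0 := h.natCast i n
theorem sum {κ : Type} (i : ι) (s : Finset κ) (f : κ → R) :
    D i (∑ k ∈ s, f k) = ∑ k ∈ s, D i (f k) := by
  classical
  induction s using Finset.induction_on with
  | empty => simpa using h.zero i
  | insert a s ha ih => rw [Finset.sum_insert ha, Finset.sum_insert ha, h.add, ih]
theorem ite [DecidableEq ι] (i a b : ι) : D i (if a = b then 1 else 0) = 0 := by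
  split_ifs
  exacts [h.one i, h.zero i]
theorem sq (i : ι) (a : R) : D i (a ^ 2) = 2 * a * D i a := by
  rw [pow_two, h.mul]; ring

end IsDer

/-- In a reduced algebra an identity may be checked in fields. -/
theorem eq_of_field {R : Type} [CommRing R] [Algebra ℝ R] [IsReduced R] (x y : R)
    (h : ∀ (K : Type) [Field K] [Algebra ℝ K] (v : R →ₐ[ℝ] K), v x = v y) : x = y := by
  rw [← sub_eq_zero]
  apply IsReduced.eq_zero
  rw [nilpotent_iff_mem_prime]
  intro p hp
  have := h (FractionRing (R ⧸ p))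
    ((IsScalarTower.toAlgHom ℝ (R ⧸ p) (FractionRing (R ⧸ p))).comp (Ideal.Quotient.mkₐ ℝ p))
  simp only [AlgHom.comp_apply, IsScalarTower.coe_toAlgHom', Ideal.Quotient.mkₐ_eq_mk] at this
  rw [← Ideal.Quotient.eq]
  exact IsFractionRing.injective (R ⧸ p) (FractionRing (R ⧸ p)) this

section Map

variable {R S : Type} [CommRing R] [Algebra ℝ R] [CommRing S] [Algebra ℝ S] {ι : Type}
  [Fintype ι] {D : ι → R → R} {D' : ι → S → S} (π : R →ₐ[ℝ] S)
  (hπ : ∀ i a, π (D i a) = D' i (π a))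
include hπ

theorem map_gChr (g G : ι → ι → R) (k i j : ι) :
    π (gChr D g G k i j) = gChr D' (fun a b => π (g a b)) (fun a b => π (G a b)) k i j := by
  simp [gChr, hπ]
theorem map_gRiem (Γ : ι → ι → ι → R) (l i j k : ι) :
    π (gRiem D Γ l i j k) = gRiem D' (fun a b c => π (Γ a b c)) l i j k := by
  simp [gRiem, hπ]
theorem map_gRic (Γ : ι → ι → ι → R) (i j : ι) :
    π (gRic D Γ i j) = gRic D' (fun a b c => π (Γ a b c)) i j := by
  simp [gRic, hπ]
theorem map_gRlow (g : ι → ι → R) (Γ : ι → ι → ι → R) (i j k m : ι) :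
    π (gRlow D g Γ i j k m) =
      gRlow D' (fun a b => π (g a b)) (fun a b c => π (Γ a b c)) i j k m := by
  simp [gRlow, map_gRiem π hπ]
omit hπ in
theorem map_gTr (G h : ι → ι → R) :
    π (gTr G h) = gTr (fun a b => π (G a b)) (fun a b => π (h a b)) := by simp [gTr]
omit hπ in
theorem map_gIp (G h k : ι → ι → R) :
    π (gIp G h k) = gIp (fun a b => π (G a b)) (fun a b => π (h a b)) (fun a b => π (k a b)) := by
  simp [gIp]
theorem map_gCov1 (Γ : ι → ι → ι → R) (ω : ι → R) (i j : ι) :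
    π (gCov1 D Γ ω i j) = gCov1 D' (fun a b c => π (Γ a b c)) (fun a => π (ω a)) i j := by
  simp [gCov1, hπ]
theorem map_gCovV (Γ : ι → ι → ι → R) (ω : ι → R) (i j : ι) :
    π (gCovV D Γ ω i j) = gCovV D' (fun a b c => π (Γ a b c)) (fun a => π (ω a)) i j := by
  simp [gCovV, hπ]
theorem map_gHess (Γ : ι → ι → ι → R) (f : R) (i j : ι) :
    π (gHess D Γ f i j) = gHess D' (fun a b c => π (Γ a b c)) (π f) i j := by
  simp [gHess, hπ]
theorem map_gLapV (G : ι → ι → R) (Γ : ι → ι → ι → R) (V : ι → R) (f : R) :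
    π (gLapV D G Γ V f) =
      gLapV D' (fun a b => π (G a b)) (fun a b c => π (Γ a b c)) (fun a => π (V a)) (π f) := by
  simp [gLapV, gTr, map_gHess π hπ, hπ]
theorem map_gGam (G : ι → ι → R) (f f' : R) :
    π (gGam D G f f') = gGam D' (fun a b => π (G a b)) (π f) (π f') := by
  simp [gGam, hπ]
theorem map_gCov2 (Γ : ι → ι → ι → R) (h : ι → ι → R) (c a b : ι) :
    π (gCov2 D Γ h c a b) = gCov2 D' (fun a b c => π (Γ a b c)) (fun a b => π (h a b)) c a b := by
  simp [gCov2, hπ]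
theorem map_gCov3 (Γ t : ι → ι → ι → R) (e c a b : ι) :
    π (gCov3 D Γ t e c a b) =
      gCov3 D' (fun a b c => π (Γ a b c)) (fun a b c => π (t a b c)) e c a b := by
  simp [gCov3, hπ]
theorem map_gLie (V : ι → R) (h : ι → ι → R) (a b : ι) :
    π (gLie D V h a b) = gLie D' (fun a => π (V a)) (fun a b => π (h a b)) a b := by
  simp [gLie, hπ]
theorem map_gErr (g : ι → ι → R) (Γ : ι → ι → ι → R) (V : ι → R) (a b : ι) :
    π (gErr D g Γ V a b) =
      gErr D' (fun a b => π (g a b)) (fun a b c => π (Γ a b c)) (fun a => π (V a)) a b := by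
  simp [gErr, map_gRic π hπ, map_gLie π hπ]
theorem map_gS (Γ : ι → ι → ι → R) (h : ι → ι → R) (c a b : ι) :
    π (gS D Γ h c a b) = gS D' (fun a b c => π (Γ a b c)) (fun a b => π (h a b)) c a b := by
  simp [gS, map_gCov2 π hπ]
omit hπ in
theorem map_gUp (G : ι → ι → R) (s : ι → ι → ι → R) (c a b : ι) :
    π (gUp G s c a b) = gUp (fun a b => π (G a b)) (fun a b c => π (s a b c)) c a b := by
  simp [gUp]
theorem map_gDiv (Γ C : ι → ι → ι → R) (a b : ι) :
    π (gDiv D Γ C a b) = gDiv D' (fun a b c => π (Γ a b c)) (fun a b c => π (C a b c)) a b := by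
  simp [gDiv, gCovC, hπ]
theorem map_gDRic (G : ι → ι → R) (Γ : ι → ι → ι → R) (h : ι → ι → R) (a b : ι) :
    π (gDRic D G Γ h a b) =
      gDRic D' (fun a b => π (G a b)) (fun a b c => π (Γ a b c)) (fun a b => π (h a b)) a b := by
  simp only [gDRic, map_gDiv π hπ, map_gUp, map_gS π hπ]
theorem map_gW (G : ι → ι → R) (Γ : ι → ι → ι → R) (h : ι → ι → R) (k : ι) :
    π (gW D G Γ h k) =
      gW D' (fun a b => π (G a b)) (fun a b c => π (Γ a b c)) (fun a b => π (h a b)) k := by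
  simp only [gW, map_sum, map_mul, map_gUp, map_gS π hπ]
omit hπ in
theorem map_gRmT (G : ι → ι → R) (Rl : ι → ι → ι → ι → R) (h : ι → ι → R) (a b : ι) :
    π (gRmT G Rl h a b) = gRmT (fun a b => π (G a b)) (fun a b c d => π (Rl a b c d))
      (fun a b => π (h a b)) a b := by
  simp [gRmT]
omit hπ in
theorem map_gRcT (G Rc h : ι → ι → R) (a b : ι) :
    π (gRcT G Rc h a b) =
      gRcT (fun a b => π (G a b)) (fun a b => π (Rc a b)) (fun a b => π (h a b)) a b := by
  simp [gRcT]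
theorem map_gRough (G : ι → ι → R) (Γ : ι → ι → ι → R) (h : ι → ι → R) (a b : ι) :
    π (gRough D G Γ h a b) =
      gRough D' (fun a b => π (G a b)) (fun a b c => π (Γ a b c)) (fun a b => π (h a b)) a b := by
  simp only [gRough, map_sum, map_mul, map_gCov3 π hπ, map_gCov2 π hπ]
theorem map_gL (g G : ι → ι → R) (Γ : ι → ι → ι → R) (V : ι → R) (h : ι → ι → R) (a b : ι) :
    π (gL D g G Γ V h a b) = gL D' (fun a b => π (g a b)) (fun a b => π (G a b))
      (fun a b c => π (Γ a b c)) (fun a => π (V a)) (fun a b => π (h a b)) a b := by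
  simp only [gL, gLapL, map_sub, map_add, map_smul, map_gRough π hπ, map_gRmT, map_gRcT,
    map_gRlow π hπ, map_gRic π hπ, map_gLie π hπ]
theorem map_gLow (G : ι → ι → R) (Γ : ι → ι → ι → R) (Rl : ι → ι → ι → ι → R)
    (Rc : ι → ι → R) (U : ι → R) (h : ι → ι → R) (a b : ι) :
    π (gLow D G Γ Rl Rc U h a b) = gLow D' (fun a b => π (G a b)) (fun a b c => π (Γ a b c))
      (fun a b c d => π (Rl a b c d)) (fun a b => π (Rc a b)) (fun a => π (U a))
      (fun a b => π (h a b)) a b := by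
  simp only [gLow, map_sub, map_add, map_neg, map_sum, map_mul, map_smul, map_gRmT, map_gRcT,
    map_gCov2 π hπ, map_gLie π hπ, hπ]
theorem map_gQ (G : ι → ι → R) (Γ : ι → ι → ι → R) (Dm h : ι → ι → R) (a b : ι) :
    π (gQ D G Γ Dm h a b) = gQ D' (fun a b => π (G a b)) (fun a b c => π (Γ a b c))
      (fun a b => π (Dm a b)) (fun a b => π (h a b)) a b := by
  simp only [gQ, gCC, map_sub, map_add, map_sum, map_mul, map_smul, map_gDiv π hπ, map_gUp,
    map_gS π hπ, map_gLie π hπ, map_gW π hπ]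

end Map

end Pool.Agent.Lib.MP_df9110_gt
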