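import Pool.Agent.Lib.MP_df9110_gt.NTen

/-! Statements of the tensor identities, and block metrics
`dp²/a + (dq - β dp)²/C + F₁ dθ₁² + F₂ dθ₂²`. -/

namespace Pool.Agent.Lib.MP_df9110_gt

open Finset

section

variable {R : Type} [CommRing R] [Algebra ℝ R] {ι : Type} [Fintype ι] [DecidableEq ι]

structure T1Facts (D : ι → R → R) (g G : ι → ι → R) (Γ : ι → ι → ι → R) : Prop where
  chr_symm : ∀ k i j, Γ k i j = Γ k j i
  cov_g : ∀ c a b, gCov2 D Γ g c a b = 0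
  der_G : ∀ c a b, D c (G a b) = -∑ m, (Γ a c m * G m b + Γ b c m * G a m)
  anti1 : ∀ i j k m, gRlow D g Γ i j k m = -gRlow D g Γ j i k m
  anti2 : ∀ i j k m, gRlow D g Γ i j k m = -gRlow D g Γ i j m k
  pair : ∀ i j k m, gRlow D g Γ i j k m = gRlow D g Γ k m i j
  bianchi1 : ∀ l i j k, gRiem D Γ l i j k + gRiem D Γ l j k i + gRiem D Γ l k i j = 0
  riem_low : ∀ l i j k, gRiem D Γ l i j k = ∑ m, G l m * gRlow D g Γ i j k m
  ric_riem : ∀ a b, gRic D Γ a b = ∑ k, gRiem D Γ k k a b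
  ric_low : ∀ a b, gRic D Γ a b = ∑ c, ∑ d, G c d * gRlow D g Γ c a b d
  ric_symm : ∀ a b, gRic D Γ a b = gRic D Γ b a
  comm1 : ∀ (ω : ι → R) i j k, gCov2 D Γ (gCov1 D Γ ω) i j k - gCov2 D Γ (gCov1 D Γ ω) j i k =
    -∑ l, gRiem D Γ l i j k * ω l
  comm2 : ∀ (h : ι → ι → R) e c a b,
    gCov3 D Γ (gCov2 D Γ h) e c a b - gCov3 D Γ (gCov2 D Γ h) c e a b =
      -∑ l, (gRiem D Γ l e c a * h l b + gRiem D Γ l e c b * h a l)
  der_tr : ∀ (h : ι → ι → R) c, D c (gTr G h) = gTr G (gCov2 D Γ h c)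
  bianchi : ∀ c, ∑ a, ∑ b, G a b * gCov2 D Γ (gRic D Γ) a b c =
    (1 / 2 : ℝ) • D c (gTr G (gRic D Γ))

structure T3Facts (D : ι → R → R) (g G : ι → ι → R) (Γ : ι → ι → ι → R) : Prop where
  /-- the gauged equation -/
  main : ∀ (h G' : ι → ι → R) (V : ι → R), IsMet (fun i j => g i j + h i j) G' → ∀ a b,
    (-2 : ℝ) • gErr D (fun i j => g i j + h i j) (gChr D (fun i j => g i j + h i j) G')
        (fun k => V k - gW D G Γ h k) a b =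
      (-2 : ℝ) • gErr D g Γ V a b + gL D g G Γ V h a b +
        gQ D G Γ (fun i j => G' i j - G i j) h a b
  split : ∀ (y U : ι → R), (∀ i j, D i (y j) = if i = j then 1 else 0) →
    (∀ h a b, gL D g G Γ (fun k => (-1 / 2 : ℝ) • y k + U k) h a b =
      ∑ e, ∑ c, G e c * D e (D c (h a b)) + (1 / 2 : ℝ) • ∑ c, y c * D c (h a b) +
        gLow D G Γ (gRlow D g Γ) (gRic D Γ) U h a b) ∧
    (∀ a b, gErr D g Γ (fun k => (-1 / 2 : ℝ) • y k + U k) a b =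
      gRic D Γ a b + (1 / 2 : ℝ) • gLie D U g a b - (1 / 4 : ℝ) • ∑ c, y c * D c (g a b))
  symm_err : ∀ V a b, gErr D g Γ V a b = gErr D g Γ V b a
  symm_L : ∀ V (h : ι → ι → R), (∀ i j, h i j = h j i) → ∀ a b,
    gL D g G Γ V h a b = gL D g G Γ V h b a
  symm_low : ∀ U (h : ι → ι → R), (∀ i j, h i j = h j i) → ∀ a b,
    gLow D G Γ (gRlow D g Γ) (gRic D Γ) U h a b = gLow D G Γ (gRlow D g Γ) (gRic D Γ) U h b a
  symm_Q : ∀ (h G' : ι → ι → R), IsMet (fun i j => g i j + h i j) G' → ∀ a b,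
    gQ D G Γ (fun i j => G' i j - G i j) h a b = gQ D G Γ (fun i j => G' i j - G i j) h b a

structure T4Facts (D : ι → R → R) (g G : ι → ι → R) (Γ : ι → ι → ι → R) : Prop where
  /-- `𝓛` of the barrier `φ g + β Ric` -/
  bar : ∀ (V : ι → R) (φ : R) (β : ℝ) a b,
    gL D g G Γ V (fun i j => φ * g i j + β • gRic D Γ i j) a b =
      (2 * φ - algebraMap ℝ R β) * gRic D Γ a b + gLapV D G Γ V φ * g a b -
        2 * φ * gErr D g Γ V a b - (2 * β) • gDRic D G Γ (gErr D g Γ V) a b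
  scal : ∀ V : ι → R, (∀ a b, gErr D g Γ V a b = 0) →
    gLapV D G Γ V (gTr G (gRic D Γ)) + gTr G (gRic D Γ) +
      2 * gIp G (gRic D Γ) (gRic D Γ) = 0

structure T5Facts (D : ι → R → R) (g G : ι → ι → R) (Γ : ι → ι → ι → R) : Prop where
  lap_mul : ∀ V f f', gLapV D G Γ V (f * f') =
    f * gLapV D G Γ V f' + f' * gLapV D G Γ V f + 2 * gGam D G f f'
  chain : ∀ V u F F₁ F₂, (∀ i, D i F = F₁ * D i u) → (∀ i, D i F₁ = F₂ * D i u) →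
    gLapV D G Γ V F = F₁ * gLapV D G Γ V u + F₂ * gGam D G u u
  /-- the equation for `|d f - V♭|²` -/
  weq : ∀ (V : ι → R) (f : R) (ω : ι → R), (∀ a b, gErr D g Γ V a b = 0) →
    gLapV D G Γ V f = f → (∀ i, ω i = D i f - ∑ k, g i k * V k) →
    gLapV D G Γ V (∑ i, ∑ j, G i j * (ω i * ω j)) =
      2 * gIp G (gCov1 D Γ ω) (gCov1 D Γ ω) + ∑ i, ∑ j, G i j * (ω i * ω j)
  grad : ∀ (V : ι → R) (f : R), (∀ i, D i f = ∑ k, g i k * V k) → ∀ a b,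
    gErr D g Γ V a b = gRic D Γ a b + gHess D Γ f a b + (1 / 2 : ℝ) • g a b
  /-- the identity behind the maximum principle for tensors -/
  mp : ∀ (V v : ι → R) (T : ι → ι → R) (val : R →ₐ[ℝ] ℝ), (∀ i j, T i j = T j i) →
    (∀ i k, val (gCovV D Γ v i k) = 0) → (∀ a, val (∑ b, T a b * v b) = 0) →
    val (gLapV D G Γ V (∑ a, ∑ b, T a b * (v a * v b))) =
      val (∑ a, ∑ b, gL D g G Γ V T a b * (v a * v b)) -
        2 * val (∑ a, ∑ b, gRmT G (gRlow D g Γ) T a b * (v a * v b))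

end

def T1Stmt : Prop := ∀ (R : Type) [CommRing R] [Algebra ℝ R] (ι : Type) [Fintype ι]
  [DecidableEq ι] (D : ι → R → R) (g G : ι → ι → R), IsDer D → IsMet g G →
  T1Facts D g G (gChr D g G)

def T2Stmt : Prop := ∀ (R : Type) [CommRing R] [Algebra ℝ R] (ι : Type) [Fintype ι]
  [DecidableEq ι] (D : ι → R → R) (g G h : ι → ι → R), IsDer D → IsMet g G →
  (∀ i j, h i j = h j i) → ∀ a b,
  (-2 : ℝ) • gDRic D G (gChr D g G) h a b + gLie D (gW D G (gChr D g G) h) g a b =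
    gLapL D g G (gChr D g G) h a b

def T3Stmt : Prop := ∀ (R : Type) [CommRing R] [Algebra ℝ R] (ι : Type) [Fintype ι]
  [DecidableEq ι] (D : ι → R → R) (g G : ι → ι → R), IsDer D → IsMet g G →
  T3Facts D g G (gChr D g G)

def T4Stmt : Prop := ∀ (R : Type) [CommRing R] [Algebra ℝ R] (ι : Type) [Fintype ι]
  [DecidableEq ι] (D : ι → R → R) (g G : ι → ι → R), IsDer D → IsMet g G →
  T4Facts D g G (gChr D g G)

def T5Stmt : Prop := ∀ (R : Type) [CommRing R] [Algebra ℝ R] (ι : Type) [Fintype ι]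
  [DecidableEq ι] (D : ι → R → R) (g G : ι → ι → R), IsDer D → IsMet g G →
  T5Facts D g G (gChr D g G)

/-- Naturality.  `π` is composition with a map `Φ`, `J a i = ∂ᵢ Φᵃ`, `K = J⁻¹`. -/
structure T6Facts {R S : Type} [CommRing R] [Algebra ℝ R] [CommRing S] [Algebra ℝ S] {ι : Type}
    [Fintype ι] [DecidableEq ι] (D : ι → R → R) (D' : ι → S → S) (π : S →ₐ[ℝ] R)
    (J K : ι → ι → R) (g G : ι → ι → R) (g' G' : ι → ι → S) : Prop where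
  met : IsMet g G
  ric : ∀ i j, gRic D (gChr D g G) i j = gPull2 J (fun a b => π (gRic D' (gChr D' g' G') a b)) i j
  rlow : ∀ i j k m, gRlow D g (gChr D g G) i j k m =
    gPull4 J (fun a b c d => π (gRlow D' g' (gChr D' g' G') a b c d)) i j k m
  scal : gTr G (gRic D (gChr D g G)) = π (gTr G' (gRic D' (gChr D' g' G')))
  hess : ∀ f i j, gHess D (gChr D g G) (π f) i j =
    gPull2 J (fun a b => π (gHess D' (gChr D' g' G') f a b)) i j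
  gam : ∀ f f', gGam D G (π f) (π f') = π (gGam D' G' f f')
  err : ∀ (V : ι → R) (V' : ι → S), (∀ a, ∑ i, J a i * V i = π (V' a)) → ∀ i j,
    gErr D g (gChr D g G) V i j = gPull2 J (fun a b => π (gErr D' g' (gChr D' g' G') V' a b)) i j
  lap : ∀ (V : ι → R) (V' : ι → S), (∀ a, ∑ i, J a i * V i = π (V' a)) → ∀ f,
    gLapV D G (gChr D g G) V (π f) = π (gLapV D' G' (gChr D' g' G') V' f)

def T6Stmt : Prop := ∀ (R S : Type) [CommRing R] [Algebra ℝ R] [CommRing S] [Algebra ℝ S]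
  (ι : Type) [Fintype ι] [DecidableEq ι] (D : ι → R → R) (D' : ι → S → S) (π : S →ₐ[ℝ] R)
  (J K : ι → ι → R) (g' G' : ι → ι → S), IsDer D → IsDer D' →
  (∀ i f, D i (π f) = ∑ a, J a i * π (D' a f)) → (∀ a i j, D i (J a j) = D j (J a i)) →
  (∀ a b, ∑ i, J a i * K i b = if a = b then 1 else 0) →
  (∀ i j, ∑ a, K i a * J a j = if i = j then 1 else 0) → IsMet g' G' →
  T6Facts D D' π J K (gPull2 J fun a b => π (g' a b))
    (fun i j => ∑ a, ∑ b, K i a * K j b * π (G' a b)) g' G'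

/-- Data of a block metric and a vector field `V = a f₁ T + C f₂ X`, `T = ∂ₚ + β ∂_q`,
`X = ∂_q`. -/
structure Blk (R : Type) where
  (a ai C Ci F₁ F₁i F₂ F₂i β f₁ f₂ : R)

namespace Blk

variable {R : Type} [CommRing R] [Algebra ℝ R] (D : Fin 2 → R → R) (B : Blk R)

structure Ok : Prop where
  ha : B.a * B.ai = 1
  hC : B.C * B.Ci = 1
  h₁ : B.F₁ * B.F₁i = 1
  h₂ : B.F₂ * B.F₂i = 1

def T (f : R) : R := D 0 f + B.β * D 1 f
def ta : R := B.T D B.a * B.ai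
def tc : R := B.T D B.C * B.Ci
def xa : R := D 1 B.a * B.ai
def xc : R := D 1 B.C * B.Ci
noncomputable def t₁ : R := (1 / 2 : ℝ) • (B.T D B.F₁ * B.F₁i)
noncomputable def t₂ : R := (1 / 2 : ℝ) • (B.T D B.F₂ * B.F₂i)
noncomputable def x₁ : R := (1 / 2 : ℝ) • (D 1 B.F₁ * B.F₁i)
noncomputable def x₂ : R := (1 / 2 : ℝ) • (D 1 B.F₂ * B.F₂i)
noncomputable def j : R := (1 / 2 : ℝ) • B.tc D - D 1 B.β
noncomputable def l : R := (1 / 2 : ℝ) • B.xa D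
/-- Gauss curvature of the base -/
noncomputable def K : R :=
  B.a * B.T D (B.j D) + (1 / 2 : ℝ) • (B.a * B.ta D * B.j D) - B.a * B.j D ^ 2 +
    B.C * D 1 (B.l D) + (1 / 2 : ℝ) • (B.C * B.xc D * B.l D) - B.C * B.l D ^ 2
/-- Hessian of a function with `T u = t`, `X u = x` -/
noncomputable def H11 (t x : R) : R :=
  B.a * B.T D t + (1 / 2 : ℝ) • (B.a * B.ta D * t) - B.C * B.l D * x
noncomputable def H22 (t x : R) : R :=
  B.C * D 1 x + (1 / 2 : ℝ) • (B.C * B.xc D * x) - B.a * B.j D * t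
noncomputable def H12 (t x : R) : R := B.T D x + (1 / 2 : ℝ) • (B.tc D * x) + B.l D * t
noncomputable def y₁ : R := B.f₁ - B.t₁ D - B.t₂ D
noncomputable def y₂ : R := B.f₂ - B.x₁ D - B.x₂ D
noncomputable def Xa (t x : R) : R := B.a * B.y₁ D * t + B.C * B.y₂ D * x
noncomputable def lap (t x : R) : R := B.H11 D t x + B.H22 D t x - B.Xa D t x
noncomputable def e₁ : R := (1 / 2 : ℝ) • 1 - B.lap D (B.t₁ D) (B.x₁ D)
noncomputable def e₂ : R := (1 / 2 : ℝ) • 1 - B.lap D (B.t₂ D) (B.x₂ D)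
noncomputable def e11 : R :=
  B.K D + (1 / 2 : ℝ) • 1 - (1 / 2 : ℝ) • B.Xa D (B.ta D) (B.xa D) + B.T D (B.a * B.y₁ D) -
    B.a * (B.t₁ D ^ 2 + B.t₂ D ^ 2)
noncomputable def e22 : R :=
  B.K D + (1 / 2 : ℝ) • 1 - (1 / 2 : ℝ) • B.Xa D (B.tc D) (B.xc D) + D 1 (B.C * B.y₂ D) +
    B.a * B.y₁ D * D 1 B.β - B.C * (B.x₁ D ^ 2 + B.x₂ D ^ 2)
noncomputable def e12 : R :=
  (1 / 2 : ℝ) • (B.T D (B.y₂ D) + B.y₂ D * B.tc D - B.y₂ D * D 1 B.β) +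
    (1 / 2 : ℝ) • (D 1 (B.y₁ D) + B.xa D * B.y₁ D) - (B.t₁ D * B.x₁ D + B.t₂ D * B.x₂ D)
/-- mixed curvatures -/
noncomputable def k11 (t x : R) : R := -(B.H11 D t x + B.a * t ^ 2)
noncomputable def k22 (t x : R) : R := -(B.H22 D t x + B.C * x ^ 2)
noncomputable def k12 (t x : R) : R := -(B.H12 D t x + t * x)
noncomputable def k34 : R := -(B.a * B.t₁ D * B.t₂ D + B.C * B.x₁ D * B.x₂ D)
noncomputable def scal : R :=
  2 * (B.K D + B.k11 D (B.t₁ D) (B.x₁ D) + B.k22 D (B.t₁ D) (B.x₁ D) +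
    B.k11 D (B.t₂ D) (B.x₂ D) + B.k22 D (B.t₂ D) (B.x₂ D) + B.k34 D)

def g : Fin 4 → Fin 4 → R :=
  ![![B.ai + B.β ^ 2 * B.Ci, -(B.β * B.Ci), 0, 0], ![-(B.β * B.Ci), B.Ci, 0, 0],
    ![0, 0, B.F₁, 0], ![0, 0, 0, B.F₂]]
def G : Fin 4 → Fin 4 → R :=
  ![![B.a, B.a * B.β, 0, 0], ![B.a * B.β, B.C + B.a * B.β ^ 2, 0, 0],
    ![0, 0, B.F₁i, 0], ![0, 0, 0, B.F₂i]]
def V : Fin 4 → R := ![B.a * B.f₁, B.β * (B.a * B.f₁) + B.C * B.f₂, 0, 0]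
/-- the frame `T, X, ∂_{θ₁}, ∂_{θ₂}` (columns) -/
def fr : Fin 4 → Fin 4 → R := ![![1, 0, 0, 0], ![B.β, 1, 0, 0], ![0, 0, 1, 0], ![0, 0, 0, 1]]

/-- `d V♭ (T, X)` -/
def Om : R := B.T D B.f₂ - D 1 B.f₁ + D 1 B.β * B.f₂
noncomputable def lam₁ : R :=
  -(B.C * D 1 (B.Om D) + B.Om D * B.C * (B.l D + (1 / 2 : ℝ) • B.xc D) -
    B.Om D * (B.C * B.y₂ D))
noncomputable def lam₂ : R :=
  B.a * B.T D (B.Om D) + B.Om D * ((1 / 2 : ℝ) • (B.a * B.ta D) + (1 / 2 : ℝ) • (B.a * B.tc D) -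
    B.a * B.y₁ D)
noncomputable def bi₁ : R :=
  (1 / 2 : ℝ) • B.T D (B.e11 D - B.e22 D - B.e₁ D - B.e₂ D) - B.j D * (B.e11 D - B.e22 D) +
    (B.e11 D - B.e₁ D) * B.t₁ D + (B.e11 D - B.e₂ D) * B.t₂ D + B.C * D 1 (B.e12 D) +
    B.C * B.e12 D * ((1 / 2 : ℝ) • B.xc D - B.l D + B.x₁ D + B.x₂ D) -
    (B.f₁ * B.e11 D + B.C * B.f₂ * B.e12 D)
noncomputable def bi₂ : R :=
  (1 / 2 : ℝ) • D 1 (B.e22 D - B.e11 D - B.e₁ D - B.e₂ D) - B.l D * (B.e22 D - B.e11 D) +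
    (B.e22 D - B.e₁ D) * B.x₁ D + (B.e22 D - B.e₂ D) * B.x₂ D + B.a * B.T D (B.e12 D) +
    B.a * B.e12 D * ((1 / 2 : ℝ) • B.ta D + (1 / 2 : ℝ) • B.tc D - 2 * B.j D + B.t₁ D + B.t₂ D) -
    (B.a * B.f₁ * B.e12 D + B.f₂ * B.e22 D)

end Blk

/-- Derivations in four variables on functions of the first two. -/
def ext4 {R : Type} [Zero R] (D : Fin 2 → R → R) : Fin 4 → R → R :=
  ![D 0, D 1, fun _ => 0, fun _ => 0]

/-- A symmetric `2`-tensor of block type. -/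
def tab2 {R : Type} [Zero R] (s11 s12 s22 s3 s4 : R) : Fin 4 → Fin 4 → R :=
  ![![s11, s12, 0, 0], ![s12, s22, 0, 0], ![0, 0, s3, 0], ![0, 0, 0, s4]]

def kn {R : Type} [CommRing R] (h k : Fin 4 → Fin 4 → R) (i j p m : Fin 4) : R :=
  h i m * k j p + h j p * k i m - h i p * k j m - h j m * k i p

/-- A curvature tensor of block type: `K = R₀₁₁₀`, `p_AB = R_{A22B}`, `q_AB = R_{A33B}`,
`r = R₂₃₃₂`. -/
def tab4 {R : Type} [CommRing R] (K p11 p12 p22 q11 q12 q22 r : R) (i j k m : Fin 4) : R :=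
  kn (tab2 K 0 0 0 0) (tab2 0 0 1 0 0) i j k m + kn (tab2 p11 p12 p22 0 0) (tab2 0 0 0 1 0) i j k m +
    kn (tab2 q11 q12 q22 r 0) (tab2 0 0 0 0 1) i j k m

structure T7Facts {R : Type} [CommRing R] [Algebra ℝ R] (D : Fin 2 → R → R) (B : Blk R)
    (Γ : Fin 4 → Fin 4 → Fin 4 → R) : Prop where
  der : IsDer (ext4 D)
  met : IsMet B.g B.G
  rlow : gPull4 B.fr (gRlow (ext4 D) B.g Γ) =
    tab4 (B.K D * B.ai * B.Ci) (B.k11 D (B.t₁ D) (B.x₁ D) * B.ai * B.F₁)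
      (B.k12 D (B.t₁ D) (B.x₁ D) * B.F₁) (B.k22 D (B.t₁ D) (B.x₁ D) * B.Ci * B.F₁)
      (B.k11 D (B.t₂ D) (B.x₂ D) * B.ai * B.F₂) (B.k12 D (B.t₂ D) (B.x₂ D) * B.F₂)
      (B.k22 D (B.t₂ D) (B.x₂ D) * B.Ci * B.F₂) (B.k34 D * B.F₁ * B.F₂)
  scal : gTr B.G (gRic (ext4 D) Γ) = B.scal D
  err : gPull2 B.fr (gErr (ext4 D) B.g Γ B.V) =
    tab2 (B.e11 D * B.ai) (B.e12 D) (B.e22 D * B.Ci) (B.e₁ D * B.F₁) (B.e₂ D * B.F₂)
  lap : ∀ f, gLapV (ext4 D) B.G Γ B.V f = B.lap D (B.T D f) (D 1 f)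
  gam : ∀ f f', gGam (ext4 D) B.G f f' = B.a * B.T D f * B.T D f' + B.C * D 1 f * D 1 f'

def T7Stmt : Prop := ∀ (R : Type) [CommRing R] [Algebra ℝ R] [IsReduced R]
  (D : Fin 2 → R → R) (B : Blk R), IsDer D → B.Ok → T7Facts D B (gChr (ext4 D) B.g B.G)

/-- The reduced Bianchi identity. -/
def T8Stmt : Prop := ∀ (R : Type) [CommRing R] [Algebra ℝ R] [IsReduced R]
  (D : Fin 2 → R → R) (B : Blk R), IsDer D → B.Ok →
  B.T D (B.lam₂ D) + D 1 B.β * B.lam₂ D - D 1 (B.lam₁ D) - B.Om D =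
    2 * (B.T D (B.bi₂ D) + D 1 B.β * B.bi₂ D - D 1 (B.bi₁ D))

/-- Orders of the geometric quantities. -/
structure T9Facts {R : Type} [CommRing R] [Algebra ℝ R] {ι : Type} [Fintype ι]
    (D : ι → R → R) (P : ℕ → ℕ → ℝ → R → Prop) : Prop where
  chr : ∀ g G : ι → ι → R, (∀ i j, P 0 0 0 (g i j)) → (∀ i j, P 0 0 0 (G i j)) →
    (∀ k i j, P 0 1 (-1) (gChr D g G k i j)) ∧
    (∀ i j k m, P 0 2 (-2) (gRlow D g (gChr D g G) i j k m)) ∧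
    (∀ i j, P 0 2 (-2) (gRic D (gChr D g G) i j)) ∧ P 0 2 (-2) (gTr G (gRic D (gChr D g G))) ∧
    (∀ U : ι → R, (∀ k, P 0 0 (-1) (U k)) → (∀ a b, P 0 2 (-2) (gLie D U g a b)) ∧
      ∀ d m f, P d 0 m f → P d 2 (m - 2) (gLapV D G (gChr D g G) U f))
  cov : ∀ (Γ : ι → ι → ι → R) (h : ι → ι → R) d m, (∀ k i j, P 0 1 (-1) (Γ k i j)) →
    (∀ i j, P d 0 m (h i j)) → (∀ c a b, P d 1 (m - 1) (gCov2 D Γ h c a b)) ∧
      ∀ e c a b, P d 2 (m - 2) (gCov3 D Γ (gCov2 D Γ h) e c a b)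
  lin : ∀ (G : ι → ι → R) (Γ : ι → ι → ι → R) (h : ι → ι → R) d m, (∀ i j, P 0 0 0 (G i j)) →
    (∀ k i j, P 0 1 (-1) (Γ k i j)) → (∀ i j, P d 0 m (h i j)) →
    (∀ k, P d 1 (m - 1) (gW D G Γ h k)) ∧ ∀ a b, P d 2 (m - 2) (gDRic D G Γ h a b)
  low : ∀ (G : ι → ι → R) (Γ : ι → ι → ι → R) (Rl : ι → ι → ι → ι → R) (Rc : ι → ι → R)
    (U : ι → R) (h : ι → ι → R) d m, (∀ i j, P 0 0 0 (G i j)) → (∀ k i j, P 0 0 (-1) (Γ k i j)) →
    (∀ i j k l, P 0 1 (-2) (Rl i j k l)) → (∀ i j, P 0 1 (-2) (Rc i j)) →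
    (∀ k, P 0 0 (-1) (U k)) → (∀ i j, P d 0 m (h i j)) →
    ∀ a b, P d 1 (m - 2) (gLow D G Γ Rl Rc U h a b)

def T9Stmt : Prop :=
  (∀ (R : Type) [CommRing R] [Algebra ℝ R] (ι : Type) [Fintype ι] (D : ι → R → R)
    (P : ℕ → ℕ → ℝ → R → Prop), Grd 1 D P → T9Facts D P) ∧
  ∀ (R : Type) [CommRing R] [Algebra ℝ R] (ι : Type) [Fintype ι] (D : ι → R → R)
    (P : ℕ → ℕ → ℝ → R → Prop), GrdQ D P →
    ∀ (G : ι → ι → R) (Γ : ι → ι → ι → R) (Dm h : ι → ι → R), (∀ i j, P 0 0 0 (G i j)) →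
      (∀ k i j, P 0 0 0 (Γ k i j)) → (∀ i j, P 1 0 0 (Dm i j)) → (∀ i j, P 1 0 0 (h i j)) →
      ∀ a b, P 2 2 0 (gQ D G Γ Dm h a b)

end Pool.Agent.Lib.MP_df9110_gt
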