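import Pool.Agent.Lib.MP_df9110_gt.NPert

/-! The top order estimate for the nonlinear part. -/

namespace Pool.Agent.Lib.MP_df9110_gt

open Filter Topology
open scoped ContDiff

namespace QtTop

/-- The weight at level `i`. -/
noncomputable def wG (s i : ℕ) : ℝ := 1 / 2 - 2 + ((min i s : ℕ) : ℝ)

/-- The top weight. -/
noncomputable def wT (s : ℕ) : ℝ := 1 / 2 - 1 + (s : ℝ)

theorem le_wG {s i : ℕ} {γ : ℝ} (h1 : γ ≤ i - 3 / 2) (h2 : γ ≤ s - 3 / 2) : γ ≤ wG s i := by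
  unfold wG
  rcases le_total i s with h | h
  · rw [min_eq_left h]; linarith
  · rw [min_eq_right h]; linarith

theorem wG_le (s i : ℕ) : wG s i ≤ i - 3 / 2 ∧ wG s i ≤ s - 3 / 2 := by
  have h1 : ((min i s : ℕ) : ℝ) ≤ i := by exact_mod_cast min_le_left i s
  have h2 : ((min i s : ℕ) : ℝ) ≤ s := by exact_mod_cast min_le_right i s
  unfold wG
  constructor <;> linarith

/-- `f` behaves like a derivative of order `j` of a function with bounded norms below level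
`n`. -/
def Gd (s n j : ℕ) (f : Pt → ℝ) (E : ℝ) : Prop :=
  CC f ∧ 0 ≤ E ∧ ∀ i, i + j < n → nn i (wG s (i + j)) f ≤ E

theorem Gd.mono {s n j : ℕ} {f : Pt → ℝ} {E E' : ℝ} (h : Gd s n j f E) (hE : E ≤ E') :
    Gd s n j f E' := ⟨h.1, h.2.1.trans hE, fun i hi => (h.2.2 i hi).trans hE⟩

theorem cc_zero : CC (0 : Pt → ℝ) := ⟨contDiff_const, HasCompactSupport.zero⟩

theorem pd_mul {f g : Pt → ℝ} (hf : ContDiff ℝ ∞ f) (hg : ContDiff ℝ ∞ g) (a : Fin 4) :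
    pd a (f * g) = f * pd a g + pd a f * g :=
  funext fun p => pdn_mul (n := 4) (hf.differentiable (by simp) p) (hg.differentiable (by simp) p) a

section L0

variable (l0 : L0Facts)
include l0

theorem cc_smul (c : ℝ) {f : Pt → ℝ} (h : CC f) : CC (c • f) :=
  l0.cc_mul (f := fun _ => c) contDiff_const h

theorem nn_zero (k : ℕ) (γ : ℝ) : nn k γ 0 = 0 := by
  simpa using l0.nn_smul k γ 0 cc_zero

theorem cc_sum {ι : Type} (t : Finset ι) {f : ι → Pt → ℝ} (h : ∀ i, CC (f i)) :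
    CC (∑ i ∈ t, f i) :=
  Finset.sum_induction f CC (fun _ _ => l0.cc_add) cc_zero fun i _ => h i

theorem nn_sum {ι : Type} (k : ℕ) (γ : ℝ) (t : Finset ι) {f : ι → Pt → ℝ} (h : ∀ i, CC (f i)) :
    nn k γ (∑ i ∈ t, f i) ≤ ∑ i ∈ t, nn k γ (f i) := by
  classical
  induction t using Finset.induction_on with
  | empty => simp [nn_zero l0]
  | insert a t ha ih =>
    rw [Finset.sum_insert ha, Finset.sum_insert ha]
    exact (l0.nn_add k γ (h a) (cc_sum l0 t h)).trans (by linarith)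

theorem Gd.der {s n j : ℕ} {f : Pt → ℝ} {E : ℝ} (h : Gd s n j f E) (a : Fin 4) :
    Gd s n (j + 1) (pd a f) E :=
  ⟨l0.cc_pd h.1 a, h.2.1, fun i hi => (l0.nn_succ i _ h.1 a).trans (by
    have := h.2.2 (i + 1) (by omega)
    rwa [show i + 1 + j = i + (j + 1) by omega] at this)⟩

theorem nn_leib (k : ℕ) (γ : ℝ) {f g : Pt → ℝ} (hf : CC f) (hg : CC g) :
    nn (k + 1) γ (f * g) ≤ ∑ a, (nn k γ (f * pd a g) + nn k γ (pd a f * g)) := by
  refine Finset.sum_le_sum fun a _ => ?_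
  rw [pd_mul hf.1 hg.1]
  exact l0.nn_add k γ (l0.cc_mul hf.1 (l0.cc_pd hg a)) (l0.cc_mul (l0.cc_pd hf a).1 hg)

theorem leaf {f g : Pt → ℝ} {A m γ γ' : ℝ} (hf : CC f) (hg : CC g) (hA : 0 ≤ A)
    (h : ∀ y, |f y| ≤ A * wt (-m) y) (hγ : γ ≤ m + γ') : nn 0 γ (f * g) ≤ A * nn 0 γ' g := by
  refine l0.nn_le γ γ' A (l0.cc_mul hf.1 hg) hg hA fun y => ?_
  have h1 : wt γ y * wt (-m) y ≤ wt γ' y := by
    rw [← l0.wt_add]; exact l0.wt_mono (by linarith) y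
  have h2 := l0.wt_pos γ y
  rw [Pi.mul_apply, abs_mul, abs_mul, abs_mul, abs_of_pos h2, abs_of_pos (l0.wt_pos γ' y)]
  calc wt γ y * (|f y| * |g y|) ≤ wt γ y * (A * wt (-m) y * |g y|) := by gcongr; exact h y
    _ = A * (wt γ y * wt (-m) y * |g y|) := by ring
    _ ≤ _ := by gcongr

theorem sup (sob : SobStmt) (j : ℕ) : ∃ C : ℝ, 0 ≤ C ∧ ∀ s n f E, j + 4 ≤ s → j + 4 < n →
    Gd s n j f E → ∀ y, |f y| ≤ C * E * wt (-(j + 1 / 2)) y := by
  obtain ⟨C, hC, H⟩ := sob (j + 1 / 2) 0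
  refine ⟨5 * C, by positivity, fun s n f E hs hn h y => (H f h.1 y trivial).trans ?_⟩
  have h1 : Yn (0 + 4) (0 + 4) (j + 1 / 2) f ≤ 5 * E := by
    refine (Finset.sum_le_card_nsmul _ _ E fun k hk => ?_).trans (by simp)
    have hk' : k < 5 := Finset.mem_range.1 hk
    refine (l0.nn_mono k h.1 ?_).trans (h.2.2 k (by omega))
    have h2 : ((min k (0 + 4) : ℕ) : ℝ) = k := by rw [min_eq_left (by omega)]
    have h3 : ((k + j : ℕ) : ℝ) ≤ s := by exact_mod_cast (by omega : k + j ≤ s)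
    push_cast at h3
    rw [h2]
    exact le_wG (by push_cast; linarith) (by linarith)
  have := (l0.wt_pos (-(j + 1 / 2)) y).le
  calc _ ≤ C * (5 * E) * wt (-(j + 1 / 2)) y := by gcongr
    _ = _ := by ring

/-- The bilinear estimate. -/
theorem bl (sob : SobStmt) {s n N : ℕ} {γ : ℝ} (hs : 12 ≤ s) (h1 : N ≤ n + 4) (h2 : N ≤ s + 3)
    (h3 : γ ≤ N - 1) (h4 : γ ≤ s - 1 ∨ (N = s + 3 ∧ γ ≤ s)) (k : ℕ) :
    ∀ j j', k + j + j' = N → k + j < n → k + j ≤ s + 2 → k + j' ≤ s + 2 → ∃ C : ℝ, 0 ≤ C ∧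
      ∀ f g E E', Gd s n j f E → Gd s (s + 3) j' g E' → nn k γ (f * g) ≤ C * E * E' := by
  induction k with
  | zero =>
    intro j j' e a1 a2 a3
    have key : ∀ a b : ℕ, a + b = N → b ≤ s + 2 → γ ≤ a + 1 / 2 + wG s (0 + b) := by
      intro a b hab hb
      have e1 : (N : ℝ) = a + b := by exact_mod_cast hab.symm
      have e2 : (b : ℝ) ≤ s + 2 := by exact_mod_cast hb
      have e3 : (0 : ℝ) ≤ a := Nat.cast_nonneg a
      have := le_wG (s := s) (i := 0 + b) (γ := γ - a - 1 / 2) (by push_cast; linarith) (by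
        rcases h4 with h | ⟨h, h'⟩
        · linarith
        · have e4 : (N : ℝ) = s + 3 := by exact_mod_cast h
          linarith)
      linarith
    by_cases hj : j' + 4 ≤ s
    · obtain ⟨C, hC, H⟩ := sup l0 sob j'
      refine ⟨C, hC, fun f g E E' hf hg => ?_⟩
      have h0 := mul_nonneg hC hg.2.1
      rw [mul_comm f g]
      refine (leaf l0 hg.1 hf.1 h0 (H _ _ g E' hj (by omega) hg) (key j' j (by omega)
        (by omega))).trans ?_
      calc _ ≤ C * E' * E := by gcongr; exact hf.2.2 0 a1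
        _ = _ := by ring
    · obtain ⟨C, hC, H⟩ := sup l0 sob j
      refine ⟨C, hC, fun f g E E' hf hg => ?_⟩
      have h0 := mul_nonneg hC hf.2.1
      refine (leaf l0 hf.1 hg.1 h0 (H _ _ f E (by omega) (by omega) hf) (key j j' (by omega)
        (by omega))).trans ?_
      gcongr
      exact hg.2.2 0 (by omega)
  | succ k ih =>
    intro j j' e a1 a2 a3
    obtain ⟨C, hC, H⟩ := ih j (j' + 1) (by omega) (by omega) (by omega) (by omega)
    obtain ⟨C', hC', H'⟩ := ih (j + 1) j' (by omega) (by omega) (by omega) (by omega)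
    refine ⟨4 * (C + C'), by positivity, fun f g E E' hf hg => (nn_leib l0 k γ hf.1 hg.1).trans ?_⟩
    refine (Finset.sum_le_card_nsmul _ _ _ fun a _ =>
      add_le_add (H _ _ _ _ hf (hg.der l0 a)) (H' _ _ _ _ (hf.der l0 a) hg)).trans ?_
    simp only [Finset.card_univ, Fintype.card_fin, nsmul_eq_mul]
    push_cast
    exact le_of_eq (by ring)

/-- The top order term of a product. -/
theorem top (sob : SobStmt) {s n : ℕ} {γ : ℝ} (hs : 12 ≤ s) (h2 : n ≤ s + 3)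
    (h3 : γ ≤ n - 1) (h4 : γ ≤ s - 1 ∨ (n = s + 3 ∧ γ ≤ s)) (k : ℕ) :
    ∀ j, k + j = n → k ≤ s + 2 → ∃ C : ℝ, 0 ≤ C ∧ ∀ f g A E E', Gd s (s + 3) 0 f E →
      (∀ y, |f y| ≤ A) → Gd s n j g E' → nn k γ (f * g) ≤ A * nn k γ g + C * E * E' := by
  induction k with
  | zero =>
    intro j _ _
    refine ⟨0, le_rfl, fun f g A E E' hf hA hg => ?_⟩
    have := leaf l0 (m := 0) (γ := γ) (γ' := γ) hf.1 hg.1 ((abs_nonneg _).trans (hA 0))
      (fun y => by simpa [l0.wt_zero] using hA y) (by simp)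
    simpa using this
  | succ k ih =>
    intro j e a1
    obtain ⟨C, hC, H⟩ := ih (j + 1) (by omega) (by omega)
    obtain ⟨C', hC', H'⟩ := bl l0 sob (n := n) hs (by omega) h2 h3 h4 k j (0 + 1) (by omega)
      (by omega) (by omega) (by omega)
    refine ⟨4 * (C + C'), by positivity, fun f g A E E' hf hA hg =>
      (nn_leib l0 k γ hf.1 hg.1).trans ?_⟩
    refine (Finset.sum_le_sum fun a _ => add_le_add (H _ _ _ _ _ hf hA (hg.der l0 a))
      (mul_comm g (pd a f) ▸ H' _ _ _ _ hg (hf.der l0 a))).trans ?_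
    simp only [Finset.sum_add_distrib, ← Finset.mul_sum, Finset.sum_const, Finset.card_univ,
      Fintype.card_fin, nsmul_eq_mul, nn]
    push_cast
    exact le_of_eq (by ring)

omit l0 in
theorem wT_le (s : ℕ) : wT s ≤ ((s + 3 : ℕ) : ℝ) - 1 ∧
    (wT s ≤ s - 1 ∨ (s + 3 = s + 3 ∧ wT s ≤ s)) := by
  unfold wT
  push_cast
  exact ⟨by linarith, Or.inr ⟨rfl, by linarith⟩⟩

theorem top2 (sob : SobStmt) {s : ℕ} (hs : 12 ≤ s) : ∃ C : ℝ, 0 ≤ C ∧ ∀ f g A B E E',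
    Gd s (s + 3) 0 f E → (∀ y, |f y| ≤ A) → Gd s (s + 3) 0 g E' → (∀ y, |g y| ≤ B) →
    nn (s + 3) (wT s) (f * g) ≤
      A * nn (s + 3) (wT s) g + B * nn (s + 3) (wT s) f + C * E * E' := by
  obtain ⟨C, hC, H⟩ := top l0 sob hs le_rfl (wT_le s).1 (wT_le s).2 (s + 2) (0 + 1)
    (by omega) le_rfl
  refine ⟨8 * C, by positivity, fun f g A B E E' hf hA hg hB =>
    (nn_leib l0 (s + 2) _ hf.1 hg.1).trans ?_⟩
  refine (Finset.sum_le_sum fun a _ => add_le_add (H _ _ _ _ _ hf hA (hg.der l0 a))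
    (mul_comm g (pd a f) ▸ H _ _ _ _ _ hg hB (hf.der l0 a))).trans ?_
  rw [show s + 3 = s + 2 + 1 from rfl, nn, nn]
  simp only [Finset.sum_add_distrib, ← Finset.mul_sum, Finset.sum_const, Finset.card_univ,
    Fintype.card_fin, nsmul_eq_mul]
  push_cast
  exact le_of_eq (by ring)

/-- Multiplication by a symbol. -/
theorem symc (pr : ProdFacts) {c : Pt → ℝ} {m A γ : ℝ} {s n j k : ℕ} (hc : IsSym m c)
    (hA : Sym m 0 c A) (h1 : k + j ≤ n) (h2 : γ ≤ k + j - 3 / 2) (h3 : γ ≤ s - 1 / 2) :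
    ∃ C : ℝ, ∀ r E, Gd s n j r E → nn k (γ - m) (c * r) ≤ A * nn k γ r + C * E := by
  obtain ⟨C, hC, H⟩ := pr.top k γ m
  obtain ⟨A', hA'⟩ := hc.2 k
  refine ⟨C * |A'| * k, fun r E hr => ?_⟩
  refine (H c r A |A'| (contDiff_iff_contDiffAt.2 fun y => hc.1 y trivial) hr.1 hA
    (l0.mono hA' subset_rfl le_rfl le_rfl (le_abs_self _))).trans ?_
  have h4 : ∑ i ∈ Finset.range k, nn i (γ - (k - i : ℕ)) r ≤ k * E := by
    refine (Finset.sum_le_card_nsmul _ _ E fun i hi => ?_).trans (by simp)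
    have hi' : i < k := Finset.mem_range.1 hi
    have h5 : (i : ℝ) + 1 ≤ k := by exact_mod_cast hi'
    refine (l0.nn_mono i hr.1 ?_).trans (hr.2.2 i (by omega))
    rw [Nat.cast_sub hi'.le]
    exact le_wG (by push_cast; linarith) (by linarith)
  calc _ ≤ A * nn k γ r + C * |A'| * (k * E) := by gcongr
    _ = _ := by ring

theorem symd (pr : ProdFacts) {c : Pt → ℝ} {m γ : ℝ} {s n j k : ℕ} (hc : IsSym m c)
    (h1 : k + j < n) (h2 : γ + m ≤ wG s (k + j)) :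
    ∃ C : ℝ, ∀ r E, Gd s n j r E → nn k γ (c * r) ≤ C * E := by
  obtain ⟨A, hA⟩ := hc.2 0
  have h3 := wG_le s (k + j)
  obtain ⟨C, H⟩ := symc l0 pr (γ := γ + m) (s := s) (n := n) (j := j) (k := k) hc
    (l0.mono hA subset_rfl le_rfl le_rfl (le_abs_self _)) h1.le
    (by push_cast at h3; linarith [h3.1]) (by linarith [h3.2])
  refine ⟨|A| + C, fun r E hr => ?_⟩
  have h4 := H r E hr
  have h5 := (l0.nn_mono k hr.1 h2).trans (hr.2.2 k h1)
  rw [add_sub_cancel_right] at h4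
  calc _ ≤ |A| * E + C * E := h4.trans (by gcongr)
    _ = _ := by ring

section Fam

variable {X : Type} {Q : X → Prop} {s n j j' : ℕ} {F F' : X → Pt → ℝ} {a a' : X → ℝ}

/-- Uniform bounds below level `n`. -/
def GdF (Q : X → Prop) (s n j : ℕ) (F : X → Pt → ℝ) : Prop :=
  ∃ C : ℝ, ∀ x, Q x → Gd s n j (F x) C

/-- A bound at the top level. -/
def TpF (Q : X → Prop) (s j : ℕ) (a : X → ℝ) (F : X → Pt → ℝ) : Prop :=
  ∃ C : ℝ, ∀ x, Q x → nn (s + 3 - j) (wT s) (F x) ≤ a x + C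

omit l0 in
theorem gdF_of (hc : ∀ x, Q x → CC (F x))
    (h : ∀ i, i + j < n → ∃ C : ℝ, ∀ x, Q x → nn i (wG s (i + j)) (F x) ≤ C) : GdF Q s n j F := by
  choose! C hC using h
  refine ⟨∑ i ∈ Finset.range n, |C i|, fun x hx => ⟨hc x hx, by positivity, fun i hi => ?_⟩⟩
  exact (hC i hi x hx).trans ((le_abs_self _).trans (Finset.single_le_sum
    (f := fun i => |C i|) (fun _ _ => abs_nonneg _) (Finset.mem_range.2 (by omega))))

omit l0 in
theorem GdF.cc (h : GdF Q s n j F) (x : X) (hx : Q x) : CC (F x) :=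
  let ⟨_, h⟩ := h; (h x hx).1

omit l0 in
theorem gdF_all {ι : Type} [Fintype ι] {F : ι → X → Pt → ℝ} (h : ∀ α, GdF Q s n j (F α)) :
    ∃ C : ℝ, ∀ α x, Q x → Gd s n j (F α x) C := by
  choose C hC using h
  exact ⟨∑ α, |C α|, fun α x hx => (hC α x hx).mono ((le_abs_self _).trans (Finset.single_le_sum
    (f := fun α => |C α|) (fun _ _ => abs_nonneg _) (Finset.mem_univ α)))⟩

omit l0 in
theorem TpF.mono (h : TpF Q s j a F) (ha : ∀ x, Q x → a x ≤ a' x) : TpF Q s j a' F :=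
  let ⟨C, h⟩ := h; ⟨C, fun x hx => (h x hx).trans (by linarith [ha x hx])⟩

theorem gdF_zero : GdF Q s n j 0 :=
  ⟨0, fun _ _ => ⟨cc_zero, le_rfl, fun _ _ => (nn_zero l0 _ _).le⟩⟩

theorem GdF.add (h : GdF Q s n j F) (h' : GdF Q s n j F') : GdF Q s n j (F + F') :=
  let ⟨C, h⟩ := h; let ⟨C', h'⟩ := h'
  ⟨C + C', fun x hx => ⟨l0.cc_add (h x hx).1 (h' x hx).1, add_nonneg (h x hx).2.1 (h' x hx).2.1,
    fun i hi => (l0.nn_add _ _ (h x hx).1 (h' x hx).1).trans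
      (add_le_add ((h x hx).2.2 i hi) ((h' x hx).2.2 i hi))⟩⟩

theorem GdF.smul (c : ℝ) (h : GdF Q s n j F) : GdF Q s n j (c • F) :=
  let ⟨C, h⟩ := h
  ⟨|c| * C, fun x hx => ⟨cc_smul l0 c (h x hx).1, mul_nonneg (abs_nonneg c) (h x hx).2.1,
    fun i hi => (l0.nn_smul _ _ c (h x hx).1).trans_le
      (mul_le_mul_of_nonneg_left ((h x hx).2.2 i hi) (abs_nonneg c))⟩⟩

theorem GdF.der (h : GdF Q s n j F) (b : Fin 4) : GdF Q s n (j + 1) fun x => pd b (F x) :=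
  let ⟨C, h⟩ := h; ⟨C, fun x hx => (h x hx).der l0 b⟩

theorem GdF.sym (pr : ProdFacts) {c : Pt → ℝ} (hc : IsSym (-(j' : ℝ)) c) (h : GdF Q s n j F) :
    GdF Q s n (j + j') fun x => c * F x := by
  obtain ⟨E, h⟩ := h
  refine gdF_of (fun x hx => l0.cc_mul (contDiff_iff_contDiffAt.2 fun y => hc.1 y trivial)
    (h x hx).1) fun i hi => ?_
  have h3 := wG_le s (i + (j + j'))
  have h4 : (0 : ℝ) ≤ j' := Nat.cast_nonneg _
  obtain ⟨C, H⟩ := symd l0 pr (γ := wG s (i + (j + j'))) (s := s) (n := n) (j := j) (k := i) hc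
    (by omega) (le_wG (by push_cast at h3 ⊢; linarith [h3.1]) (by linarith [h3.2]))
  exact ⟨C * E, fun x hx => H _ _ (h x hx)⟩

theorem GdF.mul (sob : SobStmt) (hs : 12 ≤ s) (h : GdF Q s (s + 3) j F)
    (h' : GdF Q s (s + 3) j' F') : GdF Q s (s + 3) (j + j') (F * F') := by
  obtain ⟨E, h⟩ := h
  obtain ⟨E', h'⟩ := h'
  refine gdF_of (fun x hx => l0.cc_mul (h x hx).1.1 (h' x hx).1) fun i hi => ?_
  have h3 := wG_le s (i + (j + j'))
  obtain ⟨C, -, H⟩ := bl l0 sob (n := s + 3) (N := i + (j + j')) (γ := wG s (i + (j + j'))) hs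
    (by omega) (by omega) (by linarith [h3.1]) (Or.inl (by linarith [h3.2])) i j j' (by omega)
    (by omega) (by omega) (by omega)
  exact ⟨C * E * E', fun x hx => H _ _ _ _ (h x hx) (h' x hx)⟩

theorem TpF.add (g : GdF Q s n j F) (g' : GdF Q s n j F') (h : TpF Q s j a F)
    (h' : TpF Q s j a' F') : TpF Q s j (fun x => a x + a' x) (F + F') :=
  let ⟨C, h⟩ := h; let ⟨C', h'⟩ := h'
  ⟨C + C', fun x hx => (l0.nn_add _ _ (g.cc x hx) (g'.cc x hx)).trans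
    (by linarith [h x hx, h' x hx])⟩

theorem TpF.smul (c : ℝ) (g : GdF Q s n j F) (h : TpF Q s j a F) :
    TpF Q s j (fun x => |c| * a x) (c • F) :=
  let ⟨C, h⟩ := h
  ⟨|c| * C, fun x hx => (l0.nn_smul _ _ c (g.cc x hx)).trans_le
    (mul_add |c| (a x) C ▸ mul_le_mul_of_nonneg_left (h x hx) (abs_nonneg c))⟩

theorem TpF.der (hj : j ≤ 2) (g : GdF Q s n j F) (h : TpF Q s j a F) (b : Fin 4) :
    TpF Q s (j + 1) a fun x => pd b (F x) :=
  let ⟨C, h⟩ := h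
  ⟨C, fun x hx => (l0.nn_succ _ _ (g.cc x hx) b).trans (by
    rw [show s + 3 - (j + 1) + 1 = s + 3 - j by omega]; exact h x hx)⟩

theorem TpF.sym0 (pr : ProdFacts) {c : Pt → ℝ} {A : ℝ} (hj : j ≤ 2) (hc : IsSym 0 c)
    (hA : Sym 0 0 c A) (h0 : 0 ≤ A) (g : GdF Q s (s + 3) j F) (h : TpF Q s j a F) :
    TpF Q s j (fun x => A * a x) fun x => c * F x := by
  obtain ⟨E, g⟩ := g
  obtain ⟨C', h⟩ := h
  have e : ((s + 3 - j : ℕ) : ℝ) + j = s + 3 := by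
    exact_mod_cast (by omega : s + 3 - j + j = s + 3)
  obtain ⟨C, H⟩ := symc l0 pr (γ := wT s) (s := s) (n := s + 3) (j := j) (k := s + 3 - j) hc hA
    (by omega) (by unfold wT; linarith) (by unfold wT; linarith)
  refine ⟨A * C' + C * E, fun x hx => ?_⟩
  have h1 := H _ _ (g x hx)
  have h2 := mul_le_mul_of_nonneg_left (h x hx) h0
  rw [sub_zero] at h1
  linarith

theorem TpF.sym1 (pr : ProdFacts) {c : Pt → ℝ} (hj : j ≤ 2) (hc : IsSym (-1) c)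
    (g : GdF Q s (s + 3) j F) : TpF Q s (j + 1) 0 fun x => c * F x := by
  obtain ⟨E, g⟩ := g
  have e : ((s + 3 - (j + 1) + j : ℕ) : ℝ) = s + 2 := by
    exact_mod_cast (by omega : s + 3 - (j + 1) + j = s + 2)
  obtain ⟨C, H⟩ := symd l0 pr (γ := wT s) (s := s) (n := s + 3) (j := j) (k := s + 3 - (j + 1)) hc
    (by omega) (le_wG (by unfold wT; linarith) (by unfold wT; linarith))
  exact ⟨C * E, fun x hx => by simpa using H _ _ (g x hx)⟩

theorem TpF.mul01 (sob : SobStmt) (hs : 12 ≤ s) (h1 : 1 ≤ j) (hj : j ≤ 2) {A : X → ℝ} {B : ℝ}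
    (g : GdF Q s (s + 3) 0 F) (hA : ∀ x, Q x → A x ≤ B ∧ ∀ y, |F x y| ≤ A x)
    (g' : GdF Q s (s + 3) j F') (h : TpF Q s j a F') :
    TpF Q s j (fun x => A x * a x) (F * F') := by
  obtain ⟨E, g⟩ := g
  obtain ⟨E', g'⟩ := g'
  obtain ⟨C', h⟩ := h
  obtain ⟨C, -, H⟩ := top l0 sob hs le_rfl (wT_le s).1 (wT_le s).2 (s + 3 - j) j (by omega)
    (by omega)
  refine ⟨B * |C'| + C * E * E', fun x hx => ?_⟩
  have h0 := (abs_nonneg _).trans ((hA x hx).2 0)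
  have h2 := H _ _ _ _ _ (g x hx) (hA x hx).2 (g' x hx)
  have h3 := mul_le_mul_of_nonneg_left (h x hx) h0
  have h4 : A x * C' ≤ B * |C'| :=
    (mul_le_mul_of_nonneg_left (le_abs_self _) h0).trans
      (mul_le_mul_of_nonneg_right (hA x hx).1 (abs_nonneg _))
  change nn _ _ (F x * F' x) ≤ _
  linarith

theorem TpF.mul11 (sob : SobStmt) (hs : 12 ≤ s) (g : GdF Q s (s + 3) 1 F)
    (g' : GdF Q s (s + 3) 1 F') : TpF Q s 2 0 (F * F') := by
  obtain ⟨E, g⟩ := g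
  obtain ⟨E', g'⟩ := g'
  obtain ⟨C, -, H⟩ := bl l0 sob (n := s + 3) hs (by omega) le_rfl (wT_le s).1 (wT_le s).2
    (s + 3 - 2) 1 1 (by omega) (by omega) (by omega) (by omega)
  exact ⟨C * E * E', fun x hx => by simpa using H _ _ _ _ (g x hx) (g' x hx)⟩

/-- Absorption. -/
theorem absorb {D V W : Fin 4 → Fin 4 → Pt → ℝ} {k : ℕ} {γ R R' : ℝ} (hD : ∀ a b, CC (D a b))
    (hV : ∀ a b, CC (V a b)) (hW : ∀ a b, CC (W a b))
    (e : ∀ a b, D a b = (-1 : ℝ) • (V a b + ∑ c, W c b * D a c))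
    (h1 : ∀ a b, nn k γ (V a b) ≤ R')
    (h2 : ∀ a b c, nn k γ (W c b * D a c) ≤ 1 / 8 * nn k γ (D a c) + R) (a b : Fin 4) :
    nn k γ (D a b) ≤ 8 * R' + 32 * R := by
  have hc : ∀ b c, CC (W c b * D a c) := fun b c => l0.cc_mul (hW c b).1 (hD a c)
  have h3 : ∀ b, nn k γ (D a b) ≤ R' + (1 / 8 * ∑ c, nn k γ (D a c) + 4 * R) := by
    intro b
    have h4 := cc_sum l0 Finset.univ (hc b)
    calc _ = nn k γ (V a b + ∑ c, W c b * D a c) := by
          conv_lhs => rw [e a b]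
          rw [l0.nn_smul k γ _ (l0.cc_add (hV a b) h4)]; simp
      _ ≤ R' + ∑ c, (1 / 8 * nn k γ (D a c) + R) := (l0.nn_add k γ (hV a b) h4).trans
          (add_le_add (h1 a b) ((nn_sum l0 k γ _ (hc b)).trans
            (Finset.sum_le_sum fun c _ => h2 a b c)))
      _ = _ := by simp [Finset.sum_add_distrib, ← Finset.mul_sum]
  have h5 := Finset.sum_le_card_nsmul Finset.univ _ _ fun b _ => h3 b
  have h6 := Finset.single_le_sum (f := fun b => nn k γ (D a b))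
    (fun _ _ => l0.nn_nonneg _ _ _) (Finset.mem_univ b)
  simp only [Finset.card_univ, Fintype.card_fin, nsmul_eq_mul] at h5
  push_cast at h5
  linarith

/-- The solution of `D = -(V + D W)` with small `W`. -/
theorem solve (sob : SobStmt) (hs : 12 ≤ s) {D V W : Fin 4 × Fin 4 → X → Pt → ℝ} {B : ℝ}
    (hD : ∀ α x, Q x → CC (D α x)) (hV : ∀ α, GdF Q s (s + 3) 0 (V α))
    (hW : ∀ α, GdF Q s (s + 3) 0 (W α)) (tV : ∀ α, TpF Q s 0 a (V α))
    (tW : ∀ α, TpF Q s 0 a' (W α)) (sW : ∀ α x, Q x → ∀ y, |W α x y| ≤ 1 / 8)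
    (sD : ∀ α x, Q x → ∀ y, |D α x y| ≤ B) (hB : 0 ≤ B)
    (e : ∀ x, Q x → ∀ a b, D (a, b) x = (-1 : ℝ) • (V (a, b) x + ∑ c, W (c, b) x * D (a, c) x))
    (α : Fin 4 × Fin 4) :
    GdF Q s (s + 3) 0 (D α) ∧ TpF Q s 0 (fun x => 8 * a x + 32 * (B * a' x)) (D α) := by
  obtain ⟨EV, hV⟩ := gdF_all hV
  obtain ⟨EW, hW⟩ := gdF_all hW
  have low : ∀ n ≤ s + 3, ∀ α, GdF Q s n 0 (D α) := by
    intro n
    induction n with
    | zero => exact fun _ α => gdF_of (hD α) fun i hi => by omega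
    | succ n ih =>
      intro hn α
      obtain ⟨E, hE⟩ := gdF_all (ih (by omega))
      refine gdF_of (hD α) fun i hi => ?_
      rcases (by omega : i + 0 < n ∨ i = n) with h | rfl
      · exact ⟨E, fun x hx => (hE α x hx).2.2 i h⟩
      have h3 := wG_le s (i + 0)
      obtain ⟨C, -, H⟩ := top l0 sob (n := i) (γ := wG s (i + 0)) hs (by omega)
        (by push_cast at h3; linarith [h3.1]) (Or.inl (by linarith [h3.2])) i 0 rfl (by omega)
      exact ⟨8 * EV + 32 * (C * EW * E), fun x hx => absorb l0 (D := fun a b => D (a, b) x)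
        (V := fun a b => V (a, b) x) (W := fun a b => W (a, b) x) (fun _ _ => hD _ x hx)
        (fun _ _ => (hV _ x hx).1) (fun _ _ => (hW _ x hx).1) (e x hx)
        (fun _ _ => (hV _ x hx).2.2 i (by omega))
        (fun _ _ _ => H _ _ _ _ _ (hW _ x hx) (sW _ x hx) (hE _ x hx)) α.1 α.2⟩
  refine ⟨low _ le_rfl α, ?_⟩
  obtain ⟨E, hE⟩ := gdF_all (low _ le_rfl)
  obtain ⟨C, -, H⟩ := top2 l0 sob hs
  choose CV tV using tV
  choose CW tW using tW
  obtain ⟨MV, hMV⟩ := (Set.finite_range CV).bddAbove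
  obtain ⟨MW, hMW⟩ := (Set.finite_range CW).bddAbove
  refine ⟨8 * MV + 32 * (B * MW + C * EW * E), fun x hx => ?_⟩
  have := absorb l0 (D := fun a b => D (a, b) x) (k := s + 3) (γ := wT s) (R' := a x + MV)
    (R := B * (a' x + MW) + C * EW * E)
    (V := fun a b => V (a, b) x) (W := fun a b => W (a, b) x) (fun _ _ => hD _ x hx)
    (fun _ _ => (hV _ x hx).1) (fun _ _ => (hW _ x hx).1) (e x hx)
    (fun a b => (tV _ x hx).trans (by linarith [hMV ⟨(a, b), rfl⟩]))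
    (fun a b c => (H _ _ _ _ _ _ (hW _ x hx) (sW _ x hx) (hE _ x hx) (sD _ x hx)).trans (by
      have h1 : nn (s + 3) (wT s) (W (c, b) x) ≤ a' x + MW :=
        (tW _ x hx).trans (by linarith [hMW ⟨(c, b), rfl⟩])
      linarith [mul_le_mul_of_nonneg_left h1 hB])) α.1 α.2
  change nn (s + 3) _ _ ≤ _
  linarith

end Fam

/-- Polynomial growth. -/
def Pol (φ : ℝ → ℝ) : Prop := ∃ q : ℕ, ∀ K : ℝ, 2 ≤ K → 0 ≤ φ K ∧ φ K ≤ K ^ q

omit l0 in
theorem Pol.mul {φ ψ : ℝ → ℝ} (h : Pol φ) (h' : Pol ψ) : Pol fun K => φ K * ψ K :=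
  let ⟨q, h⟩ := h; let ⟨q', h'⟩ := h'
  ⟨q + q', fun K hK => ⟨mul_nonneg (h K hK).1 (h' K hK).1, by
    rw [pow_add]; exact mul_le_mul (h K hK).2 (h' K hK).2 (h' K hK).1 (by positivity)⟩⟩

omit l0 in
theorem Pol.add {φ ψ : ℝ → ℝ} (h : Pol φ) (h' : Pol ψ) : Pol fun K => φ K + ψ K :=
  let ⟨q, h⟩ := h; let ⟨q', h'⟩ := h'
  ⟨q + q' + 1, fun K hK => ⟨add_nonneg (h K hK).1 (h' K hK).1, by
    have h1 : K ^ q ≤ K ^ (q + q') := pow_le_pow_right₀ (by linarith) (by omega)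
    have h2 : K ^ q' ≤ K ^ (q + q') := pow_le_pow_right₀ (by linarith) (by omega)
    have h3 : 0 ≤ K ^ (q + q') := by positivity
    rw [pow_succ]
    nlinarith [(h K hK).2, (h' K hK).2]⟩⟩

theorem pol_const {c : ℝ} (hc : 0 ≤ c) : Pol fun _ => c :=
  let ⟨p, h⟩ := l0.absorb c 0; ⟨p, fun K hK => ⟨hc, by simpa using h K hK⟩⟩

omit l0 in
theorem pol_pow (q : ℕ) : Pol fun K => K ^ q := ⟨q, fun K hK => ⟨by positivity, le_rfl⟩⟩

omit l0 in
theorem pol_id : Pol fun K => K := by simpa using pol_pow 1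

abbrev UU : Type := Fin 4 × Fin 4 → Pt → ℝ
abbrev RR : Type := (Pt → Mat) × UU → Pt → ℝ

structure Hyp (K : ℝ) (g : Pt → Mat) : Prop where
  two : 2 ≤ K
  gK : ∀ a b, Sym 0 0 (gf g a b) K
  Gs : ∀ a b, IsSym 0 (Gf g a b)
  GK : ∀ a b, Sym 0 0 (Gf g a b) K
  chr : ∀ k a b, IsSym (-1) (chrF g k a b)
  met : IsMetricOn g Set.univ
  ell : ∀ y ξ, K⁻¹ * nsq ξ ≤ qf (g y) ξ

noncomputable def rho (u : UU) : ℝ := XV 12 (1 / 2) u
noncomputable def TT (s : ℕ) (u : UU) : ℝ := nV (s + 3) (wT s) u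

def Ok (C₀ K : ℝ) (s : ℕ) (M : ℝ) (u : UU) : Prop :=
  Adm Prod.swap u ∧ rho u ≤ 1 ∧ 32 * C₀ * K * rho u ≤ 1 ∧ XV s (1 / 2) u ≤ M

def Cl (C₀ : ℝ) (w : UU → ℝ) (j : ℕ) (F : RR) : Prop :=
  ∃ φ, Pol φ ∧ ∀ K g, Hyp K g → ∀ s, 12 ≤ s → ∀ M,
    GdF (Ok C₀ K s M) s (s + 3) j (fun u => F (g, u)) ∧
      TpF (Ok C₀ K s M) s j (fun u => φ K * (w u * TT s u)) fun u => F (g, u)

def Zs (C₀ : ℝ) (F : RR) : Prop :=
  ∃ φ, Pol φ ∧ ∀ K g, Hyp K g → ∀ s M u, Ok C₀ K s M u → ∀ y, |F (g, u) y| ≤ φ K * rho u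

noncomputable def DD (a : Fin 4) (F : RR) : RR := fun z => pd a (F z)
noncomputable def GG (a b : Fin 4) : RR := fun z => Gf z.1 a b
noncomputable def Ch (k a b : Fin 4) : RR := fun z => chrF z.1 k a b
noncomputable def Dm (a b : Fin 4) : RR := fun z => Gf (addM z.1 z.2) a b - Gf z.1 a b
def hh (a b : Fin 4) : RR := fun z => z.2 (a, b)

theorem yn_nonneg (t s : ℕ) (δ : ℝ) (f : Pt → ℝ) : 0 ≤ Yn t s δ f :=
  Finset.sum_nonneg fun _ _ => l0.nn_nonneg _ _ _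

theorem rho_nonneg (u : UU) : 0 ≤ rho u := by
  unfold rho XV
  exact Finset.sum_nonneg fun _ _ => yn_nonneg l0 _ _ _ _

theorem TT_nonneg (s : ℕ) (u : UU) : 0 ≤ TT s u := by
  unfold TT nV
  exact Finset.sum_nonneg fun _ _ => l0.nn_nonneg _ _ _

theorem gd_u (s : ℕ) {u : UU} (h : ∀ α, CC (u α)) (α : Fin 4 × Fin 4) :
    Gd s (s + 3) 0 (u α) (XV s (1 / 2) u) :=
  ⟨h α, Finset.sum_nonneg fun _ _ => yn_nonneg l0 _ _ _ _, fun _ hi =>
    (Finset.single_le_sum (f := fun k => nn k (wG s k) (u α)) (fun _ _ => l0.nn_nonneg _ _ _)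
      (Finset.mem_range.2 hi)).trans (Finset.single_le_sum (f := fun α => Yn (s + 2) s (1 / 2) (u α))
      (fun _ _ => yn_nonneg l0 _ _ _ _) (Finset.mem_univ α))⟩

section Cl

variable {C₀ : ℝ} {w w' : UU → ℝ} {j : ℕ} {F F' : RR}

theorem cl_zero : Cl C₀ w j 0 :=
  ⟨fun _ => 0, pol_const l0 le_rfl, fun _ _ _ _ _ _ =>
    ⟨gdF_zero l0, 0, fun _ _ => (nn_zero l0 _ _).trans_le (by simp)⟩⟩

theorem Cl.add (h : Cl C₀ w j F) (h' : Cl C₀ w j F') : Cl C₀ w j (F + F') :=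
  let ⟨_, p, h⟩ := h; let ⟨_, p', h'⟩ := h'
  ⟨_, p.add p', fun K g hg s hs M => ⟨(h K g hg s hs M).1.add l0 (h' K g hg s hs M).1,
    (TpF.add l0 (h K g hg s hs M).1 (h' K g hg s hs M).1 (h K g hg s hs M).2
      (h' K g hg s hs M).2).mono fun _ _ => le_of_eq (by ring)⟩⟩

theorem Cl.smul (c : ℝ) (h : Cl C₀ w j F) : Cl C₀ w j (c • F) :=
  let ⟨_, p, h⟩ := h
  ⟨_, (pol_const l0 (abs_nonneg c)).mul p, fun K g hg s hs M => ⟨(h K g hg s hs M).1.smul l0 c,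
    (TpF.smul l0 c (h K g hg s hs M).1 (h K g hg s hs M).2).mono fun _ _ => le_of_eq (by ring)⟩⟩

theorem Cl.sub (h : Cl C₀ w j F) (h' : Cl C₀ w j F') : Cl C₀ w j (F - F') := by
  simpa [sub_eq_add_neg] using h.add l0 (h'.smul l0 (-1))

theorem cl_sum {f : Fin 4 → RR} (h : ∀ i, Cl C₀ w j (f i)) : Cl C₀ w j (∑ i, f i) :=
  Finset.sum_induction f _ (fun _ _ => Cl.add l0) (cl_zero l0) fun i _ => h i

theorem Cl.der (h : Cl C₀ w j F) (hj : j ≤ 2) (a : Fin 4) : Cl C₀ w (j + 1) (DD a F) :=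
  let ⟨_, p, h⟩ := h
  ⟨_, p, fun K g hg s hs M => ⟨(h K g hg s hs M).1.der l0 a,
    TpF.der l0 hj (h K g hg s hs M).1 (h K g hg s hs M).2 a⟩⟩

theorem Cl.mulG (pr : ProdFacts) (h : Cl C₀ w j F) (hj : j ≤ 2) (a b : Fin 4) :
    Cl C₀ w j (GG a b * F) :=
  let ⟨_, p, h⟩ := h
  ⟨_, pol_id.mul p, fun K g hg s hs M =>
    ⟨GdF.sym l0 (j' := 0) pr (by simpa using hg.Gs a b) (h K g hg s hs M).1,
      (TpF.sym0 l0 pr hj (hg.Gs a b) (hg.GK a b) (by linarith [hg.two]) (h K g hg s hs M).1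
        (h K g hg s hs M).2).mono fun _ _ => le_of_eq (by ring)⟩⟩

theorem Cl.mulC (pr : ProdFacts) (h : Cl C₀ w j F) (hj : j ≤ 2) (k a b : Fin 4) :
    Cl C₀ w' (j + 1) (Ch k a b * F) :=
  let ⟨_, _, h⟩ := h
  ⟨fun _ => 0, pol_const l0 le_rfl, fun K g hg s hs M =>
    ⟨GdF.sym l0 (j' := 1) pr (by simpa using hg.chr k a b) (h K g hg s hs M).1,
      (TpF.sym1 l0 pr hj (hg.chr k a b) (h K g hg s hs M).1).mono fun _ _ => by simp⟩⟩

theorem Cl.mul11 (sob : SobStmt) (h : Cl C₀ w 1 F) (h' : Cl C₀ w 1 F') : Cl C₀ w' 2 (F * F') :=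
  let ⟨_, _, h⟩ := h; let ⟨_, _, h'⟩ := h'
  ⟨fun _ => 0, pol_const l0 le_rfl, fun K g hg s hs M =>
    ⟨GdF.mul l0 sob hs (h K g hg s hs M).1 (h' K g hg s hs M).1,
      (TpF.mul11 l0 sob hs (h K g hg s hs M).1 (h' K g hg s hs M).1).mono fun _ _ => by simp⟩⟩

theorem Cl.mul01 (sob : SobStmt) (z : Zs C₀ F) (h : Cl C₀ w 0 F) (h' : Cl C₀ 1 j F') (h1 : 1 ≤ j)
    (hj : j ≤ 2) : Cl C₀ rho j (F * F') :=
  let ⟨φ, p, z⟩ := z; let ⟨_, _, h⟩ := h; let ⟨_, p', h'⟩ := h'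
  ⟨_, p.mul p', fun K g hg s hs M =>
    ⟨zero_add j ▸ GdF.mul l0 sob hs (h K g hg s hs M).1 (h' K g hg s hs M).1,
      (TpF.mul01 l0 sob hs h1 hj (B := φ K) (h K g hg s hs M).1 (fun u hu =>
        ⟨mul_le_of_le_one_right (p.choose_spec K hg.two).1 hu.2.1, z K g hg s M u hu⟩)
        (h' K g hg s hs M).1 (h' K g hg s hs M).2).mono fun _ _ => le_of_eq (by simp; ring)⟩⟩

theorem Cl.down (h : Cl C₀ rho j F) : Cl C₀ 1 j F :=
  let ⟨_, p, h⟩ := h
  ⟨_, p, fun K g hg s hs M => ⟨(h K g hg s hs M).1, (h K g hg s hs M).2.mono fun u hu =>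
    mul_le_mul_of_nonneg_left (mul_le_mul_of_nonneg_right hu.2.1 (TT_nonneg l0 s u))
      (p.choose_spec K hg.two).1⟩⟩

theorem cl_hh (a b : Fin 4) : Cl C₀ 1 0 (hh a b) :=
  ⟨fun _ => 1, pol_const l0 zero_le_one, fun _ _ _ s _ M =>
    ⟨⟨M, fun _ hu => (gd_u l0 s hu.1.1 _).mono hu.2.2.2⟩, 0, fun u _ => by
      simpa [hh, TT, nV] using Finset.single_le_sum (f := fun α => nn (s + 3) (wT s) (u α))
        (fun _ _ => l0.nn_nonneg _ _ _) (Finset.mem_univ (a, b))⟩⟩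

theorem quad (sob : SobStmt) (pr : ProdFacts) (zh : ∀ a b, Zs C₀ (hh a b))
    (zD : ∀ a b, Zs C₀ (Dm a b)) (cD : ∀ a b, Cl C₀ 1 0 (Dm a b)) (a b : Fin 4) :
    Cl C₀ rho 2 (gQ DD GG Ch Dm hh a b) := by
  have ch := cl_hh l0 (C₀ := C₀)
  have cov : ∀ c a b, Cl C₀ 1 1 (gCov2 DD Ch hh c a b) := fun c a b =>
    ((ch a b).der l0 (by omega) c).sub l0 (cl_sum l0 fun m =>
      ((ch _ _).mulC l0 pr (by omega) _ _ _).add l0 ((ch _ _).mulC l0 pr (by omega) _ _ _))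
  have cS : ∀ c a b, Cl C₀ 1 1 (gS DD Ch hh c a b) := fun c a b =>
    (((cov _ _ _).add l0 (cov _ _ _)).sub l0 (cov _ _ _)).smul l0 _
  have u0 : ∀ c a b, Cl C₀ 1 1 (gUp GG (gS DD Ch hh) c a b) := fun c a b =>
    cl_sum l0 fun _ => (cS _ _ _).mulG l0 pr (by omega) _ _
  have u1 : ∀ c a b, Cl C₀ rho 1 (gUp Dm (gS DD Ch hh) c a b) := fun c a b =>
    cl_sum l0 fun _ => Cl.mul01 l0 sob (zD _ _) (cD _ _) (cS _ _ _) le_rfl (by omega)
  have u2 : ∀ c a b, Cl C₀ 1 1 (gUp (fun i j => GG i j + Dm i j) (gS DD Ch hh) c a b) := by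
    intro c a b
    simpa only [gUp, add_mul, Finset.sum_add_distrib] using (u0 c a b).add l0 ((u1 c a b).down l0)
  have cW : ∀ k, Cl C₀ 1 1 (gW DD GG Ch hh k) := fun k =>
    cl_sum l0 fun _ => cl_sum l0 fun _ => (u0 _ _ _).mulG l0 pr (by omega) _ _
  have cC : ∀ e c a b, Cl C₀ rho 2 (gCovC DD Ch (gUp Dm (gS DD Ch hh)) e c a b) := fun e c a b =>
    ((u1 _ _ _).der l0 (by omega) e).add l0 (cl_sum l0 fun m =>
      (((u1 _ _ _).mulC l0 pr (by omega) _ _ _).sub l0 ((u1 _ _ _).mulC l0 pr (by omega) _ _ _)).sub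
        l0 ((u1 _ _ _).mulC l0 pr (by omega) _ _ _))
  have hW : ∀ a b c d, Cl C₀ rho 2 (hh a b * DD c (gW DD GG Ch hh d)) := fun a b c d =>
    Cl.mul01 l0 sob (zh _ _) (ch _ _) ((cW d).der l0 (by omega) c) (by omega) le_rfl
  exact (((cl_sum l0 fun c => (cC _ _ _ _).sub l0 (cC _ _ _ _)).add l0 (cl_sum l0 fun c =>
    cl_sum l0 fun d => ((u2 _ _ _).mul11 l0 sob (u2 _ _ _)).sub l0
      ((u2 _ _ _).mul11 l0 sob (u2 _ _ _)))).smul l0 _).add l0 (cl_sum l0 fun c =>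
    (((cW c).mul11 l0 sob ((ch a b).der l0 (by omega) c)).add l0 (hW _ _ _ _)).add l0 (hW _ _ _ _))

end Cl

omit l0 in
theorem qf_add (g : Pt → Mat) (u : UU) (y ξ : Pt) {ε : ℝ} (h : ∀ α, |u α y| ≤ ε) :
    qf (g y) ξ - 16 * (ε * nsq ξ) ≤ qf (addM g u y) ξ := by
  have h0 := (abs_nonneg _).trans (h (0, 0))
  have h1 : ∀ a, ξ a ^ 2 ≤ nsq ξ := fun a => Finset.single_le_sum (f := fun a => ξ a ^ 2)
    (fun _ _ => sq_nonneg _) (Finset.mem_univ a)
  have h2 : ∀ a b, -(ε * nsq ξ) ≤ u (a, b) y * (ξ a * ξ b) := by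
    intro a b
    refine (abs_le.1 ?_).1
    rw [abs_mul]
    refine mul_le_mul (h _) (abs_le.2 ⟨?_, ?_⟩) (abs_nonneg _) h0
    · nlinarith [h1 a, h1 b, sq_nonneg (ξ a + ξ b)]
    · nlinarith [h1 a, h1 b, sq_nonneg (ξ a - ξ b)]
  have h3 : ∑ _a : Fin 4, ∑ _b : Fin 4, -(ε * nsq ξ) ≤ ∑ a, ∑ b, u (a, b) y * (ξ a * ξ b) :=
    Finset.sum_le_sum fun a _ => Finset.sum_le_sum fun b _ => h2 a b
  simp only [qf, addM, Matrix.add_apply, Matrix.of_apply, add_mul, Finset.sum_add_distrib]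
  simp only [Finset.sum_const, Finset.card_univ, Fintype.card_fin, nsmul_eq_mul] at h3
  push_cast at h3
  linarith

theorem inv_facts : ∃ p : ℕ, ∀ K g, Hyp K g → ∀ (u : UU) (ε : ℝ), Adm Prod.swap u →
    (∀ α y, |u α y| ≤ ε) → 32 * K * ε ≤ 1 → (∀ a b, ContDiff ℝ ∞ (Gf (addM g u) a b)) ∧
      (∀ a b y, |Gf (addM g u) a b y| ≤ (2 * K) ^ p) ∧ ∀ y, (addM g u y).PosDef := by
  obtain ⟨p, H⟩ := l0.inv 0
  refine ⟨p, fun K g hg u ε hu h1 h2 => ?_⟩
  have hK := hg.two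
  have h0 := (abs_nonneg _).trans (h1 (0, 0) 0)
  have h3 : 16 * ε ≤ (2 * K)⁻¹ := by
    rw [inv_eq_one_div, le_div_iff₀ (by linarith)]; linarith
  obtain ⟨a1, a2, a3⟩ := H Set.univ (addM g u) (2 * K) (by linarith)
    (fun a b y _ => (contDiffOn_univ.1 (hg.met.1 a b)).contDiffAt.add (hu.1 (a, b)).1.contDiffAt)
    (fun y => (Matrix.isHermitian_iff_isSymm.1 (hg.met.2 y trivial).1).add (Matrix.IsSymm.ext fun a b =>
      congrFun (hu.2 (a, b)) y))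
    (fun a b y _ => by
      have h4 : |g y a b| ≤ K * wt 0 y := hg.gK a b y trivial
      change |g y a b + u (a, b) y| ≤ _
      rw [l0.wt_zero] at h4 ⊢
      nlinarith [abs_add_le (g y a b) (u (a, b) y), h1 (a, b) y])
    (fun y _ ξ => by
      have h4 : 0 ≤ nsq ξ := Finset.sum_nonneg fun _ _ => sq_nonneg _
      have h5 : K⁻¹ = 2 * (2 * K)⁻¹ := by field_simp
      have h6 := hg.ell y ξ
      rw [h5] at h6
      nlinarith [qf_add g u y ξ (h1 · y), mul_le_mul_of_nonneg_right h3 h4])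
  exact ⟨fun a b => contDiff_iff_contDiffAt.2 fun y => a1 a b y trivial,
    fun a b y => (a2 a b y trivial : |_| ≤ _).trans_eq (by rw [l0.wt_zero, mul_one]),
    fun y => (a3 y trivial).1⟩

noncomputable def WW (c b : Fin 4) : RR := ∑ d, GG d b * hh c d

omit l0 in
theorem dm_eq {g : Pt → Mat} {u : UU} (h : ∀ y, (g y).PosDef) (h' : ∀ y, (addM g u y).PosDef)
    (a b : Fin 4) : Dm a b (g, u) = (-1 : ℝ) • ∑ c, Gf (addM g u) a c * WW c b (g, u) := by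
  funext y
  have := congrFun (congrFun (Matrix.inv_sub_inv (A := addM g u y) (B := g y)
    (iff_of_true (h' y).isUnit (h y).isUnit)) a) b
  rw [Matrix.mul_assoc] at this
  simp only [Dm, Gf, Pi.sub_apply]
  refine this.trans ?_
  simp [Matrix.mul_apply, addM, WW, GG, hh, Gf, Finset.sum_apply, mul_comm]

theorem dm (sob : SobStmt) (pr : ProdFacts) {C₀ : ℝ} (hC : 0 ≤ C₀)
    (hu : ∀ u : UU, (∀ α, CC (u α)) → ∀ α y, |u α y| ≤ C₀ * rho u) (a b : Fin 4) :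
    Zs C₀ (Dm a b) ∧ Cl C₀ 1 0 (Dm a b) := by
  obtain ⟨p, H⟩ := inv_facts l0
  have cW : ∀ α : Fin 4 × Fin 4, Cl C₀ 1 0 (WW α.1 α.2) := fun α =>
    cl_sum l0 fun _ => (cl_hh l0 _ _).mulG l0 pr (by omega) _ _
  have cV : ∀ α : Fin 4 × Fin 4, Cl C₀ 1 0 (∑ c, GG α.1 c * WW c α.2) := fun α =>
    cl_sum l0 fun c => (cW (c, α.2)).mulG l0 pr (by omega) _ _
  have sW : ∀ K g, Hyp K g → ∀ u : UU, (∀ α, CC (u α)) → ∀ c b y,
      |WW c b (g, u) y| ≤ 4 * (K * (C₀ * rho u)) := by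
    intro K g hg u h c b y
    simp only [WW, Finset.sum_apply, Pi.mul_apply]
    refine (Finset.abs_sum_le_sum_abs _ _).trans ((Finset.sum_le_card_nsmul _ _
      (K * (C₀ * rho u)) fun d _ => ?_).trans (by simp))
    have h4 : |Gf g d b y| ≤ K * wt 0 y := hg.GK d b y trivial
    rw [l0.wt_zero, mul_one] at h4
    rw [abs_mul]
    exact mul_le_mul h4 (hu u h (c, d) y) (abs_nonneg _) (by linarith [hg.two])
  have HH : ∀ K g, Hyp K g → ∀ s M u, Ok C₀ K s M u → _ := fun K g hg s M u h =>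
    H K g hg u _ h.1 (hu u h.1.1) (by linarith [h.2.2.1])
  have pD : Pol fun K => (16 * C₀ * 2 ^ p) * K ^ (p + 1) :=
    (pol_const l0 (by positivity)).mul (pol_pow _)
  have sD : ∀ K g, Hyp K g → ∀ s M u, Ok C₀ K s M u → ∀ a b y,
      |Dm a b (g, u) y| ≤ (16 * C₀ * 2 ^ p) * K ^ (p + 1) * rho u := by
    intro K g hg s M u h a b y
    obtain ⟨-, h2, h3⟩ := HH K g hg s M u h
    rw [dm_eq (fun y => hg.met.2 y trivial) h3]
    simp only [Pi.smul_apply, Finset.sum_apply, Pi.mul_apply, smul_eq_mul, neg_mul, one_mul,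
      abs_neg]
    refine (Finset.abs_sum_le_sum_abs _ _).trans ((Finset.sum_le_card_nsmul _ _
      ((2 * K) ^ p * (4 * (K * (C₀ * rho u)))) fun d _ => ?_).trans (le_of_eq (by simp; ring)))
    rw [abs_mul]
    exact mul_le_mul (h2 _ _ _) (sW K g hg u h.1.1 _ _ _) (abs_nonneg _)
      ((abs_nonneg _).trans (h2 a a y))
  refine ⟨⟨_, pD, fun K g hg s M u h => sD K g hg s M u h a b⟩, ?_⟩
  choose φ pφ cV using cV
  choose ψ pψ cW using cW
  have sp : ∀ φ : Fin 4 × Fin 4 → ℝ → ℝ, (∀ α, Pol (φ α)) → Pol fun K => ∑ α, φ α K := by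
    intro φ h
    simpa [Finset.sum_fn] using Finset.sum_induction φ Pol (fun _ _ => Pol.add)
      (pol_const l0 le_rfl) (s := Finset.univ) fun α _ => h α
  have le : ∀ φ : Fin 4 × Fin 4 → ℝ → ℝ, (∀ α, Pol (φ α)) → ∀ K, 2 ≤ K → ∀ α s u,
      φ α K * ((1 : UU → ℝ) u * TT s u) ≤ (∑ α, φ α K) * TT s u := fun φ h K hK α s u => by
    rw [Pi.one_apply, one_mul]
    exact mul_le_mul_of_nonneg_right (Finset.single_le_sum (f := fun α => φ α K)
      (fun α _ => ((h α).choose_spec K hK).1) (Finset.mem_univ α)) (TT_nonneg l0 s u)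
  refine ⟨_, ((pol_const l0 (c := 8) (by norm_num)).mul (sp φ pφ)).add
    ((pol_const l0 (c := 32) (by norm_num)).mul (pD.mul (sp ψ pψ))), fun K g hg s hs M => ?_⟩
  have h0 := (pD.choose_spec K hg.two).1
  have key := solve l0 sob hs (Q := Ok C₀ K s M) (D := fun α u => Dm α.1 α.2 (g, u))
    (B := (16 * C₀ * 2 ^ p) * K ^ (p + 1)) (fun α u h => by
      obtain ⟨h1, -, h3⟩ := HH K g hg s M u h
      rw [dm_eq (fun y => hg.met.2 y trivial) h3]
      exact cc_smul l0 _ (cc_sum l0 _ fun c =>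
        l0.cc_mul (h1 _ _) ((cW (c, α.2) K g hg s hs M).1.cc u h)))
    (fun α => (cV α K g hg s hs M).1) (fun α => (cW α K g hg s hs M).1)
    (fun α => (cV α K g hg s hs M).2.mono fun u _ => le φ pφ K hg.two α s u)
    (fun α => (cW α K g hg s hs M).2.mono fun u _ => le ψ pψ K hg.two α s u)
    (fun α u h y => (sW K g hg u h.1.1 _ _ y).trans (by linarith [h.2.2.1]))
    (fun α u h y => (sD K g hg s M u h _ _ y).trans (mul_le_of_le_one_right h0 h.2.1)) h0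
    (fun u h a b => by
      rw [dm_eq (fun y => hg.met.2 y trivial) (HH K g hg s M u h).2.2, Finset.sum_apply,
        ← Finset.sum_add_distrib]
      refine congrArg _ (Finset.sum_congr rfl fun c _ => ?_)
      simp only [Dm, GG, Pi.mul_apply]
      ring) (a, b)
  exact ⟨key.1, key.2.mono fun u _ => le_of_eq (by simp; ring)⟩

theorem main (sob : SobStmt) (pr : ProdFacts) : ∃ q : ℕ, ∀ K g, Hyp K g → ∀ s : ℕ, 12 ≤ s →
    ∀ M : ℝ, ∃ C : ℝ, ∀ u, Adm Prod.swap u → rho u ≤ (K ^ q)⁻¹ → XV s (1 / 2) u ≤ M →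
      nV (s + 1) (wT s) (nlQ g u) ≤ K ^ q * rho u * TT s u + C := by
  obtain ⟨C₀, hC, H⟩ := sup l0 sob 0
  have hu : ∀ u : UU, (∀ α, CC (u α)) → ∀ α y, |u α y| ≤ C₀ * rho u := fun u h α y => by
    refine (H 12 _ _ _ (by omega) (by omega) (gd_u l0 12 h α) y).trans
      (mul_le_of_le_one_right (mul_nonneg hC (rho_nonneg l0 u)) ?_)
    exact (l0.wt_mono (by norm_num) y).trans_eq (l0.wt_zero y)
  have hq := fun α : Fin 4 × Fin 4 => quad l0 sob pr (C₀ := C₀)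
    (fun a b => ⟨_, pol_const l0 hC, fun _ _ _ _ _ u h => hu u h.1.1 _⟩)
    (fun a b => (dm l0 sob pr hC hu a b).1) (fun a b => (dm l0 sob pr hC hu a b).2) α.1 α.2
  choose φ pφ hq using hq
  have sp : Pol fun K => ∑ α, φ α K := by
    simpa [Finset.sum_fn] using Finset.sum_induction φ Pol (fun _ _ => Pol.add)
      (pol_const l0 le_rfl) (s := Finset.univ) fun α _ => pφ α
  obtain ⟨q, hp⟩ := sp.add ((pol_const l0 (c := 32 * C₀) (by positivity)).mul pol_id)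
  refine ⟨q, fun K g hg s hs M => ?_⟩
  choose C hq using fun α => (hq α K g hg s hs M).2
  refine ⟨∑ α, C α, fun u h1 h2 h3 => ?_⟩
  have hK := hg.two
  have h4 := (sp.choose_spec K hK).1
  have h5 := (hp K hK).2
  have h6 : 0 ≤ 32 * C₀ * K := by positivity
  have h7 := rho_nonneg l0 u
  have h8 : K ^ q * rho u ≤ 1 := by
    rwa [inv_eq_one_div, le_div_iff₀ (by positivity), mul_comm] at h2
  have h9 : 1 ≤ K ^ q := one_le_pow₀ (by linarith)
  have ok : Ok C₀ K s M u := ⟨h1, by nlinarith, by nlinarith, h3⟩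
  have e : ∀ α, nlQ g u α = gQ DD GG Ch Dm hh α.1 α.2 (g, u) := fun α =>
    (map_gQ (D := DD) (D' := pd) (Pi.evalAlgHom ℝ (fun _ => Pt → ℝ) (g, u)) (fun _ _ => rfl)
      GG Ch Dm hh α.1 α.2).symm
  calc _ ≤ ∑ α, (φ α K * (rho u * TT s u) + C α) :=
        Finset.sum_le_sum fun α _ => e α ▸ hq α u ok
    _ = (∑ α, φ α K) * (rho u * TT s u) + ∑ α, C α := by
        rw [Finset.sum_add_distrib, Finset.sum_mul]
    _ ≤ _ := by
        rw [mul_assoc]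
        gcongr
        · exact mul_nonneg h7 (TT_nonneg l0 s u)
        · linarith

end L0

end QtTop

open QtTop in
theorem qtTop (_b1 : B1Stmt) (l0 : L0Facts) (m0 : M0Stmt) (sob : SobStmt) (pr : ProdFacts)
    (t9 : T9Stmt) : QtTopStmt := by
  intro I l Λ hΛ g hE hg
  have M0 := m0.1 I l Λ hΛ
  obtain ⟨hG, hm, -⟩ := M0.inv g hE hg
  have hΓ := ((t9.1 _ _ _ _ M0.grd_mod).chr _ _ hg hG).1
  obtain ⟨q, H⟩ := main l0 sob pr
  have un : ∀ F : Fin 4 → Fin 4 → I → Pt → ℝ, (∀ a b, Mod l Λ 0 (F a b)) → ∃ p : ℕ, ∀ p' ≥ p,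
      ∀ᶠ i in l, ∀ a b, Sym 0 0 (F a b i) (Λ i ^ p') := by
    intro F hF
    choose p hp using fun a b => ((hF a b).2 0).2
    refine ⟨∑ a, ∑ b, p a b, fun p' hp' => ?_⟩
    simp only [eventually_all]
    intro a b
    have : p a b ≤ p' := ((Finset.single_le_sum (f := fun b => p a b) (fun _ _ => Nat.zero_le _)
      (Finset.mem_univ b)).trans (Finset.single_le_sum (f := fun a => ∑ b, p a b)
      (fun _ _ => Nat.zero_le _) (Finset.mem_univ a))).trans hp'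
    filter_upwards [hp a b] with i hi using l0.mono hi subset_rfl le_rfl le_rfl
      (pow_le_pow_right₀ (by linarith [hΛ i]) this)
  obtain ⟨p1, h1⟩ := un _ hg
  obtain ⟨p2, h2⟩ := un _ hG
  obtain ⟨p3, h3⟩ := hE.2
  refine ⟨(p1 + p2 + p3 + 1) * q, ?_⟩
  have h4 : ∀ᶠ i in l, ∀ a b, IsSym 0 (Gf (g i) a b) := by
    simp only [eventually_all]; exact fun a b => (hG a b).1
  have h5 : ∀ᶠ i in l, ∀ k a b, IsSym (-1) (chrF (g i) k a b) := by
    simp only [eventually_all]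
    intro k a b
    filter_upwards [(hΓ k a b).1] with i hi
    have e : gChr fD (fun a b i => gf (g i) a b) (fun a b i => Gf (g i) a b) k a b i =
        chrF (g i) k a b := map_gChr (D := fD) (D' := pd) (Pi.evalAlgHom ℝ (fun _ => Pt → ℝ) i)
      (fun _ _ => rfl) (fun a b i => gf (g i) a b) (fun a b i => Gf (g i) a b) k a b
    exact e ▸ hi
  filter_upwards [h1 (p1 + p2 + p3 + 1) (by omega), h2 (p1 + p2 + p3 + 1) (by omega), h3, h4, h5,
    hm] with i a1 a2 a3 a4 a5 a6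
  have hL := hΛ i
  rw [pow_mul]
  refine H _ _ ⟨hL.trans (le_self_pow₀ (by linarith) (by omega)), a1, a4, a2, a5, a6,
    fun y ξ => le_trans ?_ (a3 y ξ)⟩
  exact mul_le_mul_of_nonneg_right (inv_anti₀ (by positivity)
    (pow_le_pow_right₀ (by linarith) (by omega))) (Finset.sum_nonneg fun _ _ => sq_nonneg _)

end Pool.Agent.Lib.MP_df9110_gt
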