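import Pool.Agent.Lib.MP_df9110_gt.LayBlkb
import Pool.Agent.Lib.MP_df9110_gt.Ca2

-- part Pool.Agent.Lib.MP_df9110_gt.LayBlk
section

/-! Pointwise properties of the block metric of the layer. -/

namespace Pool.Agent.Lib.MP_df9110_gt

open Filter Topology Set
open scoped ContDiff

namespace LayBlk

theorem gen (lb : LayBasicStmt) (hg : LayHGStmt) {R S T : Type} [CommRing R] [Algebra ℝ R]
    [CommRing S] [Algebra ℝ S] [CommRing T] [Algebra ℝ T] [IsReduced T] {D : Fin 2 → R → R}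
    {E : R → R} {D' : Fin 2 → S → S} {E' : S → S} {D'' : Fin 2 → T → T} {E'' : T → T}
    (ρ : R →ₐ[ℝ] T) (π : S →ₐ[ℝ] T) (r : R → S) (mk : ∀ φ, π (r φ) = ρ φ)
    (hD : ∀ i a, ρ (D i a) = D'' i (ρ a)) (hE : ∀ a, ρ (E a) = E'' (ρ a))
    (mD : ∀ i a, π (D' i a) = D'' i (π a)) (mE : ∀ a, π (E' a) = E'' (π a)) (X' : IsDer D'')
    (X : IsExp D'' E'') {G : Lay R} {ee : Fin 5 → R} (hok : G.Ok D E)
    (e16 : E (Real.log 16 • 1) = 16) (he : ∀ k, k ≠ 3 → ee k = G.e D E k)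
    (h3 : G.μ E * ee 3 = G.μ E * G.e₄ D E + G.zo D E) (hlal : G.lal D E * G.al E = D 1 (G.al E))
    (hXe : G.Xe D E * G.al E = G.ε * G.Xi D E) :
    π ((G.map r).μ E') = ρ (G.μ E) ∧ π ((G.map r).al E') = ρ (G.al E) ∧
    ∀ (εi μi ali Lg φ ν h : S) (c : ℝ), π (r G.ε * εi) = π 1 → π ((G.map r).μ E') * π μi = 1 →
      π ((G.map r).al E') * π ali = 1 → π (E' Lg) = π (r (G.μ E)) →
      π ν = π (E' ((1 / 4 : ℝ) • Lg)) → φ = c • (ν * (1 + h)) → D' 1 h = 0 →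
      (((G.map r).blk D' E' εi μi ali).map π).Ok ∧ Rel (fun x y => π x = π y) ((gq D E G ee).map r)
        (bq D' ((G.map r).blk D' E' εi μi ali) Lg φ ν h) c := by
  have e1 : (G.map r).map π = G.map ρ := by simp only [Lay.map, mk]
  have qμ : π ((G.map r).μ E') = ρ (G.μ E) := by rw [← Lay.map_μ π mD mE, e1, Lay.map_μ ρ hD hE]
  have qa : π ((G.map r).al E') = ρ (G.al E) := by rw [← Lay.map_al π mD mE, e1, Lay.map_al ρ hD hE]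
  refine ⟨qμ, qa, fun εi μi ali Lg φ ν h c a1 a2 a3 a4 a5 a6 a7 => ?_⟩
  have e3 : ((G.map r).blk D' E' εi μi ali).map π =
      (G.map ρ).blk D'' E'' (π εi) (π μi) (π ali) := by rw [← Lay.map_blk π mD mE, e1]
  have U : (G.map ρ).Unit D'' E'' (π εi) (π μi) (π ali) :=
    ⟨by rw [Lay.map_ε, ← mk, ← map_mul, a1, map_one], by rw [Lay.map_μ ρ hD hE, ← qμ, a2],
    by rw [Lay.map_al ρ hD hE, ← qa, a3],
    by rw [Lay.map_lal ρ hD hE, Lay.map_al ρ hD hE, ← map_mul, hlal, hD],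
    by rw [Lay.map_Xe ρ hD hE, Lay.map_al ρ hD hE, ← map_mul, hXe, map_mul, Lay.map_Xi ρ hD hE,
      Lay.map_ε]⟩
  have f16 : E'' (Real.log 16 • 1) = 16 := by
    simpa only [hE, map_smul, map_one, map_ofNat] using congrArg ρ e16
  have ok := hok.map ρ hD hE
  have H := hg _ _ _ _ _ _ _ X' X f16 ok U
  have R := rel (ee := fun j => ρ (ee j)) (Lg := π Lg) (φ := π φ) (ν := π ν) (h := π h) (c := c)
    X' X U H (lb _ _ _ _ X' X f16 ok) (fun k hk => by rw [he k hk, Lay.map_e ρ hD hE])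
    (by rw [Lay.map_μ ρ hD hE, Lay.map_e₄ ρ hD hE, Lay.map_zo ρ hD hE, ← map_mul, h3, map_add,
      map_mul])
    (by rw [Lay.map_μ ρ hD hE, ← mE, a4, mk]) (by rw [a5, mE, map_smul])
    (by rw [a6, map_smul, map_mul, map_add, map_one]) (by rw [← mD, a7, map_zero])
  rw [gq_map ρ hD hE, ← e3, bq_map π mD, show (gq D E G ee).map ρ =
    ((gq D E G ee).map r).map π by simp only [Gq.map, mk], rel_map] at R
  exact ⟨e3 ▸ H.ok, R⟩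

section Germ

variable {l l' : Filter Z2}

theorem opF_inf [OpF l] {S : Set Z2} (h : ∀ᶠ z in l, z ∈ S → ∀ᶠ q in 𝓝 z.2, (z.1, q) ∈ S) :
    OpF (l ⊓ 𝓟 S) := ⟨fun {P} hP => by
  rw [eventually_inf_principal] at hP ⊢
  filter_upwards [OpF.op hP, h] with z h1 h2 hz
  filter_upwards [h1, h2 hz] with q h3 h4 using h3 h4⟩

theorem res (h : l' ≤ l) : IsPull l l' fun _ p => p :=
  ⟨fun a => Eventually.of_forall fun _ => contDiffAt_apply ℝ ℝ a _, h⟩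

theorem res_D [OpF l] [OpF l'] (h : l' ≤ l) (j : Fin 2) (φ : SG l) :
    (res h).hom (gD j φ) = gD j ((res h).hom φ) := by
  obtain ⟨F, rfl⟩ := mkG_surj φ
  rw [← mkG_sfD, IsPull.hom_mk, IsPull.hom_mk, ← mkG_sfD]
  rfl

theorem res_E (h : l' ≤ l) (φ : SG l) : (res h).hom (expG φ) = expG ((res h).hom φ) := by
  obtain ⟨F, rfl⟩ := mkG_surj φ
  rw [← mkG_sfE, IsPull.hom_mk, IsPull.hom_mk, ← mkG_sfE]
  rfl

/-- A representative on the smaller domain. -/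
noncomputable def rp (h : l' ≤ l) (φ : SG l) : SmF l' := (res h).homF (rep φ)

theorem mk_rp (h : l' ≤ l) (φ : SG l) : mkG l' (rp h φ) = (res h).hom φ := by
  rw [rp, ← IsPull.hom_mk, mkG_rep]

theorem ev_rp (h : l' ≤ l) {F : SmF l'} {φ : SG l} (e : mkG l' F = (res h).hom φ) :
    ∀ᶠ z in l', F.1 z.1 z.2 = val φ z := mkG_eq.1 (e.trans (mk_rp h φ).symm)

theorem val_gm {F : ℝ → En 2 → ℝ} (h : F ∈ SmF l) : ∀ᶠ z in l, val (gm l F) z = F z.1 z.2 :=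
  mkG_eq.1 ((mkG_rep _).trans (gm_eq h))

variable (l) in
/-- Evaluation at a value of the parameter. -/
noncomputable def evε (ε : ℝ) : SmF l →ₐ[ℝ] En 2 → ℝ :=
  (Pi.evalAlgHom ℝ (fun _ => En 2 → ℝ) ε).comp (SmF l).val

variable (l) in
/-- Evaluation at a point. -/
noncomputable def evz (z : Z2) : SmF l →ₐ[ℝ] ℝ :=
  (Pi.evalAlgHom ℝ (fun _ => ℝ) z.2).comp (evε l z.1)

noncomputable def inv (F : SmF l) (h : ∀ᶠ z in l, F.1 z.1 z.2 ≠ 0) : SmF l :=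
  ⟨F.1⁻¹, by filter_upwards [F.2, h] with z h1 h2 using h1.inv h2⟩

theorem mul_inv (F : SmF l) (h : ∀ᶠ z in l, F.1 z.1 z.2 ≠ 0) :
    mkG l F * mkG l (inv F h) = 1 := by
  rw [← map_mul, ← map_one (mkG l), mkG_eq]
  filter_upwards [h] with z hz using mul_inv_cancel₀ hz

theorem bdK {w : Z2 → ℝ} {φ : SG l} (h : PG 1 w φ) :
    ∀ᶠ K in atTop, ∀ᶠ z in l, |val φ z| ≤ K * |w z| := by
  obtain ⟨C, hC⟩ := h.2 0
  filter_upwards [eventually_ge_atTop C] with K hK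
  filter_upwards [hC] with z hz using le_trans hz (by gcongr)

theorem bdK1 {φ : SG l} (h : PG 1 1 φ) : ∀ᶠ K in atTop, ∀ᶠ z in l, |val φ z| ≤ K := by
  simpa using bdK h

theorem posK {φ : SG l} (h : PosG φ) : ∀ᶠ K in atTop, ∀ᶠ z in l, 1 ≤ K * val φ z := by
  obtain ⟨c, hc, h⟩ := h
  filter_upwards [eventually_ge_atTop c⁻¹] with K hK
  filter_upwards [h] with z hz
  calc (1 : ℝ) = c⁻¹ * c := (inv_mul_cancel₀ hc.ne').symm
    _ ≤ _ := mul_le_mul hK hz hc.le ((inv_pos.2 hc).le.trans hK)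

theorem ok_ev {B : Blk (SmF l)} (h : (B.map (mkG l)).Ok) :
    ∀ᶠ z in l, (B.map fun F => F.1 z.1 z.2).Ok := by
  have T : ∀ {F G : SmF l}, mkG l F * mkG l G = 1 → ∀ᶠ z in l, F.1 z.1 z.2 * G.1 z.1 z.2 = 1 :=
    fun e => mkG_eq.1 ((map_mul _ _ _).trans (e.trans (map_one _).symm))
  filter_upwards [T h.ha, T h.hC, T h.h₁, T h.h₂] with z h1 h2 h3 h4 using ⟨h1, h2, h3, h4⟩

theorem all_ev (B : Blk (SmF l)) :
    ∀ᶠ z in l, (B.map (evε l z.1)).All fun f => ContDiffAt ℝ ∞ f z.2 := by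
  filter_upwards [B.a.2, B.ai.2, B.C.2, B.Ci.2, B.F₁.2, B.F₁i.2, B.F₂.2, B.F₂i.2, B.β.2, B.f₁.2,
    B.f₂.2] with z h1 h2 h3 h4 h5 h6 h7 h8 h9 h10 h11
  exact ⟨h1, h2, h3, h4, h5, h6, h7, h8, h9, h10, h11⟩

theorem al_pos {σ q eh al : SG l} (e : σ * eh = (2 + σ) * q * al) (hq : PosG q) (he : PosG eh) :
    ∀ᶠ z in l, 0 < val σ z → 0 < val al z := by
  obtain ⟨a, ha, hq⟩ := hq
  obtain ⟨b, hb, he⟩ := he
  have : mkG l (rep σ * rep eh) = mkG l ((2 + rep σ) * rep q * rep al) := by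
    simpa only [map_mul, map_add, map_ofNat, mkG_rep] using e
  filter_upwards [mkG_eq.1 this, hq, he] with z h1 h2 h3 h4
  change val σ z * val eh z = (2 + val σ z) * val q z * val al z at h1
  change a ≤ val q z at h2
  change b ≤ val eh z at h3
  exact (mul_pos_iff_of_pos_left (mul_pos (by linarith) (ha.trans_le h2))).1
    (h1 ▸ mul_pos h4 (hb.trans_le h3))

/-- The block metric built from representatives. -/
noncomputable def rB (G : Lay (SG l)) (ε : ℝ) : Blk (En 2 → ℝ) :=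
  (G.map fun φ => vl φ ε).blk pdn ptE (fun _ => ε⁻¹) ((G.map fun φ => vl φ ε).μ ptE)⁻¹
    ((G.map fun φ => vl φ ε).al ptE)⁻¹

theorem raw0 (b2 : B2Stmt) (lb : LayBasicStmt) (hg : LayHGStmt) [OpF l] [OpF l'] (le : l' ≤ l)
    {G : Lay (SG l)} {ee : Fin 5 → SG l} (hok : G.Ok gD expG)
    (e16 : expG (Real.log 16 • 1 : SG l) = 16) (he : ∀ k, k ≠ 3 → ee k = G.e gD expG k)
    (h3 : G.μ expG * ee 3 = G.μ expG * G.e₄ gD expG + G.zo gD expG)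
    (hlal : G.lal gD expG * G.al expG = gD 1 (G.al expG))
    (hXe : G.Xe gD expG * G.al expG = G.ε * G.Xi gD expG) {μ h : ℝ → En 2 → ℝ} (sμ : μ ∈ SmF l')
    (vμ : ∀ᶠ z in l', val (G.μ expG) z = μ z.1 z.2 ∧ 0 < μ z.1 z.2)
    (vε : ∀ᶠ z in l', val G.ε z = z.1 ∧ z.1 ≠ 0) (hal : ∀ᶠ z in l', val (G.al expG) z ≠ 0)
    (sh : h ∈ SmF l') (h1 : ∀ ε, pdn 1 (h ε) = fun _ => 0) (a : ℝ) :
    ∀ᶠ z in l', ((rB G z.1).All (fun f => ContDiffAt ℝ ∞ f z.2) ∧ ContDiffAt ℝ ∞ (μ z.1) z.2 ∧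
      ContDiffAt ℝ ∞ (fun p => μ z.1 p ^ (1 / 4 : ℝ) / a * (1 + h z.1 p)) z.2 ∧
      ((rB G z.1).map fun f => f z.2).Ok) ∧
      Rel Eq ((gq gD expG G ee).map fun φ => val φ z)
        ((bq pdn (rB G z.1) (fun p => Real.log (μ z.1 p))
          (fun p => μ z.1 p ^ (1 / 4 : ℝ) / a * (1 + h z.1 p)) (fun p => μ z.1 p ^ (1 / 4 : ℝ))
          (h z.1)).map fun f => f z.2) a⁻¹ := by
  obtain ⟨qμ, qa, H⟩ := gen (R := SG l) (S := SmF l') (T := SG l') lb hg (res le).hom (mkG l')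
    (rp le) (mk_rp le) (res_D le) (res_E le) (mkG_sfD' l') (mkG_sfE l') isDer_gD
    (wr_SG b2 l').isExp hok e16 he h3 hlal hXe
  have vD : ∀ ε j F, evε l' ε (sfD l' j F) = pdn j (evε l' ε F) := fun _ _ _ => rfl
  have vE : ∀ ε F, evε l' ε (sfE l' F) = ptE (evε l' ε F) := fun _ _ => rfl
  have e2 : ∀ ε, (G.map fun φ => vl φ ε) = (G.map (rp le)).map (evε l' ε) := fun _ => rfl
  have nμ : ∀ᶠ z in l', ((G.map (rp le)).μ (sfE l')).1 z.1 z.2 ≠ 0 := by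
    filter_upwards [ev_rp le qμ, vμ] with z h1 h2 using by rw [h1, h2.1]; exact h2.2.ne'
  have na : ∀ᶠ z in l', ((G.map (rp le)).al (sfE l')).1 z.1 z.2 ≠ 0 := by
    filter_upwards [ev_rp le qa, hal] with z h1 h2 using by rwa [h1]
  let εi : SmF l' := ⟨fun ε _ => ε⁻¹, Eventually.of_forall fun _ => contDiffAt_const⟩
  let Lg : SmF l' := ⟨fun ε p => Real.log (μ ε p), by
    filter_upwards [sμ, vμ] with z h1 h2 using h1.log h2.2.ne'⟩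
  let ν : SmF l' := ⟨fun ε p => μ ε p ^ (1 / 4 : ℝ), by
    filter_upwards [sμ, vμ] with z h1 h2 using h1.rpow_const_of_ne h2.2.ne'⟩
  let φ : SmF l' := ⟨fun ε p => μ ε p ^ (1 / 4 : ℝ) / a * (1 + h ε p), by
    filter_upwards [ν.2, sh] with z h1 h2 using (h1.div_const a).mul (contDiffAt_const.add h2)⟩
  obtain ⟨ok, R⟩ := H εi (inv _ nμ) (inv _ na) Lg φ ν ⟨h, sh⟩ a⁻¹
    (mkG_eq.2 (by
      filter_upwards [vε] with z hz
      exact (congrArg (· * z.1⁻¹) hz.1).trans (mul_inv_cancel₀ hz.2))) (mul_inv _ _) (mul_inv _ _)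
    (mkG_eq.2 (by filter_upwards [vμ] with z hz using (Real.exp_log hz.2).trans hz.1.symm))
    (mkG_eq.2 (by
      filter_upwards [vμ] with z hz
      exact (Real.rpow_def_of_pos hz.2 _).trans (congrArg Real.exp (mul_comm _ _))))
    (Subtype.ext (funext₂ fun ε p => by
      change _ / a * _ = a⁻¹ * (_ * _)
      rw [div_eq_inv_mul, mul_assoc]
      rfl)) (Subtype.ext (funext h1))
  have e4 : ∀ ε, rB G ε =
      ((G.map (rp le)).blk (sfD l') (sfE l') εi (inv _ nμ) (inv _ na)).map (evε l' ε) := fun ε => by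
    rw [← Lay.map_blk (R := SmF l') (evε l' ε) (vD ε) (vE ε), rB, e2,
      Lay.map_μ (R := SmF l') (evε l' ε) (vD ε) (vE ε),
      Lay.map_al (R := SmF l') (evε l' ε) (vD ε) (vE ε)]
    rfl
  generalize (G.map (rp le)).blk (sfD l') (sfE l') εi (inv _ nμ) (inv _ na) = B at ok R e4
  simp only [mkG_eq] at R
  filter_upwards [rel_ev (r := fun z x y => evz l' z x = evz l' z y) R, all_ev B, ok_ev ok, sμ, φ.2]
    with z r1 r2 r3 r4 r5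
  rw [← rel_map (R := SmF l')] at r1
  rw [e4]
  refine ⟨⟨r2, r4, r5, r3⟩, ?_⟩
  have := bq_map (R := SmF l') (evε l' z.1) (vD z.1) B Lg φ ν ⟨h, sh⟩
  exact (congrArg (fun b => Rel Eq _ (Bq.map b fun f => f z.2) _) this).mpr r1

end Germ

theorem small (c a b X : ℝ) : ∀ᶠ z in lS c a b, X * z.1 ≤ 1 := by
  rw [lS, ev_fam]
  have : Tendsto (fun ε : ℝ => X * ε) (𝓝[>] 0) (𝓝 (X * 0)) :=
    (tendsto_const_nhds.mul tendsto_id).mono_left nhdsWithin_le_nhds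
  filter_upwards [this.eventually (eventually_le_nhds (by simp : X * 0 < 1))] with ε hε p _ using hε

theorem ev_x (c a b : ℝ) : ∀ᶠ z in lS c a b, z.2 1 ∈ Ioo a b := by
  rw [lS, ev_fam]
  exact Eventually.of_forall fun _ p hp => hp.2.2

variable {P : Prof} {c : ℝ}

/-- The part of the layer domain inside the region. -/
def lP (P : Prof) (c : ℝ) (i : Fin 2) : Filter Z2 :=
  P.lL c i ⊓ 𝓟 {z | 0 < z.2 0 ∧ 0 < P.Mu i (z.1 * z.2 0) (z.2 1)}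

theorem mu_mem (g : P.Geo c) (i : Fin 2) :
    (fun ε (p : En 2) => P.Mu i (ε * p 0) (p 1)) ∈ SmF (P.lL c i) := (g.pull i).smooth 0

theorem opF_lP (g : P.Geo c) (i : Fin 2) : OpF (lP P c i) := opF_inf (by
  filter_upwards [mu_mem g i] with z hz h
  exact ((continuous_apply 0).continuousAt.eventually (lt_mem_nhds h.1)).and
    (hz.continuousAt.eventually (lt_mem_nhds h.2)))

theorem raw (b2 : B2Stmt) (av : AvgStmt) (lb : LayBasicStmt) (hg : LayHGStmt) (g : P.Geo c)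
    (s : St P c) {c₁ : ℝ} (M : ℝ) (i : Fin 2) (F : s.GF g (mcut c₁) i) (F2 : s.GF2 g (mcut c₁) i) :
    ∀ᶠ z in lP P c i, ((s.BL (mcut c₁) i z.1).All (fun f => ContDiffAt ℝ ∞ f z.2) ∧
      ContDiffAt ℝ ∞ (fun p : En 2 => P.Mu i (z.1 * p 0) (p 1)) z.2 ∧
      ContDiffAt ℝ ∞ (fun p : En 2 => P.Mu i (z.1 * p 0) (p 1) ^ (1 / 4 : ℝ) / (16 * P.M₀) *
        (1 + bT c₁ M z.1 (p 0) 1)) z.2 ∧ ((s.BL (mcut c₁) i z.1).map fun f => f z.2).Ok) ∧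
      0 < val ((s.G (mcut c₁) i).al expG) z ∧
      Rel Eq ((gq gD expG (s.G (mcut c₁) i) ((s.G (mcut c₁) i).tot gD expG (s.er i))).map
          fun φ => val φ z)
        ((bq pdn (s.BL (mcut c₁) i z.1) (fun p => Real.log (P.Mu i (z.1 * p 0) (p 1)))
          (fun p => P.Mu i (z.1 * p 0) (p 1) ^ (1 / 4 : ℝ) / (16 * P.M₀) *
            (1 + bT c₁ M z.1 (p 0) 1)) (fun p => P.Mu i (z.1 * p 0) (p 1) ^ (1 / 4 : ℝ))
          fun p => bT c₁ M z.1 (p 0) 1).map fun f => f z.2) (16 * P.M₀)⁻¹ := by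
  have := opF_lP g i
  have le : lP P c i ≤ P.lL c i := inf_le_left
  have A : AvgFacts (P.lL c i) _ _ := av.1 c (P.lo i) (P.hi i) g.pos
  have S : ∀ᶠ z in lP P c i, 0 < z.2 0 ∧ 0 < P.Mu i (z.1 * z.2 0) (z.2 1) :=
    eventually_inf_principal.2 (Eventually.of_forall fun _ h => h)
  have e : s.er i = fun j => (g.pull i).hom ((s.O i).err gD expG j) :=
    funext fun j => pb_eq (g.pull i) _
  have hal : ∀ᶠ z in lP P c i, 0 < val ((s.G (mcut c₁) i).al expG) z := by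
    filter_upwards [le (al_pos F.al F.pos_q F.pos_eh), le (val_gm A.crd.1), S] with z h1 h2 h3
    exact h1 (h3.1.trans_eq h2.symm)
  have := raw0 (ee := (s.G (mcut c₁) i).tot gD expG (s.er i)) b2 lb hg le F.ok A.e16
    (fun k hk => by rw [Lay.tot, Lay.elay, F2.cov.e k hk, e, sub_add_cancel])
    (by have e1 : (s.G (mcut c₁) i).elay gD expG 3 =
          (s.G (mcut c₁) i).e₄ gD expG - (s.G (mcut c₁) i).out.e₄ gD expG := rfl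
        rw [Lay.tot, e1, e]
        linear_combination -F2.cov.e₄)
    F.lal F.Xe (μ := fun ε p => P.Mu i (ε * p 0) (p 1)) (h := fun ε p => bT c₁ M ε (p 0) 1)
    (le (mu_mem g i))
    (by rw [F.mu]; filter_upwards [le (val_gm (mu_mem g i)), S] with z h1 h2 using ⟨h1, h2.2⟩)
    (by filter_upwards [le (val_gm A.eps.1), le A.eps.2.2.2.2.2.1] with z h1 h2 using ⟨h1, h2.ne'⟩)
    (hal.mono fun _ h => h.ne')
    (Wt.mem0 _ ⟨fun ε σ => bT c₁ M ε σ 1, bT_cd c₁ M⟩)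
    (fun ε => Wt.pdn01 (bT_cd c₁ M ε)) (16 * P.M₀)
  filter_upwards [this, hal] with z h1 h2 using ⟨h1.1, h2, h1.2⟩

theorem ptOK {g : Gq ℝ} {B : Blk (En 2 → ℝ)} {μ φ ν h : En 2 → ℝ} {p : En 2} {N : ℕ}
    {ε d C₀ M₀ k₀ k M K A τ η m₀ m₁ m₂ : ℝ}
    (H : Pt g ((bq pdn B (fun q => Real.log (μ q)) φ ν h).map fun f => f p) N M₀ k₀ k M K A τ η
      m₀ m₁ m₂) (hε : g.ε = ε) (hμ : g.μ = μ p) (hd : 4 * μ p ≤ d) (hC : C₀ ≤ k)
    (hb : ∀ (k : Fin 8 → ℝ) (κ₁ κ₂ ζ φ L c : ℝ), 0 ≤ κ₁ →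
      0 ≤ κ₂ → 0 ≤ ζ → 0 ≤ φ → |k 1 - κ₁| ≤ ζ → |k 6 - κ₂| ≤ ζ → (∀ j, j ≠ 1 → j ≠ 6 → |k j| ≤ ζ) →
      c + C₀ * ζ ≤ φ →
      (2 * φ - 1 / 2) * κ₁ + L + c + C₀ * ζ * (1 + ζ) * (1 + φ + ζ + κ₂) ≤ 0 →
      (2 * φ - 1 / 2) * κ₂ + L + c + C₀ * ζ * (1 + ζ) * (1 + φ + ζ + κ₁) ≤ 0 → BarON k φ L c)
    (sm : ∀ᶠ q in 𝓝 p, B.All (fun f => ContDiffAt ℝ ∞ f q) ∧ ContDiffAt ℝ ∞ μ q ∧
      ContDiffAt ℝ ∞ φ q ∧ (B.map fun f => f q).Ok) :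
    PtOK ε B μ φ (24 * K ^ 5 * ε ^ N) (24 * K ^ 5) (· ≤ d * A / ε + 24 * K ^ 5) p := by
  subst hε
  have h1 := H.pos
  have h2 := H.err
  have h3 := H.lap
  have h4 := H.gam
  have h5 := H.vol
  have h6 := H.bar hC hb
  have h7 := H.scal (hμ ▸ hd)
  have h8 := mul_pos H.ε0 H.μ0
  have h9 := H.cst.2.2.1
  have h10 : K ≤ K ^ 5 := le_self_pow₀ h9 (by norm_num)
  rw [hμ] at h1 h2 h3 h4 h5 h6 h8
  exact ⟨sm, h1, h2, h3.trans (by gcongr; linarith), h4.trans (by gcongr; norm_num), h5, h6, h7⟩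

theorem exA (hP : P.Ok) (Cb : ℝ) : ∃ k₀ : ℝ, 1 ≤ k₀ ∧ Cb ≤ k₀ ∧ ∀ i, ∀ x ∈ Ioo (P.lo i) (P.hi i),
    1 ≤ k₀ * Real.exp (-(2 * P.L i x)) ∧ Real.exp (-(2 * P.L i x)) ≤ k₀ := by
  have h : ∀ i, ∀ᶠ k₀ in atTop, ∀ x ∈ Ioo (P.lo i) (P.hi i),
      1 ≤ k₀ * Real.exp (-(2 * P.L i x)) ∧ Real.exp (-(2 * P.L i x)) ≤ k₀ := fun i => by
    obtain ⟨C, hC⟩ := isCompact_Icc.exists_bound_of_continuousOn
      fun x hx => (hP.sm_L i x hx).continuousAt.continuousWithinAt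
    filter_upwards [eventually_ge_atTop (Real.exp (2 * C))] with k hk x hx
    have a1 := hP.ord
    have a2 := hP.ordJ true
    have a3 := hP.ordJ false
    have a4 := hP.δ_pos
    have := abs_le.1 (hC x (by
      fin_cases i <;> simp only [Prof.lo, Prof.hi, mem_Ioo] at hx <;> simp at hx <;>
        constructor <;> linarith))
    refine ⟨le_trans ?_ (mul_le_mul_of_nonneg_right hk (Real.exp_pos _).le),
      le_trans (Real.exp_le_exp.2 (by linarith)) hk⟩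
    rw [← Real.exp_add]
    exact Real.one_le_exp (by linarith)
  exact ((eventually_ge_atTop 1).and ((eventually_ge_atTop Cb).and (eventually_all.2 h))).exists

theorem mu_le (hP : P.Ok) (i : Fin 2) {s : ℝ} (hs : 0 ≤ s) (x : ℝ) : 4 * P.Mu i s x ≤ P.d i x := by
  have := hP.χ_nonneg i x
  have : 0 ≤ s * (2 * Real.exp (2 * P.L i x)) /
    (1 + P.χ i x * (s * (2 * Real.exp (2 * P.L i x)))) := by positivity
  unfold Prof.Mu
  linarith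

theorem mK (c a b : ℝ) {n : ℝ → ℝ} (hn : ContDiff ℝ ∞ n) :
    ∀ᶠ K in atTop, ∀ᶠ z in lS c a b, |n (z.1 * z.2 0)| ≤ K := by
  obtain ⟨C, hC⟩ := Wt.m_bd (c := c) (a := a) (b := b) hn 0
  filter_upwards [eventually_ge_atTop C] with K hK
  filter_upwards [hC] with z hz using le_trans (by simpa using hz) hK

theorem tau (σ : ℝ) : Real.exp (-σ) = Real.exp (-(σ / 2)) ^ 2 ∧
    Real.exp (-(3 / 2 * σ)) = Real.exp (-(σ / 2)) ^ 3 ∧
    Real.exp (-(2 * σ)) = Real.exp (-(σ / 2)) ^ 4 := by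
  refine ⟨?_, ?_, ?_⟩ <;> rw [← Real.exp_nat_mul] <;> congr 1 <;> push_cast <;> ring

end LayBlk

open LayBlk in
theorem layBlk (_b1 : B1Stmt) (b2 : B2Stmt) (av : AvgStmt) (_wt : WtStmt) (lb : LayBasicStmt)
    (hg : LayHGStmt) (ba : BarAlgStmt) : LayBlkStmt := by
  intro P c g s N Cb hP hF
  obtain ⟨C₀, hC, hb⟩ := ba
  obtain ⟨k₀, k1, hCb, hA⟩ := exA hP Cb
  obtain ⟨k, k2, k3, k4⟩ := ((eventually_ge_atTop (2 * k₀ ^ 2)).and
    ((eventually_ge_atTop (16 * P.M₀ ^ 4)).and (eventually_ge_atTop C₀))).exists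
  obtain ⟨M, hM⟩ : ∃ M, M = 5 * k ^ 10 := ⟨_, rfl⟩
  have M0 : 0 ≤ M := by rw [hM]; positivity
  refine ⟨M, M0, (8 * k₀ ^ 2 * (1 + 48 * M))⁻¹, by positivity, fun c₁ h0 h1 => ?_⟩
  have key : ∀ i, ∀ᶠ K in atTop, ∀ᶠ z in P.lL c i, 0 < z.2 0 ∧ 0 < P.Mu i (z.1 * z.2 0) (z.2 1) →
      PtOK z.1 (s.BL (mcut c₁) i z.1) (fun p => P.Mu i (z.1 * p 0) (p 1))
        (fun p => P.Mu i (z.1 * p 0) (p 1) ^ (1 / 4 : ℝ) / (16 * P.M₀) *
          (1 + bT c₁ M z.1 (p 0) 1)) (24 * K ^ 5 * z.1 ^ N) (24 * K ^ 5)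
        (· ≤ P.d i (z.2 1) * P.A0 i z / z.1 + 24 * K ^ 5) z.2 := fun i => by
    obtain ⟨F, F2, Es⟩ := hF.lay _ (isCut_mcut h0) i
    have := opF_lP g i
    have W := wr_SG b2 (P.lL c i)
    have R := raw b2 av lb hg g s M i F F2
    have d1 := (contDiff_infty_iff_deriv.1 (mcut_cd c₁)).2
    have vμ := val_gm (mu_mem g i)
    rw [← F.mu] at vμ
    filter_upwards [eventually_ge_atTop M, eventually_ge_atTop (2 / c₁ ^ 2),
      bdK1 (Lay.P_al W F.all), posK (W.E_bd (Lay.P_lA W F.all)).2,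
      posK (W.E_bd (Lay.P_lC W F.all)).2, posK (W.E_bd (W.mul11 (W.ofNat 2) (Lay.P_u₁ W F.all))).2,
      posK (W.E_bd (W.mul11 (W.ofNat 2) (Lay.P_u₂ W F.all))).2, bdK1 (Lay.P_τ₁ W F.all),
      bdK1 (Lay.P_τ₂ W F.all), eventually_all.2 fun j => bdK (Es.tot j), bdK Es.lapmu,
      mK c (P.lo i) (P.hi i) d1, mK c (P.lo i) (P.hi i) (contDiff_infty_iff_deriv.1 d1).2]
      with K a1 a2 a3 a4 a5 a6 a7 a8 a9 a10 a11 a12 a13
    filter_upwards [eventually_inf_principal.1 (R.and (OpF.op (R.mono fun _ h => h.1))), a3, a4, a5,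
      a6, a7, a8, a9, eventually_all.2 a10, a11, a12, a13, Es.bd, vμ,
      val_gm (av.1 c (P.lo i) (P.hi i) g.pos).eps.1, Wt.ev c (P.lo i) (P.hi i),
      ev_x c (P.lo i) (P.hi i), small c (P.lo i) (P.hi i) (80 * (K5 k M + 1) ^ 2 * k ^ 3),
      small c (P.lo i) (P.hi i) (1000 * (100 * (K ^ 3) ^ 2) ^ 4),
      small c (P.lo i) (P.hi i) (2 * (8 * k₀ ^ 2 * (1 + 48 * M)))]
      with z r a3 a4 a5 a6 a7 a8 a9 a10 a11 a12 a13 bd hμ hε ev hx s1 s2 s3 hz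
    obtain ⟨⟨-, r1, r2⟩, r3⟩ := r hz
    obtain ⟨b1, b2, b3, b4, b5⟩ := bd
    obtain ⟨t2, t3, t4⟩ := tau (z.2 0)
    obtain ⟨e1, e2⟩ := bT_der c₁ M z.1 (z.2 0)
    have ε0 := ev.1
    have hW0 := Wt.hW_nonneg ε0 ev.2.2.1
    have hd := mu_le hP i (mul_pos ε0 hz.1).le (z.2 1)
    have hη : Cb * hW z ≤ k₀ * hW z := by gcongr
    have hε' : ((gq gD expG (s.G (mcut c₁) i) ((s.G (mcut c₁) i).tot gD expG (s.er i))).map
      fun φ => val φ z).ε = z.1 := hε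
    have hμ' : ((gq gD expG (s.G (mcut c₁) i) ((s.G (mcut c₁) i).tot gD expG (s.er i))).map
      fun φ => val φ z).μ = P.Mu i (z.1 * z.2 0) (z.2 1) := hμ
    simp only [dW, t3, t4] at b1 b3
    rw [t2, t4] at e1 e2
    refine ptOK (ν := fun p => P.Mu i (z.1 * p 0) (p 1) ^ (1 / 4 : ℝ))
      (h := fun p => bT c₁ M z.1 (p 0) 1) (k₀ := k₀) (M₀ := P.M₀) (M := M) (τ := Real.exp (-(z.2 0 / 2))) (η := k₀ * hW z)
      (m₀ := mcut c₁ (z.1 * z.2 0)) (m₁ := deriv (mcut c₁) (z.1 * z.2 0))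
      (m₂ := deriv (deriv (mcut c₁)) (z.1 * z.2 0)) ?_ hε' hμ' hd k4 hb r3
    exact
    { rel := r2
      M₀1 := hP.M_ge
      k₀1 := k1
      k1 := k2
      k2 := k3
      kM := hM.ge
      MK := a1
      A1 := (hA i _ hx).1
      A2 := (hA i _ hx).2
      ε0 := ε0.trans_eq hε'.symm
      s1 := by rwa [hε']
      s2 := by rwa [hε']
      μ0 := hz.2.trans_eq hμ'.symm
      μ1 := by
        rw [hμ']; linarith [hz.2, (abs_le.1 (hP.d_bd i _ (Ioo_subset_Icc_self hx))).2]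
      ν := by rw [hμ']; rfl
      τ0 := (Real.exp_pos _).le
      τ1 := Real.exp_le_one_iff.2 (by linarith [hz.1])
      al0 := r1
      al1 := a3
      eA := b4.trans hCb
      eC := b5.trans hCb
      eA0 := a4
      eC0 := a5
      E₁ := a6
      E₂ := a7
      τ₁ := a8
      τ₂ := a9
      tot := fun j => by
        rw [hε']; exact (a10 j).trans_eq (congrArg _ (abs_of_pos (pow_pos ε0 _)))
      lm := by rw [hε']; exact a11.trans_eq (congrArg _ (abs_of_pos ε0))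
      α := b1.trans hη
      β := b2.trans hη
      η1 := mul_le_of_le_one_right (by linarith) (min_le_left _ _)
      kk := fun j => by rw [hε']; exact (b3 j).trans (by gcongr)
      m0 := ((isCut_mcut h0).2.1 _).1
      m1 := ((isCut_mcut h0).2.1 _).2
      hm₁ := a12
      hm₂ := a13
      e0 := by
        change bT c₁ M z.1 (z.2 0) 1 = _
        rw [bT, t2, t4]; ring
      e1 := by
        rw [hε', ← e1]
        exact congrFun (Wt.pdn00 (bT_cd c₁ M z.1)) z.2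
      e2 := by
        rw [hε', ← e2]
        change pdn 0 (pdn 0 fun p : En 2 => bT c₁ M z.1 (p 0) 1) z.2 = _
        rw [Wt.pdn00 (bT_cd c₁ M z.1),
          Wt.pdn00 (contDiff_infty_iff_deriv.1 (bT_cd c₁ M z.1)).2]
      cs := by
        rw [hε']
        rcases lt_or_ge (z.1 * z.2 0) c₁ with h | h
        · refine .inl ⟨mcut_one h0 h.le, (mcut_der h0 h).1, (mcut_der h0 h).2, ?_⟩
          have q1 : hW z ≤ 2 * z.1 + c₁ := (min_le_right _ _).trans (by linarith)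
          have q2 : 8 * k₀ ^ 2 * (1 + 48 * M) * c₁ ≤ 1 := by
            rwa [← one_div, le_div_iff₀' (by positivity)] at h1
          have q3 := mul_le_mul_of_nonneg_left q1 (by positivity : 0 ≤ 8 * k₀ ^ 2 * (1 + 48 * M))
          refine le_of_mul_le_mul_left ?_ (by linarith : 0 < k₀)
          have q4 : 1 ≤ k₀ * P.A0 i z := (hA i _ hx).1
          linarith
        · have := Wt.exp_small one_pos h0 ε0 h 2
          rw [one_mul, one_mul, t2] at this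
          exact .inr (this.trans (by gcongr; simpa using a2)) }
  obtain ⟨K, hK⟩ := (eventually_all.2 key).exists
  exact ⟨24 * K ^ 5, fun i => (hK i).mono fun z h h1 h2 => h ⟨h1, h2⟩⟩

end Pool.Agent.Lib.MP_df9110_gt
end

-- part Pool.Agent.Lib.MP_df9110_gt.ZCor
section

/-! The corner of the simplex, where the approximate solution is a product of two cigars. -/

namespace Pool.Agent.Lib.MP_df9110_gt

open Filter Topology Set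
open scoped ContDiff

namespace ZCor

/-- The profile at a point of the strip around the corner. -/
structure SF (P : Prof) (D p : Fin 2 → ℝ) (x : ℝ) : Prop where
  pp : p 0 * p 1 = -1
  d0 : ∀ w, 0 < P.d w x
  chi : ∀ w, P.χ w x * P.d w x = 1
  eL : ∀ w, Real.exp (2 * P.L w x) = D w * P.d w x
  dd : ∀ w, HasDerivAt (P.d w) (2 * p w * P.d w x) x
  Dp : ∀ w, D w = P.d w x * (1 + p w ^ 2)

theorem ord {P : Prof} (hP : P.Ok) (J : Bool) :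
    P.xL + P.δ ≤ P.xJ false ∧ P.xJ false ≤ P.xJ J ∧ P.xJ J ≤ P.xJ true ∧
      P.xJ true + P.δ ≤ P.xR := by
  obtain ⟨a1, a2, a3⟩ := hP.ord
  obtain ⟨b1, b2, b3, b4⟩ := hP.ordJ false
  obtain ⟨c1, c2, c3, c4⟩ := hP.ordJ true
  have := hP.δ_pos
  refine ⟨by linarith, ?_, ?_, by linarith⟩ <;> cases J <;> first | exact le_rfl | linarith

theorem mem_lh {P : Prof} (hP : P.Ok) {J : Bool} {x : ℝ} (hx : |x - P.xJ J| < P.δ) (w : Fin 2) :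
    x ∈ Ioo (P.lo w) (P.hi w) := by
  obtain ⟨a1, a2, a3, a4⟩ := ord hP J
  have := hP.δ_pos
  have := abs_lt.1 hx
  fin_cases w
  · exact ⟨show P.xL - P.δ < x by linarith, show x < P.xJ true + P.δ by linarith⟩
  · exact ⟨show P.xJ false - P.δ < x by linarith, show x < P.xR + P.δ by linarith⟩

theorem lh_sub {P : Prof} (hP : P.Ok) (w : Fin 2) {x : ℝ} (hx : x ∈ Ioo (P.lo w) (P.hi w)) :
    x ∈ Icc (P.xL - P.δ) (P.xR + P.δ) := by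
  obtain ⟨a1, a2, a3, a4⟩ := ord hP true
  have := hP.δ_pos
  fin_cases w
  · exact ⟨hx.1.le, by linarith [show x < P.xJ true + P.δ from hx.2]⟩
  · exact ⟨by linarith [show P.xJ false - P.δ < x from hx.1], hx.2.le⟩

theorem isOpen_strip (a δ : ℝ) : IsOpen {x : ℝ | |x - a| < δ} :=
  isOpen_lt (continuous_id.sub continuous_const).abs continuous_const

theorem strip {P : Prof} (hP : P.Ok) (J : Bool) :
    ∃ D : Fin 2 → ℝ, ∀ x, |x - P.xJ J| < P.δ → ∃ p, SF P D p x := by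
  obtain ⟨b1, b2, b3, b4⟩ := hP.ordJ J
  have hI : ∀ x, |x - P.xJ J| < P.δ → x ∈ Ioo (P.pl J) (P.pr J) := fun x hx => by
    have := abs_lt.1 hx
    exact ⟨by linarith, by linarith⟩
  have he : ∀ x, |x - P.xJ J| < P.δ → ∀ w, P.L w x = P.Lp J w x ∧ P.d w x = P.dp J w x := by
    intro x hx w
    obtain ⟨C, hC⟩ := hP.dev (1 / 2) (by norm_num) (by norm_num) 0
    obtain ⟨h1, h2⟩ := hC J w x (hI x hx)
    have h3 := h2 (mem_lh hP hx w)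
    rw [hP.strip J x hx.le, Real.zero_rpow (by norm_num), mul_zero, iteratedDeriv_zero,
      abs_nonpos_iff, Pi.sub_apply, sub_eq_zero] at h1 h3
    exact ⟨h1, h3⟩
  have hd : ∀ x, |x - P.xJ J| < P.δ → ∀ w,
      HasDerivAt (P.dp J w) (2 * deriv (P.Lp J w) x * P.dp J w x) x ∧
      HasDerivAt (fun x => Real.exp (2 * P.Lp J w x) / P.dp J w x) 0 x := by
    intro x hx w
    have hx' := Ioo_subset_Icc_self (hI x hx)
    obtain ⟨h1, -, -, h2, -⟩ := (hP.prod J x hx').2.2 w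
    have h3 := ((hP.sm_p J w x hx').1.differentiableAt (by simp)).hasDerivAt
    have h4 := ((hP.sm_p J w x hx').2.differentiableAt (by simp)).hasDerivAt
    rw [h2] at h3
    refine ⟨h3, ?_⟩
    refine ((h4.const_mul 2).exp.div h3 h1.ne').congr_deriv ?_
    ring
  have hc : ∀ w x, |x - P.xJ J| < P.δ → Real.exp (2 * P.Lp J w x) / P.dp J w x =
      Real.exp (2 * P.Lp J w (P.xJ J)) / P.dp J w (P.xJ J) := by
    intro w x hx
    have hcv : Convex ℝ {x : ℝ | |x - P.xJ J| < P.δ} := by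
      have : {x : ℝ | |x - P.xJ J| < P.δ} = Metric.ball (P.xJ J) P.δ := by
        ext x; simp [Real.dist_eq]
      rw [this]; exact convex_ball _ _
    refine (isOpen_strip _ _).is_const_of_deriv_eq_zero hcv.isPreconnected
      (fun y hy => (hd y hy w).2.differentiableAt.differentiableWithinAt)
      (fun y hy => (hd y hy w).2.deriv) hx ?_
    simpa using hP.δ_pos
  refine ⟨fun w => Real.exp (2 * P.Lp J w (P.xJ J)) / P.dp J w (P.xJ J), fun x hx =>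
    ⟨fun w => deriv (P.Lp J w) x, ?_⟩⟩
  obtain ⟨h1, -, h2⟩ := hP.prod J x (Ioo_subset_Icc_self (hI x hx))
  refine ⟨h1, fun w => ?_, fun w => ?_, fun w => ?_, fun w => ?_, fun w => ?_⟩
  · rw [(he x hx w).2]; exact (h2 w).1
  · rw [(he x hx w).2]; exact (h2 w).2.1
  · rw [(he x hx w).1, (he x hx w).2, ← hc w x hx, div_mul_cancel₀ _ (h2 w).1.ne']
  · rw [(he x hx w).2]
    refine (hd x hx w).1.congr_of_eventuallyEq ?_
    filter_upwards [(isOpen_strip _ _).mem_nhds hx] with y hy using (he y hy w).2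
  · rw [(he x hx w).2, ← hc w x hx, (h2 w).2.2.2.2, div_eq_iff (h2 w).1.ne']
    ring

theorem SF.D0 {P : Prof} {D p : Fin 2 → ℝ} {x : ℝ} (h : SF P D p x) (w : Fin 2) : 0 < D w := by
  rw [h.Dp w]
  exact mul_pos (h.d0 w) (by positivity)

theorem SF.q {P : Prof} {D p : Fin 2 → ℝ} {x : ℝ} (h : SF P D p x) (w : Fin 2) (s : ℝ) :
    1 + P.χ w x * (s * (2 * Real.exp (2 * P.L w x))) = 1 + 2 * D w * s := by
  rw [h.eL]
  linear_combination 2 * D w * s * h.chi w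

theorem SF.mu {P : Prof} {D p : Fin 2 → ℝ} {x : ℝ} (h : SF P D p x) (w : Fin 2) {s : ℝ}
    (hs : 1 + 2 * D w * s ≠ 0) : P.Mu w s x = P.d w x / (4 * (1 + 2 * D w * s)) := by
  rw [Prof.Mu, h.q, h.eL]
  generalize hq : 1 + 2 * D w * s = q at hs
  field_simp
  rw [← hq]
  ring

variable {P : Prof} {c : ℝ}

/-- More values of the fields of the layer `w` at a point. -/
structure CG (Z : ZD P c) (w : Fin 2) (z : Z2) : Prop where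
  cf : ZId.CF Z w z
  q : Real.exp (val (Z.G w).lq z) =
    1 + P.χ w (z.2 1) * (z.1 * z.2 0 * (2 * Real.exp (2 * P.L w (z.2 1))))
  P0 : val ((Z.G w).P0 expG) z =
    -(2 * Real.exp (-(2 * P.L w (z.2 1))) * Real.exp (2 * val (Z.G w).lq z))
  W : val ((Z.G w).W expG) z = val ((Z.G w).P0 expG) z + val (Z.G w).w1 z
  t1 : val ((Z.G w).τ₁ gD expG * Z.dW' w) z = val ((Z.G w).τ₁ gD expG) z *
    (val ((Z.G w).al expG) z * val ((Z.G w).W expG) z - val ((Z.G w).P0 expG) z)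
  t2 : val ((Z.G w).w2 * (Z.G w).τ₂ gD expG) z = val (Z.G w).w2 z * val ((Z.G w).τ₂ gD expG) z
  t3 : val ((Z.G w).b gD expG * Z.dW' w) z =
    (4 * val ((Z.G w).μ expG) z ^ 2 * Real.exp (val (Z.G w).la z) * val ((Z.G w).Pp gD expG) z *
        val (Z.G w).bp z + Real.exp (val (Z.G w).lc z) * val ((Z.G w).P1 gD expG) z) *
      Real.exp (-val (Z.G w).lAo z) *
      (val ((Z.G w).al expG) z * val ((Z.G w).W expG) z - val ((Z.G w).P0 expG) z)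
  st : ∀ J, |z.2 1 - P.xJ J| ≤ P.δ → (∀ j, val (Z.s.Z w j) z = 0) ∧ val (Z.G w).rho z = 0

open ZId in
theorem cg (b2 : B2Stmt) (av : AvgStmt) (wt : WtStmt) (lb : LayBasicStmt) {g : P.Geo c}
    {Z : ZD P c} {N : ℕ} {Cb : ℝ} (hZ : Z.Ok g N Cb) (w : Fin 2) :
    ∀ᶠ z in P.lL c w, CG Z w z := by
  have hm := isCut hZ.c₁_pos
  have A : AvgFacts (P.lL c w) _ _ := av.1 c (P.lo w) (P.hi w) g.pos
  have F := (hZ.fin.lay _ hm w).1
  have h : Ev (P.lL c w) expG val := ev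
  have r := fun a : SG (P.lL c w) => V.rf (l := P.lL c w) (v := val) a
  have hL : V (P.lL c w) val (Z.G w).L fun z => P.L w (z.2 1) :=
    val_gm (A.xfun (P.L w) fun x hx => hZ.prof.sm_L w x (lh_sub hZ.prof w hx)).1
  have hχ : V (P.lL c w) val (Z.G w).chi fun z => P.χ w (z.2 1) :=
    val_gm (A.xfun (P.χ w) fun x hx => hZ.prof.sm_χ w x (lh_sub hZ.prof w hx)).1
  have hs : V (P.lL c w) val (Z.G w).s0 fun z => z.1 * z.2 0 :=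
    h.vmul (val_gm A.eps.1) (val_gm A.crd.1)
  have hW : V (P.lL c w) val (Z.dW' w) _ := h.vsub (h.vmul (r _) (r _)) (r _)
  filter_upwards [cf b2 av wt lb hZ w, V.eq F.ok.lq (h.vexp (r _))
      (h.vadd h.vone (h.vmul hχ (h.vmul hs (h.vmul h.vtwo (h.vexp (h.vmul h.vtwo hL)))))),
    h.vneg (h.vmul (h.vmul h.vtwo (h.vexp (h.vneg (h.vmul h.vtwo hL))))
      (h.vexp (h.vmul h.vtwo (r (Z.G w).lq)))),
    h.vadd (r ((Z.G w).P0 expG)) (r (Z.G w).w1), h.vmul (r ((Z.G w).τ₁ gD expG)) hW,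
    h.vmul (r (Z.G w).w2) (r ((Z.G w).τ₂ gD expG)),
    h.vmul (h.vmul (h.vadd (h.vmul (h.vmul (h.vmul (h.vmul h.vfour (h.vsq (r ((Z.G w).μ expG))))
      (h.vexp (r (Z.G w).la))) (r ((Z.G w).Pp gD expG))) (r (Z.G w).bp))
      (h.vmul (h.vexp (r (Z.G w).lc)) (r ((Z.G w).P1 gD expG))))
      (h.vexp (h.vneg (r (Z.G w).lAo)))) hW, hZ.fin.stripL _ hm w]
    with z h1 h2 h3 h4 h5 h6 h7 h8
  exact ⟨h1, h2, h3, h4, h5, h6, h7, h8⟩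

/-- The values of the fields of the layer `w` at a point of the corner. -/
structure VW (Z : ZD P c) (J : Bool) (ε : ℝ) (ℓ : En 2) (w : Fin 2) (D p q y μ : ℝ) : Prop where
  lam : Z.L J ε w (Z.G w).lam ℓ = 0
  nu : Z.L J ε w (Z.G w).nu ℓ = 0
  w2 : Z.L J ε w (Z.G w).w2 ℓ = 0
  t0 : 0 < Z.at' J ε w ℓ
  al : ℓ w * Z.H.K J w ℓ / ε * Z.at' J ε w ℓ = (q - y) / q
  W : Z.L J ε w ((Z.G w).W expG) ℓ = -(q / (2 * D * μ))
  eA : Z.L J ε w (expG (Z.G w).lA) ℓ = q / (4 * D * μ)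
  iA : Z.L J ε w (expG (-(Z.G w).lAo)) ℓ = (q / (4 * D * μ))⁻¹
  dC : Z.L J ε w (expG (-(Z.G w).lC) - expG (-(Z.G w).lCl)) ℓ = 0
  xi : ℓ w * Z.H.K J w ℓ / ε * Z.L J ε w (Z.G w).Xi2 ℓ =
    4 - Z.at' J ε w ℓ ^ 2 * (q / (4 * D * μ)) * (4 * D * μ * q / (1 + ε * D) ^ 2)
  u : Real.exp (2 * Z.o J ε (Z.s.u w) ℓ) = 4 * D * μ * q / (1 + ε * D) ^ 2
  t1 : Z.L J ε w ((Z.G w).τ₁ gD expG * Z.dW' w) ℓ = -(4 * y / (D * μ))
  t2 : Z.L J ε w ((Z.G w).w2 * (Z.G w).τ₂ gD expG) ℓ = 0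
  t3 : Z.L J ε w ((Z.G w).b gD expG * Z.dW' w) ℓ = 2 * p * y / D
  dS : ∀ j, 2 * D * Z.H.dS J w j ℓ = q * (2 * p * δP j (Z.H.ξ J) ℓ - Z.H.n J j ℓ / Z.H.φ J ℓ)
  Dp : D = 4 * μ * q * (1 + p ^ 2)

def U (ρ : ℝ) : Set (En 2) := {ℓ | ℓ ∈ Int2 ∧ ∀ w, ℓ w < ρ}

theorem isOpen_U (ρ : ℝ) : IsOpen (U ρ) := by
  refine ((isOpen_lt continuous_const (continuous_apply 0)).inter
    ((isOpen_lt continuous_const (continuous_apply 1)).inter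
      (isOpen_lt continuous_const ZOut.cd_τ.continuous))).inter ?_
  change IsOpen {ℓ : En 2 | ∀ w, ℓ w < ρ}
  rw [ofPred_forall]
  exact isOpen_iInter_of_finite fun w => isOpen_lt (continuous_apply w) continuous_const

theorem pos {ℓ : En 2} (h : ℓ ∈ Int2) (w : Fin 2) : 0 < ℓ w := by
  fin_cases w
  exacts [h.1, h.2.1]

theorem xi_mem {H : Chart} (h : H.Ok P c) (J : Bool) {ℓ : En 2} (hU : ℓ ∈ U H.ρ) :
    |H.ξ J ℓ - P.xJ J| < P.δ := by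
  have h0 : 0 < 1 * (P.xJ J - H.ξ J ℓ) + P.δ :=
    (h.col J 0 ℓ (ZOut.nb h.pos.2.1 hU.1) (hU.2 0).le).2.2.2.2.2
  have h1 : 0 < -1 * (P.xJ J - H.ξ J ℓ) + P.δ :=
    (h.col J 1 ℓ (ZOut.nb h.pos.2.1 hU.1) (hU.2 1).le).2.2.2.2.2
  exact abs_lt.2 ⟨by linarith, by linarith⟩

theorem pdn_mu {D p : Fin 2 → ℝ} {a ε : ℝ} (w : Fin 2) {z : En 2}
    (hS : ∀ x, |x - a| < P.δ → ∃ p, SF P D p x) (hz : |z 1 - a| < P.δ) (S : SF P D p (z 1))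
    (hq : 1 + 2 * D w * (ε * z 0) ≠ 0)
    (hM : DifferentiableAt ℝ (fun p : En 2 => P.Mu w (ε * p 0) (p 1)) z) :
    pdn 1 (fun p : En 2 => P.Mu w (ε * p 0) (p 1)) z = 2 * p w * P.Mu w (ε * z 0) (z 1) := by
  have h2 := hM.hasFDerivAt.comp_hasDerivAt_of_eq (z 1) (hasDerivAt_update z 1 (z 1))
    (Function.update_eq_self 1 z).symm
  have h3 := (S.dd w).div_const (4 * (1 + 2 * D w * (ε * z 0)))
  have h4 : (fun p : En 2 => P.Mu w (ε * p 0) (p 1)) ∘ Function.update z 1 =ᶠ[𝓝 (z 1)]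
      fun x => P.d w x / (4 * (1 + 2 * D w * (ε * z 0))) := by
    filter_upwards [(isOpen_strip _ _).mem_nhds hz] with x hx
    obtain ⟨p', S'⟩ := hS x hx
    rw [← S'.mu w hq]
    simp
  rw [pdn, h2.unique (h3.congr_of_eventuallyEq h4), S.mu w hq]
  ring

theorem vw (b1 : B1Stmt) {Z : ZD P c} {J : Bool} {ε : ℝ} {ℓ : En 2} {D p : Fin 2 → ℝ} (w : Fin 2)
    (H : Z.H.Ok P c) (hε : 0 < ε) (hU : ℓ ∈ U Z.H.ρ)
    (hS : ∀ x, |x - P.xJ J| < P.δ → ∃ p, SF P D p x) (S : SF P D p (Z.H.ξ J ℓ))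
    (F : CG Z w (ε, Z.H.ΦL J w ε ℓ))
    (O : Z.o J ε Z.s.la ℓ = 0 ∧ Z.o J ε Z.s.bp ℓ = 0 ∧ Z.o J ε Z.s.lc ℓ = 0 ∧
      ∀ i, Z.o J ε (Z.s.u i) ℓ = P.L i (Z.H.ξ J ℓ) -
        Real.log (1 + ε * P.χ i (Z.H.ξ J ℓ) * Real.exp (2 * P.L i (Z.H.ξ J ℓ)))) :
    VW Z J ε ℓ w (D w) (p w) (1 + 2 * D w * (ℓ w * Z.H.K J w ℓ))
      (mcut Z.c₁ (ℓ w * Z.H.K J w ℓ) * Real.exp (-(2 * Z.H.σ J w ε ℓ))) (τP ℓ * Z.H.φ J ℓ) := by
  have ρ0 := H.pos.2.1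
  have es : ∀ x, ε * Z.H.ΦL J w ε x 0 = x w * Z.H.K J w x := fun x => by
    change ε * (x w * Z.H.K J w x / ε) = _
    field_simp
  have h0 := pos hU.1 w
  obtain ⟨sφ, sξ, φ0, -⟩ := H.sm J ℓ (ZOut.nb ρ0 hU.1)
  obtain ⟨sK, k0, -, hμ, -⟩ := H.col J w ℓ (ZOut.nb ρ0 hU.1) (hU.2 w).le
  have K0 : 0 < Z.H.K J w ℓ := H.pos.2.2.2.1.trans_le k0
  have he : ∀ᶠ x in 𝓝 ℓ, P.Mu w (ε * Z.H.ΦL J w ε x 0) (Z.H.ΦL J w ε x 1) = τP x * Z.H.φ J x := by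
    filter_upwards [(isOpen_U _).mem_nhds hU] with x hx
    rw [es]
    exact (H.col J w x (ZOut.nb ρ0 hx.1) (hx.2 w).le).2.2.2.1
  have hΦ : P.Φ w ε (Z.H.ΦL J w ε ℓ) = Z.H.ΦO J ℓ := by
    rw [Prof.Φ, he.self_of_nhds]; rfl
  have ch := fun j => ZId.chain b1 Z.H J w j hε.ne' sφ sξ sK F.cf.dM he
  have hx := xi_mem H J hU
  have D0 := S.D0 w
  have q0 : 0 < 1 + 2 * D w * (ℓ w * Z.H.K J w ℓ) := by positivity
  have a1 := pdn_mu (z := Z.H.ΦL J w ε ℓ) (ε := ε) w hS hx S (by rw [es]; exact q0.ne') F.cf.dM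
  rw [he.self_of_nhds] at a1
  obtain ⟨⟨V, e1, e2, e3, e4, -, e5, e6, e7, e8, e9, e10, -⟩, f1, f2, f3, f4, f5, f6, f7⟩ := F
  obtain ⟨f7, f8⟩ := f7 J hx.le
  obtain ⟨o1, o2, o3, o4⟩ := O
  simp only [hΦ, f7, mul_zero, he.self_of_nhds] at e3 e6 e7 e8 e9 e10
  replace e7 := e7.trans o1
  replace e8 := e8.trans o2
  replace e9 := e9.trans o3
  have z0 : val (Z.G w).lam (ε, Z.H.ΦL J w ε ℓ) = 0 := e6 0
  have z1 : val (Z.G w).gam (ε, Z.H.ΦL J w ε ℓ) = 0 := e6 1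
  have z3 : val (Z.G w).w1 (ε, Z.H.ΦL J w ε ℓ) = 0 := e6 3
  have z4 : val (Z.G w).w2 (ε, Z.H.ΦL J w ε ℓ) = 0 := e6 4
  have σ0 : 0 < Z.H.σ J w ε ℓ := div_pos (mul_pos h0 K0) hε
  replace e2 : val (cG (P.lL c w)) (ε, Z.H.ΦL J w ε ℓ) = Z.H.σ J w ε ℓ := e2
  replace e5 : val (Z.G w).y (ε, Z.H.ΦL J w ε ℓ) =
      mcut Z.c₁ (ℓ w * Z.H.K J w ℓ) * Real.exp (-(2 * Z.H.σ J w ε ℓ)) := by
    rw [e5, ← es]; rfl
  replace f1 : Real.exp (val (Z.G w).lq (ε, Z.H.ΦL J w ε ℓ)) =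
      1 + 2 * D w * (ℓ w * Z.H.K J w ℓ) := by
    rw [f1, ← S.q w, ← es]; rfl
  have hd := S.mu w q0.ne'
  rw [hμ, eq_div_iff (by positivity)] at hd
  have hL := S.eL w
  have hD := S.Dp w
  have hχ : P.χ w (Z.H.ξ J ℓ) * Real.exp (2 * P.L w (Z.H.ξ J ℓ)) = D w := by
    rw [hL]; linear_combination D w * S.chi w
  have μ0 : 0 < τP ℓ * Z.H.φ J ℓ := mul_pos hU.1.2.2 φ0
  rw [← hd] at hL hD
  have hn : ∀ j, Z.H.n J j ℓ / Z.H.φ J ℓ * (τP ℓ * Z.H.φ J ℓ) = τP ℓ * Z.H.n J j ℓ := fun j => by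
    field_simp
  generalize τP ℓ * Z.H.φ J ℓ = μ at *
  generalize 1 + 2 * D w * (ℓ w * Z.H.K J w ℓ) = q at *
  generalize mcut Z.c₁ (ℓ w * Z.H.K J w ℓ) * Real.exp (-(2 * Z.H.σ J w ε ℓ)) = y at *
  replace f2 : val ((Z.G w).P0 expG) (ε, Z.H.ΦL J w ε ℓ) = -(q / (2 * D w * μ)) := by
    rw [f2, two_mul (val _ _), Real.exp_add, f1, Real.exp_neg]
    change -(2 * (Real.exp (2 * P.L w (Z.H.ξ J ℓ)))⁻¹ * _) = _
    rw [hL]
    field_simp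
    ring
  have a2 : val ((Z.G w).τ₂ gD expG) (ε, Z.H.ΦL J w ε ℓ) = 2 * p w * μ := (e4 1).trans a1
  have a3 := V.P1
  have a4 := V.Pp
  have a5 := V.A
  simp only [f2, a2, e8, zero_mul, add_zero] at a3 a4
  simp only [a3, a4, e3, e7, e9, Real.exp_zero] at a5
  replace a5 : Real.exp (val (Z.G w).lAo (ε, Z.H.ΦL J w ε ℓ)) = q / (4 * D w * μ) := by
    rw [a5]
    field_simp
    linear_combination -4 * hD
  have a6 : val (Z.G w).lA (ε, Z.H.ΦL J w ε ℓ) = val (Z.G w).lAo (ε, Z.H.ΦL J w ε ℓ) := by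
    rw [V.lA]; simp only [z0, f8]; ring
  have a7 : val ((Z.G w).al expG) (ε, Z.H.ΦL J w ε ℓ) = (q - y) / q := by
    rw [V.al]
    simp only [e5, Real.exp_neg, f1]
    field_simp
  have a8 : Real.exp (2 * Z.o J ε (Z.s.u w) ℓ) = 4 * D w * μ * q / (1 + ε * D w) ^ 2 := by
    rw [o4, mul_assoc, hχ, mul_sub, Real.exp_sub, hL, two_mul (Real.log _), Real.exp_add,
      Real.exp_log (by positivity)]
    field_simp
  have t0 : 0 < Z.at' J ε w ℓ := by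
    rw [ZD.at', ZD.L, V.ath]; positivity
  rw [z3, add_zero, f2] at f3
  refine ⟨z0, e6 2, z4, t0, ?_, f3, ?_, ?_, ?_, ?_, a8, ?_, ?_, ?_, fun j => ?_, by linarith⟩
  · have := V.al'
    rw [← a7]
    simp only [e2] at this
    change Z.H.σ J w ε ℓ * _ = _
    rw [ZD.at', ZD.L, V.ath, Real.exp_sub]
    field_simp
    linear_combination this
  · rw [ZD.L, V.eA]; simp only [a6, a5]
  · rw [ZD.L, V.iA]; simp only [Real.exp_neg, a5]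
  · rw [ZD.L, V.dC, V.lC]; simp only [z1, mul_zero, add_zero, sub_self]
  · have b1 := V.xi
    have b2 := eq_inv_of_mul_eq_one_right V.hr
    simp only [b2, e2, z0, add_zero, e10, a6, Real.exp_add, a5] at b1
    rw [ZD.at', ZD.L, ZD.L, V.ath, ← a8]
    refine b1.trans ?_
    rw [two_mul (_ - _), Real.exp_add, ZD.o]
    ring
  · rw [ZD.L, f4, V.τ₁]
    simp only [a4, e7, Real.exp_zero, Real.exp_neg, a5, a7, f3, f2]
    field_simp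
    ring
  · rw [ZD.L, f5, z4, zero_mul]
  · rw [ZD.L, f6]
    simp only [a3, e8, e9, Real.exp_zero, Real.exp_neg, a5, a7, f3, f2]
    field_simp
    ring
  · have b1 := ch j
    have b2 := V.dμ
    simp only [e4, f2, e1] at b2
    rw [a1, ← hn] at b1
    generalize Z.H.n J j ℓ / Z.H.φ J ℓ = n at *
    field_simp at b2
    apply mul_left_cancel₀ (mul_pos hε μ0).ne'
    linear_combination q * b1 - Z.H.dS J w j ℓ * b2

theorem pdn_σ (H : Chart) (J : Bool) (w i : Fin 2) (ε : ℝ) {ℓ : En 2}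
    (hK : ContDiffAt ℝ ∞ (H.K J w) ℓ) : pdn i (H.σ J w ε) ℓ =
      ε⁻¹ * (ℓ w * pdn i (H.K J w) ℓ + (if i = w then 1 else 0) * H.K J w ℓ) := by
  have dK := hK.differentiableAt (by simp)
  have dw : DifferentiableAt ℝ (fun x : En 2 => x w) ℓ := differentiableAt_apply w ℓ
  have eσ : H.σ J w ε = ε⁻¹ • ((fun x : En 2 => x w) * H.K J w) := by
    funext x
    simp only [Chart.σ, Pi.smul_apply, Pi.mul_apply, smul_eq_mul]
    ring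
  rw [eσ, pdn_smul (dw.mul dK), pdn_mul dw dK, ZId.pdn_crd]

theorem δσ (H : Chart) (J : Bool) (w j : Fin 2) (ε : ℝ) {ℓ : En 2}
    (hK : ContDiffAt ℝ ∞ (H.K J w) ℓ) : δP j (H.σ J w ε) ℓ = H.dS J w j ℓ / ε := by
  simp only [δP, EP, pdn_σ H J w _ ε hK, Chart.dS, Chart.S]
  fin_cases w <;> fin_cases j <;> simp <;> ring

theorem far {Z : ZD P c} {J : Bool} {ℓ : En 2} (H : Z.H.Ok P c) (c1 : 0 < Z.c₁)
    (c2 : 8 * Z.c₁ ≤ Z.H.ρ * Z.H.k₀) (hU : ℓ ∈ U Z.H.ρ) {w : Fin 2} (h : Z.H.ρ / 2 ≤ ℓ w) :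
    mcut Z.c₁ (ℓ w * Z.H.K J w ℓ) = 0 ∧ ncut Z.c₁ (ℓ w * Z.H.K J w ℓ) = 1 := by
  have k0 := (H.col J w ℓ (ZOut.nb H.pos.2.1 hU.1) (hU.2 w).le).2.1
  have : 4 ≤ ℓ w * Z.H.K J w ℓ / Z.c₁ := by
    rw [le_div_iff₀ c1]
    nlinarith [mul_le_mul h k0 H.pos.2.2.2.1.le (pos hU.1 w).le]
  exact ⟨Real.smoothTransition.zero_of_nonpos (by linarith),
    Real.smoothTransition.one_of_one_le (by linarith)⟩

theorem algQ {D₀ D₁ q₀ q₁ p₀ p₁ μ a a' n n' S₀ S₀' S₁ S₁' : ℝ} (hp : p₀ * p₁ = -1) (hμ : μ ≠ 0)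
    (h₀ : q₀ ≠ 0) (h₁ : q₁ ≠ 0) (d₀ : D₀ = 4 * μ * q₀ * (1 + p₀ ^ 2))
    (d₁ : D₁ = 4 * μ * q₁ * (1 + p₁ ^ 2)) (s₀ : 2 * D₀ * S₀ = q₀ * (2 * p₀ * a - n))
    (s₀' : 2 * D₀ * S₀' = q₀ * (2 * p₀ * a' - n')) (s₁ : 2 * D₁ * S₁ = q₁ * (2 * p₁ * a - n))
    (s₁' : 2 * D₁ * S₁' = q₁ * (2 * p₁ * a' - n')) :
    n * n' / 4 + a * a' = S₀ * S₀' * (4 * D₀ * μ / q₀) + S₁ * S₁' * (4 * D₁ * μ / q₁) := by
  have e : ∀ {D q p S a n : ℝ}, q ≠ 0 → D = 4 * μ * q * (1 + p ^ 2) →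
      2 * D * S = q * (2 * p * a - n) → S = (2 * p * a - n) / (8 * μ * (1 + p ^ 2)) := by
    intro D q p S a n hq d s
    rw [eq_div_iff (by positivity)]
    apply mul_left_cancel₀ hq
    rw [← s, d]; ring
  have h0 : p₀ ≠ 0 := by rintro rfl; simp at hp
  have e1 : p₁ = -p₀⁻¹ := by field_simp; linarith
  rw [e h₀ d₀ s₀, e h₀ d₀ s₀', e h₁ d₁ s₁, e h₁ d₁ s₁', d₀, d₁, e1]
  field_simp
  ring

theorem rel {Z : ZD P c} {J : Bool} {ε : ℝ} {ℓ : En 2} {D p : Fin 2 → ℝ} (H : Z.H.Ok P c)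
    (c1 : 0 < Z.c₁) (c2 : 8 * Z.c₁ ≤ Z.H.ρ * Z.H.k₀) (hε : 0 < ε) (hU : ℓ ∈ U Z.H.ρ)
    (pp : p 0 * p 1 = -1) (D0 : ∀ w, 0 < D w)
    (V : ∀ w, VW Z J ε ℓ w (D w) (p w) (1 + 2 * D w * (ℓ w * Z.H.K J w ℓ))
      (mcut Z.c₁ (ℓ w * Z.H.K J w ℓ) * Real.exp (-(2 * Z.H.σ J w ε ℓ))) (τP ℓ * Z.H.φ J ℓ))
    (o1 : Z.o J ε Z.s.la ℓ = 0) (o2 : Z.o J ε Z.s.bp ℓ = 0) (o3 : Z.o J ε Z.s.lc ℓ = 0) :
    Rel (Z.ν ε) (Z.p J ε) (Z.q J ε) (Z.v J ε) (BC Z.c₁ D ε) (fun ℓ w => Z.H.σ J w ε ℓ) 0 ℓ := by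
  have ρ0 := H.pos.2.1
  have l0 := pos hU.1
  obtain ⟨sφ, sξ, φ0, -, -, h6⟩ := H.sm J ℓ (ZOut.nb ρ0 hU.1)
  have hc := fun w => H.col J w ℓ (ZOut.nb ρ0 hU.1) (hU.2 w).le
  have K0 : ∀ w, 0 < Z.H.K J w ℓ := fun w => H.pos.2.2.2.1.trans_le (hc w).2.1
  have τ0 : 0 < τP ℓ := hU.1.2.2
  have ν0 : 0 < Z.ν ε := mul_pos hε H.pos.1
  have hσ := fun w j => δσ Z.H J w j ε (hc w).1
  obtain ⟨q, hq⟩ : ∃ q : Fin 2 → ℝ, ∀ w, 1 + 2 * D w * (ℓ w * Z.H.K J w ℓ) = q w := ⟨_, fun _ => rfl⟩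
  obtain ⟨y, hy⟩ : ∃ y : Fin 2 → ℝ, ∀ w, mcut Z.c₁ (ℓ w * Z.H.K J w ℓ) *
    Real.exp (-(2 * Z.H.σ J w ε ℓ)) = y w := ⟨_, fun _ => rfl⟩
  have q0 : ∀ w, 0 < q w := fun w => by
    have := D0 w; have := l0 w; have := K0 w
    rw [← hq]; positivity
  have y0 : ∀ w, Z.H.ρ / 2 ≤ ℓ w → y w = 0 := fun w h => by
    rw [← hy, (far H c1 c2 hU h).1, zero_mul]
  have hg : ∀ w, gC Z.c₁ (D w) ε (Z.H.σ J w ε ℓ) = q w - y w := fun w => by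
    have : ε * Z.H.σ J w ε ℓ = ℓ w * Z.H.K J w ℓ := by
      rw [Chart.σ]; field_simp
    rw [gC, this, ← hq, ← hy, ← this]; ring
  simp only [hq, hy] at V
  clear hq hy
  have g0 : ∀ w, 0 < q w - y w := fun w => by
    have h1 := (V w).al
    have h2 := mul_pos (div_pos (mul_pos (l0 w) (K0 w)) hε) (V w).t0
    rw [h1] at h2
    exact (div_pos_iff_of_pos_right (q0 w)).1 h2
  have z0 : ∀ w, Z.H.gl w ℓ 0 0 = 0 := fun w => by simp [Chart.gl]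
  have p1 : ∀ w, Z.p J ε w ℓ * ℓ w * Z.H.φ J ℓ = Z.ν ε * ε * (ℓ w * Z.H.K J w ℓ / ε *
      Z.at' J ε w ℓ * (4 * D w * (τP ℓ * Z.H.φ J ℓ) * q w / (1 + ε * D w) ^ 2)) := fun w => by
    have := (l0 w).ne'
    rw [ZD.p, (V w).lam, (V (w + 1)).nu, z0, z0, add_zero, add_zero, (V w).u,
      ZId.gl_in Z.H ρ0]
    · field_simp
    · intro h
      have h1 := (V w).al
      rw [y0 w h, sub_zero, div_self (q0 w).ne'] at h1
      field_simp at h1 ⊢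
      linarith
  have hB : ∀ w i j, Z.H.gl w ℓ (Z.Rin J ε w i j ℓ)
      (if i = w ∧ j = w then -(Z.ν ε * Z.p J ε w ℓ / (4 * ℓ w)) else 0) +
      (if i = w ∧ j = w then Z.ν ε * Z.p J ε w ℓ / (4 * ℓ w) else 0) =
      Z.ν ε ^ 2 / (ε * Z.H.φ J ℓ) * (Z.H.dS J w i ℓ * Z.H.dS J w j ℓ) *
        (4 * D w * (τP ℓ * Z.H.φ J ℓ) / (q w - y w) - 4 * D w * (τP ℓ * Z.H.φ J ℓ) / q w) := by
    intro w i j
    have := D0 w
    have := q0 w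
    have := g0 w
    have a1 := ZId.algB (S := Z.H.S J w i ℓ) (S' := Z.H.S J w j ℓ) (δ := if i = w then 1 else 0)
      (δ' := if j = w then 1 else 0) hε.ne' φ0.ne' (l0 w).ne' (K0 w).ne' (V w).t0.ne'
      (by positivity) (V w).xi (p1 w)
    have a2 : Z.Rin J ε w i j ℓ + (if i = w ∧ j = w then Z.ν ε * Z.p J ε w ℓ / (4 * ℓ w) else 0) =
        Z.ν ε ^ 2 / (ε * Z.H.φ J ℓ) * (Z.H.dS J w i ℓ * Z.H.dS J w j ℓ) *
        (4 * D w * (τP ℓ * Z.H.φ J ℓ) / (q w - y w) - 4 * D w * (τP ℓ * Z.H.φ J ℓ) / q w) := by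
      have a3 : ((q w - y w) / q w * (q w / (4 * D w * (τP ℓ * Z.H.φ J ℓ))))⁻¹ =
          4 * D w * (τP ℓ * Z.H.φ J ℓ) / (q w - y w) := by field_simp
      rw [(V w).al, div_eq_mul_inv (_ * _ * _), a3] at a1
      rw [ZD.Rin, ZD.aA, (V w).eA, (V w).iA, (V w).dC, inv_div]
      simp only [Chart.dS] at a1 ⊢
      by_cases hi : i = w <;> by_cases hj : j = w <;>
        simp only [hi, hj, if_true, if_false, and_self, and_false, false_and] at a1 ⊢ <;>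
        linear_combination a1
    rw [ZId.gl_in Z.H ρ0, a2]
    intro h
    rw [y0 w h, sub_zero, sub_self, mul_zero] at a2
    split_ifs at a2 ⊢ <;> linear_combination a2
  have r0 : Z.r₀ J ε ℓ = Z.H.φ J ℓ + EP (Z.H.φ J) ℓ -
      4 * Z.H.φ J ℓ ^ 2 * (y 0 / D 0 + y 1 / D 1) := by
    have : ∀ w, Z.H.gl w ℓ (Z.H.φ J ℓ ^ 2 *
        (τP ℓ * Z.H.φ J ℓ * Z.L J ε w ((Z.G w).τ₁ gD expG * Z.dW' w) ℓ +
          Z.L J ε w ((Z.G w).w2 * (Z.G w).τ₂ gD expG) ℓ)) 0 = -(4 * Z.H.φ J ℓ ^ 2 * (y w / D w)) := by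
      intro w
      have := D0 w
      rw [(V w).t1, (V w).t2, ZId.gl_in Z.H ρ0 fun h => by rw [y0 w h]; simp]
      field_simp
      ring
    simp only [ZD.r₀, this, Fin.sum_univ_two]
    ring
  have r1 : Z.r₁ J ε ℓ = EP (Z.H.ξ J) ℓ +
      2 * Z.H.φ J ℓ * (p 0 * (y 0 / D 0) + p 1 * (y 1 / D 1)) := by
    have : ∀ w, Z.H.gl w ℓ (Z.H.φ J ℓ * (Z.L J ε w ((Z.G w).b gD expG * Z.dW' w) ℓ +
        τP ℓ * Z.H.φ J ℓ * Z.L J ε w (Z.G w).w2 ℓ)) 0 = 2 * Z.H.φ J ℓ * (p w * (y w / D w)) := by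
      intro w
      rw [(V w).t3, (V w).w2, ZId.gl_in Z.H ρ0 fun h => by rw [y0 w h]; simp]
      ring
    simp only [ZD.r₁, this, Fin.sum_univ_two]
    ring
  have n0 : ∑ j, Z.Nv J ε j ℓ * Z.H.n J j ℓ = Z.r₀ J ε ℓ := by
    simp only [Fin.sum_univ_two, ZD.Nv, Matrix.cons_val_zero, Matrix.cons_val_one]
    field_simp
    rw [Chart.det]; ring
  have n1 : ∑ j, Z.Nv J ε j ℓ * δP j (Z.H.ξ J) ℓ = Z.r₁ J ε ℓ := by
    simp only [Fin.sum_univ_two, ZD.Nv, Matrix.cons_val_zero, Matrix.cons_val_one]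
    field_simp
    rw [Chart.det]; ring
  have key : ∀ w, ∑ j, (-ℓ j + τP ℓ * Z.Nv J ε j ℓ) * (2 * D w * Z.H.dS J w j ℓ) =
      -(q w - y w) := fun w => by
    have m0 : ∑ j, (-ℓ j + τP ℓ * Z.Nv J ε j ℓ) * (Z.H.n J j ℓ / Z.H.φ J ℓ) =
        1 - 4 * (τP ℓ * Z.H.φ J ℓ) * (y 0 / D 0 + y 1 / D 1) := by
      rw [r0] at n0
      simp only [Fin.sum_univ_two, Chart.n, δP, EP] at n0 ⊢
      generalize y 0 / D 0 + y 1 / D 1 = t at *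
      field_simp
      rw [τP]
      linear_combination (1 - ℓ 0 - ℓ 1) * n0
    have m1 : ∑ j, (-ℓ j + τP ℓ * Z.Nv J ε j ℓ) * δP j (Z.H.ξ J) ℓ =
        2 * (τP ℓ * Z.H.φ J ℓ) * (p 0 * (y 0 / D 0) + p 1 * (y 1 / D 1)) := by
      rw [r1] at n1
      simp only [Fin.sum_univ_two, δP, EP, τP] at n1 ⊢
      linear_combination (1 - ℓ 0 - ℓ 1) * n1
    have m2 : y w / D w * (4 * (τP ℓ * Z.H.φ J ℓ) * q w * (1 + p w ^ 2)) = y w := by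
      rw [← (V w).Dp, div_mul_cancel₀ _ (D0 w).ne']
    simp only [(V w).dS, Fin.sum_univ_two] at m0 m1 ⊢
    fin_cases w
    · simp only [Fin.zero_eta] at m2 ⊢
      linear_combination 2 * q 0 * p 0 * m1 - q 0 * m0 + m2 +
        4 * q 0 * (τP ℓ * Z.H.φ J ℓ) * (y 1 / D 1) * pp
    · simp only [Fin.mk_one] at m2 ⊢
      linear_combination 2 * q 1 * p 1 * m1 - q 1 * m0 + m2 +
        4 * q 1 * (τP ℓ * Z.H.φ J ℓ) * (y 0 / D 0) * pp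
  have hv : ∀ w, (-1 + τP ℓ * Z.v J ε w ℓ) * ℓ w = -ℓ w + τP ℓ * Z.Nv J ε w ℓ := fun w => by
    have a0 := (l0 w).ne'
    have a1 := (K0 w).ne'
    have a2 := (D0 w).ne'
    have a3 := (q0 w).ne'
    have h1 := key w
    have h2 := (V w).al
    have e : w + 1 ≠ w := by fin_cases w <;> simp
    have e3 : ℓ w * Z.H.S J w w ℓ + ℓ (w + 1) * Z.H.S J w (w + 1) ℓ =
        τP ℓ * (EP (Z.H.K J w) ℓ + Z.H.K J w ℓ) - Z.H.K J w ℓ := by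
      fin_cases w <;> simp [Chart.S, δP, EP, τP] <;> ring
    rw [ZId.sum_w _ w] at h1
    simp only [Chart.dS, if_true, e, if_false] at h1
    have h3 : Z.H.φ J ℓ * Z.at' J ε w ℓ * Z.L J ε w ((Z.G w).W expG) ℓ / ε + 1 +
        (EP (Z.H.K J w) ℓ - ∑ j, Z.Nv J ε j ℓ * Z.H.S J w j ℓ) / Z.H.K J w ℓ =
        Z.Nv J ε w ℓ / ℓ w := by
      rw [(V w).W, ZId.sum_w _ w]
      field_simp at h2 ⊢
      linear_combination -h2 - ε * h1 - 2 * ε * D w * ℓ w * e3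
    rw [ZD.v, h3, ZId.gl_in Z.H ρ0 fun _ => rfl]
    field_simp
  have hV : ∀ w, ∑ j, (-1 + τP ℓ * Z.v J ε j ℓ) * ℓ j * δP j (Z.H.σ J w ε) ℓ =
      (q w - y w) / (4 * ε * D w) * -2 := fun w => by
    have h1 := key w
    have := D0 w
    simp only [hv, hσ, Fin.sum_univ_two] at h1 ⊢
    field_simp
    linear_combination 2 * h1
  have hF : ∀ w, 4 * ε * D w * (q w - y w) / (1 + ε * D w) ^ 2 =
      Z.p J ε w ℓ * ℓ w / (Z.ν ε * τP ℓ) := fun w => by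
    have h1 := p1 w
    have := D0 w
    have := q0 w
    rw [(V w).al, ← eq_div_iff φ0.ne'] at h1
    rw [h1]
    field_simp
  refine ⟨fun i j => ?_, ?_, ?_, ?_, ?_⟩
  · have h1 := algQ pp (mul_pos τ0 φ0).ne' (q0 0).ne' (q0 1).ne' (V 0).Dp (V 1).Dp ((V 0).dS i)
      ((V 0).dS j) ((V 1).dS i) ((V 1).dS j)
    have h2 : Z.qo J ε i j ℓ = Z.ν ε ^ 2 / (ε * Z.H.φ J ℓ) *
        (Z.H.n J i ℓ / Z.H.φ J ℓ * (Z.H.n J j ℓ / Z.H.φ J ℓ) / 4 +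
          δP i (Z.H.ξ J) ℓ * δP j (Z.H.ξ J) ℓ) := by
      simp only [ZD.qo, ZD.om, o1, o2, o3, neg_zero, Real.exp_zero]
      field_simp
      ring
    have h3 : (if i = j then Z.ν ε * Z.p J ε i ℓ / (4 * ℓ i) else 0) =
        (if i = 0 ∧ j = 0 then Z.ν ε * Z.p J ε 0 ℓ / (4 * ℓ 0) else 0) +
        (if i = 1 ∧ j = 1 then Z.ν ε * Z.p J ε 1 ℓ / (4 * ℓ 1) else 0) := by
      fin_cases i <;> fin_cases j <;> simp
    have h4 : ∀ w, Z.ν ε ^ 2 * τP ℓ * (Z.H.dS J w i ℓ / ε * (Z.H.dS J w j ℓ / ε) *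
        (4 * ε * D w / (q w - y w))) = Z.ν ε ^ 2 / (ε * Z.H.φ J ℓ) *
        (Z.H.dS J w i ℓ * Z.H.dS J w j ℓ) * (4 * D w * (τP ℓ * Z.H.φ J ℓ) / (q w - y w)) :=
      fun w => by
        have := g0 w
        field_simp
    simp only [BC, hg, zero_mul, sub_zero, hσ]
    rw [ZD.q, Fin.sum_univ_two, h2, h1, h3]
    linear_combination hB 0 i j + hB 1 i j - h4 0 - h4 1
  · simp only [BC, hg]
    exact hF 0
  · simp only [BC, hg]
    exact hF 1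
  · refine (hV 0).trans ?_
    simp [Blk.V, BC, hg]
  · refine (hV 1).trans ?_
    simp [Blk.V, BC, hg]

theorem K_bd {H : Chart} (h : H.Ok P c) (J : Bool) (w : Fin 2) :
    ∃ B : ℝ, ∀ ℓ ∈ U H.ρ, H.K J w ℓ ≤ B := by
  obtain ⟨B, hB⟩ := ((ZOut.cpt H.ρ).inter_right
    (isClosed_le (continuous_apply w) continuous_const (g := fun _ => H.ρ))).exists_bound_of_continuousOn
    (f := H.K J w) fun ℓ hℓ => (h.col J w ℓ hℓ.1 hℓ.2).1.continuousAt.continuousWithinAt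
  exact ⟨B, fun ℓ hℓ => (le_abs_self _).trans (hB ℓ ⟨ZOut.nb h.pos.2.1 hℓ.1, (hℓ.2 w).le⟩)⟩

theorem jac {Z : ZD P c} {J : Bool} {ε a : ℝ} {ℓ : En 2} {D p y : Fin 2 → ℝ} (H : Z.H.Ok P c)
    (hε : 0 < ε) (hU : ℓ ∈ U Z.H.ρ) (pp : p 0 * p 1 = -1) (D0 : ∀ w, 0 < D w)
    (V : ∀ w, VW Z J ε ℓ w (D w) (p w) (1 + 2 * D w * (ℓ w * Z.H.K J w ℓ)) (y w)
      (τP ℓ * Z.H.φ J ℓ)) (ha : a ≤ |Z.H.det J ℓ|) (h : D 0 * D 1 * P.M₀ * ε ^ 3 ≤ a) :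
    ε ≤ |pdn 0 (Z.H.σ J 0 ε) ℓ * pdn 1 (Z.H.σ J 1 ε) ℓ -
      pdn 1 (Z.H.σ J 0 ε) ℓ * pdn 0 (Z.H.σ J 1 ε) ℓ| := by
  have ρ0 := H.pos.2.1
  obtain ⟨-, -, φ0, hM, -⟩ := H.sm J ℓ (ZOut.nb ρ0 hU.1)
  have hc := fun w => H.col J w ℓ (ZOut.nb ρ0 hU.1) (hU.2 w).le
  have q1 : ∀ w, 1 ≤ 1 + 2 * D w * (ℓ w * Z.H.K J w ℓ) := fun w => by
    have := D0 w; have := pos hU.1 w; have := H.pos.2.2.2.1.trans_le (hc w).2.1
    exact le_add_of_nonneg_right (by positivity)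
  have hS : ∀ w j, 2 * D w * ε * Z.H.φ J ℓ * δP j (Z.H.σ J w ε) ℓ =
      (1 + 2 * D w * (ℓ w * Z.H.K J w ℓ)) *
        (2 * p w * Z.H.φ J ℓ * δP j (Z.H.ξ J) ℓ - Z.H.n J j ℓ) := fun w j => by
    have := (V w).dS j
    rw [δσ Z.H J w j ε (hc w).1]
    field_simp at this ⊢
    exact this
  have μ0 : 0 < τP ℓ * Z.H.φ J ℓ := mul_pos hU.1.2.2 φ0
  have a0 := q1 0
  have a1 := q1 1
  have s00 := hS 0 0
  have s01 := hS 0 1
  have s10 := hS 1 0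
  have s11 := hS 1 1
  generalize 1 + 2 * D 0 * (ℓ 0 * Z.H.K J 0 ℓ) = q₀ at *
  generalize 1 + 2 * D 1 * (ℓ 1 * Z.H.K J 1 ℓ) = q₁ at *
  generalize hj : pdn 0 (Z.H.σ J 0 ε) ℓ * pdn 1 (Z.H.σ J 1 ε) ℓ -
      pdn 1 (Z.H.σ J 0 ε) ℓ * pdn 0 (Z.H.σ J 1 ε) ℓ = j
  have e1 : τP ℓ * j = δP 0 (Z.H.σ J 0 ε) ℓ * δP 1 (Z.H.σ J 1 ε) ℓ -
      δP 1 (Z.H.σ J 0 ε) ℓ * δP 0 (Z.H.σ J 1 ε) ℓ := by
    rw [← hj]
    simp only [δP, EP, τP]
    ring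
  have e2 : 2 * D 0 * D 1 * ε ^ 2 * (τP ℓ * Z.H.φ J ℓ) * j =
      q₀ * q₁ * (p 0 - p 1) * Z.H.det J ℓ := by
    apply mul_left_cancel₀ (mul_pos two_pos φ0).ne'
    have e3 := congrArg₂ (· - ·) (congrArg₂ (· * ·) s00 s11) (congrArg₂ (· * ·) s01 s10)
    rw [Chart.det]
    linear_combination e3 + 4 * D 0 * D 1 * ε ^ 2 * Z.H.φ J ℓ ^ 2 * e1
  have e4 : 2 ≤ |p 0 - p 1| := by
    rw [← abs_two, ← sq_le_sq]
    nlinarith [sq_nonneg (p 0 + p 1)]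
  have d0 := D0 0
  have d1 := D0 1
  have e5 := congrArg abs e2
  rw [abs_mul, abs_mul _ (Z.H.det J ℓ), abs_mul (q₀ * q₁), abs_of_pos (a := q₀ * q₁) (by positivity),
    abs_of_pos (by positivity)] at e5
  have e6 : 1 * 1 * 2 * a ≤ q₀ * q₁ * |p 0 - p 1| * |Z.H.det J ℓ| := by
    have : 0 ≤ a := le_trans (by have := μ0.trans (abs_lt.1 hM).2; positivity) h
    gcongr
  by_contra h1
  have e7 : 2 * D 0 * D 1 * ε ^ 2 * (τP ℓ * Z.H.φ J ℓ) * |j| <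
      2 * D 0 * D 1 * ε ^ 2 * P.M₀ * ε := by
    have := (abs_lt.1 hM).2
    have := lt_of_not_ge h1
    gcongr
  linarith

theorem bar {Z : ZD P c} {J : Bool} {ε : ℝ} {ℓ : En 2} (H : Z.H.Ok P c) (c1 : 0 < Z.c₁)
    (c2 : 8 * Z.c₁ ≤ Z.H.ρ * Z.H.k₀) (hε : 0 < ε) (hU : ℓ ∈ U Z.H.ρ) :
    Z.fb J ε ℓ = 1 + (bT Z.c₁ Z.M ε (Z.H.σ J 0 ε ℓ) (ncut Z.c₁ (ε * Z.H.σ J 1 ε ℓ)) +
      bT Z.c₁ Z.M ε (Z.H.σ J 1 ε ℓ) (ncut Z.c₁ (ε * Z.H.σ J 0 ε ℓ))) := by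
  have es : ∀ w, ε * Z.H.σ J w ε ℓ = ℓ w * Z.H.K J w ℓ := fun w => by
    rw [Chart.σ]; field_simp
  have h1 : ∀ w, Z.H.gl w ℓ (ncut Z.c₁ (ℓ w * Z.H.K J w ℓ)) 1 = ncut Z.c₁ (ε * Z.H.σ J w ε ℓ) :=
    fun w => by rw [es, ZId.gl_in Z.H H.pos.2.1 fun h => (far H c1 c2 hU h).2]
  have h2 : ∀ w n, Z.H.gl w ℓ (bT Z.c₁ Z.M ε (Z.H.σ J w ε ℓ) n) 0 =
      bT Z.c₁ Z.M ε (Z.H.σ J w ε ℓ) n := fun w n => ZId.gl_in Z.H H.pos.2.1 fun h => by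
    rw [bT, es, (far H c1 c2 hU h).1]; simp
  simp only [ZD.fb, h1, h2, Fin.sum_univ_two]
  rfl

theorem muC {Z : ZD P c} {J : Bool} {ε : ℝ} {ℓ : En 2} {D p y : Fin 2 → ℝ} {μ : ℝ} (hε : 0 < ε)
    (pp : p 0 * p 1 = -1) (D0 : ∀ w, 0 < D w)
    (V : ∀ w, VW Z J ε ℓ w (D w) (p w) (1 + 2 * D w * (ℓ w * Z.H.K J w ℓ)) (y w) μ) :
    μC D ε (fun w => Z.H.σ J w ε ℓ) = μ := by
  have es : ∀ w, 4 * (1 + 2 * ε * D w * Z.H.σ J w ε ℓ) / D w = μ⁻¹ * (1 + p w ^ 2)⁻¹ := fun w => by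
    have h1 := (V w).Dp
    have h2 := (D0 w).ne'
    have h3 : μ ≠ 0 := by
      rintro rfl
      exact h2 (by simpa using h1)
    rw [Chart.σ]
    field_simp
    linear_combination -h1
  have h0 : p 0 ≠ 0 := fun h => by simp [h] at pp
  have e1 : p 1 = -(p 0)⁻¹ := by field_simp; linarith
  have e2 : (1 + p 0 ^ 2)⁻¹ + (1 + p 1 ^ 2)⁻¹ = 1 := by
    rw [e1]; field_simp; ring
  rw [μC, es, es, ← mul_add, e2, mul_one, inv_inv]

theorem consts (hP : P.Ok) {J : Bool} {D p : Fin 2 → ℝ} (S : SF P D p (P.xJ J)) :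
    (4 / D 0 + 4 / D 1)⁻¹ ≤ P.M₀ ∧ (J = true → 1 / D 0 + 1 / D 1 ≤ 2 * P.κ) ∧
      (J = false → 3 * P.κ ≤ 1 / D 0 + 1 / D 1) := by
  obtain ⟨a1, a2, a3, a4⟩ := ord hP J
  have hδ := hP.δ_pos
  have hd : ∀ w, 1 / D w = P.d w (P.xJ J) * Real.exp (-(2 * P.L w (P.xJ J))) := fun w => by
    have := S.d0 w
    rw [Real.exp_neg, S.eL]
    field_simp
  refine ⟨?_, ?_, ?_⟩
  · have h0 : p 0 ≠ 0 := fun h => by simpa [h] using S.pp
    have e1 : p 1 = -(p 0)⁻¹ := by field_simp; linarith [S.pp]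
    have h1 := S.d0 1
    have e2 : (4 / D 0 + 4 / D 1)⁻¹ = P.d 1 (P.xJ J) / 4 := by
      rw [S.Dp, S.Dp, hP.junction, e1]
      field_simp
      ring
    have h2 := hP.d_bd 1 _ (Ioo_subset_Icc_self (mem_lh hP (J := J) (x := P.xJ J) (by simpa) 1))
    rw [e2]
    linarith [le_abs_self (P.d 1 (P.xJ J))]
  · rintro rfl
    have h1 := hP.m₀ (P.xJ true) ⟨by linarith, show P.xJ true ≤ P.xJ true + P.δ by linarith⟩
    have h2 := hP.m₁ (P.xJ true) ⟨by linarith, by linarith⟩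
    rw [hd, hd]
    linarith
  · rintro rfl
    have := one_div_pos.2 (S.D0 0)
    rw [hd 1]
    linarith [hP.m₂]

end ZCor

open ZCor in
theorem zcor (b1 : B1Stmt) (b2 : B2Stmt) (av : AvgStmt) (wt : WtStmt) (lb : LayBasicStmt)
    (cb : CorBlkStmt) : ZCorStmt := by
  intro P c g Z N Cb J N' hZ hM
  have H := hZ.chart
  have ρ0 := H.pos.2.1
  obtain ⟨D, hS⟩ := strip hZ.prof J
  obtain ⟨p₀, S₀⟩ := hS (P.xJ J) (by simpa using hZ.prof.δ_pos)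
  obtain ⟨k1, k2, k3⟩ := consts hZ.prof S₀
  obtain ⟨C, hC⟩ := cb D P.M₀ Z.M Z.c₁ c N' S₀.D0 hZ.prof.M_ge k1 hM hZ.c₁_pos
  obtain ⟨a, ha, hd⟩ := ZOut.det_ge H J
  choose B hB using K_bd H J
  have l1 : ∀ᶠ ε in 𝓝[>] (0 : ℝ), D 0 * D 1 * P.M₀ * ε ^ 3 < a :=
    nhdsWithin_le_nhds (ContinuousAt.eventually_lt (by fun_prop) continuousAt_const (by simpa))
  have l2 : ∀ w, ∀ᶠ ε in 𝓝[>] (0 : ℝ), ε * B w < 1 := fun w =>
    nhdsWithin_le_nhds (ContinuousAt.eventually_lt (by fun_prop) continuousAt_const (by simp))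
  refine ⟨C, ?_⟩
  filter_upwards [hC, eventually_all.2 fun w => ev_fam.1 (cg b2 av wt lb hZ w),
    ev_fam.1 hZ.fin.stripO, self_mem_nhdsWithin, l1, eventually_all.2 l2]
    with ε h1 h2 h3 hε h4 h5 ℓ hI hρ
  have hε : 0 < ε := hε
  have hσ : ∀ x ∈ U Z.H.ρ, ∀ w, 0 < Z.H.σ J w ε x ∧ ε * Z.H.σ J w ε x < c := fun x hx w => by
    obtain ⟨-, a1, a2, -⟩ := H.col J w x (ZOut.nb ρ0 hx.1) (hx.2 w).le
    refine ⟨div_pos (mul_pos (pos hx.1 w) (H.pos.2.2.2.1.trans_le a1)) hε, ?_⟩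
    rw [Chart.σ, mul_div_cancel₀ _ hε.ne']
    exact (abs_lt.1 a2).2
  have hO := fun x (hx : x ∈ U Z.H.ρ) => h3 (Z.H.ΦO J x)
    ⟨(H.sm J x (ZOut.nb ρ0 hx.1)).2.2.2.1, (H.sm J x (ZOut.nb ρ0 hx.1)).2.2.2.2.1⟩ J
    (xi_mem H J hx).le
  have hV : ∀ x ∈ U Z.H.ρ, ∃ p : Fin 2 → ℝ, p 0 * p 1 = -1 ∧ ∀ w, VW Z J ε x w (D w) (p w)
      (1 + 2 * D w * (x w * Z.H.K J w x))
      (mcut Z.c₁ (x w * Z.H.K J w x) * Real.exp (-(2 * Z.H.σ J w ε x))) (τP x * Z.H.φ J x) := by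
    intro x hx
    obtain ⟨p, S⟩ := hS _ (xi_mem H J hx)
    exact ⟨p, S.pp, fun w => vw b1 w H hε hx hS S (h2 w _ ⟨lt_trans (by norm_num) (hσ x hx w).1,
      (hσ x hx w).2, (H.col J w x (ZOut.nb ρ0 hx.1) (hx.2 w).le).2.2.2.2.1⟩) (hO x hx)⟩
  have hU : ℓ ∈ U Z.H.ρ := ⟨hI, hρ⟩
  have h7 := h1 (fun w => Z.H.σ J w ε ℓ) (hσ ℓ hU)
  refine ⟨_, _, _, fun ℓ w => Z.H.σ J w ε ℓ, 0, ?_, ?_,
    h7.sm, h7.pos, h7.err, h7.lap, h7.gam, h7.vol, h7.bar, fun hJ => ?_, fun hJ h8 => ?_⟩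
  · filter_upwards [(isOpen_U _).mem_nhds hU] with x hx
    obtain ⟨p, pp, V⟩ := hV x hx
    have e := muC hε pp S₀.D0 V
    refine ⟨rel H hZ.c₁_pos hZ.c₁_le hε hx pp S₀.D0 V (hO x hx).1 (hO x hx).2.1 (hO x hx).2.2.1,
      fun w => ?_, e, ?_⟩
    · exact (((contDiff_apply ℝ ℝ w).contDiffAt).mul
        (H.col J w x (ZOut.nb ρ0 hx.1) (hx.2 w).le).1).div_const ε
    · rw [ZD.bar, bar H hZ.c₁_pos hZ.c₁_le hε hx, e]
      rfl
  · obtain ⟨p, pp, V⟩ := hV ℓ hU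
    exact jac H hε hU pp S₀.D0 V (hd ℓ (ZOut.nb ρ0 hI)) h4.le
  · exact h7.scal.1.trans (add_le_add_left (div_le_div_of_nonneg_right (k2 hJ) hε.le) C)
  · refine (sub_le_sub_right (div_le_div_of_nonneg_right (k3 hJ) hε.le) C).trans
      (h7.scal.2 fun w => ?_)
    have a1 := H.pos.2.2.2.1.trans_le (H.col J w ℓ (ZOut.nb ρ0 hI) (hρ w).le).2.1
    have a2 : ℓ w * Z.H.K J w ℓ ≤ ε ^ 3 * B w := mul_le_mul (h8 w) (hB w ℓ hU) a1.le (by positivity)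
    change Z.H.σ J w ε ℓ ≤ ε
    rw [Chart.σ, div_le_iff₀ hε]
    nlinarith [h5 w, mul_pos hε hε]

end Pool.Agent.Lib.MP_df9110_gt
end
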